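import Mathlib

/-! ### part Super1 -/
section

/-!
PI34, E-block, file 1: signs and the signed action of `Perm ι` on functions on words.
-/

set_option linter.unusedSectionVars false
set_option linter.unusedSimpArgs false

namespace Pool.PI34.Super

open Equiv Finset

/-- Letters: `k` even letters and `l` odd letters. -/
abbrev Lt (k l : ℕ) := Fin k ⊕ Fin l

/-- Parity of a letter (`true` = odd). -/
abbrev odd {k l : ℕ} (c : Lt k l) : Bool := c.isRight

/-- Pairs of positions in increasing order. -/
def prs (ι : Type*) [Fintype ι] [LinearOrder ι] : Finset (ι × ι) :=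
  univ.filter (fun p => p.1 < p.2)

section signs

variable {ι : Type*} [Fintype ι] [LinearOrder ι]

theorem mem_prs {p : ι × ι} : p ∈ prs ι ↔ p.1 < p.2 := by simp [prs]

theorem prod_prs_perm {M : Type*} [CommMonoid M] (F : ι → ι → M)
    (hF : ∀ i j, F i j = F j i) (τ : Perm ι) :
    ∏ p ∈ prs ι, F (τ p.1) (τ p.2) = ∏ p ∈ prs ι, F p.1 p.2 := by
  classical
  refine Finset.prod_bij'
    (fun p _ => if τ p.1 < τ p.2 then (τ p.1, τ p.2) else (τ p.2, τ p.1))
    (fun p _ => if τ.symm p.1 < τ.symm p.2 then (τ.symm p.1, τ.symm p.2)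
      else (τ.symm p.2, τ.symm p.1)) ?_ ?_ ?_ ?_ ?_
  · intro p hp
    rw [mem_prs] at hp
    by_cases h : τ p.1 < τ p.2
    · simp only [h, if_true, mem_prs]
    · simp only [h, if_false, mem_prs]
      exact lt_of_le_of_ne (not_lt.1 h) (fun e => hp.ne' (τ.injective e))
  · intro p hp
    rw [mem_prs] at hp
    by_cases h : τ.symm p.1 < τ.symm p.2
    · simp only [h, if_true, mem_prs]
    · simp only [h, if_false, mem_prs]
      exact lt_of_le_of_ne (not_lt.1 h) (fun e => hp.ne' (τ.symm.injective e))
  · intro p hp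
    rw [mem_prs] at hp
    by_cases h : τ p.1 < τ p.2
    · simp [h, hp]
    · have : ¬ p.2 < p.1 := not_lt.2 hp.le
      simp [h, this]
  · intro p hp
    rw [mem_prs] at hp
    by_cases h : τ.symm p.1 < τ.symm p.2
    · simp [h, hp]
    · have : ¬ p.2 < p.1 := not_lt.2 hp.le
      simp [h, this]
  · intro p hp
    by_cases h : τ p.1 < τ p.2
    · simp [h]
    · simp only [h, if_false]
      exact hF _ _

/-- `H σ i j = 1` if `σ` keeps the order of `i, j`, and `-1` otherwise. -/
def H (σ : Perm ι) (i j : ι) : ℚ := if (i < j ↔ σ i < σ j) then 1 else -1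

theorem H_symm (σ : Perm ι) (i j : ι) : H σ i j = H σ j i := by
  rcases lt_trichotomy i j with h | h | h
  · have h1 : σ i ≠ σ j := fun e => h.ne (σ.injective e)
    rcases lt_or_gt_of_ne h1 with h2 | h2
    · simp [H, h, h.le, h2, h2.le, not_lt.2 h.le, not_lt.2 h2.le]
    · simp [H, h, h.le, h2, h2.le, not_lt.2 h.le, not_lt.2 h2.le]
  · rw [h]
  · have h1 : σ i ≠ σ j := fun e => h.ne' (σ.injective e)
    rcases lt_or_gt_of_ne h1 with h2 | h2
    · simp [H, h, h.le, h2, h2.le, not_lt.2 h.le, not_lt.2 h2.le]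
    · simp [H, h, h.le, h2, h2.le, not_lt.2 h.le, not_lt.2 h2.le]

theorem H_mul (σ τ : Perm ι) (i j : ι) : H (σ * τ) i j = H σ (τ i) (τ j) * H τ i j := by
  unfold H
  simp only [Perm.mul_apply]
  by_cases h1 : i < j <;> by_cases h2 : τ i < τ j <;> by_cases h3 : σ (τ i) < σ (τ j) <;>
    simp [h1, h2, h3]

theorem H_one (i j : ι) : H (1 : Perm ι) i j = 1 := by simp [H]

/-- The sign of `σ` on the odd positions (with parity vector `p`). -/
def eps (σ : Perm ι) (p : ι → Bool) : ℚ :=
  ∏ q ∈ prs ι, if p q.1 && p q.2 then H σ q.1 q.2 else 1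

theorem eps_mul (σ τ : Perm ι) (p : ι → Bool) :
    eps (σ * τ) p = eps σ (fun i => p (τ.symm i)) * eps τ p := by
  have h := prod_prs_perm (fun i j => if p (τ.symm i) && p (τ.symm j) then H σ i j else 1)
    (fun i j => by rw [H_symm, Bool.and_comm]) τ
  unfold eps
  rw [← h, ← Finset.prod_mul_distrib]
  refine Finset.prod_congr rfl (fun q _ => ?_)
  simp only [Equiv.symm_apply_apply]
  by_cases hq : (p q.1 && p q.2) = true
  · simp only [hq, if_true, H_mul]
  · simp [hq]

theorem eps_one (p : ι → Bool) : eps (1 : Perm ι) p = 1 := by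
  unfold eps
  exact Finset.prod_eq_one (fun q _ => by simp [H_one])

theorem H_sq (σ : Perm ι) (i j : ι) : H σ i j * H σ i j = 1 := by
  unfold H; split_ifs <;> norm_num

theorem eps_sq (σ : Perm ι) (p : ι → Bool) : eps σ p * eps σ p = 1 := by
  unfold eps
  rw [← Finset.prod_mul_distrib]
  refine Finset.prod_eq_one (fun q _ => ?_)
  split_ifs
  · exact H_sq _ _ _
  · norm_num

end signs

section action

variable (k l : ℕ) (ι : Type*) [Fintype ι] [LinearOrder ι]

/-- The tensor power as functions on words. -/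
abbrev W := (ι → Lt k l) → ℚ

variable {k l ι}

/-- Parity vector of a word. -/
def pv (w : ι → Lt k l) : ι → Bool := fun i => odd (w i)

/-- The signed action of a permutation. -/
def rhoFun (σ : Perm ι) : W k l ι →ₗ[ℚ] W k l ι where
  toFun f := fun w => eps σ (pv (w ∘ σ)) * f (w ∘ σ)
  map_add' f g := by funext w; simp [mul_add]
  map_smul' c f := by funext w; simp; ring

theorem rhoFun_apply (σ : Perm ι) (f : W k l ι) (w : ι → Lt k l) :
    rhoFun σ f w = eps σ (pv (w ∘ σ)) * f (w ∘ σ) := rfl

variable (k l ι)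

/-- The signed action as a representation. -/
def rho : Perm ι →* Module.End ℚ (W k l ι) where
  toFun := rhoFun
  map_one' := by
    apply LinearMap.ext; intro f; funext w
    simp [rhoFun_apply, eps_one]
  map_mul' σ τ := by
    apply LinearMap.ext; intro f; funext w
    simp only [Module.End.mul_apply, rhoFun_apply]
    have h1 : w ∘ ⇑(σ * τ) = (w ∘ σ) ∘ τ := by funext i; simp
    rw [h1, eps_mul]
    have h2 : (fun i => pv ((w ∘ σ) ∘ τ) (τ.symm i)) = pv (w ∘ σ) := by
      funext i; simp [pv]
    rw [h2]; ring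

/-- The action of the group algebra. -/
noncomputable def act : MonoidAlgebra ℚ (Perm ι) →ₐ[ℚ] Module.End ℚ (W k l ι) :=
  MonoidAlgebra.lift ℚ _ _ (rho k l ι)

/-- The ideal `K(k|l)`: elements of the group algebra acting by zero. -/
noncomputable def K : Set (MonoidAlgebra ℚ (Perm ι)) := {y | act k l ι y = 0}

variable {k l ι}

theorem rho_apply (σ : Perm ι) (f : W k l ι) (w : ι → Lt k l) :
    rho k l ι σ f w = eps σ (pv (w ∘ σ)) * f (w ∘ σ) := rfl

theorem act_single (σ : Perm ι) (a : ℚ) :
    act k l ι (MonoidAlgebra.single σ a) = a • rho k l ι σ := by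
  simp [act, MonoidAlgebra.lift_single]

theorem act_of (σ : Perm ι) :
    act k l ι (MonoidAlgebra.of ℚ _ σ) = rho k l ι σ := by
  simp [act]

end action

end Pool.PI34.Super

end

/-! ### part Super2 -/
section

/-!
PI34, E-block, file 2: the operators `E_ab` on words, their relations, adjointness.
-/

set_option linter.unusedSectionVars false
set_option linter.unusedSimpArgs false

namespace Pool.PI34.Super

open Equiv Finset

variable {k l : ℕ}

/-- The sign which `E_ab` picks up when it passes the letter `c`. -/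
def eta (a b c : Lt k l) : ℚ := if (odd a != odd b) && odd c then -1 else 1

theorem eta_sq (a b c : Lt k l) : eta a b c * eta a b c = 1 := by
  unfold eta; split_ifs <;> norm_num

theorem eta_comm (a b c : Lt k l) : eta a b c = eta b a c := by
  unfold eta
  cases odd a <;> cases odd b <;> cases odd c <;> simp

theorem eta_mul (a b d c : Lt k l) : eta a b c * eta b d c = eta a d c := by
  unfold eta
  cases odd a <;> cases odd b <;> cases odd d <;> cases odd c <;> simp

theorem eta_self (a c : Lt k l) : eta a a c = 1 := by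
  unfold eta; simp

/-- The sign for exchanging `E_ab` and `E_cd`. -/
def dd (a b c d : Lt k l) : ℚ := if (odd a != odd b) && (odd c != odd d) then -1 else 1

theorem dd_sq (a b c d : Lt k l) : dd a b c d * dd a b c d = 1 := by
  unfold dd; split_ifs <;> norm_num

theorem dd_symm (a b c d : Lt k l) : dd a b c d = dd c d a b := by
  unfold dd; rw [Bool.and_comm]

theorem eta_eta (a b c d : Lt k l) : eta a b c * eta a b d = dd a b c d := by
  unfold eta dd
  cases odd a <;> cases odd b <;> cases odd d <;> cases odd c <;> simp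

variable {ι : Type*} [Fintype ι] [LinearOrder ι]

/-- The sign of `E_ab` acting at position `i`. -/
def bsg (a b : Lt k l) (w : ι → Lt k l) (i : ι) : ℚ :=
  ∏ j ∈ univ.filter (· < i), eta a b (w j)

theorem bsg_sq (a b : Lt k l) (w : ι → Lt k l) (i : ι) : bsg a b w i * bsg a b w i = 1 := by
  unfold bsg
  rw [← Finset.prod_mul_distrib]
  exact Finset.prod_eq_one (fun j _ => eta_sq a b (w j))

theorem bsg_comm (a b : Lt k l) (w : ι → Lt k l) (i : ι) : bsg a b w i = bsg b a w i := by
  unfold bsg
  exact Finset.prod_congr rfl (fun j _ => eta_comm a b (w j))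

theorem bsg_mul (a b d : Lt k l) (w : ι → Lt k l) (i : ι) :
    bsg a b w i * bsg b d w i = bsg a d w i := by
  unfold bsg
  rw [← Finset.prod_mul_distrib]
  exact Finset.prod_congr rfl (fun j _ => eta_mul a b d (w j))

theorem bsg_self (a : Lt k l) (w : ι → Lt k l) (i : ι) : bsg a a w i = 1 := by
  unfold bsg
  exact Finset.prod_eq_one (fun j _ => eta_self a (w j))

theorem bsg_update_same (a b c : Lt k l) (w : ι → Lt k l) (i : ι) :
    bsg a b (Function.update w i c) i = bsg a b w i := by
  unfold bsg
  refine Finset.prod_congr rfl (fun j hj => ?_)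
  rw [Finset.mem_filter] at hj
  rw [Function.update_of_ne hj.2.ne]

theorem bsg_update_lt (a b c : Lt k l) (w : ι → Lt k l) {i j : ι} (h : i < j) :
    bsg a b (Function.update w i c) j = bsg a b w j * (eta a b (w i) * eta a b c) := by
  unfold bsg
  have hi : i ∈ univ.filter (· < j) := by simp [h]
  rw [← Finset.mul_prod_erase _ _ hi, ← Finset.mul_prod_erase _ _ hi]
  rw [Function.update_self]
  have : ∏ x ∈ (univ.filter (· < j)).erase i, eta a b (Function.update w i c x)
      = ∏ x ∈ (univ.filter (· < j)).erase i, eta a b (w x) := by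
    refine Finset.prod_congr rfl (fun x hx => ?_)
    rw [Function.update_of_ne (Finset.ne_of_mem_erase hx)]
  rw [this]
  linear_combination (-(eta a b c) * ∏ x ∈ (univ.filter (· < j)).erase i, eta a b (w x)) *
    eta_sq a b (w i)

theorem bsg_update_gt (a b c : Lt k l) (w : ι → Lt k l) {i j : ι} (h : j < i) :
    bsg a b (Function.update w i c) j = bsg a b w j := by
  unfold bsg
  refine Finset.prod_congr rfl (fun x hx => ?_)
  rw [Finset.mem_filter] at hx
  rw [Function.update_of_ne (hx.2.trans h).ne]

/-- `E_ab` at position `i`. -/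
def eop (a b : Lt k l) (i : ι) : Module.End ℚ (W k l ι) where
  toFun f := fun w => if w i = a then bsg a b w i * f (Function.update w i b) else 0
  map_add' f g := by funext w; simp only [Pi.add_apply]; split_ifs <;> ring
  map_smul' c f := by
    funext w; simp only [Pi.smul_apply, smul_eq_mul, RingHom.id_apply]; split_ifs <;> ring

theorem eop_apply (a b : Lt k l) (i : ι) (f : W k l ι) (w : ι → Lt k l) :
    eop a b i f w = if w i = a then bsg a b w i * f (Function.update w i b) else 0 := rfl

theorem eop_comm (a b c d : Lt k l) {i j : ι} (hij : i ≠ j) :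
    eop a b i * eop c d j = dd a b c d • (eop c d j * eop a b i) := by
  apply LinearMap.ext; intro f; funext w
  simp only [Module.End.mul_apply, LinearMap.smul_apply, Pi.smul_apply, smul_eq_mul, eop_apply]
  rw [Function.update_of_ne hij.symm, Function.update_of_ne hij]
  by_cases h1 : w i = a
  · by_cases h2 : w j = c
    · simp only [h1, h2, if_true]
      rw [Function.update_comm hij.symm]
      rcases lt_or_gt_of_ne hij with h | h
      · rw [bsg_update_lt c d b w h, bsg_update_gt a b d w h, h1, eta_eta c d a b, dd_symm]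
        ring
      · rw [bsg_update_gt c d b w h, bsg_update_lt a b d w h, h2, eta_eta a b c d]
        linear_combination (-(bsg a b w i * bsg c d w j *
          f (Function.update (Function.update w i b) j d))) * dd_sq a b c d
    · simp [h2]
  · simp [h1]

theorem eop_mul (a b d : Lt k l) (i : ι) :
    eop a b i * eop b d i = (eop a d i : Module.End ℚ (W k l ι)) := by
  apply LinearMap.ext; intro f; funext w
  simp only [Module.End.mul_apply, eop_apply]
  rw [Function.update_self, if_pos rfl, bsg_update_same, Function.update_idem]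
  by_cases h1 : w i = a
  · simp only [h1, if_true]
    rw [← bsg_mul a b d w i]; ring
  · simp [h1]

theorem eop_mul_ne (a b c d : Lt k l) (i : ι) (h : b ≠ c) :
    eop a b i * eop c d i = (0 : Module.End ℚ (W k l ι)) := by
  apply LinearMap.ext; intro f; funext w
  simp only [Module.End.mul_apply, eop_apply]
  rw [Function.update_self, if_neg h]
  simp

theorem eop_mul' (a b c d : Lt k l) (i : ι) :
    eop a b i * eop c d i = (if b = c then eop a d i else 0 : Module.End ℚ (W k l ι)) := by
  split_ifs with h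
  · subst h; exact eop_mul a b d i
  · exact eop_mul_ne a b c d i h

/-- The sum of `E_ab` over the positions in `B`. -/
def EB (B : Finset ι) (a b : Lt k l) : Module.End ℚ (W k l ι) := ∑ i ∈ B, eop a b i

/-- The operator `E_ab`. -/
def EE (a b : Lt k l) : Module.End ℚ (W k l ι) := EB univ a b

theorem EB_comm (B : Finset ι) (a b c d : Lt k l) :
    EB B a b * EB B c d = dd a b c d • (EB B c d * EB B a b)
      + (if b = c then EB B a d else 0) - dd a b c d • (if d = a then EB B c b else 0) := by
  classical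
  have h1 : EB B a b * EB B c d = ∑ i ∈ B, ∑ j ∈ B, eop a b i * eop c d j := by
    unfold EB; rw [Finset.sum_mul_sum]
  have h2 : EB B c d * EB B a b = ∑ i ∈ B, ∑ j ∈ B, eop c d j * eop a b i := by
    unfold EB; rw [Finset.sum_mul_sum, Finset.sum_comm]
  have h3 : ∀ i ∈ B, ∀ j ∈ B, eop a b i * eop c d j = dd a b c d • (eop c d j * eop a b i)
      + (if i = j then ((if b = c then eop a d i else 0)
        - dd a b c d • (if d = a then eop c b i else 0)) else 0) := by
    intro i _ j _
    by_cases hij : i = j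
    · subst hij
      rw [if_pos rfl, eop_mul', eop_mul']
      abel
    · rw [if_neg hij, eop_comm a b c d hij, add_zero]
  rw [h1, h2, Finset.sum_congr rfl (fun i hi => Finset.sum_congr rfl (fun j hj => h3 i hi j hj))]
  simp only [Finset.sum_add_distrib, Finset.smul_sum, Finset.sum_ite_eq]
  rw [Finset.sum_congr rfl (fun i hi => if_pos hi)]
  rw [Finset.sum_sub_distrib, add_sub_assoc]
  congr 2
  · unfold EB; split_ifs <;> simp
  · unfold EB; split_ifs <;> simp [Finset.smul_sum]

/-- The standard inner product. -/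
def ip (f g : W k l ι) : ℚ := ∑ w, f w * g w

theorem eop_adj (a b : Lt k l) (i : ι) (f g : W k l ι) :
    ip (eop a b i f) g = ip f (eop b a i g) := by
  classical
  unfold ip
  have h1 : ∀ w, eop a b i f w * g w = if w i = a then
      bsg a b w i * f (Function.update w i b) * g w else 0 := by
    intro w; rw [eop_apply]; split_ifs <;> ring
  have h2 : ∀ w, f w * eop b a i g w = if w i = b then
      bsg b a w i * f w * g (Function.update w i a) else 0 := by
    intro w; rw [eop_apply]; split_ifs <;> ring
  simp only [h1, h2]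
  rw [← Finset.sum_filter, ← Finset.sum_filter]
  refine Finset.sum_bij' (fun w _ => Function.update w i b) (fun w _ => Function.update w i a)
    ?_ ?_ ?_ ?_ ?_
  · intro w hw; simp
  · intro w hw; simp
  · intro w hw
    rw [Finset.mem_filter] at hw
    rw [Function.update_idem, ← hw.2, Function.update_eq_self]
  · intro w hw
    rw [Finset.mem_filter] at hw
    rw [Function.update_idem, ← hw.2, Function.update_eq_self]
  · intro w hw
    rw [Finset.mem_filter] at hw
    rw [Function.update_idem, bsg_update_same, bsg_comm b a]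
    congr 1
    rw [← hw.2, Function.update_eq_self]

theorem EB_adj (B : Finset ι) (a b : Lt k l) (f g : W k l ι) :
    ip (EB B a b f) g = ip f (EB B b a g) := by
  have h1 : ip (EB B a b f) g = ∑ i ∈ B, ip (eop a b i f) g := by
    unfold ip EB
    rw [Finset.sum_comm]
    refine Finset.sum_congr rfl (fun w _ => ?_)
    rw [LinearMap.sum_apply, Finset.sum_apply, Finset.sum_mul]
  have h2 : ip f (EB B b a g) = ∑ i ∈ B, ip f (eop b a i g) := by
    unfold ip EB
    rw [Finset.sum_comm]
    refine Finset.sum_congr rfl (fun w _ => ?_)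
    rw [LinearMap.sum_apply, Finset.sum_apply, Finset.mul_sum]
  rw [h1, h2]
  exact Finset.sum_congr rfl (fun i _ => eop_adj a b i f g)

theorem ip_self_ne {f : W k l ι} (hf : f ≠ 0) : ip f f ≠ 0 := by
  intro h
  apply hf
  unfold ip at h
  rw [Finset.sum_eq_zero_iff_of_nonneg (fun w _ => mul_self_nonneg _)] at h
  funext w
  exact mul_self_eq_zero.1 (h w (mem_univ w))

section conj

theorem prod_prs_single {M : Type*} [CommMonoid M] (i : ι) (F : ι → ι → M)
    (hF : ∀ x y, F x y = F y x) (h1 : ∀ x y, x ≠ i → y ≠ i → F x y = 1) :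
    ∏ q ∈ prs ι, F q.1 q.2 = ∏ j ∈ univ.erase i, F i j := by
  classical
  have h2 : ∏ q ∈ prs ι, F q.1 q.2 = ∏ q ∈ (prs ι).filter (fun q => q.1 = i ∨ q.2 = i),
      F q.1 q.2 := by
    rw [Finset.prod_filter]
    refine Finset.prod_congr rfl (fun q _ => ?_)
    split_ifs with h
    · rfl
    · push Not at h
      exact h1 _ _ h.1 h.2
  rw [h2]
  refine Finset.prod_bij' (fun q _ => if q.1 = i then q.2 else q.1)
    (fun j _ => if i < j then (i, j) else (j, i)) ?_ ?_ ?_ ?_ ?_
  · intro q hq
    rw [Finset.mem_filter, mem_prs] at hq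
    simp only [Finset.mem_erase, Finset.mem_univ, and_true]
    split_ifs with h
    · rw [← h]; exact hq.1.ne'
    · exact h
  · intro j hj
    rw [Finset.mem_erase] at hj
    rw [Finset.mem_filter, mem_prs]
    split_ifs with h
    · exact ⟨h, Or.inl rfl⟩
    · exact ⟨lt_of_le_of_ne (not_lt.1 h) hj.1, Or.inr rfl⟩
  · intro q hq
    rw [Finset.mem_filter, mem_prs] at hq
    by_cases h : q.1 = i
    · simp only [h, if_true]
      have : i < q.2 := by rw [← h]; exact hq.1
      rw [if_pos this]
      exact Prod.ext h.symm rfl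
    · simp only [h, if_false]
      have h3 : q.2 = i := by tauto
      have : ¬ i < q.1 := by rw [← h3]; exact not_lt.2 hq.1.le
      rw [if_neg this]
      exact Prod.ext rfl h3.symm
  · intro j hj
    rw [Finset.mem_erase] at hj
    by_cases h : i < j
    · simp [h]
    · simp only [h, if_false]
      rw [if_neg hj.1]
  · intro q hq
    rw [Finset.mem_filter, mem_prs] at hq
    by_cases h : q.1 = i
    · simp [h]
    · have h3 : q.2 = i := by tauto
      simp only [h, if_false]
      rw [h3, hF]

theorem rho_eop (σ : Perm ι) (a b : Lt k l) (i : ι) :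
    rho k l ι σ * eop a b i = eop a b (σ i) * rho k l ι σ := by
  classical
  apply LinearMap.ext; intro f; funext w
  simp only [Module.End.mul_apply, rho_apply, eop_apply, Function.comp_apply]
  by_cases h1 : w (σ i) = a
  swap
  · simp [h1]
  simp only [h1, if_true]
  have h2 : Function.update w (σ i) b ∘ σ = Function.update (w ∘ σ) i b := by
    funext j
    by_cases hj : j = i
    · subst hj; simp
    · simp [Function.update_of_ne hj, Function.update_of_ne (fun e => hj (σ.injective e))]
  rw [h2]
  set u := w ∘ σ with hu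
  have hui : u i = a := by rw [hu]; exact h1
  set P : ℚ := ∏ j ∈ univ.erase i, if (odd a != odd b) && odd (u j) then H σ i j else 1 with hP
  have e1 : eps σ (pv u) * eps σ (pv (Function.update u i b)) = P := by
    unfold eps
    rw [← Finset.prod_mul_distrib]
    rw [prod_prs_single i (fun x y => (if pv u x && pv u y then H σ x y else 1) *
      (if pv (Function.update u i b) x && pv (Function.update u i b) y then H σ x y else 1))]
    · rw [hP]
      refine Finset.prod_congr rfl (fun j hj => ?_)
      rw [Finset.mem_erase] at hj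
      simp only [pv, Function.update_self, Function.update_of_ne hj.1, hui]
      have := H_sq σ i j
      cases odd a <;> cases odd b <;> cases odd (u j) <;> simp [this]
    · intro x y
      rw [H_symm, Bool.and_comm, Bool.and_comm (pv (Function.update u i b) x)]
    · intro x y hx hy
      have e5 : pv (Function.update u i b) x = pv u x := by
        simp only [pv, Function.update_of_ne hx]
      have e6 : pv (Function.update u i b) y = pv u y := by
        simp only [pv, Function.update_of_ne hy]
      rw [e5, e6]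
      have := H_sq σ x y
      by_cases hc : (pv u x && pv u y) = true
      · rw [if_pos hc, this]
      · rw [if_neg hc, one_mul]
  have e2 : bsg a b u i * bsg a b w (σ i) = P := by
    unfold bsg
    have e3 : ∏ j ∈ univ.filter (· < σ i), eta a b (w j)
        = ∏ j ∈ univ.filter (fun j => σ j < σ i), eta a b (u j) := by
      refine Finset.prod_bij' (fun j _ => σ.symm j) (fun j _ => σ j) ?_ ?_ ?_ ?_ ?_
      · intro j hj; simpa using hj
      · intro j hj; simpa using hj
      · intro j hj; simp
      · intro j hj; simp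
      · intro j hj; simp [hu]
    rw [e3, Finset.prod_filter, Finset.prod_filter, ← Finset.prod_mul_distrib, hP]
    rw [← Finset.mul_prod_erase univ _ (Finset.mem_univ i)]
    simp only [lt_irrefl, if_false, one_mul]
    refine Finset.prod_congr rfl (fun j hj => ?_)
    rw [Finset.mem_erase] at hj
    have hs := eta_sq a b (u j)
    have hne : σ j ≠ σ i := fun e => hj.1 (σ.injective e)
    unfold H
    rcases lt_or_gt_of_ne hj.1 with h3 | h3 <;> rcases lt_or_gt_of_ne hne with h4 | h4
    · simp only [h3, h4, not_lt.2 h3.le, not_lt.2 h4.le, if_true, hs]; simp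
    · simp only [h3, h4, not_lt.2 h3.le, not_lt.2 h4.le, if_true, if_false, mul_one]
      unfold eta; simp
    · simp only [h3, h4, not_lt.2 h3.le, not_lt.2 h4.le, if_true, if_false, one_mul]
      unfold eta; simp
    · simp only [h3, h4, not_lt.2 h3.le, not_lt.2 h4.le, if_false, mul_one]; simp
  have s1 := eps_sq σ (pv u)
  have s2 := eps_sq σ (pv (Function.update u i b))
  have s3 := bsg_sq a b u i
  have s4 := bsg_sq a b w (σ i)
  have key : eps σ (pv u) * bsg a b u i
      = bsg a b w (σ i) * eps σ (pv (Function.update u i b)) := by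
    calc eps σ (pv u) * bsg a b u i
        = eps σ (pv u) * bsg a b u i *
          (eps σ (pv (Function.update u i b)) * eps σ (pv (Function.update u i b))) := by
          rw [s2, mul_one]
      _ = (eps σ (pv u) * eps σ (pv (Function.update u i b))) * bsg a b u i *
          eps σ (pv (Function.update u i b)) := by ring
      _ = (bsg a b u i * bsg a b w (σ i)) * bsg a b u i *
          eps σ (pv (Function.update u i b)) := by rw [e1, e2]
      _ = (bsg a b u i * bsg a b u i) * (bsg a b w (σ i) *
          eps σ (pv (Function.update u i b))) := by ring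
      _ = _ := by rw [s3, one_mul]
  rw [← mul_assoc, ← mul_assoc, key]

theorem rho_EE (σ : Perm ι) (a b : Lt k l) :
    rho k l ι σ * EE a b = EE a b * rho k l ι σ := by
  unfold EE EB
  rw [Finset.mul_sum, Finset.sum_mul]
  rw [Finset.sum_congr rfl (fun i _ => rho_eop σ a b i)]
  exact Equiv.sum_comp σ (fun i => eop a b i * rho k l ι σ)

theorem act_EE (y : MonoidAlgebra ℚ (Perm ι)) (a b : Lt k l) :
    act k l ι y * EE a b = EE a b * act k l ι y := by
  induction y using MonoidAlgebra.induction_on with
  | of g => rw [act_of]; exact rho_EE g a b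
  | add x y hx hy => rw [map_add, add_mul, mul_add, hx, hy]
  | smul r x hx => rw [map_smul, smul_mul_assoc, hx, mul_smul_comm]

end conj

end Pool.PI34.Super

end

/-! ### part Super3 -/
section

/-!
PI34, E-block, file 3: components with respect to the first strand, the formula for the
transpositions `(0 s)`.
-/

set_option linter.unusedSectionVars false
set_option linter.unusedSimpArgs false

namespace Pool.PI34.Super

open Equiv Finset

variable {k l : ℕ} {m : ℕ}

/-- The component of `u` with first letter `c`. -/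
def comp (c : Lt k l) : W k l (Fin (m + 1)) →ₗ[ℚ] W k l (Fin m) where
  toFun u := fun w => u (Fin.cons c w)
  map_add' f g := rfl
  map_smul' c f := rfl

theorem comp_apply (c : Lt k l) (u : W k l (Fin (m + 1))) (w : Fin m → Lt k l) :
    comp c u w = u (Fin.cons c w) := rfl

theorem ext_comp {u v : W k l (Fin (m + 1))} (h : ∀ c, comp c u = comp c v) : u = v := by
  funext w
  have h1 := congrFun (h (w 0)) (Fin.tail w)
  simpa [comp_apply, Fin.cons_self_tail] using h1

theorem prod_prs_succ {M : Type*} [CommMonoid M] (F : Fin (m + 1) × Fin (m + 1) → M) :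
    ∏ q ∈ prs (Fin (m + 1)), F q
      = (∏ j : Fin m, F (0, j.succ)) * ∏ q ∈ prs (Fin m), F (q.1.succ, q.2.succ) := by
  unfold prs
  rw [Finset.prod_filter, Finset.prod_filter]
  rw [← Finset.univ_product_univ, ← Finset.univ_product_univ, Finset.prod_product,
    Finset.prod_product, Fin.prod_univ_succ]
  congr 1
  · rw [Fin.prod_univ_succ]
    simp [Fin.succ_pos]
  · refine Finset.prod_congr rfl (fun i _ => ?_)
    rw [Fin.prod_univ_succ]
    simp [Fin.succ_lt_succ_iff]

/-- `(-1)^{|b||c|}`. -/
def pm (b c : Lt k l) : ℚ := if odd b && odd c then -1 else 1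

theorem H_swap_zero (s j : Fin m) :
    H (swap (0 : Fin (m + 1)) s.succ) 0 j.succ = if j ≤ s then -1 else 1 := by
  unfold H
  rw [swap_apply_left]
  by_cases h : j = s
  · subst h; simp [Fin.succ_pos]
  · have h1 : swap (0 : Fin (m + 1)) s.succ j.succ = j.succ :=
      swap_apply_of_ne_of_ne (Fin.succ_ne_zero j) (fun e => h (Fin.succ_injective _ e))
    rw [h1]
    by_cases h2 : j ≤ s
    · have : ¬ s < j := not_lt.2 h2
      simp [Fin.succ_pos, Fin.succ_lt_succ_iff, h2, this]
    · have : s < j := not_le.1 h2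
      simp [Fin.succ_pos, Fin.succ_lt_succ_iff, h2, this]

theorem H_swap_succ (s i j : Fin m) (hij : i < j) :
    H (swap (0 : Fin (m + 1)) s.succ) i.succ j.succ = if j = s then -1 else 1 := by
  unfold H
  by_cases h : j = s
  · subst h
    have h1 : swap (0 : Fin (m + 1)) j.succ i.succ = i.succ :=
      swap_apply_of_ne_of_ne (Fin.succ_ne_zero i) (fun e => hij.ne (Fin.succ_injective _ e))
    rw [h1, swap_apply_right]
    simp [Fin.succ_lt_succ_iff, hij]
  · have h1 : swap (0 : Fin (m + 1)) s.succ j.succ = j.succ :=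
      swap_apply_of_ne_of_ne (Fin.succ_ne_zero j) (fun e => h (Fin.succ_injective _ e))
    rw [h1, if_neg h]
    by_cases h2 : i = s
    · subst h2
      rw [swap_apply_right]
      simp [Fin.succ_lt_succ_iff, hij, Fin.succ_pos]
    · have h3 : swap (0 : Fin (m + 1)) s.succ i.succ = i.succ :=
        swap_apply_of_ne_of_ne (Fin.succ_ne_zero i) (fun e => h2 (Fin.succ_injective _ e))
      rw [h3]
      simp

theorem cons_comp_swap (c : Lt k l) (w : Fin m → Lt k l) (s : Fin m) :
    (Fin.cons c w : Fin (m + 1) → Lt k l) ∘ swap (0 : Fin (m + 1)) s.succ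
      = (Fin.cons (w s) (Function.update w s c) : Fin (m + 1) → Lt k l) := by
  funext j
  refine Fin.cases ?_ (fun j => ?_) j
  · simp
  · by_cases h : j = s
    · subst h; simp
    · have h1 : swap (0 : Fin (m + 1)) s.succ j.succ = j.succ :=
        swap_apply_of_ne_of_ne (Fin.succ_ne_zero j) (fun e => h (Fin.succ_injective _ e))
      simp [h1, Function.update_of_ne h]

theorem eps_swap_zero (w : Fin m → Lt k l) (s : Fin m) (c : Lt k l) :
    eps (swap (0 : Fin (m + 1)) s.succ)
      (pv (Fin.cons (w s) (Function.update w s c) : Fin (m + 1) → Lt k l))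
      = pm (w s) c * bsg (w s) c w s := by
  classical
  unfold eps
  rw [prod_prs_succ]
  have h1 : ∏ j : Fin m, (if pv (Fin.cons (w s) (Function.update w s c) :
      Fin (m + 1) → Lt k l) (0 : Fin (m + 1)) && pv (Fin.cons (w s) (Function.update w s c) :
      Fin (m + 1) → Lt k l) j.succ then H (swap (0 : Fin (m + 1)) s.succ) 0 j.succ else 1)
      = pm (w s) c * ∏ j ∈ univ.filter (· < s), pm (w s) (w j) := by
    have hs : s ∈ (univ : Finset (Fin m)) := Finset.mem_univ s
    rw [← Finset.mul_prod_erase univ _ hs]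
    congr 1
    · rw [H_swap_zero]
      simp [pv, pm]
    · rw [Finset.prod_filter]
      rw [← Finset.mul_prod_erase univ _ hs]
      rw [if_neg (lt_irrefl s), one_mul]
      refine Finset.prod_congr rfl (fun j hj => ?_)
      rw [Finset.mem_erase] at hj
      rw [H_swap_zero]
      simp only [pv, Fin.cons_zero, Fin.cons_succ, Function.update_of_ne hj.1]
      by_cases h2 : j < s
      · simp [h2, h2.le, pm]
      · have h3 : ¬ j ≤ s := fun h => h2 (lt_of_le_of_ne h hj.1)
        simp [h2, h3]
  have h2 : ∏ q ∈ prs (Fin m), (if pv (Fin.cons (w s) (Function.update w s c) :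
      Fin (m + 1) → Lt k l) q.1.succ && pv (Fin.cons (w s) (Function.update w s c) :
      Fin (m + 1) → Lt k l) q.2.succ then H (swap (0 : Fin (m + 1)) s.succ) q.1.succ q.2.succ
      else 1) = ∏ j ∈ univ.filter (· < s), pm c (w j) := by
    have h3 : ∀ q ∈ prs (Fin m), (if pv (Fin.cons (w s) (Function.update w s c) :
      Fin (m + 1) → Lt k l) q.1.succ && pv (Fin.cons (w s) (Function.update w s c) :
      Fin (m + 1) → Lt k l) q.2.succ then H (swap (0 : Fin (m + 1)) s.succ) q.1.succ q.2.succ
      else 1) = if q.2 = s then pm c (w q.1) else 1 := by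
      intro q hq
      rw [mem_prs] at hq
      rw [H_swap_succ s q.1 q.2 hq]
      by_cases h4 : q.2 = s
      · have h5 : q.1 ≠ s := by rw [← h4]; exact hq.ne
        simp [pv, h4, pm, Function.update_of_ne h5, Bool.and_comm]
      · simp [h4]
    rw [Finset.prod_congr rfl h3, ← Finset.prod_filter]
    refine Finset.prod_bij' (fun q _ => q.1) (fun j _ => (j, s)) ?_ ?_ ?_ ?_ ?_
    · intro q hq
      rw [Finset.mem_filter, mem_prs] at hq
      rw [Finset.mem_filter]
      exact ⟨Finset.mem_univ _, by rw [← hq.2]; exact hq.1⟩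
    · intro j hj
      rw [Finset.mem_filter] at hj
      rw [Finset.mem_filter, mem_prs]
      exact ⟨hj.2, rfl⟩
    · intro q hq
      rw [Finset.mem_filter] at hq
      exact Prod.ext rfl hq.2.symm
    · intro j hj; rfl
    · intro q hq; rfl
  rw [h1, h2, mul_assoc, ← Finset.prod_mul_distrib]
  congr 1
  unfold bsg
  refine Finset.prod_congr rfl (fun j _ => ?_)
  unfold pm eta
  cases odd (w s) <;> cases odd c <;> cases odd (w j) <;> simp

theorem comp_rho_swap (u : W k l (Fin (m + 1))) (s : Fin m) (c : Lt k l) :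
    comp c (rho k l _ (swap (0 : Fin (m + 1)) s.succ) u)
      = ∑ b, pm b c • eop b c s (comp b u) := by
  classical
  funext w
  rw [comp_apply, rho_apply, cons_comp_swap, eps_swap_zero]
  rw [Finset.sum_apply, Finset.sum_eq_single (w s)]
  · simp only [Pi.smul_apply, smul_eq_mul, eop_apply, if_true, comp_apply]
    ring
  · intro b _ hb
    simp only [Pi.smul_apply, smul_eq_mul, eop_apply]
    rw [if_neg (fun e => hb e.symm), mul_zero]
  · intro h; exact absurd (Finset.mem_univ _) h

/-- The sum of the transpositions `(0 s)`, `s ∈ B`. -/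
noncomputable def XB (B : Finset (Fin m)) : MonoidAlgebra ℚ (Perm (Fin (m + 1))) :=
  ∑ s ∈ B, MonoidAlgebra.of ℚ _ (swap (0 : Fin (m + 1)) s.succ)

theorem comp_XB (B : Finset (Fin m)) (u : W k l (Fin (m + 1))) (c : Lt k l) :
    comp c (act k l _ (XB B) u) = ∑ b, pm b c • EB B b c (comp b u) := by
  unfold XB
  rw [map_sum, LinearMap.sum_apply, map_sum]
  simp only [act_of, comp_rho_swap]
  rw [Finset.sum_comm]
  refine Finset.sum_congr rfl (fun b _ => ?_)
  unfold EB
  rw [LinearMap.sum_apply, Finset.smul_sum]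

theorem comp_EE (a b c : Lt k l) (u : W k l (Fin (m + 1))) :
    comp c (EE a b u) = (if c = a then comp b u else 0) + eta a b c • EE a b (comp c u) := by
  unfold EE EB
  rw [LinearMap.sum_apply, Fin.sum_univ_succ, map_add]
  congr 1
  · funext w
    rw [comp_apply, eop_apply]
    have h1 : bsg a b (Fin.cons c w : Fin (m + 1) → Lt k l) 0 = 1 := by
      unfold bsg
      refine Finset.prod_eq_one (fun j hj => ?_)
      rw [Finset.mem_filter] at hj
      exact absurd hj.2 (Fin.not_lt_zero j)
    rw [h1, Fin.cons_zero, one_mul]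
    split_ifs
    · rw [comp_apply, Fin.update_cons_zero]
    · rfl
  · rw [map_sum, LinearMap.sum_apply, Finset.smul_sum]
    refine Finset.sum_congr rfl (fun s _ => ?_)
    funext w
    rw [comp_apply, Pi.smul_apply, smul_eq_mul, eop_apply, eop_apply, Fin.cons_succ]
    have h1 : bsg a b (Fin.cons c w : Fin (m + 1) → Lt k l) s.succ = eta a b c * bsg a b w s := by
      unfold bsg
      rw [Finset.prod_filter, Finset.prod_filter, Fin.prod_univ_succ]
      simp [Fin.succ_lt_succ_iff, Fin.succ_pos]
    rw [h1, ← Fin.cons_update, comp_apply]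
    split_ifs <;> ring

end Pool.PI34.Super

end

/-! ### part Super4 -/
section

/-!
PI34, E-block, file 4: `X + k - l` is injective on `V ⊗ U ξ`.
-/

set_option linter.unusedSectionVars false
set_option linter.unusedSimpArgs false

namespace Pool.PI34.Super

open Equiv Finset

section gen

variable {V : Type*} [AddCommGroup V] [Module ℚ V]

/-- The smallest subspace containing `X` and stable under the operators in `S`. -/
def gen (S : Set (Module.End ℚ V)) (X : Submodule ℚ V) : Submodule ℚ V :=
  sInf {N | X ≤ N ∧ ∀ T ∈ S, ∀ v ∈ N, T v ∈ N}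

theorem gen_le {S : Set (Module.End ℚ V)} {X N : Submodule ℚ V} (h1 : X ≤ N)
    (h2 : ∀ T ∈ S, ∀ v ∈ N, T v ∈ N) : gen S X ≤ N := sInf_le ⟨h1, h2⟩

theorem le_gen (S : Set (Module.End ℚ V)) (X : Submodule ℚ V) : X ≤ gen S X :=
  le_sInf (fun _ h => h.1)

theorem gen_stable {S : Set (Module.End ℚ V)} {X : Submodule ℚ V} {T : Module.End ℚ V}
    (hT : T ∈ S) {v : V} (hv : v ∈ gen S X) : T v ∈ gen S X := by
  unfold gen at *
  rw [Submodule.mem_sInf] at *
  intro N hN
  exact hN.2 T hT v (hv N hN)

end gen

variable {k l m : ℕ}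

/-- All operators `E_ab`. -/
def Sall (k l m : ℕ) : Set (Module.End ℚ (W k l (Fin m))) :=
  {T | ∃ a b, T = EE a b}

/-- The operators replacing an odd letter by an even one. -/
def Sup (k l m : ℕ) : Set (Module.End ℚ (W k l (Fin m))) :=
  {T | ∃ (i : Fin k) (j : Fin l), T = EE (Sum.inl i) (Sum.inr j)}

/-- The operators replacing an even letter by an odd one. -/
def Sdn (k l m : ℕ) : Set (Module.End ℚ (W k l (Fin m))) :=
  {T | ∃ (i : Fin k) (j : Fin l), T = EE (Sum.inr j) (Sum.inl i)}

/-- `U ξ`. -/
def Ux (ξ : W k l (Fin m)) : Submodule ℚ (W k l (Fin m)) := gen (Sall k l m) (ℚ ∙ ξ)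

/-- `U⁺ ξ`. -/
def Mp (ξ : W k l (Fin m)) : Submodule ℚ (W k l (Fin m)) := gen (Sup k l m) (ℚ ∙ ξ)

/-- `U⁻ U⁺ ξ`. -/
def Qp (ξ : W k l (Fin m)) : Submodule ℚ (W k l (Fin m)) := gen (Sdn k l m) (Mp ξ)

theorem mem_Ux (ξ : W k l (Fin m)) : ξ ∈ Ux ξ :=
  le_gen _ _ (Submodule.mem_span_singleton_self ξ)

theorem Ux_stable {ξ v : W k l (Fin m)} (hv : v ∈ Ux ξ) (a b : Lt k l) : EE a b v ∈ Ux ξ :=
  gen_stable (S := Sall k l m) (T := EE a b) ⟨a, b, rfl⟩ hv

theorem Mp_up {ξ v : W k l (Fin m)} (hv : v ∈ Mp ξ) (i : Fin k) (j : Fin l) :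
    EE (Sum.inl i) (Sum.inr j) v ∈ Mp ξ :=
  gen_stable (S := Sup k l m) (T := EE (Sum.inl i) (Sum.inr j)) ⟨i, j, rfl⟩ hv

theorem Qp_dn {ξ v : W k l (Fin m)} (hv : v ∈ Qp ξ) (i : Fin k) (j : Fin l) :
    EE (Sum.inr j) (Sum.inl i) v ∈ Qp ξ :=
  gen_stable (S := Sdn k l m) (T := EE (Sum.inr j) (Sum.inl i)) ⟨i, j, rfl⟩ hv

theorem EE_comm_apply {ι : Type*} [Fintype ι] [LinearOrder ι] (a b c d : Lt k l)
    (v : W k l ι) :
    EE a b (EE c d v) = dd a b c d • EE c d (EE a b v)
      + (if b = c then EE a d v else 0) - dd a b c d • (if d = a then EE c b v else 0) := by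
  have h := LinearMap.congr_fun (EB_comm (univ : Finset ι) a b c d) v
  simp only [Module.End.mul_apply, LinearMap.add_apply, LinearMap.sub_apply,
    LinearMap.smul_apply] at h
  unfold EE
  rw [h]
  split_ifs <;> simp

theorem Mp_g0 {ξ : W k l (Fin m)} (h0 : ∀ a b : Lt k l, odd a = odd b → EE a b ξ ∈ (ℚ ∙ ξ))
    {v : W k l (Fin m)} (hv : v ∈ Mp ξ) (a b : Lt k l) (hab : odd a = odd b) :
    EE a b v ∈ Mp ξ := by
  let N : Submodule ℚ (W k l (Fin m)) :=
    { carrier := {v | v ∈ Mp ξ ∧ ∀ a b : Lt k l, odd a = odd b → EE a b v ∈ Mp ξ}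
      add_mem' := by
        rintro x y ⟨hx1, hx2⟩ ⟨hy1, hy2⟩
        exact ⟨Submodule.add_mem _ hx1 hy1, fun a b h => by
          rw [map_add]; exact Submodule.add_mem _ (hx2 a b h) (hy2 a b h)⟩
      zero_mem' := ⟨Submodule.zero_mem _, fun a b _ => by rw [map_zero]; exact Submodule.zero_mem _⟩
      smul_mem' := by
        rintro c x ⟨hx1, hx2⟩
        exact ⟨Submodule.smul_mem _ c hx1, fun a b h => by
          rw [map_smul]; exact Submodule.smul_mem _ c (hx2 a b h)⟩ }
  have hN : Mp ξ ≤ N := by
    refine gen_le ?_ ?_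
    · rw [Submodule.span_singleton_le_iff_mem]
      exact ⟨le_gen _ _ (Submodule.mem_span_singleton_self ξ),
        fun a b h => le_gen _ _ (h0 a b h)⟩
    · rintro T ⟨i, j, rfl⟩ v ⟨hv1, hv2⟩
      refine ⟨Mp_up hv1 i j, fun a b h => ?_⟩
      rw [EE_comm_apply]
      refine Submodule.sub_mem _ (Submodule.add_mem _ (Submodule.smul_mem _ _ ?_) ?_)
        (Submodule.smul_mem _ _ ?_)
      · exact Mp_up (hv2 a b h) i j
      · split_ifs with h2
        · subst h2
          rcases a with a | a
          · exact Mp_up hv1 a j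
          · simp at h
        · exact Submodule.zero_mem _
      · split_ifs with h2
        · subst h2
          rcases b with b | b
          · simp at h
          · exact Mp_up hv1 i b
        · exact Submodule.zero_mem _
  exact (hN hv).2 a b hab

theorem Qp_g0 {ξ : W k l (Fin m)} (h0 : ∀ a b : Lt k l, odd a = odd b → EE a b ξ ∈ (ℚ ∙ ξ))
    {v : W k l (Fin m)} (hv : v ∈ Qp ξ) (a b : Lt k l) (hab : odd a = odd b) :
    EE a b v ∈ Qp ξ := by
  let N : Submodule ℚ (W k l (Fin m)) :=
    { carrier := {v | v ∈ Qp ξ ∧ ∀ a b : Lt k l, odd a = odd b → EE a b v ∈ Qp ξ}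
      add_mem' := by
        rintro x y ⟨hx1, hx2⟩ ⟨hy1, hy2⟩
        exact ⟨Submodule.add_mem _ hx1 hy1, fun a b h => by
          rw [map_add]; exact Submodule.add_mem _ (hx2 a b h) (hy2 a b h)⟩
      zero_mem' := ⟨Submodule.zero_mem _, fun a b _ => by rw [map_zero]; exact Submodule.zero_mem _⟩
      smul_mem' := by
        rintro c x ⟨hx1, hx2⟩
        exact ⟨Submodule.smul_mem _ c hx1, fun a b h => by
          rw [map_smul]; exact Submodule.smul_mem _ c (hx2 a b h)⟩ }
  have hN : Qp ξ ≤ N := by
    refine gen_le ?_ ?_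
    · intro v hv
      exact ⟨le_gen _ _ hv, fun a b h => le_gen _ _ (Mp_g0 h0 hv a b h)⟩
    · rintro T ⟨i, j, rfl⟩ v ⟨hv1, hv2⟩
      refine ⟨Qp_dn hv1 i j, fun a b h => ?_⟩
      rw [EE_comm_apply]
      refine Submodule.sub_mem _ (Submodule.add_mem _ (Submodule.smul_mem _ _ ?_) ?_)
        (Submodule.smul_mem _ _ ?_)
      · exact Qp_dn (hv2 a b h) i j
      · split_ifs with h2
        · subst h2
          rcases a with a | a
          · simp at h
          · exact Qp_dn hv1 i a
        · exact Submodule.zero_mem _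
      · split_ifs with h2
        · subst h2
          rcases b with b | b
          · exact Qp_dn hv1 b j
          · simp at h
        · exact Submodule.zero_mem _
  exact (hN hv).2 a b hab

theorem Qp_g1 {ξ : W k l (Fin m)} (h0 : ∀ a b : Lt k l, odd a = odd b → EE a b ξ ∈ (ℚ ∙ ξ))
    {v : W k l (Fin m)} (hv : v ∈ Qp ξ) (i : Fin k) (j : Fin l) :
    EE (Sum.inl i) (Sum.inr j) v ∈ Qp ξ := by
  let N : Submodule ℚ (W k l (Fin m)) :=
    { carrier := {v | v ∈ Qp ξ ∧ ∀ (i : Fin k) (j : Fin l), EE (Sum.inl i) (Sum.inr j) v ∈ Qp ξ}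
      add_mem' := by
        rintro x y ⟨hx1, hx2⟩ ⟨hy1, hy2⟩
        exact ⟨Submodule.add_mem _ hx1 hy1, fun a b => by
          rw [map_add]; exact Submodule.add_mem _ (hx2 a b) (hy2 a b)⟩
      zero_mem' := ⟨Submodule.zero_mem _, fun a b => by rw [map_zero]; exact Submodule.zero_mem _⟩
      smul_mem' := by
        rintro c x ⟨hx1, hx2⟩
        exact ⟨Submodule.smul_mem _ c hx1, fun a b => by
          rw [map_smul]; exact Submodule.smul_mem _ c (hx2 a b)⟩ }
  have hN : Qp ξ ≤ N := by
    refine gen_le ?_ ?_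
    · intro v hv
      exact ⟨le_gen _ _ hv, fun a b => le_gen _ _ (Mp_up hv a b)⟩
    · rintro T ⟨i, j, rfl⟩ v ⟨hv1, hv2⟩
      refine ⟨Qp_dn hv1 i j, fun a b => ?_⟩
      rw [EE_comm_apply]
      refine Submodule.sub_mem _ (Submodule.add_mem _ (Submodule.smul_mem _ _ ?_) ?_)
        (Submodule.smul_mem _ _ ?_)
      · exact Qp_dn (hv2 a b) i j
      · split_ifs with h2
        · exact Qp_g0 h0 hv1 _ _ rfl
        · exact Submodule.zero_mem _
      · split_ifs with h2
        · exact Qp_g0 h0 hv1 _ _ rfl
        · exact Submodule.zero_mem _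
  exact (hN hv).2 i j

theorem Ux_le_Qp {ξ : W k l (Fin m)} (h0 : ∀ a b : Lt k l, odd a = odd b → EE a b ξ ∈ (ℚ ∙ ξ)) :
    Ux ξ ≤ Qp ξ := by
  refine gen_le ?_ ?_
  · exact (le_gen _ _).trans (le_gen _ _)
  · rintro T ⟨a, b, rfl⟩ v hv
    rcases a with a | a <;> rcases b with b | b
    · exact Qp_g0 h0 hv _ _ rfl
    · exact Qp_g1 h0 hv _ _
    · exact Qp_dn hv b a
    · exact Qp_g0 h0 hv _ _ rfl

/-- The number of occurrences of the letter `c`. -/
def cnt {ι : Type*} [Fintype ι] (c : Lt k l) (w : ι → Lt k l) : ℕ :=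
  (univ.filter (fun s => w s = c)).card

theorem EE_diag {ι : Type*} [Fintype ι] [LinearOrder ι] (c : Lt k l) (f : W k l ι)
    (w : ι → Lt k l) : EE c c f w = (cnt c w : ℚ) * f w := by
  unfold EE EB
  rw [LinearMap.sum_apply, Finset.sum_apply]
  have h : ∀ i ∈ (univ : Finset ι), eop c c i f w = if w i = c then f w else 0 := by
    intro i _
    rw [eop_apply, bsg_self]
    split_ifs with h
    · rw [← h, Function.update_eq_self, one_mul]
    · rfl
  rw [Finset.sum_congr rfl h, ← Finset.sum_filter, Finset.sum_const, nsmul_eq_mul]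
  rfl

theorem cnt_update_le {ι : Type*} [Fintype ι] [DecidableEq ι] (w : ι → Lt k l) (s : ι)
    (c b : Lt k l) (h : b ≠ c) : cnt c (Function.update w s b) ≤ cnt c w := by
  unfold cnt
  refine Finset.card_le_card (fun x hx => ?_)
  rw [Finset.mem_filter] at *
  refine ⟨hx.1, ?_⟩
  by_cases hxs : x = s
  · subst hxs; rw [Function.update_self] at hx; exact absurd hx.2 h
  · rw [Function.update_of_ne hxs] at hx; exact hx.2

/-- Words containing every even letter at least `l` times. -/
def Pl {k l m : ℕ} (w : Fin m → Lt k l) : Prop := ∀ i : Fin k, l ≤ cnt (Sum.inl i) w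

theorem Mp_supp {ξ : W k l (Fin m)} (hs : ∀ w, ξ w ≠ 0 → Pl w) {v : W k l (Fin m)}
    (hv : v ∈ Mp ξ) (w : Fin m → Lt k l) (hw : v w ≠ 0) : Pl w := by
  let N : Submodule ℚ (W k l (Fin m)) :=
    { carrier := {v | ∀ w, ¬ Pl w → v w = 0}
      add_mem' := by
        intro x y hx hy w hw
        rw [Pi.add_apply, hx w hw, hy w hw, add_zero]
      zero_mem' := fun w _ => rfl
      smul_mem' := by
        intro c x hx w hw
        rw [Pi.smul_apply, hx w hw, smul_zero] }
  have hN : Mp ξ ≤ N := by
    refine gen_le ?_ ?_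
    · rw [Submodule.span_singleton_le_iff_mem]
      intro w hw
      by_contra h
      exact hw (hs w h)
    · rintro T ⟨i, j, rfl⟩ v hv w hw
      unfold EE EB
      rw [LinearMap.sum_apply, Finset.sum_apply]
      refine Finset.sum_eq_zero (fun s _ => ?_)
      rw [eop_apply]
      split_ifs with h
      · rw [hv, mul_zero]
        intro hP
        exact hw (fun i' => (hP i').trans (cnt_update_le w s _ _ (by simp)))
      · rfl
  by_contra h
  exact hw (hN hv w h)

theorem ip_add_right {ι : Type*} [Fintype ι] [LinearOrder ι] (f g h : W k l ι) :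
    ip f (g + h) = ip f g + ip f h := by
  unfold ip; rw [← Finset.sum_add_distrib]
  exact Finset.sum_congr rfl (fun w _ => by rw [Pi.add_apply]; ring)

theorem ip_smul_right {ι : Type*} [Fintype ι] [LinearOrder ι] (c : ℚ) (f g : W k l ι) :
    ip f (c • g) = c * ip f g := by
  unfold ip; rw [Finset.mul_sum]
  exact Finset.sum_congr rfl (fun w _ => by rw [Pi.smul_apply, smul_eq_mul]; ring)

theorem ip_zero_right {ι : Type*} [Fintype ι] [LinearOrder ι] (f : W k l ι) :
    ip f 0 = 0 := by
  unfold ip; exact Finset.sum_eq_zero (fun w _ => by simp)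

theorem exists_supp {ξ : W k l (Fin m)}
    (h0 : ∀ a b : Lt k l, odd a = odd b → EE a b ξ ∈ (ℚ ∙ ξ))
    (hs : ∀ w, ξ w ≠ 0 → Pl w) {u : W k l (Fin m)} (hu : u ∈ Ux ξ) (hne : u ≠ 0)
    (hk : ∀ (i : Fin k) (j : Fin l), EE (Sum.inl i) (Sum.inr j) u = 0) :
    ∃ w, u w ≠ 0 ∧ Pl w := by
  by_contra hcon
  push Not at hcon
  let N : Submodule ℚ (W k l (Fin m)) :=
    { carrier := {v | ip u v = 0}
      add_mem' := by
        intro x y hx hy
        simp only [Set.mem_ofPred_eq] at *
        rw [ip_add_right, hx, hy, add_zero]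
      zero_mem' := ip_zero_right u
      smul_mem' := by
        intro c x hx
        simp only [Set.mem_ofPred_eq] at *
        rw [ip_smul_right, hx, mul_zero] }
  have hN : Qp ξ ≤ N := by
    refine gen_le ?_ ?_
    · intro v hv
      change ip u v = 0
      unfold ip
      refine Finset.sum_eq_zero (fun w _ => ?_)
      by_cases hw : v w = 0
      · rw [hw, mul_zero]
      · have h1 : Pl w := Mp_supp hs hv w hw
        have h2 : u w = 0 := by
          by_contra h3
          exact hcon w h3 h1
        rw [h2, zero_mul]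
    · rintro T ⟨i, j, rfl⟩ v hv
      change ip u (EE (Sum.inr j) (Sum.inl i) v) = 0
      unfold EE
      rw [← EB_adj]
      have := hk i j
      unfold EE at this
      rw [this]
      unfold ip
      exact Finset.sum_eq_zero (fun w _ => by simp)
  exact ip_self_ne hne (hN (Ux_le_Qp h0 hu))

/-- The order of the letters. -/
def idx (c : Lt k l) : ℕ := Sum.elim (fun i => i.val) (fun j => k + j.val) c

theorem idx_inj {a b : Lt k l} (h : idx a = idx b) : a = b := by
  rcases a with a | a <;> rcases b with b | b <;> simp only [idx, Sum.elim_inl, Sum.elim_inr] at h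
  · rw [Fin.ext h]
  · have := a.2; omega
  · have := b.2; omega
  · have : a.val = b.val := by omega
    rw [Fin.ext this]

/-- The height of a word. -/
def ht {ι : Type*} [Fintype ι] (w : ι → Lt k l) : ℕ := ∑ s, idx (w s)

theorem ht_update_lt {ι : Type*} [Fintype ι] [DecidableEq ι] (w : ι → Lt k l) (s : ι)
    (b : Lt k l) (h : idx (w s) < idx b) : ht w < ht (Function.update w s b) := by
  unfold ht
  refine Finset.sum_lt_sum (fun x _ => ?_) ⟨s, Finset.mem_univ s, by rw [Function.update_self]; exact h⟩
  by_cases hx : x = s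
  · subst hx; rw [Function.update_self]; exact h.le
  · rw [Function.update_of_ne hx]

theorem exists_hw {ι : Type*} [Fintype ι] [LinearOrder ι] (N : Submodule ℚ (W k l ι))
    (hst : ∀ a b : Lt k l, ∀ v ∈ N, EE a b v ∈ N) (n : ℕ) :
    ∀ u ∈ N, u ≠ 0 → (∀ w, u w ≠ 0 → ht w ≤ n) →
      ∃ v ∈ N, v ≠ 0 ∧ ∀ a b : Lt k l, idx a < idx b → EE a b v = 0 := by
  classical
  induction n with
  | zero =>
    intro u hu hne hh
    refine ⟨u, hu, hne, fun a b hab => ?_⟩
    funext w
    unfold EE EB
    rw [LinearMap.sum_apply, Finset.sum_apply]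
    refine Finset.sum_eq_zero (fun s _ => ?_)
    rw [eop_apply]
    split_ifs with h
    · have h1 : u (Function.update w s b) = 0 := by
        by_contra h2
        have h3 := hh _ h2
        have h4 := ht_update_lt w s b (by rw [h]; exact hab)
        omega
      rw [h1, mul_zero]
    · rfl
  | succ n ih =>
    intro u hu hne hh
    by_cases hall : ∀ a b : Lt k l, idx a < idx b → EE a b u = 0
    · exact ⟨u, hu, hne, hall⟩
    · push Not at hall
      obtain ⟨a, b, hab, h1⟩ := hall
      refine ih (EE a b u) (hst a b u hu) h1 (fun w hw => ?_)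
      by_contra hlt
      apply hw
      unfold EE EB
      rw [LinearMap.sum_apply, Finset.sum_apply]
      refine Finset.sum_eq_zero (fun s _ => ?_)
      rw [eop_apply]
      split_ifs with h
      · have h1 : u (Function.update w s b) = 0 := by
          by_contra h2
          have h3 := hh _ h2
          have h4 := ht_update_lt w s b (by rw [h]; exact hab)
          omega
        rw [h1, mul_zero]
      · rfl

/-- `t = X + k - l`. -/
noncomputable def tt (k l m : ℕ) : MonoidAlgebra ℚ (Perm (Fin (m + 1))) :=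
  XB univ + ((k : ℚ) - (l : ℚ)) • 1

/-- The subspace `V ⊗ U ξ`. -/
def Lx (ξ : W k l (Fin m)) : Submodule ℚ (W k l (Fin (m + 1))) where
  carrier := {u | ∀ c, comp c u ∈ Ux ξ}
  add_mem' := by
    intro x y hx hy c
    rw [map_add]; exact Submodule.add_mem _ (hx c) (hy c)
  zero_mem' := by
    intro c; rw [map_zero]; exact Submodule.zero_mem _
  smul_mem' := by
    intro a x hx c
    rw [map_smul]; exact Submodule.smul_mem _ a (hx c)

theorem Lx_EE {ξ : W k l (Fin m)} {u : W k l (Fin (m + 1))} (hu : u ∈ Lx ξ) (a b : Lt k l) :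
    EE a b u ∈ Lx ξ := by
  intro c
  rw [comp_EE]
  refine Submodule.add_mem _ ?_ (Submodule.smul_mem _ _ (Ux_stable (hu c) a b))
  split_ifs
  · exact hu b
  · exact Submodule.zero_mem _

theorem Lx_X {ξ : W k l (Fin m)} {u : W k l (Fin (m + 1))} (hu : u ∈ Lx ξ) :
    act k l _ (XB univ) u ∈ Lx ξ := by
  intro c
  rw [comp_XB]
  exact Submodule.sum_mem _ (fun b _ => Submodule.smul_mem _ _ (Ux_stable (hu b) b c))

theorem act_tt (u : W k l (Fin (m + 1))) :
    act k l _ (tt k l m) u = act k l _ (XB univ) u + ((k : ℚ) - (l : ℚ)) • u := by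
  unfold tt
  rw [map_add, map_smul, map_one]
  rfl

theorem Lx_tt {ξ : W k l (Fin m)} {u : W k l (Fin (m + 1))} (hu : u ∈ Lx ξ) :
    act k l _ (tt k l m) u ∈ Lx ξ := by
  rw [act_tt]
  exact Submodule.add_mem _ (Lx_X hu) (Submodule.smul_mem _ _ hu)

theorem pm_eta {b c : Lt k l} (h : idx b < idx c) :
    pm b c * eta b c b = if odd b then -1 else 1 := by
  rcases b with b | b <;> rcases c with c | c
  · simp [pm, eta]
  · simp [pm, eta]
  · exfalso
    simp only [idx, Sum.elim_inl, Sum.elim_inr] at h
    have := c.2; omega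
  · simp [pm, eta]

theorem tt_inj {ξ : W k l (Fin m)}
    (h0 : ∀ a b : Lt k l, odd a = odd b → EE a b ξ ∈ (ℚ ∙ ξ))
    (hs : ∀ w, ξ w ≠ 0 → Pl w) {u : W k l (Fin (m + 1))} (hu : u ∈ Lx ξ)
    (ht0 : act k l _ (tt k l m) u = 0) : u = 0 := by
  classical
  by_contra hne
  let N : Submodule ℚ (W k l (Fin (m + 1))) := Lx ξ ⊓ LinearMap.ker (act k l _ (tt k l m))
  have hst : ∀ a b : Lt k l, ∀ v ∈ N, EE a b v ∈ N := by
    rintro a b v ⟨hv1, hv2⟩
    refine ⟨Lx_EE hv1 a b, ?_⟩
    rw [SetLike.mem_coe, LinearMap.mem_ker] at *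
    have h := LinearMap.congr_fun (act_EE (tt k l m) a b) v
    simp only [Module.End.mul_apply] at h
    rw [h, hv2, map_zero]
  obtain ⟨v, hvN, hv0, hvr⟩ := exists_hw N hst (univ.sup ht) u
    ⟨hu, by rw [SetLike.mem_coe, LinearMap.mem_ker]; exact ht0⟩ hne
    (fun w _ => Finset.le_sup (Finset.mem_univ w))
  have hv1 : v ∈ Lx ξ := hvN.1
  have hv2 : act k l _ (tt k l m) v = 0 := by
    have := hvN.2; rw [SetLike.mem_coe, LinearMap.mem_ker] at this; exact this
  -- the maximal letter
  have hex : (univ.filter (fun c : Lt k l => comp c v ≠ 0)).Nonempty := by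
    by_contra h
    rw [Finset.not_nonempty_iff_eq_empty] at h
    apply hv0
    refine ext_comp (fun c => ?_)
    rw [map_zero]
    by_contra h2
    have : c ∈ univ.filter (fun c : Lt k l => comp c v ≠ 0) := by
      rw [Finset.mem_filter]; exact ⟨Finset.mem_univ _, h2⟩
    rw [h] at this
    exact absurd this (Finset.notMem_empty c)
  obtain ⟨c, hc1, hc2⟩ := Finset.exists_max_image _ idx hex
  rw [Finset.mem_filter] at hc1
  have hc : comp c v ≠ 0 := hc1.2
  have hbig : ∀ b, idx c < idx b → comp b v = 0 := by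
    intro b hb
    by_contra h
    have := hc2 b (by rw [Finset.mem_filter]; exact ⟨Finset.mem_univ _, h⟩)
    omega
  have heta : ∀ a b d : Lt k l, ∀ x : W k l (Fin m), eta a b d • x = 0 → x = 0 := by
    intro a b d x hx
    have := congrArg (fun y => eta a b d • y) hx
    simp only [smul_smul, eta_sq, one_smul, smul_zero] at this
    exact this
  have hr : ∀ a b, idx a < idx b → EE a b (comp c v) = 0 := by
    intro a b hab
    have h := comp_EE a b c v
    rw [hvr a b hab, map_zero] at h
    have h2 : (if c = a then comp b v else 0) = 0 := by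
      split_ifs with h3
      · exact hbig b (by rw [h3]; exact hab)
      · rfl
    rw [h2, zero_add] at h
    exact heta _ _ _ _ h.symm
  have hl : ∀ b, idx b < idx c → EE b c (comp b v) = -(eta b c b • comp c v) := by
    intro b hb
    have h := comp_EE b c b v
    rw [hvr b c hb, map_zero, if_pos rfl] at h
    have h2 := congrArg (fun y => eta b c b • y) h
    simp only [smul_add, smul_smul, eta_sq, one_smul, smul_zero] at h2
    exact (neg_eq_of_add_eq_zero_right h2.symm).symm
  have hX : comp c (act k l _ (XB univ) v) = ((l : ℚ) - (k : ℚ)) • comp c v := by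
    rw [act_tt] at hv2
    have := congrArg (comp c) hv2
    rw [map_add, map_smul, map_zero] at this
    rw [eq_neg_of_add_eq_zero_left this, ← neg_smul]
    congr 1; ring
  rw [comp_XB] at hX
  have hsum : ∀ b ∈ (univ : Finset (Lt k l)), pm b c • EB univ b c (comp b v)
      = (if idx b < idx c then (if odd b then (1 : ℚ) else -1) else 0) • comp c v
        + (if b = c then pm c c • EE c c (comp c v) else 0) := by
    intro b _
    have e : EB univ b c (comp b v) = EE b c (comp b v) := rfl
    rw [e]
    rcases lt_trichotomy (idx b) (idx c) with h | h | h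
    · have hbc : ¬ b = c := fun e => by rw [e] at h; exact lt_irrefl _ h
      rw [if_pos h, hl b h, if_neg hbc, add_zero,
        smul_neg, smul_smul, pm_eta h, ← neg_smul]
      congr 1
      split_ifs <;> norm_num
    · have := idx_inj h
      subst this
      rw [if_neg (lt_irrefl _), if_pos rfl, zero_smul, zero_add]
    · have hbc : ¬ b = c := fun e => by rw [e] at h; exact lt_irrefl _ h
      rw [if_neg (not_lt.2 h.le), if_neg hbc,
        hbig b h, map_zero, smul_zero, zero_smul, add_zero]
  rw [Finset.sum_congr rfl hsum, Finset.sum_add_distrib, Finset.sum_ite_eq' univ c,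
    if_pos (Finset.mem_univ c), ← Finset.sum_smul] at hX
  -- evaluate
  have heval : ∀ w, comp c v w ≠ 0 →
      (∑ b : Lt k l, if idx b < idx c then (if odd b then (1 : ℚ) else -1) else 0)
        + pm c c * (cnt c w : ℚ) = (l : ℚ) - (k : ℚ) := by
    intro w hw
    have h := congrFun hX w
    rw [Pi.add_apply, Pi.smul_apply, Pi.smul_apply, Pi.smul_apply, EE_diag] at h
    simp only [smul_eq_mul] at h
    refine mul_right_cancel₀ hw ?_
    linear_combination h
  obtain ⟨w, hw1, hw2⟩ := exists_supp h0 hs (hv1 c) hc (fun i j => hr _ _ (by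
    simp only [idx, Sum.elim_inl, Sum.elim_inr]
    have := i.2; omega))
  have hfin := heval w hw1
  rcases c with i | j
  · have h1 : (∑ b : Lt k l, if idx b < idx (Sum.inl i : Lt k l) then
        (if odd b then (1 : ℚ) else -1) else 0) = -(i.val : ℚ) := by
      rw [Fintype.sum_sum_type]
      have h2 : ∀ x : Fin l, (if idx (Sum.inr x : Lt k l) < idx (Sum.inl i : Lt k l) then
          (if odd (Sum.inr x : Lt k l) then (1 : ℚ) else -1) else 0) = 0 := by
        intro x
        rw [if_neg]
        simp only [idx, Sum.elim_inl, Sum.elim_inr]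
        have := i.2; omega
      rw [Finset.sum_eq_zero (fun x _ => h2 x), add_zero]
      have h3 : ∀ x : Fin k, (if idx (Sum.inl x : Lt k l) < idx (Sum.inl i : Lt k l) then
          (if odd (Sum.inl x : Lt k l) then (1 : ℚ) else -1) else 0)
          = if x < i then (-1 : ℚ) else 0 := by
        intro x
        simp only [idx, Sum.elim_inl, Fin.lt_def]
        simp
      rw [Finset.sum_congr rfl (fun x _ => h3 x), ← Finset.sum_filter, Finset.sum_const,
        nsmul_eq_mul]
      have h4 : (univ.filter (fun x : Fin k => x < i)).card = i.val := by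
        have : univ.filter (fun x : Fin k => x < i) = Finset.Iio i := by
          ext x; simp
        rw [this, Fin.card_Iio]
      rw [h4]; ring
    rw [h1] at hfin
    have h5 : pm (Sum.inl i : Lt k l) (Sum.inl i) = 1 := by simp [pm]
    rw [h5, one_mul] at hfin
    have h6 : (l : ℚ) ≤ (cnt (Sum.inl i : Lt k l) w : ℚ) := by exact_mod_cast hw2 i
    have h7 : ((i.val : ℕ) : ℚ) < (k : ℚ) := by exact_mod_cast i.2
    linarith
  · have h1 : (∑ b : Lt k l, if idx b < idx (Sum.inr j : Lt k l) then
        (if odd b then (1 : ℚ) else -1) else 0) = -(k : ℚ) + (j.val : ℚ) := by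
      rw [Fintype.sum_sum_type]
      congr 1
      · have h2 : ∀ x : Fin k, (if idx (Sum.inl x : Lt k l) < idx (Sum.inr j : Lt k l) then
            (if odd (Sum.inl x : Lt k l) then (1 : ℚ) else -1) else 0) = -1 := by
          intro x
          rw [if_pos]
          · simp
          · simp only [idx, Sum.elim_inl, Sum.elim_inr]
            have := x.2; omega
        rw [Finset.sum_congr rfl (fun x _ => h2 x)]
        simp
      · have h3 : ∀ x : Fin l, (if idx (Sum.inr x : Lt k l) < idx (Sum.inr j : Lt k l) then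
            (if odd (Sum.inr x : Lt k l) then (1 : ℚ) else -1) else 0)
            = if x < j then (1 : ℚ) else 0 := by
          intro x
          simp only [idx, Sum.elim_inr, Fin.lt_def]
          simp
        rw [Finset.sum_congr rfl (fun x _ => h3 x), ← Finset.sum_filter, Finset.sum_const,
          nsmul_eq_mul]
        have h4 : (univ.filter (fun x : Fin l => x < j)).card = j.val := by
          have : univ.filter (fun x : Fin l => x < j) = Finset.Iio j := by
            ext x; simp
          rw [this, Fin.card_Iio]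
        rw [h4]; ring
    rw [h1] at hfin
    have h5 : pm (Sum.inr j : Lt k l) (Sum.inr j) = -1 := by simp [pm]
    rw [h5] at hfin
    have h6 : (0 : ℚ) ≤ (cnt (Sum.inr j : Lt k l) w : ℚ) := by positivity
    have h7 : ((j.val : ℕ) : ℚ) < (l : ℚ) := by exact_mod_cast j.2
    linarith

end Pool.PI34.Super

end

/-! ### part Super5 -/
section

/-!
PI34, E-block, file 5: the vector `ξ = det_0^{⊗ l} ⊗ det_1^{⊗ k}`.
-/

set_option linter.unusedSectionVars false
set_option linter.unusedSimpArgs false

namespace Pool.PI34.Super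

open Equiv Finset

variable {k l : ℕ}

section dets

variable {ι : Type*} [DecidableEq ι] {r n : ℕ}

/-- The indicator matrix of row `j`. -/
def MM (pos : Fin r × Fin n → ι) (lam : Fin n → Lt k l) (w : ι → Lt k l) (j : Fin r) :
    Matrix (Fin n) (Fin n) ℚ :=
  fun i c => if w (pos (j, i)) = lam c then 1 else 0

theorem MM_apply (pos : Fin r × Fin n → ι) (lam : Fin n → Lt k l) (w : ι → Lt k l) (j : Fin r)
    (i c : Fin n) : MM pos lam w j i c = if w (pos (j, i)) = lam c then 1 else 0 := rfl

/-- The product of determinants. -/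
def DD (pos : Fin r × Fin n → ι) (lam : Fin n → Lt k l) (w : ι → Lt k l) : ℚ :=
  ∏ j, (MM pos lam w j).det

theorem MM_update {pos : Fin r × Fin n → ι} (hpos : Function.Injective pos)
    {lam : Fin n → Lt k l} (hlam : Function.Injective lam) (w : ι → Lt k l) (j : Fin r)
    (i : Fin n) (b : Fin n) :
    MM pos lam (Function.update w (pos (j, i)) (lam b)) j
      = (MM pos lam w j).updateRow i (Pi.single b 1) := by
  ext i' c
  by_cases h : i' = i
  · subst h
    rw [Matrix.updateRow_self, MM_apply, Function.update_self, Pi.single_apply]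
    by_cases h2 : b = c
    · subst h2; simp
    · rw [if_neg (fun e => h2 (hlam e)), if_neg (fun e => h2 e.symm)]
  · have h1 : pos (j, i') ≠ pos (j, i) := fun e => h (by simpa using hpos e)
    rw [Matrix.updateRow_ne h, MM_apply, MM_apply, Function.update_of_ne h1]

theorem MM_update_ne {pos : Fin r × Fin n → ι} {lam : Fin n → Lt k l} (w : ι → Lt k l)
    (j : Fin r) (s : ι) (hs : ∀ i, pos (j, i) ≠ s) (c : Lt k l) :
    MM pos lam (Function.update w s c) j = MM pos lam w j := by
  ext i' c
  unfold MM
  rw [Function.update_of_ne (hs i')]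

theorem sum_adj (M : Matrix (Fin n) (Fin n) ℚ) (a b : Fin n) :
    ∑ i, M i a * (M.updateRow i (Pi.single b 1)).det = if a = b then M.det else 0 := by
  have h := congrFun (congrFun (Matrix.adjugate_mul M) b) a
  rw [Matrix.mul_apply] at h
  simp only [Matrix.adjugate_apply, Matrix.smul_apply, Matrix.one_apply, smul_eq_mul] at h
  rw [← Finset.sum_congr rfl (fun i _ => mul_comm _ _), h]
  by_cases hab : a = b
  · subst hab; simp
  · rw [if_neg hab, if_neg (fun e => hab e.symm), mul_zero]

theorem DD_deriv {pos : Fin r × Fin n → ι} (hpos : Function.Injective pos)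
    {lam : Fin n → Lt k l} (hlam : Function.Injective lam) (w : ι → Lt k l) (a b : Fin n) :
    ∑ q : Fin r × Fin n, (if w (pos q) = lam a then
        DD pos lam (Function.update w (pos q) (lam b)) else 0)
      = if a = b then (r : ℚ) * DD pos lam w else 0 := by
  classical
  rw [← Finset.univ_product_univ, Finset.sum_product]
  have h1 : ∀ j : Fin r, ∑ i : Fin n, (if w (pos (j, i)) = lam a then
        DD pos lam (Function.update w (pos (j, i)) (lam b)) else 0)
      = if a = b then DD pos lam w else 0 := by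
    intro j
    have h2 : ∀ i : Fin n, (if w (pos (j, i)) = lam a then
        DD pos lam (Function.update w (pos (j, i)) (lam b)) else 0)
        = (MM pos lam w j i a * ((MM pos lam w j).updateRow i (Pi.single b 1)).det)
          * ∏ j' ∈ univ.erase j, (MM pos lam w j').det := by
      intro i
      unfold DD
      rw [← Finset.mul_prod_erase univ _ (Finset.mem_univ j), MM_update hpos hlam]
      have h3 : ∏ x ∈ univ.erase j, (MM pos lam (Function.update w (pos (j, i)) (lam b)) x).det
          = ∏ j' ∈ univ.erase j, (MM pos lam w j').det := by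
        refine Finset.prod_congr rfl (fun j' hj' => ?_)
        rw [Finset.mem_erase] at hj'
        rw [MM_update_ne]
        intro i' e
        have := hpos e
        simp only [Prod.mk.injEq] at this
        exact hj'.1 this.1
      rw [h3]
      have h4 : MM pos lam w j i a = if w (pos (j, i)) = lam a then 1 else 0 := rfl
      rw [h4]
      split_ifs <;> ring
    rw [Finset.sum_congr rfl (fun i _ => h2 i), ← Finset.sum_mul, sum_adj]
    split_ifs
    · unfold DD
      rw [← Finset.mul_prod_erase univ _ (Finset.mem_univ j)]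
    · rw [zero_mul]
  rw [Finset.sum_congr rfl (fun j _ => h1 j)]
  rw [Finset.sum_const, Finset.card_univ, Fintype.card_fin, nsmul_eq_mul]
  split_ifs <;> simp

theorem DD_update_ne {pos : Fin r × Fin n → ι} {lam : Fin n → Lt k l} (w : ι → Lt k l)
    (s : ι) (hs : ∀ q, pos q ≠ s) (c : Lt k l) :
    DD pos lam (Function.update w s c) = DD pos lam w := by
  unfold DD
  exact Finset.prod_congr rfl (fun j _ => by rw [MM_update_ne w j s (fun i => hs (j, i)) c])

theorem DD_update_bad {pos : Fin r × Fin n → ι} {lam : Fin n → Lt k l} (w : ι → Lt k l)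
    (q : Fin r × Fin n) (c : Lt k l) (hc : ∀ x, lam x ≠ c) :
    DD pos lam (Function.update w (pos q) c) = 0 := by
  unfold DD
  refine Finset.prod_eq_zero (Finset.mem_univ q.1) ?_
  refine Matrix.det_eq_zero_of_row_eq_zero q.2 (fun x => ?_)
  unfold MM
  rw [show (q.1, q.2) = q from rfl, Function.update_self, if_neg (fun e => hc x e.symm)]

theorem DD_supp {pos : Fin r × Fin n → ι} {lam : Fin n → Lt k l} {w : ι → Lt k l}
    (h : DD pos lam w ≠ 0) (j : Fin r) (c : Fin n) : ∃ i, w (pos (j, i)) = lam c := by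
  by_contra hcon
  push Not at hcon
  apply h
  unfold DD
  refine Finset.prod_eq_zero (Finset.mem_univ j) ?_
  refine Matrix.det_eq_zero_of_column_eq_zero c (fun x => ?_)
  unfold MM
  rw [if_neg (hcon x)]

end dets

/-- The number of catalyst strands. -/
def mm (k l : ℕ) : ℕ := l * k + k * l

/-- Enumeration of the catalyst strands. -/
def catEquiv (k l : ℕ) : (Fin l × Fin k) ⊕ (Fin k × Fin l) ≃ Fin (mm k l) :=
  (Equiv.sumCongr finProdFinEquiv finProdFinEquiv).trans finSumFinEquiv

/-- Positions of block 1. -/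
def pos1 (k l : ℕ) (q : Fin l × Fin k) : Fin (mm k l) := catEquiv k l (Sum.inl q)

/-- Positions of block 2. -/
def pos2 (k l : ℕ) (q : Fin k × Fin l) : Fin (mm k l) := catEquiv k l (Sum.inr q)

theorem pos1_inj (k l : ℕ) : Function.Injective (pos1 k l) := fun a b h => by
  have := (catEquiv k l).injective h
  exact Sum.inl_injective this

theorem pos2_inj (k l : ℕ) : Function.Injective (pos2 k l) := fun a b h => by
  have := (catEquiv k l).injective h
  exact Sum.inr_injective this

theorem pos12_ne (k l : ℕ) (q : Fin l × Fin k) (q' : Fin k × Fin l) :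
    pos1 k l q ≠ pos2 k l q' := fun h => by
  have := (catEquiv k l).injective h
  simp at this

/-- Block 1. -/
def B1 (k l : ℕ) : Finset (Fin (mm k l)) := univ.image (pos1 k l)

/-- Block 2. -/
def B2 (k l : ℕ) : Finset (Fin (mm k l)) := univ.image (pos2 k l)

theorem B12_disj (k l : ℕ) : Disjoint (B1 k l) (B2 k l) := by
  rw [Finset.disjoint_left]
  intro s h1 h2
  unfold B1 at h1
  unfold B2 at h2
  rw [Finset.mem_image] at h1 h2
  obtain ⟨q, _, hq⟩ := h1
  obtain ⟨q', _, hq'⟩ := h2
  exact pos12_ne k l q q' (hq.trans hq'.symm)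

theorem B12_union (k l : ℕ) : (B1 k l) ∪ (B2 k l) = univ := by
  ext s
  simp only [Finset.mem_union, Finset.mem_univ, iff_true]
  obtain ⟨x, hx⟩ := (catEquiv k l).surjective s
  rcases x with q | q
  · left; exact Finset.mem_image.2 ⟨q, Finset.mem_univ _, hx⟩
  · right; exact Finset.mem_image.2 ⟨q, Finset.mem_univ _, hx⟩

/-- The vector `ξ`. -/
def xi (k l : ℕ) : W k l (Fin (mm k l)) := fun w =>
  DD (pos1 k l) (Sum.inl : Fin k → Lt k l) w * DD (pos2 k l) (Sum.inr : Fin l → Lt k l) w

theorem EB_add {ι : Type*} [Fintype ι] [LinearOrder ι] {A B : Finset ι} (h : Disjoint A B)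
    (a b : Lt k l) : (EB (A ∪ B) a b : Module.End ℚ (W k l ι)) = EB A a b + EB B a b := by
  unfold EB
  rw [Finset.sum_union h]

theorem xi_bad1 (w : Fin (mm k l) → Lt k l) (q : Fin l × Fin k) (c : Fin l) :
    xi k l (Function.update w (pos1 k l q) (Sum.inr c)) = 0 := by
  unfold xi
  rw [DD_update_bad w q _ (fun x => by simp), zero_mul]

theorem xi_bad2 (w : Fin (mm k l) → Lt k l) (q : Fin k × Fin l) (c : Fin k) :
    xi k l (Function.update w (pos2 k l q) (Sum.inl c)) = 0 := by
  unfold xi
  rw [DD_update_bad w q (Sum.inl c) (fun x => by simp), mul_zero]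

theorem EB1_inr (a : Lt k l) (c : Fin l) : EB (B1 k l) a (Sum.inr c) (xi k l) = 0 := by
  funext w
  unfold EB B1
  rw [LinearMap.sum_apply, Finset.sum_apply, Finset.sum_image (fun x _ y _ h => pos1_inj k l h)]
  refine Finset.sum_eq_zero (fun q _ => ?_)
  rw [eop_apply, xi_bad1, mul_zero, ite_self]

theorem EB2_inl (a : Lt k l) (c : Fin k) : EB (B2 k l) a (Sum.inl c) (xi k l) = 0 := by
  funext w
  unfold EB B2
  rw [LinearMap.sum_apply, Finset.sum_apply, Finset.sum_image (fun x _ y _ h => pos2_inj k l h)]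
  refine Finset.sum_eq_zero (fun q _ => ?_)
  rw [eop_apply, xi_bad2, mul_zero, ite_self]

theorem bsg_even {ι : Type*} [Fintype ι] [LinearOrder ι] (a b : Lt k l) (h : odd a = odd b)
    (w : ι → Lt k l) (i : ι) : bsg a b w i = 1 := by
  unfold bsg
  refine Finset.prod_eq_one (fun j _ => ?_)
  unfold eta; rw [h]; simp

theorem EB1_inl (a c : Fin k) :
    EB (B1 k l) (Sum.inl a) (Sum.inl c) (xi k l) = if a = c then (l : ℚ) • xi k l else 0 := by
  funext w
  unfold EB B1
  rw [LinearMap.sum_apply, Finset.sum_apply, Finset.sum_image (fun x _ y _ h => pos1_inj k l h)]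
  have h := DD_deriv (pos1_inj k l) (lam := (Sum.inl : Fin k → Lt k l)) Sum.inl_injective w a c
  have h2 : ∀ q ∈ (univ : Finset (Fin l × Fin k)),
      eop (Sum.inl a) (Sum.inl c) (pos1 k l q) (xi k l) w
      = (if w (pos1 k l q) = Sum.inl a then
        DD (pos1 k l) (Sum.inl : Fin k → Lt k l) (Function.update w (pos1 k l q) (Sum.inl c))
        else 0) * DD (pos2 k l) (Sum.inr : Fin l → Lt k l) w := by
    intro q _
    rw [eop_apply, bsg_even (Sum.inl a) (Sum.inl c) rfl]
    split_ifs
    · rw [one_mul]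
      unfold xi
      rw [DD_update_ne (pos := pos2 k l) w _ (fun q' e => pos12_ne k l q q' e.symm)]
    · rw [zero_mul]
  rw [Finset.sum_congr rfl h2, ← Finset.sum_mul, h]
  split_ifs
  · rw [Pi.smul_apply, smul_eq_mul]; unfold xi; ring
  · rw [zero_mul]; rfl

theorem EB2_inr (a c : Fin l) :
    EB (B2 k l) (Sum.inr a) (Sum.inr c) (xi k l) = if a = c then (k : ℚ) • xi k l else 0 := by
  funext w
  unfold EB B2
  rw [LinearMap.sum_apply, Finset.sum_apply, Finset.sum_image (fun x _ y _ h => pos2_inj k l h)]
  have h := DD_deriv (pos2_inj k l) (lam := (Sum.inr : Fin l → Lt k l)) Sum.inr_injective w a c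
  have h2 : ∀ q ∈ (univ : Finset (Fin k × Fin l)),
      eop (Sum.inr a) (Sum.inr c) (pos2 k l q) (xi k l) w
      = (if w (pos2 k l q) = Sum.inr a then
        DD (pos2 k l) (Sum.inr : Fin l → Lt k l) (Function.update w (pos2 k l q) (Sum.inr c))
        else 0) * DD (pos1 k l) (Sum.inl : Fin k → Lt k l) w := by
    intro q _
    rw [eop_apply, bsg_even (Sum.inr a) (Sum.inr c) rfl]
    split_ifs
    · rw [one_mul]
      unfold xi
      rw [DD_update_ne (pos := pos1 k l) w _ (fun q' e => pos12_ne k l q' q e)]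
      ring
    · rw [zero_mul]
  rw [Finset.sum_congr rfl h2, ← Finset.sum_mul, h]
  split_ifs
  · rw [Pi.smul_apply, smul_eq_mul]; unfold xi; ring
  · rw [zero_mul]; rfl

theorem xi_g0 (a b : Lt k l) (h : odd a = odd b) : EE a b (xi k l) ∈ (ℚ ∙ xi k l) := by
  have h1 : EE a b (xi k l) = EB (B1 k l) a b (xi k l) + EB (B2 k l) a b (xi k l) := by
    unfold EE
    rw [← B12_union, EB_add (B12_disj k l), LinearMap.add_apply]
  rw [h1]
  rcases a with a | a <;> rcases b with b | b
  · rw [EB1_inl, EB2_inl, add_zero]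
    split_ifs
    · exact Submodule.smul_mem _ _ (Submodule.mem_span_singleton_self _)
    · exact Submodule.zero_mem _
  · simp at h
  · simp at h
  · rw [EB1_inr, EB2_inr, zero_add]
    split_ifs
    · exact Submodule.smul_mem _ _ (Submodule.mem_span_singleton_self _)
    · exact Submodule.zero_mem _

theorem xi_supp (w : Fin (mm k l) → Lt k l) (hw : xi k l w ≠ 0) : Pl w := by
  classical
  intro i
  have h1 : DD (pos1 k l) (Sum.inl : Fin k → Lt k l) w ≠ 0 := by
    unfold xi at hw
    exact left_ne_zero_of_mul hw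
  have h2 : ∀ j : Fin l, ∃ i', w (pos1 k l (j, i')) = Sum.inl i := fun j => DD_supp h1 j i
  choose f hf using h2
  unfold cnt
  calc l = (univ : Finset (Fin l)).card := by simp
    _ ≤ _ := by
      refine Finset.card_le_card_of_injOn (fun j => pos1 k l (j, f j)) (fun j _ => ?_) ?_
      · simp [hf j]
      · intro j _ j' _ e
        have := pos1_inj k l e
        simp only [Prod.mk.injEq] at this
        exact this.1

/-- `v_a ⊗ f`. -/
def ins {m : ℕ} (a : Lt k l) (f : W k l (Fin m)) : W k l (Fin (m + 1)) :=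
  fun w => if w 0 = a then f (Fin.tail w) else 0

theorem comp_ins {m : ℕ} (a c : Lt k l) (f : W k l (Fin m)) :
    comp c (ins a f) = if c = a then f else 0 := by
  funext w
  rw [comp_apply]
  unfold ins
  rw [Fin.cons_zero, Fin.tail_cons]
  split_ifs <;> rfl

theorem X1_ins (a : Fin k) :
    act k l _ (XB (B1 k l)) (ins (Sum.inl a) (xi k l)) = (l : ℚ) • ins (Sum.inl a) (xi k l) := by
  refine ext_comp (fun c => ?_)
  rw [comp_XB, Finset.sum_eq_single (Sum.inl a), map_smul, comp_ins, comp_ins, if_pos rfl]
  · rcases c with c | c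
    · rw [EB1_inl]
      by_cases h : a = c
      · subst h; simp [pm]
      · rw [if_neg h, if_neg (fun e => h (Sum.inl_injective e).symm), smul_zero, smul_zero]
    · rw [EB1_inr, if_neg (by simp), smul_zero, smul_zero]
  · intro b _ hb
    rw [comp_ins, if_neg hb, map_zero, smul_zero]
  · intro h; exact absurd (Finset.mem_univ _) h

theorem X2_ins (a : Fin l) :
    act k l _ (XB (B2 k l)) (ins (Sum.inr a) (xi k l))
      = (-(k : ℚ)) • ins (Sum.inr a) (xi k l) := by
  refine ext_comp (fun c => ?_)
  rw [comp_XB, Finset.sum_eq_single (Sum.inr a), map_smul, comp_ins, comp_ins, if_pos rfl]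
  · rcases c with c | c
    · rw [EB2_inl, if_neg (by simp), smul_zero, smul_zero]
    · rw [EB2_inr]
      by_cases h : a = c
      · subst h; simp [pm]
      · rw [if_neg h, if_neg (fun e => h (Sum.inr_injective e).symm), smul_zero, smul_zero]
  · intro b _ hb
    rw [comp_ins, if_neg hb, map_zero, smul_zero]
  · intro h; exact absurd (Finset.mem_univ _) h

theorem ins_mem_Lx (a : Lt k l) : ins a (xi k l) ∈ Lx (xi k l) := by
  intro c
  rw [comp_ins]
  split_ifs
  · exact mem_Ux _
  · exact Submodule.zero_mem _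

theorem XB_univ (k l : ℕ) : XB (univ : Finset (Fin (mm k l))) = XB (B1 k l) + XB (B2 k l) := by
  unfold XB
  rw [← B12_union, Finset.sum_union (B12_disj k l)]

end Pool.PI34.Super

end

/-! ### part Super6 -/
section

/-!
PI34, E-block, file 6: averages of operators lie in the algebra generated by the `E_ab`
(first fundamental theorem); the element `z`.
-/

set_option linter.unusedSectionVars false
set_option linter.unusedSimpArgs false

namespace Pool.PI34.Super

open Equiv Finset

variable {k l m : ℕ}

/-- Products of position operators. -/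
def PL (L : List (Lt k l × Lt k l × Fin m)) : Module.End ℚ (W k l (Fin m)) :=
  (L.map (fun x => eop x.1 x.2.1 x.2.2)).prod

theorem PL_nil : PL ([] : List (Lt k l × Lt k l × Fin m)) = 1 := rfl

theorem PL_cons (x : Lt k l × Lt k l × Fin m) (L : List (Lt k l × Lt k l × Fin m)) :
    PL (x :: L) = eop x.1 x.2.1 x.2.2 * PL L := by
  unfold PL; rw [List.map_cons, List.prod_cons]

/-- The (non normalised) average over the symmetric group. -/
def Avg : Module.End ℚ (W k l (Fin m)) →ₗ[ℚ] Module.End ℚ (W k l (Fin m)) where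
  toFun T := ∑ σ : Perm (Fin m), rho k l _ σ * T * rho k l _ σ⁻¹
  map_add' S T := by
    rw [← Finset.sum_add_distrib]
    exact Finset.sum_congr rfl (fun σ _ => by rw [mul_add, add_mul])
  map_smul' c T := by
    rw [RingHom.id_apply, Finset.smul_sum]
    exact Finset.sum_congr rfl (fun σ _ => by rw [mul_smul_comm, smul_mul_assoc])

theorem Avg_apply (T : Module.End ℚ (W k l (Fin m))) :
    Avg T = ∑ σ : Perm (Fin m), rho k l _ σ * T * rho k l _ σ⁻¹ := rfl

/-- The algebra generated by the `E_ab`. -/
def UA (k l m : ℕ) : Subalgebra ℚ (Module.End ℚ (W k l (Fin m))) :=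
  Algebra.adjoin ℚ (Sall k l m)

theorem EE_mem_UA (a b : Lt k l) : (EE a b : Module.End ℚ (W k l (Fin m))) ∈ UA k l m :=
  Algebra.subset_adjoin ⟨a, b, rfl⟩

theorem merge (L : List (Lt k l × Lt k l × Fin m)) (x : Lt k l × Lt k l × Fin m)
    (h : ∃ y ∈ L, y.2.2 = x.2.2) :
    ∃ (c : ℚ) (L' : List (Lt k l × Lt k l × Fin m)), L'.length = L.length ∧
      PL (x :: L) = c • PL L' := by
  induction L with
  | nil => obtain ⟨y, hy, _⟩ := h; simp at hy
  | cons y L ih =>
    by_cases hy : y.2.2 = x.2.2
    · refine ⟨if x.2.1 = y.1 then 1 else 0, (x.1, y.2.1, x.2.2) :: L, by simp, ?_⟩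
      rw [PL_cons, PL_cons, PL_cons, ← mul_assoc, hy, eop_mul']
      split_ifs
      · rw [one_smul]
      · rw [zero_smul, zero_mul]
    · have h' : ∃ y ∈ L, y.2.2 = x.2.2 := by
        obtain ⟨y', hy', he⟩ := h
        rcases List.mem_cons.1 hy' with e | e
        · subst e; exact absurd he hy
        · exact ⟨y', e, he⟩
      obtain ⟨c, L', hL', he⟩ := ih h'
      refine ⟨dd x.1 x.2.1 y.1 y.2.1 * c, y :: L', by simp [hL'], ?_⟩
      rw [PL_cons, PL_cons, ← mul_assoc, eop_comm _ _ _ _ (fun e => hy e.symm), smul_mul_assoc,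
        mul_assoc, ← PL_cons x L, he, PL_cons, mul_smul_comm, smul_smul]

theorem rho_inv_mul (τ : Perm (Fin m)) : rho k l _ τ⁻¹ * rho k l _ τ = 1 := by
  rw [← map_mul, inv_mul_cancel, map_one]

theorem rho_mul_inv (τ : Perm (Fin m)) : rho k l _ τ * rho k l _ τ⁻¹ = 1 := by
  rw [← map_mul, mul_inv_cancel, map_one]

theorem PL_conj (τ : Perm (Fin m)) (L : List (Lt k l × Lt k l × Fin m)) :
    rho k l _ τ * PL L * rho k l _ τ⁻¹ = PL (L.map (fun x => (x.1, x.2.1, τ x.2.2))) := by
  induction L with
  | nil => rw [List.map_nil, PL_nil, mul_one, rho_mul_inv]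
  | cons x L ih =>
    rw [List.map_cons, PL_cons, PL_cons, ← ih, ← mul_assoc, rho_eop]
    simp only [mul_assoc]

theorem Avg_conj (τ : Perm (Fin m)) (T : Module.End ℚ (W k l (Fin m))) :
    Avg (rho k l _ τ * T * rho k l _ τ⁻¹) = Avg T := by
  rw [Avg_apply, Avg_apply]
  refine Fintype.sum_equiv (Equiv.mulRight τ) _ _ (fun σ => ?_)
  rw [Equiv.coe_mulRight, mul_inv_rev, map_mul, map_mul]
  simp only [mul_assoc]

theorem EE_Avg (a b : Lt k l) (T : Module.End ℚ (W k l (Fin m))) :
    EE a b * Avg T = Avg (EE a b * T) := by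
  rw [Avg_apply, Avg_apply, Finset.mul_sum]
  refine Finset.sum_congr rfl (fun σ _ => ?_)
  rw [← mul_assoc, ← mul_assoc, ← mul_assoc, rho_EE]

theorem Avg_PL_mem (q : ℕ) : ∀ L : List (Lt k l × Lt k l × Fin m), L.length = q →
    Avg (PL L) ∈ UA k l m := by
  classical
  induction q with
  | zero =>
    intro L hL
    rw [List.length_eq_zero_iff] at hL
    subst hL
    rw [PL_nil, Avg_apply]
    refine Subalgebra.sum_mem _ (fun σ _ => ?_)
    rw [mul_one, rho_mul_inv]
    exact Subalgebra.one_mem _
  | succ q ih =>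
    intro L hL
    rcases L with _ | ⟨x, L⟩
    · simp at hL
    · have hL' : L.length = q := by simpa using hL
      by_cases hx : ∃ y ∈ L, y.2.2 = x.2.2
      · obtain ⟨c, L', h1, h2⟩ := merge L x hx
        rw [h2, map_smul]
        exact Subalgebra.smul_mem _ (ih L' (h1.trans hL')) c
      · push Not at hx
        obtain ⟨a, b, i⟩ := x
        simp only at hx
        have h1 : ∑ j : Fin m, Avg (PL ((a, b, j) :: L)) ∈ UA k l m := by
          have : ∑ j : Fin m, Avg (PL ((a, b, j) :: L)) = EE a b * Avg (PL L) := by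
            rw [EE_Avg]
            unfold EE EB
            rw [Finset.sum_mul, map_sum]
            exact Finset.sum_congr rfl (fun j _ => by rw [PL_cons])
          rw [this]
          exact Subalgebra.mul_mem _ (EE_mem_UA a b) (ih L hL')
        set S : Finset (Fin m) := (L.map (fun y => y.2.2)).toFinset with hS
        have hmem : ∀ j, j ∈ S ↔ ∃ y ∈ L, y.2.2 = j := by
          intro j
          rw [hS, List.mem_toFinset, List.mem_map]
        have h2 : ∀ j ∈ S, Avg (PL ((a, b, j) :: L)) ∈ UA k l m := by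
          intro j hj
          obtain ⟨c, L', h3, h4⟩ := merge L (a, b, j) ((hmem j).1 hj)
          rw [h4, map_smul]
          exact Subalgebra.smul_mem _ (ih L' (h3.trans hL')) c
        have h3 : ∀ j ∈ Sᶜ, Avg (PL ((a, b, j) :: L)) = Avg (PL ((a, b, i) :: L)) := by
          intro j hj
          rw [Finset.mem_compl, hmem] at hj
          push Not at hj
          rw [← Avg_conj (swap i j) (PL ((a, b, i) :: L)), PL_conj, List.map_cons]
          congr 3
          · simp
          · symm
            refine (List.map_congr_left (g := id) (fun y hy => ?_)).trans (List.map_id _)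
            have e1 : swap i j y.2.2 = y.2.2 :=
              swap_apply_of_ne_of_ne (hx y hy) (hj y hy)
            simp only [e1, id]
        rw [← Finset.sum_add_sum_compl S] at h1
        have h4 : ∑ j ∈ Sᶜ, Avg (PL ((a, b, j) :: L)) ∈ UA k l m := by
          have := Subalgebra.sub_mem _ h1 (Subalgebra.sum_mem _ h2)
          rwa [add_sub_cancel_left] at this
        rw [Finset.sum_congr rfl h3, Finset.sum_const] at h4
        have h5 : (Sᶜ).card ≠ 0 := by
          rw [Finset.card_ne_zero]
          refine ⟨i, ?_⟩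
          rw [Finset.mem_compl, hmem]
          push Not
          exact hx
        have h6 := Subalgebra.smul_mem _ h4 (((Sᶜ).card : ℚ)⁻¹)
        rwa [← Nat.cast_smul_eq_nsmul ℚ, smul_smul, inv_mul_cancel₀ (by exact_mod_cast h5),
          one_smul] at h6

/-- Successive updates. -/
def upd (L : List (Lt k l × Lt k l × Fin m)) (w : Fin m → Lt k l) : Fin m → Lt k l :=
  match L with
  | [] => w
  | x :: L => upd L (Function.update w x.2.2 x.2.1)

theorem upd_notMem (L : List (Lt k l × Lt k l × Fin m)) (w : Fin m → Lt k l) (i : Fin m)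
    (h : ∀ x ∈ L, x.2.2 ≠ i) : upd L w i = w i := by
  induction L generalizing w with
  | nil => rfl
  | cons x L ih =>
    unfold upd
    rw [ih _ (fun y hy => h y (List.mem_cons_of_mem _ hy)),
      Function.update_of_ne (h x List.mem_cons_self).symm]

theorem upd_mem (L : List (Lt k l × Lt k l × Fin m)) (w : Fin m → Lt k l)
    (hn : (L.map (fun x => x.2.2)).Nodup) (x : Lt k l × Lt k l × Fin m) (hx : x ∈ L) :
    upd L w x.2.2 = x.2.1 := by
  induction L generalizing w with
  | nil => simp at hx
  | cons y L ih =>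
    rw [List.map_cons, List.nodup_cons] at hn
    unfold upd
    rcases List.mem_cons.1 hx with e | e
    · subst e
      rw [upd_notMem, Function.update_self]
      intro z hz e
      exact hn.1 (List.mem_map.2 ⟨z, hz, e⟩)
    · exact ih _ hn.2 e

theorem PL_eval (L : List (Lt k l × Lt k l × Fin m))
    (hn : (L.map (fun x => x.2.2)).Nodup) (w : Fin m → Lt k l) :
    ∃ c : ℚ, c * c = 1 ∧ ∀ f : W k l (Fin m),
      PL L f w = if (∀ x ∈ L, w x.2.2 = x.1) then c * f (upd L w) else 0 := by
  classical
  induction L generalizing w with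
  | nil => exact ⟨1, by norm_num, fun f => by simp [PL_nil, upd]⟩
  | cons x L ih =>
    rw [List.map_cons, List.nodup_cons] at hn
    obtain ⟨c, hc, hf⟩ := ih hn.2 (Function.update w x.2.2 x.2.1)
    refine ⟨bsg x.1 x.2.1 w x.2.2 * c, ?_, fun f => ?_⟩
    · linear_combination (c * c) * bsg_sq x.1 x.2.1 w x.2.2 + hc
    · rw [PL_cons, Module.End.mul_apply, eop_apply, hf]
      have h1 : (∀ y ∈ L, Function.update w x.2.2 x.2.1 y.2.2 = y.1) ↔
          (∀ y ∈ L, w y.2.2 = y.1) := by
        refine forall₂_congr (fun y hy => ?_)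
        rw [Function.update_of_ne]
        intro e
        exact hn.1 (List.mem_map.2 ⟨y, hy, e⟩)
      simp only [List.forall_mem_cons, h1]
      by_cases h2 : w x.2.2 = x.1
      · by_cases h3 : ∀ y ∈ L, w y.2.2 = y.1
        · rw [if_pos h2, if_pos h3, if_pos ⟨h2, h3⟩]
          show _ = _ * f (upd L _)
          ring
        · rw [if_pos h2, if_neg h3, if_neg (fun h => h3 h.2), mul_zero]
      · rw [if_neg h2, if_neg (fun h => h2 h.1)]

theorem span_PL : Submodule.span ℚ (Set.range (PL (k := k) (l := l) (m := m))) = ⊤ := by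
  classical
  rw [eq_top_iff]
  intro T _
  let LL : (Fin m → Lt k l) → (Fin m → Lt k l) → List (Lt k l × Lt k l × Fin m) :=
    fun u w => (List.finRange m).map (fun i => (u i, w i, i))
  have hnd : ∀ u w, ((LL u w).map (fun x => x.2.2)).Nodup := by
    intro u w
    have : (LL u w).map (fun x => x.2.2) = List.finRange m := by
      simp only [LL, List.map_map]
      exact List.map_id _
    rw [this]
    exact List.nodup_finRange m
  have hupd : ∀ u w, upd (LL u w) u = w := by
    intro u w
    funext i
    exact upd_mem (LL u w) u (hnd u w) (u i, w i, i)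
      (List.mem_map.2 ⟨i, List.mem_finRange i, rfl⟩)
  have hiff : ∀ u w w', (∀ x ∈ LL u w, w' x.2.2 = x.1) ↔ w' = u := by
    intro u w w'
    constructor
    · intro h
      funext i
      exact h (u i, w i, i) (List.mem_map.2 ⟨i, List.mem_finRange i, rfl⟩)
    · rintro rfl x hx
      obtain ⟨i, _, rfl⟩ := List.mem_map.1 hx
      rfl
  have h1 : ∀ u w, ∃ c : ℚ, c * c = 1 ∧ ∀ f w', PL (LL u w) f w' = if w' = u then c * f w
      else 0 := by
    intro u w
    obtain ⟨c, hc, hf⟩ := PL_eval (LL u w) (hnd u w) u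
    refine ⟨c, hc, fun f w' => ?_⟩
    by_cases h : w' = u
    · subst h
      rw [hf, if_pos rfl, if_pos ((hiff _ _ _).2 rfl), hupd]
    · obtain ⟨c', _, hf'⟩ := PL_eval (LL u w) (hnd u w) w'
      rw [hf', if_neg h, if_neg (fun h' => h ((hiff _ _ _).1 h'))]
  choose c hc hf using h1
  have h2 : T = ∑ u, ∑ w, (T (Pi.single w 1) u * c u w) • PL (LL u w) := by
    apply LinearMap.ext; intro f; funext w'
    rw [LinearMap.sum_apply, Finset.sum_apply]
    simp only [LinearMap.sum_apply, Finset.sum_apply, LinearMap.smul_apply, Pi.smul_apply,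
      smul_eq_mul, hf]
    rw [Finset.sum_eq_single w']
    · simp only [if_true]
      have h3 : f = ∑ w, f w • (Pi.single w 1 : W k l (Fin m)) := by
        funext w
        rw [Finset.sum_apply, Finset.sum_eq_single w]
        · simp
        · intro b _ hb; simp [Pi.single_apply, hb.symm]
        · intro h; exact absurd (Finset.mem_univ _) h
      conv_lhs => rw [h3]
      rw [map_sum, Finset.sum_apply]
      refine Finset.sum_congr rfl (fun w _ => ?_)
      rw [map_smul, Pi.smul_apply, smul_eq_mul]
      linear_combination (-(T (Pi.single w 1) w' * f w)) * hc w' w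
    · intro u _ hu
      refine Finset.sum_eq_zero (fun w _ => ?_)
      rw [if_neg (fun e => hu e.symm), mul_zero]
    · intro h; exact absurd (Finset.mem_univ _) h
  rw [h2]
  exact Submodule.sum_mem _ (fun u _ => Submodule.sum_mem _ (fun w _ =>
    Submodule.smul_mem _ _ (Submodule.subset_span ⟨_, rfl⟩)))

theorem Avg_mem (T : Module.End ℚ (W k l (Fin m))) : Avg T ∈ UA k l m := by
  have h : (⊤ : Submodule ℚ (Module.End ℚ (W k l (Fin m)))) ≤
      (Subalgebra.toSubmodule (UA k l m)).comap Avg := by
    rw [← span_PL, Submodule.span_le]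
    rintro _ ⟨L, rfl⟩
    exact Avg_PL_mem _ L rfl
  exact h (Submodule.mem_top : T ∈ ⊤)

theorem UA_Ux {ξ : W k l (Fin m)} {T : Module.End ℚ (W k l (Fin m))} (hT : T ∈ UA k l m) :
    ∀ v ∈ Ux ξ, T v ∈ Ux ξ := by
  induction hT using Algebra.adjoin_induction with
  | mem x hx => obtain ⟨a, b, rfl⟩ := hx; exact fun v hv => Ux_stable hv a b
  | algebraMap r => 
    intro v hv
    rw [Algebra.algebraMap_eq_smul_one, LinearMap.smul_apply, Module.End.one_apply]
    exact Submodule.smul_mem _ _ hv
  | add x y _ _ hx hy => intro v hv; exact Submodule.add_mem _ (hx v hv) (hy v hv)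
  | mul x y _ _ hx hy => intro v hv; exact hx _ (hy v hv)

theorem exists_z (ξ : W k l (Fin m)) :
    ∃ z : MonoidAlgebra ℚ (Perm (Fin m)), act k l _ z ξ = ξ ∧ ∀ f, act k l _ z f ∈ Ux ξ := by
  classical
  let A := MonoidAlgebra ℚ (Perm (Fin m))
  let J : Submodule A A :=
    { carrier := {a | act k l _ a ξ = 0}
      add_mem' := by
        intro a b ha hb
        change act k l _ (a + b) ξ = 0
        change act k l _ a ξ = 0 at ha
        change act k l _ b ξ = 0 at hb
        rw [map_add, LinearMap.add_apply, ha, hb, add_zero]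
      zero_mem' := by
        change act k l _ 0 ξ = 0
        rw [map_zero]; rfl
      smul_mem' := by
        intro c a ha
        change act k l _ (c * a) ξ = 0
        change act k l _ a ξ = 0 at ha
        rw [map_mul, Module.End.mul_apply, ha, map_zero] }
  obtain ⟨J', hJ⟩ := MonoidAlgebra.Submodule.exists_isCompl J
  have h1 : (1 : A) ∈ J ⊔ J' := by rw [hJ.sup_eq_top]; exact Submodule.mem_top
  obtain ⟨e, he, z, hz, hez⟩ := Submodule.mem_sup.1 h1
  have he' : act k l _ e ξ = 0 := he
  refine ⟨z, ?_, fun f => ?_⟩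
  · have := congrArg (fun a => act k l _ a ξ) hez
    simp only [map_add, map_one, LinearMap.add_apply, Module.End.one_apply, he', zero_add] at this
    exact this
  · -- a ∈ J → a * z = 0
    have h2 : ∀ a : A, act k l _ a ξ = 0 → a * z = 0 := by
      intro a ha
      have h3 : a * z ∈ J' := J'.smul_mem a hz
      have h4 : a * z ∈ J := by
        have h5 : a * z = a - a * e := by
          have h6 : a * (e + z) = a := by rw [hez, mul_one]
          rw [mul_add] at h6
          exact eq_sub_of_add_eq' h6
        rw [h5]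
        exact J.sub_mem ha (J.smul_mem a he)
      have := hJ.disjoint
      rw [Submodule.disjoint_def] at this
      exact this _ h4 h3
    let α : A →ₗ[ℚ] W k l (Fin m) :=
      { toFun := fun a => act k l _ a ξ
        map_add' := fun a b => by rw [map_add, LinearMap.add_apply]
        map_smul' := fun c a => by rw [map_smul, LinearMap.smul_apply, RingHom.id_apply] }
    let β : A →ₗ[ℚ] W k l (Fin m) :=
      { toFun := fun a => act k l _ (a * z) f
        map_add' := fun a b => by rw [add_mul, map_add, LinearMap.add_apply]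
        map_smul' := fun c a => by
          rw [smul_mul_assoc, map_smul, LinearMap.smul_apply, RingHom.id_apply] }
    have hker : LinearMap.ker α ≤ LinearMap.ker β := by
      intro a ha
      rw [LinearMap.mem_ker] at *
      change act k l _ (a * z) f = 0
      rw [h2 a ha, map_zero]; rfl
    obtain ⟨φ, hφ⟩ : ∃ φ : Module.End ℚ (W k l (Fin m)), φ ∘ₗ α = β := by
      obtain ⟨g, hg⟩ := LinearMap.exists_extend
        (((LinearMap.ker α).liftQ β hker) ∘ₗ α.quotKerEquivRange.symm.toLinearMap)
      refine ⟨g, LinearMap.ext (fun a => ?_)⟩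
      have h3 := LinearMap.congr_fun hg ⟨α a, LinearMap.mem_range_self α a⟩
      simp only [LinearMap.comp_apply, Submodule.subtype_apply] at h3
      rw [LinearMap.comp_apply, h3]
      have h4 : α.quotKerEquivRange.symm ⟨α a, LinearMap.mem_range_self α a⟩
          = (LinearMap.ker α).mkQ a := by
        rw [LinearEquiv.symm_apply_eq]
        rfl
      erw [h4]
      rw [Submodule.mkQ_apply, Submodule.liftQ_apply]
    have h3 : Avg φ ξ = (Fintype.card (Perm (Fin m)) : ℚ) • act k l _ z f := by
      rw [Avg_apply, LinearMap.sum_apply]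
      have h4 : ∀ σ ∈ (univ : Finset (Perm (Fin m))),
          (rho k l _ σ * φ * rho k l _ σ⁻¹) ξ = act k l _ z f := by
        intro σ _
        rw [Module.End.mul_apply, Module.End.mul_apply]
        have h5 : rho k l _ σ⁻¹ ξ = α (MonoidAlgebra.of ℚ _ σ⁻¹) := by
          change _ = act k l _ (MonoidAlgebra.of ℚ _ σ⁻¹) ξ
          rw [act_of]
        rw [h5]
        have h6 : φ (α (MonoidAlgebra.of ℚ _ σ⁻¹)) = β (MonoidAlgebra.of ℚ _ σ⁻¹) :=
          LinearMap.congr_fun hφ _
        rw [h6]
        change rho k l _ σ (act k l _ (MonoidAlgebra.of ℚ _ σ⁻¹ * z) f) = _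
        rw [map_mul, act_of, Module.End.mul_apply, ← Module.End.mul_apply, rho_mul_inv,
          Module.End.one_apply]
      rw [Finset.sum_congr rfl h4, Finset.sum_const, Finset.card_univ, Nat.cast_smul_eq_nsmul]
    have h4 : act k l _ z f = (Fintype.card (Perm (Fin m)) : ℚ)⁻¹ • Avg φ ξ := by
      rw [h3, smul_smul, inv_mul_cancel₀ (by exact_mod_cast Fintype.card_ne_zero), one_smul]
    rw [h4]
    exact Submodule.smul_mem _ _ (UA_Ux (Avg_mem φ) ξ (mem_Ux ξ))

end Pool.PI34.Super

end

/-! ### part Super7 -/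
section

/-!
PI34, E-block, file 7: placements, the principle, the colour idempotent.
-/

set_option linter.unusedSectionVars false
set_option linter.unusedSimpArgs false

namespace Pool.PI34.Super

open Equiv Finset

variable {k l : ℕ}

section place

variable {κ ι : Type} [Fintype κ] [LinearOrder κ] [Fintype ι] [LinearOrder ι]

/-- Extension of a permutation by the identity. -/
noncomputable def ext (φ : κ ↪o ι) : Perm κ →* Perm ι := Perm.viaEmbeddingHom φ.toEmbedding

theorem ext_apply (φ : κ ↪o ι) (σ : Perm κ) (a : κ) : ext φ σ (φ a) = φ (σ a) :=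
  Perm.viaEmbedding_apply σ φ.toEmbedding a

theorem ext_apply' (φ : κ ↪o ι) (σ : Perm κ) (x : ι) (hx : x ∉ Set.range φ) :
    ext φ σ x = x :=
  Perm.viaEmbedding_apply_of_notMem σ φ.toEmbedding x hx

/-- The range is an interval. -/
def Conv (φ : κ ↪o ι) : Prop := ∀ x, x ∉ Set.range φ → (∀ a, x < φ a) ∨ (∀ a, φ a < x)

theorem eps_ext {φ : κ ↪o ι} (hφ : Conv φ) (σ : Perm κ) (p : ι → Bool) :
    eps (ext φ σ) p = eps σ (p ∘ φ) := by
  classical
  unfold eps
  let e : κ × κ ↪ ι × ι := φ.toEmbedding.prodMap φ.toEmbedding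
  have h1 : ∏ q ∈ prs κ, (if (p ∘ φ) q.1 && (p ∘ φ) q.2 then H σ q.1 q.2 else 1)
      = ∏ q ∈ (prs κ).map e, (if p q.1 && p q.2 then H (ext φ σ) q.1 q.2 else 1) := by
    rw [Finset.prod_map]
    refine Finset.prod_congr rfl (fun q _ => ?_)
    have h2 : H (ext φ σ) (φ q.1) (φ q.2) = H σ q.1 q.2 := by
      unfold H
      simp only [ext_apply, φ.lt_iff_lt]
    change _ = if p (φ q.1) && p (φ q.2) then H (ext φ σ) (φ q.1) (φ q.2) else 1
    rw [h2]
    rfl
  rw [h1]
  symm
  refine Finset.prod_subset ?_ ?_
  · intro q hq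
    rw [Finset.mem_map] at hq
    obtain ⟨q', hq', rfl⟩ := hq
    rw [mem_prs] at *
    exact φ.lt_iff_lt.2 hq'
  · intro q hq hq'
    rw [mem_prs] at hq
    have hH : H (ext φ σ) q.1 q.2 = 1 := by
      by_cases hx : q.1 ∈ Set.range φ
      · obtain ⟨a, ha⟩ := hx
        have hy : q.2 ∉ Set.range φ := by
          rintro ⟨b, hb⟩
          apply hq'
          rw [Finset.mem_map]
          refine ⟨(a, b), ?_, Prod.ext ha hb⟩
          rw [mem_prs]
          rw [← ha, ← hb, φ.lt_iff_lt] at hq
          exact hq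
        unfold H
        rw [ext_apply' φ σ _ hy, ← ha, ext_apply]
        rcases hφ _ hy with h | h
        · rw [← ha] at hq
          exact absurd hq (not_lt.2 (h a).le)
        · simp [h a, h (σ a)]
      · unfold H
        rw [ext_apply' φ σ _ hx]
        by_cases hy : q.2 ∈ Set.range φ
        · obtain ⟨b, hb⟩ := hy
          rw [← hb, ext_apply]
          rcases hφ _ hx with h | h
          · simp [h b, h (σ b)]
          · rw [← hb] at hq
            exact absurd hq (not_lt.2 (h b).le)
        · rw [ext_apply' φ σ _ hy]; simp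
    rw [hH, ite_self]

/-- The slice of `g` at `w`. -/
noncomputable def sl (φ : κ ↪o ι) (w : ι → Lt k l) : W k l ι →ₗ[ℚ] W k l κ where
  toFun g := fun u => g (Function.extend φ u w)
  map_add' _ _ := rfl
  map_smul' _ _ := rfl

theorem sl_apply (φ : κ ↪o ι) (w : ι → Lt k l) (g : W k l ι) (u : κ → Lt k l) :
    sl φ w g u = g (Function.extend φ u w) := rfl

theorem rho_ext {φ : κ ↪o ι} (hφ : Conv φ) (σ : Perm κ) (g : W k l ι) (w : ι → Lt k l) :
    rho k l ι (ext φ σ) g w = rho k l κ σ (sl φ w g) (w ∘ φ) := by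
  rw [rho_apply, rho_apply, eps_ext hφ, sl_apply]
  have h1 : w ∘ ext φ σ = Function.extend φ ((w ∘ φ) ∘ σ) w := by
    funext x
    by_cases hx : x ∈ Set.range φ
    · obtain ⟨a, rfl⟩ := hx
      rw [φ.injective.extend_apply, Function.comp_apply, ext_apply]
      rfl
    · rw [Function.extend_apply' _ _ _ hx, Function.comp_apply, ext_apply' φ σ x hx]
  have h2 : pv (w ∘ ext φ σ) ∘ φ = pv ((w ∘ φ) ∘ σ) := by
    funext a
    simp only [pv, Function.comp_apply, ext_apply]
  rw [h2, h1]

/-- Placement of an element of the group algebra. -/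
noncomputable def pl (φ : κ ↪o ι) :
    MonoidAlgebra ℚ (Perm κ) →ₐ[ℚ] MonoidAlgebra ℚ (Perm ι) :=
  MonoidAlgebra.mapDomainAlgHom ℚ ℚ (ext φ)

theorem pl_of (φ : κ ↪o ι) (σ : Perm κ) :
    pl φ (MonoidAlgebra.of ℚ _ σ) = MonoidAlgebra.of ℚ _ (ext φ σ) := by
  simp [pl]

theorem act_pl {φ : κ ↪o ι} (hφ : Conv φ) (y : MonoidAlgebra ℚ (Perm κ)) (g : W k l ι)
    (w : ι → Lt k l) : act k l ι (pl φ y) g w = act k l κ y (sl φ w g) (w ∘ φ) := by
  induction y using MonoidAlgebra.induction_on with
  | of σ => rw [pl_of, act_of, act_of]; exact rho_ext hφ σ g w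
  | add x y hx hy =>
    rw [map_add, map_add, map_add, LinearMap.add_apply, LinearMap.add_apply, Pi.add_apply,
      Pi.add_apply, hx, hy]
  | smul r x hx =>
    rw [map_smul, map_smul, map_smul, LinearMap.smul_apply, LinearMap.smul_apply, Pi.smul_apply,
      Pi.smul_apply, hx]

end place

section tensor

variable {n m : ℕ}

theorem cast_lt_nat (i : Fin n) (j : Fin m) : Fin.castAdd m i < Fin.natAdd n j := by
  rw [Fin.lt_def]
  simp only [Fin.val_natAdd, Fin.val_castAdd]
  have := i.2; omega

/-- The strands. -/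
def phL (n m : ℕ) : Fin n ↪o Fin (n + m) := Fin.castAddOrderEmb m

/-- The catalyst. -/
def phR (n m : ℕ) : Fin m ↪o Fin (n + m) := Fin.natAddOrderEmb n

/-- Strand `i` and the catalyst. -/
def phi (n m : ℕ) (i : Fin n) : Fin (m + 1) ↪o Fin (n + m) :=
  OrderEmbedding.ofStrictMono (Fin.cons (Fin.castAdd m i) (Fin.natAdd n)) (by
    intro a b hab
    rcases Fin.eq_zero_or_eq_succ a with rfl | ⟨a, rfl⟩ <;>
      rcases Fin.eq_zero_or_eq_succ b with rfl | ⟨b, rfl⟩
    · exact absurd hab (lt_irrefl _)
    · rw [Fin.cons_zero, Fin.cons_succ]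
      exact cast_lt_nat _ _
    · exact absurd hab (Fin.not_lt_zero _)
    · rw [Fin.cons_succ, Fin.cons_succ]
      have : a < b := Fin.succ_lt_succ_iff.1 hab
      rw [Fin.lt_def] at *
      simp only [Fin.val_natAdd]
      omega)

theorem phi_zero (i : Fin n) : phi n m i 0 = Fin.castAdd m i := rfl
theorem phi_succ (i : Fin n) (s : Fin m) : phi n m i s.succ = Fin.natAdd n s := rfl

theorem conv_phL : Conv (phL n m) := by
  intro x hx
  right
  intro a
  rw [Fin.lt_def]
  by_contra h
  apply hx
  have hx1 : x.val < n := by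
    have : (phL n m a).val = a.val := rfl
    have := a.2; omega
  exact ⟨⟨x.val, hx1⟩, Fin.ext rfl⟩

theorem conv_phR : Conv (phR n m) := by
  intro x hx
  left
  intro a
  rw [Fin.lt_def]
  by_contra h
  apply hx
  have h0 : (phR n m a).val = n + a.val := rfl
  have hx1 : x.val - n < m := by have := x.2; omega
  refine ⟨⟨x.val - n, hx1⟩, Fin.ext ?_⟩
  change n + (x.val - n) = x.val
  omega

theorem conv_phi (i : Fin n) (hi : i.val + 1 = n) : Conv (phi n m i) := by
  intro x hx
  left
  intro a
  have hx2 : x.val < i.val := by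
    by_contra h
    apply hx
    by_cases h1 : x.val = i.val
    · exact ⟨0, Fin.ext (by rw [phi_zero]; simp [h1])⟩
    · have hx1 : x.val - n < m := by have := x.2; omega
      refine ⟨(⟨x.val - n, hx1⟩ : Fin m).succ, Fin.ext ?_⟩
      rw [phi_succ]
      simp only [Fin.val_natAdd]
      omega
  rw [Fin.lt_def]
  rcases Fin.eq_zero_or_eq_succ a with rfl | ⟨a, rfl⟩
  · rw [phi_zero]; simpa using hx2
  · rw [phi_succ]; simp only [Fin.val_natAdd]; omega

/-- `e_v ⊗ f`. -/
def tn (v : Fin n → Lt k l) : W k l (Fin m) →ₗ[ℚ] W k l (Fin (n + m)) where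
  toFun f := fun w => if w ∘ phL n m = v then f (w ∘ phR n m) else 0
  map_add' f g := by funext w; simp only [Pi.add_apply]; split_ifs <;> simp
  map_smul' c f := by funext w; simp only [Pi.smul_apply, RingHom.id_apply]; split_ifs <;> simp

theorem tn_apply (v : Fin n → Lt k l) (f : W k l (Fin m)) (w : Fin (n + m) → Lt k l) :
    tn v f w = if w ∘ phL n m = v then f (w ∘ phR n m) else 0 := rfl

theorem phR_notMem (i : Fin n) : phL n m i ∉ Set.range (phR n m) := by
  rintro ⟨s, hs⟩
  have h1 := congrArg Fin.val hs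
  have h2 : (phR n m s).val = n + s.val := rfl
  have h3 : (phL n m i).val = i.val := rfl
  have := i.2; omega

theorem phL_notMem (s : Fin m) : phR n m s ∉ Set.range (phL n m) := by
  rintro ⟨i, hs⟩
  have h1 := congrArg Fin.val hs
  have h2 : (phR n m s).val = n + s.val := rfl
  have h3 : (phL n m i).val = i.val := rfl
  have := i.2; omega

theorem ext_phR_phL (u : Fin m → Lt k l) (w : Fin (n + m) → Lt k l) :
    Function.extend (phR n m) u w ∘ phL n m = w ∘ phL n m := by
  funext i
  rw [Function.comp_apply, Function.extend_apply' _ _ _ (phR_notMem i)]; rfl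

theorem ext_phR_phR (u : Fin m → Lt k l) (w : Fin (n + m) → Lt k l) :
    Function.extend (phR n m) u w ∘ phR n m = u := by
  funext i
  rw [Function.comp_apply, (phR n m).injective.extend_apply]

theorem ext_phL_phR (u : Fin n → Lt k l) (w : Fin (n + m) → Lt k l) :
    Function.extend (phL n m) u w ∘ phR n m = w ∘ phR n m := by
  funext i
  rw [Function.comp_apply, Function.extend_apply' _ _ _ (phL_notMem i)]; rfl

theorem ext_phL_phL (u : Fin n → Lt k l) (w : Fin (n + m) → Lt k l) :
    Function.extend (phL n m) u w ∘ phL n m = u := by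
  funext i
  rw [Function.comp_apply, (phL n m).injective.extend_apply]

theorem act_pl_tn (y : MonoidAlgebra ℚ (Perm (Fin m))) (v : Fin n → Lt k l)
    (f : W k l (Fin m)) : act k l _ (pl (phR n m) y) (tn v f) = tn v (act k l _ y f) := by
  funext w
  rw [act_pl conv_phR, tn_apply]
  have h : sl (phR n m) w (tn v f) = if w ∘ phL n m = v then f else 0 := by
    funext u
    rw [sl_apply, tn_apply, ext_phR_phL, ext_phR_phR]
    split_ifs <;> rfl
  rw [h]
  split_ifs
  · rfl
  · rw [map_zero]; rfl

theorem rho_tn (σ : Perm (Fin n)) (v : Fin n → Lt k l) (f : W k l (Fin m)) :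
    rho k l _ (ext (phL n m) σ) (tn v f) = eps σ (pv v) • tn (v ∘ ⇑σ⁻¹) f := by
  funext w
  rw [rho_ext conv_phL, rho_apply, sl_apply, tn_apply, ext_phL_phL, ext_phL_phR,
    Pi.smul_apply, tn_apply, smul_eq_mul]
  by_cases h : (w ∘ phL n m) ∘ σ = v
  · rw [if_pos h, h, if_pos]
    rw [← h]; funext i; simp
  · rw [if_neg h, if_neg, mul_zero, mul_zero]
    intro h'
    apply h
    rw [h']; funext i; simp

/-- Decomposition into elementary tensors. -/
theorem sum_tn (g : W k l (Fin (n + m))) :
    g = ∑ v : Fin n → Lt k l, tn v (fun u => g (Fin.append v u)) := by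
  classical
  funext w
  rw [Finset.sum_apply, Finset.sum_eq_single (w ∘ phL n m)]
  · rw [tn_apply, if_pos rfl]
    congr 1
    funext x
    refine Fin.addCases (fun i => ?_) (fun i => ?_) x
    · rw [Fin.append_left]; rfl
    · rw [Fin.append_right]; rfl
  · intro v _ hv
    rw [tn_apply, if_neg (fun e => hv e.symm)]
  · intro h; exact absurd (Finset.mem_univ _) h

theorem eop_tnL (a b : Lt k l) (i : Fin n) (v : Fin n → Lt k l) (f : W k l (Fin m)) :
    ∃ (c : ℚ) (v' : Fin n → Lt k l), eop a b (phL n m i) (tn v f) = c • tn v' f := by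
  classical
  by_cases hv : v i = b
  · refine ⟨bsg a b v i, Function.update v i a, ?_⟩
    funext w
    rw [eop_apply, tn_apply, Pi.smul_apply, smul_eq_mul, tn_apply]
    have h1 : Function.update w (phL n m i) b ∘ phL n m = Function.update (w ∘ phL n m) i b := by
      funext j
      by_cases hj : j = i
      · subst hj; simp
      · rw [Function.comp_apply, Function.update_of_ne hj,
          Function.update_of_ne (fun e => hj ((phL n m).injective e))]; rfl
    have h2 : Function.update w (phL n m i) b ∘ phR n m = w ∘ phR n m := by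
      funext j
      rw [Function.comp_apply, Function.update_of_ne]
      · rfl
      · intro e; exact phR_notMem i ⟨j, e⟩
    rw [h1, h2]
    have h3 : (w (phL n m i) = a ∧ Function.update (w ∘ phL n m) i b = v) ↔
        w ∘ phL n m = Function.update v i a := by
      constructor
      · rintro ⟨h4, h5⟩
        rw [← h5, Function.update_idem, ← h4]
        exact (Function.update_eq_self i (w ∘ phL n m)).symm
      · intro h4
        refine ⟨?_, ?_⟩
        · have := congrFun h4 i
          rw [Function.update_self] at this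
          exact this
        · rw [h4, Function.update_idem, ← hv, Function.update_eq_self]
    have h6 : w ∘ phL n m = Function.update v i a → bsg a b w (phL n m i) = bsg a b v i := by
      intro h4
      rw [← bsg_update_same a b a v i, ← h4]
      unfold bsg
      rw [Finset.prod_filter, Finset.prod_filter, Fin.prod_univ_add]
      have h7 : ∏ j : Fin m, (if Fin.natAdd n j < phL n m i then eta a b (w (Fin.natAdd n j))
          else 1) = 1 := by
        refine Finset.prod_eq_one (fun j _ => ?_)
        rw [if_neg]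
        rw [Fin.lt_def]
        have h2 : (phL n m i).val = i.val := rfl
        simp only [Fin.val_natAdd]
        have := i.2; omega
      rw [h7, mul_one]
      refine Finset.prod_congr rfl (fun j _ => ?_)
      rfl
    by_cases h4 : w ∘ phL n m = Function.update v i a
    · have h5 := h3.2 h4
      rw [if_pos h5.1, if_pos h5.2, if_pos h4, h6 h4]
    · rw [if_neg h4, mul_zero]
      by_cases h5 : w (phL n m i) = a
      · rw [if_pos h5, if_neg (fun h6 => h4 (h3.1 ⟨h5, h6⟩)), mul_zero]
      · rw [if_neg h5]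
  · refine ⟨0, v, ?_⟩
    funext w
    rw [eop_apply, tn_apply, zero_smul]
    split_ifs with h1 h2
    · exfalso
      apply hv
      rw [← h2, Function.comp_apply, Function.update_self]
    · rw [mul_zero]; rfl
    · rfl

theorem eop_tnR (a b : Lt k l) (j : Fin m) (v : Fin n → Lt k l) (f : W k l (Fin m)) :
    eop a b (phR n m j) (tn v f) = (∏ i, eta a b (v i)) • tn v (eop a b j f) := by
  classical
  funext w
  rw [eop_apply, tn_apply, Pi.smul_apply, smul_eq_mul, tn_apply, eop_apply]
  have h1 : Function.update w (phR n m j) b ∘ phR n m = Function.update (w ∘ phR n m) j b := by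
    funext i
    by_cases hj : i = j
    · subst hj; simp
    · rw [Function.comp_apply, Function.update_of_ne hj,
        Function.update_of_ne (fun e => hj ((phR n m).injective e))]; rfl
  have h2 : Function.update w (phR n m j) b ∘ phL n m = w ∘ phL n m := by
    funext i
    rw [Function.comp_apply, Function.update_of_ne]
    · rfl
    · intro e; exact phL_notMem j ⟨i, e⟩
  rw [h1, h2]
  by_cases hw : w ∘ phL n m = v
  · rw [if_pos hw, if_pos hw]
    have h3 : bsg a b w (phR n m j) = (∏ i, eta a b (v i)) * bsg a b (w ∘ phR n m) j := by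
      unfold bsg
      rw [Finset.prod_filter, Finset.prod_filter, Fin.prod_univ_add]
      congr 1
      · refine Finset.prod_congr rfl (fun i _ => ?_)
        rw [if_pos, ← hw]
        · rfl
        · exact cast_lt_nat _ _
      · refine Finset.prod_congr rfl (fun i _ => ?_)
        have : Fin.natAdd n i < phR n m j ↔ i < j := (phR n m).lt_iff_lt
        by_cases hij : i < j
        · rw [if_pos hij, if_pos (this.2 hij)]; rfl
        · rw [if_neg hij, if_neg (fun h => hij (this.1 h))]
    rw [h3, Function.comp_apply]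
    split_ifs <;> ring
  · rw [if_neg hw, if_neg hw]
    simp

theorem EE_tn (a b : Lt k l) (v : Fin n → Lt k l) (f : W k l (Fin m)) :
    EE a b (tn v f) = ∑ i, eop a b (phL n m i) (tn v f)
      + (∏ i, eta a b (v i)) • tn v (EE a b f) := by
  unfold EE EB
  rw [LinearMap.sum_apply, LinearMap.sum_apply, map_sum, Finset.smul_sum, Fin.sum_univ_add]
  congr 1
  exact Finset.sum_congr rfl (fun j _ => eop_tnR a b j v f)

/-- The principle, vector form. -/
theorem principle_vec {ξ : W k l (Fin m)} (y : MonoidAlgebra ℚ (Perm (Fin (n + m))))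
    (hy : ∀ v : Fin n → Lt k l, act k l _ y (tn v ξ) = 0) :
    ∀ f ∈ Ux ξ, ∀ v : Fin n → Lt k l, act k l _ y (tn v f) = 0 := by
  let N : Submodule ℚ (W k l (Fin m)) :=
    { carrier := {f | ∀ v : Fin n → Lt k l, act k l _ y (tn v f) = 0}
      add_mem' := by
        intro f g hf hg v
        rw [map_add, map_add, hf v, hg v, add_zero]
      zero_mem' := by
        intro v; rw [map_zero, map_zero]
      smul_mem' := by
        intro c f hf v
        rw [map_smul, map_smul, hf v, smul_zero] }
  have hN : Ux ξ ≤ N := by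
    refine gen_le ?_ ?_
    · rw [Submodule.span_singleton_le_iff_mem]; exact hy
    · rintro T ⟨a, b, rfl⟩ f hf v
      have h1 := congrArg (act k l _ y) (EE_tn a b v f)
      have h2 := LinearMap.congr_fun (act_EE y a b) (tn v f)
      simp only [Module.End.mul_apply] at h2
      rw [h2, hf v, map_zero, map_add, map_sum, map_smul] at h1
      have h3 : ∑ i, act k l _ y (eop a b (phL n m i) (tn v f)) = 0 := by
        refine Finset.sum_eq_zero (fun i _ => ?_)
        obtain ⟨c, v', hc⟩ := eop_tnL (m := m) a b i v f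
        rw [hc, map_smul, hf v', smul_zero]
      rw [h3, zero_add] at h1
      have h4 : (∏ i, eta a b (v i)) * (∏ i, eta a b (v i)) = 1 := by
        rw [← Finset.prod_mul_distrib]
        exact Finset.prod_eq_one (fun i _ => eta_sq _ _ _)
      have h5 := congrArg (fun x => (∏ i, eta a b (v i)) • x) h1
      simp only [smul_smul, h4, one_smul, smul_zero] at h5
      exact h5.symm
  intro f hf
  exact hN hf

/-- The principle. -/
theorem principle {ξ : W k l (Fin m)} {z : MonoidAlgebra ℚ (Perm (Fin m))}
    (hz : ∀ f, act k l _ z f ∈ Ux ξ) (y : MonoidAlgebra ℚ (Perm (Fin (n + m))))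
    (hy : ∀ v : Fin n → Lt k l, act k l _ y (tn v ξ) = 0) :
    act k l _ (y * pl (phR n m) z) = 0 := by
  apply LinearMap.ext; intro g
  rw [map_mul, Module.End.mul_apply, sum_tn g, map_sum, map_sum, LinearMap.zero_apply]
  refine Finset.sum_eq_zero (fun v _ => ?_)
  rw [act_pl_tn]
  exact principle_vec y hy _ (hz _) v

theorem ext_conj {κ ι : Type} [Fintype κ] [LinearOrder κ] [Fintype ι] [LinearOrder ι]
    (φ φ' : κ ↪o ι) (T : Perm ι) (h : ∀ a, T (φ a) = φ' a) (σ : Perm κ) :
    ext φ' σ = T * ext φ σ * T⁻¹ := by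
  apply Equiv.ext
  intro x
  by_cases hx : x ∈ Set.range φ'
  · obtain ⟨a, rfl⟩ := hx
    have h1 : T⁻¹ (φ' a) = φ a := by rw [← h a]; simp
    rw [Perm.mul_apply, Perm.mul_apply, h1, ext_apply, ext_apply, h]
  · have h1 : T⁻¹ x ∉ Set.range φ := by
      rintro ⟨a, ha⟩
      apply hx
      refine ⟨a, ?_⟩
      rw [← h a, ha]; simp
    rw [Perm.mul_apply, Perm.mul_apply, ext_apply' φ' σ x hx, ext_apply' φ σ _ h1]
    simp

theorem pl_conj {κ ι : Type} [Fintype κ] [LinearOrder κ] [Fintype ι] [LinearOrder ι]
    (φ φ' : κ ↪o ι) (T : Perm ι) (h : ∀ a, T (φ a) = φ' a) (y : MonoidAlgebra ℚ (Perm κ)) :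
    pl φ' y = MonoidAlgebra.of ℚ _ T * pl φ y * MonoidAlgebra.of ℚ _ T⁻¹ := by
  induction y using MonoidAlgebra.induction_on with
  | of σ => rw [pl_of, pl_of, ext_conj φ φ' T h σ, map_mul, map_mul]
  | add x y hx hy => rw [map_add, map_add, hx, hy, mul_add, add_mul]
  | smul r x hx => rw [map_smul, map_smul, hx, mul_smul_comm, smul_mul_assoc]

/-- Evaluation of the placed colour element at the last strand. -/
theorem act_phi_last {ξ : W k l (Fin m)} {E : MonoidAlgebra ℚ (Perm (Fin (m + 1)))}
    {e : Lt k l → ℚ} (hE : ∀ c, act k l _ E (ins c ξ) = e c • ins c ξ) (i : Fin n)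
    (hi : i.val + 1 = n) (v : Fin n → Lt k l) :
    act k l _ (pl (phi n m i) E) (tn v ξ) = e (v i) • tn v ξ := by
  funext w
  rw [act_pl (conv_phi i hi)]
  have hne : ∀ j : Fin n, j ≠ i → phL n m j ∉ Set.range (phi n m i) := by
    rintro j hj ⟨x, hx⟩
    rcases Fin.eq_zero_or_eq_succ x with rfl | ⟨x, rfl⟩
    · rw [phi_zero] at hx
      exact hj ((phL n m).injective hx).symm
    · rw [phi_succ] at hx
      exact phR_notMem j ⟨x, hx⟩
  have h : sl (phi n m i) w (tn v ξ)
      = if (∀ j, j ≠ i → w (phL n m j) = v j) then ins (v i) ξ else 0 := by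
    funext u
    rw [sl_apply, tn_apply]
    have h1 : Function.extend (phi n m i) u w ∘ phR n m = Fin.tail u := by
      funext s
      have : phR n m s = phi n m i s.succ := rfl
      rw [Function.comp_apply, this, (phi n m i).injective.extend_apply]; rfl
    have h2 : Function.extend (phi n m i) u w ∘ phL n m = v ↔
        ((∀ j, j ≠ i → w (phL n m j) = v j) ∧ u 0 = v i) := by
      constructor
      · intro h3
        refine ⟨fun j hj => ?_, ?_⟩
        · have := congrFun h3 j
          rw [Function.comp_apply, Function.extend_apply' _ _ _ (hne j hj)] at this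
          exact this
        · have := congrFun h3 i
          have h4 : phL n m i = phi n m i 0 := rfl
          rw [Function.comp_apply, h4, (phi n m i).injective.extend_apply] at this
          exact this
      · rintro ⟨h3, h4⟩
        funext j
        by_cases hj : j = i
        · subst hj
          have h5 : phL n m j = phi n m j 0 := rfl
          rw [Function.comp_apply, h5, (phi n m j).injective.extend_apply, h4]
        · rw [Function.comp_apply, Function.extend_apply' _ _ _ (hne j hj), h3 j hj]
    rw [h1]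
    by_cases h3 : (∀ j, j ≠ i → w (phL n m j) = v j)
    · rw [if_pos h3]
      unfold ins
      by_cases h4 : u 0 = v i
      · rw [if_pos (h2.2 ⟨h3, h4⟩), if_pos h4]
      · rw [if_neg (fun h5 => h4 (h2.1 h5).2), if_neg h4]
    · rw [if_neg h3, if_neg (fun h5 => h3 (h2.1 h5).1)]; rfl
  rw [h, Pi.smul_apply, tn_apply]
  have h6 : (w ∘ phL n m = v) ↔
      ((∀ j, j ≠ i → w (phL n m j) = v j) ∧ w (phL n m i) = v i) := by
    constructor
    · intro h; rw [← h]; exact ⟨fun _ _ => rfl, rfl⟩
    · rintro ⟨h1, h2⟩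
      funext j
      by_cases hj : j = i
      · subst hj; exact h2
      · exact h1 j hj
  by_cases h3 : (∀ j, j ≠ i → w (phL n m j) = v j)
  · rw [if_pos h3, hE, Pi.smul_apply]
    unfold ins
    have h7 : (w ∘ phi n m i) 0 = w (phL n m i) := rfl
    have h8 : Fin.tail (w ∘ phi n m i) = w ∘ phR n m := rfl
    rw [h7, h8]
    by_cases h4 : w (phL n m i) = v i
    · rw [if_pos h4, if_pos (h6.2 ⟨h3, h4⟩)]
    · rw [if_neg h4, if_neg (fun h5 => h4 (h6.1 h5).2)]
  · rw [if_neg h3, if_neg (fun h5 => h3 (h6.1 h5).1), map_zero, smul_zero]; rfl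

/-- Evaluation of the placed colour element at an arbitrary strand. -/
theorem act_phi {ξ : W k l (Fin m)} {E : MonoidAlgebra ℚ (Perm (Fin (m + 1)))}
    {e : Lt k l → ℚ} (hE : ∀ c, act k l _ E (ins c ξ) = e c • ins c ξ) (i : Fin n)
    (v : Fin n → Lt k l) :
    act k l _ (pl (phi n m i) E) (tn v ξ) = e (v i) • tn v ξ := by
  have hn : 0 < n := by have := i.2; omega
  let i0 : Fin n := ⟨n - 1, by omega⟩
  have hi0 : i0.val + 1 = n := by change n - 1 + 1 = n; omega
  let τ : Perm (Fin n) := swap i i0
  let T : Perm (Fin (n + m)) := ext (phL n m) τ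
  have hT : ∀ a, T (phi n m i0 a) = phi n m i a := by
    intro a
    rcases Fin.eq_zero_or_eq_succ a with rfl | ⟨a, rfl⟩
    · have h1 : phi n m i0 0 = phL n m i0 := rfl
      have h2 : phi n m i 0 = phL n m i := rfl
      rw [h1, h2]
      change ext (phL n m) τ (phL n m i0) = _
      rw [ext_apply]
      congr 1
      exact swap_apply_right i i0
    · rw [phi_succ, phi_succ]
      exact ext_apply' _ _ _ (phL_notMem a)
  rw [pl_conj _ _ T hT, map_mul, map_mul, act_of, act_of, Module.End.mul_apply,
    Module.End.mul_apply]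
  have hTi : T⁻¹ = ext (phL n m) τ⁻¹ := by change (ext (phL n m) τ)⁻¹ = _; rw [map_inv]
  have h1 : rho k l _ T⁻¹ (tn v ξ) = eps τ⁻¹ (pv v) • tn (v ∘ τ) ξ := by
    rw [hTi, rho_tn, inv_inv]
  rw [h1, map_smul, act_phi_last hE i0 hi0, smul_comm, map_smul, ← h1]
  have h2 : (v ∘ τ) i0 = v i := by
    change v (swap i i0 i0) = v i
    rw [swap_apply_right]
  rw [h2]
  congr 1
  have h3 : rho k l _ T * rho k l _ T⁻¹ = (1 : Module.End ℚ (W k l (Fin (n + m)))) := by
    rw [← map_mul, mul_inv_cancel, map_one]
  exact LinearMap.congr_fun h3 _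

end tensor

end Pool.PI34.Super

end

/-! ### part Super8 -/
section

/-!
PI34, E-block, file 8: the colour element, main theorem and the relations.
-/

set_option linter.unusedSectionVars false
set_option linter.unusedSimpArgs false

namespace Pool.PI34.Super

open Equiv Finset

theorem exists_poly_inv {V : Type*} [AddCommGroup V] [Module ℚ V] [FiniteDimensional ℚ V]
    (T : Module.End ℚ V) (N : Submodule ℚ V) (hN : ∀ v ∈ N, T v ∈ N)
    (hinj : ∀ v ∈ N, T v = 0 → v = 0) :
    ∃ q : Polynomial ℚ, ∀ v ∈ N, Polynomial.aeval T q (T v) = v := by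
  let T' : Module.End ℚ N := T.restrict hN
  have hres : ∀ p : Polynomial ℚ, ∀ v : N, ((Polynomial.aeval T' p v : N) : V)
      = Polynomial.aeval T p (v : V) := by
    intro p
    induction p using Polynomial.induction_on' with
    | add p q hp hq =>
      intro v
      rw [map_add, map_add, LinearMap.add_apply, LinearMap.add_apply, Submodule.coe_add, hp, hq]
    | monomial n a =>
      intro v
      rw [Polynomial.aeval_monomial, Polynomial.aeval_monomial]
      have h1 : ∀ n : ℕ, ∀ v : N, (((T' ^ n) v : N) : V) = (T ^ n) (v : V) := by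
        intro n
        induction n with
        | zero => intro v; rfl
        | succ n ih =>
          intro v
          rw [pow_succ, pow_succ, Module.End.mul_apply, Module.End.mul_apply, ih]
          rfl
      rw [Module.End.mul_apply, Module.End.mul_apply, Module.algebraMap_end_apply,
        Module.algebraMap_end_apply, Submodule.coe_smul, h1]
  have hker : LinearMap.ker T' = ⊥ := by
    rw [LinearMap.ker_eq_bot']
    intro v hv
    apply Subtype.ext
    exact hinj v v.2 (congrArg Subtype.val hv)
  have hdet : LinearMap.det T' ≠ 0 := by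
    intro h
    have := LinearMap.bot_lt_ker_of_det_eq_zero h
    rw [hker] at this
    exact lt_irrefl _ this
  rw [LinearMap.det_eq_sign_charpoly_coeff] at hdet
  have hc : T'.charpoly.coeff 0 ≠ 0 := right_ne_zero_of_mul hdet
  refine ⟨Polynomial.C (-(T'.charpoly.coeff 0)⁻¹) * T'.charpoly.divX, fun v hv => ?_⟩
  have h1 := LinearMap.aeval_self_charpoly T'
  rw [← Polynomial.divX_mul_X_add T'.charpoly, map_add, map_mul, Polynomial.aeval_X,
    Polynomial.aeval_C] at h1
  have h2 := LinearMap.congr_fun h1 ⟨v, hv⟩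
  rw [LinearMap.add_apply, Module.End.mul_apply, Module.algebraMap_end_apply,
    LinearMap.zero_apply] at h2
  have h3 := congrArg Subtype.val h2
  rw [Submodule.coe_add, hres, Submodule.coe_smul, Submodule.coe_zero] at h3
  have h4 : ((T' ⟨v, hv⟩ : N) : V) = T v := rfl
  rw [h4] at h3
  change Polynomial.aeval T T'.charpoly.divX (T v) + T'.charpoly.coeff 0 • v = 0 at h3
  rw [map_mul, Polynomial.aeval_C, Module.End.mul_apply, Module.algebraMap_end_apply,
    eq_neg_of_add_eq_zero_left h3, smul_neg, neg_smul, neg_neg, smul_smul, inv_mul_cancel₀ hc,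
    one_smul]

variable {k l : ℕ}

/-- The colour element: it projects on the odd colour of the additional strand. -/
theorem exists_E (k l : ℕ) : ∃ E : MonoidAlgebra ℚ (Perm (Fin (mm k l + 1))),
    ∀ c : Lt k l, act k l _ E (ins c (xi k l))
      = (if odd c then (1 : ℚ) else 0) • ins c (xi k l) := by
  obtain ⟨q, hq⟩ := exists_poly_inv (act k l _ (tt k l (mm k l))) (Lx (xi k l))
    (fun v hv => Lx_tt hv) (fun v hv h => tt_inj xi_g0 xi_supp hv h)
  refine ⟨1 - Polynomial.aeval (tt k l (mm k l)) q * (XB (B2 k l) + (k : ℚ) • 1), fun c => ?_⟩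
  have h1 : act k l _ (Polynomial.aeval (tt k l (mm k l)) q)
      = Polynomial.aeval (act k l _ (tt k l (mm k l))) q :=
    (Polynomial.aeval_algHom_apply _ _ _).symm
  have h2 : ∀ u, act k l _ (XB (B2 k l) + (k : ℚ) • 1) u
      = act k l _ (XB (B2 k l)) u + (k : ℚ) • u := by
    intro u
    rw [map_add, map_smul, map_one]; rfl
  rw [map_sub, map_one, map_mul, LinearMap.sub_apply, Module.End.one_apply,
    Module.End.mul_apply, h2, h1]
  rcases c with a | a
  · have h3 : act k l _ (XB (B2 k l)) (ins (Sum.inl a) (xi k l))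
        + (k : ℚ) • ins (Sum.inl a) (xi k l)
        = act k l _ (tt k l (mm k l)) (ins (Sum.inl a) (xi k l)) := by
      rw [act_tt, XB_univ, map_add, LinearMap.add_apply, X1_ins]
      rw [sub_smul]
      abel
    rw [h3, hq _ (ins_mem_Lx _), sub_self]
    simp
  · rw [X2_ins]
    have h3 : (-(k : ℚ)) • ins (Sum.inr a : Lt k l) (xi k l)
        + (k : ℚ) • ins (Sum.inr a) (xi k l) = 0 := by
      rw [neg_smul, neg_add_cancel]
    rw [h3, map_zero, sub_zero]
    simp

/-- MAIN THEOREM of the E-block. -/
theorem main (k l : ℕ) :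
    ∃ (z : MonoidAlgebra ℚ (Perm (Fin (mm k l))))
      (E : MonoidAlgebra ℚ (Perm (Fin (mm k l + 1)))),
      act k l _ z (xi k l) = xi k l ∧ (∀ f, act k l _ z f ∈ Ux (xi k l)) ∧
      (∀ (n : ℕ) (y : MonoidAlgebra ℚ (Perm (Fin (n + mm k l)))),
        (∀ v : Fin n → Lt k l, act k l _ y (tn v (xi k l)) = 0) →
        act k l _ (y * pl (phR n (mm k l)) z) = 0) ∧
      (∀ (n : ℕ) (i : Fin n) (v : Fin n → Lt k l),
        act k l _ (pl (phi n (mm k l) i) E) (tn v (xi k l))
          = (if odd (v i) then (1 : ℚ) else 0) • tn v (xi k l)) := by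
  obtain ⟨z, hz1, hz2⟩ := exists_z (xi k l)
  obtain ⟨E, hE⟩ := exists_E k l
  exact ⟨z, E, hz1, hz2, fun n y hy => principle hz2 y hy,
    fun n i v => act_phi (e := fun c => if odd c then (1 : ℚ) else 0) hE i v⟩

/-! ### Relations -/

section rel

variable {m n : ℕ}

/-- The data of a catalyst. -/
structure Cat (k l m : ℕ) where
  /-- the vector -/
  ξ : W k l (Fin m)
  /-- the idempotent -/
  z : MonoidAlgebra ℚ (Perm (Fin m))
  /-- the colour element -/
  E : MonoidAlgebra ℚ (Perm (Fin (m + 1)))
  hz1 : act k l _ z ξ = ξ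
  hz2 : ∀ f, act k l _ z f ∈ Ux ξ
  hE : ∀ c : Lt k l, act k l _ E (ins c ξ) = (if odd c then (1 : ℚ) else 0) • ins c ξ

/-- The determinant catalyst. -/
noncomputable def catalyst (k l : ℕ) : Cat k l (mm k l) :=
  { ξ := xi k l
    z := (exists_z (xi k l)).choose
    E := (exists_E k l).choose
    hz1 := (exists_z (xi k l)).choose_spec.1
    hz2 := (exists_z (xi k l)).choose_spec.2
    hE := (exists_E k l).choose_spec }

namespace Cat

variable (C : Cat k l m)

/-- `1 ⊗ z`. -/
noncomputable def Z (n : ℕ) : MonoidAlgebra ℚ (Perm (Fin (n + m))) := pl (phR n m) C.z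

/-- The colour element on strand `i`. -/
noncomputable def Ei (n : ℕ) (i : Fin n) : MonoidAlgebra ℚ (Perm (Fin (n + m))) :=
  pl (phi n m i) C.E

theorem act_Z (v : Fin n → Lt k l) : act k l _ (C.Z n) (tn v C.ξ) = tn v C.ξ := by
  unfold Z; rw [act_pl_tn, C.hz1]

theorem act_Ei (i : Fin n) (v : Fin n → Lt k l) :
    act k l _ (C.Ei n i) (tn v C.ξ) = (if odd (v i) then (1 : ℚ) else 0) • tn v C.ξ :=
  act_phi (e := fun c => if odd c then (1 : ℚ) else 0) C.hE i v

/-- The principle: an element killing all `e_v ⊗ ξ` is in `K(k|l)` after multiplication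
with `1 ⊗ z`. -/
theorem ker_of (y : MonoidAlgebra ℚ (Perm (Fin (n + m))))
    (hy : ∀ v : Fin n → Lt k l, act k l _ y (tn v C.ξ) = 0) :
    act k l _ (y * C.Z n) = 0 :=
  principle C.hz2 y hy

theorem Z_idem : act k l _ ((C.Z n - 1) * C.Z n) = 0 := by
  refine C.ker_of _ (fun v => ?_)
  rw [map_sub, map_one, LinearMap.sub_apply, act_Z, Module.End.one_apply, sub_self]

theorem Z_Ei (i : Fin n) : act k l _ ((C.Z n * C.Ei n i - C.Ei n i) * C.Z n) = 0 := by
  refine C.ker_of _ (fun v => ?_)
  rw [map_sub, map_mul, LinearMap.sub_apply, Module.End.mul_apply, act_Ei, map_smul, act_Z,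
    sub_self]

theorem Ei_idem (i : Fin n) : act k l _ ((C.Ei n i * C.Ei n i - C.Ei n i) * C.Z n) = 0 := by
  refine C.ker_of _ (fun v => ?_)
  rw [map_sub, map_mul, LinearMap.sub_apply, Module.End.mul_apply, act_Ei, map_smul, act_Ei,
    smul_smul, ← sub_smul]
  split_ifs <;> simp

theorem Ei_comm (i j : Fin n) :
    act k l _ ((C.Ei n i * C.Ei n j - C.Ei n j * C.Ei n i) * C.Z n) = 0 := by
  refine C.ker_of _ (fun v => ?_)
  rw [map_sub, map_mul, map_mul, LinearMap.sub_apply, Module.End.mul_apply,
    Module.End.mul_apply, act_Ei, act_Ei, map_smul, map_smul, act_Ei, act_Ei, smul_comm, sub_self]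

/-- A permutation of the strands. -/
noncomputable def S (n m : ℕ) (σ : Perm (Fin n)) : MonoidAlgebra ℚ (Perm (Fin (n + m))) :=
  MonoidAlgebra.of ℚ _ (ext (phL n m) σ)

theorem S_mul (σ τ : Perm (Fin n)) : S n m (σ * τ) = S n m σ * S n m τ := by
  unfold S; rw [map_mul, map_mul]

theorem S_one : S n m (1 : Perm (Fin n)) = 1 := by
  unfold S; rw [map_one, map_one]

/-- Conjugation moves the colour element, exactly. -/
theorem S_Ei (σ : Perm (Fin n)) (i : Fin n) : S n m σ * C.Ei n i = C.Ei n (σ i) * S n m σ := by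
  unfold S Ei
  have hT : ∀ a, ext (phL n m) σ (phi n m i a) = phi n m (σ i) a := by
    intro a
    rcases Fin.eq_zero_or_eq_succ a with rfl | ⟨a, rfl⟩
    · exact ext_apply (phL n m) σ i
    · exact ext_apply' _ _ _ (phL_notMem a)
  rw [pl_conj (phi n m i) (phi n m (σ i)) (ext (phL n m) σ) hT, mul_assoc, mul_assoc,
    ← map_mul (MonoidAlgebra.of ℚ _), inv_mul_cancel, map_one, mul_one]

/-- Strand permutations commute with `1 ⊗ z`, exactly. -/
theorem S_Z (σ : Perm (Fin n)) : S n m σ * C.Z n = C.Z n * S n m σ := by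
  unfold S Z
  have hT : ∀ a, ext (phL n m) σ (phR n m a) = phR n m a := fun a =>
    ext_apply' _ _ _ (phL_notMem a)
  have h := pl_conj (phR n m) (phR n m) (ext (phL n m) σ) hT C.z
  conv_rhs => rw [h, mul_assoc, mul_assoc, ← map_mul (MonoidAlgebra.of ℚ _), inv_mul_cancel,
    map_one, mul_one]

theorem act_S (σ : Perm (Fin n)) (v : Fin n → Lt k l) (f : W k l (Fin m)) :
    act k l _ (S n m σ) (tn v f) = eps σ (pv v) • tn (v ∘ ⇑σ⁻¹) f := by
  unfold S; rw [act_of, rho_tn]

/-- The sign operators. -/
noncomputable def SG (σ : Perm (Fin n)) : MonoidAlgebra ℚ (Perm (Fin (n + m))) :=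
  ((prs (Fin n)).toList.map (fun q => if σ q.2 < σ q.1 then
    1 - (2 : ℚ) • (C.Ei n q.1 * C.Ei n q.2) else 1)).prod

theorem act_SG (σ : Perm (Fin n)) (v : Fin n → Lt k l) :
    act k l _ (C.SG σ) (tn v C.ξ) = eps σ (pv v) • tn v C.ξ := by
  have h1 : ∀ L : List (Fin n × Fin n), act k l _ ((L.map (fun q => if σ q.2 < σ q.1 then
      1 - (2 : ℚ) • (C.Ei n q.1 * C.Ei n q.2) else 1)).prod) (tn v C.ξ)
      = ((L.map (fun q => if σ q.2 < σ q.1 then (if pv v q.1 && pv v q.2 then (-1 : ℚ) else 1)
        else 1)).prod) • tn v C.ξ := by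
    intro L
    induction L with
    | nil => simp
    | cons q L ih =>
      rw [List.map_cons, List.prod_cons, List.map_cons, List.prod_cons, map_mul,
        Module.End.mul_apply, ih, map_smul, mul_comm, mul_smul]
      congr 1
      by_cases hq : σ q.2 < σ q.1
      · rw [if_pos hq, if_pos hq, map_sub, map_one, map_smul, map_mul, LinearMap.sub_apply,
          LinearMap.smul_apply, Module.End.mul_apply, act_Ei, map_smul, act_Ei,
          Module.End.one_apply, smul_smul, smul_smul]
        nth_rewrite 1 [← one_smul ℚ (tn v C.ξ)]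
        rw [← sub_smul]
        congr 1
        unfold pv
        cases odd (v q.1) <;> cases odd (v q.2) <;> simp
        norm_num
      · rw [if_neg hq, if_neg hq, map_one, one_smul]; rfl
  unfold SG
  rw [h1, Finset.prod_map_toList]
  congr 1
  unfold eps
  refine Finset.prod_congr rfl (fun q hq => ?_)
  rw [mem_prs] at hq
  unfold H
  by_cases h2 : σ q.2 < σ q.1
  · have h3 : ¬ σ q.1 < σ q.2 := not_lt.2 h2.le
    simp [h2, h3, hq]
  · have h3 : σ q.1 < σ q.2 := lt_of_le_of_ne (not_lt.1 h2) (fun e => hq.ne (σ.injective e))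
    simp [h2, h3, hq]

/-- The plain flips. -/
noncomputable def fl (σ : Perm (Fin n)) : MonoidAlgebra ℚ (Perm (Fin (n + m))) :=
  S n m σ * C.SG σ

theorem act_fl (σ : Perm (Fin n)) (v : Fin n → Lt k l) :
    act k l _ (C.fl σ) (tn v C.ξ) = tn (v ∘ ⇑σ⁻¹) C.ξ := by
  unfold fl
  rw [map_mul, Module.End.mul_apply, act_SG, map_smul, act_S, smul_smul, eps_sq, one_smul]

theorem fl_mul (σ τ : Perm (Fin n)) :
    act k l _ ((C.fl σ * C.fl τ - C.fl (σ * τ)) * C.Z n) = 0 := by
  refine C.ker_of _ (fun v => ?_)
  rw [map_sub, map_mul, LinearMap.sub_apply, Module.End.mul_apply, act_fl, act_fl, act_fl,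
    sub_eq_zero]
  congr 1

theorem fl_one : act k l _ ((C.fl (1 : Perm (Fin n)) - 1) * C.Z n) = 0 := by
  refine C.ker_of _ (fun v => ?_)
  rw [map_sub, map_one, LinearMap.sub_apply, act_fl, Module.End.one_apply, sub_eq_zero]
  congr 1

theorem fl_Ei (σ : Perm (Fin n)) (i : Fin n) :
    act k l _ ((C.fl σ * C.Ei n i - C.Ei n (σ i) * C.fl σ) * C.Z n) = 0 := by
  refine C.ker_of _ (fun v => ?_)
  rw [map_sub, map_mul, map_mul, LinearMap.sub_apply, Module.End.mul_apply,
    Module.End.mul_apply, act_fl, act_Ei, map_smul, act_fl, act_Ei, sub_eq_zero]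
  congr 2
  simp

theorem Z_fl (σ : Perm (Fin n)) :
    act k l _ ((C.Z n * C.fl σ - C.fl σ) * C.Z n) = 0 := by
  refine C.ker_of _ (fun v => ?_)
  rw [map_sub, map_mul, LinearMap.sub_apply, Module.End.mul_apply, act_fl, act_Z, sub_self]

/-- The antisymmetrizer of the plain flips on more than `k + l` strands is zero. -/
theorem alt_fl (T : Finset (Fin n)) (hT : k + l < T.card) :
    act k l _ ((∑ σ ∈ univ.filter (fun σ : Perm (Fin n) => ∀ i, i ∉ T → σ i = i),
      ((Perm.sign σ : ℤ) : ℚ) • C.fl σ) * C.Z n) = 0 := by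
  classical
  refine C.ker_of _ (fun v => ?_)
  rw [map_sum, LinearMap.sum_apply]
  simp only [map_smul, LinearMap.smul_apply, act_fl]
  -- two positions with the same letter
  have hcard : (univ : Finset (Lt k l)).card < T.card := by
    rw [Finset.card_univ, Fintype.card_sum, Fintype.card_fin, Fintype.card_fin]; exact hT
  obtain ⟨i, hi, j, hj, hij, hv⟩ := Finset.exists_ne_map_eq_of_card_lt_of_maps_to hcard
    (fun i _ => Finset.mem_univ (v i))
  refine Finset.sum_involution (fun σ _ => σ * swap i j) ?_ ?_ ?_ ?_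
  · intro σ _
    rw [Perm.sign_mul, Perm.sign_swap hij]
    have h1 : v ∘ ⇑(σ * swap i j)⁻¹ = v ∘ ⇑σ⁻¹ := by
      funext x
      rw [mul_inv_rev, swap_inv]
      simp only [Function.comp_apply, Perm.mul_apply]
      by_cases h2 : σ⁻¹ x = i
      · rw [h2, swap_apply_left, hv]
      · by_cases h3 : σ⁻¹ x = j
        · rw [h3, swap_apply_right, hv]
        · rw [swap_apply_of_ne_of_ne h2 h3]
    rw [h1, ← add_smul]
    simp
  · intro σ _ _ h
    have : swap i j = 1 := by
      have := congrArg (fun x => σ⁻¹ * x) h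
      simpa using this
    exact hij (swap_eq_one_iff.1 this)
  · intro σ hσ
    rw [Finset.mem_filter] at *
    refine ⟨Finset.mem_univ _, fun x hx => ?_⟩
    rw [Perm.mul_apply, swap_apply_of_ne_of_ne, hσ.2 x hx]
    · rintro rfl; exact hx hi
    · rintro rfl; exact hx hj
  · intro σ _
    rw [mul_assoc, swap_mul_self, mul_one]

end Cat

end rel

end Pool.PI34.Super

end
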