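import Pool.Agent.LibPI54.M01

/-! ### part Rl1 -/
section

/-!
PI34, rational lemma, file 1: contraction of highest weight vectors with determinants.
-/

set_option linter.unusedSectionVars false
set_option linter.unusedSimpArgs false

namespace Pool.PI34.Super

open Equiv Finset

variable {k l : ℕ} {ι : Type} [Fintype ι] [LinearOrder ι]

/-- Killed by the raising operators between letters of the same parity, over the positions
in `R`. -/
def PR (R : Finset ι) (y : W k l ι) : Prop :=
  ∀ a b : Lt k l, odd a = odd b → idx a < idx b → EB R a b y = 0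

theorem EB_plain (R : Finset ι) (a b : Lt k l) (h : odd a = odd b) (y : W k l ι)
    (w : ι → Lt k l) :
    EB R a b y w = ∑ s ∈ R, if w s = a then y (Function.update w s b) else 0 := by
  unfold EB
  rw [LinearMap.sum_apply, Finset.sum_apply]
  refine Finset.sum_congr rfl (fun s _ => ?_)
  rw [eop_apply, bsg_even a b h, one_mul]

/-- Contraction with the determinant in the letters `lam` at the positions `s`. -/
noncomputable def Dop {q : ℕ} (lam : Fin q → Lt k l) (s : Fin q → ι) (y : W k l ι) : W k l ι := fun w =>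
  ∑ π : Perm (Fin q), ((Perm.sign π : ℤ) : ℚ) * y (Function.extend s (lam ∘ π) w)

/-- A decomposition of the permutations of `Fin (q+1)`. -/
def decE (q : ℕ) : Fin (q + 1) × Perm (Fin q) ≃ Perm (Fin (q + 1)) :=
  (Equiv.prodCongr (Equiv.refl _) (Equiv.inv _)).trans
    (Perm.decomposeFin.symm.trans (Equiv.inv _))

theorem decE_apply {q : ℕ} (p : Fin (q + 1)) (e : Perm (Fin q)) :
    decE q (p, e) = (Perm.decomposeFin.symm (p, e⁻¹))⁻¹ := rfl

theorem decE_p {q : ℕ} (p : Fin (q + 1)) (e : Perm (Fin q)) : decE q (p, e) p = 0 := by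
  rw [decE_apply, Perm.inv_eq_iff_eq, Perm.decomposeFin_symm_apply_zero]

theorem decE_succ {q : ℕ} (p : Fin (q + 1)) (e : Perm (Fin q)) (i : Fin q) :
    decE q (p, e) (swap 0 p i.succ) = (e i).succ := by
  rw [decE_apply, Perm.inv_eq_iff_eq, Perm.decomposeFin_symm_apply_succ]
  simp

theorem decE_sign {q : ℕ} (p : Fin (q + 1)) (e : Perm (Fin q)) :
    Perm.sign (decE q (p, e)) = (if p = 0 then 1 else -1) * Perm.sign e := by
  rw [decE_apply, Perm.sign_inv, Perm.decomposeFin.symm_sign, Perm.sign_inv]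

theorem extend_cons {q : ℕ} {s0 : ι} {s : Fin q → ι} (hs : Function.Injective s)
    (h0 : ∀ i, s i ≠ s0) (u0 : Lt k l) (u : Fin q → Lt k l) (w : ι → Lt k l) :
    Function.extend (Fin.cons s0 s : Fin (q + 1) → ι) (Fin.cons u0 u : Fin (q + 1) → Lt k l) w
      = Function.update (Function.extend s u w) s0 u0 := by
  have hinj : Function.Injective (Fin.cons s0 s : Fin (q + 1) → ι) := by
    rw [Fin.cons_injective_iff]
    exact ⟨fun ⟨i, hi⟩ => h0 i hi, hs⟩
  funext x
  by_cases hx : x = s0
  · subst hx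
    have h1 := hinj.extend_apply (Fin.cons u0 u : Fin (q + 1) → Lt k l) w 0
    rw [Fin.cons_zero, Fin.cons_zero] at h1
    rw [h1, Function.update_self]
  · rw [Function.update_of_ne hx]
    by_cases hx2 : ∃ i, s i = x
    · obtain ⟨i, rfl⟩ := hx2
      have h1 := hinj.extend_apply (Fin.cons u0 u : Fin (q + 1) → Lt k l) w i.succ
      rw [Fin.cons_succ, Fin.cons_succ] at h1
      rw [h1, hs.extend_apply]
    · rw [Function.extend_apply' _ _ _ hx2, Function.extend_apply']
      rintro ⟨i, hi⟩
      rcases Fin.eq_zero_or_eq_succ i with rfl | ⟨i, rfl⟩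
      · rw [Fin.cons_zero] at hi; exact hx hi.symm
      · rw [Fin.cons_succ] at hi; exact hx2 ⟨i, hi⟩

theorem F_formula : ∀ (q : ℕ) (lam : Fin q → Lt k l), (∀ i j, i < j → idx (lam i) < idx (lam j)) →
    (∀ i j, odd (lam i) = odd (lam j)) → ∀ (R : Finset ι) (y : W k l ι), PR R y →
    ∀ w : ι → Lt k l, (∀ i, ∃ s ∈ R, w s = lam i) → ∃ c : ℚ, 0 < c ∧
      ∑ s : Fin q → ι, (if ∀ i, s i ∈ R ∧ w (s i) = lam i then Dop lam s y w else 0)
        = c * y w := by
  classical
  intro q
  induction q with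
  | zero =>
    intro lam _ _ R y _ w _
    refine ⟨1, one_pos, ?_⟩
    rw [Fintype.sum_unique, if_pos (fun i => i.elim0)]
    unfold Dop
    rw [Fintype.sum_unique]
    have : Function.extend (default : Fin 0 → ι) (lam ∘ (default : Perm (Fin 0))) w = w := by
      funext x
      rw [Function.extend_apply']
      rintro ⟨i, _⟩; exact i.elim0
    rw [this]
    have h1 : (default : Perm (Fin 0)) = 1 := Subsingleton.elim _ _
    rw [h1]; simp
  | succ q ih =>
    intro lam hlt hpar R y hy w hex
    have hlt' : ∀ i j, i < j → idx (Fin.tail lam i) < idx (Fin.tail lam j) :=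
      fun i j h => hlt _ _ (Fin.succ_lt_succ_iff.2 h)
    have hpar' : ∀ i j, odd (Fin.tail lam i) = odd (Fin.tail lam j) := fun i j => hpar _ _
    obtain ⟨c, hc, hF⟩ := ih (Fin.tail lam) hlt' hpar' R y hy w (fun i => hex i.succ)
    set B := R.filter (fun s => w s = lam 0) with hB
    have hlam0 : ∀ i : Fin q, lam 0 ≠ Fin.tail lam i := by
      intro i e
      have := hlt 0 i.succ (Fin.succ_pos i)
      rw [e] at this
      exact lt_irrefl _ this
    refine ⟨((B.card : ℚ) + q) * c, ?_, ?_⟩
    · have hBc : 0 < B.card := by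
        rw [Finset.card_pos]
        obtain ⟨s, hs1, hs2⟩ := hex 0
        exact ⟨s, by rw [hB, Finset.mem_filter]; exact ⟨hs1, hs2⟩⟩
      have : (0 : ℚ) < B.card := by exact_mod_cast hBc
      positivity
    rw [← (Fin.consEquiv (fun _ : Fin (q + 1) => ι)).sum_comp, Fintype.sum_prod_type,
      Finset.sum_comm]
    rw [mul_assoc, ← hF, Finset.mul_sum]
    refine Finset.sum_congr rfl (fun s _ => ?_)
    by_cases hs : ∀ i, s i ∈ R ∧ w (s i) = Fin.tail lam i
    swap
    · rw [if_neg hs, mul_zero]
      refine Finset.sum_eq_zero (fun s0 _ => ?_)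
      rw [if_neg]
      intro h
      apply hs
      intro i
      have := h i.succ
      exact this
    rw [if_pos hs]
    have hinj : Function.Injective s := by
      intro i j hij
      by_contra hne
      have h1 := (hs i).2
      have h2 := (hs j).2
      rw [hij, h2] at h1
      rcases lt_or_gt_of_ne hne with h | h
      · have := hlt' i j h; rw [h1] at this; exact lt_irrefl _ this
      · have := hlt' j i h; rw [h1] at this; exact lt_irrefl _ this
    -- the words
    set ww : Perm (Fin q) → (ι → Lt k l) := fun e => Function.extend s (Fin.tail lam ∘ e) w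
      with hww
    have hwws : ∀ e i, ww e (s i) = Fin.tail lam (e i) := by
      intro e i
      rw [hww]
      simp only
      rw [hinj.extend_apply]; rfl
    have hwwn : ∀ e x, (∀ i, s i ≠ x) → ww e x = w x := by
      intro e x hx
      rw [hww]
      simp only
      rw [Function.extend_apply']
      rintro ⟨i, hi⟩; exact hx i hi
    have hs0 : ∀ s0 ∈ B, ∀ i, s i ≠ s0 := by
      intro s0 h0 i e
      rw [hB, Finset.mem_filter] at h0
      have := (hs i).2
      rw [e, h0.2] at this
      exact hlam0 i this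
    have hD : ∀ s0 ∈ B, Dop lam (Fin.cons s0 s : Fin (q + 1) → ι) y w
        = ∑ e : Perm (Fin q), ((Perm.sign e : ℤ) : ℚ) * y (ww e)
          + ∑ j : Fin q, ∑ e : Perm (Fin q), (-((Perm.sign e : ℤ) : ℚ)) *
            y (Function.update (Function.update (ww e) (s j) (lam 0)) s0
              (Fin.tail lam (e j))) := by
      intro s0 h0
      have h0' : w s0 = lam 0 := by rw [hB, Finset.mem_filter] at h0; exact h0.2
      unfold Dop
      rw [← (decE q).sum_comp, Fintype.sum_prod_type, Fin.sum_univ_succ]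
      congr 1
      · refine Finset.sum_congr rfl (fun e _ => ?_)
        rw [decE_sign, if_pos rfl, one_mul]
        congr 2
        have h1 : lam ∘ decE q (0, e) = (Fin.cons (lam 0) (Fin.tail lam ∘ e) :
            Fin (q + 1) → Lt k l) := by
          funext i
          rcases Fin.eq_zero_or_eq_succ i with rfl | ⟨i, rfl⟩
          · rw [Function.comp_apply, decE_p, Fin.cons_zero]
          · have := decE_succ 0 e i
            rw [swap_self, Equiv.refl_apply] at this
            rw [Function.comp_apply, this, Fin.cons_succ]; rfl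
        rw [h1, extend_cons hinj (hs0 s0 h0)]
        rw [← h0', ← hwwn e s0 (hs0 s0 h0)]
        exact Function.update_eq_self s0 (ww e)
      · refine Finset.sum_congr rfl (fun j _ => ?_)
        refine Finset.sum_congr rfl (fun e _ => ?_)
        rw [decE_sign, if_neg (Fin.succ_ne_zero j)]
        have h1 : lam ∘ decE q (j.succ, e) = (Fin.cons (Fin.tail lam (e j))
            (Function.update (Fin.tail lam ∘ e) j (lam 0)) : Fin (q + 1) → Lt k l) := by
          funext i
          rcases Fin.eq_zero_or_eq_succ i with rfl | ⟨i, rfl⟩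
          · have := decE_succ j.succ e j
            rw [swap_apply_right] at this
            rw [Function.comp_apply, this, Fin.cons_zero]; rfl
          · by_cases hij : i = j
            · subst hij
              rw [Function.comp_apply, decE_p, Fin.cons_succ, Function.update_self]
            · have := decE_succ j.succ e i
              rw [swap_apply_of_ne_of_ne (Fin.succ_ne_zero i)
                (fun e => hij (Fin.succ_injective _ e))] at this
              rw [Function.comp_apply, this, Fin.cons_succ, Function.update_of_ne hij]; rfl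
        rw [h1, extend_cons hinj (hs0 s0 h0)]
        have h2 : Function.extend s (Function.update (Fin.tail lam ∘ e) j (lam 0)) w
            = Function.update (ww e) (s j) (lam 0) := by
          funext x
          by_cases hx : ∃ i, s i = x
          · obtain ⟨i, rfl⟩ := hx
            rw [hinj.extend_apply]
            by_cases hij : i = j
            · subst hij; rw [Function.update_self, Function.update_self]
            · rw [Function.update_of_ne hij, Function.update_of_ne (fun e => hij (hinj e)),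
                hwws]; rfl
          · rw [Function.extend_apply' _ _ _ hx, Function.update_of_ne, hwwn e x]
            · intro i hi; exact hx ⟨i, hi⟩
            · intro e; exact hx ⟨j, e.symm⟩
        rw [h2]
        push_cast
        ring
    have hrel : ∀ e : Perm (Fin q), ∀ j : Fin q, ∑ s0 ∈ B,
        y (Function.update (Function.update (ww e) (s j) (lam 0)) s0 (Fin.tail lam (e j)))
        = - y (ww e) := by
      intro e j
      set ws := Function.update (ww e) (s j) (lam 0) with hws
      have h1 := congrFun (hy (lam 0) (Fin.tail lam (e j)) (hpar _ _)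
        (hlt 0 (e j).succ (Fin.succ_pos _))) ws
      rw [EB_plain R (lam 0) (Fin.tail lam (e j)) (hpar 0 (e j).succ), ← Finset.sum_filter] at h1
      have h2 : R.filter (fun x => ws x = lam 0) = insert (s j) B := by
        ext x
        rw [Finset.mem_filter, Finset.mem_insert, hB, Finset.mem_filter]
        by_cases hx : x = s j
        · subst hx
          simp only [true_or, iff_true]
          refine ⟨(hs j).1, ?_⟩
          rw [hws, Function.update_self]
        · rw [hws, Function.update_of_ne hx]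
          by_cases hx2 : ∃ i, s i = x
          · obtain ⟨i, rfl⟩ := hx2
            rw [hwws, (hs i).2]
            constructor
            · rintro ⟨_, h3⟩; exact absurd h3.symm (hlam0 _)
            · rintro (h3 | h3)
              · exact absurd h3 hx
              · exact absurd h3.2.symm (hlam0 _)
          · rw [hwwn e x (fun i hi => hx2 ⟨i, hi⟩)]
            constructor
            · intro h3; exact Or.inr h3
            · rintro (h3 | h3)
              · exact absurd h3 hx
              · exact h3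
      have h3 : s j ∉ B := fun h => hs0 _ h j rfl
      rw [h2, Finset.sum_insert h3] at h1
      have h4 : Function.update ws (s j) (Fin.tail lam (e j)) = ww e := by
        rw [hws, Function.update_idem, ← hwws e j, Function.update_eq_self]
      rw [h4] at h1
      have h5 : (0 : W k l ι) ws = 0 := rfl
      rw [h5] at h1
      linarith
    have h6 : ∀ s0, (if ∀ i, (Fin.cons s0 s : Fin (q + 1) → ι) i ∈ R ∧
        w ((Fin.cons s0 s : Fin (q + 1) → ι) i) = lam i then
        Dop lam (Fin.cons s0 s : Fin (q + 1) → ι) y w else 0)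
        = if s0 ∈ B then Dop lam (Fin.cons s0 s : Fin (q + 1) → ι) y w else 0 := by
      intro s0
      have : (∀ i, (Fin.cons s0 s : Fin (q + 1) → ι) i ∈ R ∧
        w ((Fin.cons s0 s : Fin (q + 1) → ι) i) = lam i) ↔ s0 ∈ B := by
        rw [Fin.forall_fin_succ, hB, Finset.mem_filter]
        simp only [Fin.cons_zero, Fin.cons_succ]
        exact ⟨fun h => h.1, fun h => ⟨h, hs⟩⟩
      by_cases h7 : s0 ∈ B
      · rw [if_pos h7, if_pos (this.2 h7)]
      · rw [if_neg h7, if_neg (fun h8 => h7 (this.1 h8))]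
    have h7 : ∑ s0 : ι, (if ∀ i, ((Fin.consEquiv (fun _ : Fin (q + 1) => ι)) (s0, s)) i ∈ R ∧
        w (((Fin.consEquiv (fun _ : Fin (q + 1) => ι)) (s0, s)) i) = lam i then
        Dop lam ((Fin.consEquiv (fun _ : Fin (q + 1) => ι)) (s0, s)) y w else 0)
        = ∑ s0 ∈ B, Dop lam (Fin.cons s0 s : Fin (q + 1) → ι) y w := by
      refine (Finset.sum_congr rfl (fun s0 _ => h6 s0)).trans ?_
      rw [← Finset.sum_filter, Finset.filter_mem_eq_inter, Finset.univ_inter]
    rw [h7, Finset.sum_congr rfl hD, Finset.sum_add_distrib, Finset.sum_const, nsmul_eq_mul]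
    have h8 : ∑ s0 ∈ B, ∑ j : Fin q, ∑ e : Perm (Fin q), (-((Perm.sign e : ℤ) : ℚ)) *
            y (Function.update (Function.update (ww e) (s j) (lam 0)) s0
              (Fin.tail lam (e j))) = (q : ℚ) * ∑ e : Perm (Fin q), ((Perm.sign e : ℤ) : ℚ) *
              y (ww e) := by
      rw [Finset.sum_comm]
      have h9 : ∀ j ∈ (univ : Finset (Fin q)), ∑ s0 ∈ B, ∑ e : Perm (Fin q),
          (-((Perm.sign e : ℤ) : ℚ)) * y (Function.update (Function.update (ww e) (s j) (lam 0))
          s0 (Fin.tail lam (e j))) = ∑ e : Perm (Fin q), ((Perm.sign e : ℤ) : ℚ) *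
              y (ww e) := by
        intro j _
        rw [Finset.sum_comm]
        refine Finset.sum_congr rfl (fun e _ => ?_)
        rw [← Finset.mul_sum, hrel e j]
        ring
      rw [Finset.sum_congr rfl h9, Finset.sum_const, Finset.card_univ, Fintype.card_fin,
        nsmul_eq_mul]
    rw [h8]
    unfold Dop
    ring

end Pool.PI34.Super

end

/-! ### part Rl2 -/
section

/-!
PI34, rational lemma, file 2: iterated contractions.
-/

set_option linter.unusedSectionVars false
set_option linter.unusedSimpArgs false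

namespace Pool.PI34.Super

open Equiv Finset

variable {k l : ℕ} {ι : Type} [Fintype ι] [LinearOrder ι]

/-- The number of occurrences of `a` in `R`. -/
def cntR (R : Finset ι) (a : Lt k l) (w : ι → Lt k l) : ℕ := (R.filter (fun s => w s = a)).card

theorem exists_Dop {q : ℕ} {lam : Fin q → Lt k l} (hlt : ∀ i j, i < j → idx (lam i) < idx (lam j))
    (hpar : ∀ i j, odd (lam i) = odd (lam j)) {R : Finset ι} {y : W k l ι} (hy : PR R y)
    {w : ι → Lt k l} (hw : y w ≠ 0) (hex : ∀ i, ∃ s ∈ R, w s = lam i) :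
    ∃ s : Fin q → ι, Function.Injective s ∧ (∀ i, s i ∈ R) ∧ Dop lam s y w ≠ 0 := by
  classical
  obtain ⟨c, hc, hF⟩ := F_formula q lam hlt hpar R y hy w hex
  have h1 : ∑ s : Fin q → ι, (if ∀ i, s i ∈ R ∧ w (s i) = lam i then Dop lam s y w else 0) ≠ 0 := by
    rw [hF]; exact mul_ne_zero hc.ne' hw
  obtain ⟨s, _, hs⟩ := Finset.exists_ne_zero_of_sum_ne_zero h1
  split_ifs at hs with h2
  · refine ⟨s, ?_, fun i => (h2 i).1, hs⟩
    intro i j hij
    by_contra hne
    have h3 := (h2 i).2
    have h4 := (h2 j).2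
    rw [hij, h4] at h3
    rcases lt_or_gt_of_ne hne with h | h
    · have := hlt i j h; rw [h3] at this; exact lt_irrefl _ this
    · have := hlt j i h; rw [h3] at this; exact lt_irrefl _ this
  · exact absurd rfl hs

theorem extend_update {q : ℕ} {s : Fin q → ι} {t : ι} (ht : ∀ i, s i ≠ t)
    (u : Fin q → Lt k l) (w : ι → Lt k l) (b : Lt k l) :
    Function.extend s u (Function.update w t b) = Function.update (Function.extend s u w) t b := by
  funext x
  by_cases hx : ∃ i, s i = x
  · obtain ⟨i, rfl⟩ := hx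
    rw [Function.update_of_ne (ht i)]
    by_cases h : ∃ a, s a = s i
    · rw [Function.extend_def, Function.extend_def, dif_pos h, dif_pos h]
    · exact absurd ⟨i, rfl⟩ h
  · rw [Function.extend_apply' _ _ _ hx]
    by_cases hxt : x = t
    · subst hxt; rw [Function.update_self, Function.update_self]
    · rw [Function.update_of_ne hxt, Function.update_of_ne hxt, Function.extend_apply' _ _ _ hx]

theorem Dop_PR' {q : ℕ} {lam : Fin q → Lt k l} (hinjl : Function.Injective lam)
    (hcl : ∀ a b : Lt k l, odd a = odd b → idx a < idx b → (∃ i, lam i = a) → ∃ i, lam i = b)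
    {s : Fin q → ι} (hs : Function.Injective s) {R : Finset ι} (hsR : ∀ i, s i ∈ R)
    {y : W k l ι} (hy : PR R y) : PR (R \ univ.image s) (Dop lam s y) := by
  classical
  intro a b hab hlt
  funext w
  have hne : a ≠ b := fun e => by rw [e] at hlt; exact lt_irrefl _ hlt
  rw [EB_plain _ a b hab]
  have h1 : ∀ t ∈ R \ univ.image s, (if w t = a then Dop lam s y (Function.update w t b) else 0)
      = ∑ π : Perm (Fin q), ((Perm.sign π : ℤ) : ℚ) *
        (if (Function.extend s (lam ∘ π) w) t = a then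
          y (Function.update (Function.extend s (lam ∘ π) w) t b) else 0) := by
    intro t ht
    rw [Finset.mem_sdiff, Finset.mem_image] at ht
    have ht' : ∀ i, s i ≠ t := fun i e => ht.2 ⟨i, Finset.mem_univ _, e⟩
    have h2 : ∀ π : Perm (Fin q), (Function.extend s (lam ∘ π) w) t = w t := by
      intro π
      rw [Function.extend_apply']
      rintro ⟨i, hi⟩; exact ht' i hi
    simp only [h2]
    by_cases hw : w t = a
    · simp only [hw, if_true]
      unfold Dop
      refine Finset.sum_congr rfl (fun π _ => ?_)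
      rw [extend_update ht']
    · simp [hw]
  rw [Finset.sum_congr rfl h1, Finset.sum_comm]
  have h3 : ∀ π : Perm (Fin q), ∑ t ∈ R \ univ.image s, ((Perm.sign π : ℤ) : ℚ) *
        (if (Function.extend s (lam ∘ π) w) t = a then
          y (Function.update (Function.extend s (lam ∘ π) w) t b) else 0)
      = - ∑ i : Fin q, ((Perm.sign π : ℤ) : ℚ) * (if lam (π i) = a then
          y (Function.update (Function.extend s (lam ∘ π) w) (s i) b) else 0) := by
    intro π
    rw [← Finset.mul_sum, ← Finset.mul_sum]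
    have h4 := congrFun (hy a b hab hlt) (Function.extend s (lam ∘ π) w)
    rw [EB_plain _ a b hab] at h4
    have hsub : univ.image s ⊆ R := by
      intro t ht
      rw [Finset.mem_image] at ht
      obtain ⟨i, _, rfl⟩ := ht
      exact hsR i
    rw [← Finset.sum_sdiff hsub, Finset.sum_image (fun i _ j _ h => hs h)] at h4
    have h5 : ∀ i ∈ (univ : Finset (Fin q)), (if (Function.extend s (lam ∘ π) w) (s i) = a then
        y (Function.update (Function.extend s (lam ∘ π) w) (s i) b) else 0)
        = (if lam (π i) = a then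
          y (Function.update (Function.extend s (lam ∘ π) w) (s i) b) else 0) := by
      intro i _
      rw [hs.extend_apply]; rfl
    rw [Finset.sum_congr rfl h5] at h4
    have h6 : (0 : W k l ι) (Function.extend s (lam ∘ π) w) = 0 := rfl
    rw [h6] at h4
    rw [eq_neg_of_add_eq_zero_left h4]
    ring
  rw [Finset.sum_congr rfl (fun π _ => h3 π), Finset.sum_neg_distrib]
  have h7 : (0 : W k l ι) w = 0 := rfl
  rw [h7, neg_eq_zero]
  by_cases ha : ∃ i, lam i = a
  swap
  · refine Finset.sum_eq_zero (fun π _ => Finset.sum_eq_zero (fun i _ => ?_))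
    rw [if_neg, mul_zero]
    intro h; exact ha ⟨_, h⟩
  obtain ⟨d, hd⟩ := hcl a b hab hlt ha
  obtain ⟨c, hc⟩ := ha
  have hcd : c ≠ d := fun e => hne (by rw [← hc, ← hd, e])
  have h8 : ∀ π : Perm (Fin q), ∑ i : Fin q, ((Perm.sign π : ℤ) : ℚ) * (if lam (π i) = a then
          y (Function.update (Function.extend s (lam ∘ π) w) (s i) b) else 0)
      = ((Perm.sign π : ℤ) : ℚ) *
          y (Function.extend s (Function.update (lam ∘ π) (π.symm c) b) w) := by
    intro π
    rw [Finset.sum_eq_single (π.symm c)]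
    · rw [if_pos (by rw [Equiv.apply_symm_apply, hc])]
      congr 2
      funext x
      by_cases hx : ∃ i, s i = x
      · obtain ⟨i, rfl⟩ := hx
        rw [hs.extend_apply]
        by_cases hi : i = π.symm c
        · subst hi; rw [Function.update_self, Function.update_self]
        · rw [Function.update_of_ne hi, Function.update_of_ne (fun e => hi (hs e)),
            hs.extend_apply]
      · rw [Function.extend_apply' _ _ _ hx, Function.update_of_ne,
          Function.extend_apply' _ _ _ hx]
        rintro rfl; exact hx ⟨_, rfl⟩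
    · intro i _ hi
      rw [if_neg, mul_zero]
      intro h
      apply hi
      rw [← hc] at h
      rw [← hinjl h, Equiv.symm_apply_apply]
    · intro h; exact absurd (Finset.mem_univ _) h
  rw [Finset.sum_congr rfl (fun π _ => h8 π)]
  refine Finset.sum_involution (fun π _ => swap c d * π) ?_ ?_ ?_ ?_
  · intro π _
    rw [Perm.sign_mul, Perm.sign_swap hcd]
    have h9 : Function.update (lam ∘ ⇑(swap c d * π)) ((swap c d * π).symm c) b
        = Function.update (lam ∘ π) (π.symm c) b := by
      have e1 : (swap c d * π).symm c = π.symm d := by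
        rw [Equiv.symm_apply_eq, Perm.mul_apply, Equiv.apply_symm_apply, swap_apply_right]
      rw [e1]
      funext i
      by_cases hi : i = π.symm d
      · subst hi
        rw [Function.update_self]
        by_cases hi2 : π.symm d = π.symm c
        · exact absurd (π.symm.injective hi2).symm hcd
        · rw [Function.update_of_ne hi2, Function.comp_apply, Equiv.apply_symm_apply, hd]
      · rw [Function.update_of_ne hi]
        by_cases hi2 : i = π.symm c
        · subst hi2
          rw [Function.update_self, Function.comp_apply, Perm.mul_apply,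
            Equiv.apply_symm_apply, swap_apply_left, hd]
        · rw [Function.update_of_ne hi2, Function.comp_apply, Function.comp_apply,
            Perm.mul_apply, swap_apply_of_ne_of_ne]
          · intro e; apply hi2; rw [← e, Equiv.symm_apply_apply]
          · intro e; apply hi; rw [← e, Equiv.symm_apply_apply]
    rw [h9]
    push_cast
    ring
  · intro π _ _ h
    have : swap c d = 1 := by
      have := congrArg (fun x => x * π⁻¹) h
      simpa [mul_assoc] using this
    exact hcd (swap_eq_one_iff.1 this)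
  · intro π _; exact Finset.mem_univ _
  · intro π _
    rw [← mul_assoc, swap_mul_self, one_mul]

theorem Dop_PR {q : ℕ} {lam : Fin q → Lt k l} (hinjl : Function.Injective lam)
    (hcl : ∀ a b : Lt k l, odd a = odd b → (∃ i, lam i = a) → ∃ i, lam i = b)
    {s : Fin q → ι} (hs : Function.Injective s) {R : Finset ι} (hsR : ∀ i, s i ∈ R)
    {y : W k l ι} (hy : PR R y) : PR (R \ univ.image s) (Dop lam s y) :=
  Dop_PR' hinjl (fun a b h _ => hcl a b h) hs hsR hy

theorem Dop_cnt {q : ℕ} {lam : Fin q → Lt k l} (hinjl : Function.Injective lam)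
    {s : Fin q → ι} (hs : Function.Injective s) {R : Finset ι} (hsR : ∀ i, s i ∈ R)
    {y : W k l ι} {a : Lt k l} {c : ℕ} (hc : ∀ w, y w ≠ 0 → c ≤ cntR R a w)
    {w : ι → Lt k l} (hw : Dop lam s y w ≠ 0) :
    ((∃ i, lam i = a) → c ≤ cntR (R \ univ.image s) a w + 1) ∧
    ((¬ ∃ i, lam i = a) → c ≤ cntR (R \ univ.image s) a w) := by
  classical
  unfold Dop at hw
  obtain ⟨π, _, hπ⟩ := Finset.exists_ne_zero_of_sum_ne_zero hw
  have h1 := hc _ (right_ne_zero_of_mul hπ)
  have hsub : univ.image s ⊆ R := by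
    intro t ht
    rw [Finset.mem_image] at ht
    obtain ⟨i, _, rfl⟩ := ht
    exact hsR i
  have h2 : cntR R a (Function.extend s (lam ∘ π) w)
      = cntR (R \ univ.image s) a w + (univ.filter (fun i : Fin q => lam (π i) = a)).card := by
    unfold cntR
    have h3 : R.filter (fun t => Function.extend s (lam ∘ π) w t = a)
        = (R \ univ.image s).filter (fun t => w t = a) ∪
          (univ.filter (fun i : Fin q => lam (π i) = a)).image s := by
      ext t
      simp only [Finset.mem_filter, Finset.mem_union, Finset.mem_sdiff, Finset.mem_image,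
        Finset.mem_univ, true_and]
      by_cases ht : ∃ i, s i = t
      · obtain ⟨i, rfl⟩ := ht
        rw [hs.extend_apply]
        constructor
        · rintro ⟨_, h⟩; exact Or.inr ⟨i, h, rfl⟩
        · rintro (⟨⟨_, h⟩, _⟩ | ⟨j, h, he⟩)
          · exact absurd ⟨i, rfl⟩ h
          · rw [← hs he]; exact ⟨hsR _, h⟩
      · rw [Function.extend_apply' _ _ _ ht]
        constructor
        · rintro ⟨h, h'⟩; exact Or.inl ⟨⟨h, ht⟩, h'⟩
        · rintro (⟨⟨h, _⟩, h'⟩ | ⟨j, _, he⟩)
          · exact ⟨h, h'⟩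
          · exact absurd ⟨j, he⟩ ht
    rw [h3, Finset.card_union_of_disjoint, Finset.card_image_of_injective _ hs]
    rw [Finset.disjoint_left]
    intro t ht ht'
    rw [Finset.mem_filter, Finset.mem_sdiff, Finset.mem_image] at ht
    rw [Finset.mem_image] at ht'
    obtain ⟨i, _, hi⟩ := ht'
    exact ht.1.2 ⟨i, Finset.mem_univ _, hi⟩
  rw [h2] at h1
  constructor
  · intro _
    have h4 : (univ.filter (fun i : Fin q => lam (π i) = a)).card ≤ 1 := by
      rw [Finset.card_le_one]
      intro i hi j hj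
      rw [Finset.mem_filter] at hi hj
      exact π.injective (hinjl (hi.2.trans hj.2.symm))
    omega
  · intro h
    have h4 : (univ.filter (fun i : Fin q => lam (π i) = a)).card = 0 := by
      rw [Finset.card_eq_zero, Finset.filter_eq_empty_iff]
      intro i _ e
      exact h ⟨_, e⟩
    omega

/-- The state of the induction. -/
structure QQ (R : Finset ι) (y : W k l ι) (α β : ℕ) : Prop where
  pr : PR R y
  ne : y ≠ 0
  ev : ∀ w, y w ≠ 0 → ∀ i : Fin k, α ≤ cntR R (Sum.inl i) w
  od : ∀ w, y w ≠ 0 → ∀ j : Fin l, β ≤ cntR R (Sum.inr j) w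

/-- Iterated contraction. -/
noncomputable def Drows {q : ℕ} (lam : Fin q → Lt k l) : (r : ℕ) → (Fin r → Fin q → ι) →
    W k l ι → W k l ι
  | 0, _, y => y
  | r + 1, p, y => Drows lam r (Fin.tail p) (Dop lam (p 0) y)

theorem cntR_pos {R : Finset ι} {a : Lt k l} {w : ι → Lt k l} {c : ℕ}
    (h : c + 1 ≤ cntR R a w) : ∃ s ∈ R, w s = a := by
  have : (R.filter (fun s => w s = a)).Nonempty := by
    rw [← Finset.card_pos]; unfold cntR at h; omega
  obtain ⟨s, hs⟩ := this
  rw [Finset.mem_filter] at hs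
  exact ⟨s, hs⟩

theorem step_ev {R : Finset ι} {y : W k l ι} {α β : ℕ} (h : QQ R y (α + 1) β) :
    ∃ s : Fin k → ι, Function.Injective s ∧ (∀ i, s i ∈ R) ∧
      QQ (R \ univ.image s) (Dop (Sum.inl : Fin k → Lt k l) s y) α β := by
  classical
  obtain ⟨w, hw⟩ := Function.ne_iff.1 h.ne
  have hlt : ∀ i j : Fin k, i < j → idx (Sum.inl i : Lt k l) < idx (Sum.inl j : Lt k l) :=
    fun i j hij => hij
  obtain ⟨s, hs1, hs2, hs3⟩ := exists_Dop (lam := (Sum.inl : Fin k → Lt k l)) hlt
    (fun _ _ => rfl) h.pr hw (fun i => cntR_pos (h.ev w hw i))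
  refine ⟨s, hs1, hs2, ?_, ?_, ?_, ?_⟩
  · refine Dop_PR Sum.inl_injective ?_ hs1 hs2 h.pr
    rintro a b hab ⟨i, rfl⟩
    rcases b with b | b
    · exact ⟨b, rfl⟩
    · simp at hab
  · intro e; apply hs3; rw [e]; rfl
  · intro w' hw' i
    have := (Dop_cnt Sum.inl_injective hs1 hs2 (fun w h' => h.ev w h' i) hw').1 ⟨i, rfl⟩
    omega
  · intro w' hw' j
    exact (Dop_cnt Sum.inl_injective hs1 hs2 (fun w h' => h.od w h' j) hw').2
      (by rintro ⟨i, hi⟩; simp at hi)

theorem step_od {R : Finset ι} {y : W k l ι} {α β : ℕ} (h : QQ R y α (β + 1)) :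
    ∃ s : Fin l → ι, Function.Injective s ∧ (∀ i, s i ∈ R) ∧
      QQ (R \ univ.image s) (Dop (Sum.inr : Fin l → Lt k l) s y) α β := by
  classical
  obtain ⟨w, hw⟩ := Function.ne_iff.1 h.ne
  have hlt : ∀ i j : Fin l, i < j → idx (Sum.inr i : Lt k l) < idx (Sum.inr j : Lt k l) := by
    intro i j hij
    simp only [idx, Sum.elim_inr]
    rw [Fin.lt_def] at hij
    omega
  obtain ⟨s, hs1, hs2, hs3⟩ := exists_Dop (lam := (Sum.inr : Fin l → Lt k l)) hlt
    (fun _ _ => rfl) h.pr hw (fun i => cntR_pos (h.od w hw i))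
  refine ⟨s, hs1, hs2, ?_, ?_, ?_, ?_⟩
  · refine Dop_PR Sum.inr_injective ?_ hs1 hs2 h.pr
    rintro a b hab ⟨i, rfl⟩
    rcases b with b | b
    · simp at hab
    · exact ⟨b, rfl⟩
  · intro e; apply hs3; rw [e]; rfl
  · intro w' hw' i
    exact (Dop_cnt Sum.inr_injective hs1 hs2 (fun w h' => h.ev w h' i) hw').2
      (by rintro ⟨i, hi⟩; simp at hi)
  · intro w' hw' j
    have := (Dop_cnt Sum.inr_injective hs1 hs2 (fun w h' => h.od w h' j) hw').1 ⟨j, rfl⟩
    omega

theorem rows_ev : ∀ (r : ℕ) (R : Finset ι) (y : W k l ι) (α β : ℕ), QQ R y (α + r) β →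
    ∃ p : Fin r → Fin k → ι, Function.Injective (fun x : Fin r × Fin k => p x.1 x.2) ∧
      (∀ i j, p i j ∈ R) ∧
      QQ (R \ univ.image (fun x : Fin r × Fin k => p x.1 x.2))
        (Drows (Sum.inl : Fin k → Lt k l) r p y) α β := by
  classical
  intro r
  induction r with
  | zero =>
    intro R y α β h
    refine ⟨Fin.elim0, fun x => x.1.elim0, fun i => i.elim0, ?_⟩
    have : (univ : Finset (Fin 0 × Fin k)) = ∅ := Finset.univ_eq_empty
    rw [this, Finset.image_empty, Finset.sdiff_empty]
    exact h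
  | succ r ih =>
    intro R y α β h
    obtain ⟨s, hs1, hs2, hs3⟩ := step_ev (α := α + r) h
    obtain ⟨p, hp1, hp2, hp3⟩ := ih _ _ _ _ hs3
    refine ⟨Fin.cons s p, ?_, ?_, ?_⟩
    · rintro ⟨i, j⟩ ⟨i', j'⟩ hij
      simp only at hij
      rcases Fin.eq_zero_or_eq_succ i with rfl | ⟨i, rfl⟩ <;>
        rcases Fin.eq_zero_or_eq_succ i' with rfl | ⟨i', rfl⟩
      · rw [Fin.cons_zero] at hij; rw [hs1 hij]
      · rw [Fin.cons_zero, Fin.cons_succ] at hij
        have := hp2 i' j'
        rw [← hij, Finset.mem_sdiff] at this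
        exact absurd (Finset.mem_image.2 ⟨j, Finset.mem_univ _, rfl⟩) this.2
      · rw [Fin.cons_zero, Fin.cons_succ] at hij
        have := hp2 i j
        rw [hij, Finset.mem_sdiff] at this
        exact absurd (Finset.mem_image.2 ⟨j', Finset.mem_univ _, rfl⟩) this.2
      · rw [Fin.cons_succ, Fin.cons_succ] at hij
        have := @hp1 (i, j) (i', j') hij
        simp only [Prod.mk.injEq] at this
        rw [this.1, this.2]
    · intro i j
      rcases Fin.eq_zero_or_eq_succ i with rfl | ⟨i, rfl⟩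
      · rw [Fin.cons_zero]; exact hs2 j
      · rw [Fin.cons_succ]; exact (Finset.mem_sdiff.1 (hp2 i j)).1
    · have h1 : R \ univ.image (fun x : Fin (r + 1) × Fin k => (Fin.cons s p :
          Fin (r + 1) → Fin k → ι) x.1 x.2)
          = (R \ univ.image s) \ univ.image (fun x : Fin r × Fin k => p x.1 x.2) := by
        ext t
        simp only [Finset.mem_sdiff, Finset.mem_image, Finset.mem_univ, true_and,
          Prod.exists, Fin.exists_fin_succ, Fin.cons_zero, Fin.cons_succ]
        rw [not_or, and_assoc]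
      rw [h1]
      exact hp3

theorem rows_od : ∀ (r : ℕ) (R : Finset ι) (y : W k l ι) (α β : ℕ), QQ R y α (β + r) →
    ∃ p : Fin r → Fin l → ι, Function.Injective (fun x : Fin r × Fin l => p x.1 x.2) ∧
      (∀ i j, p i j ∈ R) ∧
      QQ (R \ univ.image (fun x : Fin r × Fin l => p x.1 x.2))
        (Drows (Sum.inr : Fin l → Lt k l) r p y) α β := by
  classical
  intro r
  induction r with
  | zero =>
    intro R y α β h
    refine ⟨Fin.elim0, fun x => x.1.elim0, fun i => i.elim0, ?_⟩
    have : (univ : Finset (Fin 0 × Fin l)) = ∅ := Finset.univ_eq_empty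
    rw [this, Finset.image_empty, Finset.sdiff_empty]
    exact h
  | succ r ih =>
    intro R y α β h
    obtain ⟨s, hs1, hs2, hs3⟩ := step_od (β := β + r) h
    obtain ⟨p, hp1, hp2, hp3⟩ := ih _ _ _ _ hs3
    refine ⟨Fin.cons s p, ?_, ?_, ?_⟩
    · rintro ⟨i, j⟩ ⟨i', j'⟩ hij
      simp only at hij
      rcases Fin.eq_zero_or_eq_succ i with rfl | ⟨i, rfl⟩ <;>
        rcases Fin.eq_zero_or_eq_succ i' with rfl | ⟨i', rfl⟩
      · rw [Fin.cons_zero] at hij; rw [hs1 hij]
      · rw [Fin.cons_zero, Fin.cons_succ] at hij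
        have := hp2 i' j'
        rw [← hij, Finset.mem_sdiff] at this
        exact absurd (Finset.mem_image.2 ⟨j, Finset.mem_univ _, rfl⟩) this.2
      · rw [Fin.cons_zero, Fin.cons_succ] at hij
        have := hp2 i j
        rw [hij, Finset.mem_sdiff] at this
        exact absurd (Finset.mem_image.2 ⟨j', Finset.mem_univ _, rfl⟩) this.2
      · rw [Fin.cons_succ, Fin.cons_succ] at hij
        have := @hp1 (i, j) (i', j') hij
        simp only [Prod.mk.injEq] at this
        rw [this.1, this.2]
    · intro i j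
      rcases Fin.eq_zero_or_eq_succ i with rfl | ⟨i, rfl⟩
      · rw [Fin.cons_zero]; exact hs2 j
      · rw [Fin.cons_succ]; exact (Finset.mem_sdiff.1 (hp2 i j)).1
    · have h1 : R \ univ.image (fun x : Fin (r + 1) × Fin l => (Fin.cons s p :
          Fin (r + 1) → Fin l → ι) x.1 x.2)
          = (R \ univ.image s) \ univ.image (fun x : Fin r × Fin l => p x.1 x.2) := by
        ext t
        simp only [Finset.mem_sdiff, Finset.mem_image, Finset.mem_univ, true_and,
          Prod.exists, Fin.exists_fin_succ, Fin.cons_zero, Fin.cons_succ]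
        rw [not_or, and_assoc]
      rw [h1]
      exact hp3

end Pool.PI34.Super

end

/-! ### part Rl3 -/
section

/-!
PI34, rational lemma, file 3: a highest weight vector with large weights pairs with
some `σ (e_v ⊗ ξ)`.
-/

set_option linter.unusedSectionVars false
set_option linter.unusedSimpArgs false

namespace Pool.PI34.Super

open Equiv Finset

variable {k l : ℕ} {ι : Type} [Fintype ι] [LinearOrder ι]

theorem Drows_apply {q : ℕ} (lam : Fin q → Lt k l) : ∀ (r : ℕ) (p : Fin r → Fin q → ι)
    (_ : Function.Injective (fun x : Fin r × Fin q => p x.1 x.2)) (y : W k l ι)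
    (w : ι → Lt k l),
    Drows lam r p y w = ∑ π : Fin r → Perm (Fin q), (∏ j, ((Perm.sign (π j) : ℤ) : ℚ)) *
      y (Function.extend (fun x : Fin r × Fin q => p x.1 x.2) (fun x => lam (π x.1 x.2)) w) := by
  classical
  intro r
  induction r with
  | zero =>
    intro p _ y w
    rw [Fintype.sum_unique]
    have : ∀ u : Fin 0 × Fin q → Lt k l,
        Function.extend (fun x : Fin 0 × Fin q => p x.1 x.2) u w = w := by
      intro u
      funext x
      rw [Function.extend_apply']
      rintro ⟨⟨i, _⟩, _⟩; exact i.elim0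
    rw [this]
    simp [Drows]
  | succ r ih =>
    intro p hp y w
    have hp' : Function.Injective (fun x : Fin r × Fin q => Fin.tail p x.1 x.2) := by
      rintro ⟨i, j⟩ ⟨i', j'⟩ h
      have := @hp (i.succ, j) (i'.succ, j') h
      simp only [Prod.mk.injEq, Fin.succ_inj] at this
      rw [this.1, this.2]
    have h0 : Function.Injective (p 0) := by
      intro j j' h
      have := @hp (0, j) (0, j') h
      simp only [Prod.mk.injEq] at this
      exact this.2
    unfold Drows
    rw [ih (Fin.tail p) hp', ← (Fin.consEquiv (fun _ : Fin (r + 1) => Perm (Fin q))).sum_comp,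
      Fintype.sum_prod_type, Finset.sum_comm]
    refine Finset.sum_congr rfl (fun π _ => ?_)
    unfold Dop
    rw [Finset.mul_sum]
    refine Finset.sum_congr rfl (fun π0 _ => ?_)
    have h1 : (Fin.consEquiv (fun _ : Fin (r + 1) => Perm (Fin q))) (π0, π)
        = (Fin.cons π0 π : Fin (r + 1) → Perm (Fin q)) := rfl
    rw [h1, Fin.prod_univ_succ, Fin.cons_zero]
    simp only [Fin.cons_succ]
    have h2 : Function.extend (p 0) (lam ∘ π0) (Function.extend (fun x : Fin r × Fin q =>
        Fin.tail p x.1 x.2) (fun x => lam (π x.1 x.2)) w)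
        = Function.extend (fun x : Fin (r + 1) × Fin q => p x.1 x.2)
          (fun x => lam ((Fin.cons π0 π : Fin (r + 1) → Perm (Fin q)) x.1 x.2)) w := by
      funext x
      by_cases hx : ∃ j, p 0 j = x
      · obtain ⟨j, rfl⟩ := hx
        rw [h0.extend_apply]
        have := hp.extend_apply (fun x : Fin (r + 1) × Fin q =>
          lam ((Fin.cons π0 π : Fin (r + 1) → Perm (Fin q)) x.1 x.2)) w (0, j)
        simp only [Fin.cons_zero] at this
        rw [this]; rfl
      · rw [Function.extend_apply' _ _ _ hx]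
        by_cases hx2 : ∃ a : Fin r × Fin q, Fin.tail p a.1 a.2 = x
        · obtain ⟨a, rfl⟩ := hx2
          have e1 := hp'.extend_apply (fun x : Fin r × Fin q => lam (π x.1 x.2)) w a
          have e2 := hp.extend_apply (fun x : Fin (r + 1) × Fin q =>
            lam ((Fin.cons π0 π : Fin (r + 1) → Perm (Fin q)) x.1 x.2)) w (a.1.succ, a.2)
          simp only [Fin.cons_succ] at e2
          rw [e1]
          exact e2.symm
        · rw [Function.extend_apply' _ _ _ hx2, Function.extend_apply']
          rintro ⟨⟨i, j⟩, hi⟩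
          rcases Fin.eq_zero_or_eq_succ i with rfl | ⟨i, rfl⟩
          · exact hx ⟨j, hi⟩
          · exact hx2 ⟨(i, j), hi⟩
    rw [h2]
    ring

/-- The word given by two families of permutations. -/
def UU (π : Fin l → Perm (Fin k)) (π' : Fin k → Perm (Fin l)) : Fin (mm k l) → Lt k l :=
  fun s => Sum.elim (fun x : Fin l × Fin k => (Sum.inl (π x.1 x.2) : Lt k l))
    (fun x : Fin k × Fin l => (Sum.inr (π' x.1 x.2) : Lt k l)) ((catEquiv k l).symm s)

theorem UU_pos1 (π : Fin l → Perm (Fin k)) (π' : Fin k → Perm (Fin l)) (x : Fin l × Fin k) :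
    UU π π' (pos1 k l x) = Sum.inl (π x.1 x.2) := by
  unfold UU pos1; rw [Equiv.symm_apply_apply]; rfl

theorem UU_pos2 (π : Fin l → Perm (Fin k)) (π' : Fin k → Perm (Fin l)) (x : Fin k × Fin l) :
    UU π π' (pos2 k l x) = Sum.inr (π' x.1 x.2) := by
  unfold UU pos2; rw [Equiv.symm_apply_apply]; rfl

theorem DD_expand {ι : Type} [DecidableEq ι] {r n : ℕ} (pos : Fin r × Fin n → ι)
    (lam : Fin n → Lt k l) (w : ι → Lt k l) :
    DD pos lam w = ∑ π : Fin r → Perm (Fin n), (∏ j, ((Perm.sign (π j) : ℤ) : ℚ)) *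
      (if ∀ x : Fin r × Fin n, w (pos x) = lam (π x.1 x.2) then 1 else 0) := by
  classical
  unfold DD
  have h1 : ∀ j, (MM pos lam w j).det = ∑ π : Perm (Fin n), ((Perm.sign π : ℤ) : ℚ) *
      (if ∀ i, w (pos (j, i)) = lam (π i) then 1 else 0) := by
    intro j
    rw [← Matrix.det_transpose, Matrix.det_apply']
    refine Finset.sum_congr rfl (fun π _ => ?_)
    congr 1
    simp only [Matrix.transpose_apply, MM_apply]
    by_cases h : ∀ i, w (pos (j, i)) = lam (π i)
    · rw [if_pos h]
      exact Finset.prod_eq_one (fun i _ => by rw [if_pos (h i)])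
    · rw [if_neg h]
      push Not at h
      obtain ⟨i, hi⟩ := h
      exact Finset.prod_eq_zero (Finset.mem_univ i) (by rw [if_neg hi])
  rw [Finset.prod_congr rfl (fun j _ => h1 j), Finset.prod_univ_sum, Fintype.piFinset_univ]
  refine Finset.sum_congr rfl (fun π _ => ?_)
  rw [Finset.prod_mul_distrib]
  congr 1
  by_cases h : ∀ x : Fin r × Fin n, w (pos x) = lam (π x.1 x.2)
  · rw [if_pos h]
    exact Finset.prod_eq_one (fun j _ => by rw [if_pos (fun i => h (j, i))])
  · rw [if_neg h]
    push Not at h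
    obtain ⟨⟨j, i⟩, hi⟩ := h
    refine Finset.prod_eq_zero (Finset.mem_univ j) ?_
    rw [if_neg]
    intro h; exact hi (h i)

theorem xi_expand (u : Fin (mm k l) → Lt k l) :
    xi k l u = ∑ π : Fin l → Perm (Fin k), ∑ π' : Fin k → Perm (Fin l),
      (∏ j, ((Perm.sign (π j) : ℤ) : ℚ)) * (∏ j, ((Perm.sign (π' j) : ℤ) : ℚ)) *
      (if u = UU π π' then 1 else 0) := by
  classical
  unfold xi
  rw [DD_expand, DD_expand, Finset.sum_mul_sum]
  refine Finset.sum_congr rfl (fun π _ => Finset.sum_congr rfl (fun π' _ => ?_))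
  have h : (u = UU π π') ↔ ((∀ x : Fin l × Fin k, u (pos1 k l x) = Sum.inl (π x.1 x.2)) ∧
      (∀ x : Fin k × Fin l, u (pos2 k l x) = Sum.inr (π' x.1 x.2))) := by
    constructor
    · rintro rfl
      exact ⟨fun x => UU_pos1 π π' x, fun x => UU_pos2 π π' x⟩
    · rintro ⟨h1, h2⟩
      funext s
      obtain ⟨x, rfl⟩ := (catEquiv k l).surjective s
      rcases x with x | x
      · exact (h1 x).trans (UU_pos1 π π' x).symm
      · exact (h2 x).trans (UU_pos2 π π' x).symm
  by_cases h1 : ∀ x : Fin l × Fin k, u (pos1 k l x) = Sum.inl (π x.1 x.2)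
  · by_cases h2 : ∀ x : Fin k × Fin l, u (pos2 k l x) = Sum.inr (π' x.1 x.2)
    · rw [if_pos h1, if_pos h2, if_pos (h.2 ⟨h1, h2⟩)]; ring
    · rw [if_neg h2, if_neg (fun h3 => h2 (h.1 h3).2)]; ring
  · rw [if_neg h1, if_neg (fun h3 => h1 (h.1 h3).1)]; ring

theorem xi_sum (g : (Fin (mm k l) → Lt k l) → ℚ) :
    ∑ u, xi k l u * g u = ∑ π : Fin l → Perm (Fin k), ∑ π' : Fin k → Perm (Fin l),
      (∏ j, ((Perm.sign (π j) : ℤ) : ℚ)) * (∏ j, ((Perm.sign (π' j) : ℤ) : ℚ)) *
      g (UU π π') := by
  classical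
  simp only [xi_expand, Finset.sum_mul]
  rw [Finset.sum_comm]
  refine Finset.sum_congr rfl (fun π _ => ?_)
  rw [Finset.sum_comm]
  refine Finset.sum_congr rfl (fun π' _ => ?_)
  rw [Finset.sum_eq_single (UU π π')]
  · rw [if_pos rfl]; ring
  · intro u _ hu
    rw [if_neg hu]; ring
  · intro h; exact absurd (Finset.mem_univ _) h

theorem xi_parity {u : Fin (mm k l) → Lt k l} (hu : xi k l u ≠ 0) :
    pv u = fun s => ((catEquiv k l).symm s).isRight := by
  classical
  rw [xi_expand] at hu
  obtain ⟨π, _, h1⟩ := Finset.exists_ne_zero_of_sum_ne_zero hu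
  obtain ⟨π', _, h2⟩ := Finset.exists_ne_zero_of_sum_ne_zero h1
  have h3 : u = UU π π' := by
    by_contra h
    rw [if_neg h, mul_zero] at h2
    exact h2 rfl
  rw [h3]
  funext s
  obtain ⟨x, rfl⟩ := (catEquiv k l).surjective s
  unfold pv UU
  rw [Equiv.symm_apply_apply]
  rcases x with x | x <;> rfl

theorem inv_app' {α : Type*} (σ : Perm α) (x : α) : σ⁻¹ (σ x) = x := σ.symm_apply_apply x

theorem app_inv' {α : Type*} (σ : Perm α) (x : α) : σ (σ⁻¹ x) = x := σ.apply_symm_apply x

theorem exists_perm_extending {n m : ℕ} (P : Fin m → Fin (n + m)) (hP : Function.Injective P) :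
    ∃ σ : Perm (Fin (n + m)), ∀ s, σ (phR n m s) = P s := by
  classical
  let e : {x // x ∈ Set.range (phR n m)} ≃ {x // x ∈ Set.range P} :=
    (Equiv.ofInjective _ (phR n m).injective).symm.trans (Equiv.ofInjective _ hP)
  refine ⟨e.extendSubtype, fun s => ?_⟩
  have := e.extendSubtype_apply_of_mem (phR n m s) ⟨s, rfl⟩
  rw [this]
  change ((Equiv.ofInjective _ hP) ((Equiv.ofInjective _ (phR n m).injective).symm
    ⟨phR n m s, ⟨s, rfl⟩⟩) : Fin (n + m)) = P s
  have h2 : (Equiv.ofInjective _ (phR n m).injective).symm ⟨phR n m s, ⟨s, rfl⟩⟩ = s := by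
    rw [Equiv.symm_apply_eq]; rfl
  rw [h2]; rfl

/-- The pairing statement. -/
theorem exists_pair {n : ℕ} {x : W k l (Fin (n + mm k l))} {α β : ℕ}
    (hx : QQ univ x (α + l) (β + k)) :
    ∃ (σ : Perm (Fin (n + mm k l))) (v : Fin n → Lt k l),
      ip x (rho k l _ σ (tn v (xi k l))) ≠ 0 := by
  classical
  obtain ⟨p, hp1, hp2, hp3⟩ := rows_ev l univ x α (β + k) hx
  obtain ⟨p', hp'1, hp'2, hp'3⟩ := rows_od k _ _ α β hp3
  obtain ⟨w, hw⟩ := Function.ne_iff.1 hp'3.ne
  have hw' : Drows (Sum.inr : Fin l → Lt k l) k p' (Drows (Sum.inl : Fin k → Lt k l) l p x) w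
    ≠ 0 := hw
  rw [Drows_apply _ _ _ hp'1] at hw'
  simp only [Drows_apply _ _ _ hp1] at hw'
  -- the positions
  let P : Fin (mm k l) → Fin (n + mm k l) := fun s =>
    Sum.elim (fun x : Fin l × Fin k => p x.1 x.2) (fun x : Fin k × Fin l => p' x.1 x.2)
      ((catEquiv k l).symm s)
  have hP1 : ∀ x, P (pos1 k l x) = p x.1 x.2 := by
    intro x; simp only [P, pos1, Equiv.symm_apply_apply]; rfl
  have hP2 : ∀ x, P (pos2 k l x) = p' x.1 x.2 := by
    intro x; simp only [P, pos2, Equiv.symm_apply_apply]; rfl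
  have hdis : ∀ (x : Fin l × Fin k) (x' : Fin k × Fin l), p x.1 x.2 ≠ p' x'.1 x'.2 := by
    intro x x' e
    have := hp'2 x'.1 x'.2
    rw [Finset.mem_sdiff, Finset.mem_image] at this
    exact this.2 ⟨x, Finset.mem_univ _, e⟩
  have hPinj : Function.Injective P := by
    intro s t hst
    obtain ⟨a, rfl⟩ := (catEquiv k l).surjective s
    obtain ⟨b, rfl⟩ := (catEquiv k l).surjective t
    simp only [P, Equiv.symm_apply_apply] at hst
    rcases a with a | a <;> rcases b with b | b
    · simp only [Sum.elim_inl] at hst; rw [hp1 hst]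
    · simp only [Sum.elim_inl, Sum.elim_inr] at hst; exact absurd hst (hdis a b)
    · simp only [Sum.elim_inl, Sum.elim_inr] at hst; exact absurd hst.symm (hdis b a)
    · simp only [Sum.elim_inr] at hst; rw [hp'1 hst]
  have hword : ∀ (π : Fin l → Perm (Fin k)) (π' : Fin k → Perm (Fin l)),
      Function.extend (fun x : Fin l × Fin k => p x.1 x.2)
        (fun x => (Sum.inl (π x.1 x.2) : Lt k l))
        (Function.extend (fun x : Fin k × Fin l => p' x.1 x.2)
          (fun x => (Sum.inr (π' x.1 x.2) : Lt k l)) w)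
      = Function.extend P (UU π π') w := by
    intro π π'
    funext t
    by_cases h1 : ∃ a : Fin l × Fin k, p a.1 a.2 = t
    · obtain ⟨a, rfl⟩ := h1
      have e1 := hp1.extend_apply (fun x : Fin l × Fin k => (Sum.inl (π x.1 x.2) : Lt k l))
        (Function.extend (fun x : Fin k × Fin l => p' x.1 x.2)
          (fun x => (Sum.inr (π' x.1 x.2) : Lt k l)) w) a
      rw [e1, ← hP1 a, hPinj.extend_apply, UU_pos1]
    · rw [Function.extend_apply' _ _ _ h1]
      by_cases h2 : ∃ a : Fin k × Fin l, p' a.1 a.2 = t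
      · obtain ⟨a, rfl⟩ := h2
        have e1 := hp'1.extend_apply (fun x : Fin k × Fin l => (Sum.inr (π' x.1 x.2) : Lt k l))
          w a
        rw [e1, ← hP2 a, hPinj.extend_apply, UU_pos2]
      · rw [Function.extend_apply' _ _ _ h2, Function.extend_apply']
        rintro ⟨s, hs⟩
        obtain ⟨a, rfl⟩ := (catEquiv k l).surjective s
        rcases a with a | a
        · exact h1 ⟨a, by rw [← hP1 a]; exact hs⟩
        · exact h2 ⟨a, by rw [← hP2 a]; exact hs⟩
  have hsum : ∑ u, xi k l u * x (Function.extend P u w) ≠ 0 := by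
    rw [xi_sum]
    rw [Finset.sum_comm]
    refine ne_of_eq_of_ne ?_ hw'
    refine Finset.sum_congr rfl (fun π' _ => ?_)
    rw [Finset.mul_sum]
    refine Finset.sum_congr rfl (fun π _ => ?_)
    rw [hword]
    ring
  obtain ⟨σ, hσ⟩ := exists_perm_extending P hPinj
  refine ⟨σ, (w ∘ σ) ∘ phL n (mm k l), ?_⟩
  set v := (w ∘ σ) ∘ phL n (mm k l) with hv
  have h1 : ip x (rho k l _ σ (tn v (xi k l)))
      = ∑ u : Fin (mm k l) → Lt k l, x (Function.extend P u w) *
        (eps σ (pv (Fin.append v u)) * xi k l u) := by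
    unfold ip
    have h2 : ∀ w', x w' * rho k l _ σ (tn v (xi k l)) w'
        = (fun w'' : Fin (n + mm k l) → Lt k l => x (w'' ∘ ⇑σ⁻¹) *
          (eps σ (pv w'') * tn v (xi k l) w'')) (w' ∘ σ) := by
      intro w'
      simp only [rho_apply]
      congr 2
      funext t; simp
    rw [Finset.sum_congr rfl (fun w' _ => h2 w')]
    refine ((Equiv.arrowCongr σ.symm (Equiv.refl (Lt k l))).sum_comp
      (fun w'' : Fin (n + mm k l) → Lt k l => x (w'' ∘ ⇑σ⁻¹) *
          (eps σ (pv w'') * tn v (xi k l) w''))).trans ?_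
    rw [← (Fin.appendEquiv n (mm k l)).sum_comp, Fintype.sum_prod_type,
      Finset.sum_eq_single v]
    · refine Finset.sum_congr rfl (fun u _ => ?_)
      have h3 : Fin.appendEquiv n (mm k l) (v, u) = Fin.append v u := rfl
      rw [h3, tn_apply]
      have h4 : Fin.append v u ∘ phL n (mm k l) = v := by
        funext i; exact Fin.append_left v u i
      have h5 : Fin.append v u ∘ phR n (mm k l) = u := by
        funext i; exact Fin.append_right v u i
      rw [h4, h5, if_pos rfl]
      congr 2
      funext t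
      by_cases ht : ∃ s, P s = t
      · obtain ⟨s, rfl⟩ := ht
        rw [hPinj.extend_apply, Function.comp_apply, ← hσ s]
        rw [inv_app']
        exact Fin.append_right v u s
      · rw [Function.extend_apply' _ _ _ ht, Function.comp_apply]
        have h6 : ∀ s, σ⁻¹ t ≠ phR n (mm k l) s := by
          intro s e
          apply ht
          refine ⟨s, ?_⟩
          rw [← hσ s, ← e, app_inv']
        obtain ⟨i, hi⟩ : ∃ i, σ⁻¹ t = phL n (mm k l) i := by
          refine Fin.addCases (motive := fun y => y = σ⁻¹ t → _) (fun i hi => ⟨i, hi.symm⟩)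
            (fun i hi => absurd hi.symm (h6 i)) (σ⁻¹ t) rfl
        rw [hi]
        have h7 : Fin.append v u (phL n (mm k l) i) = v i := Fin.append_left v u i
        rw [h7, hv, Function.comp_apply, Function.comp_apply, ← hi, app_inv']
    · intro v' _ hv'
      refine Finset.sum_eq_zero (fun u _ => ?_)
      have h3 : Fin.appendEquiv n (mm k l) (v', u) = Fin.append v' u := rfl
      rw [h3, tn_apply]
      have h4 : Fin.append v' u ∘ phL n (mm k l) = v' := by
        funext i; exact Fin.append_left v' u i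
      rw [h4, if_neg hv', mul_zero, mul_zero]
    · intro h; exact absurd (Finset.mem_univ _) h
  rw [h1]
  let χ : Fin (n + mm k l) → Bool := Fin.append (pv v)
    (fun s => ((catEquiv k l).symm s).isRight)
  have h2 : ∀ u : Fin (mm k l) → Lt k l, x (Function.extend P u w) *
        (eps σ (pv (Fin.append v u)) * xi k l u)
      = eps σ χ * (xi k l u * x (Function.extend P u w)) := by
    intro u
    by_cases hu : xi k l u = 0
    · rw [hu]; ring
    · have h3 : pv (Fin.append v u) = χ := by
        funext t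
        refine Fin.addCases (fun i => ?_) (fun i => ?_) t
        · simp only [χ, pv, Fin.append_left]
        · have := congrFun (xi_parity hu) i
          simp only [χ, pv, Fin.append_right] at *
          exact this
      rw [h3]; ring
  rw [Finset.sum_congr rfl (fun u _ => h2 u), ← Finset.mul_sum]
  refine mul_ne_zero ?_ hsum
  intro h
  have := eps_sq σ χ
  rw [h, mul_zero] at this
  exact zero_ne_one this

end Pool.PI34.Super

end

/-! ### part Rl4 -/
section

/-!
PI34, rational lemma, file 4: the ideal generated by the catalyst.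
-/

set_option linter.unusedSectionVars false
set_option linter.unusedSimpArgs false

namespace Pool.PI34.Super

open Equiv Finset

variable {k l : ℕ} {ι : Type} [Fintype ι] [LinearOrder ι]

/-- The anti-involution `σ ↦ σ⁻¹` as an algebra map to the opposite algebra. -/
noncomputable def stHom (G : Type) [Group G] :
    MonoidAlgebra ℚ G →ₐ[ℚ] (MonoidAlgebra ℚ G)ᵐᵒᵖ :=
  MonoidAlgebra.lift ℚ _ _
    { toFun := fun g => MulOpposite.op (MonoidAlgebra.of ℚ G g⁻¹)
      map_one' := by rw [inv_one, map_one]; rfl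
      map_mul' := fun a b => by rw [mul_inv_rev, map_mul, MulOpposite.op_mul] }

/-- The anti-involution. -/
noncomputable def st {G : Type} [Group G] (a : MonoidAlgebra ℚ G) : MonoidAlgebra ℚ G :=
  (stHom G a).unop

theorem st_of {G : Type} [Group G] (g : G) :
    st (MonoidAlgebra.of ℚ G g) = MonoidAlgebra.of ℚ G g⁻¹ := by
  simp [st, stHom]

theorem st_mul {G : Type} [Group G] (a b : MonoidAlgebra ℚ G) : st (a * b) = st b * st a := by
  unfold st; rw [map_mul, MulOpposite.unop_mul]

theorem st_add {G : Type} [Group G] (a b : MonoidAlgebra ℚ G) : st (a + b) = st a + st b := by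
  unfold st; rw [map_add, MulOpposite.unop_add]

theorem st_smul {G : Type} [Group G] (c : ℚ) (a : MonoidAlgebra ℚ G) :
    st (c • a) = c • st a := by
  unfold st; rw [map_smul, MulOpposite.unop_smul]

theorem st_st {G : Type} [Group G] (a : MonoidAlgebra ℚ G) : st (st a) = a := by
  induction a using MonoidAlgebra.induction_on with
  | of g => rw [st_of, st_of, inv_inv]
  | add x y hx hy => rw [st_add, st_add, hx, hy]
  | smul r x hx => rw [st_smul, st_smul, hx]

theorem ip_add_left (f g h : W k l ι) : ip (f + g) h = ip f h + ip g h := by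
  unfold ip; rw [← Finset.sum_add_distrib]
  exact Finset.sum_congr rfl (fun w _ => by rw [Pi.add_apply]; ring)

theorem ip_smul_left (c : ℚ) (f g : W k l ι) : ip (c • f) g = c * ip f g := by
  unfold ip; rw [Finset.mul_sum]
  exact Finset.sum_congr rfl (fun w _ => by rw [Pi.smul_apply, smul_eq_mul]; ring)

theorem eps_inv (σ : Perm ι) (p : ι → Bool) :
    eps σ⁻¹ (fun i => p (σ.symm i)) = eps σ p := by
  have h := eps_mul σ⁻¹ σ p
  rw [inv_mul_cancel, eps_one] at h
  have h2 := eps_sq σ p
  calc eps σ⁻¹ (fun i => p (σ.symm i))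
      = eps σ⁻¹ (fun i => p (σ.symm i)) * (eps σ p * eps σ p) := by rw [h2, mul_one]
    _ = (eps σ⁻¹ (fun i => p (σ.symm i)) * eps σ p) * eps σ p := by ring
    _ = _ := by rw [← h, one_mul]

theorem rho_adj (σ : Perm ι) (f g : W k l ι) :
    ip (rho k l ι σ f) g = ip f (rho k l ι σ⁻¹ g) := by
  unfold ip
  refine Fintype.sum_equiv (Equiv.arrowCongr σ.symm (Equiv.refl (Lt k l))) _ _ (fun w => ?_)
  have h1 : (Equiv.arrowCongr σ.symm (Equiv.refl (Lt k l))) w = w ∘ σ := rfl
  rw [h1, rho_apply, rho_apply]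
  have h2 : (w ∘ σ) ∘ ⇑σ⁻¹ = w := by funext x; simp
  rw [h2]
  have h3 := eps_inv σ (pv (w ∘ σ))
  have h4 : (fun i => pv (w ∘ σ) (σ.symm i)) = pv w := by
    funext i; simp [pv]
  rw [h4] at h3
  rw [h3]; ring

theorem act_adj (y : MonoidAlgebra ℚ (Perm ι)) (f g : W k l ι) :
    ip (act k l ι y f) g = ip f (act k l ι (st y) g) := by
  induction y using MonoidAlgebra.induction_on with
  | of σ => rw [st_of, act_of, act_of]; exact rho_adj σ f g
  | add x y hx hy =>
    rw [map_add, LinearMap.add_apply, ip_add_left, hx, hy, st_add, map_add, LinearMap.add_apply,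
      ip_add_right]
  | smul r x hx =>
    rw [map_smul, LinearMap.smul_apply, ip_smul_left, hx, st_smul, map_smul,
      LinearMap.smul_apply, ip_smul_right]

/-- The ideal generated by `K(k|l)` and `Z`. -/
noncomputable def JJ (k l : ℕ) (Z : MonoidAlgebra ℚ (Perm ι)) :
    Submodule ℚ (MonoidAlgebra ℚ (Perm ι)) :=
  LinearMap.ker (act k l ι).toLinearMap ⊔ Submodule.span ℚ {x | ∃ a b, x = a * Z * b}

variable {Z : MonoidAlgebra ℚ (Perm ι)}

theorem ker_le_JJ {a : MonoidAlgebra ℚ (Perm ι)} (h : act k l ι a = 0) : a ∈ JJ k l Z :=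
  Submodule.mem_sup_left (by rw [LinearMap.mem_ker]; exact h)

theorem Z_mem_JJ (a b : MonoidAlgebra ℚ (Perm ι)) : a * Z * b ∈ JJ k l Z :=
  Submodule.mem_sup_right (Submodule.subset_span ⟨a, b, rfl⟩)

theorem JJ_left (c : MonoidAlgebra ℚ (Perm ι)) {a : MonoidAlgebra ℚ (Perm ι)}
    (ha : a ∈ JJ k l Z) : c * a ∈ JJ k l Z := by
  obtain ⟨x, hx, y, hy, rfl⟩ := Submodule.mem_sup.1 ha
  rw [mul_add]
  refine Submodule.add_mem _ (ker_le_JJ ?_) ?_
  · rw [LinearMap.mem_ker] at hx
    have hx' : act k l ι x = 0 := hx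
    rw [map_mul, hx', mul_zero]
  · induction hy using Submodule.span_induction with
    | mem y hy =>
      obtain ⟨a, b, rfl⟩ := hy
      have := Z_mem_JJ (k := k) (l := l) (Z := Z) (c * a) b
      simpa [mul_assoc] using this
    | zero => rw [mul_zero]; exact Submodule.zero_mem _
    | add y z _ _ hy hz =>
      rw [mul_add]
      refine Submodule.add_mem _ (hy ?_) (hz ?_)
      · exact Submodule.add_mem _ (Submodule.mem_sup_left hx) (Submodule.mem_sup_right ‹_›)
      · exact Submodule.add_mem _ (Submodule.mem_sup_left hx) (Submodule.mem_sup_right ‹_›)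
    | smul r y hy' hy =>
      rw [mul_smul_comm]
      refine Submodule.smul_mem _ _ (hy ?_)
      exact Submodule.add_mem _ (Submodule.mem_sup_left hx) (Submodule.mem_sup_right hy')

theorem JJ_right (c : MonoidAlgebra ℚ (Perm ι)) {a : MonoidAlgebra ℚ (Perm ι)}
    (ha : a ∈ JJ k l Z) : a * c ∈ JJ k l Z := by
  obtain ⟨x, hx, y, hy, rfl⟩ := Submodule.mem_sup.1 ha
  rw [add_mul]
  refine Submodule.add_mem _ (ker_le_JJ ?_) ?_
  · rw [LinearMap.mem_ker] at hx
    have hx' : act k l ι x = 0 := hx
    rw [map_mul, hx', zero_mul]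
  · induction hy using Submodule.span_induction with
    | mem y hy =>
      obtain ⟨a, b, rfl⟩ := hy
      have := Z_mem_JJ (k := k) (l := l) (Z := Z) a (b * c)
      simpa [mul_assoc] using this
    | zero => rw [zero_mul]; exact Submodule.zero_mem _
    | add y z _ _ hy hz =>
      rw [add_mul]
      refine Submodule.add_mem _ (hy ?_) (hz ?_)
      · exact Submodule.add_mem _ (Submodule.mem_sup_left hx) (Submodule.mem_sup_right ‹_›)
      · exact Submodule.add_mem _ (Submodule.mem_sup_left hx) (Submodule.mem_sup_right ‹_›)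
    | smul r y hy' hy =>
      rw [smul_mul_assoc]
      refine Submodule.smul_mem _ _ (hy ?_)
      exact Submodule.add_mem _ (Submodule.mem_sup_left hx) (Submodule.mem_sup_right hy')

/-- A complementary idempotent. -/
theorem JJ_split (k l : ℕ) (Z : MonoidAlgebra ℚ (Perm ι)) :
    ∃ e e' : MonoidAlgebra ℚ (Perm ι), e + e' = 1 ∧ e ∈ JJ k l Z ∧
      ∀ a ∈ JJ k l Z, a * e' = 0 := by
  let A := MonoidAlgebra ℚ (Perm ι)
  let J : Submodule A A :=
    { carrier := {a | a ∈ JJ k l Z}
      add_mem' := fun {a b} ha hb => by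
        change a + b ∈ JJ k l Z
        exact Submodule.add_mem _ ha hb
      zero_mem' := by
        change (0 : A) ∈ JJ k l Z
        exact Submodule.zero_mem _
      smul_mem' := fun c a ha => JJ_left c ha }
  obtain ⟨J', hJ⟩ := MonoidAlgebra.Submodule.exists_isCompl J
  have h1 : (1 : A) ∈ J ⊔ J' := by rw [hJ.sup_eq_top]; exact Submodule.mem_top
  obtain ⟨e, he, e', he', hee⟩ := Submodule.mem_sup.1 h1
  refine ⟨e, e', hee, he, fun a ha => ?_⟩
  have h3 : a * e' ∈ J' := J'.smul_mem a he'
  have h4 : a * e' ∈ J := by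
    have h5 : a * e' = a - a * e := by
      have h6 : a * (e + e') = a := by rw [hee, mul_one]
      rw [mul_add] at h6
      exact eq_sub_of_add_eq' h6
    rw [h5]
    exact J.sub_mem ha (J.smul_mem a he)
  have := hJ.disjoint
  rw [Submodule.disjoint_def] at this
  exact this _ h4 h3

/-- The ideal is stable under the anti-involution. -/
theorem JJ_st {a : MonoidAlgebra ℚ (Perm ι)} (ha : a ∈ JJ k l Z) : st a ∈ JJ k l Z := by
  obtain ⟨e, e', hee, he, h0⟩ := JJ_split k l Z
  have h1 : st a = st a * e + st a * e' := by rw [← mul_add, hee, mul_one]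
  have hb : act k l ι (st a * e') = 0 := by
    apply LinearMap.ext; intro f
    rw [LinearMap.zero_apply]
    by_contra hne
    apply ip_self_ne hne
    rw [act_adj, ← Module.End.mul_apply, ← map_mul, st_mul, st_st]
    have h2 : st e' * a * (st a * e') = st e' * ((a * st a) * e') := by
      simp only [mul_assoc]
    rw [h2, h0 _ (JJ_right _ ha), mul_zero, map_zero, LinearMap.zero_apply, ip_zero_right]
  rw [h1]
  exact Submodule.add_mem _ (JJ_left _ he) (ker_le_JJ hb)

/-- The ideal is an annihilator. -/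
theorem JJ_of_kill {y : MonoidAlgebra ℚ (Perm ι)}
    (hy : ∀ t : W k l ι, (∀ a ∈ JJ k l Z, act k l ι a t = 0) → act k l ι y t = 0) :
    y ∈ JJ k l Z := by
  obtain ⟨e, e', hee, he, h0⟩ := JJ_split k l Z
  have h1 : y = y * e + y * e' := by rw [← mul_add, hee, mul_one]
  have hb : act k l ι (y * e') = 0 := by
    apply LinearMap.ext; intro f
    rw [map_mul, Module.End.mul_apply, LinearMap.zero_apply]
    apply hy
    intro a ha
    rw [← Module.End.mul_apply, ← map_mul, h0 a ha, map_zero, LinearMap.zero_apply]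
  rw [h1]
  exact Submodule.add_mem _ (JJ_left _ he) (ker_le_JJ hb)

theorem EE_single (a : Lt k l) (u : ι → Lt k l) :
    EE a a (Pi.single u 1 : W k l ι) = (cnt a u : ℚ) • (Pi.single u 1 : W k l ι) := by
  funext w
  rw [EE_diag, Pi.smul_apply, smul_eq_mul]
  by_cases h : w = u
  · rw [h]
  · rw [Pi.single_eq_of_ne h, mul_zero, mul_zero]

theorem act_single_cnt (y : MonoidAlgebra ℚ (Perm ι)) (u w : ι → Lt k l)
    (h : act k l ι y (Pi.single u 1) w ≠ 0) (a : Lt k l) : cnt a w = cnt a u := by
  have h1 := LinearMap.congr_fun (act_EE y a a) (Pi.single u 1 : W k l ι)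
  simp only [Module.End.mul_apply, EE_single, map_smul] at h1
  have h2 := congrFun h1 w
  rw [EE_diag, Pi.smul_apply, smul_eq_mul] at h2
  have h3 := mul_right_cancel₀ h h2
  exact_mod_cast h3.symm

/-- RATIONAL LEMMA: an element which kills all words in which some even letter occurs less
than `l` times or some odd letter less than `k` times lies in the ideal generated by
`K(k|l)` and the catalyst. -/
theorem rational_lemma {n : ℕ} (C : Cat k l (mm k l)) (hC : C.ξ = xi k l)
    (y : MonoidAlgebra ℚ (Perm (Fin (n + mm k l))))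
    (hy : ∀ u : Fin (n + mm k l) → Lt k l, act k l _ y (Pi.single u 1) ≠ 0 →
      (∀ i : Fin k, l ≤ cnt (Sum.inl i) u) ∧ (∀ j : Fin l, k ≤ cnt (Sum.inr j) u)) :
    y ∈ JJ k l (C.Z n) := by
  classical
  by_contra hcon
  have h1 : ∃ t : W k l (Fin (n + mm k l)), (∀ a ∈ JJ k l (C.Z n), act k l _ a t = 0) ∧
      act k l _ y t ≠ 0 := by
    by_contra h
    push Not at h
    exact hcon (JJ_of_kill h)
  obtain ⟨t, ht, hyt⟩ := h1
  let T : Submodule ℚ (W k l (Fin (n + mm k l))) :=
    { carrier := {t | ∀ a ∈ JJ k l (C.Z n), act k l _ a t = 0}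
      add_mem' := fun {x y} hx hy a ha => by rw [map_add, hx a ha, hy a ha, add_zero]
      zero_mem' := fun a _ => map_zero _
      smul_mem' := fun c x hx a ha => by rw [map_smul, hx a ha, smul_zero] }
  have hTE : ∀ a b : Lt k l, ∀ t ∈ T, EE a b t ∈ T := by
    intro a b t ht c hc
    have h := LinearMap.congr_fun (act_EE c a b) t
    simp only [Module.End.mul_apply] at h
    rw [h, ht c hc, map_zero]
  let N : Submodule ℚ (W k l (Fin (n + mm k l))) := T.map (act k l _ y)
  have hNE : ∀ a b : Lt k l, ∀ v ∈ N, EE a b v ∈ N := by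
    rintro a b _ ⟨t, ht, rfl⟩
    have h := LinearMap.congr_fun (act_EE y a b) t
    simp only [Module.End.mul_apply] at h
    rw [← h]
    exact ⟨_, hTE a b t ht, rfl⟩
  obtain ⟨x, hxN, hx0, hxr⟩ := exists_hw N hNE (univ.sup Pool.PI34.Super.ht) (act k l _ y t) ⟨t, ht, rfl⟩ hyt
    (fun w _ => Finset.le_sup (Finset.mem_univ w))
  obtain ⟨t', ht', rfl⟩ := hxN
  have hsupp : ∀ w, act k l _ y t' w ≠ 0 → (∀ i : Fin k, l ≤ cnt (Sum.inl i) w) ∧
      (∀ j : Fin l, k ≤ cnt (Sum.inr j) w) := by
    intro w hw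
    have h2 : t' = ∑ u, t' u • (Pi.single u 1 : W k l (Fin (n + mm k l))) := by
      funext w
      rw [Finset.sum_apply, Finset.sum_eq_single w]
      · simp
      · intro b _ hb; simp [Pi.single_apply, hb.symm]
      · intro h; exact absurd (Finset.mem_univ _) h
    rw [h2, map_sum, Finset.sum_apply] at hw
    obtain ⟨u, _, hu⟩ := Finset.exists_ne_zero_of_sum_ne_zero hw
    rw [map_smul, Pi.smul_apply, smul_eq_mul] at hu
    have h3 := right_ne_zero_of_mul hu
    have h4 : act k l _ y (Pi.single u 1) ≠ 0 := fun e => h3 (by rw [e]; rfl)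
    obtain ⟨h5, h6⟩ := hy u h4
    refine ⟨fun i => ?_, fun j => ?_⟩
    · rw [act_single_cnt y u w h3]; exact h5 i
    · rw [act_single_cnt y u w h3]; exact h6 j
  have hQ : QQ univ (act k l _ y t') (0 + l) (0 + k) := by
    refine ⟨fun a b _ hlt => hxr a b hlt, hx0, fun w hw i => ?_, fun w hw j => ?_⟩
    · rw [zero_add]; exact (hsupp w hw).1 i
    · rw [zero_add]; exact (hsupp w hw).2 j
  obtain ⟨σ, v, hσ⟩ := exists_pair hQ
  apply hσ
  have h7 : rho k l _ σ (tn v (xi k l))
      = act k l _ (MonoidAlgebra.of ℚ _ σ * C.Z n) (tn v (xi k l)) := by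
    rw [map_mul, Module.End.mul_apply, ← hC, C.act_Z, act_of]
  rw [h7, ← st_st (MonoidAlgebra.of ℚ _ σ * C.Z n), ← act_adj, ← Module.End.mul_apply,
    ← map_mul]
  have h8 : st (MonoidAlgebra.of ℚ _ σ * C.Z n) * y ∈ JJ k l (C.Z n) := by
    refine JJ_right _ (JJ_st ?_)
    have := Z_mem_JJ (k := k) (l := l) (Z := C.Z n) (MonoidAlgebra.of ℚ _ σ) 1
    rwa [mul_one] at this
  rw [ht' _ h8]
  unfold ip
  exact Finset.sum_eq_zero (fun w _ => by simp)

end Pool.PI34.Super

end

/-! ### part Rl5 -/
section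

/-!
PI34, rational lemma, file 5: products of elements of `K(k-1|l)` and `K(k|l-1)`.
-/

set_option linter.unusedSectionVars false
set_option linter.unusedSimpArgs false

namespace Pool.PI34.Super

open Equiv Finset

variable {k l k' l' : ℕ}

section pull

variable {ι : Type} [Fintype ι] [LinearOrder ι]

/-- Restriction to a smaller alphabet. -/
def pull (f : Lt k' l' → Lt k l) : W k l ι →ₗ[ℚ] W k' l' ι where
  toFun g := fun w => g (f ∘ w)
  map_add' _ _ := rfl
  map_smul' _ _ := rfl

theorem pull_rho {f : Lt k' l' → Lt k l} (hf : ∀ c, odd (f c) = odd c) (σ : Perm ι)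
    (g : W k l ι) : pull f (rho k l ι σ g) = rho k' l' ι σ (pull f g) := by
  funext w
  rw [rho_apply]
  change rho k l ι σ g (f ∘ w) = _
  rw [rho_apply]
  have h : pv ((f ∘ w) ∘ σ) = pv (w ∘ σ) := by
    funext i; exact hf _
  rw [h]; rfl

theorem pull_act {f : Lt k' l' → Lt k l} (hf : ∀ c, odd (f c) = odd c)
    (y : MonoidAlgebra ℚ (Perm ι)) (g : W k l ι) :
    pull f (act k l ι y g) = act k' l' ι y (pull f g) := by
  induction y using MonoidAlgebra.induction_on with
  | of σ => rw [act_of, act_of]; exact pull_rho hf σ g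
  | add x y hx hy =>
    rw [map_add, LinearMap.add_apply, map_add, hx, hy, map_add, LinearMap.add_apply]
  | smul r x hx =>
    rw [map_smul, LinearMap.smul_apply, map_smul, hx, map_smul, LinearMap.smul_apply]

theorem cnt_pos_iff {a : Lt k l} {w : ι → Lt k l} : 0 < cnt a w ↔ ∃ s, w s = a := by
  unfold cnt
  rw [Finset.card_pos]
  constructor
  · rintro ⟨s, hs⟩
    rw [Finset.mem_filter] at hs
    exact ⟨s, hs.2⟩
  · rintro ⟨s, hs⟩
    exact ⟨s, by rw [Finset.mem_filter]; exact ⟨Finset.mem_univ _, hs⟩⟩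

/-- Elements of `K(k'|l')` kill words with letters in the smaller alphabet. -/
theorem kill_small {f : Lt k' l' → Lt k l} (hf : ∀ c, odd (f c) = odd c)
    {y : MonoidAlgebra ℚ (Perm ι)} (hy : act k' l' ι y = 0) {u : ι → Lt k l}
    (hu : ∀ s, ∃ c, f c = u s) : act k l ι y (Pi.single u 1) = 0 := by
  classical
  by_contra hne
  obtain ⟨w, hw⟩ := Function.ne_iff.1 hne
  have hw' : act k l ι y (Pi.single u 1) w ≠ 0 := hw
  have h1 := act_single_cnt y u w hw'
  have h2 : ∀ s, ∃ c, f c = w s := by
    intro s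
    have h3 : 0 < cnt (w s) w := cnt_pos_iff.2 ⟨s, rfl⟩
    rw [h1] at h3
    obtain ⟨t, ht⟩ := cnt_pos_iff.1 h3
    obtain ⟨c, hc⟩ := hu t
    exact ⟨c, hc.trans ht⟩
  choose w' hw'' using h2
  have h4 : f ∘ w' = w := by funext s; exact hw'' s
  apply hw'
  have h5 := congrFun (pull_act hf y (Pi.single u 1 : W k l ι)) w'
  rw [hy, LinearMap.zero_apply] at h5
  change act k l ι y (Pi.single u 1) (f ∘ w') = 0 at h5
  rw [h4] at h5
  exact h5

/-- The embedding of alphabets omitting the even letter `i`. -/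
def fev (i : Fin (k + 1)) : Lt k l → Lt (k + 1) l :=
  Sum.map (Fin.succAbove i) id

/-- The embedding of alphabets omitting the odd letter `j`. -/
def fod (j : Fin (l + 1)) : Lt k l → Lt k (l + 1) :=
  Sum.map id (Fin.succAbove j)

theorem fev_odd (i : Fin (k + 1)) (c : Lt k l) : odd (fev i c) = odd c := by
  rcases c with c | c <;> rfl

theorem fod_odd (j : Fin (l + 1)) (c : Lt k l) : odd (fod j c) = odd c := by
  rcases c with c | c <;> rfl

theorem fev_range (i : Fin (k + 1)) (a : Lt (k + 1) l) (h : a ≠ Sum.inl i) :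
    ∃ c, fev i c = a := by
  rcases a with a | a
  · have : a ≠ i := fun e => h (by rw [e])
    obtain ⟨c, hc⟩ := Fin.exists_succAbove_eq this
    exact ⟨Sum.inl c, by simp [fev, hc]⟩
  · exact ⟨Sum.inr a, rfl⟩

theorem fod_range (j : Fin (l + 1)) (a : Lt k (l + 1)) (h : a ≠ Sum.inr j) :
    ∃ c, fod j c = a := by
  rcases a with a | a
  · exact ⟨Sum.inl a, rfl⟩
  · have : a ≠ j := fun e => h (by rw [e])
    obtain ⟨c, hc⟩ := Fin.exists_succAbove_eq this
    exact ⟨Sum.inr c, by simp [fod, hc]⟩

end pull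

section blocks

variable {κ ι : Type} [Fintype κ] [LinearOrder κ] [Fintype ι] [LinearOrder ι]

theorem act_pl_single {φ : κ ↪o ι} (hφ : Conv φ) {y : MonoidAlgebra ℚ (Perm κ)}
    {u : ι → Lt k l} (h : act k l κ y (Pi.single (u ∘ φ) 1) = 0) :
    act k l ι (pl φ y) (Pi.single u 1) = 0 := by
  classical
  funext w
  rw [act_pl hφ]
  have h1 : sl φ w (Pi.single u 1 : W k l ι)
      = (if (∀ x, x ∉ Set.range φ → w x = u x) then (1 : ℚ) else 0) •
        (Pi.single (u ∘ φ) 1 : W k l κ) := by
    funext v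
    rw [sl_apply, Pi.smul_apply, smul_eq_mul]
    by_cases h2 : ∀ x, x ∉ Set.range φ → w x = u x
    · rw [if_pos h2, one_mul]
      by_cases h3 : v = u ∘ φ
      · have : Function.extend φ v w = u := by
          funext x
          by_cases hx : x ∈ Set.range φ
          · obtain ⟨a, rfl⟩ := hx
            rw [φ.injective.extend_apply, h3]; rfl
          · rw [Function.extend_apply' _ _ _ hx, h2 x hx]
        rw [this, h3, Pi.single_eq_same, Pi.single_eq_same]
      · rw [Pi.single_eq_of_ne h3, Pi.single_eq_of_ne]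
        intro e
        apply h3
        rw [← e]
        funext a
        rw [Function.comp_apply, φ.injective.extend_apply]
    · rw [if_neg h2, zero_mul, Pi.single_eq_of_ne]
      intro e
      apply h2
      intro x hx
      rw [← e, Function.extend_apply' _ _ _ hx]
  rw [h1, map_smul, h, smul_zero]
  rfl

theorem ext_comm {κ' : Type} [Fintype κ'] [LinearOrder κ'] (φ : κ ↪o ι) (ψ : κ' ↪o ι)
    (hd : ∀ a b, φ a ≠ ψ b) (σ : Perm κ) (τ : Perm κ') :
    ext φ σ * ext ψ τ = ext ψ τ * ext φ σ := by
  apply Equiv.ext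
  intro x
  rw [Perm.mul_apply, Perm.mul_apply]
  by_cases h1 : x ∈ Set.range φ
  · obtain ⟨a, rfl⟩ := h1
    rw [ext_apply, ext_apply' ψ τ (φ a) (by rintro ⟨b, hb⟩; exact hd _ _ hb.symm),
      ext_apply' ψ τ (φ (σ a)) (by rintro ⟨b, hb⟩; exact hd _ _ hb.symm), ext_apply]
  · rw [ext_apply' φ σ x h1]
    by_cases h2 : x ∈ Set.range ψ
    · obtain ⟨b, rfl⟩ := h2
      rw [ext_apply, ext_apply' φ σ (ψ (τ b)) (by rintro ⟨a, ha⟩; exact hd _ _ ha)]
    · rw [ext_apply' ψ τ x h2, ext_apply' φ σ x h1]

theorem pl_comm {κ' : Type} [Fintype κ'] [LinearOrder κ'] (φ : κ ↪o ι) (ψ : κ' ↪o ι)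
    (hd : ∀ a b, φ a ≠ ψ b) (x : MonoidAlgebra ℚ (Perm κ)) (y : MonoidAlgebra ℚ (Perm κ')) :
    Commute (pl φ x) (pl ψ y) := by
  induction x using MonoidAlgebra.induction_on with
  | of σ =>
    induction y using MonoidAlgebra.induction_on with
    | of τ =>
      rw [pl_of, pl_of]
      change _ * _ = _ * _
      rw [← map_mul, ← map_mul, ext_comm φ ψ hd]
    | add x y hx hy => rw [map_add]; exact hx.add_right hy
    | smul r x hx => rw [map_smul]; exact hx.smul_right r
  | add x y hx hy => rw [map_add]; exact hx.add_left hy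
  | smul r x hx => rw [map_smul]; exact hx.smul_left r

/-- A block: an interval embedding with an element of the group algebra. -/
structure Blk (ι : Type) [Fintype ι] [LinearOrder ι] where
  /-- size -/
  sz : ℕ
  /-- position -/
  φ : Fin sz ↪o ι
  conv : Conv φ
  /-- element -/
  y : MonoidAlgebra ℚ (Perm (Fin sz))

/-- The product of the blocks. -/
noncomputable def prodB (L : List (Blk ι)) : MonoidAlgebra ℚ (Perm ι) :=
  (L.map (fun B => pl B.φ B.y)).prod

/-- Disjoint blocks. -/
def DisjB (B B' : Blk ι) : Prop := ∀ a b, B.φ a ≠ B'.φ b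

theorem prodB_kill (L : List (Blk ι)) (hL : L.Pairwise DisjB) {B : Blk ι} (hB : B ∈ L)
    {f : W k l ι} (hf : act k l ι (pl B.φ B.y) f = 0) : act k l ι (prodB L) f = 0 := by
  induction L with
  | nil => simp at hB
  | cons A L ih =>
    rw [List.pairwise_cons] at hL
    have h1 : prodB (A :: L) = pl A.φ A.y * prodB L := by
      unfold prodB; rw [List.map_cons, List.prod_cons]
    rw [h1]
    rcases List.mem_cons.1 hB with e | e
    · subst e
      have h2 : Commute (pl B.φ B.y) (prodB L) := by
        unfold prodB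
        refine Commute.list_prod_right _ _ (fun z hz => ?_)
        obtain ⟨B', hB', rfl⟩ := List.mem_map.1 hz
        exact pl_comm _ _ (hL.1 B' hB') _ _
      rw [h2.eq, map_mul, Module.End.mul_apply, hf, map_zero]
    · rw [map_mul, Module.End.mul_apply, ih hL.2 e, map_zero]

theorem cnt_blocks (L : List (Blk ι)) (hL : L.Pairwise DisjB) (a : Lt k l) (u : ι → Lt k l)
    (h : ∀ B ∈ L, ∃ s, u (B.φ s) = a) : L.length ≤ cnt a u := by
  classical
  have h1 : ∀ L : List (Blk ι), L.Pairwise DisjB → (∀ B ∈ L, ∃ s, u (B.φ s) = a) →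
      ∃ S : Finset ι, S.card = L.length ∧ (∀ x ∈ S, u x = a) ∧
        (∀ x ∈ S, ∃ B ∈ L, ∃ s, B.φ s = x) := by
    intro L
    induction L with
    | nil => intro _ _; exact ⟨∅, by simp⟩
    | cons A L ih =>
      intro hL h
      rw [List.pairwise_cons] at hL
      obtain ⟨S, hS1, hS2, hS3⟩ := ih hL.2 (fun B hB => h B (List.mem_cons_of_mem _ hB))
      obtain ⟨s, hs⟩ := h A List.mem_cons_self
      have h2 : A.φ s ∉ S := by
        intro hx
        obtain ⟨B, hB, t, ht⟩ := hS3 _ hx
        exact hL.1 B hB s t ht.symm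
      refine ⟨insert (A.φ s) S, ?_, ?_, ?_⟩
      · rw [Finset.card_insert_of_notMem h2, hS1, List.length_cons]
      · intro x hx
        rcases Finset.mem_insert.1 hx with rfl | hx
        · exact hs
        · exact hS2 x hx
      · intro x hx
        rcases Finset.mem_insert.1 hx with rfl | hx
        · exact ⟨A, List.mem_cons_self, s, rfl⟩
        · obtain ⟨B, hB, t, ht⟩ := hS3 x hx
          exact ⟨B, List.mem_cons_of_mem _ hB, t, ht⟩
  obtain ⟨S, hS1, hS2, _⟩ := h1 L hL h
  rw [← hS1]
  unfold cnt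
  refine Finset.card_le_card (fun x hx => ?_)
  rw [Finset.mem_filter]
  exact ⟨Finset.mem_univ _, hS2 x hx⟩

end blocks

/-- RATIONAL LEMMA, final form: `K(k|l+1)^{⊗ (l+1)} ⊗ K(k+1|l)^{⊗ (k+1)}` is contained in the
ideal generated by `K(k+1|l+1)` and the catalyst. -/
theorem RL {k l n : ℕ} (C : Cat (k + 1) (l + 1) (mm (k + 1) (l + 1)))
    (hC : C.ξ = xi (k + 1) (l + 1))
    (L L' : List (Blk (Fin (n + mm (k + 1) (l + 1)))))
    (hL : (L ++ L').Pairwise DisjB) (hlen : L.length = l + 1) (hlen' : L'.length = k + 1)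
    (h1 : ∀ B ∈ L, act k (l + 1) _ B.y = 0) (h2 : ∀ B ∈ L', act (k + 1) l _ B.y = 0) :
    prodB (L ++ L') ∈ JJ (k + 1) (l + 1) (C.Z n) := by
  refine rational_lemma C hC _ (fun u hu => ?_)
  have hL1 : L.Pairwise DisjB := (List.pairwise_append.1 hL).1
  have hL2 : L'.Pairwise DisjB := (List.pairwise_append.1 hL).2.1
  refine ⟨fun i => ?_, fun j => ?_⟩
  · refine le_trans (le_of_eq hlen.symm) ?_
    refine cnt_blocks L hL1 _ u (fun B hB => ?_)
    by_contra hcon
    push Not at hcon
    apply hu
    refine prodB_kill _ hL (List.mem_append_left _ hB) ?_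
    refine act_pl_single B.conv ?_
    exact kill_small (fev_odd i) (h1 B hB) (fun s => fev_range i _ (hcon s))
  · refine le_trans (le_of_eq hlen'.symm) ?_
    refine cnt_blocks L' hL2 _ u (fun B hB => ?_)
    by_contra hcon
    push Not at hcon
    apply hu
    refine prodB_kill _ hL (List.mem_append_right _ hB) ?_
    refine act_pl_single B.conv ?_
    exact kill_small (fod_odd j) (h2 B hB) (fun s => fod_range j _ (hcon s))

end Pool.PI34.Super

end

/-! ### part Rl6 -/
section

/-!
PI34, rational lemma, file 6: the form (RL') with the catalyst `A_P A_Q (1 ⊗ z)`.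
-/

set_option linter.unusedSectionVars false
set_option linter.unusedSimpArgs false

namespace Pool.PI34.Super

open Equiv Finset

variable {k l n m : ℕ}

/-- Contraction of the catalyst strands with `ξ`. -/
def cbar (ξ : W k l (Fin m)) : W k l (Fin (n + m)) →ₗ[ℚ] W k l (Fin n) where
  toFun t := fun v => ip t (tn v ξ)
  map_add' s t := by funext v; exact ip_add_left s t _
  map_smul' c t := by funext v; exact ip_smul_left c t _

theorem cbar_apply (ξ : W k l (Fin m)) (t : W k l (Fin (n + m))) (v : Fin n → Lt k l) :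
    cbar ξ t v = ip t (tn v ξ) := rfl

theorem ip_sum_right {ι : Type} [Fintype ι] [LinearOrder ι] {α : Type*} (s : Finset α)
    (f : W k l ι) (g : α → W k l ι) : ip f (∑ a ∈ s, g a) = ∑ a ∈ s, ip f (g a) := by
  unfold ip
  rw [Finset.sum_comm]
  refine Finset.sum_congr rfl (fun w _ => ?_)
  rw [Finset.sum_apply, Finset.mul_sum]

theorem eop_tnL_same (a b : Lt k l) (hab : odd a = odd b) (i : Fin n) (v : Fin n → Lt k l)
    (f : W k l (Fin m)) :
    eop a b (phL n m i) (tn v f) = if v i = b then tn (Function.update v i a) f else 0 := by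
  classical
  funext w
  rw [eop_apply, bsg_even a b hab, one_mul, tn_apply]
  have h1 : Function.update w (phL n m i) b ∘ phL n m = Function.update (w ∘ phL n m) i b := by
    funext j
    by_cases hj : j = i
    · subst hj; simp
    · rw [Function.comp_apply, Function.update_of_ne hj,
        Function.update_of_ne (fun e => hj ((phL n m).injective e))]; rfl
  have h2 : Function.update w (phL n m i) b ∘ phR n m = w ∘ phR n m := by
    funext j
    rw [Function.comp_apply, Function.update_of_ne]
    · rfl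
    · intro e; exact phR_notMem i ⟨j, e⟩
  rw [h1, h2]
  have h3 : (w (phL n m i) = a ∧ Function.update (w ∘ phL n m) i b = v) ↔
      (v i = b ∧ w ∘ phL n m = Function.update v i a) := by
    constructor
    · rintro ⟨h4, h5⟩
      refine ⟨by rw [← h5, Function.update_self], ?_⟩
      rw [← h5, Function.update_idem, ← h4]
      exact (Function.update_eq_self i (w ∘ phL n m)).symm
    · rintro ⟨hv, h4⟩
      refine ⟨?_, ?_⟩
      · have := congrFun h4 i
        rw [Function.update_self] at this
        exact this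
      · rw [h4, Function.update_idem, ← hv, Function.update_eq_self]
  by_cases hv : v i = b
  · rw [if_pos hv, tn_apply]
    by_cases h4 : w ∘ phL n m = Function.update v i a
    · have h5 := h3.2 ⟨hv, h4⟩
      rw [if_pos h5.1, if_pos h5.2, if_pos h4]
    · rw [if_neg h4]
      by_cases h5 : w (phL n m i) = a
      · rw [if_pos h5, if_neg (fun h6 => h4 (h3.1 ⟨h5, h6⟩).2)]
      · rw [if_neg h5]
  · rw [if_neg hv]
    by_cases h5 : w (phL n m i) = a
    · rw [if_pos h5, if_neg (fun h6 => hv (h3.1 ⟨h5, h6⟩).1)]; rfl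
    · rw [if_neg h5]; rfl

theorem EE_tn_same (a b : Lt k l) (hab : odd a = odd b) (v : Fin n → Lt k l)
    {ξ : W k l (Fin m)} (hξ : EE a b ξ = 0) :
    EE a b (tn v ξ) = ∑ i, if v i = b then tn (Function.update v i a) ξ else 0 := by
  rw [EE_tn, hξ, map_zero, smul_zero, add_zero]
  exact Finset.sum_congr rfl (fun i _ => eop_tnL_same a b hab i v ξ)

/-- The contraction of a vector killed by raising operators is killed by raising operators. -/
theorem cbar_PR {ξ : W k l (Fin m)} (hξ : ∀ a b : Lt k l, odd a = odd b → a ≠ b → EE a b ξ = 0)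
    {t : W k l (Fin (n + m))}
    (ht : ∀ a b : Lt k l, odd a = odd b → idx a < idx b → EE a b t = 0) :
    PR univ (cbar ξ t) := by
  intro a b hab hlt
  funext v
  rw [EB_plain _ a b hab]
  have hne : b ≠ a := fun e => by rw [e] at hlt; exact lt_irrefl _ hlt
  have h1 : ip (EE a b t) (tn v ξ) = 0 := by
    rw [ht a b hab hlt]; unfold ip; exact Finset.sum_eq_zero (fun w _ => by simp)
  unfold EE at h1
  rw [EB_adj] at h1
  have h2 := EE_tn_same b a hab.symm v (hξ b a hab.symm hne)
  unfold EE at h2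
  rw [h2, ip_sum_right] at h1
  refine Eq.trans ?_ h1
  refine Finset.sum_congr rfl (fun i _ => ?_)
  split_ifs
  · rfl
  · rw [ip_zero_right]

theorem xi_g0_ne (a b : Lt k l) (h : odd a = odd b) (hne : a ≠ b) : EE a b (xi k l) = 0 := by
  have h1 : EE a b (xi k l) = EB (B1 k l) a b (xi k l) + EB (B2 k l) a b (xi k l) := by
    unfold EE
    rw [← B12_union, EB_add (B12_disj k l), LinearMap.add_apply]
  rw [h1]
  rcases a with a | a <;> rcases b with b | b
  · rw [EB1_inl, EB2_inl, add_zero, if_neg (fun e => hne (by rw [e]))]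
  · simp at h
  · simp at h
  · rw [EB1_inr, EB2_inr, zero_add, if_neg (fun e => hne (by rw [e]))]

theorem xi_cnt_inl (i : Fin k) {u : Fin (mm k l) → Lt k l} (hu : xi k l u ≠ 0) :
    cnt (Sum.inl i) u = l := by
  have h1 : EE (Sum.inl i) (Sum.inl i) (xi k l) = (l : ℚ) • xi k l := by
    unfold EE
    rw [← B12_union, EB_add (B12_disj k l), LinearMap.add_apply, EB1_inl, EB2_inl, if_pos rfl,
      add_zero]
  have h2 := congrFun h1 u
  rw [EE_diag, Pi.smul_apply, smul_eq_mul] at h2
  exact_mod_cast mul_right_cancel₀ hu h2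

theorem xi_cnt_inr (i : Fin l) {u : Fin (mm k l) → Lt k l} (hu : xi k l u ≠ 0) :
    cnt (Sum.inr i) u = k := by
  have h1 : EE (Sum.inr i) (Sum.inr i) (xi k l) = (k : ℚ) • xi k l := by
    unfold EE
    rw [← B12_union, EB_add (B12_disj k l), LinearMap.add_apply, EB1_inr, EB2_inr, if_pos rfl,
      zero_add]
  have h2 := congrFun h1 u
  rw [EE_diag, Pi.smul_apply, smul_eq_mul] at h2
  exact_mod_cast mul_right_cancel₀ hu h2

theorem cnt_append (a : Lt k l) (v : Fin n → Lt k l) (u : Fin m → Lt k l) :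
    cnt a (Fin.append v u) = cnt a v + cnt a u := by
  classical
  unfold cnt
  rw [Finset.card_filter, Finset.card_filter, Finset.card_filter, Fin.sum_univ_add]
  simp

theorem cbar_supp {ξ : W k l (Fin m)} {t : W k l (Fin (n + m))} {v : Fin n → Lt k l}
    (h : cbar ξ t v ≠ 0) : ∃ u, ξ u ≠ 0 ∧ t (Fin.append v u) ≠ 0 := by
  classical
  rw [cbar_apply] at h
  unfold ip at h
  obtain ⟨w, _, hw⟩ := Finset.exists_ne_zero_of_sum_ne_zero h
  have h1 := right_ne_zero_of_mul hw
  rw [tn_apply] at h1
  by_cases h2 : w ∘ phL n m = v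
  · rw [if_pos h2] at h1
    refine ⟨w ∘ phR n m, h1, ?_⟩
    have h3 : Fin.append v (w ∘ phR n m) = w := by
      rw [← h2]
      funext x
      refine Fin.addCases (fun i => ?_) (fun i => ?_) x
      · rw [Fin.append_left]; rfl
      · rw [Fin.append_right]; rfl
    rw [h3]
    exact left_ne_zero_of_mul hw
  · rw [if_neg h2] at h1; exact absurd rfl h1

/-- The full (plain) determinant contraction. -/
noncomputable def Dfull (P : Lt k l → Fin n) (g : W k l (Fin n)) : W k l (Fin n) := fun w =>
  ∑ ρ : Perm (Lt k l), ((Perm.sign ρ : ℤ) : ℚ) * g (Function.extend P ρ w)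

theorem Dfull_split {P : Lt k l → Fin n} (hP : Function.Injective P) {g : W k l (Fin n)}
    {O : Fin n → Bool} (hO : ∀ w, g w ≠ 0 → ∀ c, odd (w (P c)) = O (P c))
    (hcons : ∀ c, O (P c) = odd c) :
    Dfull P g = Dop (Sum.inr : Fin l → Lt k l) (fun j => P (Sum.inr j))
      (Dop (Sum.inl : Fin k → Lt k l) (fun i => P (Sum.inl i)) g) := by
  classical
  funext w
  unfold Dfull Dop
  have hword : ∀ (π0 : Perm (Fin k)) (π1 : Perm (Fin l)),
      Function.extend (fun i => P (Sum.inl i)) ((Sum.inl : Fin k → Lt k l) ∘ π0)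
        (Function.extend (fun j => P (Sum.inr j)) ((Sum.inr : Fin l → Lt k l) ∘ π1) w)
      = Function.extend P (Perm.sumCongr π0 π1 : Perm (Fin k ⊕ Fin l)) w := by
    intro π0 π1
    have i1 : Function.Injective (fun i => P (Sum.inl i)) := fun a b h => Sum.inl_injective (hP h)
    have i2 : Function.Injective (fun i => P (Sum.inr i)) := fun a b h => Sum.inr_injective (hP h)
    funext x
    by_cases h1 : ∃ i, P (Sum.inl i) = x
    · obtain ⟨i, rfl⟩ := h1
      have e1 := i1.extend_apply ((Sum.inl : Fin k → Lt k l) ∘ π0)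
        (Function.extend (fun j => P (Sum.inr j)) ((Sum.inr : Fin l → Lt k l) ∘ π1) w) i
      rw [e1, hP.extend_apply]
      simp
    · rw [Function.extend_apply' _ _ _ h1]
      by_cases h2 : ∃ j, P (Sum.inr j) = x
      · obtain ⟨j, rfl⟩ := h2
        have e1 := i2.extend_apply ((Sum.inr : Fin l → Lt k l) ∘ π1) w j
        rw [e1, hP.extend_apply]
        simp
      · rw [Function.extend_apply' _ _ _ h2, Function.extend_apply']
        rintro ⟨c, hc⟩
        rcases c with c | c
        · exact h1 ⟨c, hc⟩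
        · exact h2 ⟨c, hc⟩
  have h1 : ∑ π1 : Perm (Fin l), ((Perm.sign π1 : ℤ) : ℚ) * ∑ π0 : Perm (Fin k),
      ((Perm.sign π0 : ℤ) : ℚ) * g (Function.extend (fun i => P (Sum.inl i))
        ((Sum.inl : Fin k → Lt k l) ∘ π0) (Function.extend (fun j => P (Sum.inr j))
          ((Sum.inr : Fin l → Lt k l) ∘ π1) w))
      = ∑ x : Perm (Fin k) × Perm (Fin l), (fun ρ : Perm (Fin k ⊕ Fin l) =>
        ((Perm.sign ρ : ℤ) : ℚ) * g (Function.extend P ρ w)) (Perm.sumCongr x.1 x.2) := by
    rw [Fintype.sum_prod_type, Finset.sum_comm]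
    refine Finset.sum_congr rfl (fun π1 _ => ?_)
    rw [Finset.mul_sum]
    refine Finset.sum_congr rfl (fun π0 _ => ?_)
    rw [hword]
    simp only [Perm.sign_sumCongr]
    push_cast
    ring
  rw [h1]
  symm
  refine Finset.sum_bij_ne_zero (fun x _ _ => Perm.sumCongr x.1 x.2) (fun _ _ _ => Finset.mem_univ _)
    ?_ ?_ (fun _ _ _ => rfl)
  · rintro ⟨a, b⟩ _ _ ⟨a', b'⟩ _ _ h
    have := Perm.sumCongrHom_injective (α := Fin k) (β := Fin l) (a₁ := (a, b)) (a₂ := (a', b')) h
    exact this
  · intro ρ _ hρ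
    have h2 := hO _ (right_ne_zero_of_mul hρ)
    have h3 : Set.MapsTo ρ (Set.range (Sum.inl : Fin k → Fin k ⊕ Fin l))
        (Set.range (Sum.inl : Fin k → Fin k ⊕ Fin l)) := by
      rintro _ ⟨i, rfl⟩
      have h4 := h2 (Sum.inl i)
      rw [hP.extend_apply, hcons] at h4
      rcases hρi : ρ (Sum.inl i) with c | c
      · exact ⟨c, rfl⟩
      · rw [hρi] at h4; simp at h4
    obtain ⟨⟨a, b⟩, hab⟩ := Perm.mem_sumCongrHom_range_of_perm_mapsTo_inl h3
    refine ⟨(a, b), Finset.mem_univ _, ?_, hab⟩
    have h5 : Perm.sumCongr a b = ρ := hab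
    change (fun ρ : Perm (Fin k ⊕ Fin l) =>
        ((Perm.sign ρ : ℤ) : ℚ) * g (Function.extend P ρ w)) (Perm.sumCongr a b) ≠ 0
    rw [h5]
    exact hρ

end Pool.PI34.Super

end

/-! ### part Rl7 -/
section

/-!
PI34, rational lemma, file 7: proof of (RL').
-/

set_option linter.unusedSectionVars false
set_option linter.unusedSimpArgs false

namespace Pool.PI34.Super

open Equiv Finset

variable {k l n m : ℕ}

/-- Projection to the words with parity pattern `O`. -/
def prO (O : Fin n → Bool) (g : W k l (Fin n)) : W k l (Fin n) :=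
  fun v => if pv v = O then g v else 0

theorem prO_QQ {O : Fin n → Bool} {g : W k l (Fin n)} {α β : ℕ} (hg : PR univ g)
    (hc1 : ∀ v, g v ≠ 0 → ∀ i : Fin k, α ≤ cntR univ (Sum.inl i) v)
    (hc2 : ∀ v, g v ≠ 0 → ∀ j : Fin l, β ≤ cntR univ (Sum.inr j) v)
    (hne : ∃ v, g v ≠ 0 ∧ pv v = O) : QQ univ (prO O g) α β := by
  classical
  have hsup : ∀ v, prO O g v ≠ 0 → g v ≠ 0 := by
    intro v hv
    unfold prO at hv
    split_ifs at hv with h
    · exact hv
    · exact absurd rfl hv
  refine ⟨?_, ?_, fun v hv => hc1 v (hsup v hv), fun v hv => hc2 v (hsup v hv)⟩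
  · intro a b hab hlt
    funext v
    have h1 := congrFun (hg a b hab hlt) v
    rw [EB_plain _ a b hab] at h1 ⊢
    have h2 : ∀ s : Fin n, v s = a → pv (Function.update v s b) = pv v := by
      intro s hs
      funext x
      unfold pv
      by_cases hx : x = s
      · subst hx; rw [Function.update_self, hs]; exact hab.symm
      · rw [Function.update_of_ne hx]
    have h0 : (0 : W k l (Fin n)) v = 0 := rfl
    rw [h0] at h1 ⊢
    by_cases hv : pv v = O
    · refine Eq.trans ?_ h1
      refine Finset.sum_congr rfl (fun s _ => ?_)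
      by_cases hs : v s = a
      · rw [if_pos hs, if_pos hs]
        unfold prO
        rw [h2 s hs, if_pos hv]
      · rw [if_neg hs, if_neg hs]
    · refine Finset.sum_eq_zero (fun s _ => ?_)
      by_cases hs : v s = a
      · rw [if_pos hs]
        unfold prO
        rw [h2 s hs, if_neg hv]
      · rw [if_neg hs]
  · obtain ⟨v, hv1, hv2⟩ := hne
    intro h
    apply hv1
    have := congrFun h v
    unfold prO at this
    rw [if_pos hv2] at this
    exact this

theorem Dop_ne {q : ℕ} {lam : Fin q → Lt k l} {s : Fin q → Fin n} (hs : Function.Injective s)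
    {y : W k l (Fin n)} {w : Fin n → Lt k l} (h : Dop lam s y w ≠ 0) :
    ∃ w', y w' ≠ 0 ∧ (∀ i, ∃ j, w' (s i) = lam j) ∧ (∀ x, (∀ i, s i ≠ x) → w' x = w x) := by
  unfold Dop at h
  obtain ⟨π, _, hπ⟩ := Finset.exists_ne_zero_of_sum_ne_zero h
  refine ⟨_, right_ne_zero_of_mul hπ, fun i => ⟨π i, ?_⟩, fun x hx => ?_⟩
  · rw [hs.extend_apply]; rfl
  · rw [Function.extend_apply']
    rintro ⟨i, hi⟩; exact hx i hi

/-- Two full determinant contractions of a suitable vector do not vanish. -/
theorem exists_two_Dfull {g : W k l (Fin n)} {O : Fin n → Bool} (hg : QQ univ g 2 2)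
    (hO : ∀ v, g v ≠ 0 → pv v = O) :
    ∃ P Q : Lt k l → Fin n, Function.Injective P ∧ Function.Injective Q ∧
      (∀ c d, P c ≠ Q d) ∧ Dfull Q (Dfull P g) ≠ 0 := by
  classical
  obtain ⟨s, hs, hsR, h1⟩ := step_ev (α := 1) hg
  obtain ⟨s', hs', hs'R, h2⟩ := step_od (β := 1) h1
  obtain ⟨q, hq, hqR, h3⟩ := step_ev (α := 0) h2
  obtain ⟨q', hq', hq'R, h4⟩ := step_od (β := 0) h3
  let P : Lt k l → Fin n := Sum.elim s s'
  let Q : Lt k l → Fin n := Sum.elim q q'
  have d1 : ∀ i j, s i ≠ s' j := by
    intro i j e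
    have := hs'R j
    rw [← e, Finset.mem_sdiff, Finset.mem_image] at this
    exact this.2 ⟨i, Finset.mem_univ _, rfl⟩
  have d2 : ∀ i j, s i ≠ q j := by
    intro i j e
    have := hqR j
    rw [← e, Finset.mem_sdiff, Finset.mem_sdiff, Finset.mem_image] at this
    exact this.1.2 ⟨i, Finset.mem_univ _, rfl⟩
  have d3 : ∀ i j, s' i ≠ q j := by
    intro i j e
    have := hqR j
    rw [← e, Finset.mem_sdiff, Finset.mem_image] at this
    exact this.2 ⟨i, Finset.mem_univ _, rfl⟩
  have d4 : ∀ i j, s i ≠ q' j := by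
    intro i j e
    have := hq'R j
    rw [← e, Finset.mem_sdiff, Finset.mem_sdiff, Finset.mem_sdiff, Finset.mem_image] at this
    exact this.1.1.2 ⟨i, Finset.mem_univ _, rfl⟩
  have d5 : ∀ i j, s' i ≠ q' j := by
    intro i j e
    have := hq'R j
    rw [← e, Finset.mem_sdiff, Finset.mem_sdiff, Finset.mem_image, Finset.mem_image] at this
    exact this.1.2 ⟨i, Finset.mem_univ _, rfl⟩
  have d6 : ∀ i j, q i ≠ q' j := by
    intro i j e
    have := hq'R j
    rw [← e, Finset.mem_sdiff, Finset.mem_image] at this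
    exact this.2 ⟨i, Finset.mem_univ _, rfl⟩
  have hP : Function.Injective P := by
    rintro (a | a) (b | b) h
    · rw [hs h]
    · exact absurd h (d1 a b)
    · exact absurd h.symm (d1 b a)
    · rw [hs' h]
  have hQ : Function.Injective Q := by
    rintro (a | a) (b | b) h
    · rw [hq h]
    · exact absurd h (d6 a b)
    · exact absurd h.symm (d6 b a)
    · rw [hq' h]
  have hPQ : ∀ c d, P c ≠ Q d := by
    rintro (a | a) (b | b)
    · exact d2 a b
    · exact d4 a b
    · exact d3 a b
    · exact d5 a b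
  refine ⟨P, Q, hP, hQ, hPQ, ?_⟩
  -- consistency
  obtain ⟨w0, hw0⟩ := Function.ne_iff.1 h4.ne
  obtain ⟨w1, hw1, e1, f1⟩ := Dop_ne hq' (show Dop _ _ _ w0 ≠ 0 from hw0)
  obtain ⟨w2, hw2, e2, f2⟩ := Dop_ne hq hw1
  obtain ⟨w3, hw3, e3, f3⟩ := Dop_ne hs' hw2
  obtain ⟨w4, hw4, e4, f4⟩ := Dop_ne hs hw3
  have hO4 := hO w4 hw4
  have cs : ∀ i, O (s i) = false := by
    intro i
    rw [← hO4]
    obtain ⟨j, hj⟩ := e4 i
    unfold pv; rw [hj]; rfl
  have cs' : ∀ i, O (s' i) = true := by
    intro i
    rw [← hO4]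
    obtain ⟨j, hj⟩ := e3 i
    unfold pv; rw [f4 _ (fun a => d1 a i), hj]; rfl
  have cq : ∀ i, O (q i) = false := by
    intro i
    rw [← hO4]
    obtain ⟨j, hj⟩ := e2 i
    unfold pv; rw [f4 _ (fun a => d2 a i), f3 _ (fun a => d3 a i), hj]; rfl
  have cq' : ∀ i, O (q' i) = true := by
    intro i
    rw [← hO4]
    obtain ⟨j, hj⟩ := e1 i
    unfold pv
    rw [f4 _ (fun a => d4 a i), f3 _ (fun a => d5 a i), f2 _ (fun a => d6 a i), hj]; rfl
  have hD1 : Dfull P g = Dop (Sum.inr : Fin l → Lt k l) s' (Dop (Sum.inl : Fin k → Lt k l) s g) := by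
    refine Dfull_split hP (O := O) (fun w hw c => ?_) ?_
    · rw [← hO w hw]; rfl
    · rintro (c | c)
      · exact cs c
      · exact cs' c
  have hD2 : Dfull Q (Dfull P g) = Dop (Sum.inr : Fin l → Lt k l) q'
      (Dop (Sum.inl : Fin k → Lt k l) q (Dfull P g)) := by
    refine Dfull_split hQ (O := O) (fun w hw c => ?_) ?_
    · rw [hD1] at hw
      obtain ⟨w', hw', _, g1⟩ := Dop_ne hs' hw
      obtain ⟨w'', hw'', _, g2⟩ := Dop_ne hs hw'
      have h5 := congrFun (hO w'' hw'') (Q c)
      unfold pv at h5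
      rw [g2 _ (fun a e => hPQ (Sum.inl a) c e), g1 _ (fun a e => hPQ (Sum.inr a) c e)] at h5
      exact h5
    · rintro (c | c)
      · exact cq c
      · exact cq' c
  rw [hD2, hD1]
  exact h4.ne

/-- The permutation of `Fin n` given by a permutation of the letters and an embedding. -/
noncomputable def via (P : Lt k l → Fin n) (hP : Function.Injective P) (ρ : Perm (Lt k l)) :
    Perm (Fin n) := Perm.viaEmbedding ρ ⟨P, hP⟩

theorem via_apply (P : Lt k l → Fin n) (hP : Function.Injective P) (ρ : Perm (Lt k l))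
    (c : Lt k l) : via P hP ρ (P c) = P (ρ c) :=
  Perm.viaEmbedding_apply ρ ⟨P, hP⟩ c

theorem via_apply' (P : Lt k l → Fin n) (hP : Function.Injective P) (ρ : Perm (Lt k l))
    {x : Fin n} (hx : ∀ c, P c ≠ x) : via P hP ρ x = x :=
  Perm.viaEmbedding_apply_of_notMem ρ ⟨P, hP⟩ x (by rintro ⟨c, hc⟩; exact hx c hc)

theorem via_conj (P P' : Lt k l → Fin n) (hP : Function.Injective P) (hP' : Function.Injective P')
    (τ : Perm (Fin n)) (h : ∀ c, τ (P c) = P' c) (ρ : Perm (Lt k l)) :
    τ * via P hP ρ * τ⁻¹ = via P' hP' ρ := by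
  apply Equiv.ext
  intro x
  rw [Perm.mul_apply, Perm.mul_apply]
  by_cases hx : ∃ c, P' c = x
  · obtain ⟨c, rfl⟩ := hx
    have h1 : τ⁻¹ (P' c) = P c := by rw [← h c]; exact inv_app' τ _
    rw [h1, via_apply, via_apply, h]
  · push Not at hx
    have h1 : ∀ c, P c ≠ τ⁻¹ x := by
      intro c e
      apply hx c
      rw [← h c, e]; exact app_inv' τ _
    rw [via_apply' P hP ρ h1, via_apply' P' hP' ρ hx]
    exact app_inv' τ _

/-- `Y` acts on the vectors `e_v ⊗ ξ` as the product of two plain antisymmetrizers. -/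
def IsAlt (C : Cat k l m) (P Q : Lt k l → Fin n) (hP : Function.Injective P)
    (hQ : Function.Injective Q) (Y : MonoidAlgebra ℚ (Perm (Fin (n + m)))) : Prop :=
  ∀ v : Fin n → Lt k l, act k l _ Y (tn v C.ξ)
    = ∑ ρ : Perm (Lt k l), ∑ ρ' : Perm (Lt k l),
      (((Perm.sign ρ : ℤ) : ℚ) * ((Perm.sign ρ' : ℤ) : ℚ)) •
        tn (v ∘ ⇑(via P hP ρ * via Q hQ ρ')) C.ξ

theorem exists_perm_two {P Q P' Q' : Lt k l → Fin n} (hP : Function.Injective P)
    (hQ : Function.Injective Q) (hPQ : ∀ c d, P c ≠ Q d) (hP' : Function.Injective P')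
    (hQ' : Function.Injective Q') (hPQ' : ∀ c d, P' c ≠ Q' d) :
    ∃ τ : Perm (Fin n), (∀ c, τ (P c) = P' c) ∧ (∀ c, τ (Q c) = Q' c) := by
  classical
  let F : Lt k l ⊕ Lt k l → Fin n := Sum.elim P Q
  let F' : Lt k l ⊕ Lt k l → Fin n := Sum.elim P' Q'
  have hF : Function.Injective F := by
    rintro (a | a) (b | b) h
    · rw [hP h]
    · exact absurd h (hPQ a b)
    · exact absurd h.symm (hPQ b a)
    · rw [hQ h]
  have hF' : Function.Injective F' := by
    rintro (a | a) (b | b) h
    · rw [hP' h]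
    · exact absurd h (hPQ' a b)
    · exact absurd h.symm (hPQ' b a)
    · rw [hQ' h]
  let e : {x // x ∈ Set.range F} ≃ {x // x ∈ Set.range F'} :=
    (Equiv.ofInjective _ hF).symm.trans (Equiv.ofInjective _ hF')
  have key : ∀ s, e.extendSubtype (F s) = F' s := by
    intro s
    have := e.extendSubtype_apply_of_mem (F s) ⟨s, rfl⟩
    rw [this]
    change ((Equiv.ofInjective _ hF') ((Equiv.ofInjective _ hF).symm
      ⟨F s, ⟨s, rfl⟩⟩) : Fin n) = F' s
    have h2 : (Equiv.ofInjective _ hF).symm ⟨F s, ⟨s, rfl⟩⟩ = s := by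
      rw [Equiv.symm_apply_eq]; rfl
    rw [h2]; rfl
  exact ⟨e.extendSubtype, fun c => key (Sum.inl c), fun c => key (Sum.inr c)⟩

/-- The element of the group algebra projecting on the parity pattern `O`. -/
noncomputable def parE (C : Cat k l m) (O : Fin n → Bool) :
    MonoidAlgebra ℚ (Perm (Fin (n + m))) :=
  ((List.finRange n).map (fun i => if O i then C.Ei n i else 1 - C.Ei n i)).prod

theorem act_parE (C : Cat k l m) (O : Fin n → Bool) (v : Fin n → Lt k l) :
    act k l _ (parE C O) (tn v C.ξ) = (if pv v = O then (1 : ℚ) else 0) • tn v C.ξ := by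
  have h1 : ∀ L : List (Fin n), act k l _ ((L.map (fun i => if O i then C.Ei n i
      else 1 - C.Ei n i)).prod) (tn v C.ξ)
      = (if ∀ i ∈ L, pv v i = O i then (1 : ℚ) else 0) • tn v C.ξ := by
    intro L
    induction L with
    | nil => simp
    | cons i L ih =>
      rw [List.map_cons, List.prod_cons, map_mul, Module.End.mul_apply, ih, map_smul]
      have h2 : act k l _ (if O i then C.Ei n i else 1 - C.Ei n i) (tn v C.ξ)
          = (if pv v i = O i then (1 : ℚ) else 0) • tn v C.ξ := by
        cases hO : O i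
        · simp only [Bool.false_eq_true, if_false]
          rw [map_sub, map_one, LinearMap.sub_apply, C.act_Ei, Module.End.one_apply]
          unfold pv
          cases odd (v i) <;> simp
        · simp only [if_true]
          rw [C.act_Ei]
          unfold pv
          rfl
      rw [h2, smul_smul]
      congr 1
      simp only [List.forall_mem_cons]
      by_cases h3 : pv v i = O i
      · by_cases h4 : ∀ j ∈ L, pv v j = O j
        · rw [if_pos h3, if_pos h4, if_pos ⟨h3, h4⟩, one_mul]
        · rw [if_neg h4, if_neg (show ¬ (pv v i = O i ∧ ∀ j ∈ L, pv v j = O j) from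
            fun h => h4 h.2), zero_mul]
      · rw [if_neg h3, if_neg (show ¬ (pv v i = O i ∧ ∀ j ∈ L, pv v j = O j) from
            fun h => h3 h.1), mul_zero]
  unfold parE
  rw [h1]
  congr 1
  have h2 : (∀ i ∈ List.finRange n, pv v i = O i) ↔ pv v = O := by
    constructor
    · intro h; funext i; exact h i (List.mem_finRange i)
    · intro h i _; rw [h]
  simp only [h2]

/-- (RL'): the rational lemma for the catalyst `A_P A_Q (1 ⊗ z)`. -/
theorem RL' {n : ℕ} (C : Cat k l (mm k l)) (hC : C.ξ = xi k l)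
    {P Q : Lt k l → Fin n} (hP : Function.Injective P) (hQ : Function.Injective Q)
    (hPQ : ∀ c d, P c ≠ Q d) {Y : MonoidAlgebra ℚ (Perm (Fin (n + mm k l)))}
    (hY : IsAlt C P Q hP hQ Y) (y : MonoidAlgebra ℚ (Perm (Fin (n + mm k l))))
    (hy : ∀ u : Fin (n + mm k l) → Lt k l, act k l _ y (Pi.single u 1) ≠ 0 →
      (∀ i : Fin k, l + 2 ≤ cnt (Sum.inl i) u) ∧ (∀ j : Fin l, k + 2 ≤ cnt (Sum.inr j) u)) :
    y ∈ JJ k l Y := by
  classical
  by_contra hcon
  have h1 : ∃ t : W k l (Fin (n + mm k l)), (∀ a ∈ JJ k l Y, act k l _ a t = 0) ∧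
      act k l _ y t ≠ 0 := by
    by_contra h
    push Not at h
    exact hcon (JJ_of_kill h)
  obtain ⟨t, ht, hyt⟩ := h1
  let T : Submodule ℚ (W k l (Fin (n + mm k l))) :=
    { carrier := {t | ∀ a ∈ JJ k l Y, act k l _ a t = 0}
      add_mem' := fun {x y} hx hy a ha => by rw [map_add, hx a ha, hy a ha, add_zero]
      zero_mem' := fun a _ => map_zero _
      smul_mem' := fun c x hx a ha => by rw [map_smul, hx a ha, smul_zero] }
  have hTE : ∀ a b : Lt k l, ∀ t ∈ T, EE a b t ∈ T := by
    intro a b t ht c hc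
    have h := LinearMap.congr_fun (act_EE c a b) t
    simp only [Module.End.mul_apply] at h
    rw [h, ht c hc, map_zero]
  have hTA : ∀ a : MonoidAlgebra ℚ (Perm (Fin (n + mm k l))), ∀ t ∈ T, act k l _ a t ∈ T := by
    intro a t ht c hc
    rw [← Module.End.mul_apply, ← map_mul]
    exact ht _ (JJ_right _ hc)
  let N : Submodule ℚ (W k l (Fin (n + mm k l))) := T.map (act k l _ y)
  have hNE : ∀ a b : Lt k l, ∀ v ∈ N, EE a b v ∈ N := by
    rintro a b _ ⟨t, ht, rfl⟩
    have h := LinearMap.congr_fun (act_EE y a b) t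
    simp only [Module.End.mul_apply] at h
    rw [← h]
    exact ⟨_, hTE a b t ht, rfl⟩
  obtain ⟨x, hxN, hx0, hxr⟩ := exists_hw N hNE (univ.sup Pool.PI34.Super.ht) (act k l _ y t)
    ⟨t, ht, rfl⟩ hyt (fun w _ => Finset.le_sup (Finset.mem_univ w))
  obtain ⟨t', ht', rfl⟩ := hxN
  have hsupp : ∀ w, act k l _ y t' w ≠ 0 → (∀ i : Fin k, l + 2 ≤ cnt (Sum.inl i) w) ∧
      (∀ j : Fin l, k + 2 ≤ cnt (Sum.inr j) w) := by
    intro w hw
    have h2 : t' = ∑ u, t' u • (Pi.single u 1 : W k l (Fin (n + mm k l))) := by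
      funext w
      rw [Finset.sum_apply, Finset.sum_eq_single w]
      · simp
      · intro b _ hb; simp [Pi.single_apply, hb.symm]
      · intro h; exact absurd (Finset.mem_univ _) h
    rw [h2, map_sum, Finset.sum_apply] at hw
    obtain ⟨u, _, hu⟩ := Finset.exists_ne_zero_of_sum_ne_zero hw
    rw [map_smul, Pi.smul_apply, smul_eq_mul] at hu
    have h3 := right_ne_zero_of_mul hu
    have h4 : act k l _ y (Pi.single u 1) ≠ 0 := fun e => h3 (by rw [e]; rfl)
    obtain ⟨h5, h6⟩ := hy u h4
    refine ⟨fun i => ?_, fun j => ?_⟩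
    · rw [act_single_cnt y u w h3]; exact h5 i
    · rw [act_single_cnt y u w h3]; exact h6 j
  have hQ0 : QQ univ (act k l _ y t') (2 + l) (2 + k) := by
    refine ⟨fun a b _ hlt => hxr a b hlt, hx0, fun w hw i => ?_, fun w hw j => ?_⟩
    · rw [add_comm]; exact (hsupp w hw).1 i
    · rw [add_comm]; exact (hsupp w hw).2 j
  obtain ⟨σ, v0, hσ⟩ := exists_pair hQ0
  -- move the contracted strands to the end
  set x := act k l _ y t' with hx
  have hxT : x ∈ T := hTA y t' ht'
  set s := rho k l _ σ⁻¹ x with hs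
  have hsT : s ∈ T := by
    have := hTA (MonoidAlgebra.of ℚ _ σ⁻¹) x hxT
    rwa [act_of] at this
  have hsr : ∀ a b : Lt k l, odd a = odd b → idx a < idx b → EE a b s = 0 := by
    intro a b _ hlt
    have h := LinearMap.congr_fun (rho_EE (k := k) (l := l) σ⁻¹ a b) x
    simp only [Module.End.mul_apply] at h
    rw [hs, ← h, hxr a b hlt, map_zero]
  have hscnt : ∀ w, s w ≠ 0 → (∀ i : Fin k, l + 2 ≤ cnt (Sum.inl i) w) ∧
      (∀ j : Fin l, k + 2 ≤ cnt (Sum.inr j) w) := by
    intro w hw
    rw [hs, rho_apply] at hw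
    have h2 := hsupp _ (right_ne_zero_of_mul hw)
    have h3 : ∀ a : Lt k l, cnt a (w ∘ ⇑σ⁻¹) = cnt a w := by
      intro a
      unfold cnt
      refine Finset.card_bij' (fun i _ => σ⁻¹ i) (fun i _ => σ i) ?_ ?_ ?_ ?_
      · intro i hi; simpa using hi
      · intro i hi
        rw [Finset.mem_filter] at hi ⊢
        refine ⟨Finset.mem_univ _, ?_⟩
        rw [Function.comp_apply, inv_app']; exact hi.2
      · intro i _; exact app_inv' σ i
      · intro i _; exact inv_app' σ i
    refine ⟨fun i => ?_, fun j => ?_⟩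
    · rw [← h3]; exact h2.1 i
    · rw [← h3]; exact h2.2 j
  -- the contraction
  set g := cbar (xi k l) s with hg
  have hg0 : g v0 ≠ 0 := by
    rw [hg, cbar_apply, hs, rho_adj, inv_inv]
    exact hσ
  have hgPR : PR univ g := cbar_PR (fun a b h hne => xi_g0_ne a b h hne) hsr
  have hgc1 : ∀ v, g v ≠ 0 → ∀ i : Fin k, 2 ≤ cntR univ (Sum.inl i) v := by
    intro v hv i
    obtain ⟨u, hu1, hu2⟩ := cbar_supp hv
    have h2 := (hscnt _ hu2).1 i
    rw [cnt_append, xi_cnt_inl i hu1] at h2
    have h3 : cntR univ (Sum.inl i) v = cnt (Sum.inl i) v := rfl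
    omega
  have hgc2 : ∀ v, g v ≠ 0 → ∀ j : Fin l, 2 ≤ cntR univ (Sum.inr j) v := by
    intro v hv j
    obtain ⟨u, hu1, hu2⟩ := cbar_supp hv
    have h2 := (hscnt _ hu2).2 j
    rw [cnt_append, xi_cnt_inr j hu1] at h2
    have h3 : cntR univ (Sum.inr j) v = cnt (Sum.inr j) v := rfl
    omega
  set O := pv v0 with hO
  have hQO : QQ univ (prO O g) 2 2 := prO_QQ hgPR hgc1 hgc2 ⟨v0, hg0, rfl⟩
  obtain ⟨P', Q', hP', hQ', hPQ', hD⟩ := exists_two_Dfull (O := O) hQO (fun v hv => by
    unfold prO at hv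
    split_ifs at hv with h
    · exact h
    · exact absurd rfl hv)
  -- the projected vector comes from `T`
  set sO := act k l _ (st (parE C O)) s with hsO
  have hsOT : sO ∈ T := hTA _ s hsT
  have hcO : ∀ v, ip sO (tn v (xi k l)) = prO O g v := by
    intro v
    rw [hsO, act_adj, st_st, ← hC, act_parE, hC, ip_smul_right]
    unfold prO
    rw [hg, cbar_apply]
    split_ifs
    · rw [one_mul]
    · rw [zero_mul]
  -- move `Y`
  obtain ⟨τ, hτ1, hτ2⟩ := exists_perm_two hP hQ hPQ hP' hQ' hPQ'
  set Y' := C.fl τ * Y * C.fl τ⁻¹ with hY'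
  have hY'J : Y' ∈ JJ k l Y := Z_mem_JJ _ _
  obtain ⟨w, hw⟩ := Function.ne_iff.1 hD
  apply hw
  change Dfull Q' (Dfull P' (prO O g)) w = 0
  set v1 : Fin n → Lt k l := Function.extend P' id (Function.extend Q' id w) with hv1
  have hact : act k l _ Y' (tn v1 C.ξ) = ∑ ρ : Perm (Lt k l), ∑ ρ' : Perm (Lt k l),
      (((Perm.sign ρ : ℤ) : ℚ) * ((Perm.sign ρ' : ℤ) : ℚ)) •
        tn (v1 ∘ ⇑(via P' hP' ρ * via Q' hQ' ρ')) C.ξ := by
    rw [hY', map_mul, map_mul, Module.End.mul_apply, Module.End.mul_apply, C.act_fl, hY,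
      map_sum]
    refine Finset.sum_congr rfl (fun ρ _ => ?_)
    rw [map_sum]
    refine Finset.sum_congr rfl (fun ρ' _ => ?_)
    rw [map_smul, C.act_fl]
    have h6 : ((v1 ∘ ⇑τ⁻¹⁻¹) ∘ ⇑(via P hP ρ * via Q hQ ρ')) ∘ ⇑τ⁻¹
        = v1 ∘ ⇑(via P' hP' ρ * via Q' hQ' ρ') := by
      rw [← via_conj P P' hP hP' τ hτ1 ρ, ← via_conj Q Q' hQ hQ' τ hτ2 ρ']
      funext i
      simp only [Function.comp_apply, Perm.mul_apply, inv_inv, inv_app']
    rw [h6]
  have h0 : ip sO (act k l _ Y' (tn v1 C.ξ)) = 0 := by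
    rw [← st_st Y', ← act_adj]
    have : act k l _ (st Y') sO = 0 := hsOT _ (JJ_st hY'J)
    rw [this]
    unfold ip
    exact Finset.sum_eq_zero (fun w _ => by simp)
  rw [hact, ip_sum_right] at h0
  rw [← h0]
  unfold Dfull
  have h5 : ∀ ρ ρ' : Perm (Lt k l), v1 ∘ ⇑(via P' hP' ρ * via Q' hQ' ρ')
      = Function.extend P' ρ (Function.extend Q' ρ' w) := by
    intro ρ ρ'
    funext z
    rw [Function.comp_apply, Perm.mul_apply]
    by_cases h1 : ∃ c, P' c = z
    · obtain ⟨c, rfl⟩ := h1
      rw [via_apply' Q' hQ' ρ' (fun d e => hPQ' c d e.symm), via_apply, hP'.extend_apply, hv1,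
        hP'.extend_apply]
      rfl
    · by_cases h2 : ∃ c, Q' c = z
      · obtain ⟨c, rfl⟩ := h2
        have h3 : ¬ ∃ d, P' d = Q' (ρ' c) := fun ⟨d, e⟩ => hPQ' _ _ e
        have h4 : ¬ ∃ d, P' d = Q' c := fun ⟨d, e⟩ => hPQ' _ _ e
        rw [via_apply, via_apply' P' hP' ρ (fun d e => hPQ' _ _ e), hv1,
          Function.extend_apply' _ _ _ h3, hQ'.extend_apply,
          Function.extend_apply' _ _ _ h4, hQ'.extend_apply]
        rfl
      · push Not at h1 h2
        rw [via_apply' Q' hQ' ρ' h2, via_apply' P' hP' ρ h1, hv1,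
          Function.extend_apply' _ _ _ (by push Not; exact h1),
          Function.extend_apply' _ _ _ (by push Not; exact h2),
          Function.extend_apply' _ _ _ (by push Not; exact h1),
          Function.extend_apply' _ _ _ (by push Not; exact h2)]
  rw [Finset.sum_congr rfl (fun ρ' _ => Finset.mul_sum _ _ _), Finset.sum_comm]
  refine Finset.sum_congr rfl (fun ρ _ => ?_)
  rw [ip_sum_right]
  refine Finset.sum_congr rfl (fun ρ' _ => ?_)
  rw [ip_smul_right, hC, hcO, h5]
  ring

end Pool.PI34.Super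

end

/-! ### part Rl8 -/
section

/-!
PI34, rational lemma, file 8: the elements `A_P A_Q (1 ⊗ z)`.
-/

set_option linter.unusedSectionVars false
set_option linter.unusedSimpArgs false

namespace Pool.PI34.Super

open Equiv Finset

variable {k l n m : ℕ}

theorem via_inv (P : Lt k l → Fin n) (hP : Function.Injective P) (ρ : Perm (Lt k l)) :
    via P hP ρ⁻¹ = (via P hP ρ)⁻¹ := by
  have : ∀ ρ : Perm (Lt k l), via P hP ρ = Perm.viaEmbeddingHom ⟨P, hP⟩ ρ := fun ρ => rfl
  rw [this, this, map_inv]

theorem via_sign (P : Lt k l → Fin n) (hP : Function.Injective P) (ρ : Perm (Lt k l)) :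
    Perm.sign (via P hP ρ) = Perm.sign ρ := by
  have h : ∀ (inst : DecidablePred (· ∈ Set.range P)),
      Perm.sign (@Perm.extendDomain _ _ ρ (· ∈ Set.range P) inst (ofInjective P hP)) =
        Perm.sign ρ := fun inst => Perm.sign_extendDomain ρ (ofInjective P hP)
  exact h _

theorem via_inj (P : Lt k l → Fin n) (hP : Function.Injective P) :
    Function.Injective (via P hP) := by
  intro a b h
  apply Equiv.ext
  intro c
  have := Equiv.ext_iff.1 h (P c)
  rw [via_apply, via_apply] at this
  exact hP this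

theorem via_surj (P : Lt k l → Fin n) (hP : Function.Injective P) (σ : Perm (Fin n))
    (hσ : ∀ i, i ∉ univ.image P → σ i = i) : ∃ ρ, via P hP ρ = σ := by
  classical
  have h1 : ∀ c, ∃ d, P d = σ (P c) := by
    intro c
    by_contra hcon
    have h2 : σ (P c) ∉ univ.image P := by
      rw [Finset.mem_image]
      rintro ⟨d, _, hd⟩
      exact hcon ⟨d, hd⟩
    have h3 := hσ _ h2
    have h4 := σ.injective h3
    exact hcon ⟨c, h4.symm⟩
  choose f hf using h1
  have hinj : Function.Injective f := by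
    intro a b hab
    have := hf a
    rw [hab, hf b] at this
    exact (hP (σ.injective this)).symm
  let ρ : Perm (Lt k l) := Equiv.ofBijective f (Finite.injective_iff_bijective.1 hinj)
  refine ⟨ρ, ?_⟩
  apply Equiv.ext
  intro x
  by_cases hx : ∃ c, P c = x
  · obtain ⟨c, rfl⟩ := hx
    rw [via_apply]
    exact hf c
  · push Not at hx
    rw [via_apply' P hP ρ hx, hσ]
    rw [Finset.mem_image]
    rintro ⟨c, _, hc⟩
    exact hx c hc

theorem sum_supp {V : Type*} [AddCommMonoid V] (P : Lt k l → Fin n) (hP : Function.Injective P)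
    (F : Perm (Fin n) → V) :
    ∑ σ ∈ univ.filter (fun σ : Perm (Fin n) => ∀ i, i ∉ univ.image P → σ i = i), F σ
      = ∑ ρ : Perm (Lt k l), F (via P hP ρ) := by
  classical
  symm
  refine Finset.sum_bij (fun ρ _ => via P hP ρ) ?_ ?_ ?_ (fun _ _ => rfl)
  · intro ρ _
    rw [Finset.mem_filter]
    refine ⟨Finset.mem_univ _, fun i hi => via_apply' P hP ρ (fun c hc => hi ?_)⟩
    rw [Finset.mem_image]; exact ⟨c, Finset.mem_univ _, hc⟩
  · intro a _ b _ h; exact via_inj P hP h
  · intro σ hσ
    rw [Finset.mem_filter] at hσ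
    obtain ⟨ρ, hρ⟩ := via_surj P hP σ hσ.2
    exact ⟨ρ, Finset.mem_univ _, hρ⟩

/-- The antisymmetrizer of the plain flips over `T`. -/
noncomputable def Cat.alt (C : Cat k l m) (T : Finset (Fin n)) :
    MonoidAlgebra ℚ (Perm (Fin (n + m))) :=
  ∑ σ ∈ univ.filter (fun σ : Perm (Fin n) => ∀ i, i ∉ T → σ i = i),
      ((Perm.sign σ : ℤ) : ℚ) • C.fl σ

theorem Cat.act_alt (C : Cat k l m) (P : Lt k l → Fin n) (hP : Function.Injective P)
    (v : Fin n → Lt k l) : act k l _ (C.alt (univ.image P)) (tn v C.ξ)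
      = ∑ ρ : Perm (Lt k l), ((Perm.sign ρ : ℤ) : ℚ) • tn (v ∘ ⇑(via P hP ρ)) C.ξ := by
  unfold Cat.alt
  rw [map_sum, LinearMap.sum_apply]
  simp only [map_smul, LinearMap.smul_apply, C.act_fl]
  rw [sum_supp P hP (fun σ => ((Perm.sign σ : ℤ) : ℚ) • tn (v ∘ ⇑σ⁻¹) C.ξ)]
  rw [← Equiv.sum_comp (Equiv.inv (Perm (Lt k l)))]
  refine Finset.sum_congr rfl (fun ρ _ => ?_)
  rw [Equiv.inv_apply, via_inv, inv_inv, Perm.sign_inv, via_sign]

/-- `A_P A_Q (1 ⊗ z)` acts as the product of two plain antisymmetrizers. -/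
theorem isAlt_alt (C : Cat k l m) {P Q : Lt k l → Fin n} (hP : Function.Injective P)
    (hQ : Function.Injective Q) (hPQ : ∀ c d, P c ≠ Q d) :
    IsAlt C P Q hP hQ (C.alt (univ.image P) * C.alt (univ.image Q) * C.Z n) := by
  intro v
  rw [map_mul, map_mul, Module.End.mul_apply, Module.End.mul_apply, C.act_Z, C.act_alt Q hQ,
    map_sum, Finset.sum_comm]
  refine Finset.sum_congr rfl (fun ρ' _ => ?_)
  rw [map_smul, C.act_alt P hP, Finset.smul_sum]
  refine Finset.sum_congr rfl (fun ρ _ => ?_)
  rw [smul_smul, mul_comm]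
  have : (v ∘ ⇑(via Q hQ ρ')) ∘ ⇑(via P hP ρ) = v ∘ ⇑(via P hP ρ * via Q hQ ρ') := by
    funext x
    simp only [Function.comp_apply, Perm.mul_apply]
    congr 1
    by_cases h1 : ∃ c, P c = x
    · obtain ⟨c, rfl⟩ := h1
      rw [via_apply, via_apply' Q hQ ρ' (fun d e => hPQ _ _ e.symm),
        via_apply' Q hQ ρ' (fun d e => hPQ _ _ e.symm), via_apply]
    · push Not at h1
      rw [via_apply' P hP ρ h1]
      by_cases h2 : ∃ c, Q c = x
      · obtain ⟨c, rfl⟩ := h2
        rw [via_apply, via_apply' P hP ρ (fun d e => hPQ _ _ e)]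
      · push Not at h2
        rw [via_apply' Q hQ ρ' h2, via_apply' P hP ρ h1]
  rw [this]

/-- The last `q` strands and the catalyst. -/
def phq (n' q m : ℕ) : Fin (q + m) ↪o Fin (n' + q + m) :=
  (Fin.natAddOrderEmb n').trans (Fin.castOrderIso (add_assoc n' q m).symm).toOrderEmbedding

theorem phq_val (n' q m : ℕ) (x : Fin (q + m)) : (phq n' q m x).val = n' + x.val := rfl

theorem conv_phq (n' q m : ℕ) : Conv (phq n' q m) := by
  intro x hx
  left
  intro a
  rw [Fin.lt_def, phq_val]
  by_contra h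
  apply hx
  have hx1 : x.val - n' < q + m := by have := x.2; omega
  refine ⟨⟨x.val - n', hx1⟩, Fin.ext ?_⟩
  rw [phq_val]
  simp only
  omega

theorem act_phq (C : Cat k l m) {n' q : ℕ} (y : MonoidAlgebra ℚ (Perm (Fin (q + m))))
    {α : Type} (I : Finset α) (c : α → ℚ) (τ : α → Perm (Fin q))
    (hy : ∀ v : Fin q → Lt k l, act k l _ y (tn v C.ξ) = ∑ i ∈ I, c i • tn (v ∘ ⇑(τ i)) C.ξ)
    (v : Fin (n' + q) → Lt k l) :
    act k l _ (pl (phq n' q m) y) (tn v C.ξ)
      = ∑ i ∈ I, c i • tn (v ∘ ⇑(ext (Fin.natAddOrderEmb n') (τ i))) C.ξ := by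
  classical
  have hL : ∀ w : Fin (n' + q + m) → Lt k l, ∀ i : Fin q,
      (w ∘ phq n' q m) (Fin.castAdd m i) = w (phL (n' + q) m (Fin.natAdd n' i)) := by
    intro w i
    rw [Function.comp_apply]
    congr 1
  have hR : ∀ w : Fin (n' + q + m) → Lt k l, (w ∘ phq n' q m) ∘ phR q m
      = w ∘ phR (n' + q) m := by
    intro w
    funext i
    simp only [Function.comp_apply]
    congr 1
    apply Fin.ext
    rw [phq_val]
    have h1 : (phR q m i).val = q + i.val := rfl
    have h2 : (phR (n' + q) m i).val = n' + q + i.val := rfl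
    rw [h1, h2]; omega
  funext w
  rw [act_pl (conv_phq n' q m)]
  have hout : ∀ i : Fin n', phL (n' + q) m (Fin.castAdd q i) ∉ Set.range (phq n' q m) := by
    rintro i ⟨x, hx⟩
    have h1 := congrArg Fin.val hx
    rw [phq_val] at h1
    have h2 : (phL (n' + q) m (Fin.castAdd q i)).val = i.val := rfl
    have := i.2; omega
  have h : sl (phq n' q m) w (tn v C.ξ)
      = if (∀ i : Fin n', w (phL (n' + q) m (Fin.castAdd q i)) = v (Fin.castAdd q i))
        then tn (fun i => v (Fin.natAdd n' i)) C.ξ else 0 := by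
    funext u
    rw [sl_apply, tn_apply]
    have h2 : Function.extend (phq n' q m) u w ∘ phR (n' + q) m = u ∘ phR q m := by
      rw [← hR]
      funext i
      simp only [Function.comp_apply]
      rw [(phq n' q m).injective.extend_apply]
    rw [h2]
    have h3 : (Function.extend (phq n' q m) u w ∘ phL (n' + q) m = v) ↔
        ((∀ i : Fin n', w (phL (n' + q) m (Fin.castAdd q i)) = v (Fin.castAdd q i)) ∧
          u ∘ phL q m = fun i => v (Fin.natAdd n' i)) := by
      constructor
      · intro h4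
        refine ⟨fun i => ?_, ?_⟩
        · have := congrFun h4 (Fin.castAdd q i)
          rw [Function.comp_apply, Function.extend_apply' _ _ _ (hout i)] at this
          exact this
        · funext i
          have := congrFun h4 (Fin.natAdd n' i)
          have h5 : phL (n' + q) m (Fin.natAdd n' i) = phq n' q m (phL q m i) := rfl
          rw [Function.comp_apply, h5, (phq n' q m).injective.extend_apply] at this
          exact this
      · rintro ⟨h4, h5⟩
        funext x
        refine Fin.addCases (fun i => ?_) (fun i => ?_) x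
        · rw [Function.comp_apply, Function.extend_apply' _ _ _ (hout i)]; exact h4 i
        · have h6 : phL (n' + q) m (Fin.natAdd n' i) = phq n' q m (phL q m i) := rfl
          rw [Function.comp_apply, h6, (phq n' q m).injective.extend_apply]
          exact congrFun h5 i
    by_cases h4 : (∀ i : Fin n', w (phL (n' + q) m (Fin.castAdd q i)) = v (Fin.castAdd q i))
    · rw [if_pos h4, tn_apply]
      by_cases h5 : u ∘ phL q m = fun i => v (Fin.natAdd n' i)
      · rw [if_pos (h3.2 ⟨h4, h5⟩), if_pos h5]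
      · rw [if_neg (fun h6 => h5 (h3.1 h6).2), if_neg h5]
    · rw [if_neg h4, if_neg (fun h6 => h4 (h3.1 h6).1)]; rfl
  rw [h, Finset.sum_apply]
  have hτL : ∀ (τ : Perm (Fin q)) (i : Fin n'),
      ext (Fin.natAddOrderEmb n') τ (Fin.castAdd q i) = Fin.castAdd q i := by
    intro τ i
    refine ext_apply' _ _ _ ?_
    rintro ⟨x, hx⟩
    have h1 := congrArg Fin.val hx
    have h2 : (Fin.natAddOrderEmb n' x : Fin (n' + q)).val = n' + x.val := rfl
    have h3 : (Fin.castAdd q i).val = i.val := rfl
    have := i.2; omega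
  have hτR : ∀ (τ : Perm (Fin q)) (i : Fin q),
      ext (Fin.natAddOrderEmb n') τ (Fin.natAdd n' i) = Fin.natAdd n' (τ i) := by
    intro τ i
    exact ext_apply (Fin.natAddOrderEmb n') τ i
  have h7 : ∀ τ : Perm (Fin q), (w ∘ phL (n' + q) m = v ∘ ⇑(ext (Fin.natAddOrderEmb n') τ)) ↔
      ((∀ i : Fin n', w (phL (n' + q) m (Fin.castAdd q i)) = v (Fin.castAdd q i)) ∧
        (w ∘ phq n' q m) ∘ phL q m = (fun i => v (Fin.natAdd n' i)) ∘ ⇑τ) := by
    intro τ
    constructor
    · intro h4
      refine ⟨fun i => ?_, ?_⟩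
      · have := congrFun h4 (Fin.castAdd q i)
        rw [Function.comp_apply, Function.comp_apply, hτL] at this
        exact this
      · funext i
        have := congrFun h4 (Fin.natAdd n' i)
        rw [Function.comp_apply, Function.comp_apply, hτR] at this
        exact this
    · rintro ⟨h4, h5⟩
      funext x
      refine Fin.addCases (fun i => ?_) (fun i => ?_) x
      · rw [Function.comp_apply, Function.comp_apply, hτL]; exact h4 i
      · rw [Function.comp_apply, Function.comp_apply, hτR]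
        exact congrFun h5 i
  by_cases h4 : (∀ i : Fin n', w (phL (n' + q) m (Fin.castAdd q i)) = v (Fin.castAdd q i))
  · rw [if_pos h4, hy, Finset.sum_apply]
    refine Finset.sum_congr rfl (fun i _ => ?_)
    rw [Pi.smul_apply, Pi.smul_apply, tn_apply, tn_apply, hR]
    by_cases h5 : (w ∘ phq n' q m) ∘ phL q m = (fun i => v (Fin.natAdd n' i)) ∘ ⇑(τ i)
    · rw [if_pos h5, if_pos ((h7 _).2 ⟨h4, h5⟩)]
    · rw [if_neg h5, if_neg (fun h6 => h5 ((h7 _).1 h6).2)]
  · rw [if_neg h4, map_zero]
    symm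
    refine Finset.sum_eq_zero (fun i _ => ?_)
    rw [Pi.smul_apply, tn_apply, if_neg (fun h6 => h4 ((h7 _).1 h6).1), smul_zero]

theorem natAdd_inj' (n' : ℕ) {q : ℕ} {a b : Fin q} (h : Fin.natAdd n' a = Fin.natAdd n' b) :
    a = b := by
  have := congrArg Fin.val h
  simp only [Fin.val_natAdd] at this
  exact Fin.ext (by omega)

theorem natP_inj (n' : ℕ) {q : ℕ} {P : Lt k l → Fin q} (hP : Function.Injective P) :
    Function.Injective (fun c => Fin.natAdd n' (P c)) := fun _ _ h => hP (natAdd_inj' n' h)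

/-- Placement of `A_P A_Q (1 ⊗ z)` on the last strands. -/
theorem isAlt_pl (C : Cat k l m) {n' q : ℕ} {P Q : Lt k l → Fin q} (hP : Function.Injective P)
    (hQ : Function.Injective Q) {Y : MonoidAlgebra ℚ (Perm (Fin (q + m)))}
    (hY : IsAlt C P Q hP hQ Y) :
    IsAlt C (fun c => Fin.natAdd n' (P c)) (fun c => Fin.natAdd n' (Q c))
      (natP_inj n' hP) (natP_inj n' hQ) (pl (phq n' q m) Y) := by
  intro v
  have h1 := act_phq C (n' := n') Y (univ : Finset (Perm (Lt k l) × Perm (Lt k l)))
    (fun x => ((Perm.sign x.1 : ℤ) : ℚ) * ((Perm.sign x.2 : ℤ) : ℚ))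
    (fun x => via P hP x.1 * via Q hQ x.2) (fun v => by
      rw [hY, Fintype.sum_prod_type]) v
  rw [h1, Fintype.sum_prod_type]
  refine Finset.sum_congr rfl (fun ρ _ => Finset.sum_congr rfl (fun ρ' _ => ?_))
  have h2 : ∀ (P : Lt k l → Fin q) (hP : Function.Injective P) (ρ : Perm (Lt k l)),
      ext (Fin.natAddOrderEmb n') (via P hP ρ)
        = via (fun c => Fin.natAdd n' (P c)) (natP_inj n' hP) ρ := by
    intro P hP ρ
    apply Equiv.ext
    intro x
    by_cases hx : ∃ c, Fin.natAdd n' (P c) = x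
    · obtain ⟨c, rfl⟩ := hx
      rw [via_apply (fun c => Fin.natAdd n' (P c)) (natP_inj n' hP) ρ c]
      have := ext_apply (Fin.natAddOrderEmb n') (via P hP ρ) (P c)
      rw [via_apply] at this
      exact this
    · push Not at hx
      rw [via_apply' (fun c => Fin.natAdd n' (P c)) (natP_inj n' hP) ρ hx]
      by_cases hx2 : x ∈ Set.range (Fin.natAddOrderEmb n' : Fin q ↪o Fin (n' + q))
      · obtain ⟨y, rfl⟩ := hx2
        rw [ext_apply, via_apply' P hP ρ (fun c e => hx c (by rw [e]; rfl))]
      · exact ext_apply' _ _ _ hx2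
  rw [map_mul, h2, h2]

end Pool.PI34.Super

end
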