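import Pool.Agent.LibPI54.M02

/-! ### part St1 -/
section

/-!
PI34, START, file 1: highest weight vectors of a module all whose words contain every even
letter, and their pairing with the rectangular vector.
-/

set_option linter.unusedSectionVars false
set_option linter.unusedSimpArgs false

namespace Pool.PI34.Super

open Equiv Finset

section hom

variable {k l : ℕ} {ι : Type} [Fintype ι] [LinearOrder ι]

/-- highest weight vectors -/
def HW (v : W k l ι) : Prop := ∀ a b : Lt k l, idx a < idx b → EE a b v = 0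

theorem HW_diag {v : W k l ι} (hv : HW v) (c : Lt k l) (r : ℚ) : HW (EE c c v - r • v) := by
  intro a b hab
  rw [map_sub, map_smul, hv a b hab, smul_zero, sub_zero, EE_comm_apply, hv a b hab, map_zero,
    smul_zero, zero_add]
  have h1 : (if b = c then EE a c v else 0) = 0 := by
    split_ifs with h
    · rw [← h]; exact hv a b hab
    · rfl
  have h2 : (if c = a then EE c b v else 0) = 0 := by
    split_ifs with h
    · rw [h]; exact hv a b hab
    · rfl
  rw [h1, h2, smul_zero, sub_zero]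

theorem exists_hom (N : Submodule ℚ (W k l ι))
    (hst : ∀ a b : Lt k l, ∀ v ∈ N, EE a b v ∈ N) (n : ℕ) :
    ∀ v ∈ N, v ≠ 0 → HW v → (univ.filter (fun w => v w ≠ 0)).card ≤ n →
      ∃ v' ∈ N, v' ≠ 0 ∧ HW v' ∧ ∀ w w', v' w ≠ 0 → v' w' ≠ 0 → ∀ c, cnt c w = cnt c w' := by
  classical
  induction n with
  | zero =>
    intro v _ hne _ hc
    exfalso
    apply hne
    funext w
    by_contra h
    have : w ∈ univ.filter (fun w => v w ≠ 0) := by
      rw [Finset.mem_filter]; exact ⟨Finset.mem_univ _, h⟩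
    rw [Finset.card_eq_zero.1 (Nat.le_zero.1 hc)] at this
    exact absurd this (Finset.notMem_empty _)
  | succ n ih =>
    intro v hv hne hhw hc
    by_cases hall : ∀ w w', v w ≠ 0 → v w' ≠ 0 → ∀ c, cnt c w = cnt c w'
    · exact ⟨v, hv, hne, hhw, hall⟩
    · push Not at hall
      obtain ⟨w, w', hw, hw', c, hcne⟩ := hall
      refine ih (EE c c v - (cnt c w : ℚ) • v)
        (N.sub_mem (hst c c v hv) (N.smul_mem _ hv)) ?_ (HW_diag hhw c _) ?_
      · intro h
        have h1 := congrFun h w'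
        rw [Pi.sub_apply, Pi.smul_apply, EE_diag, smul_eq_mul, ← sub_mul, Pi.zero_apply,
          mul_eq_zero] at h1
        rcases h1 with h1 | h1
        · rw [sub_eq_zero] at h1
          exact hcne (by exact_mod_cast h1.symm)
        · exact hw' h1
      · have hss : univ.filter (fun u => (EE c c v - (cnt c w : ℚ) • v) u ≠ 0) ⊂
            univ.filter (fun u => v u ≠ 0) := by
          rw [Finset.ssubset_iff_of_subset]
          · refine ⟨w, ?_, ?_⟩
            · rw [Finset.mem_filter]; exact ⟨Finset.mem_univ _, hw⟩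
            · rw [Finset.mem_filter]
              rintro ⟨_, h⟩
              apply h
              rw [Pi.sub_apply, Pi.smul_apply, EE_diag, smul_eq_mul, sub_self]
          · intro u hu
            rw [Finset.mem_filter] at hu ⊢
            refine ⟨hu.1, fun h => hu.2 ?_⟩
            rw [Pi.sub_apply, Pi.smul_apply, EE_diag, smul_eq_mul, h, mul_zero, mul_zero,
              sub_zero]
        have := Finset.card_lt_card hss
        omega

/-- The state in the lowering argument. -/
def LS (i : Fin k) (s : ℕ) (x : W k l ι) : Prop :=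
  (∀ t : Fin l, s ≤ t.val → EE (Sum.inl i) (Sum.inr t) x = 0) ∧
  (∀ t : Fin l, s ≤ t.val → ∀ t' : Fin l, t' < t → EE (Sum.inr t') (Sum.inr t) x = 0)

theorem LS_step {i : Fin k} {s : Fin l} {x : W k l ι} (h : LS i s.val x) :
    LS i (s.val + 1) (EE (Sum.inr s) (Sum.inl i) x) := by
  constructor
  · intro t ht
    rw [EE_comm_apply, h.1 t (by omega), map_zero, smul_zero, zero_add]
    have h1 : ¬ (Sum.inr t : Lt k l) = Sum.inr s := by
      intro e; have := Sum.inr_injective e; rw [this] at ht; omega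
    rw [if_neg h1, if_pos rfl, h.2 t (by omega) s (by rw [Fin.lt_def]; omega), smul_zero,
      sub_zero]
  · intro t ht t' ht'
    rw [EE_comm_apply, h.2 t (by omega) t' ht', map_zero, smul_zero, zero_add]
    have h1 : ¬ (Sum.inr t : Lt k l) = Sum.inr s := by
      intro e; have := Sum.inr_injective e; rw [this] at ht; omega
    rw [if_neg h1, if_neg (by simp), smul_zero, sub_zero]

theorem hom_step {μ : Lt k l → ℚ} {x : W k l ι} (h : ∀ c, EE c c x = μ c • x) (a b : Lt k l)
    (c : Lt k l) : EE c c (EE a b x)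
      = (μ c + (if c = a then 1 else 0) - (if c = b then 1 else 0)) • EE a b x := by
  rw [EE_comm_apply, h c, map_smul]
  have h1 : dd c c a b = 1 := by unfold dd; simp
  rw [h1, one_smul, one_smul]
  have h2 : (if c = a then EE c b x else 0) = (if c = a then (1 : ℚ) else 0) • EE a b x := by
    split_ifs with e
    · rw [e, one_smul]
    · rw [zero_smul]
  have h3 : (if b = c then EE a c x else 0) = (if c = b then (1 : ℚ) else 0) • EE a b x := by
    by_cases e : c = b
    · rw [if_pos e, if_pos e.symm, e, one_smul]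
    · rw [if_neg e, if_neg (fun e' => e e'.symm), zero_smul]
  rw [h2, h3, sub_smul, add_smul]

theorem lower (N : Submodule ℚ (W k l ι))
    (hst : ∀ a b : Lt k l, ∀ v ∈ N, EE a b v ∈ N) (i : Fin k)
    (hN : ∀ x ∈ N, ∀ w, x w ≠ 0 → 1 ≤ cnt (Sum.inl i) w) : ∀ (d s : ℕ), s + d = l →
    ∀ x ∈ N, x ≠ 0 → LS i s x → ∀ μ : Lt k l → ℚ, (∀ c, EE c c x = μ c • x) →
      (d : ℚ) + 1 ≤ μ (Sum.inl i) := by
  classical
  intro d
  induction d with
  | zero =>
    intro s _ x hx hne _ μ hμ
    obtain ⟨w, hw⟩ := Function.ne_iff.1 hne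
    have h1 := congrFun (hμ (Sum.inl i)) w
    rw [EE_diag, Pi.smul_apply, smul_eq_mul] at h1
    have h2 := mul_right_cancel₀ hw h1
    have h3 := hN x hx w hw
    rw [← h2]
    push_cast
    rw [zero_add]
    exact_mod_cast h3
  | succ d ih =>
    intro s hs x hx hne hLS μ hμ
    have hsl : s < l := by omega
    set t : Fin l := ⟨s, hsl⟩ with ht
    set x' := EE (Sum.inr t) (Sum.inl i) x with hx'
    obtain ⟨w, hw⟩ := Function.ne_iff.1 hne
    have hμc : ∀ c, μ c = (cnt c w : ℚ) := by
      intro c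
      have h1 := congrFun (hμ c) w
      rw [EE_diag, Pi.smul_apply, smul_eq_mul] at h1
      exact (mul_right_cancel₀ hw h1).symm
    have h1 : EE (Sum.inl i) (Sum.inr t) x' = (μ (Sum.inl i) + μ (Sum.inr t)) • x := by
      rw [hx', EE_comm_apply, hLS.1 t (by rw [ht]), map_zero, smul_zero, zero_add, if_pos rfl,
        if_pos rfl, hμ, hμ]
      have h2 : dd (Sum.inl i) (Sum.inr t) (Sum.inr t) (Sum.inl i) = (-1 : ℚ) := by
        unfold dd; simp
      rw [h2, neg_smul, one_smul, sub_neg_eq_add, add_smul]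
    have hne' : x' ≠ 0 := by
      intro h
      rw [h, map_zero] at h1
      have h2 : μ (Sum.inl i) + μ (Sum.inr t) = 0 := by
        rcases smul_eq_zero.1 h1.symm with h3 | h3
        · exact h3
        · exact absurd h3 hne
      rw [hμc, hμc] at h2
      have h3 := hN x hx w hw
      have h4 : (1 : ℚ) ≤ (cnt (Sum.inl i) w : ℚ) := by exact_mod_cast h3
      have h5 : (0 : ℚ) ≤ (cnt (Sum.inr t : Lt k l) w : ℚ) := by positivity
      linarith
    have h2 := ih (s + 1) (by omega) x' (hst _ _ x hx) hne' (LS_step (s := t) hLS)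
      _ (hom_step hμ (Sum.inr t) (Sum.inl i))
    rw [if_neg (by simp), if_pos rfl] at h2
    push_cast
    linarith

/-- the counts of a homogeneous highest weight vector -/
theorem hw_counts (N : Submodule ℚ (W k l ι))
    (hst : ∀ a b : Lt k l, ∀ v ∈ N, EE a b v ∈ N)
    (hN : ∀ x ∈ N, ∀ w, x w ≠ 0 → ∀ i : Fin k, 1 ≤ cnt (Sum.inl i) w) (hne : N ≠ ⊥) :
    ∃ x ∈ N, x ≠ 0 ∧ HW x ∧ ∀ w, x w ≠ 0 → ∀ i : Fin k, l + 1 ≤ cnt (Sum.inl i) w := by
  classical
  obtain ⟨u, huN, hu0⟩ := (Submodule.ne_bot_iff N).1 hne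
  obtain ⟨v, hvN, hv0, hvr⟩ := exists_hw N hst (univ.sup Pool.PI34.Super.ht) u huN hu0
    (fun w _ => Finset.le_sup (Finset.mem_univ w))
  obtain ⟨x, hxN, hx0, hxr, hxh⟩ := exists_hom N hst _ v hvN hv0 hvr le_rfl
  refine ⟨x, hxN, hx0, hxr, fun w hw i => ?_⟩
  have h1 : ∀ c, EE c c x = (cnt c w : ℚ) • x := by
    intro c
    funext w'
    rw [EE_diag, Pi.smul_apply, smul_eq_mul]
    by_cases h : x w' = 0
    · rw [h, mul_zero, mul_zero]
    · rw [hxh w' w h hw c]
  have h2 := lower N hst i (fun x hx w hw => hN x hx w hw i) l 0 (by omega) x hxN hx0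
    ⟨fun t _ => hxr _ _ (by simp [idx]; omega), fun t _ t' ht' => hxr _ _ (by
      simp only [idx, Sum.elim_inr]; rw [Fin.lt_def] at ht'; omega)⟩ _ h1
  exact_mod_cast h2

end hom

section rows

variable {k l : ℕ} {ι : Type} [Fintype ι] [LinearOrder ι]

theorem rows_gen {q : ℕ} {lam : Fin q → Lt k l}
    (hlt : ∀ i j, i < j → idx (lam i) < idx (lam j)) (hpar : ∀ i j, odd (lam i) = odd (lam j))
    (hcl : ∀ a b : Lt k l, odd a = odd b → idx a < idx b → (∃ i, lam i = a) → ∃ i, lam i = b) :
    ∀ (r : ℕ) (R : Finset ι) (y : W k l ι), PR R y → y ≠ 0 →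
      (∀ w, y w ≠ 0 → ∀ i, r ≤ cntR R (lam i) w) →
    ∃ p : Fin r → Fin q → ι, Function.Injective (fun x : Fin r × Fin q => p x.1 x.2) ∧
      (∀ i j, p i j ∈ R) ∧ Drows lam r p y ≠ 0 := by
  classical
  have hinj : Function.Injective lam := by
    intro i j hij
    by_contra hne
    rcases lt_or_gt_of_ne hne with h | h
    · have := hlt i j h; rw [hij] at this; exact lt_irrefl _ this
    · have := hlt j i h; rw [hij] at this; exact lt_irrefl _ this
  intro r
  induction r with
  | zero =>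
    intro R y _ hne _
    exact ⟨Fin.elim0, fun x => x.1.elim0, fun i => i.elim0, hne⟩
  | succ r ih =>
    intro R y hy hne hc
    obtain ⟨w, hw⟩ := Function.ne_iff.1 hne
    obtain ⟨s, hs1, hs2, hs3⟩ := exists_Dop hlt hpar hy hw (fun i => cntR_pos (hc w hw i))
    have hne' : Dop lam s y ≠ 0 := fun e => hs3 (by rw [e]; rfl)
    obtain ⟨p, hp1, hp2, hp3⟩ := ih (R \ univ.image s) (Dop lam s y)
      (Dop_PR' hinj hcl hs1 hs2 hy) hne' (fun w' hw' i => by
        have := (Dop_cnt hinj hs1 hs2 (fun w h' => hc w h' i) hw').1 ⟨i, rfl⟩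
        omega)
    refine ⟨Fin.cons s p, ?_, ?_, ?_⟩
    · rintro ⟨i, j⟩ ⟨i', j'⟩ hij
      simp only at hij
      rcases Fin.eq_zero_or_eq_succ i with rfl | ⟨i, rfl⟩ <;>
        rcases Fin.eq_zero_or_eq_succ i' with rfl | ⟨i', rfl⟩
      · rw [Fin.cons_zero] at hij; rw [hs1 hij]
      · rw [Fin.cons_zero, Fin.cons_succ] at hij
        have := hp2 i' j'
        rw [← hij, Finset.mem_sdiff] at this
        exact absurd (Finset.mem_image.2 ⟨j, Finset.mem_univ _, rfl⟩) this.2
      · rw [Fin.cons_zero, Fin.cons_succ] at hij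
        have := hp2 i j
        rw [hij, Finset.mem_sdiff] at this
        exact absurd (Finset.mem_image.2 ⟨j', Finset.mem_univ _, rfl⟩) this.2
      · rw [Fin.cons_succ, Fin.cons_succ] at hij
        have := @hp1 (i, j) (i', j') hij
        simp only [Prod.mk.injEq] at this
        rw [this.1, this.2]
    · intro i j
      rcases Fin.eq_zero_or_eq_succ i with rfl | ⟨i, rfl⟩
      · rw [Fin.cons_zero]; exact hs2 j
      · rw [Fin.cons_succ]; exact (Finset.mem_sdiff.1 (hp2 i j)).1
    · exact hp3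

end rows

section pairing

variable {k l : ℕ}

/-- Pairing with `σ (e_v ⊗ η)`. -/
theorem pair_of_sum {n m : ℕ} {x : W k l (Fin (n + m))} {η : W k l (Fin m)} {par : Fin m → Bool}
    (hpar : ∀ u, η u ≠ 0 → pv u = par) {P : Fin m → Fin (n + m)} (hPinj : Function.Injective P)
    {w : Fin (n + m) → Lt k l} (hsum : ∑ u, η u * x (Function.extend P u w) ≠ 0) :
    ∃ (σ : Perm (Fin (n + m))) (v : Fin n → Lt k l), ip x (rho k l _ σ (tn v η)) ≠ 0 := by
  classical
  obtain ⟨σ, hσ⟩ := exists_perm_extending P hPinj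
  refine ⟨σ, (w ∘ σ) ∘ phL n m, ?_⟩
  set v := (w ∘ σ) ∘ phL n m with hv
  have h1 : ip x (rho k l _ σ (tn v η))
      = ∑ u : Fin m → Lt k l, x (Function.extend P u w) *
        (eps σ (pv (Fin.append v u)) * η u) := by
    unfold ip
    have h2 : ∀ w', x w' * rho k l _ σ (tn v η) w'
        = (fun w'' : Fin (n + m) → Lt k l => x (w'' ∘ ⇑σ⁻¹) *
          (eps σ (pv w'') * tn v η w'')) (w' ∘ σ) := by
      intro w'
      simp only [rho_apply]
      congr 2
      funext t; simp
    rw [Finset.sum_congr rfl (fun w' _ => h2 w')]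
    refine ((Equiv.arrowCongr σ.symm (Equiv.refl (Lt k l))).sum_comp
      (fun w'' : Fin (n + m) → Lt k l => x (w'' ∘ ⇑σ⁻¹) *
          (eps σ (pv w'') * tn v η w''))).trans ?_
    rw [← (Fin.appendEquiv n m).sum_comp, Fintype.sum_prod_type,
      Finset.sum_eq_single v]
    · refine Finset.sum_congr rfl (fun u _ => ?_)
      have h3 : Fin.appendEquiv n m (v, u) = Fin.append v u := rfl
      rw [h3, tn_apply]
      have h4 : Fin.append v u ∘ phL n m = v := by
        funext i; exact Fin.append_left v u i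
      have h5 : Fin.append v u ∘ phR n m = u := by
        funext i; exact Fin.append_right v u i
      rw [h4, h5, if_pos rfl]
      congr 2
      funext t
      by_cases ht : ∃ s, P s = t
      · obtain ⟨s, rfl⟩ := ht
        rw [hPinj.extend_apply, Function.comp_apply, ← hσ s]
        rw [inv_app']
        exact Fin.append_right v u s
      · rw [Function.extend_apply' _ _ _ ht, Function.comp_apply]
        have h6 : ∀ s, σ⁻¹ t ≠ phR n m s := by
          intro s e
          apply ht
          refine ⟨s, ?_⟩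
          rw [← hσ s, ← e, app_inv']
        obtain ⟨i, hi⟩ : ∃ i, σ⁻¹ t = phL n m i := by
          refine Fin.addCases (motive := fun y => y = σ⁻¹ t → _) (fun i hi => ⟨i, hi.symm⟩)
            (fun i hi => absurd hi.symm (h6 i)) (σ⁻¹ t) rfl
        rw [hi]
        have h7 : Fin.append v u (phL n m i) = v i := Fin.append_left v u i
        rw [h7, hv, Function.comp_apply, Function.comp_apply, ← hi, app_inv']
    · intro v' _ hv'
      refine Finset.sum_eq_zero (fun u _ => ?_)
      have h3 : Fin.appendEquiv n m (v', u) = Fin.append v' u := rfl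
      rw [h3, tn_apply]
      have h4 : Fin.append v' u ∘ phL n m = v' := by
        funext i; exact Fin.append_left v' u i
      rw [h4, if_neg hv', mul_zero, mul_zero]
    · intro h; exact absurd (Finset.mem_univ _) h
  rw [h1]
  let χ : Fin (n + m) → Bool := Fin.append (pv v) par
  have h2 : ∀ u : Fin m → Lt k l, x (Function.extend P u w) *
        (eps σ (pv (Fin.append v u)) * η u)
      = eps σ χ * (η u * x (Function.extend P u w)) := by
    intro u
    by_cases hu : η u = 0
    · rw [hu]; ring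
    · have h3 : pv (Fin.append v u) = χ := by
        funext t
        refine Fin.addCases (fun i => ?_) (fun i => ?_) t
        · simp only [χ, pv, Fin.append_left]
        · have := congrFun (hpar u hu) i
          simp only [χ, pv, Fin.append_right] at *
          exact this
      rw [h3]; ring
  rw [Finset.sum_congr rfl (fun u _ => h2 u), ← Finset.mul_sum]
  refine mul_ne_zero ?_ hsum
  intro h
  have := eps_sq σ χ
  rw [h, mul_zero] at this
  exact zero_ne_one this

/-- The rectangular vector: `r` blocks of size `q`. -/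
def rv {q : ℕ} (r : ℕ) (lam : Fin q → Lt k l) : W k l (Fin (r * q)) :=
  DD (fun x : Fin r × Fin q => finProdFinEquiv x) lam

theorem rv_parity {q r : ℕ} {lam : Fin q → Lt k l} (hev : ∀ i, odd (lam i) = false)
    (u : Fin (r * q) → Lt k l) (hu : rv r lam u ≠ 0) : pv u = fun _ => false := by
  classical
  unfold rv at hu
  rw [DD_expand] at hu
  obtain ⟨π, _, h1⟩ := Finset.exists_ne_zero_of_sum_ne_zero hu
  have h3 : ∀ x : Fin r × Fin q, u (finProdFinEquiv x) = lam (π x.1 x.2) := by
    by_contra h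
    rw [if_neg h, mul_zero] at h1
    exact h1 rfl
  funext s
  obtain ⟨x, rfl⟩ := finProdFinEquiv.surjective s
  unfold pv
  rw [h3, hev]

theorem rv_sum {q r : ℕ} {lam : Fin q → Lt k l} (g : (Fin (r * q) → Lt k l) → ℚ) :
    ∑ u, rv r lam u * g u = ∑ π : Fin r → Perm (Fin q), (∏ j, ((Perm.sign (π j) : ℤ) : ℚ)) *
      g (fun s => lam (π (finProdFinEquiv.symm s).1 (finProdFinEquiv.symm s).2)) := by
  classical
  unfold rv
  simp only [DD_expand, Finset.sum_mul]
  rw [Finset.sum_comm]
  refine Finset.sum_congr rfl (fun π _ => ?_)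
  have hiff : ∀ u : Fin (r * q) → Lt k l, (∀ x : Fin r × Fin q, u (finProdFinEquiv x)
      = lam (π x.1 x.2)) ↔
      u = (fun s => lam (π (finProdFinEquiv.symm s).1 (finProdFinEquiv.symm s).2)) := by
    intro u
    constructor
    · intro h
      funext s
      obtain ⟨x, rfl⟩ := finProdFinEquiv.surjective s
      rw [h, Equiv.symm_apply_apply]
    · rintro rfl x
      simp only [Equiv.symm_apply_apply]
  rw [Finset.sum_eq_single
    (fun s => lam (π (finProdFinEquiv.symm s).1 (finProdFinEquiv.symm s).2))]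
  · rw [if_pos ((hiff _).2 rfl), mul_one]
  · intro u _ hu
    rw [if_neg (fun h => hu ((hiff u).1 h))]; ring
  · intro h; exact absurd (Finset.mem_univ _) h

theorem exists_pair_rv {n q r : ℕ} {lam : Fin q → Lt k l}
    (hlt : ∀ i j, i < j → idx (lam i) < idx (lam j)) (hev : ∀ i, odd (lam i) = false)
    (hcl : ∀ a b : Lt k l, odd a = odd b → idx a < idx b → (∃ i, lam i = a) → ∃ i, lam i = b)
    {x : W k l (Fin (n + r * q))} (hx : HW x) (hne : x ≠ 0)
    (hc : ∀ w, x w ≠ 0 → ∀ i, r ≤ cnt (lam i) w) :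
    ∃ (σ : Perm (Fin (n + r * q))) (v : Fin n → Lt k l),
      ip x (rho k l _ σ (tn v (rv r lam))) ≠ 0 := by
  classical
  obtain ⟨p, hp1, _, hp3⟩ := rows_gen hlt (fun i j => by rw [hev, hev]) hcl r univ x
    (fun a b _ hab => hx a b hab) hne (fun w hw i => hc w hw i)
  obtain ⟨w, hw⟩ := Function.ne_iff.1 hp3
  have hw' : Drows lam r p x w ≠ 0 := hw
  rw [Drows_apply _ _ _ hp1] at hw'
  let P : Fin (r * q) → Fin (n + r * q) := fun s =>
    p (finProdFinEquiv.symm s).1 (finProdFinEquiv.symm s).2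
  have hPinj : Function.Injective P := by
    intro s t hst
    have := @hp1 (finProdFinEquiv.symm s) (finProdFinEquiv.symm t) hst
    exact finProdFinEquiv.symm.injective this
  refine pair_of_sum (rv_parity hev) hPinj (w := w) ?_
  rw [rv_sum]
  refine ne_of_eq_of_ne ?_ hw'
  refine Finset.sum_congr rfl (fun π _ => ?_)
  congr 2
  funext t
  by_cases h1 : ∃ a : Fin r × Fin q, p a.1 a.2 = t
  · obtain ⟨a, rfl⟩ := h1
    have e1 := hp1.extend_apply (fun x : Fin r × Fin q => lam (π x.1 x.2)) w a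
    rw [e1]
    have e2 : p a.1 a.2 = P (finProdFinEquiv a) := by
      simp only [P, Equiv.symm_apply_apply]
    rw [e2, hPinj.extend_apply, Equiv.symm_apply_apply]
  · rw [Function.extend_apply' _ _ _ h1, Function.extend_apply']
    rintro ⟨s, hs⟩
    exact h1 ⟨finProdFinEquiv.symm s, hs⟩

end pairing

end Pool.PI34.Super

end

/-! ### part Rg1 -/
section

/-!
PI34, general rational lemma, file 1: `d` full alphabets.
-/

set_option linter.unusedSectionVars false
set_option linter.unusedSimpArgs false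

namespace Pool.PI34.Super

open Equiv Finset

variable {k l n m : ℕ}

/-- A permutation of `α` transported along an embedding. -/
noncomputable def viaG {α : Type} (P : α → Fin n) (hP : Function.Injective P) (ρ : Perm α) :
    Perm (Fin n) := by
  classical
  exact Perm.viaEmbedding ρ ⟨P, hP⟩

theorem viaG_apply {α : Type} (P : α → Fin n) (hP : Function.Injective P) (ρ : Perm α)
    (c : α) : viaG P hP ρ (P c) = P (ρ c) :=
  Perm.viaEmbedding_apply ρ ⟨P, hP⟩ c

theorem viaG_apply' {α : Type} (P : α → Fin n) (hP : Function.Injective P) (ρ : Perm α)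
    {x : Fin n} (hx : ∀ c, P c ≠ x) : viaG P hP ρ x = x :=
  Perm.viaEmbedding_apply_of_notMem ρ ⟨P, hP⟩ x (by rintro ⟨c, hc⟩; exact hx c hc)

theorem viaG_conj {α : Type} (P P' : α → Fin n) (hP : Function.Injective P)
    (hP' : Function.Injective P')
    (τ : Perm (Fin n)) (h : ∀ c, τ (P c) = P' c) (ρ : Perm α) :
    τ * viaG P hP ρ * τ⁻¹ = viaG P' hP' ρ := by
  apply Equiv.ext
  intro x
  rw [Perm.mul_apply, Perm.mul_apply]
  by_cases hx : ∃ c, P' c = x
  · obtain ⟨c, rfl⟩ := hx
    have h1 : τ⁻¹ (P' c) = P c := by rw [← h c]; exact inv_app' τ _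
    rw [h1, viaG_apply, viaG_apply, h]
  · push Not at hx
    have h1 : ∀ c, P c ≠ τ⁻¹ x := by
      intro c e
      apply hx c
      rw [← h c, e]; exact app_inv' τ _
    rw [viaG_apply' P hP ρ h1, viaG_apply' P' hP' ρ hx]
    exact app_inv' τ _

theorem viaG_mul {α : Type} (P : α → Fin n) (hP : Function.Injective P) (ρ ρ' : Perm α) :
    viaG P hP (ρ * ρ') = viaG P hP ρ * viaG P hP ρ' := by
  apply Equiv.ext
  intro x
  rw [Perm.mul_apply]
  by_cases hx : ∃ c, P c = x
  · obtain ⟨c, rfl⟩ := hx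
    rw [viaG_apply, viaG_apply, viaG_apply]; rfl
  · push Not at hx
    rw [viaG_apply' P hP _ hx, viaG_apply' P hP _ hx, viaG_apply' P hP _ hx]

/-- the block permutation of `Fin d × α` -/
def bp {d : ℕ} {α : Type} (ρ : Fin d → Perm α) : Perm (Fin d × α) := Equiv.prodCongrRight ρ

/-- the sign of a family -/
def sgF {d : ℕ} (ρ : Fin d → Perm (Lt k l)) : ℚ := ∏ i, ((Perm.sign (ρ i) : ℤ) : ℚ)

/-- `Y` acts on the vectors `e_v ⊗ ξ` as the plain antisymmetrizer of `d` full alphabets. -/
def IsAltF (C : Cat k l m) {d : ℕ} (P : Fin d × Lt k l → Fin n) (hP : Function.Injective P)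
    (Y : MonoidAlgebra ℚ (Perm (Fin (n + m)))) : Prop :=
  ∀ v : Fin n → Lt k l, act k l _ Y (tn v C.ξ)
    = ∑ ρ : Fin d → Perm (Lt k l), sgF ρ • tn (v ∘ ⇑(viaG P hP (bp ρ))) C.ξ

theorem exists_perm_gen {α : Type} {P P' : α → Fin n} (hP : Function.Injective P)
    (hP' : Function.Injective P') : ∃ τ : Perm (Fin n), ∀ c, τ (P c) = P' c := by
  classical
  let e : {x // x ∈ Set.range P} ≃ {x // x ∈ Set.range P'} :=
    (Equiv.ofInjective _ hP).symm.trans (Equiv.ofInjective _ hP')
  refine ⟨e.extendSubtype, fun s => ?_⟩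
  have := e.extendSubtype_apply_of_mem (P s) ⟨s, rfl⟩
  rw [this]
  change ((Equiv.ofInjective _ hP') ((Equiv.ofInjective _ hP).symm
    ⟨P s, ⟨s, rfl⟩⟩) : Fin n) = P' s
  have h2 : (Equiv.ofInjective _ hP).symm ⟨P s, ⟨s, rfl⟩⟩ = s := by
    rw [Equiv.symm_apply_eq]; rfl
  rw [h2]; rfl

/-- The contraction with `d` full determinants. -/
noncomputable def DF {d : ℕ} (P : Fin d × Lt k l → Fin n) (g : W k l (Fin n)) : W k l (Fin n) :=
  fun w => ∑ ρ : Fin d → Perm (Lt k l), sgF ρ * g (Function.extend P (fun x => ρ x.1 x.2) w)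

theorem Drows_ne {q : ℕ} {lam : Fin q → Lt k l} {r : ℕ} {p : Fin r → Fin q → Fin n}
    (hp : Function.Injective (fun x : Fin r × Fin q => p x.1 x.2)) {y : W k l (Fin n)}
    {w : Fin n → Lt k l} (h : Drows lam r p y w ≠ 0) :
    ∃ w', y w' ≠ 0 ∧ (∀ i j, ∃ c, w' (p i j) = lam c) ∧ (∀ x, (∀ i j, p i j ≠ x) → w' x = w x) := by
  rw [Drows_apply lam r p hp] at h
  obtain ⟨π, _, hπ⟩ := Finset.exists_ne_zero_of_sum_ne_zero h
  refine ⟨_, right_ne_zero_of_mul hπ, fun i j => ⟨π i j, ?_⟩, fun x hx => ?_⟩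
  · have := hp.extend_apply (fun x : Fin r × Fin q => lam (π x.1 x.2)) w (i, j)
    exact this
  · rw [Function.extend_apply']
    rintro ⟨i, hi⟩; exact hx i.1 i.2 hi

/-- `d` full determinant contractions of a suitable vector do not vanish. -/
theorem exists_DF {d : ℕ} {g : W k l (Fin n)} {O : Fin n → Bool} (hg : QQ univ g d d)
    (hO : ∀ v, g v ≠ 0 → pv v = O) :
    ∃ P : Fin d × Lt k l → Fin n, Function.Injective P ∧ DF P g ≠ 0 := by
  classical
  obtain ⟨p, hp1, hp2, hp3⟩ := rows_ev d univ g 0 d (by rw [zero_add]; exact hg)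
  obtain ⟨p', hp'1, hp'2, hp'3⟩ := rows_od d _ _ 0 0 (by rw [zero_add]; exact hp3)
  have hdis : ∀ (x : Fin d × Fin k) (x' : Fin d × Fin l), p x.1 x.2 ≠ p' x'.1 x'.2 := by
    intro x x' e
    have := hp'2 x'.1 x'.2
    rw [Finset.mem_sdiff, Finset.mem_image] at this
    exact this.2 ⟨x, Finset.mem_univ _, e⟩
  let P : Fin d × Lt k l → Fin n := fun x => Sum.elim (p x.1) (p' x.1) x.2
  have hP : Function.Injective P := by
    rintro ⟨i, a | a⟩ ⟨j, b | b⟩ h
    · have := @hp1 (i, a) (j, b) h
      simp only [Prod.mk.injEq] at this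
      rw [this.1, this.2]
    · exact absurd h (hdis (i, a) (j, b))
    · exact absurd h.symm (hdis (j, b) (i, a))
    · have := @hp'1 (i, a) (j, b) h
      simp only [Prod.mk.injEq] at this
      rw [this.1, this.2]
  refine ⟨P, hP, ?_⟩
  obtain ⟨w, hw⟩ := Function.ne_iff.1 hp'3.ne
  have hw' : Drows (Sum.inr : Fin l → Lt k l) d p' (Drows (Sum.inl : Fin k → Lt k l) d p g) w
    ≠ 0 := hw
  -- parity of the positions
  obtain ⟨w1, hw1, e1, f1⟩ := Drows_ne hp'1 hw'
  obtain ⟨w2, hw2, e2, f2⟩ := Drows_ne hp1 hw1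
  have hO2 := hO w2 hw2
  have cs : ∀ i j, O (p i j) = false := by
    intro i j
    rw [← hO2]
    obtain ⟨c, hc⟩ := e2 i j
    unfold pv; rw [hc]; rfl
  have cs' : ∀ i j, O (p' i j) = true := by
    intro i j
    rw [← hO2]
    obtain ⟨c, hc⟩ := e1 i j
    unfold pv
    rw [f2 _ (fun a b => hdis (a, b) (i, j)), hc]; rfl
  intro h0
  apply hw'
  have h1 := congrFun h0 w
  unfold DF at h1
  rw [Pi.zero_apply] at h1
  rw [← h1, Drows_apply _ _ _ hp'1]
  simp only [Drows_apply _ _ _ hp1]
  have hword : ∀ (π : Fin d → Perm (Fin k)) (π' : Fin d → Perm (Fin l)),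
      Function.extend (fun x : Fin d × Fin k => p x.1 x.2)
        (fun x => (Sum.inl (π x.1 x.2) : Lt k l))
        (Function.extend (fun x : Fin d × Fin l => p' x.1 x.2)
          (fun x => (Sum.inr (π' x.1 x.2) : Lt k l)) w)
      = Function.extend P (fun x => (Perm.sumCongr (π x.1) (π' x.1) : Perm (Fin k ⊕ Fin l)) x.2)
        w := by
    intro π π'
    funext t
    by_cases h1 : ∃ a : Fin d × Fin k, p a.1 a.2 = t
    · obtain ⟨a, rfl⟩ := h1
      have e1 := hp1.extend_apply (fun x : Fin d × Fin k => (Sum.inl (π x.1 x.2) : Lt k l))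
        (Function.extend (fun x : Fin d × Fin l => p' x.1 x.2)
          (fun x => (Sum.inr (π' x.1 x.2) : Lt k l)) w) a
      rw [e1]
      have e2 := hP.extend_apply (fun x : Fin d × Lt k l =>
        (Perm.sumCongr (π x.1) (π' x.1) : Perm (Fin k ⊕ Fin l)) x.2) w (a.1, Sum.inl a.2)
      have e3 : P (a.1, Sum.inl a.2) = p a.1 a.2 := rfl
      rw [e3] at e2
      rw [e2]; simp
    · rw [Function.extend_apply' _ _ _ h1]
      by_cases h2 : ∃ a : Fin d × Fin l, p' a.1 a.2 = t
      · obtain ⟨a, rfl⟩ := h2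
        have e1 := hp'1.extend_apply (fun x : Fin d × Fin l => (Sum.inr (π' x.1 x.2) : Lt k l))
          w a
        rw [e1]
        have e2 := hP.extend_apply (fun x : Fin d × Lt k l =>
          (Perm.sumCongr (π x.1) (π' x.1) : Perm (Fin k ⊕ Fin l)) x.2) w (a.1, Sum.inr a.2)
        have e3 : P (a.1, Sum.inr a.2) = p' a.1 a.2 := rfl
        rw [e3] at e2
        rw [e2]; simp
      · rw [Function.extend_apply' _ _ _ h2, Function.extend_apply']
        rintro ⟨⟨i, c | c⟩, hs⟩
        · exact h1 ⟨(i, c), hs⟩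
        · exact h2 ⟨(i, c), hs⟩
  have h3 : (∑ π' : Fin d → Perm (Fin l), (∏ j, ((Perm.sign (π' j) : ℤ) : ℚ)) *
      ∑ π : Fin d → Perm (Fin k), (∏ j, ((Perm.sign (π j) : ℤ) : ℚ)) *
        g (Function.extend (fun x : Fin d × Fin k => p x.1 x.2)
        (fun x => (Sum.inl (π x.1 x.2) : Lt k l))
        (Function.extend (fun x : Fin d × Fin l => p' x.1 x.2)
          (fun x => (Sum.inr (π' x.1 x.2) : Lt k l)) w)))
      = ∑ x : (Fin d → Perm (Fin k)) × (Fin d → Perm (Fin l)),
        (fun ρ : Fin d → Perm (Lt k l) => sgF ρ *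
          g (Function.extend P (fun x => ρ x.1 x.2) w)) (fun i => Perm.sumCongr (x.1 i) (x.2 i)) := by
    rw [Fintype.sum_prod_type]
    simp only [Finset.mul_sum]
    rw [Finset.sum_comm]
    refine Finset.sum_congr rfl (fun π _ => Finset.sum_congr rfl (fun π' _ => ?_))
    rw [hword]
    unfold sgF
    simp only [Perm.sign_sumCongr, Units.val_mul, Int.cast_mul, Finset.prod_mul_distrib]
    ring
  refine h3.trans ?_
  refine Finset.sum_bij_ne_zero (fun x _ _ => fun i => Perm.sumCongr (x.1 i) (x.2 i))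
    (fun _ _ _ => Finset.mem_univ _) ?_ ?_ (fun _ _ _ => rfl)
  · rintro ⟨a, b⟩ _ _ ⟨a', b'⟩ _ _ h
    have h4 : ∀ i, (a i, b i) = (a' i, b' i) := fun i =>
      Perm.sumCongrHom_injective (α := Fin k) (β := Fin l) (a₁ := (a i, b i))
        (a₂ := (a' i, b' i)) (congrFun h i)
    simp only [Prod.mk.injEq] at h4
    rw [Prod.mk.injEq]
    exact ⟨funext fun i => (h4 i).1, funext fun i => (h4 i).2⟩
  · intro ρ _ hρ
    have h4 := hO _ (right_ne_zero_of_mul hρ)
    have h5 : ∀ i, ∃ x : Perm (Fin k) × Perm (Fin l), Perm.sumCongr x.1 x.2 = ρ i := by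
      intro i
      have h6 : Set.MapsTo (ρ i) (Set.range (Sum.inl : Fin k → Fin k ⊕ Fin l))
          (Set.range (Sum.inl : Fin k → Fin k ⊕ Fin l)) := by
        rintro _ ⟨c, rfl⟩
        have h7 := congrFun h4 (P (i, Sum.inl c))
        unfold pv at h7
        rw [hP.extend_apply] at h7
        have h8 : P (i, Sum.inl c) = p i c := rfl
        rw [h8, cs] at h7
        rcases hρi : ρ i (Sum.inl c) with e | e
        · exact ⟨e, rfl⟩
        · rw [hρi] at h7; simp at h7
      obtain ⟨x, hx⟩ := Perm.mem_sumCongrHom_range_of_perm_mapsTo_inl h6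
      exact ⟨x, hx⟩
    choose x hx using h5
    refine ⟨(fun i => (x i).1, fun i => (x i).2), Finset.mem_univ _, ?_, funext hx⟩
    have h6 : (fun i => Perm.sumCongr (x i).1 (x i).2) = ρ := funext hx
    change (fun ρ : Fin d → Perm (Lt k l) => sgF ρ *
          g (Function.extend P (fun x => ρ x.1 x.2) w)) (fun i => Perm.sumCongr (x i).1 (x i).2) ≠ 0
    rw [h6]
    exact hρ

/-- (RL') for `d` full alphabets. -/
theorem RLF {n d : ℕ} (C : Cat k l (mm k l)) (hC : C.ξ = xi k l)
    {P : Fin d × Lt k l → Fin n} (hP : Function.Injective P)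
    {Y : MonoidAlgebra ℚ (Perm (Fin (n + mm k l)))}
    (hY : IsAltF C P hP Y) (y : MonoidAlgebra ℚ (Perm (Fin (n + mm k l))))
    (hy : ∀ u : Fin (n + mm k l) → Lt k l, act k l _ y (Pi.single u 1) ≠ 0 →
      (∀ i : Fin k, l + d ≤ cnt (Sum.inl i) u) ∧ (∀ j : Fin l, k + d ≤ cnt (Sum.inr j) u)) :
    y ∈ JJ k l Y := by
  classical
  by_contra hcon
  have h1 : ∃ t : W k l (Fin (n + mm k l)), (∀ a ∈ JJ k l Y, act k l _ a t = 0) ∧
      act k l _ y t ≠ 0 := by
    by_contra h
    push Not at h
    exact hcon (JJ_of_kill h)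
  obtain ⟨t, ht, hyt⟩ := h1
  let T : Submodule ℚ (W k l (Fin (n + mm k l))) :=
    { carrier := {t | ∀ a ∈ JJ k l Y, act k l _ a t = 0}
      add_mem' := fun {x y} hx hy a ha => by rw [map_add, hx a ha, hy a ha, add_zero]
      zero_mem' := fun a _ => map_zero _
      smul_mem' := fun c x hx a ha => by rw [map_smul, hx a ha, smul_zero] }
  have hTE : ∀ a b : Lt k l, ∀ t ∈ T, EE a b t ∈ T := by
    intro a b t ht c hc
    have h := LinearMap.congr_fun (act_EE c a b) t
    simp only [Module.End.mul_apply] at h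
    rw [h, ht c hc, map_zero]
  have hTA : ∀ a : MonoidAlgebra ℚ (Perm (Fin (n + mm k l))), ∀ t ∈ T, act k l _ a t ∈ T := by
    intro a t ht c hc
    rw [← Module.End.mul_apply, ← map_mul]
    exact ht _ (JJ_right _ hc)
  let N : Submodule ℚ (W k l (Fin (n + mm k l))) := T.map (act k l _ y)
  have hNE : ∀ a b : Lt k l, ∀ v ∈ N, EE a b v ∈ N := by
    rintro a b _ ⟨t, ht, rfl⟩
    have h := LinearMap.congr_fun (act_EE y a b) t
    simp only [Module.End.mul_apply] at h
    rw [← h]
    exact ⟨_, hTE a b t ht, rfl⟩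
  obtain ⟨x, hxN, hx0, hxr⟩ := exists_hw N hNE (univ.sup Pool.PI34.Super.ht) (act k l _ y t)
    ⟨t, ht, rfl⟩ hyt (fun w _ => Finset.le_sup (Finset.mem_univ w))
  obtain ⟨t', ht', rfl⟩ := hxN
  have hsupp : ∀ w, act k l _ y t' w ≠ 0 → (∀ i : Fin k, l + d ≤ cnt (Sum.inl i) w) ∧
      (∀ j : Fin l, k + d ≤ cnt (Sum.inr j) w) := by
    intro w hw
    have h2 : t' = ∑ u, t' u • (Pi.single u 1 : W k l (Fin (n + mm k l))) := by
      funext w
      rw [Finset.sum_apply, Finset.sum_eq_single w]
      · simp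
      · intro b _ hb; simp [Pi.single_apply, hb.symm]
      · intro h; exact absurd (Finset.mem_univ _) h
    rw [h2, map_sum, Finset.sum_apply] at hw
    obtain ⟨u, _, hu⟩ := Finset.exists_ne_zero_of_sum_ne_zero hw
    rw [map_smul, Pi.smul_apply, smul_eq_mul] at hu
    have h3 := right_ne_zero_of_mul hu
    have h4 : act k l _ y (Pi.single u 1) ≠ 0 := fun e => h3 (by rw [e]; rfl)
    obtain ⟨h5, h6⟩ := hy u h4
    refine ⟨fun i => ?_, fun j => ?_⟩
    · rw [act_single_cnt y u w h3]; exact h5 i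
    · rw [act_single_cnt y u w h3]; exact h6 j
  have hQ0 : QQ univ (act k l _ y t') (d + l) (d + k) := by
    refine ⟨fun a b _ hlt => hxr a b hlt, hx0, fun w hw i => ?_, fun w hw j => ?_⟩
    · rw [add_comm]; exact (hsupp w hw).1 i
    · rw [add_comm]; exact (hsupp w hw).2 j
  obtain ⟨σ, v0, hσ⟩ := exists_pair hQ0
  -- move the contracted strands to the end
  set x := act k l _ y t' with hx
  have hxT : x ∈ T := hTA y t' ht'
  set s := rho k l _ σ⁻¹ x with hs
  have hsT : s ∈ T := by
    have := hTA (MonoidAlgebra.of ℚ _ σ⁻¹) x hxT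
    rwa [act_of] at this
  have hsr : ∀ a b : Lt k l, odd a = odd b → idx a < idx b → EE a b s = 0 := by
    intro a b _ hlt
    have h := LinearMap.congr_fun (rho_EE (k := k) (l := l) σ⁻¹ a b) x
    simp only [Module.End.mul_apply] at h
    rw [hs, ← h, hxr a b hlt, map_zero]
  have hscnt : ∀ w, s w ≠ 0 → (∀ i : Fin k, l + d ≤ cnt (Sum.inl i) w) ∧
      (∀ j : Fin l, k + d ≤ cnt (Sum.inr j) w) := by
    intro w hw
    rw [hs, rho_apply] at hw
    have h2 := hsupp _ (right_ne_zero_of_mul hw)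
    have h3 : ∀ a : Lt k l, cnt a (w ∘ ⇑σ⁻¹) = cnt a w := by
      intro a
      unfold cnt
      refine Finset.card_bij' (fun i _ => σ⁻¹ i) (fun i _ => σ i) ?_ ?_ ?_ ?_
      · intro i hi; simpa using hi
      · intro i hi
        rw [Finset.mem_filter] at hi ⊢
        refine ⟨Finset.mem_univ _, ?_⟩
        rw [Function.comp_apply, inv_app']; exact hi.2
      · intro i _; exact app_inv' σ i
      · intro i _; exact inv_app' σ i
    refine ⟨fun i => ?_, fun j => ?_⟩
    · rw [← h3]; exact h2.1 i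
    · rw [← h3]; exact h2.2 j
  -- the contraction
  set g := cbar (xi k l) s with hg
  have hg0 : g v0 ≠ 0 := by
    rw [hg, cbar_apply, hs, rho_adj, inv_inv]
    exact hσ
  have hgPR : PR univ g := cbar_PR (fun a b h hne => xi_g0_ne a b h hne) hsr
  have hgc1 : ∀ v, g v ≠ 0 → ∀ i : Fin k, d ≤ cntR univ (Sum.inl i) v := by
    intro v hv i
    obtain ⟨u, hu1, hu2⟩ := cbar_supp hv
    have h2 := (hscnt _ hu2).1 i
    rw [cnt_append, xi_cnt_inl i hu1] at h2
    have h3 : cntR univ (Sum.inl i) v = cnt (Sum.inl i) v := rfl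
    omega
  have hgc2 : ∀ v, g v ≠ 0 → ∀ j : Fin l, d ≤ cntR univ (Sum.inr j) v := by
    intro v hv j
    obtain ⟨u, hu1, hu2⟩ := cbar_supp hv
    have h2 := (hscnt _ hu2).2 j
    rw [cnt_append, xi_cnt_inr j hu1] at h2
    have h3 : cntR univ (Sum.inr j) v = cnt (Sum.inr j) v := rfl
    omega
  set O := pv v0 with hO
  have hQO : QQ univ (prO O g) d d := prO_QQ hgPR hgc1 hgc2 ⟨v0, hg0, rfl⟩
  obtain ⟨P', hP', hD⟩ := exists_DF (O := O) hQO (fun v hv => by
    unfold prO at hv
    split_ifs at hv with h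
    · exact h
    · exact absurd rfl hv)
  -- the projected vector comes from `T`
  set sO := act k l _ (st (parE C O)) s with hsO
  have hsOT : sO ∈ T := hTA _ s hsT
  have hcO : ∀ v, ip sO (tn v (xi k l)) = prO O g v := by
    intro v
    rw [hsO, act_adj, st_st, ← hC, act_parE, hC, ip_smul_right]
    unfold prO
    rw [hg, cbar_apply]
    split_ifs
    · rw [one_mul]
    · rw [zero_mul]
  -- move `Y`
  obtain ⟨τ, hτ⟩ := exists_perm_gen hP hP'
  set Y' := C.fl τ * Y * C.fl τ⁻¹ with hY'
  have hY'J : Y' ∈ JJ k l Y := Z_mem_JJ _ _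
  obtain ⟨w, hw⟩ := Function.ne_iff.1 hD
  apply hw
  change DF P' (prO O g) w = 0
  set v1 : Fin n → Lt k l := Function.extend P' Prod.snd w with hv1
  have hact : act k l _ Y' (tn v1 C.ξ) = ∑ ρ : Fin d → Perm (Lt k l),
      sgF ρ • tn (v1 ∘ ⇑(viaG P' hP' (bp ρ))) C.ξ := by
    rw [hY', map_mul, map_mul, Module.End.mul_apply, Module.End.mul_apply, C.act_fl, hY,
      map_sum]
    refine Finset.sum_congr rfl (fun ρ _ => ?_)
    rw [map_smul, C.act_fl]
    have h6 : ((v1 ∘ ⇑τ⁻¹⁻¹) ∘ ⇑(viaG P hP (bp ρ))) ∘ ⇑τ⁻¹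
        = v1 ∘ ⇑(viaG P' hP' (bp ρ)) := by
      rw [← viaG_conj P P' hP hP' τ hτ]
      funext i
      simp only [Function.comp_apply, Perm.mul_apply, inv_inv]
    rw [h6]
  have h0 : ip sO (act k l _ Y' (tn v1 C.ξ)) = 0 := by
    rw [← st_st Y', ← act_adj]
    have : act k l _ (st Y') sO = 0 := hsOT _ (JJ_st hY'J)
    rw [this]
    unfold ip
    exact Finset.sum_eq_zero (fun w _ => by simp)
  rw [hact, ip_sum_right] at h0
  rw [← h0]
  unfold DF
  refine Finset.sum_congr rfl (fun ρ _ => ?_)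
  have h5 : v1 ∘ ⇑(viaG P' hP' (bp ρ)) = Function.extend P' (fun x => ρ x.1 x.2) w := by
    funext z
    rw [Function.comp_apply]
    by_cases h1 : ∃ c, P' c = z
    · obtain ⟨c, rfl⟩ := h1
      rw [viaG_apply, hP'.extend_apply, hv1, hP'.extend_apply]
      rfl
    · push Not at h1
      rw [viaG_apply' P' hP' _ h1, hv1,
        Function.extend_apply' _ _ _ (by push Not; exact h1),
        Function.extend_apply' _ _ _ (by push Not; exact h1)]
  rw [ip_smul_right, hC, hcO, h5]

end Pool.PI34.Super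

end

/-! ### part St2 -/
section

/-!
PI34, START, file 2: the ideal `K(k|l)` is generated by the placed rectangular element.
-/

set_option linter.unusedSectionVars false
set_option linter.unusedSimpArgs false

namespace Pool.PI34.Super

open Equiv Finset

/-- The defining property of the rectangular element. -/
def RectZ (q r : ℕ) (z : MonoidAlgebra ℚ (Perm (Fin (r * q)))) : Prop :=
  ∀ (k l : ℕ) (lam : Fin q → Lt k l), Function.Injective lam → (∀ i, odd (lam i) = false) →
      act k l _ z (rv r lam) = rv r lam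

theorem estep {k l q r n : ℕ} (hq : q ≤ k + 1) (hr : r ≤ l + 1)
    {z : MonoidAlgebra ℚ (Perm (Fin (r * q)))} (hz : RectZ q r z)
    {y : MonoidAlgebra ℚ (Perm (Fin (n + r * q)))} (hy : act k l _ y = 0) :
    y ∈ JJ (k + 1) l (pl (phR n (r * q)) z) := by
  classical
  set Z := pl (phR n (r * q)) z with hZ
  let lam : Fin q → Lt (k + 1) l := fun c => Sum.inl ⟨k + 1 - q + c.val, by omega⟩
  have hlt : ∀ i j, i < j → idx (lam i) < idx (lam j) := by
    intro i j hij
    simp only [lam, idx, Sum.elim_inl]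
    rw [Fin.lt_def] at hij
    omega
  have hinj : Function.Injective lam := by
    intro i j hij
    have h1 := Sum.inl_injective hij
    rw [Fin.mk.injEq] at h1
    exact Fin.ext (by omega)
  have hev : ∀ i, odd (lam i) = false := fun i => rfl
  have hcl : ∀ a b : Lt (k + 1) l, odd a = odd b → idx a < idx b → (∃ i, lam i = a) →
      ∃ i, lam i = b := by
    rintro a b hab hlt' ⟨i, rfl⟩
    rcases b with b | b
    · simp only [lam, idx, Sum.elim_inl] at hlt'
      refine ⟨⟨b.val - (k + 1 - q), by omega⟩, ?_⟩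
      simp only [lam]
      congr 1
      exact Fin.ext (by simp only; omega)
    · simp [lam] at hab
  by_contra hcon
  have h1 : ∃ t : W (k + 1) l (Fin (n + r * q)), (∀ a ∈ JJ (k + 1) l Z, act (k + 1) l _ a t = 0) ∧
      act (k + 1) l _ y t ≠ 0 := by
    by_contra h
    push Not at h
    exact hcon (JJ_of_kill h)
  obtain ⟨t, ht, hyt⟩ := h1
  let T : Submodule ℚ (W (k + 1) l (Fin (n + r * q))) :=
    { carrier := {t | ∀ a ∈ JJ (k + 1) l Z, act (k + 1) l _ a t = 0}
      add_mem' := fun {x y} hx hy a ha => by rw [map_add, hx a ha, hy a ha, add_zero]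
      zero_mem' := fun a _ => map_zero _
      smul_mem' := fun c x hx a ha => by rw [map_smul, hx a ha, smul_zero] }
  have hTE : ∀ a b : Lt (k + 1) l, ∀ t ∈ T, EE a b t ∈ T := by
    intro a b t ht c hc
    have h := LinearMap.congr_fun (act_EE c a b) t
    simp only [Module.End.mul_apply] at h
    rw [h, ht c hc, map_zero]
  let N : Submodule ℚ (W (k + 1) l (Fin (n + r * q))) := T.map (act (k + 1) l _ y)
  have hNE : ∀ a b : Lt (k + 1) l, ∀ v ∈ N, EE a b v ∈ N := by
    rintro a b _ ⟨t, ht, rfl⟩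
    have h := LinearMap.congr_fun (act_EE y a b) t
    simp only [Module.End.mul_apply] at h
    rw [← h]
    exact ⟨_, hTE a b t ht, rfl⟩
  have hsupp : ∀ x ∈ N, ∀ w, x w ≠ 0 → ∀ i : Fin (k + 1), 1 ≤ cnt (Sum.inl i) w := by
    rintro _ ⟨t', ht', rfl⟩ w hw i
    have h2 : t' = ∑ u, t' u • (Pi.single u 1 : W (k + 1) l (Fin (n + r * q))) := by
      funext w
      rw [Finset.sum_apply, Finset.sum_eq_single w]
      · simp
      · intro b _ hb; simp [Pi.single_apply, hb.symm]
      · intro h; exact absurd (Finset.mem_univ _) h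
    rw [h2, map_sum, Finset.sum_apply] at hw
    obtain ⟨u, _, hu⟩ := Finset.exists_ne_zero_of_sum_ne_zero hw
    rw [map_smul, Pi.smul_apply, smul_eq_mul] at hu
    have h3 := right_ne_zero_of_mul hu
    rw [act_single_cnt y u w h3]
    by_contra h4
    apply h3
    have h5 : ∀ s, u s ≠ Sum.inl i := by
      intro s hs
      exact h4 (cnt_pos_iff.2 ⟨s, hs⟩)
    rw [kill_small (fev_odd i) hy (fun s => fev_range i (u s) (h5 s))]
    rfl
  have hNne : N ≠ ⊥ := (Submodule.ne_bot_iff N).2 ⟨_, ⟨t, ht, rfl⟩, hyt⟩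
  obtain ⟨x, hxN, hx0, hxr, hxc⟩ := hw_counts N hNE hsupp hNne
  obtain ⟨σ, v, hσ⟩ := exists_pair_rv (r := r) hlt hev hcl hxr hx0 (fun w hw i =>
    le_trans hr (hxc w hw _))
  obtain ⟨t', ht', rfl⟩ := hxN
  apply hσ
  have h7 : rho (k + 1) l _ σ (tn v (rv r lam))
      = act (k + 1) l _ (MonoidAlgebra.of ℚ _ σ * Z) (tn v (rv r lam)) := by
    rw [map_mul, Module.End.mul_apply, hZ, act_pl_tn, hz _ _ lam hinj hev, act_of]
  rw [h7, ← st_st (MonoidAlgebra.of ℚ _ σ * Z), ← act_adj, ← Module.End.mul_apply,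
    ← map_mul]
  have h8 : st (MonoidAlgebra.of ℚ _ σ * Z) * y ∈ JJ (k + 1) l Z := by
    refine JJ_right _ (JJ_st ?_)
    have := Z_mem_JJ (k := k + 1) (l := l) (Z := Z) (MonoidAlgebra.of ℚ _ σ) 1
    rwa [mul_one] at this
  rw [ht' _ h8]
  unfold ip
  exact Finset.sum_eq_zero (fun w _ => by simp)

/-- With at least `N` even letters the action is faithful. -/
theorem faithful {N l : ℕ} {y : MonoidAlgebra ℚ (Perm (Fin N))} (hy : act N l _ y = 0) :
    y = 0 := by
  classical
  let w0 : Fin N → Lt N l := Sum.inl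
  have h1 : ∀ (y : MonoidAlgebra ℚ (Perm (Fin N))) (τ : Perm (Fin N)),
      act N l _ y (Pi.single w0 1) (w0 ∘ ⇑τ⁻¹) = y.coeff τ := by
    intro y τ
    induction y using MonoidAlgebra.induction_on with
    | of σ =>
      rw [act_of, rho_apply]
      have h2 : eps σ (pv ((w0 ∘ ⇑τ⁻¹) ∘ ⇑σ)) = 1 := by
        unfold eps
        exact Finset.prod_eq_one (fun q _ => by simp [pv, w0])
      rw [h2, one_mul]
      by_cases h : σ = τ
      · subst h
        have h3 : (w0 ∘ ⇑σ⁻¹) ∘ ⇑σ = w0 := by funext i; simp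
        rw [h3, Pi.single_eq_same]
        simp
      · have h3 : (w0 ∘ ⇑τ⁻¹) ∘ ⇑σ ≠ w0 := by
          intro e
          apply h
          ext i
          have h4 := congrFun e i
          have h5 : τ⁻¹ (σ i) = i := Sum.inl_injective h4
          rw [Perm.inv_eq_iff_eq] at h5
          rw [h5]
        rw [Pi.single_eq_of_ne h3]
        simp [h]
    | add x y hx hy => rw [map_add, LinearMap.add_apply, Pi.add_apply, hx, hy]; rfl
    | smul r x hx => rw [map_smul, LinearMap.smul_apply, Pi.smul_apply, hx]; rfl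
  ext τ
  rw [← h1 y τ, hy]
  simp

/-- The two-sided ideal generated by `Z`, as a subspace. -/
noncomputable def IZ {G : Type} [Group G] (Z : MonoidAlgebra ℚ G) :
    Submodule ℚ (MonoidAlgebra ℚ G) :=
  Submodule.span ℚ {x | ∃ a b, x = a * Z * b}

theorem hook_aux {l q r n : ℕ} (hr : r ≤ l + 1)
    {z : MonoidAlgebra ℚ (Perm (Fin (r * q)))} (hz : RectZ q r z) : ∀ (d k : ℕ),
    n + r * q = k + d → q ≤ k + 1 → ∀ y : MonoidAlgebra ℚ (Perm (Fin (n + r * q))),
    act k l _ y = 0 → y ∈ IZ (pl (phR n (r * q)) z) := by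
  intro d
  induction d with
  | zero =>
    intro k hk _ y hy
    rw [add_zero] at hk
    subst hk
    rw [faithful hy]
    exact Submodule.zero_mem _
  | succ d ih =>
    intro k hk hq y hy
    have h1 := estep hq hr hz hy
    obtain ⟨y1, hy1, y2, hy2, rfl⟩ := Submodule.mem_sup.1 h1
    exact Submodule.add_mem _ (ih (k + 1) (by omega) (by omega) y1 (LinearMap.mem_ker.1 hy1)) hy2

/-- HOOK THEOREM: `K(k|l)` is the ideal generated by the `(k+1) × (l+1)` rectangle. -/
theorem hook_gen {k l n : ℕ} {z : MonoidAlgebra ℚ (Perm (Fin ((l + 1) * (k + 1))))}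
    (hz : RectZ (k + 1) (l + 1) z)
    {y : MonoidAlgebra ℚ (Perm (Fin (n + (l + 1) * (k + 1))))} (hy : act k l _ y = 0) :
    y ∈ IZ (pl (phR n ((l + 1) * (k + 1))) z) := by
  refine hook_aux le_rfl hz (n + (l + 1) * (k + 1) - k) k ?_ le_rfl y hy
  have : k ≤ (l + 1) * (k + 1) := by nlinarith
  omega

end Pool.PI34.Super

end

/-! ### part Rg2 -/
section

/-!
PI34, general rational lemma, file 2: the plain antisymmetrizer of `d` full alphabets has rank
one.
-/

set_option linter.unusedSectionVars false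
set_option linter.unusedSimpArgs false

namespace Pool.PI34.Super

open Equiv Finset

variable {k l n m d : ℕ}

theorem bp_mul {α : Type} (ρ ρ' : Fin d → Perm α) : bp (ρ * ρ') = bp ρ * bp ρ' := by
  apply Equiv.ext
  intro x
  rfl

theorem sgF_mul (ρ ρ' : Fin d → Perm (Lt k l)) : sgF (ρ * ρ') = sgF ρ * sgF ρ' := by
  unfold sgF
  rw [← Finset.prod_mul_distrib]
  refine Finset.prod_congr rfl (fun j _ => ?_)
  rw [Pi.mul_apply, Perm.sign_mul]; push_cast; rfl

theorem sgF_sq (ρ : Fin d → Perm (Lt k l)) : sgF ρ * sgF ρ = 1 := by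
  unfold sgF
  rw [← Finset.prod_mul_distrib]
  refine Finset.prod_eq_one (fun j _ => ?_)
  rcases Int.units_eq_one_or (Perm.sign (ρ j)) with h | h <;> rw [h] <;> norm_num

theorem sgF_inv (ρ : Fin d → Perm (Lt k l)) : sgF ρ⁻¹ = sgF ρ := by
  unfold sgF
  refine Finset.prod_congr rfl (fun j _ => ?_)
  rw [Pi.inv_apply, Perm.sign_inv]

/-- the block permutation of the strands -/
noncomputable def vb (P : Fin d × Lt k l → Fin n) (hP : Function.Injective P)
    (ρ : Fin d → Perm (Lt k l)) : Perm (Fin n) := viaG P hP (bp ρ)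

theorem vb_mul (P : Fin d × Lt k l → Fin n) (hP : Function.Injective P)
    (ρ ρ' : Fin d → Perm (Lt k l)) : vb P hP (ρ * ρ') = vb P hP ρ * vb P hP ρ' := by
  unfold vb; rw [bp_mul, viaG_mul]

theorem vb_one (P : Fin d × Lt k l → Fin n) (hP : Function.Injective P) :
    vb P hP 1 = 1 := by
  have h := vb_mul P hP 1 1
  rw [mul_one] at h
  exact (mul_eq_left.1 h.symm)

theorem vb_inv (P : Fin d × Lt k l → Fin n) (hP : Function.Injective P)
    (ρ : Fin d → Perm (Lt k l)) : vb P hP ρ⁻¹ = (vb P hP ρ)⁻¹ := by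
  rw [eq_inv_iff_mul_eq_one, ← vb_mul, inv_mul_cancel, vb_one]

theorem vb_apply (P : Fin d × Lt k l → Fin n) (hP : Function.Injective P)
    (ρ : Fin d → Perm (Lt k l)) (i : Fin d) (c : Lt k l) :
    vb P hP ρ (P (i, c)) = P (i, ρ i c) := by
  unfold vb
  rw [viaG_apply]
  rfl

/-- blockwise alternating functions -/
def BAF (P : Fin d × Lt k l → Fin n) (hP : Function.Injective P)
    (F : (Fin n → Lt k l) → ℚ) : Prop :=
  ∀ (ρ : Fin d → Perm (Lt k l)) (v : Fin n → Lt k l), F (v ∘ vb P hP ρ) = sgF ρ * F v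

/-- `P` is a bijection, `v0` is the word with the letter `c` at `P (i, c)` -/
structure Std (P : Fin d × Lt k l → Fin n) (v0 : Fin n → Lt k l) : Prop where
  inj : Function.Injective P
  surj : ∀ x, ∃ y, P y = x
  eval : ∀ x, v0 (P x) = x.2

/-- the vector `Δ` -/
noncomputable def Dl (P : Fin d × Lt k l → Fin n) (hP : Function.Injective P)
    (v0 : Fin n → Lt k l) : W k l (Fin n) := by
  classical
  exact fun v => ∑ ρ : Fin d → Perm (Lt k l), if v = v0 ∘ vb P hP ρ then sgF ρ else 0

theorem comp_vb_iff (P : Fin d × Lt k l → Fin n) (hP : Function.Injective P)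
    (ρ : Fin d → Perm (Lt k l)) (v w : Fin n → Lt k l) :
    v ∘ vb P hP ρ = w ↔ v = w ∘ vb P hP ρ⁻¹ := by
  rw [vb_inv]
  constructor
  · rintro rfl
    funext x
    simp only [Function.comp_apply, app_inv']
  · rintro rfl
    funext x
    simp only [Function.comp_apply, inv_app']

theorem Dl_BAF (P : Fin d × Lt k l → Fin n) (hP : Function.Injective P)
    (v0 : Fin n → Lt k l) : BAF P hP (Dl P hP v0) := by
  classical
  intro π v
  unfold Dl
  rw [Finset.mul_sum, ← Equiv.sum_comp (Equiv.mulRight π)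
    (fun ρ => if v ∘ vb P hP π = v0 ∘ vb P hP ρ then sgF ρ else 0)]
  refine Finset.sum_congr rfl (fun ρ _ => ?_)
  have h1 : (Equiv.mulRight π) ρ = ρ * π := rfl
  rw [h1, sgF_mul, vb_mul]
  have h2 : (v ∘ vb P hP π = v0 ∘ ⇑(vb P hP ρ * vb P hP π)) ↔ (v = v0 ∘ vb P hP ρ) := by
    constructor
    · intro h
      funext x
      have := congrFun h ((vb P hP π)⁻¹ x)
      simp only [Function.comp_apply, Perm.mul_apply, app_inv'] at this
      exact this
    · rintro rfl
      rfl
  by_cases h : v = v0 ∘ vb P hP ρ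
  · rw [if_pos (h2.2 h), if_pos h, mul_comm]
  · rw [if_neg (fun h' => h (h2.1 h')), if_neg h, mul_zero]

theorem Std.vb_eq {P : Fin d × Lt k l → Fin n} {v0 : Fin n → Lt k l} (h : Std P v0)
    {ρ ρ' : Fin d → Perm (Lt k l)} (he : v0 ∘ vb P h.inj ρ = v0 ∘ vb P h.inj ρ') : ρ = ρ' := by
  funext i
  apply Equiv.ext
  intro c
  have := congrFun he (P (i, c))
  simp only [Function.comp_apply, vb_apply, h.eval] at this
  exact this

theorem Std.Dl_apply {P : Fin d × Lt k l → Fin n} {v0 : Fin n → Lt k l} (h : Std P v0)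
    (ρ : Fin d → Perm (Lt k l)) : Dl P h.inj v0 (v0 ∘ vb P h.inj ρ) = sgF ρ := by
  classical
  unfold Dl
  rw [Finset.sum_eq_single ρ]
  · rw [if_pos rfl]
  · intro ρ' _ hne
    rw [if_neg]
    intro he
    exact hne (h.vb_eq he).symm
  · intro h; exact absurd (Finset.mem_univ _) h

theorem Std.Dl_v0 {P : Fin d × Lt k l → Fin n} {v0 : Fin n → Lt k l} (h : Std P v0) :
    Dl P h.inj v0 v0 = 1 := by
  have h1 := h.Dl_apply 1
  have h2 : v0 ∘ vb P h.inj 1 = v0 := by rw [vb_one]; rfl
  rw [h2] at h1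
  rw [h1]
  unfold sgF
  exact Finset.prod_eq_one (fun i _ => by simp)

theorem Std.Dl_ne {P : Fin d × Lt k l → Fin n} {v0 : Fin n → Lt k l} (h : Std P v0)
    {v : Fin n → Lt k l} (hv : Dl P h.inj v0 v ≠ 0) : ∃ ρ, v = v0 ∘ vb P h.inj ρ := by
  classical
  unfold Dl at hv
  obtain ⟨ρ, _, hρ⟩ := Finset.exists_ne_zero_of_sum_ne_zero hv
  refine ⟨ρ, ?_⟩
  by_contra h
  rw [if_neg h] at hρ
  exact hρ rfl

theorem Std.unique {P : Fin d × Lt k l → Fin n} {v0 : Fin n → Lt k l} (h : Std P v0)
    {F : (Fin n → Lt k l) → ℚ} (hF : BAF P h.inj F) (v : Fin n → Lt k l) :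
    F v = Dl P h.inj v0 v * F v0 := by
  classical
  by_cases hinj : ∀ i : Fin d, Function.Injective (fun c : Lt k l => v (P (i, c)))
  · let ρ : Fin d → Perm (Lt k l) := fun i =>
      Equiv.ofBijective _ (Finite.injective_iff_bijective.1 (hinj i))
    have h1 : v = v0 ∘ vb P h.inj ρ := by
      funext x
      obtain ⟨⟨i, c⟩, rfl⟩ := h.surj x
      rw [Function.comp_apply, vb_apply, h.eval]
      rfl
    rw [h1, h.Dl_apply, hF]
  · push Not at hinj
    obtain ⟨i, hi⟩ := hinj
    rw [Function.not_injective_iff] at hi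
    obtain ⟨c, c', hcc, hne⟩ := hi
    have key : ∀ F : (Fin n → Lt k l) → ℚ, BAF P h.inj F → F v = 0 := by
      intro F hF
      let ρ : Fin d → Perm (Lt k l) := Function.update 1 i (swap c c')
      have h3 : v ∘ vb P h.inj ρ = v := by
        funext x
        obtain ⟨⟨j, e⟩, rfl⟩ := h.surj x
        rw [Function.comp_apply, vb_apply]
        by_cases hj : j = i
        · subst hj
          simp only [ρ, Function.update_self]
          by_cases hx : e = c
          · rw [hx, swap_apply_left]; exact hcc.symm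
          · by_cases hx' : e = c'
            · rw [hx', swap_apply_right]; exact hcc
            · rw [swap_apply_of_ne_of_ne hx hx']
        · simp only [ρ, Function.update_of_ne hj]
          rfl
      have h4 : sgF ρ = -1 := by
        unfold sgF
        rw [Finset.prod_eq_single i]
        · simp only [ρ, Function.update_self, Perm.sign_swap hne]
          norm_num
        · intro j' _ hj'
          simp only [ρ, Function.update_of_ne hj']
          simp
        · intro h; exact absurd (Finset.mem_univ _) h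
      have h5 := hF ρ v
      rw [h3, h4] at h5
      linarith
    rw [key F hF, key _ (Dl_BAF P h.inj v0), zero_mul]

/-- `f ⊗ ξ` -/
def tnf (ξ : W k l (Fin m)) : W k l (Fin n) →ₗ[ℚ] W k l (Fin (n + m)) where
  toFun f := fun w => f (w ∘ phL n m) * ξ (w ∘ phR n m)
  map_add' f g := by funext w; simp [add_mul]
  map_smul' c f := by funext w; simp [mul_assoc]

theorem tnf_apply (ξ : W k l (Fin m)) (f : W k l (Fin n)) (w : Fin (n + m) → Lt k l) :
    tnf ξ f w = f (w ∘ phL n m) * ξ (w ∘ phR n m) := rfl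

theorem tnf_single (ξ : W k l (Fin m)) (v : Fin n → Lt k l) :
    tnf ξ (Pi.single v 1) = tn v ξ := by
  funext w
  rw [tnf_apply, tn_apply, Pi.single_apply]
  split_ifs
  · rw [one_mul]
  · rw [zero_mul]

theorem act_phL_tnf (ξ : W k l (Fin m)) (y : MonoidAlgebra ℚ (Perm (Fin n)))
    (f : W k l (Fin n)) :
    act k l _ (pl (phL n m) y) (tnf ξ f) = tnf ξ (act k l _ y f) := by
  funext w
  rw [act_pl conv_phL, tnf_apply]
  have h : sl (phL n m) w (tnf ξ f) = ξ (w ∘ phR n m) • f := by
    funext u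
    rw [sl_apply, tnf_apply, ext_phL_phL, ext_phL_phR, Pi.smul_apply, smul_eq_mul, mul_comm]
  rw [h, map_smul, Pi.smul_apply, smul_eq_mul, mul_comm]

/-- the plain antisymmetrizer of the blocks -/
noncomputable def Cat.AF (C : Cat k l m) (P : Fin d × Lt k l → Fin n)
    (hP : Function.Injective P) : MonoidAlgebra ℚ (Perm (Fin (n + m))) :=
  ∑ ρ : Fin d → Perm (Lt k l), sgF ρ • C.fl (vb P hP ρ)⁻¹

theorem Cat.act_AF (C : Cat k l m) (P : Fin d × Lt k l → Fin n)
    (hP : Function.Injective P) : IsAltF C P hP (C.AF P hP) := by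
  intro v
  unfold Cat.AF
  rw [map_sum, LinearMap.sum_apply]
  refine Finset.sum_congr rfl (fun ρ _ => ?_)
  rw [map_smul, LinearMap.smul_apply, C.act_fl, inv_inv]
  rfl

theorem Std.act_alt {P : Fin d × Lt k l → Fin n} {v0 : Fin n → Lt k l} (h : Std P v0)
    (C : Cat k l m) {Y : MonoidAlgebra ℚ (Perm (Fin (n + m)))} (hY : IsAltF C P h.inj Y)
    (v : Fin n → Lt k l) : act k l _ Y (tn v C.ξ)
      = Dl P h.inj v0 v • tnf C.ξ (Dl P h.inj v0) := by
  classical
  rw [hY]
  have h1 : ∑ ρ : Fin d → Perm (Lt k l), sgF ρ • tn (v ∘ ⇑(viaG P h.inj (bp ρ))) C.ξ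
      = tnf C.ξ (∑ ρ : Fin d → Perm (Lt k l), sgF ρ •
        (Pi.single (v ∘ vb P h.inj ρ) 1 : W k l (Fin n))) := by
    rw [map_sum]
    refine Finset.sum_congr rfl (fun ρ _ => ?_)
    rw [map_smul, tnf_single]
    rfl
  rw [h1, ← map_smul]
  congr 1
  funext w
  set a : (Fin n → Lt k l) → ℚ := ∑ ρ : Fin d → Perm (Lt k l), sgF ρ •
        (Pi.single (v ∘ vb P h.inj ρ) 1 : W k l (Fin n)) with ha
  have hap : ∀ w, a w = ∑ ρ : Fin d → Perm (Lt k l),
      if w = v ∘ vb P h.inj ρ then sgF ρ else 0 := by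
    intro w
    rw [ha, Finset.sum_apply]
    refine Finset.sum_congr rfl (fun ρ _ => ?_)
    rw [Pi.smul_apply, Pi.single_apply, smul_eq_mul]
    split_ifs
    · rw [mul_one]
    · rw [mul_zero]
  have hBA : BAF P h.inj a := by
    have h2 := Dl_BAF P h.inj v
    intro ρ w
    have h3 := h2 ρ w
    rw [hap, hap]
    exact h3
  have h4 : a v0 = Dl P h.inj v0 v := by
    rw [hap]
    unfold Dl
    rw [← Equiv.sum_comp (Equiv.inv (Fin d → Perm (Lt k l)))]
    refine Finset.sum_congr rfl (fun ρ _ => ?_)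
    rw [Equiv.inv_apply, sgF_inv]
    have h5 : (v0 = v ∘ vb P h.inj ρ⁻¹) ↔ (v = v0 ∘ vb P h.inj ρ) := by
      rw [← comp_vb_iff]
      exact ⟨fun e => e.symm, fun e => e.symm⟩
    by_cases h6 : v = v0 ∘ vb P h.inj ρ
    · rw [if_pos (h5.2 h6), if_pos h6]
    · rw [if_neg (fun e => h6 (h5.1 e)), if_neg h6]
  rw [h.unique hBA w, h4, Pi.smul_apply, smul_eq_mul, mul_comm]

theorem Std.act_alt' {P : Fin d × Lt k l → Fin n} {v0 : Fin n → Lt k l} (h : Std P v0)
    (C : Cat k l m) {Y : MonoidAlgebra ℚ (Perm (Fin (n + m)))} (hY : IsAltF C P h.inj Y)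
    (f : W k l (Fin n)) : act k l _ Y (tnf C.ξ f)
      = ip f (Dl P h.inj v0) • tnf C.ξ (Dl P h.inj v0) := by
  classical
  have h1 : f = ∑ v, f v • (Pi.single v 1 : W k l (Fin n)) := by
    funext w
    rw [Finset.sum_apply, Finset.sum_eq_single w]
    · simp
    · intro b _ hb; simp [Pi.single_apply, hb.symm]
    · intro h; exact absurd (Finset.mem_univ _) h
  conv_lhs => rw [h1]
  rw [map_sum, map_sum]
  unfold ip
  rw [Finset.sum_smul]
  refine Finset.sum_congr rfl (fun v _ => ?_)
  rw [map_smul, map_smul, tnf_single, h.act_alt C hY, smul_smul]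

theorem st_pl {κ ι : Type} [Fintype κ] [LinearOrder κ] [Fintype ι] [LinearOrder ι]
    (φ : κ ↪o ι) (y : MonoidAlgebra ℚ (Perm κ)) : st (pl φ y) = pl φ (st y) := by
  induction y using MonoidAlgebra.induction_on with
  | of σ => rw [pl_of, st_of, st_of, pl_of, map_inv (ext φ)]
  | add x y hx hy => rw [map_add, st_add, st_add, map_add, hx, hy]
  | smul r x hx => rw [map_smul, st_smul, st_smul, map_smul, hx]

/-- Any element `X` of the group algebra of the first strands, sandwiched between two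
antisymmetrizers. -/
theorem Std.sandwich {P : Fin d × Lt k l → Fin n} {v0 : Fin n → Lt k l} (h : Std P v0)
    (C : Cat k l m) (y : MonoidAlgebra ℚ (Perm (Fin n)))
    (hy : act k l _ y (Dl P h.inj v0) ≠ 0) :
    ∃ a b : MonoidAlgebra ℚ (Perm (Fin (n + m))),
      IsAltF C P h.inj (a * pl (phL n m) y * b) := by
  set Δ := Dl P h.inj v0 with hΔ
  set c := ip (act k l _ y Δ) (act k l _ y Δ) with hc
  have hc0 : c ≠ 0 := ip_self_ne hy
  refine ⟨c⁻¹ • (C.AF P h.inj * pl (phL n m) (st y)), C.AF P h.inj, fun v => ?_⟩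
  have h1 : c⁻¹ • (C.AF P h.inj * pl (phL n m) (st y)) * pl (phL n m) y * C.AF P h.inj
      = c⁻¹ • (C.AF P h.inj * pl (phL n m) (st y * y) * C.AF P h.inj) := by
    rw [map_mul]
    simp only [smul_mul_assoc, mul_assoc]
  have h2 : ip (act k l _ (st y * y) Δ) Δ = c := by
    rw [map_mul, Module.End.mul_apply, act_adj, st_st]
  have h3 := (C.act_AF P h.inj v).symm.trans (h.act_alt C (C.act_AF P h.inj) v)
  rw [h3, h1, map_smul, LinearMap.smul_apply, map_mul, map_mul, Module.End.mul_apply,
    Module.End.mul_apply, h.act_alt C (C.act_AF P h.inj), map_smul, map_smul, act_phL_tnf,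
    h.act_alt' C (C.act_AF P h.inj), ← hΔ, h2, smul_smul, smul_smul]
  congr 1
  field_simp

end Pool.PI34.Super

end

/-! ### part St3 -/
section

/-!
PI34, START, file 3: the rectangular element and its matrix units.
-/

set_option linter.unusedSectionVars false
set_option linter.unusedSimpArgs false

namespace Pool.PI34.Super

open Equiv Finset

variable {q r : ℕ}

/-- the block permutation -/
def blk (π : Fin r → Perm (Fin q)) : Perm (Fin (r * q)) :=
  finProdFinEquiv.permCongr (Equiv.prodCongrRight π)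

theorem blk_apply (π : Fin r → Perm (Fin q)) (x : Fin r × Fin q) :
    blk π (finProdFinEquiv x) = finProdFinEquiv (x.1, π x.1 x.2) := by
  simp only [blk, Equiv.permCongr_apply, Equiv.symm_apply_apply]
  rfl

theorem blk_mul (π π' : Fin r → Perm (Fin q)) : blk (π * π') = blk π * blk π' := by
  ext s
  obtain ⟨x, rfl⟩ := finProdFinEquiv.surjective s
  rw [Perm.mul_apply, blk_apply, blk_apply, blk_apply]
  rfl

/-- signs of a family -/
def sg (π : Fin r → Perm (Fin q)) : ℚ := ∏ j, ((Perm.sign (π j) : ℤ) : ℚ)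

theorem sg_mul (π π' : Fin r → Perm (Fin q)) : sg (π * π') = sg π * sg π' := by
  unfold sg
  rw [← Finset.prod_mul_distrib]
  refine Finset.prod_congr rfl (fun j _ => ?_)
  rw [Pi.mul_apply, Perm.sign_mul]; push_cast; rfl

theorem sg_sq (π : Fin r → Perm (Fin q)) : sg π * sg π = 1 := by
  unfold sg
  rw [← Finset.prod_mul_distrib]
  refine Finset.prod_eq_one (fun j _ => ?_)
  rcases Int.units_eq_one_or (Perm.sign (π j)) with h | h <;> rw [h] <;> norm_num

/-- the column antisymmetrizer -/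
noncomputable def AA (q r : ℕ) : MonoidAlgebra ℚ (Perm (Fin (r * q))) :=
  ∑ π : Fin r → Perm (Fin q), sg π • MonoidAlgebra.of ℚ _ (blk π)

/-- the basic vector -/
def rv0 (q r : ℕ) : W q 0 (Fin (r * q)) := rv r (Sum.inl : Fin q → Lt q 0)

/-- the basic word -/
def w0 (q r : ℕ) : Fin (r * q) → Lt q 0 := fun s => Sum.inl (finProdFinEquiv.symm s).2

theorem eps_false {ι : Type} [Fintype ι] [LinearOrder ι] (σ : Perm ι) (p : ι → Bool)
    (hp : ∀ i, p i = false) : eps σ p = 1 := by
  unfold eps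
  exact Finset.prod_eq_one (fun x _ => by simp [hp])

theorem rho_zero {ι : Type} [Fintype ι] [LinearOrder ι] (σ : Perm ι) (f : W q 0 ι)
    (w : ι → Lt q 0) : rho q 0 ι σ f w = f (w ∘ σ) := by
  rw [rho_apply, eps_false, one_mul]
  intro i
  unfold pv
  rcases (w ∘ σ) i with c | c
  · rfl
  · exact c.elim0

/-- blockwise alternating functions -/
def BAlt (F : (Fin (r * q) → Lt q 0) → ℚ) : Prop :=
  ∀ (π : Fin r → Perm (Fin q)) (w : Fin (r * q) → Lt q 0), F (w ∘ blk π) = sg π * F w

theorem BAlt_AA (v : W q 0 (Fin (r * q))) : BAlt (act q 0 _ (AA q r) v) := by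
  classical
  intro π w
  have h1 : ∀ w : Fin (r * q) → Lt q 0, act q 0 _ (AA q r) v w
      = ∑ π' : Fin r → Perm (Fin q), sg π' * v (w ∘ blk π') := by
    intro w
    unfold AA
    rw [map_sum, LinearMap.sum_apply, Finset.sum_apply]
    refine Finset.sum_congr rfl (fun π' _ => ?_)
    rw [map_smul, act_of, LinearMap.smul_apply, Pi.smul_apply, smul_eq_mul, rho_zero]
  rw [h1, h1, Finset.mul_sum, ← Equiv.sum_comp (Equiv.mulLeft π) (fun π' => sg π * (sg π' *
    v (w ∘ blk π')))]
  refine Finset.sum_congr rfl (fun π' _ => ?_)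
  have h2 : (Equiv.mulLeft π) π' = π * π' := rfl
  rw [h2, sg_mul, blk_mul]
  have h3 : w ∘ ⇑(blk π * blk π') = (w ∘ blk π) ∘ blk π' := by funext s; rfl
  rw [h3]
  have h4 := sg_sq π
  calc sg π' * v ((w ∘ blk π) ∘ blk π')
      = (sg π * sg π) * (sg π' * v ((w ∘ blk π) ∘ blk π')) := by rw [h4, one_mul]
    _ = _ := by ring

theorem BAlt_rv0 : BAlt (rv0 q r) := by
  classical
  intro π w
  unfold rv0 rv DD sg
  rw [← Finset.prod_mul_distrib]
  refine Finset.prod_congr rfl (fun j _ => ?_)
  rw [← Matrix.det_permute]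
  congr 1
  funext i c
  rw [MM_apply, Matrix.submatrix_apply, MM_apply, Function.comp_apply, blk_apply]
  rfl

theorem rv0_w0 : rv0 q r (w0 q r) = 1 := by
  unfold rv0 rv DD
  refine Finset.prod_eq_one (fun j _ => ?_)
  have h : MM (fun x : Fin r × Fin q => finProdFinEquiv x) (Sum.inl : Fin q → Lt q 0)
      (w0 q r) j = 1 := by
    funext i c
    rw [MM_apply, Matrix.one_apply]
    unfold w0
    rw [Equiv.symm_apply_apply]
    simp only [Sum.inl.injEq]
  rw [h, Matrix.det_one]

theorem BAlt_unique {F : (Fin (r * q) → Lt q 0) → ℚ} (hF : BAlt F)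
    (w : Fin (r * q) → Lt q 0) : F w = rv0 q r w * F (w0 q r) := by
  classical
  by_cases h : ∀ j : Fin r, Function.Injective (fun i : Fin q => w (finProdFinEquiv (j, i)))
  · -- all blocks are bijective
    have h1 : ∀ (j : Fin r) (i : Fin q), ∃ c : Fin q, w (finProdFinEquiv (j, i)) = Sum.inl c := by
      intro j i
      rcases w (finProdFinEquiv (j, i)) with c | c
      · exact ⟨c, rfl⟩
      · exact c.elim0
    choose f hf using h1
    have h2 : ∀ j, Function.Injective (f j) := by
      intro j i i' hii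
      apply h j
      simp only
      rw [hf, hf, hii]
    let π : Fin r → Perm (Fin q) := fun j =>
      Equiv.ofBijective (f j) (Finite.injective_iff_bijective.1 (h2 j))
    have h3 : w = w0 q r ∘ blk π := by
      funext s
      obtain ⟨⟨j, i⟩, rfl⟩ := finProdFinEquiv.surjective s
      rw [Function.comp_apply, blk_apply, hf]
      unfold w0
      rw [Equiv.symm_apply_apply]
      rfl
    rw [h3, hF, BAlt_rv0, rv0_w0, mul_one]
  · push Not at h
    obtain ⟨j, hj⟩ := h
    rw [Function.not_injective_iff] at hj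
    obtain ⟨i, i', hii, hne⟩ := hj
    have key : ∀ F : (Fin (r * q) → Lt q 0) → ℚ, BAlt F → F w = 0 := by
      intro F hF
      let π : Fin r → Perm (Fin q) := Function.update 1 j (swap i i')
      have h3 : w ∘ blk π = w := by
        funext s
        obtain ⟨⟨j', x⟩, rfl⟩ := finProdFinEquiv.surjective s
        rw [Function.comp_apply, blk_apply]
        by_cases hj : j' = j
        · subst hj
          simp only [π, Function.update_self]
          by_cases hx : x = i
          · rw [hx, swap_apply_left]; exact hii.symm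
          · by_cases hx' : x = i'
            · rw [hx', swap_apply_right]; exact hii
            · rw [swap_apply_of_ne_of_ne hx hx']
        · simp only [π, Function.update_of_ne hj]
          rfl
      have h4 : sg π = -1 := by
        unfold sg
        rw [Finset.prod_eq_single j]
        · simp only [π, Function.update_self, Perm.sign_swap hne]
          norm_num
        · intro j' _ hj'
          simp only [π, Function.update_of_ne hj']
          simp
        · intro h; exact absurd (Finset.mem_univ _) h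
      have h5 := hF π w
      rw [h3, h4] at h5
      linarith
    rw [key F hF, key _ BAlt_rv0, zero_mul]

theorem AA_apply (v : W q 0 (Fin (r * q))) :
    act q 0 _ (AA q r) v = ip v (rv0 q r) • rv0 q r := by
  classical
  funext w
  rw [BAlt_unique (BAlt_AA v) w, Pi.smul_apply, smul_eq_mul, mul_comm]
  congr 1
  unfold AA ip
  rw [map_sum, LinearMap.sum_apply, Finset.sum_apply]
  have h1 : ∑ u, v u * rv0 q r u = ∑ u, rv r (Sum.inl : Fin q → Lt q 0) u * v u :=
    Finset.sum_congr rfl (fun u _ => mul_comm _ _)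
  rw [h1, rv_sum]
  refine Finset.sum_congr rfl (fun π _ => ?_)
  rw [map_smul, act_of, LinearMap.smul_apply, Pi.smul_apply, smul_eq_mul, rho_zero]
  unfold sg
  congr 2
  funext s
  obtain ⟨x, rfl⟩ := finProdFinEquiv.surjective s
  rw [Function.comp_apply, blk_apply]
  unfold w0
  rw [Equiv.symm_apply_apply, Equiv.symm_apply_apply]

theorem ip_comm {k l : ℕ} {ι : Type} [Fintype ι] [LinearOrder ι] (f g : W k l ι) :
    ip f g = ip g f := by
  unfold ip
  exact Finset.sum_congr rfl (fun _ _ => mul_comm _ _)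

/-- splitting of left ideals -/
theorem left_split {G : Type} [Group G] [Finite G] (J : Submodule ℚ (MonoidAlgebra ℚ G))
    (hJ : ∀ c, ∀ a ∈ J, c * a ∈ J) :
    ∃ e e' : MonoidAlgebra ℚ G, e + e' = 1 ∧ e ∈ J ∧ ∀ a ∈ J, a * e' = 0 := by
  classical
  let A := MonoidAlgebra ℚ G
  let J1 : Submodule A A :=
    { carrier := {a | a ∈ J}
      add_mem' := fun {a b} ha hb => by
        change a + b ∈ J
        exact Submodule.add_mem _ ha hb
      zero_mem' := by
        change (0 : A) ∈ J
        exact Submodule.zero_mem _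
      smul_mem' := fun c a ha => hJ c a ha }
  have : Fintype G := Fintype.ofFinite G
  obtain ⟨J', hJ'⟩ := MonoidAlgebra.Submodule.exists_isCompl J1
  have h1 : (1 : A) ∈ J1 ⊔ J' := by rw [hJ'.sup_eq_top]; exact Submodule.mem_top
  obtain ⟨e, he, e', he', hee⟩ := Submodule.mem_sup.1 h1
  refine ⟨e, e', hee, he, fun a ha => ?_⟩
  have h3 : a * e' ∈ J' := J'.smul_mem a he'
  have h4 : a * e' ∈ J1 := by
    have h5 : a * e' = a - a * e := by
      have h6 : a * (e + e') = a := by rw [hee, mul_one]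
      rw [mul_add] at h6
      exact eq_sub_of_add_eq' h6
    rw [h5]
    exact J1.sub_mem ha (J1.smul_mem a he)
  have := hJ'.disjoint
  rw [Submodule.disjoint_def] at this
  exact this _ h4 h3

/-- the annihilator of the module generated by `rv0` -/
def AnnR (q r : ℕ) : Submodule ℚ (MonoidAlgebra ℚ (Perm (Fin (r * q)))) where
  carrier := {p | ∀ s, act q 0 _ (p * s) (rv0 q r) = 0}
  add_mem' := fun {a b} ha hb s => by
    rw [add_mul, map_add, LinearMap.add_apply, ha, hb, add_zero]
  zero_mem' := fun s => by rw [zero_mul, map_zero, LinearMap.zero_apply]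
  smul_mem' := fun c a ha s => by
    rw [smul_mul_assoc, map_smul, LinearMap.smul_apply, ha, smul_zero]

theorem transfer {k l : ℕ} {lam : Fin q → Lt k l} (hinj : Function.Injective lam)
    (hev : ∀ i, odd (lam i) = false) {p : MonoidAlgebra ℚ (Perm (Fin (r * q)))}
    (hp : act q 0 _ p (rv0 q r) = 0) : act k l _ p (rv r lam) = 0 := by
  classical
  let f : Lt q 0 → Lt k l := Sum.elim lam (fun j => j.elim0)
  have hf : ∀ c, odd (f c) = odd c := by
    rintro (c | c)
    · exact hev c
    · exact c.elim0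
  funext w
  by_cases hw : ∃ w' : Fin (r * q) → Lt q 0, f ∘ w' = w
  · obtain ⟨w', rfl⟩ := hw
    have h1 := congrFun (pull_act hf p (rv r lam)) w'
    have h2 : pull f (rv r lam) = rv0 q r := by
      funext w
      change rv r lam (f ∘ w) = rv r Sum.inl w
      unfold rv DD
      refine Finset.prod_congr rfl (fun j _ => ?_)
      congr 1
      funext i c
      rw [MM_apply, MM_apply, Function.comp_apply]
      rcases w (finProdFinEquiv (j, i)) with d | d
      · simp only [f, Sum.elim_inl, Sum.inl.injEq, hinj.eq_iff]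
      · exact d.elim0
    rw [h2, hp] at h1
    exact h1
  · have h1 : ∀ (p : MonoidAlgebra ℚ (Perm (Fin (r * q)))),
        act k l _ p (rv r lam) w = 0 := by
      intro p
      induction p using MonoidAlgebra.induction_on with
      | of σ =>
        rw [act_of, rho_apply]
        by_contra h
        apply hw
        have h2 : rv r lam (w ∘ σ) ≠ 0 := right_ne_zero_of_mul h
        unfold rv at h2
        rw [DD_expand] at h2
        obtain ⟨π, _, h3⟩ := Finset.exists_ne_zero_of_sum_ne_zero h2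
        have h4 : ∀ x : Fin r × Fin q, (w ∘ σ) (finProdFinEquiv x) = lam (π x.1 x.2) := by
          by_contra h
          rw [if_neg h, mul_zero] at h3
          exact h3 rfl
        refine ⟨fun s => Sum.inl (π (finProdFinEquiv.symm (σ⁻¹ s)).1
          (finProdFinEquiv.symm (σ⁻¹ s)).2), ?_⟩
        funext s
        have h5 := h4 (finProdFinEquiv.symm (σ⁻¹ s))
        rw [Equiv.apply_symm_apply, Function.comp_apply, app_inv'] at h5
        rw [h5]; rfl
      | add x y hx hy => rw [map_add, LinearMap.add_apply, Pi.add_apply, hx, hy, add_zero]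
      | smul c x hx => rw [map_smul, LinearMap.smul_apply, Pi.smul_apply, hx, smul_zero]
    exact h1 p

theorem rv0_ne : rv0 q r ≠ 0 := by
  intro h
  have := rv0_w0 (q := q) (r := r)
  rw [h] at this
  exact zero_ne_one this

/-- THE RECTANGULAR ELEMENT and its matrix units. -/
theorem exists_rect (q r : ℕ) : ∃ z : MonoidAlgebra ℚ (Perm (Fin (r * q))), RectZ q r z ∧
    ∀ (I : Type) [Fintype I] [DecidableEq I] (g : I → Perm (Fin (r * q))),
      LinearIndependent ℚ (fun i => rho q 0 _ (g i) (rv0 q r)) →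
      ∃ c : I → MonoidAlgebra ℚ (Perm (Fin (r * q))), ∀ i j,
        z * c i * MonoidAlgebra.of ℚ _ (g j) * z = if i = j then z else 0 := by
  classical
  obtain ⟨e, e', hee, he, h0⟩ := left_split (AnnR q r) (fun c a ha s => by
    rw [mul_assoc, map_mul, Module.End.mul_apply, ha s, map_zero])
  set Nn : ℚ := ip (rv0 q r) (rv0 q r) with hNn
  have hN0 : Nn ≠ 0 := ip_self_ne rv0_ne
  set z := Nn⁻¹ • (AA q r * e') with hz
  -- e' acts as the identity
  have he1 : ∀ s, act q 0 _ (e' * s) (rv0 q r) = act q 0 _ s (rv0 q r) := by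
    intro s
    have h1 : e' * s = s - e * s := by
      rw [← sub_eq_of_eq_add' hee.symm, sub_mul, one_mul]
    rw [h1, map_sub, LinearMap.sub_apply, he s, sub_zero]
  have hzs : ∀ s, act q 0 _ (z * s) (rv0 q r)
      = (Nn⁻¹ * ip (act q 0 _ s (rv0 q r)) (rv0 q r)) • rv0 q r := by
    intro s
    rw [hz, smul_mul_assoc, map_smul, LinearMap.smul_apply, mul_assoc, map_mul,
      Module.End.mul_apply, he1, AA_apply, smul_smul]
  have hz1 : act q 0 _ z (rv0 q r) = rv0 q r := by
    have h1 := hzs 1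
    rw [mul_one, map_one, Module.End.one_apply, ← hNn, inv_mul_cancel₀ hN0, one_smul] at h1
    exact h1
  have hze : z * e' = z := by
    have h1 : e' * e' = e' := by
      have h2 : e' * e' = e' - e * e' := by
        conv_lhs => rw [← sub_eq_of_eq_add' hee.symm, sub_mul, one_mul]
        rw [sub_eq_of_eq_add' hee.symm]
      rw [h2, h0 e he, sub_zero]
    rw [hz, smul_mul_assoc, mul_assoc, h1]
  refine ⟨z, ?_, ?_⟩
  · intro k l lam hinj hev
    have h1 : act q 0 _ (z - 1) (rv0 q r) = 0 := by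
      rw [map_sub, map_one, LinearMap.sub_apply, Module.End.one_apply, hz1, sub_self]
    have h2 := transfer (k := k) (l := l) hinj hev h1
    rw [map_sub, map_one, LinearMap.sub_apply, Module.End.one_apply, sub_eq_zero] at h2
    exact h2
  · intro I _ _ g hlin
    -- the Gram matrix
    set v : I → W q 0 (Fin (r * q)) := fun i => rho q 0 _ (g i) (rv0 q r) with hv
    let G : Matrix I I ℚ := fun i j => ip (v j) (v i)
    have hG : IsUnit G := by
      rw [← Matrix.mulVec_injective_iff_isUnit]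
      intro c c' hcc
      have h1 : G.mulVec (c - c') = 0 := by rw [Matrix.mulVec_sub, hcc, sub_self]
      set d := c - c' with hd
      have h2 : ∀ i, ip (∑ j, d j • v j) (v i) = 0 := by
        intro i
        rw [ip_comm, ip_sum_right]
        have h3 := congrFun h1 i
        rw [Pi.zero_apply] at h3
        rw [← h3]
        unfold Matrix.mulVec dotProduct
        refine Finset.sum_congr rfl (fun j _ => ?_)
        rw [ip_smul_right, ip_comm]
        exact mul_comm _ _
      have h3 : (∑ j, d j • v j) = 0 := by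
        by_contra hne
        apply ip_self_ne hne
        conv_lhs => rw [ip_sum_right]
        refine Finset.sum_eq_zero (fun i _ => ?_)
        rw [ip_smul_right, h2 i, mul_zero]
      rw [Fintype.linearIndependent_iff] at hlin
      have h4 := hlin d h3
      funext i
      have := h4 i
      rw [hd, Pi.sub_apply, sub_eq_zero] at this
      exact this
    let H := G⁻¹
    have hHG : H * G = 1 := by
      apply Matrix.nonsing_inv_mul
      exact (Matrix.isUnit_iff_isUnit_det G).1 hG
    refine ⟨fun i => ∑ k, H i k • (AA q r * MonoidAlgebra.of ℚ _ (g k)⁻¹), fun i j => ?_⟩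
    set c := ∑ k, H i k • (AA q r * MonoidAlgebra.of ℚ _ (g k)⁻¹) with hc
    have hcj : act q 0 _ (c * MonoidAlgebra.of ℚ _ (g j)) (rv0 q r)
        = (if i = j then (1 : ℚ) else 0) • rv0 q r := by
      rw [map_mul, Module.End.mul_apply, act_of, hc, map_sum, LinearMap.sum_apply]
      have h1 : ∀ k, act q 0 _ (H i k • (AA q r * MonoidAlgebra.of ℚ _ (g k)⁻¹))
          (rho q 0 _ (g j) (rv0 q r)) = (H i k * G k j) • rv0 q r := by
        intro k
        rw [map_smul, LinearMap.smul_apply, map_mul, Module.End.mul_apply, act_of, AA_apply,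
          rho_adj, inv_inv, smul_smul]
      rw [Finset.sum_congr rfl (fun k _ => h1 k), ← Finset.sum_smul]
      have h2 : ∑ k, H i k * G k j = (1 : Matrix I I ℚ) i j := by
        rw [← hHG, Matrix.mul_apply]
      rw [h2, Matrix.one_apply]
    have hmem : z * c * MonoidAlgebra.of ℚ _ (g j) * z - (if i = j then z else 0) ∈ AnnR q r := by
      intro s
      rw [sub_mul, map_sub, LinearMap.sub_apply, sub_eq_zero]
      have h1 : z * c * MonoidAlgebra.of ℚ _ (g j) * z * s
          = (z * (c * MonoidAlgebra.of ℚ _ (g j))) * (z * s) := by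
        simp only [mul_assoc]
      rw [h1, map_mul, Module.End.mul_apply, hzs s, map_smul, map_mul, Module.End.mul_apply,
        hcj, map_smul, hz1]
      split_ifs with hij
      · rw [one_smul, hzs s]
      · rw [zero_smul, smul_zero, zero_mul, map_zero, LinearMap.zero_apply]
    have h1 := h0 _ hmem
    rw [sub_mul, mul_assoc, hze, sub_eq_zero] at h1
    rw [h1]
    split_ifs
    · exact hze
    · exact zero_mul _

end Pool.PI34.Super

end

/-! ### part Rg3 -/
section

/-!
PI34, general rational lemma, file 3: (RL) for every element `Y` which does not act by zero.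
-/

set_option linter.unusedSectionVars false
set_option linter.unusedSimpArgs false

namespace Pool.PI34.Super

open Equiv Finset

variable {k l n m d : ℕ}

section layout

variable {n1 : ℕ} {c0 : Lt k l} (e : Fin d × {c : Lt k l // c ≠ c0} ≃ Fin n1)

/-- the positions of the blocks -/
def Pos (x : Fin d × Lt k l) : Fin (n1 + d) :=
  if h : x.2 = c0 then Fin.natAdd n1 x.1 else Fin.castAdd d (e (x.1, ⟨x.2, h⟩))

/-- the standard word -/
def v00 : Fin (n1 + d) → Lt k l := Fin.append (fun i => ((e.symm i).2 : Lt k l)) (fun _ => c0)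

theorem Pos_c0 (i : Fin d) : Pos e (i, c0) = phR n1 d i := by
  unfold Pos; rw [dif_pos rfl]; rfl

theorem Pos_ne (i : Fin d) (c : Lt k l) (h : c ≠ c0) :
    Pos e (i, c) = Fin.castAdd d (e (i, ⟨c, h⟩)) := by
  unfold Pos; rw [dif_neg h]

theorem std_Pos : Std (Pos e) (v00 e) := by
  have hval : ∀ (a : Fin n1) (b : Fin d), Fin.castAdd d a ≠ Fin.natAdd n1 b := by
    intro a b h
    have := congrArg Fin.val h
    simp only [Fin.val_castAdd, Fin.val_natAdd] at this
    have := a.2
    omega
  refine ⟨?_, ?_, ?_⟩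
  · rintro ⟨i, c⟩ ⟨i', c'⟩ h
    by_cases hc : c = c0 <;> by_cases hc' : c' = c0
    · subst hc; subst hc'
      rw [Pos_c0, Pos_c0] at h
      rw [(phR n1 d).injective h]
    · subst hc
      rw [Pos_c0, Pos_ne e _ _ hc'] at h
      exact absurd h.symm (hval _ _)
    · subst hc'
      rw [Pos_c0, Pos_ne e _ _ hc] at h
      exact absurd h (hval _ _)
    · rw [Pos_ne e _ _ hc, Pos_ne e _ _ hc'] at h
      have h1 := congrArg Fin.val h
      simp only [Fin.val_castAdd] at h1
      have h2 := e.injective (Fin.ext h1)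
      simp only [Prod.mk.injEq, Subtype.mk.injEq] at h2
      rw [h2.1, h2.2]
  · intro x
    refine Fin.addCases (fun i => ?_) (fun i => ?_) x
    · refine ⟨((e.symm i).1, (e.symm i).2), ?_⟩
      rw [Pos_ne e _ _ (e.symm i).2.2]
      simp
    · exact ⟨(i, c0), Pos_c0 e i⟩
  · rintro ⟨i, c⟩
    by_cases hc : c = c0
    · subst hc
      rw [Pos_c0]
      exact Fin.append_right _ _ i
    · rw [Pos_ne e _ _ hc]
      unfold v00
      rw [Fin.append_left]
      simp

theorem slice_Dl (w1 : Fin d → Lt k l) :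
    sl (phR n1 d) (v00 e ∘ vb (Pos e) (std_Pos e).inj (fun i => swap c0 (w1 i)))
      (Dl (Pos e) (std_Pos e).inj (v00 e))
      = sgF (fun i => swap c0 (w1 i)) • (Pi.single w1 1 : W k l (Fin d)) := by
  classical
  set h := std_Pos e with hh
  set ρ1 : Fin d → Perm (Lt k l) := fun i => swap c0 (w1 i) with hρ1
  set v := v00 e ∘ vb (Pos e) h.inj ρ1 with hv
  have hvP : ∀ i c, v (Pos e (i, c)) = ρ1 i c := by
    intro i c
    rw [hv, Function.comp_apply, vb_apply, h.eval]
  funext u
  rw [sl_apply, Pi.smul_apply, smul_eq_mul, Pi.single_apply]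
  split_ifs with hu
  · subst hu
    have h1 : Function.extend (phR n1 d) u v = v := by
      funext x
      by_cases hx : ∃ i, phR n1 d i = x
      · obtain ⟨i, rfl⟩ := hx
        rw [(phR n1 d).injective.extend_apply, ← Pos_c0 e i, hvP]
        simp [hρ1]
      · rw [Function.extend_apply' _ _ _ hx]
    rw [h1, mul_one, hv, h.Dl_apply]
  · rw [mul_zero]
    by_contra hne
    obtain ⟨ρ, hρ⟩ := h.Dl_ne hne
    apply hu
    funext i
    have h1 : ∀ c, c ≠ c0 → ρ i c = ρ1 i c := by
      intro c hc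
      have h2 := congrFun hρ (Pos e (i, c))
      rw [Function.comp_apply, vb_apply, h.eval, Function.extend_apply'] at h2
      · rw [hvP] at h2
        exact h2.symm
      · rintro ⟨j, hj⟩
        rw [← Pos_c0 e j] at hj
        have := h.inj hj
        simp only [Prod.mk.injEq] at this
        exact hc this.2.symm
    have h3 : ρ i c0 = u i := by
      have h2 := congrFun hρ (Pos e (i, c0))
      rw [Function.comp_apply, vb_apply, h.eval, Pos_c0, (phR n1 d).injective.extend_apply] at h2
      exact h2.symm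
    rw [← h3]
    have h4 : ρ1 i c0 = w1 i := by simp [hρ1]
    rw [← h4]
    obtain ⟨b, hb⟩ := (ρ i).surjective (ρ1 i c0)
    by_cases hbc : b = c0
    · rw [← hb, hbc]
    · rw [h1 b hbc] at hb
      exact absurd ((ρ1 i).injective hb) hbc

theorem act_Dl_ne {Y : MonoidAlgebra ℚ (Perm (Fin d))} (hY : act k l _ Y ≠ 0) :
    act k l _ (pl (phR n1 d) Y) (Dl (Pos e) (std_Pos e).inj (v00 e)) ≠ 0 := by
  classical
  have h1 : ∃ w1 : Fin d → Lt k l, act k l _ Y (Pi.single w1 1) ≠ 0 := by
    by_contra hcon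
    push Not at hcon
    apply hY
    apply LinearMap.ext
    intro f
    have h1 : f = ∑ v, f v • (Pi.single v 1 : W k l (Fin d)) := by
      funext w
      rw [Finset.sum_apply, Finset.sum_eq_single w]
      · simp
      · intro b _ hb; simp [Pi.single_apply, hb.symm]
      · intro h; exact absurd (Finset.mem_univ _) h
    rw [h1, map_sum, LinearMap.zero_apply]
    exact Finset.sum_eq_zero (fun v _ => by rw [map_smul, hcon, smul_zero])
  obtain ⟨w1, hw1⟩ := h1
  obtain ⟨w', hw'⟩ := Function.ne_iff.1 hw1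
  set v := v00 e ∘ vb (Pos e) (std_Pos e).inj (fun i => swap c0 (w1 i)) with hv
  intro h0
  have h2 := congrFun h0 (Function.extend (phR n1 d) w' v)
  rw [act_pl conv_phR] at h2
  have h3 : sl (phR n1 d) (Function.extend (phR n1 d) w' v) (Dl (Pos e) (std_Pos e).inj (v00 e))
      = sl (phR n1 d) v (Dl (Pos e) (std_Pos e).inj (v00 e)) := by
    funext u
    rw [sl_apply, sl_apply]
    congr 1
    funext x
    by_cases hx : ∃ i, phR n1 d i = x
    · obtain ⟨i, rfl⟩ := hx
      rw [(phR n1 d).injective.extend_apply, (phR n1 d).injective.extend_apply]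
    · rw [Function.extend_apply' _ _ _ hx, Function.extend_apply' _ _ _ hx,
        Function.extend_apply' _ _ _ hx]
  rw [h3, slice_Dl, map_smul, ext_phR_phR, Pi.smul_apply, smul_eq_mul, Pi.zero_apply,
    mul_eq_zero] at h2
  rcases h2 with h2 | h2
  · have := sgF_sq (fun i => swap c0 (w1 i))
    rw [h2, mul_zero] at this
    exact zero_ne_one this
  · exact hw' h2

end layout

theorem JJ_le {ι : Type} [Fintype ι] [LinearOrder ι] {Z Z' : MonoidAlgebra ℚ (Perm ι)}
    (h : Z' ∈ JJ k l Z) : JJ k l Z' ≤ JJ k l Z := by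
  refine sup_le le_sup_left ?_
  rw [Submodule.span_le]
  rintro _ ⟨a, b, rfl⟩
  exact JJ_right b (JJ_left a h)

theorem ext_trans {κ ι ι' : Type} [Fintype κ] [LinearOrder κ] [Fintype ι] [LinearOrder ι]
    [Fintype ι'] [LinearOrder ι'] (φ : κ ↪o ι) (ψ : ι ↪o ι') (σ : Perm κ) :
    ext ψ (ext φ σ) = ext (φ.trans ψ) σ := by
  apply Equiv.ext
  intro x
  by_cases hx : x ∈ Set.range ψ
  · obtain ⟨y, rfl⟩ := hx
    rw [ext_apply]
    by_cases hy : y ∈ Set.range φ
    · obtain ⟨z, rfl⟩ := hy
      rw [ext_apply]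
      exact (ext_apply (φ.trans ψ) σ z).symm
    · rw [ext_apply' φ σ y hy, ext_apply']
      rintro ⟨z, hz⟩
      exact hy ⟨z, ψ.injective hz⟩
  · rw [ext_apply' ψ _ x hx, ext_apply']
    rintro ⟨z, hz⟩
    exact hx ⟨φ z, hz⟩

theorem pl_trans {κ ι ι' : Type} [Fintype κ] [LinearOrder κ] [Fintype ι] [LinearOrder ι]
    [Fintype ι'] [LinearOrder ι'] (φ : κ ↪o ι) (ψ : ι ↪o ι') (y : MonoidAlgebra ℚ (Perm κ)) :
    pl ψ (pl φ y) = pl (φ.trans ψ) y := by
  induction y using MonoidAlgebra.induction_on with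
  | of σ => rw [pl_of, pl_of, pl_of, ext_trans]
  | add x y hx hy => rw [map_add, map_add, map_add, hx, hy]
  | smul r x hx => rw [map_smul, map_smul, map_smul, hx]

theorem isAltF_pl (C : Cat k l m) {n' q : ℕ} {P : Fin d × Lt k l → Fin q}
    (hP : Function.Injective P) {Y : MonoidAlgebra ℚ (Perm (Fin (q + m)))}
    (hY : IsAltF C P hP Y) :
    IsAltF C (fun c => Fin.natAdd n' (P c)) (fun _ _ h => hP (natAdd_inj' n' h))
      (pl (phq n' q m) Y) := by
  intro v
  have h1 := act_phq C (n' := n') Y (univ : Finset (Fin d → Perm (Lt k l)))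
    (fun x => sgF x) (fun x => viaG P hP (bp x)) (fun v => hY v) v
  rw [h1]
  refine Finset.sum_congr rfl (fun ρ _ => ?_)
  have h2 : ext (Fin.natAddOrderEmb n') (viaG P hP (bp ρ))
        = viaG (fun c => Fin.natAdd n' (P c)) (fun _ _ h => hP (natAdd_inj' n' h)) (bp ρ) := by
    apply Equiv.ext
    intro x
    by_cases hx : ∃ c, Fin.natAdd n' (P c) = x
    · obtain ⟨c, rfl⟩ := hx
      rw [viaG_apply (fun c => Fin.natAdd n' (P c)) (fun _ _ h => hP (natAdd_inj' n' h)) (bp ρ) c]
      have := ext_apply (Fin.natAddOrderEmb n') (viaG P hP (bp ρ)) (P c)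
      rw [viaG_apply] at this
      exact this
    · push Not at hx
      rw [viaG_apply' (fun c => Fin.natAdd n' (P c)) (fun _ _ h => hP (natAdd_inj' n' h)) (bp ρ) hx]
      by_cases hx2 : x ∈ Set.range (Fin.natAddOrderEmb n' : Fin q ↪o Fin (n' + q))
      · obtain ⟨y, rfl⟩ := hx2
        rw [ext_apply, viaG_apply' P hP (bp ρ) (fun c e => hx c (by rw [e]; rfl))]
      · exact ext_apply' _ _ _ hx2
  rw [h2]

theorem RL_gen_aux {n0 n1 : ℕ} {c0 : Lt k l} (e : Fin d × {c : Lt k l // c ≠ c0} ≃ Fin n1)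
    {Y : MonoidAlgebra ℚ (Perm (Fin d))} (hY : act k l _ Y ≠ 0)
    (y : MonoidAlgebra ℚ (Perm (Fin (n0 + (n1 + d) + mm k l))))
    (hy : ∀ u : Fin (n0 + (n1 + d) + mm k l) → Lt k l, act k l _ y (Pi.single u 1) ≠ 0 →
      (∀ i : Fin k, l + d ≤ cnt (Sum.inl i) u) ∧ (∀ j : Fin l, k + d ≤ cnt (Sum.inr j) u)) :
    ∃ ψ : Fin d ↪o Fin (n0 + (n1 + d) + mm k l), y ∈ JJ k l (pl ψ Y) := by
  let C := catalyst k l
  have hC : C.ξ = xi k l := rfl
  obtain ⟨a, b, hab⟩ := (std_Pos e).sandwich C (pl (phR n1 d) Y) (act_Dl_ne e hY)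
  refine ⟨((phR n1 d).trans (phL (n1 + d) (mm k l))).trans (phq n0 (n1 + d) (mm k l)), ?_⟩
  have h1 := RLF C hC _ (isAltF_pl C (n' := n0) (std_Pos e).inj hab) y hy
  refine JJ_le ?_ h1
  rw [map_mul, map_mul, pl_trans, pl_trans, ← pl_trans, ← pl_trans]
  rw [pl_trans, pl_trans]
  exact Z_mem_JJ _ _

theorem JJ_conj {N : ℕ} (φ ψ : Fin d ↪o Fin N) (Y : MonoidAlgebra ℚ (Perm (Fin d))) :
    pl ψ Y ∈ JJ k l (pl φ Y) := by
  obtain ⟨T, hT⟩ := exists_perm_gen (P := φ) (P' := ψ) φ.injective ψ.injective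
  rw [pl_conj φ ψ T hT]
  exact Z_mem_JJ _ _

theorem sum_cnt {N : ℕ} (u : Fin N → Lt k l) : ∑ c, cnt c u = N := by
  classical
  have h := Finset.card_eq_sum_card_fiberwise (f := u) (s := univ) (t := univ)
    (fun _ _ => Finset.mem_coe.2 (Finset.mem_univ _))
  rw [Finset.card_univ, Fintype.card_fin] at h
  exact h.symm

/-- (RL), general form: `Y` is any element which does not act by zero in the `(k|l)` sign
representation. An element killing all the words in which some even letter occurs less than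
`l + d` times or some odd letter less than `k + d` times is in the ideal `K(k|l) + (Y)`. -/
theorem RL_gen {N : ℕ} (hkl : 0 < k + l) (φ : Fin d ↪o Fin N)
    {Y : MonoidAlgebra ℚ (Perm (Fin d))} (hY : act k l _ Y ≠ 0)
    (y : MonoidAlgebra ℚ (Perm (Fin N)))
    (hy : ∀ u : Fin N → Lt k l, act k l _ y (Pi.single u 1) ≠ 0 →
      (∀ i : Fin k, l + d ≤ cnt (Sum.inl i) u) ∧ (∀ j : Fin l, k + d ≤ cnt (Sum.inr j) u)) :
    y ∈ JJ k l (pl φ Y) := by
  classical
  by_cases h0 : act k l _ y = 0
  · exact ker_le_JJ h0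
  have h1 : ∃ u : Fin N → Lt k l, act k l _ y (Pi.single u 1) ≠ 0 := by
    by_contra hcon
    push Not at hcon
    apply h0
    apply LinearMap.ext
    intro f
    have h1 : f = ∑ v, f v • (Pi.single v 1 : W k l (Fin N)) := by
      funext w
      rw [Finset.sum_apply, Finset.sum_eq_single w]
      · simp
      · intro b _ hb; simp [Pi.single_apply, hb.symm]
      · intro h; exact absurd (Finset.mem_univ _) h
    rw [h1, map_sum, LinearMap.zero_apply]
    exact Finset.sum_eq_zero (fun v _ => by rw [map_smul, hcon, smul_zero])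
  obtain ⟨u, hu⟩ := h1
  obtain ⟨h2, h3⟩ := hy u hu
  -- a letter
  have hc0 : Nonempty (Lt k l) := by
    rcases Nat.eq_zero_or_pos k with rfl | hk
    · exact ⟨Sum.inr ⟨0, by omega⟩⟩
    · exact ⟨Sum.inl ⟨0, hk⟩⟩
  obtain ⟨c0⟩ := hc0
  set n1 := Fintype.card (Fin d × {c : Lt k l // c ≠ c0}) with hn1
  let e : Fin d × {c : Lt k l // c ≠ c0} ≃ Fin n1 := Fintype.equivFin _
  have hcard : n1 + d = (k + l) * d := by
    have h4 : Fintype.card {c : Lt k l // c ≠ c0} = k + l - 1 := by
      have := Fintype.card_subtype_compl (fun c : Lt k l => c = c0)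
      rw [Fintype.card_subtype_eq] at this
      have h5 : Fintype.card (Lt k l) = k + l := by
        rw [Fintype.card_sum, Fintype.card_fin, Fintype.card_fin]
      rw [h5] at this
      exact this
    rw [hn1, Fintype.card_prod, Fintype.card_fin, h4]
    obtain ⟨q, hq⟩ : ∃ q, k + l = q + 1 := ⟨k + l - 1, by omega⟩
    rw [hq]
    simp only [Nat.add_sub_cancel]
    ring
  have hN : (n1 + d) + mm k l ≤ N := by
    rw [hcard]
    have h4 := sum_cnt u
    rw [Fintype.sum_sum_type] at h4
    have h5 : k * (l + d) ≤ ∑ i : Fin k, cnt (Sum.inl i : Lt k l) u := by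
      calc k * (l + d) = ∑ _i : Fin k, (l + d) := by
            rw [Finset.sum_const, Finset.card_univ, Fintype.card_fin, smul_eq_mul]
        _ ≤ _ := Finset.sum_le_sum (fun i _ => h2 i)
    have h6 : l * (k + d) ≤ ∑ i : Fin l, cnt (Sum.inr i : Lt k l) u := by
      calc l * (k + d) = ∑ _i : Fin l, (k + d) := by
            rw [Finset.sum_const, Finset.card_univ, Fintype.card_fin, smul_eq_mul]
        _ ≤ _ := Finset.sum_le_sum (fun i _ => h3 i)
    unfold mm
    nlinarith
  obtain ⟨n0, hn0⟩ := Nat.exists_eq_add_of_le' hN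
  rw [← add_assoc] at hn0
  subst hn0
  obtain ⟨ψ, hψ⟩ := RL_gen_aux e hY y hy
  exact JJ_le (JJ_conj φ ψ Y) hψ

/-- (RL), general form for blocks: the product of `≥ l+1+d` disjoint blocks of `K(k|l+1)` and
`≥ k+1+d` disjoint blocks of `K(k+1|l)` is in `K(k+1|l+1) + (Y)`. -/
theorem RL_gen_blocks {N : ℕ} (φ : Fin d ↪o Fin N)
    {Y : MonoidAlgebra ℚ (Perm (Fin d))} (hY : act (k + 1) (l + 1) _ Y ≠ 0)
    (L L' : List (Blk (Fin N)))
    (hL : (L ++ L').Pairwise DisjB) (hlen : l + 1 + d ≤ L.length) (hlen' : k + 1 + d ≤ L'.length)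
    (h1 : ∀ B ∈ L, act k (l + 1) _ B.y = 0) (h2 : ∀ B ∈ L', act (k + 1) l _ B.y = 0) :
    prodB (L ++ L') ∈ JJ (k + 1) (l + 1) (pl φ Y) := by
  refine RL_gen (by omega) φ hY _ (fun u hu => ?_)
  have hL1 : L.Pairwise DisjB := (List.pairwise_append.1 hL).1
  have hL2 : L'.Pairwise DisjB := (List.pairwise_append.1 hL).2.1
  refine ⟨fun i => ?_, fun j => ?_⟩
  · refine le_trans hlen ?_
    refine cnt_blocks L hL1 _ u (fun B hB => ?_)
    by_contra hcon
    push Not at hcon
    apply hu
    refine prodB_kill _ hL (List.mem_append_left _ hB) ?_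
    refine act_pl_single B.conv ?_
    exact kill_small (fev_odd i) (h1 B hB) (fun s => fev_range i _ (hcon s))
  · refine le_trans hlen' ?_
    refine cnt_blocks L' hL2 _ u (fun B hB => ?_)
    by_contra hcon
    push Not at hcon
    apply hu
    refine prodB_kill _ hL (List.mem_append_right _ hB) ?_
    refine act_pl_single B.conv ?_
    exact kill_small (fod_odd j) (h2 B hB) (fun s => fod_range j _ (hcon s))

end Pool.PI34.Super

end

/-! ### part St4 -/
section

/-!
PI34, START, file 4: the square has many independent vectors.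
-/

set_option linter.unusedSectionVars false
set_option linter.unusedSimpArgs false

namespace Pool.PI34.Super

open Equiv Finset

/-- the antidiagonal index -/
def adg (a : ℕ) (x : Fin a × Fin a) : Fin (2 * a) := ⟨x.1.val + x.2.val, by omega⟩

/-- permutations of the square preserving the antidiagonals -/
abbrev AG (a : ℕ) := {g : Perm (Fin a × Fin a) // adg a ∘ g = adg a}

theorem inj_le_id {a : ℕ} {f : Fin a → Fin a} (hf : Function.Injective f)
    (hle : ∀ i, f i ≤ i) : ∀ (n : ℕ) (i : Fin a), i.val = n → f i = i := by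
  intro n
  induction n using Nat.strong_induction_on with
  | _ n ih =>
    intro i hi
    by_contra hne
    have h1 : f i < i := lt_of_le_of_ne (hle i) hne
    have h2 := ih (f i).val (by rw [← hi]; exact h1) (f i) rfl
    have h3 := hf h2
    exact hne h3

/-- the placed permutation -/
def pg {a : ℕ} (g : Perm (Fin a × Fin a)) : Perm (Fin (a * a)) := finProdFinEquiv.permCongr g

theorem pg_apply {a : ℕ} (g : Perm (Fin a × Fin a)) (x : Fin a × Fin a) :
    pg g (finProdFinEquiv x) = finProdFinEquiv (g x) := by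
  simp [pg, Equiv.permCongr_apply]

theorem pg_mul {a : ℕ} (g h : Perm (Fin a × Fin a)) : pg (g * h) = pg g * pg h := by
  ext s
  obtain ⟨x, rfl⟩ := finProdFinEquiv.surjective s
  rw [Perm.mul_apply, pg_apply, pg_apply, pg_apply]
  rfl

theorem pg_one {a : ℕ} : pg (1 : Perm (Fin a × Fin a)) = 1 := by
  ext s
  obtain ⟨x, rfl⟩ := finProdFinEquiv.surjective s
  rw [pg_apply]; rfl

theorem rv0_pg {a : ℕ} {g : Perm (Fin a × Fin a)} (hg : adg a ∘ g = adg a)
    (hne : rv0 a a (w0 a a ∘ pg g) ≠ 0) : g = 1 := by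
  classical
  have h1 : ∀ j : Fin a, Function.Injective (fun i : Fin a => (g (j, i)).2) := by
    intro j
    rw [Finite.injective_iff_surjective]
    intro c
    have h2 : DD (fun x : Fin a × Fin a => finProdFinEquiv x) (Sum.inl : Fin a → Lt a 0)
      (w0 a a ∘ pg g) ≠ 0 := hne
    obtain ⟨i, hi⟩ := DD_supp h2 j c
    refine ⟨i, ?_⟩
    rw [Function.comp_apply, pg_apply] at hi
    unfold w0 at hi
    rw [Equiv.symm_apply_apply] at hi
    exact Sum.inl_injective hi
  have h2 : ∀ x, (g x).1.val + (g x).2.val = x.1.val + x.2.val := by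
    intro x
    have := congrFun hg x
    simp only [adg, Function.comp_apply, Fin.mk.injEq] at this
    exact this
  have h3 : ∀ (n : ℕ) (j : Fin a), j.val = n → ∀ i, g (j, i) = (j, i) := by
    intro n
    induction n using Nat.strong_induction_on with
    | _ n ih =>
      intro j hj
      have h4 : ∀ i, j.val ≤ (g (j, i)).1.val := by
        intro i
        by_contra hlt
        push Not at hlt
        have h5 := ih (g (j, i)).1.val (by rw [← hj]; exact hlt) (g (j, i)).1 rfl (g (j, i)).2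
        have h6 : g (j, i) = (j, i) := g.injective h5
        rw [h6] at hlt
        exact lt_irrefl _ hlt
      have h5 : ∀ i, (g (j, i)).2 ≤ i := by
        intro i
        have := h2 (j, i)
        have := h4 i
        rw [Fin.le_def]
        simp only at *
        omega
      intro i
      have h6 := inj_le_id (h1 j) h5 i.val i rfl
      have h7 := h2 (j, i)
      refine Prod.ext (Fin.ext ?_) h6
      simp only at h6 h7 ⊢
      rw [h6] at h7
      omega
  ext x : 1
  exact h3 x.1.val x.1 rfl x.2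

theorem AG_lin (a : ℕ) :
    LinearIndependent ℚ (fun g : AG a => rho a 0 _ (pg g.1) (rv0 a a)) := by
  classical
  rw [Fintype.linearIndependent_iff]
  intro c hc h
  have h1 := congrFun hc (w0 a a ∘ pg h.1⁻¹)
  rw [Finset.sum_apply, Finset.sum_eq_single h] at h1
  · rw [Pi.smul_apply, rho_zero] at h1
    have h2 : (w0 a a ∘ pg h.1⁻¹) ∘ pg h.1 = w0 a a := by
      have : pg h.1⁻¹ * pg h.1 = 1 := by rw [← pg_mul, inv_mul_cancel, pg_one]
      funext s
      exact congrArg (w0 a a) (congrArg (fun f : Perm (Fin (a * a)) => f s) this)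
    rw [h2, rv0_w0, smul_eq_mul, mul_one] at h1
    exact h1
  · intro g _ hgh
    rw [Pi.smul_apply, rho_zero]
    have h2 : (w0 a a ∘ pg h.1⁻¹) ∘ pg g.1 = w0 a a ∘ pg (h.1⁻¹ * g.1) := by
      rw [pg_mul]; rfl
    rw [h2]
    have h3 : rv0 a a (w0 a a ∘ pg (h.1⁻¹ * g.1)) = 0 := by
      by_contra hne
      have hpres : adg a ∘ (h.1⁻¹ * g.1 : Perm (Fin a × Fin a)) = adg a := by
        funext x
        have e1 := congrFun g.2 x
        have e2 := congrFun h.2 (h.1⁻¹ (g.1 x))
        rw [Function.comp_apply] at e1 e2 ⊢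
        rw [app_inv'] at e2
        rw [Perm.mul_apply, ← e2, e1]
      have := rv0_pg hpres hne
      rw [inv_mul_eq_one] at this
      exact hgh (Subtype.ext this.symm)
    rw [h3, smul_zero]
  · intro h; exact absurd (Finset.mem_univ _) h

theorem fiber_card {b : ℕ} (t : Fin (2 * (2 * b))) (h1 : b ≤ t.val) (h2 : t.val < 3 * b) :
    b ≤ Fintype.card {x : Fin (2 * b) × Fin (2 * b) // adg (2 * b) x = t} := by
  classical
  conv_lhs => rw [← Fintype.card_fin b]
  let f : Fin b → {x : Fin (2 * b) × Fin (2 * b) // adg (2 * b) x = t} := fun c =>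
    if h : t.val ≤ 2 * b - 1 then
      ⟨(⟨c.val, by omega⟩, ⟨t.val - c.val, by omega⟩), by
        apply Fin.ext; simp only [adg]; omega⟩
    else
      ⟨(⟨t.val - (2 * b - 1) + c.val, by omega⟩, ⟨2 * b - 1 - c.val, by omega⟩), by
        apply Fin.ext; simp only [adg]; omega⟩
  refine Fintype.card_le_of_injective f (fun c d hcd => ?_)
  simp only [f] at hcd
  split_ifs at hcd with h
  · have := congrArg (fun x => x.1.1.val) hcd
    exact Fin.ext this
  · have := congrArg (fun x => x.1.1.val) hcd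
    simp only at this
    exact Fin.ext (by omega)

theorem AG_card (b : ℕ) : (Nat.factorial b) ^ (2 * b) ≤ Fintype.card (AG (2 * b)) := by
  classical
  rw [DomMulAct.stabilizer_card (adg (2 * b))]
  have h1 : (Nat.factorial b) ^ (2 * b)
      = ∏ t ∈ univ.filter (fun t : Fin (2 * (2 * b)) => b ≤ t.val ∧ t.val < 3 * b),
        Nat.factorial b := by
    rw [Finset.prod_const]
    congr 1
    symm
    have h2 : (univ.filter (fun t : Fin (2 * (2 * b)) => b ≤ t.val ∧ t.val < 3 * b)).card
        = (univ : Finset (Fin (2 * b))).card := by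
      refine Finset.card_bij' (fun t ht => ⟨t.val - b, by
          rw [Finset.mem_filter] at ht; omega⟩) (fun t _ => ⟨t.val + b, by omega⟩) ?_ ?_ ?_ ?_
      · intro t _; exact Finset.mem_univ _
      · intro t _
        rw [Finset.mem_filter]
        refine ⟨Finset.mem_univ _, ?_, ?_⟩ <;> simp only <;> omega
      · intro t ht
        rw [Finset.mem_filter] at ht
        apply Fin.ext; simp only; omega
      · intro t _
        apply Fin.ext; simp only; omega
    rw [h2, Finset.card_univ, Fintype.card_fin]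
  rw [h1]
  refine le_trans (Finset.prod_le_prod' (fun t ht => ?_))
    (Finset.prod_le_prod_of_subset_of_one_le' (Finset.filter_subset _ _)
      (fun t _ _ => Nat.factorial_pos _))
  rw [Finset.mem_filter] at ht
  exact Nat.factorial_le (fiber_card t ht.2.1 ht.2.2)

/-- the size condition -/
theorem size_cond (C K : ℕ) : ∃ b0 : ℕ, ∀ b ≥ b0,
    C ^ (K * ((2 * b) * (2 * b))) < Fintype.card (AG (2 * b)) := by
  have h1 := FloorSemiring.tendsto_pow_div_factorial_atTop ((C : ℝ) ^ (2 * K))
  have h2 := (tendsto_order.1 h1).2 1 zero_lt_one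
  rw [Filter.eventually_atTop] at h2
  obtain ⟨b0, hb0⟩ := h2
  refine ⟨max b0 1, fun b hb => ?_⟩
  have h3 := hb0 b (le_trans (le_max_left _ _) hb)
  have hb1 : 1 ≤ b := le_trans (le_max_right _ _) hb
  have hpos : (0 : ℝ) < (Nat.factorial b : ℝ) := by exact_mod_cast Nat.factorial_pos b
  rw [div_lt_one hpos] at h3
  have h4 : (C ^ (2 * K)) ^ b < Nat.factorial b := by exact_mod_cast h3
  have h5 : ((C ^ (2 * K)) ^ b) ^ (2 * b) < (Nat.factorial b) ^ (2 * b) :=
    Nat.pow_lt_pow_left h4 (by omega)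
  refine lt_of_lt_of_le ?_ (AG_card b)
  refine lt_of_eq_of_lt ?_ h5
  rw [← pow_mul, ← pow_mul]
  congr 1
  ring

end Pool.PI34.Super

end

/-! ### part St5 -/
section

/-!
PI34, START, file 5: the START theorem.
-/

set_option linter.unusedSectionVars false
set_option linter.unusedSimpArgs false

namespace Pool.PI34.Super

open Equiv Finset

section integral

variable {G : Type} [Group G]

/-- base change `ℤ[G] → ℚ[G]` -/
noncomputable def bc : MonoidAlgebra ℤ G →+* MonoidAlgebra ℚ G :=
  MonoidAlgebra.mapRingHom G (Int.castRingHom ℚ)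

theorem bc_inj : Function.Injective (bc (G := G)) := by
  intro a b h
  ext g
  have := congrArg (fun x => x.coeff g) h
  simp only [bc, MonoidAlgebra.coeff_mapRingHom, eq_intCast] at this
  exact_mod_cast this

theorem bc_of (g : G) : bc (MonoidAlgebra.of ℤ G g) = MonoidAlgebra.of ℚ G g := by
  simp [bc, MonoidAlgebra.of_apply]

theorem bc_smul (n : ℤ) (a : MonoidAlgebra ℤ G) : bc (n • a) = (n : ℚ) • bc a := by
  rw [map_zsmul, Int.cast_smul_eq_zsmul]

/-- integral multiples -/
theorem exists_int (u : MonoidAlgebra ℚ G) : ∃ D : ℕ, 0 < D ∧ ∃ u' : MonoidAlgebra ℤ G,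
    bc u' = (D : ℚ) • u := by
  induction u using MonoidAlgebra.induction_on with
  | of g => exact ⟨1, one_pos, MonoidAlgebra.of ℤ G g, by rw [bc_of, Nat.cast_one, one_smul]⟩
  | add x y hx hy =>
    obtain ⟨D, hD, x', hx'⟩ := hx
    obtain ⟨E, hE, y', hy'⟩ := hy
    refine ⟨D * E, Nat.mul_pos hD hE, (E : ℤ) • x' + (D : ℤ) • y', ?_⟩
    rw [map_add, bc_smul, bc_smul, hx', hy', smul_smul, smul_smul, smul_add]
    push_cast
    rw [mul_comm (E : ℚ) D]
  | smul r x hx =>
    obtain ⟨D, hD, x', hx'⟩ := hx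
    refine ⟨r.den * D, Nat.mul_pos r.pos hD, r.num • x', ?_⟩
    rw [bc_smul, hx', smul_smul, smul_smul]
    congr 1
    push_cast
    have h := Rat.mul_den_eq_num r
    calc (r.num : ℚ) * D = (r * r.den) * D := by rw [h]
      _ = _ := by ring

theorem exists_int_fam {I : Type} [Fintype I] (u : I → MonoidAlgebra ℚ G) :
    ∃ D : ℕ, 0 < D ∧ ∃ u' : I → MonoidAlgebra ℤ G, ∀ i, bc (u' i) = (D : ℚ) • u i := by
  classical
  choose D hD u' hu' using fun i => exists_int (u i)
  refine ⟨∏ i, D i, Finset.prod_pos (fun i _ => hD i),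
    fun i => ((∏ j ∈ univ.erase i, D j : ℕ) : ℤ) • u' i, fun i => ?_⟩
  rw [bc_smul, hu', smul_smul]
  congr 1
  rw [← Finset.prod_erase_mul _ _ (Finset.mem_univ i)]
  push_cast
  rfl

/-- the two-sided ideal of `ℤ[G]` generated by `Z'`, as an additive subgroup -/
noncomputable def IZZ (Z' : MonoidAlgebra ℤ G) : AddSubgroup (MonoidAlgebra ℤ G) :=
  AddSubgroup.closure {x | ∃ a b, x = a * Z' * b}

theorem IZ_int {Z : MonoidAlgebra ℚ G} {Z' : MonoidAlgebra ℤ G} {D : ℕ} (hD : 0 < D)
    (hZ : bc Z' = (D : ℚ) • Z) {u : MonoidAlgebra ℚ G} (hu : u ∈ IZ Z) :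
    ∃ E : ℕ, 0 < E ∧ ∃ u' ∈ IZZ Z', bc u' = (E : ℚ) • u := by
  unfold IZ at hu
  induction hu using Submodule.span_induction with
  | mem u hu =>
    obtain ⟨a, b, rfl⟩ := hu
    obtain ⟨A, hA, a', ha'⟩ := exists_int a
    obtain ⟨B, hB, b', hb'⟩ := exists_int b
    refine ⟨A * D * B, Nat.mul_pos (Nat.mul_pos hA hD) hB, a' * Z' * b',
      AddSubgroup.subset_closure ⟨a', b', rfl⟩, ?_⟩
    rw [map_mul, map_mul, ha', hb', hZ]
    simp only [smul_mul_assoc, mul_smul_comm, smul_smul]
    congr 1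
    push_cast; ring
  | zero => exact ⟨1, one_pos, 0, AddSubgroup.zero_mem _, by rw [map_zero, smul_zero]⟩
  | add x y _ _ hx hy =>
    obtain ⟨A, hA, x', hx1, hx2⟩ := hx
    obtain ⟨B, hB, y', hy1, hy2⟩ := hy
    refine ⟨A * B, Nat.mul_pos hA hB, (B : ℤ) • x' + (A : ℤ) • y',
      AddSubgroup.add_mem _ (AddSubgroup.zsmul_mem _ hx1 _) (AddSubgroup.zsmul_mem _ hy1 _), ?_⟩
    rw [map_add, bc_smul, bc_smul, hx2, hy2, smul_smul, smul_smul, smul_add]
    push_cast
    rw [mul_comm (B : ℚ) A]
  | smul r x _ hx =>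
    obtain ⟨A, hA, x', hx1, hx2⟩ := hx
    refine ⟨r.den * A, Nat.mul_pos r.pos hA, r.num • x', AddSubgroup.zsmul_mem _ hx1 _, ?_⟩
    rw [bc_smul, hx2, smul_smul, smul_smul]
    congr 1
    push_cast
    have h := Rat.mul_den_eq_num r
    calc (r.num : ℚ) * A = (r * r.den) * A := by rw [h]
      _ = _ := by ring

end integral

section good

variable {G : Type} [Group G] {P : Type*} [AddCommGroup P]

/-- GOOD LEMMA. -/
theorem good_lemma (R : MonoidAlgebra ℤ G →+* AddMonoid.End P)
    {I : Type} [Fintype I] [DecidableEq I] {z' : MonoidAlgebra ℤ G} {c' : I → MonoidAlgebra ℤ G}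
    {b : I → MonoidAlgebra ℤ G} {E D F : ℕ}
    (hrel : ∀ i j, z' * c' i * b j * z' = if i = j then E • z' else 0)
    (hE : ∀ x : P, E • x = 0 → x = 0) (hD : ∀ x : P, D • x = 0 → x = 0)
    (hF : F < Fintype.card I) (f : Fin F → P)
    (hf : ∀ x : P, ∃ j : ℕ, D ^ j • x ∈ AddSubgroup.closure (Set.range f)) (x : P) :
    R z' x = 0 := by
  classical
  have hDj : ∀ (j : ℕ) (x : P), D ^ j • x = 0 → x = 0 := by
    intro j
    induction j with
    | zero => intro x hx; rwa [pow_zero, one_smul] at hx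
    | succ j ih =>
      intro x hx
      rw [pow_succ, mul_smul] at hx
      exact hD x (ih _ hx)
  set x' := R z' x with hx'
  choose j hj using fun i => hf (R (b i) x')
  set J := ∑ i, j i with hJ
  have hmem : ∀ i, D ^ J • R (b i) x' ∈ AddSubgroup.closure (Set.range f) := by
    intro i
    have h1 : j i ≤ J := Finset.single_le_sum (f := j) (fun _ _ => Nat.zero_le _)
      (Finset.mem_univ i)
    obtain ⟨t, ht⟩ := Nat.exists_eq_add_of_le h1
    rw [ht, add_comm, pow_add, mul_smul]
    exact AddSubgroup.nsmul_mem _ (hj i) _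
  have hexp : ∀ i, ∃ m : Fin F → ℤ, D ^ J • R (b i) x' = ∑ g, m g • f g := by
    intro i
    have h1 := hmem i
    rw [← Submodule.span_int_eq_addSubgroupClosure, Submodule.mem_toAddSubgroup,
      Submodule.mem_span_range_iff_exists_fun] at h1
    obtain ⟨m, hm⟩ := h1
    exact ⟨m, hm.symm⟩
  choose m hm using hexp
  -- a relation
  let φ : (I → ℤ) →ₗ[ℤ] (Fin F → ℤ) :=
    { toFun := fun v g => ∑ i, v i * m i g
      map_add' := fun v w => by
        funext g; simp only [Pi.add_apply, add_mul, Finset.sum_add_distrib]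
      map_smul' := fun r v => by
        funext g
        simp only [Pi.smul_apply, smul_eq_mul, RingHom.id_apply, Finset.mul_sum, mul_assoc] }
  have hφ : ¬ Function.Injective φ := by
    intro h
    have := card_le_of_injective ℤ φ h
    rw [Fintype.card_fin] at this
    omega
  rw [injective_iff_map_eq_zero] at hφ
  push Not at hφ
  obtain ⟨v, hv, hv0⟩ := hφ
  obtain ⟨i0, hi0⟩ := Function.ne_iff.1 hv0
  have hne : (univ : Finset I).Nonempty := ⟨i0, Finset.mem_univ _⟩
  obtain ⟨u, hu, hgcd⟩ := Finset.extract_gcd v hne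
  have hg0 : (univ : Finset I).gcd v ≠ 0 := by
    intro h
    rw [Finset.gcd_eq_zero_iff] at h
    exact hi0 (h i0 (Finset.mem_univ _))
  have hu0 : ∀ g, ∑ i, u i * m i g = 0 := by
    intro g
    have h1 := congrFun hv g
    change ∑ i, v i * m i g = 0 at h1
    have h2 : ∑ i, v i * m i g = (univ : Finset I).gcd v * ∑ i, u i * m i g := by
      rw [Finset.mul_sum]
      refine Finset.sum_congr rfl (fun i _ => ?_)
      rw [← mul_assoc, ← hu i (Finset.mem_univ _)]
    rw [h2] at h1
    exact (mul_eq_zero.1 h1).resolve_left hg0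
  -- the relation in `P`
  have hrelP : ∑ i, u i • R (b i) x' = 0 := by
    apply hDj J
    rw [Finset.smul_sum]
    have h1 : ∀ i, D ^ J • u i • R (b i) x' = ∑ g, (u i * m i g) • f g := by
      intro i
      rw [smul_comm, hm i, Finset.smul_sum]
      exact Finset.sum_congr rfl (fun g _ => by rw [mul_smul])
    rw [Finset.sum_congr rfl (fun i _ => h1 i), Finset.sum_comm]
    refine Finset.sum_eq_zero (fun g _ => ?_)
    rw [← Finset.sum_smul, hu0 g, zero_smul]
  have hui : ∀ i, u i • x' = 0 := by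
    intro i
    have h1 := congrArg (R (z' * c' i)) hrelP
    rw [map_zero, map_sum] at h1
    have h2 : ∀ j, R (z' * c' i) (u j • R (b j) x') = if i = j then E • (u i • x') else 0 := by
      intro j
      rw [map_zsmul, hx']
      have h3 : R (z' * c' i) (R (b j) (R z' x)) = R (z' * c' i * b j * z') x := by
        rw [map_mul R (z' * c' i * b j), map_mul R (z' * c' i)]; rfl
      rw [h3, hrel]
      split_ifs with hij
      · rw [hij, map_nsmul]
        change u j • (E • R z' x) = _
        rw [smul_comm]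
      · rw [map_zero]; exact smul_zero _
    rw [Finset.sum_congr rfl (fun j _ => h2 j), Finset.sum_ite_eq, if_pos (Finset.mem_univ _)]
      at h1
    exact hE _ h1
  have h1 : ∀ i ∈ (univ : Finset I), (addOrderOf x' : ℤ) ∣ u i := fun i _ =>
    addOrderOf_dvd_iff_zsmul_eq_zero.2 (hui i)
  have h2 := Finset.dvd_gcd h1
  rw [hgcd] at h2
  have h3 : addOrderOf x' = 1 := by
    have := Int.eq_one_of_dvd_one (by positivity) h2
    exact_mod_cast this
  exact AddMonoid.addOrderOf_eq_one_iff.1 h3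

end good

end Pool.PI34.Super

end

/-! ### part St6 -/
section

/-!
PI34, START, file 6: the START theorem.
-/

set_option linter.unusedSectionVars false
set_option linter.unusedSimpArgs false

namespace Pool.PI34.Super

open Equiv Finset

universe u

/-- the identity of the kernel -/
theorem ker_split (k N : ℕ) : ∃ e e' : MonoidAlgebra ℚ (Perm (Fin N)), e + e' = 1 ∧
    act k k (Fin N) e = 0 ∧ ∀ a, act k k (Fin N) a = 0 → a * e' = 0 := by
  obtain ⟨e, e', hee, he, h0⟩ := left_split (LinearMap.ker (act k k (Fin N)).toLinearMap)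
    (fun c a ha => by
      rw [LinearMap.mem_ker] at ha ⊢
      have ha' : act k k _ a = 0 := ha
      change act k k _ (c * a) = 0
      rw [map_mul, ha', mul_zero])
  exact ⟨e, e', hee, LinearMap.mem_ker.1 he, fun a ha => h0 a (LinearMap.mem_ker.2 ha)⟩

theorem start_core' {k N F : ℕ} {I : Type} [Fintype I] [DecidableEq I]
    (hF : F < Fintype.card I) {Z : MonoidAlgebra ℚ (Perm (Fin N))}
    {Cc : I → MonoidAlgebra ℚ (Perm (Fin N))} {gg : I → Perm (Fin N)}
    (hc : ∀ i j, Z * Cc i * MonoidAlgebra.of ℚ _ (gg j) * Z = if i = j then Z else 0)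
    (hgen : ∀ e, act k k (Fin N) e = 0 → e ∈ IZ Z) :
    ∃ D : ℕ, 0 < D ∧ ∀ D' : ℕ, D ∣ D' → ∀ (P : Type u) [AddCommGroup P]
      (R : MonoidAlgebra ℤ (Perm (Fin N)) →+* AddMonoid.End P),
      (∀ x : P, D' • x = 0 → x = 0) → ∀ f : Fin F → P,
      (∀ x : P, ∃ j : ℕ, D' ^ j • x ∈ AddSubgroup.closure (Set.range f)) →
      ∀ y : MonoidAlgebra ℤ (Perm (Fin N)),
        act k k _ (bc y) = 0 → ∀ x : P, R y x = 0 := by
  classical
  -- integral lifts
  obtain ⟨D1, hD1, z', hz'⟩ := exists_int Z
  obtain ⟨D2, hD2, c', hc'⟩ := exists_int_fam Cc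
  obtain ⟨e, e', hee, he, h0⟩ := ker_split k N
  obtain ⟨D3, hD3, E, hE1, hE2⟩ := IZ_int hD1 hz' (hgen e he)
  refine ⟨D1 * D2 * D3, Nat.mul_pos (Nat.mul_pos hD1 hD2) hD3, ?_⟩
  intro D' hDD P _ R hreg f hf y hy x
  have hregd : ∀ d : ℕ, d ∣ D' → ∀ x : P, d • x = 0 → x = 0 := by
    rintro d ⟨e, he⟩ x hx
    apply hreg
    rw [he, mul_comm, mul_smul, hx, smul_zero]
  have hZ : ∀ x, R z' x = 0 := by
    refine good_lemma R (I := I) (c' := c')
      (b := fun g => MonoidAlgebra.of ℤ _ (gg g)) (E := D1 * D2) (D := D') ?_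
      (hregd _ (dvd_trans (Dvd.intro _ rfl) hDD)) hreg hF f hf
    intro i j
    apply bc_inj
    rw [map_mul, map_mul, map_mul, hz', hc', bc_of]
    simp only [smul_mul_assoc, mul_smul_comm, smul_smul]
    rw [hc]
    split_ifs
    · rw [map_nsmul, hz', ← Nat.cast_smul_eq_nsmul ℚ, smul_smul]
      congr 1
      push_cast; ring
    · rw [map_zero, smul_zero]
  -- the ideal kills
  have hI : ∀ u ∈ IZZ z', ∀ x, R u x = 0 := by
    intro u hu
    unfold IZZ at hu
    induction hu using AddSubgroup.closure_induction with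
    | mem u hu =>
      obtain ⟨a, b, rfl⟩ := hu
      intro x
      rw [map_mul, map_mul]
      change R a (R z' (R b x)) = 0
      rw [hZ, map_zero]
    | zero => intro x; rw [map_zero]; rfl
    | add a b _ _ ha hb => intro x; rw [map_add]; change R a x + R b x = 0; rw [ha, hb, add_zero]
    | neg a _ ha => intro x; rw [map_neg]; change -(R a x) = 0; rw [ha, neg_zero]
  have h3 : y * E = D3 • y := by
    apply bc_inj
    rw [map_mul, hE2, map_nsmul, ← Nat.cast_smul_eq_nsmul ℚ, mul_smul_comm]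
    congr 1
    have h4 : bc y * e' = 0 := h0 _ hy
    have h5 : bc y * (e + e') = bc y := by rw [hee, mul_one]
    rw [mul_add, h4, add_zero] at h5
    exact h5
  apply hregd D3 (dvd_trans (Dvd.intro_left _ rfl) hDD)
  have h4 : R (y * E) x = 0 := by
    rw [map_mul]
    change R y (R E x) = 0
    rw [hI E hE1, map_zero]
  rw [h3, map_nsmul] at h4
  exact h4

theorem start_core {k n F : ℕ} (hF : F < Fintype.card (AG (k + 1))) :
    ∃ D : ℕ, 0 < D ∧ ∀ D' : ℕ, D ∣ D' → ∀ (P : Type u) [AddCommGroup P]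
      (R : MonoidAlgebra ℤ (Perm (Fin (n + (k + 1) * (k + 1)))) →+* AddMonoid.End P),
      (∀ x : P, D' • x = 0 → x = 0) → ∀ f : Fin F → P,
      (∀ x : P, ∃ j : ℕ, D' ^ j • x ∈ AddSubgroup.closure (Set.range f)) →
      ∀ y : MonoidAlgebra ℤ (Perm (Fin (n + (k + 1) * (k + 1)))),
        act k k _ (bc y) = 0 → ∀ x : P, R y x = 0 := by
  classical
  obtain ⟨z, hz, hz2⟩ := exists_rect (k + 1) (k + 1)
  obtain ⟨c, hc⟩ := hz2 (AG (k + 1)) (fun g => pg g.1) (AG_lin (k + 1))
  refine start_core' (Z := pl (phR n ((k + 1) * (k + 1))) z)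
    (Cc := fun i => pl (phR n ((k + 1) * (k + 1))) (c i))
    (gg := fun i => ext (phR n ((k + 1) * (k + 1))) (pg i.1)) hF (fun i j => ?_)
    (fun e he => hook_gen hz he)
  rw [← pl_of, ← map_mul, ← map_mul, ← map_mul, hc i j]
  split_ifs
  · rfl
  · exact map_zero _

/-- the ring map given by a representation -/
noncomputable def repR {G : Type} [Group G] {P : Type u} [AddCommGroup P]
    (ρ : G →* AddMonoid.End P) : MonoidAlgebra ℤ G →+* AddMonoid.End P :=
  (MonoidAlgebra.lift ℤ (AddMonoid.End P) G ρ).toRingHom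

theorem repR_of {G : Type} [Group G] {P : Type u} [AddCommGroup P]
    (ρ : G →* AddMonoid.End P) (g : G) : repR ρ (MonoidAlgebra.of ℤ G g) = ρ g := by
  simp [repR]

/-- START: for all `C, K` there are arbitrarily large `k` such that for all `M` between
`(k+1)^2` and `K (k+1)^2` there is `D > 0` such that for every multiple `D'` of `D` and every
representation of `S_M` on an abelian group `P` without `D'`-torsion which is generated up to
powers of `D'` by at most `C ^ M` elements, all the elements of `ℤ[S_M]` which vanish in the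
`(k|k)` sign representation kill `P`. -/
theorem START (C K k1 : ℕ) : ∃ k ≥ k1, ∀ M : ℕ, (k + 1) * (k + 1) ≤ M →
    M ≤ K * ((k + 1) * (k + 1)) → ∃ D : ℕ, 0 < D ∧ ∀ D' : ℕ, D ∣ D' →
    ∀ (P : Type u) [AddCommGroup P] (ρ : Perm (Fin M) →* AddMonoid.End P),
      (∀ x : P, D' • x = 0 → x = 0) → ∀ F : ℕ, F ≤ C ^ M → ∀ f : Fin F → P,
      (∀ x : P, ∃ j : ℕ, D' ^ j • x ∈ AddSubgroup.closure (Set.range f)) →
      ∀ y : MonoidAlgebra ℤ (Perm (Fin M)),
        act k k (Fin M) (MonoidAlgebra.mapRingHom _ (Int.castRingHom ℚ) y) = 0 →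
        ∀ x : P, MonoidAlgebra.lift ℤ (AddMonoid.End P) (Perm (Fin M)) ρ y x = 0 := by
  classical
  obtain ⟨b0, hb0⟩ := size_cond (C + 1) K
  set b := max b0 (k1 + 1) with hb
  have hbb : k1 + 1 ≤ b := le_max_right _ _
  refine ⟨2 * b - 1, by omega, ?_⟩
  have hk : 2 * b - 1 + 1 = 2 * b := by omega
  have hsz := hb0 b (le_max_left _ _)
  rw [← hk] at hsz
  generalize 2 * b - 1 = k at *
  intro M hM1 hM2
  obtain ⟨n, rfl⟩ := Nat.exists_eq_add_of_le' hM1
  set M := n + (k + 1) * (k + 1) with hM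
  -- one D for all F
  have hCF : ∀ F ≤ C ^ M, F < Fintype.card (AG (k + 1)) := by
    intro F hF
    refine lt_of_le_of_lt ?_ hsz
    calc F ≤ C ^ M := hF
      _ ≤ (C + 1) ^ M := Nat.pow_le_pow_left (Nat.le_succ _) _
      _ ≤ (C + 1) ^ (K * ((k + 1) * (k + 1))) := Nat.pow_le_pow_right (Nat.succ_pos _) hM2
  obtain ⟨D, hD, h⟩ := start_core.{u} (k := k) (n := n) (hCF (C ^ M) le_rfl)
  refine ⟨D, hD, ?_⟩
  intro D' hDD P _ ρ hreg F hF f hf y hy x
  -- pad the family
  let f' : Fin (C ^ M) → P := fun i => if h : i.val < F then f ⟨i.val, h⟩ else 0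
  refine h D' hDD P (repR ρ) hreg f' (fun x => ?_) y hy x
  obtain ⟨j, hj⟩ := hf x
  refine ⟨j, AddSubgroup.closure_mono ?_ hj⟩
  rintro _ ⟨i, rfl⟩
  refine ⟨⟨i.val, lt_of_lt_of_le i.2 hF⟩, ?_⟩
  simp only [f', i.2, dif_pos]

end Pool.PI34.Super

end
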