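import Mathlib

/-! ### part H4_Base -/
section

/-!
PI34, block H4, file 1: functions on words, the action of permutations, the operators that turn
letters into letters, highest weight vectors.
-/

set_option autoImplicit false
set_option linter.unusedSectionVars false
set_option linter.unusedDecidableInType false
set_option linter.unusedFintypeInType false

namespace Pool.PI34.H4

open Equiv Finset

/-- Functions on words: the tensor power. -/
abbrev W (N : ℕ) (α : Type) : Type := (α → Fin N) → ℚ

section basic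

variable {N : ℕ} {α : Type} [Fintype α] [DecidableEq α]

/-- The action of a permutation of the places. -/
def rhoFun (σ : Perm α) : W N α →ₗ[ℚ] W N α where
  toFun f := fun w => f (w ∘ σ)
  map_add' _ _ := rfl
  map_smul' _ _ := rfl

variable (N α)

/-- The action of the permutations of the places. -/
def rho : Perm α →* Module.End ℚ (W N α) where
  toFun := rhoFun
  map_one' := rfl
  map_mul' _ _ := rfl

/-- The action of the group algebra. -/
noncomputable def act : MonoidAlgebra ℤ (Perm α) →ₐ[ℤ] Module.End ℚ (W N α) :=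
  MonoidAlgebra.lift ℤ _ _ (rho N α)

variable {N α}

theorem rho_apply (σ : Perm α) (f : W N α) (w : α → Fin N) : rho N α σ f w = f (w ∘ σ) := rfl

theorem act_single (σ : Perm α) (a : ℤ) :
    act N α (MonoidAlgebra.single σ a) = a • rho N α σ := by
  simp [act, MonoidAlgebra.lift_single]

theorem act_of (σ : Perm α) : act N α (MonoidAlgebra.of ℤ _ σ) = rho N α σ := by
  simp [act]

/-- The operator that turns the letter `b` into the letter `a`. -/
def EE (a b : Fin N) : W N α →ₗ[ℚ] W N α where
  toFun f := fun w => ∑ x, if w x = a then f (Function.update w x b) else 0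
  map_add' f g := by
    funext w
    simp only [Pi.add_apply]
    rw [← Finset.sum_add_distrib]
    exact Finset.sum_congr rfl (fun x _ => by split_ifs <;> simp)
  map_smul' c f := by
    funext w
    simp only [Pi.smul_apply, smul_eq_mul, RingHom.id_apply]
    rw [Finset.mul_sum]
    exact Finset.sum_congr rfl (fun x _ => by split_ifs <;> simp)

theorem EE_apply (a b : Fin N) (f : W N α) (w : α → Fin N) :
    EE a b f w = ∑ x, if w x = a then f (Function.update w x b) else 0 := rfl

/-- Number of occurrences of a letter. -/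
def cnt (w : α → Fin N) (a : Fin N) : ℕ := (univ.filter (fun x => w x = a)).card

theorem EE_self (a : Fin N) (f : W N α) (w : α → Fin N) : EE a a f w = cnt w a * f w := by
  rw [EE_apply]
  have h1 : ∀ x, (if w x = a then f (Function.update w x a) else 0) =
      if w x = a then f w else 0 := by
    intro x
    split_ifs with h
    · rw [← h, Function.update_eq_self]
    · rfl
  rw [Finset.sum_congr rfl (fun x _ => h1 x), ← Finset.sum_filter, Finset.sum_const, nsmul_eq_mul]
  rfl

theorem update_comp_perm (w : α → Fin N) (σ : Perm α) (x : α) (b : Fin N) :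
    (Function.update w (σ x) b) ∘ σ = Function.update (w ∘ σ) x b := by
  funext y
  simp only [Function.comp_apply]
  by_cases h : y = x
  · subst h
    simp
  · rw [Function.update_of_ne h, Function.update_of_ne (fun e => h (σ.injective e))]
    rfl

theorem EE_rho (a b : Fin N) (σ : Perm α) (f : W N α) :
    EE a b (rho N α σ f) = rho N α σ (EE a b f) := by
  funext w
  rw [rho_apply, EE_apply, EE_apply]
  refine (Equiv.sum_comp σ _).symm.trans ?_
  refine Finset.sum_congr rfl (fun x _ => ?_)
  rw [rho_apply, update_comp_perm]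
  rfl

theorem EE_act (a b : Fin N) (y : MonoidAlgebra ℤ (Perm α)) (f : W N α) :
    EE a b (act N α y f) = act N α y (EE a b f) := by
  induction y using MonoidAlgebra.induction_on with
  | of σ => rw [act_of]; exact EE_rho a b σ f
  | add x y hx hy => rw [map_add, LinearMap.add_apply, map_add, hx, hy]; rfl
  | smul r x hx =>
    rw [map_smul, LinearMap.smul_apply, map_zsmul, hx]
    rfl

/-- The scalar product. -/
def ip (f g : W N α) : ℚ := ∑ w, f w * g w

theorem ip_comm (f g : W N α) : ip f g = ip g f :=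
  Finset.sum_congr rfl (fun _ _ => mul_comm _ _)

theorem ip_add_left (f g h : W N α) : ip (f + g) h = ip f h + ip g h := by
  unfold ip
  rw [← Finset.sum_add_distrib]
  exact Finset.sum_congr rfl (fun w _ => by simp [add_mul])

theorem ip_smul_left (c : ℚ) (f g : W N α) : ip (c • f) g = c * ip f g := by
  unfold ip
  rw [Finset.mul_sum]
  exact Finset.sum_congr rfl (fun w _ => by simp [mul_assoc])

theorem ip_zsmul_left (c : ℤ) (f g : W N α) : ip (c • f) g = c * ip f g := by
  unfold ip
  rw [Finset.mul_sum]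
  exact Finset.sum_congr rfl (fun w _ => by simp [mul_assoc])

theorem ip_zsmul_right (c : ℤ) (f g : W N α) : ip f (c • g) = c * ip f g := by
  rw [ip_comm, ip_zsmul_left, ip_comm]

theorem ip_add_right (f g h : W N α) : ip f (g + h) = ip f g + ip f h := by
  rw [ip_comm, ip_add_left, ip_comm, ip_comm h]

theorem ip_zero_left (g : W N α) : ip 0 g = 0 := by simp [ip]

theorem ip_zero_right (g : W N α) : ip g 0 = 0 := by simp [ip]

theorem ip_self_nonneg (f : W N α) : 0 ≤ ip f f :=
  Finset.sum_nonneg (fun w _ => mul_self_nonneg (f w))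

theorem ip_self_eq_zero {f : W N α} (h : ip f f = 0) : f = 0 := by
  funext w
  have h1 := (Finset.sum_eq_zero_iff_of_nonneg (fun w _ => mul_self_nonneg (f w))).1 h w
    (mem_univ w)
  exact mul_self_eq_zero.1 h1

theorem ip_EE (a b : Fin N) (f g : W N α) : ip (EE a b f) g = ip f (EE b a g) := by
  unfold ip
  simp only [EE_apply, Finset.sum_mul, Finset.mul_sum]
  rw [Finset.sum_comm, Finset.sum_comm (s := univ) (t := univ)
    (f := fun w x => f w * if w x = b then g (Function.update w x a) else 0)]
  refine Finset.sum_congr rfl (fun x _ => ?_)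
  have h1 : ∀ w : α → Fin N, (if w x = a then f (Function.update w x b) else 0) * g w =
      if w x = a then f (Function.update w x b) * g w else 0 := fun w => by split_ifs <;> simp
  have h2 : ∀ w : α → Fin N, f w * (if w x = b then g (Function.update w x a) else 0) =
      if w x = b then f w * g (Function.update w x a) else 0 := fun w => by split_ifs <;> simp
  rw [Finset.sum_congr rfl (fun w _ => h1 w), Finset.sum_congr rfl (fun w _ => h2 w),
    ← Finset.sum_filter, ← Finset.sum_filter]
  refine Finset.sum_bij' (fun w _ => Function.update w x b) (fun w _ => Function.update w x a)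
    ?_ ?_ ?_ ?_ ?_
  · intro w _
    simp
  · intro w _
    simp
  · intro w hw
    rw [mem_filter] at hw
    rw [Function.update_idem, ← hw.2, Function.update_eq_self]
  · intro w hw
    rw [mem_filter] at hw
    rw [Function.update_idem, ← hw.2, Function.update_eq_self]
  · intro w hw
    rw [mem_filter] at hw
    rw [Function.update_idem, ← hw.2, Function.update_eq_self]

theorem ip_rho (σ : Perm α) (f g : W N α) :
    ip (rho N α σ f) g = ip f (rho N α σ⁻¹ g) := by
  unfold ip
  refine Fintype.sum_equiv (Equiv.arrowCongr σ.symm (Equiv.refl (Fin N))) _ _ (fun w => ?_)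
  have h1 : (Equiv.arrowCongr σ.symm (Equiv.refl (Fin N))) w = w ∘ σ := by
    funext x
    simp [Equiv.arrowCongr_apply]
  rw [h1, rho_apply, rho_apply]
  congr 2
  funext x
  simp

/-! ### Highest weight vectors -/

/-- Highest weight vectors (of any weight). -/
def HW (u : W N α) : Prop := ∀ a b : Fin N, a < b → EE a b u = 0

/-- All words in the support have the same letters. -/
def OneW (u : W N α) : Prop := ∀ w w', u w ≠ 0 → u w' ≠ 0 → ∀ a, cnt w a = cnt w' a

theorem cnt_comp (w : α → Fin N) (σ : Perm α) (a : Fin N) : cnt (w ∘ σ) a = cnt w a := by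
  unfold cnt
  refine Finset.card_bij (fun x _ => σ x) ?_ ?_ ?_
  · intro x hx
    rw [mem_filter] at hx ⊢
    exact ⟨mem_univ _, hx.2⟩
  · intro x _ y _ h
    exact σ.injective h
  · intro x hx
    rw [mem_filter] at hx
    exact ⟨σ.symm x, by rw [mem_filter]; simp [hx.2], by simp⟩

theorem cnt_update (w : α → Fin N) (x : α) (b c : Fin N) :
    cnt (Function.update w x b) c + (if w x = c then 1 else 0) =
      cnt w c + (if b = c then 1 else 0) := by
  unfold cnt
  have h1 : ∀ u : α → Fin N, (univ.filter (fun y => u y = c)).card =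
      (if u x = c then 1 else 0) + ((univ.erase x).filter (fun y => u y = c)).card := by
    intro u
    rw [Finset.card_filter, Finset.card_filter, ← Finset.add_sum_erase _ _ (mem_univ x)]
  rw [h1 w, h1 (Function.update w x b), Function.update_self]
  have h2 : (univ.erase x).filter (fun y => Function.update w x b y = c) =
      (univ.erase x).filter (fun y => w y = c) := by
    apply Finset.filter_congr
    intro y hy
    rw [Function.update_of_ne (Finset.ne_of_mem_erase hy)]
  rw [h2]
  ring

/-- Sum of the letters. -/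
def hgt (w : α → Fin N) : ℕ := ∑ x, (w x : ℕ)

theorem hgt_update (w : α → Fin N) (x : α) (b : Fin N) :
    hgt (Function.update w x b) + (w x : ℕ) = hgt w + b := by
  unfold hgt
  rw [← Finset.add_sum_erase _ _ (mem_univ x),
    ← Finset.add_sum_erase univ (fun y => (w y : ℕ)) (mem_univ x), Function.update_self]
  have h2 : ∑ y ∈ univ.erase x, (Function.update w x b y : ℕ) = ∑ y ∈ univ.erase x, (w y : ℕ) :=
    Finset.sum_congr rfl (fun y hy => by rw [Function.update_of_ne (Finset.ne_of_mem_erase hy)])
  rw [h2]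
  ring

theorem hgt_eq_of_cnt {w w' : α → Fin N} (h : ∀ a, cnt w a = cnt w' a) : hgt w = hgt w' := by
  have h1 : ∀ w : α → Fin N, hgt w = ∑ a : Fin N, (a : ℕ) * cnt w a := by
    intro w
    unfold hgt cnt
    have : ∀ a : Fin N, (a : ℕ) * (univ.filter (fun x => w x = a)).card =
        ∑ x, if w x = a then (a : ℕ) else 0 := by
      intro a
      rw [Finset.card_filter, Finset.mul_sum]
      exact Finset.sum_congr rfl (fun x _ => by split_ifs <;> simp)
    rw [Finset.sum_congr rfl (fun a _ => this a), Finset.sum_comm]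
    refine Finset.sum_congr rfl (fun x _ => ?_)
    rw [Finset.sum_ite_eq]
    simp
  rw [h1, h1]
  exact Finset.sum_congr rfl (fun a _ => by rw [h])

theorem EE_supp {a b : Fin N} {u : W N α} {w : α → Fin N} (h : EE a b u w ≠ 0) :
    ∃ x, w x = a ∧ u (Function.update w x b) ≠ 0 := by
  rw [EE_apply] at h
  obtain ⟨x, _, hx⟩ := Finset.exists_ne_zero_of_sum_ne_zero h
  by_cases h1 : w x = a
  · rw [if_pos h1] at hx
    exact ⟨x, h1, hx⟩
  · rw [if_neg h1] at hx
    exact absurd rfl hx

theorem OneW.EE {u : W N α} (hu : OneW u) (a b : Fin N) : OneW (EE a b u) := by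
  intro w w' hw hw' c
  obtain ⟨x, hx1, hx2⟩ := EE_supp hw
  obtain ⟨y, hy1, hy2⟩ := EE_supp hw'
  have h1 := hu _ _ hx2 hy2 c
  have h2 := cnt_update w x b c
  have h3 := cnt_update w' y b c
  rw [hx1] at h2
  rw [hy1] at h3
  omega

theorem OneW.act {u : W N α} (hu : OneW u) (y : MonoidAlgebra ℤ (Perm α)) :
    OneW (act N α y u) := by
  -- the words of the given weight form a stable support
  by_cases h0 : u = 0
  · subst h0
    intro w w' hw
    exact absurd (by rw [map_zero]; rfl) hw
  · obtain ⟨w0, hw0⟩ : ∃ w, u w ≠ 0 := by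
      by_contra hc
      push Not at hc
      exact h0 (funext hc)
    have key : ∀ w, H4.act N α y u w ≠ 0 → ∀ a, cnt w a = cnt w0 a := by
      induction y using MonoidAlgebra.induction_on with
      | of σ =>
        intro w hw a
        rw [act_of, rho_apply] at hw
        rw [← hu _ _ hw hw0 a, cnt_comp]
      | add x y hx hy =>
        intro w hw a
        rw [map_add, LinearMap.add_apply, Pi.add_apply] at hw
        by_cases h1 : H4.act N α x u w = 0
        · rw [h1, zero_add] at hw
          exact hy w hw a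
        · exact hx w h1 a
      | smul r x hx =>
        intro w hw a
        rw [map_smul, LinearMap.smul_apply, Pi.smul_apply] at hw
        exact hx w (fun h => hw (by rw [h, smul_zero])) a
    intro w w' hw hw' a
    rw [key w hw, key w' hw']

theorem HW.act {u : W N α} (hu : HW u) (y : MonoidAlgebra ℤ (Perm α)) : HW (act N α y u) := by
  intro a b hab
  rw [EE_act, hu a b hab, map_zero]

/-- Stable subspaces contain highest weight vectors. -/
theorem exists_hw (S : Submodule ℚ (W N α)) (hS : ∀ a b f, f ∈ S → EE a b f ∈ S)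
    (hne : S ≠ ⊥) : ∃ x ∈ S, x ≠ 0 ∧ HW x ∧ OneW x := by
  classical
  -- vectors of minimal support have one weight
  have h1 : ∃ x ∈ S, x ≠ 0 ∧ OneW x := by
    obtain ⟨x0, hx0, hx0'⟩ := Submodule.exists_mem_ne_zero_of_ne_bot hne
    let P : ℕ → Prop := fun k => ∃ x ∈ S, x ≠ 0 ∧ (univ.filter (fun w => x w ≠ 0)).card = k
    have hP : ∃ k, P k := ⟨_, x0, hx0, hx0', rfl⟩
    obtain ⟨x, hx, hx', hk⟩ := Nat.find_spec hP
    refine ⟨x, hx, hx', fun w w' hw hw' a => ?_⟩
    by_contra hne'
    let x' := EE a a x - (cnt w a : ℚ) • x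
    have e1 : ∀ v, x' v = ((cnt v a : ℚ) - cnt w a) * x v := by
      intro v
      change EE a a x v - (cnt w a : ℚ) * x v = _
      rw [EE_self]
      ring
    have hx'S : x' ∈ S := S.sub_mem (hS a a x hx) (S.smul_mem _ hx)
    have hx'0 : x' ≠ 0 := by
      intro h
      have h2 := congrFun h w'
      rw [e1] at h2
      rcases mul_eq_zero.1 h2 with h3 | h3
      · apply hne'
        have h4 : (cnt w' a : ℚ) = cnt w a := by linarith
        exact_mod_cast h4.symm
      · exact hw' h3
    have h3 : (univ.filter (fun v => x' v ≠ 0)).card < Nat.find hP := by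
      rw [← hk]
      apply Finset.card_lt_card
      refine ⟨fun v hv => ?_, fun hsub => ?_⟩
      · rw [mem_filter] at hv ⊢
        refine ⟨mem_univ _, fun h => hv.2 ?_⟩
        rw [e1, h, mul_zero]
      · have h4 := hsub (mem_filter.2 ⟨mem_univ w, hw⟩)
        rw [mem_filter] at h4
        exact h4.2 (by rw [e1, sub_self, zero_mul])
    exact Nat.find_min hP h3 ⟨x', hx'S, hx'0, rfl⟩
  obtain ⟨x0, hx0, hx0', hx0''⟩ := h1
  let P : ℕ → Prop := fun k => ∃ x ∈ S, OneW x ∧ ∃ w, x w ≠ 0 ∧ hgt w = k
  have hP : ∃ k, P k := by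
    obtain ⟨w, hw⟩ : ∃ w, x0 w ≠ 0 := by
      by_contra hc
      push Not at hc
      exact hx0' (funext hc)
    exact ⟨_, x0, hx0, hx0'', w, hw, rfl⟩
  obtain ⟨x, hx, hx1, w, hw, hk⟩ := Nat.find_spec hP
  refine ⟨x, hx, fun h => hw (by rw [h]; rfl), fun a b hab => ?_, hx1⟩
  by_contra hne'
  obtain ⟨v, hv⟩ : ∃ v, EE a b x v ≠ 0 := by
    by_contra hc
    push Not at hc
    exact hne' (funext hc)
  obtain ⟨i, hi, hi'⟩ := EE_supp hv
  have h2 := hgt_update v i b
  rw [hi] at h2
  have h3 := hgt_eq_of_cnt (hx1 _ _ hi' hw)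
  have h4 : hgt v < Nat.find hP := by
    rw [← hk, ← h3]
    have : (a : ℕ) < b := hab
    omega
  exact Nat.find_min hP h4 ⟨_, hS a b x hx, hx1.EE a b, v, hv, rfl⟩

end basic

end Pool.PI34.H4

end

/-! ### part H4_Grp -/
section

/-!
PI34, block H4, file 2: the group algebra, signed sums, the subgroup `J`, embeddings.
-/

set_option autoImplicit false
set_option linter.unusedSectionVars false
set_option linter.unusedDecidableInType false
set_option linter.unusedFintypeInType false

namespace Pool.PI34.H4

open Equiv Finset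

/-- The integral group algebra of the permutations of a finite set. -/
abbrev P (α : Type) : Type := MonoidAlgebra ℤ (Perm α)

/-- A permutation as an element of the group algebra. -/
noncomputable abbrev g {α : Type} (σ : Perm α) : P α := MonoidAlgebra.of ℤ (Perm α) σ

theorem P_induction {α : Type} {p : P α → Prop} (y : P α) (h1 : ∀ σ : Perm α, p (g σ))
    (h2 : ∀ x y, p x → p y → p (x + y)) (h3 : ∀ (n : ℤ) x, p x → p (n • x)) : p y := by
  induction y using MonoidAlgebra.induction_on with
  | of σ => exact h1 σ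
  | add x y hx hy => exact h2 x y hx hy
  | smul r x hx => exact h3 r x hx

theorem g_mul {α : Type} (σ τ : Perm α) : g (σ * τ) = g σ * g τ := map_mul _ _ _

theorem g_one {α : Type} : g (1 : Perm α) = 1 := map_one _

section basic

variable {α : Type} [Fintype α] [DecidableEq α]

/-- The signed sum of all permutations. -/
noncomputable def As (α : Type) [Fintype α] [DecidableEq α] : P α :=
  ∑ s : Perm α, (Perm.sign s : ℤ) • g s

/-- The signed sum of the permutations that respect a colouring. -/
noncomputable def Ac {C : Type} [DecidableEq C] (c : α → C) : P α :=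
  ∑ s ∈ univ.filter (fun s : Perm α => c ∘ s = c), (Perm.sign s : ℤ) • g s

/-- The subgroup `J` of a colouring: right multiples of `1 + (i j)` for two places of the same
colour, left multiples of the signed sum, everything that kills the words. -/
noncomputable def J (N : ℕ) {C : Type} [DecidableEq C] (c : α → C) : AddSubgroup (P α) :=
  AddSubgroup.closure
    ({x | ∃ (i j : α) (a : P α), i ≠ j ∧ c i = c j ∧ x = (1 + g (swap i j)) * a} ∪
      {x | ∃ b : P α, x = b * Ac c} ∪ {x | act N α x = 0})

variable (N : ℕ)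

theorem act_g (σ : Perm α) (f : W N α) (w : α → Fin N) : act N α (g σ) f w = f (w ∘ σ) := by
  rw [act_of]; rfl

theorem act_one (f : W N α) : act N α 1 f = f := by rw [map_one]; rfl

theorem act_mul (x y : P α) (f : W N α) : act N α (x * y) f = act N α x (act N α y f) := by
  rw [map_mul]; rfl

theorem act_zsmul (n : ℤ) (x : P α) (f : W N α) : act N α (n • x) f = n • act N α x f := by
  rw [map_zsmul]; rfl

theorem act_add (x y : P α) (f : W N α) : act N α (x + y) f = act N α x f + act N α y f := by
  rw [map_add]; rfl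

theorem act_sub (x y : P α) (f : W N α) : act N α (x - y) f = act N α x f - act N α y f := by
  rw [map_sub]; rfl

theorem act_sum {ι : Type} (s : Finset ι) (x : ι → P α) (f : W N α) :
    act N α (∑ i ∈ s, x i) f = ∑ i ∈ s, act N α (x i) f := by
  rw [map_sum, LinearMap.sum_apply]

variable {N}

theorem g_mul_As (σ : Perm α) : g σ * As α = (Perm.sign σ : ℤ) • As α := by
  unfold As
  rw [Finset.mul_sum, Finset.smul_sum]
  refine Fintype.sum_equiv (Equiv.mulLeft σ) _ _ (fun s => ?_)
  rw [Equiv.coe_mulLeft, mul_smul_comm, ← g_mul, smul_smul]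
  congr 1
  rw [Perm.sign_mul, Units.val_mul, ← mul_assoc]
  rw [show ((Perm.sign σ : ℤˣ) : ℤ) * (Perm.sign σ : ℤˣ) = 1 by
    rw [← Units.val_mul, Int.units_mul_self]; rfl, one_mul]

theorem As_mul_g (σ : Perm α) : As α * g σ = (Perm.sign σ : ℤ) • As α := by
  unfold As
  rw [Finset.sum_mul, Finset.smul_sum]
  refine Fintype.sum_equiv (Equiv.mulRight σ) _ _ (fun s => ?_)
  rw [Equiv.coe_mulRight, smul_mul_assoc, ← g_mul, smul_smul]
  congr 1
  rw [Perm.sign_mul, Units.val_mul, mul_comm, mul_assoc]
  rw [show ((Perm.sign σ : ℤˣ) : ℤ) * (Perm.sign σ : ℤˣ) = 1 by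
    rw [← Units.val_mul, Int.units_mul_self]; rfl, mul_one]

/-- Words with fewer letters than places are killed by the signed sum. -/
theorem act_As (h : N < Fintype.card α) : act N α (As α) = 0 := by
  refine LinearMap.ext (fun f => ?_)
  funext w
  obtain ⟨x, y, hxy, hw⟩ := Fintype.exists_ne_map_eq_of_card_lt w (by simpa using h)
  have h1 : As α * g (swap x y) = -As α := by
    rw [As_mul_g, Perm.sign_swap hxy]
    simp
  have h2 : g (swap x y) * As α = -As α := by
    rw [g_mul_As, Perm.sign_swap hxy]
    simp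
  have h3 : act N α (g (swap x y) * As α) f w = act N α (As α) f w := by
    rw [act_mul, act_g]
    have h0 : w ∘ ⇑(swap x y) = w := by
      funext t
      simp only [Function.comp_apply]
      rcases eq_or_ne t x with rfl | hx
      · rw [swap_apply_left, hw]
      · rcases eq_or_ne t y with rfl | hy
        · rw [swap_apply_right, hw]
        · rw [swap_apply_of_ne_of_ne hx hy]
    rw [h0]
  rw [h2, map_neg, LinearMap.neg_apply, Pi.neg_apply] at h3
  have h4 : act N α (As α) f w = 0 := by linarith
  exact h4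

end basic

/-! ### Embeddings -/

section emb

variable {α β γ : Type}

/-- The ring homomorphism of an embedding of the places. -/
noncomputable def emb (ι : α ↪ β) : P α →+* P β :=
  MonoidAlgebra.mapDomainRingHom ℤ (Perm.viaEmbeddingHom ι)

theorem emb_g (ι : α ↪ β) (σ : Perm α) : emb ι (g σ) = g (σ.viaEmbedding ι) := by
  simp [emb, MonoidAlgebra.of_apply, Perm.viaEmbeddingHom_apply]

theorem emb_zsmul (ι : α ↪ β) (n : ℤ) (x : P α) : emb ι (n • x) = n • emb ι x :=
  map_zsmul _ _ _

theorem viaEmbedding_trans (ι : α ↪ β) (κ : β ↪ γ) (σ : Perm α) :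
    (σ.viaEmbedding ι).viaEmbedding κ = σ.viaEmbedding (ι.trans κ) := by
  ext z
  by_cases hz : z ∈ Set.range κ
  · obtain ⟨y, rfl⟩ := hz
    rw [Perm.viaEmbedding_apply]
    by_cases hy : y ∈ Set.range ι
    · obtain ⟨x, rfl⟩ := hy
      rw [Perm.viaEmbedding_apply]
      exact (Perm.viaEmbedding_apply σ (ι.trans κ) x).symm
    · rw [Perm.viaEmbedding_apply_of_notMem _ _ _ hy, Perm.viaEmbedding_apply_of_notMem]
      rintro ⟨x, hx⟩
      exact hy ⟨x, κ.injective hx⟩
  · rw [Perm.viaEmbedding_apply_of_notMem _ _ _ hz, Perm.viaEmbedding_apply_of_notMem]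
    rintro ⟨x, hx⟩
    exact hz ⟨_, hx⟩

theorem emb_trans (ι : α ↪ β) (κ : β ↪ γ) (x : P α) :
    emb κ (emb ι x) = emb (ι.trans κ) x := by
  have h : (emb κ).comp (emb ι) = emb (ι.trans κ) := by
    unfold emb
    rw [← MonoidAlgebra.mapDomainRingHom_comp]
    congr 1
    ext1 σ
    exact viaEmbedding_trans ι κ σ
  exact congrArg (fun φ : P α →+* P γ => φ x) h

/-- Commuting elements. -/
theorem commute_of_g {x : P β} (ι : α ↪ β)
    (h : ∀ σ : Perm α, Commute (g (σ.viaEmbedding ι)) x) (y : P α) : Commute (emb ι y) x := by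
  refine P_induction (p := fun y => Commute (emb ι y) x) y ?_ ?_ ?_
  · intro σ
    rw [emb_g]
    exact h σ
  · intro a b ha hb
    rw [map_add]
    exact Commute.add_left ha hb
  · intro n a ha
    rw [emb_zsmul]
    exact Commute.smul_left ha n

theorem commute_emb_emb (ι : α ↪ γ) (κ : β ↪ γ) (h : ∀ x y, ι x ≠ κ y) (x : P α) (y : P β) :
    Commute (emb ι x) (emb κ y) := by
  refine commute_of_g ι (fun σ => ?_) x
  refine (commute_of_g κ (fun τ => ?_) y).symm
  unfold Commute SemiconjBy
  rw [← g_mul, ← g_mul]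
  congr 1
  ext z
  simp only [Perm.mul_apply]
  by_cases h1 : z ∈ Set.range ι
  · obtain ⟨x, rfl⟩ := h1
    have e1 : ∀ x, ι x ∉ Set.range κ := fun x ⟨y, hy⟩ => h x y hy.symm
    rw [Perm.viaEmbedding_apply, Perm.viaEmbedding_apply_of_notMem _ _ _ (e1 _),
      Perm.viaEmbedding_apply_of_notMem _ _ _ (e1 _), Perm.viaEmbedding_apply]
  · by_cases h2 : z ∈ Set.range κ
    · obtain ⟨y, rfl⟩ := h2
      have e1 : ∀ y, κ y ∉ Set.range ι := fun y ⟨x, hx⟩ => h x y hx
      rw [Perm.viaEmbedding_apply, Perm.viaEmbedding_apply_of_notMem _ _ _ (e1 _),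
        Perm.viaEmbedding_apply_of_notMem _ _ _ (e1 _), Perm.viaEmbedding_apply]
    · rw [Perm.viaEmbedding_apply_of_notMem _ _ _ h1, Perm.viaEmbedding_apply_of_notMem _ _ _ h2,
        Perm.viaEmbedding_apply_of_notMem _ _ _ h1]

open Classical in
/-- The word `w` on the places of `α`, the word `w'` elsewhere. -/
noncomputable def glue {N : ℕ} (ι : α ↪ β) (w : α → Fin N) (w' : β → Fin N) : β → Fin N :=
  fun z => if h : z ∈ Set.range ι then w (Classical.choose h) else w' z

theorem glue_apply {N : ℕ} (ι : α ↪ β) (w : α → Fin N) (w' : β → Fin N) (x : α) :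
    glue ι w w' (ι x) = w x := by
  unfold glue
  have h : ι x ∈ Set.range ι := ⟨x, rfl⟩
  rw [dif_pos h]
  congr 1
  exact ι.injective (Classical.choose_spec h)

theorem glue_apply_of_notMem {N : ℕ} (ι : α ↪ β) (w : α → Fin N) (w' : β → Fin N) (z : β)
    (h : z ∉ Set.range ι) : glue ι w w' z = w' z := by
  unfold glue
  rw [dif_neg h]

variable [Fintype α] [DecidableEq α] [Fintype β] [DecidableEq β]

theorem act_emb {N : ℕ} (ι : α ↪ β) (y : P α) (f : W N β) (w' : β → Fin N) :
    act N β (emb ι y) f w' = act N α y (fun w => f (glue ι w w')) (w' ∘ ι) := by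
  refine P_induction (p := fun y => act N β (emb ι y) f w' =
    act N α y (fun w => f (glue ι w w')) (w' ∘ ι)) y ?_ ?_ ?_
  · intro σ
    rw [emb_g, act_g, act_g]
    congr 1
    funext z
    simp only [Function.comp_apply]
    by_cases h : z ∈ Set.range ι
    · obtain ⟨x, rfl⟩ := h
      rw [glue_apply, Perm.viaEmbedding_apply]
      rfl
    · rw [glue_apply_of_notMem _ _ _ _ h, Perm.viaEmbedding_apply_of_notMem _ _ _ h]
  · intro a b ha hb
    rw [map_add, act_add, act_add, Pi.add_apply, Pi.add_apply, ha, hb]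
  · intro n a ha
    rw [emb_zsmul, act_zsmul, act_zsmul, Pi.smul_apply, Pi.smul_apply, ha]

/-- Elements that kill the words kill the words after an embedding. -/
theorem act_emb_eq_zero {N : ℕ} (ι : α ↪ β) (y : P α) (h : act N α y = 0) :
    act N β (emb ι y) = 0 := by
  refine LinearMap.ext (fun f => ?_)
  funext w'
  rw [act_emb, h]
  rfl

end emb

end Pool.PI34.H4

end

/-! ### part H4_Tr -/
section

/-!
PI34, block H4, file 6: the partial trace.
-/

set_option autoImplicit false
set_option linter.unusedSectionVars false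
set_option linter.unusedDecidableInType false
set_option linter.unusedFintypeInType false

namespace Pool.PI34.H4

open Equiv Finset

section one

variable {α β : Type}

theorem rn_eq [DecidableEq α] (s : Perm (Option α)) (x : α) :
    some (removeNone s x) = if s (some x) = none then s none else s (some x) := by
  split_ifs with h
  · exact removeNone_none s h
  · exact removeNone_some s (Option.ne_none_iff_exists'.1 h)

theorem rn_ext [DecidableEq α] (s : Perm (Option α)) (t : Perm α)
    (h : ∀ x, some (t x) = if s (some x) = none then s none else s (some x)) :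
    removeNone s = t := by
  ext x
  apply Option.some_injective
  rw [rn_eq, h]

/-- The partial trace over one place. -/
noncomputable def T1 (N : ℕ) (α : Type) [DecidableEq α] : P (Option α) →+ P α :=
  MonoidAlgebra.liftNC (Int.castAddHom (P α))
    (fun s => (if s none = none then (N : ℤ) else 1) • g (removeNone s))

theorem T1_g [DecidableEq α] (N : ℕ) (s : Perm (Option α)) :
    T1 N α (g s) = (if s none = none then (N : ℤ) else 1) • g (removeNone s) := by
  unfold T1 g
  rw [MonoidAlgebra.of_apply, MonoidAlgebra.liftNC_single]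
  simp

theorem T1_zsmul [DecidableEq α] (N : ℕ) (n : ℤ) (y : P (Option α)) :
    T1 N α (n • y) = n • T1 N α y := map_zsmul _ _ _

theorem via_none (σ : Perm α) :
    σ.viaEmbedding (Function.Embedding.some : α ↪ Option α) none = none :=
  Perm.viaEmbedding_apply_of_notMem _ _ _ (by rintro ⟨x, hx⟩; exact Option.some_ne_none _ hx)

theorem via_some (σ : Perm α) (x : α) :
    σ.viaEmbedding (Function.Embedding.some : α ↪ Option α) (some x) = some (σ x) :=
  Perm.viaEmbedding_apply σ (Function.Embedding.some : α ↪ Option α) x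

theorem T1_emb_mul [DecidableEq α] (N : ℕ) (x : P α) (y : P (Option α)) :
    T1 N α (emb Function.Embedding.some x * y) = x * T1 N α y := by
  refine P_induction (p := fun x => T1 N α (emb Function.Embedding.some x * y) = x * T1 N α y) x
    ?_ ?_ ?_
  · intro σ
    refine P_induction (p := fun y => T1 N α (emb Function.Embedding.some (g σ) * y)
      = g σ * T1 N α y) y ?_ ?_ ?_
    · intro s
      rw [emb_g, ← g_mul, T1_g, T1_g]
      have h1 : ((σ.viaEmbedding (Function.Embedding.some : α ↪ Option α) * s) none = none)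
          ↔ (s none = none) := by
        rw [Perm.mul_apply]
        constructor
        · intro h
          exact Equiv.injective _ (h.trans (via_none σ).symm)
        · intro h
          rw [h, via_none]
      have h2 : removeNone (σ.viaEmbedding (Function.Embedding.some : α ↪ Option α) * s)
          = σ * removeNone s := by
        apply rn_ext
        intro x
        simp only [Perm.mul_apply]
        have h3 := rn_eq s x
        rcases hs : s (some x) with _ | y
        · rw [hs, if_pos rfl] at h3
          rw [via_none, if_pos rfl, ← h3, via_some]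
        · rw [hs, if_neg (Option.some_ne_none _)] at h3
          rw [via_some, if_neg (Option.some_ne_none _), Option.some_injective _ h3]
      rw [h2, g_mul, mul_smul_comm]
      simp only [h1]
    · intro a b ha hb
      rw [mul_add, map_add, map_add, mul_add, ha, hb]
    · intro n a ha
      rw [mul_smul_comm, T1_zsmul, T1_zsmul, ha, mul_smul_comm]
  · intro a b ha hb
    rw [map_add, add_mul, map_add, ha, hb, add_mul]
  · intro n a ha
    rw [emb_zsmul, smul_mul_assoc, T1_zsmul, ha, smul_mul_assoc]

theorem T1_mul_emb [DecidableEq α] (N : ℕ) (x : P α) (y : P (Option α)) :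
    T1 N α (y * emb Function.Embedding.some x) = T1 N α y * x := by
  refine P_induction (p := fun x => T1 N α (y * emb Function.Embedding.some x) = T1 N α y * x) x
    ?_ ?_ ?_
  · intro σ
    refine P_induction (p := fun y => T1 N α (y * emb Function.Embedding.some (g σ))
      = T1 N α y * g σ) y ?_ ?_ ?_
    · intro s
      rw [emb_g, ← g_mul, T1_g, T1_g]
      have h1 : ((s * σ.viaEmbedding (Function.Embedding.some : α ↪ Option α)) none = none)
          ↔ (s none = none) := by
        rw [Perm.mul_apply, via_none]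
      have h2 : removeNone (s * σ.viaEmbedding (Function.Embedding.some : α ↪ Option α))
          = removeNone s * σ := by
        apply rn_ext
        intro x
        simp only [Perm.mul_apply]
        rw [via_some, via_none]
        exact rn_eq s (σ x)
      rw [h2, g_mul, smul_mul_assoc]
      simp only [h1]
    · intro a b ha hb
      rw [add_mul, map_add, map_add, add_mul, ha, hb]
    · intro n a ha
      rw [smul_mul_assoc, T1_zsmul, T1_zsmul, ha, smul_mul_assoc]
  · intro a b ha hb
    rw [map_add, mul_add, map_add, ha, hb, mul_add]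
  · intro n a ha
    rw [emb_zsmul, mul_smul_comm, T1_zsmul, ha, mul_smul_comm]

theorem T1_nat [DecidableEq α] [DecidableEq β] (N : ℕ) (ι : α ↪ β) (y : P (Option α)) :
    T1 N β (emb ι.optionMap y) = emb ι (T1 N α y) := by
  refine P_induction (p := fun y => T1 N β (emb ι.optionMap y) = emb ι (T1 N α y)) y ?_ ?_ ?_
  · intro s
    rw [emb_g, T1_g, T1_g, emb_zsmul, emb_g]
    have h0 : s.viaEmbedding ι.optionMap none = ι.optionMap (s none) :=
      Perm.viaEmbedding_apply s ι.optionMap none
    have hm : ∀ o : Option α, ι.optionMap o = none ↔ o = none := by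
      intro o
      cases o <;> simp
    have h1 : (s.viaEmbedding ι.optionMap none = none) ↔ (s none = none) := by
      rw [h0, hm]
    have h2 : removeNone (s.viaEmbedding ι.optionMap) = Perm.viaEmbedding (removeNone s) ι := by
      apply rn_ext
      intro x
      by_cases hx : x ∈ Set.range ι
      · obtain ⟨a, rfl⟩ := hx
        have h3 : s.viaEmbedding ι.optionMap (some (ι a)) = ι.optionMap (s (some a)) :=
          Perm.viaEmbedding_apply s ι.optionMap (some a)
        rw [Perm.viaEmbedding_apply, h3, h0]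
        have h4 := rn_eq s a
        simp only [hm]
        have h5 : some (ι (removeNone s a)) = ι.optionMap (some (removeNone s a)) := rfl
        rw [h5, h4]
        split_ifs <;> rfl
      · have h3 : s.viaEmbedding ι.optionMap (some x) = some x := by
          apply Perm.viaEmbedding_apply_of_notMem
          rintro ⟨o, ho⟩
          cases o with
          | none => simp at ho
          | some a => exact hx ⟨a, by simpa using ho⟩
        rw [Perm.viaEmbedding_apply_of_notMem _ _ _ hx, h3, if_neg (Option.some_ne_none _)]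
    rw [h2]
    simp only [h1]
  · intro a b ha hb
    rw [map_add, map_add, map_add, map_add, ha, hb]
  · intro n a ha
    rw [emb_zsmul, T1_zsmul, T1_zsmul, emb_zsmul, ha]

end one

section two

variable {α β : Type} [Fintype α] [DecidableEq α] [Fintype β] [DecidableEq β]

/-- A function of words with one more letter. -/
def ext1 {N : ℕ} (f : W N α) (a : Fin N) : W N (Option α) :=
  fun v => if v none = a then f (v ∘ some) else 0

/-- A word with one more letter. -/
def cons1 {N : ℕ} (w : α → Fin N) (a : Fin N) : Option α → Fin N := fun o => o.elim a w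

theorem act_T1 {N : ℕ} (y : P (Option α)) (f : W N α) (w : α → Fin N) :
    act N α (T1 N α y) f w = ∑ a, act N (Option α) y (ext1 f a) (cons1 w a) := by
  refine P_induction (p := fun y => act N α (T1 N α y) f w
    = ∑ a, act N (Option α) y (ext1 f a) (cons1 w a)) y ?_ ?_ ?_
  · intro s
    rw [T1_g, act_zsmul, Pi.smul_apply, act_g]
    simp only [act_g]
    rcases hs : s none with _ | x0
    · rw [if_pos rfl]
      have h1 : ∀ a : Fin N, ext1 f a (cons1 w a ∘ s) = f (w ∘ removeNone s) := by
        intro a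
        unfold ext1
        have h2 : (cons1 w a ∘ s) none = a := by
          simp only [Function.comp_apply, hs]
          rfl
        rw [if_pos h2]
        congr 1
        funext x
        have h3 := rn_eq s x
        have h4 : s (some x) ≠ none := by
          intro h
          rw [← hs] at h
          exact Option.some_ne_none x (s.injective h)
        rw [if_neg h4] at h3
        simp only [Function.comp_apply, ← h3]
        rfl
      rw [Finset.sum_congr rfl (fun a _ => h1 a), Finset.sum_const, Finset.card_univ,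
        Fintype.card_fin]
      simp
    · rw [if_neg (Option.some_ne_none x0), one_smul, Finset.sum_eq_single (w x0)]
      · unfold ext1
        have h2 : (cons1 w (w x0) ∘ s) none = w x0 := by
          simp only [Function.comp_apply, hs]
          rfl
        rw [if_pos h2]
        congr 1
        funext x
        have h3 := rn_eq s x
        simp only [Function.comp_apply]
        rcases h4 : s (some x) with _ | y
        · rw [h4, if_pos rfl, hs] at h3
          rw [Option.some_injective _ h3]
          rfl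
        · rw [h4, if_neg (Option.some_ne_none _)] at h3
          rw [Option.some_injective _ h3]
          rfl
      · intro a _ ha
        unfold ext1
        rw [if_neg]
        simp only [Function.comp_apply, hs]
        intro h
        exact ha h.symm
      · intro h
        exact absurd (mem_univ _) h
  · intro a b ha hb
    rw [map_add, act_add, Pi.add_apply, ha, hb, ← Finset.sum_add_distrib]
    exact Finset.sum_congr rfl (fun c _ => by rw [act_add, Pi.add_apply])
  · intro n a ha
    rw [T1_zsmul, act_zsmul, Pi.smul_apply, ha, Finset.smul_sum]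
    exact Finset.sum_congr rfl (fun c _ => by rw [act_zsmul, Pi.smul_apply])

theorem act_T1_eq_zero {N : ℕ} (y : P (Option α)) (h : act N (Option α) y = 0) :
    act N α (T1 N α y) = 0 := by
  refine LinearMap.ext (fun f => ?_)
  funext w
  rw [act_T1]
  exact Finset.sum_eq_zero (fun a _ => by rw [h]; rfl)

/-- The trace on the words. -/
noncomputable def tc (N : ℕ) (y : P α) : ℚ := ∑ w, act N α y (Pi.single w 1) w

theorem ext1_single {N : ℕ} (w : α → Fin N) (a : Fin N) :
    ext1 (Pi.single w (1 : ℚ) : W N α) a = (Pi.single (cons1 w a) 1 : W N (Option α)) := by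
  funext v
  unfold ext1
  by_cases hv : v = cons1 w a
  · subst hv
    have e1 : cons1 w a none = a := rfl
    have e2 : cons1 w a ∘ some = w := rfl
    rw [if_pos e1, e2, Pi.single_eq_same, Pi.single_eq_same]
  · rw [Pi.single_eq_of_ne hv]
    split_ifs with h2
    · rw [Pi.single_eq_of_ne]
      intro h3
      apply hv
      funext o
      cases o with
      | none => exact h2
      | some x => exact congrFun h3 x
    · rfl

theorem tc_T1 {N : ℕ} (y : P (Option α)) : tc N (T1 N α y) = tc N y := by
  unfold tc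
  have h1 : ∀ w : α → Fin N, act N α (T1 N α y) (Pi.single w 1) w
      = ∑ a, act N (Option α) y (Pi.single (cons1 w a) 1) (cons1 w a) := by
    intro w
    rw [act_T1]
    refine Finset.sum_congr rfl (fun a _ => ?_)
    rw [ext1_single]
  rw [Finset.sum_congr rfl (fun w _ => h1 w), ← Finset.sum_product']
  refine Finset.sum_bij' (fun p _ => cons1 p.1 p.2) (fun v _ => (v ∘ some, v none)) ?_ ?_ ?_ ?_ ?_
  · intro p _
    exact mem_univ _
  · intro v _
    exact mem_univ _
  · intro p _
    rfl
  · intro v _
    funext o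
    cases o <;> rfl
  · intro p _
    rfl

theorem tc_emb {N : ℕ} (e : β ≃ α) (y : P β) : tc N (emb e.toEmbedding y) = tc N y := by
  unfold tc
  refine Fintype.sum_equiv (Equiv.arrowCongr e.symm (Equiv.refl (Fin N))) _ _ (fun w => ?_)
  have h1 : (Equiv.arrowCongr e.symm (Equiv.refl (Fin N))) w = w ∘ e := by
    funext x
    simp [Equiv.arrowCongr_apply]
  have h6 : (fun v => (Pi.single w 1 : W N α) (glue e.toEmbedding v w))
      = (Pi.single (w ∘ e) 1 : W N β) := by
    funext v
    have h2 : glue e.toEmbedding v w = v ∘ e.symm := by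
      funext x
      obtain ⟨z, rfl⟩ := e.surjective x
      have h3 := glue_apply e.toEmbedding v w z
      simp only [Function.comp_apply, Equiv.symm_apply_apply]
      exact h3
    rw [h2]
    by_cases hv : v = w ∘ e
    · subst hv
      have h4 : (w ∘ e) ∘ e.symm = w := by
        funext x
        simp
      rw [h4, Pi.single_eq_same, Pi.single_eq_same]
    · rw [Pi.single_eq_of_ne hv, Pi.single_eq_of_ne]
      intro h5
      apply hv
      rw [← h5]
      funext x
      simp
  rw [h1, act_emb, h6]
  rfl

theorem sign_via (ι : α ↪ β) (s : Perm α) : Perm.sign (s.viaEmbedding ι) = Perm.sign s := by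
  classical
  unfold Perm.viaEmbedding
  rw [Perm.sign_extendDomain]

theorem swap_via (ι : α ↪ β) (i j : α) :
    (swap i j).viaEmbedding ι = swap (ι i) (ι j) := by
  ext z
  by_cases hz : z ∈ Set.range ι
  · obtain ⟨x, rfl⟩ := hz
    rw [Perm.viaEmbedding_apply]
    rcases eq_or_ne x i with rfl | hi
    · rw [swap_apply_left, swap_apply_left]
    · rcases eq_or_ne x j with rfl | hj
      · rw [swap_apply_right, swap_apply_right]
      · rw [swap_apply_of_ne_of_ne hi hj,
          swap_apply_of_ne_of_ne (fun h => hi (ι.injective h)) (fun h => hj (ι.injective h))]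
  · rw [Perm.viaEmbedding_apply_of_notMem _ _ _ hz, swap_apply_of_ne_of_ne]
    · rintro rfl
      exact hz ⟨i, rfl⟩
    · rintro rfl
      exact hz ⟨j, rfl⟩

theorem emb_one_add_swap (ι : α ↪ β) (i j : α) :
    emb ι (1 + g (swap i j)) = 1 + g (swap (ι i) (ι j)) := by
  rw [map_add, map_one, emb_g, swap_via]

/-- the signed sum of a colouring after an embedding: all colour preserving permutations come
from below -/
theorem Ac_emb {C D : Type} [DecidableEq C] [DecidableEq D] (ι : α ↪ β) (c : α → C) (d : β → D)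
    (h1 : ∀ x y, c x = c y ↔ d (ι x) = d (ι y))
    (h2 : ∀ z, z ∉ Set.range ι → ∀ y, d y = d z → y = z) : Ac d = emb ι (Ac c) := by
  unfold Ac
  rw [map_sum]
  symm
  have hfix : ∀ t : Perm β, d ∘ t = d → ∀ z, z ∉ Set.range ι → t z = z := by
    intro t ht z hz
    exact h2 z hz _ (congrFun ht z)
  have hran : ∀ t : Perm β, d ∘ t = d → ∀ x, t (ι x) ∈ Set.range ι := by
    intro t ht x
    by_contra hno
    have h3 := hfix t ht _ hno
    have h4 := t.injective h3
    rw [h4] at hno
    exact hno ⟨x, rfl⟩
  refine Finset.sum_bij (fun s _ => s.viaEmbedding ι) ?_ ?_ ?_ ?_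
  · intro s hs
    rw [mem_filter] at hs ⊢
    refine ⟨mem_univ _, ?_⟩
    funext z
    simp only [Function.comp_apply]
    by_cases hz : z ∈ Set.range ι
    · obtain ⟨x, rfl⟩ := hz
      rw [Perm.viaEmbedding_apply]
      exact (h1 _ _).1 (congrFun hs.2 x)
    · rw [Perm.viaEmbedding_apply_of_notMem _ _ _ hz]
  · intro s _ t _ hst
    exact Perm.viaEmbeddingHom_injective ι hst
  · intro t ht
    rw [mem_filter] at ht
    have ht2 := ht.2
    have htinv : d ∘ t.symm = d := by
      funext z
      have h3 := congrFun ht2 (t.symm z)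
      simp only [Function.comp_apply, Equiv.apply_symm_apply] at h3
      exact h3.symm
    choose f hf using hran t ht2
    choose f' hf' using hran t.symm htinv
    let s : Perm α :=
      { toFun := f
        invFun := f'
        left_inv := by
          intro x
          apply ι.injective
          rw [hf', hf, Equiv.symm_apply_apply]
        right_inv := by
          intro x
          apply ι.injective
          rw [hf, hf', Equiv.apply_symm_apply] }
    have hs : s.viaEmbedding ι = t := by
      ext z
      by_cases hz : z ∈ Set.range ι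
      · obtain ⟨x, rfl⟩ := hz
        rw [Perm.viaEmbedding_apply]
        exact hf x
      · rw [Perm.viaEmbedding_apply_of_notMem _ _ _ hz, hfix t ht2 z hz]
    refine ⟨s, ?_, hs⟩
    rw [mem_filter]
    refine ⟨mem_univ _, ?_⟩
    funext x
    simp only [Function.comp_apply]
    rw [h1]
    have h3 : ι (s x) = t (ι x) := hf x
    rw [h3]
    exact congrFun ht2 (ι x)
  · intro s _
    rw [emb_zsmul, emb_g, sign_via]

theorem J_map {C D : Type} [DecidableEq C] [DecidableEq D] {N : ℕ} (c : α → C) (d : β → D)
    (φ : P β →+ P α)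
    (h1 : ∀ (i j : β) (a : P β), i ≠ j → d i = d j → φ ((1 + g (swap i j)) * a) ∈ J N c)
    (h2 : ∀ b : P β, φ (b * Ac d) ∈ J N c)
    (h3 : ∀ x : P β, act N β x = 0 → act N α (φ x) = 0) (x : P β) (hx : x ∈ J N d) :
    φ x ∈ J N c := by
  have h4 : J N d ≤ (J N c).comap φ := by
    unfold J
    rw [AddSubgroup.closure_le]
    rintro y ((⟨i, j, a, hij, hc, rfl⟩ | ⟨b, rfl⟩) | hy)
    · exact h1 i j a hij hc
    · exact h2 b
    · exact AddSubgroup.subset_closure (Or.inr (h3 y hy))
  exact h4 hx

theorem J_T1 {C : Type} [DecidableEq C] {N : ℕ} (c : α → C) (x : P (Option α))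
    (hx : x ∈ J N (Option.map c)) : T1 N α x ∈ J N c := by
  refine J_map c (Option.map c) (T1 N α) ?_ ?_ ?_ x hx
  · intro i j a hij hc
    rcases i with _ | i
    · rcases j with _ | j
      · exact absurd rfl hij
      · simp at hc
    · rcases j with _ | j
      · simp at hc
      · have h1 : (1 + g (swap (some i) (some j)) : P (Option α))
            = emb Function.Embedding.some (1 + g (swap i j)) := by
          rw [emb_one_add_swap]
          rfl
        rw [h1, T1_emb_mul]
        apply AddSubgroup.subset_closure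
        refine Or.inl (Or.inl ⟨i, j, _, ?_, ?_, rfl⟩)
        · rintro rfl
          exact hij rfl
        · simpa using hc
  · intro b
    have h1 : Ac (Option.map c) = emb Function.Embedding.some (Ac c) := by
      apply Ac_emb
      · intro x y
        simp
      · intro z hz y hy
        rcases z with _ | z
        · simpa using hy
        · exact absurd ⟨z, rfl⟩ hz
    rw [h1, T1_mul_emb]
    exact AddSubgroup.subset_closure (Or.inl (Or.inr ⟨_, rfl⟩))
  · exact act_T1_eq_zero

theorem J_emb {C D : Type} [DecidableEq C] [DecidableEq D] {N : ℕ} (e : β ≃ α) (c : α → C)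
    (d : β → D) (hcd : ∀ x y, d x = d y ↔ c (e x) = c (e y)) (x : P β) (hx : x ∈ J N d) :
    emb e.toEmbedding x ∈ J N c := by
  refine J_map c d (emb e.toEmbedding).toAddMonoidHom ?_ ?_ ?_ x hx
  · intro i j a hij hc
    have h1 : (emb e.toEmbedding).toAddMonoidHom ((1 + g (swap i j)) * a)
        = (1 + g (swap (e i) (e j))) * emb e.toEmbedding a := by
      have h2 : (emb e.toEmbedding).toAddMonoidHom ((1 + g (swap i j)) * a)
        = emb e.toEmbedding ((1 + g (swap i j)) * a) := rfl
      rw [h2, map_mul, emb_one_add_swap]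
      rfl
    rw [h1]
    apply AddSubgroup.subset_closure
    exact Or.inl (Or.inl ⟨e i, e j, _, fun h => hij (e.injective h), (hcd i j).1 hc, rfl⟩)
  · intro b
    have h1 : Ac c = emb e.toEmbedding (Ac d) := by
      apply Ac_emb
      · intro x y
        exact hcd x y
      · intro z hz
        exact absurd ⟨e.symm z, e.apply_symm_apply z⟩ hz
    have h2 : (emb e.toEmbedding).toAddMonoidHom (b * Ac d) = emb e.toEmbedding b * Ac c := by
      have h3 : (emb e.toEmbedding).toAddMonoidHom (b * Ac d) = emb e.toEmbedding (b * Ac d) := rfl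
      rw [h3, map_mul, h1]
    rw [h2]
    exact AddSubgroup.subset_closure (Or.inl (Or.inr ⟨_, rfl⟩))
  · intro y hy
    exact act_emb_eq_zero e.toEmbedding y hy

end two

section three

/-- Removing the first place. -/
def eo (m : ℕ) (T : Type) : Fin (m + 1) ⊕ T ≃ Option (Fin m ⊕ T) where
  toFun := Sum.elim (fun i => Option.map Sum.inl (finSuccEquiv m i)) (fun t => some (Sum.inr t))
  invFun := fun o => o.elim (Sum.inl 0) (Sum.elim (fun i => Sum.inl i.succ) Sum.inr)
  left_inv := by
    rintro (i | t)
    · refine Fin.cases ?_ (fun i => ?_) i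
      · simp
      · simp
    · rfl
  right_inv := by
    rintro (_ | (i | t))
    · simp
    · simp
    · rfl

theorem eo_inl (m : ℕ) (T : Type) (i : Fin (m + 1)) :
    eo m T (Sum.inl i) = Option.map Sum.inl (finSuccEquiv m i) := rfl

theorem eo_inr (m : ℕ) (T : Type) (t : T) : eo m T (Sum.inr t) = some (Sum.inr t) := rfl

theorem eo_col (m : ℕ) {T C : Type} (c : T → C) (x y : Fin (m + 1) ⊕ T) :
    (Sum.map id c x : Fin (m + 1) ⊕ C) = Sum.map id c y ↔
      Option.map (Sum.map id c : Fin m ⊕ T → Fin m ⊕ C) (eo m T x)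
        = Option.map (Sum.map id c : Fin m ⊕ T → Fin m ⊕ C) (eo m T y) := by
  rcases x with i | t
  · rcases y with j | u
    · rw [eo_inl, eo_inl]
      refine Fin.cases ?_ (fun i => ?_) i
      · refine Fin.cases ?_ (fun j => ?_) j
        · simp
        · simp [(Fin.succ_ne_zero j).symm]
      · refine Fin.cases ?_ (fun j => ?_) j
        · simp [Fin.succ_ne_zero i]
        · simp
    · rw [eo_inl, eo_inr]
      refine Fin.cases ?_ (fun i => ?_) i
      · simp
      · simp
  · rcases y with j | u
    · rw [eo_inl, eo_inr]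
      refine Fin.cases ?_ (fun j => ?_) j
      · simp
      · simp
    · rw [eo_inr, eo_inr]
      simp

theorem J_trace' {N : ℕ} {T C : Type} [Fintype T] [DecidableEq T] [DecidableEq C] (c : T → C)
    (m : ℕ) : ∀ (z : P (Fin m)) (n : ℤ),
      n • emb Function.Embedding.inl z ∈ J N (Sum.map id c : Fin m ⊕ T → Fin m ⊕ C) →
      ∃ d : ℤ, (d : ℚ) = tc N z ∧ (n * d) • (1 : P T) ∈ J N c := by
  induction m with
  | zero =>
    intro z n h
    obtain ⟨d, rfl⟩ : ∃ d : ℤ, z = d • 1 := by
      refine P_induction (p := fun z => ∃ d : ℤ, z = d • 1) z ?_ ?_ ?_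
      · intro σ
        exact ⟨1, by rw [one_smul, Subsingleton.elim σ 1, g_one]⟩
      · rintro x y ⟨a, rfl⟩ ⟨b, rfl⟩
        exact ⟨a + b, (add_smul _ _ _).symm⟩
      · rintro k x ⟨a, rfl⟩
        exact ⟨k * a, smul_smul _ _ _⟩
    refine ⟨d, ?_, ?_⟩
    · unfold tc
      rw [Fintype.sum_unique, act_zsmul, act_one, Pi.smul_apply, Pi.single_eq_same]
      simp
    · have h1 := J_emb (Equiv.emptySum (Fin 0) T) c (Sum.map id c : Fin 0 ⊕ T → Fin 0 ⊕ C)
        (by
          rintro (i | t) (j | u)
          · exact i.elim0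
          · exact i.elim0
          · exact j.elim0
          · simp) _ h
      rw [emb_zsmul, emb_zsmul, emb_zsmul, map_one, map_one, smul_smul] at h1
      exact h1
  | succ m ih =>
    intro z n h
    have h1 := J_emb (eo m T) (Option.map (Sum.map id c : Fin m ⊕ T → Fin m ⊕ C))
      (Sum.map id c : Fin (m + 1) ⊕ T → Fin (m + 1) ⊕ C) (eo_col m c) _ h
    have h2 := J_T1 _ _ h1
    have h3 : emb (eo m T).toEmbedding (emb Function.Embedding.inl z)
        = emb (Function.Embedding.optionMap (Function.Embedding.inl : Fin m ↪ Fin m ⊕ T))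
          (emb (finSuccEquiv m).toEmbedding z) := by
      rw [emb_trans, emb_trans]
      rfl
    rw [emb_zsmul, h3, T1_zsmul, T1_nat] at h2
    obtain ⟨d, hd, hd'⟩ := ih _ n h2
    refine ⟨d, ?_, hd'⟩
    rw [hd, tc_T1, tc_emb]

/-- The partial trace over the left places. -/
theorem J_trace {N m : ℕ} {T C : Type} [Fintype T] [DecidableEq T] [DecidableEq C] (c : T → C)
    (z : P (Fin m)) (n : ℤ)
    (h : n • emb Function.Embedding.inl z ∈ J N (Sum.map id c : Fin m ⊕ T → Fin m ⊕ C)) :
    ∃ d : ℤ, (d : ℚ) = ∑ w, act N (Fin m) z (Pi.single w 1) w ∧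
      (n * d) • (1 : P T) ∈ J N c :=
  J_trace' c m z n h

end three

end Pool.PI34.H4

end

/-! ### part H4_Z -/
section

/-!
PI34, block H4, file 3: an element `z` of the group algebra all of whose highest weight vectors
have a prescribed weight.
-/

set_option autoImplicit false
set_option linter.unusedSectionVars false
set_option linter.unusedDecidableInType false
set_option linter.unusedFintypeInType false

namespace Pool.PI34.H4

open Equiv Finset Polynomial

/-! ### Self adjoint elements -/

section sa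

variable {α : Type} [Fintype α] [DecidableEq α]

/-- Self adjoint elements of the group algebra. -/
def SA (N : ℕ) (y : P α) : Prop := ∀ f h : W N α, ip (act N α y f) h = ip f (act N α y h)

variable {N : ℕ}

theorem SA.add {x y : P α} (hx : SA N x) (hy : SA N y) : SA N (x + y) := by
  intro f h
  rw [act_add, act_add, ip_add_left, ip_add_right, hx, hy]

theorem SA.zsmul {x : P α} (hx : SA N x) (n : ℤ) : SA N (n • x) := by
  intro f h
  rw [act_zsmul, act_zsmul, ip_zsmul_left, ip_zsmul_right, hx]

theorem SA.mul {x y : P α} (hx : SA N x) (hy : SA N y) (hxy : Commute x y) : SA N (x * y) := by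
  intro f h
  rw [act_mul, hx, hy, ← act_mul, hxy.eq]

theorem SA_one : SA N (1 : P α) := by
  intro f h
  rw [act_one, act_one]

theorem SA.sum {ι : Type} (s : Finset ι) (x : ι → P α) (h : ∀ i ∈ s, SA N (x i)) :
    SA N (∑ i ∈ s, x i) := by
  classical
  induction s using Finset.induction_on with
  | empty =>
    intro f h
    rw [Finset.sum_empty, map_zero]
    rw [LinearMap.zero_apply, LinearMap.zero_apply, ip_zero_left, ip_zero_right]
  | insert a s ha ih =>
    rw [Finset.sum_insert ha]
    exact (h a (mem_insert_self _ _)).add (ih (fun i hi => h i (mem_insert_of_mem hi)))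

theorem SA_swap (x y : α) : SA N (g (swap x y)) := by
  intro f h
  rw [act_of, ip_rho, swap_inv]

theorem SA.aeval {x : P α} (hx : SA N x) (q : ℤ[X]) : SA N (aeval x q) := by
  induction q using Polynomial.induction_on' with
  | add p q hp hq => rw [map_add]; exact hp.add hq
  | monomial n a =>
    rw [aeval_monomial]
    have h1 : SA N (x ^ n) := by
      induction n with
      | zero => rw [pow_zero]; exact SA_one
      | succ n ih =>
        rw [pow_succ]
        exact ih.mul hx ((Commute.refl x).pow_left n)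
    rw [Algebra.algebraMap_eq_smul_one, smul_mul_assoc, one_mul]
    exact h1.zsmul a

/-- A polynomial of an element acts on an eigenvector. -/
theorem aeval_eig {x : P α} {u : W N α} {m : ℤ} (h : act N α x u = m • u) (q : ℤ[X]) :
    act N α (aeval x q) u = (q.eval m) • u := by
  induction q using Polynomial.induction_on' with
  | add p q hp hq => rw [map_add, act_add, hp, hq, eval_add, add_smul]
  | monomial n a =>
    have h1 : act N α (x ^ n) u = (m ^ n) • u := by
      induction n with
      | zero => rw [pow_zero, act_one, pow_zero, one_smul]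
      | succ n ih => rw [pow_succ, act_mul, h, map_zsmul, ih, smul_smul, pow_succ, mul_comm]
    rw [aeval_monomial, Algebra.algebraMap_eq_smul_one, smul_mul_assoc, one_mul, act_zsmul, h1,
      smul_smul, eval_monomial]

theorem Commute.aeval_left {R : Type} [Ring R] {x y : R} (h : Commute x y) (q : ℤ[X]) :
    Commute (aeval x q) y := by
  induction q using Polynomial.induction_on' with
  | add p q hp hq => rw [map_add]; exact Commute.add_left hp hq
  | monomial n a =>
    rw [aeval_monomial]
    exact Commute.mul_left (Algebra.commutes a y) (h.pow_left n)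

end sa

/-! ### Weights -/

section wt

variable {α : Type} [Fintype α] [DecidableEq α] {N : ℕ}

/-- The vector has the given weight. -/
def HasWt (n : Fin N → ℕ) (u : W N α) : Prop := ∀ w, u w ≠ 0 → ∀ a, cnt w a = n a

theorem exists_ne {u : W N α} (h0 : u ≠ 0) : ∃ w, u w ≠ 0 := by
  by_contra hc
  push Not at hc
  exact h0 (funext hc)

theorem OneW.exists_wt {u : W N α} (h : OneW u) (h0 : u ≠ 0) :
    ∃ w0, u w0 ≠ 0 ∧ HasWt (cnt w0) u := by
  obtain ⟨w, hw⟩ := exists_ne h0
  exact ⟨w, hw, fun w' hw' a => h _ _ hw' hw a⟩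

theorem HasWt.EE_self {n : Fin N → ℕ} {u : W N α} (h : HasWt n u) (a : Fin N) :
    EE a a u = (n a : ℚ) • u := by
  funext w
  rw [H4.EE_self, Pi.smul_apply, smul_eq_mul]
  by_cases h1 : u w = 0
  · rw [h1, mul_zero, mul_zero]
  · rw [h w h1]

/-- The pairs of different places with two given letters. -/
def KK (a b : Fin N) (f : W N α) (w : α → Fin N) : ℚ :=
  ∑ x, ∑ y, if w x = a ∧ w y = b ∧ x ≠ y then f (w ∘ swap x y) else 0

theorem KK_symm (a b : Fin N) (f : W N α) (w : α → Fin N) : KK a b f w = KK b a f w := by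
  unfold KK
  rw [Finset.sum_comm]
  refine Finset.sum_congr rfl (fun x _ => Finset.sum_congr rfl (fun y _ => ?_))
  rw [swap_comm]
  have h : (w y = a ∧ w x = b ∧ y ≠ x) ↔ (w x = b ∧ w y = a ∧ x ≠ y) := by
    constructor
    · rintro ⟨h1, h2, h3⟩
      exact ⟨h2, h1, h3.symm⟩
    · rintro ⟨h1, h2, h3⟩
      exact ⟨h2, h1, h3.symm⟩
  simp only [h]

theorem update_update_swap (w : α → Fin N) {x y : α} (h : x ≠ y) :
    Function.update (Function.update w x (w y)) y (w x) = w ∘ swap x y := by
  funext t
  simp only [Function.comp_apply]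
  rcases eq_or_ne t y with rfl | hy
  · rw [Function.update_self, swap_apply_right]
  · rw [Function.update_of_ne hy]
    rcases eq_or_ne t x with rfl | hx
    · rw [Function.update_self, swap_apply_left]
    · rw [Function.update_of_ne hx, swap_apply_of_ne_of_ne hx hy]

theorem EE_EE (a b : Fin N) (f : W N α) (w : α → Fin N) :
    EE a b (EE b a f) w = cnt w a * f w + KK a b f w := by
  rw [EE_apply]
  have h1 : ∀ x, (if w x = a then EE b a f (Function.update w x b) else 0) =
      (if w x = a then f w else 0) +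
        ∑ y, if w x = a ∧ w y = b ∧ x ≠ y then f (w ∘ swap x y) else 0 := by
    intro x
    by_cases hx : w x = a
    · rw [if_pos hx, if_pos hx, EE_apply, ← Finset.add_sum_erase _ _ (mem_univ x),
        Function.update_self, if_pos rfl, Function.update_idem, ← hx, Function.update_eq_self]
      congr 1
      rw [← Finset.add_sum_erase univ (fun y => if w x = w x ∧ w y = b ∧ x ≠ y then _ else _)
        (mem_univ x)]
      rw [if_neg (by simp), zero_add]
      refine Finset.sum_congr rfl (fun y hy => ?_)
      have hy' := Finset.ne_of_mem_erase hy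
      rw [Function.update_of_ne hy']
      by_cases hb : w y = b
      · rw [if_pos hb, if_pos ⟨rfl, hb, hy'.symm⟩, ← update_update_swap w hy'.symm, hb]
      · rw [if_neg hb, if_neg (fun h => hb h.2.1)]
    · rw [if_neg hx, if_neg hx, zero_add]
      exact (Finset.sum_eq_zero (fun y _ => if_neg (fun h => hx h.1))).symm
  rw [Finset.sum_congr rfl (fun x _ => h1 x), Finset.sum_add_distrib]
  congr 1
  rw [← Finset.sum_filter, Finset.sum_const, nsmul_eq_mul]
  rfl

theorem EE_comm (a b : Fin N) (f : W N α) (w : α → Fin N) :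
    EE a b (EE b a f) w = EE b a (EE a b f) w + ((cnt w a : ℚ) - cnt w b) * f w := by
  rw [EE_EE, EE_EE, KK_symm]
  ring

variable (α) in
/-- The sum of all transpositions (the trivial ones included). -/
noncomputable def J2 : P α := ∑ x, ∑ y, g (swap x y)

theorem J2_comm (σ : Perm α) : Commute (g σ) (J2 α) := by
  unfold Commute SemiconjBy J2
  simp only [Finset.mul_sum, Finset.sum_mul]
  refine Fintype.sum_equiv σ _ _ (fun x => Fintype.sum_equiv σ _ _ (fun y => ?_))
  rw [← g_mul, ← g_mul]
  congr 1
  rw [mul_swap_eq_swap_mul]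

theorem J2_comm' (y : P α) : Commute y (J2 α) := by
  refine P_induction (p := fun y => Commute y (J2 α)) y J2_comm ?_ ?_
  · intro a b ha hb
    exact Commute.add_left ha hb
  · intro n a ha
    exact Commute.smul_left ha n

theorem SA_J2 : SA N (J2 α) :=
  SA.sum _ _ (fun _ _ => SA.sum _ _ (fun _ _ => SA_swap _ _))

theorem sum_cnt (w : α → Fin N) : ∑ a, cnt w a = Fintype.card α := by
  unfold cnt
  simp only [Finset.card_filter]
  rw [Finset.sum_comm]
  have h : ∀ x : α, ∑ a, (if w x = a then 1 else 0) = 1 := by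
    intro x
    rw [Finset.sum_ite_eq, if_pos (mem_univ _)]
  rw [Finset.sum_congr rfl (fun x _ => h x)]
  simp

theorem casimir (f : W N α) (w : α → Fin N) :
    ∑ a, ∑ b, EE a b (EE b a f) w =
      act N α (J2 α) f w + ((N : ℚ) - 1) * Fintype.card α * f w := by
  have h1 : ∀ a b, EE a b (EE b a f) w = cnt w a * f w + KK a b f w := fun a b => EE_EE a b f w
  simp only [h1, Finset.sum_add_distrib]
  have h2 : ∑ a : Fin N, ∑ _b : Fin N, (cnt w a : ℚ) * f w = N * Fintype.card α * f w := by
    simp only [Finset.sum_const, Finset.card_univ, Fintype.card_fin, nsmul_eq_mul]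
    rw [← Finset.mul_sum, ← Finset.sum_mul, ← Nat.cast_sum, sum_cnt]
    ring
  have h3 : ∑ a : Fin N, ∑ b : Fin N, KK a b f w =
      act N α (J2 α) f w - Fintype.card α * f w := by
    have h4 : act N α (J2 α) f w = ∑ x, ∑ y, f (w ∘ swap x y) := by
      unfold J2
      rw [act_sum, Finset.sum_apply]
      refine Finset.sum_congr rfl (fun x _ => ?_)
      rw [act_sum, Finset.sum_apply]
      exact Finset.sum_congr rfl (fun y _ => act_g N _ f w)
    have h5 : ∑ a : Fin N, ∑ b : Fin N, KK a b f w =
        ∑ x, ∑ y, if x ≠ y then f (w ∘ swap x y) else 0 := by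
      unfold KK
      rw [Finset.sum_congr rfl (fun a _ => Finset.sum_comm)]
      rw [Finset.sum_comm]
      refine Finset.sum_congr rfl (fun x _ => ?_)
      rw [Finset.sum_congr rfl (fun a _ => Finset.sum_comm)]
      rw [Finset.sum_comm]
      refine Finset.sum_congr rfl (fun y _ => ?_)
      rw [Finset.sum_eq_single (w x), Finset.sum_eq_single (w y)]
      · simp
      · intro b _ hb
        exact if_neg (fun h => hb h.2.1.symm)
      · intro h
        exact absurd (mem_univ _) h
      · intro a _ ha
        exact Finset.sum_eq_zero (fun b _ => if_neg (fun h => ha h.1.symm))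
      · intro h
        exact absurd (mem_univ _) h
    rw [h5, h4]
    have h6 : ∀ x, ∑ y, (if x ≠ y then f (w ∘ swap x y) else 0) =
        ∑ y, f (w ∘ swap x y) - f w := by
      intro x
      rw [← Finset.add_sum_erase _ _ (mem_univ x),
        ← Finset.add_sum_erase univ (fun y => f (w ∘ swap x y)) (mem_univ x)]
      rw [if_neg (by simp), swap_self]
      have : w ∘ ⇑(Equiv.refl α) = w := rfl
      rw [this]
      rw [Finset.sum_congr rfl (g := fun y => f (w ∘ swap x y))
        (fun y hy => if_pos (Finset.ne_of_mem_erase hy).symm)]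
      ring
    rw [Finset.sum_congr rfl (fun x _ => h6 x), Finset.sum_sub_distrib, Finset.sum_const,
      nsmul_eq_mul, Finset.card_univ]
  rw [h2, h3]
  ring

/-- The eigenvalue. -/
def TT (n : Fin N → ℕ) : ℤ := ∑ a : Fin N, ((n a : ℤ) ^ 2 + ((N : ℤ) - 1 - 2 * (a : ℕ)) * n a)

theorem eig {n : Fin N → ℕ} {u : W N α} (hu : HW u) (hn : HasWt n u) :
    act N α (J2 α) u = (TT n - ((N : ℤ) - 1) * Fintype.card α) • u := by
  funext w
  have h1 := casimir u w
  have h2 : ∀ a b : Fin N, EE a b (EE b a u) w =
      (if a = b then ((n a : ℚ)) ^ 2 else if a < b then ((n a : ℚ) - n b) else 0) * u w := by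
    intro a b
    rcases lt_trichotomy a b with h | h | h
    · rw [if_neg h.ne, if_pos h, EE_comm, hu a b h, map_zero]
      by_cases h0 : u w = 0
      · rw [h0]; simp
      · rw [hn w h0, hn w h0]
        simp
    · subst h
      rw [if_pos rfl, hn.EE_self, map_smul, hn.EE_self]
      simp only [Pi.smul_apply, smul_eq_mul]
      ring
    · rw [if_neg h.ne', if_neg h.asymm, hu b a h, map_zero]
      simp
  have h3 : ∑ a : Fin N, ∑ b : Fin N,
      (if a = b then ((n a : ℚ)) ^ 2 else if a < b then ((n a : ℚ) - n b) else 0) = (TT n : ℚ) := by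
    have e1 : ∀ a b : Fin N,
        (if a = b then ((n a : ℚ)) ^ 2 else if a < b then ((n a : ℚ) - n b) else 0) =
        (if a = b then ((n a : ℚ)) ^ 2 else 0) + (if a < b then (n a : ℚ) else 0) -
          (if a < b then (n b : ℚ) else 0) := by
      intro a b
      rcases lt_trichotomy a b with h | h | h
      · simp [h, h.ne]
      · subst h; simp
      · simp [h.ne', h.asymm]
    simp only [e1, Finset.sum_sub_distrib, Finset.sum_add_distrib]
    have e2 : ∑ a : Fin N, ∑ b : Fin N, (if a = b then ((n a : ℚ)) ^ 2 else 0) =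
        ∑ a : Fin N, (n a : ℚ) ^ 2 := by
      refine Finset.sum_congr rfl (fun a _ => ?_)
      rw [Finset.sum_ite_eq, if_pos (mem_univ _)]
    have e3 : ∑ a : Fin N, ∑ b : Fin N, (if a < b then (n a : ℚ) else 0) =
        ∑ a : Fin N, ((N : ℚ) - 1 - (a : ℕ)) * n a := by
      refine Finset.sum_congr rfl (fun a _ => ?_)
      rw [← Finset.sum_filter, Finset.sum_const, nsmul_eq_mul]
      congr 1
      have : (univ.filter (fun b : Fin N => a < b)).card = N - 1 - (a : ℕ) := by
        rw [← Fin.card_Ioi a]
        congr 1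
        ext b
        simp
      rw [this]
      have h4 : (a : ℕ) < N := a.2
      rw [Nat.cast_sub (by omega), Nat.cast_sub (by omega)]
      simp
    have e4 : ∑ a : Fin N, ∑ b : Fin N, (if a < b then (n b : ℚ) else 0) =
        ∑ a : Fin N, ((a : ℕ) : ℚ) * n a := by
      rw [Finset.sum_comm]
      refine Finset.sum_congr rfl (fun a _ => ?_)
      rw [← Finset.sum_filter, Finset.sum_const, nsmul_eq_mul]
      congr 1
      have : (univ.filter (fun b : Fin N => b < a)).card = (a : ℕ) := by
        conv_rhs => rw [← Fin.card_Iio a]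
        congr 1
        ext b
        simp
      rw [this]
    rw [e2, e3, e4]
    unfold TT
    push_cast
    rw [← Finset.sum_add_distrib, ← Finset.sum_sub_distrib]
    refine Finset.sum_congr rfl (fun a _ => ?_)
    ring
  rw [Pi.smul_apply, zsmul_eq_mul]
  push_cast
  rw [Finset.sum_congr rfl (fun a _ => Finset.sum_congr rfl (fun b _ => h2 a b))] at h1
  have h4 : ∑ a : Fin N, ∑ b : Fin N,
      (if a = b then ((n a : ℚ)) ^ 2 else if a < b then ((n a : ℚ) - n b) else 0) * u w =
      (TT n : ℚ) * u w := by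
    rw [← h3, Finset.sum_mul]
    exact Finset.sum_congr rfl (fun a _ => (Finset.sum_mul _ _ _).symm)
  rw [h4] at h1
  linarith

/-- Weights of highest weight vectors decrease. -/
theorem dominant {n : Fin N → ℕ} {u : W N α} (hu : HW u) (hn : HasWt n u) (h0 : u ≠ 0)
    {a b : Fin N} (hab : a < b) : n b ≤ n a := by
  have h1 : ip (EE b a u) (EE b a u) = ((n a : ℚ) - n b) * ip u u := by
    rw [ip_EE]
    have : EE a b (EE b a u) = ((n a : ℚ) - n b) • u := by
      funext w
      rw [EE_comm, hu a b hab, map_zero]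
      by_cases h0 : u w = 0
      · rw [h0]; simp [h0]
      · rw [hn w h0, hn w h0]
        simp
    rw [this, ip_comm, ip_smul_left]
  have h2 := ip_self_nonneg (EE b a u)
  have h3 : 0 < ip u u := lt_of_le_of_ne (ip_self_nonneg u) (fun h => h0 (ip_self_eq_zero h.symm))
  rw [h1] at h2
  have h4 : (0 : ℚ) ≤ (n a : ℚ) - n b := by
    by_contra hc
    push Not at hc
    have := mul_neg_of_neg_of_pos hc h3
    linarith
  have h5 : (n b : ℚ) ≤ n a := by linarith
  exact_mod_cast h5

end wt

end Pool.PI34.H4

end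

/-! ### part H4_Z2 -/
section

/-!
PI34, block H4, file 4: the element `z`.
-/

set_option autoImplicit false
set_option linter.unusedSectionVars false
set_option linter.unusedDecidableInType false
set_option linter.unusedFintypeInType false

namespace Pool.PI34.H4

open Equiv Finset Polynomial

section ac

variable {α : Type} [Fintype α] [DecidableEq α] {C : Type} [DecidableEq C]

theorem comp_mul_eq {c : α → C} {σ : Perm α} (hσ : c ∘ σ = c) (s : Perm α) :
    (c ∘ ⇑(σ * s) = c ↔ c ∘ s = c) ∧ (c ∘ ⇑(s * σ) = c ↔ c ∘ s = c) := by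
  have hσ' : ∀ x, c (σ x) = c x := fun x => congrFun hσ x
  have hσ'' : ∀ x, c (σ.symm x) = c x := fun x => by
    have := hσ' (σ.symm x)
    rw [apply_symm_apply] at this
    exact this.symm
  refine ⟨⟨fun h => ?_, fun h => ?_⟩, ⟨fun h => ?_, fun h => ?_⟩⟩
  · funext x
    have := congrFun h x
    simp only [Function.comp_apply, Perm.mul_apply, hσ'] at this
    exact this
  · funext x
    have := congrFun h x
    simp only [Function.comp_apply, Perm.mul_apply, hσ'] at this ⊢
    exact this
  · funext x
    have := congrFun h (σ.symm x)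
    simp only [Function.comp_apply, Perm.mul_apply, apply_symm_apply, hσ''] at this ⊢
    exact this
  · funext x
    have := congrFun h (σ x)
    simp only [Function.comp_apply, Perm.mul_apply, hσ'] at this ⊢
    exact this

theorem sign_sq (σ : Perm α) : ((Perm.sign σ : ℤˣ) : ℤ) * (Perm.sign σ : ℤˣ) = 1 := by
  rw [← Units.val_mul, Int.units_mul_self]; rfl

theorem g_mul_Ac {c : α → C} {σ : Perm α} (hσ : c ∘ σ = c) :
    g σ * Ac c = (Perm.sign σ : ℤ) • Ac c := by
  unfold Ac
  rw [Finset.mul_sum, Finset.smul_sum]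
  refine Finset.sum_bij (fun s _ => σ * s) ?_ ?_ ?_ ?_
  · intro s hs
    rw [mem_filter] at hs ⊢
    exact ⟨mem_univ _, (comp_mul_eq hσ s).1.2 hs.2⟩
  · intro s _ t _ h
    exact mul_left_cancel h
  · intro s hs
    rw [mem_filter] at hs
    refine ⟨σ⁻¹ * s, ?_, by simp⟩
    rw [mem_filter]
    refine ⟨mem_univ _, ?_⟩
    rw [← (comp_mul_eq hσ (σ⁻¹ * s)).1, mul_inv_cancel_left]
    exact hs.2
  · intro s _
    rw [mul_smul_comm, ← g_mul, smul_smul]
    congr 1
    rw [Perm.sign_mul, Units.val_mul, ← mul_assoc, sign_sq, one_mul]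

theorem Ac_mul_g {c : α → C} {σ : Perm α} (hσ : c ∘ σ = c) :
    Ac c * g σ = (Perm.sign σ : ℤ) • Ac c := by
  unfold Ac
  rw [Finset.sum_mul, Finset.smul_sum]
  refine Finset.sum_bij (fun s _ => s * σ) ?_ ?_ ?_ ?_
  · intro s hs
    rw [mem_filter] at hs ⊢
    exact ⟨mem_univ _, (comp_mul_eq hσ s).2.2 hs.2⟩
  · intro s _ t _ h
    exact mul_right_cancel h
  · intro s hs
    rw [mem_filter] at hs
    refine ⟨s * σ⁻¹, ?_, by simp⟩
    rw [mem_filter]
    refine ⟨mem_univ _, ?_⟩
    rw [← (comp_mul_eq hσ (s * σ⁻¹)).2, inv_mul_cancel_right]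
    exact hs.2
  · intro s _
    rw [smul_mul_assoc, ← g_mul, smul_smul]
    congr 1
    rw [Perm.sign_mul, Units.val_mul, mul_comm ((Perm.sign s : ℤˣ) : ℤ), ← mul_assoc, sign_sq,
      one_mul]

theorem SA_Ac {N : ℕ} (c : α → C) : SA N (Ac c) := by
  intro f h
  unfold Ac
  rw [act_sum, act_sum]
  have e1 : ∀ (s : Finset (Perm α)) (φ : Perm α → W N α) (h : W N α),
      ip (∑ i ∈ s, φ i) h = ∑ i ∈ s, ip (φ i) h := by
    intro s φ h
    induction s using Finset.induction_on with
    | empty => simp [ip_zero_left]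
    | insert a s ha ih => rw [Finset.sum_insert ha, Finset.sum_insert ha, ip_add_left, ih]
  have e2 : ∀ (s : Finset (Perm α)) (φ : Perm α → W N α) (h : W N α),
      ip h (∑ i ∈ s, φ i) = ∑ i ∈ s, ip h (φ i) := by
    intro s φ h
    rw [ip_comm, e1]
    exact Finset.sum_congr rfl (fun i _ => ip_comm _ _)
  rw [e1, e2]
  refine Finset.sum_bij (fun s _ => s⁻¹) ?_ ?_ ?_ ?_
  · intro s hs
    rw [mem_filter] at hs ⊢
    refine ⟨mem_univ _, ?_⟩
    rw [← (comp_mul_eq hs.2 s⁻¹).1, mul_inv_cancel]
    rfl
  · intro s _ t _ h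
    exact inv_injective h
  · intro s hs
    rw [mem_filter] at hs
    refine ⟨s⁻¹, ?_, inv_inv _⟩
    rw [mem_filter]
    refine ⟨mem_univ _, ?_⟩
    rw [← (comp_mul_eq hs.2 s⁻¹).1, mul_inv_cancel]
    rfl
  · intro s _
    rw [act_zsmul, act_zsmul, ip_zsmul_left, ip_zsmul_right, Perm.sign_inv, act_of, act_of, ip_rho]

end ac

section w1

variable {α : Type} [Fintype α] [DecidableEq α] {N : ℕ}

/-- Number of places with the letter `a`. -/
def cntN (w : α → Fin N) (a : ℕ) : ℕ := (univ.filter (fun x => (w x : ℕ) = a)).card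

/-- Number of places with a letter below `r`. -/
def low (w : α → Fin N) (r : ℕ) : ℕ := (univ.filter (fun x => (w x : ℕ) < r)).card

theorem cnt_eq_cntN (w : α → Fin N) (a : Fin N) : cnt w a = cntN w a := by
  unfold cnt cntN
  congr 1
  ext x
  simp [Fin.ext_iff]

theorem low_eq (w : α → Fin N) (r : ℕ) : low w r = ∑ a ∈ range r, cntN w a := by
  induction r with
  | zero => simp [low]
  | succ r ih =>
    rw [Finset.sum_range_succ, ← ih]
    unfold low cntN
    rw [← Finset.card_union_of_disjoint]
    · congr 1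
      ext x
      simp only [mem_filter, mem_univ, true_and, mem_union]
      omega
    · rw [Finset.disjoint_filter]
      intro x _ h
      omega

theorem low_top (w : α → Fin N) : low w N = Fintype.card α := by
  unfold low
  rw [Finset.filter_true_of_mem (fun x _ => (w x).2)]
  rfl

/-- Columns. -/
structure Cols {ι : Type} (col : α → ι) (row : α → Fin N) (len : ι → ℕ) : Prop where
  lt : ∀ x, (row x : ℕ) < len (col x)
  ex : ∀ p, ∀ i < len p, ∃ x, col x = p ∧ (row x : ℕ) = i
  inj : ∀ x y, col x = col y → row x = row y → x = y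

variable {ι : Type} [DecidableEq ι] {col : α → ι} {row : α → Fin N} {len : ι → ℕ}

theorem low_le (hc : Cols col row len) (w : α → Fin N)
    (hw : ∀ x y, col x = col y → w x = w y → x = y) (r : ℕ) : low w r ≤ low row r := by
  unfold low
  have h1 : ∀ v : α → Fin N, (univ.filter (fun x => (v x : ℕ) < r)).card =
      ∑ p ∈ univ.image col,
        ((univ.filter (fun x => (v x : ℕ) < r)).filter (fun x => col x = p)).card := by
    intro v
    exact Finset.card_eq_sum_card_fiberwise (fun x _ => Finset.mem_image_of_mem _ (mem_univ x))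
  rw [h1 w, h1 row]
  refine Finset.sum_le_sum (fun p _ => ?_)
  rcases le_or_gt (len p) r with hr | hr
  · apply Finset.card_le_card
    intro x hx
    rw [mem_filter, mem_filter] at hx ⊢
    refine ⟨⟨mem_univ _, ?_⟩, hx.2⟩
    have := hc.lt x
    rw [hx.2] at this
    omega
  · calc _ ≤ (range r).card := by
          refine Finset.card_le_card_of_injOn (fun x => (w x : ℕ)) ?_ ?_
          · intro x hx
            have hx' := Finset.mem_coe.1 hx
            rw [mem_filter, mem_filter] at hx'
            exact Finset.mem_coe.2 (mem_range.2 hx'.1.2)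
          · intro x hx y hy hxy
            have hx' := Finset.mem_coe.1 hx
            have hy' := Finset.mem_coe.1 hy
            rw [mem_filter] at hx' hy'
            exact hw x y (hx'.2.trans hy'.2.symm) (Fin.ext hxy)
      _ ≤ _ := by
          refine Finset.card_le_card_of_surjOn (fun x => (row x : ℕ)) ?_
          intro i hi
          have hi' := mem_range.1 (Finset.mem_coe.1 hi)
          obtain ⟨x, hx1, hx2⟩ := hc.ex p i (hi'.trans hr)
          refine ⟨x, Finset.mem_coe.2 ?_, hx2⟩
          rw [mem_filter, mem_filter]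
          exact ⟨⟨mem_univ _, by omega⟩, hx1⟩

theorem swap_resp {x y : α} (h : col x = col y) : col ∘ ⇑(swap x y) = col := by
  funext t
  simp only [Function.comp_apply]
  rcases eq_or_ne t x with rfl | hx
  · rw [swap_apply_left, h]
  · rcases eq_or_ne t y with rfl | hy
    · rw [swap_apply_right, h]
    · rw [swap_apply_of_ne_of_ne hx hy]

theorem Ac_supp (f : W N α) (w : α → Fin N) (h : act N α (Ac col) f w ≠ 0) (x y : α)
    (h1 : col x = col y) (h2 : w x = w y) : x = y := by
  by_contra hxy
  apply h
  have h3 : act N α (g (swap x y) * Ac col) f w = act N α (Ac col) f w := by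
    rw [act_mul, act_g]
    have h0 : w ∘ ⇑(swap x y) = w := by
      funext t
      simp only [Function.comp_apply]
      rcases eq_or_ne t x with rfl | hx
      · rw [swap_apply_left, h2]
      · rcases eq_or_ne t y with rfl | hy
        · rw [swap_apply_right, h2]
        · rw [swap_apply_of_ne_of_ne hx hy]
    rw [h0]
  rw [g_mul_Ac (swap_resp h1), Perm.sign_swap hxy, Units.val_neg, Units.val_one, neg_smul,
    one_smul, map_neg, LinearMap.neg_apply, Pi.neg_apply] at h3
  linarith

theorem Ac_low (hc : Cols col row len) (f : W N α) (w : α → Fin N)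
    (h : act N α (Ac col) f w ≠ 0) (r : ℕ) : low w r ≤ low row r :=
  low_le hc w (Ac_supp f w h) r

/-- The starting vector. -/
noncomputable def v0 (col : α → ι) (row : α → Fin N) : W N α :=
  act N α (Ac col) (Pi.single row 1)

theorem v0_apply (w : α → Fin N) : v0 col row w =
    ∑ s ∈ univ.filter (fun s : Perm α => col ∘ s = col),
      ((Perm.sign s : ℤ) : ℚ) * (if w ∘ s = row then 1 else 0) := by
  unfold v0 Ac
  rw [act_sum, Finset.sum_apply]
  refine Finset.sum_congr rfl (fun s _ => ?_)
  rw [act_zsmul, Pi.smul_apply, zsmul_eq_mul, act_g, Pi.single_apply]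

theorem v0_row (hc : Cols col row len) : v0 col row row = 1 := by
  rw [v0_apply, Finset.sum_eq_single 1]
  · simp
  · intro s hs hs1
    rw [mem_filter] at hs
    rw [if_neg, mul_zero]
    intro h
    apply hs1
    ext x
    exact hc.inj _ _ (congrFun hs.2 x) (congrFun h x)
  · intro h
    exact absurd (Finset.mem_filter.2 ⟨Finset.mem_univ (1 : Perm α), (rfl : col ∘ ⇑(1 : Perm α) = col)⟩) h

theorem v0_wt : HasWt (cnt row) (v0 col row) := by
  intro w hw a
  rw [v0_apply] at hw
  obtain ⟨s, _, hs⟩ := Finset.exists_ne_zero_of_sum_ne_zero hw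
  by_cases h : w ∘ s = row
  · rw [← h, cnt_comp]
  · rw [if_neg h, mul_zero] at hs
    exact absurd rfl hs

theorem low_update {w : α → Fin N} {x : α} {b : Fin N} (h : (w x : ℕ) < b) :
    low (Function.update w x b) b + 1 = low w b := by
  unfold low
  have h1 : univ.filter (fun y => (w y : ℕ) < b) =
      insert x (univ.filter (fun y => (Function.update w x b y : ℕ) < b)) := by
    ext y
    rw [mem_insert, mem_filter, mem_filter]
    rcases eq_or_ne y x with rfl | hy
    · simp [h]
    · simp [hy]
  rw [h1, Finset.card_insert_of_notMem]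
  simp

theorem low_of_cnt {w w' : α → Fin N} (h : ∀ a, cnt w a = cnt w' a) (r : ℕ) :
    low w r = low w' r := by
  rw [low_eq, low_eq]
  refine Finset.sum_congr rfl (fun a _ => ?_)
  by_cases ha : a < N
  · have := h ⟨a, ha⟩
    rw [cnt_eq_cntN, cnt_eq_cntN] at this
    exact this
  · have e : ∀ v : α → Fin N, cntN v a = 0 := by
      intro v
      unfold cntN
      rw [Finset.card_eq_zero, Finset.filter_eq_empty_iff]
      intro x _ hx
      exact ha (hx ▸ (v x).2)
    rw [e, e]

theorem v0_HW (hc : Cols col row len) : HW (v0 col row) := by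
  intro a b hab
  by_contra hne
  obtain ⟨w, hw⟩ := exists_ne hne
  obtain ⟨x, hx1, hx2⟩ := EE_supp hw
  have h1 : low w b ≤ low row b := by
    unfold v0 at hw
    rw [EE_act] at hw
    exact Ac_low hc _ w hw b
  have h2 := low_of_cnt (v0_wt _ hx2) b
  have h3 := low_update (w := w) (x := x) (b := b) (by rw [hx1]; exact hab)
  omega

end w1

/-- Summation by parts. -/
theorem abel (N : ℕ) (n k : ℕ → ℤ) (hn : ∀ a, a + 1 < N → n (a + 1) ≤ n a)
    (hk : ∀ a, a + 1 < N → k (a + 1) ≤ k a)
    (hS : ∀ r, r ≤ N → ∑ a ∈ range r, n a ≤ ∑ a ∈ range r, k a)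
    (hN : ∑ a ∈ range N, n a = ∑ a ∈ range N, k a)
    (ht : ∑ a ∈ range N, (n a ^ 2 + ((N : ℤ) - 1 - 2 * a) * n a) =
      ∑ a ∈ range N, (k a ^ 2 + ((N : ℤ) - 1 - 2 * a) * k a)) :
    ∀ a < N, n a = k a := by
  have hd : ∀ r ≤ N, ∑ a ∈ range r, (k a - n a) = ∑ a ∈ range r, k a - ∑ a ∈ range r, n a :=
    fun r _ => Finset.sum_sub_distrib _ _
  have h1 : ∑ a ∈ range N, (k a + n a + N - 1 - 2 * a) • (k a - n a) = 0 := by
    have : ∑ a ∈ range N, (k a + n a + N - 1 - 2 * a) • (k a - n a) =
        ∑ a ∈ range N, (k a ^ 2 + ((N : ℤ) - 1 - 2 * a) * k a) -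
          ∑ a ∈ range N, (n a ^ 2 + ((N : ℤ) - 1 - 2 * a) * n a) := by
      rw [← Finset.sum_sub_distrib]
      refine Finset.sum_congr rfl (fun a _ => ?_)
      rw [smul_eq_mul]
      ring
    rw [this, ht, sub_self]
  rw [Finset.sum_range_by_parts] at h1
  rw [hd N le_rfl, hN, sub_self, smul_zero, zero_sub, neg_eq_zero] at h1
  have h2 : ∀ i ∈ range (N - 1),
      ((k (i + 1) + n (i + 1) + N - 1 - 2 * ((i + 1 : ℕ) : ℤ)) -
        (k i + n i + N - 1 - 2 * (i : ℤ))) • ∑ a ∈ range (i + 1), (k a - n a) ≤ 0 := by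
    intro i hi
    rw [mem_range] at hi
    rw [smul_eq_mul]
    have e1 := hn i (by omega)
    have e2 := hk i (by omega)
    have e3 := hS (i + 1) (by omega)
    rw [hd _ (by omega)]
    apply mul_nonpos_of_nonpos_of_nonneg
    · push_cast
      linarith
    · linarith
  have h3 := (Finset.sum_eq_zero_iff_of_nonpos h2).1 h1
  have h4 : ∀ r ≤ N, ∑ a ∈ range r, (k a - n a) = 0 := by
    intro r hr
    rcases Nat.eq_zero_or_pos r with rfl | hr0
    · simp
    · rcases hr.lt_or_eq with h | h
      · obtain ⟨i, rfl⟩ : ∃ i, r = i + 1 := ⟨r - 1, by omega⟩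
        have h5 := h3 i (mem_range.2 (by omega))
        rw [smul_eq_mul] at h5
        rcases mul_eq_zero.1 h5 with h6 | h6
        · have e1 := hn i (by omega)
          have e2 := hk i (by omega)
          push_cast at h6
          exfalso
          linarith
        · exact h6
      · rw [h, hd N le_rfl, hN, sub_self]
  intro a ha
  have h5 := h4 (a + 1) (by omega)
  rw [Finset.sum_range_succ, h4 a (by omega)] at h5
  linarith

section z

variable {α : Type} [Fintype α] [DecidableEq α] {N : ℕ}
variable {ι : Type} [DecidableEq ι] {col : α → ι} {row : α → Fin N} {len : ι → ℕ}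

theorem TT_eq (w : α → Fin N) :
    TT (cnt w) = ∑ a ∈ range N, ((cntN w a : ℤ) ^ 2 + ((N : ℤ) - 1 - 2 * a) * cntN w a) := by
  unfold TT
  rw [Finset.sum_range]
  refine Finset.sum_congr rfl (fun a _ => ?_)
  rw [cnt_eq_cntN]

/-- **The element `z`**: its highest weight vectors have the weight of the columns. -/
theorem exists_z (hc : Cols col row len) : ∃ z : P α, SA N z ∧ act N α z (Pi.single row 1) ≠ 0 ∧
    ∀ u', HW (act N α z u') → OneW (act N α z u') →
      ∀ w, act N α z u' w ≠ 0 → ∀ a, cnt w a = cnt row a := by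
  classical
  let τ : (α → Fin N) → ℤ := fun w => TT (cnt w) - ((N : ℤ) - 1) * Fintype.card α
  let S : Finset ℤ := (univ.image τ).erase (τ row)
  let q : ℤ[X] := ∏ t ∈ S, (X - C t)
  let F : P α := aeval (J2 α) q
  have hF : SA N F := SA_J2.aeval q
  have hFb : Commute F (Ac col) := Commute.aeval_left (J2_comm' (Ac col)).symm q
  refine ⟨F * Ac col, hF.mul (SA_Ac col) hFb, ?_, ?_⟩
  · rw [act_mul]
    change act N α F (v0 col row) ≠ 0
    have h1 := aeval_eig (eig (v0_HW hc) (v0_wt (col := col) (row := row))) q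
    change act N α F (v0 col row) = _ at h1
    rw [h1]
    intro h2
    have h3 := congrFun h2 row
    rw [Pi.smul_apply, v0_row hc, Pi.zero_apply, zsmul_eq_mul, mul_one] at h3
    have h4 : q.eval (τ row) = 0 := by exact_mod_cast h3
    rw [Polynomial.eval_prod] at h4
    obtain ⟨t, ht, ht'⟩ := Finset.prod_eq_zero_iff.1 h4
    rw [eval_sub, eval_X, eval_C, sub_eq_zero] at ht'
    exact (Finset.ne_of_mem_erase ht) ht'.symm
  · intro u' hu hu1 w hw
    set u := act N α (F * Ac col) u' with hudef
    have hu0 : u ≠ 0 := fun h => hw (by rw [h]; rfl)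
    have hwt : HasWt (cnt w) u := fun w' hw' a => hu1 _ _ hw' hw a
    -- the eigenvalue
    have h1 := eig hu hwt
    have h2 : τ w = τ row := by
      by_contra hne
      have h3 : act N α F u = 0 := by
        have h4 := aeval_eig h1 q
        change act N α F u = _ at h4
        rw [h4]
        have : q.eval (TT (cnt w) - ((N : ℤ) - 1) * Fintype.card α) = 0 := by
          rw [Polynomial.eval_prod]
          refine Finset.prod_eq_zero (i := τ w) ?_ ?_
          · exact Finset.mem_erase.2 ⟨hne, Finset.mem_image_of_mem _ (mem_univ w)⟩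
          · rw [eval_sub, eval_X, eval_C]
            exact sub_self _
        rw [this, zero_smul]
      apply hu0
      apply ip_self_eq_zero
      have h5 : ip u u = ip u' (act N α (F * Ac col) u) := by
        conv_lhs => rw [hudef]
        exact (hF.mul (SA_Ac col) hFb) u' u
      rw [h5, hFb.eq, act_mul, h3, map_zero, ip_zero_right]
    have h3 : TT (cnt w) = TT (cnt row) := by
      have : TT (cnt w) - ((N : ℤ) - 1) * Fintype.card α =
        TT (cnt row) - ((N : ℤ) - 1) * Fintype.card α := h2
      linarith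
    rw [TT_eq, TT_eq] at h3
    have hv0 : v0 col row ≠ 0 := fun h => by
      have := v0_row hc
      rw [h] at this
      exact zero_ne_one this
    have hlow : ∀ r, low w r ≤ low row r := by
      intro r
      rw [hudef, hFb.eq, act_mul] at hw
      exact Ac_low hc _ w hw r
    have h4 := abel N (fun a => (cntN w a : ℤ)) (fun a => (cntN row a : ℤ))
      (fun a ha => by
        have := dominant hu hwt hu0 (a := ⟨a, by omega⟩) (b := ⟨a + 1, ha⟩)
          (by rw [Fin.lt_def]; exact Nat.lt_succ_self a)
        rw [cnt_eq_cntN, cnt_eq_cntN] at this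
        exact_mod_cast this)
      (fun a ha => by
        have := dominant (v0_HW hc) (v0_wt (col := col) (row := row)) hv0 (a := ⟨a, by omega⟩)
          (b := ⟨a + 1, ha⟩) (by rw [Fin.lt_def]; exact Nat.lt_succ_self a)
        rw [cnt_eq_cntN, cnt_eq_cntN] at this
        exact_mod_cast this)
      (fun r _ => by
        rw [← Nat.cast_sum, ← Nat.cast_sum, ← low_eq, ← low_eq]
        exact_mod_cast hlow r)
      (by
        rw [← Nat.cast_sum, ← Nat.cast_sum, ← low_eq, ← low_eq, low_top, low_top])
      h3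
    intro a
    rw [cnt_eq_cntN, cnt_eq_cntN]
    exact_mod_cast h4 a a.2

/-- The trace of the square is positive. -/
theorem trace_sq_pos {z : P α} (hz : SA N z) (w0 : α → Fin N)
    (h : act N α z (Pi.single w0 1) ≠ 0) :
    0 < ∑ w : α → Fin N, act N α (z * z) (Pi.single w 1) w := by
  have h1 : ∀ w : α → Fin N, act N α (z * z) (Pi.single w 1) w =
      ip (act N α z (Pi.single w 1)) (act N α z (Pi.single w 1)) := by
    intro w
    rw [← hz, ← act_mul, ip_comm]
    unfold ip
    rw [Finset.sum_eq_single w]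
    · simp
    · intro v _ hv
      rw [Pi.single_eq_of_ne hv, zero_mul]
    · intro h
      exact absurd (mem_univ _) h
  rw [Finset.sum_congr rfl (fun w _ => h1 w)]
  refine Finset.sum_pos' (fun w _ => ip_self_nonneg _) ⟨w0, mem_univ _, ?_⟩
  exact lt_of_le_of_ne (ip_self_nonneg _) (fun h' => h (ip_self_eq_zero h'.symm))

end z

end Pool.PI34.H4

end

/-! ### part H4_Young -/
section

/-!
PI34, block H4: signed sums of Young subgroups.
-/

set_option autoImplicit false
set_option linter.unusedSectionVars false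
set_option linter.unusedDecidableInType false
set_option linter.unusedFintypeInType false

namespace Pool.PI34.H4

open Equiv Finset

section young

variable {β C : Type} [Fintype β] [DecidableEq β] [DecidableEq C]

/-- The signed sum of the permutations that respect a colouring and move only places with a colour
in `K`. -/
noncomputable def AK (c : β → C) (K : Finset C) : P β :=
  ∑ s ∈ univ.filter (fun s : Perm β => c ∘ s = c ∧ ∀ x, c x ∉ K → s x = x),
    (Perm.sign s : ℤ) • g s

theorem AK_empty (c : β → C) : AK c ∅ = 1 := by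
  unfold AK
  rw [Finset.sum_eq_single (1 : Perm β)]
  · rw [Perm.sign_one, g_one]
    simp
  · intro s hs hne
    rw [mem_filter] at hs
    exact absurd (Equiv.ext fun x => hs.2.2 x (notMem_empty _)) hne
  · intro h
    exfalso
    apply h
    rw [mem_filter]
    exact ⟨mem_univ _, rfl, fun x _ => rfl⟩

theorem AK_insert (c : β → C) (a : C) (K : Finset C) (ha : a ∉ K) :
    AK c (insert a K) = AK c {a} * AK c K := by
  unfold AK
  rw [Finset.sum_mul_sum, ← Finset.sum_product']
  symm
  refine Finset.sum_bij (fun p _ => p.1 * p.2) ?_ ?_ ?_ ?_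
  · rintro ⟨s, t⟩ h
    rw [mem_product, mem_filter, mem_filter] at h
    obtain ⟨⟨_, hs, hs'⟩, ⟨_, ht, ht'⟩⟩ := h
    rw [mem_filter]
    refine ⟨mem_univ _, (comp_mul_eq hs t).1.2 ht, fun x hx => ?_⟩
    rw [mem_insert, not_or] at hx
    change s (t x) = x
    rw [ht' x hx.2, hs' x (by rw [mem_singleton]; exact hx.1)]
  · rintro ⟨s, t⟩ h ⟨s', t'⟩ h' heq
    rw [mem_product, mem_filter, mem_filter] at h h'
    obtain ⟨⟨_, hs, hs'⟩, ⟨_, ht, ht'⟩⟩ := h
    obtain ⟨⟨_, hs2, hs2'⟩, ⟨_, ht2, ht2'⟩⟩ := h'
    have heq : ∀ x, s (t x) = s' (t' x) := fun x => Equiv.congr_fun heq x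
    have h1 : t = t' := by
      ext x
      by_cases hx : c x = a
      · have h2 : c x ∉ K := by rw [hx]; exact ha
        rw [ht' x h2, ht2' x h2]
      · have h3 : c (t x) = c x := congrFun ht x
        have h4 : c (t' x) = c x := congrFun ht2 x
        have h5 := heq x
        rw [hs' _ (by rw [mem_singleton, h3]; exact hx),
          hs2' _ (by rw [mem_singleton, h4]; exact hx)] at h5
        exact h5
    have h2 : s = s' := by
      ext x
      have h3 := heq (t.symm x)
      rw [h1, apply_symm_apply] at h3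
      exact h3
    rw [h1, h2]
  · intro u hu
    rw [mem_filter] at hu
    obtain ⟨_, hu1, hu2⟩ := hu
    have hcu : ∀ x, c (u x) = c x := fun x => congrFun hu1 x
    have hp : ∀ x, (c (u x) = a ↔ c x = a) := fun x => by rw [hcu]
    let u' : Perm {x // c x = a} := Perm.subtypePerm (p := fun x => c x = a) u hp
    set s : Perm β := Perm.ofSubtype u' with hs
    have hs1 : ∀ x, c x = a → s x = u x := by
      intro x hx
      rw [hs, Perm.ofSubtype_apply_of_mem u' hx]
      rfl
    have hs2 : ∀ x, c x ≠ a → s x = x := by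
      intro x hx
      rw [hs, Perm.ofSubtype_apply_of_not_mem u' hx]
    have hsc : c ∘ s = c := by
      funext x
      by_cases hx : c x = a
      · rw [Function.comp_apply, hs1 x hx, hcu]
      · rw [Function.comp_apply, hs2 x hx]
    refine ⟨(s, s⁻¹ * u), ?_, mul_inv_cancel_left s u⟩
    rw [mem_product, mem_filter, mem_filter]
    refine ⟨⟨mem_univ _, hsc, fun x hx => hs2 x (by rwa [mem_singleton] at hx)⟩,
      ⟨mem_univ _, ?_, ?_⟩⟩
    · rw [← (comp_mul_eq hsc (s⁻¹ * u)).1, mul_inv_cancel_left]
      exact hu1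
    · intro x hx
      change s⁻¹ (u x) = x
      rw [Perm.inv_eq_iff_eq]
      by_cases hxa : c x = a
      · rw [hs1 x hxa]
      · rw [hs2 x hxa, hu2 x (by rw [mem_insert, not_or]; exact ⟨hxa, hx⟩)]
  · rintro ⟨s, t⟩ _
    rw [g_mul, Perm.sign_mul, Units.val_mul, smul_mul_assoc, mul_smul_comm, smul_smul]

theorem AK_single {d : ℕ} (c : β → C) (a : C) (ι : Fin d ↪ β) (hι : Set.range ι = {x | c x = a}) :
    AK c {a} = emb ι (As (Fin d)) := by
  have hr : ∀ z, z ∈ Set.range ι ↔ c z = a := fun z => by rw [hι]; rfl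
  unfold AK As
  rw [map_sum]
  symm
  refine Finset.sum_bij (fun s _ => s.viaEmbedding ι) ?_ ?_ ?_ ?_
  · intro s _
    rw [mem_filter]
    refine ⟨mem_univ _, ?_, ?_⟩
    · funext z
      simp only [Function.comp_apply]
      by_cases hz : z ∈ Set.range ι
      · obtain ⟨x, rfl⟩ := hz
        rw [Perm.viaEmbedding_apply, (hr _).1 ⟨_, rfl⟩, (hr _).1 ⟨_, rfl⟩]
      · rw [Perm.viaEmbedding_apply_of_notMem _ _ _ hz]
    · intro z hz
      apply Perm.viaEmbedding_apply_of_notMem
      rw [hr]
      rwa [mem_singleton] at hz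
  · intro s _ t _ hst
    exact Perm.viaEmbeddingHom_injective ι hst
  · intro t ht
    rw [mem_filter] at ht
    obtain ⟨_, ht1, ht2⟩ := ht
    have hct : ∀ x, c (t x) = c x := fun x => congrFun ht1 x
    have hct' : ∀ x, c (t.symm x) = c x := fun x => by
      have h := hct (t.symm x)
      rw [apply_symm_apply] at h
      exact h.symm
    have hran : ∀ x, t (ι x) ∈ Set.range ι := fun x => by
      rw [hr, hct]
      exact (hr _).1 ⟨_, rfl⟩
    have hran' : ∀ x, t.symm (ι x) ∈ Set.range ι := fun x => by
      rw [hr, hct']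
      exact (hr _).1 ⟨_, rfl⟩
    choose f hf using hran
    choose f' hf' using hran'
    let s : Perm (Fin d) :=
      { toFun := f
        invFun := f'
        left_inv := by
          intro x
          apply ι.injective
          rw [hf', hf, Equiv.symm_apply_apply]
        right_inv := by
          intro x
          apply ι.injective
          rw [hf, hf', Equiv.apply_symm_apply] }
    refine ⟨s, mem_univ _, ?_⟩
    ext z
    by_cases hz : z ∈ Set.range ι
    · obtain ⟨x, rfl⟩ := hz
      rw [Perm.viaEmbedding_apply]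
      exact hf x
    · rw [Perm.viaEmbedding_apply_of_notMem _ _ _ hz, ht2]
      rw [mem_singleton, ← hr]
      exact hz
  · intro s _
    rw [emb_zsmul, emb_g, sign_via]

theorem Ac_eq_AK {X T : Type} [Fintype X] [DecidableEq X] [Fintype T] [DecidableEq T]
    (c : T → C) : Ac (Sum.map id c : X ⊕ T → X ⊕ C) =
      AK (Sum.map id c : X ⊕ T → X ⊕ C) ((univ.image c).map Function.Embedding.inr) := by
  unfold Ac AK
  congr 1
  ext s
  rw [mem_filter, mem_filter]
  constructor
  · rintro ⟨_, hs⟩
    refine ⟨mem_univ _, hs, ?_⟩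
    rintro (x | t) hx
    · have h1 := congrFun hs (Sum.inl x)
      simp only [Function.comp_apply, Sum.map_inl, id] at h1
      rcases h2 : s (Sum.inl x) with y | u
      · rw [h2, Sum.map_inl] at h1
        have h3 : y = x := Sum.inl_injective h1
        rw [h3]
      · rw [h2, Sum.map_inr] at h1
        exact absurd h1 Sum.inr_ne_inl
    · exfalso
      apply hx
      rw [mem_map]
      exact ⟨c t, mem_image_of_mem c (mem_univ t), rfl⟩
  · rintro ⟨h0, hs, _⟩
    exact ⟨h0, hs⟩

/-- The part of `J` without the signed sum. -/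
noncomputable def JR (N : ℕ) (c : β → C) : AddSubgroup (P β) :=
  AddSubgroup.closure
    ({x | ∃ (i j : β) (a : P β), i ≠ j ∧ c i = c j ∧ x = (1 + g (swap i j)) * a} ∪
      {x | act N β x = 0})

theorem JR_le (N : ℕ) (c : β → C) : JR N c ≤ J N c := by
  unfold JR J
  apply AddSubgroup.closure_mono
  rintro x (h | h)
  · exact Or.inl (Or.inl h)
  · exact Or.inr h

theorem JR_mul {N : ℕ} {c : β → C} {x : P β} (hx : x ∈ JR N c) (y : P β) : x * y ∈ JR N c := by
  have h1 : JR N c ≤ (JR N c).comap (AddMonoidHom.mulRight y) := by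
    conv_lhs => unfold JR
    rw [AddSubgroup.closure_le]
    rintro z (⟨i, j, a, hij, hc, rfl⟩ | hz)
    · exact AddSubgroup.subset_closure (Or.inl ⟨i, j, a * y, hij, hc, mul_assoc _ _ _⟩)
    · refine AddSubgroup.subset_closure (Or.inr ?_)
      change act N β (z * y) = 0
      have hz' : act N β z = 0 := hz
      rw [map_mul, hz', zero_mul]
  exact h1 hx

theorem JR_perm {N d : ℕ} (c : β → C) (ι : Fin d ↪ β) (hι : ∀ i j, c (ι i) = c (ι j)) (w : P β)
    (s : Perm (Fin d)) :
    w - (Perm.sign s : ℤ) • (g (s.viaEmbedding ι) * w) ∈ JR N c := by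
  induction s using Perm.swap_induction_on with
  | one =>
    have h1 : (1 : Perm (Fin d)).viaEmbedding ι = 1 := map_one (Perm.viaEmbeddingHom ι)
    rw [h1, g_one, one_mul, Perm.sign_one, Units.val_one, one_smul, sub_self]
    exact zero_mem _
  | swap_mul s i j hij ih =>
    have h1 : (swap i j * s).viaEmbedding ι = swap (ι i) (ι j) * s.viaEmbedding ι := by
      have h2 : (swap i j * s).viaEmbedding ι
          = (swap i j).viaEmbedding ι * s.viaEmbedding ι :=
        map_mul (Perm.viaEmbeddingHom ι) _ _
      rw [h2, swap_via]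
    have h3 : (1 + g (swap (ι i) (ι j))) * ((Perm.sign s : ℤ) • (g (s.viaEmbedding ι) * w))
        ∈ JR N c :=
      AddSubgroup.subset_closure (Or.inl ⟨ι i, ι j, _, fun h => hij (ι.injective h), hι i j, rfl⟩)
    have h4 := add_mem ih h3
    rw [h1, g_mul, Perm.sign_mul, Perm.sign_swap hij]
    have h5 : w - ((-1 * Perm.sign s : ℤˣ) : ℤ) • (g (swap (ι i) (ι j)) * g (s.viaEmbedding ι) * w)
        = w - (Perm.sign s : ℤ) • (g (s.viaEmbedding ι) * w) +
          (1 + g (swap (ι i) (ι j))) * ((Perm.sign s : ℤ) • (g (s.viaEmbedding ι) * w)) := by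
      rw [Units.val_mul, Units.val_neg, Units.val_one, neg_one_mul, neg_smul, add_mul, one_mul,
        mul_smul_comm, mul_assoc]
      abel
    rw [h5]
    exact h4

theorem JR_average {N d : ℕ} (c : β → C) (ι : Fin d ↪ β) (hι : ∀ i j, c (ι i) = c (ι j))
    (w : P β) : (d.factorial : ℤ) • w - emb ι (As (Fin d)) * w ∈ JR N c := by
  have h1 : (d.factorial : ℤ) • w - emb ι (As (Fin d)) * w
      = ∑ s : Perm (Fin d), (w - (Perm.sign s : ℤ) • (g (s.viaEmbedding ι) * w)) := by
    rw [Finset.sum_sub_distrib, Finset.sum_const, Finset.card_univ, Fintype.card_perm,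
      Fintype.card_fin, natCast_zsmul]
    congr 1
    unfold As
    rw [map_sum, Finset.sum_mul]
    exact Finset.sum_congr rfl fun s _ => by rw [emb_zsmul, emb_g, smul_mul_assoc]
  rw [h1]
  exact sum_mem fun s _ => JR_perm c ι hι w s

end young

end Pool.PI34.H4

end

/-! ### part H4_Top -/
section

/-!
PI34, block H4, file 5: the components of maximal level of a highest weight vector.
-/

set_option autoImplicit false
set_option linter.unusedSectionVars false
set_option linter.unusedDecidableInType false
set_option linter.unusedFintypeInType false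

namespace Pool.PI34.H4

open Equiv Finset Polynomial

section top

variable {N : ℕ} {X T : Type} [Fintype X] [DecidableEq X] [Fintype T] [DecidableEq T]

theorem cnt_elim (w : X → Fin N) (v : T → Fin N) (a : Fin N) :
    cnt (Sum.elim w v) a = cnt w a + cnt v a := by
  unfold cnt
  rw [Finset.card_filter, Finset.card_filter, Finset.card_filter, Fintype.sum_sum_type]
  rfl

theorem hgt_comp (v : T → Fin N) (σ : Perm T) : hgt (v ∘ σ) = hgt v := by
  unfold hgt
  exact Equiv.sum_comp σ (fun t => (v t : ℕ))

theorem EE_elim (a b : Fin N) (x : W N (X ⊕ T)) (w : X → Fin N) (v : T → Fin N) :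
    EE a b x (Sum.elim w v) = EE a b (fun w => x (Sum.elim w v)) w +
      ∑ t, if v t = a then x (Sum.elim w (Function.update v t b)) else 0 := by
  rw [EE_apply, EE_apply, Fintype.sum_sum_type]
  congr 1
  · refine Finset.sum_congr rfl (fun i _ => ?_)
    rw [Sum.elim_inl, Sum.update_elim_inl]
  · refine Finset.sum_congr rfl (fun t _ => ?_)
    rw [Sum.elim_inr, Sum.update_elim_inr]

/-- No components above a level. -/
def Top (s : ℕ) (x : W N (X ⊕ T)) : Prop := ∀ w v, s < hgt v → x (Sum.elim w v) = 0

theorem Top.comp_HW {s : ℕ} {x : W N (X ⊕ T)} (ht : Top s x) (hx : HW x) {v : T → Fin N}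
    (hv : s ≤ hgt v) : HW (fun w => x (Sum.elim w v)) := by
  intro a b hab
  funext w
  have h1 := EE_elim a b x w v
  rw [hx a b hab] at h1
  have h2 : ∑ t, (if v t = a then x (Sum.elim w (Function.update v t b)) else 0) = 0 := by
    refine Finset.sum_eq_zero (fun t _ => ?_)
    split_ifs with h
    · refine ht _ _ ?_
      have h3 := hgt_update v t b
      rw [h] at h3
      have : (a : ℕ) < b := hab
      omega
    · rfl
  rw [h2, add_zero] at h1
  exact h1.symm

theorem elim_comp_swap_inr (w : X → Fin N) (v : T → Fin N) (t l : T) :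
    (Sum.elim w v) ∘ ⇑(swap (Sum.inr t : X ⊕ T) (Sum.inr l)) = Sum.elim w (v ∘ swap t l) := by
  funext z
  rcases z with i | u
  · simp only [Function.comp_apply]
    rw [swap_apply_of_ne_of_ne (by simp) (by simp)]
    rfl
  · simp only [Function.comp_apply, Sum.elim_inr]
    rcases eq_or_ne u t with rfl | h1
    · rw [swap_apply_left, swap_apply_left]; rfl
    · rcases eq_or_ne u l with rfl | h2
      · rw [swap_apply_right, swap_apply_right]; rfl
      · rw [swap_apply_of_ne_of_ne (fun e => h1 (Sum.inr_injective e))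
          (fun e => h2 (Sum.inr_injective e)), swap_apply_of_ne_of_ne h1 h2]
        rfl

theorem elim_comp_swap (w : X → Fin N) (v : T → Fin N) (i : X) (l : T) :
    (Sum.elim w v) ∘ ⇑(swap (Sum.inl i : X ⊕ T) (Sum.inr l)) =
      Sum.elim (Function.update w i (v l)) (Function.update v l (w i)) := by
  rw [← update_update_swap (Sum.elim w v) (x := Sum.inl i) (y := Sum.inr l) (by simp)]
  rw [Sum.elim_inl, Sum.elim_inr, Sum.update_elim_inl, Sum.update_elim_inr]

variable (X) in
/-- The sum of the transpositions of the place `l` with the places of `X`. -/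
noncomputable def sX (l : T) : P (X ⊕ T) := ∑ i : X, g (swap (Sum.inl i) (Sum.inr l))

variable (X) in
/-- The sum of the transpositions of the place `l` with the other places of `T`. -/
noncomputable def sT (l : T) : P (X ⊕ T) :=
  ∑ t ∈ univ.erase l, g (swap (Sum.inr l) (Sum.inr t))

theorem act_sT (l : T) (x : W N (X ⊕ T)) (w : X → Fin N) (v : T → Fin N) :
    act N _ (sT X l) x (Sum.elim w v) =
      ∑ t ∈ univ.erase l, x (Sum.elim w (v ∘ swap l t)) := by
  unfold sT
  rw [act_sum, Finset.sum_apply]
  refine Finset.sum_congr rfl (fun t _ => ?_)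
  rw [act_g, elim_comp_swap_inr]

theorem act_sX {s : ℕ} {x : W N (X ⊕ T)} (ht : Top s x) (hx : HW x) {v : T → Fin N}
    (hv : s ≤ hgt v) (l : T) (w : X → Fin N) :
    act N _ (sX X l) x (Sum.elim w v) =
      ((cnt w (v l) : ℚ) - (v l : ℕ)) * x (Sum.elim w v) -
        ∑ t ∈ univ.erase l, if v t < v l then x (Sum.elim w (v ∘ swap l t)) else 0 := by
  have h1 : act N _ (sX X l) x (Sum.elim w v) =
      ∑ b : Fin N, EE b (v l) (fun w => x (Sum.elim w (Function.update v l b))) w := by
    unfold sX
    rw [act_sum, Finset.sum_apply]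
    simp only [EE_apply]
    rw [Finset.sum_comm]
    refine Finset.sum_congr rfl (fun i _ => ?_)
    rw [act_g, elim_comp_swap, Finset.sum_ite_eq, if_pos (mem_univ _)]
  have h2 : ∀ b : Fin N, EE b (v l) (fun w => x (Sum.elim w (Function.update v l b))) w =
      (if b = v l then (cnt w (v l) : ℚ) * x (Sum.elim w v) else 0) -
        (if b < v l then x (Sum.elim w v) +
          ∑ t ∈ univ.erase l, (if v t = b then x (Sum.elim w (v ∘ swap l t)) else 0) else 0) := by
    intro b
    rcases lt_trichotomy b (v l) with h | h | h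
    · rw [if_neg h.ne, if_pos h]
      have h3 := EE_elim b (v l) x w (Function.update v l b)
      rw [hx b (v l) h, Pi.zero_apply, ← Finset.add_sum_erase _ _ (mem_univ l),
        Function.update_self, if_pos rfl, Function.update_idem, Function.update_eq_self] at h3
      have h4 : ∑ t ∈ univ.erase l, (if Function.update v l b t = b then
          x (Sum.elim w (Function.update (Function.update v l b) t (v l))) else 0) =
          ∑ t ∈ univ.erase l, (if v t = b then x (Sum.elim w (v ∘ swap l t)) else 0) := by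
        refine Finset.sum_congr rfl (fun t ht => ?_)
        have ht' := Finset.ne_of_mem_erase ht
        rw [Function.update_of_ne ht']
        by_cases hb : v t = b
        · rw [if_pos hb, if_pos hb, ← hb, update_update_swap v ht'.symm]
        · rw [if_neg hb, if_neg hb]
      rw [h4] at h3
      linarith
    · subst h
      rw [if_pos rfl, if_neg (lt_irrefl _), Function.update_eq_self, sub_zero, EE_self]
    · rw [if_neg h.ne', if_neg h.asymm, sub_zero]
      have h3 : (fun w => x (Sum.elim w (Function.update v l b))) = 0 := by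
        funext w'
        refine ht _ _ ?_
        have h4 := hgt_update v l b
        have : (v l : ℕ) < b := h
        omega
      rw [h3, map_zero]
      rfl
  rw [h1, Finset.sum_congr rfl (fun b _ => h2 b), Finset.sum_sub_distrib, Finset.sum_ite_eq',
    if_pos (mem_univ _), ← Finset.sum_filter, Finset.sum_add_distrib, Finset.sum_const,
    nsmul_eq_mul]
  have h3 : (univ.filter (fun b : Fin N => b < v l)).card = (v l : ℕ) := by
    conv_rhs => rw [← Fin.card_Iio (v l)]
    congr 1
    ext b
    simp
  rw [h3]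
  have h4 : ∑ b ∈ univ.filter (fun b : Fin N => b < v l),
      ∑ t ∈ univ.erase l, (if v t = b then x (Sum.elim w (v ∘ swap l t)) else 0) =
      ∑ t ∈ univ.erase l, if v t < v l then x (Sum.elim w (v ∘ swap l t)) else 0 := by
    rw [Finset.sum_comm]
    refine Finset.sum_congr rfl (fun t _ => ?_)
    rw [Finset.sum_ite_eq]
    simp
  rw [h4]
  ring

/-- The element `y`. -/
noncomputable def yy (N : ℕ) (X : Type) [Fintype X] [DecidableEq X] (l : T) : P (X ⊕ T) :=
  sX X l + sT X l + ((N : ℤ) - 1) • 1

theorem act_yy {s : ℕ} {x : W N (X ⊕ T)} (ht : Top s x) (hx : HW x) {v : T → Fin N}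
    (hv : s ≤ hgt v) (l : T) (w : X → Fin N) :
    act N _ (yy N X l) x (Sum.elim w v) =
      ((cnt w (v l) : ℚ) + N - 1 - (v l : ℕ)) * x (Sum.elim w v) +
        ∑ t ∈ univ.erase l, if v l ≤ v t then x (Sum.elim w (v ∘ swap l t)) else 0 := by
  unfold yy
  rw [act_add, act_add, act_zsmul, act_one, Pi.add_apply, Pi.add_apply, act_sX ht hx hv, act_sT,
    Pi.smul_apply, zsmul_eq_mul]
  have h1 : ∑ t ∈ univ.erase l, x (Sum.elim w (v ∘ swap l t)) =
      ∑ t ∈ univ.erase l, (if v t < v l then x (Sum.elim w (v ∘ swap l t)) else 0) +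
        ∑ t ∈ univ.erase l, (if v l ≤ v t then x (Sum.elim w (v ∘ swap l t)) else 0) := by
    rw [← Finset.sum_add_distrib]
    refine Finset.sum_congr rfl (fun t _ => ?_)
    by_cases h : v t < v l
    · rw [if_pos h, if_neg (not_le.2 h), add_zero]
    · rw [if_neg h, if_pos (not_lt.1 h), zero_add]
  rw [h1]
  push_cast
  ring

theorem Top.yy {s : ℕ} {x : W N (X ⊕ T)} (ht : Top s x) (hx : HW x) (l : T) :
    Top s (act N _ (H4.yy N X l) x) := by
  intro w v hv
  rw [act_yy ht hx hv.le, ht _ _ hv, mul_zero, zero_add]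
  refine Finset.sum_eq_zero (fun t _ => ?_)
  split_ifs
  · exact ht _ _ (by rw [hgt_comp]; exact hv)
  · rfl

theorem act_pow_succ (y : P (X ⊕ T)) (j : ℕ) (x : W N (X ⊕ T)) :
    act N _ (y ^ (j + 1)) x = act N _ y (act N _ (y ^ j) x) := by
  rw [pow_succ', act_mul]

theorem Top.yy_pow {s : ℕ} {x : W N (X ⊕ T)} (ht : Top s x) (hx : HW x) (l : T) (j : ℕ) :
    Top s (act N _ ((H4.yy N X l) ^ j) x) ∧ HW (act N _ ((H4.yy N X l) ^ j) x) := by
  induction j with
  | zero => rw [pow_zero, act_one]; exact ⟨ht, hx⟩
  | succ j ih =>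
    rw [act_pow_succ]
    exact ⟨ih.1.yy ih.2 l, ih.2.act _⟩

theorem act_emb_inl (z : P X) (x : W N (X ⊕ T)) (w : X → Fin N) (v : T → Fin N) :
    act N _ (emb Function.Embedding.inl z) x (Sum.elim w v) =
      act N X z (fun w => x (Sum.elim w v)) w := by
  rw [act_emb]
  have h1 : (fun w1 : X → Fin N => x (glue Function.Embedding.inl w1 (Sum.elim w v))) =
      fun w1 => x (Sum.elim w1 v) := by
    funext w1
    congr 1
    funext z
    rcases z with i | t
    · exact glue_apply Function.Embedding.inl w1 (Sum.elim w v) i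
    · rw [glue_apply_of_notMem]
      · rfl
      · rintro ⟨i, hi⟩
        cases hi
  rw [h1]
  rfl

/-- The property of `z`: the highest weight vectors have the weight `(q - 1) (N - 1 - a)`. -/
def ZP (N : ℕ) (Q : ℤ) (z : P X) : Prop :=
  ∀ u' : W N X, HW (act N X z u') → OneW (act N X z u') →
    ∀ w, act N X z u' w ≠ 0 → ∀ a, (cnt w a : ℤ) = (Q - 1) * ((N : ℤ) - 1 - (a : ℕ))

/-- The weight at a component of maximal level. -/
theorem top_wt {Q : ℤ} {z : P X} (hz : ZP N Q z) {x x' : W N (X ⊕ T)}
    (hxz : x = act N _ (emb Function.Embedding.inl z) x') (hx : HW x) (h1 : OneW x)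
    {v : T → Fin N} (ht : Top (hgt v) x) {w : X → Fin N} (hw : x (Sum.elim w v) ≠ 0) (a : Fin N) :
    (cnt w a : ℤ) = (Q - 1) * ((N : ℤ) - 1 - (a : ℕ)) := by
  have h2 : (fun w => x (Sum.elim w v)) = act N X z (fun w => x' (Sum.elim w v)) := by
    funext w
    rw [hxz, act_emb_inl]
  have h3 := ht.comp_HW hx le_rfl
  have h4 : OneW (fun w => x (Sum.elim w v)) := by
    intro w1 w2 hw1 hw2 a
    have := h1 _ _ hw1 hw2 a
    rw [cnt_elim, cnt_elim] at this
    omega
  rw [h2] at h3 h4
  have h5 : act N X z (fun w => x' (Sum.elim w v)) w ≠ 0 := by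
    rw [← h2]; exact hw
  exact hz _ h3 h4 w h5 a

/-- The coefficients of the powers of `y`. -/
def phi {N : ℕ} (Q : ℤ) (s : T → Fin N) : ℕ → T → ℤ
  | 0, _ => 1
  | j + 1, k => Q * ((N : ℤ) - 1 - (s k : ℕ)) * phi Q s j k -
      ∑ b ∈ univ.filter (fun b => s k < s b), phi Q s j b

theorem phi_spec {Q : ℤ} {s : T → Fin N} (hs : Function.Injective s) {x : W N (X ⊕ T)} (hx : HW x)
    (ht : Top (hgt s) x) (hwt : ∀ w, x (Sum.elim w s) ≠ 0 → ∀ a,
      (cnt w a : ℤ) = (Q - 1) * ((N : ℤ) - 1 - (a : ℕ)))
    (halt : ∀ (σ : Perm T) w v, x (Sum.elim w (v ∘ σ)) = ((Perm.sign σ : ℤ) : ℚ) * x (Sum.elim w v))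
    (l : T) (j : ℕ) : ∀ (σ : Perm T) (w : X → Fin N),
      act N _ ((yy N X l) ^ j) x (Sum.elim w (s ∘ σ)) =
        ((Perm.sign σ : ℤ) : ℚ) * phi Q s j (σ l) * x (Sum.elim w s) := by
  induction j with
  | zero =>
    intro σ w
    rw [pow_zero, act_one, halt]
    simp [phi]
  | succ j ih =>
    intro σ w
    rw [act_pow_succ, act_yy (ht.yy_pow hx l j).1 (ht.yy_pow hx l j).2
      (by rw [hgt_comp]), ih σ w]
    have h1 : ∑ t ∈ univ.erase l, (if (s ∘ σ) l ≤ (s ∘ σ) t then
        act N _ ((yy N X l) ^ j) x (Sum.elim w ((s ∘ ⇑σ) ∘ swap l t)) else 0) =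
        -(((Perm.sign σ : ℤ) : ℚ) * (∑ b ∈ univ.filter (fun b => s (σ l) < s b),
          (phi Q s j b : ℚ)) * x (Sum.elim w s)) := by
      have h2 : ∀ t ∈ univ.erase l, (if (s ∘ σ) l ≤ (s ∘ σ) t then
          act N _ ((yy N X l) ^ j) x (Sum.elim w ((s ∘ ⇑σ) ∘ swap l t)) else 0) =
          if s (σ l) < s (σ t) then
            -(((Perm.sign σ : ℤ) : ℚ) * (phi Q s j (σ t) : ℚ) * x (Sum.elim w s)) else 0 := by
        intro t htl
        have htl' := Finset.ne_of_mem_erase htl
        have h3 : ((s ∘ ⇑σ) l ≤ (s ∘ ⇑σ) t) ↔ s (σ l) < s (σ t) := by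
          constructor
          · intro h
            exact lt_of_le_of_ne h (fun e => htl' (σ.injective (hs e)).symm)
          · exact fun h => h.le
        by_cases h4 : s (σ l) < s (σ t)
        · rw [if_pos (h3.2 h4), if_pos h4]
          have h5 : (s ∘ ⇑σ) ∘ ⇑(swap l t) = s ∘ ⇑(σ * swap l t) := rfl
          rw [h5, ih (σ * swap l t) w, Perm.sign_mul, Perm.sign_swap htl'.symm, Perm.mul_apply,
            swap_apply_left]
          push_cast
          ring
        · rw [if_neg (fun h => h4 (h3.1 h)), if_neg h4]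
      rw [Finset.sum_congr rfl h2]
      rw [Finset.sum_erase _ (by rw [if_neg (lt_irrefl _)])]
      rw [Equiv.sum_comp σ (fun b => if s (σ l) < s b then
        -(((Perm.sign σ : ℤ) : ℚ) * (phi Q s j b : ℚ) * x (Sum.elim w s)) else 0)]
      rw [← Finset.sum_filter, Finset.sum_neg_distrib, ← Finset.sum_mul, ← Finset.mul_sum]
    rw [h1]
    by_cases h0 : x (Sum.elim w s) = 0
    · rw [h0]; ring
    · have h2 := hwt w h0 ((s ∘ σ) l)
      have h3 : (cnt w ((s ∘ σ) l) : ℚ) = ((Q : ℚ) - 1) * ((N : ℚ) - 1 - ((s (σ l) : Fin N) : ℕ)) := by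
        exact_mod_cast h2
      rw [h3, phi]
      push_cast
      simp only [Function.comp_apply]
      ring

end top

end Pool.PI34.H4

end

/-! ### part H4_Top2 -/
section

/-!
PI34, block H4, file 6: the eigenvalue of `h` on highest weight vectors.
-/

set_option autoImplicit false
set_option linter.unusedSectionVars false
set_option linter.unusedDecidableInType false
set_option linter.unusedFintypeInType false

namespace Pool.PI34.H4

open Equiv Finset Polynomial

/-! ### The signed sum of one more place -/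

/-- The embedding of the places `1, ..., d`. -/
def sE (d : ℕ) : Fin d ↪ Fin (d + 1) := ⟨Fin.succ, Fin.succ_injective d⟩

/-- The signed coset sum. -/
noncomputable def atl (d : ℕ) : P (Fin (d + 1)) := 1 - ∑ t : Fin d, g (swap 0 t.succ)

theorem decomposeFin_eq {d : ℕ} (p : Fin (d + 1)) (e : Perm (Fin d)) :
    Perm.decomposeFin.symm (p, e) = swap 0 p * e.viaEmbedding (sE d) := by
  ext x
  refine Fin.cases ?_ (fun y => ?_) x
  · rw [Perm.decomposeFin_symm_apply_zero, Perm.mul_apply, Perm.viaEmbedding_apply_of_notMem,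
      swap_apply_left]
    rintro ⟨y, hy⟩
    exact Fin.succ_ne_zero y hy
  · rw [Perm.decomposeFin_symm_apply_succ, Perm.mul_apply]
    have := Perm.viaEmbedding_apply e (sE d) y
    change e.viaEmbedding (sE d) y.succ = (e y).succ at this
    rw [this]

theorem atl_eq (d : ℕ) : atl d = ∑ p : Fin (d + 1), (if p = 0 then (1 : ℤ) else -1) • g (swap 0 p) := by
  rw [Fin.sum_univ_succ, if_pos rfl, one_smul, swap_self]
  have h1 : ∀ t : Fin d, (if t.succ = 0 then (1 : ℤ) else -1) • g (swap 0 t.succ) =
      -g (swap 0 t.succ) := by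
    intro t
    rw [if_neg (Fin.succ_ne_zero t), neg_smul, one_smul]
  rw [Finset.sum_congr rfl (fun t _ => h1 t), Finset.sum_neg_distrib]
  have h2 : g (Equiv.refl (Fin (d + 1))) = 1 := g_one
  rw [h2, atl, sub_eq_add_neg]

theorem As_succ (d : ℕ) : As (Fin (d + 1)) = atl d * emb (sE d) (As (Fin d)) := by
  have h1 : As (Fin (d + 1)) = ∑ q : Fin (d + 1) × Perm (Fin d),
      ((if q.1 = 0 then (1 : ℤ) else -1) * (Perm.sign q.2 : ℤ)) •
        (g (swap 0 q.1) * g (q.2.viaEmbedding (sE d))) := by
    unfold As
    refine Fintype.sum_equiv Perm.decomposeFin _ _ (fun s => ?_)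
    obtain ⟨⟨p, e⟩, rfl⟩ := Perm.decomposeFin.symm.surjective s
    rw [apply_symm_apply, Perm.decomposeFin.symm_sign, decomposeFin_eq, g_mul]
    congr 1
    rw [Units.val_mul]
    split_ifs <;> rfl
  rw [h1, Fintype.sum_prod_type, atl_eq, Finset.sum_mul]
  refine Finset.sum_congr rfl (fun p _ => ?_)
  unfold As
  rw [map_sum, Finset.mul_sum]
  refine Finset.sum_congr rfl (fun e _ => ?_)
  rw [emb_zsmul, emb_g, smul_mul_smul_comm]

theorem As_inv (α : Type) [Fintype α] [DecidableEq α] :
    As α = ∑ s : Perm α, (Perm.sign s : ℤ) • g s⁻¹ := by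
  unfold As
  refine Fintype.sum_equiv (Equiv.inv (Perm α)) _ _ (fun s => ?_)
  rw [Equiv.inv_apply, Perm.sign_inv, inv_inv]

theorem As_succ' (d : ℕ) : As (Fin (d + 1)) = emb (sE d) (As (Fin d)) * atl d := by
  have h1 : As (Fin (d + 1)) = ∑ q : Fin (d + 1) × Perm (Fin d),
      ((if q.1 = 0 then (1 : ℤ) else -1) * (Perm.sign q.2 : ℤ)) •
        (g ((q.2⁻¹).viaEmbedding (sE d)) * g (swap 0 q.1)) := by
    rw [As_inv]
    refine Fintype.sum_equiv Perm.decomposeFin _ _ (fun s => ?_)
    obtain ⟨⟨p, e⟩, rfl⟩ := Perm.decomposeFin.symm.surjective s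
    rw [apply_symm_apply, Perm.decomposeFin.symm_sign, decomposeFin_eq, mul_inv_rev, g_mul,
      swap_inv]
    have h2 : (e.viaEmbedding (sE d))⁻¹ = (e⁻¹).viaEmbedding (sE d) := by
      rw [← Perm.viaEmbeddingHom_apply, ← Perm.viaEmbeddingHom_apply, map_inv]
    rw [h2]
    congr 1
    rw [Units.val_mul]
    split_ifs <;> rfl
  rw [h1, Fintype.sum_prod_type, Finset.sum_comm, As_inv (Fin d), map_sum, Finset.sum_mul]
  refine Finset.sum_congr rfl (fun e _ => ?_)
  rw [atl_eq, Finset.mul_sum]
  refine Finset.sum_congr rfl (fun p _ => ?_)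
  rw [emb_zsmul, emb_g, smul_mul_smul_comm, mul_comm]

section top2

variable {N : ℕ} {X : Type} [Fintype X] [DecidableEq X] {d : ℕ}

variable (X d) in
/-- The signed coset sum on the block. -/
noncomputable def at' : P (X ⊕ Fin (d + 1)) := emb Function.Embedding.inr (atl d)

theorem viaEmbedding_swap {α β : Type} [DecidableEq α] [DecidableEq β] (ι : α ↪ β) (x y : α) :
    (swap x y).viaEmbedding ι = swap (ι x) (ι y) := by
  ext z
  by_cases hz : z ∈ Set.range ι
  · obtain ⟨u, rfl⟩ := hz
    rw [Perm.viaEmbedding_apply, ι.injective.swap_apply]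
  · rw [Perm.viaEmbedding_apply_of_notMem _ _ _ hz, swap_apply_of_ne_of_ne]
    · rintro rfl
      exact hz ⟨x, rfl⟩
    · rintro rfl
      exact hz ⟨y, rfl⟩

theorem at'_eq : at' X d = 1 - sT X (0 : Fin (d + 1)) := by
  unfold at' atl sT
  rw [map_sub, map_one, map_sum]
  congr 1
  have h1 : (univ.erase (0 : Fin (d + 1))) = univ.map (sE d) := by
    ext x
    rw [Finset.mem_erase, Finset.mem_map]
    refine ⟨fun h => ?_, fun h => ?_⟩
    · obtain ⟨y, hy⟩ := Fin.exists_succ_eq.2 h.1
      exact ⟨y, mem_univ _, hy⟩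
    · obtain ⟨y, _, hy⟩ := h
      refine ⟨?_, mem_univ _⟩
      rw [← hy]
      exact Fin.succ_ne_zero y
  rw [h1, Finset.sum_map]
  refine Finset.sum_congr rfl (fun t _ => ?_)
  rw [emb_g, viaEmbedding_swap]
  rfl

/-- Alternating under the block. -/
def Alt (x : W N (X ⊕ Fin (d + 1))) : Prop :=
  ∀ (σ : Perm (Fin (d + 1))) w v, x (Sum.elim w (v ∘ σ)) = ((Perm.sign σ : ℤ) : ℚ) * x (Sum.elim w v)

variable (N X d) in
/-- The element `h`. -/
noncomputable def hh : P (X ⊕ Fin (d + 1)) := at' X d * (yy N X (0 : Fin (d + 1))) ^ d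

/-- The eigenvalue. -/
def PP (Q : ℤ) (s : Fin (d + 1) → Fin N) : ℤ := ∑ k, phi Q s d k

theorem act_at' (x : W N (X ⊕ Fin (d + 1))) (w : X → Fin N) (v : Fin (d + 1) → Fin N) :
    act N _ (at' X d) x (Sum.elim w v) =
      x (Sum.elim w v) - ∑ t ∈ univ.erase (0 : Fin (d + 1)), x (Sum.elim w (v ∘ swap 0 t)) := by
  rw [at'_eq, act_sub, act_one, Pi.sub_apply, act_sT]

theorem Top.hh {s : ℕ} {x : W N (X ⊕ Fin (d + 1))} (ht : Top s x) (hx : HW x) :
    Top s (act N _ (H4.hh N X d) x) := by
  intro w v hv
  have h1 := (ht.yy_pow hx (0 : Fin (d + 1)) d).1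
  rw [H4.hh, act_mul, act_at', h1 _ _ hv, zero_sub, neg_eq_zero]
  refine Finset.sum_eq_zero (fun t _ => ?_)
  exact h1 _ _ (by rw [hgt_comp]; exact hv)

theorem hh_comp {Q : ℤ} {s : Fin (d + 1) → Fin N} (hs : Function.Injective s)
    {x : W N (X ⊕ Fin (d + 1))} (hx : HW x)
    (ht : Top (hgt s) x) (hwt : ∀ w, x (Sum.elim w s) ≠ 0 → ∀ a,
      (cnt w a : ℤ) = (Q - 1) * ((N : ℤ) - 1 - (a : ℕ)))
    (halt : Alt x) (σ : Perm (Fin (d + 1))) (w : X → Fin N) :
      act N _ (hh N X d) x (Sum.elim w (s ∘ σ)) = (PP Q s : ℚ) * x (Sum.elim w (s ∘ σ)) := by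
  have h1 := phi_spec hs hx ht hwt halt (0 : Fin (d + 1)) d
  rw [hh, act_mul, act_at', h1 σ w]
  have h2 : ∀ t ∈ univ.erase (0 : Fin (d + 1)),
      act N _ ((yy N X (0 : Fin (d + 1))) ^ d) x (Sum.elim w ((s ∘ ⇑σ) ∘ ⇑(swap 0 t))) =
        -(((Perm.sign σ : ℤ) : ℚ) * phi Q s d (σ t) * x (Sum.elim w s)) := by
    intro t ht
    have h3 : (s ∘ ⇑σ) ∘ ⇑(swap 0 t) = s ∘ ⇑(σ * swap 0 t) := rfl
    rw [h3, h1, Perm.sign_mul, Perm.sign_swap (Finset.ne_of_mem_erase ht).symm, Perm.mul_apply,
      swap_apply_left]
    push_cast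
    ring
  rw [Finset.sum_congr rfl h2, Finset.sum_neg_distrib, sub_neg_eq_add, Finset.add_sum_erase
    univ (fun t => ((Perm.sign σ : ℤ) : ℚ) * (phi Q s d (σ t) : ℚ) * x (Sum.elim w s)) (mem_univ _),
    Equiv.sum_comp σ (fun t => ((Perm.sign σ : ℤ) : ℚ) * (phi Q s d t : ℚ) * x (Sum.elim w s)),
    ← Finset.sum_mul, ← Finset.mul_sum, halt σ w s]
  unfold PP
  push_cast
  ring

/-! ### Commutation -/

theorem commute_yy_emb {T : Type} [Fintype T] [DecidableEq T] (l : T) {β : Type} (ι : β ↪ X ⊕ T)
    (h1 : ∀ (σ : Perm β), ∀ z, z ≠ Sum.inr l → σ.viaEmbedding ι z ≠ Sum.inr l)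
    (h2 : ∀ (σ : Perm β), σ.viaEmbedding ι (Sum.inr l) = Sum.inr l) (y : P β) :
    Commute (emb ι y) (yy N X l) := by
  have h0 : yy N X l = ∑ z ∈ univ.erase (Sum.inr l : X ⊕ T), g (swap (Sum.inr l) z) +
      ((N : ℤ) - 1) • 1 := by
    unfold yy sX sT
    congr 1
    have : (univ.erase (Sum.inr l : X ⊕ T)) = (univ : Finset X).disjSum (univ.erase l) := by
      ext z
      rcases z with i | t
      · simp
      · simp [Sum.inr_injective.ne_iff]
    rw [this, Finset.sum_disjSum]
    congr 1
    exact Finset.sum_congr rfl (fun i _ => by rw [swap_comm])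
  rw [h0]
  refine commute_of_g ι (fun σ => ?_) y
  refine Commute.add_right ?_ ?_
  · unfold Commute SemiconjBy
    rw [Finset.mul_sum, Finset.sum_mul]
    refine Finset.sum_bij (fun z _ => σ.viaEmbedding ι z) ?_ ?_ ?_ ?_
    · intro z hz
      rw [Finset.mem_erase] at hz ⊢
      exact ⟨h1 σ z hz.1, mem_univ _⟩
    · intro a _ b _ h
      exact (σ.viaEmbedding ι).injective h
    · intro z hz
      rw [Finset.mem_erase] at hz
      refine ⟨(σ.viaEmbedding ι).symm z, ?_, by simp⟩
      rw [Finset.mem_erase]
      refine ⟨fun h => hz.1 ?_, mem_univ _⟩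
      have := congrArg (σ.viaEmbedding ι) h
      rw [apply_symm_apply, h2] at this
      exact this
    · intro z _
      rw [← g_mul, ← g_mul, mul_swap_eq_swap_mul, h2]
  · exact ((Commute.one_right _).smul_right _)

theorem commute_yy_inl {T : Type} [Fintype T] [DecidableEq T] (l : T) (y : P X) :
    Commute (emb Function.Embedding.inl y) (yy N X l) := by
  refine commute_yy_emb l Function.Embedding.inl (fun σ z hz => ?_) (fun σ => ?_) y
  · rcases z with i | t
    · have := Perm.viaEmbedding_apply σ (Function.Embedding.inl : X ↪ X ⊕ T) i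
      rw [Function.Embedding.inl_apply] at this
      rw [this]
      simp
    · rw [Perm.viaEmbedding_apply_of_notMem]
      · exact hz
      · rintro ⟨i, hi⟩
        cases hi
  · rw [Perm.viaEmbedding_apply_of_notMem]
    rintro ⟨i, hi⟩
    cases hi

/-- The embedding of the smaller block. -/
def sX' (X : Type) (d : ℕ) : X ⊕ Fin d ↪ X ⊕ Fin (d + 1) :=
  ⟨Sum.map id Fin.succ, Function.injective_id.sumMap (Fin.succ_injective d)⟩

theorem commute_yy_succ (y : P (X ⊕ Fin d)) :
    Commute (emb (sX' X d) y) (yy N X (0 : Fin (d + 1))) := by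
  have h0 : ∀ z : X ⊕ Fin (d + 1), z ≠ Sum.inr 0 → z ∈ Set.range (sX' X d) := by
    intro z hz
    rcases z with i | t
    · exact ⟨Sum.inl i, rfl⟩
    · have ht : t ≠ 0 := fun e => hz (by rw [e])
      obtain ⟨u, hu⟩ := Fin.exists_succ_eq.2 ht
      exact ⟨Sum.inr u, by rw [← hu]; rfl⟩
  have h1 : (Sum.inr 0 : X ⊕ Fin (d + 1)) ∉ Set.range (sX' X d) := by
    rintro ⟨z, hz⟩
    rcases z with i | t
    · cases hz
    · exact Fin.succ_ne_zero t (Sum.inr_injective hz)
  refine commute_yy_emb 0 (sX' X d) (fun σ z hz => ?_) (fun σ => ?_) y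
  · obtain ⟨u, rfl⟩ := h0 z hz
    rw [Perm.viaEmbedding_apply]
    intro h
    exact h1 ⟨_, h⟩
  · exact Perm.viaEmbedding_apply_of_notMem _ _ _ h1

theorem commute_at'_inl (y : P X) : Commute (emb Function.Embedding.inl y) (at' X d) :=
  commute_emb_emb _ _ (fun _ _ => by simp) _ _

end top2

end Pool.PI34.H4

end

/-! ### part H4_Top3 -/
section

/-!
PI34, block H4, file 7: a polynomial of `h` kills the alternating words over `z`.
-/

set_option autoImplicit false
set_option linter.unusedSectionVars false
set_option linter.unusedDecidableInType false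
set_option linter.unusedFintypeInType false

namespace Pool.PI34.H4

open Equiv Finset Polynomial

section top3

variable {N : ℕ} {X : Type} [Fintype X] [DecidableEq X] {d : ℕ}

theorem elim_split {T : Type} (w : X ⊕ T → Fin N) : w = Sum.elim (w ∘ Sum.inl) (w ∘ Sum.inr) :=
  (Sum.elim_comp_inl_inr w).symm

theorem act_g_inr {T : Type} [Fintype T] [DecidableEq T] (σ : Perm T) (x : W N (X ⊕ T))
    (w : X → Fin N) (v : T → Fin N) :
    act N _ (g (σ.viaEmbedding Function.Embedding.inr)) x (Sum.elim w v) =
      x (Sum.elim w (v ∘ σ)) := by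
  rw [act_g]
  congr 1
  funext z
  rcases z with i | t
  · rw [Function.comp_apply, Perm.viaEmbedding_apply_of_notMem]
    · rfl
    · rintro ⟨t, ht⟩
      cases ht
  · have := Perm.viaEmbedding_apply σ (Function.Embedding.inr : T ↪ X ⊕ T) t
    rw [Function.Embedding.inr_apply] at this
    rw [Function.comp_apply, this]
    rfl

theorem Alt_iff (x : W N (X ⊕ Fin (d + 1))) : Alt x ↔ ∀ σ : Perm (Fin (d + 1)),
    act N _ (g (σ.viaEmbedding Function.Embedding.inr)) x = (Perm.sign σ : ℤ) • x := by
  constructor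
  · intro h σ
    funext w
    rw [elim_split w, act_g_inr, h σ, Pi.smul_apply, zsmul_eq_mul]
  · intro h σ w v
    rw [← act_g_inr σ x w v, h σ, Pi.smul_apply, zsmul_eq_mul]

variable (X d) in
/-- The signed sum of the block. -/
noncomputable def AA : P (X ⊕ Fin (d + 1)) := emb Function.Embedding.inr (As (Fin (d + 1)))

variable (X d) in
/-- The signed sum of the smaller block. -/
noncomputable def BB : P (X ⊕ Fin (d + 1)) :=
  emb Function.Embedding.inr (emb (sE d) (As (Fin d)))

theorem AA_eq : AA X d = at' X d * BB X d := by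
  unfold AA at' BB
  rw [As_succ, map_mul]

theorem AA_eq' : AA X d = BB X d * at' X d := by
  unfold AA at' BB
  rw [As_succ', map_mul]

theorem BB_eq : BB X d = emb (sX' X d) (emb Function.Embedding.inr (As (Fin d))) := by
  unfold BB
  rw [emb_trans, emb_trans]
  rfl

theorem Alt_AA (u : W N (X ⊕ Fin (d + 1))) : Alt (act N _ (AA X d) u) := by
  rw [Alt_iff]
  intro σ
  rw [← act_mul, AA, ← emb_g, ← map_mul, g_mul_As, emb_zsmul, act_zsmul]

theorem Alt.smul_iff {x : W N (X ⊕ Fin (d + 1))} {m : ℤ} (hm : m ≠ 0) (h : Alt (m • x)) :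
    Alt x := by
  intro σ w v
  have h1 := h σ w v
  rw [Pi.smul_apply, Pi.smul_apply, zsmul_eq_mul, zsmul_eq_mul] at h1
  have hm' : (m : ℚ) ≠ 0 := by exact_mod_cast hm
  apply mul_left_cancel₀ hm'
  rw [h1]
  ring

theorem Alt.BB {x : W N (X ⊕ Fin (d + 1))} (h : Alt x) :
    act N _ (H4.BB X d) x = (d.factorial : ℤ) • x := by
  rw [Alt_iff] at h
  unfold H4.BB As
  rw [map_sum, map_sum, act_sum]
  have h1 : ∀ e ∈ (univ : Finset (Perm (Fin d))),
      act N _ (emb Function.Embedding.inr (emb (sE d) ((Perm.sign e : ℤ) • g e))) x = x := by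
    intro e _
    rw [emb_zsmul, emb_zsmul, emb_g, emb_g, act_zsmul, h, smul_smul]
    have h2 : Perm.sign (e.viaEmbedding (sE d)) = Perm.sign e := by
      have := Perm.decomposeFin.symm_sign (0 : Fin (d + 1)) e
      rw [decomposeFin_eq, if_pos rfl, one_mul, swap_self] at this
      exact this
    rw [h2, sign_sq, one_smul]
  rw [Finset.sum_congr rfl h1, Finset.sum_const, Finset.card_univ, Fintype.card_perm,
    Fintype.card_fin]
  rw [natCast_zsmul]

theorem Alt.at' {x : W N (X ⊕ Fin (d + 1))} (h : Alt x) :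
    act N _ (H4.at' X d) x = ((d : ℤ) + 1) • x := by
  funext w
  rw [elim_split w, act_at']
  have h1 : ∀ t ∈ univ.erase (0 : Fin (d + 1)),
      x (Sum.elim (w ∘ Sum.inl) ((w ∘ Sum.inr) ∘ swap 0 t)) =
        - x (Sum.elim (w ∘ Sum.inl) (w ∘ Sum.inr)) := by
    intro t ht
    rw [h, Perm.sign_swap (Finset.ne_of_mem_erase ht).symm]
    simp
  rw [Finset.sum_congr rfl h1, Finset.sum_const, Finset.card_erase_of_mem (mem_univ _),
    Finset.card_univ, Fintype.card_fin, Pi.smul_apply, zsmul_eq_mul, nsmul_eq_mul]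
  push_cast
  simp
  ring

theorem commute_yy_BB (N : ℕ) : Commute (BB X d) (yy N X (0 : Fin (d + 1))) := by
  rw [BB_eq]
  exact commute_yy_succ _

theorem Alt.hh {x : W N (X ⊕ Fin (d + 1))} (h : Alt x) : Alt (act N _ (H4.hh N X d) x) := by
  have h1 : (d.factorial : ℤ) • act N _ (H4.hh N X d) x =
      act N _ (H4.AA X d) (act N _ ((yy N X (0 : Fin (d + 1))) ^ d) x) := by
    rw [AA_eq, act_mul, ← act_mul N (H4.BB X d), ((commute_yy_BB N).pow_right d).eq, act_mul,
      h.BB, map_zsmul, map_zsmul, H4.hh, act_mul]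
  refine Alt.smul_iff (m := (d.factorial : ℤ)) (by exact_mod_cast d.factorial_ne_zero) ?_
  rw [h1]
  exact Alt_AA _

theorem SA_yy : SA N (yy N X (0 : Fin (d + 1))) := by
  unfold yy sX sT
  exact ((SA.sum _ _ (fun _ _ => SA_swap _ _)).add (SA.sum _ _ (fun _ _ => SA_swap _ _))).add
    (SA_one.zsmul _)

theorem SA.neg {α : Type} [Fintype α] [DecidableEq α] {x : P α} (hx : SA N x) : SA N (-x) := by
  have := hx.zsmul (-1)
  rwa [neg_smul, one_smul] at this

theorem SA_at' : SA N (at' X d) := by
  rw [at'_eq, sub_eq_add_neg]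
  exact SA_one.add (SA.neg (SA.sum _ _ (fun _ _ => SA_swap _ _)))

theorem SA.pow {α : Type} [Fintype α] [DecidableEq α] {x : P α} (hx : SA N x) (n : ℕ) :
    SA N (x ^ n) := by
  induction n with
  | zero => rw [pow_zero]; exact SA_one
  | succ n ih =>
    rw [pow_succ]
    exact ih.mul hx ((Commute.refl x).pow_left n)

theorem ip_hh {x x' : W N (X ⊕ Fin (d + 1))} (h : Alt x) (h' : Alt x') :
    ip (act N _ (hh N X d) x) x' = ip x (act N _ (hh N X d) x') := by
  rw [hh, act_mul, act_mul, SA_at', h'.at', ← SA_at' x, h.at', ip_zsmul_left, ip_zsmul_right,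
    SA_yy.pow d x x']

theorem ip_aeval_hh (q : ℤ[X]) {x : W N (X ⊕ Fin (d + 1))} (h : Alt x) :
    Alt (act N _ (aeval (hh N X d) q) x) ∧ ∀ x', Alt x' →
      ip (act N _ (aeval (hh N X d) q) x) x' = ip x (act N _ (aeval (hh N X d) q) x') := by
  induction q using Polynomial.induction_on' with
  | add p q hp hq =>
    rw [map_add]
    refine ⟨?_, fun x' hx' => ?_⟩
    · intro σ w v
      rw [act_add, Pi.add_apply, Pi.add_apply, hp.1 σ, hq.1 σ]
      ring
    · rw [act_add, act_add, ip_add_left, ip_add_right, hp.2 x' hx', hq.2 x' hx']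
  | monomial n a =>
    have h1 : Alt (act N _ ((hh N X d) ^ n) x) ∧ ∀ x', Alt x' →
        ip (act N _ ((hh N X d) ^ n) x) x' = ip x (act N _ ((hh N X d) ^ n) x') := by
      induction n with
      | zero => rw [pow_zero, act_one]; exact ⟨h, fun x' _ => by rw [act_one]⟩
      | succ n ih =>
        refine ⟨?_, fun x' hx' => ?_⟩
        · rw [pow_succ', act_mul]
          exact ih.1.hh
        · rw [pow_succ', act_mul, ip_hh ih.1 hx', ih.2 _ hx'.hh, ← act_mul, ← pow_succ,
            pow_succ']
    rw [aeval_monomial, Algebra.algebraMap_eq_smul_one, smul_mul_assoc, one_mul]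
    refine ⟨?_, fun x' hx' => ?_⟩
    · intro σ w v
      rw [act_zsmul, Pi.smul_apply, Pi.smul_apply, h1.1 σ, zsmul_eq_mul, zsmul_eq_mul]
      ring
    · rw [act_zsmul, act_zsmul, ip_zsmul_left, ip_zsmul_right, h1.2 x' hx']

/-- The component of maximal level. -/
theorem exists_top {T : Type} [Fintype T] [DecidableEq T] {x : W N (X ⊕ T)} (h0 : x ≠ 0) :
    ∃ w v, x (Sum.elim w v) ≠ 0 ∧ Top (hgt v) x := by
  classical
  obtain ⟨u, hu⟩ := exists_ne h0
  obtain ⟨u', hu', hmax⟩ := Finset.exists_max_image (univ.filter (fun u => x u ≠ 0))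
    (fun u => hgt (u ∘ Sum.inr)) ⟨u, by rw [mem_filter]; exact ⟨mem_univ _, hu⟩⟩
  rw [mem_filter] at hu'
  refine ⟨u' ∘ Sum.inl, u' ∘ Sum.inr, by rw [← elim_split]; exact hu'.2, fun w v hv => ?_⟩
  by_contra hne
  have h1 := hmax (Sum.elim w v) (by rw [mem_filter]; exact ⟨mem_univ _, hne⟩)
  rw [Sum.elim_comp_inr] at h1
  omega

theorem range_eq_of_cnt {v s : Fin (d + 1) → Fin N} (h : ∀ a, cnt v a = cnt s a) :
    Set.range v = Set.range s := by
  ext a
  have e : ∀ u : Fin (d + 1) → Fin N, a ∈ Set.range u ↔ cnt u a ≠ 0 := by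
    intro u
    unfold cnt
    rw [Finset.card_ne_zero]
    constructor
    · rintro ⟨x, hx⟩
      exact ⟨x, by rw [mem_filter]; exact ⟨mem_univ _, hx⟩⟩
    · rintro ⟨x, hx⟩
      rw [mem_filter] at hx
      exact ⟨x, hx.2⟩
  rw [e, e, h]

theorem inj_of_cnt {v s : Fin (d + 1) → Fin N} (h : ∀ a, cnt v a = cnt s a)
    (hs : Function.Injective s) : Function.Injective v := by
  intro x y hxy
  by_contra hne
  have h1 : 1 < cnt v (v x) := by
    unfold cnt
    rw [Finset.one_lt_card]
    exact ⟨x, by rw [mem_filter]; exact ⟨mem_univ _, rfl⟩, y,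
      by rw [mem_filter]; exact ⟨mem_univ _, hxy.symm⟩, hne⟩
  rw [h] at h1
  unfold cnt at h1
  rw [Finset.one_lt_card] at h1
  obtain ⟨a, ha, b, hb, hab⟩ := h1
  rw [mem_filter] at ha hb
  exact hab (hs (ha.2.trans hb.2.symm))

theorem top_eig {Q : ℤ} {z : P X} (hz : ZP N Q z) {x x' : W N (X ⊕ Fin (d + 1))}
    (hxz : x = act N _ (emb Function.Embedding.inl z) x') (hx : HW x) (h1 : OneW x)
    (halt : Alt x) (h0 : x ≠ 0) :
    ∃ s : Fin (d + 1) → Fin N, StrictMono s ∧ act N _ (hh N X d) x = (PP Q s) • x := by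
  obtain ⟨w0, v0, hw0, ht0⟩ := exists_top h0
  have hinj : Function.Injective v0 := by
    intro i j hij
    by_contra hne
    have h2 := halt (swap i j) w0 v0
    have h3 : v0 ∘ ⇑(swap i j) = v0 := by
      funext t
      simp only [Function.comp_apply]
      rcases eq_or_ne t i with rfl | hx
      · rw [swap_apply_left, hij]
      · rcases eq_or_ne t j with rfl | hy
        · rw [swap_apply_right, hij]
        · rw [swap_apply_of_ne_of_ne hx hy]
    rw [h3, Perm.sign_swap hne] at h2
    apply hw0
    push_cast at h2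
    linarith
  set s : Fin (d + 1) → Fin N := v0 ∘ Tuple.sort v0 with hsdef
  have hs : StrictMono s :=
    (Tuple.monotone_sort v0).strictMono_of_injective (hinj.comp (Tuple.sort v0).injective)
  have hs1 : Function.Injective s := hs.injective
  have ht : Top (hgt s) x := by
    rw [hsdef, hgt_comp]; exact ht0
  have hws : x (Sum.elim w0 s) ≠ 0 := by
    rw [hsdef, halt]
    refine mul_ne_zero ?_ hw0
    have := sign_sq (Tuple.sort v0)
    intro h
    have h2 : ((Perm.sign (Tuple.sort v0) : ℤˣ) : ℤ) = 0 := by exact_mod_cast h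
    rw [h2] at this
    simp at this
  have hwt : ∀ w, x (Sum.elim w s) ≠ 0 → ∀ a,
      (cnt w a : ℤ) = (Q - 1) * ((N : ℤ) - 1 - (a : ℕ)) :=
    fun w hw a => top_wt hz hxz hx h1 ht hw a
  refine ⟨s, hs, ?_⟩
  rw [← sub_eq_zero]
  by_contra hne
  set x1 := act N _ (hh N X d) x - (PP Q s) • x with hx1def
  have hcomm : Commute (emb Function.Embedding.inl z) (hh N X d) := by
    rw [hh]
    exact (commute_at'_inl z).mul_right ((commute_yy_inl _ z).pow_right d)
  have hx1 : x1 = act N _ (hh N X d - (PP Q s) • 1) x := by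
    rw [act_sub, act_zsmul, act_one]
  have hx1z : x1 = act N _ (emb Function.Embedding.inl z)
      (act N _ (hh N X d - (PP Q s) • 1) x') := by
    rw [hx1, ← act_mul]
    have : Commute (emb Function.Embedding.inl z) (hh N X d - (PP Q s) • (1 : P (X ⊕ Fin (d + 1)))) :=
      Commute.sub_right hcomm ((Commute.one_right _).smul_right _)
    rw [this.eq, act_mul, ← hxz]
  have hH : HW x1 := by rw [hx1]; exact hx.act _
  have hO : OneW x1 := by rw [hx1]; exact h1.act _
  obtain ⟨w1, v1, hw1, ht1⟩ := exists_top hne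
  -- the words in the support of `x1` have the letters of `x`
  have hc : ∀ a, cnt (Sum.elim w1 v1) a = cnt (Sum.elim w0 s) a := by
    have h2 : HasWt (cnt (Sum.elim w0 s)) x1 := by
      have h3 : HasWt (cnt (Sum.elim w0 s)) x := fun w hw a => h1 _ _ hw hws a
      intro w hw a
      by_contra hne'
      apply hw
      have h4 : EE a a x1 = ((cnt (Sum.elim w0 s) a : ℕ) : ℚ) • x1 := by
        rw [hx1, EE_act, h3.EE_self, map_smul]
      have h5 := congrFun h4 w
      rw [EE_self, Pi.smul_apply, smul_eq_mul] at h5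
      have h6 : ((cnt w a : ℚ) - cnt (Sum.elim w0 s) a) * x1 w = 0 := by
        rw [sub_mul, h5, sub_self]
      rcases mul_eq_zero.1 h6 with h7 | h7
      · exfalso
        apply hne'
        have : (cnt w a : ℚ) = cnt (Sum.elim w0 s) a := by linarith
        exact_mod_cast this
      · exact h7
    exact h2 _ hw1
  have hcv : ∀ a, cnt v1 a = cnt s a := by
    intro a
    have h2 := top_wt hz hx1z hH hO ht1 hw1 a
    have h3 := hwt w0 hws a
    have h4 := hc a
    rw [cnt_elim, cnt_elim] at h4
    have h5 : cnt w1 a = cnt w0 a := by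
      have : (cnt w1 a : ℤ) = cnt w0 a := by rw [h2, h3]
      exact_mod_cast this
    omega
  have hv1 : v1 ∘ Tuple.sort v1 = s := by
    have h2 : StrictMono (v1 ∘ Tuple.sort v1) :=
      (Tuple.monotone_sort v1).strictMono_of_injective
        ((inj_of_cnt hcv hs1).comp (Tuple.sort v1).injective)
    rw [← StrictMono.range_inj h2 hs, ← range_eq_of_cnt hcv, (Tuple.sort v1).surjective.range_comp]
  apply hw1
  have h2 : v1 = s ∘ ⇑(Tuple.sort v1)⁻¹ := by
    rw [← hv1]
    funext t
    simp
  rw [hx1def, Pi.sub_apply, Pi.smul_apply, h2, hh_comp hs1 hx ht hwt halt, zsmul_eq_mul, sub_self]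

variable (N d) in
/-- The polynomial. -/
noncomputable def ff (Q : ℤ) : ℤ[X] :=
  ∏ t ∈ (univ.filter (fun s : Fin (d + 1) → Fin N => StrictMono s)).image (PP Q), (Polynomial.X - Polynomial.C t)

theorem ff_kill {Q : ℤ} {z : P X} (hz : ZP N Q z) :
    act N _ (aeval (hh N X d) (ff N d Q) * (AA X d * emb Function.Embedding.inl z)) = 0 := by
  classical
  set F : P (X ⊕ Fin (d + 1)) := aeval (hh N X d) (ff N d Q) with hF
  set zz : P (X ⊕ Fin (d + 1)) := emb Function.Embedding.inl z with hzz
  have hcomm : Commute zz (hh N X d) := by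
    rw [hh]
    exact (commute_at'_inl z).mul_right ((commute_yy_inl _ z).pow_right d)
  have hcommF : Commute zz F := (Commute.aeval_left hcomm.symm _).symm
  have hcommA : Commute zz (AA X d) := commute_emb_emb _ _ (fun _ _ => by simp) _ _
  by_contra hne
  let S : Submodule ℚ (W N (X ⊕ Fin (d + 1))) :=
    LinearMap.range (act N _ (F * (AA X d * zz)))
  obtain ⟨x, hxS, hx0, hxH, hxO⟩ := exists_hw S
    (fun a b f hf => by
      obtain ⟨f', rfl⟩ := hf
      exact ⟨EE a b f', (EE_act a b _ f').symm⟩)
    (fun h => hne (LinearMap.range_eq_bot.1 h))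
  obtain ⟨f, hf⟩ := hxS
  have hx1 : x = act N _ F (act N _ (AA X d) (act N _ zz f)) := by
    rw [← hf, act_mul, act_mul]
  have hA0 : Alt (act N _ (AA X d) (act N _ zz f)) := Alt_AA _
  have hA : Alt x := by
    rw [hx1, hF]
    exact (ip_aeval_hh _ hA0).1
  have hxz : x = act N _ zz (act N _ F (act N _ (AA X d) f)) := by
    rw [hx1, ← act_mul, ← act_mul, ← act_mul, ← act_mul, mul_assoc, ← hcommA.eq, ← mul_assoc,
      ← hcommF.eq, mul_assoc]
  obtain ⟨s, hs, hs'⟩ := top_eig hz hxz hxH hxO hA hx0
  have hFx : act N _ F x = 0 := by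
    rw [hF, aeval_eig hs']
    have : (ff N d Q).eval (PP Q s) = 0 := by
      rw [ff, Polynomial.eval_prod]
      refine Finset.prod_eq_zero (i := PP Q s) ?_ ?_
      · exact Finset.mem_image_of_mem _ (by rw [mem_filter]; exact ⟨mem_univ _, hs⟩)
      · rw [eval_sub, eval_X, eval_C, sub_self]
    rw [this, zero_smul]
  apply hx0
  apply ip_self_eq_zero
  have h1 : ip x x = ip (act N _ (AA X d) (act N _ zz f)) (act N _ F x) := by
    conv_lhs => rw [hx1]
    rw [hF]
    rw [(ip_aeval_hh _ hA0).2 _ (by rw [← hF, ← hx1]; exact hA), ← hF, ← hx1]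
  rw [h1, hFx, ip_zero_right]

end top3

end Pool.PI34.H4

end
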