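import Pool.Agent.LibPI54.M01
import Pool.Agent.LibPI54.M04

/-! ### part SK1 -/
section

/-!
PI34, E-block for odd primes, file SK1: general coefficients: signs and the signed action.
`A` is the coefficient ring of the group algebra, `K` (an `A`-algebra) the coefficient ring of the
functions on words.
-/

set_option linter.unusedSectionVars false
set_option linter.unusedSimpArgs false

namespace Pool.PI34.SK

open Equiv Finset
open Pool.PI34.Super (Lt odd prs mem_prs prod_prs_perm pv)

section signs

variable {K : Type} [CommRing K] {ι : Type*} [Fintype ι] [LinearOrder ι]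

/-- `H σ i j = 1` if `σ` keeps the order of `i, j`, and `-1` otherwise. -/
def H (σ : Perm ι) (i j : ι) : K := if (i < j ↔ σ i < σ j) then 1 else -1

theorem H_symm (σ : Perm ι) (i j : ι) : (H σ i j : K) = H σ j i := by
  rcases lt_trichotomy i j with h | h | h
  · have h1 : σ i ≠ σ j := fun e => h.ne (σ.injective e)
    rcases lt_or_gt_of_ne h1 with h2 | h2
    · simp [H, h, h.le, h2, h2.le, not_lt.2 h.le, not_lt.2 h2.le]
    · simp [H, h, h.le, h2, h2.le, not_lt.2 h.le, not_lt.2 h2.le]
  · rw [h]
  · have h1 : σ i ≠ σ j := fun e => h.ne' (σ.injective e)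
    rcases lt_or_gt_of_ne h1 with h2 | h2
    · simp [H, h, h.le, h2, h2.le, not_lt.2 h.le, not_lt.2 h2.le]
    · simp [H, h, h.le, h2, h2.le, not_lt.2 h.le, not_lt.2 h2.le]

theorem H_mul (σ τ : Perm ι) (i j : ι) : (H (σ * τ) i j : K) = H σ (τ i) (τ j) * H τ i j := by
  unfold H
  simp only [Perm.mul_apply]
  by_cases h1 : i < j <;> by_cases h2 : τ i < τ j <;> by_cases h3 : σ (τ i) < σ (τ j) <;>
    simp [h1, h2, h3]

theorem H_one (i j : ι) : (H (1 : Perm ι) i j : K) = 1 := by simp [H]

/-- The sign of `σ` on the odd positions (with parity vector `p`). -/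
def eps (σ : Perm ι) (p : ι → Bool) : K :=
  ∏ q ∈ prs ι, if p q.1 && p q.2 then H σ q.1 q.2 else 1

theorem eps_mul (σ τ : Perm ι) (p : ι → Bool) :
    (eps (σ * τ) p : K) = eps σ (fun i => p (τ.symm i)) * eps τ p := by
  have h := prod_prs_perm (fun i j => if p (τ.symm i) && p (τ.symm j) then (H σ i j : K) else 1)
    (fun i j => by rw [H_symm, Bool.and_comm]) τ
  unfold eps
  rw [← h, ← Finset.prod_mul_distrib]
  refine Finset.prod_congr rfl (fun q _ => ?_)
  simp only [Equiv.symm_apply_apply]
  by_cases hq : (p q.1 && p q.2) = true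
  · simp only [hq, if_true, H_mul]
  · simp [hq]

theorem eps_one (p : ι → Bool) : (eps (1 : Perm ι) p : K) = 1 := by
  unfold eps
  exact Finset.prod_eq_one (fun q _ => by simp [H_one])

theorem H_sq (σ : Perm ι) (i j : ι) : (H σ i j * H σ i j : K) = 1 := by
  unfold H; split_ifs <;> simp

theorem eps_sq (σ : Perm ι) (p : ι → Bool) : (eps σ p * eps σ p : K) = 1 := by
  unfold eps
  rw [← Finset.prod_mul_distrib]
  refine Finset.prod_eq_one (fun q _ => ?_)
  split_ifs
  · exact H_sq _ _ _
  · simp

end signs

section action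

variable (A K : Type) [CommRing A] [CommRing K] [Algebra A K]
variable (k l : ℕ) (ι : Type*) [Fintype ι] [LinearOrder ι]

/-- The tensor power as functions on words. -/
abbrev W := (ι → Lt k l) → K

variable {K k l ι}

/-- The signed action of a permutation. -/
def rhoFun (σ : Perm ι) : W K k l ι →ₗ[K] W K k l ι where
  toFun f := fun w => eps σ (pv (w ∘ σ)) * f (w ∘ σ)
  map_add' f g := by funext w; simp [mul_add]
  map_smul' c f := by funext w; simp; ring

theorem rhoFun_apply (σ : Perm ι) (f : W K k l ι) (w : ι → Lt k l) :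
    rhoFun σ f w = eps σ (pv (w ∘ σ)) * f (w ∘ σ) := rfl

variable (K k l ι)

/-- The signed action as a representation. -/
def rho : Perm ι →* Module.End K (W K k l ι) where
  toFun := rhoFun
  map_one' := by
    apply LinearMap.ext; intro f; funext w
    simp [rhoFun_apply, eps_one]
  map_mul' σ τ := by
    apply LinearMap.ext; intro f; funext w
    simp only [Module.End.mul_apply, rhoFun_apply]
    have h1 : w ∘ ⇑(σ * τ) = (w ∘ σ) ∘ τ := by funext i; simp
    rw [h1, eps_mul]
    have h2 : (fun i => pv ((w ∘ σ) ∘ τ) (τ.symm i)) = pv (w ∘ σ) := by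
      funext i; simp [pv]
    rw [h2]; ring

/-- The action of the group algebra. -/
noncomputable def act : MonoidAlgebra A (Perm ι) →ₐ[A] Module.End K (W K k l ι) :=
  MonoidAlgebra.lift A _ _ (rho K k l ι)

variable {A K k l ι}

theorem rho_apply (σ : Perm ι) (f : W K k l ι) (w : ι → Lt k l) :
    rho K k l ι σ f w = eps σ (pv (w ∘ σ)) * f (w ∘ σ) := rfl

theorem act_single (σ : Perm ι) (a : A) :
    act A K k l ι (MonoidAlgebra.single σ a) = a • rho K k l ι σ := by
  simp [act, MonoidAlgebra.lift_single]

theorem act_of (σ : Perm ι) :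
    act A K k l ι (MonoidAlgebra.of A _ σ) = rho K k l ι σ := by
  simp [act]

theorem act_smul_apply (a : A) (y : MonoidAlgebra A (Perm ι)) (f : W K k l ι) :
    act A K k l ι (a • y) f = algebraMap A K a • act A K k l ι y f := by
  rw [map_smul, LinearMap.smul_apply, algebraMap_smul]

theorem act_eq_super (y : MonoidAlgebra ℚ (Perm ι)) :
    act ℚ ℚ k l ι y = Pool.PI34.Super.act k l ι y := rfl

/-- Change of the coefficient ring of the group algebra. -/
theorem act_map (y : MonoidAlgebra A (Perm ι)) :
    act K K k l ι (MonoidAlgebra.mapRingHom (Perm ι) (algebraMap A K) y)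
      = act A K k l ι y := by
  induction y using MonoidAlgebra.induction_on with
  | of σ =>
    rw [act_of, MonoidAlgebra.of_apply, MonoidAlgebra.mapRingHom_single, map_one,
      act_single, one_smul]
  | add x y hx hy => rw [map_add, map_add, map_add, hx, hy]
  | smul r x hx =>
    have h1 : MonoidAlgebra.mapRingHom (Perm ι) (algebraMap A K) (r • x)
        = algebraMap A K r • MonoidAlgebra.mapRingHom (Perm ι) (algebraMap A K) x := by
      ext g
      simp [Algebra.smul_def]
    rw [h1, map_smul, map_smul, hx, algebraMap_smul]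

/-- Change of the coefficient ring of the words. -/
def bc (A K : Type) [CommRing A] [CommRing K] [Algebra A K] {k l : ℕ} {ι : Type*}
    (f : W A k l ι) : W K k l ι := fun w => algebraMap A K (f w)

theorem bc_H (σ : Perm ι) (i j : ι) : algebraMap A K (H σ i j) = H σ i j := by
  unfold H; split_ifs <;> simp

theorem bc_eps (σ : Perm ι) (p : ι → Bool) : algebraMap A K (eps σ p) = eps σ p := by
  unfold eps
  rw [map_prod]
  refine Finset.prod_congr rfl (fun q _ => ?_)
  split_ifs
  · exact bc_H _ _ _
  · simp

theorem act_bc (y : MonoidAlgebra A (Perm ι)) (f : W A k l ι) :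
    act A K k l ι y (bc A K f) = bc A K (act A A k l ι y f) := by
  induction y using MonoidAlgebra.induction_on with
  | of σ =>
    rw [act_of, act_of]
    funext w
    simp only [rho_apply, bc, map_mul, bc_eps]
  | add x y hx hy =>
    rw [map_add, map_add, LinearMap.add_apply, LinearMap.add_apply, hx, hy]
    funext w
    simp [bc]
  | smul r x hx =>
    rw [act_smul_apply, act_smul_apply, hx]
    funext w
    simp [bc]

end action

end Pool.PI34.SK

end

/-! ### part H4_Split -/
section

/-!
PI34, block H4, file 8: the splitting element of one block.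
-/

set_option autoImplicit false
set_option linter.unusedSectionVars false
set_option linter.unusedDecidableInType false
set_option linter.unusedFintypeInType false

namespace Pool.PI34.H4

open Equiv Finset Polynomial

section split

variable {N : ℕ} {X : Type} [Fintype X] [DecidableEq X] {d : ℕ}

theorem phi_mod (Q : ℤ) {s : Fin (d + 1) → Fin N} (hs : StrictMono s) (j : ℕ) (hj : j ≤ d) :
    ∀ k : Fin (d + 1), (d - j < (k : ℕ) → Q ∣ phi Q s j k) ∧
      ((k : ℕ) = d - j → Q ∣ phi Q s j k - (-1) ^ j) := by
  induction j with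
  | zero =>
    intro k
    refine ⟨fun h => ?_, fun _ => ?_⟩
    · have := k.2
      omega
    · simp [phi]
  | succ j ih =>
    intro k
    have ih' := ih (by omega)
    have hmem : ∀ b : Fin (d + 1), b ∈ univ.filter (fun b => s k < s b) ↔ k < b := by
      intro b
      rw [mem_filter, hs.lt_iff_lt]
      simp
    refine ⟨fun h => ?_, fun h => ?_⟩
    · rw [phi, mul_assoc]
      refine dvd_sub (Dvd.intro _ rfl) (Finset.dvd_sum (fun b hb => ?_))
      rw [hmem] at hb
      refine (ih' b).1 ?_
      have : (k : ℕ) < b := hb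
      omega
    · rw [phi]
      have hd : (d - j) < d + 1 := by omega
      have h1 : (⟨d - j, hd⟩ : Fin (d + 1)) ∈ univ.filter (fun b => s k < s b) := by
        rw [hmem, Fin.lt_def]
        simp only
        omega
      rw [← Finset.add_sum_erase _ _ h1]
      have h2 : Q ∣ ∑ b ∈ (univ.filter (fun b => s k < s b)).erase ⟨d - j, hd⟩, phi Q s j b := by
        refine Finset.dvd_sum (fun b hb => ?_)
        rw [Finset.mem_erase, hmem] at hb
        refine (ih' b).1 ?_
        have h3 : (k : ℕ) < b := hb.2
        have h4 : (b : ℕ) ≠ d - j := fun e => hb.1 (Fin.ext e)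
        omega
      have h3 := (ih' ⟨d - j, hd⟩).2 rfl
      have h4 : Q * ((N : ℤ) - 1 - (s k : ℕ)) * phi Q s j k -
          (phi Q s j ⟨d - j, hd⟩ + ∑ b ∈ (univ.filter (fun b => s k < s b)).erase ⟨d - j, hd⟩,
            phi Q s j b) - (-1) ^ (j + 1) =
          Q * (((N : ℤ) - 1 - (s k : ℕ)) * phi Q s j k) - (phi Q s j ⟨d - j, hd⟩ - (-1) ^ j) -
            ∑ b ∈ (univ.filter (fun b => s k < s b)).erase ⟨d - j, hd⟩, phi Q s j b := by
        rw [pow_succ]
        ring
      rw [h4]
      exact dvd_sub (dvd_sub (Dvd.intro _ rfl) h3) h2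

theorem PP_mod (Q : ℤ) {s : Fin (d + 1) → Fin N} (hs : StrictMono s) :
    Q ∣ PP Q s - (-1) ^ d := by
  unfold PP
  rw [← Finset.add_sum_erase _ _ (mem_univ (0 : Fin (d + 1)))]
  have h1 := (phi_mod Q hs d le_rfl 0).2 (by simp)
  have h2 : Q ∣ ∑ k ∈ univ.erase (0 : Fin (d + 1)), phi Q s d k := by
    refine Finset.dvd_sum (fun k hk => ?_)
    refine (phi_mod Q hs d le_rfl k).1 ?_
    rw [Nat.sub_self]
    exact Nat.pos_of_ne_zero (fun e => (Finset.ne_of_mem_erase hk) (Fin.ext e))
  have h3 : phi Q s d 0 + ∑ k ∈ univ.erase (0 : Fin (d + 1)), phi Q s d k - (-1) ^ d =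
      (phi Q s d 0 - (-1) ^ d) + ∑ k ∈ univ.erase (0 : Fin (d + 1)), phi Q s d k := by ring
  rw [h3]
  exact dvd_add h1 h2

theorem PP_coprime (Q : ℤ) {s : Fin (d + 1) → Fin N} (hs : StrictMono s) :
    IsCoprime (PP Q s) Q := by
  obtain ⟨m, hm⟩ := PP_mod Q hs
  have h1 : PP Q s = (-1) ^ d + Q * m := by linarith
  rw [h1]
  refine ⟨(-1) ^ d, -((-1) ^ d * m), ?_⟩
  have h2 : ((-1 : ℤ) ^ d) * (-1) ^ d = 1 := by
    rw [← mul_pow]; norm_num
  linear_combination h2

theorem ff_coprime (Q : ℤ) : IsCoprime ((ff N d Q).coeff 0) Q := by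
  rw [Polynomial.coeff_zero_eq_eval_zero, ff, Polynomial.eval_prod]
  refine IsCoprime.prod_left (fun t ht => ?_)
  obtain ⟨s, hs, rfl⟩ := Finset.mem_image.1 ht
  rw [mem_filter] at hs
  rw [eval_sub, eval_X, eval_C, zero_sub]
  exact (PP_coprime Q hs.2).neg_left

theorem commute_atl (y : P (Fin d)) : Commute (emb (sE d) y) (atl d) := by
  refine commute_of_g (sE d) (fun σ => ?_) y
  unfold atl
  refine Commute.sub_right (Commute.one_right _) ?_
  unfold Commute SemiconjBy
  rw [Finset.mul_sum, Finset.sum_mul]
  refine Fintype.sum_equiv σ _ _ (fun t => ?_)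
  rw [← g_mul, ← g_mul, mul_swap_eq_swap_mul]
  have h1 : σ.viaEmbedding (sE d) 0 = 0 := by
    refine Perm.viaEmbedding_apply_of_notMem _ _ _ ?_
    rintro ⟨y, hy⟩
    exact Fin.succ_ne_zero y hy
  have h2 : σ.viaEmbedding (sE d) t.succ = (σ t).succ := Perm.viaEmbedding_apply σ (sE d) t
  rw [h1, h2]

theorem commute_BB_at' : Commute (BB X d) (at' X d) := by
  unfold BB at'
  exact (commute_atl _).map (emb Function.Embedding.inr)

theorem commute_BB_hh (N : ℕ) : Commute (BB X d) (hh N X d) := by
  unfold hh
  exact commute_BB_at'.mul_right ((commute_yy_BB N).pow_right d)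

theorem commute_inl_hh (N : ℕ) (y : P X) :
    Commute (emb Function.Embedding.inl y) (hh N X d) := by
  unfold hh
  exact (commute_at'_inl y).mul_right ((commute_yy_inl _ y).pow_right d)

variable (X d) in
/-- The correction. -/
noncomputable def TTt (N : ℕ) (Q : ℤ) : P (X ⊕ Fin (d + 1)) :=
  (yy N X (0 : Fin (d + 1))) ^ d * aeval (hh N X d) (-(divX (ff N d Q)))

theorem commute_BB_TTt (N : ℕ) (Q : ℤ) : Commute (BB X d) (TTt X d N Q) := by
  unfold TTt
  exact ((commute_yy_BB N).pow_right d).mul_right
    (Commute.aeval_left (commute_BB_hh N).symm _).symm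

theorem commute_inl_TTt (N : ℕ) (Q : ℤ) (y : P X) :
    Commute (emb Function.Embedding.inl y) (TTt X d N Q) := by
  unfold TTt
  exact ((commute_yy_inl _ y).pow_right d).mul_right
    (Commute.aeval_left (commute_inl_hh N y).symm _).symm

theorem at'_mul_TTt (N : ℕ) (Q : ℤ) : at' X d * TTt X d N Q =
    (ff N d Q).coeff 0 • 1 - aeval (hh N X d) (ff N d Q) := by
  unfold TTt
  rw [← mul_assoc]
  change hh N X d * aeval (hh N X d) (-(divX (ff N d Q))) = _
  have h1 : ff N d Q = divX (ff N d Q) * Polynomial.X + Polynomial.C ((ff N d Q).coeff 0) :=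
    (divX_mul_X_add _).symm
  have h2 : hh N X d * aeval (hh N X d) (-(divX (ff N d Q))) =
      aeval (hh N X d) (-(divX (ff N d Q)) * Polynomial.X) := by
    rw [map_mul, aeval_X]
    exact (Commute.aeval_left (Commute.refl _) _).symm
  rw [h2]
  have h3 : -(divX (ff N d Q)) * Polynomial.X =
      Polynomial.C ((ff N d Q).coeff 0) - ff N d Q := by
    conv_rhs => rw [h1]
    simp only [coeff_add, coeff_mul_X_zero, coeff_C_zero, zero_add]
    ring
  rw [h3, map_sub, aeval_C, Algebra.algebraMap_eq_smul_one]

theorem at'_TTt_act {Q : ℤ} {z : P X} (hz : ZP N Q z) :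
    act N _ (at' X d * TTt X d N Q * (AA X d * emb Function.Embedding.inl z)) =
      (ff N d Q).coeff 0 • act N _ (AA X d * emb Function.Embedding.inl z) := by
  rw [at'_mul_TTt, sub_mul, map_sub, ff_kill hz, sub_zero, smul_mul_assoc, one_mul, map_zsmul]

/-- The splitting property of a block of `d` places. -/
def Split (N : ℕ) (Q : ℤ) (z : P X) (d : ℕ) : Prop :=
  ∃ (e : P (X ⊕ Fin d)) (F : ℤ), IsCoprime F Q ∧
    (∀ y : P X, Commute (emb Function.Embedding.inl y) e) ∧
    act N _ (emb Function.Embedding.inr (As (Fin d)) * e *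
      emb Function.Embedding.inr (As (Fin d)) * emb Function.Embedding.inl z) =
      F • act N _ (emb Function.Embedding.inr (As (Fin d)) * emb Function.Embedding.inl z)

theorem As_zero : As (Fin 0) = 1 := by
  unfold As
  rw [Fintype.sum_unique]
  have : (default : Perm (Fin 0)) = 1 := Subsingleton.elim _ _
  rw [this, g_one, Perm.sign_one]
  simp

theorem split_all {Q : ℤ} {z : P X} (hz : ZP N Q z) (d : ℕ) : Split N Q z d := by
  induction d with
  | zero =>
    refine ⟨1, 1, isCoprime_one_left, fun y => Commute.one_right _, ?_⟩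
    rw [As_zero, map_one, one_mul, one_mul, one_mul, one_smul]
  | succ d ih =>
    obtain ⟨e, F, hF, he, hs⟩ := ih
    set E : P (X ⊕ Fin (d + 1)) := emb (sX' X d) e with hE
    set T : P (X ⊕ Fin (d + 1)) := TTt X d N Q with hT
    set zz : P (X ⊕ Fin (d + 1)) := emb Function.Embedding.inl z with hzz
    have hinl : ∀ y : P X, emb (sX' X d) (emb Function.Embedding.inl y) =
        emb Function.Embedding.inl y := by
      intro y
      rw [emb_trans]
      rfl
    refine ⟨E * T, F * (ff N d Q).coeff 0, hF.mul_left (ff_coprime Q), fun y => ?_, ?_⟩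
    · refine Commute.mul_right ?_ (commute_inl_TTt N Q y)
      rw [← hinl, hE]
      exact (he y).map (emb (sX' X d))
    · change act N _ (AA X d * (E * T) * AA X d * zz) = _ • act N _ (AA X d * zz)
      have hBE : act N _ (BB X d * E * BB X d * zz) = F • act N _ (BB X d * zz) := by
        have h1 := act_emb_eq_zero (N := N) (sX' X d)
          (emb Function.Embedding.inr (As (Fin d)) * e *
            emb Function.Embedding.inr (As (Fin d)) * emb Function.Embedding.inl z -
            F • (emb Function.Embedding.inr (As (Fin d)) * emb Function.Embedding.inl z))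
          (by rw [map_sub, hs, map_zsmul, sub_self])
        rw [map_sub, emb_zsmul, map_mul, map_mul, map_mul, map_mul, ← BB_eq, hinl, map_sub,
          map_zsmul, sub_eq_zero] at h1
        exact h1
      have hBT : Commute (BB X d) T := commute_BB_TTt N Q
      have hzT : Commute zz T := commute_inl_TTt N Q z
      have hza : Commute zz (at' X d) := commute_at'_inl z
      have e1 : AA X d * (E * T) * AA X d * zz =
          at' X d * (BB X d * E * BB X d * zz) * (T * at' X d) := by
        rw [AA_eq]
        nth_rewrite 2 [← AA_eq]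
        rw [AA_eq']
        calc at' X d * BB X d * (E * T) * (BB X d * at' X d) * zz
            = at' X d * BB X d * E * (T * BB X d) * (at' X d * zz) := by
              simp only [mul_assoc]
          _ = at' X d * BB X d * E * (BB X d * T) * (zz * at' X d) := by
              rw [hBT.eq, hza.eq]
          _ = at' X d * BB X d * E * BB X d * (T * zz) * at' X d := by
              simp only [mul_assoc]
          _ = at' X d * BB X d * E * BB X d * (zz * T) * at' X d := by
              rw [hzT.eq]
          _ = _ := by simp only [mul_assoc]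
      have e2 : at' X d * (BB X d * zz) * (T * at' X d) = at' X d * T * (AA X d * zz) := by
        rw [AA_eq']
        calc at' X d * (BB X d * zz) * (T * at' X d)
            = at' X d * BB X d * (zz * T) * at' X d := by simp only [mul_assoc]
          _ = at' X d * BB X d * (T * zz) * at' X d := by rw [hzT.eq]
          _ = at' X d * (BB X d * T) * (zz * at' X d) := by simp only [mul_assoc]
          _ = at' X d * (T * BB X d) * (at' X d * zz) := by rw [hBT.eq, hza.eq]
          _ = _ := by simp only [mul_assoc]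
      rw [e1, map_mul, map_mul, hBE, mul_smul_comm, smul_mul_assoc, ← map_mul, ← map_mul, e2,
        at'_TTt_act hz, smul_smul]

end split

end Pool.PI34.H4

end

/-! ### part SK2 -/
section

/-!
PI34, E-block for odd primes, file SK2 (general coefficients): the operators `E_ab` on words, their relations, adjointness.
-/

set_option linter.unusedSectionVars false
set_option linter.unusedSimpArgs false

namespace Pool.PI34.SK

open Equiv Finset
open Pool.PI34.Super (Lt odd prs mem_prs prod_prs_perm pv prod_prs_single)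

variable {K : Type} [CommRing K] {k l : ℕ}

/-- The sign which `E_ab` picks up when it passes the letter `c`. -/
def eta (a b c : Lt k l) : K := if (odd a != odd b) && odd c then -1 else 1

theorem eta_sq (a b c : Lt k l) : (eta a b c * eta a b c : K) = 1 := by
  unfold eta; split_ifs <;> simp

theorem eta_comm (a b c : Lt k l) : (eta a b c : K) = eta b a c := by
  unfold eta
  cases odd a <;> cases odd b <;> cases odd c <;> simp

theorem eta_mul (a b d c : Lt k l) : (eta a b c * eta b d c : K) = eta a d c := by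
  unfold eta
  cases odd a <;> cases odd b <;> cases odd d <;> cases odd c <;> simp

theorem eta_self (a c : Lt k l) : (eta a a c : K) = 1 := by
  unfold eta; simp

/-- The sign for exchanging `E_ab` and `E_cd`. -/
def dd (a b c d : Lt k l) : K := if (odd a != odd b) && (odd c != odd d) then -1 else 1

theorem dd_sq (a b c d : Lt k l) : (dd a b c d * dd a b c d : K) = 1 := by
  unfold dd; split_ifs <;> simp

theorem dd_symm (a b c d : Lt k l) : (dd a b c d : K) = dd c d a b := by
  unfold dd; rw [Bool.and_comm]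

theorem eta_eta (a b c d : Lt k l) : (eta a b c * eta a b d : K) = dd a b c d := by
  unfold eta dd
  cases odd a <;> cases odd b <;> cases odd d <;> cases odd c <;> simp

variable {ι : Type*} [Fintype ι] [LinearOrder ι]

/-- The sign of `E_ab` acting at position `i`. -/
def bsg (a b : Lt k l) (w : ι → Lt k l) (i : ι) : K :=
  ∏ j ∈ univ.filter (· < i), eta a b (w j)

theorem bsg_sq (a b : Lt k l) (w : ι → Lt k l) (i : ι) : (bsg a b w i * bsg a b w i : K) = 1 := by
  unfold bsg
  rw [← Finset.prod_mul_distrib]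
  exact Finset.prod_eq_one (fun j _ => eta_sq a b (w j))

theorem bsg_comm (a b : Lt k l) (w : ι → Lt k l) (i : ι) : (bsg a b w i : K) = bsg b a w i := by
  unfold bsg
  exact Finset.prod_congr rfl (fun j _ => eta_comm a b (w j))

theorem bsg_mul (a b d : Lt k l) (w : ι → Lt k l) (i : ι) :
    (bsg a b w i * bsg b d w i : K) = bsg a d w i := by
  unfold bsg
  rw [← Finset.prod_mul_distrib]
  exact Finset.prod_congr rfl (fun j _ => eta_mul a b d (w j))

theorem bsg_self (a : Lt k l) (w : ι → Lt k l) (i : ι) : (bsg a a w i : K) = 1 := by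
  unfold bsg
  exact Finset.prod_eq_one (fun j _ => eta_self a (w j))

theorem bsg_update_same (a b c : Lt k l) (w : ι → Lt k l) (i : ι) :
    (bsg a b (Function.update w i c) i : K) = bsg a b w i := by
  unfold bsg
  refine Finset.prod_congr rfl (fun j hj => ?_)
  rw [Finset.mem_filter] at hj
  rw [Function.update_of_ne hj.2.ne]

theorem bsg_update_lt (a b c : Lt k l) (w : ι → Lt k l) {i j : ι} (h : i < j) :
    (bsg a b (Function.update w i c) j : K) = bsg a b w j * (eta a b (w i) * eta a b c) := by
  unfold bsg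
  have hi : i ∈ univ.filter (· < j) := by simp [h]
  rw [← Finset.mul_prod_erase _ _ hi, ← Finset.mul_prod_erase _ _ hi]
  rw [Function.update_self]
  have : ∏ x ∈ (univ.filter (· < j)).erase i, (eta a b (Function.update w i c x) : K)
      = ∏ x ∈ (univ.filter (· < j)).erase i, eta a b (w x) := by
    refine Finset.prod_congr rfl (fun x hx => ?_)
    rw [Function.update_of_ne (Finset.ne_of_mem_erase hx)]
  rw [this]
  linear_combination (-(eta a b c : K) * ∏ x ∈ (univ.filter (· < j)).erase i, eta a b (w x)) *
    eta_sq (K := K) a b (w i)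

theorem bsg_update_gt (a b c : Lt k l) (w : ι → Lt k l) {i j : ι} (h : j < i) :
    (bsg a b (Function.update w i c) j : K) = bsg a b w j := by
  unfold bsg
  refine Finset.prod_congr rfl (fun x hx => ?_)
  rw [Finset.mem_filter] at hx
  rw [Function.update_of_ne (hx.2.trans h).ne]

/-- `E_ab` at position `i`. -/
def eop (a b : Lt k l) (i : ι) : Module.End K (W K k l ι) where
  toFun f := fun w => if w i = a then bsg a b w i * f (Function.update w i b) else 0
  map_add' f g := by funext w; simp only [Pi.add_apply]; split_ifs <;> ring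
  map_smul' c f := by
    funext w; simp only [Pi.smul_apply, smul_eq_mul, RingHom.id_apply]; split_ifs <;> ring

theorem eop_apply (a b : Lt k l) (i : ι) (f : W K k l ι) (w : ι → Lt k l) :
    eop a b i f w = if w i = a then bsg a b w i * f (Function.update w i b) else 0 := rfl

theorem eop_comm (a b c d : Lt k l) {i j : ι} (hij : i ≠ j) :
    (eop a b i * eop c d j : Module.End K (W K k l ι))
      = (dd a b c d : K) • (eop c d j * eop a b i) := by
  apply LinearMap.ext; intro f; funext w
  simp only [Module.End.mul_apply, LinearMap.smul_apply, Pi.smul_apply, smul_eq_mul, eop_apply]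
  rw [Function.update_of_ne hij.symm, Function.update_of_ne hij]
  by_cases h1 : w i = a
  · by_cases h2 : w j = c
    · simp only [h1, h2, if_true]
      rw [Function.update_comm hij.symm]
      rcases lt_or_gt_of_ne hij with h | h
      · rw [bsg_update_lt c d b w h, bsg_update_gt a b d w h, h1, eta_eta c d a b, dd_symm]
        ring
      · rw [bsg_update_gt c d b w h, bsg_update_lt a b d w h, h2, eta_eta a b c d]
        linear_combination (-(bsg a b w i * bsg c d w j *
          f (Function.update (Function.update w i b) j d))) * dd_sq (K := K) a b c d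
    · simp [h2]
  · simp [h1]

theorem eop_mul (a b d : Lt k l) (i : ι) :
    eop a b i * eop b d i = (eop a d i : Module.End K (W K k l ι)) := by
  apply LinearMap.ext; intro f; funext w
  simp only [Module.End.mul_apply, eop_apply]
  rw [Function.update_self, if_pos rfl, bsg_update_same, Function.update_idem]
  by_cases h1 : w i = a
  · simp only [h1, if_true]
    rw [← bsg_mul a b d w i]; ring
  · simp [h1]

theorem eop_mul_ne (a b c d : Lt k l) (i : ι) (h : b ≠ c) :
    eop a b i * eop c d i = (0 : Module.End K (W K k l ι)) := by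
  apply LinearMap.ext; intro f; funext w
  simp only [Module.End.mul_apply, eop_apply]
  rw [Function.update_self, if_neg h]
  simp

theorem eop_mul' (a b c d : Lt k l) (i : ι) :
    eop a b i * eop c d i = (if b = c then eop a d i else 0 : Module.End K (W K k l ι)) := by
  split_ifs with h
  · subst h; exact eop_mul a b d i
  · exact eop_mul_ne a b c d i h

/-- The sum of `E_ab` over the positions in `B`. -/
def EB (B : Finset ι) (a b : Lt k l) : Module.End K (W K k l ι) := ∑ i ∈ B, eop a b i

/-- The operator `E_ab`. -/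
def EE (a b : Lt k l) : Module.End K (W K k l ι) := EB univ a b

theorem EB_comm (B : Finset ι) (a b c d : Lt k l) :
    (EB B a b * EB B c d : Module.End K (W K k l ι)) = (dd a b c d : K) • (EB B c d * EB B a b)
      + (if b = c then EB B a d else 0) - (dd a b c d : K) • (if d = a then EB B c b else 0) := by
  classical
  have h1 : (EB B a b * EB B c d : Module.End K (W K k l ι))
      = ∑ i ∈ B, ∑ j ∈ B, eop a b i * eop c d j := by
    unfold EB; rw [Finset.sum_mul_sum]
  have h2 : (EB B c d * EB B a b : Module.End K (W K k l ι))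
      = ∑ i ∈ B, ∑ j ∈ B, eop c d j * eop a b i := by
    unfold EB; rw [Finset.sum_mul_sum, Finset.sum_comm]
  have h3 : ∀ i ∈ B, ∀ j ∈ B, (eop a b i * eop c d j : Module.End K (W K k l ι))
      = (dd a b c d : K) • (eop c d j * eop a b i)
      + (if i = j then ((if b = c then eop a d i else 0)
        - (dd a b c d : K) • (if d = a then eop c b i else 0)) else 0) := by
    intro i _ j _
    by_cases hij : i = j
    · subst hij
      rw [if_pos rfl, eop_mul', eop_mul']
      abel
    · rw [if_neg hij, eop_comm a b c d hij, add_zero]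
  rw [h1, h2, Finset.sum_congr rfl (fun i hi => Finset.sum_congr rfl (fun j hj => h3 i hi j hj))]
  simp only [Finset.sum_add_distrib, Finset.smul_sum, Finset.sum_ite_eq]
  rw [Finset.sum_congr rfl (fun i hi => if_pos hi)]
  rw [Finset.sum_sub_distrib, add_sub_assoc]
  congr 2
  · unfold EB; split_ifs <;> simp
  · unfold EB; split_ifs <;> simp [Finset.smul_sum]

/-- The standard inner product. -/
def ip (f g : W K k l ι) : K := ∑ w, f w * g w

theorem eop_adj (a b : Lt k l) (i : ι) (f g : W K k l ι) :
    ip (eop a b i f) g = ip f (eop b a i g) := by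
  classical
  unfold ip
  have h1 : ∀ w, eop a b i f w * g w = if w i = a then
      bsg a b w i * f (Function.update w i b) * g w else 0 := by
    intro w; rw [eop_apply]; split_ifs <;> ring
  have h2 : ∀ w, f w * eop b a i g w = if w i = b then
      bsg b a w i * f w * g (Function.update w i a) else 0 := by
    intro w; rw [eop_apply]; split_ifs <;> ring
  simp only [h1, h2]
  rw [← Finset.sum_filter, ← Finset.sum_filter]
  refine Finset.sum_bij' (fun w _ => Function.update w i b) (fun w _ => Function.update w i a)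
    ?_ ?_ ?_ ?_ ?_
  · intro w hw; simp
  · intro w hw; simp
  · intro w hw
    rw [Finset.mem_filter] at hw
    rw [Function.update_idem, ← hw.2, Function.update_eq_self]
  · intro w hw
    rw [Finset.mem_filter] at hw
    rw [Function.update_idem, ← hw.2, Function.update_eq_self]
  · intro w hw
    rw [Finset.mem_filter] at hw
    rw [Function.update_idem, bsg_update_same, bsg_comm b a]
    congr 1
    rw [← hw.2, Function.update_eq_self]

theorem EB_adj (B : Finset ι) (a b : Lt k l) (f g : W K k l ι) :
    ip (EB B a b f) g = ip f (EB B b a g) := by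
  have h1 : ip (EB B a b f) g = ∑ i ∈ B, ip (eop a b i f) g := by
    unfold ip EB
    rw [Finset.sum_comm]
    refine Finset.sum_congr rfl (fun w _ => ?_)
    rw [LinearMap.sum_apply, Finset.sum_apply, Finset.sum_mul]
  have h2 : ip f (EB B b a g) = ∑ i ∈ B, ip f (eop b a i g) := by
    unfold ip EB
    rw [Finset.sum_comm]
    refine Finset.sum_congr rfl (fun w _ => ?_)
    rw [LinearMap.sum_apply, Finset.sum_apply, Finset.mul_sum]
  rw [h1, h2]
  exact Finset.sum_congr rfl (fun i _ => eop_adj a b i f g)

section conj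

theorem rho_eop (σ : Perm ι) (a b : Lt k l) (i : ι) :
    rho K k l ι σ * eop a b i = eop a b (σ i) * rho K k l ι σ := by
  classical
  apply LinearMap.ext; intro f; funext w
  simp only [Module.End.mul_apply, rho_apply, eop_apply, Function.comp_apply]
  by_cases h1 : w (σ i) = a
  swap
  · simp [h1]
  simp only [h1, if_true]
  have h2 : Function.update w (σ i) b ∘ σ = Function.update (w ∘ σ) i b := by
    funext j
    by_cases hj : j = i
    · subst hj; simp
    · simp [Function.update_of_ne hj, Function.update_of_ne (fun e => hj (σ.injective e))]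
  rw [h2]
  set u := w ∘ σ with hu
  have hui : u i = a := by rw [hu]; exact h1
  set P : K := ∏ j ∈ univ.erase i, if (odd a != odd b) && odd (u j) then H σ i j else 1 with hP
  have e1 : eps σ (pv u) * eps σ (pv (Function.update u i b)) = P := by
    unfold eps
    rw [← Finset.prod_mul_distrib]
    rw [prod_prs_single i (fun x y => (if pv u x && pv u y then H σ x y else 1) *
      (if pv (Function.update u i b) x && pv (Function.update u i b) y then H σ x y else 1))]
    · rw [hP]
      refine Finset.prod_congr rfl (fun j hj => ?_)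
      rw [Finset.mem_erase] at hj
      simp only [pv, Function.update_self, Function.update_of_ne hj.1, hui]
      have := H_sq (K := K) σ i j
      cases odd a <;> cases odd b <;> cases odd (u j) <;> simp [this]
    · intro x y
      rw [H_symm, Bool.and_comm, Bool.and_comm (pv (Function.update u i b) x)]
    · intro x y hx hy
      have e5 : pv (Function.update u i b) x = pv u x := by
        simp only [pv, Function.update_of_ne hx]
      have e6 : pv (Function.update u i b) y = pv u y := by
        simp only [pv, Function.update_of_ne hy]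
      rw [e5, e6]
      have := H_sq (K := K) σ x y
      by_cases hc : (pv u x && pv u y) = true
      · rw [if_pos hc, this]
      · rw [if_neg hc, one_mul]
  have e2 : bsg a b u i * bsg a b w (σ i) = P := by
    unfold bsg
    have e3 : ∏ j ∈ univ.filter (· < σ i), (eta a b (w j) : K)
        = ∏ j ∈ univ.filter (fun j => σ j < σ i), eta a b (u j) := by
      refine Finset.prod_bij' (fun j _ => σ.symm j) (fun j _ => σ j) ?_ ?_ ?_ ?_ ?_
      · intro j hj; simpa using hj
      · intro j hj; simpa using hj
      · intro j hj; simp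
      · intro j hj; simp
      · intro j hj; simp [hu]
    rw [e3, Finset.prod_filter, Finset.prod_filter, ← Finset.prod_mul_distrib, hP]
    rw [← Finset.mul_prod_erase univ _ (Finset.mem_univ i)]
    simp only [lt_irrefl, if_false, one_mul]
    refine Finset.prod_congr rfl (fun j hj => ?_)
    rw [Finset.mem_erase] at hj
    have hs := eta_sq (K := K) a b (u j)
    have hne : σ j ≠ σ i := fun e => hj.1 (σ.injective e)
    unfold H
    rcases lt_or_gt_of_ne hj.1 with h3 | h3 <;> rcases lt_or_gt_of_ne hne with h4 | h4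
    · simp only [h3, h4, not_lt.2 h3.le, not_lt.2 h4.le, if_true, hs]; simp
    · simp only [h3, h4, not_lt.2 h3.le, not_lt.2 h4.le, if_true, if_false, mul_one]
      unfold eta; simp
    · simp only [h3, h4, not_lt.2 h3.le, not_lt.2 h4.le, if_true, if_false, one_mul]
      unfold eta; simp
    · simp only [h3, h4, not_lt.2 h3.le, not_lt.2 h4.le, if_false, mul_one]; simp
  have s1 := eps_sq (K := K) σ (pv u)
  have s2 := eps_sq (K := K) σ (pv (Function.update u i b))
  have s3 := bsg_sq (K := K) a b u i
  have s4 := bsg_sq (K := K) a b w (σ i)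
  have key : (eps σ (pv u) : K) * bsg a b u i
      = bsg a b w (σ i) * eps σ (pv (Function.update u i b)) := by
    calc eps σ (pv u) * bsg a b u i
        = eps σ (pv u) * bsg a b u i *
          (eps σ (pv (Function.update u i b)) * eps σ (pv (Function.update u i b))) := by
          rw [s2, mul_one]
      _ = (eps σ (pv u) * eps σ (pv (Function.update u i b))) * bsg a b u i *
          eps σ (pv (Function.update u i b)) := by ring
      _ = (bsg a b u i * bsg a b w (σ i)) * bsg a b u i *
          eps σ (pv (Function.update u i b)) := by rw [e1, e2]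
      _ = (bsg a b u i * bsg a b u i) * (bsg a b w (σ i) *
          eps σ (pv (Function.update u i b))) := by ring
      _ = _ := by rw [s3, one_mul]
  rw [← mul_assoc, ← mul_assoc, key]

theorem rho_EE (σ : Perm ι) (a b : Lt k l) :
    rho K k l ι σ * EE a b = EE a b * rho K k l ι σ := by
  unfold EE EB
  rw [Finset.mul_sum, Finset.sum_mul]
  rw [Finset.sum_congr rfl (fun i _ => rho_eop σ a b i)]
  exact Equiv.sum_comp σ (fun i => eop a b i * rho K k l ι σ)

theorem act_EE {A : Type} [CommRing A] [Algebra A K] (y : MonoidAlgebra A (Perm ι)) (a b : Lt k l) :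
    act A K k l ι y * EE a b = EE a b * act A K k l ι y := by
  induction y using MonoidAlgebra.induction_on with
  | of g => rw [act_of]; exact rho_EE g a b
  | add x y hx hy => rw [map_add, add_mul, mul_add, hx, hy]
  | smul r x hx => rw [map_smul, smul_mul_assoc, hx, mul_smul_comm]

end conj

end Pool.PI34.SK

end

/-! ### part H4_Tel -/
section

/-!
PI34, block H4, file 9: telescoping over the blocks.
-/

set_option autoImplicit false
set_option linter.unusedSectionVars false
set_option linter.unusedDecidableInType false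
set_option linter.unusedFintypeInType false

namespace Pool.PI34.H4

open Equiv Finset Polynomial

section tel

variable {N : ℕ} {X T C : Type} [Fintype X] [DecidableEq X] [Fintype T] [DecidableEq T]
  [DecidableEq C]

/-- The places of one colour. -/
theorem exists_block (c : T → C) (a : C) :
    ∃ ι : Fin (univ.filter (fun t => c t = a)).card ↪ T, Set.range ι = {x | c x = a} := by
  let s := univ.filter (fun t => c t = a)
  refine ⟨s.equivFin.symm.toEmbedding.trans (Function.Embedding.subtype _), ?_⟩
  ext x
  constructor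
  · rintro ⟨i, rfl⟩
    have := (s.equivFin.symm i).2
    rw [mem_filter] at this
    exact this.2
  · intro hx
    have h : x ∈ s := by rw [mem_filter]; exact ⟨mem_univ _, hx⟩
    exact ⟨s.equivFin ⟨x, h⟩, by simp⟩

/-- The colouring with single places on the left. -/
abbrev cc (X : Type) {T C : Type} (c : T → C) : X ⊕ T → X ⊕ C := Sum.map id c

theorem range_inr {c : T → C} {a : C} {d : ℕ} {ι : Fin d ↪ T} (h : Set.range ι = {x | c x = a}) :
    Set.range (ι.trans (Function.Embedding.inr : T ↪ X ⊕ T)) = {x | cc X c x = Sum.inr a} := by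
  ext x
  constructor
  · rintro ⟨i, rfl⟩
    have : ι i ∈ Set.range ι := ⟨i, rfl⟩
    rw [h] at this
    change Sum.inr (c (ι i)) = Sum.inr a
    rw [this]
  · intro hx
    rcases x with i | t
    · cases hx
    · have h1 : c t = a := Sum.inr_injective hx
      have : t ∈ Set.range ι := by rw [h]; exact h1
      obtain ⟨i, hi⟩ := this
      exact ⟨i, by rw [← hi]; rfl⟩

theorem commute_inl_AK1 (c : T → C) (a : C) (y : P X) :
    Commute (emb Function.Embedding.inl y) (AK (cc X c) {Sum.inr a}) := by
  obtain ⟨ι, hι⟩ := exists_block c a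
  rw [AK_single (cc X c) (Sum.inr a) (ι.trans Function.Embedding.inr) (range_inr hι)]
  exact commute_emb_emb _ _ (fun _ _ => by simp) _ _

theorem commute_inl_AK (c : T → C) (K : Finset C) (y : P X) :
    Commute (emb Function.Embedding.inl y) (AK (cc X c) (K.map Function.Embedding.inr)) := by
  induction K using Finset.induction_on with
  | empty => rw [Finset.map_empty, AK_empty]; exact Commute.one_right _
  | insert a K ha ih =>
    rw [Finset.map_insert, AK_insert _ _ _ (by simpa using ha)]
    exact (commute_inl_AK1 c a y).mul_right ih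

/-- One block. -/
theorem one_colour {Q : ℤ} {z : P X} (hz : ZP N Q z) (c : T → C) (a : C)
    (ha : (univ.filter (fun t => c t = a)).card ≤ N) :
    ∃ (q : P (X ⊕ T)) (F : ℤ), IsCoprime F Q ∧
      (∀ y : P X, Commute (emb Function.Embedding.inl y) q) ∧
      (∀ b, b ≠ a → Commute q (AK (cc X c) {Sum.inr b})) ∧
      (N.factorial : ℤ) • (F • emb Function.Embedding.inl z -
        q * AK (cc X c) {Sum.inr a} * emb Function.Embedding.inl z) ∈ JR N (cc X c) := by
  obtain ⟨d, hd⟩ : ∃ d, d = (univ.filter (fun t => c t = a)).card := ⟨_, rfl⟩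
  rw [← hd] at ha
  obtain ⟨ι, hι⟩ : ∃ ι : Fin d ↪ T, Set.range ι = {x | c x = a} := by
    rw [hd]
    exact exists_block c a
  obtain ⟨e, F, hF, he, hs⟩ := split_all hz d
  let κ : X ⊕ Fin d ↪ X ⊕ T := ⟨Sum.map id ι, Function.injective_id.sumMap ι.injective⟩
  have hκl : ∀ y : P X, emb κ (emb Function.Embedding.inl y) = emb Function.Embedding.inl y := by
    intro y
    rw [emb_trans]
    rfl
  have hκr : ∀ y : P (Fin d), emb κ (emb Function.Embedding.inr y) =
      emb (ι.trans Function.Embedding.inr) y := by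
    intro y
    rw [emb_trans]
    rfl
  have hA : AK (cc X c) {Sum.inr a} = emb (ι.trans Function.Embedding.inr) (As (Fin d)) :=
    AK_single (cc X c) (Sum.inr a) (ι.trans Function.Embedding.inr) (range_inr hι)
  refine ⟨emb κ e, F, hF, fun y => ?_, fun b hb => ?_, ?_⟩
  · rw [← hκl]
    exact (he y).map (emb κ)
  · obtain ⟨ι', hι'⟩ := exists_block c b
    rw [AK_single (cc X c) (Sum.inr b) (ι'.trans Function.Embedding.inr) (range_inr hι')]
    refine commute_emb_emb _ _ (fun x y => ?_) _ _
    rcases x with i | i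
    · intro h
      cases h
    · intro h
      have h1 : ι i = ι' y := Sum.inr_injective h
      have h2 : c (ι i) = a := by
        have : ι i ∈ Set.range ι := ⟨i, rfl⟩
        rw [hι] at this
        exact this
      have h3 : c (ι' y) = b := by
        have : ι' y ∈ Set.range ι' := ⟨y, rfl⟩
        rw [hι'] at this
        exact this
      exact hb (by rw [← h3, ← h1, h2])
  · set w := F • emb Function.Embedding.inl z -
      emb κ e * AK (cc X c) {Sum.inr a} * emb Function.Embedding.inl z with hw
    have h1 : act N _ (emb (ι.trans Function.Embedding.inr) (As (Fin d)) * w) = 0 := by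
      have h2 := act_emb_eq_zero (N := N) κ
          (emb Function.Embedding.inr (As (Fin d)) * e *
            emb Function.Embedding.inr (As (Fin d)) * emb Function.Embedding.inl z -
            F • (emb Function.Embedding.inr (As (Fin d)) * emb Function.Embedding.inl z))
          (by rw [map_sub, hs, map_zsmul, sub_self])
      rw [map_sub, emb_zsmul, map_mul, map_mul, map_mul, map_mul, hκl, hκr] at h2
      rw [hw, hA]
      have h3 : emb (ι.trans Function.Embedding.inr) (As (Fin d)) *
          (F • emb Function.Embedding.inl z - emb κ e *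
            emb (ι.trans Function.Embedding.inr) (As (Fin d)) * emb Function.Embedding.inl z) =
          -(emb (ι.trans Function.Embedding.inr) (As (Fin d)) * emb κ e *
            emb (ι.trans Function.Embedding.inr) (As (Fin d)) * emb Function.Embedding.inl z -
            F • (emb (ι.trans Function.Embedding.inr) (As (Fin d)) *
              emb Function.Embedding.inl z)) := by
        rw [mul_sub, mul_smul_comm]
        simp only [mul_assoc]
        abel
      rw [h3, map_neg, h2, neg_zero]
    have h2 : emb (ι.trans Function.Embedding.inr) (As (Fin d)) * w ∈ JR N (cc X c) :=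
      AddSubgroup.subset_closure (Or.inr h1)
    have h3 := JR_average (N := N) (cc X c) (ι.trans Function.Embedding.inr)
      (fun i j => by
        have h : ∀ i, cc X c ((ι.trans Function.Embedding.inr) i) = Sum.inr a := by
          intro i
          have : (ι.trans (Function.Embedding.inr : T ↪ X ⊕ T)) i ∈
            Set.range (ι.trans (Function.Embedding.inr : T ↪ X ⊕ T)) := ⟨i, rfl⟩
          rw [range_inr hι] at this
          exact this
        rw [h i, h j]) w
    have h4 : (d.factorial : ℤ) • w ∈ JR N (cc X c) := by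
      have := (JR N (cc X c)).add_mem h3 h2
      rwa [sub_add_cancel] at this
    obtain ⟨m, hm⟩ := Nat.factorial_dvd_factorial ha
    rw [hm, Nat.cast_mul, mul_comm, mul_smul]
    exact (JR N (cc X c)).zsmul_mem h4 _

/-- Telescoping. -/
theorem telescope {Q : ℤ} {z : P X} (hz : ZP N Q z) (c : T → C)
    (hc : ∀ a, (univ.filter (fun t => c t = a)).card ≤ N) (K : Finset C) :
    ∃ (q : P (X ⊕ T)) (F : ℤ), IsCoprime F Q ∧
      (∀ y : P X, Commute (emb Function.Embedding.inl y) q) ∧
      (∀ b, b ∉ K → Commute q (AK (cc X c) {Sum.inr b})) ∧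
      (N.factorial : ℤ) • (F • emb Function.Embedding.inl z -
        q * AK (cc X c) (K.map Function.Embedding.inr) * emb Function.Embedding.inl z) ∈
          JR N (cc X c) := by
  induction K using Finset.induction_on with
  | empty =>
    refine ⟨1, 1, isCoprime_one_left, fun y => Commute.one_right _, fun b _ => Commute.one_left _,
      ?_⟩
    rw [Finset.map_empty, AK_empty, one_mul, one_smul, one_mul, sub_self, smul_zero]
    exact AddSubgroup.zero_mem _
  | insert a K ha ih =>
    obtain ⟨q, F, hF, hq, hqb, hJ⟩ := ih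
    obtain ⟨q', F', hF', hq', hqb', hJ'⟩ := one_colour hz c a (hc a)
    have hins : AK (cc X c) ((insert a K).map Function.Embedding.inr) =
        AK (cc X c) {Sum.inr a} * AK (cc X c) (K.map Function.Embedding.inr) := by
      rw [Finset.map_insert]
      exact AK_insert _ _ _ (by simpa using ha)
    refine ⟨q' * q, F' * F, hF'.mul_left hF, fun y => (hq' y).mul_right (hq y), fun b hb => ?_, ?_⟩
    · rw [Finset.mem_insert, not_or] at hb
      exact (hqb' b hb.1).mul_left (hqb b hb.2)
    · set zz : P (X ⊕ T) := emb Function.Embedding.inl z with hzz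
      set A1 := AK (cc X c) {Sum.inr a} with hA1
      set A2 := AK (cc X c) (K.map Function.Embedding.inr) with hA2
      have hz2 : Commute zz A2 := commute_inl_AK c K z
      have hzq : Commute zz q := hq z
      have hqA : Commute q A1 := hqb a ha
      have e1 : q' * q * (A1 * A2) * zz = q' * A1 * zz * (q * A2) := by
        calc q' * q * (A1 * A2) * zz = q' * (q * A1) * (A2 * zz) := by simp only [mul_assoc]
          _ = q' * (A1 * q) * (zz * A2) := by rw [hqA.eq, hz2.eq]
          _ = q' * A1 * (q * zz) * A2 := by simp only [mul_assoc]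
          _ = q' * A1 * (zz * q) * A2 := by rw [hzq.eq]
          _ = _ := by simp only [mul_assoc]
      have e2 : q * A2 * zz = zz * (q * A2) := by
        rw [mul_assoc, ← hz2.eq, ← mul_assoc, ← hzq.eq, mul_assoc]
      have e3 : (N.factorial : ℤ) • ((F' * F) • zz - q' * q * (A1 * A2) * zz) =
          F' • ((N.factorial : ℤ) • (F • zz - q * A2 * zz)) +
            ((N.factorial : ℤ) • (F' • zz - q' * A1 * zz)) * (q * A2) := by
        rw [e1, e2, smul_mul_assoc, sub_mul, smul_mul_assoc, smul_comm F' (N.factorial : ℤ),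
          ← smul_add]
        congr 1
        rw [smul_sub, smul_smul]
        abel
      rw [hins, e3]
      exact (JR N (cc X c)).add_mem ((JR N (cc X c)).zsmul_mem hJ _) (JR_mul hJ' _)

/-- The catalyst. -/
theorem catalyst {Q : ℤ} {z : P X} (hz : ZP N Q z) (c : T → C)
    (hc : ∀ a, (univ.filter (fun t => c t = a)).card ≤ N) :
    ∃ F : ℤ, IsCoprime F Q ∧
      ((N.factorial : ℤ) * F) • emb Function.Embedding.inl z ∈ J N (cc X c) := by
  obtain ⟨q, F, hF, hq, hqb, hJ⟩ := telescope hz c hc (univ.image c)
  refine ⟨F, hF, ?_⟩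
  have h1 := JR_le N (cc X c) hJ
  have hcomm := commute_inl_AK c (univ.image c) z
  rw [← Ac_eq_AK] at hJ h1 hcomm
  have h2 : (N.factorial : ℤ) • (q * Ac (cc X c) * emb Function.Embedding.inl z) ∈
      J N (cc X c) := by
    refine (J N (cc X c)).zsmul_mem ?_ _
    rw [mul_assoc, ← hcomm.eq, ← mul_assoc]
    exact AddSubgroup.subset_closure (Or.inl (Or.inr ⟨_, rfl⟩))
  have h3 := (J N (cc X c)).add_mem h1 h2
  rw [← smul_add, sub_add_cancel, smul_smul] at h3
  exact h3

/-- Large blocks. -/
theorem large_block (c : T → C) (a : C) (ha : N < (univ.filter (fun t => c t = a)).card) :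
    ((N + 1).factorial : ℤ) • (1 : P T) ∈ J N c := by
  obtain ⟨ι, hι⟩ := exists_block c a
  let ι' : Fin (N + 1) ↪ T := (Fin.castLEEmb ha).trans ι
  have h1 : ∀ i, c (ι' i) = a := by
    intro i
    have : ι' i ∈ Set.range ι := ⟨_, rfl⟩
    rw [hι] at this
    exact this
  have h2 := JR_average (N := N) c ι' (fun i j => by rw [h1, h1]) 1
  have h3 : emb ι' (As (Fin (N + 1))) * 1 ∈ JR N c := by
    rw [mul_one]
    refine AddSubgroup.subset_closure (Or.inr ?_)
    exact act_emb_eq_zero ι' _ (act_As (by simp))
  have h4 := (JR N c).add_mem h2 h3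
  rw [sub_add_cancel] at h4
  exact JR_le N c h4

end tel

end Pool.PI34.H4

end

/-! ### part Super9 -/
section

/-!
PI34, E-block, file 9: catalysts with a set of vectors.
-/

set_option linter.unusedSectionVars false
set_option linter.unusedSimpArgs false

namespace Pool.PI34.Super

open Equiv Finset

variable {k l : ℕ} {m n : ℕ}

/-- The data of a catalyst with a set of vectors. -/
structure CatP (k l m : ℕ) where
  /-- the vectors -/
  Xi : Set (W k l (Fin m))
  /-- the idempotent -/
  z : MonoidAlgebra ℚ (Perm (Fin m))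
  /-- the colour element -/
  E : MonoidAlgebra ℚ (Perm (Fin (m + 1)))
  hz1 : ∀ ξ ∈ Xi, act k l _ z ξ = ξ
  hz2 : ∀ f, act k l _ z f ∈ ⨆ ξ ∈ Xi, Ux ξ
  hE : ∀ ξ ∈ Xi, ∀ c : Lt k l,
    act k l _ E (ins c ξ) = (if odd c then (1 : ℚ) else 0) • ins c ξ
  hne : ∃ ξ ∈ Xi, ξ ≠ 0

/-- A catalyst with one nonzero vector. -/
noncomputable def Cat.toCatP (C : Cat k l m) (h : C.ξ ≠ 0) : CatP k l m :=
  { Xi := {C.ξ}
    z := C.z
    E := C.E
    hz1 := by rintro _ rfl; exact C.hz1
    hz2 := by
      intro f
      have h1 := C.hz2 f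
      have h2 : Ux C.ξ ≤ ⨆ ξ ∈ ({C.ξ} : Set (W k l (Fin m))), Ux ξ :=
        le_iSup₂_of_le C.ξ rfl le_rfl
      exact h2 h1
    hE := by rintro _ rfl; exact C.hE
    hne := ⟨C.ξ, rfl, h⟩ }

namespace CatP

variable (C : CatP k l m)

/-- `1 ⊗ z`. -/
noncomputable def Z (n : ℕ) : MonoidAlgebra ℚ (Perm (Fin (n + m))) := pl (phR n m) C.z

/-- The colour element on strand `i`. -/
noncomputable def Ei (n : ℕ) (i : Fin n) : MonoidAlgebra ℚ (Perm (Fin (n + m))) :=
  pl (phi n m i) C.E

theorem act_Z {ξ : W k l (Fin m)} (hξ : ξ ∈ C.Xi) (v : Fin n → Lt k l) :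
    act k l _ (C.Z n) (tn v ξ) = tn v ξ := by
  unfold Z; rw [act_pl_tn, C.hz1 ξ hξ]

theorem act_Ei {ξ : W k l (Fin m)} (hξ : ξ ∈ C.Xi) (i : Fin n) (v : Fin n → Lt k l) :
    act k l _ (C.Ei n i) (tn v ξ) = (if odd (v i) then (1 : ℚ) else 0) • tn v ξ :=
  act_phi (e := fun c => if odd c then (1 : ℚ) else 0) (C.hE ξ hξ) i v

/-- The principle: an element killing all `e_v ⊗ ξ` is in `K(k|l)` after multiplication
with `1 ⊗ z`. -/
theorem ker_of (y : MonoidAlgebra ℚ (Perm (Fin (n + m))))
    (hy : ∀ ξ ∈ C.Xi, ∀ v : Fin n → Lt k l, act k l _ y (tn v ξ) = 0) :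
    act k l _ (y * C.Z n) = 0 := by
  apply LinearMap.ext; intro g
  rw [map_mul, Module.End.mul_apply, LinearMap.zero_apply]
  unfold Z
  conv_lhs => rw [sum_tn g]
  rw [map_sum, map_sum]
  refine Finset.sum_eq_zero (fun v _ => ?_)
  rw [act_pl_tn]
  let T : Submodule ℚ (W k l (Fin m)) :=
    { carrier := {f | ∀ v : Fin n → Lt k l, act k l _ y (tn v f) = 0}
      add_mem' := fun {a b} ha hb v => by rw [map_add, map_add, ha, hb, add_zero]
      zero_mem' := fun v => by rw [map_zero, map_zero]
      smul_mem' := fun c a ha v => by rw [map_smul, map_smul, ha, smul_zero] }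
  have hT : (⨆ ξ ∈ C.Xi, Ux ξ) ≤ T := by
    refine iSup₂_le (fun ξ hξ f hf => ?_)
    exact principle_vec y (hy ξ hξ) f hf
  exact hT (C.hz2 _) v

theorem Z_idem : act k l _ ((C.Z n - 1) * C.Z n) = 0 := by
  refine C.ker_of _ (fun ξ hξ v => ?_)
  rw [map_sub, map_one, LinearMap.sub_apply, act_Z C hξ, Module.End.one_apply, sub_self]

theorem Z_Ei (i : Fin n) : act k l _ ((C.Z n * C.Ei n i - C.Ei n i) * C.Z n) = 0 := by
  refine C.ker_of _ (fun ξ hξ v => ?_)
  rw [map_sub, map_mul, LinearMap.sub_apply, Module.End.mul_apply, act_Ei C hξ, map_smul, act_Z C hξ,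
    sub_self]

theorem Ei_idem (i : Fin n) : act k l _ ((C.Ei n i * C.Ei n i - C.Ei n i) * C.Z n) = 0 := by
  refine C.ker_of _ (fun ξ hξ v => ?_)
  rw [map_sub, map_mul, LinearMap.sub_apply, Module.End.mul_apply, act_Ei C hξ, map_smul, act_Ei C hξ,
    smul_smul, ← sub_smul]
  split_ifs <;> simp

theorem Ei_comm (i j : Fin n) :
    act k l _ ((C.Ei n i * C.Ei n j - C.Ei n j * C.Ei n i) * C.Z n) = 0 := by
  refine C.ker_of _ (fun ξ hξ v => ?_)
  rw [map_sub, map_mul, map_mul, LinearMap.sub_apply, Module.End.mul_apply,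
    Module.End.mul_apply, act_Ei C hξ, act_Ei C hξ, map_smul, map_smul, act_Ei C hξ, act_Ei C hξ, smul_comm, sub_self]

/-- A permutation of the strands. -/
noncomputable def S (n m : ℕ) (σ : Perm (Fin n)) : MonoidAlgebra ℚ (Perm (Fin (n + m))) :=
  MonoidAlgebra.of ℚ _ (ext (phL n m) σ)

theorem S_mul (σ τ : Perm (Fin n)) : S n m (σ * τ) = S n m σ * S n m τ := by
  unfold S; rw [map_mul, map_mul]

theorem S_one : S n m (1 : Perm (Fin n)) = 1 := by
  unfold S; rw [map_one, map_one]

/-- Conjugation moves the colour element, exactly. -/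
theorem S_Ei (σ : Perm (Fin n)) (i : Fin n) : S n m σ * C.Ei n i = C.Ei n (σ i) * S n m σ := by
  unfold S Ei
  have hT : ∀ a, ext (phL n m) σ (phi n m i a) = phi n m (σ i) a := by
    intro a
    rcases Fin.eq_zero_or_eq_succ a with rfl | ⟨a, rfl⟩
    · exact ext_apply (phL n m) σ i
    · exact ext_apply' _ _ _ (phL_notMem a)
  rw [pl_conj (phi n m i) (phi n m (σ i)) (ext (phL n m) σ) hT, mul_assoc, mul_assoc,
    ← map_mul (MonoidAlgebra.of ℚ _), inv_mul_cancel, map_one, mul_one]

/-- Strand permutations commute with `1 ⊗ z`, exactly. -/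
theorem S_Z (σ : Perm (Fin n)) : S n m σ * C.Z n = C.Z n * S n m σ := by
  unfold S Z
  have hT : ∀ a, ext (phL n m) σ (phR n m a) = phR n m a := fun a =>
    ext_apply' _ _ _ (phL_notMem a)
  have h := pl_conj (phR n m) (phR n m) (ext (phL n m) σ) hT C.z
  conv_rhs => rw [h, mul_assoc, mul_assoc, ← map_mul (MonoidAlgebra.of ℚ _), inv_mul_cancel,
    map_one, mul_one]

theorem act_S (σ : Perm (Fin n)) (v : Fin n → Lt k l) (f : W k l (Fin m)) :
    act k l _ (S n m σ) (tn v f) = eps σ (pv v) • tn (v ∘ ⇑σ⁻¹) f := by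
  unfold S; rw [act_of, rho_tn]

/-- The sign operators. -/
noncomputable def SG (σ : Perm (Fin n)) : MonoidAlgebra ℚ (Perm (Fin (n + m))) :=
  ((prs (Fin n)).toList.map (fun q => if σ q.2 < σ q.1 then
    1 - (2 : ℚ) • (C.Ei n q.1 * C.Ei n q.2) else 1)).prod

theorem act_SG {ξ : W k l (Fin m)} (hξ : ξ ∈ C.Xi) (σ : Perm (Fin n)) (v : Fin n → Lt k l) :
    act k l _ (C.SG σ) (tn v ξ) = eps σ (pv v) • tn v ξ := by
  have h1 : ∀ L : List (Fin n × Fin n), act k l _ ((L.map (fun q => if σ q.2 < σ q.1 then
      1 - (2 : ℚ) • (C.Ei n q.1 * C.Ei n q.2) else 1)).prod) (tn v ξ)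
      = ((L.map (fun q => if σ q.2 < σ q.1 then (if pv v q.1 && pv v q.2 then (-1 : ℚ) else 1)
        else 1)).prod) • tn v ξ := by
    intro L
    induction L with
    | nil => simp
    | cons q L ih =>
      rw [List.map_cons, List.prod_cons, List.map_cons, List.prod_cons, map_mul,
        Module.End.mul_apply, ih, map_smul, mul_comm, mul_smul]
      congr 1
      by_cases hq : σ q.2 < σ q.1
      · rw [if_pos hq, if_pos hq, map_sub, map_one, map_smul, map_mul, LinearMap.sub_apply,
          LinearMap.smul_apply, Module.End.mul_apply, act_Ei C hξ, map_smul, act_Ei C hξ,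
          Module.End.one_apply, smul_smul, smul_smul]
        nth_rewrite 1 [← one_smul ℚ (tn v ξ)]
        rw [← sub_smul]
        congr 1
        unfold pv
        cases odd (v q.1) <;> cases odd (v q.2) <;> simp
        norm_num
      · rw [if_neg hq, if_neg hq, map_one, one_smul]; rfl
  unfold SG
  rw [h1, Finset.prod_map_toList]
  congr 1
  unfold eps
  refine Finset.prod_congr rfl (fun q hq => ?_)
  rw [mem_prs] at hq
  unfold H
  by_cases h2 : σ q.2 < σ q.1
  · have h3 : ¬ σ q.1 < σ q.2 := not_lt.2 h2.le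
    simp [h2, h3, hq]
  · have h3 : σ q.1 < σ q.2 := lt_of_le_of_ne (not_lt.1 h2) (fun e => hq.ne (σ.injective e))
    simp [h2, h3, hq]

/-- The plain flips. -/
noncomputable def fl (σ : Perm (Fin n)) : MonoidAlgebra ℚ (Perm (Fin (n + m))) :=
  S n m σ * C.SG σ

theorem act_fl {ξ : W k l (Fin m)} (hξ : ξ ∈ C.Xi) (σ : Perm (Fin n)) (v : Fin n → Lt k l) :
    act k l _ (C.fl σ) (tn v ξ) = tn (v ∘ ⇑σ⁻¹) ξ := by
  unfold fl
  rw [map_mul, Module.End.mul_apply, act_SG C hξ, map_smul, act_S, smul_smul, eps_sq, one_smul]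

theorem fl_mul (σ τ : Perm (Fin n)) :
    act k l _ ((C.fl σ * C.fl τ - C.fl (σ * τ)) * C.Z n) = 0 := by
  refine C.ker_of _ (fun ξ hξ v => ?_)
  rw [map_sub, map_mul, LinearMap.sub_apply, Module.End.mul_apply, act_fl C hξ, act_fl C hξ, act_fl C hξ,
    sub_eq_zero]
  congr 1

theorem fl_one : act k l _ ((C.fl (1 : Perm (Fin n)) - 1) * C.Z n) = 0 := by
  refine C.ker_of _ (fun ξ hξ v => ?_)
  rw [map_sub, map_one, LinearMap.sub_apply, act_fl C hξ, Module.End.one_apply, sub_eq_zero]
  congr 1

theorem fl_Ei (σ : Perm (Fin n)) (i : Fin n) :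
    act k l _ ((C.fl σ * C.Ei n i - C.Ei n (σ i) * C.fl σ) * C.Z n) = 0 := by
  refine C.ker_of _ (fun ξ hξ v => ?_)
  rw [map_sub, map_mul, map_mul, LinearMap.sub_apply, Module.End.mul_apply,
    Module.End.mul_apply, act_fl C hξ, act_Ei C hξ, map_smul, act_fl C hξ, act_Ei C hξ, sub_eq_zero]
  congr 2
  simp

theorem Z_fl (σ : Perm (Fin n)) :
    act k l _ ((C.Z n * C.fl σ - C.fl σ) * C.Z n) = 0 := by
  refine C.ker_of _ (fun ξ hξ v => ?_)
  rw [map_sub, map_mul, LinearMap.sub_apply, Module.End.mul_apply, act_fl C hξ, act_Z C hξ, sub_self]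

/-- The antisymmetrizer of the plain flips on more than `k + l` strands is zero. -/
theorem alt_fl (T : Finset (Fin n)) (hT : k + l < T.card) :
    act k l _ ((∑ σ ∈ univ.filter (fun σ : Perm (Fin n) => ∀ i, i ∉ T → σ i = i),
      ((Perm.sign σ : ℤ) : ℚ) • C.fl σ) * C.Z n) = 0 := by
  classical
  refine C.ker_of _ (fun ξ hξ v => ?_)
  rw [map_sum, LinearMap.sum_apply]
  simp only [map_smul, LinearMap.smul_apply, act_fl C hξ]
  -- two positions with the same letter
  have hcard : (univ : Finset (Lt k l)).card < T.card := by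
    rw [Finset.card_univ, Fintype.card_sum, Fintype.card_fin, Fintype.card_fin]; exact hT
  obtain ⟨i, hi, j, hj, hij, hv⟩ := Finset.exists_ne_map_eq_of_card_lt_of_maps_to hcard
    (fun i _ => Finset.mem_univ (v i))
  refine Finset.sum_involution (fun σ _ => σ * swap i j) ?_ ?_ ?_ ?_
  · intro σ _
    rw [Perm.sign_mul, Perm.sign_swap hij]
    have h1 : v ∘ ⇑(σ * swap i j)⁻¹ = v ∘ ⇑σ⁻¹ := by
      funext x
      rw [mul_inv_rev, swap_inv]
      simp only [Function.comp_apply, Perm.mul_apply]
      by_cases h2 : σ⁻¹ x = i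
      · rw [h2, swap_apply_left, hv]
      · by_cases h3 : σ⁻¹ x = j
        · rw [h3, swap_apply_right, hv]
        · rw [swap_apply_of_ne_of_ne h2 h3]
    rw [h1, ← add_smul]
    simp
  · intro σ _ _ h
    have : swap i j = 1 := by
      have := congrArg (fun x => σ⁻¹ * x) h
      simpa using this
    exact hij (swap_eq_one_iff.1 this)
  · intro σ hσ
    rw [Finset.mem_filter] at *
    refine ⟨Finset.mem_univ _, fun x hx => ?_⟩
    rw [Perm.mul_apply, swap_apply_of_ne_of_ne, hσ.2 x hx]
    · rintro rfl; exact hx hi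
    · rintro rfl; exact hx hj
  · intro σ _
    rw [mul_assoc, swap_mul_self, mul_one]

end CatP

end Pool.PI34.Super

end

/-! ### part SK3 -/
section

/-!
PI34, E-block for odd primes, file SK3 (general coefficients): components with respect to the first strand, the formula for the
transpositions `(0 s)`.
-/

set_option linter.unusedSectionVars false
set_option linter.unusedSimpArgs false

namespace Pool.PI34.SK

open Equiv Finset
open Pool.PI34.Super (Lt odd prs mem_prs pv prod_prs_succ)

variable {K : Type} [CommRing K] {k l : ℕ} {m : ℕ}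

/-- The component of `u` with first letter `c`. -/
def comp (c : Lt k l) : W K k l (Fin (m + 1)) →ₗ[K] W K k l (Fin m) where
  toFun u := fun w => u (Fin.cons c w)
  map_add' f g := rfl
  map_smul' c f := rfl

theorem comp_apply (c : Lt k l) (u : W K k l (Fin (m + 1))) (w : Fin m → Lt k l) :
    comp c u w = u (Fin.cons c w) := rfl

theorem ext_comp {u v : W K k l (Fin (m + 1))} (h : ∀ c, comp c u = comp c v) : u = v := by
  funext w
  have h1 := congrFun (h (w 0)) (Fin.tail w)
  simpa [comp_apply, Fin.cons_self_tail] using h1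

/-- `(-1)^{|b||c|}`. -/
def pm (b c : Lt k l) : K := if odd b && odd c then -1 else 1

theorem H_swap_zero (s j : Fin m) :
    (H (swap (0 : Fin (m + 1)) s.succ) 0 j.succ : K) = if j ≤ s then -1 else 1 := by
  unfold H
  rw [swap_apply_left]
  by_cases h : j = s
  · subst h; simp [Fin.succ_pos]
  · have h1 : swap (0 : Fin (m + 1)) s.succ j.succ = j.succ :=
      swap_apply_of_ne_of_ne (Fin.succ_ne_zero j) (fun e => h (Fin.succ_injective _ e))
    rw [h1]
    by_cases h2 : j ≤ s
    · have : ¬ s < j := not_lt.2 h2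
      simp [Fin.succ_pos, Fin.succ_lt_succ_iff, h2, this]
    · have : s < j := not_le.1 h2
      simp [Fin.succ_pos, Fin.succ_lt_succ_iff, h2, this]

theorem H_swap_succ (s i j : Fin m) (hij : i < j) :
    (H (swap (0 : Fin (m + 1)) s.succ) i.succ j.succ : K) = if j = s then -1 else 1 := by
  unfold H
  by_cases h : j = s
  · subst h
    have h1 : swap (0 : Fin (m + 1)) j.succ i.succ = i.succ :=
      swap_apply_of_ne_of_ne (Fin.succ_ne_zero i) (fun e => hij.ne (Fin.succ_injective _ e))
    rw [h1, swap_apply_right]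
    simp [Fin.succ_lt_succ_iff, hij]
  · have h1 : swap (0 : Fin (m + 1)) s.succ j.succ = j.succ :=
      swap_apply_of_ne_of_ne (Fin.succ_ne_zero j) (fun e => h (Fin.succ_injective _ e))
    rw [h1, if_neg h]
    by_cases h2 : i = s
    · subst h2
      rw [swap_apply_right]
      simp [Fin.succ_lt_succ_iff, hij, Fin.succ_pos]
    · have h3 : swap (0 : Fin (m + 1)) s.succ i.succ = i.succ :=
        swap_apply_of_ne_of_ne (Fin.succ_ne_zero i) (fun e => h2 (Fin.succ_injective _ e))
      rw [h3]
      simp

theorem cons_comp_swap (c : Lt k l) (w : Fin m → Lt k l) (s : Fin m) :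
    (Fin.cons c w : Fin (m + 1) → Lt k l) ∘ swap (0 : Fin (m + 1)) s.succ
      = (Fin.cons (w s) (Function.update w s c) : Fin (m + 1) → Lt k l) := by
  funext j
  refine Fin.cases ?_ (fun j => ?_) j
  · simp
  · by_cases h : j = s
    · subst h; simp
    · have h1 : swap (0 : Fin (m + 1)) s.succ j.succ = j.succ :=
        swap_apply_of_ne_of_ne (Fin.succ_ne_zero j) (fun e => h (Fin.succ_injective _ e))
      simp [h1, Function.update_of_ne h]

theorem eps_swap_zero (w : Fin m → Lt k l) (s : Fin m) (c : Lt k l) :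
    (eps (swap (0 : Fin (m + 1)) s.succ)
      (pv (Fin.cons (w s) (Function.update w s c) : Fin (m + 1) → Lt k l)) : K)
      = pm (w s) c * bsg (w s) c w s := by
  classical
  unfold eps
  rw [prod_prs_succ]
  have h1 : ∏ j : Fin m, (if pv (Fin.cons (w s) (Function.update w s c) :
      Fin (m + 1) → Lt k l) (0 : Fin (m + 1)) && pv (Fin.cons (w s) (Function.update w s c) :
      Fin (m + 1) → Lt k l) j.succ then (H (swap (0 : Fin (m + 1)) s.succ) 0 j.succ : K) else 1)
      = pm (w s) c * ∏ j ∈ univ.filter (· < s), pm (w s) (w j) := by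
    have hs : s ∈ (univ : Finset (Fin m)) := Finset.mem_univ s
    rw [← Finset.mul_prod_erase univ _ hs]
    congr 1
    · rw [H_swap_zero]
      simp [pv, pm]
    · rw [Finset.prod_filter]
      rw [← Finset.mul_prod_erase univ _ hs]
      rw [if_neg (lt_irrefl s), one_mul]
      refine Finset.prod_congr rfl (fun j hj => ?_)
      rw [Finset.mem_erase] at hj
      rw [H_swap_zero]
      simp only [pv, Fin.cons_zero, Fin.cons_succ, Function.update_of_ne hj.1]
      by_cases h2 : j < s
      · simp [h2, h2.le, pm]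
      · have h3 : ¬ j ≤ s := fun h => h2 (lt_of_le_of_ne h hj.1)
        simp [h2, h3]
  have h2 : ∏ q ∈ prs (Fin m), (if pv (Fin.cons (w s) (Function.update w s c) :
      Fin (m + 1) → Lt k l) q.1.succ && pv (Fin.cons (w s) (Function.update w s c) :
      Fin (m + 1) → Lt k l) q.2.succ then (H (swap (0 : Fin (m + 1)) s.succ) q.1.succ q.2.succ : K)
      else 1) = ∏ j ∈ univ.filter (· < s), pm c (w j) := by
    have h3 : ∀ q ∈ prs (Fin m), (if pv (Fin.cons (w s) (Function.update w s c) :
      Fin (m + 1) → Lt k l) q.1.succ && pv (Fin.cons (w s) (Function.update w s c) :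
      Fin (m + 1) → Lt k l) q.2.succ then (H (swap (0 : Fin (m + 1)) s.succ) q.1.succ q.2.succ : K)
      else 1) = if q.2 = s then pm c (w q.1) else 1 := by
      intro q hq
      rw [mem_prs] at hq
      rw [H_swap_succ s q.1 q.2 hq]
      by_cases h4 : q.2 = s
      · have h5 : q.1 ≠ s := by rw [← h4]; exact hq.ne
        simp [pv, h4, pm, Function.update_of_ne h5, Bool.and_comm]
      · simp [h4]
    rw [Finset.prod_congr rfl h3, ← Finset.prod_filter]
    refine Finset.prod_bij' (fun q _ => q.1) (fun j _ => (j, s)) ?_ ?_ ?_ ?_ ?_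
    · intro q hq
      rw [Finset.mem_filter, mem_prs] at hq
      rw [Finset.mem_filter]
      exact ⟨Finset.mem_univ _, by rw [← hq.2]; exact hq.1⟩
    · intro j hj
      rw [Finset.mem_filter] at hj
      rw [Finset.mem_filter, mem_prs]
      exact ⟨hj.2, rfl⟩
    · intro q hq
      rw [Finset.mem_filter] at hq
      exact Prod.ext rfl hq.2.symm
    · intro j hj; rfl
    · intro q hq; rfl
  rw [h1, h2, mul_assoc, ← Finset.prod_mul_distrib]
  congr 1
  unfold bsg
  refine Finset.prod_congr rfl (fun j _ => ?_)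
  unfold pm eta
  cases odd (w s) <;> cases odd c <;> cases odd (w j) <;> simp

theorem comp_rho_swap (u : W K k l (Fin (m + 1))) (s : Fin m) (c : Lt k l) :
    comp c (rho K k l _ (swap (0 : Fin (m + 1)) s.succ) u)
      = ∑ b, (pm b c : K) • eop b c s (comp b u) := by
  classical
  funext w
  rw [comp_apply, rho_apply, cons_comp_swap, eps_swap_zero]
  rw [Finset.sum_apply, Finset.sum_eq_single (w s)]
  · simp only [Pi.smul_apply, smul_eq_mul, eop_apply, if_true, comp_apply]
    ring
  · intro b _ hb
    simp only [Pi.smul_apply, smul_eq_mul, eop_apply]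
    rw [if_neg (fun e => hb e.symm), mul_zero]
  · intro h; exact absurd (Finset.mem_univ _) h

/-- The sum of the transpositions `(0 s)`, `s ∈ B`. -/
noncomputable def XB (A : Type) [CommRing A] (B : Finset (Fin m)) :
    MonoidAlgebra A (Perm (Fin (m + 1))) :=
  ∑ s ∈ B, MonoidAlgebra.of A _ (swap (0 : Fin (m + 1)) s.succ)

theorem comp_XB {A : Type} [CommRing A] [Algebra A K] (B : Finset (Fin m))
    (u : W K k l (Fin (m + 1))) (c : Lt k l) :
    comp c (act A K k l _ (XB A B) u) = ∑ b, (pm b c : K) • EB B b c (comp b u) := by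
  unfold XB
  rw [map_sum, LinearMap.sum_apply, map_sum]
  simp only [act_of, comp_rho_swap]
  rw [Finset.sum_comm]
  refine Finset.sum_congr rfl (fun b _ => ?_)
  unfold EB
  rw [LinearMap.sum_apply, Finset.smul_sum]

theorem comp_EE (a b c : Lt k l) (u : W K k l (Fin (m + 1))) :
    comp c (EE a b u)
      = (if c = a then comp b u else 0) + (eta a b c : K) • EE a b (comp c u) := by
  unfold EE EB
  rw [LinearMap.sum_apply, Fin.sum_univ_succ, map_add]
  congr 1
  · funext w
    rw [comp_apply, eop_apply]
    have h1 : (bsg a b (Fin.cons c w : Fin (m + 1) → Lt k l) 0 : K) = 1 := by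
      unfold bsg
      refine Finset.prod_eq_one (fun j hj => ?_)
      rw [Finset.mem_filter] at hj
      exact absurd hj.2 (Fin.not_lt_zero j)
    rw [h1, Fin.cons_zero, one_mul]
    split_ifs
    · rw [comp_apply, Fin.update_cons_zero]
    · rfl
  · rw [map_sum, LinearMap.sum_apply, Finset.smul_sum]
    refine Finset.sum_congr rfl (fun s _ => ?_)
    funext w
    rw [comp_apply, Pi.smul_apply, smul_eq_mul, eop_apply, eop_apply, Fin.cons_succ]
    have h1 : (bsg a b (Fin.cons c w : Fin (m + 1) → Lt k l) s.succ : K)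
        = eta a b c * bsg a b w s := by
      unfold bsg
      rw [Finset.prod_filter, Finset.prod_filter, Fin.prod_univ_succ]
      simp [Fin.succ_lt_succ_iff, Fin.succ_pos]
    rw [h1, ← Fin.cons_update, comp_apply]
    split_ifs <;> ring

end Pool.PI34.SK

end

/-! ### part H4_CL -/
section

/-!
PI34, block H4, file 10: the catalyst lemma.
-/

set_option autoImplicit false
set_option linter.unusedSectionVars false
set_option linter.unusedDecidableInType false
set_option linter.unusedFintypeInType false

namespace Pool.PI34.H4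

open Equiv Finset

/-- The columns: `Q - 1` columns of each length below `N`. -/
theorem exists_cols (N Q : ℕ) (hQ : 1 ≤ Q) :
    ∃ (m : ℕ) (col : Fin m → Fin N × Fin (Q - 1)) (row : Fin m → Fin N),
      Cols col row (fun p => (p.1 : ℕ)) ∧
        ∀ a, (cnt row a : ℤ) = ((Q : ℤ) - 1) * ((N : ℤ) - 1 - (a : ℕ)) := by
  let S := Σ p : Fin N × Fin (Q - 1), Fin (p.1 : ℕ)
  let e : Fin (Fintype.card S) ≃ S := (Fintype.equivFin S).symm
  let col : Fin (Fintype.card S) → Fin N × Fin (Q - 1) := fun x => (e x).1
  let row : Fin (Fintype.card S) → Fin N :=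
    fun x => ⟨(e x).2, lt_trans (e x).2.2 (e x).1.1.2⟩
  have hc : Cols col row (fun p => (p.1 : ℕ)) := by
    refine ⟨fun x => (e x).2.2, fun p i hi => ?_, fun x y h1 h2 => ?_⟩
    · refine ⟨e.symm ⟨p, ⟨i, hi⟩⟩, ?_, ?_⟩
      · exact congrArg (fun s : S => s.1) (e.apply_symm_apply (⟨p, ⟨i, hi⟩⟩ : S))
      · exact congrArg (fun s : S => (s.2 : ℕ)) (e.apply_symm_apply (⟨p, ⟨i, hi⟩⟩ : S))
    · apply e.injective
      have h3 : ((e x).2 : ℕ) = (e y).2 := congrArg Fin.val h2
      have h4 : (e x).1 = (e y).1 := h1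
      generalize e x = sx at h3 h4
      generalize e y = sy at h3 h4
      obtain ⟨p, i⟩ := sx
      obtain ⟨q, j⟩ := sy
      simp only at h3 h4
      subst h4
      rw [Fin.ext h3]
  refine ⟨Fintype.card S, col, row, hc, fun a => ?_⟩
  have h1 : cnt row a = ((Finset.Ioi a) ×ˢ (univ : Finset (Fin (Q - 1)))).card := by
    unfold cnt
    refine Finset.card_bij (fun x _ => col x) ?_ ?_ ?_
    · intro x hx
      rw [mem_filter] at hx
      rw [Finset.mem_product, Finset.mem_Ioi]
      refine ⟨?_, mem_univ _⟩
      have := hc.lt x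
      rw [hx.2] at this
      exact this
    · intro x hx y hy hxy
      rw [mem_filter] at hx hy
      exact hc.inj x y hxy (hx.2.trans hy.2.symm)
    · intro p hp
      rw [Finset.mem_product, Finset.mem_Ioi] at hp
      obtain ⟨x, hx1, hx2⟩ := hc.ex p (a : ℕ) hp.1
      refine ⟨x, ?_, hx1⟩
      rw [mem_filter]
      exact ⟨mem_univ _, Fin.ext hx2⟩
  rw [h1, Finset.card_product, Fin.card_Ioi, Finset.card_univ, Fintype.card_fin]
  have h2 : (a : ℕ) < N := a.2
  rw [Nat.cast_mul, Nat.cast_sub hQ, Nat.cast_sub (by omega), Nat.cast_sub (by omega)]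
  push_cast
  ring

/-- **The catalyst lemma.** -/
theorem CL (N Q : ℕ) (hQ : 1 ≤ Q) : ∃ D : ℤ, 0 < D ∧
    ∀ (T C : Type) [Fintype T] [DecidableEq T] [DecidableEq C] (c : T → C),
      ∃ u : ℤ, IsCoprime u (Q : ℤ) ∧ (u * D) • (1 : P T) ∈ J N c := by
  obtain ⟨m, col, row, hc, hrow⟩ := exists_cols N Q hQ
  obtain ⟨z0, hSA, hne, hz0⟩ := exists_z hc
  let z : P (Fin m) := z0 * z0
  have hz : ZP N (Q : ℤ) z := by
    intro u' h1 h2 w hw a
    have e : act N _ z u' = act N _ z0 (act N _ z0 u') := act_mul N z0 z0 u'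
    rw [e] at h1 h2 hw
    rw [hz0 _ h1 h2 w hw a, hrow]
  have htr := trace_sq_pos hSA row hne
  obtain ⟨d0, hd0, _⟩ := J_trace (N := N) (fun _ : Fin 0 => (0 : ℕ)) z 0
    (by rw [zero_smul]; exact AddSubgroup.zero_mem _)
  have hd0' : 0 < d0 := by
    have : (0 : ℚ) < d0 := by rw [hd0]; exact htr
    exact_mod_cast this
  refine ⟨((N + 1).factorial : ℤ) * d0, by positivity, fun T C _ _ _ c => ?_⟩
  by_cases h : ∀ a, (univ.filter (fun t => c t = a)).card ≤ N
  · obtain ⟨F, hF, hJ⟩ := catalyst hz c h
    obtain ⟨d, hd, hJ'⟩ := J_trace c z _ hJ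
    have hdd : d = d0 := by
      have : (d : ℚ) = d0 := by rw [hd, hd0]
      exact_mod_cast this
    refine ⟨F, hF, ?_⟩
    have e : F * (((N + 1).factorial : ℤ) * d0) = ((N : ℤ) + 1) * ((N.factorial : ℤ) * F * d) := by
      rw [hdd, Nat.factorial_succ]
      push_cast
      ring
    rw [e, mul_smul]
    exact (J N c).zsmul_mem hJ' _
  · push Not at h
    obtain ⟨a, ha⟩ := h
    refine ⟨1, isCoprime_one_left, ?_⟩
    rw [one_mul, mul_comm, mul_smul]
    exact (J N c).zsmul_mem (large_block c a ha) _

end Pool.PI34.H4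

end

/-! ### part P2a -/
section

/-!
PI34, block P, file 1: catalysts with coefficients in a commutative ring `Λ → ℚ`, and their
relations in a ring on which `K(k|l)` acts by zero.
-/

set_option linter.unusedSectionVars false
set_option linter.unusedSimpArgs false

namespace Pool.PI34.Super

open Equiv Finset

section base

variable {Λ : Type} [CommRing Λ]

/-- base change `Λ[G] → ℚ[G]` -/
noncomputable def mj (j : Λ →+* ℚ) (G : Type) [Group G] :
    MonoidAlgebra Λ G →+* MonoidAlgebra ℚ G :=
  MonoidAlgebra.mapRingHom G j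

theorem mj_of (j : Λ →+* ℚ) {G : Type} [Group G] (g : G) :
    mj j G (MonoidAlgebra.of Λ G g) = MonoidAlgebra.of ℚ G g := by
  simp [mj, MonoidAlgebra.of_apply]

theorem mj_smul (j : Λ →+* ℚ) {G : Type} [Group G] (c : Λ) (y : MonoidAlgebra Λ G) :
    mj j G (c • y) = j c • mj j G y := by
  ext g
  simp [mj]

theorem mj_zsmul (j : Λ →+* ℚ) {G : Type} [Group G] (c : ℤ) (y : MonoidAlgebra Λ G) :
    mj j G (c • y) = (c : ℚ) • mj j G y := by
  rw [map_zsmul, Int.cast_smul_eq_zsmul]

variable (Λ) in
/-- placement with coefficients in `Λ` -/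
noncomputable def plL {κ ι : Type} [Fintype κ] [LinearOrder κ] [Fintype ι] [LinearOrder ι]
    (φ : κ ↪o ι) : MonoidAlgebra Λ (Perm κ) →+* MonoidAlgebra Λ (Perm ι) :=
  MonoidAlgebra.mapDomainRingHom Λ (ext φ)

variable {κ ι : Type} [Fintype κ] [LinearOrder κ] [Fintype ι] [LinearOrder ι]

theorem plL_of (φ : κ ↪o ι) (σ : Perm κ) :
    plL Λ φ (MonoidAlgebra.of Λ _ σ) = MonoidAlgebra.of Λ _ (ext φ σ) := by
  simp [plL]

theorem plL_smul (φ : κ ↪o ι) (c : Λ) (y : MonoidAlgebra Λ (Perm κ)) :
    plL Λ φ (c • y) = c • plL Λ φ y := by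
  unfold plL
  exact MonoidAlgebra.mapDomain_smul _ _ _

theorem mj_plL (j : Λ →+* ℚ) (φ : κ ↪o ι) (y : MonoidAlgebra Λ (Perm κ)) :
    mj j _ (plL Λ φ y) = pl φ (mj j _ y) := by
  induction y using MonoidAlgebra.induction_on with
  | of σ => rw [plL_of, mj_of, mj_of, pl_of]
  | add x y hx hy => rw [map_add, map_add, hx, hy, map_add, map_add]
  | smul r x hx => rw [plL_smul, mj_smul, hx, mj_smul, map_smul]

theorem plL_trans {ι' : Type} [Fintype ι'] [LinearOrder ι'] (φ : κ ↪o ι) (ψ : ι ↪o ι')
    (hext : ∀ σ : Perm κ, ext ψ (ext φ σ) = ext (φ.trans ψ) σ)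
    (y : MonoidAlgebra Λ (Perm κ)) :
    plL Λ ψ (plL Λ φ y) = plL Λ (φ.trans ψ) y := by
  induction y using MonoidAlgebra.induction_on with
  | of σ => rw [plL_of, plL_of, plL_of, hext]
  | add x y hx hy => rw [map_add, map_add, map_add, hx, hy]
  | smul r x hx => rw [plL_smul, plL_smul, plL_smul, hx]

theorem plL_conj (φ φ' : κ ↪o ι) (T : Perm ι) (h : ∀ a, T (φ a) = φ' a)
    (y : MonoidAlgebra Λ (Perm κ)) :
    plL Λ φ' y = MonoidAlgebra.of Λ _ T * plL Λ φ y * MonoidAlgebra.of Λ _ T⁻¹ := by
  induction y using MonoidAlgebra.induction_on with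
  | of σ => rw [plL_of, plL_of, ext_conj φ φ' T h, map_mul, map_mul]
  | add x y hx hy => rw [map_add, map_add, hx, hy, mul_add, add_mul]
  | smul r x hx => rw [plL_smul, plL_smul, hx, mul_smul_comm, smul_mul_assoc]

end base

/-- A catalyst with coefficients in `Λ`. -/
structure CatL {Λ : Type} [CommRing Λ] (j : Λ →+* ℚ) (k l m : ℕ) where
  /-- the rational catalyst -/
  C : CatP k l m
  /-- the idempotent -/
  zL : MonoidAlgebra Λ (Perm (Fin m))
  /-- the colour element -/
  EL : MonoidAlgebra Λ (Perm (Fin (m + 1)))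
  hz : mj j _ zL = C.z
  hE : mj j _ EL = C.E

namespace CatL

variable {Λ : Type} [CommRing Λ] {j : Λ →+* ℚ} {k l m : ℕ} (L : CatL j k l m) {n : ℕ}

/-- `1 ⊗ z` -/
noncomputable def Z (n : ℕ) : MonoidAlgebra Λ (Perm (Fin (n + m))) := plL Λ (phR n m) L.zL

/-- the colour element on strand `i` -/
noncomputable def Ei (n : ℕ) (i : Fin n) : MonoidAlgebra Λ (Perm (Fin (n + m))) :=
  plL Λ (phi n m i) L.EL

/-- a permutation of the strands -/
noncomputable def S (Λ : Type) [CommRing Λ] (n m : ℕ) (σ : Perm (Fin n)) :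
    MonoidAlgebra Λ (Perm (Fin (n + m))) :=
  MonoidAlgebra.of Λ _ (ext (phL n m) σ)

/-- the sign operators -/
noncomputable def SG (σ : Perm (Fin n)) : MonoidAlgebra Λ (Perm (Fin (n + m))) :=
  ((prs (Fin n)).toList.map (fun q => if σ q.2 < σ q.1 then
    1 - 2 * (L.Ei n q.1 * L.Ei n q.2) else 1)).prod

/-- the plain flips -/
noncomputable def fl (σ : Perm (Fin n)) : MonoidAlgebra Λ (Perm (Fin (n + m))) :=
  S Λ n m σ * L.SG σ

theorem mj_Z : mj j _ (L.Z n) = L.C.Z n := by
  unfold Z CatP.Z; rw [mj_plL, L.hz]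

theorem mj_Ei (i : Fin n) : mj j _ (L.Ei n i) = L.C.Ei n i := by
  unfold Ei CatP.Ei; rw [mj_plL, L.hE]

theorem mj_S (σ : Perm (Fin n)) : mj j _ (S Λ n m σ) = CatP.S n m σ := by
  unfold S CatP.S; rw [mj_of]

theorem mj_SG (σ : Perm (Fin n)) : mj j _ (L.SG σ) = L.C.SG σ := by
  unfold SG CatP.SG
  rw [map_list_prod, List.map_map]
  congr 2
  funext q
  simp only [Function.comp_apply]
  split_ifs
  · rw [map_sub, map_one, map_mul, map_mul, mj_Ei, mj_Ei, map_ofNat, two_mul, two_smul]
  · rw [map_one]

theorem mj_fl (σ : Perm (Fin n)) : mj j _ (L.fl σ) = L.C.fl σ := by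
  unfold fl CatP.fl; rw [map_mul, mj_S, mj_SG]

/-! ### relations in a ring on which the kernel acts by zero -/

variable {EE : Type} [Ring EE] (a : MonoidAlgebra Λ (Perm (Fin (n + m))) →+* EE)
  (hK : ∀ y, act k l _ (mj j _ y) = 0 → a y = 0)

include hK

theorem a_Z : a (L.Z n) * a (L.Z n) = a (L.Z n) := by
  rw [← map_mul, ← sub_eq_zero, ← map_sub]
  apply hK
  have h := L.C.Z_idem (n := n)
  rw [map_sub, map_mul, mj_Z]
  rw [sub_mul, one_mul] at h
  exact h

theorem a_Z_Ei (i : Fin n) : a (L.Z n) * a (L.Ei n i) * a (L.Z n) = a (L.Ei n i) * a (L.Z n) := by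
  rw [← map_mul, ← map_mul, ← map_mul, ← sub_eq_zero, ← map_sub]
  apply hK
  have h := L.C.Z_Ei (n := n) i
  rw [map_sub, map_mul, map_mul, map_mul, mj_Z, mj_Ei]
  rw [sub_mul] at h
  exact h

theorem a_Ei_idem (i : Fin n) :
    a (L.Ei n i) * a (L.Ei n i) * a (L.Z n) = a (L.Ei n i) * a (L.Z n) := by
  rw [← map_mul, ← map_mul, ← map_mul, ← sub_eq_zero, ← map_sub]
  apply hK
  have h := L.C.Ei_idem (n := n) i
  rw [map_sub, map_mul, map_mul, map_mul, mj_Z, mj_Ei]
  rw [sub_mul] at h
  exact h

theorem a_Ei_comm (i i' : Fin n) :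
    a (L.Ei n i) * a (L.Ei n i') * a (L.Z n) = a (L.Ei n i') * a (L.Ei n i) * a (L.Z n) := by
  rw [← map_mul, ← map_mul, ← map_mul, ← map_mul, ← sub_eq_zero, ← map_sub]
  apply hK
  have h := L.C.Ei_comm (n := n) i i'
  rw [map_sub, map_mul, map_mul, map_mul, map_mul, mj_Z, mj_Ei, mj_Ei]
  rw [sub_mul] at h
  exact h

theorem a_fl_mul (σ τ : Perm (Fin n)) :
    a (L.fl σ) * a (L.fl τ) * a (L.Z n) = a (L.fl (σ * τ)) * a (L.Z n) := by
  rw [← map_mul, ← map_mul, ← map_mul, ← sub_eq_zero, ← map_sub]
  apply hK
  have h := L.C.fl_mul (n := n) σ τ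
  rw [map_sub, map_mul, map_mul, map_mul, mj_Z, mj_fl, mj_fl, mj_fl]
  rw [sub_mul] at h
  exact h

theorem a_fl_one : a (L.fl (1 : Perm (Fin n))) * a (L.Z n) = a (L.Z n) := by
  rw [← map_mul, ← sub_eq_zero, ← map_sub]
  apply hK
  have h := L.C.fl_one (n := n)
  rw [map_sub, map_mul, mj_Z, mj_fl]
  rw [sub_mul, one_mul] at h
  exact h

theorem a_Z_fl (σ : Perm (Fin n)) :
    a (L.Z n) * a (L.fl σ) * a (L.Z n) = a (L.fl σ) * a (L.Z n) := by
  rw [← map_mul, ← map_mul, ← map_mul, ← sub_eq_zero, ← map_sub]
  apply hK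
  have h := L.C.Z_fl (n := n) σ
  rw [map_sub, map_mul, map_mul, map_mul, mj_Z, mj_fl]
  rw [sub_mul] at h
  exact h

theorem a_alt (T : Finset (Fin n)) (hT : k + l < T.card) :
    (∑ σ ∈ univ.filter (fun σ : Perm (Fin n) => ∀ i, i ∉ T → σ i = i),
      ((Perm.sign σ : ℤˣ) : ℤ) • a (L.fl σ)) * a (L.Z n) = 0 := by
  have h1 : (∑ σ ∈ univ.filter (fun σ : Perm (Fin n) => ∀ i, i ∉ T → σ i = i),
      ((Perm.sign σ : ℤˣ) : ℤ) • a (L.fl σ)) * a (L.Z n)
      = a ((∑ σ ∈ univ.filter (fun σ : Perm (Fin n) => ∀ i, i ∉ T → σ i = i),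
      ((Perm.sign σ : ℤˣ) : ℤ) • (L.fl σ)) * L.Z n) := by
    rw [map_mul, map_sum]
    congr 1
    exact Finset.sum_congr rfl (fun σ _ => (map_zsmul a _ _).symm)
  rw [h1]
  apply hK
  rw [map_mul, map_sum, mj_Z]
  have h2 : ∀ σ : Perm (Fin n), mj j _ (((Perm.sign σ : ℤˣ) : ℤ) • (L.fl σ))
      = ((Perm.sign σ : ℤ) : ℚ) • L.C.fl σ := fun σ => by rw [mj_zsmul, mj_fl]
  rw [Finset.sum_congr rfl (fun σ _ => h2 σ)]
  exact L.C.alt_fl T hT

omit hK

theorem S_mul (σ τ : Perm (Fin n)) : S Λ n m (σ * τ) = S Λ n m σ * S Λ n m τ := by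
  unfold S; rw [map_mul, map_mul]

theorem S_Ei (σ : Perm (Fin n)) (i : Fin n) :
    S Λ n m σ * L.Ei n i = L.Ei n (σ i) * S Λ n m σ := by
  unfold S Ei
  have hT : ∀ a, ext (phL n m) σ (phi n m i a) = phi n m (σ i) a := by
    intro a
    rcases Fin.eq_zero_or_eq_succ a with rfl | ⟨a, rfl⟩
    · exact ext_apply (phL n m) σ i
    · exact ext_apply' _ _ _ (phL_notMem a)
  rw [plL_conj (phi n m i) (phi n m (σ i)) (ext (phL n m) σ) hT, mul_assoc, mul_assoc,
    ← map_mul (MonoidAlgebra.of Λ _), inv_mul_cancel, map_one, mul_one]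

theorem S_Z (σ : Perm (Fin n)) : S Λ n m σ * L.Z n = L.Z n * S Λ n m σ := by
  unfold S Z
  have hT : ∀ a, ext (phL n m) σ (phR n m a) = phR n m a := fun a =>
    ext_apply' _ _ _ (phL_notMem a)
  have h := plL_conj (phR n m) (phR n m) (ext (phL n m) σ) hT L.zL
  conv_rhs => rw [h, mul_assoc, mul_assoc, ← map_mul (MonoidAlgebra.of Λ _), inv_mul_cancel,
    map_one, mul_one]

/-- an adjacent transposition has exactly one inversion -/
theorem adj_inv {n : ℕ} (i : Fin n) (q : Fin (n + 1) × Fin (n + 1)) (hq : q ∈ prs (Fin (n + 1))) :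
    (swap i.castSucc i.succ q.2 < swap i.castSucc i.succ q.1) ↔ q = (i.castSucc, i.succ) := by
  obtain ⟨x, y⟩ := q
  rw [mem_prs] at hq
  simp only at hq ⊢
  have hne : i.castSucc ≠ i.succ := Fin.castSucc_lt_succ.ne
  constructor
  · intro h
    rw [swap_apply_def, swap_apply_def] at h
    rw [Fin.lt_def] at hq h
    split_ifs at h <;>
      (simp only [Prod.mk.injEq, Fin.ext_iff, Fin.val_castSucc, Fin.val_succ] at *; omega)
  · intro h
    simp only [Prod.mk.injEq] at h
    rw [h.1, h.2, swap_apply_left, swap_apply_right]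
    exact Fin.castSucc_lt_succ

theorem SG_adj {n : ℕ} (L : CatL j k l m) (i : Fin n) :
    L.SG (n := n + 1) (swap i.castSucc i.succ)
      = 1 - 2 * (L.Ei (n + 1) i.castSucc * L.Ei (n + 1) i.succ) := by
  classical
  unfold SG
  have h1 : ∀ K : List (Fin (n + 1) × Fin (n + 1)), K.Nodup → (∀ q ∈ K, q ∈ prs (Fin (n + 1))) →
      (K.map (fun q => if swap i.castSucc i.succ q.2 < swap i.castSucc i.succ q.1 then
        1 - 2 * (L.Ei (n + 1) q.1 * L.Ei (n + 1) q.2) else 1)).prod
      = if (i.castSucc, i.succ) ∈ K then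
        1 - 2 * (L.Ei (n + 1) i.castSucc * L.Ei (n + 1) i.succ) else 1 := by
    intro K
    induction K with
    | nil => intro _ _; simp
    | cons q K ih =>
      intro hn hp
      rw [List.map_cons, List.prod_cons, ih (List.nodup_cons.1 hn).2
        (fun q hq => hp q (List.mem_cons_of_mem _ hq))]
      by_cases hq : q = (i.castSucc, i.succ)
      · subst hq
        rw [if_pos ((adj_inv i _ (hp _ List.mem_cons_self)).2 rfl),
          if_neg (List.nodup_cons.1 hn).1, if_pos List.mem_cons_self, mul_one]
      · rw [if_neg (fun h => hq ((adj_inv i _ (hp _ List.mem_cons_self)).1 h)), one_mul]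
        by_cases h2 : (i.castSucc, i.succ) ∈ K
        · rw [if_pos h2, if_pos (List.mem_cons_of_mem _ h2)]
        · rw [if_neg h2, if_neg]
          intro h
          rcases List.mem_cons.1 h with h | h
          · exact hq h.symm
          · exact h2 h
  rw [h1 _ (Finset.nodup_toList _) (fun q hq => Finset.mem_toList.1 hq), if_pos]
  rw [Finset.mem_toList, mem_prs]
  exact Fin.castSucc_lt_succ

end CatL

end Pool.PI34.Super

end

/-! ### part SK4 -/
section

/-!
PI34, E-block for odd primes, file SK4 (general coefficients): generated subspaces, counts,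
weight components, highest weight vectors with respect to an order of the letters.
-/

set_option linter.unusedSectionVars false
set_option linter.unusedSimpArgs false
set_option linter.unusedVariables false

namespace Pool.PI34.SK

open Equiv Finset
open Pool.PI34.Super (Lt odd prs mem_prs pv cnt)

section gen

variable {K : Type} [CommRing K] {V : Type*} [AddCommGroup V] [Module K V]

/-- The smallest subspace containing `X` and stable under the operators in `S`. -/
def gen (S : Set (Module.End K V)) (X : Submodule K V) : Submodule K V :=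
  sInf {N | X ≤ N ∧ ∀ T ∈ S, ∀ v ∈ N, T v ∈ N}

theorem gen_le {S : Set (Module.End K V)} {X N : Submodule K V} (h1 : X ≤ N)
    (h2 : ∀ T ∈ S, ∀ v ∈ N, T v ∈ N) : gen S X ≤ N := sInf_le ⟨h1, h2⟩

theorem le_gen (S : Set (Module.End K V)) (X : Submodule K V) : X ≤ gen S X :=
  le_sInf (fun _ h => h.1)

theorem gen_stable {S : Set (Module.End K V)} {X : Submodule K V} {T : Module.End K V}
    (hT : T ∈ S) {v : V} (hv : v ∈ gen S X) : T v ∈ gen S X := by
  unfold gen at *
  rw [Submodule.mem_sInf] at *
  intro N hN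
  exact hN.2 T hT v (hv N hN)

theorem gen_mono {S S' : Set (Module.End K V)} (h : S ⊆ S') (X : Submodule K V) :
    gen S X ≤ gen S' X :=
  gen_le (le_gen _ _) (fun T hT v hv => gen_stable (h hT) hv)

end gen

variable {K : Type} [CommRing K] {k l m : ℕ}

theorem EE_comm_apply {ι : Type*} [Fintype ι] [LinearOrder ι] (a b c d : Lt k l)
    (v : W K k l ι) :
    EE a b (EE c d v) = (dd a b c d : K) • EE c d (EE a b v)
      + (if b = c then EE a d v else 0) - (dd a b c d : K) • (if d = a then EE c b v else 0) := by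
  have h := LinearMap.congr_fun (EB_comm (univ : Finset ι) a b c d) v
  simp only [Module.End.mul_apply, LinearMap.add_apply, LinearMap.sub_apply,
    LinearMap.smul_apply] at h
  unfold EE
  rw [h]
  split_ifs <;> simp

section counts

variable {ι : Type*} [Fintype ι] [LinearOrder ι]

theorem EE_diag (c : Lt k l) (f : W K k l ι) (w : ι → Lt k l) :
    EE c c f w = (cnt c w : K) * f w := by
  unfold EE EB
  rw [LinearMap.sum_apply, Finset.sum_apply]
  have h : ∀ i ∈ (univ : Finset ι), eop c c i f w = if w i = c then f w else 0 := by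
    intro i _
    rw [eop_apply, bsg_self]
    split_ifs with h
    · rw [← h, Function.update_eq_self, one_mul]
    · rfl
  rw [Finset.sum_congr rfl h, ← Finset.sum_filter, Finset.sum_const, nsmul_eq_mul]
  rfl

/-- the counts of a word -/
def cts (w : ι → Lt k l) : Lt k l → ℕ := fun c => cnt c w

/-- the counts after the replacement of an `a` by a `b` -/
theorem cts_update (w : ι → Lt k l) (s : ι) (a b : Lt k l) (hs : w s = a) (hab : a ≠ b) :
    cts (Function.update w s b) + Pi.single a 1 = cts w + Pi.single b 1 := by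
  classical
  funext c
  have h1 : cnt c (Function.update w s b) + (if c = a then 1 else 0)
      = cnt c w + (if c = b then 1 else 0) := by
    unfold cnt
    by_cases hca : c = a
    · subst hca
      rw [if_pos rfl, if_neg hab]
      have e : univ.filter (fun t => Function.update w s b t = c)
          = (univ.filter (fun t => w t = c)).erase s := by
        ext t
        by_cases ht : t = s
        · subst ht
          simp [Ne.symm hab]
        · simp [Function.update_of_ne ht, ht]
      rw [e, Finset.card_erase_of_mem (by simp [hs])]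
      have : 0 < (univ.filter (fun t => w t = c)).card :=
        Finset.card_pos.2 ⟨s, by simp [hs]⟩
      omega
    · rw [if_neg hca]
      by_cases hcb : c = b
      · subst hcb
        rw [if_pos rfl]
        have e : univ.filter (fun t => Function.update w s c t = c)
            = insert s (univ.filter (fun t => w t = c)) := by
          ext t
          by_cases ht : t = s
          · subst ht; simp
          · simp [Function.update_of_ne ht, ht]
        rw [e, Finset.card_insert_of_notMem (by simp [hs, hab])]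
      · rw [if_neg hcb]
        have e : univ.filter (fun t => Function.update w s b t = c)
            = univ.filter (fun t => w t = c) := by
          ext t
          by_cases ht : t = s
          · subst ht
            simp [hs, Ne.symm hcb, Ne.symm hca]
          · simp [Function.update_of_ne ht]
        rw [e]
  simp only [Pi.add_apply, Pi.single_apply, cts]
  exact h1

theorem cts_perm (σ : Perm ι) (w : ι → Lt k l) : cts (w ∘ σ) = cts w := by
  funext c
  unfold cts cnt
  refine Finset.card_bij' (fun s _ => σ s) (fun s _ => σ.symm s) ?_ ?_ ?_ ?_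
  · intro s hs; simpa using hs
  · intro s hs; simpa using hs
  · intro s hs; simp
  · intro s hs; simp

/-- `u` is supported on the words with counts `n`. -/
def On (n : Lt k l → ℕ) (u : W K k l ι) : Prop := ∀ w, u w ≠ 0 → cts w = n

open Classical in
/-- The weight component. -/
noncomputable def wproj (n : Lt k l → ℕ) : W K k l ι →ₗ[K] W K k l ι where
  toFun u := fun w => if cts w = n then u w else 0
  map_add' f g := by funext w; simp only [Pi.add_apply]; split_ifs <;> simp
  map_smul' c f := by funext w; simp only [Pi.smul_apply, RingHom.id_apply]; split_ifs <;> simp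

open Classical in
theorem wproj_apply (n : Lt k l → ℕ) (u : W K k l ι) (w : ι → Lt k l) :
    wproj n u w = if cts w = n then u w else 0 := rfl

theorem wproj_on (n : Lt k l → ℕ) (u : W K k l ι) : On n (wproj n u) := by
  classical
  intro w hw
  rw [wproj_apply] at hw
  by_contra h
  rw [if_neg h] at hw
  exact hw rfl

theorem act_wproj {A : Type} [CommRing A] [Algebra A K] (y : MonoidAlgebra A (Perm ι))
    (n : Lt k l → ℕ) (u : W K k l ι) :
    act A K k l ι y (wproj n u) = wproj n (act A K k l ι y u) := by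
  classical
  induction y using MonoidAlgebra.induction_on with
  | of σ =>
    rw [act_of]
    funext w
    rw [rho_apply, wproj_apply, wproj_apply, rho_apply, cts_perm]
    split_ifs <;> simp
  | add x y hx hy => rw [map_add, LinearMap.add_apply, LinearMap.add_apply, map_add, hx, hy]
  | smul r x hx => rw [act_smul_apply, act_smul_apply, hx, map_smul]

theorem act_on {A : Type} [CommRing A] [Algebra A K] (y : MonoidAlgebra A (Perm ι))
    {n : Lt k l → ℕ} {u : W K k l ι} (hu : On n u) : On n (act A K k l ι y u) := by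
  classical
  have h : wproj n u = u := by
    funext w
    rw [wproj_apply]
    split_ifs with h
    · rfl
    · by_contra h2
      exact h (hu w (Ne.symm h2))
  rw [← h, act_wproj]
  exact wproj_on _ _

/-- Highest weight vectors with respect to the order `ω` of the letters. -/
def HW (ω : Lt k l → ℕ) (u : W K k l ι) : Prop := ∀ a b, ω a < ω b → EE a b u = 0

theorem EE_apply (a b : Lt k l) (u : W K k l ι) (w : ι → Lt k l) :
    EE a b u w = ∑ s, if w s = a then bsg a b w s * u (Function.update w s b) else 0 := by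
  unfold EE EB
  rw [LinearMap.sum_apply, Finset.sum_apply]
  exact Finset.sum_congr rfl (fun s _ => eop_apply a b s u w)

theorem EE_wproj_zero {a b : Lt k l} (hab : a ≠ b) {u : W K k l ι} (hu : EE a b u = 0)
    (n : Lt k l → ℕ) : EE a b (wproj n u) = 0 := by
  classical
  funext w
  rw [EE_apply]
  by_cases h : cts w + Pi.single b 1 = n + Pi.single a 1
  · have h0 := congrFun hu w
    rw [EE_apply] at h0
    refine Eq.trans (Finset.sum_congr rfl (fun s _ => ?_)) h0
    by_cases hs : w s = a
    · rw [if_pos hs, if_pos hs, wproj_apply, if_pos]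
      have h1 := cts_update w s a b hs hab
      rw [h] at h1
      exact add_right_cancel h1
    · rw [if_neg hs, if_neg hs]
  · refine Finset.sum_eq_zero (fun s _ => ?_)
    by_cases hs : w s = a
    · rw [if_pos hs, wproj_apply, if_neg, mul_zero]
      intro h2
      apply h
      rw [← cts_update w s a b hs hab, h2]
    · rw [if_neg hs]

theorem HW_wproj {ω : Lt k l → ℕ} {u : W K k l ι} (hu : HW ω u) (n : Lt k l → ℕ) :
    HW ω (wproj n u) := fun a b hab =>
  EE_wproj_zero (fun e => by rw [e] at hab; exact lt_irrefl _ hab) (hu a b hab) n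

theorem act_HW {A : Type} [CommRing A] [Algebra A K] (y : MonoidAlgebra A (Perm ι))
    {ω : Lt k l → ℕ} {u : W K k l ι} (hu : HW ω u) : HW ω (act A K k l ι y u) := by
  intro a b hab
  have h := LinearMap.congr_fun (act_EE y a b) u
  simp only [Module.End.mul_apply] at h
  rw [← h, hu a b hab, map_zero]

/-- A graded subspace. -/
def Graded (N : Submodule K (W K k l ι)) : Prop := ∀ n, ∀ u ∈ N, wproj n u ∈ N

/-- The height of a word. -/
def hgt (ω : Lt k l → ℕ) (w : ι → Lt k l) : ℕ := ∑ s, ω (w s)

theorem hgt_update_lt (ω : Lt k l → ℕ) (w : ι → Lt k l) (s : ι)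
    (b : Lt k l) (h : ω (w s) < ω b) : hgt ω w < hgt ω (Function.update w s b) := by
  unfold hgt
  refine Finset.sum_lt_sum (fun x _ => ?_)
    ⟨s, Finset.mem_univ s, by rw [Function.update_self]; exact h⟩
  by_cases hx : x = s
  · subst hx; rw [Function.update_self]; exact h.le
  · rw [Function.update_of_ne hx]

theorem exists_HW_aux (ω : Lt k l → ℕ) (N : Submodule K (W K k l ι))
    (hst : ∀ a b : Lt k l, ω a < ω b → ∀ v ∈ N, EE a b v ∈ N) (n : ℕ) :
    ∀ u ∈ N, u ≠ 0 → (∀ w, u w ≠ 0 → hgt ω w ≤ n) → ∃ v ∈ N, v ≠ 0 ∧ HW ω v := by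
  classical
  have key : ∀ (a b : Lt k l) (u : W K k l ι) (w : ι → Lt k l) (q : ℕ), ω a < ω b →
      (∀ w, u w ≠ 0 → hgt ω w ≤ q) → q ≤ hgt ω w → EE a b u w = 0 := by
    intro a b u w q hab hh hw
    rw [EE_apply]
    refine Finset.sum_eq_zero (fun s _ => ?_)
    split_ifs with h
    · have h1 : u (Function.update w s b) = 0 := by
        by_contra h2
        have h3 := hh _ h2
        have h4 := hgt_update_lt ω w s b (by rw [h]; exact hab)
        omega
      rw [h1, mul_zero]
    · rfl
  induction n with
  | zero =>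
    intro u hu hne hh
    refine ⟨u, hu, hne, fun a b hab => ?_⟩
    funext w
    exact key a b u w 0 hab hh (Nat.zero_le _)
  | succ n ih =>
    intro u hu hne hh
    by_cases hall : HW ω u
    · exact ⟨u, hu, hne, hall⟩
    · unfold HW at hall
      push Not at hall
      obtain ⟨a, b, hab, h1⟩ := hall
      refine ih (EE a b u) (hst a b hab u hu) h1 (fun w hw => ?_)
      by_contra hlt
      exact hw (key a b u w (n + 1) hab hh (by omega))

/-- Existence of highest weight vectors of one weight. -/
theorem exists_HW (ω : Lt k l → ℕ) {N : Submodule K (W K k l ι)} (hg : Graded N)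
    (hst : ∀ a b : Lt k l, ω a < ω b → ∀ v ∈ N, EE a b v ∈ N) (hN : N ≠ ⊥) :
    ∃ v ∈ N, v ≠ 0 ∧ HW ω v ∧ ∃ n, On n v := by
  classical
  obtain ⟨u, hu, hne⟩ := Submodule.exists_mem_ne_zero_of_ne_bot hN
  obtain ⟨v, hv, hv0, hvω⟩ := exists_HW_aux ω N hst (univ.sup (hgt ω)) u hu hne
    (fun w _ => Finset.le_sup (Finset.mem_univ w))
  obtain ⟨w, hw⟩ : ∃ w, v w ≠ 0 := by
    by_contra h
    push Not at h
    exact hv0 (funext h)
  refine ⟨wproj (cts w) v, hg _ v hv, ?_, HW_wproj hvω _, cts w, wproj_on _ _⟩
  intro h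
  have := congrFun h w
  rw [wproj_apply, if_pos rfl] at this
  exact hw this

end counts

section form

variable {ι : Type*} [Fintype ι] [LinearOrder ι]

theorem ip_comm (f g : W K k l ι) : ip f g = ip g f := by
  unfold ip; exact Finset.sum_congr rfl (fun w _ => mul_comm _ _)

theorem ip_add_right (f g h : W K k l ι) : ip f (g + h) = ip f g + ip f h := by
  unfold ip; rw [← Finset.sum_add_distrib]
  exact Finset.sum_congr rfl (fun w _ => by rw [Pi.add_apply]; ring)

theorem ip_smul_right (c : K) (f g : W K k l ι) : ip f (c • g) = c * ip f g := by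
  unfold ip; rw [Finset.mul_sum]
  exact Finset.sum_congr rfl (fun w _ => by rw [Pi.smul_apply, smul_eq_mul]; ring)

theorem ip_zero_right (f : W K k l ι) : ip f 0 = 0 := by
  unfold ip; exact Finset.sum_eq_zero (fun w _ => by simp)

theorem ip_add_left (f g h : W K k l ι) : ip (f + g) h = ip f h + ip g h := by
  rw [ip_comm, ip_add_right, ip_comm h f, ip_comm h g]

theorem ip_smul_left (c : K) (f g : W K k l ι) : ip (c • f) g = c * ip f g := by
  rw [ip_comm, ip_smul_right, ip_comm]

theorem ip_zero_left (f : W K k l ι) : ip 0 f = 0 := by rw [ip_comm, ip_zero_right]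

theorem ip_single (f : W K k l ι) (w : ι → Lt k l) : ip f (Pi.single w 1) = f w := by
  classical
  unfold ip
  rw [Finset.sum_eq_single w]
  · simp
  · intro b _ hb; simp [Pi.single_apply, hb]
  · intro h; exact absurd (Finset.mem_univ _) h

theorem EE_adj (a b : Lt k l) (f g : W K k l ι) : ip (EE a b f) g = ip f (EE b a g) :=
  EB_adj _ a b f g

/-- A self adjoint element of the group algebra. -/
def SelfAdj (A K : Type) [CommRing A] [CommRing K] [Algebra A K] (k l : ℕ) {ι : Type*}
    [Fintype ι] [LinearOrder ι] (y : MonoidAlgebra A (Perm ι)) : Prop :=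
  ∀ f g : W K k l ι, ip (act A K k l ι y f) g = ip f (act A K k l ι y g)

theorem eps_inv (σ : Perm ι) (p : ι → Bool) :
    (eps σ⁻¹ (fun i => p (σ.symm i)) : K) = eps σ p := by
  have h := eps_mul (K := K) σ⁻¹ σ p
  rw [inv_mul_cancel, eps_one] at h
  have h2 := eps_sq (K := K) σ p
  have h3 : (eps σ⁻¹ (fun i => p (σ.symm i)) : K)
      = eps σ⁻¹ (fun i => p (σ.symm i)) * (eps σ p * eps σ p) := by rw [h2, mul_one]
  rw [h3, ← mul_assoc, ← h, one_mul]

theorem rho_adj (σ : Perm ι) (f g : W K k l ι) :
    ip (rho K k l ι σ f) g = ip f (rho K k l ι σ⁻¹ g) := by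
  unfold ip
  have h1 := Equiv.sum_comp (Equiv.arrowCongr σ (Equiv.refl (Lt k l)))
    (fun w => rho K k l ι σ f w * g w)
  rw [← h1]
  refine Finset.sum_congr rfl (fun w _ => ?_)
  have h2 : (Equiv.arrowCongr σ (Equiv.refl (Lt k l))) w = w ∘ ⇑σ⁻¹ := by
    funext i; rfl
  rw [h2, rho_apply, rho_apply]
  have h3 : (w ∘ ⇑σ⁻¹) ∘ ⇑σ = w := by funext i; simp
  rw [h3]
  have h4 := eps_inv (K := K) σ (pv w)
  have h5 : (fun i => pv w (σ.symm i)) = pv (w ∘ ⇑σ⁻¹) := by funext i; rfl
  rw [h5] at h4
  rw [h4]
  ring

theorem selfAdj_swap {A : Type} [CommRing A] [Algebra A K] (i j : ι) :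
    SelfAdj A K k l (MonoidAlgebra.of A (Perm ι) (swap i j)) := by
  intro f g
  rw [act_of, rho_adj, swap_inv]

theorem selfAdj_zero {A : Type} [CommRing A] [Algebra A K] :
    SelfAdj A K k l (0 : MonoidAlgebra A (Perm ι)) := by
  intro f g
  rw [map_zero, LinearMap.zero_apply, LinearMap.zero_apply, ip_zero_left, ip_zero_right]

theorem selfAdj_one {A : Type} [CommRing A] [Algebra A K] :
    SelfAdj A K k l (1 : MonoidAlgebra A (Perm ι)) := by
  intro f g
  rw [map_one]; rfl

theorem SelfAdj.add {A : Type} [CommRing A] [Algebra A K] {x y : MonoidAlgebra A (Perm ι)}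
    (hx : SelfAdj A K k l x) (hy : SelfAdj A K k l y) : SelfAdj A K k l (x + y) := by
  intro f g
  rw [map_add, LinearMap.add_apply, LinearMap.add_apply, ip_add_left, ip_add_right, hx, hy]

theorem SelfAdj.smul {A : Type} [CommRing A] [Algebra A K] {x : MonoidAlgebra A (Perm ι)}
    (hx : SelfAdj A K k l x) (c : A) : SelfAdj A K k l (c • x) := by
  intro f g
  rw [act_smul_apply, act_smul_apply, ip_smul_left, ip_smul_right, hx]

theorem SelfAdj.sum {A : Type} [CommRing A] [Algebra A K] {α : Type*} (s : Finset α)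
    {x : α → MonoidAlgebra A (Perm ι)} (hx : ∀ i ∈ s, SelfAdj A K k l (x i)) :
    SelfAdj A K k l (∑ i ∈ s, x i) := by
  classical
  induction s using Finset.induction_on with
  | empty => rw [Finset.sum_empty]; exact selfAdj_zero
  | insert a s ha ih =>
    rw [Finset.sum_insert ha]
    exact (hx a (Finset.mem_insert_self _ _)).add
      (ih (fun i hi => hx i (Finset.mem_insert_of_mem hi)))

theorem SelfAdj.mul {A : Type} [CommRing A] [Algebra A K] {x y : MonoidAlgebra A (Perm ι)}
    (hx : SelfAdj A K k l x) (hy : SelfAdj A K k l y) (hxy : x * y = y * x) :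
    SelfAdj A K k l (x * y) := by
  intro f g
  rw [map_mul, Module.End.mul_apply, hx, hy]
  conv_rhs => rw [← map_mul, hxy, map_mul]
  rfl

theorem SelfAdj.pow {A : Type} [CommRing A] [Algebra A K] {x : MonoidAlgebra A (Perm ι)}
    (hx : SelfAdj A K k l x) (q : ℕ) : SelfAdj A K k l (x ^ q) := by
  induction q with
  | zero => rw [pow_zero]; exact selfAdj_one
  | succ q ih => rw [pow_succ]; exact ih.mul hx (by rw [← pow_succ, ← pow_succ'])

theorem SelfAdj.aeval {A : Type} [CommRing A] [Algebra A K] {x : MonoidAlgebra A (Perm ι)}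
    (hx : SelfAdj A K k l x) (P : Polynomial A) : SelfAdj A K k l (Polynomial.aeval x P) := by
  induction P using Polynomial.induction_on' with
  | add P Q hP hQ => rw [map_add]; exact hP.add hQ
  | monomial q a =>
    rw [Polynomial.aeval_monomial, ← Algebra.smul_def]
    exact (hx.pow q).smul a

theorem selfAdj_XB {A : Type} [CommRing A] [Algebra A K] {m : ℕ} (B : Finset (Fin m)) :
    SelfAdj A K k l (XB A B) := by
  unfold XB
  exact SelfAdj.sum B (fun s _ => selfAdj_swap _ _)

end form

end Pool.PI34.SK

end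

/-! ### part SK5 -/
section

/-!
PI34, E-block for odd primes, file SK5 (general coefficients): placements, tensor products,
operators on blocks of strands.
-/

set_option linter.unusedSectionVars false
set_option linter.unusedSimpArgs false
set_option linter.unusedVariables false

namespace Pool.PI34.SK

open Equiv Finset
open Pool.PI34.Super (Lt odd prs mem_prs pv cnt ext ext_apply ext_apply' Conv)

variable {K : Type} [CommRing K] {k l : ℕ}

section place

variable {κ ι : Type} [Fintype κ] [LinearOrder κ] [Fintype ι] [LinearOrder ι]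

theorem eps_ext {φ : κ ↪o ι} (hφ : Conv φ) (σ : Perm κ) (p : ι → Bool) :
    (eps (ext φ σ) p : K) = eps σ (p ∘ φ) := by
  classical
  unfold eps
  let e : κ × κ ↪ ι × ι := φ.toEmbedding.prodMap φ.toEmbedding
  have h1 : ∏ q ∈ prs κ, (if (p ∘ φ) q.1 && (p ∘ φ) q.2 then (H σ q.1 q.2 : K) else 1)
      = ∏ q ∈ (prs κ).map e, (if p q.1 && p q.2 then H (ext φ σ) q.1 q.2 else 1) := by
    rw [Finset.prod_map]
    refine Finset.prod_congr rfl (fun q _ => ?_)
    have h2 : (H (ext φ σ) (φ q.1) (φ q.2) : K) = H σ q.1 q.2 := by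
      unfold H
      simp only [ext_apply, φ.lt_iff_lt]
    change _ = if p (φ q.1) && p (φ q.2) then (H (ext φ σ) (φ q.1) (φ q.2) : K) else 1
    rw [h2]
    rfl
  rw [h1]
  symm
  refine Finset.prod_subset ?_ ?_
  · intro q hq
    rw [Finset.mem_map] at hq
    obtain ⟨q', hq', rfl⟩ := hq
    rw [mem_prs] at *
    exact φ.lt_iff_lt.2 hq'
  · intro q hq hq'
    rw [mem_prs] at hq
    have hH : (H (ext φ σ) q.1 q.2 : K) = 1 := by
      by_cases hx : q.1 ∈ Set.range φ
      · obtain ⟨a, ha⟩ := hx
        have hy : q.2 ∉ Set.range φ := by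
          rintro ⟨b, hb⟩
          apply hq'
          rw [Finset.mem_map]
          refine ⟨(a, b), ?_, Prod.ext ha hb⟩
          rw [mem_prs]
          rw [← ha, ← hb, φ.lt_iff_lt] at hq
          exact hq
        unfold H
        rw [ext_apply' φ σ _ hy, ← ha, ext_apply]
        rcases hφ _ hy with h | h
        · rw [← ha] at hq
          exact absurd hq (not_lt.2 (h a).le)
        · simp [h a, h (σ a)]
      · unfold H
        rw [ext_apply' φ σ _ hx]
        by_cases hy : q.2 ∈ Set.range φ
        · obtain ⟨b, hb⟩ := hy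
          rw [← hb, ext_apply]
          rcases hφ _ hx with h | h
          · simp [h b, h (σ b)]
          · rw [← hb] at hq
            exact absurd hq (not_lt.2 (h b).le)
        · rw [ext_apply' φ σ _ hy]; simp
    rw [hH, ite_self]

/-- The slice of `g` at `w`. -/
noncomputable def sl (φ : κ ↪o ι) (w : ι → Lt k l) : W K k l ι →ₗ[K] W K k l κ where
  toFun g := fun u => g (Function.extend φ u w)
  map_add' _ _ := rfl
  map_smul' _ _ := rfl

theorem sl_apply (φ : κ ↪o ι) (w : ι → Lt k l) (g : W K k l ι) (u : κ → Lt k l) :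
    sl φ w g u = g (Function.extend φ u w) := rfl

theorem rho_ext {φ : κ ↪o ι} (hφ : Conv φ) (σ : Perm κ) (g : W K k l ι) (w : ι → Lt k l) :
    rho K k l ι (ext φ σ) g w = rho K k l κ σ (sl φ w g) (w ∘ φ) := by
  rw [rho_apply, rho_apply, eps_ext hφ, sl_apply]
  have h1 : w ∘ ext φ σ = Function.extend φ ((w ∘ φ) ∘ σ) w := by
    funext x
    by_cases hx : x ∈ Set.range φ
    · obtain ⟨a, rfl⟩ := hx
      rw [φ.injective.extend_apply, Function.comp_apply, ext_apply]
      rfl
    · rw [Function.extend_apply' _ _ _ hx, Function.comp_apply, ext_apply' φ σ x hx]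
  have h2 : pv (w ∘ ext φ σ) ∘ φ = pv ((w ∘ φ) ∘ σ) := by
    funext a
    simp only [pv, Function.comp_apply, ext_apply]
  rw [h2, h1]

/-- Placement of an element of the group algebra. -/
noncomputable def pl (A : Type) [CommRing A] (φ : κ ↪o ι) :
    MonoidAlgebra A (Perm κ) →ₐ[A] MonoidAlgebra A (Perm ι) :=
  MonoidAlgebra.mapDomainAlgHom A A (ext φ)

theorem pl_of {A : Type} [CommRing A] (φ : κ ↪o ι) (σ : Perm κ) :
    pl A φ (MonoidAlgebra.of A _ σ) = MonoidAlgebra.of A _ (ext φ σ) := by
  simp [pl]

theorem pl_single {A : Type} [CommRing A] (φ : κ ↪o ι) (σ : Perm κ) (a : A) :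
    pl A φ (MonoidAlgebra.single σ a) = MonoidAlgebra.single (ext φ σ) a := by
  simp [pl]

theorem act_pl {A : Type} [CommRing A] [Algebra A K] {φ : κ ↪o ι} (hφ : Conv φ)
    (y : MonoidAlgebra A (Perm κ)) (g : W K k l ι) (w : ι → Lt k l) :
    act A K k l ι (pl A φ y) g w = act A K k l κ y (sl φ w g) (w ∘ φ) := by
  induction y using MonoidAlgebra.induction_on with
  | of σ => rw [pl_of, act_of, act_of]; exact rho_ext hφ σ g w
  | add x y hx hy =>
    rw [map_add, map_add, map_add, LinearMap.add_apply, LinearMap.add_apply, Pi.add_apply,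
      Pi.add_apply, hx, hy]
  | smul r x hx =>
    rw [map_smul, act_smul_apply, act_smul_apply, Pi.smul_apply, Pi.smul_apply, hx]

theorem selfAdj_pl {A : Type} [CommRing A] [Algebra A K] {φ : κ ↪o ι} (hφ : Conv φ)
    {y : MonoidAlgebra A (Perm κ)} (hy : SelfAdj A K k l y) : SelfAdj A K k l (pl A φ y) := by
  classical
  intro f g
  -- the words agreeing outside the range of `φ`
  have key : ∀ (y : MonoidAlgebra A (Perm κ)) (f g : W K k l ι),
      (Fintype.card (κ → Lt k l) : K) * 0 = 0 := fun _ _ _ => mul_zero _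
  unfold ip
  have h1 : ∀ (y : MonoidAlgebra A (Perm κ)) (f : W K k l ι) (w : ι → Lt k l),
      act A K k l ι (pl A φ y) f w = act A K k l κ y (sl φ w f) (w ∘ φ) :=
    fun y f w => act_pl hφ y f w
  -- decompose the words
  let e : (ι → Lt k l) ≃ (κ → Lt k l) × ({x : ι // x ∉ Set.range φ} → Lt k l) :=
    { toFun := fun w => (w ∘ φ, fun x => w x.1)
      invFun := fun p => fun x => if h : x ∈ Set.range φ then p.1 h.choose else p.2 ⟨x, h⟩
      left_inv := by
        intro w
        funext x
        by_cases h : x ∈ Set.range φ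
        · simp only [h, dif_pos, Function.comp_apply]
          rw [h.choose_spec]
        · simp only [h, dif_neg, not_false_iff]
      right_inv := by
        rintro ⟨p, q⟩
        refine Prod.ext (funext fun a => ?_) (funext fun x => ?_)
        · have h : φ a ∈ Set.range φ := ⟨a, rfl⟩
          simp only [Function.comp_apply, h, dif_pos]
          congr 1
          exact φ.injective h.choose_spec
        · simp only [x.2, dif_neg, not_false_iff] }
  have h2 : ∀ F : (ι → Lt k l) → K, ∑ w, F w = ∑ q : ({x : ι // x ∉ Set.range φ} → Lt k l),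
      ∑ p : κ → Lt k l, F (e.symm (p, q)) := by
    intro F
    rw [← Equiv.sum_comp e.symm F, Fintype.sum_prod_type, Finset.sum_comm]
  rw [h2, h2]
  refine Finset.sum_congr rfl (fun q _ => ?_)
  have h3 : ∀ p : κ → Lt k l, (e.symm (p, q)) ∘ φ = p := by
    intro p
    have := congrArg Prod.fst (e.apply_symm_apply (p, q))
    exact this
  have h4 : ∀ (f : W K k l ι) (p : κ → Lt k l), sl φ (e.symm (p, q)) f
      = fun u => f (e.symm (u, q)) := by
    intro f p
    funext u
    rw [sl_apply]
    congr 1
    funext x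
    by_cases h : x ∈ Set.range φ
    · obtain ⟨a, rfl⟩ := h
      rw [φ.injective.extend_apply]
      exact (congrFun (h3 u) a).symm
    · rw [Function.extend_apply' _ _ _ h]
      change (if h : x ∈ Set.range φ then p h.choose else q ⟨x, h⟩)
        = if h : x ∈ Set.range φ then u h.choose else q ⟨x, h⟩
      rw [dif_neg h, dif_neg h]
  have h5 := hy (fun u => f (e.symm (u, q))) (fun u => g (e.symm (u, q)))
  unfold ip at h5
  refine Eq.trans (Finset.sum_congr rfl (fun p _ => ?_)) (h5.trans
    (Finset.sum_congr rfl (fun p _ => ?_)))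
  · rw [h1, h3, h4]
  · rw [h1, h3, h4]

end place

section tensor

variable {m m' : ℕ}

/-- The embedding of the strands `1, …, m`. -/
def phS (m : ℕ) : Fin m ↪o Fin (m + 1) := Fin.succOrderEmb m

theorem conv_phS : Conv (phS m) := by
  intro x hx
  left
  intro a
  rcases Fin.eq_zero_or_eq_succ x with rfl | ⟨y, rfl⟩
  · exact Fin.succ_pos a
  · exact absurd ⟨y, rfl⟩ hx

/-- An element placed on the strands `1, …, m` acts on the components. -/
theorem comp_plS {A : Type} [CommRing A] [Algebra A K] (y : MonoidAlgebra A (Perm (Fin m)))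
    (u : W K k l (Fin (m + 1))) (c : Lt k l) :
    comp c (act A K k l _ (pl A (phS m) y) u) = act A K k l _ y (comp c u) := by
  funext w
  rw [comp_apply, act_pl conv_phS]
  have h1 : sl (phS m) (Fin.cons c w : Fin (m + 1) → Lt k l) u = comp c u := by
    funext v
    rw [sl_apply, comp_apply]
    congr 1
    funext x
    rcases Fin.eq_zero_or_eq_succ x with rfl | ⟨y, rfl⟩
    · rw [Function.extend_apply', Fin.cons_zero, Fin.cons_zero]
      rintro ⟨a, ha⟩
      exact Fin.succ_ne_zero a ha
    · have : y.succ = phS m y := rfl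
      rw [this, (phS m).injective.extend_apply]
      change v y = (Fin.cons c v : Fin (m + 1) → Lt k l) y.succ
      rw [Fin.cons_succ]
  rw [h1]
  rfl

/-- Tensor product of functions on words. -/
def tens (f : W K k l (Fin m)) (g : W K k l (Fin m')) : W K k l (Fin (m + m')) :=
  fun w => f (w ∘ Fin.castAdd m') * g (w ∘ Fin.natAdd m)

theorem tens_apply (f : W K k l (Fin m)) (g : W K k l (Fin m')) (w : Fin (m + m') → Lt k l) :
    tens f g w = f (w ∘ Fin.castAdd m') * g (w ∘ Fin.natAdd m) := rfl

theorem tens_add_left (f f' : W K k l (Fin m)) (g : W K k l (Fin m')) :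
    tens (f + f') g = tens f g + tens f' g := by
  funext w; simp only [tens_apply, Pi.add_apply]; ring

theorem tens_add_right (f : W K k l (Fin m)) (g g' : W K k l (Fin m')) :
    tens f (g + g') = tens f g + tens f g' := by
  funext w; simp only [tens_apply, Pi.add_apply]; ring

theorem tens_smul_left (c : K) (f : W K k l (Fin m)) (g : W K k l (Fin m')) :
    tens (c • f) g = c • tens f g := by
  funext w; simp only [tens_apply, Pi.smul_apply, smul_eq_mul]; ring

theorem tens_smul_right (c : K) (f : W K k l (Fin m)) (g : W K k l (Fin m')) :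
    tens f (c • g) = c • tens f g := by
  funext w; simp only [tens_apply, Pi.smul_apply, smul_eq_mul]; ring

theorem tens_zero_left (g : W K k l (Fin m')) : tens (0 : W K k l (Fin m)) g = 0 := by
  funext w; simp [tens_apply]

theorem tens_zero_right (f : W K k l (Fin m)) : tens f (0 : W K k l (Fin m')) = 0 := by
  funext w; simp [tens_apply]

/-- The strands of the first block. -/
def Bl (m m' : ℕ) : Finset (Fin (m + m')) := univ.image (Fin.castAdd m')

/-- The strands of the second block. -/
def Br (m m' : ℕ) : Finset (Fin (m + m')) := univ.image (Fin.natAdd m)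

theorem Blr_disj (m m' : ℕ) : Disjoint (Bl m m') (Br m m') := by
  rw [Finset.disjoint_left]
  intro s h1 h2
  unfold Bl at h1
  unfold Br at h2
  rw [Finset.mem_image] at h1 h2
  obtain ⟨i, _, rfl⟩ := h1
  obtain ⟨j, _, hj⟩ := h2
  have := congrArg Fin.val hj
  simp at this
  have := i.2; omega

theorem Blr_union (m m' : ℕ) : Bl m m' ∪ Br m m' = univ := by
  ext s
  simp only [Finset.mem_union, Finset.mem_univ, iff_true]
  refine Fin.addCases (fun i => ?_) (fun i => ?_) s
  · left; exact Finset.mem_image.2 ⟨i, Finset.mem_univ _, rfl⟩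
  · right; exact Finset.mem_image.2 ⟨i, Finset.mem_univ _, rfl⟩

theorem EB_union {ι : Type*} [Fintype ι] [LinearOrder ι] {B B' : Finset ι} (h : Disjoint B B')
    (a b : Lt k l) : (EB (B ∪ B') a b : Module.End K (W K k l ι)) = EB B a b + EB B' a b := by
  unfold EB
  rw [Finset.sum_union h]

/-- The sign of `E_ab` passing the strands of `f`. -/
def sg (a b : Lt k l) : W K k l (Fin m) →ₗ[K] W K k l (Fin m) where
  toFun f := fun w => (∏ i, eta a b (w i)) * f w
  map_add' f g := by funext w; simp only [Pi.add_apply]; ring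
  map_smul' c f := by funext w; simp only [Pi.smul_apply, smul_eq_mul, RingHom.id_apply]; ring

theorem sg_apply (a b : Lt k l) (f : W K k l (Fin m)) (w : Fin m → Lt k l) :
    sg a b f w = (∏ i, eta a b (w i)) * f w := rfl

theorem sg_sg (a b : Lt k l) (f : W K k l (Fin m)) : sg a b (sg a b f) = f := by
  funext w
  rw [sg_apply, sg_apply, ← mul_assoc, ← Finset.prod_mul_distrib]
  rw [Finset.prod_congr rfl (fun i _ => eta_sq (K := K) a b (w i))]
  simp

theorem sg_same (a b : Lt k l) (h : odd a = odd b) (f : W K k l (Fin m)) : sg a b f = f := by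
  funext w
  rw [sg_apply, Finset.prod_eq_one, one_mul]
  intro i _
  unfold eta
  rw [h]; simp

theorem sg_comm (a b : Lt k l) (f : W K k l (Fin m)) : sg a b f = sg b a f := by
  funext w
  rw [sg_apply, sg_apply]
  congr 1
  exact Finset.prod_congr rfl (fun i _ => eta_comm a b (w i))

theorem sg_mul (a b d : Lt k l) (f : W K k l (Fin m)) : sg a b (sg b d f) = sg a d f := by
  funext w
  rw [sg_apply, sg_apply, sg_apply, ← mul_assoc, ← Finset.prod_mul_distrib]
  congr 1
  exact Finset.prod_congr rfl (fun i _ => eta_mul a b d (w i))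

theorem EB_Bl (a b : Lt k l) (f : W K k l (Fin m)) (g : W K k l (Fin m')) :
    EB (Bl m m') a b (tens f g) = tens (EE a b f) g := by
  classical
  funext w
  unfold EB Bl
  rw [LinearMap.sum_apply, Finset.sum_apply,
    Finset.sum_image (fun x _ y _ h => Fin.castAdd_injective m m' h), tens_apply, EE_apply,
    Finset.sum_mul]
  refine Finset.sum_congr rfl (fun s _ => ?_)
  rw [eop_apply, Function.comp_apply]
  by_cases hs : w (Fin.castAdd m' s) = a
  swap
  · rw [if_neg hs, if_neg hs, zero_mul]
  rw [if_pos hs, if_pos hs, tens_apply]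
  have h1 : Function.update w (Fin.castAdd m' s) b ∘ Fin.castAdd m'
      = Function.update (w ∘ Fin.castAdd m') s b := by
    funext x
    by_cases hx : x = s
    · subst hx; simp
    · rw [Function.comp_apply, Function.update_of_ne hx,
        Function.update_of_ne (fun e => hx (Fin.castAdd_injective m m' e))]; rfl
  have h2 : Function.update w (Fin.castAdd m' s) b ∘ Fin.natAdd m = w ∘ Fin.natAdd m := by
    funext x
    rw [Function.comp_apply, Function.update_of_ne]
    · rfl
    · intro e
      have := congrArg Fin.val e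
      simp at this
      have := s.2; omega
  have h3 : (bsg a b w (Fin.castAdd m' s) : K) = bsg a b (w ∘ Fin.castAdd m') s := by
    unfold bsg
    rw [Finset.prod_filter, Finset.prod_filter, Fin.prod_univ_add]
    have h4 : ∏ j : Fin m', (if Fin.natAdd m j < Fin.castAdd m' s then
        (eta a b (w (Fin.natAdd m j)) : K) else 1) = 1 := by
      refine Finset.prod_eq_one (fun j _ => ?_)
      rw [if_neg]
      rw [Fin.lt_def]
      simp only [Fin.val_natAdd, Fin.val_castAdd]
      have := s.2; omega
    rw [h4, mul_one]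
    refine Finset.prod_congr rfl (fun j _ => ?_)
    rfl
  rw [h1, h2, h3]
  ring

theorem EB_Br (a b : Lt k l) (f : W K k l (Fin m)) (g : W K k l (Fin m')) :
    EB (Br m m') a b (tens f g) = tens (sg a b f) (EE a b g) := by
  classical
  funext w
  unfold EB Br
  rw [LinearMap.sum_apply, Finset.sum_apply,
    Finset.sum_image (fun x _ y _ h => Fin.natAdd_injective m' m h), tens_apply, EE_apply,
    Finset.mul_sum]
  refine Finset.sum_congr rfl (fun s _ => ?_)
  rw [eop_apply, Function.comp_apply, sg_apply]
  by_cases hs : w (Fin.natAdd m s) = a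
  swap
  · rw [if_neg hs, if_neg hs, mul_zero]
  rw [if_pos hs, if_pos hs, tens_apply]
  have h1 : Function.update w (Fin.natAdd m s) b ∘ Fin.natAdd m
      = Function.update (w ∘ Fin.natAdd m) s b := by
    funext x
    by_cases hx : x = s
    · subst hx; simp
    · rw [Function.comp_apply, Function.update_of_ne hx,
        Function.update_of_ne (fun e => hx (Fin.natAdd_injective m' m e))]; rfl
  have h2 : Function.update w (Fin.natAdd m s) b ∘ Fin.castAdd m' = w ∘ Fin.castAdd m' := by
    funext x
    rw [Function.comp_apply, Function.update_of_ne]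
    · rfl
    · intro e
      have := congrArg Fin.val e
      simp at this
      have := x.2; omega
  have h3 : (bsg a b w (Fin.natAdd m s) : K)
      = (∏ i, eta a b ((w ∘ Fin.castAdd m') i)) * bsg a b (w ∘ Fin.natAdd m) s := by
    unfold bsg
    rw [Finset.prod_filter, Finset.prod_filter, Fin.prod_univ_add]
    congr 1
    · refine Finset.prod_congr rfl (fun i _ => ?_)
      rw [if_pos]
      · rfl
      · rw [Fin.lt_def]
        simp only [Fin.val_natAdd, Fin.val_castAdd]
        have := i.2; omega
    · refine Finset.prod_congr rfl (fun i _ => ?_)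
      have : Fin.natAdd m i < Fin.natAdd m s ↔ i < s := by
        rw [Fin.lt_def, Fin.lt_def]; simp
      by_cases hij : i < s
      · rw [if_pos hij, if_pos (this.2 hij)]; rfl
      · rw [if_neg hij, if_neg (fun h => hij (this.1 h))]
  rw [h1, h2, h3]
  ring

/-- `E_ab` on a tensor product. -/
theorem EE_tens (a b : Lt k l) (f : W K k l (Fin m)) (g : W K k l (Fin m')) :
    EE a b (tens f g) = tens (EE a b f) g + tens (sg a b f) (EE a b g) := by
  have h : (EE a b : Module.End K (W K k l (Fin (m + m'))))
      = EB (Bl m m') a b + EB (Br m m') a b := by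
    unfold EE
    rw [← Blr_union m m', EB_union (Blr_disj m m')]
  rw [h, LinearMap.add_apply, EB_Bl, EB_Br]

/-- `v_c ⊗ f`. -/
def ins (c : Lt k l) : W K k l (Fin m) →ₗ[K] W K k l (Fin (m + 1)) where
  toFun f := fun w => if w 0 = c then f (Fin.tail w) else 0
  map_add' f g := by funext w; simp only [Pi.add_apply]; split_ifs <;> simp
  map_smul' a f := by funext w; simp only [Pi.smul_apply, RingHom.id_apply]; split_ifs <;> simp

theorem ins_apply (c : Lt k l) (f : W K k l (Fin m)) (w : Fin (m + 1) → Lt k l) :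
    ins c f w = if w 0 = c then f (Fin.tail w) else 0 := rfl

theorem comp_ins (a c : Lt k l) (f : W K k l (Fin m)) :
    comp c (ins a f) = if c = a then f else 0 := by
  funext w
  rw [comp_apply, ins_apply, Fin.cons_zero, Fin.tail_cons]
  split_ifs <;> rfl

theorem sum_ins (u : W K k l (Fin (m + 1))) : u = ∑ c, ins c (comp c u) := by
  classical
  refine ext_comp (fun c => ?_)
  rw [map_sum]
  simp only [comp_ins]
  rw [Finset.sum_ite_eq univ c, if_pos (Finset.mem_univ c)]

theorem EE_ins (a b c : Lt k l) (f : W K k l (Fin m)) :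
    EE a b (ins c f) = (if b = c then ins a f else 0) + (eta a b c : K) • ins c (EE a b f) := by
  refine ext_comp (fun d => ?_)
  rw [comp_EE, map_add, map_smul, comp_ins, comp_ins, comp_ins]
  congr 1
  · by_cases h1 : b = c
    · rw [if_pos h1, if_pos h1, comp_ins]
    · rw [if_neg h1, if_neg h1, map_zero, ite_self]
  · by_cases h1 : d = c
    · rw [if_pos h1, if_pos h1, h1]
    · rw [if_neg h1, if_neg h1, map_zero, smul_zero, smul_zero]

/-- Strand 0 and the first block. -/
theorem XBl_ins {A : Type} [CommRing A] [Algebra A K] (c : Lt k l) (f : W K k l (Fin m))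
    (g : W K k l (Fin m')) :
    act A K k l _ (XB A (Bl m m')) (ins c (tens f g))
      = ∑ d, (pm c d : K) • ins d (tens (EE c d f) g) := by
  classical
  refine ext_comp (fun d => ?_)
  rw [comp_XB, map_sum]
  simp only [map_smul, comp_ins]
  rw [Finset.sum_eq_single c, if_pos rfl, EB_Bl]
  · rw [Finset.sum_eq_single d, if_pos rfl]
    · intro b _ hb; rw [if_neg (fun e => hb e.symm), smul_zero]
    · intro h; exact absurd (Finset.mem_univ _) h
  · intro b _ hb; rw [if_neg hb, map_zero, smul_zero]
  · intro h; exact absurd (Finset.mem_univ _) h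

/-- Strand 0 and the second block. -/
theorem XBr_ins {A : Type} [CommRing A] [Algebra A K] (c : Lt k l) (f : W K k l (Fin m))
    (g : W K k l (Fin m')) :
    act A K k l _ (XB A (Br m m')) (ins c (tens f g))
      = ∑ d, (pm c d : K) • ins d (tens (sg c d f) (EE c d g)) := by
  classical
  refine ext_comp (fun d => ?_)
  rw [comp_XB, map_sum]
  simp only [map_smul, comp_ins]
  rw [Finset.sum_eq_single c, if_pos rfl, EB_Br]
  · rw [Finset.sum_eq_single d, if_pos rfl]
    · intro b _ hb; rw [if_neg (fun e => hb e.symm), smul_zero]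
    · intro h; exact absurd (Finset.mem_univ _) h
  · intro b _ hb; rw [if_neg hb, map_zero, smul_zero]
  · intro h; exact absurd (Finset.mem_univ _) h

/-- Strand 0 and the whole catalyst. -/
theorem X_ins {A : Type} [CommRing A] [Algebra A K] (c : Lt k l) (f : W K k l (Fin m)) :
    act A K k l _ (XB A univ) (ins c f) = ∑ d, (pm c d : K) • ins d (EE c d f) := by
  classical
  refine ext_comp (fun d => ?_)
  rw [comp_XB, map_sum]
  simp only [map_smul, comp_ins]
  rw [Finset.sum_eq_single c, if_pos rfl]
  · rw [Finset.sum_eq_single d, if_pos rfl]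
    · rfl
    · intro b _ hb; rw [if_neg (fun e => hb e.symm), smul_zero]
    · intro h; exact absurd (Finset.mem_univ _) h
  · intro b _ hb; rw [if_neg hb, map_zero, smul_zero]
  · intro h; exact absurd (Finset.mem_univ _) h

end tensor

end Pool.PI34.SK

end
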