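import Pool.Agent.LibPI54.M05

/-! ### part SK6 -/
section

/-!
PI34, E-block for odd primes, file SK6: definitions.
`A` is the ring of `p`-integral rational numbers (class `PInt`), `K` is `ℚ` or `ZMod p`
(structure `Good`).
-/

set_option linter.unusedSectionVars false
set_option linter.unusedVariables false

namespace Pool.PI34.SK

open Equiv Finset Polynomial
open Pool.PI34.Super (Lt odd)

variable {k l : ℕ}

/-- `A` is (isomorphic to) the ring of the rational numbers with denominator prime to `p`. -/
class PInt (p : ℕ) (A : Type) [CommRing A] [Algebra A ℚ] [Algebra A (ZMod p)] : Prop where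
  inj : Function.Injective (algebraMap A ℚ)
  unit : ∀ a : A, algebraMap A (ZMod p) a ≠ 0 → IsUnit a

/-- number of odd letters minus number of even letters smaller than `c` -/
def hgtc (ω : Lt k l → ℕ) (c : Lt k l) : ℤ :=
  ∑ b, if ω b < ω c then (if odd b then 1 else -1) else 0

/-- the content of the box that is added to the counts `n` with the letter `c` -/
def gam (ω : Lt k l → ℕ) (n : Lt k l → ℕ) (c : Lt k l) : ℤ :=
  (if odd c then -(n c : ℤ) else (n c : ℤ)) + hgtc ω c

/-- the order with the even letters first -/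
def std : Lt k l → ℕ := Sum.elim (fun i => i.val) (fun j => k + j.val)

/-- the order with the odd letters first -/
def opp : Lt k l → ℕ := Sum.elim (fun i => l + i.val) (fun j => j.val)

section poly

variable (A : Type) [CommRing A] (p N e : ℕ) (r : ZMod p)

/-- `∏ (t - γ)^e` over the integers `γ ∈ [-N, N]` -/
noncomputable def PP : A[X] := ∏ γ ∈ Finset.Icc (-(N : ℤ)) N, (X - C (γ : A)) ^ e

/-- the factors with `γ = r` in `ZMod p` -/
noncomputable def FF : A[X] :=
  ∏ γ ∈ (Finset.Icc (-(N : ℤ)) N).filter (fun γ => ((γ : ℤ) : ZMod p) = r), (X - C (γ : A)) ^ e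

/-- the factors with `γ ≠ r` in `ZMod p` -/
noncomputable def GG : A[X] :=
  ∏ γ ∈ (Finset.Icc (-(N : ℤ)) N).filter (fun γ => ¬ ((γ : ℤ) : ZMod p) = r), (X - C (γ : A)) ^ e

open Classical in
/-- the projection polynomial: `v * G` where `u * F + v * G = 1` -/
noncomputable def gpol : A[X] :=
  if h : IsCoprime (FF A p N e r) (GG A p N e r) then h.choose_spec.choose * GG A p N e r else 0

end poly

section defs

variable (A : Type) [CommRing A] (p : ℕ) (k l : ℕ)

/-- the projection polynomial for `V ⊗ V^{⊗ m}` -/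
noncomputable def gp (m : ℕ) (r : ZMod p) : A[X] := gpol A p (m + k + l) (k + l) r

/-- the product of the residue projections of the Jucys-Murphy elements -/
noncomputable def zr : (m : ℕ) → (Fin m → ZMod p) → MonoidAlgebra A (Perm (Fin m))
  | 0, _ => 1
  | m + 1, r => aeval (XB A (univ : Finset (Fin m))) (gp A p k l m (r 0)) *
      pl A (phS m) (zr m (Fin.tail r))

variable (K : Type) [CommRing K] [Algebra A K]

/-- what we need of the field `K` (`ℚ` or `ZMod p`) -/
structure Good : Prop where
  hK : ∀ z : ℤ, (z : K) = 0 → (z : ZMod p) = 0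
  hP : ∀ m : ℕ, aeval (act A K k l (Fin (m + 1)) (XB A univ)) (PP A (m + k + l) (k + l)) = 0

variable {p k l} {m : ℕ}

/-- the lattice `M_r` (over `K`) -/
noncomputable def MM (r : Fin m → ZMod p) : Submodule K (W K k l (Fin m)) :=
  LinearMap.range (act A K k l (Fin m) (zr A p k l m r))

/-- `L⁺`: the vectors of `M_r` killed by the operators odd → even -/
noncomputable def Lp (r : Fin m → ZMod p) : Submodule K (W K k l (Fin m)) :=
  MM A K r ⊓ ⨅ (i : Fin k) (j : Fin l), LinearMap.ker (EE (Sum.inl i) (Sum.inr j))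

/-- `L⁻`: the vectors of `M_r` killed by the operators even → odd -/
noncomputable def Lm (r : Fin m → ZMod p) : Submodule K (W K k l (Fin m)) :=
  MM A K r ⊓ ⨅ (i : Fin k) (j : Fin l), LinearMap.ker (EE (Sum.inr j) (Sum.inl i))

end defs

section sets

variable {K : Type} [CommRing K] {m : ℕ}

/-- all `E_ab` -/
def Sall : Set (Module.End K (W K k l (Fin m))) := {T | ∃ a b, T = EE a b}

/-- the `E_ab` with `a, b` of the same parity -/
def S0 : Set (Module.End K (W K k l (Fin m))) := {T | ∃ a b : Lt k l, odd a = odd b ∧ T = EE a b}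

/-- odd → even -/
def Sup : Set (Module.End K (W K k l (Fin m))) :=
  {T | ∃ (i : Fin k) (j : Fin l), T = EE (Sum.inl i) (Sum.inr j)}

/-- even → odd -/
def Sdn : Set (Module.End K (W K k l (Fin m))) :=
  {T | ∃ (i : Fin k) (j : Fin l), T = EE (Sum.inr j) (Sum.inl i)}

end sets

section del

variable (p : ℕ)

/-- the difference function -/
def Del (ω : Lt k l → ℕ) (n : Lt k l → ℕ) (s : ZMod p) : ℤ :=
  ∑ c, if odd c then -(if ((gam ω n c + 1 : ℤ) : ZMod p) = s then 1 else 0)
    else (if ((gam ω n c : ℤ) : ZMod p) = s then 1 else 0)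

/-- the contribution of a residue sequence -/
def Res {m : ℕ} (r : Fin m → ZMod p) (s : ZMod p) : ℤ :=
  ∑ t, ((if r t + 1 = s then 1 else 0) - (if r t = s then 1 else 0))

/-- the residue of the addable even boxes -/
def ra (p k l : ℕ) : ZMod p := (l : ZMod p) - k + 1

/-- the residue of the addable odd boxes -/
def rb (p k l : ℕ) : ZMod p := (l : ZMod p) - k - 1

/-- the weight: a `k × l` rectangle with arms and legs -/
def n0 (p k l : ℕ) : Lt k l → ℕ :=
  Sum.elim (fun i => l + (p - 1) * (k - 1 - i.val)) (fun j => (p - 1) * (l - 1 - j.val))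

/-- the residue property of `M_r` over `K` -/
def HH (A K : Type) [CommRing A] [CommRing K] [Algebra A K] {p : ℕ} (k l : ℕ) {m : ℕ}
    (r : Fin m → ZMod p) : Prop :=
  ∀ u : W K k l (Fin m), act A K k l (Fin m) (zr A p k l m r) u = u →
    ∀ ω : Lt k l → ℕ, (ω = std ∨ ω = opp) → HW ω u → ∀ w, u w ≠ 0 → ∀ c,
      ((gam ω (cts w) c : ℤ) : ZMod p) = if odd c then rb p k l else ra p k l

end del

section cat

/-- A catalyst with several vectors (over `ℚ`). -/
structure CatP (k l m : ℕ) where
  /-- the vectors -/
  Ξ : Set (W ℚ k l (Fin m))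
  /-- the idempotent -/
  z : MonoidAlgebra ℚ (Perm (Fin m))
  /-- the colour element -/
  E : MonoidAlgebra ℚ (Perm (Fin (m + 1)))
  hne : ∃ ξ ∈ Ξ, ξ ≠ 0
  hz1 : ∀ ξ ∈ Ξ, act ℚ ℚ k l _ z ξ = ξ
  hz2 : ∀ f, act ℚ ℚ k l _ z f ∈ gen Sall (Submodule.span ℚ Ξ)
  hE : ∀ ξ ∈ Ξ, ∀ c : Lt k l,
    act ℚ ℚ k l _ E (ins c ξ) = (if odd c then (1 : ℚ) else 0) • ins c ξ

end cat

end Pool.PI34.SK

end

/-! ### part SKB -/
section

/-!
PI34, E-block for odd primes, row SKB: top letters of highest weight vectors
(general coefficients; compare the proof of `Super4.tt_inj`).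
-/

set_option linter.unusedVariables false

namespace Pool.PI34.SK

open Equiv Finset Polynomial
open Pool.PI34.Super (Lt odd)

variable {K : Type} [CommRing K] {k l m : ℕ}

theorem exists_top (ω : Lt k l → ℕ) {u : W K k l (Fin (m + 1))} (hu : u ≠ 0) :
    ∃ c, comp c u ≠ 0 ∧ ∀ c', ω c < ω c' → comp c' u = 0 := by
  classical
  have h1 : ∃ c, comp c u ≠ 0 := by
    by_contra hcon
    push Not at hcon
    apply hu
    apply ext_comp
    intro c
    rw [hcon c, map_zero]
  obtain ⟨c0, hc0⟩ := h1
  obtain ⟨c, hc, hmax⟩ := Finset.exists_max_image (univ.filter fun c => comp c u ≠ 0) ω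
    ⟨c0, by rw [Finset.mem_filter]; exact ⟨Finset.mem_univ _, hc0⟩⟩
  rw [Finset.mem_filter] at hc
  refine ⟨c, hc.2, fun c' hc' => ?_⟩
  by_contra h2
  have := hmax c' (by rw [Finset.mem_filter]; exact ⟨Finset.mem_univ _, h2⟩)
  omega

/-- `comp_EE` and `hc`; multiply with `eta a b c` (`eta_sq`). -/
theorem top_HW {ω : Lt k l → ℕ} (hω : Function.Injective ω) {u : W K k l (Fin (m + 1))}
    (hu : HW ω u) (c : Lt k l) (hc : ∀ c', ω c < ω c' → comp c' u = 0) : HW ω (comp c u) := by
  intro a b hab
  have h1 := comp_EE a b c u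
  rw [hu a b hab, map_zero] at h1
  have h2 : (if c = a then comp b u else 0 : W K k l (Fin m)) = 0 := by
    split_ifs with h
    · rw [← h] at hab
      exact hc b hab
    · rfl
  rw [h2, zero_add] at h1
  have h3 := congrArg (fun f => (eta a b c : K) • f) h1
  simp only [smul_zero, smul_smul, eta_sq, one_smul] at h3
  exact h3.symm

/-- `comp_XB`: `comp c' (X u) = ∑ b, pm b c' • EE b c' (comp b u)`; for `ω b > ω c` the term is zero
(`hc`), for `ω b ≤ ω c < ω c'` it is zero because
`0 = comp b (EE b c' u) = comp c' u + eta b c' b • EE b c' (comp b u)` (`comp_EE`, `hu`, `hc`). -/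
theorem top_X_above {A : Type} [CommRing A] [Algebra A K] {ω : Lt k l → ℕ}
    (hω : Function.Injective ω) {u : W K k l (Fin (m + 1))}
    (hu : HW ω u) (c : Lt k l) (hc : ∀ c', ω c < ω c' → comp c' u = 0) :
    ∀ c', ω c < ω c' → comp c' (act A K k l _ (XB A univ) u) = 0 := by
  intro c' hc'
  rw [comp_XB]
  refine Finset.sum_eq_zero fun b _ => ?_
  rcases Nat.lt_or_ge (ω c) (ω b) with h | h
  · rw [hc b h, map_zero, smul_zero]
  · have h1 := comp_EE b c' b u
    rw [hu b c' (by omega), map_zero, if_pos rfl, hc c' hc', zero_add] at h1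
    have h3 := congrArg (fun f => (eta b c' b : K) • f) h1
    simp only [smul_zero, smul_smul, eta_sq, one_smul] at h3
    change (pm b c' : K) • EE b c' (comp b u) = 0
    rw [← h3, smul_zero]

/-- `comp c (X u) = ∑ b, pm b c • EE b c (comp b u)`: `b = c` gives `pm c c * n c` (`EE_diag`, `hn`);
`ω b < ω c`: `0 = comp b (EE b c u) = comp c u + eta b c b • EE b c (comp b u)` and
`pm b c * eta b c b = if odd b then -1 else 1`, so the term is `± comp c u`; `ω c < ω b`: zero. -/
theorem top_X {A : Type} [CommRing A] [Algebra A K] {ω : Lt k l → ℕ}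
    (hω : Function.Injective ω) {u : W K k l (Fin (m + 1))}
    (hu : HW ω u) (c : Lt k l) (hc : ∀ c', ω c < ω c' → comp c' u = 0) {n : Lt k l → ℕ}
    (hn : On n (comp c u)) :
    comp c (act A K k l _ (XB A univ) u) = ((gam ω n c : ℤ) : K) • comp c u := by
  classical
  rw [comp_XB]
  have key : ∀ b ∈ (univ : Finset (Lt k l)), (pm b c : K) • EB univ b c (comp b u) =
      ((((if b = c then (if odd c then -(n c : ℤ) else (n c : ℤ)) else 0) +
        (if ω b < ω c then (if odd b then 1 else -1) else 0) : ℤ)) : K) • comp c u := by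
    intro b _
    change (pm b c : K) • EE b c (comp b u) = _
    rcases lt_trichotomy (ω b) (ω c) with h | h | h
    · have hbc : b ≠ c := by
        rintro rfl
        exact lt_irrefl _ h
      rw [if_neg hbc, if_pos h, zero_add]
      have h1 := comp_EE b c b u
      rw [hu b c h, map_zero, if_pos rfl] at h1
      have h2 : EE b c (comp b u) = -(eta b c b : K) • comp c u := by
        have h3 : comp c u = -((eta b c b : K) • EE b c (comp b u)) :=
          eq_neg_of_add_eq_zero_left h1.symm
        rw [h3, neg_smul, smul_neg, neg_neg, smul_smul, eta_sq, one_smul]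
      rw [h2, smul_smul]
      congr 1
      unfold pm eta
      cases odd b <;> cases odd c <;> simp
    · have hbc := hω h
      subst hbc
      rw [if_pos rfl, if_neg (lt_irrefl _), add_zero]
      have h1 : EE b b (comp b u) = (n b : K) • comp b u := by
        funext w
        rw [EE_diag, Pi.smul_apply, smul_eq_mul]
        by_cases hw : comp b u w = 0
        · rw [hw, mul_zero, mul_zero]
        · have := hn w hw
          rw [← this]
          rfl
      rw [h1, smul_smul]
      congr 1
      unfold pm
      cases odd b <;> simp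
    · have hbc : b ≠ c := by
        rintro rfl
        exact lt_irrefl _ h
      rw [if_neg hbc, if_neg (by omega), hc b h, map_zero, smul_zero, add_zero, Int.cast_zero,
        zero_smul]
  rw [Finset.sum_congr rfl key, ← Finset.sum_smul, ← Int.cast_sum, Finset.sum_add_distrib,
    Finset.sum_ite_eq' univ c, if_pos (Finset.mem_univ c)]
  rfl

/-- Induction on `P` (`Polynomial.induction_on'`, powers of `X` with `top_X_above`, `act_HW`). -/
theorem top_poly {A : Type} [CommRing A] [Algebra A K] {ω : Lt k l → ℕ}
    (hω : Function.Injective ω) {u : W K k l (Fin (m + 1))}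
    (hu : HW ω u) (c : Lt k l) (hc : ∀ c', ω c < ω c' → comp c' u = 0) {n : Lt k l → ℕ}
    (hn : On n (comp c u)) (P : A[X]) :
    (∀ c', ω c < ω c' → comp c' (act A K k l _ (aeval (XB A univ) P) u) = 0) ∧
    comp c (act A K k l _ (aeval (XB A univ) P) u)
      = aeval ((gam ω n c : ℤ) : K) P • comp c u := by
  have hpow : ∀ q : ℕ,
      (∀ c', ω c < ω c' → comp c' (act A K k l _ ((XB A univ) ^ q) u) = 0) ∧
      comp c (act A K k l _ ((XB A univ) ^ q) u) = ((gam ω n c : ℤ) : K) ^ q • comp c u := by
    intro q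
    induction q with
    | zero =>
      refine ⟨fun c' hc' => ?_, ?_⟩
      · rw [pow_zero, map_one]
        exact hc c' hc'
      · rw [pow_zero, map_one, pow_zero, one_smul]
        rfl
    | succ q ih =>
      obtain ⟨ih1, ih2⟩ := ih
      have hHW : HW ω (act A K k l _ ((XB A univ) ^ q) u) := act_HW _ hu
      have e1 : act A K k l _ ((XB A (univ : Finset (Fin m))) ^ (q + 1)) u =
          act A K k l _ (XB A univ) (act A K k l _ ((XB A univ) ^ q) u) := by
        rw [pow_succ', map_mul]
        rfl
      have hon : On n (comp c (act A K k l _ ((XB A univ) ^ q) u)) := by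
        rw [ih2]
        intro w hw
        apply hn w
        intro h0
        apply hw
        rw [Pi.smul_apply, h0, smul_zero]
      rw [e1]
      refine ⟨top_X_above hω hHW c ih1, ?_⟩
      rw [top_X hω hHW c ih1 hon, ih2, smul_smul, pow_succ']
  induction P using Polynomial.induction_on' with
  | add P Q hP hQ =>
    refine ⟨fun c' hc' => ?_, ?_⟩
    · rw [map_add, map_add, LinearMap.add_apply, map_add, hP.1 c' hc', hQ.1 c' hc', add_zero]
    · rw [map_add, map_add, LinearMap.add_apply, map_add, hP.2, hQ.2, map_add, add_smul]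
  | monomial q a =>
    have e1 : act A K k l _ (aeval (XB A (univ : Finset (Fin m))) (monomial q a)) u =
        algebraMap A K a • act A K k l _ ((XB A univ) ^ q) u := by
      rw [aeval_monomial, ← Algebra.smul_def, act_smul_apply]
    obtain ⟨h1, h2⟩ := hpow q
    rw [e1]
    refine ⟨fun c' hc' => ?_, ?_⟩
    · rw [map_smul, h1 c' hc', smul_zero]
    · rw [map_smul, h2, aeval_monomial, smul_smul]

/-- `|gam| ≤ m + k + l` for a word with `m` letters -/
theorem gam_abs (ω : Lt k l → ℕ) (w : Fin m → Lt k l) (c : Lt k l) :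
    |gam ω (cts w) c| ≤ ((m + k + l : ℕ) : ℤ) := by
  have h1 : ((cts w c : ℕ) : ℤ) ≤ m := by
    have : cts w c ≤ m := by
      unfold cts Pool.PI34.Super.cnt
      exact (Finset.card_filter_le _ _).trans (by simp)
    exact_mod_cast this
  have h2 : |hgtc ω c| ≤ ((k + l : ℕ) : ℤ) := by
    unfold hgtc
    refine (Finset.abs_sum_le_sum_abs _ _).trans ?_
    have : ∀ b ∈ (univ : Finset (Lt k l)),
        |(if ω b < ω c then (if odd b then (1 : ℤ) else -1) else 0)| ≤ 1 := by
      intro b _
      split_ifs <;> simp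
    refine (Finset.sum_le_sum this).trans ?_
    rw [Finset.sum_const, Finset.card_univ, nsmul_eq_mul, mul_one]
    have : Fintype.card (Lt k l) = k + l := by
      simp [Lt]
    rw [this]
  unfold gam
  have h3 : |(if odd c then -((cts w c : ℕ) : ℤ) else ((cts w c : ℕ) : ℤ))| ≤ m := by
    split_ifs
    · rw [abs_neg, abs_of_nonneg (by positivity)]
      exact h1
    · rw [abs_of_nonneg (by positivity)]
      exact h1
  refine (abs_add_le _ _).trans ?_
  push_cast at h2 ⊢
  linarith

/-- the counts of `cons c w` -/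
theorem cts_cons (c : Lt k l) (w : Fin m → Lt k l) :
    cts (Fin.cons c w : Fin (m + 1) → Lt k l) = cts w + Pi.single c 1 := by
  classical
  funext d
  have h1 : cts (Fin.cons c w : Fin (m + 1) → Lt k l) d = ∑ i, if
      (Fin.cons c w : Fin (m + 1) → Lt k l) i = d then 1 else 0 := by
    unfold cts Pool.PI34.Super.cnt
    rw [Finset.card_filter]
  have h2 : cts w d = ∑ i, if w i = d then 1 else 0 := by
    unfold cts Pool.PI34.Super.cnt
    rw [Finset.card_filter]
  rw [h1, Fin.sum_univ_succ, Pi.add_apply, h2, Pi.single_apply, add_comm]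
  congr 1
  rw [Fin.cons_zero]
  by_cases h : c = d
  · rw [if_pos h, if_pos h.symm]
  · rw [if_neg h, if_neg (Ne.symm h)]

/-- if `u` is on `n` then `comp c u` is on `n - e_c`: for `comp c u ≠ 0` there is `n'` with
`n = n' + e_c` -/
theorem comp_on {u : W K k l (Fin (m + 1))} {n : Lt k l → ℕ} (hu : On n u) (c : Lt k l)
    (hc : comp c u ≠ 0) : ∃ n', n = n' + Pi.single c 1 ∧ On n' (comp c u) := by
  obtain ⟨w, hw⟩ : ∃ w, comp c u w ≠ 0 := by
    by_contra hcon
    push Not at hcon
    exact hc (funext hcon)
  have h1 := hu _ hw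
  rw [cts_cons] at h1
  refine ⟨cts w, h1.symm, fun w' hw' => ?_⟩
  have h2 := hu _ hw'
  rw [cts_cons, ← h1] at h2
  exact add_right_cancel h2

end Pool.PI34.SK

end

/-! ### part SKA -/
section

/-!
PI34, E-block for odd primes, row SKA: the projection polynomials.
-/

set_option linter.unusedVariables false

namespace Pool.PI34.SK

open Equiv Finset Polynomial

variable {A : Type} [CommRing A] {p N e : ℕ} {r : ZMod p}

/-- `Finset.prod_filter_mul_prod_filter_not` -/
theorem FF_mul_GG : FF A p N e r * GG A p N e r = PP A N e := by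
  unfold FF GG PP
  exact Finset.prod_filter_mul_prod_filter_not _ _ _

/-- a nonzero integer in `ZMod p` is a unit in `A` -/
theorem isUnit_intCast_sub [Algebra A ℚ] [Algebra A (ZMod p)] [PInt p A] {γ γ' : ℤ}
    (h : ((γ : ℤ) : ZMod p) ≠ ((γ' : ℤ) : ZMod p)) : IsUnit ((γ : A) - (γ' : A)) := by
  apply PInt.unit (p := p)
  rw [map_sub, map_intCast, map_intCast]
  exact sub_ne_zero.2 h

/-- two linear factors are coprime -/
theorem isCoprime_lin [Algebra A ℚ] [Algebra A (ZMod p)] [PInt p A] {γ γ' : ℤ}
    (h : ((γ : ℤ) : ZMod p) ≠ ((γ' : ℤ) : ZMod p)) :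
    IsCoprime (X - C (γ : A)) (X - C (γ' : A)) :=
  Polynomial.isCoprime_X_sub_C_of_isUnit_sub (isUnit_intCast_sub h)

/-- For integers `γ ≠ γ'` in `ZMod p` the polynomials `X - γ`, `X - γ'` are coprime, because
`(X - γ') - (X - γ) = γ - γ'` is a unit of `A` (`PInt.unit`; `map_intCast`).  Then
`IsCoprime.prod_left`, `IsCoprime.prod_right`, `IsCoprime.pow`. -/
theorem FG_coprime [Algebra A ℚ] [Algebra A (ZMod p)] [PInt p A] (N e : ℕ) (r : ZMod p) :
    IsCoprime (FF A p N e r) (GG A p N e r) := by
  unfold FF GG
  refine IsCoprime.prod_left fun γ hγ => IsCoprime.prod_right fun γ' hγ' => IsCoprime.pow ?_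
  rw [Finset.mem_filter] at hγ hγ'
  apply isCoprime_lin (p := p)
  intro h
  exact hγ'.2 (h ▸ hγ.2)

theorem gpol_spec [Algebra A ℚ] [Algebra A (ZMod p)] [PInt p A] (N e : ℕ) (r : ZMod p) :
    ∃ u v : A[X], u * FF A p N e r + v * GG A p N e r = 1 ∧
      gpol A p N e r = v * GG A p N e r := by
  classical
  have h := FG_coprime (A := A) (p := p) N e r
  refine ⟨h.choose, h.choose_spec.choose, h.choose_spec.choose_spec, ?_⟩
  unfold gpol
  rw [dif_pos h]

/-- If `γ = r` then `F(γ) = 0` (`e > 0`), so `v G(γ) = 1`; if `γ ≠ r` then `G(γ) = 0`. -/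
theorem gpol_eval [Algebra A ℚ] [Algebra A (ZMod p)] [PInt p A] {K : Type} [CommRing K]
    [Algebra A K] (he : 0 < e) (r : ZMod p) (γ : ℤ) (hγ : |γ| ≤ N) :
    aeval (γ : K) (gpol A p N e r) = if (γ : ZMod p) = r then 1 else 0 := by
  obtain ⟨u, v, huv, hg⟩ := gpol_spec (A := A) (p := p) N e r
  have hmem : γ ∈ Finset.Icc (-(N : ℤ)) N := Finset.mem_Icc.2 (abs_le.1 hγ)
  rw [hg]
  split_ifs with h
  · have hF : aeval (γ : K) (FF A p N e r) = 0 := by
      unfold FF
      rw [map_prod]
      refine Finset.prod_eq_zero (i := γ) (Finset.mem_filter.2 ⟨hmem, h⟩) ?_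
      simp [he.ne']
    have := congrArg (aeval (γ : K)) huv
    rw [map_add, map_mul, hF, mul_zero, zero_add, map_one] at this
    exact this
  · have hG : aeval (γ : K) (GG A p N e r) = 0 := by
      unfold GG
      rw [map_prod]
      refine Finset.prod_eq_zero (i := γ) (Finset.mem_filter.2 ⟨hmem, h⟩) ?_
      simp [he.ne']
    rw [map_mul, hG, mul_zero]

/-- `g² - g = v G (v G - 1) = - v G u F = 0` -/
theorem gpol_idem [Algebra A ℚ] [Algebra A (ZMod p)] [PInt p A] {B : Type*} [Ring B]
    [Algebra A B] (x : B) (hx : aeval x (PP A N e) = 0) (r : ZMod p) :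
    aeval x (gpol A p N e r) * aeval x (gpol A p N e r) = aeval x (gpol A p N e r) := by
  obtain ⟨u, v, huv, hg⟩ := gpol_spec (A := A) (p := p) N e r
  rw [← FF_mul_GG (r := r)] at hx
  have h1 : gpol A p N e r * gpol A p N e r
      = gpol A p N e r - (u * v) * (FF A p N e r * GG A p N e r) := by
    rw [hg]
    have : v * GG A p N e r = 1 - u * FF A p N e r := by rw [← huv]; ring
    calc v * GG A p N e r * (v * GG A p N e r)
        = v * GG A p N e r * (1 - u * FF A p N e r) := by rw [← this]
      _ = _ := by ring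
  rw [← map_mul, h1, map_sub, map_mul (aeval x) (u * v), hx, mul_zero, sub_zero]

/-- For every `r`: `y = (u_r F_r + v_r G_r)(x) y = (u_r F_r)(x) y`, so `y = ∏_r (u_r F_r)(x) y`
and `∏_r F_r = PP` (`Finset.prod_fiberwise`). -/
theorem gpol_total [Fact p.Prime] [Algebra A ℚ] [Algebra A (ZMod p)] [PInt p A] {B : Type*}
    [Ring B] [Algebra A B] {V : Type*} [AddCommGroup V] [Module B V] (x : B)
    (hx : aeval x (PP A N e) = 0) (y : V) (h : ∀ r, aeval x (gpol A p N e r) • y = 0) :
    y = 0 := by
  classical
  choose u v huv hg using fun r => gpol_spec (A := A) (p := p) N e r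
  have hr : ∀ r, aeval x (u r * FF A p N e r) • y = y := by
    intro r
    have h1 := congrArg (fun q => aeval x q • y) (huv r)
    simp only [map_add, map_one, add_smul, one_smul] at h1
    rw [← hg, h r, add_zero] at h1
    exact h1
  have hs : ∀ s : Finset (ZMod p), aeval x (∏ r ∈ s, (u r * FF A p N e r)) • y = y := by
    intro s
    induction s using Finset.induction_on with
    | empty => simp
    | insert a s ha ih => rw [Finset.prod_insert ha, map_mul, mul_smul, ih, hr]
  have hprod : ∏ r : ZMod p, FF A p N e r = PP A N e := by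
    unfold FF PP
    exact Finset.prod_fiberwise _ _ _
  rw [← hs univ, Finset.prod_mul_distrib, hprod, map_mul, hx, mul_zero, zero_smul]

end Pool.PI34.SK

end

/-! ### part SKC -/
section

/-!
PI34, E-block for odd primes, row SKC: `PP(X) = 0` over `ℚ` and over `ZMod p`.
-/

set_option linter.unusedVariables false

namespace Pool.PI34.SK

open Equiv Finset Polynomial
open Pool.PI34.Super (Lt odd)

variable {k l : ℕ}

theorem std_inj : Function.Injective (std : Lt k l → ℕ) := by
  rintro (i | i) (j | j) h
  · simp only [std, Sum.elim_inl] at h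
    rw [Fin.ext h]
  · simp only [std, Sum.elim_inl, Sum.elim_inr] at h
    have := i.2
    omega
  · simp only [std, Sum.elim_inl, Sum.elim_inr] at h
    have := j.2
    omega
  · simp only [std, Sum.elim_inr] at h
    rw [Fin.ext (show i.val = j.val by omega)]

theorem opp_inj : Function.Injective (opp : Lt k l → ℕ) := by
  rintro (i | i) (j | j) h
  · simp only [opp, Sum.elim_inl] at h
    rw [Fin.ext (show i.val = j.val by omega)]
  · simp only [opp, Sum.elim_inl, Sum.elim_inr] at h
    have := j.2
    omega
  · simp only [opp, Sum.elim_inl, Sum.elim_inr] at h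
    have := i.2
    omega
  · simp only [opp, Sum.elim_inr] at h
    rw [Fin.ext h]

theorem std_lt (c : Lt k l) : std c < k + l := by
  rcases c with i | i
  · have := i.2
    simp only [std, Sum.elim_inl]
    omega
  · have := i.2
    simp only [std, Sum.elim_inr]
    omega

theorem PP_succ (A : Type) [CommRing A] (N q : ℕ) : PP A N (q + 1) = PP A N 1 * PP A N q := by
  unfold PP
  rw [← Finset.prod_mul_distrib]
  refine Finset.prod_congr rfl fun γ _ => ?_
  rw [pow_one, pow_succ']

theorem PX_step {K : Type} [CommRing K] {A : Type} [CommRing A] [Algebra A K] {m : ℕ}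
    (N : ℕ) (hN : m + k + l ≤ N) (q : ℕ) : ∀ {u : W K k l (Fin (m + 1))}, HW std u →
    ∀ {n : Lt k l → ℕ}, On n u → (∀ c : Lt k l, q ≤ std c → comp c u = 0) →
    act A K k l (Fin (m + 1)) (aeval (XB A univ) (PP A N q)) u = 0 := by
  induction q with
  | zero =>
    intro u hu n hn h
    have : u = 0 := ext_comp fun c => by rw [h c (Nat.zero_le _), map_zero]
    rw [this, map_zero]
  | succ q ih =>
    intro u hu n hn h
    by_cases hc : ∀ c : Lt k l, q ≤ std c → comp c u = 0
    · rw [PP_succ, map_mul, map_mul, Module.End.mul_apply, ih hu hn hc, map_zero]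
    · push Not at hc
      obtain ⟨c, hc1, hc2⟩ := hc
      have hcq : std c = q := by
        rcases Nat.lt_or_ge q (std c) with h1 | h1
        · exact absurd (h c h1) hc2
        · exact le_antisymm h1 hc1
      have habove : ∀ c', std c < std c' → comp c' u = 0 := fun c' hc' =>
        h c' (by omega)
      obtain ⟨n', _, hn'⟩ := comp_on hn c hc2
      obtain ⟨w, hw⟩ : ∃ w, comp c u w ≠ 0 := by
        by_contra hcon
        push Not at hcon
        exact hc2 (funext hcon)
      have hγ : |gam std n' c| ≤ ((m + k + l : ℕ) : ℤ) := by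
        rw [← hn' w hw]
        exact gam_abs std w c
      set γ : ℤ := gam std n' c with hγdef
      have hmem : γ ∈ Finset.Icc (-(N : ℤ)) N := by
        rw [Finset.mem_Icc]
        have hNN : ((m + k + l : ℕ) : ℤ) ≤ (N : ℤ) := by exact_mod_cast hN
        exact abs_le.1 (hγ.trans hNN)
      have hP1 : PP A N 1 = (∏ γ' ∈ (Finset.Icc (-(N : ℤ)) N).erase γ, (X - C (γ' : A)) ^ 1) *
          (X - C (γ : A)) := by
        unfold PP
        rw [mul_comm, ← Finset.mul_prod_erase _ _ hmem, pow_one]
      set v := act A K k l (Fin (m + 1)) (aeval (XB A univ) (X - C (γ : A))) u with hv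
      have htop := top_poly (A := A) std_inj hu c habove hn' (X - C (γ : A))
      have hvz : ∀ c' : Lt k l, q ≤ std c' → comp c' v = 0 := by
        intro c' hc'
        rcases Nat.lt_or_ge (std c) (std c') with h1 | h1
        · exact htop.1 c' h1
        · have : c' = c := std_inj (by omega)
          rw [this, hv, htop.2]
          simp [hγdef]
      have hvv := ih (act_HW _ hu) (act_on _ hn) hvz
      rw [PP_succ, hP1]
      rw [show (∏ γ' ∈ (Finset.Icc (-(N : ℤ)) N).erase γ, (X - C (γ' : A)) ^ 1) *
          (X - C (γ : A)) * PP A N q = (∏ γ' ∈ (Finset.Icc (-(N : ℤ)) N).erase γ,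
            (X - C (γ' : A)) ^ 1) * (PP A N q * (X - C (γ : A))) by ring]
      rw [map_mul, map_mul, Module.End.mul_apply, map_mul, map_mul, Module.End.mul_apply]
      rw [← hv, hvv, map_zero]

/-- A highest weight vector `u` of one weight is killed by `PP(X)`.  PROOF.  Claim: if
`comp c u = 0` for all `c` with `std c ≥ q`, then `u` is killed by `PP A N q` evaluated at `X`
(`N = m + k + l`), by induction on `q`.  `q = 0`: `u = 0` (`ext_comp`).  Step `q → q + 1`: let `c` be the
letter with `std c = q` (if `comp c u = 0` use the induction hypothesis and `PP A N (q+1) =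
PP A N 1 * PP A N q`), `γ = gam std n' c` (`comp_on`), `|γ| ≤ N` (`gam_abs`, a word in the support of
`comp c u`); `(X - γ) u` is a highest weight vector of the same weight (`act_HW`, `act_on`) with
`comp c ((X - γ) u) = 0` (`top_X`) and zero components above (`top_X_above`); and
`PP A N (q + 1) = PP A N q * (∏_{γ' ≠ γ} (X - γ')) * (X - γ)`.  The letters have `std c < k + l`. -/
theorem PX_HW {K : Type} [CommRing K] {A : Type} [CommRing A] [Algebra A K] {m : ℕ}
    {u : W K k l (Fin (m + 1))} (hu : HW std u) {n : Lt k l → ℕ} (hn : On n u) :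
    aeval (act A K k l (Fin (m + 1)) (XB A univ)) (PP A (m + k + l) (k + l)) u = 0 := by
  rw [Polynomial.aeval_algHom_apply]
  exact PX_step (m + k + l) le_rfl (k + l) hu hn fun c hc => absurd (std_lt c) (not_lt.2 hc)

/-- Let `T := PP(X)`, an element `act y` (`y := aeval (XB A univ) PP`, `Polynomial.aeval_algHom_apply`),
`N := range T`: graded (`act_wproj`), stable under all `EE` (`act_EE`).  If `N ≠ ⊥` take `v` from
`exists_HW std`, `T v = 0` by `PX_HW`, `v = T x`, and `ip v v = ip (T x) v = ip x (T v) = 0`
(`SelfAdj.aeval`, `selfAdj_XB`), so `v = 0` (sum of squares over `ℚ`).  Contradiction. -/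
theorem PX_rat (A : Type) [CommRing A] [Algebra A ℚ] (k l m : ℕ) :
    aeval (act A ℚ k l (Fin (m + 1)) (XB A univ)) (PP A (m + k + l) (k + l)) = 0 := by
  rw [Polynomial.aeval_algHom_apply]
  set y := aeval (XB A (univ : Finset (Fin m))) (PP A (m + k + l) (k + l)) with hy
  set T := act A ℚ k l (Fin (m + 1)) y with hT
  rw [← LinearMap.range_eq_bot]
  by_contra hne
  have hg : Graded (LinearMap.range T) := by
    rintro n _ ⟨x, rfl⟩
    exact ⟨wproj n x, act_wproj y n x⟩
  have hst : ∀ a b : Lt k l, std a < std b → ∀ v ∈ LinearMap.range T,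
      EE a b v ∈ LinearMap.range T := by
    rintro a b _ _ ⟨x, rfl⟩
    refine ⟨EE a b x, ?_⟩
    have h := LinearMap.congr_fun (act_EE y a b) x
    simpa only [Module.End.mul_apply] using h
  obtain ⟨v, ⟨x, hx⟩, hv0, hvHW, n, hn⟩ := exists_HW std hg hst hne
  have hTv : T v = 0 := by
    have h := PX_HW (A := A) hvHW hn
    rw [Polynomial.aeval_algHom_apply] at h
    exact h
  have hsa : SelfAdj A ℚ k l y := (selfAdj_XB univ).aeval _
  have h1 : ip v v = 0 := by
    have h2 := hsa x v
    rw [← hT, hx, hTv, ip_zero_right] at h2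
    exact h2
  apply hv0
  funext w
  have h3 := (Finset.sum_eq_zero_iff_of_nonneg (fun w _ => mul_self_nonneg (v w))).1 h1 w
    (Finset.mem_univ w)
  exact mul_self_eq_zero.1 h3

/-- `act_bc`: over `A` the element acts by zero, because `A → ℚ` is injective; every function with values
in `ZMod p` is the image of a function with values in `A` (`ZMod p` consists of images of natural
numbers). -/
theorem PX_mod (p : ℕ) [Fact p.Prime] (A : Type) [CommRing A] [Algebra A ℚ] [Algebra A (ZMod p)]
    [PInt p A] (k l m : ℕ) :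
    aeval (act A (ZMod p) k l (Fin (m + 1)) (XB A univ)) (PP A (m + k + l) (k + l)) = 0 := by
  have hQ := PX_rat A k l m
  rw [Polynomial.aeval_algHom_apply] at hQ ⊢
  set y := aeval (XB A (univ : Finset (Fin m))) (PP A (m + k + l) (k + l)) with hy
  have hA : ∀ f : W A k l (Fin (m + 1)), act A A k l (Fin (m + 1)) y f = 0 := by
    intro f
    have h1 := act_bc (K := ℚ) y f
    rw [hQ, LinearMap.zero_apply] at h1
    funext w
    apply PInt.inj (p := p) (A := A)
    have h2 := congrFun h1 w
    change algebraMap A ℚ (act A A k l (Fin (m + 1)) y f w) = algebraMap A ℚ 0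
    rw [map_zero]
    exact h2.symm
  apply LinearMap.ext
  intro f
  have hf : bc A (ZMod p) (fun w => (((f w).val : ℕ) : A)) = f := by
    funext w
    change algebraMap A (ZMod p) (((f w).val : ℕ) : A) = f w
    rw [map_natCast, ZMod.natCast_zmod_val]
  rw [← hf, act_bc, hA]
  funext w
  change algebraMap A (ZMod p) 0 = 0
  rw [map_zero]

theorem good_rat (p : ℕ) [Fact p.Prime] (A : Type) [CommRing A] [Algebra A ℚ] (k l : ℕ) :
    Good A p k l ℚ :=
  ⟨fun z hz => by
    have : z = 0 := by exact_mod_cast hz
    rw [this, Int.cast_zero], PX_rat A k l⟩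

theorem good_mod (p : ℕ) [Fact p.Prime] (A : Type) [CommRing A] [Algebra A ℚ]
    [Algebra A (ZMod p)] [PInt p A] (k l : ℕ) : Good A p k l (ZMod p) :=
  ⟨fun z hz => hz, PX_mod p A k l⟩

end Pool.PI34.SK

end

/-! ### part SKD -/
section

/-!
PI34, E-block for odd primes, row SKD: the elements `zr` and the spaces `MM`.
-/

set_option linter.unusedVariables false

namespace Pool.PI34.SK

open Equiv Finset Polynomial
open Pool.PI34.Super (Lt odd ext ext_apply ext_apply')

variable {k l : ℕ}

/-- Conjugation by a permutation of the strands `1, …, m` permutes the transpositions `(0 s)`. -/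
theorem plS_comm_X {A : Type} [CommRing A] {m : ℕ} (y : MonoidAlgebra A (Perm (Fin m))) :
    pl A (phS m) y * XB A univ = XB A univ * pl A (phS m) y := by
  induction y using MonoidAlgebra.induction_on with
  | of σ =>
    rw [pl_of]
    unfold XB
    rw [Finset.mul_sum, Finset.sum_mul]
    have h0 : ext (phS m) σ 0 = 0 := ext_apply' (phS m) σ 0 (by
      rintro ⟨a, ha⟩
      exact Fin.succ_ne_zero a ha)
    have h1 : ∀ s : Fin m, MonoidAlgebra.of A _ (ext (phS m) σ) *
        MonoidAlgebra.of A _ (swap (0 : Fin (m + 1)) s.succ) =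
        MonoidAlgebra.of A _ (swap (0 : Fin (m + 1)) (σ s).succ) *
          MonoidAlgebra.of A _ (ext (phS m) σ) := by
      intro s
      rw [← map_mul, ← map_mul, Equiv.mul_swap_eq_swap_mul, h0]
      have h2 : ext (phS m) σ s.succ = (σ s).succ := ext_apply (phS m) σ s
      rw [h2]
    rw [Finset.sum_congr rfl fun s _ => h1 s]
    exact Equiv.sum_comp σ (fun s => MonoidAlgebra.of A _ (swap (0 : Fin (m + 1)) s.succ) *
      MonoidAlgebra.of A _ (ext (phS m) σ))
  | add x y hx hy => rw [map_add, add_mul, mul_add, hx, hy]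
  | smul r x hx => rw [map_smul, smul_mul_assoc, hx, mul_smul_comm]

theorem plS_comm_aeval {A : Type} [CommRing A] {m : ℕ} (y : MonoidAlgebra A (Perm (Fin m)))
    (P : A[X]) :
    pl A (phS m) y * aeval (XB A (univ : Finset (Fin m))) P
      = aeval (XB A univ) P * pl A (phS m) y := by
  induction P using Polynomial.induction_on' with
  | add P Q hP hQ => rw [map_add, mul_add, add_mul, hP, hQ]
  | monomial n a =>
    rw [Polynomial.aeval_monomial, ← Algebra.smul_def, mul_smul_comm, smul_mul_assoc]
    have h : Commute (pl A (phS m) y) (XB A univ) := plS_comm_X y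
    rw [(h.pow_right n).eq]

section

variable {A K : Type} [CommRing A] [CommRing K] [Algebra A K] {p : ℕ} {m : ℕ}

theorem zr_succ' (r : Fin (m + 1) → ZMod p) : zr A p k l (m + 1) r =
    aeval (XB A (univ : Finset (Fin m))) (gp A p k l m (r 0)) *
      pl A (phS m) (zr A p k l m (Fin.tail r)) := rfl

theorem zr_succ'' (r : Fin (m + 1) → ZMod p) : zr A p k l (m + 1) r =
    pl A (phS m) (zr A p k l m (Fin.tail r)) *
      aeval (XB A (univ : Finset (Fin m))) (gp A p k l m (r 0)) := by
  rw [zr_succ', plS_comm_aeval]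

/-- `selfAdj_XB`, `SelfAdj.aeval`, `selfAdj_pl conv_phS`, `SelfAdj.mul` with `plS_comm_aeval`. -/
theorem zr_selfAdj (r : Fin m → ZMod p) : SelfAdj A K k l (zr A p k l m r) := by
  induction m with
  | zero => exact selfAdj_one
  | succ m ih =>
    rw [zr_succ']
    exact ((selfAdj_XB univ).aeval _).mul (selfAdj_pl conv_phS (ih _))
      (plS_comm_aeval _ _).symm

theorem gX_idem [Algebra A ℚ] [Algebra A (ZMod p)] [PInt p A] (hg : Good A p k l K)
    (r : ZMod p) (u : W K k l (Fin (m + 1))) :
    act A K k l _ (aeval (XB A univ) (gp A p k l m r))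
      (act A K k l _ (aeval (XB A univ) (gp A p k l m r)) u) =
      act A K k l _ (aeval (XB A univ) (gp A p k l m r)) u := by
  have h := gpol_idem (act A K k l (Fin (m + 1)) (XB A univ)) (hg.hP m) r
  rw [Polynomial.aeval_algHom_apply] at h
  exact LinearMap.congr_fun h u

/-- Induction on `m`: `gpol_idem` for `B = Module.End K _` (`Polynomial.aeval_algHom_apply`), `comp_plS`,
`plS_comm_aeval`. -/
theorem zr_idem [Algebra A ℚ] [Algebra A (ZMod p)] [PInt p A] (hg : Good A p k l K)
    (r : Fin m → ZMod p) (u : W K k l (Fin m)) :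
    act A K k l _ (zr A p k l m r) (act A K k l _ (zr A p k l m r) u)
      = act A K k l _ (zr A p k l m r) u := by
  induction m with
  | zero =>
    have h1 : zr A p k l 0 r = 1 := rfl
    rw [h1, map_one]
    rfl
  | succ m ih =>
    have hP : ∀ u, act A K k l _ (pl A (phS m) (zr A p k l m (Fin.tail r)))
        (act A K k l _ (pl A (phS m) (zr A p k l m (Fin.tail r))) u) =
        act A K k l _ (pl A (phS m) (zr A p k l m (Fin.tail r))) u := by
      intro u
      refine ext_comp fun c => ?_
      rw [comp_plS, comp_plS, ih]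
    have h1 : ∀ v, act A K k l _ (zr A p k l (m + 1) r) v =
        act A K k l _ (aeval (XB A univ) (gp A p k l m (r 0)))
          (act A K k l _ (pl A (phS m) (zr A p k l m (Fin.tail r))) v) := by
      intro v
      rw [zr_succ', map_mul, Module.End.mul_apply]
    have h2 : ∀ v, act A K k l _ (zr A p k l (m + 1) r) v =
        act A K k l _ (pl A (phS m) (zr A p k l m (Fin.tail r)))
          (act A K k l _ (aeval (XB A univ) (gp A p k l m (r 0))) v) := by
      intro v
      rw [zr_succ'', map_mul, Module.End.mul_apply]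
    rw [h2, h1 u, gX_idem hg, ← h1 u, h2 u, hP]

theorem mem_MM [Algebra A ℚ] [Algebra A (ZMod p)] [PInt p A] (hg : Good A p k l K)
    (r : Fin m → ZMod p) (u : W K k l (Fin m)) :
    u ∈ MM A K r ↔ act A K k l _ (zr A p k l m r) u = u := by
  constructor
  · rintro ⟨x, rfl⟩
    exact zr_idem hg r x
  · intro h
    exact ⟨u, h⟩

/-- `act_EE` -/
theorem MM_EE (r : Fin m → ZMod p) (a b : Lt k l) {u : W K k l (Fin m)} (hu : u ∈ MM A K r) :
    EE a b u ∈ MM A K r := by
  obtain ⟨x, rfl⟩ := hu
  refine ⟨EE a b x, ?_⟩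
  have h := LinearMap.congr_fun (act_EE (zr A p k l m r) a b) x
  simpa only [Module.End.mul_apply] using h

/-- `act_wproj` -/
theorem MM_graded (r : Fin m → ZMod p) : Graded (MM (k := k) (l := l) A K r) := by
  rintro n _ ⟨x, rfl⟩
  exact ⟨wproj n x, act_wproj _ n x⟩

/-- `act y` commutes with `sg a b`, because a permutation does not change the number of odd letters. -/
theorem act_sg (y : MonoidAlgebra A (Perm (Fin m))) (a b : Lt k l) (u : W K k l (Fin m)) :
    act A K k l _ y (sg a b u) = sg a b (act A K k l _ y u) := by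
  induction y using MonoidAlgebra.induction_on with
  | of σ =>
    rw [act_of]
    funext w
    rw [rho_apply, sg_apply, sg_apply, rho_apply]
    have h := Equiv.prod_comp σ (fun i => (eta a b (w i) : K))
    have h2 : ∏ i, (eta a b ((w ∘ σ) i) : K) = ∏ i, eta a b (w i) := h
    rw [h2]
    ring
  | add x y hx hy =>
    rw [map_add, LinearMap.add_apply, LinearMap.add_apply, map_add, hx, hy]
  | smul r x hx =>
    rw [act_smul_apply, act_smul_apply, map_smul, hx]

theorem MM_sg (r : Fin m → ZMod p) (a b : Lt k l) {u : W K k l (Fin m)} (hu : u ∈ MM A K r) :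
    sg a b u ∈ MM A K r := by
  obtain ⟨x, rfl⟩ := hu
  exact ⟨sg a b x, act_sg _ a b x⟩

/-- `zr (m+1) r = g(X) * plS (zr m (tail r))`, the factors are commuting idempotents on `W`. -/
theorem zr_succ_mem [Algebra A ℚ] [Algebra A (ZMod p)] [PInt p A] (hg : Good A p k l K)
    (r : Fin (m + 1) → ZMod p) {u : W K k l (Fin (m + 1))} (hu : u ∈ MM A K r) :
    act A K k l _ (aeval (XB A univ) (gp A p k l m (r 0))) u = u ∧
      ∀ c, comp c u ∈ MM A K (Fin.tail r) := by
  have h := (mem_MM hg r u).1 hu
  constructor
  · rw [zr_succ', map_mul, Module.End.mul_apply] at h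
    rw [← h, gX_idem hg]
  · intro c
    rw [mem_MM hg]
    rw [zr_succ'', map_mul, Module.End.mul_apply] at h
    rw [← h, comp_plS, zr_idem hg]

end

/-- Every nonzero `u` has a nonzero projection for some residue sequence.  Induction on `m`:
`gpol_total` gives `r0` with `u' := g_{r0}(X) u ≠ 0`, some `comp c u' ≠ 0` (`ext_comp`), the induction
hypothesis gives `r'` with `zr r' (comp c u') ≠ 0`; `comp_plS` and `plS_comm_aeval`:
`comp c (zr (cons r0 r') u) = zr r' (comp c u')`. -/
theorem exists_res {A K : Type} [CommRing A] [CommRing K] [Algebra A K] {p : ℕ} [Fact p.Prime]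
    [Algebra A ℚ] [Algebra A (ZMod p)] [PInt p A] (hg : Good A p k l K) {m : ℕ}
    {u : W K k l (Fin m)} (hu : u ≠ 0) :
    ∃ r : Fin m → ZMod p, act A K k l _ (zr A p k l m r) u ≠ 0 := by
  induction m with
  | zero =>
    refine ⟨Fin.elim0, ?_⟩
    have h1 : zr A p k l 0 Fin.elim0 = 1 := rfl
    rw [h1, map_one]
    exact hu
  | succ m ih =>
    have h0 : ∃ r0 : ZMod p, act A K k l _ (aeval (XB A univ) (gp A p k l m r0)) u ≠ 0 := by
      by_contra hcon
      push Not at hcon
      apply hu
      refine gpol_total (p := p) (act A K k l (Fin (m + 1)) (XB A univ)) (hg.hP m) u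
        fun r => ?_
      rw [Polynomial.aeval_algHom_apply]
      exact hcon r
    obtain ⟨r0, h1⟩ := h0
    obtain ⟨c, hc⟩ : ∃ c, comp c (act A K k l _ (aeval (XB A univ) (gp A p k l m r0)) u) ≠ 0 := by
      by_contra hcon
      push Not at hcon
      exact h1 (ext_comp fun c => by rw [hcon c, map_zero])
    obtain ⟨r', hr'⟩ := ih hc
    refine ⟨Fin.cons r0 r', fun h => hr' ?_⟩
    have h2 : zr A p k l (m + 1) (Fin.cons r0 r') = pl A (phS m) (zr A p k l m r') *
        aeval (XB A (univ : Finset (Fin m))) (gp A p k l m r0) := by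
      rw [zr_succ'', Fin.tail_cons, Fin.cons_zero]
    rw [h2, map_mul, Module.End.mul_apply] at h
    rw [← comp_plS, h, map_zero]

end Pool.PI34.SK

end

/-! ### part SKE -/
section

/-!
PI34, E-block for odd primes, row SKE: the difference function (integer combinatorics).
-/

set_option linter.unusedVariables false

namespace Pool.PI34.SK

open Equiv Finset
open Pool.PI34.Super (Lt odd)

variable {p k l : ℕ}

/-- `gam` changes only at `c`, by `+1` (`c` even) or `-1` (`c` odd). -/
theorem Del_add (ω n : Lt k l → ℕ) (c : Lt k l) (s : ZMod p) :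
    Del p ω (n + Pi.single c 1) s = Del p ω n s +
      ((if ((gam ω n c : ℤ) : ZMod p) + 1 = s then 1 else 0)
        - (if ((gam ω n c : ℤ) : ZMod p) = s then 1 else 0)) := by
  classical
  have hg : ∀ d, d ≠ c → gam ω (n + Pi.single c 1) d = gam ω n d := by
    intro d hd
    unfold gam
    rw [Pi.add_apply, Pi.single_eq_of_ne hd, add_zero]
  have hc : gam ω (n + Pi.single c 1) c = gam ω n c + (if odd c then -1 else 1) := by
    unfold gam
    rw [Pi.add_apply, Pi.single_eq_same]
    split_ifs <;> push_cast <;> ring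
  unfold Del
  rw [← Finset.add_sum_erase _ _ (Finset.mem_univ c), ← Finset.add_sum_erase (f := fun c =>
    if odd c then -(if ((gam ω n c + 1 : ℤ) : ZMod p) = s then 1 else 0)
      else (if ((gam ω n c : ℤ) : ZMod p) = s then 1 else 0)) _ (Finset.mem_univ c)]
  have h1 : ∀ d ∈ univ.erase c,
      (if odd d then -(if ((gam ω (n + Pi.single c 1) d + 1 : ℤ) : ZMod p) = s then (1 : ℤ) else 0)
        else (if ((gam ω (n + Pi.single c 1) d : ℤ) : ZMod p) = s then 1 else 0))
      = (if odd d then -(if ((gam ω n d + 1 : ℤ) : ZMod p) = s then 1 else 0)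
        else (if ((gam ω n d : ℤ) : ZMod p) = s then 1 else 0)) := by
    intro d hd
    rw [hg d (Finset.ne_of_mem_erase hd)]
  rw [Finset.sum_congr rfl h1, hc]
  by_cases ho : odd c = true
  · simp only [ho, if_true]
    have e1 : gam ω n c + -1 + 1 = gam ω n c := by ring
    rw [e1]
    push_cast
    ring
  · simp only [ho, if_false, Bool.false_eq_true]
    push_cast
    ring

theorem exists_prim (f : ℤ → ℤ) : ∃ g : ℤ → ℤ, ∀ h, g (h + 1) - g h = f h := by
  refine ⟨fun h => ∑ t ∈ Finset.Ico 0 h, f t - ∑ t ∈ Finset.Ico h 0, f t, fun h => ?_⟩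
  rcases le_or_gt 0 h with h0 | h0
  · have e1 : Finset.Ico 0 (h + 1) = insert h (Finset.Ico 0 h) := by
      ext x; simp only [Finset.mem_Ico, Finset.mem_insert]; omega
    have e2 : Finset.Ico (h + 1) 0 = ∅ := Finset.Ico_eq_empty (by omega)
    have e3 : Finset.Ico h 0 = ∅ := Finset.Ico_eq_empty (by omega)
    simp only [e1, e2, e3]
    rw [Finset.sum_insert (by simp)]
    simp
  · have e1 : Finset.Ico h 0 = insert h (Finset.Ico (h + 1) 0) := by
      ext x; simp only [Finset.mem_Ico, Finset.mem_insert]; omega
    have e2 : Finset.Ico 0 (h + 1) = ∅ := Finset.Ico_eq_empty (by omega)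
    have e3 : Finset.Ico 0 h = ∅ := Finset.Ico_eq_empty (by omega)
    simp only [e1, e2, e3]
    rw [Finset.sum_insert (by simp)]
    simp

/-- the signs of the letters -/
def sgl (c : Lt k l) : ℤ := if odd c then 1 else -1

theorem gam_zero (ω : Lt k l → ℕ) (c : Lt k l) :
    gam ω 0 c = ∑ b ∈ univ.filter (fun b => ω b < ω c), sgl b := by
  unfold gam hgtc
  rw [Finset.sum_filter]
  simp only [Pi.zero_apply, Nat.cast_zero, neg_zero, ite_self, zero_add]
  rfl

theorem Del_zero_aux {ω : Lt k l → ℕ} (hω : Function.Injective ω) (s : ZMod p) (g : ℤ → ℤ)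
    (hg : ∀ h : ℤ, g (h + 1) - g h = -(if ((h + 1 : ℤ) : ZMod p) = s then 1 else 0)) (q : ℕ) :
    ∑ c ∈ univ.filter (fun c => ω c < q),
      (if odd c then -(if ((gam ω 0 c + 1 : ℤ) : ZMod p) = s then (1 : ℤ) else 0)
        else (if ((gam ω 0 c : ℤ) : ZMod p) = s then 1 else 0))
      = g (∑ c ∈ univ.filter (fun c => ω c < q), sgl c) - g 0 := by
  classical
  induction q with
  | zero => simp
  | succ q ih =>
    by_cases h : ∃ c, ω c = q
    · obtain ⟨c, hc⟩ := h
      have e : univ.filter (fun c => ω c < q + 1) = insert c (univ.filter (fun c => ω c < q)) := by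
        ext d
        simp only [Finset.mem_filter, Finset.mem_univ, true_and, Finset.mem_insert]
        constructor
        · intro hd
          rcases Nat.lt_succ_iff_lt_or_eq.1 hd with h1 | h1
          · exact Or.inr h1
          · exact Or.inl (hω (h1.trans hc.symm))
        · rintro (rfl | h1)
          · omega
          · omega
      have hni : c ∉ univ.filter (fun c => ω c < q) := by simp [hc]
      rw [e, Finset.sum_insert hni, Finset.sum_insert hni, ih]
      have hD : gam ω 0 c = ∑ b ∈ univ.filter (fun b => ω b < q), sgl b := by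
        rw [gam_zero, hc]
      rw [← hD]
      by_cases ho : odd c = true
      · have h1 := hg (gam ω 0 c)
        have h2 : sgl c = 1 := by unfold sgl; rw [if_pos ho]
        rw [if_pos ho, h2, add_comm (1 : ℤ)]
        linarith
      · have h1 := hg (gam ω 0 c - 1)
        have h2 : sgl c = -1 := by unfold sgl; rw [if_neg ho]
        rw [sub_add_cancel] at h1
        have h3 : -1 + gam ω 0 c = gam ω 0 c - 1 := by ring
        rw [if_neg ho, h2, h3]
        linarith
    · have e : univ.filter (fun c => ω c < q + 1) = univ.filter (fun c => ω c < q) := by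
        ext d
        simp only [Finset.mem_filter, Finset.mem_univ, true_and]
        constructor
        · intro hd
          rcases Nat.lt_succ_iff_lt_or_eq.1 hd with h1 | h1
          · exact h1
          · exact absurd ⟨d, h1⟩ h
        · intro hd; omega
      rw [e, ih]

theorem Del_zero_eq {ω : Lt k l → ℕ} (hω : Function.Injective ω) (s : ZMod p) (g : ℤ → ℤ)
    (hg : ∀ h : ℤ, g (h + 1) - g h = -(if ((h + 1 : ℤ) : ZMod p) = s then 1 else 0)) :
    Del p ω 0 s = g (∑ c : Lt k l, sgl c) - g 0 := by
  have h := Del_zero_aux hω s g hg (univ.sup ω + 1)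
  have e : univ.filter (fun c => ω c < univ.sup ω + 1) = univ := by
    ext d
    simp only [Finset.mem_filter, Finset.mem_univ, true_and, iff_true]
    exact Nat.lt_succ_of_le (Finset.le_sup (Finset.mem_univ d))
  rw [e] at h
  exact h

/-- `Del ω 0` does not depend on the order.  PROOF.  `gam ω 0 c = hgtc ω c`.  Let `g : ℤ → ℤ` be a function with
`g h - g (h - 1) = - (if (h : ZMod p) = s then 1 else 0)` for all `h`, `g 0 = 0` (for example
`g h = - #{t ∈ (0, h], t = s}` for `h ≥ 0` and `g h = #{t ∈ (h, 0], t = s}` for `h < 0`).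
For `q : ℕ` let `S_q = {c | ω c < q}`; by induction on `q`: `∑_{c ∈ S_q} (term of c) = g (o - e)` where
`o`, `e` are the numbers of odd and even letters in `S_q`: if `ω c = q` for a (unique) `c` then
`hgtc ω c = o - e`; an even `c` contributes `[o - e = s] = g (o - e - 1) - g (o - e)`, an odd `c`
contributes `- [o - e + 1 = s] = g (o - e + 1) - g (o - e)`.  For large `q`: `Del ω 0 s = g (l - k)`. -/
theorem Del_zero {ω ω' : Lt k l → ℕ} (hω : Function.Injective ω) (hω' : Function.Injective ω')
    (s : ZMod p) : Del p ω 0 s = Del p ω' 0 s := by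
  obtain ⟨g, hg⟩ := exists_prim (fun h => -(if ((h + 1 : ℤ) : ZMod p) = s then 1 else 0))
  rw [Del_zero_eq hω s g hg, Del_zero_eq hω' s g hg]

/-- `gam std n0 c`: for `c = inl i`: `l + (p-1)(k-1-i) - i = l - k + 1`; for `c = inr j`:
`-(p-1)(l-1-j) - k + j = l - k - 1` in `ZMod p` (`i < k`, `j < l`). -/
theorem gam_n0 (hp : 0 < p) (c : Lt k l) :
    ((gam std (n0 p k l) c : ℤ) : ZMod p) = if odd c then rb p k l else ra p k l := by
  have hp1 : ((p - 1 : ℕ) : ZMod p) = -1 := by
    rw [Nat.cast_sub hp, ZMod.natCast_self, Nat.cast_one, zero_sub]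
  rcases c with i | j
  · have hh : hgtc (std : Lt k l → ℕ) (Sum.inl i) = -(i.val : ℤ) := by
      unfold hgtc
      rw [Fintype.sum_sum_type]
      have e2 : ∑ x : Fin l, (if std (Sum.inr x : Lt k l) < std (Sum.inl i : Lt k l) then
          (if odd (Sum.inr x : Lt k l) then (1 : ℤ) else -1) else 0) = 0 := by
        refine Finset.sum_eq_zero (fun x _ => ?_)
        rw [if_neg]
        simp only [std, Sum.elim_inl, Sum.elim_inr]
        have := i.2
        omega
      rw [e2, add_zero]
      have e1 : ∀ x ∈ (univ : Finset (Fin k)), (if std (Sum.inl x : Lt k l) < std (Sum.inl i : Lt k l) then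
          (if odd (Sum.inl x : Lt k l) then (1 : ℤ) else -1) else 0) = if x < i then -1 else 0 := by
        intro x _
        simp only [std, Sum.elim_inl, Fin.lt_def]
        rfl
      rw [Finset.sum_congr rfl e1, ← Finset.sum_filter, Finset.sum_const, Finset.filter_gt_eq_Iio, Fin.card_Iio,
        nsmul_eq_mul]
      ring
    unfold gam
    rw [hh]
    simp only [n0, Sum.elim_inl]
    have ho : odd (Sum.inl i : Lt k l) = false := rfl
    rw [ho]
    simp only [Bool.false_eq_true, if_false]
    push_cast
    rw [hp1, Nat.cast_sub (by have := i.2; omega), Nat.cast_sub (by have := i.2; omega)]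
    unfold ra
    push_cast
    ring
  · have hh : hgtc (std : Lt k l → ℕ) (Sum.inr j) = (j.val : ℤ) - k := by
      unfold hgtc
      rw [Fintype.sum_sum_type]
      have e2 : ∑ x : Fin k, (if std (Sum.inl x : Lt k l) < std (Sum.inr j : Lt k l) then
          (if odd (Sum.inl x : Lt k l) then (1 : ℤ) else -1) else 0) = -(k : ℤ) := by
        have e3 : ∀ x ∈ (univ : Finset (Fin k)), (if std (Sum.inl x : Lt k l) <
            std (Sum.inr j : Lt k l) then
            (if odd (Sum.inl x : Lt k l) then (1 : ℤ) else -1) else 0) = -1 := by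
          intro x _
          rw [if_pos]
          · rfl
          · simp only [std, Sum.elim_inl, Sum.elim_inr]
            have := x.2
            omega
        rw [Finset.sum_congr rfl e3, Finset.sum_const, Finset.card_univ, Fintype.card_fin,
          nsmul_eq_mul]
        ring
      rw [e2]
      have e1 : ∀ x ∈ (univ : Finset (Fin l)), (if std (Sum.inr x : Lt k l) < std (Sum.inr j : Lt k l) then
          (if odd (Sum.inr x : Lt k l) then (1 : ℤ) else -1) else 0) = if x < j then 1 else 0 := by
        intro x _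
        simp only [std, Sum.elim_inr, Fin.lt_def, add_lt_add_iff_left]
        rfl
      rw [Finset.sum_congr rfl e1, ← Finset.sum_filter, Finset.sum_const, Finset.filter_gt_eq_Iio, Fin.card_Iio,
        nsmul_eq_mul]
      ring
    unfold gam
    rw [hh]
    simp only [n0, Sum.elim_inr]
    have ho : odd (Sum.inr j : Lt k l) = true := rfl
    rw [ho]
    simp only [if_true]
    push_cast
    rw [hp1, Nat.cast_sub (by have := j.2; omega), Nat.cast_sub (by have := j.2; omega)]
    unfold rb
    push_cast
    ring

/-- `a ≠ b` and `a ≠ b + 1` because `a - b = 2`, `a - b - 1 = 1` -/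
theorem ra_ne_rb [Fact p.Prime] (hp : p ≠ 2) : ra p k l ≠ rb p k l ∧ ra p k l ≠ rb p k l + 1 := by
  constructor
  · intro h
    have h2 : (2 : ZMod p) = 0 := by
      have h3 : ra p k l - rb p k l = 0 := by rw [h, sub_self]
      unfold ra rb at h3
      linear_combination h3
    have h4 : ((2 : ℕ) : ZMod p) = 0 := by exact_mod_cast h2
    rw [ZMod.natCast_eq_zero_iff] at h4
    exact hp ((Nat.prime_dvd_prime_iff_eq Fact.out Nat.prime_two).1 h4)
  · intro h
    have h2 : (1 : ZMod p) = 0 := by
      have h3 : ra p k l - (rb p k l + 1) = 0 := by rw [h, sub_self]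
      unfold ra rb at h3
      linear_combination h3
    exact one_ne_zero h2

/-- PROOF.  By `gam_n0`, `Del std n0 s = k [a = s] - l [b + 1 = s]`.  Evaluate the hypothesis at `s = a`
(`a ≠ b + 1`): `#{c even, gam = a} - #{c odd, gam + 1 = a} = k`, so all even letters have `gam = a`;
at `s = b + 1`: `#{c even, gam = b+1} - #{c odd, gam = b} = -l`, the first number is `0`, so all odd
letters have `gam = b`. -/
theorem residues_of_Del [Fact p.Prime] (hp : p ≠ 2) (ω n : Lt k l → ℕ)
    (h : ∀ s : ZMod p, Del p ω n s = Del p std (n0 p k l) s) (c : Lt k l) :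
    ((gam ω n c : ℤ) : ZMod p) = if odd c then rb p k l else ra p k l := by
  have hp0 : 0 < p := (Fact.out : p.Prime).pos
  obtain ⟨hab, hab1⟩ := ra_ne_rb (k := k) (l := l) hp
  have hD : ∀ s : ZMod p, Del p std (n0 p k l) s = ∑ c : Lt k l,
      if odd c then -(if rb p k l + 1 = s then (1 : ℤ) else 0)
        else (if ra p k l = s then 1 else 0) := by
    intro s
    unfold Del
    refine Finset.sum_congr rfl (fun c _ => ?_)
    have h1 := gam_n0 (k := k) (l := l) hp0 c
    by_cases ho : odd c = true
    · rw [if_pos ho] at h1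
      rw [if_pos ho, if_pos ho]
      push_cast
      rw [h1]
    · rw [if_neg ho] at h1
      rw [if_neg ho, if_neg ho, h1]
  by_cases ho : odd c = true
  · rw [if_pos ho]
    have h1 := h (rb p k l + 1)
    rw [hD] at h1
    unfold Del at h1
    have h2 := (Finset.sum_eq_sum_iff_of_le (s := (univ : Finset (Lt k l)))
      (f := fun c => if odd c then -(if rb p k l + 1 = rb p k l + 1 then (1 : ℤ) else 0)
        else (if ra p k l = rb p k l + 1 then 1 else 0))
      (g := fun c => if odd c then
        -(if ((gam ω n c + 1 : ℤ) : ZMod p) = rb p k l + 1 then (1 : ℤ) else 0)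
        else (if ((gam ω n c : ℤ) : ZMod p) = rb p k l + 1 then 1 else 0)) (by
          intro d _
          by_cases hd : odd d = true
          · simp only [hd, if_true]
            split_ifs <;> simp
          · simp only [hd, hab1, if_false, Bool.false_eq_true]
            split_ifs <;> simp)).1 h1.symm c (Finset.mem_univ c)
    simp only [ho, if_true] at h2
    by_contra h3
    rw [if_neg] at h2
    · simp at h2
    · push_cast
      intro h4
      exact h3 (add_right_cancel h4)
  · rw [if_neg ho]
    have h1 := h (ra p k l)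
    rw [hD] at h1
    unfold Del at h1
    have h2 := (Finset.sum_eq_sum_iff_of_le (s := (univ : Finset (Lt k l)))
      (g := fun c => if odd c then -(if rb p k l + 1 = ra p k l then (1 : ℤ) else 0)
        else (if ra p k l = ra p k l then 1 else 0))
      (f := fun c => if odd c then
        -(if ((gam ω n c + 1 : ℤ) : ZMod p) = ra p k l then (1 : ℤ) else 0)
        else (if ((gam ω n c : ℤ) : ZMod p) = ra p k l then 1 else 0)) (by
          intro d _
          by_cases hd : odd d = true
          · simp only [hd, if_true, Ne.symm hab1, if_false]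
            split_ifs <;> simp
          · simp only [hd, if_true, if_false, Bool.false_eq_true]
            split_ifs <;> simp)).1 h1 c (Finset.mem_univ c)
    simp only [ho, if_true, if_false, Bool.false_eq_true] at h2
    by_contra h3
    rw [if_neg h3] at h2
    simp at h2

section

variable {A K : Type} [CommRing A] [Field K] [Algebra A K]

/-- Induction on `m`.  Replace `u` by its component of weight `cts w` (`wproj`, `act_wproj`,
`HW_wproj`).  Top letter `c` (`exists_top`), `comp_on` : `cts w = n' + e_c`, `comp c u` on `n'`;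
`zr_succ_mem`: `comp c u ∈ MM (tail r)` and `g_{r 0}(X) u = u`; by `top_poly` and `gpol_eval`
(`gam_abs`) `comp c u = (if gam = r 0 then 1 else 0) • comp c u`, so `gam ω n' c = r 0` in `ZMod p`;
induction hypothesis for `comp c u`, `Del_add`, `Fin.sum_univ_succ`. -/
theorem Del_of_mem [Algebra A ℚ] [Algebra A (ZMod p)] [PInt p A] (hk : 0 < k + l)
    (hg : Good A p k l K) {ω : Lt k l → ℕ} (hω : Function.Injective ω) {m : ℕ}
    (r : Fin m → ZMod p) {u : W K k l (Fin m)}
    (hu : act A K k l _ (zr A p k l m r) u = u) (hw : HW ω u) (w : Fin m → Lt k l)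
    (huw : u w ≠ 0) (s : ZMod p) : Del p ω (cts w) s = Del p ω 0 s + Res p r s := by
  classical
  induction m with
  | zero =>
    have h1 : cts w = 0 := by
      funext c
      simp [cts, Pool.PI34.Super.cnt]
    rw [h1]
    simp [Res]
  | succ m ih =>
    set n := cts w with hn
    set u' := wproj n u with hu'
    have hne : u' ≠ 0 := by
      intro h
      have h1 := congrFun h w
      rw [hu', wproj_apply, if_pos rfl] at h1
      exact huw h1
    have hon : On n u' := wproj_on _ _
    have hw' : HW ω u' := HW_wproj hw n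
    have hz : act A K k l _ (zr A p k l (m + 1) r) u' = u' := by
      rw [hu', act_wproj, hu]
    obtain ⟨c, hc0, hc⟩ := exists_top ω hne
    obtain ⟨n', hn', hon'⟩ := comp_on hon c hc0
    obtain ⟨hX, hM⟩ := zr_succ_mem hg r ((mem_MM hg r u').2 hz)
    have hHW := top_HW hω hw' c hc
    obtain ⟨w', hw'0⟩ : ∃ w', comp c u' w' ≠ 0 := by
      by_contra hcon
      push Not at hcon
      exact hc0 (funext hcon)
    have hctw : cts w' = n' := hon' w' hw'0
    have h2 := ih (Fin.tail r) ((mem_MM hg _ _).1 (hM c)) hHW w' hw'0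
    have h3 := (top_poly hω hw' c hc hon' (gp A p k l m (r 0))).2
    rw [hX] at h3
    unfold gp at h3
    rw [gpol_eval hk (r 0) (gam ω n' c) (by rw [← hctw]; exact gam_abs ω w' c)] at h3
    have h4 : ((gam ω n' c : ℤ) : ZMod p) = r 0 := by
      by_contra hcon
      rw [if_neg hcon, zero_smul] at h3
      exact hc0 h3
    rw [hn', Del_add, h4, ← hctw, h2]
    unfold Res
    rw [Fin.sum_univ_succ]
    simp only [Fin.tail]
    ring_nf

/-- The residue property follows from the existence of a highest weight vector of weight `n0` in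
`M_r` over `ℚ`: `Del_of_mem` over `ℚ` for `std`, and over `K` for `ω`, `Del_zero`,
`residues_of_Del`. -/
theorem HH_of [Fact p.Prime] (hp : p ≠ 2) [Algebra A ℚ] [Algebra A (ZMod p)] [PInt p A]
    (hk : 0 < k + l) (hg : Good A p k l K) {m : ℕ} (r : Fin m → ZMod p)
    {ξ : W ℚ k l (Fin m)} (h0 : ξ ≠ 0) (h1 : act A ℚ k l _ (zr A p k l m r) ξ = ξ)
    (h2 : HW std ξ) (h3 : On (n0 p k l) ξ) : HH A K k l r := by
  intro u hu ω hω hw w huw c
  have hinj : Function.Injective ω := by
    rcases hω with rfl | rfl
    · exact std_inj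
    · exact opp_inj
  refine residues_of_Del hp ω (cts w) (fun s => ?_) c
  rw [Del_of_mem hk hg hinj r hu hw w huw s]
  obtain ⟨w0, hw0⟩ : ∃ w0, ξ w0 ≠ 0 := by
    by_contra hcon
    push Not at hcon
    exact h0 (funext hcon)
  have h4 := Del_of_mem hk (good_rat p A k l) std_inj r h1 h2 w0 hw0 s
  rw [h3 w0 hw0] at h4
  rw [h4, Del_zero hinj std_inj]

end

end Pool.PI34.SK

end

/-! ### part SKF -/
section

/-!
PI34, E-block for odd primes, row SKF: odd reflections (one step and chains).
-/

set_option linter.unusedVariables false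

namespace Pool.PI34.SK

open Equiv Finset
open Pool.PI34.Super (Lt odd)

/-- supported on the words with counts `n` (integers) -/
def OnZ {K : Type} [CommRing K] {k l m : ℕ} (n : Lt k l → ℤ) (u : W K k l (Fin m)) : Prop :=
  ∀ w, u w ≠ 0 → ∀ c, (cts w c : ℤ) = n c

/-- `gam` for integer counts -/
def gamZ {k l : ℕ} (ω : Lt k l → ℕ) (n : Lt k l → ℤ) (c : Lt k l) : ℤ :=
  (if odd c then -(n c) else n c) + hgtc ω c

/-- the factor of the pair `q = (x, y)` -/
def fac {k l : ℕ} (ω : Lt k l → ℕ) (n : Lt k l → ℤ) (q : Lt k l × Lt k l) : ℤ :=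
  (if odd q.1 then gamZ ω n q.2 - gamZ ω n q.1 else gamZ ω n q.1 - gamZ ω n q.2) - 1

/-- `x, y` are neighbours of different parity in the order `ω`, and `ω'` is the order after their exchange -/
structure StepOK {k l : ℕ} (ω : Lt k l → ℕ) (q : Lt k l × Lt k l) (ω' : Lt k l → ℕ) : Prop where
  par : odd q.1 ≠ odd q.2
  lt : ω q.1 < ω q.2
  adj : ∀ c, c ≠ q.1 → c ≠ q.2 → ω c < ω q.1 ∨ ω q.2 < ω c
  new : ∀ a b, ω' a < ω' b ↔ (a = q.2 ∧ b = q.1) ∨ (ω a < ω b ∧ ¬ (a = q.1 ∧ b = q.2))

/-- a chain of exchanges -/
def Valid {k l : ℕ} : (Lt k l → ℕ) → List (Lt k l × Lt k l) → (Lt k l → ℕ) → Prop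
  | ω, [], ω' => ∀ a b, ω' a < ω' b → ω a < ω b
  | ω, q :: L, ω' => ∃ ω1, StepOK ω q ω1 ∧ Valid ω1 L ω'

variable {k l m : ℕ}

/-- apply `EE y x` for the pairs `(x, y)` of the list, the first pair acts first -/
def dn {K : Type} [CommRing K] : List (Lt k l × Lt k l) → Module.End K (W K k l (Fin m))
  | [] => 1
  | q :: L => dn L * EE q.2 q.1

/-- apply `EE x y` for the pairs `(x, y)` of the list, the first pair acts last -/
def up {K : Type} [CommRing K] : List (Lt k l × Lt k l) → Module.End K (W K k l (Fin m))
  | [] => 1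
  | q :: L => EE q.1 q.2 * up L

/-- the pairs (even `i`, odd `j`), `j = 0, …, l-1`, for every `j` the `i = k-1, …, 0` -/
def Lstd (k l : ℕ) : List (Lt k l × Lt k l) :=
  (List.finRange l).flatMap fun j => (List.finRange k).reverse.map fun i => (Sum.inl i, Sum.inr j)

/-- the pairs (odd `j`, even `i`), `i = 0, …, k-1`, for every `i` the `j = l-1, …, 0` -/
def Lopp (k l : ℕ) : List (Lt k l × Lt k l) :=
  (List.finRange k).flatMap fun i => (List.finRange l).reverse.map fun j => (Sum.inr j, Sum.inl i)

theorem up_adj {K : Type} [CommRing K] (L : List (Lt k l × Lt k l)) (f g : W K k l (Fin m)) :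
    ip (up L f) g = ip f (dn L g) := by
  induction L generalizing f g with
  | nil => rfl
  | cons q L ih =>
    change ip (EE q.1 q.2 (up L f)) g = ip f (dn L (EE q.2 q.1 g))
    rw [← ih f (EE q.2 q.1 g)]
    exact EB_adj univ q.1 q.2 (up L f) g

/-- the counts change by `a - b` (`cts_update`) -/
theorem EE_onZ {K : Type} [CommRing K] {n : Lt k l → ℤ} {u : W K k l (Fin m)} (hu : OnZ n u)
    (a b : Lt k l) : OnZ (n + Pi.single a 1 - Pi.single b 1) (EE a b u) := by
  classical
  intro w hw c
  rw [EE_apply] at hw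
  obtain ⟨i, _, hi⟩ := Finset.exists_ne_zero_of_sum_ne_zero hw
  by_cases h1 : w i = a
  swap
  · rw [if_neg h1] at hi
    exact absurd rfl hi
  rw [if_pos h1] at hi
  have h2 : u (Function.update w i b) ≠ 0 := fun h => hi (by rw [h, mul_zero])
  have h3 := hu _ h2 c
  by_cases hab : a = b
  · subst hab
    rw [← h1, Function.update_eq_self] at h3
    simp [h3]
  · have h4 := congrFun (cts_update w i a b h1 hab) c
    simp only [Pi.add_apply, Pi.sub_apply, Pi.single_apply] at h4 ⊢
    rw [← h3]
    split_ifs at h4 ⊢ <;> omega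

section step

variable {K : Type} [Field K]

/-- `EE_comm_apply` with `a = c`, `b = d`: `T² = - T²`. -/
theorem EE_sq (h2 : (2 : K) ≠ 0) {a b : Lt k l} (hab : odd a ≠ odd b) (u : W K k l (Fin m)) :
    EE a b (EE a b u) = 0 := by
  have hne : b ≠ a := fun h => hab (by rw [h])
  have h := EE_comm_apply (K := K) a b a b u
  have hd : (dd a b a b : K) = -1 := by
    unfold dd
    rw [if_pos]
    simpa using hab
  rw [hd, if_neg hne, smul_zero, add_zero, sub_zero, neg_smul, one_smul] at h
  have h3 : (2 : K) • EE a b (EE a b u) = 0 := by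
    rw [two_smul]
    nth_rw 1 [h]
    exact neg_add_cancel _
  exact (smul_eq_zero.1 h3).resolve_left h2

/-- `EE_comm_apply x y y x`, `dd x y y x = -1`, `EE_diag`. -/
theorem step_back {ω : Lt k l → ℕ} {q : Lt k l × Lt k l} (hpar : odd q.1 ≠ odd q.2)
    (hlt : ω q.1 < ω q.2) {u : W K k l (Fin m)} (hu : HW ω u) {n : Lt k l → ℤ} (hn : OnZ n u) :
    EE q.1 q.2 (EE q.2 q.1 u) = ((n q.1 + n q.2 : ℤ) : K) • u := by
  have h := EE_comm_apply (K := K) q.1 q.2 q.2 q.1 u
  have hd : (dd q.1 q.2 q.2 q.1 : K) = -1 := by
    unfold dd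
    rw [if_pos]
    have h1 : (odd q.2 ≠ odd q.1) := fun e => hpar e.symm
    simpa using ⟨hpar, h1⟩
  rw [hd, hu q.1 q.2 hlt, if_pos rfl, if_pos rfl, map_zero, smul_zero, zero_add, neg_smul,
    one_smul, sub_neg_eq_add] at h
  rw [h]
  funext w
  rw [Pi.add_apply, EE_diag, EE_diag, Pi.smul_apply, smul_eq_mul]
  by_cases hw : u w = 0
  · rw [hw]
    simp
  · have h1 : ((Pool.PI34.Super.cnt q.1 w : ℕ) : ℤ) = n q.1 := hn w hw q.1
    have h2 : ((Pool.PI34.Super.cnt q.2 w : ℕ) : ℤ) = n q.2 := hn w hw q.2
    rw [← h1, ← h2]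
    push_cast
    ring

/-- For `ω' a < ω' b`: if `(a, b) = (y, x)` use `EE_sq`; otherwise `EE_comm_apply a b y x`: `EE a b u = 0`; if `b = y`
then `ω a < ω x` (`adj`), `EE a x u = 0`; if `a = x` then `ω y < ω b`, `EE y b u = 0`. -/
theorem step_HW (h2 : (2 : K) ≠ 0) {ω ω' : Lt k l → ℕ} {q : Lt k l × Lt k l}
    (h : StepOK ω q ω') {u : W K k l (Fin m)} (hu : HW ω u) : HW ω' (EE q.2 q.1 u) := by
  intro a b hab
  rw [h.new] at hab
  rcases hab with ⟨ha, hb⟩ | ⟨hlt, hn⟩
  · rw [ha, hb]
    exact EE_sq h2 (fun e => h.par e.symm) u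
  · rw [EE_comm_apply, hu a b hlt, map_zero, smul_zero, zero_add]
    have e1 : (if b = q.2 then EE a q.1 u else 0) = 0 := by
      split_ifs with hb
      · have hax : a ≠ q.1 := fun e => hn ⟨e, hb⟩
        have hay : a ≠ q.2 := fun e => by
          rw [hb, e] at hlt
          exact lt_irrefl _ hlt
        rcases h.adj a hax hay with h3 | h3
        · exact hu _ _ h3
        · rw [hb] at hlt
          exact absurd hlt (not_lt.2 h3.le)
      · rfl
    have e2 : (if q.1 = a then EE q.2 b u else 0) = 0 := by
      split_ifs with ha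
      · have hby : b ≠ q.2 := fun e => hn ⟨ha.symm, e⟩
        have hbx : b ≠ q.1 := fun e => by
          rw [← ha, e] at hlt
          exact lt_irrefl _ hlt
        rcases h.adj b hbx hby with h3 | h3
        · rw [← ha] at hlt
          exact absurd hlt (not_lt.2 h3.le)
        · exact hu _ _ h3
      · rfl
    rw [e1, e2, smul_zero, sub_zero]

end step

/-- the sign of a letter in `hgtc` -/
private def sglF (c : Lt k l) : ℤ := if odd c then 1 else -1

private theorem hgtc_step {ω ω' : Lt k l → ℕ} {q : Lt k l × Lt k l} (h : StepOK ω q ω') :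
    hgtc ω q.2 = hgtc ω q.1 + sglF q.1 := by
  have e : hgtc ω q.2 - hgtc ω q.1 = ∑ b, if b = q.1 then sglF b else 0 := by
    unfold hgtc
    rw [← Finset.sum_sub_distrib]
    refine Finset.sum_congr rfl fun b _ => ?_
    by_cases h1 : b = q.1
    · rw [if_pos h1, h1, if_pos h.lt, if_neg (lt_irrefl _), sub_zero]
      rfl
    · rw [if_neg h1]
      by_cases h2 : b = q.2
      · rw [h2, if_neg (lt_irrefl _), if_neg (not_lt.2 h.lt.le), sub_zero]
      · rcases h.adj b h1 h2 with h3 | h3
        · rw [if_pos (h3.trans h.lt), if_pos h3, sub_self]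
        · rw [if_neg (not_lt.2 h3.le), if_neg (not_lt.2 (h.lt.trans h3).le), sub_zero]
  rw [Finset.sum_ite_eq' univ q.1, if_pos (Finset.mem_univ _)] at e
  omega

private theorem hgtc_new {ω ω' : Lt k l → ℕ} {q : Lt k l × Lt k l} (h : StepOK ω q ω')
    (c : Lt k l) : hgtc ω' c = hgtc ω c + (if c = q.1 then sglF q.2 else 0) -
      (if c = q.2 then sglF q.1 else 0) := by
  have hxy : q.1 ≠ q.2 := fun e => h.par (by rw [e])
  have e : hgtc ω' c - hgtc ω c = ∑ b, ((if b = q.2 then (if c = q.1 then sglF b else 0) else 0) -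
      (if b = q.1 then (if c = q.2 then sglF b else 0) else 0)) := by
    unfold hgtc
    rw [← Finset.sum_sub_distrib]
    refine Finset.sum_congr rfl fun b _ => ?_
    have hb := h.new b c
    have hl := h.lt
    by_cases h1 : b = q.2
    · have hb1 : ¬ b = q.1 := fun e => hxy (e.symm.trans h1)
      by_cases h2 : c = q.1
      · have h3 : ω' b < ω' c := hb.2 (Or.inl ⟨h1, h2⟩)
        have h4 : ¬ ω b < ω c := by rw [h1, h2]; exact not_lt.2 hl.le
        rw [if_pos h3, if_neg h4, if_pos h1, if_pos h2, if_neg hb1,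
          sub_zero, sub_zero]
        rfl
      · have h3 : ω' b < ω' c ↔ ω b < ω c := by
          rw [hb]
          constructor
          · rintro (⟨_, h5⟩ | ⟨h5, _⟩)
            · exact absurd h5 h2
            · exact h5
          · exact fun h5 => Or.inr ⟨h5, fun h6 => hxy (h6.1.symm.trans h1)⟩
        rw [if_pos h1, if_neg h2, if_neg hb1]
        by_cases h4 : ω b < ω c
        · rw [if_pos h4, if_pos (h3.2 h4), sub_self, sub_zero]
        · rw [if_neg h4, if_neg (fun h5 => h4 (h3.1 h5))]
    · rw [if_neg h1]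
      by_cases h2 : b = q.1
      · rw [if_pos h2]
        by_cases h5 : c = q.2
        · have h3 : ¬ ω' b < ω' c := by
            rw [hb]
            rintro (⟨h6, _⟩ | ⟨_, h6⟩)
            · exact h1 h6
            · exact h6 ⟨h2, h5⟩
          have h4 : ω b < ω c := by rw [h2, h5]; exact hl
          rw [if_neg h3, if_pos h4, if_pos h5]
          rfl
        · rw [if_neg h5]
          have h3 : ω' b < ω' c ↔ ω b < ω c := by
            rw [hb]
            constructor
            · rintro (⟨h6, _⟩ | ⟨h6, _⟩)
              · exact absurd h6 h1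
              · exact h6
            · exact fun h6 => Or.inr ⟨h6, fun h7 => h5 h7.2⟩
          by_cases h4 : ω b < ω c
          · rw [if_pos h4, if_pos (h3.2 h4), sub_self, sub_zero]
          · rw [if_neg h4, if_neg (fun h6 => h4 (h3.1 h6))]
      · rw [if_neg h2]
        have h3 : ω' b < ω' c ↔ ω b < ω c := by
          rw [hb]
          constructor
          · rintro (⟨h6, _⟩ | ⟨h6, _⟩)
            · exact absurd h6 h1
            · exact h6
          · exact fun h6 => Or.inr ⟨h6, fun h7 => h2 h7.1⟩
        by_cases h4 : ω b < ω c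
        · rw [if_pos h4, if_pos (h3.2 h4), sub_self, sub_zero]
        · rw [if_neg h4, if_neg (fun h6 => h4 (h3.1 h6))]
  rw [Finset.sum_sub_distrib, Finset.sum_ite_eq' univ q.2, Finset.sum_ite_eq' univ q.1,
    if_pos (Finset.mem_univ _), if_pos (Finset.mem_univ _)] at e
  omega

/-- `n x + n y = fac`: the numbers `hgtc` of the neighbours `x, y` differ by `∓ 1`. -/
theorem fac_eq {ω ω' : Lt k l → ℕ} {q : Lt k l × Lt k l} (h : StepOK ω q ω') (n : Lt k l → ℤ) :
    n q.1 + n q.2 = fac ω n q := by
  have h1 := hgtc_step h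
  have h2 := h.par
  unfold fac gamZ
  rw [h1]
  unfold sglF
  rcases Bool.eq_false_or_eq_true (odd q.1) with ho | ho
  · have ho2 : odd q.2 = false := by
      rcases Bool.eq_false_or_eq_true (odd q.2) with h3 | h3
      · exact absurd (ho.trans h3.symm) h2
      · exact h3
    rw [ho, ho2]
    simp only [if_true, Bool.false_eq_true, if_false]
    ring
  · have ho2 : odd q.2 = true := by
      rcases Bool.eq_false_or_eq_true (odd q.2) with h3 | h3
      · exact h3
      · exact absurd (ho.trans h3.symm) h2
    rw [ho, ho2]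
    simp only [if_true, Bool.false_eq_true, if_false]
    ring

/-- `gamZ` does not change in a step: for `c ≠ x, y` the set of smaller letters of `c` is unchanged; for `x` and `y` the
changes of `n` and of `hgtc` cancel. -/
theorem gamZ_step {ω ω' : Lt k l → ℕ} {q : Lt k l × Lt k l} (h : StepOK ω q ω')
    (n : Lt k l → ℤ) (c : Lt k l) :
    gamZ ω' (n + Pi.single q.2 1 - Pi.single q.1 1) c = gamZ ω n c := by
  have hxy : q.1 ≠ q.2 := fun e => h.par (by rw [e])
  have h2 := h.par
  unfold gamZ
  rw [hgtc_new h c]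
  simp only [Pi.add_apply, Pi.sub_apply, Pi.single_apply]
  unfold sglF
  by_cases h1 : c = q.1
  · have h3 : ¬ c = q.2 := fun e => hxy (h1.symm.trans e)
    rw [if_pos h1, if_neg h3, if_neg h3, if_pos h1, h1]
    rcases Bool.eq_false_or_eq_true (odd q.1) with ho | ho
    · have ho2 : odd q.2 = false := by
        rcases Bool.eq_false_or_eq_true (odd q.2) with h3 | h3
        · exact absurd (ho.trans h3.symm) h2
        · exact h3
      rw [ho, ho2]
      simp only [if_true, Bool.false_eq_true, if_false]
      ring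
    · have ho2 : odd q.2 = true := by
        rcases Bool.eq_false_or_eq_true (odd q.2) with h3 | h3
        · exact h3
        · exact absurd (ho.trans h3.symm) h2
      rw [ho, ho2]
      simp only [if_true, Bool.false_eq_true, if_false]
      ring
  · by_cases h3 : c = q.2
    · rw [if_neg h1, if_pos h3, if_pos h3, if_neg h1, h3]
      rcases Bool.eq_false_or_eq_true (odd q.1) with ho | ho
      · have ho2 : odd q.2 = false := by
          rcases Bool.eq_false_or_eq_true (odd q.2) with h3 | h3
          · exact absurd (ho.trans h3.symm) h2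
          · exact h3
        rw [ho, ho2]
        simp only [if_true, Bool.false_eq_true, if_false]
        ring
      · have ho2 : odd q.2 = true := by
          rcases Bool.eq_false_or_eq_true (odd q.2) with h3 | h3
          · exact h3
          · exact absurd (ho.trans h3.symm) h2
        rw [ho, ho2]
        simp only [if_true, Bool.false_eq_true, if_false]
        ring
    · rw [if_neg h1, if_neg h3, if_neg h3, if_neg h1]
      simp only [add_zero, sub_zero]

/-- Induction on `L`: `step_back`, `fac_eq`, `EE_onZ`, `step_HW`, `gamZ_step`. -/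
theorem up_dn {K : Type} [Field K] (h2 : (2 : K) ≠ 0) (L : List (Lt k l × Lt k l))
    {ω ω' : Lt k l → ℕ} (hL : Valid ω L ω') {u : W K k l (Fin m)} (hu : HW ω u)
    {n : Lt k l → ℤ} (hn : OnZ n u) :
    up L (dn L u) = (((L.map (fac ω n)).prod : ℤ) : K) • u ∧ HW ω' (dn L u) := by
  induction L generalizing ω u n with
  | nil =>
    refine ⟨?_, fun a b hab => hu a b (hL a b hab)⟩
    rw [List.map_nil, List.prod_nil, Int.cast_one, one_smul]
    rfl
  | cons q L ih =>
    obtain ⟨ω1, hst, hv⟩ := hL
    have h1 := step_HW h2 hst hu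
    have h3 := EE_onZ hn q.2 q.1
    obtain ⟨ih1, ih2⟩ := ih hv h1 h3
    refine ⟨?_, ih2⟩
    change EE q.1 q.2 (up L (dn L (EE q.2 q.1 u))) = _
    have hf : fac ω1 (n + Pi.single q.2 1 - Pi.single q.1 1) = fac ω n := by
      funext q'
      unfold fac
      rw [gamZ_step hst, gamZ_step hst]
    rw [ih1, map_smul, step_back hst.par hst.lt hu hn, hf, smul_smul, List.map_cons,
      List.prod_cons, ← fac_eq hst n]
    congr 1
    push_cast
    ring

end Pool.PI34.SK

end

/-! ### part SKF3 -/
section

/-!
PI34, E-block for odd primes, row SKF3: properties of the products of all odd operators.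
-/

set_option linter.unusedVariables false

namespace Pool.PI34.SK

open Equiv Finset
open Pool.PI34.Super (Lt odd)

variable {k l m : ℕ}

section aux

theorem F3_up_append {K : Type} [CommRing K] (L M : List (Lt k l × Lt k l)) :
    (up (L ++ M) : Module.End K (W K k l (Fin m))) = up L * up M := by
  induction L with
  | nil => simp [up]
  | cons q L ih => rw [List.cons_append, up, up, ih, mul_assoc]

theorem F3_dn_eq {K : Type} [CommRing K] (L : List (Lt k l × Lt k l)) :
    (dn L : Module.End K (W K k l (Fin m))) = up (L.map Prod.swap).reverse := by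
  induction L with
  | nil => simp [up, dn]
  | cons q L ih =>
    rw [dn, ih, List.map_cons, List.reverse_cons, F3_up_append]
    simp [up]

variable {K : Type} [Field K]

/-- two odd operators of the same type anticommute -/
theorem F3_anti {s : Bool} {a b c d : Lt k l} (ha : odd a = s) (hb : odd b = !s)
    (hc : odd c = s) (hd : odd d = !s) (v : W K k l (Fin m)) :
    EE a b (EE c d v) = - EE c d (EE a b v) := by
  have h1 : b ≠ c := by
    intro e; rw [e, hc] at hb; cases s <;> simp at hb
  have h2 : d ≠ a := by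
    intro e; rw [e, ha] at hd; cases s <;> simp at hd
  rw [EE_comm_apply, if_neg h1, if_neg h2]
  have h3 : (dd a b c d : K) = -1 := by
    unfold dd
    rw [ha, hb, hc, hd]
    cases s <;> simp
  rw [h3]
  simp

theorem F3_kill (h2 : (2 : K) ≠ 0) {s : Bool} (L : List (Lt k l × Lt k l))
    (hL : ∀ q ∈ L, odd q.1 = s ∧ odd q.2 = !s) {a b : Lt k l} (hab : (a, b) ∈ L)
    (u : W K k l (Fin m)) : EE a b (up L u) = 0 := by
  induction L with
  | nil => simp at hab
  | cons q L ih =>
    have hq := hL q (by simp)
    have hL' : ∀ q ∈ L, odd q.1 = s ∧ odd q.2 = !s := fun p hp => hL p (by simp [hp])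
    have hab1 := hL _ hab
    simp only at hab1
    show EE a b (EE q.1 q.2 (up L u)) = 0
    rcases List.mem_cons.1 hab with h | h
    · subst h
      apply EE_sq h2
      rw [hab1.1, hab1.2]
      cases s <;> simp
    · rw [F3_anti hab1.1 hab1.2 hq.1 hq.2, ih hL' h]
      simp

theorem F3_sgn {s : Bool} (L : List (Lt k l × Lt k l))
    (hL : ∀ q ∈ L, odd q.1 = s ∧ odd q.2 = !s) {a b : Lt k l} (ha : odd a = s) (hb : odd b = !s) :
    ∃ ε : K, ∀ v : W K k l (Fin m), up L (EE a b v) = ε • EE a b (up L v) := by
  induction L with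
  | nil => exact ⟨1, fun v => by simp [up]⟩
  | cons q L ih =>
    have hq := hL q (by simp)
    have hL' : ∀ q ∈ L, odd q.1 = s ∧ odd q.2 = !s := fun p hp => hL p (by simp [hp])
    obtain ⟨ε, hε⟩ := ih hL'
    refine ⟨-ε, fun v => ?_⟩
    show EE q.1 q.2 (up L (EE a b v)) = -ε • EE a b (EE q.1 q.2 (up L v))
    rw [hε, map_smul, F3_anti hq.1 hq.2 ha hb]
    simp

theorem F3_kill' (h2 : (2 : K) ≠ 0) {s : Bool} (L : List (Lt k l × Lt k l))
    (hL : ∀ q ∈ L, odd q.1 = s ∧ odd q.2 = !s) {a b : Lt k l} (hab : (a, b) ∈ L)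
    (u : W K k l (Fin m)) : up L (EE a b u) = 0 := by
  obtain ⟨ε, hε⟩ := F3_sgn (K := K) (m := m) L hL (hL _ hab).1 (hL _ hab).2
  rw [hε, F3_kill h2 L hL hab, smul_zero]

theorem F3_corr (h2 : (2 : K) ≠ 0) {s : Bool} (L1 L2 : List (Lt k l × Lt k l))
    (hL : ∀ q ∈ L1 ++ L2, odd q.1 = s ∧ odd q.2 = !s) {a b : Lt k l} (hab : (a, b) ∈ L1 ++ L2)
    (u : W K k l (Fin m)) : up L1 (EE a b (up L2 u)) = 0 := by
  rcases List.mem_append.1 hab with h | h
  · exact F3_kill' h2 L1 (fun q hq => hL q (List.mem_append_left _ hq)) h _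
  · rw [F3_kill h2 L2 (fun q hq => hL q (List.mem_append_right _ hq)) h, map_zero]

theorem F3_comm (h2 : (2 : K) ≠ 0) {s : Bool} {L : List (Lt k l × Lt k l)}
    (hL : ∀ q, q ∈ L ↔ (odd q.1 = s ∧ odd q.2 = !s)) {a b : Lt k l} (hab : odd a = odd b)
    (hne : a ≠ b) (u : W K k l (Fin m)) (L2 : List (Lt k l × Lt k l)) :
    ∀ L1, L = L1 ++ L2 → up L1 (EE a b (up L2 u)) = up L (EE a b u) := by
  induction L2 with
  | nil =>
    intro L1 h
    rw [List.append_nil] at h
    subst h
    simp [up]
  | cons q L2 ih =>
    intro L1 h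
    have hsub : ∀ p ∈ L1 ++ L2, odd p.1 = s ∧ odd p.2 = !s := by
      intro p hp
      rw [← hL, h]
      rcases List.mem_append.1 hp with hp | hp
      · exact List.mem_append_left _ hp
      · exact List.mem_append_right _ (List.mem_cons_of_mem _ hp)
    have hmem : ∀ p : Lt k l × Lt k l, p ≠ q → odd p.1 = s → odd p.2 = (!s) → p ∈ L1 ++ L2 := by
      intro p hp h3 h4
      have h5 : p ∈ L := (hL p).2 ⟨h3, h4⟩
      rw [h] at h5
      rcases List.mem_append.1 h5 with h5 | h5
      · exact List.mem_append_left _ h5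
      · rcases List.mem_cons.1 h5 with h5 | h5
        · exact absurd h5 hp
        · exact List.mem_append_right _ h5
    have hq : odd q.1 = s ∧ odd q.2 = !s := (hL q).1 (by rw [h]; simp)
    have h6 := ih (L1 ++ [q]) (by rw [h]; simp)
    rw [F3_up_append] at h6
    have h7 : up L1 (EE q.1 q.2 (EE a b (up L2 u))) = up L (EE a b u) := by
      rw [← h6]; simp [up]
    show up L1 (EE a b (EE q.1 q.2 (up L2 u))) = up L (EE a b u)
    have hdd : (dd a b q.1 q.2 : K) = 1 := by
      unfold dd; rw [hab]; simp
    rw [EE_comm_apply, hdd, one_smul, one_smul, map_sub, map_add, h7]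
    have e1 : up L1 (if b = q.1 then EE a q.2 (up L2 u) else 0) = 0 := by
      split_ifs with hb
      · apply F3_corr h2 L1 L2 hsub
        apply hmem
        · intro e
          apply hne
          have : a = q.1 := congrArg Prod.fst e
          rw [this, hb]
        · show odd a = s
          rw [hab, hb]; exact hq.1
        · exact hq.2
      · exact map_zero _
    have e2 : up L1 (if q.2 = a then EE q.1 b (up L2 u) else 0) = 0 := by
      split_ifs with hb
      · apply F3_corr h2 L1 L2 hsub
        apply hmem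
        · intro e
          apply hne
          have : b = q.2 := congrArg Prod.snd e
          rw [this, hb]
        · exact hq.1
        · show odd b = !s
          rw [← hab, ← hb]; exact hq.2
      · exact map_zero _
    rw [e1, e2, add_zero, sub_zero]

theorem F3_mem_std (q : Lt k l × Lt k l) :
    q ∈ Lstd k l ↔ (odd q.1 = false ∧ odd q.2 = !false) := by
  obtain ⟨a, b⟩ := q
  unfold Lstd
  rcases a with i | j <;> rcases b with i' | j' <;> simp [odd]

theorem F3_mem_opp (q : Lt k l × Lt k l) :
    q ∈ Lopp k l ↔ (odd q.1 = true ∧ odd q.2 = !true) := by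
  obtain ⟨a, b⟩ := q
  unfold Lopp
  rcases a with i | j <;> rcases b with i' | j' <;> simp [odd]

theorem F3_mem_dn (q : Lt k l × Lt k l) :
    q ∈ ((Lstd k l).map Prod.swap).reverse ↔ (odd q.1 = true ∧ odd q.2 = !true) := by
  rw [List.mem_reverse, List.mem_map]
  constructor
  · rintro ⟨p, hp, rfl⟩
    have := (F3_mem_std p).1 hp
    exact ⟨this.2, this.1⟩
  · intro h
    exact ⟨q.swap, (F3_mem_std _).2 ⟨h.2, h.1⟩, Prod.swap_swap q⟩

end aux

section kill

variable {K : Type} [Field K]

/-- the operators `EE (inl _) (inr _)` anticommute and have square `0` (`EE_comm_apply`, `EE_sq`) -/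
theorem up_std_kill (h2 : (2 : K) ≠ 0) (i : Fin k) (j : Fin l) (u : W K k l (Fin m)) :
    EE (Sum.inl i) (Sum.inr j) (up (Lstd k l) u) = 0 :=
  F3_kill h2 _ (fun q hq => (F3_mem_std q).1 hq) ((F3_mem_std _).2 ⟨rfl, rfl⟩) u

theorem up_opp_kill (h2 : (2 : K) ≠ 0) (i : Fin k) (j : Fin l) (u : W K k l (Fin m)) :
    EE (Sum.inr j) (Sum.inl i) (up (Lopp k l) u) = 0 :=
  F3_kill h2 _ (fun q hq => (F3_mem_opp q).1 hq) ((F3_mem_opp _).2 ⟨rfl, rfl⟩) u

/-- `dn Lstd` is the product of all `EE (inr j) (inl i)` -/
theorem dn_std_kill (h2 : (2 : K) ≠ 0) (i : Fin k) (j : Fin l) (u : W K k l (Fin m)) :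
    EE (Sum.inr j) (Sum.inl i) (dn (Lstd k l) u) = 0 := by
  rw [F3_dn_eq]
  exact F3_kill h2 _ (fun q hq => (F3_mem_dn q).1 hq) ((F3_mem_dn _).2 ⟨rfl, rfl⟩) u

/-- `EE a b` with `a ≠ b` of the same parity commutes with `up Lstd` and with `dn Lstd`: the commutator with one factor is a
factor that occurs already (and factors anticommute with square zero). -/
theorem up_std_comm (h2 : (2 : K) ≠ 0) {a b : Lt k l} (hab : odd a = odd b) (hne : a ≠ b)
    (u : W K k l (Fin m)) : EE a b (up (Lstd k l) u) = up (Lstd k l) (EE a b u) := by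
  have h := F3_comm h2 (F3_mem_std (k := k) (l := l)) hab hne u (Lstd k l) [] rfl
  rw [← h]
  simp [up]

theorem dn_std_comm (h2 : (2 : K) ≠ 0) {a b : Lt k l} (hab : odd a = odd b) (hne : a ≠ b)
    (u : W K k l (Fin m)) : EE a b (dn (Lstd k l) u) = dn (Lstd k l) (EE a b u) := by
  rw [F3_dn_eq]
  have h := F3_comm h2 (F3_mem_dn (k := k) (l := l)) hab hne u
    (((Lstd k l).map Prod.swap).reverse) [] rfl
  rw [← h]
  simp [up]

end kill

theorem up_act {A K : Type} [CommRing A] [CommRing K] [Algebra A K]
    (y : MonoidAlgebra A (Perm (Fin m))) (L : List (Lt k l × Lt k l)) (u : W K k l (Fin m)) :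
    act A K k l _ y (up L u) = up L (act A K k l _ y u) := by
  induction L with
  | nil => simp [up]
  | cons q L ih =>
    show act A K k l _ y (EE q.1 q.2 (up L u)) = EE q.1 q.2 (up L (act A K k l _ y u))
    rw [← ih]
    exact LinearMap.congr_fun (act_EE y q.1 q.2) (up L u)

theorem dn_act {A K : Type} [CommRing A] [CommRing K] [Algebra A K]
    (y : MonoidAlgebra A (Perm (Fin m))) (L : List (Lt k l × Lt k l)) (u : W K k l (Fin m)) :
    act A K k l _ y (dn L u) = dn L (act A K k l _ y u) := by
  rw [F3_dn_eq]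
  exact up_act y _ u

theorem F3_onZ_up {K : Type} [CommRing K] (L : List (Lt k l × Lt k l)) {n : Lt k l → ℤ}
    {u : W K k l (Fin m)} (hu : OnZ n u) :
    OnZ (n + (L.map fun q => Pi.single q.1 (1 : ℤ) - Pi.single q.2 1).sum) (up L u) := by
  induction L with
  | nil => simpa [up] using hu
  | cons q L ih =>
    have h := EE_onZ ih q.1 q.2
    rw [List.map_cons, List.sum_cons]
    have e : n + (Pi.single q.1 (1 : ℤ) - Pi.single q.2 1 +
        (L.map fun q => Pi.single q.1 (1 : ℤ) - Pi.single q.2 1).sum)
        = n + (L.map fun q => Pi.single q.1 (1 : ℤ) - Pi.single q.2 1).sum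
          + Pi.single q.1 1 - Pi.single q.2 1 := by abel
    rw [e]
    exact h

theorem F3_sum_std :
    ((Lstd k l).map fun q => (Pi.single q.1 (1 : ℤ) - Pi.single q.2 1 : Lt k l → ℤ)).sum
      = Sum.elim (fun _ => (l : ℤ)) (fun _ => -(k : ℤ)) := by
  unfold Lstd
  rw [List.map_flatMap, List.flatMap_def, List.sum_flatten, List.map_map]
  have e1 : ∀ j : Fin l, (List.sum ∘ fun j : Fin l => List.map
      (fun q => (Pi.single q.1 (1 : ℤ) - Pi.single q.2 1 : Lt k l → ℤ))
      (List.map (fun i => ((Sum.inl i : Lt k l), (Sum.inr j : Lt k l)))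
        (List.finRange k).reverse)) j
      = ∑ i : Fin k, (Pi.single (Sum.inl i) (1 : ℤ) - Pi.single (Sum.inr j) 1 : Lt k l → ℤ) := by
    intro j
    rw [Fin.sum_univ_def]
    simp only [Function.comp, List.map_map, List.map_reverse, List.sum_reverse]
    rfl
  rw [List.map_congr_left (fun j _ => e1 j), ← Fin.sum_univ_def]
  funext c
  rcases c with i | j
  · simp [Finset.sum_apply, Pi.single_apply]
  · simp [Finset.sum_apply, Pi.single_apply]

/-- the counts after `dn Lstd` and after `up Lstd` -/
theorem onZ_dn_std {K : Type} [CommRing K] {n : Lt k l → ℤ} {u : W K k l (Fin m)}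
    (hu : OnZ n u) : OnZ (n + Sum.elim (fun _ => -(l : ℤ)) (fun _ => (k : ℤ))) (dn (Lstd k l) u) := by
  have h := F3_onZ_up ((Lstd k l).map Prod.swap).reverse hu
  rw [List.map_reverse, List.sum_reverse, List.map_map] at h
  have e : ((Lstd k l).map ((fun q => (Pi.single q.1 (1 : ℤ) - Pi.single q.2 1 : Lt k l → ℤ))
      ∘ Prod.swap)).sum = Sum.elim (fun _ => -(l : ℤ)) (fun _ => (k : ℤ)) := by
    have e2 : ∀ q : Lt k l × Lt k l, ((fun q => (Pi.single q.1 (1 : ℤ) - Pi.single q.2 1 :
        Lt k l → ℤ)) ∘ Prod.swap) q = - (Pi.single q.1 (1 : ℤ) - Pi.single q.2 1) := by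
      intro q
      show (Pi.single q.2 (1 : ℤ) - Pi.single q.1 1 : Lt k l → ℤ) = _
      rw [neg_sub]
    rw [List.map_congr_left (fun q _ => e2 q)]
    have e3 : ∀ L : List (Lt k l × Lt k l),
        (L.map fun q => -(Pi.single q.1 (1 : ℤ) - Pi.single q.2 1 : Lt k l → ℤ)).sum
        = - (L.map fun q => (Pi.single q.1 (1 : ℤ) - Pi.single q.2 1 : Lt k l → ℤ)).sum := by
      intro L
      induction L with
      | nil => simp
      | cons q L ih => rw [List.map_cons, List.sum_cons, List.map_cons, List.sum_cons, ih]; abel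
    rw [e3, F3_sum_std]
    funext c
    rcases c with i | j <;> simp
  rw [e] at h
  rw [F3_dn_eq]
  exact h

theorem onZ_up_std {K : Type} [CommRing K] {n : Lt k l → ℤ} {u : W K k l (Fin m)}
    (hu : OnZ n u) : OnZ (n + Sum.elim (fun _ => (l : ℤ)) (fun _ => -(k : ℤ))) (up (Lstd k l) u) := by
  have h := F3_onZ_up (Lstd k l) hu
  rw [F3_sum_std] at h
  exact h

end Pool.PI34.SK

end

/-! ### part SKF2 -/
section

/-!
PI34, E-block for odd primes, row SKF2: the chains `Lstd` and `Lopp` are valid.
-/

set_option linter.unusedVariables false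

namespace Pool.PI34.SK

open Equiv Finset
open Pool.PI34.Super (Lt odd)

variable {k l m : ℕ}

/-- the stages for `Lstd` -/
def om (k l i j : ℕ) : Lt k l → ℕ :=
  Sum.elim (fun x => if x.val < i then j + x.val else j + 1 + x.val)
    (fun y => if y.val < j then y.val else if y.val = j then j + i else k + y.val)

/-- the stages for `Lopp` -/
def om' (k l j i : ℕ) : Lt k l → ℕ :=
  Sum.elim (fun x => if x.val < i then x.val else if x.val = i then i + j else l + x.val)
    (fun y => if y.val < j then i + y.val else i + 1 + y.val)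

/-- chains with an exact end -/
def Ch {k l : ℕ} : (Lt k l → ℕ) → List (Lt k l × Lt k l) → (Lt k l → ℕ) → Prop
  | ω, [], ω' => ω = ω'
  | ω, q :: L, ω' => ∃ ω1, StepOK ω q ω1 ∧ Ch ω1 L ω'

theorem Ch.valid {L : List (Lt k l × Lt k l)} : ∀ {ω ω' : Lt k l → ℕ}, Ch ω L ω' →
    Valid ω L ω' := by
  induction L with
  | nil => intro ω ω' h a b hab; rw [show ω = ω' from h]; exact hab
  | cons q L ih =>
    rintro ω ω' ⟨ω1, h1, h2⟩
    exact ⟨ω1, h1, ih h2⟩

theorem Ch.append {L L' : List (Lt k l × Lt k l)} : ∀ {ω ω1 ω2 : Lt k l → ℕ}, Ch ω L ω1 →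
    Ch ω1 L' ω2 → Ch ω (L ++ L') ω2 := by
  induction L with
  | nil => intro ω ω1 ω2 h h'; rw [List.nil_append, show ω = ω1 from h]; exact h'
  | cons q L ih =>
    rintro ω ω1 ω2 ⟨ω3, h1, h2⟩ h'
    exact ⟨ω3, h1, ih h2 h'⟩

theorem step_om (i : Fin k) (j : Fin l) :
    StepOK (om k l (i.val + 1) j.val) (Sum.inl i, Sum.inr j) (om k l i.val j.val) where
  par := by simp [odd]
  lt := by simp [om]
  adj := by
    rintro (x | y) h1 h2
    · have hx : x.val ≠ i.val := fun e => h1 (congrArg Sum.inl (Fin.ext e))
      simp only [om, Sum.elim_inl, Sum.elim_inr]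
      have := x.2
      split_ifs <;> omega
    · have hy : y.val ≠ j.val := fun e => h2 (congrArg Sum.inr (Fin.ext e))
      simp only [om, Sum.elim_inl, Sum.elim_inr]
      have := i.2
      split_ifs <;> omega
  new := by
    rintro (x | y) (x' | y')
    · simp only [om, Sum.elim_inl, Sum.elim_inr, reduceCtorEq, false_and, false_or, and_false,
        not_false_eq_true, and_true]
      split_ifs <;> omega
    · simp only [om, Sum.elim_inl, Sum.elim_inr, reduceCtorEq, false_and, false_or,
        Sum.inl.injEq, Sum.inr.injEq, Fin.ext_iff]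
      have := x.2
      split_ifs <;> omega
    · simp only [om, Sum.elim_inl, Sum.elim_inr, reduceCtorEq, false_and, not_false_eq_true,
        and_true, Sum.inl.injEq, Sum.inr.injEq, Fin.ext_iff]
      have := x'.2
      split_ifs <;> omega
    · simp only [om, Sum.elim_inl, Sum.elim_inr, reduceCtorEq, false_and, false_or, and_false,
        not_false_eq_true, and_true]
      have := i.2
      split_ifs <;> omega

theorem step_om' (i : Fin k) (j : Fin l) :
    StepOK (om' k l (j.val + 1) i.val) (Sum.inr j, Sum.inl i) (om' k l j.val i.val) where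
  par := by simp [odd]
  lt := by simp [om']
  adj := by
    rintro (x | y) h1 h2
    · have hx : x.val ≠ i.val := fun e => h2 (congrArg Sum.inl (Fin.ext e))
      simp only [om', Sum.elim_inl, Sum.elim_inr]
      have := j.2
      split_ifs <;> omega
    · have hy : y.val ≠ j.val := fun e => h1 (congrArg Sum.inr (Fin.ext e))
      simp only [om', Sum.elim_inl, Sum.elim_inr]
      have := y.2
      split_ifs <;> omega
  new := by
    rintro (x | y) (x' | y')
    · simp only [om', Sum.elim_inl, Sum.elim_inr, reduceCtorEq, false_and, false_or, and_false,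
        not_false_eq_true, and_true]
      have := j.2
      split_ifs <;> omega
    · simp only [om', Sum.elim_inl, Sum.elim_inr, reduceCtorEq, false_and, not_false_eq_true,
        and_true, Sum.inl.injEq, Sum.inr.injEq, Fin.ext_iff]
      have := y'.2
      split_ifs <;> omega
    · simp only [om', Sum.elim_inl, Sum.elim_inr, reduceCtorEq, false_and, false_or,
        Sum.inl.injEq, Sum.inr.injEq, Fin.ext_iff]
      have := y.2
      split_ifs <;> omega
    · simp only [om', Sum.elim_inl, Sum.elim_inr, reduceCtorEq, false_and, false_or, and_false,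
        not_false_eq_true, and_true]
      split_ifs <;> omega

theorem ch_inner (j : Fin l) : ∀ (i : ℕ) (hi : i ≤ k),
    Ch (om k l i j.val) (((List.finRange i).map (Fin.castLE hi)).reverse.map
      fun x => ((Sum.inl x, Sum.inr j) : Lt k l × Lt k l)) (om k l 0 j.val) := by
  intro i
  induction i with
  | zero => intro hi; exact rfl
  | succ i ih =>
    intro hi
    rw [List.finRange_succ_last, List.map_append, List.reverse_append, List.map_append,
      List.map_singleton, List.reverse_singleton, List.map_singleton, List.singleton_append,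
      List.map_map]
    exact ⟨om k l i j.val, step_om (Fin.castLE hi (Fin.last i)) j, ih (by omega)⟩

theorem ch_inner' (i : Fin k) : ∀ (j : ℕ) (hj : j ≤ l),
    Ch (om' k l j i.val) (((List.finRange j).map (Fin.castLE hj)).reverse.map
      fun y => ((Sum.inr y, Sum.inl i) : Lt k l × Lt k l)) (om' k l 0 i.val) := by
  intro j
  induction j with
  | zero => intro hj; exact rfl
  | succ j ih =>
    intro hj
    rw [List.finRange_succ_last, List.map_append, List.reverse_append, List.map_append,
      List.map_singleton, List.reverse_singleton, List.map_singleton, List.singleton_append,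
      List.map_map]
    exact ⟨om' k l j i.val, step_om' i (Fin.castLE hj (Fin.last j)), ih (by omega)⟩

theorem om_next (k l j : ℕ) : om k l 0 j = om k l k (j + 1) := by
  funext c
  rcases c with x | y
  · simp only [om, Sum.elim_inl]
    have := x.2
    split_ifs <;> omega
  · simp only [om, Sum.elim_inr]
    split_ifs <;> omega

theorem om'_next (k l i : ℕ) : om' k l 0 i = om' k l l (i + 1) := by
  funext c
  rcases c with x | y
  · simp only [om', Sum.elim_inl]
    split_ifs <;> omega
  · simp only [om', Sum.elim_inr]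
    have := y.2
    split_ifs <;> omega

theorem map_castLE_self (n : ℕ) (h : n ≤ n) :
    (List.finRange n).map (Fin.castLE h) = List.finRange n := by
  conv_rhs => rw [← List.map_id (List.finRange n)]
  rfl

theorem ch_outer (k l : ℕ) : ∀ (j : ℕ) (hj : j ≤ l),
    Ch (om k l k 0) (((List.finRange j).map (Fin.castLE hj)).flatMap fun y =>
      (List.finRange k).reverse.map fun x => ((Sum.inl x, Sum.inr y) : Lt k l × Lt k l))
      (om k l k j) := by
  intro j
  induction j with
  | zero => intro hj; exact rfl
  | succ j ih =>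
    intro hj
    rw [List.finRange_succ_last, List.map_append, List.flatMap_append, List.map_map,
      List.map_singleton, List.flatMap_singleton]
    have h := ch_inner (k := k) (Fin.castLE hj (Fin.last j)) k le_rfl
    rw [map_castLE_self] at h
    refine Ch.append (ih (by omega)) ?_
    rw [← om_next]
    exact h

theorem ch_outer' (k l : ℕ) : ∀ (i : ℕ) (hi : i ≤ k),
    Ch (om' k l l 0) (((List.finRange i).map (Fin.castLE hi)).flatMap fun x =>
      (List.finRange l).reverse.map fun y => ((Sum.inr y, Sum.inl x) : Lt k l × Lt k l))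
      (om' k l l i) := by
  intro i
  induction i with
  | zero => intro hi; exact rfl
  | succ i ih =>
    intro hi
    rw [List.finRange_succ_last, List.map_append, List.flatMap_append, List.map_map,
      List.map_singleton, List.flatMap_singleton]
    have h := ch_inner' (l := l) (Fin.castLE hi (Fin.last i)) l le_rfl
    rw [map_castLE_self] at h
    refine Ch.append (ih (by omega)) ?_
    rw [← om'_next]
    exact h

/-- The stages: `om i j` = odd letters `< j`, then the even letters `< i`, the odd letter `j`, the even letters `≥ i`, the odd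
letters `> j`:  even `x ↦ if x < i then j + x else j + 1 + x`, odd `y ↦ if y < j then y else if y = j then j + i
else k + y`.  `StepOK (om (i+1) j) (inl i, inr j) (om i j)`; `om k 0` has the order of `std`, `om 0 j` the order
of `om k (j+1)`, `om 0 (l-1)` the order of `opp`.  (Prove by induction over suffixes of the lists.) -/
theorem valid_std (k l : ℕ) : Valid (std : Lt k l → ℕ) (Lstd k l) opp := by
  have h := (ch_outer k l l le_rfl).valid
  rw [map_castLE_self] at h
  have h1 : om k l k 0 = std := by
    funext c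
    rcases c with x | y
    · simp only [om, std, Sum.elim_inl]
      have := x.2
      split_ifs
      omega
    · simp only [om, std, Sum.elim_inr]
      split_ifs <;> omega
  have h2 : om k l k l = opp := by
    funext c
    rcases c with x | y
    · simp only [om, opp, Sum.elim_inl]
      have := x.2
      split_ifs
      omega
    · simp only [om, opp, Sum.elim_inr]
      have := y.2
      split_ifs
      omega
  rw [h1, h2] at h
  exact h

/-- the same with the roles of even and odd letters exchanged -/
theorem valid_opp (k l : ℕ) : Valid (opp : Lt k l → ℕ) (Lopp k l) std := by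
  have h := (ch_outer' k l k le_rfl).valid
  rw [map_castLE_self] at h
  have h1 : om' k l l 0 = opp := by
    funext c
    rcases c with x | y
    · simp only [om', opp, Sum.elim_inl]
      split_ifs <;> omega
    · simp only [om', opp, Sum.elim_inr]
      have := y.2
      split_ifs
      omega
  have h2 : om' k l l k = std := by
    funext c
    rcases c with x | y
    · simp only [om', std, Sum.elim_inl]
      have := x.2
      split_ifs
      omega
    · simp only [om', std, Sum.elim_inr]
      have := y.2
      split_ifs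
      omega
  rw [h1, h2] at h
  exact h

end Pool.PI34.SK

end
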