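import Pool.Agent.LibPI54.M05
import Pool.Agent.LibPI54.M06

/-! ### part SKK -/
section

/-!
PI34, E-block for odd primes, row SKK: vectors over `ℚ` killed by the `E_ab` with `a < b` of the same parity.
-/

set_option linter.unusedVariables false

namespace Pool.PI34.SK

open Equiv Finset
open Pool.PI34.Super (Lt odd)

variable {k l : ℕ}

/-- killed by the `E_ab` with `a < b` of the same parity -/
def HW0 {m : ℕ} (u : W ℚ k l (Fin m)) : Prop :=
  ∀ a b : Lt k l, odd a = odd b → std a < std b → EE a b u = 0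

/-- there is a nonzero vector of weight `n` of this kind -/
def HWex (n : Lt k l → ℕ) : Prop := ∃ (m : ℕ) (u : W ℚ k l (Fin m)), u ≠ 0 ∧ On n u ∧ HW0 u

/-- `m = 0`, `u = 1` -/
theorem HWex_zero : HWex (0 : Lt k l → ℕ) := by
  refine ⟨0, fun _ => 1, ?_, ?_, ?_⟩
  · intro h
    have := congrFun h (fun i => i.elim0)
    simp at this
  · intro w _
    funext c
    simp [cts, Pool.PI34.Super.cnt]
  · intro a b _ _
    funext w
    rw [EE_apply]
    simp

theorem cts_append {m m' : ℕ} (w : Fin (m + m') → Lt k l) :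
    cts w = cts (w ∘ Fin.castAdd m') + cts (w ∘ Fin.natAdd m) := by
  funext c
  simp only [cts, Pool.PI34.Super.cnt, Pi.add_apply, Finset.card_filter, Function.comp_apply]
  rw [Fin.sum_univ_add]

/-- `tens`, `EE_tens`, `sg_same` -/
theorem HWex_add {n n' : Lt k l → ℕ} (h : HWex n) (h' : HWex n') : HWex (n + n') := by
  obtain ⟨m, u, hu, hon, hw⟩ := h
  obtain ⟨m', u', hu', hon', hw'⟩ := h'
  refine ⟨m + m', tens u u', ?_, ?_, ?_⟩
  · intro h0
    obtain ⟨w, hw1⟩ := Function.ne_iff.1 hu
    obtain ⟨w', hw2⟩ := Function.ne_iff.1 hu'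
    have h1 := congrFun h0 (Fin.append w w')
    rw [tens_apply] at h1
    have e1 : (Fin.append w w') ∘ Fin.castAdd m' = w := by
      funext i; simp [Fin.append_left]
    have e2 : (Fin.append w w') ∘ Fin.natAdd m = w' := by
      funext i; simp [Fin.append_right]
    rw [e1, e2] at h1
    rcases mul_eq_zero.1 h1 with h2 | h2
    · exact hw1 h2
    · exact hw2 h2
  · intro w hne
    rw [tens_apply] at hne
    rw [cts_append w, hon _ (left_ne_zero_of_mul hne), hon' _ (right_ne_zero_of_mul hne)]
  · intro a b hab hlt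
    rw [EE_tens, hw a b hab hlt, sg_same a b hab, hw' a b hab hlt, tens_zero_left,
      tens_zero_right, add_zero]

theorem HWex_nsmul {n : Lt k l → ℕ} (h : HWex n) (q : ℕ) : HWex (q • n) := by
  induction q with
  | zero => rw [zero_smul]; exact HWex_zero
  | succ q ih => rw [succ_nsmul]; exact HWex_add ih h

theorem HWex_sum {α : Type*} (s : Finset α) {n : α → Lt k l → ℕ} (h : ∀ i ∈ s, HWex (n i)) :
    HWex (∑ i ∈ s, n i) := by
  classical
  induction s using Finset.induction_on with
  | empty => rw [Finset.sum_empty]; exact HWex_zero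
  | insert a s ha ih =>
    rw [Finset.sum_insert ha]
    exact HWex_add (h a (Finset.mem_insert_self _ _))
      (ih (fun i hi => h i (Finset.mem_insert_of_mem hi)))

/-- Let `L : Fin h → Lt k l` be injective, of one parity, and such that every letter `a` with `std a < std (L j)` and the parity of the
`L j` is an `L i`.  `u w := det (fun i j => if w i = L j then 1 else 0)`.  PROOF.  `u L = 1`.  If `u w ≠ 0` some
permutation product is `≠ 0`, so `w ∘ σ = L` (`cts_perm`), and `cts L` is the indicator.  `EE a b u w = ∑_{s, w s = a}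
u (update w s b)` (`eta = 1` for the same parity).  If `b` is not an `L j` the updated matrix has a zero row.  If `b = L jb`
and `std a < std b` then `a = L ja`, `ja ≠ jb`; the updated matrix is `updateRow s (Pi.single jb 1)`, whose determinant
is `adjugate jb s` (`Matrix.adjugate_apply`), the sum is `cramer M v jb` with `v s = if w s = a then 1 else 0` = column `ja`
of `M` (`Matrix.cramer_eq_adjugate_mulVec`, `Matrix.cramer_apply`), a determinant with two equal columns. -/
theorem HWex_det {h : ℕ} (L : Fin h → Lt k l) (hL : Function.Injective L)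
    (hpar : ∀ i j, odd (L i) = odd (L j))
    (hini : ∀ (j : Fin h) (a : Lt k l), odd a = odd (L j) → std a < std (L j) → ∃ i, L i = a) :
    HWex (fun c => if ∃ j, L j = c then 1 else 0 : Lt k l → ℕ) := by
  classical
  set M : (Fin h → Lt k l) → Matrix (Fin h) (Fin h) ℚ :=
    fun w => Matrix.of fun i j => if w i = L j then 1 else 0 with hM
  refine ⟨h, fun w => (M w).det, ?_, ?_, ?_⟩
  · intro h0
    have h1 := congrFun h0 L
    have h2 : M L = 1 := by
      ext i j
      simp only [hM, Matrix.of_apply, Matrix.one_apply, hL.eq_iff]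
    simp only [h2, Matrix.det_one, Pi.zero_apply] at h1
    exact one_ne_zero h1
  · intro w hw
    have hw' : (M w).det ≠ 0 := hw
    rw [Matrix.det_apply'] at hw'
    obtain ⟨σ, _, hσ⟩ := Finset.exists_ne_zero_of_sum_ne_zero hw'
    have hσ1 := right_ne_zero_of_mul hσ
    have hσ2 : w ∘ σ = L := by
      funext i
      have h3 := (Finset.prod_ne_zero_iff.1 hσ1) i (Finset.mem_univ i)
      simp only [hM, Matrix.of_apply, ne_eq, ite_eq_right_iff, one_ne_zero, imp_false,
        not_not] at h3
      exact h3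
    rw [← cts_perm σ w, hσ2]
    funext c
    simp only [cts, Pool.PI34.Super.cnt]
    split_ifs with hc
    · obtain ⟨j, rfl⟩ := hc
      rw [Finset.card_eq_one]
      refine ⟨j, ?_⟩
      ext i
      simp [hL.eq_iff]
    · rw [Finset.card_eq_zero, Finset.filter_eq_empty_iff]
      intro i _ hi
      exact hc ⟨i, hi⟩
  · intro a b hab hlt
    funext w
    rw [EE_apply, Pi.zero_apply]
    have hne : a ≠ b := fun e => by rw [e] at hlt; exact lt_irrefl _ hlt
    have hb1 : ∀ s, (bsg a b w s : ℚ) = 1 := by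
      intro s
      unfold bsg
      refine Finset.prod_eq_one fun j _ => ?_
      unfold eta
      simp [hab]
    by_cases hb : ∃ jb, L jb = b
    · obtain ⟨jb, hjb⟩ := hb
      obtain ⟨ja, hja⟩ := hini jb a (by rw [hjb]; exact hab) (by rw [hjb]; exact hlt)
      have hj : ja ≠ jb := fun e => hne (by rw [← hja, ← hjb, e])
      have h1 : ∀ s, (M (Function.update w s b)).det = (M w).adjugate jb s := by
        intro s
        rw [Matrix.adjugate_apply]
        congr 1
        ext i j
        rw [Matrix.updateRow_apply]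
        by_cases hi : i = s
        · subst hi
          rw [if_pos rfl]
          simp only [hM, Matrix.of_apply, Function.update_self]
          rw [← hjb, Pi.single_apply]
          by_cases hjj : j = jb
          · rw [hjj]; simp
          · rw [if_neg (fun e => hjj (hL e).symm), if_neg hjj]
        · rw [if_neg hi]
          simp only [hM, Matrix.of_apply, Function.update_of_ne hi]
      have h2 : ∑ s, (if w s = a then (bsg a b w s : ℚ) * (M (Function.update w s b)).det else 0)
          = ((M w).adjugate.mulVec (fun s => M w s ja)) jb := by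
        simp only [Matrix.mulVec, dotProduct]
        refine Finset.sum_congr rfl fun s _ => ?_
        rw [hb1, one_mul, h1]
        simp only [hM, Matrix.of_apply, hja]
        by_cases hs : w s = a
        · rw [if_pos hs, if_pos hs, mul_one]
        · rw [if_neg hs, if_neg hs, mul_zero]
      refine h2.trans ?_
      rw [← Matrix.cramer_eq_adjugate_mulVec, Matrix.cramer_apply]
      exact Matrix.det_updateCol_eq_zero hj
    · refine Finset.sum_eq_zero fun s _ => ?_
      split_ifs with hs
      · have : (M (Function.update w s b)).det = 0 := by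
          refine Matrix.det_eq_zero_of_row_eq_zero s fun j => ?_
          simp only [hM, Matrix.of_apply, Function.update_self]
          rw [if_neg]
          intro e
          exact hb ⟨j, e.symm⟩
        show (bsg a b w s : ℚ) * (M (Function.update w s b)).det = 0
        rw [this, mul_zero]
      · rfl

/-- the first part of the weight: `l` copies of all even letters (`HWex_det` with all even letters, `HWex_nsmul`) -/
theorem HWex_first : HWex (Sum.elim (fun _ => l) (fun _ => 0) : Lt k l → ℕ) := by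
  classical
  have h := HWex_nsmul (HWex_det (k := k) (l := l) (h := k) (fun i => Sum.inl i)
    (fun i j e => Sum.inl.inj e) (fun i j => rfl) (fun j a ha _ => by
      rcases a with a | a
      · exact ⟨a, rfl⟩
      · simp [odd] at ha)) l
  convert h using 1
  funext c
  rcases c with c | c <;> simp

theorem count_lt (N x : ℕ) : ∑ h ∈ Finset.range N, (if x < h then 1 else 0) = N - 1 - x := by
  rw [← Finset.card_filter]
  have : (Finset.range N).filter (fun h => x < h) = Finset.Ioo x N := by
    ext h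
    simp only [Finset.mem_filter, Finset.mem_range, Finset.mem_Ioo]
    tauto
  rw [this, Nat.card_Ioo]
  omega

theorem HWex_even {h : ℕ} (hh : h ≤ k) :
    HWex (Sum.elim (fun i : Fin k => if i.val < h then 1 else 0) (fun _ => 0) : Lt k l → ℕ) := by
  classical
  have h1 := HWex_det (k := k) (l := l) (h := h) (fun i => Sum.inl (Fin.castLE hh i))
    (fun i j e => Fin.castLE_injective hh (Sum.inl.inj e)) (fun i j => rfl)
    (fun j a ha hlt => by
      rcases a with a | a
      · have h3 : a.val < j.val := by simpa [std] using hlt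
        exact ⟨⟨a.val, h3.trans j.2⟩, by simp⟩
      · simp [odd] at ha)
  convert h1 using 1
  funext c
  rcases c with c | c
  · simp only [Sum.elim_inl, Sum.inl.injEq]
    by_cases hc : c.val < h
    · rw [if_pos hc, if_pos ⟨⟨c.val, hc⟩, by simp⟩]
    · rw [if_neg hc, if_neg]
      rintro ⟨j, rfl⟩
      exact hc (by simp)
  · simp

theorem HWex_odd {h : ℕ} (hh : h ≤ l) :
    HWex (Sum.elim (fun _ => 0) (fun i : Fin l => if i.val < h then 1 else 0) : Lt k l → ℕ) := by
  classical
  have h1 := HWex_det (k := k) (l := l) (h := h) (fun i => Sum.inr (Fin.castLE hh i))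
    (fun i j e => Fin.castLE_injective hh (Sum.inr.inj e)) (fun i j => rfl)
    (fun j a ha hlt => by
      rcases a with a | a
      · simp [odd] at ha
      · have h3 : a.val < j.val := by simpa [std] using hlt
        exact ⟨⟨a.val, h3.trans j.2⟩, by simp⟩)
  convert h1 using 1
  funext c
  rcases c with c | c
  · simp
  · simp only [Sum.elim_inr, Sum.inr.injEq]
    by_cases hc : c.val < h
    · rw [if_pos hc, if_pos ⟨⟨c.val, hc⟩, by simp⟩]
    · rw [if_neg hc, if_neg]
      rintro ⟨j, rfl⟩
      exact hc (by simp)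

/-- the second part: `(p - 1)` copies of the even letters `< h`, `h = 1, …, k - 1`, and of the odd letters `< h`,
`h = 1, …, l - 1` -/
theorem HWex_second (p : ℕ) :
    HWex (Sum.elim (fun i => (p - 1) * (k - 1 - i.val)) (fun j => (p - 1) * (l - 1 - j.val)) :
      Lt k l → ℕ) := by
  classical
  have h1 := HWex_nsmul (HWex_add
    (HWex_sum (k := k) (l := l) (Finset.range k)
      (n := fun h => Sum.elim (fun i : Fin k => if i.val < h then 1 else 0) (fun _ => 0))
      (fun h hh => HWex_even (Finset.mem_range.1 hh).le))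
    (HWex_sum (k := k) (l := l) (Finset.range l)
      (n := fun h => Sum.elim (fun _ => 0) (fun i : Fin l => if i.val < h then 1 else 0))
      (fun h hh => HWex_odd (Finset.mem_range.1 hh).le))) (p - 1)
  convert h1 using 1
  funext c
  rcases c with c | c
  · simp only [Sum.elim_inl, Pi.smul_apply, Pi.add_apply, Finset.sum_apply, smul_eq_mul,
      Finset.sum_const_zero, add_zero, count_lt]
  · simp only [Sum.elim_inr, Pi.smul_apply, Pi.add_apply, Finset.sum_apply, smul_eq_mul,
      Finset.sum_const_zero, zero_add, count_lt]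

end Pool.PI34.SK

end

/-! ### part SKJ -/
section

/-!
PI34, E-block for odd primes, row SKJ: lifting of inverses.
-/

set_option linter.unusedVariables false

namespace Pool.PI34.SK

open Equiv Finset Polynomial
open Pool.PI34.Super (Lt odd)

section lift

variable {A : Type} [CommRing A] {k l n : ℕ}

/-- the matrix of the action over `A` -/
noncomputable def Mat (k l : ℕ) (d : MonoidAlgebra A (Perm (Fin n))) :
    Matrix (Fin n → Lt k l) (Fin n → Lt k l) A :=
  Matrix.of fun w w' => act A A k l _ d (Pi.single w' 1) w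

/-- `act_bc`, `Pi.single` -/
theorem act_eq_mulVec {K : Type} [CommRing K] [Algebra A K] (d : MonoidAlgebra A (Perm (Fin n)))
    (u : W K k l (Fin n)) :
    act A K k l _ d u = Matrix.mulVec ((Mat k l d).map (algebraMap A K)) u := by
  classical
  have h1 : ∀ w' : Fin n → Lt k l, (Pi.single w' (1 : K) : W K k l (Fin n))
      = bc A K (Pi.single w' (1 : A)) := by
    intro w'
    funext w
    unfold bc
    by_cases h : w = w'
    · subst h; simp
    · rw [Pi.single_eq_of_ne h, Pi.single_eq_of_ne h, map_zero]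
  have h2 : u = ∑ w', u w' • (Pi.single w' (1 : K) : W K k l (Fin n)) := by
    funext w
    rw [Finset.sum_apply, Finset.sum_eq_single w]
    · simp
    · intro b _ hb
      rw [Pi.smul_apply, Pi.single_eq_of_ne (Ne.symm hb), smul_zero]
    · intro h; exact absurd (Finset.mem_univ _) h
  conv_lhs => rw [h2]
  funext w
  rw [map_sum, Finset.sum_apply]
  unfold Matrix.mulVec dotProduct
  refine Finset.sum_congr rfl (fun w' _ => ?_)
  rw [map_smul, Pi.smul_apply, h1, act_bc, smul_eq_mul, mul_comm]
  rfl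

/-- The matrix of the action is multiplicative. -/
noncomputable def matHom (A : Type) [CommRing A] (k l n : ℕ) :
    MonoidAlgebra A (Perm (Fin n)) →ₐ[A] Matrix (Fin n → Lt k l) (Fin n → Lt k l) A :=
  (LinearMap.toMatrixAlgEquiv' (R := A) (n := Fin n → Lt k l)).toAlgHom.comp
    (act A A k l (Fin n))

theorem matHom_apply (d : MonoidAlgebra A (Perm (Fin n))) : matHom A k l n d = Mat k l d := by
  classical
  ext w w'
  change LinearMap.toMatrixAlgEquiv' (act A A k l (Fin n) d) w w' = _
  rw [LinearMap.toMatrixAlgEquiv'_apply]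
  rfl

/-- If `d` acts surjectively over `ZMod p` then it has an inverse which is a polynomial in `d`.  PROOF.  `T := Mat k l d`.
Over `ZMod p` the map `mulVec (T.map _)` is surjective, so bijective, so `det (T.map _) ≠ 0`, and this is the image of
`det T`; `PInt.unit`: `det T` is a unit.  `χ := T.charpoly`, `χ.coeff 0 = ± det T` is a unit `c`, `χ(T) = 0`
(`Matrix.aeval_self_charpoly`), `χ = divX χ * X + C c`, so for `q := - c⁻¹ • divX χ`: `q(T) * T = 1`.  The matrix of
`aeval d q` is `aeval T q` (`Mat` is multiplicative), so over `ℚ` (`act_eq_mulVec`) `aeval d q` is a left inverse. -/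
theorem lift_inv {p : ℕ} [Fact p.Prime] [Algebra A ℚ] [Algebra A (ZMod p)] [PInt p A]
    (d : MonoidAlgebra A (Perm (Fin n)))
    (hs : Function.Surjective (act A (ZMod p) k l (Fin n) d)) :
    ∃ q : A[X], ∀ u : W ℚ k l (Fin n),
      act A ℚ k l _ (aeval d q) (act A ℚ k l _ d u) = u := by
  classical
  set T : Matrix (Fin n → Lt k l) (Fin n → Lt k l) A := Mat k l d with hT
  -- the determinant is a unit
  have h1 : Function.Surjective (Matrix.mulVec (T.map (algebraMap A (ZMod p)))) := by
    intro v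
    obtain ⟨u, hu⟩ := hs v
    exact ⟨u, by rw [← hu, act_eq_mulVec]⟩
  have h2 : IsUnit (T.map (algebraMap A (ZMod p))) := Matrix.mulVec_surjective_iff_isUnit.1 h1
  have h3 : IsUnit ((T.map (algebraMap A (ZMod p))).det) := (Matrix.isUnit_iff_isUnit_det _).1 h2
  have h4 : (T.map (algebraMap A (ZMod p))).det = algebraMap A (ZMod p) T.det := by
    rw [RingHom.map_det]; rfl
  rw [h4] at h3
  have h5 : IsUnit T.det := PInt.unit (p := p) _ h3.ne_zero
  have h6 : IsUnit (T.charpoly.coeff 0) := by
    have h7 := Matrix.det_eq_sign_charpoly_coeff T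
    rw [h7] at h5
    exact isUnit_of_mul_isUnit_right h5
  obtain ⟨c, hc⟩ := h6
  refine ⟨C (-(↑c⁻¹ : A)) * divX T.charpoly, fun u => ?_⟩
  have h8 : aeval T (divX T.charpoly) * T + algebraMap A _ (c : A) = 0 := by
    have h9 := Matrix.aeval_self_charpoly T
    rw [← Polynomial.divX_mul_X_add T.charpoly, map_add, map_mul, aeval_X, aeval_C, ← hc] at h9
    exact h9
  have h10 : aeval T (C (-(↑c⁻¹ : A)) * divX T.charpoly) * T = 1 := by
    rw [map_mul, aeval_C, mul_assoc, eq_neg_of_add_eq_zero_left h8, mul_neg, ← map_mul, ← map_neg, neg_mul, neg_neg, Units.inv_mul, map_one]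
  have h11 : Mat k l (aeval d (C (-(↑c⁻¹ : A)) * divX T.charpoly) * d) = 1 := by
    rw [← matHom_apply, map_mul, ← Polynomial.aeval_algHom_apply, matHom_apply]
    exact h10
  rw [← Module.End.mul_apply, ← map_mul, act_eq_mulVec, h11]
  simp

end lift

end Pool.PI34.SK

end

/-! ### part SKI -/
section

/-!
PI34, E-block for odd primes, row SKI: placements on the blocks.
-/

set_option linter.unusedVariables false

namespace Pool.PI34.SK

open Equiv Finset Polynomial
open Pool.PI34.Super (Lt odd Conv)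

section blocks

variable {K : Type} [CommRing K] {k l m m' : ℕ} {A : Type} [CommRing A] [Algebra A K]

/-- the embedding of the first block -/
def phL (m m' : ℕ) : Fin m ↪o Fin (m + m') := Fin.castAddOrderEmb m'

/-- the embedding of the second block -/
def phR (m m' : ℕ) : Fin m' ↪o Fin (m + m') := Fin.natAddOrderEmb m

theorem conv_phL : Conv (phL m m') := by
  intro x hx
  right
  intro a
  rw [Fin.lt_def]
  by_contra h
  apply hx
  have hx1 : x.val < m := by
    have : (phL m m' a).val = a.val := rfl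
    have := a.2; omega
  exact ⟨⟨x.val, hx1⟩, Fin.ext rfl⟩

theorem conv_phR : Conv (phR m m') := by
  intro x hx
  left
  intro a
  rw [Fin.lt_def]
  by_contra h
  apply hx
  have h0 : (phR m m' a).val = m + a.val := rfl
  have hx1 : x.val - m < m' := by have := x.2; omega
  refine ⟨⟨x.val - m, hx1⟩, Fin.ext ?_⟩
  change m + (x.val - m) = x.val
  omega

theorem cast_notMem_phR (i : Fin m) : Fin.castAdd m' i ∉ Set.range (phR m m') := by
  rintro ⟨s, hs⟩
  have h1 := congrArg Fin.val hs
  have h2 : (phR m m' s).val = m + s.val := rfl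
  rw [h2, Fin.val_castAdd] at h1
  have := i.2; omega

theorem nat_notMem_phL (s : Fin m') : Fin.natAdd m s ∉ Set.range (phL m m') := by
  rintro ⟨i, hs⟩
  have h1 := congrArg Fin.val hs
  have h3 : (phL m m' i).val = i.val := rfl
  rw [h3, Fin.val_natAdd] at h1
  have := i.2; omega

theorem ext_phR_cast (u : Fin m' → Lt k l) (w : Fin (m + m') → Lt k l) :
    Function.extend (phR m m') u w ∘ Fin.castAdd m' = w ∘ Fin.castAdd m' := by
  funext i
  rw [Function.comp_apply, Function.extend_apply' _ _ _ (cast_notMem_phR i)]; rfl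

theorem ext_phR_nat (u : Fin m' → Lt k l) (w : Fin (m + m') → Lt k l) :
    Function.extend (phR m m') u w ∘ Fin.natAdd m = u := by
  funext i
  have h : Fin.natAdd m i = phR m m' i := rfl
  rw [Function.comp_apply, h, (phR m m').injective.extend_apply]

theorem ext_phL_nat (u : Fin m → Lt k l) (w : Fin (m + m') → Lt k l) :
    Function.extend (phL m m') u w ∘ Fin.natAdd m = w ∘ Fin.natAdd m := by
  funext i
  rw [Function.comp_apply, Function.extend_apply' _ _ _ (nat_notMem_phL i)]; rfl

theorem ext_phL_cast (u : Fin m → Lt k l) (w : Fin (m + m') → Lt k l) :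
    Function.extend (phL m m') u w ∘ Fin.castAdd m' = u := by
  funext i
  have h : Fin.castAdd m' i = phL m m' i := rfl
  rw [Function.comp_apply, h, (phL m m').injective.extend_apply]

/-- `act_pl`: `sl (phL) w (tens f g) = g (w ∘ natAdd) • f` -/
theorem act_plL (y : MonoidAlgebra A (Perm (Fin m))) (f : W K k l (Fin m)) (g : W K k l (Fin m')) :
    act A K k l _ (pl A (phL m m') y) (tens f g) = tens (act A K k l _ y f) g := by
  funext w
  have h : sl (phL m m') w (tens f g) = g (w ∘ Fin.natAdd m) • f := by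
    funext u
    rw [sl_apply, tens_apply, ext_phL_cast, ext_phL_nat, Pi.smul_apply, smul_eq_mul, mul_comm]
  rw [act_pl conv_phL, tens_apply, h, map_smul, Pi.smul_apply, smul_eq_mul, mul_comm]
  rfl

theorem act_plR (y : MonoidAlgebra A (Perm (Fin m'))) (f : W K k l (Fin m))
    (g : W K k l (Fin m')) :
    act A K k l _ (pl A (phR m m') y) (tens f g) = tens f (act A K k l _ y g) := by
  funext w
  have h : sl (phR m m') w (tens f g) = f (w ∘ Fin.castAdd m') • g := by
    funext u
    rw [sl_apply, tens_apply, ext_phR_cast, ext_phR_nat, Pi.smul_apply, smul_eq_mul]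
  rw [act_pl conv_phR, tens_apply, h, map_smul, Pi.smul_apply, smul_eq_mul]
  rfl

/-- every function is a combination of tensor products (of `Pi.single`s) -/
theorem tens_span (u : W K k l (Fin (m + m'))) :
    u ∈ Submodule.span K {x | ∃ (f : W K k l (Fin m)) (g : W K k l (Fin m')), x = tens f g} := by
  classical
  have h1 : u = ∑ w, u w • tens (Pi.single (w ∘ Fin.castAdd m') (1 : K) : W K k l (Fin m))
      (Pi.single (w ∘ Fin.natAdd m) (1 : K) : W K k l (Fin m')) := by
    funext v
    rw [Finset.sum_apply, Finset.sum_eq_single v]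
    · rw [Pi.smul_apply, tens_apply, Pi.single_eq_same, Pi.single_eq_same, mul_one, smul_eq_mul,
        mul_one]
    · intro w _ hw
      rw [Pi.smul_apply, tens_apply]
      by_cases h2 : v ∘ Fin.castAdd m' = w ∘ Fin.castAdd m'
      · by_cases h3 : v ∘ Fin.natAdd m = w ∘ Fin.natAdd m
        · exfalso
          apply hw
          funext x
          refine Fin.addCases (fun i => ?_) (fun i => ?_) x
          · exact (congrFun h2 i).symm
          · exact (congrFun h3 i).symm
        · rw [Pi.single_eq_of_ne h3, mul_zero, smul_zero]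
      · rw [Pi.single_eq_of_ne h2, zero_mul, smul_zero]
    · intro h; exact absurd (Finset.mem_univ _) h
  rw [h1]
  refine Submodule.sum_mem _ (fun w _ => Submodule.smul_mem _ _ (Submodule.subset_span ?_))
  exact ⟨_, _, rfl⟩

/-- `x ↦ (first strand of x) ⊗ (rest of x) ⊗ g` -/
def TT (g : W K k l (Fin m')) : W K k l (Fin (m + 1)) →ₗ[K] W K k l (Fin (m + m' + 1)) where
  toFun x := ∑ c, ins c (tens (comp c x) g)
  map_add' x y := by
    rw [← Finset.sum_add_distrib]
    exact Finset.sum_congr rfl (fun c _ => by rw [map_add, tens_add_left, map_add])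
  map_smul' a x := by
    rw [RingHom.id_apply, Finset.smul_sum]
    exact Finset.sum_congr rfl (fun c _ => by rw [map_smul, tens_smul_left, map_smul])

/-- the parity operator if `c` is odd -/
def sgc (c : Lt k l) : W K k l (Fin m) →ₗ[K] W K k l (Fin m) where
  toFun f := fun w => (∏ i, if odd c && odd (w i) then (-1 : K) else 1) * f w
  map_add' f g := by funext w; simp only [Pi.add_apply]; ring
  map_smul' a f := by funext w; simp only [Pi.smul_apply, smul_eq_mul, RingHom.id_apply]; ring

theorem sgc_apply (c : Lt k l) (f : W K k l (Fin m)) (w : Fin m → Lt k l) :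
    sgc c f w = (∏ i, if odd c && odd (w i) then (-1 : K) else 1) * f w := rfl

/-- `x ↦ (first strand of x) ⊗ f ⊗ (rest of x)` with the sign of the exchange -/
def TT' (f : W K k l (Fin m)) : W K k l (Fin (m' + 1)) →ₗ[K] W K k l (Fin (m + m' + 1)) where
  toFun x := ∑ c, ins c (tens (sgc c f) (comp c x))
  map_add' x y := by
    rw [← Finset.sum_add_distrib]
    exact Finset.sum_congr rfl (fun c _ => by rw [map_add, tens_add_right, map_add])
  map_smul' a x := by
    rw [RingHom.id_apply, Finset.smul_sum]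
    exact Finset.sum_congr rfl (fun c _ => by rw [map_smul, tens_smul_right, map_smul])

theorem TT_ins (g : W K k l (Fin m')) (c : Lt k l) (f : W K k l (Fin m)) :
    TT g (ins c f) = ins c (tens f g) := by
  classical
  change ∑ d, ins d (tens (comp d (ins c f)) g) = _
  rw [Finset.sum_eq_single c]
  · rw [comp_ins, if_pos rfl]
  · intro d _ hd
    rw [comp_ins, if_neg hd, tens_zero_left, map_zero]
  · intro h; exact absurd (Finset.mem_univ _) h

theorem sgc_sgc (c : Lt k l) (f : W K k l (Fin m)) : sgc c (sgc c f) = f := by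
  funext w
  rw [sgc_apply, sgc_apply, ← mul_assoc, ← Finset.prod_mul_distrib, Finset.prod_eq_one, one_mul]
  intro i _
  split_ifs <;> simp

theorem sg_sgc (c d : Lt k l) (f : W K k l (Fin m)) : sg c d (sgc c f) = sgc d f := by
  funext w
  rw [sg_apply, sgc_apply, sgc_apply, ← mul_assoc, ← Finset.prod_mul_distrib]
  congr 1
  refine Finset.prod_congr rfl (fun i _ => ?_)
  unfold eta
  cases odd c <;> cases odd d <;> cases odd (w i) <;> simp

theorem TT'_ins (f : W K k l (Fin m)) (c : Lt k l) (g : W K k l (Fin m')) :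
    TT' f (ins c g) = ins c (tens (sgc c f) g) := by
  classical
  change ∑ d, ins d (tens (sgc d f) (comp d (ins c g))) = _
  rw [Finset.sum_eq_single c]
  · rw [comp_ins, if_pos rfl]
  · intro d _ hd
    rw [comp_ins, if_neg hd, tens_zero_right, map_zero]
  · intro h; exact absurd (Finset.mem_univ _) h

/-- Two linear maps that agree on all `ins c f` are equal. -/
theorem lin_ext_ins {V : Type*} [AddCommGroup V] [Module K V] {φ ψ : W K k l (Fin (m + 1)) →ₗ[K] V}
    (h : ∀ c (f : W K k l (Fin m)), φ (ins c f) = ψ (ins c f)) (x : W K k l (Fin (m + 1))) :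
    φ x = ψ x := by
  rw [sum_ins x, map_sum, map_sum]
  exact Finset.sum_congr rfl (fun c _ => h c _)

/-- `x = ∑ ins c (comp c x)` (`sum_ins`), `X_ins`, `XBl_ins`, `TT_ins` -/
theorem TT_X (g : W K k l (Fin m')) (x : W K k l (Fin (m + 1))) :
    act A K k l _ (XB A (Bl m m')) (TT g x) = TT g (act A K k l _ (XB A univ) x) := by
  refine lin_ext_ins (φ := (act A K k l _ (XB A (Bl m m'))).comp (TT g))
    (ψ := (TT g).comp (act A K k l _ (XB A univ))) (fun c f => ?_) x
  rw [LinearMap.comp_apply, LinearMap.comp_apply, TT_ins, XBl_ins, X_ins, map_sum]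
  exact Finset.sum_congr rfl (fun d _ => by rw [map_smul, TT_ins])

/-- `X_ins`, `XBr_ins`, `TT'_ins`, `sg_sgc` -/
theorem TT'_X (f : W K k l (Fin m)) (x : W K k l (Fin (m' + 1))) :
    act A K k l _ (XB A (Br m m')) (TT' f x) = TT' f (act A K k l _ (XB A univ) x) := by
  refine lin_ext_ins (φ := (act A K k l _ (XB A (Br m m'))).comp (TT' f))
    (ψ := (TT' f).comp (act A K k l _ (XB A univ))) (fun c g => ?_) x
  rw [LinearMap.comp_apply, LinearMap.comp_apply, TT'_ins, XBr_ins, X_ins, map_sum]
  exact Finset.sum_congr rfl (fun d _ => by rw [map_smul, TT'_ins, sg_sgc])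

/-- Intertwining with polynomials. -/
theorem act_aeval_inter {n n' : ℕ} {y : MonoidAlgebra A (Perm (Fin n))}
    {y' : MonoidAlgebra A (Perm (Fin n'))} {φ : W K k l (Fin n) →ₗ[K] W K k l (Fin n')}
    (h : ∀ x, act A K k l _ y' (φ x) = φ (act A K k l _ y x)) (P : A[X])
    (x : W K k l (Fin n)) :
    act A K k l _ (aeval y' P) (φ x) = φ (act A K k l _ (aeval y P) x) := by
  induction P using Polynomial.induction_on generalizing x with
  | C a =>
    rw [aeval_C, aeval_C, Algebra.algebraMap_eq_smul_one, Algebra.algebraMap_eq_smul_one,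
      act_smul_apply, act_smul_apply, map_one, map_one, Module.End.one_apply,
      Module.End.one_apply, map_smul]
  | add P Q hP hQ =>
    rw [map_add, map_add, map_add, map_add, LinearMap.add_apply, LinearMap.add_apply, map_add,
      hP, hQ]
  | monomial n a hP =>
    rw [pow_succ, ← mul_assoc, map_mul (aeval y') (C a * X ^ n) X,
      map_mul (aeval y) (C a * X ^ n) X, aeval_X, aeval_X, map_mul (act A K k l _) _ y',
      map_mul (act A K k l _) _ y, Module.End.mul_apply, Module.End.mul_apply, h, hP]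

theorem TT_poly (g : W K k l (Fin m')) (P : A[X]) (x : W K k l (Fin (m + 1))) :
    act A K k l _ (aeval (XB A (Bl m m')) P) (TT g x)
      = TT g (act A K k l _ (aeval (XB A (univ : Finset (Fin m))) P) x) :=
  act_aeval_inter (fun x => TT_X g x) P x

theorem TT'_poly (f : W K k l (Fin m)) (P : A[X]) (x : W K k l (Fin (m' + 1))) :
    act A K k l _ (aeval (XB A (Br m m')) P) (TT' f x)
      = TT' f (act A K k l _ (aeval (XB A (univ : Finset (Fin m'))) P) x) :=
  act_aeval_inter (fun x => TT'_X f x) P x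

end blocks

end Pool.PI34.SK

end

/-! ### part SKK2 -/
section

/-!
PI34, E-block for odd primes, row SKK2: a vector `ζ` over `ℚ` of weight `n0`, killed by the `E_ab` with `a < b` of the same
parity, such that the product of all odd operators even → odd does not kill it; the residue sequence.
-/

set_option linter.unusedVariables false

namespace Pool.PI34.SK

open Equiv Finset
open Pool.PI34.Super (Lt odd)

variable {k l : ℕ}

section first

variable {m m' : ℕ}

/-- the number of even letters in the first block -/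
def evb (w : Fin (m + m') → Lt k l) : ℕ :=
  (univ.filter fun i : Fin m => odd (w (Fin.castAdd m' i)) = false).card

/-- replacing one letter raises the number of even letters by at most one -/
theorem K2_card_update {α β : Type*} [Fintype α] [Fintype β] [DecidableEq α] (φ : β → α)
    (hφ : Function.Injective φ) (w : α → Lt k l) (s : α) (b : Lt k l) :
    (univ.filter fun i : β => odd (Function.update w s b (φ i)) = false).card
      ≤ (univ.filter fun i : β => odd (w (φ i)) = false).card + 1 := by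
  classical
  by_cases hs : ∃ i0, φ i0 = s
  · obtain ⟨i0, hi0⟩ := hs
    have hsub : (univ.filter fun i : β => odd (Function.update w s b (φ i)) = false)
        ⊆ insert i0 (univ.filter fun i : β => odd (w (φ i)) = false) := by
      intro i hi
      rw [Finset.mem_filter] at hi
      rw [Finset.mem_insert, Finset.mem_filter]
      by_cases h : i = i0
      · exact Or.inl h
      · right
        have hne : φ i ≠ s := fun e => h (hφ (e.trans hi0.symm))
        rw [Function.update_of_ne hne] at hi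
        exact hi
    exact (Finset.card_le_card hsub).trans (Finset.card_insert_le _ _)
  · have hsub : (univ.filter fun i : β => odd (Function.update w s b (φ i)) = false)
        = (univ.filter fun i : β => odd (w (φ i)) = false) := by
      refine Finset.filter_congr (fun i _ => ?_)
      have hne : φ i ≠ s := fun e => hs ⟨i, e⟩
      rw [Function.update_of_ne hne]
    rw [hsub]
    exact Nat.le_succ _

/-- One operator `EE (odd) (even)` lowers the number of even letters in the first block by at most one (`EE_apply`). -/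
theorem dn_evb (L : List (Lt k l × Lt k l))
    (hL : ∀ q ∈ L, odd q.1 = false ∧ odd q.2 = true) {e : ℕ} {u : W ℚ k l (Fin (m + m'))}
    (hu : ∀ w, u w ≠ 0 → e ≤ evb w) : ∀ w, dn L u w ≠ 0 → e ≤ evb w + L.length := by
  induction L generalizing e u with
  | nil =>
    intro w hw
    exact hu w hw
  | cons q L ih =>
    intro w hw
    have h1 : ∀ w, (EE q.2 q.1 u) w ≠ 0 → e - 1 ≤ evb w := by
      intro w hw
      rw [EE_apply] at hw
      obtain ⟨s, _, hs⟩ := Finset.exists_ne_zero_of_sum_ne_zero hw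
      by_cases hws : w s = q.2
      · rw [if_pos hws] at hs
        have h2 := hu _ (right_ne_zero_of_mul hs)
        have h3 := K2_card_update (Fin.castAdd m') (Fin.castAdd_injective m m') w s q.1
        unfold evb at h2 ⊢
        omega
      · rw [if_neg hws] at hs
        exact absurd rfl hs
    have h2 := ih (fun q' hq' => hL q' (List.mem_cons_of_mem _ hq')) h1 w hw
    rw [List.length_cons]
    omega

/-- Induction on `L`: `EE y x (tens f g) = tens (EE y x f) g + tens (sg y x f) (EE y x g)`; the second term does not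
contribute (`dn_evb`). -/
theorem dn_tens (L : List (Lt k l × Lt k l))
    (hL : ∀ q ∈ L, odd q.1 = false ∧ odd q.2 = true) {e : ℕ} {f : W ℚ k l (Fin m)}
    (hf : ∀ w, f w ≠ 0 → e ≤ (univ.filter fun i => odd (w i) = false).card)
    (g : W ℚ k l (Fin m')) (w : Fin (m + m') → Lt k l) (hw : evb w + L.length = e) :
    dn L (tens f g) w = dn L f (w ∘ Fin.castAdd m') * g (w ∘ Fin.natAdd m) := by
  induction L generalizing e f with
  | nil => rfl
  | cons q L ih =>
    have hL' : ∀ q' ∈ L, odd q'.1 = false ∧ odd q'.2 = true :=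
      fun q' hq' => hL q' (List.mem_cons_of_mem _ hq')
    rw [List.length_cons] at hw
    have h1 : ∀ w, (EE q.2 q.1 f) w ≠ 0 →
        e - 1 ≤ (univ.filter fun i => odd (w i) = false).card := by
      intro w hw
      rw [EE_apply] at hw
      obtain ⟨s, _, hs⟩ := Finset.exists_ne_zero_of_sum_ne_zero hw
      by_cases hws : w s = q.2
      · rw [if_pos hws] at hs
        have h2 := hf _ (right_ne_zero_of_mul hs)
        have h3 := K2_card_update (fun i : Fin m => i) (fun _ _ h => h) w s q.1
        omega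
      · rw [if_neg hws] at hs
        exact absurd rfl hs
    have h2 := ih hL' h1 (by omega)
    have h3 : dn L (tens (sg q.2 q.1 f) (EE q.2 q.1 g)) w = 0 := by
      by_contra hne
      have h4 : ∀ w : Fin (m + m') → Lt k l, (tens (sg q.2 q.1 f) (EE q.2 q.1 g)) w ≠ 0 →
          e ≤ evb w := by
        intro w hw
        rw [tens_apply, sg_apply] at hw
        exact hf _ (right_ne_zero_of_mul (left_ne_zero_of_mul hw))
      have h5 := dn_evb L hL' h4 w hne
      omega
    change dn L (EE q.2 q.1 (tens f g)) w = dn L (EE q.2 q.1 f) (w ∘ Fin.castAdd m') *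
      g (w ∘ Fin.natAdd m)
    rw [EE_tens, map_add, Pi.add_apply, h2, h3, add_zero]

end first

theorem K2_cts_split {m m' : ℕ} (w : Fin (m + m') → Lt k l) :
    cts w = cts (w ∘ Fin.castAdd m') + cts (w ∘ Fin.natAdd m) := by
  classical
  funext c
  simp only [cts, Pi.add_apply, Pool.PI34.Super.cnt, Finset.card_filter]
  rw [Fin.sum_univ_add]
  rfl

theorem K2_even_card {m : ℕ} (w : Fin m → Lt k l) :
    (univ.filter fun i => odd (w i) = false).card = ∑ i : Fin k, cts w (Sum.inl i) := by
  classical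
  simp only [cts, Pool.PI34.Super.cnt, Finset.card_filter]
  rw [Finset.sum_comm]
  refine Finset.sum_congr rfl (fun s _ => ?_)
  rcases hws : w s with x | y
  · simp
  · simp

theorem K2_card_lt {n : ℕ} (i : Fin n) : (univ.filter (fun x : Fin n => x < i)).card = i.val := by
  have h : univ.filter (fun x : Fin n => x < i) = Finset.Iio i := by
    ext x; simp
  rw [h, Fin.card_Iio]

theorem K2_hgtc_inl (i : Fin k) : hgtc (std : Lt k l → ℕ) (Sum.inl i) = -(i.val : ℤ) := by
  unfold hgtc
  rw [Fintype.sum_sum_type]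
  have h1 : ∀ x : Fin k, (if (std (Sum.inl x : Lt k l)) < std (Sum.inl i : Lt k l) then
      (if odd (Sum.inl x : Lt k l) then (1 : ℤ) else -1) else 0)
      = if x < i then -1 else 0 := by
    intro x
    simp only [std, Sum.elim_inl, Sum.isRight_inl, Fin.lt_def]
    simp
  have h2 : ∀ y : Fin l, (if (std (Sum.inr y : Lt k l)) < std (Sum.inl i : Lt k l) then
      (if odd (Sum.inr y : Lt k l) then (1 : ℤ) else -1) else 0) = 0 := by
    intro y
    simp only [std, Sum.elim_inl, Sum.elim_inr]
    rw [if_neg]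
    have := i.2; omega
  rw [Finset.sum_congr rfl (fun x _ => h1 x), Finset.sum_congr rfl (fun y _ => h2 y)]
  rw [← Finset.sum_filter, Finset.sum_const, Finset.sum_const_zero, add_zero, K2_card_lt]
  simp

theorem K2_hgtc_inr (j : Fin l) :
    hgtc (std : Lt k l → ℕ) (Sum.inr j) = -(k : ℤ) + (j.val : ℤ) := by
  unfold hgtc
  rw [Fintype.sum_sum_type]
  have h1 : ∀ x : Fin k, (if (std (Sum.inl x : Lt k l)) < std (Sum.inr j : Lt k l) then
      (if odd (Sum.inl x : Lt k l) then (1 : ℤ) else -1) else 0) = -1 := by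
    intro x
    simp only [std, Sum.elim_inl, Sum.elim_inr, Sum.isRight_inl]
    rw [if_pos]
    · simp
    · have := x.2; omega
  have h2 : ∀ y : Fin l, (if (std (Sum.inr y : Lt k l)) < std (Sum.inr j : Lt k l) then
      (if odd (Sum.inr y : Lt k l) then (1 : ℤ) else -1) else 0) = if y < j then 1 else 0 := by
    intro y
    simp only [std, Sum.elim_inr, Sum.isRight_inr, Fin.lt_def]
    simp
  rw [Finset.sum_congr rfl (fun x _ => h1 x), Finset.sum_congr rfl (fun y _ => h2 y)]
  rw [← Finset.sum_filter, Finset.sum_const, Finset.sum_const, K2_card_lt]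
  simp

/-- `ζ = f ⊗ g` with `f` from `HWex_first`, `g` from `HWex_second`.  `HW std f` (`f` has no odd letters), so
`up (dn f) = c • f` with `c = ∏ (n_i + n_j + k-1-i-j) ≠ 0`: every factor `fac std n (inl i, inr j) = l + k - 1 - i - j > 0`
for `n = (l, …, l | 0, …, 0)`.  So `dn f ≠ 0`; it has weight `(0, …, 0 | k, …, k)` (`onZ_dn_std`); take `w1` with
`dn f w1 ≠ 0` (all letters odd), `w2` with `g w2 ≠ 0`; `dn_tens` with `e = k * l = length Lstd`. -/
theorem exists_zeta (p : ℕ) (hp : 0 < p) :
    ∃ (m : ℕ) (ζ : W ℚ k l (Fin m)), On (n0 p k l) ζ ∧ HW0 ζ ∧ dn (Lstd k l) ζ ≠ 0 := by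
  classical
  obtain ⟨m, f, hf, hfn, hf0⟩ := HWex_first (k := k) (l := l)
  obtain ⟨m', g, hg, hgn, hg0⟩ := HWex_second (k := k) (l := l) p
  refine ⟨m + m', tens f g, ?_, ?_, ?_⟩
  · intro w hw
    rw [tens_apply] at hw
    rw [K2_cts_split, hfn _ (left_ne_zero_of_mul hw), hgn _ (right_ne_zero_of_mul hw)]
    funext c
    rcases c with i | j <;> simp [n0]
  · intro a b hab hlt
    rw [EE_tens, hf0 a b hab hlt, hg0 a b hab hlt, tens_zero_left, tens_zero_right, add_zero]
  · -- `HW std f`
    have hHW : HW std f := by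
      intro a b hab
      by_cases hpar : odd a = odd b
      · exact hf0 a b hpar hab
      · rcases a with i | j <;> rcases b with i' | j'
        · exact absurd rfl hpar
        · funext w
          rw [EE_apply]
          refine Finset.sum_eq_zero (fun s _ => ?_)
          split_ifs with h
          · have hz : f (Function.update w s (Sum.inr j')) = 0 := by
              by_contra hne
              have h1 := congrFun (hfn _ hne) (Sum.inr j')
              simp only [Sum.elim_inr, cts, Pool.PI34.Super.cnt] at h1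
              rw [Finset.card_eq_zero, Finset.filter_eq_empty_iff] at h1
              exact h1 (Finset.mem_univ s) (Function.update_self _ _ _)
            rw [hz, mul_zero]
          · rfl
        · exfalso
          simp only [std, Sum.elim_inl, Sum.elim_inr] at hab
          have := i'.2; omega
        · exact absurd rfl hpar
    set n : Lt k l → ℤ := Sum.elim (fun _ => (l : ℤ)) (fun _ => 0) with hn
    have hnf : OnZ n f := by
      intro w hw c
      rw [hfn w hw]
      rcases c with i | j <;> simp [hn]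
    have hud := up_dn (K := ℚ) two_ne_zero (Lstd k l) (valid_std k l) hHW hnf
    have hprod : (((Lstd k l).map (fac std n)).prod : ℤ) ≠ 0 := by
      apply List.prod_ne_zero
      intro h0
      rw [List.mem_map] at h0
      obtain ⟨q, hq, hq0⟩ := h0
      unfold Lstd at hq
      rw [List.mem_flatMap] at hq
      obtain ⟨j, _, hq⟩ := hq
      rw [List.mem_map] at hq
      obtain ⟨i, _, rfl⟩ := hq
      have e1 : fac std n ((Sum.inl i : Lt k l), (Sum.inr j : Lt k l))
          = (l : ℤ) - i.val - (-(0 : ℤ) + (-(k : ℤ) + j.val)) - 1 := by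
        simp only [fac, gamZ, K2_hgtc_inl, K2_hgtc_inr, hn, Sum.elim_inl, Sum.elim_inr,
          Sum.isRight_inl, Sum.isRight_inr]
        simp
        ring
      rw [e1] at hq0
      have := i.2
      have := j.2
      omega
    have hdf : dn (Lstd k l) f ≠ 0 := by
      intro h0
      have h1 := hud.1
      rw [h0, map_zero] at h1
      rcases smul_eq_zero.1 h1.symm with h2 | h2
      · exact hprod (by exact_mod_cast h2)
      · exact hf h2
    obtain ⟨w1, hw1⟩ := Function.ne_iff.1 hdf
    obtain ⟨w2, hw2⟩ := Function.ne_iff.1 hg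
    rw [Pi.zero_apply] at hw1 hw2
    have hz1 := onZ_dn_std hnf w1 hw1
    have hev : (univ.filter fun i => odd (w1 i) = false).card = 0 := by
      rw [K2_even_card]
      refine Finset.sum_eq_zero (fun i _ => ?_)
      have := hz1 (Sum.inl i)
      simp only [hn, Pi.add_apply, Sum.elim_inl] at this
      omega
    have hlen : (Lstd k l).length = l * k := by
      unfold Lstd
      rw [List.length_flatMap]
      simp
    have hL : ∀ q ∈ Lstd k l, odd q.1 = false ∧ odd q.2 = true := by
      intro q hq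
      unfold Lstd at hq
      rw [List.mem_flatMap] at hq
      obtain ⟨j, _, hq⟩ := hq
      rw [List.mem_map] at hq
      obtain ⟨i, _, rfl⟩ := hq
      exact ⟨rfl, rfl⟩
    have hfe : ∀ w, f w ≠ 0 → l * k ≤ (univ.filter fun i => odd (w i) = false).card := by
      intro w hw
      rw [K2_even_card, hfn w hw]
      simp [mul_comm]
    have happ1 : (Fin.append w1 w2) ∘ Fin.castAdd m' = w1 := by
      funext i; simp
    have happ2 : (Fin.append w1 w2) ∘ Fin.natAdd m = w2 := by
      funext i; simp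
    have hkey := dn_tens (Lstd k l) hL hfe g (Fin.append w1 w2) (by
      have : evb (Fin.append w1 w2) = 0 := by
        unfold evb
        rw [← hev]
        simp
      rw [this, hlen, zero_add])
    rw [happ1, happ2] at hkey
    intro h0
    rw [h0, Pi.zero_apply] at hkey
    exact mul_ne_zero hw1 hw2 hkey.symm

theorem K2_act_onZ {A K : Type} [CommRing A] [CommRing K] [Algebra A K] {m : ℕ}
    (y : MonoidAlgebra A (Perm (Fin m))) {n : Lt k l → ℤ} {u : W K k l (Fin m)}
    (hu : OnZ n u) : OnZ n (act A K k l _ y u) := by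
  by_cases h0 : u = 0
  · subst h0
    intro w hw
    rw [map_zero] at hw
    exact absurd rfl hw
  · obtain ⟨w0, hw0⟩ := Function.ne_iff.1 h0
    have h1 : On (cts w0) u := by
      intro w hw
      funext c
      have e1 := hu w hw c
      have e2 := hu w0 hw0 c
      omega
    have h2 := act_on y h1
    intro w hw c
    rw [h2 w hw]
    exact hu w0 hw0 c

/-- PROOF.  `exists_res` for `dn L ζ` gives `r`; `ξ := up L (zr r (dn L ζ)) = zr r (up L (dn L ζ))` (`up_act`).
`HW std ξ`: `up_std_kill` for `a` even, `b` odd; same parity: `up_std_comm`, `act_EE`, `dn_std_comm`, `HW0 ζ`.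
`On n0 ξ`: `onZ_dn_std`, `onZ_up_std`, `act_on`.  `ip ξ ζ = ip (zr r (dn L ζ)) (dn L ζ) = ip v v` with `v = zr r (dn L ζ) ≠ 0`
(`up_adj`, `zr_idem`, `zr_selfAdj`), a positive number. -/
theorem exists_r {p : ℕ} [Fact p.Prime] (A : Type) [CommRing A] [Algebra A ℚ]
    [Algebra A (ZMod p)] [PInt p A] (k l : ℕ) :
    ∃ (m : ℕ) (r : Fin m → ZMod p) (ξ : W ℚ k l (Fin m)), ξ ≠ 0 ∧
      act A ℚ k l _ (zr A p k l m r) ξ = ξ ∧ HW std ξ ∧ On (n0 p k l) ξ := by
  obtain ⟨m, ζ, hOn, hH, hne⟩ := exists_zeta (k := k) (l := l) p (Fact.out : p.Prime).pos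
  have hg : Good A p k l ℚ := good_rat p A k l
  obtain ⟨r, hr⟩ := exists_res hg hne
  set v := act A ℚ k l _ (zr A p k l m r) (dn (Lstd k l) ζ) with hv
  have h2 : (2 : ℚ) ≠ 0 := two_ne_zero
  have hvz : act A ℚ k l _ (zr A p k l m r) v = v := by
    rw [hv]; exact zr_idem hg r _
  refine ⟨m, r, up (Lstd k l) v, ?_, ?_, ?_, ?_⟩
  · intro h0
    have h1 : ip (up (Lstd k l) v) ζ = ip v v := by
      rw [up_adj]
      have e := zr_selfAdj (A := A) (K := ℚ) r (dn (Lstd k l) ζ) v
      rw [← hv, hvz] at e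
      rw [e, ip_comm]
    rw [h0, ip_zero_left] at h1
    apply hr
    funext w
    have h3 : ∀ w ∈ (univ : Finset (Fin m → Lt k l)), 0 ≤ v w * v w :=
      fun w _ => mul_self_nonneg _
    have h4 := (Finset.sum_eq_zero_iff_of_nonneg h3).1 h1.symm w (Finset.mem_univ w)
    exact mul_self_eq_zero.1 h4
  · rw [up_act, hvz]
  · intro a b hab
    by_cases hpar : odd a = odd b
    · have hne' : a ≠ b := fun e => by rw [e] at hab; exact lt_irrefl _ hab
      rw [up_std_comm h2 hpar hne']
      have e1 : EE a b v = 0 := by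
        rw [hv]
        have e2 := LinearMap.congr_fun (act_EE (K := ℚ) (zr A p k l m r) a b)
          (dn (Lstd k l) ζ)
        rw [Module.End.mul_apply, Module.End.mul_apply] at e2
        rw [← e2, dn_std_comm h2 hpar hne', hH a b hpar hab, map_zero, map_zero]
      rw [e1, map_zero]
    · rcases a with i | j <;> rcases b with i' | j'
      · exact absurd rfl hpar
      · exact up_std_kill h2 i j' v
      · exfalso
        simp only [std, Sum.elim_inl, Sum.elim_inr] at hab
        have := i'.2; omega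
      · exact absurd rfl hpar
  · have h1 : OnZ (fun c => ((n0 p k l c : ℕ) : ℤ)) ζ := by
      intro w hw c
      rw [hOn w hw]
    have h3 := onZ_up_std (K2_act_onZ (zr A p k l m r) (onZ_dn_std h1))
    intro w hw
    funext c
    have h4 := h3 w hw c
    rcases c with i | j
    · simp only [Pi.add_apply, Sum.elim_inl] at h4
      omega
    · simp only [Pi.add_apply, Sum.elim_inr] at h4
      omega

end Pool.PI34.SK

end

/-! ### part SKG -/
section

/-!
PI34, E-block for odd primes, row SKG: `M_r` is generated by `L⁺` and by `L⁻`.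
-/

set_option linter.unusedVariables false

namespace Pool.PI34.SK

open Equiv Finset
open Pool.PI34.Super (Lt odd)

variable {k l m : ℕ}

section general

variable {K : Type} [CommRing K]

/-- for `a ≠ b`: if `n + e_b = n' + e_a` then `wproj n (EE a b v) = EE a b (wproj n' v)` (`cts_update`) -/
theorem wproj_EE {a b : Lt k l} (hab : a ≠ b) (n n' : Lt k l → ℕ)
    (h : n + Pi.single b 1 = n' + Pi.single a 1) (v : W K k l (Fin m)) :
    wproj n (EE a b v) = EE a b (wproj n' v) := by
  classical
  funext w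
  rw [wproj_apply, EE_apply, EE_apply]
  by_cases h1 : cts w = n
  · rw [if_pos h1]
    refine Finset.sum_congr rfl (fun s _ => ?_)
    by_cases hs : w s = a
    · rw [if_pos hs, if_pos hs, wproj_apply, if_pos]
      have h2 := cts_update w s a b hs hab
      rw [h1, h] at h2
      exact add_right_cancel h2
    · rw [if_neg hs, if_neg hs]
  · rw [if_neg h1]
    symm
    refine Finset.sum_eq_zero (fun s _ => ?_)
    by_cases hs : w s = a
    · rw [if_pos hs, wproj_apply, if_neg, mul_zero]
      intro h2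
      apply h1
      have h3 := cts_update w s a b hs hab
      rw [h2, ← h] at h3
      exact (add_right_cancel h3).symm
    · rw [if_neg hs]

/-- the projections commute with the diagonal operators -/
theorem wproj_EE_diag (a : Lt k l) (n : Lt k l → ℕ) (v : W K k l (Fin m)) :
    wproj n (EE a a v) = EE a a (wproj n v) := by
  classical
  funext w
  rw [wproj_apply, EE_diag, EE_diag, wproj_apply]
  split_ifs <;> simp

/-- if `n a = 0` and `a ≠ b` then `wproj n (EE a b v) = 0` -/
theorem wproj_EE_zero {a b : Lt k l} (n : Lt k l → ℕ) (h : n a = 0) (v : W K k l (Fin m)) :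
    wproj n (EE a b v) = 0 := by
  classical
  funext w
  rw [wproj_apply, EE_apply]
  by_cases h1 : cts w = n
  · rw [if_pos h1]
    refine Finset.sum_eq_zero (fun s _ => ?_)
    by_cases hs : w s = a
    · exfalso
      have h2 : cts w a = 0 := by rw [h1, h]
      unfold cts Pool.PI34.Super.cnt at h2
      rw [Finset.card_eq_zero] at h2
      have h3 : s ∈ univ.filter (fun t => w t = a) := by simp [hs]
      rw [h2] at h3
      exact absurd h3 (Finset.notMem_empty s)
    · rw [if_neg hs]
  · rw [if_neg h1]; rfl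

/-- `wproj_EE_mem` without the hypothesis that `N` is graded -/
theorem wproj_EE_mem' {N : Submodule K (W K k l (Fin m))} (a b : Lt k l)
    (hst : ∀ v ∈ N, EE a b v ∈ N) (n : Lt k l → ℕ) {v : W K k l (Fin m)}
    (hv : ∀ n, wproj n v ∈ N) : wproj n (EE a b v) ∈ N := by
  by_cases hab : a = b
  · subst hab
    rw [wproj_EE_diag]
    exact hst _ (hv n)
  · by_cases hn : n a = 0
    · rw [wproj_EE_zero n hn]
      exact N.zero_mem
    · have h : n + Pi.single b 1 = (n + Pi.single b 1 - Pi.single a 1) + Pi.single a 1 := by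
        funext c
        simp only [Pi.add_apply, Pi.sub_apply, Pi.single_apply]
        by_cases hca : c = a
        · subst hca
          simp only [if_true]
          omega
        · simp only [hca, if_false]
          omega
      rw [wproj_EE hab n _ h]
      exact hst _ (hv _)

/-- if there is no such `n'` (that is `n a = 0`) then `wproj n (EE a b v) = 0`;  for `a = b` the operators commute -/
theorem wproj_EE_mem {N : Submodule K (W K k l (Fin m))} (hg : Graded N) (a b : Lt k l)
    (hst : ∀ v ∈ N, EE a b v ∈ N) (n : Lt k l → ℕ) {v : W K k l (Fin m)}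
    (hv : ∀ n, wproj n v ∈ N) : wproj n (EE a b v) ∈ N :=
  wproj_EE_mem' a b hst n hv

/-- `{v | v ∈ gen S X ∧ ∀ n, wproj n v ∈ gen S X}` contains `X` and is stable. -/
theorem gen_graded {S : Set (Module.End K (W K k l (Fin m)))}
    (hS : ∀ T ∈ S, ∃ a b, T = EE a b) {X : Submodule K (W K k l (Fin m))} (hX : Graded X) :
    Graded (gen S X) := by
  let N : Submodule K (W K k l (Fin m)) :=
    gen S X ⊓ ⨅ n : Lt k l → ℕ, (gen S X).comap (wproj n)
  have hmem : ∀ v, v ∈ N ↔ v ∈ gen S X ∧ ∀ n, wproj n v ∈ gen S X := by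
    intro v
    simp only [N, Submodule.mem_inf, Submodule.mem_iInf, Submodule.mem_comap]
  have h1 : gen S X ≤ N := by
    refine gen_le ?_ ?_
    · intro v hv
      rw [hmem]
      exact ⟨le_gen _ _ hv, fun n => le_gen _ _ (hX n v hv)⟩
    · intro T hT v hv
      rw [hmem] at hv ⊢
      refine ⟨gen_stable hT hv.1, fun n => ?_⟩
      obtain ⟨a, b, rfl⟩ := hS T hT
      exact wproj_EE_mem' a b (fun u hu => gen_stable hT hu) n hv.2
  intro n u hu
  exact ((hmem u).1 (h1 hu)).2 n

end general

section field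

variable {A K : Type} [CommRing A] [Field K] [Algebra A K] {p : ℕ} [Fact p.Prime]
  [Algebra A ℚ] [Algebra A (ZMod p)] [PInt p A]

theorem mem_Lp {A K : Type} [CommRing A] [CommRing K] [Algebra A K] {p : ℕ}
    (r : Fin m → ZMod p) (u : W K k l (Fin m)) :
    u ∈ Lp A K r ↔ u ∈ MM A K r ∧ ∀ (i : Fin k) (j : Fin l), EE (Sum.inl i) (Sum.inr j) u = 0 := by
  simp only [Lp, Submodule.mem_inf, Submodule.mem_iInf, LinearMap.mem_ker]

theorem mem_Lm {A K : Type} [CommRing A] [CommRing K] [Algebra A K] {p : ℕ}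
    (r : Fin m → ZMod p) (u : W K k l (Fin m)) :
    u ∈ Lm A K r ↔ u ∈ MM A K r ∧ ∀ (i : Fin k) (j : Fin l), EE (Sum.inr j) (Sum.inl i) u = 0 := by
  simp only [Lm, Submodule.mem_inf, Submodule.mem_iInf, LinearMap.mem_ker]

theorem Lp_graded (r : Fin m → ZMod p) : Graded (Lp (k := k) (l := l) A K r) := by
  intro n u hu
  rw [mem_Lp] at hu ⊢
  exact ⟨MM_graded r n u hu.1, fun i j => EE_wproj_zero Sum.inl_ne_inr (hu.2 i j) n⟩

theorem Lm_graded (r : Fin m → ZMod p) : Graded (Lm (k := k) (l := l) A K r) := by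
  intro n u hu
  rw [mem_Lm] at hu ⊢
  exact ⟨MM_graded r n u hu.1, fun i j => EE_wproj_zero Sum.inr_ne_inl (hu.2 i j) n⟩

/-- `EE_comm_apply`: for `odd a = odd b` the commutator of `EE a b` with an operator of `Sup` is in the span of `Sup`. -/
theorem Lp_g0 (r : Fin m → ZMod p) {a b : Lt k l} (hab : odd a = odd b) {u : W K k l (Fin m)}
    (hu : u ∈ Lp A K r) : EE a b u ∈ Lp A K r := by
  rw [mem_Lp] at hu ⊢
  refine ⟨MM_EE r a b hu.1, fun i j => ?_⟩
  rw [EE_comm_apply, hu.2 i j, map_zero, smul_zero, zero_add]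
  have h1 : (if Sum.inr j = a then EE (Sum.inl i) b u else 0) = 0 := by
    split_ifs with h
    · subst h
      rcases b with b | b
      · simp [odd] at hab
      · exact hu.2 i b
    · rfl
  have h2 : (if b = Sum.inl i then EE a (Sum.inr j) u else 0) = 0 := by
    split_ifs with h
    · subst h
      rcases a with a | a
      · exact hu.2 a j
      · simp [odd] at hab
    · rfl
  rw [h1, h2, smul_zero, sub_zero]

theorem Lm_g0 (r : Fin m → ZMod p) {a b : Lt k l} (hab : odd a = odd b) {u : W K k l (Fin m)}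
    (hu : u ∈ Lm A K r) : EE a b u ∈ Lm A K r := by
  rw [mem_Lm] at hu ⊢
  refine ⟨MM_EE r a b hu.1, fun i j => ?_⟩
  rw [EE_comm_apply, hu.2 i j, map_zero, smul_zero, zero_add]
  have h1 : (if Sum.inl i = a then EE (Sum.inr j) b u else 0) = 0 := by
    split_ifs with h
    · subst h
      rcases b with b | b
      · exact hu.2 b j
      · simp [odd] at hab
    · rfl
  have h2 : (if b = Sum.inr j then EE a (Sum.inl i) u else 0) = 0 := by
    split_ifs with h
    · subst h
      rcases a with a | a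
      · simp [odd] at hab
      · exact hu.2 i a
    · rfl
  rw [h1, h2, smul_zero, sub_zero]

/-- `2 ≠ 0` in `K`, by `hK` and `p ≠ 2` -/
theorem two_ne (hp : p ≠ 2) (hg : Good A p k l K) : (2 : K) ≠ 0 := by
  intro h
  have h1 : ((2 : ℤ) : ZMod p) = 0 := hg.hK 2 (by exact_mod_cast h)
  rw [ZMod.intCast_zmod_eq_zero_iff_dvd] at h1
  have h2 : p ∣ 2 := by exact_mod_cast h1
  have hpp : p.Prime := Fact.out
  exact hp ((Nat.prime_dvd_prime_iff_eq hpp Nat.prime_two).1 h2)

end field

end Pool.PI34.SK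

end

/-! ### part SKG2 -/
section

/-!
PI34, E-block for odd primes, row SKG2: `M_r` is generated by `L⁺` and by `L⁻` (main statements).
-/

set_option linter.unusedVariables false
set_option linter.unusedSectionVars false

namespace Pool.PI34.SK

open Equiv Finset
open Pool.PI34.Super (Lt odd)

variable {k l m : ℕ}

section aux

variable {K : Type} [CommRing K]

theorem G2_wproj_adj (n : Lt k l → ℕ) (f g : W K k l (Fin m)) :
    ip (wproj n f) g = ip f (wproj n g) := by
  classical
  unfold ip
  refine Finset.sum_congr rfl (fun w _ => ?_)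
  rw [wproj_apply, wproj_apply]
  split_ifs <;> simp

theorem G2_stable (s : Bool) {X : Submodule K (W K k l (Fin m))}
    (hX : ∀ x ∈ X, ∀ a b : Lt k l, odd a = s → odd b = (!s) → EE a b x = 0)
    {S : Set (Module.End K (W K k l (Fin m)))}
    (hS : ∀ T, T ∈ S ↔ ∃ a b : Lt k l, (odd a = odd b ∨ (odd a = (!s) ∧ odd b = s)) ∧ T = EE a b) :
    ∀ v ∈ gen S X, ∀ a b : Lt k l, EE a b v ∈ gen S X := by
  classical
  let N : Submodule K (W K k l (Fin m)) :=
    { carrier := {v | v ∈ gen S X ∧ ∀ a b : Lt k l, odd a = s → odd b = (!s) → EE a b v ∈ gen S X}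
      add_mem' := by
        rintro x y ⟨hx1, hx2⟩ ⟨hy1, hy2⟩
        refine ⟨add_mem hx1 hy1, fun a b ha hb => ?_⟩
        rw [map_add]
        exact add_mem (hx2 a b ha hb) (hy2 a b ha hb)
      zero_mem' := ⟨zero_mem _, fun a b _ _ => by rw [map_zero]; exact zero_mem _⟩
      smul_mem' := by
        rintro c x ⟨hx1, hx2⟩
        refine ⟨Submodule.smul_mem _ _ hx1, fun a b ha hb => ?_⟩
        rw [map_smul]
        exact Submodule.smul_mem _ _ (hx2 a b ha hb) }
  have hst : ∀ (c d : Lt k l) (v : W K k l (Fin m)),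
      (odd c = odd d ∨ (odd c = (!s) ∧ odd d = s)) → v ∈ gen S X → EE c d v ∈ gen S X :=
    fun c d v h hv => gen_stable ((hS _).2 ⟨c, d, h, rfl⟩) hv
  have hN : gen S X ≤ N := by
    refine gen_le (fun x hx => ⟨le_gen _ _ hx, fun a b ha hb => ?_⟩) ?_
    · rw [hX x hx a b ha hb]; exact zero_mem _
    · intro T hT v hv
      obtain ⟨c, d, hcd, rfl⟩ := (hS T).1 hT
      refine ⟨hst c d v hcd hv.1, fun a b ha hb => ?_⟩
      rw [EE_comm_apply]
      refine sub_mem (add_mem (Submodule.smul_mem _ _ (hst c d _ hcd (hv.2 a b ha hb))) ?_)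
        (Submodule.smul_mem _ _ ?_)
      · split_ifs with h
        · rcases hcd with h1 | ⟨h1, h2⟩
          · refine hv.2 a d ha ?_
            rw [← h1, ← h]; exact hb
          · refine hst a d v (Or.inl ?_) hv.1
            rw [ha, h2]
        · exact zero_mem _
      · split_ifs with h
        · rcases hcd with h1 | ⟨h1, h2⟩
          · refine hv.2 c b ?_ hb
            rw [h1, h]; exact ha
          · refine hst c b v (Or.inl ?_) hv.1
            rw [h1, hb]
        · exact zero_mem _
  intro v hv a b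
  by_cases h : odd a = s ∧ odd b = !s
  · exact (hN hv).2 a b h.1 h.2
  · refine hst a b v ?_ hv
    cases ha : odd a <;> cases hb : odd b <;> cases s <;> simp_all

end aux

section field

variable {A K : Type} [CommRing A] [Field K] [Algebra A K] {p : ℕ} [Fact p.Prime]
  [Algebra A ℚ] [Algebra A (ZMod p)] [PInt p A]

/-- nondegeneracy: a vector of `M_r` orthogonal to `M_r` is zero (`ip_single`, `zr_selfAdj`, `mem_MM`) -/
theorem MM_nondeg (hg : Good A p k l K) (r : Fin m → ZMod p) {u : W K k l (Fin m)}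
    (hu : u ∈ MM A K r) (h : ∀ v ∈ MM A K r, ip u v = 0) : u = 0 := by
  classical
  funext w
  have h1 := h (act A K k l _ (zr A p k l m r) (Pi.single w 1)) ⟨_, rfl⟩
  rw [← zr_selfAdj r, (mem_MM hg r u).1 hu, ip_single] at h1
  exact h1

/-- If `N ≤ M_r` and `N ≠ M_r` there is `v ≠ 0` in `M_r` orthogonal to `N`.  PROOF.  A linear functional `φ` on `W` with
`φ = 0` on `N` and `φ x ≠ 0` for some `x ∈ M_r` (`Submodule.exists_le_ker_of_notMem` or similar); `φ = ip g ·`
with `g w = φ (Pi.single w 1)`; `v := act (zr) g`. -/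
theorem exists_orth (hg : Good A p k l K) (r : Fin m → ZMod p)
    {N : Submodule K (W K k l (Fin m))} (hN : N ≤ MM A K r) (hne : ¬ MM A K r ≤ N) :
    ∃ v ∈ MM A K r, v ≠ 0 ∧ ∀ x ∈ N, ip v x = 0 := by
  classical
  obtain ⟨x, hx, hxN⟩ := SetLike.not_le_iff_exists.1 hne
  obtain ⟨φ, hφx, hφ⟩ := Submodule.exists_le_ker_of_notMem hxN
  let g : W K k l (Fin m) := fun w => φ (Pi.single w 1)
  have hgφ : ∀ v, ip g v = φ v := by
    intro v
    have h1 : v = ∑ w, v w • (Pi.single w (1 : K) : W K k l (Fin m)) := by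
      funext w'
      rw [Finset.sum_apply]
      rw [Finset.sum_eq_single w']
      · simp
      · intro b _ hb
        simp [Ne.symm hb]
      · intro h; exact absurd (Finset.mem_univ _) h
    conv_rhs => rw [h1]
    rw [map_sum]
    unfold ip
    refine Finset.sum_congr rfl (fun w _ => ?_)
    rw [map_smul, smul_eq_mul, mul_comm]
  refine ⟨act A K k l _ (zr A p k l m r) g, ⟨g, rfl⟩, ?_, ?_⟩
  · intro h0
    apply hφx
    rw [← hgφ, ← (mem_MM hg r x).1 hx, ← zr_selfAdj, h0, ip_zero_left]
  · intro y hy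
    rw [zr_selfAdj, (mem_MM hg r y).1 (hN hy), hgφ]
    exact hφ hy

/-- In `M_r` the product of the factors of a chain is `≠ 0` in `K`: with `HH` every factor is `a - b - 1 = 1` in `ZMod p`
(`gamZ ω n = gam ω (cts w)`), and `hK`. -/
theorem fac_ne (hp : p ≠ 2) (hg : Good A p k l K) {ω : Lt k l → ℕ} {n : Lt k l → ℤ}
    (h : ∀ c, ((gamZ ω n c : ℤ) : ZMod p) = if odd c then rb p k l else ra p k l)
    (L : List (Lt k l × Lt k l)) (hL : ∀ q ∈ L, odd q.1 ≠ odd q.2) :
    (((L.map (fac ω n)).prod : ℤ) : K) ≠ 0 := by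
  intro h0
  have h1 := hg.hK _ h0
  have h2 : ∀ L : List (Lt k l × Lt k l), (∀ q ∈ L, odd q.1 ≠ odd q.2) →
      (((L.map (fac ω n)).prod : ℤ) : ZMod p) = 1 := by
    intro L hL
    induction L with
    | nil => simp
    | cons q L ih =>
      rw [List.map_cons, List.prod_cons, Int.cast_mul, ih (fun q hq => hL q (by simp [hq])),
        mul_one]
      have hq := hL q (by simp)
      unfold fac
      rw [Int.cast_sub, Int.cast_one]
      cases h3 : odd q.1 with
      | false =>
        have h4 : odd q.2 = true := by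
          cases h5 : odd q.2 with
          | false => rw [h3, h5] at hq; exact absurd rfl hq
          | true => rfl
        rw [if_neg (by simp), Int.cast_sub, h, h, h3, h4]
        simp only [ra, rb]
        simp
      | true =>
        have h4 : odd q.2 = false := by
          cases h5 : odd q.2 with
          | true => rw [h3, h5] at hq; exact absurd rfl hq
          | false => rfl
        rw [if_pos rfl, Int.cast_sub, h, h, h3, h4]
        simp only [ra, rb]
        simp
  rw [h2 L hL] at h1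
  exact one_ne_zero h1

theorem G2_gen (hp : p ≠ 2) (hg : Good A p k l K) (r : Fin m → ZMod p)
    (hH : HH A K k l r) {ω ω' : Lt k l → ℕ} (hω : ω = std ∨ ω = opp)
    {L : List (Lt k l × Lt k l)} (hL : Valid ω L ω') (hpar : ∀ q ∈ L, odd q.1 ≠ odd q.2)
    {X : Submodule K (W K k l (Fin m))} (hXM : X ≤ MM A K r) (hXg : Graded X)
    (hX : ∀ x ∈ MM A K r, up L (dn L x) ∈ X) : MM A K r ≤ gen Sall X := by
  classical
  by_contra hne
  have hNM : gen Sall X ≤ MM A K r := by
    refine gen_le hXM ?_
    rintro T ⟨a, b, rfl⟩ v hv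
    exact MM_EE r a b hv
  have hNg : Graded (gen Sall X) := gen_graded (fun T hT => hT) hXg
  let Q : Submodule K (W K k l (Fin m)) :=
    { carrier := {v | v ∈ MM A K r ∧ ∀ x ∈ gen Sall X, ip v x = 0}
      add_mem' := by
        rintro x y ⟨hx1, hx2⟩ ⟨hy1, hy2⟩
        refine ⟨add_mem hx1 hy1, fun z hz => ?_⟩
        rw [ip_add_left, hx2 z hz, hy2 z hz, add_zero]
      zero_mem' := ⟨zero_mem _, fun z _ => ip_zero_left z⟩
      smul_mem' := by
        rintro c x ⟨hx1, hx2⟩
        refine ⟨Submodule.smul_mem _ _ hx1, fun z hz => ?_⟩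
        rw [ip_smul_left, hx2 z hz, mul_zero] }
  have hQg : Graded Q := by
    intro n u hu
    refine ⟨MM_graded r n u hu.1, fun x hx => ?_⟩
    rw [G2_wproj_adj]
    exact hu.2 _ (hNg n x hx)
  have hQst : ∀ a b : Lt k l, ω a < ω b → ∀ v ∈ Q, EE a b v ∈ Q := by
    intro a b _ v hv
    refine ⟨MM_EE r a b hv.1, fun x hx => ?_⟩
    rw [EE_adj]
    exact hv.2 _ (gen_stable (T := EE b a) (show EE b a ∈ Sall from ⟨b, a, rfl⟩) hx)
  have hQne : Q ≠ ⊥ := by
    obtain ⟨v, hv, hv0, hvx⟩ := exists_orth hg r hNM hne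
    intro hb
    have : v ∈ Q := ⟨hv, hvx⟩
    rw [hb] at this
    exact hv0 this
  obtain ⟨v, hvQ, hv0, hvHW, n, hn⟩ := exists_HW ω hQg hQst hQne
  obtain ⟨w, hw⟩ : ∃ w, v w ≠ 0 := by
    by_contra h
    push Not at h
    exact hv0 (funext h)
  have hnZ : OnZ (fun c => (n c : ℤ)) v := by
    intro w hw c
    rw [hn w hw]
  have hc : ∀ c, ((gamZ ω (fun c => (n c : ℤ)) c : ℤ) : ZMod p)
      = if odd c then rb p k l else ra p k l := by
    intro c
    have h1 := hH v ((mem_MM hg r v).1 hvQ.1) ω hω hvHW w hw c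
    rw [hn w hw] at h1
    exact h1
  have hf := fac_ne hp hg hc L hpar
  have hud := (up_dn (two_ne hp hg) L hL hvHW hnZ).1
  apply hv0
  refine MM_nondeg hg r hvQ.1 (fun x hx => ?_)
  have h1 : ip (up L (dn L v)) x = 0 := by
    rw [up_adj, ip_comm, ← up_adj, ip_comm]
    exact hvQ.2 _ (le_gen _ _ (hX x hx))
  rw [hud, ip_smul_left] at h1
  exact (mul_eq_zero.1 h1).resolve_left hf

/-- PROOF.  Otherwise (`exists_orth`) `Q := {v ∈ M_r | ∀ x ∈ gen Sall L⁺, ip v x = 0} ≠ ⊥`; `Q` is graded (`gen_graded`) and stable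
under all `EE` (`EE_adj`).  `exists_HW std`: `v ∈ Q`, on `n`.  `up_dn` (`valid_std`), `fac_ne`: `up L (dn L v) = c • v`, `c ≠ 0`.
For `x ∈ M_r`: `c * ip v x = ip (up L (dn L v)) x = ip (dn L v) (dn L x) = ip v (up L (dn L x)) = 0`, because
`up L (dn L x) ∈ L⁺` (`up_std_kill`).  `MM_nondeg`: `v = 0`. -/
theorem gen_Lp (hp : p ≠ 2) (hg : Good A p k l K) (r : Fin m → ZMod p)
    (hH : HH A K k l r) : MM A K r ≤ gen Sall (Lp (k := k) (l := l) A K r) := by
  refine G2_gen hp hg r hH (Or.inl rfl) (valid_std k l) ?_ inf_le_left (Lp_graded r) ?_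
  · intro q hq
    have h := (F3_mem_std q).1 hq
    rw [h.1, h.2]; simp
  · intro x hx
    refine ⟨?_, ?_⟩
    · show _ ∈ MM A K r
      rw [mem_MM hg, up_act, dn_act, (mem_MM hg r x).1 hx]
    · show _ ∈ (⨅ (i : Fin k) (j : Fin l), LinearMap.ker (EE (Sum.inl i) (Sum.inr j)) :
        Submodule K (W K k l (Fin m)))
      simp only [Submodule.mem_iInf, LinearMap.mem_ker]
      intro i j
      exact up_std_kill (two_ne hp hg) i j _

/-- the same with `opp`, `Lopp` -/
theorem gen_Lm (hp : p ≠ 2) (hg : Good A p k l K) (r : Fin m → ZMod p)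
    (hH : HH A K k l r) : MM A K r ≤ gen Sall (Lm (k := k) (l := l) A K r) := by
  refine G2_gen hp hg r hH (Or.inr rfl) (valid_opp k l) ?_ inf_le_left (Lm_graded r) ?_
  · intro q hq
    have h := (F3_mem_opp q).1 hq
    rw [h.1, h.2]; simp
  · intro x hx
    refine ⟨?_, ?_⟩
    · show _ ∈ MM A K r
      rw [mem_MM hg, up_act, dn_act, (mem_MM hg r x).1 hx]
    · show _ ∈ (⨅ (i : Fin k) (j : Fin l), LinearMap.ker (EE (Sum.inr j) (Sum.inl i)) :
        Submodule K (W K k l (Fin m)))
      simp only [Submodule.mem_iInf, LinearMap.mem_ker]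
      intro i j
      exact up_opp_kill (two_ne hp hg) i j _

/-- `gen (S0 ∪ Sdn) L⁺` is stable under `Sup`: `{v | ∀ T ∈ Sup, T v ∈ gen (S0 ∪ Sdn) L⁺}` contains `L⁺` and is stable
under `S0 ∪ Sdn` (`EE_comm_apply`; compare `Super4.Qp_g1`). -/
theorem gen_Lp' (hp : p ≠ 2) (hg : Good A p k l K) (r : Fin m → ZMod p)
    (hH : HH A K k l r) : MM A K r ≤ gen (S0 ∪ Sdn) (Lp (k := k) (l := l) A K r) := by
  refine (gen_Lp hp hg r hH).trans (gen_le (le_gen _ _) ?_)
  rintro T ⟨a, b, rfl⟩ v hv
  refine G2_stable false ?_ ?_ v hv a b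
  · rintro x hx (i | j) (i' | j') h1 h2
    · simp [odd] at h2
    · have h3 := hx.2
      simp only [Submodule.mem_iInf, LinearMap.mem_ker, SetLike.mem_coe] at h3
      exact h3 i j'
    · simp [odd] at h1
    · simp [odd] at h1
  · intro T
    constructor
    · rintro (⟨a, b, h, rfl⟩ | ⟨i, j, rfl⟩)
      · exact ⟨a, b, Or.inl h, rfl⟩
      · exact ⟨_, _, Or.inr ⟨rfl, rfl⟩, rfl⟩
    · rintro ⟨a, b, h, rfl⟩
      rcases h with h | ⟨h1, h2⟩
      · exact Or.inl ⟨a, b, h, rfl⟩
      · rcases a with i | j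
        · simp [odd] at h1
        · rcases b with i' | j'
          · exact Or.inr ⟨i', j, rfl⟩
          · simp [odd] at h2

theorem gen_Lm' (hp : p ≠ 2) (hg : Good A p k l K) (r : Fin m → ZMod p)
    (hH : HH A K k l r) : MM A K r ≤ gen (S0 ∪ Sup) (Lm (k := k) (l := l) A K r) := by
  refine (gen_Lm hp hg r hH).trans (gen_le (le_gen _ _) ?_)
  rintro T ⟨a, b, rfl⟩ v hv
  refine G2_stable true ?_ ?_ v hv a b
  · rintro x hx (i | j) (i' | j') h1 h2
    · simp [odd] at h1
    · simp [odd] at h1
    · have h3 := hx.2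
      simp only [Submodule.mem_iInf, LinearMap.mem_ker, SetLike.mem_coe] at h3
      exact h3 i' j
    · simp [odd] at h2
  · intro T
    constructor
    · rintro (⟨a, b, h, rfl⟩ | ⟨i, j, rfl⟩)
      · exact ⟨a, b, Or.inl h, rfl⟩
      · exact ⟨_, _, Or.inr ⟨rfl, rfl⟩, rfl⟩
    · rintro ⟨a, b, h, rfl⟩
      rcases h with h | ⟨h1, h2⟩
      · exact Or.inl ⟨a, b, h, rfl⟩
      · rcases a with i | j
        · rcases b with i' | j'
          · simp [odd] at h2
          · exact Or.inr ⟨i, j', rfl⟩
        · simp [odd] at h1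

end field

end Pool.PI34.SK

end

/-! ### part SKH -/
section

/-!
PI34, E-block for odd primes, row SKH: the projection `G` on `V ⊗ M_r`.
-/

set_option linter.unusedVariables false
set_option linter.unusedSectionVars false

namespace Pool.PI34.SK

open Equiv Finset Polynomial
open Pool.PI34.Super (Lt odd)

section general

variable {K : Type} [CommRing K] {k l m : ℕ}

theorem skh_poly_ind {A : Type} [CommRing A] [Algebra A K]
    {Q : W K k l (Fin (m + 1)) → Prop}
    (hadd : ∀ u v, Q u → Q v → Q (u + v)) (hsmul : ∀ (c : K) (u), Q u → Q (c • u))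
    (hX : ∀ u, Q u → Q (act A K k l _ (XB A (univ : Finset (Fin m))) u)) (P : A[X])
    {u : W K k l (Fin (m + 1))} (hu : Q u) :
    Q (act A K k l _ (aeval (XB A (univ : Finset (Fin m))) P) u) := by
  induction P using Polynomial.induction_on' with
  | add p q hp hq =>
    rw [map_add, map_add, LinearMap.add_apply]
    exact hadd _ _ hp hq
  | monomial n a =>
    rw [aeval_monomial, ← Algebra.smul_def, act_smul_apply]
    refine hsmul _ _ ?_
    induction n with
    | zero => rw [pow_zero, map_one]; exact hu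
    | succ n ih => rw [pow_succ', map_mul, Module.End.mul_apply]; exact hX _ ih

/-- the component of a weight component -/
theorem skh_comp_wproj (n : Lt k l → ℕ) (c : Lt k l) :
    (∃ n' : Lt k l → ℕ, n = n' + Pi.single c 1 ∧
      ∀ u : W K k l (Fin (m + 1)), comp c (wproj n u) = wproj n' (comp c u)) ∨
    ∀ u : W K k l (Fin (m + 1)), comp c (wproj n u) = 0 := by
  classical
  by_cases h : ∃ n' : Lt k l → ℕ, n = n' + Pi.single c 1
  · left
    obtain ⟨n', hn'⟩ := h
    refine ⟨n', hn', fun u => ?_⟩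
    funext w
    rw [comp_apply, wproj_apply, wproj_apply, comp_apply, cts_cons, hn']
    by_cases h1 : cts w = n'
    · rw [if_pos (by rw [h1]), if_pos h1]
    · rw [if_neg (fun e => h1 (add_right_cancel e)), if_neg h1]
  · right
    intro u
    funext w
    rw [comp_apply, wproj_apply, if_neg]
    · rfl
    · intro e
      rw [cts_cons] at e
      exact h ⟨_, e.symm⟩

/-- a graded family of subspaces: components -/
theorem skh_comp_wproj_mem {N : Submodule K (W K k l (Fin m))} (hN : Graded N) (n : Lt k l → ℕ)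
    (c : Lt k l) {u : W K k l (Fin (m + 1))} (hu : comp c u ∈ N) : comp c (wproj n u) ∈ N := by
  rcases skh_comp_wproj (K := K) (m := m) n c with ⟨n', _, h⟩ | h
  · rw [h]; exact hN _ _ hu
  · rw [h]; exact N.zero_mem

theorem skh_comp_wproj_zero (n : Lt k l → ℕ)
    (c : Lt k l) {u : W K k l (Fin (m + 1))} (hu : comp c u = 0) : comp c (wproj n u) = 0 := by
  rcases skh_comp_wproj (K := K) (m := m) n c with ⟨n', _, h⟩ | h
  · rw [h, hu, map_zero]
  · exact h u

end general

variable {k l m : ℕ} {A K : Type} [CommRing A] [Field K] [Algebra A K] {p : ℕ} [Fact p.Prime]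
  [Algebra A ℚ] [Algebra A (ZMod p)] [PInt p A]

/-- the polynomial of the residue `a` evaluated at `X` -/
noncomputable def Gel (A : Type) [CommRing A] (p k l m : ℕ) :
    MonoidAlgebra A (Perm (Fin (m + 1))) :=
  aeval (XB A (univ : Finset (Fin m))) (gp A p k l m (ra p k l))

/-- `gpol_idem` -/
theorem Gel_idem (hg : Good A p k l K) (u : W K k l (Fin (m + 1))) :
    act A K k l _ (Gel A p k l m) (act A K k l _ (Gel A p k l m) u)
      = act A K k l _ (Gel A p k l m) u := by
  have h1 : act A K k l _ (Gel A p k l m)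
      = aeval (act A K k l _ (XB A (univ : Finset (Fin m)))) (gp A p k l m (ra p k l)) :=
    (Polynomial.aeval_algHom_apply _ _ _).symm
  have h2 := gpol_idem (A := A) (p := p) _ (hg.hP m) (ra p k l)
  rw [h1]
  exact LinearMap.congr_fun h2 u

/-- `X`, hence every polynomial in `X`, maps `V ⊗ M_r` into itself (`comp_XB`, `MM_EE`) -/
theorem comp_poly_MM (r : Fin m → ZMod p) {u : W K k l (Fin (m + 1))}
    (hu : ∀ c, comp c u ∈ MM A K r) (P : A[X]) (c : Lt k l) :
    comp c (act A K k l _ (aeval (XB A (univ : Finset (Fin m))) P) u) ∈ MM A K r := by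
  refine skh_poly_ind (Q := fun u : W K k l (Fin (m + 1)) => ∀ c, comp c u ∈ MM A K r)
    ?_ ?_ ?_ P hu c
  · intro u v hu hv c
    rw [map_add]
    exact (MM A K r).add_mem (hu c) (hv c)
  · intro a u hu c
    rw [map_smul]
    exact (MM A K r).smul_mem _ (hu c)
  · intro u hu c
    rw [comp_XB]
    exact (MM A K r).sum_mem (fun b _ => (MM A K r).smul_mem _ (MM_EE r b c (hu b)))

theorem skh_Lp_kill {r : Fin m → ZMod p} {a b : Lt k l} (ha : odd a = false) (hb : odd b = true)
    {u : W K k l (Fin m)} (hu : u ∈ Lp A K r) : EE a b u = 0 := by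
  unfold Lp at hu
  simp only [Submodule.mem_inf, Submodule.mem_iInf, LinearMap.mem_ker] at hu
  rcases a with i | i <;> rcases b with j | j
  · exact absurd hb (by simp [odd])
  · exact hu.2 i j
  · exact absurd ha (by simp [odd])
  · exact absurd ha (by simp [odd])

theorem skh_Lm_kill {r : Fin m → ZMod p} {a b : Lt k l} (ha : odd a = true) (hb : odd b = false)
    {u : W K k l (Fin m)} (hu : u ∈ Lm A K r) : EE a b u = 0 := by
  unfold Lm at hu
  simp only [Submodule.mem_inf, Submodule.mem_iInf, LinearMap.mem_ker] at hu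
  rcases a with i | i <;> rcases b with j | j
  · exact absurd ha (by simp [odd])
  · exact absurd ha (by simp [odd])
  · exact hu.2 j i
  · exact absurd hb (by simp [odd])

/-- `V₀ ⊗ L⁺` is stable under `X` (`comp_XB`: `EE b c` with `b` even, `c` odd kills `L⁺`; `Lp_g0`) -/
theorem V0Lp_poly (r : Fin m → ZMod p) {u : W K k l (Fin (m + 1))}
    (hu : ∀ c, comp c u ∈ Lp A K r ∧ (odd c = true → comp c u = 0)) (P : A[X]) (c : Lt k l) :
    comp c (act A K k l _ (aeval (XB A (univ : Finset (Fin m))) P) u) ∈ Lp A K r ∧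
      (odd c = true → comp c (act A K k l _ (aeval (XB A (univ : Finset (Fin m))) P) u) = 0) := by
  refine skh_poly_ind (Q := fun u : W K k l (Fin (m + 1)) =>
    ∀ c, comp c u ∈ Lp A K r ∧ (odd c = true → comp c u = 0)) ?_ ?_ ?_ P hu c
  · intro u v hu hv c
    rw [map_add]
    exact ⟨(Lp A K r).add_mem (hu c).1 (hv c).1, fun h => by rw [(hu c).2 h, (hv c).2 h, add_zero]⟩
  · intro a u hu c
    rw [map_smul]
    exact ⟨(Lp A K r).smul_mem _ (hu c).1, fun h => by rw [(hu c).2 h, smul_zero]⟩
  · intro u hu c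
    rw [comp_XB]
    by_cases hc : odd c = true
    · have h0 : ∑ b, (pm b c : K) • EB (univ : Finset (Fin m)) b c (comp b u) = 0 := by
        refine Finset.sum_eq_zero (fun b _ => ?_)
        by_cases hb : odd b = true
        · rw [(hu b).2 hb, map_zero, smul_zero]
        · have h1 : EE b c (comp b u) = 0 := skh_Lp_kill (by simpa using hb) hc (hu b).1
          unfold EE at h1
          rw [h1, smul_zero]
      exact ⟨by rw [h0]; exact (Lp A K r).zero_mem, fun _ => h0⟩
    · refine ⟨(Lp A K r).sum_mem (fun b _ => (Lp A K r).smul_mem _ ?_), fun h => absurd h hc⟩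
      by_cases hb : odd b = true
      · rw [(hu b).2 hb, map_zero]
        exact (Lp A K r).zero_mem
      · have h1 : EE b c (comp b u) ∈ Lp A K r :=
          Lp_g0 r (by rw [Bool.not_eq_true] at hb hc; rw [hb, hc]) (hu b).1
        exact h1

theorem V1Lm_poly (r : Fin m → ZMod p) {u : W K k l (Fin (m + 1))}
    (hu : ∀ c, comp c u ∈ Lm A K r ∧ (odd c = false → comp c u = 0)) (P : A[X]) (c : Lt k l) :
    comp c (act A K k l _ (aeval (XB A (univ : Finset (Fin m))) P) u) ∈ Lm A K r ∧
      (odd c = false → comp c (act A K k l _ (aeval (XB A (univ : Finset (Fin m))) P) u) = 0) := by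
  refine skh_poly_ind (Q := fun u : W K k l (Fin (m + 1)) =>
    ∀ c, comp c u ∈ Lm A K r ∧ (odd c = false → comp c u = 0)) ?_ ?_ ?_ P hu c
  · intro u v hu hv c
    rw [map_add]
    exact ⟨(Lm A K r).add_mem (hu c).1 (hv c).1, fun h => by rw [(hu c).2 h, (hv c).2 h, add_zero]⟩
  · intro a u hu c
    rw [map_smul]
    exact ⟨(Lm A K r).smul_mem _ (hu c).1, fun h => by rw [(hu c).2 h, smul_zero]⟩
  · intro u hu c
    rw [comp_XB]
    by_cases hc : odd c = false
    · have h0 : ∑ b, (pm b c : K) • EB (univ : Finset (Fin m)) b c (comp b u) = 0 := by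
        refine Finset.sum_eq_zero (fun b _ => ?_)
        by_cases hb : odd b = false
        · rw [(hu b).2 hb, map_zero, smul_zero]
        · have h1 : EE b c (comp b u) = 0 := skh_Lm_kill (by simpa using hb) hc (hu b).1
          unfold EE at h1
          rw [h1, smul_zero]
      exact ⟨by rw [h0]; exact (Lm A K r).zero_mem, fun _ => h0⟩
    · refine ⟨(Lm A K r).sum_mem (fun b _ => (Lm A K r).smul_mem _ ?_), fun h => absurd h hc⟩
      by_cases hb : odd b = false
      · rw [(hu b).2 hb, map_zero]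
        exact (Lm A K r).zero_mem
      · have h1 : EE b c (comp b u) ∈ Lm A K r :=
          Lm_g0 r (by rw [Bool.not_eq_false] at hb hc; rw [hb, hc]) (hu b).1
        exact h1

/-- `V₀ ⊗ L⁺` as a subspace -/
noncomputable def skhP (A K : Type) [CommRing A] [Field K] [Algebra A K]
    (r : Fin m → ZMod p) : Submodule K (W K k l (Fin (m + 1))) where
  carrier := {u | ∀ c, comp c u ∈ Lp A K r ∧ (odd c = true → comp c u = 0)}
  add_mem' := by
    intro u v hu hv c
    rw [map_add]
    exact ⟨(Lp A K r).add_mem (hu c).1 (hv c).1, fun h => by rw [(hu c).2 h, (hv c).2 h, add_zero]⟩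
  zero_mem' := by
    intro c
    rw [map_zero]
    exact ⟨(Lp A K r).zero_mem, fun _ => rfl⟩
  smul_mem' := by
    intro a u hu c
    rw [map_smul]
    exact ⟨(Lp A K r).smul_mem _ (hu c).1, fun h => by rw [(hu c).2 h, smul_zero]⟩

theorem mem_skhP {r : Fin m → ZMod p} {u : W K k l (Fin (m + 1))} :
    u ∈ skhP A K r ↔ ∀ c, comp c u ∈ Lp A K r ∧ (odd c = true → comp c u = 0) := Iff.rfl

/-- `V₁ ⊗ L⁻` as a subspace -/
noncomputable def skhM (A K : Type) [CommRing A] [Field K] [Algebra A K]
    (r : Fin m → ZMod p) : Submodule K (W K k l (Fin (m + 1))) where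
  carrier := {u | ∀ c, comp c u ∈ Lm A K r ∧ (odd c = false → comp c u = 0)}
  add_mem' := by
    intro u v hu hv c
    rw [map_add]
    exact ⟨(Lm A K r).add_mem (hu c).1 (hv c).1, fun h => by rw [(hu c).2 h, (hv c).2 h, add_zero]⟩
  zero_mem' := by
    intro c
    rw [map_zero]
    exact ⟨(Lm A K r).zero_mem, fun _ => rfl⟩
  smul_mem' := by
    intro a u hu c
    rw [map_smul]
    exact ⟨(Lm A K r).smul_mem _ (hu c).1, fun h => by rw [(hu c).2 h, smul_zero]⟩

theorem mem_skhM {r : Fin m → ZMod p} {u : W K k l (Fin (m + 1))} :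
    u ∈ skhM A K r ↔ ∀ c, comp c u ∈ Lm A K r ∧ (odd c = false → comp c u = 0) := Iff.rfl

theorem skhP_graded (r : Fin m → ZMod p) : Graded (skhP (k := k) (l := l) A K r) := by
  intro n u hu c
  exact ⟨skh_comp_wproj_mem (Lp_graded r) n c (hu c).1,
    fun h => skh_comp_wproj_zero n c ((hu c).2 h)⟩

theorem skhM_graded (r : Fin m → ZMod p) : Graded (skhM (k := k) (l := l) A K r) := by
  intro n u hu c
  exact ⟨skh_comp_wproj_mem (Lm_graded r) n c (hu c).1,
    fun h => skh_comp_wproj_zero n c ((hu c).2 h)⟩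

theorem skhP_EE (r : Fin m → ZMod p) {a b : Lt k l} (hab : std a < std b)
    {u : W K k l (Fin (m + 1))} (hu : u ∈ skhP A K r) : EE a b u ∈ skhP A K r := by
  rw [mem_skhP] at hu ⊢
  intro c
  rw [comp_EE]
  by_cases hpar : odd a = odd b
  · refine ⟨(Lp A K r).add_mem ?_ ((Lp A K r).smul_mem _ (Lp_g0 r hpar (hu c).1)), fun h => ?_⟩
    · split_ifs
      · exact (hu b).1
      · exact (Lp A K r).zero_mem
    · rw [(hu c).2 h, map_zero, smul_zero, add_zero]
      split_ifs with hc
      · exact (hu b).2 (by rw [← hpar, ← hc]; exact h)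
      · rfl
  · have h1 : odd a = false ∧ odd b = true := by
      rcases a with i | i <;> rcases b with j | j
      · exact absurd rfl hpar
      · exact ⟨rfl, rfl⟩
      · exfalso
        have h2 : k + i.val < j.val := hab
        omega
      · exact absurd rfl hpar
    have h2 : (if c = a then comp b u else 0) = 0 := by
      split_ifs
      · exact (hu b).2 h1.2
      · rfl
    rw [h2, skh_Lp_kill h1.1 h1.2 (hu c).1, smul_zero, add_zero]
    exact ⟨(Lp A K r).zero_mem, fun _ => rfl⟩

theorem skhM_EE (r : Fin m → ZMod p) {a b : Lt k l} (hab : opp a < opp b)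
    {u : W K k l (Fin (m + 1))} (hu : u ∈ skhM A K r) : EE a b u ∈ skhM A K r := by
  rw [mem_skhM] at hu ⊢
  intro c
  rw [comp_EE]
  by_cases hpar : odd a = odd b
  · refine ⟨(Lm A K r).add_mem ?_ ((Lm A K r).smul_mem _ (Lm_g0 r hpar (hu c).1)), fun h => ?_⟩
    · split_ifs
      · exact (hu b).1
      · exact (Lm A K r).zero_mem
    · rw [(hu c).2 h, map_zero, smul_zero, add_zero]
      split_ifs with hc
      · exact (hu b).2 (by rw [← hpar, ← hc]; exact h)
      · rfl
  · have h1 : odd a = true ∧ odd b = false := by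
      rcases a with i | i <;> rcases b with j | j
      · exact absurd rfl hpar
      · exfalso
        have h2 : l + i.val < j.val := hab
        omega
      · exact ⟨rfl, rfl⟩
      · exact absurd rfl hpar
    have h2 : (if c = a then comp b u else 0) = 0 := by
      split_ifs
      · exact (hu b).2 h1.2
      · rfl
    rw [h2, skh_Lm_kill h1.1 h1.2 (hu c).1, smul_zero, add_zero]
    exact ⟨(Lm A K r).zero_mem, fun _ => rfl⟩

/-- the top component of a highest weight vector and `G` -/
theorem skh_top (hk : 0 < k + l) (hg : Good A p k l K) (r : Fin m → ZMod p)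
    (hH : HH A K k l r) {ω : Lt k l → ℕ} (hω : Function.Injective ω) (hω' : ω = std ∨ ω = opp)
    {v : W K k l (Fin (m + 1))} (hv : HW ω v) {n : Lt k l → ℕ} (hn : On n v) (c : Lt k l)
    (hc0 : comp c v ≠ 0) (hc : ∀ c', ω c < ω c' → comp c' v = 0) (hM : comp c v ∈ MM A K r) :
    comp c (act A K k l _ (Gel A p k l m) v)
      = (if (if odd c then rb p k l else ra p k l) = ra p k l then (1 : K) else 0) • comp c v := by
  obtain ⟨n', hn', hon⟩ := comp_on hn c hc0
  obtain ⟨w, hw⟩ : ∃ w, comp c v w ≠ 0 := by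
    by_contra h
    push Not at h
    exact hc0 (funext h)
  have hcts : cts w = n' := hon w hw
  have h1 := hH (comp c v) ((mem_MM hg r _).1 hM) ω hω' (top_HW hω hv c hc) w hw c
  rw [hcts] at h1
  have h2 := (top_poly (A := A) hω hv c hc hon (gp A p k l m (ra p k l))).2
  have h3 : |gam ω n' c| ≤ ((m + k + l : ℕ) : ℤ) := by
    rw [← hcts]; exact gam_abs ω w c
  have h4 := gpol_eval (A := A) (p := p) (K := K) hk (ra p k l) (gam ω n' c) h3
  unfold Gel
  rw [h2]
  congr 1
  unfold gp
  rw [h4, h1]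

/-- `G = 1` on `V₀ ⊗ L⁺`.  PROOF.  `Q := {(1 - G) u | u ∈ V₀ ⊗ L⁺}` is contained in `V₀ ⊗ L⁺`, graded, stable under
`EE a b` for
`std a < std b` (same parity: `comp_EE`, `Lp_g0`; `a` even, `b` odd: it kills `V₀ ⊗ L⁺`).  If `Q ≠ ⊥`: `exists_HW std` gives
`u ∈ Q` on `n`, `G u = 0` (`Gel_idem`).  Top letter `c` (`exists_top`), `c` even, `comp c u ∈ L⁺ ⊂ M_r` is `HW std`
(`top_HW`), on `n'` (`comp_on`), `gam std n' c = a` by `HH` (a word of the support), and `comp c (G u) = 1 • comp c u ≠ 0` by
`top_poly`, `gpol_eval`, `gam_abs`.  Contradiction. -/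
theorem G_Lp (hp : p ≠ 2) (hk : 0 < k + l) (hg : Good A p k l K) (r : Fin m → ZMod p)
    (hH : HH A K k l r) {u : W K k l (Fin (m + 1))}
    (hu : ∀ c, comp c u ∈ Lp A K r ∧ (odd c = true → comp c u = 0)) :
    act A K k l _ (Gel A p k l m) u = u := by
  classical
  set G := act A K k l (Fin (m + 1)) (Gel A p k l m) with hG
  set Q : Submodule K (W K k l (Fin (m + 1))) := skhP A K r ⊓ LinearMap.ker G with hQ
  have hQbot : Q = ⊥ := by
    by_contra hne
    have hgr : Graded Q := by
      intro n v hv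
      refine ⟨skhP_graded r n v hv.1, ?_⟩
      have h1 : G v = 0 := hv.2
      change G (wproj n v) = 0
      rw [hG, act_wproj, ← hG, h1, map_zero]
    have hst : ∀ a b : Lt k l, std a < std b → ∀ v ∈ Q, EE a b v ∈ Q := by
      intro a b hab v hv
      refine ⟨skhP_EE r hab hv.1, ?_⟩
      have h1 : G v = 0 := hv.2
      change G (EE a b v) = 0
      have h2 := LinearMap.congr_fun (act_EE (K := K) (Gel A p k l m) a b) v
      simp only [Module.End.mul_apply] at h2
      rw [← hG, h1, map_zero] at h2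
      exact h2
    obtain ⟨v, hvQ, hv0, hHW, n, hn⟩ := exists_HW std hgr hst hne
    obtain ⟨c, hc0, hc⟩ := exists_top std hv0
    have hvP := mem_skhP.1 hvQ.1
    have hceven : odd c = false := by
      by_contra h
      rw [Bool.not_eq_false] at h
      exact hc0 ((hvP c).2 h)
    have hM : comp c v ∈ MM A K r := (hvP c).1.1
    have h1 := skh_top hk hg r hH std_inj (Or.inl rfl) hHW hn c hc0 hc hM
    rw [hceven] at h1
    simp only [Bool.false_eq_true, if_false, if_true, one_smul] at h1
    have h2 : G v = 0 := hvQ.2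
    rw [← hG, h2, map_zero] at h1
    exact hc0 h1.symm
  have hmem : u - G u ∈ Q := by
    refine ⟨(skhP A K r).sub_mem (mem_skhP.2 hu) (mem_skhP.2 (V0Lp_poly r hu _)), ?_⟩
    change G (u - G u) = 0
    rw [map_sub, hG, Gel_idem hg, sub_self]
  rw [hQbot, Submodule.mem_bot, sub_eq_zero] at hmem
  exact hmem.symm

/-- `G = 0` on `V₁ ⊗ L⁻`: the same with `opp`: `Q := {G u | u ∈ V₁ ⊗ L⁻}`, `u ∈ Q`, `G u = u`, top letter `c` odd, `gam opp n' c = b ≠ a`,
`comp c (G u) = 0`. -/
theorem G_Lm (hp : p ≠ 2) (hk : 0 < k + l) (hg : Good A p k l K) (r : Fin m → ZMod p)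
    (hH : HH A K k l r) {u : W K k l (Fin (m + 1))}
    (hu : ∀ c, comp c u ∈ Lm A K r ∧ (odd c = false → comp c u = 0)) :
    act A K k l _ (Gel A p k l m) u = 0 := by
  classical
  set G := act A K k l (Fin (m + 1)) (Gel A p k l m) with hG
  set Q : Submodule K (W K k l (Fin (m + 1))) := skhM A K r ⊓ LinearMap.ker (G - 1) with hQ
  have hker : ∀ v, v ∈ LinearMap.ker (G - 1) ↔ G v = v := by
    intro v
    rw [LinearMap.mem_ker, LinearMap.sub_apply, Module.End.one_apply, sub_eq_zero]
  have hQbot : Q = ⊥ := by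
    by_contra hne
    have hgr : Graded Q := by
      intro n v hv
      refine ⟨skhM_graded r n v hv.1, ?_⟩
      have h1 : G v = v := (hker v).1 hv.2
      refine (hker _).2 ?_
      rw [hG, act_wproj, ← hG, h1]
    have hst : ∀ a b : Lt k l, opp a < opp b → ∀ v ∈ Q, EE a b v ∈ Q := by
      intro a b hab v hv
      refine ⟨skhM_EE r hab hv.1, ?_⟩
      have h1 : G v = v := (hker v).1 hv.2
      refine (hker _).2 ?_
      have h2 := LinearMap.congr_fun (act_EE (K := K) (Gel A p k l m) a b) v
      simp only [Module.End.mul_apply] at h2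
      rw [← hG, h1] at h2
      exact h2
    obtain ⟨v, hvQ, hv0, hHW, n, hn⟩ := exists_HW opp hgr hst hne
    obtain ⟨c, hc0, hc⟩ := exists_top opp hv0
    have hvP := mem_skhM.1 hvQ.1
    have hcodd : odd c = true := by
      by_contra h
      rw [Bool.not_eq_true] at h
      exact hc0 ((hvP c).2 h)
    have hM : comp c v ∈ MM A K r := (hvP c).1.1
    have h1 := skh_top hk hg r hH opp_inj (Or.inr rfl) hHW hn c hc0 hc hM
    rw [hcodd] at h1
    simp only [if_true] at h1
    rw [if_neg (ra_ne_rb hp).1.symm, zero_smul, ← hG, (hker v).1 hvQ.2] at h1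
    exact hc0 h1
  have hmem : G u ∈ Q := by
    refine ⟨mem_skhM.2 (V1Lm_poly r hu _), ?_⟩
    refine (hker _).2 ?_
    rw [hG, Gel_idem hg]
  rw [hQbot, Submodule.mem_bot] at hmem
  exact hmem

end Pool.PI34.SK

end

/-! ### part SKI2 -/
section

/-!
PI34, E-block for odd primes, row SKI2: the tensor square `M ⊗ M`.
-/

set_option linter.unusedVariables false
set_option linter.unusedSectionVars false

namespace Pool.PI34.SK

open Equiv Finset Polynomial
open Pool.PI34.Super (Lt odd Conv)

section square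

variable {k l m : ℕ} {A K : Type} [CommRing A] [Field K] [Algebra A K] {p : ℕ} [Fact p.Prime]
  [Algebra A ℚ] [Algebra A (ZMod p)] [PInt p A]

/-- the projection on `M ⊗ M` -/
noncomputable def z2 (A : Type) [CommRing A] {p : ℕ} (k l : ℕ) {m : ℕ} (r : Fin m → ZMod p) :
    MonoidAlgebra A (Perm (Fin (m + m))) :=
  pl A (phL m m) (zr A p k l m r) * pl A (phR m m) (zr A p k l m r)

/-- `M ⊗ M` -/
noncomputable def M2 (A K : Type) [CommRing A] [CommRing K] [Algebra A K] {p k l m : ℕ}
    (r : Fin m → ZMod p) : Submodule K (W K k l (Fin (m + m))) :=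
  LinearMap.range (act A K k l (Fin (m + m)) (z2 A k l r))

theorem z2_tens (r : Fin m → ZMod p) (f g : W K k l (Fin m)) :
    act A K k l _ (z2 A k l r) (tens f g)
      = tens (act A K k l _ (zr A p k l m r) f) (act A K k l _ (zr A p k l m r) g) := by
  unfold z2
  rw [map_mul, Module.End.mul_apply, act_plR, act_plL]

/-- `tens_span`, `z2_tens`, `zr_idem` -/
theorem z2_idem (hg : Good A p k l K) (r : Fin m → ZMod p) (u : W K k l (Fin (m + m))) :
    act A K k l _ (z2 A k l r) (act A K k l _ (z2 A k l r) u) = act A K k l _ (z2 A k l r) u := by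
  induction tens_span u using Submodule.span_induction with
  | mem x hx =>
    obtain ⟨f, g, rfl⟩ := hx
    rw [z2_tens, z2_tens, zr_idem hg, zr_idem hg]
  | zero => simp only [map_zero]
  | add x y _ _ hx hy => rw [map_add, map_add, hx, hy]
  | smul a x _ hx => rw [map_smul, map_smul, hx]

theorem mem_M2 (hg : Good A p k l K) (r : Fin m → ZMod p) (u : W K k l (Fin (m + m))) :
    u ∈ M2 A K r ↔ act A K k l _ (z2 A k l r) u = u := by
  constructor
  · rintro ⟨x, rfl⟩
    exact z2_idem hg r x
  · intro h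
    exact ⟨u, h⟩

theorem tens_mem_M2 (hg : Good A p k l K) (r : Fin m → ZMod p) {f g : W K k l (Fin m)}
    (hf : f ∈ MM A K r) (hg' : g ∈ MM A K r) : tens f g ∈ M2 A K r := by
  rw [mem_M2 hg, z2_tens, (mem_MM hg r f).1 hf, (mem_MM hg r g).1 hg']

theorem M2_EE (r : Fin m → ZMod p) (a b : Lt k l) {u : W K k l (Fin (m + m))}
    (hu : u ∈ M2 A K r) : EE a b u ∈ M2 A K r := by
  obtain ⟨x, rfl⟩ := hu
  exact ⟨EE a b x, LinearMap.congr_fun (act_EE (z2 A k l r) a b) x⟩

/-- `tens_span`, `z2_tens` -/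
theorem M2_le_span (r : Fin m → ZMod p) :
    M2 A K r ≤ Submodule.span K {x | ∃ f ∈ MM (k := k) (l := l) A K r,
      ∃ g ∈ MM (k := k) (l := l) A K r, x = tens f g} := by
  rintro _ ⟨u, rfl⟩
  induction tens_span u using Submodule.span_induction with
  | mem x hx =>
    obtain ⟨f, g, rfl⟩ := hx
    rw [z2_tens]
    exact Submodule.subset_span ⟨_, ⟨f, rfl⟩, _, ⟨g, rfl⟩, rfl⟩
  | zero => rw [map_zero]; exact Submodule.zero_mem _
  | add x y _ _ hx hy => rw [map_add]; exact Submodule.add_mem _ hx hy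
  | smul a x _ hx => rw [map_smul]; exact Submodule.smul_mem _ a hx

/-- the set of the `f ⊗ g` with `f ∈ L⁺`, `g ∈ L⁻` -/
def Xpm (A K : Type) [CommRing A] [CommRing K] [Algebra A K] {p k l m : ℕ} (r : Fin m → ZMod p) :
    Set (W K k l (Fin (m + m))) :=
  {x | ∃ f ∈ Lp (k := k) (l := l) A K r, ∃ g ∈ Lm (k := k) (l := l) A K r, x = tens f g}

/-- the set of the `f ⊗ g` with `f ∈ L⁻`, `g ∈ L⁺` -/
def Xmp (A K : Type) [CommRing A] [CommRing K] [Algebra A K] {p k l m : ℕ} (r : Fin m → ZMod p) :
    Set (W K k l (Fin (m + m))) :=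
  {x | ∃ f ∈ Lm (k := k) (l := l) A K r, ∃ g ∈ Lp (k := k) (l := l) A K r, x = tens f g}

/-- the common part of `M2_le_pm` and `M2_le_mp` -/
theorem M2_le_gen (r : Fin m → ZMod p) (La Lb : Submodule K (W K k l (Fin m)))
    (S1 : Set (Module.End K (W K k l (Fin m))))
    (h1 : MM A K r ≤ gen (S0 ∪ S1) La) (h2 : MM A K r ≤ gen Sall Lb)
    (h3 : ∀ a b, odd a = odd b → ∀ g ∈ Lb, EE a b g ∈ Lb)
    (h4 : ∀ T ∈ S1, ∃ a b, T = EE a b ∧ ∀ g ∈ Lb, EE a b g = 0) :
    M2 A K r ≤ gen Sall (Submodule.span K {x | ∃ f ∈ La, ∃ g ∈ Lb, x = tens f g}) := by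
  generalize hX : Submodule.span K {x : W K k l (Fin (m + m)) | ∃ f ∈ La, ∃ g ∈ Lb,
    x = tens f g} = X
  have hX' : ∀ f ∈ La, ∀ g ∈ Lb, tens f g ∈ X := fun f hf g hg => by
    rw [← hX]
    exact Submodule.subset_span ⟨f, hf, g, hg, rfl⟩
  have hNs : ∀ a b : Lt k l, ∀ v ∈ gen Sall X, EE a b v ∈ gen Sall X := by
    intro a b v hv
    have hS : (EE a b : Module.End K (W K k l (Fin (m + m)))) ∈
        (Sall : Set (Module.End K (W K k l (Fin (m + m))))) := ⟨a, b, rfl⟩
    exact gen_stable hS hv
  have hXN : X ≤ gen Sall X := le_gen _ _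
  generalize gen Sall X = N at hNs hXN ⊢
  let P1 : Submodule K (W K k l (Fin m)) :=
    { carrier := {u | ∀ g ∈ Lb, tens u g ∈ N}
      add_mem' := fun {x y} hx hy g hg => by
        rw [tens_add_left]; exact N.add_mem (hx g hg) (hy g hg)
      zero_mem' := fun g hg => by rw [tens_zero_left]; exact N.zero_mem
      smul_mem' := fun a x hx g hg => by
        rw [tens_smul_left]; exact N.smul_mem a (hx g hg) }
  have hP1 : MM A K r ≤ P1 := by
    refine h1.trans (gen_le ?_ ?_)
    · intro f hf g hg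
      exact hXN (hX' f hf g hg)
    · rintro T (⟨a, b, hab, rfl⟩ | hT) v hv g hg
      · have h := EE_tens a b v g
        rw [sg_same a b hab] at h
        have h' : tens (EE a b v) g = EE a b (tens v g) - tens v (EE a b g) := by
          rw [h, add_sub_cancel_right]
        rw [h']
        exact N.sub_mem (hNs a b _ (hv g hg)) (hv _ (h3 a b hab g hg))
      · obtain ⟨a, b, rfl, h0⟩ := h4 T hT
        have h := EE_tens a b v g
        rw [h0 g hg, tens_zero_right, add_zero] at h
        rw [← h]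
        exact hNs a b _ (hv g hg)
  let P2 : Submodule K (W K k l (Fin m)) :=
    { carrier := {t | ∀ u ∈ MM (k := k) (l := l) A K r, tens u t ∈ N}
      add_mem' := fun {x y} hx hy g hg => by
        rw [tens_add_right]; exact N.add_mem (hx g hg) (hy g hg)
      zero_mem' := fun g hg => by rw [tens_zero_right]; exact N.zero_mem
      smul_mem' := fun a x hx g hg => by
        rw [tens_smul_right]; exact N.smul_mem a (hx g hg) }
  have hP2 : MM A K r ≤ P2 := by
    refine h2.trans (gen_le ?_ ?_)
    · intro g hg u hu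
      exact hP1 hu g hg
    · rintro T ⟨a, b, rfl⟩ t ht u hu
      have h := EE_tens a b (sg a b u) t
      rw [sg_sg] at h
      have h' : tens u (EE a b t) = EE a b (tens (sg a b u) t) - tens (EE a b (sg a b u)) t := by
        rw [h, add_sub_cancel_left]
      have hu' := MM_sg r a b hu
      rw [h']
      exact N.sub_mem (hNs a b _ (ht _ hu')) (ht _ (MM_EE r a b hu'))
  refine (M2_le_span r).trans (Submodule.span_le.2 ?_)
  rintro _ ⟨f, hf, g, hg, rfl⟩
  exact hP2 hg f hf

theorem mem_Lp_EE (r : Fin m → ZMod p) {g : W K k l (Fin m)} (hg : g ∈ Lp A K r) (i : Fin k)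
    (j : Fin l) : EE (Sum.inl i) (Sum.inr j) g = 0 := by
  have h := (Submodule.mem_inf.1 hg).2
  rw [Submodule.mem_iInf] at h
  have h' := h i
  rw [Submodule.mem_iInf] at h'
  exact h' j

theorem mem_Lm_EE (r : Fin m → ZMod p) {g : W K k l (Fin m)} (hg : g ∈ Lm A K r) (i : Fin k)
    (j : Fin l) : EE (Sum.inr j) (Sum.inl i) g = 0 := by
  have h := (Submodule.mem_inf.1 hg).2
  rw [Submodule.mem_iInf] at h
  have h' := h i
  rw [Submodule.mem_iInf] at h'
  exact h' j

/-- PROOF.  Let `N` be the right side.  (1) `{u | ∀ g ∈ L⁻, tens u g ∈ N}` contains `L⁺` and is stable under `S0 ∪ Sdn`: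
`tens (EE a b u) g = EE a b (tens u g) - tens (sg a b u) (EE a b g)` (`EE_tens`); for `odd a = odd b`: `sg_same`, `Lm_g0`;
for `Sdn`: `EE a b g = 0` by the definition of `L⁻`.  So it contains `M` (`gen_Lp'`, `gen_le`).  (2) `{t | ∀ u ∈ M, tens u t ∈ N}`
contains `L⁻` by (1) and is stable under all `EE a b`: `tens u (EE a b t) = EE a b (tens u' t) - tens (EE a b u') t` with
`u' = sg a b u ∈ M` (`sg_sg`, `MM_sg`, `MM_EE`).  So it contains `M` (`gen_Lm`).  `M2_le_span`. -/
theorem M2_le_pm (hp : p ≠ 2) (hg : Good A p k l K) (r : Fin m → ZMod p) (hH : HH A K k l r) :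
    M2 A K r ≤ gen Sall (Submodule.span K (Xpm (k := k) (l := l) A K r)) := by
  refine M2_le_gen r (Lp A K r) (Lm A K r) Sdn (gen_Lp' hp hg r hH) (gen_Lm hp hg r hH)
    (fun a b hab g hg => Lm_g0 r hab hg) ?_
  rintro T ⟨i, j, rfl⟩
  exact ⟨_, _, rfl, fun g hg => mem_Lm_EE r hg i j⟩

/-- The same with the roles of `L⁺`, `L⁻` exchanged (`gen_Lm'`, `Lp_g0`, `Sup`, `gen_Lp`). -/
theorem M2_le_mp (hp : p ≠ 2) (hg : Good A p k l K) (r : Fin m → ZMod p) (hH : HH A K k l r) :
    M2 A K r ≤ gen Sall (Submodule.span K (Xmp (k := k) (l := l) A K r)) := by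
  refine M2_le_gen r (Lm A K r) (Lp A K r) Sup (gen_Lm' hp hg r hH) (gen_Lp hp hg r hH)
    (fun a b hab g hg => Lp_g0 r hab hg) ?_
  rintro T ⟨i, j, rfl⟩
  exact ⟨_, _, rfl, fun g hg => mem_Lp_EE r hg i j⟩

/-- `V ⊗ M ⊗ M` -/
def VM (A K : Type) [CommRing A] [CommRing K] [Algebra A K] {p k l m : ℕ} (r : Fin m → ZMod p) :
    Submodule K (W K k l (Fin (m + m + 1))) where
  carrier := {u | ∀ c, comp c u ∈ M2 A K r}
  add_mem' {x y} hx hy c := by rw [map_add]; exact add_mem (hx c) (hy c)
  zero_mem' c := by rw [map_zero]; exact zero_mem _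
  smul_mem' a x hx c := by rw [map_smul]; exact Submodule.smul_mem _ _ (hx c)

/-- `comp_EE`, `M2_EE` -/
theorem VM_EE (r : Fin m → ZMod p) (a b : Lt k l) {u : W K k l (Fin (m + m + 1))}
    (hu : u ∈ VM A K r) : EE a b u ∈ VM A K r := by
  intro c
  rw [comp_EE]
  refine add_mem ?_ (Submodule.smul_mem _ _ (M2_EE r a b (hu c)))
  split_ifs
  · exact hu b
  · exact zero_mem _

/-- Let `N` be stable under all `EE a b`, `X` a set with `M ⊗ M ≤ gen Sall (span X)` and `ins c x ∈ N` for all `c`, `x ∈ X`.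
Then `VM ≤ N`: the subspace `{x | ∀ c, ins c x ∈ N}` contains `X` and is stable under `EE a b` (`EE_ins`, multiply with
`eta a b c`); `sum_ins`. -/
theorem VM_le (r : Fin m → ZMod p) {X : Set (W K k l (Fin (m + m)))}
    (hX : M2 A K r ≤ gen Sall (Submodule.span K X)) {N : Submodule K (W K k l (Fin (m + m + 1)))}
    (hN : ∀ a b, ∀ v ∈ N, EE a b v ∈ N) (h : ∀ x ∈ X, ∀ c, ins c x ∈ N) : VM A K r ≤ N := by
  let P : Submodule K (W K k l (Fin (m + m))) :=
    { carrier := {x | ∀ c, ins c x ∈ N}
      add_mem' := fun {x y} hx hy c => by rw [map_add]; exact N.add_mem (hx c) (hy c)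
      zero_mem' := fun c => by rw [map_zero]; exact N.zero_mem
      smul_mem' := fun a x hx c => by rw [map_smul]; exact N.smul_mem a (hx c) }
  have hP : M2 A K r ≤ P := by
    refine hX.trans (gen_le (Submodule.span_le.2 fun x hx => h x hx) ?_)
    rintro T ⟨a, b, rfl⟩ x hx c
    have h1 := EE_ins a b c x
    have h2 : ins c (EE a b x) = (eta a b c : K) •
        (EE a b (ins c x) - (if b = c then ins a x else 0)) := by
      rw [h1, add_sub_cancel_left, smul_smul, eta_sq, one_smul]
    rw [h2]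
    refine N.smul_mem _ (N.sub_mem (hN a b _ (hx c)) ?_)
    split_ifs
    · exact hx a
    · exact N.zero_mem
  intro u hu
  rw [sum_ins u]
  exact N.sum_mem fun c _ => hP (hu c) c

end square

end Pool.PI34.SK

end

/-! ### part SKI3 -/
section

/-!
PI34, E-block for odd primes, row SKI3: the operator `G₁ + G₂ - 1` on `V ⊗ M ⊗ M`.
-/

set_option linter.unusedVariables false

namespace Pool.PI34.SK

open Equiv Finset Polynomial
open Pool.PI34.Super (Lt odd Conv)

section square

variable {k l m : ℕ} {A K : Type} [CommRing A] [Field K] [Algebra A K] {p : ℕ} [Fact p.Prime]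
  [Algebra A ℚ] [Algebra A (ZMod p)] [PInt p A]

/-- `G₁` -/
noncomputable def G1 (A : Type) [CommRing A] (p k l m : ℕ) :
    MonoidAlgebra A (Perm (Fin (m + m + 1))) :=
  aeval (XB A (Bl m m)) (gp A p k l m (ra p k l))

/-- `G₂` -/
noncomputable def G2 (A : Type) [CommRing A] (p k l m : ℕ) :
    MonoidAlgebra A (Perm (Fin (m + m + 1))) :=
  aeval (XB A (Br m m)) (gp A p k l m (ra p k l))

theorem SKI3_comp_ins {N : Submodule K (W K k l (Fin m))} {f : W K k l (Fin m)} (hf : f ∈ N)
    (c d : Lt k l) : comp d (ins c f) ∈ N := by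
  rw [comp_ins]
  split_ifs
  · exact hf
  · exact zero_mem _

theorem SKI3_even (hp : p ≠ 2) (hk : 0 < k + l) (hg : Good A p k l K) (r : Fin m → ZMod p)
    (hH : HH A K k l r) {f : W K k l (Fin m)} (hf : f ∈ Lp A K r) {c : Lt k l}
    (hc : odd c = false) : act A K k l _ (Gel A p k l m) (ins c f) = ins c f := by
  refine G_Lp hp hk hg r hH fun d => ⟨SKI3_comp_ins hf c d, fun hd => ?_⟩
  rw [comp_ins, if_neg]
  rintro rfl
  rw [hc] at hd
  exact absurd hd (by simp)

theorem SKI3_odd (hp : p ≠ 2) (hk : 0 < k + l) (hg : Good A p k l K) (r : Fin m → ZMod p)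
    (hH : HH A K k l r) {f : W K k l (Fin m)} (hf : f ∈ Lm A K r) {c : Lt k l}
    (hc : odd c = true) : act A K k l _ (Gel A p k l m) (ins c f) = 0 := by
  refine G_Lm hp hk hg r hH fun d => ⟨SKI3_comp_ins hf c d, fun hd => ?_⟩
  rw [comp_ins, if_neg]
  rintro rfl
  rw [hc] at hd
  exact absurd hd (by simp)

theorem SKI3_G1 (f g : W K k l (Fin m)) (c : Lt k l) :
    act A K k l _ (G1 A p k l m) (ins c (tens f g)) =
      TT g (act A K k l _ (Gel A p k l m) (ins c f)) := by
  rw [← TT_ins]
  exact TT_poly g _ _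

theorem SKI3_G2 (f g : W K k l (Fin m)) (c : Lt k l) :
    act A K k l _ (G2 A p k l m) (ins c (tens f g)) =
      TT' (sgc c f) (act A K k l _ (Gel A p k l m) (ins c g)) := by
  have h : ins c (tens f g) = TT' (sgc c f) (ins c g) := by rw [TT'_ins, sgc_sgc]
  rw [h]
  exact TT'_poly (sgc c f) _ _

theorem G1_even (hp : p ≠ 2) (hk : 0 < k + l) (hg : Good A p k l K) (r : Fin m → ZMod p)
    (hH : HH A K k l r) {f : W K k l (Fin m)} (hf : f ∈ Lp A K r) (g : W K k l (Fin m))
    {c : Lt k l} (hc : odd c = false) :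
    act A K k l _ (G1 A p k l m) (ins c (tens f g)) = ins c (tens f g) := by
  rw [SKI3_G1, SKI3_even hp hk hg r hH hf hc, TT_ins]

theorem G1_odd (hp : p ≠ 2) (hk : 0 < k + l) (hg : Good A p k l K) (r : Fin m → ZMod p)
    (hH : HH A K k l r) {f : W K k l (Fin m)} (hf : f ∈ Lm A K r) (g : W K k l (Fin m))
    {c : Lt k l} (hc : odd c = true) :
    act A K k l _ (G1 A p k l m) (ins c (tens f g)) = 0 := by
  rw [SKI3_G1, SKI3_odd hp hk hg r hH hf hc, map_zero]

/-- `ins c (tens f g) = TT' (sgc c f) (ins c g)` -/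
theorem G2_even (hp : p ≠ 2) (hk : 0 < k + l) (hg : Good A p k l K) (r : Fin m → ZMod p)
    (hH : HH A K k l r) (f : W K k l (Fin m)) {g : W K k l (Fin m)} (hg' : g ∈ Lp A K r)
    {c : Lt k l} (hc : odd c = false) :
    act A K k l _ (G2 A p k l m) (ins c (tens f g)) = ins c (tens f g) := by
  rw [SKI3_G2, SKI3_even hp hk hg r hH hg' hc, TT'_ins, sgc_sgc]

theorem G2_odd (hp : p ≠ 2) (hk : 0 < k + l) (hg : Good A p k l K) (r : Fin m → ZMod p)
    (hH : HH A K k l r) (f : W K k l (Fin m)) {g : W K k l (Fin m)} (hg' : g ∈ Lm A K r)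
    {c : Lt k l} (hc : odd c = true) :
    act A K k l _ (G2 A p k l m) (ins c (tens f g)) = 0 := by
  rw [SKI3_G2, SKI3_odd hp hk hg r hH hg' hc, map_zero]

/-- stability of `(VM ⊓ ker S) ⊔ (VM ⊓ ker T)` -/
theorem SKI3_stab (r : Fin m → ZMod p) {S T : Module.End K (W K k l (Fin (m + m + 1)))}
    (hS : ∀ a b v, S (EE a b v) = EE a b (S v)) (hT : ∀ a b v, T (EE a b v) = EE a b (T v)) :
    ∀ a b, ∀ v ∈ (VM A K r ⊓ LinearMap.ker S) ⊔ (VM A K r ⊓ LinearMap.ker T),
      EE a b v ∈ (VM A K r ⊓ LinearMap.ker S) ⊔ (VM A K r ⊓ LinearMap.ker T) := by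
  intro a b v hv
  obtain ⟨x, hx, y, hy, rfl⟩ := Submodule.mem_sup.1 hv
  rw [map_add]
  refine add_mem (Submodule.mem_sup_left ⟨VM_EE r a b hx.1, ?_⟩)
    (Submodule.mem_sup_right ⟨VM_EE r a b hy.1, ?_⟩)
  · have h1 : S x = 0 := hx.2
    change S (EE a b x) = 0
    rw [hS, h1, map_zero]
  · have h1 : T y = 0 := hy.2
    change T (EE a b y) = 0
    rw [hT, h1, map_zero]

theorem SKI3_act (y : MonoidAlgebra A (Perm (Fin (m + m + 1)))) (a b : Lt k l)
    (v : W K k l (Fin (m + m + 1))) :
    act A K k l _ y (EE a b v) = EE a b (act A K k l _ y v) :=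
  LinearMap.congr_fun (act_EE y a b) v

theorem SKI3_act1 (y : MonoidAlgebra A (Perm (Fin (m + m + 1)))) (a b : Lt k l)
    (v : W K k l (Fin (m + m + 1))) :
    (act A K k l _ y - 1) (EE a b v) = EE a b ((act A K k l _ y - 1) v) := by
  rw [LinearMap.sub_apply, LinearMap.sub_apply, map_sub, SKI3_act]
  rfl

theorem SKI3_ins_VM (hg : Good A p k l K) (r : Fin m → ZMod p) {f g : W K k l (Fin m)}
    (hf : f ∈ MM A K r) (hg' : g ∈ MM A K r) (c : Lt k l) : ins c (tens f g) ∈ VM A K r := by
  intro d
  rw [comp_ins]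
  split_ifs
  · exact tens_mem_M2 hg r hf hg'
  · exact zero_mem _

/-- `VM_le` with `X = Xpm`, `N = (VM ⊓ ker (G₁ - 1)) ⊔ (VM ⊓ ker G₂)` (`act_EE`). -/
theorem split_pm (hp : p ≠ 2) (hk : 0 < k + l) (hg : Good A p k l K) (r : Fin m → ZMod p)
    (hH : HH A K k l r) {u : W K k l (Fin (m + m + 1))} (hu : u ∈ VM A K r) :
    ∃ s ∈ VM A K r, ∃ s' ∈ VM A K r, u = s + s' ∧ act A K k l _ (G1 A p k l m) s = s ∧
      act A K k l _ (G2 A p k l m) s' = 0 := by
  have h1 := VM_le (N := (VM A K r ⊓ LinearMap.ker (act A K k l _ (G1 A p k l m) - 1)) ⊔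
    (VM A K r ⊓ LinearMap.ker (act A K k l _ (G2 A p k l m)))) r (M2_le_pm hp hg r hH)
    (SKI3_stab r (SKI3_act1 _) (SKI3_act _)) (by
      rintro x ⟨f, hf, g, hg', rfl⟩ c
      have hv := SKI3_ins_VM hg r hf.1 hg'.1 c
      cases hc : odd c with
      | false =>
        refine Submodule.mem_sup_left ⟨hv, ?_⟩
        change act A K k l _ (G1 A p k l m) (ins c (tens f g)) - ins c (tens f g) = 0
        rw [G1_even hp hk hg r hH hf g hc, sub_self]
      | true =>
        exact Submodule.mem_sup_right ⟨hv, G2_odd hp hk hg r hH f hg' hc⟩) hu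
  obtain ⟨s, hs, s', hs', rfl⟩ := Submodule.mem_sup.1 h1
  refine ⟨s, hs.1, s', hs'.1, rfl, ?_, hs'.2⟩
  have h2 : act A K k l _ (G1 A p k l m) s - s = 0 := hs.2
  exact sub_eq_zero.1 h2

/-- `VM_le` with `X = Xmp`, `N = (VM ⊓ ker G₁) ⊔ (VM ⊓ ker (G₂ - 1))`. -/
theorem split_mp (hp : p ≠ 2) (hk : 0 < k + l) (hg : Good A p k l K) (r : Fin m → ZMod p)
    (hH : HH A K k l r) {u : W K k l (Fin (m + m + 1))} (hu : u ∈ VM A K r) :
    ∃ s ∈ VM A K r, ∃ s' ∈ VM A K r, u = s + s' ∧ act A K k l _ (G1 A p k l m) s = 0 ∧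
      act A K k l _ (G2 A p k l m) s' = s' := by
  have h1 := VM_le (N := (VM A K r ⊓ LinearMap.ker (act A K k l _ (G1 A p k l m))) ⊔
    (VM A K r ⊓ LinearMap.ker (act A K k l _ (G2 A p k l m) - 1))) r (M2_le_mp hp hg r hH)
    (SKI3_stab r (SKI3_act _) (SKI3_act1 _)) (by
      rintro x ⟨f, hf, g, hg', rfl⟩ c
      have hv := SKI3_ins_VM hg r hf.1 hg'.1 c
      cases hc : odd c with
      | true =>
        exact Submodule.mem_sup_left ⟨hv, G1_odd hp hk hg r hH hf g hc⟩
      | false =>
        refine Submodule.mem_sup_right ⟨hv, ?_⟩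
        change act A K k l _ (G2 A p k l m) (ins c (tens f g)) - ins c (tens f g) = 0
        rw [G2_even hp hk hg r hH f hg' hc, sub_self]) hu
  obtain ⟨s, hs, s', hs', rfl⟩ := Submodule.mem_sup.1 h1
  refine ⟨s, hs.1, s', hs'.1, rfl, hs.2, ?_⟩
  have h2 : act A K k l _ (G2 A p k l m) s' - s' = 0 := hs'.2
  exact sub_eq_zero.1 h2

/-- `D = G₁ + G₂ - 1` is surjective on `VM`.  PROOF.  For `y ∈ VM`, `y = r + r'` by `split_mp`: `D r' = G₁ y`,
`D (-r) = (1 - G₂) y`.  So `G₁ y` and `(1 - G₂) y` are in `D VM` for all `y ∈ VM`.  `u = s + s'` by `split_pm`: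
`s = G₁ s`, `s' = (1 - G₂) s'`. -/
theorem D_surj (hp : p ≠ 2) (hk : 0 < k + l) (hg : Good A p k l K) (r : Fin m → ZMod p)
    (hH : HH A K k l r) {u : W K k l (Fin (m + m + 1))} (hu : u ∈ VM A K r) :
    ∃ x ∈ VM A K r, act A K k l _ (G1 A p k l m + G2 A p k l m - 1) x = u := by
  have hD : ∀ x, act A K k l _ (G1 A p k l m + G2 A p k l m - 1) x =
      act A K k l _ (G1 A p k l m) x + act A K k l _ (G2 A p k l m) x - x := by
    intro x
    rw [map_sub, map_add, map_one]
    rfl
  obtain ⟨s, hs, s', hs', rfl, h1, h2⟩ := split_pm hp hk hg r hH hu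
  obtain ⟨a, ha, a', ha', e, h3, h4⟩ := split_mp hp hk hg r hH hs
  obtain ⟨b, hb, b', hb', e', h5, h6⟩ := split_mp hp hk hg r hH hs'
  refine ⟨a' - b, sub_mem ha' hb, ?_⟩
  rw [map_sub, hD, hD, h4, h5]
  have h7 : act A K k l _ (G1 A p k l m) a' = s := by
    have h8 := h1
    rw [e, map_add, h3, zero_add] at h8
    rw [h8, e]
  have h9 : act A K k l _ (G2 A p k l m) b = - b' := by
    have h10 := h2
    rw [e', map_add, h6] at h10
    exact eq_neg_of_add_eq_zero_left h10
  rw [h7, h9, e']
  abel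

end square

end Pool.PI34.SK

end

/-! ### part SKJ2 -/
section

/-!
PI34, E-block for odd primes, row SKJ2: the catalyst.
-/

set_option linter.unusedVariables false

namespace Pool.PI34.SK

open Equiv Finset Polynomial
open Pool.PI34.Super (Lt odd)

section cat

variable {k l m : ℕ} {A : Type} [CommRing A] {p : ℕ} [Fact p.Prime]
  [Algebra A ℚ] [Algebra A (ZMod p)] [PInt p A]

/-- `Z` on the strands of the catalyst -/
noncomputable def ZZ (A : Type) [CommRing A] {p : ℕ} (k l : ℕ) {m : ℕ} (r : Fin m → ZMod p) :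
    MonoidAlgebra A (Perm (Fin (m + m + 1))) := pl A (phS (m + m)) (z2 A k l r)

/-- `d = (G₁ + G₂ - 1) Z + (1 - Z)` -/
noncomputable def dE (A : Type) [CommRing A] {p : ℕ} (k l : ℕ) {m : ℕ} (r : Fin m → ZMod p) :
    MonoidAlgebra A (Perm (Fin (m + m + 1))) :=
  (G1 A p k l m + G2 A p k l m - 1) * ZZ A k l r + (1 - ZZ A k l r)

/-- `comp_plS`, `mem_M2` -/
theorem ZZ_VM {K : Type} [Field K] [Algebra A K] (hg : Good A p k l K) (r : Fin m → ZMod p)
    (u : W K k l (Fin (m + m + 1))) : u ∈ VM A K r ↔ act A K k l _ (ZZ A k l r) u = u := by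
  unfold ZZ
  constructor
  · intro hu
    refine ext_comp (fun c => ?_)
    rw [comp_plS]
    exact (mem_M2 hg r _).1 (hu c)
  · intro hu c
    rw [mem_M2 hg, ← comp_plS, hu]

theorem J2_ZZ_mem {K : Type} [Field K] [Algebra A K] (hg : Good A p k l K) (r : Fin m → ZMod p)
    (u : W K k l (Fin (m + m + 1))) : act A K k l _ (ZZ A k l r) u ∈ VM A K r := by
  rw [ZZ_VM hg]
  unfold ZZ
  refine ext_comp (fun c => ?_)
  rw [comp_plS, comp_plS, z2_idem hg]

theorem J2_dE {K : Type} [Field K] [Algebra A K] (hg : Good A p k l K) (r : Fin m → ZMod p)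
    {u : W K k l (Fin (m + m + 1))} (hu : u ∈ VM A K r) :
    act A K k l _ (dE A k l r) u = act A K k l _ (G1 A p k l m + G2 A p k l m - 1) u := by
  have h := (ZZ_VM hg r u).1 hu
  unfold dE
  rw [map_add, map_mul, LinearMap.add_apply, Module.End.mul_apply, h, map_sub (act A K k l _) 1,
    map_one, LinearMap.sub_apply, h, Module.End.one_apply, sub_self, add_zero]

/-- `y = Z y + (1 - Z) y`; `Z y = D x` with `x ∈ VM` (`D_surj`), `d (x + (1 - Z) y) = y`. -/
theorem dE_surj {K : Type} [Field K] [Algebra A K] (hp : p ≠ 2) (hk : 0 < k + l)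
    (hg : Good A p k l K) (r : Fin m → ZMod p) (hH : HH A K k l r) :
    Function.Surjective (act A K k l (Fin (m + m + 1)) (dE A k l r)) := by
  intro y
  obtain ⟨x, hx, hxy⟩ := D_surj hp hk hg r hH (J2_ZZ_mem hg r y)
  refine ⟨x + (y - act A K k l _ (ZZ A k l r) y), ?_⟩
  have h1 : act A K k l _ (ZZ A k l r) (y - act A K k l _ (ZZ A k l r) y) = 0 := by
    rw [map_sub, (ZZ_VM hg r _).1 (J2_ZZ_mem hg r y), sub_self]
  rw [map_add, J2_dE hg r hx, hxy]
  unfold dE
  rw [map_add, map_mul, LinearMap.add_apply, Module.End.mul_apply, h1, map_zero,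
    map_sub (act A K k l _) 1, map_one, LinearMap.sub_apply, h1, Module.End.one_apply]
  simp

/-- the colour element -/
noncomputable def EA (A : Type) [CommRing A] {p : ℕ} (k l : ℕ) {m : ℕ} (r : Fin m → ZMod p)
    (q : A[X]) : MonoidAlgebra A (Perm (Fin (m + m + 1))) :=
  1 - aeval (dE A k l r) q * aeval (dE A k l r) q * (G1 A p k l m * G2 A p k l m)

/-- Over `ℚ`.  Odd letter: `G₂ = 0` on `ins c (f ⊗ g)`.  -/
theorem EA_odd (hp : p ≠ 2) (hk : 0 < k + l) (r : Fin m → ZMod p) (hH : HH A ℚ k l r)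
    {f g : W ℚ k l (Fin m)} (hf : f ∈ Lp A ℚ r) (hg : g ∈ Lm A ℚ r) {c : Lt k l}
    (hc : odd c = true) (q : A[X]) :
    act A ℚ k l _ (EA A k l r q) (ins c (tens f g)) = ins c (tens f g) := by
  have h := G2_odd hp hk (good_rat p A k l) r hH f hg hc
  unfold EA
  rw [map_sub, map_one, map_mul, map_mul (act A ℚ k l _) (G1 A p k l m), LinearMap.sub_apply,
    Module.End.mul_apply, Module.End.mul_apply, h, map_zero, map_zero, sub_zero,
    Module.End.one_apply]

theorem J2_sgc_even {K : Type} [Field K] {c : Lt k l} (hc : odd c = false)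
    (f : W K k l (Fin m)) : sgc c f = f := by
  funext w
  rw [sgc_apply, hc]
  simp

/-- Over `ℚ`.  Even letter: `x := ins c (f ⊗ g) ∈ VM`, `G₁ x = x`, `G₂ x ∈ VM` (`G₂ x = TT' f (G (ins c g))`, `comp_poly_MM`),
`G₂ G₂ x = G₂ x` (`Gel_idem`).  `d x = D x = G₂ x`, `d (G₂ x) = D G₂ x = G₁ G₂ x`, so `q(d) q(d) G₁ G₂ x = q(d) G₂ x = x`. -/
theorem EA_even (hp : p ≠ 2) (hk : 0 < k + l) (r : Fin m → ZMod p) (hH : HH A ℚ k l r)
    {f g : W ℚ k l (Fin m)} (hf : f ∈ Lp A ℚ r) (hg : g ∈ Lm A ℚ r) {c : Lt k l}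
    (hc : odd c = false) (q : A[X])
    (hq : ∀ u : W ℚ k l (Fin (m + m + 1)),
      act A ℚ k l _ (aeval (dE A k l r) q) (act A ℚ k l _ (dE A k l r) u) = u) :
    act A ℚ k l _ (EA A k l r q) (ins c (tens f g)) = 0 := by
  have hG := good_rat p A k l
  have h1 := G1_even hp hk hG r hH hf g hc
  set x : W ℚ k l (Fin (m + m + 1)) := ins c (tens f g) with hx
  have hxT : x = TT' f (ins c g) := by
    rw [TT'_ins, J2_sgc_even hc]
  have hy : act A ℚ k l _ (G2 A p k l m) x = TT' f (act A ℚ k l _ (Gel A p k l m) (ins c g)) := by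
    rw [hxT]
    exact TT'_poly f _ _
  have hyy : act A ℚ k l _ (G2 A p k l m) (act A ℚ k l _ (G2 A p k l m) x)
      = act A ℚ k l _ (G2 A p k l m) x := by
    rw [hy]
    refine (TT'_poly f _ _).trans ?_
    exact congrArg (TT' f) (Gel_idem hG (ins c g))
  have hxV : x ∈ VM A ℚ r := by
    intro c'
    rw [hx, comp_ins]
    split_ifs
    · exact tens_mem_M2 hG r hf.1 hg.1
    · exact zero_mem _
  have hyV : act A ℚ k l _ (G2 A p k l m) x ∈ VM A ℚ r := by
    intro c'
    have h2 : comp c' (act A ℚ k l _ (G2 A p k l m) x)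
        = tens (sgc c' f) (comp c' (act A ℚ k l _ (Gel A p k l m) (ins c g))) := by
      rw [hy]
      show comp c' (∑ c'', ins c'' (tens (sgc c'' f) (comp c'' (act A ℚ k l _ (Gel A p k l m)
        (ins c g))))) = _
      rw [map_sum, Finset.sum_eq_single c']
      · rw [comp_ins, if_pos rfl]
      · intro b _ hb
        rw [comp_ins, if_neg]
        first
          | exact hb
          | exact Ne.symm hb
      · intro h; exact absurd (Finset.mem_univ _) h
    rw [h2]
    refine tens_mem_M2 hG r ?_ ?_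
    · have h3 : sgc c' f = sg c c' f := by
        rw [← sg_sgc c c' f, J2_sgc_even hc]
      rw [h3]
      exact MM_sg r c c' hf.1
    · refine comp_poly_MM r (fun c'' => ?_) _ c'
      rw [comp_ins]
      split_ifs
      · exact hg.1
      · exact zero_mem _
  have hdx : act A ℚ k l _ (dE A k l r) x = act A ℚ k l _ (G2 A p k l m) x := by
    rw [J2_dE hG r hxV, map_sub, map_add, map_one, LinearMap.sub_apply, LinearMap.add_apply, h1,
      Module.End.one_apply]
    abel
  have hdy : act A ℚ k l _ (dE A k l r) (act A ℚ k l _ (G2 A p k l m) x)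
      = act A ℚ k l _ (G1 A p k l m) (act A ℚ k l _ (G2 A p k l m) x) := by
    rw [J2_dE hG r hyV, map_sub, map_add, map_one, LinearMap.sub_apply, LinearMap.add_apply, hyy,
      Module.End.one_apply]
    abel
  unfold EA
  rw [map_sub, map_one, map_mul, map_mul, map_mul, LinearMap.sub_apply,
    Module.End.mul_apply, Module.End.mul_apply, Module.End.mul_apply, ← hdy, ← hdx, hq, hq,
    Module.End.one_apply, sub_self]

/-- If `M_r ≠ 0` over `ℚ` then `L⁺ ≠ 0` and `L⁻ ≠ 0` (`gen_Lp`, `gen_Lm`: `gen Sall ⊥ = ⊥`), so `Xpm` has a nonzero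
element. -/
theorem Xpm_ne (hp : p ≠ 2) (r : Fin m → ZMod p) (hH : HH A ℚ k l r)
    {ξ : W ℚ k l (Fin m)} (h0 : ξ ≠ 0) (h1 : ξ ∈ MM A ℚ r) :
    ∃ x ∈ Xpm (k := k) (l := l) A ℚ r, x ≠ 0 := by
  have hG := good_rat p A k l
  have key : ∀ X : Submodule ℚ (W ℚ k l (Fin m)), MM A ℚ r ≤ gen Sall X → ∃ f ∈ X, f ≠ 0 := by
    intro X hX
    by_contra hne
    push Not at hne
    apply h0
    have h2 : gen Sall X ≤ ⊥ := by
      refine gen_le (fun x hx => ?_) ?_
      · rw [hne x hx]; exact zero_mem _
      · intro T _ v hv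
        rw [(Submodule.mem_bot ℚ).1 hv, map_zero]
        exact zero_mem _
    exact (Submodule.mem_bot ℚ).1 (h2 (hX h1))
  obtain ⟨f, hf, hf0⟩ := key _ (gen_Lp hp hG r hH)
  obtain ⟨g, hg, hg0⟩ := key _ (gen_Lm hp hG r hH)
  refine ⟨tens f g, ⟨f, hf, g, hg, rfl⟩, ?_⟩
  obtain ⟨w, hw⟩ : ∃ w, f w ≠ 0 := by
    by_contra h
    push Not at h
    exact hf0 (funext h)
  obtain ⟨w', hw'⟩ : ∃ w, g w ≠ 0 := by
    by_contra h
    push Not at h
    exact hg0 (funext h)
  intro h
  have h3 := congrFun h (Fin.append w w')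
  rw [tens_apply] at h3
  have e1 : (Fin.append w w') ∘ Fin.castAdd m = w := by
    funext i; simp
  have e2 : (Fin.append w w') ∘ Fin.natAdd m = w' := by
    funext i
    exact Fin.append_right w w' i
  simp only [Function.comp_def] at e1 e2 h3
  rw [e1, e2] at h3
  exact mul_ne_zero hw hw' h3

/-- The catalyst.  `Ξ = Xpm`, `z = z2`, `E = EA q` with `q` from `lift_inv` and `dE_surj` over `ZMod p`. -/
theorem catP_of (hp : p ≠ 2) (hk : 0 < k + l) (r : Fin m → ZMod p)
    (hH : HH A ℚ k l r) (hH' : HH A (ZMod p) k l r)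
    {ξ : W ℚ k l (Fin m)} (h0 : ξ ≠ 0) (h1 : ξ ∈ MM A ℚ r) :
    ∃ (C : CatP k l (m + m)) (z : MonoidAlgebra A (Perm (Fin (m + m))))
      (E : MonoidAlgebra A (Perm (Fin (m + m + 1)))),
      C.z = MonoidAlgebra.mapRingHom _ (algebraMap A ℚ) z ∧
      C.E = MonoidAlgebra.mapRingHom _ (algebraMap A ℚ) E := by
  obtain ⟨q, hq⟩ := lift_inv (p := p) (dE A k l r)
    (dE_surj hp hk (good_mod p A k l) r hH')
  refine ⟨⟨Xpm (k := k) (l := l) A ℚ r, MonoidAlgebra.mapRingHom _ (algebraMap A ℚ) (z2 A k l r),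
    MonoidAlgebra.mapRingHom _ (algebraMap A ℚ) (EA A k l r q), Xpm_ne hp r hH h0 h1, ?_, ?_, ?_⟩,
    _, _, rfl, rfl⟩
  · rintro x ⟨f, hf, g, hg, rfl⟩
    rw [act_map]
    exact (mem_M2 (good_rat p A k l) r _).1 (tens_mem_M2 (good_rat p A k l) r hf.1 hg.1)
  · intro f
    rw [act_map]
    exact M2_le_pm hp (good_rat p A k l) r hH ⟨f, rfl⟩
  · rintro x ⟨f, hf, g, hg, rfl⟩ c
    rw [act_map]
    by_cases hc : odd c = true
    · rw [if_pos hc, one_smul]
      exact EA_odd hp hk r hH hf hg hc q
    · rw [if_neg hc, zero_smul]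
      exact EA_even hp hk r hH hf hg (by simpa using hc) q hq

end cat

end Pool.PI34.SK

end

/-! ### part SKL -/
section

/-!
PI34, E-block for odd primes, file SKL: assembly: for every odd prime `p` there is a catalyst with coefficients in the ring `A`
of the `p`-integral rational numbers.
-/

set_option linter.unusedVariables false

namespace Pool.PI34.SK

open Equiv Finset
open Pool.PI34.Super (Lt odd)

variable {k l : ℕ}

/-- the supremum of the `Ux ξ` is stable -/
theorem iSup_Ux_stable {m : ℕ} (Xi : Set (W ℚ k l (Fin m))) (a b : Lt k l)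
    {v : W ℚ k l (Fin m)} (hv : v ∈ ⨆ ξ ∈ Xi, Pool.PI34.Super.Ux ξ) :
    EE a b v ∈ ⨆ ξ ∈ Xi, Pool.PI34.Super.Ux ξ := by
  have h : (⨆ ξ ∈ Xi, Pool.PI34.Super.Ux (k := k) (l := l) ξ)
      ≤ (⨆ ξ ∈ Xi, Pool.PI34.Super.Ux (k := k) (l := l) ξ).comap (EE a b) := by
    refine iSup₂_le (fun ξ hξ w hw => ?_)
    rw [Submodule.mem_comap]
    have h2 : Pool.PI34.Super.Ux (k := k) (l := l) ξ ≤ ⨆ ξ ∈ Xi, Pool.PI34.Super.Ux ξ :=
      le_iSup₂_of_le ξ hξ le_rfl
    exact h2 (Pool.PI34.Super.Ux_stable hw a b)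
  exact h hv

/-- translation to the structure of `Super9` -/
noncomputable def toSuper {m : ℕ} (C : CatP k l m) : Pool.PI34.Super.CatP k l m :=
  { Xi := C.Ξ
    z := C.z
    E := C.E
    hz1 := C.hz1
    hz2 := by
      intro f
      have h1 := C.hz2 f
      have h2 : gen Sall (Submodule.span ℚ C.Ξ)
          ≤ ⨆ ξ ∈ C.Ξ, Pool.PI34.Super.Ux (k := k) (l := l) ξ := by
        refine gen_le ?_ ?_
        · refine Submodule.span_le.2 (fun ξ hξ => ?_)
          have h3 : Pool.PI34.Super.Ux (k := k) (l := l) ξ ≤ ⨆ ξ ∈ C.Ξ, Pool.PI34.Super.Ux ξ :=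
            le_iSup₂_of_le ξ hξ le_rfl
          exact h3 (Pool.PI34.Super.mem_Ux ξ)
        · rintro T ⟨a, b, rfl⟩ v hv
          exact iSup_Ux_stable C.Ξ a b hv
      exact h2 h1
    hE := by
      intro ξ hξ c
      have h := C.hE ξ hξ c
      have e : Pool.PI34.Super.ins c ξ = ins c ξ := by
        funext w
        rfl
      rw [e]
      exact h
    hne := C.hne }

/-- the case without letters -/
theorem catP_triv (hk : k + l = 0) (A : Type) [CommRing A] [Algebra A ℚ] :
    ∃ (m : ℕ) (C : Pool.PI34.Super.CatP k l m) (z : MonoidAlgebra A (Perm (Fin m)))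
      (E : MonoidAlgebra A (Perm (Fin (m + 1)))),
      C.z = MonoidAlgebra.mapRingHom _ (algebraMap A ℚ) z ∧
      C.E = MonoidAlgebra.mapRingHom _ (algebraMap A ℚ) E := by
  have he : IsEmpty (Lt k l) := by
    constructor
    rintro (i | i)
    · have := i.2; omega
    · have := i.2; omega
  refine ⟨0, ⟨{fun _ => 1}, 1, 1, ?_, ?_, ?_, ⟨fun _ => 1, rfl, ?_⟩⟩, 1, 1, ?_, ?_⟩
  · intro ξ _
    rw [map_one]
    rfl
  · intro f
    rw [map_one, Module.End.one_apply]
    have h : f = f (fun i => i.elim0) • (fun _ => 1 : Pool.PI34.Super.W k l (Fin 0)) := by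
      funext w
      rw [Pi.smul_apply, smul_eq_mul, mul_one]
      congr 1
      funext i
      exact i.elim0
    rw [h]
    refine Submodule.smul_mem _ _ ?_
    have h3 : Pool.PI34.Super.Ux (k := k) (l := l) (m := 0) (fun _ => 1)
        ≤ ⨆ ξ ∈ ({fun _ => 1} : Set (Pool.PI34.Super.W k l (Fin 0))), Pool.PI34.Super.Ux ξ :=
      le_iSup₂_of_le _ rfl le_rfl
    exact h3 (Pool.PI34.Super.mem_Ux _)
  · intro ξ _ c
    exact he.elim c
  · intro h
    have := congrFun h (fun i => i.elim0)
    simp at this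
  · exact (map_one _).symm
  · exact (map_one _).symm

/-- THE CATALYST for an odd prime `p`, with coefficients in the ring of the `p`-integral rationals. -/
theorem exists_catP {p : ℕ} [Fact p.Prime] (hp : p ≠ 2) (A : Type) [CommRing A] [Algebra A ℚ]
    [Algebra A (ZMod p)] [PInt p A] (k l : ℕ) :
    ∃ (m : ℕ) (C : Pool.PI34.Super.CatP k l m) (z : MonoidAlgebra A (Perm (Fin m)))
      (E : MonoidAlgebra A (Perm (Fin (m + 1)))),
      C.z = MonoidAlgebra.mapRingHom _ (algebraMap A ℚ) z ∧
      C.E = MonoidAlgebra.mapRingHom _ (algebraMap A ℚ) E := by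
  rcases Nat.eq_zero_or_pos (k + l) with hk | hk
  · exact catP_triv hk A
  obtain ⟨m, r, ξ, h0, h1, h2, h3⟩ := exists_r (p := p) A k l
  have hH : HH A ℚ k l r := HH_of hp hk (good_rat p A k l) r h0 h1 h2 h3
  have hH' : HH A (ZMod p) k l r := HH_of hp hk (good_mod p A k l) r h0 h1 h2 h3
  obtain ⟨C, z, E, hz, hE⟩ := catP_of hp hk r hH hH' h0 ⟨ξ, h1⟩
  exact ⟨m + m, toSuper C, z, E, hz, hE⟩

/-- the ring of the `p`-integral rational numbers -/
def Zp (p : ℕ) [Fact p.Prime] : Subring ℚ where
  carrier := {q | ¬ p ∣ q.den}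
  mul_mem' := by
    intro a b ha hb h
    have h1 : p ∣ a.den * b.den := h.trans (Rat.mul_den_dvd a b)
    rcases (Nat.Prime.dvd_mul (Fact.out : p.Prime)).1 h1 with h2 | h2
    · exact ha h2
    · exact hb h2
  one_mem' := by
    intro h
    exact (Fact.out : p.Prime).one_lt.ne' (Nat.dvd_one.1 h)
  add_mem' := by
    intro a b ha hb h
    have h1 : p ∣ a.den * b.den := h.trans (Rat.add_den_dvd a b)
    rcases (Nat.Prime.dvd_mul (Fact.out : p.Prime)).1 h1 with h2 | h2
    · exact ha h2
    · exact hb h2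
  zero_mem' := by
    intro h
    exact (Fact.out : p.Prime).one_lt.ne' (Nat.dvd_one.1 h)
  neg_mem' := by
    intro a ha h
    rw [Rat.neg_den] at h
    exact ha h

theorem Zp_den {p : ℕ} [Fact p.Prime] (q : Zp p) : ((q.1.den : ℕ) : ZMod p) ≠ 0 := by
  intro h
  exact q.2 ((ZMod.natCast_eq_zero_iff _ _).1 h)

/-- the reduction mod `p` -/
noncomputable def Zp_red (p : ℕ) [Fact p.Prime] : Zp p →+* ZMod p where
  toFun q := ((q.1 : ℚ) : ZMod p)
  map_one' := by
    change ((1 : ℚ) : ZMod p) = 1
    exact Rat.cast_one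
  map_zero' := by
    change ((0 : ℚ) : ZMod p) = 0
    exact Rat.cast_zero
  map_mul' a b := Rat.cast_mul_of_ne_zero (Zp_den a) (Zp_den b)
  map_add' a b := Rat.cast_add_of_ne_zero (Zp_den a) (Zp_den b)

noncomputable instance (p : ℕ) [Fact p.Prime] : Algebra (Zp p) (ZMod p) := (Zp_red p).toAlgebra

theorem Zp_alg (p : ℕ) [Fact p.Prime] (q : Zp p) :
    algebraMap (Zp p) (ZMod p) q = ((q.1 : ℚ) : ZMod p) := rfl

instance (p : ℕ) [Fact p.Prime] : PInt p (Zp p) where
  inj := Subtype.val_injective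
  unit := by
    intro a ha
    rw [Zp_alg] at ha
    have hn : ¬ (p : ℤ) ∣ a.1.num := by
      intro h
      apply ha
      rw [Rat.cast_def, (ZMod.intCast_zmod_eq_zero_iff_dvd _ _).2 h, zero_div]
    have h0 : a.1 ≠ 0 := by
      intro h
      apply hn
      rw [h]
      simp
    have hm : a.1⁻¹ ∈ Zp p := by
      change ¬ p ∣ (a.1⁻¹).den
      rw [Rat.den_inv_of_ne_zero h0]
      intro h
      exact hn (Int.natCast_dvd.2 h)
    refine IsUnit.of_mul_eq_one ⟨a.1⁻¹, hm⟩ ?_
    exact Subtype.ext (mul_inv_cancel₀ h0)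

/-- THE CATALYST for an odd prime `p`, with coefficients in `Zp p`. -/
theorem exists_catP_Zp (p : ℕ) [Fact p.Prime] (hp : p ≠ 2) (k l : ℕ) :
    ∃ (m : ℕ) (C : Pool.PI34.Super.CatP k l m) (z : MonoidAlgebra (Zp p) (Perm (Fin m)))
      (E : MonoidAlgebra (Zp p) (Perm (Fin (m + 1)))),
      C.z = MonoidAlgebra.mapRingHom _ (algebraMap (Zp p) ℚ) z ∧
      C.E = MonoidAlgebra.mapRingHom _ (algebraMap (Zp p) ℚ) E :=
  exists_catP hp (Zp p) k l

end Pool.PI34.SK

end
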