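import Mathlib
import Pool.Agent.LibPI54.M04
import Pool.Agent.LibPI54.M05

/-! ### part SG_Abs -/
section

/-!
PI34, block SG, file 5: the degenerate affine Hecke algebra in characteristic two (words of residues).
-/

set_option autoImplicit false

namespace Pool.PI34.SG

section frob

variable {H : Type} [Ring H]

theorem two_mul_zero (h2 : (2 : H) = 0) (a : H) : a + a = 0 := by
  rw [← two_mul, h2, zero_mul]

theorem eq_of_add_zero (h2 : (2 : H) = 0) {a b : H} (h : a + b = 0) : a = b := by
  have h1 : a + b + b = b := by rw [h, zero_add]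
  rw [add_assoc, two_mul_zero h2, add_zero] at h1
  exact h1

theorem frob (h2 : (2 : H) = 0) {a b : H} (hab : Commute a b) (r : ℕ) :
    (a + b) ^ (2 ^ r) = a ^ (2 ^ r) + b ^ (2 ^ r) := by
  induction r with
  | zero => simp
  | succ r ih =>
    have hc : Commute (a ^ (2 ^ r)) (b ^ (2 ^ r)) := hab.pow_pow _ _
    rw [pow_succ, pow_mul, ih, pow_mul, pow_mul, sq, sq, sq, mul_add, add_mul, add_mul, hc.eq]
    have := two_mul_zero h2 (b ^ 2 ^ r * a ^ 2 ^ r)
    calc _ = a ^ 2 ^ r * a ^ 2 ^ r + (b ^ 2 ^ r * a ^ 2 ^ r + b ^ 2 ^ r * a ^ 2 ^ r) +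
          b ^ 2 ^ r * b ^ 2 ^ r := by abel
      _ = _ := by rw [this, add_zero]

theorem frob1 (h2 : (2 : H) = 0) (b : H) (r : ℕ) : (1 + b) ^ (2 ^ r) = 1 + b ^ (2 ^ r) := by
  rw [frob h2 (Commute.one_left b), one_pow]

end frob

/-- the relations -/
structure Aff {H : Type} [Ring H] (e r : ℕ) (y s : ℕ → H) : Prop where
  two : (2 : H) = 0
  yy : ∀ a b, Commute (y a) (y b)
  sy : ∀ a, a + 1 < e → s a * y a = y (a + 1) * s a + 1
  sy' : ∀ a, a + 1 < e → s a * y (a + 1) = y a * s a + 1
  sc : ∀ a b, a + 1 < e → b < e → b ≠ a → b ≠ a + 1 → Commute (s a) (y b)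
  hn : ∀ a < e, (y a * (1 + y a)) ^ (2 ^ r) = 0

section words

variable {H : Type} [Ring H] {e r : ℕ} {y s : ℕ → H}

/-- the words `0 .. 0 1` -/
def Ew (r : ℕ) (y : ℕ → H) (a : ℕ) (w : H) : Prop :=
  (∀ b < a, y b ^ (2 ^ r) * w = 0) ∧ (1 + y a) ^ (2 ^ r) * w = 0

theorem Ew.mul {a : ℕ} {w x : H} (hw : Ew r y a w) (hx : ∀ b, Commute (y b) x) :
    Ew r y a (x * w) := by
  refine ⟨fun b hb => ?_, ?_⟩
  · rw [← mul_assoc, ((hx b).pow_left _).eq, mul_assoc, hw.1 b hb, mul_zero]
  · have : Commute ((1 + y a) ^ (2 ^ r)) x := ((Commute.one_left x).add_left (hx a)).pow_left _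
    rw [← mul_assoc, this.eq, mul_assoc, hw.2, mul_zero]

theorem Ew.add {a : ℕ} {w x : H} (hw : Ew r y a w) (hx : Ew r y a x) : Ew r y a (w + x) := by
  refine ⟨fun b hb => ?_, ?_⟩
  · rw [mul_add, hw.1 b hb, hx.1 b hb, add_zero]
  · rw [mul_add, hw.2, hx.2, add_zero]

namespace Aff

variable (A : Aff e r y s)
include A

theorem sum_comm {a : ℕ} (ha : a + 1 < e) : Commute (s a) (y a + y (a + 1)) := by
  unfold Commute SemiconjBy
  rw [mul_add, A.sy a ha, A.sy' a ha, add_mul]
  have := two_mul_zero A.two (1 : H)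
  calc _ = y a * s a + y (a + 1) * s a + (1 + 1) := by abel
    _ = _ := by rw [this, add_zero]

theorem prod_comm {a : ℕ} (ha : a + 1 < e) : Commute (s a) (y a * y (a + 1)) := by
  unfold Commute SemiconjBy
  rw [← mul_assoc, A.sy a ha, add_mul, one_mul, mul_assoc, A.sy' a ha, mul_add, mul_one, ← mul_assoc,
    (A.yy (a + 1) a).eq, add_assoc, two_mul_zero A.two, add_zero]

theorem P_comm {a : ℕ} (ha : a + 1 < e) : Commute (s a) ((1 + y a) * (1 + y (a + 1))) := by
  have : (1 + y a) * (1 + y (a + 1)) = 1 + (y a + y (a + 1)) + y a * y (a + 1) := by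
    rw [mul_add, add_mul, add_mul]
    simp only [one_mul, mul_one]
    abel
  rw [this]
  exact ((Commute.one_right _).add_right (A.sum_comm ha)).add_right (A.prod_comm ha)

theorem y1y (a b : ℕ) : Commute (y a) (1 + y b) := (Commute.one_right _).add_right (A.yy a b)

theorem y1y1 (a b : ℕ) : Commute (1 + y a) (1 + y b) :=
  (Commute.one_left _).add_left (A.y1y a b)

theorem hn' {a : ℕ} (ha : a < e) : y a ^ (2 ^ r) * (1 + y a) ^ (2 ^ r) = 0 := by
  rw [← (A.y1y a a).mul_pow]
  exact A.hn a ha

/-- pairs of nilpotent words are stable under the transposition -/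
theorem pair {a : ℕ} (ha : a + 1 < e) {w : H} (h0 : y a ^ (2 ^ r) * w = 0)
    (h1 : y (a + 1) ^ (2 ^ r) * w = 0) :
    y a ^ (2 ^ r) * (s a * w) = 0 ∧ y (a + 1) ^ (2 ^ r) * (s a * w) = 0 := by
  set p : H := ((1 + y a) * (1 + y (a + 1))) ^ (2 ^ r) with hp
  have hpw : p * w = w := by
    rw [hp, (A.y1y1 a (a + 1)).mul_pow, mul_assoc, frob1 A.two (y (a + 1)), add_mul, one_mul, h1,
      add_zero, frob1 A.two, add_mul, one_mul, h0, add_zero]
  have hsp : Commute (s a) p := (A.P_comm ha).pow_right _
  have h2 : s a * w = p * (s a * w) := by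
    rw [← mul_assoc, ← hsp.eq, mul_assoc, hpw]
  have hp1 : y a ^ (2 ^ r) * p = 0 := by
    rw [hp, (A.y1y1 a (a + 1)).mul_pow, ← mul_assoc, A.hn' (by omega), zero_mul]
  have hp2 : y (a + 1) ^ (2 ^ r) * p = 0 := by
    rw [hp, (A.y1y1 a (a + 1)).eq, (A.y1y1 (a + 1) a).mul_pow, ← mul_assoc, A.hn' ha, zero_mul]
  constructor
  · rw [h2, ← mul_assoc, hp1, zero_mul]
  · rw [h2, ← mul_assoc, hp2, zero_mul]

/-- **the words `0 .. 0 1`** -/
theorem claimC (R : AddSubgroup H) (hs : ∀ a, a + 1 < e → ∀ u, u + s a * u ∈ R)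
    (h2 : 1 < e → ∀ u, y 1 ^ (2 ^ r) * u ∈ R) :
    ∀ a, a + 1 < e → ∀ w, Ew r y (a + 1) w → w ∈ R := by
  intro a
  induction a with
  | zero =>
    intro ha w hw
    have h1 := hw.2
    rw [zero_add, frob1 A.two, add_mul, one_mul] at h1
    rw [eq_of_add_zero A.two h1]
    exact h2 ha w
  | succ a ih =>
    intro ha
    have ih' := ih (by omega)
    -- the intertwiner
    obtain ⟨φ, hφ⟩ : ∃ φ : H, φ = s (a + 1) * (y (a + 1) + y (a + 2)) + 1 := ⟨_, rfl⟩
    have hφ1 : φ * y (a + 2) = y (a + 1) * φ := by
      rw [hφ, add_mul, one_mul, mul_assoc,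
        (((A.yy (a + 1) (a + 2)).add_left (Commute.refl _))).eq, ← mul_assoc,
        A.sy' (a + 1) ha, add_mul, one_mul, mul_add (y (a + 1)), mul_one, mul_assoc]
      have := two_mul_zero A.two (y (a + 2))
      calc _ = y (a + 1) * (s (a + 1) * (y (a + 1) + y (a + 2))) + y (a + 1) +
            (y (a + 2) + y (a + 2)) := by abel
        _ = _ := by rw [this, add_zero]
    have hφ2 : ∀ b, b < a + 1 → Commute φ (y b) := by
      intro b hb
      rw [hφ]
      exact ((A.sc (a + 1) b ha (by omega) (by omega) (by omega)).mul_left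
        ((A.yy _ _).add_left (A.yy _ _))).add_left (Commute.one_left _)
    have hφE : ∀ w, Ew r y (a + 2) w → φ * w ∈ R := by
      intro w hw
      apply ih'
      refine ⟨fun b hb => ?_, ?_⟩
      · rw [← mul_assoc, ((hφ2 b hb).symm.pow_left _).eq, mul_assoc, hw.1 b (by omega), mul_zero]
      · have h3 : SemiconjBy φ (1 + y (a + 2)) (1 + y (a + 1)) := by
          unfold SemiconjBy
          rw [mul_add, add_mul, hφ1, mul_one, one_mul]
        have h4 := (h3.pow_right (2 ^ r)).eq
        rw [← mul_assoc, ← h4, mul_assoc, hw.2, mul_zero]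
    have hstar : ∀ w, Ew r y (a + 2) w → (y (a + 1) + y (a + 2)) * w + w ∈ R := by
      intro w hw
      have h3 := R.add_mem (hφE w hw) (hs (a + 1) ha ((y (a + 1) + y (a + 2)) * w))
      rw [hφ, add_mul, one_mul, mul_assoc] at h3
      have h4 := two_mul_zero A.two (s (a + 1) * ((y (a + 1) + y (a + 2)) * w))
      have h5 : s (a + 1) * ((y (a + 1) + y (a + 2)) * w) + w +
          ((y (a + 1) + y (a + 2)) * w + s (a + 1) * ((y (a + 1) + y (a + 2)) * w)) =
          (y (a + 1) + y (a + 2)) * w + w + (s (a + 1) * ((y (a + 1) + y (a + 2)) * w) +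
            s (a + 1) * ((y (a + 1) + y (a + 2)) * w)) := by abel
      rw [h5, h4, add_zero] at h3
      exact h3
    have ha' : a + 1 < e := by omega
    have hsE : ∀ w, Ew r y (a + 2) w → Ew r y (a + 2) (s a * w) := by
      intro w hw
      have h3 := A.pair ha' (hw.1 a (by omega)) (hw.1 (a + 1) (by omega))
      refine ⟨fun b hb => ?_, ?_⟩
      · rcases eq_or_ne b a with rfl | hb1
        · exact h3.1
        · rcases eq_or_ne b (a + 1) with rfl | hb2
          · exact h3.2
          · rw [← mul_assoc, ((A.sc a b ha' (by omega) hb1 hb2).symm.pow_left _).eq, mul_assoc,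
              hw.1 b hb, mul_zero]
      · have h4 : Commute ((1 + y (a + 2)) ^ (2 ^ r)) (s a) :=
          ((Commute.one_left _).add_left
            (A.sc a (a + 2) ha' ha (by omega) (by omega)).symm).pow_left _
        rw [← mul_assoc, h4.eq, mul_assoc, hw.2, mul_zero]
    have hstar2 : ∀ w, Ew r y (a + 2) w → (1 + (y (a + 1) + y a)) * w ∈ R := by
      intro w hw
      have h3 := hstar _ (hw.add (hsE w hw))
      -- y (a+2) (1 + s) w
      have h4 : y (a + 2) * (w + s a * w) ∈ R := by
        have h5 := hs a ha' (y (a + 2) * w)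
        rw [← mul_assoc, (A.sc a (a + 2) ha' ha (by omega) (by omega)).eq, mul_assoc,
          ← mul_add] at h5
        exact h5
      have h5 := hs a ha' w
      have h6 := hs a ha' (y a * w)
      rw [← mul_assoc, A.sy a ha', add_mul, one_mul, mul_assoc] at h6
      have h7 := R.add_mem (R.add_mem (R.add_mem h3 h4) h5) h6
      have e1 := two_mul_zero A.two (y (a + 2) * (w + s a * w))
      have e2 := two_mul_zero A.two (w + s a * w)
      have e3 := two_mul_zero A.two (y (a + 1) * (s a * w))
      have h8 : (y (a + 1) + y (a + 2)) * (w + s a * w) + (w + s a * w) +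
          y (a + 2) * (w + s a * w) + (w + s a * w) +
          (y a * w + (y (a + 1) * (s a * w) + w)) =
          (1 + (y (a + 1) + y a)) * w + (y (a + 2) * (w + s a * w) + y (a + 2) * (w + s a * w)) +
            ((w + s a * w) + (w + s a * w)) +
            (y (a + 1) * (s a * w) + y (a + 1) * (s a * w)) := by
        simp only [add_mul, mul_add, one_mul]
        abel
      rw [h8, e1, e2, e3, add_zero, add_zero, add_zero] at h7
      exact h7
    intro w hw
    have hν : ∀ b, Commute (y b) (1 + (y (a + 1) + y a)) := fun b =>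
      (Commute.one_right _).add_right ((A.yy _ _).add_right (A.yy _ _))
    have h3 : w = (1 + (y (a + 1) + y a)) ^ (2 ^ r) * w := by
      rw [frob1 A.two, frob A.two (A.yy _ _), add_mul, add_mul, one_mul, hw.1 (a + 1) (by omega),
        hw.1 a (by omega), add_zero, add_zero]
    have h4 : 2 ^ r = (2 ^ r - 1) + 1 := by
      have := Nat.two_pow_pos r
      omega
    rw [h4, pow_succ', mul_assoc] at h3
    rw [h3]
    exact hstar2 _ (hw.mul fun b => (hν b).pow_right _)

omit A in
/-- the nilpotent words -/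
def Ek (r : ℕ) (y : ℕ → H) : ℕ → H
  | 0 => 1
  | k + 1 => (1 + y k) ^ (2 ^ r) * Ek r y k

theorem commute_Ek (k b : ℕ) : Commute (y b) (Ek r y k) := by
  induction k with
  | zero => exact Commute.one_right _
  | succ k ih => exact ((A.y1y b k).pow_right _).mul_right ih

theorem y_mul_Ek {k b : ℕ} (hk : k ≤ e) (hb : b < k) : y b ^ (2 ^ r) * Ek r y k = 0 := by
  induction k with
  | zero => omega
  | succ k ih =>
    unfold Ek
    rcases eq_or_ne b k with rfl | hne
    · rw [← mul_assoc, A.hn' hk, zero_mul]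
    · rw [← mul_assoc, ((A.y1y b k).pow_pow _ _).eq, mul_assoc, ih (by omega) (by omega), mul_zero]

/-- **reduction to the nilpotent words** -/
theorem claimD (R : AddSubgroup H) (hs : ∀ a, a + 1 < e → ∀ u, u + s a * u ∈ R)
    (h1 : 0 < e → ∀ u, y 0 ^ (2 ^ r) * u ∈ R) (h2 : 1 < e → ∀ u, y 1 ^ (2 ^ r) * u ∈ R) (k : ℕ)
    (hk : k ≤ e) (u : H) : u + Ek r y k * u ∈ R := by
  induction k with
  | zero =>
    unfold Ek
    rw [one_mul, two_mul_zero A.two]
    exact R.zero_mem
  | succ k ih =>
    have h3 := ih (by omega)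
    have h4 : y k ^ (2 ^ r) * (Ek r y k * u) ∈ R := by
      rcases k with _ | k
      · exact h1 hk _
      · apply A.claimC R hs h2 k hk
        refine ⟨fun b hb => ?_, ?_⟩
        · rw [← mul_assoc, ← mul_assoc, ((A.yy b (k + 1)).pow_pow _ _).eq, mul_assoc (y (k + 1) ^ _),
            A.y_mul_Ek (by omega) hb, mul_zero, zero_mul]
        · rw [← mul_assoc, (((A.y1y (k + 1) (k + 1)).pow_pow _ _)).symm.eq, A.hn' hk, zero_mul]
    have h5 := R.add_mem h3 h4
    have h6 : u + Ek r y k * u + y k ^ 2 ^ r * (Ek r y k * u) = u + Ek r y (k + 1) * u := by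
      change _ = u + (1 + y k) ^ (2 ^ r) * Ek r y k * u
      rw [frob1 A.two, add_mul, add_mul, one_mul, mul_assoc (y k ^ 2 ^ r)]
      abel
    rw [h6] at h5
    exact h5

end Aff

end words

end Pool.PI34.SG

end

/-! ### part SG_Abs2 -/
section

/-!
PI34, block SG, file 6: the two formal consequences.
-/

set_option autoImplicit false

namespace Pool.PI34.SG

open Finset

variable {H : Type} [Ring H] {e r : ℕ} {y s : ℕ → H}

namespace Aff

/-- the opposite ring -/
theorem op (A : Aff e r y s) :
    Aff e r (fun a => MulOpposite.op (y a)) (fun a => MulOpposite.op (s a)) where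
  two := by
    apply MulOpposite.unop_injective
    exact A.two
  yy a b := by
    apply MulOpposite.unop_injective
    exact (A.yy b a).eq
  sy a ha := by
    apply MulOpposite.unop_injective
    change y a * s a = s a * y (a + 1) + 1
    rw [A.sy' a ha, add_assoc, two_mul_zero A.two, add_zero]
  sy' a ha := by
    apply MulOpposite.unop_injective
    change y (a + 1) * s a = s a * y a + 1
    rw [A.sy a ha, add_assoc, two_mul_zero A.two, add_zero]
  sc a b ha hb h1 h2 := by
    apply MulOpposite.unop_injective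
    exact (A.sc a b ha hb h1 h2).symm.eq
  hn a ha := by
    apply MulOpposite.unop_injective
    change ((1 + y a) * y a) ^ (2 ^ r) = 0
    rw [((A.y1y a a).eq).symm]
    exact A.hn a ha

/-- **SG1, formal version.** -/
theorem be (A : Aff e r y s) {θ : H} (he : 0 < e) (hθ : θ * θ = θ)
    (hθy : ∀ a < e, Commute θ (y a)) (hθs : ∀ a, a + 1 < e → Commute θ (s a))
    (hss : ∀ a, a + 1 < e → s a * s a = 1) (h0 : y 0 ^ (2 ^ r) * θ = 0)
    (h1 : 1 < e → s 0 * (y 1 ^ (2 ^ r) * θ) = y 1 ^ (2 ^ r) * θ) (hE : Ek r y e * θ = 0) :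
    ∃ ρ : ℕ → H, (∀ a, a + 1 < e → s a * ρ a = ρ a) ∧ θ = ∑ a ∈ range (e - 1), ρ a ∧
      (∀ a, θ * ρ a = ρ a) ∧ (∀ a, ρ a * θ = ρ a) := by
  let R : AddSubgroup H :=
    { carrier := {w | ∃ ρ : ℕ → H, (∀ a, a + 1 < e → s a * ρ a = ρ a) ∧
        θ * w = ∑ a ∈ range (e - 1), ρ a}
      zero_mem' := ⟨fun _ => 0, fun _ _ => mul_zero _, by simp⟩
      add_mem' := by
        rintro x x' ⟨ρ, hρ, hx⟩ ⟨ρ', hρ', hx'⟩
        refine ⟨fun a => ρ a + ρ' a, fun a ha => ?_, ?_⟩
        · rw [mul_add, hρ a ha, hρ' a ha]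
        · rw [mul_add, hx, hx', Finset.sum_add_distrib]
      neg_mem' := by
        rintro x ⟨ρ, hρ, hx⟩
        refine ⟨fun a => -ρ a, fun a ha => ?_, ?_⟩
        · rw [mul_neg, hρ a ha]
        · rw [mul_neg, hx, Finset.sum_neg_distrib] }
  have hone : ∀ (a : ℕ) (x : H), a + 1 < e → s a * (θ * x) = θ * x → x ∈ R := by
    intro a x ha hx
    refine ⟨fun b => if b = a then θ * x else 0, fun b hb => ?_, ?_⟩
    · by_cases hba : b = a
      · simp only [hba, if_true]
        exact hx
      · simp only [hba, if_false, mul_zero]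
    · rw [Finset.sum_ite_eq', if_pos (mem_range.2 (by omega))]
  have hzero : ∀ x : H, θ * x = 0 → x ∈ R := by
    intro x hx
    exact ⟨fun _ => 0, fun _ _ => mul_zero _, by rw [hx]; simp⟩
  have hyθ : ∀ a < e, y a ^ (2 ^ r) * θ = θ * y a ^ (2 ^ r) := fun a ha =>
    ((hθy a ha).pow_right _).symm.eq
  have hs : ∀ a, a + 1 < e → ∀ u, u + s a * u ∈ R := by
    intro a ha u
    apply hone a _ ha
    have h2 : s a * (θ * (u + s a * u)) = θ * (s a * u + (s a * s a) * u) := by
      rw [← mul_assoc, ← (hθs a ha).eq, mul_assoc, mul_add, mul_assoc]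
    rw [h2, hss a ha, one_mul, add_comm]
  have h1' : 0 < e → ∀ u, y 0 ^ (2 ^ r) * u ∈ R := by
    intro _ u
    apply hzero
    rw [← mul_assoc, ← hyθ 0 he, h0, zero_mul]
  have h2' : 1 < e → ∀ u, y 1 ^ (2 ^ r) * u ∈ R := by
    intro he1 u
    apply hone 0 _ he1
    rw [← mul_assoc θ, ← hyθ 1 he1, ← mul_assoc, h1 he1]
  obtain ⟨ρ, hρ, hsum⟩ := A.claimD R hs h1' h2' e le_rfl 1
  have hEθ : θ * Ek r y e = 0 := by
    have : Commute θ (Ek r y e) := by
      have key : ∀ k ≤ e, Commute θ (Ek r y k) := by
        intro k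
        induction k with
        | zero => intro _; exact Commute.one_right _
        | succ k ih =>
          intro hk
          exact (((Commute.one_right _).add_right (hθy k hk)).pow_right _).mul_right
            (ih (by omega))
      exact key e le_rfl
    rw [this.eq, hE]
  rw [mul_one, mul_add, mul_one, hEθ, add_zero] at hsum
  refine ⟨fun a => θ * ρ a * θ, fun a ha => ?_, ?_, fun a => ?_, fun a => ?_⟩
  · change s a * (θ * ρ a * θ) = θ * ρ a * θ
    rw [← mul_assoc, ← mul_assoc, ← (hθs a ha).eq, mul_assoc θ, hρ a ha]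
  · rw [← Finset.sum_mul, ← Finset.mul_sum, ← hsum, hθ, hθ]
  · change θ * (θ * ρ a * θ) = θ * ρ a * θ
    rw [← mul_assoc, ← mul_assoc, hθ]
  · change θ * ρ a * θ * θ = θ * ρ a * θ
    rw [mul_assoc, hθ]

/-- **SG1, formal version, on the other side.** -/
theorem be' (A : Aff e r y s) {θ : H} (he : 0 < e) (hθ : θ * θ = θ)
    (hθy : ∀ a < e, Commute θ (y a)) (hθs : ∀ a, a + 1 < e → Commute θ (s a))
    (hss : ∀ a, a + 1 < e → s a * s a = 1) (h0 : y 0 ^ (2 ^ r) * θ = 0)
    (h1 : 1 < e → (y 1 ^ (2 ^ r) * θ) * s 0 = y 1 ^ (2 ^ r) * θ) (hE : Ek r y e * θ = 0) :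
    ∃ ρ : ℕ → H, (∀ a, a + 1 < e → ρ a * s a = ρ a) ∧ θ = ∑ a ∈ range (e - 1), ρ a ∧
      (∀ a, θ * ρ a = ρ a) ∧ (∀ a, ρ a * θ = ρ a) := by
  have hyθ : ∀ a < e, y a ^ (2 ^ r) * θ = θ * y a ^ (2 ^ r) := fun a ha =>
    ((hθy a ha).pow_right _).symm.eq
  have hEk : ∀ k ≤ e, Ek r (fun a => MulOpposite.op (y a)) k = MulOpposite.op (Ek r y k) := by
    intro k
    induction k with
    | zero => intro _; rfl
    | succ k ih =>
      intro hk
      have h2 : Ek r (fun a => MulOpposite.op (y a)) (k + 1) =
        (1 + MulOpposite.op (y k)) ^ (2 ^ r) * Ek r (fun a => MulOpposite.op (y a)) k := rfl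
      rw [h2, ih (by omega)]
      apply MulOpposite.unop_injective
      change Ek r y k * (1 + y k) ^ (2 ^ r) = (1 + y k) ^ (2 ^ r) * Ek r y k
      exact (((Commute.one_left _).add_left (A.commute_Ek k k)).pow_left _).symm.eq
  have hθE : Commute θ (Ek r y e) := by
    have key : ∀ k ≤ e, Commute θ (Ek r y k) := by
      intro k
      induction k with
      | zero => intro _; exact Commute.one_right _
      | succ k ih =>
        intro hk
        exact (((Commute.one_right _).add_right (hθy k hk)).pow_right _).mul_right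
          (ih (by omega))
    exact key e le_rfl
  obtain ⟨ρ, h2, h3, h4, h5⟩ := A.op.be (θ := MulOpposite.op θ) he
    (by apply MulOpposite.unop_injective; exact hθ)
    (fun a ha => by apply MulOpposite.unop_injective; exact (hθy a ha).symm.eq)
    (fun a ha => by apply MulOpposite.unop_injective; exact (hθs a ha).symm.eq)
    (fun a ha => by apply MulOpposite.unop_injective; exact hss a ha)
    (by
      apply MulOpposite.unop_injective
      change θ * y 0 ^ (2 ^ r) = 0
      rw [← hyθ 0 he, h0])
    (fun he1 => by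
      apply MulOpposite.unop_injective
      change (θ * y 1 ^ (2 ^ r)) * s 0 = θ * y 1 ^ (2 ^ r)
      rw [← hyθ 1 he1]
      exact h1 he1)
    (by
      rw [hEk e le_rfl]
      apply MulOpposite.unop_injective
      change θ * Ek r y e = 0
      rw [hθE.eq, hE])
  refine ⟨fun a => (ρ a).unop, fun a ha => ?_, ?_, fun a => ?_, fun a => ?_⟩
  · have := congrArg MulOpposite.unop (h2 a ha)
    exact this
  · have := congrArg MulOpposite.unop h3
    rw [MulOpposite.unop_op] at this
    rw [this]
    exact map_sum (MulOpposite.opAddEquiv (α := H)).symm _ _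
  · have := congrArg MulOpposite.unop (h5 a)
    exact this
  · have := congrArg MulOpposite.unop (h4 a)
    exact this

/-- **SG2, formal version.** -/
theorem ga (A : Aff 2 r y s) {ε : H} (hss : s 0 * s 0 = 1) (hε : Commute (s 0) ε)
    (h0 : y 0 ^ (2 ^ r) * ε = 0) (h1 : y 1 ^ (2 ^ r) * ε = 0) {τ : H}
    (hτ : τ = y 0 * s 0 * (1 + (y 0 + y 1) * s 0) ^ (2 ^ (r + 1) - 1) * ε) :
    ε = τ + s 0 * τ * s 0 := by
  obtain ⟨u, hu⟩ : ∃ u : H, u = 1 + (y 0 + y 1) * s 0 := ⟨_, rfl⟩
  have hνs : Commute (s 0) (y 0 + y 1) := A.sum_comm (by norm_num)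
  have hus : Commute (s 0) u := by
    rw [hu]
    exact (Commute.one_right _).add_right (hνs.mul_right (Commute.refl _))
  have hW : Commute (s 0) (u ^ (2 ^ (r + 1) - 1)) := hus.pow_right _
  have hsy : y 0 * s 0 + s 0 * y 0 = u := by
    rw [A.sy 0 (by norm_num), hu, zero_add, add_mul]
    abel
  rw [← hu] at hτ
  have h2 : s 0 * τ * s 0 = s 0 * y 0 * (u ^ (2 ^ (r + 1) - 1)) * ε := by
    calc s 0 * τ * s 0 = s 0 * (y 0 * (s 0 * u ^ (2 ^ (r + 1) - 1))) * (ε * s 0) := by
          rw [hτ]; simp only [mul_assoc]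
      _ = s 0 * (y 0 * (u ^ (2 ^ (r + 1) - 1) * s 0)) * (s 0 * ε) := by rw [hW.eq, hε.eq]
      _ = s 0 * y 0 * (u ^ (2 ^ (r + 1) - 1)) * (s 0 * s 0) * ε := by simp only [mul_assoc]
      _ = _ := by rw [hss, mul_one]
  have h3 : τ + s 0 * τ * s 0 = u ^ (2 ^ (r + 1)) * ε := by
    rw [h2, hτ, ← add_mul, ← add_mul, hsy]
    congr 1
    have h4 : 2 ^ (r + 1) = (2 ^ (r + 1) - 1) + 1 := by
      have := Nat.two_pow_pos (r + 1)
      omega
    conv_rhs => rw [h4, pow_succ']
  have h5 : ((y 0 + y 1) * s 0) ^ (2 ^ (r + 1)) * ε = 0 := by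
    have h6 : (s 0 ^ 2) = 1 := by rw [sq, hss]
    have h7 : s 0 ^ (2 ^ (r + 1)) = 1 := by rw [pow_succ', pow_mul, h6, one_pow]
    rw [hνs.symm.mul_pow, h7, mul_one, pow_succ, pow_mul, frob A.two (A.yy 0 1), sq, mul_assoc,
      add_mul (y 0 ^ 2 ^ r) (y 1 ^ 2 ^ r) ε, h0, h1, add_zero, mul_zero]
  rw [h3, hu, frob1 A.two, add_mul, one_mul, h5, add_zero]

end Aff

end Pool.PI34.SG

end

/-! ### part X_PT -/
section

/-!
PI34, p = 2, block PT (owner helper13): partial traces over a block of strands.
-/

set_option autoImplicit false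
set_option linter.unusedSectionVars false

namespace Pool.PI34.EV

open Equiv Finset
open Pool.PI34.H4

/-- the swap of the block `β` with its copy `j` inside `α` -/
noncomputable def bsw {α β : Type} [DecidableEq α] [DecidableEq β] [Fintype β] (j : β ↪ α) :
    Perm (α ⊕ β) :=
  (univ.toList.map fun b : β => swap (Sum.inl (j b)) (Sum.inr b)).prod

section ptdef

variable {k : ℕ}

/-- a function of words with a block of new letters -/
noncomputable def extB {α β : Type} (f : W k α) (v : β → Fin k) : W k (α ⊕ β) := by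
  classical
  exact fun u => if (fun b => u (Sum.inr b)) = v then f (fun a => u (Sum.inl a)) else 0

theorem extB_same {α β : Type} (f : W k α) (a : α → Fin k) (b : β → Fin k) :
    extB f b (Sum.elim a b) = f a := by
  unfold extB
  exact if_pos rfl

theorem extB_ne {α β : Type} (f : W k α) (v : β → Fin k) (a : α → Fin k) (b : β → Fin k)
    (h : b ≠ v) : extB f v (Sum.elim a b) = 0 := by
  unfold extB
  exact if_neg h

/-- the two properties of a partial trace over `β` -/
def PTP (k : ℕ) (α β : Type) [Fintype α] [DecidableEq α] [Fintype β] [DecidableEq β]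
    (PT : P (α ⊕ β) →+ P α) : Prop :=
  (∀ (x x' : P α) (y : P (α ⊕ β)),
      PT (emb Function.Embedding.inl x * y * emb Function.Embedding.inl x') = x * PT y * x') ∧
    ∀ (y : P (α ⊕ β)) (f : W k α) (w : α → Fin k),
      act k α (PT y) f w = ∑ v : β → Fin k, act k (α ⊕ β) y (extB f v) (Sum.elim w v)

/-- the equivalence of the induction step -/
def stepE (α : Type) {β γ : Type} (e : γ ≃ Option β) : α ⊕ γ ≃ Option (α ⊕ β) where
  toFun := Sum.elim (fun a => some (Sum.inl a)) (fun c => (e c).map Sum.inr)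
  invFun o := o.elim (Sum.inr (e.symm none))
    (Sum.elim Sum.inl (fun b => Sum.inr (e.symm (some b))))
  left_inv := by
    rintro (a | c)
    · rfl
    · change Option.elim ((e c).map Sum.inr) _ _ = Sum.inr c
      rcases h : e c with _ | b
      · have h1 : e.symm none = c := by rw [← h, Equiv.symm_apply_apply]
        exact congrArg Sum.inr h1
      · have h1 : e.symm (some b) = c := by rw [← h, Equiv.symm_apply_apply]
        exact congrArg Sum.inr h1
  right_inv := by
    rintro (_ | (a | b))
    · simp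
    · rfl
    · simp

theorem stepE_inl {α β γ : Type} (e : γ ≃ Option β) :
    (Function.Embedding.inl : α ↪ α ⊕ γ).trans (stepE α e).toEmbedding =
      (Function.Embedding.inl : α ↪ α ⊕ β).trans Function.Embedding.some := by
  ext a : 1
  rfl

theorem glue_equiv {N : ℕ} {α β : Type} (e : β ≃ α) (v : β → Fin N) (w : α → Fin N) :
    glue e.toEmbedding v w = v ∘ e.symm := by
  funext x
  obtain ⟨z, rfl⟩ := e.surjective x
  have h3 := glue_apply e.toEmbedding v w z
  simp only [Function.comp_apply, Equiv.symm_apply_apply]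
  exact h3

theorem act_emb_equiv {N : ℕ} {α β : Type} [Fintype α] [DecidableEq α] [Fintype β] [DecidableEq β]
    (e : β ≃ α) (y : P β) (f : W N α) (w : α → Fin N) :
    act N α (emb e.toEmbedding y) f w = act N β y (fun v => f (v ∘ e.symm)) (w ∘ e) := by
  rw [act_emb]
  simp only [glue_equiv]
  rfl

theorem PTP_empty (k : ℕ) (α β : Type) [Fintype α] [DecidableEq α] [Fintype β] [DecidableEq β]
    [IsEmpty β] : ∃ PT, PTP k α β PT := by
  let e : α ⊕ β ≃ α := Equiv.sumEmpty α β
  refine ⟨(emb e.toEmbedding : P (α ⊕ β) →+* P α), ?_, ?_⟩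
  · intro x x' y
    have h : ∀ x : P α, emb e.toEmbedding (emb Function.Embedding.inl x) = x := by
      intro x
      rw [emb_trans]
      have : (Function.Embedding.inl : α ↪ α ⊕ β).trans e.toEmbedding =
          Function.Embedding.refl α := by
        ext a : 1
        rfl
      rw [this]
      refine P_induction (p := fun x => emb (Function.Embedding.refl α) x = x) x ?_ ?_ ?_
      · intro σ
        rw [emb_g]
        congr 1
        ext a
        exact Perm.viaEmbedding_apply σ (Function.Embedding.refl α) a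
      · intro a b ha hb
        rw [map_add, ha, hb]
      · intro n a ha
        rw [emb_zsmul, ha]
    change emb e.toEmbedding (_ * _ * _) = x * emb e.toEmbedding y * x'
    rw [map_mul, map_mul, h, h]
  · intro y f w
    change act k α (emb e.toEmbedding y) f w = _
    rw [act_emb_equiv, Fintype.sum_unique]
    have h1 : (fun v : α ⊕ β → Fin k => f (v ∘ e.symm)) = extB f (default : β → Fin k) := by
      funext u
      unfold extB
      rw [if_pos (Subsingleton.elim _ _)]
      rfl
    have h2 : w ∘ e = Sum.elim w (default : β → Fin k) := by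
      funext x
      rcases x with a | b
      · rfl
      · exact isEmptyElim b
    rw [h1, h2]

theorem PTP_step (k : ℕ) (α β γ : Type) [Fintype α] [DecidableEq α] [Fintype β] [DecidableEq β]
    [Fintype γ] [DecidableEq γ] (e : γ ≃ Option β) (h : ∃ PT, PTP k α β PT) :
    ∃ PT, PTP k α γ PT := by
  obtain ⟨PT, hP1, hP2⟩ := h
  refine ⟨(PT.comp (T1 k (α ⊕ β))).comp
    (emb (stepE α e).toEmbedding : P (α ⊕ γ) →+* P (Option (α ⊕ β))).toAddMonoidHom, ?_, ?_⟩
  · intro x x' y
    change PT (T1 k (α ⊕ β) (emb (stepE α e).toEmbedding (_ * _ * _))) =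
      x * PT (T1 k (α ⊕ β) (emb (stepE α e).toEmbedding y)) * x'
    have h1 : ∀ x : P α, emb (stepE α e).toEmbedding (emb Function.Embedding.inl x) =
        emb Function.Embedding.some (emb (Function.Embedding.inl : α ↪ α ⊕ β) x) := by
      intro x
      rw [emb_trans, stepE_inl, ← emb_trans]
    rw [(emb (stepE α e).toEmbedding).map_mul, (emb (stepE α e).toEmbedding).map_mul, h1, h1,
      T1_mul_emb, T1_emb_mul, hP1]
  · intro y f w
    change act k α (PT (T1 k (α ⊕ β) (emb (stepE α e).toEmbedding y))) f w = _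
    rw [hP2]
    simp only [act_T1]
    rw [← Finset.sum_product']
    refine Finset.sum_bij' (fun p _ => fun c => (e c).elim p.2 p.1)
      (fun v _ => (fun b => v (e.symm (some b)), v (e.symm none))) ?_ ?_ ?_ ?_ ?_
    · intro p _
      exact mem_univ _
    · intro v _
      exact mem_univ _
    · intro p _
      ext1
      · funext b
        simp
      · simp
    · intro v _
      funext c
      rcases hc : e c with _ | b
      · have h1 : e.symm none = c := by rw [← hc, Equiv.symm_apply_apply]
        exact congrArg v h1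
      · have h1 : e.symm (some b) = c := by rw [← hc, Equiv.symm_apply_apply]
        exact congrArg v h1
    · intro p _
      rw [act_emb_equiv]
      have h1 : (fun v : α ⊕ γ → Fin k => ext1 (extB f p.1) p.2 (v ∘ (stepE α e).symm)) =
          extB f (fun c => (e c).elim p.2 p.1) := by
        funext u
        unfold ext1 extB
        have h3 : (u ∘ (stepE α e).symm) none = u (Sum.inr (e.symm none)) := rfl
        have h4 : (fun b : β => ((u ∘ (stepE α e).symm) ∘ some) (Sum.inr b)) =
            fun b => u (Sum.inr (e.symm (some b))) := rfl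
        have h5 : (fun a : α => ((u ∘ (stepE α e).symm) ∘ some) (Sum.inl a)) =
            fun a => u (Sum.inl a) := rfl
        rw [h3, h4, h5]
        by_cases hh : (fun c => u (Sum.inr c)) = fun c => (e c).elim p.2 p.1
        · have h6 : ∀ c, u (Sum.inr c) = (e c).elim p.2 p.1 := fun c => congrFun hh c
          rw [if_pos hh, if_pos (by rw [h6]; simp), if_pos (by funext b; rw [h6]; simp)]
        · rw [if_neg hh]
          split_ifs with h7 h8
          · exfalso
            apply hh
            funext c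
            rcases hc : e c with _ | b
            · have : e.symm none = c := by rw [← hc, Equiv.symm_apply_apply]
              rw [← this, h7]
              rfl
            · have : e.symm (some b) = c := by rw [← hc, Equiv.symm_apply_apply]
              rw [← this]
              exact congrFun h8 b
          · rfl
          · rfl
      have h2 : cons1 (Sum.elim w p.1) p.2 ∘ stepE α e =
          Sum.elim w (fun c => (e c).elim p.2 p.1) := by
        funext x
        rcases x with a | c
        · rfl
        · change cons1 (Sum.elim w p.1) p.2 ((e c).map Sum.inr) = (e c).elim p.2 p.1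
          rcases e c with _ | b <;> rfl
      rw [h1, h2]

theorem exists_PTP (k : ℕ) (α : Type) [Fintype α] [DecidableEq α] (n : ℕ) :
    ∀ (β : Type) [Fintype β] [DecidableEq β], Fintype.card β = n → ∃ PT, PTP k α β PT := by
  induction n with
  | zero =>
    intro β _ _ h
    have : IsEmpty β := Fintype.card_eq_zero_iff.1 h
    exact PTP_empty k α β
  | succ n ih =>
    intro β _ _ h
    exact PTP_step k α (Fin n) β ((Fintype.equivFinOfCardEq h).trans (finSuccEquiv n))
      (ih (Fin n) (Fintype.card_fin n))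

end ptdef

section bswapp

variable {α β : Type} [DecidableEq α] [DecidableEq β] [Fintype β] (j : β ↪ α)

theorem bsw_list_inr (l : List β) (hl : l.Nodup) (b : β) :
    (l.map fun b : β => swap (Sum.inl (j b) : α ⊕ β) (Sum.inr b)).prod (Sum.inr b) =
      if b ∈ l then Sum.inl (j b) else Sum.inr b := by
  induction l with
  | nil => simp
  | cons c l ih =>
    rw [List.map_cons, List.prod_cons, Perm.mul_apply, ih (List.nodup_cons.1 hl).2]
    by_cases hb : b ∈ l
    · have hne : b ≠ c := fun h => (List.nodup_cons.1 hl).1 (h ▸ hb)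
      rw [if_pos hb, if_pos (List.mem_cons_of_mem _ hb),
        swap_apply_of_ne_of_ne (fun h => hne (j.injective (Sum.inl_injective h)))
          (fun h => by cases h)]
    · rw [if_neg hb]
      by_cases hc : b = c
      · subst hc
        rw [swap_apply_right, if_pos List.mem_cons_self]
      · rw [swap_apply_of_ne_of_ne (fun h => by cases h) (fun h => hc (Sum.inr_injective h)),
          if_neg (fun h => by
            rcases List.mem_cons.1 h with h | h
            · exact hc h
            · exact hb h)]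

theorem bsw_list_inl (l : List β) (hl : l.Nodup) (b : β) :
    (l.map fun b : β => swap (Sum.inl (j b) : α ⊕ β) (Sum.inr b)).prod (Sum.inl (j b)) =
      if b ∈ l then Sum.inr b else Sum.inl (j b) := by
  induction l with
  | nil => simp
  | cons c l ih =>
    rw [List.map_cons, List.prod_cons, Perm.mul_apply, ih (List.nodup_cons.1 hl).2]
    by_cases hb : b ∈ l
    · have hne : b ≠ c := fun h => (List.nodup_cons.1 hl).1 (h ▸ hb)
      rw [if_pos hb, if_pos (List.mem_cons_of_mem _ hb),
        swap_apply_of_ne_of_ne (fun h => by cases h) (fun h => hne (Sum.inr_injective h))]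
    · rw [if_neg hb]
      by_cases hc : b = c
      · subst hc
        rw [swap_apply_left, if_pos List.mem_cons_self]
      · rw [swap_apply_of_ne_of_ne (fun h => hc (j.injective (Sum.inl_injective h)))
          (fun h => by cases h),
          if_neg (fun h => by
            rcases List.mem_cons.1 h with h | h
            · exact hc h
            · exact hb h)]

theorem bsw_list_of_notMem (l : List β) (a : α) (ha : a ∉ Set.range j) :
    (l.map fun b : β => swap (Sum.inl (j b) : α ⊕ β) (Sum.inr b)).prod (Sum.inl a) =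
      Sum.inl a := by
  induction l with
  | nil => simp
  | cons c l ih =>
    rw [List.map_cons, List.prod_cons, Perm.mul_apply, ih,
      swap_apply_of_ne_of_ne (fun h => ha ⟨c, (Sum.inl_injective h).symm⟩) (fun h => by cases h)]

theorem bsw_inr (b : β) : bsw j (Sum.inr b) = Sum.inl (j b) := by
  unfold bsw
  rw [bsw_list_inr j _ (Finset.nodup_toList _), if_pos (Finset.mem_toList.2 (mem_univ _))]

theorem bsw_inl (b : β) : bsw j (Sum.inl (j b)) = Sum.inr b := by
  unfold bsw
  rw [bsw_list_inl j _ (Finset.nodup_toList _), if_pos (Finset.mem_toList.2 (mem_univ _))]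

theorem bsw_inl_of_notMem (a : α) (ha : a ∉ Set.range j) : bsw j (Sum.inl a) = Sum.inl a :=
  bsw_list_of_notMem j _ a ha

theorem bsw_comp {N : ℕ} (u : α ⊕ β → Fin N) :
    u ∘ bsw j = Sum.elim (glue j (fun b => u (Sum.inr b)) (fun a => u (Sum.inl a)))
      (fun b => u (Sum.inl (j b))) := by
  funext x
  rcases x with a | b
  · by_cases ha : a ∈ Set.range j
    · obtain ⟨b, rfl⟩ := ha
      rw [Function.comp_apply, bsw_inl, Sum.elim_inl, glue_apply]
    · rw [Function.comp_apply, bsw_inl_of_notMem j a ha, Sum.elim_inl,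
        glue_apply_of_notMem _ _ _ _ ha]
  · rw [Function.comp_apply, bsw_inr, Sum.elim_inr]

end bswapp

/-- the action of an element on the block `β` -/
theorem act_inr {k : ℕ} {α β : Type} [Fintype α] [DecidableEq α] [Fintype β] [DecidableEq β]
    (y : P β) (F : W k (α ⊕ β)) (w : α → Fin k) (v : β → Fin k) :
    act k _ (emb Function.Embedding.inr y) F (Sum.elim w v) =
      act k _ y (fun v' => F (Sum.elim w v')) v := by
  rw [act_emb]
  have h1 : ∀ v' : β → Fin k, glue (Function.Embedding.inr : β ↪ α ⊕ β) v' (Sum.elim w v) =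
      Sum.elim w v' := by
    intro v'
    funext x
    rcases x with a | b
    · rw [glue_apply_of_notMem]
      · rfl
      · rintro ⟨b, hb⟩
        cases hb
    · exact glue_apply Function.Embedding.inr v' (Sum.elim w v) b
  simp only [h1]
  rfl

/-- PARTIAL TRACE over the block `β`.  (By induction on the cardinal of `β` from `H4.T1`; or
`T1`-free: `PT` of a permutation `σ` of `α ⊕ β` is `k ^ (number of cycles inside β)` times the
induced permutation of `α`.)  All four properties at the level of the action on the words. -/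
theorem exists_PT (k : ℕ) (α β : Type) [Fintype α] [DecidableEq α] [Fintype β] [DecidableEq β] :
    ∃ PT : P (α ⊕ β) →+ P α,
      (∀ x, act k _ x = 0 → act k _ (PT x) = 0) ∧
      (∀ (x x' : P α) (y : P (α ⊕ β)),
        PT (emb Function.Embedding.inl x * y * emb Function.Embedding.inl x') = x * PT y * x') ∧
      (∀ (j : β ↪ α) (y : P β),
        act k _ (PT (emb Function.Embedding.inr y * g (bsw j))) = act k _ (emb j y)) ∧
      (∀ (y : P β) (f : W k α),
        act k _ (PT (emb Function.Embedding.inr y)) f = (tc k y) • f) := by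
  classical
  obtain ⟨PT, h1, h2⟩ := exists_PTP k α _ β rfl
  refine ⟨PT, ?_, h1, ?_, ?_⟩
  · intro x hx
    refine LinearMap.ext fun f => ?_
    funext w
    rw [h2, hx]
    simp
  · intro j y
    refine LinearMap.ext fun f => ?_
    funext w
    rw [h2, act_emb]
    have h3 : ∀ v : β → Fin k,
        act k _ (emb Function.Embedding.inr y * g (bsw j)) (extB f v) (Sum.elim w v) =
          act k _ y (fun v' => extB (fun _ : Empty → Fin k => f (glue j v' w)) v
            (Sum.elim (fun x => isEmptyElim x) (fun b => w (j b)))) v := by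
      intro v
      rw [act_mul, act_inr]
      have h4 : (fun v' : β → Fin k => act k (α ⊕ β) (g (bsw j)) (extB f v) (Sum.elim w v')) =
          fun v' => extB (fun _ : Empty → Fin k => f (glue j v' w)) v
            (Sum.elim (fun x => isEmptyElim x) (fun b => w (j b))) := by
        funext v'
        rw [act_g, bsw_comp]
        by_cases hv : (fun b => w (j b)) = v
        · subst hv
          rw [extB_same]
          exact extB_same _ _ _
        · rw [extB_ne _ _ _ _ hv]
          exact extB_ne _ _ _ _ hv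
      rw [h4]
    rw [Finset.sum_congr rfl (fun v _ => h3 v), Finset.sum_eq_single (fun b => w (j b))]
    · simp only [extB_same]
      rfl
    · intro v _ hv
      have : (fun v' : β → Fin k => extB (fun _ : Empty → Fin k => f (glue j v' w)) v
            (Sum.elim (fun x => isEmptyElim x) (fun b => w (j b)))) = (0 : W k β) := by
        funext v'
        exact extB_ne _ _ _ _ (fun h => hv h.symm)
      rw [this, map_zero]
      rfl
    · intro h
      exact absurd (mem_univ _) h
  · intro y f
    funext w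
    rw [h2, Pi.smul_apply, smul_eq_mul]
    unfold tc
    rw [Finset.sum_mul]
    refine Finset.sum_congr rfl fun v _ => ?_
    rw [act_inr]
    have h3 : (fun v' : β → Fin k => extB f v (Sum.elim w v')) =
        f w • (Pi.single v 1 : W k β) := by
      funext v'
      rw [Pi.smul_apply, smul_eq_mul]
      by_cases hv : v' = v
      · subst hv
        rw [Pi.single_eq_same, mul_one, extB_same]
      · rw [extB_ne _ _ _ _ hv, Pi.single_eq_of_ne hv, mul_zero]
    rw [h3, map_smul, Pi.smul_apply, smul_eq_mul, mul_comm]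

end Pool.PI34.EV

end

/-! ### part SG_JM -/
section

/-!
PI34, block SG, file 1: Jucys-Murphy elements.
-/

set_option autoImplicit false
set_option linter.unusedSectionVars false
set_option linter.unusedDecidableInType false
set_option linter.unusedFintypeInType false

namespace Pool.PI34.SG

open Equiv Finset Polynomial
open Pool.PI34.H4

/-- The Jucys-Murphy element of the place `k`. -/
noncomputable def Y {n : ℕ} (k : Fin n) : P (Fin n) :=
  ∑ i ∈ univ.filter (fun i => i < k), g (swap i k)

theorem commute_g_Y {n : ℕ} (k : Fin n) (σ : Perm (Fin n)) (hk : σ k = k)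
    (h : ∀ i, i < k → σ i < k) : Commute (g σ) (Y k) := by
  unfold Commute SemiconjBy Y
  rw [Finset.mul_sum, Finset.sum_mul]
  refine Finset.sum_bij (fun i _ => σ i) ?_ ?_ ?_ ?_
  · intro i hi
    rw [mem_filter] at hi ⊢
    exact ⟨mem_univ _, h i hi.2⟩
  · intro i _ j _ hij
    exact σ.injective hij
  · intro j hj
    have hinj : Set.InjOn σ (univ.filter (fun i => i < k) : Finset (Fin n)) :=
      fun _ _ _ _ h => σ.injective h
    have hmap : Set.MapsTo σ (univ.filter (fun i => i < k) : Finset (Fin n))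
        (univ.filter (fun i => i < k) : Finset (Fin n)) := by
      intro i hi
      have hi' := Finset.mem_coe.1 hi
      rw [mem_filter] at hi'
      exact Finset.mem_coe.2 (mem_filter.2 ⟨mem_univ _, h i hi'.2⟩)
    obtain ⟨i, hi, hij⟩ := Finset.surjOn_of_injOn_of_card_le _ hmap hinj le_rfl
      (Finset.mem_coe.2 hj)
    exact ⟨i, Finset.mem_coe.1 hi, hij⟩
  · intro i _
    rw [← g_mul, ← g_mul, mul_swap_eq_swap_mul, hk]

theorem commute_Y {n : ℕ} (j k : Fin n) : Commute (Y j) (Y k) := by
  have key : ∀ j k : Fin n, j < k → Commute (Y j) (Y k) := by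
    intro j k hjk
    unfold Y
    refine Commute.sum_left _ _ _ (fun i hi => ?_)
    rw [mem_filter] at hi
    apply commute_g_Y
    · exact swap_apply_of_ne_of_ne (hi.2.trans hjk).ne' hjk.ne'
    · intro l hl
      rcases eq_or_ne l i with rfl | h1
      · rw [swap_apply_left]; exact hjk
      · rcases eq_or_ne l j with rfl | h2
        · rw [swap_apply_right]; exact hi.2.trans hjk
        · rw [swap_apply_of_ne_of_ne h1 h2]; exact hl
  rcases lt_trichotomy j k with h | h | h
  · exact key j k h
  · rw [h]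
  · exact (key k j h).symm

theorem SA_Y {N n : ℕ} (k : Fin n) : SA N (Y k) :=
  SA.sum _ _ (fun _ _ => SA_swap _ _)

/-- the transposition of two adjacent places commutes with the other elements -/
theorem commute_s_Y {n : ℕ} (k k' j : Fin n) (hk : (k' : ℕ) = k + 1) (h1 : j ≠ k) (h2 : j ≠ k') :
    Commute (g (swap k k')) (Y j) := by
  apply commute_g_Y
  · exact swap_apply_of_ne_of_ne h1 h2
  · intro i hi
    have h1' : (j : ℕ) ≠ k := fun h => h1 (Fin.ext h)
    have h2' : (j : ℕ) ≠ k' := fun h => h2 (Fin.ext h)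
    rcases eq_or_ne i k with rfl | h3
    · rw [swap_apply_left, Fin.lt_def]
      rw [Fin.lt_def] at hi
      omega
    · rcases eq_or_ne i k' with rfl | h4
      · rw [swap_apply_right, Fin.lt_def]
        rw [Fin.lt_def] at hi
        omega
      · rw [swap_apply_of_ne_of_ne h3 h4]; exact hi

theorem g_swap_sq {n : ℕ} (i j : Fin n) : g (swap i j) * g (swap i j) = (1 : P (Fin n)) := by
  rw [← g_mul, swap_mul_self, g_one]

/-- the main relation -/
theorem s_mul_Y {n : ℕ} (k k' : Fin n) (hk : (k' : ℕ) = k + 1) :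
    g (swap k k') * Y k = Y k' * g (swap k k') - 1 := by
  have h1 : Y k' = (∑ i ∈ univ.filter (fun i => i < k), g (swap i k')) + g (swap k k') := by
    unfold Y
    have : univ.filter (fun i => i < k') = insert k (univ.filter (fun i => i < k)) := by
      ext i
      rw [mem_insert, mem_filter, mem_filter, Fin.lt_def, Fin.lt_def, Fin.ext_iff]
      simp only [mem_univ, true_and]
      omega
    rw [this, Finset.sum_insert (by simp), add_comm]
  rw [h1, add_mul, g_swap_sq, add_sub_cancel_right, Y, Finset.mul_sum, Finset.sum_mul]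
  apply Finset.sum_congr rfl
  intro i hi
  rw [mem_filter, Fin.lt_def] at hi
  rw [← g_mul, ← g_mul, mul_swap_eq_swap_mul, swap_apply_left,
    swap_apply_of_ne_of_ne (fun h => by rw [h] at hi; omega)
      (fun h => by rw [h] at hi; omega)]

theorem s_mul_Y' {n : ℕ} (k k' : Fin n) (hk : (k' : ℕ) = k + 1) :
    g (swap k k') * Y k' = Y k * g (swap k k') + 1 := by
  have h1 := s_mul_Y k k' hk
  have h2 : Y k * g (swap k k') = g (swap k k') * (g (swap k k') * Y k) * g (swap k k') := by
    rw [← mul_assoc, g_swap_sq, one_mul]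
  rw [h2, h1]
  have h3 : g (swap k k') * (Y k' * g (swap k k') - 1) * g (swap k k') =
      g (swap k k') * Y k' * (g (swap k k') * g (swap k k')) -
        g (swap k k') * g (swap k k') := by
    simp only [mul_sub, sub_mul, mul_assoc, mul_one]
  rw [h3, g_swap_sq, mul_one]
  abel

/-- elements of the first places commute with the later elements -/
theorem commute_emb_Y {n n' : ℕ} (ι : Fin n ↪ Fin n') (k : Fin n')
    (h : ∀ i, ι i < k) (y : P (Fin n)) : Commute (emb ι y) (Y k) := by
  refine commute_of_g ι (fun σ => ?_) y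
  apply commute_g_Y
  · apply Perm.viaEmbedding_apply_of_notMem
    rintro ⟨i, hi⟩
    exact (h i).ne hi
  · intro i hi
    by_cases hr : i ∈ Set.range ι
    · obtain ⟨j, rfl⟩ := hr
      rw [Perm.viaEmbedding_apply]
      exact h _
    · rw [Perm.viaEmbedding_apply_of_notMem _ _ _ hr]
      exact hi

theorem emb_Y {n n' : ℕ} (ι : Fin n ↪ Fin n') (hι : ∀ i, ((ι i : Fin n') : ℕ) = i) (k : Fin n) :
    emb ι (Y k) = Y (ι k) := by
  unfold Y
  rw [map_sum]
  refine Finset.sum_bij (fun i _ => ι i) ?_ ?_ ?_ ?_
  · intro i hi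
    rw [mem_filter, Fin.lt_def] at hi ⊢
    rw [hι, hι]
    exact ⟨mem_univ _, hi.2⟩
  · intro i _ j _ h
    exact ι.injective h
  · intro j hj
    rw [mem_filter, Fin.lt_def, hι] at hj
    refine ⟨⟨j, hj.2.trans k.2⟩, ?_, ?_⟩
    · rw [mem_filter, Fin.lt_def]
      exact ⟨mem_univ _, hj.2⟩
    · apply Fin.ext
      rw [hι]
  · intro i _
    rw [emb_g, swap_via]

end Pool.PI34.SG

end

/-! ### part X_EvDef -/
section

/-!
PI34, p = 2, block EVEN2: definitions (from the statement file of helper34).
-/

set_option autoImplicit false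
set_option linter.unusedSectionVars false

namespace Pool.PI34.EV

open Equiv Finset
open Pool.PI34.H4

/-- the open strand `none`, the letters `some a`, two groups of `k` new strands -/
abbrev Big (A : Type) (k : ℕ) : Type := Option A ⊕ (Fin k ⊕ Fin k)

/-- a permutation of the letters, on `Option A` -/
def oh {A : Type} (h : Perm A) : Perm (Option A) := optionCongr h

/-- the same on `Big A k` -/
def hh {A : Type} (k : ℕ) (h : Perm A) : Perm (Big A k) := sumCongr (optionCongr h) 1

/-- EVEN1: the invariant functionals which kill the kernel of the action kill the multiples of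
`A_P A_Q` whose symmetrisation acts by zero. -/
def Even1 : Prop :=
  ∀ (k : ℕ) (A C : Type) [Fintype A] [DecidableEq A] [DecidableEq C] (c : A → C)
    (v : P (Option A)),
    act k (Option A) (∑ h ∈ univ.filter (fun h : Perm A => c ∘ h = c),
      g (oh h) * v * g (oh h)⁻¹) = 0 →
    ∀ (W : Type) [AddCommGroup W] (lam : P (Big A k) →+ W),
      (∀ y, act k _ y = 0 → lam y = 0) →
      (∀ h : Perm A, c ∘ h = c → ∀ y, lam (g (hh k h) * y * g (hh k h)⁻¹) = lam y) →
      lam (emb Function.Embedding.inl v *
        (emb (Function.Embedding.inl.trans Function.Embedding.inr) (As (Fin k)) *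
          emb (Function.Embedding.inr.trans Function.Embedding.inr) (As (Fin k)))) = 0

/-- V-catalysts: quasi-idempotent (odd factor), a left multiple of the signed sum of `k` of its
strands, trace `≠ 0`. -/
structure VCat (k : ℕ) where
  n : ℕ
  θ : P (Fin n ⊕ Fin k)
  y : P (Fin n ⊕ Fin k)
  κ : ℤ
  hκ : Odd κ
  sq : act k _ (θ * θ) = κ • act k _ θ
  fac : act k _ θ = act k _ (y * emb Function.Embedding.inr (As (Fin k)))
  tr : tc k θ ≠ 0

variable {k : ℕ} (V : VCat k)

/-- the strands of one catalyst -/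
abbrev VCat.B : Type := Fin V.n ⊕ Fin k

/-- the open strand, the letters `A`, two copies of the catalyst -/
abbrev Al (A : Type) : Type := Option (A ⊕ (V.B ⊕ V.B))

/-- the two catalysts -/
noncomputable def VCat.θ2 (A : Type) [Fintype A] [DecidableEq A] : P (Al V A) :=
  emb ((Function.Embedding.inl.trans Function.Embedding.inr).trans
      (Function.Embedding.some : (A ⊕ (V.B ⊕ V.B)) ↪ Al V A)) V.θ *
    emb ((Function.Embedding.inr.trans Function.Embedding.inr).trans
      (Function.Embedding.some : (A ⊕ (V.B ⊕ V.B)) ↪ Al V A)) V.θ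

/-- a permutation of the letters, on `Al V A` -/
def VCat.hA {A : Type} (h : Perm A) : Perm (Al V A) := optionCongr (sumCongr h 1)

/-- Partial traces over the block `β`. -/
def PTr : Prop :=
  ∀ (k : ℕ) (α β : Type) [Fintype α] [DecidableEq α] [Fintype β] [DecidableEq β],
    ∃ PT : P (α ⊕ β) →+ P α,
      (∀ x, act k _ x = 0 → act k _ (PT x) = 0) ∧
      (∀ (x x' : P α) (y : P (α ⊕ β)),
        PT (emb Function.Embedding.inl x * y * emb Function.Embedding.inl x') = x * PT y * x') ∧
      (∀ (j : β ↪ α) (y : P β),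
        act k _ (PT (emb Function.Embedding.inr y * g (bsw j))) = act k _ (emb j y)) ∧
      (∀ (y : P β) (f : W k α),
        act k _ (PT (emb Function.Embedding.inr y)) f = (tc k y) • f)

end Pool.PI34.EV

end

/-! ### part SG_Desc -/
section

/-!
PI34, block SG, file 2: components of highest weight vectors at the last place.
-/

set_option autoImplicit false
set_option linter.unusedSectionVars false
set_option linter.unusedDecidableInType false
set_option linter.unusedFintypeInType false

namespace Pool.PI34.SG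

open Equiv Finset Polynomial
open Pool.PI34.H4

variable {N n : ℕ}

/-- The component at the last place. -/
def comp (x : W N (Fin (n + 1))) (t : Fin N) : W N (Fin n) := fun w => x (Fin.snoc w t)

theorem comp_apply (x : W N (Fin (n + 1))) (t : Fin N) (w : Fin n → Fin N) :
    comp x t w = x (Fin.snoc w t) := rfl

theorem comp_add (x y : W N (Fin (n + 1))) (t : Fin N) : comp (x + y) t = comp x t + comp y t := rfl

theorem comp_sub (x y : W N (Fin (n + 1))) (t : Fin N) : comp (x - y) t = comp x t - comp y t := rfl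

theorem comp_zsmul (m : ℤ) (x : W N (Fin (n + 1))) (t : Fin N) :
    comp (m • x) t = m • comp x t := rfl

theorem comp_zero (t : Fin N) : comp (0 : W N (Fin (n + 1))) t = 0 := rfl

theorem comp_ext {x y : W N (Fin (n + 1))} (h : ∀ t, comp x t = comp y t) : x = y := by
  funext w
  have h1 := congrFun (h (w (Fin.last n))) (fun i => w i.castSucc)
  have h2 : (Fin.snoc (fun i => w i.castSucc) (w (Fin.last n)) : Fin (n + 1) → Fin N) = w := by
    funext i
    refine Fin.lastCases ?_ (fun i => ?_) i
    · simp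
    · simp
  rw [comp_apply, comp_apply, h2] at h1
  exact h1

/-- the operators at the components -/
theorem comp_EE (a b : Fin N) (x : W N (Fin (n + 1))) (t : Fin N) :
    comp (EE a b x) t = EE a b (comp x t) + (if t = a then comp x b else 0) := by
  funext w
  rw [comp_apply, EE_apply, Fin.sum_univ_castSucc, Pi.add_apply, EE_apply]
  congr 1
  · refine Finset.sum_congr rfl (fun i _ => ?_)
    have h1 : (Fin.snoc w t : Fin (n + 1) → Fin N) i.castSucc = w i := by simp
    rw [h1]
    split_ifs
    · rw [comp_apply]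
      congr 1
      funext j
      refine Fin.lastCases ?_ (fun j => ?_) j
      · rw [Function.update_of_ne (Fin.castSucc_lt_last i).ne']
        simp
      · rcases eq_or_ne j i with rfl | hj
        · simp
        · rw [Function.update_of_ne (fun h => hj (Fin.castSucc_injective n h))]
          simp [Function.update_of_ne hj]
    · rfl
  · have h1 : (Fin.snoc w t : Fin (n + 1) → Fin N) (Fin.last n) = t := by simp
    rw [h1]
    split_ifs
    · rw [comp_apply]
      congr 1
      funext j
      refine Fin.lastCases ?_ (fun j => ?_) j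
      · simp
      · rw [Function.update_of_ne (Fin.castSucc_lt_last j).ne]
        simp
    · rfl

theorem snoc_comp_via (w : Fin n → Fin N) (t : Fin N) (σ : Perm (Fin n)) :
    (Fin.snoc w t : Fin (n + 1) → Fin N) ∘ ⇑(σ.viaEmbedding Fin.castSuccEmb) =
      Fin.snoc (w ∘ σ) t := by
  funext j
  rw [Function.comp_apply]
  refine Fin.lastCases ?_ (fun j => ?_) j
  · rw [Perm.viaEmbedding_apply_of_notMem]
    · simp
    · rintro ⟨i, hi⟩
      exact (Fin.castSucc_lt_last i).ne hi
  · have h1 : j.castSucc = Fin.castSuccEmb j := rfl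
    rw [h1, Perm.viaEmbedding_apply]
    simp

/-- elements of the first places act on the components -/
theorem comp_act_emb (y : P (Fin n)) (x : W N (Fin (n + 1))) (t : Fin N) :
    comp (act N _ (emb Fin.castSuccEmb y) x) t = act N _ y (comp x t) := by
  refine P_induction (p := fun y => comp (act N _ (emb Fin.castSuccEmb y) x) t =
    act N _ y (comp x t)) y ?_ ?_ ?_
  · intro σ
    funext w
    rw [comp_apply, emb_g, act_g, act_g, comp_apply, snoc_comp_via]
  · intro a b ha hb
    rw [map_add, act_add, act_add, comp_add, ha, hb]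
  · intro m a ha
    rw [emb_zsmul, act_zsmul, act_zsmul, comp_zsmul, ha]

/-- the last Jucys-Murphy element at the components -/
theorem comp_Y (x : W N (Fin (n + 1))) (t : Fin N) :
    comp (act N _ (Y (Fin.last n)) x) t = ∑ a, EE a t (comp x a) := by
  funext w
  rw [comp_apply]
  unfold Y
  rw [act_sum, Finset.sum_apply, Finset.sum_apply]
  have h0 : univ.filter (fun i => i < Fin.last n) = univ.map Fin.castSuccEmb := by
    ext i
    rw [mem_filter, mem_map]
    constructor
    · rintro ⟨_, hi⟩
      exact ⟨i.castLT hi, mem_univ _, Fin.castSucc_castLT i hi⟩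
    · rintro ⟨j, _, rfl⟩
      exact ⟨mem_univ _, Fin.castSucc_lt_last j⟩
  rw [h0, Finset.sum_map]
  simp only [EE_apply]
  rw [Finset.sum_comm]
  refine Finset.sum_congr rfl (fun i _ => ?_)
  rw [Finset.sum_ite_eq, if_pos (mem_univ _), act_g, comp_apply]
  congr 1
  funext j
  rw [Function.comp_apply]
  have hi : Fin.castSuccEmb i = i.castSucc := rfl
  rw [hi]
  refine Fin.lastCases ?_ (fun j => ?_) j
  · rw [swap_apply_right]
    simp
  · rcases eq_or_ne j i with rfl | hj
    · rw [swap_apply_left]
      simp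
    · rw [swap_apply_of_ne_of_ne (fun h => hj (Fin.castSucc_injective n h))
        (Fin.castSucc_lt_last j).ne]
      simp [Function.update_of_ne hj]

theorem cnt_snoc (w : Fin n → Fin N) (t a : Fin N) :
    cnt (Fin.snoc w t : Fin (n + 1) → Fin N) a = cnt w a + (if t = a then 1 else 0) := by
  unfold cnt
  rw [Finset.card_filter, Finset.card_filter, Fin.sum_univ_castSucc]
  congr 1
  · refine Finset.sum_congr rfl (fun i _ => ?_)
    simp
  · simp

/-- all the components above `t` vanish -/
def Ab (t : Fin N) (x : W N (Fin (n + 1))) : Prop := ∀ b, t < b → comp x b = 0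

theorem exists_top' {x : W N (Fin (n + 1))} (h0 : x ≠ 0) : ∃ t, comp x t ≠ 0 ∧ Ab t x := by
  have hne : (univ.filter (fun t : Fin N => comp x t ≠ 0)).Nonempty := by
    by_contra h
    rw [Finset.not_nonempty_iff_eq_empty] at h
    apply h0
    apply comp_ext
    intro t
    rw [comp_zero]
    by_contra ht
    have : t ∈ univ.filter (fun t : Fin N => comp x t ≠ 0) := mem_filter.2 ⟨mem_univ _, ht⟩
    rw [h] at this
    exact absurd this (Finset.notMem_empty _)
  obtain ⟨t, ht, hmax⟩ := Finset.exists_max_image _ id hne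
  refine ⟨t, (mem_filter.1 ht).2, fun b hb => ?_⟩
  by_contra h
  exact absurd (hmax b (mem_filter.2 ⟨mem_univ _, h⟩)) (not_le.2 hb)

theorem Ab.comp_HW {t : Fin N} {x : W N (Fin (n + 1))} (ht : Ab t x) (hx : HW x) :
    HW (comp x t) := by
  intro a b hab
  have h1 := congrArg (fun y => comp y t) (hx a b hab)
  simp only [comp_EE, comp_zero] at h1
  by_cases h : t = a
  · rw [if_pos h, ht b (by rw [h]; exact hab), add_zero] at h1
    exact h1
  · rw [if_neg h, add_zero] at h1
    exact h1

/-- the value of the last Jucys-Murphy element at the top component -/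
theorem Ab.comp_Y_top {t : Fin N} {x : W N (Fin (n + 1))} (ht : Ab t x) (hx : HW x)
    {m : Fin N → ℕ} (hm : HasWt m x) :
    comp (act N _ (Y (Fin.last n)) x) t = ((m t : ℤ) - 1 - (t : ℕ)) • comp x t := by
  rw [comp_Y]
  have h1 : ∀ a, EE a t (comp x a) = (if a < t then -comp x t else 0) +
      (if a = t then EE t t (comp x t) else 0) := by
    intro a
    rcases lt_trichotomy a t with h | h | h
    · rw [if_pos h, if_neg h.ne, add_zero]
      have h2 : comp (EE a t x) a = comp 0 a := by rw [hx a t h]
      rw [comp_EE, comp_zero, if_pos rfl] at h2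
      exact eq_neg_of_add_eq_zero_left h2
    · rw [h, if_neg (lt_irrefl _), if_pos rfl, zero_add]
    · rw [if_neg h.asymm, if_neg h.ne', ht a h, map_zero, add_zero]
  rw [Finset.sum_congr rfl (fun a _ => h1 a), Finset.sum_add_distrib, Finset.sum_ite_eq',
    if_pos (mem_univ _), ← Finset.sum_filter, Finset.sum_const]
  have h3 : (univ.filter (fun a : Fin N => a < t)).card = (t : ℕ) := by
    rw [← Fin.card_Iio t]
    congr 1
    ext a
    simp
  rw [h3]
  funext w
  rw [Pi.add_apply, H4.EE_self]
  by_cases h0 : comp x t w = 0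
  · simp [h0]
  · have h4 := hm _ h0 t
    rw [cnt_snoc, if_pos rfl] at h4
    simp only [Pi.smul_apply, nsmul_eq_mul, Pi.neg_apply, zsmul_eq_mul]
    rw [← h4]
    push_cast
    ring

theorem Ab.comp_Y_above {t : Fin N} {x : W N (Fin (n + 1))} (ht : Ab t x) (hx : HW x) :
    Ab t (act N _ (Y (Fin.last n)) x) := by
  intro b hb
  rw [comp_Y]
  apply Finset.sum_eq_zero
  intro a _
  rcases le_or_gt a t with h | h
  · have h2 := congrArg (fun y => comp y a) (hx a b (h.trans_lt hb))
    rw [comp_EE, comp_zero, if_pos rfl, ht b hb, add_zero] at h2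
    exact h2
  · rw [ht a h, map_zero]

theorem HasWt.act {α : Type} [Fintype α] [DecidableEq α] {m : Fin N → ℕ} {u : W N α}
    (hu : HasWt m u) (y : P α) : HasWt m (act N α y u) := by
  refine P_induction (p := fun y => HasWt m (H4.act N α y u)) y ?_ ?_ ?_
  · intro σ w hw a
    rw [act_g] at hw
    rw [← hu _ hw a, cnt_comp]
  · intro x y hx hy w hw a
    rw [act_add, Pi.add_apply] at hw
    by_cases h : H4.act N α x u w = 0
    · rw [h, zero_add] at hw
      exact hy w hw a
    · exact hx w h a
  · intro k x hx w hw a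
    rw [act_zsmul, Pi.smul_apply] at hw
    exact hx w (fun h => hw (by rw [h, smul_zero])) a

/-- polynomials of the last Jucys-Murphy element at the top component -/
theorem Ab.comp_aeval {t : Fin N} {m : Fin N → ℕ} (q : ℤ[X]) {x : W N (Fin (n + 1))}
    (ht : Ab t x) (hx : HW x) (hm : HasWt m x) :
    Ab t (act N _ (aeval (Y (Fin.last n)) q) x) ∧
      comp (act N _ (aeval (Y (Fin.last n)) q) x) t = (q.eval ((m t : ℤ) - 1 - (t : ℕ))) •
        comp x t := by
  induction q using Polynomial.induction_on' with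
  | add p q hp hq =>
    rw [map_add, act_add, eval_add, add_smul]
    refine ⟨fun b hb => ?_, ?_⟩
    · rw [comp_add, hp.1 b hb, hq.1 b hb, add_zero]
    · rw [comp_add, hp.2, hq.2]
  | monomial k a =>
    have h1 : Ab t (act N _ ((Y (Fin.last n)) ^ k) x) ∧
        comp (act N _ ((Y (Fin.last n)) ^ k) x) t =
          ((m t : ℤ) - 1 - (t : ℕ)) ^ k • comp x t := by
      induction k with
      | zero => rw [pow_zero, act_one, pow_zero, one_smul]; exact ⟨ht, rfl⟩
      | succ k ih =>
        have hx' : HW (act N _ ((Y (Fin.last n)) ^ k) x) := hx.act _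
        have hm' : HasWt m (act N _ ((Y (Fin.last n)) ^ k) x) := HasWt.act hm _
        rw [pow_succ', act_mul]
        refine ⟨ih.1.comp_Y_above hx', ?_⟩
        rw [ih.1.comp_Y_top hx' hm', ih.2, smul_smul, pow_succ']
    rw [aeval_monomial, Algebra.algebraMap_eq_smul_one, smul_mul_assoc, one_mul, act_zsmul,
      eval_monomial]
    refine ⟨fun b hb => ?_, ?_⟩
    · rw [comp_zsmul, h1.1 b hb, smul_zero]
    · rw [comp_zsmul, h1.2, smul_smul]

theorem comp_wt {t : Fin N} {m : Fin N → ℕ} {x : W N (Fin (n + 1))} (hm : HasWt m x)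
    (h0 : comp x t ≠ 0) :
    ∃ m' : Fin N → ℕ, HasWt m' (comp x t) ∧ ∀ a, m a = m' a + (if t = a then 1 else 0) := by
  obtain ⟨w0, hw0⟩ := H4.exists_ne h0
  refine ⟨cnt w0, ?_, fun a => ?_⟩
  · intro w hw a
    have h1 := hm _ hw a
    have h2 := hm _ hw0 a
    rw [cnt_snoc] at h1 h2
    omega
  · rw [← hm _ hw0 a, cnt_snoc]

/-- A criterion for the vanishing of the action. -/
theorem act_eq_zero {α : Type} [Fintype α] [DecidableEq α] {F F' : P α}
    (hadj : ∀ f h : W N α, ip (act N α F f) h = ip f (act N α F' h))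
    (hk : ∀ v : W N α, HW v → OneW v → act N α F' v = 0) : act N α F = 0 := by
  by_contra hne
  have hne' : LinearMap.range (act N α F) ≠ ⊥ := by
    intro h
    exact hne (LinearMap.range_eq_bot.1 h)
  obtain ⟨v, hv, hv0, hv1, hv2⟩ := exists_hw (LinearMap.range (act N α F)) (by
    rintro a b _ ⟨f, rfl⟩
    exact ⟨EE a b f, (EE_act a b F f).symm⟩) hne'
  obtain ⟨u, rfl⟩ := hv
  apply hv0
  apply ip_self_eq_zero
  rw [hadj, hk _ hv1 hv2, ip_zero_right]

theorem act_eq_zero_of_SA {α : Type} [Fintype α] [DecidableEq α] {F : P α} (hF : SA N F)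
    (hk : ∀ v : W N α, HW v → OneW v → act N α F v = 0) : act N α F = 0 :=
  act_eq_zero hF hk

end Pool.PI34.SG

end

/-! ### part X_Even2 -/
section

/-!
PI34, p = 2, block EVEN2: the even step is exact on the multiples of the two catalysts.
-/

set_option autoImplicit false
set_option linter.unusedSectionVars false

namespace Pool.PI34.EV

open Equiv Finset
open Pool.PI34.H4

variable {k : ℕ} (V : VCat k)

/-- an equality of the actions -/
theorem act_congr_emb {α β : Type} [Fintype α] [DecidableEq α] [Fintype β] [DecidableEq β]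
    {N : ℕ} (ι : α ↪ β) {x y : P α} (h : act N α x = act N α y) :
    act N β (emb ι x) = act N β (emb ι y) := by
  have h1 := act_emb_eq_zero (N := N) ι (x - y) (by rw [map_sub, h, sub_self])
  rw [map_sub, map_sub, sub_eq_zero] at h1
  exact h1

/-- the two copies `θ ⊗ θ` -/
noncomputable def VCat.tt (x : P V.B) : P (V.B ⊕ V.B) :=
  emb Function.Embedding.inl x * emb Function.Embedding.inr x

theorem VCat.inl_inr_comm (x y : P V.B) :
    Commute (emb (Function.Embedding.inl : V.B ↪ V.B ⊕ V.B) x)
      (emb (Function.Embedding.inr : V.B ↪ V.B ⊕ V.B) y) :=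
  commute_emb_emb _ _ (fun a b h => by cases h) x y

theorem VCat.tt_mul (x y : P V.B) : V.tt (x * y) = V.tt x * V.tt y := by
  unfold VCat.tt
  rw [map_mul, map_mul]
  have h := (V.inl_inr_comm y x).eq
  calc emb Function.Embedding.inl x * emb Function.Embedding.inl y *
        (emb Function.Embedding.inr x * emb Function.Embedding.inr y)
      = emb Function.Embedding.inl x * (emb Function.Embedding.inl y *
        emb Function.Embedding.inr x) * emb Function.Embedding.inr y := by
          simp only [mul_assoc]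
    _ = _ := by
          rw [h]
          simp only [mul_assoc]

theorem VCat.tt_congr {x y : P V.B} (h : act k _ x = act k _ y) :
    act k _ (V.tt x) = act k _ (V.tt y) := by
  unfold VCat.tt
  rw [map_mul, map_mul, act_congr_emb _ h, act_congr_emb _ h]

theorem VCat.tt_sq : act k _ (V.tt V.θ * V.tt V.θ) = (V.κ * V.κ) • act k _ (V.tt V.θ) := by
  rw [← V.tt_mul]
  have h1 : act k _ (V.θ * V.θ) = act k _ (V.κ • V.θ) := by
    rw [V.sq, map_zsmul]
  rw [V.tt_congr h1]
  have h2 : V.tt (V.κ • V.θ) = (V.κ * V.κ) • V.tt V.θ := by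
    unfold VCat.tt
    rw [map_zsmul, map_zsmul, smul_mul_assoc, mul_smul_comm, smul_smul]
  rw [h2, map_zsmul]

/-- the embedding of the catalyst strands -/
def VCat.jj (A : Type) : (V.B ⊕ V.B) ↪ Al V A :=
  (Function.Embedding.inr : (V.B ⊕ V.B) ↪ A ⊕ (V.B ⊕ V.B)).trans Function.Embedding.some

theorem VCat.θ2_eq (A : Type) [Fintype A] [DecidableEq A] :
    V.θ2 A = emb (V.jj A) (V.tt V.θ) := by
  unfold VCat.θ2 VCat.tt
  rw [map_mul, emb_trans, emb_trans]
  rfl

/-- the new strands as places of the second pair of catalysts -/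
def VCat.io (A : Type) : Big (A ⊕ (V.B ⊕ V.B)) k ↪ (Al V A) ⊕ (V.B ⊕ V.B) :=
  ⟨Sum.map id (Sum.map Sum.inr Sum.inr), by
    rintro (a | a | a) (b | b | b) h
    · exact congrArg Sum.inl (Sum.inl_injective h)
    · cases h
    · cases h
    · cases h
    · have h1 := Sum.inl_injective (Sum.inr_injective h)
      rw [Sum.inr_injective h1]
    · cases h
    · cases h
    · cases h
    · have h1 := Sum.inr_injective (Sum.inr_injective h)
      rw [Sum.inr_injective h1]⟩

theorem VCat.io_inl (A : Type) : (Function.Embedding.inl : Al V A ↪ Big (A ⊕ (V.B ⊕ V.B)) k).trans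
    (V.io A) = Function.Embedding.inl := rfl

theorem filter_eq {A B C : Type} [Fintype A] [DecidableEq A] [Fintype B] [DecidableEq B]
    [DecidableEq C] (c : A → C) (h : Perm (A ⊕ B)) (hc : Sum.map c id ∘ h = Sum.map c id) :
    ∃ h' : Perm A, c ∘ h' = c ∧ h = sumCongr h' 1 := by
  have hr : ∀ b : B, h (Sum.inr b) = Sum.inr b := by
    intro b
    have h1 := congrFun hc (Sum.inr b)
    simp only [Function.comp_apply, Sum.map_inr, id] at h1
    rcases hb : h (Sum.inr b) with a | b'
    · rw [hb] at h1
      cases h1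
    · rw [hb] at h1
      simp only [Sum.map_inr, id] at h1
      rw [Sum.inr_injective h1]
  have hl : ∀ a : A, ∃ a' : A, h (Sum.inl a) = Sum.inl a' := by
    intro a
    rcases ha : h (Sum.inl a) with a' | b'
    · exact ⟨a', rfl⟩
    · exfalso
      have h1 : h (Sum.inl a) = h (Sum.inr b') := by rw [ha, hr]
      cases h.injective h1
  choose f hf using hl
  have hfi : Function.Injective f := by
    intro a a' e
    have h1 : h (Sum.inl a) = h (Sum.inl a') := by rw [hf, hf, e]
    exact Sum.inl_injective (h.injective h1)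
  refine ⟨Equiv.ofBijective f (Finite.injective_iff_bijective.1 hfi), ?_, ?_⟩
  · funext a
    have h1 := congrFun hc (Sum.inl a)
    simp only [Function.comp_apply, Sum.map_inl, hf] at h1
    exact Sum.inl_injective h1
  · ext x
    rcases x with a | b
    · rw [hf]
      rfl
    · rw [hr]
      rfl

theorem bsw_comm {α β : Type} [DecidableEq α] [DecidableEq β] [Fintype β] (j : β ↪ α)
    (σ : Perm (α ⊕ β)) (h1 : ∀ b, σ (Sum.inl (j b)) = Sum.inl (j b))
    (h2 : ∀ b, σ (Sum.inr b) = Sum.inr b) : Commute σ (bsw j) := by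
  unfold bsw
  refine Commute.list_prod_right _ _ (fun τ hτ => ?_)
  rw [List.mem_map] at hτ
  obtain ⟨b, -, rfl⟩ := hτ
  unfold Commute SemiconjBy
  rw [mul_swap_eq_swap_mul, h1, h2]

theorem hh_eq {A : Type} (k : ℕ) (h : Perm A) :
    hh k h = (oh h).viaEmbedding (Function.Embedding.inl : Option A ↪ Big A k) := by
  ext x
  rcases x with x | x
  · rw [show (Sum.inl x : Big A k) = (Function.Embedding.inl : Option A ↪ Big A k) x from rfl,
      Perm.viaEmbedding_apply]
    rfl
  · rw [Perm.viaEmbedding_apply_of_notMem]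
    · rfl
    · rintro ⟨y, hy⟩
      cases hy

theorem viaEmbedding_inv' {α β : Type} (ι : α ↪ β) (σ : Perm α) :
    (σ⁻¹).viaEmbedding ι = (σ.viaEmbedding ι)⁻¹ := by
  have h := map_inv (Perm.viaEmbeddingHom ι) σ
  rw [Perm.viaEmbeddingHom_apply, Perm.viaEmbeddingHom_apply] at h
  exact h

theorem VCat.io_hh (A : Type) (h' : Perm A) :
    emb (V.io A) (g (hh k (sumCongr h' 1))) = emb Function.Embedding.inl (g (V.hA h')) := by
  rw [emb_g, emb_g, hh_eq, viaEmbedding_trans, V.io_inl]
  rfl

theorem VCat.io_hh_inv (A : Type) (h' : Perm A) :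
    emb (V.io A) (g (hh k (sumCongr h' 1))⁻¹) = emb Function.Embedding.inl (g (V.hA h')⁻¹) := by
  have h := V.io_hh A h'
  rw [emb_g, emb_g] at h
  have h1 := MonoidAlgebra.of_injective (R := ℤ) h
  rw [emb_g, emb_g, viaEmbedding_inv', viaEmbedding_inv', h1]

theorem VCat.hA_sw (A : Type) [DecidableEq A] (h' : Perm A) :
    Commute (emb (Function.Embedding.inl : Al V A ↪ Al V A ⊕ (V.B ⊕ V.B)) (g (V.hA h')))
      (g (bsw (V.jj A))) := by
  rw [emb_g]
  unfold Commute SemiconjBy
  rw [← g_mul, ← g_mul]
  congr 1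
  refine bsw_comm _ _ (fun b => ?_) (fun b => ?_)
  · have e := Perm.viaEmbedding_apply (V.hA h')
      (Function.Embedding.inl : Al V A ↪ Al V A ⊕ (V.B ⊕ V.B)) (V.jj A b)
    rw [show (Function.Embedding.inl : Al V A ↪ Al V A ⊕ (V.B ⊕ V.B)) (V.jj A b) =
      Sum.inl (V.jj A b) from rfl] at e
    rw [e]
    rfl
  · rw [Perm.viaEmbedding_apply_of_notMem]
    rintro ⟨y, hy⟩
    cases hy

theorem VCat.hA_inv (A : Type) (h' : Perm A) : (V.hA h')⁻¹ = V.hA h'⁻¹ := by
  ext x
  rcases x with _ | (a | b) <;> rfl

theorem even2 (hPT : PTr) (hE : Even1) (A C : Type) [Fintype A] [DecidableEq A] [DecidableEq C]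
    (c : A → C) (v : P (Al V A))
    (hv : act k (Al V A) (∑ h ∈ univ.filter (fun h : Perm A => c ∘ h = c),
      g (V.hA h) * (v * V.θ2 A) * g (V.hA h)⁻¹) = 0)
    (W : Type) [AddCommGroup W] (lam : P (Al V A) →+ W)
    (h1 : ∀ y, act k _ y = 0 → lam y = 0)
    (h2 : ∀ h : Perm A, c ∘ h = c → ∀ y, lam (g (V.hA h) * y * g (V.hA h)⁻¹) = lam y) :
    (V.κ * V.κ) • lam (v * V.θ2 A) = 0 := by
  classical
  obtain ⟨PT, p1, p2, p3, -⟩ := hPT k (Al V A) (V.B ⊕ V.B)
  -- the functional
  let yy : P ((Al V A) ⊕ (V.B ⊕ V.B)) := emb Function.Embedding.inr (V.tt V.y)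
  let sw : P ((Al V A) ⊕ (V.B ⊕ V.B)) := g (bsw (V.jj A))
  let lam1 : P (Big (A ⊕ (V.B ⊕ V.B)) k) →+ W :=
    lam.comp (PT.comp ((AddMonoidHom.mulRight sw).comp ((AddMonoidHom.mulLeft yy).comp
      (emb (V.io A)).toAddMonoidHom)))
  have hlam1 : ∀ x, lam1 x = lam (PT (yy * emb (V.io A) x * sw)) := fun x => rfl
  have q1 : ∀ y, act k _ y = 0 → lam1 y = 0 := by
    intro y hy
    rw [hlam1]
    refine h1 _ (p1 _ ?_)
    rw [map_mul, map_mul, act_emb_eq_zero _ _ hy, mul_zero, zero_mul]
  have hyc : ∀ x : P (Al V A), Commute (emb Function.Embedding.inl x) yy := fun x =>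
    commute_emb_emb _ _ (fun a b h => by cases h) _ _
  have q2 : ∀ h : Perm (A ⊕ (V.B ⊕ V.B)), (Sum.map c id : A ⊕ (V.B ⊕ V.B) → C ⊕ (V.B ⊕ V.B)) ∘ h
      = Sum.map c id → ∀ y, lam1 (g (hh k h) * y * g (hh k h)⁻¹) = lam1 y := by
    intro h hc y
    obtain ⟨h', hc', rfl⟩ := filter_eq c h hc
    rw [hlam1, hlam1, map_mul (emb (V.io A)), map_mul (emb (V.io A)), V.io_hh, V.io_hh_inv]
    set Y := emb (V.io A) y with hY
    have e1 : yy * (emb Function.Embedding.inl (g (V.hA h')) * Y *
        emb Function.Embedding.inl (g (V.hA h')⁻¹)) * sw =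
        emb Function.Embedding.inl (g (V.hA h')) * (yy * Y * sw) *
          emb Function.Embedding.inl (g (V.hA h')⁻¹) := by
      have e2 : emb Function.Embedding.inl (g (V.hA h')⁻¹) * sw =
          sw * emb Function.Embedding.inl (g (V.hA h')⁻¹) := by
        rw [V.hA_inv]
        exact (V.hA_sw A h'⁻¹).eq
      calc _ = (yy * emb Function.Embedding.inl (g (V.hA h'))) * Y *
            (emb Function.Embedding.inl (g (V.hA h')⁻¹) * sw) := by simp only [mul_assoc]
        _ = _ := by
          rw [e2, ← (hyc (g (V.hA h'))).eq]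
          simp only [mul_assoc]
    rw [e1, p2, h2 h' hc']
  have q3 : act k (Option (A ⊕ (V.B ⊕ V.B))) (∑ h ∈ univ.filter
      (fun h : Perm (A ⊕ (V.B ⊕ V.B)) =>
        (Sum.map c id : A ⊕ (V.B ⊕ V.B) → C ⊕ (V.B ⊕ V.B)) ∘ h = Sum.map c id),
      g (oh h) * (v * V.θ2 A) * g (oh h)⁻¹) = 0 := by
    rw [← hv]
    congr 1
    symm
    refine Finset.sum_bij (fun h' _ => sumCongr h' 1) ?_ ?_ ?_ ?_
    · intro h' hh'
      rw [mem_filter] at hh' ⊢
      refine ⟨mem_univ _, ?_⟩
      funext x
      rcases x with a | b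
      · have := congrFun hh'.2 a
        simp only [Function.comp_apply] at this
        simp [this]
      · rfl
    · intro a _ b _ e
      ext x
      have := congrArg (fun σ : Perm (A ⊕ (V.B ⊕ V.B)) => σ (Sum.inl x)) e
      simpa using this
    · intro h hh'
      rw [mem_filter] at hh'
      obtain ⟨h', hc', rfl⟩ := filter_eq c h hh'.2
      exact ⟨h', by rw [mem_filter]; exact ⟨mem_univ _, hc'⟩, rfl⟩
    · intro h' _
      rfl
  have q4 := hE k (A ⊕ (V.B ⊕ V.B)) (C ⊕ (V.B ⊕ V.B)) (Sum.map c id) (v * V.θ2 A) q3 W lam1 q1 q2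
  rw [hlam1, map_mul (emb (V.io A)), map_mul (emb (V.io A)), emb_trans, emb_trans, emb_trans,
    V.io_inl] at q4
  set AA : P V.B := emb Function.Embedding.inr (As (Fin k)) with hAA
  have e3 : emb ((Function.Embedding.inl.trans Function.Embedding.inr).trans (V.io A))
      (As (Fin k)) * emb ((Function.Embedding.inr.trans Function.Embedding.inr).trans (V.io A))
      (As (Fin k)) = emb Function.Embedding.inr (V.tt AA) := by
    unfold VCat.tt
    rw [hAA, map_mul, emb_trans, emb_trans, emb_trans, emb_trans]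
    rfl
  rw [e3] at q4
  have e4 : yy * (emb Function.Embedding.inl (v * V.θ2 A) * emb Function.Embedding.inr (V.tt AA)) *
      sw = emb Function.Embedding.inl (v * V.θ2 A) *
        (emb Function.Embedding.inr (V.tt (V.y * AA)) * sw) * emb Function.Embedding.inl 1 := by
    have hyy : emb Function.Embedding.inr (V.tt (V.y * AA)) =
        yy * emb Function.Embedding.inr (V.tt AA) := by
      rw [V.tt_mul, map_mul]
    rw [hyy, map_one, mul_one]
    have h3 := (hyc (v * V.θ2 A)).eq
    generalize emb Function.Embedding.inl (v * V.θ2 A) = E0 at h3 ⊢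
    rw [← mul_assoc yy E0, ← h3]
    simp only [mul_assoc]
  rw [e4, p2, mul_one] at q4
  have e5 : act k _ (PT (emb Function.Embedding.inr (V.tt (V.y * AA)) * sw)) =
      act k _ (V.θ2 A) := by
    have e6 : act k _ (PT (emb Function.Embedding.inr (V.tt (V.y * AA)) * sw)) =
        act k _ (PT (emb Function.Embedding.inr (V.tt V.θ) * sw)) := by
      rw [← sub_eq_zero, ← map_sub, ← map_sub]
      refine p1 _ ?_
      rw [← sub_mul, ← map_sub, map_mul]
      rw [act_emb_eq_zero, zero_mul]
      rw [map_sub, sub_eq_zero]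
      exact (V.tt_congr V.fac).symm
    rw [e6, p3, V.θ2_eq]
  have e7 : act k _ ((v * V.θ2 A) * PT (emb Function.Embedding.inr (V.tt (V.y * AA)) * sw)) =
      act k _ ((V.κ * V.κ) • (v * V.θ2 A)) := by
    have e8 : act k _ (V.θ2 A * V.θ2 A) = (V.κ * V.κ) • act k _ (V.θ2 A) := by
      rw [V.θ2_eq, ← map_mul, act_congr_emb (V.jj A) (y := (V.κ * V.κ) • V.tt V.θ), map_zsmul,
        map_zsmul]
      rw [V.tt_sq, map_zsmul]
    rw [map_mul, e5, ← map_mul, mul_assoc, map_mul, e8, map_zsmul, map_mul, mul_smul_comm]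
  have e9 : lam ((v * V.θ2 A) * PT (emb Function.Embedding.inr (V.tt (V.y * AA)) * sw)) =
      lam ((V.κ * V.κ) • (v * V.θ2 A)) := by
    rw [← sub_eq_zero, ← map_sub]
    refine h1 _ ?_
    rw [map_sub, e7, sub_self]
  rw [e9, map_zsmul] at q4
  exact q4

end Pool.PI34.EV

end

/-! ### part SG_Pol -/
section

/-!
PI34, block SG, file 3: the spectrum of the Jucys-Murphy elements, residue polynomials.
-/

set_option autoImplicit false
set_option linter.unusedSectionVars false
set_option linter.unusedDecidableInType false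
set_option linter.unusedFintypeInType false

namespace Pool.PI34.SG

open Equiv Finset Polynomial
open Pool.PI34.H4

/-- parity -/
def par (c : ℤ) : Bool := decide (Even c)

/-- the sign of a parity -/
def vv (b : Bool) : ℤ := if b then 1 else -1

theorem par_iff (c : ℤ) : par c = true ↔ Even c := by simp [par]

/-- product of the linear factors of a finite set -/
noncomputable def lin (S : Finset ℤ) : ℤ[X] := ∏ c ∈ S, (X - C c)

theorem lin_eval (S : Finset ℤ) (c : ℤ) : (lin S).eval c = ∏ d ∈ S, (c - d) := by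
  unfold lin
  rw [eval_prod]
  simp

theorem lin_dvd {S T : Finset ℤ} (h : S ⊆ T) : lin S ∣ lin T := Finset.prod_dvd_prod_of_subset _ _ _ h

/-- Bezout up to an odd integer -/
theorem bez (S T : Finset ℤ) (hS : ∀ c ∈ S, Even c) (hT : ∀ c ∈ T, ¬ Even c) :
    ∃ (a b : ℤ[X]) (D : ℤ), Odd D ∧ a * lin S + b * lin T = C D := by
  classical
  induction S using Finset.induction_on with
  | empty => exact ⟨1, 0, 1, odd_one, by simp [lin]⟩
  | insert c S hc ih =>
    obtain ⟨a, b, D, hD, h⟩ := ih (fun c hc => hS c (mem_insert_of_mem hc))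
    have h1 : Odd ((lin T).eval c) := by
      rw [lin_eval]
      refine Finset.prod_induction (fun d => c - d) Odd (fun _ _ => Odd.mul) odd_one ?_
      intro d hd
      have h2 := hS c (mem_insert_self _ _)
      have h3 := Int.not_even_iff_odd.1 (hT d hd)
      exact h2.sub_odd h3
    obtain ⟨q, hq⟩ : (X - C c) ∣ lin T - C ((lin T).eval c) := by
      rw [dvd_iff_isRoot]
      simp
    refine ⟨-a * q, b * C ((lin T).eval c) + a * lin S, D * (lin T).eval c, hD.mul h1, ?_⟩
    have h4 : lin (insert c S) = (X - C c) * lin S := Finset.prod_insert hc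
    rw [h4, C_mul, ← h]
    linear_combination (a * lin S) * hq

/-- the interval of the contents -/
noncomputable def rg (M : ℕ) : Finset ℤ := Finset.Icc (-(M : ℤ)) M

theorem exists_G (M : ℕ) : ∃ (D : ℤ) (G : Bool → ℤ[X]), 0 < D ∧ Odd D ∧
    G true + G false = C D ∧ ∀ b, lin ((rg M).filter (fun c => par c ≠ b)) ∣ G b := by
  obtain ⟨a, b, D, hD, h⟩ := bez ((rg M).filter (fun c => par c ≠ false))
    ((rg M).filter (fun c => par c ≠ true)) (fun c hc => by
      rw [mem_filter] at hc
      have := hc.2
      rw [Bool.ne_false_iff, par_iff] at this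
      exact this) (fun c hc => by
      rw [mem_filter] at hc
      have := hc.2
      rw [ne_eq, par_iff] at this
      exact this)
  rcases lt_or_gt_of_ne (show D ≠ 0 by rintro rfl; exact absurd hD (by decide)) with h0 | h0
  · refine ⟨-D, fun c => if c then -(b * lin ((rg M).filter (fun c => par c ≠ true))) else
      -(a * lin ((rg M).filter (fun c => par c ≠ false))), by omega, hD.neg, ?_, ?_⟩
    · simp only [if_true, Bool.false_eq_true, if_false]
      rw [C_neg, ← h]
      ring
    · intro c
      cases c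
      · simp only [Bool.false_eq_true, if_false]
        exact (dvd_mul_left _ _).neg_right
      · simp only [if_true]
        exact (dvd_mul_left _ _).neg_right
  · refine ⟨D, fun c => if c then (b * lin ((rg M).filter (fun c => par c ≠ true))) else
      (a * lin ((rg M).filter (fun c => par c ≠ false))), h0, hD, ?_, ?_⟩
    · simp only [if_true, Bool.false_eq_true, if_false]
      rw [← h]
      ring
    · intro c
      cases c
      · simp only [Bool.false_eq_true, if_false]
        exact dvd_mul_left _ _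
      · simp only [if_true]
        exact dvd_mul_left _ _

/-- the data of the residue polynomials -/
structure Res (M : ℕ) where
  /-- the odd integer -/
  D : ℤ
  /-- the polynomials -/
  G : Bool → ℤ[X]
  pos : 0 < D
  odd : Odd D
  add : G true + G false = C D
  dvd : ∀ b, lin ((rg M).filter (fun c => par c ≠ b)) ∣ G b

theorem exists_res (M : ℕ) : Nonempty (Res M) := by
  obtain ⟨D, G, h1, h2, h3, h4⟩ := exists_G M
  exact ⟨⟨D, G, h1, h2, h3, h4⟩⟩

namespace Res

variable {M : ℕ} (R : Res M)

theorem add' (b : Bool) : R.G b + R.G (!b) = C R.D := by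
  cases b
  · rw [Bool.not_false, add_comm]; exact R.add
  · exact R.add

theorem eval_ne {b : Bool} {c : ℤ} (hc : c ∈ rg M) (h : par c ≠ b) : (R.G b).eval c = 0 := by
  obtain ⟨q, hq⟩ := R.dvd b
  rw [hq, eval_mul, lin_eval, Finset.prod_eq_zero (i := c)]
  · rw [zero_mul]
  · rw [mem_filter]
    exact ⟨hc, h⟩
  · exact sub_self _

theorem eval_eq {c : ℤ} (hc : c ∈ rg M) : (R.G (par c)).eval c = R.D := by
  have h1 := R.add' (par c)
  have h2 := congrArg (fun p => eval c p) h1
  simp only [eval_add, eval_C] at h2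
  rw [R.eval_ne (b := !par c) hc (by cases par c <;> simp), add_zero] at h2
  exact h2

theorem par_of_eval {b : Bool} {c : ℤ} (hc : c ∈ rg M) (h : (R.G b).eval c = R.D) : par c = b := by
  by_contra hne
  rw [R.eval_ne hc hne] at h
  exact R.pos.ne h

theorem mul_dvd {b b' : Bool} (h : b ≠ b') : lin (rg M) ∣ R.G b * R.G b' := by
  have h1 : lin (rg M) = lin ((rg M).filter (fun c => par c ≠ b)) *
      lin ((rg M).filter (fun c => par c ≠ b')) := by
    unfold lin
    rw [← Finset.prod_union]
    · congr 1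
      ext c
      rw [mem_union, mem_filter, mem_filter]
      constructor
      · intro hc
        by_cases h1 : par c = b
        · exact Or.inr ⟨hc, by rw [h1]; exact h⟩
        · exact Or.inl ⟨hc, h1⟩
      · rintro (hc | hc)
        · exact hc.1
        · exact hc.1
    · rw [Finset.disjoint_left]
      intro c hc hc'
      rw [mem_filter] at hc hc'
      have h2 := hc.2
      have h3 := hc'.2
      revert h h2 h3
      cases b <;> cases b' <;> cases par c <;> simp
  rw [h1]
  exact mul_dvd_mul (R.dvd b) (R.dvd b')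

end Res

variable {N n : ℕ}

/-- products over the letters -/
theorem prod_letters {m : Fin N → ℕ} (t0 : ℕ) (ht0 : t0 ≤ N) : ∀ {x : W N (Fin (n + 1))},
    HW x → HasWt m x → (∀ b : Fin N, t0 ≤ (b : ℕ) → comp x b = 0) →
    act N _ (aeval (Y (Fin.last n)) (∏ t ∈ univ.filter (fun t : Fin N => (t : ℕ) < t0),
      (X - C ((m t : ℤ) - 1 - (t : ℕ))))) x = 0 := by
  induction t0 with
  | zero =>
    intro x _ _ h
    have : x = 0 := comp_ext fun t => by rw [h t (Nat.zero_le _), comp_zero]
    rw [this, map_zero]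
  | succ t0 ih =>
    intro x hx hm h
    let t : Fin N := ⟨t0, ht0⟩
    have hs : univ.filter (fun t : Fin N => (t : ℕ) < t0 + 1) =
        insert t (univ.filter (fun t : Fin N => (t : ℕ) < t0)) := by
      ext b
      rw [mem_insert, mem_filter, mem_filter, Fin.ext_iff]
      simp only [mem_univ, true_and]
      change _ ↔ (b : ℕ) = t0 ∨ _
      omega
    rw [hs, Finset.prod_insert (by simp [t]), mul_comm, map_mul, act_mul]
    have hA : Ab t x := fun b hb => h b (by
      have : t0 < (b : ℕ) := hb
      omega)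
    apply ih (by omega)
    · exact hx.act _
    · exact HasWt.act hm _
    · intro b hb
      rcases hb.lt_or_eq with hb | hb
      · exact (hA.comp_aeval _ hx hm).1 b hb
      · have hbt : b = t := Fin.ext hb.symm
        rw [hbt, (hA.comp_aeval _ hx hm).2]
        simp

theorem sum_wt {α : Type} [Fintype α] [DecidableEq α] {m : Fin N → ℕ} {x : W N α}
    (hm : HasWt m x) (h0 : x ≠ 0) : ∑ t, m t = Fintype.card α := by
  obtain ⟨w, hw⟩ := H4.exists_ne h0
  rw [← sum_cnt w]
  exact Finset.sum_congr rfl (fun t _ => (hm w hw t).symm)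

theorem content_mem {m : Fin N → ℕ} {x : W N (Fin (n + 1))} (hm : HasWt m x) (h0 : x ≠ 0)
    {M : ℕ} (hM : n + 1 + N ≤ M) (t : Fin N) : ((m t : ℤ) - 1 - (t : ℕ)) ∈ rg M := by
  have h1 := sum_wt hm h0
  rw [Fintype.card_fin] at h1
  have h2 : m t ≤ ∑ t, m t := Finset.single_le_sum (fun _ _ => Nat.zero_le _) (mem_univ t)
  have h3 := t.2
  unfold rg
  rw [Finset.mem_Icc]
  constructor <;> omega

theorem act_lin_last {M : ℕ} (hM : n + 1 + N ≤ M) :
    act N _ (aeval (Y (Fin.last n)) (lin (rg M))) = 0 := by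
  apply act_eq_zero_of_SA ((SA_Y _).aeval _)
  intro x hx h1
  by_cases h0 : x = 0
  · rw [h0, map_zero]
  · obtain ⟨w0, hw0, hm⟩ := h1.exists_wt h0
    set m := cnt w0 with hmdef
    have hinj : Function.Injective (fun t : Fin N => ((m t : ℤ) - 1 - (t : ℕ))) := by
      have key : ∀ a b : Fin N, a < b → ((m b : ℤ) - 1 - (b : ℕ)) < ((m a : ℤ) - 1 - (a : ℕ)) := by
        intro a b hab
        have h2 := dominant hx hm h0 hab
        have h3 : (a : ℕ) < b := hab
        have h4 : (m b : ℤ) ≤ m a := by exact_mod_cast h2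
        have h5 : ((a : ℕ) : ℤ) < (b : ℕ) := by exact_mod_cast h3
        linarith
      intro a b hab
      rcases lt_trichotomy a b with h | h | h
      · exact absurd hab (key a b h).ne'
      · exact h
      · exact absurd hab (key b a h).ne
    have h2 := prod_letters (m := m) N le_rfl hx hm (fun b hb => absurd b.2 (not_lt.2 hb))
    have h3 : (∏ t ∈ univ.filter (fun t : Fin N => (t : ℕ) < N),
        (X - C ((m t : ℤ) - 1 - (t : ℕ)))) ∣ lin (rg M) := by
      have h4 : univ.filter (fun t : Fin N => (t : ℕ) < N) = univ :=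
        Finset.filter_true_of_mem fun t _ => t.2
      rw [h4]
      have h5 : ∏ t : Fin N, (X - C ((m t : ℤ) - 1 - (t : ℕ))) =
          lin (univ.image (fun t : Fin N => ((m t : ℤ) - 1 - (t : ℕ)))) := by
        unfold lin
        rw [Finset.prod_image (fun a _ b _ h => hinj h)]
      rw [h5]
      apply lin_dvd
      intro c hc
      obtain ⟨t, _, rfl⟩ := Finset.mem_image.1 hc
      exact content_mem hm h0 hM t
    obtain ⟨q, hq⟩ := h3
    rw [hq, mul_comm, map_mul, act_mul, h2, map_zero]

theorem emb_aeval {α β : Type} (ι : α ↪ β) (y : P α) (q : ℤ[X]) :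
    emb ι (aeval y q) = aeval (emb ι y) q := by
  induction q using Polynomial.induction_on' with
  | add p q hp hq => rw [map_add, map_add, map_add, hp, hq]
  | monomial k a =>
    rw [aeval_monomial, aeval_monomial, map_mul, map_pow]
    congr 1
    rw [Algebra.algebraMap_eq_smul_one, Algebra.algebraMap_eq_smul_one, emb_zsmul, map_one]

theorem act_lin {M : ℕ} (hM : n + N ≤ M) (k : Fin n) :
    act N _ (aeval (Y k) (lin (rg M))) = 0 := by
  have hk : (k : ℕ) + 1 ≤ n := k.2
  have h1 := act_lin_last (N := N) (n := k) (M := M) (by omega)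
  have h2 := act_emb_eq_zero (N := N) (Fin.castLEEmb hk) _ h1
  rw [emb_aeval, emb_Y _ (fun i => rfl)] at h2
  have h3 : (Fin.castLEEmb hk) (Fin.last (k : ℕ)) = k := Fin.ext rfl
  rw [h3] at h2
  exact h2

/-- the action is faithful when there are enough letters -/
theorem act_faithful (n : ℕ) (y : P (Fin n)) (h : act n (Fin n) y = 0) : y = 0 := by
  have key : ∀ (y : P (Fin n)) (τ : Perm (Fin n)),
      act n (Fin n) y (Pi.single id 1) (⇑τ) = ((y.coeff τ⁻¹ : ℤ) : ℚ) := by
    intro y τ
    refine P_induction (p := fun y => act n (Fin n) y (Pi.single id 1) (⇑τ) =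
      ((y.coeff τ⁻¹ : ℤ) : ℚ)) y ?_ ?_ ?_
    · intro σ
      rw [act_g, Pi.single_apply]
      have h1 : ((⇑τ ∘ ⇑σ : Fin n → Fin n) = id) ↔ σ = τ⁻¹ := by
        constructor
        · intro h
          apply eq_inv_of_mul_eq_one_right
          ext i
          exact congrArg Fin.val (congrFun h i)
        · intro h
          rw [h]
          funext i
          simp
      simp only [h1]
      simp [g, MonoidAlgebra.of_apply, MonoidAlgebra.coeff_single, Finsupp.single_apply, eq_comm]
    · intro a b ha hb
      rw [act_add, Pi.add_apply, ha, hb]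
      simp
    · intro m a ha
      rw [act_zsmul, Pi.smul_apply, ha, MonoidAlgebra.coeff_smul, Finsupp.smul_apply]
      simp
  ext τ
  have h1 := key y τ⁻¹
  rw [h] at h1
  simp only [LinearMap.zero_apply, Pi.zero_apply, inv_inv] at h1
  have h2 : y.coeff τ = 0 := by exact_mod_cast h1.symm
  simpa using h2

/-- the minimal polynomial, exactly -/
theorem lin_Y {M : ℕ} (hM : 2 * n ≤ M) (k : Fin n) : aeval (Y k) (lin (rg M)) = 0 :=
  act_faithful n _ (act_lin (by omega) k)

end Pool.PI34.SG

end

/-! ### part SG_Cat -/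
section

/-!
PI34, block SG, file 4: paths of highest weight vectors, the catalyst.
-/

set_option autoImplicit false
set_option linter.unusedSectionVars false
set_option linter.unusedDecidableInType false
set_option linter.unusedFintypeInType false

namespace Pool.PI34.SG

open Equiv Finset Polynomial
open Pool.PI34.H4

variable {N n : ℕ}

theorem smul_cancel {α : Type} {x : W N α} (h0 : x ≠ 0) {a b : ℤ} (h : a • x = b • x) : a = b := by
  have h1 : ((a : ℚ) - b) • x = 0 := by
    rw [sub_smul, Int.cast_smul_eq_zsmul, Int.cast_smul_eq_zsmul, h, sub_self]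
  rcases smul_eq_zero.1 h1 with h2 | h2
  · have : (a : ℚ) = b := by linarith
    exact_mod_cast this
  · exact absurd h2 h0

/-- One step down. -/
theorem step {m : Fin N → ℕ} {x : W N (Fin (n + 1))} (h0 : x ≠ 0) (hx : HW x) (hm : HasWt m x) :
    ∃ (t : Fin N) (m' : Fin N → ℕ), comp x t ≠ 0 ∧ HW (comp x t) ∧ HasWt m' (comp x t) ∧
      Ab t x ∧
      (∀ a, m a = m' a + (if t = a then 1 else 0)) ∧
      (∀ (y : P (Fin n)) (c : ℤ), act N _ (emb Fin.castSuccEmb y) x = c • x →
        act N _ y (comp x t) = c • comp x t) ∧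
      (∀ (q : ℤ[X]) (c : ℤ), act N _ (aeval (Y (Fin.last n)) q) x = c • x →
        q.eval ((m t : ℤ) - 1 - (t : ℕ)) = c) := by
  obtain ⟨t, ht, hA⟩ := exists_top' h0
  obtain ⟨m', hm', hmm⟩ := comp_wt hm ht
  refine ⟨t, m', ht, hA.comp_HW hx, hm', hA, hmm, ?_, ?_⟩
  · intro y c h
    rw [← comp_act_emb, h, comp_zsmul]
  · intro q c h
    have h1 := (hA.comp_aeval q hx hm).2
    rw [h, comp_zsmul] at h1
    exact (smul_cancel ht h1).symm

/-- the potential -/
def Phi (m : Fin N → ℕ) : ℤ := ∑ t : Fin N, vv (par ((m t : ℤ) + N - 1 - (t : ℕ)))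

theorem vv_sq (b : Bool) : vv b * vv b = 1 := by cases b <;> simp [vv]

theorem vv_par_add (a b : ℤ) : vv (par (a + b)) = vv (par a) * vv (par b) := by
  unfold vv par
  rcases Int.even_or_odd a with ha | ha <;> rcases Int.even_or_odd b with hb | hb
  · simp [ha.add hb, ha, hb]
  · simp [ha.add_odd hb, ha, Int.not_even_iff_odd.2 hb, Int.not_even_iff_odd.2 (ha.add_odd hb)]
  · simp [ha.add_even hb, hb, Int.not_even_iff_odd.2 ha, Int.not_even_iff_odd.2 (ha.add_even hb)]
  · simp [ha.add_odd hb, Int.not_even_iff_odd.2 ha, Int.not_even_iff_odd.2 hb]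

theorem vv_par_add_one (a : ℤ) : vv (par (a + 1)) = - vv (par a) := by
  rw [vv_par_add]
  have : vv (par 1) = -1 := by simp [vv, par]
  rw [this]
  ring

theorem Phi_step {m m' : Fin N → ℕ} {t : Fin N} (h : ∀ a, m a = m' a + (if t = a then 1 else 0)) :
    Phi m = Phi m' + 2 * (vv (par N) * vv (par ((m t : ℤ) - 1 - (t : ℕ)))) := by
  unfold Phi
  rw [← Finset.add_sum_erase _ _ (mem_univ t),
    ← Finset.add_sum_erase univ (fun t : Fin N => vv (par ((m' t : ℤ) + N - 1 - (t : ℕ))))
      (mem_univ t)]
  have h1 : ∑ a ∈ univ.erase t, vv (par ((m a : ℤ) + N - 1 - (a : ℕ))) =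
      ∑ a ∈ univ.erase t, vv (par ((m' a : ℤ) + N - 1 - (a : ℕ))) := by
    refine Finset.sum_congr rfl (fun a ha => ?_)
    rw [h a, if_neg (Finset.ne_of_mem_erase ha).symm, add_zero]
  have h2 : (m t : ℤ) = m' t + 1 := by
    rw [h t, if_pos rfl]
    push_cast
    ring
  have h3 : vv (par ((m t : ℤ) + N - 1 - (t : ℕ))) =
      - vv (par ((m' t : ℤ) + N - 1 - (t : ℕ))) := by
    rw [← vv_par_add_one, h2]
    congr 2
    ring
  have h4 : vv (par N) * vv (par ((m t : ℤ) - 1 - (t : ℕ))) =
      vv (par ((m t : ℤ) + N - 1 - (t : ℕ))) := by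
    rw [← vv_par_add]
    congr 2
    ring
  rw [h1, h4, h3]
  ring

/-- the potential along a path (from nothing) -/
theorem path {M : ℕ} (R : Res M) (hM : n + N ≤ M) (ν : Fin n → Bool) :
    ∀ {m : Fin N → ℕ} {x : W N (Fin n)}, x ≠ 0 → HW x → HasWt m x →
      (∀ k, act N _ (aeval (Y k) (R.G (ν k))) x = R.D • x) →
      Phi m = Phi (fun _ : Fin N => 0) + 2 * ∑ k, vv (par N) * vv (ν k) := by
  induction n with
  | zero =>
    intro m x h0 _ hm _
    obtain ⟨w, hw⟩ := H4.exists_ne h0
    have h1 : m = fun _ => 0 := by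
      funext a
      rw [← hm w hw a]
      simp [cnt]
    rw [h1]
    simp
  | succ n ih =>
    intro m x h0 hx hm hk
    obtain ⟨t, m', ht, hx', hm', hA, hmm, h1, h2⟩ := step h0 hx hm
    have h3 := ih (by omega) (fun k => ν k.castSucc) ht hx' hm' (fun k => by
      apply h1
      rw [emb_aeval, emb_Y _ (fun i => rfl)]
      exact hk k.castSucc)
    have h4 := h2 _ _ (hk (Fin.last n))
    have h5 := R.par_of_eval (content_mem hm h0 (by omega) t) h4
    rw [Phi_step hmm, h3, h5, Fin.sum_univ_castSucc]
    ring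

theorem Phi_le (m : Fin N → ℕ) : Phi m ≤ N ∧ -N ≤ Phi m ∧
    (Phi m = N → ∀ t : Fin N, Even ((m t : ℤ) + N - 1 - (t : ℕ))) := by
  have hle : ∀ t : Fin N, vv (par ((m t : ℤ) + N - 1 - (t : ℕ))) ≤ 1 := by
    intro t
    unfold vv
    split_ifs <;> norm_num
  have hge : ∀ t : Fin N, -1 ≤ vv (par ((m t : ℤ) + N - 1 - (t : ℕ))) := by
    intro t
    unfold vv
    split_ifs <;> norm_num
  have h1 : ∑ _t : Fin N, (1 : ℤ) = N := by simp
  have h2 : ∑ _t : Fin N, (-1 : ℤ) = -N := by simp
  refine ⟨?_, ?_, ?_⟩
  · rw [← h1]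
    exact Finset.sum_le_sum fun t _ => hle t
  · rw [← h2]
    exact Finset.sum_le_sum fun t _ => hge t
  · intro h t
    have h3 : ∑ t : Fin N, (1 - vv (par ((m t : ℤ) + N - 1 - (t : ℕ)))) = 0 := by
      rw [Finset.sum_sub_distrib, h1]
      unfold Phi at h
      rw [h, sub_self]
    have h4 := (Finset.sum_eq_zero_iff_of_nonneg (fun t _ => sub_nonneg.2 (hle t))).1 h3 t
      (mem_univ t)
    by_contra hne
    have h5 : par ((m t : ℤ) + N - 1 - (t : ℕ)) = false := by simp [par, hne]
    rw [h5] at h4
    norm_num [vv] at h4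

/-- beta numbers: a dominant weight of the size of the core with all beta numbers even -/
theorem core_unique {m : Fin N → ℕ} (hd : ∀ a b : Fin N, a < b → m b ≤ m a)
    (he : ∀ t : Fin N, Even ((m t : ℤ) + N - 1 - (t : ℕ)))
    (hs : ∑ t, (m t : ℤ) = ∑ t : Fin N, ((N : ℤ) - 1 - (t : ℕ))) :
    ∀ t : Fin N, (m t : ℤ) = (N : ℤ) - 1 - (t : ℕ) := by
  have hge : ∀ k : ℕ, ∀ t : Fin N, N - 1 - (t : ℕ) = k → (N : ℤ) - 1 - (t : ℕ) ≤ m t := by
    intro k
    induction k with
    | zero =>
      intro t ht
      have := t.2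
      have h1 : (N : ℤ) - 1 - (t : ℕ) = 0 := by omega
      rw [h1]
      positivity
    | succ k ih =>
      intro t ht
      have h1 := t.2
      let t' : Fin N := ⟨t + 1, by omega⟩
      have h2 := ih t' (by simp only [t']; omega)
      have h3 := hd t t' (by rw [Fin.lt_def]; simp only [t']; omega)
      have h4 := he t
      have h5 := he t'
      have h6 : ((t' : ℕ) : ℤ) = (t : ℕ) + 1 := by simp [t']
      rw [h6] at h5 h2
      have h7 : Even (((m t : ℤ) + N - 1 - (t : ℕ)) - ((m t' : ℤ) + N - 1 - ((t : ℕ) + 1))) :=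
        h4.sub h5
      have h8 : ((m t : ℤ) + N - 1 - (t : ℕ)) - ((m t' : ℤ) + N - 1 - ((t : ℕ) + 1)) =
          (m t : ℤ) - m t' + 1 := by ring
      rw [h8] at h7
      have h9 : (m t' : ℤ) ≤ m t := by exact_mod_cast h3
      have h10 : (m t : ℤ) ≠ m t' := by
        intro h
        rw [h, sub_self, zero_add] at h7
        exact absurd h7 (by decide)
      omega
  have h1 : ∑ t : Fin N, ((m t : ℤ) - ((N : ℤ) - 1 - (t : ℕ))) = 0 := by
    rw [Finset.sum_sub_distrib, hs, sub_self]
  intro t
  have h2 := (Finset.sum_eq_zero_iff_of_nonneg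
    (fun t _ => sub_nonneg.2 (hge _ t rfl))).1 h1 t (mem_univ t)
  linarith

/-- the exact relations of the residue elements -/
theorem G_sq {M : ℕ} (R : Res M) (hM : 2 * n ≤ M) (b : Bool) (k : Fin n) :
    aeval (Y k) (R.G b) * aeval (Y k) (R.G b) = R.D • aeval (Y k) (R.G b) := by
  have h1 : aeval (Y k) (R.G b) * aeval (Y k) (R.G !b) = 0 := by
    rw [← map_mul]
    obtain ⟨q, hq⟩ := R.mul_dvd (b := b) (b' := !b) (by cases b <;> simp)
    rw [hq, map_mul, lin_Y hM, zero_mul]
  have h2 : aeval (Y k) (R.G b) + aeval (Y k) (R.G !b) = R.D • (1 : P (Fin n)) := by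
    rw [← map_add, R.add', aeval_C, Algebra.algebraMap_eq_smul_one]
  have h3 : aeval (Y k) (R.G b) * (aeval (Y k) (R.G b) + aeval (Y k) (R.G !b)) =
      R.D • aeval (Y k) (R.G b) := by rw [h2, mul_smul_comm, mul_one]
  rw [mul_add, h1, add_zero] at h3
  exact h3

theorem G_add {M : ℕ} (R : Res M) (k : Fin n) :
    aeval (Y k) (R.G true) + aeval (Y k) (R.G false) = R.D • (1 : P (Fin n)) := by
  rw [← map_add, R.add, aeval_C, Algebra.algebraMap_eq_smul_one]

theorem commute_aeval_aeval {R : Type} [Ring R] {x y : R} (h : Commute x y) (p q : ℤ[X]) :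
    Commute (aeval x p) (aeval y q) :=
  Commute.aeval_left (Commute.aeval_left h.symm q).symm p

/-- building the residue element of a vector -/
theorem build {M : ℕ} (R : Res M) (hM : 2 * n ≤ M) {v : W N (Fin n)} (hv : v ≠ 0) (K : ℕ)
    (hK : K ≤ n) : ∃ (z : P (Fin n)) (ν : Fin n → Bool) (h : ℤ), 0 < h ∧ Odd h ∧ (∀ N', SA N' z) ∧
      (∀ (p : ℤ[X]) (k : Fin n), Commute (aeval (Y k) p) z) ∧ z * z = h • z ∧
      act N _ z v ≠ 0 ∧
      ∀ k : Fin n, (k : ℕ) < K → aeval (Y k) (R.G (ν k)) * z = R.D • z := by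
  induction K with
  | zero =>
    refine ⟨1, fun _ => true, 1, one_pos, odd_one, fun _ => SA_one, fun p k => Commute.one_right _,
      by simp, ?_, fun k hk => absurd hk (Nat.not_lt_zero _)⟩
    rw [act_one]
    exact hv
  | succ K ih =>
    obtain ⟨z, ν, h, hh0, hh1, hSA, hcom, hzz, hne, hk⟩ := ih (by omega)
    let k0 : Fin n := ⟨K, hK⟩
    have h1 : ∃ b, act N _ (aeval (Y k0) (R.G b) * z) v ≠ 0 := by
      by_contra hcon
      push Not at hcon
      have h2 : act N _ (R.D • z) v = 0 := by
        have h3 : R.D • z = aeval (Y k0) (R.G true) * z + aeval (Y k0) (R.G false) * z := by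
          rw [← add_mul, G_add, smul_mul_assoc, one_mul]
        rw [h3, act_add, hcon, hcon, add_zero]
      rw [act_zsmul] at h2
      have h4 : R.D • act N _ z v = (0 : ℤ) • act N _ z v := by rw [h2, zero_smul]
      exact R.pos.ne' (smul_cancel hne h4)
    obtain ⟨b, hb⟩ := h1
    have hc : Commute (aeval (Y k0) (R.G b)) z := hcom _ _
    refine ⟨aeval (Y k0) (R.G b) * z, Function.update ν k0 b, R.D * h, mul_pos R.pos hh0,
      R.odd.mul hh1, fun N' => ((SA_Y k0).aeval _).mul (hSA N') hc, fun p k => ?_, ?_, hb, ?_⟩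
    · exact (commute_aeval_aeval (commute_Y k k0) p _).mul_right (hcom p k)
    · calc aeval (Y k0) (R.G b) * z * (aeval (Y k0) (R.G b) * z)
          = aeval (Y k0) (R.G b) * (z * aeval (Y k0) (R.G b)) * z := by simp only [mul_assoc]
        _ = (aeval (Y k0) (R.G b) * aeval (Y k0) (R.G b)) * (z * z) := by
            rw [← hc.eq]; simp only [mul_assoc]
        _ = _ := by
            rw [G_sq R hM, hzz, smul_mul_assoc, mul_smul_comm, smul_smul]
    · intro k hk'
      rcases eq_or_ne k k0 with rfl | hne'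
      · rw [Function.update_self, ← mul_assoc, G_sq R hM, smul_mul_assoc]
      · rw [Function.update_of_ne hne']
        have h5 : (k : ℕ) < K := by
          have : (k : ℕ) ≠ K := fun h => hne' (Fin.ext h)
          omega
        have h6 : aeval (Y k) (R.G (ν k)) * aeval (Y k0) (R.G b) =
            aeval (Y k0) (R.G b) * aeval (Y k) (R.G (ν k)) :=
          commute_aeval_aeval (commute_Y k k0) _ _
        rw [← mul_assoc, h6, mul_assoc, hk k h5, mul_smul_comm]

/-- restriction to fewer letters -/
def rst {N N' : ℕ} (h : N' ≤ N) {α : Type} (f : W N α) : W N' α := fun w => f (fun x => Fin.castLE h (w x))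

theorem rst_act {N N' : ℕ} (h : N' ≤ N) {α : Type} [Fintype α] [DecidableEq α] (y : P α)
    (f : W N α) : rst h (act N α y f) = act N' α y (rst h f) := by
  refine P_induction (p := fun y => rst h (act N α y f) = act N' α y (rst h f)) y ?_ ?_ ?_
  · intro σ
    funext w
    rw [act_g]
    unfold rst
    rw [act_g]
    rfl
  · intro a b ha hb
    rw [act_add, act_add, ← ha, ← hb]
    rfl
  · intro m a ha
    rw [act_zsmul, act_zsmul, ← ha]
    rfl

open Classical in
/-- extension by zero to more letters -/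
noncomputable def ext0 {N N' : ℕ} (h : N' ≤ N) {α : Type} (f : W N' α) : W N α := fun w =>
  if hw : ∃ w' : α → Fin N', (fun x => Fin.castLE h (w' x)) = w then f (Classical.choose hw) else 0

theorem ext0_cast {N N' : ℕ} (h : N' ≤ N) {α : Type} (f : W N' α) (w' : α → Fin N') :
    ext0 h f (fun x => Fin.castLE h (w' x)) = f w' := by
  unfold ext0
  have hw : ∃ w'' : α → Fin N', (fun x => Fin.castLE h (w'' x)) = (fun x => Fin.castLE h (w' x)) :=
    ⟨w', rfl⟩
  rw [dif_pos hw]
  congr 1
  have h1 := Classical.choose_spec hw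
  funext x
  exact Fin.castLE_injective h (congrFun h1 x)

theorem ext0_of_not {N N' : ℕ} (h : N' ≤ N) {α : Type} (f : W N' α) (w : α → Fin N)
    (hw : ¬ ∃ w' : α → Fin N', (fun x => Fin.castLE h (w' x)) = w) : ext0 h f w = 0 := by
  unfold ext0
  rw [dif_neg hw]

theorem ext0_act {N N' : ℕ} (h : N' ≤ N) {α : Type} [Fintype α] [DecidableEq α] (y : P α)
    (f : W N' α) : ext0 h (act N' α y f) = act N α y (ext0 h f) := by
  refine P_induction (p := fun y => ext0 h (act N' α y f) = act N α y (ext0 h f)) y ?_ ?_ ?_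
  · intro σ
    funext w
    rw [act_g]
    by_cases hw : ∃ w' : α → Fin N', (fun x => Fin.castLE h (w' x)) = w
    · obtain ⟨w', rfl⟩ := hw
      rw [ext0_cast, act_g]
      have : ((fun x => Fin.castLE h (w' x)) ∘ ⇑σ) = fun x => Fin.castLE h ((w' ∘ ⇑σ) x) := rfl
      rw [this, ext0_cast]
    · rw [ext0_of_not h _ _ hw, ext0_of_not]
      rintro ⟨w', hw'⟩
      apply hw
      refine ⟨w' ∘ ⇑σ.symm, ?_⟩
      funext x
      have := congrFun hw' (σ.symm x)
      simpa using this
  · intro a b ha hb
    rw [act_add, act_add, ← ha, ← hb]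
    funext w
    by_cases hw : ∃ w' : α → Fin N', (fun x => Fin.castLE h (w' x)) = w
    · obtain ⟨w', rfl⟩ := hw
      simp only [Pi.add_apply, ext0_cast]
    · simp only [Pi.add_apply, ext0_of_not h _ _ hw, add_zero]
  · intro m a ha
    rw [act_zsmul, act_zsmul, ← ha]
    funext w
    by_cases hw : ∃ w' : α → Fin N', (fun x => Fin.castLE h (w' x)) = w
    · obtain ⟨w', rfl⟩ := hw
      simp only [Pi.smul_apply, ext0_cast]
    · simp only [Pi.smul_apply, ext0_of_not h _ _ hw, smul_zero]

theorem ext0_HW {N N' : ℕ} (h : N' ≤ N) {α : Type} [Fintype α] [DecidableEq α] {f : W N' α}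
    (hf : HW f) : HW (ext0 h f) := by
  intro a b hab
  funext w
  rw [EE_apply, Pi.zero_apply]
  by_cases hb : (b : ℕ) < N'
  · by_cases hw : ∃ w' : α → Fin N', (fun x => Fin.castLE h (w' x)) = w
    · obtain ⟨w', rfl⟩ := hw
      have ha : (a : ℕ) < N' := lt_trans hab hb
      have h1 := congrFun (hf ⟨a, ha⟩ ⟨b, hb⟩ hab) w'
      rw [EE_apply, Pi.zero_apply] at h1
      refine Eq.trans (Finset.sum_congr rfl (fun x _ => ?_)) h1
      have e1 : Fin.castLE h (w' x) = a ↔ w' x = ⟨a, ha⟩ := by
        rw [Fin.ext_iff, Fin.ext_iff]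
        rfl
      have e2 : Function.update (fun x => Fin.castLE h (w' x)) x b =
          fun y => Fin.castLE h (Function.update w' x ⟨b, hb⟩ y) := by
        funext y
        rcases eq_or_ne y x with rfl | hy
        · rw [Function.update_self, Function.update_self]
          rfl
        · rw [Function.update_of_ne hy, Function.update_of_ne hy]
      simp only [e1, e2, ext0_cast]
    · apply Finset.sum_eq_zero
      intro x _
      split_ifs with hx
      · apply ext0_of_not
        rintro ⟨w', hw'⟩
        apply hw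
        have ha : (a : ℕ) < N' := lt_trans hab hb
        refine ⟨Function.update w' x ⟨a, ha⟩, ?_⟩
        funext y
        rcases eq_or_ne y x with rfl | hy
        · rw [Function.update_self, hx]
          rfl
        · rw [Function.update_of_ne hy]
          have := congrFun hw' y
          rw [Function.update_of_ne hy] at this
          exact this
      · rfl
  · apply Finset.sum_eq_zero
    intro x _
    split_ifs with hx
    · apply ext0_of_not
      rintro ⟨w', hw'⟩
      have := congrFun hw' x
      rw [Function.update_self] at this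
      apply hb
      rw [← this]
      exact (w' x).2
    · rfl

/-- **The catalyst.** -/
theorem exists_cat (N : ℕ) : ∃ (n : ℕ) (z : P (Fin n)) (h : ℤ), 0 < h ∧ Odd h ∧
    (∀ N', SA N' z) ∧ z * z = h • z ∧ ZP N 2 z ∧ 0 < tc N z ∧
    (∀ (p : ℤ[X]) (k : Fin n), Commute (aeval (Y k) p) z) ∧
    (∀ N', N' + 1 < N → act N' _ z = 0) ∧ (∀ N', N' + 1 = N → act N' _ z ≠ 0) := by
  obtain ⟨n, col, row, hc, hrow⟩ := exists_cols N 2 (by norm_num)
  have hrow' : ∀ a, (cnt row a : ℤ) = (N : ℤ) - 1 - (a : ℕ) := by
    intro a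
    rw [hrow a]
    push_cast
    ring
  obtain ⟨R⟩ := exists_res (2 * n + N)
  have hv0 : v0 col row ≠ 0 := fun h => by
    have := v0_row hc
    rw [h] at this
    exact zero_ne_one this
  obtain ⟨z, ν, h, hh0, hh1, hSA, hcom, hzz, hne, hk⟩ :=
    build (N := N) R (by omega) hv0 n le_rfl
  have hk' : ∀ k, aeval (Y k) (R.G (ν k)) * z = R.D • z := fun k => hk k k.2
  -- the potential
  have hpot : ∀ (u' : W N (Fin n)) (m : Fin N → ℕ), act N _ z u' ≠ 0 → HW (act N _ z u') →
      HasWt m (act N _ z u') →
      Phi m = Phi (fun _ : Fin N => 0) + 2 * ∑ k, vv (par N) * vv (ν k) := by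
    intro u' m h0 h1 h2
    apply path R (by omega) ν h0 h1 h2
    intro k
    rw [← act_mul, hk', act_zsmul]
  have hwt0 : HasWt (cnt row) (act N _ z (v0 col row)) := HasWt.act v0_wt z
  have hHW0 : HW (act N _ z (v0 col row)) := (v0_HW hc).act z
  have hPhi0 : Phi (cnt row) = N := by
    unfold Phi
    have : ∀ t : Fin N, vv (par ((cnt row t : ℤ) + N - 1 - (t : ℕ))) = 1 := by
      intro t
      rw [hrow']
      have h1 : (N : ℤ) - 1 - (t : ℕ) + N - 1 - (t : ℕ) = 2 * (N - 1 - (t : ℕ)) := by ring
      rw [h1]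
      simp [vv, par]
    rw [Finset.sum_congr rfl (fun t _ => this t)]
    simp
  have hcard0 : ∑ t, (cnt row t : ℤ) = n := by
    have h1 := sum_wt hwt0 hne
    rw [Fintype.card_fin] at h1
    exact_mod_cast h1
  have hZP : ZP N 2 z := by
    intro u' h1 h2 w hw a
    have h0 : act N _ z u' ≠ 0 := fun h => hw (by rw [h]; rfl)
    have hm : HasWt (cnt w) (act N _ z u') := fun w' hw' a => h2 _ _ hw' hw a
    have e1 := hpot u' (cnt w) h0 h1 hm
    have e2 := hpot _ _ hne hHW0 hwt0
    rw [← e2, hPhi0] at e1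
    have e3 := (Phi_le (cnt w)).2.2 e1
    have e4 := core_unique (fun a b hab => dominant h1 hm h0 hab) e3 (by
      have h5 := sum_wt hm h0
      rw [Fintype.card_fin] at h5
      have h6 : ∑ t, (cnt w t : ℤ) = n := by exact_mod_cast h5
      rw [h6, ← hcard0]
      exact Finset.sum_congr rfl (fun t _ => hrow' t))
    rw [e4 a]
    ring
  have htc : 0 < tc N z := by
    obtain ⟨w0, hw0⟩ : ∃ w0, act N _ z (Pi.single w0 1) ≠ 0 := by
      by_contra hcon
      push Not at hcon
      apply hne
      have h1 : v0 col row = ∑ w, v0 col row w • (Pi.single w 1 : W N (Fin n)) := by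
        funext w'
        rw [Finset.sum_apply]
        simp [Pi.single_apply]
      rw [h1, map_sum]
      exact Finset.sum_eq_zero fun w _ => by rw [map_smul, hcon, smul_zero]
    have h1 := trace_sq_pos (hSA N) w0 hw0
    have h2 : ∑ w : Fin n → Fin N, act N _ (z * z) (Pi.single w 1) w = (h : ℚ) * tc N z := by
      unfold tc
      rw [Finset.mul_sum]
      refine Finset.sum_congr rfl (fun w _ => ?_)
      rw [hzz, act_zsmul, Pi.smul_apply, zsmul_eq_mul]
    rw [h2] at h1
    have h3 : (0 : ℚ) < h := by exact_mod_cast hh0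
    exact (mul_pos_iff_of_pos_left h3).1 h1
  refine ⟨n, z, h, hh0, hh1, hSA, hzz, hZP, htc, hcom, ?_, ?_⟩
  · intro N' hN'
    have hle : N' ≤ N := by omega
    apply act_eq_zero_of_SA (hSA N')
    intro v hv hv1
    by_contra hx0
    have e1 := ext0_act hle z v
    have e2 : HW (act N _ z (ext0 hle v)) := by
      rw [← e1]
      exact ext0_HW hle (hv.act z)
    obtain ⟨w, hw⟩ := H4.exists_ne hx0
    have hone : OneW (act N _ z (ext0 hle v)) := by
      rw [← e1]
      have hO := hv1.act z
      intro w1 w2 hw1 hw2 a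
      have key : ∀ w1, ext0 hle (act N' _ z v) w1 ≠ 0 → ∃ w' : Fin n → Fin N',
          (fun x => Fin.castLE hle (w' x)) = w1 ∧ act N' _ z v w' ≠ 0 := by
        intro w1 hw1
        by_cases hc : ∃ w' : Fin n → Fin N', (fun x => Fin.castLE hle (w' x)) = w1
        · obtain ⟨w', rfl⟩ := hc
          rw [ext0_cast] at hw1
          exact ⟨w', rfl, hw1⟩
        · exact absurd (ext0_of_not hle _ _ hc) hw1
      obtain ⟨w1', rfl, h1'⟩ := key w1 hw1
      obtain ⟨w2', rfl, h2'⟩ := key w2 hw2
      have hcnt : ∀ (w' : Fin n → Fin N') (a : Fin N),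
          cnt (fun x => Fin.castLE hle (w' x)) a =
            if ha : (a : ℕ) < N' then cnt w' ⟨a, ha⟩ else 0 := by
        intro w' a
        split_ifs with ha
        · unfold cnt
          congr 1
          ext x
          rw [mem_filter, mem_filter, Fin.ext_iff, Fin.ext_iff]
          rfl
        · unfold cnt
          rw [Finset.card_eq_zero, Finset.filter_eq_empty_iff]
          intro x _ hx
          apply ha
          rw [← hx]
          exact (w' x).2
      rw [hcnt, hcnt]
      split_ifs with ha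
      · exact hO _ _ h1' h2' _
      · rfl
    have e3 : act N _ z (ext0 hle v) (fun x => Fin.castLE hle (w x)) ≠ 0 := by
      rw [← e1, ext0_cast]
      exact hw
    have e4 := hZP _ e2 hone _ e3 ⟨N', by omega⟩
    have e5 : cnt (fun x => Fin.castLE hle (w x)) (⟨N', by omega⟩ : Fin N) = 0 := by
      unfold cnt
      rw [Finset.card_eq_zero, Finset.filter_eq_empty_iff]
      intro x _ hx
      have h1 := congrArg Fin.val hx
      have h2 : ((w x : Fin N') : ℕ) = N' := h1
      exact absurd (w x).2 (by omega)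
    rw [e5] at e4
    push_cast at e4
    omega
  · intro N' hN' hz0
    have hle : N' ≤ N := by omega
    have h1 := rst_act hle z (v0 col row)
    rw [hz0, LinearMap.zero_apply] at h1
    obtain ⟨w, hw⟩ := H4.exists_ne hne
    have h2 : ∀ x, ((w x : Fin N) : ℕ) < N' := by
      intro x
      have h3 := hwt0 w hw ⟨N', by omega⟩
      have h4 := hrow' ⟨N', by omega⟩
      have h5 : cnt row (⟨N', by omega⟩ : Fin N) = 0 := by
        have h6 : (cnt row (⟨N', by omega⟩ : Fin N) : ℤ) = 0 := by
          rw [h4]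
          simp only
          omega
        exact_mod_cast h6
      rw [h5] at h3
      unfold cnt at h3
      rw [Finset.card_eq_zero, Finset.filter_eq_empty_iff] at h3
      have h6 := h3 (mem_univ x)
      have h7 : ((w x : Fin N) : ℕ) ≠ N' := fun h => h6 (Fin.ext h)
      have h8 := (w x).2
      omega
    have h3 := congrFun h1 (fun x => ⟨w x, h2 x⟩)
    apply hw
    exact h3

end Pool.PI34.SG

end

/-! ### part X_VCat -/
section

/-!
PI34, p = 2, block EVEN2: the quasi-idempotent V-catalysts (owner helper13).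
-/

set_option autoImplicit false
set_option linter.unusedSectionVars false

namespace Pool.PI34.EV

open Equiv Finset
open Pool.PI34.H4

section trace

variable {N : ℕ} {α β : Type} [Fintype α] [DecidableEq α] [Fintype β] [DecidableEq β]

theorem tc_eq_trace (y : P α) : tc N y = LinearMap.trace ℚ (W N α) (act N α y) := by
  rw [LinearMap.trace_eq_matrix_trace ℚ (Pi.basisFun ℚ (α → Fin N))]
  unfold tc Matrix.trace
  refine Finset.sum_congr rfl fun w _ => ?_
  rw [Matrix.diag_apply, LinearMap.toMatrix_apply, Pi.basisFun_apply, Pi.basisFun_repr]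

theorem tc_comm (x y : P α) : tc N (x * y) = tc N (y * x) := by
  have h1 : act N α (x * y) = act N α x * act N α y := map_mul _ _ _
  have h2 : act N α (y * x) = act N α y * act N α x := map_mul _ _ _
  rw [tc_eq_trace, tc_eq_trace, h1, h2, LinearMap.trace_mul_comm]

theorem tc_zsmul (n : ℤ) (x : P α) : tc N (n • x) = n * tc N x := by
  rw [tc_eq_trace, tc_eq_trace, map_zsmul, map_zsmul, zsmul_eq_mul]

theorem tc_congr {x y : P α} (h : act N α x = act N α y) : tc N x = tc N y := by
  rw [tc_eq_trace, tc_eq_trace, h]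

theorem tc_prod (z : P α) (a : P β) :
    tc N (emb Function.Embedding.inl z * emb (Function.Embedding.inr : β ↪ α ⊕ β) a) =
      tc N z * tc N a := by
  unfold tc
  rw [Finset.sum_mul_sum, ← Finset.sum_product']
  refine Finset.sum_bij' (fun u _ => (fun i => u (Sum.inl i), fun b => u (Sum.inr b)))
    (fun p _ => Sum.elim p.1 p.2) ?_ ?_ ?_ ?_ ?_
  · intro u _
    exact mem_univ _
  · intro p _
    exact mem_univ _
  · intro u _
    exact Sum.elim_comp_inl_inr u
  · intro p _
    rfl
  · intro u _
    have hu : u = Sum.elim (fun i => u (Sum.inl i)) (fun b => u (Sum.inr b)) :=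
      (Sum.elim_comp_inl_inr u).symm
    generalize (fun i => u (Sum.inl i)) = w at hu
    generalize (fun b => u (Sum.inr b)) = v at hu
    subst hu
    change act N _ (emb Function.Embedding.inl z * emb Function.Embedding.inr a)
      (Pi.single (Sum.elim w v) 1) (Sum.elim w v) =
      act N α z (Pi.single w 1) w * act N β a (Pi.single v 1) v
    rw [act_mul, act_emb_inl]
    have h1 : (fun w' : α → Fin N => act N (α ⊕ β) (emb Function.Embedding.inr a)
        (Pi.single (Sum.elim w v) 1) (Sum.elim w' v)) =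
        (act N β a (Pi.single v 1) v) • (Pi.single w 1 : W N α) := by
      funext w'
      rw [act_inr, Pi.smul_apply, smul_eq_mul]
      by_cases hw : w' = w
      · subst hw
        rw [Pi.single_eq_same, mul_one]
        have h2 : (fun v' : β → Fin N =>
            (Pi.single (Sum.elim w' v) 1 : W N (α ⊕ β)) (Sum.elim w' v')) =
              (Pi.single v 1 : W N β) := by
          funext v'
          by_cases hv : v' = v
          · subst hv
            rw [Pi.single_eq_same, Pi.single_eq_same]
          · rw [Pi.single_eq_of_ne hv, Pi.single_eq_of_ne]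
            intro h
            exact hv (congrArg (fun u : α ⊕ β → Fin N => fun b => u (Sum.inr b)) h)
        rw [h2]
      · rw [Pi.single_eq_of_ne hw, mul_zero]
        have h2 : (fun v' : β → Fin N =>
            (Pi.single (Sum.elim w v) 1 : W N (α ⊕ β)) (Sum.elim w' v')) = 0 := by
          funext v'
          rw [Pi.single_eq_of_ne]
          · rfl
          · intro h
            exact hw (congrArg (fun u : α ⊕ β → Fin N => fun i => u (Sum.inl i)) h)
        rw [h2, map_zero]
        rfl
    rw [h1, map_smul, Pi.smul_apply, smul_eq_mul, mul_comm]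

end trace

theorem As_sq (k : ℕ) : As (Fin k) * As (Fin k) = (k.factorial : ℤ) • As (Fin k) := by
  conv_lhs => rw [show As (Fin k) * As (Fin k) =
    (∑ s : Perm (Fin k), (Perm.sign s : ℤ) • g s) * As (Fin k) from rfl]
  rw [Finset.sum_mul]
  have h : ∀ s : Perm (Fin k), ((Perm.sign s : ℤ) • g s) * As (Fin k) = As (Fin k) := by
    intro s
    rw [smul_mul_assoc, g_mul_As, smul_smul]
    rw [show ((Perm.sign s : ℤˣ) : ℤ) * (Perm.sign s : ℤˣ) = 1 by
      rw [← Units.val_mul, Int.units_mul_self]; rfl, one_smul]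
  rw [Finset.sum_congr rfl (fun s _ => h s), Finset.sum_const, Finset.card_univ,
    Fintype.card_perm, Fintype.card_fin, natCast_zsmul]

theorem tc_As_ne (k : ℕ) : tc k (As (Fin k)) ≠ 0 := by
  have hA : As (Fin k) = Ac (fun _ : Fin k => (0 : ℕ)) := by
    unfold As Ac
    rw [Finset.filter_true_of_mem]
    intro s _
    rfl
  have hSA : SA k (As (Fin k)) := by
    rw [hA]
    exact SA_Ac _
  have hne : act k (Fin k) (As (Fin k)) (Pi.single (id : Fin k → Fin k) 1) ≠ 0 := by
    intro h
    have h1 := congrFun h id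
    unfold As at h1
    rw [act_sum, Finset.sum_apply, Finset.sum_eq_single (1 : Perm (Fin k))] at h1
    · rw [act_zsmul, Pi.smul_apply, act_g] at h1
      simp at h1
    · intro s _ hs
      rw [act_zsmul, Pi.smul_apply, act_g, Pi.single_eq_of_ne, smul_zero]
      intro h2
      apply hs
      ext x : 1
      exact congrFun h2 x
    · intro h2
      exact absurd (mem_univ _) h2
  have h1 : 0 < tc k (As (Fin k) * As (Fin k)) := trace_sq_pos hSA id hne
  rw [As_sq, tc_zsmul] at h1
  intro h2
  rw [h2, mul_zero] at h1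
  exact lt_irrefl _ h1

theorem exists_vcat (k : ℕ) : Nonempty (VCat k) := by
  obtain ⟨n, z, h, hpos, hodd, _, hzz, hZP, htr, _⟩ := SG.exists_cat k
  obtain ⟨e, F, hF, he, hs⟩ := split_all hZP k
  have hFodd : Odd F := by
    by_contra hne
    rw [Int.not_odd_iff_even] at hne
    obtain ⟨m, hm⟩ := hne
    obtain ⟨a, b, hab⟩ := hF
    rw [hm] at hab
    have : 2 * (a * m + b) = 1 := by linarith
    omega
  set A : P (Fin n ⊕ Fin k) := emb Function.Embedding.inr (As (Fin k)) with hA
  set Z : P (Fin n ⊕ Fin k) := emb Function.Embedding.inl z with hZ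
  have hZA : Commute Z A := by
    refine commute_emb_emb _ _ (fun x y h => ?_) z (As (Fin k))
    cases h
  have hZe : Commute Z e := he z
  have hAA : A * A = (k.factorial : ℤ) • A := by
    rw [hA, ← map_mul, As_sq, emb_zsmul]
  have hZZ : Z * Z = h • Z := by
    rw [hZ, ← map_mul, hzz, emb_zsmul]
  have hs' : act k _ (A * e * A * Z) = F • act k _ (A * Z) := hs
  have hFne : (F : ℚ) ≠ 0 := by
    intro h0
    have h1 : F = 0 := by exact_mod_cast h0
    rw [h1] at hFodd
    exact absurd hFodd (by decide)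
  refine ⟨⟨n, e * A * Z, e * Z, h * F, hodd.mul hFodd, ?_, ?_, ?_⟩⟩
  · have h1 : e * A * Z * (e * A * Z) = e * (A * e * A * Z) * Z := by
      calc e * A * Z * (e * A * Z) = e * A * (Z * e) * (A * Z) := by simp only [mul_assoc]
        _ = e * A * (e * Z) * (A * Z) := by rw [hZe.eq]
        _ = e * A * e * (Z * A) * Z := by simp only [mul_assoc]
        _ = e * A * e * (A * Z) * Z := by rw [hZA.eq]
        _ = e * (A * e * A * Z) * Z := by simp only [mul_assoc]
    rw [h1, map_mul, map_mul, hs', mul_smul_comm, smul_mul_assoc, ← map_mul, ← map_mul]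
    have h2 : e * (A * Z) * Z = h • (e * A * Z) := by
      calc e * (A * Z) * Z = e * A * (Z * Z) := by simp only [mul_assoc]
        _ = _ := by rw [hZZ, mul_smul_comm]
    rw [h2, map_zsmul, smul_smul, mul_comm F h]
  · congr 1
    rw [mul_assoc, mul_assoc, hZA.eq]
  · intro h0
    have h1 : (k.factorial : ℚ) * tc k (e * A * Z) = F * (tc k z * tc k (As (Fin k))) := by
      have h2 : tc k (e * A * (A * Z)) = (k.factorial : ℤ) * tc k (e * A * Z) := by
        rw [← tc_zsmul]
        congr 1
        calc e * A * (A * Z) = e * (A * A) * Z := by simp only [mul_assoc]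
          _ = _ := by rw [hAA, mul_smul_comm, smul_mul_assoc]
      have h3 : tc k (e * A * (A * Z)) = tc k (A * e * A * Z) := by
        rw [tc_comm]
        congr 1
        calc A * Z * (e * A) = A * (Z * e) * A := by simp only [mul_assoc]
          _ = A * (e * Z) * A := by rw [hZe.eq]
          _ = A * e * (Z * A) := by simp only [mul_assoc]
          _ = A * e * (A * Z) := by rw [hZA.eq]
          _ = _ := by simp only [mul_assoc]
      have h4 : tc k (A * e * A * Z) = F * tc k (A * Z) := by
        rw [← tc_zsmul]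
        apply tc_congr
        rw [hs', map_zsmul]
      have h5 : tc k (A * Z) = tc k z * tc k (As (Fin k)) := by
        rw [← hZA.eq, hZ, hA]
        exact tc_prod z (As (Fin k))
      rw [← h5, ← h4, ← h3, h2]
      norm_num
    rw [h0, mul_zero] at h1
    exact (mul_ne_zero hFne (mul_ne_zero htr.ne' (tc_As_ne k))) h1.symm

end Pool.PI34.EV

end

/-! ### part SG_K2 -/
section

/-!
PI34, block SG, file 7: the quotient modulo two and the kernel of the words.
-/

set_option autoImplicit false
set_option linter.unusedSectionVars false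
set_option linter.unusedDecidableInType false
set_option linter.unusedFintypeInType false

namespace Pool.PI34.SG

open Equiv Finset Polynomial
open Pool.PI34.H4

/-- The elements which are zero modulo `2` and modulo the elements which kill the words. -/
def K2 (N : ℕ) (α : Type) [Fintype α] [DecidableEq α] : Ideal (P α) where
  carrier := {x | ∃ y : P α, act N α x = act N α (2 * y)}
  zero_mem' := ⟨0, by rw [mul_zero]⟩
  add_mem' := by
    rintro x x' ⟨y, hy⟩ ⟨y', hy'⟩
    exact ⟨y + y', by rw [map_add, hy, hy', mul_add, map_add]⟩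
  smul_mem' := by
    rintro c x ⟨y, hy⟩
    refine ⟨c * y, ?_⟩
    rw [smul_eq_mul, map_mul, hy, map_mul, map_mul, map_mul, ← mul_assoc, ← mul_assoc]
    congr 1
    rw [← map_mul, ← map_mul, mul_two, two_mul]

section

variable {N : ℕ} {α β : Type} [Fintype α] [DecidableEq α] [Fintype β] [DecidableEq β]

theorem mem_K2 {x : P α} : x ∈ K2 N α ↔ ∃ y : P α, act N α x = act N α (2 * y) := Iff.rfl

instance : (K2 N α).IsTwoSided := ⟨by
  rintro x b ⟨y, hy⟩
  exact ⟨y * b, by rw [map_mul, hy, ← map_mul, mul_assoc]⟩⟩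

theorem mem_of_act {x : P α} (h : act N α x = 0) : x ∈ K2 N α := ⟨0, by rw [h, mul_zero, map_zero]⟩

theorem two_mem : (2 : P α) ∈ K2 N α := ⟨1, by rw [mul_one]⟩

theorem emb_mem (ι : α ↪ β) {x : P α} (hx : x ∈ K2 N α) : emb ι x ∈ K2 N β := by
  obtain ⟨y, hy⟩ := hx
  refine ⟨emb ι y, ?_⟩
  have h1 : act N α (x - 2 * y) = 0 := by rw [map_sub, hy, sub_self]
  have h2 := act_emb_eq_zero ι _ h1
  rw [map_sub, map_mul, map_ofNat, map_sub, sub_eq_zero] at h2
  exact h2

variable (N α) in
/-- the quotient -/
abbrev HH : Type := P α ⧸ K2 N α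

variable (N α) in
/-- the quotient map -/
noncomputable abbrev q2 : P α →+* HH N α := Ideal.Quotient.mk (K2 N α)

theorem q2_eq_zero {x : P α} : q2 N α x = 0 ↔ x ∈ K2 N α := Ideal.Quotient.eq_zero_iff_mem

theorem q2_eq {x y : P α} : q2 N α x = q2 N α y ↔ x - y ∈ K2 N α := by
  rw [← q2_eq_zero, map_sub, sub_eq_zero]

theorem two_HH : (2 : HH N α) = 0 := by
  have := q2_eq_zero.2 (two_mem (N := N) (α := α))
  rwa [map_ofNat] at this

theorem q2_smul_even {c : ℤ} (hc : Even c) (x : P α) : q2 N α (c • x) = 0 := by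
  obtain ⟨d, rfl⟩ := hc
  rw [map_zsmul, add_smul, ← two_mul, two_HH, zero_mul]

theorem q2_smul_odd {c : ℤ} (hc : Odd c) (x : P α) : q2 N α (c • x) = q2 N α x := by
  obtain ⟨d, rfl⟩ := hc
  rw [add_smul, one_smul, map_add, q2_smul_even (even_two_mul d), zero_add]

theorem q2_neg (x : P α) : q2 N α (-x) = q2 N α x := by
  have h1 := two_mul_zero (two_HH (N := N) (α := α)) (q2 N α x)
  rw [map_neg]
  exact (eq_neg_of_add_eq_zero_left h1).symm

theorem par_eq {a b : ℤ} : par a = par b ↔ Even (a - b) := by
  unfold par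
  rw [Int.even_sub]
  by_cases ha : Even a <;> by_cases hb : Even b <;> simp [ha, hb]

/-- products of linear factors of one parity -/
theorem q2_lin (y : P α) {c0 : ℤ} (S : Finset ℤ) (hS : ∀ c ∈ S, par c = par c0) :
    q2 N α (aeval y (lin S)) = (q2 N α (y - c0 • (1 : P α))) ^ S.card := by
  classical
  induction S using Finset.induction_on with
  | empty => simp [lin]
  | insert c S hc ih =>
    have h4 : lin (insert c S) = (X - C c) * lin S := Finset.prod_insert hc
    have h5 : q2 N α (y - c • (1 : P α)) = q2 N α (y - c0 • (1 : P α)) := by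
      rw [q2_eq]
      have h6 : y - c • (1 : P α) - (y - c0 • (1 : P α)) = -((c - c0) • (1 : P α)) := by
        rw [sub_smul]; abel
      rw [h6, ← q2_eq_zero, q2_neg]
      exact q2_smul_even (par_eq.1 (hS c (mem_insert_self _ _))) _
    rw [h4, map_mul, map_mul, ih (fun c hc => hS c (mem_insert_of_mem hc)),
      Finset.card_insert_of_notMem hc, pow_succ', map_sub, aeval_X, aeval_C,
      Algebra.algebraMap_eq_smul_one, h5]

/-- the two halves -/
theorem lin_split (M : ℕ) {b b' : Bool} (h : b ≠ b') :
    lin (rg M) = lin ((rg M).filter (fun c => par c ≠ b)) *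
      lin ((rg M).filter (fun c => par c ≠ b')) := by
  unfold lin
  rw [← Finset.prod_union]
  · congr 1
    ext c
    rw [mem_union, mem_filter, mem_filter]
    constructor
    · intro hc
      by_cases h1 : par c = b
      · exact Or.inr ⟨hc, by rw [h1]; exact h⟩
      · exact Or.inl ⟨hc, h1⟩
    · rintro (hc | hc)
      · exact hc.1
      · exact hc.1
  · rw [Finset.disjoint_left]
    intro c hc hc'
    rw [mem_filter] at hc hc'
    have h2 := hc.2
    have h3 := hc'.2
    revert h h2 h3
    cases b <;> cases b' <;> cases par c <;> simp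

/-- nilpotence on a residue space -/
theorem q2_nil {M : ℕ} (R : Res M) {y : P α} (hy : aeval y (lin (rg M)) = 0) {c0 : ℤ} {q : ℕ}
    (hq : (rg M).card ≤ q) :
    (q2 N α (y - c0 • (1 : P α))) ^ q * q2 N α (aeval y (R.G (par c0))) = 0 := by
  have hne : (!par c0) ≠ par c0 := by cases par c0 <;> simp
  have h1 : aeval y (lin ((rg M).filter (fun c => par c ≠ !par c0))) * aeval y (R.G (par c0)) = 0 := by
    obtain ⟨p, hp⟩ := R.dvd (par c0)
    rw [← map_mul, hp, ← mul_assoc, ← lin_split M hne, map_mul, hy, zero_mul]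
  have h2 := congrArg (q2 N α) h1
  rw [map_mul, map_zero, q2_lin (c0 := c0)] at h2
  · have h3 : ((rg M).filter (fun c => par c ≠ !par c0)).card ≤ q :=
      (Finset.card_filter_le _ _).trans hq
    rw [← Nat.sub_add_cancel h3, pow_add, mul_assoc, h2, mul_zero]
  · intro c hc
    rw [mem_filter] at hc
    have h3 := hc.2
    revert h3
    cases par c <;> cases par c0 <;> simp

theorem q2_G_add {M : ℕ} (R : Res M) (y : P α) (b : Bool) :
    q2 N α (aeval y (R.G b)) + q2 N α (aeval y (R.G (!b))) = 1 := by
  rw [← map_add, ← map_add, R.add', aeval_C, Algebra.algebraMap_eq_smul_one, q2_smul_odd R.odd,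
    map_one]

/-- the adjoint criterion -/
theorem act_adj {F F' : P α} (hadj : ∀ f h : W N α, ip (act N α F f) h = ip f (act N α F' h))
    (h : act N α F = 0) : act N α F' = 0 := by
  refine LinearMap.ext fun f => ?_
  rw [LinearMap.zero_apply]
  apply ip_self_eq_zero
  rw [← hadj, h, LinearMap.zero_apply, ip_zero_left]

end

end Pool.PI34.SG

end
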