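import Pool.Agent.LibPI54.M05

/-! ### part EX_Def -/
section

/-!
PI34, block EX (p = 2), definitions: the plain action on functions on words, the operators `δ`, the filtration by the
number of the `δ`, one more strand, the partial trace, the element `Ω`.
-/

set_option autoImplicit false
set_option linter.unusedSectionVars false
set_option linter.unusedDecidableInType false
set_option linter.unusedFintypeInType false

namespace Pool.PI34.EX

open Equiv Finset
open Pool.PI34.Super (Lt odd pv prs)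
open Pool.PI34.SK (W comp ins)
open Pool.PI34.H4 (P g emb As AK)

/-! ### the plain action -/

section plain

variable (R L : Type) [CommRing R] {α : Type}

/-- The plain action of a permutation of the places. -/
def paFun (σ : Perm α) : ((α → L) → R) →ₗ[R] ((α → L) → R) where
  toFun f := fun w => f (w ∘ σ)
  map_add' _ _ := rfl
  map_smul' _ _ := rfl

variable (α)

/-- The plain action as a homomorphism. -/
def paHom : Perm α →* Module.End R ((α → L) → R) where
  toFun := paFun R L
  map_one' := rfl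
  map_mul' _ _ := rfl

/-- The plain action of the integral group algebra on the functions on words with letters in `L`. -/
noncomputable def pa : P α →+* Module.End R ((α → L) → R) :=
  (MonoidAlgebra.lift ℤ _ _ (paHom R L α)).toRingHom

variable {α}

theorem pa_g (σ : Perm α) (f : (α → L) → R) (w : α → L) : pa R L α (g σ) f w = f (w ∘ σ) := by
  have h : pa R L α (g σ) = paHom R L α σ := by
    simp [pa]
  rw [h]
  rfl

/-- The element acts by zero on the words with letters in `L`. -/
def Kill (y : P α) : Prop := pa ℤ L α y = 0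

end plain

/-! ### operators on the words of a superspace -/

section ops

variable (O : Type) [CommRing O] (k l : ℕ) (ι : Type) [Fintype ι] [LinearOrder ι]

/-- Operators. -/
abbrev EW : Type := Module.End O (W O k l ι)

/-- The plain action. -/
noncomputable abbrev pf : P ι →+* EW O k l ι := pa O (Lt k l) ι

/-- The signed action. -/
noncomputable def sf : P ι →+* EW O k l ι := (SK.act ℤ O k l ι).toRingHom

variable {O k l ι}

/-- The operator `δ_S`: the product of the `δ_i = r ⋅ (the letter at the place i is odd)`. -/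
def ds (r : O) (S : Finset ι) : EW O k l ι where
  toFun f := fun w => (∏ i ∈ S, if odd (w i) then r else 0) * f w
  map_add' f g := by funext w; simp [mul_add]
  map_smul' c f := by funext w; simp; ring

theorem ds_apply (r : O) (S : Finset ι) (f : W O k l ι) (w : ι → Lt k l) :
    ds r S f w = (∏ i ∈ S, if odd (w i) then r else 0) * f w := rfl

variable (k l ι)

/-- `F^j + r F^0`. -/
def FR (r : O) (j : ℕ) : Submodule O (EW O k l ι) :=
  Submodule.span O {x | ∃ (σ : Perm ι) (S : Finset ι),
    (j ≤ S.card ∧ x = pf O k l ι (g σ) * ds r S) ∨ x = r • (pf O k l ι (g σ) * ds r S)}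

variable {k l ι}

/-- `F^j Y + r F^0 Y`. -/
def NF (r : O) (j : ℕ) (Y : EW O k l ι) : Submodule O (EW O k l ι) :=
  (FR k l ι r j).map (LinearMap.mulRight O Y)

end ops

/-! ### one more strand -/

section up

variable {O : Type} [CommRing O] {k l : ℕ} {d : ℕ}

/-- The operator `1 ⊗ y` (the new strand is the place `0`). -/
def upFun (y : EW O k l (Fin d)) : EW O k l (Fin (d + 1)) where
  toFun f := fun w => y (comp (w 0) f) (Fin.tail w)
  map_add' f g := by funext w; simp [map_add]
  map_smul' c f := by funext w; simp [map_smul]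

variable (O k l d)

/-- `1 ⊗ y` as a homomorphism of rings. -/
def up : EW O k l (Fin d) →+* EW O k l (Fin (d + 1)) where
  toFun := upFun
  map_one' := by
    apply LinearMap.ext; intro f; funext w
    change f (Fin.cons (w 0) (Fin.tail w)) = f w
    rw [Fin.cons_self_tail]
  map_mul' y z := by
    apply LinearMap.ext; intro f; funext w
    change y (z (comp (w 0) f)) (Fin.tail w) = y (comp (w 0) (upFun z f)) (Fin.tail w)
    congr 2
  map_zero' := rfl
  map_add' y z := rfl

variable {O k l d}

theorem up_apply (y : EW O k l (Fin d)) (f : W O k l (Fin (d + 1))) (w : Fin (d + 1) → Lt k l) :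
    up O k l d y f w = y (comp (w 0) f) (Fin.tail w) := rfl

/-- The (plain) partial trace over the place `0`. -/
def Ptr (O : Type) [CommRing O] (k l d : ℕ) : EW O k l (Fin (d + 1)) →ₗ[O] EW O k l (Fin d) where
  toFun φ := ∑ c : Lt k l, comp c ∘ₗ φ ∘ₗ ins c
  map_add' φ ψ := by
    rw [← Finset.sum_add_distrib]
    refine Finset.sum_congr rfl fun c _ => ?_
    rw [LinearMap.add_comp, LinearMap.comp_add]
  map_smul' a φ := by
    rw [RingHom.id_apply, Finset.smul_sum]
    refine Finset.sum_congr rfl fun c _ => ?_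
    rw [LinearMap.smul_comp, LinearMap.comp_smul]

/-- `n` more strands. -/
def upn (O : Type) [CommRing O] (k l d : ℕ) : (n : ℕ) → EW O k l (Fin d) →+* EW O k l (Fin (d + n))
  | 0 => RingHom.id _
  | n + 1 => (up O k l (d + n)).comp (upn O k l d n)

end up

end Pool.PI34.EX

end

/-! ### part EX_Def2 -/
section

/-!
PI34, block EX (p = 2), definitions, part 2: congruences modulo `2` and the kernel, blocks of places, the data of the two
layers, the element `Ω`.
-/

set_option autoImplicit false
set_option linter.unusedSectionVars false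
set_option linter.unusedDecidableInType false
set_option linter.unusedFintypeInType false

namespace Pool.PI34.EX

open Equiv Finset
open Pool.PI34.Super (Lt odd pv prs)
open Pool.PI34.SK (W comp ins)
open Pool.PI34.H4 (P g emb As AK)

/-- Zero modulo `2` and the elements which act by zero on the words with letters in `L`. -/
def K2 (L : Type) {α : Type} (y : P α) : Prop := ∃ y' : P α, Kill L (y - 2 * y')

section block

variable {α : Type} (m : ℕ)

/-- Every place is replaced by a block of `m` places. -/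
def blHom (α : Type) : Perm α →* Perm (α × Fin m) where
  toFun σ := σ.prodCongr (Equiv.refl _)
  map_one' := rfl
  map_mul' _ _ := rfl

/-- Every place is replaced by a block of `m` places. -/
noncomputable def bl : P α →+* P (α × Fin m) :=
  MonoidAlgebra.mapDomainRingHom ℤ (blHom m α)

end block

/-- The data of the first layer (rank `m`; all congruences modulo `2`). -/
structure VD (m : ℕ) where
  X : Type
  [fX : Fintype X]
  [dX : DecidableEq X]
  z : P X
  e1 : P (X ⊕ Fin 2)
  e0 : P (X ⊕ Fin 2)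
  th : P (X ⊕ Fin 2)
  hne : ¬ Kill (Fin m) z
  hzz : ∃ c : ℤ, Kill (Fin m) (z * z - (2 * c + 1) • z)
  hsum : K2 (Fin m) (emb Function.Embedding.inl z - e1 - e0)
  hfe : K2 (Fin m) (g (swap (Sum.inr 0) (Sum.inr 1)) * e1 - e1)
  hef : K2 (Fin m) (e1 * g (swap (Sum.inr 0) (Sum.inr 1)) - e1)
  hth : K2 (Fin m) (e0 - th - g (swap (Sum.inr 0) (Sum.inr 1)) * th * g (swap (Sum.inr 0) (Sum.inr 1)))
  hz1 : K2 (Fin m) (e1 * emb Function.Embedding.inl z - e1)
  hc1 : Commute (emb Function.Embedding.inl z) e1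
  hct : Commute (emb Function.Embedding.inl z) th

attribute [instance] VD.fX VD.dX

/-- The data of the second layer (rank `N`; all congruences modulo `2`). -/
structure WD (N : ℕ) where
  Y : Type
  [fY : Fintype Y]
  [dY : DecidableEq Y]
  w : P Y
  rho : Fin N → P (Y ⊕ Fin (N + 1))
  hne : ¬ Kill (Fin N) w
  hww : ∃ c : ℤ, Kill (Fin N) (w * w - (2 * c + 1) • w)
  hsum : K2 (Fin N) (emb Function.Embedding.inl w - ∑ a, rho a)
  hrs : ∀ a, K2 (Fin N) (rho a * g (swap (Sum.inr a.castSucc) (Sum.inr a.succ)) - rho a)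
  hrw : ∀ a, K2 (Fin N) (rho a * emb Function.Embedding.inl w - rho a)

attribute [instance] WD.fY WD.dY

section omega

variable (m : ℕ) (V : VD (m + 1)) (Wd : WD ((m + 1) ^ (m + 1)))

/-- The number of the determinants is `J + 1`. -/
abbrev JJ : ℕ := (m + 1) ^ (m + 1)

/-- The places: `J + 1` determinant blocks, the blocks of the second layer, the first layer. -/
abbrev I0 : Type := ((Wd.Y ⊕ Fin (JJ m + 1)) × Fin (m + 1)) ⊕ V.X

variable {m V Wd}

/-- The places of the determinant `a`. -/
def D (a : Fin (JJ m + 1)) : Fin (m + 1) ↪ I0 m V Wd :=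
  ⟨fun i => Sum.inl (Sum.inr a, i), fun i j h => by
    have h1 := Sum.inl_injective h
    exact congrArg Prod.snd h1⟩

/-- The first place of the determinant `a`. -/
def p0 (a : Fin (JJ m + 1)) : I0 m V Wd := Sum.inl (Sum.inr a, 0)

/-- The colour of a place. -/
def col : I0 m V Wd → Option (Fin (JJ m + 1))
  | Sum.inl (Sum.inr a, _) => some a
  | _ => none

/-- The product of the signed sums of the blocks in a set. -/
noncomputable def AS (s : Finset (Fin (JJ m + 1))) : P (I0 m V Wd) := AK col (s.map Function.Embedding.some)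

/-- An element of the block layer. -/
noncomputable def bw (y : P (Wd.Y ⊕ Fin (JJ m + 1))) : P (I0 m V Wd) :=
  emb Function.Embedding.inl (bl (m + 1) y)

/-- The element `w`. -/
noncomputable def ww : P (I0 m V Wd) := bw (emb Function.Embedding.inl Wd.w)

/-- The element `z`. -/
noncomputable def zz : P (I0 m V Wd) := emb Function.Embedding.inr V.z

variable (m V Wd) in
/-- **The element `Ω`.** -/
noncomputable def Om0 : P (I0 m V Wd) := AS univ * ww * zz

/-- The places of the first layer and the first places of the determinants `a`, `a + 1`. -/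
def vE (a : Fin (JJ m)) : V.X ⊕ Fin 2 ↪ I0 m V Wd :=
  ⟨Sum.elim Sum.inr ![p0 a.castSucc, p0 a.succ], by
    intro x y h
    rcases x with x | x <;> rcases y with y | y
    · exact congrArg Sum.inl (Sum.inr_injective h)
    · fin_cases y <;> simp [p0] at h
    · fin_cases x <;> simp [p0] at h
    · have h0 : a.castSucc ≠ a.succ := Fin.castSucc_lt_succ.ne
      fin_cases x <;> fin_cases y
      · rfl
      · exfalso
        simp only [Sum.elim_inr, p0] at h
        have h1 := congrArg Prod.fst (Sum.inl_injective h)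
        exact h0 (Sum.inr_injective h1)
      · exfalso
        simp only [Sum.elim_inr, p0] at h
        have h1 := congrArg Prod.fst (Sum.inl_injective h)
        exact h0 (Sum.inr_injective h1).symm
      · rfl⟩

/-- `κ_a = e_1 (1 - s) e_1`. -/
noncomputable def kap (a : Fin (JJ m)) : P (I0 m V Wd) :=
  emb (vE a) V.e1 * (1 - g (swap (p0 a.castSucc) (p0 a.succ))) * emb (vE a) V.e1

/-- `t_a = ρ_a κ_a`. -/
noncomputable def ta (a : Fin (JJ m)) : P (I0 m V Wd) := bw (Wd.rho a) * kap a

/-- The first places of the determinants in a set. -/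
def P0 (s : Finset (Fin (JJ m + 1))) : Finset (I0 m V Wd) :=
  s.map ⟨p0, fun a b h => by
    have h1 := congrArg Prod.fst (Sum.inl_injective h)
    exact Sum.inr_injective h1⟩

variable (O : Type) [CommRing O] (k l : ℕ) {ι : Type} [Fintype ι] [LinearOrder ι]

/-- **The operator `Ω`.** -/
noncomputable def Om (e : I0 m V Wd ↪ ι) : EW O k l ι := pf O k l ι (emb e (Om0 m V Wd))

end omega

end Pool.PI34.EX

end

/-! ### part EX_B1 -/
section

/-!
PI34, block EX (p = 2), rows B1, B2, B3, B7, B8: the operators `δ`, the filtration.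
-/

set_option autoImplicit false
set_option linter.unusedSectionVars false
set_option linter.unusedDecidableInType false
set_option linter.unusedFintypeInType false

namespace Pool.PI34.EX

open Equiv Finset
open Pool.PI34.Super (Lt odd pv prs)
open Pool.PI34.SK (W comp ins)
open Pool.PI34.H4 (P g emb As AK)

section B

variable {O : Type} [CommRing O] {k l : ℕ} {ι : Type} [Fintype ι] [LinearOrder ι] {r : O}

/-- ROW B1. -/
theorem pf_ds (σ : Perm ι) (S : Finset ι) :
    pf O k l ι (g σ) * ds r S = ds r (S.map σ.toEmbedding) * pf O k l ι (g σ) := by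
  apply LinearMap.ext
  intro f
  funext w
  rw [Module.End.mul_apply, Module.End.mul_apply, pa_g, ds_apply, ds_apply, pa_g, Finset.prod_map]
  rfl

/-- ROW B2. -/
theorem ds_mul (S T : Finset ι) :
    (ds r S * ds r T : EW O k l ι) = r ^ (S ∩ T).card • ds r (S ∪ T) := by
  apply LinearMap.ext
  intro f
  funext w
  rw [Module.End.mul_apply, ds_apply, ds_apply, ← mul_assoc, LinearMap.smul_apply, Pi.smul_apply,
    ds_apply, smul_eq_mul, ← mul_assoc]
  congr 1
  rw [← Finset.prod_union_inter]
  have hsub : S ∩ T ⊆ S ∪ T := Finset.inter_subset_left.trans Finset.subset_union_left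
  rw [← Finset.prod_sdiff hsub, mul_assoc, ← Finset.prod_mul_distrib, mul_comm (r ^ _), mul_assoc]
  congr 1
  rw [← Finset.prod_const, ← Finset.prod_mul_distrib]
  refine Finset.prod_congr rfl fun i _ => ?_
  split_ifs
  · rfl
  · rw [mul_zero, zero_mul]

theorem FR_gen_le {j : ℕ} (σ : Perm ι) {S : Finset ι} (h : j ≤ S.card) :
    pf O k l ι (g σ) * ds r S ∈ FR k l ι r j :=
  Submodule.subset_span ⟨σ, S, Or.inl ⟨h, rfl⟩⟩

theorem FR_gen_r (j : ℕ) (σ : Perm ι) (S : Finset ι) :
    r • (pf O k l ι (g σ) * ds r S) ∈ FR k l ι r j :=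
  Submodule.subset_span ⟨σ, S, Or.inr rfl⟩

theorem gen_mul (σ τ : Perm ι) (S T : Finset ι) : ∃ (c : ℕ) (U : Finset ι),
    c + U.card = S.card + T.card ∧
    (pf O k l ι (g σ) * ds r S) * (pf O k l ι (g τ) * ds r T) =
      r ^ c • (pf O k l ι (g (σ * τ)) * ds r U) := by
  have h1 : ds r S * pf O k l ι (g τ) = pf O k l ι (g τ) * ds r (S.map (τ⁻¹).toEmbedding) := by
    rw [pf_ds, Finset.map_map]
    congr 2
    have h2 : (τ⁻¹).toEmbedding.trans τ.toEmbedding = Function.Embedding.refl ι := by
      ext x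
      simp
    rw [h2, Finset.map_refl]
  refine ⟨(S.map (τ⁻¹).toEmbedding ∩ T).card, S.map (τ⁻¹).toEmbedding ∪ T, ?_, ?_⟩
  · have h3 := Finset.card_union_add_card_inter (S.map (τ⁻¹).toEmbedding) T
    rw [Finset.card_map] at h3
    omega
  · calc (pf O k l ι (g σ) * ds r S) * (pf O k l ι (g τ) * ds r T)
        = pf O k l ι (g σ) * (ds r S * pf O k l ι (g τ)) * ds r T := by noncomm_ring
      _ = (pf O k l ι (g σ) * pf O k l ι (g τ)) * (ds r (S.map (τ⁻¹).toEmbedding) * ds r T) := by
          rw [h1]; noncomm_ring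
      _ = _ := by
          rw [ds_mul, ← map_mul, ← H4.g_mul, mul_smul_comm]

/-- ROW B3. -/
theorem FR_mul {i j : ℕ} {x y : EW O k l ι} (hx : x ∈ FR k l ι r i) (hy : y ∈ FR k l ι r j) :
    x * y ∈ FR k l ι r (i + j) := by
  have key : ∀ (c : ℕ) (σ τ : Perm ι) (S T : Finset ι), (i ≤ S.card ∧ j ≤ T.card) ∨ 0 < c →
      r ^ c • ((pf O k l ι (g σ) * ds r S) * (pf O k l ι (g τ) * ds r T)) ∈
        FR k l ι r (i + j) := by
    intro c σ τ S T h
    obtain ⟨c', U, h1, h2⟩ := gen_mul (O := O) (k := k) (l := l) (r := r) σ τ S T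
    rw [h2, smul_smul, ← pow_add]
    rcases Nat.eq_zero_or_pos (c + c') with h3 | h3
    · rw [h3, pow_zero, one_smul]
      apply FR_gen_le
      rcases h with h | h
      · omega
      · omega
    · obtain ⟨c'', h4⟩ : ∃ c'', c + c' = c'' + 1 := ⟨c + c' - 1, by omega⟩
      rw [h4, pow_succ, mul_smul]
      exact Submodule.smul_mem _ _ (FR_gen_r _ _ _)
  unfold FR at hx
  induction hx using Submodule.span_induction with
  | mem x hx =>
    unfold FR at hy
    induction hy using Submodule.span_induction with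
    | mem y hy =>
      obtain ⟨σ, S, hx⟩ := hx
      obtain ⟨τ, T, hy⟩ := hy
      rcases hx with ⟨h1, rfl⟩ | rfl <;> rcases hy with ⟨h2, rfl⟩ | rfl
      · have h3 := key 0 σ τ S T (Or.inl ⟨h1, h2⟩)
        rwa [pow_zero, one_smul] at h3
      · have h3 := key 1 σ τ S T (Or.inr one_pos)
        rwa [pow_one, ← mul_smul_comm] at h3
      · have h3 := key 1 σ τ S T (Or.inr one_pos)
        rwa [pow_one, ← smul_mul_assoc] at h3
      · have h3 := key 2 σ τ S T (Or.inr two_pos)
        rwa [pow_two, mul_smul, ← mul_smul_comm, ← smul_mul_assoc] at h3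
    | zero => rw [mul_zero]; exact Submodule.zero_mem _
    | add a b _ _ ha hb => rw [mul_add]; exact Submodule.add_mem _ ha hb
    | smul c a _ ha => rw [mul_smul_comm]; exact Submodule.smul_mem _ _ ha
  | zero => rw [zero_mul]; exact Submodule.zero_mem _
  | add a b _ _ ha hb => rw [add_mul]; exact Submodule.add_mem _ ha hb
  | smul c a _ ha => rw [smul_mul_assoc]; exact Submodule.smul_mem _ _ ha

theorem FR_mono {i j : ℕ} (h : i ≤ j) : FR k l ι r j ≤ FR k l ι r i := by
  unfold FR
  refine Submodule.span_mono ?_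
  rintro x ⟨σ, S, hx | hx⟩
  · exact ⟨σ, S, Or.inl ⟨h.trans hx.1, hx.2⟩⟩
  · exact ⟨σ, S, Or.inr hx⟩

theorem ds_empty : (ds r ∅ : EW O k l ι) = 1 := by
  apply LinearMap.ext
  intro f
  funext w
  rw [ds_apply, Finset.prod_empty, one_mul]
  rfl

/-- ROW B7a. -/
theorem pf_mem (y : P ι) : pf O k l ι y ∈ FR k l ι r 0 := by
  refine H4.P_induction (p := fun y => pf O k l ι y ∈ FR k l ι r 0) y (fun σ => ?_)
    (fun x y hx hy => ?_) (fun n x hx => ?_)
  · have h := FR_gen_le (O := O) (k := k) (l := l) (r := r) σ (S := ∅) (Nat.zero_le _)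
    rwa [ds_empty, mul_one] at h
  · rw [map_add]; exact Submodule.add_mem _ hx hy
  · rw [map_zsmul]; exact zsmul_mem hx n

/-- ROW B7b. -/
theorem ds_mem (S : Finset ι) : (ds r S : EW O k l ι) ∈ FR k l ι r S.card := by
  have h := FR_gen_le (O := O) (k := k) (l := l) (r := r) 1 (S := S) le_rfl
  rwa [H4.g_one, map_one, one_mul] at h

/-- ROW B7c. -/
theorem r_smul_mem {x : EW O k l ι} (hx : x ∈ FR k l ι r 0) (j : ℕ) : r • x ∈ FR k l ι r j := by
  unfold FR at hx
  induction hx using Submodule.span_induction with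
  | mem x hx =>
    obtain ⟨σ, S, ⟨_, rfl⟩ | rfl⟩ := hx
    · exact FR_gen_r _ _ _
    · exact Submodule.smul_mem _ _ (FR_gen_r _ _ _)
  | zero => rw [smul_zero]; exact Submodule.zero_mem _
  | add a b _ _ ha hb => rw [smul_add]; exact Submodule.add_mem _ ha hb
  | smul c a _ ha => rw [smul_comm]; exact Submodule.smul_mem _ _ ha

/-- ROW B8: elements of degree larger than the number of places are multiples of `r`. -/
theorem FR_top {j : ℕ} (hj : Fintype.card ι < j) {x : EW O k l ι} (hx : x ∈ FR k l ι r j) :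
    ∃ y ∈ FR k l ι r 0, x = r • y := by
  unfold FR at hx
  induction hx using Submodule.span_induction with
  | mem x hx =>
    obtain ⟨σ, S, ⟨h, rfl⟩ | rfl⟩ := hx
    · exact absurd (h.trans (Finset.card_le_univ S)) (by omega)
    · exact ⟨_, FR_gen_le σ (Nat.zero_le _), rfl⟩
  | zero => exact ⟨0, Submodule.zero_mem _, by rw [smul_zero]⟩
  | add a b _ _ ha hb =>
    obtain ⟨a', ha', rfl⟩ := ha
    obtain ⟨b', hb', rfl⟩ := hb
    exact ⟨a' + b', Submodule.add_mem _ ha' hb', by rw [smul_add]⟩
  | smul c a _ ha =>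
    obtain ⟨a', ha', rfl⟩ := ha
    exact ⟨c • a', Submodule.smul_mem _ _ ha', by rw [smul_comm]⟩

end B

end Pool.PI34.EX

end

/-! ### part EX_RD -/
section

set_option autoImplicit false
set_option linter.unusedSectionVars false
set_option linter.unusedDecidableInType false
set_option linter.unusedFintypeInType false

namespace Pool.PI34.EX

open Equiv Finset
open Pool.PI34.H4 (P g emb As AK)

section R

variable {m : ℕ}
variable {V : VD (m + 1)} {Wd : WD ((m + 1) ^ (m + 1))}

/-- The transposition of the first places of the determinants `a`, `a + 1`. -/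
noncomputable def fa (a : Fin (JJ m)) : P (I0 m V Wd) := g (swap (p0 a.castSucc) (p0 a.succ))

/-- The exchange of the blocks `a`, `a + 1`. -/
noncomputable def ba (a : Fin (JJ m)) : P (I0 m V Wd) :=
  bw (g (swap (Sum.inr a.castSucc) (Sum.inr a.succ)))

/-- The exchange of the other places of the blocks. -/
noncomputable def tau (a : Fin (JJ m)) : P (I0 m V Wd) := fa a * ba a

end R

end Pool.PI34.EX

end

/-! ### part EX_C1 -/
section

/-!
PI34, block EX (p = 2), rows C1, C2: the exchange relation in rank `k + l = m + 1`.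
-/

set_option autoImplicit false
set_option linter.unusedSectionVars false
set_option linter.unusedDecidableInType false
set_option linter.unusedFintypeInType false

namespace Pool.PI34.EX

open Equiv Finset
open Pool.PI34.Super (Lt odd pv prs)
open Pool.PI34.SK (W comp ins)
open Pool.PI34.H4 (P g emb As AK)

section C

/-! ### auxiliary facts (any ring, any letters) -/

section aux

variable {R L : Type} [CommRing R] {α β : Type} [Fintype α] [DecidableEq α] [DecidableEq β]

theorem c1_pa_mul (x y : P β) (f : (β → L) → R) :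
    pa R L β (x * y) f = pa R L β x (pa R L β y f) := by
  rw [map_mul]; rfl

theorem c1_pa_emb_g_As (E : α ↪ β) (σ : Perm α) (f : (β → L) → R) (w : β → L) :
    pa R L β (emb E (As α)) f (w ∘ σ.viaEmbedding E) =
      (Perm.sign σ : ℤ) • pa R L β (emb E (As α)) f w := by
  have h1 : pa R L β (g (σ.viaEmbedding E)) (pa R L β (emb E (As α)) f) w =
      pa R L β (emb E (As α)) f (w ∘ σ.viaEmbedding E) := pa_g R L _ _ _
  rw [← h1, ← c1_pa_mul, ← H4.emb_g, ← map_mul, H4.g_mul_As, map_zsmul, map_zsmul]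
  rfl

theorem c1_swap_via (E : α ↪ β) (x y : α) : (swap x y).viaEmbedding E = swap (E x) (E y) := by
  ext z
  by_cases hz : z ∈ Set.range E
  · obtain ⟨t, rfl⟩ := hz
    rw [Perm.viaEmbedding_apply, swap_apply_def, swap_apply_def]
    simp only [E.apply_eq_iff_eq]
    split_ifs <;> rfl
  · rw [Perm.viaEmbedding_apply_of_notMem _ _ _ hz, swap_apply_of_ne_of_ne]
    · rintro rfl; exact hz ⟨x, rfl⟩
    · rintro rfl; exact hz ⟨y, rfl⟩

theorem c1_pa_sum (s : Finset (Perm α)) (x : Perm α → P β) (f : (β → L) → R) :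
    pa R L β (∑ i ∈ s, x i) f = ∑ i ∈ s, pa R L β (x i) f := by
  rw [map_sum, LinearMap.sum_apply]

/-- The signed sum kills a word with two equal letters. -/
theorem c1_pa_As_zero (E : α ↪ β) (f : (β → L) → R) (w : β → L) {x y : α} (hxy : x ≠ y)
    (hw : w (E x) = w (E y)) : pa R L β (emb E (As α)) f w = 0 := by
  have h0 : w ∘ ⇑(swap (E x) (E y)) = w := by
    funext t
    simp only [Function.comp_apply]
    rcases eq_or_ne t (E x) with rfl | hx
    · rw [swap_apply_left, hw]
    · rcases eq_or_ne t (E y) with rfl | hy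
      · rw [swap_apply_right, hw]
      · rw [swap_apply_of_ne_of_ne hx hy]
  unfold As
  rw [map_sum, c1_pa_sum, Finset.sum_apply]
  refine Finset.sum_involution (fun σ _ => swap x y * σ) ?_ ?_ ?_ ?_
  · intro σ _
    rw [H4.emb_zsmul, H4.emb_zsmul, map_zsmul, map_zsmul, H4.emb_g, H4.emb_g]
    have h1 : pa R L β (g (σ.viaEmbedding E)) f w = f (w ∘ σ.viaEmbedding E) := pa_g R L _ _ _
    have h2 : pa R L β (g ((swap x y * σ).viaEmbedding E)) f w =
        f (w ∘ (swap x y * σ).viaEmbedding E) := pa_g R L _ _ _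
    have h3 : (swap x y * σ).viaEmbedding E = swap (E x) (E y) * σ.viaEmbedding E := by
      rw [← c1_swap_via, ← Perm.viaEmbeddingHom_apply, map_mul]
      rfl
    have h4 : w ∘ ⇑((swap x y * σ).viaEmbedding E) = w ∘ ⇑(σ.viaEmbedding E) := by
      rw [h3, Perm.coe_mul, ← Function.comp_assoc, h0]
    have h5 : (Perm.sign (swap x y * σ) : ℤ) = -(Perm.sign σ : ℤ) := by
      rw [Perm.sign_mul, Perm.sign_swap hxy]
      simp
    rw [LinearMap.smul_apply, LinearMap.smul_apply, Pi.smul_apply, Pi.smul_apply, h1, h2, h4, h5,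
      neg_smul, add_neg_cancel]
  · intro σ _ _ h
    have h1 : swap x y = 1 := by
      have := congrArg (fun τ => τ * σ⁻¹) h
      simpa using this
    exact hxy (swap_eq_one_iff.mp h1)
  · intro σ _
    exact mem_univ _
  · intro σ _
    rw [← mul_assoc, swap_mul_self, one_mul]

end aux

variable {O : Type} [CommRing O] {k l m : ℕ} {ι : Type} [Fintype ι] [LinearOrder ι] {r : O}

/-- ROW C1: exchange. -/
theorem exch (hm : k + l = m + 1) (D : Fin (m + 1) ↪ ι) (a : ι) (ha : ∀ i, D i ≠ a) :
    pf O k l ι (emb D (As (Fin (m + 1)))) =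
      ∑ i, pf O k l ι (g (swap a (D i)) * emb D (As (Fin (m + 1)))) := by
  obtain ⟨E, hE0, hE1⟩ : ∃ E : Fin (m + 2) ↪ ι, E 0 = a ∧ ∀ i, E (Fin.succ i) = D i := by
    refine ⟨⟨Fin.cons a D, ?_⟩, rfl, fun i => rfl⟩
    rw [Fin.cons_injective_iff]
    exact ⟨fun ⟨i, hi⟩ => ha i hi, D.injective⟩
  have hED : (H4.sE (m + 1)).trans E = D := by
    ext i
    exact hE1 i
  have h0 : pf O k l ι (emb E (As (Fin (m + 2)))) = 0 := by
    refine LinearMap.ext fun f => ?_
    funext w
    have hc : Fintype.card (Lt k l) < Fintype.card (Fin (m + 2)) := by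
      rw [Fintype.card_sum, Fintype.card_fin, Fintype.card_fin, Fintype.card_fin]
      omega
    obtain ⟨x, y, hxy, hw⟩ := Fintype.exists_ne_map_eq_of_card_lt (w ∘ E) hc
    exact c1_pa_As_zero E f w hxy hw
  have h1 : emb E (H4.atl (m + 1)) = 1 - ∑ i : Fin (m + 1), g (swap a (D i)) := by
    unfold H4.atl
    rw [map_sub, map_one, map_sum]
    congr 1
    refine Finset.sum_congr rfl fun i _ => ?_
    rw [H4.emb_g, c1_swap_via, hE0, hE1]
  rw [H4.As_succ (m + 1), map_mul, H4.emb_trans, hED, h1, sub_mul, one_mul, map_sub,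
    sub_eq_zero, Finset.sum_mul, map_sum] at h0
  exact h0

/-- ROW C2: a `δ` at a free place goes into a determinant. -/
theorem exch_ds (hm : k + l = m + 1) (D : Fin (m + 1) ↪ ι) (a : ι) (ha : ∀ i, D i ≠ a) :
    ds r {a} * pf O k l ι (emb D (As (Fin (m + 1)))) =
      ∑ i, pf O k l ι (g (swap a (D i))) * (ds r {D i} * pf O k l ι (emb D (As (Fin (m + 1))))) := by
  refine LinearMap.ext fun f => ?_
  funext w
  have h1 : pf O k l ι (emb D (As (Fin (m + 1)))) f w =
      ∑ i, pf O k l ι (emb D (As (Fin (m + 1)))) f (w ∘ swap a (D i)) := by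
    have h2 := congrFun (congrArg (fun φ : EW O k l ι => φ f) (exch (O := O) hm D a ha)) w
    beta_reduce at h2
    rw [h2, LinearMap.sum_apply, Finset.sum_apply]
    refine Finset.sum_congr rfl fun i _ => ?_
    rw [c1_pa_mul]
    exact pa_g O (Lt k l) _ _ _
  have h3 : (∑ i, pf O k l ι (g (swap a (D i))) * (ds r {D i} *
      pf O k l ι (emb D (As (Fin (m + 1))))) : EW O k l ι) f w =
      ∑ i, (if odd (w a) then r else 0) *
        pf O k l ι (emb D (As (Fin (m + 1)))) f (w ∘ swap a (D i)) := by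
    rw [LinearMap.sum_apply, Finset.sum_apply]
    refine Finset.sum_congr rfl fun i _ => ?_
    have h4 : (pf O k l ι (g (swap a (D i))) * (ds r {D i} *
        pf O k l ι (emb D (As (Fin (m + 1))))) : EW O k l ι) f w =
        (ds r {D i} * pf O k l ι (emb D (As (Fin (m + 1)))) : EW O k l ι) f
          (w ∘ swap a (D i)) :=
      pa_g O (Lt k l) _ _ _
    rw [h4]
    change (∏ j ∈ {D i}, if odd ((w ∘ swap a (D i)) j) then r else 0) *
      pf O k l ι (emb D (As (Fin (m + 1)))) f (w ∘ swap a (D i)) = _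
    rw [Finset.prod_singleton, Function.comp_apply, swap_apply_right]
  rw [h3, ← Finset.mul_sum, ← h1]
  change (∏ j ∈ {a}, if odd (w j) then r else 0) * _ = _
  rw [Finset.prod_singleton]

end C

end Pool.PI34.EX

end

/-! ### part EX_K1 -/
section

/-!
PI34, block EX (p = 2), rows K1a, K1b, K1c, K2: the elements which kill the words, matrix entries.
-/

set_option autoImplicit false
set_option linter.unusedSectionVars false
set_option linter.unusedDecidableInType false
set_option linter.unusedFintypeInType false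

namespace Pool.PI34.EX

open Equiv Finset
open Pool.PI34.Super (Lt odd pv prs)
open Pool.PI34.SK (W comp ins)
open Pool.PI34.H4 (P g emb As AK)

section K

variable {L L' : Type} [Fintype L] [DecidableEq L] [Fintype L'] [DecidableEq L']
variable {α β : Type} [Fintype α] [DecidableEq α] [Fintype β] [DecidableEq β]

/-- The plain action in coordinates. -/
theorem pa_apply {R : Type} [CommRing R] (y : P α) (f : (α → L) → R) (w : α → L) :
    pa R L α y f w = ∑ σ : Perm α, (y.coeff σ : R) * f (w ∘ σ) := by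
  induction y using MonoidAlgebra.induction_on with
  | of σ =>
    have h1 : pa R L α (MonoidAlgebra.of ℤ (Perm α) σ) f w = f (w ∘ σ) := pa_g R L σ f w
    rw [h1, Finset.sum_eq_single σ]
    · simp [MonoidAlgebra.of_apply]
    · intro τ _ hτ
      simp [MonoidAlgebra.of_apply, Ne.symm hτ]
    · intro h
      exact absurd (Finset.mem_univ _) h
  | add x y hx hy =>
    rw [map_add, LinearMap.add_apply, Pi.add_apply, hx, hy, ← Finset.sum_add_distrib]
    refine Finset.sum_congr rfl fun σ _ => ?_
    rw [MonoidAlgebra.coeff_add, Finsupp.add_apply, Int.cast_add, add_mul]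
  | smul r x hx =>
    rw [map_zsmul, LinearMap.smul_apply, Pi.smul_apply, hx, Finset.smul_sum]
    refine Finset.sum_congr rfl fun σ _ => ?_
    have h2 : (r • x).coeff σ = r * x.coeff σ := rfl
    rw [h2, Int.cast_mul, zsmul_eq_mul, mul_assoc]

/-- The matrix entries of the plain action. -/
theorem pa_entries {R : Type} [CommRing R] (y : P α) (f : (α → L) → R) (w' : α → L) :
    pa R L α y f w' = ∑ w : α → L,
      ((∑ σ : Perm α, (if w' ∘ σ = w then y.coeff σ else 0) : ℤ) : R) * f w := by
  rw [pa_apply]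
  have h1 : ∀ w : α → L, ((∑ σ : Perm α, (if w' ∘ σ = w then y.coeff σ else 0) : ℤ) : R) * f w =
      ∑ σ : Perm α, if w' ∘ σ = w then (y.coeff σ : R) * f w else 0 := by
    intro w
    rw [Int.cast_sum, Finset.sum_mul]
    refine Finset.sum_congr rfl fun σ _ => ?_
    split_ifs
    · rfl
    · rw [Int.cast_zero, zero_mul]
  rw [Finset.sum_congr rfl fun w _ => h1 w, Finset.sum_comm]
  refine Finset.sum_congr rfl fun σ _ => ?_
  rw [Finset.sum_ite_eq, if_pos (Finset.mem_univ _)]

/-- One matrix entry. -/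
theorem pa_single {R : Type} [CommRing R] (y : P α) (w w' : α → L) :
    pa R L α y (Pi.single w 1) w' =
      ((∑ σ : Perm α, (if w' ∘ σ = w then y.coeff σ else 0) : ℤ) : R) := by
  rw [pa_entries, Finset.sum_eq_single w]
  · rw [Pi.single_eq_same, mul_one]
  · intro v _ hv
    rw [Pi.single_eq_of_ne hv, mul_zero]
  · intro h
    exact absurd (Finset.mem_univ _) h

/-- ROW K1a. -/
theorem kill_iff (y : P α) : Kill L y ↔ ∀ w w' : α → L,
    ∑ σ : Perm α, (if w' ∘ σ = w then y.coeff σ else 0) = 0 := by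
  constructor
  · intro h w w'
    have h1 := pa_single (R := ℤ) y w w'
    rw [show pa ℤ L α y = 0 from h, LinearMap.zero_apply, Pi.zero_apply, Int.cast_id] at h1
    exact h1.symm
  · intro h
    refine LinearMap.ext fun f => funext fun w' => ?_
    rw [pa_entries, LinearMap.zero_apply, Pi.zero_apply]
    refine Finset.sum_eq_zero fun w _ => ?_
    rw [h, Int.cast_zero, zero_mul]

/-- ROW K1b. -/
theorem pa_zero {R : Type} [CommRing R] {y : P α} (h : Kill L y) : pa R L α y = 0 := by
  refine LinearMap.ext fun f => funext fun w' => ?_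
  rw [pa_entries, LinearMap.zero_apply, Pi.zero_apply]
  refine Finset.sum_eq_zero fun w _ => ?_
  rw [(kill_iff y).1 h, Int.cast_zero, zero_mul]

/-- ROW K1c. -/
theorem kill_act {N : ℕ} (y : P α) : Kill (Fin N) y ↔ H4.act N α y = 0 := by
  have h0 : H4.act N α y = pa ℚ (Fin N) α y := rfl
  rw [h0]
  constructor
  · exact fun h => pa_zero h
  · intro h
    rw [kill_iff]
    intro w w'
    have h1 := pa_single (R := ℚ) y w w'
    rw [h, LinearMap.zero_apply, Pi.zero_apply] at h1
    exact_mod_cast h1.symm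

/-- ROW K2. -/
theorem kill_card (h : Fintype.card L ≤ Fintype.card L') {y : P α} (hy : Kill L' y) :
    Kill L y := by
  obtain ⟨e⟩ := Function.Embedding.nonempty_of_card_le h
  rw [kill_iff] at hy ⊢
  intro w w'
  refine (Finset.sum_congr rfl fun σ _ => ?_).trans (hy (e ∘ w) (e ∘ w'))
  have h1 : (w' ∘ σ = w) ↔ ((e ∘ w') ∘ σ = e ∘ w) := by
    constructor
    · intro h2
      rw [← h2]
      rfl
    · intro h2
      funext x
      exact e.injective (congrFun h2 x)
  by_cases h2 : w' ∘ σ = w
  · rw [if_pos h2, if_pos (h1.1 h2)]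
  · rw [if_neg h2, if_neg (fun h3 => h2 (h1.2 h3))]

end K

end Pool.PI34.EX

end

/-! ### part EX_R5 -/
section

set_option autoImplicit false
set_option linter.unusedSectionVars false
set_option linter.unusedSimpArgs false

namespace Pool.PI34.EX

/-- ROW R5: the abstract computation. -/
theorem red_abs {A : Type} [Ring A] (B : Subring A) (S J : AddSubgroup A)
    (hJB : ∀ j ∈ J, ∀ b ∈ B, b * j ∈ J ∧ j * b ∈ J) (h2 : ∀ b ∈ B, b + b ∈ J)
    {ρ f τ E1 E0 T Dd Z : A} (hρ : ρ ∈ B) (hf : f ∈ B) (hτ : τ ∈ B) (hE1 : E1 ∈ B) (hE0 : E0 ∈ B)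
    (hT : T ∈ B) (hD : Dd ∈ B) (hJZ : ∀ j ∈ J, j * Z ∈ S)
    (h1 : f * E1 - E1 ∈ J) (h1' : E1 * f - E1 ∈ J) (h0 : E0 - T - f * T * f ∈ J)
    (hff : f * f = 1) (hfD : f * Dd = Dd * f)
    (hτf : Commute τ f) (hτ1 : Commute τ E1) (hτ0 : Commute τ E0) (hτT : Commute τ T)
    (hτD : Commute τ Dd) (hρτ : ρ * (f * τ) - ρ ∈ J) (hZ : f * Z = τ * Z) :
    ρ * ((E1 + E0) * Dd * (E1 + E0)) * Z - ρ * (E1 * Dd * E1) * Z ∈ S := by
  let M : AddSubgroup A := S.comap (AddMonoidHom.mulRight Z)
  have hJM : ∀ j ∈ J, j ∈ M := fun j hj => hJZ j hj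
  have hfτ : ∀ x, x * f - x * τ ∈ M := by
    intro x
    change (x * f - x * τ) * Z ∈ S
    rw [sub_mul, mul_assoc, mul_assoc, hZ, sub_self]
    exact S.zero_mem
  have J3 : ∀ a ∈ B, ∀ j ∈ J, ∀ b ∈ B, a * j * b ∈ J := fun a ha j hj b hb =>
    (hJB _ ((hJB j hj a ha).1) b hb).2
  have mB : ∀ {a b : A}, a ∈ B → b ∈ B → a * b ∈ B := fun ha hb => B.mul_mem ha hb
  -- commutations, in the form `x * (y * z)`
  have cfD : ∀ z, Dd * (f * z) = f * (Dd * z) := fun z => by
    rw [← mul_assoc, ← hfD, mul_assoc]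
  have cτf : ∀ z, τ * (f * z) = f * (τ * z) := fun z => by
    rw [← mul_assoc, hτf.eq, mul_assoc]
  have cτ1 : ∀ z, E1 * (τ * z) = τ * (E1 * z) := fun z => by
    rw [← mul_assoc, ← hτ1.eq, mul_assoc]
  have cτ0 : ∀ z, E0 * (τ * z) = τ * (E0 * z) := fun z => by
    rw [← mul_assoc, ← hτ0.eq, mul_assoc]
  have cτT : ∀ z, T * (τ * z) = τ * (T * z) := fun z => by
    rw [← mul_assoc, ← hτT.eq, mul_assoc]
  have cτD : ∀ z, Dd * (τ * z) = τ * (Dd * z) := fun z => by
    rw [← mul_assoc, ← hτD.eq, mul_assoc]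
  have cff : ∀ z, f * (f * z) = z := fun z => by
    rw [← mul_assoc, hff, one_mul]
  -- `f E0 = E0 f` modulo `J`
  have hfE0 : f * E0 - E0 * f ∈ J := by
    have e : f * E0 - E0 * f = f * (E0 - T - f * T * f) - (E0 - T - f * T * f) * f := by
      simp only [mul_sub, sub_mul, mul_assoc, cff, hff, mul_one]
      abel
    rw [e]
    exact J.sub_mem (hJB _ h0 _ hf).1 (hJB _ h0 _ hf).2
  -- term 1
  have t1 : ρ * (E1 * (Dd * E0)) ∈ M := by
    have e : ρ * (E1 * (Dd * E0)) = (ρ * E1 * Dd) * (E0 - T - f * T * f) * 1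
        + ((ρ * E1 * Dd * f * T) * f - (ρ * E1 * Dd * f * T) * τ)
        + ρ * (E1 * f - E1) * (Dd * T * τ)
        - (ρ * τ) * (f * E1 - E1) * (Dd * T)
        + 1 * (ρ * (f * τ) - ρ) * (E1 * Dd * T) + (ρ * E1 * Dd * T + ρ * E1 * Dd * T) := by
      simp only [mul_sub, sub_mul, mul_assoc, mul_one, one_mul, cfD, cτf, cτ1, cτT, cτD, ← hτT.eq]
      abel
    rw [e]
    refine M.add_mem (M.add_mem (M.sub_mem (M.add_mem (M.add_mem ?_ ?_) ?_) ?_) ?_) ?_
    · exact hJM _ (J3 _ (mB (mB hρ hE1) hD) _ h0 _ B.one_mem)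
    · exact hfτ _
    · exact hJM _ (J3 _ hρ _ h1' _ (mB (mB hD hT) hτ))
    · exact hJM _ (J3 _ (mB hρ hτ) _ h1 _ (mB hD hT))
    · exact hJM _ (J3 _ B.one_mem _ hρτ _ (mB (mB hE1 hD) hT))
    · exact hJM _ (h2 _ (mB (mB (mB hρ hE1) hD) hT))
  have t2 : ρ * (E0 * (Dd * E1)) ∈ M := by
    have e : ρ * (E0 * (Dd * E1)) = ρ * (E0 - T - f * T * f) * (Dd * E1)
        + (ρ * f * T * Dd) * (f * E1 - E1) * 1
        - (ρ * f * T * Dd) * (E1 * f - E1) * 1
        + ((ρ * f * T * Dd * E1) * f - (ρ * f * T * Dd * E1) * τ)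
        + 1 * (ρ * (f * τ) - ρ) * (T * Dd * E1) + (ρ * T * Dd * E1 + ρ * T * Dd * E1) := by
      simp only [mul_sub, sub_mul, mul_assoc, mul_one, one_mul, cfD, cτf, cτ1, cτT, cτD, ← hτ1.eq]
      abel
    rw [e]
    refine M.add_mem (M.add_mem (M.add_mem (M.sub_mem (M.add_mem ?_ ?_) ?_) ?_) ?_) ?_
    · exact hJM _ (J3 _ hρ _ h0 _ (mB hD hE1))
    · exact hJM _ (J3 _ (mB (mB (mB hρ hf) hT) hD) _ h1 _ B.one_mem)
    · exact hJM _ (J3 _ (mB (mB (mB hρ hf) hT) hD) _ h1' _ B.one_mem)
    · exact hfτ _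
    · exact hJM _ (J3 _ B.one_mem _ hρτ _ (mB (mB hT hD) hE1))
    · exact hJM _ (h2 _ (mB (mB (mB hρ hT) hD) hE1))
  have t3 : ρ * (E0 * (Dd * E0)) ∈ M := by
    have e : ρ * (E0 * (Dd * E0)) = ρ * (E0 - T - f * T * f) * (Dd * E0)
        + (ρ * f * T * Dd) * (f * E0 - E0 * f) * 1
        + ((ρ * f * T * Dd * E0) * f - (ρ * f * T * Dd * E0) * τ)
        + 1 * (ρ * (f * τ) - ρ) * (T * Dd * E0) + (ρ * T * Dd * E0 + ρ * T * Dd * E0) := by
      simp only [mul_sub, sub_mul, mul_assoc, mul_one, one_mul, cfD, cτf, cτ0, cτT, cτD, ← hτ0.eq]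
      abel
    rw [e]
    refine M.add_mem (M.add_mem (M.add_mem (M.add_mem ?_ ?_) ?_) ?_) ?_
    · exact hJM _ (J3 _ hρ _ h0 _ (mB hD hE0))
    · exact hJM _ (J3 _ (mB (mB (mB hρ hf) hT) hD) _ hfE0 _ B.one_mem)
    · exact hfτ _
    · exact hJM _ (J3 _ B.one_mem _ hρτ _ (mB (mB hT hD) hE0))
    · exact hJM _ (h2 _ (mB (mB (mB hρ hT) hD) hE0))
  have t : ρ * (E1 * (Dd * E0)) + ρ * (E0 * (Dd * E1)) + ρ * (E0 * (Dd * E0)) ∈ M :=
    M.add_mem (M.add_mem t1 t2) t3
  change (ρ * (E1 * (Dd * E0)) + ρ * (E0 * (Dd * E1)) + ρ * (E0 * (Dd * E0))) * Z ∈ S at t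
  have e : ρ * ((E1 + E0) * Dd * (E1 + E0)) * Z - ρ * (E1 * Dd * E1) * Z =
      (ρ * (E1 * (Dd * E0)) + ρ * (E0 * (Dd * E1)) + ρ * (E0 * (Dd * E0))) * Z := by
    simp only [mul_add, add_mul, mul_assoc]
    abel
  rw [e]
  exact t

end Pool.PI34.EX

end

/-! ### part EX_B2 -/
section

/-!
PI34, block EX, rows B4, B5, B6, B9: the signed action and the plain action.
-/

set_option autoImplicit false
set_option linter.unusedSectionVars false
set_option linter.unusedDecidableInType false
set_option linter.unusedFintypeInType false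

namespace Pool.PI34.EX

open Equiv Finset
open Pool.PI34.Super (Lt odd pv prs)
open Pool.PI34.SK (W comp ins)
open Pool.PI34.H4 (P g emb As AK)

section B2

variable {O : Type} [CommRing O] {k l : ℕ} {ι : Type} [Fintype ι] [LinearOrder ι] {r : O}


/-- The sign of a permutation as an operator. -/
def b2_epsOp (Q : Finset (ι × ι)) (σ : Perm ι) : EW O k l ι where
  toFun f := fun w => (∏ q ∈ Q, if pv w q.1 && pv w q.2 then (SK.H σ q.1 q.2 : O) else 1) * f w
  map_add' f g := by funext w; simp [mul_add]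
  map_smul' c f := by funext w; simp; ring

theorem b2_epsOp_apply (Q : Finset (ι × ι)) (σ : Perm ι) (f : W O k l ι) (w : ι → Lt k l) :
    b2_epsOp Q σ f w =
      (∏ q ∈ Q, if pv w q.1 && pv w q.2 then (SK.H σ q.1 q.2 : O) else 1) * f w := rfl

theorem b2_sf_g_apply (σ : Perm ι) (f : W O k l ι) (w : ι → Lt k l) :
    sf O k l ι (g σ) f w = SK.eps σ (pv (w ∘ σ)) * f (w ∘ σ) := by
  have h : sf O k l ι (g σ) = SK.rho O k l ι σ := SK.act_of σ
  rw [h]
  rfl

theorem b2_pf_g_apply (σ : Perm ι) (f : W O k l ι) (w : ι → Lt k l) :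
    pf O k l ι (g σ) f w = f (w ∘ σ) := pa_g O (Lt k l) σ f w

theorem b2_sf_g (σ : Perm ι) :
    sf O k l ι (g σ) = pf O k l ι (g σ) * b2_epsOp (prs ι) σ := by
  apply LinearMap.ext
  intro f
  funext w
  rw [b2_sf_g_apply, Module.End.mul_apply, b2_pf_g_apply]
  rfl

theorem b2_ds_empty : (ds r ∅ : EW O k l ι) = 1 := by
  apply LinearMap.ext
  intro f
  funext w
  rw [ds_apply]
  simp

/-- The span of the `δ_S` with at least `j` places. -/
def b2_DJ (O : Type) [CommRing O] (k l : ℕ) (ι : Type) [Fintype ι] [LinearOrder ι] (r : O) (j : ℕ) :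
    Submodule O (EW O k l ι) :=
  Submodule.span O {x | ∃ S : Finset ι, j ≤ S.card ∧ x = ds r S}

theorem b2_DJ_mul (T : Finset ι) {j : ℕ} {x : EW O k l ι} (hx : x ∈ b2_DJ O k l ι r j) :
    ds r T * x ∈ b2_DJ O k l ι r j := by
  unfold b2_DJ at hx ⊢
  induction hx using Submodule.span_induction with
  | mem x hx =>
    obtain ⟨S, hS, rfl⟩ := hx
    rw [ds_mul]
    exact Submodule.smul_mem _ _ (Submodule.subset_span
      ⟨T ∪ S, hS.trans (Finset.card_le_card Finset.subset_union_right), rfl⟩)
  | zero => rw [mul_zero]; exact Submodule.zero_mem _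
  | add x y _ _ hx hy => rw [mul_add]; exact Submodule.add_mem _ hx hy
  | smul c x _ hx => rw [mul_smul_comm]; exact Submodule.smul_mem _ _ hx

theorem b2_DJ_mul' (T : Finset ι) {j : ℕ} {x : EW O k l ι} (hx : x ∈ b2_DJ O k l ι r j) :
    x * ds r T ∈ b2_DJ O k l ι r j := by
  unfold b2_DJ at hx ⊢
  induction hx using Submodule.span_induction with
  | mem x hx =>
    obtain ⟨S, hS, rfl⟩ := hx
    rw [ds_mul]
    exact Submodule.smul_mem _ _ (Submodule.subset_span
      ⟨S ∪ T, hS.trans (Finset.card_le_card Finset.subset_union_left), rfl⟩)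
  | zero => rw [zero_mul]; exact Submodule.zero_mem _
  | add x y _ _ hx hy => rw [add_mul]; exact Submodule.add_mem _ hx hy
  | smul c x _ hx => rw [smul_mul_assoc]; exact Submodule.smul_mem _ _ hx

theorem b2_ds_pair_apply (hr : r * r = 2) {i j : ι} (hij : i ≠ j) (f : W O k l ι) (w : ι → Lt k l) :
    ds r {i, j} f w = (if pv w i && pv w j then (2 : O) else 0) * f w := by
  rw [ds_apply, Finset.prod_pair hij]
  congr 1
  unfold pv
  by_cases h1 : odd (w i) <;> by_cases h2 : odd (w j) <;> simp [h1, h2, hr]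

theorem b2_epsOp_insert (hr : r * r = 2) {q : ι × ι} {Q : Finset (ι × ι)} (hq : q ∉ Q)
    (hq' : q.1 ≠ q.2) (σ : Perm ι) :
    (b2_epsOp (insert q Q) σ : EW O k l ι) =
      if (q.1 < q.2 ↔ σ q.1 < σ q.2) then b2_epsOp Q σ
      else b2_epsOp Q σ - ds r {q.1, q.2} * b2_epsOp Q σ := by
  apply LinearMap.ext
  intro f
  funext w
  rw [b2_epsOp_apply, Finset.prod_insert hq]
  by_cases h : (q.1 < q.2 ↔ σ q.1 < σ q.2)
  · rw [if_pos h, b2_epsOp_apply]
    have h1 : (SK.H σ q.1 q.2 : O) = 1 := by unfold SK.H; rw [if_pos h]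
    rw [h1]
    simp
  · rw [if_neg h, LinearMap.sub_apply, Module.End.mul_apply, Pi.sub_apply, b2_ds_pair_apply hr hq',
      b2_epsOp_apply]
    have h1 : (SK.H σ q.1 q.2 : O) = -1 := by unfold SK.H; rw [if_neg h]
    rw [h1]
    by_cases h2 : (pv w q.1 && pv w q.2) = true
    · rw [if_pos h2, if_pos h2]; ring
    · rw [if_neg h2, if_neg h2]; ring

theorem b2_epsOp_empty (σ : Perm ι) : (b2_epsOp ∅ σ : EW O k l ι) = 1 := by
  apply LinearMap.ext
  intro f
  funext w
  rw [b2_epsOp_apply]
  simp

theorem b2_epsOp_sub_one (hr : r * r = 2) (σ : Perm ι) (Q : Finset (ι × ι)) :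
    (∀ q ∈ Q, q.1 ≠ q.2) → (b2_epsOp Q σ - 1 : EW O k l ι) ∈ b2_DJ O k l ι r 2 := by
  classical
  induction Q using Finset.induction_on with
  | empty => intro _; rw [b2_epsOp_empty, sub_self]; exact Submodule.zero_mem _
  | insert q Q hq ih =>
    intro hQ
    have h1 := ih (fun x hx => hQ x (Finset.mem_insert_of_mem hx))
    have hne : q.1 ≠ q.2 := hQ q (Finset.mem_insert_self _ _)
    rw [b2_epsOp_insert hr hq hne]
    split_ifs with h
    · exact h1
    · have h2 : (b2_epsOp Q σ - ds r {q.1, q.2} * b2_epsOp Q σ - 1 : EW O k l ι) =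
          (b2_epsOp Q σ - 1) - (ds r {q.1, q.2} + ds r {q.1, q.2} * (b2_epsOp Q σ - 1)) := by
        rw [mul_sub, mul_one]
        abel
      rw [h2]
      refine Submodule.sub_mem _ h1 (Submodule.add_mem _ (Submodule.subset_span
        ⟨{q.1, q.2}, ?_, rfl⟩) (b2_DJ_mul _ h1))
      rw [Finset.card_pair hne]

theorem b2_prs_ne {q : ι × ι} (hq : q ∈ prs ι) : q.1 ≠ q.2 := (Super.mem_prs.1 hq).ne

theorem b2_pf_mul_DJ (σ : Perm ι) {j : ℕ} {x : EW O k l ι} (hx : x ∈ b2_DJ O k l ι r j) :
    pf O k l ι (g σ) * x ∈ FR k l ι r j := by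
  unfold b2_DJ at hx
  unfold FR
  induction hx using Submodule.span_induction with
  | mem x hx =>
    obtain ⟨S, hS, rfl⟩ := hx
    exact Submodule.subset_span ⟨σ, S, Or.inl ⟨hS, rfl⟩⟩
  | zero => rw [mul_zero]; exact Submodule.zero_mem _
  | add x y _ _ hx hy => rw [mul_add]; exact Submodule.add_mem _ hx hy
  | smul c x _ hx => rw [mul_smul_comm]; exact Submodule.smul_mem _ _ hx

/-- ROW B4. -/
theorem sf_sub_pf (hr : r * r = 2) (y : P ι) : sf O k l ι y - pf O k l ι y ∈ FR k l ι r 2 := by
  induction y using H4.P_induction with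
  | h1 σ =>
    rw [b2_sf_g]
    have h : pf O k l ι (g σ) * b2_epsOp (prs ι) σ - pf O k l ι (g σ) =
        pf O k l ι (g σ) * (b2_epsOp (prs ι) σ - 1) := by
      rw [mul_sub, mul_one]
    rw [h]
    exact b2_pf_mul_DJ σ (b2_epsOp_sub_one hr σ _ (fun q hq => b2_prs_ne hq))
  | h2 x y hx hy =>
    rw [map_add, map_add, add_sub_add_comm]
    exact Submodule.add_mem _ hx hy
  | h3 n x hx =>
    rw [map_zsmul, map_zsmul]
    have h : n • sf O k l ι x - n • pf O k l ι x = n • (sf O k l ι x - pf O k l ι x) :=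
      (zsmul_sub _ _ n).symm
    rw [h]
    exact zsmul_mem hx n

/-- ROW B5. -/
theorem sf_swap_adj (hr : r * r = 2) {p q : ι} (h : p ⋖ q) :
    sf O k l ι (g (swap p q)) = pf O k l ι (g (swap p q)) * (1 - ds r {p, q}) := by
  classical
  rw [b2_sf_g]
  congr 1
  have hpq : p < q := h.1
  apply LinearMap.ext
  intro f
  funext w
  rw [b2_epsOp_apply, LinearMap.sub_apply, Pi.sub_apply, b2_ds_pair_apply hr hpq.ne, Module.End.one_apply]
  have hmem : ((p, q) : ι × ι) ∈ prs ι := Super.mem_prs.2 hpq
  rw [Finset.prod_eq_single_of_mem (p, q) hmem]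
  · have h1 : (SK.H (swap p q) p q : O) = -1 := by
      unfold SK.H
      rw [swap_apply_left, swap_apply_right, if_neg]
      intro e
      exact lt_asymm hpq (e.1 hpq)
    simp only [h1]
    by_cases h2 : (pv w p && pv w q) = true
    · rw [if_pos h2, if_pos h2]; ring
    · rw [if_neg h2, if_neg h2]; ring
  · rintro ⟨i, j⟩ hij hne
    have hlt : i < j := Super.mem_prs.1 hij
    have h1 : (SK.H (swap p q) i j : O) = 1 := by
      unfold SK.H
      rw [if_pos]
      refine ⟨fun _ => ?_, fun _ => hlt⟩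
      by_cases hi : i = p
      · subst hi
        have hjq : j ≠ q := fun e => hne (by rw [e])
        have hji : j ≠ i := hlt.ne'
        rw [swap_apply_left, swap_apply_of_ne_of_ne hji hjq]
        rcases lt_or_ge q j with h3 | h3
        · exact h3
        · exact absurd (lt_of_le_of_ne h3 hjq) (h.2 hlt)
      · by_cases hi' : i = q
        · subst hi'
          have hjp : j ≠ p := (hpq.trans hlt).ne'
          rw [swap_apply_right, swap_apply_of_ne_of_ne hjp hlt.ne']
          exact hpq.trans hlt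
        · rw [swap_apply_of_ne_of_ne hi hi']
          by_cases hj : j = p
          · subst hj
            rw [swap_apply_left]
            exact hlt.trans hpq
          · by_cases hj' : j = q
            · subst hj'
              rw [swap_apply_right]
              rcases lt_or_ge i p with h3 | h3
              · exact h3
              · exact absurd hlt (h.2 (lt_of_le_of_ne h3 (Ne.symm hi)))
            · rw [swap_apply_of_ne_of_ne hj hj']
              exact hlt
    simp only [h1, ite_self]

/-- ROW B6. -/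
theorem sf_ds (σ : Perm ι) (S : Finset ι) :
    sf O k l ι (g σ) * ds r S = ds r (S.map σ.toEmbedding) * sf O k l ι (g σ) := by
  apply LinearMap.ext
  intro f
  funext w
  rw [Module.End.mul_apply, Module.End.mul_apply, b2_sf_g_apply, ds_apply, ds_apply, b2_sf_g_apply,
    Finset.prod_map]
  simp only [Equiv.coe_toEmbedding, Function.comp_apply]
  ring

theorem b2_epsOp_sq (σ : Perm ι) : (b2_epsOp (prs ι) σ * b2_epsOp (prs ι) σ : EW O k l ι) = 1 := by
  apply LinearMap.ext
  intro f
  funext w
  rw [Module.End.mul_apply, Module.End.one_apply, b2_epsOp_apply, b2_epsOp_apply, ← mul_assoc]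
  have h := SK.eps_sq (K := O) σ (pv w)
  unfold SK.eps at h
  rw [h, one_mul]

theorem b2_pf_g_eq (σ : Perm ι) :
    pf O k l ι (g σ) = sf O k l ι (g σ) * b2_epsOp (prs ι) σ := by
  rw [b2_sf_g, mul_assoc, b2_epsOp_sq, mul_one]

/-- ROW B9. -/
theorem FR_le_sf (hr : r * r = 2) : FR k l ι r 0 ≤ Submodule.span O
    {x | ∃ (σ : Perm ι) (S : Finset ι), x = sf O k l ι (g σ) * ds r S} := by
  have key : ∀ (σ : Perm ι) (x : EW O k l ι), x ∈ b2_DJ O k l ι r 0 →
      sf O k l ι (g σ) * x ∈ Submodule.span O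
        {x | ∃ (σ : Perm ι) (S : Finset ι), x = sf O k l ι (g σ) * ds r S} := by
    intro σ x hx
    unfold b2_DJ at hx
    induction hx using Submodule.span_induction with
    | mem x hx =>
      obtain ⟨S, -, rfl⟩ := hx
      exact Submodule.subset_span ⟨σ, S, rfl⟩
    | zero => rw [mul_zero]; exact Submodule.zero_mem _
    | add x y _ _ hx hy => rw [mul_add]; exact Submodule.add_mem _ hx hy
    | smul c x _ hx => rw [mul_smul_comm]; exact Submodule.smul_mem _ _ hx
  have key2 : ∀ (σ : Perm ι) (S : Finset ι), pf O k l ι (g σ) * ds r S ∈ Submodule.span O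
        {x | ∃ (σ : Perm ι) (S : Finset ι), x = sf O k l ι (g σ) * ds r S} := by
    intro σ S
    rw [b2_pf_g_eq, mul_assoc]
    refine key σ _ (b2_DJ_mul' S ?_)
    have h1 : (b2_epsOp (prs ι) σ - 1 : EW O k l ι) ∈ b2_DJ O k l ι r 0 := by
      have h2 := b2_epsOp_sub_one (O := O) (k := k) (l := l) hr σ (prs ι) (fun q hq => b2_prs_ne hq)
      have h3 : b2_DJ O k l ι r 2 ≤ b2_DJ O k l ι r 0 := by
        unfold b2_DJ
        refine Submodule.span_mono ?_
        rintro x ⟨S, -, rfl⟩
        exact ⟨S, Nat.zero_le _, rfl⟩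
      exact h3 h2
    have h4 : (b2_epsOp (prs ι) σ : EW O k l ι) = (b2_epsOp (prs ι) σ - 1) + ds r ∅ := by
      rw [b2_ds_empty, sub_add_cancel]
    rw [h4]
    exact Submodule.add_mem _ h1 (Submodule.subset_span ⟨∅, Nat.zero_le _, rfl⟩)
  unfold FR
  rw [Submodule.span_le]
  rintro x ⟨σ, S, hx | hx⟩
  · rw [hx.2]; exact key2 σ S
  · rw [hx]; exact Submodule.smul_mem _ _ (key2 σ S)

end B2

end Pool.PI34.EX

end

/-! ### part EX_C2 -/
section

/-!
PI34, block EX (p = 2), row C4: the exchange of two determinants of rank `k + l = m + 1` acts trivially.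
-/

set_option autoImplicit false
set_option linter.unusedSectionVars false
set_option linter.unusedDecidableInType false
set_option linter.unusedFintypeInType false

namespace Pool.PI34.EX

open Equiv Finset
open Pool.PI34.Super (Lt odd pv prs)
open Pool.PI34.SK (W comp ins)
open Pool.PI34.H4 (P g emb As AK)

section C

variable {O : Type} [CommRing O] {k l m : ℕ} {ι : Type} [Fintype ι] [LinearOrder ι] {r : O}

/-- The exchange of two blocks. -/
noncomputable def flipB (D D' : Fin (m + 1) ↪ ι) : P ι := ((List.finRange (m + 1)).map fun i => g (swap (D i) (D' i))).prod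

theorem c2_list (D D' : Fin (m + 1) ↪ ι) (hd : ∀ i j, D i ≠ D' j) (s : List (Fin (m + 1)))
    (hs : s.Nodup) :
    (∀ j, j ∈ s → (s.map fun i => swap (D i) (D' i)).prod (D j) = D' j ∧
      (s.map fun i => swap (D i) (D' i)).prod (D' j) = D j) ∧
    (∀ j, j ∉ s → (s.map fun i => swap (D i) (D' i)).prod (D j) = D j ∧
      (s.map fun i => swap (D i) (D' i)).prod (D' j) = D' j) ∧
    (∀ x, (∀ j, x ≠ D j) → (∀ j, x ≠ D' j) →
      (s.map fun i => swap (D i) (D' i)).prod x = x) := by
  induction s with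
  | nil =>
    refine ⟨fun j hj => ?_, fun j _ => ⟨rfl, rfl⟩, fun x _ _ => rfl⟩
    simp at hj
  | cons a s ih =>
    rw [List.nodup_cons] at hs
    obtain ⟨ih1, ih2, ih3⟩ := ih hs.2
    rw [List.map_cons, List.prod_cons]
    refine ⟨fun j hj => ?_, fun j hj => ?_, fun x hx hx' => ?_⟩
    · rw [Perm.mul_apply, Perm.mul_apply]
      rcases eq_or_ne j a with rfl | hja
      · rw [(ih2 j hs.1).1, (ih2 j hs.1).2, swap_apply_left, swap_apply_right]
        exact ⟨rfl, rfl⟩
      · have hjs : j ∈ s := (List.mem_cons.mp hj).resolve_left hja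
        rw [(ih1 j hjs).1, (ih1 j hjs).2]
        refine ⟨swap_apply_of_ne_of_ne (hd a j).symm fun h => hja (D'.injective h),
          swap_apply_of_ne_of_ne (fun h => hja (D.injective h)) (hd j a)⟩
    · rw [Perm.mul_apply, Perm.mul_apply]
      have hja : j ≠ a := fun h => hj (List.mem_cons.mpr (Or.inl h))
      have hjs : j ∉ s := fun h => hj (List.mem_cons.mpr (Or.inr h))
      rw [(ih2 j hjs).1, (ih2 j hjs).2]
      refine ⟨swap_apply_of_ne_of_ne (fun h => hja (D.injective h)) (hd j a),
        swap_apply_of_ne_of_ne (hd a j).symm fun h => hja (D'.injective h)⟩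
    · rw [Perm.mul_apply, ih3 x hx hx', swap_apply_of_ne_of_ne (hx a) (hx' a)]

/-- The exchange of two blocks is a permutation. -/
theorem c2_flip (D D' : Fin (m + 1) ↪ ι) (hd : ∀ i j, D i ≠ D' j) :
    ∃ F : Perm ι, flipB D D' = g F ∧ (∀ j, F (D j) = D' j ∧ F (D' j) = D j) ∧
      ∀ x, (∀ j, x ≠ D j) → (∀ j, x ≠ D' j) → F x = x := by
  refine ⟨((List.finRange (m + 1)).map fun i => swap (D i) (D' i)).prod, ?_, ?_, ?_⟩
  · unfold flipB g
    rw [map_list_prod, List.map_map]
    rfl
  · intro j
    exact (c2_list D D' hd _ (List.nodup_finRange _)).1 j (List.mem_finRange j)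
  · exact (c2_list D D' hd _ (List.nodup_finRange _)).2.2

/-- ROW C4: two determinants. -/
theorem two_det (hm : k + l = m + 1) (D D' : Fin (m + 1) ↪ ι) (hd : ∀ i j, D i ≠ D' j) :
    pf O k l ι (flipB D D' * (emb D (As (Fin (m + 1))) * emb D' (As (Fin (m + 1))))) =
      pf O k l ι (emb D (As (Fin (m + 1))) * emb D' (As (Fin (m + 1)))) := by
  obtain ⟨F, hF, hF1, hF2⟩ := c2_flip D D' hd
  have hcomm : emb D (As (Fin (m + 1))) * emb D' (As (Fin (m + 1))) =
      emb D' (As (Fin (m + 1))) * emb D (As (Fin (m + 1))) :=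
    H4.commute_emb_emb D D' hd _ _
  refine LinearMap.ext fun f => ?_
  funext w
  obtain ⟨A, hA⟩ : ∃ A : W O k l ι, A =
      pf O k l ι (emb D (As (Fin (m + 1))) * emb D' (As (Fin (m + 1)))) f := ⟨_, rfl⟩
  have hA1 : A = pf O k l ι (emb D (As (Fin (m + 1)))) (pf O k l ι (emb D' (As (Fin (m + 1)))) f) := by
    rw [hA]; exact c1_pa_mul _ _ _
  have hA2 : A = pf O k l ι (emb D' (As (Fin (m + 1)))) (pf O k l ι (emb D (As (Fin (m + 1)))) f) := by
    rw [hA, hcomm]; exact c1_pa_mul _ _ _
  have hlhs : pf O k l ι (flipB D D' * (emb D (As (Fin (m + 1))) * emb D' (As (Fin (m + 1))))) f w =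
      A (w ∘ F) := by
    rw [hF, c1_pa_mul, ← hA]
    exact pa_g O (Lt k l) _ _ _
  rw [hlhs, ← hA]
  -- zero criteria
  have hz1 : ∀ v : ι → Lt k l, ¬ Function.Injective (v ∘ D) → A v = 0 := by
    intro v hv
    unfold Function.Injective at hv
    push Not at hv
    obtain ⟨x, y, hxy, hne⟩ := hv
    rw [hA1]
    exact c1_pa_As_zero D _ v hne hxy
  have hz2 : ∀ v : ι → Lt k l, ¬ Function.Injective (v ∘ D') → A v = 0 := by
    intro v hv
    unfold Function.Injective at hv
    push Not at hv
    obtain ⟨x, y, hxy, hne⟩ := hv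
    rw [hA2]
    exact c1_pa_As_zero D' _ v hne hxy
  have hFD : (w ∘ F) ∘ D = w ∘ D' := by
    funext j
    change w (F (D j)) = w (D' j)
    rw [(hF1 j).1]
  have hFD' : (w ∘ F) ∘ D' = w ∘ D := by
    funext j
    change w (F (D' j)) = w (D j)
    rw [(hF1 j).2]
  by_cases h1 : Function.Injective (w ∘ D)
  · by_cases h2 : Function.Injective (w ∘ D')
    · have hc : Fintype.card (Fin (m + 1)) = Fintype.card (Lt k l) := by
        rw [Fintype.card_sum, Fintype.card_fin, Fintype.card_fin, Fintype.card_fin, hm]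
      have b1 : Function.Bijective (w ∘ D) :=
        (Fintype.bijective_iff_injective_and_card _).mpr ⟨h1, hc⟩
      have b2 : Function.Bijective (w ∘ D') :=
        (Fintype.bijective_iff_injective_and_card _).mpr ⟨h2, hc⟩
      obtain ⟨π, hπ⟩ : ∃ π : Perm (Fin (m + 1)), ∀ i, w (D (π i)) = w (D' i) := by
        refine ⟨(Equiv.ofBijective _ b2).trans (Equiv.ofBijective _ b1).symm, fun i => ?_⟩
        exact Equiv.ofBijective_apply_symm_apply (w ∘ D) b1 (w (D' i))
      have hw : w ∘ F = (w ∘ π.viaEmbedding D) ∘ (π⁻¹).viaEmbedding D' := by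
        have e1 : ∀ i, D i ∉ Set.range D' := fun i ⟨j, hj⟩ => hd i j hj.symm
        have e2 : ∀ i, D' i ∉ Set.range D := fun i ⟨j, hj⟩ => hd j i hj
        funext x
        change w (F x) = w (π.viaEmbedding D ((π⁻¹).viaEmbedding D' x))
        by_cases hx : x ∈ Set.range D
        · obtain ⟨i, rfl⟩ := hx
          rw [(hF1 i).1, Perm.viaEmbedding_apply_of_notMem _ _ _ (e1 i), Perm.viaEmbedding_apply,
            hπ i]
        · by_cases hx' : x ∈ Set.range D'
          · obtain ⟨i, rfl⟩ := hx'
            have e3 : π (π⁻¹ i) = i := by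
              rw [← Perm.mul_apply, mul_inv_cancel, Perm.one_apply]
            rw [(hF1 i).2, Perm.viaEmbedding_apply, Perm.viaEmbedding_apply_of_notMem _ _ _ (e2 _),
              ← hπ, e3]
          · rw [Perm.viaEmbedding_apply_of_notMem _ _ _ hx', Perm.viaEmbedding_apply_of_notMem _ _ _ hx,
              hF2 x (fun j h => hx ⟨j, h.symm⟩) (fun j h => hx' ⟨j, h.symm⟩)]
      have s1 : A ((w ∘ π.viaEmbedding D) ∘ (π⁻¹).viaEmbedding D') =
          (Perm.sign π⁻¹ : ℤ) • A (w ∘ π.viaEmbedding D) := by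
        rw [hA2]
        exact c1_pa_emb_g_As D' π⁻¹ _ _
      have s2 : A (w ∘ π.viaEmbedding D) = (Perm.sign π : ℤ) • A w := by
        rw [hA1]
        exact c1_pa_emb_g_As D π _ _
      rw [hw, s1, s2, smul_smul, Perm.sign_inv, ← Units.val_mul, Int.units_mul_self, Units.val_one,
        one_smul]
    · rw [hz2 w h2, hz1 _ (by rw [hFD]; exact h2)]
  · rw [hz1 w h1, hz2 _ (by rw [hFD']; exact h1)]

end C

end Pool.PI34.EX

end

/-! ### part EX_K2 -/
section

/-!
PI34, block EX (p = 2), rows K3, K4a, K5: embeddings, blocks, products of elements which do not kill the words.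
-/

set_option autoImplicit false
set_option linter.unusedSectionVars false
set_option linter.unusedDecidableInType false
set_option linter.unusedFintypeInType false

namespace Pool.PI34.EX

open Equiv Finset
open Pool.PI34.Super (Lt odd pv prs)
open Pool.PI34.SK (W comp ins)
open Pool.PI34.H4 (P g emb As AK)

section K

variable {L L' : Type} [Fintype L] [DecidableEq L] [Fintype L'] [DecidableEq L']
variable {α β : Type} [Fintype α] [DecidableEq α] [Fintype β] [DecidableEq β]

/-- The plain action of an embedded element. -/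
theorem pa_emb {R : Type} [CommRing R] (e : α ↪ β) (y : P α) (F : (β → L) → R) (u : β → L) :
    pa R L β (emb e y) F u =
      pa R L α y (fun v => F (Function.extend e v u)) (u ∘ e) := by
  induction y using MonoidAlgebra.induction_on with
  | of σ =>
    have h1 : pa R L α (MonoidAlgebra.of ℤ (Perm α) σ) (fun v => F (Function.extend e v u))
        (u ∘ e) = F (Function.extend e ((u ∘ e) ∘ σ) u) := pa_g R L σ _ _
    have h2 : emb e (MonoidAlgebra.of ℤ (Perm α) σ) = g (σ.viaEmbedding e) := H4.emb_g e σ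
    rw [h1, h2, pa_g]
    congr 1
    funext x
    by_cases hx : ∃ a, e a = x
    · obtain ⟨a, rfl⟩ := hx
      rw [e.injective.extend_apply]
      simp [Equiv.Perm.viaEmbedding_apply]
    · rw [Function.extend_apply' _ _ _ hx, Function.comp_apply,
        Equiv.Perm.viaEmbedding_apply_of_notMem]
      rintro ⟨a, ha⟩
      exact hx ⟨a, ha⟩
  | add x y hx hy =>
    rw [map_add, map_add, map_add, LinearMap.add_apply, LinearMap.add_apply, Pi.add_apply,
      Pi.add_apply, hx, hy]
  | smul r x hx =>
    rw [H4.emb_zsmul, map_zsmul, map_zsmul, LinearMap.smul_apply, LinearMap.smul_apply,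
      Pi.smul_apply, Pi.smul_apply, hx]

/-- ROW K3. -/
theorem kill_emb (e : α ↪ β) {y : P α} (hy : Kill L y) : Kill L (emb e y) := by
  refine LinearMap.ext fun F => funext fun u => ?_
  rw [pa_emb, show pa ℤ L α y = 0 from hy]
  rfl

/-- The plain action of a block element. -/
theorem pa_bl {R : Type} [CommRing R] (m : ℕ) (y : P α) (F : (α × Fin m → L) → R)
    (u : α × Fin m → L) :
    pa R L (α × Fin m) (bl m y) F u =
      pa R (Fin m → L) α y (fun v => F (Function.uncurry v)) (Function.curry u) := by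
  induction y using MonoidAlgebra.induction_on with
  | of σ =>
    have h1 : pa R (Fin m → L) α (MonoidAlgebra.of ℤ (Perm α) σ) (fun v => F (Function.uncurry v))
        (Function.curry u) = F (Function.uncurry (Function.curry u ∘ σ)) := pa_g R _ σ _ _
    have h2 : bl m (MonoidAlgebra.of ℤ (Perm α) σ) = g (blHom m α σ) := by
      simp [bl, MonoidAlgebra.of_apply, H4.g]
    rw [h1, h2, pa_g]
    rfl
  | add x y hx hy =>
    rw [map_add, map_add, map_add, LinearMap.add_apply, LinearMap.add_apply, Pi.add_apply,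
      Pi.add_apply, hx, hy]
  | smul r x hx =>
    rw [map_zsmul (bl m), map_zsmul, map_zsmul, LinearMap.smul_apply, LinearMap.smul_apply,
      Pi.smul_apply, Pi.smul_apply, hx]

/-- ROW K4a. -/
theorem kill_bl (m : ℕ) {y : P α} : Kill L (bl m y) ↔ Kill (Fin m → L) y := by
  constructor
  · intro h
    refine LinearMap.ext fun F => funext fun u => ?_
    have h1 := pa_bl (R := ℤ) (L := L) m y (fun w => F (Function.curry w)) (Function.uncurry u)
    rw [show pa ℤ L (α × Fin m) (bl m y) = 0 from h] at h1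
    exact h1.symm
  · intro h
    refine LinearMap.ext fun F => funext fun u => ?_
    rw [pa_bl, show pa ℤ (Fin m → L) α y = 0 from h]
    rfl

/-- An element which does not kill the words is nonzero on some function at some word. -/
theorem exists_of_not_kill {y : P α} (h : ¬ Kill L y) :
    ∃ (f : (α → L) → ℤ) (w : α → L), pa ℤ L α y f w ≠ 0 := by
  by_contra hc
  push Not at hc
  exact h (LinearMap.ext fun f => funext fun w => hc f w)

/-- ROW K5. -/
theorem kill_mul [Nonempty L] {α' : Type} [Fintype α'] [DecidableEq α'] (e : α ↪ β)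
    (e' : α' ↪ β) (hd : ∀ x y, e x ≠ e' y) {y : P α} {y' : P α'} (h : ¬ Kill L y)
    (h' : ¬ Kill L y') :
    ¬ Kill L (emb e y * emb e' y') := by
  obtain ⟨f, w, hf⟩ := exists_of_not_kill h
  obtain ⟨f', w', hf'⟩ := exists_of_not_kill h'
  intro hk
  obtain ⟨c⟩ := ‹Nonempty L›
  have hE : ∀ (v : α' → L) (u : β → L), Function.extend e' v u ∘ e = u ∘ e := by
    intro v u
    funext x
    rw [Function.comp_apply, Function.comp_apply, Function.extend_apply']
    rintro ⟨a, ha⟩
    exact hd x a ha.symm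
  have hE' : ∀ (v : α' → L) (u : β → L), Function.extend e' v u ∘ e' = v := by
    intro v u
    funext x
    rw [Function.comp_apply, e'.injective.extend_apply]
  have hF : ∀ (v : α → L) (u : β → L), Function.extend e v u ∘ e' = u ∘ e' := by
    intro v u
    funext x
    rw [Function.comp_apply, Function.comp_apply, Function.extend_apply']
    rintro ⟨a, ha⟩
    exact hd a x ha
  have hF' : ∀ (v : α → L) (u : β → L), Function.extend e v u ∘ e = v := by
    intro v u
    funext x
    rw [Function.comp_apply, e.injective.extend_apply]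
  have h1 : ∀ u : β → L, pa ℤ L β (emb e' y') (fun u => f (u ∘ e) * f' (u ∘ e')) u =
      f (u ∘ e) * pa ℤ L α' y' f' (u ∘ e') := by
    intro u
    rw [pa_emb]
    have h2 : (fun v : α' → L => f (Function.extend e' v u ∘ e) *
        f' (Function.extend e' v u ∘ e')) = f (u ∘ e) • f' := by
      funext v
      rw [hE, hE']
      rfl
    change pa ℤ L α' y' (fun v : α' → L => f (Function.extend e' v u ∘ e) *
        f' (Function.extend e' v u ∘ e')) (u ∘ e') = _
    rw [h2, map_smul]
    rfl
  have h3 : pa ℤ L β (emb e' y') (fun u => f (u ∘ e) * f' (u ∘ e')) =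
      fun u => f (u ∘ e) * pa ℤ L α' y' f' (u ∘ e') := funext h1
  have h4 : ∀ u : β → L, pa ℤ L β (emb e y * emb e' y') (fun u => f (u ∘ e) * f' (u ∘ e')) u =
      pa ℤ L α y f (u ∘ e) * pa ℤ L α' y' f' (u ∘ e') := by
    intro u
    rw [map_mul]
    change pa ℤ L β (emb e y) (pa ℤ L β (emb e' y') (fun u => f (u ∘ e) * f' (u ∘ e'))) u = _
    rw [h3, pa_emb]
    have h5 : (fun v : α → L => f (Function.extend e v u ∘ e) *
        pa ℤ L α' y' f' (Function.extend e v u ∘ e')) = pa ℤ L α' y' f' (u ∘ e') • f := by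
      funext v
      rw [hF, hF']
      exact mul_comm _ _
    change pa ℤ L α y (fun v : α → L => f (Function.extend e v u ∘ e) *
        pa ℤ L α' y' f' (Function.extend e v u ∘ e')) (u ∘ e) = _
    rw [h5, map_smul]
    exact mul_comm _ _
  have h6 := h4 (Function.extend e w (Function.extend e' w' (fun _ => c)))
  rw [hF', hF, hE', show pa ℤ L β (emb e y * emb e' y') = 0 from hk] at h6
  exact mul_ne_zero hf hf' h6.symm

end K

end Pool.PI34.EX

end

/-! ### part EX_R1 -/
section

/-!
PI34, block EX, group R1: rows R1, A3, R4.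
-/

set_option autoImplicit false
set_option linter.unusedSectionVars false
set_option linter.unusedDecidableInType false
set_option linter.unusedFintypeInType false

namespace Pool.PI34.EX

open Equiv Finset
open Pool.PI34.Super (Lt odd pv prs)
open Pool.PI34.SK (W comp ins)
open Pool.PI34.H4 (P g emb As AK)


section R

variable {O : Type} [CommRing O] {k l m : ℕ} {ι : Type} [Fintype ι] [LinearOrder ι] {r : O}
variable {V : VD (m + 1)} {Wd : WD ((m + 1) ^ (m + 1))}

/-- ROW R1. -/
theorem AS_erase {s : Finset (Fin (JJ m + 1))} {a : Fin (JJ m + 1)} (ha : a ∈ s) :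
    (AS s : P (I0 m V Wd)) = emb (D a) (As (Fin (m + 1))) * AS (s.erase a) := by
  have h1 : (s.map Function.Embedding.some : Finset (Option (Fin (JJ m + 1)))) =
      insert (some a) ((s.erase a).map Function.Embedding.some) := by
    rw [← Finset.insert_erase ha, Finset.map_insert, Finset.erase_insert (Finset.notMem_erase a s)]
    rfl
  have h2 : (some a : Option (Fin (JJ m + 1))) ∉ (s.erase a).map Function.Embedding.some := by
    simp
  unfold AS
  rw [h1, H4.AK_insert _ _ _ h2]
  congr 1
  refine H4.AK_single col (some a) (D a) ?_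
  ext x
  simp only [Set.mem_range, Set.mem_ofPred_eq]
  constructor
  · rintro ⟨i, rfl⟩
    rfl
  · intro hx
    rcases x with ⟨y, i⟩ | x
    · rcases y with y | y
      · simp [col] at hx
      · have h3 : y = a := by
          simpa [col] using hx
        subst h3
        exact ⟨i, rfl⟩
    · simp [col] at hx

theorem map_eq_of_fix {β : Type} (σ : Perm β) (S : Finset β) (h : ∀ x ∈ S, σ x = x) :
    S.map σ.toEmbedding = S := by
  classical
  refine Finset.eq_of_subset_of_card_le ?_ (by rw [Finset.card_map])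
  intro y hy
  rw [Finset.mem_map] at hy
  obtain ⟨x, hx, rfl⟩ := hy
  have h1 : σ.toEmbedding x = x := h x hx
  rw [h1]
  exact hx

/-- ROW A3. -/
theorem sf_ds_comm (e : I0 m V Wd ↪ ι) (y : P (I0 m V Wd)) (S : Finset ι) (hS : ∀ x, e x ∉ S) :
    Commute (sf O k l ι (emb e y)) (ds r S) := by
  refine H4.P_induction (p := fun y => Commute (sf O k l ι (emb e y)) (ds r S)) y ?_ ?_ ?_
  · intro σ
    rw [H4.emb_g]
    unfold Commute SemiconjBy
    rw [sf_ds, map_eq_of_fix]
    intro x hx
    refine Perm.viaEmbedding_apply_of_notMem _ _ _ ?_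
    rintro ⟨z, rfl⟩
    exact hS z hx
  · intro a b ha hb
    rw [map_add, map_add]
    exact Commute.add_left ha hb
  · intro n a ha
    rw [H4.emb_zsmul, map_zsmul]
    exact Commute.smul_left ha n


theorem p0_inj {a b : Fin (JJ m + 1)} (h : (p0 a : I0 m V Wd) = p0 b) : a = b := by
  have h1 := congrArg Prod.fst (Sum.inl_injective h)
  exact Sum.inr_injective h1

theorem bl_g {α : Type} (n : ℕ) (σ : Perm α) : bl n (g σ) = g (blHom n α σ) := by
  simp [bl, g, MonoidAlgebra.of_apply]

theorem ba_g (a : Fin (JJ m)) : (ba a : P (I0 m V Wd)) =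
    g ((blHom (m + 1) _ (swap (Sum.inr a.castSucc) (Sum.inr a.succ))).viaEmbedding
      Function.Embedding.inl) := by
  unfold ba bw
  rw [bl_g, H4.emb_g]

theorem ba_p0 (a : Fin (JJ m)) (c : Fin (JJ m + 1)) :
    ((blHom (m + 1) (Wd.Y ⊕ Fin (JJ m + 1))
      (swap (Sum.inr a.castSucc) (Sum.inr a.succ))).viaEmbedding
      Function.Embedding.inl : Perm (I0 m V Wd)) (p0 c) = p0 (swap a.castSucc a.succ c) := by
  have h0 : (p0 c : I0 m V Wd) = Function.Embedding.inl (Sum.inr c, 0) := rfl
  rw [h0, Perm.viaEmbedding_apply]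
  have h1 : (blHom (m + 1) (Wd.Y ⊕ Fin (JJ m + 1))
      (swap (Sum.inr a.castSucc) (Sum.inr a.succ))) (Sum.inr c, (0 : Fin (m + 1))) =
      (swap (Sum.inr a.castSucc) (Sum.inr a.succ) (Sum.inr c), 0) := rfl
  rw [h1]
  have h2 : swap (Sum.inr a.castSucc : Wd.Y ⊕ Fin (JJ m + 1)) (Sum.inr a.succ) (Sum.inr c) =
      Sum.inr (swap a.castSucc a.succ c) :=
    (Function.Injective.swap_apply Sum.inr_injective a.castSucc a.succ c)
  rw [h2]
  rfl

theorem via_fix_map (e : I0 m V Wd ↪ ι) (σ : Perm (I0 m V Wd)) (s : Finset (Fin (JJ m + 1)))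
    (h : ∀ c ∈ s, σ (p0 c) = p0 c) :
    Commute (pf O k l ι (emb e (g σ))) (ds r ((P0 s).map e)) := by
  rw [H4.emb_g]
  unfold Commute SemiconjBy
  rw [pf_ds, map_eq_of_fix]
  intro x hx
  rw [Finset.mem_map] at hx
  obtain ⟨z, hz, rfl⟩ := hx
  rw [Perm.viaEmbedding_apply]
  unfold P0 at hz
  rw [Finset.mem_map] at hz
  obtain ⟨c, hc, rfl⟩ := hz
  congr 1
  exact h c hc

/-- ROW R4: `f` and `τ` commute with the other `δ`, `τ` commutes with all. -/
theorem tau_ds (e : I0 m V Wd ↪ ι) (a : Fin (JJ m)) (s : Finset (Fin (JJ m + 1))) :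
    Commute (pf O k l ι (emb e (tau a))) (ds r ((P0 s).map e)) ∧
      (a.castSucc ∉ s → a.succ ∉ s →
        Commute (pf O k l ι (emb e (fa a))) (ds r ((P0 s).map e))) := by
  constructor
  · have h1 : (tau a : P (I0 m V Wd)) = g (swap (p0 a.castSucc) (p0 a.succ) *
        (blHom (m + 1) _ (swap (Sum.inr a.castSucc) (Sum.inr a.succ))).viaEmbedding
          Function.Embedding.inl) := by
      unfold tau fa
      rw [ba_g, H4.g_mul]
    rw [h1]
    refine via_fix_map e _ s ?_
    intro c _
    rw [Perm.mul_apply, ba_p0]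
    have h2 : Function.Injective (p0 : Fin (JJ m + 1) → I0 m V Wd) := fun x y h => p0_inj h
    rw [h2.swap_apply, swap_apply_self]
  · intro h1 h2
    unfold fa
    refine via_fix_map e _ s ?_
    intro c hc
    rw [swap_apply_of_ne_of_ne]
    · intro h
      rw [p0_inj h] at hc
      exact h1 hc
    · intro h
      rw [p0_inj h] at hc
      exact h2 hc

end R

end Pool.PI34.EX

end

/-! ### part EX_R6 -/
section

set_option autoImplicit false
set_option linter.unusedSectionVars false
set_option linter.unusedDecidableInType false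
set_option linter.unusedFintypeInType false

namespace Pool.PI34.EX

open Equiv Finset
open Pool.PI34.Super (Lt odd pv prs)
open Pool.PI34.SK (W comp ins)
open Pool.PI34.H4 (P g emb As AK)


section R

variable {O : Type} [CommRing O] {k l m : ℕ} {ι : Type} [Fintype ι] [LinearOrder ι] {r : O}
variable {V : VD (m + 1)} {Wd : WD ((m + 1) ^ (m + 1))}

theorem pf_kill2 (hr : r * r = 2) (z z' : P ι) (h : Kill (Lt k l) (z - 2 * z')) :
    ∃ x ∈ FR k l ι r 0, pf O k l ι z = r • x := by
  have h1 := pa_zero (R := O) h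
  rw [map_sub, map_mul, map_ofNat, sub_eq_zero] at h1
  refine ⟨r • pf O k l ι z', Submodule.smul_mem _ _ (pf_mem z'), ?_⟩
  rw [smul_smul, hr]
  refine h1.trans ?_
  rw [two_mul, two_smul]

/-- ROW R6: congruences modulo `2` become multiples of `r`. -/
theorem pf_K2 (hr : r * r = 2) (hm : k + l = m + 1) {α : Type} [Fintype α] [DecidableEq α]
    (e : α ↪ ι) {y : P α} (hy : K2 (Fin (m + 1)) y) :
    ∃ x ∈ FR k l ι r 0, pf O k l ι (emb e y) = r • x := by
  obtain ⟨y', hy'⟩ := hy
  have hc : Fintype.card (Lt k l) ≤ Fintype.card (Fin (m + 1)) := by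
    simp [hm]
  have h1 : Kill (Lt k l) (emb e (y - 2 * y')) := kill_emb e (kill_card hc hy')
  rw [map_sub, map_mul, map_ofNat] at h1
  exact pf_kill2 hr _ _ h1

/-- ROW R7. -/
theorem pf_bw_K2 (hr : r * r = 2) (hm : k + l = m + 1) (e : I0 m V Wd ↪ ι)
    {y : P (Wd.Y ⊕ Fin (JJ m + 1))} (hy : K2 (Fin ((m + 1) ^ (m + 1))) y) :
    ∃ x ∈ FR k l ι r 0, pf O k l ι (emb e (bw y)) = r • x := by
  obtain ⟨y', hy'⟩ := hy
  have hc : Fintype.card (Fin (m + 1) → Lt k l) ≤ Fintype.card (Fin ((m + 1) ^ (m + 1))) := by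
    simp [hm]
  have h0 : Kill (Lt k l) (bl (m + 1) (y - 2 * y')) := (kill_bl (m + 1)).2 (kill_card hc hy')
  have h1 : Kill (Lt k l) (emb e (emb (Function.Embedding.inl :
      ((Wd.Y ⊕ Fin (JJ m + 1)) × Fin (m + 1)) ↪ I0 m V Wd) (bl (m + 1) (y - 2 * y')))) :=
    kill_emb e (kill_emb _ h0)
  rw [map_sub, map_mul, map_ofNat, map_sub, map_mul, map_ofNat, map_sub, map_mul, map_ofNat] at h1
  exact pf_kill2 hr _ _ h1

end R

end Pool.PI34.EX

end

/-! ### part EX_R2 -/
section

/-!
PI34, block EX, group R2: rows R2, R3.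
-/

set_option autoImplicit false
set_option linter.unusedSectionVars false
set_option linter.unusedDecidableInType false
set_option linter.unusedFintypeInType false

namespace Pool.PI34.EX

open Equiv Finset
open Pool.PI34.Super (Lt odd pv prs)
open Pool.PI34.SK (W comp ins)
open Pool.PI34.H4 (P g emb As AK)


section R

variable {O : Type} [CommRing O] {k l m : ℕ} {ι : Type} [Fintype ι] [LinearOrder ι] {r : O}
variable {V : VD (m + 1)} {Wd : WD ((m + 1) ^ (m + 1))}


section flip

variable {n : ℕ} (D1 D2 : Fin n ↪ ι) (hd : ∀ i j, D1 i ≠ D2 j)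

include hd in
theorem flip_left (L : List (Fin n)) (hL : L.Nodup) (j : Fin n) :
    (L.map fun i => swap (D1 i) (D2 i)).prod (D1 j) = if j ∈ L then D2 j else D1 j := by
  induction L with
  | nil => simp
  | cons a L ih =>
    rw [List.nodup_cons] at hL
    rw [List.map_cons, List.prod_cons, Perm.mul_apply, ih hL.2]
    by_cases hj : j ∈ L
    · rw [if_pos hj, if_pos (List.mem_cons_of_mem _ hj)]
      have hja : j ≠ a := fun h => hL.1 (h ▸ hj)
      rw [swap_apply_of_ne_of_ne]
      · exact fun h => hd a j h.symm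
      · exact fun h => hja (D2.injective h)
    · rw [if_neg hj]
      by_cases hja : j = a
      · subst hja
        rw [swap_apply_left, if_pos List.mem_cons_self]
      · rw [if_neg (by rw [List.mem_cons]; tauto), swap_apply_of_ne_of_ne]
        · exact fun h => hja (D1.injective h)
        · exact hd j a

include hd in
theorem flip_right (L : List (Fin n)) (hL : L.Nodup) (j : Fin n) :
    (L.map fun i => swap (D1 i) (D2 i)).prod (D2 j) = if j ∈ L then D1 j else D2 j := by
  have h1 : (fun i => swap (D1 i) (D2 i)) = fun i => swap (D2 i) (D1 i) := by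
    funext i
    exact swap_comm _ _
  rw [h1]
  exact flip_left D2 D1 (fun i j h => hd j i h.symm) L hL j

theorem flip_ne (L : List (Fin n)) (x : ι) (h1 : ∀ i, x ≠ D1 i) (h2 : ∀ i, x ≠ D2 i) :
    (L.map fun i => swap (D1 i) (D2 i)).prod x = x := by
  induction L with
  | nil => simp
  | cons a L ih =>
    rw [List.map_cons, List.prod_cons, Perm.mul_apply, ih, swap_apply_of_ne_of_ne (h1 a) (h2 a)]

end flip

theorem flipB_g (D1 D2 : Fin (m + 1) ↪ ι) :
    flipB D1 D2 = g ((List.finRange (m + 1)).map fun i => swap (D1 i) (D2 i)).prod := by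
  unfold flipB
  have h : ∀ L : List (Fin (m + 1)), (L.map fun i => (g (swap (D1 i) (D2 i)) : P ι)).prod =
      g (L.map fun i => swap (D1 i) (D2 i)).prod := by
    intro L
    induction L with
    | nil =>
      rw [List.map_nil, List.map_nil, List.prod_nil, List.prod_nil]
      exact (map_one (MonoidAlgebra.of ℤ (Perm ι))).symm
    | cons a L ih =>
      rw [List.map_cons, List.map_cons, List.prod_cons, List.prod_cons, ih, H4.g_mul]
  exact h _

theorem ba_apply (a : Fin (JJ m)) (y : Wd.Y ⊕ Fin (JJ m + 1)) (i : Fin (m + 1)) :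
    ((blHom (m + 1) (Wd.Y ⊕ Fin (JJ m + 1))
      (swap (Sum.inr a.castSucc) (Sum.inr a.succ))).viaEmbedding
      Function.Embedding.inl : Perm (I0 m V Wd)) (Sum.inl (y, i)) =
        Sum.inl (swap (Sum.inr a.castSucc) (Sum.inr a.succ) y, i) :=
  Perm.viaEmbedding_apply _ (Function.Embedding.inl : _ ↪ I0 m V Wd) (y, i)

theorem ba_apply_inr (a : Fin (JJ m)) (x : V.X) :
    ((blHom (m + 1) (Wd.Y ⊕ Fin (JJ m + 1))
      (swap (Sum.inr a.castSucc) (Sum.inr a.succ))).viaEmbedding
      Function.Embedding.inl : Perm (I0 m V Wd)) (Sum.inr x) = Sum.inr x := by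
  refine Perm.viaEmbedding_apply_of_notMem _ _ _ ?_
  rintro ⟨z, hz⟩
  cases hz

theorem emb_ba (e : I0 m V Wd ↪ ι) (a : Fin (JJ m)) :
    emb e (ba a) = flipB ((D a.castSucc).trans e) ((D a.succ).trans e) := by
  have hne : a.castSucc ≠ a.succ := Fin.castSucc_lt_succ.ne
  have hDD : ∀ c c' : Fin (JJ m + 1), c ≠ c' → ∀ i j,
      ((D c).trans e : Fin (m + 1) ↪ ι) i ≠ ((D c').trans e) j := by
    intro c c' hc i j h
    have h1 : (D c i : I0 m V Wd) = D c' j := e.injective h
    have h2 := congrArg Prod.fst (Sum.inl_injective h1)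
    exact hc (Sum.inr_injective h2)
  have hd := hDD _ _ hne
  rw [ba_g, H4.emb_g, flipB_g]
  congr 1
  ext x
  by_cases hx : x ∈ Set.range e
  · obtain ⟨z, rfl⟩ := hx
    rw [Perm.viaEmbedding_apply]
    rcases z with ⟨y, i⟩ | z
    · rw [ba_apply]
      rcases y with y | c
      · rw [swap_apply_of_ne_of_ne Sum.inl_ne_inr Sum.inl_ne_inr, flip_ne]
        · intro j h
          have h1 : (Sum.inl (Sum.inl y, i) : I0 m V Wd) = D a.castSucc j := e.injective h
          have h2 := congrArg Prod.fst (Sum.inl_injective h1)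
          exact Sum.inl_ne_inr h2
        · intro j h
          have h1 : (Sum.inl (Sum.inl y, i) : I0 m V Wd) = D a.succ j := e.injective h
          have h2 := congrArg Prod.fst (Sum.inl_injective h1)
          exact Sum.inl_ne_inr h2
      · have h2 : swap (Sum.inr a.castSucc : Wd.Y ⊕ Fin (JJ m + 1)) (Sum.inr a.succ) (Sum.inr c) =
            Sum.inr (swap a.castSucc a.succ c) :=
          (Function.Injective.swap_apply Sum.inr_injective a.castSucc a.succ c)
        rw [h2]
        by_cases hc : c = a.castSucc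
        · subst hc
          rw [swap_apply_left]
          have h3 : e (Sum.inl (Sum.inr a.castSucc, i)) = ((D a.castSucc).trans e) i := rfl
          rw [h3, flip_left _ _ hd _ (List.nodup_finRange _), if_pos (List.mem_finRange i)]
          rfl
        · by_cases hc' : c = a.succ
          · subst hc'
            rw [swap_apply_right]
            have h3 : e (Sum.inl (Sum.inr a.succ, i)) = ((D a.succ).trans e) i := rfl
            rw [h3, flip_right _ _ hd _ (List.nodup_finRange _), if_pos (List.mem_finRange i)]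
            rfl
          · rw [swap_apply_of_ne_of_ne hc hc', flip_ne]
            · exact fun j => hDD c _ hc i j
            · exact fun j => hDD c _ hc' i j
    · rw [ba_apply_inr, flip_ne]
      · intro j h
        have h1 : (Sum.inr z : I0 m V Wd) = D a.castSucc j := e.injective h
        exact Sum.inr_ne_inl h1
      · intro j h
        have h1 : (Sum.inr z : I0 m V Wd) = D a.succ j := e.injective h
        exact Sum.inr_ne_inl h1
  · rw [Perm.viaEmbedding_apply_of_notMem _ _ _ hx, flip_ne]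
    · rintro j rfl
      exact hx ⟨_, rfl⟩
    · rintro j rfl
      exact hx ⟨_, rfl⟩

/-- ROW R2. -/
theorem ba_AS (hm : k + l = m + 1) (e : I0 m V Wd ↪ ι) (a : Fin (JJ m)) :
    pf O k l ι (emb e (ba a * AS univ)) = pf O k l ι (emb e (AS univ)) := by
  have hne : a.castSucc ≠ a.succ := Fin.castSucc_lt_succ.ne
  have h1 : (AS univ : P (I0 m V Wd)) = emb (D a.castSucc) (As (Fin (m + 1))) *
      emb (D a.succ) (As (Fin (m + 1))) * AS ((univ.erase a.castSucc).erase a.succ) := by
    rw [AS_erase (Finset.mem_univ a.castSucc), AS_erase (s := univ.erase a.castSucc) (a := a.succ)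
      (Finset.mem_erase.2 ⟨hne.symm, Finset.mem_univ _⟩), mul_assoc]
  have hd : ∀ i j, ((D a.castSucc).trans e : Fin (m + 1) ↪ ι) i ≠ ((D a.succ).trans e) j := by
    intro i j h
    have h1 : (D a.castSucc i : I0 m V Wd) = D a.succ j := e.injective h
    have h2 := congrArg Prod.fst (Sum.inl_injective h1)
    exact hne (Sum.inr_injective h2)
  have h2 := two_det (O := O) hm _ _ hd
  rw [h1]
  simp only [map_mul] at h2 ⊢
  rw [H4.emb_trans, H4.emb_trans, emb_ba, ← mul_assoc, h2]

/-- ROW R3. -/
theorem tau_comm (a : Fin (JJ m)) (y : P (V.X ⊕ Fin 2)) :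
    Commute (tau a) (emb (vE a) y : P (I0 m V Wd)) ∧ fa a * ba a = (ba a * fa a : P (I0 m V Wd)) ∧
      fa a * fa a = (1 : P (I0 m V Wd)) ∧ ba a * ba a = (1 : P (I0 m V Wd)) := by
  have hpi : Function.Injective (p0 : Fin (JJ m + 1) → I0 m V Wd) := fun x y h => p0_inj h
  refine ⟨?_, ?_, ?_, ?_⟩
  · refine (H4.commute_of_g (vE a) (fun σ => ?_) y).symm
    have h1 : (tau a : P (I0 m V Wd)) = g (swap (p0 a.castSucc) (p0 a.succ) *
        (blHom (m + 1) _ (swap (Sum.inr a.castSucc) (Sum.inr a.succ))).viaEmbedding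
          Function.Embedding.inl) := by
      unfold tau fa
      rw [ba_g, H4.g_mul]
    rw [h1]
    set t : Perm (I0 m V Wd) := swap (p0 a.castSucc) (p0 a.succ) *
        (blHom (m + 1) _ (swap (Sum.inr a.castSucc) (Sum.inr a.succ))).viaEmbedding
          Function.Embedding.inl with ht
    have hfp : ∀ c, t (p0 c) = p0 c := by
      intro c
      rw [ht, Perm.mul_apply, ba_p0, hpi.swap_apply, swap_apply_self]
    have hfix : ∀ z, t (vE a z) = vE a z := by
      intro z
      rcases z with x | i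
      · have h2 : (vE a (Sum.inl x) : I0 m V Wd) = Sum.inr x := rfl
        rw [h2, ht, Perm.mul_apply, ba_apply_inr, swap_apply_of_ne_of_ne]
        · exact Sum.inr_ne_inl
        · exact Sum.inr_ne_inl
      · fin_cases i
        · exact hfp a.castSucc
        · exact hfp a.succ
    clear_value t
    unfold Commute SemiconjBy
    rw [← H4.g_mul, ← H4.g_mul]
    congr 1
    ext z
    rw [Perm.mul_apply, Perm.mul_apply]
    by_cases hz : z ∈ Set.range (vE a : V.X ⊕ Fin 2 ↪ I0 m V Wd)
    · obtain ⟨x, rfl⟩ := hz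
      rw [hfix, Perm.viaEmbedding_apply, hfix]
    · rw [Perm.viaEmbedding_apply_of_notMem _ _ _ hz, Perm.viaEmbedding_apply_of_notMem]
      rintro ⟨x, hx⟩
      apply hz
      refine ⟨x, ?_⟩
      apply t.injective
      rw [hfix, hx]
  · unfold fa
    rw [ba_g, ← H4.g_mul, ← H4.g_mul, Equiv.mul_swap_eq_swap_mul, ba_p0, ba_p0, swap_apply_left,
      swap_apply_right, swap_comm (p0 a.succ)]
  · unfold fa
    rw [← H4.g_mul, swap_mul_self]
    exact map_one (MonoidAlgebra.of ℤ (Perm _))
  · unfold ba bw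
    rw [← map_mul, ← map_mul, ← H4.g_mul, swap_mul_self]
    have h1 : (g (1 : Perm (Wd.Y ⊕ Fin (JJ m + 1)))) = 1 := map_one (MonoidAlgebra.of ℤ (Perm _))
    rw [h1, map_one, map_one]

end R

end Pool.PI34.EX

end
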