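import Pool.Agent.LibPI54.M04
import Pool.Agent.LibPI54.M09

/-! ### part EX_T1 -/
section

/-!
PI34, block EX, rows T1, T2, T3a-d: the partial trace.
-/

set_option autoImplicit false
set_option linter.unusedSectionVars false
set_option linter.unusedDecidableInType false
set_option linter.unusedFintypeInType false

namespace Pool.PI34.EX

open Equiv Finset
open Pool.PI34.Super (Lt odd pv prs)
open Pool.PI34.SK (W comp ins)
open Pool.PI34.H4 (P g emb As AK)

section UT

variable {O : Type} [CommRing O] {k l : ℕ} {d : ℕ} {r : O}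

theorem Ptr_apply (φ : EW O k l (Fin (d + 1))) (f : W O k l (Fin d)) (w : Fin d → Lt k l) :
    Ptr O k l d φ f w = ∑ c : Lt k l, φ (ins c f) (Fin.cons c w) := by
  have h : Ptr O k l d φ f = ∑ c : Lt k l, comp c (φ (ins c f)) := by
    simp only [Ptr, LinearMap.coe_mk, AddHom.coe_mk, LinearMap.sum_apply, LinearMap.comp_apply]
  rw [h, Finset.sum_apply]
  rfl

theorem Ptr_apply' (φ : EW O k l (Fin (d + 1))) (f : W O k l (Fin d)) :
    Ptr O k l d φ f = ∑ c : Lt k l, comp c (φ (ins c f)) := by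
  simp only [Ptr, LinearMap.coe_mk, AddHom.coe_mk, LinearMap.sum_apply, LinearMap.comp_apply]

/-- ROW T1. -/
theorem Ptr_up_mul (y : EW O k l (Fin d)) (φ : EW O k l (Fin (d + 1))) :
    Ptr O k l d (up O k l d y * φ) = y * Ptr O k l d φ := by
  refine LinearMap.ext fun f => ?_
  rw [Module.End.mul_apply, Ptr_apply', Ptr_apply', map_sum]
  refine Finset.sum_congr rfl fun c _ => ?_
  funext w
  rw [SK.comp_apply, Module.End.mul_apply, up_apply, Fin.cons_zero, Fin.tail_cons]

/-- ROW T2. -/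
theorem Ptr_mul_up (y : EW O k l (Fin d)) (φ : EW O k l (Fin (d + 1))) :
    Ptr O k l d (φ * up O k l d y) = Ptr O k l d φ * y := by
  have h : ∀ (c : Lt k l) (f : W O k l (Fin d)), up O k l d y (ins c f) = ins c (y f) := by
    intro c f
    funext w
    rw [up_apply, SK.comp_ins, SK.ins_apply]
    split_ifs with hc
    · rfl
    · rw [map_zero]; rfl
  refine LinearMap.ext fun f => ?_
  rw [Module.End.mul_apply, Ptr_apply', Ptr_apply']
  refine Finset.sum_congr rfl fun c _ => ?_
  rw [Module.End.mul_apply, h]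

theorem ins_cons (c : Lt k l) (f : W O k l (Fin d)) (w : Fin d → Lt k l) :
    ins c f (Fin.cons c w) = f w := by
  rw [SK.ins_apply, Fin.cons_zero, if_pos rfl, Fin.tail_cons]

/-- ROW T3a. -/
theorem Ptr_one : Ptr O k l d 1 = ((k + l : ℕ) : O) • 1 := by
  refine LinearMap.ext fun f => ?_
  funext w
  rw [Ptr_apply]
  simp only [Module.End.one_apply, ins_cons]
  rw [Finset.sum_const, Finset.card_univ, LinearMap.smul_apply, Module.End.one_apply, Pi.smul_apply,
    nsmul_eq_mul, smul_eq_mul]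
  congr 2
  simp [Lt]

/-- ROW T3b. -/
theorem Ptr_ds0 : Ptr O k l d (ds r {0}) = (r * l) • 1 := by
  refine LinearMap.ext fun f => ?_
  funext w
  rw [Ptr_apply]
  simp only [ds_apply, Finset.prod_singleton, Fin.cons_zero, ins_cons]
  rw [← Finset.sum_mul, LinearMap.smul_apply, Module.End.one_apply, Pi.smul_apply, smul_eq_mul]
  congr 1
  rw [Fintype.sum_sum_type]
  simp [odd, mul_comm]

theorem cons_swap (c : Lt k l) (a : Fin d) (w : Fin d → Lt k l) :
    ((Fin.cons c w : Fin (d + 1) → Lt k l) ∘ (swap 0 a.succ)) = Fin.cons (w a) (Function.update w a c) := by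
  funext i
  refine Fin.cases ?_ (fun j => ?_) i
  · simp
  · rw [Function.comp_apply, Fin.cons_succ]
    by_cases hj : j = a
    · subst hj; simp
    · rw [swap_apply_of_ne_of_ne (Fin.succ_ne_zero j) (fun h => hj (Fin.succ_injective _ h)),
        Fin.cons_succ, Function.update_of_ne hj]

/-- ROW T3d. -/
theorem Ptr_swap_ds0 (a : Fin d) :
    Ptr O k l d (pf O k l _ (g (swap 0 a.succ)) * ds r {0}) = ds r {a} := by
  refine LinearMap.ext fun f => ?_
  funext w
  rw [Ptr_apply]
  simp only [Module.End.mul_apply, pa_g, cons_swap, ds_apply, Finset.prod_singleton, Fin.cons_zero,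
    SK.ins_apply, Fin.tail_cons]
  rw [Finset.sum_eq_single (w a)]
  · rw [if_pos rfl, Function.update_eq_self]
  · intro c _ hc
    rw [if_neg (fun h : w a = c => hc h.symm), mul_zero]
  · intro h; exact absurd (Finset.mem_univ _) h

/-- ROW T3c. -/
theorem Ptr_swap (a : Fin d) : Ptr O k l d (pf O k l _ (g (swap 0 a.succ))) = 1 := by
  refine LinearMap.ext fun f => ?_
  funext w
  rw [Ptr_apply]
  simp only [pa_g, cons_swap, Module.End.one_apply, SK.ins_apply, Fin.tail_cons, Fin.cons_zero]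
  rw [Finset.sum_eq_single (w a)]
  · rw [if_pos rfl, Function.update_eq_self]
  · intro c _ hc
    rw [if_neg (fun h => hc h.symm)]
  · intro h; exact absurd (Finset.mem_univ _) h

end UT

end Pool.PI34.EX

end

/-! ### part EX_U -/
section

/-!
PI34, block EX (p = 2), rows U1-U5: one more strand.
-/

set_option autoImplicit false
set_option linter.unusedSectionVars false
set_option linter.unusedDecidableInType false
set_option linter.unusedFintypeInType false

namespace Pool.PI34.EX

open Equiv Finset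
open Pool.PI34.Super (Lt odd pv prs)
open Pool.PI34.SK (W comp ins)
open Pool.PI34.H4 (P g emb As AK)

section UT

variable {O : Type} [CommRing O] {k l : ℕ} {d : ℕ} {r : O}

/-- ROW U1. -/
theorem up_smul (c : O) (y : EW O k l (Fin d)) : up O k l d (c • y) = c • up O k l d y := rfl

theorem via_succ_zero (σ : Perm (Fin d)) : σ.viaEmbedding (Fin.succEmb d) 0 = 0 := by
  apply Perm.viaEmbedding_apply_of_notMem
  rintro ⟨a, ha⟩
  exact Fin.succ_ne_zero a ha

theorem via_succ_succ (σ : Perm (Fin d)) (i : Fin d) :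
    σ.viaEmbedding (Fin.succEmb d) i.succ = (σ i).succ :=
  Perm.viaEmbedding_apply σ (Fin.succEmb d) i

/-- ROW U2. -/
theorem up_pf (y : P (Fin d)) :
    up O k l d (pf O k l _ y) = pf O k l _ (emb (Fin.succEmb d) y) := by
  refine H4.P_induction (p := fun y => up O k l d (pf O k l _ y) =
    pf O k l _ (emb (Fin.succEmb d) y)) y (fun σ => ?_) (fun x y hx hy => ?_) (fun n x hx => ?_)
  · apply LinearMap.ext
    intro f
    funext w
    rw [H4.emb_g, up_apply, pa_g, pa_g]
    change f _ = f _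
    congr 1
    funext x
    rcases Fin.eq_zero_or_eq_succ x with rfl | ⟨y, rfl⟩
    · rw [Fin.cons_zero, Function.comp_apply, via_succ_zero]
    · rw [Fin.cons_succ, Function.comp_apply, Function.comp_apply, via_succ_succ]
      rfl
  · simp only [map_add, hx, hy]
  · simp only [map_zsmul, hx]

/-- ROW U3. -/
theorem up_ds (S : Finset (Fin d)) :
    up O k l d (ds r S) = ds r (S.map (Fin.succEmb d)) := by
  apply LinearMap.ext
  intro f
  funext w
  rw [up_apply, ds_apply, ds_apply, Finset.prod_map]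
  congr 1
  change f (Fin.cons (w 0) (Fin.tail w)) = f w
  rw [Fin.cons_self_tail]

theorem ext_phS (σ : Perm (Fin d)) :
    Pool.PI34.Super.ext (SK.phS d) σ = σ.viaEmbedding (Fin.succEmb d) := rfl

theorem pl_phS (y : P (Fin d)) : SK.pl ℤ (SK.phS d) y = emb (Fin.succEmb d) y := by
  refine H4.P_induction (p := fun y => SK.pl ℤ (SK.phS d) y = emb (Fin.succEmb d) y) y
    (fun σ => ?_) (fun x y hx hy => ?_) (fun n x hx => ?_)
  · rw [SK.pl_of, H4.emb_g, ext_phS]
  · simp only [map_add, hx, hy]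
  · simp only [map_zsmul, hx]

/-- ROW U4. -/
theorem up_sf (y : P (Fin d)) :
    up O k l d (sf O k l _ y) = sf O k l _ (emb (Fin.succEmb d) y) := by
  apply LinearMap.ext
  intro f
  funext w
  rw [up_apply, ← pl_phS]
  change SK.act ℤ O k l _ y (comp (w 0) f) (Fin.tail w) =
    SK.act ℤ O k l _ (SK.pl ℤ (SK.phS d) y) f w
  rw [← SK.comp_plS, SK.comp_apply, Fin.cons_self_tail]

/-- ROW U5. -/
theorem up_FR {j : ℕ} {y : EW O k l (Fin d)} (hy : y ∈ FR k l _ r j) :
    up O k l d y ∈ FR k l _ r j := by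
  have key : ∀ (σ : Perm (Fin d)) (S : Finset (Fin d)),
      up O k l d (pf O k l _ (g σ) * ds r S) =
        pf O k l _ (g (σ.viaEmbedding (Fin.succEmb d))) * ds r (S.map (Fin.succEmb d)) := by
    intro σ S
    rw [map_mul, up_pf, up_ds, H4.emb_g]
  unfold FR at hy
  induction hy using Submodule.span_induction with
  | mem x hx =>
    obtain ⟨σ, S, ⟨h, rfl⟩ | rfl⟩ := hx
    · exact Submodule.subset_span ⟨σ.viaEmbedding (Fin.succEmb d), S.map (Fin.succEmb d),
        Or.inl ⟨by rw [Finset.card_map]; exact h, key σ S⟩⟩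
    · refine Submodule.subset_span ⟨σ.viaEmbedding (Fin.succEmb d), S.map (Fin.succEmb d),
        Or.inr ?_⟩
      rw [up_smul, key]
  | zero => rw [map_zero]; exact Submodule.zero_mem _
  | add a b _ _ ha hb => rw [map_add]; exact Submodule.add_mem _ ha hb
  | smul c a _ ha => rw [up_smul]; exact Submodule.smul_mem _ _ ha

end UT

end Pool.PI34.EX

end

/-! ### part EX_T2 -/
section

/-!
PI34, block EX (p = 2), file EX_T2: the super trace of a transposition, the partial trace and the filtration.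
-/

set_option autoImplicit false
set_option linter.unusedSectionVars false
set_option linter.unusedDecidableInType false
set_option linter.unusedFintypeInType false

namespace Pool.PI34.EX

open Equiv Finset
open Pool.PI34.Super (Lt odd pv prs)
open Pool.PI34.SK (W comp ins)
open Pool.PI34.H4 (P g emb As AK)


section UT2

variable {O : Type} [CommRing O] {k l : ℕ} {d : ℕ} {r : O}

theorem sf_g {ι : Type} [Fintype ι] [LinearOrder ι] (σ : Perm ι) :
    sf O k l ι (g σ) = SK.rho O k l ι σ := SK.act_of σ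

/-- ROW T4: the super trace of a transposition is `1`. -/
theorem Ptr_sf_swap (hr : r * r = 2) (a : Fin d) :
    Ptr O k l d ((1 - r • ds r {0}) * sf O k l _ (g (swap 0 a.succ))) = 1 := by
  apply LinearMap.ext; intro f; funext w
  rw [Ptr_apply, Module.End.one_apply, sf_g]
  have h : ∀ c : Lt k l, ((1 - r • ds r {0} : EW O k l (Fin (d + 1))) *
      SK.rho O k l _ (swap 0 a.succ)) (ins c f) (Fin.cons c w) = if w a = c then f w else 0 := by
    intro c
    have h1 : SK.rho O k l _ (swap 0 a.succ) (ins c f) (Fin.cons c w)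
        = SK.pm c c * (if w a = c then f w else 0) := by
      have h2 := congrFun (SK.comp_rho_swap (ins c f) a c) w
      rw [SK.comp_apply] at h2
      rw [h2, Finset.sum_apply, Finset.sum_eq_single c]
      · rw [Pi.smul_apply, smul_eq_mul, SK.comp_ins, if_pos rfl, SK.eop_apply, SK.bsg_self, one_mul]
        congr 1
        split_ifs with h3
        · rw [← h3, Function.update_eq_self]
        · rfl
      · intro b _ hb
        rw [SK.comp_ins, if_neg hb, map_zero, smul_zero, Pi.zero_apply]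
      · intro h3; exact absurd (Finset.mem_univ _) h3
    rw [Module.End.mul_apply, LinearMap.sub_apply, Module.End.one_apply, Pi.sub_apply,
      LinearMap.smul_apply, Pi.smul_apply, ds_apply, h1, Finset.prod_singleton, Fin.cons_zero,
      smul_eq_mul]
    unfold SK.pm
    cases odd c
    · simp
    · simp only [Bool.and_self, if_true]
      linear_combination (if w a = c then f w else 0) * hr
  rw [Finset.sum_congr rfl (fun c _ => h c), Finset.sum_ite_eq, if_pos (Finset.mem_univ _)]

/-- A permutation is a transposition times a permutation of the last places. -/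
theorem g_decomp (σ : Perm (Fin (d + 1))) : ∃ (p : Fin (d + 1)) (τ : Perm (Fin d)),
    g σ = g (swap 0 p) * emb (Fin.succEmb d) (g τ) := by
  obtain ⟨⟨p, e⟩, rfl⟩ := Perm.decomposeFin.symm.surjective σ
  refine ⟨p, e, ?_⟩
  rw [H4.decomposeFin_eq, H4.g_mul, H4.emb_g]
  rfl

/-- `δ_S` with the place `0` split off. -/
theorem ds_split (S : Finset (Fin (d + 1))) : ∃ S' : Finset (Fin d),
    (0 ∉ S ∧ S'.card = S.card ∧ (ds r S : EW O k l _) = up O k l d (ds r S')) ∨
    (0 ∈ S ∧ S'.card + 1 = S.card ∧ (ds r S : EW O k l _) = ds r {0} * up O k l d (ds r S')) := by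
  classical
  have hS : ∀ T : Finset (Fin (d + 1)), 0 ∉ T →
      ∃ S' : Finset (Fin d), S'.map (Fin.succEmb d) = T := by
    intro T hT
    refine ⟨univ.filter (fun i => i.succ ∈ T), ?_⟩
    ext x
    rw [Finset.mem_map]
    constructor
    · rintro ⟨y, hy, rfl⟩
      rw [Finset.mem_filter] at hy
      exact hy.2
    · intro hx
      rcases Fin.eq_zero_or_eq_succ x with rfl | ⟨y, rfl⟩
      · exact absurd hx hT
      · exact ⟨y, by rw [Finset.mem_filter]; exact ⟨Finset.mem_univ _, hx⟩, rfl⟩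
  by_cases h0 : 0 ∈ S
  · obtain ⟨S', hS'⟩ := hS (S.erase 0) (Finset.notMem_erase 0 S)
    refine ⟨S', Or.inr ⟨h0, ?_, ?_⟩⟩
    · have h1 : S'.card = (S.erase 0).card := by rw [← hS', Finset.card_map]
      rw [h1, Finset.card_erase_add_one h0]
    · rw [up_ds, hS', ds_mul]
      have h2 : {0} ∩ S.erase 0 = (∅ : Finset (Fin (d + 1))) := by
        rw [← Finset.disjoint_iff_inter_eq_empty, Finset.disjoint_singleton_left]
        exact Finset.notMem_erase 0 S
      have h3 : {0} ∪ S.erase 0 = S := by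
        rw [← Finset.insert_eq, Finset.insert_erase h0]
      rw [h2, h3, Finset.card_empty, pow_zero, one_smul]
  · obtain ⟨S', hS'⟩ := hS S h0
    refine ⟨S', Or.inl ⟨h0, ?_, ?_⟩⟩
    · rw [← hS', Finset.card_map]
    · rw [up_ds, hS']

/-- The partial trace of a generator. -/
theorem Ptr_gen (σ : Perm (Fin (d + 1))) (S : Finset (Fin (d + 1))) :
    ∃ (c : O) (τ : Perm (Fin d)) (S' : Finset (Fin d)),
      Ptr O k l d (pf O k l _ (g σ) * ds r S) = c • (pf O k l _ (g τ) * ds r S') ∧
      (S.card ≤ S'.card ∨ ∃ c', c = r * c') := by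
  classical
  obtain ⟨p, τ, hσ⟩ := g_decomp σ
  obtain ⟨S', hS⟩ := ds_split (O := O) (k := k) (l := l) (r := r) S
  rw [hσ, map_mul (pf O k l (Fin (d + 1))), ← up_pf]
  rcases hS with ⟨h0, h1, h2⟩ | ⟨h0, h1, h2⟩
  · rw [h2, mul_assoc, ← map_mul (up O k l d), Ptr_mul_up]
    rcases Fin.eq_zero_or_eq_succ p with rfl | ⟨a, rfl⟩
    · refine ⟨((k + l : ℕ) : O), τ, S', ?_, Or.inl h1.ge⟩
      have h3 : g (swap (0 : Fin (d + 1)) 0) = 1 := by
        rw [swap_self]; exact H4.g_one
      rw [h3, map_one, Ptr_one, smul_mul_assoc, one_mul]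
    · refine ⟨1, τ, S', ?_, Or.inl h1.ge⟩
      rw [Ptr_swap, one_mul, one_smul]
  · have h3 : up O k l d (pf O k l _ (g τ)) * ds r {0}
        = ds r {0} * up O k l d (pf O k l _ (g τ)) := by
      rw [up_pf, H4.emb_g, pf_ds]
      congr 2
      rw [Finset.map_singleton]
      congr 1
      change τ.viaEmbedding (Fin.succEmb d) 0 = 0
      rw [Perm.viaEmbedding_apply_of_notMem]
      rintro ⟨y, hy⟩
      exact Fin.succ_ne_zero y hy
    have h4 : pf O k l _ (g (swap 0 p)) * up O k l d (pf O k l _ (g τ)) *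
        (ds r {0} * up O k l d (ds r S')) = pf O k l _ (g (swap 0 p)) * ds r {0} *
        up O k l d (pf O k l _ (g τ) * ds r S') := by
      rw [map_mul (up O k l d), mul_assoc, ← mul_assoc (up O k l d (pf O k l _ (g τ))), h3]
      simp only [mul_assoc]
    rw [h2, h4, Ptr_mul_up]
    rcases Fin.eq_zero_or_eq_succ p with rfl | ⟨a, rfl⟩
    · refine ⟨r * l, τ, S', ?_, Or.inr ⟨l, rfl⟩⟩
      have h5 : g (swap (0 : Fin (d + 1)) 0) = 1 := by
        rw [swap_self]; exact H4.g_one
      rw [h5, map_one, one_mul, Ptr_ds0, smul_mul_assoc, one_mul]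
    · rw [Ptr_swap_ds0]
      have h5 : (ds r {a} : EW O k l _) * pf O k l _ (g τ)
          = pf O k l _ (g τ) * ds r {τ.symm a} := by
        rw [pf_ds, Finset.map_singleton]
        congr 3
        exact (τ.apply_symm_apply a).symm
      have h6 : (ds r {a} : EW O k l _) * (pf O k l _ (g τ) * ds r S')
          = r ^ ({τ.symm a} ∩ S').card • (pf O k l _ (g τ) * ds r ({τ.symm a} ∪ S')) := by
        rw [← mul_assoc, h5, mul_assoc, ds_mul, mul_smul_comm]
      refine ⟨r ^ ({τ.symm a} ∩ S').card, τ, {τ.symm a} ∪ S', h6, ?_⟩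
      by_cases hb : τ.symm a ∈ S'
      · right
        refine ⟨1, ?_⟩
        rw [Finset.singleton_inter_of_mem hb, Finset.card_singleton, pow_one, mul_one]
      · left
        rw [← Finset.insert_eq, Finset.card_insert_of_notMem hb, h1]

/-- ROW T5. -/
theorem Ptr_FR {j : ℕ} {x : EW O k l (Fin (d + 1))} (hx : x ∈ FR k l _ r j) :
    Ptr O k l d x ∈ FR k l _ r j := by
  have h : FR k l _ r j ≤ (FR k l _ r j).comap (Ptr O k l d) := by
    conv_lhs => unfold FR
    refine Submodule.span_le.2 ?_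
    rintro y ⟨σ, S, hy⟩
    change Ptr O k l d y ∈ FR k l _ r j
    obtain ⟨c, τ, S', h1, h2⟩ := Ptr_gen (O := O) (k := k) (l := l) (r := r) σ S
    rcases hy with ⟨hc, rfl⟩ | rfl
    · rw [h1]
      rcases h2 with h2 | ⟨c', rfl⟩
      · exact Submodule.smul_mem _ _ (Submodule.subset_span ⟨τ, S', Or.inl ⟨hc.trans h2, rfl⟩⟩)
      · rw [mul_comm, mul_smul]
        exact Submodule.smul_mem _ _ (Submodule.subset_span ⟨τ, S', Or.inr rfl⟩)
    · rw [map_smul, h1, smul_comm]
      exact Submodule.smul_mem _ _ (Submodule.subset_span ⟨τ, S', Or.inr rfl⟩)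
  exact h hx

theorem sf_mem (hr : r * r = 2) {ι : Type} [Fintype ι] [LinearOrder ι] (y : P ι) :
    sf O k l ι y ∈ FR k l ι r 0 := by
  have h := Submodule.add_mem _ (FR_mono (Nat.zero_le 2) (sf_sub_pf (k := k) (l := l) hr y))
    (pf_mem (O := O) (k := k) (l := l) (r := r) y)
  rwa [sub_add_cancel] at h

/-- ROW T6. -/
theorem Ptr_sf (hr : r * r = 2) (σ : Perm (Fin (d + 1))) :
    ∃ (c : O) (τ : Perm (Fin d)) (x : EW O k l (Fin d)), x ∈ FR k l _ r 0 ∧
      Ptr O k l d (sf O k l _ (g σ)) = c • sf O k l _ (g τ) + r • x := by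
  obtain ⟨p, τ, hσ⟩ := g_decomp σ
  rw [hσ, map_mul (sf O k l (Fin (d + 1))), ← up_sf, Ptr_mul_up]
  rcases Fin.eq_zero_or_eq_succ p with rfl | ⟨a, rfl⟩
  · refine ⟨((k + l : ℕ) : O), τ, 0, Submodule.zero_mem _, ?_⟩
    have h3 : g (swap (0 : Fin (d + 1)) 0) = 1 := by
      rw [swap_self]; exact H4.g_one
    rw [h3, map_one, Ptr_one, smul_mul_assoc, one_mul, smul_zero, add_zero]
  · refine ⟨1, τ, Ptr O k l d (ds r {0} * sf O k l _ (g (swap 0 a.succ))) * sf O k l _ (g τ),
      ?_, ?_⟩
    · have h1 : Ptr O k l d (ds r {0} * sf O k l _ (g (swap 0 a.succ))) ∈ FR k l _ r 0 := by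
        refine Ptr_FR ?_
        have h2 : (ds r {0} : EW O k l (Fin (d + 1))) ∈ FR k l _ r 0 :=
          FR_mono (Nat.zero_le _) (ds_mem {0})
        have h3 : sf O k l (Fin (d + 1)) (g (swap 0 a.succ)) ∈ FR k l _ r 0 := sf_mem hr _
        exact FR_mul (i := 0) (j := 0) h2 h3
      have h3 : sf O k l (Fin d) (g τ) ∈ FR k l _ r 0 := sf_mem hr _
      exact FR_mul (i := 0) (j := 0) h1 h3
    · have h1 := Ptr_sf_swap (O := O) (k := k) (l := l) hr a
      have h2 : (1 - r • ds r {0} : EW O k l (Fin (d + 1))) * sf O k l _ (g (swap 0 a.succ))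
          = sf O k l _ (g (swap 0 a.succ)) - r • (ds r {0} * sf O k l _ (g (swap 0 a.succ))) := by
        rw [sub_mul, one_mul, smul_mul_assoc]
      rw [h2, (Ptr O k l d).map_sub, (Ptr O k l d).map_smul, sub_eq_iff_eq_add] at h1
      rw [h1, add_mul, one_mul, one_smul, smul_mul_assoc]

end UT2

end Pool.PI34.EX

end

/-! ### part EX_L -/
section

/-!
PI34, block EX (p = 2), group L: the tower of strands.
-/

set_option autoImplicit false
set_option linter.unusedSectionVars false
set_option linter.unusedDecidableInType false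
set_option linter.unusedFintypeInType false

namespace Pool.PI34.EX

open Equiv Finset
open Pool.PI34.Super (Lt odd pv prs)
open Pool.PI34.SK (W comp ins)
open Pool.PI34.H4 (P g emb As AK)


/-! ### L: the tower -/

section tower

variable {O : Type} [CommRing O] {k l m : ℕ} {d : ℕ} {r : O}
variable {V : VD (m + 1)} {Wd : WD ((m + 1) ^ (m + 1))}

/-- The embedding of the places after adding `n` strands. -/
def en (e : I0 m V Wd ↪ Fin d) : (n : ℕ) → I0 m V Wd ↪ Fin (d + n)
  | 0 => e
  | n + 1 => (en e n).trans (Fin.succEmb (d + n))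

/-- `Λ_n (1_n ⊗ F⁰ Y)`. -/
def LL (r : O) (Y : EW O k l (Fin d)) (n : ℕ) : Submodule O (EW O k l (Fin (d + n))) :=
  Submodule.span O {x | ∃ (σ : Perm (Fin (d + n))) (y : EW O k l (Fin d)), y ∈ NF r 0 Y ∧
    x = sf O k l _ (g σ) * upn O k l d n y}

/-- ROW L1. -/
theorem upn_Om (e : I0 m V Wd ↪ Fin d) (n : ℕ) :
    upn O k l d n (Om O k l e) = Om O k l (en e n) := by
  induction n with
  | zero => rfl
  | succ n ih =>
    change up O k l (d + n) (upn O k l d n (Om O k l e)) = _
    rw [ih]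
    unfold Om
    rw [up_pf, H4.emb_trans]
    rfl

/-- The tower of the operators `δ`. -/
theorem upn_ds (e : I0 m V Wd ↪ Fin d) (n : ℕ) (s : Finset (I0 m V Wd)) :
    upn O k l d n (ds r (s.map e)) = ds r (s.map (en e n)) := by
  induction n with
  | zero => rfl
  | succ n ih =>
    change up O k l (d + n) (upn O k l d n (ds r (s.map e))) = _
    rw [ih, up_ds, Finset.map_map]
    rfl

/-- The tower of the filtration. -/
theorem upn_FR {j : ℕ} {y : EW O k l (Fin d)} (hy : y ∈ FR k l _ r j) (n : ℕ) :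
    upn O k l d n y ∈ FR k l _ r j := by
  induction n with
  | zero => exact hy
  | succ n ih => exact up_FR ih

/-- ROW L2. -/
theorem LL_mul {Y : EW O k l (Fin d)} {n : ℕ} {x : EW O k l (Fin (d + n))} (hx : x ∈ LL r Y n)
    (y : P (Fin (d + n))) : sf O k l _ y * x ∈ LL r Y n := by
  refine H4.P_induction (p := fun y => sf O k l _ y * x ∈ LL r Y n) y ?_ ?_ ?_
  · intro τ
    unfold LL at hx
    refine Submodule.span_induction (p := fun x _ => sf O k l _ (g τ) * x ∈ LL r Y n)
      ?_ ?_ ?_ ?_ hx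
    · rintro x ⟨σ, z, hz, rfl⟩
      refine Submodule.subset_span ⟨τ * σ, z, hz, ?_⟩
      rw [← mul_assoc, ← map_mul, ← H4.g_mul]
    · rw [mul_zero]
      exact Submodule.zero_mem _
    · intro a b _ _ ha hb
      rw [mul_add]
      exact Submodule.add_mem _ ha hb
    · intro c a _ ha
      rw [mul_smul_comm]
      exact Submodule.smul_mem _ _ ha
  · intro a b ha hb
    rw [map_add, add_mul]
    exact Submodule.add_mem _ ha hb
  · intro n a ha
    rw [map_zsmul, smul_mul_assoc]
    exact zsmul_mem ha n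

/-- One strand of the tower. -/
theorem Ptr_sf_up (hr : r * r = 2) {D : ℕ} (σ : Perm (Fin (D + 1))) {z b Y : EW O k l (Fin D)}
    (hb : b ∈ FR k l (Fin D) r 0) (hz : z = b * Y) :
    ∃ (c : O) (τ : Perm (Fin D)) (x : EW O k l (Fin D)), x ∈ FR k l (Fin D) r 0 ∧
      Ptr O k l D (sf O k l (Fin (D + 1)) (g σ) * up O k l D z) =
        c • (sf O k l (Fin D) (g τ) * z) + r • (x * Y) := by
  obtain ⟨c, τ, x', hx', h1⟩ := Ptr_sf (O := O) (k := k) (l := l) (d := D) hr σ
  have h3 : x' * b ∈ FR k l (Fin D) r (0 + 0) := FR_mul hx' hb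
  rw [add_zero] at h3
  refine ⟨c, τ, x' * b, h3, ?_⟩
  rw [Ptr_mul_up, h1, add_mul, smul_mul_assoc, smul_mul_assoc]
  congr 2
  rw [hz, mul_assoc]

/-- One more strand. -/
theorem upn_succ (n : ℕ) (z : EW O k l (Fin d)) :
    upn O k l d (n + 1) z = up O k l (d + n) (upn O k l d n z) := rfl

/-- ROW L3. -/
theorem LL_Ptr (hr : r * r = 2) {Y : EW O k l (Fin d)} {n : ℕ} {x : EW O k l (Fin (d + (n + 1)))}
    (hx : x ∈ LL r Y (n + 1)) :
    ∃ u ∈ LL r Y n, ∃ b ∈ FR k l _ r 0, Ptr O k l (d + n) x = u + r • (b * upn O k l d n Y) := by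
  unfold LL at hx
  refine Submodule.span_induction (p := fun x _ => ∃ u ∈ LL r Y n,
    ∃ b ∈ FR k l (Fin (d + n)) r 0,
    Ptr O k l (d + n) x = u + r • (b * upn O k l d n Y)) ?_ ?_ ?_ ?_ hx
  · rintro x ⟨σ, z, hz, rfl⟩
    have hz' := hz
    unfold NF at hz'
    obtain ⟨b', hb', hb⟩ := Submodule.mem_map.1 hz'
    have hzb : z = b' * Y := hb.symm
    obtain ⟨c, τ, x', hx', h1⟩ := Ptr_sf_up (O := O) (k := k) (l := l) (D := d + n) hr σ
      (z := upn O k l d n z) (b := upn O k l d n b') (Y := upn O k l d n Y) (upn_FR hb' n)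
      (by rw [hzb, map_mul])
    refine ⟨c • (sf O k l (Fin (d + n)) (g τ) * upn O k l d n z), ?_, x', hx', h1⟩
    exact Submodule.smul_mem _ _ (Submodule.subset_span ⟨τ, z, hz, rfl⟩)
  · refine ⟨0, Submodule.zero_mem _, 0, Submodule.zero_mem _, ?_⟩
    rw [map_zero, zero_mul, smul_zero, add_zero]
  · rintro a b _ _ ⟨u, hu, b1, hb1, h1⟩ ⟨u', hu', b2, hb2, h2⟩
    refine ⟨u + u', Submodule.add_mem _ hu hu', b1 + b2, Submodule.add_mem _ hb1 hb2, ?_⟩
    rw [map_add, h1, h2, add_mul, smul_add]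
    abel
  · rintro c a _ ⟨u, hu, b1, hb1, h1⟩
    refine ⟨c • u, Submodule.smul_mem _ _ hu, c • b1, Submodule.smul_mem _ _ hb1, ?_⟩
    rw [map_smul, h1, smul_add, smul_mul_assoc, smul_comm c r]

/-- ROW L4. -/
theorem LL_ds (e : I0 m V Wd ↪ Fin d) (n : ℕ) (s : Finset (Fin (JJ m + 1))) :
    ds r ((P0 s).map (en e n)) * Om O k l (en e n) ∈ LL r (Om O k l e) n := by
  rw [← upn_Om, ← upn_ds, ← map_mul]
  refine Submodule.subset_span ⟨1, ds r ((P0 s).map e) * Om O k l e, ?_, ?_⟩
  · unfold NF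
    refine Submodule.mem_map.2 ⟨ds r ((P0 s).map e), FR_mono (Nat.zero_le _) (ds_mem _), rfl⟩
  · rw [H4.g_one, map_one, one_mul]

end tower

end Pool.PI34.EX

end

/-! ### part EX_A1 -/
section

set_option autoImplicit false
set_option linter.unusedSectionVars false
set_option linter.unusedDecidableInType false
set_option linter.unusedFintypeInType false

namespace Pool.PI34.EX

open Equiv Finset
open Pool.PI34.Super (Lt odd pv prs)
open Pool.PI34.SK (W comp ins)
open Pool.PI34.H4 (P g emb As AK)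


/-! ### A1: absorption of one `δ` -/

section A1

variable {O : Type} [CommRing O] {k l m : ℕ} {ι : Type} [Fintype ι] [LinearOrder ι] {r : O}
variable {V : VD (m + 1)} {Wd : WD ((m + 1) ^ (m + 1))}

theorem A1_map_swap (S : Finset ι) {x y : ι} (hx : x ∉ S) (hy : y ∉ S) :
    S.map (swap x y).toEmbedding = S := by
  have h : ∀ z ∈ S, swap x y z = z := fun z hz =>
    swap_apply_of_ne_of_ne (fun h => hx (h ▸ hz)) (fun h => hy (h ▸ hz))
  ext z
  rw [Finset.mem_map]
  constructor
  · rintro ⟨w, hw, rfl⟩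
    have : (swap x y).toEmbedding w = w := h w hw
    rw [this]
    exact hw
  · intro hz
    exact ⟨z, hz, h z hz⟩

theorem A1_ds_comm (S : Finset ι) {x y : ι} (hx : x ∉ S) (hy : y ∉ S) :
    (ds r S : EW O k l ι) * pf O k l ι (g (swap x y)) = pf O k l ι (g (swap x y)) * ds r S := by
  rw [pf_ds, A1_map_swap S hx hy]

theorem A1_ds_insert (S : Finset ι) {a : ι} (ha : a ∉ S) :
    (ds r (insert a S) : EW O k l ι) = ds r S * ds r {a} := by
  rw [ds_mul]
  have h1 : S ∩ {a} = ∅ := by
    rw [Finset.inter_singleton_of_notMem ha]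
  have h2 : S ∪ {a} = insert a S := by
    ext z
    simp
  rw [h1, h2, Finset.card_empty, pow_zero, one_smul]

/-- a `δ` inside a determinant can be moved to the first place of the determinant -/
theorem A1_move (D' : Fin (m + 1) ↪ ι) (i : Fin (m + 1)) :
    (ds r {D' i} : EW O k l ι) * pf O k l ι (emb D' (As (Fin (m + 1)))) =
      ((Perm.sign (swap i 0) : ℤˣ) : ℤ) • (pf O k l ι (g (swap (D' i) (D' 0))) *
        (ds r {D' 0} * pf O k l ι (emb D' (As (Fin (m + 1)))))) := by
  have h1 : g (swap (D' i) (D' 0)) * emb D' (As (Fin (m + 1))) =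
      ((Perm.sign (swap i 0) : ℤˣ) : ℤ) • emb D' (As (Fin (m + 1))) := by
    rw [← H4.swap_via D' i 0, ← H4.emb_g, ← map_mul, H4.g_mul_As, H4.emb_zsmul]
  have h2 : pf O k l ι (g (swap (D' i) (D' 0))) * pf O k l ι (emb D' (As (Fin (m + 1)))) =
      ((Perm.sign (swap i 0) : ℤˣ) : ℤ) • pf O k l ι (emb D' (As (Fin (m + 1)))) := by
    rw [← map_mul, h1, map_zsmul]
  have h3 : ({D' 0} : Finset ι).map (swap (D' i) (D' 0)).toEmbedding = {D' i} := by
    rw [Finset.map_singleton]
    congr 1
    exact swap_apply_right _ _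
  have h4 : pf O k l ι (g (swap (D' i) (D' 0))) * (ds r {D' 0} : EW O k l ι) =
      ds r {D' i} * pf O k l ι (g (swap (D' i) (D' 0))) := by
    rw [pf_ds, h3]
  rw [← mul_assoc, h4, mul_assoc, h2, mul_smul_comm, smul_smul]
  have h5 : (((Perm.sign (swap i 0) : ℤˣ) : ℤ)) * ((Perm.sign (swap i 0) : ℤˣ) : ℤ) = 1 := by
    rw [← Units.val_mul, Int.units_mul_self, Units.val_one]
  rw [h5, one_smul]

/-- ROW A1. -/
theorem absorb_one (hm : k + l = m + 1) (e : I0 m V Wd ↪ ι) (a : ι) (ha : ∀ x, e x ≠ a)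
    (c : Fin (JJ m + 1)) (S : Finset ι) (haS : a ∉ S) (hcS : ∀ i, e (D c i) ∉ S) :
    ds r (insert a S) * Om O k l e ∈ Submodule.span O
      {x | ∃ σ : Perm ι, x = pf O k l ι (g σ) * (ds r (insert (e (p0 c)) S) * Om O k l e)} := by
  set D' : Fin (m + 1) ↪ ι := (D (V := V) (Wd := Wd) c).trans e with hD'
  have hDi : ∀ i, D' i = e (D c i) := fun i => rfl
  have hD0 : D' 0 = e (p0 c) := rfl
  have hOm : Om O k l e = pf O k l ι (emb D' (As (Fin (m + 1)))) *
      pf O k l ι (emb e (AS (univ.erase c) * ww * zz)) := by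
    unfold Om Om0
    rw [AS_erase (mem_univ c), mul_assoc, mul_assoc, map_mul, H4.emb_trans, map_mul,
      mul_assoc (AS (univ.erase c) : P (I0 m V Wd))]
  set R : EW O k l ι := pf O k l ι (emb e (AS (univ.erase c) * ww * zz)) with hR
  set Q : EW O k l ι := pf O k l ι (emb D' (As (Fin (m + 1)))) with hQ
  have key : ds r (insert a S) * Om O k l e = ∑ i, ((Perm.sign (swap i 0) : ℤˣ) : ℤ) •
      (pf O k l ι (g (swap a (D' i) * swap (D' i) (D' 0))) *
        (ds r (insert (e (p0 c)) S) * Om O k l e)) := by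
    rw [hOm, A1_ds_insert S haS, ← mul_assoc, mul_assoc (ds r S) (ds r {a}) Q, hQ,
      exch_ds hm D' a (fun i => ha _), Finset.mul_sum, Finset.sum_mul]
    refine Finset.sum_congr rfl fun i _ => ?_
    have hi : D' i ∉ S := hcS i
    have h0 : D' 0 ∉ S := hcS 0
    rw [A1_move, ← hQ, H4.g_mul, map_mul, ← hD0, A1_ds_insert S h0]
    rw [mul_smul_comm, mul_smul_comm, smul_mul_assoc]
    congr 1
    have c1 := A1_ds_comm (O := O) (k := k) (l := l) (r := r) S haS hi
    have c2 := A1_ds_comm (O := O) (k := k) (l := l) (r := r) S hi h0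
    calc ds r S * (pf O k l ι (g (swap a (D' i))) * (pf O k l ι (g (swap (D' i) (D' 0))) *
          (ds r {D' 0} * Q))) * R
        = (ds r S * pf O k l ι (g (swap a (D' i)))) * pf O k l ι (g (swap (D' i) (D' 0))) *
          (ds r {D' 0} * Q) * R := by simp only [mul_assoc]
      _ = pf O k l ι (g (swap a (D' i))) * (ds r S * pf O k l ι (g (swap (D' i) (D' 0)))) *
          (ds r {D' 0} * Q) * R := by rw [c1]; simp only [mul_assoc]
      _ = pf O k l ι (g (swap a (D' i))) * pf O k l ι (g (swap (D' i) (D' 0))) *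
          (ds r S * ds r {D' 0} * (Q * R)) := by rw [c2]; simp only [mul_assoc]
  rw [key]
  refine Submodule.sum_mem _ fun i _ => ?_
  refine zsmul_mem ?_ _
  exact Submodule.subset_span ⟨_, rfl⟩

end A1

end Pool.PI34.EX

end

/-! ### part EX_R10 -/
section

set_option autoImplicit false
set_option linter.unusedSectionVars false
set_option linter.unusedDecidableInType false
set_option linter.unusedFintypeInType false

namespace Pool.PI34.EX

open Equiv Finset
open Pool.PI34.Super (Lt odd pv prs)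
open Pool.PI34.SK (W comp ins)
open Pool.PI34.H4 (P g emb As AK)


section R

variable {O : Type} [CommRing O] {k l m : ℕ} {ι : Type} [Fintype ι] [LinearOrder ι] {r : O}
variable {V : VD (m + 1)} {Wd : WD ((m + 1) ^ (m + 1))}

theorem r10_FR_mul {i j n : ℕ} (h : i + j = n) {x y : EW O k l ι} (hx : x ∈ FR k l ι r i)
    (hy : y ∈ FR k l ι r j) : x * y ∈ FR k l ι r n := by
  subst h
  exact FR_mul hx hy

theorem r10_adj_id {A : Type} [Ring A] (Y a S D : A) :
    (Y + a) * (1 - S * (1 - D)) * (Y + a) - Y * D * Y =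
      -((Y * S - Y) * Y) - (Y * S - Y) * a - a * (S * Y - Y) + a * (1 - S) * a +
        (Y * S - Y) * (D * Y) + Y * S * (D * a) + a * S * (D * Y) + a * S * (D * a) := by
  simp only [mul_add, add_mul, mul_sub, sub_mul, mul_one, mul_assoc]
  abel

theorem r10_conj_id {A : Type} [Ring A] (s s' p p' Z M : A) :
    s * Z * s' - p * M * p' = s * (Z - M) * s' + (s - p) * M * s' + p * M * (s' - p') := by
  simp only [mul_sub, sub_mul, mul_assoc]
  abel

theorem r10_adj_mem {Y a S D x1 x2 : EW O k l ι} (hY : Y ∈ FR k l ι r 0) (ha : a ∈ FR k l ι r 2)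
    (hS : S ∈ FR k l ι r 0) (hD : D ∈ FR k l ι r 2) (h1' : (1 : EW O k l ι) ∈ FR k l ι r 0)
    (hx1 : x1 ∈ FR k l ι r 0) (hx2 : x2 ∈ FR k l ι r 0) (e1 : Y * S - Y = r • x1)
    (e2 : S * Y - Y = r • x2) :
    (Y + a) * (1 - S * (1 - D)) * (Y + a) - Y * D * Y ∈ FR k l ι r 4 := by
  have ha0 : a ∈ FR k l ι r 0 := FR_mono (Nat.zero_le 2) ha
  have hD0 : D ∈ FR k l ι r 0 := FR_mono (Nat.zero_le 2) hD
  rw [r10_adj_id, e1, e2]
  simp only [smul_mul_assoc, mul_smul_comm]
  have m1 : r • (x1 * Y) ∈ FR k l ι r 4 := r_smul_mem (r10_FR_mul (n := 0) rfl hx1 hY) 4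
  have m2 : r • (x1 * a) ∈ FR k l ι r 4 := r_smul_mem (r10_FR_mul (n := 0) rfl hx1 ha0) 4
  have m3 : r • (a * x2) ∈ FR k l ι r 4 := r_smul_mem (r10_FR_mul (n := 0) rfl ha0 hx2) 4
  have m4 : a * (1 - S) * a ∈ FR k l ι r 4 :=
    r10_FR_mul (i := 2) (j := 2) (n := 4) rfl (r10_FR_mul (i := 2) (j := 0) (n := 2) rfl ha (Submodule.sub_mem _ h1' hS)) ha
  have m5 : r • (x1 * (D * Y)) ∈ FR k l ι r 4 := r_smul_mem (r10_FR_mul (n := 0) rfl hx1 (r10_FR_mul (n := 0) rfl hD0 hY)) 4
  have m6 : Y * S * (D * a) ∈ FR k l ι r 4 :=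
    r10_FR_mul (i := 0) (j := 4) (n := 4) rfl (r10_FR_mul (i := 0) (j := 0) (n := 0) rfl hY hS) (r10_FR_mul (i := 2) (j := 2) (n := 4) rfl hD ha)
  have m7 : a * S * (D * Y) ∈ FR k l ι r 4 :=
    r10_FR_mul (i := 2) (j := 2) (n := 4) rfl (r10_FR_mul (i := 2) (j := 0) (n := 2) rfl ha hS) (r10_FR_mul (i := 2) (j := 0) (n := 2) rfl hD hY)
  have m8 : a * S * (D * a) ∈ FR k l ι r 4 :=
    r10_FR_mul (i := 0) (j := 4) (n := 4) rfl (r10_FR_mul (i := 0) (j := 0) (n := 0) rfl ha0 hS) (r10_FR_mul (i := 2) (j := 2) (n := 4) rfl hD ha)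
  exact Submodule.add_mem _ (Submodule.add_mem _ (Submodule.add_mem _ (Submodule.add_mem _
    (Submodule.add_mem _ (Submodule.sub_mem _ (Submodule.sub_mem _ (Submodule.neg_mem _ m1) m2) m3)
      m4) m5) m6) m7) m8

theorem r10_conj_mem {s s' p p' Z M : EW O k l ι} (hp : p ∈ FR k l ι r 0) (hp' : p' ∈ FR k l ι r 0)
    (hc : s - p ∈ FR k l ι r 2) (hc' : s' - p' ∈ FR k l ι r 2) (hM : M ∈ FR k l ι r 2)
    (hz : Z - M ∈ FR k l ι r 4) : s * Z * s' - p * M * p' ∈ FR k l ι r 4 := by
  have hs : s ∈ FR k l ι r 0 := by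
    have h := Submodule.add_mem _ hp (FR_mono (Nat.zero_le 2) hc)
    rwa [add_sub_cancel] at h
  have hs' : s' ∈ FR k l ι r 0 := by
    have h := Submodule.add_mem _ hp' (FR_mono (Nat.zero_le 2) hc')
    rwa [add_sub_cancel] at h
  rw [r10_conj_id]
  refine Submodule.add_mem _ (Submodule.add_mem _ ?_ ?_) ?_
  · exact r10_FR_mul (i := 4) (j := 0) (n := 4) rfl (r10_FR_mul (i := 0) (j := 4) (n := 4) rfl hs hz) hs'
  · exact r10_FR_mul (i := 4) (j := 0) (n := 4) rfl (r10_FR_mul (i := 2) (j := 2) (n := 4) rfl hc hM) hs'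
  · exact r10_FR_mul (i := 2) (j := 2) (n := 4) rfl (r10_FR_mul (i := 0) (j := 2) (n := 2) rfl hp hM) hc'

theorem r10_one_mem : (1 : EW O k l ι) ∈ FR k l ι r 0 := by
  have h := pf_mem (O := O) (k := k) (l := l) (r := r) (1 : P ι)
  rwa [map_one] at h

theorem r10_ds2_mem {p q : ι} (h : p ≠ q) : (ds r {p, q} : EW O k l ι) ∈ FR k l ι r 2 := by
  have h1 := ds_mem (O := O) (k := k) (l := l) (r := r) ({p, q} : Finset ι)
  rwa [Finset.card_pair h] at h1

/-- The case of two adjacent places. -/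
theorem r10_kap_adj (hr : r * r = 2) {p q : ι} (hpq : p ⋖ q) (y : P ι)
    (h1 : ∃ x ∈ FR k l ι r 0, pf O k l ι (y * g (swap p q) - y) = r • x)
    (h2 : ∃ x ∈ FR k l ι r 0, pf O k l ι (g (swap p q) * y - y) = r • x) :
    sf O k l ι (y * (1 - g (swap p q)) * y) - pf O k l ι y * ds r {p, q} * pf O k l ι y ∈
      FR k l ι r 4 := by
  obtain ⟨x1, hx1, e1⟩ := h1
  obtain ⟨x2, hx2, e2⟩ := h2
  rw [map_sub, map_mul] at e1 e2
  have h := r10_adj_mem (pf_mem (O := O) (k := k) (l := l) (r := r) y) (sf_sub_pf hr y)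
    (pf_mem (g (swap p q))) (r10_ds2_mem hpq.ne) r10_one_mem hx1 hx2 e1 e2
  rw [add_sub_cancel] at h
  rw [map_mul, map_mul, map_sub, map_one, sf_swap_adj hr hpq]
  exact h

/-- A permutation with two prescribed values. -/
theorem r10_exists_perm2 {x y p q : ι} (hxy : x ≠ y) (hpq : p ≠ q) :
    ∃ σ : Perm ι, σ x = p ∧ σ y = q := by
  refine ⟨swap (swap x p y) q * swap x p, ?_, ?_⟩
  · rw [Perm.mul_apply, swap_apply_left]
    refine swap_apply_of_ne_of_ne ?_ hpq
    intro h
    have h1 : swap x p x = swap x p y := by rw [swap_apply_left]; exact h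
    exact hxy ((swap x p).injective h1)
  · rw [Perm.mul_apply, swap_apply_left]

theorem r10_gconj1 {σ : Perm ι} {s s0 y : P ι} (hsw : g σ * s0 = s * g σ) :
    g σ⁻¹ * y * g σ * s0 - g σ⁻¹ * y * g σ = g σ⁻¹ * (y * s - y) * g σ := by
  rw [mul_assoc _ (g σ) s0, hsw]
  simp only [mul_sub, sub_mul, mul_assoc]

theorem r10_gconj2 {σ : Perm ι} {s s0 y : P ι} (hsw' : s0 * g σ⁻¹ = g σ⁻¹ * s) :
    s0 * (g σ⁻¹ * y * g σ) - g σ⁻¹ * y * g σ = g σ⁻¹ * (s * y - y) * g σ := by
  rw [← mul_assoc, ← mul_assoc, hsw']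
  simp only [mul_sub, sub_mul, mul_assoc]

theorem r10_gconj3 {A : Type} [Ring A] {a b s s0 y : A} (hab : a * b = 1)
    (hsw : a * s0 = s * a) :
    y * (1 - s) * y = a * (b * y * a * (1 - s0) * (b * y * a)) * b := by
  have h : a * (1 - s0) = (1 - s) * a := by rw [mul_sub, sub_mul, hsw, mul_one, one_mul]
  calc y * (1 - s) * y = (a * b) * y * (1 - s) * (a * b) * y * (a * b) := by
        rw [hab, one_mul, mul_one, mul_one]
    _ = a * b * y * ((1 - s) * a) * b * y * (a * b) := by simp only [mul_assoc]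
    _ = a * b * y * (a * (1 - s0)) * b * y * (a * b) := by rw [h]
    _ = a * (b * y * a * (1 - s0) * (b * y * a)) * b := by simp only [mul_assoc]

theorem r10_gconj4 {A : Type} [Ring A] {a b y D D0 y' : A} (hab : a * b = 1)
    (h1 : a * y' = y * a) (h2 : y' * b = b * y) (h3 : a * D0 = D * a) :
    a * (y' * D0 * y') * b = y * D * y := by
  calc a * (y' * D0 * y') * b = (a * y') * D0 * (y' * b) := by simp only [mul_assoc]
    _ = y * (a * D0) * (b * y) := by rw [h1, h2]; simp only [mul_assoc]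
    _ = y * D * (a * b) * y := by rw [h3]; simp only [mul_assoc]
    _ = y * D * y := by rw [hab, mul_one]

/-- ROW R10. -/
theorem kap_gen (hr : r * r = 2) (hadj : ∃ x y : ι, x ⋖ y) {p q : ι} (hpq : p ≠ q) (y : P ι)
    (h1 : ∃ x ∈ FR k l ι r 0, pf O k l ι (y * g (swap p q) - y) = r • x)
    (h2 : ∃ x ∈ FR k l ι r 0, pf O k l ι (g (swap p q) * y - y) = r • x) :
    sf O k l ι (y * (1 - g (swap p q)) * y) - pf O k l ι y * ds r {p, q} * pf O k l ι y ∈
      FR k l ι r 4 := by
  obtain ⟨x0, y0, hxy⟩ := hadj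
  obtain ⟨σ, hσp, hσq⟩ := r10_exists_perm2 hxy.ne hpq
  obtain ⟨x1, hx1, e1⟩ := h1
  obtain ⟨x2, hx2, e2⟩ := h2
  have hgi : g σ * g σ⁻¹ = (1 : P ι) := by rw [← H4.g_mul, mul_inv_cancel, H4.g_one]
  have hig : g σ⁻¹ * g σ = (1 : P ι) := by rw [← H4.g_mul, inv_mul_cancel, H4.g_one]
  have hsw : g σ * g (swap x0 y0) = g (swap p q) * g σ := by
    rw [← H4.g_mul, ← H4.g_mul, Equiv.mul_swap_eq_swap_mul, hσp, hσq]
  have hsw' : g (swap x0 y0) * g σ⁻¹ = g σ⁻¹ * g (swap p q) := by
    calc g (swap x0 y0) * g σ⁻¹ = g σ⁻¹ * (g σ * g (swap x0 y0)) * g σ⁻¹ := by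
          rw [← mul_assoc, hig, one_mul]
      _ = g σ⁻¹ * g (swap p q) := by
          rw [hsw, mul_assoc, mul_assoc, hgi, mul_one]
  have hA := pf_mem (O := O) (k := k) (l := l) (r := r) (g σ)
  have hB := pf_mem (O := O) (k := k) (l := l) (r := r) (g σ⁻¹)
  have k1 : ∃ x ∈ FR k l ι r 0, pf O k l ι (g σ⁻¹ * y * g σ * g (swap x0 y0) - g σ⁻¹ * y * g σ) =
      r • x := by
    refine ⟨pf O k l ι (g σ⁻¹) * x1 * pf O k l ι (g σ), r10_FR_mul (n := 0) rfl (r10_FR_mul (n := 0) rfl hB hx1) hA, ?_⟩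
    rw [r10_gconj1 hsw, map_mul, map_mul, e1, mul_smul_comm, smul_mul_assoc]
  have k2 : ∃ x ∈ FR k l ι r 0, pf O k l ι (g (swap x0 y0) * (g σ⁻¹ * y * g σ) - g σ⁻¹ * y * g σ) =
      r • x := by
    refine ⟨pf O k l ι (g σ⁻¹) * x2 * pf O k l ι (g σ), r10_FR_mul (n := 0) rfl (r10_FR_mul (n := 0) rfl hB hx2) hA, ?_⟩
    rw [r10_gconj2 hsw', map_mul, map_mul, e2, mul_smul_comm, smul_mul_assoc]
  have hz := r10_kap_adj hr hxy (g σ⁻¹ * y * g σ) k1 k2
  have hσy : g σ * (g σ⁻¹ * y * g σ) = y * g σ := by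
    rw [← mul_assoc, ← mul_assoc, hgi, one_mul]
  have hyσ : g σ⁻¹ * y * g σ * g σ⁻¹ = g σ⁻¹ * y := by
    rw [mul_assoc, hgi, mul_one]
  have hE := r10_gconj3 (y := y) hgi hsw
  generalize hy' : g σ⁻¹ * y * g σ = y' at hz hσy hyσ hE
  have hc := sf_sub_pf (k := k) (l := l) hr (g σ)
  have hc' := sf_sub_pf (k := k) (l := l) hr (g σ⁻¹)
  have hY' := pf_mem (O := O) (k := k) (l := l) (r := r) y'
  have hM : pf O k l ι y' * ds r {x0, y0} * pf O k l ι y' ∈ FR k l ι r 2 :=
    r10_FR_mul (i := 2) (j := 0) (n := 2) rfl (r10_FR_mul (i := 0) (j := 2) (n := 2) rfl hY' (r10_ds2_mem hxy.ne)) hY'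
  have hmap : ({x0, y0} : Finset ι).map σ.toEmbedding = {p, q} := by
    rw [Finset.map_insert, Finset.map_singleton]
    simp [hσp, hσq]
  have hMM : pf O k l ι (g σ) * (pf O k l ι y' * ds r {x0, y0} * pf O k l ι y') *
      pf O k l ι (g σ⁻¹) = pf O k l ι y * ds r {p, q} * pf O k l ι y := by
    refine r10_gconj4 ?_ ?_ ?_ ?_
    · rw [← map_mul, hgi, map_one]
    · rw [← map_mul, ← map_mul, hσy]
    · rw [← map_mul, ← map_mul, hyσ]
    · rw [pf_ds, hmap]
  rw [hE, map_mul, map_mul, ← hMM]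
  exact r10_conj_mem hA hB hc hc' hM hz

/-- ROW R11. -/
theorem kap_spec (hr : r * r = 2) (hm : k + l = m + 1) (hadj : ∃ x y : ι, x ⋖ y)
    (e : I0 m V Wd ↪ ι) (a : Fin (JJ m)) :
    sf O k l ι (emb e (kap a)) - pf O k l ι (emb e (emb (vE a) V.e1)) *
      ds r ((P0 {a.castSucc, a.succ}).map e) * pf O k l ι (emb e (emb (vE a) V.e1)) ∈
        FR k l ι r 4 := by
  have hne : (p0 a.castSucc : I0 m V Wd) ≠ p0 a.succ := by
    intro h
    have h1 := congrArg Prod.fst (Sum.inl_injective h)
    exact Fin.castSucc_lt_succ.ne (Sum.inr_injective h1)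
  have hpq : e (p0 a.castSucc) ≠ e (p0 a.succ) := fun h => hne (e.injective h)
  have hS : (P0 {a.castSucc, a.succ} : Finset (I0 m V Wd)).map e =
      {e (p0 a.castSucc), e (p0 a.succ)} := by
    unfold P0
    rw [Finset.map_insert, Finset.map_singleton, Finset.map_insert, Finset.map_singleton]
    rfl
  have hsw1 : emb e (g (swap (p0 a.castSucc) (p0 a.succ))) =
      g (swap (e (p0 a.castSucc)) (e (p0 a.succ))) := by
    rw [H4.emb_g]
    congr 1
    ext z
    by_cases hz : z ∈ Set.range e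
    · obtain ⟨w, rfl⟩ := hz
      rw [Perm.viaEmbedding_apply]
      exact (e.injective.swap_apply _ _ _).symm
    · rw [Perm.viaEmbedding_apply_of_notMem _ _ _ hz, swap_apply_of_ne_of_ne]
      · rintro rfl; exact hz ⟨_, rfl⟩
      · rintro rfl; exact hz ⟨_, rfl⟩
  have hsw2 : emb (vE a) (g (swap (Sum.inr 0) (Sum.inr 1))) =
      (g (swap (p0 a.castSucc) (p0 a.succ)) : P (I0 m V Wd)) := by
    rw [H4.emb_g]
    congr 1
    ext z
    by_cases hz : z ∈ Set.range (vE a : V.X ⊕ Fin 2 ↪ I0 m V Wd)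
    · obtain ⟨w, rfl⟩ := hz
      rw [Perm.viaEmbedding_apply]
      exact ((vE a : V.X ⊕ Fin 2 ↪ I0 m V Wd).injective.swap_apply (Sum.inr 0) (Sum.inr 1) w).symm
    · rw [Perm.viaEmbedding_apply_of_notMem _ _ _ hz, swap_apply_of_ne_of_ne]
      · rintro rfl; exact hz ⟨Sum.inr 0, rfl⟩
      · rintro rfl; exact hz ⟨Sum.inr 1, rfl⟩
  have hk : emb e (kap a) = emb e (emb (vE a) V.e1) *
      (1 - g (swap (e (p0 a.castSucc)) (e (p0 a.succ)))) * emb e (emb (vE a) V.e1) := by
    unfold kap
    rw [map_mul, map_mul, map_sub, map_one, hsw1]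
  rw [hk, hS]
  refine kap_gen hr hadj hpq _ ?_ ?_
  · have h := pf_K2 (k := k) (l := l) hr hm ((vE a).trans e) V.hef
    rw [← H4.emb_trans, map_sub, map_mul, hsw2, map_sub, map_mul, hsw1] at h
    exact h
  · have h := pf_K2 (k := k) (l := l) hr hm ((vE a).trans e) V.hfe
    rw [← H4.emb_trans, map_sub, map_mul, hsw2, map_sub, map_mul, hsw1] at h
    exact h

end R

end Pool.PI34.EX

end

/-! ### part EX_A2 -/
section

set_option autoImplicit false
set_option linter.unusedSectionVars false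
set_option linter.unusedDecidableInType false
set_option linter.unusedFintypeInType false

namespace Pool.PI34.EX

open Equiv Finset
open Pool.PI34.Super (Lt odd pv prs)
open Pool.PI34.SK (W comp ins)
open Pool.PI34.H4 (P g emb As AK)

section R

variable {O : Type} [CommRing O] {k l m : ℕ} {ι : Type} [Fintype ι] [LinearOrder ι] {r : O}
variable {V : VD (m + 1)} {Wd : WD ((m + 1) ^ (m + 1))}


/-- ROW A2. -/
theorem absorb (hm : k + l = m + 1) (e : I0 m V Wd ↪ ι) (T S : Finset ι)
    (v : Finset (Fin (JJ m + 1))) (hT : ∀ x, e x ∉ T) (hS : ∀ x, e x ∉ S) (hTS : Disjoint T S)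
    (hc : T.card + v.card ≤ JJ m + 1) :
    ds r (T ∪ S ∪ (P0 v).map e) * Om O k l e ∈ Submodule.span O
      {x | ∃ (σ : Perm ι) (v' : Finset (Fin (JJ m + 1))), v'.card = T.card + v.card ∧
        x = pf O k l ι (g σ) * (ds r (S ∪ (P0 v').map e) * Om O k l e)} := by
  induction T using Finset.induction_on generalizing v with
  | empty =>
    refine Submodule.subset_span ⟨1, v, by simp, ?_⟩
    have h1 : (g (1 : Perm ι) : P ι) = 1 := rfl
    rw [h1, map_one, one_mul, Finset.empty_union]
  | insert a T ha ih =>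
    have haT : ∀ x, e x ≠ a := fun x h => hT x (by rw [h]; exact Finset.mem_insert_self _ _)
    have hT' : ∀ x, e x ∉ T := fun x h => hT x (Finset.mem_insert_of_mem h)
    have haS : a ∉ S := fun h => (Finset.disjoint_left.mp hTS) (Finset.mem_insert_self _ _) h
    have hTS' : Disjoint T S :=
      Finset.disjoint_left.mpr fun x hx hx' =>
        (Finset.disjoint_left.mp hTS) (Finset.mem_insert_of_mem hx) hx'
    rw [Finset.card_insert_of_notMem ha] at hc
    obtain ⟨c, hcv⟩ : ∃ c : Fin (JJ m + 1), c ∉ v := by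
      by_contra hcon
      push Not at hcon
      have h2 : v = Finset.univ := Finset.eq_univ_iff_forall.mpr hcon
      rw [h2, Finset.card_univ, Fintype.card_fin] at hc
      omega
    have key := absorb_one (r := r) (O := O) (k := k) (l := l) hm e a haT c
      (T ∪ S ∪ (P0 v).map e) (by
        intro h
        rcases Finset.mem_union.mp h with h | h
        · rcases Finset.mem_union.mp h with h | h
          · exact ha h
          · exact haS h
        · obtain ⟨x, _, hx⟩ := Finset.mem_map.mp h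
          exact haT x hx) (by
        intro i h
        rcases Finset.mem_union.mp h with h | h
        · rcases Finset.mem_union.mp h with h | h
          · exact hT' _ h
          · exact hS _ h
        · obtain ⟨x, hx, hxe⟩ := Finset.mem_map.mp h
          obtain ⟨c', hc', hcx⟩ := Finset.mem_map.mp hx
          have h3 : x = D c i := e.injective hxe
          have h4 : (p0 c' : I0 m V Wd) = D c i := by rw [← h3]; exact hcx
          have h5 : c' = c := by
            have h6 := Sum.inl_injective h4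
            have h7 := congrArg Prod.fst h6
            exact Sum.inr_injective h7
          exact hcv (h5 ▸ hc'))
    have hset : insert a T ∪ S ∪ (P0 v).map e = insert a (T ∪ S ∪ (P0 v).map e) := by
      rw [Finset.insert_union, Finset.insert_union]
    have hset2 : insert (e (p0 c)) (T ∪ S ∪ (P0 v).map e) = T ∪ S ∪ (P0 (insert c v)).map e := by
      have h8 : (P0 (insert c v) : Finset (I0 m V Wd)) = insert (p0 c) (P0 v) := by
        unfold P0
        rw [Finset.map_insert]
        rfl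
      rw [h8, Finset.map_insert, Finset.union_insert]
    rw [hset]
    rw [hset2] at key
    have hcard : (insert c v).card = v.card + 1 := Finset.card_insert_of_notMem hcv
    have ih' := ih (insert c v) hT' hTS' (by rw [hcard]; omega)
    refine (Submodule.span_le.mpr ?_) key
    rintro x ⟨σ, rfl⟩
    -- multiplication by `pf (g σ)` preserves the span
    have hmul : ∀ y ∈ Submodule.span O
        {x | ∃ (σ : Perm ι) (v' : Finset (Fin (JJ m + 1))), v'.card = T.card + (insert c v).card ∧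
          x = pf O k l ι (g σ) * (ds r (S ∪ (P0 v').map e) * Om O k l e)},
        pf O k l ι (g σ) * y ∈ Submodule.span O
        {x | ∃ (σ : Perm ι) (v' : Finset (Fin (JJ m + 1))), v'.card = (insert a T).card + v.card ∧
          x = pf O k l ι (g σ) * (ds r (S ∪ (P0 v').map e) * Om O k l e)} := by
      intro y hy
      induction hy using Submodule.span_induction with
      | mem y hy =>
        obtain ⟨τ, v', hv', rfl⟩ := hy
        refine Submodule.subset_span ⟨σ * τ, v', ?_, ?_⟩
        · rw [hv', hcard, Finset.card_insert_of_notMem ha]; omega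
        · have h9 : (g (σ * τ) : P ι) = g σ * g τ := by
            simp [g, MonoidAlgebra.single_mul_single]
          rw [h9, map_mul, mul_assoc]
      | zero => rw [mul_zero]; exact Submodule.zero_mem _
      | add y z _ _ hy hz => rw [mul_add]; exact Submodule.add_mem _ hy hz
      | smul b y _ hy => rw [mul_smul_comm]; exact Submodule.smul_mem _ _ hy
    exact hmul _ ih'

end R

end Pool.PI34.EX

end

/-! ### part EX_R8 -/
section

set_option autoImplicit false
set_option linter.unusedSectionVars false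
set_option linter.unusedDecidableInType false
set_option linter.unusedFintypeInType false

namespace Pool.PI34.EX

open Equiv Finset
open Pool.PI34.Super (Lt odd pv prs)
open Pool.PI34.SK (W comp ins)
open Pool.PI34.H4 (P g emb As AK)


section R

variable {O : Type} [CommRing O] {k l m : ℕ} {ι : Type} [Fintype ι] [LinearOrder ι] {r : O}
variable {V : VD (m + 1)} {Wd : WD ((m + 1) ^ (m + 1))}

/-! ### Row R8 -/

theorem FR0_mul {x y : EW O k l ι} (hx : x ∈ FR k l ι r 0) (hy : y ∈ FR k l ι r 0) :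
    x * y ∈ FR k l ι r 0 := by
  have h := FR_mul hx hy
  rwa [Nat.add_zero] at h

theorem FR0_one : (1 : EW O k l ι) ∈ FR k l ι r 0 := by
  have h := pf_mem (O := O) (k := k) (l := l) (r := r) (1 : P ι)
  rwa [map_one] at h

/-- `F⁰` as a subring. -/
def FRs (O : Type) [CommRing O] (k l : ℕ) (ι : Type) [Fintype ι] [LinearOrder ι] (r : O) :
    Subring (EW O k l ι) where
  carrier := {x | x ∈ FR k l ι r 0}
  mul_mem' := fun ha hb => FR0_mul ha hb
  one_mem' := FR0_one
  add_mem' := fun ha hb => Submodule.add_mem (FR k l ι r 0) ha hb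
  zero_mem' := Submodule.zero_mem (FR k l ι r 0)
  neg_mem' := fun ha => Submodule.neg_mem (FR k l ι r 0) ha

theorem mem_FRs {x : EW O k l ι} : x ∈ FRs O k l ι r ↔ x ∈ FR k l ι r 0 := by
  unfold FRs
  rfl

/-- `r F⁰ Y`. -/
def Sr (r : O) (Y : EW O k l ι) : AddSubgroup (EW O k l ι) where
  carrier := {x | ∃ b ∈ FR k l ι r 0, x = r • (b * Y)}
  add_mem' := by
    rintro _ _ ⟨b, hb, rfl⟩ ⟨c, hc, rfl⟩
    exact ⟨b + c, Submodule.add_mem _ hb hc, by rw [add_mul, smul_add]⟩
  zero_mem' := ⟨0, Submodule.zero_mem _, by rw [zero_mul, smul_zero]⟩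
  neg_mem' := by
    rintro _ ⟨b, hb, rfl⟩
    exact ⟨-b, Submodule.neg_mem _ hb,
      (smul_neg r (b * Y)).symm.trans (congrArg (fun z => r • z) (neg_mul b Y).symm)⟩

theorem mem_Sr {Y x : EW O k l ι} : x ∈ Sr r Y ↔ ∃ b ∈ FR k l ι r 0, x = r • (b * Y) := Iff.rfl

theorem Sr_mul {Y x b : EW O k l ι} (hb : b ∈ FR k l ι r 0) (hx : x ∈ Sr r Y) : b * x ∈ Sr r Y := by
  obtain ⟨c, hc, rfl⟩ := hx
  exact ⟨b * c, FR0_mul hb hc, by rw [mul_smul_comm, mul_assoc]⟩

theorem Sr_of {Y x b : EW O k l ι} (hx : x ∈ Sr r (1 : EW O k l ι)) (hb : b ∈ FR k l ι r 0) :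
    x * (b * Y) ∈ Sr r Y := by
  obtain ⟨c, hc, rfl⟩ := hx
  exact ⟨c * b, FR0_mul hc hb, by rw [mul_one, smul_mul_assoc, mul_assoc]⟩

theorem comm_fix {α β : Type} (s : Perm β) (κ : α ↪ β) (hs : ∀ x, s (κ x) = κ x) (σ : Perm α) :
    Commute (g (σ.viaEmbedding κ)) (g s) := by
  unfold Commute SemiconjBy
  rw [← H4.g_mul, ← H4.g_mul]
  congr 1
  ext z
  simp only [Perm.mul_apply]
  by_cases hz : z ∈ Set.range κ
  · obtain ⟨x, rfl⟩ := hz
    rw [hs, Perm.viaEmbedding_apply, hs]
  · have h1 : s z ∉ Set.range κ := by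
      rintro ⟨x, hx⟩
      apply hz
      refine ⟨x, ?_⟩
      apply s.injective
      rw [hs, hx]
    rw [Perm.viaEmbedding_apply_of_notMem _ _ _ hz, Perm.viaEmbedding_apply_of_notMem _ _ _ h1]

theorem zz_comm_AS (s : Finset (Fin (JJ m + 1))) : Commute (zz : P (I0 m V Wd)) (AS s) := by
  unfold zz AS H4.AK
  refine H4.commute_of_g _ (fun σ => ?_) _
  refine Commute.sum_right _ _ _ fun t ht => ?_
  refine Commute.smul_right ?_ _
  refine comm_fix t _ (fun x => ?_) σ
  rw [Finset.mem_filter] at ht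
  refine ht.2.2 _ ?_
  rw [Finset.mem_map]
  rintro ⟨b, -, hb⟩
  simp [col] at hb

theorem zz_comm_bw (y : P (Wd.Y ⊕ Fin (JJ m + 1))) : Commute (zz : P (I0 m V Wd)) (bw y) :=
  H4.commute_emb_emb _ _ (fun x y h => by simp at h) _ _

theorem map_fix {π : Perm ι} {S : Finset ι} (h : ∀ x ∈ S, π x = x) : S.map π.toEmbedding = S := by
  ext x
  rw [Finset.mem_map]
  constructor
  · rintro ⟨y, hy, rfl⟩
    rw [Equiv.coe_toEmbedding, h y hy]
    exact hy
  · intro hx
    exact ⟨x, hx, h x hx⟩

theorem zz_comm_ds (e : I0 m V Wd ↪ ι) (s : Finset (Fin (JJ m + 1))) :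
    Commute (pf O k l ι (emb e zz)) (ds r ((P0 s).map e)) := by
  unfold zz
  refine H4.P_induction (p := fun y => Commute (pf O k l ι (emb e
    (emb (Function.Embedding.inr : V.X ↪ I0 m V Wd) y))) (ds r ((P0 s).map e))) V.z ?_ ?_ ?_
  · intro σ
    rw [H4.emb_g, H4.emb_g]
    unfold Commute SemiconjBy
    rw [pf_ds, map_fix]
    intro x hx
    rw [Finset.mem_map] at hx
    obtain ⟨y, hy, rfl⟩ := hx
    rw [P0, Finset.mem_map] at hy
    obtain ⟨b, -, rfl⟩ := hy
    rw [Perm.viaEmbedding_apply, Perm.viaEmbedding_apply_of_notMem]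
    rintro ⟨x, hx⟩
    exact absurd hx (by change (Sum.inr x : I0 m V Wd) ≠ Sum.inl _; simp)
  · intro a b ha hb
    rw [map_add, map_add, map_add]
    exact Commute.add_left ha hb
  · intro n a ha
    rw [H4.emb_zsmul, H4.emb_zsmul, map_zsmul]
    exact Commute.smul_left ha n

theorem zz_Om (hm : k + l = m + 1) (e : I0 m V Wd ↪ ι) :
    ∃ c : ℤ, pf O k l ι (emb e zz) * Om O k l e = (2 * c + 1) • Om O k l e := by
  obtain ⟨c, hz⟩ := V.hzz
  refine ⟨c, ?_⟩
  have h1 : Kill (Lt k l) (V.z * V.z - (2 * c + 1) • V.z) :=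
    kill_card (L' := Fin (m + 1)) (by simp [hm]) hz
  have h2 := pa_zero (R := O) (kill_emb e (kill_emb (Function.Embedding.inr : V.X ↪ I0 m V Wd) h1))
  have h3 : pf O k l ι (emb e zz) * pf O k l ι (emb e (zz : P (I0 m V Wd))) =
      (2 * c + 1) • pf O k l ι (emb e zz) := by
    rw [map_sub, map_sub, map_sub, map_mul, map_mul, map_mul, H4.emb_zsmul, H4.emb_zsmul, map_zsmul,
      sub_eq_zero] at h2
    exact h2
  have h4 : (zz : P (I0 m V Wd)) * ww = ww * zz := (zz_comm_bw _).eq
  have h5 : (zz : P (I0 m V Wd)) * (AS univ * ww * zz) = AS univ * ww * (zz * zz) := by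
    rw [← mul_assoc, ← mul_assoc, (zz_comm_AS (univ : Finset (Fin (JJ m + 1)))).eq,
      mul_assoc _ zz ww, h4, ← mul_assoc, mul_assoc _ zz zz]
  unfold Om Om0
  rw [← map_mul, ← map_mul, h5, map_mul, map_mul, map_mul (emb e) zz, map_mul (pf O k l ι) (emb e zz),
    h3, mul_smul_comm, ← map_mul, ← map_mul]

theorem emb_fa (a : Fin (JJ m)) :
    (fa a : P (I0 m V Wd)) = emb (vE a) (g (swap (Sum.inr 0) (Sum.inr 1))) := by
  rw [H4.emb_g, fa]
  congr 1
  have h0 : (p0 a.castSucc : I0 m V Wd) = vE a (Sum.inr 0) := rfl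
  have h1 : (p0 a.succ : I0 m V Wd) = vE a (Sum.inr 1) := rfl
  rw [h0, h1]
  ext z
  by_cases hz : z ∈ Set.range (vE a : V.X ⊕ Fin 2 ↪ I0 m V Wd)
  · obtain ⟨x, rfl⟩ := hz
    rw [Perm.viaEmbedding_apply]
    by_cases hx0 : x = Sum.inr 0
    · subst hx0; rw [swap_apply_left, swap_apply_left]
    · by_cases hx1 : x = Sum.inr 1
      · subst hx1; rw [swap_apply_right, swap_apply_right]
      · rw [swap_apply_of_ne_of_ne hx0 hx1, swap_apply_of_ne_of_ne]
        · exact fun h => hx0 ((vE a).injective h)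
        · exact fun h => hx1 ((vE a).injective h)
  · rw [Perm.viaEmbedding_apply_of_notMem _ _ _ hz, swap_apply_of_ne_of_ne]
    · rintro rfl; exact hz ⟨_, rfl⟩
    · rintro rfl; exact hz ⟨_, rfl⟩

theorem r8_ds_split (e : I0 m V Wd ↪ ι) (s : Finset (Fin (JJ m + 1))) :
    (ds r ((P0 univ).map e) : EW O k l ι) =
      ds r ((P0 s).map e) * ds r ((P0 (univ \ s)).map e) := by
  have h1 : (P0 s).map e ∩ (P0 (univ \ s)).map e = ∅ := by
    unfold P0
    rw [← Finset.map_inter, ← Finset.map_inter, Finset.inter_sdiff_self, Finset.map_empty,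
      Finset.map_empty]
  have h2 : (P0 s).map e ∪ (P0 (univ \ s)).map e = (P0 univ).map e := by
    unfold P0
    rw [← Finset.map_union, ← Finset.map_union, Finset.union_sdiff_of_subset (Finset.subset_univ s)]
  rw [ds_mul, h1, h2, Finset.card_empty, pow_zero, one_smul]

theorem ds_mem0 (S : Finset ι) : (ds r S : EW O k l ι) ∈ FR k l ι r 0 :=
  FR_mono (Nat.zero_le _) (ds_mem S)

theorem J_mem {x : EW O k l ι} (h : ∃ b ∈ FR k l ι r 0, x = r • b) : x ∈ Sr r (1 : EW O k l ι) := by
  obtain ⟨b, hb, rfl⟩ := h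
  exact ⟨b, hb, by rw [mul_one]⟩

theorem fa_Dd (e : I0 m V Wd ↪ ι) (a : Fin (JJ m)) :
    pf O k l ι (emb e (fa a)) * ds r ((P0 {a.castSucc, a.succ}).map e) =
      ds r ((P0 {a.castSucc, a.succ}).map e) * pf O k l ι (emb e (fa a)) := by
  have h : emb e (fa a : P (I0 m V Wd)) = g (swap (e (p0 a.castSucc)) (e (p0 a.succ))) := by
    rw [fa, H4.emb_g]
    congr 1
    ext z
    by_cases hz : z ∈ Set.range e
    · obtain ⟨x, rfl⟩ := hz
      rw [Perm.viaEmbedding_apply]
      by_cases hx0 : x = p0 a.castSucc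
      · subst hx0; rw [swap_apply_left, swap_apply_left]
      · by_cases hx1 : x = p0 a.succ
        · subst hx1; rw [swap_apply_right, swap_apply_right]
        · rw [swap_apply_of_ne_of_ne hx0 hx1, swap_apply_of_ne_of_ne]
          · exact fun h => hx0 (e.injective h)
          · exact fun h => hx1 (e.injective h)
    · rw [Perm.viaEmbedding_apply_of_notMem _ _ _ hz, swap_apply_of_ne_of_ne]
      · rintro rfl; exact hz ⟨_, rfl⟩
      · rintro rfl; exact hz ⟨_, rfl⟩
  rw [h, pf_ds]
  congr 2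
  have hP : (P0 {a.castSucc, a.succ} : Finset (I0 m V Wd)).map e
      = {e (p0 a.castSucc), e (p0 a.succ)} := by
    unfold P0
    rw [Finset.map_insert, Finset.map_singleton, Finset.map_insert, Finset.map_singleton]
    rfl
  rw [hP, Finset.map_insert, Finset.map_singleton, Equiv.coe_toEmbedding, swap_apply_left,
    swap_apply_right, Finset.pair_comm]

/-- ROW R8: the case of one pair. -/
theorem red_pair (hr : r * r = 2) (hm : k + l = m + 1) (e : I0 m V Wd ↪ ι) (a : Fin (JJ m)) :
    ∃ b ∈ FR k l ι r 0,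
      pf O k l ι (emb e (bw (Wd.rho a))) * (ds r ((P0 univ).map e) * Om O k l e) -
        pf O k l ι (emb e (bw (Wd.rho a))) *
          (pf O k l ι (emb e (emb (vE a) V.e1)) * ds r ((P0 {a.castSucc, a.succ}).map e) *
            pf O k l ι (emb e (emb (vE a) V.e1))) *
              (ds r ((P0 (univ \ {a.castSucc, a.succ})).map e) * Om O k l e) =
      r • (b * Om O k l e) := by
  rw [← mem_Sr]
  set Y := Om O k l e with hY
  set R' := pf O k l ι (emb e (bw (Wd.rho a))) with hR'
  set Dd : EW O k l ι := ds r ((P0 {a.castSucc, a.succ}).map e) with hDd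
  set D2 : EW O k l ι := ds r ((P0 (univ \ {a.castSucc, a.succ})).map e) with hD2
  set E1 := pf O k l ι (emb e (emb (vE a) V.e1)) with hE1
  set E0 := pf O k l ι (emb e (emb (vE a) V.e0)) with hE0
  set T := pf O k l ι (emb e (emb (vE a) V.th)) with hT
  set F := pf O k l ι (emb e (fa a)) with hF
  set Ta := pf O k l ι (emb e (tau a)) with hTa
  set Q := pf O k l ι (emb e zz) with hQ
  have htc := fun y => tau_comm (V := V) (Wd := Wd) a y
  have hB0 : ∀ y : P ι, pf O k l ι y ∈ FR k l ι r 0 := fun y => pf_mem y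
  have hDdm : Dd ∈ FR k l ι r 0 := ds_mem0 _
  have hD2m : D2 ∈ FR k l ι r 0 := ds_mem0 _
  have K : ∀ y : P (V.X ⊕ Fin 2), K2 (Fin (m + 1)) y →
      pf O k l ι (emb e (emb (vE a) y)) ∈ Sr r (1 : EW O k l ι) := fun y hy => by
    rw [H4.emb_trans]
    exact J_mem (pf_K2 hr hm _ hy)
  have hcomm : ∀ y : P (V.X ⊕ Fin 2), Commute Ta (pf O k l ι (emb e (emb (vE a) y))) := fun y =>
    ((htc y).1.map (emb e)).map (pf O k l ι)
  have hFe : F = pf O k l ι (emb e (emb (vE a) (g (swap (Sum.inr 0) (Sum.inr 1))))) := by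
    rw [hF, emb_fa]
  -- the abstract computation
  have key := red_abs (FRs O k l ι r) (Sr r Y) (Sr r (1 : EW O k l ι))
    (ρ := R') (f := F) (τ := Ta) (E1 := E1) (E0 := E0) (T := T) (Dd := Dd) (Z := D2 * Y)
    (by
      intro j hj b hb
      rw [mem_FRs] at hb
      refine ⟨Sr_mul hb hj, ?_⟩
      obtain ⟨c, hc, rfl⟩ := hj
      exact ⟨c * b, FR0_mul hc hb, by rw [mul_one, mul_one, smul_mul_assoc]⟩)
    (by
      intro b hb
      rw [mem_FRs] at hb
      refine ⟨r • b, Submodule.smul_mem _ _ hb, ?_⟩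
      rw [mul_one, smul_smul, hr, two_smul])
    (mem_FRs.2 (hB0 _)) (mem_FRs.2 (hB0 _)) (mem_FRs.2 (hB0 _)) (mem_FRs.2 (hB0 _))
    (mem_FRs.2 (hB0 _)) (mem_FRs.2 (hB0 _)) (mem_FRs.2 hDdm)
    (fun j hj => Sr_of hj hD2m)
    (by
      have h := K _ V.hfe
      rwa [map_sub, map_mul, map_sub, map_mul, map_sub, map_mul, ← hFe] at h)
    (by
      have h := K _ V.hef
      rwa [map_sub, map_mul, map_sub, map_mul, map_sub, map_mul, ← hFe] at h)
    (by
      have h := K _ V.hth
      rwa [map_sub, map_sub, map_mul, map_mul, map_sub, map_sub, map_mul, map_mul, map_sub, map_sub,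
        map_mul, map_mul, ← hFe] at h)
    (by
      rw [hF, ← map_mul, ← map_mul, (htc 0).2.2.1, map_one, map_one])
    (fa_Dd e a)
    (by
      rw [hFe]
      exact hcomm _)
    (hcomm _) (hcomm _) (hcomm _)
    (tau_ds e a _).1
    (by
      have h1 : F * Ta = pf O k l ι (emb e (ba a)) := by
        rw [hF, hTa, ← map_mul, ← map_mul, tau, ← mul_assoc, (htc 0).2.2.1, one_mul]
      rw [h1, hR', ← map_mul, ← map_mul, ← map_sub, ← map_sub]
      have h2 : bw (Wd.rho a) * ba a - bw (Wd.rho a) = (bw (Wd.rho a *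
          g (swap (Sum.inr a.castSucc) (Sum.inr a.succ)) - Wd.rho a) : P (I0 m V Wd)) := by
        unfold ba bw
        rw [← map_mul, ← map_mul, ← map_sub, ← map_sub]
      rw [h2]
      exact J_mem (pf_bw_K2 hr hm e (Wd.hrs a)))
    (by
      have h1 : F * Y = Ta * Y := by
        have h2 : Y = pf O k l ι (emb e (AS univ)) * pf O k l ι (emb e (ww * zz)) := by
          rw [hY, Om, Om0, ← map_mul, ← map_mul, mul_assoc]
        have h3 : Ta * pf O k l ι (emb e (AS univ)) = F * pf O k l ι (emb e (AS univ)) := by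
          rw [hTa, tau, map_mul, map_mul, mul_assoc, ← map_mul (pf O k l ι) (emb e (ba a)),
            ← map_mul (emb e) (ba a), ba_AS hm]
        rw [h2, ← mul_assoc, ← mul_assoc, h3]
      have h2 := (tau_ds (O := O) (k := k) (l := l) (r := r) e a (univ \ {a.castSucc, a.succ})).1
      have h3 := (tau_ds (O := O) (k := k) (l := l) (r := r) e a (univ \ {a.castSucc, a.succ})).2
        (by simp) (by simp)
      rw [← mul_assoc, h3.eq, mul_assoc, h1, ← mul_assoc, ← h2.eq, mul_assoc])
  -- the idempotent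
  obtain ⟨c, hQY⟩ := zz_Om (O := O) (k := k) (l := l) hm e
  obtain ⟨h, hh⟩ : ∃ h : ℤ, h = 2 * c + 1 := ⟨_, rfl⟩
  rw [← hh] at hQY
  have hQE : Q - (E1 + E0) ∈ Sr r (1 : EW O k l ι) := by
    have h1 := K _ V.hsum
    have h2 : (zz : P (I0 m V Wd)) = emb (vE a) (emb Function.Embedding.inl V.z) := by
      rw [H4.emb_trans]
      rfl
    rw [map_sub, map_sub, map_sub, map_sub, map_sub, map_sub, ← h2, ← hQ, sub_sub] at h1
    exact h1
  have hQD : Q * Dd = Dd * Q := (zz_comm_ds e _).eq
  have hQD2 : Q * D2 = D2 * Q := (zz_comm_ds e _).eq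
  have hQZ : Q * (D2 * Y) = h • (D2 * Y) := by
    rw [← mul_assoc, hQD2, mul_assoc, hQY, mul_smul_comm]
  have hD : (ds r ((P0 univ).map e) : EW O k l ι) * Y = Dd * (D2 * Y) := by
    rw [r8_ds_split e {a.castSucc, a.succ}, mul_assoc]
  rw [hD]
  set j0 := Q - (E1 + E0) with hj0
  have hE : E1 + E0 = Q - j0 := by rw [hj0]; abel
  rw [hE] at key
  have hRm : R' ∈ FR k l ι r 0 := hB0 _
  have hQm : Q ∈ FR k l ι r 0 := hB0 _
  have hj : ∀ b ∈ FR k l ι r 0, j0 * (b * Y) ∈ Sr r Y := fun b hb => Sr_of hQE hb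
  have hRQ : R' * ((Q - j0) * Dd * (Q - j0)) * (D2 * Y) =
      (h * h) • (R' * (Dd * (D2 * Y))) - h • (R' * (j0 * (Dd * (D2 * Y))))
        - R' * (Q * (Dd * (j0 * (D2 * Y)))) + R' * (j0 * (Dd * (j0 * (D2 * Y)))) := by
    have e1 : (Q - j0) * (D2 * Y) = h • (D2 * Y) - j0 * (D2 * Y) := by
      rw [sub_mul, hQZ]
    have e2 : Q * (Dd * (D2 * Y)) = h • (Dd * (D2 * Y)) := by
      rw [← mul_assoc, hQD, mul_assoc, hQZ, mul_smul_comm]
    rw [mul_assoc, mul_assoc _ (Q - j0), e1, mul_assoc, mul_sub Dd, mul_smul_comm, sub_mul,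
      mul_sub Q, mul_smul_comm, e2, smul_smul, mul_sub j0, mul_smul_comm, mul_sub, mul_sub, mul_sub,
      mul_smul_comm, mul_smul_comm]
    abel
  have hodd : ∃ u : ℤ, h * h - 1 = u * 2 := by
    exact ⟨2 * c * (c + 1), by rw [hh]; ring⟩
  obtain ⟨u, hu⟩ := hodd
  have hmain : R' * (Dd * (D2 * Y)) - R' * ((Q - j0) * Dd * (Q - j0)) * (D2 * Y) ∈ Sr r Y := by
    rw [hRQ]
    have t1 : (h * h - 1) • (R' * (Dd * (D2 * Y))) ∈ Sr r Y := by
      rw [hu, mul_smul]
      refine AddSubgroup.zsmul_mem _ ?_ _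
      refine ⟨r • (R' * (Dd * D2)), Submodule.smul_mem _ _ (FR0_mul hRm (FR0_mul hDdm hD2m)), ?_⟩
      rw [smul_mul_assoc, smul_smul, hr]
      rw [mul_assoc, mul_assoc]
      rw [two_smul, two_smul]
    have t2 : R' * (j0 * (Dd * (D2 * Y))) ∈ Sr r Y := by
      refine Sr_mul hRm ?_
      rw [← mul_assoc Dd]
      exact hj _ (FR0_mul hDdm hD2m)
    have t3 : R' * (Q * (Dd * (j0 * (D2 * Y)))) ∈ Sr r Y :=
      Sr_mul hRm (Sr_mul hQm (Sr_mul hDdm (hj _ hD2m)))
    have t4 : R' * (j0 * (Dd * (j0 * (D2 * Y)))) ∈ Sr r Y := by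
      refine Sr_mul hRm ?_
      have h5 := Sr_mul hDdm (hj _ hD2m)
      obtain ⟨c, hc, hc'⟩ := h5
      rw [hc', mul_smul_comm]
      obtain ⟨c', hc1, hc2⟩ := hj c hc
      rw [hc2]
      exact ⟨r • c', Submodule.smul_mem _ _ hc1, by rw [smul_mul_assoc]⟩
    have e3 : R' * (Dd * (D2 * Y)) - ((h * h) • (R' * (Dd * (D2 * Y))) -
        h • (R' * (j0 * (Dd * (D2 * Y)))) - R' * (Q * (Dd * (j0 * (D2 * Y)))) +
          R' * (j0 * (Dd * (j0 * (D2 * Y))))) =
        -((h * h - 1) • (R' * (Dd * (D2 * Y)))) + h • (R' * (j0 * (Dd * (D2 * Y))))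
          + R' * (Q * (Dd * (j0 * (D2 * Y)))) - R' * (j0 * (Dd * (j0 * (D2 * Y)))) := by
      rw [sub_smul, one_smul]
      abel
    rw [e3]
    exact AddSubgroup.sub_mem _ (AddSubgroup.add_mem _ (AddSubgroup.add_mem _
      (AddSubgroup.neg_mem _ t1) (AddSubgroup.zsmul_mem _ t2 _)) t3) t4
  have hfin := AddSubgroup.add_mem _ hmain key
  have e4 : R' * (Dd * (D2 * Y)) - R' * ((Q - j0) * Dd * (Q - j0)) * (D2 * Y) +
      (R' * ((Q - j0) * Dd * (Q - j0)) * (D2 * Y) - R' * (E1 * Dd * E1) * (D2 * Y)) =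
      R' * (Dd * (D2 * Y)) - R' * (E1 * Dd * E1) * (D2 * Y) := by abel
  rw [e4] at hfin
  exact hfin

end R

end Pool.PI34.EX

end

/-! ### part EX_R9 -/
section

set_option autoImplicit false
set_option linter.unusedSectionVars false
set_option linter.unusedDecidableInType false
set_option linter.unusedFintypeInType false

namespace Pool.PI34.EX

open Equiv Finset
open Pool.PI34.Super (Lt odd pv prs)
open Pool.PI34.SK (W comp ins)
open Pool.PI34.H4 (P g emb As AK)

section R

variable {O : Type} [CommRing O] {k l m : ℕ} {ι : Type} [Fintype ι] [LinearOrder ι] {r : O}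
variable {V : VD (m + 1)} {Wd : WD ((m + 1) ^ (m + 1))}



/-! ### Row R9 -/

/-- The places of the element `w`. -/
def kw : Wd.Y × Fin (m + 1) ↪ I0 m V Wd :=
  ⟨fun x => Sum.inl (Sum.inl x.1, x.2), fun x y h => by
    have h1 : ((Sum.inl x.1, x.2) : (Wd.Y ⊕ Fin (JJ m + 1)) × Fin (m + 1)) =
        (Sum.inl y.1, y.2) := Sum.inl_injective h
    have h2 : x.1 = y.1 := Sum.inl_injective (Prod.mk.inj h1).1
    have h3 : x.2 = y.2 := (Prod.mk.inj h1).2
    exact Prod.ext h2 h3⟩

theorem kw_ne (x : Wd.Y × Fin (m + 1)) (b : Fin (JJ m + 1)) (i : Fin (m + 1)) :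
    (kw x : I0 m V Wd) ≠ Sum.inl (Sum.inr b, i) := by
  intro h
  have h1 := congrArg Prod.fst (Sum.inl_injective h)
  simp at h1

theorem bw_emb_g (σ : Perm Wd.Y) :
    (bw (emb Function.Embedding.inl (g σ)) : P (I0 m V Wd)) = emb kw (bl (m + 1) (g σ)) := by
  have hb : ∀ {β : Type} (τ : Perm β), (bl (m + 1) (g τ) : P (β × Fin (m + 1))) =
      g (τ.prodCongr (Equiv.refl _)) := by
    intro β τ
    exact bl_g (m + 1) τ
  unfold bw
  rw [H4.emb_g, hb, H4.emb_g, hb, H4.emb_g]
  congr 1
  ext z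
  rcases z with ⟨y | b, i⟩ | x
  · have h1 : (Sum.inl (Sum.inl y, i) : I0 m V Wd) = Function.Embedding.inl (Sum.inl y, i) := rfl
    have h2 : (Sum.inl (Sum.inl y, i) : I0 m V Wd) = kw (y, i) := rfl
    conv_lhs => rw [h1, Perm.viaEmbedding_apply]
    conv_rhs => rw [h2, Perm.viaEmbedding_apply]
    change (Sum.inl ((σ.viaEmbedding Function.Embedding.inl) (Sum.inl y), i) : I0 m V Wd) =
      Sum.inl (Sum.inl (σ y), i)
    have h3 : (σ.viaEmbedding (Function.Embedding.inl : Wd.Y ↪ Wd.Y ⊕ Fin (JJ m + 1)))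
        (Function.Embedding.inl y) = Function.Embedding.inl (σ y) := Perm.viaEmbedding_apply _ _ _
    exact congrArg (fun t => (Sum.inl (t, i) : I0 m V Wd)) h3
  · have h1 : (Sum.inl (Sum.inr b, i) : I0 m V Wd) = Function.Embedding.inl (Sum.inr b, i) := rfl
    conv_lhs => rw [h1, Perm.viaEmbedding_apply]
    have hnot : (Sum.inl (Sum.inr b, i) : I0 m V Wd) ∉
        Set.range (kw : Wd.Y × Fin (m + 1) ↪ I0 m V Wd) := by
      rintro ⟨y, hy⟩
      exact kw_ne y b i hy
    conv_rhs => rw [Perm.viaEmbedding_apply_of_notMem _ _ _ hnot]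
    · have h3 : (σ.viaEmbedding (Function.Embedding.inl : Wd.Y ↪ Wd.Y ⊕ Fin (JJ m + 1)))
          (Sum.inr b) = Sum.inr b := by
        apply Perm.viaEmbedding_apply_of_notMem
        rintro ⟨y, hy⟩
        exact absurd hy (by simp)
      exact congrArg (fun t => (Sum.inl (t, i) : I0 m V Wd)) h3
  · rw [Perm.viaEmbedding_apply_of_notMem, Perm.viaEmbedding_apply_of_notMem]
    · rintro ⟨y, hy⟩
      exact absurd hy (by change (Sum.inl _ : I0 m V Wd) ≠ Sum.inr x; simp)
    · rintro ⟨y, hy⟩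
      exact absurd hy (by change (Sum.inl y : I0 m V Wd) ≠ Sum.inr x; simp)

theorem bw_emb (y : P Wd.Y) :
    (bw (emb Function.Embedding.inl y) : P (I0 m V Wd)) = emb kw (bl (m + 1) y) := by
  refine H4.P_induction (p := fun y => (bw (emb Function.Embedding.inl y) : P (I0 m V Wd)) =
    emb kw (bl (m + 1) y)) y (fun σ => bw_emb_g σ) ?_ ?_
  · intro a b ha hb
    have h1 : (bw (emb Function.Embedding.inl (a + b)) : P (I0 m V Wd)) =
        bw (emb Function.Embedding.inl a) + bw (emb Function.Embedding.inl b) := by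
      unfold bw
      rw [map_add, map_add, map_add]
    rw [h1, ha, hb, map_add, map_add]
  · intro n a ha
    have h1 : (bw (emb Function.Embedding.inl (n • a)) : P (I0 m V Wd)) =
        n • bw (emb Function.Embedding.inl a) := by
      unfold bw
      rw [map_zsmul, map_zsmul, map_zsmul]
    rw [h1, ha, map_zsmul, map_zsmul]

theorem r9_ww_eq : (ww : P (I0 m V Wd)) = emb kw (bl (m + 1) Wd.w) := bw_emb _

theorem comm_fix9 {α β : Type} (s : Perm β) (κ : α ↪ β) (hs : ∀ x, s (κ x) = κ x) (σ : Perm α) :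
    Commute (g (σ.viaEmbedding κ)) (g s) := by
  unfold Commute SemiconjBy
  rw [← H4.g_mul, ← H4.g_mul]
  congr 1
  ext z
  simp only [Perm.mul_apply]
  by_cases hz : z ∈ Set.range κ
  · obtain ⟨x, rfl⟩ := hz
    rw [hs, Perm.viaEmbedding_apply, hs]
  · have h1 : s z ∉ Set.range κ := by
      rintro ⟨x, hx⟩
      apply hz
      refine ⟨x, ?_⟩
      apply s.injective
      rw [hs, hx]
    rw [Perm.viaEmbedding_apply_of_notMem _ _ _ hz, Perm.viaEmbedding_apply_of_notMem _ _ _ h1]

theorem ww_comm_AS (s : Finset (Fin (JJ m + 1))) : Commute (ww : P (I0 m V Wd)) (AS s) := by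
  rw [r9_ww_eq]
  unfold AS H4.AK
  refine H4.commute_of_g _ (fun σ => ?_) _
  refine Commute.sum_right _ _ _ fun t ht => ?_
  refine Commute.smul_right ?_ _
  refine comm_fix9 t _ (fun x => ?_) σ
  rw [Finset.mem_filter] at ht
  refine ht.2.2 _ ?_
  rw [Finset.mem_map]
  rintro ⟨b, -, hb⟩
  simp [col, kw] at hb

theorem map_fix9 {π : Perm ι} {S : Finset ι} (h : ∀ x ∈ S, π x = x) :
    S.map π.toEmbedding = S := by
  ext x
  rw [Finset.mem_map]
  constructor
  · rintro ⟨y, hy, rfl⟩
    rw [Equiv.coe_toEmbedding, h y hy]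
    exact hy
  · intro hx
    exact ⟨x, hx, h x hx⟩

theorem ww_comm_ds (e : I0 m V Wd ↪ ι) (s : Finset (Fin (JJ m + 1))) :
    Commute (pf O k l ι (emb e ww)) (ds r ((P0 s).map e)) := by
  rw [r9_ww_eq]
  refine H4.P_induction (p := fun y => Commute (pf O k l ι (emb e
    (emb (kw : Wd.Y × Fin (m + 1) ↪ I0 m V Wd) y))) (ds r ((P0 s).map e))) (bl (m + 1) Wd.w)
      ?_ ?_ ?_
  · intro σ
    rw [H4.emb_g, H4.emb_g]
    unfold Commute SemiconjBy
    rw [pf_ds, map_fix9]
    intro x hx
    rw [Finset.mem_map] at hx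
    obtain ⟨y, hy, rfl⟩ := hx
    rw [P0, Finset.mem_map] at hy
    obtain ⟨b, -, rfl⟩ := hy
    rw [Perm.viaEmbedding_apply, Perm.viaEmbedding_apply_of_notMem]
    rintro ⟨x, hx⟩
    exact kw_ne x b 0 hx
  · intro a b ha hb
    rw [map_add, map_add, map_add]
    exact Commute.add_left ha hb
  · intro n a ha
    rw [H4.emb_zsmul, H4.emb_zsmul, map_zsmul]
    exact Commute.smul_left ha n

theorem ww_Om (hm : k + l = m + 1) (e : I0 m V Wd ↪ ι) :
    ∃ c : ℤ, pf O k l ι (emb e ww) * Om O k l e = (2 * c + 1) • Om O k l e := by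
  obtain ⟨c, hc⟩ := Wd.hww
  refine ⟨c, ?_⟩
  -- the killed part
  have h0 : pf O k l ι (emb e (emb (kw : Wd.Y × Fin (m + 1) ↪ I0 m V Wd)
      (bl (m + 1) (Wd.w * Wd.w - (2 * c + 1) • Wd.w)))) = 0 := by
    rw [H4.emb_trans]
    apply pa_zero
    apply kill_emb
    rw [kill_bl]
    refine kill_card ?_ hc
    rw [Fintype.card_fin, Fintype.card_fun, Fintype.card_fin, Fintype.card_sum, Fintype.card_fin,
      Fintype.card_fin, hm]
  have h1 : pf O k l ι (emb e (ww * ww)) = (2 * c + 1) • pf O k l ι (emb e (ww : P (I0 m V Wd))) := by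
    rw [map_sub, map_mul, map_zsmul, map_sub, map_mul, map_zsmul, map_sub, map_zsmul, map_sub,
      map_zsmul, ← r9_ww_eq, sub_eq_zero] at h0
    exact h0
  unfold Om Om0
  rw [← map_mul, ← map_mul, ← mul_assoc, ← mul_assoc,
    (ww_comm_AS (univ : Finset (Fin (JJ m + 1)))).eq, mul_assoc (AS univ) ww ww]
  simp only [map_mul] at h1 ⊢
  rw [h1]
  rw [mul_smul_comm, smul_mul_assoc]

/-- ROW R9: the second layer. -/
theorem red_sum (hr : r * r = 2) (hm : k + l = m + 1) (e : I0 m V Wd ↪ ι) :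
    ∃ b ∈ FR k l ι r 0,
      ds r ((P0 univ).map e) * Om O k l e -
        ∑ a, pf O k l ι (emb e (bw (Wd.rho a))) * (ds r ((P0 univ).map e) * Om O k l e) =
      r • (b * Om O k l e) := by
  obtain ⟨c, hc⟩ := ww_Om (O := O) (k := k) (l := l) hm e
  obtain ⟨x, hx, hx'⟩ := pf_bw_K2 (O := O) (k := k) (l := l) hr hm e Wd.hsum
  have h1 : (bw (emb Function.Embedding.inl Wd.w - ∑ a, Wd.rho a) : P (I0 m V Wd)) =
      ww - ∑ a, bw (Wd.rho a) := by
    unfold ww bw
    rw [map_sub, map_sum, map_sub, map_sum]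
  rw [h1, map_sub, map_sum, map_sub, map_sum] at hx'
  have hds : (ds r ((P0 univ).map e) : EW O k l ι) ∈ FR k l ι r 0 :=
    FR_mono (Nat.zero_le _) (ds_mem _)
  refine ⟨x * ds r ((P0 univ).map e) - (c • r) • ds r ((P0 univ).map e), ?_, ?_⟩
  · apply Submodule.sub_mem
    · have h2 := FR_mul hx hds
      rwa [Nat.add_zero] at h2
    · exact Submodule.smul_mem _ _ hds
  · have h3 : ∑ a, pf O k l ι (emb e (bw (Wd.rho a))) * (ds r ((P0 univ).map e) * Om O k l e) =
        (pf O k l ι (emb e ww) - r • x) * (ds r ((P0 univ).map e) * Om O k l e) := by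
      rw [← Finset.sum_mul, ← hx', sub_sub_cancel]
    have h4 : pf O k l ι (emb e ww) * (ds r ((P0 univ).map e) * Om O k l e) =
        (2 * c + 1) • (ds r ((P0 univ).map e) * Om O k l e) := by
      rw [← mul_assoc, (ww_comm_ds e univ).eq, mul_assoc, hc, mul_smul_comm]
    rw [h3, sub_mul, h4, sub_mul, smul_sub]
    have h5 : r • (((c • r) • (ds r ((P0 univ).map e) : EW O k l ι)) * Om O k l e) =
        (2 * c) • (ds r ((P0 univ).map e) * Om O k l e) := by
      rw [smul_mul_assoc, smul_smul, mul_smul_comm, hr, mul_comm 2 c, mul_smul, two_smul ℤ,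
        smul_assoc, two_smul O]
    rw [h5, smul_mul_assoc, mul_assoc, add_smul, one_smul]
    abel

end R

end Pool.PI34.EX

end

/-! ### part EX_R12 -/
section

/-!
PI34, block EX (p = 2), rows R12, R13: the reduction.
-/

set_option autoImplicit false
set_option linter.unusedSectionVars false
set_option linter.unusedDecidableInType false
set_option linter.unusedFintypeInType false

namespace Pool.PI34.EX

open Equiv Finset
open Pool.PI34.Super (Lt odd pv prs)
open Pool.PI34.SK (W comp ins)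
open Pool.PI34.H4 (P g emb As AK)


section R

variable {O : Type} [CommRing O] {k l m : ℕ} {ι : Type} [Fintype ι] [LinearOrder ι] {r : O}
variable {V : VD (m + 1)} {Wd : WD ((m + 1) ^ (m + 1))}

theorem sf_mem_zero (hr : r * r = 2) (y : P ι) : sf O k l ι y ∈ FR k l ι r 0 := by
  have h := (FR k l ι r 0).add_mem (FR_mono (Nat.zero_le 2) (sf_sub_pf (O := O) (k := k) (l := l) hr y))
    (pf_mem y)
  rwa [sub_add_cancel] at h

theorem pair_card (a : Fin (JJ m)) : ({a.castSucc, a.succ} : Finset (Fin (JJ m + 1))).card = 2 :=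
  Finset.card_pair Fin.castSucc_lt_succ.ne

theorem EDE_mem (e : I0 m V Wd ↪ ι) (a : Fin (JJ m)) :
    pf O k l ι (emb e (emb (vE a) V.e1)) * ds r ((P0 {a.castSucc, a.succ}).map e) *
      pf O k l ι (emb e (emb (vE a) V.e1)) ∈ FR k l ι r 2 := by
  have hc : ((P0 (V := V) (Wd := Wd) {a.castSucc, a.succ}).map e).card = 2 := by
    rw [Finset.card_map, P0, Finset.card_map, pair_card]
  have h1 := ds_mem (O := O) (k := k) (l := l) (r := r) ((P0 (V := V) (Wd := Wd) {a.castSucc, a.succ}).map e)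
  rw [hc] at h1
  have h2 := FR_mul (pf_mem (O := O) (k := k) (l := l) (r := r) (emb e (emb (vE a) V.e1))) h1
  have h3 := FR_mul h2 (pf_mem (O := O) (k := k) (l := l) (r := r) (emb e (emb (vE a) V.e1)))
  simpa using h3

theorem sf_kap_mem (hr : r * r = 2) (hm : k + l = m + 1) (hadj : ∃ x y : ι, x ⋖ y)
    (e : I0 m V Wd ↪ ι) (a : Fin (JJ m)) : sf O k l ι (emb e (kap a)) ∈ FR k l ι r 2 := by
  have h := (FR k l ι r 2).add_mem
    (FR_mono (show 2 ≤ 4 by norm_num) (kap_spec (O := O) (k := k) (l := l) hr hm hadj e a)) (EDE_mem e a)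
  rwa [sub_add_cancel] at h

/-- ROW R13. -/
theorem ta_mem (hr : r * r = 2) (hm : k + l = m + 1) (hadj : ∃ x y : ι, x ⋖ y)
    (e : I0 m V Wd ↪ ι) (a : Fin (JJ m)) : sf O k l ι (emb e (ta a)) ∈ FR k l ι r 2 := by
  have h : emb e (ta (V := V) (Wd := Wd) a) = emb e (bw (Wd.rho a)) * emb e (kap a) := map_mul _ _ _
  rw [h, map_mul]
  have h1 := FR_mul (sf_mem_zero (O := O) (k := k) (l := l) hr (emb e (bw (V := V) (Wd := Wd) (Wd.rho a))))
    (sf_kap_mem (O := O) hr hm hadj e a)
  simpa using h1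

/-- The difference for one pair. -/
theorem ta_sub_mem (hr : r * r = 2) (hm : k + l = m + 1) (hadj : ∃ x y : ι, x ⋖ y)
    (e : I0 m V Wd ↪ ι) (a : Fin (JJ m)) :
    pf O k l ι (emb e (bw (Wd.rho a))) *
          (pf O k l ι (emb e (emb (vE a) V.e1)) * ds r ((P0 {a.castSucc, a.succ}).map e) *
            pf O k l ι (emb e (emb (vE a) V.e1))) - sf O k l ι (emb e (ta a)) ∈ FR k l ι r 4 := by
  have h : emb e (ta (V := V) (Wd := Wd) a) = emb e (bw (Wd.rho a)) * emb e (kap a) := map_mul _ _ _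
  rw [h, map_mul]
  have hk := kap_spec (O := O) (k := k) (l := l) hr hm hadj e a
  have hk2 := sf_kap_mem (O := O) (k := k) (l := l) hr hm hadj e a
  have hs := sf_sub_pf (O := O) (k := k) (l := l) hr (emb e (bw (V := V) (Wd := Wd) (Wd.rho a)))
  have hp := pf_mem (O := O) (k := k) (l := l) (r := r) (emb e (bw (V := V) (Wd := Wd) (Wd.rho a)))
  generalize pf O k l ι (emb e (bw (V := V) (Wd := Wd) (Wd.rho a))) = p at *
  generalize sf O k l ι (emb e (bw (V := V) (Wd := Wd) (Wd.rho a))) = s at *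
  generalize sf O k l ι (emb e (kap (V := V) (Wd := Wd) a)) = κ at *
  generalize pf O k l ι (emb e (emb (vE a) V.e1)) * ds r ((P0 {a.castSucc, a.succ}).map e) *
            pf O k l ι (emb e (emb (vE a) V.e1)) = X at *
  have h1 := FR_mul hp hk
  have h2 := FR_mul hs hk2
  have h1' : p * (κ - X) ∈ FR k l ι r 4 := by simpa using h1
  have h2' : (s - p) * κ ∈ FR k l ι r 4 := h2
  have h3 := (FR k l ι r 4).neg_mem ((FR k l ι r 4).add_mem h1' h2')
  have h4 : p * X - s * κ = -(p * (κ - X) + (s - p) * κ) := by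
    rw [mul_sub, sub_mul]
    abel
  rw [h4]
  exact h3

theorem mem_NF_of {j : ℕ} {Y x : EW O k l ι} (hx : x ∈ FR k l ι r j) : x * Y ∈ NF r j Y :=
  Submodule.mem_map.2 ⟨x, hx, rfl⟩

/-- ROW R12: **the reduction**. -/
theorem red (hr : r * r = 2) (hm : k + l = m + 1) (hadj : ∃ x y : ι, x ⋖ y) (e : I0 m V Wd ↪ ι) :
    ds r ((P0 univ).map e) * Om O k l e -
        ∑ a, sf O k l ι (emb e (ta a)) *
          (ds r ((P0 (univ \ {a.castSucc, a.succ})).map e) * Om O k l e) ∈
      NF r (JJ m + 2) (Om O k l e) := by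
  obtain ⟨b, hb, hbe⟩ := red_sum (O := O) (k := k) (l := l) (V := V) (Wd := Wd) hr hm e
  have key : ∀ a : Fin (JJ m),
      pf O k l ι (emb e (bw (Wd.rho a))) * (ds r ((P0 univ).map e) * Om O k l e) -
        sf O k l ι (emb e (ta a)) *
          (ds r ((P0 (univ \ {a.castSucc, a.succ})).map e) * Om O k l e) ∈
      NF r (JJ m + 2) (Om O k l e) := by
    intro a
    obtain ⟨c, hc, hce⟩ := red_pair (O := O) (k := k) (l := l) (V := V) (Wd := Wd) hr hm e a
    have h1 := ta_sub_mem (O := O) (k := k) (l := l) (V := V) (Wd := Wd) hr hm hadj e a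
    have hcard : ((P0 (V := V) (Wd := Wd) (univ \ {a.castSucc, a.succ})).map e).card = JJ m - 1 := by
      rw [Finset.card_map, P0, Finset.card_map, Finset.card_sdiff_of_subset (Finset.subset_univ _),
        pair_card, Finset.card_univ, Fintype.card_fin]
      rfl
    have h2 := ds_mem (O := O) (k := k) (l := l) (r := r)
      ((P0 (V := V) (Wd := Wd) (univ \ {a.castSucc, a.succ})).map e)
    rw [hcard] at h2
    have h3 := FR_mul h1 h2
    have hJ : JJ m + 2 ≤ 4 + (JJ m - 1) := by omega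
    have h4 := mem_NF_of (Y := Om O k l e) (FR_mono hJ h3)
    have h5 := mem_NF_of (Y := Om O k l e) (r_smul_mem hc (JJ m + 2))
    rw [smul_mul_assoc, ← hce] at h5
    have h6 := (NF r (JJ m + 2) (Om O k l e)).add_mem h5 h4
    refine (congrArg (· ∈ NF r (JJ m + 2) (Om O k l e)) ?_).mp h6
    rw [mul_assoc _ _ (Om O k l e), sub_mul _ _ (_ * Om O k l e)]
    abel
  have h1 := mem_NF_of (Y := Om O k l e) (r_smul_mem hb (JJ m + 2))
  rw [smul_mul_assoc, ← hbe] at h1
  have h2 := (NF r (JJ m + 2) (Om O k l e)).add_mem h1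
    ((NF r (JJ m + 2) (Om O k l e)).sum_mem (t := (univ : Finset (Fin (JJ m)))) fun a _ => key a)
  refine (congrArg (· ∈ NF r (JJ m + 2) (Om O k l e)) ?_).mp h2
  rw [Finset.sum_sub_distrib]
  abel

end R

end Pool.PI34.EX

end

/-! ### part EX_All -/
section

/-! PI34, block EX (p = 2): all rows. -/

end

/-! ### part EX_NE -/
section

/-!
PI34, block EX (p = 2), row NE: the element `Ω` does not act by zero.
-/

set_option autoImplicit false
set_option linter.unusedSectionVars false
set_option linter.unusedDecidableInType false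
set_option linter.unusedFintypeInType false

namespace Pool.PI34.EX

open Equiv Finset
open Pool.PI34.Super (Lt odd pv prs)
open Pool.PI34.H4 (P g emb As AK Ac)

theorem g_coeff {α : Type} [DecidableEq α] (σ τ : Perm α) [Fintype α] :
    (g σ).coeff τ = if τ = σ then 1 else 0 := by
  change (MonoidAlgebra.single σ (1 : ℤ)).coeff τ = _
  rw [MonoidAlgebra.coeff_single, Finsupp.single_apply]
  by_cases h : τ = σ
  · rw [if_pos h, if_pos h.symm]
  · rw [if_neg h, if_neg (fun e => h e.symm)]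

theorem kill_zero_of_inj {L : Type} [Fintype L] [DecidableEq L] {α : Type} [Fintype α]
    [DecidableEq α] {R : Type} [CommRing R] [CharZero R] {y : P α} (h : pa R L α y = 0) :
    Kill L y := by
  rw [kill_iff]
  intro w w'
  have h1 : ∀ y : P α, pa R L α y (Pi.single w 1) w' =
      ((∑ σ : Perm α, (if w' ∘ σ = w then y.coeff σ else 0) : ℤ) : R) := by
    intro y
    refine H4.P_induction (p := fun y => pa R L α y (Pi.single w 1) w' =
      ((∑ σ : Perm α, (if w' ∘ σ = w then y.coeff σ else 0) : ℤ) : R)) y ?_ ?_ ?_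
    · intro σ
      rw [pa_g, Pi.single_apply]
      rw [Finset.sum_eq_single σ]
      · rw [g_coeff, if_pos rfl]
        split_ifs <;> simp
      · intro τ _ hne
        rw [g_coeff, if_neg hne, ite_self]
      · intro h; exact absurd (Finset.mem_univ _) h
    · intro x y hx hy
      rw [map_add, LinearMap.add_apply, Pi.add_apply, hx, hy, ← Int.cast_add,
        ← Finset.sum_add_distrib]
      congr 1
      refine Finset.sum_congr rfl fun σ _ => ?_
      rw [MonoidAlgebra.coeff_add, Finsupp.add_apply]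
      split_ifs <;> simp
    · intro n x hx
      rw [map_zsmul, LinearMap.smul_apply, Pi.smul_apply, hx, zsmul_eq_mul, ← Int.cast_mul,
        Finset.mul_sum]
      congr 1
      refine Finset.sum_congr rfl fun σ _ => ?_
      split_ifs
      · rfl
      · rw [mul_zero]
  have h2 := h1 y
  rw [h] at h2
  have h3 : (0 : R) = ((∑ σ : Perm α, (if w' ∘ σ = w then y.coeff σ else 0) : ℤ) : R) := h2
  exact_mod_cast h3.symm

theorem not_kill_one {L : Type} [Fintype L] [DecidableEq L] : ¬ Kill L (1 : P Empty) := by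
  intro h
  unfold Kill at h
  rw [map_one] at h
  have h1 := congrFun (LinearMap.congr_fun h (fun _ => (1 : ℤ))) (fun x => x.elim)
  simp at h1

theorem not_kill_emb {L : Type} [Fintype L] [DecidableEq L] [Nonempty L] {α β : Type} [Fintype α]
    [DecidableEq α] [Fintype β] [DecidableEq β] (e : α ↪ β) {y : P α} (h : ¬ Kill L y) :
    ¬ Kill L (emb e y) := by
  have h1 := kill_mul (L := L) e (⟨fun x : Empty => x.elim, fun x => x.elim⟩ : Empty ↪ β)
    (fun _ y => y.elim) h not_kill_one
  rwa [map_one, mul_one] at h1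

theorem not_kill_Ac {L : Type} [Fintype L] [DecidableEq L] {m q : ℕ}
    (hL : Fintype.card L = m + 1) :
    ¬ Kill L (Ac (Prod.fst : Fin q × Fin (m + 1) → Fin q)) := by
  intro h
  let u : Fin (m + 1) ≃ L := (Fintype.equivFinOfCardEq hL).symm
  rw [kill_iff] at h
  have h1 := h (fun x => u x.2) (fun x => u x.2)
  have hc : ∀ σ : Perm (Fin q × Fin (m + 1)),
      (Ac (Prod.fst : Fin q × Fin (m + 1) → Fin q)).coeff σ =
        if Prod.fst ∘ σ = (Prod.fst : Fin q × Fin (m + 1) → Fin q) then (Perm.sign σ : ℤ)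
          else 0 := by
    intro σ
    unfold H4.Ac
    rw [MonoidAlgebra.coeff_sum, Finset.sum_apply']
    have h2 : ∀ s : Perm (Fin q × Fin (m + 1)), ((Perm.sign s : ℤ) • g s).coeff σ =
        if s = σ then (Perm.sign σ : ℤ) else 0 := by
      intro s
      rw [MonoidAlgebra.coeff_smul_apply, g_coeff]
      by_cases h3 : s = σ
      · rw [if_pos h3, if_pos h3.symm, h3, smul_eq_mul, mul_one]
      · rw [if_neg h3, if_neg (fun e => h3 e.symm), smul_zero]
    rw [Finset.sum_congr rfl fun s _ => h2 s, Finset.sum_ite_eq']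
    simp only [Finset.mem_filter, Finset.mem_univ, true_and]
  rw [Finset.sum_eq_single (1 : Perm (Fin q × Fin (m + 1)))] at h1
  · have h2 : ((fun x : Fin q × Fin (m + 1) => u x.2) ∘ ⇑(1 : Perm (Fin q × Fin (m + 1)))) =
        fun x => u x.2 := rfl
    have h3 : (Prod.fst ∘ ⇑(1 : Perm (Fin q × Fin (m + 1)))) =
        (Prod.fst : Fin q × Fin (m + 1) → Fin q) := rfl
    rw [if_pos h2, hc, if_pos h3, Perm.sign_one] at h1
    exact one_ne_zero h1
  · intro σ _ hne
    rw [hc]
    split_ifs with h2 h3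
    · exfalso
      apply hne
      ext x
      · rw [show ((σ x).1) = x.1 from congrFun h3 x]; rfl
      · have h4 : u (σ x).2 = u x.2 := congrFun h2 x
        rw [show ((σ x).2) = x.2 from u.injective h4]; rfl
    · rfl
    · rfl
  · intro h; exact absurd (Finset.mem_univ _) h

section

variable {m : ℕ} {V : VD (m + 1)} {Wd : WD ((m + 1) ^ (m + 1))}

/-- The determinant places. -/
def iD : Fin (JJ m + 1) × Fin (m + 1) ↪ I0 m V Wd :=
  ⟨fun x => Sum.inl (Sum.inr x.1, x.2), fun x y h => by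
    have h1 := Sum.inl_injective h
    have h2 := congrArg Prod.fst h1
    have h3 := congrArg Prod.snd h1
    exact Prod.ext (Sum.inr_injective h2) h3⟩

/-- The places of the second layer. -/
def iW : Wd.Y × Fin (m + 1) ↪ I0 m V Wd :=
  ⟨fun x => Sum.inl (Sum.inl x.1, x.2), fun x y h => by
    have h1 := Sum.inl_injective h
    have h2 := congrArg Prod.fst h1
    have h3 := congrArg Prod.snd h1
    exact Prod.ext (Sum.inl_injective h2) h3⟩

/-- A colouring in which the other places have their own colours. -/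
def col' : I0 m V Wd → I0 m V Wd ⊕ Fin (JJ m + 1)
  | Sum.inl (Sum.inr a, _) => Sum.inr a
  | x => Sum.inl x

theorem AS_univ : (AS univ : P (I0 m V Wd)) = emb iD (Ac Prod.fst) := by
  have h1 : (AS univ : P (I0 m V Wd)) = Ac col' := by
    unfold AS H4.AK H4.Ac
    congr 1
    ext s
    simp only [Finset.mem_filter, Finset.mem_univ, true_and]
    constructor
    · rintro ⟨h1, h2⟩
      funext x
      have h3 := congrFun h1 x
      simp only [Function.comp_apply] at h3 ⊢
      rcases x with ⟨y | a, i⟩ | x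
      · rw [h2 (Sum.inl (Sum.inl y, i)) (by simp [col])]
      · rcases h4 : s (Sum.inl (Sum.inr a, i)) with ⟨y' | a', i'⟩ | x'
        · rw [h4] at h3
          simp [col] at h3
        · rw [h4] at h3
          simp only [col, Option.some.injEq] at h3
          rw [h3]
          rfl
        · rw [h4] at h3
          simp [col] at h3
      · rw [h2 (Sum.inr x) (by simp [col])]
    · intro h1
      have h2 : ∀ x, (∀ a, col' x ≠ Sum.inr a) → s x = x := by
        intro x hx
        have h3 := congrFun h1 x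
        simp only [Function.comp_apply] at h3
        rcases x with ⟨y | a, i⟩ | x
        · rcases h4 : s (Sum.inl (Sum.inl y, i)) with ⟨y' | a', i'⟩ | x' <;> rw [h4] at h3 <;>
            simp only [col', Sum.inl.injEq, reduceCtorEq] at h3
          · rw [h3]
        · exact absurd rfl (hx a)
        · rcases h4 : s (Sum.inr x) with ⟨y' | a', i'⟩ | x' <;> rw [h4] at h3 <;>
            simp only [col', Sum.inl.injEq, reduceCtorEq] at h3
          · rw [h3]
      refine ⟨?_, fun x hx => h2 x (fun a ha => hx ?_)⟩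
      · funext x
        have h3 := congrFun h1 x
        simp only [Function.comp_apply] at h3 ⊢
        rcases x with ⟨y | a, i⟩ | x
        · rw [h2 _ (by simp [col'])]
        · rcases h4 : s (Sum.inl (Sum.inr a, i)) with ⟨y' | a', i'⟩ | x'
          · rw [h4] at h3
            simp [col'] at h3
          · rw [h4] at h3
            simp only [col', Sum.inr.injEq] at h3
            rw [h3]
            rfl
          · rw [h4] at h3
            simp [col'] at h3
        · rw [h2 _ (by simp [col'])]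
      · rcases x with ⟨y | a', i⟩ | x
        · simp [col'] at ha
        · simp [col]
        · simp [col'] at ha
  rw [h1]
  refine H4.Ac_emb iD Prod.fst col' ?_ ?_
  · rintro ⟨a, i⟩ ⟨b, j⟩
    constructor
    · intro h
      change (Sum.inr a : I0 m V Wd ⊕ Fin (JJ m + 1)) = Sum.inr b
      rw [show a = b from h]
    · intro h
      exact Sum.inr_injective (show (Sum.inr a : I0 m V Wd ⊕ Fin (JJ m + 1)) = Sum.inr b from h)
  · intro z hz y hy
    rcases z with ⟨z | a, i⟩ | z
    · rcases y with ⟨y | b, j⟩ | y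
      · exact Sum.inl_injective hy
      · simp [col'] at hy
      · exact Sum.inl_injective hy
    · exact absurd ⟨(a, i), rfl⟩ hz
    · rcases y with ⟨y | b, j⟩ | y
      · exact Sum.inl_injective hy
      · simp [col'] at hy
      · exact Sum.inl_injective hy

theorem ww_eq : (ww : P (I0 m V Wd)) = emb iW (bl (m + 1) Wd.w) := by
  unfold ww bw
  refine H4.P_induction (p := fun y => emb Function.Embedding.inl
    (bl (m + 1) (emb Function.Embedding.inl y)) = (emb iW (bl (m + 1) y) : P (I0 m V Wd)))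
    Wd.w ?_ ?_ ?_
  · intro σ
    rw [H4.emb_g, bl_g, H4.emb_g, bl_g, H4.emb_g]
    congr 1
    ext x
    rcases x with ⟨y | a, i⟩ | x
    · have h1 := Perm.viaEmbedding_apply (blHom (m + 1) (Wd.Y ⊕ Fin (JJ m + 1))
        (σ.viaEmbedding Function.Embedding.inl))
        (Function.Embedding.inl : _ ↪ I0 m V Wd) (Sum.inl y, i)
      have h2 := Perm.viaEmbedding_apply (blHom (m + 1) Wd.Y σ) (iW : _ ↪ I0 m V Wd) (y, i)
      have h3 := Perm.viaEmbedding_apply σ
        (Function.Embedding.inl : Wd.Y ↪ Wd.Y ⊕ Fin (JJ m + 1)) y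
      change _ = Sum.inl (Sum.inl (σ y), i) at h2
      change _ = (Sum.inl (σ.viaEmbedding Function.Embedding.inl (Sum.inl y), i) :
        I0 m V Wd) at h1
      change σ.viaEmbedding Function.Embedding.inl (Sum.inl y) = Sum.inl (σ y) at h3
      rw [h3] at h1
      exact h1.trans h2.symm
    · have h1 := Perm.viaEmbedding_apply (blHom (m + 1) (Wd.Y ⊕ Fin (JJ m + 1))
        (σ.viaEmbedding Function.Embedding.inl))
        (Function.Embedding.inl : _ ↪ I0 m V Wd) (Sum.inr a, i)
      have h2 := Perm.viaEmbedding_apply_of_notMem (blHom (m + 1) Wd.Y σ)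
        (iW : _ ↪ I0 m V Wd) (Sum.inl (Sum.inr a, i)) (by
          rintro ⟨z, hz⟩
          have h4 := congrArg Prod.fst (Sum.inl_injective hz)
          exact Sum.inl_ne_inr h4)
      have h3 := Perm.viaEmbedding_apply_of_notMem σ
        (Function.Embedding.inl : Wd.Y ↪ Wd.Y ⊕ Fin (JJ m + 1)) (Sum.inr a) (by
          rintro ⟨z, hz⟩
          exact Sum.inl_ne_inr hz)
      change _ = (Sum.inl (σ.viaEmbedding Function.Embedding.inl (Sum.inr a), i) :
        I0 m V Wd) at h1
      rw [h3] at h1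
      exact h1.trans h2.symm
    · have h1 := Perm.viaEmbedding_apply_of_notMem (blHom (m + 1) (Wd.Y ⊕ Fin (JJ m + 1))
        (σ.viaEmbedding Function.Embedding.inl))
        (Function.Embedding.inl : _ ↪ I0 m V Wd) (Sum.inr x) (by
          rintro ⟨z, hz⟩
          exact Sum.inl_ne_inr hz)
      have h2 := Perm.viaEmbedding_apply_of_notMem (blHom (m + 1) Wd.Y σ)
        (iW : _ ↪ I0 m V Wd) (Sum.inr x) (by
          rintro ⟨z, hz⟩
          exact Sum.inl_ne_inr hz)
      exact h1.trans h2.symm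
  · intro x y hx hy
    simp only [map_add, hx, hy]
  · intro n x hx
    simp only [map_zsmul, hx]

/-- The first two groups of places. -/
def iDW : (Fin (JJ m + 1) × Fin (m + 1)) ⊕ (Wd.Y × Fin (m + 1)) ↪ I0 m V Wd :=
  ⟨Sum.elim iD iW, by
    intro x y h
    rcases x with x | x <;> rcases y with y | y
    · exact congrArg Sum.inl (iD.injective h)
    · have h4 := congrArg Prod.fst (Sum.inl_injective h)
      exact absurd h4.symm Sum.inl_ne_inr
    · have h4 := congrArg Prod.fst (Sum.inl_injective h)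
      exact absurd h4 Sum.inl_ne_inr
    · exact congrArg Sum.inr (iW.injective h)⟩

end

/-- ROW NE: the element `Ω` does not act by zero. -/
theorem Om0_ne {L : Type} [Fintype L] [DecidableEq L] {m : ℕ} (hL : Fintype.card L = m + 1)
    (V : VD (m + 1)) (Wd : WD ((m + 1) ^ (m + 1))) : ¬ Kill L (Om0 m V Wd) := by
  have hne : Nonempty L := Fintype.card_pos_iff.1 (by omega)
  have hz : ¬ Kill L V.z := by
    intro h
    exact V.hne (kill_card (by rw [hL, Fintype.card_fin]) h)
  have hw : ¬ Kill L (bl (m + 1) Wd.w) := by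
    rw [kill_bl]
    intro h
    refine Wd.hne (kill_card ?_ h)
    rw [Fintype.card_fin, Fintype.card_fun, hL, Fintype.card_fin]
  have h1 := kill_mul (L := L)
    (Function.Embedding.inl : _ ↪ (Fin (JJ m + 1) × Fin (m + 1)) ⊕ (Wd.Y × Fin (m + 1)))
    (Function.Embedding.inr : _ ↪ (Fin (JJ m + 1) × Fin (m + 1)) ⊕ (Wd.Y × Fin (m + 1)))
    (fun _ _ => Sum.inl_ne_inr) (not_kill_Ac hL) hw
  have h2 := kill_mul (L := L) (iDW : _ ↪ I0 m V Wd) (Function.Embedding.inr : V.X ↪ I0 m V Wd)
    (fun x y => by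
      rcases x with x | x
      · exact Sum.inl_ne_inr
      · exact Sum.inl_ne_inr) h1 hz
  unfold Om0 zz
  rw [AS_univ, ww_eq]
  rw [map_mul, H4.emb_trans, H4.emb_trans] at h2
  exact h2

end Pool.PI34.EX

end

/-! ### part EX_Main -/
section

/-!
PI34, block EX (p = 2): the induction on the number of the `δ` and Nakayama's lemma.
-/

set_option autoImplicit false
set_option linter.unusedSectionVars false
set_option linter.unusedDecidableInType false
set_option linter.unusedFintypeInType false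

namespace Pool.PI34.EX

open Equiv Finset
open Pool.PI34.Super (Lt odd pv prs)
open Pool.PI34.SK (W comp ins)
open Pool.PI34.H4 (P g emb As AK)

section main

variable {O : Type} [CommRing O] {k l m : ℕ} {d : ℕ} {r : O}
variable {V : VD (m + 1)} {Wd : WD ((m + 1) ^ (m + 1))}

section NF

variable {ι : Type} [Fintype ι] [LinearOrder ι] {Y : EW O k l ι}

theorem mem_NF {j : ℕ} {x : EW O k l ι} : x ∈ NF r j Y ↔ ∃ b ∈ FR k l ι r j, b * Y = x := by
  unfold NF
  rw [Submodule.mem_map]
  rfl

theorem mul_NF {i j : ℕ} {b x : EW O k l ι} (hb : b ∈ FR k l ι r i) (hx : x ∈ NF r j Y) :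
    b * x ∈ NF r (i + j) Y := by
  obtain ⟨c, hc, rfl⟩ := mem_NF.1 hx
  exact mem_NF.2 ⟨b * c, FR_mul hb hc, mul_assoc _ _ _⟩

theorem NF_mono {i j : ℕ} (h : i ≤ j) : NF r j Y ≤ NF r i Y :=
  Submodule.map_mono (FR_mono h)

theorem NF_of {j : ℕ} {b : EW O k l ι} (hb : b ∈ FR k l ι r j) : b * Y ∈ NF r j Y :=
  mem_NF.2 ⟨b, hb, rfl⟩

end NF

/-- The statement of the induction for `j`. -/
def QQ (r : O) (e : I0 m V Wd ↪ Fin d) (j : ℕ) : Prop :=
  ∀ n, NF r j (Om O k l (en e n)) ≤ LL r (Om O k l e) n ⊔ NF r (j + 1) (Om O k l (en e n))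

theorem adj_of (e : I0 m V Wd ↪ Fin d) : ∃ x y : Fin d, x ⋖ y := by
  have h2 : 2 ≤ d := by
    have h1 : Function.Injective (fun b : Fin 2 => e (p0 (if b = 0 then 0 else Fin.last (JJ m)))) := by
      intro a b h
      have h3 := congrArg Prod.fst (Sum.inl_injective (e.injective h))
      have h4 := Sum.inr_injective h3
      have h5 : (0 : Fin (JJ m + 1)) ≠ Fin.last (JJ m) := by
        intro h6
        have h7 := congrArg Fin.val h6
        have h8 : 0 < JJ m := Nat.pow_pos (Nat.succ_pos m)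
        rw [Fin.val_last] at h7
        change 0 = JJ m at h7
        omega
      rcases Fin.exists_fin_two.1 ⟨a, rfl⟩ with rfl | rfl <;>
        rcases Fin.exists_fin_two.1 ⟨b, rfl⟩ with rfl | rfl
      · rfl
      · exact absurd h4 h5
      · exact absurd h4.symm h5
      · rfl
    have := Fintype.card_le_of_injective _ h1
    simpa using this
  refine ⟨⟨0, by omega⟩, ⟨1, by omega⟩, ?_, ?_⟩
  · rw [Fin.lt_def]; exact Nat.zero_lt_one
  · intro c hc hc'
    rw [Fin.lt_def] at hc hc'
    change 0 < c.val at hc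
    change c.val < 1 at hc'
    omega

theorem adj_n (e : I0 m V Wd ↪ Fin d) (n : ℕ) : ∃ x y : Fin (d + n), x ⋖ y := adj_of (en e n)

/-- `pf` and `sf` on the right side of the induction. -/
theorem pf_of_sf (hr : r * r = 2) (e : I0 m V Wd ↪ Fin d) {j n : ℕ} (σ : Perm (Fin (d + n)))
    {x : EW O k l (Fin (d + n))} (hx : x ∈ NF r j (Om O k l (en e n)))
    (h : x ∈ LL r (Om O k l e) n ⊔ NF r (j + 1) (Om O k l (en e n))) :
    pf O k l _ (g σ) * x ∈ LL r (Om O k l e) n ⊔ NF r (j + 1) (Om O k l (en e n)) := by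
  obtain ⟨u, hu, v, hv, huv⟩ := Submodule.mem_sup.1 h
  have h1 : pf O k l _ (g σ) * x = sf O k l _ (g σ) * u + (sf O k l _ (g σ) * v -
      (sf O k l _ (g σ) - pf O k l _ (g σ)) * x) := by
    have h2 : sf O k l _ (g σ) * x = sf O k l _ (g σ) * u + sf O k l _ (g σ) * v := by
      rw [← mul_add, huv]
    rw [sub_mul, h2]
    abel
  rw [h1]
  refine Submodule.add_mem_sup (LL_mul hu _) (Submodule.sub_mem _ ?_ ?_)
  · have h0 : sf O k l _ (g σ) ∈ FR k l _ r 0 := by
      have h3 := Submodule.add_mem _ (FR_mono (Nat.zero_le 2) (sf_sub_pf hr (g σ)))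
        (pf_mem (r := r) (k := k) (l := l) (g σ))
      rwa [sub_add_cancel] at h3
    have h4 := mul_NF h0 hv
    rwa [Nat.zero_add] at h4
  · have h4 := mul_NF (sf_sub_pf hr (g σ)) hx
    exact NF_mono (by omega) h4

theorem P0_card (s : Finset (Fin (JJ m + 1))) : (P0 s : Finset (I0 m V Wd)).card = s.card :=
  Finset.card_map _

theorem ds_union {ι : Type} [Fintype ι] [LinearOrder ι] {S T : Finset ι} (h : Disjoint S T) :
    (ds r (S ∪ T) : EW O k l ι) = ds r S * ds r T := by
  rw [ds_mul, Finset.disjoint_iff_inter_eq_empty.1 h, Finset.card_empty, pow_zero, one_smul]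

/-- The case in which no `δ` is at a place of `Ω`. -/
theorem fresh (hr : r * r = 2) (hm : k + l = m + 1) (e : I0 m V Wd ↪ Fin d) (j n : ℕ)
    (ih : 2 ≤ j → QQ r e (k := k) (l := l) (j - 2)) (S : Finset (Fin (d + n)))
    (hS : ∀ x, en e n x ∉ S) (hj : S.card = j) :
    ds r S * Om O k l (en e n) ∈ LL r (Om O k l e) n ⊔ NF r (j + 1) (Om O k l (en e n)) := by
  by_cases hle : j ≤ JJ m + 1
  · have h1 := absorb (O := O) (r := r) hm (en e n) S ∅ ∅ hS (fun _ => Finset.notMem_empty _)
      (Finset.disjoint_empty_right _) (by rw [hj, Finset.card_empty]; exact hle)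
    have h2 : S ∪ ∅ ∪ (P0 (∅ : Finset (Fin (JJ m + 1)))).map (en e n) = S := by
      rw [P0, Finset.map_empty, Finset.map_empty, Finset.union_empty, Finset.union_empty]
    rw [h2] at h1
    refine Submodule.span_le.2 ?_ h1
    rintro x ⟨σ, v', hv', rfl⟩
    rw [Finset.card_empty, add_zero, hj] at hv'
    rw [Finset.empty_union]
    refine pf_of_sf hr e σ ?_ ?_
    · have h3 := NF_of (Y := Om O k l (en e n)) (ds_mem (r := r) (k := k) (l := l)
        ((P0 v').map (en e n)))
      rwa [Finset.card_map, P0_card, hv'] at h3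
    · exact Submodule.mem_sup_left (LL_ds e n v')
  · push Not at hle
    obtain ⟨T, hT, hTc⟩ := Finset.exists_subset_card_eq (s := S) (n := JJ m + 1) (by omega)
    have hd : Disjoint T (S \ T) := Finset.disjoint_sdiff
    have hc := Finset.card_sdiff_of_subset hT
    have h1 := absorb (O := O) (r := r) hm (en e n) T (S \ T) ∅ (fun x hx => hS x (hT hx))
      (fun x hx => hS x (Finset.sdiff_subset hx)) hd
      (by rw [hTc, Finset.card_empty])
    have h2 : T ∪ (S \ T) ∪ (P0 (∅ : Finset (Fin (JJ m + 1)))).map (en e n) = S := by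
      rw [P0, Finset.map_empty, Finset.map_empty, Finset.union_empty, Finset.union_sdiff_of_subset hT]
    rw [h2] at h1
    refine Submodule.span_le.2 ?_ h1
    rintro x ⟨σ, v', hv', rfl⟩
    have hv : v' = univ := by
      apply Finset.eq_univ_of_card
      rw [hv', hTc, Finset.card_empty, Fintype.card_fin, add_zero]
    subst hv
    have hdis : ∀ s : Finset (Fin (JJ m + 1)), Disjoint (S \ T) ((P0 s).map (en e n)) := by
      intro s
      rw [Finset.disjoint_left]
      intro x hx hx'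
      obtain ⟨y, _, rfl⟩ := Finset.mem_map.1 hx'
      exact hS y (Finset.sdiff_subset hx)
    refine pf_of_sf hr e σ ?_ ?_
    · have h3 := NF_of (Y := Om O k l (en e n)) (ds_mem (r := r) (k := k) (l := l)
        (S \ T ∪ (P0 univ).map (en e n)))
      rw [Finset.card_union_of_disjoint (hdis _), Finset.card_map, P0_card, Finset.card_univ,
        Fintype.card_fin] at h3
      exact NF_mono (by omega) h3
    · have h3 := red (O := O) hr hm (adj_n e n) (en e n)
      have h4 : ds r (S \ T ∪ (P0 univ).map (en e n)) * Om O k l (en e n) =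
          ∑ a, sf O k l _ (emb (en e n) (ta a)) *
            (ds r (S \ T ∪ (P0 (univ \ {a.castSucc, a.succ})).map (en e n)) * Om O k l (en e n)) +
          ds r (S \ T) * (ds r ((P0 univ).map (en e n)) * Om O k l (en e n) -
            ∑ a, sf O k l _ (emb (en e n) (ta a)) *
              (ds r ((P0 (univ \ {a.castSucc, a.succ})).map (en e n)) * Om O k l (en e n))) := by
        rw [ds_union (hdis _), mul_sub, Finset.mul_sum, mul_assoc, add_sub_left_comm]
        symm
        rw [add_eq_left, sub_eq_zero]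
        refine Finset.sum_congr rfl fun a _ => ?_
        have hcm := (sf_ds_comm (O := O) (k := k) (l := l) (r := r) (en e n) (ta a) (S \ T)
          (fun x hx => hS x (Finset.sdiff_subset hx))).eq
        rw [ds_union (hdis _), mul_assoc, ← mul_assoc, hcm, mul_assoc]
      rw [h4]
      refine Submodule.add_mem _ (Submodule.sum_mem _ fun a _ => ?_) ?_
      · have hJ : 1 ≤ JJ m := Nat.pos_of_ne_zero (fun h => by
          have := a.2
          omega)
        have hca : (univ \ {a.castSucc, a.succ} : Finset (Fin (JJ m + 1))).card = JJ m - 1 := by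
          rw [Finset.card_sdiff_of_subset (Finset.subset_univ _), Finset.card_univ,
            Fintype.card_fin, Finset.card_pair Fin.castSucc_lt_succ.ne]
          omega
        have h5 := NF_of (Y := Om O k l (en e n)) (ds_mem (r := r) (k := k) (l := l)
          (S \ T ∪ (P0 (univ \ {a.castSucc, a.succ})).map (en e n)))
        rw [Finset.card_union_of_disjoint (hdis _), Finset.card_map, P0_card, hca] at h5
        have h6 := ih (by omega) n (NF_mono (by omega) h5)
        obtain ⟨u, hu, v, hv, huv⟩ := Submodule.mem_sup.1 h6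
        rw [← huv, mul_add]
        refine Submodule.add_mem_sup (LL_mul hu _) ?_
        have h7 := mul_NF (ta_mem (O := O) hr hm (adj_n e n) (en e n) a) hv
        exact NF_mono (by omega) h7
      · refine Submodule.mem_sup_right ?_
        have h5 := mul_NF (ds_mem (r := r) (k := k) (l := l) (S \ T)) h3
        exact NF_mono (by omega) h5

/-- The general case: the `δ` at the places of `Ω` are moved to new strands. -/
theorem step (hr : r * r = 2) (hm : k + l = m + 1) (e : I0 m V Wd ↪ Fin d) (j : ℕ)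
    (ih : 2 ≤ j → QQ r e (k := k) (l := l) (j - 2)) (i : ℕ) :
    ∀ (n : ℕ) (S : Finset (Fin (d + n))), S.card = j →
      (S.filter (fun x => x ∈ Set.range (en e n))).card = i →
      ds r S * Om O k l (en e n) ∈ LL r (Om O k l e) n ⊔ NF r (j + 1) (Om O k l (en e n)) := by
  classical
  induction i with
  | zero =>
    intro n S hj hi
    refine fresh hr hm e j n ih S (fun x hx => ?_) hj
    rw [Finset.card_eq_zero] at hi
    have h1 : en e n x ∈ S.filter (fun x => x ∈ Set.range (en e n)) :=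
      Finset.mem_filter.2 ⟨hx, x, rfl⟩
    rw [hi] at h1
    exact Finset.notMem_empty _ h1
  | succ i ihi =>
    intro n S hj hi
    obtain ⟨c, hc⟩ : (S.filter (fun x => x ∈ Set.range (en e n))).Nonempty := by
      rw [← Finset.card_pos, hi]
      omega
    rw [Finset.mem_filter] at hc
    obtain ⟨hcS, hcR⟩ := hc
    set S' : Finset (Fin (d + (n + 1))) := insert 0 ((S.erase c).map (Fin.succEmb (d + n)))
      with hS'
    have h0 : (0 : Fin (d + (n + 1))) ∉ (S.erase c).map (Fin.succEmb (d + n)) := by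
      rw [Finset.mem_map]
      rintro ⟨x, _, hx⟩
      exact Fin.succ_ne_zero x hx
    have hS'c : S'.card = j := by
      rw [hS', Finset.card_insert_of_notMem h0, Finset.card_map, Finset.card_erase_of_mem hcS, hj]
      have : 0 < S.card := Finset.card_pos.2 ⟨c, hcS⟩
      omega
    have hS'i : (S'.filter (fun x => x ∈ Set.range (en e (n + 1)))).card = i := by
      have h1 : S'.filter (fun x => x ∈ Set.range (en e (n + 1))) =
          ((S.filter (fun x => x ∈ Set.range (en e n))).erase c).map (Fin.succEmb (d + n)) := by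
        ext x
        rw [Finset.mem_filter, hS', Finset.mem_insert, Finset.mem_map, Finset.mem_map]
        constructor
        · rintro ⟨hx | ⟨y, hy, rfl⟩, z, hz⟩
          · subst hx
            exact absurd hz (Fin.succ_ne_zero _)
          · refine ⟨y, ?_, rfl⟩
            rw [Finset.mem_erase] at hy ⊢
            refine ⟨hy.1, Finset.mem_filter.2 ⟨hy.2, z, ?_⟩⟩
            exact (Fin.succEmb (d + n)).injective hz
        · rintro ⟨y, hy, rfl⟩
          rw [Finset.mem_erase, Finset.mem_filter] at hy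
          obtain ⟨hyc, hyS, z, hz⟩ := hy
          refine ⟨Or.inr ⟨y, Finset.mem_erase.2 ⟨hyc, hyS⟩, rfl⟩, z, ?_⟩
          change Fin.succ (en e n z) = Fin.succ y
          rw [hz]
      rw [h1, Finset.card_map, Finset.card_erase_of_mem (Finset.mem_filter.2 ⟨hcS, hcR⟩), hi]
      rfl
    have hX := ihi (n + 1) S' hS'c hS'i
    have hXN : ds r S' * Om O k l (en e (n + 1)) ∈ NF r j (Om O k l (en e (n + 1))) := by
      have h3 := NF_of (Y := Om O k l (en e (n + 1))) (ds_mem (r := r) (k := k) (l := l) S')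
      rwa [hS'c] at h3
    have hY := pf_of_sf hr e (swap 0 c.succ) hXN hX
    obtain ⟨u, hu, v, hv, huv⟩ := Submodule.mem_sup.1 hY
    obtain ⟨b, hb, rfl⟩ := mem_NF.1 hv
    obtain ⟨u', hu', b', hb', hub⟩ := LL_Ptr hr hu
    have hOm : Om O k l (en e (n + 1)) = up O k l (d + n) (Om O k l (en e n)) := by
      rw [← upn_Om, ← upn_Om]
      rfl
    have hPtr : Ptr O k l (d + n) (pf O k l _ (g (swap 0 c.succ)) *
        (ds r S' * Om O k l (en e (n + 1)))) = ds r S * Om O k l (en e n) := by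
      have h1 : (ds r S' : EW O k l (Fin (d + (n + 1)))) =
          ds r {0} * up O k l (d + n) (ds r (S.erase c)) := by
        rw [hS', up_ds, ← ds_union (Finset.disjoint_singleton_left.2 h0)]
        rfl
      rw [h1, hOm, mul_assoc, ← mul_assoc, ← map_mul, Ptr_mul_up, Ptr_swap_ds0, ← mul_assoc,
        ← ds_union (Finset.disjoint_singleton_left.2 (Finset.notMem_erase c S))]
      congr 2
      change insert c (S.erase c) = S
      exact Finset.insert_erase hcS
    have h9 : ds r S * Om O k l (en e n) = Ptr O k l (d + n) (u + b * Om O k l (en e (n + 1))) := by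
      rw [huv]
      exact hPtr.symm
    have h10 : Ptr O k l (d + n) (b * Om O k l (en e (n + 1))) =
        Ptr O k l (d + n) b * Om O k l (en e n) := by
      rw [hOm]
      exact Ptr_mul_up _ _
    rw [h9, map_add, hub, h10, upn_Om, add_assoc]
    refine Submodule.add_mem_sup hu' (Submodule.add_mem _ ?_ ?_)
    · rw [← smul_mul_assoc]
      exact NF_of (r_smul_mem hb' _)
    · exact NF_of (Ptr_FR hb)

theorem QQ_all (hr : r * r = 2) (hm : k + l = m + 1) (e : I0 m V Wd ↪ Fin d) (j : ℕ) :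
    QQ r e (k := k) (l := l) j := by
  induction j using Nat.strong_induction_on with
  | _ j ih =>
    intro n x hx
    obtain ⟨b, hb, rfl⟩ := mem_NF.1 hx
    unfold FR at hb
    refine Submodule.span_induction (p := fun b _ => b * Om O k l (en e n) ∈
      LL r (Om O k l e) n ⊔ NF r (j + 1) (Om O k l (en e n))) ?_ ?_ ?_ ?_ hb
    · rintro x ⟨σ, S, ⟨hS, rfl⟩ | rfl⟩
      · rw [mul_assoc]
        rcases Nat.lt_or_ge j S.card with h | h
        · refine Submodule.mem_sup_right ?_
          rw [← mul_assoc]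
          refine NF_of ?_
          have h1 := FR_mul (pf_mem (r := r) (k := k) (l := l) (g σ)) (ds_mem (r := r) (k := k)
            (l := l) S)
          exact FR_mono (by omega) h1
        · have hj : S.card = j := le_antisymm h hS
          refine pf_of_sf hr e σ ?_ (step hr hm e j (fun h2 => ih (j - 2) (by omega)) _ n S hj rfl)
          have h3 := NF_of (Y := Om O k l (en e n)) (ds_mem (r := r) (k := k) (l := l) S)
          rwa [hj] at h3
      · refine Submodule.mem_sup_right (NF_of (r_smul_mem ?_ _))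
        have h1 := FR_mul (pf_mem (r := r) (k := k) (l := l) (g σ)) (FR_mono (Nat.zero_le _)
          (ds_mem (r := r) (k := k) (l := l) S))
        exact h1
    · rw [zero_mul]
      exact Submodule.zero_mem _
    · intro a c _ _ ha hc
      rw [add_mul]
      exact Submodule.add_mem _ ha hc
    · intro a c _ hc
      rw [smul_mul_assoc]
      exact Submodule.smul_mem _ a hc

theorem FR_fg {ι : Type} [Fintype ι] [LinearOrder ι] (r : O) (j : ℕ) : (FR k l ι r j).FG := by
  classical
  refine Submodule.fg_span (Set.Finite.subset (s := Set.range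
    (fun q : (Perm ι × Finset ι) × Bool => if q.2 then pf O k l ι (g q.1.1) * ds r q.1.2
      else r • (pf O k l ι (g q.1.1) * ds r q.1.2))) (Set.finite_range _) ?_)
  rintro x ⟨σ, S, ⟨_, rfl⟩ | rfl⟩
  · exact ⟨((σ, S), true), by simp⟩
  · exact ⟨((σ, S), false), by simp⟩

theorem NF_le (hr : r * r = 2) (hm : k + l = m + 1) (e : I0 m V Wd ↪ Fin d) (n j : ℕ) :
    NF r 0 (Om O k l (en e n)) ≤ LL r (Om O k l e) n ⊔ NF r j (Om O k l (en e n)) := by
  induction j with
  | zero => exact le_sup_right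
  | succ j ih =>
    refine ih.trans (sup_le le_sup_left (QQ_all hr hm e j n))

/-- **The main theorem of the block (A)**: everything is generated by the strings. -/
theorem main_le (hr : r * r = 2) (hJ : r ∈ Ideal.jacobson (⊥ : Ideal O)) (hm : k + l = m + 1)
    (e : I0 m V Wd ↪ Fin d) (n : ℕ) :
    NF r 0 (Om O k l (en e n)) ≤ LL r (Om O k l e) n := by
  have h1 := NF_le hr hm e n (d + n + 1)
  have hfg : (NF r 0 (Om O k l (en e n))).FG := (FR_fg r 0).map _
  refine Submodule.le_of_le_smul_of_le_jacobson_bot (I := Ideal.span {r}) hfg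
    (Ideal.span_le.2 (Set.singleton_subset_iff.2 hJ)) (h1.trans (sup_le_sup_left ?_ _))
  intro x hx
  obtain ⟨b, hb, rfl⟩ := mem_NF.1 hx
  obtain ⟨y, hy, rfl⟩ := FR_top (by rw [Fintype.card_fin]; exact Nat.lt_succ_self _) hb
  rw [smul_mul_assoc]
  exact Submodule.smul_mem_smul (Ideal.mem_span_singleton_self r) (NF_of hy)

/-- The form used by the ring side. -/
theorem ext_form (hr : r * r = 2) (hJ : r ∈ Ideal.jacobson (⊥ : Ideal O)) (hm : k + l = m + 1)
    (e : I0 m V Wd ↪ Fin d) (T : Finset (Fin d)) :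
    ∃ lam : Finset (Fin d) → MonoidAlgebra O (Perm (Fin (d + 1))),
      ds r {0} * (ds r (T.map (Fin.succEmb d)) * Om O k l (en e 1)) =
        ∑ T' : Finset (Fin d), SK.act O O k l (Fin (d + 1)) (lam T') *
          (ds r (T'.map (Fin.succEmb d)) * Om O k l (en e 1)) := by
  classical
  let Φ : (Finset (Fin d) → MonoidAlgebra O (Perm (Fin (d + 1)))) →ₗ[O] EW O k l (Fin (d + 1)) :=
    { toFun := fun lam => ∑ T' : Finset (Fin d), SK.act O O k l (Fin (d + 1)) (lam T') *
        (ds r (T'.map (Fin.succEmb d)) * Om O k l (en e 1))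
      map_add' := fun a b => by
        rw [← Finset.sum_add_distrib]
        refine Finset.sum_congr rfl fun T' _ => ?_
        rw [Pi.add_apply, map_add, add_mul]
      map_smul' := fun c a => by
        rw [RingHom.id_apply, Finset.smul_sum]
        refine Finset.sum_congr rfl fun T' _ => ?_
        rw [Pi.smul_apply, map_smul, smul_mul_assoc] }
  have hsing : ∀ (σ : Perm (Fin (d + 1))) (S : Finset (Fin d)),
      sf O k l _ (g σ) * (ds r (S.map (Fin.succEmb d)) * Om O k l (en e 1)) ∈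
        LinearMap.range Φ := by
    intro σ S
    refine ⟨fun T' => if T' = S then MonoidAlgebra.of O _ σ else 0, ?_⟩
    change ∑ T' : Finset (Fin d), _ = _
    rw [Finset.sum_eq_single S]
    · beta_reduce
      rw [if_pos rfl, SK.act_of]
      congr 1
      unfold sf
      exact (SK.act_of (A := ℤ) σ).symm
    · intro T' _ hne
      beta_reduce
      rw [if_neg hne, map_zero, zero_mul]
    · intro h
      exact absurd (Finset.mem_univ _) h
  have hLL : LL r (Om O k l e) 1 ≤ LinearMap.range Φ := by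
    unfold LL
    refine Submodule.span_le.2 ?_
    rintro x ⟨σ, y, hy, rfl⟩
    obtain ⟨b, hb, rfl⟩ := mem_NF.1 hy
    have hb' := FR_le_sf hr hb
    change sf O k l _ (g σ) * up O k l d (b * Om O k l e) ∈ LinearMap.range Φ
    refine Submodule.span_induction (p := fun b _ => sf O k l _ (g σ) *
      up O k l d (b * Om O k l e) ∈ LinearMap.range Φ) ?_ ?_ ?_ ?_ hb'
    · rintro x ⟨τ, S, rfl⟩
      have h1 : up O k l d (Om O k l e) = Om O k l (en e 1) := upn_Om e 1
      have h2 : sf O k l (Fin (d + 1)) (g σ) * up O k l d (sf O k l _ (g τ) * ds r S * Om O k l e) =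
          sf O k l _ (g (σ * τ.viaEmbedding (Fin.succEmb d))) *
            (ds r (S.map (Fin.succEmb d)) * Om O k l (en e 1)) := by
        rw [map_mul, map_mul, up_sf, up_ds, h1, H4.emb_g, H4.g_mul, map_mul]
        simp only [mul_assoc]
      rw [h2]
      exact hsing _ _
    · rw [zero_mul, map_zero, mul_zero]
      exact Submodule.zero_mem _
    · intro a c _ _ ha hc
      rw [add_mul, map_add, mul_add]
      exact Submodule.add_mem _ ha hc
    · intro a c _ hc
      rw [smul_mul_assoc, up_smul, mul_smul_comm]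
      exact Submodule.smul_mem _ a hc
  have hmem : ds r {0} * (ds r (T.map (Fin.succEmb d)) * Om O k l (en e 1)) ∈
      LinearMap.range Φ := by
    refine hLL (main_le hr hJ hm e 1 ?_)
    rw [← mul_assoc]
    refine NF_of ?_
    have h1 := FR_mul (FR_mono (Nat.zero_le _) (ds_mem (r := r) (k := k) (l := l) {(0 : Fin (d + 1))}))
      (FR_mono (Nat.zero_le _) (ds_mem (r := r) (k := k) (l := l) (T.map (Fin.succEmb d))))
    exact h1
  obtain ⟨lam, hlam⟩ := hmem
  exact ⟨lam, hlam.symm⟩

end main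

end Pool.PI34.EX

end
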