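import Pool.Agent.LibPI54.M08
import Pool.Agent.LibPI54.M09

/-! ### part SG_Rel -/
section

/-!
PI34, block SG, file 8: the relations of the places after a catalyst.
-/

set_option autoImplicit false
set_option linter.unusedSectionVars false
set_option linter.unusedDecidableInType false
set_option linter.unusedFintypeInType false

namespace Pool.PI34.SG

open Equiv Finset Polynomial
open Pool.PI34.H4

section ST

/-- the inversion -/
noncomputable def ST (α : Type) : P α →+ P α :=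
  MonoidAlgebra.liftNC (Int.castAddHom (P α)) (fun s => g s⁻¹)

variable {α β : Type}

theorem ST_g (s : Perm α) : ST α (g s) = g s⁻¹ := by
  unfold ST g
  rw [MonoidAlgebra.of_apply, MonoidAlgebra.liftNC_single]
  simp

theorem ST_zsmul (n : ℤ) (y : P α) : ST α (n • y) = n • ST α y := map_zsmul _ _ _

theorem ip_ST {N : ℕ} [Fintype α] [DecidableEq α] (y : P α) (f h : W N α) :
    ip (act N α y f) h = ip f (act N α (ST α y) h) := by
  refine P_induction (p := fun y => ip (act N α y f) h = ip f (act N α (ST α y) h)) y ?_ ?_ ?_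
  · intro σ
    rw [ST_g, act_of, ip_rho, act_of]
  · intro a b ha hb
    rw [act_add, ip_add_left, ha, hb, map_add, act_add, ip_add_right]
  · intro m a ha
    rw [act_zsmul, ip_zsmul_left, ha, ST_zsmul, act_zsmul, ip_zsmul_right]

theorem ST_emb (ι : α ↪ β) (y : P α) : ST β (emb ι y) = emb ι (ST α y) := by
  refine P_induction (p := fun y => ST β (emb ι y) = emb ι (ST α y)) y ?_ ?_ ?_
  · intro σ
    rw [emb_g, ST_g, ST_g, emb_g]
    rfl
  · intro a b ha hb
    rw [map_add, map_add, map_add, map_add, ha, hb]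
  · intro m a ha
    rw [emb_zsmul, ST_zsmul, ST_zsmul, emb_zsmul, ha]

theorem ST_of_SA {n : ℕ} {y : P (Fin n)} (h : SA n y) : ST _ y = y := by
  have h1 : act n (Fin n) (ST _ y - y) = 0 := by
    refine LinearMap.ext fun f => ?_
    rw [LinearMap.zero_apply]
    apply ip_self_eq_zero
    have h2 : ∀ f' : W n (Fin n), ip f' (act n (Fin n) (ST _ y) f) = ip f' (act n (Fin n) y f) := by
      intro f'
      rw [← ip_ST, h]
    set u := act n (Fin n) (ST _ y - y) f with hu
    have h3 : act n (Fin n) (ST _ y) f = act n (Fin n) y f + u := by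
      rw [hu, act_sub, add_sub_cancel]
    have h4 := h2 u
    rw [h3, ip_add_right] at h4
    linarith
  exact sub_eq_zero.1 (act_faithful n _ h1)

theorem SA_of_ST {N : ℕ} [Fintype α] [DecidableEq α] {y : P α} (h : ST _ y = y) : SA N y := by
  intro f f'
  rw [ip_ST, h]

end ST

/-- the catalysts -/
structure Cat (N n : ℕ) where
  /-- the element -/
  z : P (Fin n)
  /-- the integer -/
  h : ℤ
  pos : 0 < h
  odd : Odd h
  sa : ∀ N', SA N' z
  zz : z * z = h • z
  zp : ZP N 2 z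
  com : ∀ (p : ℤ[X]) (k : Fin n), Commute (aeval (Y k) p) z

section

variable {N n : ℕ}

theorem HasWt.oneW {α : Type} [Fintype α] [DecidableEq α] {m : Fin N → ℕ} {x : W N α}
    (h : HasWt m x) : OneW x := fun w w' hw hw' a => by rw [h w hw a, h w' hw' a]

/-- the weight of the catalyst -/
theorem Cat.wt (Z : Cat N n) {m : Fin N → ℕ} {x : W N (Fin n)} (h0 : x ≠ 0) (hx : HW x)
    (hm : HasWt m x) (hz : act N _ Z.z x = Z.h • x) (a : Fin N) :
    (m a : ℤ) = (N : ℤ) - 1 - (a : ℕ) := by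
  obtain ⟨w, hw⟩ := H4.exists_ne h0
  have h1 : act N _ Z.z x w ≠ 0 := by
    rw [hz, Pi.smul_apply]
    exact smul_ne_zero Z.pos.ne' hw
  have h2 := Z.zp x (hx.act _) (OneW.act (HasWt.oneW hm) _) w h1 a
  rw [← hm w hw a, h2]
  ring

theorem Cat.SA_emb {α : Type} [Fintype α] [DecidableEq α] (Z : Cat N n) (ι : Fin n ↪ α) (N' : ℕ) :
    SA N' (emb ι Z.z) := by
  apply SA_of_ST
  rw [ST_emb, ST_of_SA (Z.sa n)]

theorem Cat.zz_emb {α : Type} (Z : Cat N n) (ι : Fin n ↪ α) :
    emb ι Z.z * emb ι Z.z = Z.h • emb ι Z.z := by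
  rw [← map_mul, Z.zz, emb_zsmul]

theorem par_content (t : ℕ) : par ((N : ℤ) - 1 - (t : ℕ) + 1 - 1 - (t : ℕ)) = par ((N : ℤ) - 1) := by
  rw [par_eq]
  exact ⟨-(t : ℤ), by ring⟩

/-- the place after the catalyst has one parity -/
theorem Cat.rel1_last (Z : Cat N n) {M : ℕ} (R : Res M) (hM : 2 * (n + 1) + N ≤ M) {b : Bool}
    (hb : b ≠ par ((N : ℤ) - 1)) :
    act N _ (aeval (Y (Fin.last n)) (R.G b) * emb Fin.castSuccEmb Z.z) = 0 := by
  have hc : Commute (aeval (Y (Fin.last n)) (R.G b)) (emb Fin.castSuccEmb Z.z) :=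
    Commute.aeval_left (commute_emb_Y Fin.castSuccEmb _ (fun i => Fin.castSucc_lt_last i) _).symm _
  apply act_eq_zero_of_SA (((SA_Y _).aeval _).mul (Z.SA_emb _ _) hc)
  intro v hv hv1
  by_contra h0
  obtain ⟨w0, hw0, hm⟩ := (hv1.act (aeval (Y (Fin.last n)) (R.G b) *
    emb Fin.castSuccEmb Z.z)).exists_wt h0
  obtain ⟨t, m', ht, hx', hm', hA, hmm, h1, h2⟩ := step h0 (hv.act _) hm
  have h3 := h1 Z.z Z.h (by
    rw [← act_mul, ← mul_assoc, ← hc.eq, mul_assoc, Z.zz_emb, mul_smul_comm, act_zsmul])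
  have h4 := h2 (R.G b) R.D (by
    rw [← act_mul, ← mul_assoc, G_sq R (by omega), smul_mul_assoc, act_zsmul])
  have h5 := R.par_of_eval (content_mem hm h0 (by omega) t) h4
  have h6 := Z.wt ht hx' hm' h3 t
  have h7 := hmm t
  rw [if_pos rfl] at h7
  apply hb
  rw [← h5, ← par_content (N := N) (t : ℕ), h7]
  congr 1
  push_cast
  rw [h6]

/-- the transposition of the two places after the catalyst -/
theorem Cat.rel2_last (Z : Cat N n) {M : ℕ} (R : Res M) (hM : 2 * (n + 2) + N ≤ M) {b : Bool}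
    (hb : b ≠ par ((N : ℤ) - 1)) :
    act N _ ((g (swap (Fin.last n).castSucc (Fin.last (n + 1))) - 1) *
      (aeval (Y (Fin.last (n + 1))) (R.G b) *
        emb Fin.castSuccEmb (emb Fin.castSuccEmb Z.z))) = 0 := by
  set s : P (Fin (n + 1 + 1)) := g (swap (Fin.last n).castSucc (Fin.last (n + 1))) with hs
  set G : P (Fin (n + 1 + 1)) := aeval (Y (Fin.last (n + 1))) (R.G b) with hG
  set ζ : P (Fin (n + 1 + 1)) := emb Fin.castSuccEmb (emb Fin.castSuccEmb Z.z) with hζ
  have hζ' : ζ = emb (Fin.castSuccEmb.trans Fin.castSuccEmb) Z.z := by rw [hζ, emb_trans]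
  have hc : Commute G ζ := by
    rw [hζ']
    exact Commute.aeval_left (commute_emb_Y _ _ (fun i => Fin.castSucc_lt_last _) _).symm _
  have hcs : Commute ζ s := by
    rw [hζ']
    refine commute_of_g _ (fun σ => ?_) _
    unfold Commute SemiconjBy
    rw [hs, ← g_mul, ← g_mul]
    congr 1
    rw [mul_swap_eq_swap_mul]
    have h1 : ∀ z : Fin (n + 1 + 1), n ≤ (z : ℕ) →
        (σ.viaEmbedding ((Fin.castSuccEmb : Fin n ↪ Fin (n + 1)).trans Fin.castSuccEmb)) z = z := by
      intro z hz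
      apply Perm.viaEmbedding_apply_of_notMem
      rintro ⟨i, rfl⟩
      have : (((Fin.castSuccEmb.trans Fin.castSuccEmb) i : Fin (n + 1 + 1)) : ℕ) = i := rfl
      omega
    rw [h1 _ (by simp), h1 _ (by simp)]
  have hss : s * s = 1 := g_swap_sq _ _
  have hSs : SA N s := SA_swap _ _
  have hSG : SA N G := (SA_Y _).aeval _
  have hSζ : SA N ζ := by rw [hζ']; exact Z.SA_emb _ _
  have hζζ : ζ * ζ = Z.h • ζ := by rw [hζ', Z.zz_emb]
  have hS1 : SA N (s - 1) := by
    intro f h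
    rw [act_sub, act_sub, act_one, act_one, sub_eq_add_neg, sub_eq_add_neg,
      ← neg_one_zsmul f, ← neg_one_zsmul h, ip_add_left, ip_add_right, hSs, ip_zsmul_left,
      ip_zsmul_right]
  refine act_eq_zero (F' := G * (ζ * (s - 1))) (fun f h => ?_) (fun v hv hv1 => ?_)
  · rw [act_mul, act_mul, hS1, hSG, hSζ, ← act_mul, ← act_mul, ← mul_assoc, hc.eq]
  · rw [act_mul]
    set v1 := act N _ (ζ * (s - 1)) v with hv1def
    by_contra hx0
    have hv10 : v1 ≠ 0 := by
      intro h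
      rw [h, map_zero] at hx0
      exact hx0 rfl
    have hHW1 : HW v1 := hv.act _
    obtain ⟨w0, hw0, hm⟩ := (hv1.act (ζ * (s - 1))).exists_wt hv10
    set m := cnt w0 with hmdef
    have hmx : HasWt m (act N _ G v1) := HasWt.act hm _
    have hHWx : HW (act N _ G v1) := hHW1.act _
    have hsv : act N _ s v1 = -v1 := by
      rw [hv1def, ← act_mul, ← mul_assoc, ← hcs.eq, mul_assoc, mul_sub, hss, mul_one, ← neg_sub,
        mul_neg, map_neg]
      rfl
    have hζv : act N _ ζ v1 = Z.h • v1 := by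
      rw [hv1def, ← act_mul, ← mul_assoc, hζζ, smul_mul_assoc, act_zsmul]
    have hζx : act N _ ζ (act N _ G v1) = Z.h • act N _ G v1 := by
      rw [← act_mul, ← hc.eq, act_mul, hζv, map_zsmul]
    -- the two top places of `v1`
    obtain ⟨t, m1, ht, hHW2, hm1, -, hmm1, h1, -⟩ := step hv10 hHW1 hm
    obtain ⟨t', m2, ht', hHW3, hm2, -, hmm2, h1', -⟩ := step ht hHW2 hm1
    have hκ := Z.wt ht' hHW3 hm2 (h1' _ _ (h1 _ _ hζv))
    have hne : t ≠ t' := by
      intro htt
      apply ht'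
      funext w
      rw [← htt, comp_apply, comp_apply, Pi.zero_apply]
      have h2 := congrFun hsv (Fin.snoc (Fin.snoc w t : Fin (n + 1) → Fin N) t)
      rw [hs, act_g, Pi.neg_apply] at h2
      have h3 : ((Fin.snoc (Fin.snoc w t : Fin (n + 1) → Fin N) t : Fin (n + 1 + 1) → Fin N) ∘
          ⇑(swap (Fin.last n).castSucc (Fin.last (n + 1)))) =
          Fin.snoc (Fin.snoc w t : Fin (n + 1) → Fin N) t := by
        funext j
        rw [Function.comp_apply]
        rcases eq_or_ne j (Fin.last n).castSucc with rfl | hj1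
        · rw [swap_apply_left]
          simp
        · rcases eq_or_ne j (Fin.last (n + 1)) with rfl | hj2
          · rw [swap_apply_right]
            simp
          · rw [swap_apply_of_ne_of_ne hj1 hj2]
      rw [h3] at h2
      linarith
    -- the two top places of `x`
    obtain ⟨t3, m3, ht3, hHW4, hm3, -, hmm3, h3, h3'⟩ := step hx0 hHWx hmx
    obtain ⟨t4, m4, ht4, hHW5, hm4, -, hmm4, h4, -⟩ := step ht3 hHW4 hm3
    have hκ' := Z.wt ht4 hHW5 hm4 (h4 _ _ (h3 _ _ hζx))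
    have h5 := h3' (R.G b) R.D (by
      rw [← act_mul, G_sq R (by omega), act_zsmul])
    have h6 := R.par_of_eval (content_mem hmx hx0 (by omega) t3) h5
    have e1 := hmm1 t3
    have e2 := hmm2 t3
    have e3 := hmm3 t3
    have e4 := hmm4 t3
    have e5 := hκ t3
    have e6 := hκ' t3
    rw [if_pos rfl] at e3
    have e7 : (if t = t3 then 1 else 0) + (if t' = t3 then 1 else 0) ≤ 1 := by
      split_ifs with h7 h8
      · exact absurd (h7.trans h8.symm) hne
      · norm_num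
      · norm_num
      · norm_num
    have e8 : (m t3 : ℤ) = (N : ℤ) - 1 - (t3 : ℕ) + 1 := by omega
    apply hb
    rw [← h6, e8, par_content]

/-- the potential after the catalyst -/
theorem Cat.path (Z : Cat N n) {M : ℕ} (R : Res M) : ∀ (e : ℕ), n + e + N ≤ M →
    ∀ {m : Fin N → ℕ} {x : W N (Fin (n + e))}, x ≠ 0 → HW x → HasWt m x →
      (∀ a : Fin e, act N _ (aeval (Y (Fin.natAdd n a)) (R.G (par ((N : ℤ) - 1)))) x = R.D • x) →
      act N _ (emb (Fin.castAddEmb e) Z.z) x = Z.h • x → Phi m = N - 2 * e := by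
  intro e
  induction e with
  | zero =>
    intro _ m x h0 hx hm _ hz
    have h1 : emb (Fin.castAddEmb 0) Z.z = Z.z := by
      have h2 : ∀ y : P (Fin n), emb (Function.Embedding.refl (Fin n)) y = y := by
        intro y
        refine P_induction (p := fun y => emb (Function.Embedding.refl (Fin n)) y = y) y ?_ ?_ ?_
        · intro σ
          rw [emb_g]
          congr 1
          ext z
          exact congrArg Fin.val (Perm.viaEmbedding_apply σ (Function.Embedding.refl (Fin n)) z)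
        · intro a b ha hb
          rw [map_add, ha, hb]
        · intro k a ha
          rw [emb_zsmul, ha]
      exact h2 Z.z
    rw [h1] at hz
    have h2 := Z.wt h0 hx hm hz
    unfold Phi
    have : ∀ t : Fin N, vv (par ((m t : ℤ) + N - 1 - (t : ℕ))) = 1 := by
      intro t
      rw [h2]
      have h1 : (N : ℤ) - 1 - (t : ℕ) + N - 1 - (t : ℕ) = 2 * (N - 1 - (t : ℕ)) := by ring
      rw [h1]
      simp [vv, par]
    rw [Finset.sum_congr rfl (fun t _ => this t)]
    simp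
  | succ e ih =>
    intro hM m x h0 hx hm hG hz
    obtain ⟨t, m', ht, hx', hm', -, hmm, h1, h2⟩ := step (n := n + e) h0 hx hm
    have h3 := ih (by omega) ht hx' hm' (fun a => by
      apply h1
      rw [emb_aeval, emb_Y _ (fun i => rfl)]
      exact hG a.castSucc) (by
      apply h1
      rw [emb_trans]
      exact hz)
    have h4 := h2 _ _ (hG (Fin.last e))
    have h5 := R.par_of_eval (content_mem (n := n + e) hm h0 (by omega) t) h4
    rw [Phi_step hmm, h3, h5]
    have h6 : vv (par (N : ℤ)) * vv (par ((N : ℤ) - 1)) = -1 := by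
      rw [← vv_par_add]
      have h7 : par ((N : ℤ) + (N - 1)) = false := by
        have : ¬ Even ((N : ℤ) + (N - 1)) := by
          rw [Int.not_even_iff_odd]
          exact ⟨N - 1, by ring⟩
        simp [par, this]
      rw [h7]
      rfl
    rw [h6]
    push_cast
    ring

end

end Pool.PI34.SG

end

/-! ### part SG_Fin -/
section

/-!
PI34, block SG, file 9: the two results.
-/

set_option autoImplicit false
set_option linter.unusedSectionVars false
set_option linter.unusedDecidableInType false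
set_option linter.unusedFintypeInType false

namespace Pool.PI34.SG

open Equiv Finset Polynomial
open Pool.PI34.H4

section gen

variable {α β : Type}

theorem commute_emb_swap [DecidableEq β] (ι : α ↪ β) {x y : β} (hx : x ∉ Set.range ι)
    (hy : y ∉ Set.range ι) (z : P α) : Commute (emb ι z) (g (swap x y)) := by
  refine commute_of_g _ (fun σ => ?_) _
  unfold Commute SemiconjBy
  rw [← g_mul, ← g_mul]
  congr 1
  rw [mul_swap_eq_swap_mul, Perm.viaEmbedding_apply_of_notMem _ _ _ hx,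
    Perm.viaEmbedding_apply_of_notMem _ _ _ hy]

theorem commute_Ek' {H : Type} [Ring H] {r : ℕ} {y : ℕ → H} {x : H} (k : ℕ)
    (h : ∀ a < k, Commute (y a) x) : Commute x (Aff.Ek r y k) := by
  induction k with
  | zero => exact Commute.one_right _
  | succ k ih =>
    exact (((Commute.one_right _).add_right (h k (Nat.lt_succ_self k)).symm).pow_right _).mul_right
      (ih fun a ha => h a (by omega))

theorem SA_sub_one {N : ℕ} [Fintype α] [DecidableEq α] {s : P α} (hs : SA N s) : SA N (s - 1) := by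
  intro f h
  rw [act_sub, act_sub, act_one, act_one, sub_eq_add_neg, sub_eq_add_neg,
    ← neg_one_zsmul f, ← neg_one_zsmul h, ip_add_left, ip_add_right, hs, ip_zsmul_left,
    ip_zsmul_right]

end gen

section pl

variable (N n e : ℕ)

/-- the generators -/
noncomputable def yP (a : ℕ) : P (Fin (n + e)) :=
  if h : a < e then Y (Fin.natAdd n ⟨a, h⟩) - ((N : ℤ) - 1) • (1 : P _) else 0

/-- the generators -/
noncomputable def sP (a : ℕ) : P (Fin (n + e)) :=
  if h : a + 1 < e then g (swap (Fin.natAdd n ⟨a, by omega⟩) (Fin.natAdd n ⟨a + 1, h⟩)) else 0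

variable {N n e}

theorem yP_of {a : ℕ} (h : a < e) : yP N n e a = Y (Fin.natAdd n ⟨a, h⟩) - ((N : ℤ) - 1) • (1 : P _) := by
  unfold yP
  rw [dif_pos h]

theorem sP_of {a : ℕ} (h : a + 1 < e) :
    sP n e a = g (swap (Fin.natAdd n ⟨a, by omega⟩) (Fin.natAdd n ⟨a + 1, h⟩)) := by
  unfold sP
  rw [dif_pos h]

theorem commute_yP_of {x : P (Fin (n + e))} (h : ∀ a : Fin e, Commute (Y (Fin.natAdd n a)) x) (a : ℕ) :
    Commute (yP N n e a) x := by
  unfold yP
  split_ifs with ha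
  · exact (h _).sub_left ((Commute.one_left _).smul_left _)
  · exact Commute.zero_left _

theorem yP_comm (a b : ℕ) : Commute (yP N n e a) (yP N n e b) :=
  commute_yP_of (fun _ => (commute_yP_of (fun _ => commute_Y _ _) b).symm) a

theorem natAdd_notMem (a : Fin e) : Fin.natAdd n a ∉ Set.range (Fin.castAddEmb e : Fin n ↪ Fin (n + e)) := by
  rintro ⟨i, hi⟩
  have h1 := congrArg Fin.val hi
  have h2 : ((Fin.castAddEmb e i : Fin (n + e)) : ℕ) = i := rfl
  have h3 : ((Fin.natAdd n a : Fin (n + e)) : ℕ) = n + a := rfl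
  omega

theorem commute_emb_natAdd (a : Fin e) (z : P (Fin n)) :
    Commute (emb (Fin.castAddEmb e) z) (Y (Fin.natAdd n a)) :=
  commute_emb_Y _ _ (fun i => by
    rw [Fin.lt_def]
    have h2 : ((Fin.castAddEmb e i : Fin (n + e)) : ℕ) = i := rfl
    have h3 : ((Fin.natAdd n a : Fin (n + e)) : ℕ) = n + a := rfl
    omega) z

theorem commute_emb_yP (a : ℕ) (z : P (Fin n)) : Commute (emb (Fin.castAddEmb e) z) (yP N n e a) :=
  (commute_yP_of (fun b => (commute_emb_natAdd b z).symm) a).symm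

theorem commute_emb_sP (a : ℕ) (z : P (Fin n)) : Commute (emb (Fin.castAddEmb e) z) (sP n e a) := by
  unfold sP
  split_ifs with h
  · exact commute_emb_swap _ (natAdd_notMem _) (natAdd_notMem _) _
  · exact Commute.zero_right _

/-- the facts about one place -/
theorem place {M : ℕ} (R : Res M) (hM : 2 * (n + e) ≤ M) {q : ℕ} (hq : (rg M).card ≤ q) (k : Fin (n + e)) :
    (q2 N _ (Y k - ((N : ℤ) - 1) • (1 : P _))) ^ q *
        q2 N _ (aeval (Y k) (R.G (par ((N : ℤ) - 1)))) = 0 ∧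
      (1 + q2 N _ (Y k - ((N : ℤ) - 1) • (1 : P _))) ^ q *
        q2 N _ (aeval (Y k) (R.G (!par ((N : ℤ) - 1)))) = 0 ∧
      q2 N _ (aeval (Y k) (R.G (par ((N : ℤ) - 1)))) +
        q2 N _ (aeval (Y k) (R.G (!par ((N : ℤ) - 1)))) = 1 := by
  refine ⟨q2_nil R (lin_Y hM k) hq, ?_, q2_G_add R _ _⟩
  have h1 : (!par ((N : ℤ) - 1)) = par ((N : ℤ) - 1 - 1) := by
    unfold par
    by_cases h : Even ((N : ℤ) - 1)
    · have h2 : ¬ Even ((N : ℤ) - 1 - 1) := by
        rw [Int.not_even_iff_odd]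
        exact h.sub_odd odd_one
      simp [h, h2]
    · have h2 : Even ((N : ℤ) - 1 - 1) := (Int.not_even_iff_odd.1 h).sub_odd odd_one
      simp [h, h2]
  have h2 : 1 + q2 N _ (Y k - ((N : ℤ) - 1) • (1 : P _)) =
      q2 N _ (Y k - ((N : ℤ) - 1 - 1) • (1 : P _)) := by
    have h3 : Y k - ((N : ℤ) - 1 - 1) • (1 : P _) = 1 + (Y k - ((N : ℤ) - 1) • (1 : P _)) := by
      rw [sub_smul ((N : ℤ) - 1) 1, one_smul]
      abel
    rw [h3, map_add (q2 N _) 1, map_one]
  rw [h1, h2]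
  exact q2_nil R (lin_Y hM k) hq

theorem aff {M : ℕ} (R : Res M) (hM : 2 * (n + e) ≤ M) {r : ℕ} (hr : (rg M).card ≤ 2 ^ r) :
    Aff e r (fun a => q2 N _ (yP N n e a)) (fun a => q2 N _ (sP n e a)) where
  two := two_HH
  yy a b := (yP_comm a b).map _
  sy a ha := by
    change q2 N _ (sP n e a) * q2 N _ (yP N n e a) = q2 N _ (yP N n e (a + 1)) * q2 N _ (sP n e a) + 1
    have h1 : sP n e a * yP N n e a = yP N n e (a + 1) * sP n e a + -1 := by
      rw [sP_of ha, yP_of (by omega), yP_of ha, mul_sub, s_mul_Y _ _ (by simp; omega), sub_mul,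
        mul_smul_comm, smul_mul_assoc, mul_one, one_mul]
      abel
    rw [← map_mul, h1, map_add, map_mul, q2_neg, map_one]
  sy' a ha := by
    change q2 N _ (sP n e a) * q2 N _ (yP N n e (a + 1)) = q2 N _ (yP N n e a) * q2 N _ (sP n e a) + 1
    have h1 : sP n e a * yP N n e (a + 1) = yP N n e a * sP n e a + 1 := by
      rw [sP_of ha, yP_of (by omega), yP_of (by omega), mul_sub, s_mul_Y' _ _ (by simp; omega), sub_mul,
        mul_smul_comm, smul_mul_assoc, mul_one, one_mul]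
      abel
    rw [← map_mul, h1, map_add, map_mul, map_one]
  sc a b ha hb h1 h2 := by
    change Commute (q2 N _ (sP n e a)) (q2 N _ (yP N n e b))
    apply Commute.map
    rw [sP_of ha, yP_of hb]
    refine Commute.sub_right ?_ ((Commute.one_right _).smul_right _)
    apply commute_s_Y
    · simp; omega
    · intro h
      have := congrArg Fin.val h
      simp at this
      omega
    · intro h
      have := congrArg Fin.val h
      simp at this
      omega
  hn a ha := by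
    change (q2 N _ (yP N n e a) * (1 + q2 N _ (yP N n e a))) ^ 2 ^ r = 0
    rw [yP_of ha]
    obtain ⟨h0, h1, h2⟩ := place (N := N) R hM hr (Fin.natAdd n ⟨a, ha⟩)
    set y := q2 N _ (Y (Fin.natAdd n (⟨a, ha⟩ : Fin e)) - ((N : ℤ) - 1) • (1 : P _)) with hy
    have hc : Commute y (1 + y) := (Commute.one_right _).add_right (Commute.refl _)
    have h3 := congrArg (fun x => (1 + y) ^ 2 ^ r * x) h2
    simp only [mul_add, mul_one] at h3
    rw [h1, add_zero] at h3
    rw [hc.mul_pow, ← h3, ← mul_assoc, (hc.pow_pow _ _).eq, mul_assoc, h0, mul_zero]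

variable (Z : Cat N n)
include Z

theorem Cat.rel1 {M : ℕ} (R : Res M) (hM : 2 * (n + 1) + N ≤ M) (he : 0 < e) :
    act N _ (aeval (Y (Fin.natAdd n (⟨0, he⟩ : Fin e))) (R.G (!par ((N : ℤ) - 1))) *
      emb (Fin.castAddEmb e) Z.z) = 0 := by
  have h1 := Z.rel1_last R hM (b := !par ((N : ℤ) - 1)) (by cases par ((N : ℤ) - 1) <;> simp)
  have h2 := act_emb_eq_zero (Fin.castLEEmb (by omega : n + 1 ≤ n + e)) _ h1
  rw [map_mul, emb_aeval, emb_Y _ (fun i => rfl), emb_trans] at h2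
  exact h2

theorem Cat.rel2 {M : ℕ} (R : Res M) (hM : 2 * (n + 2) + N ≤ M) (he : 1 < e) :
    act N _ ((sP n e 0 - 1) *
      (aeval (Y (Fin.natAdd n (⟨1, he⟩ : Fin e))) (R.G (!par ((N : ℤ) - 1))) *
      emb (Fin.castAddEmb e) Z.z)) = 0 := by
  have h1 := Z.rel2_last R hM (b := !par ((N : ℤ) - 1)) (by cases par ((N : ℤ) - 1) <;> simp)
  have h2 := act_emb_eq_zero (Fin.castLEEmb (by omega : n + 1 + 1 ≤ n + e)) _ h1
  rw [map_mul (emb _), map_mul (emb _), map_sub (emb _), map_one (emb _), emb_aeval,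
    emb_Y _ (fun i => rfl), emb_trans, emb_trans, emb_g, swap_via] at h2
  rw [sP_of (show 0 + 1 < e from he)]
  exact h2

theorem Cat.rel2' {M : ℕ} (R : Res M) (hM : 2 * (n + 2) + N ≤ M) (he : 1 < e) :
    act N _ (aeval (Y (Fin.natAdd n (⟨1, he⟩ : Fin e))) (R.G (!par ((N : ℤ) - 1))) *
      emb (Fin.castAddEmb e) Z.z * (sP n e 0 - 1)) = 0 := by
  refine act_adj (fun f h => ?_) (Z.rel2 R hM he)
  have h1 : SA N (sP n e 0) := by
    rw [sP_of (show 0 + 1 < e from he)]
    exact SA_swap _ _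
  have h2 : SA N (aeval (Y (Fin.natAdd n (⟨1, he⟩ : Fin e))) (R.G (!par ((N : ℤ) - 1)))) :=
    (SA_Y _).aeval _
  have h3 : Commute (aeval (Y (Fin.natAdd n (⟨1, he⟩ : Fin e))) (R.G (!par ((N : ℤ) - 1))))
      (emb (Fin.castAddEmb e) Z.z) := Commute.aeval_left (commute_emb_natAdd _ _).symm _
  rw [h3.eq, act_mul, SA_sub_one h1, ← h3.eq, act_mul, h2, Z.SA_emb, ← act_mul, ← act_mul, h3.eq]

/-- the product of the residue elements -/
noncomputable def PG {M : ℕ} (R : Res M) (b : Bool) (n e : ℕ) : ℕ → P (Fin (n + e))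
  | 0 => 1
  | k + 1 => (if h : k < e then aeval (Y (Fin.natAdd n ⟨k, h⟩)) (R.G b) else 1) * PG R b n e k

theorem PG_spec {M : ℕ} (R : Res M) (hM : 2 * (n + e) ≤ M) (b : Bool) (k : ℕ) :
    (∀ (p : ℤ[X]) (j : Fin (n + e)), Commute (aeval (Y j) p) (PG R b n e k)) ∧
    (∀ z : P (Fin n), Commute (emb (Fin.castAddEmb e) z) (PG R b n e k)) ∧
    SA N (PG R b n e k) ∧
    ∀ (a : ℕ) (ha : a < e), a < k → aeval (Y (Fin.natAdd n ⟨a, ha⟩)) (R.G b) * PG R b n e k =
      R.D • PG R b n e k := by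
  induction k with
  | zero =>
    refine ⟨fun _ _ => Commute.one_right _, fun _ => Commute.one_right _, SA_one, fun a _ h => ?_⟩
    omega
  | succ k ih =>
    obtain ⟨h1, h2, h3, h4⟩ := ih
    unfold PG
    split_ifs with hk
    · refine ⟨fun p j => (commute_aeval_aeval (commute_Y _ _) _ _).mul_right (h1 p j),
        fun z => (Commute.aeval_left (commute_emb_natAdd _ _).symm _).symm.mul_right (h2 z),
        ((SA_Y _).aeval _).mul h3 (h1 _ _), fun a ha hak => ?_⟩
      rcases eq_or_ne a k with rfl | hne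
      · rw [← mul_assoc, G_sq R hM, smul_mul_assoc]
      · have h5 : Commute (aeval (Y (Fin.natAdd n (⟨a, ha⟩ : Fin e))) (R.G b))
            (aeval (Y (Fin.natAdd n (⟨k, hk⟩ : Fin e))) (R.G b)) :=
          commute_aeval_aeval (commute_Y _ _) _ _
        rw [← mul_assoc, h5.eq, mul_assoc, h4 a ha (by omega), mul_smul_comm]
    · rw [one_mul]
      exact ⟨h1, h2, h3, fun a ha _ => h4 a ha (by omega)⟩

theorem Cat.PG_zero {M : ℕ} (R : Res M) (hM : 2 * (n + e) + N ≤ M) (he : N < e) :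
    act N _ (PG R (par ((N : ℤ) - 1)) n e e * emb (Fin.castAddEmb e) Z.z) = 0 := by
  obtain ⟨h1, h2, h3, h4⟩ := PG_spec (N := N) Z R (by omega) (par ((N : ℤ) - 1)) e (n := n) (e := e)
  apply act_eq_zero_of_SA (h3.mul (Z.SA_emb _ _) (h2 _).symm)
  intro v hv hv1
  by_contra h0
  obtain ⟨w0, hw0, hm⟩ := (hv1.act (PG R (par ((N : ℤ) - 1)) n e e *
    emb (Fin.castAddEmb e) Z.z)).exists_wt h0
  have h5 := Z.path R e (by omega) h0 (hv.act _) hm (fun a => by
    rw [← act_mul, ← mul_assoc, h4 a a.2 a.2, smul_mul_assoc, act_zsmul]) (by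
    rw [← act_mul, ← mul_assoc, (h2 _).eq, mul_assoc, Z.zz_emb, mul_smul_comm, act_zsmul])
  have h6 := (Phi_le (cnt w0)).2.1
  omega

theorem Cat.Ek_zero {M : ℕ} (R : Res M) (hM : 2 * (n + e) + N ≤ M) (he : N < e) {r : ℕ}
    (hr : (rg M).card ≤ 2 ^ r) :
    Aff.Ek r (fun a => q2 N _ (yP N n e a)) e * q2 N _ (emb (Fin.castAddEmb e) Z.z) = 0 := by
  have key : ∀ k ≤ e, Aff.Ek r (fun a => q2 N _ (yP N n e a)) k =
      Aff.Ek r (fun a => q2 N _ (yP N n e a)) k * q2 N _ (PG R (par ((N : ℤ) - 1)) n e k) := by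
    intro k
    induction k with
    | zero =>
      intro _
      unfold Aff.Ek PG
      rw [map_one, mul_one]
    | succ k ih =>
      intro hk
      obtain ⟨g0, g1, g2⟩ := place (N := N) R (by omega) hr (Fin.natAdd n (⟨k, hk⟩ : Fin e))
      have h1 : Aff.Ek r (fun a => q2 N _ (yP N n e a)) (k + 1) =
        (1 + q2 N _ (yP N n e k)) ^ 2 ^ r * Aff.Ek r (fun a => q2 N _ (yP N n e a)) k := rfl
      have h2 : PG R (par ((N : ℤ) - 1)) n e (k + 1) =
          aeval (Y (Fin.natAdd n (⟨k, hk⟩ : Fin e))) (R.G (par ((N : ℤ) - 1))) *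
            PG R (par ((N : ℤ) - 1)) n e k := by
        change (if h : k < e then aeval (Y (Fin.natAdd n ⟨k, h⟩)) (R.G (par ((N : ℤ) - 1))) else 1) *
          PG R (par ((N : ℤ) - 1)) n e k = _
        rw [dif_pos (show k < e from hk)]
      rw [← yP_of hk] at g1
      set y := q2 N _ (yP N n e k) with hy
      set G0 := q2 N _ (aeval (Y (Fin.natAdd n (⟨k, hk⟩ : Fin e))) (R.G (par ((N : ℤ) - 1)))) with hG0
      have h3 : (1 + y) ^ 2 ^ r = (1 + y) ^ 2 ^ r * G0 := by
        have h4 := congrArg (fun x => (1 + y) ^ 2 ^ r * x) g2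
        simp only [mul_add, mul_one] at h4
        rw [g1, add_zero] at h4
        exact h4.symm
      have h5 : Commute G0 (Aff.Ek r (fun a => q2 N _ (yP N n e a)) k) := by
        apply commute_Ek'
        intro a _
        apply Commute.map
        exact commute_yP_of (fun _ => (Commute.aeval_left (commute_Y _ _) _).symm) a
      rw [h1, h2, map_mul]
      calc (1 + y) ^ 2 ^ r * Aff.Ek r (fun a => q2 N _ (yP N n e a)) k
          = (1 + y) ^ 2 ^ r * G0 * (Aff.Ek r (fun a => q2 N _ (yP N n e a)) k *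
              q2 N _ (PG R (par ((N : ℤ) - 1)) n e k)) := by rw [← ih (by omega), ← h3]
        _ = (1 + y) ^ 2 ^ r * (G0 * Aff.Ek r (fun a => q2 N _ (yP N n e a)) k) *
              q2 N _ (PG R (par ((N : ℤ) - 1)) n e k) := by simp only [mul_assoc]
        _ = _ := by rw [h5.eq]; simp only [mul_assoc]; rfl
  rw [key e le_rfl, mul_assoc, ← map_mul, q2_eq_zero.2 (mem_of_act (Z.PG_zero R hM he)), mul_zero]

/-- **SG1 (be), both sides.** -/
theorem Cat.sg1 (he : N < e) :
    (∃ ρ : ℕ → P (Fin (n + e)),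
      emb (Fin.castAddEmb e) Z.z - ∑ a ∈ range (e - 1), ρ a ∈ K2 N _ ∧
      ∀ a, (a + 1 < e → sP n e a * ρ a - ρ a ∈ K2 N _) ∧
        emb (Fin.castAddEmb e) Z.z * ρ a - ρ a ∈ K2 N _ ∧
        ρ a * emb (Fin.castAddEmb e) Z.z - ρ a ∈ K2 N _) ∧
    (∃ ρ : ℕ → P (Fin (n + e)),
      emb (Fin.castAddEmb e) Z.z - ∑ a ∈ range (e - 1), ρ a ∈ K2 N _ ∧
      ∀ a, (a + 1 < e → ρ a * sP n e a - ρ a ∈ K2 N _) ∧
        emb (Fin.castAddEmb e) Z.z * ρ a - ρ a ∈ K2 N _ ∧
        ρ a * emb (Fin.castAddEmb e) Z.z - ρ a ∈ K2 N _) := by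
  obtain ⟨R⟩ := exists_res (2 * (n + e) + N + 2)
  obtain ⟨r, hr⟩ : ∃ r, (rg (2 * (n + e) + N + 2)).card ≤ 2 ^ r := ⟨_, Nat.lt_two_pow_self.le⟩
  have A := aff (N := N) (n := n) (e := e) R (by omega) hr
  have he0 : 0 < e := by omega
  set θ := q2 N _ (emb (Fin.castAddEmb e) Z.z) with hθ
  have hθθ : θ * θ = θ := by
    rw [hθ, ← map_mul, Z.zz_emb, q2_smul_odd Z.odd]
  have hθy : ∀ a < e, Commute θ (q2 N _ (yP N n e a)) := fun a _ => (commute_emb_yP a _).map _
  have hθs : ∀ a, a + 1 < e → Commute θ (q2 N _ (sP n e a)) := fun a _ => (commute_emb_sP a _).map _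
  have hss : ∀ a, a + 1 < e → q2 N _ (sP n e a) * q2 N _ (sP n e a) = 1 := by
    intro a ha
    rw [← map_mul, sP_of ha, g_swap_sq, map_one]
  have h0 : q2 N _ (yP N n e 0) ^ 2 ^ r * θ = 0 := by
    obtain ⟨g0, -, g2⟩ := place (N := N) R (by omega) hr (Fin.natAdd n (⟨0, he0⟩ : Fin e))
    rw [← yP_of he0] at g0
    have h1 := q2_eq_zero.2 (mem_of_act (Z.rel1 R (by omega) he0))
    rw [map_mul] at h1
    rw [← one_mul θ, ← g2, add_mul, h1, add_zero, ← mul_assoc, g0, zero_mul]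
  have hG1 : ∀ he1 : 1 < e, q2 N _ (yP N n e 1) ^ 2 ^ r * θ = q2 N _ (yP N n e 1) ^ 2 ^ r *
      q2 N _ (aeval (Y (Fin.natAdd n (⟨1, he1⟩ : Fin e))) (R.G (!par ((N : ℤ) - 1))) *
        emb (Fin.castAddEmb e) Z.z) := by
    intro he1
    obtain ⟨g0, -, g2⟩ := place (N := N) R (by omega) hr (Fin.natAdd n (⟨1, he1⟩ : Fin e))
    rw [← yP_of he1] at g0
    rw [map_mul]
    conv_lhs => rw [← one_mul θ, ← g2, add_mul, mul_add, ← mul_assoc, g0, zero_mul, zero_add]
  have hcom : ∀ he1 : 1 < e, Commute (q2 N _ (yP N n e 1) ^ 2 ^ r)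
      (q2 N _ (aeval (Y (Fin.natAdd n (⟨1, he1⟩ : Fin e))) (R.G (!par ((N : ℤ) - 1))) *
        emb (Fin.castAddEmb e) Z.z)) := by
    intro he1
    apply Commute.pow_left
    apply Commute.map
    exact (commute_yP_of (fun _ => (Commute.aeval_left (commute_Y _ _) _).symm) 1).mul_right
      (commute_emb_yP _ _).symm
  have h1 : 1 < e → q2 N _ (sP n e 0) * (q2 N _ (yP N n e 1) ^ 2 ^ r * θ) =
      q2 N _ (yP N n e 1) ^ 2 ^ r * θ := by
    intro he1
    have h2 := q2_eq_zero.2 (mem_of_act (Z.rel2 R (by omega) he1))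
    rw [map_mul, map_sub, map_one, sub_mul, one_mul, sub_eq_zero] at h2
    rw [hG1 he1, (hcom he1).eq, ← mul_assoc, h2]
  have h1' : 1 < e → (q2 N _ (yP N n e 1) ^ 2 ^ r * θ) * q2 N _ (sP n e 0) =
      q2 N _ (yP N n e 1) ^ 2 ^ r * θ := by
    intro he1
    have h2 := q2_eq_zero.2 (mem_of_act (Z.rel2' R (by omega) he1))
    rw [map_mul (q2 N _) _ (sP n e 0 - 1), map_sub, map_one, mul_sub, mul_one, sub_eq_zero] at h2
    rw [hG1 he1, mul_assoc, h2]
  have hE := Z.Ek_zero R (by omega) he hr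
  constructor
  · obtain ⟨ρ, r1, r2, r3, r4⟩ := A.be he0 hθθ hθy hθs hss h0 h1 hE
    choose ρ' hρ' using fun a => Ideal.Quotient.mk_surjective (I := K2 N (Fin (n + e))) (ρ a)
    refine ⟨ρ', ?_, fun a => ⟨fun ha => ?_, ?_, ?_⟩⟩
    · rw [← q2_eq, map_sum, ← hθ, r2]
      exact Finset.sum_congr rfl fun a _ => (hρ' a).symm
    · rw [← q2_eq, map_mul, hρ' a]
      exact r1 a ha
    · rw [← q2_eq, map_mul, hρ' a]
      exact r3 a
    · rw [← q2_eq, map_mul, hρ' a]
      exact r4 a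
  · obtain ⟨ρ, r1, r2, r3, r4⟩ := A.be' he0 hθθ hθy hθs hss h0 h1' hE
    choose ρ' hρ' using fun a => Ideal.Quotient.mk_surjective (I := K2 N (Fin (n + e))) (ρ a)
    refine ⟨ρ', ?_, fun a => ⟨fun ha => ?_, ?_, ?_⟩⟩
    · rw [← q2_eq, map_sum, ← hθ, r2]
      exact Finset.sum_congr rfl fun a _ => (hρ' a).symm
    · rw [← q2_eq, map_mul, hρ' a]
      exact r1 a ha
    · rw [← q2_eq, map_mul, hρ' a]
      exact r3 a
    · rw [← q2_eq, map_mul, hρ' a]
      exact r4 a

/-- **SG2 (ga).** -/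
theorem Cat.sg2 :
    ∃ E1 E0 T : P (Fin (n + 2)),
      (∀ z : P (Fin n), Commute (emb (Fin.castAddEmb 2) z) E1 ∧
        Commute (emb (Fin.castAddEmb 2) z) E0 ∧ Commute (emb (Fin.castAddEmb 2) z) T) ∧
      emb (Fin.castAddEmb 2) Z.z - E1 * emb (Fin.castAddEmb 2) Z.z -
        E0 * emb (Fin.castAddEmb 2) Z.z ∈ K2 N _ ∧
      sP n 2 0 * (E1 * emb (Fin.castAddEmb 2) Z.z) - E1 * emb (Fin.castAddEmb 2) Z.z ∈ K2 N _ ∧
      (E1 * emb (Fin.castAddEmb 2) Z.z) * sP n 2 0 - E1 * emb (Fin.castAddEmb 2) Z.z ∈ K2 N _ ∧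
      E0 * emb (Fin.castAddEmb 2) Z.z - T * emb (Fin.castAddEmb 2) Z.z -
        sP n 2 0 * (T * emb (Fin.castAddEmb 2) Z.z) * sP n 2 0 ∈ K2 N _ := by
  obtain ⟨R⟩ := exists_res (2 * (n + 2) + N + 2)
  obtain ⟨r, hr⟩ : ∃ r, (rg (2 * (n + 2) + N + 2)).card ≤ 2 ^ r := ⟨_, Nat.lt_two_pow_self.le⟩
  have A := aff (N := N) (n := n) (e := 2) R (by omega) hr
  set E1 : P (Fin (n + 2)) := aeval (Y (Fin.natAdd n (1 : Fin 2))) (R.G (!par ((N : ℤ) - 1))) with hE1
  set E0 : P (Fin (n + 2)) := aeval (Y (Fin.natAdd n (1 : Fin 2))) (R.G (par ((N : ℤ) - 1))) with hE0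
  set ζ : P (Fin (n + 2)) := emb (Fin.castAddEmb 2) Z.z with hζ
  set T : P (Fin (n + 2)) := yP N n 2 0 * sP n 2 0 *
    (1 + (yP N n 2 0 + yP N n 2 1) * sP n 2 0) ^ (2 ^ (r + 1) - 1) * E0 with hT
  have hc1 : ∀ z, Commute (emb (Fin.castAddEmb 2) z) E1 := fun z =>
    (Commute.aeval_left (commute_emb_natAdd _ _).symm _).symm
  have hc0 : ∀ z, Commute (emb (Fin.castAddEmb 2) z) E0 := fun z =>
    (Commute.aeval_left (commute_emb_natAdd _ _).symm _).symm
  have hss : q2 N _ (sP n 2 0) * q2 N _ (sP n 2 0) = 1 := by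
    rw [← map_mul, sP_of (by norm_num), g_swap_sq, map_one]
  have hsum : q2 N _ (E1 * ζ) + q2 N _ (E0 * ζ) = q2 N _ ζ := by
    have h2 := q2_G_add (N := N) R (Y (Fin.natAdd n (1 : Fin 2))) (par ((N : ℤ) - 1))
    have h3 : q2 N _ E1 + q2 N _ E0 = 1 := by rw [add_comm (q2 N _ E1)]; exact h2
    rw [map_mul, map_mul, ← add_mul, h3, one_mul]
  have hl : q2 N _ (sP n 2 0) * q2 N _ (E1 * ζ) = q2 N _ (E1 * ζ) := by
    have h2 := q2_eq_zero.2 (mem_of_act (Z.rel2 (e := 2) R (by omega) (by norm_num)))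
    rw [map_mul, map_sub, map_one, sub_mul, one_mul, sub_eq_zero] at h2
    exact h2
  have hrr : q2 N _ (E1 * ζ) * q2 N _ (sP n 2 0) = q2 N _ (E1 * ζ) := by
    have h2 := q2_eq_zero.2 (mem_of_act (Z.rel2' (e := 2) R (by omega) (by norm_num)))
    rw [map_mul (q2 N _) _ (sP n 2 0 - 1), map_sub, map_one, mul_sub, mul_one, sub_eq_zero] at h2
    exact h2
  have hε : Commute (q2 N _ (sP n 2 0)) (q2 N _ (E0 * ζ)) := by
    have h3 : q2 N _ (E0 * ζ) = q2 N _ ζ - q2 N _ (E1 * ζ) := by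
      rw [← hsum]
      abel
    rw [h3]
    refine Commute.sub_right ((commute_emb_sP 0 _).symm.map _) ?_
    exact hl.trans hrr.symm
  have h0 : q2 N _ (yP N n 2 0) ^ 2 ^ r * q2 N _ (E0 * ζ) = 0 := by
    obtain ⟨g0, -, g2⟩ := place (N := N) R (by omega) hr (Fin.natAdd n (0 : Fin 2))
    have e1 : yP N n 2 0 = Y (Fin.natAdd n (0 : Fin 2)) - ((N : ℤ) - 1) • (1 : P _) :=
      yP_of (by norm_num)
    rw [← e1] at g0
    have h1 := q2_eq_zero.2 (mem_of_act (Z.rel1 (e := 2) R (by omega) (by norm_num)))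
    rw [map_mul] at h1
    have h2 : q2 N _ (yP N n 2 0) ^ 2 ^ r * q2 N _ ζ = 0 := by
      rw [← one_mul (q2 N _ ζ), ← g2, add_mul]
      have h3 : q2 N _ (aeval (Y (Fin.natAdd n (0 : Fin 2))) (R.G (!par ((N : ℤ) - 1)))) *
        q2 N _ ζ = 0 := h1
      rw [h3, add_zero, ← mul_assoc, g0, zero_mul]
    rw [← (hc0 Z.z).eq, map_mul, ← mul_assoc, h2, zero_mul]
  have h1 : q2 N _ (yP N n 2 1) ^ 2 ^ r * q2 N _ (E0 * ζ) = 0 := by
    obtain ⟨g0, -, g2⟩ := place (N := N) R (by omega) hr (Fin.natAdd n (1 : Fin 2))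
    have e1 : yP N n 2 1 = Y (Fin.natAdd n (1 : Fin 2)) - ((N : ℤ) - 1) • (1 : P _) :=
      yP_of (by norm_num)
    rw [← e1, ← hE0] at g0
    rw [map_mul, ← mul_assoc, g0, zero_mul]
  have hga := A.ga hss hε h0 h1 rfl
  refine ⟨E1, E0, T, fun z => ⟨hc1 z, hc0 z, ?_⟩, ?_, ?_, ?_, ?_⟩
  · refine (((commute_emb_yP _ _).mul_right (commute_emb_sP _ _)).mul_right
      (Commute.pow_right ?_ _)).mul_right (hc0 z)
    exact (Commute.one_right _).add_right
      (((commute_emb_yP _ _).add_right (commute_emb_yP _ _)).mul_right (commute_emb_sP _ _))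
  · rw [sub_sub, ← q2_eq, map_add, hsum]
  · rw [← q2_eq, map_mul]
    exact hl
  · rw [← q2_eq, map_mul]
    exact hrr
  · rw [sub_sub, ← q2_eq, map_add]
    refine hga.trans ?_
    have h2 : q2 N _ (T * ζ) = q2 N _ (yP N n 2 0) * q2 N _ (sP n 2 0) *
        (1 + (q2 N _ (yP N n 2 0) + q2 N _ (yP N n 2 1)) * q2 N _ (sP n 2 0)) ^ (2 ^ (r + 1) - 1) *
          q2 N _ (E0 * ζ) := by
      rw [hT]
      simp only [map_mul, map_pow, map_add, map_one, mul_assoc]
    rw [map_mul (q2 N _) (sP n 2 0 * (T * ζ)), map_mul (q2 N _) (sP n 2 0), h2]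

end pl

end Pool.PI34.SG

end

/-! ### part SG_Out -/
section

/-!
PI34, block SG, file 10: the results on sums of sets of places.
-/

set_option autoImplicit false
set_option linter.unusedSectionVars false
set_option linter.unusedDecidableInType false
set_option linter.unusedFintypeInType false

namespace Pool.PI34.SG

open Equiv Finset Polynomial
open Pool.PI34.H4

theorem act_ne_of_tc {N : ℕ} {α : Type} [Fintype α] [DecidableEq α] {z : P α} (h : 0 < tc N z) :
    act N α z ≠ 0 := by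
  intro h0
  have : tc N z = 0 := by
    unfold tc
    rw [h0]
    simp
  rw [this] at h
  exact lt_irrefl _ h

/-- the catalyst in the form of a structure -/
theorem exists_Cat (N : ℕ) : ∃ (n : ℕ) (Z : Cat N n), 0 < tc N Z.z ∧ act N _ Z.z ≠ 0 ∧
    (∀ N', N' + 1 < N → act N' _ Z.z = 0) ∧ (∀ N', N' + 1 = N → act N' _ Z.z ≠ 0) := by
  obtain ⟨n, z, h, h1, h2, h3, h4, h5, h6, h7, h8, h9⟩ := exists_cat N
  exact ⟨n, ⟨z, h, h1, h2, h3, h4, h5, h7⟩, h6, act_ne_of_tc h6, h8, h9⟩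

/-- the identification of the places -/
def ee (n e : ℕ) : Fin (n + e) ↪ Fin n ⊕ Fin e := finSumFinEquiv.symm.toEmbedding

theorem ee_castAdd (n e : ℕ) : (Fin.castAddEmb e).trans (ee n e) = Function.Embedding.inl := by
  ext1 i
  exact finSumFinEquiv_symm_apply_castAdd i

theorem ee_natAdd {n e : ℕ} (a : Fin e) : ee n e (Fin.natAdd n a) = Sum.inr a :=
  finSumFinEquiv_symm_apply_natAdd a

variable {N n : ℕ} (Z : Cat N n)

theorem emb_ee_z {e : ℕ} (z : P (Fin n)) :
    emb (ee n e) (emb (Fin.castAddEmb e) z) = emb Function.Embedding.inl z := by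
  rw [emb_trans, ee_castAdd]

theorem emb_ee_s {e a : ℕ} (h : a + 1 < e) :
    emb (ee n e) (sP n e a) =
      g (swap (Sum.inr (⟨a, by omega⟩ : Fin e)) (Sum.inr (⟨a + 1, h⟩ : Fin e))) := by
  rw [sP_of h, emb_g, swap_via, ee_natAdd, ee_natAdd]

include Z in
/-- **SG1 (be)**, the transpositions on the left. -/
theorem Cat.be_left : ∃ ρ : Fin N → P (Fin n ⊕ Fin (N + 1)),
    emb Function.Embedding.inl Z.z - ∑ a, ρ a ∈ K2 N _ ∧
    ∀ a, g (swap (Sum.inr a.castSucc) (Sum.inr a.succ)) * ρ a - ρ a ∈ K2 N _ ∧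
      emb Function.Embedding.inl Z.z * ρ a - ρ a ∈ K2 N _ ∧
      ρ a * emb Function.Embedding.inl Z.z - ρ a ∈ K2 N _ := by
  obtain ⟨⟨ρ, h1, h2⟩, -⟩ := Z.sg1 (e := N + 1) (Nat.lt_succ_self N)
  refine ⟨fun a => emb (ee n (N + 1)) (ρ a), ?_, fun a => ⟨?_, ?_, ?_⟩⟩
  · have h3 := emb_mem (ee n (N + 1)) h1
    rw [map_sub, emb_ee_z, map_sum, Nat.add_sub_cancel] at h3
    rw [Fin.sum_univ_eq_sum_range (fun a => emb (ee n (N + 1)) (ρ a)) N]
    exact h3
  · have h3 := emb_mem (ee n (N + 1)) ((h2 a).1 (by omega))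
    rw [map_sub, map_mul, emb_ee_s (by omega)] at h3
    exact h3
  · have h3 := emb_mem (ee n (N + 1)) (h2 a).2.1
    rw [map_sub, map_mul, emb_ee_z] at h3
    exact h3
  · have h3 := emb_mem (ee n (N + 1)) (h2 a).2.2
    rw [map_sub, map_mul, emb_ee_z] at h3
    exact h3

include Z in
/-- **SG1 (be)**, the transpositions on the right. -/
theorem Cat.be_right : ∃ ρ : Fin N → P (Fin n ⊕ Fin (N + 1)),
    emb Function.Embedding.inl Z.z - ∑ a, ρ a ∈ K2 N _ ∧
    ∀ a, ρ a * g (swap (Sum.inr a.castSucc) (Sum.inr a.succ)) - ρ a ∈ K2 N _ ∧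
      emb Function.Embedding.inl Z.z * ρ a - ρ a ∈ K2 N _ ∧
      ρ a * emb Function.Embedding.inl Z.z - ρ a ∈ K2 N _ := by
  obtain ⟨-, ρ, h1, h2⟩ := Z.sg1 (e := N + 1) (Nat.lt_succ_self N)
  refine ⟨fun a => emb (ee n (N + 1)) (ρ a), ?_, fun a => ⟨?_, ?_, ?_⟩⟩
  · have h3 := emb_mem (ee n (N + 1)) h1
    rw [map_sub, emb_ee_z, map_sum, Nat.add_sub_cancel] at h3
    rw [Fin.sum_univ_eq_sum_range (fun a => emb (ee n (N + 1)) (ρ a)) N]
    exact h3
  · have h3 := emb_mem (ee n (N + 1)) ((h2 a).1 (by omega))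
    rw [map_sub, map_mul, emb_ee_s (by omega)] at h3
    exact h3
  · have h3 := emb_mem (ee n (N + 1)) (h2 a).2.1
    rw [map_sub, map_mul, emb_ee_z] at h3
    exact h3
  · have h3 := emb_mem (ee n (N + 1)) (h2 a).2.2
    rw [map_sub, map_mul, emb_ee_z] at h3
    exact h3

include Z in
/-- **SG2 (ga)**. -/
theorem Cat.ga' : ∃ E1 E0 T : P (Fin n ⊕ Fin 2),
    (∀ z : P (Fin n), Commute (emb Function.Embedding.inl z) E1 ∧
      Commute (emb Function.Embedding.inl z) E0 ∧ Commute (emb Function.Embedding.inl z) T) ∧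
    emb Function.Embedding.inl Z.z - E1 * emb Function.Embedding.inl Z.z -
      E0 * emb Function.Embedding.inl Z.z ∈ K2 N _ ∧
    g (swap (Sum.inr 0) (Sum.inr 1)) * (E1 * emb Function.Embedding.inl Z.z) -
      E1 * emb Function.Embedding.inl Z.z ∈ K2 N _ ∧
    (E1 * emb Function.Embedding.inl Z.z) * g (swap (Sum.inr 0) (Sum.inr 1)) -
      E1 * emb Function.Embedding.inl Z.z ∈ K2 N _ ∧
    E0 * emb Function.Embedding.inl Z.z - T * emb Function.Embedding.inl Z.z -
      g (swap (Sum.inr 0) (Sum.inr 1)) * (T * emb Function.Embedding.inl Z.z) *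
        g (swap (Sum.inr 0) (Sum.inr 1)) ∈ K2 N _ := by
  obtain ⟨E1, E0, T, h1, h2, h3, h4, h5⟩ := Z.sg2
  have hs : emb (ee n 2) (sP n 2 0) = g (swap (Sum.inr (0 : Fin 2)) (Sum.inr (1 : Fin 2))) :=
    emb_ee_s (by norm_num)
  refine ⟨emb (ee n 2) E1, emb (ee n 2) E0, emb (ee n 2) T, fun z => ⟨?_, ?_, ?_⟩, ?_, ?_, ?_, ?_⟩
  · rw [← emb_ee_z]
    exact (h1 z).1.map _
  · rw [← emb_ee_z]
    exact (h1 z).2.1.map _
  · rw [← emb_ee_z]
    exact (h1 z).2.2.map _
  · have h6 := emb_mem (ee n 2) h2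
    rw [map_sub, map_sub, map_mul, map_mul, emb_ee_z] at h6
    exact h6
  · have h6 := emb_mem (ee n 2) h3
    rw [map_sub, map_mul, map_mul, hs, emb_ee_z] at h6
    exact h6
  · have h6 := emb_mem (ee n 2) h4
    rw [map_sub, map_mul, map_mul, hs, emb_ee_z] at h6
    exact h6
  · have h6 := emb_mem (ee n 2) h5
    rw [map_sub, map_sub, map_mul (emb _) _ (sP n 2 0), map_mul (emb _) (sP n 2 0), map_mul,
      map_mul, hs, emb_ee_z] at h6
    exact h6

end Pool.PI34.SG

end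

/-! ### part SG_EX -/
section

/-!
PI34, block SG, file 11: the data of the two layers of block EX.
-/

set_option autoImplicit false
set_option linter.unusedSectionVars false
set_option linter.unusedDecidableInType false
set_option linter.unusedFintypeInType false

namespace Pool.PI34.SG

open Equiv Finset Polynomial
open Pool.PI34.H4

section kill

variable {N : ℕ} {α : Type} [Fintype α] [DecidableEq α]

theorem pa_zsmul (m : ℤ) (x : P α) (f : (α → Fin N) → ℤ) :
    EX.pa ℤ (Fin N) α (m • x) f = m • EX.pa ℤ (Fin N) α x f := by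
  rw [map_zsmul]
  rfl

theorem pa_add (x y : P α) (f : (α → Fin N) → ℤ) :
    EX.pa ℤ (Fin N) α (x + y) f = EX.pa ℤ (Fin N) α x f + EX.pa ℤ (Fin N) α y f := by
  rw [map_add]
  rfl

theorem pa_cast (y : P α) (f : (α → Fin N) → ℤ) (w : α → Fin N) :
    ((EX.pa ℤ (Fin N) α y f w : ℤ) : ℚ) = act N α y (fun w => (f w : ℚ)) w := by
  refine P_induction (p := fun y => ((EX.pa ℤ (Fin N) α y f w : ℤ) : ℚ) =
    act N α y (fun w => (f w : ℚ)) w) y ?_ ?_ ?_
  · intro σ
    rw [EX.pa_g, act_g]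
  · intro a b ha hb
    rw [pa_add, act_add, Pi.add_apply, Pi.add_apply, Int.cast_add, ha, hb]
  · intro m a ha
    rw [pa_zsmul, act_zsmul, Pi.smul_apply, Pi.smul_apply, smul_eq_mul, Int.cast_mul, ha,
      zsmul_eq_mul]

theorem Kill_iff (y : P α) : EX.Kill (Fin N) y ↔ act N α y = 0 := by
  constructor
  · intro h
    refine LinearMap.ext fun f => ?_
    have h1 : ∀ w', act N α y (Pi.single w' 1) = 0 := by
      intro w'
      funext w
      have h2 := pa_cast y (Pi.single w' 1 : (α → Fin N) → ℤ) w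
      have h3 : (fun w => (((Pi.single w' 1 : (α → Fin N) → ℤ) w : ℤ) : ℚ)) = Pi.single w' 1 := by
        funext w
        rw [Pi.single_apply, Pi.single_apply]
        split_ifs <;> simp
      rw [h3] at h2
      rw [← h2]
      unfold EX.Kill at h
      rw [h]
      simp
    have h4 : f = ∑ w, f w • (Pi.single w 1 : W N α) := by
      funext w'
      rw [Finset.sum_apply]
      simp [Pi.single_apply]
    rw [h4, map_sum, LinearMap.zero_apply]
    exact Finset.sum_eq_zero fun w _ => by rw [map_smul, h1, smul_zero]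
  · intro h
    unfold EX.Kill
    refine LinearMap.ext fun f => ?_
    funext w
    have h2 := pa_cast y f w
    rw [h] at h2
    have h3 : ((EX.pa ℤ (Fin N) α y f w : ℤ) : ℚ) = 0 := h2
    exact_mod_cast h3

theorem K2_iff {y : P α} : y ∈ K2 N α ↔ EX.K2 (Fin N) y := by
  rw [mem_K2]
  unfold EX.K2
  constructor
  · rintro ⟨y', h⟩
    exact ⟨y', by rw [Kill_iff, map_sub, h, sub_self]⟩
  · rintro ⟨y', h⟩
    rw [Kill_iff, map_sub, sub_eq_zero] at h
    exact ⟨y', h⟩

end kill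

theorem exact_form {n : ℕ} {z : P (Fin n)} {h : ℤ} (ho : Odd h) (hz : z * z = h • z) :
    ∃ c : ℤ, z * z = (2 * c + 1) • z := by
  obtain ⟨c, rfl⟩ := ho
  exact ⟨c, hz⟩

theorem kill_form {L : Type} {n : ℕ} {z : P (Fin n)} {h : ℤ} (ho : Odd h) (hz : z * z = h • z) :
    ∃ c : ℤ, EX.Kill L (z * z - (2 * c + 1) • z) := by
  obtain ⟨c, hc⟩ := exact_form ho hz
  refine ⟨c, ?_⟩
  rw [hc, sub_self]
  exact map_zero _

theorem exists_VD (m : ℕ) : Nonempty (EX.VD m) := by
  obtain ⟨n, Z, -, hne, -, -⟩ := exists_Cat m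
  obtain ⟨E1, E0, T, hc, h1, h2, h3, h4⟩ := Z.ga'
  have hzz : emb Function.Embedding.inl Z.z * emb Function.Embedding.inl Z.z =
      Z.h • (emb (Function.Embedding.inl : Fin n ↪ Fin n ⊕ Fin 2) Z.z) := Z.zz_emb _
  refine ⟨{
    X := Fin n
    z := Z.z
    e1 := E1 * emb Function.Embedding.inl Z.z
    e0 := E0 * emb Function.Embedding.inl Z.z
    th := T * emb Function.Embedding.inl Z.z
    hne := fun h => hne ((Kill_iff _).1 h)
    hzz := kill_form Z.odd Z.zz
    hsum := K2_iff.1 h1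
    hfe := K2_iff.1 h2
    hef := K2_iff.1 h3
    hth := K2_iff.1 h4
    hz1 := K2_iff.1 ?_
    hc1 := (hc _).1.mul_right (Commute.refl _)
    hct := (hc _).2.2.mul_right (Commute.refl _) }⟩
  rw [mul_assoc, hzz, mul_smul_comm, ← q2_eq, q2_smul_odd Z.odd]

theorem exists_WD (N : ℕ) : Nonempty (EX.WD N) := by
  obtain ⟨n, Z, -, hne, -, -⟩ := exists_Cat N
  obtain ⟨ρ, h1, h2⟩ := Z.be_right
  refine ⟨{
    Y := Fin n
    w := Z.z
    rho := ρ
    hne := fun h => hne ((Kill_iff _).1 h)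
    hww := kill_form Z.odd Z.zz
    hsum := K2_iff.1 h1
    hrs := fun a => K2_iff.1 (h2 a).1
    hrw := fun a => K2_iff.1 (h2 a).2.2 }⟩

end Pool.PI34.SG

end
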