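import Pool.Agent.LibPI54.M12

/-! ### part A5_Wt -/
section

/-! PI34, block A5, file Wt: weights. -/

set_option autoImplicit false

namespace Pool.PI34.A5

open Finset Matrix

variable {m : ℕ} {c : Fin m → ℕ} {K : Type} [Field K]

private lemma eval_mono (t : Fin m → K) (κ : Fin m → ℕ) (a : K) :
    MvPolynomial.eval t (MvPolynomial.monomial (Finsupp.equivFunOnFinite.symm κ) a) =
      a * tw t κ := by
  rw [MvPolynomial.eval_monomial, Finsupp.prod_fintype _ _ (fun i => pow_zero _)]
  rfl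

private lemma tw_poly (κ : Fin m → ℕ) :
    (fun t => tw t κ) ∈ PolyFn (fun x : Fin m → K => x) :=
  (mem_PolyFn _ _).2 ⟨MvPolynomial.monomial (Finsupp.equivFunOnFinite.symm κ) 1, fun t => by
    rw [eval_mono, one_mul]⟩

/-- the functions `t ↦ t^κ` are linearly independent (also with vector coefficients).
PROOF.  Apply a functional `φ` to reduce to scalar coefficients; `∑ φ(v κ) X^κ` is a polynomial which vanishes everywhere (`MvPolynomial.funext`). -/
theorem tw_indep [Infinite K] {V : Type} [AddCommGroup V] [Module K V]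
    (W : Finset (Fin m → ℕ)) (v : (Fin m → ℕ) → V)
    (h : ∀ t : Fin m → K, ∑ κ ∈ W, tw t κ • v κ = 0) (κ : Fin m → ℕ) (hκ : κ ∈ W) : v κ = 0 := by
  rw [← Module.forall_dual_apply_eq_zero_iff K]
  intro φ
  have hp : (∑ μ ∈ W, MvPolynomial.monomial (Finsupp.equivFunOnFinite.symm μ) (φ (v μ)) :
      MvPolynomial (Fin m) K) = 0 := by
    refine MvPolynomial.funext fun t => ?_
    rw [map_sum, map_zero]
    have h1 := congrArg φ (h t)
    rw [map_sum, map_zero] at h1
    rw [← h1]
    refine sum_congr rfl fun μ _ => ?_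
    rw [eval_mono, map_smul, smul_eq_mul, mul_comm]
  have h2 := congrArg (MvPolynomial.coeff (Finsupp.equivFunOnFinite.symm κ)) hp
  rw [MvPolynomial.coeff_sum, MvPolynomial.coeff_zero, sum_eq_single κ] at h2
  · rwa [MvPolynomial.coeff_monomial, if_pos rfl] at h2
  · intro μ _ hμ
    rw [MvPolynomial.coeff_monomial, if_neg]
    exact fun e => hμ (Finsupp.equivFunOnFinite.symm.injective e)
  · exact fun h3 => absurd hκ h3

/-- PROOF.  Choose a basis `b` of `M.V`; the matrix coefficients `t ↦ b.repr (M.ρ (dg c t) (b j)) i` are polynomial functions of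
`t` (`M.poly` and `comp_mem`), i.e. given by polynomials `p i j : MvPolynomial (Fin m) K`.  `W` = union of the supports (transported to
functions), `P κ` = the endomorphism with matrix `coeff κ (p i j)`. -/
theorem exists_wt (M : PRep c K) : ∃ (W : Finset (Fin m → ℕ)) (P : (Fin m → ℕ) → Module.End K M.V),
    (∀ κ, κ ∉ W → P κ = 0) ∧ ∀ t : Fin m → K, M.ρ (dg c t) = ∑ κ ∈ W, tw t κ • P κ := by
  classical
  let b := Module.finBasis K M.V
  have h1 : ∀ i j, ∃ p : MvPolynomial (Fin m) K, ∀ t : Fin m → K,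
      b.repr (M.ρ (dg c t) (b j)) i = MvPolynomial.eval t p := by
    intro i j
    have h2 := comp_mem (crd c K) (fun x : Fin m → K => x) (dg c) (fun ij => ?_) _
      (M.poly (b j) (b.coord i))
    · exact (mem_PolyFn _ _).1 h2
    · by_cases hij : ij.1 = ij.2
      · have e : (fun t : Fin m → K => crd c K (dg c t) ij) = fun t => t ij.1 := by
          funext t
          show Matrix.diagonal t ij.1 ij.2 = t ij.1
          rw [← hij, Matrix.diagonal_apply_eq]
        rw [e]
        exact coord_mem _ ij.1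
      · have e : (fun t : Fin m → K => crd c K (dg c t) ij) = fun _ => 0 := by
          funext t
          show Matrix.diagonal t ij.1 ij.2 = 0
          rw [Matrix.diagonal_apply_ne _ hij]
        rw [e]
        exact const_mem _ 0
  choose p hp using h1
  refine ⟨univ.biUnion fun i => univ.biUnion fun j =>
      (p i j).support.image (fun s : Fin m →₀ ℕ => ⇑s),
    fun κ => Matrix.toLin b b (Matrix.of fun i j => (p i j).coeff (Finsupp.equivFunOnFinite.symm κ)),
    ?_, ?_⟩
  · intro κ hκ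
    have e : (Matrix.of fun i j => (p i j).coeff (Finsupp.equivFunOnFinite.symm κ)) = 0 := by
      ext i j
      rw [Matrix.of_apply, Matrix.zero_apply]
      by_contra h2
      refine hκ (mem_biUnion.2 ⟨i, mem_univ _, mem_biUnion.2 ⟨j, mem_univ _, mem_image.2
        ⟨Finsupp.equivFunOnFinite.symm κ, MvPolynomial.mem_support_iff.2 h2, ?_⟩⟩⟩)
      exact Finsupp.equivFunOnFinite.apply_symm_apply κ
    show Matrix.toLin b b _ = 0
    rw [e, map_zero]
  · intro t
    refine b.ext fun j => b.ext_elem fun i => ?_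
    rw [hp, LinearMap.sum_apply, map_sum, Finsupp.finsetSum_apply]
    have h3 : ∀ κ : Fin m → ℕ, (b.repr ((tw t κ • Matrix.toLin b b (Matrix.of fun i j =>
        (p i j).coeff (Finsupp.equivFunOnFinite.symm κ))) (b j))) i =
          tw t κ * (p i j).coeff (Finsupp.equivFunOnFinite.symm κ) := by
      intro κ
      rw [LinearMap.smul_apply, map_smul, Finsupp.smul_apply, smul_eq_mul, Matrix.toLin_self]
      congr 1
      simp [Finsupp.single_apply]
    rw [sum_congr rfl fun κ _ => h3 κ]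
    rw [MvPolynomial.eval_eq']
    have h4 : ∑ d ∈ (p i j).support, MvPolynomial.coeff d (p i j) * ∏ i, t i ^ d i =
        ∑ κ ∈ (p i j).support.image (fun s : Fin m →₀ ℕ => ⇑s),
          tw t κ * (p i j).coeff (Finsupp.equivFunOnFinite.symm κ) := by
      rw [sum_image fun a _ b _ h => DFunLike.coe_injective h]
      refine sum_congr rfl fun d _ => ?_
      rw [mul_comm]
      congr 1
      congr 1
      exact (Finsupp.equivFunOnFinite.symm_apply_apply d).symm
    rw [h4]
    refine sum_subset ?_ ?_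
    · intro κ hκ
      exact mem_biUnion.2 ⟨i, mem_univ _, mem_biUnion.2 ⟨j, mem_univ _, hκ⟩⟩
    · intro κ _ hκ
      have h5 : (p i j).coeff (Finsupp.equivFunOnFinite.symm κ) = 0 := by
        by_contra h2
        exact hκ (mem_image.2 ⟨Finsupp.equivFunOnFinite.symm κ, MvPolynomial.mem_support_iff.2 h2,
          Finsupp.equivFunOnFinite.apply_symm_apply κ⟩)
      rw [h5, mul_zero]

/-- a finite set containing all the weights -/
noncomputable def PRep.W (M : PRep c K) : Finset (Fin m → ℕ) := (exists_wt M).choose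

/-- the weight projections -/
noncomputable def PRep.P (M : PRep c K) : (Fin m → ℕ) → Module.End K M.V :=
  (exists_wt M).choose_spec.choose

theorem P_not_mem (M : PRep c K) (κ : Fin m → ℕ) (h : κ ∉ M.W) : M.P κ = 0 :=
  (exists_wt M).choose_spec.choose_spec.1 κ h

theorem rho_dg (M : PRep c K) (t : Fin m → K) : M.ρ (dg c t) = ∑ κ ∈ M.W, tw t κ • M.P κ :=
  (exists_wt M).choose_spec.choose_spec.2 t

private lemma dg_mul (s t : Fin m → K) : dg c (fun i => s i * t i) = dg c s * dg c t := by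
  apply Subtype.ext
  show Matrix.diagonal _ = Matrix.diagonal s * Matrix.diagonal t
  rw [Matrix.diagonal_mul_diagonal]

private lemma dg_one : dg c (fun _ => (1 : K)) = 1 := by
  apply Subtype.ext
  exact Matrix.diagonal_one

private lemma tw_mul (s t : Fin m → K) (κ : Fin m → ℕ) :
    tw (fun i => s i * t i) κ = tw s κ * tw t κ := by
  simp only [tw, mul_pow, prod_mul_distrib]

/-- PROOF.  `ρ(t s) = ρ(t) ρ(s)` gives `∑ t^κ s^κ P κ = ∑ t^μ s^κ P μ ∘ P κ`; compare the coefficients of `s^κ` (`tw_indep` with coefficients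
in `End`): `t^κ P κ = ∑_μ t^μ P μ ∘ P κ = ρ(t) ∘ P κ`. -/
theorem P_mem (M : PRep c K) [Infinite K] (κ : Fin m → ℕ) (v : M.V) : M.P κ v ∈ M.wt κ := by
  intro t
  by_cases hκ : κ ∈ M.W
  · have h := tw_indep (K := K) M.W (fun κ => (M.ρ (dg c t) * M.P κ - tw t κ • M.P κ : Module.End K M.V)) (fun s => ?_) κ hκ
    · have h2 := congrArg (fun T : Module.End K M.V => T v) h
      simp only [LinearMap.sub_apply, LinearMap.zero_apply, Module.End.mul_apply,
        LinearMap.smul_apply] at h2
      exact sub_eq_zero.1 h2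
    · have h1 : M.ρ (dg c (fun i => t i * s i)) = M.ρ (dg c t) * M.ρ (dg c s) := by
        rw [dg_mul, map_mul]
      rw [rho_dg, rho_dg M s, mul_sum] at h1
      rw [sum_congr rfl fun κ _ => smul_sub _ _ _, sum_sub_distrib, sub_eq_zero]
      have h3 : ∀ κ ∈ M.W, tw s κ • (M.ρ (dg c t) * M.P κ) =
          M.ρ (dg c t) * (tw s κ • M.P κ) := fun κ _ =>
            (mul_smul_comm (tw s κ) (M.ρ (dg c t)) (M.P κ)).symm
      rw [sum_congr rfl h3, ← h1]
      refine sum_congr rfl fun κ _ => ?_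
      rw [tw_mul, smul_smul, mul_comm]
  · rw [P_not_mem M κ hκ, LinearMap.zero_apply, map_zero, smul_zero]

private lemma P_apply [DecidableEq (Fin m → ℕ)] (M : PRep c K) [Infinite K] (μ : Fin m → ℕ)
    (v : M.V) (h : v ∈ M.wt μ) (κ : Fin m → ℕ) : M.P κ v = if κ = μ then v else 0 := by
  have h1 : ∀ t : Fin m → K, ∑ κ ∈ insert μ (insert κ M.W),
      tw t κ • (M.P κ v - if κ = μ then v else 0) = 0 := by
    intro t
    rw [sum_congr rfl fun κ _ => smul_sub _ _ _, sum_sub_distrib, sub_eq_zero]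
    have h2 : ∑ ν ∈ insert μ (insert κ M.W), tw t ν • M.P ν v = M.ρ (dg c t) v := by
      rw [rho_dg, LinearMap.sum_apply]
      symm
      refine sum_subset (fun x hx => mem_insert_of_mem (mem_insert_of_mem hx)) fun ν _ hν => ?_
      rw [P_not_mem M ν hν, smul_zero, LinearMap.zero_apply]
    rw [h2, h t, sum_eq_single μ]
    · rw [if_pos rfl]
    · intro ν _ hν
      rw [if_neg hν, smul_zero]
    · exact fun h3 => absurd (mem_insert_self _ _) h3
  exact sub_eq_zero.1 (tw_indep _ _ h1 κ (mem_insert_of_mem (mem_insert_self _ _)))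

theorem P_self (M : PRep c K) [Infinite K] (κ : Fin m → ℕ) (v : M.V) (h : v ∈ M.wt κ) :
    M.P κ v = v := by
  classical
  rw [P_apply M κ v h κ, if_pos rfl]

theorem P_ne (M : PRep c K) [Infinite K] (κ μ : Fin m → ℕ) (hκ : κ ≠ μ) (v : M.V)
    (h : v ∈ M.wt μ) : M.P κ v = 0 := by
  classical
  rw [P_apply M μ v h κ, if_neg hκ]

theorem sum_P (M : PRep c K) (v : M.V) : ∑ κ ∈ M.W, M.P κ v = v := by
  have h := rho_dg M (fun _ => (1 : K))
  rw [dg_one, map_one] at h
  have h1 := congrArg (fun T : Module.End K M.V => T v) h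
  simp only [Module.End.one_apply, LinearMap.sum_apply, LinearMap.smul_apply] at h1
  conv_rhs => rw [h1]
  refine sum_congr rfl fun κ _ => ?_
  simp [tw]

theorem wt_bot (M : PRep c K) [Infinite K] (κ : Fin m → ℕ) (h : κ ∉ M.W) : M.wt κ = ⊥ := by
  rw [Submodule.eq_bot_iff]
  intro v hv
  rw [← P_self M κ v hv, P_not_mem M κ h, LinearMap.zero_apply]

/-- equivariant maps commute with the weight projections -/
theorem P_eqv (M N : PRep c K) [Infinite K] (f : M.V →ₗ[K] N.V) (hf : Eqv M N f) (κ : Fin m → ℕ)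
    (v : M.V) : f (M.P κ v) = N.P κ (f v) := by
  have h1 : ∀ μ, f (M.P μ v) ∈ N.wt μ := by
    intro μ t
    rw [← hf, P_mem M μ v t, map_smul]
  conv_rhs => rw [← sum_P M v, map_sum, map_sum]
  by_cases hκ : κ ∈ M.W
  · rw [sum_eq_single κ]
    · exact (P_self N κ _ (h1 κ)).symm
    · intro μ _ hμ
      exact P_ne N κ μ hμ.symm _ (h1 μ)
    · exact fun h => absurd hκ h
  · rw [P_not_mem M κ hκ, LinearMap.zero_apply, map_zero]
    symm
    refine sum_eq_zero fun μ hμ => ?_
    exact P_ne N κ μ (fun e => hκ (e ▸ hμ)) _ (h1 μ)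

/-- it is enough to check weights on invertible diagonal matrices (density, `t ↦ φ (ρ(t) v - t^κ v)` times `∏ t_i`) -/
theorem mem_wt_of_units (M : PRep c K) [Infinite K] (κ : Fin m → ℕ) (v : M.V)
    (h : ∀ t : Fin m → K, (∀ i, t i ≠ 0) → M.ρ (dg c t) v = tw t κ • v) : v ∈ M.wt κ := by
  intro t
  rw [← sub_eq_zero, ← Module.forall_dual_apply_eq_zero_iff K]
  intro φ
  refine poly_mul_zero (fun t : Fin m → K => φ (M.ρ (dg c t) v - tw t κ • v))
    (fun t => ∏ i, t i) ?_ ?_ ?_ ⟨fun _ => 1, by simp⟩ t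
  · have e : (fun t : Fin m → K => φ (M.ρ (dg c t) v - tw t κ • v)) =
        (∑ μ ∈ M.W, φ (M.P μ v) • fun t => tw t μ) - φ v • fun t => tw t κ := by
      funext s
      rw [Pi.sub_apply, Finset.sum_apply, map_sub, rho_dg, LinearMap.sum_apply, map_sum, map_smul,
        smul_eq_mul, Pi.smul_apply, smul_eq_mul, mul_comm (φ v)]
      congr 1
      refine sum_congr rfl fun μ _ => ?_
      rw [LinearMap.smul_apply, map_smul, Pi.smul_apply, smul_eq_mul, smul_eq_mul, mul_comm]
    rw [e]
    exact Subalgebra.sub_mem _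
      (Subalgebra.sum_mem _ fun μ _ => Subalgebra.smul_mem _ (tw_poly μ) _)
      (Subalgebra.smul_mem _ (tw_poly κ) _)
  · have e : (fun t : Fin m → K => ∏ i, t i) = ∏ i, fun t : Fin m → K => t i := by
      funext s
      rw [Finset.prod_apply]
    rw [e]
    exact Subalgebra.prod_mem _ fun i _ => coord_mem _ i
  · intro s
    by_cases hs : ∀ i, s i ≠ 0
    · rw [h s hs, sub_self, map_zero, zero_mul]
    · push Not at hs
      obtain ⟨i, hi⟩ := hs
      rw [prod_eq_zero (mem_univ i) hi, mul_zero]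

end Pool.PI34.A5

end

/-! ### part A5_Wt2 -/
section

/-! PI34, block A5, file Wt2: weight functionals. -/

set_option autoImplicit false

namespace Pool.PI34.A5

open Finset Matrix

variable {m : ℕ} {c : Fin m → ℕ} {K : Type} [Field K]

theorem Wt2_PP (M : PRep c K) [Infinite K] (κ : Fin m → ℕ) (v : M.V) :
    M.P κ (M.P κ v) = M.P κ v := P_self M κ _ (P_mem M κ v)

theorem Wt2_Prho (M : PRep c K) [Infinite K] (κ : Fin m → ℕ) (t : Fin m → K) (v : M.V) :
    M.P κ (M.ρ (dg c t) v) = tw t κ • M.P κ v := by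
  rw [rho_dg, LinearMap.sum_apply, map_sum]
  by_cases hκ : κ ∈ M.W
  · rw [Finset.sum_eq_single κ]
    · rw [LinearMap.smul_apply, map_smul, Wt2_PP]
    · intro μ _ hμ
      rw [LinearMap.smul_apply, map_smul, P_ne M κ μ (Ne.symm hμ) _ (P_mem M μ v), smul_zero]
    · intro h
      exact absurd hκ h
  · rw [P_not_mem M κ hκ]
    simp

/-- weight functionals vanish on the other weight spaces: `φ ∘ P κ = φ` for `φ ∈ wd κ` -/
theorem wd_P (M : PRep c K) [Infinite K] (κ : Fin m → ℕ) (φ : Module.Dual K M.V) :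
    φ ∈ M.wd κ ↔ ∀ v, φ (M.P κ v) = φ v := by
  constructor
  · intro hφ v
    have h : ∀ t : Fin m → K, ∑ μ ∈ insert κ M.W,
        tw t μ • (φ (M.P μ v) - if μ = κ then φ v else 0) = 0 := by
      intro t
      have h1 := hφ t v
      rw [rho_dg, LinearMap.sum_apply, map_sum] at h1
      simp only [smul_sub, Finset.sum_sub_distrib]
      have h2 : ∑ μ ∈ insert κ M.W, tw t μ • (if μ = κ then φ v else 0) = tw t κ * φ v := by
        rw [Finset.sum_eq_single κ]
        · rw [if_pos rfl, smul_eq_mul]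
        · intro μ _ hμ
          rw [if_neg hμ, smul_zero]
        · intro h
          exact absurd (Finset.mem_insert_self _ _) h
      have h3 : ∑ μ ∈ insert κ M.W, tw t μ • φ (M.P μ v) =
          ∑ μ ∈ M.W, φ ((tw t μ • M.P μ) v) := by
        have h4 : ∀ μ, tw t μ • φ (M.P μ v) = φ ((tw t μ • M.P μ) v) := fun μ => by
          rw [LinearMap.smul_apply, map_smul]
        simp only [h4]
        by_cases hκ : κ ∈ M.W
        · rw [Finset.insert_eq_of_mem hκ]
        · rw [Finset.sum_insert hκ, P_not_mem M κ hκ]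
          simp
      rw [h2, h3, h1, sub_self]
    have h5 := tw_indep (insert κ M.W) _ h κ (Finset.mem_insert_self _ _)
    rw [if_pos rfl] at h5
    exact sub_eq_zero.1 h5
  · intro h t v
    rw [← h (M.ρ (dg c t) v), Wt2_Prho, map_smul, h, smul_eq_mul]

/-- PROOF.  Restriction `wd κ → Dual (wt κ)` is bijective (`wd_P`). -/
theorem finrank_wd (M : PRep c K) [Infinite K] (κ : Fin m → ℕ) :
    Module.finrank K (M.wd κ) = Module.finrank K (M.wt κ) := by
  let R : M.wd κ →ₗ[K] Module.Dual K (M.wt κ) :=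
    { toFun := fun φ => (φ : Module.Dual K M.V).comp (M.wt κ).subtype
      map_add' := fun φ ψ => rfl
      map_smul' := fun a φ => rfl }
  have hR : ∀ (φ : M.wd κ) (v : M.wt κ), R φ v = (φ : Module.Dual K M.V) (v : M.V) :=
    fun _ _ => rfl
  have hinj : Function.Injective R := by
    intro φ ψ h
    apply Subtype.ext
    refine LinearMap.ext fun v => ?_
    rw [← (wd_P M κ φ).1 φ.2 v, ← (wd_P M κ ψ).1 ψ.2 v]
    exact congrArg (fun g : Module.Dual K (M.wt κ) => g ⟨M.P κ v, P_mem M κ v⟩) h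
  have hsurj : Function.Surjective R := by
    intro ψ
    let φ : Module.Dual K M.V := ψ.comp ((M.P κ).codRestrict (M.wt κ) (P_mem M κ))
    have hφ : ∀ v, φ v = ψ ⟨M.P κ v, P_mem M κ v⟩ := fun v => rfl
    have hmem : φ ∈ M.wd κ := (wd_P M κ φ).2 fun v => by
      rw [hφ, hφ]
      congr 1
      exact Subtype.ext (Wt2_PP M κ v)
    refine ⟨⟨φ, hmem⟩, LinearMap.ext fun v => ?_⟩
    rw [hR]
    change φ (v : M.V) = ψ v
    rw [hφ]
    congr 1
    exact Subtype.ext (P_self M κ _ v.2)
  rw [(LinearEquiv.ofBijective R ⟨hinj, hsurj⟩).finrank_eq, Subspace.dual_finrank_eq]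

theorem wd_sep (M : PRep c K) [Infinite K] (κ : Fin m → ℕ) (v : M.V) (hv : v ∈ M.wt κ)
    (h : ∀ φ ∈ M.wd κ, φ v = 0) : v = 0 := by
  rw [← Module.forall_dual_apply_eq_zero_iff K v]
  intro φ
  have h1 := h (φ.comp (M.P κ)) ((wd_P M κ _).2 fun w => by
    rw [LinearMap.comp_apply, LinearMap.comp_apply, Wt2_PP])
  rw [LinearMap.comp_apply, P_self M κ v hv] at h1
  exact h1

/-- there is a top weight -/
theorem exists_top (M : PRep c K) [Infinite K] (h : 0 < Module.finrank K M.V) :
    ∃ lam, IsTop M lam ∧ M.wt lam ≠ ⊥ := by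
  classical
  have hne : (M.W.filter fun κ => M.wt κ ≠ ⊥).Nonempty := by
    have : Nontrivial M.V := Module.nontrivial_of_finrank_pos h
    obtain ⟨v, hv⟩ := exists_ne (0 : M.V)
    by_contra hcon
    rw [Finset.not_nonempty_iff_eq_empty, Finset.filter_eq_empty_iff] at hcon
    apply hv
    rw [← sum_P M v]
    refine Finset.sum_eq_zero fun κ hκ => ?_
    have h1 : M.wt κ = ⊥ := by
      by_contra h2
      exact hcon hκ h2
    have h2 := P_mem M κ v
    rw [h1, Submodule.mem_bot] at h2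
    exact h2
  obtain ⟨lam, hlam, hmax⟩ := Finset.exists_max_image _ ht hne
  rw [Finset.mem_filter] at hlam
  refine ⟨lam, fun κ hκ => hmax κ ?_, hlam.2⟩
  rw [Finset.mem_filter]
  refine ⟨?_, hκ⟩
  by_contra hW
  exact hκ (wt_bot M κ hW)

/-- weights of subrepresentations and images -/
theorem wt_sub (M N : PRep c K) (f : M.V →ₗ[K] N.V) (hf : Eqv M N f) (hi : Function.Injective f)
    (κ : Fin m → ℕ) (h : M.wt κ ≠ ⊥) : N.wt κ ≠ ⊥ := by
  obtain ⟨v, hv, hv0⟩ := (Submodule.ne_bot_iff _).1 h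
  rw [Submodule.ne_bot_iff]
  refine ⟨f v, fun t => ?_, fun h0 => hv0 (hi (by rw [h0, map_zero]))⟩
  rw [← hf, hv t, map_smul]

theorem wt_quot (M N : PRep c K) [Infinite K] (f : M.V →ₗ[K] N.V) (hf : Eqv M N f)
    (hs : Function.Surjective f) (κ : Fin m → ℕ) (h : N.wt κ ≠ ⊥) : M.wt κ ≠ ⊥ := by
  obtain ⟨w, hw, hw0⟩ := (Submodule.ne_bot_iff _).1 h
  obtain ⟨v, rfl⟩ := hs w
  rw [Submodule.ne_bot_iff]
  refine ⟨M.P κ v, P_mem M κ v, fun h0 => hw0 ?_⟩
  rw [← P_self N κ _ hw, ← P_eqv M N f hf, h0, map_zero]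

end Pool.PI34.A5

end

/-! ### part A5_Wt3 -/
section

/-! PI34, block A5, file Wt3: top weights. -/

set_option autoImplicit false

namespace Pool.PI34.A5

open Finset Matrix

variable {m : ℕ} {c : Fin m → ℕ} {K : Type} [Field K]

/-- the one parameter diagonal matrices -/
private def ts (m : ℕ) (s : K) : Fin m → K := fun i => s ^ (i : ℕ)

private theorem tw_ts (s : K) (κ : Fin m → ℕ) : tw (ts m s) κ = s ^ ht κ := by
  unfold tw ts ht
  rw [← Finset.prod_pow_eq_pow_sum]
  exact Finset.prod_congr rfl fun i _ => (pow_mul _ _ _).symm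

/-- polynomial functions of one variable -/
private theorem poly1 (F : K → K) (hF : F ∈ PolyFn (fun (s : K) (_ : Unit) => s)) :
    ∃ q : Polynomial K, ∀ s, F s = q.eval s := by
  obtain ⟨p, hp⟩ := (mem_PolyFn _ F).1 hF
  refine ⟨MvPolynomial.aeval (fun _ => Polynomial.X) p, fun s => ?_⟩
  rw [hp s]
  induction p using MvPolynomial.induction_on with
  | C a => simp
  | add p q hp hq =>
    have h1 : ∀ r : MvPolynomial Unit K, MvPolynomial.eval (fun _ => s) r =
        Polynomial.eval s (MvPolynomial.aeval (fun _ => Polynomial.X) r) := by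
      intro r
      induction r using MvPolynomial.induction_on with
      | C a => simp
      | add p q hp hq => rw [map_add, map_add, Polynomial.eval_add, hp, hq]
      | mul_X p i hp => rw [map_mul, map_mul, Polynomial.eval_mul, hp]; simp
    exact h1 _
  | mul_X p i hp =>
    have h1 : ∀ r : MvPolynomial Unit K, MvPolynomial.eval (fun _ => s) r =
        Polynomial.eval s (MvPolynomial.aeval (fun _ => Polynomial.X) r) := by
      intro r
      induction r using MvPolynomial.induction_on with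
      | C a => simp
      | add p q hp hq => rw [map_add, map_add, Polynomial.eval_add, hp, hq]
      | mul_X p i hp => rw [map_mul, map_mul, Polynomial.eval_mul, hp]; simp
    exact h1 _

private theorem mono_mem (a : K) (n : ℕ) :
    (fun s : K => s ^ n * a) ∈ PolyFn (fun (s : K) (_ : Unit) => s) :=
  (mem_PolyFn _ _).2 ⟨MvPolynomial.X () ^ n * MvPolynomial.C a, fun s => by simp⟩

private theorem poly_const [Infinite K] (W : Finset (Fin m → ℕ)) (a : (Fin m → ℕ) → K)
    (q : Polynomial K) (lam : Fin m → ℕ) (h : ∀ κ ∈ W, a κ ≠ 0 → ht κ ≤ ht lam)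
    (h2 : ∀ s : K, ∑ κ ∈ W, s ^ ht κ * a κ = s ^ ht lam * q.eval s) : q.eval 1 = q.eval 0 := by
  have e : ∑ κ ∈ W, Polynomial.C (a κ) * Polynomial.X ^ ht κ = q * Polynomial.X ^ ht lam := by
    refine Polynomial.funext fun s => ?_
    rw [Polynomial.eval_finsetSum, Polynomial.eval_mul, Polynomial.eval_pow, Polynomial.eval_X,
      mul_comm, ← h2 s]
    refine Finset.sum_congr rfl fun κ _ => ?_
    rw [Polynomial.eval_mul, Polynomial.eval_C, Polynomial.eval_pow, Polynomial.eval_X, mul_comm]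
  have hd : (q * Polynomial.X ^ ht lam).natDegree ≤ ht lam := by
    rw [← e]
    refine Polynomial.natDegree_sum_le_of_forall_le W _ fun κ hκ => ?_
    by_cases h0 : a κ = 0
    · rw [h0]
      simp
    · exact (Polynomial.natDegree_C_mul_X_pow_le _ _).trans (h κ hκ h0)
  by_cases hq : q = 0
  · rw [hq]
    simp
  rw [Polynomial.natDegree_mul_X_pow _ hq] at hd
  have hq0 : q.natDegree = 0 := by omega
  rw [Polynomial.eq_C_of_natDegree_eq_zero hq0]
  simp

/-- the conjugates of a lower unitriangular matrix -/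
private def gs (g : Blk c K) (s : K) : Blk c K :=
  ⟨Matrix.of fun i j => if j ≤ i then s ^ ((i : ℕ) - (j : ℕ)) * g.1 i j else 0, fun i j h => by
    rw [Matrix.of_apply]
    split_ifs
    · rw [g.2 i j h, mul_zero]
    · rfl⟩

/-- the conjugates of an upper unitriangular matrix -/
private def us (g : Blk c K) (s : K) : Blk c K :=
  ⟨Matrix.of fun i j => if i ≤ j then s ^ ((j : ℕ) - (i : ℕ)) * g.1 i j else 0, fun i j h => by
    rw [Matrix.of_apply]
    split_ifs
    · rw [g.2 i j h, mul_zero]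
    · rfl⟩

private theorem gs_zero (g : Blk c K) (hg : IsLo g) : gs g 0 = 1 := by
  refine Subtype.ext (Matrix.ext fun i j => ?_)
  change (if j ≤ i then (0 : K) ^ ((i : ℕ) - (j : ℕ)) * g.1 i j else 0) = (1 : Matrix _ _ K) i j
  rcases lt_trichotomy i j with h | h | h
  · rw [if_neg (not_le.2 h), Matrix.one_apply_ne h.ne]
  · subst h
    rw [if_pos le_rfl, Nat.sub_self, pow_zero, one_mul, hg.1, Matrix.one_apply_eq]
  · have h1 : (i : ℕ) - (j : ℕ) ≠ 0 := by
      have : (j : ℕ) < (i : ℕ) := h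
      omega
    rw [if_pos h.le, zero_pow h1, zero_mul, Matrix.one_apply_ne h.ne']

private theorem gs_one (g : Blk c K) (hg : IsLo g) : gs g 1 = g := by
  refine Subtype.ext (Matrix.ext fun i j => ?_)
  change (if j ≤ i then (1 : K) ^ ((i : ℕ) - (j : ℕ)) * g.1 i j else 0) = g.1 i j
  by_cases h : j ≤ i
  · rw [if_pos h, one_pow, one_mul]
  · rw [if_neg h, hg.2 i j (not_le.1 h)]

private theorem us_zero (g : Blk c K) (hg : IsUp g) : us g 0 = 1 := by
  refine Subtype.ext (Matrix.ext fun i j => ?_)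
  change (if i ≤ j then (0 : K) ^ ((j : ℕ) - (i : ℕ)) * g.1 i j else 0) = (1 : Matrix _ _ K) i j
  rcases lt_trichotomy i j with h | h | h
  · have h1 : (j : ℕ) - (i : ℕ) ≠ 0 := by
      have : (i : ℕ) < (j : ℕ) := h
      omega
    rw [if_pos h.le, zero_pow h1, zero_mul, Matrix.one_apply_ne h.ne]
  · subst h
    rw [if_pos le_rfl, Nat.sub_self, pow_zero, one_mul, hg.1, Matrix.one_apply_eq]
  · rw [if_neg (not_le.2 h), Matrix.one_apply_ne h.ne']

private theorem us_one (g : Blk c K) (hg : IsUp g) : us g 1 = g := by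
  refine Subtype.ext (Matrix.ext fun i j => ?_)
  change (if i ≤ j then (1 : K) ^ ((j : ℕ) - (i : ℕ)) * g.1 i j else 0) = g.1 i j
  by_cases h : i ≤ j
  · rw [if_pos h, one_pow, one_mul]
  · rw [if_neg h, hg.2 i j (not_le.1 h)]

private theorem dg_mul_gs (g : Blk c K) (hg : IsLo g) (s : K) :
    dg c (ts m s) * g = gs g s * dg c (ts m s) := by
  refine Subtype.ext (Matrix.ext fun i j => ?_)
  change (Matrix.diagonal (ts m s) * g.1) i j = ((gs g s).1 * Matrix.diagonal (ts m s)) i j
  rw [Matrix.diagonal_mul, Matrix.mul_diagonal]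
  change s ^ (i : ℕ) * g.1 i j =
    (if j ≤ i then s ^ ((i : ℕ) - (j : ℕ)) * g.1 i j else 0) * s ^ (j : ℕ)
  by_cases h : j ≤ i
  · have h1 : (i : ℕ) = ((i : ℕ) - (j : ℕ)) + (j : ℕ) := by
      have : (j : ℕ) ≤ (i : ℕ) := h
      omega
    rw [if_pos h]
    conv_lhs => rw [h1, pow_add]
    ring
  · rw [if_neg h, hg.2 i j (not_le.1 h), mul_zero, zero_mul]

private theorem mul_dg_us (g : Blk c K) (hg : IsUp g) (s : K) :
    g * dg c (ts m s) = dg c (ts m s) * us g s := by
  refine Subtype.ext (Matrix.ext fun i j => ?_)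
  change (g.1 * Matrix.diagonal (ts m s)) i j = (Matrix.diagonal (ts m s) * (us g s).1) i j
  rw [Matrix.diagonal_mul, Matrix.mul_diagonal]
  change g.1 i j * s ^ (j : ℕ) =
    s ^ (i : ℕ) * (if i ≤ j then s ^ ((j : ℕ) - (i : ℕ)) * g.1 i j else 0)
  by_cases h : i ≤ j
  · have h1 : (j : ℕ) = ((j : ℕ) - (i : ℕ)) + (i : ℕ) := by
      have : (i : ℕ) ≤ (j : ℕ) := h
      omega
    rw [if_pos h]
    conv_lhs => rw [h1, pow_add]
    ring
  · rw [if_neg h, hg.2 i j (not_le.1 h), mul_zero, zero_mul]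

private theorem gs_poly (M : PRep c K) (g : Blk c K) (v : M.V) (φ : Module.Dual K M.V) :
    ∃ q : Polynomial K, ∀ s, φ (M.ρ (gs g s) v) = q.eval s := by
  refine poly1 _ (comp_mem (crd c K) (fun (s : K) (_ : Unit) => s) (gs g) ?_ _ (M.poly v φ))
  rintro ⟨i, j⟩
  by_cases h : j ≤ i
  · have e : (fun s : K => crd c K (gs g s) (i, j)) = fun s : K => s ^ ((i : ℕ) - (j : ℕ)) * g.1 i j :=
      funext fun s => if_pos h
    rw [e]
    exact mono_mem _ _
  · have e : (fun s : K => crd c K (gs g s) (i, j)) = fun _ : K => (0 : K) :=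
      funext fun s => if_neg h
    rw [e]
    exact const_mem _ 0

private theorem us_poly (M : PRep c K) (g : Blk c K) (v : M.V) (φ : Module.Dual K M.V) :
    ∃ q : Polynomial K, ∀ s, φ (M.ρ (us g s) v) = q.eval s := by
  refine poly1 _ (comp_mem (crd c K) (fun (s : K) (_ : Unit) => s) (us g) ?_ _ (M.poly v φ))
  rintro ⟨i, j⟩
  by_cases h : i ≤ j
  · have e : (fun s : K => crd c K (us g s) (i, j)) = fun s : K => s ^ ((j : ℕ) - (i : ℕ)) * g.1 i j :=
      funext fun s => if_pos h
    rw [e]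
    exact mono_mem _ _
  · have e : (fun s : K => crd c K (us g s) (i, j)) = fun _ : K => (0 : K) :=
      funext fun s => if_neg h
    rw [e]
    exact const_mem _ 0

private theorem ht_le (M : PRep c K) [Infinite K] (lam : Fin m → ℕ) (h : IsTop M lam)
    (κ : Fin m → ℕ) (v : M.V) (hv : M.P κ v ≠ 0) : ht κ ≤ ht lam := by
  refine h κ fun h0 => hv ?_
  have := P_mem M κ v
  rw [h0, Submodule.mem_bot] at this
  exact this

private theorem rho_ts (M : PRep c K) (s : K) (v : M.V) :
    M.ρ (dg c (ts m s)) v = ∑ κ ∈ M.W, s ^ ht κ • M.P κ v := by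
  rw [rho_dg, LinearMap.sum_apply]
  refine Finset.sum_congr rfl fun κ _ => ?_
  rw [LinearMap.smul_apply, tw_ts]

/-- PROOF.  For `s : K` let `t_s = dg (s^i)`.  For `g ∈ Lo` put `g_s = (s^(i-j) g_ij)` (`i ≥ j`; an `IsLo` element, `g_0 = 1`, `g_1 = g`); then
`t_s * g = g_s * t_s` for all `s`.  Apply `ρ` to `v ∈ wt λ` and a functional `φ`: `∑_κ s^(ht κ) φ(P κ ρ(g) v) = s^(ht λ) φ(ρ(g_s) v)`.
`φ(ρ(g_s) v) = p(s)` is a polynomial in `s`.  All `κ` with `P κ ≠ 0` on `M` have `ht κ ≤ ht λ`, so the left side is a polynomial in `s`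
of degree `≤ ht λ`; hence `p` is constant, `φ(ρ(g) v) = p(1) = p(0) = φ(v)`.  (Note `tw (fun i => s^i) κ = s^(ht κ)`.) -/
theorem top_lo (M : PRep c K) [Infinite K] (lam : Fin m → ℕ) (h : IsTop M lam) (g : Blk c K)
    (hg : IsLo g) (v : M.V) (hv : v ∈ M.wt lam) : M.ρ g v = v := by
  rw [← sub_eq_zero, ← Module.forall_dual_apply_eq_zero_iff K]
  intro φ
  obtain ⟨q, hq⟩ := gs_poly M g v φ
  have key := poly_const M.W (fun κ => φ (M.P κ (M.ρ g v))) q lam
    (fun κ _ h0 => ht_le M lam h κ (M.ρ g v) fun h1 => h0 (by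
      change φ (M.P κ (M.ρ g v)) = 0
      rw [h1, map_zero]))
    (fun s => by
      have h1 : M.ρ (dg c (ts m s)) (M.ρ g v) = s ^ ht lam • M.ρ (gs g s) v := by
        rw [← Module.End.mul_apply, ← map_mul, dg_mul_gs g hg s, map_mul, Module.End.mul_apply,
          hv (ts m s), tw_ts, map_smul]
      have h2 := congrArg φ h1
      rw [rho_ts, map_sum, map_smul, hq s, smul_eq_mul] at h2
      rw [← h2]
      refine Finset.sum_congr rfl fun κ _ => ?_
      rw [map_smul, smul_eq_mul])
  rw [← hq 1, ← hq 0, gs_one g hg, gs_zero g hg, map_one] at key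
  rw [map_sub, key]
  simp

/-- PROOF.  Same with `u * t_s = t_s * u_s`, `u_s = (s^(j-i) u_ij)` (`j ≥ i`): for `φ ∈ wd λ`
`∑_κ s^(ht κ) φ(ρ(u) P κ v) = φ(ρ(t_s) ρ(u_s) v) = s^(ht λ) φ(ρ(u_s) v)`. -/
theorem top_up (M : PRep c K) [Infinite K] (lam : Fin m → ℕ) (h : IsTop M lam) (u : Blk c K)
    (hu : IsUp u) (φ : Module.Dual K M.V) (hφ : φ ∈ M.wd lam) (v : M.V) : φ (M.ρ u v) = φ v := by
  obtain ⟨q, hq⟩ := us_poly M u v φ
  have key := poly_const M.W (fun κ => φ (M.ρ u (M.P κ v))) q lam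
    (fun κ _ h0 => ht_le M lam h κ v fun h1 => h0 (by
      change φ (M.ρ u (M.P κ v)) = 0
      rw [h1, map_zero, map_zero]))
    (fun s => by
      have h1 : φ (M.ρ u (M.ρ (dg c (ts m s)) v)) = s ^ ht lam * φ (M.ρ (us u s) v) := by
        rw [← Module.End.mul_apply (M.ρ u), ← map_mul, mul_dg_us u hu s, map_mul,
          Module.End.mul_apply, hφ (ts m s), tw_ts]
      rw [rho_ts, map_sum, map_sum, hq s] at h1
      rw [← h1]
      refine Finset.sum_congr rfl fun κ _ => ?_
      rw [map_smul, map_smul, smul_eq_mul])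
  rw [← hq 1, ← hq 0, us_one u hu, us_zero u hu, map_one] at key
  rw [key]
  simp

end Pool.PI34.A5

end
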