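import Mathlib
import Pool.Agent.LibPI54.M12

/-! ### part A5_Num -/
section

/-! PI34, block A5, file Num: the numbers `Dt c λ`. -/

set_option autoImplicit false

namespace Pool.PI34.A5

open Finset Matrix

variable {m : ℕ}

/-- number of the indices of the same color before `i` -/
def pos (c : Fin m → ℕ) (i : Fin m) : ℕ := (univ.filter fun j : Fin m => j < i ∧ c j = c i).card

/-- the matrix of binomial coefficients -/
def Dtm (c : Fin m → ℕ) (lam : Fin m → ℕ) : Matrix (Fin m) (Fin m) ℤ :=
  Matrix.of fun i j => if c i = c j then (((lam i + pos c i).choose (pos c j) : ℕ) : ℤ) else 0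

/-- the dimension polynomial -/
def Dt (c : Fin m → ℕ) (lam : Fin m → ℕ) : ℤ := (Dtm c lam).det

end Pool.PI34.A5

end

/-! ### part A5_N3 -/
section

/-! PI34, block A5, file N3: branching rule for `Dt`. -/

set_option autoImplicit false

namespace Pool.PI34.A5

open Finset Matrix

variable {m : ℕ}

/-- the weights which interlace `λ` in the last color class and agree with `λ` in the others -/
def il (c : Fin (m + 1) → ℕ) (lam : Fin (m + 1) → ℕ) : Finset (Fin m → ℕ) :=
  Fintype.piFinset fun i => if c i.castSucc = c (Fin.last m) then Icc (lam i.castSucc) (lam i.succ)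
    else {lam i.castSucc}

/-- hockey stick -/
theorem hockey (a b q j : ℕ) (h : a ≤ b) :
    ∑ x ∈ Icc a b, (((x + q).choose j : ℕ) : ℤ) =
      (((b + q + 1).choose (j + 1) : ℕ) : ℤ) - (((a + q).choose (j + 1) : ℕ) : ℤ) := by
  induction b, h using Nat.le_induction with
  | base =>
    rw [Icc_self, Finset.sum_singleton, Nat.choose_succ_succ]
    push_cast
    ring
  | succ b hab ih =>
    rw [Finset.sum_Icc_succ_top (by omega), ih, Nat.choose_succ_succ (b + 1 + q) j]
    have h1 : b + 1 + q = b + q + 1 := by ring
    rw [h1]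
    push_cast
    ring

theorem N3_pos_cast (c : Fin (m + 1) → ℕ) (i : Fin m) :
    pos (fun i => c i.castSucc) i = pos c i.castSucc := by
  unfold pos
  rw [← Finset.card_map Fin.castSuccEmb]
  congr 1
  ext j
  simp only [Finset.mem_map, Finset.mem_filter, Finset.mem_univ, true_and]
  constructor
  · rintro ⟨j', ⟨h1, h2⟩, rfl⟩
    exact ⟨h1, h2⟩
  · rintro ⟨h1, h2⟩
    have h3 : (j : ℕ) < m := lt_trans (show (j : ℕ) < i from h1) i.2
    exact ⟨⟨j, h3⟩, ⟨h1, h2⟩, rfl⟩

theorem N3_pos_last (c : Fin (m + 1) → ℕ) (i0 : Fin (m + 1))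
    (h0 : ∀ i, c i = c (Fin.last m) ↔ i0 ≤ i) (i : Fin (m + 1)) (hi : i0 ≤ i) :
    pos c i = (i : ℕ) - i0 := by
  unfold pos
  have h1 : (univ.filter fun j : Fin (m + 1) => j < i ∧ c j = c i) = Ico i0 i := by
    ext j
    simp only [Finset.mem_filter, Finset.mem_univ, true_and, Finset.mem_Ico]
    rw [(h0 i).2 hi, h0 j]
    exact and_comm
  rw [h1, Fin.card_Ico]

theorem N3_first (c : Fin (m + 1) → ℕ) (hc : Monotone c) :
    ∃ i0 : Fin (m + 1), ∀ i, c i = c (Fin.last m) ↔ i0 ≤ i := by
  classical
  have hne : (univ.filter fun i : Fin (m + 1) => c i = c (Fin.last m)).Nonempty :=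
    ⟨Fin.last m, by simp⟩
  refine ⟨Finset.min' _ hne, fun i => ⟨fun h => Finset.min'_le _ _ (by simpa using h),
    fun h => ?_⟩⟩
  have h1 := Finset.min'_mem _ hne
  rw [Finset.mem_filter] at h1
  exact le_antisymm (hc (Fin.le_last i)) (h1.2 ▸ hc h)

/-- PROOF.  Let `i0` be the first index with the color of the last index; as `c` is monotone, the color class
of `Fin.last m` is `{i | i0 ≤ i}` and `pos c i = i - i0` there.
The column `i0` of `Dtm c λ` has entries `1` for `i ≥ i0` and `0` for `i < i0`.  Replace the rows `R_i`, `i > i0`, by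
`R_i - R_(i-1)` (`Matrix.det_eq_of_forall_row_eq_smul_add_pred` or `Matrix.det_eq_of_forall_row_eq_smul_add_const`, or
multiplication with the unitriangular matrix `1 - ∑_(i > i0) E_(i,i-1)`); the determinant does not change, the column `i0` is now `e_i0`.
Expand along it (`Matrix.det_succ_column _ i0`): `Dt c λ = det M'`, `M' = (..).submatrix i0.succAbove i0.succAbove`, where for `i, j : Fin m`:
if `i < i0` : row `i` of `M'` is the row `i` of `Dtm (c ∘ castSucc) (λ ∘ castSucc)`;
if `i ≥ i0` (then `i0.succAbove i = i.succ`): `M' i j = 0` for `j < i0` and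
`M' i j = C(λ_(i+1) + pos i + 1, pos j + 1) - C(λ_i + pos i, pos j + 1)` for `j ≥ i0`
`= ∑_(ν ∈ Icc λ_i λ_(i+1)) C(ν + pos i, pos j)` by `hockey`.
On the other hand by multilinearity of the determinant in the rows
`∑_(ν ∈ il c λ) Dt (c ∘ castSucc) ν = det (row i = ∑_(ν_i) (row of ν_i))` (`MultilinearMap.map_sum_finset` for
`Matrix.detRowAlternating`).  Note that `pos (c ∘ castSucc) i = pos c i.castSucc`. -/
theorem Dt_branch (c lam : Fin (m + 1) → ℕ) (hc : Monotone c) (h : Dom c lam) :
    Dt c lam = ∑ ν ∈ il c lam, Dt (fun i => c i.castSucc) ν := by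
  classical
  obtain ⟨i0, h0⟩ := N3_first c hc
  let A := Dtm c lam
  have hA : ∀ i j, A i j = if c i = c j then (((lam i + pos c i).choose (pos c j) : ℕ) : ℤ)
    else 0 := fun i j => rfl
  let e : Fin m → ℤ := fun i => if i0 ≤ i.castSucc then 1 else 0
  let B : Matrix (Fin (m + 1)) (Fin (m + 1)) ℤ := Matrix.of fun i j =>
    Fin.cases (A 0 j) (fun i' => A i'.succ j - e i' * A i'.castSucc j) i
  have hB0 : ∀ j, B 0 j = A 0 j := fun j => rfl
  have hBs : ∀ (i : Fin m) j, B i.succ j = A i.succ j - e i * A i.castSucc j := fun i j => rfl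
  have hAB : A.det = B.det := Matrix.det_eq_of_forall_row_eq_smul_add_pred e
    (fun j => (hB0 j).symm) (fun i j => by rw [hBs]; ring)
  have hBlow : ∀ i j, i ≤ i0 → B i j = A i j := by
    intro i j hi
    induction i using Fin.cases with
    | zero => rfl
    | succ i =>
      rw [hBs]
      have h1 : e i = 0 := if_neg (by
        intro h2
        have h3 : i.castSucc < i.succ := Fin.castSucc_lt_succ
        exact absurd (lt_of_lt_of_le h3 hi) (not_lt.2 h2))
      rw [h1, zero_mul, sub_zero]
  have hBhi : ∀ (i : Fin m) j, i0 ≤ i.castSucc → B i.succ j = A i.succ j - A i.castSucc j := by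
    intro i j hi
    rw [hBs]
    have h1 : e i = 1 := if_pos hi
    rw [h1, one_mul]
  have hpos0 : pos c i0 = 0 := by
    rw [N3_pos_last c i0 h0 i0 le_rfl, Nat.sub_self]
  have hcol : ∀ i, B i i0 = if i = i0 then 1 else 0 := by
    intro i
    rcases lt_trichotomy i i0 with hlt | heq | hgt
    · rw [hBlow i i0 hlt.le, if_neg hlt.ne, hA, if_neg]
      intro h1
      have h2 : c i = c (Fin.last m) := h1.trans ((h0 i0).2 le_rfl)
      exact absurd ((h0 i).1 h2) (not_le.2 hlt)
    · subst heq
      rw [hBlow i i le_rfl, if_pos rfl, hA, if_pos rfl, hpos0, Nat.choose_zero_right]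
      rfl
    · rw [if_neg hgt.ne']
      induction i using Fin.cases with
      | zero => exact absurd hgt (Fin.not_lt_zero _)
      | succ i =>
        have h1 : i0 ≤ i.castSucc := by
          rw [Fin.le_castSucc_iff]
          exact hgt
        rw [hBhi i i0 h1, hA, hA, hpos0, Nat.choose_zero_right, Nat.choose_zero_right,
          if_pos (((h0 _).2 hgt.le).trans ((h0 i0).2 le_rfl).symm),
          if_pos (((h0 _).2 h1).trans ((h0 i0).2 le_rfl).symm), sub_self]
  have hdet : B.det = (B.submatrix i0.succAbove i0.succAbove).det := by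
    rw [Matrix.det_succ_column B i0, Finset.sum_eq_single i0]
    · rw [hcol, if_pos rfl, mul_one, ← two_mul, pow_mul]
      simp
    · intro i _ hi
      rw [hcol, if_neg hi]
      simp
    · intro hn
      exact absurd (Finset.mem_univ _) hn
  let c' : Fin m → ℕ := fun i => c i.castSucc
  let g : (i : Fin m) → ℕ → Fin m → ℤ := fun i x j =>
    if c' i = c' j then (((x + pos c' i).choose (pos c' j) : ℕ) : ℤ) else 0
  let S : Fin m → Finset ℕ := fun i => if c i.castSucc = c (Fin.last m)
    then Icc (lam i.castSucc) (lam i.succ) else {lam i.castSucc}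
  have hR : ∑ ν ∈ il c lam, Dt c' ν =
      (Matrix.of fun i j => ∑ x ∈ S i, g i x j : Matrix (Fin m) (Fin m) ℤ).det := by
    have h1 := (Matrix.detRowAlternating (n := Fin m) (R := ℤ)).toMultilinearMap.map_sum_finset
      g S
    have h2 : (Matrix.detRowAlternating (n := Fin m) (R := ℤ)).toMultilinearMap
        (fun i => ∑ x ∈ S i, g i x) =
        (Matrix.of fun i j => ∑ x ∈ S i, g i x j : Matrix (Fin m) (Fin m) ℤ).det := by
      change Matrix.det _ = Matrix.det _
      congr 1
      funext i j
      rw [Finset.sum_apply]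
      rfl
    rw [← h2, h1]
    rfl
  change A.det = _
  rw [hAB, hdet, hR]
  congr 1
  refine Matrix.ext fun i j => ?_
  rw [Matrix.submatrix_apply, Matrix.of_apply]
  have hpc : ∀ i, pos c' i = pos c i.castSucc := fun i => N3_pos_cast c i
  rcases lt_or_ge i.castSucc i0 with hi | hi
  · have hci : ¬ c i.castSucc = c (Fin.last m) := fun h1 => absurd ((h0 _).1 h1) (not_le.2 hi)
    rw [Fin.succAbove_of_castSucc_lt _ _ hi, hBlow _ _ hi.le, hA]
    have hS : S i = {lam i.castSucc} := if_neg hci
    rw [hS, Finset.sum_singleton]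
    change _ = if c' i = c' j then (((lam i.castSucc + pos c' i).choose (pos c' j) : ℕ) : ℤ) else 0
    rcases lt_or_ge j.castSucc i0 with hj | hj
    · rw [Fin.succAbove_of_castSucc_lt _ _ hj, hpc, hpc]
    · rw [Fin.succAbove_of_le_castSucc _ _ hj, if_neg, if_neg]
      · intro h1
        exact hci (h1.trans ((h0 _).2 hj))
      · intro h1
        exact hci (h1.trans ((h0 _).2 (hj.trans (Fin.castSucc_lt_succ).le)))
  · have hci : c i.castSucc = c (Fin.last m) := (h0 _).2 hi
    have hi' : i0 ≤ i.succ := hi.trans (Fin.castSucc_lt_succ).le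
    have hcs : c i.succ = c (Fin.last m) := (h0 _).2 hi'
    rw [Fin.succAbove_of_le_castSucc _ _ hi, hBhi _ _ hi, hA, hA]
    have hS : S i = Icc (lam i.castSucc) (lam i.succ) := if_pos hci
    rw [hS]
    rcases lt_or_ge j.castSucc i0 with hj | hj
    · have hcj : ¬ c j.castSucc = c (Fin.last m) := fun h1 => absurd ((h0 _).1 h1) (not_le.2 hj)
      rw [Fin.succAbove_of_castSucc_lt _ _ hj, if_neg (fun h1 => hcj (h1.symm.trans hcs)),
        if_neg (fun h1 => hcj (h1.symm.trans hci)), sub_self]
      symm
      refine Finset.sum_eq_zero fun x _ => ?_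
      exact if_neg (fun h1 => hcj (h1.symm.trans hci))
    · have hj' : i0 ≤ j.succ := hj.trans (Fin.castSucc_lt_succ).le
      have hcj : c j.castSucc = c (Fin.last m) := (h0 _).2 hj
      have hcj' : c j.succ = c (Fin.last m) := (h0 _).2 hj'
      have hlam : lam i.castSucc ≤ lam i.succ := h _ _ (Fin.castSucc_lt_succ) (hci.trans hcs.symm)
      have hp1 : pos c i.succ = pos c i.castSucc + 1 := by
        rw [N3_pos_last c i0 h0 _ hi, N3_pos_last c i0 h0 _ hi', Fin.val_succ, Fin.val_castSucc]
        have h1 : (i0 : ℕ) ≤ (i.castSucc : ℕ) := hi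
        rw [Fin.val_castSucc] at h1
        omega
      have hp2 : pos c j.succ = pos c j.castSucc + 1 := by
        rw [N3_pos_last c i0 h0 _ hj, N3_pos_last c i0 h0 _ hj', Fin.val_succ, Fin.val_castSucc]
        have h1 : (i0 : ℕ) ≤ (j.castSucc : ℕ) := hj
        rw [Fin.val_castSucc] at h1
        omega
      rw [Fin.succAbove_of_le_castSucc _ _ hj, if_pos (hcs.trans hcj'.symm),
        if_pos (hci.trans hcj'.symm), hp1, hp2]
      have h1 : ∀ x, g i x j = (((x + pos c i.castSucc).choose (pos c j.castSucc) : ℕ) : ℤ) :=
        fun x => by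
          change (if c' i = c' j then _ else _) = _
          rw [if_pos (hci.trans hcj.symm), hpc, hpc]
      simp only [h1]
      rw [hockey _ _ _ _ hlam]
      rfl

end Pool.PI34.A5

end

/-! ### part A5_De2 -/
section

/-! PI34, block A5, file De2: density of `Up T Lo`. -/

set_option autoImplicit false

namespace Pool.PI34.A5

open Finset Matrix

variable {K : Type} [Field K]

/-- `Z ⊕ 1` -/
def embM {m : ℕ} {K : Type} [Field K] (Z : Matrix (Fin m) (Fin m) K) :
    Matrix (Fin (m + 1)) (Fin (m + 1)) K :=
  Matrix.of fun i j => Fin.lastCases (motive := fun _ => K)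
      (Fin.lastCases (motive := fun _ => K) 1 (fun _ => 0) j)
      (fun i' => Fin.lastCases (motive := fun _ => K) 0 (fun j' => Z i' j') j) i

section embM

variable {m : ℕ} (Z W : Matrix (Fin m) (Fin m) K)

@[simp] theorem embM_ll : embM Z (Fin.last m) (Fin.last m) = 1 := by simp [embM]

@[simp] theorem embM_lc (j : Fin m) : embM Z (Fin.last m) j.castSucc = 0 := by simp [embM]

@[simp] theorem embM_cl (i : Fin m) : embM Z i.castSucc (Fin.last m) = 0 := by simp [embM]

@[simp] theorem embM_cc (i j : Fin m) : embM Z i.castSucc j.castSucc = Z i j := by simp [embM]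

theorem embM_one : embM (1 : Matrix (Fin m) (Fin m) K) = 1 := by
  ext i j
  induction i using Fin.lastCases with
  | last =>
    induction j using Fin.lastCases with
    | last => simp
    | cast j => simp [Matrix.one_apply, (Fin.castSucc_lt_last j).ne']
  | cast i =>
    induction j using Fin.lastCases with
    | last => simp [Matrix.one_apply, (Fin.castSucc_lt_last i).ne]
    | cast j => simp [Matrix.one_apply, Fin.castSucc_inj]

theorem embM_mul : embM (Z * W) = embM Z * embM W := by
  ext i j
  rw [Matrix.mul_apply, Fin.sum_univ_castSucc]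
  induction i using Fin.lastCases with
  | last =>
    induction j using Fin.lastCases with
    | last => simp
    | cast j => simp
  | cast i =>
    induction j using Fin.lastCases with
    | last => simp
    | cast j => simp [Matrix.mul_apply]

end embM

/-- the embedding `Z ↦ Z ⊕ 1` -/
def emb {m : ℕ} (c : Fin (m + 1) → ℕ) (K : Type) [Field K] :
    Blk (fun i => c i.castSucc) K →* Blk c K where
  toFun Z := ⟨embM Z.1, by
    intro i j h
    induction i using Fin.lastCases with
    | last =>
      induction j using Fin.lastCases with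
      | last => exact absurd rfl h
      | cast j => simp
    | cast i =>
      induction j using Fin.lastCases with
      | last => simp
      | cast j => simpa using Z.2 i j h⟩
  map_one' := Subtype.ext embM_one
  map_mul' Z W := Subtype.ext (embM_mul Z.1 W.1)

theorem emb_poly {m : ℕ} (c : Fin (m + 1) → ℕ) (K : Type) [Field K] (ij) :
    (fun Z => crd c K (emb c K Z) ij) ∈ PolyFn (crd (fun i => c i.castSucc) K) := by
  obtain ⟨i, j⟩ := ij
  have key : ∀ Z, crd c K (emb c K Z) (i, j) = embM Z.1 i j := fun Z => rfl
  simp only [key]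
  induction i using Fin.lastCases with
  | last =>
    induction j using Fin.lastCases with
    | last => simpa using const_mem (crd (fun i => c i.castSucc) K) (1 : K)
    | cast j => simpa using const_mem (crd (fun i => c i.castSucc) K) (0 : K)
  | cast i =>
    induction j using Fin.lastCases with
    | last => simpa using const_mem (crd (fun i => c i.castSucc) K) (0 : K)
    | cast j =>
      simp only [embM_cc]
      exact coord_mem (crd (fun i => c i.castSucc) K) (i, j)

section aux

variable {m : ℕ}

/-- `[1, b; 0, 1]` -/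
def upM (b : Fin m → K) : Matrix (Fin (m + 1)) (Fin (m + 1)) K :=
  Matrix.of fun i j => Fin.lastCases (motive := fun _ => K)
      (Fin.lastCases (motive := fun _ => K) 1 (fun _ => 0) j)
      (fun i' => Fin.lastCases (motive := fun _ => K) (b i') (fun j' => if i' = j' then 1 else 0) j) i

@[simp] theorem upM_ll (b : Fin m → K) : upM b (Fin.last m) (Fin.last m) = 1 := by simp [upM]

@[simp] theorem upM_lc (b : Fin m → K) (j : Fin m) : upM b (Fin.last m) j.castSucc = 0 := by simp [upM]

@[simp] theorem upM_cl (b : Fin m → K) (i : Fin m) : upM b i.castSucc (Fin.last m) = b i := by simp [upM]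

@[simp] theorem upM_cc (b : Fin m → K) (i j : Fin m) :
    upM b i.castSucc j.castSucc = if i = j then 1 else 0 := by simp [upM]

/-- `[1, 0; r, 1]` -/
def loM (r : Fin m → K) : Matrix (Fin (m + 1)) (Fin (m + 1)) K :=
  Matrix.of fun i j => Fin.lastCases (motive := fun _ => K)
      (Fin.lastCases (motive := fun _ => K) 1 (fun j' => r j') j)
      (fun i' => Fin.lastCases (motive := fun _ => K) 0 (fun j' => if i' = j' then 1 else 0) j) i

@[simp] theorem loM_ll (b : Fin m → K) : loM b (Fin.last m) (Fin.last m) = 1 := by simp [loM]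

@[simp] theorem loM_lc (b : Fin m → K) (j : Fin m) : loM b (Fin.last m) j.castSucc = b j := by simp [loM]

@[simp] theorem loM_cl (b : Fin m → K) (i : Fin m) : loM b i.castSucc (Fin.last m) = 0 := by simp [loM]

@[simp] theorem loM_cc (b : Fin m → K) (i j : Fin m) :
    loM b i.castSucc j.castSucc = if i = j then 1 else 0 := by simp [loM]

theorem upM_mul_c (b : Fin m → K) (X : Matrix (Fin (m + 1)) (Fin (m + 1)) K) (i : Fin m) (j) :
    (upM b * X) i.castSucc j = X i.castSucc j + b i * X (Fin.last m) j := by
  rw [Matrix.mul_apply, Fin.sum_univ_castSucc]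
  simp

theorem upM_mul_l (b : Fin m → K) (X : Matrix (Fin (m + 1)) (Fin (m + 1)) K) (j) :
    (upM b * X) (Fin.last m) j = X (Fin.last m) j := by
  rw [Matrix.mul_apply, Fin.sum_univ_castSucc]
  simp

theorem mul_loM_c (r : Fin m → K) (X : Matrix (Fin (m + 1)) (Fin (m + 1)) K) (i) (j : Fin m) :
    (X * loM r) i j.castSucc = X i j.castSucc + X i (Fin.last m) * r j := by
  rw [Matrix.mul_apply, Fin.sum_univ_castSucc]
  simp

theorem mul_loM_l (r : Fin m → K) (X : Matrix (Fin (m + 1)) (Fin (m + 1)) K) (i) :
    (X * loM r) i (Fin.last m) = X i (Fin.last m) := by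
  rw [Matrix.mul_apply, Fin.sum_univ_castSucc]
  simp

theorem IsUp.mul {c : Fin m → ℕ} {u v : Blk c K} (hu : IsUp u) (hv : IsUp v) : IsUp (u * v) := by
  constructor
  · intro i
    show (u.1 * v.1) i i = 1
    rw [Matrix.mul_apply, Finset.sum_eq_single i, hu.1, hv.1, one_mul]
    · intro j _ hj
      rcases lt_or_gt_of_ne hj with h | h
      · rw [hu.2 i j h, zero_mul]
      · rw [hv.2 j i h, mul_zero]
    · intro h; exact absurd (mem_univ _) h
  · intro i j hij
    show (u.1 * v.1) i j = 0
    rw [Matrix.mul_apply]
    refine Finset.sum_eq_zero fun l _ => ?_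
    rcases lt_or_ge l i with h | h
    · rw [hu.2 i l h, zero_mul]
    · rw [hv.2 l j (lt_of_lt_of_le hij h), mul_zero]

theorem IsLo.mul {c : Fin m → ℕ} {u v : Blk c K} (hu : IsLo u) (hv : IsLo v) : IsLo (u * v) := by
  constructor
  · intro i
    show (u.1 * v.1) i i = 1
    rw [Matrix.mul_apply, Finset.sum_eq_single i, hu.1, hv.1, one_mul]
    · intro j _ hj
      rcases lt_or_gt_of_ne hj with h | h
      · rw [hv.2 j i h, mul_zero]
      · rw [hu.2 i j h, zero_mul]
    · intro h; exact absurd (mem_univ _) h
  · intro i j hij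
    show (u.1 * v.1) i j = 0
    rw [Matrix.mul_apply]
    refine Finset.sum_eq_zero fun l _ => ?_
    rcases lt_or_ge i l with h | h
    · rw [hu.2 i l h, zero_mul]
    · rw [hv.2 l j (lt_of_le_of_lt h hij), mul_zero]

theorem IsUp.emb {c : Fin (m + 1) → ℕ} {u : Blk (fun i => c i.castSucc) K} (hu : IsUp u) :
    IsUp (emb c K u) := by
  constructor
  · intro i
    show embM u.1 i i = 1
    induction i using Fin.lastCases with
    | last => simp
    | cast i => rw [embM_cc]; exact hu.1 i
  · intro i j hij
    show embM u.1 i j = 0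
    induction i using Fin.lastCases with
    | last =>
      induction j using Fin.lastCases with
      | last => exact absurd hij (lt_irrefl _)
      | cast j => simp
    | cast i =>
      induction j using Fin.lastCases with
      | last => simp
      | cast j => rw [embM_cc]; exact hu.2 i j (Fin.castSucc_lt_castSucc_iff.1 hij)

theorem IsLo.emb {c : Fin (m + 1) → ℕ} {u : Blk (fun i => c i.castSucc) K} (hu : IsLo u) :
    IsLo (emb c K u) := by
  constructor
  · intro i
    show embM u.1 i i = 1
    induction i using Fin.lastCases with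
    | last => simp
    | cast i => rw [embM_cc]; exact hu.1 i
  · intro i j hij
    show embM u.1 i j = 0
    induction i using Fin.lastCases with
    | last =>
      induction j using Fin.lastCases with
      | last => exact absurd hij (lt_irrefl _)
      | cast j => simp
    | cast i =>
      induction j using Fin.lastCases with
      | last => simp
      | cast j => rw [embM_cc]; exact hu.2 i j (Fin.castSucc_lt_castSucc_iff.1 hij)

end aux

/-- PROOF.  Induction on `m`.  `m = 0`: `Blk` has one element `1 = 1 * dg t * 1`.  Step: let `Z : Blk c K` with `z = Z last last ≠ 0`,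
`b`, `r` the last column and the last row (supported on the color class of `last`) and `D` the upper left part.  Then
`Z = [1, b/z; 0, 1] * [D - b r / z, 0; 0, z] * [1, 0; r/z, 1]`, and `D - b r / z` lies in `Blk (c ∘ castSucc)`.
For fixed `b, r, z` the function `D' ↦ F ([1, b/z; 0, 1] * (emb D' * dg (1,..,1,z)) * [1, 0; r/z, 1])` is polynomial in `D'` and vanishes at
`D' = u' * dg t' * g'` (because `[1, b/z; 0, 1] * emb u'` is `IsUp`, `emb (dg t') * dg (1,..,1,z)` is diagonal, and
`emb g' * [1, 0; r/z, 1]` is `IsLo`; `emb` commutes with `dg (1,..,1,z)`), hence it is zero by induction, so `F Z = 0`.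
Thus `F Z * Z last last = 0` for all `Z`, and `blk_mul_zero` gives `F = 0`. -/
theorem blk_dense [Infinite K] {m : ℕ} (c : Fin m → ℕ) (F : Blk c K → K)
    (hF : F ∈ PolyFn (crd c K))
    (h : ∀ (u g : Blk c K) (t : Fin m → K), IsUp u → IsLo g → F (u * dg c t * g) = 0)
    (Z : Blk c K) : F Z = 0 := by
  induction m with
  | zero =>
    have e : Z = 1 * dg c (fun _ => 0) * 1 := Subtype.ext (by ext i; exact i.elim0)
    rw [e]
    exact h 1 1 _ ⟨fun i => i.elim0, fun i => i.elim0⟩ ⟨fun i => i.elim0, fun i => i.elim0⟩
  | succ m ih =>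
    refine blk_mul_zero F (fun Z => Z.1 (Fin.last m) (Fin.last m)) hF
      (coord_mem (crd c K) (Fin.last m, Fin.last m)) ?_ ⟨1, by simp⟩ Z
    intro Z
    by_cases hz : Z.1 (Fin.last m) (Fin.last m) = 0
    · rw [hz, mul_zero]
    set z := Z.1 (Fin.last m) (Fin.last m) with hzdef
    -- the three factors
    let U : Blk c K := ⟨upM fun i => Z.1 i.castSucc (Fin.last m) / z, by
      intro i j hij
      induction i using Fin.lastCases with
      | last =>
        induction j using Fin.lastCases with
        | last => exact absurd rfl hij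
        | cast j => simp
      | cast i =>
        induction j using Fin.lastCases with
        | last => rw [upM_cl, Z.2 _ _ hij, zero_div]
        | cast j =>
          rw [upM_cc, if_neg]
          rintro rfl
          exact hij rfl⟩
    let G : Blk c K := ⟨loM fun j => Z.1 (Fin.last m) j.castSucc / z, by
      intro i j hij
      induction i using Fin.lastCases with
      | last =>
        induction j using Fin.lastCases with
        | last => exact absurd rfl hij
        | cast j => rw [loM_lc, Z.2 _ _ hij, zero_div]
      | cast i =>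
        induction j using Fin.lastCases with
        | last => simp
        | cast j =>
          rw [loM_cc, if_neg]
          rintro rfl
          exact hij rfl⟩
    let D : Blk (fun i => c i.castSucc) K := ⟨Matrix.of fun i j => Z.1 i.castSucc j.castSucc -
        Z.1 i.castSucc (Fin.last m) * Z.1 (Fin.last m) j.castSucc / z, by
      intro i j hij
      rw [Matrix.of_apply, Z.2 _ _ hij]
      by_cases h1 : c i.castSucc = c (Fin.last m)
      · rw [Z.2 (Fin.last m) j.castSucc (fun h2 => hij (h1.trans h2))]
        simp
      · rw [Z.2 i.castSucc (Fin.last m) h1]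
        simp⟩
    let tz : Fin (m + 1) → K := Fin.snoc (fun _ => 1) z
    have hU : IsUp U := by
      constructor
      · intro i
        show upM _ i i = 1
        induction i using Fin.lastCases with
        | last => simp
        | cast i => simp
      · intro i j hij
        show upM _ i j = 0
        induction i using Fin.lastCases with
        | last =>
          induction j using Fin.lastCases with
          | last => exact absurd hij (lt_irrefl _)
          | cast j => simp
        | cast i =>
          induction j using Fin.lastCases with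
          | last => exact absurd hij (not_lt.2 (Fin.le_last _))
          | cast j =>
            rw [upM_cc, if_neg]
            rintro rfl
            exact lt_irrefl _ hij
    have hG : IsLo G := by
      constructor
      · intro i
        show loM _ i i = 1
        induction i using Fin.lastCases with
        | last => simp
        | cast i => simp
      · intro i j hij
        show loM _ i j = 0
        induction i using Fin.lastCases with
        | last => exact absurd hij (not_lt.2 (Fin.le_last _))
        | cast i =>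
          induction j using Fin.lastCases with
          | last => simp
          | cast j =>
            rw [loM_cc, if_neg]
            rintro rfl
            exact lt_irrefl _ hij
    have hZ : Z = U * (emb c K D * dg c tz) * G := by
      apply Subtype.ext
      show Z.1 = upM _ * (embM D.1 * Matrix.diagonal tz) * loM _
      ext i j
      induction i using Fin.lastCases with
      | last =>
        induction j using Fin.lastCases with
        | last =>
          rw [mul_loM_l, upM_mul_l, Matrix.mul_diagonal]
          simp [tz, hzdef]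
        | cast j =>
          rw [mul_loM_c, upM_mul_l, upM_mul_l, Matrix.mul_diagonal, Matrix.mul_diagonal]
          simp only [embM_lc, embM_ll, tz, Fin.snoc_last, Fin.snoc_castSucc]
          field_simp
          ring
      | cast i =>
        induction j using Fin.lastCases with
        | last =>
          rw [mul_loM_l, upM_mul_c, Matrix.mul_diagonal, Matrix.mul_diagonal]
          simp only [embM_cl, embM_ll, tz, Fin.snoc_last]
          field_simp
          ring
        | cast j =>
          rw [mul_loM_c, upM_mul_c, upM_mul_c, Matrix.mul_diagonal, Matrix.mul_diagonal,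
            Matrix.mul_diagonal, Matrix.mul_diagonal]
          simp only [embM_cl, embM_cc, embM_lc, embM_ll, tz, Fin.snoc_last, Fin.snoc_castSucc, D,
            Matrix.of_apply]
          field_simp
          ring
    have hpoly : ∀ ij, (fun X : Blk (fun i => c i.castSucc) K =>
        crd c K (U * (emb c K X * dg c tz) * G) ij) ∈ PolyFn (crd (fun i => c i.castSucc) K) := by
      intro ij
      have h1 : ∀ ij, (fun X : Blk (fun i => c i.castSucc) K =>
          crd c K (emb c K X * dg c tz) ij) ∈ PolyFn (crd (fun i => c i.castSucc) K) := fun ij =>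
        comp_mem (crd c K) _ (fun X => emb c K X) (emb_poly c K) _ (mul_right_poly (dg c tz) ij)
      have h2 : ∀ ij, (fun X : Blk (fun i => c i.castSucc) K =>
          crd c K (U * (emb c K X * dg c tz)) ij) ∈ PolyFn (crd (fun i => c i.castSucc) K) := fun ij =>
        comp_mem (crd c K) _ (fun X => emb c K X * dg c tz) h1 _ (mul_left_poly U ij)
      exact comp_mem (crd c K) _ (fun X => U * (emb c K X * dg c tz)) h2 _ (mul_right_poly G ij)
    have hH := ih (fun i => c i.castSucc) (fun X => F (U * (emb c K X * dg c tz) * G))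
      (comp_mem (crd c K) _ _ hpoly F hF) ?_ D
    · rw [hZ]
      have h3 : F (U * (emb c K D * dg c tz) * G) = 0 := hH
      rw [h3, zero_mul]
    · intro u g t hu hg
      have e : U * (emb c K (u * dg (fun i => c i.castSucc) t * g) * dg c tz) * G =
          (U * emb c K u) * dg c (Fin.snoc t z) * (emb c K g * G) := by
        have e1 : emb c K g * dg c tz = dg c tz * emb c K g := by
          apply Subtype.ext
          show embM g.1 * Matrix.diagonal tz = Matrix.diagonal tz * embM g.1
          ext i j
          rw [Matrix.mul_diagonal, Matrix.diagonal_mul]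
          induction i using Fin.lastCases with
          | last =>
            induction j using Fin.lastCases with
            | last => simp
            | cast j => simp
          | cast i =>
            induction j using Fin.lastCases with
            | last => simp
            | cast j => simp [tz]
        have e2 : emb c K (dg (fun i => c i.castSucc) t) * dg c tz = dg c (Fin.snoc t z) := by
          apply Subtype.ext
          show embM (Matrix.diagonal t) * Matrix.diagonal tz = Matrix.diagonal (Fin.snoc t z)
          ext i j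
          rw [Matrix.mul_diagonal]
          induction i using Fin.lastCases with
          | last =>
            induction j using Fin.lastCases with
            | last => simp [tz]
            | cast j => simp [Matrix.diagonal_apply, (Fin.castSucc_lt_last j).ne']
          | cast i =>
            induction j using Fin.lastCases with
            | last => simp [Matrix.diagonal_apply, (Fin.castSucc_lt_last i).ne]
            | cast j => simp [tz, Matrix.diagonal_apply, Fin.castSucc_inj]
        rw [map_mul, map_mul, mul_assoc (emb c K u * _), e1, ← e2]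
        simp only [mul_assoc]
      show F (U * (emb c K (u * dg (fun i => c i.castSucc) t * g) * dg c tz) * G) = 0
      rw [e]
      exact h _ _ _ (hU.mul hu.emb) (hg.emb.mul hG)

end Pool.PI34.A5

end

/-! ### part A5_Lau -/
section

/-! PI34, block A5, file Lau: the matrices `[[0,1],[-1,d]]`, non dominant weights. -/

set_option autoImplicit false

namespace Pool.PI34.A5

open Finset Matrix

variable {m : ℕ} {c : Fin m → ℕ} {K : Type} [Field K]

private theorem eq_of_ne_zero [Infinite K] (p q : Polynomial K)
    (h : ∀ d : K, d ≠ 0 → p.eval d = q.eval d) : p = q := by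
  have e : Polynomial.X * p = Polynomial.X * q := by
    refine Polynomial.funext fun d => ?_
    rw [Polynomial.eval_mul, Polynomial.eval_mul, Polynomial.eval_X]
    by_cases hd : d = 0
    · rw [hd, zero_mul, zero_mul]
    · rw [h d hd]
  exact mul_left_cancel₀ Polynomial.X_ne_zero e

private theorem reverse_eq [Infinite K] (p a : Polynomial K) (e : ℕ)
    (h : ∀ d : K, d ≠ 0 → d ^ e * p.eval d = a.eval d⁻¹) :
    p * Polynomial.X ^ (e + a.natDegree) = a.reverse := by
  refine eq_of_ne_zero _ _ fun d hd => ?_
  haveI : Invertible (d⁻¹) := invertibleOfNonzero (inv_ne_zero hd)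
  have h1 := Polynomial.eval₂_reverse_mul_pow (RingHom.id K) (d⁻¹) a
  rw [invOf_eq_inv, inv_inv] at h1
  change a.reverse.eval d * _ = a.eval d⁻¹ at h1
  rw [← h d hd] at h1
  have h2 : a.reverse.eval d = d ^ e * p.eval d * d ^ a.natDegree := by
    rw [← h1, mul_assoc, ← mul_pow, inv_mul_cancel₀ hd, one_pow, mul_one]
  rw [h2, Polynomial.eval_mul, Polynomial.eval_pow, Polynomial.eval_X, pow_add]
  ring

/-- PROOF.  Multiply by `d ^ natDegree a`: as polynomials `X^(e + natDegree a) * p = a.reverse`-like polynomial
`∑_q a_q X^(natDegree a - q)` of degree `≤ natDegree a`, (they agree at all `d ≠ 0`, infinitely many points). So the coefficients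
vanish. -/
theorem laurent_zero [Infinite K] (p a : Polynomial K) (e : ℕ) (he : 0 < e)
    (h : ∀ d : K, d ≠ 0 → d ^ e * p.eval d = a.eval d⁻¹) : a = 0 := by
  have h1 := reverse_eq p a e h
  by_cases hp : p = 0
  · rw [hp, zero_mul] at h1
    exact Polynomial.reverse_eq_zero.1 h1.symm
  · exfalso
    have h2 := congrArg Polynomial.natDegree h1
    rw [Polynomial.natDegree_mul_X_pow _ hp] at h2
    have h3 := a.reverse_natDegree_le
    omega

/-- same with `e = 0`: `a` is constant -/
theorem laurent_const [Infinite K] (p a : Polynomial K)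
    (h : ∀ d : K, d ≠ 0 → p.eval d = a.eval d⁻¹) (x : K) : a.eval x = a.eval 0 := by
  have h1 := reverse_eq p a 0 fun d hd => by rw [pow_zero, one_mul]; exact h d hd
  rw [Nat.zero_add] at h1
  have hp0 : p.natDegree = 0 := by
    by_cases hp : p = 0
    · rw [hp]
      simp
    · have h2 := congrArg Polynomial.natDegree h1
      rw [Polynomial.natDegree_mul_X_pow _ hp] at h2
      have h3 := a.reverse_natDegree_le
      omega
  have h4 : a = Polynomial.C (p.coeff 0) := by
    refine eq_of_ne_zero _ _ fun d hd => ?_
    have h5 := h d⁻¹ (inv_ne_zero hd)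
    rw [inv_inv] at h5
    rw [← h5, Polynomial.eq_C_of_natDegree_eq_zero hp0]
    simp
  rw [h4]
  simp

/-- the identity matrix with the block `[[0,1],[-1,d]]` at `i, j` -/
def zd (i j : Fin m) (h : c i = c j) (d : K) : Blk c K :=
  ⟨Matrix.of fun a b => if a = i then (if b = j then 1 else 0)
    else if a = j then (if b = i then -1 else if b = j then d else 0) else (1 : Matrix _ _ K) a b, by
    intro a b hab
    rw [Matrix.of_apply]
    split_ifs with h1 h2 h3 h4 h5
    · exact absurd (by rw [h1, h2, h]) hab
    · rfl
    · exact absurd (by rw [h3, h4, h]) hab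
    · exact absurd (by rw [h3, h5]) hab
    · rfl
    · exact Matrix.one_apply_ne fun e => hab (by rw [e])⟩

theorem zd_poly (i j : Fin m) (h : c i = c j) (ab) :
    (fun d : Fin 1 → K => crd c K (zd (c := c) i j h (d 0)) ab) ∈
      PolyFn (fun x : Fin 1 → K => x) := by
  obtain ⟨a, b⟩ := ab
  change (fun d : Fin 1 → K => if a = i then (if b = j then (1 : K) else 0)
    else if a = j then (if b = i then -1 else if b = j then d 0 else 0) else (1 : Matrix _ _ K) a b) ∈ _
  split_ifs
  · exact const_mem _ 1
  · exact const_mem _ 0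
  · exact const_mem _ (-1)
  · exact coord_mem (fun x : Fin 1 → K => x) 0
  · exact const_mem _ 0
  · exact const_mem _ _

private theorem el_mul_apply (i j : Fin m) (x : K) (Z : Matrix (Fin m) (Fin m) K) (a b : Fin m) :
    ((1 + Matrix.single i j x) * Z) a b = Z a b + if a = i then x * Z j b else 0 := by
  rw [Matrix.add_mul, Matrix.one_mul, Matrix.add_apply]
  congr 1
  split_ifs with h
  · rw [h, Matrix.single_mul_apply_same]
  · rw [Matrix.single_mul_apply_of_ne _ _ _ _ _ h]

private theorem mul_el_apply (i j : Fin m) (x : K) (Z : Matrix (Fin m) (Fin m) K) (a b : Fin m) :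
    (Z * (1 + Matrix.single i j x)) a b = Z a b + if b = j then Z a i * x else 0 := by
  rw [Matrix.mul_add, Matrix.mul_one, Matrix.add_apply]
  congr 1
  split_ifs with h
  · rw [h, Matrix.mul_single_apply_same]
  · rw [Matrix.mul_single_apply_of_ne _ _ _ _ _ h]

/-- `[[0,1],[-1,d]] = [[1,1/d],[0,1]] * diag(1/d, d) * [[1,0],[-1/d,1]]` -/
theorem zd_eq (i j : Fin m) (hij : i ≠ j) (h : c i = c j) (d : K) (hd : d ≠ 0) :
    zd (c := c) i j h d = el c i j h d⁻¹ *
      dg c (Function.update (Function.update 1 i d⁻¹) j d) * el c j i h.symm (-d⁻¹) := by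
  refine Subtype.ext (Matrix.ext fun a b => ?_)
  obtain ⟨t, ht⟩ : ∃ t : Fin m → K, t = Function.update (Function.update (1 : Fin m → K) i d⁻¹) j d := ⟨_, rfl⟩
  have hti : t i = d⁻¹ := by
    rw [ht, Function.update_of_ne hij, Function.update_self]
  have htj : t j = d := by
    rw [ht, Function.update_self]
  have hto : ∀ l, l ≠ i → l ≠ j → t l = 1 := fun l h1 h2 => by
    rw [ht, Function.update_of_ne h2, Function.update_of_ne h1, Pi.one_apply]
  rw [← ht]
  change (if a = i then (if b = j then (1 : K) else 0)
    else if a = j then (if b = i then -1 else if b = j then d else 0) else (1 : Matrix _ _ K) a b) =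
    ((1 + Matrix.single i j d⁻¹) * Matrix.diagonal t * (1 + Matrix.single j i (-d⁻¹))) a b
  rw [mul_el_apply, el_mul_apply, el_mul_apply, Matrix.diagonal_apply, Matrix.diagonal_apply,
    Matrix.diagonal_apply, Matrix.diagonal_apply_eq, htj]
  by_cases ha : a = i
  · subst ha
    rw [if_pos rfl, if_pos rfl, if_pos rfl, if_neg hij, zero_add, inv_mul_cancel₀ hd, one_mul]
    by_cases hb : b = a
    · subst hb
      rw [if_neg hij, if_pos rfl, if_pos rfl, if_neg hij.symm, hti]
      ring
    · rw [if_neg hb, if_neg (Ne.symm hb), zero_add, add_zero]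
      by_cases hb' : b = j
      · subst hb'
        rw [if_pos rfl, if_pos rfl, inv_mul_cancel₀ hd]
      · rw [if_neg hb', if_neg (Ne.symm hb'), mul_zero]
  · rw [if_neg ha, if_neg ha, if_neg ha, add_zero]
    by_cases ha' : a = j
    · subst ha'
      rw [if_pos rfl, if_pos rfl]
      by_cases hb : b = i
      · subst hb
        rw [if_pos rfl, if_pos rfl, if_neg ha, zero_add, add_zero, htj, mul_neg, mul_inv_cancel₀ hd]
      · rw [if_neg hb, if_neg hb, add_zero]
        by_cases hb' : b = a
        · subst hb'
          rw [if_pos rfl, if_pos rfl, htj]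
        · rw [if_neg hb', if_neg (Ne.symm hb')]
    · rw [if_neg ha', if_neg ha', add_zero, zero_mul, ite_self, add_zero]
      by_cases hb : a = b
      · subst hb
        rw [if_pos rfl, Matrix.one_apply_eq, hto a ha ha']
      · rw [if_neg hb, Matrix.one_apply_ne hb]

private theorem poly1 (F : (Fin 1 → K) → K) (hF : F ∈ PolyFn (fun x : Fin 1 → K => x)) :
    ∃ q : Polynomial K, ∀ s : K, F (fun _ => s) = q.eval s := by
  obtain ⟨p, hp⟩ := (mem_PolyFn _ F).1 hF
  refine ⟨MvPolynomial.aeval (fun _ => Polynomial.X) p, fun s => ?_⟩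
  rw [hp]
  clear hp
  induction p using MvPolynomial.induction_on with
  | C a => simp
  | add p q hp hq => rw [map_add, map_add, Polynomial.eval_add, hp, hq]
  | mul_X p i hp => rw [map_mul, map_mul, Polynomial.eval_mul, hp]; simp

private theorem el_poly (M : PRep c K) (i j : Fin m) (h : c i = c j) (v : M.V)
    (φ : Module.Dual K M.V) :
    ∃ q : Polynomial K, ∀ x, φ (M.ρ (el c i j h x) v) = q.eval x := by
  refine poly1 (fun d => φ (M.ρ (el c i j h (d 0)) v))
    (comp_mem (crd c K) (fun x : Fin 1 → K => x) (fun d => el c i j h (d 0)) ?_ _ (M.poly v φ))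
  rintro ⟨a, b⟩
  change (fun d : Fin 1 → K => (1 : Matrix _ _ K) a b + Matrix.single i j (d 0) a b) ∈ _
  refine Subalgebra.add_mem _ (const_mem _ _) ?_
  by_cases hab : i = a ∧ j = b
  · obtain ⟨rfl, rfl⟩ := hab
    have e : (fun d : Fin 1 → K => Matrix.single i j (d 0) i j) = fun d : Fin 1 → K => d 0 :=
      funext fun d => Matrix.single_apply_same _ _ _
    rw [e]
    exact coord_mem (fun x : Fin 1 → K => x) 0
  · have e : (fun d : Fin 1 → K => Matrix.single i j (d 0) a b) = fun _ : Fin 1 → K => (0 : K) :=
      funext fun d => Matrix.single_apply_of_ne _ _ _ _ _ hab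
    rw [e]
    exact const_mem _ 0

private theorem zd_poly' (M : PRep c K) (i j : Fin m) (h : c i = c j) (v : M.V)
    (φ : Module.Dual K M.V) :
    ∃ q : Polynomial K, ∀ x, φ (M.ρ (zd i j h x) v) = q.eval x :=
  poly1 (fun d => φ (M.ρ (zd i j h (d 0)) v))
    (comp_mem (crd c K) (fun x : Fin 1 → K => x) (fun d => zd i j h (d 0)) (fun ab => zd_poly i j h ab) _
      (M.poly v φ))

private theorem el_zero (i j : Fin m) (h : c i = c j) : el c i j h (0 : K) = 1 := by
  refine Subtype.ext ?_
  change (1 + Matrix.single i j (0 : K)) = (1 : Matrix _ _ K)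
  rw [Matrix.single_zero, add_zero]

private theorem key (M : PRep c K) (κ : Fin m → ℕ) (v : M.V) (hv : v ∈ M.hs κ) (i j : Fin m)
    (hij : i < j) (h : c i = c j) (d : K) (hd : d ≠ 0) (φ : Module.Dual K M.V) :
    d ^ κ i * φ (M.ρ (zd i j h d) v) = d ^ κ j * φ (M.ρ (el c i j h d⁻¹) v) := by
  have hlo : IsLo (el c j i h.symm (-d⁻¹)) := by
    refine ⟨fun a => ?_, fun a b hab => ?_⟩
    · change (1 + Matrix.single j i (-d⁻¹)) a a = 1
      rw [Matrix.add_apply, Matrix.one_apply_eq, Matrix.single_apply_of_ne, add_zero]
      rintro ⟨rfl, h1⟩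
      exact hij.ne h1
    · change (1 + Matrix.single j i (-d⁻¹)) a b = 0
      rw [Matrix.add_apply, Matrix.one_apply_ne hab.ne, Matrix.single_apply_of_ne, add_zero]
      rintro ⟨rfl, rfl⟩
      exact lt_asymm hij hab
  have htw : tw (Function.update (Function.update (1 : Fin m → K) i d⁻¹) j d) κ =
      (d⁻¹) ^ κ i * d ^ κ j := by
    unfold tw
    rw [← Finset.mul_prod_erase univ _ (Finset.mem_univ i),
      ← Finset.mul_prod_erase (univ.erase i) _ (Finset.mem_erase.2 ⟨hij.ne', Finset.mem_univ j⟩)]
    rw [Finset.prod_eq_one, mul_one, Function.update_of_ne hij.ne, Function.update_self,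
      Function.update_self]
    intro l hl
    rw [Finset.mem_erase, Finset.mem_erase] at hl
    rw [Function.update_of_ne hl.1, Function.update_of_ne hl.2.1, Pi.one_apply, one_pow]
  rw [zd_eq i j hij.ne h d hd, map_mul, map_mul, Module.End.mul_apply, Module.End.mul_apply,
    hv.2 _ hlo, hv.1, map_smul, map_smul, smul_eq_mul, htw, inv_pow]
  have h1 : d ^ κ i ≠ 0 := pow_ne_zero _ hd
  field_simp

/-- PROOF.  `v ∈ hs κ`, `i < j`, `c i = c j`, `κ i > κ j`.  For a functional `φ` there are polynomials `p`, `a` with
`φ(ρ(zd d) v) = p(d)`, `φ(ρ(el i j x) v) = a(x)`; `zd_eq` and `v ∈ hs κ`: `p(d) = d^(κ j) d^(-κ i) a(1/d)` for `d ≠ 0`;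
`laurent_zero` gives `a = 0`, so `φ v = a(0) = 0`. -/
theorem hs_nondom [Infinite K] (M : PRep c K) (κ : Fin m → ℕ) (h : ¬ Dom c κ) : M.hs κ = ⊥ := by
  unfold Dom at h
  push Not at h
  obtain ⟨i, j, hij, hc, hκ⟩ := h
  rw [Submodule.eq_bot_iff]
  intro v hv
  rw [← Module.forall_dual_apply_eq_zero_iff K]
  intro φ
  obtain ⟨a, ha⟩ := el_poly M i j hc v φ
  obtain ⟨p, hp⟩ := zd_poly' M i j hc v φ
  have h0 : a = 0 := by
    refine laurent_zero p a (κ i - κ j) (by omega) fun d hd => ?_
    have h1 := key M κ v hv i j hij hc d hd φ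
    rw [hp, ha] at h1
    have h2 : d ^ κ i = d ^ κ j * d ^ (κ i - κ j) := by
      rw [← pow_add]
      congr 1
      omega
    rw [h2, mul_assoc] at h1
    exact mul_left_cancel₀ (pow_ne_zero _ hd) h1
  have h3 := ha 0
  rw [el_zero, map_one, h0, Polynomial.eval_zero] at h3
  exact h3

/-- PROOF.  Same with `κ i = κ j` and `laurent_const`: `φ(ρ(el i j x) v) = a(x) = a(0) = φ(v)`. -/
theorem hs_el [Infinite K] (M : PRep c K) (κ : Fin m → ℕ) (v : M.V) (hv : v ∈ M.hs κ) (i j : Fin m)
    (hij : i < j) (h : c i = c j) (hκ : κ i = κ j) (x : K) : M.ρ (el c i j h x) v = v := by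
  rw [← sub_eq_zero, ← Module.forall_dual_apply_eq_zero_iff K]
  intro φ
  obtain ⟨a, ha⟩ := el_poly M i j h v φ
  obtain ⟨p, hp⟩ := zd_poly' M i j h v φ
  have h0 : a.eval x = a.eval 0 := by
    refine laurent_const p a (fun d hd => ?_) x
    have h1 := key M κ v hv i j hij h d hd φ
    rw [hp, ha, hκ] at h1
    exact mul_left_cancel₀ (pow_ne_zero _ hd) h1
  rw [← ha, ← ha, el_zero, map_one] at h0
  rw [map_sub, h0]
  simp

end Pool.PI34.A5

end

/-! ### part A5_N4 -/
section

/-! PI34, block A5, file N4: positivity of `Dt`. -/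

set_option autoImplicit false

namespace Pool.PI34.A5

open Finset Matrix

/-- the interlacing weights of a dominant weight are dominant -/
theorem il_dom {m : ℕ} (c lam : Fin (m + 1) → ℕ) (hc : Monotone c) (h : Dom c lam) (ν : Fin m → ℕ)
    (hν : ν ∈ il c lam) : Dom (fun i => c i.castSucc) ν := by
  intro i j hij hcij
  have hcij' : c i.castSucc = c j.castSucc := hcij
  rw [il, Fintype.mem_piFinset] at hν
  have hi := hν i
  have hj := hν j
  by_cases hl : c i.castSucc = c (Fin.last m)
  · rw [if_pos hl, Finset.mem_Icc] at hi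
    rw [if_pos (hcij'.symm.trans hl), Finset.mem_Icc] at hj
    have h1 : i.succ ≤ j.castSucc := by
      rw [Fin.le_def, Fin.val_succ, Fin.val_castSucc]
      exact hij
    have h2 : c i.succ = c j.castSucc := by
      refine le_antisymm (hc h1) ?_
      rw [← hcij']
      exact hc Fin.castSucc_lt_succ.le
    have h3 : lam i.succ ≤ lam j.castSucc := by
      rcases h1.eq_or_lt with h4 | h4
      · rw [h4]
      · exact h _ _ h4 h2
    exact hi.2.trans (h3.trans hj.1)
  · rw [if_neg hl, Finset.mem_singleton] at hi
    rw [if_neg (fun e => hl (hcij'.trans e)), Finset.mem_singleton] at hj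
    rw [hi, hj]
    exact h _ _ (Fin.castSucc_lt_castSucc_iff.2 hij) hcij'

/-- PROOF.  Induction on `m` with `Dt_branch`; all the terms are positive (`il_dom`), and `fun i => lam i.castSucc` lies in `il c lam`
(for `c i.castSucc = c (last m)` we have `c i.succ = c i.castSucc` by monotonicity and `λ i.castSucc ≤ λ i.succ` by `h`).
`m = 0`: the determinant of the empty matrix is `1`. -/
theorem Dt_pos {m : ℕ} (c lam : Fin m → ℕ) (hc : Monotone c) (h : Dom c lam) : 0 < Dt c lam := by
  induction m with
  | zero =>
    rw [Dt, Matrix.det_isEmpty]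
    exact one_pos
  | succ m ih =>
    rw [Dt_branch c lam hc h]
    refine Finset.sum_pos (fun ν hν => ih (fun i => c i.castSucc) ν ?_ (il_dom c lam hc h ν hν)) ?_
    · intro i j hij
      exact hc (Fin.castSucc_le_castSucc_iff.2 hij)
    · refine ⟨fun i => lam i.castSucc, ?_⟩
      rw [il, Fintype.mem_piFinset]
      intro i
      by_cases hl : c i.castSucc = c (Fin.last m)
      · rw [if_pos hl, Finset.mem_Icc]
        refine ⟨le_rfl, h _ _ Fin.castSucc_lt_succ ?_⟩
        refine le_antisymm (hc Fin.castSucc_lt_succ.le) ?_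
        rw [hl]
        exact hc (Fin.le_last _)
      · rw [if_neg hl, Finset.mem_singleton]

end Pool.PI34.A5

end
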