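import Pool.Agent.LibPI54.M13
import Pool.Agent.LibPI54.M14

/-! ### part A5_Nab -/
section

/-! PI34, block A5, file Nab: the induced representations `nab λ`. -/

set_option autoImplicit false

namespace Pool.PI34.A5

open Finset Matrix

variable {m : ℕ} {K : Type} [Field K]

/-- polynomial functions with `F (u Z) = F Z`, `F (t Z) = t^λ F Z` -/
def nabS (c : Fin m → ℕ) (K : Type) [Field K] (lam : Fin m → ℕ) : Submodule K (Blk c K → K) where
  carrier := {F | F ∈ PolyFn (crd c K) ∧ (∀ u Z : Blk c K, IsUp u → F (u * Z) = F Z) ∧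
    ∀ (t : Fin m → K) (Z : Blk c K), F (dg c t * Z) = tw t lam * F Z}
  zero_mem' := ⟨Subalgebra.zero_mem _, fun _ _ _ => rfl, fun _ _ => by simp⟩
  add_mem' := by
    rintro F G ⟨h1, h2, h3⟩ ⟨k1, k2, k3⟩
    exact ⟨Subalgebra.add_mem _ h1 k1, fun u Z hu => by
      rw [Pi.add_apply, Pi.add_apply, h2 u Z hu, k2 u Z hu], fun t Z => by
      rw [Pi.add_apply, Pi.add_apply, h3 t Z, k3 t Z, mul_add]⟩
  smul_mem' := by
    rintro a F ⟨h1, h2, h3⟩
    exact ⟨Subalgebra.smul_mem _ h1 a, fun u Z hu => by
      rw [Pi.smul_apply, Pi.smul_apply, h2 u Z hu], fun t Z => by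
      rw [Pi.smul_apply, Pi.smul_apply, h3 t Z, smul_eq_mul, smul_eq_mul, mul_left_comm]⟩

/-- the polynomial functions of degree at most `d` form a finite dimensional space (image of
`MvPolynomial.restrictTotalDegree`) -/
theorem fin_deg {T ι : Type} [Finite ι] (x : T → ι → K) (d : ℕ) :
    FiniteDimensional K (Submodule.map
      (MvPolynomial.aeval (fun i t => x t i) : MvPolynomial ι K →ₐ[K] (T → K)).toLinearMap
      (MvPolynomial.restrictTotalDegree ι K d)) := by
  infer_instance

/-- homogeneous polynomials at a multiple of a point -/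
theorem eval_smul_hom {ι : Type} [Fintype ι] (q : MvPolynomial ι K) (e : ℕ)
    (hq : q.IsHomogeneous e) (s : K) (x : ι → K) :
    MvPolynomial.eval (s • x) q = s ^ e * MvPolynomial.eval x q := by
  rw [MvPolynomial.eval_eq', MvPolynomial.eval_eq', Finset.mul_sum]
  refine Finset.sum_congr rfl fun d hd => ?_
  have h1 : ∑ i, d i = e := by
    have h2 := hq (MvPolynomial.mem_support_iff.1 hd)
    rw [Finsupp.weight_apply, Finsupp.sum_fintype _ _ (by simp)] at h2
    simpa using h2
  have h3 : ∏ i, (s • x) i ^ d i = s ^ e * ∏ i, x i ^ d i := by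
    rw [← h1, ← Finset.prod_pow_eq_pow_sum, ← Finset.prod_mul_distrib]
    refine Finset.prod_congr rfl fun i _ => ?_
    rw [Pi.smul_apply, smul_eq_mul, mul_pow]
  rw [h3, mul_left_comm]

/-- PROOF.  `F ∈ nabS λ` is `F Z = eval Z p`; `F (s Z) = s^|λ| F Z` (`t = (s, …, s)`), so `F Z = eval Z p_d` with `p_d` the homogeneous
component of degree `d = ∑ λ i` of `p` (compare the coefficients of `s^d`; `K` infinite).  So `nabS λ` is contained in the finite dimensional space `fin_deg`. -/
instance nabS_fd [Infinite K] (c : Fin m → ℕ) (lam : Fin m → ℕ) :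
    FiniteDimensional K (nabS c K lam) := by
  have := fin_deg (crd c K) (∑ i, lam i)
  refine Submodule.finiteDimensional_of_le (S₂ := Submodule.map
      (MvPolynomial.aeval (fun i t => crd c K t i) : MvPolynomial (Fin m × Fin m) K →ₐ[K]
        (Blk c K → K)).toLinearMap
      (MvPolynomial.restrictTotalDegree (Fin m × Fin m) K (∑ i, lam i))) ?_
  rintro F ⟨hF, -, h3⟩
  obtain ⟨p, hp⟩ := (mem_PolyFn _ F).1 hF
  refine ⟨MvPolynomial.homogeneousComponent (∑ i, lam i) p, ?_, ?_⟩
  · exact (MvPolynomial.mem_restrictTotalDegree _ _ _).2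
      (MvPolynomial.homogeneousComponent_isHomogeneous _ p).totalDegree_le
  · funext Z
    change (MvPolynomial.aeval (fun i t => crd c K t i) _ : Blk c K → K) Z = F Z
    rw [aeval_fun_apply]
    have key : Polynomial.C (F Z) * Polynomial.X ^ (∑ i, lam i) =
        ∑ e ∈ Finset.range (p.totalDegree + 1),
          Polynomial.C (MvPolynomial.eval (crd c K Z) (MvPolynomial.homogeneousComponent e p)) *
            Polynomial.X ^ e := by
      refine Polynomial.funext fun s => ?_
      rw [Polynomial.eval_mul, Polynomial.eval_C, Polynomial.eval_pow, Polynomial.eval_X,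
        Polynomial.eval_finsetSum]
      have h := h3 (fun _ => s) Z
      have e1 : tw (fun _ : Fin m => s) lam = s ^ (∑ i, lam i) := by
        rw [tw, Finset.prod_pow_eq_pow_sum]
      rw [e1, hp (dg c (fun _ => s) * Z)] at h
      rw [mul_comm, ← h]
      have e2 : crd c K (dg c (fun _ => s) * Z) = s • crd c K Z := by
        funext ij
        change (Matrix.diagonal (fun _ => s) * Z.1 : Matrix (Fin m) (Fin m) K) ij.1 ij.2 =
          s * Z.1 ij.1 ij.2
        rw [Matrix.diagonal_mul]
      rw [e2]
      conv_lhs => rw [← MvPolynomial.sum_homogeneousComponent p]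
      rw [map_sum]
      refine Finset.sum_congr rfl fun e _ => ?_
      rw [Polynomial.eval_mul, Polynomial.eval_C, Polynomial.eval_pow, Polynomial.eval_X]
      rw [eval_smul_hom _ e (MvPolynomial.homogeneousComponent_isHomogeneous e p), mul_comm]
    have h6 := congrArg (fun q => Polynomial.coeff q (∑ i, lam i)) key
    simp only [Polynomial.coeff_C_mul, Polynomial.coeff_X_pow, if_true, mul_one,
      Polynomial.finsetSum_coeff] at h6
    rw [h6]
    by_cases hd : (∑ i, lam i) ∈ Finset.range (p.totalDegree + 1)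
    · rw [Finset.sum_eq_single (∑ i, lam i)]
      · simp
      · intro b _ hb
        rw [if_neg (Ne.symm hb), mul_zero]
      · intro h
        exact absurd hd h
    · have h8 : ¬ (∑ i, lam i) < p.totalDegree + 1 := fun h => hd (Finset.mem_range.2 h)
      rw [MvPolynomial.homogeneousComponent_eq_zero _ _ (by omega), map_zero]
      symm
      refine Finset.sum_eq_zero fun b hb => ?_
      rw [if_neg (fun h => hd (by rw [h]; exact hb)), mul_zero]

/-- right translation -/
def rtr (c : Fin m → ℕ) (K : Type) [Field K] (lam : Fin m → ℕ) (g : Blk c K) :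
    nabS c K lam →ₗ[K] nabS c K lam where
  toFun F := ⟨fun Z => F.1 (Z * g), comp_mem _ _ _ (mul_right_poly g) _ F.2.1,
    fun u Z hu => by
      change F.1 (u * Z * g) = F.1 (Z * g)
      rw [mul_assoc]
      exact F.2.2.1 u (Z * g) hu,
    fun t Z => by
      change F.1 (dg c t * Z * g) = tw t lam * F.1 (Z * g)
      rw [mul_assoc]
      exact F.2.2.2 t (Z * g)⟩
  map_add' _ _ := rfl
  map_smul' _ _ := rfl

/-- a family of functionals with zero joint kernel on a finite dimensional space spans the dual -/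
theorem dual_span_of_sep {V ι : Type} [AddCommGroup V] [Module K V] [FiniteDimensional K V]
    (f : ι → Module.Dual K V) (h : ∀ v, (∀ i, f i v = 0) → v = 0) :
    Submodule.span K (Set.range f) = ⊤ := by
  have h1 : (Submodule.span K (Set.range f)).dualCoannihilator = ⊥ := by
    rw [eq_bot_iff]
    intro v hv
    refine (Submodule.mem_bot K).2 (h v fun i => ?_)
    exact (Submodule.mem_dualCoannihilator v).1 hv (f i) (Submodule.subset_span ⟨i, rfl⟩)
  have h2 := Subspace.dualCoannihilator_dualAnnihilator_eq (W := Submodule.span K (Set.range f))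
  rw [h1] at h2
  rw [← h2, Submodule.dualAnnihilator_bot]

/-- PROOF.  The evaluations at the points `Z` span the dual (`dual_span_of_sep`); for an evaluation the function is `g ↦ F (Z g)`,
polynomial in `g` (`mul_left_poly`). -/
theorem rtr_poly [Infinite K] (c : Fin m → ℕ) (lam : Fin m → ℕ) (F : nabS c K lam)
    (φ : Module.Dual K (nabS c K lam)) : (fun g => φ (rtr c K lam g F)) ∈ PolyFn (crd c K) := by
  let ev : Blk c K → Module.Dual K (nabS c K lam) := fun Z =>
    { toFun := fun G => G.1 Z
      map_add' := fun _ _ => rfl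
      map_smul' := fun _ _ => rfl }
  have hs : Submodule.span K (Set.range ev) = ⊤ :=
    dual_span_of_sep ev fun G hG => Subtype.ext (funext fun Z => hG Z)
  have hφ : φ ∈ Submodule.span K (Set.range ev) := by
    rw [hs]
    exact Submodule.mem_top
  induction hφ using Submodule.span_induction with
  | mem x hx =>
    obtain ⟨Z, rfl⟩ := hx
    exact comp_mem _ _ _ (mul_left_poly Z) _ F.2.1
  | zero => exact Subalgebra.zero_mem _
  | add x y _ _ hx hy => exact Subalgebra.add_mem _ hx hy
  | smul a x _ hx => exact Subalgebra.smul_mem _ hx a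

/-- `nab λ` as a representation -/
noncomputable def nab (c : Fin m → ℕ) (K : Type) [Field K] [Infinite K] (lam : Fin m → ℕ) :
    PRep c K where
  V := nabS c K lam
  ρ := { toFun := rtr c K lam
         map_one' := by ext F Z; simp [rtr]
         map_mul' := fun g h => by ext F Z; simp [rtr, mul_assoc] }
  poly F φ := rtr_poly c lam F φ

theorem nab_apply [Infinite K] (c : Fin m → ℕ) (lam : Fin m → ℕ) (g : Blk c K)
    (F : nabS c K lam) (Z : Blk c K) :
    ((nab c K lam).ρ g F : nabS c K lam).1 Z = F.1 (Z * g) := rfl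

/-- an invariant weight vector of `nab λ` is determined by its value at `1` -/
theorem nab_hs_eq_zero [Infinite K] (c : Fin m → ℕ) (lam κ : Fin m → ℕ) (F : nabS c K lam)
    (hF : F ∈ (nab c K lam).hs κ) (h1 : F.1 1 = 0) : F = 0 := by
  refine Subtype.ext (funext fun Z => ?_)
  refine blk_dense c F.1 F.2.1 (fun u g t hu hg => ?_) Z
  have h2 : F.1 (u * dg c t * g) = F.1 (u * dg c t) := by
    rw [← nab_apply c lam g F (u * dg c t), hF.2 g hg]
  rw [h2, F.2.2.1 u _ hu]
  have h3 := F.2.2.2 t 1
  rw [mul_one] at h3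
  rw [h3, h1, mul_zero]

/-- PROOF.  `F ∈ hs κ`, then `F (u t g) = t^λ F(1)`, so by `blk_dense` `F` is determined by `F 1`. -/
theorem nab_hs_le [Infinite K] (c : Fin m → ℕ) (lam κ : Fin m → ℕ) :
    Module.finrank K ((nab c K lam).hs κ) ≤ 1 := by
  let e : (nab c K lam).hs κ →ₗ[K] K :=
    { toFun := fun F => ((F : (nab c K lam).V) : nabS c K lam).1 1
      map_add' := fun _ _ => rfl
      map_smul' := fun _ _ => rfl }
  have he : Function.Injective e := by
    rw [injective_iff_map_eq_zero]
    intro F hF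
    exact Subtype.ext (nab_hs_eq_zero c lam κ F.1 F.2 hF)
  have h := LinearMap.finrank_le_finrank_of_injective he
  rwa [Module.finrank_self] at h

/-- PROOF.  `F (dg t) = t^λ F(1)` and `= t^κ F(1)`; if `F(1) ≠ 0` then `κ = λ` (`tw_indep`); if `F 1 = 0` then `F = 0` (`blk_dense`). -/
theorem nab_hs_ne [Infinite K] (c : Fin m → ℕ) (lam κ : Fin m → ℕ) (h : κ ≠ lam) :
    (nab c K lam).hs κ = ⊥ := by
  rw [eq_bot_iff]
  intro (F : nabS c K lam) hF
  refine (Submodule.mem_bot K).2 (nab_hs_eq_zero c lam κ F hF ?_)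
  have h4 : ∀ t : Fin m → K, ∑ μ ∈ ({lam, κ} : Finset (Fin m → ℕ)),
      tw t μ • (if μ = lam then F.1 1 else -F.1 1) = 0 := by
    intro t
    rw [Finset.sum_pair (Ne.symm h), if_pos rfl, if_neg h]
    have h5 := F.2.2.2 t 1
    rw [mul_one] at h5
    have h6 : F.1 (1 * dg c t) = tw t κ * F.1 1 := by
      rw [← nab_apply c lam (dg c t) F 1, hF.1 t]
      rfl
    rw [one_mul] at h6
    rw [smul_eq_mul, smul_eq_mul, mul_neg, ← h5, ← h6, add_neg_cancel]
  have h7 := tw_indep ({lam, κ} : Finset (Fin m → ℕ)) _ h4 lam (by simp)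
  rwa [if_pos rfl] at h7

end Pool.PI34.A5

end

/-! ### part A5_Alt -/
section

/-! PI34, block A5, file Alt: alternating forms on row vectors with values in a representation. -/

set_option autoImplicit false

namespace Pool.PI34.A5

open Finset Matrix

section lin

variable {K : Type} [Field K] {U N : Type} [AddCommGroup U] [Module K U] [FiniteDimensional K U]
  [AddCommGroup N] [Module K N] [FiniteDimensional K N]

/-- `exteriorPower.alternatingMapLinearEquiv` -/
instance alt_fd (a : ℕ) : FiniteDimensional K (U [⋀^Fin a]→ₗ[K] N) :=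
  Module.Finite.equiv
    (exteriorPower.alternatingMapLinearEquiv (R := K) (n := a) (M := U) (N := N)).symm

/-- `exteriorPower.alternatingMapLinearEquiv`, `exteriorPower.finrank_eq`, `Module.finrank_linearMap` -/
theorem finrank_alt (a : ℕ) : Module.finrank K (U [⋀^Fin a]→ₗ[K] N) =
    (Module.finrank K U).choose a * Module.finrank K N := by
  rw [(exteriorPower.alternatingMapLinearEquiv (R := K) (n := a) (M := U) (N := N)).finrank_eq,
    Module.finrank_linearMap, exteriorPower.finrank_eq]

end lin

variable {m : ℕ} {c : Fin m → ℕ} {K : Type} [Field K]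

/-- `(g ω)(v) = ρ(g) ω(v τ(g))` -/
noncomputable def altAct (M : PRep c K) {J : Type} [Fintype J] [DecidableEq J]
    (τ : Blk c K →* Matrix J J K) (a : ℕ) (g : Blk c K) :
    ((J → K) [⋀^Fin a]→ₗ[K] M.V) →ₗ[K] ((J → K) [⋀^Fin a]→ₗ[K] M.V) where
  toFun ω := (M.ρ g).compAlternatingMap (ω.compLinearMap (Matrix.vecMulLinear (τ g)))
  map_add' ω η := by ext v; simp
  map_smul' r ω := by ext v; simp

theorem altAct_apply (M : PRep c K) {J : Type} [Fintype J] [DecidableEq J]
    (τ : Blk c K →* Matrix J J K) (a : ℕ) (g : Blk c K) (ω : (J → K) [⋀^Fin a]→ₗ[K] M.V)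
    (v : Fin a → J → K) : altAct M τ a g ω v = M.ρ g (ω fun q => v q ᵥ* τ g) := rfl

private theorem alt_expand {N : Type} [AddCommGroup N] [Module K N] {J : Type} [Fintype J]
    [DecidableEq J] {a : ℕ} (ω : (J → K) [⋀^Fin a]→ₗ[K] N) (u : Fin a → J → K) :
    ω u = ∑ r : Fin a → J, (∏ q, u q (r q)) • ω fun q => Pi.single (r q) 1 := by
  have e : u = fun q => ∑ j : J, u q j • (Pi.single j (1 : K) : J → K) := by
    funext q
    exact pi_eq_sum_univ' (u q)
  have h1 : ω u = ω.toMultilinearMap fun q => ∑ j : J, u q j • (Pi.single j (1 : K) : J → K) := by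
    rw [← e]
    rfl
  rw [h1, MultilinearMap.map_sum]
  refine Finset.sum_congr rfl fun r _ => ?_
  rw [MultilinearMap.map_smul_univ]
  rfl

/-- PROOF.  The functionals `ω ↦ ψ (ω v)` span the dual (`dual_span_of_sep`), so it is enough that `g ↦ ψ(ρ(g) ω(v τ(g)))` is polynomial; expand
`v_q τ(g) = ∑_j (v_q τ(g))_j e_j` by multilinearity. -/
theorem altAct_poly (M : PRep c K) {J : Type} [Fintype J] [DecidableEq J]
    (τ : Blk c K →* Matrix J J K) (hτ : ∀ i j, (fun Z => τ Z i j) ∈ PolyFn (crd c K)) (a : ℕ)
    (ω : (J → K) [⋀^Fin a]→ₗ[K] M.V) (φ : Module.Dual K ((J → K) [⋀^Fin a]→ₗ[K] M.V)) :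
    (fun g => φ (altAct M τ a g ω)) ∈ PolyFn (crd c K) := by
  have hspan := dual_span_of_sep (K := K) (V := (J → K) [⋀^Fin a]→ₗ[K] M.V)
    (ι := (Fin a → J → K) × Module.Dual K M.V)
    (fun p => { toFun := fun η => p.2 (η p.1)
                map_add' := fun η θ => by simp
                map_smul' := fun r η => by simp }) (by
      intro η hη
      ext v
      refine (Module.forall_dual_apply_eq_zero_iff K (η v)).1 fun ψ => ?_
      exact hη (v, ψ))
  have hφ : φ ∈ Submodule.span K (Set.range fun p : (Fin a → J → K) × Module.Dual K M.V =>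
      ({ toFun := fun η => p.2 (η p.1)
         map_add' := fun η θ => by simp
         map_smul' := fun r η => by simp } : Module.Dual K ((J → K) [⋀^Fin a]→ₗ[K] M.V))) := by
    rw [hspan]
    exact Submodule.mem_top
  refine Submodule.span_induction (p := fun φ _ =>
    (fun g => φ (altAct M τ a g ω)) ∈ PolyFn (crd c K)) ?_ ?_ ?_ ?_ hφ
  · rintro _ ⟨⟨v, ψ⟩, rfl⟩
    have e : (fun g : Blk c K => ψ (altAct M τ a g ω v)) =
        ∑ r : Fin a → J, (∏ q, fun g => ∑ i, v q i * τ g i (r q)) *
          fun g => ψ (M.ρ g (ω fun q => Pi.single (r q) 1)) := by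
      funext g
      rw [altAct_apply, alt_expand ω, map_sum, map_sum, Finset.sum_apply]
      refine Finset.sum_congr rfl fun r _ => ?_
      rw [map_smul, map_smul, smul_eq_mul, Pi.mul_apply, Finset.prod_apply]
      rfl
    change (fun g : Blk c K => ψ (altAct M τ a g ω v)) ∈ PolyFn (crd c K)
    rw [e]
    refine Subalgebra.sum_mem _ fun r _ => Subalgebra.mul_mem _ ?_ (M.poly _ ψ)
    refine Subalgebra.prod_mem _ fun q _ => ?_
    have e2 : (fun g : Blk c K => ∑ i, v q i * τ g i (r q)) =
        ∑ i, (fun _ => v q i) * fun g => τ g i (r q) := by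
      funext g
      rw [Finset.sum_apply]
      rfl
    rw [e2]
    exact Subalgebra.sum_mem _ fun i _ => Subalgebra.mul_mem _ (const_mem _ _) (hτ i (r q))
  · exact Subalgebra.zero_mem _
  · intro φ ψ _ _ h1 h2
    exact Subalgebra.add_mem _ h1 h2
  · intro r φ _ h
    exact Subalgebra.smul_mem _ h r

/-- alternating forms as a representation -/
noncomputable def altR (M : PRep c K) {J : Type} [Fintype J] [DecidableEq J]
    (τ : Blk c K →* Matrix J J K) (hτ : ∀ i j, (fun Z => τ Z i j) ∈ PolyFn (crd c K)) (a : ℕ) :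
    PRep c K where
  V := (J → K) [⋀^Fin a]→ₗ[K] M.V
  ρ := { toFun := altAct M τ a
         map_one' := by ext ω v; simp [altAct_apply]
         map_mul' := fun g h => by
          ext ω v
          simp [altAct_apply, Matrix.vecMul_vecMul] }
  poly ω φ := altAct_poly M τ hτ a ω φ

variable (c K) in
/-- the inclusion of the block matrices -/
def incl : Blk c K →* Matrix (Fin m) (Fin m) K := (Blk c K).subtype

theorem incl_poly (i j : Fin m) : (fun Z => incl c K Z i j) ∈ PolyFn (crd c K) :=
  coord_mem (crd c K) (i, j)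

/-- exterior powers for the natural representation -/
noncomputable abbrev altI (M : PRep c K) (a : ℕ) : PRep c K := altR M (incl c K) incl_poly a

end Pool.PI34.A5

end
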