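import Pool.Agent.LibPI54.M12
import Pool.Agent.LibPI54.M14
import Pool.Agent.LibPI54.M15

/-! ### part A5_N2 -/
section

/-! PI34, block A5, file N2: vanishing of `Dt` for the non dominant `μ + 1_S`. -/

set_option autoImplicit false

namespace Pool.PI34.A5

open Finset Matrix

variable {m : ℕ}

/-- PROOF.  There are `i < j` with `c i = c j`, `μ i + 1_S i > μ j + 1_S j`; as `μ i ≤ μ j` we get `μ i = μ j`, `i ∈ S`, `j ∉ S`.
Choose such a pair with `j - i` minimal.  Then no index `l` of the same color lies between `i` and `j` (for `l` in between,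
minimality gives `(μ+1_S) i ≤ (μ+1_S) l ≤ (μ+1_S) j`), so `pos c j = pos c i + 1` and
the rows `i`, `j` of `Dtm` are equal: `μ i + 1 + pos c i = μ j + 0 + pos c j`.  `Matrix.det_zero_of_row_eq`. -/
theorem Dt_nondom (c mu : Fin m → ℕ) (S : Finset (Fin m)) (h : Dom c mu)
    (hn : ¬ Dom c (fun i => mu i + ind S i)) : Dt c (fun i => mu i + ind S i) = 0 := by
  classical
  have hex : ∃ d : ℕ, ∃ i j : Fin m, i < j ∧ c i = c j ∧ mu j + ind S j < mu i + ind S i ∧
      (j : ℕ) - (i : ℕ) = d := by
    unfold Dom at hn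
    push Not at hn
    obtain ⟨i, j, hij, hc, hlt⟩ := hn
    exact ⟨_, i, j, hij, hc, hlt, rfl⟩
  obtain ⟨i, j, hij, hc, hlt, hd⟩ := Nat.find_spec hex
  have hmin : ∀ a b : Fin m, a < b → c a = c b → (b : ℕ) - (a : ℕ) < (j : ℕ) - (i : ℕ) →
      mu a + ind S a ≤ mu b + ind S b := by
    intro a b hab hcab hd'
    by_contra hcon
    rw [hd] at hd'
    exact Nat.find_min hex hd' ⟨a, b, hab, hcab, not_le.1 hcon, rfl⟩
  have hij' : (i : ℕ) < j := hij
  have hbet : ∀ l : Fin m, c l = c i → i < l → l < j → False := by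
    intro l hl h1 h2
    have h1' : (i : ℕ) < l := h1
    have h2' : (l : ℕ) < j := h2
    have e1 := hmin i l h1 hl.symm (by omega)
    have e2 := hmin l j h2 (hl.trans hc) (by omega)
    omega
  have hpos : pos c j = pos c i + 1 := by
    have e : (univ.filter fun l : Fin m => l < j ∧ c l = c j) =
        insert i (univ.filter fun l : Fin m => l < i ∧ c l = c i) := by
      ext l
      simp only [mem_filter, mem_univ, true_and, mem_insert]
      constructor
      · rintro ⟨h1, h2⟩
        rcases lt_trichotomy l i with h3 | h3 | h3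
        · exact Or.inr ⟨h3, h2.trans hc.symm⟩
        · exact Or.inl h3
        · exact (hbet l (h2.trans hc.symm) h3 h1).elim
      · rintro (h1 | ⟨h1, h2⟩)
        · rw [h1]
          exact ⟨hij, hc⟩
        · exact ⟨h1.trans hij, h2.trans hc⟩
    unfold pos
    rw [e, card_insert_of_notMem]
    simp
  have hmu := h i j hij hc
  have hrow : mu i + ind S i + pos c i = mu j + ind S j + pos c j := by
    rw [hpos]
    unfold ind at hlt ⊢
    split_ifs at hlt ⊢ <;> omega
  refine Matrix.det_zero_of_row_eq (ne_of_lt hij) ?_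
  funext l
  simp only [Dtm, Matrix.of_apply]
  rw [hrow, hc]

end Pool.PI34.A5

end

/-! ### part A5_N1 -/
section

/-! PI34, block A5, file N1: Pieri identity for `Dt`. -/

set_option autoImplicit false

namespace Pool.PI34.A5

open Finset Matrix

variable {m : ℕ}

private lemma pos_lt (c : Fin m → ℕ) {j k : Fin m} (h : j < k) (hc : c j = c k) :
    pos c j < pos c k := by
  unfold pos
  refine card_lt_card ?_
  rw [ssubset_iff_of_subset]
  · exact ⟨j, by simp [h, hc], by simp⟩
  · intro x hx
    rw [mem_filter] at hx ⊢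
    exact ⟨mem_univ _, hx.2.1.trans h, hx.2.2.trans hc⟩

private lemma pos_inj (c : Fin m → ℕ) {j k : Fin m} (hc : c j = c k) (h : pos c j = pos c k) :
    j = k := by
  rcases lt_trichotomy j k with h1 | h1 | h1
  · exact absurd h (pos_lt c h1 hc).ne
  · exact h1
  · exact absurd h (pos_lt c h1 hc.symm).ne'

private lemma lt_of_pos (c : Fin m → ℕ) {j k : Fin m} (hc : c j = c k) (h : pos c j < pos c k) :
    j < k := by
  by_contra h1
  rcases (not_lt.1 h1).lt_or_eq with h2 | h2
  · exact absurd (pos_lt c h2 hc.symm) (by omega)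
  · subst h2; omega

private lemma exists_pred (c : Fin m → ℕ) {k : Fin m} (h : 0 < pos c k) :
    ∃ j, c j = c k ∧ pos c j + 1 = pos c k := by
  unfold pos at h
  obtain ⟨j, hj, hmax⟩ := exists_max_image _ (fun x : Fin m => x) (card_pos.1 h)
  rw [mem_filter] at hj
  refine ⟨j, hj.2.2, ?_⟩
  unfold pos
  have e : (univ.filter fun x : Fin m => x < k ∧ c x = c k) =
      insert j (univ.filter fun x : Fin m => x < j ∧ c x = c j) := by
    ext x
    rw [mem_insert, mem_filter, mem_filter]
    constructor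
    · rintro ⟨_, h1, h2⟩
      have h3 := hmax x (by rw [mem_filter]; exact ⟨mem_univ _, h1, h2⟩)
      rcases h3.lt_or_eq with h4 | h4
      · exact Or.inr ⟨mem_univ _, h4, h2.trans hj.2.2.symm⟩
      · exact Or.inl h4
    · rintro (rfl | ⟨_, h1, h2⟩)
      · exact ⟨mem_univ _, hj.2.1, hj.2.2⟩
      · exact ⟨mem_univ _, h1.trans hj.2.1, h2.trans hj.2.2⟩
  rw [e, card_insert_of_notMem (by simp)]

/-- the shift matrix -/
private def shm (c : Fin m → ℕ) : Matrix (Fin m) (Fin m) ℤ :=
  Matrix.of fun j k => if c j = c k ∧ pos c j + 1 = pos c k then 1 else 0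

private lemma row_shift (c lam : Fin m → ℕ) (i k : Fin m) :
    (Dtm c lam * (1 + shm c)) i k = Dtm c (fun i => lam i + 1) i k := by
  rw [Matrix.mul_add, Matrix.mul_one, Matrix.add_apply, Matrix.mul_apply]
  by_cases hc : c i = c k
  · by_cases hk : pos c k = 0
    · rw [sum_eq_zero]
      · simp [Dtm, hc, hk]
      · intro j _
        simp [shm, hk]
    · obtain ⟨j, hj1, hj2⟩ := exists_pred c (Nat.pos_of_ne_zero hk)
      rw [sum_eq_single j]
      · obtain ⟨q, hq⟩ : ∃ q, pos c k = q + 1 := ⟨pos c j, hj2.symm⟩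
        have hq' : pos c j = q := by omega
        have hij : c i = c j := hc.trans hj1.symm
        simp only [Dtm, shm, Matrix.of_apply, if_pos hc, hj1, hj2, and_self, if_true,
          mul_one]
        rw [hq, hq', show lam i + 1 + pos c i = (lam i + pos c i) + 1 by ring,
          Nat.choose_succ_succ]
        push_cast
        ring
      · intro b _ hb
        by_cases h : c b = c k ∧ pos c b + 1 = pos c k
        · exact absurd (pos_inj c (h.1.trans hj1.symm) (by omega)) hb
        · simp [shm, h]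
      · simp
  · rw [sum_eq_zero]
    · simp [Dtm, hc]
    · intro j _
      by_cases h : c i = c j
      · have h2 : ¬ (c j = c k ∧ pos c j + 1 = pos c k) := fun h3 => hc (h.trans h3.1)
        simp [shm, h2]
      · simp [Dtm, h]

private lemma det_shift (c : Fin m → ℕ) :
    ((1 : Matrix (Fin m) (Fin m) (Polynomial ℤ)) +
      (Polynomial.X : Polynomial ℤ) • ((1 + shm c).map Polynomial.C)).det =
        (1 + Polynomial.X) ^ m := by
  rw [Matrix.det_of_isUpperTriangular]
  · rw [prod_congr rfl (g := fun _ => (1 + Polynomial.X : Polynomial ℤ))]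
    · simp
    · intro i _
      simp [shm]
  · intro i j h
    have h' : j < i := h
    have h2 : ¬ (c i = c j ∧ pos c i + 1 = pos c j) := fun h3 =>
      absurd (lt_of_pos c h3.1 (by omega)) (not_lt.2 h'.le)
    simp [shm, h2, Matrix.one_apply_ne h'.ne']

/-- PROOF.  `Dt c (λ + 1_S)`: row `i ∈ S` is `R_i (1 + Z)` where `R_i` is the row of `Dtm c λ` and
`Z j j' = 1` if `c j = c j'` and `pos c j' = pos c j + 1`, else `0` (Pascal: `C(x+1, q+1) = C(x, q+1) + C(x, q)`, `C(x+1,0) = C(x,0)`;
for `q = pos c j' ≥ 1` there is exactly one `j` of the same color with `pos c j = q - 1`).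
Hence `∑_S X^|S| Dt c (λ+1_S) = det (Dtm c λ * (1 + X (1 + Z)))` in `ℤ[X]` (multilinearity of the determinant in the rows:
row `i` = `R_i + X R_i (1 + Z)`) `= Dt c λ * (1 + X)^m` since `1 + X(1 + Z)` is upper triangular with diagonal `1 + X`
(`pos c j' = pos c j + 1` and same color imply `j < j'`).  Compare the coefficients of `X^a`.
(Alternatively: induct, or use `Matrix.detRowAlternating.map_add_univ`-type expansion.) -/
theorem Dt_pieri (c lam : Fin m → ℕ) (a : ℕ) :
    ∑ S ∈ powersetCard a (univ : Finset (Fin m)), Dt c (fun i => lam i + ind S i) =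
      (m.choose a : ℤ) * Dt c lam := by
  have key : ∑ S : Finset (Fin m), (Polynomial.X : Polynomial ℤ) ^ S.card *
      Polynomial.C (Dt c (fun i => lam i + ind S i)) =
        Polynomial.C (Dt c lam) * (1 + Polynomial.X) ^ m := by
    have e1 : ((Dtm c lam).map Polynomial.C * ((1 : Matrix (Fin m) (Fin m) (Polynomial ℤ)) +
      (Polynomial.X : Polynomial ℤ) • ((1 + shm c).map Polynomial.C))).det =
        Polynomial.C (Dt c lam) * (1 + Polynomial.X) ^ m := by
      rw [Matrix.det_mul, det_shift, Dt, RingHom.map_det]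
      rfl
    have e2 : ((Dtm c lam).map Polynomial.C * ((1 : Matrix (Fin m) (Fin m) (Polynomial ℤ)) +
      (Polynomial.X : Polynomial ℤ) • ((1 + shm c).map Polynomial.C))) =
        (Polynomial.X : Polynomial ℤ) • ((Dtm c (fun i => lam i + 1)).map Polynomial.C) +
          (Dtm c lam).map Polynomial.C := by
      rw [Matrix.mul_add, Matrix.mul_one, add_comm, Matrix.mul_smul, ← Matrix.map_mul]
      congr 1
      ext1 i
      intro k
      rw [Matrix.smul_apply, Matrix.map_apply, row_shift, Matrix.smul_apply, Matrix.map_apply]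
    rw [← e1, e2]
    have e3 := MultilinearMap.map_add_univ
      (Matrix.detRowAlternating (R := Polynomial ℤ) (n := Fin m)).toMultilinearMap
      (fun i => (Polynomial.X : Polynomial ℤ) •
          ((Dtm c (fun i => lam i + 1)).map Polynomial.C) i) ((Dtm c lam).map Polynomial.C)
    refine Eq.trans ?_ e3.symm
    refine sum_congr rfl fun S _ => ?_
    have e4 : (S.piecewise (fun i => (Polynomial.X : Polynomial ℤ) •
          ((Dtm c (fun i => lam i + 1)).map Polynomial.C) i) ((Dtm c lam).map Polynomial.C)) =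
        fun i => (if i ∈ S then (Polynomial.X : Polynomial ℤ) else 1) •
          ((Dtm c (fun i => lam i + ind S i)).map Polynomial.C) i := by
      funext i
      by_cases h : i ∈ S
      · rw [piecewise_eq_of_mem _ _ _ h, if_pos h]
        congr 1
        funext k
        simp [Dtm, ind, h]
      · rw [piecewise_eq_of_notMem _ _ _ h, if_neg h, one_smul]
        funext k
        simp [Dtm, ind, h]
    rw [e4, MultilinearMap.map_smul_univ, prod_ite_mem, univ_inter, prod_const, Dt,
      RingHom.map_det]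
    rfl
  have h := congrArg (fun p => Polynomial.coeff p a) key
  simp only [Polynomial.finsetSum_coeff, Polynomial.coeff_C_mul, Polynomial.coeff_one_add_X_pow]
    at h
  rw [mul_comm, ← h, powersetCard_eq_filter, sum_filter, powerset_univ]
  refine sum_congr rfl fun S _ => ?_
  rw [Polynomial.coeff_mul_C, Polynomial.coeff_X_pow]
  by_cases h : S.card = a
  · rw [if_pos h, if_pos h.symm, one_mul]
  · rw [if_neg h, if_neg (fun h' => h h'.symm), zero_mul]

end Pool.PI34.A5

end

/-! ### part A5_Al2 -/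
section

/-! PI34, block A5, file Al2: weights and invariants of the exterior powers. -/

set_option autoImplicit false

namespace Pool.PI34.A5

open Finset Matrix

/-- the steps of the filtration -/
def filtG {K H N ι : Type} [Field K] [AddCommGroup H] [Module K H]
    [AddCommGroup N] [Module K N] (w : ι → ℕ) (f : ι → H →ₗ[K] N) (n : ℕ) : Submodule K H where
  carrier := {ω | ∀ i, w i < n → f i ω = 0}
  zero_mem' := fun i _ => map_zero _
  add_mem' := fun {x y} hx hy i hi => by rw [map_add, hx i hi, hy i hi, add_zero]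
  smul_mem' := fun r x hx i hi => by rw [map_smul, hx i hi, smul_zero]

theorem filtG_step {K H N ι : Type} [Field K] [AddCommGroup H] [Module K H]
    [FiniteDimensional K H] [AddCommGroup N] [Module K N] [FiniteDimensional K N]
    (w : ι → ℕ) (hw : Function.Injective w) (f : ι → H →ₗ[K] N) (P : ι → Submodule K N)
    (h1 : ∀ i ω, (∀ j, w j < w i → f j ω = 0) → f i ω ∈ P i) (i : ι) :
    Module.finrank K (filtG w f (w i)) ≤ Module.finrank K (filtG w f (w i + 1)) +
      Module.finrank K (P i) := by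
  have h3 := LinearMap.finrank_range_add_finrank_ker ((f i).domRestrict (filtG w f (w i)))
  have h4 : Module.finrank K (LinearMap.range ((f i).domRestrict (filtG w f (w i)))) ≤
      Module.finrank K (P i) := by
    refine Submodule.finrank_mono ?_
    rintro _ ⟨ω, rfl⟩
    exact h1 i ω.1 ω.2
  have h5 : Module.finrank K (LinearMap.ker ((f i).domRestrict (filtG w f (w i)))) ≤
      Module.finrank K (filtG w f (w i + 1)) := by
    have h6 : (LinearMap.ker ((f i).domRestrict (filtG w f (w i)))).map
        (filtG w f (w i)).subtype ≤ filtG w f (w i + 1) := by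
      rintro _ ⟨x, hx, rfl⟩ j hj
      rcases Nat.lt_succ_iff_lt_or_eq.1 hj with h | h
      · exact x.2 j h
      · rw [hw h]
        exact LinearMap.mem_ker.1 hx
    have h7 := Submodule.finrank_mono h6
    rwa [Submodule.finrank_map_subtype_eq] at h7
  omega

/-- abstract filtration bound.  PROOF.  For `n : ℕ` let `H_n = {ω | ∀ i, w i < n → f i ω = 0}`; `H_0 = ⊤`, `H_n = ⊥` for large `n`;
`finrank H_n ≤ finrank H_(n+1) + ∑_(w i = n) finrank (P i)` (at most one `i`). -/
theorem filt_bound {K H N ι : Type} [Field K] [AddCommGroup H] [Module K H]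
    [FiniteDimensional K H] [AddCommGroup N] [Module K N] [FiniteDimensional K N] [Fintype ι]
    (w : ι → ℕ) (hw : Function.Injective w) (f : ι → H →ₗ[K] N) (P : ι → Submodule K N)
    (h1 : ∀ i ω, (∀ j, w j < w i → f j ω = 0) → f i ω ∈ P i)
    (h2 : ∀ ω, (∀ i, f i ω = 0) → ω = 0) :
    Module.finrank K H ≤ ∑ i, Module.finrank K (P i) := by
  classical
  have key : ∀ n, Module.finrank K H ≤ Module.finrank K (filtG w f n) +
      ∑ i ∈ univ.filter (fun i => w i < n), Module.finrank K (P i) := by
    intro n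
    induction n with
    | zero =>
      have e : filtG w f 0 = ⊤ := by
        rw [eq_top_iff]
        intro ω _ i hi
        exact absurd hi (Nat.not_lt_zero _)
      rw [e, finrank_top]
      exact Nat.le_add_right _ _
    | succ n ih =>
      by_cases hn : ∃ i, w i = n
      · obtain ⟨i, rfl⟩ := hn
        have e : univ.filter (fun j => w j < w i + 1) =
            insert i (univ.filter (fun j => w j < w i)) := by
          ext j
          simp only [mem_filter, mem_univ, true_and, mem_insert]
          constructor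
          · intro h
            rcases Nat.lt_succ_iff_lt_or_eq.1 h with h | h
            · exact Or.inr h
            · exact Or.inl (hw h)
          · rintro (rfl | h)
            · omega
            · omega
        rw [e, sum_insert (by simp)]
        have h3 := filtG_step w hw f P h1 i
        omega
      · have e : univ.filter (fun j => w j < n + 1) = univ.filter (fun j => w j < n) := by
          ext j
          simp only [mem_filter, mem_univ, true_and]
          constructor
          · intro h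
            rcases Nat.lt_succ_iff_lt_or_eq.1 h with h | h
            · exact h
            · exact absurd ⟨j, h⟩ hn
          · intro h
            omega
        have e2 : filtG w f (n + 1) = filtG w f n := by
          ext ω
          constructor
          · intro h j hj
            exact h j (by omega)
          · intro h j hj
            rcases Nat.lt_succ_iff_lt_or_eq.1 hj with h' | h'
            · exact h j h'
            · exact absurd ⟨j, h'⟩ hn
        rw [e, e2]
        exact ih
  obtain ⟨n, hn⟩ : ∃ n, ∀ i, w i < n := by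
    refine ⟨(∑ i, w i) + 1, fun i => ?_⟩
    have := single_le_sum (f := w) (fun i _ => Nat.zero_le _) (mem_univ i)
    omega
  have h3 := key n
  have e : filtG w f n = ⊥ := by
    rw [eq_bot_iff]
    intro ω hω
    exact (Submodule.mem_bot K).2 (h2 ω fun i => hω i (hn i))
  have e2 : univ.filter (fun i => w i < n) = univ := by
    ext j
    simp [hn j]
  rw [e, e2, finrank_bot, zero_add] at h3
  exact h3

variable {m : ℕ} {c : Fin m → ℕ} {K : Type} [Field K]

/-- the basis tuple of a subset `S` of cardinality `a` -/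
noncomputable def eS (K : Type) [Field K] {a : ℕ} (S : Finset (Fin m)) (hS : S.card = a) :
    Fin a → Fin m → K := fun q => Pi.single (S.orderEmbOfFin hS q) 1

/-- every injective tuple is a permutation of an increasing one -/
theorem exists_perm {a : ℕ} (r : Fin a → Fin m) (hr : Function.Injective r) :
    ∃ (hS : (univ.image r).card = a) (σ : Equiv.Perm (Fin a)),
      ∀ q, r q = (univ.image r).orderEmbOfFin hS (σ q) := by
  classical
  have hS : (univ.image r).card = a := by
    rw [card_image_of_injective _ hr, card_univ, Fintype.card_fin]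
  refine ⟨hS, ?_⟩
  let E : Fin a ≃ (univ.image r : Finset (Fin m)) := Equiv.ofBijective
    (fun q => ⟨r q, mem_image_of_mem r (mem_univ q)⟩)
    ⟨fun x y h => hr (congrArg Subtype.val h), fun y => by
      obtain ⟨x, _, hx⟩ := mem_image.1 y.2
      exact ⟨x, Subtype.ext hx⟩⟩
  refine ⟨E.trans ((univ.image r).orderIsoOfFin hS).symm.toEquiv, fun q => ?_⟩
  rw [← coe_orderIsoOfFin_apply]
  have e : (univ.image r).orderIsoOfFin hS
      ((E.trans ((univ.image r).orderIsoOfFin hS).symm.toEquiv) q) = E q :=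
    ((univ.image r).orderIsoOfFin hS).apply_symm_apply (E q)
  rw [e]
  rfl

theorem zero_of_eS {N : Type} [AddCommGroup N] [Module K N] {a : ℕ}
    (ω : (Fin m → K) [⋀^Fin a]→ₗ[K] N) (r : Fin a → Fin m) (hr : Function.Injective r)
    (h : ∀ hS : (univ.image r).card = a, ω (eS K (univ.image r) hS) = 0) :
    ω (fun q => Pi.single (r q) 1) = 0 := by
  obtain ⟨hS, σ, hσ⟩ := exists_perm r hr
  have e : (fun q => (Pi.single (r q) 1 : Fin m → K)) =
      fun q => eS K (univ.image r) hS (σ q) := by
    funext q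
    rw [hσ q]
    rfl
  rw [e]
  have := ω.map_perm (eS K (univ.image r) hS) σ
  rw [h hS, smul_zero] at this
  exact this

/-- an alternating form is determined by the values on the `eS S` (`Module.Basis.ext_alternating`; every injective tuple is a
permutation of an increasing one) -/
theorem alt_ext {N : Type} [AddCommGroup N] [Module K N] {a : ℕ}
    (ω : (Fin m → K) [⋀^Fin a]→ₗ[K] N) (h : ∀ (S : Finset (Fin m)) (hS : S.card = a), ω (eS K S hS) = 0) : ω = 0 := by
  refine Module.Basis.ext_alternating (Pi.basisFun K (Fin m)) fun v hv => ?_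
  simp only [Pi.basisFun_apply, AlternatingMap.zero_apply]
  exact zero_of_eS ω v hv fun hS => h _ hS

/-- expansion of `ω(e_S g)` -/
theorem alt_expand {N : Type} [AddCommGroup N] [Module K N] {a : ℕ}
    (ω : (Fin m → K) [⋀^Fin a]→ₗ[K] N) (s : Fin a → Fin m) (g : Matrix (Fin m) (Fin m) K) :
    ω (fun q => (Pi.single (s q) 1 : Fin m → K) ᵥ* g) =
      ∑ r : Fin a → Fin m, (∏ q, g (s q) (r q)) • ω (fun q => Pi.single (r q) 1) := by
  classical
  have e : (fun q => (Pi.single (s q) 1 : Fin m → K) ᵥ* g) =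
      fun q => ∑ j, g (s q) j • (Pi.single j 1 : Fin m → K) := by
    funext q
    ext l
    rw [Matrix.single_one_vecMul, Finset.sum_apply]
    simp [Pi.single_apply]
  rw [e]
  have h := ω.toMultilinearMap.map_sum (fun q j => g (s q) j • (Pi.single j 1 : Fin m → K))
  refine h.trans (sum_congr rfl fun r _ => ?_)
  exact ω.toMultilinearMap.map_smul_univ (fun q => g (s q) (r q)) _

theorem image_eS {a : ℕ} (S : Finset (Fin m)) (hS : S.card = a) (F : Fin m → ℕ) :
    ∑ i ∈ S, F i = ∑ q : Fin a, F (S.orderEmbOfFin hS q) := by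
  rw [← sum_coe_sort S F]
  exact (Fintype.sum_equiv (S.orderIsoOfFin hS).toEquiv _ _ fun q => rfl).symm

theorem prod_eS {a : ℕ} (S : Finset (Fin m)) (hS : S.card = a) (F : Fin m → K) :
    ∏ i ∈ S, F i = ∏ q : Fin a, F (S.orderEmbOfFin hS q) := by
  rw [← prod_coe_sort S F]
  exact (Fintype.prod_equiv (S.orderIsoOfFin hS).toEquiv _ _ fun q => rfl).symm

theorem tw_ind (t : Fin m → K) (S : Finset (Fin m)) : tw t (ind S) = ∏ i ∈ S, t i := by
  classical
  unfold tw ind
  rw [← prod_subset (subset_univ S) (f := fun i => t i ^ (if i ∈ S then 1 else 0))]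
  · refine prod_congr rfl fun i hi => ?_
    rw [if_pos hi, pow_one]
  · intro i _ hi
    rw [if_neg hi, pow_zero]

theorem tw_ind_mul (t : Fin m → K) (κ : Fin m → ℕ) (S : Finset (Fin m)) (h : ∀ i, ind S i ≤ κ i) :
    tw t κ = (∏ i ∈ S, t i) * tw t (fun i => κ i - ind S i) := by
  rw [← tw_ind]
  unfold tw
  rw [← prod_mul_distrib]
  refine prod_congr rfl fun i _ => ?_
  rw [← pow_add, Nat.add_sub_cancel' (h i)]

theorem lead_lo (M : PRep c K) (a : ℕ) (κ : Fin m → ℕ)
    (ω : (Fin m → K) [⋀^Fin a]→ₗ[K] M.V) (hω : ω ∈ (altI M a).hs κ) (S : Finset (Fin m))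
    (hS : S.card = a)
    (h0 : ∀ (S' : Finset (Fin m)) (hS' : S'.card = a),
      ∑ i ∈ S', 2 ^ (i : ℕ) < ∑ i ∈ S, 2 ^ (i : ℕ) →
      ω (eS K S' hS') = 0) (g : Blk c K) (hg : IsLo g) :
    M.ρ g (ω (eS K S hS)) = ω (eS K S hS) := by
  classical
  have h1 : altAct M (incl c K) a g ω = ω := hω.2 g hg
  have h2 : M.ρ g (ω fun q => eS K S hS q ᵥ* g.1) = ω (eS K S hS) :=
    congrArg (fun η : (Fin m → K) [⋀^Fin a]→ₗ[K] M.V => η (eS K S hS)) h1
  have h3 : (ω fun q => eS K S hS q ᵥ* g.1) = ω (eS K S hS) := by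
    have h4 := alt_expand ω (fun q => S.orderEmbOfFin hS q) g.1
    rw [sum_eq_single (fun q => S.orderEmbOfFin hS q)] at h4
    · rw [prod_eq_one (fun q _ => hg.1 (S.orderEmbOfFin hS q)), one_smul] at h4
      exact h4
    · intro r _ hr
      by_cases h5 : ∃ q, S.orderEmbOfFin hS q < r q
      · obtain ⟨q, hq⟩ := h5
        rw [prod_eq_zero (mem_univ q) (hg.2 _ _ hq), zero_smul]
      · have h5' : ∀ q, r q ≤ S.orderEmbOfFin hS q := fun q => not_lt.1 fun h => h5 ⟨q, h⟩
        by_cases h6 : Function.Injective r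
        · rw [zero_of_eS ω r h6, smul_zero]
          intro hS'
          refine h0 _ hS' ?_
          rw [sum_image h6.injOn, image_eS S hS]
          refine sum_lt_sum (fun q _ => Nat.pow_le_pow_right (by norm_num) (h5' q)) ?_
          obtain ⟨q, hq⟩ := Function.ne_iff.1 hr
          exact ⟨q, mem_univ q, Nat.pow_lt_pow_right (by norm_num)
            (Fin.lt_def.1 (lt_of_le_of_ne (h5' q) hq))⟩
        · have h7 : ω (fun q => (Pi.single (r q) 1 : Fin m → K)) = 0 := by
            refine ω.map_eq_zero_of_not_injective _ fun h7 => h6 fun x y hxy => h7 ?_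
            simp only [hxy]
          rw [h7, smul_zero]
    · intro h
      exact absurd (mem_univ _) h
  rw [h3] at h2
  exact h2

theorem lead_wt (M : PRep c K) (a : ℕ) (κ : Fin m → ℕ)
    (ω : (Fin m → K) [⋀^Fin a]→ₗ[K] M.V) (hω : ω ∈ (altI M a).hs κ) (S : Finset (Fin m))
    (hS : S.card = a) (t : Fin m → K) :
    (∏ i ∈ S, t i) • M.ρ (dg c t) (ω (eS K S hS)) = tw t κ • ω (eS K S hS) := by
  have h1 : altAct M (incl c K) a (dg c t) ω = tw t κ • ω := hω.1 t
  have h2 : M.ρ (dg c t) (ω fun q => eS K S hS q ᵥ* (dg c t).1) = tw t κ • ω (eS K S hS) :=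
    congrArg (fun η : (Fin m → K) [⋀^Fin a]→ₗ[K] M.V => η (eS K S hS)) h1
  have h3 : (fun q => eS K S hS q ᵥ* (dg c t).1) =
      fun q => t (S.orderEmbOfFin hS q) • eS K S hS q := by
    funext q
    ext l
    change ((Pi.single (S.orderEmbOfFin hS q) 1 : Fin m → K) ᵥ* Matrix.diagonal t) l =
      t (S.orderEmbOfFin hS q) * (Pi.single (S.orderEmbOfFin hS q) 1 : Fin m → K) l
    rw [Matrix.vecMul_diagonal]
    by_cases h : l = S.orderEmbOfFin hS q
    · rw [h, mul_comm]
    · rw [Pi.single_eq_of_ne h, zero_mul, mul_zero]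
  have h4 : (ω fun q => t (S.orderEmbOfFin hS q) • eS K S hS q) =
      (∏ q, t (S.orderEmbOfFin hS q)) • ω (eS K S hS) :=
    ω.toMultilinearMap.map_smul_univ (fun q => t (S.orderEmbOfFin hS q)) _
  rw [h3, h4, ← prod_eS, map_smul] at h2
  exact h2

/-- PROOF.  `ω` is `IsLo`-invariant and `ω (e_S') = 0` for all `S'` with `∑_(i ∈ S') 2^i < ∑_(i ∈ S) 2^i`.  For `g ∈ Lo`:
`ω(e_S) = (g ω)(e_S) = ρ(g) ω(e_S g)`, `e_i g = e_i + ∑_(j<i) g_ij e_j`; expand by multilinearity: all the terms except `ω(e_S)` are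
`± ω(e_S')` with smaller `∑ 2^i` or zero (repeated arguments), so `ω(e_S) = ρ(g) ω(e_S)`.
Weight: `t^(1_S) ρ(t) ω(e_S) = (t ω)(e_S) = t^κ ω(e_S)`.  If `ω(e_S) ≠ 0` then `1_S ≤ κ` (put `t i = 0`, the others `1`) and `ω(e_S) ∈ wt (κ - 1_S)`
(`mem_wt_of_units`). -/
theorem alt_lead [Infinite K] (M : PRep c K) (a : ℕ) (κ : Fin m → ℕ)
    (ω : (Fin m → K) [⋀^Fin a]→ₗ[K] M.V) (hω : ω ∈ (altI M a).hs κ) (S : Finset (Fin m))
    (hS : S.card = a)
    (h0 : ∀ (S' : Finset (Fin m)) (hS' : S'.card = a),
      ∑ i ∈ S', 2 ^ (i : ℕ) < ∑ i ∈ S, 2 ^ (i : ℕ) →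
      ω (eS K S' hS') = 0) :
    ω (eS K S hS) ∈ (if ∀ i, ind S i ≤ κ i then M.hs (fun i => κ i - ind S i) else ⊥) := by
  classical
  by_cases hz : ω (eS K S hS) = 0
  · rw [hz]
    exact Submodule.zero_mem _
  have hle : ∀ i, ind S i ≤ κ i := by
    intro i
    by_cases hi : i ∈ S
    · have e : ind S i = 1 := if_pos hi
      rw [e]
      by_contra hκ
      have hκ0 : κ i = 0 := by omega
      have h1 := lead_wt M a κ ω hω S hS (Function.update 1 i 0)
      rw [prod_eq_zero hi (Function.update_self i 0 1), zero_smul] at h1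
      have h2 : tw (Function.update (1 : Fin m → K) i 0) κ = 1 := by
        unfold tw
        refine prod_eq_one fun j _ => ?_
        by_cases hj : j = i
        · rw [hj, hκ0, pow_zero]
        · rw [Function.update_of_ne hj, Pi.one_apply, one_pow]
      rw [h2, one_smul] at h1
      exact hz h1.symm
    · have e : ind S i = 0 := if_neg hi
      rw [e]
      exact Nat.zero_le _
  rw [if_pos hle]
  refine ⟨mem_wt_of_units M _ _ fun t ht => ?_, fun g hg => lead_lo M a κ ω hω S hS h0 g hg⟩
  have h1 := lead_wt M a κ ω hω S hS t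
  rw [tw_ind_mul t κ S hle, mul_smul] at h1
  exact smul_right_injective _ (prod_ne_zero_iff.2 fun i _ => ht i) h1

theorem w_inj (a : ℕ) : Function.Injective
    (fun S : {S : Finset (Fin m) // S.card = a} => ∑ i ∈ S.1, 2 ^ (i : ℕ)) := by
  intro S T h
  have h1 : ∀ U : Finset (Fin m), ∑ i ∈ U, 2 ^ (i : ℕ) = ∑ k ∈ U.map Fin.valEmbedding, 2 ^ k := by
    intro U
    rw [sum_map]
    rfl
  have h2 : ∑ i ∈ S.1, 2 ^ (i : ℕ) = ∑ i ∈ T.1, 2 ^ (i : ℕ) := h
  rw [h1, h1] at h2
  exact Subtype.ext (map_injective _ (geomSum_injective le_rfl h2))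

/-- evaluation on `e_S` -/
noncomputable def evS (M : PRep c K) (a : ℕ) (κ : Fin m → ℕ)
    (S : {S : Finset (Fin m) // S.card = a}) : (altI M a).hs κ →ₗ[K] M.V where
  toFun ω := (show (Fin m → K) [⋀^Fin a]→ₗ[K] M.V from ω.1) (eS K S.1 S.2)
  map_add' _ _ := rfl
  map_smul' _ _ := rfl

/-- from `filt_bound` (`ι` = the subsets of cardinality `a`, `w S = ∑ 2^i`), `alt_lead`, `alt_ext` -/
theorem alt_hs_le [Infinite K] (M : PRep c K) (a : ℕ) (κ : Fin m → ℕ) :
    Module.finrank K ((altI M a).hs κ) ≤ ∑ S ∈ powersetCard a (univ : Finset (Fin m)),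
      if ∀ i, ind S i ≤ κ i then Module.finrank K (M.hs (fun i => κ i - ind S i)) else 0 := by
  classical
  have h := filt_bound (K := K) (H := (altI M a).hs κ) (N := M.V)
    (fun S : {S : Finset (Fin m) // S.card = a} => ∑ i ∈ S.1, 2 ^ (i : ℕ)) (w_inj a)
    (evS M a κ)
    (fun S => if ∀ i, ind S.1 i ≤ κ i then M.hs (fun i => κ i - ind S.1 i) else ⊥)
    (fun S ω hω => alt_lead M a κ ω.1 ω.2 S.1 S.2 fun S' hS' hlt => hω ⟨S', hS'⟩ hlt)
    (fun ω hω => Subtype.ext (alt_ext (K := K) ω.1 fun S hS => hω ⟨S, hS⟩))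
  refine h.trans (le_of_eq ?_)
  rw [sum_subtype (powersetCard a (univ : Finset (Fin m))) (p := fun S => S.card = a)
    (fun S => by simp [mem_powersetCard])]
  refine sum_congr rfl fun S _ => ?_
  by_cases hc : ∀ i, ind S.1 i ≤ κ i
  · rw [if_pos hc, if_pos hc]
  · rw [if_neg hc, if_neg hc]
    exact finrank_bot K M.V

end Pool.PI34.A5

end

/-! ### part A5_Mix -/
section

/-! PI34, block A5, file Mix: alternating forms on a direct sum. -/

set_option autoImplicit false

namespace Pool.PI34.A5

open Finset Matrix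

section mix

variable {K : Type} [Field K] {J1 J2 N : Type} [Fintype J1] [Fintype J2] [DecidableEq J1]
  [DecidableEq J2] [AddCommGroup N] [Module K N]

/-- `b` vectors of the first and `a - b` vectors of the second space -/
def mixv {a b : ℕ} (v : Fin b → J1 → K) (w : Fin (a - b) → J2 → K) : Fin a → (J1 ⊕ J2 → K) :=
  fun i => if h : (i : ℕ) < b then Sum.elim (v ⟨i, h⟩) 0 else
    Sum.elim 0 (w ⟨i - b, by omega⟩)

theorem mixv_update_left {a b : ℕ} (hb : b ≤ a) (v : Fin b → J1 → K) (w : Fin (a - b) → J2 → K)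
    (i : Fin b) (x : J1 → K) : mixv (Function.update v i x) w =
      Function.update (mixv v w) ⟨i, lt_of_lt_of_le i.2 hb⟩ (Sum.elim x 0) := by
  funext j
  by_cases hj : j = ⟨i, lt_of_lt_of_le i.2 hb⟩
  · subst hj
    rw [Function.update_self]
    unfold mixv
    rw [dif_pos i.2]
    simp
  · rw [Function.update_of_ne hj]
    unfold mixv
    by_cases h : (j : ℕ) < b
    · rw [dif_pos h, dif_pos h, Function.update_of_ne]
      intro h2
      apply hj
      ext
      exact congrArg (fun z : Fin b => (z : ℕ)) h2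
    · rw [dif_neg h, dif_neg h]

theorem mixv_update_right {a b : ℕ} (hb : b ≤ a) (v : Fin b → J1 → K) (w : Fin (a - b) → J2 → K)
    (i : Fin (a - b)) (x : J2 → K) : mixv v (Function.update w i x) =
      Function.update (mixv v w) ⟨b + i, by have := i.2; omega⟩ (Sum.elim (0 : J1 → K) x) := by
  funext j
  by_cases hj : j = ⟨b + i, by have := i.2; omega⟩
  · subst hj
    rw [Function.update_self]
    unfold mixv
    rw [dif_neg (by simp)]
    have e : (⟨b + (i : ℕ) - b, by have := i.2; omega⟩ : Fin (a - b)) = i := by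
      ext
      simp
    rw [e, Function.update_self]
  · rw [Function.update_of_ne hj]
    unfold mixv
    by_cases h : (j : ℕ) < b
    · rw [dif_pos h, dif_pos h]
    · rw [dif_neg h, dif_neg h, Function.update_of_ne]
      intro h2
      apply hj
      have h3 := congrArg (fun z : Fin (a - b) => (z : ℕ)) h2
      simp only at h3
      ext
      simp only
      omega

theorem mixv_left {a b : ℕ} (hb : b ≤ a) (v : Fin b → J1 → K) (w : Fin (a - b) → J2 → K)
    (i : Fin b) : mixv v w ⟨i, lt_of_lt_of_le i.2 hb⟩ = Sum.elim (v i) 0 := by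
  unfold mixv
  rw [dif_pos i.2]

theorem mixv_right {a b : ℕ} (hb : b ≤ a) (v : Fin b → J1 → K) (w : Fin (a - b) → J2 → K)
    (i : Fin (a - b)) : mixv v w ⟨b + i, by have := i.2; omega⟩ = Sum.elim (0 : J1 → K) (w i) := by
  unfold mixv
  rw [dif_neg (by simp)]
  have e : (⟨b + (i : ℕ) - b, by have := i.2; omega⟩ : Fin (a - b)) = i := by
    ext
    simp
  rw [e]

theorem elim_add_left (x y : J1 → K) :
    (Sum.elim (x + y) 0 : J1 ⊕ J2 → K) = Sum.elim x 0 + Sum.elim y 0 := by
  funext j
  cases j <;> simp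

theorem elim_add_right (x y : J2 → K) :
    (Sum.elim (0 : J1 → K) (x + y) : J1 ⊕ J2 → K) = Sum.elim (0 : J1 → K) x + Sum.elim (0 : J1 → K) y := by
  funext j
  cases j <;> simp

theorem elim_smul_left (r : K) (x : J1 → K) :
    (Sum.elim (r • x) 0 : J1 ⊕ J2 → K) = r • Sum.elim x 0 := by
  funext j
  cases j <;> simp

theorem elim_smul_right (r : K) (x : J2 → K) :
    (Sum.elim (0 : J1 → K) (r • x) : J1 ⊕ J2 → K) = r • Sum.elim (0 : J1 → K) x := by
  funext j
  cases j <;> simp

/-- the form in the second variables -/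
def innerAlt {a b : ℕ} (hb : b ≤ a) (ω : (J1 ⊕ J2 → K) [⋀^Fin a]→ₗ[K] N) (v : Fin b → J1 → K) :
    (J2 → K) [⋀^Fin (a - b)]→ₗ[K] N where
  toFun w := ω (mixv v w)
  map_update_add' := by
    intro inst w i x y
    have hi : inst = instDecidableEqFin _ := Subsingleton.elim _ _
    subst hi
    rw [mixv_update_right hb, mixv_update_right hb, mixv_update_right hb, elim_add_right,
      ω.map_update_add]
  map_update_smul' := by
    intro inst w i r x
    have hi : inst = instDecidableEqFin _ := Subsingleton.elim _ _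
    subst hi
    rw [mixv_update_right hb, mixv_update_right hb, elim_smul_right, ω.map_update_smul]
  map_eq_zero_of_eq' := by
    intro w i j hij hne
    refine ω.map_eq_zero_of_eq (mixv v w) (i := ⟨b + i, by have := i.2; omega⟩)
      (j := ⟨b + j, by have := j.2; omega⟩) ?_ ?_
    · rw [mixv_right hb, mixv_right hb, hij]
    · intro h
      apply hne
      have h2 := congrArg (fun z : Fin a => (z : ℕ)) h
      simp only at h2
      ext
      omega

/-- the form in both variables -/
def outerAlt {a b : ℕ} (hb : b ≤ a) (ω : (J1 ⊕ J2 → K) [⋀^Fin a]→ₗ[K] N) :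
    (J1 → K) [⋀^Fin b]→ₗ[K] ((J2 → K) [⋀^Fin (a - b)]→ₗ[K] N) where
  toFun v := innerAlt hb ω v
  map_update_add' := by
    intro inst v i x y
    have hi : inst = instDecidableEqFin _ := Subsingleton.elim _ _
    subst hi
    ext w
    change ω (mixv _ w) = ω (mixv _ w) + ω (mixv _ w)
    rw [mixv_update_left hb, mixv_update_left hb, mixv_update_left hb, elim_add_left,
      ω.map_update_add]
  map_update_smul' := by
    intro inst v i r x
    have hi : inst = instDecidableEqFin _ := Subsingleton.elim _ _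
    subst hi
    ext w
    change ω (mixv _ w) = r • ω (mixv _ w)
    rw [mixv_update_left hb, mixv_update_left hb, elim_smul_left, ω.map_update_smul]
  map_eq_zero_of_eq' := by
    intro v i j hij hne
    ext w
    change ω (mixv v w) = 0
    refine ω.map_eq_zero_of_eq (mixv v w) (i := ⟨i, lt_of_lt_of_le i.2 hb⟩)
      (j := ⟨j, lt_of_lt_of_le j.2 hb⟩) ?_ ?_
    · rw [mixv_left hb, mixv_left hb, hij]
    · intro h
      apply hne
      have h2 := congrArg (fun z : Fin a => (z : ℕ)) h
      ext
      exact h2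

/-- PROOF.  `w ↦ ω (mixv v w)` is alternating and multilinear, and so is `v ↦ (w ↦ ω (mixv v w))`
(`mixv (update v i x) w = update (mixv v w) i' (Sum.elim x 0)`, and `Sum.elim (x+y) 0 = Sum.elim x 0 + Sum.elim y 0`). -/
theorem exists_phi (a b : ℕ) (hb : b ≤ a) :
    ∃ Φ : ((J1 ⊕ J2 → K) [⋀^Fin a]→ₗ[K] N) →ₗ[K]
      ((J1 → K) [⋀^Fin b]→ₗ[K] ((J2 → K) [⋀^Fin (a - b)]→ₗ[K] N)),
      ∀ ω v w, Φ ω v w = ω (mixv v w) :=
  ⟨{ toFun := fun ω => outerAlt hb ω
     map_add' := fun _ _ => by
      ext v w
      rfl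
     map_smul' := fun _ _ => by
      ext v w
      rfl }, fun _ _ _ => rfl⟩

/-- PROOF.  By `Module.Basis.ext_alternating` for the basis `e_(inl j), e_(inr j)` it is enough to see `ω(e_(f 0), …, e_(f (a-1))) = 0` for
injective `f : Fin a → J1 ⊕ J2`; after a permutation of `Fin a` the first `b` values are in `J1` and the others in `J2`. -/
theorem mix_sep {a : ℕ} (ω : (J1 ⊕ J2 → K) [⋀^Fin a]→ₗ[K] N)
    (h : ∀ b ≤ a, ∀ (v : Fin b → J1 → K) (w : Fin (a - b) → J2 → K), ω (mixv v w) = 0) :
    ω = 0 := by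
  refine Module.Basis.ext_alternating (Pi.basisFun K (J1 ⊕ J2)) fun f _ => ?_
  rw [AlternatingMap.zero_apply]
  obtain ⟨b, hbd⟩ : ∃ b, b = Fintype.card {i : Fin a // (f i).isLeft = true} := ⟨_, rfl⟩
  have hb : b ≤ a := by
    rw [hbd]
    exact (Fintype.card_subtype_le _).trans (by simp)
  have hcard : Fintype.card {i : Fin a // (i : ℕ) < b} =
      Fintype.card {i : Fin a // (f i).isLeft = true} := by
    rw [← hbd, Fintype.card_subtype]
    have h1 : (Finset.univ.filter fun i : Fin a => (i : ℕ) < b) =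
        (Finset.univ : Finset (Fin b)).map (Fin.castLEEmb hb) := by
      ext i
      simp only [mem_filter, mem_univ, true_and, mem_map]
      constructor
      · intro hi
        exact ⟨⟨i, hi⟩, rfl⟩
      · rintro ⟨j, hj⟩
        rw [← hj]
        exact j.2
    rw [h1, Finset.card_map, Finset.card_univ, Fintype.card_fin]
  let e := Fintype.equivOfCardEq hcard
  let σ : Equiv.Perm (Fin a) := e.extendSubtype
  have hs1 : ∀ i : Fin a, (i : ℕ) < b → (f (σ i)).isLeft = true := fun i hi =>
    Equiv.extendSubtype_mem e i hi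
  have hs2 : ∀ i : Fin a, ¬ (i : ℕ) < b → ¬ (f (σ i)).isLeft = true := fun i hi =>
    Equiv.extendSubtype_not_mem e i hi
  have hperm := ω.map_perm (fun i => Pi.basisFun K (J1 ⊕ J2) (f i)) σ
  have hmix : (fun i => Pi.basisFun K (J1 ⊕ J2) (f i)) ∘ σ =
      mixv (b := b) (fun i j => Pi.basisFun K (J1 ⊕ J2) (f (σ ⟨i, lt_of_lt_of_le i.2 hb⟩)) (Sum.inl j))
        (fun i j => Pi.basisFun K (J1 ⊕ J2) (f (σ ⟨b + i, by have := i.2; omega⟩)) (Sum.inr j)) := by
    funext i
    unfold mixv
    by_cases hi : (i : ℕ) < b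
    · rw [dif_pos hi]
      funext j
      obtain ⟨j0, hj0⟩ : ∃ j0, f (σ i) = Sum.inl j0 := by
        have h2 := hs1 i hi
        cases h3 : f (σ i) with
        | inl y => exact ⟨y, rfl⟩
        | inr y => rw [h3] at h2; simp at h2
      cases j with
      | inl j => simp
      | inr j => simp [hj0]
    · rw [dif_neg hi]
      funext j
      obtain ⟨j0, hj0⟩ : ∃ j0, f (σ i) = Sum.inr j0 := by
        have h2 := hs2 i hi
        cases h3 : f (σ i) with
        | inl y => rw [h3] at h2; simp at h2
        | inr y => exact ⟨y, rfl⟩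
      have e2 : (⟨b + ((i : ℕ) - b), by have := i.2; omega⟩ : Fin a) = i := by
        ext
        simp only
        omega
      cases j with
      | inl j => simp [hj0]
      | inr j =>
        simp only [Function.comp_apply, Sum.elim_inr]
        rw [e2]
  rw [hmix, h b hb] at hperm
  exact (smul_eq_zero_iff_eq _).1 hperm.symm

end mix

end Pool.PI34.A5

end

/-! ### part A5_Al3 -/
section

/-! PI34, block A5, file Al3: weights of the exterior powers. -/

set_option autoImplicit false

namespace Pool.PI34.A5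

open Finset Matrix

variable {m : ℕ} {c : Fin m → ℕ} {K : Type} [Field K]

private theorem prod_emb (S : Finset (Fin m)) {a : ℕ} (hS : S.card = a) (t : Fin m → K) :
    ∏ q, t (S.orderEmbOfFin hS q) = tw t (ind S) := by
  have h1 : ∏ q, t (S.orderEmbOfFin hS q) = ∏ i ∈ S, t i := by
    have h2 : S = Finset.univ.map (S.orderEmbOfFin hS).toEmbedding := by
      ext i
      rw [Finset.mem_map]
      constructor
      · intro hi
        have : i ∈ Set.range (S.orderEmbOfFin hS) := by
          rw [Finset.range_orderEmbOfFin]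
          exact hi
        obtain ⟨q, hq⟩ := this
        exact ⟨q, Finset.mem_univ q, hq⟩
      · rintro ⟨q, _, rfl⟩
        exact Finset.orderEmbOfFin_mem S hS q
    calc ∏ q, t (S.orderEmbOfFin hS q)
        = ∏ i ∈ Finset.univ.map (S.orderEmbOfFin hS).toEmbedding, t i := by
          rw [Finset.prod_map]
          rfl
      _ = ∏ i ∈ S, t i := by rw [← h2]
  rw [h1]
  unfold tw ind
  rw [← Finset.prod_subset (Finset.subset_univ S)]
  · refine Finset.prod_congr rfl fun i hi => ?_
    rw [if_pos hi, pow_one]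
  · intro i _ hi
    rw [if_neg hi, pow_zero]

private theorem tw_add (t : Fin m → K) (κ μ : Fin m → ℕ) :
    tw t (fun i => κ i + μ i) = tw t κ * tw t μ := by
  unfold tw
  rw [← Finset.prod_mul_distrib]
  exact Finset.prod_congr rfl fun i _ => pow_add _ _ _

private theorem vecMul_dg (t : Fin m → K) (v : Fin m → K) (i : Fin m) :
    (v ᵥ* incl c K (dg c t)) i = v i * t i :=
  Matrix.vecMul_diagonal v t i

private theorem eS_dg (t : Fin m → K) {a : ℕ} (S : Finset (Fin m)) (hS : S.card = a) (q : Fin a) :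
    eS K S hS q ᵥ* incl c K (dg c t) = t (S.orderEmbOfFin hS q) • eS K S hS q := by
  funext i
  rw [vecMul_dg, Pi.smul_apply, smul_eq_mul, mul_comm]
  unfold eS
  by_cases h : i = S.orderEmbOfFin hS q
  · rw [h]
  · rw [Pi.single_eq_of_ne h, mul_zero, mul_zero]

/-- weights of the exterior powers.  PROOF. `ω ≠ 0` of weight `κ`; `ω (e_S) ≠ 0` for some `S` (`alt_ext`); `t^(1_S) ρ(t) ω(e_S) = t^κ ω(e_S)`; write
`ω(e_S) = ∑ P μ`, some `P μ ω(e_S) ≠ 0`, and `t^(1_S + μ) P μ ω(e_S) = t^κ P μ ω(e_S)`, so `κ = μ + 1_S` (`tw_indep`). -/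
theorem alt_wt [Infinite K] (M : PRep c K) (a : ℕ) (κ : Fin m → ℕ) (h : (altI M a).wt κ ≠ ⊥) :
    ∃ S : Finset (Fin m), S.card = a ∧ ∃ μ, M.wt μ ≠ ⊥ ∧ κ = fun i => μ i + ind S i := by
  obtain ⟨ω, hω', hne⟩ : ∃ ω : (Fin m → K) [⋀^Fin a]→ₗ[K] M.V,
      (∀ t : Fin m → K, altAct M (incl c K) a (dg c t) ω = tw t κ • ω) ∧ ω ≠ 0 := by
    obtain ⟨ω, hω, hne⟩ := (Submodule.ne_bot_iff _).1 h
    exact ⟨ω, hω, hne⟩
  obtain ⟨S, hS, hw⟩ : ∃ (S : Finset (Fin m)) (hS : S.card = a), ω (eS K S hS) ≠ 0 := by
    by_contra hcon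
    push Not at hcon
    exact hne (alt_ext ω hcon)
  obtain ⟨w, hwd⟩ : ∃ w, w = ω (eS K S hS) := ⟨_, rfl⟩
  rw [← hwd] at hw
  have hrel : ∀ t : Fin m → K, tw t (ind S) • M.ρ (dg c t) w = tw t κ • w := by
    intro t
    have h1 := congrArg (fun η : (Fin m → K) [⋀^Fin a]→ₗ[K] M.V => η (eS K S hS)) (hω' t)
    have h2 : (fun q => eS K S hS q ᵥ* incl c K (dg c t)) =
        fun q => t (S.orderEmbOfFin hS q) • eS K S hS q := funext fun q => eS_dg t S hS q
    have h3 : ω (fun q => t (S.orderEmbOfFin hS q) • eS K S hS q) =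
        (∏ q, t (S.orderEmbOfFin hS q)) • ω (eS K S hS) :=
      ω.toMultilinearMap.map_smul_univ _ _
    have h4 : altAct M (incl c K) a (dg c t) ω (eS K S hS) = tw t κ • ω (eS K S hS) := h1
    rw [altAct_apply, h2, h3, prod_emb, map_smul, ← hwd] at h4
    exact h4
  obtain ⟨μ, hμ, hx⟩ : ∃ μ ∈ M.W, M.P μ w ≠ 0 := by
    by_contra hcon
    push Not at hcon
    refine hw ?_
    rw [← sum_P M w]
    exact Finset.sum_eq_zero hcon
  refine ⟨S, hS, μ, ?_, ?_⟩
  · intro hb
    have := P_mem M μ w
    rw [hb] at this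
    exact hx ((Submodule.mem_bot K).1 this)
  · by_contra hne2
    have hP : ∀ t : Fin m → K, M.P μ (M.ρ (dg c t) w) = tw t μ • M.P μ w := by
      intro t
      rw [rho_dg, LinearMap.sum_apply, map_sum, Finset.sum_eq_single μ]
      · rw [LinearMap.smul_apply, map_smul, P_self M μ _ (P_mem M μ w)]
      · intro ν _ hν
        rw [LinearMap.smul_apply, map_smul, P_ne M μ ν (Ne.symm hν) _ (P_mem M ν w), smul_zero]
      · intro hn
        exact absurd hμ hn
    obtain ⟨κ', hκ'⟩ : ∃ κ' : Fin m → ℕ, κ' = fun i => μ i + ind S i := ⟨_, rfl⟩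
    rw [← hκ'] at hne2
    have hne3 : κ' ≠ κ := fun e => hne2 e.symm
    have hfin := tw_indep (K := K) ({κ', κ} : Finset (Fin m → ℕ))
      (fun ν => if ν = κ' then M.P μ w else -(M.P μ w)) (by
        intro t
        rw [Finset.sum_pair hne3, if_pos rfl, if_neg hne3.symm, hκ', tw_add]
        have h5 := congrArg (M.P μ) (hrel t)
        rw [map_smul, map_smul, hP] at h5
        rw [smul_neg, ← h5, smul_smul, mul_comm (tw t μ), add_neg_cancel]) κ' (by simp)
    rw [if_pos rfl] at hfin
    exact hx hfin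

/-- `ω(v) = det (v_q (s_r)) • y`, `s` the increasing enumeration of `S` (`Matrix.detRowAlternating` composed with the projection) -/
theorem alt_wt_ne [Infinite K] (M : PRep c K) (S : Finset (Fin m)) (μ : Fin m → ℕ)
    (h : M.wt μ ≠ ⊥) : (altI M S.card).wt (fun i => μ i + ind S i) ≠ ⊥ := by
  obtain ⟨y, hy, hy0⟩ := (Submodule.ne_bot_iff _).1 h
  obtain ⟨s, hs⟩ : ∃ s : Fin S.card → Fin m, s = S.orderEmbOfFin rfl := ⟨_, rfl⟩
  obtain ⟨ω, hω⟩ : ∃ ω : (Fin m → K) [⋀^Fin S.card]→ₗ[K] M.V, ω =
      (LinearMap.toSpanSingleton K M.V y).compAlternatingMap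
        ((Matrix.detRowAlternating (n := Fin S.card) (R := K)).compLinearMap
          (LinearMap.funLeft K K s)) := ⟨_, rfl⟩
  have hval : ∀ v : Fin S.card → Fin m → K,
      ω v = (Matrix.of fun q r => v q (s r)).det • y := by
    intro v
    rw [hω]
    rfl
  refine (Submodule.ne_bot_iff _).2 ⟨ω, ?_, ?_⟩
  · intro t
    change altAct M (incl c K) S.card (dg c t) ω = tw t (fun i => μ i + ind S i) • ω
    ext v
    have h1 : altAct M (incl c K) S.card (dg c t) ω v =
        M.ρ (dg c t) (ω fun q => v q ᵥ* incl c K (dg c t)) := rfl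
    have h2 : (Matrix.of fun q r => (v q ᵥ* incl c K (dg c t)) (s r)) =
        Matrix.of fun q r => t (s r) * (Matrix.of fun q r => v q (s r)) q r := by
      ext q r
      rw [Matrix.of_apply, Matrix.of_apply, Matrix.of_apply, vecMul_dg, mul_comm]
    rw [h1, hval, h2, Matrix.det_mul_row, AlternatingMap.smul_apply, hval, map_smul, hy t,
      smul_smul, smul_smul, tw_add, hs, prod_emb S rfl t]
    congr 1
    ring
  · intro h0
    have h1 : ω (eS K S rfl) = y := by
      rw [hval]
      have h2 : (Matrix.of fun q r => eS K S rfl q (s r)) = (1 : Matrix (Fin S.card) (Fin S.card) K) := by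
        ext q r
        rw [Matrix.of_apply, Matrix.one_apply, hs]
        unfold eS
        by_cases hqr : q = r
        · rw [hqr, if_pos rfl, Pi.single_eq_same]
        · rw [if_neg hqr, Pi.single_eq_of_ne]
          intro e
          exact hqr ((S.orderEmbOfFin rfl).injective e).symm
      rw [h2, Matrix.det_one, one_smul]
    rw [h0] at h1
    exact hy0 h1.symm

end Pool.PI34.A5

end
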