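import Pool.Agent.LibPI54.M13
import Pool.Agent.LibPI54.M14
import Pool.Agent.LibPI54.M15

/-! ### part A5_Sem -/
section

/-! PI34, block A5, file Sem: Lo-invariant vectors of constant weight are semi-invariant. -/

set_option autoImplicit false

namespace Pool.PI34.A5

open Finset Matrix

variable {m : ℕ} {c : Fin m → ℕ} {K : Type} [Field K]

/-- the matrices which fix `v` -/
def fixM (M : PRep c K) (v : M.V) : Submonoid (Matrix (Fin m) (Fin m) K) where
  carrier := {Z | ∃ h : Z ∈ Blk c K, M.ρ ⟨Z, h⟩ v = v}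
  one_mem' := ⟨(Blk c K).one_mem, by
    change M.ρ 1 v = v
    rw [map_one]
    rfl⟩
  mul_mem' := by
    rintro Z W ⟨h1, h2⟩ ⟨k1, k2⟩
    refine ⟨(Blk c K).mul_mem h1 k1, ?_⟩
    change M.ρ (⟨Z, h1⟩ * ⟨W, k1⟩) v = v
    rw [map_mul]
    change M.ρ ⟨Z, h1⟩ (M.ρ ⟨W, k1⟩ v) = v
    rw [k2, h2]

theorem col_mem (S : Submonoid (Matrix (Fin m) (Fin m) K)) (q : Fin m) (w : Fin m → K)
    (s : Finset (Fin m)) (hs : ∀ i ∈ s, i < q)
    (h : ∀ i ∈ s, 1 + Matrix.single i q (w i) ∈ S) :
    1 + ∑ i ∈ s, Matrix.single i q (w i) ∈ S := by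
  induction s using Finset.induction_on with
  | empty => simp
  | insert a s ha ih =>
    have h1 := ih (fun i hi => hs i (Finset.mem_insert_of_mem hi))
      (fun i hi => h i (Finset.mem_insert_of_mem hi))
    have h2 := h a (Finset.mem_insert_self a s)
    have h3 := S.mul_mem h2 h1
    have e : (1 + Matrix.single a q (w a)) * (1 + ∑ i ∈ s, Matrix.single i q (w i)) =
        1 + ∑ i ∈ insert a s, Matrix.single i q (w i) := by
      have z : Matrix.single a q (w a) * ∑ i ∈ s, Matrix.single i q (w i) = 0 := by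
        rw [Finset.mul_sum]
        refine Finset.sum_eq_zero fun i hi => ?_
        exact Matrix.single_mul_single_of_ne _ _ _ _
          (hs i (Finset.mem_insert_of_mem hi)).ne' _
      rw [Finset.sum_insert ha, mul_add, mul_one, add_mul, one_mul, z]
      abel
    rwa [e] at h3

/-- PROOF.  For `q ≤ m` let `u_q` be the matrix with the columns `< q` of `u` and the columns `≥ q` of the identity.  `u_0 = 1`, `u_m = u`,
`u_(q+1) = E_q * u_q` with `E_q` = identity with the column `q` replaced by the column `q` of `u`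
`= ∏_(i < q, c i = c q) el i q (u i q)` (in any order).  So `u` is a product of elementary matrices `el i j x`, `i < j`. -/
theorem up_fix (M : PRep c K) (v : M.V)
    (h : ∀ (i j : Fin m) (_ : i < j) (hc : c i = c j) (x : K), M.ρ (el c i j hc x) v = v)
    (u : Blk c K) (hu : IsUp u) : M.ρ u v = v := by
  set S := fixM M v with hS
  have key : ∀ q : ℕ, q ≤ m → (Matrix.of fun i j : Fin m =>
      if (j : ℕ) < q then u.1 i j else (1 : Matrix (Fin m) (Fin m) K) i j) ∈ S := by
    intro q
    induction q with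
    | zero =>
      intro _
      have e : (Matrix.of fun i j : Fin m =>
          if (j : ℕ) < 0 then u.1 i j else (1 : Matrix (Fin m) (Fin m) K) i j) = 1 := by
        ext i j
        simp
      rw [e]
      exact S.one_mem
    | succ q ih =>
      intro hq
      have h1 := ih (by omega)
      set Q : Fin m := ⟨q, by omega⟩ with hQ
      have h2 : 1 + ∑ i ∈ Finset.univ.filter (fun i => i < Q ∧ c i = c Q),
          Matrix.single i Q (u.1 i Q) ∈ S := by
        refine col_mem S Q (fun i => u.1 i Q) _ (fun i hi => (Finset.mem_filter.1 hi).2.1)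
          fun i hi => ?_
        obtain ⟨h3, h4⟩ := (Finset.mem_filter.1 hi).2
        exact ⟨(el c i Q h4 (u.1 i Q)).2, h i Q h3 h4 _⟩
      have h3 := S.mul_mem h2 h1
      have e : (1 + ∑ i ∈ Finset.univ.filter (fun i => i < Q ∧ c i = c Q),
          Matrix.single i Q (u.1 i Q)) * (Matrix.of fun i j : Fin m =>
          if (j : ℕ) < q then u.1 i j else (1 : Matrix (Fin m) (Fin m) K) i j) =
          Matrix.of fun i j : Fin m =>
          if (j : ℕ) < q + 1 then u.1 i j else (1 : Matrix (Fin m) (Fin m) K) i j := by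
        ext i j
        rw [add_mul, one_mul, Matrix.add_apply, Finset.sum_mul, Matrix.sum_apply]
        have e1 : ∀ a ∈ Finset.univ.filter (fun i => i < Q ∧ c i = c Q),
            (Matrix.single a Q (u.1 a Q) * (Matrix.of fun i j : Fin m =>
              if (j : ℕ) < q then u.1 i j else (1 : Matrix (Fin m) (Fin m) K) i j)) i j =
            if j = Q then (if a = i then u.1 a Q else 0) else 0 := by
          intro a _
          rw [Matrix.mul_apply, Finset.sum_eq_single Q]
          · rw [Matrix.of_apply, Matrix.single_apply]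
            by_cases hj : j = Q
            · subst hj
              simp [hQ]
            · rw [if_neg hj]
              have : (if (j : ℕ) < q then u.1 Q j else (1 : Matrix (Fin m) (Fin m) K) Q j) = 0 := by
                split_ifs with h5
                · exact hu.2 Q j (Fin.lt_def.2 h5)
                · exact Matrix.one_apply_ne fun e => hj e.symm
              rw [this, mul_zero]
          · intro b _ hb
            rw [Matrix.single_apply, if_neg (fun e => hb e.2.symm), zero_mul]
          · intro hb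
            exact absurd (Finset.mem_univ _) hb
        rw [Finset.sum_congr rfl e1, Matrix.of_apply, Matrix.of_apply]
        by_cases hj : j = Q
        · subst hj
          simp only [if_true]
          rw [Finset.sum_ite_eq' (Finset.univ.filter (fun i => i < Q ∧ c i = c Q)) i
            (fun a => u.1 a Q)]
          have hq1 : ¬ ((Q : Fin m) : ℕ) < q := by simp [hQ]
          have hq2 : ((Q : Fin m) : ℕ) < q + 1 := by simp [hQ]
          rw [if_neg hq1, if_pos hq2]
          by_cases hi : i = Q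
          · subst hi
            rw [if_neg (by simp), Matrix.one_apply_eq, hu.1, add_zero]
          · rw [Matrix.one_apply_ne hi, zero_add]
            split_ifs with h5
            · rfl
            · rcases lt_or_gt_of_ne hi with h6 | h6
              · by_cases h7 : c i = c Q
                · exact absurd (Finset.mem_filter.2 ⟨Finset.mem_univ _, h6, h7⟩) h5
                · exact (u.2 i Q h7).symm
              · exact (hu.2 i Q h6).symm
        · simp only [if_neg hj, Finset.sum_const_zero, add_zero]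
          have hne : (j : ℕ) ≠ q := fun e => hj (Fin.ext e)
          by_cases h5 : (j : ℕ) < q
          · rw [if_pos h5, if_pos (by omega)]
          · rw [if_neg h5, if_neg (by omega)]
      rwa [e] at h3
  have h1 := key m le_rfl
  have e : (Matrix.of fun i j : Fin m =>
      if (j : ℕ) < m then u.1 i j else (1 : Matrix (Fin m) (Fin m) K) i j) = u.1 := by
    ext i j
    simp
  rw [e] at h1
  exact h1.2

theorem det_mem_poly : (fun Z : Blk c K => Z.1.det) ∈ PolyFn (crd c K) := by
  have e : (fun Z : Blk c K => Z.1.det) = ∑ σ : Equiv.Perm (Fin m),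
      (fun _ : Blk c K => ((Equiv.Perm.sign σ : ℤ) : K)) *
        ∏ i : Fin m, fun Z : Blk c K => crd c K Z (σ i, i) := by
    funext Z
    rw [Matrix.det_apply, Finset.sum_apply]
    refine Finset.sum_congr rfl fun σ _ => ?_
    rw [Pi.mul_apply, Finset.prod_apply, Units.smul_def, zsmul_eq_mul]
    rfl
  rw [e]
  refine Subalgebra.sum_mem _ fun σ _ => Subalgebra.mul_mem _ (const_mem _ _) ?_
  exact Subalgebra.prod_mem _ fun i _ => coord_mem (crd c K) (σ i, i)

theorem det_up (u : Blk c K) (hu : IsUp u) : u.1.det = 1 := by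
  rw [Matrix.det_of_isUpperTriangular (fun i j h => hu.2 i j h)]
  exact Finset.prod_eq_one fun i _ => hu.1 i

theorem det_lo (g : Blk c K) (hg : IsLo g) : g.1.det = 1 := by
  rw [Matrix.det_of_isLowerTriangular g.1 (fun i j h => hg.2 i j h)]
  exact Finset.prod_eq_one fun i _ => hg.1 i

/-- PROOF.  `hs_el` and `up_fix`: `ρ(u) v = v` for `u ∈ Up`.  So `φ(ρ(Z) v) = det(Z)^k φ(v)` for `Z = u t g`; `blk_dense`. -/
theorem semi_const [Infinite K] (M : PRep c K) (k : ℕ) (v : M.V) (hv : v ∈ M.hs (fun _ => k))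
    (g : Blk c K) : M.ρ g v = g.1.det ^ k • v := by
  have hup : ∀ u : Blk c K, IsUp u → M.ρ u v = v := fun u hu =>
    up_fix M v (fun i j hij hc x => hs_el M (fun _ => k) v hv i j hij hc rfl x) u hu
  rw [← sub_eq_zero, ← Module.forall_dual_apply_eq_zero_iff K]
  intro φ
  have hF : (fun Z : Blk c K => φ (M.ρ Z v) - φ v * Z.1.det ^ k) ∈ PolyFn (crd c K) := by
    have h1 := M.poly v φ
    have h2 := (PolyFn (crd c K)).mul_mem (const_mem (crd c K) (φ v))
      ((PolyFn (crd c K)).pow_mem (det_mem_poly (c := c) (K := K)) k)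
    exact (PolyFn (crd c K)).sub_mem h1 h2
  have h0 := blk_dense c _ hF (fun u g t hu hg => by
    have e1 : M.ρ (u * dg c t * g) v = tw t (fun _ => k) • v := by
      rw [map_mul, map_mul]
      change M.ρ u (M.ρ (dg c t) (M.ρ g v)) = _
      rw [hv.2 g hg, hv.1 t, map_smul, hup u hu]
    have e2 : (u * dg c t * g).1.det = ∏ i, t i := by
      change (u.1 * Matrix.diagonal t * g.1).det = _
      rw [Matrix.det_mul, Matrix.det_mul, det_up u hu, det_lo g hg, Matrix.det_diagonal, one_mul,
        mul_one]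
    rw [e1, e2, map_smul, smul_eq_mul, tw, Finset.prod_pow, mul_comm, sub_self]) g
  rw [map_sub, map_smul, smul_eq_mul, mul_comm]
  exact h0

end Pool.PI34.A5

end

/-! ### part A5_Chi -/
section

/-! PI34, block A5, file Chi: the character sum and good representations. -/

set_option autoImplicit false

namespace Pool.PI34.A5

open Finset Matrix

variable {m : ℕ} {c : Fin m → ℕ} {K : Type} [Field K]

/-- `∑_κ dim (hs κ) * Dt κ` -/
noncomputable def chi (M : PRep c K) : ℤ :=
  ∑ᶠ κ : Fin m → ℕ, (Module.finrank K (M.hs κ) : ℤ) * Dt c κ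

/-- good representations -/
def Good (M : PRep c K) : Prop := (Module.finrank K M.V : ℤ) = chi M

theorem chi_eq_sum (M : PRep c K) (W : Finset (Fin m → ℕ)) (h : ∀ κ, κ ∉ W → M.hs κ = ⊥) :
    chi M = ∑ κ ∈ W, (Module.finrank K (M.hs κ) : ℤ) * Dt c κ := by
  unfold chi
  refine finsum_eq_sum_of_support_subset _ fun κ hκ => ?_
  by_contra hn
  refine hκ ?_
  have h1 := h κ hn
  change (Module.finrank K (M.hs κ) : ℤ) * Dt c κ = 0
  rw [h1, finrank_bot, Nat.cast_zero, zero_mul]

theorem hs_W [Infinite K] (M : PRep c K) (κ : Fin m → ℕ) (h : κ ∉ M.W) : M.hs κ = ⊥ := by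
  rw [eq_bot_iff]
  intro v hv
  have h1 : v ∈ M.wt κ := hv.1
  rwa [wt_bot M κ h] at h1

/-- equivariant maps preserve `hs κ` -/
theorem hs_map (M N : PRep c K) (f : M.V →ₗ[K] N.V) (hf : Eqv M N f) (κ : Fin m → ℕ) (v : M.V)
    (hv : v ∈ M.hs κ) : f v ∈ N.hs κ := by
  refine ⟨fun t => ?_, fun g hg => ?_⟩
  · rw [← hf, hv.1 t, map_smul]
  · rw [← hf, hv.2 g hg]

/-- and injective ones reflect it -/
theorem hs_comap (M N : PRep c K) (f : M.V →ₗ[K] N.V) (hf : Eqv M N f)
    (hi : Function.Injective f) (κ : Fin m → ℕ) (v : M.V) (hv : f v ∈ N.hs κ) : v ∈ M.hs κ := by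
  refine ⟨fun t => hi ?_, fun g hg => hi ?_⟩
  · rw [hf, hv.1 t, map_smul]
  · rw [hf, hv.2 g hg]

/-- an equivariant injective map induces an injection on `hs κ` -/
theorem hs_inj (M N : PRep c K) (f : M.V →ₗ[K] N.V) (hf : Eqv M N f) (hi : Function.Injective f)
    (κ : Fin m → ℕ) : Module.finrank K (M.hs κ) ≤ Module.finrank K (N.hs κ) :=
  LinearMap.finrank_le_finrank_of_injective
    (f := f.restrict (p := M.hs κ) (q := N.hs κ) fun v hv => hs_map M N f hf κ v hv)
    fun v w hvw => Subtype.ext (hi (congrArg Subtype.val hvw))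

/-- the map on `hs κ` -/
def hsR (Y Z : PRep c K) (p : Y.V →ₗ[K] Z.V) (hp : Eqv Y Z p) (κ : Fin m → ℕ) :
    Y.hs κ →ₗ[K] Z.hs κ :=
  p.restrict fun v hv => hs_map Y Z p hp κ v hv

theorem hsR_ker (X Y Z : PRep c K) (i : X.V →ₗ[K] Y.V) (p : Y.V →ₗ[K] Z.V) (h : Ext X Y Z i p)
    (κ : Fin m → ℕ) : Module.finrank K (LinearMap.ker (hsR Y Z p h.ep κ)) =
      Module.finrank K (X.hs κ) := by
  let j : X.hs κ →ₗ[K] Y.hs κ := hsR X Y i h.ei κ
  have hj : Function.Injective j := fun v w hvw =>
    Subtype.ext (h.inj (congrArg Subtype.val hvw))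
  have hr : LinearMap.range j = LinearMap.ker (hsR Y Z p h.ep κ) := by
    ext y
    constructor
    · rintro ⟨x, rfl⟩
      apply Subtype.ext
      have h1 : i x.1 ∈ LinearMap.ker p := h.ex ▸ LinearMap.mem_range_self i x.1
      exact h1
    · intro hy
      have h1 : y.1 ∈ LinearMap.ker p := congrArg Subtype.val hy
      rw [← h.ex] at h1
      obtain ⟨x, hx⟩ := h1
      have h2 : i x ∈ Y.hs κ := by rw [hx]; exact y.2
      exact ⟨⟨x, hs_comap X Y i h.ei h.inj κ x h2⟩, Subtype.ext hx⟩
  rw [← hr, LinearMap.finrank_range_of_inj hj]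

/-- left exactness -/
theorem hs_ext (X Y Z : PRep c K) (i : X.V →ₗ[K] Y.V) (p : Y.V →ₗ[K] Z.V) (h : Ext X Y Z i p)
    (κ : Fin m → ℕ) :
    Module.finrank K (Y.hs κ) ≤ Module.finrank K (X.hs κ) + Module.finrank K (Z.hs κ) := by
  have h1 := LinearMap.finrank_range_add_finrank_ker (hsR Y Z p h.ep κ)
  have h2 := hsR_ker X Y Z i p h κ
  have h3 := Submodule.finrank_le (LinearMap.range (hsR Y Z p h.ep κ))
  omega

/-- left exactness with equality: then `Y.hs κ → Z.hs κ` is onto -/
theorem hs_ext_eq (X Y Z : PRep c K) (i : X.V →ₗ[K] Y.V) (p : Y.V →ₗ[K] Z.V) (h : Ext X Y Z i p)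
    (κ : Fin m → ℕ)
    (he : Module.finrank K (Y.hs κ) = Module.finrank K (X.hs κ) + Module.finrank K (Z.hs κ))
    (z : Z.V) (hz : z ∈ Z.hs κ) : ∃ y ∈ Y.hs κ, p y = z := by
  have h1 := LinearMap.finrank_range_add_finrank_ker (hsR Y Z p h.ep κ)
  have h2 := hsR_ker X Y Z i p h κ
  have h3 : Module.finrank K (LinearMap.range (hsR Y Z p h.ep κ)) = Module.finrank K (Z.hs κ) := by
    omega
  have h4 : LinearMap.range (hsR Y Z p h.ep κ) = ⊤ := Submodule.eq_top_of_finrank_eq h3
  have h5 : (⟨z, hz⟩ : Z.hs κ) ∈ LinearMap.range (hsR Y Z p h.ep κ) := by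
    rw [h4]
    exact Submodule.mem_top
  obtain ⟨y, hy⟩ := h5
  exact ⟨y.1, y.2, congrArg Subtype.val hy⟩

/-- bijective equivariant maps preserve `Good` -/
theorem good_equiv (M N : PRep c K) (f : M.V ≃ₗ[K] N.V) (hf : Eqv M N f.toLinearMap)
    (h : Good M) : Good N := by
  have hf' : Eqv N M f.symm.toLinearMap := by
    intro g v
    apply f.injective
    have h1 := hf g (f.symm v)
    change f (M.ρ g (f.symm v)) = N.ρ g (f (f.symm v)) at h1
    rw [LinearEquiv.apply_symm_apply] at h1
    change f (f.symm (N.ρ g v)) = f (M.ρ g (f.symm v))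
    rw [LinearEquiv.apply_symm_apply, h1]
  have e : ∀ κ, Module.finrank K (M.hs κ) = Module.finrank K (N.hs κ) := fun κ =>
    le_antisymm (hs_inj M N f.toLinearMap hf f.injective κ)
      (hs_inj N M f.symm.toLinearMap hf' f.symm.injective κ)
  unfold Good chi at h ⊢
  rw [← f.finrank_eq, h]
  exact finsum_congr fun κ => by rw [e κ]

/-- zero representations are good -/
theorem good_zero (M : PRep c K) (h : Module.finrank K M.V = 0) : Good M := by
  unfold Good
  rw [chi_eq_sum M ∅ (fun κ _ => ?_), h, Finset.sum_empty, Nat.cast_zero]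
  have h1 : Module.finrank K (M.hs κ) = 0 := by
    have := Submodule.finrank_le (M.hs κ)
    omega
  exact Submodule.finrank_eq_zero.1 h1

end Pool.PI34.A5

end

/-! ### part A5_T4 -/
section

/-! PI34, block A5, file T4: comparison of character sums. -/

set_option autoImplicit false

namespace Pool.PI34.A5

open Finset Matrix

variable {m : ℕ} {c : Fin m → ℕ} {K : Type} [Field K] [Infinite K]

/-- comparison of character sums.  PROOF: `hs_nondom`, `Dt_pos`, `chi_eq_sum` with `W = M.W ∪ N.W`. -/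
theorem chi_mono (hc : Monotone c) (M N : PRep c K)
    (h : ∀ κ, Module.finrank K (M.hs κ) ≤ Module.finrank K (N.hs κ)) : chi M ≤ chi N := by
  classical
  rw [chi_eq_sum M (M.W ∪ N.W) (fun κ hκ => hs_W M κ fun h1 =>
      hκ (Finset.mem_union_left _ h1)),
    chi_eq_sum N (M.W ∪ N.W) (fun κ hκ => hs_W N κ fun h1 =>
      hκ (Finset.mem_union_right _ h1))]
  refine Finset.sum_le_sum fun κ _ => ?_
  by_cases hd : Dom c κ
  · exact mul_le_mul_of_nonneg_right (by exact_mod_cast h κ) (Dt_pos c κ hc hd).le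
  · rw [hs_nondom M κ hd, hs_nondom N κ hd, finrank_bot, finrank_bot]

/-- the termwise difference in `chi_ext` is nonnegative -/
theorem T4_term (hc : Monotone c) (X Y Z : PRep c K) (i : X.V →ₗ[K] Y.V) (p : Y.V →ₗ[K] Z.V)
    (h : Ext X Y Z i p) (κ : Fin m → ℕ) : (Module.finrank K (Y.hs κ) : ℤ) * Dt c κ ≤
      (Module.finrank K (X.hs κ) : ℤ) * Dt c κ + (Module.finrank K (Z.hs κ) : ℤ) * Dt c κ := by
  by_cases hd : Dom c κ
  · rw [← add_mul]
    exact mul_le_mul_of_nonneg_right (by exact_mod_cast hs_ext X Y Z i p h κ)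
      (Dt_pos c κ hc hd).le
  · rw [hs_nondom X κ hd, hs_nondom Y κ hd, hs_nondom Z κ hd, finrank_bot, finrank_bot,
      finrank_bot]
    simp

theorem T4_sums (X Y Z : PRep c K) : ∃ W : Finset (Fin m → ℕ), Z.W ⊆ W ∧
    chi X = ∑ κ ∈ W, (Module.finrank K (X.hs κ) : ℤ) * Dt c κ ∧
    chi Y = ∑ κ ∈ W, (Module.finrank K (Y.hs κ) : ℤ) * Dt c κ ∧
    chi Z = ∑ κ ∈ W, (Module.finrank K (Z.hs κ) : ℤ) * Dt c κ := by
  classical
  refine ⟨X.W ∪ Y.W ∪ Z.W, Finset.subset_union_right, chi_eq_sum X _ fun κ hκ => ?_,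
    chi_eq_sum Y _ fun κ hκ => ?_, chi_eq_sum Z _ fun κ hκ => ?_⟩
  · exact hs_W X κ fun h1 => hκ (Finset.mem_union_left _ (Finset.mem_union_left _ h1))
  · exact hs_W Y κ fun h1 => hκ (Finset.mem_union_left _ (Finset.mem_union_right _ h1))
  · exact hs_W Z κ fun h1 => hκ (Finset.mem_union_right _ h1)

/-- PROOF.  `hs_ext`, `hs_nondom`, `Dt_pos`. -/
theorem chi_ext (hc : Monotone c) (X Y Z : PRep c K) (i : X.V →ₗ[K] Y.V) (p : Y.V →ₗ[K] Z.V)
    (h : Ext X Y Z i p) : chi Y ≤ chi X + chi Z := by
  obtain ⟨W, _, hX, hY, hZ⟩ := T4_sums X Y Z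
  rw [hX, hY, hZ, ← Finset.sum_add_distrib]
  exact Finset.sum_le_sum fun κ _ => T4_term hc X Y Z i p h κ

/-- equality in `chi_ext` gives the surjectivity on all `hs κ` (`hs_ext_eq`) -/
theorem chi_ext_eq (hc : Monotone c) (X Y Z : PRep c K) (i : X.V →ₗ[K] Y.V) (p : Y.V →ₗ[K] Z.V)
    (h : Ext X Y Z i p) (he : chi Y = chi X + chi Z) (κ : Fin m → ℕ) (z : Z.V) (hz : z ∈ Z.hs κ) :
    ∃ y ∈ Y.hs κ, p y = z := by
  by_cases hz0 : Z.hs κ = ⊥
  · rw [hz0, Submodule.mem_bot] at hz
    exact ⟨0, Submodule.zero_mem _, by rw [map_zero, hz]⟩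
  have hd : Dom c κ := by
    by_contra hd
    exact hz0 (hs_nondom Z κ hd)
  obtain ⟨W, hW, hX, hY, hZ⟩ := T4_sums X Y Z
  have hκ : κ ∈ W := by
    by_contra hκ
    exact hz0 (hs_W Z κ fun h1 => hκ (hW h1))
  rw [hX, hY, hZ, ← Finset.sum_add_distrib] at he
  have h1 := (Finset.sum_eq_sum_iff_of_le fun κ _ => T4_term hc X Y Z i p h κ).1 he κ hκ
  rw [← add_mul] at h1
  have h2 := mul_right_cancel₀ (Dt_pos c κ hc hd).ne' h1
  exact hs_ext_eq X Y Z i p h κ (by exact_mod_cast h2) z hz

end Pool.PI34.A5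

end

/-! ### part A5_The -/
section

/-! PI34, block A5, file The: the map `theta : M → Hom(wd λ, nab λ)` for a top weight `λ`. -/

set_option autoImplicit false

namespace Pool.PI34.A5

open Finset Matrix

variable {m : ℕ} {c : Fin m → ℕ} {K : Type} [Field K] [Infinite K]

/-- matrix coefficients of a weight functional -/
noncomputable def coefS (M : PRep c K) (lam : Fin m → ℕ) (h : IsTop M lam) (v : M.V)
    (φ : M.wd lam) : nabS c K lam :=
  ⟨fun Z => φ.1 (M.ρ Z v), M.poly v φ.1, fun u Z hu => by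
    change φ.1 (M.ρ (u * Z) v) = φ.1 (M.ρ Z v)
    rw [map_mul]
    exact top_up M lam h u hu φ.1 φ.2 _, fun t Z => by
    change φ.1 (M.ρ (dg c t * Z) v) = tw t lam * φ.1 (M.ρ Z v)
    rw [map_mul]
    exact φ.2 t _⟩

/-- `theta0 v φ Z = φ (ρ(Z) v)` -/
noncomputable def theta0 (M : PRep c K) (lam : Fin m → ℕ) (h : IsTop M lam) :
    M.V →ₗ[K] (M.wd lam →ₗ[K] nabS c K lam) :=
  LinearMap.mk₂ K (fun v φ => coefS M lam h v φ)
    (fun v w φ => Subtype.ext (funext fun Z => by
      change φ.1 (M.ρ Z (v + w)) = φ.1 (M.ρ Z v) + φ.1 (M.ρ Z w)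
      simp))
    (fun a v φ => Subtype.ext (funext fun Z => by
      change φ.1 (M.ρ Z (a • v)) = a • φ.1 (M.ρ Z v)
      simp))
    (fun v φ ψ => Subtype.ext (funext fun Z => rfl))
    (fun a v φ => Subtype.ext (funext fun Z => rfl))

/-- `theta v φ Z = φ (ρ(Z) v)` -/
noncomputable def theta (M : PRep c K) (lam : Fin m → ℕ) (h : IsTop M lam) :
    M.V →ₗ[K] ((nab c K lam).hom (M.wd lam)).V := theta0 M lam h

theorem theta_apply (M : PRep c K) (lam : Fin m → ℕ) (h : IsTop M lam) (v : M.V) (φ : M.wd lam)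
    (Z : Blk c K) : (theta0 M lam h v φ).1 Z = φ.1 (M.ρ Z v) := rfl

theorem theta_eqv (M : PRep c K) (lam : Fin m → ℕ) (h : IsTop M lam) :
    Eqv M ((nab c K lam).hom (M.wd lam)) (theta M lam h) := by
  intro g v
  apply LinearMap.ext
  intro φ
  apply Subtype.ext
  funext Z
  change φ.1 (M.ρ Z (M.ρ g v)) = φ.1 (M.ρ (Z * g) v)
  rw [map_mul]
  rfl

theorem ker_theta (M : PRep c K) (lam : Fin m → ℕ) (h : IsTop M lam) (v : M.V) :
    v ∈ LinearMap.ker (theta M lam h) ↔ ∀ φ ∈ M.wd lam, ∀ Z, φ (M.ρ Z v) = 0 := by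
  constructor
  · intro hv φ hφ Z
    have h1 : theta0 M lam h v = 0 := hv
    have h2 := theta_apply M lam h v ⟨φ, hφ⟩ Z
    rw [h1] at h2
    exact h2.symm
  · intro hv
    change theta0 M lam h v = 0
    apply LinearMap.ext
    intro φ
    apply Subtype.ext
    funext Z
    exact hv φ.1 φ.2 Z

/-- use `wd_sep` with `Z = 1` -/
theorem ker_theta_wt (M : PRep c K) (lam : Fin m → ℕ) (h : IsTop M lam) (v : M.V)
    (hv : v ∈ LinearMap.ker (theta M lam h)) (hw : v ∈ M.wt lam) : v = 0 := by
  refine wd_sep M lam v hw fun φ hφ => ?_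
  have h1 := (ker_theta M lam h v).1 hv φ hφ 1
  rwa [map_one] at h1

/-- the kernel of `theta` as a representation -/
noncomputable def kth (M : PRep c K) (lam : Fin m → ℕ) (h : IsTop M lam) : PRep c K :=
  M.sub (LinearMap.ker (theta M lam h)) (fun g v hv => by
    rw [LinearMap.mem_ker] at hv ⊢
    rw [theta_eqv M lam h g v, hv, map_zero])

/-- the dimension of `hom` -/
theorem finrank_hom (M : PRep c K) (V : Type) [AddCommGroup V] [Module K V]
    [FiniteDimensional K V] :
    Module.finrank K (M.hom V).V = Module.finrank K V * Module.finrank K M.V :=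
  Module.finrank_linearMap K K V M.V

/-- PROOF.  `T ∈ (M.hom V).hs κ ↔ ∀ v, T v ∈ M.hs κ`; so `(M.hom V).hs κ ≃ (V →ₗ M.hs κ)`. -/
theorem hom_hs (M : PRep c K) (V : Type) [AddCommGroup V] [Module K V]
    [FiniteDimensional K V] (κ : Fin m → ℕ) :
    Module.finrank K ((M.hom V).hs κ) = Module.finrank K V * Module.finrank K (M.hs κ) := by
  have key : ∀ T : V →ₗ[K] M.V, T ∈ ((M.hom V).hs κ : Submodule K (V →ₗ[K] M.V)) ↔
      ∀ v, T v ∈ M.hs κ := by
    intro T
    constructor
    · intro hT v
      refine ⟨fun t => ?_, fun g hg => ?_⟩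
      · exact LinearMap.congr_fun (hT.1 t) v
      · exact LinearMap.congr_fun (hT.2 g hg) v
    · intro hT
      refine ⟨fun t => ?_, fun g hg => ?_⟩
      · exact LinearMap.ext fun v => (hT v).1 t
      · exact LinearMap.ext fun v => (hT v).2 g hg
  let e : ((M.hom V).hs κ : Submodule K (V →ₗ[K] M.V)) ≃ₗ[K] (V →ₗ[K] M.hs κ) :=
    { toFun := fun T => LinearMap.codRestrict (M.hs κ) T.1 ((key T.1).1 T.2)
      map_add' := fun _ _ => rfl
      map_smul' := fun _ _ => rfl
      invFun := fun S => ⟨(M.hs κ).subtype ∘ₗ S, (key _).2 fun v => (S v).2⟩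
      left_inv := fun _ => rfl
      right_inv := fun _ => rfl }
  rw [← Module.finrank_linearMap K K V (M.hs κ)]
  exact e.finrank_eq

end Pool.PI34.A5

end

/-! ### part A5_T4b -/
section

/-! PI34, block A5, file T4b: the upper bound `finrank M ≤ chi M`. -/

set_option autoImplicit false

namespace Pool.PI34.A5

open Finset Matrix

variable {m : ℕ} {c : Fin m → ℕ} {K : Type} [Field K] [Infinite K]

/-- the inclusion of `kth` -/
private theorem kth_incl (M : PRep c K) (lam : Fin m → ℕ) (h : IsTop M lam) :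
    Eqv (kth M lam h) M (LinearMap.ker (theta M lam h)).subtype := fun _ _ => rfl

private theorem kth_hs_le (M : PRep c K) (lam : Fin m → ℕ) (h : IsTop M lam) (κ : Fin m → ℕ) :
    Module.finrank K ((kth M lam h).hs κ) ≤ Module.finrank K (M.hs κ) :=
  hs_inj (kth M lam h) M _ (kth_incl M lam h) (Submodule.injective_subtype _) κ

private theorem kth_hs_top (M : PRep c K) (lam : Fin m → ℕ) (h : IsTop M lam) :
    Module.finrank K ((kth M lam h).hs lam) = 0 := by
  have hb : (kth M lam h).hs lam = ⊥ := by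
    rw [Submodule.eq_bot_iff]
    intro v hv
    have h1 : (LinearMap.ker (theta M lam h)).subtype v ∈ M.wt lam := fun t => by
      have := hv.1 t
      exact congrArg (fun w : (LinearMap.ker (theta M lam h)) => (w : M.V)) this
    exact Subtype.ext (ker_theta_wt M lam h _ (Subtype.property _) h1)
  rw [hb]
  exact finrank_bot K _

private theorem hs_top_eq (M : PRep c K) (lam : Fin m → ℕ) (h : IsTop M lam) :
    M.hs lam = M.wt lam :=
  le_antisymm (fun _ hv => hv.1) fun v hv => ⟨hv, fun g hg => top_lo M lam h g hg v hv⟩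

private theorem hs_top_finrank (M : PRep c K) (lam : Fin m → ℕ) (h : IsTop M lam) :
    Module.finrank K (M.hs lam) = Module.finrank K (M.wd lam) := by
  rw [hs_top_eq M lam h, finrank_wd]

/-- the kernel of `theta` loses exactly the top weight.
PROOF.  `(kth).hs κ` embeds into `M.hs κ` (inclusion, `hs_inj`), `(kth).hs λ = ⊥` (`ker_theta_wt`), `M.hs λ = M.wt λ` (`top_lo`).
So termwise (`hs κ = ⊥` for non dominant `κ`, `Dt κ > 0` for the dominant ones) `chi (kth) + finrank (wt λ) Dt λ ≤ chi M`
(if `λ` is not dominant then `wt λ = hs λ = ⊥`). -/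
theorem chi_kth (hc : Monotone c) (M : PRep c K) (lam : Fin m → ℕ) (h : IsTop M lam) :
    chi (kth M lam h) + (Module.finrank K (M.wd lam) : ℤ) * Dt c lam ≤ chi M := by
  classical
  set N := kth M lam h with hN
  have hMW : ∀ κ, κ ∉ insert lam (M.W ∪ N.W) → M.hs κ = ⊥ := fun κ hκ =>
    hs_W M κ fun h' => hκ (Finset.mem_insert_of_mem (Finset.mem_union_left _ h'))
  have hNW : ∀ κ, κ ∉ insert lam (M.W ∪ N.W) → N.hs κ = ⊥ := fun κ hκ =>
    hs_W N κ fun h' => hκ (Finset.mem_insert_of_mem (Finset.mem_union_right _ h'))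
  rw [chi_eq_sum M _ hMW, chi_eq_sum N _ hNW]
  have hterm : ∀ κ ∈ insert lam (M.W ∪ N.W),
      0 ≤ ((Module.finrank K (M.hs κ) : ℤ) - Module.finrank K (N.hs κ)) * Dt c κ := by
    intro κ _
    by_cases hd : Dom c κ
    · refine mul_nonneg ?_ (Dt_pos c κ hc hd).le
      have := kth_hs_le M lam h κ
      rw [← hN] at this
      omega
    · rw [hs_nondom M κ hd, hs_nondom N κ hd, finrank_bot, finrank_bot]
      simp
  have hs := Finset.single_le_sum hterm (Finset.mem_insert_self lam (M.W ∪ N.W))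
  have h0 : Module.finrank K (N.hs lam) = 0 := kth_hs_top M lam h
  rw [h0, hs_top_finrank M lam h] at hs
  simp only [sub_mul, Finset.sum_sub_distrib, Nat.cast_zero, sub_zero] at hs
  linarith

/-- PROOF.  Strong induction on `finrank M.V`.  If it is `0` use `good_zero`.  Otherwise let `λ` be a top weight (`exists_top`).
`finrank M = finrank (ker theta) + finrank (range theta) ≤ finrank (kth) + finrank (wd λ) * finrank (nabS λ)` (`finrank_hom`);
`finrank (kth) < finrank M` because `wt λ ≠ ⊥` meets the kernel trivially; so `finrank (kth) ≤ chi (kth)`, and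
`finrank (nabS λ) ≤ Dt λ`: `λ` is dominant, as otherwise `wt λ = hs λ = ⊥` (`top_lo`, `hs_nondom`).  Conclude with `chi_kth`. -/
theorem T4_of (hc : Monotone c)
    (hn : ∀ lam, Dom c lam → (Module.finrank K (nabS c K lam) : ℤ) ≤ Dt c lam) (M : PRep c K) :
    (Module.finrank K M.V : ℤ) ≤ chi M := by
  suffices H : ∀ (n : ℕ) (M : PRep c K), Module.finrank K M.V = n →
      (Module.finrank K M.V : ℤ) ≤ chi M from H _ M rfl
  intro n
  induction n using Nat.strong_induction_on with
  | _ n ih =>
    intro M hM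
    rcases Nat.eq_zero_or_pos n with hz | hz
    · exact le_of_eq (good_zero M (hM.trans hz))
    obtain ⟨lam, htop, hne⟩ := exists_top M (by omega)
    have hdom : Dom c lam := by
      by_contra hd
      exact hne ((hs_top_eq M lam htop).symm.trans (hs_nondom M lam hd))
    have hrn : Module.finrank K (LinearMap.range (theta M lam htop)) +
        Module.finrank K (LinearMap.ker (theta M lam htop)) = Module.finrank K M.V :=
      LinearMap.finrank_range_add_finrank_ker (theta M lam htop)
    have hker : Module.finrank K (kth M lam htop).V =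
        Module.finrank K (LinearMap.ker (theta M lam htop)) := rfl
    have hle : Module.finrank K (LinearMap.range (theta M lam htop)) ≤
        Module.finrank K (M.wd lam) * Module.finrank K (nabS c K lam) := by
      have h1 := Submodule.finrank_le (LinearMap.range (theta M lam htop))
      rw [finrank_hom (nab c K lam) (M.wd lam)] at h1
      exact h1
    have hlt : Module.finrank K (LinearMap.ker (theta M lam htop)) < Module.finrank K M.V := by
      refine Submodule.finrank_lt (fun htp => hne ?_)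
      rw [Submodule.eq_bot_iff]
      intro v hv
      exact ker_theta_wt M lam htop v (by rw [htp]; exact Submodule.mem_top) hv
    have hk := ih _ (by rw [← hM]; exact hker ▸ hlt) (kth M lam htop) rfl
    have hc1 := chi_kth hc M lam htop
    have hn1 := hn lam hdom
    have hmul : (Module.finrank K (M.wd lam) : ℤ) * (Module.finrank K (nabS c K lam) : ℤ) ≤
        (Module.finrank K (M.wd lam) : ℤ) * Dt c lam :=
      mul_le_mul_of_nonneg_left hn1 (Int.natCast_nonneg _)
    have hle' : (Module.finrank K (LinearMap.range (theta M lam htop)) : ℤ) ≤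
        (Module.finrank K (M.wd lam) : ℤ) * (Module.finrank K (nabS c K lam) : ℤ) := by
      exact_mod_cast hle
    rw [hker] at hk
    have hrn' : (Module.finrank K (LinearMap.range (theta M lam htop)) : ℤ) +
        (Module.finrank K (LinearMap.ker (theta M lam htop)) : ℤ) = (Module.finrank K M.V : ℤ) := by
      exact_mod_cast hrn
    linarith

end Pool.PI34.A5

end
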