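import Pool.Agent.LibPI54.M16
import Pool.Agent.LibPI54.M17

/-! ### part A5_Br -/
section

/-! PI34, block A5, file Br: branching. -/

set_option autoImplicit false

namespace Pool.PI34.A5

open Finset Matrix

variable {m : ℕ} {K : Type} [Field K] [Infinite K]

/-- the restriction of `nab λ` to `Blk (c ∘ castSucc)` -/
noncomputable def nabR (c : Fin (m + 1) → ℕ) (K : Type) [Field K] [Infinite K]
    (lam : Fin (m + 1) → ℕ) : PRep (fun i => c i.castSucc) K :=
  (nab c K lam).res (emb c K) (emb_poly c K)

/-- the matrix `[1, 0; r, 1]` (the entries of `r` outside of the color class of `last` are ignored) -/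
def lrow (c : Fin (m + 1) → ℕ) (r : Fin m → K) : Blk c K :=
  bpr c (Matrix.of fun i j => Fin.lastCases (motive := fun _ => K)
    (Fin.lastCases (motive := fun _ => K) 1 (fun j' => r j') j)
    (fun i' => (1 : Matrix _ _ K) i'.castSucc j) i)

omit [Infinite K] in
theorem Br_ll (c : Fin (m + 1) → ℕ) (r : Fin m → K) :
    (lrow c r).1 (Fin.last m) (Fin.last m) = 1 := by
  simp [lrow, bpr]

omit [Infinite K] in
theorem Br_lc (c : Fin (m + 1) → ℕ) (r : Fin m → K) (j : Fin m) :
    (lrow c r).1 (Fin.last m) j.castSucc = if c (Fin.last m) = c j.castSucc then r j else 0 := by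
  simp [lrow, bpr]

omit [Infinite K] in
theorem Br_cl (c : Fin (m + 1) → ℕ) (r : Fin m → K) (i : Fin m) :
    (lrow c r).1 i.castSucc (Fin.last m) = 0 := by
  have h : (1 : Matrix (Fin (m + 1)) (Fin (m + 1)) K) i.castSucc (Fin.last m) = 0 :=
    Matrix.one_apply_ne (Fin.castSucc_lt_last i).ne
  simp [lrow, bpr, h]

omit [Infinite K] in
theorem Br_cc (c : Fin (m + 1) → ℕ) (r : Fin m → K) (i j : Fin m) :
    (lrow c r).1 i.castSucc j.castSucc = (1 : Matrix (Fin m) (Fin m) K) i j := by
  have h : (1 : Matrix (Fin (m + 1)) (Fin (m + 1)) K) i.castSucc j.castSucc =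
      (1 : Matrix (Fin m) (Fin m) K) i j := by
    simp [Matrix.one_apply, Fin.castSucc_inj]
  simp only [lrow, bpr, Matrix.of_apply, Fin.lastCases_castSucc, h]
  by_cases hij : i = j
  · subst hij
    simp
  · rw [Matrix.one_apply_ne hij]
    simp

omit [Infinite K] in
theorem Br_tw (t : Fin m → K) (lam : Fin (m + 1) → ℕ) :
    tw (Fin.snoc (α := fun _ => K) t 1) lam = tw t (fun i => lam i.castSucc) := by
  unfold tw
  rw [Fin.prod_univ_castSucc]
  simp

omit [Infinite K] in
theorem Br_emb_dg (c : Fin (m + 1) → ℕ) (t : Fin m → K) :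
    emb c K (dg _ t) = dg c (Fin.snoc (α := fun _ => K) t 1) := by
  apply Subtype.ext
  show embM (Matrix.diagonal t) = Matrix.diagonal (Fin.snoc (α := fun _ => K) t 1)
  ext i j
  induction i using Fin.lastCases with
  | last =>
    induction j using Fin.lastCases with
    | last => simp
    | cast j => rw [embM_lc, Matrix.diagonal_apply_ne _ (Fin.castSucc_lt_last j).ne']
  | cast i =>
    induction j using Fin.lastCases with
    | last => rw [embM_cl, Matrix.diagonal_apply_ne _ (Fin.castSucc_lt_last i).ne]
    | cast j =>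
      rw [embM_cc]
      by_cases hij : i = j
      · subst hij
        simp
      · rw [Matrix.diagonal_apply_ne _ hij, Matrix.diagonal_apply_ne]
        intro h
        exact hij (Fin.castSucc_injective _ h)

/-- a lower unitriangular matrix is `lrow r * emb g'` -/
theorem Br_split (c : Fin (m + 1) → ℕ) (g : Blk c K) (hg : IsLo g) :
    ∃ (r : Fin m → K) (g' : Blk (fun i => c i.castSucc) K), IsLo g' ∧
      g = lrow c r * emb c K g' := by
  let G : Matrix (Fin m) (Fin m) K := Matrix.of fun i j => g.1 i.castSucc j.castSucc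
  have hG : ∀ i j, G i j = g.1 i.castSucc j.castSucc := fun _ _ => rfl
  have hGb : ∀ i j : Fin m, c i.castSucc ≠ c j.castSucc → G i j = 0 := fun i j h => g.2 _ _ h
  let g' : Blk (fun i => c i.castSucc) K := ⟨G, hGb⟩
  have hg' : IsLo g' := ⟨fun i => hg.1 i.castSucc, fun i j hij =>
    hg.2 i.castSucc j.castSucc (Fin.castSucc_lt_castSucc_iff.2 hij)⟩
  have hdet : G.det = 1 := by
    rw [Matrix.det_of_isLowerTriangular G (fun i j hij => hg'.2 i j (by simpa using hij))]
    exact Finset.prod_eq_one fun i _ => hg'.1 i
  let R : Fin m → K := fun j => g.1 (Fin.last m) j.castSucc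
  let R' : Fin m → K := Matrix.vecMul R G⁻¹
  have hR : Matrix.vecMul R' G = R := by
    show Matrix.vecMul (Matrix.vecMul R G⁻¹) G = R
    rw [Matrix.vecMul_vecMul, Matrix.nonsing_inv_mul G (by rw [hdet]; exact isUnit_one),
      Matrix.vecMul_one]
  refine ⟨R', g', hg', ?_⟩
  apply Subtype.ext
  show g.1 = (lrow c R').1 * embM G
  ext i j
  rw [Matrix.mul_apply, Fin.sum_univ_castSucc]
  induction i using Fin.lastCases with
  | last =>
    induction j using Fin.lastCases with
    | last =>
      simp only [embM_cl, mul_zero, Finset.sum_const_zero, embM_ll, Br_ll, mul_one, zero_add]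
      exact hg.1 _
    | cast j =>
      simp only [embM_cc, embM_lc, mul_zero, add_zero, Br_lc]
      by_cases hj : c (Fin.last m) = c j.castSucc
      · have h1 := congrFun hR j
        have h2 : (Matrix.vecMul R' G) j = ∑ k, R' k * G k j := rfl
        rw [h2] at h1
        rw [show g.1 (Fin.last m) j.castSucc = R j from rfl, ← h1]
        apply Finset.sum_congr rfl
        intro k _
        by_cases hk : c (Fin.last m) = c k.castSucc
        · rw [if_pos hk]
        · rw [if_neg hk, zero_mul, hGb k j (fun h => hk (hj.trans h.symm)), mul_zero]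
      · rw [g.2 _ _ hj]
        symm
        apply Finset.sum_eq_zero
        intro k _
        by_cases hk : c (Fin.last m) = c k.castSucc
        · rw [hGb k j (fun h => hj (hk.trans h)), mul_zero]
        · rw [if_neg hk, zero_mul]
  | cast i =>
    induction j using Fin.lastCases with
    | last =>
      simp only [embM_cl, mul_zero, Finset.sum_const_zero, embM_ll, Br_cl, mul_one, add_zero]
      exact hg.2 _ _ (Fin.castSucc_lt_last i)
    | cast j =>
      simp only [embM_cc, embM_lc, mul_zero, add_zero, Br_cc]
      rw [← Matrix.mul_apply, Matrix.one_mul]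
      rfl

/-- PROOF.  A lower unitriangular `g` is `lrow r' * emb g'`, `r' = r g'⁻¹`; and `F (Z * emb g') = F Z`.  So by `blk_dense` `F` is determined by
`r ↦ F (lrow r)`. -/
theorem br_det (c : Fin (m + 1) → ℕ) (lam : Fin (m + 1) → ℕ) (ν : Fin m → ℕ)
    (F : nabS c K lam) (hF : F ∈ (nabR c K lam).hs ν)
    (h : ∀ r : Fin m → K, F.1 (lrow c r) = 0) : F = 0 := by
  have hinv : ∀ (g' : Blk (fun i => c i.castSucc) K), IsLo g' → ∀ Z, F.1 (Z * emb c K g') = F.1 Z := by
    intro g' hg' Z
    have h1 := hF.2 g' hg'
    exact congrFun (congrArg Subtype.val h1) Z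
  apply Subtype.ext
  funext Z
  show F.1 Z = 0
  apply blk_dense c F.1 F.2.1
  intro u g t hu hg
  obtain ⟨r, g', hg', rfl⟩ := Br_split c g hg
  rw [mul_assoc, F.2.2.1 _ _ hu, F.2.2.2, hinv g' hg', h, mul_zero]

omit [Infinite K] in
/-- `lrow r * emb (dg t) = emb (dg t) * lrow (r t)` -/
theorem Br_lrow_dg (c : Fin (m + 1) → ℕ) (r t : Fin m → K) :
    lrow c r * emb c K (dg _ t) = emb c K (dg _ t) * lrow c (fun i => r i * t i) := by
  apply Subtype.ext
  show (lrow c r).1 * embM (Matrix.diagonal t) =
    embM (Matrix.diagonal t) * (lrow c (fun i => r i * t i)).1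
  ext i j
  rw [Matrix.mul_apply, Matrix.mul_apply, Fin.sum_univ_castSucc, Fin.sum_univ_castSucc]
  induction i using Fin.lastCases with
  | last =>
    induction j using Fin.lastCases with
    | last => simp [Br_ll, Br_cl]
    | cast j =>
      simp only [embM_cc, embM_lc, embM_ll, Br_lc, mul_zero, add_zero, zero_mul,
        Finset.sum_const_zero, zero_add, one_mul]
      rw [Finset.sum_eq_single j]
      · rw [Matrix.diagonal_apply_eq]
        split_ifs <;> simp
      · intro k _ hk
        rw [Matrix.diagonal_apply_ne _ hk, mul_zero]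
      · intro hj
        exact absurd (Finset.mem_univ j) hj
  | cast i =>
    induction j using Fin.lastCases with
    | last => simp [Br_cl]
    | cast j =>
      simp only [embM_cc, embM_lc, embM_cl, Br_cc, mul_zero, add_zero, zero_mul]
      rw [← Matrix.mul_apply, ← Matrix.mul_apply, Matrix.one_mul, Matrix.mul_one]

/-- `lrow r * emb (dg t) = emb (dg t) * lrow (r t)` -/
theorem lrow_dg (c : Fin (m + 1) → ℕ) (r t : Fin m → K) :
    lrow c r * emb c K (dg _ t) = emb c K (dg _ t) * lrow c (fun i => r i * t i) :=
  Br_lrow_dg c r t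

theorem Br_key (c : Fin (m + 1) → ℕ) (lam : Fin (m + 1) → ℕ) (ν : Fin m → ℕ)
    (F : nabS c K lam) (hF : F ∈ (nabR c K lam).hs ν) (r t : Fin m → K) :
    tw t (fun i => lam i.castSucc) * F.1 (lrow c (fun i => r i * t i)) =
      tw t ν * F.1 (lrow c r) := by
  have h1 : F.1 (lrow c r * emb c K (dg _ t)) = tw t ν * F.1 (lrow c r) :=
    congrFun (congrArg Subtype.val (hF.1 t)) (lrow c r)
  rw [lrow_dg, Br_emb_dg, F.2.2.2, Br_tw] at h1
  exact h1

theorem Br_poly (c : Fin (m + 1) → ℕ) (lam : Fin (m + 1) → ℕ) (F : nabS c K lam) :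
    (fun r : Fin m → K => F.1 (lrow c r)) ∈ PolyFn (fun y : Fin m → K => y) := by
  apply comp_mem (crd c K) (fun y : Fin m → K => y) (fun r => lrow c r) _ F.1 F.2.1
  rintro ⟨i, j⟩
  show (fun r : Fin m → K => (lrow c r).1 i j) ∈ _
  induction i using Fin.lastCases with
  | last =>
    induction j using Fin.lastCases with
    | last =>
      simp only [Br_ll]
      exact const_mem _ 1
    | cast j =>
      simp only [Br_lc]
      by_cases hj : c (Fin.last m) = c j.castSucc
      · simp only [if_pos hj]
        exact coord_mem (fun y : Fin m → K => y) j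
      · simp only [if_neg hj]
        exact const_mem _ 0
  | cast i =>
    induction j using Fin.lastCases with
    | last =>
      simp only [Br_cl]
      exact const_mem _ 0
    | cast j =>
      simp only [Br_cc]
      exact const_mem _ _

omit [Infinite K] in
theorem Br_tw_poly (κ : Fin m → ℕ) :
    (fun t : Fin m → K => tw t κ) ∈ PolyFn (fun y : Fin m → K => y) := by
  have h : (fun t : Fin m → K => tw t κ) = ∏ i, (fun t : Fin m → K => t i) ^ κ i := by
    funext t
    rw [Finset.prod_apply]
    rfl
  rw [h]
  exact Subalgebra.prod_mem _ fun i _ =>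
    Subalgebra.pow_mem _ (coord_mem (fun y : Fin m → K => y) i) _

/-- PROOF.  `φ(r) = F (lrow r)` is a polynomial function with `t^(λ') φ(r t) = t^ν φ(r)` (`lrow_dg`; `emb (dg t) = dg (t, 1)`, `λ' = λ ∘ castSucc`).
With `r = 1`: `t^(λ') φ(t) = t^ν φ(1)` (`φ` a polynomial): if `φ(1) ≠ 0` then `λ' i ≤ ν i` for all `i`
(put `t i = 0`, the others `1`), and `φ(t) = t^(ν - λ') φ(1)` for all `t`
(cancel `t^(λ')`, density); if `φ(1) = 0` then `φ(t) = 0` for all `t` with nonzero entries, hence `φ = 0`.  So `φ` is determined by `φ(1)`. -/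
theorem br_one (c : Fin (m + 1) → ℕ) (lam : Fin (m + 1) → ℕ) (ν : Fin m → ℕ)
    (F : nabS c K lam) (hF : F ∈ (nabR c K lam).hs ν)
    (h : F.1 (lrow c (fun _ => 1)) = 0) : F = 0 := by
  apply br_det c lam ν F hF
  intro r
  refine poly_mul_zero (fun r : Fin m → K => F.1 (lrow c r))
    (fun t : Fin m → K => tw t fun i => lam i.castSucc) (Br_poly c lam F) (Br_tw_poly _) ?_ ?_ r
  · intro t
    have h1 := Br_key c lam ν F hF (fun _ => 1) t
    simp only [one_mul] at h1
    rw [mul_comm, h1, h, mul_zero]
  · refine ⟨fun _ => 1, ?_⟩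
    simp [tw]

/-- from `br_one` -/
theorem br_le (c : Fin (m + 1) → ℕ) (lam : Fin (m + 1) → ℕ) (ν : Fin m → ℕ) :
    Module.finrank K ((nabR c K lam).hs ν) ≤ 1 := by
  let L : (nabR c K lam).hs ν →ₗ[K] K :=
    { toFun := fun F => (F.1 : nabS c K lam).1 (lrow c (fun _ => 1))
      map_add' := fun _ _ => rfl
      map_smul' := fun _ _ => rfl }
  have hL : Function.Injective L := by
    rw [← LinearMap.ker_eq_bot, LinearMap.ker_eq_bot']
    intro F hF0
    apply Subtype.ext
    exact br_one c lam ν F.1 F.2 hF0
  have h1 := LinearMap.finrank_le_finrank_of_injective hL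
  rwa [Module.finrank_self] at h1

omit [Infinite K] in
theorem Br_tw_update (κ : Fin m → ℕ) (i : Fin m) (s : K) :
    tw (Function.update (fun _ => (1 : K)) i s) κ = s ^ κ i := by
  unfold tw
  rw [Finset.prod_eq_single i]
  · rw [Function.update_self]
  · intro j _ hj
    rw [Function.update_of_ne hj, one_pow]
  · intro hi
    exact absurd (Finset.mem_univ i) hi

omit [Infinite K] in
theorem Br_evalP (i : Fin m) (s : K) (q : MvPolynomial (Fin m) K) :
    Polynomial.eval s (MvPolynomial.aeval
      (fun j : Fin m => if j = i then (Polynomial.X : Polynomial K) else 1) q) =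
    MvPolynomial.eval (Function.update (fun _ => (1 : K)) i s) q := by
  induction q using MvPolynomial.induction_on with
  | C a => simp
  | add p q hp hq => simp only [map_add, Polynomial.eval_add, hp, hq]
  | mul_X p j hp =>
    simp only [map_mul, Polynomial.eval_mul, hp, MvPolynomial.aeval_X, MvPolynomial.eval_X]
    congr 1
    simp only [Function.update_apply]
    split_ifs <;> simp

/-- PROOF.  See `br_one`: `t^(λ') φ(t) = t^ν φ(1)`, `φ(1) ≠ 0`.  Put `t i = 0`, the others `1`: if `λ' i > 0` then `ν i > 0`...; more precisely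
`t i = s`, the others `1`: `s^(λ' i) p(s) = s^(ν i) φ(1)` with a polynomial `p`, so `λ' i ≤ ν i`.
If `c i.castSucc ≠ c last` then `lrow r` does not depend on `r i`, so `p(s) = φ(1)` and `λ' i = ν i`. -/
theorem br_low (c : Fin (m + 1) → ℕ) (lam : Fin (m + 1) → ℕ) (ν : Fin m → ℕ)
    (F : nabS c K lam) (hF : F ∈ (nabR c K lam).hs ν) (h0 : F.1 (lrow c (fun _ => 1)) ≠ 0)
    (i : Fin m) : lam i.castSucc ≤ ν i ∧ (c i.castSucc ≠ c (Fin.last m) → ν i = lam i.castSucc) := by
  have hkey : ∀ s : K, s ^ lam i.castSucc *
      F.1 (lrow c (Function.update (fun _ => (1 : K)) i s)) =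
      s ^ ν i * F.1 (lrow c (fun _ => 1)) := by
    intro s
    have h1 := Br_key c lam ν F hF (fun _ => 1) (Function.update (fun _ => (1 : K)) i s)
    rw [Br_tw_update, Br_tw_update] at h1
    simp only [one_mul] at h1
    exact h1
  constructor
  · by_contra hlt
    push Not at hlt
    obtain ⟨q, hq⟩ := (mem_PolyFn _ _).1 (Br_poly c lam F)
    let P : Polynomial K := MvPolynomial.aeval
      (fun j : Fin m => if j = i then (Polynomial.X : Polynomial K) else 1) q
    have hP : ∀ s : K, P.eval s =
        F.1 (lrow c (Function.update (fun _ => (1 : K)) i s)) := by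
      intro s
      rw [hq]
      exact Br_evalP i s q
    have hpoly : Polynomial.X ^ lam i.castSucc * P =
        Polynomial.X ^ ν i * Polynomial.C (F.1 (lrow c (fun _ => 1))) := by
      apply Polynomial.funext
      intro s
      simp only [Polynomial.eval_mul, Polynomial.eval_pow, Polynomial.eval_X, Polynomial.eval_C]
      rw [hP]
      exact hkey s
    have h2 := congrArg (fun p => Polynomial.coeff p (ν i)) hpoly
    simp only [Polynomial.coeff_X_pow_mul', if_neg (not_le.2 hlt), le_refl, if_true, Nat.sub_self,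
      Polynomial.coeff_C_zero] at h2
    exact h0 h2.symm
  · intro hc
    have hconst : ∀ s : K, lrow c (Function.update (fun _ => (1 : K)) i s) =
        lrow c (fun _ => 1) := by
      intro s
      apply Subtype.ext
      ext a b
      induction a using Fin.lastCases with
      | last =>
        induction b using Fin.lastCases with
        | last => rw [Br_ll, Br_ll]
        | cast b =>
          rw [Br_lc, Br_lc]
          by_cases hb : b = i
          · subst hb
            rw [if_neg hc.symm, if_neg hc.symm]
          · rw [Function.update_of_ne hb]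
      | cast a =>
        induction b using Fin.lastCases with
        | last => rw [Br_cl, Br_cl]
        | cast b => rw [Br_cc, Br_cc]
    have hpoly : Polynomial.X ^ lam i.castSucc * Polynomial.C (F.1 (lrow c (fun _ => 1))) =
        Polynomial.X ^ ν i * Polynomial.C (F.1 (lrow c (fun _ => 1))) := by
      apply Polynomial.funext
      intro s
      simp only [Polynomial.eval_mul, Polynomial.eval_pow, Polynomial.eval_X, Polynomial.eval_C]
      have h1 := hkey s
      rw [hconst] at h1
      exact h1
    have h2 := congrArg (fun p => Polynomial.coeff p (ν i)) hpoly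
    simp only [Polynomial.coeff_mul_C, Polynomial.coeff_X_pow, if_true, one_mul] at h2
    by_contra hne
    rw [if_neg hne, zero_mul] at h2
    exact h0 h2.symm

end Pool.PI34.A5

end

/-! ### part A5_Br1 -/
section

/-! PI34, block A5, file Br1: branching, the upper bounds. -/

set_option autoImplicit false

namespace Pool.PI34.A5

open Finset Matrix

variable {m : ℕ} {K : Type} [Field K] [Infinite K]

section entries

variable {K : Type} [Field K] {m : ℕ}

theorem Br1_dg_mul {n : ℕ} (c : Fin n → ℕ) (t : Fin n → K) (M : Blk c K) (a b : Fin n) :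
    (dg c t * M).1 a b = t a * M.1 a b := by
  change (Matrix.diagonal t * M.1) a b = _
  rw [Matrix.diagonal_mul]

theorem Br1_el_mul {n : ℕ} (c : Fin n → ℕ) (i j : Fin n) (h : c i = c j) (x : K) (M : Blk c K)
    (a b : Fin n) : (el c i j h x * M).1 a b = M.1 a b + if a = i then x * M.1 j b else 0 := by
  change ((1 + Matrix.single i j x) * M.1) a b = _
  rw [Matrix.add_mul, Matrix.add_apply, Matrix.one_mul]
  congr 1
  by_cases ha : a = i
  · subst ha
    rw [if_pos rfl, Matrix.single_mul_apply_same]
  · rw [if_neg ha, Matrix.single_mul_apply_of_ne _ _ _ _ _ ha]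

theorem Br1_mul_el {n : ℕ} (c : Fin n → ℕ) (i j : Fin n) (h : c i = c j) (x : K) (M : Blk c K)
    (a b : Fin n) : (M * el c i j h x).1 a b = M.1 a b + if b = j then M.1 a i * x else 0 := by
  change (M.1 * (1 + Matrix.single i j x)) a b = _
  rw [Matrix.mul_add, Matrix.add_apply, Matrix.mul_one]
  congr 1
  by_cases hb : b = j
  · subst hb
    rw [if_pos rfl, Matrix.mul_single_apply_same]
  · rw [if_neg hb, Matrix.mul_single_apply_of_ne _ _ _ _ _ hb]

theorem Br1_emb_el (c : Fin (m + 1) → ℕ) (i j : Fin m) (h : c i.castSucc = c j.castSucc) (x : K) :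
    emb c K (el (fun a => c a.castSucc) i j h x) = el c i.castSucc j.castSucc h x := by
  refine Subtype.ext (Matrix.ext fun a b => ?_)
  change embM ((1 : Matrix (Fin m) (Fin m) K) + Matrix.single i j x) a b =
    ((1 : Matrix (Fin (m + 1)) (Fin (m + 1)) K) + Matrix.single i.castSucc j.castSucc x) a b
  rw [Matrix.add_apply]
  induction a using Fin.lastCases with
  | last =>
    rw [Matrix.single_apply_of_row_ne (by exact (Fin.castSucc_lt_last i).ne)]
    induction b using Fin.lastCases with
    | last => simp
    | cast b => simp [Matrix.one_apply, (Fin.castSucc_lt_last b).ne']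
  | cast a =>
    induction b using Fin.lastCases with
    | last =>
      rw [Matrix.single_apply_of_col_ne (hj := (Fin.castSucc_lt_last j).ne)]
      simp [Matrix.one_apply, (Fin.castSucc_lt_last a).ne]
    | cast b =>
      rw [embM_cc, Matrix.add_apply]
      simp [Matrix.one_apply, Matrix.single_apply, Fin.castSucc_inj]

theorem Br1_emb_dg (c : Fin (m + 1) → ℕ) (t : Fin m → K) :
    emb c K (dg (fun a => c a.castSucc) t) = dg c (Fin.snoc (α := fun _ => K) t 1) := by
  refine Subtype.ext (Matrix.ext fun a b => ?_)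
  change embM (Matrix.diagonal t) a b = Matrix.diagonal (Fin.snoc (α := fun _ => K) t 1) a b
  induction a using Fin.lastCases with
  | last =>
    induction b using Fin.lastCases with
    | last => simp
    | cast b => simp [Matrix.diagonal_apply, (Fin.castSucc_lt_last b).ne']
  | cast a =>
    induction b using Fin.lastCases with
    | last => simp [Matrix.diagonal_apply, (Fin.castSucc_lt_last a).ne]
    | cast b => simp [Matrix.diagonal_apply, Fin.castSucc_inj]

theorem Br1_lrow_ll (c : Fin (m + 1) → ℕ) (r : Fin m → K) :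
    (lrow c r).1 (Fin.last m) (Fin.last m) = 1 := by
  simp [lrow, bpr]

theorem Br1_lrow_lc (c : Fin (m + 1) → ℕ) (r : Fin m → K) (b : Fin m) :
    (lrow c r).1 (Fin.last m) b.castSucc = if c (Fin.last m) = c b.castSucc then r b else 0 := by
  simp [lrow, bpr]

theorem Br1_lrow_cc (c : Fin (m + 1) → ℕ) (r : Fin m → K) (a : Fin m) (b : Fin (m + 1)) :
    (lrow c r).1 a.castSucc b = if a.castSucc = b then 1 else 0 := by
  by_cases h : a.castSucc = b
  · subst h
    simp [lrow, bpr]
  · rw [if_neg h]
    simp [lrow, bpr, Matrix.one_apply, h]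

theorem Br1_tw_upd {n : ℕ} (i : Fin n) (x : K) (κ : Fin n → ℕ) :
    tw (Function.update (1 : Fin n → K) i x) κ = x ^ κ i := by
  unfold tw
  rw [Finset.prod_eq_single i]
  · rw [Function.update_self]
  · intro b _ hb
    rw [Function.update_of_ne hb, Pi.one_apply, one_pow]
  · intro h
    exact absurd (Finset.mem_univ i) h

theorem Br1_tw_upd2 {n : ℕ} (i j : Fin n) (hij : i ≠ j) (x y : K) (κ : Fin n → ℕ) :
    tw (Function.update (Function.update (1 : Fin n → K) i x) j y) κ = y ^ κ j * x ^ κ i := by
  have h1 : Function.update (Function.update (1 : Fin n → K) i x) j y =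
      fun a => Function.update (1 : Fin n → K) i x a * Function.update (1 : Fin n → K) j y a := by
    funext a
    by_cases ha : a = j
    · subst ha
      rw [Function.update_self, Function.update_self, Function.update_of_ne hij.symm,
        Pi.one_apply, one_mul]
    · rw [Function.update_of_ne ha, Function.update_of_ne ha, Pi.one_apply, mul_one]
  have h2 : tw (Function.update (Function.update (1 : Fin n → K) i x) j y) κ =
      tw (Function.update (1 : Fin n → K) i x) κ * tw (Function.update (1 : Fin n → K) j y) κ := by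
    rw [h1]
    unfold tw
    rw [← Finset.prod_mul_distrib]
    exact Finset.prod_congr rfl fun a _ => mul_pow _ _ _
  rw [h2, Br1_tw_upd, Br1_tw_upd, mul_comm]

theorem Br1_eval (p : MvPolynomial (Fin 1) K) (d : K) :
    (MvPolynomial.aeval (fun _ => (Polynomial.X : Polynomial K)) p).eval d =
      MvPolynomial.eval (fun _ => d) p := by
  induction p using MvPolynomial.induction_on with
  | C a => simp
  | add p q hp hq => simp [hp, hq]
  | mul_X p i hp => simp [hp]

theorem Br1_poly {n : ℕ} (c : Fin n → ℕ) (G : Blk c K → K) (hG : G ∈ PolyFn (crd c K))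
    (Zf : K → Blk c K) (hZ : ∀ ab, (fun d : Fin 1 → K => crd c K (Zf (d 0)) ab) ∈
      PolyFn (fun x : Fin 1 → K => x)) : ∃ p : Polynomial K, ∀ d, p.eval d = G (Zf d) := by
  have h1 := comp_mem (crd c K) (fun x : Fin 1 → K => x) (fun d => Zf (d 0)) hZ G hG
  obtain ⟨p, hp⟩ := (mem_PolyFn _ _).1 h1
  refine ⟨MvPolynomial.aeval (fun _ => (Polynomial.X : Polynomial K)) p, fun d => ?_⟩
  rw [Br1_eval]
  exact (hp (fun _ => d)).symm

end entries

theorem Br1_final (p : Polynomial K) (a b : ℕ) (x : K) (hx : x ≠ 0)
    (h : ∀ d : K, d ≠ 0 → p.eval d = d ^ a * (d⁻¹ ^ b * x)) : b ≤ a := by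
  by_contra hab
  have h1 := laurent_zero p (Polynomial.C x) (b - a) (by omega) (fun d hd => by
    rw [h d hd, Polynomial.eval_C, ← mul_assoc, ← pow_add, Nat.sub_add_cancel (by omega),
      ← mul_assoc, ← mul_pow, mul_inv_cancel₀ hd, one_pow, one_mul])
  exact hx (Polynomial.C_eq_zero.1 h1)

theorem Br1_lo (c : Fin (m + 1) → ℕ) (lam : Fin (m + 1) → ℕ) (ν : Fin m → ℕ)
    (F : nabS c K lam) (hF : F ∈ (nabR c K lam).hs ν) (g : Blk (fun a => c a.castSucc) K)
    (hg : IsLo g) (Z : Blk c K) : F.1 (Z * emb c K g) = F.1 Z :=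
  congrFun (congrArg Subtype.val (hF.2 g hg)) Z

theorem Br1_wt (c : Fin (m + 1) → ℕ) (lam : Fin (m + 1) → ℕ) (ν : Fin m → ℕ)
    (F : nabS c K lam) (hF : F ∈ (nabR c K lam).hs ν) (t : Fin m → K) (Z : Blk c K) :
    F.1 (Z * emb c K (dg _ t)) = tw t ν * F.1 Z :=
  congrFun (congrArg Subtype.val (hF.1 t)) Z

/-- the weight relation -/
theorem Br1_rel (c : Fin (m + 1) → ℕ) (lam : Fin (m + 1) → ℕ) (ν : Fin m → ℕ)
    (F : nabS c K lam) (hF : F ∈ (nabR c K lam).hs ν) (i : Fin m) (x : K) :
    x ^ lam i.castSucc * F.1 (lrow c (Function.update (1 : Fin m → K) i x)) =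
      x ^ ν i * F.1 (lrow c (fun _ => 1)) := by
  have h1 := Br1_wt c lam ν F hF (Function.update 1 i x) (lrow c (fun _ => 1))
  rw [lrow_dg, Br1_emb_dg, F.2.2.2, Br1_tw_upd] at h1
  have h2 : (Fin.snoc (α := fun _ => K) (Function.update (1 : Fin m → K) i x) 1 :
      Fin (m + 1) → K) = Function.update (1 : Fin (m + 1) → K) i.castSucc x := by
    funext a
    induction a using Fin.lastCases with
    | last =>
      rw [Fin.snoc_last, Function.update_of_ne (Fin.castSucc_lt_last i).ne', Pi.one_apply]
    | cast a =>
      rw [Fin.snoc_castSucc]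
      by_cases ha : a = i
      · subst ha
        rw [Function.update_self, Function.update_self]
      · rw [Function.update_of_ne ha, Function.update_of_ne (fun h => ha
          (Fin.castSucc_injective _ h)), Pi.one_apply, Pi.one_apply]
  rw [h2, Br1_tw_upd] at h1
  have h3 : (fun a => (fun _ => (1 : K)) a * Function.update (1 : Fin m → K) i x a) =
      Function.update (1 : Fin m → K) i x := by
    funext a
    rw [one_mul]
  rw [h3] at h1
  exact h1

/-- PROOF.  `i < j < last` of the color of `last`.  Let `Z_d = [1, 0; r, 1] * ...` be the identity with the block `[[0,1],[-1,d]]` at `(i, j)` and the last row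
`r j' = 1` for `j' ≠ i` in the class, `r i = 0`, last entry `1`.  Then for `d ≠ 0`
`Z_d = el i j (1/d) * dg (.., 1/d at i, d at j, ..) * lrow (r') * emb (el j i (-1/d))` with `r' i = 1/d`, `r' j' = 1` for the others.  So
`F(Z_d) = d^(λ j - λ i) φ(r')`, and `φ(r') = d^(-(ν i - λ i)) φ(1)` by `t^(λ') φ(r t) = t^ν φ(r)`, so `F(Z_d) = d^(λ j) d^(-ν i) φ(1)`; the left side is
polynomial in `d` and `φ(1) ≠ 0`, so `ν i ≤ λ j` (`laurent_zero` with `a` constant and `e = ν i - λ j`). -/
theorem br_up1 (c : Fin (m + 1) → ℕ) (lam : Fin (m + 1) → ℕ) (ν : Fin m → ℕ)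
    (F : nabS c K lam) (hF : F ∈ (nabR c K lam).hs ν) (h0 : F.1 (lrow c (fun _ => 1)) ≠ 0)
    (i j : Fin m) (hij : i < j) (hi : c i.castSucc = c (Fin.last m))
    (hj : c j.castSucc = c (Fin.last m)) : ν i ≤ lam j.castSucc := by
  have hne : i.castSucc ≠ j.castSucc := fun h => hij.ne (Fin.castSucc_injective _ h)
  have hcij : c i.castSucc = c j.castSucc := hi.trans hj.symm
  let Zf : K → Blk c K := fun d => bpr c (Matrix.of fun a b =>
    if a = i.castSucc then (if b = j.castSucc then 1 else 0)
    else if a = j.castSucc then (if b = i.castSucc then -1 else if b = j.castSucc then d else 0)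
    else if a = Fin.last m then (if b = i.castSucc then 0 else 1)
    else if a = b then 1 else 0)
  have hpoly : ∀ ab, (fun d : Fin 1 → K => crd c K (Zf (d 0)) ab) ∈
      PolyFn (fun x : Fin 1 → K => x) := by
    rintro ⟨a, b⟩
    change (fun d : Fin 1 → K => if c a = c b then
      (if a = i.castSucc then (if b = j.castSucc then 1 else 0)
      else if a = j.castSucc then (if b = i.castSucc then -1
        else if b = j.castSucc then d 0 else 0)
      else if a = Fin.last m then (if b = i.castSucc then 0 else 1)
      else if a = b then 1 else 0) else 0) ∈ _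
    split_ifs
    all_goals first
      | exact const_mem _ _
      | exact coord_mem (fun x : Fin 1 → K => x) 0
  obtain ⟨p, hp⟩ := Br1_poly c F.1 F.2.1 Zf hpoly
  have hZ : ∀ d : K, d ≠ 0 → Zf d = el c i.castSucc j.castSucc hcij d⁻¹ *
      (dg c (Function.update (Function.update (1 : Fin (m + 1) → K) i.castSucc d⁻¹) j.castSucc d) *
      (lrow c (Function.update (1 : Fin m → K) i d⁻¹) *
        emb c K (el (fun a => c a.castSucc) j i hcij.symm (-d⁻¹)))) := by
    intro d hd
    refine Subtype.ext (Matrix.ext fun a b => ?_)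
    rw [Br1_el_mul, Br1_dg_mul, Br1_dg_mul, Br1_emb_el, Br1_mul_el, Br1_mul_el]
    change (if c a = c b then (if a = i.castSucc then (if b = j.castSucc then 1 else 0)
      else if a = j.castSucc then (if b = i.castSucc then -1 else if b = j.castSucc then d else 0)
      else if a = Fin.last m then (if b = i.castSucc then 0 else 1)
      else if a = b then 1 else 0) else 0) = _
    have hil : Fin.last m ≠ i.castSucc := (Fin.castSucc_lt_last i).ne'
    have hjl : Fin.last m ≠ j.castSucc := (Fin.castSucc_lt_last j).ne'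
    induction a using Fin.lastCases with
    | last =>
      rw [if_neg hil, if_neg hjl, if_pos rfl, if_neg hil, Function.update_of_ne hjl,
        Function.update_of_ne hil, Pi.one_apply, one_mul, add_zero]
      induction b using Fin.lastCases with
      | last => rw [if_pos rfl, if_neg hil, if_neg hil, Br1_lrow_ll, add_zero]
      | cast b =>
        rw [Br1_lrow_lc, Br1_lrow_lc, if_pos hj.symm, Function.update_of_ne hij.ne']
        by_cases hb : b = i
        · subst hb
          simp only [if_pos hi.symm, if_true, Function.update_self, Pi.one_apply, if_pos rfl]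
          ring
        · have hb' : b.castSucc ≠ i.castSucc := fun h => hb (Fin.castSucc_injective _ h)
          rw [if_neg hb', if_neg hb', Function.update_of_ne hb, Pi.one_apply, add_zero]
    | cast a =>
      rw [Br1_lrow_cc, Br1_lrow_cc, Br1_lrow_cc, Br1_lrow_cc, if_neg (Fin.castSucc_lt_last a).ne]
      by_cases ha : a = i
      · subst ha
        rw [if_pos rfl, if_pos rfl, Function.update_of_ne hne, Function.update_self,
          Function.update_self, if_neg hne, if_pos rfl]
        by_cases hb1 : b = a.castSucc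
        · subst hb1
          simp only [if_true, if_neg hne, if_neg hne.symm]
          have hdd : d * d⁻¹ = 1 := mul_inv_cancel₀ hd
          linear_combination d⁻¹ * hdd
        · by_cases hb2 : b = j.castSucc
          · subst hb2
            simp only [if_pos hcij, if_true, if_neg hne, if_neg hb1]
            have hdd : d * d⁻¹ = 1 := mul_inv_cancel₀ hd
            linear_combination -hdd
          · rw [if_neg hb2, if_neg (Ne.symm hb1), if_neg hb1, if_neg (Ne.symm hb2), if_neg hb1,
              ite_self]
            ring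
      · have ha' : a.castSucc ≠ i.castSucc := fun h => ha (Fin.castSucc_injective _ h)
        rw [if_neg ha', if_neg ha', add_zero]
        by_cases ha2 : a = j
        · subst ha2
          rw [if_pos rfl, Function.update_self, if_pos rfl]
          by_cases hb1 : b = i.castSucc
          · subst hb1
            rw [if_pos hcij.symm, if_pos rfl, if_neg hne.symm, if_pos rfl]
            field_simp
            ring
          · by_cases hb2 : b = a.castSucc
            · subst hb2
              rw [if_pos rfl, if_neg hb1, if_pos rfl, if_pos rfl, if_neg hb1]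
              ring
            · rw [if_neg hb1, if_neg hb2, if_neg (Ne.symm hb2), if_neg hb1, ite_self]
              ring
        · have ha3 : a.castSucc ≠ j.castSucc := fun h => ha2 (Fin.castSucc_injective _ h)
          rw [if_neg ha3, Function.update_of_ne ha3, Function.update_of_ne ha', Pi.one_apply,
            one_mul, if_neg ha3, zero_mul, ite_self, add_zero]
          by_cases hb : a.castSucc = b
          · rw [if_pos hb, if_pos (by rw [hb])]
          · rw [if_neg hb, ite_self]
  refine Br1_final p (lam j.castSucc) (ν i) _ h0 fun d hd => ?_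
  have hup : IsUp (el c i.castSucc j.castSucc hcij d⁻¹) := by
    constructor
    · intro a
      change (1 + Matrix.single i.castSucc j.castSucc d⁻¹ : Matrix _ _ K) a a = 1
      rw [Matrix.add_apply, Matrix.one_apply_eq, Matrix.single_apply_of_ne, add_zero]
      rintro ⟨h1, h2⟩
      exact hne (h1.trans h2.symm)
    · intro a b hba
      change (1 + Matrix.single i.castSucc j.castSucc d⁻¹ : Matrix _ _ K) a b = 0
      rw [Matrix.add_apply, Matrix.one_apply_ne hba.ne', Matrix.single_apply_of_ne, add_zero]
      rintro ⟨h1, h2⟩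
      rw [← h1, ← h2] at hba
      exact absurd hba (not_lt.2 (Fin.castSucc_le_castSucc_iff.2 hij.le))
  have hlo : IsLo (el (fun a : Fin m => c a.castSucc) j i hcij.symm (-d⁻¹)) := by
    constructor
    · intro a
      change (1 + Matrix.single j i (-d⁻¹) : Matrix _ _ K) a a = 1
      rw [Matrix.add_apply, Matrix.one_apply_eq, Matrix.single_apply_of_ne, add_zero]
      rintro ⟨h1, h2⟩
      exact hij.ne (h2.trans h1.symm)
    · intro a b hab
      change (1 + Matrix.single j i (-d⁻¹) : Matrix _ _ K) a b = 0
      rw [Matrix.add_apply, Matrix.one_apply_ne hab.ne, Matrix.single_apply_of_ne, add_zero]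
      rintro ⟨h1, h2⟩
      rw [← h1, ← h2] at hab
      exact absurd hab (not_lt.2 hij.le)
  rw [hp d, hZ d hd, F.2.2.1 _ _ hup, F.2.2.2, Br1_lo c lam ν F hF _ hlo,
    Br1_tw_upd2 _ _ hne, mul_assoc, Br1_rel c lam ν F hF i d⁻¹]

/-- PROOF.  `j = last`.  `Z_d` := the identity matrix with the row `i` replaced by `(-1` at the `j' ≠ i`, `j' < last` in the class, `0` at `i`, `-1` at
`last)` and the row `last` replaced by `(d` at the `j' ≠ i` in the class, `1` at `i`, `d` at `last)`.  For `d ≠ 0`:
`Z_d = el i last (-1/d) * dg (.., 1/d at i, d at last) * lrow r'`, `r' i = 1/d`, `r' j' = 1` for the others.  So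
`F(Z_d) = d^(λ last - λ i) φ(r') = d^(λ last - ν i) φ(1)`, hence `ν i ≤ λ last`. -/
theorem br_up2 (c : Fin (m + 1) → ℕ) (lam : Fin (m + 1) → ℕ) (ν : Fin m → ℕ)
    (F : nabS c K lam) (hF : F ∈ (nabR c K lam).hs ν) (h0 : F.1 (lrow c (fun _ => 1)) ≠ 0)
    (i : Fin m) (hi : c i.castSucc = c (Fin.last m)) : ν i ≤ lam (Fin.last m) := by
  have hil : i.castSucc ≠ Fin.last m := (Fin.castSucc_lt_last i).ne
  let Zf : K → Blk c K := fun d => bpr c (Matrix.of fun a b =>
    if a = i.castSucc then (if b = i.castSucc then 0 else -1)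
    else if a = Fin.last m then (if b = i.castSucc then 1 else d)
    else if a = b then 1 else 0)
  have hpoly : ∀ ab, (fun d : Fin 1 → K => crd c K (Zf (d 0)) ab) ∈
      PolyFn (fun x : Fin 1 → K => x) := by
    rintro ⟨a, b⟩
    change (fun d : Fin 1 → K => if c a = c b then
      (if a = i.castSucc then (if b = i.castSucc then 0 else -1)
      else if a = Fin.last m then (if b = i.castSucc then 1 else d 0)
      else if a = b then 1 else 0) else 0) ∈ _
    split_ifs
    all_goals first
      | exact const_mem _ _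
      | exact coord_mem (fun x : Fin 1 → K => x) 0
  obtain ⟨p, hp⟩ := Br1_poly c F.1 F.2.1 Zf hpoly
  have hZ : ∀ d : K, d ≠ 0 → Zf d = el c i.castSucc (Fin.last m) hi (-d⁻¹) *
      (dg c (Function.update (Function.update (1 : Fin (m + 1) → K) i.castSucc d⁻¹)
        (Fin.last m) d) * lrow c (Function.update (1 : Fin m → K) i d⁻¹)) := by
    intro d hd
    refine Subtype.ext (Matrix.ext fun a b => ?_)
    rw [Br1_el_mul, Br1_dg_mul, Br1_dg_mul]
    change (if c a = c b then (if a = i.castSucc then (if b = i.castSucc then 0 else -1)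
      else if a = Fin.last m then (if b = i.castSucc then 1 else d)
      else if a = b then 1 else 0) else 0) = _
    induction a using Fin.lastCases with
    | last =>
      rw [if_neg hil.symm, if_pos rfl, if_neg hil.symm, add_zero, Function.update_self]
      induction b using Fin.lastCases with
      | last => rw [if_pos rfl, if_neg hil.symm, Br1_lrow_ll, mul_one]
      | cast b =>
        rw [Br1_lrow_lc]
        by_cases hb : b = i
        · subst hb
          rw [if_pos hi.symm, if_pos rfl, if_pos hi.symm, Function.update_self,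
            mul_inv_cancel₀ hd]
        · have hb' : b.castSucc ≠ i.castSucc := fun h => hb (Fin.castSucc_injective _ h)
          rw [if_neg hb', Function.update_of_ne hb, Pi.one_apply]
          split_ifs <;> simp
    | cast a =>
      rw [Br1_lrow_cc, if_neg (Fin.castSucc_lt_last a).ne,
        Function.update_of_ne (Fin.castSucc_lt_last a).ne]
      by_cases ha : a = i
      · subst ha
        rw [if_pos rfl, if_pos rfl, Function.update_self, Function.update_self]
        induction b using Fin.lastCases with
        | last =>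
          rw [if_pos hi, if_neg hil.symm, if_neg hil, Br1_lrow_ll]
          field_simp
          ring
        | cast b =>
          rw [Br1_lrow_lc]
          by_cases hb : b = a
          · subst hb
            rw [if_pos rfl, if_pos rfl, if_pos rfl, if_pos hi.symm, Function.update_self]
            field_simp
            ring
          · have hb' : b.castSucc ≠ a.castSucc := fun h => hb (Fin.castSucc_injective _ h)
            rw [if_neg hb', if_neg (Ne.symm hb'), Function.update_of_ne hb, Pi.one_apply, hi]
            split_ifs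
            · field_simp
              ring
            · ring
      · have ha' : a.castSucc ≠ i.castSucc := fun h => ha (Fin.castSucc_injective _ h)
        rw [if_neg ha', if_neg ha', add_zero, Function.update_of_ne ha', Pi.one_apply, one_mul]
        by_cases hb : a.castSucc = b
        · rw [if_pos hb, if_pos (by rw [hb])]
        · rw [if_neg hb, ite_self]
  refine Br1_final p (lam (Fin.last m)) (ν i) _ h0 fun d hd => ?_
  have hup : IsUp (el c i.castSucc (Fin.last m) hi (-d⁻¹)) := by
    constructor
    · intro a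
      change (1 + Matrix.single i.castSucc (Fin.last m) (-d⁻¹) : Matrix _ _ K) a a = 1
      rw [Matrix.add_apply, Matrix.one_apply_eq, Matrix.single_apply_of_ne, add_zero]
      rintro ⟨h1, h2⟩
      exact hil (h1.trans h2.symm)
    · intro a b hba
      change (1 + Matrix.single i.castSucc (Fin.last m) (-d⁻¹) : Matrix _ _ K) a b = 0
      rw [Matrix.add_apply, Matrix.one_apply_ne hba.ne', Matrix.single_apply_of_ne, add_zero]
      rintro ⟨h1, h2⟩
      rw [← h1, ← h2] at hba
      exact absurd hba (not_lt.2 (Fin.le_last _))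
  rw [hp d, hZ d hd, F.2.2.1 _ _ hup, F.2.2.2, Br1_tw_upd2 _ _ hil, mul_assoc,
    Br1_rel c lam ν F hF i d⁻¹]

end Pool.PI34.A5

end

/-! ### part A5_Br2 -/
section

/-! PI34, block A5, file Br2: dimension of `nab λ`, and T4. -/

set_option autoImplicit false

namespace Pool.PI34.A5

open Finset Matrix

variable {K : Type} [Field K] [Infinite K]

/-- from `br_one`, `br_low`, `br_up1` (`j` = successor of `i`, if it is not `last`), `br_up2`; `c` is monotone, so `i.succ` has the color of `last` -/
theorem br_zero {m : ℕ} (c : Fin (m + 1) → ℕ) (hc : Monotone c) (lam : Fin (m + 1) → ℕ)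
    (ν : Fin m → ℕ) (h : ν ∉ il c lam) : (nabR c K lam).hs ν = ⊥ := by
  by_contra hne
  obtain ⟨F, hF, hF0⟩ := (Submodule.ne_bot_iff _).1 hne
  have h0 : (show nabS c K lam from F).1 (lrow c (fun _ => 1)) ≠ 0 := fun h1 =>
    hF0 (br_one c lam ν F hF h1)
  apply h
  refine Fintype.mem_piFinset.2 fun i => ?_
  have hl := br_low c lam ν F hF h0 i
  by_cases hi : c i.castSucc = c (Fin.last m)
  · rw [if_pos hi, Finset.mem_Icc]
    refine ⟨hl.1, ?_⟩
    by_cases hs : i.succ = Fin.last m
    · rw [hs]
      exact br_up2 c lam ν F hF h0 i hi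
    · obtain ⟨j, hj⟩ := Fin.exists_castSucc_eq.2 hs
      rw [← hj]
      have hij : i < j := by
        have h1 : (j.castSucc : ℕ) = (i.succ : ℕ) := by rw [hj]
        rw [Fin.val_castSucc, Fin.val_succ] at h1
        exact Fin.lt_def.2 (by omega)
      refine br_up1 c lam ν F hF h0 i j hij hi (le_antisymm (hc (Fin.le_last _)) ?_)
      rw [← hi]
      exact hc (Fin.castSucc_le_castSucc_iff.2 hij.le)
  · rw [if_neg hi, Finset.mem_singleton]
    exact hl.2 hi

/-- PROOF.  Induction on `m`.  `m = 0`: `Blk` is a point, `Dt = 1`.  Step: by induction and `T4_of` for `c ∘ castSucc`,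
`finrank (nabS λ) = finrank (nabR λ).V ≤ chi (nabR λ) = ∑_(ν ∈ il c λ) finrank (hs ν) Dt ν ≤ ∑_(ν ∈ il c λ) Dt ν = Dt c λ`
(`br_zero`, `chi_eq_sum`, `br_le`, `Dt_pos` with `il_dom`, `Dt_branch`). -/
theorem nab_le {m : ℕ} (c : Fin m → ℕ) (hc : Monotone c) (lam : Fin m → ℕ) (h : Dom c lam) :
    (Module.finrank K (nabS c K lam) : ℤ) ≤ Dt c lam := by
  induction m with
  | zero =>
    have h1 : Dt c lam = 1 := Matrix.det_fin_zero
    rw [h1]
    have hsub : Subsingleton (Blk c K) :=
      ⟨fun Z W => Subtype.ext (Matrix.ext fun i => i.elim0)⟩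
    have h2 : Module.finrank K (Blk c K → K) = 1 := by
      letI : Fintype (Blk c K) := Fintype.ofSubsingleton 1
      rw [Module.finrank_fintype_fun_eq_card]
      exact Fintype.card_ofSubsingleton (1 : Blk c K)
    have hfd : FiniteDimensional K (Blk c K → K) := by
      letI : Fintype (Blk c K) := Fintype.ofSubsingleton 1
      infer_instance
    have h3 := Submodule.finrank_le (nabS c K lam)
    rw [h2] at h3
    exact_mod_cast h3
  | succ m ih =>
    have hc' : Monotone (fun i : Fin m => c i.castSucc) := fun i j hij =>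
      hc (Fin.castSucc_le_castSucc_iff.2 hij)
    have h1 : (Module.finrank K (nabR c K lam).V : ℤ) ≤ chi (nabR c K lam) :=
      T4_of hc' (fun l hl => ih _ hc' l hl) (nabR c K lam)
    have h2 : chi (nabR c K lam) ≤ Dt c lam := by
      rw [chi_eq_sum (nabR c K lam) (il c lam) (fun κ hκ => br_zero c hc lam κ hκ),
        Dt_branch c lam hc h]
      refine Finset.sum_le_sum fun ν hν => ?_
      have h3 : (Module.finrank K ((nabR c K lam).hs ν) : ℤ) ≤ 1 := by
        exact_mod_cast br_le c lam ν
      have h4 : 0 < Dt (fun i : Fin m => c i.castSucc) ν :=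
        Dt_pos _ ν hc' (il_dom c lam hc h ν hν)
      calc _ ≤ 1 * Dt (fun i : Fin m => c i.castSucc) ν := mul_le_mul_of_nonneg_right h3 h4.le
        _ = _ := one_mul _
    exact h1.trans h2

theorem T4 {m : ℕ} (c : Fin m → ℕ) (hc : Monotone c) (M : PRep c K) :
    (Module.finrank K M.V : ℤ) ≤ chi M :=
  T4_of hc (fun lam h => nab_le c hc lam h) M

end Pool.PI34.A5

end

/-! ### part A5_T5 -/
section

/-! PI34, block A5, file T5: exterior powers of good representations are good. -/

set_option autoImplicit false

namespace Pool.PI34.A5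

open Finset Matrix

variable {m : ℕ} {c : Fin m → ℕ} {K : Type} [Field K] [Infinite K]

/-- PROOF.  `chi (altI M a) = ∑_(κ dominant) finrank (hs κ) Dt κ ≤ ∑_(κ dominant) ∑_S [1_S ≤ κ] finrank (M.hs (κ - 1_S)) Dt κ` (`alt_hs_le`, `hs_nondom`, `Dt_pos`)
`= ∑_(μ ∈ M.W) finrank (M.hs μ) ∑_(S, μ + 1_S dominant) Dt (μ + 1_S)` (`κ = μ + 1_S`)
`= ∑_μ finrank (M.hs μ) ∑_S Dt (μ + 1_S)` (`hs_nondom` for non dominant `μ`, `Dt_nondom` for dominant `μ`) `= C(m,a) chi M` (`Dt_pieri`). -/
theorem chi_alt_le (hc : Monotone c) (M : PRep c K) (a : ℕ) :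
    chi (altI M a) ≤ (m.choose a : ℤ) * chi M := by
  classical
  set SS := powersetCard a (univ : Finset (Fin m)) with hSS
  set W : Finset (Fin m → ℕ) := (altI M a).W ∪
    (M.W ×ˢ SS).image (fun x => fun i => x.1 i + ind x.2 i) with hW
  have hbot : ∀ (N : PRep c K) (κ : Fin m → ℕ), N.hs κ = ⊥ →
      (Module.finrank K (N.hs κ) : ℤ) = 0 := by
    intro N κ h
    rw [h, finrank_bot]
    rfl
  have e1 : chi (altI M a) = ∑ κ ∈ W, (Module.finrank K ((altI M a).hs κ) : ℤ) * Dt c κ :=
    chi_eq_sum _ W fun κ hκ => hs_W _ κ fun h => hκ (by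
      rw [hW]
      exact Finset.mem_union_left _ h)
  have e2 : chi M = ∑ μ ∈ M.W, (Module.finrank K (M.hs μ) : ℤ) * Dt c μ :=
    chi_eq_sum _ _ fun κ hκ => hs_W _ κ hκ
  -- the terms of the non dominant weights vanish
  have e3 : chi (altI M a) = ∑ κ ∈ W.filter (fun κ => Dom c κ),
      (Module.finrank K ((altI M a).hs κ) : ℤ) * Dt c κ := by
    rw [e1]
    symm
    apply Finset.sum_subset (Finset.filter_subset _ _)
    intro κ hκ hn
    have hd : ¬ Dom c κ := fun h => hn (Finset.mem_filter.2 ⟨hκ, h⟩)
    rw [hbot _ _ (hs_nondom _ κ hd), zero_mul]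
  have e4 : chi (altI M a) ≤ ∑ κ ∈ W.filter (fun κ => Dom c κ), ∑ S ∈ SS,
      (if ∀ i, ind S i ≤ κ i then (Module.finrank K (M.hs (fun i => κ i - ind S i)) : ℤ) else 0) *
        Dt c κ := by
    rw [e3]
    refine Finset.sum_le_sum fun κ hκ => ?_
    rw [← Finset.sum_mul]
    refine mul_le_mul_of_nonneg_right ?_ (Dt_pos c κ hc (Finset.mem_filter.1 hκ).2).le
    have := alt_hs_le M a κ
    have h2 : ((Module.finrank K ((altI M a).hs κ) : ℕ) : ℤ) ≤
        ((∑ S ∈ powersetCard a (univ : Finset (Fin m)),
          if ∀ i, ind S i ≤ κ i then Module.finrank K (M.hs (fun i => κ i - ind S i)) else 0 : ℕ) : ℤ) := by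
      exact_mod_cast this
    refine h2.trans (le_of_eq ?_)
    push_cast
    exact Finset.sum_congr rfl fun S _ => by split_ifs <;> simp
  refine e4.trans (le_of_eq ?_)
  rw [Finset.sum_comm]
  have e5 : ∀ S ∈ SS, ∑ κ ∈ W.filter (fun κ => Dom c κ),
      (if ∀ i, ind S i ≤ κ i then (Module.finrank K (M.hs (fun i => κ i - ind S i)) : ℤ) else 0) *
        Dt c κ = ∑ μ ∈ M.W, (Module.finrank K (M.hs μ) : ℤ) * Dt c (fun i => μ i + ind S i) := by
    intro S hS
    symm
    refine Finset.sum_bij_ne_zero (fun μ _ _ => fun i => μ i + ind S i) ?_ ?_ ?_ ?_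
    · intro μ hμ hne
      rw [Finset.mem_filter]
      constructor
      · rw [hW]
        apply Finset.mem_union_right
        rw [Finset.mem_image]
        exact ⟨(μ, S), Finset.mem_product.2 ⟨hμ, hS⟩, rfl⟩
      · by_contra hn
        apply hne
        by_cases hd : Dom c μ
        · rw [Dt_nondom c μ S hd hn, mul_zero]
        · rw [hbot _ _ (hs_nondom _ μ hd), zero_mul]
    · intro μ _ _ μ' _ _ h
      funext i
      have := congrFun h i
      simpa using this
    · intro κ hκ hne
      have hle : ∀ i, ind S i ≤ κ i := by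
        by_contra hn
        apply hne
        rw [if_neg hn, zero_mul]
      have hk : (fun i => (κ i - ind S i) + ind S i) = κ := by
        funext i
        exact Nat.sub_add_cancel (hle i)
      rw [if_pos hle] at hne
      have hne1 : (Module.finrank K (M.hs (fun i => κ i - ind S i)) : ℤ) ≠ 0 := left_ne_zero_of_mul hne
      refine ⟨fun i => κ i - ind S i, ?_, ?_, hk⟩
      · by_contra hn
        exact hne1 (hbot _ _ (hs_W _ _ hn))
      · show (Module.finrank K (M.hs fun i => κ i - ind S i) : ℤ) *
          Dt c (fun i => (κ i - ind S i) + ind S i) ≠ 0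
        rw [hk]
        exact hne
    · intro μ _ _
      have h1 : ∀ i, ind S i ≤ μ i + ind S i := fun i => Nat.le_add_left _ _
      have h2 : (fun i => μ i + ind S i - ind S i) = μ := by
        funext i
        exact Nat.add_sub_cancel _ _
      simp only [h1, implies_true, if_true]
      rw [h2]
  rw [Finset.sum_congr rfl e5, Finset.sum_comm, e2, Finset.mul_sum]
  refine Finset.sum_congr rfl fun μ _ => ?_
  rw [← Finset.mul_sum, hSS, Dt_pieri c μ a]
  ring

/-- `finrank (altI M a) = C(m,a) finrank M = C(m,a) chi M ≥ chi (altI M a)` and `T4`. -/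
theorem good_altI (hc : Monotone c) (M : PRep c K) (a : ℕ) (hM : Good M) : Good (altI M a) := by
  have h1 : Module.finrank K (altI M a).V = m.choose a * Module.finrank K M.V := by
    show Module.finrank K ((Fin m → K) [⋀^Fin a]→ₗ[K] M.V) = _
    rw [finrank_alt, Module.finrank_fin_fun]
  have h2 := T4 c hc (altI M a)
  have h3 := chi_alt_le hc M a
  unfold Good at hM ⊢
  rw [← hM] at h3
  have h4 : (Module.finrank K (altI M a).V : ℤ) = (m.choose a : ℤ) * (Module.finrank K M.V : ℤ) := by
    rw [h1]
    push_cast
    ring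
  exact le_antisymm h2 (by rw [h4]; exact h3)

end Pool.PI34.A5

end
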