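import Pool.Agent.LibPI54.M18

/-! ### part A5_G1 -/
section

/-! PI34, block A5, file G1: good representations, structure at the top weight. -/

set_option autoImplicit false

namespace Pool.PI34.A5

open Finset Matrix

variable {m : ℕ} {c : Fin m → ℕ} {K : Type} [Field K] [Infinite K]

omit [Infinite K] in
theorem finrank_ext (X Y Z : PRep c K) (i : X.V →ₗ[K] Y.V) (p : Y.V →ₗ[K] Z.V)
    (h : Ext X Y Z i p) :
    Module.finrank K Y.V = Module.finrank K X.V + Module.finrank K Z.V := by
  have h1 := LinearMap.finrank_range_add_finrank_ker p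
  rw [LinearMap.range_eq_top.2 h.surj, finrank_top, ← h.ex,
    LinearMap.finrank_range_of_inj h.inj] at h1
  omega

/-- PROOF.  `finrank Y = finrank X + finrank Z = chi X + chi Z ≥ chi Y` (`chi_ext`), and `T4`. -/
theorem good_ext (hc : Monotone c) (X Y Z : PRep c K) (i : X.V →ₗ[K] Y.V) (p : Y.V →ₗ[K] Z.V)
    (h : Ext X Y Z i p) (hX : Good X) (hZ : Good Z) : Good Y := by
  have h1 := finrank_ext X Y Z i p h
  have h2 := chi_ext hc X Y Z i p h
  have h3 := T4 c hc Y
  unfold Good at *
  rw [h1] at h3 ⊢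
  push_cast at h3 ⊢
  rw [hX, hZ] at h3 ⊢
  exact le_antisymm h3 h2

/-- PROOF.  `finrank_hom`, `hom_hs`, `chi_eq_sum` with `W = M.W`. -/
theorem chi_hom (M : PRep c K) (V : Type) [AddCommGroup V] [Module K V]
    [FiniteDimensional K V] : chi (M.hom V) = (Module.finrank K V : ℤ) * chi M := by
  have h1 : ∀ κ, κ ∉ M.W → (M.hom V).hs κ = ⊥ := by
    intro κ hκ
    rw [← Submodule.finrank_eq_zero (R := K), hom_hs, hs_W M κ hκ, finrank_bot, mul_zero]
  rw [chi_eq_sum (M.hom V) M.W h1, chi_eq_sum M M.W (fun κ hκ => hs_W M κ hκ), Finset.mul_sum]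
  refine Finset.sum_congr rfl fun κ _ => ?_
  rw [hom_hs]
  push_cast
  ring

theorem good_hom (M : PRep c K) (V : Type) [AddCommGroup V] [Module K V]
    [FiniteDimensional K V] (h : Good M) : Good (M.hom V) := by
  unfold Good at *
  rw [chi_hom, finrank_hom, ← h]
  push_cast
  ring

theorem good_of_hom (M : PRep c K) (V : Type) [AddCommGroup V] [Module K V]
    [FiniteDimensional K V] (hV : 0 < Module.finrank K V) (h : Good (M.hom V)) : Good M := by
  unfold Good at *
  rw [chi_hom, finrank_hom] at h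
  push_cast at h
  have h1 : (0 : ℤ) < (Module.finrank K V : ℤ) := by exact_mod_cast hV
  exact mul_left_cancel₀ h1.ne' h

theorem kth_V (M : PRep c K) (lam : Fin m → ℕ) (h : IsTop M lam) :
    Module.finrank K (kth M lam h).V = Module.finrank K (LinearMap.ker (theta M lam h)) := rfl

/-- the chain of inequalities -/
theorem chain_eq (hc : Monotone c) (M : PRep c K) (lam : Fin m → ℕ) (h : IsTop M lam)
    (hM : Good M) : Good (kth M lam h) ∧
    Module.finrank K (LinearMap.range (theta M lam h)) =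
      Module.finrank K (M.wd lam) * Module.finrank K (nabS c K lam) ∧
    (Module.finrank K (M.wd lam) : ℤ) * (Module.finrank K (nabS c K lam) : ℤ) =
      (Module.finrank K (M.wd lam) : ℤ) * Dt c lam := by
  have h1 := LinearMap.finrank_range_add_finrank_ker (theta M lam h)
  have h2 : Module.finrank K (LinearMap.range (theta M lam h)) ≤
      Module.finrank K (M.wd lam) * Module.finrank K (nabS c K lam) := by
    have h3 := finrank_hom (nab c K lam) (M.wd lam)
    rw [show Module.finrank K (nab c K lam).V = Module.finrank K (nabS c K lam) from rfl] at h3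
    rw [← h3]
    exact Submodule.finrank_le _
  have h4 : (Module.finrank K (M.wd lam) : ℤ) * (Module.finrank K (nabS c K lam) : ℤ) ≤
      (Module.finrank K (M.wd lam) : ℤ) * Dt c lam := by
    by_cases hd : Dom c lam
    · exact mul_le_mul_of_nonneg_left (nab_le c hc lam hd) (by positivity)
    · have h5 : M.wt lam = ⊥ := by
        rw [eq_bot_iff, ← hs_nondom M lam hd]
        intro v hv
        exact ⟨hv, fun g hg => top_lo M lam h g hg v hv⟩
      have h6 : Module.finrank K (M.wd lam) = 0 := by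
        rw [finrank_wd, h5, finrank_bot]
      rw [h6]
      simp
  have h7 := T4 c hc (kth M lam h)
  have h8 := chi_kth hc M lam h
  have h9 := kth_V M lam h
  unfold Good at hM
  rw [← h1] at hM
  push_cast at hM
  rw [h9] at h7
  have h2' : (Module.finrank K (LinearMap.range (theta M lam h)) : ℤ) ≤
      (Module.finrank K (M.wd lam) : ℤ) * (Module.finrank K (nabS c K lam) : ℤ) := by
    exact_mod_cast h2
  refine ⟨?_, ?_, ?_⟩
  · unfold Good
    rw [h9]
    linarith
  · have h10 : (Module.finrank K (LinearMap.range (theta M lam h)) : ℤ) =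
      (Module.finrank K (M.wd lam) : ℤ) * (Module.finrank K (nabS c K lam) : ℤ) := by linarith
    exact_mod_cast h10
  · linarith

/-- PROOF.  `finrank M = finrank ker + finrank range ≤ finrank (kth) + finrank (wd λ) finrank (nabS λ) ≤ chi (kth) + finrank (wd λ) Dt λ ≤ chi M = finrank M`
(`T4`, `nab_le`, `chi_kth`; if `λ` is not dominant then `wd λ = 0` because `wt λ = hs λ = ⊥`, `finrank_wd`).
So all are equalities. -/
theorem good_kth (hc : Monotone c) (M : PRep c K) (lam : Fin m → ℕ) (h : IsTop M lam)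
    (hM : Good M) : Good (kth M lam h) := (chain_eq hc M lam h hM).1

/-- same chain of inequalities: `finrank (range theta) = finrank (wd λ) * finrank (nabS λ) = finrank` of the target -/
theorem theta_surj (hc : Monotone c) (M : PRep c K) (lam : Fin m → ℕ) (h : IsTop M lam)
    (hM : Good M) : Function.Surjective (theta M lam h) := by
  rw [← LinearMap.range_eq_top]
  apply Submodule.eq_top_of_finrank_eq
  rw [(chain_eq hc M lam h hM).2.1, finrank_hom]
  rfl

/-- same chain: if `wt λ ≠ ⊥` then `finrank (nabS λ) = Dt λ`; and `chi (nab λ) = finrank (hs λ) Dt λ ≤ Dt λ = finrank ≤ chi` (`nab_hs_le`, `nab_hs_ne`, `T4`). -/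
theorem good_nab (hc : Monotone c) (M : PRep c K) (lam : Fin m → ℕ) (h : IsTop M lam)
    (hM : Good M) (hw : M.wt lam ≠ ⊥) : Good (nab c K lam) := by
  have h1 := (chain_eq hc M lam h hM).2.2
  have h2 : (Module.finrank K (M.wd lam) : ℤ) ≠ 0 := by
    intro h3
    have h4 : Module.finrank K (M.wd lam) = 0 := by exact_mod_cast h3
    rw [finrank_wd, Submodule.finrank_eq_zero] at h4
    exact hw h4
  have h3 : (Module.finrank K (nabS c K lam) : ℤ) = Dt c lam := mul_left_cancel₀ h2 h1
  have h4 : chi (nab c K lam) =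
      (Module.finrank K ((nab c K lam).hs lam) : ℤ) * Dt c lam := by
    rw [chi_eq_sum (nab c K lam) {lam} (fun κ hκ => nab_hs_ne c lam κ (by simpa using hκ)),
      Finset.sum_singleton]
  have h5 := T4 c hc (nab c K lam)
  have h6 := nab_hs_le (K := K) c lam lam
  have h7 : (Module.finrank K (nab c K lam).V : ℤ) = Dt c lam := h3
  unfold Good
  refine le_antisymm h5 ?_
  rw [h4, h7]
  have h8 : (0 : ℤ) ≤ Dt c lam := by rw [← h3]; positivity
  have h9 : (Module.finrank K ((nab c K lam).hs lam) : ℤ) ≤ 1 := by exact_mod_cast h6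
  calc (Module.finrank K ((nab c K lam).hs lam) : ℤ) * Dt c lam ≤ 1 * Dt c lam :=
        mul_le_mul_of_nonneg_right h9 h8
    _ = Dt c lam := one_mul _

/-- the exact sequence of `theta` -/
theorem ext_theta (hc : Monotone c) (M : PRep c K) (lam : Fin m → ℕ) (h : IsTop M lam)
    (hM : Good M) : Ext (kth M lam h) M ((nab c K lam).hom (M.wd lam))
      (LinearMap.ker (theta M lam h)).subtype (theta M lam h) where
  ei := fun _ _ => rfl
  ep := theta_eqv M lam h
  inj := Subtype.val_injective
  surj := theta_surj hc M lam h hM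
  ex := Submodule.range_subtype _

theorem finrank_kth_lt (M : PRep c K) (lam : Fin m → ℕ) (h : IsTop M lam)
    (hw : M.wt lam ≠ ⊥) : Module.finrank K (kth M lam h).V < Module.finrank K M.V := by
  rw [kth_V]
  apply Submodule.finrank_lt
  intro htop
  apply hw
  rw [eq_bot_iff]
  intro v hv
  rw [Submodule.mem_bot]
  exact ker_theta_wt M lam h v (by rw [htop]; trivial) hv

end Pool.PI34.A5

end

/-! ### part A5_T6 -/
section

/-! PI34, block A5, file T6: quotients of good representations by good subrepresentations. -/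

set_option autoImplicit false

namespace Pool.PI34.A5

open Finset Matrix

variable {m : ℕ} {c : Fin m → ℕ} {K : Type} [Field K] [Infinite K]

/-- the weight functionals of `Y` which vanish on `X` -/
def wdX (X Y : PRep c K) (i : X.V →ₗ[K] Y.V) (lam : Fin m → ℕ) :
    Submodule K (Module.Dual K Y.V) where
  carrier := {φ | φ ∈ Y.wd lam ∧ ∀ x, φ (i x) = 0}
  zero_mem' := ⟨Submodule.zero_mem _, fun x => rfl⟩
  add_mem' := fun {a b} ha hb => ⟨Submodule.add_mem _ ha.1 hb.1, fun x => by
    rw [LinearMap.add_apply, ha.2 x, hb.2 x, add_zero]⟩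
  smul_mem' := fun r a ha => ⟨Submodule.smul_mem _ r ha.1, fun x => by
    rw [LinearMap.smul_apply, ha.2 x, smul_zero]⟩

theorem wdX_le (X Y : PRep c K) (i : X.V →ₗ[K] Y.V) (lam : Fin m → ℕ) :
    wdX X Y i lam ≤ Y.wd lam := fun _ h => h.1

/-- restriction of weight functionals -/
theorem comp_mem_wd (X Y : PRep c K) (i : X.V →ₗ[K] Y.V) (hi : Eqv X Y i) (lam : Fin m → ℕ)
    (ψ : Module.Dual K Y.V) (hψ : ψ ∈ Y.wd lam) : ψ ∘ₗ i ∈ X.wd lam := by
  intro t v
  rw [LinearMap.comp_apply, LinearMap.comp_apply, hi (dg c t) v]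
  exact hψ t (i v)

/-- weight functionals of `X` extend to weight functionals of `Y`: extend `φ` to a functional `ψ` of `Y.V` (`LinearMap.exists_extend` along
the injective `i`) and take `ψ ∘ Y.P λ` (`P_eqv`, `wd_P`) -/
theorem wd_extend (X Y : PRep c K) (i : X.V →ₗ[K] Y.V) (hi : Eqv X Y i)
    (hinj : Function.Injective i) (lam : Fin m → ℕ) (φ : Module.Dual K X.V) (hφ : φ ∈ X.wd lam) :
    ∃ ψ ∈ Y.wd lam, ∀ x, ψ (i x) = φ x := by
  obtain ⟨g, hg⟩ := LinearMap.exists_leftInverse_of_injective i (LinearMap.ker_eq_bot.2 hinj)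
  have hg' : ∀ x, g (i x) = x := fun x => LinearMap.congr_fun hg x
  refine ⟨(φ ∘ₗ g) ∘ₗ Y.P lam, ?_, ?_⟩
  · rw [wd_P]
    intro v
    rw [LinearMap.comp_apply, LinearMap.comp_apply, P_self Y lam _ (P_mem Y lam v)]
    rfl
  · intro x
    rw [LinearMap.comp_apply, ← P_eqv X Y i hi lam x, LinearMap.comp_apply, hg']
    exact (wd_P X lam φ).1 hφ x

/-- `finrank (wdX) + finrank (X.wd λ) = finrank (Y.wd λ)` (rank-nullity for the restriction map, onto by `wd_extend`) -/
theorem finrank_wdX (X Y : PRep c K) (i : X.V →ₗ[K] Y.V) (hi : Eqv X Y i)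
    (hinj : Function.Injective i) (lam : Fin m → ℕ) :
    Module.finrank K (wdX X Y i lam) + Module.finrank K (X.wd lam) =
      Module.finrank K (Y.wd lam) := by
  have hmem : ∀ ψ ∈ Y.wd lam, ψ ∘ₗ i ∈ X.wd lam := fun ψ hψ => comp_mem_wd X Y i hi lam ψ hψ
  let R : Y.wd lam →ₗ[K] X.wd lam :=
    { toFun := fun ψ => ⟨ψ.1 ∘ₗ i, hmem ψ.1 ψ.2⟩
      map_add' := fun a b => rfl
      map_smul' := fun r a => rfl }
  have hR : ∀ (ψ : Y.wd lam) (x : X.V), (R ψ).1 x = ψ.1 (i x) := fun ψ x => rfl
  have hsurj : LinearMap.range R = ⊤ := by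
    rw [LinearMap.range_eq_top]
    intro φ
    obtain ⟨ψ, hψ, h⟩ := wd_extend X Y i hi hinj lam φ.1 φ.2
    exact ⟨⟨ψ, hψ⟩, Subtype.ext (LinearMap.ext fun x => h x)⟩
  have hker : LinearMap.ker R = (wdX X Y i lam).comap (Y.wd lam).subtype := by
    ext ψ
    rw [LinearMap.mem_ker, Submodule.mem_comap]
    constructor
    · intro h
      exact ⟨ψ.2, fun x => by
        have := congrArg (fun φ : X.wd lam => φ.1 x) h
        exact this⟩
    · intro h
      exact Subtype.ext (LinearMap.ext fun x => h.2 x)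
  have h1 := LinearMap.finrank_range_add_finrank_ker (K := K) (V := Y.wd lam) (V₂ := X.wd lam) R
  rw [hsurj, finrank_top, hker,
    (Submodule.comapSubtypeEquivOfLe (wdX_le X Y i lam)).finrank_eq] at h1
  rw [add_comm]
  exact h1

/-- `theta` restricted to the functionals which vanish on `X` -/
noncomputable def thetaX0 (X Y : PRep c K) (i : X.V →ₗ[K] Y.V) (lam : Fin m → ℕ)
    (h : IsTop Y lam) : Y.V →ₗ[K] (wdX X Y i lam →ₗ[K] nabS c K lam) where
  toFun y := (theta0 Y lam h y) ∘ₗ (Submodule.inclusion (wdX_le X Y i lam))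
  map_add' y z := by rw [map_add, LinearMap.add_comp]
  map_smul' a y := by rw [map_smul, LinearMap.smul_comp]; rfl

/-- `theta` restricted to the functionals which vanish on `X` -/
noncomputable def thetaX (X Y : PRep c K) (i : X.V →ₗ[K] Y.V) (lam : Fin m → ℕ)
    (h : IsTop Y lam) : Y.V →ₗ[K] ((nab c K lam).hom (wdX X Y i lam)).V := thetaX0 X Y i lam h

theorem thetaX_apply (X Y : PRep c K) (i : X.V →ₗ[K] Y.V) (lam : Fin m → ℕ)
    (h : IsTop Y lam) (y : Y.V) (φ : wdX X Y i lam) (Z : Blk c K) :
    (thetaX0 X Y i lam h y φ).1 Z = φ.1 (Y.ρ Z y) := rfl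

theorem thetaX_eqv (X Y : PRep c K) (i : X.V →ₗ[K] Y.V) (lam : Fin m → ℕ)
    (h : IsTop Y lam) : Eqv Y ((nab c K lam).hom (wdX X Y i lam)) (thetaX X Y i lam h) := by
  intro g y
  refine LinearMap.ext fun φ => Subtype.ext (funext fun Z => ?_)
  change φ.1 (Y.ρ Z (Y.ρ g y)) = φ.1 (Y.ρ (Z * g) y)
  rw [map_mul]
  rfl

/-- `theta` is onto (`theta_surj`) and linear maps on `wdX` extend to `Y.wd λ` (`LinearMap.exists_extend`) -/
theorem thetaX_surj (hc : Monotone c) (X Y : PRep c K) (i : X.V →ₗ[K] Y.V) (lam : Fin m → ℕ)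
    (h : IsTop Y lam) (hY : Good Y) : Function.Surjective (thetaX X Y i lam h) := by
  intro T'
  obtain ⟨T, hT⟩ : ∃ T : wdX X Y i lam →ₗ[K] nabS c K lam, T' = T := ⟨T', rfl⟩
  obtain ⟨g, hg⟩ := LinearMap.exists_leftInverse_of_injective (K := K)
    (V := wdX X Y i lam) (V' := Y.wd lam) (Submodule.inclusion (wdX_le X Y i lam))
    (Submodule.ker_inclusion _ _ _)
  obtain ⟨y, hy⟩ := theta_surj hc Y lam h hY (T ∘ₗ g)
  refine ⟨y, ?_⟩
  rw [hT]
  change (theta Y lam h y) ∘ₗ (Submodule.inclusion (wdX_le X Y i lam)) = T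
  rw [hy]
  refine LinearMap.ext fun φ => ?_
  have h1 : g (Submodule.inclusion (wdX_le X Y i lam) φ) = φ := LinearMap.congr_fun hg φ
  change T (g (Submodule.inclusion (wdX_le X Y i lam) φ)) = T φ
  rw [h1]

/-- `thetaX` vanishes on the image of `i` -/
theorem thetaX_i (X Y : PRep c K) (i : X.V →ₗ[K] Y.V) (hi : Eqv X Y i) (lam : Fin m → ℕ)
    (h : IsTop Y lam) (x : X.V) : thetaX X Y i lam h (i x) = 0 := by
  refine LinearMap.ext fun φ => Subtype.ext (funext fun Z => ?_)
  change φ.1 (Y.ρ Z (i x)) = 0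
  rw [← hi Z x]
  exact φ.2.2 _

theorem isTop_sub (X Y : PRep c K) (i : X.V →ₗ[K] Y.V) (hi : Eqv X Y i)
    (hinj : Function.Injective i) (lam : Fin m → ℕ) (h : IsTop Y lam) : IsTop X lam := by
  intro κ hκ
  exact h κ (wt_sub X Y i hi hinj κ hκ)

/-- `i x ∈ ker theta_Y ↔ x ∈ ker theta_X` (`ker_theta`, `wd_extend`) -/
theorem ker_theta_i (X Y : PRep c K) (i : X.V →ₗ[K] Y.V) (hi : Eqv X Y i)
    (hinj : Function.Injective i) (lam : Fin m → ℕ) (h : IsTop Y lam) (x : X.V) :
    i x ∈ LinearMap.ker (theta Y lam h) ↔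
      x ∈ LinearMap.ker (theta X lam (isTop_sub X Y i hi hinj lam h)) := by
  rw [ker_theta, ker_theta]
  constructor
  · intro h1 φ hφ Z
    obtain ⟨ψ, hψ, h2⟩ := wd_extend X Y i hi hinj lam φ hφ
    rw [← h2, hi Z x]
    exact h1 ψ hψ Z
  · intro h1 ψ hψ Z
    rw [← hi Z x]
    exact h1 (ψ ∘ₗ i) (comp_mem_wd X Y i hi lam ψ hψ) Z

/-- the key dimension count: `ker thetaX = ker theta_Y + i(X)`.
PROOF.  `⊇` is clear.  `finrank Y - finrank (ker thetaX) = finrank (wdX) n`, `n = finrank (nabS λ)` (`thetaX_surj`).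
`finrank (ker theta_Y ⊔ range i) = finrank (ker theta_Y) + finrank X - finrank (ker theta_X)` (`ker_theta_i`)
`= finrank Y - finrank (Y.wd λ) n + finrank (X.wd λ) n` (`theta_surj` for `X` and `Y`), and `finrank_wdX`. -/
theorem ker_thetaX (hc : Monotone c) (X Y : PRep c K) (i : X.V →ₗ[K] Y.V) (hi : Eqv X Y i)
    (hinj : Function.Injective i) (lam : Fin m → ℕ) (h : IsTop Y lam) (hX : Good X) (hY : Good Y) :
    LinearMap.ker (thetaX X Y i lam h) = LinearMap.ker (theta Y lam h) ⊔ LinearMap.range i := by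
  have hXt := isTop_sub X Y i hi hinj lam h
  symm
  apply Submodule.eq_of_le_of_finrank_eq
  · apply sup_le
    · intro y hy
      rw [LinearMap.mem_ker] at hy ⊢
      change (theta Y lam h y) ∘ₗ (Submodule.inclusion (wdX_le X Y i lam)) = 0
      rw [hy]
      rfl
    · rintro _ ⟨x, rfl⟩
      rw [LinearMap.mem_ker]
      exact thetaX_i X Y i hi lam h x
  · have e1 := LinearMap.finrank_range_add_finrank_ker (thetaX X Y i lam h)
    rw [LinearMap.range_eq_top.2 (thetaX_surj hc X Y i lam h hY), finrank_top, finrank_hom] at e1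
    have e2 := LinearMap.finrank_range_add_finrank_ker (theta Y lam h)
    rw [LinearMap.range_eq_top.2 (theta_surj hc Y lam h hY), finrank_top, finrank_hom] at e2
    have e3 := LinearMap.finrank_range_add_finrank_ker (theta X lam hXt)
    rw [LinearMap.range_eq_top.2 (theta_surj hc X lam hXt hX), finrank_top, finrank_hom] at e3
    have e4 := Submodule.finrank_sup_add_finrank_inf_eq (LinearMap.ker (theta Y lam h))
      (LinearMap.range i)
    have e5 := LinearMap.finrank_range_of_inj hinj
    have e6 : LinearMap.ker (theta Y lam h) ⊓ LinearMap.range i =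
        (LinearMap.ker (theta X lam hXt)).map i := by
      ext y
      rw [Submodule.mem_inf, Submodule.mem_map]
      constructor
      · rintro ⟨h1, x, rfl⟩
        exact ⟨x, (ker_theta_i X Y i hi hinj lam h x).1 h1, rfl⟩
      · rintro ⟨x, hx, rfl⟩
        exact ⟨(ker_theta_i X Y i hi hinj lam h x).2 hx, x, rfl⟩
    have e7 := (Submodule.equivMapOfInjective i hinj (LinearMap.ker (theta X lam hXt))).finrank_eq
    rw [← e6] at e7
    have e8 := finrank_wdX X Y i hi hinj lam
    have e9 : Module.finrank K (wdX X Y i lam) * Module.finrank K (nab c K lam).V +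
        Module.finrank K (X.wd lam) * Module.finrank K (nab c K lam).V =
        Module.finrank K (Y.wd lam) * Module.finrank K (nab c K lam).V := by
      rw [← add_mul, e8]
    omega

end Pool.PI34.A5

end

/-! ### part A5_T6b -/
section

/-! PI34, block A5, file T6b: quotients of good representations by good subrepresentations; lifting. -/

set_option autoImplicit false

namespace Pool.PI34.A5

open Finset Matrix

variable {m : ℕ} {c : Fin m → ℕ} {K : Type} [Field K] [Infinite K]

omit [Infinite K] in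
/-- factorization through a surjective map -/
theorem T6b_factor {A B C : Type} [AddCommGroup A] [Module K A] [AddCommGroup B] [Module K B]
    [AddCommGroup C] [Module K C] (p : A →ₗ[K] B) (hp : Function.Surjective p) (f : A →ₗ[K] C)
    (h : LinearMap.ker p ≤ LinearMap.ker f) : ∃ t : B →ₗ[K] C, ∀ a, t (p a) = f a := by
  obtain ⟨s, hs⟩ := p.exists_rightInverse_of_surjective (LinearMap.range_eq_top.2 hp)
  refine ⟨f ∘ₗ s, fun a => ?_⟩
  have h1 : p (s (p a)) = p a := by
    have h2 := congrArg (fun g : B →ₗ[K] B => g (p a)) hs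
    exact h2
  have h3 : s (p a) - a ∈ LinearMap.ker p := by
    rw [LinearMap.mem_ker, map_sub, h1, sub_self]
  have h4 := h h3
  rw [LinearMap.mem_ker, map_sub, sub_eq_zero] at h4
  exact h4

theorem T6b_aux (hc : Monotone c) (n : ℕ) : ∀ (X Y Z : PRep c K) (i : X.V →ₗ[K] Y.V)
    (p : Y.V →ₗ[K] Z.V), Module.finrank K Y.V < n → Ext X Y Z i p → Good X → Good Y →
    Good Z := by
  induction n with
  | zero => intro X Y Z i p hn; exact absurd hn (Nat.not_lt_zero _)
  | succ n ih =>
    intro X Y Z i p hn h hX hY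
    rcases Nat.eq_zero_or_pos (Module.finrank K Y.V) with h0 | hpos
    · refine good_zero Z ?_
      have h1 : Module.finrank K (LinearMap.range p) ≤ Module.finrank K Y.V :=
        LinearMap.finrank_range_le p
      rw [LinearMap.range_eq_top.2 h.surj, finrank_top] at h1
      omega
    · obtain ⟨lam, htop, hw⟩ := exists_top Y hpos
      have hXtop := isTop_sub X Y i h.ei h.inj lam htop
      have hker : LinearMap.ker p ≤ LinearMap.ker (thetaX X Y i lam htop) := by
        intro y hy
        rw [← h.ex] at hy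
        obtain ⟨x, rfl⟩ := hy
        rw [LinearMap.mem_ker]
        exact thetaX_i X Y i h.ei lam htop x
      obtain ⟨tZ, htZ⟩ := T6b_factor p h.surj (thetaX X Y i lam htop) hker
      have hsum := ker_thetaX hc X Y i h.ei h.inj lam htop hX hY
      have tZeqv : Eqv Z ((nab c K lam).hom (wdX X Y i lam)) tZ := by
        intro g z
        obtain ⟨y, rfl⟩ := h.surj z
        rw [← h.ep g y, htZ, htZ]
        exact thetaX_eqv X Y i lam htop g y
      have tZsurj : Function.Surjective tZ := by
        intro w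
        obtain ⟨y, hy⟩ := thetaX_surj hc X Y i lam htop hY w
        exact ⟨p y, by rw [htZ, hy]⟩
      have hsub : ∀ g, ∀ v ∈ LinearMap.ker tZ, Z.ρ g v ∈ LinearMap.ker tZ := by
        intro g v hv
        rw [LinearMap.mem_ker] at hv ⊢
        rw [tZeqv g v, hv, map_zero]
      have hi1 : ∀ x ∈ LinearMap.ker (theta X lam hXtop), i x ∈ LinearMap.ker (theta Y lam htop) :=
        fun x hx => (ker_theta_i X Y i h.ei h.inj lam htop x).2 hx
      have hp1 : ∀ y ∈ LinearMap.ker (theta Y lam htop), p y ∈ LinearMap.ker tZ := by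
        intro y hy
        have h1 : y ∈ LinearMap.ker (thetaX X Y i lam htop) := by
          rw [hsum]
          exact Submodule.mem_sup_left hy
        rw [LinearMap.mem_ker] at h1 ⊢
        rw [htZ, h1]
      have hext1 : Ext (kth X lam hXtop) (kth Y lam htop) (Z.sub (LinearMap.ker tZ) hsub)
          (i.restrict hi1) (p.restrict hp1) := by
        refine ⟨?_, ?_, ?_, ?_, ?_⟩
        · intro g v
          exact Subtype.ext (h.ei g v.1)
        · intro g v
          exact Subtype.ext (h.ep g v.1)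
        · intro v w hvw
          exact Subtype.ext (h.inj (congrArg Subtype.val hvw))
        · intro z
          obtain ⟨y, hy⟩ := h.surj z.1
          have h1 : y ∈ LinearMap.ker (thetaX X Y i lam htop) := by
            rw [LinearMap.mem_ker, ← htZ, hy]
            exact z.2
          rw [hsum] at h1
          obtain ⟨y1, hy1, y2, ⟨x, rfl⟩, h2⟩ := Submodule.mem_sup.1 h1
          refine ⟨⟨y1, hy1⟩, Subtype.ext ?_⟩
          have h3 : p (i x) = 0 := by
            have h4 : i x ∈ LinearMap.ker p := by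
              rw [← h.ex]
              exact ⟨x, rfl⟩
            exact h4
          have h5 : p y = p y1 := by rw [← h2, map_add, h3, add_zero]
          exact h5.symm.trans hy
        · ext y
          constructor
          · rintro ⟨x, rfl⟩
            have h4 : i x.1 ∈ LinearMap.ker p := by
              rw [← h.ex]
              exact ⟨x.1, rfl⟩
            exact Subtype.ext h4
          · intro hy
            have h1 : p y.1 = 0 := congrArg Subtype.val hy
            have h2 : y.1 ∈ LinearMap.ker p := h1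
            rw [← h.ex] at h2
            obtain ⟨x, hx⟩ := h2
            have h3 : i x ∈ LinearMap.ker (theta Y lam htop) := by
              rw [hx]
              exact y.2
            exact ⟨⟨x, (ker_theta_i X Y i h.ei h.inj lam htop x).1 h3⟩, Subtype.ext hx⟩
      have hlt := finrank_kth_lt Y lam htop hw
      have hZ1 : Good (Z.sub (LinearMap.ker tZ) hsub) :=
        ih _ _ _ _ _ (by omega) hext1 (good_kth hc X lam hXtop hX) (good_kth hc Y lam htop hY)
      have hext2 : Ext (Z.sub (LinearMap.ker tZ) hsub) Z ((nab c K lam).hom (wdX X Y i lam))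
          (LinearMap.ker tZ).subtype tZ := by
        refine ⟨fun g v => rfl, tZeqv, Subtype.val_injective, tZsurj, ?_⟩
        exact Submodule.range_subtype _
      exact good_ext hc _ _ _ _ _ hext2 hZ1
        (good_hom (nab c K lam) (wdX X Y i lam) (good_nab hc Y lam htop hY hw))

/-- PROOF.  Strong induction on `finrank Y.V`.  If it is `0`, then `finrank Z.V = 0`, `good_zero`.  Otherwise let `λ` be a top weight with `Y.wt λ ≠ ⊥`
(`exists_top`).  `X1 = kth X`, `Y1 = kth Y` are good (`good_kth`), `finrank Y1 < finrank Y`.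
`thetaX` factors through `p` (`thetaX_i`, `h.ex`, `h.surj`): `tZ : Z.V → Hom(wdX, nab λ)`, equivariant and onto.
`Z1 := Z.sub (ker tZ)`; `p` maps `Y1` onto `Z1`: for `z = p y ∈ ker tZ` we have `y ∈ ker thetaX = ker theta_Y ⊔ range i` (`ker_thetaX`), so `z = p y1`.
`Ext X1 Y1 Z1` (restrictions of `i` and `p`; exactness: `y1 ∈ Y1`, `p y1 = 0` ⇒ `y1 = i x`, `x ∈ X1` by `ker_theta_i`).  By induction `Z1` is good.
`Ext Z1 Z (Hom(wdX, nab λ))`, `nab λ` is good (`good_nab`), so `Hom(wdX, nab λ)` is good (`good_hom`), and `Z` is good (`good_ext`). -/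
theorem T6 (hc : Monotone c) (X Y Z : PRep c K) (i : X.V →ₗ[K] Y.V) (p : Y.V →ₗ[K] Z.V)
    (h : Ext X Y Z i p) (hX : Good X) (hY : Good Y) : Good Z :=
  T6b_aux hc _ X Y Z i p (Nat.lt_succ_self _) h hX hY

/-- lifting: PROOF.  `Z` is good (`T6`), so `chi Y = finrank Y = finrank X + finrank Z = chi X + chi Z`; `chi_ext_eq`. -/
theorem lift_hs (hc : Monotone c) (X Y Z : PRep c K) (i : X.V →ₗ[K] Y.V) (p : Y.V →ₗ[K] Z.V)
    (h : Ext X Y Z i p) (hX : Good X) (hY : Good Y) (κ : Fin m → ℕ) (z : Z.V)
    (hz : z ∈ Z.hs κ) : ∃ y ∈ Y.hs κ, p y = z := by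
  have hZ := T6 hc X Y Z i p h hX hY
  refine chi_ext_eq hc X Y Z i p h ?_ κ z hz
  have h1 := LinearMap.finrank_range_add_finrank_ker p
  rw [LinearMap.range_eq_top.2 h.surj, finrank_top, ← h.ex,
    LinearMap.finrank_range_of_inj h.inj] at h1
  have h2 : (Module.finrank K X.V : ℤ) = chi X := hX
  have h3 : (Module.finrank K Y.V : ℤ) = chi Y := hY
  have h4 : (Module.finrank K Z.V : ℤ) = chi Z := hZ
  rw [← h2, ← h3, ← h4]
  omega

end Pool.PI34.A5

end
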