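import Pool.Agent.LibPI54.M16
import Pool.Agent.LibPI54.M18

/-! ### part A5_Dbl -/
section

/-! PI34, block A5, file Dbl: exterior powers of the doubled natural representation. -/

set_option autoImplicit false

namespace Pool.PI34.A5

open Finset Matrix

variable {m : ℕ} {c : Fin m → ℕ} {K : Type} [Field K] [Infinite K]

/-- finite products of representations -/
noncomputable def piR {ι : Type} [Fintype ι] [DecidableEq ι] (N : ι → PRep c K) : PRep c K where
  V := ∀ b, (N b).V
  ρ := { toFun := fun g => LinearMap.pi fun b => (N b).ρ g ∘ₗ LinearMap.proj b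
         map_one' := by ext v; simp
         map_mul' := fun g h => by ext v; simp }
  poly v φ := by
    have e : (fun Z => φ (fun b => (N b).ρ Z (v b))) = ∑ b, fun Z =>
        (φ ∘ₗ LinearMap.single K (fun b => (N b).V) b) ((N b).ρ Z (v b)) := by
      funext Z
      rw [Finset.sum_apply]
      conv_lhs => rw [← Finset.univ_sum_single (fun b => (N b).ρ Z (v b)), map_sum]
      rfl
    change (fun Z => φ (fun b => (N b).ρ Z (v b))) ∈ _
    rw [e]
    exact Subalgebra.sum_mem _ fun b _ => (N b).poly _ _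

theorem Dbl_mem_hs {ι : Type} [Fintype ι] [DecidableEq ι] (N : ι → PRep c K) (κ : Fin m → ℕ)
    (v : ∀ b, (N b).V) : v ∈ (piR N).hs κ ↔ ∀ b, v b ∈ (N b).hs κ := by
  constructor
  · rintro ⟨h1, h2⟩ b
    refine ⟨fun t => ?_, fun g hg => ?_⟩
    · exact congrFun (h1 t) b
    · exact congrFun (h2 g hg) b
  · intro h
    refine ⟨fun t => ?_, fun g hg => ?_⟩
    · exact funext fun b => (h b).1 t
    · exact funext fun b => (h b).2 g hg

/-- the invariants of a product -/
noncomputable def Dbl_hsE {ι : Type} [Fintype ι] [DecidableEq ι] (N : ι → PRep c K)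
    (κ : Fin m → ℕ) : (piR N).hs κ ≃ₗ[K] (∀ b, (N b).hs κ) where
  toFun v := fun b => ⟨v.1 b, (Dbl_mem_hs N κ v.1).1 v.2 b⟩
  invFun u := ⟨fun b => (u b).1, (Dbl_mem_hs N κ _).2 fun b => (u b).2⟩
  map_add' _ _ := rfl
  map_smul' _ _ := rfl
  left_inv _ := rfl
  right_inv _ := rfl

theorem Dbl_finrank_hs {ι : Type} [Fintype ι] [DecidableEq ι] (N : ι → PRep c K)
    (κ : Fin m → ℕ) :
    Module.finrank K ((piR N).hs κ) = ∑ b, Module.finrank K ((N b).hs κ) := by
  rw [(Dbl_hsE N κ).finrank_eq, Module.finrank_pi_fintype]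

theorem good_piR {ι : Type} [Fintype ι] [DecidableEq ι] (N : ι → PRep c K)
    (h : ∀ b, Good (N b)) : Good (piR N) := by
  classical
  have h1 : Module.finrank K (piR N).V = ∑ b, Module.finrank K (N b).V :=
    Module.finrank_pi_fintype K
  let W : Finset (Fin m → ℕ) := univ.biUnion fun b => (N b).W
  have hW : ∀ b, ∀ κ, κ ∉ W → (N b).hs κ = ⊥ := fun b κ hκ =>
    hs_W (N b) κ fun h2 => hκ (Finset.mem_biUnion.2 ⟨b, Finset.mem_univ b, h2⟩)
  have hW2 : ∀ κ, κ ∉ W → (piR N).hs κ = ⊥ := by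
    intro κ hκ
    rw [eq_bot_iff]
    intro v hv
    rw [Submodule.mem_bot]
    funext b
    have h2 := (Dbl_mem_hs N κ v).1 hv b
    rw [hW b κ hκ, Submodule.mem_bot] at h2
    exact h2
  change (Module.finrank K (piR N).V : ℤ) = chi (piR N)
  rw [h1, chi_eq_sum (piR N) W hW2, Nat.cast_sum]
  have h3 : ∀ b, (Module.finrank K (N b).V : ℤ) =
      ∑ κ ∈ W, (Module.finrank K ((N b).hs κ) : ℤ) * Dt c κ := fun b => by
    rw [← chi_eq_sum (N b) W (hW b)]
    exact h b
  rw [Finset.sum_congr rfl fun b _ => h3 b, Finset.sum_comm]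
  refine Finset.sum_congr rfl fun κ _ => ?_
  rw [Dbl_finrank_hs, Nat.cast_sum, Finset.sum_mul]

variable (c K) in
/-- `g ↦ g ⊕ g` -/
def dblM : Blk c K →* Matrix (Fin m ⊕ Fin m) (Fin m ⊕ Fin m) K where
  toFun Z := Matrix.fromBlocks Z.1 0 0 Z.1
  map_one' := Matrix.fromBlocks_one
  map_mul' Z W := by simp [Matrix.fromBlocks_multiply]

theorem dblM_poly (i j) : (fun Z => dblM c K Z i j) ∈ PolyFn (crd c K) := by
  rcases i with i | i <;> rcases j with j | j
  · exact coord_mem (crd c K) (i, j)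
  · exact const_mem (crd c K) 0
  · exact const_mem (crd c K) 0
  · exact coord_mem (crd c K) (i, j)

omit [Infinite K] in
theorem Dbl_mixv {a b : ℕ} (g : Blk c K) (v : Fin b → Fin m → K) (w : Fin (a - b) → Fin m → K)
    (q : Fin a) : mixv v w q ᵥ* dblM c K g =
      mixv (fun i => v i ᵥ* g.1) (fun i => w i ᵥ* g.1) q := by
  have e : dblM c K g = Matrix.fromBlocks g.1 0 0 g.1 := rfl
  rw [e, Matrix.vecMul_fromBlocks]
  unfold mixv
  by_cases h : (q : ℕ) < b
  · simp only [dif_pos h]
    rw [Sum.elim_comp_inl, Sum.elim_comp_inr]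
    simp
  · simp only [dif_neg h]
    rw [Sum.elim_comp_inl, Sum.elim_comp_inr]
    simp

theorem Dbl_vdm (m a : ℕ) : ∑ b : Fin (a + 1), m.choose b * m.choose (a - b) =
    (m + m).choose a := by
  rw [Nat.add_choose_eq, Finset.Nat.sum_antidiagonal_eq_sum_range_succ_mk, ← Fin.sum_univ_eq_sum_range
    (fun b => m.choose b * m.choose (a - b))]

/-- PROOF.  `N b = altI (altI M (a - b)) b` for `b : Fin (a + 1)`; the maps `Φ_b` (`exists_phi`) are equivariant:
`mixv (v g) (w g) = (mixv v w) (g ⊕ g)`; together they give an injective equivariant map `altR M dblM a → piR N` (`mix_sep`) between spaces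
of the same dimension `C(2m, a) finrank M` (`Nat.add_choose_eq`, Vandermonde), so it is bijective; `good_piR`, `good_altI`, `good_equiv`
(for the inverse map). -/
theorem good_alt_dblM (hc : Monotone c) (M : PRep c K) (a : ℕ) (hM : Good M) :
    Good (altR M (dblM c K) dblM_poly a) := by
  classical
  have hb : ∀ b : Fin (a + 1), (b : ℕ) ≤ a := fun b => Nat.lt_succ_iff.1 b.2
  let N : Fin (a + 1) → PRep c K := fun b => altI (altI M (a - b)) b
  have hex := fun b : Fin (a + 1) => exists_phi (K := K) (J1 := Fin m) (J2 := Fin m) (N := M.V)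
    a b (hb b)
  choose Φ hΦ using hex
  let F : (altR M (dblM c K) dblM_poly a).V →ₗ[K] (piR N).V := LinearMap.pi Φ
  have hF : ∀ (ω : (Fin m ⊕ Fin m → K) [⋀^Fin a]→ₗ[K] M.V) (b : Fin (a + 1)),
      F ω b = Φ b ω := fun ω b => rfl
  have hinj : Function.Injective F := by
    rw [← LinearMap.ker_eq_bot, eq_bot_iff]
    intro (ω : (Fin m ⊕ Fin m → K) [⋀^Fin a]→ₗ[K] M.V) hω
    rw [LinearMap.mem_ker] at hω
    rw [Submodule.mem_bot]
    refine mix_sep ω fun b hb' v w => ?_
    have h1 : Φ ⟨b, Nat.lt_succ_iff.2 hb'⟩ ω = 0 := congrFun hω ⟨b, Nat.lt_succ_iff.2 hb'⟩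
    have h2 := hΦ ⟨b, Nat.lt_succ_iff.2 hb'⟩ ω v w
    rw [h1] at h2
    exact h2.symm
  have hdim : Module.finrank K (altR M (dblM c K) dblM_poly a).V =
      Module.finrank K (piR N).V := by
    have h1 : Module.finrank K (piR N).V = ∑ b, Module.finrank K (N b).V :=
      Module.finrank_pi_fintype K
    have h2 : Module.finrank K (altR M (dblM c K) dblM_poly a).V =
        (m + m).choose a * Module.finrank K M.V := by
      have h3 := finrank_alt (K := K) (U := Fin m ⊕ Fin m → K) (N := M.V) a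
      rw [Module.finrank_fintype_fun_eq_card, Fintype.card_sum, Fintype.card_fin] at h3
      exact h3
    have h4 : ∀ b, Module.finrank K (N b).V =
        m.choose b * m.choose (a - b) * Module.finrank K M.V := by
      intro b
      have h5 := finrank_alt (K := K) (U := Fin m → K)
        (N := (Fin m → K) [⋀^Fin (a - b)]→ₗ[K] M.V) (b : ℕ)
      have h6 := finrank_alt (K := K) (U := Fin m → K) (N := M.V) (a - b)
      rw [h6, Module.finrank_fintype_fun_eq_card, Fintype.card_fin, ← mul_assoc] at h5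
      exact h5
    rw [h1, h2, Finset.sum_congr rfl fun b _ => h4 b, ← Finset.sum_mul, Dbl_vdm]
  let E := LinearMap.linearEquivOfInjective F hinj hdim
  have hE : ∀ ω, E ω = F ω := fun ω => rfl
  have hFe : Eqv (altR M (dblM c K) dblM_poly a) (piR N) F := by
    intro g (ω : (Fin m ⊕ Fin m → K) [⋀^Fin a]→ₗ[K] M.V)
    funext b
    refine AlternatingMap.ext fun v => AlternatingMap.ext fun w => ?_
    refine (hΦ b _ v w).trans ?_
    change M.ρ g (ω fun q => mixv v w q ᵥ* dblM c K g) =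
      M.ρ g (Φ b ω (fun q => v q ᵥ* g.1) (fun q => w q ᵥ* g.1))
    rw [hΦ]
    congr 2
    funext q
    exact Dbl_mixv g v w q
  refine good_equiv (piR N) _ E.symm ?_ (good_piR N fun b => good_altI hc _ b
    (good_altI hc M _ hM))
  intro g v
  have h1 : E (E.symm ((piR N).ρ g v)) = E ((altR M (dblM c K) dblM_poly a).ρ g (E.symm v)) := by
    rw [LinearEquiv.apply_symm_apply, hE, hFe g, ← hE, LinearEquiv.apply_symm_apply]
  exact E.injective h1

variable (c K) in
/-- `g ↦ g ⊕ g` with index set `Fin (m + m)` -/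
def dblN : Blk c K →* Matrix (Fin (m + m)) (Fin (m + m)) K where
  toFun Z := (dblM c K Z).submatrix finSumFinEquiv.symm finSumFinEquiv.symm
  map_one' := by rw [map_one]; exact Matrix.submatrix_one_equiv _
  map_mul' Z W := by rw [map_mul, Matrix.submatrix_mul_equiv]

theorem dblN_poly (i j) : (fun Z => dblN c K Z i j) ∈ PolyFn (crd c K) :=
  dblM_poly _ _

/-- reindexing (`LinearMap.funLeft`) of `good_alt_dblM` -/
theorem good_alt_dblN (hc : Monotone c) (M : PRep c K) (a : ℕ) (hM : Good M) :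
    Good (altR M (dblN c K) dblN_poly a) := by
  let e : (Fin (m + m) → K) ≃ₗ[K] (Fin m ⊕ Fin m → K) :=
    LinearEquiv.funCongrLeft K K finSumFinEquiv
  have he : ∀ x j, e x j = x (finSumFinEquiv j) := fun x j => rfl
  let E : ((Fin m ⊕ Fin m → K) [⋀^Fin a]→ₗ[K] M.V) ≃ₗ[K]
      ((Fin (m + m) → K) [⋀^Fin a]→ₗ[K] M.V) :=
    { toFun := fun ω => ω.compLinearMap e.toLinearMap
      invFun := fun ω => ω.compLinearMap e.symm.toLinearMap
      map_add' := fun ω η => rfl
      map_smul' := fun r ω => rfl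
      left_inv := fun ω => AlternatingMap.ext fun v => by simp
      right_inv := fun ω => AlternatingMap.ext fun v => by simp }
  refine good_equiv (altR M (dblM c K) dblM_poly a) _ E ?_ (good_alt_dblM hc M a hM)
  intro g (ω : (Fin m ⊕ Fin m → K) [⋀^Fin a]→ₗ[K] M.V)
  refine AlternatingMap.ext fun v => ?_
  change M.ρ g (ω fun q => e (v q) ᵥ* dblM c K g) = M.ρ g (ω fun q => e (v q ᵥ* dblN c K g))
  congr 2
  funext q
  funext j
  have h1 : dblN c K g = (dblM c K g).submatrix finSumFinEquiv.symm finSumFinEquiv.symm := rfl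
  rw [he, h1, Matrix.vecMul, Matrix.vecMul, dotProduct, dotProduct,
    ← Equiv.sum_comp (finSumFinEquiv (m := m) (n := m))]
  refine Finset.sum_congr rfl fun i _ => ?_
  rw [he, Matrix.submatrix_apply, Equiv.symm_apply_apply, Equiv.symm_apply_apply]

/-- the trivial colouring -/
abbrev c0 (n : ℕ) : Fin n → ℕ := fun _ => 0

variable (c K) in
/-- `g ↦ g ⊕ g` as a homomorphism of block monoids -/
def dbl : Blk c K →* Blk (c0 (m + m)) K where
  toFun Z := ⟨dblN c K Z, fun i j h => absurd rfl h⟩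
  map_one' := Subtype.ext (map_one (dblN c K))
  map_mul' Z W := Subtype.ext (map_mul (dblN c K) Z W)

theorem dbl_poly (ij) : (fun Z => crd (c0 (m + m)) K (dbl c K Z) ij) ∈ PolyFn (crd c K) :=
  dblN_poly ij.1 ij.2

/-- restriction from `Mat_2m` to `Blk c` -/
noncomputable abbrev rs (c : Fin m → ℕ) (M : PRep (c0 (m + m)) K) : PRep c K :=
  M.res (dbl c K) dbl_poly

/-- `rs (altI M a) = altR (rs M) dblN a` -/
theorem good_rs_alt (hc : Monotone c) (M : PRep (c0 (m + m)) K) (a : ℕ) (h : Good (rs c M)) :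
    Good (rs c (altI M a)) :=
  good_alt_dblN hc (rs c M) a h

end Pool.PI34.A5

end

/-! ### part A5_Y -/
section

/-! PI34, block A5, file Y: the representations `Y_λ`. -/

set_option autoImplicit false

namespace Pool.PI34.A5

open Finset Matrix

variable {m : ℕ} {K : Type} [Field K] [Infinite K]

/-- the trivial representation -/
noncomputable def triv (c : Fin m → ℕ) (K : Type) [Field K] : PRep c K where
  V := K
  ρ := 1
  poly v φ := by simpa using const_mem (crd c K) (φ v)

theorem Y_pos_lt (c : Fin m → ℕ) (i j : Fin m) (h : i < j) (hc : c i = c j) :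
    pos c i < pos c j := by
  unfold pos
  refine Finset.card_lt_card ?_
  rw [Finset.ssubset_iff_of_subset]
  · exact ⟨i, by simp [h, hc], by simp⟩
  · intro l hl
    simp only [Finset.mem_filter, Finset.mem_univ, true_and] at hl ⊢
    exact ⟨hl.1.trans h, hl.2.trans hc⟩

/-- lower unitriangular determinant -/
theorem Dt_zero (c : Fin m → ℕ) : Dt c (fun _ => 0) = 1 := by
  unfold Dt
  rw [Matrix.det_of_lowerTriangular]
  · refine Finset.prod_eq_one fun i _ => ?_
    simp [Dtm]
  · intro i j hij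
    have hlt : i < j := hij
    simp only [Dtm, Matrix.of_apply, zero_add]
    split_ifs with hc
    · rw [Nat.choose_eq_zero_of_lt (Y_pos_lt c i j hlt hc)]
      rfl
    · rfl

omit [Infinite K] in
theorem Y_triv_wt (c : Fin m → ℕ) (κ : Fin m → ℕ) (h : κ ≠ fun _ => 0) :
    (triv c K).wt κ = ⊥ := by
  rw [Submodule.eq_bot_iff]
  intro v hv
  obtain ⟨i, hi⟩ : ∃ i, κ i ≠ 0 := by
    by_contra hcon
    push Not at hcon
    exact h (funext hcon)
  have h1 := hv (fun j => if j = i then 0 else 1)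
  have h2 : tw (fun j => if j = i then (0 : K) else 1) κ = 0 := by
    unfold tw
    refine Finset.prod_eq_zero (Finset.mem_univ i) ?_
    dsimp only
    rw [if_pos rfl, zero_pow hi]
  rw [h2, zero_smul] at h1
  exact h1

omit [Infinite K] in
theorem Y_triv_hs (c : Fin m → ℕ) : (triv c K).hs (fun _ => 0) = ⊤ := by
  rw [Submodule.eq_top_iff']
  intro v
  refine ⟨fun t => ?_, fun g _ => rfl⟩
  have h2 : tw t (fun _ => 0) = 1 := by simp [tw]
  rw [h2, one_smul]
  rfl

/-- `hs 0 = ⊤`, `hs κ = ⊥` for `κ ≠ 0` -/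
theorem good_triv (c : Fin m → ℕ) : Good (triv c K) := by
  unfold Good
  rw [chi_eq_sum (triv c K) {fun _ => 0} (fun κ hκ => by
    rw [Finset.mem_singleton] at hκ
    rw [Submodule.eq_bot_iff]
    intro v hv
    have h1 : v ∈ (triv c K).wt κ := hv.1
    rw [Y_triv_wt c κ hκ, Submodule.mem_bot] at h1
    exact h1), Finset.sum_singleton, Dt_zero, Y_triv_hs, finrank_top, mul_one]

/-- weights of `triv`: only `0` -/
theorem triv_wt (c : Fin m → ℕ) (κ : Fin m → ℕ) (h : (triv c K).wt κ ≠ ⊥) : κ = fun _ => 0 := by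
  by_contra hne
  exact h (Y_triv_wt c κ hne)

theorem triv_wt_ne (c : Fin m → ℕ) : (triv c K).wt (fun _ => 0) ≠ ⊥ := by
  rw [Submodule.ne_bot_iff]
  have h : ∀ v : (triv c K).V, v ∈ (triv c K).wt (fun _ => 0) := fun v => by
    have h1 : v ∈ (triv c K).hs (fun _ => 0) := by
      rw [Y_triv_hs]
      exact Submodule.mem_top
    exact h1.1
  exact ⟨(1 : K), h _, (one_ne_zero : (1 : K) ≠ 0)⟩

theorem ht_add_ind (μ : Fin m → ℕ) (S : Finset (Fin m)) :
    ht (fun i => μ i + ind S i) = ht μ + ∑ i ∈ S, (i : ℕ) := by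
  unfold ht ind
  simp only [mul_add, Finset.sum_add_distrib, mul_ite, mul_one, mul_zero, Finset.sum_ite_mem,
    Finset.univ_inter]

/-- among the subsets of the same cardinality the upper set `T` has the largest sum, strictly -/
theorem upper_sum (S T : Finset (Fin m)) (hT : ∀ i j, i ≤ j → i ∈ T → j ∈ T)
    (hc : S.card = T.card) (hne : S ≠ T) : ∑ i ∈ S, (i : ℕ) < ∑ i ∈ T, (i : ℕ) := by
  have h1 : (S \ T).card = (T \ S).card := by
    have := Finset.card_sdiff_add_card_inter S T
    have := Finset.card_sdiff_add_card_inter T S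
    rw [Finset.inter_comm T S] at this
    omega
  have hpos : (T \ S).Nonempty := by
    rw [← Finset.card_pos, ← h1, Finset.card_pos]
    by_contra hcon
    rw [Finset.not_nonempty_iff_eq_empty, Finset.sdiff_eq_empty_iff_subset] at hcon
    exact hne (Finset.eq_of_subset_of_card_le hcon hc.ge)
  have hS : ∑ i ∈ S, (i : ℕ) = ∑ i ∈ S ∩ T, (i : ℕ) + ∑ i ∈ S \ T, (i : ℕ) :=
    (Finset.sum_inter_add_sum_sdiff S T _).symm
  have hTT : ∑ i ∈ T, (i : ℕ) = ∑ i ∈ S ∩ T, (i : ℕ) + ∑ i ∈ T \ S, (i : ℕ) := by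
    rw [Finset.inter_comm]
    exact (Finset.sum_inter_add_sum_sdiff T S _).symm
  rw [hS, hTT]
  refine Nat.add_lt_add_left ?_ _
  let t0 := (T \ S).min' hpos
  have ht0 : t0 ∈ T \ S := Finset.min'_mem _ _
  rw [Finset.mem_sdiff] at ht0
  have h2 : ∀ i ∈ S \ T, (i : ℕ) ≤ (t0 : ℕ) - 1 := by
    intro i hi
    rw [Finset.mem_sdiff] at hi
    have h3 : i < t0 := by
      by_contra h4
      exact hi.2 (hT t0 i (not_lt.1 h4) ht0.1)
    have h4 : (i : ℕ) < t0 := h3
    omega
  have h3 : ∀ i ∈ T \ S, (t0 : ℕ) ≤ (i : ℕ) := fun i hi => Finset.min'_le _ _ hi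
  have h4 : ∑ i ∈ S \ T, (i : ℕ) ≤ (S \ T).card * ((t0 : ℕ) - 1) := by
    have := Finset.sum_le_card_nsmul (S \ T) (fun i => (i : ℕ)) ((t0 : ℕ) - 1) h2
    simpa using this
  have h5 : (T \ S).card * (t0 : ℕ) ≤ ∑ i ∈ T \ S, (i : ℕ) := by
    have := Finset.card_nsmul_le_sum (T \ S) (fun i => (i : ℕ)) (t0 : ℕ) h3
    simpa using this
  have h6 : 0 < (t0 : ℕ) := by
    obtain ⟨i, hi⟩ : (S \ T).Nonempty := by
      rw [← Finset.card_pos, h1, Finset.card_pos]
      exact hpos
    rw [Finset.mem_sdiff] at hi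
    have h7 : i < t0 := by
      by_contra h8
      exact hi.2 (hT t0 i (not_lt.1 h8) ht0.1)
    exact lt_of_le_of_lt (Nat.zero_le _) (show (i : ℕ) < t0 from h7)
  have h7 : (S \ T).card * ((t0 : ℕ) - 1) < (T \ S).card * (t0 : ℕ) := by
    rw [h1]
    exact Nat.mul_lt_mul_of_pos_left (by omega) (Finset.card_pos.2 hpos)
  omega

end Pool.PI34.A5

end
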