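import Mathlib

/-! ### part GD_0 -/
section

/-!
PI34, block A5 (GEN), part D: definitions.

`A` a finite index set with a colour `c : A → S`, `k` copies.  A function `Th` of the partial maps
`ψ : Fin k × A → Option A` is the family of coefficients of the multilinear function
`fT Th B = Σ_ψ Th ψ ∏_{(r,a), ψ (r,a) = some b} (B_r)_ab` of `k` matrices.
-/

set_option autoImplicit false

namespace Pool.PI34.GD

open Equiv Finset Matrix

variable {A S : Type} [Fintype A] [DecidableEq A] [Fintype S] [DecidableEq S] {k : ℕ}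

/-- the monomial `m_ψ(B)` -/
def mm {R : Type} [CommRing R] (ψ : Fin k × A → Option A) (B : Fin k → Matrix A A R) : R :=
  ∏ x : Fin k × A, (ψ x).elim 1 (fun b => B x.1 x.2 b)

/-- the multilinear function with the coefficients `Th` -/
def fT {R : Type} [CommRing R] (Th : (Fin k × A → Option A) → R) (B : Fin k → Matrix A A R) : R :=
  ∑ ψ, Th ψ * mm ψ B

/-- for every `r` it is a combination of minors of `B_r` -/
def AltC {R : Type} [CommRing R] (Th : (Fin k × A → Option A) → R) : Prop :=
  (∀ (ψ : Fin k × A → Option A) (r : Fin k) (a a' : A), a ≠ a' → ψ (r, a) ≠ none →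
    ψ (r, a') ≠ none → Th (ψ ∘ swap (r, a) (r, a')) = - Th ψ) ∧
  (∀ (ψ : Fin k × A → Option A) (r : Fin k) (a a' : A), a ≠ a' → ψ (r, a) ≠ none →
    ψ (r, a) = ψ (r, a') → Th ψ = 0)

/-- invariance `f(B_1 g, …, B_k g) = f(g B_1, …, g B_k)` for all block diagonal `g` -/
def LI (c : A → S) {R : Type} [CommRing R] (Th : (Fin k × A → Option A) → R) : Prop :=
  ∀ g : Matrix A A R, (∀ a b, c a ≠ c b → g a b = 0) → ∀ B : Fin k → Matrix A A R,
    fT Th (fun r => B r * g) = fT Th (fun r => g * B r)

/-- number of rows of `ψ` over `a` -/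
def rowCt (ψ : Fin k × A → Option A) (a : A) : ℕ :=
  (univ.filter fun x : Fin k × A => x.2 = a ∧ ψ x ≠ none).card

/-- number of columns `a` of `ψ` -/
def colCt (ψ : Fin k × A → Option A) (a : A) : ℕ :=
  (univ.filter fun x : Fin k × A => ψ x = some a).card

/-- colour content of the columns of `ψ` -/
def ct (c : A → S) (ψ : Fin k × A → Option A) (s : S) : ℕ :=
  (univ.filter fun x : Fin k × A => (ψ x).map c = some s).card

/-- the part of content `d` -/
def hom (c : A → S) {R : Type} [CommRing R] (d : S → ℕ) (Th : (Fin k × A → Option A) → R) :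
    (Fin k × A → Option A) → R :=
  fun ψ => if ct c ψ = d then Th ψ else 0

/-- the multilinear pattern: `ψ(ρ b, π b) = some b` for `b ∈ D` and `none` elsewhere -/
def psi (D : Finset A) (π : Perm A) (ρ : A → Fin k) : Fin k × A → Option A :=
  fun x => if π.symm x.2 ∈ D ∧ ρ (π.symm x.2) = x.1 then some (π.symm x.2) else none

/-- `m^s_{r t} = #{e ∈ D : c e = s, ρ e = r, ρ (π⁻¹ e) = t}` -/
def mPR (c : A → S) (D : Finset A) (π : Perm A) (ρ : A → Fin k) : S × Fin k × Fin k → ℕ :=
  fun v => (D.filter fun e => c e = v.1 ∧ ρ e = v.2.1 ∧ ρ (π.symm e) = v.2.2).card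

/-- the coefficients of `det (1 + [(B_r)_ab (X_{c b})_{rt}])` -/
def ThX (c : A → S) {R : Type} [CommRing R] (X : S → Matrix (Fin k) (Fin k) R)
    (ψ : Fin k × A → Option A) : R :=
  (Matrix.of fun x y : Fin k × A => (ψ x).elim (if x = y then 1 else 0)
    (fun b => if b = y.2 then X (c b) x.1 y.1 else 0)).det

/-- the matrix `[(B_r)_ab (X_{c b})_{rt}]_{(r,a),(t,b)}` -/
def MX (c : A → S) {R : Type} [CommRing R] (X : S → Matrix (Fin k) (Fin k) R)
    (B : Fin k → Matrix A A R) : Matrix (Fin k × A) (Fin k × A) R :=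
  Matrix.of fun x y => B x.1 x.2 y.2 * X (c y.2) x.1 y.1

/-- the generic matrices over `K` -/
noncomputable def genX (S : Type) (k : ℕ) (K : Type) [Field K] (s : S) :
    Matrix (Fin k) (Fin k) (MvPolynomial (S × Fin k × Fin k) K) :=
  Matrix.of fun r t => MvPolynomial.X (s, r, t)

end Pool.PI34.GD

end

/-! ### part GD_1 -/
section

/-! PI34, block A5 (GEN), part D, file 1: linear independence, torus weights, homogeneous parts. -/

set_option autoImplicit false

namespace Pool.PI34.GD

open Equiv Finset Matrix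

variable {A S : Type} [Fintype A] [DecidableEq A] [Fintype S] [DecidableEq S] {k : ℕ}

/-- the 0/1 matrices of `ψ0` -/
def zo {R : Type} [CommRing R] (ψ0 : Fin k × A → Option A) : Fin k → Matrix A A R :=
  fun r => Matrix.of fun a b => if ψ0 (r, a) = some b then 1 else 0

/-- `m_ψ(zo ψ0) = 1` if `ψ ≤ ψ0` (i.e. `ψ x = none` or `ψ x = ψ0 x` for all `x`), `0` otherwise -/
theorem mm_zo {R : Type} [CommRing R] (ψ ψ0 : Fin k × A → Option A) :
    mm ψ (zo (R := R) ψ0) = if ∀ x, ψ x = none ∨ ψ x = ψ0 x then 1 else 0 := by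
  unfold mm zo
  split_ifs with h
  · refine Finset.prod_eq_one fun x _ => ?_
    cases hx : ψ x with
    | none => rfl
    | some b =>
      have h1 : ψ0 (x.1, x.2) = some b := by
        rcases h x with h1 | h1
        · rw [hx] at h1
          exact absurd h1 (by simp)
        · rw [← hx, h1]
      simp [h1]
  · push Not at h
    obtain ⟨x, h1, h2⟩ := h
    refine Finset.prod_eq_zero (mem_univ x) ?_
    cases hx : ψ x with
    | none => exact absurd hx h1
    | some b =>
      have h3 : ¬ ψ0 (x.1, x.2) = some b := by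
        intro h4
        exact h2 (hx.trans h4.symm)
      simp [h3]

/-- linear independence of the `m_ψ`: induction on the size of the support of `ψ0`, evaluate at `zo ψ0` -/
theorem fT_ext {R : Type} [CommRing R] (Th Th' : (Fin k × A → Option A) → R)
    (h : ∀ B, fT Th B = fT Th' B) : Th = Th' := by
  have key : ∀ (n : ℕ) (ψ0 : Fin k × A → Option A),
      (univ.filter fun x => ψ0 x ≠ none).card = n → Th ψ0 = Th' ψ0 := by
    intro n
    induction n using Nat.strong_induction_on with
    | _ n ih =>
      intro ψ0 hn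
      have h1 : ∑ ψ, (Th ψ - Th' ψ) * mm ψ (zo (R := R) ψ0) = 0 := by
        have h2 := h (zo ψ0)
        unfold fT at h2
        simp only [sub_mul, Finset.sum_sub_distrib]
        rw [h2, sub_self]
      rw [Finset.sum_eq_single ψ0] at h1
      · rw [mm_zo, if_pos fun x => Or.inr rfl, mul_one] at h1
        exact sub_eq_zero.1 h1
      · intro ψ _ hne
        rw [mm_zo]
        split_ifs with h3
        · have hlt : (univ.filter fun x => ψ x ≠ none).card < n := by
            rw [← hn]
            refine Finset.card_lt_card ?_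
            rw [Finset.ssubset_iff_of_subset]
            · have hex : ∃ x, ψ x ≠ ψ0 x := by
                by_contra hcon
                push Not at hcon
                exact hne (funext hcon)
              obtain ⟨x, hx⟩ := hex
              have hx0 : ψ x = none := (h3 x).resolve_right hx
              refine ⟨x, ?_, ?_⟩
              · simp only [mem_filter, mem_univ, true_and]
                intro h4
                exact hx (hx0.trans h4.symm)
              · simp [hx0]
            · intro x hx
              simp only [mem_filter, mem_univ, true_and] at hx ⊢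
              rw [← (h3 x).resolve_left hx]
              exact hx
          rw [ih _ hlt ψ rfl, sub_self, zero_mul]
        · rw [mul_zero]
      · intro h4
        exact absurd (mem_univ _) h4
  exact funext fun ψ0 => key _ ψ0 rfl

/-- scaling the columns: `m_ψ(B diag t) = (∏_b t_b^{colCt ψ b}) m_ψ(B)` -/
theorem mm_mul_diagonal {R : Type} [CommRing R] (ψ : Fin k × A → Option A)
    (B : Fin k → Matrix A A R) (t : A → R) :
    mm ψ (fun r => B r * Matrix.diagonal t) = (∏ b, t b ^ colCt ψ b) * mm ψ B := by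
  have h1 : ∀ b, t b ^ colCt ψ b = ∏ x : Fin k × A, if ψ x = some b then t b else 1 := by
    intro b
    rw [Finset.prod_ite, Finset.prod_const, Finset.prod_const_one, mul_one]
    rfl
  simp only [h1]
  rw [Finset.prod_comm]
  unfold mm
  rw [← Finset.prod_mul_distrib]
  refine Finset.prod_congr rfl fun x _ => ?_
  cases hx : ψ x with
  | none => simp
  | some b =>
    have h2 : (∏ b' : A, if some b = some b' then t b' else 1) = t b := by
      rw [Finset.prod_eq_single b]
      · simp
      · intro b' _ hb'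
        rw [if_neg]
        intro h3
        exact hb' (Option.some.inj h3).symm
      · intro h3
        exact absurd (mem_univ _) h3
    rw [h2]
    simp only [Option.elim_some, Matrix.mul_diagonal]
    exact mul_comm _ _

/-- scaling the rows: `m_ψ(diag t B) = (∏_a t_a^{rowCt ψ a}) m_ψ(B)` -/
theorem mm_diagonal_mul {R : Type} [CommRing R] (ψ : Fin k × A → Option A)
    (B : Fin k → Matrix A A R) (t : A → R) :
    mm ψ (fun r => Matrix.diagonal t * B r) = (∏ a, t a ^ rowCt ψ a) * mm ψ B := by
  have h1 : ∀ a, t a ^ rowCt ψ a =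
      ∏ x : Fin k × A, if x.2 = a ∧ ψ x ≠ none then t a else 1 := by
    intro a
    rw [Finset.prod_ite, Finset.prod_const, Finset.prod_const_one, mul_one]
    rfl
  simp only [h1]
  rw [Finset.prod_comm]
  unfold mm
  rw [← Finset.prod_mul_distrib]
  refine Finset.prod_congr rfl fun x _ => ?_
  cases hx : ψ x with
  | none => simp
  | some b =>
    have h2 : (∏ a : A, if x.2 = a ∧ some b ≠ none then t a else 1) = t x.2 := by
      rw [Finset.prod_eq_single x.2]
      · simp
      · intro b' _ hb'
        rw [if_neg]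
        intro h3
        exact hb' h3.1.symm
      · intro h3
        exact absurd (mem_univ _) h3
    rw [h2]
    simp only [Option.elim_some, Matrix.diagonal_mul]

variable {K : Type} [Field K] [Infinite K]

/-- PROOF.  `g = diag t` in `LI`, `fT_ext`: `Th ψ ∏ t_b^{colCt} = Th ψ ∏ t_a^{rowCt}` for all `t`; take all `t_b = 1`
except `t_a = τ`: `τ^{colCt ψ a} = τ^{rowCt ψ a}` for all `τ` in the infinite field `K`. -/
theorem balanced (c : A → S) (Th : (Fin k × A → Option A) → K) (h : LI c Th)
    (ψ : Fin k × A → Option A) (hψ : Th ψ ≠ 0) (a : A) : rowCt ψ a = colCt ψ a := by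
  have h1 : ∀ t : A → K, Th ψ * ∏ b, t b ^ colCt ψ b = Th ψ * ∏ b, t b ^ rowCt ψ b := by
    intro t
    have h2 := fT_ext (fun ψ => Th ψ * ∏ b, t b ^ colCt ψ b) (fun ψ => Th ψ * ∏ b, t b ^ rowCt ψ b)
      (by
        intro B
        have h3 := h (Matrix.diagonal t)
          (fun a b hab => Matrix.diagonal_apply_ne _ fun e => hab (by rw [e])) B
        unfold fT at h3 ⊢
        simp only [mm_mul_diagonal, mm_diagonal_mul] at h3
        simp only [mul_assoc]
        exact h3)
    exact congrFun h2 ψ
  have h4 : ∀ τ : K, τ ^ colCt ψ a = τ ^ rowCt ψ a := by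
    intro τ
    have h5 := mul_left_cancel₀ hψ (h1 (Function.update (fun _ => 1) a τ))
    have h6 : ∀ n : A → ℕ, ∏ b, (Function.update (fun _ => (1 : K)) a τ) b ^ n b = τ ^ n a := by
      intro n
      rw [Finset.prod_eq_single a]
      · simp
      · intro b _ hb
        rw [Function.update_of_ne hb, one_pow]
      · intro h7
        exact absurd (mem_univ _) h7
    rw [h6, h6] at h5
    exact h5
  have h8 : (Polynomial.X ^ colCt ψ a : Polynomial K) = Polynomial.X ^ rowCt ψ a := by
    refine Polynomial.funext fun τ => ?_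
    simpa using h4 τ
  have h9 := congrArg Polynomial.natDegree h8
  rw [Polynomial.natDegree_X_pow, Polynomial.natDegree_X_pow] at h9
  exact h9.symm

/-- `ct` and `colCt` -/
theorem ct_eq_sum (c : A → S) (ψ : Fin k × A → Option A) (s : S) :
    ct c ψ s = ∑ b ∈ univ.filter (fun b => c b = s), colCt ψ b := by
  unfold ct colCt
  rw [← Finset.card_biUnion]
  · congr 1
    ext x
    simp only [mem_filter, mem_univ, true_and, mem_biUnion, Option.map_eq_some_iff]
    constructor
    · rintro ⟨b, h1, h2⟩
      exact ⟨b, h2, h1⟩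
    · rintro ⟨b, h1, h2⟩
      exact ⟨b, h2, h1⟩
  · intro b _ b' _ hb
    refine Finset.disjoint_left.2 fun x hx hx' => ?_
    simp only [mem_filter, mem_univ, true_and] at hx hx'
    exact hb (Option.some.inj (hx.symm.trans hx'))

/-- total size of the support -/
theorem sum_ct (c : A → S) (ψ : Fin k × A → Option A) :
    ∑ s, ct c ψ s = (univ.filter fun x : Fin k × A => ψ x ≠ none).card := by
  unfold ct
  rw [← Finset.card_biUnion]
  · congr 1
    ext x
    simp only [mem_filter, mem_univ, true_and, mem_biUnion, Option.map_eq_some_iff]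
    constructor
    · rintro ⟨s, b, h1, h2⟩
      rw [h1]
      simp
    · intro h1
      obtain ⟨b, hb⟩ := Option.ne_none_iff_exists'.1 h1
      exact ⟨c b, b, hb, rfl⟩
  · intro b _ b' _ hb
    refine Finset.disjoint_left.2 fun x hx hx' => ?_
    simp only [mem_filter, mem_univ, true_and] at hx hx'
    exact hb (Option.some.inj (hx.symm.trans hx'))

theorem ct_comp_swap (c : A → S) (ψ : Fin k × A → Option A) (u v : Fin k × A) :
    ct c (ψ ∘ swap u v) = ct c ψ := by
  funext s
  unfold ct
  refine Finset.card_equiv (swap u v) fun x => ?_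
  simp [Function.comp]

theorem hom_AltC (c : A → S) (d : S → ℕ) (Th : (Fin k × A → Option A) → K) (h : AltC Th) :
    AltC (hom c d Th) := by
  constructor
  · intro ψ r a a' h1 h2 h3
    unfold hom
    rw [ct_comp_swap]
    split_ifs
    · exact h.1 ψ r a a' h1 h2 h3
    · simp
  · intro ψ r a a' h1 h2 h3
    unfold hom
    split_ifs
    · exact h.2 ψ r a a' h1 h2 h3
    · rfl

/-- weights: `fT Th (B diag(z_{c b})) = Σ_ψ ... `, as a polynomial in `z` its coefficient at `z^d` is
`fT (hom d Th) B` -/
theorem fT_scale (c : A → S) (Th : (Fin k × A → Option A) → K) (B : Fin k → Matrix A A K)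
    (z : S → K) :
    fT Th (fun r => B r * Matrix.diagonal fun b => z (c b)) =
      ∑ ψ, (∏ s, z s ^ ct c ψ s) * (Th ψ * mm ψ B) := by
  unfold fT
  refine Finset.sum_congr rfl fun ψ _ => ?_
  rw [mm_mul_diagonal]
  have h1 : ∏ s, z s ^ ct c ψ s = ∏ b, z (c b) ^ colCt ψ b := by
    rw [← Finset.prod_fiberwise univ c (fun b => z (c b) ^ colCt ψ b)]
    refine Finset.prod_congr rfl fun s _ => ?_
    rw [ct_eq_sum, ← Finset.prod_pow_eq_pow_sum]
    refine Finset.prod_congr rfl fun b hb => ?_
    rw [(mem_filter.1 hb).2]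
  rw [h1]
  ring

/-- comparison of coefficients: two families of weights which agree for all `z` agree in every content -/
theorem coeff_compare (c : A → S) (F G : (Fin k × A → Option A) → K)
    (h : ∀ z : S → K, ∑ ψ, (∏ s, z s ^ ct c ψ s) * F ψ = ∑ ψ, (∏ s, z s ^ ct c ψ s) * G ψ)
    (d : S → ℕ) :
    ∑ ψ ∈ univ.filter (fun ψ => ct c ψ = d), F ψ = ∑ ψ ∈ univ.filter (fun ψ => ct c ψ = d), G ψ := by
  classical
  let P : ((Fin k × A → Option A) → K) → MvPolynomial S K := fun F =>
    ∑ ψ, MvPolynomial.monomial (Finsupp.equivFunOnFinite.symm (ct c ψ)) (F ψ)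
  have hP : ∀ (F : (Fin k × A → Option A) → K) (z : S → K),
      MvPolynomial.eval z (P F) = ∑ ψ, (∏ s, z s ^ ct c ψ s) * F ψ := by
    intro F z
    simp only [P, map_sum, MvPolynomial.eval_monomial]
    refine Finset.sum_congr rfl fun ψ _ => ?_
    rw [Finsupp.prod_fintype _ _ (fun s => pow_zero _), mul_comm]
    rfl
  have hE : P F = P G := MvPolynomial.funext fun z => by rw [hP, hP, h z]
  have hC : ∀ F : (Fin k × A → Option A) → K,
      (P F).coeff (Finsupp.equivFunOnFinite.symm d) =
        ∑ ψ ∈ univ.filter (fun ψ => ct c ψ = d), F ψ := by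
    intro F
    simp only [P, MvPolynomial.coeff_sum, MvPolynomial.coeff_monomial]
    rw [Finset.sum_filter]
    refine Finset.sum_congr rfl fun ψ _ => ?_
    simp only [EmbeddingLike.apply_eq_iff_eq]
  rw [← hC F, ← hC G, hE]

/-- PROOF.  `LI` for `Th` at `B_r diag(z_c)`; `g` commutes with `diag(z_c)`; `fT_scale` and `coeff_compare`. -/
theorem hom_LI (c : A → S) (d : S → ℕ) (Th : (Fin k × A → Option A) → K) (h : LI c Th) :
    LI c (hom c d Th) := by
  intro g hg B
  have hcomm : ∀ z : S → K, Matrix.diagonal (fun b => z (c b)) * g =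
      g * Matrix.diagonal fun b => z (c b) := by
    intro z
    ext a b
    rw [Matrix.diagonal_mul, Matrix.mul_diagonal]
    by_cases hab : c a = c b
    · rw [hab, mul_comm]
    · rw [hg a b hab, mul_zero, zero_mul]
  have h1 : ∀ z : S → K,
      ∑ ψ, (∏ s, z s ^ ct c ψ s) * (Th ψ * mm ψ (fun r => B r * g)) =
        ∑ ψ, (∏ s, z s ^ ct c ψ s) * (Th ψ * mm ψ (fun r => g * B r)) := by
    intro z
    rw [← fT_scale, ← fT_scale]
    have h2 := h g hg (fun r => B r * Matrix.diagonal fun b => z (c b))
    have e1 : (fun r => B r * g * Matrix.diagonal fun b => z (c b)) =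
        fun r => B r * (Matrix.diagonal fun b => z (c b)) * g := by
      funext r
      rw [Matrix.mul_assoc, ← hcomm, Matrix.mul_assoc]
    have e2 : (fun r => g * B r * Matrix.diagonal fun b => z (c b)) =
        fun r => g * (B r * Matrix.diagonal fun b => z (c b)) := by
      funext r
      rw [Matrix.mul_assoc]
    rw [e1, e2]
    exact h2
  have h3 := coeff_compare c _ _ h1 d
  have h4 : ∀ B' : Fin k → Matrix A A K, fT (hom c d Th) B' =
      ∑ ψ ∈ univ.filter (fun ψ => ct c ψ = d), Th ψ * mm ψ B' := by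
    intro B'
    unfold fT hom
    rw [Finset.sum_filter]
    refine Finset.sum_congr rfl fun ψ _ => ?_
    split_ifs
    · rfl
    · rw [zero_mul]
  rw [h4, h4]
  exact h3

end Pool.PI34.GD

end

/-! ### part GD_3 -/
section

/-! PI34, block A5 (GEN), part D, file 3: the determinant. -/

set_option autoImplicit false

namespace Pool.PI34.GD

open Equiv Finset Matrix

variable {A S : Type} [Fintype A] [DecidableEq A] [Fintype S] [DecidableEq S] {k : ℕ}
variable {R : Type} [CommRing R]

/-- the row `x` of the matrix for the option `o` -/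
def rowW (c : A → S) (X : S → Matrix (Fin k) (Fin k) R) (x : Fin k × A) (o : Option A) :
    Fin k × A → R :=
  fun y => o.elim (if x = y then 1 else 0) (fun b => if b = y.2 then X (c b) x.1 y.1 else 0)

/-- multilinearity of the determinant in the rows: the row `x` of `1 + MX` is
`Σ_{o : Option A} (o.elim 1 (B_r)_{a b}) • w_{x,o}` (`MultilinearMap.map_sum`, `Matrix.detRowAlternating`) -/
theorem fT_ThX (c : A → S) (X : S → Matrix (Fin k) (Fin k) R) (B : Fin k → Matrix A A R) :
    fT (ThX c X) B = (1 + MX c X B).det := by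
  have hrow : ∀ x : Fin k × A, (1 + MX c X B) x =
      ∑ o : Option A, (o.elim 1 (fun b => B x.1 x.2 b) : R) • rowW c X x o := by
    intro x
    funext y
    rw [Finset.sum_apply, Fintype.sum_option]
    simp only [Pi.smul_apply, smul_eq_mul, rowW, Option.elim_none, Option.elim_some, one_mul,
      Matrix.add_apply, Matrix.one_apply, MX, Matrix.of_apply]
    congr 1
    simp only [mul_ite, mul_zero]
    rw [Finset.sum_ite_eq' Finset.univ y.2]
    simp
  have h1 : (1 + MX c X B).det = (Matrix.detRowAlternating (R := R) (n := Fin k × A)).toMultilinearMap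
      (fun x => ∑ o : Option A, (o.elim 1 (fun b => B x.1 x.2 b) : R) • rowW c X x o) := by
    have : (fun x => ∑ o : Option A, (o.elim 1 (fun b => B x.1 x.2 b) : R) • rowW c X x o) =
        (1 + MX c X B : Matrix (Fin k × A) (Fin k × A) R) := by
      funext x
      exact (hrow x).symm
    rw [this]
    rfl
  rw [h1, MultilinearMap.map_sum, fT]
  refine Finset.sum_congr rfl fun ψ _ => ?_
  rw [MultilinearMap.map_smul_univ, smul_eq_mul, mul_comm]
  rfl

/-- `MX (B g) = MX B * (g ⊗ 1)`, `MX (g B) = (g ⊗ 1) * MX B` for block diagonal `g`, `det (1 + MN) = det (1 + NM)` -/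
theorem ThX_LI (c : A → S) (X : S → Matrix (Fin k) (Fin k) R) : LI c (ThX c X) := by
  intro g hg B
  rw [fT_ThX, fT_ThX]
  have h1 : MX c X (fun r => B r * g) =
      MX c X B * (Matrix.of fun x y : Fin k × A => if x.1 = y.1 then g x.2 y.2 else 0) := by
    ext ⟨r, a⟩ ⟨t, b⟩
    simp only [MX, Matrix.of_apply, Matrix.mul_apply, Fintype.sum_prod_type, mul_ite, mul_zero]
    rw [Finset.sum_comm, Finset.sum_mul]
    refine Finset.sum_congr rfl fun e _ => ?_
    rw [Finset.sum_ite_eq' Finset.univ t]
    simp only [Finset.mem_univ, if_true]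
    by_cases h : c e = c b
    · rw [h]; ring
    · rw [hg e b h]; ring
  have h2 : MX c X (fun r => g * B r) =
      (Matrix.of fun x y : Fin k × A => if x.1 = y.1 then g x.2 y.2 else 0) * MX c X B := by
    ext ⟨r, a⟩ ⟨t, b⟩
    simp only [MX, Matrix.of_apply, Matrix.mul_apply, Fintype.sum_prod_type, ite_mul, zero_mul]
    rw [Finset.sum_comm, Finset.sum_mul]
    refine Finset.sum_congr rfl fun e _ => ?_
    rw [Finset.sum_ite_eq Finset.univ r]
    simp only [Finset.mem_univ, if_true]
    ring
  rw [h1, h2]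
  exact Matrix.det_one_add_mul_comm _ _

theorem psi_none (D : Finset A) (π : Perm A) (ρ : A → Fin k) (x : Fin k × A)
    (h : psi D π ρ x = none) : ¬ (π.symm x.2 ∈ D ∧ ρ (π.symm x.2) = x.1) := by
  intro hc
  rw [psi, if_pos hc] at h
  exact absurd h (by simp)

theorem psi_some (D : Finset A) (π : Perm A) (ρ : A → Fin k) (x : Fin k × A) (b : A)
    (h : psi D π ρ x = some b) : π.symm x.2 ∈ D ∧ ρ (π.symm x.2) = x.1 ∧ b = π.symm x.2 := by
  rw [psi] at h
  split_ifs at h with hc
  exact ⟨hc.1, hc.2, (Option.some.inj h).symm⟩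

/-- the embedding `a ↦ (ρ (π⁻¹ a), a)` -/
def io (π : Perm A) (ρ : A → Fin k) (a : A) : Fin k × A := (ρ (π.symm a), a)

theorem io_inj (π : Perm A) (ρ : A → Fin k) : Function.Injective (io π ρ) := by
  intro a b h
  exact (Prod.ext_iff.1 h).2

/-- the permutation -/
noncomputable def tau0 (π : Perm A) (ρ : A → Fin k) : Perm (Fin k × A) :=
  (π⁻¹ : Perm A).extendDomain (p := fun y => y ∈ Set.range (io π ρ))
    (Equiv.ofInjective (io π ρ) (io_inj π ρ))

theorem tau0_io (π : Perm A) (ρ : A → Fin k) (a : A) :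
    tau0 π ρ (io π ρ a) = io π ρ (π.symm a) := by
  have h := Equiv.Perm.extendDomain_apply_image (p := fun y => y ∈ Set.range (io π ρ)) (π⁻¹ : Perm A)
    (Equiv.ofInjective (io π ρ) (io_inj π ρ)) a
  exact h

theorem tau0_not (π : Perm A) (ρ : A → Fin k) (x : Fin k × A) (h : x ∉ Set.range (io π ρ)) :
    tau0 π ρ x = x :=
  Equiv.Perm.extendDomain_apply_not_subtype _ _ h

theorem sign_tau0 (π : Perm A) (ρ : A → Fin k) : Perm.sign (tau0 π ρ) = Perm.sign π := by
  rw [tau0, Equiv.Perm.sign_extendDomain, Perm.sign_inv]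

theorem tau0_none (D : Finset A) (π : Perm A) (hπ : ∀ a, a ∉ D → π a = a) (ρ : A → Fin k)
    (x : Fin k × A) (h : psi D π ρ x = none) : tau0 π ρ x = x := by
  by_cases hx : x ∈ Set.range (io π ρ)
  · obtain ⟨a, rfl⟩ := hx
    have h' := psi_none D π ρ _ h
    have h2 : π.symm a ∉ D := fun hc => h' ⟨hc, rfl⟩
    have h3 : π.symm a = a := by
      have := hπ _ h2
      rw [Equiv.apply_symm_apply] at this
      exact this.symm
    rw [tau0_io, h3]
  · exact tau0_not π ρ x hx

theorem tau0_some (D : Finset A) (π : Perm A) (ρ : A → Fin k)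
    (x : Fin k × A) (b : A) (h : psi D π ρ x = some b) : tau0 π ρ x = (ρ (π.symm b), b) := by
  obtain ⟨h1, h2, h3⟩ := psi_some D π ρ x b h
  have hx : x = io π ρ x.2 := by
    refine Prod.ext h2.symm rfl
  rw [hx, tau0_io, ← h3]
  rfl

/-- only the permutation `(ρ b, π b) ↦ (ρ (π⁻¹ b), b)` contributes; its sign is `sgn π` -/
theorem ThX_psi (c : A → S) (X : S → Matrix (Fin k) (Fin k) R) (D : Finset A) (π : Perm A)
    (hπ : ∀ a, a ∉ D → π a = a) (ρ : A → Fin k) :
    ThX c X (psi D π ρ) =
      ((Perm.sign π : ℤˣ) : ℤ) * ∏ b ∈ D, X (c b) (ρ b) (ρ (π.symm b)) := by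
  rw [ThX, ← Matrix.det_transpose, Matrix.det_apply', Finset.sum_eq_single (tau0 π ρ)]
  · rw [sign_tau0]
    congr 1
    have hinj : Function.Injective (fun b : A => ((ρ b, π b) : Fin k × A)) := by
      intro a b h
      exact π.injective (Prod.ext_iff.1 h).2
    rw [← Finset.prod_subset (Finset.subset_univ (D.image fun b : A => ((ρ b, π b) : Fin k × A))),
      Finset.prod_image (fun a _ b _ h => hinj h)]
    · refine Finset.prod_congr rfl fun b hb => ?_
      have hs : psi D π ρ (ρ b, π b) = some b := by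
        rw [psi]
        simp [hb]
      rw [Matrix.transpose_apply, Matrix.of_apply, tau0_some D π ρ _ b hs, hs]
      simp
    · intro x _ hx
      have hn : psi D π ρ x = none := by
        rcases hp : psi D π ρ x with _ | b
        · rfl
        · exfalso
          obtain ⟨h1, h2, h3⟩ := psi_some D π ρ x b hp
          apply hx
          rw [Finset.mem_image]
          refine ⟨b, h3 ▸ h1, ?_⟩
          refine Prod.ext ?_ ?_
          · rw [h3]; exact h2
          · rw [h3]; exact Equiv.apply_symm_apply _ _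
      rw [Matrix.transpose_apply, Matrix.of_apply, tau0_none D π hπ ρ x hn, hn]
      simp
  · intro σ _ hσ
    rw [mul_eq_zero_of_right]
    by_contra hne
    have hall : ∀ x, (Matrix.of fun x y : Fin k × A => (psi D π ρ x).elim (if x = y then 1 else 0)
        (fun b => if b = y.2 then X (c b) x.1 y.1 else 0)) x (σ x) ≠ 0 := by
      intro x h0
      exact hne (Finset.prod_eq_zero (Finset.mem_univ x) h0)
    have hnone : ∀ x, psi D π ρ x = none → σ x = x := by
      intro x hx
      have := hall x
      rw [Matrix.of_apply, hx, Option.elim_none] at this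
      by_contra hc
      exact this (if_neg fun h => hc h.symm)
    have hsome : ∀ x b, psi D π ρ x = some b → (σ x).2 = b := by
      intro x b hx
      have := hall x
      rw [Matrix.of_apply, hx, Option.elim_some] at this
      by_contra hc
      exact this (if_neg fun h => hc h.symm)
    apply hσ
    ext1 x
    rcases hp : psi D π ρ x with _ | b
    · rw [hnone x hp, tau0_none D π hπ ρ x hp]
    · rw [tau0_some D π ρ x b hp]
      have h2 := hsome x b hp
      refine Prod.ext ?_ h2
      rcases hq : psi D π ρ (σ x) with _ | b'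
      · exfalso
        have := hnone _ hq
        have h3 : σ x = x := σ.injective this
        rw [h3, hp] at hq
        exact absurd hq (by simp)
      · obtain ⟨_, h4, _⟩ := psi_some D π ρ (σ x) b' hq
        rw [h2] at h4
        exact h4.symm
  · intro h
    exact absurd (Finset.mem_univ _) h

/-- the coefficients of `ThX` for the generic matrices: the degree in `X_s` is the content -/
theorem ThX_content (c : A → S) (K : Type) [Field K] (ψ : Fin k × A → Option A)
    (m : S × Fin k × Fin k →₀ ℕ) (h : (ThX c (genX S k K) ψ).coeff m ≠ 0) (s : S) :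
    ct c ψ s = ∑ r, ∑ t, m (s, r, t) := by
  have hw : MvPolynomial.IsWeightedHomogeneous
      (fun v : S × Fin k × Fin k => if v.1 = s then (1 : ℕ) else 0)
      (ThX c (genX S k K) ψ) (ct c ψ s) := by
    rw [ThX, ← Matrix.det_transpose, Matrix.det_apply]
    refine MvPolynomial.IsWeightedHomogeneous.sum _ _ _ fun σ _ => ?_
    have hp : MvPolynomial.IsWeightedHomogeneous
        (fun v : S × Fin k × Fin k => if v.1 = s then (1 : ℕ) else 0)
        (∏ x, (Matrix.of fun x y : Fin k × A => (ψ x).elim (if x = y then 1 else 0)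
          (fun b => if b = y.2 then genX S k K (c b) x.1 y.1 else 0) :
            Matrix (Fin k × A) (Fin k × A) (MvPolynomial (S × Fin k × Fin k) K)).transpose
            (σ x) x)
        (∑ x : Fin k × A, if (ψ x).map c = some s then 1 else 0) := by
      refine MvPolynomial.IsWeightedHomogeneous.prod _ _ _ fun x _ => ?_
      rw [Matrix.transpose_apply, Matrix.of_apply]
      rcases hx : ψ x with _ | b
      · simp only [Option.elim_none, Option.map_none, reduceCtorEq, if_false]
        split_ifs
        · exact MvPolynomial.isWeightedHomogeneous_one _ _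
        · exact MvPolynomial.isWeightedHomogeneous_zero _ _ _
      · simp only [Option.elim_some, Option.map_some, Option.some.injEq]
        split_ifs with h1 h2
        · have := MvPolynomial.isWeightedHomogeneous_X K
            (fun v : S × Fin k × Fin k => if v.1 = s then (1 : ℕ) else 0) (c b, x.1, (σ x).1)
          simp only [h2, if_true] at this
          rw [genX, Matrix.of_apply, h2]
          exact this
        · have := MvPolynomial.isWeightedHomogeneous_X K
            (fun v : S × Fin k × Fin k => if v.1 = s then (1 : ℕ) else 0) (c b, x.1, (σ x).1)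
          simp only [h2, if_false] at this
          rw [genX, Matrix.of_apply]
          exact this
        · exact MvPolynomial.isWeightedHomogeneous_zero _ _ _
        · exact MvPolynomial.isWeightedHomogeneous_zero _ _ _
    have hct : (∑ x : Fin k × A, if (ψ x).map c = some s then 1 else 0) = ct c ψ s := by
      rw [ct, Finset.card_filter]
    rw [hct] at hp
    rcases Int.units_eq_one_or (Perm.sign σ) with hs | hs
    · rw [hs, one_smul]; exact hp
    · rw [hs, Units.neg_smul, one_smul]
      intro d hd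
      apply hp
      rw [MvPolynomial.coeff_neg] at hd
      exact neg_ne_zero.1 hd
  have h1 := hw h
  rw [← h1, Finsupp.weight_apply, Finsupp.sum_fintype _ _ (by intro i; simp)]
  rw [Fintype.sum_prod_type]
  rw [Finset.sum_eq_single s]
  · rw [Fintype.sum_prod_type]
    simp
  · intro s' _ hs'
    apply Finset.sum_eq_zero
    intro v _
    simp [hs']
  · intro h
    exact absurd (Finset.mem_univ _) h

/-- the value at a multilinear pattern for the generic matrices: the monomial `mPR` -/
theorem ThX_psi_gen (c : A → S) (K : Type) [Field K] (D : Finset A) (π : Perm A)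
    (hπ : ∀ a, a ∉ D → π a = a) (ρ : A → Fin k) :
    ThX c (genX S k K) (psi D π ρ) =
      MvPolynomial.monomial (Finsupp.equivFunOnFinite.symm (mPR c D π ρ))
        (((Perm.sign π : ℤˣ) : ℤ) : K) := by
  rw [ThX_psi c (genX S k K) D π hπ ρ]
  have h1 : ∏ b ∈ D, genX S k K (c b) (ρ b) (ρ (π.symm b)) =
      MvPolynomial.monomial (∑ b ∈ D, Finsupp.single (c b, ρ b, ρ (π.symm b)) 1) (1 : K) := by
    rw [MvPolynomial.monomial_sum_one]
    refine Finset.prod_congr rfl fun b _ => ?_
    rfl
  have h2 : (∑ b ∈ D, Finsupp.single (c b, ρ b, ρ (π.symm b)) 1) =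
      (Finsupp.equivFunOnFinite.symm (mPR c D π ρ) : S × Fin k × Fin k →₀ ℕ) := by
    ext v
    rw [Finsupp.coe_finsetSum, Finset.sum_apply]
    simp only [Finsupp.single_apply, Finsupp.equivFunOnFinite_symm_apply_apply, mPR]
    rw [Finset.card_filter]
    refine Finset.sum_congr rfl fun b _ => ?_
    congr 1
    simp only [eq_iff_iff]
    constructor
    · rintro rfl; exact ⟨rfl, rfl, rfl⟩
    · rintro ⟨h1, h2, h3⟩
      ext1
      · exact h1
      · ext1
        · exact h2
        · exact h3
  rw [h1, h2]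
  rw [show (((((Perm.sign π : ℤˣ) : ℤ)) : MvPolynomial (S × Fin k × Fin k) K)) =
    MvPolynomial.C ((((Perm.sign π : ℤˣ) : ℤ)) : K) from by
      rw [map_intCast]]
  rw [MvPolynomial.C_mul_monomial, mul_one]

end Pool.PI34.GD

end

/-! ### part GD_4 -/
section

/-! PI34, block A5 (GEN), part D, file 4: the coefficients depend only on `mPR`. -/

set_option autoImplicit false

namespace Pool.PI34.GD

open Equiv Finset Matrix

variable {A S : Type} [Fintype A] [DecidableEq A] [Fintype S] [DecidableEq S] {k : ℕ}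
variable {K : Type} [Field K] [Infinite K]

theorem gd4_mm_right (w : Perm A) (ψ : Fin k × A → Option A) (B : Fin k → Matrix A A K) :
    mm ψ (fun r => B r * Matrix.of fun a b => if w a = b then (1 : K) else 0) =
      mm (fun x => (ψ x).map w.symm) B := by
  unfold mm
  refine Finset.prod_congr rfl fun x _ => ?_
  simp only
  cases h : ψ x with
  | none => simp
  | some b =>
    simp only [Option.map_some, Option.elim_some]
    rw [Matrix.mul_apply, Finset.sum_eq_single (w.symm b)]
    · rw [Matrix.of_apply, if_pos (w.apply_symm_apply b), mul_one]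
    · intro c _ hc
      rw [Matrix.of_apply, if_neg, mul_zero]
      intro e
      apply hc
      rw [← e, w.symm_apply_apply]
    · intro h; exact absurd (Finset.mem_univ _) h

theorem gd4_mm_left (w : Perm A) (ψ : Fin k × A → Option A) (B : Fin k → Matrix A A K) :
    mm ψ (fun r => (Matrix.of fun a b => if w a = b then (1 : K) else 0) * B r) =
      mm (fun x => ψ (x.1, w.symm x.2)) B := by
  unfold mm
  have h1 : ∀ x : Fin k × A, (ψ x).elim 1 (fun b => ((Matrix.of fun a b =>
      if w a = b then (1 : K) else 0) * B x.1) x.2 b)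
      = (ψ x).elim 1 (fun b => B x.1 (w x.2) b) := by
    intro x
    cases h : ψ x with
    | none => rfl
    | some b =>
      rw [Option.elim_some, Option.elim_some, Matrix.mul_apply, Finset.sum_eq_single (w x.2)]
      · rw [Matrix.of_apply, if_pos rfl, one_mul]
      · intro c _ hc
        rw [Matrix.of_apply, if_neg (fun e => hc e.symm), zero_mul]
      · intro h; exact absurd (Finset.mem_univ _) h
  rw [Finset.prod_congr rfl fun x _ => h1 x]
  have h2 := Equiv.prod_comp ((Equiv.refl (Fin k)).prodCongr w)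
    (fun x : Fin k × A => (ψ (x.1, w.symm x.2)).elim (1 : K) (fun b => B x.1 x.2 b))
  rw [← h2]
  refine Finset.prod_congr rfl fun x _ => ?_
  simp

/-- relabelling: `LI` at a permutation matrix `g` (colour preserving `w`): `Th (w ψ) = Th ψ`, where
`(w ψ)(r, w a) = (ψ (r, a)).map w` -/
theorem Th_relabel (c : A → S) (Th : (Fin k × A → Option A) → K) (h : LI c Th) (w : Perm A)
    (hw : ∀ a, c (w a) = c a) (ψ : Fin k × A → Option A) :
    Th (fun x => (ψ (x.1, w.symm x.2)).map w) = Th ψ := by
  have hg : ∀ a b, c a ≠ c b → (Matrix.of fun a b => if w a = b then (1 : K) else 0) a b = 0 := by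
    intro a b hab
    rw [Matrix.of_apply, if_neg]
    intro e
    apply hab
    rw [← e, hw]
  have h0 := h _ hg
  have h1 : ∀ B : Fin k → Matrix A A K, fT (fun φ => Th (fun x => (φ x).map w)) B =
      fT Th (fun r => B r * Matrix.of fun a b => if w a = b then (1 : K) else 0) := by
    intro B
    unfold fT
    have h2 := Equiv.sum_comp ((Equiv.refl (Fin k × A)).arrowCongr (Equiv.optionCongr w))
      (fun ψ => Th ψ * mm ψ (fun r => B r * Matrix.of fun a b => if w a = b then (1 : K) else 0))
    rw [← h2]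
    refine Finset.sum_congr rfl fun φ _ => ?_
    have h3 : ((Equiv.refl (Fin k × A)).arrowCongr (Equiv.optionCongr w)) φ
        = fun x => (φ x).map w := rfl
    rw [h3, gd4_mm_right]
    congr 2
    funext x
    cases φ x with
    | none => rfl
    | some b => simp
  have h2 : ∀ B : Fin k → Matrix A A K, fT (fun φ => Th (fun x => φ (x.1, w x.2))) B =
      fT Th (fun r => (Matrix.of fun a b => if w a = b then (1 : K) else 0) * B r) := by
    intro B
    unfold fT
    have h2 := Equiv.sum_comp (((Equiv.refl (Fin k)).prodCongr w).symm.arrowCongr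
      (Equiv.refl (Option A)))
      (fun ψ => Th ψ * mm ψ (fun r => (Matrix.of fun a b => if w a = b then (1 : K) else 0) * B r))
    rw [← h2]
    refine Finset.sum_congr rfl fun φ _ => ?_
    have h3 : (((Equiv.refl (Fin k)).prodCongr w).symm.arrowCongr (Equiv.refl (Option A))) φ
        = fun x => φ (x.1, w x.2) := rfl
    rw [h3, gd4_mm_left]
    congr 2
    funext x
    simp
  have h3 := fT_ext _ _ (fun B => (h1 B).trans ((h0 B).trans (h2 B).symm))
  have h4 := congrFun h3 (fun x => ψ (x.1, w.symm x.2))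
  simpa using h4

/-- `psi` under relabelling by `w` with `w D = D` -/
theorem psi_relabel (D : Finset A) (π : Perm A) (ρ : A → Fin k) (w : Perm A)
    (hw : ∀ a, a ∈ D ↔ w a ∈ D) :
    (fun x : Fin k × A => (psi D π ρ (x.1, w.symm x.2)).map w) =
      psi D (w * π * w⁻¹) (fun a => ρ (w.symm a)) := by
  funext x
  unfold psi
  have h1 : (w * π * w⁻¹).symm x.2 = w (π.symm (w.symm x.2)) := by
    rw [Equiv.symm_apply_eq]
    simp
  rw [h1]
  simp only [Equiv.symm_apply_apply]
  by_cases h : π.symm (w.symm x.2) ∈ D ∧ ρ (π.symm (w.symm x.2)) = x.1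
  · rw [if_pos h, if_pos ⟨(hw _).1 h.1, h.2⟩]; rfl
  · rw [if_neg h, if_neg (fun h' => h ⟨(hw _).2 h'.1, h'.2⟩)]; rfl

/-- exchange of two columns in the same copy: `AltC` gives a sign -/
theorem Th_swap (Th : (Fin k × A → Option A) → K) (h : AltC Th) (D : Finset A) (π : Perm A)
    (ρ : A → Fin k) (b b' : A) (hb : b ∈ D) (hb' : b' ∈ D) (hne : b ≠ b') (hρ : ρ b = ρ b') :
    Th (psi D (π * swap b b') ρ) = - Th (psi D π ρ) := by
  have h1 : psi D π ρ (ρ b, π b) = some b := by
    unfold psi
    simp [hb]
  have h2 : psi D π ρ (ρ b, π b') = some b' := by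
    unfold psi
    simp [hb', hρ]
  have h3 := h.1 (psi D π ρ) (ρ b) (π b) (π b') (fun e => hne (π.injective e))
    (by rw [h1]; simp) (by rw [h2]; simp)
  rw [← h3]
  congr 1
  funext x
  obtain ⟨r, a⟩ := x
  have h4 : (π * swap b b').symm a = swap b b' (π.symm a) := by
    rw [Equiv.symm_apply_eq]
    simp
  rw [Function.comp_apply]
  by_cases e1 : a = π b
  · subst e1
    by_cases e2 : r = ρ b
    · subst e2
      rw [swap_apply_left, h2]
      unfold psi
      rw [h4]
      simp [hb', hρ]
    · rw [swap_apply_of_ne_of_ne]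
      · unfold psi
        rw [h4]
        simp only [Equiv.symm_apply_apply, swap_apply_left]
        rw [if_neg (fun e => e2 (by rw [hρ]; exact e.2.symm)), if_neg (fun e => e2 e.2.symm)]
      · intro e; exact e2 (congrArg Prod.fst e)
      · intro e; exact e2 (congrArg Prod.fst e)
  · by_cases e3 : a = π b'
    · subst e3
      by_cases e2 : r = ρ b
      · subst e2
        rw [swap_apply_right, h1]
        unfold psi
        rw [h4]
        simp [hb]
      · rw [swap_apply_of_ne_of_ne]
        · unfold psi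
          rw [h4]
          simp only [Equiv.symm_apply_apply, swap_apply_right]
          rw [if_neg (fun e => e2 e.2.symm), if_neg (fun e => e2 (by rw [hρ]; exact e.2.symm))]
        · intro e; exact e2 (congrArg Prod.fst e)
        · intro e; exact e2 (congrArg Prod.fst e)
    · have e5 : π.symm a ≠ b := fun e => e1 (by rw [← e, Equiv.apply_symm_apply])
      have e6 : π.symm a ≠ b' := fun e => e3 (by rw [← e, Equiv.apply_symm_apply])
      rw [swap_apply_of_ne_of_ne]
      · unfold psi
        rw [h4]
        simp only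
        rw [swap_apply_of_ne_of_ne e5 e6]
      · intro e; exact e1 (congrArg Prod.snd e)
      · intro e; exact e3 (congrArg Prod.snd e)

theorem gd4_kappa_aux (Th : (Fin k × A → Option A) → K) (h : AltC Th) (D : Finset A) (π : Perm A)
    (ρ : A → Fin k) (n : ℕ) : ∀ κ : Perm A, κ.support.card = n → (∀ a, a ∉ D → κ a = a) →
    (∀ a ∈ D, ρ (κ a) = ρ a) → (((Perm.sign (π * κ) : ℤˣ) : ℤ) : K) * Th (psi D (π * κ) ρ) =
      (((Perm.sign π : ℤˣ) : ℤ) : K) * Th (psi D π ρ) := by
  induction n using Nat.strong_induction_on with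
  | _ n ih =>
    intro κ hn hκ hρ
    by_cases h1 : κ = 1
    · subst h1; rw [mul_one]
    · obtain ⟨b, hb⟩ : ∃ b, κ b ≠ b := by
        by_contra hcon
        push Not at hcon
        exact h1 (Equiv.ext hcon)
      set c := κ.symm b with hc
      have hcb : κ c = b := κ.apply_symm_apply b
      have hne : b ≠ c := by
        intro e
        rw [← e] at hcb
        exact hb hcb
      have hbD : b ∈ D := by
        by_contra h2; exact hb (hκ b h2)
      have hcD : c ∈ D := by
        by_contra h2
        have h3 := hκ c h2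
        rw [hcb] at h3
        exact hne h3
      have hρbc : ρ b = ρ c := by
        have := hρ c hcD
        rw [hcb] at this
        exact this
      set κ' := κ * swap b c with hκ'
      have hb' : κ' b = b := by
        rw [hκ', Perm.mul_apply, swap_apply_left, hcb]
      have hsub : κ'.support ⊆ κ.support.erase b := by
        intro a ha
        rw [Perm.mem_support] at ha
        rw [Finset.mem_erase, Perm.mem_support]
        have hab : a ≠ b := fun e => ha (by rw [e]; exact hb')
        refine ⟨hab, fun e => ha ?_⟩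
        have hac : a ≠ c := by
          intro e2
          rw [e2, hcb] at e
          exact hne e
        rw [hκ', Perm.mul_apply, swap_apply_of_ne_of_ne hab hac, e]
      have hcard : κ'.support.card < n := by
        have h2 := Finset.card_le_card hsub
        have h3 : b ∈ κ.support := Perm.mem_support.2 hb
        have h4 := Finset.card_erase_lt_of_mem h3
        omega
      have h5 := ih _ hcard κ' rfl (by
        intro a ha
        have hab : a ≠ b := fun e => ha (by rw [e]; exact hbD)
        have hac : a ≠ c := fun e => ha (by rw [e]; exact hcD)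
        rw [hκ', Perm.mul_apply, swap_apply_of_ne_of_ne hab hac, hκ a ha]) (by
        intro a ha
        by_cases hab : a = b
        · rw [hab, hb']
        · by_cases hac : a = c
          · rw [hac, hκ', Perm.mul_apply, swap_apply_right, hρ b hbD, hρbc]
          · rw [hκ', Perm.mul_apply, swap_apply_of_ne_of_ne hab hac, hρ a ha])
      have h6 : κ = κ' * swap b c := by
        rw [hκ', mul_assoc, Equiv.swap_mul_self, mul_one]
      rw [h6, ← mul_assoc, Th_swap Th h D (π * κ') ρ b c hbD hcD hne hρbc, ← h5,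
        Perm.sign_mul, Perm.sign_swap hne]
      push_cast
      ring

/-- hence `sgn(π κ) Th(psi (π κ) ρ) = sgn π Th(psi π ρ)` for all permutations `κ` of `D` with `ρ κ = ρ` on `D`
(`κ` is a product of transpositions of this form) -/
theorem Th_kappa (Th : (Fin k × A → Option A) → K) (h : AltC Th) (D : Finset A) (π κ : Perm A)
    (ρ : A → Fin k) (hκ : ∀ a, a ∉ D → κ a = a) (hρ : ∀ a ∈ D, ρ (κ a) = ρ a) :
    (((Perm.sign (π * κ) : ℤˣ) : ℤ) : K) * Th (psi D (π * κ) ρ) =
      (((Perm.sign π : ℤˣ) : ℤ) : K) * Th (psi D π ρ) :=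
  gd4_kappa_aux Th h D π ρ _ κ rfl hκ hρ

theorem gd4_psi_congr (D : Finset A) (π : Perm A) (ρ ρ' : A → Fin k) (h : ∀ a ∈ D, ρ a = ρ' a) :
    psi D π ρ = psi D π ρ' := by
  funext x
  unfold psi
  by_cases h1 : π.symm x.2 ∈ D
  · rw [h _ h1]
  · rw [if_neg (fun e => h1 e.1), if_neg (fun e => h1 e.1)]

theorem gd4_exists_w {T : Type} [DecidableEq T] (D : Finset A) (f g : A → T)
    (h : ∀ v, (D.filter fun e => f e = v).card = (D.filter fun e => g e = v).card) :
    ∃ w : Perm A, (∀ a, a ∉ D → w a = a) ∧ (∀ a ∈ D, w a ∈ D ∧ g (w a) = f a) := by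
  classical
  have h1 : ∀ v : T, Nonempty ({x : {a // a ∈ D} // f x.1 = v} ≃ {x : {a // a ∈ D} // g x.1 = v}) := by
    intro v
    have e : ∀ q : A → T, Fintype.card {x : {a // a ∈ D} // q x.1 = v}
        = (D.filter fun e => q e = v).card := by
      intro q
      rw [← Fintype.card_coe]
      refine Fintype.card_congr ?_
      exact { toFun := fun x => ⟨x.1.1, Finset.mem_filter.2 ⟨x.1.2, x.2⟩⟩
              invFun := fun x => ⟨⟨x.1, (Finset.mem_filter.1 x.2).1⟩, (Finset.mem_filter.1 x.2).2⟩
              left_inv := fun x => rfl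
              right_inv := fun x => rfl }
    exact ⟨Fintype.equivOfCardEq (by rw [e, e, h v])⟩
  let w0 : Perm {a // a ∈ D} := Equiv.ofFiberEquiv (f := fun x : {a // a ∈ D} => f x.1)
    (g := fun x : {a // a ∈ D} => g x.1) (fun v => (h1 v).some)
  have hw0 : ∀ x : {a // a ∈ D}, g (w0 x).1 = f x.1 := fun x =>
    Equiv.ofFiberEquiv_map (f := fun x : {a // a ∈ D} => f x.1)
      (g := fun x : {a // a ∈ D} => g x.1) (fun v => (h1 v).some) x
  refine ⟨Perm.ofSubtype w0, fun a ha => Perm.ofSubtype_apply_of_not_mem w0 ha, fun a ha => ?_⟩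
  rw [Perm.ofSubtype_apply_of_mem w0 ha]
  exact ⟨(w0 ⟨a, ha⟩).2, hw0 ⟨a, ha⟩⟩

/-- WELL DEFINED.  PROOF.  From `mPR` equal there is a permutation `w` of `D` (identity outside) with `c w = c`,
`ρ' w = ρ`, `ρ' π'⁻¹ w = ρ π⁻¹` on `D` (a bijection between the fibres of the two labellings
`e ↦ (c e, ρ e, ρ (π⁻¹ e))`).  `Th(psi π ρ) = Th(psi (w π w⁻¹) (ρ w⁻¹))` and `ρ w⁻¹ = ρ'` on `D`,
`w π w⁻¹ = π' κ` with `ρ' κ = ρ'` on `D`; `Th_kappa`. -/
theorem well_defined (c : A → S) (Th : (Fin k × A → Option A) → K) (h : LI c Th) (h' : AltC Th)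
    (D : Finset A) (π π' : Perm A) (ρ ρ' : A → Fin k) (hπ : ∀ a, a ∉ D → π a = a)
    (hπ' : ∀ a, a ∉ D → π' a = a) (hm : mPR c D π ρ = mPR c D π' ρ') :
    (((Perm.sign π : ℤˣ) : ℤ) : K) * Th (psi D π ρ) =
      (((Perm.sign π' : ℤˣ) : ℤ) : K) * Th (psi D π' ρ') := by
  obtain ⟨w, hw1, hw2⟩ := gd4_exists_w D (fun e => (c e, ρ e, ρ (π.symm e)))
    (fun e => (c e, ρ' e, ρ' (π'.symm e))) (by
      intro v
      have h1 := congrFun hm v
      unfold mPR at h1
      simpa only [Prod.ext_iff] using h1)
  have hwD : ∀ a, a ∈ D ↔ w a ∈ D := by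
    intro a
    constructor
    · intro ha; exact (hw2 a ha).1
    · intro ha
      by_contra hcon
      rw [hw1 a hcon] at ha
      exact hcon ha
  have hwc : ∀ a, c (w a) = c a := by
    intro a
    by_cases ha : a ∈ D
    · exact congrArg Prod.fst (hw2 a ha).2
    · rw [hw1 a ha]
  have hwr : ∀ a ∈ D, ρ' (w a) = ρ a := fun a ha =>
    congrArg (fun v => v.2.1) (hw2 a ha).2
  have hws : ∀ a ∈ D, ρ' (π'.symm (w a)) = ρ (π.symm a) := fun a ha =>
    congrArg (fun v => v.2.2) (hw2 a ha).2
  have hsymm : ∀ a ∈ D, w.symm a ∈ D := by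
    intro a ha
    rw [hwD, Equiv.apply_symm_apply]; exact ha
  have h1 : Th (psi D π ρ) = Th (psi D (w * π * w⁻¹) ρ') := by
    rw [← Th_relabel c Th h w hwc (psi D π ρ), psi_relabel D π ρ w hwD]
    congr 1
    refine gd4_psi_congr D _ _ _ (fun a ha => ?_)
    have := hwr (w.symm a) (hsymm a ha)
    rw [Equiv.apply_symm_apply] at this
    exact this.symm
  set κ := π'⁻¹ * (w * π * w⁻¹) with hκ
  have h2 : w * π * w⁻¹ = π' * κ := by rw [hκ, mul_inv_cancel_left]
  have hπD : ∀ a ∈ D, π a ∈ D := by
    intro a ha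
    by_contra hcon
    have h3 := hπ _ hcon
    have h4 := π.injective h3
    rw [h4] at hcon
    exact hcon ha
  have h3 := Th_kappa Th h' D π' κ ρ' (by
    intro a ha
    have e1 : w⁻¹ a = a := by
      rw [Perm.inv_eq_iff_eq, hw1 a ha]
    have e2 : π'⁻¹ a = a := by
      rw [Perm.inv_eq_iff_eq, hπ' a ha]
    rw [hκ, Perm.mul_apply, Perm.mul_apply, Perm.mul_apply, e1, hπ a ha, hw1 a ha, e2]) (by
    intro a ha
    have e3 := hws (π (w.symm a)) (hπD _ (hsymm a ha))
    rw [Equiv.symm_apply_apply] at e3
    have e4 := hwr (w.symm a) (hsymm a ha)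
    rw [Equiv.apply_symm_apply] at e4
    rw [e4, ← e3]
    rfl)
  rw [h1, h2, ← h3, ← h2]
  congr 3
  rw [Perm.sign_mul, Perm.sign_mul, Perm.sign_inv]
  rcases Int.units_eq_one_or (Perm.sign w) with e | e <;> rw [e] <;> simp

end Pool.PI34.GD

end

/-! ### part GD_2 -/
section

/-! PI34, block A5 (GEN), part D, file 2: uniqueness. -/

set_option autoImplicit false

namespace Pool.PI34.GD

open Equiv Finset Matrix

variable {A S : Type} [Fintype A] [DecidableEq A] [Fintype S] [DecidableEq S] {k : ℕ}
variable {K : Type} [Field K] [Infinite K]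

/-- a pattern of content `d` whose support is the graph `{(r a, a) : a ∈ D}` and which is balanced is a multilinear
pattern `psi D π ρ` (`π b` = the row with value `some b`, `ρ b = r (π b)`). -/
theorem exists_psi (D : Finset A) (r : A → Fin k) (ψ : Fin k × A → Option A)
    (h1 : ∀ x, ψ x ≠ none ↔ x.2 ∈ D ∧ r x.2 = x.1) (h2 : ∀ a, rowCt ψ a = colCt ψ a) :
    ∃ (π : Perm A) (ρ : A → Fin k), (∀ a, a ∉ D → π a = a) ∧ ψ = psi D π ρ := by
  classical
  -- the values on `D`
  have hval : ∀ a, a ∈ D → ∃ b, ψ (r a, a) = some b := by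
    intro a ha
    exact Option.ne_none_iff_exists'.1 ((h1 (r a, a)).2 ⟨ha, rfl⟩)
  have hrow1 : ∀ b, rowCt ψ b ≤ 1 := by
    intro b
    unfold rowCt
    rw [Finset.card_le_one]
    intro x hx y hy
    simp only [mem_filter, mem_univ, true_and] at hx hy
    have hx2 := (h1 x).1 hx.2
    have hy2 := (h1 y).1 hy.2
    refine Prod.ext ?_ (hx.1.trans hy.1.symm)
    rw [← hx2.2, ← hy2.2, hx.1, hy.1]
  have hrow0 : ∀ b, b ∉ D → rowCt ψ b = 0 := by
    intro b hb
    unfold rowCt
    rw [Finset.card_eq_zero, Finset.filter_eq_empty_iff]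
    rintro x - ⟨hx1, hx2⟩
    exact hb (hx1 ▸ ((h1 x).1 hx2).1)
  let β : A → A := fun a => if a ∈ D then (ψ (r a, a)).getD a else a
  have hβD : ∀ a, a ∈ D → ψ (r a, a) = some (β a) := by
    intro a ha
    obtain ⟨b, hb⟩ := hval a ha
    have e : β a = b := by
      show (if a ∈ D then (ψ (r a, a)).getD a else a) = b
      rw [if_pos ha, hb]
      rfl
    rw [e, hb]
  have hβn : ∀ a, a ∉ D → β a = a := fun a ha => if_neg ha
  have hcol : ∀ a, a ∈ D → (r a, a) ∈ univ.filter fun x : Fin k × A => ψ x = some (β a) := by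
    intro a ha
    simp only [mem_filter, mem_univ, true_and]
    exact hβD a ha
  have hβinj : Function.Injective β := by
    intro a a' haa
    by_cases ha : a ∈ D
    · by_cases ha' : a' ∈ D
      · have hc : colCt ψ (β a) ≤ 1 := by rw [← h2]; exact hrow1 _
        have := Finset.card_le_one.1 hc _ (hcol a ha) _ (by rw [haa]; exact hcol a' ha')
        exact (Prod.ext_iff.1 this).2
      · exfalso
        have e : β a = a' := by rw [haa, hβn a' ha']
        have hc : colCt ψ a' = 0 := by rw [← h2]; exact hrow0 a' ha'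
        have := hcol a ha
        rw [e] at this
        rw [Finset.card_eq_zero.1 hc] at this
        exact absurd this (Finset.notMem_empty _)
    · by_cases ha' : a' ∈ D
      · exfalso
        have e : β a' = a := by rw [← haa, hβn a ha]
        have hc : colCt ψ a = 0 := by rw [← h2]; exact hrow0 a ha
        have := hcol a' ha'
        rw [e] at this
        rw [Finset.card_eq_zero.1 hc] at this
        exact absurd this (Finset.notMem_empty _)
      · rw [hβn a ha, hβn a' ha'] at haa
        exact haa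
  have hβbij : Function.Bijective β := Finite.injective_iff_bijective.1 hβinj
  have hβmem : ∀ a, a ∈ D → β a ∈ D := by
    intro a ha
    by_contra hn
    have e : β (β a) = β a := hβn _ hn
    exact hn (by rw [hβinj e]; exact ha)
  let π : Perm A := (Equiv.ofBijective β hβbij).symm
  have hπs : ∀ a, π.symm a = β a := fun a => rfl
  have hπ : ∀ a, π (β a) = a := fun a => Equiv.ofBijective_symm_apply_apply β hβbij a
  refine ⟨π, fun b => r (π b), fun a ha => ?_, ?_⟩
  · have := hπ a
    rwa [hβn a ha] at this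
  · funext x
    obtain ⟨s, a⟩ := x
    unfold psi
    simp only [hπs, hπ]
    by_cases ha : a ∈ D
    · by_cases hs : r a = s
      · rw [if_pos ⟨hβmem a ha, hs⟩, ← hs]
        exact hβD a ha
      · rw [if_neg (fun h => hs h.2)]
        by_contra hne
        exact hs ((h1 (s, a)).1 hne).2
    · rw [hβn a ha, if_neg (fun h => ha h.1)]
      by_contra hne
      exact ha ((h1 (s, a)).1 hne).1

/-- UNIQUENESS.  PROOF.  Suppose `Th ψ0 ≠ 0`.  By `balanced` and `hd` the support of `ψ0` is
`{(r e, γ e) : e ∈ D}` (a bijection with `D`) with `c (γ e) = c e`; put `ψ0 (r e, γ e) = some (β e)`.  `LI` at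
`g = Σ_{e ∈ D} E_{γ e, e}`, `B_r = Σ_{e ∈ D, r e = r} E_{e, β e}`:  `g B = zo ψ0`, so the right side is
`Σ_{ψ ≤ ψ0} Th ψ = Th ψ0` (content `d` forces `ψ = ψ0`).  `(B_r g)_ab = [a ∈ D, r a = r, b ∈ D, β a = γ b]`, so on the left
only `ψ` with support in `{(r a, a) : a ∈ D}` contribute; content `d` forces equality, such `ψ` is multilinear by
`exists_psi`, so its coefficient is `0`.  (For `k = 0` the hypothesis `h0` is empty if `A` is nonempty, hence `hk`.) -/
theorem unique (c : A → S) (Th : (Fin k × A → Option A) → K) (h : LI c Th) (d : S → ℕ)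
    (hd : ∀ ψ, Th ψ ≠ 0 → ct c ψ = d) (D : Finset A)
    (hD : ∀ s, (D.filter fun b => c b = s).card = d s)
    (h0 : ∀ (π : Perm A) (ρ : A → Fin k), (∀ a, a ∉ D → π a = a) → Th (psi D π ρ) = 0)
    (hk : 0 < k) :
    ∀ ψ, Th ψ = 0 := by
  classical
  intro ψ0
  by_contra hψ0
  -- total size of the support
  have hDcard : D.card = ∑ s, d s := by
    rw [Finset.card_eq_sum_card_fiberwise (f := c) (t := univ) (fun x _ => mem_univ _)]
    exact Finset.sum_congr rfl fun s _ => hD s
  have hsupp : ∀ ψ, Th ψ ≠ 0 → (univ.filter fun x : Fin k × A => ψ x ≠ none).card = D.card := by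
    intro ψ hψ
    rw [← sum_ct c ψ, hd ψ hψ, hDcard]
  -- colour content of the rows of `ψ0`
  have hrows : ∀ s, (univ.filter fun x : Fin k × A => ψ0 x ≠ none ∧ c x.2 = s).card = d s := by
    intro s
    rw [← hd ψ0 hψ0, ct_eq_sum]
    rw [Finset.card_eq_sum_card_fiberwise (f := fun x : Fin k × A => x.2)
      (t := univ.filter fun b => c b = s) (fun x hx => by
        simp only [Finset.coe_filter, Set.mem_ofPred_eq, mem_univ, true_and] at hx ⊢
        exact hx.2)]
    refine Finset.sum_congr rfl fun b hb => ?_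
    rw [← balanced c Th h ψ0 hψ0 b]
    unfold rowCt
    congr 1
    ext x
    simp only [mem_filter, mem_univ, true_and] at hb ⊢
    constructor
    · rintro ⟨⟨h3, _⟩, h5⟩
      exact ⟨h5, h3⟩
    · rintro ⟨h3, h4⟩
      exact ⟨⟨h4, by rw [h3]; exact hb⟩, h3⟩
  -- the bijection
  have hfib : ∀ s : S, Nonempty ({a : {e // e ∈ D} // c a.1 = s} ≃
      {b : {x : Fin k × A // ψ0 x ≠ none} // c b.1.2 = s}) := by
    intro s
    rw [← Fintype.card_eq]
    have e1 : Fintype.card {a : {e // e ∈ D} // c a.1 = s} = d s := by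
      rw [← hD s, ← Fintype.card_coe]
      refine Fintype.card_congr ⟨fun a => ⟨a.1.1, by simp [a.1.2, a.2]⟩,
        fun a => ⟨⟨a.1, (mem_filter.1 a.2).1⟩, (mem_filter.1 a.2).2⟩, fun a => rfl, fun a => rfl⟩
    have e2 : Fintype.card {b : {x : Fin k × A // ψ0 x ≠ none} // c b.1.2 = s} = d s := by
      rw [← hrows s, ← Fintype.card_coe]
      refine Fintype.card_congr ⟨fun a => ⟨a.1.1, by simpa using ⟨a.1.2, a.2⟩⟩,
        fun a => ⟨⟨a.1, (mem_filter.1 a.2).2.1⟩, (mem_filter.1 a.2).2.2⟩, fun a => rfl, fun a => rfl⟩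
    rw [e1, e2]
  let E : {e // e ∈ D} ≃ {x : Fin k × A // ψ0 x ≠ none} :=
    Equiv.ofFiberEquiv (f := fun a : {e // e ∈ D} => c a.1)
      (g := fun b : {x : Fin k × A // ψ0 x ≠ none} => c b.1.2) (fun s => (hfib s).some)
  have hEc : ∀ e, c (E e).1.2 = c e.1 := fun e =>
    Equiv.ofFiberEquiv_map (f := fun a : {e // e ∈ D} => c a.1)
      (g := fun b : {x : Fin k × A // ψ0 x ≠ none} => c b.1.2) (fun s => (hfib s).some) e
  let g : Matrix A A K := Matrix.of fun a b => if hb : b ∈ D then
    (if a = (E ⟨b, hb⟩).1.2 then 1 else 0) else 0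
  let B : Fin k → Matrix A A K := fun r => Matrix.of fun a b => if ha : a ∈ D then
    (if (E ⟨a, ha⟩).1.1 = r ∧ ψ0 (E ⟨a, ha⟩).1 = some b then 1 else 0) else 0
  have hg : ∀ a b, c a ≠ c b → g a b = 0 := by
    intro a b hab
    show (if hb : b ∈ D then (if a = (E ⟨b, hb⟩).1.2 then (1 : K) else 0) else 0) = 0
    split_ifs with h3 h4
    · exfalso
      apply hab
      rw [h4, hEc]
    · rfl
    · rfl
  have key := h g hg B
  -- the right side
  have hgB : (fun r => g * B r) = zo (R := K) ψ0 := by
    funext r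
    ext a b
    rw [Matrix.mul_apply]
    show ∑ e, (if hb : e ∈ D then (if a = (E ⟨e, hb⟩).1.2 then (1 : K) else 0) else 0) *
      (if ha : e ∈ D then (if (E ⟨e, ha⟩).1.1 = r ∧ ψ0 (E ⟨e, ha⟩).1 = some b then (1 : K) else 0) else 0) =
      if ψ0 (r, a) = some b then 1 else 0
    by_cases hab : ψ0 (r, a) = some b
    · rw [if_pos hab]
      set e0 := E.symm ⟨(r, a), by rw [hab]; simp⟩ with he0
      have hE0 : (E e0).1 = (r, a) := by rw [he0, Equiv.apply_symm_apply]
      rw [Finset.sum_eq_single e0.1]
      · rw [dif_pos e0.2, dif_pos e0.2]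
        have e3 : (⟨e0.1, e0.2⟩ : {e // e ∈ D}) = e0 := rfl
        rw [e3, hE0, if_pos rfl, if_pos ⟨rfl, hab⟩, one_mul]
      · intro e _ hne
        split_ifs with h3 h4 h5
        · exfalso
          apply hne
          have e4 : (E ⟨e, h3⟩).1 = (r, a) := Prod.ext h5.1 h4.symm
          have e5 : (⟨e, h3⟩ : {e // e ∈ D}) = e0 := E.injective (Subtype.ext (e4.trans hE0.symm))
          exact congrArg Subtype.val e5
        · rw [mul_zero]
        · rw [zero_mul]
        · rw [zero_mul]
        · rw [zero_mul]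
      · intro h3; exact absurd (mem_univ _) h3
    · rw [if_neg hab]
      refine Finset.sum_eq_zero fun e _ => ?_
      split_ifs with h3 h4 h5
      · exfalso
        apply hab
        have e4 : (E ⟨e, h3⟩).1 = (r, a) := Prod.ext h5.1 h4.symm
        rw [← e4]
        exact h5.2
      · rw [mul_zero]
      · rw [zero_mul]
      · rw [zero_mul]
      · rw [zero_mul]
  have hR : fT Th (fun r => g * B r) = Th ψ0 := by
    rw [hgB]
    unfold fT
    rw [Finset.sum_eq_single ψ0]
    · rw [mm_zo, if_pos (fun x => Or.inr rfl), mul_one]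
    · intro ψ _ hne
      rw [mm_zo]
      by_cases hψ : Th ψ = 0
      · rw [hψ, zero_mul]
      rw [if_neg, mul_zero]
      intro hle
      apply hne
      have hsub : (univ.filter fun x : Fin k × A => ψ x ≠ none) ⊆
          (univ.filter fun x : Fin k × A => ψ0 x ≠ none) := by
        intro x hx
        simp only [mem_filter, mem_univ, true_and] at hx ⊢
        rcases hle x with h3 | h3
        · exact absurd h3 hx
        · rw [← h3]; exact hx
      have heq := Finset.eq_of_subset_of_card_le hsub (by rw [hsupp ψ hψ, hsupp ψ0 hψ0])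
      funext x
      rcases hle x with h3 | h3
      · by_contra hne2
        have h4 : ψ0 x ≠ none := fun h5 => hne2 (h3.trans h5.symm)
        have h5 : x ∈ (univ.filter fun x : Fin k × A => ψ x ≠ none) := by
          rw [heq]; simpa using h4
        simp only [mem_filter, mem_univ, true_and] at h5
        exact h5 h3
      · exact h3
    · intro h3; exact absurd (mem_univ _) h3
  -- the left side
  have hL : fT Th (fun r => B r * g) = 0 := by
    unfold fT
    refine Finset.sum_eq_zero fun ψ _ => ?_
    by_cases hψ : Th ψ = 0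
    · rw [hψ, zero_mul]
    by_cases hm : mm ψ (fun r => B r * g) = 0
    · rw [hm, mul_zero]
    exfalso
    apply hψ
    -- the row function
    let r : A → Fin k := fun a => if ha : a ∈ D then (E ⟨a, ha⟩).1.1 else ⟨0, hk⟩
    have hr : ∀ (a : A) (ha : a ∈ D), r a = (E ⟨a, ha⟩).1.1 := fun a ha => dif_pos ha
    have hgraph : ∀ x, ψ x ≠ none → x.2 ∈ D ∧ r x.2 = x.1 := by
      intro x hx
      obtain ⟨b, hb⟩ := Option.ne_none_iff_exists'.1 hx
      have h3 : (B x.1 * g) x.2 b ≠ 0 := by
        intro h4
        apply hm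
        unfold mm
        refine Finset.prod_eq_zero (mem_univ x) ?_
        rw [hb]
        exact h4
      rw [Matrix.mul_apply] at h3
      obtain ⟨y, _, hy⟩ := Finset.exists_ne_zero_of_sum_ne_zero h3
      have h4 : B x.1 x.2 y ≠ 0 := left_ne_zero_of_mul hy
      have h5 : (if ha : x.2 ∈ D then (if (E ⟨x.2, ha⟩).1.1 = x.1 ∧ ψ0 (E ⟨x.2, ha⟩).1 = some y
        then (1 : K) else 0) else 0) ≠ 0 := h4
      by_cases ha : x.2 ∈ D
      · rw [dif_pos ha] at h5
        by_cases h6 : (E ⟨x.2, ha⟩).1.1 = x.1 ∧ ψ0 (E ⟨x.2, ha⟩).1 = some y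
        · exact ⟨ha, by rw [hr _ ha]; exact h6.1⟩
        · rw [if_neg h6] at h5
          exact absurd rfl h5
      · rw [dif_neg ha] at h5
        exact absurd rfl h5
    have hgr : ∀ x, ψ x ≠ none ↔ x.2 ∈ D ∧ r x.2 = x.1 := by
      intro x
      refine ⟨hgraph x, fun hx => ?_⟩
      -- both sets have `|D|` elements
      have hsub : (univ.filter fun x : Fin k × A => ψ x ≠ none) ⊆
          D.image fun a => (r a, a) := by
        intro y hy
        simp only [mem_filter, mem_univ, true_and] at hy
        obtain ⟨h3, h4⟩ := hgraph y hy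
        rw [Finset.mem_image]
        exact ⟨y.2, h3, Prod.ext h4 rfl⟩
      have heq := Finset.eq_of_subset_of_card_le hsub (by
        rw [hsupp ψ hψ]; exact Finset.card_image_le)
      have h5 : x ∈ D.image fun a => (r a, a) := by
        rw [Finset.mem_image]
        exact ⟨x.2, hx.1, Prod.ext hx.2 rfl⟩
      rw [← heq] at h5
      simpa using h5
    obtain ⟨π, ρ, hπ, hψe⟩ := exists_psi D r ψ hgr (fun a => balanced c Th h ψ hψ a)
    rw [hψe]
    exact h0 π ρ hπ
  rw [hL, hR] at key
  exact hψ0 key.symm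

end Pool.PI34.GD

end

/-! ### part GD_5 -/
section

/-! PI34, block A5 (GEN), part D, file 5: one content. -/

set_option autoImplicit false
set_option linter.unusedSectionVars false

namespace Pool.PI34.GD

open Equiv Finset Matrix

variable {A S : Type} [Fintype A] [DecidableEq A] [Fintype S] [DecidableEq S] {k : ℕ}
variable {K : Type} [Field K] [Infinite K]

omit [Infinite K] in
/-- values at matrices with constant entries -/
theorem mm_mapC (ψ : Fin k × A → Option A) (B : Fin k → Matrix A A K) :
    mm ψ (fun r => (B r).map (MvPolynomial.C (σ := S × Fin k × Fin k))) =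
      MvPolynomial.C (mm ψ B) := by
  unfold mm
  rw [map_prod]
  refine Finset.prod_congr rfl fun x _ => ?_
  cases ψ x <;> simp

omit [Infinite K] in
/-- coefficients of a value -/
theorem coeff_fT (T : (Fin k × A → Option A) → MvPolynomial (S × Fin k × Fin k) K)
    (B : Fin k → Matrix A A K) (m : S × Fin k × Fin k →₀ ℕ) :
    (fT T (fun r => (B r).map (MvPolynomial.C (σ := S × Fin k × Fin k)))).coeff m =
      fT (fun ψ => (T ψ).coeff m) B := by
  unfold fT
  rw [MvPolynomial.coeff_sum]
  refine Finset.sum_congr rfl fun ψ _ => ?_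
  rw [mm_mapC, mul_comm, MvPolynomial.coeff_C_mul, mul_comm]

omit [Infinite K] in
/-- the coefficients of `ThX` satisfy `LI` -/
theorem LI_coeff (c : A → S) (m : S × Fin k × Fin k →₀ ℕ) :
    LI c (fun ψ => (ThX c (genX S k K) ψ).coeff m) := by
  intro g hg B
  have h := ThX_LI c (genX S k K) (g.map (MvPolynomial.C (σ := S × Fin k × Fin k)))
    (fun a b hab => by simp [hg a b hab])
    (fun r => (B r).map (MvPolynomial.C (σ := S × Fin k × Fin k)))
  have h1 := congrArg (fun p => MvPolynomial.coeff m p) h
  have e1 : (fun r => (B r).map (MvPolynomial.C (σ := S × Fin k × Fin k)) *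
      g.map (MvPolynomial.C (σ := S × Fin k × Fin k))) =
      fun r => (B r * g).map (MvPolynomial.C (σ := S × Fin k × Fin k)) := by
    funext r
    rw [Matrix.map_mul]
  have e2 : (fun r => g.map (MvPolynomial.C (σ := S × Fin k × Fin k)) *
      (B r).map (MvPolynomial.C (σ := S × Fin k × Fin k))) =
      fun r => (g * B r).map (MvPolynomial.C (σ := S × Fin k × Fin k)) := by
    funext r
    rw [Matrix.map_mul]
  rw [e1, e2] at h1
  change MvPolynomial.coeff m _ = MvPolynomial.coeff m _ at h1
  rw [coeff_fT, coeff_fT] at h1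
  exact h1

omit [Infinite K] [Fintype S] [DecidableEq S] in
/-- linearity of `fT` in the coefficients -/
theorem fT_sum {ι : Type} (M : Finset ι) (y : ι → K) (T : ι → (Fin k × A → Option A) → K)
    (B : Fin k → Matrix A A K) :
    fT (fun ψ => ∑ m ∈ M, y m * T m ψ) B = ∑ m ∈ M, y m * fT (T m) B := by
  unfold fT
  simp only [Finset.sum_mul, Finset.mul_sum]
  rw [Finset.sum_comm]
  refine Finset.sum_congr rfl fun m _ => Finset.sum_congr rfl fun ψ _ => ?_
  ring

omit [Infinite K] in
/-- the content of `mPR` -/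
theorem sum_mPR (c : A → S) (D : Finset A) (π : Perm A) (ρ : A → Fin k) (s : S) :
    ∑ r, ∑ t, mPR c D π ρ (s, r, t) = (D.filter fun b => c b = s).card := by
  unfold mPR
  simp only
  rw [Finset.card_eq_sum_ones (D.filter fun b => c b = s)]
  simp only [Finset.card_eq_sum_ones, Finset.sum_filter]
  calc ∑ r, ∑ t, ∑ e ∈ D, (if c e = s ∧ ρ e = r ∧ ρ (π.symm e) = t then 1 else 0)
      = ∑ r, ∑ e ∈ D, ∑ t, (if c e = s ∧ ρ e = r ∧ ρ (π.symm e) = t then 1 else 0) :=
        Finset.sum_congr rfl fun r _ => Finset.sum_comm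
    _ = ∑ e ∈ D, ∑ r, ∑ t, (if c e = s ∧ ρ e = r ∧ ρ (π.symm e) = t then 1 else 0) :=
        Finset.sum_comm
    _ = ∑ e ∈ D, (if c e = s then 1 else 0) := by
        refine Finset.sum_congr rfl fun e _ => ?_
        by_cases h : c e = s
        · simp [h, ite_and]
        · simp [h]

/-- PROOF.  `co m := sgn π Th(psi π ρ)` for any `(π, ρ)` (`π` supported in `D`) with `mPR = m`, `0` if there is none (well
defined: `well_defined`).  `Th' ψ := Σ_m co m * coeff m (ThX gen ψ)` satisfies `LI` (`ThX_LI`), has content `d`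
(`ThX_content`; `Σ_{rt} mPR (s, r, t) = #{b ∈ D : c b = s} = d s`), and agrees with `Th` on the `psi D π ρ`
(`ThX_psi_gen`); `unique` for `Th - Th'`; then `fT_ThX`. -/
theorem hom_span (c : A → S) (Th : (Fin k × A → Option A) → K) (h : LI c Th) (h' : AltC Th)
    (d : S → ℕ) (hd : ∀ ψ, Th ψ ≠ 0 → ct c ψ = d) (D : Finset A)
    (hD : ∀ s, (D.filter fun b => c b = s).card = d s) :
    ∃ co : (S × Fin k × Fin k →₀ ℕ) →₀ K, ∀ B : Matrix A A K,
      fT Th (fun _ => B) = co.sum fun m y =>
        y * ((1 + MX c (genX S k K) (fun _ => B.map MvPolynomial.C)).det).coeff m := by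
  classical
  rcases Nat.eq_zero_or_pos k with hk0 | hk
  · subst hk0
    refine ⟨Finsupp.single 0 (Th (fun x => x.1.elim0)), fun B => ?_⟩
    rw [Finsupp.sum_single_index (by simp)]
    haveI : IsEmpty (Fin 0 × A) := ⟨fun x => x.1.elim0⟩
    rw [Matrix.det_isEmpty]
    unfold fT mm
    rw [Fintype.sum_subsingleton _ (fun x => x.1.elim0)]
    simp
  let q : Perm A × (A → Fin k) → (S × Fin k × Fin k →₀ ℕ) :=
    fun p => Finsupp.equivFunOnFinite.symm (mPR c D p.1 p.2)
  let P : (S × Fin k × Fin k →₀ ℕ) → Prop :=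
    fun m => ∃ p : Perm A × (A → Fin k), (∀ a, a ∉ D → p.1 a = a) ∧ q p = m
  let cof : (S × Fin k × Fin k →₀ ℕ) → K :=
    fun m => if hm : P m then
      (((Perm.sign hm.choose.1 : ℤˣ) : ℤ) : K) * Th (psi D hm.choose.1 hm.choose.2) else 0
  have hcof : ∀ (π : Perm A) (ρ : A → Fin k), (∀ a, a ∉ D → π a = a) →
      cof (q (π, ρ)) = (((Perm.sign π : ℤˣ) : ℤ) : K) * Th (psi D π ρ) := by
    intro π ρ hπ
    have hm : P (q (π, ρ)) := ⟨(π, ρ), hπ, rfl⟩
    have hs := hm.choose_spec
    have hc : cof (q (π, ρ)) =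
        (((Perm.sign hm.choose.1 : ℤˣ) : ℤ) : K) * Th (psi D hm.choose.1 hm.choose.2) := by
      simp only [cof]
      rw [dif_pos hm]
    rw [hc]
    refine well_defined c Th h h' D _ _ _ _ hs.1 hπ ?_
    have := hs.2
    simp only [q] at this
    exact Finsupp.equivFunOnFinite.symm.injective this
  let M : Finset (S × Fin k × Fin k →₀ ℕ) := Finset.univ.image q
  have hM : ∀ m, cof m ≠ 0 → m ∈ M := by
    intro m hm
    by_contra hc
    apply hm
    have : ¬ P m := by
      rintro ⟨p, _, hp⟩
      exact hc (Finset.mem_image.2 ⟨p, Finset.mem_univ _, hp⟩)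
    simp only [cof]
    rw [dif_neg this]
  let Th' : (Fin k × A → Option A) → K :=
    fun ψ => ∑ m ∈ M, cof m * (ThX c (genX S k K) ψ).coeff m
  -- fT of Th'
  have hfT : ∀ B : Fin k → Matrix A A K, fT Th' B =
      ∑ m ∈ M, cof m * fT (fun ψ => (ThX c (genX S k K) ψ).coeff m) B := by
    intro B
    exact fT_sum M cof (fun m ψ => (ThX c (genX S k K) ψ).coeff m) B
  have hLI' : LI c Th' := by
    intro g hg B
    rw [hfT, hfT]
    refine Finset.sum_congr rfl fun m _ => ?_
    rw [LI_coeff c m g hg B]
  have hct' : ∀ ψ, Th' ψ ≠ 0 → ct c ψ = d := by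
    intro ψ hψ
    obtain ⟨m, -, hm⟩ := Finset.exists_ne_zero_of_sum_ne_zero hψ
    have h1 : cof m ≠ 0 := left_ne_zero_of_mul hm
    have h2 : (ThX c (genX S k K) ψ).coeff m ≠ 0 := right_ne_zero_of_mul hm
    have hP : P m := by
      by_contra hc
      apply h1
      simp only [cof]
      rw [dif_neg hc]
    obtain ⟨p, -, hp⟩ := hP
    funext s
    rw [ThX_content c K ψ m h2 s, ← hp, ← hD s, ← sum_mPR c D p.1 p.2 s]
    rfl
  have hpsi : ∀ (π : Perm A) (ρ : A → Fin k), (∀ a, a ∉ D → π a = a) →
      Th' (psi D π ρ) = Th (psi D π ρ) := by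
    intro π ρ hπ
    have hmem : q (π, ρ) ∈ M := Finset.mem_image.2 ⟨(π, ρ), Finset.mem_univ _, rfl⟩
    simp only [Th']
    rw [ThX_psi_gen c K D π hπ ρ]
    rw [Finset.sum_eq_single_of_mem (q (π, ρ)) hmem]
    · rw [hcof π ρ hπ, MvPolynomial.coeff_monomial, if_pos rfl]
      have hs : (((Perm.sign π : ℤˣ) : ℤ) : K) * (((Perm.sign π : ℤˣ) : ℤ) : K) = 1 := by
        rcases Int.units_eq_one_or (Perm.sign π) with hh | hh <;> simp [hh]
      calc (((Perm.sign π : ℤˣ) : ℤ) : K) * Th (psi D π ρ) * (((Perm.sign π : ℤˣ) : ℤ) : K)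
          = ((((Perm.sign π : ℤˣ) : ℤ) : K) * (((Perm.sign π : ℤˣ) : ℤ) : K)) *
              Th (psi D π ρ) := by ring
        _ = Th (psi D π ρ) := by rw [hs, one_mul]
    · intro m _ hne
      rw [MvPolynomial.coeff_monomial, if_neg, mul_zero]
      exact fun hh => hne hh.symm
  have hsub : ∀ ψ, (Th - Th') ψ = 0 := by
    refine unique c (Th - Th') ?_ d ?_ D hD ?_ hk
    · intro g hg B
      have e : ∀ B : Fin k → Matrix A A K, fT (Th - Th') B = fT Th B - fT Th' B := by
        intro B
        unfold fT
        rw [← Finset.sum_sub_distrib]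
        refine Finset.sum_congr rfl fun ψ _ => ?_
        simp only [Pi.sub_apply]
        ring
      rw [e, e, h g hg B, hLI' g hg B]
    · intro ψ hψ
      by_cases h1 : Th ψ = 0
      · apply hct'
        intro h2
        apply hψ
        simp [h1, h2]
      · exact hd ψ h1
    · intro π ρ hπ
      simp only [Pi.sub_apply]
      rw [hpsi π ρ hπ, sub_self]
  have hTh : Th = Th' := by
    funext ψ
    have := hsub ψ
    simp only [Pi.sub_apply] at this
    exact sub_eq_zero.1 this
  refine ⟨Finsupp.onFinset M cof hM, fun B => ?_⟩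
  rw [Finsupp.onFinset_sum hM (fun m => by simp)]
  rw [show fT Th (fun _ => B) = fT Th' (fun _ => B) by rw [← hTh], hfT]
  refine Finset.sum_congr rfl fun m _ => ?_
  congr 1
  rw [← coeff_fT, fT_ThX]

end Pool.PI34.GD

end
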