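import Mathlib

/-! ### part BA_Defs -/
section

/-!
PI34, block BA: definitions.

`anti s T` : the antisymmetrizer over the permutations supported in `T`.
`Str ι Φ E` : a string system (strands `ι`, letters `Φ`, operators `E`).
`S.D e w` : the product of the letters `w i` on the strands `e i`.
`dt`, `qq`, `Str.PP` : the closing determinant, the open string, and the vector `P(B)`.
-/

set_option autoImplicit false

namespace Pool.PI34.BA

open Equiv Finset

section anti

variable {ι : Type*} [Fintype ι] [DecidableEq ι] {E : Type*} [Ring E]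

/-- the permutations supported in `T` -/
def permsOn (T : Finset ι) : Finset (Perm ι) :=
  univ.filter fun σ : Perm ι => ∀ x, x ∉ T → σ x = x

/-- signed antisymmetrizer over the permutations supported in `T` -/
def anti (s : Perm ι →* E) (T : Finset ι) : E :=
  ∑ σ ∈ permsOn T, ((Perm.sign σ : ℤˣ) : ℤ) • s σ

/-- the hypothesis: all the antisymmetrizers of rank `k + 1` vanish -/
def Anti (s : Perm ι →* E) (k : ℕ) : Prop :=
  ∀ T : Finset ι, T.card = k + 1 → anti s T = 0

end anti

/-- string systems -/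
structure Str (ι Φ E : Type*) [Fintype ι] [DecidableEq ι] [Ring Φ] [Ring E] where
  ρ : ι → Φ →+* E
  s : Perm ι →* E
  comm : ∀ i j, i ≠ j → ∀ a b, ρ i a * ρ j b = ρ j b * ρ i a
  conj : ∀ σ i a, s σ * ρ i a = ρ (σ i) a * s σ

section str

variable {ι Φ E : Type*} [Fintype ι] [DecidableEq ι] [Ring Φ] [Ring E]

/-- the product of the letters `w i` placed on the strands `e i` -/
def Str.D (S : Str ι Φ E) {k : ℕ} (e : Fin k → ι) (w : Fin k → Φ) : E :=
  (List.ofFn fun i => S.ρ (e i) (w i)).prod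

/-- `ω = A_P A_Q` -/
def Str.om (S : Str ι Φ E) {k : ℕ} (p q : Fin k ↪ ι) : E :=
  anti S.s (univ.map p) * anti S.s (univ.map q)

/-- the three pairwise disjoint groups of strands `z`, `P`, `Q` -/
structure Frame {k : ℕ} (p q : Fin k ↪ ι) (z : ι) : Prop where
  pq : ∀ i j, p i ≠ q j
  pz : ∀ i, p i ≠ z
  qz : ∀ i, q i ≠ z

/-- polynomial extension of a string system -/
noncomputable def Str.poly (S : Str ι Φ E) : Str ι (Polynomial Φ) (Polynomial E) where
  ρ i := Polynomial.mapRingHom (S.ρ i)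
  s := (Polynomial.C : E →+* Polynomial E).toMonoidHom.comp S.s
  comm i j hij a b := by
    ext n
    simp only [Polynomial.coe_mapRingHom, Polynomial.coeff_mul, Polynomial.coeff_map]
    rw [← Finset.Nat.sum_antidiagonal_swap]
    exact Finset.sum_congr rfl fun x _ => S.comm i j hij _ _
  conj σ i a := by
    ext n
    simp [Polynomial.coeff_C_mul, Polynomial.coeff_mul_C, S.conj]

end str

section matrices

variable {A Λ : Type*} [Fintype A] [DecidableEq A] [Ring Λ]

/-- the rows of `N` with index in the list `l`, all the others are `0` -/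
def rowsIn (N : Matrix A A Λ) (l : List A) : Matrix A A Λ :=
  Matrix.of fun a b => if a ∈ l then N a b else 0

/-- the closing determinant `∏_a (1 + t N_a M_{<a}⁻¹ e_a)` -/
noncomputable def dt (t : Λ) (N : Matrix A A Λ) : List A → Λ
  | [] => 1
  | a :: l => dt t N l * (1 + t * (N * Ring.inverse (1 + t • rowsIn N l)) a a)

/-- the matrix `B_A X` -/
def BX (x : A → Λ) (B : Matrix (Option A) (Option A) Λ) : Matrix A A Λ :=
  Matrix.of fun a b => B (some a) (some b) * x b

/-- the open string `B_00 - t B_0. X (1 + t B_A X)⁻¹ B_.0` -/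
noncomputable def qq (t : Λ) (x : A → Λ) (B : Matrix (Option A) (Option A) Λ) : Λ :=
  B none none - t * ∑ a, ∑ b, B none (some a) * x a *
    (Ring.inverse (1 + t • BX x B)) a b * B (some b) none

/-- `1 ⊕ h` -/
def optDiag (h : Matrix A A Λ) : Matrix (Option A) (Option A) Λ :=
  Matrix.of fun a b => match a, b with
    | none, none => 1
    | some a, some b => h a b
    | _, _ => 0

/-- `P(B) = D(dt(B_A X)) ρ_z(q(B)) ω` -/
noncomputable def Str.PP {ι E : Type*} [Fintype ι] [DecidableEq ι] [Ring E] (S : Str ι Λ E) {k : ℕ}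
    (p q : Fin k ↪ ι) (z : ι) (t : Λ) (x : A → Λ) (B : Matrix (Option A) (Option A) Λ) : E :=
  S.D p (fun _ => dt t (BX x B) (univ : Finset A).toList) * S.ρ z (qq t x B) * S.om p q

end matrices

end Pool.PI34.BA

end

/-! ### part BA_A1 -/
section

/-! PI34, block BA, file A1: elementary properties of `anti`. -/

set_option autoImplicit false

namespace Pool.PI34.BA

open Equiv Finset

variable {ι : Type*} [Fintype ι] [DecidableEq ι] {E : Type*} [Ring E]

theorem mem_permsOn {T : Finset ι} {σ : Perm ι} : σ ∈ permsOn T ↔ ∀ x, x ∉ T → σ x = x := by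
  simp [permsOn]

omit [Fintype ι] [DecidableEq ι] in
theorem inv_fix {T : Finset ι} {σ : Perm ι} (h : ∀ x, x ∉ T → σ x = x) :
    ∀ x, x ∉ T → σ⁻¹ x = x := by
  intro x hx
  rw [Perm.inv_eq_iff_eq]
  exact (h x hx).symm

/-- `τ A_T = sgn(τ) A_T` for `τ` supported in `T` (substitute `σ = τ⁻¹ σ'`). -/
theorem mul_anti (s : Perm ι →* E) (T : Finset ι) (τ : Perm ι) (hτ : ∀ x, x ∉ T → τ x = x) :
    s τ * anti s T = ((Perm.sign τ : ℤˣ) : ℤ) • anti s T := by
  unfold anti
  rw [Finset.mul_sum, Finset.smul_sum]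
  refine Finset.sum_bij' (fun σ _ => τ * σ) (fun σ _ => τ⁻¹ * σ) ?_ ?_ ?_ ?_ ?_
  · intro σ hσ
    rw [mem_permsOn] at hσ ⊢
    intro x hx
    rw [Perm.mul_apply, hσ x hx, hτ x hx]
  · intro σ hσ
    rw [mem_permsOn] at hσ ⊢
    intro x hx
    rw [Perm.mul_apply, hσ x hx, inv_fix hτ x hx]
  · intro σ _
    simp
  · intro σ _
    simp
  · intro σ _
    rw [map_mul s, Perm.sign_mul, Units.val_mul, smul_smul, ← mul_assoc, mul_smul_comm,
      Int.units_coe_mul_self, one_mul]

/-- `A_T τ = sgn(τ) A_T` for `τ` supported in `T`. -/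
theorem anti_mul (s : Perm ι →* E) (T : Finset ι) (τ : Perm ι) (hτ : ∀ x, x ∉ T → τ x = x) :
    anti s T * s τ = ((Perm.sign τ : ℤˣ) : ℤ) • anti s T := by
  unfold anti
  rw [Finset.sum_mul, Finset.smul_sum]
  refine Finset.sum_bij' (fun σ _ => σ * τ) (fun σ _ => σ * τ⁻¹) ?_ ?_ ?_ ?_ ?_
  · intro σ hσ
    rw [mem_permsOn] at hσ ⊢
    intro x hx
    rw [Perm.mul_apply, hτ x hx, hσ x hx]
  · intro σ hσ
    rw [mem_permsOn] at hσ ⊢
    intro x hx
    rw [Perm.mul_apply, inv_fix hτ x hx, hσ x hx]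
  · intro σ _
    simp
  · intro σ _
    simp
  · intro σ _
    rw [map_mul s, Perm.sign_mul, Units.val_mul, smul_smul, smul_mul_assoc,
      mul_comm ((Perm.sign σ : ℤˣ) : ℤ), ← mul_assoc, Int.units_coe_mul_self, one_mul]

/-- conjugation: `σ A_T = A_{σ T} σ`. -/
theorem conj_anti (s : Perm ι →* E) (T : Finset ι) (σ : Perm ι) :
    s σ * anti s T = anti s (T.map σ.toEmbedding) * s σ := by
  unfold anti
  rw [Finset.mul_sum, Finset.sum_mul]
  refine Finset.sum_bij' (fun π _ => σ * π * σ⁻¹) (fun π _ => σ⁻¹ * π * σ) ?_ ?_ ?_ ?_ ?_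
  · intro π hπ
    rw [mem_permsOn] at hπ ⊢
    intro x hx
    have h1 : σ⁻¹ x ∉ T := by
      intro h
      apply hx
      rw [Finset.mem_map]
      exact ⟨σ⁻¹ x, h, by simp⟩
    rw [Perm.mul_apply, Perm.mul_apply, hπ _ h1]
    simp
  · intro π hπ
    rw [mem_permsOn] at hπ ⊢
    intro x hx
    have h1 : σ x ∉ T.map σ.toEmbedding := by
      intro h
      rw [Finset.mem_map] at h
      obtain ⟨y, hy, hxy⟩ := h
      have : y = x := σ.injective (by simpa using hxy)
      exact hx (this ▸ hy)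
    rw [Perm.mul_apply, Perm.mul_apply, hπ _ h1]
    simp
  · intro π _
    simp [mul_assoc]
  · intro π _
    simp [mul_assoc]
  · intro π _
    have h1 : Perm.sign (σ * π * σ⁻¹) = Perm.sign π := by
      rw [Perm.sign_mul, Perm.sign_mul, Perm.sign_inv, mul_comm (Perm.sign σ), mul_assoc,
        Int.units_mul_self, mul_one]
    rw [h1, smul_mul_assoc, mul_smul_comm, ← map_mul, ← map_mul]
    congr 2
    simp [mul_assoc]

/-- if `σ` maps `T` onto itself then it commutes with `A_T` (from `conj_anti`). -/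
theorem anti_commute_perm (s : Perm ι →* E) (T : Finset ι) (σ : Perm ι)
    (hσ : ∀ x, x ∈ T → σ x ∈ T) : s σ * anti s T = anti s T * s σ := by
  rw [conj_anti]
  have h : T.map σ.toEmbedding = T := by
    apply Finset.eq_of_subset_of_card_le
    · intro y hy
      rw [Finset.mem_map] at hy
      obtain ⟨x, hx, hxy⟩ := hy
      have : σ x = y := by simpa using hxy
      exact this ▸ hσ x hx
    · rw [Finset.card_map]
  rw [h]

/-- `A_P A_Q = A_Q A_P` for disjoint `P`, `Q`. -/
theorem anti_comm (s : Perm ι →* E) (P Q : Finset ι) (h : Disjoint P Q) :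
    anti s P * anti s Q = anti s Q * anti s P := by
  have key : ∀ σ ∈ permsOn P, s σ * anti s Q = anti s Q * s σ := by
    intro σ hσ
    rw [mem_permsOn] at hσ
    apply anti_commute_perm
    intro x hx
    have hxP : x ∉ P := fun hP => (Finset.disjoint_left.mp h) hP hx
    rw [hσ x hxP]
    exact hx
  unfold anti at key ⊢
  rw [Finset.sum_mul, Finset.mul_sum (permsOn P)]
  refine Finset.sum_congr rfl fun σ hσ => ?_
  rw [smul_mul_assoc, mul_smul_comm, key σ hσ]

/-- coset expansion: `A_{P ∪ {z}} = A_P - Σ_{j ∈ P} (z j) A_P`.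
(a permutation `σ` of `insert z P` with `σ z = j` is `(z j) π`, `π` supported in `P`.) -/
theorem anti_insert (s : Perm ι →* E) (P : Finset ι) (z : ι) (hz : z ∉ P) :
    anti s (insert z P) = anti s P - ∑ j ∈ P, s (swap z j) * anti s P := by
  have hfib : anti s (insert z P) = ∑ j ∈ insert z P,
      ∑ σ ∈ (permsOn (insert z P)).filter (fun σ => σ z = j),
        ((Perm.sign σ : ℤˣ) : ℤ) • s σ := by
    unfold anti
    rw [Finset.sum_fiberwise_of_maps_to]
    intro σ hσ
    rw [mem_permsOn] at hσ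
    by_contra hn
    have h1 : σ (σ z) = σ z := hσ _ hn
    have h2 : σ z = z := σ.injective h1
    exact hn (h2.symm ▸ Finset.mem_insert_self z P)
  have hsw : ∀ j ∈ insert z P, ∑ σ ∈ (permsOn (insert z P)).filter (fun σ => σ z = j),
        ((Perm.sign σ : ℤˣ) : ℤ) • s σ
      = ((Perm.sign (swap z j) : ℤˣ) : ℤ) • (s (swap z j) * anti s P) := by
    intro j hj
    unfold anti
    rw [Finset.mul_sum, Finset.smul_sum]
    refine Finset.sum_bij' (fun σ _ => swap z j * σ) (fun σ _ => swap z j * σ) ?_ ?_ ?_ ?_ ?_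
    · intro σ hσ
      rw [Finset.mem_filter, mem_permsOn] at hσ
      rw [mem_permsOn]
      intro x hx
      rw [Perm.mul_apply]
      by_cases hxz : x = z
      · rw [hxz, hσ.2, swap_apply_right]
      · have hx' : x ∉ insert z P := by
          rw [Finset.mem_insert, not_or]
          exact ⟨hxz, hx⟩
        rw [hσ.1 x hx']
        apply swap_apply_of_ne_of_ne hxz
        intro hxj
        exact hx' (hxj ▸ hj)
    · intro σ hσ
      rw [mem_permsOn] at hσ
      rw [Finset.mem_filter, mem_permsOn]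
      constructor
      · intro x hx
        have hx2 : x ≠ z ∧ x ∉ P := by
          rw [Finset.mem_insert, not_or] at hx
          exact hx
        rw [Perm.mul_apply, hσ x hx2.2]
        apply swap_apply_of_ne_of_ne hx2.1
        intro hxj
        exact hx (hxj ▸ hj)
      · rw [Perm.mul_apply, hσ z hz, swap_apply_left]
    · intro σ _
      rw [← mul_assoc, swap_mul_self, one_mul]
    · intro σ _
      rw [← mul_assoc, swap_mul_self, one_mul]
    · intro σ _
      rw [Perm.sign_mul, Units.val_mul, mul_smul_comm, ← map_mul, ← mul_assoc, swap_mul_self,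
        one_mul, smul_smul, ← mul_assoc, Int.units_coe_mul_self, one_mul]
  rw [hfib, Finset.sum_congr rfl hsw, Finset.sum_insert hz, swap_self]
  have h1 : ((Perm.sign (Equiv.refl ι) : ℤˣ) : ℤ) • (s (Equiv.refl ι) * anti s P) = anti s P := by
    have h2 : (Equiv.refl ι : Perm ι) = 1 := rfl
    rw [h2, Perm.sign_one, map_one]
    simp
  rw [h1, sub_eq_add_neg, ← Finset.sum_neg_distrib]
  congr 1
  refine Finset.sum_congr rfl fun j hj => ?_
  have hzj : z ≠ j := fun h => hz (h ▸ hj)
  rw [Perm.sign_swap hzj]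
  simp

/-- `A_T = 0` as soon as `T` has more than `k` elements (induction from `anti_insert`). -/
theorem anti_eq_zero (s : Perm ι →* E) (k : ℕ) (hA : Anti s k) (T : Finset ι)
    (hT : k + 1 ≤ T.card) : anti s T = 0 := by
  induction T using Finset.induction_on with
  | empty => simp at hT
  | insert z P hz ih =>
    rcases Nat.eq_or_lt_of_le hT with h | h
    · exact hA _ h.symm
    · have h1 : k + 1 ≤ P.card := by
        rw [Finset.card_insert_of_notMem hz] at h
        omega
      rw [anti_insert s P z hz, ih h1]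
      simp

/-- `A_P = Σ_{j ∈ P} (z j) A_P` if all the antisymmetrizers of rank `k + 1` vanish. -/
theorem anti_eq_sum (s : Perm ι →* E) (k : ℕ) (hA : Anti s k) (P : Finset ι) (hP : P.card = k)
    (z : ι) (hz : z ∉ P) : anti s P = ∑ j ∈ P, s (swap z j) * anti s P := by
  have h : anti s (insert z P) = 0 := by
    apply hA
    rw [Finset.card_insert_of_notMem hz, hP]
  rw [anti_insert s P z hz] at h
  exact sub_eq_zero.mp h

end Pool.PI34.BA

end

/-! ### part BA_C1 -/
section

/-! PI34, block BA, file C1: units `1 + t N` for a central nilpotent `t`, Sherman-Morrison. -/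

set_option autoImplicit false

namespace Pool.PI34.BA

open Equiv Finset Matrix

variable {A Λ : Type*} [Fintype A] [DecidableEq A] [Ring Λ]

omit [DecidableEq A] in
theorem C1_mul_smul (t : Λ) (ht : ∀ x, t * x = x * t) (N M : Matrix A A Λ) :
    N * (t • M) = t • (N * M) := by
  ext i j
  simp only [Matrix.mul_apply, Matrix.smul_apply, smul_eq_mul, Finset.mul_sum]
  refine Finset.sum_congr rfl fun k _ => ?_
  rw [← mul_assoc, ← ht (N i k), mul_assoc]

theorem C1_smul_pow (t : Λ) (ht : ∀ x, t * x = x * t) (N : Matrix A A Λ) (m : ℕ) :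
    (t • N) ^ m = t ^ m • N ^ m := by
  induction m with
  | zero => simp
  | succ m ih =>
    have h1 : ∀ x, t ^ m * x = x * t ^ m := fun x =>
      (Commute.pow_left (show Commute t x from ht x) m)
    rw [pow_succ', ih, Matrix.smul_mul, C1_mul_smul _ h1, smul_smul, ← pow_succ', ← pow_succ']

/-- `(t N)^m = t^m N^m`, so `1 + t N` is a unit. -/
theorem isUnit_one_add (t : Λ) (ht : ∀ x, t * x = x * t) (hn : IsNilpotent t)
    (N : Matrix A A Λ) : IsUnit (1 + t • N) := by
  apply IsNilpotent.isUnit_one_add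
  obtain ⟨m, hm⟩ := hn
  exact ⟨m, by rw [C1_smul_pow t ht, hm, zero_smul]⟩

theorem isUnit_one_add' (t : Λ) (ht : ∀ x, t * x = x * t) (hn : IsNilpotent t) (h : Λ) :
    IsUnit (1 + t * h) := by
  apply IsNilpotent.isUnit_one_add
  obtain ⟨m, hm⟩ := hn
  exact ⟨m, by rw [(show Commute t h from ht h).mul_pow, hm, zero_mul]⟩

omit [DecidableEq A] in
theorem C1_mul_vec (M : Matrix A A Λ) (a b : A → Λ) :
    M * vecMulVec a b = vecMulVec (M *ᵥ a) b := by
  ext i j
  simp only [Matrix.mul_apply, Matrix.vecMulVec_apply, Matrix.mulVec, dotProduct, Finset.sum_mul,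
    mul_assoc]

omit [DecidableEq A] in
theorem C1_vec_mul (M : Matrix A A Λ) (a b : A → Λ) :
    vecMulVec a b * M = vecMulVec a (b ᵥ* M) := by
  ext i j
  simp only [Matrix.mul_apply, Matrix.vecMulVec_apply, Matrix.vecMul, dotProduct, Finset.mul_sum,
    mul_assoc]

omit [DecidableEq A] in
theorem C1_vec_vec (c r a b : A → Λ) :
    vecMulVec c r * vecMulVec a b = vecMulVec (fun i => c i * (r ⬝ᵥ a)) b := by
  ext i j
  simp only [Matrix.mul_apply, Matrix.vecMulVec_apply, dotProduct, Finset.mul_sum, Finset.sum_mul,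
    mul_assoc]

omit [DecidableEq A] in
theorem C1_mulVec_right (M : Matrix A A Λ) (v : A → Λ) (g : Λ) :
    (M *ᵥ fun a => v a * g) = fun i => (M *ᵥ v) i * g := by
  funext i
  simp only [Matrix.mulVec, dotProduct, Finset.sum_mul, mul_assoc]

omit [DecidableEq A] in
theorem C1_dot_right (r v : A → Λ) (g : Λ) : (r ⬝ᵥ fun a => v a * g) = (r ⬝ᵥ v) * g := by
  simp only [dotProduct, Finset.sum_mul, mul_assoc]

/-- Sherman-Morrison: with `M = 1 + t N`, `h = r M⁻¹ c`, `γ = (1 + t h)⁻¹`:
`(1 + t (N + c r))⁻¹ = M⁻¹ - t M⁻¹ c γ r M⁻¹`. -/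
theorem inverse_add_vecMulVec (t : Λ) (ht : ∀ x, t * x = x * t) (hn : IsNilpotent t)
    (N : Matrix A A Λ) (c r : A → Λ) :
    Ring.inverse (1 + t • (N + vecMulVec c r)) =
      Ring.inverse (1 + t • N) - t • vecMulVec
        (fun a => (Ring.inverse (1 + t • N) *ᵥ c) a *
          Ring.inverse (1 + t * (r ⬝ᵥ (Ring.inverse (1 + t • N) *ᵥ c))))
        (r ᵥ* Ring.inverse (1 + t • N)) := by
  have hM := isUnit_one_add t ht hn N
  have hM' := isUnit_one_add t ht hn (N + vecMulVec c r)
  have hs : (1 : Matrix A A Λ) + t • (N + vecMulVec c r) = 1 + t • N + t • vecMulVec c r := by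
    rw [smul_add, add_assoc]
  have hMW : (1 + t • N) * Ring.inverse (1 + t • N) = 1 := Ring.mul_inverse_cancel _ hM
  obtain ⟨M, hMd⟩ : ∃ M, M = 1 + t • N := ⟨_, rfl⟩
  obtain ⟨W, hWd⟩ : ∃ W, W = Ring.inverse (1 + t • N) := ⟨_, rfl⟩
  rw [← hWd, ← hMd] at hMW
  rw [← hWd]
  have hh := isUnit_one_add' t ht hn (r ⬝ᵥ (W *ᵥ c))
  have hg : (1 + t * (r ⬝ᵥ (W *ᵥ c))) * Ring.inverse (1 + t * (r ⬝ᵥ (W *ᵥ c))) = 1 :=
    Ring.mul_inverse_cancel _ hh
  obtain ⟨g, hgd⟩ : ∃ g, g = Ring.inverse (1 + t * (r ⬝ᵥ (W *ᵥ c))) := ⟨_, rfl⟩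
  rw [← hgd] at hg
  rw [← hgd]
  have key : (1 + t • (N + vecMulVec c r)) *
      (W - t • vecMulVec (fun a => (W *ᵥ c) a * g) (r ᵥ* W)) = 1 := by
    rw [hs, ← hMd, add_mul, mul_sub, mul_sub, hMW, C1_mul_smul t ht, C1_mul_smul t ht,
      Matrix.smul_mul, Matrix.smul_mul, C1_mul_vec, C1_vec_mul, C1_vec_vec, C1_mulVec_right,
      C1_dot_right, Matrix.mulVec_mulVec, hMW, Matrix.one_mulVec]
    ext i j
    simp only [Matrix.add_apply, Matrix.sub_apply, Matrix.smul_apply, smul_eq_mul,
      Matrix.vecMulVec_apply]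
    obtain ⟨h, hhd⟩ : ∃ h, h = r ⬝ᵥ (W *ᵥ c) := ⟨_, rfl⟩
    obtain ⟨b, hbd⟩ : ∃ b, b = (r ᵥ* W) j := ⟨_, rfl⟩
    rw [← hhd] at hg
    rw [← hhd, ← hbd]
    have e1 : t * (c i * (h * g) * b) = c i * (t * h * g) * b := by
      rw [← mul_assoc, ← mul_assoc t (c i), ht (c i), mul_assoc (c i) t, ← mul_assoc t h g]
    rw [e1]
    have e2 : c i * g * b + c i * (t * h * g) * b = c i * b := by
      rw [← add_mul, ← mul_add]
      have e3 : g + t * h * g = 1 := by rw [← hg, add_mul, one_mul]
      rw [e3, mul_one]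
    have e4 : t * (c i * b) = t * (c i * g * b) + t * (c i * (t * h * g) * b) := by
      rw [← mul_add, e2]
    rw [e4]
    abel
  calc Ring.inverse (1 + t • (N + vecMulVec c r))
      = Ring.inverse (1 + t • (N + vecMulVec c r)) * ((1 + t • (N + vecMulVec c r)) *
        (W - t • vecMulVec (fun a => (W *ᵥ c) a * g) (r ᵥ* W))) := by rw [key, mul_one]
    _ = W - t • vecMulVec (fun a => (W *ᵥ c) a * g) (r ᵥ* W) := by
        rw [← mul_assoc, Ring.inverse_mul_cancel _ hM', one_mul]

/-- a ring homomorphism maps the inverse of a unit to the inverse -/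
theorem map_inverse_of_isUnit {R R' : Type*} [Ring R] [Ring R'] (f : R →+* R') (a : R)
    (ha : IsUnit a) : f (Ring.inverse a) = Ring.inverse (f a) := by
  obtain ⟨u, rfl⟩ := ha
  have h : f ↑u = ↑(Units.map (f : R →* R') u) := rfl
  rw [Ring.inverse_unit, h, Ring.inverse_unit]
  rfl

end Pool.PI34.BA

end
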