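import Pool.Agent.LibPI54.M23

/-! ### part BA_B1 -/
section

/-! PI34, block BA, file B1: the products `D e w` of letters on disjoint strands. -/

set_option autoImplicit false

namespace Pool.PI34.BA

open Equiv Finset

variable {ι Φ E : Type*} [Fintype ι] [DecidableEq ι] [Ring Φ] [Ring E] (S : Str ι Φ E)

theorem D_zero' (e : Fin 0 → ι) (w : Fin 0 → Φ) : S.D e w = 1 := by
  unfold Str.D
  simp

theorem D_succ' {k : ℕ} (e : Fin (k + 1) → ι) (w : Fin (k + 1) → Φ) :
    S.D e w = S.ρ (e 0) (w 0) * S.D (fun i => e i.succ) (fun i => w i.succ) := by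
  unfold Str.D
  rw [List.ofFn_succ, List.prod_cons]

theorem D_one {k : ℕ} (e : Fin k → ι) : S.D e 1 = 1 := by
  induction k with
  | zero => exact D_zero' S e 1
  | succ k ih =>
    rw [D_succ']
    have h := ih (fun i => e i.succ)
    have h2 : (fun i : Fin k => (1 : Fin (k + 1) → Φ) i.succ) = 1 := rfl
    rw [h2, h, mul_one, Pi.one_apply, map_one]

/-- a letter on a strand outside the range of `e` commutes with `D e w` -/
theorem rho_comm_D {k : ℕ} (e : Fin k → ι) (z : ι) (hz : ∀ i, e i ≠ z) (a : Φ) (w : Fin k → Φ) :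
    S.ρ z a * S.D e w = S.D e w * S.ρ z a := by
  induction k with
  | zero => rw [D_zero', mul_one, one_mul]
  | succ k ih =>
    rw [D_succ', ← mul_assoc, S.comm z (e 0) (Ne.symm (hz 0)), mul_assoc,
      ih (fun i => e i.succ) (fun i => hz i.succ), mul_assoc]

/-- `D e (w w') = D e w * D e w'` for injective `e` (induction on `k`, `List.ofFn_succ`). -/
theorem D_mul {k : ℕ} (e : Fin k → ι) (he : Function.Injective e) (w w' : Fin k → Φ) :
    S.D e (w * w') = S.D e w * S.D e w' := by
  induction k with
  | zero => rw [D_zero', D_zero', D_zero', mul_one]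
  | succ k ih =>
    rw [D_succ' S e (w * w'), D_succ' S e w, D_succ' S e w']
    have h1 : (fun i : Fin k => (w * w') i.succ) =
        (fun i : Fin k => w i.succ) * (fun i : Fin k => w' i.succ) := rfl
    have hinj : Function.Injective fun i : Fin k => e i.succ :=
      fun i j hij => Fin.succ_injective k (he hij)
    have hne : ∀ i : Fin k, e i.succ ≠ e 0 := fun i h => Fin.succ_ne_zero i (he h)
    have h2 := rho_comm_D S (fun i : Fin k => e i.succ) (e 0) hne (w' 0) (fun i => w i.succ)
    rw [h1, ih _ hinj, Pi.mul_apply, map_mul]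
    calc S.ρ (e 0) (w 0) * S.ρ (e 0) (w' 0) *
          (S.D (fun i => e i.succ) (fun i => w i.succ) *
            S.D (fun i => e i.succ) (fun i => w' i.succ))
        = S.ρ (e 0) (w 0) * (S.ρ (e 0) (w' 0) * S.D (fun i => e i.succ) (fun i => w i.succ)) *
            S.D (fun i => e i.succ) (fun i => w' i.succ) := by
          simp only [mul_assoc]
      _ = _ := by
          rw [h2]
          simp only [mul_assoc]

theorem D_comm_D {k l : ℕ} (e : Fin k → ι) (f : Fin l → ι) (h : ∀ i j, e i ≠ f j)
    (w : Fin k → Φ) (w' : Fin l → Φ) : S.D e w * S.D f w' = S.D f w' * S.D e w := by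
  induction k with
  | zero => rw [D_zero', mul_one, one_mul]
  | succ k ih =>
    rw [D_succ' S e w, mul_assoc, ih (fun i => e i.succ) (fun i j => h i.succ j), ← mul_assoc,
      rho_comm_D S f (e 0) (fun j => Ne.symm (h 0 j)), mul_assoc]

/-- `s σ * D e w = D (σ ∘ e) w * s σ` -/
theorem s_mul_D {k : ℕ} (e : Fin k → ι) (σ : Perm ι) (w : Fin k → Φ) :
    S.s σ * S.D e w = S.D (σ ∘ e) w * S.s σ := by
  induction k with
  | zero => rw [D_zero', D_zero', mul_one, one_mul]
  | succ k ih =>
    have h := ih (fun i => e i.succ) (fun i => w i.succ)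
    rw [D_succ' S e w, D_succ' S (σ ∘ e) w, ← mul_assoc, S.conj, mul_assoc, h, ← mul_assoc]
    rfl

/-- reindexing (the factors commute pairwise): `List.Perm.prod_eq'` or induction. -/
theorem D_reindex {k : ℕ} (e : Fin k → ι) (he : Function.Injective e) (π : Perm (Fin k))
    (w : Fin k → Φ) : S.D (e ∘ π) (w ∘ π) = S.D e w := by
  unfold Str.D
  apply List.Perm.prod_eq'
  · exact Equiv.Perm.ofFn_comp_perm π (fun i => S.ρ (e i) (w i))
  · rw [List.pairwise_ofFn]
    intro i j hij
    have hne : e (π i) ≠ e (π j) := fun h => hij.ne (π.injective (he h))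
    exact S.comm _ _ hne _ _

theorem mem_permsOn' {T : Finset ι} {σ : Perm ι} :
    σ ∈ permsOn T ↔ ∀ x, x ∉ T → σ x = x := by
  unfold permsOn
  rw [Finset.mem_filter]
  exact ⟨fun h => h.2, fun h => ⟨Finset.mem_univ _, h⟩⟩

/-- an element that commutes with the permutations supported in `T` commutes with `anti`. -/
theorem comm_anti_of (s : Perm ι →* E) (T : Finset ι) (x : E)
    (h : ∀ σ : Perm ι, (∀ y, y ∉ T → σ y = y) → x * s σ = s σ * x) :
    x * anti s T = anti s T * x := by
  unfold anti
  rw [Finset.mul_sum, Finset.sum_mul]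
  apply Finset.sum_congr rfl
  intro σ hσ
  rw [mem_permsOn'] at hσ
  rw [mul_smul_comm, smul_mul_assoc, h σ hσ]

/-- `D e u` (constant word) commutes with the antisymmetrizer of the same strands. -/
theorem D_comm_anti {k : ℕ} (e : Fin k ↪ ι) (u : Φ) :
    S.D e (fun _ => u) * anti S.s (univ.map e) = anti S.s (univ.map e) * S.D e (fun _ => u) := by
  apply comm_anti_of
  intro σ hσ
  have hmem : ∀ i, ∃ j, e j = σ (e i) := by
    intro i
    by_contra hc
    push Not at hc
    have h1 : σ (e i) ∉ univ.map e := by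
      intro h2
      obtain ⟨j, _, hj⟩ := Finset.mem_map.1 h2
      exact hc j hj
    have h3 : σ (e i) = e i := σ.injective (hσ _ h1)
    exact hc i h3.symm
  choose π hπ using hmem
  have hinj : Function.Injective π := by
    intro i j hij
    have h1 : σ (e i) = σ (e j) := by rw [← hπ i, ← hπ j, hij]
    exact e.injective (σ.injective h1)
  let π' : Perm (Fin k) := Equiv.ofBijective π (Finite.injective_iff_bijective.1 hinj)
  have h2 : (σ ∘ e : Fin k → ι) = e ∘ π' := by
    funext i
    exact (hπ i).symm
  have h3 : (fun _ : Fin k => u) = (fun _ : Fin k => u) ∘ π' := rfl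
  rw [s_mul_D S e σ, h2]
  congr 1
  conv_rhs => rw [h3]
  exact (D_reindex S e e.injective π' _).symm

/-- `D e w` commutes with the antisymmetrizer of other strands. -/
theorem D_comm_anti' {k : ℕ} (e : Fin k → ι) (T : Finset ι) (hT : ∀ i, e i ∉ T) (w : Fin k → Φ) :
    S.D e w * anti S.s T = anti S.s T * S.D e w := by
  apply comm_anti_of
  intro σ hσ
  have h2 : (σ ∘ e : Fin k → ι) = e := by
    funext i
    exact hσ _ (hT i)
  rw [s_mul_D S e σ, h2]

/-- a letter commutes with the antisymmetrizer of other strands. -/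
theorem rho_comm_anti (z : ι) (T : Finset ι) (hz : z ∉ T) (a : Φ) :
    S.ρ z a * anti S.s T = anti S.s T * S.ρ z a := by
  apply comm_anti_of
  intro σ hσ
  rw [S.conj, hσ z hz]

end Pool.PI34.BA

end

/-! ### part BA_B5 -/
section

/-! PI34, block BA, file B5: the adjugate. -/

set_option autoImplicit false

namespace Pool.PI34.BA

open Equiv Finset

variable {ι Φ E : Type*} [Fintype ι] [DecidableEq ι] [Ring Φ] [Ring E] (S : Str ι Φ E)
variable {k : ℕ}

/-- `𝒜(u) = Σ_j (z, p j) ∏_{i ≠ j} ρ_{p i}(u) A_P` -/
def Str.adj (S : Str ι Φ E) (p : Fin k ↪ ι) (z : ι) (u : Φ) : E :=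
  ∑ j : Fin k, S.s (swap z (p j)) * S.D p (Function.update (fun _ => u) j 1) *
    anti S.s (univ.map p)

/-- a word with a single letter different from `1` -/
theorem D_update_one {k : ℕ} (e : Fin k → ι) (j : Fin k) (u : Φ) :
    S.D e (Function.update 1 j u) = S.ρ (e j) u := by
  induction k with
  | zero => exact j.elim0
  | succ k ih =>
    unfold Str.D
    rw [List.ofFn_succ, List.prod_cons]
    refine Fin.cases ?_ (fun j => ?_) j
    · have h1 : (List.ofFn fun i : Fin k => S.ρ (e i.succ)
          ((Function.update (1 : Fin (k + 1) → Φ) 0 u) i.succ)).prod = 1 := by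
        have h2 := D_one S (fun i : Fin k => e i.succ)
        unfold Str.D at h2
        rw [← h2]
        congr 2
      rw [h1, Function.update_self, mul_one]
    · have h1 : (Function.update (1 : Fin (k + 1) → Φ) j.succ u) 0 = 1 := by
        rw [Function.update_of_ne (Fin.succ_ne_zero j).symm]
        rfl
      have h2 := ih (fun i : Fin k => e i.succ) j
      unfold Str.D at h2
      rw [h1, map_one, one_mul, ← h2]
      congr 2
      funext i
      congr 1
      by_cases hij : i = j
      · subst hij
        rw [Function.update_self, Function.update_self]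
      · rw [Function.update_of_ne hij, Function.update_of_ne (fun h => hij (Fin.succ_injective _ h))]
        rfl

theorem rho_mul_D_update (p : Fin k ↪ ι) (j : Fin k) (u : Φ) :
    S.ρ (p j) u * S.D p (Function.update (fun _ => u) j 1) = S.D p (fun _ => u) := by
  rw [← D_update_one S p j u, ← D_mul S p p.injective]
  congr 1
  funext i
  by_cases hij : i = j
  · subst hij
    simp
  · simp [Function.update_of_ne hij]

/-- `ρ_z(u) 𝒜(u) = D_P(u) A_P`.  PROOF. `ρ_z(u) s(z, p j) = s(z, p j) ρ_{p j}(u)`,
`ρ_{p j}(u) ∏_{i ≠ j} ρ_{p i}(u) = D_P(u)`, so the left side is `Σ_j s(z, p j) D_P(u) A_P =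
Σ_j s(z, p j) A_P D_P(u) = A_P D_P(u)` by `anti_eq_sum`. -/
theorem rho_mul_adj (hA : Anti S.s k) (p : Fin k ↪ ι) (z : ι) (hz : ∀ i, p i ≠ z) (u : Φ) :
    S.ρ z u * S.adj p z u = S.D p (fun _ => u) * anti S.s (univ.map p) := by
  have hsum : anti S.s (univ.map p) =
      ∑ j : Fin k, S.s (swap z (p j)) * anti S.s (univ.map p) := by
    have h1 := anti_eq_sum S.s k hA (univ.map p) (by simp) z (by
      simp only [mem_map, mem_univ, true_and, not_exists]
      exact hz)
    rw [sum_map] at h1
    exact h1
  unfold Str.adj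
  rw [mul_sum]
  have h2 : ∀ j : Fin k, S.ρ z u * (S.s (swap z (p j)) *
      S.D p (Function.update (fun _ => u) j 1) * anti S.s (univ.map p)) =
      (S.s (swap z (p j)) * anti S.s (univ.map p)) * S.D p (fun _ => u) := by
    intro j
    have h3 : S.ρ z u * S.s (swap z (p j)) = S.s (swap z (p j)) * S.ρ (p j) u := by
      rw [S.conj, swap_apply_right]
    calc S.ρ z u * (S.s (swap z (p j)) *
        S.D p (Function.update (fun _ => u) j 1) * anti S.s (univ.map p))
        = (S.ρ z u * S.s (swap z (p j))) *
          S.D p (Function.update (fun _ => u) j 1) * anti S.s (univ.map p) := by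
          simp only [mul_assoc]
      _ = S.s (swap z (p j)) * (S.ρ (p j) u *
          S.D p (Function.update (fun _ => u) j 1)) * anti S.s (univ.map p) := by
          rw [h3]
          simp only [mul_assoc]
      _ = S.s (swap z (p j)) * (S.D p (fun _ => u) * anti S.s (univ.map p)) := by
          rw [rho_mul_D_update, mul_assoc]
      _ = (S.s (swap z (p j)) * anti S.s (univ.map p)) * S.D p (fun _ => u) := by
          rw [D_comm_anti, mul_assoc]
  rw [sum_congr rfl fun j _ => h2 j, ← sum_mul, ← hsum, D_comm_anti]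

end Pool.PI34.BA

end

/-! ### part BA_B3 -/
section

/-! PI34, block BA, file B3: the polynomial extension `S.poly` of a string system. -/

set_option autoImplicit false

namespace Pool.PI34.BA

open Equiv Finset Polynomial

variable {ι Φ E : Type*} [Fintype ι] [DecidableEq ι] [Ring Φ] [Ring E] (S : Str ι Φ E)

theorem B3_s_apply (σ : Perm ι) : S.poly.s σ = C (S.s σ) := rfl

theorem B3_rho_apply (i : ι) (a : Φ[X]) : S.poly.ρ i a = a.map (S.ρ i) := rfl

theorem poly_anti (T : Finset ι) : anti S.poly.s T = C (anti S.s T) := by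
  unfold anti
  rw [map_sum]
  refine Finset.sum_congr rfl fun σ _ => ?_
  rw [map_zsmul, B3_s_apply]

theorem poly_Anti (k : ℕ) (hA : Anti S.s k) : Anti S.poly.s k := by
  intro T hT
  rw [poly_anti, hA T hT, map_zero]

theorem poly_om {k : ℕ} (p q : Fin k ↪ ι) : S.poly.om p q = C (S.om p q) := by
  unfold Str.om
  rw [poly_anti, poly_anti, map_mul]

theorem poly_D_C {k : ℕ} (e : Fin k → ι) (w : Fin k → Φ) :
    S.poly.D e (fun i => C (w i)) = C (S.D e w) := by
  unfold Str.D
  rw [map_list_prod, List.map_ofFn]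
  congr 1
  congr 1
  funext i
  rw [B3_rho_apply, Polynomial.map_C]
  rfl

/-- evaluation at `0` -/
theorem poly_D_coeff_zero {k : ℕ} (e : Fin k → ι) (w : Fin k → Φ[X]) :
    (S.poly.D e w).coeff 0 = S.D e (fun i => (w i).coeff 0) := by
  unfold Str.D
  have h := map_list_prod (Polynomial.constantCoeff : E[X] →+* E)
    (List.ofFn fun i => S.poly.ρ (e i) (w i))
  rw [List.map_ofFn] at h
  rw [Polynomial.constantCoeff_apply] at h
  rw [h]
  congr 1
  congr 1
  funext i
  simp only [Function.comp_apply, Polynomial.constantCoeff_apply]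
  rw [B3_rho_apply, Polynomial.coeff_map]

theorem B3_list_monic (l : List E[X]) (h : ∀ p ∈ l, p.Monic) : l.prod.Monic := by
  induction l with
  | nil => simp
  | cons a l ih =>
    rw [List.prod_cons]
    exact (h a (by simp)).mul (ih fun p hp => h p (by simp [hp]))

/-- `D e (X + x)` is monic -/
theorem poly_D_monic {k : ℕ} (e : Fin k → ι) (x : Φ) :
    (S.poly.D e (fun _ => X + C x)).Monic := by
  unfold Str.D
  apply B3_list_monic
  intro p hp
  rw [List.mem_ofFn] at hp
  obtain ⟨i, rfl⟩ := hp
  rw [B3_rho_apply, Polynomial.map_add, Polynomial.map_X, Polynomial.map_C]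
  exact Polynomial.monic_X_add_C _

/-- degree bound: each letter has degree at most `d i` -/
theorem poly_D_natDegree {k : ℕ} (e : Fin k → ι) (w : Fin k → Φ[X]) (d : Fin k → ℕ)
    (h : ∀ i, (w i).natDegree ≤ d i) : (S.poly.D e w).natDegree ≤ ∑ i, d i := by
  unfold Str.D
  refine le_trans (Polynomial.natDegree_list_prod_le _) ?_
  rw [List.map_ofFn, List.sum_ofFn]
  refine Finset.sum_le_sum fun i _ => ?_
  simp only [Function.comp_apply]
  rw [B3_rho_apply]
  exact le_trans Polynomial.natDegree_map_le (h i)

end Pool.PI34.BA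

end
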