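import Pool.Agent.LibPI54.M23

/-! ### part BA_A2 -/
section

/-! PI34, block BA, file A2: the block swap fixes `ω = A_P A_Q` (over `ℤ`, no division).

PROOF.  Let `G_R` (for `R ⊆ Q`) be the permutations supported in `P ∪ R`, `ω = A_P A_Q` and
`t(σ) = sgn(σ) s(σ) ω`.  `t(σ π) = t(σ)` for `π` supported in `P ∪ Q` with `π P = P`, `π Q = Q`
(such a `π` is the product of a permutation of `P` and one of `Q`; `mul_anti`, `anti_comm`).
Hence for `σ` supported in `P ∪ Q`, `t(σ)` depends only on `U = σ(Q)`; call it `t_U`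
(`U ⊆ P ∪ Q`, `|U| = k`).
RELATION for `∅ ≠ R ⊆ Q`:  `∑_{U ⊇ Q ∖ R} t_U = 0`.   Indeed `0 = A_{P ∪ R}` (`anti_eq_zero`) is the sum
over the cosets `τ (Sym P × Sym R)` of `G_R` of `sgn(τ) s(τ) A_P A_R`; multiply on the right by `C` with
`A_Q = A_R C` (`anti_factor`), where `C` commutes with `A_P`; the cosets correspond to the sets
`U = τ(Q) = τ(R) ∪ (Q ∖ R)`.
Finally `∑_{R ⊆ Q} (-1)^{|R|} ∑_{U ⊇ Q ∖ R} t_U`: only `R = ∅` survives on one side (value `t_Q = ω`), and
exchanging the sums only `U = P` survives (value `(-1)^k t_P`).  So `ω = (-1)^k t_P = s(g) ω` for the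
product `g` of the `k` disjoint transpositions `(p i, q i)`.
-/

set_option autoImplicit false

namespace Pool.PI34.BA

open Equiv Finset

variable {ι : Type*} [Fintype ι] [DecidableEq ι] {E : Type*} [Ring E]

/-- the signed homomorphism -/
def A2_u (s : Perm ι →* E) : Perm ι →* E where
  toFun σ := ((Perm.sign σ : ℤˣ) : ℤ) • s σ
  map_one' := by simp
  map_mul' σ τ := by
    rw [Perm.sign_mul, Units.val_mul, map_mul, smul_mul_smul_comm]

theorem A2_anti (s : Perm ι →* E) (T : Finset ι) : anti s T = ∑ σ ∈ permsOn T, A2_u s σ := rfl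

theorem A2_mem (T : Finset ι) (σ : Perm ι) : σ ∈ permsOn T ↔ ∀ x, x ∉ T → σ x = x := by
  simp [permsOn]

theorem A2_mul_mem {T : Finset ι} {σ τ : Perm ι} (h1 : σ ∈ permsOn T) (h2 : τ ∈ permsOn T) :
    σ * τ ∈ permsOn T := by
  rw [A2_mem] at *
  intro x hx
  rw [Perm.mul_apply, h2 x hx, h1 x hx]

theorem A2_inv_mem {T : Finset ι} {σ : Perm ι} (h1 : σ ∈ permsOn T) : σ⁻¹ ∈ permsOn T := by
  rw [A2_mem] at *
  intro x hx
  rw [Perm.inv_eq_iff_eq]
  exact (h1 x hx).symm

theorem A2_mono {T T' : Finset ι} (h : T ⊆ T') {σ : Perm ι} (h1 : σ ∈ permsOn T) :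
    σ ∈ permsOn T' := by
  rw [A2_mem] at *
  exact fun x hx => h1 x fun h2 => hx (h h2)

theorem A2_maps {T : Finset ι} {σ : Perm ι} (h1 : σ ∈ permsOn T) (x : ι) : σ x ∈ T ↔ x ∈ T := by
  rw [A2_mem] at h1
  constructor
  · intro h
    by_contra h2
    rw [h1 x h2] at h
    exact h2 h
  · intro h
    by_contra h2
    have h3 := σ.injective (h1 _ h2)
    rw [h3] at h2
    exact h2 h

theorem A2_map_mul (Q : Finset ι) (σ τ : Perm ι) :
    Q.map (σ * τ).toEmbedding = (Q.map τ.toEmbedding).map σ.toEmbedding := by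
  rw [Finset.map_map]
  rfl

theorem A2_map_one (Q : Finset ι) : Q.map (1 : Perm ι).toEmbedding = Q := by
  ext x
  rw [Finset.mem_map_equiv]
  rfl

theorem A2_map_eq {A B : Finset ι} (σ : Perm ι) (h : ∀ x ∈ A, σ x ∈ B) (hc : B.card ≤ A.card) :
    A.map σ.toEmbedding = B := by
  refine Finset.eq_of_subset_of_card_le ?_ (by rw [Finset.card_map]; exact hc)
  intro y hy
  rw [Finset.mem_map] at hy
  obtain ⟨x, hx, rfl⟩ := hy
  exact h x hx

/-- a transversal, by induction -/
theorem A2_transversal (u : Perm ι →* E) (R : Finset ι) (n : ℕ) : ∀ X : Finset (Perm ι),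
    X.card ≤ n → (∀ π ∈ permsOn R, ∀ σ ∈ X, π * σ ∈ X) →
    ∃ W : Finset (Perm ι), W ⊆ X ∧ ∑ σ ∈ X, u σ = (∑ π ∈ permsOn R, u π) * ∑ σ ∈ W, u σ := by
  induction n with
  | zero =>
    intro X hX _
    have h1 : X = ∅ := Finset.card_eq_zero.1 (by omega)
    exact ⟨∅, by simp, by simp [h1]⟩
  | succ n ih =>
    intro X hX hc
    by_cases hne : X = ∅
    · exact ⟨∅, by simp, by simp [hne]⟩
    · obtain ⟨τ, hτ⟩ := Finset.nonempty_iff_ne_empty.2 hne
      set Y : Finset (Perm ι) := (permsOn R).image fun π => π * τ with hY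
      have hτY : τ ∈ Y := by
        rw [hY, Finset.mem_image]
        exact ⟨1, by rw [A2_mem]; simp, by simp⟩
      have hYX : Y ⊆ X := by
        intro x hx
        rw [hY, Finset.mem_image] at hx
        obtain ⟨π, hπ, rfl⟩ := hx
        exact hc π hπ τ hτ
      have hcard : (X \ Y).card ≤ n := by
        have h1 : (X \ Y).card < X.card := by
          refine Finset.card_lt_card ?_
          rw [Finset.ssubset_iff_of_subset Finset.sdiff_subset]
          exact ⟨τ, hτ, fun h => (Finset.mem_sdiff.1 h).2 hτY⟩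
        omega
      obtain ⟨W, hW1, hW2⟩ := ih (X \ Y) hcard (by
        intro π hπ σ hσ
        rw [Finset.mem_sdiff] at hσ ⊢
        refine ⟨hc π hπ σ hσ.1, fun h => hσ.2 ?_⟩
        rw [hY, Finset.mem_image] at h ⊢
        obtain ⟨π', hπ', h1⟩ := h
        refine ⟨π⁻¹ * π', A2_mul_mem (A2_inv_mem hπ) hπ', ?_⟩
        rw [mul_assoc, h1, inv_mul_cancel_left])
      have hτW : τ ∉ W := fun h => (Finset.mem_sdiff.1 (hW1 h)).2 hτY
      refine ⟨insert τ W, ?_, ?_⟩
      · intro x hx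
        rw [Finset.mem_insert] at hx
        rcases hx with rfl | hx
        · exact hτ
        · exact (Finset.mem_sdiff.1 (hW1 hx)).1
      · rw [Finset.sum_insert hτW, mul_add, ← hW2, ← Finset.sum_sdiff hYX, add_comm]
        congr 1
        rw [hY, Finset.sum_image (fun a _ b _ h => mul_right_cancel h), Finset.sum_mul]
        exact Finset.sum_congr rfl fun π _ => map_mul u π τ

/-- for `R ⊆ Q` there is `C`, a signed sum of permutations supported in `Q`, with `A_Q = A_R C`
(right transversal of `Sym R` in `Sym Q`). -/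
theorem anti_factor (s : Perm ι →* E) (R Q : Finset ι) (h : R ⊆ Q) :
    ∃ W : Finset (Perm ι), (∀ σ ∈ W, ∀ x, x ∉ Q → σ x = x) ∧
      anti s Q = anti s R * ∑ σ ∈ W, ((Perm.sign σ : ℤˣ) : ℤ) • s σ := by
  obtain ⟨W, hW1, hW2⟩ := A2_transversal (A2_u s) R _ (permsOn Q) le_rfl
    (fun π hπ σ hσ => A2_mul_mem (A2_mono h hπ) hσ)
  exact ⟨W, fun σ hσ => (A2_mem Q σ).1 (hW1 hσ), hW2⟩

/-- the product of the transpositions `(p i, q i)` -/
theorem exists_blockSwap {k : ℕ} (p q : Fin k ↪ ι) (hpq : ∀ i j, p i ≠ q j) :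
    ∃ g : Perm ι, (∀ i, g (p i) = q i) ∧ (∀ i, g (q i) = p i) ∧
      (∀ x, (∀ i, x ≠ p i) → (∀ i, x ≠ q i) → g x = x) ∧ Perm.sign g = (-1) ^ k := by
  induction k with
  | zero => exact ⟨1, fun i => i.elim0, fun i => i.elim0, fun x _ _ => rfl, by simp⟩
  | succ k ih =>
    obtain ⟨g, h1, h2, h3, h4⟩ := ih ((Fin.succEmb k).trans p)
      ((Fin.succEmb k).trans q) (fun i j => hpq i.succ j.succ)
    have h1' : ∀ i : Fin k, g (p i.succ) = q i.succ := h1
    have h2' : ∀ i : Fin k, g (q i.succ) = p i.succ := h2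
    have h3' : ∀ x, (∀ i : Fin k, x ≠ p i.succ) → (∀ i : Fin k, x ≠ q i.succ) → g x = x := h3
    have e1 : ∀ i : Fin k, p i.succ ≠ p 0 := fun i h => Fin.succ_ne_zero i (p.injective h)
    have e2 : ∀ i : Fin k, q i.succ ≠ q 0 := fun i h => Fin.succ_ne_zero i (q.injective h)
    have g1 : g (p 0) = p 0 := h3' _ (fun i => (e1 i).symm) (fun i => hpq 0 i.succ)
    have g2 : g (q 0) = q 0 := h3' _ (fun i => (hpq i.succ 0).symm) (fun i => (e2 i).symm)
    refine ⟨swap (p 0) (q 0) * g, ?_, ?_, ?_, ?_⟩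
    · intro i
      refine Fin.cases ?_ (fun i => ?_) i
      · rw [Perm.mul_apply, g1, swap_apply_left]
      · rw [Perm.mul_apply, h1', swap_apply_of_ne_of_ne (hpq 0 i.succ).symm (e2 i)]
    · intro i
      refine Fin.cases ?_ (fun i => ?_) i
      · rw [Perm.mul_apply, g2, swap_apply_right]
      · rw [Perm.mul_apply, h2', swap_apply_of_ne_of_ne (e1 i) (hpq i.succ 0)]
    · intro x hx1 hx2
      rw [Perm.mul_apply, h3' x (fun i => hx1 i.succ) (fun i => hx2 i.succ),
        swap_apply_of_ne_of_ne (hx1 0) (hx2 0)]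
    · rw [Perm.sign_mul, Perm.sign_swap (hpq 0 0), h4, pow_succ']

/-- the product of the antisymmetrizers of two disjoint sets -/
theorem A2_stab (s : Perm ι →* E) (P Q R : Finset ι) (hRQ : R ⊆ Q) (hPQ : Disjoint P Q) :
    anti s P * anti s R =
      ∑ π ∈ (permsOn (P ∪ R)).filter (fun π => Q.map π.toEmbedding = Q), A2_u s π := by
  have hd : ∀ x, x ∈ P → x ∉ Q := fun x hx => Finset.disjoint_left.1 hPQ hx
  rw [A2_anti, A2_anti, Finset.sum_mul_sum, ← Finset.sum_product']
  refine Finset.sum_bij (fun x _ => x.1 * x.2) ?_ ?_ ?_ ?_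
  · rintro ⟨α, β⟩ hx
    rw [Finset.mem_product] at hx
    have hα : α ∈ permsOn P := hx.1
    have hβ : β ∈ permsOn R := hx.2
    rw [Finset.mem_filter]
    refine ⟨A2_mul_mem (A2_mono Finset.subset_union_left hα)
      (A2_mono Finset.subset_union_right hβ), ?_⟩
    ext y
    have hβQ := A2_mono hRQ hβ
    rw [A2_map_mul, Finset.mem_map_equiv, Finset.mem_map_equiv]
    have h1 : α.symm y ∈ Q ↔ y ∈ Q := by
      have hα' := (A2_mem P α⁻¹).1 (A2_inv_mem hα)
      by_cases hy : y ∈ P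
      · have h2 : α⁻¹ y ∈ P := (A2_maps (A2_inv_mem hα) y).2 hy
        exact ⟨fun h => absurd h (hd _ h2), fun h => absurd h (hd _ hy)⟩
      · have h2 : α⁻¹ y = y := hα' y hy
        have h3 : α.symm y = y := h2
        rw [h3]
    have h2 : β.symm (α.symm y) ∈ Q ↔ α.symm y ∈ Q := A2_maps (A2_inv_mem hβQ) (α.symm y)
    rw [h2, h1]
  · rintro ⟨α, β⟩ hx ⟨α', β'⟩ hx' hh
    rw [Finset.mem_product] at hx hx'
    have hα := (A2_mem P α).1 hx.1
    have hβ := (A2_mem R β).1 hx.2
    have hα' := (A2_mem P α').1 hx'.1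
    have hβ' := (A2_mem R β').1 hx'.2
    have hh' : α * β = α' * β' := hh
    have h1 : α = α' := by
      ext x
      by_cases hxP : x ∈ P
      · have hxR : x ∉ R := fun h => hd x hxP (hRQ h)
        have h2 := congrArg (fun π : Perm ι => π x) hh'
        simp only [Perm.mul_apply, hβ x hxR, hβ' x hxR] at h2
        exact h2
      · rw [hα x hxP, hα' x hxP]
    subst h1
    rw [mul_left_cancel hh']
  · intro π hπ
    rw [Finset.mem_filter] at hπ
    obtain ⟨hπ1, hπ2⟩ := hπ
    have hQ : ∀ x, π x ∈ Q ↔ x ∈ Q := by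
      intro x
      have h1 : π x ∈ Q.map π.toEmbedding ↔ x ∈ Q := by
        rw [Finset.mem_map_equiv, Equiv.symm_apply_apply]
      rwa [hπ2] at h1
    have hP : ∀ x, π x ∈ P ↔ x ∈ P := by
      intro x
      have h1 := A2_maps hπ1 x
      rw [Finset.mem_union, Finset.mem_union] at h1
      constructor
      · intro h
        rcases h1.1 (Or.inl h) with h2 | h2
        · exact h2
        · exact absurd ((hQ x).2 (hRQ h2)) (hd _ h)
      · intro h
        rcases h1.2 (Or.inl h) with h2 | h2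
        · exact h2
        · exact absurd ((hQ x).1 (hRQ h2)) (hd _ h)
    set α : Perm ι := Perm.ofSubtype (π.subtypePerm hP) with hαd
    have hα1 : ∀ x, x ∈ P → α x = π x := fun x hx => by
      rw [hαd, Perm.ofSubtype_apply_of_mem _ hx]
      rfl
    have hα2 : ∀ x, x ∉ P → α x = x := fun x hx => by
      rw [hαd, Perm.ofSubtype_apply_of_not_mem _ hx]
    refine ⟨(α, α⁻¹ * π), ?_, ?_⟩
    · rw [Finset.mem_product]
      refine ⟨(A2_mem P α).2 hα2, (A2_mem R _).2 fun x hx => ?_⟩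
      rw [Perm.mul_apply, Perm.inv_eq_iff_eq]
      by_cases hxP : x ∈ P
      · exact (hα1 x hxP).symm
      · rw [hα2 x hxP]
        exact (A2_mem _ π).1 hπ1 x (by simp [hxP, hx])
    · exact mul_inv_cancel_left α π
  · rintro ⟨α, β⟩ _
    exact (map_mul (A2_u s) α β).symm

theorem A2_fiber (u : Perm ι →* E) (T Q : Finset ι) (τ : Perm ι) (hτ : τ ∈ permsOn T) :
    ∑ σ ∈ (permsOn T).filter (fun σ => Q.map σ.toEmbedding = Q.map τ.toEmbedding), u σ =
      u τ * ∑ π ∈ (permsOn T).filter (fun π => Q.map π.toEmbedding = Q), u π := by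
  rw [Finset.mul_sum]
  refine Finset.sum_bij' (fun σ _ => τ⁻¹ * σ) (fun π _ => τ * π) ?_ ?_ ?_ ?_ ?_
  · intro σ hσ
    rw [Finset.mem_filter] at hσ ⊢
    refine ⟨A2_mul_mem (A2_inv_mem hτ) hσ.1, ?_⟩
    rw [A2_map_mul, hσ.2, ← A2_map_mul, inv_mul_cancel, A2_map_one]
  · intro π hπ
    rw [Finset.mem_filter] at hπ ⊢
    refine ⟨A2_mul_mem hτ hπ.1, ?_⟩
    rw [A2_map_mul, hπ.2]
  · intro σ _
    exact mul_inv_cancel_left τ σ
  · intro π _
    exact inv_mul_cancel_left τ π
  · intro σ _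
    rw [← map_mul, mul_inv_cancel_left]

theorem A2_fix (s : Perm ι →* E) (P Q : Finset ι) (hPQ : Disjoint P Q) (π : Perm ι)
    (h1 : π ∈ permsOn (P ∪ Q)) (h2 : Q.map π.toEmbedding = Q) :
    A2_u s π * (anti s P * anti s Q) = anti s P * anti s Q := by
  rw [A2_stab s P Q Q (Finset.Subset.refl _) hPQ, ← A2_fiber (A2_u s) (P ∪ Q) Q π h1, h2]

open Classical in
/-- the value at a subset -/
noncomputable def A2_t (u : Perm ι →* E) (T Q : Finset ι) (w : E) (U : Finset ι) : E :=
  if h : ∃ τ ∈ permsOn T, Q.map τ.toEmbedding = U then u h.choose * w else 0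

theorem A2_t_eq (s : Perm ι →* E) (P Q : Finset ι) (hPQ : Disjoint P Q) (τ : Perm ι)
    (hτ : τ ∈ permsOn (P ∪ Q)) :
    A2_t (A2_u s) (P ∪ Q) Q (anti s P * anti s Q) (Q.map τ.toEmbedding) =
      A2_u s τ * (anti s P * anti s Q) := by
  have h : ∃ τ' ∈ permsOn (P ∪ Q), Q.map τ'.toEmbedding = Q.map τ.toEmbedding := ⟨τ, hτ, rfl⟩
  rw [A2_t, dif_pos h]
  obtain ⟨h1, h2⟩ := h.choose_spec
  set τ' := h.choose with hτ'
  have h3 : A2_u s (τ⁻¹ * τ') * (anti s P * anti s Q) = anti s P * anti s Q := by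
    refine A2_fix s P Q hPQ _ (A2_mul_mem (A2_inv_mem hτ) h1) ?_
    rw [A2_map_mul, h2, ← A2_map_mul, inv_mul_cancel, A2_map_one]
  have h4 : τ' = τ * (τ⁻¹ * τ') := (mul_inv_cancel_left τ τ').symm
  rw [h4, map_mul, mul_assoc, h3]

/-- the images of `Q` -/
def A2_im (T Q : Finset ι) : Finset (Finset ι) :=
  (permsOn T).image fun σ => Q.map σ.toEmbedding

theorem A2_rel (s : Perm ι →* E) (P Q R : Finset ι) (hRQ : R ⊆ Q) (hPQ : Disjoint P Q) (C : E)
    (hC : anti s Q = anti s R * C) :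
    anti s (P ∪ R) * C =
      ∑ U ∈ A2_im (P ∪ R) Q, A2_t (A2_u s) (P ∪ Q) Q (anti s P * anti s Q) U := by
  have h1 : anti s (P ∪ R) = ∑ U ∈ A2_im (P ∪ R) Q,
      ∑ σ ∈ (permsOn (P ∪ R)).filter (fun σ => Q.map σ.toEmbedding = U), A2_u s σ := by
    rw [A2_anti]
    exact (Finset.sum_fiberwise_of_maps_to (fun σ hσ => Finset.mem_image_of_mem _ hσ) _).symm
  rw [h1, Finset.sum_mul]
  refine Finset.sum_congr rfl fun U hU => ?_
  rw [A2_im, Finset.mem_image] at hU
  obtain ⟨τ, hτ, rfl⟩ := hU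
  rw [A2_fiber (A2_u s) (P ∪ R) Q τ hτ, ← A2_stab s P Q R hRQ hPQ,
    A2_t_eq s P Q hPQ τ (A2_mono (Finset.union_subset_union_right hRQ) hτ), hC]
  simp only [mul_assoc]

theorem A2_exists_perm (T A B : Finset ι) (hA : A ⊆ T) (hB : B ⊆ T) (hc : A.card = B.card) :
    ∃ σ ∈ permsOn T, A.map σ.toEmbedding = B := by
  classical
  let e1 : {x // x ∈ A} ≃ {x // x ∈ B} := Finset.equivOfCardEq hc
  let eA : {x : {x // x ∈ T} // x.1 ∈ A} ≃ {x // x ∈ A} :=
    Equiv.subtypeSubtypeEquivSubtype (fun {x} hx => hA hx)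
  let eB : {x : {x // x ∈ T} // x.1 ∈ B} ≃ {x // x ∈ B} :=
    Equiv.subtypeSubtypeEquivSubtype (fun {x} hx => hB hx)
  let e : {x : {x // x ∈ T} // x.1 ∈ A} ≃ {x : {x // x ∈ T} // x.1 ∈ B} :=
    eA.trans (e1.trans eB.symm)
  refine ⟨Perm.ofSubtype e.extendSubtype, ?_, ?_⟩
  · rw [A2_mem]
    intro x hx
    exact Perm.ofSubtype_apply_of_not_mem _ hx
  · refine Finset.eq_of_subset_of_card_le ?_ ?_
    · intro y hy
      rw [Finset.mem_map] at hy
      obtain ⟨x, hx, rfl⟩ := hy
      have h1 : (Perm.ofSubtype e.extendSubtype) x = e.extendSubtype ⟨x, hA hx⟩ :=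
        Perm.ofSubtype_apply_of_mem _ (hA hx)
      have h2 := e.extendSubtype_mem ⟨x, hA hx⟩ hx
      change (Perm.ofSubtype e.extendSubtype) x ∈ B
      rw [h1]
      exact h2
    · rw [Finset.card_map, hc]

theorem A2_im_eq (P Q R : Finset ι) (hRQ : R ⊆ Q) (hPQ : Disjoint P Q) :
    A2_im (P ∪ R) Q = (A2_im (P ∪ Q) Q).filter fun U => Q \ R ⊆ U := by
  ext U
  rw [Finset.mem_filter, A2_im, A2_im, Finset.mem_image, Finset.mem_image]
  constructor
  · rintro ⟨σ, hσ, rfl⟩
    refine ⟨⟨σ, A2_mono (Finset.union_subset_union_right hRQ) hσ, rfl⟩, ?_⟩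
    intro x hx
    rw [Finset.mem_sdiff] at hx
    have hxP : x ∉ P := fun h => Finset.disjoint_left.1 hPQ h hx.1
    have h1 : σ x = x := (A2_mem _ σ).1 hσ x (by simp [hxP, hx.2])
    rw [Finset.mem_map]
    exact ⟨x, hx.1, h1⟩
  · rintro ⟨⟨σ, hσ, rfl⟩, hsub⟩
    set U := Q.map σ.toEmbedding with hU
    have hUT : U ⊆ P ∪ Q := by
      intro y hy
      rw [hU, Finset.mem_map] at hy
      obtain ⟨x, hx, rfl⟩ := hy
      exact (A2_maps hσ x).2 (Finset.mem_union_right _ hx)
    have hUc : U.card = Q.card := by rw [hU, Finset.card_map]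
    have h1 : U \ (Q \ R) ⊆ P ∪ R := by
      intro y hy
      rw [Finset.mem_sdiff, Finset.mem_sdiff] at hy
      have h2 := hUT hy.1
      rw [Finset.mem_union] at h2 ⊢
      rcases h2 with h2 | h2
      · exact Or.inl h2
      · right
        by_contra h3
        exact hy.2 ⟨h2, h3⟩
    have h2 : R.card = (U \ (Q \ R)).card := by
      rw [Finset.card_sdiff_of_subset hsub, Finset.card_sdiff_of_subset hRQ, hUc]
      have := Finset.card_le_card hRQ
      omega
    obtain ⟨τ, hτ, h3⟩ := A2_exists_perm (P ∪ R) R (U \ (Q \ R)) Finset.subset_union_right h1 h2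
    refine ⟨τ, hτ, ?_⟩
    have h4 : Q = R ∪ (Q \ R) := by rw [Finset.union_sdiff_of_subset hRQ]
    have h5 : (Q \ R).map τ.toEmbedding = Q \ R := by
      have h6 : ∀ x ∈ Q \ R, τ x = x := by
        intro x hx
        rw [Finset.mem_sdiff] at hx
        have hxP : x ∉ P := fun h => Finset.disjoint_left.1 hPQ h hx.1
        exact (A2_mem _ τ).1 hτ x (by simp [hxP, hx.2])
      refine Finset.eq_of_subset_of_card_le ?_ (by rw [Finset.card_map])
      intro y hy
      rw [Finset.mem_map] at hy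
      obtain ⟨x, hx, rfl⟩ := hy
      change τ x ∈ Q \ R
      rw [h6 x hx]
      exact hx
    have h7 : Q.map τ.toEmbedding = (R ∪ (Q \ R)).map τ.toEmbedding := by rw [← h4]
    rw [h7, Finset.map_union, h3, h5, Finset.sdiff_union_of_subset hsub]

/-- the block swap fixes `ω` -/
theorem blockSwap_om (s : Perm ι →* E) (k : ℕ) (hA : Anti s k) (p q : Fin k ↪ ι)
    (hpq : ∀ i j, p i ≠ q j) (g : Perm ι) (hgp : ∀ i, g (p i) = q i) (hgq : ∀ i, g (q i) = p i)
    (hg : ∀ x, (∀ i, x ≠ p i) → (∀ i, x ≠ q i) → g x = x) (hsg : Perm.sign g = (-1) ^ k) :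
    s g * (anti s (univ.map p) * anti s (univ.map q)) =
      anti s (univ.map p) * anti s (univ.map q) := by
  classical
  set P : Finset ι := univ.map p with hP
  set Q : Finset ι := univ.map q with hQ
  have hPQ : Disjoint P Q := by
    rw [Finset.disjoint_left]
    intro x hx hy
    rw [hP, Finset.mem_map] at hx
    rw [hQ, Finset.mem_map] at hy
    obtain ⟨i, _, rfl⟩ := hx
    obtain ⟨j, _, hj⟩ := hy
    exact hpq i j hj.symm
  have cP : P.card = k := by rw [hP, Finset.card_map, Finset.card_univ, Fintype.card_fin]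
  have cQ : Q.card = k := by rw [hQ, Finset.card_map, Finset.card_univ, Fintype.card_fin]
  have hgm : g ∈ permsOn (P ∪ Q) := by
    rw [A2_mem]
    intro x hx
    rw [Finset.mem_union, not_or] at hx
    refine hg x (fun i h => hx.1 ?_) (fun i h => hx.2 ?_)
    · rw [h, hP]
      exact Finset.mem_map_of_mem p (Finset.mem_univ i)
    · rw [h, hQ]
      exact Finset.mem_map_of_mem q (Finset.mem_univ i)
  have hgQ : Q.map g.toEmbedding = P := by
    refine A2_map_eq g ?_ (cP.trans cQ.symm).le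
    intro x hx
    rw [hQ, Finset.mem_map] at hx
    obtain ⟨i, _, rfl⟩ := hx
    rw [hgq i, hP]
    exact Finset.mem_map_of_mem p (Finset.mem_univ i)
  set w : E := anti s P * anti s Q with hw
  set t : Finset ι → E := A2_t (A2_u s) (P ∪ Q) Q w with ht
  -- the relations
  have hrel : ∀ S ∈ Q.powerset, ∑ U ∈ (A2_im (P ∪ Q) Q).filter (fun U => S ⊆ U), t U =
      if S = Q then w else 0 := by
    intro S hS
    rw [Finset.mem_powerset] at hS
    have hRQ : Q \ S ⊆ Q := Finset.sdiff_subset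
    have h1 : Q \ (Q \ S) = S := by
      rw [Finset.sdiff_sdiff_eq_self hS]
    have h2 := A2_im_eq P Q (Q \ S) hRQ hPQ
    rw [h1] at h2
    rw [← h2]
    by_cases hSQ : S = Q
    · rw [if_pos hSQ, hSQ, Finset.sdiff_self, Finset.union_empty]
      have h3 : A2_im P Q = {Q} := by
        ext U
        rw [A2_im, Finset.mem_image, Finset.mem_singleton]
        constructor
        · rintro ⟨σ, hσ, rfl⟩
          refine A2_map_eq σ ?_ le_rfl
          intro x hx
          have hxP : x ∉ P := fun h => Finset.disjoint_left.1 hPQ h hx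
          rw [(A2_mem _ σ).1 hσ x hxP]
          exact hx
        · rintro rfl
          exact ⟨1, by rw [A2_mem]; simp, A2_map_one _⟩
      rw [h3, Finset.sum_singleton]
      have h4 := A2_t_eq s P Q hPQ 1 (by rw [A2_mem]; simp)
      rw [A2_map_one, map_one, one_mul] at h4
      exact h4
    · rw [if_neg hSQ]
      obtain ⟨W, _, hW2⟩ := anti_factor s (Q \ S) Q hRQ
      have h3 := A2_rel s P Q (Q \ S) hRQ hPQ _ hW2
      have h4 : anti s (P ∪ (Q \ S)) = 0 := by
        refine anti_eq_zero s k hA _ ?_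
        have h5 : Disjoint P (Q \ S) := hPQ.mono_right hRQ
        rw [Finset.card_union_of_disjoint h5, cP]
        have h6 : (Q \ S).Nonempty := by
          rw [Finset.sdiff_nonempty]
          exact fun h => hSQ (Finset.Subset.antisymm hS h)
        have := h6.card_pos
        omega
      rw [h4, zero_mul] at h3
      exact h3.symm
  have e1 : ∑ S ∈ Q.powerset, ((-1 : ℤ) ^ S.card) •
      ∑ U ∈ (A2_im (P ∪ Q) Q).filter (fun U => S ⊆ U), t U = ((-1 : ℤ) ^ k) • w := by
    rw [Finset.sum_congr rfl fun S hS => by rw [hrel S hS]]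
    rw [Finset.sum_eq_single Q]
    · rw [if_pos rfl, cQ]
    · intro S _ hS
      rw [if_neg hS, smul_zero]
    · intro h
      exact absurd (Finset.mem_powerset_self Q) h
  have e2 : ∑ S ∈ Q.powerset, ((-1 : ℤ) ^ S.card) •
      ∑ U ∈ (A2_im (P ∪ Q) Q).filter (fun U => S ⊆ U), t U = t P := by
    have h1 : ∑ S ∈ Q.powerset, ((-1 : ℤ) ^ S.card) •
        ∑ U ∈ (A2_im (P ∪ Q) Q).filter (fun U => S ⊆ U), t U =
        ∑ U ∈ A2_im (P ∪ Q) Q, (∑ S ∈ (Q ∩ U).powerset, (-1 : ℤ) ^ S.card) • t U := by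
      simp_rw [Finset.smul_sum, Finset.sum_filter, Finset.sum_smul]
      rw [Finset.sum_comm]
      refine Finset.sum_congr rfl fun U _ => ?_
      rw [← Finset.sum_filter]
      refine Finset.sum_congr ?_ fun _ _ => rfl
      ext S
      rw [Finset.mem_filter, Finset.mem_powerset, Finset.mem_powerset, Finset.subset_inter_iff]
    rw [h1, Finset.sum_eq_single P]
    · rw [Finset.sum_powerset_neg_one_pow_card, if_pos, one_smul]
      rw [← Finset.disjoint_iff_inter_eq_empty]
      exact hPQ.symm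
    · intro U hU hUP
      rw [Finset.sum_powerset_neg_one_pow_card, if_neg, zero_smul]
      intro h2
      apply hUP
      rw [A2_im, Finset.mem_image] at hU
      obtain ⟨σ, hσ, rfl⟩ := hU
      refine A2_map_eq σ ?_ (cP.trans cQ.symm).le
      intro x hx
      have hy' : σ x ∈ Q.map σ.toEmbedding := Finset.mem_map_of_mem σ.toEmbedding hx
      have h3 : σ x ∈ P ∪ Q := (A2_maps hσ x).2 (Finset.mem_union_right _ hx)
      rw [Finset.mem_union] at h3
      rcases h3 with h3 | h3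
      · exact h3
      · have h4 : σ x ∈ Q ∩ Q.map σ.toEmbedding := Finset.mem_inter.2 ⟨h3, hy'⟩
        rw [h2] at h4
        exact absurd h4 (Finset.notMem_empty _)
    · intro h
      exfalso
      apply h
      rw [A2_im, Finset.mem_image]
      exact ⟨g, hgm, hgQ⟩
  have e3 : t P = A2_u s g * w := by
    have h1 := A2_t_eq s P Q hPQ g hgm
    rw [hgQ] at h1
    exact h1
  have e4 : A2_u s g = ((-1 : ℤ) ^ k) • s g := by
    change ((Perm.sign g : ℤˣ) : ℤ) • s g = _
    rw [hsg]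
    simp
  have e5 : ((-1 : ℤ) ^ k) • w = ((-1 : ℤ) ^ k) • (s g * w) := by
    rw [← e1, e2, e3, e4, smul_mul_assoc]
  have e6 : ∀ x : E, ((-1 : ℤ) ^ k) • (((-1 : ℤ) ^ k) • x) = x := by
    intro x
    rw [smul_smul, ← mul_pow]
    simp
  have e7 := congrArg (fun x => ((-1 : ℤ) ^ k) • x) e5
  simp only [e6] at e7
  exact e7.symm

end Pool.PI34.BA

end

/-! ### part BA_C2 -/
section

/-! PI34, block BA, file C2: THE LEMMA (rank one update of the closing determinant). -/

set_option autoImplicit false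

namespace Pool.PI34.BA

open Equiv Finset Matrix

set_option linter.unusedSectionVars false

variable {A Λ : Type*} [Fintype A] [DecidableEq A] [Ring Λ] {M : Type*} [CommMonoid M]

/-- the scalar computation -/
theorem C2_core (π : Λ →* M) (hπ : ∀ x y, π (1 + x * y) = π (1 + y * x)) {α β : Λ}
    (hα : IsUnit α) (hβ : IsUnit β) (d p : Λ) :
    π α * π (β - d * Ring.inverse α * p) = π β * π (α - p * Ring.inverse β * d) := by
  have h1 : β - d * Ring.inverse α * p =
      β * (1 + (-(Ring.inverse β * d * Ring.inverse α)) * p) := by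
    have : β * (Ring.inverse β * d * Ring.inverse α * p) = d * Ring.inverse α * p := by
      rw [mul_assoc (Ring.inverse β), mul_assoc (Ring.inverse β), Ring.mul_inverse_cancel_left _ _ hβ]
    rw [mul_add, mul_one, neg_mul, mul_neg, this, sub_eq_add_neg]
  have h2 : α - p * Ring.inverse β * d =
      (1 + p * (-(Ring.inverse β * d * Ring.inverse α))) * α := by
    have : p * (Ring.inverse β * d * Ring.inverse α) * α = p * Ring.inverse β * d := by
      rw [mul_assoc p, mul_assoc (Ring.inverse β * d), Ring.inverse_mul_cancel _ hα, mul_one,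
        ← mul_assoc]
    rw [add_mul, one_mul, mul_neg, neg_mul, this, sub_eq_add_neg]
  rw [h1, h2, map_mul, map_mul, hπ, mul_left_comm, mul_comm (π α)]

theorem C2_bil_smul (t : Λ) (ht : ∀ x, t * x = x * t) (K : Matrix A A Λ) (v w : A → Λ) :
    v ⬝ᵥ ((t • K) *ᵥ w) = t * (v ⬝ᵥ (K *ᵥ w)) := by
  simp only [dotProduct, mulVec, Matrix.smul_apply, smul_eq_mul, Finset.mul_sum]
  refine Finset.sum_congr rfl fun b _ => Finset.sum_congr rfl fun j _ => ?_
  rw [mul_assoc t, ← mul_assoc (v b), ← ht, mul_assoc]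

theorem C2_bil_vec (x y v w : A → Λ) : v ⬝ᵥ (vecMulVec x y *ᵥ w) = (v ⬝ᵥ x) * (y ⬝ᵥ w) := by
  simp only [dotProduct, mulVec, vecMulVec_apply]
  rw [Finset.sum_mul]
  refine Finset.sum_congr rfl fun b _ => ?_
  rw [Finset.mul_sum, Finset.mul_sum]
  refine Finset.sum_congr rfl fun j _ => ?_
  simp only [mul_assoc]

theorem C2_dot_mul (v x : A → Λ) (g : Λ) : v ⬝ᵥ (fun b => x b * g) = (v ⬝ᵥ x) * g := by
  simp only [dotProduct, Finset.sum_mul, mul_assoc]

theorem C2_dot_mul_left (v x : A → Λ) (g : Λ) : (fun b => g * v b) ⬝ᵥ x = g * (v ⬝ᵥ x) := by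
  simp only [dotProduct, Finset.mul_sum, mul_assoc]

theorem C2_mulVec_mul (K : Matrix A A Λ) (x : A → Λ) (g : Λ) :
    K *ᵥ (fun b => x b * g) = fun b => (K *ᵥ x) b * g := by
  funext b
  simp only [mulVec, dotProduct, Finset.sum_mul, mul_assoc]

/-- the bilinear form of the inverse after a rank one update -/
theorem C2_bil_update (t : Λ) (ht : ∀ x, t * x = x * t) (hn : IsNilpotent t)
    (N : Matrix A A Λ) (c r v w : A → Λ) :
    v ⬝ᵥ (Ring.inverse (1 + t • (N + vecMulVec c r)) *ᵥ w) =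
      v ⬝ᵥ (Ring.inverse (1 + t • N) *ᵥ w) -
        t * ((v ⬝ᵥ (Ring.inverse (1 + t • N) *ᵥ c)) *
          Ring.inverse (1 + t * (r ⬝ᵥ (Ring.inverse (1 + t • N) *ᵥ c))) *
          (r ⬝ᵥ (Ring.inverse (1 + t • N) *ᵥ w))) := by
  rw [inverse_add_vecMulVec t ht hn, Matrix.sub_mulVec, dotProduct_sub, C2_bil_smul t ht,
    C2_bil_vec, C2_dot_mul, ← Matrix.dotProduct_mulVec]

theorem C2_rowsIn_add (N : Matrix A A Λ) (c r : A → Λ) (l : List A) :
    rowsIn (N + vecMulVec c r) l =
      rowsIn N l + vecMulVec (fun b => if b ∈ l then c b else 0) r := by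
  ext a b
  simp only [rowsIn, Matrix.of_apply, Matrix.add_apply, vecMulVec_apply]
  split_ifs <;> simp

theorem C2_rowsIn_cons (N : Matrix A A Λ) (a : A) (l : List A) (ha : a ∉ l) :
    rowsIn N (a :: l) = rowsIn N l + vecMulVec (Pi.single a 1) (N a) := by
  ext i b
  simp only [rowsIn, Matrix.of_apply, Matrix.add_apply, vecMulVec_apply, List.mem_cons]
  by_cases hi : i = a
  · subst hi
    simp [ha]
  · simp [hi]

theorem C2_diag (N K : Matrix A A Λ) (a : A) :
    (N * K) a a = N a ⬝ᵥ (K *ᵥ Pi.single a 1) := by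
  rw [Matrix.mul_apply, Matrix.mulVec_single_one]
  rfl

/-- RANK ONE UPDATE.  `Dt(N + c r) = Dt(N) D(1 + t r M⁻¹ c)`, for the part of the rows in `l`.

PROOF.  Induction on `l`.  Step `a :: l`, `a ∉ l`: put `M = 1 + t N_l` (rows in `l`), `c' = c` on `l` and `0`
elsewhere, `e = e_a`, `N_a` the row `a`, `γ = c a`, `α = 1 + t r M⁻¹ c'`, `β = 1 + t N_a M⁻¹ e`,
`p = t r M⁻¹ e`, `s = t N_a M⁻¹ c'`.  By `inverse_add_vecMulVec`
`(M + t c' r)⁻¹ = M⁻¹ - t M⁻¹ c' α⁻¹ r M⁻¹` and `(M + t e N_a)⁻¹ = M⁻¹ - t M⁻¹ e β⁻¹ N_a M⁻¹`, so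
* new factor on the left:  `1 + t (N_a + γ r) (M + t c' r)⁻¹ e = β - (s - γ) α⁻¹ p`,
* second factor on the right: `1 + t r (M + t e N_a)⁻¹ (c' + e γ) = α - p β⁻¹ (s - γ)`,
and `β - (s - γ) α⁻¹ p = β (1 - x y)`, `α - p β⁻¹ (s - γ) = (1 - y x) α` with
`x = β⁻¹ (s - γ) α⁻¹`, `y = p`.  So both sides are `π(dt N l) π(β) π(1 - x y) π(α)`. -/
theorem dt_rank_one (π : Λ →* M) (hπ : ∀ x y, π (1 + x * y) = π (1 + y * x)) (t : Λ)
    (ht : ∀ x, t * x = x * t) (hn : IsNilpotent t) (N : Matrix A A Λ) (c r : A → Λ)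
    (l : List A) (hl : l.Nodup) :
    π (dt t (N + vecMulVec c r) l) = π (dt t N l) *
      π (1 + t * (r ⬝ᵥ (Ring.inverse (1 + t • rowsIn N l) *ᵥ
        (fun b => if b ∈ l then c b else 0)))) := by
  induction l with
  | nil =>
    have h0 : (fun b : A => if b ∈ ([] : List A) then c b else 0) = 0 := by
      funext b
      simp
    rw [h0, Matrix.mulVec_zero, dotProduct_zero, mul_zero, add_zero, map_one, mul_one]
    rfl
  | cons a l ih =>
    have ha : a ∉ l := (List.nodup_cons.1 hl).1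
    have ih := ih (List.nodup_cons.1 hl).2
    set K := Ring.inverse (1 + t • rowsIn N l) with hK
    set c' : A → Λ := fun b => if b ∈ l then c b else 0 with hc'
    set e : A → Λ := Pi.single a 1 with he
    have hcl : (fun b => if b ∈ a :: l then c b else 0) = c' + fun b => e b * c a := by
      funext b
      simp only [hc', he, List.mem_cons, Pi.add_apply]
      by_cases hb : b = a
      · subst hb
        simp [ha]
      · simp [hb]
    set α : Λ := 1 + t * (r ⬝ᵥ (K *ᵥ c')) with hα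
    set β : Λ := 1 + t * (N a ⬝ᵥ (K *ᵥ e)) with hβ
    have hαu : IsUnit α := isUnit_one_add' t ht hn _
    have hβu : IsUnit β := isUnit_one_add' t ht hn _
    set p : Λ := t * (r ⬝ᵥ (K *ᵥ e)) with hp
    set s : Λ := t * (N a ⬝ᵥ (K *ᵥ c')) with hs
    -- the new factor on the left
    have hL : 1 + t * ((N + vecMulVec c r) *
        Ring.inverse (1 + t • rowsIn (N + vecMulVec c r) l)) a a =
        β - (s - c a) * Ring.inverse α * p := by
      rw [C2_diag, C2_rowsIn_add, C2_bil_update t ht hn]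
      have hrow : (N + vecMulVec c r) a = N a + fun b => c a * r b := by
        funext b
        simp [vecMulVec_apply]
      rw [hrow, add_dotProduct, add_dotProduct, C2_dot_mul_left, C2_dot_mul_left, ← hK, ← hc',
        ← he, ← hα]
      have e1 : t * (c a * (r ⬝ᵥ (K *ᵥ c'))) = c a * (α - 1) := by
        rw [hα, add_sub_cancel_left, ← mul_assoc, ht, mul_assoc]
      have e2 : t * (c a * (r ⬝ᵥ (K *ᵥ e))) = c a * p := by
        rw [hp, ← mul_assoc, ht, mul_assoc]
      have e3 : c a * (α - 1) * Ring.inverse α * p = c a * p - c a * Ring.inverse α * p := by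
        rw [mul_sub, mul_one, sub_mul, sub_mul, mul_assoc (c a) α, Ring.mul_inverse_cancel _ hαu,
          mul_one]
      have e4 : t * (t * ((N a ⬝ᵥ (K *ᵥ c') + c a * (r ⬝ᵥ (K *ᵥ c'))) * Ring.inverse α *
          (r ⬝ᵥ (K *ᵥ e)))) = (s + c a * (α - 1)) * Ring.inverse α * p := by
        rw [← e1, hs, ← mul_add, hp]
        have : ∀ x y : Λ, t * (t * (x * y)) = t * x * (t * y) := by
          intro x y
          rw [mul_assoc t x, ← mul_assoc x, ← ht x, mul_assoc t x]
        rw [this, ← mul_assoc t]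
      rw [mul_sub, e4, mul_add, e2, add_mul, add_mul, e3, sub_mul, sub_mul, hβ]
      abel
    -- the second factor on the right
    have hR : 1 + t * (r ⬝ᵥ (Ring.inverse (1 + t • rowsIn N (a :: l)) *ᵥ
        (fun b => if b ∈ a :: l then c b else 0))) = α - p * Ring.inverse β * (s - c a) := by
      rw [hcl, C2_rowsIn_cons N a l ha, C2_bil_update t ht hn, ← hK, ← he, ← hβ,
        Matrix.mulVec_add, dotProduct_add, dotProduct_add, C2_mulVec_mul, C2_dot_mul, C2_dot_mul]
      have e1 : t * ((N a ⬝ᵥ (K *ᵥ e)) * c a) = (β - 1) * c a := by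
        rw [hβ, add_sub_cancel_left, mul_assoc]
      have e2 : t * ((r ⬝ᵥ (K *ᵥ e)) * c a) = p * c a := by
        rw [hp, mul_assoc]
      have e3 : p * Ring.inverse β * ((β - 1) * c a) = p * c a - p * Ring.inverse β * c a := by
        rw [sub_mul, one_mul, mul_sub, ← mul_assoc (p * Ring.inverse β) β, mul_assoc p,
          Ring.inverse_mul_cancel _ hβu, mul_one]
      have e4 : t * (t * ((r ⬝ᵥ (K *ᵥ e)) * Ring.inverse β *
          (N a ⬝ᵥ (K *ᵥ c') + (N a ⬝ᵥ (K *ᵥ e)) * c a))) =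
          p * Ring.inverse β * (s + (β - 1) * c a) := by
        rw [← e1, hs, ← mul_add, hp]
        have : ∀ x y : Λ, t * (t * (x * y)) = t * x * (t * y) := by
          intro x y
          rw [mul_assoc t x, ← mul_assoc x, ← ht x, mul_assoc t x]
        rw [this, ← mul_assoc t]
      rw [mul_sub, e4, mul_add, e2, mul_add (p * Ring.inverse β), e3, mul_sub (p * Ring.inverse β),
        hα]
      abel
    have hdt : ∀ N' : Matrix A A Λ, dt t N' (a :: l) = dt t N' l *
        (1 + t * (N' * Ring.inverse (1 + t • rowsIn N' l)) a a) := fun N' => rfl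
    rw [hR, hdt, hL, map_mul, ih, hdt, C2_diag, ← hK, ← he, ← hβ, map_mul,
      mul_assoc (π (dt t N l)), C2_core π hπ hαu hβu, ← mul_assoc (π (dt t N l))]

end Pool.PI34.BA

end

/-! ### part BA_C3 -/
section

/-! PI34, block BA, file C3: independence of the decomposition, conjugation invariance. -/

set_option autoImplicit false

namespace Pool.PI34.BA

open Equiv Finset Matrix

variable {A Λ : Type*} [Fintype A] [DecidableEq A] [Ring Λ] {M : Type*} [CommMonoid M]

/-- the closing determinant of the decomposition `Σ_j c_j r_j` -/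
noncomputable def dtDec {J : Type*} (t : Λ) (c r : J → A → Λ) : List J → Λ
  | [] => 1
  | j :: js => dtDec t c r js * (1 + t * (r j ⬝ᵥ
      (Ring.inverse (1 + t • (js.map fun i => vecMulVec (c i) (r i)).sum) *ᵥ c j)))

/-- the list `l` is complete: `rowsIn N l = N` -/
theorem rowsIn_complete (N : Matrix A A Λ) (l : List A) (hl : ∀ a, a ∈ l) :
    rowsIn N l = N := by
  ext a b
  simp [rowsIn, hl]

theorem C3_dt_zero (t : Λ) (l : List A) : dt t (0 : Matrix A A Λ) l = 1 := by
  induction l with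
  | nil => rfl
  | cons a l ih => simp [dt, ih]

/-- from `dt_rank_one`, induction on `js` (`dt t 0 l` has trivial value: all the factors are `1 + t * 0`) -/
theorem dt_eq_dtDec {J : Type*} (π : Λ →* M) (hπ : ∀ x y, π (1 + x * y) = π (1 + y * x)) (t : Λ)
    (ht : ∀ x, t * x = x * t) (hn : IsNilpotent t) (c r : J → A → Λ) (js : List J)
    (l : List A) (hl : l.Nodup) (hc : ∀ a, a ∈ l) :
    π (dt t (js.map fun i => vecMulVec (c i) (r i)).sum l) = π (dtDec t c r js) := by
  induction js with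
  | nil => simp [C3_dt_zero, dtDec]
  | cons j js ih =>
    rw [List.map_cons, List.sum_cons, add_comm, dt_rank_one π hπ t ht hn _ (c j) (r j) l hl, ih,
      rowsIn_complete _ l hc, dtDec, map_mul]
    simp only [hc, if_true]

theorem C3_inverse_conj {R : Type*} [Ring R] (h h' X : R) (h1 : h * h' = 1) (h2 : h' * h = 1)
    (hX : IsUnit X) : Ring.inverse (h * X * h') = h * Ring.inverse X * h' := by
  obtain ⟨u, rfl⟩ := hX
  have e1 : h * (u : R) * h' * (h * ((u⁻¹ : Rˣ) : R) * h') = 1 := by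
    calc h * (u : R) * h' * (h * ((u⁻¹ : Rˣ) : R) * h')
        = h * ((u : R) * (h' * h) * ((u⁻¹ : Rˣ) : R)) * h' := by simp only [mul_assoc]
      _ = 1 := by rw [h2, mul_one, Units.mul_inv, mul_one, h1]
  have e2 : h * ((u⁻¹ : Rˣ) : R) * h' * (h * (u : R) * h') = 1 := by
    calc h * ((u⁻¹ : Rˣ) : R) * h' * (h * (u : R) * h')
        = h * (((u⁻¹ : Rˣ) : R) * (h' * h) * (u : R)) * h' := by simp only [mul_assoc]
      _ = 1 := by rw [h2, mul_one, Units.inv_mul, mul_one, h1]
  have e3 : Ring.inverse ((⟨_, _, e1, e2⟩ : Rˣ) : R) = _ := Ring.inverse_unit _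
  rw [Ring.inverse_unit]
  exact e3

theorem C3_smul_conj (t : Λ) (ht : ∀ x, t * x = x * t) (S h h' : Matrix A A Λ) :
    t • (h * S * h') = h * (t • S) * h' := by
  have e : ∀ B : Matrix A A Λ, t • (h * B) = h * (t • B) := by
    intro B
    ext i j
    rw [Matrix.smul_apply, Matrix.mul_apply, Matrix.mul_apply, smul_eq_mul, Finset.mul_sum]
    refine Finset.sum_congr rfl fun k _ => ?_
    rw [Matrix.smul_apply, smul_eq_mul]
    rw [← mul_assoc, ht, mul_assoc]
  rw [Matrix.mul_assoc, e, ← smul_mul_assoc, Matrix.mul_assoc]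

theorem C3_conj_sum {J : Type*} (c r : J → A → Λ) (h h' : Matrix A A Λ) (js : List J) :
    (js.map fun i => vecMulVec (h *ᵥ c i) (r i ᵥ* h')).sum =
      h * (js.map fun i => vecMulVec (c i) (r i)).sum * h' := by
  induction js with
  | nil => simp
  | cons j js ih =>
    rw [List.map_cons, List.sum_cons, ih, List.map_cons, List.sum_cons, Matrix.mul_add,
      Matrix.add_mul, Matrix.mul_vecMulVec, Matrix.vecMulVec_mul]

theorem C3_dtDec_conj {J : Type*} (t : Λ) (ht : ∀ x, t * x = x * t) (hn : IsNilpotent t)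
    (c r : J → A → Λ) (h h' : Matrix A A Λ) (h1 : h * h' = 1) (h2 : h' * h = 1) (js : List J) :
    dtDec t (fun i => h *ᵥ c i) (fun i => r i ᵥ* h') js = dtDec t c r js := by
  induction js with
  | nil => rfl
  | cons j js ih =>
    rw [dtDec, dtDec, ih]
    congr 3
    rw [C3_conj_sum]
    set S := (js.map fun i => vecMulVec (c i) (r i)).sum
    have e : (1 : Matrix A A Λ) + t • (h * S * h') = h * (1 + t • S) * h' := by
      rw [C3_smul_conj t ht, Matrix.mul_add, Matrix.add_mul, Matrix.mul_one, h1]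
    rw [e, C3_inverse_conj h h' _ h1 h2 (isUnit_one_add t ht hn S), ← dotProduct_mulVec,
      mulVec_mulVec, mulVec_mulVec]
    have e2 : h' * (h * Ring.inverse (1 + t • S) * h') * h = Ring.inverse (1 + t • S) := by
      calc h' * (h * Ring.inverse (1 + t • S) * h') * h
          = (h' * h) * Ring.inverse (1 + t • S) * (h' * h) := by simp only [Matrix.mul_assoc]
        _ = _ := by rw [h2, Matrix.one_mul, Matrix.mul_one]
    rw [e2]

theorem C3_decomp (N : Matrix A A Λ) (l : List A) (hl : l.Nodup) (hc : ∀ a, a ∈ l) :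
    (l.map fun a => vecMulVec (Pi.single a (1 : Λ)) (N a)).sum = N := by
  rw [← List.sum_toFinset _ hl]
  have hu : l.toFinset = univ := by
    ext a
    simp [hc]
  rw [hu]
  ext x y
  simp [Matrix.sum_apply, vecMulVec_apply, Pi.single_apply]

/-- `Dt(h N h⁻¹) = Dt(N)`.  PROOF.  `N = Σ_a e_a N_a`, `h N h' = Σ_a (h e_a)(N_a h')`; the factors of
`dtDec` are the same for the two decompositions: `N_a h' (1 + t h N_{js} h')⁻¹ h e_a = N_a M⁻¹ e_a`. -/
theorem dt_conj (π : Λ →* M) (hπ : ∀ x y, π (1 + x * y) = π (1 + y * x)) (t : Λ)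
    (ht : ∀ x, t * x = x * t) (hn : IsNilpotent t) (N h h' : Matrix A A Λ) (h1 : h * h' = 1)
    (h2 : h' * h = 1) (l : List A) (hl : l.Nodup) (hc : ∀ a, a ∈ l) :
    π (dt t (h * N * h') l) = π (dt t N l) := by
  have e1 := dt_eq_dtDec π hπ t ht hn (fun a => Pi.single a (1 : Λ)) (fun a => N a) l l hl hc
  have e2 := dt_eq_dtDec π hπ t ht hn (fun a => h *ᵥ Pi.single a (1 : Λ)) (fun a => N a ᵥ* h') l l
    hl hc
  rw [C3_conj_sum, C3_dtDec_conj t ht hn _ _ h h' h1 h2] at e2
  rw [C3_decomp N l hl hc] at e1 e2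
  rw [e1, e2]

end Pool.PI34.BA

end
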