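import Pool.Agent.LibPI54.M23
import Pool.Agent.LibPI54.M24
import Pool.Agent.LibPI54.M25

/-! ### part BA_C4 -/
section

/-! PI34, block BA, file C4: the open string under conjugation and rank one updates. -/

set_option autoImplicit false

namespace Pool.PI34.BA

open Equiv Finset Matrix

variable {A Λ : Type*} [Fintype A] [DecidableEq A] [Ring Λ]

/-- `qq` with vectors: `q = B_00 - t R M⁻¹ C`, `R = B_0. X`, `C = B_.0`, `M = 1 + t B_A X`. -/
theorem qq_eq (t : Λ) (x : A → Λ) (B : Matrix (Option A) (Option A) Λ) :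
    qq t x B = B none none - t * ((fun a => B none (some a) * x a) ⬝ᵥ
      (Ring.inverse (1 + t • BX x B) *ᵥ fun b => B (some b) none)) := by
  unfold qq
  congr 2
  simp only [dotProduct, mulVec, Finset.mul_sum, mul_assoc]

omit [DecidableEq A] in
theorem C4_sum_option {M : Type*} [AddCommMonoid M] (f : Option A → M) :
    ∑ a, f a = f none + ∑ a, f (some a) := Fintype.sum_option f

theorem C4_some_some (B : Matrix (Option A) (Option A) Λ) (h h' : Matrix A A Λ) (a b : A) :
    (optDiag h * B * optDiag h') (some a) (some b) =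
      (h * (Matrix.of fun a b => B (some a) (some b)) * h') a b := by
  simp only [Matrix.mul_apply, C4_sum_option, optDiag, Matrix.of_apply, mul_zero, zero_mul,
    zero_add]

theorem C4_none_none (B : Matrix (Option A) (Option A) Λ) (h h' : Matrix A A Λ) :
    (optDiag h * B * optDiag h') none none = B none none := by
  simp only [Matrix.mul_apply, C4_sum_option, optDiag, Matrix.of_apply, mul_zero, zero_mul,
    one_mul, mul_one, Finset.sum_const_zero, add_zero]

theorem C4_none_some (B : Matrix (Option A) (Option A) Λ) (h h' : Matrix A A Λ) (a : A) :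
    (optDiag h * B * optDiag h') none (some a) = ∑ d, B none (some d) * h' d a := by
  simp only [Matrix.mul_apply, C4_sum_option, optDiag, Matrix.of_apply, mul_zero, zero_mul,
    one_mul, mul_one, Finset.sum_const_zero, add_zero, zero_add]

theorem C4_some_none (B : Matrix (Option A) (Option A) Λ) (h h' : Matrix A A Λ) (a : A) :
    (optDiag h * B * optDiag h') (some a) none = ∑ c, h a c * B (some c) none := by
  simp only [Matrix.mul_apply, C4_sum_option, optDiag, Matrix.of_apply, mul_zero, zero_mul,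
    one_mul, mul_one, Finset.sum_const_zero, add_zero, zero_add]

/-- `(h B h')_A X = h (B_A X) h'` if `h'` commutes with `X` -/
theorem BX_conj (x : A → Λ) (B : Matrix (Option A) (Option A) Λ) (h h' : Matrix A A Λ)
    (hx : ∀ a b, h' a b * x b = x a * h' a b) :
    BX x (optDiag h * B * optDiag h') = h * BX x B * h' := by
  ext a b
  have e : BX x (optDiag h * B * optDiag h') a b =
      (optDiag h * B * optDiag h') (some a) (some b) * x b := rfl
  rw [e, C4_some_some]
  simp only [Matrix.mul_apply, BX, Matrix.of_apply, Finset.sum_mul]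
  refine Finset.sum_congr rfl fun d _ => Finset.sum_congr rfl fun c _ => ?_
  rw [mul_assoc, hx d b, ← mul_assoc, mul_assoc (h a c)]

/-- `q(h B h⁻¹) = q(B)` -/
theorem qq_conj (t : Λ) (ht : ∀ x, t * x = x * t) (hn : IsNilpotent t) (x : A → Λ)
    (B : Matrix (Option A) (Option A) Λ) (h h' : Matrix A A Λ) (h1 : h * h' = 1) (h2 : h' * h = 1)
    (hx : ∀ a b, h' a b * x b = x a * h' a b) :
    qq t x (optDiag h * B * optDiag h') = qq t x B := by
  obtain ⟨M, hM⟩ : ∃ M, M = 1 + t • BX x B := ⟨_, rfl⟩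
  have hu : IsUnit M := hM ▸ isUnit_one_add t ht hn (BX x B)
  have hM' : 1 + t • BX x (optDiag h * B * optDiag h') = h * M * h' := by
    rw [BX_conj x B h h' hx, hM, mul_add, add_mul, mul_one, h1]
    congr 1
    ext a b
    simp only [Matrix.smul_apply, Matrix.mul_apply, smul_eq_mul, Finset.sum_mul, Finset.mul_sum]
    refine Finset.sum_congr rfl fun d _ => Finset.sum_congr rfl fun c _ => ?_
    rw [← mul_assoc t, ← mul_assoc t, ht (h a c), mul_assoc (h a c) t]
  have hinv : Ring.inverse (h * M * h') = h * Ring.inverse M * h' := by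
    have e1 : h * M * h' * (h * Ring.inverse M * h') = 1 := by
      rw [show h * M * h' * (h * Ring.inverse M * h') =
        h * M * (h' * h) * (Ring.inverse M * h') by simp only [mul_assoc], h2, mul_one,
        show h * M * (Ring.inverse M * h') = h * (M * Ring.inverse M) * h' by
          simp only [mul_assoc], Ring.mul_inverse_cancel _ hu, mul_one, h1]
    have e2 : h * Ring.inverse M * h' * (h * M * h') = 1 := by
      rw [show h * Ring.inverse M * h' * (h * M * h') =
        h * Ring.inverse M * (h' * h) * (M * h') by simp only [mul_assoc], h2, mul_one,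
        show h * Ring.inverse M * (M * h') = h * (Ring.inverse M * M) * h' by
          simp only [mul_assoc], Ring.inverse_mul_cancel _ hu, mul_one, h1]
    exact Ring.inverse_unit (⟨h * M * h', h * Ring.inverse M * h', e1, e2⟩ : (Matrix A A Λ)ˣ)
  rw [qq_eq, qq_eq, C4_none_none, hM', hinv, ← hM]
  congr 2
  have e1 : (fun a => (optDiag h * B * optDiag h') none (some a) * x a) =
      (fun a => B none (some a) * x a) ᵥ* h' := by
    ext a
    rw [C4_none_some, Finset.sum_mul]
    simp only [vecMul, dotProduct]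
    refine Finset.sum_congr rfl fun d _ => ?_
    rw [mul_assoc, hx d a, mul_assoc]
  have e2 : (fun b => (optDiag h * B * optDiag h') (some b) none) =
      h *ᵥ (fun b => B (some b) none) := by
    ext a
    rw [C4_some_none]
    rfl
  rw [e1, e2, mulVec_mulVec, mul_assoc, mul_assoc, h2, mul_one, ← dotProduct_mulVec,
    mulVec_mulVec, ← mul_assoc, h2, one_mul]

theorem BX_add (x : A → Λ) (B : Matrix (Option A) (Option A) Λ) (u v : Option A → Λ) :
    BX x (B + vecMulVec u v) = BX x B +
      vecMulVec (fun a => u (some a)) (fun b => v (some b) * x b) := by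
  ext a b
  simp only [BX, Matrix.of_apply, Matrix.add_apply, vecMulVec_apply, add_mul, mul_assoc]

omit [Fintype A] [DecidableEq A] in
theorem C4_alg (t u v a1 a2 a3 h γ b : Λ) (ht : ∀ x, t * x = x * t) (h1 : (1 + t * h) * γ = 1)
    (h2 : γ * (1 + t * h) = 1) :
    b + u * v - t * (a1 + a2 * v + (u * a3 + u * h * v) -
      t * ((a2 + u * h) * γ * (a3 + h * v))) =
      b - t * a1 + (u - t * a2) * γ * (v - t * a3) := by
  have mv : ∀ a b, a * (t * b) = t * (a * b) := fun a b => by
    rw [← mul_assoc, ← ht a, mul_assoc]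
  have g1 : γ = 1 - t * (h * γ) := by
    rw [add_mul, one_mul, mul_assoc] at h1
    exact eq_sub_of_add_eq h1
  have g2 : γ = 1 - t * (γ * h) := by
    rw [mul_add, mul_one, mv] at h2
    exact eq_sub_of_add_eq h2
  have k1 : u * γ * a3 = u * a3 - t * (u * (h * (γ * a3))) := by
    conv_lhs => rw [g1]
    rw [mul_sub, sub_mul, mul_one, mv, mul_assoc t, mul_assoc u, mul_assoc h]
  have k2 : a2 * γ * v = a2 * v - t * (a2 * (γ * (h * v))) := by
    conv_lhs => rw [g2]
    rw [mul_sub, sub_mul, mul_one, mv, mul_assoc t, mul_assoc a2, mul_assoc γ]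
  have k3 : u * γ * v = u * v - t * (u * (h * v)) + t * (t * (u * (h * (γ * (h * v))))) := by
    have : u * h * γ * v = u * h * v - t * (u * h * (γ * (h * v))) := by
      conv_lhs => rw [g2]
      rw [mul_sub, sub_mul, mul_one, mv, mul_assoc t, mul_assoc (u * h), mul_assoc γ]
    conv_lhs => rw [g1]
    rw [mul_sub, sub_mul, mul_one, mv, mul_assoc t, ← mul_assoc u h γ, this, mul_sub, sub_add]
    simp only [mul_assoc]
  have r1 : (u - t * a2) * γ * (v - t * a3) =
      u * γ * v - t * (u * γ * a3) - t * (a2 * γ * v) + t * (t * (a2 * γ * a3)) := by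
    rw [sub_mul, sub_mul, mul_sub, mul_sub, mv, mul_assoc t a2, mul_assoc t (a2 * γ),
      mul_assoc t (a2 * γ), mv]
    abel
  rw [r1, k1, k2, k3]
  simp only [mul_add, add_mul, mul_sub, mul_assoc]
  abel

/-- rank one update of the open string.  `R = B_0. X`, `C = B_.0`, `M = 1 + t B_A X`, `r = v_A X`, `c = u_A`,
`h = r M⁻¹ c`, `γ = (1 + t h)⁻¹`:  `q(B + u v) = q(B) + (u_0 - t R M⁻¹ c) γ (v_0 - t r M⁻¹ C)`.
(Use `inverse_add_vecMulVec`, and `t h γ = γ t h = 1 - γ`.) -/
theorem qq_add (t : Λ) (ht : ∀ x, t * x = x * t) (hn : IsNilpotent t) (x : A → Λ)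
    (B : Matrix (Option A) (Option A) Λ) (u v : Option A → Λ) :
    qq t x (B + vecMulVec u v) = qq t x B +
      (u none - t * ((fun a => B none (some a) * x a) ⬝ᵥ
        (Ring.inverse (1 + t • BX x B) *ᵥ fun b => u (some b)))) *
      Ring.inverse (1 + t * ((fun b => v (some b) * x b) ⬝ᵥ
        (Ring.inverse (1 + t • BX x B) *ᵥ fun b => u (some b)))) *
      (v none - t * ((fun b => v (some b) * x b) ⬝ᵥ
        (Ring.inverse (1 + t • BX x B) *ᵥ fun b => B (some b) none))) := by
  rw [qq_eq, qq_eq, BX_add, inverse_add_vecMulVec t ht hn]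
  obtain ⟨K, hK⟩ : ∃ K, K = Ring.inverse (1 + t • BX x B) := ⟨_, rfl⟩
  rw [← hK]
  obtain ⟨c, hc⟩ : ∃ c : A → Λ, c = fun a => u (some a) := ⟨_, rfl⟩
  obtain ⟨r, hr⟩ : ∃ r : A → Λ, r = fun b => v (some b) * x b := ⟨_, rfl⟩
  obtain ⟨C, hC⟩ : ∃ C : A → Λ, C = fun b => B (some b) none := ⟨_, rfl⟩
  obtain ⟨R, hR⟩ : ∃ R : A → Λ, R = fun a => B none (some a) * x a := ⟨_, rfl⟩
  have hR' : (fun a => (B + vecMulVec u v) none (some a) * x a) = R + fun a => u none * r a := by
    ext a
    rw [hR, hr]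
    simp only [Matrix.add_apply, vecMulVec_apply, Pi.add_apply, add_mul, mul_assoc]
  have hC' : (fun b => (B + vecMulVec u v) (some b) none) = C + fun a => c a * v none := by
    ext a
    rw [hC, hc]
    simp only [Matrix.add_apply, vecMulVec_apply, Pi.add_apply]
  have h0 : (B + vecMulVec u v) none none = B none none + u none * v none := by
    simp only [Matrix.add_apply, vecMulVec_apply]
  rw [hR', hC', h0, ← hc, ← hr, ← hC, ← hR]
  have hu := isUnit_one_add' t ht hn (r ⬝ᵥ (K *ᵥ c))
  obtain ⟨γ, hγ⟩ : ∃ γ, γ = Ring.inverse (1 + t * (r ⬝ᵥ (K *ᵥ c))) := ⟨_, rfl⟩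
  have h1 : (1 + t * (r ⬝ᵥ (K *ᵥ c))) * γ = 1 := hγ ▸ Ring.mul_inverse_cancel _ hu
  have h2 : γ * (1 + t * (r ⬝ᵥ (K *ᵥ c))) = 1 := hγ ▸ Ring.inverse_mul_cancel _ hu
  rw [← hγ]
  rw [← C4_alg t (u none) (v none) (R ⬝ᵥ (K *ᵥ C)) (R ⬝ᵥ (K *ᵥ c)) (r ⬝ᵥ (K *ᵥ C))
    (r ⬝ᵥ (K *ᵥ c)) γ (B none none) ht h1 h2]
  congr 2
  have l1 : ∀ (a : Λ) (f g : A → Λ), (fun i => a * f i) ⬝ᵥ g = a * (f ⬝ᵥ g) := by
    intro a f g
    simp only [dotProduct, Finset.mul_sum, mul_assoc]
  have l2 : ∀ (a : Λ) (f g : A → Λ), f ⬝ᵥ (fun i => g i * a) = (f ⬝ᵥ g) * a := by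
    intro a f g
    simp only [dotProduct, Finset.sum_mul, mul_assoc]
  have l3 : ∀ (a : Λ) (f : A → Λ), (K *ᵥ fun i => f i * a) = fun i => (K *ᵥ f) i * a := by
    intro a f
    ext i
    simp only [mulVec, dotProduct, Finset.sum_mul, mul_assoc]
  have l4 : ∀ (f : A → Λ), r ᵥ* K ⬝ᵥ f = r ⬝ᵥ (K *ᵥ f) := fun f =>
    (dotProduct_mulVec r K f).symm
  have l5 : ∀ (f g w : A → Λ), (vecMulVec f g) *ᵥ w = fun i => f i * (g ⬝ᵥ w) := by
    intro f g w
    ext i
    simp only [mulVec, dotProduct, vecMulVec_apply, Finset.mul_sum, mul_assoc]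
  have l6 : ∀ (f g : A → Λ), f ⬝ᵥ (t • g) = t * (f ⬝ᵥ g) := by
    intro f g
    simp only [dotProduct, Finset.mul_sum, Pi.smul_apply, smul_eq_mul]
    refine Finset.sum_congr rfl fun i _ => ?_
    rw [← mul_assoc, ← ht, mul_assoc]
  have l7 : (K - t • vecMulVec (fun a => (K *ᵥ c) a * γ) (r ᵥ* K)) *ᵥ
      (C + fun a => c a * v none) = (K *ᵥ C + fun i => (K *ᵥ c) i * v none) -
      t • fun i => (K *ᵥ c) i * (γ * (r ⬝ᵥ (K *ᵥ C) + r ⬝ᵥ (K *ᵥ c) * v none)) := by
    rw [sub_mulVec, mulVec_add, l3, smul_mulVec, l5, dotProduct_add, l2, l4, l4]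
    simp only [mul_assoc]
  rw [l7, dotProduct_sub, l6, l2, add_dotProduct, l1, dotProduct_add, dotProduct_add, l2, l2,
    add_dotProduct, l1]
  simp only [mul_add, mul_assoc, add_mul]

end Pool.PI34.BA

end

/-! ### part BA_B2 -/
section

/-! PI34, block BA, file B2: `D_P(u) ω = D_Q(u) ω` and commutation. -/

set_option autoImplicit false

namespace Pool.PI34.BA

open Equiv Finset

variable {ι Φ E : Type*} [Fintype ι] [DecidableEq ι] [Ring Φ] [Ring E] (S : Str ι Φ E)
variable {k : ℕ} (p q : Fin k ↪ ι) (z : ι)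

/-- `D_P(u)` commutes with `ω` -/
theorem D_om (hF : Frame p q z) (u : Φ) :
    S.D p (fun _ => u) * S.om p q = S.om p q * S.D p (fun _ => u) := by
  have h1 : ∀ i, p i ∉ univ.map q := by
    intro i h
    obtain ⟨j, _, hj⟩ := Finset.mem_map.1 h
    exact hF.pq i j hj.symm
  unfold Str.om
  rw [← mul_assoc, D_comm_anti, mul_assoc, D_comm_anti' S p _ h1, mul_assoc]

/-- `D_Q(u)` commutes with `ω` -/
theorem D_om' (hF : Frame p q z) (u : Φ) :
    S.D q (fun _ => u) * S.om p q = S.om p q * S.D q (fun _ => u) := by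
  have h1 : ∀ i, q i ∉ univ.map p := by
    intro i h
    obtain ⟨j, _, hj⟩ := Finset.mem_map.1 h
    exact hF.pq j i hj
  unfold Str.om
  rw [← mul_assoc, D_comm_anti' S q _ h1, mul_assoc, D_comm_anti, mul_assoc]

theorem rho_om (hF : Frame p q z) (a : Φ) : S.ρ z a * S.om p q = S.om p q * S.ρ z a := by
  have h1 : z ∉ univ.map p := by
    intro h
    obtain ⟨j, _, hj⟩ := Finset.mem_map.1 h
    exact hF.pz j hj
  have h2 : z ∉ univ.map q := by
    intro h
    obtain ⟨j, _, hj⟩ := Finset.mem_map.1 h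
    exact hF.qz j hj
  unfold Str.om
  rw [← mul_assoc, rho_comm_anti S z _ h1, mul_assoc, rho_comm_anti S z _ h2, mul_assoc]

/-- `D_P(u) ω = D_P(u) s(g) ω = s(g) D_Q(u) ω = s(g) ω D_Q(u) = ω D_Q(u) = D_Q(u) ω`,
`g` the block swap. -/
theorem D_swap (hA : Anti S.s k) (hF : Frame p q z) (u : Φ) :
    S.D p (fun _ => u) * S.om p q = S.D q (fun _ => u) * S.om p q := by
  obtain ⟨g, hgp, hgq, hg, hsg⟩ := exists_blockSwap p q hF.pq
  have h1 : S.s g * S.om p q = S.om p q :=
    blockSwap_om S.s k hA p q hF.pq g hgp hgq hg hsg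
  have h2 : (g ∘ q : Fin k → ι) = p := funext fun i => hgq i
  have h3 : S.s g * S.D q (fun _ => u) = S.D p (fun _ => u) * S.s g := by
    rw [s_mul_D, h2]
  calc S.D p (fun _ => u) * S.om p q
      = S.D p (fun _ => u) * (S.s g * S.om p q) := by rw [h1]
    _ = S.s g * (S.D q (fun _ => u) * S.om p q) := by rw [← mul_assoc, ← h3, mul_assoc]
    _ = S.s g * (S.om p q * S.D q (fun _ => u)) := by rw [D_om' S p q z hF]
    _ = S.om p q * S.D q (fun _ => u) := by rw [← mul_assoc, h1]
    _ = S.D q (fun _ => u) * S.om p q := (D_om' S p q z hF u).symm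

/-- `D_P(u) D_P(v) ω = D_P(u) D_Q(v) ω = D_Q(v) D_P(u) ω = D_Q(v) ω D_P(u) = D_P(v) ω D_P(u)
= D_P(v) D_P(u) ω`. -/
theorem D_comm_om (hA : Anti S.s k) (hF : Frame p q z) (u v : Φ) :
    S.D p (fun _ => u) * S.D p (fun _ => v) * S.om p q =
      S.D p (fun _ => v) * S.D p (fun _ => u) * S.om p q := by
  have hc : S.D p (fun _ => u) * S.D q (fun _ => v) = S.D q (fun _ => v) * S.D p (fun _ => u) :=
    D_comm_D S p q hF.pq _ _
  calc S.D p (fun _ => u) * S.D p (fun _ => v) * S.om p q
      = S.D p (fun _ => u) * (S.D p (fun _ => v) * S.om p q) := mul_assoc _ _ _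
    _ = S.D p (fun _ => u) * (S.D q (fun _ => v) * S.om p q) := by
        rw [D_swap S p q z hA hF]
    _ = S.D q (fun _ => v) * (S.D p (fun _ => u) * S.om p q) := by
        rw [← mul_assoc, hc, mul_assoc]
    _ = S.D q (fun _ => v) * (S.om p q * S.D p (fun _ => u)) := by rw [D_om S p q z hF]
    _ = S.D p (fun _ => v) * S.om p q * S.D p (fun _ => u) := by
        rw [← mul_assoc, D_swap S p q z hA hF]
    _ = S.D p (fun _ => v) * (S.D p (fun _ => u) * S.om p q) := by
        rw [mul_assoc, D_om S p q z hF]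
    _ = S.D p (fun _ => v) * S.D p (fun _ => u) * S.om p q := (mul_assoc _ _ _).symm

end Pool.PI34.BA

end

/-! ### part BA_B4 -/
section

/-! PI34, block BA, file B4: `D_P(1 + xy) ω = D_P(1 + yx) ω`, and the commutative quotient. -/

set_option autoImplicit false

namespace Pool.PI34.BA

open Equiv Finset Polynomial

variable {ι Φ E : Type*} [Fintype ι] [DecidableEq ι] [Ring Φ] [Ring E] (S : Str ι Φ E)
variable {k : ℕ} (p q : Fin k ↪ ι) (z : ι)

theorem B4_D_mul_const (e : Fin k → ι) (he : Function.Injective e) (u v : Φ) :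
    S.D e (fun _ => u * v) = S.D e (fun _ => u) * S.D e (fun _ => v) :=
  D_mul S e he (fun _ => u) (fun _ => v)

/-- PROOF.  In `S.poly` put `x' = X + C x`, `y' = C y`, `a = 1 + x' y'`, `b = 1 + y' x'`; `a x' = x' b`, hence
`D(a) D(x') ω = D(x') D(b) ω = D(b) D(x') ω` (`D_mul`, `D_comm_om` for `S.poly`), so
`(D(a) - D(b)) ω D(x') = 0` with `D(x')` monic (`poly_D_monic`), so `(D(a) - D(b)) ω = 0`; take the
coefficient of `X^0`. -/
theorem D_xy (hA : Anti S.s k) (hF : Frame p q z) (x y : Φ) :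
    S.D p (fun _ => 1 + x * y) * S.om p q = S.D p (fun _ => 1 + y * x) * S.om p q := by
  have hA' := poly_Anti S k hA
  have hax : (1 + (X + C x) * C y) * (X + C x) = (X + C x) * (1 + C y * (X + C x) : Φ[X]) := by
    noncomm_ring
  have h1 : S.poly.D p (fun _ => 1 + (X + C x) * C y) * S.poly.D p (fun _ => X + C x) *
      S.poly.om p q = S.poly.D p (fun _ => 1 + C y * (X + C x)) * S.poly.D p (fun _ => X + C x) *
      S.poly.om p q := by
    rw [← B4_D_mul_const S.poly p p.injective, hax, B4_D_mul_const S.poly p p.injective]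
    exact D_comm_om S.poly p q z hA' hF _ _
  have h2 : (S.poly.D p (fun _ => 1 + (X + C x) * C y) * S.poly.om p q -
      S.poly.D p (fun _ => 1 + C y * (X + C x)) * S.poly.om p q) *
      S.poly.D p (fun _ => X + C x) = 0 := by
    rw [sub_mul, mul_assoc, mul_assoc, ← D_om S.poly p q z hF, ← mul_assoc, ← mul_assoc, h1,
      sub_self]
  rw [(poly_D_monic S p x).mul_left_eq_zero_iff, sub_eq_zero] at h2
  have h3 := congrArg (fun r : E[X] => r.coeff 0) h2
  simp only [poly_om, Polynomial.coeff_mul_C, poly_D_coeff_zero] at h3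
  have h4 : (1 + (X + C x) * C y : Φ[X]).coeff 0 = 1 + x * y := by
    simp [Polynomial.coeff_add, Polynomial.coeff_one]
  have h5 : (1 + C y * (X + C x) : Φ[X]).coeff 0 = 1 + y * x := by
    simp [Polynomial.coeff_add, Polynomial.coeff_one]
  rw [h4, h5] at h3
  exact h3

/-- The relation `a ≈ b :↔ D(a) ω = D(b) ω` is a congruence of the multiplicative monoid `Φ`
(use `D_mul`, `D_om`), the quotient is commutative (`D_comm_om`). -/
theorem exists_quotient {ι Φ E : Type} [Fintype ι] [DecidableEq ι] [Ring Φ] [Ring E]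
    (S : Str ι Φ E) {k : ℕ} (p q : Fin k ↪ ι) (z : ι) (hA : Anti S.s k) (hF : Frame p q z) :
    ∃ (M : Type) (_ : CommMonoid M) (π : Φ →* M), (∀ x y, π (1 + x * y) = π (1 + y * x)) ∧
      ∀ a b, π a = π b → S.D p (fun _ => a) * S.om p q = S.D p (fun _ => b) * S.om p q := by
  let c : Con Φ :=
    { r := fun a b => S.D p (fun _ => a) * S.om p q = S.D p (fun _ => b) * S.om p q
      iseqv := ⟨fun _ => rfl, fun h => h.symm, fun h h' => h.trans h'⟩
      mul' := by
        intro a b a' b' h h'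
        show S.D p (fun _ => a * a') * S.om p q = S.D p (fun _ => b * b') * S.om p q
        have h0 : S.D p (fun _ => a) * S.om p q = S.D p (fun _ => b) * S.om p q := h
        have h0' : S.D p (fun _ => a') * S.om p q = S.D p (fun _ => b') * S.om p q := h'
        rw [B4_D_mul_const S p p.injective, B4_D_mul_const S p p.injective, mul_assoc, h0',
          D_om S p q z hF, ← mul_assoc, h0, mul_assoc, ← D_om S p q z hF, ← mul_assoc] }
  have hc : ∀ a b : Φ, c a b ↔ S.D p (fun _ => a) * S.om p q = S.D p (fun _ => b) * S.om p q :=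
    fun a b => Iff.rfl
  refine ⟨c.Quotient, { (inferInstance : Monoid c.Quotient) with mul_comm := ?_ }, c.mk', ?_, ?_⟩
  · intro a b
    induction a using Con.induction_on with
    | _ a =>
    induction b using Con.induction_on with
    | _ b =>
    show ((a * b : Φ) : c.Quotient) = ((b * a : Φ) : c.Quotient)
    rw [Con.eq, hc, B4_D_mul_const S p p.injective, B4_D_mul_const S p p.injective]
    exact D_comm_om S p q z hA hF a b
  · intro x y
    show ((1 + x * y : Φ) : c.Quotient) = ((1 + y * x : Φ) : c.Quotient)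
    rw [Con.eq, hc]
    exact D_xy S p q z hA hF x y
  · intro a b h
    have h' : ((a : Φ) : c.Quotient) = ((b : Φ) : c.Quotient) := h
    rw [Con.eq, hc] at h'
    exact h'

end Pool.PI34.BA

end

/-! ### part BA_C5 -/
section

/-! PI34, block BA, file C5: invariance and rank bound of `P(B)`. -/

set_option autoImplicit false

namespace Pool.PI34.BA

open Equiv Finset Matrix Polynomial

variable {ι Φ E A : Type} [Fintype ι] [DecidableEq ι] [Ring Φ] [Ring E] (S : Str ι Φ E)
variable [Fintype A] [DecidableEq A]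
variable {k : ℕ} (p q : Fin k ↪ ι) (z : ι)

/-- `D a ρ c ω = D a ω ρ c` -/
theorem c5_move (hF : Frame p q z) (a : E) (c : Φ) :
    a * S.ρ z c * S.om p q = a * S.om p q * S.ρ z c := by
  rw [mul_assoc, rho_om S p q z hF, ← mul_assoc]

/-- (inv)  `P(h B h⁻¹) = P(B)` for `h ∈ GL_A(Φ)` commuting with `X`.
(`exists_quotient`, `dt_conj`, `BX_conj`, `qq_conj`; the scalars commute with `ω`: `rho_om`, `D_om`.) -/
theorem PP_inv (hA : Anti S.s k) (hF : Frame p q z) (t : Φ) (ht : ∀ x, t * x = x * t)
    (hn : IsNilpotent t) (x : A → Φ) (B : Matrix (Option A) (Option A) Φ) (h h' : Matrix A A Φ)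
    (h1 : h * h' = 1) (h2 : h' * h = 1) (hx : ∀ a b, h' a b * x b = x a * h' a b) :
    S.PP p q z t x (optDiag h * B * optDiag h') = S.PP p q z t x B := by
  obtain ⟨M, _, π, hπ, hπ'⟩ := exists_quotient S p q z hA hF
  unfold Str.PP
  rw [qq_conj t ht hn x B h h' h1 h2 hx, BX_conj x B h h' hx, c5_move S p q z hF,
    c5_move S p q z hF]
  congr 1
  refine hπ' _ _ ?_
  exact dt_conj π hπ t ht hn (BX x B) h h' h1 h2 _ (nodup_toList _)
    (fun a => mem_toList.2 (mem_univ a))

/-- rank one update of `P`:  with `d = dt(B_A X)`, `h = r M⁻¹ c`, `u₁ = 1 + t h`,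
`P(B + u v) = D(d) D(u₁) ρ(q(B)) ω + D(d) ρ(u_0 - t α) 𝒜(u₁) ρ(v_0 - t β) A_Q`. -/
theorem PP_add (hA : Anti S.s k) (hF : Frame p q z) (t : Φ) (ht : ∀ x, t * x = x * t)
    (hn : IsNilpotent t) (x : A → Φ) (B : Matrix (Option A) (Option A) Φ) (u v : Option A → Φ)
    (h : Φ) (hh : h = (fun b => v (some b) * x b) ⬝ᵥ
        (Ring.inverse (1 + t • BX x B) *ᵥ fun b => u (some b))) :
    S.PP p q z t x (B + vecMulVec u v) =
      S.D p (fun _ => dt t (BX x B) (univ : Finset A).toList) *
        (S.D p (fun _ => 1 + t * h) * S.ρ z (qq t x B) * S.om p q +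
          S.ρ z (u none - t * ((fun a => B none (some a) * x a) ⬝ᵥ
            (Ring.inverse (1 + t • BX x B) *ᵥ fun b => u (some b)))) *
          S.adj p z (1 + t * h) *
          S.ρ z (v none - t * ((fun b => v (some b) * x b) ⬝ᵥ
            (Ring.inverse (1 + t • BX x B) *ᵥ fun b => B (some b) none))) *
          anti S.s (univ.map q)) := by
  obtain ⟨M, _, π, hπ, hπ'⟩ := exists_quotient S p q z hA hF
  have hz : ∀ i, p i ≠ z := hF.pz
  have hzP : z ∉ univ.map p := by
    intro hz'
    obtain ⟨i, _, hi⟩ := mem_map.1 hz'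
    exact hz i hi
  have hzQ : z ∉ univ.map q := by
    intro hz'
    obtain ⟨i, _, hi⟩ := mem_map.1 hz'
    exact hF.qz i hi
  have hcompl : ∀ a, a ∈ (univ : Finset A).toList := fun a => mem_toList.2 (mem_univ a)
  set l := (univ : Finset A).toList with hl
  set α := u none - t * ((fun a => B none (some a) * x a) ⬝ᵥ
            (Ring.inverse (1 + t • BX x B) *ᵥ fun b => u (some b))) with hα
  set β := v none - t * ((fun b => v (some b) * x b) ⬝ᵥ
            (Ring.inverse (1 + t • BX x B) *ᵥ fun b => B (some b) none)) with hβ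
  have hu : IsUnit (1 + t * h) := isUnit_one_add' t ht hn h
  set γ := Ring.inverse (1 + t * h) with hγ
  have hγu : γ * (1 + t * h) = 1 := Ring.inverse_mul_cancel _ hu
  -- the determinant
  have e1 : π (dt t (BX x (B + vecMulVec u v)) l) = π (dt t (BX x B) l * (1 + t * h)) := by
    rw [BX_add, dt_rank_one π hπ t ht hn _ _ _ l (nodup_toList _), rowsIn_complete _ l hcompl,
      map_mul]
    have : (fun b => if b ∈ l then (fun a => u (some a)) b else 0) = fun a => u (some a) := by
      funext b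
      rw [if_pos (hcompl b)]
    rw [this, ← hh]
  have e2 : S.D p (fun _ => dt t (BX x (B + vecMulVec u v)) l) * S.om p q =
      S.D p (fun _ => dt t (BX x B) l) * S.D p (fun _ => 1 + t * h) * S.om p q := by
    rw [hπ' _ _ e1, ← D_mul S p p.injective]
    rfl
  -- the open string
  have e3 : qq t x (B + vecMulVec u v) = qq t x B + α * γ * β := by
    rw [qq_add t ht hn x B u v, ← hh]
  -- the adjugate
  have e4 : S.ρ z γ * (S.D p (fun _ => 1 + t * h) * anti S.s (univ.map p)) =
      S.adj p z (1 + t * h) := by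
    rw [← rho_mul_adj S hA p z hz, ← mul_assoc, ← map_mul, hγu, map_one, one_mul]
  have cD : ∀ (a : Φ) (w : Φ), S.ρ z a * S.D p (fun _ => w) = S.D p (fun _ => w) * S.ρ z a :=
    fun a w => rho_comm_D S p z hz a _
  have cP : ∀ a : Φ, S.ρ z a * anti S.s (univ.map p) = anti S.s (univ.map p) * S.ρ z a :=
    fun a => rho_comm_anti S z _ hzP a
  have cQ : ∀ a : Φ, S.ρ z a * anti S.s (univ.map q) = anti S.s (univ.map q) * S.ρ z a :=
    fun a => rho_comm_anti S z _ hzQ a
  unfold Str.PP
  rw [← hl, c5_move S p q z hF, e2, e3, map_add, mul_add, mul_add]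
  congr 1
  · rw [c5_move S p q z hF]
    simp only [mul_assoc]
  · rw [map_mul, map_mul, ← e4]
    unfold Str.om
    have c1 : S.D p (fun _ => 1 + t * h) * anti S.s (univ.map p) * S.ρ z α =
        S.ρ z α * (S.D p (fun _ => 1 + t * h) * anti S.s (univ.map p)) := by
      rw [mul_assoc, ← cP, ← mul_assoc, ← cD, mul_assoc]
    have c2 : S.D p (fun _ => 1 + t * h) * anti S.s (univ.map p) * S.ρ z γ =
        S.ρ z γ * (S.D p (fun _ => 1 + t * h) * anti S.s (univ.map p)) := by
      rw [mul_assoc, ← cP, ← mul_assoc, ← cD, mul_assoc]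
    set X := S.D p (fun _ => 1 + t * h) * anti S.s (univ.map p) with hX
    set Y := anti S.s (univ.map q) with hY
    have c3 : S.D p (fun _ => dt t (BX x B) l) * S.D p (fun _ => 1 + t * h) *
        (anti S.s (univ.map p) * Y) * (S.ρ z α * S.ρ z γ * S.ρ z β) =
        S.D p (fun _ => dt t (BX x B) l) * (X * (Y * S.ρ z α) * S.ρ z γ * S.ρ z β) := by
      rw [hX]
      simp only [mul_assoc]
    rw [c3, ← cQ]
    congr 1
    calc X * (S.ρ z α * Y) * S.ρ z γ * S.ρ z β
        = X * S.ρ z α * (Y * S.ρ z γ) * S.ρ z β := by simp only [mul_assoc]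
      _ = S.ρ z α * X * (S.ρ z γ * Y) * S.ρ z β := by rw [c1, ← cQ]
      _ = S.ρ z α * (X * S.ρ z γ) * (Y * S.ρ z β) := by simp only [mul_assoc]
      _ = S.ρ z α * (S.ρ z γ * X) * (S.ρ z β * Y) := by rw [c2, ← cQ]
      _ = S.ρ z α * (S.ρ z γ * X) * S.ρ z β * Y := by simp only [mul_assoc]

/-! ### The polynomial extension -/

theorem c5_central (t : Φ) (ht : ∀ x, t * x = x * t) (y : Φ[X]) : C t * y = y * C t := by
  ext n
  rw [coeff_C_mul, coeff_mul_C, ht]

omit [Fintype A] [DecidableEq A] in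
theorem c5_BX (x : A → Φ) (B : Matrix (Option A) (Option A) Φ) :
    BX (fun a => C (x a)) (B.map C) = (BX x B).map C := by
  ext a b : 2
  simp only [BX, Matrix.of_apply, Matrix.map_apply, map_mul]

theorem c5_inv (t : Φ) (ht : ∀ x, t * x = x * t) (hn : IsNilpotent t) (N : Matrix A A Φ) :
    Ring.inverse (1 + C t • N.map C) = (Ring.inverse (1 + t • N)).map C := by
  have h := map_inverse_of_isUnit (C : Φ →+* Φ[X]).mapMatrix (1 + t • N)
    (isUnit_one_add t ht hn N)
  have h' : (C : Φ →+* Φ[X]).mapMatrix (1 + t • N) = 1 + C t • N.map C := by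
    rw [map_add, map_one]
    congr 1
    ext a b : 2
    simp only [RingHom.mapMatrix_apply, Matrix.map_apply, Matrix.smul_apply, smul_eq_mul, map_mul]
  rw [← h', ← h]
  rfl

theorem c5_rowsIn (N : Matrix A A Φ) (l : List A) :
    rowsIn (N.map (C : Φ →+* Φ[X])) l = (rowsIn N l).map C := by
  refine Matrix.ext fun a b => ?_
  change (if a ∈ l then (C (N a b) : Φ[X]) else 0) = C (if a ∈ l then N a b else 0)
  split_ifs
  · rfl
  · exact (map_zero (C : Φ →+* Φ[X])).symm

theorem c5_dt (t : Φ) (ht : ∀ x, t * x = x * t) (hn : IsNilpotent t) (N : Matrix A A Φ)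
    (l : List A) : dt (C t) (N.map (C : Φ →+* Φ[X])) l = C (dt t N l) := by
  induction l with
  | nil =>
    change (1 : Φ[X]) = C (1 : Φ)
    rw [map_one]
  | cons a l ih =>
    change dt (C t) (N.map (C : Φ →+* Φ[X])) l * (1 + C t * ((N.map (C : Φ →+* Φ[X])) *
      Ring.inverse (1 + C t • rowsIn (N.map (C : Φ →+* Φ[X])) l)) a a) =
      C (dt t N l * (1 + t * (N * Ring.inverse (1 + t • rowsIn N l)) a a))
    rw [ih, c5_rowsIn, c5_inv t ht hn, map_mul, map_add, map_one, map_mul, ← Matrix.map_mul]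
    rfl

omit [DecidableEq A] in
theorem c5_mulVec (N : Matrix A A Φ) (w : A → Φ) (a : A) :
    (N.map (C : Φ →+* Φ[X]) *ᵥ fun b => C (w b)) a = C ((N *ᵥ w) a) := by
  simp only [mulVec, dotProduct, Matrix.map_apply, map_sum, map_mul]

omit [DecidableEq A] in
theorem c5_dot (v w : A → Φ) :
    (fun a => (C (v a) : Φ[X])) ⬝ᵥ (fun a => C (w a)) = C (v ⬝ᵥ w) := by
  simp only [dotProduct, map_sum, map_mul]

theorem c5_qq (t : Φ) (ht : ∀ x, t * x = x * t) (hn : IsNilpotent t) (x : A → Φ)
    (B : Matrix (Option A) (Option A) Φ) :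
    qq (C t) (fun a => C (x a)) (B.map (C : Φ →+* Φ[X])) = C (qq t x B) := by
  unfold qq
  rw [c5_BX, c5_inv t ht hn]
  simp only [Matrix.map_apply, map_sub, map_mul, map_sum]

omit [DecidableEq A] in
/-- the vector `N (X w)` -/
theorem c5_mulVecX (N : Matrix A A Φ) (w : A → Φ) (a : A) :
    (N.map (C : Φ →+* Φ[X]) *ᵥ fun b => X * C (w b)) a = C ((N *ᵥ w) a) * X := by
  simp only [mulVec, dotProduct, Matrix.map_apply, map_sum, map_mul, Finset.sum_mul]
  refine Finset.sum_congr rfl fun b _ => ?_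
  rw [X_mul, mul_assoc]

omit [DecidableEq A] in
theorem c5_dotX (N : Matrix A A Φ) (v w : A → Φ) :
    (fun a => (C (v a) : Φ[X])) ⬝ᵥ (N.map (C : Φ →+* Φ[X]) *ᵥ fun b => X * C (w b)) =
      C (v ⬝ᵥ (N *ᵥ w)) * X := by
  simp only [dotProduct, map_sum, map_mul, Finset.sum_mul]
  refine Finset.sum_congr rfl fun a _ => ?_
  rw [c5_mulVecX, ← mul_assoc]

theorem c5_deg_CX (a : Φ) : (C a * X : Φ[X]).natDegree ≤ 1 :=
  (natDegree_C_mul_le a X).trans natDegree_X_le

theorem c5_deg_rho (i : ι) (w : Φ[X]) : (S.poly.ρ i w).natDegree ≤ w.natDegree :=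
  natDegree_map_le

theorem c5_deg_s (σ : Perm ι) : (S.poly.s σ).natDegree = 0 := by
  have : S.poly.s σ = C (S.s σ) := rfl
  rw [this, natDegree_C]

/-- (rk)  `P(B + X u v)` has degree at most `k` in the polynomial variable `X`.
(`PP_add` for `S.poly`; all the ingredients except the factor `X` of `u` come from `Φ` by `C`;
`1 + t h` has degree `≤ 1`, so `D(1 + t h)` has degree `≤ k` and `𝒜(1 + t h)` degree `≤ k - 1`.) -/
theorem PP_rank (hA : Anti S.s k) (hF : Frame p q z) (t : Φ) (ht : ∀ x, t * x = x * t)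
    (hn : IsNilpotent t) (x : A → Φ) (B : Matrix (Option A) (Option A) Φ) (u v : Option A → Φ) :
    (S.poly.PP p q z (C t) (fun a => C (x a))
      (B.map C + vecMulVec (fun a => X * C (u a)) (fun a => C (v a)))).natDegree ≤ k := by
  have hA' : Anti S.poly.s k := poly_Anti S k hA
  rw [PP_add S.poly p q z hA' hF (C t) (c5_central t ht) (hn.map C) (fun a => C (x a))
    (B.map C) (fun a => X * C (u a)) (fun a => C (v a)) _ rfl, c5_BX, c5_dt t ht hn,
    c5_qq t ht hn, c5_inv t ht hn]
  set N := Ring.inverse (1 + t • BX x B) with hN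
  have h1 : (fun b => (C (v (some b)) * C (x b) : Φ[X])) = fun b => C (v (some b) * x b) := by
    funext b
    rw [map_mul]
  have h2 : (fun a => ((B.map (C : Φ →+* Φ[X])) none (some a) * C (x a) : Φ[X])) =
      fun a => C (B none (some a) * x a) := by
    funext b
    rw [map_mul]
    rfl
  rw [h1, h2, c5_dotX N (fun b => v (some b) * x b) (fun b => u (some b)),
    c5_dotX N (fun a => B none (some a) * x a) (fun b => u (some b)), poly_D_C, poly_om]
  set h := (fun b => v (some b) * x b) ⬝ᵥ (N *ᵥ fun b => u (some b)) with hh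
  set r := (fun a => B none (some a) * x a) ⬝ᵥ (N *ᵥ fun b => u (some b)) with hr
  have h3 : (fun b => (B.map (C : Φ →+* Φ[X])) (some b) none) = fun b => C (B (some b) none) := rfl
  have h4 : (N.map (C : Φ →+* Φ[X]) *ᵥ fun b => C (B (some b) none)) =
      fun a => C ((N *ᵥ fun b => B (some b) none) a) := by
    funext a
    exact c5_mulVec N _ a
  rw [h3, h4, c5_dot, poly_anti]
  have dC : ∀ y : Φ, (C y : Φ[X]).natDegree = 0 := fun y => natDegree_C y
  have d1 : (1 + C t * (C h * X) : Φ[X]).natDegree ≤ 1 := by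
    refine (natDegree_add_le _ _).trans (max_le ?_ ?_)
    · rw [natDegree_one]
      exact Nat.zero_le _
    · rw [← mul_assoc, ← map_mul]
      exact c5_deg_CX _
  have d2 : (X * C (u none) - C t * (C r * X) : Φ[X]).natDegree ≤ 1 := by
    refine (natDegree_sub_le _ _).trans (max_le ?_ ?_)
    · rw [X_mul]
      exact c5_deg_CX _
    · rw [← mul_assoc, ← map_mul]
      exact c5_deg_CX _
  have d3 : (S.poly.D p (fun _ => 1 + C t * (C h * X))).natDegree ≤ k := by
    refine (poly_D_natDegree S p _ (fun _ => 1) (fun _ => d1)).trans ?_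
    simp
  have d4 : (S.poly.ρ z (X * C (u none) - C t * (C r * X)) *
      S.poly.adj p z (1 + C t * (C h * X))).natDegree ≤ k := by
    unfold Str.adj
    rw [Finset.mul_sum]
    refine natDegree_sum_le_of_forall_le _ _ fun j _ => ?_
    have d5 : (S.poly.D p (Function.update (fun _ => 1 + C t * (C h * X)) j 1)).natDegree ≤
        k - 1 := by
      refine (poly_D_natDegree S p _ (Function.update (fun _ => 1) j 0) (fun i => ?_)).trans ?_
      · by_cases hij : i = j
        · subst hij
          rw [Function.update_self, Function.update_self, natDegree_one]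
        · rw [Function.update_of_ne hij, Function.update_of_ne hij]
          exact d1
      · rw [Finset.sum_update_of_mem (mem_univ j), Nat.zero_add, Finset.sum_const, smul_eq_mul,
          mul_one, ← Finset.compl_eq_univ_sdiff, Finset.card_compl, Finset.card_singleton,
          Fintype.card_fin]
    have hk : 1 ≤ k := by
      have := j.isLt
      omega
    rw [poly_anti]
    refine natDegree_mul_le.trans ?_
    have e1 := c5_deg_rho S z (X * C (u none) - C t * (C r * X))
    have e2 : (S.poly.s (swap z (p j)) *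
        S.poly.D p (Function.update (fun _ => 1 + C t * (C h * X)) j 1) *
        C (anti S.s (univ.map p))).natDegree ≤ k - 1 := by
      refine natDegree_mul_le.trans ?_
      rw [natDegree_C, Nat.add_zero]
      refine natDegree_mul_le.trans ?_
      rw [c5_deg_s, Nat.zero_add]
      exact d5
    omega
  refine natDegree_mul_le.trans ?_
  rw [natDegree_C, Nat.zero_add]
  refine (natDegree_add_le _ _).trans (max_le ?_ ?_)
  · refine natDegree_mul_le.trans ?_
    rw [natDegree_C, Nat.add_zero]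
    refine natDegree_mul_le.trans ?_
    have e1 := c5_deg_rho S z (C (qq t x B))
    rw [natDegree_C] at e1
    omega
  · refine natDegree_mul_le.trans ?_
    rw [natDegree_C, Nat.add_zero]
    refine natDegree_mul_le.trans ?_
    have e1 := c5_deg_rho S z (C (v none) - C t * C ((fun b => v (some b) * x b) ⬝ᵥ
      (N *ᵥ fun b => B (some b) none)))
    have e2 : (C (v none) - C t * C ((fun b => v (some b) * x b) ⬝ᵥ
      (N *ᵥ fun b => B (some b) none)) : Φ[X]).natDegree = 0 := by
      rw [← map_mul, ← map_sub, natDegree_C]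
    rw [e2] at e1
    omega

end Pool.PI34.BA

end
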