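import Pool.Agent.LibPI54.M26
import Pool.Agent.LibPI54.M27

/-! ### part BA_D2 -/
section

/-! PI34, block BA, file D2: naturality, invariance and path value of `PB`. -/

set_option autoImplicit false

namespace Pool.PI34.BA

open Equiv Finset Matrix
open scoped TensorProduct

variable {ι Φ E : Type} [Fintype ι] [DecidableEq ι] [Ring Φ] [Ring E] (S : Str ι Φ E)
variable {k : ℕ} (p q : Fin k ↪ ι) (z : ι) {X : Type} [Fintype X] [DecidableEq X]
variable (x : X → Φ) (n : ℕ)

/-- the scalars of `T` in `T ⊗ R` -/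
noncomputable def d2_inc (R : Type) [Ring R] (T : Type) [CommRing T] : T →+* T ⊗[ℤ] R :=
  (Algebra.TensorProduct.includeLeft : T →ₐ[ℤ] T ⊗[ℤ] R)

/-- the scalars of `T` in `T[t]/(t^(n+1)) ⊗ R` -/
noncomputable def d2_phi (R : Type) [Ring R] (T : Type) [CommRing T] (n : ℕ) :=
  (d2_inc R (Trunc T n)).comp (inT T n)

theorem d2_phi_apply (R : Type) [Ring R] (T : Type) [CommRing T] (n : ℕ) (a : T) :
    d2_phi R T n a = inT T n a ⊗ₜ 1 := rfl

theorem d2_coef {T T' : Type} [CommRing T] [CommRing T'] (f : T →+* T')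
    (y : Trunc T n ⊗[ℤ] E) :
    bmap E f ((tcoef T n).toIntLinearMap.rTensor E y) =
      (tcoef T' n).toIntLinearMap.rTensor E (bmap E (truncMap f n) y) := by
  induction y using TensorProduct.induction_on with
  | zero => simp only [map_zero]
  | add u v hu hv => simp only [map_add, hu, hv]
  | tmul u v =>
    rw [bmap_tmul, LinearMap.rTensor_tmul, LinearMap.rTensor_tmul, bmap_tmul]
    congr 1
    exact (tcoef_truncMap f n u).symm

/-- naturality in `T` (`map_PP` with `bmap (truncMap f)`, then `tcoef_truncMap`) -/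
theorem PB_map {T T' : Type} [CommRing T] [CommRing T'] (f : T →+* T')
    (B : Matrix (Option (X × Fin n)) (Option (X × Fin n)) T) :
    bmap E f (PB S p q z x n T B) = PB S p q z x n T' (B.map f) := by
  unfold PB
  rw [d2_coef]
  congr 1
  rw [map_PP (S.base (Trunc T n)) (S.base (Trunc T' n)) (bmap Φ (truncMap f n))
    (bmap E (truncMap f n)) (fun i a => bmap_rho S (truncMap f n) i a)
    (fun σ => bmap_s S (truncMap f n) σ) p q z _ (fun y => tmul_one_comm (Trunc T n) _ y)
    (isNilpotent_tmul_one (Trunc T n) _ (isNilpotent_tt T n))]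
  have e1 : bmap Φ (truncMap f n) (tt T n ⊗ₜ 1) = tt T' n ⊗ₜ 1 := by
    rw [bmap_tmul, truncMap_tt]
  have e2 : (fun a : X × Fin n => bmap Φ (truncMap f n) ((1 : Trunc T n) ⊗ₜ x a.1)) =
      fun a : X × Fin n => (1 : Trunc T' n) ⊗ₜ x a.1 := by
    funext a
    rw [bmap_tmul, map_one]
  have e3 : (B.map fun b => (inT T n b ⊗ₜ[ℤ] (1 : Φ) : Trunc T n ⊗[ℤ] Φ)).map
      (bmap Φ (truncMap f n)) =
      (B.map f).map fun b => (inT T' n b ⊗ₜ[ℤ] (1 : Φ) : Trunc T' n ⊗[ℤ] Φ) := by
    refine Matrix.ext fun a b => ?_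
    rw [Matrix.map_apply, Matrix.map_apply, Matrix.map_apply, Matrix.map_apply, bmap_tmul,
      truncMap_inT]
  rw [e1, e2, e3]

theorem d2_optDiag {A Λ Λ' : Type} [Fintype A] [DecidableEq A] [Ring Λ] [Ring Λ']
    (φ : Λ →+* Λ') (h : Matrix A A Λ) : (optDiag h).map φ = optDiag (h.map φ) := by
  refine Matrix.ext fun a b => ?_
  rcases a with _ | a <;> rcases b with _ | b
  · exact map_one φ
  · exact map_zero φ
  · exact map_zero φ
  · rfl

/-- invariance (`PP_inv` for `S.base (Trunc T n)`) -/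
theorem PB_inv (hA : Anti S.s k) (hF : Frame p q z) (T : Type) [CommRing T]
    (B : Matrix (Option (X × Fin n)) (Option (X × Fin n)) T)
    (h h' : Matrix (X × Fin n) (X × Fin n) T) (h1 : h * h' = 1) (h2 : h' * h = 1)
    (hh : ∀ a b, a.1 ≠ b.1 → h' a b = 0) :
    PB S p q z x n T (optDiag h * B * optDiag h') = PB S p q z x n T B := by
  set φ := d2_phi Φ T n with hφ
  have e0 : ∀ C : Matrix (Option (X × Fin n)) (Option (X × Fin n)) T,
      (C.map fun b => (inT T n b ⊗ₜ[ℤ] (1 : Φ) : Trunc T n ⊗[ℤ] Φ)) = C.map φ := fun C => rfl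
  have e4 : (optDiag h).map φ = optDiag (h.map φ) := d2_optDiag φ h
  have e5 : (optDiag h').map φ = optDiag (h'.map φ) := d2_optDiag φ h'
  unfold PB
  rw [e0, e0, Matrix.map_mul, Matrix.map_mul, e4, e5]
  congr 1
  refine PP_inv (S.base (Trunc T n)) p q z (base_Anti S (Trunc T n) k hA) hF _
    (fun y => tmul_one_comm (Trunc T n) _ y)
    (isNilpotent_tmul_one (Trunc T n) _ (isNilpotent_tt T n)) _ _ (h.map φ) (h'.map φ) ?_ ?_ ?_
  · rw [← Matrix.map_mul, h1, Matrix.map_one _ (map_zero φ) (map_one φ)]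
  · rw [← Matrix.map_mul, h2, Matrix.map_one _ (map_zero φ) (map_one φ)]
  · intro a b
    rw [Matrix.map_apply]
    by_cases hab : a.1 = b.1
    · rw [hφ, d2_phi_apply, Algebra.TensorProduct.tmul_mul_tmul,
        Algebra.TensorProduct.tmul_mul_tmul, one_mul, one_mul, mul_one, mul_one, hab]
    · rw [hh a b hab, map_zero, zero_mul, mul_zero]

omit [Fintype X] in
theorem d2_pathMat {Λ Λ' : Type} [Ring Λ] [Ring Λ'] (φ : Λ →+* Λ') (w : Fin n → X)
    (b : Fin (n + 1) → Λ) : (pathMat w b).map φ = pathMat w (fun e => φ (b e)) := by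
  unfold pathMat
  refine Matrix.ext fun a c => ?_
  rw [Matrix.map_apply, Matrix.sum_apply, Matrix.sum_apply, map_sum]
  refine Finset.sum_congr rfl fun e _ => ?_
  rw [Matrix.single_apply, Matrix.single_apply]
  split_ifs
  · rfl
  · exact map_zero φ

theorem d2_tcoef (T : Type) [CommRing T] (n : ℕ) (P : T) :
    tcoef T n ((-tt T n) ^ n * inT T n P) = (-1) ^ n * P := by
  have h : (-tt T n) ^ n * inT T n P =
      Ideal.Quotient.mk (Ideal.span {(Polynomial.X : Polynomial T) ^ (n + 1)})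
        ((-Polynomial.X) ^ n * Polynomial.C P) := by
    rw [map_mul, map_pow, map_neg]
    rfl
  rw [h, tcoef_mk, Polynomial.coeff_mul_C, neg_pow, ← Polynomial.C_1, ← Polynomial.C_neg,
    ← Polynomial.C_pow, Polynomial.coeff_C_mul_X_pow, if_pos rfl]

theorem d2_left (T : Type) [CommRing T] (m : ℕ) (b : Fin m → T) :
    (List.ofFn fun e => d2_phi Φ T n (b e)).prod = inT T n (List.ofFn b).prod ⊗ₜ 1 := by
  have h : (List.ofFn fun e => d2_phi Φ T n (b e)) = (List.ofFn b).map (d2_phi Φ T n) := by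
    rw [List.map_ofFn]
    rfl
  rw [h]
  exact (map_list_prod (d2_phi Φ T n) (List.ofFn b)).symm

theorem d2_right (T : Type) [CommRing T] (m : ℕ) (c : Fin m → Φ) :
    (List.ofFn fun i => ((1 : Trunc T n) ⊗ₜ[ℤ] c i : Trunc T n ⊗[ℤ] Φ)).prod =
      1 ⊗ₜ (List.ofFn c).prod := by
  have h : (List.ofFn fun i => ((1 : Trunc T n) ⊗ₜ[ℤ] c i : Trunc T n ⊗[ℤ] Φ)) =
      (List.ofFn c).map
        (Algebra.TensorProduct.includeRight : Φ →ₐ[ℤ] Trunc T n ⊗[ℤ] Φ) := by
    rw [List.map_ofFn]
    rfl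
  rw [h]
  exact (map_list_prod (Algebra.TensorProduct.includeRight : Φ →ₐ[ℤ] Trunc T n ⊗[ℤ] Φ)
    (List.ofFn c)).symm

/-- path value (`PP_path`, the coefficient of `t^n` of `(-t)^n`) -/
theorem PB_path (T : Type) [CommRing T] (w : Fin n → X) (b : Fin (n + 1) → T) :
    PB S p q z x n T (pathMat w b) =
      (-1 : ℤ) ^ n • ((List.ofFn b).prod ⊗ₜ[ℤ]
        (S.ρ z (List.ofFn fun i => x (w i)).prod * S.om p q)) := by
  set φ := d2_phi Φ T n with hφ
  have e0 : ∀ C : Matrix (Option (X × Fin n)) (Option (X × Fin n)) T,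
      (C.map fun b => (inT T n b ⊗ₜ[ℤ] (1 : Φ) : Trunc T n ⊗[ℤ] Φ)) = C.map φ := fun C => rfl
  have e4 : (pathMat w b).map φ = pathMat w (fun e => φ (b e)) := d2_pathMat n φ w b
  unfold PB
  rw [e0, e4]
  have h1 := PP_path (S.base (Trunc T n)) p q z w (fun e => φ (b e))
    (fun e y => tmul_one_comm (Trunc T n) _ y) (tt T n ⊗ₜ 1)
    (fun y => tmul_one_comm (Trunc T n) _ y)
    (isNilpotent_tmul_one (Trunc T n) _ (isNilpotent_tt T n))
    (fun s => (1 : Trunc T n) ⊗ₜ x s)
  rw [h1, d2_left, d2_right, base_om]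
  have h2 : (-(tt T n ⊗ₜ[ℤ] (1 : Φ))) ^ n = ((-tt T n) ^ n) ⊗ₜ[ℤ] (1 : Φ) := by
    rw [← TensorProduct.neg_tmul, Algebra.TensorProduct.tmul_pow, one_pow]
  rw [h2, Algebra.TensorProduct.tmul_mul_tmul, Algebra.TensorProduct.tmul_mul_tmul, mul_one,
    one_mul, base_rho_tmul, Algebra.TensorProduct.tmul_mul_tmul, mul_one,
    LinearMap.rTensor_tmul]
  have h3 : (tcoef T n).toIntLinearMap ((-tt T n) ^ n * inT T n (List.ofFn b).prod) =
      (-1 : ℤ) ^ n • (List.ofFn b).prod := by
    refine (d2_tcoef T n _).trans ?_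
    rw [zsmul_eq_mul]
    push_cast
    rfl
  rw [h3, TensorProduct.smul_tmul', one_mul]

end Pool.PI34.BA

end

/-! ### part BA_D5 -/
section

/-! PI34, block BA, file D5: the universal coefficients `P_ξ`. -/

set_option autoImplicit false

namespace Pool.PI34.BA

open Equiv Finset Matrix
open scoped TensorProduct

variable {ι Φ E : Type} [Fintype ι] [DecidableEq ι] [Ring Φ] [Ring E] (S : Str ι Φ E)
variable {k : ℕ} (p q : Fin k ↪ ι) (z : ι) {X : Type} [Fintype X] [DecidableEq X]
variable (x : X → Φ) (n : ℕ)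

/-- the universal ring -/
abbrev TU (X : Type) (n : ℕ) : Type :=
  MvPolynomial (Option (X × Fin n) × Option (X × Fin n)) ℤ

/-- the universal matrix -/
noncomputable def BU (X : Type) (n : ℕ) :
    Matrix (Option (X × Fin n)) (Option (X × Fin n)) (TU X n) :=
  Matrix.of fun a b => MvPolynomial.X (a, b)

open Classical in
/-- `ℤ[X] ⊗ W ≃ (Mon →₀ W)` -/
noncomputable def coeffsW (X : Type) (n : ℕ) (W : Type) [AddCommGroup W] :
    TU X n ⊗[ℤ] W ≃ₗ[ℤ] (Mon X n →₀ W) :=
  TensorProduct.equivFinsuppOfBasisLeft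
    (MvPolynomial.basisMonomials (Option (X × Fin n) × Option (X × Fin n)) ℤ)

/-- the coefficients `P_ξ` of the universal `PB` -/
noncomputable def Pxi : Mon X n →₀ E :=
  coeffsW X n E (PB S p q z x n (TU X n) (BU X n))

omit [Fintype X] [DecidableEq X] in
open Classical in
theorem D5_coe {W : Type} [AddCommGroup W] (y : TU X n ⊗[ℤ] W) :
    (coeffsW X n W y).sum (fun ξ w =>
      (MvPolynomial.basisMonomials (Option (X × Fin n) × Option (X × Fin n)) ℤ) ξ ⊗ₜ[ℤ] w) =
      y := by
  have h := TensorProduct.equivFinsuppOfBasisLeft_symm_apply (N := W)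
    (MvPolynomial.basisMonomials (Option (X × Fin n) × Option (X × Fin n)) ℤ) (coeffsW X n W y)
  exact h.symm.trans (LinearEquiv.symm_apply_apply _ _)

omit [Fintype X] [DecidableEq X] in
theorem D5_ev (T : Type) [CommRing T]
    (B : Matrix (Option (X × Fin n)) (Option (X × Fin n)) T) (ξ : Mon X n) :
    MvPolynomial.eval₂Hom (Int.castRingHom T) (fun ab => B ab.1 ab.2)
      ((MvPolynomial.basisMonomials (Option (X × Fin n) × Option (X × Fin n)) ℤ) ξ) =
      evMon B ξ := by
  rw [MvPolynomial.coe_basisMonomials, MvPolynomial.eval₂Hom_monomial, map_one, one_mul]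
  rfl

/-- the coefficients of `y ∈ ℤ[X] ⊗ W` determine all the specializations.
(both sides are additive in `y`; for `y = monomial ⊗ w` it is a computation.) -/
theorem evW_coeffsW {W : Type} [AddCommGroup W] (y : TU X n ⊗[ℤ] W) (T : Type) [CommRing T]
    (B : Matrix (Option (X × Fin n)) (Option (X × Fin n)) T) :
    evW (coeffsW X n W y) T B =
      (MvPolynomial.eval₂Hom (Int.castRingHom T)
        (fun ab => B ab.1 ab.2)).toAddMonoidHom.toIntLinearMap.rTensor W y := by
  have h1 := congrArg ((MvPolynomial.eval₂Hom (Int.castRingHom T)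
    (fun ab => B ab.1 ab.2)).toAddMonoidHom.toIntLinearMap.rTensor W) (D5_coe n y)
  rw [← h1, Finsupp.sum, map_sum, evW, Finsupp.sum]
  refine Finset.sum_congr rfl fun ξ _ => ?_
  rw [LinearMap.rTensor_tmul]
  congr 1
  exact (D5_ev n T B ξ).symm

/-- `Σ_ξ B^ξ ⊗ P_ξ = PB(B)` (`PB_map` for `eval₂Hom`, `bmap_eq_rTensor`) -/
theorem evW_Pxi (T : Type) [CommRing T]
    (B : Matrix (Option (X × Fin n)) (Option (X × Fin n)) T) :
    evW (Pxi S p q z x n) T B = PB S p q z x n T B := by
  rw [Pxi, evW_coeffsW, ← bmap_eq_rTensor, PB_map]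
  congr 1
  ext a b
  change MvPolynomial.eval₂Hom (Int.castRingHom T) (fun ab => B ab.1 ab.2)
    (MvPolynomial.X (a, b)) = B a b
  rw [MvPolynomial.eval₂Hom_X']

end Pool.PI34.BA

end

/-! ### part BA_D7 -/
section

/-! PI34, block BA, file D7: the coefficient of the path monomial. -/

set_option autoImplicit false

namespace Pool.PI34.BA

open Equiv Finset Matrix
open scoped TensorProduct

variable {X : Type} [Fintype X] [DecidableEq X]

set_option linter.unusedSectionVars false

/-- the monomial of the path of the word `w` -/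
noncomputable def pathMon {n : ℕ} (w : Fin n → X) : Mon X n :=
  ∑ e : Fin (n + 1), Finsupp.single (tail w e, head w e) 1

theorem D7_tail_injective {n : ℕ} (w : Fin n → X) : Function.Injective (tail w) := by
  intro e e' h
  refine Fin.cases ?_ (fun i => ?_) e h
  · intro h
    refine Fin.cases (fun _ => rfl) (fun j hj => ?_) e' h
    simp [tail] at hj
  · intro h
    refine Fin.cases (fun hj => ?_) (fun j hj => ?_) e' h
    · simp [tail] at hj
    · simp only [tail, Fin.cases_succ, Option.some.injEq, Prod.mk.injEq] at hj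
      rw [hj.2]

theorem D7_edge_injective {n : ℕ} (w : Fin n → X) :
    Function.Injective fun e : Fin (n + 1) => (tail w e, head w e) := by
  intro e e' h
  exact D7_tail_injective w (Prod.mk.inj h).1

theorem D7_pathMon_edge {n : ℕ} (w : Fin n → X) (e : Fin (n + 1)) :
    pathMon w (tail w e, head w e) = 1 := by
  unfold pathMon
  rw [Finsupp.finsetSum_apply, Finset.sum_eq_single e]
  · simp
  · intro e' _ he'
    rw [Finsupp.single_apply, if_neg]
    intro h
    exact he' (D7_edge_injective w h)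
  · intro h
    exact absurd (mem_univ e) h

theorem D7_pathMon_off {n : ℕ} (w : Fin n → X) (ab : Option (X × Fin n) × Option (X × Fin n))
    (h : ∀ e : Fin (n + 1), ab ≠ (tail w e, head w e)) : pathMon w ab = 0 := by
  unfold pathMon
  rw [Finsupp.finsetSum_apply]
  apply Finset.sum_eq_zero
  intro e _
  rw [Finsupp.single_apply, if_neg]
  intro h'
  exact h e h'.symm

theorem pathMon_injective {n : ℕ} : Function.Injective (pathMon (X := X) (n := n)) := by
  intro w w' h
  funext i
  have h1 := D7_pathMon_edge w i.succ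
  rw [h] at h1
  by_contra hne
  have h2 := D7_pathMon_off w' (tail w i.succ, head w i.succ) (by
    intro e he
    have h3 := (Prod.mk.inj he).1
    revert h3
    refine Fin.cases ?_ (fun j => ?_) e
    · intro h3
      simp [tail] at h3
    · intro h3
      simp only [tail, Fin.cases_succ, Option.some.injEq, Prod.mk.injEq] at h3
      obtain ⟨h4, rfl⟩ := h3
      exact hne h4)
  rw [h2] at h1
  exact zero_ne_one h1

theorem D7_pathMat_edge {n : ℕ} {Λ : Type} [Ring Λ] (w : Fin n → X) (b : Fin (n + 1) → Λ)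
    (e : Fin (n + 1)) : pathMat w b (tail w e) (head w e) = b e := by
  unfold pathMat
  rw [Matrix.sum_apply, Finset.sum_eq_single e]
  · simp
  · intro e' _ he'
    rw [Matrix.single_apply, if_neg]
    rintro ⟨h, _⟩
    exact he' (D7_tail_injective w h)
  · intro h
    exact absurd (mem_univ e) h

theorem D7_pathMat_off {n : ℕ} {Λ : Type} [Ring Λ] (w : Fin n → X) (b : Fin (n + 1) → Λ)
    (ab : Option (X × Fin n) × Option (X × Fin n))
    (h : ∀ e : Fin (n + 1), ab ≠ (tail w e, head w e)) : pathMat w b ab.1 ab.2 = 0 := by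
  unfold pathMat
  rw [Matrix.sum_apply]
  apply Finset.sum_eq_zero
  intro e _
  rw [Matrix.single_apply, if_neg]
  rintro ⟨h1, h2⟩
  exact h e (Prod.ext h1.symm h2.symm)

theorem D7_prod_X {m : ℕ} (k : Fin m → ℕ) :
    ∏ e, (MvPolynomial.X e : MvPolynomial (Fin m) ℤ) ^ k e =
      MvPolynomial.monomial (Finsupp.equivFunOnFinite.symm k) 1 := by
  rw [← MvPolynomial.prod_X_pow_eq_monomial]
  symm
  apply Finset.prod_subset (subset_univ _)
  intro e _ he
  rw [Finsupp.notMem_support_iff] at he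
  have : k e = 0 := he
  simp [this]

theorem D7_evMon_on {n : ℕ} (w : Fin n → X) (ξ : Mon X n)
    (h : ∀ ab ∈ ξ.support, ∃ e : Fin (n + 1), ab = (tail w e, head w e)) :
    evMon (pathMat w fun e => (MvPolynomial.X e : MvPolynomial (Fin (n + 1)) ℤ)) ξ =
      MvPolynomial.monomial (Finsupp.equivFunOnFinite.symm
        fun e => ξ (tail w e, head w e)) 1 := by
  classical
  rw [← D7_prod_X]
  unfold evMon Finsupp.prod
  have h1 : ξ.support ⊆ univ.image fun e : Fin (n + 1) => (tail w e, head w e) := by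
    intro ab hab
    obtain ⟨e, rfl⟩ := h ab hab
    exact mem_image_of_mem _ (mem_univ e)
  rw [Finset.prod_subset h1, Finset.prod_image]
  · apply Finset.prod_congr rfl
    intro e _
    simp only [D7_pathMat_edge]
  · intro e _ e' _ hee
    exact D7_edge_injective w hee
  · intro ab _ hab
    rw [Finsupp.notMem_support_iff] at hab
    rw [hab]
    exact pow_zero _

theorem D7_coeff_evMon {n : ℕ} (w : Fin n → X) (ξ : Mon X n) :
    MvPolynomial.coeff (Finsupp.equivFunOnFinite.symm fun _ : Fin (n + 1) => 1)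
      (evMon (pathMat w fun e => (MvPolynomial.X e : MvPolynomial (Fin (n + 1)) ℤ)) ξ) =
      if ξ = pathMon w then 1 else 0 := by
  classical
  by_cases h : ∀ ab ∈ ξ.support, ∃ e : Fin (n + 1), ab = (tail w e, head w e)
  · rw [D7_evMon_on w ξ h, MvPolynomial.coeff_monomial]
    have h1 : (Finsupp.equivFunOnFinite.symm (fun e : Fin (n + 1) => ξ (tail w e, head w e)) =
        Finsupp.equivFunOnFinite.symm fun _ : Fin (n + 1) => 1) ↔ ξ = pathMon w := by
      rw [Finsupp.equivFunOnFinite.symm.injective.eq_iff]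
      constructor
      · intro h2
        ext ab
        by_cases h3 : ∃ e : Fin (n + 1), ab = (tail w e, head w e)
        · obtain ⟨e, rfl⟩ := h3
          rw [D7_pathMon_edge]
          exact congrFun h2 e
        · push Not at h3
          rw [D7_pathMon_off w ab h3]
          by_contra h4
          obtain ⟨e, he⟩ := h ab (Finsupp.mem_support_iff.2 h4)
          exact h3 e he
      · intro h2
        funext e
        rw [h2, D7_pathMon_edge]
    by_cases h2 : ξ = pathMon w
    · rw [if_pos (h1.2 h2), if_pos h2]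
    · rw [if_neg (fun h3 => h2 (h1.1 h3)), if_neg h2]
  · push Not at h
    obtain ⟨ab, hab, h1⟩ := h
    have h2 : evMon (pathMat w fun e => (MvPolynomial.X e : MvPolynomial (Fin (n + 1)) ℤ)) ξ
        = 0 := by
      unfold evMon Finsupp.prod
      apply Finset.prod_eq_zero hab
      show pathMat w (fun e => (MvPolynomial.X e : MvPolynomial (Fin (n + 1)) ℤ)) ab.1 ab.2 ^ ξ ab
        = 0
      rw [D7_pathMat_off w _ ab h1]
      exact zero_pow (Finsupp.mem_support_iff.1 hab)
    rw [h2, MvPolynomial.coeff_zero, if_neg]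
    rintro rfl
    exact Finsupp.mem_support_iff.1 hab (D7_pathMon_off w ab h1)

/-- if the value of `P` at the universal path matrix is `(∏ b_e) ⊗ y`, then `P_{path} = y`.
PROOF: `T = ℤ[b_0, …, b_n]`; `evMon (pathMat w b) ξ = 0` unless `ξ` is supported on the edges of the path, and
then it is the monomial `∏ b_e^{ξ(e)}` (the edges are distinct pairs).  Apply (coefficient of `∏ b_e`) `⊗ id`. -/
theorem coeff_path {n : ℕ} {W : Type} [AddCommGroup W] (P : Mon X n →₀ W) (w : Fin n → X) (y : W)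
    (h : evW P (MvPolynomial (Fin (n + 1)) ℤ) (pathMat w fun e => MvPolynomial.X e) =
      (List.ofFn fun e : Fin (n + 1) => (MvPolynomial.X e : MvPolynomial (Fin (n + 1)) ℤ)).prod
        ⊗ₜ[ℤ] y) :
    P (pathMon w) = y := by
  classical
  let φ : MvPolynomial (Fin (n + 1)) ℤ →ₗ[ℤ] ℤ :=
    MvPolynomial.lcoeff ℤ (Finsupp.equivFunOnFinite.symm fun _ : Fin (n + 1) => 1)
  have hφ : ∀ f : MvPolynomial (Fin (n + 1)) ℤ, φ f =
      MvPolynomial.coeff (Finsupp.equivFunOnFinite.symm fun _ : Fin (n + 1) => 1) f :=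
    fun _ => rfl
  let ψ : MvPolynomial (Fin (n + 1)) ℤ ⊗[ℤ] W →ₗ[ℤ] W :=
    (TensorProduct.lid ℤ W).toLinearMap ∘ₗ φ.rTensor W
  have hψ : ∀ (f : MvPolynomial (Fin (n + 1)) ℤ) (v : W), ψ (f ⊗ₜ v) = φ f • v := by
    intro f v
    show (TensorProduct.lid ℤ W) (φ.rTensor W (f ⊗ₜ v)) = φ f • v
    rw [LinearMap.rTensor_tmul, TensorProduct.lid_tmul]
  have h1 := congrArg ψ h
  rw [hψ, hφ, List.prod_ofFn] at h1
  have h2 : ∏ e, (MvPolynomial.X e : MvPolynomial (Fin (n + 1)) ℤ) =
      MvPolynomial.monomial (Finsupp.equivFunOnFinite.symm fun _ => 1) 1 := by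
    rw [← D7_prod_X]
    simp
  rw [h2, MvPolynomial.coeff_monomial, if_pos rfl, one_smul] at h1
  rw [← h1]
  unfold evW Finsupp.sum
  rw [map_sum]
  have h3 : ∀ ξ ∈ P.support, ψ (evMon (pathMat w fun e => MvPolynomial.X e) ξ ⊗ₜ P ξ) =
      if ξ = pathMon w then P ξ else 0 := by
    intro ξ _
    rw [hψ, hφ, D7_coeff_evMon]
    split_ifs <;> simp
  rw [Finset.sum_congr rfl h3, Finset.sum_ite_eq']
  split_ifs with h4
  · rfl
  · exact Finsupp.notMem_support_iff.1 h4

variable {ι Φ E : Type} [Fintype ι] [DecidableEq ι] [Ring Φ] [Ring E] (S : Str ι Φ E)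
variable {k : ℕ} (p q : Fin k ↪ ι) (z : ι) (x : X → Φ) (n : ℕ)

/-- `P_{path(w)} = (-1)^n ρ_z(x_{w 0} ⋯ x_{w (n-1)}) ω` (`coeff_path`, `evW_Pxi`, `PB_path`) -/
theorem Pxi_path (w : Fin n → X) :
    Pxi S p q z x n (pathMon w) =
      (-1 : ℤ) ^ n • (S.ρ z (List.ofFn fun i => x (w i)).prod * S.om p q) := by
  apply coeff_path
  rw [evW_Pxi, PB_path, TensorProduct.tmul_smul]

end Pool.PI34.BA

end
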