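import Mathlib
import Pool.Agent.LibPI54.M12
import Pool.Agent.LibPI54.M27

/-! ### part BA_E4 -/
section

/-! PI34, block BA, file E4: gluing over all the primes (pure algebra). -/

set_option autoImplicit false

namespace Pool.PI34.BA

theorem E4_finite_hom {L : Type} [AddCommGroup L] [Module.Finite ℤ L] (K : Type) [Field K] :
    Module.Finite K (L →ₗ[ℤ] K) := by
  obtain ⟨n, s, hs⟩ := Module.Finite.exists_fin' ℤ L
  let Φ : (L →ₗ[ℤ] K) →ₗ[K] (Fin n → K) :=
    { toFun := fun φ i => φ (s (Pi.single i 1))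
      map_add' := fun φ ψ => by ext i; rfl
      map_smul' := fun c φ => by ext i; rfl }
  refine Module.Finite.of_injective Φ ?_
  intro φ ψ h
  have h1 : φ.comp s = ψ.comp s := by
    refine (Pi.basisFun ℤ (Fin n)).ext fun i => ?_
    have := congrFun h i
    simpa [Φ] using this
  ext x
  obtain ⟨y, rfl⟩ := hs x
  exact congrArg (fun g => g y) h1

/-- PROOF.  `C` is free (finitely generated, torsion free), so `L ≅ ker f × C` and
`Hom(L, K) ≅ Hom(ker f, K) × Hom(C, K)`, `dim Hom(C, K) = finrank C`; so `Hom(ker f, K) = 0` for every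
infinite field `K`.  If `ker f ≠ 0` (finitely generated) it has a maximal proper subgroup, the quotient
is `ℤ/p` for a prime `p`, and it embeds in the infinite field `AlgebraicClosure (ZMod p)`: contradiction. -/
theorem injective_of_finrank {L C : Type} [AddCommGroup L] [AddCommGroup C] [Module.Finite ℤ L]
    [NoZeroSMulDivisors ℤ C] (f : L →ₗ[ℤ] C) (hf : Function.Surjective f)
    (h : ∀ (K : Type) [Field K] [Infinite K],
      Module.finrank K (L →ₗ[ℤ] K) ≤ Module.finrank ℤ C) : Function.Injective f := by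
  have : Module.Finite ℤ C := Module.Finite.of_surjective f hf
  have : Module.Free ℤ C := inferInstance
  obtain ⟨g, hg⟩ := Module.projective_lifting_property f LinearMap.id hf
  have hg' : ∀ c, f (g c) = c := fun c => by
    have := congrArg (fun k => k c) hg
    simpa using this
  rw [← LinearMap.ker_eq_bot]
  by_contra hne
  have : Nontrivial (LinearMap.ker f) := Submodule.nontrivial_iff_ne_bot.2 hne
  have : Module.Finite ℤ (LinearMap.ker f) := inferInstance
  obtain ⟨M, hM⟩ := IsCoatomic.exists_coatom (Submodule ℤ (LinearMap.ker f))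
  have hsimple : IsSimpleModule ℤ (LinearMap.ker f ⧸ M) := isSimpleModule_iff_isCoatom.2 hM
  obtain ⟨I, hI, ⟨e⟩⟩ := isSimpleModule_iff_quot_maximal.1 hsimple
  let : Field (ℤ ⧸ I) := Ideal.Quotient.field I
  let K := AlgebraicClosure (ℤ ⧸ I)
  have : Infinite K := IsAlgClosed.instInfinite
  let φ0 : LinearMap.ker f →ₗ[ℤ] K :=
    (algebraMap (ℤ ⧸ I) K).toAddMonoidHom.toIntLinearMap.comp
      ((e : _ →ₗ[ℤ] _).comp M.mkQ)
  have hφ0 : φ0 ≠ 0 := by
    intro h0
    obtain ⟨y, hy⟩ := e.surjective (1 : ℤ ⧸ I)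
    obtain ⟨x, rfl⟩ := M.mkQ_surjective y
    have h1 := congrArg (fun k => k x) h0
    have h2 : algebraMap (ℤ ⧸ I) K (e (M.mkQ x)) = 0 := h1
    rw [hy, map_one] at h2
    exact one_ne_zero h2
  let pr : L →ₗ[ℤ] LinearMap.ker f :=
    (LinearMap.id - g.comp f).codRestrict (LinearMap.ker f) (fun x => by
      simp [LinearMap.mem_ker, hg'])
  have hpr : ∀ x : LinearMap.ker f, pr x = x := fun x => by
    apply Subtype.ext
    have : f (x : L) = 0 := x.2
    simp [pr, this]
  let Ψ : (C →ₗ[ℤ] K) →ₗ[K] (L →ₗ[ℤ] K) :=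
    { toFun := fun ψ => ψ.comp f
      map_add' := fun φ ψ => by ext i; rfl
      map_smul' := fun c φ => by ext i; rfl }
  have hΨ : Function.Injective Ψ := by
    intro a b hab
    ext c
    obtain ⟨y, rfl⟩ := hf c
    exact congrArg (fun k => k y) hab
  have := E4_finite_hom (L := L) K
  have hnot : φ0.comp pr ∉ LinearMap.range Ψ := by
    rintro ⟨ψ, hψ⟩
    apply hφ0
    ext x
    have h1 : ψ (f (x : L)) = φ0 (pr (x : L)) := congrArg (fun k => k (x : L)) hψ
    rw [hpr] at h1
    have h2 : f (x : L) = 0 := x.2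
    rw [h2, map_zero] at h1
    simpa using h1.symm
  have hlt : Module.finrank K (LinearMap.range Ψ) < Module.finrank K (L →ₗ[ℤ] K) :=
    Submodule.finrank_lt (fun h => hnot (h ▸ Submodule.mem_top))
  rw [LinearMap.finrank_range_of_inj hΨ] at hlt
  have hC : Module.finrank K (C →ₗ[ℤ] K) = Module.finrank ℤ C := by
    let b := Module.Free.chooseBasis ℤ C
    rw [← (b.constr K : _ ≃ₗ[K] (C →ₗ[ℤ] K)).finrank_eq, Module.finrank_fintype_fun_eq_card,
      Module.finrank_eq_card_basis b]
  have := h K
  omega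

end Pool.PI34.BA

end

/-! ### part BA_E0 -/
section

/-! PI34, block BA, file E0: the space `F_k(K)`. -/

set_option autoImplicit false

namespace Pool.PI34.BA

open Equiv Finset Matrix
open scoped TensorProduct

variable {X : Type} [Fintype X] [DecidableEq X]

/-- evaluation of `f` at a matrix over a `K`-algebra `R` -/
noncomputable def evF {n : ℕ} {K : Type} [Field K] (R : Type) [CommRing R] [Algebra K R]
    (f : MvPolynomial (Option (X × Fin n) × Option (X × Fin n)) K)
    (B : Matrix (Option (X × Fin n)) (Option (X × Fin n)) R) : R :=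
  MvPolynomial.aeval (fun ab => B ab.1 ab.2) f

/-- `F_k(K)`: the polynomial functions of a matrix `B` with index set `Option (X × Fin n)` which are homogeneous of
degree `n + 1`, of degree one in the row `none` and in the column `none`, invariant under conjugation with
`∏_s GL_n(K)` and of degree at most `k` along rank one updates. -/
noncomputable def FF (X : Type) [Fintype X] [DecidableEq X] (k n : ℕ) (K : Type) [Field K] :
    Submodule K (MvPolynomial (Option (X × Fin n) × Option (X × Fin n)) K) where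
  carrier := {f | (∀ ξ, f.coeff ξ ≠ 0 → GoodMon ξ) ∧
    (∀ (B : Matrix (Option (X × Fin n)) (Option (X × Fin n)) K)
      (h h' : Matrix (X × Fin n) (X × Fin n) K), h * h' = 1 → h' * h = 1 →
      (∀ a b, a.1 ≠ b.1 → h' a b = 0) →
      evF K f (optDiag h * B * optDiag h') = evF K f B) ∧
    (∀ (B : Matrix (Option (X × Fin n)) (Option (X × Fin n)) K)
      (u v : Option (X × Fin n) → K) (j : ℕ), k < j →
      (evF (Polynomial K) f (B.map Polynomial.C +
        vecMulVec (fun a => Polynomial.X * Polynomial.C (u a))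
          (fun a => Polynomial.C (v a)))).coeff j = 0)}
  zero_mem' := by
    refine ⟨fun ξ h => absurd rfl h, fun B h h' _ _ _ => ?_, fun B u v j _ => ?_⟩ <;> simp [evF]
  add_mem' := by
    rintro f g ⟨hf1, hf2, hf3⟩ ⟨hg1, hg2, hg3⟩
    refine ⟨fun ξ h => ?_, fun B h h' h1 h2 h3 => ?_, fun B u v j hj => ?_⟩
    · by_cases hf : f.coeff ξ = 0
      · by_cases hg : g.coeff ξ = 0
        · exact absurd (by rw [MvPolynomial.coeff_add, hf, hg, add_zero]) h
        · exact hg1 ξ hg
      · exact hf1 ξ hf
    · have e1 := hf2 B h h' h1 h2 h3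
      have e2 := hg2 B h h' h1 h2 h3
      simp only [evF, map_add] at e1 e2 ⊢
      rw [e1, e2]
    · have e1 := hf3 B u v j hj
      have e2 := hg3 B u v j hj
      simp only [evF, map_add, Polynomial.coeff_add] at e1 e2 ⊢
      rw [e1, e2, add_zero]
  smul_mem' := by
    rintro c f ⟨hf1, hf2, hf3⟩
    refine ⟨fun ξ h => ?_, fun B h h' h1 h2 h3 => ?_, fun B u v j hj => ?_⟩
    · refine hf1 ξ fun h0 => h ?_
      rw [MvPolynomial.coeff_smul, h0, smul_zero]
    · have e1 := hf2 B h h' h1 h2 h3
      simp only [evF, map_smul] at e1 ⊢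
      rw [e1]
    · have e1 := hf3 B u v j hj
      simp only [evF, map_smul, Polynomial.coeff_smul] at e1 ⊢
      rw [e1, smul_zero]

end Pool.PI34.BA

end

/-! ### part A5_Exp -/
section

/-! PI34, block A5, file Exp: rank one degree and the pivot lemma. -/

set_option autoImplicit false

namespace Pool.PI34.A5

open Finset Matrix

variable {K : Type} [Field K]

/-- coordinates on `T × K` -/
def xt {T ι : Type} (x : T → ι → K) : T × K → Option ι → K := fun p o => o.elim p.2 (x p.1)

theorem poly_expand_aux {T ι : Type} (x : T → ι → K) (F : T × K → K) (hF : F ∈ PolyFn (xt x)) :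
    ∃ q : Polynomial (T → K), (∀ j, q.coeff j ∈ PolyFn x) ∧
      ∀ t s, F (t, s) = (q.map (Pi.evalRingHom (fun _ : T => K) t)).eval s := by
  obtain ⟨p, hp⟩ := (mem_PolyFn _ F).1 hF
  have key : ∃ q : Polynomial (T → K), (∀ j, q.coeff j ∈ PolyFn x) ∧
      ∀ t s, MvPolynomial.eval (xt x (t, s)) p =
        (q.map (Pi.evalRingHom (fun _ : T => K) t)).eval s := by
    clear hp
    induction p using MvPolynomial.induction_on with
    | C a =>
      refine ⟨Polynomial.C (fun _ => a), fun j => ?_, fun t s => ?_⟩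
      · rw [Polynomial.coeff_C]
        split_ifs
        · exact const_mem x a
        · exact (PolyFn x).zero_mem
      · rw [MvPolynomial.eval_C, Polynomial.map_C, Polynomial.eval_C]
        rfl
    | add p q hp hq =>
      obtain ⟨p', hp1, hp2⟩ := hp
      obtain ⟨q', hq1, hq2⟩ := hq
      refine ⟨p' + q', fun j => ?_, fun t s => ?_⟩
      · rw [Polynomial.coeff_add]
        exact (PolyFn x).add_mem (hp1 j) (hq1 j)
      · rw [map_add, hp2, hq2, Polynomial.map_add, Polynomial.eval_add]
    | mul_X p i hp =>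
      obtain ⟨p', hp1, hp2⟩ := hp
      cases i with
      | none =>
        refine ⟨p' * Polynomial.X, fun j => ?_, fun t s => ?_⟩
        · cases j with
          | zero =>
            rw [Polynomial.coeff_mul_X_zero]
            exact (PolyFn x).zero_mem
          | succ j =>
            rw [Polynomial.coeff_mul_X]
            exact hp1 j
        · rw [map_mul, hp2, MvPolynomial.eval_X, Polynomial.map_mul, Polynomial.map_X,
            Polynomial.eval_mul, Polynomial.eval_X]
          rfl
      | some i =>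
        refine ⟨p' * Polynomial.C (fun t => x t i), fun j => ?_, fun t s => ?_⟩
        · rw [Polynomial.coeff_mul_C]
          exact (PolyFn x).mul_mem (hp1 j) (coord_mem x i)
        · rw [map_mul, hp2, MvPolynomial.eval_X, Polynomial.map_mul, Polynomial.map_C,
            Polynomial.eval_mul, Polynomial.eval_C]
          rfl
  obtain ⟨q, hq, h⟩ := key
  exact ⟨q, hq, fun t s => by rw [hp, h]⟩

/-- PROOF.  Induction on the polynomial. -/
theorem poly_expand {T ι : Type} (x : T → ι → K) (F : T × K → K) (hF : F ∈ PolyFn (xt x)) :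
    ∃ (D : ℕ) (cf : ℕ → T → K), (∀ j, cf j ∈ PolyFn x) ∧
      ∀ t s, F (t, s) = ∑ j ∈ range D, cf j t * s ^ j := by
  obtain ⟨q, hq, h⟩ := poly_expand_aux x F hF
  refine ⟨q.natDegree + 1, q.coeff, hq, fun t s => ?_⟩
  rw [h, Polynomial.eval_eq_sum_range' (lt_of_le_of_lt Polynomial.natDegree_map_le
    (Nat.lt_succ_self _))]
  refine Finset.sum_congr rfl fun j _ => ?_
  rw [Polynomial.coeff_map]
  rfl

/-- degree at most `k` along the rank one updates -/
def RD {I J : Type} (k : ℕ) (g : Matrix I J K → K) : Prop :=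
  ∀ (Z : Matrix I J K) (u : I → K) (v : J → K), ∃ p : Polynomial K, p.natDegree ≤ k ∧
    ∀ s : K, g (Z + s • Matrix.vecMulVec u v) = p.eval s

variable [Infinite K] {I J : Type} [Fintype I] [DecidableEq I] [Fintype J] [DecidableEq J]

/-- rank one expansion with coefficients depending polynomially on a parameter: for polynomial maps `Z u v` of `t : T`,
`g (Z t + s u(t) v(t)ᵀ) = ∑_(j ≤ k) s^j cf_j(t)`.  PROOF.  `poly_expand`; the coefficients of `s^j`, `j > k`, vanish at every `t` by `RD`. -/
theorem rd_expand {T ι : Type} (x : T → ι → K) (k : ℕ) (g : Matrix I J K → K)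
    (hg : g ∈ PolyFn (mcr K)) (hr : RD k g) (Z : T → Matrix I J K) (u : T → I → K)
    (v : T → J → K) (hZ : ∀ i j, (fun t => Z t i j) ∈ PolyFn x)
    (hu : ∀ i, (fun t => u t i) ∈ PolyFn x) (hv : ∀ j, (fun t => v t j) ∈ PolyFn x) :
    ∃ cf : ℕ → T → K, (∀ j, cf j ∈ PolyFn x) ∧
      ∀ t s, g (Z t + s • Matrix.vecMulVec (u t) (v t)) = ∑ j ∈ range (k + 1), cf j t * s ^ j := by
  have hfst : ∀ G : T → K, G ∈ PolyFn x → (fun p : T × K => G p.1) ∈ PolyFn (xt x) := by
    intro G hG
    exact comp_mem x (xt x) Prod.fst (fun i => coord_mem (xt x) (some i)) G hG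
  have hsnd : (fun p : T × K => p.2) ∈ PolyFn (xt x) := coord_mem (xt x) none
  have hF : (fun p : T × K => g (Z p.1 + p.2 • Matrix.vecMulVec (u p.1) (v p.1))) ∈
      PolyFn (xt x) := by
    refine comp_mem (mcr K) (xt x)
      (fun p : T × K => Z p.1 + p.2 • Matrix.vecMulVec (u p.1) (v p.1)) ?_ g hg
    rintro ⟨i, j⟩
    have e : (fun p : T × K => mcr K (Z p.1 + p.2 • Matrix.vecMulVec (u p.1) (v p.1)) (i, j)) =
        (fun p : T × K => Z p.1 i j) + (fun p : T × K => p.2) *
          ((fun p : T × K => u p.1 i) * fun p : T × K => v p.1 j) := by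
      funext p
      rfl
    rw [e]
    exact (PolyFn (xt x)).add_mem (hfst _ (hZ i j)) ((PolyFn (xt x)).mul_mem hsnd
      ((PolyFn (xt x)).mul_mem (hfst _ (hu i)) (hfst _ (hv j))))
  obtain ⟨D, cf, hcf, h⟩ := poly_expand x _ hF
  refine ⟨fun j => if j < D then cf j else 0, fun j => ?_, fun t s => ?_⟩
  · dsimp only
    split_ifs
    · exact hcf j
    · exact (PolyFn x).zero_mem
  · obtain ⟨p, hp, hps⟩ := hr (Z t) (u t) (v t)
    have hpe : p = ∑ j ∈ range D, Polynomial.C (cf j t) * Polynomial.X ^ j := by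
      apply Polynomial.funext
      intro s
      rw [← hps, h t s, Polynomial.eval_finsetSum]
      refine Finset.sum_congr rfl fun j _ => ?_
      rw [Polynomial.eval_mul, Polynomial.eval_C, Polynomial.eval_pow, Polynomial.eval_X]
    rw [hps s, Polynomial.eval_eq_sum_range' (Nat.lt_succ_of_le hp)]
    refine Finset.sum_congr rfl fun j _ => ?_
    congr 1
    conv_lhs => rw [hpe]
    rw [Polynomial.finsetSum_coeff]
    simp only [Polynomial.coeff_C_mul, Polynomial.coeff_X_pow, mul_ite, mul_one, mul_zero,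
      Finset.sum_ite_eq, Finset.mem_range]
    split_ifs <;> rfl

/-- existence part of the pivot lemma.  PROOF.  `rd_expand` with `T = Matrix I J K`, `u = -(w - e_q)` (`w` = column `j0` of `Z`), `v` = row `q` of `Z`:
`g' Z = ∑_(j ≤ k) cf_j(Z) (Z q j0)^(k-j)`. -/
theorem pivot_exists (k : ℕ) (g : Matrix I J K → K) (hg : g ∈ PolyFn (mcr K)) (hr : RD k g) (q : I)
    (j0 : J) : ∃ g' : Matrix I J K → K, g' ∈ PolyFn (mcr K) ∧ ∀ Z, Z q j0 ≠ 0 →
      g' Z = (Z q j0) ^ k * g (Z - (Z q j0)⁻¹ •
        Matrix.vecMulVec (fun a => Z a j0 - (1 : Matrix I I K) a q) (fun b => Z q b)) := by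
  obtain ⟨cf, hcf, h⟩ := rd_expand (T := Matrix I J K) (mcr K) k g hg hr (fun t => t)
    (fun t a => -(t a j0 - (1 : Matrix I I K) a q)) (fun t b => t q b)
    (fun i j => coord_mem (mcr K) (i, j))
    (fun i => (PolyFn (mcr K)).neg_mem ((PolyFn (mcr K)).sub_mem (coord_mem (mcr K) (i, j0))
      (const_mem (mcr K) _)))
    (fun j => coord_mem (mcr K) (q, j))
  refine ⟨∑ j ∈ range (k + 1), cf j * (fun t : Matrix I J K => t q j0) ^ (k - j), ?_, ?_⟩
  · exact Subalgebra.sum_mem _ fun j _ => (PolyFn (mcr K)).mul_mem (hcf j)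
      ((PolyFn (mcr K)).pow_mem (coord_mem (mcr K) (q, j0)) _)
  · intro Z hZ
    have e1 : Z - (Z q j0)⁻¹ •
        Matrix.vecMulVec (fun a => Z a j0 - (1 : Matrix I I K) a q) (fun b => Z q b) =
        Z + (Z q j0)⁻¹ •
        Matrix.vecMulVec (fun a => -(Z a j0 - (1 : Matrix I I K) a q)) (fun b => Z q b) := by
      ext a b
      simp only [Matrix.sub_apply, Matrix.add_apply, Matrix.smul_apply, Matrix.vecMulVec_apply,
        smul_eq_mul]
      ring
    rw [e1, h Z (Z q j0)⁻¹, Finset.mul_sum, Finset.sum_apply]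
    refine Finset.sum_congr rfl fun j hj => ?_
    have hjk : j ≤ k := Nat.lt_succ_iff.1 (Finset.mem_range.1 hj)
    change cf j Z * (Z q j0) ^ (k - j) = (Z q j0) ^ k * (cf j Z * (Z q j0)⁻¹ ^ j)
    have e2 : (Z q j0) ^ k = (Z q j0) ^ (k - j) * (Z q j0) ^ j := by
      rw [← pow_add]
      congr 1
      omega
    have e3 : (Z q j0) ^ j * (Z q j0)⁻¹ ^ j = 1 := by
      rw [← mul_pow, mul_inv_cancel₀ hZ, one_pow]
    rw [e2]
    calc cf j Z * (Z q j0) ^ (k - j) = cf j Z * (Z q j0) ^ (k - j) * 1 := (mul_one _).symm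
      _ = cf j Z * (Z q j0) ^ (k - j) * ((Z q j0) ^ j * (Z q j0)⁻¹ ^ j) := by rw [e3]
      _ = _ := by ring

end Pool.PI34.A5

end

/-! ### part BA_E1 -/
section

/-! PI34, block BA, file E1: every field is the residue field of a `ℤ`-flat local ring. -/

set_option autoImplicit false

namespace Pool.PI34.BA

/-- PROOF.  `MvPolynomial K ℤ → K` (`eval₂ (Int.castRingHom K) id`) is surjective with prime kernel `P`;
`T := Localization.AtPrime P` is flat over `MvPolynomial K ℤ` (localization), which is free over `ℤ`;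
`π := Localization lift`; an element of `T` with nonzero image is a unit. -/
theorem exists_flat_lift (K : Type) [Field K] : ∃ (T : Type) (_ : CommRing T)
    (_ : Module.Flat ℤ T) (π : T →+* K), Function.Surjective π ∧ ∀ a, IsUnit (π a) → IsUnit a := by
  let φ : MvPolynomial K ℤ →+* K := MvPolynomial.eval₂Hom (Int.castRingHom K) id
  have hφ : Function.Surjective φ := fun k => ⟨MvPolynomial.X k, by simp [φ]⟩
  let P : Ideal (MvPolynomial K ℤ) := RingHom.ker φ
  haveI hP : P.IsPrime := RingHom.ker_isPrime φ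
  have hg : ∀ y : P.primeCompl, IsUnit (φ y) := by
    rintro ⟨y, hy⟩
    exact isUnit_iff_ne_zero.2 fun h0 => hy (RingHom.mem_ker.2 h0)
  let π : Localization.AtPrime P →+* K := IsLocalization.lift hg
  have hπ : ∀ x, π (algebraMap _ _ x) = φ x := fun x => IsLocalization.lift_eq hg x
  haveI h1 : Module.Flat (MvPolynomial K ℤ) (Localization.AtPrime P) :=
    IsLocalization.flat _ P.primeCompl
  have h2 : Module.Flat ℤ (Localization.AtPrime P) :=
    Module.Flat.trans ℤ (MvPolynomial K ℤ) (Localization.AtPrime P)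
  refine ⟨Localization.AtPrime P, inferInstance, h2, π, ?_, ?_⟩
  · intro k
    obtain ⟨x, hx⟩ := hφ k
    exact ⟨algebraMap _ _ x, by rw [hπ, hx]⟩
  · intro a ha
    obtain ⟨x, s, rfl⟩ := IsLocalization.exists_mk'_eq P.primeCompl a
    rw [IsLocalization.AtPrime.isUnit_mk'_iff]
    intro hx
    have h3 : φ x = 0 := RingHom.mem_ker.1 hx
    rw [IsLocalization.lift_mk', h3, zero_mul] at ha
    exact not_isUnit_zero ha

/-- matrices: an invertible matrix over `K`, zero outside of the diagonal blocks, lifts to an invertible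
matrix over `T` of the same form, together with the inverse. (lift `h` entrywise with zeros outside the blocks;
its determinant is a unit; its inverse: take the inverse of the lift; it is zero outside of the blocks because
the block diagonal matrices with invertible determinant have block diagonal inverse:
e.g. a matrix commutes with the idempotents `diag [a.1 = s]` iff it is block diagonal.) -/
theorem exists_lift_pair {X : Type} [Fintype X] [DecidableEq X] {n : ℕ} {K T : Type} [Field K]
    [CommRing T] (π : T →+* K) (hs : Function.Surjective π) (hu : ∀ a, IsUnit (π a) → IsUnit a)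
    (h h' : Matrix (X × Fin n) (X × Fin n) K) (h1 : h * h' = 1) (h2 : h' * h = 1)
    (hb : ∀ a b, a.1 ≠ b.1 → h' a b = 0) :
    ∃ g g' : Matrix (X × Fin n) (X × Fin n) T, g * g' = 1 ∧ g' * g = 1 ∧
      (∀ a b, a.1 ≠ b.1 → g' a b = 0) ∧ g.map π = h ∧ g'.map π = h' := by
  let g' : Matrix (X × Fin n) (X × Fin n) T :=
    Matrix.of fun a b => if a.1 = b.1 then Function.surjInv hs (h' a b) else 0
  have hg' : g'.map π = h' := by
    ext a b
    simp only [g', Matrix.map_apply, Matrix.of_apply]
    split_ifs with hab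
    · exact Function.surjInv_eq hs _
    · rw [map_zero, hb a b hab]
  have hdet : IsUnit g'.det := by
    apply hu
    have h3 : π g'.det = h'.det := by
      rw [RingHom.map_det, RingHom.mapMatrix_apply, hg']
    rw [h3]
    exact (Matrix.isUnit_iff_isUnit_det h').1 ⟨⟨h', h, h2, h1⟩, rfl⟩
  refine ⟨g'⁻¹, g', Matrix.nonsing_inv_mul _ hdet, Matrix.mul_nonsing_inv _ hdet, ?_, ?_, hg'⟩
  · intro a b hab
    simp only [g', Matrix.of_apply, if_neg hab]
  · have h3 : (g'⁻¹).map π * h' = 1 := by
      rw [← hg', ← Matrix.map_mul, Matrix.nonsing_inv_mul _ hdet]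
      exact Matrix.map_one π (map_zero π) (map_one π)
    calc (g'⁻¹).map π = (g'⁻¹).map π * (h' * h) := by rw [h2, mul_one]
      _ = ((g'⁻¹).map π * h') * h := by rw [mul_assoc]
      _ = h := by rw [h3, one_mul]

end Pool.PI34.BA

end

/-! ### part A5_CDa -/
section

/-! PI34, block A5, file CDa: reindexing the elements of `F_k(K)`. -/

set_option autoImplicit false

namespace Pool.PI34.A5

open Finset Matrix Pool.PI34.BA

variable {K : Type} [Field K] [Infinite K]

/-- sorting: `Tuple.sort` -/
theorem exists_sorted {A : Type} [Fintype A] (col : A → ℕ) :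
    ∃ e : A ≃ Fin (Fintype.card A), Monotone (fun i => col (e.symm i)) := by
  let e0 := Fintype.equivFin A
  let g : Fin (Fintype.card A) → ℕ := fun i => col (e0.symm i)
  refine ⟨e0.trans (Tuple.sort g).symm, ?_⟩
  have h := Tuple.monotone_sort g
  intro i j hij
  exact h hij

variable {X : Type} [Fintype X] [DecidableEq X]

/-- the colour number -/
noncomputable def colN (n : ℕ) (a : Option (X × Fin n)) : ℕ :=
  a.elim 0 (fun x => (Fintype.equivFin X x.1 : ℕ) + 1)

theorem colN_iff (n : ℕ) (a b : Option (X × Fin n)) :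
    colN n a = colN n b ↔ a.map Prod.fst = b.map Prod.fst := by
  rcases a with _ | a <;> rcases b with _ | b
  · simp
  · simp [colN]
  · simp [colN]
  · simp only [colN, Option.elim_some, Option.map_some, Option.some.injEq, Nat.add_right_cancel_iff]
    rw [Fin.val_inj, EmbeddingLike.apply_eq_iff_eq]

/-- reindexing of `f` -/
noncomputable def fre {n : ℕ} {N : ℕ} (e : Option (X × Fin n) ≃ Fin N)
    (f : MvPolynomial (Option (X × Fin n) × Option (X × Fin n)) K)
    (B : Matrix (Fin N) (Fin N) K) : K := evF K f (B.submatrix e e)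

theorem fre_poly {n N : ℕ} (e : Option (X × Fin n) ≃ Fin N)
    (f : MvPolynomial (Option (X × Fin n) × Option (X × Fin n)) K) :
    fre e f ∈ PolyFn (mcr K) := by
  refine (mem_PolyFn _ _).2 ⟨MvPolynomial.rename (fun ab => (e ab.1, e ab.2)) f, fun B => ?_⟩
  rw [MvPolynomial.eval_rename, fre, evF, MvPolynomial.aeval_eq_eval]
  rfl

theorem fre_hom {k n N : ℕ} (e : Option (X × Fin n) ≃ Fin N)
    (f : MvPolynomial (Option (X × Fin n) × Option (X × Fin n)) K) (hf : f ∈ FF X k n K) (s : K)
    (B : Matrix (Fin N) (Fin N) K) : fre e f (s • B) = s ^ (n + 1) * fre e f B := by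
  unfold fre evF
  rw [MvPolynomial.aeval_def, MvPolynomial.eval₂_eq, MvPolynomial.aeval_def,
    MvPolynomial.eval₂_eq, Finset.mul_sum]
  refine Finset.sum_congr rfl fun ξ hξ => ?_
  have h1 := (hf.1 ξ (MvPolynomial.mem_support_iff.1 hξ)).1
  have h2 : ∏ i ∈ ξ.support, ((s • B).submatrix e e) i.1 i.2 ^ ξ i =
      s ^ (n + 1) * ∏ i ∈ ξ.support, (B.submatrix e e) i.1 i.2 ^ ξ i := by
    rw [← h1, Finsupp.sum, ← Finset.prod_pow_eq_pow_sum, ← Finset.prod_mul_distrib]
    refine Finset.prod_congr rfl fun i _ => ?_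
    rw [← mul_pow]
    rfl
  rw [h2]
  ring

/-- PROOF.  `p = evF (Polynomial K) f (B.map C + vecMulVec (X * C u) (C v))` truncated: its coefficients of degree `> k` vanish, so `natDegree ≤ k`; evaluate at `s`. -/
theorem fre_RD {k n N : ℕ} (e : Option (X × Fin n) ≃ Fin N)
    (f : MvPolynomial (Option (X × Fin n) × Option (X × Fin n)) K) (hf : f ∈ FF X k n K) :
    RD k (fre e f) := by
  intro Z u v
  let P : Polynomial K := evF (Polynomial K) f ((Z.submatrix e e).map Polynomial.C +
    vecMulVec (fun a => Polynomial.X * Polynomial.C (u (e a))) (fun a => Polynomial.C (v (e a))))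
  refine ⟨P, ?_, fun s => ?_⟩
  · refine Polynomial.natDegree_le_iff_coeff_eq_zero.2 fun j hj => ?_
    exact hf.2.2 (Z.submatrix e e) (fun a => u (e a)) (fun a => v (e a)) j hj
  · have h1 : P.eval s = (Polynomial.aeval s) P := by rw [Polynomial.coe_aeval_eq_eval]
    rw [h1]
    unfold fre evF
    change _ = (Polynomial.aeval s) (MvPolynomial.aeval _ f)
    rw [← AlgHom.comp_apply, MvPolynomial.comp_aeval]
    congr 2
    funext ab
    simp [Matrix.vecMulVec_apply]
    ring

end Pool.PI34.A5

end

/-! ### part A5_Piv -/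
section

/-! PI34, block A5, file Piv: rank one degree of the pivot. -/

set_option autoImplicit false

namespace Pool.PI34.A5

open Finset Matrix

variable {K : Type} [Field K] [Infinite K] {I J : Type} [Fintype I] [DecidableEq I] [Fintype J]
  [DecidableEq J]

/-- the identity of rational functions behind `pivot_RD`, entrywise -/
private theorem pivot_id' {K : Type} [Field K] (Zij s u v a z v0 uq wq h : K) (hw : wq ≠ 0)
    (hh : h ≠ 0) (e : h = wq + s * (uq * v0)) :
    Zij + s * (u * v) - h⁻¹ * ((a + s * (u * v0)) * (z + s * (uq * v))) =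
      Zij - wq⁻¹ * (a * z) +
        (s * h⁻¹) * ((u - wq⁻¹ * uq * a) * (wq * v - v0 * z)) := by
  field_simp
  rw [e]
  ring

private theorem pivot_id {K : Type} [Field K] (Zij s u v a z v0 uq wq : K) (hw : wq ≠ 0)
    (hh : wq + s * (uq * v0) ≠ 0) :
    Zij + s * (u * v) - (wq + s * (uq * v0))⁻¹ * ((a + s * (u * v0)) * (z + s * (uq * v))) =
      Zij - wq⁻¹ * (a * z) +
        (s * (wq + s * (uq * v0))⁻¹) * ((u - wq⁻¹ * uq * a) * (wq * v - v0 * z)) :=
  pivot_id' Zij s u v a z v0 uq wq _ hw hh rfl

/-- PROOF.  Fix `u, v`.  By `rd_expand`-style expansion (`poly_expand`) `g'(Z + s u vᵀ) = ∑_(j < D) c_j(Z) s^j`, `c_j` polynomial in `Z`; we must show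
`c_j = 0` for `j > k`; by `mat_mul_zero` (with `G Z = Z q j0`) it is enough to do this for `w_q := Z q j0 ≠ 0`.  Let `h = w_q + s u_q v_(j0)`,
`E_w` = identity with column `q` replaced by `w` (column `j0` of `Z`), `B_0 = E_w⁻¹ Z`, `u' = E_w⁻¹ u`, `v' = w_q v - v_(j0) z_q` (`z_q` = row `q` of `Z`).
For `h ≠ 0`: `E_(w + s v_(j0) u)⁻¹ (Z + s u vᵀ) = B_0 + (s/h) u' v'ᵀ`, i.e. in explicit form with `w' = w + s v_(j0) u`, `z' = z_q + s u_q v`:
`(Z + s u vᵀ) - h⁻¹ (w' - e_q) z'ᵀ = B_0 + (s/h) u' v'ᵀ`, `B_0 = Z - w_q⁻¹ (w - e_q) z_qᵀ`, `u' = u - w_q⁻¹ u_q (w - e_q)` (an identity of rational functions, check entrywise).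
So `g'(Z + s u vᵀ) = h^k g(B_0 + (s/h) u' v'ᵀ) = ∑_(j ≤ k) d_j s^j h^(k-j)` with constants `d_j` (`RD k g`), for all `s` with `h ≠ 0`, hence for all `s`: degree `≤ k`. -/
theorem pivot_RD (k : ℕ) (g g' : Matrix I J K → K) (hr : RD k g)
    (hg' : g' ∈ PolyFn (mcr K)) (q : I) (j0 : J) (h : ∀ Z, Z q j0 ≠ 0 →
      g' Z = (Z q j0) ^ k * g (Z - (Z q j0)⁻¹ •
        Matrix.vecMulVec (fun a => Z a j0 - (1 : Matrix I I K) a q) (fun b => Z q b))) :
    RD k g' := by
  classical
  intro Z u v
  -- the expansion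
  have hF : (fun p : Matrix I J K × K => g' (p.1 + p.2 • Matrix.vecMulVec u v)) ∈
      PolyFn (xt (mcr (I := I) (J := J) K)) := by
    refine comp_mem (mcr K) (xt (mcr (I := I) (J := J) K))
      (fun p : Matrix I J K × K => p.1 + p.2 • Matrix.vecMulVec u v) ?_ g' hg'
    intro ij
    have e : (fun t : Matrix I J K × K => mcr K (t.1 + t.2 • Matrix.vecMulVec u v) ij) =
        (fun t : Matrix I J K × K => xt (mcr (I := I) (J := J) K) t (some ij)) +
          (fun t : Matrix I J K × K => xt (mcr (I := I) (J := J) K) t none) *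
            (fun _ => u ij.1 * v ij.2) := by
      funext t
      simp [mcr, xt, Matrix.vecMulVec_apply]
    rw [e]
    exact Subalgebra.add_mem _ (coord_mem _ _)
      (Subalgebra.mul_mem _ (coord_mem _ _) (const_mem _ _))
  obtain ⟨D, cf, hcf, hexp⟩ := poly_expand (mcr (I := I) (J := J) K) _ hF
  simp only at hexp
  -- the coefficients of high index vanish when the pivot entry is nonzero
  have key : ∀ Z : Matrix I J K, Z q j0 ≠ 0 → ∀ j, k < j → j < D → cf j Z = 0 := by
    intro Z hZ j hkj hjD
    set wq : K := Z q j0 with hwq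
    set B0 : Matrix I J K := Z - (Z q j0)⁻¹ •
        Matrix.vecMulVec (fun a => Z a j0 - (1 : Matrix I I K) a q) (fun b => Z q b) with hB0
    set u' : I → K := fun a => u a - wq⁻¹ * u q * (Z a j0 - (1 : Matrix I I K) a q) with hu'
    set v' : J → K := fun b => wq * v b - v j0 * Z q b with hv'
    obtain ⟨pe, hpe, hpe2⟩ := hr B0 u' v'
    have hval : ∀ s : K, wq + s * (u q * v j0) ≠ 0 →
        g' (Z + s • Matrix.vecMulVec u v) =
          (wq + s * (u q * v j0)) ^ k * pe.eval (s * (wq + s * (u q * v j0))⁻¹) := by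
      intro s hs
      have h1 : (Z + s • Matrix.vecMulVec u v) q j0 = wq + s * (u q * v j0) := by
        simp [Matrix.vecMulVec_apply, hwq]
      have h2 := h (Z + s • Matrix.vecMulVec u v) (by rw [h1]; exact hs)
      rw [h2, h1, ← hpe2]
      congr 2
      ext a b
      have h3 := pivot_id (Z a b) s (u a) (v b) (Z a j0 - (1 : Matrix I I K) a q) (Z q b) (v j0)
        (u q) wq hZ hs
      simp only [Matrix.sub_apply, Matrix.add_apply, Matrix.smul_apply, Matrix.vecMulVec_apply,
        smul_eq_mul, hB0, hu', hv']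
      rw [← h3]
      ring
    -- the polynomial `P`
    let L : Polynomial K := Polynomial.C wq + Polynomial.X * Polynomial.C (u q * v j0)
    have hL0 : L ≠ 0 := by
      intro h0
      have := congrArg (Polynomial.eval 0) h0
      simp [L] at this
      exact hZ this
    have hLe : ∀ s, L.eval s = wq + s * (u q * v j0) := fun s => by simp [L]
    have hLd : L.natDegree ≤ 1 := by
      refine (Polynomial.natDegree_add_le _ _).trans ?_
      rw [Polynomial.natDegree_C]
      refine max_le (by omega) ?_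
      refine (Polynomial.natDegree_mul_C_le _ _).trans ?_
      exact Polynomial.natDegree_X_le
    let P : Polynomial K := ∑ i ∈ range (k + 1),
      Polynomial.C (pe.coeff i) * Polynomial.X ^ i * L ^ (k - i)
    let R : Polynomial K := ∑ i ∈ range D, Polynomial.C (cf i Z) * Polynomial.X ^ i
    have hPd : P.natDegree ≤ k := by
      refine Polynomial.natDegree_sum_le_of_forall_le _ _ fun i hi => ?_
      have hi' : i ≤ k := by have := Finset.mem_range.1 hi; omega
      refine (Polynomial.natDegree_mul_le).trans ?_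
      have h1 : (Polynomial.C (pe.coeff i) * Polynomial.X ^ i : Polynomial K).natDegree ≤ i :=
        Polynomial.natDegree_C_mul_X_pow_le _ _
      have h2 : (L ^ (k - i)).natDegree ≤ (k - i) * 1 :=
        (Polynomial.natDegree_pow_le).trans (Nat.mul_le_mul_left _ hLd)
      omega
    have hPR : (P - R) * L = 0 := by
      refine Polynomial.funext fun s => ?_
      rw [Polynomial.eval_mul, Polynomial.eval_sub, Polynomial.eval_zero]
      by_cases hs : wq + s * (u q * v j0) = 0
      · rw [hLe, hs, mul_zero]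
      · have h1 : R.eval s = g' (Z + s • Matrix.vecMulVec u v) := by
          rw [hexp Z s]
          simp [R, Polynomial.eval_finsetSum]
        have h3 : P.eval s = g' (Z + s • Matrix.vecMulVec u v) := by
          rw [hval s hs, Polynomial.eval_eq_sum_range' (p := pe) (n := k + 1) (by omega), Finset.mul_sum]
          simp only [P, Polynomial.eval_finsetSum, Polynomial.eval_mul, Polynomial.eval_C,
            Polynomial.eval_pow, Polynomial.eval_X, hLe]
          refine Finset.sum_congr rfl fun i hi => ?_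
          have hi' : i ≤ k := by have := Finset.mem_range.1 hi; omega
          have h4 : (wq + s * (u q * v j0)) ^ k =
              (wq + s * (u q * v j0)) ^ (k - i) * (wq + s * (u q * v j0)) ^ i := by
            rw [← pow_add]
            congr 1
            omega
          have h5 : (wq + s * (u q * v j0)) ^ i * ((wq + s * (u q * v j0))⁻¹) ^ i = 1 := by
            rw [← mul_pow, mul_inv_cancel₀ hs, one_pow]
          rw [h4, mul_pow]
          calc pe.coeff i * s ^ i * (wq + s * (u q * v j0)) ^ (k - i)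
              = (wq + s * (u q * v j0)) ^ (k - i) * (pe.coeff i * s ^ i) *
                ((wq + s * (u q * v j0)) ^ i * ((wq + s * (u q * v j0))⁻¹) ^ i) := by
                rw [h5]; ring
            _ = _ := by ring
        rw [h1, h3, sub_self, zero_mul]
    have hPR' : P = R := by
      rcases mul_eq_zero.1 hPR with h0 | h0
      · exact sub_eq_zero.1 h0
      · exact absurd h0 hL0
    have hc : R.coeff j = cf j Z := by
      simp only [R, Polynomial.finsetSum_coeff, Polynomial.coeff_C_mul, Polynomial.coeff_X_pow]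
      rw [Finset.sum_eq_single j]
      · simp
      · intro b _ hb
        rw [if_neg (fun e => hb e.symm), mul_zero]
      · intro hj
        exact absurd (Finset.mem_range.2 hjD) hj
    rw [← hc, ← hPR']
    exact Polynomial.coeff_eq_zero_of_natDegree_lt (lt_of_le_of_lt hPd hkj)
  have key2 : ∀ j, k < j → j < D → ∀ Z, cf j Z = 0 := by
    intro j hkj hjD
    refine mat_mul_zero (cf j) (fun Z => Z q j0) (hcf j) (coord_mem (mcr K) (q, j0)) ?_ ?_
    · intro Z
      by_cases hZ : Z q j0 = 0
      · simp [hZ]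
      · rw [key Z hZ j hkj hjD, zero_mul]
    · exact ⟨fun _ _ => 1, one_ne_zero⟩
  refine ⟨∑ i ∈ range D, Polynomial.C (cf i Z) * Polynomial.X ^ i, ?_, ?_⟩
  · refine Polynomial.natDegree_sum_le_of_forall_le _ _ fun i hi => ?_
    by_cases hi2 : k < i
    · rw [key2 i hi2 (Finset.mem_range.1 hi) Z]
      simp
    · exact (Polynomial.natDegree_C_mul_X_pow_le _ _).trans (by omega)
  · intro s
    rw [hexp Z s]
    simp [Polynomial.eval_finsetSum]

end Pool.PI34.A5

end

/-! ### part BA_E2 -/
section

/-! PI34, block BA, file E2: restriction of a package to the span of its values. -/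

set_option autoImplicit false

namespace Pool.PI34.BA

open Equiv Finset Matrix
open scoped TensorProduct

variable {X : Type} [Fintype X] [DecidableEq X] {k n : ℕ} {W : Type} [AddCommGroup W]

/-- the subgroup spanned by the values -/
def Pkg.L (P : Pkg X k n W) : Submodule ℤ W := Submodule.span ℤ (Set.range P.P)

/-- the family with values in `L` -/
noncomputable def Pkg.PL (P : Pkg X k n W) : Mon X n →₀ P.L :=
  Finsupp.onFinset P.P.support (fun ξ => ⟨P.P ξ, Submodule.subset_span ⟨ξ, rfl⟩⟩) (by
    intro ξ h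
    rw [Finsupp.mem_support_iff]
    intro h0
    exact h (Subtype.ext h0))

/-- naturality of `evW` in `W` -/
theorem evW_map {W' : Type} [AddCommGroup W'] (f : W →ₗ[ℤ] W') (P : Mon X n →₀ W) (T : Type)
    [CommRing T] (B : Matrix (Option (X × Fin n)) (Option (X × Fin n)) T) :
    evW (Finsupp.mapRange f (map_zero f) P) T B = f.lTensor T (evW P T B) := by
  unfold evW
  rw [Finsupp.sum_mapRange_index (fun a => TensorProduct.tmul_zero _ _)]
  unfold Finsupp.sum
  rw [map_sum]
  rfl

/-- naturality of `evW` in `T` -/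
theorem evW_base {T T' : Type} [CommRing T] [CommRing T'] (f : T →+* T') (P : Mon X n →₀ W)
    (B : Matrix (Option (X × Fin n)) (Option (X × Fin n)) T) :
    evW P T' (B.map f) = f.toAddMonoidHom.toIntLinearMap.rTensor W (evW P T B) := by
  have hm : ∀ ξ : Mon X n, evMon (B.map f) ξ = f (evMon B ξ) := fun ξ => by
    unfold evMon Finsupp.prod
    rw [map_prod]
    exact Finset.prod_congr rfl fun ab _ => (map_pow f (B ab.1 ab.2) (ξ ab)).symm
  unfold evW Finsupp.sum
  rw [map_sum]
  refine Finset.sum_congr rfl fun ξ _ => ?_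
  change evMon (B.map f) ξ ⊗ₜ[ℤ] P ξ = f (evMon B ξ) ⊗ₜ[ℤ] P ξ
  rw [hm]

theorem Pkg.PL_map (P : Pkg X k n W) :
    Finsupp.mapRange P.L.subtype (map_zero P.L.subtype) P.PL = P.P := by
  ext ξ
  rfl

theorem E2_sub (P : Pkg X k n W) (T : Type) [CommRing T]
    (B : Matrix (Option (X × Fin n)) (Option (X × Fin n)) T) :
    P.L.subtype.lTensor T (evW P.PL T B) = evW P.P T B := by
  rw [← evW_map, P.PL_map]

/-- the package restricted to `L`: `T ⊗ L → T ⊗ W` is injective for flat `T`
(`Module.Flat.lTensor_preserves_injective_linearMap`) -/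
theorem Pkg.restrict (P : Pkg X k n W) : ∃ Q : Pkg X k n P.L, Q.P = P.PL := by
  have hinj : ∀ (T : Type) [CommRing T] [Module.Flat ℤ T],
      Function.Injective (P.L.subtype.lTensor T) := fun T _ _ =>
    Module.Flat.lTensor_preserves_injective_linearMap _ P.L.injective_subtype
  refine ⟨⟨P.PL, fun ξ h => P.deg ξ fun h0 => h (Subtype.ext h0),
    fun T _ _ B h h' h1 h2 h3 => ?_, fun T _ _ B u v j hj => ?_⟩, rfl⟩
  · apply hinj T
    rw [E2_sub, E2_sub]
    exact P.inv T B h h' h1 h2 h3
  · apply hinj T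
    rw [map_zero, ← LinearMap.comp_apply, LinearMap.lTensor_comp_rTensor,
      ← LinearMap.rTensor_comp_lTensor, LinearMap.comp_apply, E2_sub]
    exact P.rank T B u v j hj

end Pool.PI34.BA

end

/-! ### part A5_CDb -/
section

/-! PI34, block A5, file CDb: invariance. -/

set_option autoImplicit false

namespace Pool.PI34.A5

open Finset Matrix Pool.PI34.BA

variable {K : Type} [Field K] [Infinite K] {X : Type} [Fintype X] [DecidableEq X]

/-- scaling the row and the column `none` -/
theorem evF_scale {k n : ℕ}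
    (f : MvPolynomial (Option (X × Fin n) × Option (X × Fin n)) K) (hf : f ∈ FF X k n K)
    (z z' : K) (hz : z' * z = 1) (C B : Matrix (Option (X × Fin n)) (Option (X × Fin n)) K)
    (hC : ∀ a b, C a b = (if a = none then z' else 1) * (if b = none then z else 1) * B a b) :
    evF K f C = evF K f B := by
  unfold evF
  rw [MvPolynomial.aeval_def, MvPolynomial.eval₂_eq, MvPolynomial.aeval_def,
    MvPolynomial.eval₂_eq]
  refine Finset.sum_congr rfl fun ξ hξ => ?_
  have h1 := hf.1 ξ (MvPolynomial.mem_support_iff.1 hξ)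
  congr 1
  have e1 : ∀ (D : Matrix (Option (X × Fin n)) (Option (X × Fin n)) K),
      (∏ i ∈ ξ.support, D i.1 i.2 ^ ξ i) = ∏ i, D i.1 i.2 ^ ξ i := by
    intro D
    refine Finset.prod_subset (Finset.subset_univ _) fun i _ hi => ?_
    rw [Finsupp.notMem_support_iff.1 hi, pow_zero]
  rw [e1, e1]
  have e2 : ∀ i : Option (X × Fin n) × Option (X × Fin n), C i.1 i.2 ^ ξ i =
      (if i.1 = none then z' else 1) ^ ξ i * (if i.2 = none then z else 1) ^ ξ i *
        B i.1 i.2 ^ ξ i := by
    intro i
    rw [hC, mul_pow, mul_pow]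
  rw [Finset.prod_congr rfl fun i _ => e2 i, Finset.prod_mul_distrib, Finset.prod_mul_distrib]
  have e3 : (∏ i : Option (X × Fin n) × Option (X × Fin n),
      (if i.1 = none then z' else 1) ^ ξ i) = z' := by
    rw [Fintype.prod_prod_type, Fintype.prod_option]
    have : (∏ x : X × Fin n, ∏ y : Option (X × Fin n),
        (if ((some x, y) : Option (X × Fin n) × Option (X × Fin n)).1 = none then z' else 1) ^
          ξ (some x, y)) = 1 := by
      refine Finset.prod_eq_one fun x _ => Finset.prod_eq_one fun y _ => ?_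
      simp
    rw [this, mul_one]
    simp only [if_true]
    rw [Finset.prod_pow_eq_pow_sum, h1.2.1, pow_one]
  have e4 : (∏ i : Option (X × Fin n) × Option (X × Fin n),
      (if i.2 = none then z else 1) ^ ξ i) = z := by
    rw [Fintype.prod_prod_type, Finset.prod_comm, Fintype.prod_option]
    have : (∏ x : X × Fin n, ∏ y : Option (X × Fin n),
        (if ((y, some x) : Option (X × Fin n) × Option (X × Fin n)).2 = none then z else 1) ^
          ξ (y, some x)) = 1 := by
      refine Finset.prod_eq_one fun x _ => Finset.prod_eq_one fun y _ => ?_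
      simp
    rw [this, mul_one]
    simp only [if_true]
    rw [Finset.prod_pow_eq_pow_sum, h1.2.2, pow_one]
  rw [e3, e4, hz, one_mul]

/-- PROOF.  A block matrix `g` (with inverse `g'`) is, in the index set `Option (X × Fin n)`, `z ⊕ h` with `z ≠ 0`, `h` block.  The invariance under `1 ⊕ h` is in the
definition of `FF`; under `z ⊕ 1`: the row `none` is multiplied with `z⁻¹` and the column `none` with `z`, and all the monomials of `f` have
degree one in the row `none` and in the column `none` (`GoodMon`). -/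
theorem fre_inv {k n N : ℕ} (e : Option (X × Fin n) ≃ Fin N)
    (f : MvPolynomial (Option (X × Fin n) × Option (X × Fin n)) K) (hf : f ∈ FF X k n K)
    (g g' : Blk (fun i => colN n (e.symm i)) K) (hg : g * g' = 1) (B : Matrix (Fin N) (Fin N) K) :
    fre e f (g'.1 * B * g.1) = fre e f B := by
  have hg1 : g.1 * g'.1 = 1 := congrArg Subtype.val hg
  have hg2 : g'.1 * g.1 = 1 := mul_eq_one_comm.1 hg1
  set G : Matrix (Option (X × Fin n)) (Option (X × Fin n)) K := g.1.submatrix e e with hG
  set G' : Matrix (Option (X × Fin n)) (Option (X × Fin n)) K := g'.1.submatrix e e with hG'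
  have h12 : G * G' = 1 := by
    rw [hG, hG', Matrix.submatrix_mul_equiv, hg1, Matrix.submatrix_one_equiv]
  have h21 : G' * G = 1 := by
    rw [hG, hG', Matrix.submatrix_mul_equiv, hg2, Matrix.submatrix_one_equiv]
  have hb : ∀ (γ : Blk (fun i => colN n (e.symm i)) K) (a b : Option (X × Fin n)),
      a.map Prod.fst ≠ b.map Prod.fst → γ.1 (e a) (e b) = 0 := by
    intro γ a b hab
    refine γ.2 (e a) (e b) ?_
    simp only [Equiv.symm_apply_apply]
    exact fun h => hab ((colN_iff n a b).1 h)
  have hbG : ∀ a b : Option (X × Fin n), a.map Prod.fst ≠ b.map Prod.fst → G a b = 0 :=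
    fun a b h => hb g a b h
  have hbG' : ∀ a b : Option (X × Fin n), a.map Prod.fst ≠ b.map Prod.fst → G' a b = 0 :=
    fun a b h => hb g' a b h
  let h : Matrix (X × Fin n) (X × Fin n) K := G.submatrix some some
  let h' : Matrix (X × Fin n) (X × Fin n) K := G'.submatrix some some
  let z := G none none
  let z' := G' none none
  have hzz : z' * z = 1 := by
    have := congrFun (congrFun h21 none) none
    rw [Matrix.mul_apply, Fintype.sum_option, Matrix.one_apply_eq] at this
    rw [Finset.sum_eq_zero (fun x _ => by rw [hbG' none (some x) (by simp), zero_mul]),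
      add_zero] at this
    exact this
  have hh : h * h' = 1 := by
    ext a b
    have := congrFun (congrFun h12 (some a)) (some b)
    rw [Matrix.mul_apply, Fintype.sum_option, hbG (some a) none (by simp), zero_mul,
      zero_add] at this
    rw [Matrix.mul_apply]
    refine this.trans ?_
    rw [Matrix.one_apply, Matrix.one_apply]
    simp
  have hh' : h' * h = 1 := mul_eq_one_comm.1 hh
  let C : Matrix (Option (X × Fin n)) (Option (X × Fin n)) K := Matrix.of fun a b =>
    (if a = none then z' else 1) * (if b = none then z else 1) * (B.submatrix e e) a b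
  have key : (g'.1 * B * g.1).submatrix e e = optDiag h' * C * optDiag h := by
    have e1 : (g'.1 * B * g.1).submatrix e e = G' * B.submatrix e e * G := by
      rw [hG, hG', Matrix.submatrix_mul_equiv, Matrix.submatrix_mul_equiv]
    rw [e1]
    have e2 : G' = optDiag h' * Matrix.diagonal (fun a => if a = none then z' else 1) := by
      ext a b
      rw [Matrix.mul_diagonal]
      rcases a with _ | a <;> rcases b with _ | b
      · simp [optDiag, z']
      · simp only [optDiag, Matrix.of_apply, zero_mul]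
        exact hbG' _ _ (by simp)
      · simp only [optDiag, Matrix.of_apply, zero_mul]
        exact hbG' _ _ (by simp)
      · simp [optDiag, h']
    have e3 : G = Matrix.diagonal (fun a => if a = none then z else 1) * optDiag h := by
      ext a b
      rw [Matrix.diagonal_mul]
      rcases a with _ | a <;> rcases b with _ | b
      · simp [optDiag, z]
      · simp only [optDiag, Matrix.of_apply, mul_zero]
        exact hbG _ _ (by simp)
      · simp only [optDiag, Matrix.of_apply, mul_zero]
        exact hbG _ _ (by simp)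
      · simp [optDiag, h]
    have e4 : C = Matrix.diagonal (fun a => if a = none then z' else 1) * B.submatrix e e *
        Matrix.diagonal (fun a => if a = none then z else 1) := by
      ext a b
      rw [Matrix.mul_diagonal, Matrix.diagonal_mul]
      simp only [C, Matrix.of_apply]
      ring
    rw [e4]
    nth_rewrite 1 [e2]
    nth_rewrite 1 [e3]
    simp only [Matrix.mul_assoc]
  unfold fre
  rw [key, hf.2.1 C h' h hh' hh ?_]
  · exact evF_scale f hf z z' hzz C (B.submatrix e e) fun a b => rfl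
  · intro a b hab
    refine hbG (some a) (some b) ?_
    simpa using hab

end Pool.PI34.A5

end

/-! ### part A5_FA -/
section

/-! PI34, block A5, file FA: `det(P)^k f(P⁻¹ Q)` is a polynomial. -/

set_option autoImplicit false

namespace Pool.PI34.A5

open Finset Matrix

variable {K : Type} [Field K] [Infinite K] {I : Type} [Fintype I] [DecidableEq I]

/-- the columns in `S` from `P`, the others from the identity -/
def colrep (P : Matrix I I K) (S : Finset I) : Matrix I I K :=
  Matrix.of fun a b => if b ∈ S then P a b else (1 : Matrix I I K) a b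

section fa

variable {K : Type} [Field K] {I : Type} [Fintype I] [DecidableEq I]

theorem FA_det_poly {T ι : Type} (x : T → ι → K) (Z : T → Matrix I I K)
    (h : ∀ i j, (fun t => Z t i j) ∈ PolyFn x) : (fun t => (Z t).det) ∈ PolyFn x := by
  have e : (fun t => (Z t).det) = ∑ σ : Equiv.Perm I, (fun _ => ((Equiv.Perm.sign σ : ℤ) : K)) *
      ∏ i, fun t => Z t (σ i) i := by
    funext t
    rw [Matrix.det_apply', Finset.sum_apply]
    refine Finset.sum_congr rfl fun σ _ => ?_
    rw [Pi.mul_apply, Finset.prod_apply]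
  rw [e]
  exact Subalgebra.sum_mem _ fun σ _ => Subalgebra.mul_mem _ (const_mem x _)
    (Subalgebra.prod_mem _ fun i _ => h _ _)

theorem FA_mul_poly {T ι J L : Type} (x : T → ι → K) (A : T → Matrix J I K)
    (B : T → Matrix I L K) (hA : ∀ i j, (fun t => A t i j) ∈ PolyFn x)
    (hB : ∀ i j, (fun t => B t i j) ∈ PolyFn x) (i : J) (j : L) :
    (fun t => (A t * B t) i j) ∈ PolyFn x := by
  have e : (fun t => (A t * B t) i j) = ∑ l, (fun t => A t i l) * fun t => B t l j := by
    funext t
    rw [Matrix.mul_apply, Finset.sum_apply]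
    rfl
  rw [e]
  exact Subalgebra.sum_mem _ fun l _ => Subalgebra.mul_mem _ (hA _ _) (hB _ _)

theorem FA_adj_poly {T ι : Type} (x : T → ι → K) (Z : T → Matrix I I K)
    (h : ∀ i j, (fun t => Z t i j) ∈ PolyFn x) (i j : I) :
    (fun t => (Z t).adjugate i j) ∈ PolyFn x := by
  have e : (fun t => (Z t).adjugate i j) =
      fun t => ((Z t).updateRow j (Pi.single i 1)).det := by
    funext t
    rw [Matrix.adjugate_apply]
  rw [e]
  refine FA_det_poly x _ fun a b => ?_
  by_cases ha : a = j
  · subst ha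
    have e2 : (fun t => ((Z t).updateRow a (Pi.single i 1)) a b) =
        fun _ => (Pi.single i (1 : K) : I → K) b := by
      funext t
      rw [Matrix.updateRow_self]
    rw [e2]
    exact const_mem x _
  · have e2 : (fun t => ((Z t).updateRow j (Pi.single i 1)) a b) = fun t => Z t a b := by
      funext t
      rw [Matrix.updateRow_ne ha]
    rw [e2]
    exact h a b

theorem FA_pow_mem {T ι : Type} (x : T → ι → K) (F : T → K) (hF : F ∈ PolyFn x) (n : ℕ) :
    (fun t => F t ^ n) ∈ PolyFn x := by
  have e : (fun t => F t ^ n) = F ^ n := by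
    funext t
    rw [Pi.pow_apply]
  rw [e]
  exact Subalgebra.pow_mem _ hF n

end fa

theorem FA_single (P : Matrix I I K) (q : I) {L : Type} (Z : Matrix I L K) (a : I) (b : L) :
    (colrep P {q} * Z) a b = Z a b + (P a q - (1 : Matrix I I K) a q) * Z q b := by
  have e : colrep P {q} = 1 + Matrix.vecMulVec (fun a => P a q - (1 : Matrix I I K) a q)
      (Pi.single q 1) := by
    ext a b
    rw [Matrix.add_apply, Matrix.vecMulVec_apply, colrep, Matrix.of_apply]
    by_cases hb : b = q
    · subst hb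
      rw [if_pos (Finset.mem_singleton_self _), Pi.single_eq_same]
      ring
    · rw [if_neg (by simpa using hb), Pi.single_eq_of_ne hb]
      ring
  rw [e, Matrix.add_mul, Matrix.add_apply, Matrix.one_mul]
  congr 1
  rw [Matrix.mul_apply]
  simp only [Matrix.vecMulVec_apply]
  rw [Finset.sum_eq_single q]
  · rw [Pi.single_eq_same, mul_one]
  · intro c _ hc
    rw [Pi.single_eq_of_ne hc, mul_zero, zero_mul]
  · intro h
    exact absurd (Finset.mem_univ q) h

/-- `E * (Z - h⁻¹ w z_qᵀ) = Z` -/
theorem FA_cancel (P : Matrix I I K) (q : I) (h : P q q ≠ 0) {L : Type} (Z : Matrix I L K) :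
    colrep P {q} * (Z - (P q q)⁻¹ •
      Matrix.vecMulVec (fun a => P a q - (1 : Matrix I I K) a q) (fun b => Z q b)) = Z := by
  ext a b
  rw [FA_single]
  simp only [Matrix.sub_apply, Matrix.smul_apply, Matrix.vecMulVec_apply, smul_eq_mul,
    Matrix.one_apply_eq]
  have hh : P q q * (P q q)⁻¹ = 1 := mul_inv_cancel₀ h
  linear_combination (-(P a q - (1 : Matrix I I K) a q) * Z q b) * hh

/-- `E_q(P) * colrep (E_q(P)⁻¹ P) T = colrep P (insert q T)` where `E_q(P) = colrep P {q}`, `q ∉ T`;
`E_q⁻¹ Z = Z - (P q q)⁻¹ (P e_q - e_q) z_qᵀ`. -/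
theorem colrep_step (P : Matrix I I K) (q : I) (T : Finset I) (hq : q ∉ T) (h : P q q ≠ 0) :
    colrep P {q} * colrep (P - (P q q)⁻¹ •
      Matrix.vecMulVec (fun a => P a q - (1 : Matrix I I K) a q) (fun b => P q b)) T =
    colrep P (insert q T) := by
  ext a b
  rw [FA_single]
  have h1 := congrFun (congrFun (FA_cancel P q h P) a) b
  rw [FA_single] at h1
  by_cases hb : b ∈ T
  · simp only [colrep, Matrix.of_apply, if_pos hb, if_pos (Finset.mem_insert_of_mem hb)]
    exact h1
  · by_cases hbq : b = q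
    · subst hbq
      simp only [colrep, Matrix.of_apply, if_neg hb, if_pos (Finset.mem_insert_self b T),
        Matrix.one_apply_eq]
      ring
    · simp only [colrep, Matrix.of_apply, if_neg hb, if_neg (show b ∉ insert q T by
        rw [Finset.mem_insert]; push Not; exact ⟨hbq, hb⟩)]
      rw [Matrix.one_apply_ne (Ne.symm hbq), mul_zero, add_zero]

theorem det_colrep_single (P : Matrix I I K) (q : I) : (colrep P {q}).det = P q q := by
  have e : colrep P {q} = (1 : Matrix I I K).updateCol q (fun a => P a q) := by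
    ext a b
    rw [colrep, Matrix.of_apply]
    by_cases hb : b = q
    · subst hb
      rw [if_pos (Finset.mem_singleton_self _), Matrix.updateCol_self]
    · rw [if_neg (by simpa using hb), Matrix.updateCol_ne hb]
  rw [e, ← Matrix.cramer_apply, Matrix.cramer_one]
  rfl

/-- PROOF.  `Finset.induction_on S`.  `S = ∅`: `F [P|Q] = f Q`.  Step `insert q S`: `F' = ` pivot of `F` (`pivot_exists`, `pivot_RD`) at the row `q`
and the column `inl q`.  For `P` with all `det (colrep P T) ≠ 0`, `T ⊆ insert q S`: `P q q = det (colrep P {q}) ≠ 0`, so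
`F' [P|Q] = (P q q)^k F [E⁻¹ P | E⁻¹ Q]`, `E = colrep P {q}`, and `E * colrep (E⁻¹ P) T = colrep P (insert q T)` (`colrep_step`), so the
hypothesis of the induction holds for `E⁻¹ P` and `(P q q)^k det(colrep (E⁻¹P) S)^k f((colrep (E⁻¹ P) S)⁻¹ E⁻¹ Q) = det(colrep P (insert q S))^k f(..)`. -/
theorem exists_FS (k : ℕ) (f : Matrix I I K → K) (hf : f ∈ PolyFn (mcr K)) (hr : RD k f)
    (S : Finset I) : ∃ F : Matrix I (I ⊕ I) K → K, F ∈ PolyFn (mcr K) ∧ RD k F ∧
      ∀ P Q : Matrix I I K, (∀ T ⊆ S, (colrep P T).det ≠ 0) →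
        F (Matrix.fromCols P Q) = (colrep P S).det ^ k * f ((colrep P S)⁻¹ * Q) := by
  induction S using Finset.induction_on with
  | empty =>
    refine ⟨fun Z => f Z.toCols₂, ?_, ?_, ?_⟩
    · exact comp_mem (mcr K) (mcr K) (fun Z : Matrix I (I ⊕ I) K => Z.toCols₂)
        (fun ij => coord_mem (mcr K) (ij.1, Sum.inr ij.2)) f hf
    · intro Z u v
      obtain ⟨p, hp, hp2⟩ := hr Z.toCols₂ u (fun j => v (Sum.inr j))
      refine ⟨p, hp, fun s => ?_⟩
      rw [← hp2 s]
      rfl
    · intro P Q _
      have e : colrep P ∅ = 1 := by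
        ext a b
        simp [colrep]
      rw [e]
      simp
  | insert q S hq ih =>
    obtain ⟨F, hF, hRD, hF2⟩ := ih
    obtain ⟨g', hg', hg2⟩ := pivot_exists k F hF hRD q (Sum.inl q)
    refine ⟨g', hg', pivot_RD k F g' hRD hg' q (Sum.inl q) hg2, ?_⟩
    intro P Q hPQ
    have hqq : P q q ≠ 0 := by
      rw [← det_colrep_single P q]
      exact hPQ {q} (Finset.singleton_subset_iff.2 (Finset.mem_insert_self q S))
    have hE : (colrep P {q}).det ≠ 0 := by
      rw [det_colrep_single]
      exact hqq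
    have h1 := hg2 (Matrix.fromCols P Q) hqq
    have h2 : Matrix.fromCols P Q - ((Matrix.fromCols P Q) q (Sum.inl q))⁻¹ •
        Matrix.vecMulVec (fun a => (Matrix.fromCols P Q) a (Sum.inl q) - (1 : Matrix I I K) a q)
          (fun b => (Matrix.fromCols P Q) q b) =
        Matrix.fromCols (P - (P q q)⁻¹ • Matrix.vecMulVec
          (fun a => P a q - (1 : Matrix I I K) a q) (fun b => P q b))
          (Q - (P q q)⁻¹ • Matrix.vecMulVec
          (fun a => P a q - (1 : Matrix I I K) a q) (fun b => Q q b)) := by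
      ext a b
      rcases b with b | b <;> rfl
    rw [h2] at h1
    have hT : ∀ T ⊆ S, (colrep (P - (P q q)⁻¹ • Matrix.vecMulVec
          (fun a => P a q - (1 : Matrix I I K) a q) (fun b => P q b)) T).det ≠ 0 := by
      intro T hT h0
      have h3 := congrArg Matrix.det (colrep_step P q T (fun h => hq (hT h)) hqq)
      rw [Matrix.det_mul, h0, mul_zero] at h3
      exact hPQ (insert q T) (Finset.insert_subset_insert q hT) h3.symm
    have h4 := hF2 _ (Q - (P q q)⁻¹ • Matrix.vecMulVec
          (fun a => P a q - (1 : Matrix I I K) a q) (fun b => Q q b)) hT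
    rw [h4] at h1
    rw [h1, ← colrep_step P q S hq hqq, Matrix.det_mul, det_colrep_single, mul_pow, mul_assoc]
    congr 2
    rw [Matrix.mul_inv_rev, Matrix.mul_assoc]
    nth_rewrite 3 [← FA_cancel P q hqq Q]
    rw [Matrix.nonsing_inv_mul_cancel_left _ _ (isUnit_iff_ne_zero.2 hE)]

theorem FA_adj_smul (d : ℕ) (f : Matrix I I K → K)
    (hd : ∀ (s : K) (B : Matrix I I K), f (s • B) = s ^ d * f B) (P Q : Matrix I I K)
    (hP : P.det ≠ 0) : f (P.adjugate * Q) = P.det ^ d * f (P⁻¹ * Q) := by
  rw [← hd, ← Matrix.smul_mul, Matrix.inv_def, smul_smul, Ring.mul_inverse_cancel _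
    (isUnit_iff_ne_zero.2 hP), one_smul]

/-- PROOF.  `exists_FS` with `S = univ`, `colrep P univ = P`; `f(adj(P) Q) = f(det(P) P⁻¹ Q) = det(P)^d f(P⁻¹ Q)`, so the identity holds when all the
`det (colrep P T) ≠ 0`; `mat_mul_zero` on `Matrix I (I ⊕ I) K` with `G [P|Q] = ∏_T det (colrep P T)` (nonzero at `P = 1`). -/
theorem exists_F (k d : ℕ) (f : Matrix I I K → K) (hf : f ∈ PolyFn (mcr K)) (hr : RD k f)
    (hd : ∀ (s : K) (B : Matrix I I K), f (s • B) = s ^ d * f B) :
    ∃ F : Matrix I (I ⊕ I) K → K, F ∈ PolyFn (mcr K) ∧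
      ∀ P Q : Matrix I I K, P.det ^ d * F (Matrix.fromCols P Q) =
        P.det ^ k * f (P.adjugate * Q) := by
  obtain ⟨F, hF, _, hF2⟩ := exists_FS k f hf hr univ
  refine ⟨F, hF, fun P Q => ?_⟩
  have hc1 : ∀ i j, (fun Z : Matrix I (I ⊕ I) K => Z.toCols₁ i j) ∈ PolyFn (mcr K) := fun i j =>
    coord_mem (mcr K) (i, Sum.inl j)
  have hc2 : ∀ i j, (fun Z : Matrix I (I ⊕ I) K => Z.toCols₂ i j) ∈ PolyFn (mcr K) := fun i j =>
    coord_mem (mcr K) (i, Sum.inr j)
  have hdet := FA_det_poly (mcr K) (fun Z : Matrix I (I ⊕ I) K => Z.toCols₁) hc1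
  have hadj : (fun Z : Matrix I (I ⊕ I) K => f (Z.toCols₁.adjugate * Z.toCols₂)) ∈
      PolyFn (mcr K) :=
    comp_mem (mcr K) (mcr K) (fun Z : Matrix I (I ⊕ I) K => Z.toCols₁.adjugate * Z.toCols₂)
      (fun ij => FA_mul_poly (mcr K) (fun Z : Matrix I (I ⊕ I) K => Z.toCols₁.adjugate)
        (fun Z => Z.toCols₂) (FA_adj_poly (mcr K) _ hc1) hc2 ij.1 ij.2) f hf
  have hH : (fun Z : Matrix I (I ⊕ I) K => Z.toCols₁.det ^ d * F Z -
      Z.toCols₁.det ^ k * f (Z.toCols₁.adjugate * Z.toCols₂)) ∈ PolyFn (mcr K) :=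
    Subalgebra.sub_mem _ (Subalgebra.mul_mem _ (FA_pow_mem _ _ hdet d) hF)
      (Subalgebra.mul_mem _ (FA_pow_mem _ _ hdet k) hadj)
  have hG : (fun Z : Matrix I (I ⊕ I) K => ∏ T : Finset I, (colrep Z.toCols₁ T).det) ∈
      PolyFn (mcr K) := by
    have e : (fun Z : Matrix I (I ⊕ I) K => ∏ T : Finset I, (colrep Z.toCols₁ T).det) =
        ∏ T : Finset I, fun Z : Matrix I (I ⊕ I) K => (colrep Z.toCols₁ T).det := by
      funext Z
      rw [Finset.prod_apply]
    rw [e]
    refine Subalgebra.prod_mem _ fun T _ => FA_det_poly (mcr K) _ fun i j => ?_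
    by_cases hj : j ∈ T
    · have e2 : (fun Z : Matrix I (I ⊕ I) K => colrep Z.toCols₁ T i j) =
          fun Z => Z.toCols₁ i j := by
        funext Z
        simp [colrep, hj]
      rw [e2]
      exact hc1 i j
    · have e2 : (fun Z : Matrix I (I ⊕ I) K => colrep Z.toCols₁ T i j) =
          fun _ => (1 : Matrix I I K) i j := by
        funext Z
        simp [colrep, hj]
      rw [e2]
      exact const_mem _ _
  have h0 := mat_mul_zero _ _ hH hG (fun Z => by
    by_cases hall : ∀ T : Finset I, (colrep Z.toCols₁ T).det ≠ 0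
    · have hu : colrep Z.toCols₁ univ = Z.toCols₁ := by
        ext a b
        simp [colrep]
      have h1 := hF2 Z.toCols₁ Z.toCols₂ (fun T _ => hall T)
      have hP := hall univ
      rw [hu] at h1 hP
      rw [Matrix.fromCols_toCols] at h1
      have h2 : Z.toCols₁.det ^ d * F Z -
          Z.toCols₁.det ^ k * f (Z.toCols₁.adjugate * Z.toCols₂) = 0 := by
        rw [h1, FA_adj_smul d f hd _ _ hP]
        ring
      change (Z.toCols₁.det ^ d * F Z -
          Z.toCols₁.det ^ k * f (Z.toCols₁.adjugate * Z.toCols₂)) * _ = 0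
      rw [h2, zero_mul]
    · push Not at hall
      obtain ⟨T, hT⟩ := hall
      change _ * ∏ T : Finset I, (colrep Z.toCols₁ T).det = 0
      rw [Finset.prod_eq_zero (Finset.mem_univ T) hT, mul_zero])
    ⟨Matrix.fromCols 1 0, by
      change ∏ T : Finset I, (colrep (Matrix.fromCols (1 : Matrix I I K)
        (0 : Matrix I I K)).toCols₁ T).det ≠ 0
      rw [Matrix.toCols₁_fromCols]
      refine Finset.prod_ne_zero_iff.2 fun T _ => ?_
      have e : colrep (1 : Matrix I I K) T = 1 := by
        ext a b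
        simp [colrep]
      rw [e, Matrix.det_one]
      exact one_ne_zero⟩ (Matrix.fromCols P Q)
  have h1 : P.det ^ d * F (Matrix.fromCols P Q) - P.det ^ k * f (P.adjugate * Q) = 0 := h0
  exact sub_eq_zero.1 h1

end Pool.PI34.A5

end

/-! ### part BA_E3 -/
section

/-! PI34, block BA, file E3: functionals give elements of `F_k(K)`; dimension bound. -/

set_option autoImplicit false
set_option linter.unusedSectionVars false

namespace Pool.PI34.BA

open Equiv Finset Matrix
open scoped TensorProduct

variable {X : Type} [Fintype X] [DecidableEq X] {k n : ℕ} {W : Type} [AddCommGroup W]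

/-- the polynomial `Σ φ(P_ξ) X^ξ` -/
noncomputable def fpoly {K : Type} [Field K] (P : Mon X n →₀ W) (φ : W →ₗ[ℤ] K) :
    MvPolynomial (Option (X × Fin n) × Option (X × Fin n)) K :=
  P.sum fun ξ w => MvPolynomial.monomial ξ (φ w)

theorem coeff_fpoly {K : Type} [Field K] (P : Mon X n →₀ W) (φ : W →ₗ[ℤ] K) (ξ : Mon X n) :
    (fpoly P φ).coeff ξ = φ (P ξ) := by
  classical
  unfold fpoly Finsupp.sum
  rw [MvPolynomial.coeff_sum]
  simp only [MvPolynomial.coeff_monomial]
  rw [Finset.sum_ite_eq' P.support ξ (fun ξ => φ (P ξ))]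
  by_cases h : ξ ∈ P.support
  · rw [if_pos h]
  · rw [if_neg h, Finsupp.notMem_support_iff.1 h, map_zero]

/-- the linear map `R ⊗ W → R`, `r ⊗ w ↦ r φ(w)` -/
noncomputable def contr {K : Type} [Field K] (R : Type) [CommRing R] [Algebra K R] (φ : W →ₗ[ℤ] K) :
    R ⊗[ℤ] W →ₗ[ℤ] R :=
  TensorProduct.lift ((LinearMap.mul ℤ R).compl₂
    ((algebraMap K R).toAddMonoidHom.toIntLinearMap ∘ₗ φ))

theorem E3_contr_tmul {K : Type} [Field K] (R : Type) [CommRing R] [Algebra K R]
    (φ : W →ₗ[ℤ] K) (r : R) (w : W) : contr R φ (r ⊗ₜ w) = r * algebraMap K R (φ w) := rfl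

theorem evF_fpoly {K : Type} [Field K] (R : Type) [CommRing R] [Algebra K R] (P : Mon X n →₀ W)
    (φ : W →ₗ[ℤ] K) (B : Matrix (Option (X × Fin n)) (Option (X × Fin n)) R) :
    evF R (fpoly P φ) B = contr R φ (evW P R B) := by
  unfold evF fpoly evW Finsupp.sum
  rw [map_sum, map_sum]
  refine Finset.sum_congr rfl fun ξ _ => ?_
  rw [E3_contr_tmul, MvPolynomial.aeval_monomial, mul_comm]
  rfl

theorem E3_optDiag_map {A T K : Type} [Fintype A] [DecidableEq A] [Ring T] [Ring K]
    (π : T →+* K) (h : Matrix A A T) : (optDiag h).map π = optDiag (h.map π) := by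
  ext a b
  rcases a with _ | a <;> rcases b with _ | b
  · show π 1 = 1
    exact map_one π
  · show π 0 = 0
    exact map_zero π
  · show π 0 = 0
    exact map_zero π
  · rfl

theorem E3_coeff_contr {K : Type} [Field K] (φ : W →ₗ[ℤ] K) (j : ℕ)
    (w : Polynomial K ⊗[ℤ] W) : (contr (Polynomial K) φ w).coeff j =
      contr K φ ((Polynomial.lcoeff K j).toAddMonoidHom.toIntLinearMap.rTensor W w) := by
  induction w using TensorProduct.induction_on with
  | zero => simp
  | add x y hx hy => rw [map_add, Polynomial.coeff_add, hx, hy, map_add, map_add]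
  | tmul r w =>
    rw [E3_contr_tmul, LinearMap.rTensor_tmul, E3_contr_tmul]
    show (r * Polynomial.C (φ w)).coeff j = r.coeff j * φ w
    rw [Polynomial.coeff_mul_C]

/-- PROOF.  Support: `coeff_fpoly`, `P.deg`.  Invariance: lift `B, h, h'` to the flat local ring `T` of
`exists_flat_lift` (`exists_lift_pair`), use `P.inv` over `T`, `evW_base` for `π`, `evF_fpoly`.
Rank: lift `B, u, v` to `T`, `P.rank` over `T`, `evW_base` for `T[X] → K[X]`. -/
theorem fpoly_mem {K : Type} [Field K] (P : Pkg X k n W) (φ : W →ₗ[ℤ] K) :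
    fpoly P.P φ ∈ FF X k n K := by
  obtain ⟨T, _, _, π, hs, hu⟩ := exists_flat_lift K
  refine ⟨fun ξ hξ => ?_, fun B h h' h1 h2 hb => ?_, fun B u v j hj => ?_⟩
  · rw [coeff_fpoly] at hξ
    exact P.deg ξ fun h0 => hξ (by rw [h0, map_zero])
  · obtain ⟨g, g', hg1, hg2, hgb, hg, hg'⟩ := exists_lift_pair π hs hu h h' h1 h2 hb
    let B' : Matrix (Option (X × Fin n)) (Option (X × Fin n)) T :=
      Matrix.of fun a b => (hs (B a b)).choose
    have hB' : B'.map π = B := by
      ext a b
      exact (hs (B a b)).choose_spec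
    have hinv := P.inv T B' g g' hg1 hg2 hgb
    have e1 := evW_base π P.P (optDiag g * B' * optDiag g')
    have e2 := evW_base π P.P B'
    rw [hinv, ← e2, hB'] at e1
    have e3 : (optDiag g * B' * optDiag g').map π = optDiag h * B * optDiag h' := by
      rw [Matrix.map_mul, Matrix.map_mul, hB', E3_optDiag_map, E3_optDiag_map, hg, hg']
    rw [e3] at e1
    rw [evF_fpoly, evF_fpoly, e1]
  · let B' : Matrix (Option (X × Fin n)) (Option (X × Fin n)) T :=
      Matrix.of fun a b => (hs (B a b)).choose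
    have hB' : ∀ a b, π (B' a b) = B a b := fun a b => (hs (B a b)).choose_spec
    let u' : Option (X × Fin n) → T := fun a => (hs (u a)).choose
    have hu' : ∀ a, π (u' a) = u a := fun a => (hs (u a)).choose_spec
    let v' : Option (X × Fin n) → T := fun a => (hs (v a)).choose
    have hv' : ∀ a, π (v' a) = v a := fun a => (hs (v a)).choose_spec
    have hr := P.rank T B' u' v' j hj
    set M : Matrix (Option (X × Fin n)) (Option (X × Fin n)) (Polynomial T) :=
      B'.map Polynomial.C + vecMulVec (fun a => Polynomial.X * Polynomial.C (u' a))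
        (fun a => Polynomial.C (v' a)) with hM
    have e3 : M.map (Polynomial.mapRingHom π) = B.map Polynomial.C +
        vecMulVec (fun a => Polynomial.X * Polynomial.C (u a))
          (fun a => Polynomial.C (v a)) := by
      ext1 a b
      simp only [hM, Matrix.map_apply, Matrix.add_apply, vecMulVec_apply, Polynomial.map_add,
        Polynomial.map_mul, Polynomial.coe_mapRingHom, Polynomial.map_C, Polynomial.map_X, hB',
        hu', hv']
    have e1 := evW_base (Polynomial.mapRingHom π) P.P M
    rw [e3] at e1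
    rw [evF_fpoly, E3_coeff_contr, e1]
    have e4 : ∀ w : Polynomial T ⊗[ℤ] W,
        (Polynomial.lcoeff K j).toAddMonoidHom.toIntLinearMap.rTensor W
          ((Polynomial.mapRingHom π).toAddMonoidHom.toIntLinearMap.rTensor W w) =
        π.toAddMonoidHom.toIntLinearMap.rTensor W
          ((Polynomial.lcoeff T j).toAddMonoidHom.toIntLinearMap.rTensor W w) := by
      intro w
      induction w using TensorProduct.induction_on with
      | zero => simp
      | add x y hx hy => simp only [map_add, hx, hy]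
      | tmul r w =>
        simp only [LinearMap.rTensor_tmul]
        congr 1
        show (Polynomial.map π r).coeff j = π (r.coeff j)
        rw [Polynomial.coeff_map]
    rw [e4, hr, map_zero, map_zero]

/-- `F_k(K)` is finite dimensional: the exponents satisfy `GoodMon`, a finite set. -/
theorem finite_FF (K : Type) [Field K] : Module.Finite K (FF X k n K) := by
  classical
  let s : Set (Mon X n) := {ξ | Finsupp.degree ξ ≤ n + 1}
  have hs : s.Finite := Finsupp.finite_of_degree_le (n + 1)
  have : Finite s := hs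
  have : Module.Finite K (MvPolynomial.restrictSupport K s) :=
    Module.Finite.of_basis (MvPolynomial.basisRestrictSupport K s)
  have hle : FF X k n K ≤ MvPolynomial.restrictSupport K s := by
    intro f hf
    rw [MvPolynomial.mem_restrictSupport_iff]
    intro ξ hξ
    have h1 : f.coeff ξ ≠ 0 := MvPolynomial.mem_support_iff.1 hξ
    have h2 := (hf.1 ξ h1).1
    show Finsupp.degree ξ ≤ n + 1
    rw [Finsupp.degree_apply]
    exact le_of_eq h2
  exact Module.Finite.of_injective (Submodule.inclusion hle) (Submodule.inclusion_injective hle)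

/-- DIMENSION BOUND: `Hom(L, K) → F_k(K)`, `φ ↦ Σ φ(P_ξ) X^ξ` is injective (`P.restrict`). -/
theorem finrank_hom_le (K : Type) [Field K] (P : Pkg X k n W) :
    Module.finrank K (P.L →ₗ[ℤ] K) ≤ Module.finrank K (FF X k n K) := by
  obtain ⟨Q, hQ⟩ := P.restrict
  have := finite_FF (X := X) (k := k) (n := n) K
  let Θ : (P.L →ₗ[ℤ] K) →ₗ[K] FF X k n K :=
    { toFun := fun φ => ⟨fpoly Q.P φ, fpoly_mem Q φ⟩
      map_add' := by
        intro φ ψ
        apply Subtype.ext
        show fpoly Q.P (φ + ψ) = fpoly Q.P φ + fpoly Q.P ψ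
        ext ξ
        rw [MvPolynomial.coeff_add, coeff_fpoly, coeff_fpoly, coeff_fpoly]
        rfl
      map_smul' := by
        intro c φ
        apply Subtype.ext
        show fpoly Q.P (c • φ) = c • fpoly Q.P φ
        ext ξ
        rw [MvPolynomial.coeff_smul, coeff_fpoly, coeff_fpoly]
        rfl }
  have hinj : Function.Injective Θ := by
    rw [injective_iff_map_eq_zero]
    intro φ h0
    have h1 : fpoly Q.P φ = 0 := congrArg Subtype.val h0
    have h2 : ∀ ξ, φ (P.PL ξ) = 0 := by
      intro ξ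
      rw [← hQ, ← coeff_fpoly, h1, MvPolynomial.coeff_zero]
    apply LinearMap.ext
    rintro ⟨w, hw⟩
    show φ ⟨w, hw⟩ = 0
    have key : ∀ w (hw : w ∈ Submodule.span ℤ (Set.range P.P)), φ ⟨w, hw⟩ = 0 := by
      intro w hw
      induction hw using Submodule.span_induction with
      | mem x hx =>
        obtain ⟨ξ, rfl⟩ := hx
        exact h2 ξ
      | zero => exact map_zero φ
      | add x y hx hy ihx ihy =>
        have : (⟨x + y, add_mem hx hy⟩ : P.L) = ⟨x, hx⟩ + ⟨y, hy⟩ := rfl
        exact (congrArg φ this).trans (by rw [map_add, ihx, ihy, add_zero])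
      | smul c x hx ih =>
        have : (⟨c • x, Submodule.smul_mem _ c hx⟩ : P.L) = c • (⟨x, hx⟩ : P.L) := rfl
        exact (congrArg φ this).trans (by rw [map_smul, ih, smul_zero])
    exact key w hw
  exact LinearMap.finrank_le_finrank_of_injective hinj

end Pool.PI34.BA

end

/-! ### part A5_FP -/
section

/-! PI34, block A5, file FP: properties of the polynomial `F [P|Q] = det(P)^k f(P⁻¹ Q)`. -/

set_option autoImplicit false

namespace Pool.PI34.A5

open Finset Matrix

variable {K : Type} [Field K] [Infinite K] {I : Type} [Fintype I] [DecidableEq I]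

/-- the coordinates of a product are polynomial, determinants are polynomial (used everywhere below) -/
theorem det_poly {T ι : Type} (x : T → ι → K) (Z : T → Matrix I I K)
    (h : ∀ i j, (fun t => Z t i j) ∈ PolyFn x) : (fun t => (Z t).det) ∈ PolyFn x :=
  FA_det_poly x Z h

theorem F_one (k d : ℕ) (f : Matrix I I K → K) (F : Matrix I (I ⊕ I) K → K)
    (h : ∀ P Q : Matrix I I K, P.det ^ d * F (Matrix.fromCols P Q) =
      P.det ^ k * f (P.adjugate * Q)) (B : Matrix I I K) : F (Matrix.fromCols 1 B) = f B := by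
  have h1 := h 1 B
  simpa using h1

theorem FP_c1 (i : I) (j : I) :
    (fun Z : Matrix I (I ⊕ I) K => Z.toCols₁ i j) ∈ PolyFn (mcr K) :=
  coord_mem (mcr K) (i, Sum.inl j)

theorem FP_c2 (i : I) (j : I) :
    (fun Z : Matrix I (I ⊕ I) K => Z.toCols₂ i j) ∈ PolyFn (mcr K) :=
  coord_mem (mcr K) (i, Sum.inr j)

theorem FP_c (i : I) (j : I ⊕ I) :
    (fun Z : Matrix I (I ⊕ I) K => Z i j) ∈ PolyFn (mcr K) :=
  coord_mem (mcr K) (i, j)

/-- density: an identity which holds after multiplication with `det(P)^d` -/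
theorem FP_dense (d : ℕ) (H : Matrix I (I ⊕ I) K → K) (hH : H ∈ PolyFn (mcr K))
    (h : ∀ Z : Matrix I (I ⊕ I) K, H Z * Z.toCols₁.det ^ d = 0) (Z : Matrix I (I ⊕ I) K) :
    H Z = 0 :=
  mat_mul_zero H (fun Z => Z.toCols₁.det ^ d) hH
    (FA_pow_mem _ _ (FA_det_poly (mcr K) _ FP_c1) d) h
    ⟨Matrix.fromCols 1 0, by
      change (Matrix.fromCols (1 : Matrix I I K) (0 : Matrix I I K)).toCols₁.det ^ d ≠ 0
      rw [Matrix.toCols₁_fromCols, Matrix.det_one, one_pow]
      exact one_ne_zero⟩ Z

/-- PROOF.  For `det g ≠ 0`: `det(gP)^d F(g [P|Q]) = det(gP)^k f(adj(P) adj(g) g Q) = det(gP)^k det(g)^d f(adj(P) Q) = det(gP)^d det(g)^k F [P|Q]`;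
cancel `det(gP)^d` (`mat_mul_zero` in `[P|Q]`).  Then for all `g`: `mat_mul_zero` in `g` with `G g = det g`. -/
theorem F_mul (k d : ℕ) (f : Matrix I I K → K) (F : Matrix I (I ⊕ I) K → K)
    (hF : F ∈ PolyFn (mcr K)) (hd : ∀ (s : K) (B : Matrix I I K), f (s • B) = s ^ d * f B)
    (h : ∀ P Q : Matrix I I K, P.det ^ d * F (Matrix.fromCols P Q) =
      P.det ^ k * f (P.adjugate * Q)) (g : Matrix I I K) (Z : Matrix I (I ⊕ I) K) :
    F (g * Z) = g.det ^ k * F Z := by
  have key : ∀ g : Matrix I I K, g.det ≠ 0 → ∀ Z : Matrix I (I ⊕ I) K,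
      F (g * Z) - g.det ^ k * F Z = 0 := by
    intro g hg
    refine FP_dense d (fun Z => F (g * Z) - g.det ^ k * F Z) ?_ ?_
    · refine Subalgebra.sub_mem _ ?_ (Subalgebra.mul_mem _ (const_mem _ _) hF)
      exact comp_mem (mcr K) (mcr K) (fun Z : Matrix I (I ⊕ I) K => g * Z)
        (fun ij => FA_mul_poly (mcr K) (fun _ => g) (fun Z => Z) (fun i j => const_mem _ _)
          FP_c ij.1 ij.2) F hF
    · intro Z
      have h1 := h (g * Z.toCols₁) (g * Z.toCols₂)
      have h2 := h Z.toCols₁ Z.toCols₂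
      rw [Matrix.fromCols_toCols] at h2
      have h3 : Matrix.fromCols (g * Z.toCols₁) (g * Z.toCols₂) = g * Z := by
        rw [← Matrix.mul_fromCols, Matrix.fromCols_toCols]
      have h4 : (g * Z.toCols₁).adjugate * (g * Z.toCols₂) =
          g.det • (Z.toCols₁.adjugate * Z.toCols₂) := by
        rw [Matrix.adjugate_mul_distrib, Matrix.mul_assoc, ← Matrix.mul_assoc g.adjugate,
          Matrix.adjugate_mul, Matrix.smul_mul, Matrix.one_mul, Matrix.mul_smul]
      rw [h3, h4, hd, Matrix.det_mul, mul_pow, mul_pow] at h1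
      have h5 : g.det ^ d ≠ 0 := pow_ne_zero _ hg
      have h6 : g.det ^ d * ((F (g * Z) - g.det ^ k * F Z) * Z.toCols₁.det ^ d) = 0 := by
        linear_combination h1 - g.det ^ d * g.det ^ k * h2
      exact (mul_eq_zero.1 h6).resolve_left h5
  have h1 := mat_mul_zero (fun g : Matrix I I K => F (g * Z) - g.det ^ k * F Z)
    (fun g => g.det) ?_ ?_ ?_ ⟨1, by rw [Matrix.det_one]; exact one_ne_zero⟩ g
  · exact sub_eq_zero.1 h1
  · refine Subalgebra.sub_mem _ ?_ (Subalgebra.mul_mem _
      (FA_pow_mem _ _ (FA_det_poly (mcr K) (fun g => g) fun i j => coord_mem (mcr K) (i, j)) k)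
      (const_mem _ _))
    exact comp_mem (mcr K) (mcr K) (fun g : Matrix I I K => g * Z)
      (fun ij => FA_mul_poly (mcr K) (fun g => g) (fun _ => Z)
        (fun i j => coord_mem (mcr K) (i, j)) (fun i j => const_mem _ _) ij.1 ij.2) F hF
  · exact FA_det_poly (mcr K) (fun g => g) fun i j => coord_mem (mcr K) (i, j)
  · intro g
    by_cases hg : g.det = 0
    · change _ * g.det = 0
      rw [hg, mul_zero]
    · change (F (g * Z) - g.det ^ k * F Z) * _ = 0
      rw [key g hg Z, zero_mul]

/-- the inverse of an invertible block matrix is a block matrix -/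
theorem FP_inv {N : ℕ} (c : Fin N → ℕ) (g : Blk c K) (hg : g.1.det ≠ 0) :
    ∃ g' : Blk c K, g * g' = 1 ∧ g'.1 = g.1⁻¹ := by
  have hu : IsUnit g.1.det := isUnit_iff_ne_zero.2 hg
  have hcomm : ∀ s : ℕ, g.1 * Matrix.diagonal (fun i => if c i = s then (1 : K) else 0) =
      Matrix.diagonal (fun i => if c i = s then (1 : K) else 0) * g.1 := by
    intro s
    ext i j
    rw [Matrix.mul_diagonal, Matrix.diagonal_mul]
    by_cases hij : c i = c j
    · rw [hij, mul_comm]
    · rw [g.2 i j hij, zero_mul, mul_zero]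
  have hcomm2 : ∀ s : ℕ, g.1⁻¹ * Matrix.diagonal (fun i => if c i = s then (1 : K) else 0) =
      Matrix.diagonal (fun i => if c i = s then (1 : K) else 0) * g.1⁻¹ := by
    intro s
    have h1 : g.1⁻¹ * (Matrix.diagonal (fun i => if c i = s then (1 : K) else 0) * g.1) * g.1⁻¹ =
        g.1⁻¹ * (g.1 * Matrix.diagonal (fun i => if c i = s then (1 : K) else 0)) * g.1⁻¹ := by
      rw [hcomm]
    rw [Matrix.nonsing_inv_mul_cancel_left _ _ hu, Matrix.mul_assoc,
      Matrix.mul_nonsing_inv_cancel_right _ _ hu] at h1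
    exact h1
  refine ⟨⟨g.1⁻¹, fun i j hij => ?_⟩, Subtype.ext (Matrix.mul_nonsing_inv _ hu), rfl⟩
  have h2 := congrFun (congrFun (hcomm2 (c i)) i) j
  rw [Matrix.mul_diagonal, Matrix.diagonal_mul, if_pos rfl, if_neg (Ne.symm hij), mul_zero,
    one_mul] at h2
  exact h2.symm

/-- PROOF.  Same: for invertible block `g`: `adj(Pg) Q g = adj(g) adj(P) Q g = det(g) g⁻¹ (adj(P) Q) g`, so
`det(Pg)^d F [Pg|Qg] = det(Pg)^k det(g)^d f(adj(P) Q) = det(Pg)^d det(g)^k F [P|Q]`.  Cancel; then for all block `g` by `blk_mul_zero`. -/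
theorem F_conj {N : ℕ} (c : Fin N → ℕ) (k d : ℕ) (f : Matrix (Fin N) (Fin N) K → K)
    (F : Matrix (Fin N) (Fin N ⊕ Fin N) K → K) (hF : F ∈ PolyFn (mcr K))
    (hd : ∀ (s : K) (B : Matrix (Fin N) (Fin N) K), f (s • B) = s ^ d * f B)
    (h : ∀ P Q : Matrix (Fin N) (Fin N) K, P.det ^ d * F (Matrix.fromCols P Q) =
      P.det ^ k * f (P.adjugate * Q))
    (hi : ∀ g g' : Blk c K, g * g' = 1 → ∀ B : Matrix (Fin N) (Fin N) K,
      f (g'.1 * B * g.1) = f B) (g : Blk c K) (P Q : Matrix (Fin N) (Fin N) K) :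
    F (Matrix.fromCols (P * g.1) (Q * g.1)) = g.1.det ^ k * F (Matrix.fromCols P Q) := by
  have key : ∀ g : Blk c K, g.1.det ≠ 0 → ∀ Z : Matrix (Fin N) (Fin N ⊕ Fin N) K,
      F (Matrix.fromCols (Z.toCols₁ * g.1) (Z.toCols₂ * g.1)) - g.1.det ^ k * F Z = 0 := by
    intro g hg
    obtain ⟨g', hgg, hg'⟩ := FP_inv c g hg
    refine FP_dense d (fun Z => F (Matrix.fromCols (Z.toCols₁ * g.1) (Z.toCols₂ * g.1)) -
      g.1.det ^ k * F Z) ?_ ?_
    · refine Subalgebra.sub_mem _ ?_ (Subalgebra.mul_mem _ (const_mem _ _) hF)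
      refine comp_mem (mcr K) (mcr K) (fun Z : Matrix (Fin N) (Fin N ⊕ Fin N) K =>
        Matrix.fromCols (Z.toCols₁ * g.1) (Z.toCols₂ * g.1)) ?_ F hF
      rintro ⟨i, j | j⟩
      · exact FA_mul_poly (mcr K) (fun Z : Matrix (Fin N) (Fin N ⊕ Fin N) K => Z.toCols₁)
          (fun _ => g.1) FP_c1 (fun i j => const_mem _ _) i j
      · exact FA_mul_poly (mcr K) (fun Z : Matrix (Fin N) (Fin N ⊕ Fin N) K => Z.toCols₂)
          (fun _ => g.1) FP_c2 (fun i j => const_mem _ _) i j
    · intro Z
      have h1 := h (Z.toCols₁ * g.1) (Z.toCols₂ * g.1)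
      have h2 := h Z.toCols₁ Z.toCols₂
      rw [Matrix.fromCols_toCols] at h2
      have h3 : g.1.adjugate = g.1.det • g'.1 := by
        rw [hg', Matrix.inv_def, smul_smul, Ring.mul_inverse_cancel _
          (isUnit_iff_ne_zero.2 hg), one_smul]
      have h4 : (Z.toCols₁ * g.1).adjugate * (Z.toCols₂ * g.1) =
          g.1.det • (g'.1 * (Z.toCols₁.adjugate * Z.toCols₂) * g.1) := by
        rw [Matrix.adjugate_mul_distrib, h3]
        simp only [Matrix.smul_mul, Matrix.mul_assoc]
      rw [h4, hd, hi g g' hgg, Matrix.det_mul, mul_pow, mul_pow] at h1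
      have h5 : g.1.det ^ d ≠ 0 := pow_ne_zero _ hg
      have h6 : g.1.det ^ d * ((F (Matrix.fromCols (Z.toCols₁ * g.1) (Z.toCols₂ * g.1)) -
          g.1.det ^ k * F Z) * Z.toCols₁.det ^ d) = 0 := by
        linear_combination h1 - g.1.det ^ d * g.1.det ^ k * h2
      exact (mul_eq_zero.1 h6).resolve_left h5
  have h1 := blk_mul_zero (fun g : Blk c K => F (Matrix.fromCols (P * g.1) (Q * g.1)) -
      g.1.det ^ k * F (Matrix.fromCols P Q))
    (fun g => g.1.det) ?_ ?_ ?_ ⟨1, by
      change (1 : Matrix (Fin N) (Fin N) K).det ≠ 0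
      rw [Matrix.det_one]
      exact one_ne_zero⟩ g
  · exact sub_eq_zero.1 h1
  · refine Subalgebra.sub_mem _ ?_ (Subalgebra.mul_mem _
      (FA_pow_mem _ _ (FA_det_poly (crd c K) (fun g => g.1) fun i j =>
        coord_mem (crd c K) (i, j)) k) (const_mem _ _))
    refine comp_mem (mcr K) (crd c K) (fun g : Blk c K =>
        Matrix.fromCols (P * g.1) (Q * g.1)) ?_ F hF
    rintro ⟨i, j | j⟩
    · exact FA_mul_poly (crd c K) (fun _ => P) (fun g => g.1) (fun i j => const_mem _ _)
        (fun i j => coord_mem (crd c K) (i, j)) i j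
    · exact FA_mul_poly (crd c K) (fun _ => Q) (fun g => g.1) (fun i j => const_mem _ _)
        (fun i j => coord_mem (crd c K) (i, j)) i j
  · exact FA_det_poly (crd c K) (fun g => g.1) fun i j => coord_mem (crd c K) (i, j)
  · intro g
    by_cases hg : g.1.det = 0
    · change _ * g.1.det = 0
      rw [hg, mul_zero]
    · have h2 := key g hg (Matrix.fromCols P Q)
      rw [Matrix.toCols₁_fromCols, Matrix.toCols₂_fromCols] at h2
      change (F (Matrix.fromCols (P * g.1) (Q * g.1)) -
        g.1.det ^ k * F (Matrix.fromCols P Q)) * _ = 0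
      rw [h2, zero_mul]

end Pool.PI34.A5

end

/-! ### part BA_E5 -/
section

/-! PI34, block BA, file E5: relations pass from the generic matrices to every package. -/

set_option autoImplicit false

namespace Pool.PI34.BA

open Equiv Finset Matrix
open scoped TensorProduct

/-- GLUING.  `P` a package in `W × W'`, `W'` torsion free, such that the span of the second components has rank
at least `dim F_k(K)` for all infinite fields `K`.  Then every relation between the second components holds for
the first components.  (`L → L'`, `L` = span of the `P_ξ`, `L'` = span of the second components, is surjective;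
`finrank_hom_le`, `injective_of_finrank`.) -/
theorem glue {X : Type} [Fintype X] [DecidableEq X] {k n : ℕ} {W W' : Type} [AddCommGroup W]
    [AddCommGroup W'] [NoZeroSMulDivisors ℤ W'] (P : Pkg X k n (W × W'))
    (hA5 : ∀ (K : Type) [Field K] [Infinite K], Module.finrank K (FF X k n K) ≤
      Module.finrank ℤ (Submodule.span ℤ (Set.range fun ξ => (P.P ξ).2)))
    {J : Type} [Fintype J] (c : J → ℤ) (ξ : J → Mon X n)
    (h : ∑ j, c j • (P.P (ξ j)).2 = 0) : ∑ j, c j • (P.P (ξ j)).1 = 0 := by
  classical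
  have hfin : (Set.range P.P).Finite := by
    refine ((P.P.support.finite_toSet.image P.P).union (Set.finite_singleton 0)).subset ?_
    rintro _ ⟨a, rfl⟩
    by_cases ha : P.P a = 0
    · exact Or.inr ha
    · exact Or.inl ⟨a, Finsupp.mem_support_iff.2 ha, rfl⟩
  have : Module.Finite ℤ P.L := Module.Finite.span_of_finite ℤ hfin
  have hL : P.L.map (LinearMap.snd ℤ W W') =
      Submodule.span ℤ (Set.range fun ξ => (P.P ξ).2) := by
    change (Submodule.span ℤ (Set.range P.P)).map (LinearMap.snd ℤ W W') = _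
    rw [Submodule.map_span, ← Set.range_comp]
    rfl
  have : NoZeroSMulDivisors ℤ (Submodule.span ℤ (Set.range fun ξ => (P.P ξ).2)) := by
    refine ⟨fun {a y} hay => ?_⟩
    have h1 : a • (y : W') = 0 := congrArg Subtype.val hay
    rcases smul_eq_zero.1 h1 with h2 | h2
    · exact Or.inl h2
    · exact Or.inr (Subtype.ext h2)
  have hmem : ∀ x : P.L, (x : W × W').2 ∈
      Submodule.span ℤ (Set.range fun ξ => (P.P ξ).2) := by
    intro x
    have h1 : (LinearMap.snd ℤ W W') (x : W × W') ∈ P.L.map (LinearMap.snd ℤ W W') :=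
      Submodule.mem_map_of_mem x.2
    rw [hL] at h1
    exact h1
  let f : P.L →ₗ[ℤ] Submodule.span ℤ (Set.range fun ξ => (P.P ξ).2) :=
    LinearMap.codRestrict _ ((LinearMap.snd ℤ W W') ∘ₗ P.L.subtype) hmem
  have hf : Function.Surjective f := by
    rintro ⟨y, hy⟩
    have h1 : y ∈ P.L.map (LinearMap.snd ℤ W W') := by
      rw [hL]
      exact hy
    obtain ⟨x, hx, rfl⟩ := h1
    exact ⟨⟨x, hx⟩, rfl⟩
  have hinj : Function.Injective f :=
    injective_of_finrank f hf fun K _ _ => (finrank_hom_le K P).trans (hA5 K)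
  have hS : ∑ j, c j • P.P (ξ j) ∈ P.L :=
    Submodule.sum_mem _ fun j _ => Submodule.smul_mem _ _ (Submodule.subset_span ⟨ξ j, rfl⟩)
  have h0 : (⟨∑ j, c j • P.P (ξ j), hS⟩ : P.L) = 0 := by
    apply hinj
    rw [map_zero]
    apply Subtype.ext
    change (∑ j, c j • P.P (ξ j)).2 = 0
    rw [Prod.snd_sum, ← h]
    rfl
  have h1 : ∑ j, c j • P.P (ξ j) = 0 := congrArg Subtype.val h0
  have h2 := congrArg Prod.fst h1
  rw [Prod.fst_sum] at h2
  exact h2

end Pool.PI34.BA

end
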