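import Mathlib
import Pool.Agent.LibPI54.M20
import Pool.Agent.LibPI54.M29

/-! ### part A5_DDef -/
section

/-! PI34, block A5, file DDef: interface between the lift (C) and the block (D). -/

set_option autoImplicit false

namespace Pool.PI34.A5

open Finset Matrix

variable {A S R : Type} [Fintype A] [DecidableEq A] [CommRing R] {k : ℕ}

/-- `∑_ψ Θ(ψ) ∏_{(r,a)} (B_r)_{a,ψ(r,a)}` (factor `1` if `ψ(r,a) = none`) -/
def fT (Th : (Fin k × A → Option A) → R) (B : Fin k → Matrix A A R) : R :=
  ∑ ψ : Fin k × A → Option A, Th ψ * ∏ x : Fin k × A, (ψ x).elim 1 (fun b => B x.1 x.2 b)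

/-- alternation in the rows of `B_r` -/
def AltC (Th : (Fin k × A → Option A) → R) : Prop :=
  ∀ (ψ : Fin k × A → Option A) (r : Fin k) (a a' : A), a ≠ a' → ψ (r, a) ≠ none →
    ψ (r, a') ≠ none → Th (ψ ∘ Equiv.swap (r, a) (r, a')) = - Th ψ ∧
      (ψ (r, a) = ψ (r, a') → Th ψ = 0)

/-- invariance: `f~(B g) = f~(g B)` for all block matrices `g` -/
def LI (c : A → S) (Th : (Fin k × A → Option A) → R) : Prop :=
  ∀ g : Matrix A A R, (∀ a b, c a ≠ c b → g a b = 0) → ∀ B : Fin k → Matrix A A R,
    fT Th (fun r => B r * g) = fT Th (fun r => g * B r)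

end Pool.PI34.A5

end

/-! ### part A5_C0 -/
section

/-! PI34, block A5, file C0: `F` as an element of `nab λ_0`. -/

set_option autoImplicit false

namespace Pool.PI34.A5

open Finset Matrix

variable {K : Type} [Field K] [Infinite K] {N : ℕ}

/-- the weight `(0^N, k^N)` -/
def lam0 (N k : ℕ) : Fin (N + N) → ℕ := fun i => if (i : ℕ) < N then 0 else k

/-- the last `N` rows -/
def lastRows (Z : Matrix (Fin (N + N)) (Fin (N + N)) K) : Matrix (Fin N) (Fin N ⊕ Fin N) K :=
  Matrix.of fun a b => Z (Fin.natAdd N a) (finSumFinEquiv b)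

omit [Infinite K] in
private theorem lastRows_mul (X Z : Matrix (Fin (N + N)) (Fin (N + N)) K)
    (h : ∀ a l : Fin N, X (Fin.natAdd N a) (Fin.castAdd N l) = 0) :
    lastRows (X * Z) = (Matrix.of fun a b : Fin N => X (Fin.natAdd N a) (Fin.natAdd N b)) *
      lastRows Z := by
  ext a b
  rw [Matrix.mul_apply]
  change (X * Z) (Fin.natAdd N a) (finSumFinEquiv b) = _
  rw [Matrix.mul_apply, Fin.sum_univ_add]
  rw [Finset.sum_eq_zero (fun l _ => by rw [h a l, zero_mul]), zero_add]
  rfl

omit [Infinite K] in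
private theorem tw_lam0 (t : Fin (N + N) → K) (k : ℕ) :
    tw t (lam0 N k) = (∏ a : Fin N, t (Fin.natAdd N a)) ^ k := by
  unfold tw lam0
  rw [Fin.prod_univ_add, ← Finset.prod_pow]
  have h1 : ∀ i : Fin N, t (Fin.castAdd N i) ^ (if ((Fin.castAdd N i : Fin (N + N)) : ℕ) < N
      then 0 else k) = 1 := by
    intro i
    rw [if_pos (by simp), pow_zero]
  have h2 : ∀ i : Fin N, t (Fin.natAdd N i) ^ (if ((Fin.natAdd N i : Fin (N + N)) : ℕ) < N
      then 0 else k) = t (Fin.natAdd N i) ^ k := by
    intro i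
    rw [if_neg (by simp)]
  rw [Finset.prod_congr rfl fun i _ => h1 i, Finset.prod_congr rfl fun i _ => h2 i,
    Finset.prod_const_one, one_mul]

/-- PROOF.  `lastRows (u Z) = u22 * lastRows Z` with `u22` the lower right block, upper unitriangular, determinant `1`;
`lastRows (dg t Z) = diag (t (natAdd a)) * lastRows Z`, `∏ t (natAdd a) ^ k = t^(λ_0)` (`Fin.prod_univ_add`). -/
theorem Fnab (k : ℕ) (F : Matrix (Fin N) (Fin N ⊕ Fin N) K → K) (hF : F ∈ PolyFn (mcr K))
    (h1 : ∀ (g : Matrix (Fin N) (Fin N) K) Z, F (g * Z) = g.det ^ k * F Z) :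
    (fun Z : Blk (c0 (N + N)) K => F (lastRows Z.1)) ∈ nabS (c0 (N + N)) K (lam0 N k) := by
  refine ⟨?_, ?_, ?_⟩
  · refine comp_mem (mcr K) (crd (c0 (N + N)) K) (fun Z => lastRows Z.1) ?_ F hF
    rintro ⟨a, b⟩
    exact coord_mem (crd (c0 (N + N)) K) (Fin.natAdd N a, finSumFinEquiv b)
  · intro u Z hu
    change F (lastRows (u.1 * Z.1)) = F (lastRows Z.1)
    rw [lastRows_mul u.1 Z.1 (fun a l => hu.2 _ _ (by
      rw [Fin.lt_def, Fin.val_castAdd, Fin.val_natAdd]
      have := l.2
      omega)), h1]
    have hd : (Matrix.of fun a b : Fin N => u.1 (Fin.natAdd N a) (Fin.natAdd N b)).det = 1 := by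
      rw [Matrix.det_of_upperTriangular]
      · exact Finset.prod_eq_one fun i _ => hu.1 _
      · intro a b hab
        exact hu.2 _ _ (by
          rw [Fin.lt_def, Fin.val_natAdd, Fin.val_natAdd]
          have : (b : ℕ) < a := hab
          omega)
    rw [hd, one_pow, one_mul]
  · intro t Z
    change F (lastRows ((dg (c0 (N + N)) t).1 * Z.1)) = _
    have hdg : ∀ a b, (dg (c0 (N + N)) t).1 a b = Matrix.diagonal t a b := fun a b => rfl
    rw [lastRows_mul _ Z.1 (fun a l => by
      rw [hdg, Matrix.diagonal_apply_ne]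
      intro h
      have := congrArg Fin.val h
      rw [Fin.val_castAdd, Fin.val_natAdd] at this
      have := l.2
      omega), h1, tw_lam0]
    congr 2
    have e : (Matrix.of fun a b : Fin N =>
        (dg (c0 (N + N)) t).1 (Fin.natAdd N a) (Fin.natAdd N b)) =
        Matrix.diagonal fun a => t (Fin.natAdd N a) := by
      ext a b
      rw [Matrix.of_apply, hdg]
      by_cases hab : a = b
      · subst hab
        rw [Matrix.diagonal_apply_eq, Matrix.diagonal_apply_eq]
      · rw [Matrix.diagonal_apply_ne _ hab, Matrix.diagonal_apply_ne]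
        intro h
        apply hab
        apply Fin.ext
        have := congrArg Fin.val h
        rw [Fin.val_natAdd, Fin.val_natAdd] at this
        omega
    rw [e, Matrix.det_diagonal]

omit [Infinite K] in
private theorem lastRows_dbl (c : Fin N → ℕ) (g : Blk c K)
    (Z : Matrix (Fin (N + N)) (Fin (N + N)) K) :
    lastRows (Z * dblN c K g) =
      Matrix.fromCols ((lastRows Z).toCols₁ * g.1) ((lastRows Z).toCols₂ * g.1) := by
  ext a b
  change (Z * dblN c K g) (Fin.natAdd N a) (finSumFinEquiv b) = _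
  rw [Matrix.mul_apply, ← Equiv.sum_comp finSumFinEquiv, Fintype.sum_sum_type]
  have hd : ∀ x y, dblN c K g (finSumFinEquiv x) (finSumFinEquiv y) =
      Matrix.fromBlocks g.1 0 0 g.1 x y := by
    intro x y
    change (Matrix.fromBlocks g.1 0 0 g.1) (finSumFinEquiv.symm (finSumFinEquiv x))
      (finSumFinEquiv.symm (finSumFinEquiv y)) = _
    rw [Equiv.symm_apply_apply, Equiv.symm_apply_apply]
  rcases b with b | b
  · rw [Matrix.fromCols_apply_inl, Matrix.mul_apply]
    have z : ∀ x : Fin N, Z (Fin.natAdd N a) (finSumFinEquiv (Sum.inr x)) *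
        dblN c K g (finSumFinEquiv (Sum.inr x)) (finSumFinEquiv (Sum.inl b)) = 0 := by
      intro x
      rw [hd, Matrix.fromBlocks_apply₂₁, Matrix.zero_apply, mul_zero]
    rw [Finset.sum_eq_zero (fun x (_ : x ∈ Finset.univ) => z x), add_zero]
    refine Finset.sum_congr rfl fun x _ => ?_
    rw [hd, Matrix.fromBlocks_apply₁₁]
    rfl
  · rw [Matrix.fromCols_apply_inr, Matrix.mul_apply]
    have z : ∀ x : Fin N, Z (Fin.natAdd N a) (finSumFinEquiv (Sum.inl x)) *
        dblN c K g (finSumFinEquiv (Sum.inl x)) (finSumFinEquiv (Sum.inr b)) = 0 := by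
      intro x
      rw [hd, Matrix.fromBlocks_apply₁₂, Matrix.zero_apply, mul_zero]
    rw [Finset.sum_eq_zero (fun x (_ : x ∈ Finset.univ) => z x), zero_add]
    refine Finset.sum_congr rfl fun x _ => ?_
    rw [hd, Matrix.fromBlocks_apply₂₂]
    rfl

/-- PROOF.  `lastRows (Z * dbl g) = [P g | Q g]` for `lastRows Z = [P | Q]`; the determinant of an `IsLo` matrix is `1`, of `dg t` it is `∏ t`. -/
theorem Fnab_hs (c : Fin N → ℕ) (k : ℕ) (F : Matrix (Fin N) (Fin N ⊕ Fin N) K → K)
    (hF : F ∈ PolyFn (mcr K))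
    (h1 : ∀ (g : Matrix (Fin N) (Fin N) K) Z, F (g * Z) = g.det ^ k * F Z)
    (h2 : ∀ (g : Blk c K) (P Q : Matrix (Fin N) (Fin N) K),
      F (Matrix.fromCols (P * g.1) (Q * g.1)) = g.1.det ^ k * F (Matrix.fromCols P Q)) :
    (⟨_, Fnab k F hF h1⟩ : nabS (c0 (N + N)) K (lam0 N k)) ∈
      (rs c (nab (c0 (N + N)) K (lam0 N k))).hs (fun _ => k) := by
  have key : ∀ (g : Blk c K) (Z : Matrix (Fin (N + N)) (Fin (N + N)) K),
      F (lastRows (Z * dblN c K g)) = g.1.det ^ k * F (lastRows Z) := by
    intro g Z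
    rw [lastRows_dbl, h2, Matrix.fromCols_toCols]
  refine ⟨?_, ?_⟩
  · intro t
    apply Subtype.ext
    funext Z
    change F (lastRows (Z.1 * dblN c K (dg c t))) = tw t (fun _ => k) * F (lastRows Z.1)
    rw [key]
    congr 1
    change (Matrix.diagonal t).det ^ k = _
    rw [Matrix.det_diagonal, ← Finset.prod_pow]
    rfl
  · intro g hg
    apply Subtype.ext
    funext Z
    change F (lastRows (Z.1 * dblN c K g)) = F (lastRows Z.1)
    rw [key]
    have hd : g.1.det = 1 := by
      rw [Matrix.det_of_lowerTriangular]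
      · exact Finset.prod_eq_one fun i _ => hg.1 i
      · intro a b hab
        exact hg.2 _ _ (by simpa using hab)
    rw [hd, one_pow, one_mul]

end Pool.PI34.A5

end

/-! ### part A5_C1 -/
section

/-! PI34, block A5, file C1: the representation `Y_k` (iterated exterior power), evaluation. -/

set_option autoImplicit false

namespace Pool.PI34.A5

open Finset Matrix

variable {K : Type} [Field K] [Infinite K] {N : ℕ}

/-- iterated exterior powers -/
noncomputable def Yk (N : ℕ) (K : Type) [Field K] : ℕ → PRep (c0 (N + N)) K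
  | 0 => triv (c0 (N + N)) K
  | k + 1 => altI (Yk N K k) N

/-- evaluation at `k` tuples of `N` row vectors -/
noncomputable def evk (N : ℕ) (K : Type) [Field K] :
    (k : ℕ) → (Fin k → Fin N → Fin (N + N) → K) → ((Yk N K k).V →ₗ[K] K)
  | 0, _ => (LinearMap.id : K →ₗ[K] K)
  | k + 1, R => evk N K k (fun r => R r.succ) ∘ₗ
      ({ toFun := fun ω => ω (R 0), map_add' := fun _ _ => rfl, map_smul' := fun _ _ => rfl } :
        ((Fin (N + N) → K) [⋀^Fin N]→ₗ[K] (Yk N K k).V) →ₗ[K] (Yk N K k).V)

theorem evk_succ (k : ℕ) (R : Fin (k + 1) → Fin N → Fin (N + N) → K)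
    (ω : (Fin (N + N) → K) [⋀^Fin N]→ₗ[K] (Yk N K k).V) :
    evk N K (k + 1) R ω = evk N K k (fun r => R r.succ) (ω (R 0)) := rfl

/-- alternating in each of the tuples -/
def IsMA {k N : ℕ} {J : Type} (ω : (Fin k → Fin N → J → K) → K) : Prop :=
  ∀ (r : Fin k) (R : Fin k → Fin N → J → K), ∃ μ : (J → K) [⋀^Fin N]→ₗ[K] K,
    ∀ v : Fin N → J → K, ω (Function.update R r v) = μ v

/-- induction on `k` -/
theorem evk_MA (k : ℕ) (y : (Yk N K k).V) : IsMA (fun R => evk N K k R y) := by
  induction k with
  | zero => exact fun r => r.elim0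
  | succ k ih =>
    intro r R
    refine Fin.cases ?_ (fun r' => ?_) r
    · refine ⟨(evk N K k (fun r => R r.succ)).compAlternatingMap
        (show (Fin (N + N) → K) [⋀^Fin N]→ₗ[K] (Yk N K k).V from y), fun v => ?_⟩
      have h1 : (fun s : Fin k => Function.update R 0 v s.succ) = fun s => R s.succ := by
        funext s
        rw [Function.update_of_ne (Fin.succ_ne_zero s)]
      change evk N K k (fun s => Function.update R 0 v s.succ)
        ((show (Fin (N + N) → K) [⋀^Fin N]→ₗ[K] (Yk N K k).V from y)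
          (Function.update R 0 v 0)) = _
      rw [h1, Function.update_self]
      rfl
    · obtain ⟨μ, hμ⟩ := ih
        ((show (Fin (N + N) → K) [⋀^Fin N]→ₗ[K] (Yk N K k).V from y) (R 0)) r'
        (fun s => R s.succ)
      refine ⟨μ, fun v => ?_⟩
      rw [← hμ v]
      have h1 : (fun s : Fin k => Function.update R r'.succ v s.succ) =
          Function.update (fun s : Fin k => R s.succ) r' v := by
        funext s
        by_cases hs : s = r'
        · subst hs
          rw [Function.update_self, Function.update_self]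
        · rw [Function.update_of_ne hs,
            Function.update_of_ne (fun e => hs (Fin.succ_injective _ e))]
      change evk N K k (fun s => Function.update R r'.succ v s.succ)
        ((show (Fin (N + N) → K) [⋀^Fin N]→ₗ[K] (Yk N K k).V from y)
          (Function.update R r'.succ v 0)) = _
      rw [h1, Function.update_of_ne (Fin.succ_ne_zero r').symm]

/-- induction on `k` -/
theorem evk_rho (k : ℕ) (g : Blk (c0 (N + N)) K) (y : (Yk N K k).V)
    (R : Fin k → Fin N → Fin (N + N) → K) :
    evk N K k R ((Yk N K k).ρ g y) = evk N K k (fun r a => R r a ᵥ* g.1) y := by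
  induction k with
  | zero => rfl
  | succ k ih =>
    change evk N K k (fun r => R r.succ) ((Yk N K k).ρ g
      ((show (Fin (N + N) → K) [⋀^Fin N]→ₗ[K] (Yk N K k).V from y)
        (fun q => R 0 q ᵥ* g.1))) = _
    rw [ih]
    rfl

/-- elements of `Yk` are determined by their evaluations -/
theorem evk_sep (k : ℕ) (y : (Yk N K k).V) (h : ∀ R, evk N K k R y = 0) : y = 0 := by
  induction k with
  | zero => exact h (fun r => r.elim0)
  | succ k ih =>
    refine AlternatingMap.ext (f := (show (Fin (N + N) → K) [⋀^Fin N]→ₗ[K] (Yk N K k).V from y))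
      (f' := 0) fun v => ?_
    refine ih _ fun R => ?_
    have h2 := h (Fin.cons v R)
    change evk N K k (fun r : Fin k => (Fin.cons v R : Fin (k + 1) → Fin N → Fin (N + N) → K) r.succ)
      ((show (Fin (N + N) → K) [⋀^Fin N]→ₗ[K] (Yk N K k).V from y)
        ((Fin.cons v R : Fin (k + 1) → Fin N → Fin (N + N) → K) 0)) = 0 at h2
    simpa using h2

theorem Yk_good (k : ℕ) : Good (Yk N K k) := by
  induction k with
  | zero => exact good_triv _
  | succ k ih => exact good_altI monotone_const (Yk N K k) N ih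

theorem Yk_rs_good (c : Fin N → ℕ) (hc : Monotone c) (k : ℕ) : Good (rs c (Yk N K k)) := by
  induction k with
  | zero => exact good_triv c
  | succ k ih => exact good_rs_alt hc (Yk N K k) N ih

end Pool.PI34.A5

end

/-! ### part A5_C1b -/
section

/-! PI34, block A5, file C1b: the top weight functional of `Y_k`. -/

set_option autoImplicit false

namespace Pool.PI34.A5

open Finset Matrix

variable {K : Type} [Field K] [Infinite K] {N : ℕ}

/-- the last `N` indices -/
def lastT (N : ℕ) : Finset (Fin (N + N)) := univ.map (Fin.natAddEmb N)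

theorem mem_lastT (i : Fin (N + N)) : i ∈ lastT N ↔ N ≤ (i : ℕ) := by
  unfold lastT
  rw [mem_map]
  constructor
  · rintro ⟨a, _, rfl⟩
    exact Nat.le_add_right _ _
  · intro h
    refine ⟨⟨(i : ℕ) - N, by omega⟩, mem_univ _, Fin.ext ?_⟩
    change N + ((i : ℕ) - N) = i
    omega

theorem card_lastT : (lastT N).card = N := by
  unfold lastT
  rw [card_map, card_univ, Fintype.card_fin]

theorem lam0_succ (k : ℕ) : lam0 N (k + 1) = fun i => lam0 N k i + ind (lastT N) i := by
  funext i
  unfold lam0 ind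
  by_cases h : (i : ℕ) < N
  · rw [if_pos h, if_pos h, if_neg]
    rw [mem_lastT]
    omega
  · rw [if_neg h, if_neg h, if_pos]
    rw [mem_lastT]
    omega

/-- PROOF.  Induction with `alt_wt`, `ht_add_ind`, `upper_sum` (`T = {i | N ≤ i}`, `#T = N`, `lam0 N (k+1) = lam0 N k + 1_T`). -/
theorem Yk_top (k : ℕ) : IsTop (Yk N K k) (lam0 N k) := by
  induction k with
  | zero =>
    intro κ hκ
    have h := triv_wt (K := K) (c0 (N + N)) κ hκ
    rw [h]
    unfold ht
    simp
  | succ k ih =>
    intro κ hκ
    obtain ⟨S, hS, μ, hμ, rfl⟩ := alt_wt (Yk N K k) N κ hκ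
    have h1 := ih μ hμ
    rw [ht_add_ind, lam0_succ, ht_add_ind]
    refine add_le_add h1 ?_
    by_cases h : S = lastT N
    · rw [h]
    · refine (upper_sum S (lastT N) (fun i j hij hi => ?_) (hS.trans card_lastT.symm) h).le
      rw [mem_lastT] at hi ⊢
      exact hi.trans hij

/-- the evaluation at the last `N` basis vectors -/
noncomputable def pik (N : ℕ) (K : Type) [Field K] (k : ℕ) : Module.Dual K (Yk N K k).V :=
  evk N K k (fun _ a => Pi.single (Fin.natAdd N a) 1)

theorem evk_smul (s : Fin N → K) (k : ℕ) (y : (Yk N K k).V)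
    (R : Fin k → Fin N → Fin (N + N) → K) :
    evk N K k (fun r a => s a • R r a) y = (∏ a, s a) ^ k * evk N K k R y := by
  induction k with
  | zero =>
    rw [pow_zero, one_mul]
    rfl
  | succ k ih =>
    have h1 : (show (Fin (N + N) → K) [⋀^Fin N]→ₗ[K] (Yk N K k).V from y) (fun a => s a • R 0 a) =
        (∏ a, s a) • (show (Fin (N + N) → K) [⋀^Fin N]→ₗ[K] (Yk N K k).V from y) (R 0) :=
      (show (Fin (N + N) → K) [⋀^Fin N]→ₗ[K] (Yk N K k).V from y).toMultilinearMap.map_smul_univ
        s (R 0)
    have h2 := evk_succ k (fun r a => s a • R r a) y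
    have h3 := evk_succ k R y
    rw [h2, h3]
    refine (congrArg _ h1).trans ?_
    rw [map_smul, ih, pow_succ, smul_eq_mul]
    ring

/-- PROOF.  `evk_rho`; `e_(N+a) * diag t = t_(N+a) e_(N+a)`, multilinearity (`evk_MA`; or by induction on `k`). -/
theorem pik_mem (k : ℕ) : pik N K k ∈ (Yk N K k).wd (lam0 N k) := by
  intro t v
  unfold pik
  rw [evk_rho]
  have e : (fun (_ : Fin k) (a : Fin N) =>
      (Pi.single (Fin.natAdd N a) 1 : Fin (N + N) → K) ᵥ* (dg (c0 (N + N)) t).1) =
      fun _ a => t (Fin.natAdd N a) • (Pi.single (Fin.natAdd N a) 1 : Fin (N + N) → K) := by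
    funext _ a
    ext l
    change ((Pi.single (Fin.natAdd N a) 1 : Fin (N + N) → K) ᵥ* Matrix.diagonal t) l =
      t (Fin.natAdd N a) * (Pi.single (Fin.natAdd N a) 1 : Fin (N + N) → K) l
    rw [Matrix.vecMul_diagonal]
    by_cases h : l = Fin.natAdd N a
    · rw [h, mul_comm]
    · rw [Pi.single_eq_of_ne h, zero_mul, mul_zero]
  rw [e, evk_smul (fun a => t (Fin.natAdd N a))]
  congr 1
  unfold tw lam0
  rw [Fin.prod_univ_add]
  simp only [Fin.val_castAdd, Fin.is_lt, if_true, pow_zero, prod_const_one, one_mul,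
    Fin.val_natAdd]
  rw [← prod_pow]
  refine prod_congr rfl fun a _ => ?_
  rw [if_neg (by omega)]

/-- PROOF.  Induction on `k`: `ω v = det (v_q (N + r))_(q,r) • y`. -/
theorem pik_ne (k : ℕ) : pik N K k ≠ 0 := by
  have key : ∃ y, pik N K k y ≠ 0 := by
    induction k with
    | zero => exact ⟨(1 : K), one_ne_zero⟩
    | succ k ih =>
      obtain ⟨y, hy⟩ := ih
      let D : (Fin (N + N) → K) [⋀^Fin N]→ₗ[K] K :=
        (Matrix.detRowAlternating (n := Fin N) (R := K)).compLinearMap
          (LinearMap.funLeft K K (Fin.natAdd N))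
      let ω : (Fin (N + N) → K) [⋀^Fin N]→ₗ[K] (Yk N K k).V :=
        (LinearMap.toSpanSingleton K (Yk N K k).V y).compAlternatingMap D
      have hD : D (fun a => Pi.single (Fin.natAdd N a) 1) = 1 := by
        change Matrix.det (fun a b => (Pi.single (Fin.natAdd N a) 1 : Fin (N + N) → K)
          (Fin.natAdd N b)) = 1
        have e : (fun a b => (Pi.single (Fin.natAdd N a) 1 : Fin (N + N) → K)
          (Fin.natAdd N b)) = (1 : Matrix (Fin N) (Fin N) K) := by
          funext a b
          rw [Matrix.one_apply, Pi.single_apply]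
          by_cases h : a = b
          · rw [if_pos h, h, if_pos rfl]
          · rw [if_neg h, if_neg]
            intro h'
            exact h (Fin.natAdd_injective N N h').symm
        rw [e, Matrix.det_one]
      have hω : ω (fun a => Pi.single (Fin.natAdd N a) 1) = y := by
        change D (fun a => Pi.single (Fin.natAdd N a) 1) • y = y
        rw [hD, one_smul]
      refine ⟨ω, ?_⟩
      have h := evk_succ k (fun _ a => (Pi.single (Fin.natAdd N a) 1 : Fin (N + N) → K)) ω
      unfold pik at hy ⊢
      rw [h]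
      intro h'
      exact hy ((congrArg _ hω).symm.trans h')
  obtain ⟨y, hy⟩ := key
  intro h
  rw [h] at hy
  exact hy rfl

/-- matrix coefficients of `pik`: evaluation at the last rows of `Z` -/
theorem pik_rho (k : ℕ) (y : (Yk N K k).V) (Z : Blk (c0 (N + N)) K) :
    pik N K k ((Yk N K k).ρ Z y) = evk N K k (fun _ a => Z.1 (Fin.natAdd N a)) y := by
  unfold pik
  rw [evk_rho]
  congr 2
  funext _ a
  rw [Matrix.single_one_vecMul]
  rfl

end Pool.PI34.A5

end

/-! ### part A5_Th -/
section

/-! PI34, block A5, file Th: the coefficients `Θ` of the lift. -/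

set_option autoImplicit false

namespace Pool.PI34.A5

open Finset Matrix

variable {K : Type} [Field K] [Infinite K] {N k : ℕ}

/-- the row vectors `(e_a | B_r(a, ·))` -/
def rowsB (B : Fin k → Matrix (Fin N) (Fin N) K) : Fin k → Fin N → Fin (N + N) → K :=
  fun r a b => Sum.elim (fun a' => (1 : Matrix (Fin N) (Fin N) K) a a') (fun b' => B r a b')
    (finSumFinEquiv.symm b)

/-- `Θ(ψ)`: the value at the rows `e_(inl a)` if `ψ(r,a) = none` and `e_(inr b)` if `ψ(r,a) = some b` -/
noncomputable def ThOf (ω : (Fin k → Fin N → Fin (N + N) → K) → K) (ψ : Fin k × Fin N → Option (Fin N)) : K :=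
  ω (fun r a => Pi.single (finSumFinEquiv ((ψ (r, a)).elim (Sum.inl a) Sum.inr)) 1)

omit [Infinite K] in
theorem Th_upd {J : Type} (R : Fin k × Fin N → J → K) (r : Fin k) (a : Fin N) (x : J → K) :
    (fun (r' : Fin k) (a' : Fin N) => Function.update R (r, a) x (r', a')) =
      Function.update (fun r' a' => R (r', a')) r
        (Function.update (fun a' => R (r, a')) a x) := by
  funext r' a'
  by_cases h : r' = r
  · subst h
    rw [Function.update_self]
    by_cases h2 : a' = a
    · subst h2
      rw [Function.update_self, Function.update_self]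
    · rw [Function.update_of_ne h2, Function.update_of_ne (fun e => h2 (congrArg Prod.snd e))]
  · rw [Function.update_of_ne h, Function.update_of_ne (fun e => h (congrArg Prod.fst e))]

/-- `ω` as a multilinear map in all the rows -/
noncomputable def Th_mul {J : Type} (ω : (Fin k → Fin N → J → K) → K) (hω : IsMA ω) :
    MultilinearMap K (fun _ : Fin k × Fin N => J → K) K where
  toFun R := ω (fun r a => R (r, a))
  map_update_add' := by
    intro inst R i x y
    have hi : inst = instDecidableEqProd := Subsingleton.elim _ _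
    subst hi
    obtain ⟨r, a⟩ := i
    obtain ⟨μ, hμ⟩ := hω r (fun r' a' => R (r', a'))
    rw [Th_upd, Th_upd, Th_upd, hμ, hμ, hμ]
    exact μ.map_update_add _ _ _ _
  map_update_smul' := by
    intro inst R i t x
    have hi : inst = instDecidableEqProd := Subsingleton.elim _ _
    subst hi
    obtain ⟨r, a⟩ := i
    obtain ⟨μ, hμ⟩ := hω r (fun r' a' => R (r', a'))
    rw [Th_upd, Th_upd, hμ, hμ]
    exact μ.map_update_smul _ _ _ _

omit [Infinite K] in
theorem Th_rows (B : Fin k → Matrix (Fin N) (Fin N) K) (r : Fin k) (a : Fin N) :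
    rowsB B r a = ∑ o : Option (Fin N), (o.elim 1 (fun b => B r a b)) •
      (Pi.single (finSumFinEquiv (o.elim (Sum.inl a) Sum.inr)) 1 : Fin (N + N) → K) := by
  funext b
  obtain ⟨b, rfl⟩ := finSumFinEquiv.surjective b
  rw [Fintype.sum_option, Pi.add_apply, Finset.sum_apply]
  unfold rowsB
  rw [Equiv.symm_apply_apply]
  rcases b with b | b
  · have h1 : ∀ b' : Fin N, ((some b' : Option (Fin N)).elim 1 (fun b => B r a b) •
        (Pi.single (finSumFinEquiv ((some b' : Option (Fin N)).elim (Sum.inl a) Sum.inr)) 1 :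
          Fin (N + N) → K)) (finSumFinEquiv (Sum.inl b)) = 0 := by
      intro b'
      rw [Pi.smul_apply, Pi.single_eq_of_ne, smul_zero]
      intro e
      have := finSumFinEquiv.injective e
      simp at this
    rw [Finset.sum_eq_zero fun b' _ => h1 b', add_zero]
    simp only [Option.elim_none, Sum.elim_inl, one_smul]
    by_cases h : a = b
    · subst h
      rw [Matrix.one_apply_eq, Pi.single_eq_same]
    · rw [Matrix.one_apply_ne h, Pi.single_eq_of_ne]
      intro e
      have := finSumFinEquiv.injective e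
      exact h (Sum.inl_injective this).symm
  · have h1 : ∀ b' : Fin N, ((some b' : Option (Fin N)).elim 1 (fun b => B r a b) •
        (Pi.single (finSumFinEquiv ((some b' : Option (Fin N)).elim (Sum.inl a) Sum.inr)) 1 :
          Fin (N + N) → K)) (finSumFinEquiv (Sum.inr b)) = if b' = b then B r a b' else 0 := by
      intro b'
      rw [Pi.smul_apply]
      simp only [Option.elim_some, smul_eq_mul]
      by_cases h : b' = b
      · subst h
        rw [if_pos rfl, Pi.single_eq_same, mul_one]
      · rw [if_neg h, Pi.single_eq_of_ne, mul_zero]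
        intro e
        exact h (Sum.inr_injective (finSumFinEquiv.injective e)).symm
    rw [Finset.sum_congr rfl fun b' _ => h1 b', Finset.sum_ite_eq' univ b, if_pos (mem_univ b)]
    have h2 : ((none : Option (Fin N)).elim 1 (fun b => B r a b) •
        (Pi.single (finSumFinEquiv ((none : Option (Fin N)).elim (Sum.inl a) Sum.inr)) 1 :
          Fin (N + N) → K)) (finSumFinEquiv (Sum.inr b)) = 0 := by
      rw [Pi.smul_apply, Pi.single_eq_of_ne, smul_zero]
      intro e
      have := finSumFinEquiv.injective e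
      simp at this
    rw [h2, zero_add]
    rfl

/-- PROOF.  The row `(r, a)` of `rowsB B` is `e_(inl a) + ∑_b B_r(a, b) e_(inr b)`; expand in all the rows `(r, a)` (multilinearity in each row;
e.g. turn `ω` into a `MultilinearMap K (fun _ : Fin k × Fin N => Fin (N+N) → K) K` and use `MultilinearMap.map_sum`). -/
theorem fT_ThOf (ω : (Fin k → Fin N → Fin (N + N) → K) → K) (hω : IsMA ω)
    (B : Fin k → Matrix (Fin N) (Fin N) K) : fT (ThOf ω) B = ω (rowsB B) := by
  have h1 : ω (rowsB B) = Th_mul ω hω (fun x => ∑ o : Option (Fin N),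
      (o.elim 1 (fun b => B x.1 x.2 b)) •
      (Pi.single (finSumFinEquiv (o.elim (Sum.inl x.2) Sum.inr)) 1 : Fin (N + N) → K)) := by
    change ω (rowsB B) = ω _
    congr 1
    funext r a
    exact Th_rows B r a
  rw [h1, MultilinearMap.map_sum]
  unfold fT
  refine Finset.sum_congr rfl fun ψ _ => ?_
  rw [MultilinearMap.map_smul_univ, smul_eq_mul, mul_comm]
  rfl

/-- PROOF.  If `ψ(r,a)`, `ψ(r,a')` are both not `none` then the swap of `ψ` swaps the two row vectors of the block `r`. -/
theorem AltC_ThOf (ω : (Fin k → Fin N → Fin (N + N) → K) → K) (hω : IsMA ω) : AltC (ThOf ω) := by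
  intro ψ r a a' haa h1 h2
  set R : Fin k → Fin N → Fin (N + N) → K :=
    fun r a => Pi.single (finSumFinEquiv ((ψ (r, a)).elim (Sum.inl a) Sum.inr)) 1 with hR
  obtain ⟨μ, hμ⟩ := hω r R
  have h3 : ThOf ω ψ = μ (R r) := by
    rw [← hμ, Function.update_eq_self]
    rfl
  obtain ⟨b, hb⟩ := Option.ne_none_iff_exists'.1 h1
  obtain ⟨b', hb'⟩ := Option.ne_none_iff_exists'.1 h2
  refine ⟨?_, fun he => ?_⟩
  · rw [h3, ← μ.map_swap (R r) haa, ← hμ]
    unfold ThOf
    congr 1
    funext s c
    by_cases hs : s = r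
    · subst hs
      rw [Function.update_self]
      by_cases hc : c = a
      · subst hc
        simp only [Function.comp, Equiv.swap_apply_left, hR, hb']
        rfl
      · by_cases hc' : c = a'
        · subst hc'
          simp only [Function.comp, Equiv.swap_apply_right, hR, hb]
          rfl
        · simp only [Function.comp]
          rw [Equiv.swap_apply_of_ne_of_ne (fun e => hc (congrArg Prod.snd e))
            (fun e => hc' (congrArg Prod.snd e)), Equiv.swap_apply_of_ne_of_ne hc hc']
    · rw [Function.update_of_ne hs]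
      simp only [Function.comp]
      rw [Equiv.swap_apply_of_ne_of_ne (fun e => hs (congrArg Prod.fst e))
        (fun e => hs (congrArg Prod.fst e))]
  · rw [h3]
    refine μ.map_eq_zero_of_eq _ ?_ haa
    simp only [hR, he, hb']
    rfl

omit [Infinite K] in
theorem Th_alt {J : Type} (μ : (J → K) [⋀^Fin N]→ₗ[K] K) (g : Matrix (Fin N) (Fin N) K)
    (v : Fin N → J → K) : μ (fun a => ∑ b, g a b • v b) = g.det * μ v := by
  let φ : (Fin N → K) →ₗ[K] (J → K) := Fintype.linearCombination K v
  have hφ : ∀ x : Fin N → K, φ x = ∑ b, x b • v b := fun x => rfl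
  have h1 := AlternatingMap.eq_smul_basis_det (Pi.basisFun K (Fin N)) (μ.compLinearMap φ)
  have h2 := congrArg (fun f : (Fin N → K) [⋀^Fin N]→ₗ[K] K => f g) h1
  simp only [AlternatingMap.compLinearMap_apply, AlternatingMap.smul_apply, smul_eq_mul] at h2
  have h3 : (fun i => φ ((Pi.basisFun K (Fin N)) i)) = v := by
    funext i
    rw [hφ, Pi.basisFun_apply]
    rw [Finset.sum_eq_single i]
    · rw [Pi.single_eq_same, one_smul]
    · intro b _ hb
      rw [Pi.single_eq_of_ne hb, zero_smul]
    · intro h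
      exact absurd (mem_univ i) h
  have h4 : (Pi.basisFun K (Fin N)).det g = g.det := Pi.basisFun_det_apply g
  rw [h4] at h2
  have h5 : (fun i => φ (g i)) = fun a => ∑ b, g a b • v b := rfl
  have h6 : (⇑φ ∘ ⇑(Pi.basisFun K (Fin N))) = v := h3
  first
    | rw [h5, h3, mul_comm] at h2
      exact h2
    | rw [h5, h6, mul_comm] at h2
      exact h2

/-- row operations: PROOF.  Block by block (`IsMA`): an alternating map of `N` vectors evaluated at `∑_b g_ab v_b` is `det g` times its value
(`AlternatingMap.map_basis_...`/ `MultilinearMap` expansion; e.g. `AlternatingMap.map_vecMul`-type lemma; prove it by `Matrix.det_apply`). -/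
theorem omega_row (ω : (Fin k → Fin N → Fin (N + N) → K) → K) (hω : IsMA ω)
    (g : Matrix (Fin N) (Fin N) K) (R : Fin k → Fin N → Fin (N + N) → K) :
    ω (fun r a => ∑ b, g a b • R r b) = g.det ^ k * ω R := by
  classical
  have key : ∀ S : Finset (Fin k),
      ω (fun r => if r ∈ S then (fun a => ∑ b, g a b • R r b) else R r) =
        g.det ^ S.card * ω R := by
    intro S
    induction S using Finset.induction_on with
    | empty => simp
    | insert r S hr ih =>
      set f : Fin k → Fin N → Fin (N + N) → K :=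
        fun r => if r ∈ S then (fun a => ∑ b, g a b • R r b) else R r with hf
      obtain ⟨μ, hμ⟩ := hω r f
      have h1 : (fun r' => if r' ∈ insert r S then (fun a => ∑ b, g a b • R r' b) else R r') =
          Function.update f r (fun a => ∑ b, g a b • R r b) := by
        funext r'
        by_cases h : r' = r
        · subst h
          rw [Function.update_self, if_pos (Finset.mem_insert_self _ _)]
        · rw [Function.update_of_ne h, hf]
          simp only [Finset.mem_insert, h, false_or]
      have h2 : f r = R r := by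
        rw [hf]
        simp only [if_neg hr]
      have h3 : ω f = μ (R r) := by
        rw [← h2, ← hμ, Function.update_eq_self]
      rw [h1, hμ, Th_alt, ← h3, ih, Finset.card_insert_of_notMem hr, pow_succ]
      ring
  have h := key univ
  simp only [Finset.mem_univ, if_true, Finset.card_univ, Fintype.card_fin] at h
  exact h

section polyfn

variable {T : Type} (x : T → Fin N × Fin N → K)

omit [Infinite K] in
theorem Th_fT_poly (Th : (Fin k × Fin N → Option (Fin N)) → K)
    (Bf : T → Fin k → Matrix (Fin N) (Fin N) K)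
    (h : ∀ r a b, (fun g => Bf g r a b) ∈ PolyFn x) : (fun g => fT Th (Bf g)) ∈ PolyFn x := by
  have e : (fun g => fT Th (Bf g)) = ∑ ψ : Fin k × Fin N → Option (Fin N),
      (fun _ => Th ψ) * ∏ y : Fin k × Fin N, fun g => (ψ y).elim 1 (fun b => Bf g y.1 y.2 b) := by
    funext g
    rw [Finset.sum_apply]
    refine Finset.sum_congr rfl fun ψ _ => ?_
    rw [Pi.mul_apply, Finset.prod_apply]
  rw [e]
  refine Subalgebra.sum_mem _ fun ψ _ => Subalgebra.mul_mem _ (const_mem x _)
    (Subalgebra.prod_mem _ fun y _ => ?_)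
  cases hy : ψ y with
  | none => exact const_mem x 1
  | some b => exact h y.1 y.2 b

omit [Infinite K] in
theorem Th_mul_poly (A B : T → Matrix (Fin N) (Fin N) K)
    (hA : ∀ a b, (fun g => A g a b) ∈ PolyFn x) (hB : ∀ a b, (fun g => B g a b) ∈ PolyFn x)
    (a b : Fin N) : (fun g => (A g * B g) a b) ∈ PolyFn x := by
  have e : (fun g => (A g * B g) a b) = ∑ j, (fun g => A g a j) * fun g => B g j b := by
    funext g
    rw [Finset.sum_apply, Matrix.mul_apply]
    rfl
  rw [e]
  exact Subalgebra.sum_mem _ fun j _ => Subalgebra.mul_mem _ (hA a j) (hB j b)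

omit [Infinite K] in
theorem Th_det_poly (A : T → Matrix (Fin N) (Fin N) K)
    (hA : ∀ a b, (fun g => A g a b) ∈ PolyFn x) : (fun g => (A g).det) ∈ PolyFn x := by
  have e : (fun g => (A g).det) = ∑ σ : Equiv.Perm (Fin N),
      (fun _ => ((Equiv.Perm.sign σ : ℤ) : K)) * ∏ i, fun g => A g (σ i) i := by
    funext g
    rw [Finset.sum_apply, Matrix.det_apply']
    refine Finset.sum_congr rfl fun σ _ => ?_
    rw [Pi.mul_apply, Finset.prod_apply]
  rw [e]
  exact Subalgebra.sum_mem _ fun σ _ => Subalgebra.mul_mem _ (const_mem x _)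
    (Subalgebra.prod_mem _ fun i _ => hA _ _)

end polyfn

omit [Infinite K] in
theorem Th_rowsB_mul (c : Fin N → ℕ) (g : Blk c K) (B : Fin k → Matrix (Fin N) (Fin N) K)
    (r : Fin k) (a : Fin N) :
    rowsB (fun r => g.1 * B r) r a ᵥ* dblN c K g =
      ∑ b, g.1 a b • rowsB (fun r => B r * g.1) r b := by
  have hd : dblN c K g = (Matrix.fromBlocks g.1 0 0 g.1).submatrix finSumFinEquiv.symm
    finSumFinEquiv.symm := rfl
  funext j
  obtain ⟨j, rfl⟩ := finSumFinEquiv.surjective j
  rw [Matrix.vecMul, dotProduct, ← Equiv.sum_comp (finSumFinEquiv (m := N) (n := N)),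
    Fintype.sum_sum_type, Finset.sum_apply]
  unfold rowsB
  simp only [hd, Matrix.submatrix_apply, Equiv.symm_apply_apply, Sum.elim_inl, Sum.elim_inr,
    Pi.smul_apply, smul_eq_mul]
  rcases j with j | j
  · simp only [Matrix.fromBlocks_apply₁₁, Matrix.fromBlocks_apply₂₁, Sum.elim_inl,
      Matrix.zero_apply, mul_zero, Finset.sum_const_zero, add_zero]
    have h1 : ∑ i, (1 : Matrix (Fin N) (Fin N) K) a i * g.1 i j =
        ((1 : Matrix (Fin N) (Fin N) K) * (g.1 : Matrix (Fin N) (Fin N) K)) a j := rfl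
    have h2 : ∑ i, g.1 a i * (1 : Matrix (Fin N) (Fin N) K) i j =
        ((g.1 : Matrix (Fin N) (Fin N) K) * (1 : Matrix (Fin N) (Fin N) K)) a j := rfl
    rw [h1, h2, one_mul, mul_one]
  · simp only [Matrix.fromBlocks_apply₁₂, Matrix.fromBlocks_apply₂₂, Sum.elim_inr,
      Matrix.zero_apply, mul_zero, Finset.sum_const_zero, zero_add]
    have h1 : ∑ i, (g.1 * B r) a i * g.1 i j = (g.1 * B r * g.1) a j := rfl
    have h2 : ∑ i, g.1 a i * (B r * g.1) i j = (g.1 * (B r * g.1)) a j := rfl
    rw [h1, h2, mul_assoc]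

/-- PROOF.  For block `g`: `[1 | g B_r] (g ⊕ g) = [g | g B_r g] = g [1 | B_r g]`; so `det(g)^k f~(gB) = det(g)^k f~(Bg)` (semi-invariance and
`omega_row`), i.e. `det(g)^k (f~(gB) - f~(Bg)) = 0` for all block `g`, hence `f~(gB) = f~(Bg)` for all block `g` (`blk_mul_zero` with `G g = det(g)^k`; the functions
are polynomial in `g` because they are given by `fT`). -/
theorem LI_ThOf (c : Fin N → ℕ) (ω : (Fin k → Fin N → Fin (N + N) → K) → K) (hω : IsMA ω)
    (h2 : ∀ (g : Blk c K) R, ω (fun r a => R r a ᵥ* dblN c K g) = g.1.det ^ k * ω R) :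
    LI c (ThOf ω) := by
  intro g hg B
  have hc : ∀ a b, (fun Z : Blk c K => Z.1 a b) ∈ PolyFn (crd c K) :=
    fun a b => coord_mem (crd c K) (a, b)
  have hk : ∀ (A : Matrix (Fin N) (Fin N) K) (a b),
      (fun _ : Blk c K => A a b) ∈ PolyFn (crd c K) := fun A a b => const_mem (crd c K) _
  have hF1 : (fun Z : Blk c K => fT (ThOf ω) (fun r => B r * Z.1)) ∈ PolyFn (crd c K) :=
    Th_fT_poly (crd c K) (ThOf ω) (fun Z r => B r * Z.1) fun r a b =>
      Th_mul_poly (crd c K) (fun _ => B r) (fun Z => Z.1) (hk (B r)) hc a b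
  have hF2 : (fun Z : Blk c K => fT (ThOf ω) (fun r => Z.1 * B r)) ∈ PolyFn (crd c K) :=
    Th_fT_poly (crd c K) (ThOf ω) (fun Z r => Z.1 * B r) fun r a b =>
      Th_mul_poly (crd c K) (fun Z => Z.1) (fun _ => B r) hc (hk (B r)) a b
  have hG : (fun Z : Blk c K => Z.1.det ^ k) ∈ PolyFn (crd c K) :=
    Subalgebra.pow_mem _ (Th_det_poly (crd c K) (fun Z => Z.1) hc) k
  have key := blk_mul_zero (fun Z : Blk c K => fT (ThOf ω) (fun r => B r * Z.1) -
    fT (ThOf ω) (fun r => Z.1 * B r)) (fun Z : Blk c K => Z.1.det ^ k)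
    (Subalgebra.sub_mem _ hF1 hF2) hG (by
      intro Z
      have h1 := h2 Z (rowsB (fun r => Z.1 * B r))
      have h3 : (fun r a => rowsB (fun r => Z.1 * B r) r a ᵥ* dblN c K Z) =
          fun r a => ∑ b, Z.1 a b • rowsB (fun r => B r * Z.1) r b := by
        funext r a
        exact Th_rowsB_mul c Z B r a
      rw [h3, omega_row ω hω] at h1
      rw [fT_ThOf ω hω, fT_ThOf ω hω]
      linear_combination h1) ⟨1, by
        change (1 : Matrix (Fin N) (Fin N) K).det ^ k ≠ 0
        rw [Matrix.det_one, one_pow]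
        exact one_ne_zero⟩ ⟨g, hg⟩
  exact sub_eq_zero.1 key

end Pool.PI34.A5

end
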