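import Pool.Agent.LibPI54.M17
import Pool.Agent.LibPI54.M21
import Pool.Agent.LibPI54.M29
import Pool.Agent.LibPI54.M30

/-! ### part A5_C2 -/
section

/-! PI34, block A5, file C2: the lift. -/

set_option autoImplicit false

namespace Pool.PI34.A5

open Finset Matrix

variable {K : Type} [Field K] [Infinite K] {N : ℕ}

omit [Infinite K] in
theorem exists_ev {W : Type} [AddCommGroup W] [Module K W] (w : W) (hw : w ≠ 0) :
    ∃ ev : Module.Dual K W, ev w = 1 := by
  by_contra hcon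
  push Not at hcon
  apply hw
  rw [← Module.forall_dual_apply_eq_zero_iff K]
  intro φ
  by_contra hφ
  apply hcon ((φ w)⁻¹ • φ)
  rw [LinearMap.smul_apply, smul_eq_mul, inv_mul_cancel₀ hφ]

/-- PROOF.  `Y = Yk N K k`, `λ = lam0 N k`, `h : IsTop Y λ`.  `Fb := ⟨_, Fnab ..⟩ ∈ hs (k, …, k)` of `rs c nab` (`Fnab_hs`).  Let `ev` be a functional on `Y.wd λ` with
`ev (pik) = 1` and `T : Y.wd λ →ₗ nabS`, `T φ = ev φ • Fb`; `T ∈ (rs c (nab.hom (Y.wd λ))).hs (k, …, k)`.
`ext_rs (ext_theta ..)` with `X = rs c (kth Y)` good (`good_kth`, `good_rs`), `rs c Y` good (`Yk_rs_good`): `lift_hs` gives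
`y ∈ (rs c Y).hs (k, …, k)` with `theta Y λ h y = T`.  `ω R := evk N K k R y`.
`evk_MA`; `semi_const` and `evk_rho` give the semi-invariance (`(dbl c K g).1 = dblN c K g`);
`theta y (pik) = Fb`: for all `Z : Blk (c0 (N+N)) K`: `evk (last rows of Z) y = F (lastRows Z.1)` (`pik_rho`); every `Z : Matrix (Fin N) (Fin N ⊕ Fin N) K` is
`lastRows` of some square matrix. -/
theorem exists_omega (c : Fin N → ℕ) (hc : Monotone c) (k : ℕ)
    (F : Matrix (Fin N) (Fin N ⊕ Fin N) K → K) (hF : F ∈ PolyFn (mcr K))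
    (h1 : ∀ (g : Matrix (Fin N) (Fin N) K) Z, F (g * Z) = g.det ^ k * F Z)
    (h2 : ∀ (g : Blk c K) (P Q : Matrix (Fin N) (Fin N) K),
      F (Matrix.fromCols (P * g.1) (Q * g.1)) = g.1.det ^ k * F (Matrix.fromCols P Q)) :
    ∃ ω : (Fin k → Fin N → Fin (N + N) → K) → K, IsMA ω ∧
      (∀ (g : Blk c K) R, ω (fun r a => R r a ᵥ* dblN c K g) = g.1.det ^ k * ω R) ∧
      ∀ Z : Matrix (Fin N) (Fin N ⊕ Fin N) K, F Z = ω (fun _ a b => Z a (finSumFinEquiv.symm b)) := by
  have hc0 : Monotone (c0 (N + N)) := fun _ _ _ => le_rfl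
  have hY : Good (Yk N K k) := Yk_good k
  have h : IsTop (Yk N K k) (lam0 N k) := Yk_top k
  obtain ⟨Fb, hFb⟩ : ∃ Fb : nabS (c0 (N + N)) K (lam0 N k), Fb = ⟨_, Fnab k F hF h1⟩ := ⟨_, rfl⟩
  have hFhs : Fb ∈ (rs c (nab (c0 (N + N)) K (lam0 N k))).hs (fun _ => k) := by
    rw [hFb]
    exact Fnab_hs c k F hF h1 h2
  obtain ⟨pk, hpk⟩ : ∃ pk : (Yk N K k).wd (lam0 N k), pk.1 = pik N K k := ⟨⟨_, pik_mem k⟩, rfl⟩
  have hpk0 : pk ≠ 0 := by
    intro h0
    apply pik_ne (K := K) (N := N) k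
    rw [← hpk, h0]
    rfl
  obtain ⟨ev, hev⟩ : ∃ ev : Module.Dual K ((Yk N K k).wd (lam0 N k)), ev pk = 1 :=
    exists_ev pk hpk0
  obtain ⟨T, hT⟩ : ∃ T : (Yk N K k).wd (lam0 N k) →ₗ[K] nabS (c0 (N + N)) K (lam0 N k),
      ∀ φ, T φ = ev φ • Fb := ⟨ev.smulRight Fb, fun φ => rfl⟩
  have hTact : ∀ (g : Blk (c0 (N + N)) K) (a : K),
      ((nab (c0 (N + N)) K (lam0 N k)).ρ g Fb : nabS (c0 (N + N)) K (lam0 N k)) = a • Fb →
      (((nab (c0 (N + N)) K (lam0 N k)).hom ((Yk N K k).wd (lam0 N k))).ρ g T :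
        (Yk N K k).wd (lam0 N k) →ₗ[K] nabS (c0 (N + N)) K (lam0 N k)) = a • T := by
    intro g a hg
    refine LinearMap.ext fun φ => ?_
    change (nab (c0 (N + N)) K (lam0 N k)).ρ g (T φ) = a • T φ
    rw [hT]
    have e1 : (nab (c0 (N + N)) K (lam0 N k)).ρ g (ev φ • Fb) =
        ev φ • (nab (c0 (N + N)) K (lam0 N k)).ρ g Fb := map_smul _ _ _
    rw [e1, smul_comm a]
    exact congrArg (fun x : nabS (c0 (N + N)) K (lam0 N k) => ev φ • x) hg
  have hThs : T ∈ (rs c ((nab (c0 (N + N)) K (lam0 N k)).hom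
      ((Yk N K k).wd (lam0 N k)))).hs (fun _ => k) := by
    refine ⟨fun t => ?_, fun g hg => ?_⟩
    · exact hTact (dbl c K (dg c t)) _ (hFhs.1 t)
    · have e1 := hTact (dbl c K g) 1 (by rw [one_smul]; exact hFhs.2 g hg)
      rw [one_smul] at e1
      exact e1
  have hext := ext_rs c _ _ _ _ _ (ext_theta hc0 (Yk N K k) (lam0 N k) h hY)
  obtain ⟨y, hy, hyT⟩ : ∃ y : (Yk N K k).V, y ∈ (rs c (Yk N K k)).hs (fun _ => k) ∧
      theta (Yk N K k) (lam0 N k) h y = T := lift_hs hc _ _ _ _ _ hext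
    (good_rs c hc _ (good_kth hc0 (Yk N K k) (lam0 N k) h hY)) (Yk_rs_good c hc k) (fun _ => k) T
    hThs
  refine ⟨fun R => evk N K k R y, evk_MA k y, fun g R => ?_, fun Z => ?_⟩
  · have e1 := semi_const (rs c (Yk N K k)) k y hy g
    have e2 := evk_rho k (dbl c K g) y R
    have e3 : (Yk N K k).ρ (dbl c K g) y = g.1.det ^ k • y := e1
    rw [e3, map_smul, smul_eq_mul] at e2
    exact e2.symm
  · obtain ⟨Z', hZ'⟩ : ∃ Z' : Blk (c0 (N + N)) K, ∀ a b,
        Z'.1 (Fin.natAdd N a) b = Z a (finSumFinEquiv.symm b) := by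
      refine ⟨⟨Matrix.of fun i j => Fin.addCases (motive := fun _ => K) (fun _ => 0)
        (fun a => Z a (finSumFinEquiv.symm j)) i, fun i j hij => absurd rfl hij⟩, fun a b => ?_⟩
      change Fin.addCases (motive := fun _ => K) (fun _ => 0)
        (fun a => Z a (finSumFinEquiv.symm b)) (Fin.natAdd N a) = _
      rw [Fin.addCases_right]
    have e1 : (fun (_ : Fin k) a b => Z a (finSumFinEquiv.symm b)) =
        fun (_ : Fin k) a => Z'.1 (Fin.natAdd N a) := by
      funext _ a b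
      exact (hZ' a b).symm
    have e2 : lastRows Z'.1 = Z := by
      ext a b
      change Z'.1 (Fin.natAdd N a) (finSumFinEquiv b) = Z a b
      rw [hZ', Equiv.symm_apply_apply]
    change F Z = evk N K k (fun (_ : Fin k) a b => Z a (finSumFinEquiv.symm b)) y
    rw [e1, ← pik_rho k y Z', ← hpk, ← theta_apply (Yk N K k) (lam0 N k) h y pk Z']
    have e3 : theta0 (Yk N K k) (lam0 N k) h y = T := hyT
    rw [e3, hT, hev, one_smul, hFb]
    change F Z = F (lastRows Z'.1)
    rw [e2]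

end Pool.PI34.A5

end

/-! ### part A5_CD0 -/
section

/-! PI34, block A5, file CD0: the invariant multilinear lift of the elements of `F_k(K)`. -/

set_option autoImplicit false

namespace Pool.PI34.A5

open Finset Matrix

variable {K : Type} [Field K] [Infinite K]

/-- the index set `Fin N` -/
theorem CD_fin {N : ℕ} (c : Fin N → ℕ) (hc : Monotone c) (k d : ℕ)
    (f : Matrix (Fin N) (Fin N) K → K) (hf : f ∈ PolyFn (mcr K)) (hr : RD k f)
    (hd : ∀ (s : K) (B : Matrix (Fin N) (Fin N) K), f (s • B) = s ^ d * f B)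
    (hi : ∀ g g' : Blk c K, g * g' = 1 → ∀ B : Matrix (Fin N) (Fin N) K,
      f (g'.1 * B * g.1) = f B) :
    ∃ Th : (Fin k × Fin N → Option (Fin N)) → K, AltC Th ∧ LI c Th ∧
      ∀ B : Matrix (Fin N) (Fin N) K, f B = fT Th (fun _ => B) := by
  obtain ⟨F, hF, hFf⟩ := exists_F k d f hf hr hd
  have h1 := F_mul k d f F hF hd hFf
  have h2 := F_conj c k d f F hF hd hFf hi
  obtain ⟨ω, hω, hs, hFω⟩ := exists_omega c hc k F hF h1 h2
  refine ⟨ThOf ω, AltC_ThOf ω hω, LI_ThOf c ω hω hs, fun B => ?_⟩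
  rw [fT_ThOf ω hω, ← F_one k d f F hFf B, hFω]
  congr 1

end Pool.PI34.A5

end

/-! ### part A5_CD -/
section

/-! PI34, block A5, file CD: the invariant multilinear lift. -/

set_option autoImplicit false

namespace Pool.PI34.A5

open Finset Matrix Pool.PI34.BA

variable {K : Type} [Field K] [Infinite K] {X : Type} [Fintype X] [DecidableEq X]

section transport

variable {A A' : Type} [Fintype A] [DecidableEq A] [Fintype A'] [DecidableEq A'] {k : ℕ}

/-- the transport of the coefficients along `e` -/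
def ThTr (e : A ≃ A') (Th : (Fin k × A' → Option A') → K) : (Fin k × A → Option A) → K :=
  fun ψ => Th fun x => (ψ (x.1, e.symm x.2)).map e

/-- the transport of the patterns along `e` -/
def psiEq (e : A ≃ A') : (Fin k × A → Option A) ≃ (Fin k × A' → Option A') where
  toFun ψ := fun x => (ψ (x.1, e.symm x.2)).map e
  invFun χ := fun y => (χ (y.1, e y.2)).map e.symm
  left_inv ψ := by
    funext y
    simp only [Equiv.symm_apply_apply, Option.map_map]
    have h : (e.symm ∘ e : A → A) = id := by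
      funext a
      simp
    rw [h, Option.map_id]
    rfl
  right_inv χ := by
    funext y
    simp only [Equiv.apply_symm_apply, Option.map_map]
    have h : (e ∘ e.symm : A' → A') = id := by
      funext a
      simp
    rw [h, Option.map_id]
    rfl

omit [Infinite K] [Fintype A] [DecidableEq A] [Fintype A'] [DecidableEq A'] in
theorem ThTr_eq (e : A ≃ A') (Th : (Fin k × A' → Option A') → K) (ψ : Fin k × A → Option A) :
    ThTr e Th ψ = Th (psiEq e ψ) := rfl

omit [Infinite K] in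
theorem fT_ThTr (e : A ≃ A') (Th : (Fin k × A' → Option A') → K) (B : Fin k → Matrix A A K) :
    fT (ThTr e Th) B = fT Th (fun r => (B r).submatrix e.symm e.symm) := by
  unfold fT
  rw [← Equiv.sum_comp (psiEq e)]
  refine Finset.sum_congr rfl fun ψ _ => ?_
  rw [ThTr_eq]
  congr 1
  rw [← Equiv.prod_comp (Equiv.prodCongr (Equiv.refl (Fin k)) e)]
  refine Finset.prod_congr rfl fun x _ => ?_
  have h : psiEq e ψ (Equiv.prodCongr (Equiv.refl (Fin k)) e x) = (ψ x).map e := by
    simp [psiEq]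
  rw [h]
  cases ψ x with
  | none => rfl
  | some b => simp

omit [Infinite K] [Fintype A] [Fintype A'] in
theorem AltC_ThTr (e : A ≃ A') (Th : (Fin k × A' → Option A') → K) (h : AltC Th) :
    AltC (ThTr e Th) := by
  intro ψ r a a' hne h1 h2
  have e1 : psiEq e (ψ ∘ Equiv.swap (r, a) (r, a')) =
      psiEq e ψ ∘ Equiv.swap (r, e a) (r, e a') := by
    funext x
    simp only [psiEq, Equiv.coe_fn_mk, Function.comp_apply]
    congr 1
    have h3 : (Equiv.swap (r, a) (r, a')) (x.1, e.symm x.2) =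
        (((Equiv.swap (r, e a) (r, e a')) x).1, e.symm ((Equiv.swap (r, e a) (r, e a')) x).2) := by
      rw [Equiv.swap_apply_def, Equiv.swap_apply_def]
      have i1 : ((x.1, e.symm x.2) = (r, a)) ↔ x = (r, e a) := by
        rw [Prod.ext_iff, Prod.ext_iff]
        simp only [Equiv.symm_apply_eq]
      have i2 : ((x.1, e.symm x.2) = (r, a')) ↔ x = (r, e a') := by
        rw [Prod.ext_iff, Prod.ext_iff]
        simp only [Equiv.symm_apply_eq]
      simp only [i1, i2]
      split_ifs <;> simp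
    rw [h3]
  have g1 : psiEq e ψ (r, e a) = (ψ (r, a)).map e := by simp [psiEq]
  have g2 : psiEq e ψ (r, e a') = (ψ (r, a')).map e := by simp [psiEq]
  have key := h (psiEq e ψ) r (e a) (e a') (fun h4 => hne (e.injective h4))
    (by rw [g1]; simpa using h1) (by rw [g2]; simpa using h2)
  refine ⟨?_, fun h4 => ?_⟩
  · rw [ThTr_eq, ThTr_eq, e1]
    exact key.1
  · rw [ThTr_eq]
    exact key.2 (by rw [g1, g2, h4])

end transport

/-- PROOF.  `CD_fin` for `fre e f` with `e` from `exists_sorted (colN n)`; transport `Th' ψ = Th (fun x => (ψ (x.1, e.symm x.2)).map e)` along `e`. -/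
theorem CD {k n : ℕ} (f : MvPolynomial (Option (X × Fin n) × Option (X × Fin n)) K)
    (hf : f ∈ FF X k n K) :
    ∃ Th : (Fin k × Option (X × Fin n) → Option (Option (X × Fin n))) → K, AltC Th ∧
      LI (fun a : Option (X × Fin n) => a.map Prod.fst) Th ∧
      ∀ B : Matrix (Option (X × Fin n)) (Option (X × Fin n)) K, evF K f B = fT Th (fun _ => B) := by
  obtain ⟨e, he⟩ := exists_sorted (colN (X := X) n)
  obtain ⟨Th, h1, h2, h3⟩ := CD_fin (fun i => colN n (e.symm i)) he k (n + 1) (fre e f)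
    (fre_poly e f) (fre_RD e f hf) (fre_hom e f hf) (fun g g' hg B => fre_inv e f hf g g' hg B)
  refine ⟨ThTr e Th, AltC_ThTr e Th h1, ?_, ?_⟩
  · intro g hg B
    rw [fT_ThTr, fT_ThTr]
    have h4 := h2 (g.submatrix e.symm e.symm) (fun a b hab => by
      rw [Matrix.submatrix_apply]
      exact hg _ _ fun h5 => hab ((colN_iff n _ _).2 h5)) (fun r => (B r).submatrix e.symm e.symm)
    simp only [Matrix.submatrix_mul_equiv] at h4
    exact h4
  · intro B
    rw [fT_ThTr, ← h3]
    unfold fre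
    congr 1
    ext a b
    simp

end Pool.PI34.A5

end
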