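import Mathlib
import Pool.Agent.LibPI54.M23
import Pool.Agent.LibPI54.M24
import Pool.Agent.LibPI54.M25
import Pool.Agent.LibPI54.M27

/-! ### part C0Defs -/
section

/-!
PI34, block C0: a multilinear identity in characteristic `p` implies a Capelli identity.
Definitions used by all the files of the block.
-/

set_option autoImplicit false

namespace Pool.PI34.C0

open Equiv Finset

/-- the monomial `x_{σ 0} ⋯ x_{σ (n-1)}` -/
def mono {U : Type*} [Monoid U] {n : ℕ} (x : Fin n → U) (σ : Perm (Fin n)) : U :=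
  (List.ofFn fun i => x (σ i)).prod

/-- the monomial `v_0 x_{σ 0} v_1 ⋯ x_{σ (n-1)} v_n` -/
def capMono {U : Type*} [Monoid U] {n : ℕ} (v : Fin (n + 1) → U) (x : Fin n → U)
    (σ : Perm (Fin n)) : U :=
  v 0 * (List.ofFn fun i : Fin n => x (σ i) * v i.succ).prod

/-- `σ` has no decreasing subsequence of length `D` -/
def Good (D : ℕ) {n : ℕ} (σ : Perm (Fin n)) : Prop :=
  ¬ ∃ f : Fin D → Fin n, StrictMono f ∧ StrictAnti (fun i => σ (f i))

/-- lexicographic order of the words `σ 0, σ 1, …` -/
def LexLT {n m : ℕ} (τ σ : Fin n → Fin m) : Prop :=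
  ∃ i : Fin n, (∀ j, j < i → τ j = σ j) ∧ τ i < σ i

/-- the rows-by-columns function `e_β` on words `Fin n → Fin r` (product of 0/1 determinants) -/
def eb {n r b : ℕ} (β : Fin n ≃ Fin r × Fin b) (w : Fin n → Fin r) : ℤ :=
  ∏ c : Fin b, (Matrix.of fun i j : Fin r => if w (β.symm (i, c)) = j then (1 : ℤ) else 0).det

/-- the pure lattice spanned by the `e_β` -/
def latS (n r b : ℕ) : Submodule ℤ ((Fin n → Fin r) → ℤ) where
  carrier := {f | ∃ N : ℤ, N ≠ 0 ∧ N • f ∈ Submodule.span ℤ (Set.range (eb (n := n) (r := r) (b := b)))}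
  zero_mem' := ⟨1, one_ne_zero, by simp⟩
  add_mem' := by
    rintro f g ⟨N, hN, hf⟩ ⟨M, hM, hg⟩
    refine ⟨N * M, mul_ne_zero hN hM, ?_⟩
    have h1 : (N * M) • (f + g) = M • (N • f) + N • (M • g) := by
      rw [smul_add, mul_smul, mul_smul, smul_comm N M f]
    rw [h1]
    exact Submodule.add_mem _ (Submodule.smul_mem _ _ hf) (Submodule.smul_mem _ _ hg)
  smul_mem' := by
    rintro c f ⟨N, hN, hf⟩
    refine ⟨N, hN, ?_⟩
    rw [smul_comm]
    exact Submodule.smul_mem _ _ hf

/-- number of positions `< k` of `w` with letter `j` -/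
def cnt {n r : ℕ} (w : Fin n → Fin r) (k : ℕ) (j : Fin r) : ℕ :=
  (univ.filter fun x : Fin n => x.val < k ∧ w x = j).card

/-- every letter occurs exactly `b` times -/
def Bal {n r : ℕ} (b : ℕ) (w : Fin n → Fin r) : Prop := ∀ j, cnt w n j = b

/-- ballot words -/
def Ballot {n r : ℕ} (w : Fin n → Fin r) : Prop :=
  ∀ k : ℕ, ∀ i j : Fin r, i ≤ j → cnt w k j ≤ cnt w k i

/-- action of permutations of the positions on functions of words -/
def act {n r : ℕ} (σ : Perm (Fin n)) : ((Fin n → Fin r) → ℤ) →ₗ[ℤ] ((Fin n → Fin r) → ℤ) where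
  toFun f := fun w => f (w ∘ σ)
  map_add' _ _ := rfl
  map_smul' _ _ := rfl

/-- reduction modulo `p` of group rings -/
noncomputable def red (p : ℕ) (G : Type*) [Group G] :
    MonoidAlgebra ℤ G →+* MonoidAlgebra (ZMod p) G :=
  MonoidAlgebra.mapRingHom G (Int.castRingHom (ZMod p))

/-- the element `∑ χ(g)⁻¹ g` of the group algebra -/
noncomputable def normEl {K G : Type*} [Semiring K] [Group G] [Fintype G] (χ : G → K) :
    MonoidAlgebra K G :=
  ∑ g : G, MonoidAlgebra.single g (χ g⁻¹)

/-- the mod `p` reduction of a sign character -/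
noncomputable def chiP (p : ℕ) {G : Type*} [Group G] (χ : G →* ℤˣ) : G →* ZMod p :=
  ((Int.castRingHom (ZMod p)).toMonoidHom.comp (Units.coeHom ℤ)).comp χ

end Pool.PI34.C0

end

/-! ### part S_Comm -/
section

/-!
PI34, block S, file 1: supercommutative rings, the exterior algebra, extension of scalars.
-/

set_option autoImplicit false

namespace Pool.PI34.SS

open Finset

/-- supercommutative rings -/
structure SuperComm (G : Type*) [Ring G] where
  /-- the even part -/
  ev : AddSubgroup G
  /-- the odd part -/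
  od : AddSubgroup G
  one_mem : (1 : G) ∈ ev
  ev_ev : ∀ a ∈ ev, ∀ b ∈ ev, a * b ∈ ev
  ev_od : ∀ a ∈ ev, ∀ b ∈ od, a * b ∈ od
  od_od : ∀ a ∈ od, ∀ b ∈ od, a * b ∈ ev
  comm : ∀ a ∈ ev, ∀ b, a * b = b * a
  anti : ∀ a ∈ od, ∀ b ∈ od, a * b = -(b * a)
  sq : ∀ a ∈ od, a * a = 0
  dec : ∀ g, ∃ a ∈ ev, ∃ b ∈ od, g = a + b

section ext

variable {M : Type*} [AddCommGroup M]

theorem ext_swap (m n : M) : CliffordAlgebra.ι (0 : QuadraticForm ℤ M) m * CliffordAlgebra.ι (0 : QuadraticForm ℤ M) n
    = -(CliffordAlgebra.ι (0 : QuadraticForm ℤ M) n * CliffordAlgebra.ι (0 : QuadraticForm ℤ M) m) :=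
  eq_neg_of_add_eq_zero_left (ExteriorAlgebra.ι_add_mul_swap (R := ℤ) m n)

theorem ext_ev_ι (a : CliffordAlgebra (0 : QuadraticForm ℤ M)) (ha : a ∈ CliffordAlgebra.evenOdd (0 : QuadraticForm ℤ M) 0) (m : M) :
    a * CliffordAlgebra.ι (0 : QuadraticForm ℤ M) m = CliffordAlgebra.ι (0 : QuadraticForm ℤ M) m * a := by
  induction a, ha using CliffordAlgebra.even_induction with
  | algebraMap r => exact Algebra.commutes r _
  | add x y hx hy h1 h2 => rw [add_mul, mul_add, h1, h2]
  | ι_mul_ι_mul m₁ m₂ x hx h =>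
    calc CliffordAlgebra.ι (0 : QuadraticForm ℤ M) m₁ * CliffordAlgebra.ι (0 : QuadraticForm ℤ M) m₂ * x * CliffordAlgebra.ι (0 : QuadraticForm ℤ M) m
        = CliffordAlgebra.ι (0 : QuadraticForm ℤ M) m₁ * (CliffordAlgebra.ι (0 : QuadraticForm ℤ M) m₂ * CliffordAlgebra.ι (0 : QuadraticForm ℤ M) m) * x := by
          simp only [mul_assoc, h]
      _ = -((CliffordAlgebra.ι (0 : QuadraticForm ℤ M) m₁ * CliffordAlgebra.ι (0 : QuadraticForm ℤ M) m) *
            CliffordAlgebra.ι (0 : QuadraticForm ℤ M) m₂ * x) := by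
          rw [ext_swap m₂ m]; simp only [mul_neg, neg_mul, mul_assoc]
      _ = CliffordAlgebra.ι (0 : QuadraticForm ℤ M) m *
            (CliffordAlgebra.ι (0 : QuadraticForm ℤ M) m₁ * CliffordAlgebra.ι (0 : QuadraticForm ℤ M) m₂ * x) := by
          rw [ext_swap m₁ m]; simp only [neg_mul, neg_neg, mul_assoc]

theorem ext_od_ι (a : CliffordAlgebra (0 : QuadraticForm ℤ M)) (ha : a ∈ CliffordAlgebra.evenOdd (0 : QuadraticForm ℤ M) 1) (m : M) :
    a * CliffordAlgebra.ι (0 : QuadraticForm ℤ M) m = -(CliffordAlgebra.ι (0 : QuadraticForm ℤ M) m * a) := by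
  induction a, ha using CliffordAlgebra.odd_induction with
  | ι v => exact ext_swap v m
  | add x y hx hy h1 h2 => rw [add_mul, mul_add, h1, h2, neg_add]
  | ι_mul_ι_mul m₁ m₂ x hx h =>
    have h2 := ext_ev_ι _ (CliffordAlgebra.ι_mul_ι_mem_evenOdd_zero (0 : QuadraticForm ℤ M) m₁ m₂) m
    rw [mul_assoc, h, mul_neg, ← mul_assoc, h2, mul_assoc]

theorem ext_ev_comm (a : CliffordAlgebra (0 : QuadraticForm ℤ M)) (ha : a ∈ CliffordAlgebra.evenOdd (0 : QuadraticForm ℤ M) 0)
    (b : CliffordAlgebra (0 : QuadraticForm ℤ M)) : a * b = b * a := by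
  induction b using CliffordAlgebra.induction with
  | algebraMap r => exact (Algebra.commutes r _).symm
  | ι x => exact ext_ev_ι a ha x
  | mul x y h1 h2 => rw [← mul_assoc, h1, mul_assoc, h2, mul_assoc]
  | add x y h1 h2 => rw [mul_add, add_mul, h1, h2]

theorem ext_od_anti (a : CliffordAlgebra (0 : QuadraticForm ℤ M)) (ha : a ∈ CliffordAlgebra.evenOdd (0 : QuadraticForm ℤ M) 1)
    (b : CliffordAlgebra (0 : QuadraticForm ℤ M)) (hb : b ∈ CliffordAlgebra.evenOdd (0 : QuadraticForm ℤ M) 1) :
    a * b = -(b * a) := by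
  induction b, hb using CliffordAlgebra.odd_induction with
  | ι v => exact ext_od_ι a ha v
  | add x y hx hy h1 h2 => rw [mul_add, add_mul, h1, h2, neg_add]
  | ι_mul_ι_mul m₁ m₂ x hx h =>
    have h2 := ext_ev_comm _ (CliffordAlgebra.ι_mul_ι_mem_evenOdd_zero (0 : QuadraticForm ℤ M) m₁ m₂) a
    rw [← mul_assoc, ← h2, mul_assoc, h, mul_neg, ← mul_assoc]

theorem ext_od_sq (a : CliffordAlgebra (0 : QuadraticForm ℤ M)) (ha : a ∈ CliffordAlgebra.evenOdd (0 : QuadraticForm ℤ M) 1) :
    a * a = 0 := by
  induction a, ha using CliffordAlgebra.odd_induction with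
  | ι v => exact ExteriorAlgebra.ι_sq_zero (R := ℤ) v
  | add x y hx hy h1 h2 =>
    rw [add_mul, mul_add, mul_add, h1, h2, ext_od_anti x hx y hy]; abel
  | ι_mul_ι_mul m₁ m₂ x hx h =>
    have h2 := ext_ev_comm _ (CliffordAlgebra.ι_mul_ι_mem_evenOdd_zero (0 : QuadraticForm ℤ M) m₁ m₂) x
    calc CliffordAlgebra.ι (0 : QuadraticForm ℤ M) m₁ * CliffordAlgebra.ι (0 : QuadraticForm ℤ M) m₂ * x *
          (CliffordAlgebra.ι (0 : QuadraticForm ℤ M) m₁ * CliffordAlgebra.ι (0 : QuadraticForm ℤ M) m₂ * x)
        = CliffordAlgebra.ι (0 : QuadraticForm ℤ M) m₁ * CliffordAlgebra.ι (0 : QuadraticForm ℤ M) m₂ *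
          (x * (CliffordAlgebra.ι (0 : QuadraticForm ℤ M) m₁ * CliffordAlgebra.ι (0 : QuadraticForm ℤ M) m₂)) * x := by
          simp only [mul_assoc]
      _ = CliffordAlgebra.ι (0 : QuadraticForm ℤ M) m₁ * CliffordAlgebra.ι (0 : QuadraticForm ℤ M) m₂ *
          (CliffordAlgebra.ι (0 : QuadraticForm ℤ M) m₁ * CliffordAlgebra.ι (0 : QuadraticForm ℤ M) m₂) * (x * x) := by
          rw [← h2]; simp only [mul_assoc]
      _ = 0 := by rw [h, mul_zero]

/-- The exterior algebra is supercommutative. -/
noncomputable def extSC (M : Type*) [AddCommGroup M] : SuperComm (ExteriorAlgebra ℤ M) where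
  ev := (CliffordAlgebra.evenOdd (0 : QuadraticForm ℤ M) 0).toAddSubgroup
  od := (CliffordAlgebra.evenOdd (0 : QuadraticForm ℤ M) 1).toAddSubgroup
  one_mem := CliffordAlgebra.one_le_evenOdd_zero _ (Submodule.one_le.1 le_rfl)
  ev_ev a ha b hb := by
    have := CliffordAlgebra.evenOdd_mul_le (0 : QuadraticForm ℤ M) 0 0
      (Submodule.mul_mem_mul ha hb)
    rwa [add_zero] at this
  ev_od a ha b hb := by
    have := CliffordAlgebra.evenOdd_mul_le (0 : QuadraticForm ℤ M) 0 1
      (Submodule.mul_mem_mul ha hb)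
    rwa [zero_add] at this
  od_od a ha b hb := by
    have := CliffordAlgebra.evenOdd_mul_le (0 : QuadraticForm ℤ M) 1 1
      (Submodule.mul_mem_mul ha hb)
    have h2 : (1 : ZMod 2) + 1 = 0 := by decide
    rwa [h2] at this
  comm a ha b := ext_ev_comm a ha b
  anti a ha b hb := ext_od_anti a ha b hb
  sq a ha := ext_od_sq a ha
  dec g := by
    have h := (CliffordAlgebra.evenOdd_isCompl (0 : QuadraticForm ℤ M)).sup_eq_top
    have hg : g ∈ CliffordAlgebra.evenOdd (0 : QuadraticForm ℤ M) 0 ⊔
        CliffordAlgebra.evenOdd (0 : QuadraticForm ℤ M) 1 := by rw [h]; trivial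
    obtain ⟨a, ha, b, hb, hab⟩ := Submodule.mem_sup.1 hg
    exact ⟨a, ha, b, hb, hab.symm⟩

theorem ι_mem_od (m : M) : ExteriorAlgebra.ι ℤ m ∈ (extSC M).od :=
  CliffordAlgebra.ι_mem_evenOdd_one _ m

end ext

section tensor

open TensorProduct

variable {G T : Type*} [Ring G] [CommRing T]

/-- the tensors with right factor in `A` -/
def tsub (T : Type*) [CommRing T] {G : Type*} [Ring G] (A : AddSubgroup G) :
    AddSubgroup (T ⊗[ℤ] G) where
  carrier := (AddSubmonoid.closure {x : T ⊗[ℤ] G | ∃ t : T, ∃ a ∈ A, x = t ⊗ₜ[ℤ] a} : Set _)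
  zero_mem' := zero_mem _
  add_mem' := fun h1 h2 => add_mem h1 h2
  neg_mem' := by
    intro x hx
    induction hx using AddSubmonoid.closure_induction with
    | mem x hx =>
      obtain ⟨t, a, ha, rfl⟩ := hx
      refine AddSubmonoid.subset_closure ⟨-t, a, ha, ?_⟩
      rw [TensorProduct.neg_tmul]
    | zero => rw [neg_zero]; exact zero_mem _
    | add y z _ _ h1 h2 => rw [neg_add]; exact add_mem h1 h2

theorem tmul_mem_tsub {A : AddSubgroup G} (t : T) {a : G} (ha : a ∈ A) :
    t ⊗ₜ[ℤ] a ∈ tsub T A := AddSubmonoid.subset_closure ⟨t, a, ha, rfl⟩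

theorem tsub_induction {A : AddSubgroup G} {p : T ⊗[ℤ] G → Prop}
    (h1 : ∀ (t : T), ∀ a ∈ A, p (t ⊗ₜ[ℤ] a)) (h0 : p 0) (h2 : ∀ x y, x ∈ tsub T A → y ∈ tsub T A →
      p x → p y → p (x + y))
    {x : T ⊗[ℤ] G} (hx : x ∈ tsub T A) : p x := by
  have hx' : x ∈ AddSubmonoid.closure {x : T ⊗[ℤ] G | ∃ t : T, ∃ a ∈ A, x = t ⊗ₜ[ℤ] a} := hx
  clear hx
  induction hx' using AddSubmonoid.closure_induction with
  | mem x hx => obtain ⟨t, a, ha, rfl⟩ := hx; exact h1 t a ha
  | zero => exact h0
  | add y z hy hz h3 h4 => exact h2 y z hy hz h3 h4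

theorem tsub_mul {A B C : AddSubgroup G} (h : ∀ a ∈ A, ∀ b ∈ B, a * b ∈ C)
    (x : T ⊗[ℤ] G) (hx : x ∈ tsub T A) (y : T ⊗[ℤ] G) (hy : y ∈ tsub T B) :
    x * y ∈ tsub T C := by
  refine tsub_induction (p := fun x => x * y ∈ tsub T C) (fun t a ha => ?_) ?_ ?_ hx
  · refine tsub_induction (p := fun y => t ⊗ₜ[ℤ] a * y ∈ tsub T C) (fun u b hb => ?_) ?_ ?_ hy
    · rw [Algebra.TensorProduct.tmul_mul_tmul]
      exact tmul_mem_tsub _ (h a ha b hb)
    · rw [mul_zero]; exact zero_mem _
    · intro y z _ _ h1 h2; rw [mul_add]; exact add_mem h1 h2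
  · rw [zero_mul]; exact zero_mem _
  · intro y z _ _ h1 h2; rw [add_mul]; exact add_mem h1 h2

theorem tsub_anti (h : SuperComm G) (x : T ⊗[ℤ] G) (hx : x ∈ tsub T h.od) (y : T ⊗[ℤ] G)
    (hy : y ∈ tsub T h.od) : x * y = -(y * x) := by
  refine tsub_induction (p := fun x => x * y = -(y * x)) (fun t a ha => ?_) ?_ ?_ hx
  · refine tsub_induction (p := fun y => t ⊗ₜ[ℤ] a * y = -(y * t ⊗ₜ[ℤ] a))
      (fun u b hb => ?_) ?_ ?_ hy
    · rw [Algebra.TensorProduct.tmul_mul_tmul, Algebra.TensorProduct.tmul_mul_tmul, mul_comm,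
        h.anti a ha b hb, TensorProduct.tmul_neg]
    · rw [mul_zero, zero_mul, neg_zero]
    · intro y z _ _ h1 h2; rw [mul_add, add_mul, h1, h2, neg_add]
  · rw [mul_zero, zero_mul, neg_zero]
  · intro y z _ _ h1 h2; rw [add_mul, mul_add, h1, h2, neg_add]

/-- Extension of scalars of a supercommutative ring. -/
def SuperComm.tensor (T : Type*) [CommRing T] {G : Type*} [Ring G] (h : SuperComm G) :
    SuperComm (T ⊗[ℤ] G) where
  ev := tsub T h.ev
  od := tsub T h.od
  one_mem := tmul_mem_tsub 1 h.one_mem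
  ev_ev := tsub_mul h.ev_ev
  ev_od := tsub_mul h.ev_od
  od_od := tsub_mul h.od_od
  comm x hx y := by
    refine tsub_induction (p := fun x => x * y = y * x) (fun t a ha => ?_) ?_ ?_ hx
    · induction y using TensorProduct.induction_on with
      | zero => rw [mul_zero, zero_mul]
      | tmul u b =>
        rw [Algebra.TensorProduct.tmul_mul_tmul, Algebra.TensorProduct.tmul_mul_tmul, mul_comm,
          h.comm a ha b]
      | add y z h1 h2 => rw [mul_add, add_mul, h1, h2]
    · rw [mul_zero, zero_mul]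
    · intro y z _ _ h1 h2; rw [add_mul, mul_add, h1, h2]
  anti := tsub_anti h
  sq x hx := by
    refine tsub_induction (p := fun x => x * x = 0) (fun t a ha => ?_) ?_ ?_ hx
    · rw [Algebra.TensorProduct.tmul_mul_tmul, h.sq a ha, TensorProduct.tmul_zero]
    · rw [mul_zero]
    · intro y z hy hz h1 h2
      rw [add_mul, mul_add, mul_add, h1, h2, tsub_anti h y hy z hz]; abel
  dec x := by
    induction x using TensorProduct.induction_on with
    | zero => exact ⟨0, zero_mem _, 0, zero_mem _, (add_zero 0).symm⟩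
    | tmul t g =>
      obtain ⟨a, ha, b, hb, rfl⟩ := h.dec g
      exact ⟨_, tmul_mem_tsub t ha, _, tmul_mem_tsub t hb, TensorProduct.tmul_add _ _ _⟩
    | add x y h1 h2 =>
      obtain ⟨a, ha, b, hb, rfl⟩ := h1
      obtain ⟨c, hc, d, hd, rfl⟩ := h2
      exact ⟨_, add_mem ha hc, _, add_mem hb hd, by abel⟩

end tensor

end Pool.PI34.SS

end

/-! ### part BA_F1 -/
section

/-! PI34, block BA, file F1: the matrix string system. -/

set_option autoImplicit false

namespace Pool.PI34.BA

open Equiv Finset Matrix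

variable (k : ℕ) (C ι : Type) [CommRing C] [Fintype ι] [DecidableEq ι]

/-- the matrix `M` acting on the strand `i` of the functions of words `ι → Fin k` -/
def matRho (i : ι) (M : Matrix (Fin k) (Fin k) C) : Module.End C ((ι → Fin k) → C) where
  toFun v f := ∑ c, M (f i) c * v (Function.update f i c)
  map_add' u v := by
    funext f
    simp [mul_add, Finset.sum_add_distrib]
  map_smul' a v := by
    funext f
    simp [Finset.mul_sum, mul_left_comm]

/-- a permutation of the strands -/
def matS (σ : Perm ι) : Module.End C ((ι → Fin k) → C) where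
  toFun v f := v (f ∘ σ)
  map_add' _ _ := rfl
  map_smul' _ _ := rfl

/-- the matrix string system: letters `k × k` matrices over `C` -/
noncomputable def matStr : Str ι (Matrix (Fin k) (Fin k) C) (Module.End C ((ι → Fin k) → C)) where
  ρ i :=
    { toFun := matRho k C ι i
      map_one' := by
        ext v f
        simp [matRho, Matrix.one_apply]
      map_mul' := by
        intro M N
        ext v f
        simp only [matRho, Module.End.mul_apply, LinearMap.comp_apply, LinearMap.coe_mk,
          AddHom.coe_mk, Matrix.mul_apply, Finset.sum_mul, Finset.mul_sum,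
          Function.update_self, Function.update_idem, mul_assoc]
        rw [Finset.sum_comm]
      map_zero' := by
        ext v f
        simp [matRho]
      map_add' := by
        intro M N
        ext v f
        simp [matRho, add_mul, Finset.sum_add_distrib] }
  s :=
    { toFun := matS k C ι
      map_one' := rfl
      map_mul' := fun σ τ => rfl }
  comm i j hij M N := by
    refine LinearMap.ext fun v => funext fun f => ?_
    change ∑ c, M (f i) c * ∑ d, N (Function.update f i c j) d *
      v (Function.update (Function.update f i c) j d) =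
      ∑ d, N (f j) d * ∑ c, M (Function.update f j d i) c *
      v (Function.update (Function.update f j d) i c)
    simp only [Finset.mul_sum]
    rw [Finset.sum_comm]
    refine Finset.sum_congr rfl fun d _ => Finset.sum_congr rfl fun c _ => ?_
    rw [Function.update_of_ne (Ne.symm hij), Function.update_of_ne hij,
      Function.update_comm hij, mul_left_comm]
  conj σ i M := by
    refine LinearMap.ext fun v => funext fun f => ?_
    change ∑ c, M (f (σ i)) c * v (Function.update (f ∘ σ) i c) =
      ∑ c, M (f (σ i)) c * v ((Function.update f (σ i) c) ∘ σ)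
    refine Finset.sum_congr rfl fun c _ => ?_
    rw [Function.update_comp_eq_of_injective f σ.injective]

variable {k C ι}

/-- pigeonhole: `f` is not injective on `T`, `f ∘ (i j) = f`, the terms cancel in pairs -/
theorem matStr_Anti : Anti (matStr k C ι).s k := by
  intro T hT
  refine LinearMap.ext fun v => funext fun f => ?_
  have h1 : anti (matStr k C ι).s T v f =
      ∑ σ ∈ permsOn T, ((Perm.sign σ : ℤˣ) : ℤ) • v (f ∘ σ) := by
    unfold anti
    rw [LinearMap.sum_apply, Finset.sum_apply]
    rfl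
  rw [h1]
  change _ = (0 : C)
  obtain ⟨i, hi, j, hj, hij, hf⟩ : ∃ i ∈ T, ∃ j ∈ T, i ≠ j ∧ f i = f j := by
    refine Finset.exists_ne_map_eq_of_card_lt_of_maps_to (t := (univ : Finset (Fin k))) ?_
      (fun _ _ => Finset.mem_coe.2 (Finset.mem_univ _))
    rw [hT, Finset.card_univ, Fintype.card_fin]
    exact Nat.lt_succ_self k
  have hfs : ∀ x, f (Equiv.swap i j x) = f x := by
    intro x
    by_cases hx : x = i
    · rw [hx, Equiv.swap_apply_left, hf]
    · by_cases hx' : x = j
      · rw [hx', Equiv.swap_apply_right, hf]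
      · rw [Equiv.swap_apply_of_ne_of_ne hx hx']
  refine Finset.sum_involution (fun σ _ => Equiv.swap i j * σ) ?_ ?_ ?_ ?_
  · intro σ _
    have h2 : f ∘ (Equiv.swap i j * σ : Perm ι) = f ∘ σ := funext fun x => hfs (σ x)
    rw [h2, Perm.sign_mul, Perm.sign_swap hij]
    simp
  · intro σ _ _ h3
    have h4 : Equiv.swap i j = 1 := mul_eq_right.1 h3
    exact hij (Equiv.swap_eq_one_iff.1 h4)
  · intro σ hσ
    simp only [permsOn, Finset.mem_filter, Finset.mem_univ, true_and] at hσ ⊢
    intro x hx
    rw [Perm.mul_apply, hσ x hx]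
    refine Equiv.swap_apply_of_ne_of_ne ?_ ?_
    · rintro rfl
      exact hx hi
    · rintro rfl
      exact hx hj
  · intro σ _
    rw [← mul_assoc, Equiv.swap_mul_self, one_mul]

end Pool.PI34.BA

end

/-! ### part BA_G0 -/
section

/-! PI34, block BA, file G0: string systems from letters; statement of BA. -/

set_option autoImplicit false

namespace Pool.PI34.BA

open Equiv Finset

variable {ι E : Type*} [Fintype ι] [DecidableEq ι] [Ring E]

/-- a string system over the free algebra from the operators `x j a` of the letters `a` on the strands `j` -/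
noncomputable def Str.ofLetters {X : Type*} (x : ι → X → E) (s : Perm ι →* E)
    (hx : ∀ i j, i ≠ j → ∀ a b, x i a * x j b = x j b * x i a)
    (hs : ∀ σ i a, s σ * x i a = x (σ i) a * s σ) : Str ι (FreeAlgebra ℤ X) E where
  ρ i := (FreeAlgebra.lift ℤ (x i) : FreeAlgebra ℤ X →ₐ[ℤ] E)
  s := s
  comm i j hij a b := by
    induction a using FreeAlgebra.induction with
    | grade0 r => simp [Int.cast_comm]
    | grade1 y =>
      induction b using FreeAlgebra.induction with
      | grade0 r => simp [Int.cast_comm]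
      | grade1 w => simpa using hx i j hij y w
      | mul u v hu hv =>
        simp only [map_mul, RingHom.coe_coe, FreeAlgebra.lift_ι_apply] at hu hv ⊢
        rw [← mul_assoc, hu, mul_assoc, hv, mul_assoc]
      | add u v hu hv =>
        simp only [map_add, RingHom.coe_coe, FreeAlgebra.lift_ι_apply] at hu hv ⊢
        rw [mul_add, add_mul, hu, hv]
    | mul u v hu hv =>
      simp only [map_mul, RingHom.coe_coe] at hu hv ⊢
      rw [mul_assoc, hv, ← mul_assoc, hu, mul_assoc]
    | add u v hu hv =>
      simp only [map_add, RingHom.coe_coe] at hu hv ⊢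
      rw [mul_add, add_mul, hu, hv]
  conj σ i a := by
    induction a using FreeAlgebra.induction with
    | grade0 r => simp [Int.cast_comm]
    | grade1 y => simpa using hs σ i y
    | mul u v hu hv =>
      simp only [map_mul, RingHom.coe_coe] at hu hv ⊢
      rw [← mul_assoc, hu, mul_assoc, hv, mul_assoc]
    | add u v hu hv =>
      simp only [map_add, RingHom.coe_coe] at hu hv ⊢
      rw [mul_add, add_mul, hu, hv]

@[simp] theorem ofLetters_rho_ι {X : Type*} (x : ι → X → E) (s : Perm ι →* E)
    (hx : ∀ i j, i ≠ j → ∀ a b, x i a * x j b = x j b * x i a)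
    (hs : ∀ σ i a, s σ * x i a = x (σ i) a * s σ) (i : ι) (a : X) :
    (Str.ofLetters x s hx hs).ρ i (FreeAlgebra.ι ℤ a) = x i a := by
  simp [Str.ofLetters]

@[simp] theorem ofLetters_s {X : Type*} (x : ι → X → E) (s : Perm ι →* E)
    (hx : ∀ i j, i ≠ j → ∀ a b, x i a * x j b = x j b * x i a)
    (hs : ∀ σ i a, s σ * x i a = x (σ i) a * s σ) : (Str.ofLetters x s hx hs).s = s := rfl

end Pool.PI34.BA

end

/-! ### part S_Nil -/
section

/-!
PI34, block S, file 2: in matrices over a supercommutative ring a product with more than `m * m`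
occurrences of an odd matrix vanishes.
-/

set_option autoImplicit false

namespace Pool.PI34.SS

open Finset

/-- `u₁ y u₂ y ... u_n y` -/
def sand {A : Type*} [Ring A] (y : A) : List A → A
  | [] => 1
  | u :: L => u * y * sand y L

theorem sum_pow_zero {S κ : Type*} [Semiring S] (a : κ → S) (s : Finset κ)
    (hc : ∀ i j, a i * a j = a j * a i) (hs : ∀ i, a i * a i = 0) :
    (∑ i ∈ s, a i) ^ (s.card + 1) = 0 := by
  classical
  induction s using Finset.induction_on with
  | empty => simp
  | insert x s hx ih =>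
    rw [Finset.sum_insert hx, Finset.card_insert_of_notMem hx]
    have hcom : Commute (a x) (∑ i ∈ s, a i) := Commute.sum_right _ _ _ (fun i _ => hc x i)
    rw [hcom.add_pow]
    refine Finset.sum_eq_zero (fun k hk => ?_)
    rw [Finset.mem_range] at hk
    by_cases h2 : 2 ≤ k
    · obtain ⟨j, rfl⟩ := Nat.exists_eq_add_of_le h2
      rw [pow_add, pow_two, hs, zero_mul, zero_mul, zero_mul]
    · have : s.card + 1 ≤ s.card + 1 + 1 - k := by omega
      obtain ⟨j, hj⟩ := Nat.exists_eq_add_of_le this
      rw [hj, pow_add, ih, zero_mul, mul_zero, zero_mul]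

variable {G : Type*} [Ring G]

theorem le_sum_sub {κ : Type*} (a : κ → Submodule ℤ G) (s : Finset κ) (i : κ) (hi : i ∈ s) :
    a i ≤ ∑ j ∈ s, a j := by
  classical
  rw [← Finset.add_sum_erase _ _ hi, Submodule.add_eq_sup]
  exact le_sup_left

theorem odd_move (h : SuperComm G) {y : G} (hy : y ∈ h.od) (g : G) : ∃ g', y * g = g' * y := by
  obtain ⟨a, ha, b, hb, rfl⟩ := h.dec g
  refine ⟨a - b, ?_⟩
  rw [mul_add, sub_mul, ← h.comm a ha y, h.anti y hy b hb, sub_eq_add_neg]

theorem odd_sandwich (h : SuperComm G) {y : G} (hy : y ∈ h.od) (g : G) : y * g * y = 0 := by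
  obtain ⟨g', hg⟩ := odd_move h hy g
  rw [hg, mul_assoc, h.sq y hy, mul_zero]

/-- the left ideal generated by `y`, as an additive group -/
def lid (y : G) : Submodule ℤ G := Submodule.span ℤ {x | ∃ g, x = g * y}

theorem mem_lid (g y : G) : g * y ∈ lid y := Submodule.subset_span ⟨g, rfl⟩

theorem lid_sq (h : SuperComm G) {y : G} (hy : y ∈ h.od) : lid y * lid y = 0 := by
  unfold lid
  rw [Submodule.span_mul_span, Submodule.zero_eq_bot, Submodule.span_eq_bot]
  rintro x ⟨_, ⟨g, rfl⟩, _, ⟨g', rfl⟩, rfl⟩
  simp only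
  rw [mul_assoc, ← mul_assoc y, odd_sandwich h hy, mul_zero]

theorem lid_comm_le (h : SuperComm G) {y z : G} (hy : y ∈ h.od) (hz : z ∈ h.od) :
    lid y * lid z ≤ lid z * lid y := by
  unfold lid
  rw [Submodule.span_mul_span, Submodule.span_mul_span]
  refine Submodule.span_mono ?_
  rintro x ⟨_, ⟨g, rfl⟩, _, ⟨g', rfl⟩, rfl⟩
  obtain ⟨g'', hg⟩ := odd_move h hy g'
  refine ⟨-(g * g'') * z, ⟨_, rfl⟩, 1 * y, ⟨_, rfl⟩, ?_⟩
  simp only
  calc -(g * g'') * z * (1 * y) = (g * g'') * (-(z * y)) := by noncomm_ring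
    _ = (g * g'') * (y * z) := by rw [h.anti y hy z hz]
    _ = g * (g'' * y) * z := by noncomm_ring
    _ = g * y * (g' * z) := by rw [← hg]; noncomm_ring

theorem lid_pow (h : SuperComm G) {κ : Type*} [Fintype κ] (y : κ → G) (hy : ∀ c, y c ∈ h.od) :
    (∑ c, lid (y c)) ^ (Fintype.card κ + 1) = 0 :=
  sum_pow_zero _ _ (fun i j => le_antisymm (lid_comm_le h (hy i) (hy j))
    (lid_comm_le h (hy j) (hy i))) (fun i => lid_sq h (hy i))

theorem sand_mem {m : ℕ} (Y : Matrix (Fin m) (Fin m) G) (J : Submodule ℤ G)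
    (hJ : ∀ l k, lid (Y l k) ≤ J) (L : List (Matrix (Fin m) (Fin m) G)) :
    ∀ i j, sand Y L i j ∈ J ^ L.length ∨ L.length = 0 := by
  induction L with
  | nil => intro i j; right; rfl
  | cons u L ih =>
    intro i j
    left
    have h2 : ∀ i k, (u * Y) i k ∈ J := by
      intro i k
      rw [Matrix.mul_apply]
      exact Submodule.sum_mem _ (fun l _ => hJ l k (mem_lid _ _))
    rcases Nat.eq_zero_or_pos L.length with h0 | h0
    · rw [List.length_eq_zero_iff] at h0
      subst h0
      simpa [sand] using h2 i j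
    · simp only [sand, List.length_cons]
      rw [Matrix.mul_apply, pow_succ']
      refine Submodule.sum_mem _ (fun k _ => ?_)
      refine Submodule.mul_mem_mul (h2 i k) ?_
      rcases ih k j with h3 | h3
      · exact h3
      · omega

/-- The pigeonhole lemma. -/
theorem sand_eq_zero (h : SuperComm G) {m : ℕ} (Y : Matrix (Fin m) (Fin m) G)
    (hY : ∀ i j, Y i j ∈ h.od) (L : List (Matrix (Fin m) (Fin m) G)) (hL : m * m < L.length) :
    sand Y L = 0 := by
  obtain ⟨J, hJ⟩ : ∃ J : Submodule ℤ G, J = ∑ c : Fin m × Fin m, lid (Y c.1 c.2) := ⟨_, rfl⟩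
  have h0 : ∀ l k, lid (Y l k) ≤ J := fun l k => by
    rw [hJ]
    exact le_sum_sub (fun c : Fin m × Fin m => lid (Y c.1 c.2)) Finset.univ (l, k)
      (Finset.mem_univ _)
  have h2 : J ^ (m * m + 1) = 0 := by
    have := lid_pow h (fun c : Fin m × Fin m => Y c.1 c.2) (fun c => hY c.1 c.2)
    rw [Fintype.card_prod, Fintype.card_fin] at this
    rw [hJ]; exact this
  clear hJ
  ext i j
  have h3 := (sand_mem Y J h0 L i j).resolve_right (by omega)
  obtain ⟨n, hn⟩ := Nat.exists_eq_add_of_le (show m * m + 1 ≤ L.length from hL)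
  rw [hn, pow_add, h2, zero_mul] at h3
  exact (Submodule.mem_bot ℤ).1 h3

end Pool.PI34.SS

end

/-! ### part BA_F3 -/
section

/-! PI34, block BA, file F3: the matrix coefficients of `ρ_z(m) ω`. -/

set_option autoImplicit false

namespace Pool.PI34.BA

open Equiv Finset Matrix

variable {k : ℕ} {C ι : Type} [CommRing C] [Fintype ι] [DecidableEq ι]

/-- a word with the letter `j` at the places `p j` and `q j` -/
noncomputable def baseWord (p q : Fin k ↪ ι) (c : Fin k) : ι → Fin k :=
  Function.extend p id (Function.extend q id fun _ => c)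

/-- the matrix coefficients `(i, j) ↦ (e δ_{b[z → j]})(b[z → i])`, `b` the base word (with `c = i`) -/
noncomputable def coefMat (p q : Fin k ↪ ι) (z : ι) :
    Module.End C ((ι → Fin k) → C) →ₗ[C] Matrix (Fin k) (Fin k) C where
  toFun e := Matrix.of fun i j =>
    e (Pi.single (Function.update (baseWord p q i) z j) 1) (Function.update (baseWord p q i) z i)
  map_add' _ _ := by
    ext i j
    simp
  map_smul' _ _ := by
    ext i j
    simp

theorem F3_anti_apply (T : Finset ι) (v : (ι → Fin k) → C) (f : ι → Fin k) :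
    anti (matStr k C ι).s T v f =
      ∑ σ ∈ permsOn T, ((Perm.sign σ : ℤˣ) : ℤ) • v (f ∘ σ) := by
  unfold anti
  rw [LinearMap.sum_apply, Finset.sum_apply]
  rfl

theorem F3_one_mem (T : Finset ι) : (1 : Perm ι) ∈ permsOn T := by
  simp [permsOn]

/-- only the identity contributes -/
theorem F3_om_single (p q : Fin k ↪ ι) (z : ι) (hF : Frame p q z) (i j c : Fin k) :
    (matStr k C ι).om p q (Pi.single (Function.update (baseWord p q i) z j) 1)
      (Function.update (baseWord p q i) z c) = if c = j then 1 else 0 := by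
  have hp : ∀ x d, Function.update (baseWord p q i) z d (p x) = x := by
    intro x d
    rw [Function.update_of_ne (hF.pz x), baseWord, p.injective.extend_apply, id]
  have hq : ∀ x d, Function.update (baseWord p q i) z d (q x) = x := by
    intro x d
    rw [Function.update_of_ne (hF.qz x), baseWord, Function.extend_apply',
      q.injective.extend_apply, id]
    rintro ⟨a, ha⟩
    exact hF.pq a x ha
  have hz : ∀ d, Function.update (baseWord p q i) z d z = d := fun d => Function.update_self _ _ _
  have hfixT : ∀ (T : Finset ι) (σ : Perm ι), σ ∈ permsOn T → ∀ x, x ∉ T → σ x = x := by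
    intro T σ hσ
    exact (Finset.mem_filter.1 hσ).2
  have hmaps : ∀ (T : Finset ι) (σ : Perm ι), σ ∈ permsOn T → ∀ x, x ∈ T → σ x ∈ T := by
    intro T σ hσ x hx
    by_contra h
    have h1 := hfixT T σ hσ (σ x) h
    have h2 := σ.injective h1
    rw [h2] at h
    exact h hx
  have hpq : ∀ x, p x ∉ univ.map q := by
    intro x hx
    obtain ⟨a, _, ha⟩ := Finset.mem_map.1 hx
    exact hF.pq x a ha.symm
  have hqp : ∀ x, q x ∉ univ.map p := by
    intro x hx
    obtain ⟨a, _, ha⟩ := Finset.mem_map.1 hx
    exact hF.pq a x ha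
  have hzp : z ∉ univ.map p := by
    intro hx
    obtain ⟨a, _, ha⟩ := Finset.mem_map.1 hx
    exact hF.pz a ha
  have hzq : z ∉ univ.map q := by
    intro hx
    obtain ⟨a, _, ha⟩ := Finset.mem_map.1 hx
    exact hF.qz a ha
  change anti (matStr k C ι).s (univ.map p) (anti (matStr k C ι).s (univ.map q)
    (Pi.single (Function.update (baseWord p q i) z j) 1)) _ = _
  rw [F3_anti_apply, Finset.sum_eq_single (1 : Perm ι)]
  · rw [F3_anti_apply, Finset.sum_eq_single (1 : Perm ι)]
    · by_cases hcj : c = j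
      · subst hcj
        simp
      · rw [if_neg hcj]
        have : (Function.update (baseWord p q i) z c ∘ (1 : Perm ι)) ∘ (1 : Perm ι) ≠
            Function.update (baseWord p q i) z j := by
          intro h
          have h1 := congrFun h z
          simp only [Function.comp_apply, Perm.one_apply] at h1
          rw [hz, hz] at h1
          exact hcj h1
        rw [Pi.single_eq_of_ne this]
        simp
    · intro τ hτ hne
      rw [Pi.single_eq_of_ne, smul_zero]
      intro h
      apply hne
      ext x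
      by_cases hx : x ∈ univ.map q
      · have h1 := hmaps _ τ hτ x hx
        obtain ⟨a, _, rfl⟩ := Finset.mem_map.1 hx
        obtain ⟨b, _, hb⟩ := Finset.mem_map.1 h1
        have h2 := congrFun h (q a)
        simp only [Function.comp_apply, Perm.one_apply] at h2
        rw [← hb, hq, hq] at h2
        rw [← hb, h2]
        rfl
      · exact hfixT _ τ hτ x hx
    · intro h
      exact absurd (F3_one_mem _) h
  · intro σ hσ hne
    rw [F3_anti_apply]
    have hzero : ∀ τ ∈ permsOn (univ.map q), ((Perm.sign τ : ℤˣ) : ℤ) •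
        (Pi.single (Function.update (baseWord p q i) z j) (1 : C) : (ι → Fin k) → C)
          ((Function.update (baseWord p q i) z c ∘ σ) ∘ τ) = 0 := by
      intro τ hτ
      rw [Pi.single_eq_of_ne, smul_zero]
      intro h
      apply hne
      ext x
      by_cases hx : x ∈ univ.map p
      · have h1 := hmaps _ σ hσ x hx
        obtain ⟨a, _, rfl⟩ := Finset.mem_map.1 hx
        obtain ⟨b, _, hb⟩ := Finset.mem_map.1 h1
        have h2 := congrFun h (p a)
        simp only [Function.comp_apply] at h2
        rw [hfixT _ τ hτ (p a) (hpq a), ← hb, hp, hp] at h2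
        rw [← hb, h2]
        rfl
      · exact hfixT _ σ hσ x hx
    rw [Finset.sum_eq_zero hzero, smul_zero]
  · intro h
    exact absurd (F3_one_mem _) h

/-- PROOF. `(ρ_z(m) ω δ)(b[z → i]) = Σ_c m(i, c) (ω δ)(b[z → c])` and `(ω δ_{b[z → j]})(b[z → c]) = [c = j]`: the word `b`
is injective on `P` and on `Q`, so in the double sum `ω = Σ ± σ τ` only `σ = τ = 1` contributes. -/
theorem coefMat_rho_om (p q : Fin k ↪ ι) (z : ι) (hF : Frame p q z)
    (m : Matrix (Fin k) (Fin k) C) :
    coefMat p q z ((matStr k C ι).ρ z m * (matStr k C ι).om p q) = m := by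
  ext i j
  change ∑ c, m (Function.update (baseWord p q i) z i z) c *
    (matStr k C ι).om p q (Pi.single (Function.update (baseWord p q i) z j) 1)
      (Function.update (Function.update (baseWord p q i) z i) z c) = m i j
  rw [Function.update_self]
  simp only [Function.update_idem]
  simp only [F3_om_single p q z hF i j, mul_ite, mul_one, mul_zero]
  simp

end Pool.PI34.BA

end

/-! ### part BA_F4 -/
section

/-! PI34, block BA, file F4: the closing determinant for matrices is a determinant. -/

set_option autoImplicit false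

namespace Pool.PI34.BA

open Equiv Finset Matrix

variable {A R : Type} [Fintype A] [DecidableEq A] [CommRing R] {k : ℕ}

/-- a block matrix `1 + e_a r` has the determinant of `1 + r_a` -/
theorem F4_det_row (a : A) (r : A → Matrix (Fin k) (Fin k) R) :
    (Matrix.comp A A (Fin k) (Fin k) R
      (1 + Matrix.of fun b c => if b = a then r c else 0)).det = (1 + r a).det := by
  have h : Matrix.comp A A (Fin k) (Fin k) R
      (1 + Matrix.of fun b c => if b = a then r c else 0) =
      1 + (Matrix.of fun (x : A × Fin k) (j : Fin k) => if x.1 = a ∧ x.2 = j then (1 : R) else 0) *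
        (Matrix.of fun (j : Fin k) (y : A × Fin k) => r y.1 j y.2) := by
    ext ⟨b, i⟩ ⟨c, j⟩
    rw [Matrix.comp_apply, Matrix.add_apply, Matrix.add_apply, Matrix.add_apply, Matrix.mul_apply]
    congr 1
    · by_cases hbc : b = c
      · subst hbc
        by_cases hij : i = j
        · subst hij
          simp
        · rw [Matrix.one_apply_eq, Matrix.one_apply_ne hij, Matrix.one_apply_ne]
          intro hh
          exact hij (Prod.ext_iff.1 hh).2
      · rw [Matrix.one_apply_ne hbc, Matrix.zero_apply, Matrix.one_apply_ne]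
        intro hh
        exact hbc (Prod.ext_iff.1 hh).1
    · simp only [Matrix.of_apply]
      by_cases hb : b = a
      · subst hb
        simp
      · simp [hb]
  rw [h, Matrix.det_one_add_mul_comm]
  congr 1
  congr 1
  ext i j
  rw [Matrix.mul_apply, Fintype.sum_prod_type, Finset.sum_eq_single a]
  · rw [Finset.sum_eq_single j]
    · simp
    · intro b _ hb
      simp [hb]
    · simp
  · intro b _ hb
    simp [hb]
  · simp

/-- PROOF. Induction on `l`: with `M = 1 + t N_l` (blocks), `M_{a :: l} = M + t e_a N_a`, and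
`det(M + t U V) = det(M) det(1 + t V M⁻¹ U)` (`Matrix.det_one_add_mul_comm`), `U = e_a` (a block column),
`V = N_a` (a block row); `V M⁻¹ U = (N M⁻¹)_{aa}`. -/
theorem det_dt (t : R) (hn : IsNilpotent t) (N : Matrix A A (Matrix (Fin k) (Fin k) R))
    (l : List A) (hl : l.Nodup) :
    (dt (Matrix.scalar (Fin k) t) N l).det =
      (1 + t • Matrix.comp A A (Fin k) (Fin k) R (rowsIn N l)).det := by
  have htc : ∀ x : Matrix (Fin k) (Fin k) R,
      Matrix.scalar (Fin k) t * x = x * Matrix.scalar (Fin k) t := by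
    intro x
    ext i j
    simp [Matrix.scalar_apply, mul_comm]
  have htn : IsNilpotent (Matrix.scalar (Fin k) t) := hn.map (Matrix.scalar (Fin k))
  have key : ∀ P : Matrix A A (Matrix (Fin k) (Fin k) R),
      1 + t • Matrix.comp A A (Fin k) (Fin k) R P =
        Matrix.comp A A (Fin k) (Fin k) R (1 + Matrix.scalar (Fin k) t • P) := by
    intro P
    ext ⟨b, i⟩ ⟨c, j⟩
    rw [Matrix.comp_apply, Matrix.add_apply, Matrix.add_apply, Matrix.add_apply]
    congr 1
    · by_cases hbc : b = c
      · subst hbc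
        by_cases hij : i = j
        · subst hij
          simp
        · rw [Matrix.one_apply_eq, Matrix.one_apply_ne hij, Matrix.one_apply_ne]
          intro hh
          exact hij (Prod.ext_iff.1 hh).2
      · rw [Matrix.one_apply_ne hbc, Matrix.zero_apply, Matrix.one_apply_ne]
        intro hh
        exact hbc (Prod.ext_iff.1 hh).1
    · rw [Matrix.smul_apply, Matrix.comp_apply, Matrix.smul_apply, smul_eq_mul, smul_eq_mul,
        Matrix.scalar_apply, Matrix.diagonal_mul]
  induction l with
  | nil =>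
    have h0 : rowsIn N ([] : List A) = 0 := by
      ext b c
      simp [rowsIn]
    rw [h0, key]
    simp only [dt, smul_zero, add_zero, Matrix.det_one]
    have h1 : Matrix.comp A A (Fin k) (Fin k) R 1 = 1 := by
      have h2 := key 0
      rw [smul_zero, add_zero] at h2
      rw [← h2]
      ext ⟨b, i⟩ ⟨c, j⟩
      simp [Matrix.comp_apply]
    rw [h1, Matrix.det_one]
  | cons a l ih =>
    have hal : a ∉ l := (List.nodup_cons.1 hl).1
    have ih' := ih (List.nodup_cons.1 hl).2
    have hu := isUnit_one_add (Matrix.scalar (Fin k) t) htc htn (rowsIn N l)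
    set M := 1 + Matrix.scalar (Fin k) t • rowsIn N l with hM
    have hMi : Ring.inverse M * M = 1 := Ring.inverse_mul_cancel M hu
    have e1 : 1 + Matrix.scalar (Fin k) t • rowsIn N (a :: l) =
        (1 + Matrix.of fun b c => if b = a then
          (Matrix.scalar (Fin k) t • (N * Ring.inverse M)) a c else 0) * M := by
      have e2 : (Matrix.of fun b c => if b = a then
          (Matrix.scalar (Fin k) t • (N * Ring.inverse M)) a c else 0) =
          (Matrix.of fun b c => if b = a then
            (Matrix.scalar (Fin k) t • N) a c else 0) * Ring.inverse M := by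
        ext1 b c
        rw [Matrix.mul_apply]
        by_cases hb : b = a
        · subst hb
          simp only [Matrix.of_apply, if_true, Matrix.smul_apply, Matrix.mul_apply, smul_eq_mul,
            Finset.mul_sum, mul_assoc]
        · simp [hb]
      rw [e2, add_mul, one_mul, mul_assoc, hMi, mul_one, hM, add_assoc]
      congr 1
      ext1 b c
      by_cases hb : b = a
      · subst hb
        simp [rowsIn, hal]
      · simp [rowsIn, hb]
    have e3 : Matrix.comp A A (Fin k) (Fin k) R
        ((1 + Matrix.of fun b c => if b = a then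
          (Matrix.scalar (Fin k) t • (N * Ring.inverse M)) a c else 0) * M) =
        Matrix.comp A A (Fin k) (Fin k) R
        (1 + Matrix.of fun b c => if b = a then
          (Matrix.scalar (Fin k) t • (N * Ring.inverse M)) a c else 0) *
        Matrix.comp A A (Fin k) (Fin k) R M := by
      exact map_mul (Matrix.compRingEquiv A (Fin k) R) _ _
    rw [key, e1, e3, Matrix.det_mul, F4_det_row, ← key, ← ih', dt, Matrix.det_mul, mul_comm]
    congr 1

end Pool.PI34.BA

end

/-! ### part BA_F2 -/
section

/-! PI34, block BA, file F2: `D(u) ω = det(u) ω` for the matrix string system. -/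

set_option autoImplicit false

namespace Pool.PI34.BA

open Equiv Finset Matrix

variable {k : ℕ} {C ι : Type} [CommRing C] [Fintype ι] [DecidableEq ι]

theorem F2_extend_cons {m : ℕ} (e : Fin (m + 1) ↪ ι) (c : Fin k) (g : Fin m → Fin k)
    (f : ι → Fin k) :
    Function.extend (fun i : Fin m => e i.succ) g (Function.update f (e 0) c) =
      Function.extend e (Fin.cons c g : Fin (m + 1) → Fin k) f := by
  have hinj : Function.Injective (fun i : Fin m => e i.succ) := fun a b hab =>
    Fin.succ_injective m (e.injective hab)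
  funext x
  by_cases hx : ∃ i, e i = x
  · obtain ⟨i, rfl⟩ := hx
    rw [e.injective.extend_apply]
    refine Fin.cases ?_ (fun j => ?_) i
    · rw [Function.extend_apply', Function.update_self, Fin.cons_zero]
      rintro ⟨a, ha⟩
      exact (Fin.succ_ne_zero a) (e.injective ha)
    · rw [Fin.cons_succ]
      exact hinj.extend_apply g (Function.update f (e 0) c) j
  · have hx' : ¬ ∃ a : Fin m, (fun i : Fin m => e i.succ) a = x := by
      rintro ⟨a, ha⟩
      exact hx ⟨a.succ, ha⟩
    rw [Function.extend_apply' _ _ _ hx, Function.extend_apply' _ _ _ hx',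
      Function.update_of_ne]
    rintro rfl
    exact hx ⟨0, rfl⟩

theorem F2_rho_apply (i : ι) (M : Matrix (Fin k) (Fin k) C) (v : (ι → Fin k) → C)
    (f : ι → Fin k) :
    (matStr k C ι).ρ i M v f = ∑ c, M (f i) c * v (Function.update f i c) := rfl

/-- the product of letters acts by a multiple sum (induction on the number `m` of letters, `e` injective):
`(D e w v)(f) = Σ_{g : Fin m → Fin k} ∏_i w_i(f (e i), g i) v(f with f (e i) replaced by g i)`. -/
theorem matStr_D_apply {m : ℕ} (e : Fin m ↪ ι) (w : Fin m → Matrix (Fin k) (Fin k) C)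
    (v : (ι → Fin k) → C) (f : ι → Fin k) :
    (matStr k C ι).D e w v f =
      ∑ g : Fin m → Fin k, (∏ i, w i (f (e i)) (g i)) *
        v (Function.extend e g f) := by
  induction m generalizing v f with
  | zero =>
    have h1 : (matStr k C ι).D e w = 1 := by
      simp [Str.D]
    have h2 : ∀ g : Fin 0 → Fin k, Function.extend e g f = f := by
      intro g
      funext x
      rw [Function.extend_apply']
      rintro ⟨a, _⟩
      exact a.elim0
    rw [h1]
    simp [h2]
  | succ m ih =>
    have h1 : (matStr k C ι).D e w = (matStr k C ι).ρ (e 0) (w 0) *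
        (matStr k C ι).D (fun i : Fin m => e i.succ) (fun i : Fin m => w i.succ) := by
      simp only [Str.D, List.ofFn_succ, List.prod_cons]
    have h2 := fun (v : (ι → Fin k) → C) (f : ι → Fin k) =>
      ih ((Fin.succEmb m).trans e) (fun i => w i.succ) v f
    rw [h1, Module.End.mul_apply, F2_rho_apply]
    rw [← (Fin.consEquiv (fun _ : Fin (m + 1) => Fin k)).sum_comp, Fintype.sum_prod_type]
    refine Finset.sum_congr rfl fun c _ => ?_
    have h3 := h2 v (Function.update f (e 0) c)
    change (matStr k C ι).D (fun i : Fin m => e i.succ) (fun i : Fin m => w i.succ) v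
      (Function.update f (e 0) c) = ∑ g : Fin m → Fin k,
        (∏ i : Fin m, w i.succ (Function.update f (e 0) c (e i.succ)) (g i)) *
        v (Function.extend (fun i : Fin m => e i.succ) g (Function.update f (e 0) c)) at h3
    rw [h3, Finset.mul_sum]
    refine Finset.sum_congr rfl fun g _ => ?_
    rw [F2_extend_cons, ← mul_assoc]
    change _ = (∏ i, w i (f (e i)) ((Fin.cons c g : Fin (m + 1) → Fin k) i)) *
      v (Function.extend e (Fin.cons c g : Fin (m + 1) → Fin k) f)
    rw [Fin.prod_univ_succ]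
    simp only [Fin.cons_zero, Fin.cons_succ]
    congr 2
    refine Finset.prod_congr rfl fun i _ => ?_
    rw [Function.update_of_ne]
    intro h
    exact (Fin.succ_ne_zero i) (e.injective h)

/-- `anti` kills on words with two equal letters -/
theorem F2_anti_zero (T : Finset ι) (v : (ι → Fin k) → C) (f : ι → Fin k) (i j : ι)
    (hi : i ∈ T) (hj : j ∈ T) (hij : i ≠ j) (hf : f i = f j) :
    anti (matStr k C ι).s T v f = 0 := by
  have h1 : anti (matStr k C ι).s T v f =
      ∑ σ ∈ permsOn T, ((Perm.sign σ : ℤˣ) : ℤ) • v (f ∘ σ) := by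
    unfold anti
    rw [LinearMap.sum_apply, Finset.sum_apply]
    rfl
  rw [h1]
  have hfs : ∀ x, f (Equiv.swap i j x) = f x := by
    intro x
    by_cases hx : x = i
    · rw [hx, Equiv.swap_apply_left, hf]
    · by_cases hx' : x = j
      · rw [hx', Equiv.swap_apply_right, hf]
      · rw [Equiv.swap_apply_of_ne_of_ne hx hx']
  refine Finset.sum_involution (fun σ _ => Equiv.swap i j * σ) ?_ ?_ ?_ ?_
  · intro σ _
    have h2 : f ∘ (Equiv.swap i j * σ : Perm ι) = f ∘ σ := funext fun x => hfs (σ x)
    rw [h2, Perm.sign_mul, Perm.sign_swap hij]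
    simp
  · intro σ _ _ h3
    have h4 : Equiv.swap i j = 1 := mul_eq_right.1 h3
    exact hij (Equiv.swap_eq_one_iff.1 h4)
  · intro σ hσ
    simp only [permsOn, Finset.mem_filter, Finset.mem_univ, true_and] at hσ ⊢
    intro x hx
    rw [Perm.mul_apply, hσ x hx]
    refine Equiv.swap_apply_of_ne_of_ne ?_ ?_
    · rintro rfl
      exact hx hi
    · rintro rfl
      exact hx hj
  · intro σ _
    rw [← mul_assoc, Equiv.swap_mul_self, one_mul]

theorem F2_anti_perm (T : Finset ι) (v : (ι → Fin k) → C) (f : ι → Fin k) (σ : Perm ι)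
    (hσ : ∀ x, x ∉ T → σ x = x) :
    anti (matStr k C ι).s T v (f ∘ σ) =
      ((Perm.sign σ : ℤˣ) : ℤ) • anti (matStr k C ι).s T v f := by
  have h := congrArg (fun E : Module.End C ((ι → Fin k) → C) => E v f)
    (mul_anti (matStr k C ι).s T σ hσ)
  exact h

/-- the value of an alternating vector on `f` with `f ∘ p` replaced by a permutation -/
theorem F2_extend_perm (p : Fin k ↪ ι) (v : (ι → Fin k) → C) (f : ι → Fin k)
    (π : Perm (Fin k)) :
    anti (matStr k C ι).s (univ.map p) v (Function.extend p π f) =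
      ((Perm.sign π : ℤˣ) : ℤ) •
        anti (matStr k C ι).s (univ.map p) v (Function.extend p id f) := by
  have h1 : Function.extend p π f = Function.extend p id f ∘ (π.viaFintypeEmbedding p) := by
    funext x
    by_cases hx : ∃ i, p i = x
    · obtain ⟨i, rfl⟩ := hx
      rw [p.injective.extend_apply, Function.comp_apply,
        Equiv.Perm.viaFintypeEmbedding_apply_image, p.injective.extend_apply, id]
    · rw [Function.extend_apply' _ _ _ hx, Function.comp_apply,
        Equiv.Perm.viaFintypeEmbedding_apply_notMem_range, Function.extend_apply' _ _ _ hx]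
      exact hx
  have h2 := F2_anti_perm (univ.map p) v (Function.extend p id f) (π.viaFintypeEmbedding p) (by
    intro x hx
    refine Equiv.Perm.viaFintypeEmbedding_apply_notMem_range _ _ ?_
    rintro ⟨i, rfl⟩
    exact hx (Finset.mem_map_of_mem p (Finset.mem_univ i)))
  rw [h1, h2, Equiv.Perm.viaFintypeEmbedding_sign]

/-- PROOF.  `y = ω v` is alternating on `P`: `y (f ∘ σ) = sgn σ y f` for `σ` supported in `P` (`mul_anti`), so
`y f = 0` if `f ∘ p` is not injective.  In `matStr_D_apply` only the bijective `g` survive: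
`(D(u) y)(f) = Σ_g ∏ u(f (p i), g i) sgn(g) y(f with f (p i) = i) = det(rows f ∘ p of u) y(f with f (p i) = i)`
`= det(u) sgn(f ∘ p) y(…) = det(u) y f` (both sides are `0` if `f ∘ p` is not injective: equal rows). -/
theorem matStr_D_om (p q : Fin k ↪ ι) (z : ι) (hF : Frame p q z) (u : Matrix (Fin k) (Fin k) C) :
    (matStr k C ι).D p (fun _ => u) * (matStr k C ι).om p q =
      u.det • (matStr k C ι).om p q := by
  refine LinearMap.ext fun v => funext fun f => ?_
  change (matStr k C ι).D p (fun _ => u)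
      (anti (matStr k C ι).s (univ.map p) (anti (matStr k C ι).s (univ.map q) v)) f =
    u.det * anti (matStr k C ι).s (univ.map p) (anti (matStr k C ι).s (univ.map q) v) f
  generalize anti (matStr k C ι).s (univ.map q) v = y
  rw [matStr_D_apply p (fun _ => u)]
  set Y : (ι → Fin k) → C := anti (matStr k C ι).s (univ.map p) y with hY
  have h1 : ∑ g : Fin k → Fin k, (∏ i, u (f (p i)) (g i)) * Y (Function.extend p g f) =
      ∑ π : Perm (Fin k), (∏ i, u (f (p i)) (π i)) * Y (Function.extend p π f) := by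
    have h2 : ∑ π : Perm (Fin k), (∏ i, u (f (p i)) (π i)) * Y (Function.extend p π f) =
        ∑ g ∈ (univ : Finset (Fin k → Fin k)).filter Function.Bijective,
          (∏ i, u (f (p i)) (g i)) * Y (Function.extend p g f) := by
      refine Finset.sum_bij (fun π _ => (π : Fin k → Fin k)) ?_ ?_ ?_ ?_
      · intro π _
        exact Finset.mem_filter.2 ⟨Finset.mem_univ _, π.bijective⟩
      · intro a _ b _ hab
        exact Equiv.coe_fn_injective hab
      · intro g hg
        exact ⟨Equiv.ofBijective g (Finset.mem_filter.1 hg).2, Finset.mem_univ _, rfl⟩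
      · intro _ _
        rfl
    rw [h2]
    refine (Finset.sum_subset (Finset.filter_subset _ _) ?_).symm
    intro g _ hg
    have hg' : ¬ Function.Injective g := fun hi =>
      hg (Finset.mem_filter.2 ⟨Finset.mem_univ _, Finite.injective_iff_bijective.1 hi⟩)
    simp only [Function.Injective, not_forall] at hg'
    obtain ⟨a, b, hab, hne⟩ := hg'
    have h3 : Y (Function.extend p g f) = 0 := by
      rw [hY]
      refine F2_anti_zero (univ.map p) y _ (p a) (p b)
        (Finset.mem_map_of_mem p (Finset.mem_univ a)) (Finset.mem_map_of_mem p (Finset.mem_univ b))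
        (fun h => hne (p.injective h)) ?_
      rw [p.injective.extend_apply, p.injective.extend_apply, hab]
    rw [h3, mul_zero]
  rw [h1]
  have h4 : ∀ π : Perm (Fin k), Y (Function.extend p π f) =
      ((Perm.sign π : ℤˣ) : ℤ) • Y (Function.extend p id f) := fun π =>
    F2_extend_perm p y f π
  have h5 : ∑ π : Perm (Fin k), (∏ i, u (f (p i)) (π i)) * Y (Function.extend p π f) =
      (u.submatrix (f ∘ p) id).det * Y (Function.extend p id f) := by
    rw [← Matrix.det_transpose, Matrix.det_apply', Finset.sum_mul]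
    refine Finset.sum_congr rfl fun π _ => ?_
    rw [h4 π]
    simp only [Matrix.transpose_apply, Matrix.submatrix_apply, Function.comp_apply, id,
      zsmul_eq_mul]
    ring
  rw [h5]
  by_cases hf : Function.Injective (f ∘ p)
  · have hb : Function.Bijective (f ∘ p) := Finite.injective_iff_bijective.1 hf
    obtain ⟨τ, hτ⟩ : ∃ τ : Perm (Fin k), (τ : Fin k → Fin k) = f ∘ p :=
      ⟨Equiv.ofBijective _ hb, rfl⟩
    have h6 : Function.extend p τ f = f := by
      funext x
      by_cases hx : ∃ i, p i = x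
      · obtain ⟨i, rfl⟩ := hx
        rw [p.injective.extend_apply, hτ, Function.comp_apply]
      · rw [Function.extend_apply' _ _ _ hx]
    have h7 := h4 τ
    rw [h6] at h7
    rw [h7, ← hτ, Matrix.det_permute]
    simp only [zsmul_eq_mul]
    ring
  · simp only [Function.Injective, not_forall] at hf
    obtain ⟨a, b, hab, hne⟩ := hf
    have h8 : Y f = 0 := by
      rw [hY]
      exact F2_anti_zero (univ.map p) y f (p a) (p b)
        (Finset.mem_map_of_mem p (Finset.mem_univ a)) (Finset.mem_map_of_mem p (Finset.mem_univ b))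
        (fun h => hne (p.injective h)) hab
    have h9 : (u.submatrix (f ∘ p) id).det = 0 := by
      refine Matrix.det_zero_of_row_eq hne ?_
      funext c
      simp only [Matrix.submatrix_apply]
      rw [hab]
    rw [h8, h9, zero_mul, mul_zero]

end Pool.PI34.BA

end

/-! ### part BA_F5 -/
section

/-! PI34, block BA, file F5: `P(B)` for generic matrices. -/

set_option autoImplicit false

namespace Pool.PI34.BA

open Equiv Finset Matrix
open scoped TensorProduct

variable {k : ℕ} {ι : Type} [Fintype ι] [DecidableEq ι]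

/-- `P(B) = det(1 + t B_A X) ρ_z(q(B)) ω` for the matrix string system (`matStr_D_om`, `det_dt`, `coefMat_rho_om`) -/
theorem coefMat_PP {A R : Type} [Fintype A] [DecidableEq A] [CommRing R] (p q : Fin k ↪ ι) (z : ι)
    (hF : Frame p q z) (t : R) (hn : IsNilpotent t) (x : A → Matrix (Fin k) (Fin k) R)
    (B : Matrix (Option A) (Option A) (Matrix (Fin k) (Fin k) R)) :
    coefMat p q z ((matStr k R ι).PP p q z (Matrix.scalar (Fin k) t) x B) =
      (1 + t • Matrix.comp A A (Fin k) (Fin k) R (BX x B)).det •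
        qq (Matrix.scalar (Fin k) t) x B := by
  have hz : ∀ i, p i ≠ z := hF.pz
  unfold Str.PP
  rw [← rho_comm_D (matStr k R ι) p z hz, mul_assoc, matStr_D_om p q z hF, mul_smul_comm,
    map_smul, coefMat_rho_om p q z hF, det_dt t hn _ _ (nodup_toList _),
    rowsIn_complete _ _ (fun a => mem_toList.2 (mem_univ a))]

/-- base change of matrices -/
noncomputable def tensMat (T C : Type) [CommRing T] [CommRing C] (W : Type) [Fintype W]
    [DecidableEq W] : T ⊗[ℤ] Matrix W W C →+* Matrix W W (T ⊗[ℤ] C) :=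
  (Algebra.TensorProduct.lift
    ((Algebra.ofId (T ⊗[ℤ] C) (Matrix W W (T ⊗[ℤ] C))).restrictScalars ℤ |>.comp
      (Algebra.TensorProduct.includeLeft : T →ₐ[ℤ] T ⊗[ℤ] C))
    ((Algebra.TensorProduct.includeRight : C →ₐ[ℤ] T ⊗[ℤ] C).mapMatrix)
    (fun _ _ => Algebra.commutes _ _) : T ⊗[ℤ] Matrix W W C →ₐ[ℤ] Matrix W W (T ⊗[ℤ] C))

theorem tensMat_tmul (T C : Type) [CommRing T] [CommRing C] (W : Type) [Fintype W]
    [DecidableEq W] (a : T) (M : Matrix W W C) (i j : W) :
    tensMat T C W (a ⊗ₜ M) i j = a ⊗ₜ M i j := by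
  have h : tensMat T C W (a ⊗ₜ M) = algebraMap (T ⊗[ℤ] C) (Matrix W W (T ⊗[ℤ] C)) (a ⊗ₜ 1) *
      M.map (fun c => (1 : T) ⊗ₜ[ℤ] c) := rfl
  rw [h, ← Algebra.smul_def, Matrix.smul_apply, Matrix.map_apply, smul_eq_mul,
    Algebra.TensorProduct.tmul_mul_tmul, mul_one, one_mul]

/-- endomorphisms as matrices -/
noncomputable def endToMat (C : Type) [CommRing C] (W : Type) [Fintype W] [DecidableEq W] :
    Module.End C (W → C) →+* Matrix W W C :=
  (LinearMap.toMatrixAlgEquiv' : Module.End C (W → C) ≃ₐ[C] Matrix W W C).toRingEquiv.toRingHom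

/-- matrices as endomorphisms -/
noncomputable def matToEnd (C : Type) [CommRing C] (W : Type) [Fintype W] [DecidableEq W] :
    Matrix W W C →+* Module.End C (W → C) :=
  (LinearMap.toMatrixAlgEquiv' : Module.End C (W → C) ≃ₐ[C] Matrix W W C).symm.toRingEquiv.toRingHom

/-- base change of endomorphisms of `C^W`, first as matrices -/
noncomputable def tensEndMat (T C : Type) [CommRing T] [CommRing C] (W : Type) [Fintype W]
    [DecidableEq W] : T ⊗[ℤ] Module.End C (W → C) →ₐ[ℤ] T ⊗[ℤ] Matrix W W C :=
  Algebra.TensorProduct.map (AlgHom.id ℤ T) (endToMat C W).toIntAlgHom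

/-- base change of endomorphisms of `C^W` -/
noncomputable def tensEnd (T C : Type) [CommRing T] [CommRing C] (W : Type) [Fintype W]
    [DecidableEq W] : T ⊗[ℤ] Module.End C (W → C) →+* Module.End (T ⊗[ℤ] C) (W → T ⊗[ℤ] C) :=
  (matToEnd (T ⊗[ℤ] C) W).comp ((tensMat T C W).comp (tensEndMat T C W).toRingHom)

theorem f5_mat {T C : Type} [CommRing T] [CommRing C] {W : Type} [Fintype W] [DecidableEq W]
    (a : T) (e : Module.End C (W → C)) (w w' : W) :
    tensMat T C W (tensEndMat T C W (a ⊗ₜ e)) w w' = a ⊗ₜ e (Pi.single w' 1) w := by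
  have h : tensEndMat T C W (a ⊗ₜ e) = a ⊗ₜ endToMat C W e := rfl
  rw [h, tensMat_tmul]
  rfl

theorem f5_end_mat {C : Type} [CommRing C] {W : Type} [Fintype W] [DecidableEq W]
    (M : Matrix W W C) : endToMat C W (matToEnd C W M) = M :=
  LinearMap.toMatrixAlgEquiv'.apply_symm_apply M

theorem f5_mat_end {C : Type} [CommRing C] {W : Type} [Fintype W] [DecidableEq W]
    (e : Module.End C (W → C)) : matToEnd C W (endToMat C W e) = e :=
  LinearMap.toMatrixAlgEquiv'.symm_apply_apply e

theorem f5_apply {T C : Type} [CommRing T] [CommRing C] {W : Type} [Fintype W] [DecidableEq W]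
    (a : T) (e : Module.End C (W → C)) (w w' : W) :
    tensEnd T C W (a ⊗ₜ e) (Pi.single w' 1) w = a ⊗ₜ e (Pi.single w' 1) w := by
  have h : endToMat (T ⊗[ℤ] C) W (tensEnd T C W (a ⊗ₜ e)) =
      tensMat T C W (tensEndMat T C W (a ⊗ₜ e)) := f5_end_mat _
  have h2 : tensEnd T C W (a ⊗ₜ e) (Pi.single w' 1) w =
      endToMat (T ⊗[ℤ] C) W (tensEnd T C W (a ⊗ₜ e)) w w' := rfl
  rw [h2, h, f5_mat]

theorem f5_ext {C : Type} [CommRing C] {W : Type} [Fintype W] [DecidableEq W]
    (e e' : Module.End C (W → C))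
    (h : ∀ w w', e (Pi.single w' 1) w = e' (Pi.single w' 1) w) : e = e' := by
  have h1 : endToMat C W e = endToMat C W e' := Matrix.ext fun w w' => h w w'
  rw [← f5_mat_end e, h1, f5_mat_end]

/-- `tensMat`, `tensEnd` are a morphism of string systems `(matStr k C ι).base T → matStr k (T ⊗ C) ι` -/
theorem tensEnd_rho (T C : Type) [CommRing T] [CommRing C] (i : ι)
    (a : T ⊗[ℤ] Matrix (Fin k) (Fin k) C) :
    tensEnd T C (ι → Fin k) (((matStr k C ι).base T).ρ i a) =
      (matStr k (T ⊗[ℤ] C) ι).ρ i (tensMat T C (Fin k) a) := by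
  induction a using TensorProduct.induction_on with
  | zero => simp only [map_zero]
  | add u v hu hv => simp only [map_add, hu, hv]
  | tmul u M =>
    rw [base_rho_tmul]
    refine f5_ext _ _ fun w w' => ?_
    rw [f5_apply]
    change u ⊗ₜ[ℤ] (∑ c, M (w i) c * (Pi.single w' (1 : C) : (ι → Fin k) → C)
        (Function.update w i c)) =
      ∑ c, tensMat T C (Fin k) (u ⊗ₜ M) (w i) c *
        (Pi.single w' (1 : T ⊗[ℤ] C) : (ι → Fin k) → T ⊗[ℤ] C) (Function.update w i c)
    rw [TensorProduct.tmul_sum]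
    refine Finset.sum_congr rfl fun c _ => ?_
    rw [tensMat_tmul]
    by_cases hc : Function.update w i c = w'
    · rw [hc, Pi.single_eq_same, Pi.single_eq_same, mul_one, mul_one]
    · rw [Pi.single_eq_of_ne hc, Pi.single_eq_of_ne hc, mul_zero, mul_zero,
        TensorProduct.tmul_zero]

theorem tensEnd_s (T C : Type) [CommRing T] [CommRing C] (σ : Perm ι) :
    tensEnd T C (ι → Fin k) (((matStr k C ι).base T).s σ) = (matStr k (T ⊗[ℤ] C) ι).s σ := by
  rw [base_s]
  refine f5_ext _ _ fun w w' => ?_
  rw [f5_apply]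
  change (1 : T) ⊗ₜ[ℤ] ((Pi.single w' (1 : C) : (ι → Fin k) → C) (w ∘ σ)) =
    (Pi.single w' (1 : T ⊗[ℤ] C) : (ι → Fin k) → T ⊗[ℤ] C) (w ∘ σ)
  by_cases hc : w ∘ σ = w'
  · rw [hc, Pi.single_eq_same, Pi.single_eq_same]
    rfl
  · rw [Pi.single_eq_of_ne hc, Pi.single_eq_of_ne hc, TensorProduct.tmul_zero]

/-- the matrix coefficients commute with base change -/
theorem coefMat_tensEnd (T C : Type) [CommRing T] [CommRing C] (p q : Fin k ↪ ι) (z : ι)
    (y : T ⊗[ℤ] Module.End C ((ι → Fin k) → C)) (i j : Fin k) :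
    coefMat p q z (tensEnd T C (ι → Fin k) y) i j =
      ((Matrix.entryLinearMap ℤ C i j) ∘ₗ ((coefMat p q z).restrictScalars ℤ)).lTensor T y := by
  induction y using TensorProduct.induction_on with
  | zero => simp only [map_zero, Matrix.zero_apply]
  | add u v hu hv => simp only [map_add, Matrix.add_apply, hu, hv]
  | tmul u e =>
    rw [LinearMap.lTensor_tmul]
    exact f5_apply u e _ _

end Pool.PI34.BA

end
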