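import Pool.Agent.LibPI54.M32

/-! ### part C0_E8 -/
section

set_option autoImplicit false

namespace Pool.PI34.C0

open Equiv Finset

/-- row E8: numbers -/
theorem exists_numbers (p C : ℕ) (hp : p.Prime) : ∃ r j b : ℕ, 1 ≤ r ∧ 1 ≤ b ∧ b + 1 = p ^ j ∧ r ≤ b + 1 ∧
    C ^ (r * b) < (Nat.factorial r) ^ (b + 1 - r) := by
  -- work with `D = C + 1 ≥ 1`
  obtain ⟨r, hr1, hr⟩ : ∃ r : ℕ, 1 ≤ r ∧ ((C + 1) ^ 2) ^ r < Nat.factorial r := by
    have h := Nat.eventually_mul_pow_lt_factorial_sub 1 ((C + 1) ^ 2) 0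
    obtain ⟨n, hn⟩ := (h.and (Filter.eventually_ge_atTop 1)).exists
    exact ⟨n, hn.2, by simpa using hn.1⟩
  have hp2 : 2 ≤ p := hp.two_le
  -- choose `j` with `p ^ j ≥ 2 * r`
  obtain ⟨j, hj⟩ : ∃ j : ℕ, 2 * r ≤ p ^ j := by
    refine ⟨2 * r, ?_⟩
    calc 2 * r ≤ 2 ^ (2 * r) := (Nat.lt_two_pow_self).le
      _ ≤ p ^ (2 * r) := Nat.pow_le_pow_left hp2 _
  obtain ⟨b, hb⟩ : ∃ b : ℕ, b + 1 = p ^ j := ⟨p ^ j - 1, by omega⟩
  refine ⟨r, j, b, hr1, by omega, hb, by omega, ?_⟩
  have hbr : b + 1 ≤ 2 * (b + 1 - r) := by omega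
  have hf1 : 1 ≤ Nat.factorial r := Nat.factorial_pos r
  have key : (C ^ (r * b)) ^ 2 < ((Nat.factorial r) ^ (b + 1 - r)) ^ 2 := by
    calc (C ^ (r * b)) ^ 2 ≤ ((C + 1) ^ (r * b)) ^ 2 := by gcongr; omega
      _ = (((C + 1) ^ 2) ^ r) ^ b := by rw [← pow_mul, ← pow_mul, ← pow_mul]; ring_nf
      _ ≤ (((C + 1) ^ 2) ^ r) ^ (b + 1) := by
          apply Nat.pow_le_pow_right _ (by omega)
          positivity
      _ < (Nat.factorial r) ^ (b + 1) := Nat.pow_lt_pow_left hr (by omega)
      _ ≤ (Nat.factorial r) ^ (2 * (b + 1 - r)) := Nat.pow_le_pow_right hf1 hbr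
      _ = ((Nat.factorial r) ^ (b + 1 - r)) ^ 2 := by rw [← pow_mul]; ring_nf
  exact lt_of_pow_lt_pow_left₀ 2 (Nat.zero_le _) key

end Pool.PI34.C0

end

/-! ### part C0_E3 -/
section

set_option autoImplicit false

namespace Pool.PI34.C0

open Equiv Finset

variable {n r b : ℕ}

theorem e3_mono (s : Fin n → Fin r) {k k' : ℕ} (h : k ≤ k') (j : Fin r) :
    cnt s k j ≤ cnt s k' j := by
  unfold cnt
  refine Finset.card_le_card ?_
  intro x hx
  simp only [Finset.mem_filter, Finset.mem_univ, true_and] at hx ⊢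
  exact ⟨lt_of_lt_of_le hx.1 h, hx.2⟩

theorem e3_succ_self (s : Fin n → Fin r) (x : Fin n) :
    cnt s (x.val + 1) (s x) = cnt s x.val (s x) + 1 := by
  unfold cnt
  have h : (univ.filter fun y : Fin n => y.val < x.val + 1 ∧ s y = s x) =
      insert x (univ.filter fun y : Fin n => y.val < x.val ∧ s y = s x) := by
    ext y
    simp only [Finset.mem_filter, Finset.mem_univ, true_and, Finset.mem_insert]
    constructor
    · rintro ⟨h1, h2⟩
      rcases Nat.lt_succ_iff_lt_or_eq.1 h1 with h3 | h3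
      · exact Or.inr ⟨h3, h2⟩
      · exact Or.inl (Fin.ext h3)
    · rintro (h1 | ⟨h1, h2⟩)
      · subst h1; exact ⟨Nat.lt_succ_self _, rfl⟩
      · exact ⟨Nat.lt_succ_of_lt h1, h2⟩
  rw [h, Finset.card_insert_of_notMem (by simp)]

theorem e3_succ_ne (s : Fin n → Fin r) (x : Fin n) (j : Fin r) (hj : s x ≠ j) :
    cnt s (x.val + 1) j = cnt s x.val j := by
  unfold cnt
  congr 1
  ext y
  simp only [Finset.mem_filter, Finset.mem_univ, true_and]
  constructor
  · rintro ⟨h1, h2⟩
    rcases Nat.lt_succ_iff_lt_or_eq.1 h1 with h3 | h3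
    · exact ⟨h3, h2⟩
    · exact absurd (by rw [← Fin.ext h3]; exact h2) hj
  · rintro ⟨h1, h2⟩
    exact ⟨Nat.lt_succ_of_lt h1, h2⟩

theorem e3_lt (s : Fin n → Fin r) (hs : Bal b s) (x : Fin n) : cnt s x.val (s x) < b := by
  have h1 := e3_succ_self s x
  have h2 := e3_mono s (k := x.val + 1) (k' := n) x.isLt (s x)
  have h3 := hs (s x)
  omega

/-- the position map of the word `s` -/
def e3_f (s : Fin n → Fin r) (hs : Bal b s) (x : Fin n) : Fin r × Fin b :=
  (s x, ⟨cnt s x.val (s x), e3_lt s hs x⟩)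

theorem e3_inj (s : Fin n → Fin r) (hs : Bal b s) : Function.Injective (e3_f s hs) := by
  have key : ∀ x y : Fin n, e3_f s hs x = e3_f s hs y → ¬ x < y := by
    intro x y hxy hlt
    have h1 : s x = s y := congrArg Prod.fst hxy
    have h2 : cnt s x.val (s x) = cnt s y.val (s y) :=
      congrArg Fin.val (congrArg Prod.snd hxy)
    have h3 := e3_succ_self s x
    have h4 := e3_mono s (k := x.val + 1) (k' := y.val) hlt (s x)
    rw [← h1] at h2
    omega
  intro x y hxy
  rcases lt_trichotomy x y with h | h | h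
  · exact absurd h (key x y hxy)
  · exact h
  · exact absurd h (key y x hxy.symm)

theorem e3_card (s : Fin n → Fin r) (hs : Bal b s) : n = r * b := by
  have h : (univ : Finset (Fin n)).card = ∑ j : Fin r, (univ.filter fun x => s x = j).card :=
    Finset.card_eq_sum_card_fiberwise (fun x _ => Finset.mem_univ (s x))
  have h2 : ∀ j : Fin r, (univ.filter fun x => s x = j).card = b := by
    intro j
    have := hs j
    unfold cnt at this
    rw [← this]
    congr 1
    ext x
    simp
  rw [Finset.card_univ, Fintype.card_fin, Finset.sum_congr rfl (fun j _ => h2 j)] at h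
  simpa using h

theorem e3_bij (s : Fin n → Fin r) (hs : Bal b s) : Function.Bijective (e3_f s hs) := by
  rw [Fintype.bijective_iff_injective_and_card]
  refine ⟨e3_inj s hs, ?_⟩
  rw [Fintype.card_prod, Fintype.card_fin, Fintype.card_fin, Fintype.card_fin]
  exact e3_card s hs

/-- if `e_β(T) ≠ 0` the letters of a column are distinct -/
theorem e3_col (β : Fin n ≃ Fin r × Fin b) (T : Fin n → Fin r) (h : eb β T ≠ 0) (c : Fin b)
    (i i' : Fin r) (hi : i ≠ i') : T (β.symm (i, c)) ≠ T (β.symm (i', c)) := by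
  intro heq
  apply h
  unfold eb
  refine Finset.prod_eq_zero (Finset.mem_univ c) ?_
  refine Matrix.det_zero_of_row_eq hi ?_
  funext j
  simp only [Matrix.of_apply, heq]

/-- row E3: triangularity -/
theorem exists_beta (s : Fin n → Fin r) (hs : Bal b s) (hb : Ballot s) :
    ∃ β : Fin n ≃ Fin r × Fin b, eb β s = 1 ∧ ∀ T : Fin n → Fin r, eb β T ≠ 0 → T = s ∨ LexLT s T := by
  refine ⟨Equiv.ofBijective (e3_f s hs) (e3_bij s hs), ?_, ?_⟩
  · set β := Equiv.ofBijective (e3_f s hs) (e3_bij s hs) with hβ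
    have hfst : ∀ z : Fin r × Fin b, s (β.symm z) = z.1 := by
      intro z
      have h1 : β (β.symm z) = z := β.apply_symm_apply z
      have h2 : (β (β.symm z)).1 = s (β.symm z) := rfl
      rw [← h2, h1]
    unfold eb
    refine Finset.prod_eq_one ?_
    intro c _
    have h1 : (Matrix.of fun i j : Fin r => if s (β.symm (i, c)) = j then (1 : ℤ) else 0) = 1 := by
      ext i j
      rw [Matrix.of_apply, hfst, Matrix.one_apply]
    rw [h1, Matrix.det_one]
  · intro T hT
    set β := Equiv.ofBijective (e3_f s hs) (e3_bij s hs) with hβ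
    by_cases hTs : T = s
    · exact Or.inl hTs
    · right
      have hne : (univ.filter fun x : Fin n => T x ≠ s x).Nonempty := by
        by_contra hcon
        apply hTs
        funext x
        by_contra hx
        exact hcon ⟨x, by simp [hx]⟩
      set x := (univ.filter fun x : Fin n => T x ≠ s x).min' hne with hx
      have hxT : T x ≠ s x := by
        have := Finset.min'_mem _ hne
        rw [← hx] at this
        exact (Finset.mem_filter.1 this).2
      have hmin : ∀ y, y < x → T y = s y := by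
        intro y hy
        by_contra hcon
        have : x ≤ y := Finset.min'_le _ y (by simp [hcon])
        exact absurd hy (not_lt.2 this)
      refine ⟨x, fun j hj => (hmin j hj).symm, ?_⟩
      have hβx : β x = (s x, (β x).2) := rfl
      have hall : ∀ i' : Fin r, i' < s x → T x ≠ i' := by
        intro i' hi'
        set y := β.symm (i', (β x).2) with hy
        have hβy : β y = (i', (β x).2) := β.apply_symm_apply _
        have hsy : s y = i' := congrArg Prod.fst hβy
        have hcy : cnt s y.val (s y) = cnt s x.val (s x) :=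
          congrArg Fin.val (congrArg Prod.snd hβy)
        have hyx : y < x := by
          by_contra hcon
          have hle : x.val ≤ y.val := not_lt.1 hcon
          have h1 := e3_mono s hle i'
          have h2 := hb (x.val + 1) i' (s x) hi'.le
          have h3 := e3_succ_self s x
          have h4 := e3_succ_ne s x i' (ne_of_gt hi')
          rw [hsy] at hcy
          omega
        have h5 : T y = i' := by rw [hmin y hyx, hsy]
        have h6 := e3_col β T hT (β x).2 (s x) i' (ne_of_gt hi')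
        rw [← hβx, β.symm_apply_apply, ← hy, h5] at h6
        exact h6
      by_contra hcon
      rcases lt_or_eq_of_le (not_lt.1 hcon) with h | h
      · exact hall (T x) h rfl
      · exact hxT h

end Pool.PI34.C0

end

/-! ### part C0_E1 -/
section

set_option autoImplicit false

namespace Pool.PI34.C0

open Equiv Finset

variable {n r b : ℕ}

/-- row E1 -/
theorem eb_swap (β : Fin n ≃ Fin r × Fin b) (w : Fin n → Fin r) (x y : Fin n) (hxy : x ≠ y)
    (hc : (β x).2 = (β y).2) : eb β (w ∘ swap x y) = - eb β w := by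
  have hi : (β x).1 ≠ (β y).1 := fun h => hxy (β.injective (Prod.ext h hc))
  unfold eb
  rw [← Finset.mul_prod_erase _ _ (Finset.mem_univ (β x).2),
    ← Finset.mul_prod_erase (s := univ) (f := fun c : Fin b =>
      (Matrix.of fun i j : Fin r => if w (β.symm (i, c)) = j then (1 : ℤ) else 0).det)
      (Finset.mem_univ (β x).2), ← neg_mul]
  congr 1
  · have h1 : (Matrix.of fun i j : Fin r =>
        if (w ∘ swap x y) (β.symm (i, (β x).2)) = j then (1 : ℤ) else 0)
        = (Matrix.of fun i j : Fin r =>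
          if w (β.symm (i, (β x).2)) = j then (1 : ℤ) else 0).submatrix
            (swap (β x).1 (β y).1) id := by
      ext a j
      have h2 : swap x y (β.symm (a, (β x).2)) = β.symm (swap (β x).1 (β y).1 a, (β x).2) := by
        by_cases ha : a = (β x).1
        · subst ha
          rw [swap_apply_left]
          have h3 : β.symm ((β x).1, (β x).2) = x := β.symm_apply_apply x
          have h4 : β.symm ((β y).1, (β x).2) = y := by
            rw [hc]
            exact β.symm_apply_apply y
          rw [h3, h4, swap_apply_left]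
        · by_cases hb : a = (β y).1
          · subst hb
            rw [swap_apply_right]
            have h3 : β.symm ((β x).1, (β x).2) = x := β.symm_apply_apply x
            have h4 : β.symm ((β y).1, (β x).2) = y := by
              rw [hc]
              exact β.symm_apply_apply y
            rw [h3, h4, swap_apply_right]
          · rw [swap_apply_of_ne_of_ne ha hb, swap_apply_of_ne_of_ne]
            · intro h
              apply ha
              rw [← h, β.apply_symm_apply]
            · intro h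
              apply hb
              rw [← h, β.apply_symm_apply]
      simp only [Matrix.of_apply, Function.comp_apply, Matrix.submatrix_apply, id_eq, h2]
    rw [h1, Matrix.det_permute, Perm.sign_swap hi]
    simp
  · refine Finset.prod_congr rfl fun c hc' => ?_
    have hcx : c ≠ (β x).2 := Finset.ne_of_mem_erase hc'
    congr 2
    funext i j
    have h2 : swap x y (β.symm (i, c)) = β.symm (i, c) := by
      apply swap_apply_of_ne_of_ne
      · intro h
        apply hcx
        rw [← h, β.apply_symm_apply]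
      · intro h
        apply hcx
        rw [hc, ← h, β.apply_symm_apply]
    rw [Function.comp_apply, h2]

/-- row E1 -/
theorem eb_act (β : Fin n ≃ Fin r × Fin b) (σ : Perm (Fin n)) :
    act σ (eb β) = eb (σ.symm.trans β) := by
  funext w
  rfl

/-- row E1 -/
theorem eb_bal (β : Fin n ≃ Fin r × Fin b) (w : Fin n → Fin r) (h : eb β w ≠ 0) : Bal b w := by
  intro j
  unfold eb at h
  rw [Finset.prod_ne_zero_iff] at h
  have hinj : ∀ c : Fin b, Function.Injective fun i : Fin r => w (β.symm (i, c)) := by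
    intro c i i' hii
    by_contra hne
    apply h c (Finset.mem_univ c)
    apply Matrix.det_zero_of_row_eq hne
    funext a
    simp only [Matrix.of_apply]
    have : w (β.symm (i, c)) = w (β.symm (i', c)) := hii
    rw [this]
  have hbij : ∀ c : Fin b, ∃ i : Fin r, w (β.symm (i, c)) = j ∧
      ∀ i', w (β.symm (i', c)) = j → i' = i := by
    intro c
    obtain ⟨i, hi⟩ := (Finite.injective_iff_surjective.mp (hinj c)) j
    exact ⟨i, hi, fun i' hi' => hinj c (hi'.trans hi.symm)⟩
  choose g hg hg' using hbij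
  unfold cnt
  have h1 : (univ.filter fun x : Fin n => x.val < n ∧ w x = j)
      = univ.image fun c : Fin b => β.symm (g c, c) := by
    ext x
    simp only [mem_filter, mem_univ, true_and, mem_image]
    constructor
    · rintro ⟨_, hx⟩
      refine ⟨(β x).2, ?_⟩
      have h2 : g (β x).2 = (β x).1 := by
        symm
        apply hg'
        rw [show ((β x).1, (β x).2) = β x from rfl, β.symm_apply_apply]
        exact hx
      rw [h2, show ((β x).1, (β x).2) = β x from rfl, β.symm_apply_apply]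
    · rintro ⟨c, rfl⟩
      exact ⟨(β.symm (g c, c)).2, hg c⟩
  rw [h1, Finset.card_image_of_injective, Finset.card_univ, Fintype.card_fin]
  intro c c' hcc
  have := β.symm.injective hcc
  exact congrArg Prod.snd this

end Pool.PI34.C0

end

/-! ### part C0_E4 -/
section

set_option autoImplicit false

namespace Pool.PI34.C0

open Equiv Finset

variable {n r b : ℕ}

theorem e4_cnt_mono (w : Fin n → Fin r) (m : ℕ) (j : Fin r) : cnt w m j ≤ cnt w (m + 1) j := by
  unfold cnt
  apply card_le_card
  intro x hx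
  simp only [mem_filter, mem_univ, true_and] at hx ⊢
  exact ⟨by omega, hx.2⟩

theorem e4_cnt_succ_le (w : Fin n → Fin r) (m : ℕ) (j : Fin r) :
    cnt w (m + 1) j ≤ cnt w m j + 1 := by
  unfold cnt
  have h1 : (univ.filter fun x : Fin n => x.val < m + 1 ∧ w x = j) ⊆
      (univ.filter fun x : Fin n => x.val < m ∧ w x = j) ∪ (univ.filter fun x : Fin n => x.val = m) := by
    intro x hx
    simp only [mem_filter, mem_univ, true_and, mem_union] at hx ⊢
    rcases Nat.lt_or_ge x.val m with h | h
    · exact Or.inl ⟨h, hx.2⟩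
    · exact Or.inr (by omega)
  have h2 : (univ.filter fun x : Fin n => x.val = m).card ≤ 1 := by
    rw [card_le_one]
    intro a ha c hc
    simp only [mem_filter, mem_univ, true_and] at ha hc
    exact Fin.ext (ha.trans hc.symm)
  calc _ ≤ _ := card_le_card h1
    _ ≤ _ := card_union_le _ _
    _ ≤ _ := by omega

theorem e4_cnt_le (w : Fin n → Fin r) (k : ℕ) (j : Fin r) : cnt w k j ≤ cnt w n j := by
  unfold cnt
  apply card_le_card
  intro x hx
  simp only [mem_filter, mem_univ, true_and] at hx ⊢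
  exact ⟨x.2, hx.2⟩

theorem e4_anti (w : Fin n → Fin r) (k : ℕ)
    (h : ∀ i i' : Fin r, i'.val = i.val + 1 → cnt w k i' ≤ cnt w k i) :
    ∀ d : ℕ, ∀ i j : Fin r, j.val = i.val + d → cnt w k j ≤ cnt w k i := by
  intro d
  induction d with
  | zero =>
    intro i j hij
    have : j = i := Fin.ext (by omega)
    rw [this]
  | succ d ih =>
    intro i j hij
    have hj := j.2
    have hlt : i.val + d < r := by omega
    have h1 := ih i ⟨i.val + d, hlt⟩ rfl
    have h2 := h ⟨i.val + d, hlt⟩ j (by simp only; omega)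
    exact le_trans h2 h1

/-- the count of a letter in the modified word -/
theorem e4_count (w : Fin n → Fin r) (i i' : Fin r) (hne : i ≠ i') (E Z : Finset (Fin n))
    (hZ : Z ⊆ E) (l : Fin r) :
    cnt (fun x => if x ∈ Z then i' else if x ∈ E then i else w x) n l =
      (univ.filter fun x : Fin n => x ∉ E ∧ w x = l).card + (if l = i' then Z.card else 0) +
        (if l = i then E.card - Z.card else 0) := by
  have h0 : cnt (fun x => if x ∈ Z then i' else if x ∈ E then i else w x) n l =
      (univ.filter fun x : Fin n =>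
        (if x ∈ Z then i' else if x ∈ E then i else w x) = l).card := by
    unfold cnt
    congr 1
    ext x
    simp [x.2]
  have h1 : (univ.filter fun x : Fin n =>
        (if x ∈ Z then i' else if x ∈ E then i else w x) = l) =
      ((univ.filter fun x : Fin n => x ∉ E ∧ w x = l) ∪ (if l = i' then Z else ∅)) ∪
        (if l = i then E \ Z else ∅) := by
    ext x
    simp only [mem_filter, mem_univ, true_and, mem_union]
    by_cases hxZ : x ∈ Z
    · have hxE := hZ hxZ
      simp only [hxZ, if_true, hxE, not_true_eq_false, false_and, false_or]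
      by_cases h1 : l = i'
      · subst h1
        simp [hxZ]
      · have h2 : ¬ i' = l := fun h => h1 h.symm
        simp only [h2, h1, if_false, notMem_empty, false_or, false_iff]
        by_cases h3 : l = i
        · simp [h3, hxZ]
        · simp [h3]
    · by_cases hxE : x ∈ E
      · simp only [hxZ, if_false, hxE, if_true, not_true_eq_false, false_and, false_or]
        by_cases h3 : l = i
        · subst h3
          simp [hxZ, hxE]
        · have h4 : ¬ i = l := fun h => h3 h.symm
          simp only [h4, h3, if_false, notMem_empty, or_false, false_iff]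
          by_cases h1 : l = i'
          · simp [h1, hxZ]
          · simp [h1]
      · simp only [hxZ, if_false, hxE, not_false_eq_true, true_and]
        constructor
        · intro h
          exact Or.inl (Or.inl h)
        · rintro ((h | h) | h)
          · exact h
          · split_ifs at h
            · exact absurd h hxZ
            · exact absurd h (notMem_empty _)
          · split_ifs at h
            · exact absurd (mem_sdiff.mp h).1 hxE
            · exact absurd h (notMem_empty _)
  rw [h0, h1]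
  have hd1 : Disjoint (univ.filter fun x : Fin n => x ∉ E ∧ w x = l) (if l = i' then Z else ∅) := by
    rw [disjoint_left]
    intro x hx hx'
    simp only [mem_filter, mem_univ, true_and] at hx
    split_ifs at hx'
    · exact hx.1 (hZ hx')
    · exact absurd hx' (notMem_empty _)
  have hd2 : Disjoint ((univ.filter fun x : Fin n => x ∉ E ∧ w x = l) ∪ (if l = i' then Z else ∅))
      (if l = i then E \ Z else ∅) := by
    rw [disjoint_left]
    intro x hx hx'
    split_ifs at hx' with h3
    · have h4 := mem_sdiff.mp hx'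
      have h5 : ¬ l = i' := fun h => hne (h3.symm.trans h)
      simp only [h5, if_false, mem_union, notMem_empty, or_false, mem_filter, mem_univ,
        true_and] at hx
      exact hx.1 h4.1
    · exact absurd hx' (notMem_empty _)
  rw [card_union_of_disjoint hd2, card_union_of_disjoint hd1]
  congr 1
  · congr 1
    split_ifs <;> simp
  · split_ifs
    · rw [card_sdiff_of_subset hZ]
    · simp

/-- row E4: straightening of a non ballot word -/
theorem not_ballot (w : Fin n → Fin r) (hw : Bal b w) (hb : ¬ Ballot w) :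
    ∃ (i i' : Fin r) (E : Finset (Fin n)) (Z₀ : Finset (Fin n)),
      E.card = b + 1 ∧ Z₀ ⊆ E ∧ 0 < Z₀.card ∧ Z₀.card < b + 1 ∧
      (fun x => if x ∈ Z₀ then i' else if x ∈ E then i else w x) = w ∧
      ∀ Z ∈ E.powersetCard Z₀.card, Z ≠ Z₀ →
        Bal b (fun x => if x ∈ Z then i' else if x ∈ E then i else w x) ∧
        LexLT (fun x => if x ∈ Z then i' else if x ∈ E then i else w x) w := by
  classical
  have hex : ∃ k : ℕ, ∃ i i' : Fin r, i'.val = i.val + 1 ∧ cnt w k i < cnt w k i' := by
    by_contra hcon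
    push Not at hcon
    apply hb
    intro k i j hij
    have hij' : i.val ≤ j.val := hij
    exact e4_anti w k (hcon k) (j.val - i.val) i j (by omega)
  obtain ⟨i, i', hii, hlt⟩ := Nat.find_spec hex
  have hmin := fun {m : ℕ} (hm : m < Nat.find hex) => Nat.find_min hex hm
  set k := Nat.find hex with hk
  have hk0 : k ≠ 0 := by
    intro h0
    rw [h0] at hlt
    simp [cnt] at hlt
  obtain ⟨m, hm⟩ := Nat.exists_eq_succ_of_ne_zero hk0
  have hm1 : ¬ ∃ i i' : Fin r, i'.val = i.val + 1 ∧ cnt w m i < cnt w m i' :=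
    hmin (by omega)
  push Not at hm1
  have h1 := hm1 i i' hii
  have hkm : k = m + 1 := hm
  have h2 := e4_cnt_succ_le w m i'
  have h3 := e4_cnt_mono w m i
  rw [← hkm] at h2 h3
  have hcnt : cnt w k i' = cnt w k i + 1 := by omega
  have hne : i ≠ i' := by
    intro h
    rw [h] at hii
    omega
  let Z₀ : Finset (Fin n) := univ.filter fun x : Fin n => x.val < k ∧ w x = i'
  let Y : Finset (Fin n) := univ.filter fun x : Fin n => k ≤ x.val ∧ w x = i
  have hZ0 : Z₀.card = cnt w k i' := rfl
  have hdis : Disjoint Z₀ Y := by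
    rw [disjoint_left]
    intro x hx hx'
    simp only [Z₀, Y, mem_filter, mem_univ, true_and] at hx hx'
    omega
  have hYc : cnt w k i + Y.card = b := by
    have h4 := hw i
    have h5 : (univ.filter fun x : Fin n => x.val < n ∧ w x = i) =
        (univ.filter fun x : Fin n => x.val < k ∧ w x = i) ∪ Y := by
      ext x
      simp only [Y, mem_filter, mem_univ, true_and, mem_union]
      constructor
      · rintro ⟨_, h⟩
        rcases Nat.lt_or_ge x.val k with h' | h'
        · exact Or.inl ⟨h', h⟩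
        · exact Or.inr ⟨h', h⟩
      · rintro (h | h)
        · exact ⟨x.2, h.2⟩
        · exact ⟨x.2, h.2⟩
    have h6 : Disjoint (univ.filter fun x : Fin n => x.val < k ∧ w x = i) Y := by
      rw [disjoint_left]
      intro x hx hx'
      simp only [Y, mem_filter, mem_univ, true_and] at hx hx'
      omega
    unfold cnt at h4 ⊢
    rw [h5, card_union_of_disjoint h6] at h4
    exact h4
  have hEc : (Z₀ ∪ Y).card = b + 1 := by
    rw [card_union_of_disjoint hdis, hZ0, hcnt]
    omega
  have hle : cnt w k i' ≤ b := by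
    have := e4_cnt_le w k i'
    rw [hw i'] at this
    exact this
  have hw0 : (fun x => if x ∈ Z₀ then i' else if x ∈ Z₀ ∪ Y then i else w x) = w := by
    funext x
    by_cases hx : x ∈ Z₀
    · simp only [hx, if_true]
      simp only [Z₀, mem_filter, mem_univ, true_and] at hx
      exact hx.2.symm
    · simp only [hx, if_false, mem_union, false_or]
      by_cases hy : x ∈ Y
      · simp only [hy, if_true]
        simp only [Y, mem_filter, mem_univ, true_and] at hy
        exact hy.2.symm
      · simp only [hy, if_false]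
  refine ⟨i, i', Z₀ ∪ Y, Z₀, hEc, subset_union_left, ?_, ?_, hw0, ?_⟩
  · rw [hZ0]; omega
  · rw [hZ0]; omega
  · intro Z hZ hne'
    rw [mem_powersetCard] at hZ
    constructor
    · intro l
      have h7 := e4_count w i i' hne (Z₀ ∪ Y) Z hZ.1 l
      have h8 := e4_count w i i' hne (Z₀ ∪ Y) Z₀ subset_union_left l
      rw [hw0, hw l] at h8
      rw [h7, h8, hZ.2]
    · -- the first position of Z₀ \ Z
      have hex2 : (Z₀ \ Z).Nonempty := by
        rw [nonempty_iff_ne_empty]
        intro h9
        rw [sdiff_eq_empty_iff_subset] at h9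
        exact hne' (eq_of_subset_of_card_le h9 (le_of_eq hZ.2)).symm
      refine ⟨(Z₀ \ Z).min' hex2, ?_, ?_⟩
      · intro y hy
        have hx := (Z₀ \ Z).min'_mem hex2
        set x := (Z₀ \ Z).min' hex2 with hxdef
        have hx0 := (mem_sdiff.mp hx).1
        simp only [Z₀, mem_filter, mem_univ, true_and] at hx0
        have hyx : y.val < x.val := hy
        have hyk : y.val < k := by omega
        by_cases hyZ : y ∈ Z₀
        · have hyZ' : y ∈ Z := by
            by_contra hcon
            have h10 := (Z₀ \ Z).min'_le y (mem_sdiff.mpr ⟨hyZ, hcon⟩)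
            rw [← hxdef] at h10
            exact absurd hy (not_lt.mpr h10)
          simp only [hyZ', if_true]
          simp only [Z₀, mem_filter, mem_univ, true_and] at hyZ
          exact hyZ.2.symm
        · have hyY : y ∉ Y := by
            intro h
            simp only [Y, mem_filter, mem_univ, true_and] at h
            omega
          have hyE : y ∉ Z₀ ∪ Y := by
            rw [mem_union]
            push Not
            exact ⟨hyZ, hyY⟩
          have hyZ' : y ∉ Z := fun h => hyE (hZ.1 h)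
          simp only [hyZ', if_false, hyE]
      · have hx := (Z₀ \ Z).min'_mem hex2
        set x := (Z₀ \ Z).min' hex2 with hxdef
        have hx0 := (mem_sdiff.mp hx).1
        have hx1 := (mem_sdiff.mp hx).2
        have hxE : x ∈ Z₀ ∪ Y := mem_union_left _ hx0
        simp only [hx1, if_false, hxE, if_true]
        simp only [Z₀, mem_filter, mem_univ, true_and] at hx0
        rw [hx0.2]
        exact Fin.lt_def.mpr (by omega)

end Pool.PI34.C0

end

/-! ### part C0_D3 -/
section

set_option autoImplicit false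

namespace Pool.PI34.C0

open Equiv Finset

theorem d3_zero {p : ℕ} (hp : p.Prime) (z : ℤ) (h : ∀ k : ℕ, (p : ℤ) ^ k ∣ z) : z = 0 := by
  apply Int.eq_zero_of_abs_lt_dvd (h z.natAbs)
  have h1 : z.natAbs < p ^ z.natAbs := Nat.lt_pow_self hp.one_lt
  rw [Int.abs_eq_natAbs]
  exact_mod_cast h1

/-- row D3: a subgroup of rank `f` inside a group generated by `r` elements modulo `p^s` -/
theorem rank_count {p : ℕ} (hp : p.Prime) {S : Type} [AddCommGroup S] [Module.Free ℤ S]
    [Module.Finite ℤ S] (s t : ℕ) (hst : t < s) (L : Finset S)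
    (h : ∀ y : S, ∃ (m : S → ℤ) (u : S), (p : ℤ) ^ t • y = ∑ l ∈ L, m l • l + (p : ℤ) ^ s • u) :
    Module.finrank ℤ S ≤ L.card := by
  have hp0 : (p : ℤ) ≠ 0 := by exact_mod_cast hp.ne_zero
  have key : ∀ φ : S →ₗ[ℤ] ℤ, (∀ l ∈ L, φ l = 0) → ∀ y, φ y = 0 := by
    intro φ hφ
    have hdiv : ∀ k : ℕ, ∀ y, (p : ℤ) ^ k ∣ φ y := by
      intro k
      induction k with
      | zero => intro y; simp
      | succ k ih =>
        intro y
        obtain ⟨m, u, hu⟩ := h y
        have h1 := congrArg φ hu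
        rw [map_smul, map_add, map_sum, map_smul] at h1
        have h2 : ∑ l ∈ L, φ (m l • l) = 0 :=
          Finset.sum_eq_zero (fun l hl => by rw [map_smul, hφ l hl, smul_zero])
        rw [h2, zero_add, smul_eq_mul, smul_eq_mul] at h1
        have h3 : (p : ℤ) ^ s = (p : ℤ) ^ t * (p : ℤ) ^ (s - t) := by
          rw [← pow_add]; congr 1; omega
        rw [h3, mul_assoc] at h1
        have h4 := mul_left_cancel₀ (pow_ne_zero t hp0) h1
        rw [h4, pow_succ']
        apply mul_dvd_mul _ (ih u)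
        exact dvd_pow_self _ (by omega)
    intro y
    exact d3_zero hp _ (fun k => hdiv k y)
  let F : (S →ₗ[ℤ] ℤ) →ₗ[ℤ] (L → ℤ) :=
    { toFun := fun φ l => φ l
      map_add' := fun _ _ => rfl
      map_smul' := fun _ _ => rfl }
  have hF : Function.Injective F := by
    rw [← LinearMap.ker_eq_bot, LinearMap.ker_eq_bot']
    intro φ hφ
    ext y
    apply key φ _ y
    intro l hl
    exact congrFun hφ ⟨l, hl⟩
  have h1 := LinearMap.finrank_le_finrank_of_injective hF
  rw [Module.finrank_linearMap_self, Module.finrank_fintype_fun_eq_card, Fintype.card_coe] at h1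
  exact h1

end Pool.PI34.C0

end

/-! ### part C0_D2 -/
section

set_option autoImplicit false

namespace Pool.PI34.C0

open Equiv Finset

lemma d2_red_surj (p : ℕ) (G : Type*) [Group G] : Function.Surjective (red p G) := by
  intro a
  obtain ⟨f, hf⟩ : ∃ f : ZMod p → ℤ, ∀ z, ((f z : ℤ) : ZMod p) = z :=
    ⟨fun z => Classical.choose (ZMod.intCast_surjective z),
      fun z => Classical.choose_spec (ZMod.intCast_surjective z)⟩
  classical
  refine ⟨∑ g ∈ a.coeff.support, MonoidAlgebra.single g (f (a.coeff g)), ?_⟩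
  rw [map_sum]
  have h1 : ∀ g ∈ a.coeff.support, red p G (MonoidAlgebra.single g (f (a.coeff g)))
      = MonoidAlgebra.single g (a.coeff g) := by
    intro g _
    unfold red
    simp [hf]
  rw [Finset.sum_congr rfl h1]
  ext g
  rw [MonoidAlgebra.coeff_sum, Finsupp.finsetSum_apply]
  simp only [MonoidAlgebra.coeff_single, Finsupp.single_apply]
  rw [Finset.sum_ite_eq']
  split_ifs with h
  · rfl
  · exact (Finsupp.notMem_support_iff.1 h).symm

lemma d2_ker (p : ℕ) [Fact p.Prime] (G : Type*) [Group G] (c : MonoidAlgebra ℤ G)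
    (hc : red p G c = 0) : ∃ u : MonoidAlgebra ℤ G, c = (p : ℤ) • u := by
  have h1 : ∀ g, (p : ℤ) ∣ c.coeff g := by
    intro g
    have h2 : (red p G c).coeff g = 0 := by rw [hc]; rfl
    rw [red, MonoidAlgebra.coeff_mapRingHom] at h2
    exact (ZMod.intCast_zmod_eq_zero_iff_dvd _ p).1 h2
  refine ⟨MonoidAlgebra.ofCoeff (c.coeff.mapRange (fun z => z / (p : ℤ)) (by simp)), ?_⟩
  ext g
  rw [MonoidAlgebra.coeff_smul_apply]
  simp only [Finsupp.mapRange_apply, smul_eq_mul]
  rw [Int.mul_ediv_cancel' (h1 g)]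

/-- `E - E^2` is a multiple of `(x - x^2)^s` for `E = 1 - (1 - x^s)^s` -/
lemma d2_dvd {R : Type*} [Ring R] (x : R) (s : ℕ) :
    ∃ c : R, (1 - (1 - x ^ s) ^ s) * (1 - (1 - x ^ s) ^ s) - (1 - (1 - x ^ s) ^ s)
      = (x - x ^ 2) ^ s * c := by
  classical
  let X : Polynomial ℤ := Polynomial.X
  let I : Ideal (Polynomial ℤ) := Ideal.span {(X - X ^ 2) ^ s}
  have h1 := isIdempotentElem_one_sub_one_sub_pow_pow (Ideal.Quotient.mk I X) s (by
    rw [← map_pow, ← map_sub, ← map_pow, Ideal.Quotient.eq_zero_iff_mem]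
    exact Ideal.subset_span rfl)
  have h2 : Ideal.Quotient.mk I ((1 - (1 - X ^ s) ^ s) * (1 - (1 - X ^ s) ^ s)
      - (1 - (1 - X ^ s) ^ s)) = 0 := by
    have h3 := h1.eq
    simp only [map_sub, map_mul, map_one, map_pow]
    rw [h3, sub_self]
  rw [Ideal.Quotient.eq_zero_iff_mem, Ideal.mem_span_singleton] at h2
  obtain ⟨c, hc⟩ := h2
  refine ⟨Polynomial.aeval x c, ?_⟩
  have h4 := congrArg (Polynomial.aeval x) hc
  simpa [X] using h4

/-- row D2: the group ring over `ZMod (p^s)` and the size of the left ideal of an idempotent -/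
theorem card_left_ideal {p : ℕ} [Fact p.Prime] {G : Type} [Group G] [Fintype G] (s : ℕ)
    (hs : 1 ≤ s) (e : MonoidAlgebra (ZMod p) G) (he : e * e = e) :
    ∃ E : MonoidAlgebra ℤ G,
      red p G E = e ∧ (∃ u : MonoidAlgebra ℤ G, E * E - E = (p : ℤ) ^ s • u) ∧
      ∃ L : Finset (MonoidAlgebra ℤ G),
        L.card ≤ Module.finrank (ZMod p) (Ideal.span {e} : Ideal (MonoidAlgebra (ZMod p) G)) ∧
        ∀ a : MonoidAlgebra ℤ G, ∃ (m : MonoidAlgebra ℤ G → ℤ) (u : MonoidAlgebra ℤ G),
          a * E = ∑ l ∈ L, m l • l + (p : ℤ) ^ s • u := by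
  classical
  obtain ⟨x, hx⟩ := d2_red_surj p G e
  obtain ⟨y, hy⟩ := d2_ker p G (x - x ^ 2) (by rw [map_sub, map_pow, hx, pow_two, he, sub_self])
  set E : MonoidAlgebra ℤ G := 1 - (1 - x ^ s) ^ s with hE
  have he' : IsIdempotentElem e := he
  have hredE : red p G E = e := by
    obtain ⟨k, rfl⟩ : ∃ k, s = k + 1 := ⟨s - 1, by omega⟩
    rw [hE, map_sub, map_one, map_pow, map_sub, map_one, map_pow, hx, he'.pow_succ_eq,
      he'.one_sub.pow_succ_eq, sub_sub_cancel]
  obtain ⟨y', hy'⟩ : ∃ u : MonoidAlgebra ℤ G, E * E - E = (p : ℤ) ^ s • u := by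
    obtain ⟨c, hc⟩ := d2_dvd x s
    refine ⟨y ^ s * c, ?_⟩
    rw [hE, hc, hy, smul_pow, smul_mul_assoc]
  have hEE : E * E = E + (p : ℤ) ^ s • y' := by rw [← hy']; abel
  refine ⟨E, hredE, ⟨y', hy'⟩, ?_⟩
  -- the basis
  set J : Ideal (MonoidAlgebra (ZMod p) G) := Ideal.span {e} with hJ
  have : Module.Finite (ZMod p) (MonoidAlgebra (ZMod p) G) := by infer_instance
  have : Module.Finite (ZMod p) J := by
    infer_instance
  let b := Module.finBasis (ZMod p) J
  have hb : ∀ i, ∃ a : MonoidAlgebra ℤ G, red p G (a * E) = (b i : MonoidAlgebra (ZMod p) G) := by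
    intro i
    have h1 : ((b i : J) : MonoidAlgebra (ZMod p) G) ∈ Ideal.span {e} := (b i).2
    obtain ⟨c, hc⟩ := Ideal.mem_span_singleton'.1 h1
    obtain ⟨a, ha⟩ := d2_red_surj p G c
    exact ⟨a, by rw [map_mul, ha, hredE, hc]⟩
  choose a0 ha0 using hb
  refine ⟨Finset.univ.image fun i => a0 i * E, ?_, ?_⟩
  · refine Finset.card_image_le.trans ?_
    rw [Finset.card_univ, Fintype.card_fin]
  set L : Finset (MonoidAlgebra ℤ G) := Finset.univ.image fun i => a0 i * E with hL
  -- elements of the span multiplied by E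
  have hspan : ∀ z ∈ Submodule.span ℤ (L : Set (MonoidAlgebra ℤ G)),
      ∃ v : MonoidAlgebra ℤ G, z * E = z + (p : ℤ) ^ s • v := by
    intro z hz
    induction hz using Submodule.span_induction with
    | mem z hz =>
      rw [hL] at hz
      simp only [Finset.coe_image, Finset.coe_univ, Set.image_univ, Set.mem_range] at hz
      obtain ⟨i, rfl⟩ := hz
      refine ⟨a0 i * y', ?_⟩
      rw [mul_assoc, hEE, mul_add, mul_smul_comm]
    | zero => exact ⟨0, by simp⟩
    | add z1 z2 _ _ h1 h2 =>
      obtain ⟨v1, h1⟩ := h1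
      obtain ⟨v2, h2⟩ := h2
      exact ⟨v1 + v2, by rw [add_mul, h1, h2, smul_add]; abel⟩
    | smul c z1 _ h1 =>
      obtain ⟨v1, h1⟩ := h1
      exact ⟨c • v1, by rw [smul_mul_assoc, h1, smul_add, smul_comm]⟩
  -- one step
  have hstep : ∀ a : MonoidAlgebra ℤ G, ∃ z ∈ Submodule.span ℤ (L : Set (MonoidAlgebra ℤ G)),
      ∃ u v : MonoidAlgebra ℤ G, a * E = z + (p : ℤ) • (u * E) + (p : ℤ) ^ s • v := by
    intro a
    have h1 : red p G a * e ∈ J := Ideal.mul_mem_left _ _ (Ideal.subset_span rfl)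
    let j : J := ⟨red p G a * e, h1⟩
    obtain ⟨f, hf⟩ : ∃ f : ZMod p → ℤ, ∀ z, ((f z : ℤ) : ZMod p) = z :=
      ⟨fun z => Classical.choose (ZMod.intCast_surjective z),
        fun z => Classical.choose_spec (ZMod.intCast_surjective z)⟩
    let z : MonoidAlgebra ℤ G := ∑ i, f (b.repr j i) • (a0 i * E)
    have hz : z ∈ Submodule.span ℤ (L : Set (MonoidAlgebra ℤ G)) := by
      refine Submodule.sum_mem _ fun i _ => Submodule.smul_mem _ _ (Submodule.subset_span ?_)
      rw [hL]; simp
    have hred : red p G z = red p G a * e := by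
      have h2 : (∑ i, (b.repr j i) • b i : J) = j := b.sum_repr j
      have h3 := congrArg (Subtype.val) h2
      have h4 : ((∑ i, (b.repr j i) • b i : J) : MonoidAlgebra (ZMod p) G)
          = ∑ i, (b.repr j i) • ((b i : J) : MonoidAlgebra (ZMod p) G) := by
        rw [Submodule.coe_sum]
        rfl
      rw [map_sum]
      have h5 : ∀ i, red p G (f (b.repr j i) • (a0 i * E))
          = (b.repr j i) • ((b i : J) : MonoidAlgebra (ZMod p) G) := by
        intro i
        rw [map_zsmul, ha0, ← Int.cast_smul_eq_zsmul (ZMod p), hf]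
      rw [Finset.sum_congr rfl (fun i _ => h5 i), ← h4]
      exact h3
    obtain ⟨u, hu⟩ := d2_ker p G (a * E - z) (by rw [map_sub, map_mul, hredE, hred, sub_self])
    obtain ⟨v, hv⟩ := hspan z hz
    refine ⟨z, hz, u, v - a * y', ?_⟩
    have h6 : a * E = z + (p : ℤ) • u := by rw [← hu]; abel
    have h7 : a * E * E = z * E + (p : ℤ) • (u * E) := by
      rw [h6, add_mul, smul_mul_assoc]
    rw [mul_assoc, hEE, mul_add, mul_smul_comm, hv] at h7
    have h8 : a * E = z + (p : ℤ) ^ s • v + (p : ℤ) • (u * E) - (p : ℤ) ^ s • (a * y') := by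
      rw [← h7]; abel
    rw [h8, smul_sub]; abel
  have hiter : ∀ k : ℕ, ∀ a : MonoidAlgebra ℤ G,
      ∃ z ∈ Submodule.span ℤ (L : Set (MonoidAlgebra ℤ G)),
      ∃ u v : MonoidAlgebra ℤ G, a * E = z + (p : ℤ) ^ k • (u * E) + (p : ℤ) ^ s • v := by
    intro k
    induction k with
    | zero => intro a; exact ⟨0, Submodule.zero_mem _, a, 0, by simp⟩
    | succ k ih =>
      intro a
      obtain ⟨z, hz, u, v, h1⟩ := ih a
      obtain ⟨z', hz', u', v', h2⟩ := hstep u
      refine ⟨z + (p : ℤ) ^ k • z', Submodule.add_mem _ hz (Submodule.smul_mem _ _ hz'), u',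
        v + (p : ℤ) ^ k • v', ?_⟩
      rw [h1, h2, smul_add, smul_add, smul_smul, ← pow_succ, smul_add, smul_comm ((p : ℤ) ^ k)
        ((p : ℤ) ^ s)]
      abel
  intro a
  obtain ⟨z, hz, u, v, h1⟩ := hiter s a
  obtain ⟨m, -, hm⟩ := Submodule.mem_span_finset.1 hz
  exact ⟨m, u * E + v, by rw [hm, h1, smul_add]; abel⟩

end Pool.PI34.C0

end

/-! ### part C0_D1 -/
section

set_option autoImplicit false

namespace Pool.PI34.C0

open Equiv Finset

/-- row D1: Schur averaging -/
theorem averaging {G : Type} [Group G] [Fintype G] {S : Type} [AddCommGroup S]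
    [Module.Free ℤ S] [Module.Finite ℤ S] (ρ : G →* (S →ₗ[ℤ] S))
    (hEnd : ∀ T : S →ₗ[ℤ] S, (∀ g, T ∘ₗ ρ g = ρ g ∘ₗ T) → ∃ c : ℤ, ∀ s, T s = c • s)
    (w : S) (φ : S →ₗ[ℤ] ℤ) :
    ∃ c : ℤ, c * (Module.finrank ℤ S : ℤ) = (Fintype.card G : ℤ) * φ w ∧
      ∀ y, ∑ g : G, φ (ρ g y) • ρ g⁻¹ w = c • y := by
  classical
  set T : S →ₗ[ℤ] S := ∑ g : G, (φ ∘ₗ ρ g).smulRight (ρ g⁻¹ w) with hT
  have hTy : ∀ y, T y = ∑ g : G, φ (ρ g y) • ρ g⁻¹ w := by
    intro y
    simp [hT, LinearMap.sum_apply]
  have hmul : ∀ g h : G, ∀ y : S, ρ (g * h) y = ρ g (ρ h y) := by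
    intro g h y
    rw [map_mul]; rfl
  have hcomm : ∀ h : G, T ∘ₗ ρ h = ρ h ∘ₗ T := by
    intro h
    ext y
    rw [LinearMap.comp_apply, LinearMap.comp_apply, hTy, hTy, map_sum]
    refine Fintype.sum_equiv (Equiv.mulRight h) _ _ ?_
    intro g
    rw [Equiv.coe_mulRight, map_smul, hmul g h y, ← hmul h (g * h)⁻¹ w]
    congr 2
    group
  obtain ⟨c, hc⟩ := hEnd T hcomm
  refine ⟨c, ?_, fun y => by rw [← hTy, hc]⟩
  have h1 : T = c • (LinearMap.id : S →ₗ[ℤ] S) := by
    ext y; simp [hc]
  have h2 : LinearMap.trace ℤ S T = c * (Module.finrank ℤ S : ℤ) := by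
    rw [h1, map_smul, LinearMap.trace_id, smul_eq_mul]
  rw [← h2, hT, map_sum]
  have h3 : ∀ g : G, LinearMap.trace ℤ S ((φ ∘ₗ ρ g).smulRight (ρ g⁻¹ w)) = φ w := by
    intro g
    rw [LinearMap.trace_smulRight, LinearMap.comp_apply, ← hmul, mul_inv_cancel, map_one]
    rfl
  rw [Finset.sum_congr rfl (fun g _ => h3 g)]
  simp

end Pool.PI34.C0

end

/-! ### part C0_C2 -/
section

set_option autoImplicit false

namespace Pool.PI34.C0

open Equiv Finset

variable {p : ℕ} [Fact p.Prime] {G : Type} [Group G] [Fintype G]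

/-- row C2 -/
theorem finrank_span_le (I : Ideal (MonoidAlgebra (ZMod p) G)) (e : MonoidAlgebra (ZMod p) G)
    (he : e * e = e) (hI : ∀ a ∈ I, a * e = 0) :
    Module.finrank (ZMod p) (Ideal.span {e} : Ideal (MonoidAlgebra (ZMod p) G)) ≤
      Module.finrank (ZMod p) (MonoidAlgebra (ZMod p) G ⧸ I) := by
  have hspan : ∀ a ∈ (Ideal.span {e} : Ideal (MonoidAlgebra (ZMod p) G)), a * e = a := by
    intro a ha
    obtain ⟨b, hb⟩ := Ideal.mem_span_singleton'.mp ha
    rw [← hb, mul_assoc, he]
  let f : (Ideal.span {e} : Ideal (MonoidAlgebra (ZMod p) G)) →ₗ[ZMod p]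
      (MonoidAlgebra (ZMod p) G ⧸ I) :=
    (I.mkQ.comp (Submodule.subtype _)).restrictScalars (ZMod p)
  have hfin : Module.Finite (ZMod p) (MonoidAlgebra (ZMod p) G ⧸ I) := by
    have : Module.Finite (ZMod p) (MonoidAlgebra (ZMod p) G) := inferInstance
    exact Module.Finite.of_surjective (I.mkQ.restrictScalars (ZMod p)) (Submodule.mkQ_surjective I)
  refine LinearMap.finrank_le_finrank_of_injective (f := f) ?_
  rw [← LinearMap.ker_eq_bot, LinearMap.ker_eq_bot']
  rintro ⟨a, ha⟩ h0
  have h1 : (Submodule.Quotient.mk a : MonoidAlgebra (ZMod p) G ⧸ I) = 0 := h0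
  have h2 : a ∈ I := (Submodule.Quotient.mk_eq_zero I).mp h1
  have h3 := hI a h2
  rw [hspan a ha] at h3
  exact Subtype.ext h3

end Pool.PI34.C0

end

/-! ### part C0_C1 -/
section

set_option autoImplicit false

namespace Pool.PI34.C0

open Equiv Finset

variable {p : ℕ} [Fact p.Prime] {G : Type} [Group G] [Fintype G]

theorem c1_coeff {K : Type} [Semiring K] (φ : G → K) (h : G) :
    (∑ g : G, MonoidAlgebra.single g (φ g)).coeff h = φ h := by
  classical
  rw [MonoidAlgebra.coeff_sum, Finsupp.finsetSum_apply]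
  simp only [MonoidAlgebra.coeff_single, Finsupp.single_apply]
  rw [Finset.sum_eq_single h]
  · simp
  · intro b _ hb; simp [hb]
  · intro hh; exact absurd (mem_univ _) hh

theorem c1_idem {M : Type} [Monoid M] [Finite M] (x : M) : ∃ r : ℕ, 1 ≤ r ∧ x ^ r * x ^ r = x ^ r := by
  obtain ⟨i, j, hij, h⟩ := Finite.exists_ne_map_eq_of_infinite (fun n : ℕ => x ^ (n + 1))
  wlog hlt : i < j generalizing i j
  · exact this j i hij.symm h.symm (by omega)
  obtain ⟨c, hc⟩ : ∃ c, j = i + c := ⟨j - i, by omega⟩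
  have hc1 : 1 ≤ c := by omega
  have h1 : ∀ k : ℕ, ∀ m : ℕ, i + 1 ≤ m → x ^ (m + c * k) = x ^ m := by
    intro k
    induction k with
    | zero => intro m _; simp
    | succ k ih =>
      intro m hm
      have e1 : m + c * (k + 1) = (m + c) + c * k := by ring
      rw [e1, ih (m + c) (by omega)]
      obtain ⟨t, ht⟩ : ∃ t, m = (i + 1) + t := ⟨m - (i + 1), by omega⟩
      have e2 : m + c = (j + 1) + t := by omega
      rw [e2, pow_add, ← h, ← pow_add, ht]
  refine ⟨c * (i + 1), Nat.one_le_iff_ne_zero.2 (by positivity), ?_⟩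
  rw [← pow_add]
  apply h1
  nlinarith

/-- row C1 -/
theorem exists_idem (χ : G →* ZMod p) (I : Ideal (MonoidAlgebra (ZMod p) G))
    (hN : normEl (K := ZMod p) χ ∉ I) :
    ∃ e : MonoidAlgebra (ZMod p) G, e * e = e ∧ (∀ a ∈ I, a * e = 0) ∧
      MonoidAlgebra.lift (ZMod p) (ZMod p) G χ e = 1 := by
  classical
  obtain ⟨f, hf1, hf2⟩ := Submodule.exists_le_ker_of_notMem
    (p := Submodule.restrictScalars (ZMod p) I) (v := normEl (K := ZMod p) χ) hN
  obtain ⟨x, hx⟩ : ∃ x : MonoidAlgebra (ZMod p) G,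
    x = ∑ g : G, MonoidAlgebra.single g (f (MonoidAlgebra.single g⁻¹ 1)) := ⟨_, rfl⟩
  have hxc : ∀ g, x.coeff g = f (MonoidAlgebra.single g⁻¹ 1) := by
    intro g; rw [hx, c1_coeff (fun g => f (MonoidAlgebra.single g⁻¹ 1)) g]
  have hsingle : ∀ (g : G) (r : ZMod p),
      f (MonoidAlgebra.single g r) = r * f (MonoidAlgebra.single g 1) := by
    intro g r
    have : (MonoidAlgebra.single g r : MonoidAlgebra (ZMod p) G)
        = r • MonoidAlgebra.single g 1 := by
      rw [MonoidAlgebra.smul_single]; simp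
    rw [this, map_smul, smul_eq_mul]
  have hpair : ∀ a : MonoidAlgebra (ZMod p) G, (a * x).coeff 1 = f a := by
    intro a
    induction a using MonoidAlgebra.induction_linear with
    | zero => simp
    | add a b ha hb => rw [add_mul, MonoidAlgebra.coeff_add, Finsupp.add_apply, ha, hb, map_add]
    | single g r =>
      rw [MonoidAlgebra.coeff_single_mul_apply, hxc, hsingle g r, mul_one, inv_inv]
  have hax : ∀ a ∈ I, a * x = 0 := by
    intro a ha
    ext h
    have h1 : (MonoidAlgebra.single h⁻¹ (1 : ZMod p) * a) ∈ I := I.mul_mem_left _ ha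
    have h2 := hpair (MonoidAlgebra.single h⁻¹ (1 : ZMod p) * a)
    rw [mul_assoc, MonoidAlgebra.coeff_single_mul_apply, inv_inv, mul_one, one_mul] at h2
    rw [h2]
    have h3 : f (MonoidAlgebra.single h⁻¹ (1 : ZMod p) * a) = 0 := LinearMap.mem_ker.1 (hf2 h1)
    rw [h3]; simp
  have hlift : MonoidAlgebra.lift (ZMod p) (ZMod p) G χ x = f (normEl (K := ZMod p) χ) := by
    rw [hx, map_sum]
    unfold normEl
    rw [map_sum]
    rw [← Equiv.sum_comp (Equiv.inv G)]
    apply Finset.sum_congr rfl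
    intro g _
    rw [Equiv.inv_apply, MonoidAlgebra.lift_single, inv_inv, hsingle g (χ g⁻¹), smul_eq_mul,
      mul_comm]
  haveI : Finite (MonoidAlgebra (ZMod p) G) := by
    haveI : NeZero p := ⟨(Fact.out : p.Prime).ne_zero⟩
    haveI : Finite (ZMod p) := inferInstance
    apply Finite.of_injective (fun y : MonoidAlgebra (ZMod p) G => (fun g => y.coeff g : G → ZMod p))
    intro a b hab
    ext g
    exact congrFun hab g
  obtain ⟨r, hr, hidem⟩ := c1_idem x
  refine ⟨x ^ r, hidem, ?_, ?_⟩
  · intro a ha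
    obtain ⟨r', rfl⟩ : ∃ r', r = r' + 1 := ⟨r - 1, by omega⟩
    rw [pow_succ', ← mul_assoc, hax a ha, zero_mul]
  · have h0 : MonoidAlgebra.lift (ZMod p) (ZMod p) G χ (x ^ r) ≠ 0 := by
      rw [map_pow, hlift]
      exact pow_ne_zero _ hf1
    have h1 : MonoidAlgebra.lift (ZMod p) (ZMod p) G χ (x ^ r)
        * MonoidAlgebra.lift (ZMod p) (ZMod p) G χ (x ^ r)
        = MonoidAlgebra.lift (ZMod p) (ZMod p) G χ (x ^ r) := by
      rw [← map_mul, hidem]
    exact mul_left_cancel₀ h0 (by rw [h1, mul_one])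

end Pool.PI34.C0

end

/-! ### part C0_B1 -/
section

set_option autoImplicit false

namespace Pool.PI34.C0

open Equiv Finset

theorem b1_prod {U : Type*} [Monoid U] : ∀ (n m : ℕ) (hm : m = 2 * n + 1) (v : Fin (n + 1) → U)
    (y : Fin n → U) (w : Fin m → U)
    (_ : ∀ (k : ℕ) (hk : k < n + 1), w ⟨2 * k, by omega⟩ = v ⟨k, hk⟩)
    (_ : ∀ (k : ℕ) (hk : k < n), w ⟨2 * k + 1, by omega⟩ = y ⟨k, hk⟩),
    (List.ofFn w).prod = v 0 * (List.ofFn fun i => y i * v i.succ).prod := by
  intro n
  induction n with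
  | zero =>
    intro m hm v y w hv hy
    obtain rfl : m = 1 := by omega
    have h0 : w 0 = v 0 := hv 0 (by omega)
    simp [List.ofFn_succ, h0]
  | succ n ih =>
    intro m hm v y w hv hy
    obtain ⟨m', rfl⟩ : ∃ m', m = m' + 1 + 1 := ⟨2 * n + 1, by omega⟩
    have h0 : w 0 = v 0 := hv 0 (by omega)
    have h1 : w (Fin.succ 0) = y 0 := hy 0 (by omega)
    rw [List.ofFn_succ, List.ofFn_succ, List.prod_cons, List.prod_cons,
      ih m' (by omega) (fun k => v k.succ) (fun k => y k.succ) (fun i => w i.succ.succ)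
        (fun k hk => hv (k + 1) (by omega)) (fun k hk => hy (k + 1) (by omega)),
      List.ofFn_succ (f := fun i => y i * v i.succ), List.prod_cons, h0, h1]
    simp only [mul_assoc]

/-- the positions `0, …, 2n`: the even ones carry the `v`, the odd ones the `x` -/
def b1_equiv (n : ℕ) : Fin (2 * n + 1) ≃ Fin (n + 1) ⊕ Fin n where
  toFun i := if h : i.val % 2 = 1 then Sum.inr ⟨i.val / 2, by have := i.2; omega⟩
    else Sum.inl ⟨i.val / 2, by have := i.2; omega⟩
  invFun s := Sum.elim (fun k => ⟨2 * k.val, by have := k.2; omega⟩)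
    (fun k => ⟨2 * k.val + 1, by have := k.2; omega⟩) s
  left_inv i := by
    by_cases h : i.val % 2 = 1
    · beta_reduce
      rw [dif_pos h]
      apply Fin.ext
      show 2 * (i.val / 2) + 1 = i.val
      omega
    · beta_reduce
      rw [dif_neg h]
      apply Fin.ext
      show 2 * (i.val / 2) = i.val
      omega
  right_inv s := by
    rcases s with k | k
    · show (if h : (2 * k.val) % 2 = 1 then _ else _) = _
      rw [dif_neg (by omega)]
      congr 1
      apply Fin.ext
      show 2 * k.val / 2 = k.val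
      omega
    · show (if h : (2 * k.val + 1) % 2 = 1 then _ else _) = _
      rw [dif_pos (by omega)]
      congr 1
      apply Fin.ext
      show (2 * k.val + 1) / 2 = k.val
      omega

theorem b1_even (n k : ℕ) (hk : k < n + 1) :
    b1_equiv n ⟨2 * k, by omega⟩ = Sum.inl ⟨k, hk⟩ :=
  (b1_equiv n).right_inv (Sum.inl ⟨k, hk⟩)

theorem b1_odd (n k : ℕ) (hk : k < n) :
    b1_equiv n ⟨2 * k + 1, by omega⟩ = Sum.inr ⟨k, hk⟩ :=
  (b1_equiv n).right_inv (Sum.inr ⟨k, hk⟩)

/-- row B1: the interleaved monomials as monomials in `2n+1` letters -/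
theorem capMono_eq_mono (n : ℕ) : ∃ ι : Perm (Fin n) → Perm (Fin (2 * n + 1)),
    Function.Injective ι ∧ ∀ {U : Type} [Monoid U] (v : Fin (n + 1) → U) (x : Fin n → U),
      ∃ z : Fin (2 * n + 1) → U, (∀ i, (∃ j, z i = v j) ∨ (∃ j, z i = x j)) ∧
        ∀ σ, capMono v x σ = mono z (ι σ) := by
  refine ⟨fun σ => ((b1_equiv n).trans (Equiv.sumCongr (Equiv.refl _) σ)).trans
    (b1_equiv n).symm, ?_, ?_⟩
  · intro σ τ h
    refine Equiv.ext fun k => ?_
    have h1 := Equiv.congr_fun h ((b1_equiv n).symm (Sum.inr k))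
    simpa using h1
  · intro U _ v x
    refine ⟨fun i => Sum.elim v x (b1_equiv n i), ?_, ?_⟩
    · intro i
      rcases h : b1_equiv n i with j | j
      · left
        exact ⟨j, by simp only [h, Sum.elim_inl]⟩
      · right
        exact ⟨j, by simp only [h, Sum.elim_inr]⟩
    · intro σ
      unfold capMono mono
      refine (b1_prod n (2 * n + 1) rfl v (fun i => x (σ i)) _ ?_ ?_).symm
      · intro k hk
        simp [b1_even n k hk]
      · intro k hk
        simp [b1_odd n k hk]

end Pool.PI34.C0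

end

/-! ### part C0_A3 -/
section

set_option autoImplicit false

namespace Pool.PI34.C0

open Equiv Finset

theorem a3_append {α : Type*} (r : α → α → Prop) (w l₁ l₂ : List α) (h : List.Lex r l₁ l₂) :
    List.Lex r (w ++ l₁) (w ++ l₂) := by
  induction w with
  | nil => simpa using h
  | cons a w ih => exact List.Lex.cons ih

theorem a3_flatten {α : Type*} (r : α → α → Prop) : ∀ (n : ℕ) (y z : Fin n → List α) (j : Fin n)
    (a b : α) (s t : List α), (∀ i, i < j → y i = z i) → y j = a :: s → z j = b :: t → r a b →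
    List.Lex r (List.ofFn y).flatten (List.ofFn z).flatten := by
  intro n
  induction n with
  | zero => intro y z j; exact j.elim0
  | succ n ih =>
    intro y z j a b s t hlt hy hz hab
    rw [List.ofFn_succ, List.ofFn_succ, List.flatten_cons, List.flatten_cons]
    rcases Fin.eq_zero_or_eq_succ j with rfl | ⟨j', rfl⟩
    · rw [hy, hz]
      exact List.Lex.rel hab
    · rw [hlt 0 (Fin.succ_pos _)]
      refine a3_append r _ _ _ ?_
      exact ih (fun i => y i.succ) (fun i => z i.succ) j' a b s t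
        (fun i hi => hlt i.succ (Fin.succ_lt_succ_iff.mpr hi)) hy hz hab

/-- row A3 (words): every nontrivial rearrangement of the blocks is lexicographically smaller -/
theorem blocks_lex {α : Type*} [LinearOrder α] {D : ℕ} (y : Fin (D + 1) → List α)
    (hd : Fin (D + 1) → α) (hy : ∀ j, ∃ t, y j = hd j :: t) (hhd : StrictAnti hd)
    (w : List α) (π : Perm (Fin (D + 1))) (hπ : π ≠ 1) :
    List.Lex (· < ·) (w ++ (List.ofFn fun j => y (π j)).flatten) (w ++ (List.ofFn y).flatten) := by
  refine a3_append _ _ _ _ ?_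
  have hne : (univ.filter fun j : Fin (D + 1) => π j ≠ j).Nonempty := by
    by_contra hcon
    rw [Finset.not_nonempty_iff_eq_empty, Finset.filter_eq_empty_iff] at hcon
    refine hπ (Equiv.ext fun j => ?_)
    have := hcon (mem_univ j)
    rw [not_not] at this
    simpa using this
  obtain ⟨j, hj, hmin⟩ := Finset.exists_min_image _ (fun j => j) hne
  have hj' : π j ≠ j := (Finset.mem_filter.mp hj).2
  have hfix : ∀ i, i < j → π i = i := by
    intro i hi
    by_contra hcon
    exact absurd (hmin i (Finset.mem_filter.mpr ⟨mem_univ i, hcon⟩)) (not_le.mpr hi)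
  have hlt : j < π j := by
    rcases lt_trichotomy (π j) j with h | h | h
    · exact absurd (π.injective (hfix _ h)) hj'
    · exact absurd h hj'
    · exact h
  obtain ⟨s, hs⟩ := hy (π j)
  obtain ⟨t, ht⟩ := hy j
  exact a3_flatten (· < ·) (D + 1) (fun j => y (π j)) y j (hd (π j)) (hd j) s t
    (fun i hi => by show y (π i) = y i; rw [hfix i hi]) hs ht (hhd hlt)

end Pool.PI34.C0

end

/-! ### part C0_A2 -/
section

set_option autoImplicit false

namespace Pool.PI34.C0

open Equiv Finset

theorem a2_split {α : Type*} (l' : List α) : ∀ l : List α, l' ≠ [] → l'.Sublist l →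
    ∃ (w : List α) (bs : List (List α)), l = w ++ bs.flatten ∧
      List.Forall₂ (fun b a => ∃ t, b = a :: t) bs l' := by
  induction l' with
  | nil => intro l h; exact absurd rfl h
  | cons a l'' ih =>
    intro l _ hsub
    rw [List.cons_sublist_iff] at hsub
    obtain ⟨r₁, r₂, rfl, ha, hsub⟩ := hsub
    obtain ⟨s, t, rfl⟩ := List.append_of_mem ha
    rcases l'' with _ | ⟨b, m⟩
    · refine ⟨s, [a :: (t ++ r₂)], ?_, ?_⟩
      · simp
      · exact List.Forall₂.cons ⟨t ++ r₂, rfl⟩ List.Forall₂.nil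
    · obtain ⟨w, bs, hr, hf⟩ := ih r₂ (by simp) hsub
      refine ⟨s, (a :: (t ++ w)) :: bs, ?_, ?_⟩
      · rw [hr]
        simp
      · exact List.Forall₂.cons ⟨t ++ w, rfl⟩ hf

theorem a2_ofFn {β : Type*} (L : List β) (k : ℕ) (h : L.length = k) :
    ∃ y : Fin k → β, L = List.ofFn y := by
  subst h
  exact ⟨L.get, (List.ofFn_get L).symm⟩

/-- row A2 (words): decomposition of a word with a decreasing subsequence into blocks -/
theorem exists_blocks {α : Type*} [LinearOrder α] (l : List α) (D : ℕ)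
    (h : ∃ l' : List α, l'.Sublist l ∧ l'.length = D + 1 ∧ l'.SortedGT) :
    ∃ (w : List α) (y : Fin (D + 1) → List α) (hd : Fin (D + 1) → α),
      l = w ++ (List.ofFn y).flatten ∧ (∀ j, ∃ t, y j = hd j :: t) ∧ StrictAnti hd := by
  obtain ⟨l', hsub, hlen, hsort⟩ := h
  have hne : l' ≠ [] := by
    intro h0
    rw [h0] at hlen
    simp at hlen
  obtain ⟨w, bs, hl, hf⟩ := a2_split l' l hne hsub
  have hbs : bs.length = D + 1 := by rw [hf.length_eq, hlen]
  obtain ⟨y, rfl⟩ := a2_ofFn bs (D + 1) hbs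
  obtain ⟨hd, rfl⟩ := a2_ofFn l' (D + 1) hlen
  refine ⟨w, y, hd, hl, ?_, List.sortedGT_ofFn_iff.1 hsort⟩
  intro j
  rw [List.forall₂_iff_get] at hf
  have h1 := hf.2 j.val (by rw [hbs]; exact j.isLt) (by rw [hlen]; exact j.isLt)
  simp only [List.get_eq_getElem, List.getElem_ofFn, Fin.eta] at h1
  exact h1

end Pool.PI34.C0

end

/-! ### part C0_A1 -/
section

set_option autoImplicit false

namespace Pool.PI34.C0

open Equiv Finset

/-- there is a decreasing subsequence of length `k + 1` ending at position `i` -/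
def A1_P {n : ℕ} (σ : Perm (Fin n)) (i : Fin n) (k : ℕ) : Prop :=
  ∃ f : Fin (k + 1) → Fin n, StrictMono f ∧ StrictAnti (fun a => σ (f a)) ∧ f (Fin.last k) = i

theorem A1_zero {n : ℕ} (σ : Perm (Fin n)) (i : Fin n) : A1_P σ i 0 := by
  refine ⟨fun _ => i, ?_, ?_, rfl⟩
  · intro a b hab
    exact absurd (Fin.ext (by omega)) hab.ne
  · intro a b hab
    exact absurd (Fin.ext (by omega)) hab.ne

theorem A1_succ {n : ℕ} (σ : Perm (Fin n)) (i j : Fin n) (k : ℕ) (h : A1_P σ i k)
    (hij : i < j) (hs : σ j < σ i) : A1_P σ j (k + 1) := by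
  obtain ⟨f, hm, ha, hl⟩ := h
  refine ⟨Fin.snoc (α := fun _ => Fin n) f j, ?_, ?_, ?_⟩
  · rw [Fin.strictMono_iff_lt_succ]
    intro a
    refine Fin.lastCases ?_ (fun b => ?_) a
    · rw [Fin.snoc_castSucc (α := fun _ => Fin n), Fin.succ_last,
        Fin.snoc_last (α := fun _ => Fin n), hl]
      exact hij
    · rw [Fin.snoc_castSucc (α := fun _ => Fin n), Fin.succ_castSucc,
        Fin.snoc_castSucc (α := fun _ => Fin n)]
      exact hm (Fin.castSucc_lt_succ)
  · rw [Fin.strictAnti_iff_succ_lt]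
    intro a
    refine Fin.lastCases ?_ (fun b => ?_) a
    · show σ (Fin.snoc (α := fun _ => Fin n) f j (Fin.last k).succ) <
        σ (Fin.snoc (α := fun _ => Fin n) f j (Fin.last k).castSucc)
      rw [Fin.snoc_castSucc (α := fun _ => Fin n), Fin.succ_last,
        Fin.snoc_last (α := fun _ => Fin n), hl]
      exact hs
    · show σ (Fin.snoc (α := fun _ => Fin n) f j (b.castSucc).succ) <
        σ (Fin.snoc (α := fun _ => Fin n) f j (b.castSucc).castSucc)
      rw [Fin.snoc_castSucc (α := fun _ => Fin n), Fin.succ_castSucc,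
        Fin.snoc_castSucc (α := fun _ => Fin n)]
      exact ha (Fin.castSucc_lt_succ)
  · exact Fin.snoc_last (α := fun _ => Fin n) _ _

open Classical in
/-- the colour of a position -/
noncomputable def A1_c {n : ℕ} (D : ℕ) (σ : Perm (Fin n)) (i : Fin n) : ℕ :=
  Nat.findGreatest (A1_P σ i) D

theorem A1_c_spec {n : ℕ} (D : ℕ) (σ : Perm (Fin n)) (i : Fin n) : A1_P σ i (A1_c D σ i) := by
  classical
  exact Nat.findGreatest_spec (P := A1_P σ i) (Nat.zero_le D) (A1_zero σ i)

theorem A1_c_lt {n : ℕ} (D : ℕ) (σ : Perm (Fin n)) (h : Good (D + 1) σ) (i : Fin n) :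
    A1_c D σ i < D := by
  classical
  have h1 : A1_c D σ i ≤ D := Nat.findGreatest_le D
  rcases h1.lt_or_eq with h2 | h2
  · exact h2
  · exfalso
    have h3 := A1_c_spec D σ i
    rw [h2] at h3
    obtain ⟨f, hm, ha, _⟩ := h3
    exact h ⟨f, hm, ha⟩

theorem A1_c_mono {n : ℕ} (D : ℕ) (σ : Perm (Fin n)) (h : Good (D + 1) σ) (i j : Fin n)
    (hij : i < j) (hc : A1_c D σ i = A1_c D σ j) : σ i < σ j := by
  classical
  by_contra hcon
  have hne : σ j ≠ σ i := fun h => hij.ne (σ.injective h).symm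
  have hlt : σ j < σ i := lt_of_le_of_ne (not_lt.mp hcon) hne
  have h1 := A1_succ σ i j _ (A1_c_spec D σ i) hij hlt
  have h2 : A1_c D σ i + 1 ≤ A1_c D σ j :=
    Nat.le_findGreatest (P := A1_P σ j) (A1_c_lt D σ h i) h1
  omega

theorem A1_step {n : ℕ} (D : ℕ) (σ τ : Perm (Fin n)) (hτ : Good (D + 1) τ)
    (hc : ∀ i, A1_c D σ i = A1_c D τ i)
    (hv : ∀ v, A1_c D σ (σ.symm v) = A1_c D τ (τ.symm v)) (i : Fin n)
    (ih : ∀ j, j < i → σ j = τ j) : ¬ σ i < τ i := by
  intro hlt
  have h1 := hv (σ i)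
  rw [Equiv.symm_apply_apply] at h1
  set j := τ.symm (σ i) with hj
  have hτj : τ j = σ i := by rw [hj, Equiv.apply_symm_apply]
  rcases lt_trichotomy j i with h2 | h2 | h2
  · have h3 := ih j h2
    rw [hτj] at h3
    exact h2.ne (σ.injective h3)
  · rw [h2] at hτj
    exact hlt.ne hτj.symm
  · have h3 := A1_c_mono D τ hτ i j h2 (by rw [← hc i, h1])
    rw [hτj] at h3
    exact absurd h3 (not_lt.mpr hlt.le)

/-- row A1 -/
theorem card_good_le (D n : ℕ) :
    Nat.card {σ : Perm (Fin n) // Good (D + 1) σ} ≤ D ^ (2 * n) := by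
  let F : {σ : Perm (Fin n) // Good (D + 1) σ} → (Fin n → Fin D) × (Fin n → Fin D) :=
    fun σ => (fun i => ⟨A1_c D σ.1 i, A1_c_lt D σ.1 σ.2 i⟩,
      fun v => ⟨A1_c D σ.1 (σ.1.symm v), A1_c_lt D σ.1 σ.2 _⟩)
  have hF : Function.Injective F := by
    rintro ⟨σ, hσ⟩ ⟨τ, hτ⟩ h
    have h1 : ∀ i, A1_c D σ i = A1_c D τ i := fun i => by
      have := congrFun (congrArg Prod.fst h) i
      exact congrArg Fin.val this
    have h2 : ∀ v, A1_c D σ (σ.symm v) = A1_c D τ (τ.symm v) := fun v => by
      have := congrFun (congrArg Prod.snd h) v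
      exact congrArg Fin.val this
    have h3 : ∀ i, σ i = τ i := by
      intro i
      induction i using WellFoundedLT.induction with
      | _ i ih =>
        have h4 := A1_step D σ τ hτ h1 h2 i ih
        have h5 := A1_step D τ σ hσ (fun i => (h1 i).symm) (fun v => (h2 v).symm) i
          (fun j hj => (ih j hj).symm)
        exact le_antisymm (not_lt.mp h5) (not_lt.mp h4)
    exact Subtype.ext (Equiv.ext h3)
  refine (Nat.card_le_card_of_injective F hF).trans ?_
  rw [Nat.card_eq_fintype_card, Fintype.card_prod, Fintype.card_fun, Fintype.card_fin,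
    Fintype.card_fin, two_mul, pow_add]

end Pool.PI34.C0

end

/-! ### part C0_E7 -/
section

set_option autoImplicit false

namespace Pool.PI34.C0

open Equiv Finset

variable {n r b : ℕ}

/-- all partial sums of counts, starting at `c`, are antitone -/
def e7Valid (c : Fin r → ℕ) (l : List (Fin r)) : Prop :=
  ∀ k : ℕ, ∀ i j : Fin r, i ≤ j → c j + (l.take k).count j ≤ c i + (l.take k).count i

theorem e7_append (c : Fin r → ℕ) (l₁ l₂ : List (Fin r)) (h₁ : e7Valid c l₁)
    (h₂ : e7Valid (fun j => c j + l₁.count j) l₂) : e7Valid c (l₁ ++ l₂) := by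
  intro k i j hij
  rw [List.take_append, List.count_append, List.count_append]
  rcases le_or_gt k l₁.length with hk | hk
  · have h0 : k - l₁.length = 0 := by omega
    rw [h0]
    simpa using h₁ k i j hij
  · have h0 : l₁.take k = l₁ := List.take_of_length_le hk.le
    rw [h0]
    have := h₂ (k - l₁.length) i j hij
    simp only at this
    omega

/-- adding a sorted block -/
theorem e7_sorted (c : Fin r → ℕ) (l : List (Fin r)) (hl : l.Pairwise (· ≤ ·))
    (hc : ∀ i j : Fin r, i ≤ j → c j ≤ c i)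
    (hc' : ∀ i j : Fin r, i ≤ j → c j + l.count j ≤ c i + l.count i) : e7Valid c l := by
  intro k i j hij
  rcases eq_or_lt_of_le hij with rfl | hlt
  · exact le_rfl
  by_cases hj : j ∈ l.take k
  · have hsplit : l.take k ++ l.drop k = l := List.take_append_drop k l
    have hp : (l.take k ++ l.drop k).Pairwise (· ≤ ·) := by rw [hsplit]; exact hl
    have hcross := (List.pairwise_append.mp hp).2.2
    have hi0 : (l.drop k).count i = 0 := by
      rw [List.count_eq_zero]
      intro hi
      exact absurd (hcross j hj i hi) (not_le.mpr hlt)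
    have hi : l.count i = (l.take k).count i := by
      conv_lhs => rw [← hsplit]
      rw [List.count_append, hi0, add_zero]
    have hjle : (l.take k).count j ≤ l.count j := by
      conv_rhs => rw [← hsplit]
      rw [List.count_append]
      omega
    have := hc' i j hij
    omega
  · have : (l.take k).count j = 0 := List.count_eq_zero.mpr hj
    have := hc i j hij
    omega

/-- adding a block without repetitions -/
theorem e7_nodup (c : Fin r → ℕ) (l : List (Fin r)) (hl : l.Nodup)
    (hc : ∀ i j : Fin r, i < j → c j + 1 ≤ c i) : e7Valid c l := by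
  intro k i j hij
  rcases eq_or_lt_of_le hij with rfl | hlt
  · exact le_rfl
  have h1 : (l.take k).count j ≤ 1 :=
    List.nodup_iff_count_le_one.mp (hl.sublist (List.take_sublist k l)) j
  have := hc i j hlt
  omega

theorem e7_count_perm (π : Perm (Fin r)) (j : Fin r) : (List.ofFn π).count j = 1 := by
  apply List.count_eq_one_of_mem
  · exact List.nodup_ofFn.mpr π.injective
  · rw [List.mem_ofFn]
    exact ⟨π.symm j, by simp⟩

/-- adding blocks of permutations -/
theorem e7_perms (L : List (Perm (Fin r))) : ∀ (c : Fin r → ℕ),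
    (∀ i j : Fin r, i < j → c j + 1 ≤ c i) →
    e7Valid c (L.map fun π : Perm (Fin r) => List.ofFn π).flatten ∧
      ∀ j, ((L.map fun π : Perm (Fin r) => List.ofFn π).flatten).count j = L.length := by
  induction L with
  | nil =>
    intro c hc
    refine ⟨?_, by intro j; simp⟩
    intro k i j hij
    rcases eq_or_lt_of_le hij with rfl | hlt
    · exact le_rfl
    · have := hc i j hlt
      simp
      omega
  | cons π L ih =>
    intro c hc
    rw [List.map_cons, List.flatten_cons]
    have hc2 : ∀ i j : Fin r, i < j →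
        (fun j => c j + (List.ofFn π).count j) j + 1 ≤ (fun j => c j + (List.ofFn π).count j) i := by
      intro i j hij
      have := hc i j hij
      simp only [e7_count_perm]
      omega
    obtain ⟨h1, h2⟩ := ih _ hc2
    refine ⟨e7_append c _ _ (e7_nodup c _ (List.nodup_ofFn.mpr π.injective) hc) h1, ?_⟩
    intro j
    rw [List.count_append, e7_count_perm, h2 j, List.length_cons]
    omega

/-- the sorted list with prescribed multiplicities -/
noncomputable def e7srt (d : Fin r → ℕ) : List (Fin r) :=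
  (∑ j : Fin r, d j • ({j} : Multiset (Fin r))).sort (· ≤ ·)

theorem e7srt_count (d : Fin r → ℕ) (j : Fin r) : (e7srt d).count j = d j := by
  rw [e7srt, ← Multiset.coe_count, Multiset.sort_eq, Multiset.count_sum']
  simp [Multiset.count_nsmul, Multiset.count_singleton]

theorem e7srt_pw (d : Fin r → ℕ) : (e7srt d).Pairwise (· ≤ ·) :=
  Multiset.pairwise_sort _ _

/-- the word as a list -/
noncomputable def e7word (M : ℕ) (π : Fin M → Perm (Fin r)) : List (Fin r) :=
  e7srt (fun j : Fin r => r - 1 - j.val) ++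
    ((List.ofFn π).map fun π : Perm (Fin r) => List.ofFn π).flatten ++
      e7srt (fun j : Fin r => j.val)

theorem e7word_valid (M : ℕ) (π : Fin M → Perm (Fin r)) : e7Valid (fun _ => 0) (e7word M π) := by
  have hc : ∀ i j : Fin r, i < j →
      (fun j : Fin r => 0 + (e7srt (fun j : Fin r => r - 1 - j.val)).count j) j + 1 ≤
        (fun j : Fin r => 0 + (e7srt (fun j : Fin r => r - 1 - j.val)).count j) i := by
    intro i j hij
    have h1 := i.2
    have h2 := j.2
    have h3 : i.val < j.val := hij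
    simp only [e7srt_count]
    omega
  obtain ⟨p1, p2⟩ := e7_perms (List.ofFn π) _ hc
  have hlen : (List.ofFn π).length = M := List.length_ofFn
  apply e7_append
  · apply e7_append
    · apply e7_sorted _ _ (e7srt_pw _)
      · intro i j _; exact le_rfl
      · intro i j hij
        have h3 : i.val ≤ j.val := hij
        simp only [e7srt_count]
        omega
    · exact p1
  · apply e7_sorted _ _ (e7srt_pw _)
    · intro i j hij
      have h1 := i.2
      have h2 := j.2
      have h3 : i.val ≤ j.val := hij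
      simp only [List.count_append, e7srt_count, p2, hlen]
      omega
    · intro i j hij
      have h1 := i.2
      have h2 := j.2
      have h3 : i.val ≤ j.val := hij
      simp only [List.count_append, e7srt_count, p2, hlen]
      omega

theorem e7word_count (M : ℕ) (π : Fin M → Perm (Fin r)) (j : Fin r) :
    (e7word M π).count j = M + (r - 1) := by
  have hc : ∀ i j : Fin r, i < j →
      (fun j : Fin r => r - j.val) j + 1 ≤ (fun j : Fin r => r - j.val) i := by
    intro i j hij
    have h1 := i.2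
    have h2 := j.2
    have h3 : i.val < j.val := hij
    simp only
    omega
  obtain ⟨_, p2⟩ := e7_perms (List.ofFn π) _ hc
  have hlen : (List.ofFn π).length = M := List.length_ofFn
  have h1 := j.2
  rw [e7word, List.count_append, List.count_append, p2, e7srt_count, e7srt_count, hlen]
  omega

theorem e7_length (l : List (Fin r)) : l.length = ∑ j, l.count j := by
  rw [← Multiset.coe_card, ← Multiset.toFinset_sum_count_eq]
  simp only [Multiset.coe_count]
  apply Finset.sum_subset (Finset.subset_univ _)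
  intro j _ hj
  rw [Multiset.mem_toFinset, Multiset.mem_coe] at hj
  exact List.count_eq_zero.mpr hj

theorem e7word_inj (M : ℕ) : Function.Injective (e7word (r := r) M) := by
  intro π π' h
  unfold e7word at h
  have h1 := List.append_cancel_right h
  have h2 := List.append_cancel_left h1
  have h3 : ((List.ofFn π).map fun π : Perm (Fin r) => List.ofFn π) =
      ((List.ofFn π').map fun π : Perm (Fin r) => List.ofFn π) := by
    rw [List.eq_iff_flatten_eq]
    refine ⟨h2, ?_⟩
    simp [List.map_map, Function.comp_def]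
  have h4 : List.ofFn π = List.ofFn π' := by
    apply List.map_injective_iff.mpr _ h3
    intro a b hab
    exact Equiv.coe_fn_injective (List.ofFn_injective hab)
  exact List.ofFn_injective h4

theorem e7_cnt : ∀ (n : ℕ) (w : Fin n → Fin r) (k : ℕ) (j : Fin r),
    cnt w k j = ((List.ofFn w).take k).count j := by
  intro n
  induction n with
  | zero => intro w k j; simp [cnt]
  | succ n ih =>
    intro w k j
    cases k with
    | zero => simp [cnt]
    | succ k =>
      rw [List.ofFn_succ, List.take_succ_cons, List.count_cons]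
      have h := ih (fun i => w i.succ) k j
      rw [← h]
      unfold cnt
      rw [Fin.card_filter_univ_succ]
      simp only [Fin.val_zero, Nat.zero_lt_succ, true_and, Fin.val_succ, Nat.succ_lt_succ_iff,
        beq_iff_eq]
      split_ifs <;> rfl

theorem e7_exists (l : List (Fin r)) (n : ℕ) (h : l.length = n) :
    ∃ w : Fin n → Fin r, List.ofFn w = l := by
  subst h
  exact ⟨l.get, List.ofFn_get l⟩

/-- the set of ballot balanced words -/
abbrev E7S (n r b : ℕ) := {w : Fin n → Fin r // Bal b w ∧ Ballot w}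

theorem e7_card (hn : n = r * b) (hrb : r ≤ b + 1) [Fintype (E7S n r b)] :
    (Nat.factorial r) ^ (b + 1 - r) ≤ Fintype.card (E7S n r b) := by
  classical
  have hb : ∀ j : Fin r, (b + 1 - r) + (r - 1) = b := by
    intro j
    have := j.2
    omega
  have hlen : ∀ π : Fin (b + 1 - r) → Perm (Fin r), (e7word (b + 1 - r) π).length = n := by
    intro π
    rw [e7_length, hn]
    rw [Finset.sum_congr rfl (fun j _ => (e7word_count (b + 1 - r) π j).trans (hb j))]
    simp
  choose w hw using fun π : Fin (b + 1 - r) → Perm (Fin r) => e7_exists _ n (hlen π)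
  have hbal : ∀ π, Bal b (w π) := by
    intro π j
    rw [e7_cnt, hw, List.take_of_length_le (hlen π).le, e7word_count]
    exact hb j
  have hballot : ∀ π, Ballot (w π) := by
    intro π k i j hij
    rw [e7_cnt, e7_cnt, hw]
    have := e7word_valid (b + 1 - r) π k i j hij
    simpa using this
  have hinj : Function.Injective (fun π => (⟨w π, hbal π, hballot π⟩ : E7S n r b)) := by
    intro π π' h
    have h1 : w π = w π' := congrArg Subtype.val h
    apply e7word_inj
    rw [← hw π, ← hw π', h1]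
  have := Fintype.card_le_of_injective _ hinj
  simpa [Fintype.card_perm] using this

/-- row E7: rank -/
theorem rank_latS (hn : n = r * b) (hrb : r ≤ b + 1) :
    (Nat.factorial r) ^ (b + 1 - r) ≤ Module.finrank ℤ (latS n r b) := by
  classical
  haveI : Fintype (E7S n r b) := Fintype.ofFinite _
  refine le_trans (e7_card hn hrb) ?_
  choose β hβ1 hβ2 using fun s : E7S n r b => exists_beta s.1 s.2.1 s.2.2
  have hmem : ∀ s : E7S n r b, eb (β s) ∈ latS n r b := by
    intro s
    refine ⟨1, one_ne_zero, ?_⟩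
    rw [one_smul]
    exact Submodule.subset_span ⟨β s, rfl⟩
  have hli : LinearIndependent ℤ (fun s : E7S n r b => (⟨eb (β s), hmem s⟩ : latS n r b)) := by
    rw [Fintype.linearIndependent_iff]
    intro g hg
    by_contra hne
    push Not at hne
    obtain ⟨s0, hs0⟩ := hne
    obtain ⟨s, hs, hmin⟩ := (univ.filter (fun s : E7S n r b => g s ≠ 0)).exists_min_image
      (fun s => toLex s.1) ⟨s0, by simpa using hs0⟩
    have h1 := congrArg (fun f : latS n r b => (f : (Fin n → Fin r) → ℤ) s.1) hg
    simp only [Submodule.coe_sum, Submodule.coe_smul, Finset.sum_apply, Pi.smul_apply,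
      Submodule.coe_zero, Pi.zero_apply] at h1
    rw [Finset.sum_eq_single s] at h1
    · rw [hβ1 s] at h1
      simp at h1
      simp at hs
      exact hs h1
    · intro t _ hts
      by_cases hgt : g t = 0
      · simp [hgt]
      · by_cases he : eb (β t) s.1 = 0
        · simp [he]
        · exfalso
          rcases hβ2 t s.1 he with h | h
          · exact hts (Subtype.ext h.symm)
          · have hle := hmin t (by simpa using hgt)
            exact absurd h (not_lt.mpr hle)
    · intro h
      exact absurd (mem_univ s) h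
  exact hli.fintype_card_le_finrank

end Pool.PI34.C0

end

/-! ### part C0_E6 -/
section

set_option autoImplicit false

namespace Pool.PI34.C0

open Equiv Finset

variable {n r b : ℕ}

/-- the standard word of `β` -/
def e6_s (β : Fin n ≃ Fin r × Fin b) : Fin n → Fin r := fun x => (β x).1

theorem e6_eb_s (β : Fin n ≃ Fin r × Fin b) : eb β (e6_s β) = 1 := by
  unfold eb e6_s
  refine Finset.prod_eq_one fun c _ => ?_
  have h : (Matrix.of fun i j : Fin r => if (β (β.symm (i, c))).1 = j then (1 : ℤ) else 0) = 1 := by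
    ext i j
    simp [Matrix.one_apply]
  rw [h, Matrix.det_one]

theorem e6_col (β : Fin n ≃ Fin r × Fin b) (x y : Fin n) (hc : (β x).2 = (β y).2) (z : Fin n) :
    (β (swap x y z)).2 = (β z).2 := by
  by_cases h1 : z = x
  · subst h1; rw [swap_apply_left]; exact hc.symm
  · by_cases h2 : z = y
    · subst h2; rw [swap_apply_right]; exact hc
    · rw [swap_apply_of_ne_of_ne h1 h2]

/-- a function which changes sign under all column swaps is a multiple of `eb β` -/
theorem e6_alt (β : Fin n ≃ Fin r × Fin b) (F : (Fin n → Fin r) → ℤ)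
    (hF : ∀ (w : Fin n → Fin r) (x y : Fin n), x ≠ y → (β x).2 = (β y).2 →
      F (w ∘ swap x y) = - F w) (w : Fin n → Fin r) :
    F w = F (e6_s β) * eb β w := by
  classical
  by_cases hw : ∀ x y : Fin n, (β x).2 = (β y).2 → w x = w y → x = y
  · -- induction on the number of mismatches
    induction hk : (univ.filter fun x => w x ≠ e6_s β x).card using Nat.strong_induction_on
      generalizing w with
    | _ k ih =>
      by_cases hmis : ∃ x, w x ≠ e6_s β x
      · obtain ⟨x, hx⟩ := hmis
        -- find y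
        have hinj : Function.Injective fun i : Fin r => w (β.symm (i, (β x).2)) := by
          intro i j hij
          have h := hw _ _ (by simp) hij
          simpa using h
        have hsurj := Finite.injective_iff_surjective.mp hinj
        obtain ⟨i, hi⟩ := hsurj (e6_s β x)
        set y := β.symm (i, (β x).2) with hy
        have hi' : w y = e6_s β x := hi
        have hcol : (β x).2 = (β y).2 := by rw [hy]; simp
        have hxy : x ≠ y := by
          rintro h
          exact hx (by rw [← hi', ← h])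
        have hsy : w y ≠ e6_s β y := by
          intro h
          rw [hi'] at h
          apply hxy
          apply β.injective
          exact Prod.ext h hcol
        have hcol' := e6_col β x y hcol
        have h1 : F (w ∘ swap x y) = F (e6_s β) * eb β (w ∘ swap x y) := by
          refine ih _ ?_ (w ∘ swap x y) ?_ rfl
          · rw [← hk]
            refine Finset.card_lt_card ?_
            refine ⟨?_, ?_⟩
            · intro z hz
              rw [Finset.mem_filter] at hz ⊢
              refine ⟨Finset.mem_univ _, ?_⟩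
              by_cases hzx : z = x
              · subst hzx; exact hx
              · by_cases hzy : z = y
                · rw [hzy]; exact hsy
                · have h2 := hz.2
                  rw [Function.comp_apply, swap_apply_of_ne_of_ne hzx hzy] at h2
                  exact h2
            · intro hsub
              have h2 : x ∈ univ.filter fun z => w z ≠ e6_s β z := by simp [hx]
              have h3 := hsub h2
              rw [Finset.mem_filter] at h3
              apply h3.2
              rw [Function.comp_apply, swap_apply_left, hi']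
          · intro u v huv hwuv
            have h2 := hw (swap x y u) (swap x y v) (by rw [hcol' u, hcol' v, huv]) hwuv
            exact (swap x y).injective h2
        rw [hF w x y hxy hcol, eb_swap β w x y hxy hcol] at h1
        linarith
      · push Not at hmis
        have h2 : w = e6_s β := funext hmis
        rw [h2, e6_eb_s, mul_one]
  · push Not at hw
    obtain ⟨x, y, hcol, hwxy, hxy⟩ := hw
    have h1 : w ∘ swap x y = w := by
      funext z
      rw [Function.comp_apply]
      by_cases h1 : z = x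
      · subst h1; rw [swap_apply_left]; exact hwxy.symm
      · by_cases h2 : z = y
        · subst h2; rw [swap_apply_right]; exact hwxy
        · rw [swap_apply_of_ne_of_ne h1 h2]
    have h2 := hF w x y hxy hcol
    have h3 := eb_swap β w x y hxy hcol
    rw [h1] at h2 h3
    have h4 : F w = 0 := by linarith
    have h5 : eb β w = 0 := by linarith
    rw [h4, h5, mul_zero]

theorem e6_mem (β : Fin n ≃ Fin r × Fin b) : eb β ∈ latS n r b :=
  ⟨1, one_ne_zero, by rw [one_smul]; exact Submodule.subset_span (Set.mem_range_self β)⟩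

/-- row E6: only scalars commute with the action -/
theorem end_scalar (T : latS n r b →ₗ[ℤ] latS n r b)
    (hT : ∀ (σ : Perm (Fin n)) (f g : latS n r b), (g : (Fin n → Fin r) → ℤ) = act σ f →
      (T g : (Fin n → Fin r) → ℤ) = act σ (T f)) :
    ∃ c : ℤ, ∀ f, T f = c • f := by
  classical
  -- `T e_β` is a multiple of `e_β`
  have h1 : ∀ β : Fin n ≃ Fin r × Fin b,
      T ⟨eb β, e6_mem β⟩ = (T ⟨eb β, e6_mem β⟩ : (Fin n → Fin r) → ℤ) (e6_s β) •
        (⟨eb β, e6_mem β⟩ : latS n r b) := by
    intro β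
    apply Subtype.ext
    funext w
    have h := e6_alt β (T ⟨eb β, e6_mem β⟩ : (Fin n → Fin r) → ℤ) ?_ w
    · rw [h]; rfl
    · intro w x y hxy hcol
      have h2 := hT (swap x y) ⟨eb β, e6_mem β⟩ (-⟨eb β, e6_mem β⟩) (by
        funext w'
        have := eb_swap β w' x y hxy hcol
        show - eb β w' = eb β (w' ∘ swap x y)
        rw [this])
      have h3 := congrFun h2 w
      rw [map_neg] at h3
      exact h3.symm
  have h2 : ∀ β β' : Fin n ≃ Fin r × Fin b,
      T ⟨eb β', e6_mem β'⟩ = (T ⟨eb β, e6_mem β⟩ : (Fin n → Fin r) → ℤ) (e6_s β) •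
        (⟨eb β', e6_mem β'⟩ : latS n r b) := by
    intro β β'
    set c := (T ⟨eb β, e6_mem β⟩ : (Fin n → Fin r) → ℤ) (e6_s β) with hc
    have h3 : act (β.trans β'.symm) (eb β) = eb β' := by
      rw [eb_act]
      congr 1
      ext x <;> simp
    have h4 := hT (β.trans β'.symm) ⟨eb β, e6_mem β⟩ ⟨eb β', e6_mem β'⟩ h3.symm
    apply Subtype.ext
    rw [h4, h1 β, ← hc]
    show act (β.trans β'.symm) (c • eb β) = c • eb β'
    rw [map_smul, h3]
  obtain ⟨c, hc⟩ : ∃ c : ℤ, ∀ β : Fin n ≃ Fin r × Fin b,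
      T ⟨eb β, e6_mem β⟩ = c • (⟨eb β, e6_mem β⟩ : latS n r b) := by
    by_cases hne : Nonempty (Fin n ≃ Fin r × Fin b)
    · obtain ⟨β⟩ := hne
      exact ⟨_, fun β' => h2 β β'⟩
    · exact ⟨0, fun β => absurd ⟨β⟩ hne⟩
  refine ⟨c, fun f => ?_⟩
  set T' : latS n r b →ₗ[ℤ] latS n r b := T - c • LinearMap.id with hT'
  set K : Submodule ℤ (latS n r b) := LinearMap.ker T' with hK
  have hspan : Submodule.span ℤ (Set.range (eb (n := n) (r := r) (b := b))) ≤
      K.map (latS n r b).subtype := by
    rw [Submodule.span_le]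
    rintro _ ⟨β, rfl⟩
    refine ⟨⟨eb β, e6_mem β⟩, ?_, rfl⟩
    show (⟨eb β, e6_mem β⟩ : latS n r b) ∈ K
    rw [hK, LinearMap.mem_ker, hT', LinearMap.sub_apply, hc β, LinearMap.smul_apply, LinearMap.id_apply,
      sub_self]
  obtain ⟨N, hN, hNf⟩ := f.2
  obtain ⟨k, hk, hkf⟩ := hspan hNf
  have hkN : k = N • f := Subtype.ext hkf
  have h5 : T' (N • f) = 0 := by
    rw [← hkN]; exact LinearMap.mem_ker.mp hk
  rw [map_smul] at h5
  have h6 : T' f = 0 := by
    apply Subtype.ext
    funext w
    have h7 := congrFun (congrArg Subtype.val h5) w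
    have h8 : N * ((T' f : latS n r b) : (Fin n → Fin r) → ℤ) w = 0 := h7
    rcases mul_eq_zero.mp h8 with h9 | h9
    · exact absurd h9 hN
    · exact h9
  rw [hT', LinearMap.sub_apply, sub_eq_zero] at h6
  exact h6

end Pool.PI34.C0

end

/-! ### part C0_E2 -/
section

set_option autoImplicit false

namespace Pool.PI34.C0

open Equiv Finset

variable {n r b : ℕ}

theorem e2_map_mem (E : Finset (Fin n)) {x y : Fin n} (hx : x ∈ E) (hy : y ∈ E) (u : Fin n) :
    swap x y u ∈ E ↔ u ∈ E := by
  by_cases h1 : u = x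
  · subst h1; simp [hx, hy]
  by_cases h2 : u = y
  · subst h2; simp [hx, hy]
  rw [swap_apply_of_ne_of_ne h1 h2]

theorem e2_word (i i' : Fin r) (E Z : Finset (Fin n)) (w : Fin n → Fin r) {x y : Fin n}
    (hx : x ∈ E) (hy : y ∈ E) :
    (fun u => if u ∈ Z.map (swap x y).toEmbedding then i' else if u ∈ E then i else w u) =
      (fun u => if u ∈ Z then i' else if u ∈ E then i else w u) ∘ swap x y := by
  funext u
  have h1 : u ∈ Z.map (swap x y).toEmbedding ↔ swap x y u ∈ Z := by
    rw [Finset.mem_map]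
    constructor
    · rintro ⟨v, hv, rfl⟩
      simpa using hv
    · intro h
      exact ⟨swap x y u, h, by simp⟩
  have h2 := e2_map_mem E hx hy u
  have h3 : u ∉ E → w (swap x y u) = w u := by
    intro hu
    rw [swap_apply_of_ne_of_ne]
    · rintro rfl; exact hu hx
    · rintro rfl; exact hu hy
  simp only [Function.comp_apply, h1, h2]
  by_cases hZ : swap x y u ∈ Z
  · simp [hZ]
  · by_cases hE : u ∈ E
    · simp [hZ, hE]
    · simp [hZ, hE, h3 hE]

/-- row E2: relation G -/
theorem eb_rel (β : Fin n ≃ Fin r × Fin b) (i i' : Fin r) (E : Finset (Fin n))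
    (hE : b < E.card) (a : ℕ) (w : Fin n → Fin r) :
    ∑ Z ∈ E.powersetCard a, eb β (fun x => if x ∈ Z then i' else if x ∈ E then i else w x) = 0 := by
  classical
  obtain ⟨x, hx, y, hy, hxy, hc⟩ : ∃ x ∈ E, ∃ y ∈ E, x ≠ y ∧ (β x).2 = (β y).2 :=
    Finset.exists_ne_map_eq_of_card_lt_of_maps_to (t := (univ : Finset (Fin b)))
      (by simpa using hE) (fun _ _ => mem_univ _)
  have key : ∑ Z ∈ E.powersetCard a,
        eb β (fun x => if x ∈ Z then i' else if x ∈ E then i else w x) =
      ∑ Z ∈ E.powersetCard a,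
        - eb β (fun x => if x ∈ Z then i' else if x ∈ E then i else w x) := by
    refine Finset.sum_nbij' (fun Z => Z.map (swap x y).toEmbedding)
      (fun Z => Z.map (swap x y).toEmbedding) ?_ ?_ ?_ ?_ ?_
    · intro Z hZ
      rw [mem_powersetCard] at hZ ⊢
      refine ⟨?_, by rw [card_map]; exact hZ.2⟩
      intro u hu
      rw [Finset.mem_map] at hu
      obtain ⟨v, hv, rfl⟩ := hu
      exact (e2_map_mem E hx hy v).2 (hZ.1 hv)
    · intro Z hZ
      rw [mem_powersetCard] at hZ ⊢
      refine ⟨?_, by rw [card_map]; exact hZ.2⟩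
      intro u hu
      rw [Finset.mem_map] at hu
      obtain ⟨v, hv, rfl⟩ := hu
      exact (e2_map_mem E hx hy v).2 (hZ.1 hv)
    · intro Z _
      ext u
      simp [Finset.mem_map]
    · intro Z _
      ext u
      simp [Finset.mem_map]
    · intro Z _
      rw [e2_word i i' E Z w hx hy, eb_swap β _ x y hxy hc, neg_neg]
  rw [Finset.sum_neg_distrib] at key
  omega

end Pool.PI34.C0

end

/-! ### part C0_D4 -/
section

set_option autoImplicit false

namespace Pool.PI34.C0

open Equiv Finset

/-- the representation as an algebra homomorphism -/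
noncomputable def d4_R {G : Type} [Group G] {S : Type} [AddCommGroup S]
    (ρ : G →* (S →ₗ[ℤ] S)) : MonoidAlgebra ℤ G →ₐ[ℤ] Module.End ℤ S :=
  MonoidAlgebra.lift ℤ (Module.End ℤ S) G ρ

theorem d4_R_single {G : Type} [Group G] {S : Type} [AddCommGroup S]
    (ρ : G →* (S →ₗ[ℤ] S)) (g : G) (a : ℤ) (y : S) :
    d4_R ρ (MonoidAlgebra.single g a) y = a • ρ g y := by
  unfold d4_R
  rw [MonoidAlgebra.lift_single]
  rfl

/-- the augmentation by an integral sign character -/
noncomputable def d4_A {G : Type} [Group G] (χ : G →* ℤˣ) : MonoidAlgebra ℤ G →ₐ[ℤ] ℤ :=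
  MonoidAlgebra.lift ℤ ℤ G ((Units.coeHom ℤ).comp χ)

theorem d4_A_single {G : Type} [Group G] (χ : G →* ℤˣ) (g : G) (a : ℤ) :
    d4_A χ (MonoidAlgebra.single g a) = a * ((χ g : ℤˣ) : ℤ) := by
  unfold d4_A
  rw [MonoidAlgebra.lift_single]
  rfl

theorem d4_red_single {G : Type} [Group G] (p : ℕ) (g : G) (a : ℤ) :
    red p G (MonoidAlgebra.single g a) = MonoidAlgebra.single g (a : ZMod p) := by
  simp [red]

theorem d4_A_red {p : ℕ} [Fact p.Prime] {G : Type} [Group G] (χ : G →* ℤˣ)
    (E : MonoidAlgebra ℤ G) :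
    MonoidAlgebra.lift (ZMod p) (ZMod p) G (chiP p χ) (red p G E) = ((d4_A χ E : ℤ) : ZMod p) := by
  induction E using MonoidAlgebra.induction_linear with
  | zero => simp
  | add f g hf hg => simp only [map_add, hf, hg, Int.cast_add]
  | single g a =>
    rw [d4_red_single, d4_A_single, MonoidAlgebra.lift_single]
    simp [chiP]

theorem d4_R_sub {p : ℕ} {G : Type} [Group G] {S : Type} [AddCommGroup S]
    (ρ : G →* (S →ₗ[ℤ] S)) (χ : G →* ℤˣ) (v : S)
    (hinv : ∀ g, ∃ u : S, ρ g v - ((χ g : ℤˣ) : ℤ) • v = (p : ℤ) • u)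
    (E : MonoidAlgebra ℤ G) :
    ∃ u : S, d4_R ρ E v - d4_A χ E • v = (p : ℤ) • u := by
  induction E using MonoidAlgebra.induction_linear with
  | zero => exact ⟨0, by simp⟩
  | add f g hf hg =>
    obtain ⟨u1, h1⟩ := hf
    obtain ⟨u2, h2⟩ := hg
    refine ⟨u1 + u2, ?_⟩
    rw [smul_add, ← h1, ← h2]
    simp only [map_add, LinearMap.add_apply, add_smul]
    abel
  | single g a =>
    obtain ⟨u, hu⟩ := hinv g
    refine ⟨a • u, ?_⟩
    rw [d4_R_single, d4_A_single, smul_comm (p : ℤ) a u, ← hu, smul_sub, mul_smul]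

/-- row D4: assembly of D1, D2, D3 -/
theorem rank_le_dim {p : ℕ} [Fact p.Prime] {G : Type} [Group G] [Fintype G]
    {S : Type} [AddCommGroup S] [Module.Free ℤ S] [Module.Finite ℤ S]
    (ρ : G →* (S →ₗ[ℤ] S)) (χ : G →* ℤˣ)
    (hEnd : ∀ T : S →ₗ[ℤ] S, (∀ g, T ∘ₗ ρ g = ρ g ∘ₗ T) → ∃ c : ℤ, ∀ s, T s = c • s)
    (v : S) (hv : ∀ u : S, v ≠ (p : ℤ) • u)
    (hinv : ∀ g, ∃ u : S, ρ g v - ((χ g : ℤˣ) : ℤ) • v = (p : ℤ) • u)
    (e : MonoidAlgebra (ZMod p) G) (he : e * e = e)
    (hχ : MonoidAlgebra.lift (ZMod p) (ZMod p) G (chiP p χ) e = 1) :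
    Module.finrank ℤ S ≤
      Module.finrank (ZMod p) (Ideal.span {e} : Ideal (MonoidAlgebra (ZMod p) G)) := by
  classical
  have hp : p.Prime := Fact.out
  set N : ℕ := Fintype.card G with hN
  have hN0 : N ≠ 0 := Fintype.card_ne_zero
  obtain ⟨t, N', hN'p, hNt⟩ := Nat.exists_eq_pow_mul_and_not_dvd hN0 p hp.ne_one
  obtain ⟨E, hredE, ⟨uE, huE⟩, L, hLcard, hL⟩ := card_left_ideal (t + 1) (by omega) e he
  refine le_trans ?_ hLcard
  -- the vector w
  set w : S := d4_R ρ E v with hw
  have hwv : ∃ u : S, w = v + (p : ℤ) • u := by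
    obtain ⟨u, hu⟩ := d4_R_sub (p := p) ρ χ v hinv E
    have h1 : ((d4_A χ E : ℤ) : ZMod p) = ((1 : ℤ) : ZMod p) := by
      rw [← d4_A_red, hredE, hχ]; simp
    have h2 : (p : ℤ) ∣ d4_A χ E - 1 := by
      have h3 := (ZMod.intCast_eq_intCast_iff_dvd_sub _ _ _).mp h1.symm
      exact h3
    obtain ⟨k, hk⟩ := h2
    refine ⟨u + k • v, ?_⟩
    have h4 : d4_A χ E = 1 + (p : ℤ) * k := by linarith
    have h5 : w = d4_A χ E • v + (p : ℤ) • u := by rw [← hu]; abel
    rw [h5, h4, add_smul, one_smul, mul_smul, smul_add]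
    abel
  have hwp : ∀ u : S, w ≠ (p : ℤ) • u := by
    intro u hu
    obtain ⟨u', hu'⟩ := hwv
    refine hv (u - u') ?_
    rw [smul_sub, ← hu, hu']
    abel
  -- a coordinate
  obtain ⟨φ, hφ⟩ : ∃ φ : S →ₗ[ℤ] ℤ, ¬ (p : ℤ) ∣ φ w := by
    by_contra hcon
    push Not at hcon
    let b := Module.Free.chooseBasis ℤ S
    choose k hk using fun i => hcon (b.coord i)
    refine hwp (∑ i, k i • b i) ?_
    rw [Finset.smul_sum]
    conv_lhs => rw [← b.sum_repr w]
    refine Finset.sum_congr rfl fun i _ => ?_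
    rw [smul_smul, ← hk i]
    rfl
  obtain ⟨c, hc, hcy⟩ := averaging ρ hEnd w φ
  -- valuation of c
  have hcN : c ≠ 0 ∧ ¬ (p : ℤ) ^ (t + 1) ∣ c := by
    have h1 : ¬ (p : ℤ) ^ (t + 1) ∣ (N : ℤ) * φ w := by
      intro h
      rw [hNt] at h
      push_cast at h
      rw [pow_succ, mul_assoc] at h
      have h2 := Int.dvd_of_mul_dvd_mul_left (a := (p : ℤ) ^ t)
        (by have := hp.pos; positivity) h
      rcases Int.Prime.dvd_mul' hp h2 with h3 | h3
      · exact hN'p (by exact_mod_cast h3)
      · exact hφ h3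
    constructor
    · rintro rfl
      rw [zero_mul] at hc
      exact h1 (hc ▸ dvd_zero _)
    · intro h
      exact h1 (hc ▸ Dvd.dvd.mul_right h _)
  obtain ⟨hc0, hct⟩ := hcN
  obtain ⟨k, c', hc'p, hck⟩ : ∃ (k : ℕ) (c' : ℤ), ¬ (p : ℤ) ∣ c' ∧ c = (p : ℤ) ^ k * c' := by
    have hfin : FiniteMultiplicity (p : ℤ) c := by
      rw [Int.finiteMultiplicity_iff]
      refine ⟨?_, hc0⟩
      simpa using hp.ne_one
    obtain ⟨c', h1, h2⟩ := hfin.exists_eq_pow_mul_and_not_dvd
    exact ⟨_, c', h2, h1⟩
  have hkt : k ≤ t := by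
    by_contra hcon
    push Not at hcon
    refine hct ?_
    rw [hck]
    exact Dvd.dvd.mul_right (pow_dvd_pow _ hcon) _
  have hcop : IsCoprime c' ((p : ℤ) ^ (t + 1)) := by
    refine IsCoprime.pow_right ?_
    rw [Int.isCoprime_iff_gcd_eq_one, Int.gcd_comm]
    exact (Int.isCoprime_iff_gcd_eq_one.mp
      ((Int.prime_iff_natAbs_prime.mpr (by simpa using hp)).coprime_iff_not_dvd.mpr hc'p))
  obtain ⟨α, β, hαβ⟩ := hcop
  -- the set of images
  set L' : Finset S := L.image fun l => d4_R ρ l v with hL'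
  refine le_trans (rank_count hp (S := S) (t + 1) t (Nat.lt_succ_self t) L' ?_)
    Finset.card_image_le
  intro y
  obtain ⟨m, u, hmu⟩ := hL (∑ g : G, MonoidAlgebra.single g⁻¹ (φ (ρ g y)))
  have h1 : c • y = ∑ l ∈ L, m l • d4_R ρ l v + (p : ℤ) ^ (t + 1) • d4_R ρ u v := by
    rw [← hcy y]
    have h2 : d4_R ρ ((∑ g : G, MonoidAlgebra.single g⁻¹ (φ (ρ g y))) * E) v
        = ∑ g : G, φ (ρ g y) • ρ g⁻¹ w := by
      rw [map_mul, Module.End.mul_apply, map_sum, LinearMap.sum_apply]
      exact Finset.sum_congr rfl fun g _ => d4_R_single _ _ _ _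
    rw [← h2, hmu, map_add, map_sum, LinearMap.add_apply, LinearMap.sum_apply, map_smul,
      LinearMap.smul_apply]
    congr 1
    refine Finset.sum_congr rfl fun l _ => ?_
    rw [map_smul, LinearMap.smul_apply]
  refine ⟨fun s => ∑ l ∈ L.filter (fun l => d4_R ρ l v = s), (p : ℤ) ^ (t - k) * α * m l,
    (p : ℤ) ^ (t - k) • α • d4_R ρ u v + (p : ℤ) ^ t • β • y, ?_⟩
  have h3 : ∑ s ∈ L', (∑ l ∈ L.filter (fun l => d4_R ρ l v = s), (p : ℤ) ^ (t - k) * α * m l) • s
      = ∑ l ∈ L, ((p : ℤ) ^ (t - k) * α * m l) • d4_R ρ l v := by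
    rw [hL', ← Finset.sum_fiberwise_of_maps_to (s := L) (t := L.image fun l => d4_R ρ l v)
      (g := fun l => d4_R ρ l v) (fun l hl => Finset.mem_image_of_mem _ hl)]
    refine Finset.sum_congr rfl fun s _ => ?_
    rw [Finset.sum_smul]
    refine Finset.sum_congr rfl fun l hl => ?_
    rw [(Finset.mem_filter.mp hl).2]
  rw [h3]
  have h4 : ∑ l ∈ L, ((p : ℤ) ^ (t - k) * α * m l) • d4_R ρ l v
      = ((p : ℤ) ^ (t - k) * α) • (c • y - (p : ℤ) ^ (t + 1) • d4_R ρ u v) := by
    rw [h1, add_sub_cancel_right, Finset.smul_sum]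
    refine Finset.sum_congr rfl fun l _ => ?_
    rw [mul_smul ((p : ℤ) ^ (t - k) * α)]
  rw [h4, smul_add, smul_sub, smul_smul _ c y]
  have h5 : (p : ℤ) ^ t • y = ((p : ℤ) ^ (t - k) * α * c) • y
      + (p : ℤ) ^ (t + 1) • (p : ℤ) ^ t • β • y := by
    rw [smul_smul, smul_smul, ← add_smul]
    congr 1
    have h6 : (p : ℤ) ^ (t - k) * (p : ℤ) ^ k = (p : ℤ) ^ t := by
      rw [← pow_add]; congr 1; omega
    calc (p : ℤ) ^ t = (p : ℤ) ^ t * (α * c' + β * (p : ℤ) ^ (t + 1)) := by rw [hαβ, mul_one]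
      _ = ((p : ℤ) ^ (t - k) * (p : ℤ) ^ k) * α * c' + (p : ℤ) ^ t * (β * (p : ℤ) ^ (t + 1)) := by
          rw [h6]; ring
      _ = (p : ℤ) ^ (t - k) * α * c + (p : ℤ) ^ (t + 1) * (p : ℤ) ^ t * β := by
          rw [hck]; ring
  rw [h5]
  have h7 : ((p : ℤ) ^ (t - k) * α) • (p : ℤ) ^ (t + 1) • d4_R ρ u v
      = (p : ℤ) ^ (t + 1) • (p : ℤ) ^ (t - k) • α • d4_R ρ u v := by
    simp only [smul_smul]
    congr 1
    ring
  rw [h7]
  abel

end Pool.PI34.C0

end

/-! ### part C0_A4 -/
section

set_option autoImplicit false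

namespace Pool.PI34.C0

open Equiv Finset

theorem a4_lex {α : Type*} {r : α → α → Prop} {l₁ l₂ : List α} (h : List.Lex r l₁ l₂) :
    l₁.length = l₂.length → ∃ (i : ℕ) (a b : α), l₁[i]? = some a ∧ l₂[i]? = some b ∧ r a b ∧
      ∀ j < i, l₁[j]? = l₂[j]? := by
  induction h with
  | nil => intro h; simp at h
  | rel h => intro _; exact ⟨0, _, _, rfl, rfl, h, fun j hj => absurd hj (Nat.not_lt_zero j)⟩
  | cons h ih =>
    intro hl
    obtain ⟨i, a, b, h1, h2, h3, h4⟩ := ih (by simpa using hl)
    refine ⟨i + 1, a, b, by simpa using h1, by simpa using h2, h3, fun j hj => ?_⟩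
    cases j with
    | zero => rfl
    | succ j => simpa using h4 j (by omega)

theorem a4_lexLT {n : ℕ} (τ σ : Fin n → Fin n)
    (h : List.Lex (· < ·) (List.ofFn τ) (List.ofFn σ)) : LexLT τ σ := by
  obtain ⟨i, a, b, h1, h2, h3, h4⟩ := a4_lex h (by simp)
  have hi : i < n := by
    by_contra hc
    rw [List.getElem?_eq_none (by simpa using Nat.not_lt.1 hc)] at h1
    exact absurd h1 (by simp)
  have e : ∀ (f : Fin n → Fin n) (j : ℕ) (hj : j < n), (List.ofFn f)[j]? = some (f ⟨j, hj⟩) := by
    intro f j hj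
    rw [List.getElem?_ofFn]
    simp [hj]
  refine ⟨⟨i, hi⟩, fun j hj => ?_, ?_⟩
  · have := h4 j.1 (Fin.lt_def.1 hj)
    rw [e τ j.1 j.2, e σ j.1 j.2] at this
    simpa using this
  · rw [e τ i hi] at h1
    rw [e σ i hi] at h2
    cases h1
    cases h2
    exact h3

theorem a4_perm {n : ℕ} (σ : Perm (Fin n)) (L : List (Fin n)) (hL : L.Perm (List.ofFn σ)) :
    ∃ τ : Perm (Fin n), List.ofFn τ = L := by
  have hlen : L.length = n := by rw [hL.length_eq, List.length_ofFn]
  have hnd : L.Nodup := hL.nodup_iff.2 (List.nodup_ofFn.2 σ.injective)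
  let g : Fin n → Fin n := fun i => L.get (Fin.cast hlen.symm i)
  have hg : Function.Injective g := by
    intro i j hij
    have := (List.nodup_iff_injective_get.1 hnd) hij
    exact Fin.cast_injective _ this
  refine ⟨Equiv.ofBijective g (Finite.injective_iff_bijective.1 hg), ?_⟩
  apply List.ext_get
  · simp [hlen]
  · intro i h1 h2
    simp [g]

theorem a4_prod_mem {U : Type*} [Ring U] (R : NonUnitalSubring U) {ι : Type*} (x : ι → U)
    (hx : ∀ i, x i ∈ R) : ∀ (t : List ι) (a : ι), ((a :: t).map x).prod ∈ R := by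
  intro t
  induction t with
  | nil => intro a; simpa using hx a
  | cons b t ih =>
    intro a
    rw [List.map_cons, List.prod_cons]
    exact R.mul_mem (hx a) (ih b)

/-- row A4: a bad monomial is a combination of lexicographically smaller ones -/
theorem straighten {U : Type*} [Ring U] (R : NonUnitalSubring U) {d : ℕ}
    (a : Perm (Fin (d + 1)) → ℤ) (ha : a 1 = 1)
    (hPI : ∀ x : Fin (d + 1) → U, (∀ i, x i ∈ R) → ∑ σ, a σ • mono x σ = 0)
    {n : ℕ} (σ : Perm (Fin n)) (hσ : ¬ Good (d + 1) σ) :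
    ∃ c : Perm (Fin n) → ℤ, (∀ τ, c τ ≠ 0 → LexLT τ σ) ∧
      ∀ x : Fin n → U, (∀ i, x i ∈ R) → mono x σ = ∑ τ, c τ • mono x τ := by
  classical
  unfold Good at hσ
  rw [not_not] at hσ
  obtain ⟨f, hf, hfσ⟩ := hσ
  -- the blocks
  have hsub : (List.ofFn fun i => σ (f i)).Sublist (List.ofFn σ) := by
    rw [List.sublist_iff_exists_fin_orderEmbedding_get_eq]
    refine ⟨OrderEmbedding.ofStrictMono
      (fun i => Fin.cast (List.length_ofFn).symm (f (Fin.cast List.length_ofFn i))) ?_, ?_⟩
    · intro i j hij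
      exact hf hij
    · intro i
      simp only [List.get_eq_getElem, List.getElem_ofFn]
      rfl
  obtain ⟨w, y, hd, hl, hy, hhd⟩ := exists_blocks (List.ofFn σ) d
    ⟨_, hsub, by simp, List.sortedGT_ofFn_iff.2 hfσ⟩
  -- the rearranged words
  let L : Perm (Fin (d + 1)) → List (Fin n) := fun π => w ++ (List.ofFn fun j => y (π j)).flatten
  have hLperm : ∀ π, (L π).Perm (List.ofFn σ) := by
    intro π
    rw [hl]
    exact List.Perm.append_left w (List.Perm.flatten (Equiv.Perm.ofFn_comp_perm π y))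
  choose τ hτ using fun π => a4_perm σ (L π) (hLperm π)
  have hlex : ∀ π, π ≠ 1 → LexLT (τ π) σ := by
    intro π hπ
    apply a4_lexLT
    rw [hτ π, hl]
    exact blocks_lex y hd hy hhd w π hπ
  have hprod : ∀ (x : Fin n → U) (π : Perm (Fin (d + 1))),
      (w.map x).prod * mono (fun j => ((y j).map x).prod) π = mono x (τ π) := by
    intro x π
    have e1 : mono x (τ π) = ((L π).map x).prod := by
      rw [← hτ π, List.map_ofFn]
      rfl
    rw [e1]
    simp only [L, List.map_append, List.prod_append, List.map_flatten, List.prod_flatten, mono,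
      List.map_ofFn]
    rfl
  have hprod1 : ∀ x : Fin n → U,
      (w.map x).prod * mono (fun j => ((y j).map x).prod) 1 = mono x σ := by
    intro x
    rw [hprod x 1]
    have : List.ofFn (τ 1) = List.ofFn σ := by
      rw [hτ 1, hl]
      rfl
    have h2 : (τ 1 : Fin n → Fin n) = σ := List.ofFn_injective this
    unfold mono
    simp only [h2]
  refine ⟨fun ρ => - ∑ π ∈ univ.erase (1 : Perm (Fin (d + 1))), if τ π = ρ then a π else 0,
    ?_, ?_⟩
  · intro ρ hρ
    have h1 : ∑ π ∈ univ.erase (1 : Perm (Fin (d + 1))), (if τ π = ρ then a π else 0) ≠ 0 :=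
      fun h => hρ (by simp only; rw [h, neg_zero])
    obtain ⟨π, hπ, hne⟩ := Finset.exists_ne_zero_of_sum_ne_zero h1
    have h2 : τ π = ρ := by
      by_contra hc
      exact hne (if_neg hc)
    rw [← h2]
    exact hlex π (Finset.ne_of_mem_erase hπ)
  · intro x hx
    have hz : ∀ j, ((y j).map x).prod ∈ R := by
      intro j
      obtain ⟨t, ht⟩ := hy j
      rw [ht]
      exact a4_prod_mem R x hx t (hd j)
    have key := hPI (fun j => ((y j).map x).prod) hz
    have key2 : ∑ π, a π • mono x (τ π) = 0 := by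
      have h3 := congrArg (fun u => (w.map x).prod * u) key
      simp only [mul_zero, Finset.mul_sum, mul_smul_comm] at h3
      rw [← h3]
      exact Finset.sum_congr rfl fun π _ => by rw [hprod x π]
    rw [← Finset.add_sum_erase _ _ (Finset.mem_univ (1 : Perm (Fin (d + 1)))), ha, one_smul] at key2
    have h4 : mono x (τ 1) = mono x σ := by rw [← hprod x 1, hprod1 x]
    rw [h4] at key2
    have h5 : mono x σ = - ∑ π ∈ univ.erase (1 : Perm (Fin (d + 1))), a π • mono x (τ π) :=
      eq_neg_of_add_eq_zero_left key2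
    rw [h5]
    simp only [neg_smul, Finset.sum_neg_distrib, neg_inj, Finset.sum_smul]
    rw [Finset.sum_comm]
    refine Finset.sum_congr rfl fun π _ => ?_
    simp only [ite_smul, zero_smul]
    rw [Finset.sum_ite_eq]
    simp

end Pool.PI34.C0

end

/-! ### part C0_E5 -/
section

set_option autoImplicit false

namespace Pool.PI34.C0

open Equiv Finset

variable {n r b : ℕ}

theorem e5_lex (τ σ : Fin n → Fin r) : toLex τ < toLex σ ↔ LexLT τ σ := Iff.rfl

theorem e5_exists (A : Finset (Lex (Fin n → Fin r)))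
    (hA : ∀ s ∈ A, Bal b (ofLex s) ∧ Ballot (ofLex s)) :
    ∃ f : (Fin n → Fin r) → ℤ,
      f ∈ Submodule.span ℤ (Set.range (eb (n := n) (r := r) (b := b))) ∧
      ∀ s ∈ A, f (ofLex s) = 1 := by
  classical
  induction A using Finset.induction_on_max with
  | empty => exact ⟨0, Submodule.zero_mem _, by simp⟩
  | insert m A hm ih =>
    obtain ⟨f, hf, hf1⟩ := ih (fun s hs => hA s (mem_insert_of_mem hs))
    obtain ⟨hbal, hbl⟩ := hA m (mem_insert_self _ _)
    obtain ⟨β, hβ1, hβ2⟩ := exists_beta (ofLex m) hbal hbl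
    refine ⟨f + (1 - f (ofLex m)) • eb β, ?_, ?_⟩
    · exact Submodule.add_mem _ hf (Submodule.smul_mem _ _ (Submodule.subset_span ⟨β, rfl⟩))
    · intro s hs
      rw [mem_insert] at hs
      rcases hs with rfl | hs
      · simp [hβ1]
      · have hlt : s < m := hm s hs
        have h0 : eb β (ofLex s) = 0 := by
          by_contra hne
          rcases hβ2 _ hne with h | h
          · have : s = m := by
              have := congrArg toLex h
              simpa using this
            exact absurd hlt (by rw [this]; exact lt_irrefl _)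
          · have h' : m < s := h
            exact absurd hlt (not_lt_of_gt h')
        simp [h0, hf1 s hs]

theorem e5_rel (f : (Fin n → Fin r) → ℤ)
    (hf : f ∈ Submodule.span ℤ (Set.range (eb (n := n) (r := r) (b := b))))
    (i i' : Fin r) (E : Finset (Fin n)) (hE : b < E.card) (a : ℕ) (w : Fin n → Fin r) :
    ∑ Z ∈ E.powersetCard a, f (fun x => if x ∈ Z then i' else if x ∈ E then i else w x) = 0 := by
  induction hf using Submodule.span_induction with
  | mem x hx =>
    obtain ⟨β, rfl⟩ := hx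
    exact eb_rel β i i' E hE a w
  | zero => simp
  | add x y _ _ hx hy =>
    simp only [Pi.add_apply, Finset.sum_add_distrib, hx, hy, add_zero]
  | smul c x _ hx =>
    simp only [Pi.smul_apply, smul_eq_mul, ← Finset.mul_sum, hx, mul_zero]

/-- row E5: the invariant vector modulo `p` -/
theorem exists_invariant (p j : ℕ) (hp : p.Prime) (hb : b + 1 = p ^ j) :
    ∃ f : (Fin n → Fin r) → ℤ,
      f ∈ Submodule.span ℤ (Set.range (eb (n := n) (r := r) (b := b))) ∧
      ∀ w, Bal b w → (p : ℤ) ∣ f w - 1 := by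
  classical
  obtain ⟨f, hf, hf1⟩ := e5_exists (n := n) (r := r) (b := b)
    (univ.filter fun s => Bal b (ofLex s) ∧ Ballot (ofLex s)) (by
      intro s hs
      exact (mem_filter.1 hs).2)
  refine ⟨f, hf, ?_⟩
  have main : ∀ s : Lex (Fin n → Fin r), Bal b (ofLex s) → (p : ℤ) ∣ f (ofLex s) - 1 := by
    intro s
    induction s using WellFoundedLT.induction with
    | ind s ih =>
      intro hbal
      by_cases hbl : Ballot (ofLex s)
      · have h1 : f (ofLex s) = 1 := hf1 s (by simp [hbal, hbl])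
        simp [h1]
      · obtain ⟨i, i', E, Z₀, hEc, hZE, hZ0, hZ1, hw, hall⟩ := not_ballot (ofLex s) hbal hbl
        have hrel := e5_rel f hf i i' E (by omega) Z₀.card (ofLex s)
        have hmem : Z₀ ∈ E.powersetCard Z₀.card := mem_powersetCard.2 ⟨hZE, rfl⟩
        rw [← Finset.add_sum_erase _ _ hmem, hw] at hrel
        have hrest : (p : ℤ) ∣ ∑ Z ∈ (E.powersetCard Z₀.card).erase Z₀,
            (f (fun x => if x ∈ Z then i' else if x ∈ E then i else ofLex s x) - 1) := by
          refine Finset.dvd_sum fun Z hZ => ?_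
          rw [mem_erase] at hZ
          obtain ⟨h1, h2⟩ := hall Z hZ.2 hZ.1
          exact ih (toLex (fun x => if x ∈ Z then i' else if x ∈ E then i else ofLex s x)) h2 h1
        rw [Finset.sum_sub_distrib] at hrest
        have hcard : ((E.powersetCard Z₀.card).erase Z₀).card = (p ^ j).choose Z₀.card - 1 := by
          rw [card_erase_of_mem hmem, card_powersetCard, hEc, hb]
        have hch : p ∣ (p ^ j).choose Z₀.card :=
          hp.dvd_choose_pow (by omega) (by omega)
        have hpos : 0 < (p ^ j).choose Z₀.card := Nat.choose_pos (by omega)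
        rw [Finset.sum_const, hcard, nsmul_eq_mul, mul_one, Nat.cast_sub hpos] at hrest
        have hch' : (p : ℤ) ∣ (((p ^ j).choose Z₀.card : ℕ) : ℤ) := by exact_mod_cast hch
        have := dvd_sub (dvd_neg.2 hrest) hch'
        have e : f (ofLex s) - 1 =
          -(∑ Z ∈ (E.powersetCard Z₀.card).erase Z₀,
            f (fun x => if x ∈ Z then i' else if x ∈ E then i else ofLex s x) -
              ((((p ^ j).choose Z₀.card : ℕ) : ℤ) - (1 : ℕ))) -
            (((p ^ j).choose Z₀.card : ℕ) : ℤ) := by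
          push_cast
          linarith [hrel]
        rw [e]
        exact this
  intro w hw
  exact main (toLex w) hw

end Pool.PI34.C0

end

/-! ### part C0_A5 -/
section

set_option autoImplicit false

namespace Pool.PI34.C0

open Equiv Finset

theorem a5_wf (n : ℕ) : WellFounded (fun τ σ : Perm (Fin n) => LexLT (⇑τ) (⇑σ)) := by
  have h1 : ∀ a : Perm (Fin n), ¬ LexLT (⇑a) (⇑a) := by
    rintro a ⟨i, _, h⟩
    exact lt_irrefl _ h
  have h2 : ∀ a b c : Perm (Fin n), LexLT (⇑a) (⇑b) → LexLT (⇑b) (⇑c) → LexLT (⇑a) (⇑c) := by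
    rintro a b c ⟨i, hi, hi'⟩ ⟨j, hj, hj'⟩
    rcases lt_trichotomy i j with h | h | h
    · exact ⟨i, fun k hk => (hi k hk).trans (hj k (hk.trans h)), by rw [← hj i h]; exact hi'⟩
    · subst h
      exact ⟨i, fun k hk => (hi k hk).trans (hj k hk), hi'.trans hj'⟩
    · exact ⟨j, fun k hk => (hi k (hk.trans h)).trans (hj k hk), by rw [hi j h]; exact hj'⟩
  have : Std.Irrefl (fun τ σ : Perm (Fin n) => LexLT (⇑τ) (⇑σ)) := ⟨h1⟩
  have : IsTrans (Perm (Fin n)) (fun τ σ : Perm (Fin n) => LexLT (⇑τ) (⇑σ)) := ⟨h2⟩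
  exact Finite.wellFounded_of_trans_of_irrefl _

theorem a5_one {U : Type*} [Ring U] (R : NonUnitalSubring U) {d : ℕ}
    (a : Perm (Fin (d + 1)) → ℤ) (ha : a 1 = 1)
    (hPI : ∀ x : Fin (d + 1) → U, (∀ i, x i ∈ R) → ∑ σ, a σ • mono x σ = 0)
    {n : ℕ} (σ : Perm (Fin n)) :
    ∃ c' : Perm (Fin n) → ℤ, (∀ τ, c' τ ≠ 0 → Good (d + 1) τ) ∧
      ∀ x : Fin n → U, (∀ i, x i ∈ R) → mono x σ = ∑ τ, c' τ • mono x τ := by
  classical
  induction σ using (a5_wf n).induction with
  | _ σ ih =>
    by_cases hσ : Good (d + 1) σ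
    · refine ⟨fun τ => if τ = σ then 1 else 0, ?_, ?_⟩
      · intro τ hτ
        by_cases h : τ = σ
        · rw [h]; exact hσ
        · simp [h] at hτ
      · intro x _
        simp
    · obtain ⟨c, hc, hcx⟩ := straighten R a ha hPI σ hσ
      have h1 : ∀ τ : Perm (Fin n), ∃ c' : Perm (Fin n) → ℤ,
          (∀ ρ, c' ρ ≠ 0 → Good (d + 1) ρ) ∧ (c τ ≠ 0 →
            ∀ x : Fin n → U, (∀ i, x i ∈ R) → mono x τ = ∑ ρ, c' ρ • mono x ρ) := by
        intro τ
        by_cases h : c τ = 0
        · exact ⟨0, fun ρ hρ => absurd rfl hρ, fun h' => absurd h h'⟩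
        · obtain ⟨c', h2, h3⟩ := ih τ (hc τ h)
          exact ⟨c', h2, fun _ => h3⟩
      choose c' h2 h3 using h1
      refine ⟨fun ρ => ∑ τ, c τ * c' τ ρ, ?_, ?_⟩
      · intro ρ hρ
        obtain ⟨τ, _, hτ⟩ := Finset.exists_ne_zero_of_sum_ne_zero hρ
        exact h2 τ ρ (right_ne_zero_of_mul hτ)
      · intro x hx
        rw [hcx x hx]
        have h4 : ∀ τ ∈ (univ : Finset (Perm (Fin n))),
            c τ • mono x τ = ∑ ρ, (c τ * c' τ ρ) • mono x ρ := by
          intro τ _
          by_cases h : c τ = 0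
          · simp [h]
          · rw [h3 τ h x hx, Finset.smul_sum]
            exact Finset.sum_congr rfl fun ρ _ => by rw [mul_smul]
        rw [Finset.sum_congr rfl h4, Finset.sum_comm]
        exact Finset.sum_congr rfl fun ρ _ => by rw [Finset.sum_smul]

/-- row A5 -/
theorem reduce_good {U : Type*} [Ring U] (R : NonUnitalSubring U) {d : ℕ}
    (a : Perm (Fin (d + 1)) → ℤ) (ha : a 1 = 1)
    (hPI : ∀ x : Fin (d + 1) → U, (∀ i, x i ∈ R) → ∑ σ, a σ • mono x σ = 0)
    {n : ℕ} (c : Perm (Fin n) → ℤ) :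
    ∃ c' : Perm (Fin n) → ℤ, (∀ τ, c' τ ≠ 0 → Good (d + 1) τ) ∧
      ∀ x : Fin n → U, (∀ i, x i ∈ R) → ∑ τ, c τ • mono x τ = ∑ τ, c' τ • mono x τ := by
  choose c' h2 h3 using fun τ : Perm (Fin n) => a5_one R a ha hPI τ
  refine ⟨fun ρ => ∑ τ, c τ * c' τ ρ, ?_, ?_⟩
  · intro ρ hρ
    obtain ⟨τ, _, hτ⟩ := Finset.exists_ne_zero_of_sum_ne_zero hρ
    exact h2 τ ρ (right_ne_zero_of_mul hτ)
  · intro x hx
    have h4 : ∀ τ ∈ (univ : Finset (Perm (Fin n))),
        c τ • mono x τ = ∑ ρ, (c τ * c' τ ρ) • mono x ρ := by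
      intro τ _
      rw [h3 τ x hx, Finset.smul_sum]
      exact Finset.sum_congr rfl fun ρ _ => by rw [mul_smul]
    rw [Finset.sum_congr rfl h4, Finset.sum_comm]
    exact Finset.sum_congr rfl fun ρ _ => by rw [Finset.sum_smul]

end Pool.PI34.C0

end

/-! ### part C0_E9 -/
section

set_option autoImplicit false

namespace Pool.PI34.C0

open Equiv Finset

theorem e9_act_mul {n r : ℕ} (σ τ : Perm (Fin n)) (f : (Fin n → Fin r) → ℤ) :
    act (σ * τ) f = act σ (act τ f) := rfl

theorem e9_act_one {n r : ℕ} (f : (Fin n → Fin r) → ℤ) :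
    act (1 : Perm (Fin n)) f = f := rfl

theorem e9_act_span {n r b : ℕ} (σ : Perm (Fin n)) (f : (Fin n → Fin r) → ℤ)
    (hf : f ∈ Submodule.span ℤ (Set.range (eb (n := n) (r := r) (b := b)))) :
    act σ f ∈ Submodule.span ℤ (Set.range (eb (n := n) (r := r) (b := b))) := by
  induction hf using Submodule.span_induction with
  | mem x hx =>
    obtain ⟨β, rfl⟩ := hx
    rw [eb_act]
    exact Submodule.subset_span ⟨_, rfl⟩
  | zero => rw [map_zero]; exact Submodule.zero_mem _
  | add x y _ _ hx hy => rw [map_add]; exact Submodule.add_mem _ hx hy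
  | smul c x _ hx => rw [map_smul]; exact Submodule.smul_mem _ _ hx

theorem e9_act_lat {n r b : ℕ} (σ : Perm (Fin n)) (f : (Fin n → Fin r) → ℤ)
    (hf : f ∈ latS n r b) : act σ f ∈ latS n r b := by
  obtain ⟨N, hN, h⟩ := hf
  refine ⟨N, hN, ?_⟩
  rw [← map_smul]
  exact e9_act_span σ _ h

theorem e9_pure {n r b : ℕ} (N : ℤ) (hN : N ≠ 0) (f : (Fin n → Fin r) → ℤ)
    (hf : N • f ∈ latS n r b) : f ∈ latS n r b := by
  obtain ⟨M, hM, h⟩ := hf
  refine ⟨M * N, mul_ne_zero hM hN, ?_⟩
  rw [mul_smul]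
  exact h

theorem e9_zero {n r b : ℕ} (f : (Fin n → Fin r) → ℤ)
    (hf : f ∈ Submodule.span ℤ (Set.range (eb (n := n) (r := r) (b := b))))
    (w : Fin n → Fin r) (hw : ¬ Bal b w) : f w = 0 := by
  induction hf using Submodule.span_induction with
  | mem x hx =>
    obtain ⟨β, rfl⟩ := hx
    by_contra h
    exact hw (eb_bal β w h)
  | zero => rfl
  | add x y _ _ hx hy => rw [Pi.add_apply, hx, hy, add_zero]
  | smul c x _ hx => rw [Pi.smul_apply, hx, smul_zero]

theorem e9_bal_comp {n r b : ℕ} (σ : Perm (Fin n)) (w : Fin n → Fin r) (h : Bal b w) :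
    Bal b (w ∘ σ) := by
  intro j
  rw [← h j]
  unfold cnt
  refine Finset.card_bij (fun x _ => σ x) ?_ ?_ ?_
  · intro x hx
    rw [Finset.mem_filter] at hx ⊢
    exact ⟨Finset.mem_univ _, (σ x).isLt, hx.2.2⟩
  · intro x _ y _ hxy
    exact σ.injective hxy
  · intro y hy
    rw [Finset.mem_filter] at hy
    refine ⟨σ.symm y, ?_, σ.apply_symm_apply y⟩
    rw [Finset.mem_filter]
    refine ⟨Finset.mem_univ _, (σ.symm y).isLt, ?_⟩
    show w (σ (σ.symm y)) = j
    rw [σ.apply_symm_apply]
    exact hy.2.2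

theorem e9_bal_comp_iff {n r b : ℕ} (σ : Perm (Fin n)) (w : Fin n → Fin r) :
    Bal b (w ∘ σ) ↔ Bal b w := by
  constructor
  · intro h
    have h2 := e9_bal_comp σ.symm (w ∘ σ) h
    have e : (w ∘ σ) ∘ σ.symm = w := by
      funext x
      show w (σ (σ.symm x)) = w x
      rw [σ.apply_symm_apply]
    rw [e] at h2
    exact h2
  · exact e9_bal_comp σ w

theorem e9_exists_bal (r b : ℕ) : ∃ w : Fin (r * b) → Fin r, Bal b w := by
  obtain ⟨β, hβ⟩ : ∃ β : Fin (r * b) ≃ Fin r × Fin b, β = finProdFinEquiv.symm := ⟨_, rfl⟩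
  refine ⟨fun x => (β x).1, eb_bal β _ ?_⟩
  unfold eb
  rw [Finset.prod_eq_one]
  · exact one_ne_zero
  · intro c _
    have e : (Matrix.of fun i j : Fin r => if (β (β.symm (i, c))).1 = j then (1 : ℤ) else 0) =
        (1 : Matrix (Fin r) (Fin r) ℤ) := by
      ext i j
      rw [Matrix.of_apply, β.apply_symm_apply, Matrix.one_apply]
    rw [e, Matrix.det_one]

/-- the representation on the lattice, twisted by a sign character -/
noncomputable def e9_rho {n r b : ℕ} (χ : Perm (Fin n) →* ℤˣ) (g : Perm (Fin n)) :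
    latS n r b →ₗ[ℤ] latS n r b where
  toFun f := ((χ g : ℤˣ) : ℤ) • ⟨act g f.1, e9_act_lat g f.1 f.2⟩
  map_add' x y := by
    apply Subtype.ext
    show ((χ g : ℤˣ) : ℤ) • act g (x.1 + y.1) =
      ((χ g : ℤˣ) : ℤ) • act g x.1 + ((χ g : ℤˣ) : ℤ) • act g y.1
    rw [map_add, smul_add]
  map_smul' c x := by
    apply Subtype.ext
    show ((χ g : ℤˣ) : ℤ) • act g (c • x.1) = c • (((χ g : ℤˣ) : ℤ) • act g x.1)
    rw [map_smul, smul_comm]

theorem e9_rho_val {n r b : ℕ} (χ : Perm (Fin n) →* ℤˣ) (g : Perm (Fin n)) (f : latS n r b) :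
    (e9_rho χ g f).1 = ((χ g : ℤˣ) : ℤ) • act g f.1 := rfl

theorem e9_sq (u : ℤˣ) : (u : ℤ) * (u : ℤ) = 1 := by
  rcases Int.units_eq_one_or u with h | h
  · rw [h]; norm_num
  · rw [h]; norm_num

/-- row E9: assembly of E -/
theorem exists_lattice (p C : ℕ) [Fact p.Prime] : ∃ n : ℕ, 1 ≤ n ∧ ∀ χ : Perm (Fin n) →* ℤˣ,
    ∃ (S : Type) (_ : AddCommGroup S) (_ : Module.Free ℤ S) (_ : Module.Finite ℤ S)
      (ρ : Perm (Fin n) →* (S →ₗ[ℤ] S)) (v : S),
      C ^ n < Module.finrank ℤ S ∧
      (∀ T : S →ₗ[ℤ] S, (∀ g, T ∘ₗ ρ g = ρ g ∘ₗ T) → ∃ c : ℤ, ∀ s, T s = c • s) ∧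
      (∀ u : S, v ≠ (p : ℤ) • u) ∧
      ∀ g, ∃ u : S, ρ g v - ((χ g : ℤˣ) : ℤ) • v = (p : ℤ) • u := by
  have hp : p.Prime := Fact.out
  have hp0 : (p : ℤ) ≠ 0 := by exact_mod_cast hp.ne_zero
  obtain ⟨r, j, b, hr, hb1, hbj, hrb, hC⟩ := exists_numbers p C hp
  refine ⟨r * b, Nat.mul_pos hr hb1, ?_⟩
  intro χ
  obtain ⟨f, hf, hfw⟩ := exists_invariant (n := r * b) (r := r) p j hp hbj
  have hfl : f ∈ latS (r * b) r b := ⟨1, one_ne_zero, by rw [one_smul]; exact hf⟩
  obtain ⟨ρ, hρ⟩ : ∃ ρ : Perm (Fin (r * b)) →* (latS (r * b) r b →ₗ[ℤ] latS (r * b) r b),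
      ∀ g, ρ g = e9_rho χ g := by
    refine ⟨{ toFun := fun g => e9_rho χ g, map_one' := ?_, map_mul' := ?_ }, fun g => rfl⟩
    · apply LinearMap.ext
      intro x
      apply Subtype.ext
      rw [e9_rho_val, map_one, Units.val_one, one_smul, e9_act_one]
      rfl
    · intro g h
      apply LinearMap.ext
      intro x
      apply Subtype.ext
      show (e9_rho χ (g * h) x).1 = (e9_rho χ g (e9_rho χ h x)).1
      rw [e9_rho_val, e9_rho_val, e9_rho_val, e9_act_mul, map_smul, map_mul, Units.val_mul,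
        mul_smul]
  refine ⟨latS (r * b) r b, inferInstance, inferInstance, inferInstance, ρ, ⟨f, hfl⟩,
    ?_, ?_, ?_, ?_⟩
  · exact lt_of_lt_of_le hC (rank_latS rfl hrb)
  · intro T hT
    refine end_scalar T ?_
    intro σ x y hxy
    have h1 := LinearMap.congr_fun (hT σ) x
    rw [LinearMap.comp_apply, LinearMap.comp_apply, hρ] at h1
    have e : e9_rho χ σ x = ((χ σ : ℤˣ) : ℤ) • y := by
      apply Subtype.ext
      show ((χ σ : ℤˣ) : ℤ) • act σ x.1 = ((χ σ : ℤˣ) : ℤ) • y.1
      rw [hxy]
    rw [e, map_smul] at h1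
    have h2 := congrArg Subtype.val h1
    rw [e9_rho_val] at h2
    have h3 : ((χ σ : ℤˣ) : ℤ) • (T y).1 = ((χ σ : ℤˣ) : ℤ) • act σ (T x).1 := h2
    have h4 := congrArg (fun z => ((χ σ : ℤˣ) : ℤ) • z) h3
    simp only [← mul_smul, e9_sq, one_smul] at h4
    exact h4
  · intro u hu
    obtain ⟨w, hw⟩ := e9_exists_bal r b
    have h1 := hfw w hw
    have h2 : f = (p : ℤ) • u.1 := congrArg Subtype.val hu
    have h3 : (p : ℤ) ∣ f w := by
      rw [h2, Pi.smul_apply, smul_eq_mul]
      exact dvd_mul_right _ _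
    have h4 : (p : ℤ) ∣ 1 := by
      have := dvd_sub h3 h1
      have e : f w - (f w - 1) = 1 := by ring
      rw [e] at this
      exact this
    have h5 : p ∣ 1 := by exact_mod_cast h4
    exact hp.one_lt.ne' (Nat.dvd_one.1 h5)
  · intro g
    have hdiv : ∀ w, (p : ℤ) ∣ (act g f - f) w := by
      intro w
      have e : (act g f - f) w = f (w ∘ g) - f w := rfl
      rw [e]
      by_cases hw : Bal b w
      · have h1 := hfw w hw
        have h2 := hfw (w ∘ g) (e9_bal_comp g w hw)
        have h3 := dvd_sub h2 h1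
        have e2 : f (w ∘ g) - 1 - (f w - 1) = f (w ∘ g) - f w := by ring
        rw [e2] at h3
        exact h3
      · have hw2 : ¬ Bal b (w ∘ g) := fun h => hw ((e9_bal_comp_iff g w).1 h)
        rw [e9_zero f hf w hw, e9_zero f hf _ hw2, sub_zero]
        exact dvd_zero _
    choose k hk using hdiv
    have hkf : (p : ℤ) • k = act g f - f := by
      funext w
      rw [Pi.smul_apply, smul_eq_mul]
      exact (hk w).symm
    have hkl : k ∈ latS (r * b) r b := by
      apply e9_pure (p : ℤ) hp0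
      rw [hkf]
      exact Submodule.sub_mem _ (e9_act_lat g f hfl) hfl
    refine ⟨((χ g : ℤˣ) : ℤ) • ⟨k, hkl⟩, ?_⟩
    rw [hρ]
    apply Subtype.ext
    show ((χ g : ℤˣ) : ℤ) • act g f - ((χ g : ℤˣ) : ℤ) • f = (p : ℤ) • (((χ g : ℤˣ) : ℤ) • k)
    rw [← smul_sub, ← hkf, smul_comm]

end Pool.PI34.C0

end

/-! ### part C0_B2 -/
section

set_option autoImplicit false

namespace Pool.PI34.C0

open Equiv Finset

theorem b2_mul_prod {U : Type} [Ring U] (R : NonUnitalSubring U) (l : List U) :
    (∀ u ∈ l, u ∈ R) → ∀ r ∈ R, r * l.prod ∈ R := by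
  induction l with
  | nil => intro _ r hr; simpa using hr
  | cons a l ih =>
    intro h r hr
    rw [List.prod_cons, ← mul_assoc]
    exact ih (fun u hu => h u (List.mem_cons_of_mem _ hu)) _ (R.mul_mem hr (h a List.mem_cons_self))

theorem b2_capMono_mem {U : Type} [Ring U] (R : NonUnitalSubring U) {n : ℕ} (v : Fin (n + 1) → U)
    (x : Fin n → U) (hv : ∀ i, v i ∈ R) (hx : ∀ i, x i ∈ R) (σ : Perm (Fin n)) :
    capMono v x σ ∈ R := by
  unfold capMono
  refine b2_mul_prod R _ ?_ _ (hv 0)
  intro u hu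
  obtain ⟨i, rfl⟩ := List.mem_ofFn.1 hu
  exact R.mul_mem (hx _) (hv _)

theorem b2_mono_mem {U : Type} [Ring U] (R : NonUnitalSubring U) {n : ℕ} (z : Fin (n + 1) → U)
    (hz : ∀ i, z i ∈ R) (σ : Perm (Fin (n + 1))) : mono z σ ∈ R := by
  unfold mono
  rw [List.ofFn_succ, List.prod_cons]
  refine b2_mul_prod R _ ?_ _ (hz _)
  intro u hu
  obtain ⟨i, rfl⟩ := List.mem_ofFn.1 hu
  exact hz _

theorem b2_push {n N : ℕ} (ι : Perm (Fin n) → Perm (Fin N)) (c : Perm (Fin n) → ℤ) :
    ∃ c1 : Perm (Fin N) → ℤ, ∀ {U : Type} [Ring U] (z : Fin N → U),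
      ∑ τ, c1 τ • mono z τ = ∑ σ, c σ • mono z (ι σ) := by
  classical
  refine ⟨fun τ => ∑ σ, if ι σ = τ then c σ else 0, ?_⟩
  intro U _ z
  simp_rw [Finset.sum_smul]
  rw [Finset.sum_comm]
  refine Finset.sum_congr rfl ?_
  intro σ _
  rw [Finset.sum_eq_single (ι σ)]
  · rw [if_pos rfl]
  · intro τ _ hτ
    rw [if_neg (Ne.symm hτ), zero_smul]
  · intro h; exact absurd (Finset.mem_univ _) h

/-- row B2 -/
theorem exists_ideal {U : Type} [Ring U] (R : NonUnitalSubring U) {d : ℕ}
    (a : Perm (Fin (d + 1)) → ℤ) (ha : a 1 = 1)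
    (hPI : ∀ x : Fin (d + 1) → U, (∀ i, x i ∈ R) → ∑ σ, a σ • mono x σ = 0)
    (p : ℕ) [Fact p.Prime] (hp : ∀ r ∈ R, (p : ℤ) • r = 0) (n : ℕ) :
    ∃ I : Ideal (MonoidAlgebra (ZMod p) (Perm (Fin n))),
      Module.finrank (ZMod p) (MonoidAlgebra (ZMod p) (Perm (Fin n)) ⧸ I) ≤
        d ^ (2 * (2 * n + 1)) ∧
      ∀ c : MonoidAlgebra ℤ (Perm (Fin n)), red p _ c ∈ I →
        ∀ (v : Fin (n + 1) → U) (x : Fin n → U), (∀ i, v i ∈ R) → (∀ i, x i ∈ R) →
          ∑ σ, c.coeff σ • capMono v x σ = 0 := by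
  classical
  let hmod : Module (ZMod p) R := AddCommGroup.zmodModule (n := p) (by
    intro x
    apply Subtype.ext
    have h := hp x.1 x.2
    rw [natCast_zsmul] at h
    simpa using h)
  -- the evaluation
  let cm : ((Fin (n + 1) → R) × (Fin n → R)) → Perm (Fin n) → R := fun vx σ =>
    ⟨capMono (fun i => (vx.1 i : U)) (fun i => (vx.2 i : U)) σ,
      b2_capMono_mem R _ _ (fun i => (vx.1 i).2) (fun i => (vx.2 i).2) σ⟩
  let L : MonoidAlgebra (ZMod p) (Perm (Fin n)) →ₗ[ZMod p]
      (((Fin (n + 1) → R) × (Fin n → R)) → R) :=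
    { toFun := fun c vx => ∑ σ, c.coeff σ • cm vx σ
      map_add' := by
        intro c c'
        funext vx
        show ∑ σ, (c + c').coeff σ • cm vx σ = ∑ σ, c.coeff σ • cm vx σ + ∑ σ, c'.coeff σ • cm vx σ
        rw [← Finset.sum_add_distrib]
        refine Finset.sum_congr rfl ?_
        intro σ _
        rw [MonoidAlgebra.coeff_add, Finsupp.add_apply, add_smul]
      map_smul' := by
        intro r c
        funext vx
        show ∑ σ, (r • c).coeff σ • cm vx σ = r • ∑ σ, c.coeff σ • cm vx σ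
        rw [Finset.smul_sum]
        refine Finset.sum_congr rfl ?_
        intro σ _
        rw [MonoidAlgebra.coeff_smul_apply, smul_eq_mul, mul_smul] }
  have hLapp : ∀ c vx, L c vx = ∑ σ, c.coeff σ • cm vx σ := fun _ _ => rfl
  -- left multiplication
  have hLmul : ∀ (g : Perm (Fin n)) (c : MonoidAlgebra (ZMod p) (Perm (Fin n)))
      (vx : (Fin (n + 1) → R) × (Fin n → R)),
      L (MonoidAlgebra.of (ZMod p) _ g * c) vx = L c (vx.1, vx.2 ∘ g) := by
    intro g c vx
    rw [hLapp, hLapp]
    rw [← Equiv.sum_comp (Equiv.mulLeft g)]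
    refine Finset.sum_congr rfl ?_
    intro τ _
    have h1 : (MonoidAlgebra.of (ZMod p) _ g * c).coeff (Equiv.mulLeft g τ) = c.coeff τ := by
      rw [MonoidAlgebra.of_apply]
      rw [MonoidAlgebra.coeff_single_mul_eq_mul_coeff τ (by
        intro m' _
        show g * m' = g * τ ↔ m' = τ
        exact mul_right_inj g), one_mul]
    rw [h1]
    rfl
  have hLker : ∀ (b c : MonoidAlgebra (ZMod p) (Perm (Fin n))), L c = 0 → L (b * c) = 0 := by
    intro b c hc
    induction b using MonoidAlgebra.induction_on with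
    | of g =>
      funext vx
      rw [hLmul, hc]
      rfl
    | add x y hx hy => rw [add_mul, map_add, hx, hy, add_zero]
    | smul r x hx => rw [smul_mul_assoc, map_smul, hx, smul_zero]
  let I : Ideal (MonoidAlgebra (ZMod p) (Perm (Fin n))) :=
    { carrier := {c | L c = 0}
      zero_mem' := map_zero L
      add_mem' := by
        intro x y hx hy
        show L (x + y) = 0
        rw [map_add, hx, hy, add_zero]
      smul_mem' := by
        intro b c hc
        exact hLker b c hc }
  have hI : I.restrictScalars (ZMod p) = LinearMap.ker L := by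
    ext c; exact Iff.rfl
  refine ⟨I, ?_, ?_⟩
  · -- the dimension
    obtain ⟨ι, hι, hz⟩ := capMono_eq_mono n
    have hz' : ∀ vx : (Fin (n + 1) → R) × (Fin n → R), ∃ z : Fin (2 * n + 1) → U,
        (∀ i, z i ∈ R) ∧ ∀ σ, capMono (fun i => (vx.1 i : U)) (fun i => (vx.2 i : U)) σ =
          mono z (ι σ) := by
      intro vx
      obtain ⟨z, h1, h2⟩ := hz (fun i => (vx.1 i : U)) (fun i => (vx.2 i : U))
      refine ⟨z, ?_, h2⟩
      intro i
      rcases h1 i with ⟨j, hj⟩ | ⟨j, hj⟩
      · rw [hj]; exact (vx.1 j).2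
      · rw [hj]; exact (vx.2 j).2
    choose z hzR hzm using hz'
    let Mτ : {τ : Perm (Fin (2 * n + 1)) // Good (d + 1) τ} →
        (((Fin (n + 1) → R) × (Fin n → R)) → R) := fun τ vx =>
      ⟨mono (z vx) τ.1, b2_mono_mem R _ (hzR vx) τ.1⟩
    have hrange : LinearMap.range L ≤ Submodule.span (ZMod p) (Set.range Mτ) := by
      rintro _ ⟨c, rfl⟩
      obtain ⟨c1, hc1⟩ := b2_push ι (fun σ => ((c.coeff σ).val : ℤ))
      obtain ⟨c', hgood, hc'⟩ := reduce_good R a ha hPI c1
      have hLc : L c = ∑ τ : {τ : Perm (Fin (2 * n + 1)) // Good (d + 1) τ},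
          ((c' τ.1 : ℤ) : ZMod p) • Mτ τ := by
        funext vx
        apply Subtype.ext
        rw [hLapp]
        have e1 : ((∑ σ, c.coeff σ • cm vx σ : R) : U) =
            ∑ σ, ((c.coeff σ).val : ℤ) • capMono (fun i => (vx.1 i : U)) (fun i => (vx.2 i : U)) σ := by
          rw [AddSubmonoidClass.coe_finsetSum]
          refine Finset.sum_congr rfl ?_
          intro σ _
          have e2 : c.coeff σ = (((c.coeff σ).val : ℤ) : ZMod p) := by
            rw [Int.cast_natCast, ZMod.natCast_zmod_val]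
          rw [e2, Int.cast_smul_eq_zsmul]
          rw [← e2]
          rfl
        have e3 : ∑ σ, ((c.coeff σ).val : ℤ) •
            capMono (fun i => (vx.1 i : U)) (fun i => (vx.2 i : U)) σ =
            ∑ τ, c' τ • mono (z vx) τ := by
          rw [← hc' (z vx) (hzR vx), hc1]
          refine Finset.sum_congr rfl ?_
          intro σ _
          rw [hzm]
        rw [e1, e3, Finset.sum_apply, AddSubmonoidClass.coe_finsetSum]
        have e4 : ∀ τ : {τ : Perm (Fin (2 * n + 1)) // Good (d + 1) τ},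
            (((((c' τ.1 : ℤ) : ZMod p) • Mτ τ) vx : R) : U) = c' τ.1 • mono (z vx) τ.1 := by
          intro τ
          rw [Pi.smul_apply, Int.cast_smul_eq_zsmul]
          rfl
        rw [Finset.sum_congr rfl (fun τ _ => e4 τ)]
        rw [← Finset.sum_subtype (univ.filter (fun τ => Good (d + 1) τ)) (by simp)
          (fun τ => c' τ • mono (z vx) τ)]
        rw [Finset.sum_filter_of_ne]
        intro τ _ hτ
        refine hgood τ ?_
        intro h0
        apply hτ
        rw [h0, zero_smul]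
      rw [hLc]
      exact Submodule.sum_mem _ fun τ _ => Submodule.smul_mem _ _ (Submodule.subset_span ⟨τ, rfl⟩)
    have hfin : Module.Finite (ZMod p) (Submodule.span (ZMod p) (Set.range Mτ)) :=
      FiniteDimensional.span_of_finite _ (Set.finite_range _)
    have h1 : Module.finrank (ZMod p) (MonoidAlgebra (ZMod p) (Perm (Fin n)) ⧸ I) =
        Module.finrank (ZMod p) (LinearMap.range L) := by
      rw [← LinearEquiv.finrank_eq (Submodule.Quotient.restrictScalarsEquiv (ZMod p) I),
        LinearEquiv.finrank_eq (Submodule.quotEquivOfEq _ _ hI),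
        LinearEquiv.finrank_eq L.quotKerEquivRange]
    rw [h1]
    refine le_trans (Submodule.finrank_mono hrange) ?_
    refine le_trans (finrank_range_le_card Mτ) ?_
    have h2 := card_good_le d (2 * n + 1)
    rw [Nat.card_eq_fintype_card] at h2
    exact h2
  · intro c hc v x hv hx
    have h1 : L (red p _ c) = 0 := hc
    have h2 := congrFun h1 ((fun i => ⟨v i, hv i⟩), (fun i => ⟨x i, hx i⟩))
    rw [hLapp] at h2
    have h3 : ((∑ σ, (red p _ c).coeff σ • cm ((fun i => ⟨v i, hv i⟩), (fun i => ⟨x i, hx i⟩)) σ : R) : U) = 0 := by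
      rw [h2]; rfl
    rw [AddSubmonoidClass.coe_finsetSum] at h3
    have h4 : ∀ σ, ((((red p _ c).coeff σ • cm ((fun i => ⟨v i, hv i⟩), (fun i => ⟨x i, hx i⟩)) σ : R)) : U) =
        c.coeff σ • capMono v x σ := by
      intro σ
      have h5 : (red p _ c).coeff σ = ((c.coeff σ : ℤ) : ZMod p) := by
        unfold red
        rw [MonoidAlgebra.coeff_mapRingHom]
        rfl
      rw [h5, Int.cast_smul_eq_zsmul]
      rfl
    rw [Finset.sum_congr rfl (fun σ _ => h4 σ)] at h3
    exact h3

end Pool.PI34.C0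

end

/-! ### part C0_Final -/
section

set_option autoImplicit false

namespace Pool.PI34.C0

open Equiv Finset

/-- BLOCK C0.  For `χ = Equiv.Perm.sign` this is the Capelli identity. -/
theorem capelli (p : ℕ) [Fact p.Prime] (d : ℕ) : ∃ n : ℕ, 1 ≤ n ∧
    ∀ (U : Type) [Ring U] (R : NonUnitalSubring U) (a : Perm (Fin (d + 1)) → ℤ), a 1 = 1 →
      (∀ x : Fin (d + 1) → U, (∀ i, x i ∈ R) → ∑ σ, a σ • mono x σ = 0) →
      (∀ r ∈ R, (p : ℤ) • r = 0) →
      ∀ χ : Perm (Fin n) →* ℤˣ, ∀ (v : Fin (n + 1) → U) (x : Fin n → U),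
        (∀ i, v i ∈ R) → (∀ i, x i ∈ R) →
        ∑ σ, ((χ σ : ℤˣ) : ℤ) • capMono v x σ = 0 := by
  obtain ⟨n, hn, hlat⟩ := exists_lattice p ((d + 1) ^ 6)
  refine ⟨n, hn, fun U _ R a ha hPI hp χ v x hv hx => ?_⟩
  obtain ⟨I, hI, hval⟩ := exists_ideal R a ha hPI p hp n
  have hNI : normEl (K := ZMod p) (chiP p χ) ∈ I := by
    by_contra hcon
    obtain ⟨e, he, hIe, hχe⟩ := exists_idem (chiP p χ) I hcon
    obtain ⟨S, _, _, _, ρ, w, hrank, hEnd, hw, hinv⟩ := hlat χ
    have h1 := rank_le_dim ρ χ hEnd w hw hinv e he hχe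
    have h2 := finrank_span_le I e he hIe
    have h3 : d ^ (2 * (2 * n + 1)) ≤ ((d + 1) ^ 6) ^ n := by
      rw [← pow_mul]
      calc d ^ (2 * (2 * n + 1)) ≤ (d + 1) ^ (2 * (2 * n + 1)) := Nat.pow_le_pow_left (by omega) _
        _ ≤ (d + 1) ^ (6 * n) := Nat.pow_le_pow_right (by omega) (by omega)
    omega
  set c : MonoidAlgebra ℤ (Perm (Fin n)) := ∑ g : Perm (Fin n), MonoidAlgebra.single g ((χ g : ℤˣ) : ℤ) with hc
  have hred : red p _ c = normEl (K := ZMod p) (chiP p χ) := by
    rw [hc, map_sum, normEl]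
    refine Finset.sum_congr rfl fun g _ => ?_
    have h1 : (χ g⁻¹ : ℤˣ) = χ g := by
      rw [map_inv, Int.units_inv_eq_self]
    simp [red, chiP, h1]
  have h := hval c (by rw [hred]; exact hNI) v x hv hx
  have hcoeff : ∀ σ, c.coeff σ = ((χ σ : ℤˣ) : ℤ) := by
    intro σ
    rw [hc, MonoidAlgebra.coeff_sum, Finsupp.finsetSum_apply]
    simp [Finsupp.single_apply]
  simpa [hcoeff] using h

end Pool.PI34.C0

end
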