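import Pool.Agent.LibPI54.M28
import Pool.Agent.LibPI54.M29
import Pool.Agent.LibPI54.M32
import Pool.Agent.LibPI54.M34
import Pool.Agent.LibPI54.M35

/-! ### part BA_D6 -/
section

/-! PI34, block BA, file D6: the support of `P_ξ`, the package of a string system. -/

set_option autoImplicit false

namespace Pool.PI34.BA

open Equiv Finset Matrix
open scoped TensorProduct

/-- a graded support lemma: `P : Mon →₀ W`, weights `c : pairs → ℕ`; if scaling the entries by `λ^{c(a,b)}` (`λ` the
variable of `TU[λ]`) multiplies the universal evaluation by `λ^m` then every `ξ` in the support has weight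
`m`.  PROOF: `evMon (λ^c B) ξ = λ^{Σ ξ c} evMon B ξ`; take the coefficient of `λ^j X^ξ`,
a linear functional `TU[λ] → ℤ` tensored with `W`. -/
theorem support_weight {X : Type} [Fintype X] [DecidableEq X] {n : ℕ} {W : Type} [AddCommGroup W]
    (P : Mon X n →₀ W) (c : Option (X × Fin n) → Option (X × Fin n) → ℕ) (m : ℕ)
    (h : ∀ (T : Type) [CommRing T] (l : T)
      (B : Matrix (Option (X × Fin n)) (Option (X × Fin n)) T),
      evW P T (Matrix.of fun a b => l ^ c a b * B a b) = l ^ m • evW P T B)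
    (ξ : Mon X n) (hξ : P ξ ≠ 0) : (ξ.sum fun ab e => e * c ab.1 ab.2) = m := by
  classical
  set j : ℕ := ξ.sum fun ab e => e * c ab.1 ab.2 with hj
  by_contra hjm
  apply hξ
  -- the functional: coefficient of `l ^ j X ^ ξ`
  let φ : Polynomial (TU X n) →ₗ[ℤ] ℤ := AddMonoidHom.toIntLinearMap
    { toFun := fun y => MvPolynomial.coeff ξ (y.coeff j)
      map_zero' := by simp
      map_add' := by intro a b; simp }
  have hφ : ∀ y, φ y = MvPolynomial.coeff ξ (y.coeff j) := fun y => rfl
  let Λ : Polynomial (TU X n) ⊗[ℤ] W →ₗ[ℤ] W :=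
    (TensorProduct.lid ℤ W).toLinearMap ∘ₗ LinearMap.rTensor W φ
  have hΛ : ∀ (y : Polynomial (TU X n)) (w : W), Λ (y ⊗ₜ w) = φ y • w := by
    intro y w
    change TensorProduct.lid ℤ W (LinearMap.rTensor W φ (y ⊗ₜ w)) = _
    rw [LinearMap.rTensor_tmul, TensorProduct.lid_tmul]
  let B₀ : Matrix (Option (X × Fin n)) (Option (X × Fin n)) (Polynomial (TU X n)) :=
    Matrix.of fun a b => Polynomial.C (MvPolynomial.X (a, b))
  have h0 : ∀ η : Mon X n, evMon B₀ η = Polynomial.C (MvPolynomial.monomial η 1) := by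
    intro η
    rw [MvPolynomial.monomial_eq, map_one, one_mul]
    unfold evMon
    rw [Finsupp.prod, Finsupp.prod, map_prod]
    refine Finset.prod_congr rfl fun ab _ => ?_
    rw [map_pow]
    rfl
  have h1 : ∀ η : Mon X n,
      evMon (Matrix.of fun a b => (Polynomial.X : Polynomial (TU X n)) ^ c a b * B₀ a b) η =
        Polynomial.X ^ (η.sum fun ab e => e * c ab.1 ab.2) *
          Polynomial.C (MvPolynomial.monomial η 1) := by
    intro η
    rw [← h0 η]
    unfold evMon
    rw [Finsupp.prod, Finsupp.prod, Finsupp.sum, ← Finset.prod_pow_eq_pow_sum,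
      ← Finset.prod_mul_distrib]
    refine Finset.prod_congr rfl fun ab _ => ?_
    rw [Matrix.of_apply, mul_pow, ← pow_mul, mul_comm (c ab.1 ab.2)]
  have key : ∀ (s : ℕ) (η : Mon X n),
      φ (Polynomial.X ^ s * Polynomial.C (MvPolynomial.monomial η 1)) =
        if s = j ∧ η = ξ then 1 else 0 := by
    intro s η
    rw [hφ, mul_comm, Polynomial.coeff_C_mul, Polynomial.coeff_X_pow]
    by_cases hs : j = s
    · rw [if_pos hs, mul_one, MvPolynomial.coeff_monomial]
      by_cases he : η = ξ
      · rw [if_pos he, if_pos ⟨hs.symm, he⟩]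
      · rw [if_neg he, if_neg (fun h => he h.2)]
    · rw [if_neg hs, mul_zero, MvPolynomial.coeff_zero, if_neg (fun h => hs h.1.symm)]
  have hh := congrArg Λ (h (Polynomial (TU X n)) Polynomial.X B₀)
  have hL : Λ (evW P (Polynomial (TU X n))
      (Matrix.of fun a b => (Polynomial.X : Polynomial (TU X n)) ^ c a b * B₀ a b)) = P ξ := by
    unfold evW
    rw [Finsupp.sum, map_sum, Finset.sum_eq_single ξ]
    · rw [hΛ, h1, key, if_pos ⟨hj.symm, rfl⟩, one_smul]
    · intro η _ hη
      rw [hΛ, h1, key, if_neg (fun h => hη h.2), zero_smul]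
    · intro hn
      rw [Finsupp.notMem_support_iff] at hn
      rw [hn, TensorProduct.tmul_zero, map_zero]
  have hR : Λ ((Polynomial.X : Polynomial (TU X n)) ^ m • evW P (Polynomial (TU X n)) B₀) = 0 := by
    unfold evW
    rw [Finsupp.sum, Finset.smul_sum, map_sum]
    refine Finset.sum_eq_zero fun η _ => ?_
    rw [TensorProduct.smul_tmul', smul_eq_mul, hΛ, h0, key, if_neg (fun h => hjm h.1.symm),
      zero_smul]
  rw [← hL, hh, hR]

variable {ι Φ E : Type} [Fintype ι] [DecidableEq ι] [Ring Φ] [Ring E] (S : Str ι Φ E)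
variable {k : ℕ} (p q : Fin k ↪ ι) (z : ι) {X : Type} [Fintype X] [DecidableEq X]
variable (x : X → Φ) (n : ℕ)

/-- `support_weight` with the weights `1`, `[a = none]`, `[b = none]` and `PB_smul`, `PB_row`, `PB_col` -/
theorem goodMon_of_Pxi (ξ : Mon X n) (hξ : Pxi S p q z x n ξ ≠ 0) : GoodMon ξ := by
  refine ⟨?_, ?_, ?_⟩
  · have h := support_weight (Pxi S p q z x n) (fun _ _ => 1) (n + 1) (by
      intro T _ l B
      rw [evW_Pxi, evW_Pxi, ← PB_smul S p q z x n T l B]
      congr 1
      ext a b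
      rw [Matrix.of_apply, pow_one, Matrix.smul_apply, smul_eq_mul]) ξ hξ
    rw [← h]
    refine Finsupp.sum_congr fun ab _ => ?_
    rw [mul_one]
  · have h := support_weight (Pxi S p q z x n) (fun a _ => if a = none then 1 else 0) 1 (by
      intro T _ l B
      rw [evW_Pxi, evW_Pxi, pow_one, ← PB_row S p q z x n T l B]
      congr 1
      ext a b
      rw [Matrix.of_apply, Matrix.of_apply]
      by_cases ha : a = none
      · rw [if_pos ha, if_pos ha, pow_one]
      · rw [if_neg ha, if_neg ha, pow_zero]) ξ hξ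
    rw [← h, Finsupp.sum_fintype _ _ (fun _ => zero_mul _), Fintype.sum_prod_type,
      Fintype.sum_option (fun a : Option (X × Fin n) => ∑ y : Option (X × Fin n),
        ξ (a, y) * (if a = none then 1 else 0))]
    have h2 : ∑ i : X × Fin n, ∑ y : Option (X × Fin n),
        ξ (some i, y) * (if (some i : Option (X × Fin n)) = none then 1 else 0) = 0 := by
      refine Finset.sum_eq_zero fun i _ => Finset.sum_eq_zero fun y _ => ?_
      rw [if_neg (by simp), mul_zero]
    rw [h2, add_zero]
    refine Finset.sum_congr rfl fun b _ => ?_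
    rw [if_pos rfl, mul_one]
  · have h := support_weight (Pxi S p q z x n) (fun _ b => if b = none then 1 else 0) 1 (by
      intro T _ l B
      rw [evW_Pxi, evW_Pxi, pow_one, ← PB_col S p q z x n T l B]
      congr 1
      ext a b
      rw [Matrix.of_apply, Matrix.of_apply]
      by_cases ha : b = none
      · rw [if_pos ha, if_pos ha, pow_one]
      · rw [if_neg ha, if_neg ha, pow_zero]) ξ hξ
    rw [← h, Finsupp.sum_fintype _ _ (fun _ => zero_mul _), Fintype.sum_prod_type]
    refine Finset.sum_congr rfl fun a _ => ?_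
    rw [Fintype.sum_option (fun y : Option (X × Fin n) =>
        ξ (a, y) * (if y = none then 1 else 0))]
    have h2 : ∑ i : X × Fin n,
        ξ (a, some i) * (if (some i : Option (X × Fin n)) = none then 1 else 0) = 0 := by
      refine Finset.sum_eq_zero fun i _ => ?_
      rw [if_neg (by simp), mul_zero]
    rw [h2, add_zero, if_pos rfl, mul_one]

/-- the package of a string system -/
noncomputable def Str.pkg (hA : Anti S.s k) (hF : Frame p q z) : Pkg X k n E where
  P := Pxi S p q z x n
  deg ξ hξ := goodMon_of_Pxi S p q z x n ξ hξ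
  inv T _ _ B h h' h1 h2 hh := by
    rw [evW_Pxi, evW_Pxi, PB_inv S p q z x n hA hF T B h h' h1 h2 hh]
  rank T _ _ B u v j hj := by
    rw [evW_Pxi, PB_rank S p q z x n hA hF T B u v j hj]

end Pool.PI34.BA

end

/-! ### part BA_D8 -/
section

/-! PI34, block BA, file D8: morphisms and products of string systems. -/

set_option autoImplicit false

namespace Pool.PI34.BA

open Equiv Finset Matrix
open scoped TensorProduct

variable {ι Φ E Φ' E' : Type} [Fintype ι] [DecidableEq ι] [Ring Φ] [Ring E] [Ring Φ'] [Ring E']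

/-- change of the letters -/
noncomputable def Str.comap (S : Str ι Φ E) (f : Φ' →+* Φ) : Str ι Φ' E where
  ρ i := (S.ρ i).comp f
  s := S.s
  comm i j hij a b := S.comm i j hij _ _
  conj σ i a := S.conj σ i _

/-- product of two string systems with the same letters -/
noncomputable def Str.prod (S : Str ι Φ E) (S' : Str ι Φ E') : Str ι Φ (E × E') where
  ρ i := (S.ρ i).prod (S'.ρ i)
  s := S.s.prod S'.s
  comm i j hij a b := Prod.ext (S.comm i j hij a b) (S'.comm i j hij a b)
  conj σ i a := Prod.ext (S.conj σ i a) (S'.conj σ i a)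

theorem prod_Anti (S : Str ι Φ E) (S' : Str ι Φ E') (k : ℕ) (h : Anti S.s k) (h' : Anti S'.s k) :
    Anti (S.prod S').s k := by
  intro T hT
  refine Prod.ext ?_ ?_
  · refine Eq.trans ?_ (h T hT)
    change RingHom.fst E E' (anti (S.prod S').s T) = _
    unfold anti
    rw [map_sum]
    rfl
  · refine Eq.trans ?_ (h' T hT)
    change RingHom.snd E E' (anti (S.prod S').s T) = _
    unfold anti
    rw [map_sum]
    rfl

/-- the map `T ⊗ R → T ⊗ R'` induced by `f` as a ring homomorphism -/
noncomputable def D8_lmap (T : Type) [CommRing T] {R R' : Type} [Ring R] [Ring R']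
    (f : R →+* R') : T ⊗[ℤ] R →+* T ⊗[ℤ] R' :=
  (Algebra.TensorProduct.map (AlgHom.id ℤ T) f.toIntAlgHom : T ⊗[ℤ] R →ₐ[ℤ] T ⊗[ℤ] R')

theorem D8_lmap_tmul (T : Type) [CommRing T] {R R' : Type} [Ring R] [Ring R']
    (f : R →+* R') (a : T) (r : R) : D8_lmap T f (a ⊗ₜ r) = a ⊗ₜ f r := by
  simp [D8_lmap]

theorem D8_rho (S : Str ι Φ E) (S' : Str ι Φ' E') (f : Φ →+* Φ') (g : E →+* E')
    (hρ : ∀ i a, g (S.ρ i a) = S'.ρ i (f a)) (T : Type) [CommRing T] (i : ι) (a : T ⊗[ℤ] Φ) :
    D8_lmap T g ((S.base T).ρ i a) = (S'.base T).ρ i (D8_lmap T f a) := by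
  induction a using TensorProduct.induction_on with
  | zero => simp only [map_zero]
  | add y₁ y₂ h₁ h₂ => rw [map_add, map_add, map_add, map_add, h₁, h₂]
  | tmul b r => rw [base_rho_tmul, D8_lmap_tmul, D8_lmap_tmul, base_rho_tmul, hρ]

theorem D8_s (S : Str ι Φ E) (S' : Str ι Φ' E') (g : E →+* E')
    (hs : ∀ σ, g (S.s σ) = S'.s σ) (T : Type) [CommRing T] (σ : Perm ι) :
    D8_lmap T g ((S.base T).s σ) = (S'.base T).s σ := by
  rw [base_s, D8_lmap_tmul, base_s, hs]

theorem D8_func {T T' R R' : Type} [CommRing T] [CommRing T'] [Ring R] [Ring R'] (c : T →+ T')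
    (g : R →+* R') (y : T ⊗[ℤ] R) :
    D8_lmap T' g (c.toIntLinearMap.rTensor R y) =
      c.toIntLinearMap.rTensor R' (D8_lmap T g y) := by
  induction y using TensorProduct.induction_on with
  | zero => simp only [map_zero]
  | add y₁ y₂ h₁ h₂ => rw [map_add, map_add, map_add, map_add, h₁, h₂]
  | tmul b r =>
    rw [D8_lmap_tmul, LinearMap.rTensor_tmul, LinearMap.rTensor_tmul, D8_lmap_tmul]

open Classical in
theorem D8_coeffs_tmul {X : Type} (n : ℕ) {R : Type} [Ring R]
    (b : TU X n) (r : R) (ξ : Mon X n) : coeffsW X n R (b ⊗ₜ r) ξ =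
      (MvPolynomial.basisMonomials (Option (X × Fin n) × Option (X × Fin n)) ℤ).repr b ξ • r :=
  TensorProduct.equivFinsuppOfBasisLeft_apply_tmul_apply
    (MvPolynomial.basisMonomials (Option (X × Fin n) × Option (X × Fin n)) ℤ) b r ξ

theorem D8_coeffsW {X : Type} (n : ℕ) {R R' : Type} [Ring R]
    [Ring R'] (g : R →+* R') (y : TU X n ⊗[ℤ] R) (ξ : Mon X n) :
    coeffsW X n R' (D8_lmap (TU X n) g y) ξ = g (coeffsW X n R y ξ) := by
  induction y using TensorProduct.induction_on with
  | zero => simp only [map_zero, Finsupp.coe_zero, Pi.zero_apply]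
  | add y₁ y₂ h₁ h₂ =>
    rw [map_add, map_add, map_add, Finsupp.add_apply, Finsupp.add_apply, map_add, h₁, h₂]
  | tmul b r =>
    rw [D8_lmap_tmul, D8_coeffs_tmul, D8_coeffs_tmul, map_zsmul]

theorem D8_PB (S : Str ι Φ E) (S' : Str ι Φ' E') (f : Φ →+* Φ') (g : E →+* E')
    (hρ : ∀ i a, g (S.ρ i a) = S'.ρ i (f a)) (hs : ∀ σ, g (S.s σ) = S'.s σ)
    {k : ℕ} (p q : Fin k ↪ ι) (z : ι) {X : Type} [Fintype X] [DecidableEq X] (x : X → Φ) (n : ℕ)
    (T : Type) [CommRing T] (B : Matrix (Option (X × Fin n)) (Option (X × Fin n)) T) :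
    D8_lmap T g (PB S p q z x n T B) = PB S' p q z (fun a => f (x a)) n T B := by
  unfold PB
  rw [D8_func]
  have ht : ∀ y : Trunc T n ⊗[ℤ] Φ, (tt T n ⊗ₜ[ℤ] (1 : Φ)) * y = y * (tt T n ⊗ₜ 1) :=
    fun y => tmul_one_comm (Trunc T n) (tt T n) y
  have hn : IsNilpotent (tt T n ⊗ₜ[ℤ] (1 : Φ)) :=
    isNilpotent_tmul_one (Trunc T n) (tt T n) (isNilpotent_tt T n)
  rw [map_PP (S.base (Trunc T n)) (S'.base (Trunc T n)) (D8_lmap (Trunc T n) f)
    (D8_lmap (Trunc T n) g) (D8_rho S S' f g hρ (Trunc T n)) (D8_s S S' g hs (Trunc T n))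
    p q z _ ht hn]
  have e1 : D8_lmap (Trunc T n) f (tt T n ⊗ₜ[ℤ] 1) = tt T n ⊗ₜ[ℤ] 1 := by
    rw [D8_lmap_tmul, map_one]
  have e2 : (fun a : X × Fin n => D8_lmap (Trunc T n) f (1 ⊗ₜ[ℤ] x a.1)) =
      fun a => 1 ⊗ₜ[ℤ] f (x a.1) := by
    funext a
    rw [D8_lmap_tmul]
  have e3 : (B.map fun b => inT T n b ⊗ₜ[ℤ] (1 : Φ)).map (D8_lmap (Trunc T n) f) =
      B.map fun b => inT T n b ⊗ₜ[ℤ] (1 : Φ') := by
    ext1 a b
    simp only [Matrix.map_apply]
    rw [D8_lmap_tmul, map_one]
  rw [e1, e2, e3]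

/-- `Pxi` is natural for morphisms of string systems (`map_PP` for the base changes, then `tcoef ⊗ id`) -/
theorem map_Pxi (S : Str ι Φ E) (S' : Str ι Φ' E') (f : Φ →+* Φ') (g : E →+* E')
    (hρ : ∀ i a, g (S.ρ i a) = S'.ρ i (f a)) (hs : ∀ σ, g (S.s σ) = S'.s σ)
    {k : ℕ} (p q : Fin k ↪ ι) (z : ι) {X : Type} [Fintype X] [DecidableEq X] (x : X → Φ) (n : ℕ)
    (ξ : Mon X n) :
    g (Pxi S p q z x n ξ) = Pxi S' p q z (fun a => f (x a)) n ξ := by
  unfold Pxi
  rw [← D8_coeffsW, D8_PB S S' f g hρ hs]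

end Pool.PI34.BA

end

/-! ### part BA_G1 -/
section

/-! PI34, block BA, file G1: BA for homogeneous elements, from the rank bound A5. -/

set_option autoImplicit false

namespace Pool.PI34.BA

open Equiv Finset Matrix
open scoped TensorProduct

/-- the coefficient ring of the generic matrices -/
abbrev CG (X : Type) (k : ℕ) : Type := MvPolynomial (X × Fin k × Fin k) ℤ

/-- the generic matrices -/
noncomputable def gen (X : Type) (k : ℕ) (a : X) : Matrix (Fin k) (Fin k) (CG X k) :=
  Matrix.of fun i j => MvPolynomial.X (a, i, j)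

/-- the rank bound A5 for the matrix string system -/
def RankBound (X : Type) [Fintype X] [DecidableEq X] (k n : ℕ) {ι : Type} [Fintype ι]
    [DecidableEq ι] (p q : Fin k ↪ ι) (z : ι) : Prop :=
  ∀ (K : Type) [Field K] [Infinite K], Module.finrank K (FF X k n K) ≤
    Module.finrank ℤ (Submodule.span ℤ (Set.range fun ξ =>
      Pxi (matStr k (CG X k) ι) p q z (gen X k) n ξ))

theorem sum_path_helper {J A B : Type} [Fintype J] [Ring A] [Ring B] (r : A →+* B) (o : B)
    (n : ℕ) (c : J → ℤ) (y : J → A) :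
    ∑ w, c w • ((-1 : ℤ) ^ n • (r (y w) * o)) = (-1 : ℤ) ^ n • (r (∑ w, c w • y w) * o) := by
  rw [map_sum, Finset.sum_mul, Finset.smul_sum]
  refine Finset.sum_congr rfl fun w _ => ?_
  rw [map_zsmul, smul_mul_assoc, smul_comm]

theorem noZeroSMul_end (X : Type) (k : ℕ) (ι : Type) :
    NoZeroSMulDivisors ℤ (Module.End (CG X k) ((ι → Fin k) → CG X k)) := by
  refine ⟨fun {a f} h => ?_⟩
  by_cases ha : a = 0
  · exact Or.inl ha
  · refine Or.inr ?_
    apply LinearMap.ext
    intro v
    funext g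
    have h1 := congrFun (congrArg (fun e : Module.End (CG X k) ((ι → Fin k) → CG X k) => e v) h) g
    have h2 : a • (f v g) = 0 := h1
    rw [zsmul_eq_mul, mul_eq_zero] at h2
    rcases h2 with h2 | h2
    · exact absurd (Int.cast_eq_zero.1 h2) ha
    · exact h2

/-- PROOF.  `S₁ = S.comap (lift x)`, `S₂ = (matStr k (CG X k) ι).comap (lift gen)`, package of `S₁.prod S₂`,
`map_Pxi` for the two projections, `glue` with the coefficients `c` and the monomials `pathMon w`; `Pxi_path`:
the second components give `± ρ_z(Σ c_w gen_w) ω = 0`, the first ones `± Σ c_w ρ_z(x_w) ω`. -/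
theorem BA_word {X : Type} [Fintype X] [DecidableEq X] {ι Φ E : Type} [Fintype ι] [DecidableEq ι]
    [Ring Φ] [Ring E] (S : Str ι Φ E) (k n : ℕ) (hA : Anti S.s k) (p q : Fin k ↪ ι) (z : ι)
    (hF : Frame p q z) (hR : RankBound X k n p q z) (x : X → Φ) (c : (Fin n → X) → ℤ)
    (hc : ∑ w, c w • (List.ofFn fun i => gen X k (w i)).prod = 0) :
    ∑ w, c w • (S.ρ z (List.ofFn fun i => x (w i)).prod * S.om p q) = 0 := by
  classical
  obtain ⟨f1, hf1⟩ : ∃ f : FreeAlgebra ℤ X →+* Φ, ∀ a, f (FreeAlgebra.ι ℤ a) = x a :=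
    ⟨(FreeAlgebra.lift ℤ x : FreeAlgebra ℤ X →ₐ[ℤ] Φ).toRingHom, fun a => by simp⟩
  obtain ⟨f2, hf2⟩ : ∃ f : FreeAlgebra ℤ X →+* Matrix (Fin k) (Fin k) (CG X k),
      ∀ a, f (FreeAlgebra.ι ℤ a) = gen X k a :=
    ⟨(FreeAlgebra.lift ℤ (gen X k) :
      FreeAlgebra ℤ X →ₐ[ℤ] Matrix (Fin k) (Fin k) (CG X k)).toRingHom, fun a => by simp⟩
  have e1 : (fun a => f1 (FreeAlgebra.ι ℤ a)) = x := funext hf1
  have e2 : (fun a => f2 (FreeAlgebra.ι ℤ a)) = gen X k := funext hf2
  set SP := (S.comap f1).prod ((matStr k (CG X k) ι).comap f2) with hSP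
  have hAP : Anti SP.s k := prod_Anti (S.comap f1) ((matStr k (CG X k) ι).comap f2) k hA matStr_Anti
  have P1 : ∀ ξ, (Pxi SP p q z (fun a => FreeAlgebra.ι ℤ a) n ξ).1 = Pxi S p q z x n ξ := by
    intro ξ
    have h := map_Pxi SP S f1 (RingHom.fst E (Module.End (CG X k) ((ι → Fin k) → CG X k)))
      (fun _ _ => rfl) (fun _ => rfl) p q z (fun a => FreeAlgebra.ι ℤ a) n ξ
    rw [e1] at h
    exact h
  have P2 : ∀ ξ, (Pxi SP p q z (fun a => FreeAlgebra.ι ℤ a) n ξ).2 =
      Pxi (matStr k (CG X k) ι) p q z (gen X k) n ξ := by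
    intro ξ
    have h := map_Pxi SP (matStr k (CG X k) ι) f2
      (RingHom.snd E (Module.End (CG X k) ((ι → Fin k) → CG X k)))
      (fun _ _ => rfl) (fun _ => rfl) p q z (fun a => FreeAlgebra.ι ℤ a) n ξ
    rw [e2] at h
    exact h
  haveI := noZeroSMul_end X k ι
  have hg := glue (Str.pkg SP p q z (fun a => FreeAlgebra.ι ℤ a) n hAP hF) (by
      intro K _ _
      have h := hR K
      have h3 : (fun ξ => ((Str.pkg SP p q z (fun a => FreeAlgebra.ι ℤ a) n hAP hF).P ξ).2) =
          fun ξ => Pxi (matStr k (CG X k) ι) p q z (gen X k) n ξ := funext P2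
      rw [h3]
      exact h) c (fun w => pathMon w) (by
      have h4 : ∀ w : Fin n → X, c w •
          ((Str.pkg SP p q z (fun a => FreeAlgebra.ι ℤ a) n hAP hF).P (pathMon w)).2 =
          c w • ((-1 : ℤ) ^ n • ((matStr k (CG X k) ι).ρ z
            (List.ofFn fun i => gen X k (w i)).prod * (matStr k (CG X k) ι).om p q)) := by
        intro w
        rw [← Pxi_path]
        exact congrArg (fun y => c w • y) (P2 (pathMon w))
      rw [Finset.sum_congr rfl fun w _ => h4 w, sum_path_helper, hc, map_zero, zero_mul, smul_zero])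
  have h5 : ∀ w : Fin n → X, c w •
      ((Str.pkg SP p q z (fun a => FreeAlgebra.ι ℤ a) n hAP hF).P (pathMon w)).1 =
      c w • ((-1 : ℤ) ^ n • (S.ρ z (List.ofFn fun i => x (w i)).prod * S.om p q)) := by
    intro w
    rw [← Pxi_path]
    exact congrArg (fun y => c w • y) (P1 (pathMon w))
  rw [Finset.sum_congr rfl fun w _ => h5 w] at hg
  have h6 : ∑ w, c w • ((-1 : ℤ) ^ n • (S.ρ z (List.ofFn fun i => x (w i)).prod * S.om p q)) =
      (-1 : ℤ) ^ n • ∑ w, c w • (S.ρ z (List.ofFn fun i => x (w i)).prod * S.om p q) := by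
    rw [Finset.smul_sum]
    exact Finset.sum_congr rfl fun w _ => smul_comm _ _ _
  rw [h6] at hg
  have h7 := congrArg (fun y => (-1 : ℤ) ^ n • y) hg
  simp only [smul_smul, smul_zero] at h7
  rw [← mul_pow, neg_mul_neg, one_mul, one_pow, one_smul] at h7
  exact h7

end Pool.PI34.BA

end

/-! ### part BA_F6 -/
section

/-! PI34, block BA, file F6: the coefficients `P_ξ` for generic matrices and the determinant
`det (1 + [B_ab (x_{l(b)})_{ij}])`. -/

set_option autoImplicit false

namespace Pool.PI34.BA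

open Equiv Finset Matrix
open scoped TensorProduct

/-- the coefficient ring of the generic matrices `x_s`, `s ∈ X`, and `y = x_none` -/
abbrev CO (X : Type) (k : ℕ) : Type := MvPolynomial (Option X × Fin k × Fin k) ℤ

/-- the big matrix `[B_ab (x_{l(b)})_{ij}]` with index set `Option (X × Fin n) × Fin k` -/
def bigN {X : Type} {k n : ℕ} {R : Type} [CommRing R] (x : Option X → Matrix (Fin k) (Fin k) R)
    (B : Matrix (Option (X × Fin n)) (Option (X × Fin n)) R) :
    Matrix (Option (X × Fin n) × Fin k) (Option (X × Fin n) × Fin k) R :=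
  Matrix.of fun a b => B a.1 b.1 * x (b.1.map Prod.fst) a.2 b.2

variable {X : Type} [Fintype X] [DecidableEq X]

/-- multiplication of the rows different from `none` by `t` -/
def rowScale {n : ℕ} {R : Type} [CommRing R] (t : R)
    (B : Matrix (Option (X × Fin n)) (Option (X × Fin n)) R) :
    Matrix (Option (X × Fin n)) (Option (X × Fin n)) R :=
  Matrix.of fun a b => if a = none then B a b else t * B a b

section F6det

variable {A R : Type} [Fintype A] [DecidableEq A] [CommRing R] {k : ℕ}

/-- a row of matrices as a matrix -/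
def F6row (r : A → Matrix (Fin k) (Fin k) R) : Matrix (Fin k) (A × Fin k) R :=
  Matrix.of fun i b => r b.1 i b.2

/-- a column of matrices as a matrix -/
def F6col (c : A → Matrix (Fin k) (Fin k) R) : Matrix (A × Fin k) (Fin k) R :=
  Matrix.of fun a j => c a.1 a.2 j

theorem F6row_mul (r : A → Matrix (Fin k) (Fin k) R) (W : Matrix A A (Matrix (Fin k) (Fin k) R)) :
    F6row r * Matrix.comp A A (Fin k) (Fin k) R W = F6row fun b => ∑ a, r a * W a b := by
  ext i ⟨b, m⟩
  simp only [F6row, Matrix.mul_apply, Matrix.of_apply, Fintype.sum_prod_type, Matrix.comp_apply,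
    Matrix.sum_apply]

theorem F6row_col (r c : A → Matrix (Fin k) (Fin k) R) :
    F6row r * F6col c = ∑ a, r a * c a := by
  ext i j
  simp only [F6row, F6col, Matrix.mul_apply, Matrix.of_apply, Fintype.sum_prod_type,
    Matrix.sum_apply]

/-- reindexing -/
def F6e (A : Type) (k : ℕ) : Fin k ⊕ (A × Fin k) ≃ Option A × Fin k where
  toFun a := Sum.elim (fun i => (none, i)) (fun b => (some b.1, b.2)) a
  invFun b := match b with
    | (none, i) => Sum.inl i
    | (some a, i) => Sum.inr (a, i)
  left_inv a := by rcases a with i | ⟨a, i⟩ <;> rfl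
  right_inv b := by rcases b with ⟨_ | a, i⟩ <;> rfl

theorem F6_scalar (t : R) (M : Matrix (Fin k) (Fin k) R) :
    Matrix.scalar (Fin k) t * M = t • M := by
  rw [Matrix.scalar_apply, ← Matrix.smul_eq_diagonal_mul]

theorem F6_schur (t : R) (hn : IsNilpotent t) (x : A → Matrix (Fin k) (Fin k) R)
    (y : Matrix (Fin k) (Fin k) R) (B : Matrix (Option A) (Option A) R)
    (M : Matrix (Option A × Fin k) (Option A × Fin k) R)
    (h00 : ∀ i j, M (none, i) (none, j) = (1 : Matrix (Fin k) (Fin k) R) i j +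
      B none none * y i j)
    (h01 : ∀ i b j, M (none, i) (some b, j) = B none (some b) * x b i j)
    (h10 : ∀ a i j, M (some a, i) (none, j) = t * B (some a) none * y i j)
    (h11 : ∀ a i b j, M (some a, i) (some b, j) = (if (a, i) = (b, j) then 1 else 0) +
      t * B (some a) (some b) * x b i j) :
    M.det = (1 + t • Matrix.comp _ _ (Fin k) (Fin k) R
        (BX x (B.map (Matrix.scalar (Fin k))))).det *
      (1 + qq (Matrix.scalar (Fin k) t) x (B.map (Matrix.scalar (Fin k))) * y).det := by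
  set T : Matrix (Fin k) (Fin k) R := Matrix.scalar (Fin k) t with hT
  set B' := B.map (Matrix.scalar (Fin k)) with hB'
  have hTc : ∀ z : Matrix (Fin k) (Fin k) R, T * z = z * T := fun z =>
    (Matrix.scalar_commute t (fun r => mul_comm _ _) z).eq
  have hTn : IsNilpotent T := hn.map (Matrix.scalar (Fin k))
  obtain ⟨U, hU⟩ : ∃ U, U = 1 + T • BX x B' := ⟨_, rfl⟩
  have hu : IsUnit U := hU ▸ isUnit_one_add T hTc hTn (BX x B')
  obtain ⟨W, hW⟩ : ∃ W, W = Ring.inverse U := ⟨_, rfl⟩
  have hUW : U * W = 1 := hW ▸ Ring.mul_inverse_cancel _ hu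
  have hWU : W * U = 1 := hW ▸ Ring.inverse_mul_cancel _ hu
  have hmul : ∀ P Q : Matrix A A (Matrix (Fin k) (Fin k) R),
      Matrix.comp A A (Fin k) (Fin k) R P * Matrix.comp A A (Fin k) (Fin k) R Q =
        Matrix.comp A A (Fin k) (Fin k) R (P * Q) := fun P Q =>
    (map_mul (Matrix.compRingEquiv A (Fin k) R) P Q).symm
  have hone : Matrix.comp A A (Fin k) (Fin k) R 1 = 1 := map_one (Matrix.compRingEquiv A (Fin k) R)
  let D := Matrix.comp A A (Fin k) (Fin k) R U
  let iD : Invertible D := ⟨Matrix.comp A A (Fin k) (Fin k) R W, by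
    rw [hmul, hWU, hone], by rw [hmul, hUW, hone]⟩
  have hD : D = 1 + t • Matrix.comp A A (Fin k) (Fin k) R (BX x B') := by
    ext ⟨a, i⟩ ⟨b, j⟩
    simp only [D, hU, Matrix.comp_apply, Matrix.add_apply, Matrix.smul_apply, smul_eq_mul, hT,
      F6_scalar]
    congr 1
    by_cases hab : a = b
    · subst hab
      rw [Matrix.one_apply_eq]
      by_cases hij : i = j
      · subst hij
        rw [Matrix.one_apply_eq, Matrix.one_apply_eq]
      · rw [Matrix.one_apply_ne hij, Matrix.one_apply_ne]
        intro h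
        exact hij (Prod.ext_iff.1 h).2
    · rw [Matrix.one_apply_ne hab, Matrix.one_apply_ne]
      · rfl
      · intro h
        exact hab (Prod.ext_iff.1 h).1
  have hM : M.submatrix (F6e A k) (F6e A k) = Matrix.fromBlocks (1 + B none none • y)
      (F6row fun b => B' none (some b) * x b) (F6col fun a => T * B' (some a) none * y) D := by
    rw [hD]
    ext u v
    rcases u with i | ⟨a, i⟩ <;> rcases v with j | ⟨b, j⟩
    · simp [F6e, h00]
    · simp [F6e, h01, F6row, hB', F6_scalar]
    · simp [F6e, h10, F6col, hB', hT, F6_scalar, mul_assoc]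
    · simp [F6e, h11, hB', hT, F6_scalar, BX, Matrix.one_apply, mul_assoc]
  rw [← Matrix.det_submatrix_equiv_self (F6e A k) M, hM, Matrix.det_fromBlocks₂₂, ← hD]
  congr 2
  have hiD : ⅟D = Matrix.comp A A (Fin k) (Fin k) R W := rfl
  rw [hiD, F6row_mul, F6row_col]
  unfold qq
  rw [← hU, ← hW, sub_mul]
  have h1 : B' none none * y = B none none • y := by
    rw [hB', Matrix.map_apply, F6_scalar]
  rw [h1, mul_assoc T, ← add_sub_assoc]
  congr 1
  have hT2 : ∀ P Q : Matrix (Fin k) (Fin k) R, P * (T * Q) = T * (P * Q) := fun P Q => by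
    rw [← mul_assoc, ← hTc, mul_assoc]
  simp only [mul_assoc, hT2]
  rw [← Finset.mul_sum]
  congr 1
  rw [Finset.sum_comm, Finset.sum_mul]
  refine Finset.sum_congr rfl fun b _ => ?_
  rw [Finset.sum_mul, Finset.sum_mul]
  refine Finset.sum_congr rfl fun a _ => ?_
  simp only [mul_assoc]

end F6det

/-- Schur complement with respect to the block `1 + t N`, `N = B_A X` (`Matrix.det_fromBlocks₂₂` after reindexing
`Option A × Fin k ≃ Fin k ⊕ (A × Fin k)`). -/
theorem det_bigN {k n : ℕ} {R : Type} [CommRing R] (t : R) (hn : IsNilpotent t)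
    (x : Option X → Matrix (Fin k) (Fin k) R)
    (B : Matrix (Option (X × Fin n)) (Option (X × Fin n)) R) :
    (1 + bigN x (rowScale t B)).det =
      (1 + t • Matrix.comp _ _ (Fin k) (Fin k) R
        (BX (fun a : X × Fin n => x (some a.1)) (B.map (Matrix.scalar (Fin k))))).det *
      (1 + qq (Matrix.scalar (Fin k) t) (fun a : X × Fin n => x (some a.1))
        (B.map (Matrix.scalar (Fin k))) * x none).det := by
  refine F6_schur t hn _ (x none) B _ ?_ ?_ ?_ ?_
  · intro i j
    simp [bigN, rowScale, Matrix.one_apply]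
  · intro i b j
    simp [bigN, rowScale, Matrix.one_apply]
  · intro a i j
    simp [bigN, rowScale, Matrix.one_apply]
  · intro a i b j
    simp [bigN, rowScale, Matrix.one_apply]

/-- the determinant as a polynomial in the entries of `B` -/
noncomputable def theta (X : Type) [Fintype X] [DecidableEq X] (k n : ℕ) :
    MvPolynomial (Option (X × Fin n) × Option (X × Fin n)) (CO X k) :=
  (1 + bigN (X := X) (k := k) (n := n)
    (R := MvPolynomial (Option (X × Fin n) × Option (X × Fin n)) (CO X k))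
    (fun s => Matrix.of fun i j => MvPolynomial.C (MvPolynomial.X (s, i, j)))
    (Matrix.of fun a b => MvPolynomial.X (a, b))).det

/-- its coefficients -/
noncomputable def thetaXi (X : Type) [Fintype X] [DecidableEq X] (k n : ℕ) (ξ : Mon X n) : CO X k :=
  (theta X k n).coeff ξ

/-- substitution `y ↦ λ y` -/
noncomputable def ySub (X : Type) (k : ℕ) : CO X k →+* Polynomial (CO X k) :=
  MvPolynomial.eval₂Hom (Int.castRingHom _) fun v =>
    (if v.1 = none then Polynomial.X else 1) * Polynomial.C (MvPolynomial.X v)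

omit [Fintype X] [DecidableEq X] in
theorem F6_bigN_scale {k n : ℕ} {R : Type} [CommRing R] (l : R)
    (x : Option X → Matrix (Fin k) (Fin k) R)
    (B : Matrix (Option (X × Fin n)) (Option (X × Fin n)) R) :
    bigN (fun s => Matrix.of fun i j => (if s = none then l else 1) * x s i j) B =
      bigN x (Matrix.of fun a b => (if b = none then l else 1) * B a b) := by
  refine Matrix.ext fun u v => ?_
  obtain ⟨a, i⟩ := u
  obtain ⟨b, j⟩ := v
  rcases b with _ | b
  · simp only [bigN, Matrix.of_apply, if_true, Option.map_none]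
    ring
  · simp only [bigN, Matrix.of_apply, Option.map_some, reduceCtorEq, if_false, one_mul]

theorem F6_hom {k n : ℕ} {R' : Type} [CommRing R']
    (F : MvPolynomial (Option (X × Fin n) × Option (X × Fin n)) (CO X k) →+* R') :
    F (theta X k n) = (1 + bigN (fun s => Matrix.of fun i j =>
      F (MvPolynomial.C (MvPolynomial.X (s, i, j))))
      (Matrix.of fun a b => F (MvPolynomial.X (a, b)))).det := by
  unfold theta
  rw [RingHom.map_det]
  congr 1
  ext ⟨a, i⟩ ⟨b, j⟩
  simp only [RingHom.mapMatrix_apply, Matrix.map_apply, Matrix.add_apply, map_add, bigN,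
    Matrix.of_apply, map_mul]
  congr 1
  by_cases h : (a, i) = (b, j)
  · rw [h, Matrix.one_apply_eq, Matrix.one_apply_eq, map_one]
  · rw [Matrix.one_apply_ne h, Matrix.one_apply_ne h, map_zero]

theorem F6_scale {V R : Type} [CommRing R] (s : V → R) (P : MvPolynomial V R) (ξ : V →₀ ℕ) :
    MvPolynomial.coeff ξ (MvPolynomial.eval₂Hom MvPolynomial.C
      (fun v => MvPolynomial.C (s v) * MvPolynomial.X v) P) =
      (ξ.prod fun v e => s v ^ e) * MvPolynomial.coeff ξ P := by
  classical
  induction P using MvPolynomial.induction_on' with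
  | monomial u a =>
    have h1 : (u.prod fun v e => (MvPolynomial.C (s v) * MvPolynomial.X v : MvPolynomial V R) ^ e) =
        MvPolynomial.C (u.prod fun v e => s v ^ e) *
          (u.prod fun v e => (MvPolynomial.X v : MvPolynomial V R) ^ e) := by
      unfold Finsupp.prod
      rw [map_prod, ← Finset.prod_mul_distrib]
      refine Finset.prod_congr rfl fun v _ => ?_
      dsimp only
      rw [mul_pow, map_pow]
    rw [MvPolynomial.coe_eval₂Hom, MvPolynomial.eval₂_monomial, h1, mul_left_comm,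
      ← MvPolynomial.monomial_eq, MvPolynomial.coeff_C_mul, MvPolynomial.coeff_monomial]
    split_ifs with hu
    · rw [hu]
    · rw [mul_zero, mul_zero]
  | add p q hp hq => rw [map_add, MvPolynomial.coeff_add, hp, hq, MvPolynomial.coeff_add, mul_add]

/-- the degree of `Θ_ξ` in `y` is the degree of `ξ` in the column `none`:
(substitute `y ↦ λ y` in the determinant: this multiplies the column `none` of `B` by `λ`). -/
theorem ySub_thetaXi (k n : ℕ) (ξ : Mon X n) :
    ySub X k (thetaXi X k n ξ) =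
      Polynomial.X ^ (∑ a, ξ (a, none)) * Polynomial.C (thetaXi X k n ξ) := by
  let s : Option (X × Fin n) × Option (X × Fin n) → Polynomial (CO X k) := fun v =>
    if v.2 = none then Polynomial.X else 1
  let F1 : MvPolynomial (Option (X × Fin n) × Option (X × Fin n)) (CO X k) →+*
    MvPolynomial (Option (X × Fin n) × Option (X × Fin n)) (Polynomial (CO X k)) :=
    MvPolynomial.map (ySub X k)
  let F2 : MvPolynomial (Option (X × Fin n) × Option (X × Fin n)) (CO X k) →+*
    MvPolynomial (Option (X × Fin n) × Option (X × Fin n)) (Polynomial (CO X k)) :=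
    (MvPolynomial.eval₂Hom MvPolynomial.C
      (fun v => MvPolynomial.C (s v) * MvPolynomial.X v)).comp (MvPolynomial.map Polynomial.C)
  have hF1C : ∀ l i j, F1 (MvPolynomial.C (MvPolynomial.X (l, i, j))) =
      (if l = none then MvPolynomial.C Polynomial.X else 1) *
        MvPolynomial.C (Polynomial.C (MvPolynomial.X (l, i, j))) := fun l i j => by
    simp only [F1, MvPolynomial.map_C, ySub, MvPolynomial.coe_eval₂Hom, MvPolynomial.eval₂_X,
      map_mul]
    split_ifs
    · rfl
    · rw [map_one]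
  have hF1X : ∀ v, F1 (MvPolynomial.X v) = MvPolynomial.X v := fun v => MvPolynomial.map_X _ _
  have hF2C : ∀ l i j, F2 (MvPolynomial.C (MvPolynomial.X (l, i, j))) =
      MvPolynomial.C (Polynomial.C (MvPolynomial.X (l, i, j))) := fun l i j => by
    simp only [F2, RingHom.comp_apply, MvPolynomial.map_C, MvPolynomial.coe_eval₂Hom,
      MvPolynomial.eval₂_C]
  have hF2X : ∀ a b, F2 (MvPolynomial.X (a, b)) =
      (if b = none then MvPolynomial.C Polynomial.X else 1) *
        MvPolynomial.X (a, b) := fun a b => by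
    simp only [F2, RingHom.comp_apply, MvPolynomial.map_X, MvPolynomial.coe_eval₂Hom,
      MvPolynomial.eval₂_X, s]
    split_ifs
    · rfl
    · rw [map_one]
  have h : F1 (theta X k n) = F2 (theta X k n) := by
    have e1 := F6_hom (R' := MvPolynomial (Option (X × Fin n) × Option (X × Fin n))
      (Polynomial (CO X k))) F1
    have e2 := F6_hom (R' := MvPolynomial (Option (X × Fin n) × Option (X × Fin n))
      (Polynomial (CO X k))) F2
    simp only [hF1C, hF1X] at e1
    simp only [hF2C, hF2X] at e2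
    rw [e1, e2]
    have e3 := F6_bigN_scale (X := X) (k := k) (n := n)
      (R := MvPolynomial (Option (X × Fin n) × Option (X × Fin n)) (Polynomial (CO X k)))
      (MvPolynomial.C Polynomial.X)
      (fun l => Matrix.of fun i j => MvPolynomial.C (Polynomial.C (MvPolynomial.X (l, i, j))))
      (Matrix.of fun a b => MvPolynomial.X (a, b))
    exact congrArg (fun M => (1 + M).det) e3
  have h1 := congrArg (MvPolynomial.coeff ξ) h
  have h2 : MvPolynomial.coeff ξ (F1 (theta X k n)) = ySub X k (thetaXi X k n ξ) :=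
    MvPolynomial.coeff_map _ _ _
  have h3 : MvPolynomial.coeff ξ (F2 (theta X k n)) =
      (ξ.prod fun v e => s v ^ e) * Polynomial.C (thetaXi X k n ξ) := by
    simp only [F2, RingHom.comp_apply]
    rw [F6_scale, MvPolynomial.coeff_map]
    rfl
  rw [← h2, h1, h3]
  congr 1
  rw [Finsupp.prod_fintype _ _ (fun v => pow_zero _), Fintype.prod_prod_type,
    ← Finset.prod_pow_eq_pow_sum]
  refine Finset.prod_congr rfl fun a _ => ?_
  rw [Fintype.prod_option]
  simp [s]

/-- evaluation of the determinant over a commutative ring `R`: `x : CO X k → R` a ring homomorphism, `B` over `R` -/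
theorem eval_theta (k n : ℕ) {R : Type} [CommRing R] (f : CO X k →+* R)
    (B : Matrix (Option (X × Fin n)) (Option (X × Fin n)) R) :
    (1 + bigN (fun s => Matrix.of fun i j => f (MvPolynomial.X (s, i, j))) B).det =
      ∑ ξ ∈ (theta X k n).support, f (thetaXi X k n ξ) * evMon B ξ := by
  have h := F6_hom (X := X) (k := k) (n := n) (MvPolynomial.eval₂Hom f fun ab => B ab.1 ab.2)
  rw [MvPolynomial.coe_eval₂Hom, MvPolynomial.eval₂_eq] at h
  simp only [MvPolynomial.eval₂_C, MvPolynomial.eval₂_X] at h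
  have hB : (Matrix.of fun a b => B a b) = B := rfl
  rw [hB] at h
  rw [← h]
  rfl

variable {k : ℕ} {ι : Type} [Fintype ι] [DecidableEq ι]

/-- the functional `κ(e) = Σ_{ij} y_{ji} (coefMat e)_{ij}` -/
noncomputable def kap (X : Type) (p q : Fin k ↪ ι) (z : ι) :
    Module.End (CG X k) ((ι → Fin k) → CG X k) →+ CO X k where
  toFun e := ∑ i, ∑ j, MvPolynomial.X (none, j, i) *
    MvPolynomial.rename (fun v : X × Fin k × Fin k => (some v.1, v.2.1, v.2.2))
      (coefMat p q z e i j)
  map_zero' := by simp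
  map_add' u v := by simp [mul_add, Finset.sum_add_distrib]

end Pool.PI34.BA

end
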