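import Pool.Agent.LibPI54.M22
import Pool.Agent.LibPI54.M36

/-! ### part BA_F6b -/
section

/-! PI34, block BA, file F6b: identification of the `P_ξ` for generic matrices. -/

set_option autoImplicit false

namespace Pool.PI34.BA

open Equiv Finset Matrix
open scoped TensorProduct

variable {X : Type} [Fintype X] [DecidableEq X]
variable {k : ℕ} {ι : Type} [Fintype ι] [DecidableEq ι]

omit [Fintype X] [DecidableEq X] in
theorem F6b_evMon_map {n : ℕ} {R R' : Type} [CommRing R] [CommRing R'] (f : R →+* R')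
    (B : Matrix (Option (X × Fin n)) (Option (X × Fin n)) R) (ζ : Mon X n) :
    evMon (B.map f) ζ = f (evMon B ζ) := by
  unfold evMon Finsupp.prod
  rw [map_prod]
  exact Finset.prod_congr rfl fun ab _ => (map_pow f (B ab.1 ab.2) (ζ ab)).symm

omit [Fintype X] [DecidableEq X] in
theorem F6b_rowScale_map {n : ℕ} {R R' : Type} [CommRing R] [CommRing R'] (f : R →+* R') (t : R)
    (B : Matrix (Option (X × Fin n)) (Option (X × Fin n)) R) :
    rowScale (f t) (B.map f) = (rowScale t B).map f := by
  ext a b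
  simp only [rowScale, Matrix.of_apply, Matrix.map_apply]
  split_ifs
  · rfl
  · rw [map_mul]

/-- the number of rows different from `none` -/
def F6b_r {n : ℕ} (ζ : Mon X n) : ℕ := ∑ a : X × Fin n, ∑ b, ζ (some a, b)

omit [DecidableEq X] in
theorem F6b_evMon_rowScale {n : ℕ} {R : Type} [CommRing R] (t : R)
    (B : Matrix (Option (X × Fin n)) (Option (X × Fin n)) R) (ζ : Mon X n) :
    evMon (rowScale t B) ζ = t ^ F6b_r ζ * evMon B ζ := by
  classical
  unfold evMon
  rw [Finsupp.prod_fintype _ _ (fun v => pow_zero _), Finsupp.prod_fintype _ _ (fun v => pow_zero _),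
    Fintype.prod_prod_type, Fintype.prod_prod_type,
    Fintype.prod_option (fun a => ∏ b, rowScale t B a b ^ ζ (a, b)),
    Fintype.prod_option (fun a => ∏ b, B a b ^ ζ (a, b))]
  have h1 : ∀ a : X × Fin n, (∏ b, rowScale t B (some a) b ^ ζ (some a, b)) =
      t ^ (∑ b, ζ (some a, b)) * ∏ b, B (some a) b ^ ζ (some a, b) := fun a => by
    rw [← Finset.prod_pow_eq_pow_sum, ← Finset.prod_mul_distrib]
    refine Finset.prod_congr rfl fun b _ => ?_
    simp only [rowScale, Matrix.of_apply, reduceCtorEq, if_false, mul_pow]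
  have h2 : (∏ b, rowScale t B none b ^ ζ (none, b)) = ∏ b, B none b ^ ζ (none, b) := by
    refine Finset.prod_congr rfl fun b _ => ?_
    simp only [rowScale, Matrix.of_apply, if_true]
  simp only [h1, h2, F6b_r]
  rw [Finset.prod_mul_distrib, Finset.prod_pow_eq_pow_sum]
  ring

/-- the `λ`-linear part of the determinant -/
theorem F6b_lin {n : ℕ} {R : Type} [CommRing R] (t : R) (hn : IsNilpotent t) (f : CO X k →+* R)
    (B : Matrix (Option (X × Fin n)) (Option (X × Fin n)) R) :
    (1 + t • Matrix.comp _ _ (Fin k) (Fin k) R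
        (BX (fun a : X × Fin n => Matrix.of fun i j => f (MvPolynomial.X (some a.1, i, j)))
          (B.map (Matrix.scalar (Fin k))))).det *
      (qq (Matrix.scalar (Fin k) t)
        (fun a : X × Fin n => Matrix.of fun i j => f (MvPolynomial.X (some a.1, i, j)))
        (B.map (Matrix.scalar (Fin k))) *
          Matrix.of fun i j => f (MvPolynomial.X (none, i, j))).trace =
      ∑ ζ ∈ (theta X k n).support.filter (fun ζ => (∑ a, ζ (a, none)) = 1),
        f (thetaXi X k n ζ) * evMon (rowScale t B) ζ := by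
  let F : CO X k →+* Polynomial R := (Polynomial.mapRingHom f).comp (ySub X k)
  let φ : Matrix (Fin k) (Fin k) R →+* Matrix (Fin k) (Fin k) (Polynomial R) :=
    (Polynomial.C : R →+* _).mapMatrix
  let x : X × Fin n → Matrix (Fin k) (Fin k) R := fun a =>
    Matrix.of fun i j => f (MvPolynomial.X (some a.1, i, j))
  let y : Matrix (Fin k) (Fin k) R := Matrix.of fun i j => f (MvPolynomial.X (none, i, j))
  have hF : ∀ v, F (MvPolynomial.X v) =
      (if v.1 = none then Polynomial.X else 1) * Polynomial.C (f (MvPolynomial.X v)) := fun v => by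
    simp only [F, RingHom.comp_apply, ySub, MvPolynomial.coe_eval₂Hom, MvPolynomial.eval₂_X,
      map_mul, Polynomial.coe_mapRingHom, Polynomial.map_C]
    split_ifs
    · rw [Polynomial.map_X]
    · rw [Polynomial.map_one]
  have hFx : ∀ a : X × Fin n, (Matrix.of fun i j => F (MvPolynomial.X (some a.1, i, j))) =
      φ (x a) := fun a => by
    ext i j : 2
    rw [Matrix.of_apply, hF]
    simp only [reduceCtorEq, if_false, one_mul]
    rfl
  have hFy : (Matrix.of fun i j => F (MvPolynomial.X (none, i, j))) =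
      (Polynomial.X : Polynomial R) • φ y := by
    ext i j : 2
    rw [Matrix.of_apply, hF]
    simp only [if_true]
    rfl
  have hsc : ∀ b : R, φ (Matrix.scalar (Fin k) b) = Matrix.scalar (Fin k) (Polynomial.C b) :=
    fun b => by
    ext i j : 2
    by_cases hij : i = j
    · subst hij
      simp [φ, Matrix.scalar_apply]
    · simp [φ, Matrix.scalar_apply, Matrix.diagonal_apply_ne _ hij]
  have h1 := eval_theta (X := X) k n F (rowScale (Polynomial.C t) (B.map Polynomial.C))
  have h2 := det_bigN (X := X) (k := k) (n := n) (Polynomial.C t) (hn.map Polynomial.C)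
    (fun s => Matrix.of fun i j => F (MvPolynomial.X (s, i, j))) (B.map Polynomial.C)
  rw [h1] at h2
  have hB : (B.map Polynomial.C).map (Matrix.scalar (Fin k)) =
      (B.map (Matrix.scalar (Fin k))).map φ := by
    ext a b : 2
    rw [Matrix.map_apply, Matrix.map_apply, Matrix.map_apply, Matrix.map_apply, hsc]
  have hT : ∀ z, Matrix.scalar (Fin k) t * z = z * Matrix.scalar (Fin k) t := fun z =>
    (Matrix.scalar_commute t (fun r => mul_comm _ _) z).eq
  have hTn : IsNilpotent (Matrix.scalar (Fin k) t) := hn.map (Matrix.scalar (Fin k))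
  have hq : qq (Matrix.scalar (Fin k) (Polynomial.C t)) (fun a : X × Fin n => φ (x a))
      ((B.map Polynomial.C).map (Matrix.scalar (Fin k))) =
      φ (qq (Matrix.scalar (Fin k) t) x (B.map (Matrix.scalar (Fin k)))) := by
    rw [map_qq φ _ hT hTn, hB, hsc]
  have hd : (1 + Polynomial.C t • Matrix.comp _ _ (Fin k) (Fin k) _
        (BX (fun a : X × Fin n => φ (x a))
          ((B.map Polynomial.C).map (Matrix.scalar (Fin k))))).det =
      Polynomial.C (1 + t • Matrix.comp _ _ (Fin k) (Fin k) R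
        (BX x (B.map (Matrix.scalar (Fin k))))).det := by
    rw [RingHom.map_det, hB, ← C6_BX]
    congr 1
    ext ⟨a, i⟩ ⟨b, j⟩ : 2
    simp only [Matrix.add_apply, Matrix.smul_apply, RingHom.mapMatrix_apply, Matrix.map_apply,
      map_add, smul_eq_mul, map_mul, Matrix.comp_apply]
    congr 1
    by_cases h : (a, i) = (b, j)
    · rw [h, Matrix.one_apply_eq, Matrix.one_apply_eq, map_one]
      rfl
    · rw [Matrix.one_apply_ne h, Matrix.one_apply_ne h, map_zero]
      rfl
  simp only [hFx, hFy] at h2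
  rw [hd, hq, mul_smul_comm, ← map_mul] at h2
  have h3 := congrArg (fun P => Polynomial.coeff P 1) h2
  simp only [Polynomial.coeff_C_mul] at h3
  have h4 : (1 + (Polynomial.X : Polynomial R) •
      φ (qq (Matrix.scalar (Fin k) t) x (B.map (Matrix.scalar (Fin k))) * y)).det.coeff 1 =
      (qq (Matrix.scalar (Fin k) t) x (B.map (Matrix.scalar (Fin k))) * y).trace :=
    Matrix.coeff_det_one_add_X_smul_one _
  rw [h4] at h3
  rw [← h3, Polynomial.finsetSum_coeff, Finset.sum_filter]
  refine Finset.sum_congr rfl fun ζ _ => ?_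
  rw [F6b_rowScale_map, F6b_evMon_map]
  have h5 : F (thetaXi X k n ζ) =
      Polynomial.X ^ (∑ a, ζ (a, none)) * Polynomial.C (f (thetaXi X k n ζ)) := by
    simp only [F, RingHom.comp_apply, ySub_thetaXi, map_mul, map_pow, Polynomial.coe_mapRingHom,
      Polynomial.map_X, Polynomial.map_C]
  rw [h5, mul_assoc, ← Polynomial.C_mul, Polynomial.coeff_X_pow_mul']
  by_cases hc : (∑ a, ζ (a, none)) = 1
  · rw [hc, if_pos le_rfl, if_pos rfl, Nat.sub_self, Polynomial.coeff_C_zero]
  · rw [if_neg hc]
    split_ifs with hle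
    · rw [Polynomial.coeff_C, if_neg (by omega)]
    · rfl

/-- `κ` after base change -/
theorem F6b_kap (T : Type) [CommRing T] (p q : Fin k ↪ ι) (z : ι)
    (w : T ⊗[ℤ] Module.End (CG X k) ((ι → Fin k) → CG X k)) :
    (kap X p q z).toIntLinearMap.lTensor T w = ∑ i, ∑ j,
      ((1 : T) ⊗ₜ[ℤ] (MvPolynomial.X (none, j, i) : CO X k)) * D8_lmap T
        (MvPolynomial.rename (fun v : X × Fin k × Fin k => (some v.1, v.2.1, v.2.2)) :
          CG X k →ₐ[ℤ] CO X k).toRingHom
        (coefMat p q z (tensEnd T (CG X k) (ι → Fin k) w) i j) := by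
  simp only [coefMat_tensEnd]
  induction w using TensorProduct.induction_on with
  | zero => simp only [map_zero, mul_zero, Finset.sum_const_zero]
  | add u v hu hv => simp only [map_add, mul_add, Finset.sum_add_distrib, hu, hv]
  | tmul u e =>
    rw [LinearMap.lTensor_tmul]
    have h1 : (kap X p q z).toIntLinearMap e = ∑ i, ∑ j, MvPolynomial.X (none, j, i) *
      MvPolynomial.rename (fun v : X × Fin k × Fin k => (some v.1, v.2.1, v.2.2))
        (coefMat p q z e i j) := rfl
    rw [h1, TensorProduct.tmul_sum]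
    refine Finset.sum_congr rfl fun i _ => ?_
    rw [TensorProduct.tmul_sum]
    refine Finset.sum_congr rfl fun j _ => ?_
    rw [LinearMap.lTensor_tmul, D8_lmap_tmul, Algebra.TensorProduct.tmul_mul_tmul, one_mul]
    rfl

theorem F6b_tensMat_scalar (T C : Type) [CommRing T] [CommRing C] (b : T) :
    tensMat T C (Fin k) (b ⊗ₜ[ℤ] 1) = Matrix.scalar (Fin k) (b ⊗ₜ[ℤ] (1 : C)) := by
  ext i j
  rw [tensMat_tmul]
  by_cases hij : i = j
  · subst hij
    simp [Matrix.scalar_apply]
  · simp [Matrix.scalar_apply, Matrix.diagonal_apply_ne _ hij, Matrix.one_apply_ne hij]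

/-- the value of `κ` at `P(B)` -/
theorem F6b_PP {n : ℕ} (T : Type) [CommRing T] (p q : Fin k ↪ ι) (z : ι) (hF : Frame p q z)
    (t : T) (hn : IsNilpotent t) (B : Matrix (Option (X × Fin n)) (Option (X × Fin n)) T) :
    (kap X p q z).toIntLinearMap.lTensor T (((matStr k (CG X k) ι).base T).PP p q z (t ⊗ₜ 1)
      (fun a : X × Fin n => 1 ⊗ₜ gen X k a.1) (B.map fun b => b ⊗ₜ 1)) =
      ∑ ζ ∈ (theta X k n).support.filter (fun ζ => (∑ a, ζ (a, none)) = 1),
        (t ^ F6b_r ζ * evMon B ζ) ⊗ₜ[ℤ] thetaXi X k n ζ := by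
  let g : T ⊗[ℤ] CG X k →+* T ⊗[ℤ] CO X k := D8_lmap T
    (MvPolynomial.rename (fun v : X × Fin k × Fin k => (some v.1, v.2.1, v.2.2)) :
          CG X k →ₐ[ℤ] CO X k).toRingHom
  let inl : T →+* T ⊗[ℤ] CG X k := Algebra.TensorProduct.includeLeftRingHom
  let inl' : T →+* T ⊗[ℤ] CO X k := Algebra.TensorProduct.includeLeftRingHom
  let inr : CO X k →+* T ⊗[ℤ] CO X k :=
    (Algebra.TensorProduct.includeRight : CO X k →ₐ[ℤ] T ⊗[ℤ] CO X k).toRingHom
  have e1 := map_PP ((matStr k (CG X k) ι).base T) (matStr k (T ⊗[ℤ] CG X k) ι)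
    (tensMat T (CG X k) (Fin k)) (tensEnd T (CG X k) (ι → Fin k))
    (fun i a => tensEnd_rho T (CG X k) i a) (fun σ => tensEnd_s T (CG X k) σ) p q z
    (t ⊗ₜ[ℤ] 1) (fun y => tmul_one_comm T t y) (isNilpotent_tmul_one T t hn)
    (fun a : X × Fin n => 1 ⊗ₜ gen X k a.1) (B.map fun b => b ⊗ₜ 1)
  have hx : (fun a : X × Fin n => tensMat T (CG X k) (Fin k) (1 ⊗ₜ gen X k a.1)) =
      fun a => Matrix.of fun i j => (1 : T) ⊗ₜ[ℤ] (MvPolynomial.X (a.1, i, j) : CG X k) := by
    funext a
    ext i j
    rw [tensMat_tmul]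
    rfl
  have hB : (B.map fun b => b ⊗ₜ[ℤ] (1 : Matrix (Fin k) (Fin k) (CG X k))).map
      (tensMat T (CG X k) (Fin k)) = (B.map inl).map (Matrix.scalar (Fin k)) := by
    ext a b : 2
    rw [Matrix.map_apply, Matrix.map_apply, Matrix.map_apply, Matrix.map_apply,
      F6b_tensMat_scalar]
    rfl
  rw [F6b_tensMat_scalar, hx, hB] at e1
  have hn' : IsNilpotent (t ⊗ₜ[ℤ] (1 : CG X k)) := isNilpotent_tmul_one T t hn
  have e2 := coefMat_PP p q z hF (t ⊗ₜ[ℤ] (1 : CG X k)) hn'
    (fun a : X × Fin n => Matrix.of fun i j => (1 : T) ⊗ₜ[ℤ] (MvPolynomial.X (a.1, i, j) : CG X k))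
    ((B.map inl).map (Matrix.scalar (Fin k)))
  rw [F6b_kap, e1, e2]
  have e3 := F6b_lin (X := X) (k := k) (n := n) (inl' t) (hn.map inl') inr (B.map inl')
  obtain ⟨x0, hx0⟩ : ∃ x0 : X × Fin n → Matrix (Fin k) (Fin k) (T ⊗[ℤ] CG X k), x0 = fun a =>
    Matrix.of fun i j => (1 : T) ⊗ₜ[ℤ] (MvPolynomial.X (a.1, i, j) : CG X k) := ⟨_, rfl⟩
  rw [← hx0]
  let φ : Matrix (Fin k) (Fin k) (T ⊗[ℤ] CG X k) →+* Matrix (Fin k) (Fin k) (T ⊗[ℤ] CO X k) :=
    g.mapMatrix
  have hg1 : ∀ b : T, g (inl b) = inl' b := fun b => by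
    change D8_lmap T _ (b ⊗ₜ[ℤ] (1 : CG X k)) = b ⊗ₜ[ℤ] (1 : CO X k)
    rw [D8_lmap_tmul, map_one]
  have hφs : ∀ r, φ (Matrix.scalar (Fin k) r) = Matrix.scalar (Fin k) (g r) := fun r => by
    refine Matrix.ext fun i j => ?_
    by_cases hij : i = j
    · subst hij
      simp [φ, Matrix.scalar_apply]
    · simp [φ, Matrix.scalar_apply, Matrix.diagonal_apply_ne _ hij]
  have hφx : ∀ a : X × Fin n, φ (x0 a) =
      Matrix.of fun i j => inr (MvPolynomial.X (some a.1, i, j)) := fun a => by
    refine Matrix.ext fun i j => ?_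
    rw [hx0]
    change D8_lmap T _ ((1 : T) ⊗ₜ[ℤ] (MvPolynomial.X (a.1, i, j) : CG X k)) =
      (1 : T) ⊗ₜ[ℤ] (MvPolynomial.X (some a.1, i, j) : CO X k)
    rw [D8_lmap_tmul]
    congr 1
    exact MvPolynomial.rename_X _ _
  have hBm : ((B.map inl).map (Matrix.scalar (Fin k))).map φ =
      (B.map inl').map (Matrix.scalar (Fin k)) := by
    ext a b : 2
    rw [Matrix.map_apply, Matrix.map_apply, Matrix.map_apply, Matrix.map_apply, Matrix.map_apply,
      hφs, hg1]
  have hTc : ∀ y, Matrix.scalar (Fin k) (inl t) * y = y * Matrix.scalar (Fin k) (inl t) := fun y =>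
    (Matrix.scalar_commute (inl t) (fun r => mul_comm _ _) y).eq
  have hTn : IsNilpotent (Matrix.scalar (Fin k) (inl t)) := (hn.map inl).map (Matrix.scalar (Fin k))
  have hQ : φ (qq (Matrix.scalar (Fin k) (inl t)) x0 ((B.map inl).map (Matrix.scalar (Fin k)))) =
      qq (Matrix.scalar (Fin k) (inl' t))
        (fun a => Matrix.of fun i j => inr (MvPolynomial.X (some a.1, i, j)))
        ((B.map inl').map (Matrix.scalar (Fin k))) := by
    rw [map_qq φ _ hTc hTn, hBm, hφs, hg1]
    simp only [hφx]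
  have hd : g (1 + inl t • Matrix.comp _ _ (Fin k) (Fin k) _
        (BX x0 ((B.map inl).map (Matrix.scalar (Fin k))))).det =
      (1 + inl' t • Matrix.comp _ _ (Fin k) (Fin k) _
        (BX (fun a => Matrix.of fun i j => inr (MvPolynomial.X (some a.1, i, j)))
          ((B.map inl').map (Matrix.scalar (Fin k))))).det := by
    rw [RingHom.map_det, ← hBm]
    simp only [← hφx]
    rw [← C6_BX]
    congr 1
    refine Matrix.ext fun u v => ?_
    obtain ⟨a, i⟩ := u
    obtain ⟨b, j⟩ := v
    simp only [Matrix.add_apply, Matrix.smul_apply, RingHom.mapMatrix_apply, Matrix.map_apply,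
      map_add, smul_eq_mul, map_mul, Matrix.comp_apply, hg1]
    congr 1
    by_cases h : (a, i) = (b, j)
    · rw [h, Matrix.one_apply_eq, Matrix.one_apply_eq, map_one]
    · rw [Matrix.one_apply_ne h, Matrix.one_apply_ne h, map_zero]
  rw [← hd, ← hQ] at e3
  have e4 : ∀ ζ : Mon X n, inr (thetaXi X k n ζ) * evMon (rowScale (inl' t) (B.map inl')) ζ =
      (t ^ F6b_r ζ * evMon B ζ) ⊗ₜ[ℤ] thetaXi X k n ζ := fun ζ => by
    rw [F6b_evMon_rowScale, F6b_evMon_map, ← map_pow, ← map_mul]
    change ((1 : T) ⊗ₜ[ℤ] thetaXi X k n ζ) * ((t ^ F6b_r ζ * evMon B ζ) ⊗ₜ[ℤ] (1 : CO X k)) = _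
    rw [Algebra.TensorProduct.tmul_mul_tmul, one_mul, mul_one]
  simp only [e4] at e3
  rw [← e3]
  simp only [Matrix.smul_apply, smul_eq_mul, map_mul]
  unfold Matrix.trace
  rw [Finset.mul_sum]
  refine Finset.sum_congr rfl fun i _ => ?_
  rw [Matrix.diag_apply, Matrix.mul_apply, Finset.mul_sum]
  refine Finset.sum_congr rfl fun j _ => ?_
  rw [Matrix.of_apply]
  have key : ∀ a d q' : T ⊗[ℤ] CO X k, a * (d * q') = d * (q' * a) := fun a d q' => by ring
  exact key _ _ _

omit [Fintype X] [DecidableEq X] in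
open Classical in
theorem F6b_coeffsW_tmul {n : ℕ} {W : Type} [AddCommGroup W] (a : TU X n) (w : W) (ξ : Mon X n) :
    coeffsW X n W (a ⊗ₜ w) ξ = MvPolynomial.coeff ξ a • w := by
  have h := TensorProduct.equivFinsuppOfBasisLeft_apply_tmul_apply (N := W)
    (MvPolynomial.basisMonomials (Option (X × Fin n) × Option (X × Fin n)) ℤ) a w ξ
  exact h

theorem F6b_coeffsW {n : ℕ} {W W' : Type} [AddCommGroup W] [AddCommGroup W'] (f : W →+ W')
    (y : TU X n ⊗[ℤ] W) (ξ : Mon X n) :
    coeffsW X n W' (f.toIntLinearMap.lTensor (TU X n) y) ξ = f (coeffsW X n W y ξ) := by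
  induction y using TensorProduct.induction_on with
  | zero => simp only [map_zero, Finsupp.coe_zero, Pi.zero_apply]
  | add u v hu hv => simp only [map_add, Finsupp.coe_add, Pi.add_apply, hu, hv]
  | tmul u w =>
    rw [LinearMap.lTensor_tmul, F6b_coeffsW_tmul, F6b_coeffsW_tmul, map_zsmul]
    rfl

theorem F6b_tcoef {T : Type} [CommRing T] (n r : ℕ) (m : T) :
    tcoef T n (tt T n ^ r * inT T n m) = if r = n then m else 0 := by
  have h : tt T n ^ r * inT T n m =
      Ideal.Quotient.mk _ ((Polynomial.X : Polynomial T) ^ r * Polynomial.C m) := by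
    rw [map_mul, map_pow]
    rfl
  rw [h, tcoef_mk, Polynomial.coeff_X_pow_mul']
  by_cases hr : r = n
  · rw [hr, if_pos le_rfl, if_pos rfl, Nat.sub_self, Polynomial.coeff_C_zero]
  · rw [if_neg hr]
    split_ifs with hle
    · rw [Polynomial.coeff_C, if_neg (by omega)]
    · rfl

/-- IDENTIFICATION.  `κ(P_ξ) = Θ_ξ` for good `ξ`.
PROOF.  `T = TU X n`, `B = BU X n`, `T' = Trunc T n`, `R = T' ⊗ CO X k`.  By `coefMat_PP`, `tensEnd_*`, `map_PP`:
`(id ⊗ κ)(PP) = det(1 + tN) tr(q y)` in `R`.  By `det_bigN`: `det(1 + bigN (rowScale t B)) = det(1 + tN) det(1 + q y)`;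
the `λ`-linear part after `y ↦ λ y` is `det(1 + tN) tr(q y)` (`Matrix.coeff_det_one_add_X_smul_one`).
By `eval_theta` the left side is `Σ_ξ t^{#rows ≠ none} B^ξ ⊗ Θ_ξ`, and by `ySub_thetaXi` its `λ`-linear part is the sum
over the `ξ` of degree one in the column `none`.  Compare the coefficients of `t^n B^ξ`. -/
theorem kap_Pxi (p q : Fin k ↪ ι) (z : ι) (hF : Frame p q z) (n : ℕ) (ξ : Mon X n)
    (hξ : GoodMon ξ) :
    kap X p q z (Pxi (matStr k (CG X k) ι) p q z (gen X k) n ξ) = thetaXi X k n ξ := by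
  classical
  unfold Pxi
  rw [← F6b_coeffsW]
  unfold PB
  rw [← LinearMap.comp_apply, LinearMap.lTensor_comp_rTensor, ← LinearMap.rTensor_comp_lTensor,
    LinearMap.comp_apply]
  have hB : ((BU X n).map fun b => inT (TU X n) n b ⊗ₜ[ℤ] (1 : Matrix (Fin k) (Fin k) (CG X k))) =
      ((BU X n).map (inT (TU X n) n)).map fun b => b ⊗ₜ 1 := rfl
  rw [hB, F6b_PP (Trunc (TU X n) n) p q z hF (tt (TU X n) n) (isNilpotent_tt _ n)
    ((BU X n).map (inT (TU X n) n)), map_sum, map_sum, Finsupp.finsetSum_apply]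
  have hc : (∑ a, ξ (a, none)) = 1 := hξ.2.2
  have hr : F6b_r ξ = n := by
    have h1 : (ξ.sum fun _ e => e) = n + 1 := hξ.1
    have h2 : (∑ b, ξ (none, b)) = 1 := hξ.2.1
    rw [Finsupp.sum_fintype _ _ (fun _ => rfl), Fintype.sum_prod_type,
      Fintype.sum_option (fun a => ∑ b, ξ (a, b)), h2] at h1
    unfold F6b_r
    omega
  have hterm : ∀ ζ : Mon X n, coeffsW X n (CO X k)
      ((tcoef (TU X n) n).toIntLinearMap.rTensor (CO X k)
        ((tt (TU X n) n ^ F6b_r ζ * evMon ((BU X n).map (inT (TU X n) n)) ζ) ⊗ₜ[ℤ]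
          thetaXi X k n ζ)) ξ = if ζ = ξ then thetaXi X k n ξ else 0 := fun ζ => by
    rw [LinearMap.rTensor_tmul, F6b_evMon_map, F6b_coeffsW_tmul]
    have h1 : (tcoef (TU X n) n).toIntLinearMap
        (tt (TU X n) n ^ F6b_r ζ * inT (TU X n) n (evMon (BU X n) ζ)) =
        if F6b_r ζ = n then evMon (BU X n) ζ else 0 := F6b_tcoef n _ _
    have h2 : evMon (BU X n) ζ = MvPolynomial.monomial ζ 1 := by
      rw [MvPolynomial.monomial_eq, MvPolynomial.C_1, one_mul]
      rfl
    rw [h1, h2]
    by_cases h : ζ = ξ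
    · subst h
      rw [if_pos hr, if_pos rfl, MvPolynomial.coeff_monomial, if_pos rfl, one_smul]
    · rw [if_neg h]
      split_ifs
      · rw [MvPolynomial.coeff_monomial, if_neg h, zero_smul]
      · rw [MvPolynomial.coeff_zero, zero_smul]
  simp only [hterm]
  rw [Finset.sum_ite_eq' _ ξ (fun _ => thetaXi X k n ξ)]
  split_ifs with hmem
  · rfl
  · symm
    by_contra hne
    apply hmem
    rw [Finset.mem_filter, MvPolynomial.mem_support_iff]
    exact ⟨hne, hc⟩

end Pool.PI34.BA

end

/-! ### part BA_F7 -/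
section

/-! PI34, block BA, file F7: from the generation statement (GEN) to the rank bound. -/

set_option autoImplicit false

namespace Pool.PI34.BA

open Equiv Finset Matrix

/-- the coefficient of the monomial `η` (in the entries of the generic matrices) of the determinant, as a polynomial in
`B` over `K` -/
noncomputable def thetaK (X : Type) [Fintype X] [DecidableEq X] (k n : ℕ) (K : Type) [Field K]
    (η : Option X × Fin k × Fin k →₀ ℕ) :
    MvPolynomial (Option (X × Fin n) × Option (X × Fin n)) K :=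
  ∑ ξ ∈ (theta X k n).support,
    MvPolynomial.monomial ξ (((thetaXi X k n ξ).coeff η : ℤ) : K)

/-- (GEN) the generation statement (helper28): `F_k(K)` is contained in the span of the coefficients of
`det (1 + [B_ab (x_{l(b)})_{ij}])`. -/
def GEN (X : Type) [Fintype X] [DecidableEq X] (k n : ℕ) : Prop :=
  ∀ (K : Type) [Field K] [Infinite K],
    FF X k n K ≤ Submodule.span K (Set.range (thetaK X k n K))

/-- linear algebra: let `v : Ξ → H → ℤ` be a family (`Ξ`, `H` finite); the `K`-span of the columns has dimension at most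
the rank of the `ℤ`-span of the rows.  (a basis `b` of the span of the rows: `v_ξ = Σ_i a_{ξ i} b_i`, so all the columns
are in the span of the vectors `(a_{ξ i})_ξ`.) -/
theorem finrank_columns_le {Ξ H : Type} [Fintype Ξ] [Fintype H] (v : Ξ → H → ℤ) (K : Type)
    [Field K] :
    Module.finrank K (Submodule.span K (Set.range fun (η : H) (ξ : Ξ) => ((v ξ η : ℤ) : K))) ≤
      Module.finrank ℤ (Submodule.span ℤ (Set.range v)) := by
  classical
  set L := Submodule.span ℤ (Set.range v) with hL
  let b := Module.finBasis ℤ L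
  have hv : ∀ ξ, v ξ ∈ L := fun ξ => Submodule.subset_span ⟨ξ, rfl⟩
  let a : Ξ → Fin (Module.finrank ℤ L) → ℤ := fun ξ i => b.repr ⟨v ξ, hv ξ⟩ i
  have h1 : ∀ ξ η, v ξ η = ∑ i, a ξ i * (b i : H → ℤ) η := by
    intro ξ η
    have h2 := b.sum_repr ⟨v ξ, hv ξ⟩
    have h3 := congrArg (fun y : L => (y : H → ℤ) η) h2
    simp only [AddSubmonoidClass.coe_finsetSum, Finset.sum_apply, Submodule.coe_smul,
      Pi.smul_apply, smul_eq_mul] at h3
    exact h3.symm
  have h2 : Submodule.span K (Set.range fun (η : H) (ξ : Ξ) => ((v ξ η : ℤ) : K)) ≤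
      Submodule.span K (Set.range fun (i : Fin (Module.finrank ℤ L)) (ξ : Ξ) =>
        ((a ξ i : ℤ) : K)) := by
    rw [Submodule.span_le]
    rintro _ ⟨η, rfl⟩
    have h3 : (fun ξ => ((v ξ η : ℤ) : K)) =
        ∑ i, (((b i : H → ℤ) η : ℤ) : K) • fun ξ => ((a ξ i : ℤ) : K) := by
      funext ξ
      rw [Finset.sum_apply, h1 ξ η]
      push_cast
      refine Finset.sum_congr rfl fun i _ => ?_
      rw [Pi.smul_apply, smul_eq_mul, mul_comm]
    show (fun ξ => ((v ξ η : ℤ) : K)) ∈ _
    rw [h3]
    exact Submodule.sum_mem _ fun i _ => Submodule.smul_mem _ _ (Submodule.subset_span ⟨i, rfl⟩)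
  refine le_trans (Submodule.finrank_mono h2) ?_
  refine le_trans (finrank_range_le_card _) ?_
  rw [Fintype.card_fin]

theorem finite_goodMon (X : Type) [Fintype X] (n : ℕ) : {ξ : Mon X n | GoodMon ξ}.Finite := by
  classical
  refine Set.Finite.subset (Finset.finsuppAntidiag
    (univ : Finset (Option (X × Fin n) × Option (X × Fin n))) (n + 1)).finite_toSet ?_
  intro ξ hξ
  rw [Finset.mem_coe, Finset.mem_finsuppAntidiag]
  refine ⟨?_, Finset.subset_univ _⟩
  have h1 := hξ.1
  rw [Finsupp.sum_fintype _ _ (fun _ => rfl)] at h1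
  exact h1

/-- PROOF.  `FF → K^{good}`, `f ↦ (coeff ξ f)_{ξ good}` is injective; by (GEN) its image is in the span of the columns of the
integer matrix `((Θ_ξ)_η)_{ξ good, η}`; `finrank_columns_le`; the rows are the `Θ_ξ = κ(P_ξ)` (`kap_Pxi`), so their span
is the image of the span of the `P_ξ` under `κ`. -/
theorem rankBound_of_GEN {X : Type} [Fintype X] [DecidableEq X] {k n : ℕ} {ι : Type} [Fintype ι]
    [DecidableEq ι] (p q : Fin k ↪ ι) (z : ι) (hF : Frame p q z) (h : GEN X k n) :
    RankBound X k n p q z := by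
  classical
  intro K _ _
  haveI hfin : Fintype {ξ : Mon X n // GoodMon ξ} := (finite_goodMon X n).fintype
  set Ξ := {ξ : Mon X n // GoodMon ξ} with hΞ
  set Hf : Finset (Option X × Fin k × Fin k →₀ ℕ) :=
    (univ : Finset Ξ).biUnion fun ξ => (thetaXi X k n ξ.1).support with hHf
  set v : Ξ → Hf → ℤ := fun ξ η => (thetaXi X k n ξ.1).coeff η.1 with hv
  -- restriction to the good coefficients
  let R : MvPolynomial (Option (X × Fin n) × Option (X × Fin n)) K →ₗ[K] (Ξ → K) :=
    LinearMap.pi fun ξ => MvPolynomial.lcoeff K ξ.1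
  have hR : ∀ f ξ, R f ξ = f.coeff ξ.1 := fun f ξ => rfl
  have hth : ∀ η (ξ : Ξ), R (thetaK X k n K η) ξ = (((thetaXi X k n ξ.1).coeff η : ℤ) : K) := by
    intro η ξ
    rw [hR]
    unfold thetaK
    rw [MvPolynomial.coeff_sum]
    simp only [MvPolynomial.coeff_monomial]
    rw [Finset.sum_ite_eq' (theta X k n).support ξ.1]
    split_ifs with h1
    · rfl
    · have h2 : thetaXi X k n ξ.1 = 0 := by
        rw [MvPolynomial.notMem_support_iff] at h1
        exact h1
      rw [h2, MvPolynomial.coeff_zero, Int.cast_zero]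
  have h1 : Module.finrank K (FF X k n K) ≤
      Module.finrank K (Submodule.span K
        (Set.range fun (η : Hf) (ξ : Ξ) => ((v ξ η : ℤ) : K))) := by
    have h2 : (FF X k n K).map R ≤ Submodule.span K
        (Set.range fun (η : Hf) (ξ : Ξ) => ((v ξ η : ℤ) : K)) := by
      refine le_trans (Submodule.map_mono (h K)) ?_
      rw [Submodule.map_span, Submodule.span_le]
      rintro _ ⟨_, ⟨η, rfl⟩, rfl⟩
      by_cases hη : η ∈ Hf
      · refine Submodule.subset_span ⟨⟨η, hη⟩, ?_⟩
        funext ξ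
        rw [hth]
      · have h3 : R (thetaK X k n K η) = 0 := by
          funext ξ
          rw [hth]
          have h4 : (thetaXi X k n ξ.1).coeff η = 0 := by
            rw [← MvPolynomial.notMem_support_iff]
            intro h5
            apply hη
            rw [hHf, Finset.mem_biUnion]
            exact ⟨ξ, mem_univ _, h5⟩
          rw [h4, Int.cast_zero]
          rfl
        rw [h3]
        exact Submodule.zero_mem _
    have hinj : Function.Injective (R.domRestrict (FF X k n K)) := by
      rw [injective_iff_map_eq_zero]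
      rintro ⟨f, hf⟩ h0
      have h3 : ∀ ξ : Ξ, f.coeff ξ.1 = 0 := fun ξ => congrFun h0 ξ
      apply Subtype.ext
      show f = 0
      ext ξ
      rw [MvPolynomial.coeff_zero]
      by_contra hne
      exact hne (h3 ⟨ξ, hf.1 ξ hne⟩)
    have h4 : Module.finrank K (FF X k n K) = Module.finrank K ((FF X k n K).map R) := by
      have h5 := LinearMap.finrank_range_of_inj hinj
      rw [← h5, LinearMap.range_domRestrict]
    rw [h4]
    exact Submodule.finrank_mono h2
  refine le_trans h1 (le_trans (finrank_columns_le v K) ?_)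
  -- the rows
  let Lam : Module.End (CG X k) ((ι → Fin k) → CG X k) →ₗ[ℤ] (Hf → ℤ) :=
    LinearMap.pi fun η => (MvPolynomial.lcoeff ℤ η.1 : CO X k →ₗ[ℤ] ℤ) ∘ₗ
      (kap X p q z).toIntLinearMap
  have hLam : ∀ (ξ : Ξ), Lam (Pxi (matStr k (CG X k) ι) p q z (gen X k) n ξ.1) = v ξ := by
    intro ξ
    funext η
    show (kap X p q z (Pxi (matStr k (CG X k) ι) p q z (gen X k) n ξ.1)).coeff η.1 = v ξ η
    rw [kap_Pxi p q z hF n ξ.1 ξ.2]
  have h6 : Submodule.span ℤ (Set.range v) ≤ (Submodule.span ℤ (Set.range fun ξ =>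
      Pxi (matStr k (CG X k) ι) p q z (gen X k) n ξ)).map Lam := by
    rw [Submodule.span_le]
    rintro _ ⟨ξ, rfl⟩
    exact ⟨_, Submodule.subset_span ⟨ξ.1, rfl⟩, hLam ξ⟩
  haveI hfg : Module.Finite ℤ (Submodule.span ℤ (Set.range fun ξ =>
      Pxi (matStr k (CG X k) ι) p q z (gen X k) n ξ)) :=
    Module.Finite.iff_fg.2 (Submodule.fg_span (Finsupp.finite_range _))
  exact le_trans (Submodule.finrank_mono h6) (Submodule.finrank_map_le _ _)

end Pool.PI34.BA

end

/-! ### part GD_6 -/
section

/-! PI34, block A5 (GEN), part D, file 6: (CD) implies (GEN). -/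

set_option autoImplicit false

namespace Pool.PI34.GD

open Equiv Finset Matrix Pool.PI34.BA

variable {X : Type} [Fintype X] [DecidableEq X] {k n : ℕ}

/-- the colour of an index -/
def col {X : Type} {n : ℕ} (a : Option (X × Fin n)) : Option X := a.map Prod.fst

/-- the statement (CD) delivered by helper28 -/
def CD (X : Type) [Fintype X] [DecidableEq X] (k n : ℕ) (K : Type) [Field K] : Prop :=
  ∀ f ∈ FF X k n K, ∃ Th : (Fin k × Option (X × Fin n) → Option (Option (X × Fin n))) → K,
    AltC Th ∧ LI col Th ∧ ∀ B, evF K f B = fT Th (fun _ => B)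

theorem evF_monomial {K : Type} [Field K] (ξ : Mon X n) (a : K)
    (B : Matrix (Option (X × Fin n)) (Option (X × Fin n)) K) :
    evF K (MvPolynomial.monomial ξ a) B = a * evMon B ξ := by
  rw [evF, MvPolynomial.aeval_monomial]
  rfl

/-- the value of `thetaK` at `B` is the coefficient of the generic determinant
(the index sets `Fin k × A` and `A × Fin k` are exchanged) -/
theorem evF_thetaK (K : Type) [Field K] (η : Option X × Fin k × Fin k →₀ ℕ)
    (B : Matrix (Option (X × Fin n)) (Option (X × Fin n)) K) :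
    evF K (thetaK X k n K η) B =
      ((1 + MX col (genX (Option X) k K) (fun _ => B.map MvPolynomial.C)).det).coeff η := by
  have h1 : evF K (thetaK X k n K η) B =
      ∑ ξ ∈ (theta X k n).support, (((thetaXi X k n ξ).coeff η : ℤ) : K) * evMon B ξ := by
    rw [thetaK, evF, map_sum]
    exact Finset.sum_congr rfl fun ξ _ => evF_monomial ξ _ B
  have h2 : (1 + MX col (genX (Option X) k K) (fun _ => B.map MvPolynomial.C)).det =
      (1 + bigN (fun s => Matrix.of fun i j =>
        (MvPolynomial.map (Int.castRingHom K) : CO X k →+* _) (MvPolynomial.X (s, i, j)))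
        (B.map (MvPolynomial.C : K →+* MvPolynomial (Option X × Fin k × Fin k) K))).det := by
    rw [← Matrix.det_submatrix_equiv_self (Equiv.prodComm (Fin k) (Option (X × Fin n)))]
    congr 1
    ext1 ⟨r, a⟩ ⟨t, b⟩
    simp only [Matrix.submatrix_apply, Matrix.add_apply, Equiv.prodComm_apply, Prod.swap_prod_mk,
      MX, bigN, genX, Matrix.of_apply, MvPolynomial.map_X]
    congr 1
    simp only [Matrix.one_apply, Prod.mk.injEq]
    exact if_congr (and_comm) rfl rfl
  rw [h1, h2, eval_theta, MvPolynomial.coeff_sum]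
  refine Finset.sum_congr rfl fun ξ _ => ?_
  rw [F6b_evMon_map, mul_comm (MvPolynomial.map _ _), MvPolynomial.coeff_C_mul, MvPolynomial.coeff_map,
    mul_comm]
  rfl

/-- the column content of a monomial -/
def wt (ξ : Mon X n) (s : Option X) : ℕ :=
  ∑ ab : Option (X × Fin n) × Option (X × Fin n), if col ab.2 = s then ξ ab else 0

theorem wt_none (ξ : Mon X n) : wt ξ none = ∑ a, ξ (a, none) := by
  rw [wt, Fintype.sum_prod_type]
  refine Finset.sum_congr rfl fun a _ => ?_
  rw [Fintype.sum_option]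
  simp [col]

theorem sum_wt (ξ : Mon X n) : ∑ s, wt ξ s = ξ.sum fun _ e => e := by
  simp only [wt]
  rw [Finset.sum_comm, Finsupp.sum_fintype _ _ (fun _ => rfl)]
  refine Finset.sum_congr rfl fun ab _ => ?_
  rw [Finset.sum_ite_eq]
  simp

theorem wt_good (ξ : Mon X n) (h : GoodMon ξ) :
    wt ξ none = 1 ∧ ∑ s, wt ξ (some s) = n := by
  have h1 : wt ξ none = 1 := by rw [wt_none]; exact h.2.2
  refine ⟨h1, ?_⟩
  have h2 := sum_wt ξ
  rw [h.1, Fintype.sum_option, h1] at h2
  omega

theorem evMon_scale {K : Type} [Field K] (ξ : Mon X n)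
    (B : Matrix (Option (X × Fin n)) (Option (X × Fin n)) K) (z : Option X → K) :
    evMon (B * Matrix.diagonal fun b => z (col b)) ξ = (∏ s, z s ^ wt ξ s) * evMon B ξ := by
  unfold evMon
  rw [Finsupp.prod_fintype _ _ (fun v => pow_zero _), Finsupp.prod_fintype _ _ (fun v => pow_zero _)]
  have h1 : ∏ s, z s ^ wt ξ s =
      ∏ ab : Option (X × Fin n) × Option (X × Fin n), z (col ab.2) ^ ξ ab := by
    simp only [wt, ← Finset.prod_pow_eq_pow_sum]
    rw [Finset.prod_comm]
    refine Finset.prod_congr rfl fun ab _ => ?_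
    rw [Finset.prod_eq_single (col ab.2)]
    · rw [if_pos rfl]
    · intro s _ hs
      rw [if_neg (Ne.symm hs), pow_zero]
    · intro h
      exact absurd (Finset.mem_univ _) h
  rw [h1, ← Finset.prod_mul_distrib]
  refine Finset.prod_congr rfl fun ab _ => ?_
  rw [Matrix.mul_diagonal, mul_pow, mul_comm]

/-- contents which occur in `f`: `f(B diag(z_c))` has only monomials `z^d` with `d none = 1`, `Σ_s d (some s) = n`
(`GoodMon`), so the other homogeneous parts of `Th` vanish on the diagonal `(B, …, B)` -/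
theorem fT_eq_sum_good {K : Type} [Field K] [Infinite K]
    (f : MvPolynomial (Option (X × Fin n) × Option (X × Fin n)) K) (hf : f ∈ FF X k n K)
    (Th : (Fin k × Option (X × Fin n) → Option (Option (X × Fin n))) → K)
    (h : ∀ B, evF K f B = fT Th (fun _ => B)) (d : Option X → ℕ)
    (hd : ¬ (d none = 1 ∧ ∑ s, d (some s) = n))
    (B : Matrix (Option (X × Fin n)) (Option (X × Fin n)) K) :
    fT (hom col d Th) (fun _ => B) = 0 := by
  classical
  let P : MvPolynomial (Option X) K :=
    ∑ ψ : Fin k × Option (X × Fin n) → Option (Option (X × Fin n)),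
      MvPolynomial.monomial (Finsupp.equivFunOnFinite.symm (ct col ψ)) (Th ψ * mm ψ (fun _ => B))
  let Q : MvPolynomial (Option X) K :=
    ∑ ξ ∈ f.support,
      MvPolynomial.monomial (Finsupp.equivFunOnFinite.symm (wt ξ)) (f.coeff ξ * evMon B ξ)
  have hmon : ∀ (w : Option X → ℕ) (a : K) (z : Option X → K),
      MvPolynomial.eval z (MvPolynomial.monomial (Finsupp.equivFunOnFinite.symm w) a) =
        (∏ s, z s ^ w s) * a := by
    intro w a z
    rw [MvPolynomial.eval_monomial, Finsupp.prod_fintype _ _ (fun _ => pow_zero _), mul_comm]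
    rfl
  have hPQ : P = Q := by
    apply MvPolynomial.funext
    intro z
    have h1 : MvPolynomial.eval z P =
        fT Th (fun _ => B * Matrix.diagonal fun b => z (col b)) := by
      rw [fT_scale col Th (fun _ => B) z, map_sum]
      exact Finset.sum_congr rfl fun ψ _ => hmon _ _ _
    have h2 : MvPolynomial.eval z Q = evF K f (B * Matrix.diagonal fun b => z (col b)) := by
      have h3 : evF K f (B * Matrix.diagonal fun b => z (col b)) =
          ∑ ξ ∈ f.support, f.coeff ξ * evMon (B * Matrix.diagonal fun b => z (col b)) ξ := by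
        conv_lhs => rw [f.as_sum]
        rw [evF, map_sum]
        exact Finset.sum_congr rfl fun ξ _ => evF_monomial ξ _ _
      rw [h3, map_sum]
      refine Finset.sum_congr rfl fun ξ _ => ?_
      rw [hmon, evMon_scale]
      ring
    rw [h1, h2, h]
  have hP : P.coeff (Finsupp.equivFunOnFinite.symm d) = fT (hom col d Th) (fun _ => B) := by
    rw [MvPolynomial.coeff_sum, fT]
    refine Finset.sum_congr rfl fun ψ _ => ?_
    rw [MvPolynomial.coeff_monomial, hom]
    by_cases hψ : ct col ψ = d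
    · rw [if_pos hψ, if_pos (by rw [hψ])]
    · rw [if_neg hψ, if_neg (fun h' => hψ (Finsupp.equivFunOnFinite.symm.injective h')), zero_mul]
  rw [← hP, hPQ, MvPolynomial.coeff_sum]
  refine Finset.sum_eq_zero fun ξ hξ => ?_
  rw [MvPolynomial.coeff_monomial, if_neg]
  intro h'
  have h3 : wt ξ = d := Finsupp.equivFunOnFinite.symm.injective h'
  apply hd
  rw [← h3]
  exact wt_good ξ (hf.1 ξ (MvPolynomial.mem_support_iff.1 hξ))

/-- a good content is the colour content of a set of indices -/
theorem exists_D (d : Option X → ℕ) (h1 : d none = 1) (h2 : ∑ s, d (some s) = n) :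
    ∃ D : Finset (Option (X × Fin n)), ∀ s, (D.filter fun b => col b = s).card = d s := by
  classical
  refine ⟨univ.filter fun b => ∀ y : X × Fin n, b = some y → (y.2 : ℕ) < d (some y.1), ?_⟩
  intro s
  rcases s with _ | s
  · rw [h1, Finset.card_eq_one]
    refine ⟨none, ?_⟩
    ext b
    simp only [Finset.mem_filter, Finset.mem_univ, true_and, Finset.mem_singleton]
    constructor
    · rintro ⟨_, hb⟩
      rcases b with _ | b
      · rfl
      · simp [col] at hb
    · rintro rfl
      refine ⟨fun y hy => absurd hy (by simp), rfl⟩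
  · have hle : d (some s) ≤ n := by
      rw [← h2]
      exact Finset.single_le_sum (f := fun s => d (some s)) (fun _ _ => Nat.zero_le _) (Finset.mem_univ s)
    have h3 : (univ.filter fun b : Option (X × Fin n) =>
        ∀ y : X × Fin n, b = some y → (y.2 : ℕ) < d (some y.1)).filter (fun b => col b = some s) =
        (univ.filter fun j : Fin n => (j : ℕ) < d (some s)).image fun j => some (s, j) := by
      ext b
      simp only [Finset.mem_filter, Finset.mem_univ, true_and, Finset.mem_image]
      constructor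
      · rintro ⟨hb, hc⟩
        rcases b with _ | ⟨x, j⟩
        · simp [col] at hc
        · have hx : x = s := by simpa [col] using hc
          subst hx
          exact ⟨j, hb _ rfl, rfl⟩
      · rintro ⟨j, hj, rfl⟩
        refine ⟨?_, rfl⟩
        intro y hy
        have := Option.some.inj hy
        rw [← this]
        exact hj
    rw [h3, Finset.card_image_of_injective]
    · rw [Fin.card_filter_val_lt]
      exact min_eq_right hle
    · intro i j hij
      have := Option.some.inj hij
      exact (Prod.ext_iff.1 this).2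

/-- ASSEMBLY.  `f(B) = Σ_d fT (hom d Th) (B, …, B)` over the finitely many contents which occur, only good `d` matter,
`hom_span`, `evF_thetaK`, and `MvPolynomial.funext`. -/
theorem mem_span_of_CD {K : Type} [Field K] [Infinite K] (h : CD X k n K) :
    FF X k n K ≤ Submodule.span K (Set.range (thetaK X k n K)) := by
  classical
  intro f hf
  obtain ⟨Th, hA, hL, hTh⟩ := h f hf
  -- every content
  have hco : ∀ d : Option X → ℕ, ∃ g ∈ Submodule.span K (Set.range (thetaK X k n K)),
      ∀ B, evF K g B = fT (hom col d Th) (fun _ => B) := by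
    intro d
    by_cases hd : d none = 1 ∧ ∑ s, d (some s) = n
    · obtain ⟨D, hD⟩ := exists_D d hd.1 hd.2
      obtain ⟨co, hco⟩ := hom_span col (hom col d Th) (hom_LI col d Th hL) (hom_AltC col d Th hA) d
        (fun ψ hψ => by
          by_contra hc
          exact hψ (if_neg hc)) D hD
      refine ⟨co.sum fun m y => y • thetaK X k n K m, ?_, ?_⟩
      · exact Submodule.sum_mem _ fun m _ => Submodule.smul_mem _ _ (Submodule.subset_span ⟨m, rfl⟩)
      · intro B
        rw [hco B, evF, Finsupp.sum, map_sum, Finsupp.sum]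
        refine Finset.sum_congr rfl fun m _ => ?_
        rw [map_smul, smul_eq_mul, ← evF_thetaK]
        rfl
    · refine ⟨0, Submodule.zero_mem _, fun B => ?_⟩
      rw [fT_eq_sum_good f hf Th hTh d hd B, evF, map_zero]
  choose g hg hgB using hco
  have hf' : f = ∑ d ∈ univ.image (fun ψ : Fin k × Option (X × Fin n) →
      Option (Option (X × Fin n)) => ct col ψ), g d := by
    apply MvPolynomial.funext
    intro z
    have h1 : ∀ F : MvPolynomial (Option (X × Fin n) × Option (X × Fin n)) K,
        MvPolynomial.eval z F = evF K F (Matrix.of fun a b => z (a, b)) := by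
      intro F
      rw [evF, MvPolynomial.aeval_eq_eval]
      rfl
    rw [map_sum]
    simp only [h1, hgB]
    rw [hTh]
    simp only [fT]
    rw [Finset.sum_comm]
    refine Finset.sum_congr rfl fun ψ _ => ?_
    rw [← Finset.sum_mul]
    congr 1
    simp only [hom]
    rw [Finset.sum_ite_eq, if_pos (Finset.mem_image_of_mem _ (Finset.mem_univ ψ))]
  rw [hf']
  exact Submodule.sum_mem _ fun d _ => hg d

theorem GEN_of_CD (h : ∀ (K : Type) [Field K] [Infinite K], CD X k n K) : GEN X k n :=
  fun K _ _ => mem_span_of_CD (h K)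

end Pool.PI34.GD

end
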