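import Mathlib
import Pool.Agent.LibPI54.M04
import Pool.Agent.LibPI54.M08
import Pool.Agent.LibPI54.M28
import Pool.Agent.LibPI54.M36
import Pool.Agent.LibPI54.M37

/-! ### part EV_Zs -/
section

/-!
PI34, block EV (even input of (S_ex)), file Zs: the sum over the functions of a permutation with matrices is
the product of the traces of its cycles.
-/

set_option autoImplicit false
set_option linter.unusedSectionVars false

namespace Pool.PI34.EV

open Equiv Finset Matrix

section zs

variable {B : Type} [Fintype B] [DecidableEq B] {m : ℕ} {R : Type} [CommRing R]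

/-- the sum over all functions -/
def Zs (π : Perm B) (N : B → Matrix (Fin (m + 1)) (Fin (m + 1)) R) : R :=
  ∑ ψ : B → Fin (m + 1), ∏ s, N s (ψ (π s)) (ψ s)

/-- the matrix of an unused label -/
def E00 (m : ℕ) (R : Type) [CommRing R] : Matrix (Fin (m + 1)) (Fin (m + 1)) R :=
  Matrix.single 0 0 1

theorem E00_apply (x : Fin (m + 1)) : E00 m R x x = if x = 0 then 1 else 0 := by
  unfold E00
  rw [Matrix.single_apply]
  simp [eq_comm]

theorem sum_split (s : B) (F : (B → Fin (m + 1)) → R) :
    ∑ ψ, F ψ = ∑ ψ : B → Fin (m + 1), if ψ s = 0 then ∑ v, F (Function.update ψ s v) else 0 := by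
  rw [← Finset.sum_filter, ← Finset.sum_product']
  refine (Finset.sum_bij' (fun x _ => Function.update x.1 s x.2)
    (fun ψ _ => (Function.update ψ s 0, ψ s)) ?_ ?_ ?_ ?_ ?_).symm
  · intro x _
    exact mem_univ _
  · intro ψ _
    rw [Finset.mem_product, Finset.mem_filter]
    exact ⟨⟨mem_univ _, Function.update_self _ _ _⟩, mem_univ _⟩
  · rintro ⟨ψ, v⟩ hx
    rw [Finset.mem_product, Finset.mem_filter] at hx
    refine Prod.ext ?_ ?_
    · change Function.update (Function.update ψ s v) s 0 = ψ
      rw [Function.update_idem]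
      have h : ψ s = 0 := hx.1.2
      rw [← h, Function.update_eq_self]
    · exact Function.update_self _ _ _
  · intro ψ _
    change Function.update (Function.update ψ s 0) s (ψ s) = ψ
    rw [Function.update_idem, Function.update_eq_self]
  · intro x _
    rfl

theorem Zs_single (π : Perm B) (N : B → Matrix (Fin (m + 1)) (Fin (m + 1)) R) (s : B)
    (hs : π s = s) : Zs π N = (N s).trace * Zs π (Function.update N s (E00 m R)) := by
  have h1 : ∀ r, r ∈ univ.erase s → π r ≠ s := by
    intro r hr h
    have h2 : π r = π s := h.trans hs.symm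
    exact (Finset.mem_erase.1 hr).1 (π.injective h2)
  unfold Zs
  rw [sum_split s, Finset.mul_sum]
  refine Finset.sum_congr rfl fun ψ _ => ?_
  rw [← Finset.mul_prod_erase univ _ (mem_univ s), Function.update_self, hs, E00_apply]
  have h2 : ∏ r ∈ univ.erase s, Function.update N s (E00 m R) r (ψ (π r)) (ψ r) =
      ∏ r ∈ univ.erase s, N r (ψ (π r)) (ψ r) := by
    refine Finset.prod_congr rfl fun r hr => ?_
    rw [Function.update_of_ne (Finset.mem_erase.1 hr).1]
  rw [h2]
  by_cases hψ : ψ s = 0
  · rw [if_pos hψ, if_pos hψ, one_mul]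
    have h3 : ∀ v, ∏ r, N r (Function.update ψ s v (π r)) (Function.update ψ s v r) =
        N s v v * ∏ r ∈ univ.erase s, N r (ψ (π r)) (ψ r) := by
      intro v
      rw [← Finset.mul_prod_erase univ _ (mem_univ s), hs, Function.update_self]
      congr 1
      refine Finset.prod_congr rfl fun r hr => ?_
      rw [Function.update_of_ne (Finset.mem_erase.1 hr).1, Function.update_of_ne (h1 r hr)]
    rw [Finset.sum_congr rfl fun v _ => h3 v, ← Finset.sum_mul]
    rfl
  · rw [if_neg hψ, if_neg hψ, zero_mul, mul_zero]

theorem Zs_merge (π : Perm B) (N : B → Matrix (Fin (m + 1)) (Fin (m + 1)) R) (a b : B)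
    (hab : a ≠ b) (h : π a = b) : Zs π N = Zs (π * swap b a)
      (Function.update (Function.update N b (E00 m R)) a (N b * N a)) := by
  have hb : π b ≠ b := fun hb => hab (π.injective (h.trans hb.symm))
  unfold Zs
  rw [sum_split b]
  refine Finset.sum_congr rfl fun ψ _ => ?_
  have hmem : b ∈ (univ : Finset B).erase a := Finset.mem_erase.2 ⟨hab.symm, mem_univ _⟩
  have e1 : (π * swap b a) a = π b := by rw [Perm.mul_apply, swap_apply_right]
  have e2 : (π * swap b a) b = b := by rw [Perm.mul_apply, swap_apply_left, h]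
  rw [← Finset.mul_prod_erase univ _ (mem_univ a), ← Finset.mul_prod_erase _ _ hmem,
    Function.update_self, Function.update_of_ne hab.symm, Function.update_self, e1, e2, E00_apply]
  have h2 : ∏ r ∈ (univ.erase a).erase b, Function.update (Function.update N b (E00 m R)) a
      (N b * N a) r (ψ ((π * swap b a) r)) (ψ r) =
      ∏ r ∈ (univ.erase a).erase b, N r (ψ (π r)) (ψ r) := by
    refine Finset.prod_congr rfl fun r hr => ?_
    rw [Finset.mem_erase, Finset.mem_erase] at hr
    rw [Function.update_of_ne hr.2.1, Function.update_of_ne hr.1, Perm.mul_apply,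
      swap_apply_of_ne_of_ne hr.1 hr.2.1]
  rw [h2]
  by_cases hψ : ψ b = 0
  · rw [if_pos hψ, if_pos hψ, one_mul]
    have h3 : ∀ v, ∏ r, N r (Function.update ψ b v (π r)) (Function.update ψ b v r) =
        N b (ψ (π b)) v * N a v (ψ a) * ∏ r ∈ (univ.erase a).erase b, N r (ψ (π r)) (ψ r) := by
      intro v
      rw [← Finset.mul_prod_erase univ _ (mem_univ a), ← Finset.mul_prod_erase _ _ hmem, h,
        Function.update_self, Function.update_of_ne hab, Function.update_of_ne hb, ← mul_assoc,
        mul_comm (N a v (ψ a))]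
      congr 1
      refine Finset.prod_congr rfl fun r hr => ?_
      rw [Finset.mem_erase, Finset.mem_erase] at hr
      rw [Function.update_of_ne hr.1, Function.update_of_ne]
      intro h4
      exact hr.2.1 (π.injective (h4.trans h.symm))
    rw [Finset.sum_congr rfl fun v _ => h3 v, ← Finset.sum_mul, Matrix.mul_apply]
  · rw [if_neg hψ, if_neg hψ, zero_mul, mul_zero]

theorem prod_formPerm_fix (ls : List (List B)) (s : B) (hs : s ∉ ls.flatten) :
    ((ls.map List.formPerm).prod) s = s := by
  induction ls with
  | nil => rfl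
  | cons l ls ih =>
    rw [List.flatten_cons, List.mem_append, not_or] at hs
    rw [List.map_cons, List.prod_cons, Perm.mul_apply, ih hs.2,
      List.formPerm_apply_of_notMem hs.1]

theorem Zs_eq (ls : List (List B)) : ∀ (N : B → Matrix (Fin (m + 1)) (Fin (m + 1)) R),
    ls.flatten.Nodup → (∀ l ∈ ls, l ≠ []) → (∀ s, s ∉ ls.flatten → N s = E00 m R) →
    Zs ((ls.map List.formPerm).prod)⁻¹ N = (ls.map fun l => ((l.map N).prod).trace).prod := by
  induction ls with
  | nil =>
    intro N _ _ hN
    rw [List.map_nil, List.prod_nil, List.map_nil, List.prod_nil, inv_one]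
    unfold Zs
    rw [Finset.sum_eq_single (fun _ => 0)]
    · refine Finset.prod_eq_one fun s _ => ?_
      rw [hN s (by simp), Perm.one_apply, E00_apply, if_pos rfl]
    · intro ψ _ hψ
      obtain ⟨s, hs⟩ := Function.ne_iff.1 hψ
      refine Finset.prod_eq_zero (mem_univ s) ?_
      rw [hN s (by simp), Perm.one_apply, E00_apply, if_neg hs]
    · intro h
      exact absurd (mem_univ _) h
  | cons l ls ih =>
    induction l with
    | nil => intro N _ hne _; exact absurd rfl (hne [] List.mem_cons_self)
    | cons b l ihl =>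
      intro N hnd hne hN
      cases l with
      | nil =>
        have hnd' : b ∉ ls.flatten ∧ ls.flatten.Nodup := by
          rw [List.flatten_cons, List.singleton_append, List.nodup_cons] at hnd
          exact hnd
        have hfix : ((([b] :: ls).map List.formPerm).prod)⁻¹ b = b := by
          rw [Perm.inv_eq_iff_eq, List.map_cons, List.prod_cons, Perm.mul_apply,
            prod_formPerm_fix ls b hnd'.1, List.formPerm_singleton]
          rfl
        rw [Zs_single _ N b hfix]
        have h1 : (([b] :: ls).map List.formPerm).prod = (ls.map List.formPerm).prod := by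
          rw [List.map_cons, List.prod_cons, List.formPerm_singleton, one_mul]
        rw [h1, ih _ hnd'.2 (fun l hl => hne l (List.mem_cons_of_mem _ hl)), List.map_cons,
          List.prod_cons, List.map_singleton, List.prod_singleton]
        · congr 1
          refine congrArg List.prod (List.map_congr_left fun l hl => ?_)
          refine congrArg (fun L : List (Matrix (Fin (m + 1)) (Fin (m + 1)) R) => L.prod.trace) (List.map_congr_left fun s hs => ?_)
          rw [Function.update_of_ne]
          rintro rfl
          exact hnd'.1 (List.mem_flatten.2 ⟨l, hl, hs⟩)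
        · intro s hs
          by_cases hsb : s = b
          · rw [hsb, Function.update_self]
          · rw [Function.update_of_ne hsb]
            refine hN s ?_
            rw [List.flatten_cons, List.singleton_append, List.mem_cons, not_or]
            exact ⟨hsb, hs⟩
      | cons a l =>
        have hnd1 : b ∉ (a :: l) ++ ls.flatten ∧ ((a :: l) ++ ls.flatten).Nodup := by
          rw [List.flatten_cons, List.cons_append, List.nodup_cons] at hnd
          exact hnd
        have hba : b ≠ a := fun h => hnd1.1 (h ▸ List.mem_cons_self)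
        have h1 : (((b :: a :: l) :: ls).map List.formPerm).prod =
            swap b a * (((a :: l) :: ls).map List.formPerm).prod := by
          rw [List.map_cons, List.prod_cons, List.formPerm_cons_cons, List.map_cons,
            List.prod_cons, mul_assoc]
        have h2 : (((a :: l) :: ls).map List.formPerm).prod b = b := by
          refine prod_formPerm_fix _ b ?_
          rw [List.flatten_cons]
          exact hnd1.1
        have hπ : ((((b :: a :: l) :: ls).map List.formPerm).prod)⁻¹ a = b := by
          rw [Perm.inv_eq_iff_eq, h1, Perm.mul_apply, h2, swap_apply_left]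
        rw [Zs_merge _ N a b hba.symm hπ]
        have h3 : ((((b :: a :: l) :: ls).map List.formPerm).prod)⁻¹ * swap b a =
            ((((a :: l) :: ls).map List.formPerm).prod)⁻¹ := by
          rw [h1, _root_.mul_inv_rev, swap_inv, mul_assoc, Equiv.swap_mul_self, mul_one]
        rw [h3, ihl _ (by rw [List.flatten_cons]; exact hnd1.2)]
        · rw [List.map_cons, List.prod_cons, List.map_cons, List.prod_cons]
          have hl : ∀ s ∈ l, Function.update (Function.update N b (E00 m R)) a (N b * N a) s =
              N s := by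
            intro s hs
            have h4 : s ≠ a := by
              rintro rfl
              exact (List.nodup_cons.1 (List.nodup_append.1 hnd1.2).1).1 hs
            have h5 : s ≠ b := by
              rintro rfl
              exact hnd1.1 (List.mem_append_left _ (List.mem_cons_of_mem _ hs))
            rw [Function.update_of_ne h4, Function.update_of_ne h5]
          congr 1
          · rw [Function.update_self, List.map_congr_left hl]
            change _ = (((b :: a :: l).map N).prod).trace
            rw [List.map_cons, List.prod_cons, List.map_cons, List.prod_cons, mul_assoc]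
          · refine congrArg List.prod (List.map_congr_left fun l' hl' => ?_)
            refine congrArg (fun L : List (Matrix (Fin (m + 1)) (Fin (m + 1)) R) => L.prod.trace) (List.map_congr_left fun s hs => ?_)
            have hs' : s ∈ ls.flatten := List.mem_flatten.2 ⟨l', hl', hs⟩
            have h4 : s ≠ a := by
              rintro rfl
              exact (List.nodup_append.1 hnd1.2).2.2 s List.mem_cons_self s hs' rfl
            have h5 : s ≠ b := by
              rintro rfl
              exact hnd1.1 (List.mem_append_right _ hs')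
            rw [Function.update_of_ne h4, Function.update_of_ne h5]
        · intro l' hl'
          rcases List.mem_cons.1 hl' with rfl | hl'
          · exact List.cons_ne_nil _ _
          · exact hne l' (List.mem_cons_of_mem _ hl')
        · intro s hs
          rw [List.flatten_cons, List.mem_append, not_or] at hs
          have h4 : s ≠ a := by
            rintro rfl
            exact hs.1 List.mem_cons_self
          rw [Function.update_of_ne h4]
          by_cases h5 : s = b
          · rw [h5, Function.update_self]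
          · rw [Function.update_of_ne h5]
            refine hN s ?_
            rw [List.flatten_cons, List.mem_append, not_or, List.mem_cons, not_or]
            exact ⟨⟨h5, hs.1⟩, hs.2⟩

end zs

end Pool.PI34.EV

end

/-! ### part EV_Walk -/
section

/-!
PI34, block EV (even input of (S_ex)), file Walk: the closing determinant of loops and of a path.
-/

set_option autoImplicit false
set_option linter.unusedSectionVars false

namespace Pool.PI34.EV

open Equiv Finset Matrix
open Pool.PI34.BA

variable {A Λ : Type*} [Fintype A] [DecidableEq A] [Ring Λ]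

/-- the walk with weight `s` along a list -/
def wv (t : Λ) (x : A → Λ) : Λ → List A → A → Λ
  | _, [] => 0
  | s, [a] => Pi.single a s
  | s, a :: b :: v => Pi.single a s + wv t x (-(t * (s * x b))) (b :: v)

/-- the rows of `R` follow the list -/
def Rows (R : Matrix A A Λ) (x : A → Λ) : List A → Prop
  | [] => True
  | [a] => R a = 0
  | a :: b :: v => R a = Pi.single b (x b) ∧ Rows R x (b :: v)

theorem single_vecMul' (R : Matrix A A Λ) (a : A) (s : Λ) :
    (Pi.single a s : A → Λ) ᵥ* R = fun j => s * R a j := by
  funext j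
  simp [Matrix.vecMul, dotProduct, Pi.single_apply]

theorem wv_vecMul (t : Λ) (ht : ∀ y, t * y = y * t) (R : Matrix A A Λ) (x : A → Λ) (v : List A) :
    ∀ (a : A) (s : Λ), Rows R x (a :: v) →
      wv t x s (a :: v) + t • (wv t x s (a :: v) ᵥ* R) = Pi.single a s := by
  induction v with
  | nil =>
    intro a s h
    have h0 : R a = 0 := h
    change (Pi.single a s : A → Λ) + t • ((Pi.single a s : A → Λ) ᵥ* R) = Pi.single a s
    rw [single_vecMul', h0]
    have h1 : (fun j => s * (0 : A → Λ) j) = 0 := by
      funext j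
      simp
    rw [h1, smul_zero, add_zero]
  | cons b v ih =>
    intro a s h
    obtain ⟨h1, h2⟩ := h
    have h3 := ih b (-(t * (s * x b))) h2
    change (Pi.single a s + wv t x (-(t * (s * x b))) (b :: v)) + t • ((Pi.single a s +
      wv t x (-(t * (s * x b))) (b :: v)) ᵥ* R) = Pi.single a s
    rw [Matrix.add_vecMul, single_vecMul', h1, smul_add]
    have h4 : t • (fun j => s * (Pi.single b (x b) : A → Λ) j) =
        (Pi.single b (t * (s * x b)) : A → Λ) := by
      funext j
      by_cases hj : j = b
      · subst hj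
        simp
      · simp [Pi.single_apply, hj]
    rw [h4]
    have h5 : (Pi.single b (-(t * (s * x b))) : A → Λ) = - Pi.single b (t * (s * x b)) := by
      funext j
      by_cases hj : j = b
      · subst hj
        simp
      · simp [Pi.single_apply, hj]
    rw [h5] at h3
    calc _ = (Pi.single a s : A → Λ) + (Pi.single b (t * (s * x b)) +
        (wv t x (-(t * (s * x b))) (b :: v) +
          t • (wv t x (-(t * (s * x b))) (b :: v) ᵥ* R))) := by abel
      _ = _ := by rw [h3, add_neg_cancel, add_zero]

theorem vecMul_inverse (t : Λ) (ht : ∀ y, t * y = y * t) (hn : IsNilpotent t) (R : Matrix A A Λ)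
    (r c : A → Λ) (h : r + t • (r ᵥ* R) = c) : c ᵥ* Ring.inverse (1 + t • R) = r := by
  have hu := isUnit_one_add t ht hn R
  have h1 : r ᵥ* (1 + t • R) = c := by
    rw [← h, Matrix.vecMul_add, Matrix.vecMul_one]
    congr 1
    funext j
    simp only [Matrix.vecMul, dotProduct, Matrix.smul_apply, smul_eq_mul, Pi.smul_apply,
      Finset.mul_sum]
    refine Finset.sum_congr rfl fun i _ => ?_
    rw [← mul_assoc, ← ht, mul_assoc]
  rw [← h1, Matrix.vecMul_vecMul, Ring.mul_inverse_cancel _ hu, Matrix.vecMul_one]

theorem walk_inverse (t : Λ) (ht : ∀ y, t * y = y * t) (hn : IsNilpotent t) (R : Matrix A A Λ)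
    (x : A → Λ) (a : A) (v : List A) (s : Λ) (h : Rows R x (a :: v)) :
    (Pi.single a s : A → Λ) ᵥ* Ring.inverse (1 + t • R) = wv t x s (a :: v) :=
  vecMul_inverse t ht hn R _ _ (wv_vecMul t ht R x v a s h)

theorem wv_notMem (t : Λ) (x : A → Λ) (v : List A) : ∀ (s : Λ) (a : A), a ∉ v →
    wv t x s v a = 0 := by
  induction v with
  | nil => intro s a _; rfl
  | cons b v ih =>
    intro s a ha
    have h1 : a ≠ b := fun h => ha (h ▸ List.mem_cons_self)
    have h2 : a ∉ v := fun h => ha (List.mem_cons_of_mem _ h)
    cases v with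
    | nil =>
      change (Pi.single b s : A → Λ) a = 0
      simp [Pi.single_apply, h1]
    | cons c v =>
      change ((Pi.single b s : A → Λ) + wv t x (-(t * (s * x c))) (c :: v)) a = 0
      rw [Pi.add_apply, ih _ _ h2, add_zero]
      simp [Pi.single_apply, h1]

/-- the value at the end of the walk -/
theorem wv_last (t : Λ) (ht : ∀ y, t * y = y * t) (x : A → Λ) (v : List A) :
    ∀ (a : A) (s : Λ), (a :: v).Nodup →
      wv t x s (a :: v) ((a :: v).getLast (by simp)) =
        (-t) ^ v.length * (s * (v.map x).prod) := by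
  induction v with
  | nil =>
    intro a s _
    change (Pi.single a s : A → Λ) a = _
    simp
  | cons b v ih =>
    intro a s hnd
    have h1 : (b :: v).Nodup := (List.nodup_cons.1 hnd).2
    have h2 : a ∉ b :: v := (List.nodup_cons.1 hnd).1
    have h3 : (a :: b :: v).getLast (by simp) = (b :: v).getLast (by simp) :=
      List.getLast_cons (by simp)
    rw [h3]
    change ((Pi.single a s : A → Λ) + wv t x (-(t * (s * x b))) (b :: v))
      ((b :: v).getLast (by simp)) = _
    rw [Pi.add_apply, ih b _ h1]
    have h4 : (b :: v).getLast (by simp) ≠ a := fun h => h2 (h ▸ List.getLast_mem (by simp))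
    have h5 : (Pi.single a s : A → Λ) ((b :: v).getLast (by simp)) = 0 := by
      rw [Pi.single_apply, if_neg h4]
    rw [h5, zero_add, List.length_cons, List.map_cons, List.prod_cons, pow_succ]
    have h6 : ∀ m : ℕ, ∀ y, (-t) ^ m * y = y * (-t) ^ m := fun m y =>
      ((show Commute (-t) y from by
        change -t * y = y * -t
        rw [neg_mul, mul_neg, ht]).pow_left m)
    simp only [mul_neg, neg_mul, mul_assoc]

/-! ### The factors -/

theorem factor_eq (t : Λ) (N : Matrix A A Λ) (a : A) (l : List A) :
    (N * Ring.inverse (1 + t • rowsIn N l)) a a =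
      ((N a) ᵥ* Ring.inverse (1 + t • rowsIn N l)) a := rfl

theorem rowsIn_mem (N : Matrix A A Λ) {l : List A} {a : A} (h : a ∈ l) : rowsIn N l a = N a := by
  funext b
  simp [rowsIn, h]

theorem rowsIn_notMem (N : Matrix A A Λ) {l : List A} {a : A} (h : a ∉ l) :
    rowsIn N l a = 0 := by
  funext b
  simp [rowsIn, h]

/-- a row that leaves the list contributes nothing -/
theorem factor_open (t : Λ) (ht : ∀ y, t * y = y * t) (hn : IsNilpotent t) (N : Matrix A A Λ)
    (a b : A) (s : Λ) (l : List A) (hN : N a = Pi.single b s) (hb : b ∉ l) (hab : a ≠ b) :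
    dt t N (a :: l) = dt t N l := by
  rw [dt, factor_eq, hN, walk_inverse t ht hn (rowsIn N l) (fun _ => 0) b [] s
    (rowsIn_notMem N hb)]
  change dt t N l * (1 + t * (Pi.single b s : A → Λ) a) = _
  rw [Pi.single_apply, if_neg hab, mul_zero, add_zero, mul_one]

theorem factor_zero (t : Λ) (N : Matrix A A Λ) (a : A) (l : List A) (hN : N a = 0) :
    dt t N (a :: l) = dt t N l := by
  rw [dt, factor_eq, hN, Matrix.zero_vecMul]
  simp

/-- the rows of `N` follow the list, the last one is arbitrary -/
def Follows (N : Matrix A A Λ) (x : A → Λ) : List A → Prop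
  | [] => True
  | [_] => True
  | a :: b :: v => N a = Pi.single b (x b) ∧ Follows N x (b :: v)

/-- a list which follows `N` contributes nothing before its end -/
theorem dt_open (t : Λ) (ht : ∀ y, t * y = y * t) (hn : IsNilpotent t) (N : Matrix A A Λ)
    (x : A → Λ) (b : A) (v : List A) : ∀ (l : List A), Follows N x (v ++ [b]) →
      ((v ++ [b]) ++ l).Nodup → dt t N (v.reverse ++ l) = dt t N l := by
  induction v using List.reverseRecOn generalizing b with
  | nil => intro l _ _; rfl
  | append_singleton v a ih =>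
    intro l hF hnd
    have h1 : Follows N x (v ++ [a]) ∧ N a = Pi.single b (x b) := by
      clear ih hnd
      induction v with
      | nil => exact ⟨trivial, hF.1⟩
      | cons c v ih2 =>
        cases v with
        | nil => exact ⟨⟨hF.1, trivial⟩, hF.2.1⟩
        | cons d v =>
          obtain ⟨h2, h3⟩ := ih2 hF.2
          exact ⟨⟨hF.1, h2⟩, h3⟩
    have hnd2 : (v ++ ([a] ++ [b] ++ l)).Nodup := by simpa using hnd
    have hnd3 : ((v ++ [a]) ++ l).Nodup := by
      refine List.Nodup.sublist ?_ hnd2
      simp
    have hb : b ∉ v.reverse ++ l := by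
      intro hb
      rw [List.mem_append, List.mem_reverse] at hb
      rw [List.nodup_append] at hnd2
      rcases hb with hb | hb
      · exact hnd2.2.2 _ hb b (by simp) rfl
      · have := hnd2.2.1
        simp at this
        exact this.2.1 hb
    have hab : a ≠ b := by
      have := (List.nodup_append.1 hnd2).2.1
      simp at this
      exact fun h => this.1.1 h
    rw [List.reverse_append, List.reverse_singleton, List.singleton_append, List.cons_append,
      factor_open t ht hn N a b (x b) _ h1.2 hb hab]
    exact ih a l h1.1 hnd3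

theorem rows_of_follows (N : Matrix A A Λ) (x : A → Λ) (l : List A) : ∀ (v : List A) (b : A),
    Follows N x (v ++ [b]) → (∀ a ∈ v, a ∈ l) → b ∉ l → Rows (rowsIn N l) x (v ++ [b]) := by
  intro v
  induction v with
  | nil => intro b _ _ hb; exact rowsIn_notMem N hb
  | cons a v ih =>
    intro b hF hv hb
    have h2 : ∀ a ∈ v, a ∈ l := fun c hc => hv c (List.mem_cons_of_mem _ hc)
    cases v with
    | nil => exact ⟨(rowsIn_mem N (hv a List.mem_cons_self)).trans hF.1, ih b hF.2 h2 hb⟩
    | cons c v => exact ⟨(rowsIn_mem N (hv a List.mem_cons_self)).trans hF.1, ih b hF.2 h2 hb⟩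

/-- a loop -/
theorem dt_loop (t : Λ) (ht : ∀ y, t * y = y * t) (hn : IsNilpotent t) (N : Matrix A A Λ)
    (x : A → Λ) (a : A) (v : List A) (y : Λ) (hF : Follows N x (a :: v))
    (hN : N ((a :: v).getLast (by simp)) = Pi.single a (y * x a)) (l : List A)
    (hnd : ((a :: v) ++ l).Nodup) :
    dt t N ((a :: v).reverse ++ l) =
      dt t N l * (1 - (-t) ^ (a :: v).length * (y * ((a :: v).map x).prod)) := by
  obtain ⟨w, b, hw⟩ : ∃ (w : List A) (b : A), a :: v = w ++ [b] :=
    ⟨(a :: v).dropLast, (a :: v).getLast (by simp), (List.dropLast_append_getLast _).symm⟩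
  have hb : (a :: v).getLast (by simp) = b := by
    simp only [hw, List.getLast_append, List.getLast_singleton]
    simp
  rw [hb] at hN
  have hnd2 : (a :: v).Nodup := (List.nodup_append.1 hnd).1
  have hF' := hF
  rw [hw] at hF' hnd
  have hbl : b ∉ w.reverse ++ l := by
    intro h
    rw [List.mem_append, List.mem_reverse] at h
    have h1 := List.nodup_append.1 hnd
    rcases h with h | h
    · exact (List.nodup_append.1 h1.1).2.2 _ h b (by simp) rfl
    · exact h1.2.2 b (by simp) _ h rfl
  have hR : Rows (rowsIn N (w.reverse ++ l)) x (a :: v) := by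
    rw [hw]
    exact rows_of_follows N x _ w b hF' (fun c hc => by simp [hc]) hbl
  have h1 : (a :: v).reverse = b :: w.reverse := by
    rw [hw, List.reverse_append, List.reverse_singleton, List.singleton_append]
  rw [h1, List.cons_append, dt, dt_open t ht hn N x b w l hF' hnd, factor_eq, hN,
    walk_inverse t ht hn _ x a v _ hR]
  have h2 := wv_last t ht x v a (y * x a) hnd2
  rw [hb] at h2
  rw [h2, List.length_cons, List.map_cons, List.prod_cons, pow_succ, sub_eq_add_neg]
  congr 2
  have h6 : ∀ m : ℕ, ∀ y, (-t) ^ m * y = y * (-t) ^ m := fun m y =>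
      ((show Commute (-t) y from by
        change -t * y = y * -t
        rw [neg_mul, mul_neg, ht]).pow_left m)
  rw [mul_assoc y (x a), mul_assoc ((-t) ^ v.length) (-t), neg_mul t, mul_neg, neg_neg, ← mul_assoc t,
    ← h6 v.length t, mul_assoc]

end Pool.PI34.EV

end

/-! ### part EV_Loop -/
section

/-!
PI34, block EV (even input of (S_ex)), file Loop: `P(B)` for a matrix which consists of a path and loops.
-/

set_option autoImplicit false
set_option linter.unusedSectionVars false

namespace Pool.PI34.EV

open Equiv Finset Matrix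
open Pool.PI34.BA
open scoped TensorProduct

section dt

variable {A Λ : Type*} [Fintype A] [DecidableEq A] [Ring Λ] {M : Type*} [CommMonoid M]

theorem dt_indep (π : Λ →* M) (hπ : ∀ x y, π (1 + x * y) = π (1 + y * x)) (t : Λ)
    (ht : ∀ x, t * x = x * t) (hn : IsNilpotent t) (N : Matrix A A Λ) (l l' : List A)
    (hl : l.Nodup) (hc : ∀ a, a ∈ l) (hl' : l'.Nodup) (hc' : ∀ a, a ∈ l') :
    π (dt t N l) = π (dt t N l') := by
  have e1 := dt_eq_dtDec π hπ t ht hn (fun a => Pi.single a (1 : Λ)) (fun a => N a) l' l hl hc
  have e2 := dt_eq_dtDec π hπ t ht hn (fun a => Pi.single a (1 : Λ)) (fun a => N a) l' l' hl' hc'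
  rw [C3_decomp N l' hl' hc'] at e1 e2
  rw [e1, e2]

/-- a loop with a weight: the first place, the other places, the weight -/
abbrev Lp (A Λ : Type*) : Type _ := A × List A × Λ

/-- the value of the closing determinant -/
def Fl (t : Λ) (x : A → Λ) : List (Lp A Λ) → Λ
  | [] => 1
  | u :: us => Fl t x us * (1 - (-t) ^ (u.2.1.length + 1) * (u.2.2 * ((u.1 :: u.2.1).map x).prod))

/-- the list of the places of the loops, in the order of the closing determinant -/
def places : List (Lp A Λ) → List A
  | [] => []
  | u :: us => (u.1 :: u.2.1).reverse ++ places us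

/-- the matrix `N` follows the loop -/
def IsLoop (N : Matrix A A Λ) (x : A → Λ) (u : Lp A Λ) : Prop :=
  Follows N x (u.1 :: u.2.1) ∧
    N ((u.1 :: u.2.1).getLast (by simp)) = Pi.single u.1 (u.2.2 * x u.1)

theorem dt_loops (t : Λ) (ht : ∀ y, t * y = y * t) (hn : IsNilpotent t) (N : Matrix A A Λ)
    (x : A → Λ) (us : List (Lp A Λ)) (hus : ∀ u ∈ us, IsLoop N x u) (l : List A)
    (hnd : (places us ++ l).Nodup) : dt t N (places us ++ l) = dt t N l * Fl t x us := by
  induction us with
  | nil =>
    change dt t N l = dt t N l * 1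
    rw [mul_one]
  | cons u us ih =>
    have h1 : places (u :: us) ++ l = (u.1 :: u.2.1).reverse ++ (places us ++ l) :=
      List.append_assoc _ _ _
    rw [h1] at hnd ⊢
    have h2 := hus u List.mem_cons_self
    have h3 : ((u.1 :: u.2.1) ++ (places us ++ l)).Nodup := by
      rw [List.nodup_append] at hnd ⊢
      exact ⟨List.nodup_reverse.1 hnd.1, hnd.2.1, fun a ha b hb => hnd.2.2 a
        (List.mem_reverse.2 ha) b hb⟩
    rw [dt_loop t ht hn N x u.1 u.2.1 u.2.2 h2.1 h2.2 _ h3,
      ih (fun v hv => hus v (List.mem_cons_of_mem _ hv)) (List.nodup_append.1 hnd).2.1, mul_assoc]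
    rfl

theorem dt_zero_rows (t : Λ) (N : Matrix A A Λ) (l : List A) (h : ∀ a ∈ l, N a = 0) :
    dt t N l = 1 := by
  induction l with
  | nil => rfl
  | cons a l ih =>
    rw [factor_zero t N a l (h a List.mem_cons_self)]
    exact ih fun b hb => h b (List.mem_cons_of_mem _ hb)

/-- `N` follows the path and its last row is zero -/
def IsPath (N : Matrix A A Λ) (x : A → Λ) (v : List A) : Prop :=
  Follows N x v ∧ ∀ a ∈ v.getLast?, N a = 0

theorem dt_path' (t : Λ) (ht : ∀ y, t * y = y * t) (hn : IsNilpotent t) (N : Matrix A A Λ)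
    (x : A → Λ) (v : List A) (hv : IsPath N x v) (l : List A) (hl : ∀ a ∈ l, N a = 0)
    (hnd : (v ++ l).Nodup) : dt t N (v.reverse ++ l) = 1 := by
  rcases List.eq_nil_or_concat v with rfl | ⟨w, b, rfl⟩
  · exact dt_zero_rows t N l hl
  · rw [List.concat_eq_append] at hv hnd ⊢
    obtain ⟨h1, h2⟩ := hv
    rw [List.reverse_append, List.reverse_singleton, List.singleton_append, List.cons_append,
      factor_zero t N b _ (h2 b (by simp)), dt_open t ht hn N x b w l h1 hnd]
    exact dt_zero_rows t N l hl

theorem rows_of_path (N : Matrix A A Λ) (x : A → Λ) (v : List A) (hv : IsPath N x v) :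
    Rows N x v := by
  obtain ⟨h1, h2⟩ := hv
  induction v with
  | nil => trivial
  | cons a v ih =>
    cases v with
    | nil => exact h2 a (by simp)
    | cons b v =>
      refine ⟨h1.1, ih h1.2 fun c hc => h2 c ?_⟩
      rw [List.getLast?_cons_cons]
      exact hc

/-- the open string of a path -/
theorem qq_path' (t : Λ) (ht : ∀ y, t * y = y * t) (hn : IsNilpotent t) (x : A → Λ)
    (B : Matrix (Option A) (Option A) Λ) (v : List A) (hnd : v.Nodup) (hv : IsPath (BX x B) x v)
    (h0 : B none none = if v = [] then 1 else 0)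
    (h1 : ∀ a, B none (some a) = if v.head? = some a then 1 else 0)
    (h2 : ∀ b, B (some b) none = if v.getLast? = some b then 1 else 0) :
    qq t x B = (-t) ^ v.length * (v.map x).prod := by
  rw [qq_eq, h0]
  cases v with
  | nil =>
    have h3 : (fun a => B none (some a) * x a) = 0 := by
      funext a
      rw [h1]
      simp
    rw [h3]
    simp
  | cons a v =>
    have h3 : (fun c => B none (some c) * x c) = Pi.single a (x a) := by
      funext c
      rw [h1]
      by_cases hc : c = a
      · subst hc
        simp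
      · have h5 : ¬ (a = c) := fun h => hc h.symm
        simp [hc, h5]
    have h4 : (fun b => B (some b) none) =
        (Pi.single ((a :: v).getLast (by simp)) (1 : Λ) : A → Λ) := by
      funext b
      rw [h2, List.getLast?_eq_some_getLast (by simp), Pi.single_apply]
      simp [eq_comm]
    rw [h3, h4, dotProduct_mulVec, walk_inverse t ht hn (BX x B) x a v (x a)
      (rows_of_path _ x _ hv), if_neg (by simp), zero_sub, dotProduct_single, mul_one,
      wv_last t ht x v a (x a) hnd, List.length_cons, List.map_cons, List.prod_cons, pow_succ]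
    have h6 : ∀ m : ℕ, ∀ y, (-t) ^ m * y = y * (-t) ^ m := fun m y =>
      ((show Commute (-t) y from by
        change -t * y = y * -t
        rw [neg_mul, mul_neg, ht]).pow_left m)
    rw [h6 v.length (-t), mul_assoc, neg_mul]

end dt

/-! ### `P(B)` -/

section PP

variable {A : Type} [Fintype A] [DecidableEq A]
variable {ι Φ E : Type} [Fintype ι] [DecidableEq ι] [Ring Φ] [Ring E] (S : Str ι Φ E)
variable {k : ℕ} (p q : Fin k ↪ ι) (z : ι)

theorem PP_loops (hA : Anti S.s k) (hF : Frame p q z) (t : Φ) (ht : ∀ x, t * x = x * t)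
    (hn : IsNilpotent t) (x : A → Φ) (B : Matrix (Option A) (Option A) Φ)
    (us : List (Lp A Φ)) (v : List A) (hus : ∀ u ∈ us, IsLoop (BX x B) x u)
    (hv : IsPath (BX x B) x v) (hnd : (places us ++ v).Nodup)
    (hr : ∀ a, a ∉ places us → a ∉ v → BX x B a = 0) (w : Φ) (hq : qq t x B = w) :
    S.PP p q z t x B = S.D p (fun _ => Fl t x us) * S.ρ z w * S.om p q := by
  classical
  obtain ⟨M, _, π, hπ, hπ'⟩ := exists_quotient S p q z hA hF
  set rest := (univ : Finset A).toList.filter (fun a => a ∉ places us ∧ a ∉ v) with hrest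
  have hr1 : rest.Nodup := (nodup_toList _).filter _
  have hr2 : ∀ a, a ∈ rest ↔ a ∉ places us ∧ a ∉ v := by
    intro a
    rw [hrest, List.mem_filter]
    simp
  have hnd' : (places us ++ (v.reverse ++ rest)).Nodup := by
    rw [List.nodup_append] at hnd ⊢
    refine ⟨hnd.1, ?_, ?_⟩
    · rw [List.nodup_append]
      refine ⟨List.nodup_reverse.2 hnd.2.1, hr1, ?_⟩
      intro a ha b hb hab
      subst hab
      exact ((hr2 a).1 hb).2 (List.mem_reverse.1 ha)
    · intro a ha b hb hab
      subst hab
      rw [List.mem_append] at hb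
      rcases hb with hb | hb
      · exact hnd.2.2 a ha a (List.mem_reverse.1 hb) rfl
      · exact ((hr2 a).1 hb).1 ha
  have hall : ∀ a, a ∈ places us ++ (v.reverse ++ rest) := by
    intro a
    rw [List.mem_append, List.mem_append, List.mem_reverse, hr2]
    tauto
  have h1 : π (dt t (BX x B) (univ : Finset A).toList) = π (Fl t x us) := by
    rw [dt_indep π hπ t ht hn (BX x B) _ (places us ++ (v.reverse ++ rest)) (nodup_toList _)
      (fun a => mem_toList.2 (mem_univ a)) hnd' hall,
      dt_loops t ht hn (BX x B) x us hus _ hnd', dt_path' t ht hn (BX x B) x v hv rest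
        (fun a ha => hr a ((hr2 a).1 ha).1 ((hr2 a).1 ha).2) ?_, one_mul]
    have h3 := (List.nodup_append.1 hnd').2.1
    rw [List.nodup_append] at h3 ⊢
    exact ⟨List.nodup_reverse.1 h3.1, h3.2.1, fun a ha b hb => h3.2.2 a (List.mem_reverse.2 ha) b hb⟩
  unfold Str.PP
  rw [hq, c5_move S p q z hF, c5_move S p q z hF, hπ' _ _ h1]

end PP

end Pool.PI34.EV

end

/-! ### part EV_Coef -/
section

/-!
PI34, block EV (even input of (S_ex)), file Coef: extraction of the coefficient of the loops.
-/

set_option autoImplicit false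
set_option linter.unusedSectionVars false

namespace Pool.PI34.EV

open Equiv Finset Matrix
open Pool.PI34.BA
open scoped TensorProduct

/-! ### the ring of the weights -/

/-- the squares of the weights -/
noncomputable def sqI : Ideal (MvPolynomial ℕ ℤ) :=
  Ideal.span (Set.range fun i : ℕ => (MvPolynomial.X i : MvPolynomial ℕ ℤ) ^ 2)

/-- polynomials in weights of square zero -/
def TW : Type := MvPolynomial ℕ ℤ ⧸ sqI

noncomputable instance : CommRing TW := inferInstanceAs (CommRing (MvPolynomial ℕ ℤ ⧸ sqI))

/-- the projection -/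
noncomputable def mkT : MvPolynomial ℕ ℤ →+* TW := Ideal.Quotient.mk sqI

/-- a weight -/
noncomputable def yw (i : ℕ) : TW := mkT (MvPolynomial.X i)

theorem yw_sq (i : ℕ) : yw i * yw i = 0 := by
  unfold yw
  rw [← map_mul, ← pow_two]
  exact Ideal.Quotient.eq_zero_iff_mem.2 (Ideal.subset_span ⟨i, rfl⟩)

/-- the exponent of a product of different weights -/
noncomputable def ex (U : Finset ℕ) : ℕ →₀ ℕ := ∑ i ∈ U, Finsupp.single i 1

theorem ex_apply (U : Finset ℕ) (i : ℕ) : ex U i = if i ∈ U then 1 else 0 := by
  unfold ex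
  rw [Finsupp.finsetSum_apply]
  simp only [Finsupp.single_apply]
  rw [Finset.sum_ite_eq' U i]

theorem ex_inj (U V : Finset ℕ) : ex U = ex V ↔ U = V := by
  constructor
  · intro h
    ext i
    have h1 := DFunLike.congr_fun h i
    rw [ex_apply, ex_apply] at h1
    by_cases hU : i ∈ U <;> by_cases hV : i ∈ V <;> simp [hU, hV] at h1 ⊢
  · rintro rfl
    rfl

theorem coeff_sqI (U : Finset ℕ) (a : MvPolynomial ℕ ℤ) (ha : a ∈ sqI) :
    ∀ f : MvPolynomial ℕ ℤ, MvPolynomial.coeff (ex U) (f * a) = 0 := by
  unfold sqI at ha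
  induction ha using Submodule.span_induction with
  | mem x hx =>
    obtain ⟨i, rfl⟩ := hx
    intro f
    change MvPolynomial.coeff (ex U) (f * (MvPolynomial.X i) ^ 2) = 0
    rw [MvPolynomial.X_pow_eq_monomial, MvPolynomial.coeff_mul_monomial', if_neg]
    intro h
    have h1 := h i
    rw [Finsupp.single_eq_same, ex_apply] at h1
    split_ifs at h1 <;> omega
  | zero => intro f; simp
  | add x y _ _ hx hy => intro f; rw [mul_add, MvPolynomial.coeff_add, hx, hy, add_zero]
  | smul r x _ hx => intro f; rw [smul_eq_mul, ← mul_assoc]; exact hx _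

/-- the coefficient, on the quotient -/
noncomputable def psi0 (U : Finset ℕ) : (MvPolynomial ℕ ℤ ⧸ sqI) →+ ℤ :=
  QuotientAddGroup.lift sqI.toAddSubgroup
    (MvPolynomial.lcoeff ℤ (ex U)).toAddMonoidHom (by
      intro a ha
      have h := coeff_sqI U a ha 1
      rw [one_mul] at h
      exact h)

/-- the coefficient of a product of different weights -/
noncomputable def psi (U : Finset ℕ) : TW →+ ℤ where
  toFun a := psi0 U a
  map_zero' := map_zero (psi0 U)
  map_add' a b := map_add (psi0 U) a b

theorem psi_mk (U : Finset ℕ) (a : MvPolynomial ℕ ℤ) :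
    psi U (mkT a) = MvPolynomial.coeff (ex U) a := rfl

theorem psi_prod (U V : Finset ℕ) : psi U (∏ i ∈ V, yw i) = if V = U then 1 else 0 := by
  have h : (∏ i ∈ V, yw i) = mkT (MvPolynomial.monomial (ex V) 1) := by
    unfold ex yw
    rw [MvPolynomial.monomial_sum_one, map_prod]
    rfl
  rw [h, psi_mk, MvPolynomial.coeff_monomial]
  simp only [ex_inj]

/-! ### monomials in `t` and the weights -/

section mon

variable {R : Type} [CommRing R] (t : R) (y : ℕ → R)

/-- `(-t)^e ∏ y_i` -/
def mon (e : ℕ) (V : Finset ℕ) : R := (-t) ^ e * ∏ i ∈ V, y i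

/-- the coefficient of a loop of length `m` with the weight `i` -/
def cu (m i : ℕ) : R := -((-t) ^ m * y i)

theorem cu_mul_mon (m i e : ℕ) (V : Finset ℕ) (hi : i ∉ V) :
    cu t y m i * mon t y e V = -mon t y (e + m) (insert i V) := by
  unfold cu mon
  rw [Finset.prod_insert hi, pow_add]
  ring

theorem cu_sq (hy : ∀ i, y i * y i = 0) (m i : ℕ) : cu t y m i * cu t y m i = 0 := by
  unfold cu
  calc _ = (-t) ^ m * (-t) ^ m * (y i * y i) := by ring
    _ = 0 := by rw [hy, mul_zero]

end mon

/-! ### the value of `D` -/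

section D

variable {ι Φ E : Type} [Fintype ι] [DecidableEq ι] [Ring Φ] [Ring E] (S : Str ι Φ E)
variable {k : ℕ} (p : Fin k ↪ ι)

/-- the trace `Σ_i ρ_{p i}(w)` -/
def Tr (w : Φ) : E := ∑ i : Fin k, S.ρ (p i) w

theorem prod_sq {F : Type} [Ring F] {R : Type} [CommRing R] (c : R) (hc : c * c = 0) :
    ∀ (m : ℕ) (a : Fin m → F), (List.ofFn fun i => (1 + c ⊗ₜ[ℤ] a i : R ⊗[ℤ] F)).prod =
      1 + c ⊗ₜ[ℤ] ∑ i, a i := by
  intro m
  induction m with
  | zero => intro a; simp
  | succ m ih =>
    intro a
    rw [List.ofFn_succ, List.prod_cons, ih fun i => a i.succ, Fin.sum_univ_succ, add_mul, mul_add,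
      one_mul, one_mul, mul_add, Algebra.TensorProduct.tmul_mul_tmul, hc, TensorProduct.zero_tmul,
      add_zero, TensorProduct.tmul_add, mul_one]
    abel

theorem D_loop (R : Type) [CommRing R] (c : R) (hc : c * c = 0) (w : Φ) :
    (S.base R).D p (fun _ => 1 + c ⊗ₜ[ℤ] w) = 1 + c ⊗ₜ[ℤ] Tr S p w := by
  unfold Str.D Tr
  rw [← prod_sq c hc k fun i => S.ρ (p i) w]
  congr 1
  refine congrArg List.ofFn (funext fun i => ?_)
  rw [map_add, map_one, base_rho_tmul]

variable {A : Type} (x : A → Φ) (n : ℕ)
variable {R : Type} [CommRing R] (t : R) (y : ℕ → R)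

/-- loop data: the first place, the other places, the number of the weight -/
abbrev LD (A : Type) : Type := A × List A × ℕ

/-- the word of a loop -/
def wd (u : LD A) : Φ := ((u.1 :: u.2.1).map x).prod

/-- the product of the values of the loops, with their weights -/
noncomputable def GG : List (LD A) → R ⊗[ℤ] E
  | [] => 1
  | u :: us => GG us * (1 + cu t y (u.2.1.length + 1) u.2.2 ⊗ₜ[ℤ] Tr S p (wd x u))

/-- the loops over the base change -/
noncomputable def toLp (u : LD A) : Lp A (R ⊗[ℤ] Φ) := (u.1, u.2.1, y u.2.2 ⊗ₜ 1)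

theorem map_one_tmul (l : List A) :
    (l.map fun a => ((1 : R) ⊗ₜ[ℤ] x a : R ⊗[ℤ] Φ)).prod = 1 ⊗ₜ (l.map x).prod := by
  induction l with
  | nil => rfl
  | cons a l ih =>
    rw [List.map_cons, List.prod_cons, ih, Algebra.TensorProduct.tmul_mul_tmul, one_mul,
      List.map_cons, List.prod_cons]

theorem D_Fl (hy : ∀ i, y i * y i = 0) (us : List (LD A)) :
    (S.base R).D p (fun _ => Fl (t ⊗ₜ[ℤ] (1 : Φ))
      (fun a => (1 : R) ⊗ₜ[ℤ] x a) (us.map (toLp y))) = GG S p x t y us := by
  induction us with
  | nil =>
    change (S.base R).D p (fun _ => 1) = 1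
    exact D_one _ _
  | cons u us ih =>
    change (S.base R).D p (fun _ => Fl _ _ (us.map (toLp y)) *
      (1 - (-(t ⊗ₜ[ℤ] (1 : Φ))) ^ (u.2.1.length + 1) *
        ((y u.2.2 ⊗ₜ[ℤ] (1 : Φ)) *
          ((u.1 :: u.2.1).map fun a => (1 : R) ⊗ₜ[ℤ] x a).prod))) = _
    rw [B4_D_mul_const _ _ p.injective, ih, map_one_tmul]
    have h1 : (1 - (-(t ⊗ₜ[ℤ] (1 : Φ))) ^ (u.2.1.length + 1) *
        ((y u.2.2 ⊗ₜ[ℤ] (1 : Φ)) *
          ((1 : R) ⊗ₜ[ℤ] ((u.1 :: u.2.1).map x).prod))) =
        (1 + cu t y (u.2.1.length + 1) u.2.2 ⊗ₜ[ℤ] wd x u : R ⊗[ℤ] Φ) := by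
      rw [← TensorProduct.neg_tmul, Algebra.TensorProduct.tmul_pow, one_pow,
        Algebra.TensorProduct.tmul_mul_tmul, Algebra.TensorProduct.tmul_mul_tmul, mul_one, one_mul,
        one_mul, sub_eq_add_neg, ← TensorProduct.neg_tmul]
      rfl
    rw [h1, D_loop S p _ _ (cu_sq t y hy _ _)]
    rfl

theorem mul_neg_tmul {R F : Type} [CommRing R] [Ring F] (g : R ⊗[ℤ] F) (a : R) (b : F) :
    g * ((-a) ⊗ₜ[ℤ] b) = -(g * (a ⊗ₜ[ℤ] b)) := by
  apply eq_neg_of_add_eq_zero_left
  rw [← mul_add, ← TensorProduct.add_tmul, neg_add_cancel, TensorProduct.zero_tmul, mul_zero]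

variable (th : Finset ℕ → R →+ ℤ)

/-- the functional with values in `E` -/
noncomputable def TE (U : Finset ℕ) : R ⊗[ℤ] E →+ E :=
  ((TensorProduct.lid ℤ E).toLinearMap ∘ₗ (th U).toIntLinearMap.rTensor E).toAddMonoidHom

theorem TE_tmul (U : Finset ℕ) (a : R) (e : E) :
    TE (E := E) th U (a ⊗ₜ e) = th U a • e := by
  change (TensorProduct.lid ℤ E) ((th U).toIntLinearMap.rTensor E (a ⊗ₜ e)) = _
  rw [LinearMap.rTensor_tmul, TensorProduct.lid_tmul]
  rfl

/-- the numbers of the weights -/
def idx (us : List (LD A)) : List ℕ := us.map fun u => u.2.2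

variable (hth : ∀ (e : ℕ) (U V : Finset ℕ), th U (mon t y e V) =
  if e = n ∧ V = U then (-1) ^ n else 0)
include hth

theorem TE_null (U : Finset ℕ) (us : List (LD A)) : ∀ (V : Finset ℕ) (e : ℕ) (W : E),
    (idx us).Nodup → (∀ i ∈ idx us, i ∉ V) → (∃ i ∈ U, i ∉ V ∧ i ∉ idx us) →
    TE th U (GG S p x t y us * (mon t y e V ⊗ₜ[ℤ] W)) = 0 := by
  induction us with
  | nil =>
    rintro V e W - - ⟨i, hi, hV, -⟩
    change TE th U (1 * (mon t y e V ⊗ₜ[ℤ] W)) = 0
    rw [one_mul, TE_tmul, hth, if_neg, zero_smul]
    rintro ⟨-, rfl⟩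
    exact hV hi
  | cons u us ih =>
    rintro V e W hnd hd ⟨i, hi, hV, hu⟩
    change TE th U (GG S p x t y us * (1 + cu t y (u.2.1.length + 1) u.2.2 ⊗ₜ[ℤ]
      Tr S p (wd x u)) * (mon t y e V ⊗ₜ[ℤ] W)) = 0
    have h1 : (idx us).Nodup ∧ u.2.2 ∉ idx us :=
      ⟨(List.nodup_cons.1 hnd).2, (List.nodup_cons.1 hnd).1⟩
    have h2 : u.2.2 ∉ V := hd _ List.mem_cons_self
    have h3 : i ≠ u.2.2 := fun h => hu (h ▸ List.mem_cons_self)
    have h4 : i ∉ idx us := fun h => hu (List.mem_cons_of_mem _ h)
    rw [mul_assoc, add_mul, one_mul, mul_add, map_add, Algebra.TensorProduct.tmul_mul_tmul,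
      cu_mul_mon t y _ _ _ _ h2, mul_neg_tmul, map_neg,
      ih V e W h1.1 (fun j hj => hd j (List.mem_cons_of_mem _ hj)) ⟨i, hi, hV, h4⟩,
      ih (insert u.2.2 V) _ _ h1.1 ?_ ?_, neg_zero, add_zero]
    · intro j hj hj2
      rw [Finset.mem_insert] at hj2
      rcases hj2 with rfl | hj2
      · exact h1.2 hj
      · exact hd j (List.mem_cons_of_mem _ hj) hj2
    · refine ⟨i, hi, ?_, h4⟩
      rw [Finset.mem_insert]
      tauto

omit hth in
/-- the product of the traces of the loops -/
def RR : List (LD A) → E → E
  | [], W => W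
  | u :: us, W => RR us (Tr S p (wd x u) * W)

omit hth in
/-- the number of the places of the loops -/
def len (us : List (LD A)) : ℕ := (us.map fun u => u.2.1.length + 1).sum

theorem TE_full (U : Finset ℕ) (us : List (LD A)) : ∀ (V : Finset ℕ) (e : ℕ) (W : E),
    (idx us).Nodup → (∀ i ∈ idx us, i ∉ V) → (∀ i, i ∈ U ↔ i ∈ V ∨ i ∈ idx us) →
    e + len us = n → TE th U (GG S p x t y us * (mon t y e V ⊗ₜ[ℤ] W)) =
      ((-1) ^ n * (-1) ^ us.length : ℤ) • RR S p x us W := by
  induction us with
  | nil =>
    rintro V e W - - hU he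
    change TE th U (1 * (mon t y e V ⊗ₜ[ℤ] W)) = _
    rw [one_mul, TE_tmul, hth, if_pos]
    · simp only [List.length_nil, pow_zero, mul_one]
      rfl
    · refine ⟨by simpa [len] using he, ?_⟩
      ext i
      rw [hU i]
      simp [idx]
  | cons u us ih =>
    rintro V e W hnd hd hU he
    change TE th U (GG S p x t y us * (1 + cu t y (u.2.1.length + 1) u.2.2 ⊗ₜ[ℤ]
      Tr S p (wd x u)) * (mon t y e V ⊗ₜ[ℤ] W)) = _
    have h1 : (idx us).Nodup ∧ u.2.2 ∉ idx us :=
      ⟨(List.nodup_cons.1 hnd).2, (List.nodup_cons.1 hnd).1⟩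
    have h2 : u.2.2 ∉ V := hd _ List.mem_cons_self
    have h5 : e + (u.2.1.length + 1) + len us = n := by
      rw [← he]
      change _ = e + ((u.2.1.length + 1) + len us)
      omega
    rw [mul_assoc, add_mul, one_mul, mul_add, map_add, Algebra.TensorProduct.tmul_mul_tmul,
      cu_mul_mon t y _ _ _ _ h2, mul_neg_tmul, map_neg,
      TE_null S p x n t y th hth U us V e W h1.1 (fun j hj => hd j (List.mem_cons_of_mem _ hj))
        ⟨u.2.2, (hU _).2 (Or.inr List.mem_cons_self), h2, h1.2⟩,
      ih (insert u.2.2 V) _ _ h1.1 ?_ ?_ h5, zero_add, List.length_cons, pow_succ, ← neg_smul]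
    · congr 1
      ring
    · intro j hj hj2
      rw [Finset.mem_insert] at hj2
      rcases hj2 with rfl | hj2
      · exact h1.2 hj
      · exact hd j (List.mem_cons_of_mem _ hj) hj2
    · intro i
      rw [hU i, Finset.mem_insert]
      change i ∈ V ∨ i ∈ u.2.2 :: idx us ↔ _
      rw [List.mem_cons]
      tauto

end D

/-! ### the truncated polynomials -/

section trunc

/-- the functional on the truncated polynomials -/
noncomputable def Th (n : ℕ) (U : Finset ℕ) : Trunc TW n →+ ℤ := (psi U).comp (tcoef TW n)

theorem Th_mon (n e : ℕ) (U V : Finset ℕ) :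
    Th n U (mon (tt TW n) (fun i => inT TW n (yw i)) e V) =
      if e = n ∧ V = U then (-1) ^ n else 0 := by
  have h : mon (tt TW n) (fun i => inT TW n (yw i)) e V = Ideal.Quotient.mk
      (Ideal.span {(Polynomial.X : Polynomial TW) ^ (n + 1)})
        ((-Polynomial.X) ^ e * Polynomial.C (∏ i ∈ V, yw i)) := by
    rw [map_mul, map_pow, map_neg]
    unfold mon
    rw [← map_prod (inT TW n)]
    rfl
  unfold Th
  rw [AddMonoidHom.comp_apply, h, tcoef_mk, Polynomial.coeff_mul_C, neg_pow, ← Polynomial.C_1,
    ← Polynomial.C_neg, ← Polynomial.C_pow, Polynomial.coeff_C_mul_X_pow]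
  by_cases he : e = n
  · subst he
    have h1 : ((-1 : TW) ^ e * ∏ i ∈ V, yw i) = ((-1) ^ e : ℤ) • ∏ i ∈ V, yw i := by
      rw [zsmul_eq_mul]
      push_cast
      rfl
    rw [if_pos rfl, h1, map_zsmul, psi_prod]
    by_cases hV : V = U
    · rw [if_pos hV, if_pos ⟨rfl, hV⟩, smul_eq_mul, mul_one]
    · rw [if_neg hV, if_neg (fun h => hV h.2), smul_zero]
  · rw [if_neg (fun h => he h.symm), if_neg (fun h => he h.1), zero_mul, map_zero]

theorem inT_sq (n i : ℕ) : inT TW n (yw i) * inT TW n (yw i) = 0 := by
  rw [← map_mul, yw_sq, map_zero]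

end trunc

end Pool.PI34.EV

end

/-! ### part EV_Mat -/
section

/-!
PI34, block EV (even input of (S_ex)), file Mat: the matrix of a path and loops, the relation to `P_ξ`.
-/

set_option autoImplicit false
set_option linter.unusedSectionVars false

namespace Pool.PI34.EV

open Equiv Finset Matrix
open Pool.PI34.BA
open scoped TensorProduct

section edges

variable {A T : Type} [Fintype A] [DecidableEq A] [CommRing T]

/-- edges: tail, head, weight -/
abbrev Ed (A T : Type) : Type := Option A × Option A × T

/-- the matrix of a list of edges -/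
def Bm (L : List (Ed A T)) : Matrix (Option A) (Option A) T :=
  (L.map fun e => Matrix.single e.1 e.2.1 e.2.2).sum

theorem Bm_row_notMem (L : List (Ed A T)) (a : Option A) (h : a ∉ L.map Prod.fst) :
    Bm L a = 0 := by
  induction L with
  | nil => rfl
  | cons e L ih =>
    rw [List.map_cons, List.mem_cons, not_or] at h
    have h1 : Bm (e :: L) = Matrix.single e.1 e.2.1 e.2.2 + Bm L := rfl
    rw [h1]
    funext b
    have h2 := congrFun (ih h.2) b
    rw [Matrix.add_apply, h2, Matrix.single_apply, if_neg (fun h3 => h.1 h3.1.symm)]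
    simp

theorem Bm_row (L : List (Ed A T)) (hnd : (L.map Prod.fst).Nodup) (e : Ed A T) (he : e ∈ L) :
    Bm L e.1 = Pi.single e.2.1 e.2.2 := by
  induction L with
  | nil => exact absurd he (List.not_mem_nil)
  | cons f L ih =>
    have h1 : Bm (f :: L) = Matrix.single f.1 f.2.1 f.2.2 + Bm L := rfl
    rw [List.map_cons, List.nodup_cons] at hnd
    rw [h1]
    funext b
    rw [Matrix.add_apply, Matrix.single_apply]
    rcases List.mem_cons.1 he with rfl | he
    · rw [Bm_row_notMem L _ hnd.1, Pi.zero_apply, add_zero, Pi.single_apply]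
      simp [eq_comm]
    · have h2 : f.1 ≠ e.1 := fun h => hnd.1 (h ▸ List.mem_map_of_mem (f := Prod.fst) he)
      rw [if_neg (fun h => h2 h.1), zero_add, ih hnd.2 he]

/-- the arcs of a list, with the last arc `→ stop` of weight `w` -/
def arcs (stop : Option A) (w : T) : List A → List (Ed A T)
  | [] => []
  | [a] => [(some a, stop, w)]
  | a :: b :: v => (some a, some b, 1) :: arcs stop w (b :: v)

theorem arcs_fst (stop : Option A) (w : T) (v : List A) :
    (arcs stop w v).map Prod.fst = v.map some := by
  induction v with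
  | nil => rfl
  | cons a v ih =>
    cases v with
    | nil => rfl
    | cons b v =>
      rw [arcs, List.map_cons, ih]
      rfl

theorem arcs_last (stop : Option A) (w : T) (a : A) (v : List A) :
    (some ((a :: v).getLast (by simp)), stop, w) ∈ arcs stop w (a :: v) := by
  induction v generalizing a with
  | nil => exact List.mem_singleton.2 rfl
  | cons b v ih =>
    rw [arcs, List.getLast_cons (by simp)]
    exact List.mem_cons_of_mem _ (ih b)

/-- the arcs of the path -/
def pathE : List A → List (Ed A T)
  | [] => [(none, none, 1)]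
  | a :: v => (none, some a, 1) :: arcs none 1 (a :: v)

theorem pathE_fst (v : List A) : (pathE (T := T) v).map Prod.fst = none :: v.map some := by
  cases v with
  | nil => rfl
  | cons a v => rw [pathE, List.map_cons, arcs_fst]

variable (y : ℕ → T)

/-- the arcs of a loop -/
def loopE (u : LD A) : List (Ed A T) := arcs (some u.1) (y u.2.2) (u.1 :: u.2.1)

theorem loopE_fst (u : LD A) : (loopE y u).map Prod.fst = (u.1 :: u.2.1).map some := arcs_fst _ _ _

/-- all the arcs -/
def allE (v : List A) (us : List (LD A)) : List (Ed A T) := pathE v ++ (us.map (loopE y)).flatten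

/-- the places of the loops, in the natural order -/
def pl (us : List (LD A)) : List A := (us.map fun u => u.1 :: u.2.1).flatten

theorem allE_fst (v : List A) (us : List (LD A)) :
    (allE y v us).map Prod.fst = none :: (v ++ pl us).map some := by
  unfold allE pl
  rw [List.map_append, pathE_fst, List.map_append, List.cons_append, List.map_flatten,
    List.map_flatten, List.map_map, List.map_map]
  congr 2
  refine congrArg List.flatten (List.map_congr_left fun u _ => ?_)
  exact loopE_fst y u

theorem allE_nodup (v : List A) (us : List (LD A)) (h : (v ++ pl us).Nodup) :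
    ((allE y v us).map Prod.fst).Nodup := by
  rw [allE_fst, List.nodup_cons]
  refine ⟨by simp, h.map (Option.some_injective A)⟩

end edges

section rows

variable {A T : Type} [Fintype A] [DecidableEq A] [CommRing T]
variable {Λ : Type} [Ring Λ] (φ : T →+* Λ) (x : A → Λ)
variable (L : List (Ed A T)) (hnd : (L.map Prod.fst).Nodup)
include hnd

theorem BX_row_some (a b : A) (w : T) (h : (some a, some b, w) ∈ L) :
    BX x ((Bm L).map φ) a = Pi.single b (φ w * x b) := by
  funext c
  have h1 := congrFun (Bm_row L hnd _ h) (some c)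
  change φ (Bm L (some a) (some c)) * x c = _
  rw [h1, Pi.single_apply, Pi.single_apply]
  by_cases hc : c = b
  · subst hc
    simp
  · rw [if_neg hc, if_neg (fun h => hc (Option.some_injective _ h)), map_zero, zero_mul]

theorem BX_row_none (a : A) (w : T) (h : (some a, none, w) ∈ L) :
    BX x ((Bm L).map φ) a = 0 := by
  funext c
  have h1 := congrFun (Bm_row L hnd _ h) (some c)
  change φ (Bm L (some a) (some c)) * x c = _
  rw [h1, Pi.single_apply, if_neg (by simp), map_zero, zero_mul]
  rfl

omit hnd in
theorem BX_row_notMem (a : A) (h : some a ∉ L.map Prod.fst) :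
    BX x ((Bm L).map φ) a = 0 := by
  funext c
  have h1 := congrFun (Bm_row_notMem L _ h) (some c)
  change φ (Bm L (some a) (some c)) * x c = _
  rw [h1, Pi.zero_apply, map_zero, zero_mul]
  rfl

theorem arcs_follows (stop : Option A) (w : T) (v : List A) (h : ∀ e ∈ arcs stop w v, e ∈ L) :
    Follows (BX x ((Bm L).map φ)) x v := by
  induction v with
  | nil => trivial
  | cons a v ih =>
    cases v with
    | nil => trivial
    | cons b v =>
      refine ⟨?_, ih fun e he => h e (List.mem_cons_of_mem _ he)⟩
      rw [BX_row_some φ x L hnd a b 1 (h _ List.mem_cons_self), map_one, one_mul]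

end rows

section final

variable {A T : Type} [Fintype A] [DecidableEq A] [CommRing T]
variable {Λ : Type} [Ring Λ] (φ : T →+* Λ) (x : A → Λ) (y : ℕ → T)
variable (v : List A) (us : List (LD A)) (hnd : (v ++ pl us).Nodup)
include hnd

theorem isLoop_of (u : LD A) (hu : u ∈ us) :
    IsLoop (BX x ((Bm (allE y v us)).map φ)) x (u.1, u.2.1, φ (y u.2.2)) := by
  have hL : ∀ e ∈ loopE y u, e ∈ allE y v us := by
    intro e he
    unfold allE
    rw [List.mem_append]
    refine Or.inr ?_
    rw [List.mem_flatten]
    exact ⟨_, List.mem_map_of_mem hu, he⟩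
  refine ⟨arcs_follows φ x _ (allE_nodup y v us hnd) _ _ _ hL, ?_⟩
  exact BX_row_some φ x _ (allE_nodup y v us hnd) _ _ _ (hL _ (arcs_last _ _ _ _))

theorem isPath_of : IsPath (BX x ((Bm (allE y v us)).map φ)) x v := by
  cases v with
  | nil => exact ⟨trivial, by simp⟩
  | cons a v =>
    have hL : ∀ e ∈ arcs none 1 (a :: v), e ∈ allE y (a :: v) us := by
      intro e he
      unfold allE
      rw [List.mem_append]
      exact Or.inl (List.mem_cons_of_mem _ he)
    refine ⟨arcs_follows φ x _ (allE_nodup y _ us hnd) _ _ _ hL, ?_⟩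
    intro b hb
    rw [List.getLast?_eq_some_getLast (by simp)] at hb
    obtain rfl := Option.some_injective _ (Option.mem_def.1 hb)
    exact BX_row_none φ x _ (allE_nodup y _ us hnd) _ _ (hL _ (arcs_last _ _ _ _))

theorem row_zero_of (a : A) (h1 : a ∉ v) (h2 : a ∉ pl us) :
    BX x ((Bm (allE y v us)).map φ) a = 0 := by
  apply BX_row_notMem
  rw [allE_fst, List.mem_cons, not_or]
  refine ⟨by simp, ?_⟩
  intro h
  obtain ⟨b, hb, hab⟩ := List.mem_map.1 h
  obtain rfl := Option.some_injective _ hab
  rw [List.mem_append] at hb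
  exact hb.elim h1 h2

theorem none_row : Bm (allE y v us) none = Pi.single v.head? 1 := by
  have hn := allE_nodup y v us hnd
  cases v with
  | nil => exact Bm_row _ hn (none, none, 1) (List.mem_cons_self)
  | cons a v => exact Bm_row _ hn (none, some a, 1) (List.mem_cons_self)

theorem none_col (b : A) : Bm (allE y v us) (some b) none =
    if v.getLast? = some b then 1 else 0 := by
  have hn := allE_nodup y v us hnd
  by_cases hb : some b ∈ (allE y v us).map Prod.fst
  · obtain ⟨e, he, hb'⟩ := List.mem_map.1 hb
    have hrow := Bm_row _ hn e he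
    rw [hb'] at hrow
    rw [hrow, Pi.single_apply]
    unfold allE at he
    rw [List.mem_append] at he
    rcases he with he | he
    · -- the edge is in the path
      cases v with
      | nil =>
        rw [pathE, List.mem_singleton] at he
        subst he
        exact absurd hb' (by simp)
      | cons a v =>
        rw [pathE, List.mem_cons] at he
        rcases he with rfl | he
        · exact absurd hb' (by simp)
        · have hlast : ((a :: v).getLast? = some b) ↔ (a :: v).getLast (by simp) = b := by
            rw [List.getLast?_eq_some_getLast (by simp), Option.some_inj]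
          have key : ∀ (v : List A) (a : A), (a :: v).Nodup → e ∈ arcs (none : Option A) (1 : T) (a :: v) →
              (if none = e.2.1 then e.2.2 else 0) =
                if (a :: v).getLast (by simp) = b then 1 else 0 := by
            intro v
            induction v with
            | nil =>
              intro a _ he
              rw [arcs, List.mem_singleton] at he
              have h3 : a = b := by
                rw [he] at hb'
                exact Option.some_injective _ hb'
              rw [he, h3]
              simp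
            | cons c v ih =>
              intro a hnd' he
              rw [arcs, List.mem_cons] at he
              have h5 : (a :: c :: v).getLast (by simp) = (c :: v).getLast (by simp) :=
                List.getLast_cons (by simp)
              rcases he with he | he
              · have h3 : a = b := by
                  rw [he] at hb'
                  exact Option.some_injective _ hb'
                rw [he, if_neg (by simp), if_neg]
                rw [h5]
                intro h4
                refine (List.nodup_cons.1 hnd').1 ?_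
                rw [h3, ← h4]
                exact List.getLast_mem (by simp)
              · rw [ih c (List.nodup_cons.1 hnd').2 he, h5]
          rw [key v a (List.nodup_append.1 hnd).1 he]
          simp only [hlast]
    · -- the edge is in a loop
      rw [List.mem_flatten] at he
      obtain ⟨l, hl, he⟩ := he
      obtain ⟨u, hu, rfl⟩ := List.mem_map.1 hl
      have h3 : ∀ (v : List A) (a : A) (s : A) (w : T), e ∈ arcs (some s) w (a :: v) →
          e.2.1 ≠ none := by
        intro v
        induction v with
        | nil =>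
          intro a s w he
          rw [arcs, List.mem_singleton] at he
          rw [he]
          simp
        | cons c v ih =>
          intro a s w he
          rw [arcs, List.mem_cons] at he
          rcases he with rfl | he
          · simp
          · exact ih c s w he
      rw [if_neg (fun h => h3 _ _ _ _ he h.symm), if_neg]
      intro h4
      have h5 : b ∈ v := List.mem_of_getLast? h4
      have h6 : b ∈ pl us := by
        unfold pl
        rw [List.mem_flatten]
        refine ⟨_, List.mem_map_of_mem hu, ?_⟩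
        have h7 : e.1 ∈ (loopE y u).map Prod.fst := List.mem_map_of_mem he
        rw [loopE_fst, hb'] at h7
        obtain ⟨c, hc, hcb⟩ := List.mem_map.1 h7
        obtain rfl := Option.some_injective _ hcb
        exact hc
      exact (List.nodup_append.1 hnd).2.2 b h5 b h6 rfl
  · rw [Bm_row_notMem _ _ hb, Pi.zero_apply, if_neg]
    intro h4
    apply hb
    rw [allE_fst, List.mem_cons]
    refine Or.inr (List.mem_map_of_mem ?_)
    exact List.mem_append_left _ (List.mem_of_getLast? h4)

theorem qq_of (t : Λ) (ht : ∀ y, t * y = y * t) (hn : IsNilpotent t) :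
    qq t x ((Bm (allE y v us)).map φ) = (-t) ^ v.length * (v.map x).prod := by
  have h1 := none_row y v us hnd
  refine qq_path' t ht hn x _ v (List.nodup_append.1 hnd).1 (isPath_of φ x y v us hnd) ?_ ?_ ?_
  · change φ (Bm (allE y v us) none none) = _
    rw [h1]
    cases v with
    | nil => simp
    | cons a v => simp
  · intro c
    change φ (Bm (allE y v us) none (some c)) = _
    rw [h1, Pi.single_apply]
    by_cases hc : v.head? = some c
    · rw [if_pos hc.symm, if_pos hc, map_one]
    · rw [if_neg (fun h => hc h.symm), if_neg hc, map_zero]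
  · intro b
    change φ (Bm (allE y v us) (some b) none) = _
    rw [none_col y v us hnd b]
    split_ifs
    · exact map_one φ
    · exact map_zero φ

end final

end Pool.PI34.EV

end

/-! ### part EV_Data -/
section

/-!
PI34, block EV (even input of (S_ex)), file Data: every permutation of `Option A` is given by a word and loops.
-/

set_option autoImplicit false
set_option linter.unusedSectionVars false

namespace Pool.PI34.EV

open Equiv Finset

section fp

variable {T : Type} [DecidableEq T]

theorem formPerm_insert (l1 l2 : List T) (a b : T) (hnd : (l1 ++ a :: b :: l2).Nodup) :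
    (l1 ++ a :: b :: l2).formPerm = swap a b * (l1 ++ b :: l2).formPerm := by
  have hnd2 : (l1 ++ b :: l2).Nodup := by
    refine hnd.sublist ?_
    exact (List.Sublist.refl l1).append (List.sublist_cons_self a _)
  rw [List.formPerm_eq_of_isRotated hnd (List.isRotated_append (l := l1) (l' := a :: b :: l2)),
    List.formPerm_eq_of_isRotated hnd2 (List.isRotated_append (l := l1) (l' := b :: l2)),
    List.cons_append, List.cons_append, List.formPerm_cons_cons]

theorem formPerm_snoc (l : List T) (a b : T) (hnd : (b :: l ++ [a]).Nodup) :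
    (b :: l ++ [a]).formPerm = swap a b * (b :: l).formPerm := by
  rw [List.formPerm_eq_of_isRotated hnd (List.isRotated_append (l := b :: l) (l' := [a])),
    List.singleton_append, List.formPerm_cons_cons]

theorem swap_comm_of_fix (F : Perm T) (a b : T) (ha : F a = a) (hb : F b = b) :
    F * swap a b = swap a b * F := by
  rw [mul_swap_eq_swap_mul, ha, hb]

end fp

variable {A : Type} [DecidableEq A]

/-- the places of the loops -/
def plc (us : List (LD A)) : List A := (us.map fun u => u.1 :: u.2.1).flatten

/-- the product of the loops -/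
def Cp (us : List (LD A)) : Perm (Option A) :=
  (us.map fun u => ((u.1 :: u.2.1).map some).formPerm).prod

theorem map_formPerm_fix (l : List A) (a : A) (h : a ∉ l) : (l.map some).formPerm (some a) = some a := by
  refine List.formPerm_apply_of_notMem ?_
  intro h1
  obtain ⟨b, hb, hba⟩ := List.mem_map.1 h1
  exact h (Option.some_injective _ hba ▸ hb)

theorem ins_loop (u : LD A) (a b : A) (hb : b ∈ u.1 :: u.2.1) (hnd : (a :: u.1 :: u.2.1).Nodup) :
    ∃ u' : LD A, u'.2.2 = u.2.2 ∧ (u'.1 :: u'.2.1).Perm (a :: u.1 :: u.2.1) ∧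
      ((u'.1 :: u'.2.1).map some).formPerm =
        swap (some a) (some b) * ((u.1 :: u.2.1).map some).formPerm := by
  obtain ⟨l1, l2, hl⟩ := List.append_of_mem hb
  have hp : (l1 ++ a :: b :: l2).Perm (a :: u.1 :: u.2.1) := by
    rw [hl]
    exact List.perm_middle
  have hnd' : ((l1 ++ a :: b :: l2).map some).Nodup :=
    (hp.nodup_iff.2 hnd).map (Option.some_injective A)
  have key : ((l1 ++ a :: b :: l2).map some).formPerm =
      swap (some a) (some b) * ((u.1 :: u.2.1).map some).formPerm := by
    rw [hl]
    rw [List.map_append, List.map_cons, List.map_cons] at hnd' ⊢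
    rw [formPerm_insert _ _ _ _ hnd', List.map_append, List.map_cons]
  cases l1 with
  | nil => exact ⟨(a, b :: l2, u.2.2), rfl, hp, key⟩
  | cons c l1 => exact ⟨(c, l1 ++ a :: b :: l2, u.2.2), rfl, hp, key⟩

theorem ins_loops (us : List (LD A)) (a b : A) (hb : b ∈ plc us) (hnd : (a :: plc us).Nodup) :
    ∃ us' : List (LD A), idx us' = idx us ∧ (plc us').Perm (a :: plc us) ∧
      Cp us' = swap (some a) (some b) * Cp us := by
  induction us with
  | nil => exact absurd hb (List.not_mem_nil)
  | cons u us ih =>
    have hpl : ∀ (u : LD A) us, plc (u :: us) = (u.1 :: u.2.1) ++ plc us := fun _ _ => rfl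
    have hCp : ∀ (u : LD A) us, Cp (u :: us) = ((u.1 :: u.2.1).map some).formPerm * Cp us :=
      fun _ _ => by unfold Cp; rw [List.map_cons, List.prod_cons]
    have hidx : ∀ (u : LD A) us, idx (u :: us) = u.2.2 :: idx us := fun _ _ => rfl
    rw [hpl] at hb hnd
    by_cases hbu : b ∈ u.1 :: u.2.1
    · obtain ⟨u', h1, h2, h3⟩ := ins_loop u a b hbu (hnd.sublist (by
        rw [← List.cons_append]
        exact List.sublist_append_left _ _))
      refine ⟨u' :: us, ?_, ?_, ?_⟩
      · rw [hidx, hidx, h1]
      · rw [hpl, hpl, ← List.cons_append]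
        exact h2.append_right _
      · rw [hCp, hCp, h3, mul_assoc]
    · have hb' : b ∈ plc us := (List.mem_append.1 hb).resolve_left hbu
      have ha : a ∉ u.1 :: u.2.1 ∧ a ∉ plc us := by
        have h := (List.nodup_cons.1 hnd).1
        rw [List.mem_append, not_or] at h
        exact h
      obtain ⟨us', h1, h2, h3⟩ := ih hb' (List.nodup_cons.2
        ⟨ha.2, (List.nodup_append.1 (List.nodup_cons.1 hnd).2).2.1⟩)
      refine ⟨u :: us', ?_, ?_, ?_⟩
      · rw [hidx, hidx, h1]
      · rw [hpl, hpl]
        exact (h2.append_left _).trans List.perm_middle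
      · rw [hCp, hCp, h3, ← mul_assoc, ← mul_assoc,
          swap_comm_of_fix _ _ _ (map_formPerm_fix _ _ ha.1) (map_formPerm_fix _ _ hbu)]

/-- the permutation of a word and loops -/
def cprod (w : List A) (us : List (LD A)) : Perm (Option A) :=
  (none :: w.map some).formPerm * Cp us

theorem word_fix (w : List A) (a : A) (h : a ∉ w) :
    (none :: w.map some).formPerm (some a) = some a := by
  refine List.formPerm_apply_of_notMem ?_
  rw [List.mem_cons, not_or]
  refine ⟨by simp, ?_⟩
  intro h1
  obtain ⟨b, hb, hba⟩ := List.mem_map.1 h1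
  exact h (Option.some_injective _ hba ▸ hb)

theorem nodup_none (w : List A) (hw : w.Nodup) : (none :: w.map some).Nodup :=
  List.nodup_cons.2 ⟨by simp, hw.map (Option.some_injective A)⟩

theorem ins_data (w : List A) (us : List (LD A)) (a : A) (b : Option A)
    (hb : ∀ b' ∈ b, b' ∈ w ++ plc us) (hnd : (a :: (w ++ plc us)).Nodup) :
    ∃ (w' : List A) (us' : List (LD A)), idx us' = idx us ∧
      (w' ++ plc us').Perm (a :: (w ++ plc us)) ∧ cprod w' us' = swap (some a) b * cprod w us := by
  have hw : (a :: w).Nodup := hnd.sublist (by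
    rw [← List.cons_append]
    exact List.sublist_append_left _ _)
  have ha : a ∉ w ∧ a ∉ plc us := by
    have h := (List.nodup_cons.1 hnd).1
    rw [List.mem_append, not_or] at h
    exact h
  cases b with
  | none =>
    refine ⟨w ++ [a], us, rfl, ?_, ?_⟩
    · rw [List.append_assoc, List.singleton_append]
      exact List.perm_middle
    · have h1 : (w ++ [a]).Nodup := (List.perm_append_singleton a w).nodup_iff.2 hw
      have h2 := nodup_none _ h1
      rw [List.map_append, List.map_singleton, ← List.cons_append] at h2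
      unfold cprod
      rw [List.map_append, List.map_singleton, ← List.cons_append, formPerm_snoc _ _ _ h2,
        mul_assoc]
  | some b' =>
    have hb1 := hb b' rfl
    by_cases hbw : b' ∈ w
    · obtain ⟨l1, l2, rfl⟩ := List.append_of_mem hbw
      refine ⟨l1 ++ a :: b' :: l2, us, rfl, ?_, ?_⟩
      · rw [← List.cons_append]
        exact (List.perm_middle (l₁ := l1)).append_right _
      · have h1 : (l1 ++ a :: b' :: l2).Nodup := (List.perm_middle (l₁ := l1)).nodup_iff.2 hw
        have h2 := nodup_none _ h1
        rw [List.map_append, List.map_cons, List.map_cons, ← List.cons_append] at h2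
        unfold cprod
        rw [List.map_append, List.map_cons, List.map_cons, ← List.cons_append,
          formPerm_insert _ _ _ _ h2, mul_assoc, List.map_append, List.map_cons,
          List.cons_append]
    · have hb2 : b' ∈ plc us := (List.mem_append.1 hb1).resolve_left hbw
      obtain ⟨us', h1, h2, h3⟩ := ins_loops us a b' hb2 (List.nodup_cons.2
        ⟨ha.2, (List.nodup_append.1 (List.nodup_cons.1 hnd).2).2.1⟩)
      refine ⟨w, us', h1, ?_, ?_⟩
      · exact (h2.append_left _).trans List.perm_middle
      · unfold cprod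
        rw [h3, ← mul_assoc, ← mul_assoc,
          swap_comm_of_fix _ _ _ (word_fix _ _ ha.1) (word_fix _ _ hbw)]

theorem exists_cprod (B : Finset A) : ∀ σ : Perm (Option A), (∀ a, a ∉ B → σ (some a) = some a) →
    ∃ (w : List A) (us : List (LD A)), (w ++ plc us).Nodup ∧ (∀ a, a ∈ w ++ plc us ↔ a ∈ B) ∧
      (idx us).Nodup ∧ cprod w us = σ := by
  induction B using Finset.induction_on with
  | empty =>
    intro σ hσ
    refine ⟨[], [], List.nodup_nil, fun a => by simp [plc], List.nodup_nil, ?_⟩
    have h1 : σ = 1 := by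
      ext1 x
      cases x with
      | none =>
        rw [Perm.one_apply]
        cases h : σ none with
        | none => rfl
        | some a =>
          have h2 := hσ a (Finset.notMem_empty a)
          exact absurd (σ.injective (h2.trans h.symm)) (by simp)
      | some a => exact hσ a (Finset.notMem_empty a)
    rw [h1]
    unfold cprod Cp
    simp
  | insert a B ha ih =>
    intro σ hσ
    by_cases hfix : σ (some a) = some a
    · obtain ⟨w, us, h1, h2, h3, h4⟩ := ih σ (fun c hc => by
        by_cases hca : c = a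
        · rw [hca, hfix]
        · exact hσ c (fun h => (Finset.mem_insert.1 h).elim hca hc))
      obtain ⟨N, hN⟩ := Infinite.exists_notMem_finset (idx us).toFinset
      have hp : (w ++ plc ((a, [], N) :: us)).Perm (a :: (w ++ plc us)) := List.perm_middle
      refine ⟨w, (a, [], N) :: us, ?_, ?_, ?_, ?_⟩
      · rw [hp.nodup_iff, List.nodup_cons]
        exact ⟨fun h => ha ((h2 a).1 h), h1⟩
      · intro c
        rw [hp.mem_iff, List.mem_cons, Finset.mem_insert, h2]
      · exact List.nodup_cons.2 ⟨fun h => hN (List.mem_toFinset.2 h), h3⟩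
      · rw [← h4]
        unfold cprod Cp
        rw [List.map_cons, List.prod_cons, List.map_singleton, List.formPerm_singleton, one_mul]
    · obtain ⟨σ', hσ'⟩ : ∃ σ', σ' = swap (some a) (σ (some a)) * σ := ⟨_, rfl⟩
      have hσ2 : σ = swap (some a) (σ (some a)) * σ' := by
        rw [hσ', ← mul_assoc, swap_mul_self, one_mul]
      obtain ⟨w, us, h1, h2, h3, h4⟩ := ih σ' (fun c hc => by
        rw [hσ', Perm.mul_apply]
        by_cases hca : c = a
        · rw [hca, swap_apply_right]
        · have h5 : σ (some c) = some c :=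
            hσ c (fun h => (Finset.mem_insert.1 h).elim hca hc)
          rw [h5]
          refine swap_apply_of_ne_of_ne (fun h => hca (Option.some_injective _ h)) ?_
          intro h
          exact hca (Option.some_injective _ (σ.injective (h5.trans h))))
      have hb : ∀ b' ∈ σ (some a), b' ∈ w ++ plc us := by
        intro b' hb'
        rw [Option.mem_def] at hb'
        rw [h2]
        by_contra hB
        by_cases hba : b' = a
        · exact hfix (hb'.trans (congrArg some hba))
        · have h5 : σ (some b') = some b' :=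
            hσ b' (fun h => (Finset.mem_insert.1 h).elim hba hB)
          exact hba (Option.some_injective _ (σ.injective (h5.trans hb'.symm)))
      have hnd : (a :: (w ++ plc us)).Nodup := List.nodup_cons.2 ⟨fun h => ha ((h2 a).1 h), h1⟩
      obtain ⟨w', us', h5, h6, h7⟩ := ins_data w us a (σ (some a)) hb hnd
      refine ⟨w', us', h6.nodup_iff.2 hnd, ?_, ?_, ?_⟩
      · intro c
        rw [h6.mem_iff, List.mem_cons, Finset.mem_insert, h2]
      · rw [h5]
        exact h3
      · rw [h7, h4, ← hσ2]

end Pool.PI34.EV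

end

/-! ### part EV_Rel0 -/
section

/-!
PI34, block EV (even input of (S_ex)), file Rel0: the value of `PP` at the matrix of a path and loops.
-/

set_option autoImplicit false
set_option linter.unusedSectionVars false

namespace Pool.PI34.EV

open Equiv Finset Matrix
open Pool.PI34.BA
open scoped TensorProduct

section places

variable {A Λ : Type} (f : LD A → Lp A Λ)

theorem places_perm (hf : ∀ u, (f u).1 = u.1 ∧ (f u).2.1 = u.2.1) (us : List (LD A)) :
    (places (us.map f)).Perm (pl us) := by
  induction us with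
  | nil => exact List.Perm.refl _
  | cons u us ih =>
    have h1 : places ((u :: us).map f) = ((f u).1 :: (f u).2.1).reverse ++ places (us.map f) := rfl
    have h2 : pl (u :: us) = (u.1 :: u.2.1) ++ pl us := rfl
    rw [h1, h2, (hf u).1, (hf u).2]
    exact (List.reverse_perm _).append ih

end places

/-- `-1` to a power acts invertibly -/
theorem neg_one_pow_mul_self (a : ℕ) : ((-1 : ℤ) ^ a) * (-1) ^ a = 1 := by
  rw [← mul_pow]
  norm_num

section gen

variable {A : Type} [Fintype A] [DecidableEq A]
variable {ι Φ E : Type} [Fintype ι] [DecidableEq ι] [Ring Φ] [Ring E] (S : Str ι Φ E)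
variable {k : ℕ} (p q : Fin k ↪ ι) (z : ι)
variable {T R : Type} [CommRing T] [CommRing R] (f : T →+* R) (t : R) (y : ℕ → T)

theorem PP_val (hA : Anti S.s k) (hF : Frame p q z) (hn : IsNilpotent t)
    (hy : ∀ i, f (y i) * f (y i) = 0) (x : A → Φ) (v : List A)
    (us : List (LD A)) (hnd : (v ++ pl us).Nodup) :
    (S.base R).PP p q z (t ⊗ₜ 1) (fun a => 1 ⊗ₜ x a)
      ((Bm (allE y v us)).map fun b => f b ⊗ₜ 1) =
      GG S p x t (fun i => f (y i)) us *
        (mon t (fun i => f (y i)) v.length ∅ ⊗ₜ (S.ρ z (v.map x).prod * S.om p q)) := by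
  classical
  let φ : T →+* R ⊗[ℤ] Φ := (d2_inc Φ R).comp f
  have e0 : ((Bm (allE y v us)).map fun b => (f b ⊗ₜ[ℤ] (1 : Φ) : R ⊗[ℤ] Φ)) =
    (Bm (allE y v us)).map φ := rfl
  rw [e0]
  have ht : ∀ w : R ⊗[ℤ] Φ, (t ⊗ₜ[ℤ] (1 : Φ)) * w = w * (t ⊗ₜ 1) :=
    fun w => tmul_one_comm R t w
  have hn' : IsNilpotent (t ⊗ₜ[ℤ] (1 : Φ)) := isNilpotent_tmul_one R t hn
  let y' : ℕ → R := fun i => f (y i)
  have hpp : (places (us.map (toLp (Φ := Φ) y'))).Perm (pl us) :=
    places_perm (toLp (Φ := Φ) y') (fun u => ⟨rfl, rfl⟩) us
  have hq : qq (t ⊗ₜ[ℤ] (1 : Φ)) (fun a : A => (1 : R) ⊗ₜ[ℤ] x a)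
      ((Bm (allE y v us)).map φ) = (-(t ⊗ₜ[ℤ] (1 : Φ))) ^ v.length *
        (v.map fun a => ((1 : R) ⊗ₜ[ℤ] x a : R ⊗[ℤ] Φ)).prod :=
    qq_of φ (fun a : A => (1 : R) ⊗ₜ[ℤ] x a) y v us hnd (t ⊗ₜ[ℤ] (1 : Φ)) ht hn'
  have h4 := PP_loops (S.base R) p q z (base_Anti S R k hA) hF
    (t ⊗ₜ[ℤ] (1 : Φ)) ht hn' (fun a : A => (1 : R) ⊗ₜ[ℤ] x a)
    ((Bm (allE y v us)).map φ) (us.map (toLp y')) v ?_ ?_ ?_ ?_ _ hq
  rotate_left
  · intro u hu
    obtain ⟨u', hu', rfl⟩ := List.mem_map.1 hu
    exact isLoop_of φ _ y v us hnd u' hu'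
  · exact isPath_of φ _ y v us hnd
  · rw [List.nodup_append] at hnd ⊢
    exact ⟨hpp.nodup_iff.2 hnd.2.1, hnd.1, fun a ha b hb h => hnd.2.2 b hb a (hpp.mem_iff.1 ha) h.symm⟩
  · intro a ha hv
    exact row_zero_of φ _ y v us hnd a hv (fun h => ha (hpp.mem_iff.2 h))
  have h6 := D_Fl S p x t y' hy us
  have h7 : (-(t ⊗ₜ[ℤ] (1 : Φ))) ^ v.length *
      (v.map fun a => ((1 : R) ⊗ₜ[ℤ] x a : R ⊗[ℤ] Φ)).prod =
      ((-t) ^ v.length) ⊗ₜ[ℤ] (v.map fun a => x a).prod := by
    rw [map_one_tmul x, ← TensorProduct.neg_tmul,
      Algebra.TensorProduct.tmul_pow, one_pow, Algebra.TensorProduct.tmul_mul_tmul, mul_one,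
      one_mul]
  have h8 : (-t) ^ v.length = mon t y' v.length ∅ := by
    unfold mon
    rw [Finset.prod_empty, mul_one]
  rw [h4, h6, h7, base_rho_tmul, base_om, mul_assoc, Algebra.TensorProduct.tmul_mul_tmul, mul_one,
    h8]

end gen

end Pool.PI34.EV

end

/-! ### part EV_Rel -/
section

/-!
PI34, block EV (even input of (S_ex)), file Rel: products of loops and a word are combinations of the `P_ξ`.
-/

set_option autoImplicit false
set_option linter.unusedSectionVars false

namespace Pool.PI34.EV

open Equiv Finset Matrix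
open Pool.PI34.BA
open scoped TensorProduct

section rel

variable (X : Type) [Fintype X] [DecidableEq X] (n : ℕ)

/-- the value of a word and loops -/
noncomputable def val {ι Φ E : Type} [Fintype ι] [DecidableEq ι] [Ring Φ] [Ring E]
    (S : Str ι Φ E) {k : ℕ} (p q : Fin k ↪ ι) (z : ι) {A : Type} (x : A → Φ) (v : List A)
    (us : List (LD A)) : E :=
  RR S p x us (S.ρ z (v.map x).prod * S.om p q)

/-- the coefficient of `∏_{i ∈ U} y_i`, with values in `E` -/
noncomputable def Ψ (E : Type) [Ring E] (U : Finset ℕ) : TW ⊗[ℤ] E →+ E :=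
  ((TensorProduct.lid ℤ E).toLinearMap ∘ₗ (psi U).toIntLinearMap.rTensor E).toAddMonoidHom

theorem Ψ_tmul (E : Type) [Ring E] (U : Finset ℕ) (a : TW) (e : E) :
    Ψ E U (a ⊗ₜ e) = psi U a • e := by
  change (TensorProduct.lid ℤ E) ((psi U).toIntLinearMap.rTensor E (a ⊗ₜ e)) = _
  rw [LinearMap.rTensor_tmul, TensorProduct.lid_tmul]
  rfl

theorem Ψ_tcoef (E : Type) [Ring E] (U : Finset ℕ) (y : Trunc TW n ⊗[ℤ] E) :
    Ψ E U ((tcoef TW n).toIntLinearMap.rTensor E y) = TE (Th n) U y := by
  induction y using TensorProduct.induction_on with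
  | zero => rw [map_zero, map_zero, map_zero]
  | add a b ha hb => rw [map_add, map_add, map_add, ha, hb]
  | tmul a e => rw [LinearMap.rTensor_tmul, Ψ_tmul, TE_tmul]; rfl

variable {ι Φ E : Type} [Fintype ι] [DecidableEq ι] [Ring Φ] [Ring E]
  (S : Str ι Φ E) {k : ℕ} (p q : Fin k ↪ ι) (z : ι) (x : X → Φ)

theorem Ψ_Pxi (U : Finset ℕ) (B : Matrix (Option (X × Fin n)) (Option (X × Fin n)) TW) :
    Ψ E U (PB S p q z x n TW B) = ∑ ξ ∈ (finite_goodMon X n).toFinset,
      psi U (evMon B ξ) • Pxi S p q z x n ξ := by
  rw [← evW_Pxi]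
  unfold evW Finsupp.sum
  rw [map_sum]
  have h2 : (Pxi S p q z x n).support ⊆ (finite_goodMon X n).toFinset := by
    intro ξ hξ
    rw [Set.Finite.mem_toFinset]
    exact goodMon_of_Pxi S p q z x n ξ (Finsupp.mem_support_iff.1 hξ)
  rw [Finset.sum_congr rfl fun ξ _ => Ψ_tmul E U _ _]
  refine Finset.sum_subset h2 ?_
  intro ξ _ hξ
  rw [Finsupp.notMem_support_iff.1 hξ, smul_zero]

theorem Ψ_val (hA : Anti S.s k) (hF : Frame p q z) (v : List (X × Fin n))
    (us : List (LD (X × Fin n))) (hnd : (v ++ pl us).Nodup)
    (hidx : (idx us).Nodup) (hlen : v.length + len us = n) :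
    Ψ E (idx us).toFinset (PB S p q z x n TW (Bm (allE yw v us))) =
      ((-1) ^ n * (-1) ^ us.length : ℤ) • val S p q z (fun a : X × Fin n => x a.1) v us := by
  unfold PB
  rw [Ψ_tcoef, PP_val S p q z (inT TW n) (tt TW n) yw hA hF (isNilpotent_tt TW n) (inT_sq n)
    (fun a : X × Fin n => x a.1) v us hnd]
  exact TE_full S p (fun a : X × Fin n => x a.1) n (tt TW n) (fun i => inT TW n (yw i)) (Th n)
    (Th_mon n) _ us ∅ v.length _ hidx (fun i _ => Finset.notMem_empty i) (fun i => by simp) hlen

/-- the coefficients of a value on the `P_ξ` -/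
noncomputable def cf (v : List (X × Fin n)) (us : List (LD (X × Fin n))) (ξ : Mon X n) : ℤ :=
  ((-1) ^ n * (-1) ^ us.length) * psi (idx us).toFinset (evMon (Bm (allE yw v us)) ξ)

theorem val_rel (hA : Anti S.s k) (hF : Frame p q z) (v : List (X × Fin n))
    (us : List (LD (X × Fin n))) (hnd : (v ++ pl us).Nodup)
    (hidx : (idx us).Nodup) (hlen : v.length + len us = n) :
    ∑ ξ ∈ (finite_goodMon X n).toFinset, cf X n v us ξ • Pxi S p q z x n ξ =
      val S p q z (fun a : X × Fin n => x a.1) v us := by
  have hε : (((-1 : ℤ) ^ n * (-1) ^ us.length)) * ((-1 : ℤ) ^ n * (-1) ^ us.length) = 1 := by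
    calc _ = ((-1 : ℤ) ^ n * (-1) ^ n) * ((-1) ^ us.length * (-1) ^ us.length) := by ring
      _ = 1 := by rw [neg_one_pow_mul_self, neg_one_pow_mul_self, one_mul]
  calc ∑ ξ ∈ (finite_goodMon X n).toFinset, cf X n v us ξ • Pxi S p q z x n ξ
      = ((-1) ^ n * (-1) ^ us.length : ℤ) • ∑ ξ ∈ (finite_goodMon X n).toFinset,
          psi (idx us).toFinset (evMon (Bm (allE yw v us)) ξ) • Pxi S p q z x n ξ := by
        rw [Finset.smul_sum]
        exact Finset.sum_congr rfl fun ξ _ => mul_smul _ _ _
    _ = val S p q z (fun a : X × Fin n => x a.1) v us := by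
        rw [← Ψ_Pxi, Ψ_val X n S p q z x hA hF v us hnd hidx hlen, smul_smul, hε, one_smul]

end rel

end Pool.PI34.EV

end

/-! ### part EV_Def2 -/
section

/-!
PI34, block EV (even input of (S_ex)), file Def2: the permutation of a word and loops; interface of EVEN1.
-/

set_option autoImplicit false
set_option linter.unusedSectionVars false

namespace Pool.PI34.EV

open Equiv Finset
open Pool.PI34.H4 Pool.PI34.BA

/-- the permutation of the word `w` and the loops `us`:
inverse of `none → w₁ → w₂ → … → none`, `u₁ → u₂ → … → u₁` -/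
def dperm {A : Type} [DecidableEq A] (w : List A) (us : List (LD A)) : Perm (Option A) :=
  ((none :: w.map some).formPerm * (us.map fun u => ((u.1 :: u.2.1).map some).formPerm).prod)⁻¹

/-- the strands -/
abbrev St (k : ℕ) : Type := Option (Fin k ⊕ Fin k)

/-- the strands `P` -/
def pS (k : ℕ) : Fin k ↪ St k := Function.Embedding.inl.trans Function.Embedding.some

/-- the strands `Q` -/
def qS (k : ℕ) : Fin k ↪ St k := Function.Embedding.inr.trans Function.Embedding.some

/-- PART II (universal string system) -/
def PartII : Prop :=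
  ∀ (k : ℕ) (A C : Type) [Fintype A] [DecidableEq A] [DecidableEq C] (c : A → C)
    (W : Type) [AddCommGroup W] (lam : P (Big A k) →+ W), (∀ y, act k _ y = 0 → lam y = 0) →
    (∀ h : Perm A, c ∘ h = c → ∀ y, lam (g (hh k h) * y * g (hh k h)⁻¹) = lam y) →
    ∃ (E : Type) (_ : Ring E) (S : Str (St k) (FreeAlgebra ℤ C) E) (ev : E →+ W),
      Anti S.s k ∧ ∀ (w : List A) (us : List (LD A)), (w ++ pl us).Nodup → (∀ a, a ∈ w ++ pl us) →
        ev (val S (pS k) (qS k) none (fun a => FreeAlgebra.ι ℤ (c a)) w us) =
          lam (emb Function.Embedding.inl (g (dperm w us)) *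
            (emb (Function.Embedding.inl.trans Function.Embedding.inr) (As (Fin k)) *
              emb (Function.Embedding.inr.trans Function.Embedding.inr) (As (Fin k))))

end Pool.PI34.EV

end

/-! ### part EV_Glue -/
section

/-!
PI34, block EV (even input of (S_ex)), file Glue: the relations between values of words and loops pass from the
generic matrices to every string system.
-/

set_option autoImplicit false
set_option linter.unusedSectionVars false

namespace Pool.PI34.EV

open Equiv Finset Matrix
open Pool.PI34.BA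
open scoped TensorProduct

theorem sum_swap_helper {J K W : Type} [AddCommGroup W] [Fintype J] (s : Finset K) (c : J → ℤ)
    (f : J → K → ℤ) (P : K → W) :
    ∑ ξ : {ξ // ξ ∈ s}, (∑ j, c j * f j ξ.1) • P ξ.1 = ∑ j, c j • ∑ ξ ∈ s, f j ξ • P ξ := by
  rw [Finset.sum_coe_sort s fun ξ => (∑ j, c j * f j ξ) • P ξ]
  simp only [Finset.sum_smul, Finset.smul_sum, mul_smul]
  rw [Finset.sum_comm]

theorem val_glue {X : Type} [Fintype X] [DecidableEq X] {ι Φ E : Type} [Fintype ι] [DecidableEq ι]
    [Ring Φ] [Ring E] (S : Str ι Φ E) (k n : ℕ) (hA : Anti S.s k) (p q : Fin k ↪ ι) (z : ι)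
    (hF : Frame p q z) (hR : RankBound X k n p q z) (x : X → Φ) {J : Type} [Fintype J]
    (c : J → ℤ) (w : J → List (X × Fin n)) (us : J → List (LD (X × Fin n)))
    (hnd : ∀ j, (w j ++ pl (us j)).Nodup) (hidx : ∀ j, (idx (us j)).Nodup)
    (hlen : ∀ j, (w j).length + len (us j) = n)
    (hc : ∑ j, c j • val (matStr k (CG X k) ι) p q z (fun a : X × Fin n => gen X k a.1) (w j)
      (us j) = 0) :
    ∑ j, c j • val S p q z (fun a : X × Fin n => x a.1) (w j) (us j) = 0 := by
  classical
  obtain ⟨f1, hf1⟩ : ∃ f : FreeAlgebra ℤ X →+* Φ, ∀ a, f (FreeAlgebra.ι ℤ a) = x a :=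
    ⟨(FreeAlgebra.lift ℤ x : FreeAlgebra ℤ X →ₐ[ℤ] Φ).toRingHom, fun a => by simp⟩
  obtain ⟨f2, hf2⟩ : ∃ f : FreeAlgebra ℤ X →+* Matrix (Fin k) (Fin k) (CG X k),
      ∀ a, f (FreeAlgebra.ι ℤ a) = gen X k a :=
    ⟨(FreeAlgebra.lift ℤ (gen X k) :
      FreeAlgebra ℤ X →ₐ[ℤ] Matrix (Fin k) (Fin k) (CG X k)).toRingHom, fun a => by simp⟩
  have e1 : (fun a => f1 (FreeAlgebra.ι ℤ a)) = x := funext hf1
  have e2 : (fun a => f2 (FreeAlgebra.ι ℤ a)) = gen X k := funext hf2
  set SP := (S.comap f1).prod ((matStr k (CG X k) ι).comap f2) with hSP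
  have hAP : Anti SP.s k := prod_Anti (S.comap f1) ((matStr k (CG X k) ι).comap f2) k hA matStr_Anti
  have P1 : ∀ ξ, (Pxi SP p q z (fun a => FreeAlgebra.ι ℤ a) n ξ).1 = Pxi S p q z x n ξ := by
    intro ξ
    have h := map_Pxi SP S f1 (RingHom.fst E (Module.End (CG X k) ((ι → Fin k) → CG X k)))
      (fun _ _ => rfl) (fun _ => rfl) p q z (fun a => FreeAlgebra.ι ℤ a) n ξ
    rw [e1] at h
    exact h
  have P2 : ∀ ξ, (Pxi SP p q z (fun a => FreeAlgebra.ι ℤ a) n ξ).2 =
      Pxi (matStr k (CG X k) ι) p q z (gen X k) n ξ := by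
    intro ξ
    have h := map_Pxi SP (matStr k (CG X k) ι) f2
      (RingHom.snd E (Module.End (CG X k) ((ι → Fin k) → CG X k)))
      (fun _ _ => rfl) (fun _ => rfl) p q z (fun a => FreeAlgebra.ι ℤ a) n ξ
    rw [e2] at h
    exact h
  haveI := noZeroSMul_end X k ι
  set F := (finite_goodMon X n).toFinset with hFs
  have hg := glue (Str.pkg SP p q z (fun a => FreeAlgebra.ι ℤ a) n hAP hF) (by
      intro K _ _
      have h := hR K
      have h3 : (fun ξ => ((Str.pkg SP p q z (fun a => FreeAlgebra.ι ℤ a) n hAP hF).P ξ).2) =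
          fun ξ => Pxi (matStr k (CG X k) ι) p q z (gen X k) n ξ := funext P2
      rw [h3]
      exact h) (J := {ξ // ξ ∈ F}) (fun ξ => ∑ j, c j * cf X n (w j) (us j) ξ.1)
      (fun ξ => ξ.1) (by
      have h4 : ∀ ξ : {ξ // ξ ∈ F}, (∑ j, c j * cf X n (w j) (us j) ξ.1) •
          ((Str.pkg SP p q z (fun a => FreeAlgebra.ι ℤ a) n hAP hF).P ξ.1).2 =
          (∑ j, c j * cf X n (w j) (us j) ξ.1) • Pxi (matStr k (CG X k) ι) p q z (gen X k) n ξ.1 :=
        fun ξ => congrArg (fun y => (∑ j, c j * cf X n (w j) (us j) ξ.1) • y) (P2 ξ.1)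
      rw [Finset.sum_congr rfl fun ξ _ => h4 ξ,
        sum_swap_helper F c (fun j ξ => cf X n (w j) (us j) ξ), ← hc]
      refine Finset.sum_congr rfl fun j _ => ?_
      rw [val_rel X n (matStr k (CG X k) ι) p q z (gen X k) matStr_Anti hF (w j) (us j) (hnd j)
        (hidx j) (hlen j)])
  have h5 : ∀ ξ : {ξ // ξ ∈ F}, (∑ j, c j * cf X n (w j) (us j) ξ.1) •
      ((Str.pkg SP p q z (fun a => FreeAlgebra.ι ℤ a) n hAP hF).P ξ.1).1 =
      (∑ j, c j * cf X n (w j) (us j) ξ.1) • Pxi S p q z x n ξ.1 :=
    fun ξ => congrArg (fun y => (∑ j, c j * cf X n (w j) (us j) ξ.1) • y) (P1 ξ.1)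
  rw [Finset.sum_congr rfl fun ξ _ => h5 ξ,
    sum_swap_helper F c (fun j ξ => cf X n (w j) (us j) ξ)] at hg
  rw [← hg]
  refine Finset.sum_congr rfl fun j _ => ?_
  rw [val_rel X n S p q z x hA hF (w j) (us j) (hnd j) (hidx j) (hlen j)]

end Pool.PI34.EV

end

/-! ### part EV_U1 -/
section

/-!
PI34, block EV, file U1: cycles and antisymmetrizers of sets of strands.
-/

set_option autoImplicit false
set_option linter.unusedSectionVars false

namespace Pool.PI34.EV

open Equiv Finset
open Pool.PI34.H4 Pool.PI34.BA

/-! ### cycles -/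

section fp

variable {α β : Type} [DecidableEq α] [DecidableEq β]

theorem fp_comm (l : List α) (x y : α) (hx : x ∉ l) (hy : y ∉ l) :
    l.formPerm * swap x y = swap x y * l.formPerm := by
  rw [Equiv.mul_swap_eq_swap_mul, List.formPerm_apply_of_notMem hx,
    List.formPerm_apply_of_notMem hy]

theorem fp_cons (x y : α) (l : List α) (hx : x ∉ l) (hy : y ∉ l) :
    (x :: y :: l).formPerm = (x :: l).formPerm * swap x y := by
  rw [List.formPerm_cons_cons]
  cases l with
  | nil => simp
  | cons b l =>
    rw [List.formPerm_cons_cons, List.formPerm_cons_cons, mul_assoc, fp_comm (b :: l) x y hx hy,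
      ← mul_assoc, ← mul_assoc]
    congr 1
    have hxb : x ≠ b := fun e => hx (e ▸ List.mem_cons_self)
    have hyb : y ≠ b := fun e => hy (e ▸ List.mem_cons_self)
    rw [Equiv.mul_swap_eq_swap_mul (swap x y) y b, swap_apply_right,
      swap_apply_of_ne_of_ne (Ne.symm hxb) (Ne.symm hyb)]

theorem fp_inv_cons (x y : α) (l : List α) (hx : x ∉ l) (hy : y ∉ l) :
    ((x :: y :: l).formPerm)⁻¹ = swap x y * ((x :: l).formPerm)⁻¹ := by
  rw [fp_cons x y l hx hy, mul_inv_rev, swap_inv]

theorem fp_inv_cons' (x y : α) (l : List α) :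
    ((x :: y :: l).formPerm)⁻¹ = ((y :: l).formPerm)⁻¹ * swap x y := by
  rw [List.formPerm_cons_cons, mul_inv_rev, swap_inv]

theorem via_one (e : α ↪ β) : (1 : Perm α).viaEmbedding e = 1 := by
  have h := map_one (Perm.viaEmbeddingHom e)
  rwa [Perm.viaEmbeddingHom_apply] at h

theorem via_mul (e : α ↪ β) (σ τ : Perm α) :
    (σ * τ).viaEmbedding e = σ.viaEmbedding e * τ.viaEmbedding e := by
  have h := map_mul (Perm.viaEmbeddingHom e) σ τ
  rwa [Perm.viaEmbeddingHom_apply, Perm.viaEmbeddingHom_apply, Perm.viaEmbeddingHom_apply] at h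

theorem via_inv (e : α ↪ β) (σ : Perm α) :
    (σ⁻¹).viaEmbedding e = (σ.viaEmbedding e)⁻¹ := by
  have h := map_inv (Perm.viaEmbeddingHom e) σ
  rwa [Perm.viaEmbeddingHom_apply, Perm.viaEmbeddingHom_apply] at h

theorem via_formPerm (e : α ↪ β) (l : List α) :
    (l.formPerm).viaEmbedding e = (l.map e).formPerm := by
  induction l with
  | nil => exact via_one e
  | cons x l ih =>
    cases l with
    | nil => simpa using via_one e
    | cons y l =>
      rw [List.formPerm_cons_cons, via_mul, ih, viaEmbedding_swap]
      rfl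

end fp

/-! ### antisymmetrizers -/

section an

variable {κ ι : Type} [Fintype κ] [DecidableEq κ] [Fintype ι] [DecidableEq ι]

theorem sum_permsOn_map {M : Type} [AddCommMonoid M] (e : κ ↪ ι) (f : Perm ι → M) :
    ∑ σ ∈ permsOn (univ.map e), f σ = ∑ τ : Perm κ, f (τ.viaEmbedding e) := by
  symm
  refine Finset.sum_bij (fun τ _ => τ.viaEmbedding e) ?_ ?_ ?_ ?_
  · intro τ _
    rw [mem_permsOn]
    intro x hx
    refine Perm.viaEmbedding_apply_of_notMem _ _ _ ?_
    rintro ⟨y, rfl⟩
    exact hx (mem_map_of_mem _ (mem_univ y))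
  · intro τ _ τ' _ h
    have h1 := Perm.viaEmbeddingHom_injective e
    apply h1
    rwa [Perm.viaEmbeddingHom_apply, Perm.viaEmbeddingHom_apply]
  · intro σ hσ
    rw [mem_permsOn] at hσ
    have h0 : ∀ x : κ, ∃ y : κ, e y = σ (e x) := by
      intro x
      by_contra hne
      push Not at hne
      have h1 : σ (e x) ∉ univ.map e := by
        rw [mem_map]
        rintro ⟨y, -, hy⟩
        exact hne y hy
      have h2 := hσ _ h1
      have h3 := σ.injective h2
      rw [h3] at h1
      exact h1 (mem_map_of_mem _ (mem_univ x))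
    choose t ht using h0
    have hti : Function.Injective t := by
      intro x y hxy
      have h1 : e (t x) = e (t y) := by rw [hxy]
      rw [ht, ht] at h1
      exact e.injective (σ.injective h1)
    refine ⟨Equiv.ofBijective t (Finite.injective_iff_bijective.1 hti), mem_univ _, ?_⟩
    ext x
    by_cases hx : x ∈ Set.range e
    · obtain ⟨y, rfl⟩ := hx
      rw [Perm.viaEmbedding_apply]
      exact ht y
    · rw [Perm.viaEmbedding_apply_of_notMem _ _ _ hx, hσ]
      rw [mem_map]
      rintro ⟨y, -, hy⟩
      exact hx ⟨y, hy⟩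
  · intro τ _
    rfl

theorem sign_via (e : κ ↪ ι) (τ : Perm κ) : Perm.sign (τ.viaEmbedding e) = Perm.sign τ := by
  classical
  induction τ using Perm.swap_induction_on with
  | one => rw [via_one, Perm.sign_one, Perm.sign_one]
  | swap_mul f x y hxy ih =>
    rw [via_mul, Perm.sign_mul, Perm.sign_mul, ih, viaEmbedding_swap, Perm.sign_swap hxy,
      Perm.sign_swap (fun h => hxy (e.injective h))]

/-- the group homomorphism of the basis elements -/
noncomputable def gh (α : Type) [Fintype α] [DecidableEq α] : Perm α →* P α where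
  toFun := g
  map_one' := g_one
  map_mul' := g_mul

theorem anti_map (e : κ ↪ ι) : anti (gh ι) (univ.map e) = emb e (As κ) := by
  unfold anti As
  rw [sum_permsOn_map, map_sum]
  refine Finset.sum_congr rfl fun τ _ => ?_
  rw [map_zsmul, emb_g, sign_via]
  rfl

theorem act_anti {N : ℕ} (T : Finset ι) (hT : N < T.card) : act N ι (anti (gh ι) T) = 0 := by
  have h1 : univ.map (Function.Embedding.subtype (fun x => x ∈ T)) = T := by
    ext x
    simp
  conv_lhs => rw [← h1]
  rw [anti_map]
  refine act_emb_eq_zero _ _ (act_As ?_)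
  rw [Fintype.card_coe]
  exact hT

/-- a trace of transpositions is absorbed by the antisymmetrizer of rank `N` -/
theorem act_tr (N : ℕ) (e : Fin N ↪ ι) (z : ι) (hz : ∀ i, e i ≠ z) :
    act N ι ((∑ i, g (swap (e i) z)) * emb e (As (Fin N))) = act N ι (emb e (As (Fin N))) := by
  have hz' : z ∉ univ.map e := by
    rw [mem_map]
    rintro ⟨i, -, hi⟩
    exact hz i hi
  have h1 := anti_insert (gh ι) (univ.map e) z hz'
  have h2 : act N ι (anti (gh ι) (insert z (univ.map e))) = 0 := by
    refine act_anti _ ?_
    rw [card_insert_of_notMem hz', card_map, card_univ, Fintype.card_fin]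
    exact Nat.lt_succ_self N
  rw [h1, map_sub, sub_eq_zero, anti_map, sum_map] at h2
  rw [h2, Finset.sum_mul]
  congr 1
  refine Finset.sum_congr rfl fun i _ => ?_
  rw [swap_comm]
  rfl

end an

end Pool.PI34.EV

end

/-! ### part EV_Gen -/
section

/-!
PI34, block EV (even input of (S_ex)), file Gen: the values of words and loops for matrices.
-/

set_option autoImplicit false
set_option linter.unusedSectionVars false

namespace Pool.PI34.EV

open Equiv Finset Matrix
open Pool.PI34.BA
open scoped TensorProduct

variable {k : ℕ} {C ι : Type} [CommRing C] [Fintype ι] [DecidableEq ι]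

theorem update_swap (p : Fin k ↪ ι) (a b : Fin k) (hab : a ≠ b) (f : ι → Fin k)
    (hf : f (p a) = f (p b)) (c : Fin k) : Function.update f (p b) c =
      Function.update f (p a) c ∘ (Equiv.swap (p a) (p b)) := by
  have hne : p a ≠ p b := fun h => hab (p.injective h)
  funext x
  rw [Function.comp_apply]
  by_cases hxa : x = p a
  · rw [hxa, Equiv.swap_apply_left, Function.update_of_ne hne, Function.update_of_ne hne.symm, hf]
  · by_cases hxb : x = p b
    · rw [hxb, Equiv.swap_apply_right, Function.update_self, Function.update_self]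
    · rw [Equiv.swap_apply_of_ne_of_ne hxa hxb, Function.update_of_ne hxb,
        Function.update_of_ne hxa]

theorem tr_anti_apply (p : Fin k ↪ ι) (M : Matrix (Fin k) (Fin k) C) (v : (ι → Fin k) → C)
    (f : ι → Fin k) :
    ∑ i, ∑ c, M (f (p i)) c * anti (matStr k C ι).s (univ.map p) v (Function.update f (p i) c) =
      M.trace * anti (matStr k C ι).s (univ.map p) v f := by
  set Y : (ι → Fin k) → C := anti (matStr k C ι).s (univ.map p) v with hY
  have hz : ∀ (g : ι → Fin k) (a b : Fin k), a ≠ b → g (p a) = g (p b) → Y g = 0 := by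
    intro g a b hab hg
    exact F2_anti_zero (univ.map p) v g (p a) (p b) (Finset.mem_map_of_mem p (mem_univ a))
      (Finset.mem_map_of_mem p (mem_univ b)) (fun h => hab (p.injective h)) hg
  by_cases hinj : Function.Injective (fun i => f (p i))
  · have hbij : Function.Bijective (fun i => f (p i)) := Finite.injective_iff_bijective.1 hinj
    have h1 : ∀ i, ∑ c, M (f (p i)) c * Y (Function.update f (p i) c) =
        M (f (p i)) (f (p i)) * Y f := by
      intro i
      rw [Finset.sum_eq_single (f (p i))]
      · rw [Function.update_eq_self]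
      · intro c _ hc
        obtain ⟨j, hj⟩ := hbij.2 c
        have hj' : f (p j) = c := hj
        have hij : i ≠ j := by
          rintro rfl
          exact hc hj'.symm
        rw [hz _ i j hij, mul_zero]
        rw [Function.update_self, Function.update_of_ne, hj']
        intro h
        exact hij (p.injective h).symm
      · intro h
        exact absurd (mem_univ _) h
    rw [Finset.sum_congr rfl fun i _ => h1 i, ← Finset.sum_mul]
    congr 1
    exact hbij.sum_comp fun i => M i i
  · rw [Function.Injective] at hinj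
    push Not at hinj
    obtain ⟨a, b, hf, hab⟩ := hinj
    have hne : p a ≠ p b := fun h => hab (p.injective h)
    rw [hz f a b hab hf, mul_zero]
    have hmem : b ∈ (univ : Finset (Fin k)).erase a := Finset.mem_erase.2 ⟨Ne.symm hab, mem_univ _⟩
    rw [← Finset.add_sum_erase univ _ (mem_univ a), ← Finset.add_sum_erase _ _ hmem]
    have h0 : ∑ i ∈ (univ.erase a).erase b, ∑ c, M (f (p i)) c * Y (Function.update f (p i) c) =
        0 := by
      refine Finset.sum_eq_zero fun i hi => Finset.sum_eq_zero fun c _ => ?_
      rw [Finset.mem_erase, Finset.mem_erase] at hi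
      rw [hz _ a b hab, mul_zero]
      rw [Function.update_of_ne (fun h => hi.2.1 (p.injective h).symm),
        Function.update_of_ne (fun h => hi.1 (p.injective h).symm)]
      exact hf
    rw [h0, add_zero]
    have h1 : ∀ c, Y (Function.update f (p b) c) = -Y (Function.update f (p a) c) := by
      intro c
      have h2 := F2_anti_perm (univ.map p) v (Function.update f (p a) c) (Equiv.swap (p a) (p b))
        (fun x hx => Equiv.swap_apply_of_ne_of_ne
          (fun h => hx (h ▸ Finset.mem_map_of_mem p (mem_univ a)))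
          (fun h => hx (h ▸ Finset.mem_map_of_mem p (mem_univ b))))
      rw [update_swap p a b hab f hf c, hY, h2, Perm.sign_swap hne]
      simp
    have hf' : f (p a) = f (p b) := hf
    rw [← hf', ← Finset.sum_add_distrib]
    refine Finset.sum_eq_zero fun c _ => ?_
    rw [h1, mul_neg, add_neg_cancel]

theorem Tr_anti (p : Fin k ↪ ι) (M : Matrix (Fin k) (Fin k) C) :
    Tr (matStr k C ι) p M * anti (matStr k C ι).s (univ.map p) =
      M.trace • anti (matStr k C ι).s (univ.map p) := by
  refine LinearMap.ext fun v => funext fun f => ?_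
  have h := tr_anti_apply p M v f
  have h1 : (Tr (matStr k C ι) p M * anti (matStr k C ι).s (univ.map p)) v f =
      ∑ i, ∑ c, M (f (p i)) c * anti (matStr k C ι).s (univ.map p) v
        (Function.update f (p i) c) := by
    unfold Tr
    rw [Finset.sum_mul, LinearMap.sum_apply, Finset.sum_apply]
    rfl
  rw [h1, h]
  rfl

theorem Tr_om (p q : Fin k ↪ ι) (z : ι) (hF : Frame p q z) (M N : Matrix (Fin k) (Fin k) C) :
    Tr (matStr k C ι) p M * ((matStr k C ι).ρ z N * (matStr k C ι).om p q) =
      M.trace • ((matStr k C ι).ρ z N * (matStr k C ι).om p q) := by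
  have h1 : Tr (matStr k C ι) p M * (matStr k C ι).ρ z N =
      (matStr k C ι).ρ z N * Tr (matStr k C ι) p M := by
    unfold Tr
    rw [Finset.sum_mul, Finset.mul_sum]
    exact Finset.sum_congr rfl fun i _ => (matStr k C ι).comm (p i) z (hF.pz i) M N
  have h2 : Tr (matStr k C ι) p M * (matStr k C ι).om p q = M.trace • (matStr k C ι).om p q := by
    unfold Str.om
    rw [← mul_assoc, Tr_anti, smul_mul_assoc]
  rw [← mul_assoc, h1, mul_assoc, h2, mul_smul_comm]

theorem RR_om (p q : Fin k ↪ ι) (z : ι) (hF : Frame p q z) {A : Type}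
    (x : A → Matrix (Fin k) (Fin k) C) (N : Matrix (Fin k) (Fin k) C) (us : List (LD A)) :
    ∀ r : C, RR (matStr k C ι) p x us
      (r • ((matStr k C ι).ρ z N * (matStr k C ι).om p q)) =
      (r * (us.map fun u => (wd x u).trace).prod) •
        ((matStr k C ι).ρ z N * (matStr k C ι).om p q) := by
  induction us with
  | nil =>
    intro r
    rw [List.map_nil, List.prod_nil, mul_one]
    rfl
  | cons u us ih =>
    intro r
    change RR (matStr k C ι) p x us (Tr (matStr k C ι) p (wd x u) *
      (r • ((matStr k C ι).ρ z N * (matStr k C ι).om p q))) = _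
    rw [mul_smul_comm, Tr_om p q z hF, smul_smul, ih, List.map_cons, List.prod_cons]
    congr 1
    ring

theorem val_mat (p q : Fin k ↪ ι) (z : ι) (hF : Frame p q z) {A : Type}
    (x : A → Matrix (Fin k) (Fin k) C) (w : List A) (us : List (LD A)) :
    val (matStr k C ι) p q z x w us = ((us.map fun u => (wd x u).trace).prod) •
      ((matStr k C ι).ρ z (w.map x).prod * (matStr k C ι).om p q) := by
  have h := RR_om p q z hF x (w.map x).prod us 1
  rw [one_smul, one_mul] at h
  exact h

end Pool.PI34.EV

end
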