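import Pool.Agent.LibPI54.M32
import Pool.Agent.LibPI54.M36

/-! ### part BA_G2 -/
section

/-! PI34, block BA, file G2: from words to the free algebra. -/

set_option autoImplicit false

namespace Pool.PI34.BA

open Equiv Finset Matrix

/-- the words of length less than `N` with letters in `Y` -/
def G2_W {X : Type} (Y : Finset X) (N : ℕ) : Set (FreeAlgebra ℤ X) :=
  {a | ∃ l : List X, l.length < N ∧ (∀ x ∈ l, x ∈ Y) ∧ a = (l.map (FreeAlgebra.ι ℤ)).prod}

theorem G2_W_mono {X : Type} {Y Y' : Finset X} {N N' : ℕ} (hY : Y ⊆ Y') (hN : N ≤ N') :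
    G2_W Y N ⊆ G2_W Y' N' := by
  rintro a ⟨l, h1, h2, rfl⟩
  exact ⟨l, by omega, fun x hx => hY (h2 x hx), rfl⟩

theorem G2_mul {A : Type} [Ring A] {S T U : Set A} (h : ∀ s ∈ S, ∀ t ∈ T, s * t ∈ U) {a b : A}
    (ha : a ∈ AddSubgroup.closure S) (hb : b ∈ AddSubgroup.closure T) :
    a * b ∈ AddSubgroup.closure U := by
  induction ha using AddSubgroup.closure_induction with
  | mem a ha =>
    induction hb using AddSubgroup.closure_induction with
    | mem b hb => exact AddSubgroup.subset_closure (h a ha b hb)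
    | zero => rw [mul_zero]; exact zero_mem _
    | add x y _ _ hx hy => rw [mul_add]; exact add_mem hx hy
    | neg x _ hx => rw [mul_neg]; exact neg_mem hx
  | zero => rw [zero_mul]; exact zero_mem _
  | add x y _ _ hx hy => rw [add_mul]; exact add_mem hx hy
  | neg x _ hx => rw [neg_mul]; exact neg_mem hx

theorem G2_mem {X : Type} (g : FreeAlgebra ℤ X) :
    ∃ (Y : Finset X) (N : ℕ), g ∈ AddSubgroup.closure (G2_W Y N) := by
  classical
  induction g using FreeAlgebra.induction with
  | grade0 r =>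
    refine ⟨∅, 1, ?_⟩
    rw [eq_intCast (algebraMap ℤ (FreeAlgebra ℤ X)) r, ← zsmul_one]
    have h1 : (1 : FreeAlgebra ℤ X) ∈ G2_W (∅ : Finset X) 1 := ⟨[], by simp, by simp, by simp⟩
    exact zsmul_mem (AddSubgroup.subset_closure h1) r
  | grade1 x =>
    exact ⟨{x}, 2, AddSubgroup.subset_closure ⟨[x], by simp, by simp, by simp⟩⟩
  | mul a b ha hb =>
    obtain ⟨Y, N, ha⟩ := ha
    obtain ⟨Y', N', hb⟩ := hb
    refine ⟨Y ∪ Y', N + N', G2_mul ?_ ha hb⟩
    rintro _ ⟨l, h1, h2, rfl⟩ _ ⟨l', h1', h2', rfl⟩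
    refine ⟨l ++ l', by rw [List.length_append]; omega, ?_, ?_⟩
    · intro x hx
      rcases List.mem_append.1 hx with hx | hx
      · exact Finset.mem_union_left _ (h2 x hx)
      · exact Finset.mem_union_right _ (h2' x hx)
    · rw [List.map_append, List.prod_append]
  | add a b ha hb =>
    obtain ⟨Y, N, ha⟩ := ha
    obtain ⟨Y', N', hb⟩ := hb
    refine ⟨Y ∪ Y', max N N', add_mem ?_ ?_⟩
    · exact AddSubgroup.closure_mono
        (G2_W_mono Finset.subset_union_left (le_max_left _ _)) ha
    · exact AddSubgroup.closure_mono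
        (G2_W_mono Finset.subset_union_right (le_max_right _ _)) hb

/-- every element of the free algebra is a finite combination of words in finitely many letters:
`Y` a finite set of letters, `c n w` the coefficient of the word `w` of length `n < N`. -/
theorem exists_words {X : Type} (g : FreeAlgebra ℤ X) :
    ∃ (Y : Finset X) (N : ℕ) (c : (n : ℕ) → (Fin n → Y) → ℤ),
      g = ∑ n ∈ range N, ∑ w : Fin n → Y,
        c n w • (List.ofFn fun i => FreeAlgebra.ι ℤ (w i : X)).prod := by
  classical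
  obtain ⟨Y, N, hg⟩ := G2_mem g
  refine ⟨Y, N, ?_⟩
  induction hg using AddSubgroup.closure_induction with
  | mem a ha =>
    obtain ⟨l, h1, h2, rfl⟩ := ha
    refine ⟨fun n w => if List.ofFn (fun i => (w i : X)) = l then 1 else 0, ?_⟩
    rw [Finset.sum_eq_single l.length]
    · rw [Finset.sum_eq_single (fun i => (⟨l.get i, h2 _ (l.get_mem i)⟩ : Y))]
      · have h3 : List.ofFn (fun i => l.get i) = l := List.ofFn_get l
        simp only [h3, if_true, one_smul]
        rw [show (fun i => FreeAlgebra.ι ℤ (l.get i)) = (FreeAlgebra.ι ℤ) ∘ l.get from rfl,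
          ← List.map_ofFn, h3]
      · intro w _ hw
        dsimp only
        rw [if_neg, zero_smul]
        intro h
        apply hw
        have h4 : List.ofFn (fun i => (w i : X)) = List.ofFn (fun i => l.get i) :=
          h.trans (List.ofFn_get l).symm
        have h5 := List.ofFn_injective h4
        funext i
        exact Subtype.ext (congrFun h5 i)
      · intro h
        exact absurd (Finset.mem_univ _) h
    · intro n _ hn
      refine Finset.sum_eq_zero fun w _ => ?_
      dsimp only
      rw [if_neg, zero_smul]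
      intro h
      apply hn
      rw [← h, List.length_ofFn]
    · intro h
      exact absurd (Finset.mem_range.2 h1) h
  | zero => exact ⟨fun _ _ => 0, by simp⟩
  | add a b _ _ ha hb =>
    obtain ⟨c, hc⟩ := ha
    obtain ⟨d, hd⟩ := hb
    refine ⟨fun n w => c n w + d n w, ?_⟩
    rw [hc, hd]
    simp only [add_smul, Finset.sum_add_distrib]
  | neg a _ ha =>
    obtain ⟨c, hc⟩ := ha
    refine ⟨fun n w => - c n w, ?_⟩
    rw [hc]
    simp only [neg_smul, Finset.sum_neg_distrib]

theorem G2_prod {k : ℕ} {R : Type} [CommRing R] (l : List (Matrix (Fin k) (Fin k) R)) :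
    (l.map fun A => (Polynomial.X : Polynomial R) • (Polynomial.C : R →+* _).mapMatrix A).prod =
      (Polynomial.X : Polynomial R) ^ l.length • (Polynomial.C : R →+* _).mapMatrix l.prod := by
  induction l with
  | nil => simp
  | cons A l ih =>
    rw [List.map_cons, List.prod_cons, ih, List.prod_cons, map_mul, List.length_cons,
      smul_mul_smul_comm, ← pow_succ']

/-- the homogeneous components of an identity of the matrices vanish on the generic matrices
(substitute `λ · gen`, `λ` a new polynomial variable, and compare coefficients of `λ^n`). -/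
theorem homogeneous_of_identity {X : Type} [DecidableEq X] (k : ℕ) (g : FreeAlgebra ℤ X)
    (hg : ∀ (C : Type) [CommRing C] (m : X → Matrix (Fin k) (Fin k) C),
      FreeAlgebra.lift ℤ m g = 0)
    (Y : Finset X) (N : ℕ) (c : (n : ℕ) → (Fin n → Y) → ℤ)
    (h : g = ∑ n ∈ range N, ∑ w : Fin n → Y,
        c n w • (List.ofFn fun i => FreeAlgebra.ι ℤ (w i : X)).prod)
    (n : ℕ) (hn : n < N) :
    ∑ w, c n w • (List.ofFn fun i => gen Y k (w i)).prod = 0 := by
  classical
  let R := CG Y k
  let φ : Matrix (Fin k) (Fin k) R →+* Matrix (Fin k) (Fin k) (Polynomial R) :=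
    (Polynomial.C : R →+* _).mapMatrix
  let m : X → Matrix (Fin k) (Fin k) (Polynomial R) := fun a =>
    if ha : a ∈ Y then (Polynomial.X : Polynomial R) • φ (gen Y k ⟨a, ha⟩) else 0
  have hm : ∀ y : Y, m (y : X) = (Polynomial.X : Polynomial R) • φ (gen Y k y) := fun y => by
    simp only [m, y.2, dif_pos]
  have h0 := hg (Polynomial R) m
  let A : ℕ → Matrix (Fin k) (Fin k) R := fun n =>
    ∑ w, c n w • (List.ofFn fun i => gen Y k (w i)).prod
  have h1 : ∑ n ∈ range N, (Polynomial.X : Polynomial R) ^ n • φ (A n) = 0 := by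
    rw [← h0, h, map_sum]
    refine Finset.sum_congr rfl fun n _ => ?_
    rw [map_sum, map_sum, Finset.smul_sum]
    refine Finset.sum_congr rfl fun w _ => ?_
    rw [map_zsmul, map_zsmul, smul_comm]
    congr 1
    have h2 : (List.ofFn (⇑(FreeAlgebra.lift ℤ m) ∘ fun i => FreeAlgebra.ι ℤ (w i : X))) =
        (List.ofFn fun i => gen Y k (w i)).map
          (fun A => (Polynomial.X : Polynomial R) • (Polynomial.C : R →+* _).mapMatrix A) := by
      rw [List.map_ofFn]
      congr 1
      funext i
      simp only [Function.comp_apply, FreeAlgebra.lift_ι_apply]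
      exact hm _
    have h3 : (FreeAlgebra.lift ℤ m) (List.ofFn fun i => FreeAlgebra.ι ℤ (w i : X)).prod =
        ((List.ofFn fun i => FreeAlgebra.ι ℤ (w i : X)).map (FreeAlgebra.lift ℤ m)).prod :=
      map_list_prod (FreeAlgebra.lift ℤ m) _
    refine Eq.trans ?_ h3.symm
    rw [List.map_ofFn, h2, G2_prod, List.length_ofFn]
  refine Matrix.ext fun i j => ?_
  have h2 := congrArg (fun M => (M i j).coeff n) h1
  simp only [Matrix.sum_apply, Matrix.smul_apply, Matrix.zero_apply, Polynomial.coeff_zero,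
    Polynomial.finsetSum_coeff, smul_eq_mul] at h2
  rw [Finset.sum_eq_single n] at h2
  · rw [Polynomial.coeff_X_pow_mul'] at h2
    simp only [le_refl, if_true, Nat.sub_self] at h2
    have h3 : (φ (A n) i j).coeff 0 = A n i j := by
      change (Polynomial.C (A n i j)).coeff 0 = _
      rw [Polynomial.coeff_C_zero]
    rw [h3] at h2
    exact h2
  · intro n' _ hn'
    rw [Polynomial.coeff_X_pow_mul']
    split_ifs with hle
    · change (Polynomial.C (A n' i j)).coeff (n - n') = 0
      rw [Polynomial.coeff_C, if_neg (by omega)]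
    · rfl
  · intro hnot
    exact absurd (Finset.mem_range.2 hn) hnot

theorem G2_zero {ι E : Type} [Fintype ι] [DecidableEq ι] [Ring E] (s : Perm ι →* E)
    (hA : Anti s 0) (z : ι) : (1 : E) = 0 := by
  have h := hA {z} (by simp)
  have h1 : permsOn ({z} : Finset ι) = {1} := by
    ext σ
    simp only [permsOn, Finset.mem_filter, Finset.mem_univ, true_and, Finset.mem_singleton]
    constructor
    · intro hσ
      have hne : ∀ x, x ≠ z → σ x = x := hσ
      ext x
      by_cases hx : x = z
      · subst hx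
        by_contra hc
        have h2 : σ (σ x) = σ x := hne (σ x) hc
        exact hc (σ.injective h2)
      · exact hne x hx
    · rintro rfl x _
      rfl
  rw [anti, h1, Finset.sum_singleton] at h
  simpa using h

/-- BA from the rank bounds -/
theorem BA_of_rankBound {X ι E : Type} [Fintype ι] [DecidableEq ι] [Ring E]
    (S : Str ι (FreeAlgebra ℤ X) E) (k : ℕ) (hA : Anti S.s k) (p q : Fin k ↪ ι) (z : ι)
    (hF : Frame p q z)
    (hR : 1 ≤ k → ∀ (Y : Type) [Fintype Y] [DecidableEq Y] (n : ℕ), RankBound Y k n p q z)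
    (g : FreeAlgebra ℤ X)
    (hg : ∀ (C : Type) [CommRing C] (m : X → Matrix (Fin k) (Fin k) C),
      FreeAlgebra.lift ℤ m g = 0) :
    S.ρ z g * (anti S.s (univ.map p) * anti S.s (univ.map q)) = 0 := by
  classical
  rcases Nat.eq_zero_or_pos k with hk | hk
  · subst hk
    have h1 := G2_zero S.s hA z
    calc _ = (1 : E) * (S.ρ z g * (anti S.s (univ.map p) * anti S.s (univ.map q))) :=
          (one_mul _).symm
      _ = 0 := by rw [h1, zero_mul]
  obtain ⟨Y, N, c, h⟩ := exists_words g
  change S.ρ z g * S.om p q = 0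
  rw [h, map_sum, Finset.sum_mul]
  refine Finset.sum_eq_zero fun n hn => ?_
  have h1 := BA_word S k n hA p q z hF (hR hk Y n) (fun y : Y => FreeAlgebra.ι ℤ (y : X)) (c n)
    (homogeneous_of_identity k g hg Y N c h n (Finset.mem_range.1 hn))
  rw [← h1, map_sum, Finset.sum_mul]
  refine Finset.sum_congr rfl fun w _ => ?_
  rw [map_zsmul, smul_mul_assoc]

end Pool.PI34.BA

end

/-! ### part T1_Defs -/
section

/-! PI34, theorem T1: definitions. -/

set_option autoImplicit false

namespace Pool.PI34.T1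

open Equiv Finset Pool.PI34.C0 Pool.PI34.BA

/-- the ideal `I` contains the values of a multilinear polynomial with coefficient `1` on the identity monomial -/
def MPI {U : Type} [Ring U] (I : Ideal U) : Prop :=
  ∃ (d : ℕ) (a : Perm (Fin (d + 1)) → ℤ), a 1 = 1 ∧
    ∀ x : Fin (d + 1) → U, ∑ σ, a σ • mono x σ ∈ I

/-- `U/I` is torsion free -/
def PureI {U : Type} [Ring U] (I : Ideal U) : Prop :=
  ∀ (m : ℕ) (g : U), m ≠ 0 → (m : U) * g ∈ I → g ∈ I

/-- `π` kills a two-sided ideal `I` such that `F/I` is a torsion free PI ring -/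
def Kills {F U : Type} [Ring F] [Ring U] (π : F →+* U) : Prop :=
  ∃ I : Ideal F, I.IsTwoSided ∧ PureI I ∧ MPI I ∧ ∀ g ∈ I, π g = 0

/-- the Capelli identity of rank `n` -/
def Cap (U : Type) [Ring U] (n : ℕ) : Prop :=
  ∀ (v : Fin (n + 1) → U) (x : Fin n → U),
    ∑ σ : Perm (Fin n), ((Perm.sign σ : ℤˣ) : ℤ) • capMono v x σ = 0

/-- the (left) ideal generated by the Capelli values of rank `n` (it is two-sided) -/
def capI (U : Type) [Ring U] (n : ℕ) : Ideal U :=
  Ideal.span {y | ∃ (v : Fin (n + 1) → U) (x : Fin n → U),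
    y = ∑ σ : Perm (Fin n), ((Perm.sign σ : ℤˣ) : ℤ) • capMono v x σ}

/-- the identities of the `k × k` matrices over commutative rings -/
noncomputable def IdM (X : Type) (k : ℕ) : Ideal (FreeAlgebra ℤ X) :=
  RingHom.ker (FreeAlgebra.lift ℤ (gen X k)).toRingHom

/-- products of the ideals `IdM X k` -/
noncomputable def prodI (X : Type) : List ℕ → Ideal (FreeAlgebra ℤ X)
  | [] => ⊤
  | k :: l => IdM X k * prodI X l

/-- the list of ranks for the Capelli identity of rank `k + 1` -/
def lst : ℕ → List ℕ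
  | 0 => []
  | k + 1 => (k + 1) :: (lst k ++ lst k)

end Pool.PI34.T1

end

/-! ### part T1_A -/
section

/-! PI34, theorem T1, file A: products of identities; identities of matrices. -/

set_option autoImplicit false

namespace Pool.PI34.T1

open Equiv Finset Pool.PI34.C0 Pool.PI34.BA

/-- block permutations -/
noncomputable def t1a_blk {p q : ℕ} (x : Perm (Fin p) × Perm (Fin q)) : Perm (Fin (p + q)) :=
  finSumFinEquiv.permCongr (Equiv.Perm.sumCongr x.1 x.2)

theorem t1a_blk_left {p q : ℕ} (x : Perm (Fin p) × Perm (Fin q)) (i : Fin p) :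
    t1a_blk x (Fin.castAdd q i) = Fin.castAdd q (x.1 i) := by
  unfold t1a_blk
  rw [Equiv.permCongr_apply, finSumFinEquiv_symm_apply_castAdd, Equiv.Perm.sumCongr_apply,
    Sum.map_inl, finSumFinEquiv_apply_left]

theorem t1a_blk_right {p q : ℕ} (x : Perm (Fin p) × Perm (Fin q)) (i : Fin q) :
    t1a_blk x (Fin.natAdd p i) = Fin.natAdd p (x.2 i) := by
  unfold t1a_blk
  rw [Equiv.permCongr_apply, finSumFinEquiv_symm_apply_natAdd, Equiv.Perm.sumCongr_apply,
    Sum.map_inr, finSumFinEquiv_apply_right]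

theorem t1a_blk_inj {p q : ℕ} : Function.Injective (t1a_blk (p := p) (q := q)) := by
  rintro ⟨σ, τ⟩ ⟨σ', τ'⟩ h
  refine Prod.ext (Equiv.ext fun i => ?_) (Equiv.ext fun i => ?_)
  · have h1 := congrArg (fun e : Perm (Fin (p + q)) => e (Fin.castAdd q i)) h
    simp only [t1a_blk_left] at h1
    exact Fin.castAdd_injective p q h1
  · have h1 := congrArg (fun e : Perm (Fin (p + q)) => e (Fin.natAdd p i)) h
    simp only [t1a_blk_right] at h1
    exact Fin.natAdd_injective q p h1

theorem t1a_blk_one {p q : ℕ} : t1a_blk (p := p) (q := q) (1, 1) = 1 := by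
  refine Equiv.ext fun i => ?_
  refine Fin.addCases (fun i => ?_) (fun i => ?_) i
  · rw [t1a_blk_left]; rfl
  · rw [t1a_blk_right]; rfl

theorem t1a_mono_blk {U : Type} [Monoid U] {p q : ℕ} (x : Fin (p + q) → U)
    (s : Perm (Fin p) × Perm (Fin q)) :
    mono x (t1a_blk s) = mono (fun i => x (Fin.castAdd q i)) s.1 *
      mono (fun i => x (Fin.natAdd p i)) s.2 := by
  unfold mono
  rw [List.ofFn_add, List.prod_append]
  congr 2
  · congr 1
    funext i
    have := t1a_blk_left s i
    exact congrArg x this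
  · congr 1
    funext i
    have := t1a_blk_right s i
    exact congrArg x this

/-- the coefficients of the product -/
noncomputable def t1a_cf {p q : ℕ} (a : Perm (Fin p) → ℤ) (b : Perm (Fin q) → ℤ)
    (ρ : Perm (Fin (p + q))) : ℤ :=
  ∑ s : Perm (Fin p) × Perm (Fin q), if t1a_blk s = ρ then a s.1 * b s.2 else 0

theorem t1a_cf_one {p q : ℕ} (a : Perm (Fin p) → ℤ) (b : Perm (Fin q) → ℤ) :
    t1a_cf a b 1 = a 1 * b 1 := by
  unfold t1a_cf
  rw [Finset.sum_eq_single ((1, 1) : Perm (Fin p) × Perm (Fin q))]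
  · rw [if_pos t1a_blk_one]
  · intro s _ hs
    rw [if_neg]
    intro h
    exact hs (t1a_blk_inj (h.trans t1a_blk_one.symm))
  · intro h; exact absurd (Finset.mem_univ _) h

theorem t1a_sum {U : Type} [Ring U] {p q : ℕ} (a : Perm (Fin p) → ℤ) (b : Perm (Fin q) → ℤ)
    (x : Fin (p + q) → U) : ∑ ρ, t1a_cf a b ρ • mono x ρ =
      (∑ σ, a σ • mono (fun i => x (Fin.castAdd q i)) σ) *
        ∑ τ, b τ • mono (fun i => x (Fin.natAdd p i)) τ := by
  have h1 : ∀ ρ : Perm (Fin (p + q)), t1a_cf a b ρ • mono x ρ =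
      ∑ s : Perm (Fin p) × Perm (Fin q), if t1a_blk s = ρ then (a s.1 * b s.2) • mono x ρ
        else 0 := by
    intro ρ
    unfold t1a_cf
    rw [Finset.sum_smul]
    refine Finset.sum_congr rfl fun s _ => ?_
    split_ifs
    · rfl
    · rw [zero_smul]
  rw [Finset.sum_congr rfl fun ρ _ => h1 ρ, Finset.sum_comm]
  have h2 : ∀ s : Perm (Fin p) × Perm (Fin q),
      (∑ ρ, if t1a_blk s = ρ then (a s.1 * b s.2) • mono x ρ else 0) =
        (a s.1 • mono (fun i => x (Fin.castAdd q i)) s.1) *
          (b s.2 • mono (fun i => x (Fin.natAdd p i)) s.2) := by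
    intro s
    rw [Finset.sum_ite_eq, if_pos (Finset.mem_univ _), t1a_mono_blk, smul_mul_smul_comm]
  rw [Finset.sum_congr rfl fun s _ => h2 s, ← Finset.univ_product_univ, Finset.sum_product,
    Finset.sum_mul_sum]

/-- PROOF.  Multiply `Σ a_σ x_σ` (variables `0 … d`) and `Σ b_τ x_τ` (variables `d+1 … d+e+1`): the multilinear
polynomial with coefficients `a_σ b_τ` at the block permutation `(σ, τ)` and `0` elsewhere
(`finSumFinEquiv`, `Equiv.Perm.sumCongr`, `Finset.sum_subset` / `Finset.sum_image`). -/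
theorem MPI_mul {U : Type} [Ring U] (I J : Ideal U) [I.IsTwoSided] [J.IsTwoSided] (hI : MPI I)
    (hJ : MPI J) : MPI (I * J) := by
  obtain ⟨d, a, ha, hI⟩ := hI
  obtain ⟨e, b, hb, hJ⟩ := hJ
  refine ⟨d + 1 + e, t1a_cf (p := d + 1) (q := e + 1) a b, ?_, fun x => ?_⟩
  · exact (t1a_cf_one a b).trans (by rw [ha, hb, one_mul])
  · have h := t1a_sum (p := d + 1) (q := e + 1) a b x
    have h2 : (∑ σ, a σ • mono (fun i => x (Fin.castAdd (e + 1) i)) σ) *
        (∑ τ, b τ • mono (fun i => x (Fin.natAdd (d + 1) i)) τ) ∈ I * J :=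
      Ideal.mul_mem_mul (hI _) (hJ _)
    rw [← h] at h2
    exact h2

theorem MPI_mono {U : Type} [Ring U] (I J : Ideal U) (h : I ≤ J) (hI : MPI I) : MPI J := by
  obtain ⟨d, a, ha, hI⟩ := hI
  exact ⟨d, a, ha, fun x => h (hI x)⟩

/-- the standard polynomial of degree `k² + 1` vanishes on `k × k` matrices over a commutative ring
(alternating multilinear, expand in the matrix units, pigeonhole). -/
theorem MPI_matrix (k : ℕ) (C : Type) [CommRing C] :
    ∀ x : Fin (k ^ 2 + 1) → Matrix (Fin k) (Fin k) C,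
      ∑ σ : Perm (Fin (k ^ 2 + 1)), ((Perm.sign σ : ℤˣ) : ℤ) • mono x σ = 0 := by
  intro x
  let f : (Matrix (Fin k) (Fin k) C) [⋀^Fin (k ^ 2 + 1)]→ₗ[C] (Matrix (Fin k) (Fin k) C) :=
    MultilinearMap.alternatization
      (MultilinearMap.mkPiAlgebraFin C (k ^ 2 + 1) (Matrix (Fin k) (Fin k) C))
  have hf : f = 0 := by
    refine Module.Basis.ext_alternating (Matrix.stdBasis C (Fin k) (Fin k)) (fun v hv => ?_)
    exfalso
    have h1 := Fintype.card_le_of_injective v hv
    rw [Fintype.card_fin, Fintype.card_prod, Fintype.card_fin] at h1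
    nlinarith
  have h2 : f x = ∑ σ : Perm (Fin (k ^ 2 + 1)), ((Perm.sign σ : ℤˣ) : ℤ) • mono x σ := by
    change MultilinearMap.alternatization
      (MultilinearMap.mkPiAlgebraFin C (k ^ 2 + 1) (Matrix (Fin k) (Fin k) C)) x = _
    rw [MultilinearMap.alternatization_apply]
    refine Finset.sum_congr rfl fun σ _ => ?_
    rw [MultilinearMap.domDomCongr_apply, MultilinearMap.mkPiAlgebraFin_apply]
    rfl
  rw [← h2, hf]
  rfl

instance (X : Type) (k : ℕ) : (IdM X k).IsTwoSided := by
  unfold IdM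
  infer_instance

theorem t1a_map_mono {U W : Type} [Ring U] [Ring W] (φ : U →+* W) {n : ℕ} (x : Fin n → U)
    (σ : Perm (Fin n)) : φ (mono x σ) = mono (fun i => φ (x i)) σ := by
  unfold mono
  rw [map_list_prod, List.map_ofFn]
  rfl

theorem MPI_IdM (X : Type) (k : ℕ) : MPI (IdM X k) := by
  refine ⟨k ^ 2, fun σ => ((Perm.sign σ : ℤˣ) : ℤ), by simp, fun x => ?_⟩
  unfold IdM
  rw [RingHom.mem_ker, map_sum]
  have h := MPI_matrix k (CG X k) (fun i => (FreeAlgebra.lift ℤ (gen X k)).toRingHom (x i))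
  rw [← h]
  refine Finset.sum_congr rfl fun σ _ => ?_
  rw [map_zsmul, t1a_map_mono]

/-- specialization: an element of `IdM X k` vanishes on all `k × k` matrices over all commutative rings -/
theorem IdM_spec (X : Type) (k : ℕ) (g : FreeAlgebra ℤ X) (hg : g ∈ IdM X k) (C : Type)
    [CommRing C] (m : X → Matrix (Fin k) (Fin k) C) : FreeAlgebra.lift ℤ m g = 0 := by
  unfold IdM at hg
  rw [RingHom.mem_ker] at hg
  have hg' : FreeAlgebra.lift ℤ (gen X k) g = 0 := hg
  let φ : CG X k →ₐ[ℤ] C := MvPolynomial.aeval (fun y : X × Fin k × Fin k => m y.1 y.2.1 y.2.2)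
  have h1 : (φ.mapMatrix (m := Fin k)).comp (FreeAlgebra.lift ℤ (gen X k)) =
      FreeAlgebra.lift ℤ m := by
    refine FreeAlgebra.hom_ext ?_
    funext a
    simp only [Function.comp_apply, AlgHom.comp_apply, FreeAlgebra.lift_ι_apply]
    ext i j
    rw [AlgHom.mapMatrix_apply, Matrix.map_apply]
    change MvPolynomial.aeval (fun y : X × Fin k × Fin k => m y.1 y.2.1 y.2.2)
      (MvPolynomial.X (a, i, j)) = m a i j
    rw [MvPolynomial.aeval_X]
  rw [← h1, AlgHom.comp_apply, hg', map_zero]

/-- `Mat_k(ℤ[x])` is torsion free -/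
theorem PureI_IdM (X : Type) (k : ℕ) : PureI (IdM X k) := by
  intro m g hm hg
  unfold IdM at hg ⊢
  rw [RingHom.mem_ker] at hg ⊢
  rw [map_mul, map_natCast] at hg
  funext i j
  have h1 := congrFun (congrFun hg i) j
  have h2 : ((m : Matrix (Fin k) (Fin k) (CG X k)) *
      (FreeAlgebra.lift ℤ (gen X k)).toRingHom g) i j =
      (m : CG X k) * ((FreeAlgebra.lift ℤ (gen X k)).toRingHom g) i j := by
    rw [← nsmul_eq_mul, Matrix.smul_apply, nsmul_eq_mul]
  rw [h2, Matrix.zero_apply] at h1
  have h3 : (m : CG X k) ≠ 0 := by exact_mod_cast hm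
  exact (mul_eq_zero.1 h1).resolve_left h3

instance (X : Type) (l : List ℕ) : (prodI X l).IsTwoSided := by
  induction l with
  | nil => unfold prodI; infer_instance
  | cons k l ih => unfold prodI; infer_instance

theorem MPI_prodI (X : Type) (l : List ℕ) : MPI (prodI X l) := by
  induction l with
  | nil =>
    unfold prodI
    exact ⟨0, fun _ => 1, rfl, fun x => Submodule.mem_top⟩
  | cons k l ih =>
    unfold prodI
    exact MPI_mul _ _ (MPI_IdM X k) ih

theorem prodI_append (X : Type) (l l' : List ℕ) : prodI X (l ++ l') = prodI X l * prodI X l' := by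
  induction l with
  | nil =>
    change prodI X l' = ⊤ * prodI X l'
    exact (Submodule.top_smul (prodI X l')).symm
  | cons k l ih =>
    change IdM X k * prodI X (l ++ l') = (IdM X k * prodI X l) * prodI X l'
    rw [ih]
    exact (Submodule.mul_smul (IdM X k) (prodI X l) (prodI X l')).symm

end Pool.PI34.T1

end
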