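import Pool.Agent.LibPI54.M31
import Pool.Agent.LibPI54.M32
import Pool.Agent.LibPI54.M37
import Pool.Agent.LibPI54.M39

/-! ### part BA_MainProof -/
section

/-! PI34, block BA: BA from (GEN). -/

set_option autoImplicit false

namespace Pool.PI34.BA

open Equiv Finset

/-- BA from the generation statement -/
theorem BA_of_GEN
    (hGEN : ∀ (k : ℕ) (Y : Type) [Fintype Y] [DecidableEq Y] (n : ℕ), 1 ≤ k → GEN Y k n)
    {X ι E : Type} [Fintype ι] [DecidableEq ι] [Ring E] (S : Str ι (FreeAlgebra ℤ X) E)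
    (k : ℕ) (hA : Anti S.s k) (p q : Fin k ↪ ι) (z : ι) (hF : Frame p q z)
    (g : FreeAlgebra ℤ X)
    (hg : ∀ (C : Type) [CommRing C] (m : X → Matrix (Fin k) (Fin k) C),
      FreeAlgebra.lift ℤ m g = 0) :
    S.ρ z g * (anti S.s (univ.map p) * anti S.s (univ.map q)) = 0 :=
  BA_of_rankBound S k hA p q z hF
    (fun hk Y _ _ n => rankBound_of_GEN p q z hF (hGEN k Y n hk)) g hg

end Pool.PI34.BA

end

/-! ### part A5_Fin -/
section

/-! PI34, block A5, file Fin: the generation statement (GEN). -/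

set_option autoImplicit false

namespace Pool.PI34.A5

open Finset Matrix

/-- (CD) of `GD_6` -/
theorem CD_GD (X : Type) [Fintype X] [DecidableEq X] (k n : ℕ) (K : Type) [Field K] [Infinite K] :
    Pool.PI34.GD.CD X k n K := by
  intro f hf
  obtain ⟨Th, h1, h2, h3⟩ := CD f hf
  refine ⟨Th, ⟨fun ψ r a a' h4 h5 h6 => (h1 ψ r a a' h4 h5 h6).1, fun ψ r a a' h4 h5 h6 => ?_⟩,
    h2, h3⟩
  have h7 : ψ (r, a') ≠ none := fun h => h5 (h6.trans h)
  exact (h1 ψ r a a' h4 h5 h7).2 h6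

/-- (GEN) -/
theorem GEN_all (X : Type) [Fintype X] [DecidableEq X] (k n : ℕ) : Pool.PI34.BA.GEN X k n :=
  Pool.PI34.GD.GEN_of_CD fun K _ _ => CD_GD X k n K

end Pool.PI34.A5

end

/-! ### part BA_Main -/
section

/-! PI34, block BA: THE INTERFACE. -/

set_option autoImplicit false

namespace Pool.PI34.BA

open Equiv Finset

/-- BLOCK BA (final statement; the proof is the assembly of the rows A - G). -/
theorem BA {X ι E : Type} [Fintype ι] [DecidableEq ι] [Ring E] (S : Str ι (FreeAlgebra ℤ X) E)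
    (k : ℕ) (hA : Anti S.s k) (p q : Fin k ↪ ι) (z : ι) (hF : Frame p q z)
    (g : FreeAlgebra ℤ X)
    (hg : ∀ (C : Type) [CommRing C] (m : X → Matrix (Fin k) (Fin k) C),
      FreeAlgebra.lift ℤ m g = 0) :
    S.ρ z g * (anti S.s (univ.map p) * anti S.s (univ.map q)) = 0 :=
  BA_of_GEN (fun k Y _ _ n _ => Pool.PI34.A5.GEN_all Y k n) S k hA p q z hF g hg

end Pool.PI34.BA

end

/-! ### part S_Def -/
section

/-!
PI34, block S, file 3: super string systems (definition).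
-/

set_option autoImplicit false

namespace Pool.PI34.SS

open Equiv Finset
open Pool.PI34.BA

/-- super string systems: `f` are the plain flips, `τ i a` the twisted odd letters
`ζ_{<i} a^{(i)}` (`z` is the smallest strand, so `τ z a = ρ z a`) -/
structure SupStr (ι Φ U : Type) [Fintype ι] [DecidableEq ι] [Ring Φ] [Ring U] (z : ι) where
  ρ : ι → Φ →+* U
  τ : ι → Φ → U
  f : Perm ι →* U
  ev : AddSubgroup Φ
  od : AddSubgroup Φ
  dec : ∀ a, ∃ b ∈ ev, ∃ c ∈ od, a = b + c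
  ev_ev : ∀ i j, i ≠ j → ∀ a ∈ ev, ∀ b ∈ ev, ρ i a * ρ j b = ρ j b * ρ i a
  ev_od : ∀ i j, i ≠ j → ∀ a ∈ ev, ∀ b ∈ od, ρ i a * τ j b = τ j b * ρ i a
  od_od : ∀ i j, i ≠ j → ∀ a ∈ od, ∀ b ∈ od, τ i a * τ j b = -(τ j b * τ i a)
  f_ev : ∀ σ i, ∀ a ∈ ev, f σ * ρ i a = ρ (σ i) a * f σ
  f_od : ∀ σ i, ∀ a ∈ od, f σ * τ i a = τ (σ i) a * f σ
  τ_z : ∀ a ∈ od, τ z a = ρ z a

theorem fa_ext {Y : Type} {A : Type*} [Ring A] (f g : FreeAlgebra ℤ Y →+* A)
    (h : ∀ y, f (FreeAlgebra.ι ℤ y) = g (FreeAlgebra.ι ℤ y)) (P : FreeAlgebra ℤ Y) :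
    f P = g P := by
  induction P using FreeAlgebra.induction with
  | grade0 r => simp
  | grade1 y => exact h y
  | mul u v hu hv => rw [map_mul, map_mul, hu, hv]
  | add u v hu hv => rw [map_add, map_add, hu, hv]

/-- the free ring, as a plain ring -/
def FA (Z : Type) : Type := FreeAlgebra ℤ Z

noncomputable instance (Z : Type) : Ring (FA Z) := inferInstanceAs (Ring (FreeAlgebra ℤ Z))

/-- the generators -/
noncomputable def FA.of {Z : Type} (w : Z) : FA Z := FreeAlgebra.ι ℤ w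

/-- the universal property -/
noncomputable def FA.lift {Z : Type} {A : Type*} [Ring A] (m : Z → A) : FA Z →+* A :=
  ((FreeAlgebra.lift ℤ m : FreeAlgebra ℤ Z →ₐ[ℤ] A) : FreeAlgebra ℤ Z →+* A)

@[simp] theorem FA.lift_of {Z : Type} {A : Type*} [Ring A] (m : Z → A) (w : Z) :
    FA.lift m (FA.of w) = m w :=
  FreeAlgebra.lift_ι_apply m w

theorem FA.ext {Y : Type} {A : Type*} [Ring A] (f g : FA Y →+* A)
    (h : ∀ y, f (FA.of y) = g (FA.of y)) (P : FA Y) : f P = g P :=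
  fa_ext (Y := Y) f g h P

theorem FA.lift_eq {Z : Type} {A : Type*} [Ring A] [Algebra ℤ A] (m : Z → A)
    (P : FreeAlgebra ℤ Z) : FreeAlgebra.lift ℤ m P = FA.lift m (P : FA Z) :=
  fa_ext ((FreeAlgebra.lift ℤ m : FreeAlgebra ℤ Z →ₐ[ℤ] A) : FreeAlgebra ℤ Z →+* A)
    (FA.lift m) (fun y => by
      change FreeAlgebra.lift ℤ m (FreeAlgebra.ι ℤ y) = FA.lift m (FA.of y)
      rw [FA.lift_of, FreeAlgebra.lift_ι_apply]) P

theorem FA.induction {Y : Type} {p : FA Y → Prop} (h0 : ∀ r : ℤ, p (r : FA Y))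
    (h1 : ∀ y, p (FA.of y)) (hm : ∀ u v, p u → p v → p (u * v))
    (ha : ∀ u v, p u → p v → p (u + v)) (P : FA Y) : p P := by
  have h2 : ∀ r : ℤ, p ((algebraMap ℤ (FreeAlgebra ℤ Y)) r) := by
    intro r
    rw [eq_intCast]
    exact h0 r
  exact FreeAlgebra.induction ℤ Y (motive := p) h2 h1 hm ha P

/-- graded identities (up to a nonzero integer) of the `k × k` matrices over supercommutative
rings; the letters outside `E` are odd -/
def GI (k : ℕ) {Y : Type} (E : Y → Prop) (P : FA Y) : Prop :=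
  ∃ N : ℕ, N ≠ 0 ∧ ∀ (G : Type) [Ring G] (h : SuperComm G) (X : Y → Matrix (Fin k) (Fin k) G),
    (∀ y, ¬ E y → ∀ i j, X y i j ∈ h.od) → N • FA.lift X P = 0

/-- the identities of the `k × k` matrices over supercommutative rings (up to torsion) -/
def QQ (k : ℕ) (Y : Type) : Set (FA Y) := {P | GI k (fun _ => True) P}

end Pool.PI34.SS

end
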