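import Pool.Agent.LibPI54.M03
import Pool.Agent.LibPI54.M05
import Pool.Agent.LibPI54.M32
import Pool.Agent.LibPI54.M40

/-! ### part P2b -/
section

/-!
PI34, block P, file 2: the coloured string system of a catalyst.
-/

set_option linter.unusedSectionVars false
set_option linter.unusedSimpArgs false

namespace Pool.PI34.Super

open Equiv Finset
open Pool.PI34.SS (FA)

/-- coloured string systems on the strands `0, …, n` -/
structure ColStr0 (n : ℕ) (Φ U : Type) [Ring Φ] [Ring U] where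
  ρ : Fin (n + 1) → Φ →+* U
  el : Φ
  s : Perm (Fin (n + 1)) → U
  f : Perm (Fin (n + 1)) →* U
  comm : ∀ i i', i ≠ i' → ∀ a b, ρ i a * ρ i' b = ρ i' b * ρ i a
  idem : ∀ i, ρ i el * ρ i el = ρ i el
  s_ρ : ∀ σ i w, s σ * ρ i w = ρ (σ i) w * s σ
  f_swap : ∀ i : Fin n, f (swap i.castSucc i.succ)
    = s (swap i.castSucc i.succ) * (1 - 2 * (ρ i.castSucc el * ρ i.succ el))

namespace CatL

variable {Λ : Type} [CommRing Λ] {j : Λ →+* ℚ} {k l m : ℕ} (L : CatL j k l m) {n : ℕ}

/-- a representation with letters -/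
structure Rp (L : CatL j k l m) (n : ℕ) (Φ0 EE : Type) [Ring EE] where
  a : MonoidAlgebra Λ (Perm (Fin (n + m))) →+* EE
  hK : ∀ y, act k l _ (mj j _ y) = 0 → a y = 0
  ρ : Fin (n + m) → Φ0 → EE
  hcomm : ∀ i i', i ≠ i' → ∀ x y, ρ i x * ρ i' y = ρ i' y * ρ i x
  hconj : ∀ (g : Perm (Fin (n + m))) i x,
    a (MonoidAlgebra.of Λ _ g) * ρ i x = ρ (g i) x * a (MonoidAlgebra.of Λ _ g)
  hscal : ∀ (c : Λ) i x, a (MonoidAlgebra.single 1 c) * ρ i x = ρ i x * a (MonoidAlgebra.single 1 c)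

variable {L} {Φ0 EE : Type} [Ring EE] (V : Rp L n Φ0 EE)

namespace Rp

theorem comm_placed {κ : Type} [Fintype κ] [LinearOrder κ] (φ : κ ↪o Fin (n + m))
    (y : MonoidAlgebra Λ (Perm κ)) (i : Fin (n + m)) (hi : i ∉ Set.range φ) (x : Φ0) :
    V.a (plL Λ φ y) * V.ρ i x = V.ρ i x * V.a (plL Λ φ y) := by
  induction y using MonoidAlgebra.induction_on with
  | of σ => rw [plL_of, V.hconj, ext_apply' _ _ _ hi]
  | add u v hu hv => rw [map_add, map_add, add_mul, mul_add, hu, hv]
  | smul c u hu =>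
    have h1 : c • plL Λ φ u = MonoidAlgebra.single 1 c * plL Λ φ u := by
      rw [Algebra.smul_def]; rfl
    rw [plL_smul, h1, map_mul, mul_assoc, hu, ← mul_assoc, V.hscal, mul_assoc]

/-- the idempotent -/
theorem idem : IsIdempotentElem (V.a (L.Z n)) := L.a_Z V.a V.hK

/-- the corner ring -/
abbrev U : Type := (V.idem).Corner

theorem Z_ρ (i : Fin n) (x : Φ0) :
    V.a (L.Z n) * V.ρ (phL n m i) x = V.ρ (phL n m i) x * V.a (L.Z n) :=
  V.comm_placed (phR n m) L.zL _ (phR_notMem i) x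

/-- make an element of the corner -/
def mkU (x : EE) (h : V.a (L.Z n) * x = x ∧ x * V.a (L.Z n) = x) : V.U :=
  ⟨x, (Subsemigroup.mem_corner_iff V.idem).2 h⟩

theorem U_ext {x y : V.U} (h : x.1 = y.1) : x = y := Subtype.ext h

theorem U_mul (x y : V.U) : (x * y).1 = x.1 * y.1 := rfl

theorem U_one : (1 : V.U).1 = V.a (L.Z n) := rfl

theorem U_add (x y : V.U) : (x + y).1 = x.1 + y.1 := rfl

theorem U_neg (x : V.U) : (-x).1 = -x.1 := rfl

theorem U_sub (x y : V.U) : (x - y).1 = x.1 - y.1 := by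
  rw [sub_eq_add_neg, U_add, U_neg, sub_eq_add_neg]

theorem U_left (x : V.U) : V.a (L.Z n) * x.1 = x.1 :=
  ((Subsemigroup.mem_corner_iff V.idem).1 x.2).1

theorem U_right (x : V.U) : x.1 * V.a (L.Z n) = x.1 :=
  ((Subsemigroup.mem_corner_iff V.idem).1 x.2).2

/-- the inclusion as an additive map -/
def U_val : V.U →+ EE where
  toFun x := x.1
  map_zero' := rfl
  map_add' _ _ := rfl

/-- the letter `x` on the strand `i` -/
noncomputable def lx (i : Fin n) (x : Φ0) : V.U :=
  V.mkU (V.ρ (phL n m i) x * V.a (L.Z n)) ⟨by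
    rw [← mul_assoc, V.Z_ρ, mul_assoc, V.idem.eq], by rw [mul_assoc, V.idem.eq]⟩

/-- the colour on the strand `i` -/
noncomputable def le (i : Fin n) : V.U :=
  V.mkU (V.a (L.Ei n i) * V.a (L.Z n)) ⟨by
    rw [← mul_assoc, L.a_Z_Ei V.a V.hK], by rw [mul_assoc, V.idem.eq]⟩

/-- the original permutation -/
noncomputable def sU (σ : Perm (Fin n)) : V.U :=
  V.mkU (V.a (S Λ n m σ) * V.a (L.Z n)) ⟨by
    rw [← mul_assoc, ← map_mul, ← L.S_Z, map_mul, mul_assoc, V.idem.eq],
    by rw [mul_assoc, V.idem.eq]⟩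

/-- the plain flip -/
noncomputable def fU (σ : Perm (Fin n)) : V.U :=
  V.mkU (V.a (L.fl σ) * V.a (L.Z n)) ⟨by
    rw [← mul_assoc, L.a_Z_fl V.a V.hK], by rw [mul_assoc, V.idem.eq]⟩

/-- the letters -/
noncomputable def lt (i : Fin n) : Option Φ0 → V.U
  | none => V.le i
  | some x => V.lx i x

/-- all the words -/
noncomputable def rU (i : Fin n) : FA (Option Φ0) →+* V.U := FA.lift (V.lt i)

theorem rU_of (i : Fin n) (o : Option Φ0) : V.rU i (FA.of o) = V.lt i o := FA.lift_of _ _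

theorem phi_notMem' {i i' : Fin n} (h : i ≠ i') : phL n m i' ∉ Set.range (phi n m i) := by
  rintro ⟨a, ha⟩
  rcases Fin.eq_zero_or_eq_succ a with rfl | ⟨a, rfl⟩
  · rw [phi_zero] at ha
    exact h ((phL n m).injective ha)
  · rw [phi_succ] at ha
    exact phR_notMem i' ⟨a, ha⟩

theorem Ei_ρ {i i' : Fin n} (h : i ≠ i') (x : Φ0) :
    V.a (L.Ei n i) * V.ρ (phL n m i') x = V.ρ (phL n m i') x * V.a (L.Ei n i) :=
  V.comm_placed (phi n m i) L.EL _ (phi_notMem' h) x

theorem lt_comm {i i' : Fin n} (h : i ≠ i') (o o' : Option Φ0) :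
    V.lt i o * V.lt i' o' = V.lt i' o' * V.lt i o := by
  apply V.U_ext
  have hr : ∀ (x : V.U) (y : EE), x.1 * (y * V.a (L.Z n)) = x.1 * y * V.a (L.Z n) :=
    fun x y => (mul_assoc _ _ _).symm
  rcases o with _ | x <;> rcases o' with _ | y
  · change V.a (L.Ei n i) * V.a (L.Z n) * (V.a (L.Ei n i') * V.a (L.Z n))
      = V.a (L.Ei n i') * V.a (L.Z n) * (V.a (L.Ei n i) * V.a (L.Z n))
    have h1 : ∀ u u' : Fin n, V.a (L.Ei n u) * V.a (L.Z n) * (V.a (L.Ei n u') * V.a (L.Z n))
        = V.a (L.Ei n u) * V.a (L.Ei n u') * V.a (L.Z n) := by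
      intro u u'
      rw [mul_assoc, ← mul_assoc (V.a (L.Z n)), L.a_Z_Ei V.a V.hK, mul_assoc]
    rw [h1, h1, L.a_Ei_comm V.a V.hK]
  · change V.a (L.Ei n i) * V.a (L.Z n) * (V.ρ (phL n m i') y * V.a (L.Z n))
      = V.ρ (phL n m i') y * V.a (L.Z n) * (V.a (L.Ei n i) * V.a (L.Z n))
    have h1 : V.a (L.Ei n i) * V.a (L.Z n) * (V.ρ (phL n m i') y * V.a (L.Z n))
        = V.ρ (phL n m i') y * (V.a (L.Ei n i) * V.a (L.Z n)) := by
      rw [mul_assoc, ← mul_assoc (V.a (L.Z n)), V.Z_ρ, mul_assoc, V.idem.eq, ← mul_assoc,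
        V.Ei_ρ h, mul_assoc]
    have h2 : V.ρ (phL n m i') y * V.a (L.Z n) * (V.a (L.Ei n i) * V.a (L.Z n))
        = V.ρ (phL n m i') y * (V.a (L.Ei n i) * V.a (L.Z n)) := by
      rw [mul_assoc, ← mul_assoc (V.a (L.Z n)), L.a_Z_Ei V.a V.hK]
    rw [h1, h2]
  · change V.ρ (phL n m i) x * V.a (L.Z n) * (V.a (L.Ei n i') * V.a (L.Z n))
      = V.a (L.Ei n i') * V.a (L.Z n) * (V.ρ (phL n m i) x * V.a (L.Z n))
    have h1 : V.a (L.Ei n i') * V.a (L.Z n) * (V.ρ (phL n m i) x * V.a (L.Z n))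
        = V.ρ (phL n m i) x * (V.a (L.Ei n i') * V.a (L.Z n)) := by
      rw [mul_assoc, ← mul_assoc (V.a (L.Z n)), V.Z_ρ, mul_assoc, V.idem.eq, ← mul_assoc,
        V.Ei_ρ h.symm, mul_assoc]
    have h2 : V.ρ (phL n m i) x * V.a (L.Z n) * (V.a (L.Ei n i') * V.a (L.Z n))
        = V.ρ (phL n m i) x * (V.a (L.Ei n i') * V.a (L.Z n)) := by
      rw [mul_assoc, ← mul_assoc (V.a (L.Z n)), L.a_Z_Ei V.a V.hK]
    rw [h1, h2]
  · change V.ρ (phL n m i) x * V.a (L.Z n) * (V.ρ (phL n m i') y * V.a (L.Z n))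
      = V.ρ (phL n m i') y * V.a (L.Z n) * (V.ρ (phL n m i) x * V.a (L.Z n))
    have h1 : ∀ (u u' : Fin n) (x y : Φ0),
        V.ρ (phL n m u) x * V.a (L.Z n) * (V.ρ (phL n m u') y * V.a (L.Z n))
        = V.ρ (phL n m u) x * V.ρ (phL n m u') y * V.a (L.Z n) := by
      intro u u' x y
      rw [mul_assoc, ← mul_assoc (V.a (L.Z n)), V.Z_ρ, mul_assoc, V.idem.eq, mul_assoc]
    rw [h1, h1, V.hcomm _ _ (fun e => h ((phL n m).injective e))]

theorem rU_comm {i i' : Fin n} (h : i ≠ i') (w w' : FA (Option Φ0)) :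
    V.rU i w * V.rU i' w' = V.rU i' w' * V.rU i w := by
  induction w using FA.induction with
  | h0 r => rw [map_intCast]; exact (Int.cast_commute r _).eq
  | h1 o =>
    induction w' using FA.induction with
    | h0 r => rw [map_intCast]; exact (Int.cast_commute r _).eq.symm
    | h1 o' => rw [rU_of, rU_of]; exact V.lt_comm h o o'
    | hm u v hu hv => rw [map_mul, ← mul_assoc, hu, mul_assoc, hv, mul_assoc]
    | ha u v hu hv => rw [map_add, mul_add, add_mul, hu, hv]
  | hm u v hu hv => rw [map_mul, mul_assoc, hv, ← mul_assoc, hu, mul_assoc]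
  | ha u v hu hv => rw [map_add, mul_add, add_mul, hu, hv]

theorem sU_lt (σ : Perm (Fin n)) (i : Fin n) (o : Option Φ0) :
    V.sU σ * V.lt i o = V.lt (σ i) o * V.sU σ := by
  apply V.U_ext
  have hSZ : V.a (L.Z n) * V.a (S Λ n m σ) = V.a (S Λ n m σ) * V.a (L.Z n) := by
    rw [← map_mul, ← map_mul, L.S_Z]
  rcases o with _ | x
  · change V.a (S Λ n m σ) * V.a (L.Z n) * (V.a (L.Ei n i) * V.a (L.Z n))
      = V.a (L.Ei n (σ i)) * V.a (L.Z n) * (V.a (S Λ n m σ) * V.a (L.Z n))
    rw [mul_assoc, ← mul_assoc (V.a (L.Z n)), L.a_Z_Ei V.a V.hK, ← mul_assoc, ← map_mul,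
      L.S_Ei, map_mul, mul_assoc, mul_assoc (V.a (L.Ei n (σ i))), ← mul_assoc (V.a (L.Z n)),
      hSZ, mul_assoc (V.a (S Λ n m σ)), V.idem.eq]
  · change V.a (S Λ n m σ) * V.a (L.Z n) * (V.ρ (phL n m i) x * V.a (L.Z n))
      = V.ρ (phL n m (σ i)) x * V.a (L.Z n) * (V.a (S Λ n m σ) * V.a (L.Z n))
    have h1 : V.a (S Λ n m σ) * V.ρ (phL n m i) x = V.ρ (phL n m (σ i)) x * V.a (S Λ n m σ) := by
      unfold S
      rw [V.hconj, ext_apply]
    rw [mul_assoc, ← mul_assoc (V.a (L.Z n)), V.Z_ρ, mul_assoc, V.idem.eq, ← mul_assoc, h1,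
      mul_assoc, mul_assoc (V.ρ (phL n m (σ i)) x), ← mul_assoc (V.a (L.Z n)), hSZ,
      mul_assoc (V.a (S Λ n m σ)), V.idem.eq]

theorem sU_rU (σ : Perm (Fin n)) (i : Fin n) (w : FA (Option Φ0)) :
    V.sU σ * V.rU i w = V.rU (σ i) w * V.sU σ := by
  induction w using FA.induction with
  | h0 r => rw [map_intCast, map_intCast]; exact (Int.cast_commute r _).eq.symm
  | h1 o => rw [rU_of, rU_of]; exact V.sU_lt σ i o
  | hm u v hu hv => rw [map_mul, map_mul, ← mul_assoc, hu, mul_assoc, hv, mul_assoc]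
  | ha u v hu hv => rw [map_add, map_add, mul_add, add_mul, hu, hv]

/-- the plain flips as a representation -/
noncomputable def fH : Perm (Fin n) →* V.U where
  toFun := V.fU
  map_one' := V.U_ext (L.a_fl_one V.a V.hK)
  map_mul' σ τ := by
    apply V.U_ext
    change V.a (L.fl (σ * τ)) * V.a (L.Z n)
      = V.a (L.fl σ) * V.a (L.Z n) * (V.a (L.fl τ) * V.a (L.Z n))
    rw [mul_assoc, ← mul_assoc (V.a (L.Z n)), L.a_Z_fl V.a V.hK, ← mul_assoc,
      L.a_fl_mul V.a V.hK]

theorem le_mul (i i' : Fin n) : (V.le i * V.le i').1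
    = V.a (L.Ei n i) * V.a (L.Ei n i') * V.a (L.Z n) := by
  change V.a (L.Ei n i) * V.a (L.Z n) * (V.a (L.Ei n i') * V.a (L.Z n)) = _
  rw [mul_assoc, ← mul_assoc (V.a (L.Z n)), L.a_Z_Ei V.a V.hK, mul_assoc]

end Rp

/-- THE COLOURED STRING SYSTEM. -/
noncomputable def Rp.colStr {L : CatL j k l m} {n : ℕ} {Φ0 EE : Type} [Ring EE]
    (V : Rp L (n + 1) Φ0 EE) : ColStr0 n (FA (Option Φ0)) V.U where
  ρ := V.rU
  el := FA.of none
  s := V.sU
  f := V.fH
  comm i i' h w w' := V.rU_comm h w w'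
  idem i := by
    rw [V.rU_of]
    apply V.U_ext
    change (V.le i * V.le i).1 = (V.le i).1
    rw [V.le_mul, L.a_Ei_idem V.a V.hK]
    rfl
  s_ρ := V.sU_rU
  f_swap i := by
    rw [V.rU_of, V.rU_of]
    apply V.U_ext
    change V.a (L.fl (swap i.castSucc i.succ)) * V.a (L.Z (n + 1))
      = V.a (S Λ (n + 1) m (swap i.castSucc i.succ)) * V.a (L.Z (n + 1)) *
        (1 - 2 * (V.le i.castSucc * V.le i.succ)).1
    have h1 : (1 - 2 * (V.le i.castSucc * V.le i.succ) : V.U).1
        = V.a (1 - 2 * (L.Ei (n + 1) i.castSucc * L.Ei (n + 1) i.succ)) * V.a (L.Z (n + 1)) := by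
      rw [V.U_sub, V.U_one, two_mul, V.U_add, V.le_mul, map_sub, map_one, two_mul, map_add,
        map_mul, sub_mul, one_mul, add_mul]
    have h2 : V.a (L.Z (n + 1)) * (1 - 2 * (V.le i.castSucc * V.le i.succ) : V.U).1
        = (1 - 2 * (V.le i.castSucc * V.le i.succ) : V.U).1 := V.U_left _
    have h3 : V.a (L.fl (swap i.castSucc i.succ)) = V.a (S Λ (n + 1) m (swap i.castSucc i.succ))
        * V.a (L.SG (swap i.castSucc i.succ)) := by unfold fl; rw [map_mul]
    rw [h3, mul_assoc, mul_assoc, h2, h1, L.SG_adj]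

theorem Rp.anti_eq {L : CatL j k l m} {n : ℕ} {Φ0 EE : Type} [Ring EE]
    (V : Rp L n Φ0 EE) (T : Finset (Fin n)) : (BA.anti V.fH T).1
      = V.a (∑ σ ∈ BA.permsOn T, ((Perm.sign σ : ℤˣ) : ℤ) • L.fl σ) * V.a (L.Z n) := by
  have h1 : (BA.anti V.fH T).1 = V.U_val (BA.anti V.fH T) := rfl
  rw [h1]
  unfold BA.anti
  rw [map_sum, map_sum, Finset.sum_mul]
  refine Finset.sum_congr rfl (fun σ _ => ?_)
  rw [map_zsmul, map_zsmul, smul_mul_assoc]
  rfl

theorem Rp.anti_zero {L : CatL j k l m} {n : ℕ} {Φ0 EE : Type} [Ring EE]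
    (V : Rp L n Φ0 EE) : BA.Anti V.fH (k + l) := by
  intro T hT
  apply V.U_ext
  rw [V.anti_eq]
  have h := L.a_alt V.a V.hK T (by omega)
  rw [map_sum]
  change _ = (0 : EE)
  rw [← h]
  congr 1
  refine Finset.sum_congr ?_ (fun σ _ => map_zsmul V.a _ _)
  ext σ
  simp [BA.permsOn]

end CatL

end Pool.PI34.Super

end

/-! ### part P3a -/
section

/-!
PI34, block P, file 3: the module of multilinear functions of a ring.
-/

set_option linter.unusedSectionVars false
set_option linter.unusedSimpArgs false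

namespace Pool.PI34.Super

open Equiv Finset
open Pool.PI34.SS (FA)
open Pool.PI34.C0 (capMono)

variable {Λ : Type} [CommRing Λ] {R : Type} [Ring R] [Algebra Λ R] {N : ℕ}

variable (Λ R N) in
/-- the `Λ`-module of functions `(Fin N → R) → R` spanned by the
`r ↦ v_0 r_{σ 0} v_1 ⋯ r_{σ (N-1)} v_N` -/
def VL : Submodule Λ ((Fin N → R) → R) :=
  Submodule.span Λ {F | ∃ (v : Fin (N + 1) → R) (σ : Perm (Fin N)), F = fun r => capMono v r σ}

/-- a monomial is of the form `A c B` as a function of one variable `c` -/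
theorem cap_update (v : Fin (N + 1) → R) (σ : Perm (Fin N)) (r : Fin N → R) (i : Fin N) :
    ∃ A B : R, ∀ c : R, capMono v (Function.update r i c) σ = A * c * B := by
  set j := σ.symm i with hj
  have hji : σ j = i := by rw [hj, Equiv.apply_symm_apply]
  let L : List R := List.ofFn fun l : Fin N => r (σ l) * v l.succ
  refine ⟨v 0 * (L.take j.val).prod, v j.succ * (L.drop (j.val + 1)).prod, fun c => ?_⟩
  have h1 : (List.ofFn fun l : Fin N => Function.update r i c (σ l) * v l.succ) =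
      L.set j.val (c * v j.succ) := by
    apply List.ext_getElem
    · simp [L]
    · intro l h2 h3
      have hl : l < N := by simpa using h2
      rw [List.getElem_set]
      by_cases hlj : j.val = l
      · have h4 : (⟨l, hl⟩ : Fin N) = j := Fin.ext hlj.symm
        rw [if_pos hlj, List.getElem_ofFn, h4, hji, Function.update_self]
      · have h4 : (⟨l, hl⟩ : Fin N) ≠ j := fun h5 => hlj (by rw [← h5])
        have h5 : σ ⟨l, hl⟩ ≠ i := fun h6 => h4 (σ.injective (h6.trans hji.symm))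
        rw [if_neg hlj, List.getElem_ofFn, List.getElem_ofFn, Function.update_of_ne h5]
  have h2 : j.val < L.length := by simp [L]
  rw [capMono, h1, List.prod_set, if_pos h2]
  simp only [mul_assoc]

theorem VL_add (F : (Fin N → R) → R) (hF : F ∈ VL Λ R N) (r : Fin N → R) (i : Fin N)
    (a b : R) : F (Function.update r i (a + b)) =
      F (Function.update r i a) + F (Function.update r i b) := by
  unfold VL at hF
  induction hF using Submodule.span_induction with
  | mem G hG =>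
    obtain ⟨v, σ, rfl⟩ := hG
    obtain ⟨A, B, h⟩ := cap_update v σ r i
    change capMono v _ σ = capMono v _ σ + capMono v _ σ
    rw [h, h, h, mul_add, add_mul]
  | zero => simp
  | add G H _ _ hG hH =>
    change G _ + H _ = (G _ + H _) + (G _ + H _)
    rw [hG, hH]
    abel
  | smul c G _ hG =>
    change c • G _ = c • G _ + c • G _
    rw [hG, smul_add]

theorem VL_zero (F : (Fin N → R) → R) (hF : F ∈ VL Λ R N) (r : Fin N → R) (i : Fin N) :
    F (Function.update r i 0) = 0 := by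
  have h := VL_add F hF r i 0 0
  rw [add_zero] at h
  exact left_eq_add.1 h

theorem VL_right (F : (Fin N → R) → R) (hF : F ∈ VL Λ R N) (i : Fin N) (a : R) :
    (fun r => F (Function.update r i (r i * a))) ∈ VL Λ R N := by
  unfold VL at hF
  induction hF using Submodule.span_induction with
  | mem G hG =>
    obtain ⟨v, σ, rfl⟩ := hG
    refine Submodule.subset_span
      ⟨Function.update v (σ.symm i).succ (a * v (σ.symm i).succ), σ, ?_⟩
    funext r
    change capMono v _ σ = capMono _ r σ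
    unfold capMono
    rw [Function.update_of_ne (Fin.succ_ne_zero _).symm]
    congr 2
    congr 1
    funext l
    by_cases hl : σ l = i
    · subst hl
      rw [Function.update_self, Equiv.symm_apply_apply, Function.update_self, mul_assoc]
    · have h1 : l.succ ≠ (σ.symm i).succ := by
        intro h2
        have h3 := Fin.succ_injective _ h2
        exact hl (by rw [h3, Equiv.apply_symm_apply])
      rw [Function.update_of_ne hl, Function.update_of_ne h1]
  | zero => exact Submodule.zero_mem _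
  | add G H _ _ hG hH => exact Submodule.add_mem _ hG hH
  | smul c G _ hG => exact Submodule.smul_mem _ c hG

theorem VL_perm (F : (Fin N → R) → R) (hF : F ∈ VL Λ R N) (σ : Perm (Fin N)) :
    (fun r => F (r ∘ σ)) ∈ VL Λ R N := by
  unfold VL at hF
  induction hF using Submodule.span_induction with
  | mem G hG =>
    obtain ⟨v, τ, rfl⟩ := hG
    exact Submodule.subset_span ⟨v, σ * τ, rfl⟩
  | zero => exact Submodule.zero_mem _
  | add G H _ _ hG hH => exact Submodule.add_mem _ hG hH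
  | smul c G _ hG => exact Submodule.smul_mem _ c hG

/-- the operator `ρ_i(a)` -/
def rhoL (i : Fin N) (a : R) : Module.End Λ (VL Λ R N) where
  toFun F := ⟨fun r => F.1 (Function.update r i (r i * a)), VL_right F.1 F.2 i a⟩
  map_add' _ _ := rfl
  map_smul' _ _ := rfl

/-- the operator `s(σ)` -/
def sL (σ : Perm (Fin N)) : Module.End Λ (VL Λ R N) where
  toFun F := ⟨fun r => F.1 (r ∘ σ), VL_perm F.1 F.2 σ⟩
  map_add' _ _ := rfl
  map_smul' _ _ := rfl

theorem endL_ext {f g : Module.End Λ (VL Λ R N)}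
    (h : ∀ (F : VL Λ R N) (r : Fin N → R), (f F).1 r = (g F).1 r) : f = g :=
  LinearMap.ext fun F => Subtype.ext (funext fun r => h F r)

/-- `ρ_i` as a ring homomorphism -/
def rhoH (i : Fin N) : R →+* Module.End Λ (VL Λ R N) where
  toFun := rhoL i
  map_one' := by
    refine endL_ext fun F r => ?_
    change F.1 (Function.update r i (r i * 1)) = F.1 r
    rw [mul_one, Function.update_eq_self]
  map_mul' := by
    intro a b
    refine endL_ext fun F r => ?_
    change F.1 (Function.update r i (r i * (a * b))) =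
      F.1 (Function.update (Function.update r i (r i * a)) i
        (Function.update r i (r i * a) i * b))
    rw [Function.update_idem, Function.update_self, mul_assoc]
  map_zero' := by
    refine endL_ext fun F r => ?_
    change F.1 (Function.update r i (r i * 0)) = 0
    rw [mul_zero]
    exact VL_zero F.1 F.2 r i
  map_add' := by
    intro a b
    refine endL_ext fun F r => ?_
    change F.1 (Function.update r i (r i * (a + b))) =
      F.1 (Function.update r i (r i * a)) + F.1 (Function.update r i (r i * b))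
    rw [mul_add]
    exact VL_add F.1 F.2 r i _ _

/-- the permutations as a monoid homomorphism -/
def sH : Perm (Fin N) →* Module.End Λ (VL Λ R N) where
  toFun := sL
  map_one' := rfl
  map_mul' := fun _ _ => rfl

variable (Λ R N) in
/-- the action of the group algebra -/
noncomputable def aL : MonoidAlgebra Λ (Perm (Fin N)) →ₐ[Λ] Module.End Λ (VL Λ R N) :=
  MonoidAlgebra.lift Λ (Module.End Λ (VL Λ R N)) (Perm (Fin N)) sH

theorem aL_of (σ : Perm (Fin N)) : aL Λ R N (MonoidAlgebra.of Λ _ σ) = sL σ := by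
  unfold aL
  simp
  rfl

/-- the value `f_y(v, r)` -/
noncomputable def fv (y : MonoidAlgebra Λ (Perm (Fin N))) (v : Fin (N + 1) → R)
    (r : Fin N → R) : R := ∑ σ, y.coeff σ • capMono v r σ

/-- the monomial as an element of `VL` -/
def monV (v : Fin (N + 1) → R) (τ : Perm (Fin N)) : VL Λ R N :=
  ⟨fun r => capMono v r τ, Submodule.subset_span ⟨v, τ, rfl⟩⟩

theorem aL_monV (y : MonoidAlgebra Λ (Perm (Fin N))) (v : Fin (N + 1) → R)
    (τ : Perm (Fin N)) (r : Fin N → R) :
    (aL Λ R N y (monV v τ)).1 r = ∑ σ, y.coeff σ • capMono v r (σ * τ) := by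
  induction y using MonoidAlgebra.induction_on with
  | of g =>
    rw [aL_of, Finset.sum_eq_single g]
    · simp only [MonoidAlgebra.of_apply, MonoidAlgebra.coeff_single, Finsupp.single_eq_same,
        one_smul]
      rfl
    · intro b _ hb
      simp only [MonoidAlgebra.of_apply, MonoidAlgebra.coeff_single]
      rw [Finsupp.single_eq_of_ne hb, zero_smul]
    · intro h; exact absurd (Finset.mem_univ _) h
  | add x y hx hy =>
    rw [map_add, LinearMap.add_apply]
    change (aL Λ R N x (monV v τ)).1 r + (aL Λ R N y (monV v τ)).1 r = _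
    rw [hx, hy, ← Finset.sum_add_distrib]
    refine Finset.sum_congr rfl (fun σ _ => ?_)
    rw [MonoidAlgebra.coeff_add, Finsupp.add_apply, add_smul]
  | smul c x hx =>
    rw [map_smul, LinearMap.smul_apply]
    change c • (aL Λ R N x (monV v τ)).1 r = _
    rw [hx, Finset.smul_sum]
    refine Finset.sum_congr rfl (fun σ _ => ?_)
    rw [MonoidAlgebra.coeff_smul, Finsupp.smul_apply, smul_smul, smul_eq_mul]

theorem aL_fv (y : MonoidAlgebra Λ (Perm (Fin N))) (v : Fin (N + 1) → R) (r : Fin N → R) :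
    (aL Λ R N y (monV v 1)).1 r = fv y v r := by
  rw [aL_monV]
  unfold fv
  exact Finset.sum_congr rfl (fun σ _ => by rw [mul_one])

/-- type `(k|l)` in degree `N` -/
def TypeKL (j : Λ →+* ℚ) (k l N : ℕ) (R : Type) [Ring R] [Algebra Λ R] : Prop :=
  ∀ y : MonoidAlgebra Λ (Perm (Fin N)), act k l _ (mj j _ y) = 0 →
    ∀ (v : Fin (N + 1) → R) (r : Fin N → R), fv y v r = 0

theorem aL_zero {j : Λ →+* ℚ} {k l : ℕ} (hT : TypeKL j k l N R)
    (y : MonoidAlgebra Λ (Perm (Fin N))) (hy : act k l _ (mj j _ y) = 0) :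
    aL Λ R N y = 0 := by
  refine endL_ext fun F r => ?_
  obtain ⟨F, hF⟩ := F
  change (aL Λ R N y ⟨F, hF⟩).1 r = 0
  have key : ∀ F (hF : F ∈ VL Λ R N), ∀ r, (aL Λ R N y ⟨F, hF⟩).1 r = 0 := by
    intro F hF
    have hF' := hF
    unfold VL at hF
    induction hF using Submodule.span_induction with
    | mem G hG =>
      intro r
      obtain ⟨v, τ, rfl⟩ := hG
      have h1 : (⟨fun r => capMono v r τ, hF'⟩ : VL Λ R N)
          = sL τ (monV v 1) := rfl
      rw [h1, ← aL_of, ← Module.End.mul_apply, ← map_mul, aL_fv]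
      apply hT
      rw [map_mul, map_mul, hy, zero_mul]
    | zero =>
      intro r
      have h1 : (⟨0, hF'⟩ : VL Λ R N) = 0 := rfl
      rw [h1, map_zero]; rfl
    | add G H hG1 hH1 hG hH =>
      intro r
      have h1 : (⟨G + H, hF'⟩ : VL Λ R N) = ⟨G, hG1⟩ + ⟨H, hH1⟩ := rfl
      rw [h1, map_add]
      change (aL Λ R N y ⟨G, hG1⟩).1 r + (aL Λ R N y ⟨H, hH1⟩).1 r = 0
      rw [hG hG1, hH hH1, add_zero]
    | smul c G hG1 hG =>
      intro r
      have h1 : (⟨c • G, hF'⟩ : VL Λ R N) = c • ⟨G, hG1⟩ := rfl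
      rw [h1, map_smul]
      change c • (aL Λ R N y ⟨G, hG1⟩).1 r = 0
      rw [hG hG1, smul_zero]
  exact key F hF r

/-- THE REPRESENTATION of a ring of type `(k|l)`. -/
noncomputable def ringRp {j : Λ →+* ℚ} {k l m : ℕ} (L : CatL j k l m) (n : ℕ)
    (hT : TypeKL j k l (n + m) R) :
    CatL.Rp L n R (Module.End Λ (VL Λ R (n + m))) where
  a := (aL Λ R (n + m)).toRingHom
  hK y hy := aL_zero hT y hy
  ρ := rhoL
  hcomm i i' h x y := by
    refine endL_ext fun F r => ?_
    change F.1 (Function.update (Function.update r i (r i * x)) i'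
        (Function.update r i (r i * x) i' * y)) =
      F.1 (Function.update (Function.update r i' (r i' * y)) i
        (Function.update r i' (r i' * y) i * x))
    rw [Function.update_of_ne h.symm, Function.update_of_ne h, Function.update_comm h]
  hconj g i x := by
    change aL Λ R (n + m) _ * _ = _ * aL Λ R (n + m) _
    rw [aL_of]
    refine endL_ext fun F r => ?_
    change F.1 (Function.update (r ∘ g) i ((r ∘ g) i * x)) =
      F.1 (Function.update r (g i) (r (g i) * x) ∘ g)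
    have h0 : Function.update (r ∘ g) i ((r ∘ g) i * x) =
        Function.update r (g i) (r (g i) * x) ∘ g := by
      funext l
      by_cases hl : l = i
      · subst hl
        simp
      · have h1 : g l ≠ g i := fun h2 => hl (g.injective h2)
        rw [Function.update_of_ne hl, Function.comp_apply, Function.comp_apply,
          Function.update_of_ne h1]
    rw [h0]
  hscal c i x := by
    change aL Λ R (n + m) _ * _ = _ * aL Λ R (n + m) _
    have h1 : (MonoidAlgebra.single 1 c : MonoidAlgebra Λ (Perm (Fin (n + m))))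
        = algebraMap Λ _ c := rfl
    rw [h1, AlgHom.commutes]
    exact Algebra.commutes c _

end Pool.PI34.Super

end

/-! ### part P3b -/
section

/-!
PI34, block P, file 4: the element `Y0` and the values `f_{Y0}`.
-/

set_option linter.unusedSectionVars false
set_option linter.unusedSimpArgs false

namespace Pool.PI34.Super

open Equiv Finset
open Pool.PI34.SS (FA)
open Pool.PI34.C0 (capMono)
open Pool.PI34.BA (anti permsOn)

theorem mem_permsOn' {n : ℕ} {T : Finset (Fin n)} {σ : Perm (Fin n)} :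
    σ ∈ permsOn T ↔ ∀ x, x ∉ T → σ x = x := by
  simp [permsOn]

section ext

variable {κ ι : Type} [Fintype κ] [LinearOrder κ] [Fintype ι] [LinearOrder ι]

theorem ext_surj (φ : κ ↪o ι) (g : Perm ι) (h : ∀ x, x ∉ Set.range φ → g x = x) :
    ∃ g' : Perm κ, ext φ g' = g := by
  classical
  have h1 : ∀ c, ∃ d, φ d = g (φ c) := by
    intro c
    by_contra hcon
    have h2 : g (φ c) ∉ Set.range φ := by
      rintro ⟨d, hd⟩
      exact hcon ⟨d, hd⟩
    have h3 := h _ h2
    have h4 := g.injective h3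
    exact hcon ⟨c, h4.symm⟩
  choose f hf using h1
  have hinj : Function.Injective f := by
    intro a b hab
    have := hf a
    rw [hab, hf b] at this
    exact (φ.injective (g.injective this)).symm
  let g' : Perm κ := Equiv.ofBijective f (Finite.injective_iff_bijective.1 hinj)
  refine ⟨g', ?_⟩
  apply Equiv.ext
  intro x
  by_cases hx : x ∈ Set.range φ
  · obtain ⟨c, rfl⟩ := hx
    rw [ext_apply]
    exact hf c
  · rw [ext_apply' _ _ _ hx, h x hx]

end ext

/-- all the strands except the first -/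
def ph1 (q m : ℕ) : Fin (q + m) ↪o Fin (q + 1 + m) :=
  OrderEmbedding.ofStrictMono (fun x => ⟨x.val + 1, by omega⟩) (fun x y h => by
    rw [Fin.lt_def] at *; simp only; omega)

theorem ph1_val (q m : ℕ) (x : Fin (q + m)) : (ph1 q m x).val = x.val + 1 := rfl

theorem ph1_range (q m : ℕ) (x : Fin (q + 1 + m)) (hx : x ∉ Set.range (ph1 q m)) :
    x.val = 0 := by
  by_contra h
  apply hx
  refine ⟨⟨x.val - 1, by omega⟩, Fin.ext ?_⟩
  rw [ph1_val]
  simp only
  omega

theorem conv_ph1 (q m : ℕ) : Conv (ph1 q m) := by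
  intro x hx
  left
  intro a
  rw [Fin.lt_def, ph1_range q m x hx, ph1_val]
  omega

theorem phR_ph1 (q m : ℕ) : (phR q m).trans (ph1 q m) = phR (q + 1) m := by
  apply DFunLike.ext
  intro x
  apply Fin.ext
  change (ph1 q m (phR q m x)).val = _
  rw [ph1_val]
  have h1 : (phR q m x).val = q + x.val := rfl
  have h2 : (phR (q + 1) m x).val = q + 1 + x.val := rfl
  rw [h1, h2]; omega

theorem phi_ph1 (q m : ℕ) (i : Fin q) : (phi q m i).trans (ph1 q m) = phi (q + 1) m i.succ := by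
  apply DFunLike.ext
  intro x
  apply Fin.ext
  change (ph1 q m (phi q m i x)).val = _
  rw [ph1_val]
  rcases Fin.eq_zero_or_eq_succ x with rfl | ⟨x, rfl⟩
  · rfl
  · rw [phi_succ, phi_succ]
    have h1 : (Fin.natAdd q x).val = q + x.val := rfl
    have h2 : (Fin.natAdd (q + 1) x).val = q + 1 + x.val := rfl
    rw [h1, h2]; omega

namespace CatL

variable {Λ : Type} [CommRing Λ] {j : Λ →+* ℚ} {k l m : ℕ} (L : CatL j k l m)

/-- the image of the group algebra of the strands `≠ 0` -/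
noncomputable def rg (Λ : Type) [CommRing Λ] (q m : ℕ) :
    Subring (MonoidAlgebra Λ (Perm (Fin (q + 1 + m)))) := (plL Λ (ph1 q m)).range

theorem rg_Z (q : ℕ) : L.Z (q + 1) ∈ rg Λ q m := by
  refine ⟨L.Z q, ?_⟩
  unfold Z
  rw [plL_trans _ _ (fun σ => ext_trans _ _ σ), phR_ph1]

theorem rg_Ei (q : ℕ) (i : Fin q) : L.Ei (q + 1) i.succ ∈ rg Λ q m := by
  refine ⟨L.Ei q i, ?_⟩
  unfold Ei
  rw [plL_trans _ _ (fun σ => ext_trans _ _ σ), phi_ph1]

theorem rg_of (q : ℕ) (g : Perm (Fin (q + 1 + m))) (h : ∀ x, x.val = 0 → g x = x) :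
    MonoidAlgebra.of Λ _ g ∈ rg Λ q m := by
  obtain ⟨g', rfl⟩ := ext_surj (ph1 q m) g (fun x hx => h x (ph1_range q m x hx))
  exact ⟨MonoidAlgebra.of Λ _ g', plL_of _ _⟩

theorem rg_SG (q : ℕ) (σ : Perm (Fin (q + 1))) (h : σ 0 = 0) :
    L.SG (n := q + 1) σ ∈ rg Λ q m := by
  unfold SG
  apply Subring.list_prod_mem
  intro x hx
  rw [List.mem_map] at hx
  obtain ⟨y, hy, rfl⟩ := hx
  rw [Finset.mem_toList, mem_prs] at hy
  split_ifs with h1
  · have h2 : y.1 ≠ 0 := by
      intro e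
      rw [e, h] at h1
      exact absurd h1 (Fin.not_lt_zero _)
    have h3 : y.2 ≠ 0 := by
      intro e
      rw [e] at hy
      exact absurd hy (Fin.not_lt_zero _)
    obtain ⟨a, ha⟩ := Fin.exists_succ_eq.2 h2
    obtain ⟨b, hb⟩ := Fin.exists_succ_eq.2 h3
    rw [← ha, ← hb, two_mul]
    refine Subring.sub_mem _ (Subring.one_mem _) (Subring.add_mem _ ?_ ?_) <;>
      exact Subring.mul_mem _ (L.rg_Ei q a) (L.rg_Ei q b)
  · exact Subring.one_mem _

theorem rg_fl (q : ℕ) (σ : Perm (Fin (q + 1))) (h : σ 0 = 0) :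
    L.fl (n := q + 1) σ ∈ rg Λ q m := by
  unfold fl
  refine Subring.mul_mem _ ?_ (L.rg_SG q σ h)
  unfold S
  apply rg_of
  intro x hx
  by_cases h2 : x ∈ Set.range (phL (q + 1) m)
  · obtain ⟨y, rfl⟩ := h2
    rw [ext_apply]
    have h3 : (phL (q + 1) m y).val = y.val := rfl
    rw [h3] at hx
    have h4 : y = 0 := Fin.ext hx
    rw [h4, h]
  · exact ext_apply' _ _ _ h2

/-- the antisymmetrizer of the plain flips -/
noncomputable def altL (n : ℕ) (T : Finset (Fin n)) : MonoidAlgebra Λ (Perm (Fin (n + m))) :=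
  ∑ σ ∈ permsOn T, ((Perm.sign σ : ℤˣ) : ℤ) • L.fl σ

theorem rg_altL (q : ℕ) (T : Finset (Fin (q + 1))) (hT : (0 : Fin (q + 1)) ∉ T) :
    L.altL (q + 1) T ∈ rg Λ q m := by
  unfold altL
  refine Subring.sum_mem _ (fun σ hσ => Subring.zsmul_mem _ (L.rg_fl q σ ?_) _)
  exact mem_permsOn'.1 hσ 0 hT

/-- `Y' = A_P A_Q (1 ⊗ z)` -/
noncomputable def Yp (n : ℕ) (P Q : Finset (Fin n)) : MonoidAlgebra Λ (Perm (Fin (n + m))) :=
  L.altL n P * L.altL n Q * L.Z n

theorem exists_Y0 (q : ℕ) (P Q : Finset (Fin (q + 1))) (hP : (0 : Fin (q + 1)) ∉ P)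
    (hQ : (0 : Fin (q + 1)) ∉ Q) :
    ∃ Y0 : MonoidAlgebra Λ (Perm (Fin (q + m))), plL Λ (ph1 q m) Y0 = L.Yp (q + 1) P Q :=
  Subring.mul_mem (rg Λ q m)
    (Subring.mul_mem (rg Λ q m) (L.rg_altL q P hP) (L.rg_altL q Q hQ)) (L.rg_Z q)

theorem act_altL {n : ℕ} {ξ : W k l (Fin m)} (hξ : ξ ∈ L.C.Xi) (T : Finset (Fin n))
    (v : Fin n → Lt k l) : act k l _ (mj j _ (L.altL n T)) (tn v ξ)
      = ∑ σ ∈ permsOn T, ((Perm.sign σ : ℤ) : ℚ) • tn (v ∘ ⇑σ⁻¹) ξ := by
  unfold altL
  rw [map_sum, map_sum, LinearMap.sum_apply]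
  refine Finset.sum_congr rfl (fun σ _ => ?_)
  rw [mj_zsmul, mj_fl, map_smul, LinearMap.smul_apply, CatP.act_fl L.C hξ]

theorem act_Yp {n : ℕ} {ξ : W k l (Fin m)} (hξ : ξ ∈ L.C.Xi) (P Q : Finset (Fin n))
    (v : Fin n → Lt k l) : act k l _ (mj j _ (L.Yp n P Q)) (tn v ξ)
      = ∑ σ' ∈ permsOn Q, ∑ σ ∈ permsOn P,
        (((Perm.sign σ : ℤ) : ℚ) * ((Perm.sign σ' : ℤ) : ℚ)) • tn (v ∘ ⇑(σ * σ')⁻¹) ξ := by
  unfold Yp
  rw [map_mul, map_mul, map_mul, map_mul, mj_Z, Module.End.mul_apply, Module.End.mul_apply,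
    CatP.act_Z L.C hξ, L.act_altL hξ, map_sum]
  refine Finset.sum_congr rfl (fun σ' _ => ?_)
  rw [map_smul, L.act_altL hξ, Finset.smul_sum]
  refine Finset.sum_congr rfl (fun σ _ => ?_)
  rw [smul_smul, mul_comm]
  rfl

theorem Yp_ne {n : ℕ} (P Q : Finset (Fin n)) (hPQ : Disjoint P Q) (v : Fin n → Lt k l)
    (hvP : Set.InjOn v P) (hvQ : Set.InjOn v Q) : act k l _ (mj j _ (L.Yp n P Q)) ≠ 0 := by
  classical
  obtain ⟨ξ, hξ, hξ0⟩ := L.C.hne
  obtain ⟨u0, hu0⟩ := Function.ne_iff.1 hξ0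
  intro h0
  have h1 := congrFun (LinearMap.congr_fun h0 (tn v ξ)) (Fin.append v u0)
  rw [L.act_Yp hξ, LinearMap.zero_apply, Finset.sum_apply] at h1
  have hw1 : Fin.append v u0 ∘ phL n m = v := by
    funext i; exact Fin.append_left v u0 i
  have hw2 : Fin.append v u0 ∘ phR n m = u0 := by
    funext i; exact Fin.append_right v u0 i
  -- a product fixing the word is trivial
  have key : ∀ σ ∈ permsOn P, ∀ σ' ∈ permsOn Q, v = v ∘ ⇑(σ * σ')⁻¹ → σ = 1 ∧ σ' = 1 := by
    intro σ hσ σ' hσ' hv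
    have s1 : ∀ x, x ∉ P → σ x = x := mem_permsOn'.1 hσ
    have s2 : ∀ x, x ∉ Q → σ' x = x := mem_permsOn'.1 hσ'
    have t1 : ∀ x, x ∈ P → σ x ∈ P := by
      intro x hx
      by_contra h
      have := σ.injective (s1 _ h)
      rw [this] at h
      exact h hx
    have t2 : ∀ x, x ∈ Q → σ' x ∈ Q := by
      intro x hx
      by_contra h
      have := σ'.injective (s2 _ h)
      rw [this] at h
      exact h hx
    have hv' : ∀ x, v (σ (σ' x)) = v x := by
      intro x
      have := congrFun hv (σ (σ' x))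
      rw [Function.comp_apply, mul_inv_rev, Perm.mul_apply, inv_app', inv_app'] at this
      exact this
    constructor
    · apply Equiv.ext
      intro x
      by_cases hx : x ∈ P
      · have hxQ : x ∉ Q := fun h => Finset.disjoint_left.1 hPQ hx h
        have h2 := hv' x
        rw [s2 x hxQ] at h2
        exact hvP (t1 x hx) hx h2
      · exact s1 x hx
    · apply Equiv.ext
      intro x
      by_cases hx : x ∈ Q
      · have h3 : σ' x ∉ P := fun h => Finset.disjoint_left.1 hPQ h (t2 x hx)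
        have h2 := hv' x
        rw [s1 _ h3] at h2
        exact hvQ (t2 x hx) hx h2
      · exact s2 x hx
  have hP1 : (1 : Perm (Fin n)) ∈ permsOn P :=
    mem_permsOn'.2 (fun _ _ => rfl)
  have hQ1 : (1 : Perm (Fin n)) ∈ permsOn Q :=
    mem_permsOn'.2 (fun _ _ => rfl)
  rw [Finset.sum_eq_single_of_mem 1 hQ1, Finset.sum_apply, Finset.sum_eq_single_of_mem 1 hP1] at h1
  · rw [Pi.smul_apply, tn_apply, hw1, hw2, if_pos] at h1
    · simp only [Perm.sign_one, Units.val_one, Int.cast_one, mul_one, one_smul,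
        Pi.zero_apply] at h1
      exact hu0 h1
    · funext x; simp
  · intro σ hσ hne
    rw [Pi.smul_apply, tn_apply, hw1, if_neg, smul_zero]
    intro hv
    exact hne (key σ hσ 1 hQ1 hv).1
  · intro σ' hσ' hne
    rw [Finset.sum_apply]
    refine Finset.sum_eq_zero (fun σ hσ => ?_)
    rw [Pi.smul_apply, tn_apply, hw1, if_neg, smul_zero]
    intro hv
    exact hne (key σ hσ σ' hσ' hv).2

/-- if the placed element does not act by zero then the element does not either -/
theorem act_of_pl {κ ι : Type} [Fintype κ] [LinearOrder κ] [Fintype ι] [LinearOrder ι]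
    {φ : κ ↪o ι} (hφ : Conv φ) (y : MonoidAlgebra ℚ (Perm κ))
    (h : act k l _ (pl φ y) ≠ 0) : act k l _ y ≠ 0 := by
  intro h0
  apply h
  apply LinearMap.ext
  intro f
  funext w
  rw [act_pl hφ, h0]
  rfl

end CatL

section values

variable {Λ : Type} [CommRing Λ] {R : Type} [Ring R] [Algebra Λ R]

theorem cap_succ {N N' : ℕ} (hN : N = N' + 1) (φ : Fin N' ↪o Fin N)
    (hφ : ∀ x, (φ x).val = x.val + 1) (σ : Perm (Fin N')) (v : Fin (N + 1) → R)
    (r : Fin N → R) (h0 : 0 < N) : capMono v r (ext φ σ)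
      = v 0 * r ⟨0, h0⟩ * capMono (fun i : Fin (N' + 1) => v ⟨i.val + 1, by omega⟩) (r ∘ φ) σ := by
  subst hN
  have h1 : ∀ x : Fin N', φ x = x.succ := fun x => Fin.ext (hφ x)
  have h2 : ext φ σ 0 = 0 := by
    apply ext_apply'
    rintro ⟨x, hx⟩
    rw [h1] at hx
    exact absurd hx (Fin.succ_ne_zero _)
  unfold capMono
  rw [List.ofFn_succ, List.prod_cons, h2]
  have h3 : (List.ofFn fun i : Fin N' => r (ext φ σ i.succ) * v i.succ.succ)
      = List.ofFn fun i : Fin N' => (r ∘ φ) (σ i) * v ⟨i.succ.val + 1, by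
        have := i.2; simp only [Fin.val_succ]; omega⟩ := by
    congr 1
    funext i
    have e1 : ext φ σ i.succ = φ (σ i) := by rw [← h1 i]; exact ext_apply φ σ i
    change r (ext φ σ i.succ) * _ = r (φ (σ i)) * _
    rw [e1]
    rfl
  rw [h3]
  have h4 : v (Fin.succ (0 : Fin (N' + 1))) = v ⟨((0 : Fin (N' + 1)) : ℕ) + 1, by omega⟩ := rfl
  rw [h4]
  simp only [mul_assoc]
  rfl

theorem fv_pl {q m : ℕ} (y : MonoidAlgebra Λ (Perm (Fin (q + m))))
    (v : Fin (q + 1 + m + 1) → R) (r : Fin (q + 1 + m) → R) :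
    fv (plL Λ (ph1 q m) y) v r = v 0 * r ⟨0, by omega⟩ *
      fv y (fun i : Fin (q + m + 1) => v ⟨i.val + 1, by omega⟩) (r ∘ ph1 q m) := by
  have hof : ∀ {N : ℕ} (σ : Perm (Fin N)) (v : Fin (N + 1) → R) (r : Fin N → R),
      fv (MonoidAlgebra.of Λ _ σ) v r = capMono v r σ := by
    intro N σ v r
    unfold fv
    rw [Finset.sum_eq_single σ]
    · simp only [MonoidAlgebra.of_apply, MonoidAlgebra.coeff_single, Finsupp.single_eq_same,
        one_smul]
    · intro b _ hb
      simp only [MonoidAlgebra.of_apply, MonoidAlgebra.coeff_single]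
      rw [Finsupp.single_eq_of_ne hb, zero_smul]
    · intro h; exact absurd (Finset.mem_univ _) h
  have hadd : ∀ {N : ℕ} (x y : MonoidAlgebra Λ (Perm (Fin N))) (v : Fin (N + 1) → R)
      (r : Fin N → R), fv (x + y) v r = fv x v r + fv y v r := by
    intro N x y v r
    unfold fv
    rw [← Finset.sum_add_distrib]
    refine Finset.sum_congr rfl (fun σ _ => ?_)
    rw [MonoidAlgebra.coeff_add, Finsupp.add_apply, add_smul]
  have hsm : ∀ {N : ℕ} (c : Λ) (y : MonoidAlgebra Λ (Perm (Fin N))) (v : Fin (N + 1) → R)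
      (r : Fin N → R), fv (c • y) v r = c • fv y v r := by
    intro N c y v r
    unfold fv
    rw [Finset.smul_sum]
    refine Finset.sum_congr rfl (fun σ _ => ?_)
    rw [MonoidAlgebra.coeff_smul, Finsupp.smul_apply, smul_smul, smul_eq_mul]
  induction y using MonoidAlgebra.induction_on with
  | of σ =>
    rw [plL_of, hof, hof]
    exact cap_succ (by omega) (ph1 q m) (ph1_val q m) σ v r (by omega)
  | add x y hx hy => rw [map_add, hadd, hadd, hx, hy, mul_add]
  | smul c y hy => rw [plL_smul, hsm, hsm, hy, mul_smul_comm]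

end values

end Pool.PI34.Super

end
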