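import Pool.Agent.LibPI54.M32
import Pool.Agent.LibPI54.M40

/-! ### part S_Std -/
section

/-!
PI34, block S, file 10: a power of the standard polynomial vanishes on matrices over
supercommutative rings.
-/

set_option autoImplicit false

namespace Pool.PI34.SS

open Equiv Finset
open Pool.PI34.C0

/-- the standard polynomial -/
def stdP {A : Type*} [Ring A] {q : ℕ} (x : Fin q → A) : A :=
  ∑ σ : Perm (Fin q), ((Perm.sign σ : ℤˣ) : ℤ) • mono x σ

theorem stdP_matrix (k : ℕ) (C : Type*) [CommRing C] (x : Fin (k * k + 1) → Matrix (Fin k) (Fin k) C) :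
    stdP x = 0 := by
  let f : (Matrix (Fin k) (Fin k) C) [⋀^Fin (k * k + 1)]→ₗ[C] (Matrix (Fin k) (Fin k) C) :=
    MultilinearMap.alternatization
      (MultilinearMap.mkPiAlgebraFin C (k * k + 1) (Matrix (Fin k) (Fin k) C))
  have hf : f = 0 := by
    refine Module.Basis.ext_alternating (Matrix.stdBasis C (Fin k) (Fin k)) (fun v hv => ?_)
    exfalso
    have h1 := Fintype.card_le_of_injective v hv
    rw [Fintype.card_fin, Fintype.card_prod, Fintype.card_fin] at h1
    omega
  have h2 : f x = stdP x := by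
    change MultilinearMap.alternatization
      (MultilinearMap.mkPiAlgebraFin C (k * k + 1) (Matrix (Fin k) (Fin k) C)) x = _
    rw [MultilinearMap.alternatization_apply]
    refine Finset.sum_congr rfl fun σ _ => ?_
    rw [MultilinearMap.domDomCongr_apply, MultilinearMap.mkPiAlgebraFin_apply]
    rfl
  rw [← h2, hf]
  rfl

theorem map_mono {A B : Type*} [Ring A] [Ring B] (φ : A →+* B) {n : ℕ} (x : Fin n → A)
    (σ : Perm (Fin n)) : φ (mono x σ) = mono (fun i => φ (x i)) σ := by
  unfold mono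
  rw [map_list_prod, List.map_ofFn]
  rfl

theorem map_stdP {A B : Type*} [Ring A] [Ring B] (φ : A →+* B) {n : ℕ} (x : Fin n → A) :
    φ (stdP x) = stdP (fun i => φ (x i)) := by
  unfold stdP
  rw [map_sum]
  exact Finset.sum_congr rfl (fun σ _ => by rw [map_zsmul, map_mono])

section sc

variable {G : Type*} [Ring G] (h : SuperComm G)

/-- the even part as a ring -/
def evR : Subring G where
  carrier := h.ev
  mul_mem' := fun ha hb => h.ev_ev _ ha _ hb
  one_mem' := h.one_mem
  add_mem' := fun ha hb => add_mem ha hb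
  zero_mem' := zero_mem h.ev
  neg_mem' := fun ha => neg_mem ha

theorem stdP_even (k : ℕ) (a : Fin (k * k + 1) → Matrix (Fin k) (Fin k) G)
    (ha : ∀ t i j, a t i j ∈ h.ev) : stdP a = 0 := by
  letI : CommRing (evR h) :=
    { (inferInstance : Ring (evR h)) with
      mul_comm := fun x y => Subtype.ext (h.comm x x.2 y) }
  let a' : Fin (k * k + 1) → Matrix (Fin k) (Fin k) (evR h) := fun t =>
    Matrix.of fun i j => ⟨a t i j, ha t i j⟩
  let φ : Matrix (Fin k) (Fin k) (evR h) →+* Matrix (Fin k) (Fin k) G :=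
    (evR h).subtype.mapMatrix
  have h1 : a = fun t => φ (a' t) := by
    funext t; ext i j; rfl
  rw [h1, ← map_stdP, stdP_matrix k _ a', map_zero]

/-- matrices with entries in a submodule -/
def MJ (k : ℕ) (J : Submodule ℤ G) : AddSubgroup (Matrix (Fin k) (Fin k) G) where
  carrier := {M | ∀ i j, M i j ∈ J}
  zero_mem' := fun _ _ => zero_mem J
  add_mem' := fun ha hb i j => add_mem (ha i j) (hb i j)
  neg_mem' := fun ha i j => neg_mem (ha i j)

theorem MJ_mul {k : ℕ} {J J' : Submodule ℤ G} {M N : Matrix (Fin k) (Fin k) G}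
    (hM : M ∈ MJ k J) (hN : N ∈ MJ k J') : M * N ∈ MJ k (J * J') := fun i j => by
  rw [Matrix.mul_apply]
  exact Submodule.sum_mem _ (fun l _ => Submodule.mul_mem_mul (hM i l) (hN l j))

theorem MJ_left {k : ℕ} {J : Submodule ℤ G} (hJ : ∀ g, ∀ x ∈ J, g * x ∈ J)
    (M : Matrix (Fin k) (Fin k) G) {N : Matrix (Fin k) (Fin k) G} (hN : N ∈ MJ k J) :
    M * N ∈ MJ k J := fun i j => by
  rw [Matrix.mul_apply]
  exact Submodule.sum_mem _ (fun l _ => hJ _ _ (hN l j))

theorem MJ_right {k : ℕ} {J : Submodule ℤ G} (hJ : ∀ g, ∀ x ∈ J, x * g ∈ J)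
    {M : Matrix (Fin k) (Fin k) G} (N : Matrix (Fin k) (Fin k) G) (hM : M ∈ MJ k J) :
    M * N ∈ MJ k J := fun i j => by
  rw [Matrix.mul_apply]
  exact Submodule.sum_mem _ (fun l _ => hJ _ _ (hM i l))

theorem prod_sub_mem {A : Type*} [Ring A] (I : AddSubgroup A) (hl : ∀ g, ∀ x ∈ I, g * x ∈ I)
    (hr : ∀ g, ∀ x ∈ I, x * g ∈ I) {n : ℕ} (x a : Fin n → A) (h : ∀ i, x i - a i ∈ I) :
    (List.ofFn x).prod - (List.ofFn a).prod ∈ I := by
  induction n with
  | zero => simp
  | succ n ih =>
    rw [List.ofFn_succ, List.ofFn_succ, List.prod_cons, List.prod_cons]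
    have h1 := ih (fun i => x i.succ) (fun i => a i.succ) (fun i => h i.succ)
    have h2 : x 0 * (List.ofFn fun i => x i.succ).prod - a 0 * (List.ofFn fun i => a i.succ).prod
        = (x 0 - a 0) * (List.ofFn fun i => x i.succ).prod
        + a 0 * ((List.ofFn fun i => x i.succ).prod - (List.ofFn fun i => a i.succ).prod) := by
      noncomm_ring
    rw [h2]
    exact add_mem (hr _ _ (h 0)) (hl _ _ h1)

theorem stdP_sub_mem {A : Type*} [Ring A] (I : AddSubgroup A) (hl : ∀ g, ∀ x ∈ I, g * x ∈ I)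
    (hr : ∀ g, ∀ x ∈ I, x * g ∈ I) {n : ℕ} (x a : Fin n → A) (h : ∀ i, x i - a i ∈ I) :
    stdP x - stdP a ∈ I := by
  unfold stdP
  rw [← Finset.sum_sub_distrib]
  refine sum_mem (fun σ _ => ?_)
  rw [← smul_sub]
  refine zsmul_mem ?_ _
  exact prod_sub_mem I hl hr _ _ (fun i => h (σ i))

theorem lid_left (y : G) (g : G) (x : G) (hx : x ∈ lid y) : g * x ∈ lid y := by
  unfold lid at hx ⊢
  induction hx using Submodule.span_induction with
  | mem x hx => obtain ⟨a, rfl⟩ := hx; exact Submodule.subset_span ⟨g * a, by rw [mul_assoc]⟩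
  | zero => rw [mul_zero]; exact zero_mem _
  | add x y _ _ h1 h2 => rw [mul_add]; exact add_mem h1 h2
  | smul n x _ h1 => rw [mul_smul_comm]; exact Submodule.smul_mem _ _ h1

include h in
theorem lid_right {y : G} (hy : y ∈ h.od) (g : G) (x : G) (hx : x ∈ lid y) : x * g ∈ lid y := by
  unfold lid at hx ⊢
  induction hx using Submodule.span_induction with
  | mem x hx =>
    obtain ⟨a, rfl⟩ := hx
    obtain ⟨g', hg⟩ := odd_move h hy g
    exact Submodule.subset_span ⟨a * g', by rw [mul_assoc, hg, mul_assoc]⟩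
  | zero => rw [zero_mul]; exact zero_mem _
  | add x y _ _ h1 h2 => rw [add_mul]; exact add_mem h1 h2
  | smul n x _ h1 => rw [smul_mul_assoc]; exact Submodule.smul_mem _ _ h1

theorem sum_sub_left {κ : Type*} (a : κ → Submodule ℤ G) (s : Finset κ)
    (P : G → G → G) (hP : ∀ x, (∀ y z, P x (y + z) = P x y + P x z) ∧ P x 0 = 0)
    (hl : ∀ i ∈ s, ∀ g, ∀ x ∈ a i, P g x ∈ a i) (g x : G) (hx : x ∈ ∑ i ∈ s, a i) :
    P g x ∈ ∑ i ∈ s, a i := by
  classical
  induction s using Finset.induction_on generalizing x with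
  | empty =>
    rw [Finset.sum_empty] at hx ⊢
    have : x = 0 := (Submodule.mem_bot ℤ).1 hx
    rw [this, (hP g).2]; exact zero_mem _
  | insert i s hi ih =>
    rw [Finset.sum_insert hi, Submodule.add_eq_sup] at hx ⊢
    obtain ⟨y, hy, z, hz, rfl⟩ := Submodule.mem_sup.1 hx
    rw [(hP g).1]
    exact Submodule.add_mem_sup (hl i (Finset.mem_insert_self _ _) g y hy)
      (ih (fun j hj => hl j (Finset.mem_insert_of_mem hj)) z hz)

include h in
/-- the power of the standard polynomial -/
theorem stdP_pow (k : ℕ) (x : Fin (k * k + 1) → Matrix (Fin k) (Fin k) G) :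
    stdP x ^ (Fintype.card (Fin (k * k + 1) × Fin k × Fin k) + 1) = 0 := by
  choose a ha b hb hab using fun (t : Fin (k * k + 1)) i j => h.dec (x t i j)
  obtain ⟨J, hJ⟩ : ∃ J : Submodule ℤ G, J = ∑ c : Fin (k * k + 1) × Fin k × Fin k,
    lid (b c.1 c.2.1 c.2.2) := ⟨_, rfl⟩
  have hl : ∀ g, ∀ x ∈ J, g * x ∈ J := fun g x hx => by
    rw [hJ] at hx ⊢
    exact sum_sub_left _ _ (fun g x => g * x) (fun x => ⟨mul_add x, mul_zero x⟩)
      (fun i _ g x hx => lid_left _ g x hx) g x hx
  have hr : ∀ g, ∀ x ∈ J, x * g ∈ J := fun g x hx => by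
    rw [hJ] at hx ⊢
    exact sum_sub_left _ _ (fun g x => x * g) (fun x => ⟨fun y z => add_mul y z x, zero_mul x⟩)
      (fun i _ g x hx => lid_right h (hb _ _ _) g x hx) g x hx
  have h1 : stdP x ∈ MJ k J := by
    have h2 := stdP_sub_mem (MJ k J) (fun g x hx => MJ_left hl g hx)
      (fun g x hx => MJ_right hr g hx) x (fun t => Matrix.of fun i j => a t i j)
      (fun t i j => by
        rw [Matrix.sub_apply, Matrix.of_apply, hab t i j, add_sub_cancel_left]
        have h3 : lid (b t i j) ≤ J := by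
          rw [hJ]
          exact le_sum_sub (fun c : Fin (k * k + 1) × Fin k × Fin k =>
            lid (b c.1 c.2.1 c.2.2)) Finset.univ (t, i, j) (Finset.mem_univ _)
        have h4 := mem_lid (1 : G) (b t i j)
        rw [one_mul] at h4
        exact h3 h4)
    have h5 : stdP (fun t => Matrix.of fun i j => a t i j) = 0 :=
      stdP_even h k (fun t => Matrix.of fun i j => a t i j) (fun t i j => ha t i j)
    rw [h5, sub_zero] at h2
    exact h2
  have h2 : ∀ n : ℕ, stdP x ^ (n + 1) ∈ MJ k (J ^ (n + 1)) := by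
    intro n
    induction n with
    | zero => rw [zero_add, pow_one, pow_one]; exact h1
    | succ n ih =>
      rw [pow_succ, pow_succ J]
      exact MJ_mul ih h1
  have h3 := h2 (Fintype.card (Fin (k * k + 1) × Fin k × Fin k))
  have h4 : J ^ (Fintype.card (Fin (k * k + 1) × Fin k × Fin k) + 1) = 0 := by
    rw [hJ]
    exact lid_pow h (fun c : Fin (k * k + 1) × Fin k × Fin k => b c.1 c.2.1 c.2.2)
      (fun c => hb _ _ _)
  rw [h4] at h3
  ext i j
  exact (Submodule.mem_bot ℤ).1 (h3 i j)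

end sc

theorem stdP_mem_QQ (k : ℕ) {X : Type} (x : Fin (k * k + 1) → FA X) :
    stdP x ^ (Fintype.card (Fin (k * k + 1) × Fin k × Fin k) + 1) ∈ QQ k X := by
  refine ⟨1, one_ne_zero, fun G _ h Y _ => ?_⟩
  rw [one_smul, map_pow, map_stdP, stdP_pow h]

end Pool.PI34.SS

end

/-! ### part S_Col -/
section

/-!
PI34, block S, file 9: coloured string systems give super string systems.
-/

set_option autoImplicit false

namespace Pool.PI34.SS

open Equiv Finset
open Pool.PI34.BA

/-- coloured string systems: `el` is the letter of the odd idempotent, `s` the (signed) flips of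
the strands, `f` the plain flips -/
structure ColStr (n : ℕ) (Φ U : Type) [Ring Φ] [Ring U] where
  ρ : Fin (n + 1) → Φ →+* U
  el : Φ
  s : Perm (Fin (n + 1)) → U
  f : Perm (Fin (n + 1)) →* U
  comm : ∀ i j, i ≠ j → ∀ a b, ρ i a * ρ j b = ρ j b * ρ i a
  idem : ∀ i, ρ i el * ρ i el = ρ i el
  conj : ∀ σ i a, s σ * ρ i a = ρ (σ i) a * s σ
  fs : ∀ i : Fin n, f (swap i.castSucc i.succ) = s (swap i.castSucc i.succ) *
    (1 - 2 * (ρ i.castSucc el * ρ i.succ el))

variable {n : ℕ} {Φ U : Type} [Ring Φ] [Ring U] (S : ColStr n Φ U)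

namespace ColStr

/-- the odd idempotent on strand `i` -/
def e (i : Fin (n + 1)) : U := S.ρ i S.el

theorem e_idem (i : Fin (n + 1)) : S.e i * S.e i = S.e i := S.idem i

/-- even letters -/
def ev : AddSubgroup Φ where
  carrier := {a | ∀ i, S.ρ i a * S.e i = S.e i * S.ρ i a}
  zero_mem' := fun i => by simp
  add_mem' := fun ha hb i => by rw [map_add, add_mul, mul_add, ha i, hb i]
  neg_mem' := fun ha i => by rw [map_neg, neg_mul, mul_neg, ha i]

/-- odd letters -/
def od : AddSubgroup Φ where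
  carrier := {a | ∀ i, S.ρ i a * S.e i = (1 - S.e i) * S.ρ i a}
  zero_mem' := fun i => by simp
  add_mem' := fun ha hb i => by rw [map_add, add_mul, mul_add, ha i, hb i]
  neg_mem' := fun ha i => by rw [map_neg, neg_mul, mul_neg, ha i]

theorem mem_ev {a : Φ} (ha : a ∈ S.ev) (i : Fin (n + 1)) : S.ρ i a * S.e i = S.e i * S.ρ i a :=
  ha i

theorem mem_od {a : Φ} (ha : a ∈ S.od) (i : Fin (n + 1)) :
    S.ρ i a * S.e i = (1 - S.e i) * S.ρ i a := ha i

theorem dec (a : Φ) : ∃ b ∈ S.ev, ∃ c ∈ S.od, a = b + c := by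
  refine ⟨S.el * a * S.el + (1 - S.el) * a * (1 - S.el), fun i => ?_,
    S.el * a * (1 - S.el) + (1 - S.el) * a * S.el, fun i => ?_, by noncomm_ring⟩
  · have h := S.idem i
    simp only [e, map_add, map_mul, map_sub, map_one]
    generalize S.ρ i S.el = x at h ⊢
    generalize S.ρ i a = y
    have h1 : (x * y * x + (1 - x) * y * (1 - x)) * x = x * y * x := by
      have : (x * y * x + (1 - x) * y * (1 - x)) * x
        = x * y * (x * x) + (1 - x) * y * (x - x * x) := by noncomm_ring
      rw [this, h, sub_self, mul_zero, add_zero]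
    have h2 : x * (x * y * x + (1 - x) * y * (1 - x)) = x * y * x := by
      have : x * (x * y * x + (1 - x) * y * (1 - x))
        = (x * x) * y * x + (x - x * x) * y * (1 - x) := by noncomm_ring
      rw [this, h, sub_self, zero_mul, zero_mul, add_zero]
    rw [h1, h2]
  · have h := S.idem i
    simp only [e, map_add, map_mul, map_sub, map_one]
    generalize S.ρ i S.el = x at h ⊢
    generalize S.ρ i a = y
    have h1 : (x * y * (1 - x) + (1 - x) * y * x) * x = (1 - x) * y * x := by
      have : (x * y * (1 - x) + (1 - x) * y * x) * x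
        = x * y * (x - x * x) + (1 - x) * y * (x * x) := by noncomm_ring
      rw [this, h, sub_self, mul_zero, zero_add]
    have h2 : (1 - x) * (x * y * (1 - x) + (1 - x) * y * x) = (1 - x) * y * x := by
      have : (1 - x) * (x * y * (1 - x) + (1 - x) * y * x)
        = (x - x * x) * y * (1 - x) + (1 - x - (x - x * x)) * y * x := by noncomm_ring
      rw [this, h, sub_self, zero_mul, zero_mul, zero_add, sub_zero]
    rw [h1, h2]

/-- `ζ_i = 1 - 2 E_i` -/
def zt (i : Fin (n + 1)) : U := 1 - 2 * S.e i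

theorem ρ_zt (i j : Fin (n + 1)) (hij : i ≠ j) (a : Φ) :
    S.ρ i a * S.zt j = S.zt j * S.ρ i a := by
  unfold zt e
  have h := S.comm i j hij a S.el
  rw [mul_sub, sub_mul, mul_one, one_mul, mul_assoc, ← h, two_mul, two_mul, mul_add]

theorem ev_zt {a : Φ} (ha : a ∈ S.ev) (i j : Fin (n + 1)) :
    S.ρ i a * S.zt j = S.zt j * S.ρ i a := by
  by_cases hij : i = j
  · subst hij
    unfold zt
    rw [mul_sub, sub_mul, mul_one, one_mul, mul_assoc, ← S.mem_ev ha i, two_mul, two_mul, mul_add]
  · exact S.ρ_zt i j hij a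

theorem od_zt {a : Φ} (ha : a ∈ S.od) (i : Fin (n + 1)) :
    S.ρ i a * S.zt i = -(S.zt i * S.ρ i a) := by
  unfold zt
  have h := S.mem_od ha i
  have h1 : S.ρ i a * (1 - 2 * S.e i) = S.ρ i a - (S.ρ i a * S.e i + S.ρ i a * S.e i) := by
    noncomm_ring
  rw [h1, h]
  noncomm_ring

theorem zt_sq (i : Fin (n + 1)) : S.zt i * S.zt i = 1 := by
  unfold zt
  have h := S.e_idem i
  have h1 : (1 - 2 * S.e i) * (1 - 2 * S.e i) = 1 - 4 * S.e i + 4 * (S.e i * S.e i) := by
    noncomm_ring
  rw [h1, h]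
  noncomm_ring

theorem zt_comm (i j : Fin (n + 1)) : S.zt i * S.zt j = S.zt j * S.zt i := by
  by_cases hij : i = j
  · rw [hij]
  · have h := S.ρ_zt i j hij (1 - 2 * S.el)
    have h1 : S.ρ i (1 - 2 * S.el) = S.zt i := by
      unfold zt e
      rw [map_sub, map_one, map_mul, map_ofNat]
    rwa [h1] at h

/-- `ζ_0 ... ζ_{i-1}` -/
def zl : ℕ → U
  | 0 => 1
  | m + 1 => zl m * (if h : m < n + 1 then S.zt ⟨m, h⟩ else 1)

theorem zl_succ (i : Fin n) : S.zl i.succ = S.zl i.castSucc * S.zt i.castSucc := by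
  have h : (i : ℕ) < n + 1 := by omega
  change S.zl i * (if h : (i : ℕ) < n + 1 then S.zt ⟨i, h⟩ else 1) = _
  rw [dif_pos h]
  rfl

theorem zl_comm_of (x : U) (m : ℕ) (h : ∀ i : Fin (n + 1), (i : ℕ) < m → x * S.zt i = S.zt i * x) :
    x * S.zl m = S.zl m * x := by
  induction m with
  | zero => simp [zl]
  | succ m ih =>
    have h1 := ih (fun i hi => h i (by omega))
    simp only [zl]
    split_ifs with hm
    · rw [← mul_assoc, h1, mul_assoc, h ⟨m, hm⟩ (by simp), mul_assoc]
    · rw [mul_one, h1]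

theorem ev_zl {a : Φ} (ha : a ∈ S.ev) (i : Fin (n + 1)) (m : ℕ) :
    S.ρ i a * S.zl m = S.zl m * S.ρ i a :=
  S.zl_comm_of _ m (fun j _ => S.ev_zt ha i j)

theorem ρ_zl (a : Φ) (i : Fin (n + 1)) (m : ℕ) (hm : m ≤ i) :
    S.ρ i a * S.zl m = S.zl m * S.ρ i a :=
  S.zl_comm_of _ m (fun j hj => S.ρ_zt i j (fun h => by subst h; omega) a)

theorem od_zl {a : Φ} (ha : a ∈ S.od) (i : Fin (n + 1)) (m : ℕ) (hm : (i : ℕ) < m) :
    S.ρ i a * S.zl m = -(S.zl m * S.ρ i a) := by
  induction m with
  | zero => omega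
  | succ m ih =>
    simp only [zl]
    rcases Nat.lt_or_ge (i : ℕ) m with h | h
    · rw [← mul_assoc, ih h]
      split_ifs with h2
      · rw [neg_mul, mul_assoc, S.ρ_zt i ⟨m, h2⟩ (fun e => by rw [e] at h; simp at h), mul_assoc]
      · rw [mul_one, mul_one]
    · have h3 : (i : ℕ) = m := by omega
      have h2 : m < n + 1 := by omega
      rw [dif_pos h2]
      have h4 : (⟨m, h2⟩ : Fin (n + 1)) = i := Fin.ext h3.symm
      rw [h4, ← mul_assoc, S.ρ_zl a i m h3.ge, mul_assoc, S.od_zt ha i, mul_neg, mul_assoc]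

/-- the twisted letters -/
def τ (i : Fin (n + 1)) (a : Φ) : U := S.zl i * S.ρ i a

theorem zl_zl (i j : ℕ) : S.zl i * S.zl j = S.zl j * S.zl i :=
  S.zl_comm_of _ j (fun l _ => ((S.zl_comm_of (S.zt l) i (fun l' _ => S.zt_comm l l')).symm))

theorem od_od_lt {a b : Φ} (ha : a ∈ S.od) (hb : b ∈ S.od) (i j : Fin (n + 1)) (hij : i < j) :
    S.τ i a * S.τ j b = -(S.τ j b * S.τ i a) := by
  unfold τ
  have h1 : S.ρ i a * S.zl j = -(S.zl j * S.ρ i a) := S.od_zl ha i j hij
  have h2 : S.ρ j b * S.zl i = S.zl i * S.ρ j b := S.ρ_zl b j i (le_of_lt hij)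
  have h3 := S.comm i j hij.ne a b
  calc S.zl i * S.ρ i a * (S.zl j * S.ρ j b)
      = S.zl i * (S.ρ i a * S.zl j) * S.ρ j b := by noncomm_ring
    _ = -((S.zl i * S.zl j) * (S.ρ i a * S.ρ j b)) := by rw [h1]; noncomm_ring
    _ = -((S.zl j * S.zl i) * (S.ρ j b * S.ρ i a)) := by rw [h3, S.zl_zl i j]
    _ = -(S.zl j * (S.zl i * S.ρ j b) * S.ρ i a) := by noncomm_ring
    _ = -(S.zl j * S.ρ j b * (S.zl i * S.ρ i a)) := by rw [← h2]; noncomm_ring

/-! ### conjugation by the flips -/

theorem s_zt (σ : Perm (Fin (n + 1))) (i : Fin (n + 1)) :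
    S.s σ * S.zt i = S.zt (σ i) * S.s σ := by
  have h1 : ∀ i, S.ρ i (1 - 2 * S.el) = S.zt i := fun i => by
    unfold zt e
    rw [map_sub, map_one, map_mul, map_ofNat]
  rw [← h1, ← h1, S.conj]

theorem s_zl (i : Fin n) (m : ℕ) (hm : m ≤ i) :
    S.s (swap i.castSucc i.succ) * S.zl m = S.zl m * S.s (swap i.castSucc i.succ) :=
  S.zl_comm_of _ m (fun j hj => by
    rw [S.s_zt, swap_apply_of_ne_of_ne]
    · intro h; rw [h] at hj; simp at hj; omega
    · intro h; rw [h] at hj; simp at hj; omega)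

/-- `1 - 2 E_i E_{i+1}` -/
def ee (i : Fin n) : U := 1 - 2 * (S.e i.castSucc * S.e i.succ)

theorem f_swap (i : Fin n) : S.f (swap i.castSucc i.succ) = S.s (swap i.castSucc i.succ) * S.ee i :=
  S.fs i

theorem ee_comm (x : U) (i : Fin n) (h1 : x * S.e i.castSucc = S.e i.castSucc * x)
    (h2 : x * S.e i.succ = S.e i.succ * x) : S.ee i * x = x * S.ee i := by
  unfold ee
  have : S.e i.castSucc * S.e i.succ * x = x * (S.e i.castSucc * S.e i.succ) := by
    rw [mul_assoc, ← h2, ← mul_assoc, ← h1, mul_assoc]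
  have h3 : (1 - 2 * (S.e i.castSucc * S.e i.succ)) * x
      = x - 2 * (S.e i.castSucc * S.e i.succ * x) := by noncomm_ring
  rw [h3, this]; noncomm_ring

theorem ρ_e (i j : Fin (n + 1)) (hij : i ≠ j) (a : Φ) : S.ρ i a * S.e j = S.e j * S.ρ i a :=
  S.comm i j hij a S.el

theorem e_comm (i j : Fin (n + 1)) : S.e i * S.e j = S.e j * S.e i := by
  by_cases h : i = j
  · rw [h]
  · exact S.comm i j h S.el S.el

theorem zt_e (i j : Fin (n + 1)) : S.zt i * S.e j = S.e j * S.zt i := by
  unfold zt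
  have h := S.e_comm i j
  have h1 : (1 - 2 * S.e i) * S.e j = S.e j - 2 * (S.e i * S.e j) := by noncomm_ring
  rw [h1, h]; noncomm_ring

theorem ee_zt (i : Fin n) (j : Fin (n + 1)) : S.ee i * S.zt j = S.zt j * S.ee i :=
  S.ee_comm _ i (S.zt_e j _) (S.zt_e j _)

theorem ee_zl (i : Fin n) (m : ℕ) : S.ee i * S.zl m = S.zl m * S.ee i :=
  S.zl_comm_of _ m (fun j _ => S.ee_zt i j)

theorem ee_od_left {a : Φ} (ha : a ∈ S.od) (i : Fin n) :
    S.ee i * S.ρ i.castSucc a = S.ρ i.castSucc a * (S.zt i.succ * S.ee i) := by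
  have h1 : S.e i.castSucc * S.ρ i.castSucc a
      = S.ρ i.castSucc a - S.ρ i.castSucc a * S.e i.castSucc := by
    rw [S.mem_od ha]; noncomm_ring
  have h2 : S.ρ i.castSucc a * S.e i.succ = S.e i.succ * S.ρ i.castSucc a :=
    S.ρ_e _ _ (Fin.castSucc_lt_succ).ne a
  have h3 := S.e_comm i.castSucc i.succ
  have h4 := S.e_idem i.succ
  unfold ee zt
  have h5 : (1 - 2 * (S.e i.castSucc * S.e i.succ)) * S.ρ i.castSucc a
      = S.ρ i.castSucc a - 2 * (S.e i.castSucc * (S.e i.succ * S.ρ i.castSucc a)) := by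
    noncomm_ring
  have h6 : S.e i.castSucc * (S.e i.succ * S.ρ i.castSucc a)
      = S.ρ i.castSucc a * (S.e i.succ - S.e i.castSucc * S.e i.succ) := by
    rw [← h2, ← mul_assoc, h1]; noncomm_ring
  have h7 : (1 - 2 * S.e i.succ) * (1 - 2 * (S.e i.castSucc * S.e i.succ))
      = 1 - 2 * S.e i.succ - 2 * (S.e i.castSucc * S.e i.succ)
        + 4 * (S.e i.castSucc * (S.e i.succ * S.e i.succ)) := by
    have : S.e i.succ * (S.e i.castSucc * S.e i.succ)
        = S.e i.castSucc * (S.e i.succ * S.e i.succ) := by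
      rw [← mul_assoc, ← h3, mul_assoc]
    have h8 : (1 - 2 * S.e i.succ) * (1 - 2 * (S.e i.castSucc * S.e i.succ))
      = 1 - 2 * S.e i.succ - 2 * (S.e i.castSucc * S.e i.succ)
        + 4 * (S.e i.succ * (S.e i.castSucc * S.e i.succ)) := by noncomm_ring
    rw [h8, this]
  rw [h5, h6, h7, h4]
  noncomm_ring

theorem ee_od_right {a : Φ} (ha : a ∈ S.od) (i : Fin n) :
    S.ee i * S.ρ i.succ a = S.ρ i.succ a * (S.zt i.castSucc * S.ee i) := by
  have h1 : S.e i.succ * S.ρ i.succ a = S.ρ i.succ a - S.ρ i.succ a * S.e i.succ := by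
    rw [S.mem_od ha]; noncomm_ring
  have h2 : S.ρ i.succ a * S.e i.castSucc = S.e i.castSucc * S.ρ i.succ a :=
    S.ρ_e _ _ (Fin.castSucc_lt_succ).ne' a
  have h3 := S.e_comm i.castSucc i.succ
  have h4 := S.e_idem i.castSucc
  unfold ee zt
  have h5 : (1 - 2 * (S.e i.castSucc * S.e i.succ)) * S.ρ i.succ a
      = S.ρ i.succ a - 2 * (S.e i.castSucc * (S.e i.succ * S.ρ i.succ a)) := by
    noncomm_ring
  have h6 : S.e i.castSucc * (S.e i.succ * S.ρ i.succ a)
      = S.ρ i.succ a * (S.e i.castSucc - S.e i.castSucc * S.e i.succ) := by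
    rw [h1, mul_sub, ← mul_assoc, ← h2]; noncomm_ring
  have h7 : (1 - 2 * S.e i.castSucc) * (1 - 2 * (S.e i.castSucc * S.e i.succ))
      = 1 - 2 * S.e i.castSucc - 2 * (S.e i.castSucc * S.e i.succ)
        + 4 * ((S.e i.castSucc * S.e i.castSucc) * S.e i.succ) := by noncomm_ring
  rw [h5, h6, h7, h4]
  noncomm_ring

/-- the commutation property of one permutation -/
def Good (σ : Perm (Fin (n + 1))) : Prop :=
  (∀ i, ∀ a ∈ S.ev, S.f σ * S.ρ i a = S.ρ (σ i) a * S.f σ) ∧
  (∀ i, ∀ a ∈ S.od, S.f σ * S.τ i a = S.τ (σ i) a * S.f σ)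

theorem good_one : S.Good 1 :=
  ⟨fun i a _ => by simp, fun i a _ => by simp⟩

theorem good_mul {σ σ' : Perm (Fin (n + 1))} (h : S.Good σ) (h' : S.Good σ') :
    S.Good (σ * σ') :=
  ⟨fun i a ha => by
    rw [map_mul, mul_assoc, h'.1 i a ha, ← mul_assoc, h.1 _ a ha, mul_assoc]; rfl,
   fun i a ha => by
    rw [map_mul, mul_assoc, h'.2 i a ha, ← mul_assoc, h.2 _ a ha, mul_assoc]; rfl⟩

theorem good_swap (i : Fin n) : S.Good (swap i.castSucc i.succ) := by
  refine ⟨fun j a ha => ?_, fun j a ha => ?_⟩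
  · rw [S.f_swap, mul_assoc, S.ee_comm (S.ρ j a) i ?_ ?_, ← mul_assoc, S.conj, mul_assoc]
    · by_cases h : j = i.castSucc
      · rw [h]; exact S.mem_ev ha _
      · exact S.ρ_e _ _ h a
    · by_cases h : j = i.succ
      · rw [h]; exact S.mem_ev ha _
      · exact S.ρ_e _ _ h a
  · have hlt : i.castSucc < i.succ := Fin.castSucc_lt_succ
    by_cases h1 : j = i.castSucc
    · subst h1
      rw [swap_apply_left]
      unfold τ
      rw [S.f_swap, S.zl_succ]
      calc S.s (swap i.castSucc i.succ) * S.ee i * (S.zl i.castSucc * S.ρ i.castSucc a)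
          = S.s (swap i.castSucc i.succ) * (S.ee i * S.zl i.castSucc) * S.ρ i.castSucc a := by
            noncomm_ring
        _ = (S.s (swap i.castSucc i.succ) * S.zl i.castSucc) * (S.ee i * S.ρ i.castSucc a) := by
            rw [S.ee_zl]; noncomm_ring
        _ = S.zl i.castSucc * (S.s (swap i.castSucc i.succ) * S.ρ i.castSucc a) *
              (S.zt i.succ * S.ee i) := by
            rw [S.s_zl i _ (by simp), S.ee_od_left ha]; noncomm_ring
        _ = S.zl i.castSucc * S.ρ i.succ a * (S.s (swap i.castSucc i.succ) * S.zt i.succ) *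
              S.ee i := by
            rw [S.conj, swap_apply_left]; noncomm_ring
        _ = S.zl i.castSucc * (S.ρ i.succ a * S.zt i.castSucc) *
              (S.s (swap i.castSucc i.succ) * S.ee i) := by
            rw [S.s_zt, swap_apply_right]; noncomm_ring
        _ = S.zl i.castSucc * S.zt i.castSucc * S.ρ i.succ a *
              (S.s (swap i.castSucc i.succ) * S.ee i) := by
            rw [S.ρ_zt _ _ hlt.ne' a]; noncomm_ring
    · by_cases h2 : j = i.succ
      · subst h2
        rw [swap_apply_right]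
        unfold τ
        rw [S.f_swap, S.zl_succ]
        calc S.s (swap i.castSucc i.succ) * S.ee i * (S.zl i.castSucc * S.zt i.castSucc *
              S.ρ i.succ a)
            = S.s (swap i.castSucc i.succ) * (S.ee i * S.zl i.castSucc) * S.zt i.castSucc *
              S.ρ i.succ a := by noncomm_ring
          _ = (S.s (swap i.castSucc i.succ) * S.zl i.castSucc) * (S.ee i * S.zt i.castSucc) *
              S.ρ i.succ a := by rw [S.ee_zl]; noncomm_ring
          _ = (S.zl i.castSucc * S.s (swap i.castSucc i.succ)) * S.zt i.castSucc *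
              (S.ee i * S.ρ i.succ a) := by
              rw [S.s_zl i _ (by simp), S.ee_zt]; noncomm_ring
          _ = S.zl i.castSucc * S.s (swap i.castSucc i.succ) *
              (S.zt i.castSucc * S.ρ i.succ a) * (S.zt i.castSucc * S.ee i) := by
              rw [S.ee_od_right ha]; noncomm_ring
          _ = S.zl i.castSucc * (S.s (swap i.castSucc i.succ) * S.ρ i.succ a) *
              (S.zt i.castSucc * S.zt i.castSucc) * S.ee i := by
              rw [← S.ρ_zt i.succ i.castSucc hlt.ne' a]; noncomm_ring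
          _ = S.zl i.castSucc * S.ρ i.castSucc a *
              (S.s (swap i.castSucc i.succ) * S.ee i) := by
              rw [S.conj, swap_apply_right, S.zt_sq]; noncomm_ring
      · have h3 : swap i.castSucc i.succ j = j := swap_apply_of_ne_of_ne h1 h2
        have h4 : S.ee i * S.ρ j a = S.ρ j a * S.ee i :=
          S.ee_comm _ i (S.ρ_e _ _ h1 a) (S.ρ_e _ _ h2 a)
        have h5 : S.s (swap i.castSucc i.succ) * S.zl j
            = S.zl j * S.s (swap i.castSucc i.succ) := by
          rcases Nat.lt_or_ge (i : ℕ) j with h | h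
          · -- `j > i + 1`
            have h6 : (i : ℕ) + 1 < j := by
              rcases Nat.lt_or_ge ((i : ℕ) + 1) j with h' | h'
              · exact h'
              · exact absurd (Fin.ext (by simp; omega)) h2
            clear h4 h3 h1 h2
            have key : ∀ m : ℕ, (i : ℕ) + 1 < m → m ≤ n + 1 →
                S.s (swap i.castSucc i.succ) * S.zl m = S.zl m * S.s (swap i.castSucc i.succ) := by
              intro m hm hmn
              induction m with
              | zero => omega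
              | succ m ih =>
                have hm2 : m < n + 1 := by omega
                rcases Nat.lt_or_ge ((i : ℕ) + 1) m with h' | h'
                · simp only [zl]
                  rw [dif_pos hm2, ← mul_assoc, ih h' (by omega), mul_assoc, S.s_zt,
                    swap_apply_of_ne_of_ne, mul_assoc]
                  · intro e; rw [Fin.ext_iff] at e; simp at e; omega
                  · intro e; rw [Fin.ext_iff] at e; simp at e; omega
                · have hm3 : m = (i : ℕ) + 1 := by omega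
                  subst hm3
                  simp only [zl]
                  rw [dif_pos hm2, dif_pos (by omega : (i : ℕ) < n + 1)]
                  have e1 : (⟨(i : ℕ), by omega⟩ : Fin (n + 1)) = i.castSucc := rfl
                  have e2 : (⟨(i : ℕ) + 1, hm2⟩ : Fin (n + 1)) = i.succ := rfl
                  rw [e1, e2]
                  calc S.s (swap i.castSucc i.succ) * (S.zl i * S.zt i.castSucc * S.zt i.succ)
                      = (S.s (swap i.castSucc i.succ) * S.zl i) * S.zt i.castSucc *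
                        S.zt i.succ := by noncomm_ring
                    _ = S.zl i * (S.s (swap i.castSucc i.succ) * S.zt i.castSucc) *
                        S.zt i.succ := by rw [S.s_zl i i le_rfl]; noncomm_ring
                    _ = S.zl i * S.zt i.succ * (S.s (swap i.castSucc i.succ) * S.zt i.succ) := by
                        rw [S.s_zt, swap_apply_left]; noncomm_ring
                    _ = S.zl i * (S.zt i.succ * S.zt i.castSucc) *
                        S.s (swap i.castSucc i.succ) := by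
                        rw [S.s_zt, swap_apply_right]; noncomm_ring
                    _ = S.zl i * S.zt i.castSucc * S.zt i.succ *
                        S.s (swap i.castSucc i.succ) := by
                        rw [S.zt_comm i.succ i.castSucc]; noncomm_ring
            exact key j h6 (by omega)
          · exact S.s_zl i j h
        rw [h3]
        unfold τ
        rw [S.f_swap]
        calc S.s (swap i.castSucc i.succ) * S.ee i * (S.zl j * S.ρ j a)
            = S.s (swap i.castSucc i.succ) * (S.ee i * S.zl j) * S.ρ j a := by noncomm_ring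
          _ = (S.s (swap i.castSucc i.succ) * S.zl j) * (S.ee i * S.ρ j a) := by
              rw [S.ee_zl]; noncomm_ring
          _ = S.zl j * (S.s (swap i.castSucc i.succ) * S.ρ j a) * S.ee i := by
              rw [h5, h4]; noncomm_ring
          _ = S.zl j * S.ρ j a * (S.s (swap i.castSucc i.succ) * S.ee i) := by
              rw [S.conj, h3]; noncomm_ring

theorem good (σ : Perm (Fin (n + 1))) : S.Good σ := by
  have h : σ ∈ Submonoid.closure (Set.range fun i : Fin n => swap i.castSucc i.succ) := by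
    rw [Equiv.Perm.mclosure_swap_castSucc_succ]; trivial
  induction h using Submonoid.closure_induction with
  | mem x hx => obtain ⟨i, rfl⟩ := hx; exact S.good_swap i
  | one => exact S.good_one
  | mul x y _ _ h1 h2 => exact S.good_mul h1 h2

/-- coloured string systems are super string systems -/
def toSup : SupStr (Fin (n + 1)) Φ U 0 where
  ρ := S.ρ
  τ := S.τ
  f := S.f
  ev := S.ev
  od := S.od
  dec := S.dec
  ev_ev i j hij a _ b _ := S.comm i j hij a b
  ev_od i j hij a ha b _ := by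
    unfold τ
    rw [← mul_assoc, S.ev_zl ha i j, mul_assoc, S.comm i j hij a b, mul_assoc]
  od_od i j hij a ha b hb := by
    rcases lt_or_gt_of_ne hij with h | h
    · exact S.od_od_lt ha hb i j h
    · rw [S.od_od_lt hb ha j i h, neg_neg]
  f_ev σ i a ha := (S.good σ).1 i a ha
  f_od σ i a ha := (S.good σ).2 i a ha
  τ_z a _ := by
    unfold τ
    change (1 : U) * _ = _
    rw [one_mul]

end ColStr

end Pool.PI34.SS

end

/-! ### part S_Pol -/
section

/-!
PI34, block S, file 11: multilinearization.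
-/

set_option autoImplicit false

namespace Pool.PI34.SS

open Equiv Finset
open Pool.PI34.C0

/-- block permutations -/
noncomputable def blk {p q : ℕ} (x : Perm (Fin p) × Perm (Fin q)) : Perm (Fin (p + q)) :=
  finSumFinEquiv.permCongr (Equiv.Perm.sumCongr x.1 x.2)

theorem blk_left {p q : ℕ} (x : Perm (Fin p) × Perm (Fin q)) (i : Fin p) :
    blk x (Fin.castAdd q i) = Fin.castAdd q (x.1 i) := by
  unfold blk
  rw [Equiv.permCongr_apply, finSumFinEquiv_symm_apply_castAdd, Equiv.Perm.sumCongr_apply,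
    Sum.map_inl, finSumFinEquiv_apply_left]

theorem blk_right {p q : ℕ} (x : Perm (Fin p) × Perm (Fin q)) (i : Fin q) :
    blk x (Fin.natAdd p i) = Fin.natAdd p (x.2 i) := by
  unfold blk
  rw [Equiv.permCongr_apply, finSumFinEquiv_symm_apply_natAdd, Equiv.Perm.sumCongr_apply,
    Sum.map_inr, finSumFinEquiv_apply_right]

theorem mono_blk {U : Type*} [Monoid U] {p q : ℕ} (x : Fin (p + q) → U)
    (s : Perm (Fin p) × Perm (Fin q)) :
    mono x (blk s) = mono (fun i => x (Fin.castAdd q i)) s.1 *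
      mono (fun i => x (Fin.natAdd p i)) s.2 := by
  unfold mono
  rw [List.ofFn_add, List.prod_append]
  congr 2
  · congr 1
    funext i
    have := blk_left s i
    exact congrArg x this
  · congr 1
    funext i
    have := blk_right s i
    exact congrArg x this

/-- the coefficients of the product -/
noncomputable def cf {p q : ℕ} (a : Perm (Fin p) → ℤ) (b : Perm (Fin q) → ℤ)
    (ρ : Perm (Fin (p + q))) : ℤ :=
  ∑ s : Perm (Fin p) × Perm (Fin q), if blk s = ρ then a s.1 * b s.2 else 0

theorem cf_sum {U : Type*} [Ring U] {p q : ℕ} (a : Perm (Fin p) → ℤ) (b : Perm (Fin q) → ℤ)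
    (x : Fin (p + q) → U) : ∑ ρ, cf a b ρ • mono x ρ =
      (∑ σ, a σ • mono (fun i => x (Fin.castAdd q i)) σ) *
        ∑ τ, b τ • mono (fun i => x (Fin.natAdd p i)) τ := by
  have h1 : ∀ ρ : Perm (Fin (p + q)), cf a b ρ • mono x ρ =
      ∑ s : Perm (Fin p) × Perm (Fin q), if blk s = ρ then (a s.1 * b s.2) • mono x ρ
        else 0 := by
    intro ρ
    unfold cf
    rw [Finset.sum_smul]
    refine Finset.sum_congr rfl fun s _ => ?_
    split_ifs
    · rfl
    · rw [zero_smul]
  rw [Finset.sum_congr rfl fun ρ _ => h1 ρ, Finset.sum_comm]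
  have h2 : ∀ s : Perm (Fin p) × Perm (Fin q),
      (∑ ρ, if blk s = ρ then (a s.1 * b s.2) • mono x ρ else 0) =
        (a s.1 • mono (fun i => x (Fin.castAdd q i)) s.1) *
          (b s.2 • mono (fun i => x (Fin.natAdd p i)) s.2) := by
    intro s
    rw [Finset.sum_ite_eq, if_pos (Finset.mem_univ _), mono_blk, smul_mul_smul_comm]
  rw [Finset.sum_congr rfl fun s _ => h2 s, ← Finset.univ_product_univ, Finset.sum_product,
    Finset.sum_mul_sum]

/-- the powers of the standard polynomial as symmetrized multilinear forms -/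
theorem pow_form (q K : ℕ) : ∃ (d : ℕ) (b : Perm (Fin d) → ℤ) (c : Fin d → Fin q),
    q * K ≤ d ∧
    ∀ (A : Type) [Ring A] (z : Fin q → A), ∑ τ, b τ • mono (z ∘ c) τ = stdP z ^ K := by
  induction K with
  | zero =>
    refine ⟨0, fun _ => 1, fun i => i.elim0, le_rfl, fun A _ z => ?_⟩
    rw [pow_zero]
    simp [mono]
  | succ K ih =>
    obtain ⟨d, b, c, hd, h⟩ := ih
    refine ⟨d + q, cf b (fun σ => ((Perm.sign σ : ℤˣ) : ℤ)), Fin.append c id, by
      rw [mul_add, mul_one]; omega, fun A _ z => ?_⟩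
    rw [cf_sum, pow_succ, ← h A z]
    congr 1
    · refine Finset.sum_congr rfl (fun σ _ => ?_)
      congr 2
      funext i
      simp
    · unfold stdP
      refine Finset.sum_congr rfl (fun σ _ => ?_)
      congr 2
      funext i
      simp

theorem incl_excl {d : ℕ} (v : Fin d → Fin d) :
    (∑ S : Finset (Fin d), (-1 : ℤ) ^ S.card * (if ∀ i, v i ∈ S then 1 else 0))
      = if Function.Surjective v then (-1) ^ d else 0 := by
  classical
  have h := Finset.prod_add (fun _ : Fin d => (-1 : ℤ))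
    (fun j => if ∃ i, v i = j then (0 : ℤ) else 1) Finset.univ
  rw [Finset.powerset_univ] at h
  have h1 : ∀ S : Finset (Fin d), (∏ _i ∈ S, (-1 : ℤ)) *
      ∏ i ∈ univ \ S, (if ∃ l, v l = i then (0 : ℤ) else 1)
      = (-1 : ℤ) ^ S.card * (if ∀ i, v i ∈ S then 1 else 0) := by
    intro S
    rw [Finset.prod_const]
    congr 1
    split_ifs with h2
    · refine Finset.prod_eq_one (fun i hi => ?_)
      rw [if_neg]
      rintro ⟨l, rfl⟩
      exact (Finset.mem_sdiff.1 hi).2 (h2 l)
    · push Not at h2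
      obtain ⟨l, hl⟩ := h2
      exact Finset.prod_eq_zero (Finset.mem_sdiff.2 ⟨Finset.mem_univ _, hl⟩) (if_pos ⟨l, rfl⟩)
  rw [Finset.sum_congr rfl (fun S _ => h1 S)] at h
  rw [← h]
  split_ifs with h2
  · have : ∀ j ∈ (univ : Finset (Fin d)), (-1 + if ∃ i, v i = j then (0 : ℤ) else 1) = -1 := by
      intro j _
      rw [if_pos (h2 j), add_zero]
    rw [Finset.prod_congr rfl this, Finset.prod_const, Finset.card_univ, Fintype.card_fin]
  · unfold Function.Surjective at h2
    push Not at h2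
    obtain ⟨j, hj⟩ := h2
    refine Finset.prod_eq_zero (Finset.mem_univ j) ?_
    rw [if_neg (by rintro ⟨i, hi⟩; exact hj i hi)]
    norm_num

/-- polarization -/
theorem polar {A : Type} [Ring A] {d q : ℕ} (b : Perm (Fin d) → ℤ) (c : Fin d → Fin q)
    (I : AddSubgroup A) (h : ∀ z : Fin q → A, ∑ τ, b τ • mono (z ∘ c) τ ∈ I)
    (x : Fin d → A) :
    ∑ v ∈ univ.filter (fun v : Perm (Fin d) => c ∘ v = c), ∑ τ, b τ • mono (x ∘ v) τ ∈ I := by
  classical
  -- the multilinear form
  let f : MultilinearMap ℤ (fun _ : Fin d => A) A :=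
    ∑ τ : Perm (Fin d), b τ • (MultilinearMap.mkPiAlgebraFin ℤ d A).domDomCongr τ
  have hf : ∀ y : Fin d → A, f y = ∑ τ, b τ • mono y τ := by
    intro y
    simp only [f, _root_.sum_apply]
    refine Finset.sum_congr rfl (fun τ _ => ?_)
    rw [_root_.smul_apply, MultilinearMap.domDomCongr_apply,
      MultilinearMap.mkPiAlgebraFin_apply]
    rfl
  have h1 : ∀ S : Finset (Fin d), f (fun i => ∑ j ∈ S.filter (fun j => c j = c i), x j) ∈ I := by
    intro S
    rw [hf]
    exact h (fun t => ∑ j ∈ S.filter (fun j => c j = t), x j)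
  have h2 : ∀ S : Finset (Fin d), f (fun i => ∑ j ∈ S.filter (fun j => c j = c i), x j)
      = ∑ v : Fin d → Fin d, if (∀ i, v i ∈ S) ∧ (∀ i, c (v i) = c i) then f (x ∘ v) else 0 := by
    intro S
    rw [MultilinearMap.map_sum_finset f (fun _ j => x j)
      (fun i => S.filter (fun j => c j = c i)), ← Finset.sum_filter]
    refine Finset.sum_congr ?_ (fun v _ => rfl)
    ext v
    simp only [Fintype.mem_piFinset, Finset.mem_filter, Finset.mem_univ, true_and]
    exact ⟨fun h => ⟨fun i => (h i).1, fun i => (h i).2⟩, fun h i => ⟨h.1 i, h.2 i⟩⟩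
  have h3 : ∑ S : Finset (Fin d), (-1 : ℤ) ^ S.card •
      f (fun i => ∑ j ∈ S.filter (fun j => c j = c i), x j) ∈ I :=
    sum_mem (fun S _ => zsmul_mem (h1 S) _)
  have h4 : ∑ S : Finset (Fin d), (-1 : ℤ) ^ S.card •
      f (fun i => ∑ j ∈ S.filter (fun j => c j = c i), x j)
      = (-1 : ℤ) ^ d • ∑ v ∈ univ.filter (fun v : Perm (Fin d) => c ∘ v = c), f (x ∘ v) := by
    have e1 : ∀ S : Finset (Fin d), (-1 : ℤ) ^ S.card •
        f (fun i => ∑ j ∈ S.filter (fun j => c j = c i), x j)
        = ∑ v : Fin d → Fin d, ((-1 : ℤ) ^ S.card * (if ∀ i, v i ∈ S then 1 else 0)) •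
          (if ∀ i, c (v i) = c i then f (x ∘ v) else 0) := by
      intro S
      rw [h2, Finset.smul_sum]
      refine Finset.sum_congr rfl (fun v _ => ?_)
      by_cases h5 : ∀ i, v i ∈ S <;> by_cases h6 : ∀ i, c (v i) = c i <;> simp [h5, h6]
    rw [Finset.sum_congr rfl (fun S _ => e1 S), Finset.sum_comm]
    have e2 : ∀ v : Fin d → Fin d, (∑ S : Finset (Fin d),
        ((-1 : ℤ) ^ S.card * (if ∀ i, v i ∈ S then 1 else 0)) •
          (if ∀ i, c (v i) = c i then f (x ∘ v) else 0))
        = (-1 : ℤ) ^ d • (if Function.Surjective v ∧ ∀ i, c (v i) = c i then f (x ∘ v) else 0) := by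
      intro v
      rw [← Finset.sum_smul, incl_excl]
      by_cases h5 : Function.Surjective v <;> simp [h5]
    rw [Finset.sum_congr rfl (fun v _ => e2 v), ← Finset.smul_sum]
    congr 1
    rw [← Finset.sum_filter]
    refine (Finset.sum_bij (fun (v : Perm (Fin d)) _ => (v : Fin d → Fin d)) ?_ ?_ ?_ ?_).symm
    · intro v hv
      rw [Finset.mem_filter] at hv ⊢
      exact ⟨Finset.mem_univ _, v.surjective, fun i => congrFun hv.2 i⟩
    · intro v _ w _ hvw
      exact Equiv.ext (congrFun hvw)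
    · intro v hv
      rw [Finset.mem_filter] at hv
      refine ⟨Equiv.ofBijective v ⟨Finite.injective_iff_surjective.2 hv.2.1, hv.2.1⟩, ?_, rfl⟩
      rw [Finset.mem_filter]
      exact ⟨Finset.mem_univ _, funext hv.2.2⟩
    · intro v _; rfl
  rw [h4] at h3
  have h5 : (-1 : ℤ) ^ d • ((-1 : ℤ) ^ d •
      ∑ v ∈ univ.filter (fun v : Perm (Fin d) => c ∘ v = c), f (x ∘ v)) ∈ I := zsmul_mem h3 _
  rw [smul_smul, ← pow_add, ← two_mul, pow_mul] at h5
  simp only [even_two, Even.neg_pow, one_pow, one_smul] at h5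
  refine (?_ : ∑ v ∈ univ.filter (fun v : Perm (Fin d) => c ∘ v = c), ∑ τ, b τ • mono (x ∘ v) τ = _) ▸ h5
  exact Finset.sum_congr rfl (fun v _ => (hf _).symm)

end Pool.PI34.SS

end

/-! ### part S_QQ -/
section

/-!
PI34, block S, file 12: the ideal `QQ` is a pure two-sided ideal which contains the values of a
multilinear polynomial.
-/

set_option autoImplicit false

namespace Pool.PI34.SS

open Equiv Finset
open Pool.PI34.C0

section ideal

variable (k : ℕ) (X : Type)

theorem QQ_zero : (0 : FA X) ∈ QQ k X := ⟨1, one_ne_zero, fun G _ _ Y _ => by simp⟩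

theorem QQ_add {g h : FA X} (hg : g ∈ QQ k X) (hh : h ∈ QQ k X) : g + h ∈ QQ k X := by
  obtain ⟨N, hN, h1⟩ := hg
  obtain ⟨M, hM, h2⟩ := hh
  refine ⟨N * M, mul_ne_zero hN hM, fun G _ hG Y hY => ?_⟩
  rw [map_add, smul_add, mul_comm, mul_smul, h1 G hG Y hY, smul_zero, zero_add, mul_comm,
    mul_smul, h2 G hG Y hY, smul_zero]

theorem QQ_left (f : FA X) {g : FA X} (hg : g ∈ QQ k X) : f * g ∈ QQ k X := by
  obtain ⟨N, hN, h1⟩ := hg
  refine ⟨N, hN, fun G _ hG Y hY => ?_⟩
  rw [map_mul, ← mul_smul_comm, h1 G hG Y hY, mul_zero]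

theorem QQ_right (f : FA X) {g : FA X} (hg : g ∈ QQ k X) : g * f ∈ QQ k X := by
  obtain ⟨N, hN, h1⟩ := hg
  refine ⟨N, hN, fun G _ hG Y hY => ?_⟩
  rw [map_mul, ← smul_mul_assoc, h1 G hG Y hY, zero_mul]

/-- `QQ` as a (two-sided) ideal -/
def QI : Ideal (FA X) where
  carrier := QQ k X
  zero_mem' := QQ_zero k X
  add_mem' := fun hg hh => QQ_add k X hg hh
  smul_mem' := fun f _ hg => QQ_left k X f hg

instance : (QI k X).IsTwoSided := ⟨fun {_} f hg => QQ_right k X f hg⟩

theorem mem_QI (g : FA X) : g ∈ QI k X ↔ g ∈ QQ k X := Iff.rfl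

theorem QQ_pure (m : ℕ) (g : FA X) (hm : m ≠ 0) (h : (m : FA X) * g ∈ QQ k X) :
    g ∈ QQ k X := by
  obtain ⟨N, hN, h1⟩ := h
  refine ⟨N * m, mul_ne_zero hN hm, fun G _ hG Y hY => ?_⟩
  have h2 := h1 G hG Y hY
  rw [map_mul, map_natCast, ← nsmul_eq_mul, smul_smul] at h2
  exact h2

/-- substitutions -/
theorem QQ_subst {X' : Type} (x : X → FA X') {g : FA X} (hg : g ∈ QQ k X) :
    FA.lift x g ∈ QQ k X' := by
  obtain ⟨N, hN, h1⟩ := hg
  refine ⟨N, hN, fun G _ hG Y _ => ?_⟩
  have h2 := FA.ext ((FA.lift Y).comp (FA.lift x)) (FA.lift (fun y => FA.lift Y (x y)))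
    (fun y => by rw [RingHom.comp_apply, FA.lift_of, FA.lift_of]) g
  rw [RingHom.comp_apply] at h2
  rw [h2]
  exact h1 G hG _ (fun y hy => (hy trivial).elim)

end ideal

/-! ### non-vanishing of the standard polynomial of the generators -/

theorem stdP_ne_zero (q : ℕ) : stdP (fun i : Fin q => (FA.of i : FA (Fin q))) ≠ 0 := by
  intro h
  let Y : Fin q → Matrix (Fin (q + 1)) (Fin (q + 1)) ℤ := fun i =>
    Matrix.single i.castSucc i.succ 1
  have h1 : stdP Y = 0 := by
    have h2 := congrArg (FA.lift Y) h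
    rw [map_stdP, map_zero] at h2
    simpa only [FA.lift_of] using h2
  have h3 : ∀ (n : ℕ) (hn : n ≤ q) (w : Fin n → Fin q) (j : Fin (q + 1)),
      ((List.ofFn fun i => Y (w i)).prod) 0 j ≠ 0 → (∀ i : Fin n, (w i : ℕ) = i) ∧ (j : ℕ) = n := by
    intro n
    induction n with
    | zero =>
      intro _ w j hj
      refine ⟨fun i => i.elim0, ?_⟩
      by_contra hne
      apply hj
      simp only [List.ofFn_zero, List.prod_nil]
      exact Matrix.one_apply_ne (fun e => hne (by rw [← e]; rfl))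
    | succ n ih =>
      intro hn w j hj
      rw [List.ofFn_succ', List.prod_concat, Matrix.mul_apply] at hj
      obtain ⟨l, _, hl⟩ := Finset.exists_ne_zero_of_sum_ne_zero hj
      have h4 : ((List.ofFn fun i : Fin n => Y (w i.castSucc)).prod) 0 l ≠ 0 :=
        left_ne_zero_of_mul hl
      have h5 : Y (w (Fin.last n)) l j ≠ 0 := right_ne_zero_of_mul hl
      obtain ⟨h6, h7⟩ := ih (by omega) _ l h4
      have h8 : (w (Fin.last n)).castSucc = l ∧ (w (Fin.last n)).succ = j := by
        by_contra hne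
        exact h5 (Matrix.single_apply_of_ne _ _ _ _ _ (by tauto))
      have h9 : (w (Fin.last n) : ℕ) = n := by
        have e := congrArg Fin.val h8.1
        rw [Fin.val_castSucc] at e
        omega
      refine ⟨fun i => ?_, by rw [← h8.2]; simp [h9]⟩
      rcases Fin.eq_castSucc_or_eq_last i with ⟨i, rfl⟩ | rfl
      · rw [h6 i]; rfl
      · rw [h9]; rfl
  have h4 : (stdP Y) 0 (Fin.last q) = 1 := by
    unfold stdP
    rw [Matrix.sum_apply, Finset.sum_eq_single (1 : Perm (Fin q))]
    · rw [Perm.sign_one]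
      simp only [Units.val_one, one_smul]
      unfold mono
      have h5 : ∀ (n : ℕ) (hn : n ≤ q), ((List.ofFn fun i : Fin n =>
          Y (Fin.castLE hn i)).prod) 0 (Fin.castLE (by omega : n + 1 ≤ q + 1) (Fin.last n)) = 1 := by
        intro n
        induction n with
        | zero => intro hn; simp
        | succ n ih =>
          intro hn
          rw [List.ofFn_succ', List.prod_concat, Matrix.mul_apply,
            Finset.sum_eq_single (Fin.castLE (by omega : n + 1 ≤ q + 1) (Fin.last n))]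
          · have := ih (by omega)
            have e : (fun i : Fin n => Y (Fin.castLE hn i.castSucc))
              = fun i : Fin n => Y (Fin.castLE (by omega : n ≤ q) i) := rfl
            rw [e, this, one_mul]
            have e2 : (Fin.castLE hn (Fin.last n)).castSucc
              = Fin.castLE (by omega : n + 1 ≤ q + 1) (Fin.last n) := rfl
            have e3 : (Fin.castLE hn (Fin.last n)).succ
              = Fin.castLE (by omega : n + 1 + 1 ≤ q + 1) (Fin.last (n + 1)) := rfl
            change Matrix.single (Fin.castLE hn (Fin.last n)).castSucc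
              (Fin.castLE hn (Fin.last n)).succ (1 : ℤ) _ _ = 1
            rw [e2, e3, Matrix.single_apply_same]
          · intro l _ hl
            have : Y (Fin.castLE hn (Fin.last n)) l
                (Fin.castLE (by omega : n + 1 + 1 ≤ q + 1) (Fin.last (n + 1))) = 0 := by
              refine Matrix.single_apply_of_ne _ _ _ _ _ (fun hh => hl ?_)
              rw [← hh.1]; rfl
            rw [this, mul_zero]
          · intro h; exact absurd (Finset.mem_univ _) h
      exact h5 q le_rfl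
    · intro σ _ hσ
      rw [Matrix.smul_apply]
      by_contra hne
      have h5 : (mono Y σ) 0 (Fin.last q) ≠ 0 := fun e => hne (by rw [e, smul_zero])
      have h6 := (h3 q le_rfl (fun i => σ i) (Fin.last q) h5).1
      exact hσ (Equiv.ext fun i => Fin.ext (h6 i))
    · intro h; exact absurd (Finset.mem_univ _) h
  rw [h1] at h4
  exact zero_ne_one h4

instance (X : Type) : IsDomain (FA X) := inferInstanceAs (IsDomain (FreeAlgebra ℤ X))

instance (X : Type) : CharZero (FA X) := inferInstanceAs (CharZero (FreeAlgebra ℤ X))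

/-- a non-zero symmetrized multilinear form in `QQ` -/
theorem exists_form (k : ℕ) : ∃ (d : ℕ) (a : Perm (Fin d) → ℤ), d ≠ 0 ∧ a ≠ 0 ∧
    ∀ (X : Type) (x : Fin d → FA X), ∑ ρ, a ρ • mono x ρ ∈ QQ k X := by
  obtain ⟨d, b, c, hd, h⟩ := pow_form (k * k + 1)
    (Fintype.card (Fin (k * k + 1) × Fin k × Fin k) + 1)
  let a : Perm (Fin d) → ℤ := fun ρ =>
    ∑ v ∈ univ.filter (fun v : Perm (Fin d) => c ∘ v = c), b (v⁻¹ * ρ)
  have ha : ∀ (A : Type) [Ring A] (x : Fin d → A), ∑ ρ, a ρ • mono x ρ
      = ∑ v ∈ univ.filter (fun v : Perm (Fin d) => c ∘ v = c), ∑ τ, b τ • mono (x ∘ v) τ := by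
    intro A _ x
    simp only [a, Finset.sum_smul]
    rw [Finset.sum_comm]
    refine Finset.sum_congr rfl (fun v _ => ?_)
    refine Fintype.sum_equiv (Equiv.mulLeft v⁻¹) _ _ (fun ρ => ?_)
    simp only [Equiv.coe_mulLeft]
    congr 1
    unfold mono
    congr 2
    funext i
    simp
  refine ⟨d, a, fun e => by subst e; simp at hd, fun h0 => ?_, fun X x => ?_⟩
  · have h1 := ha (FA (Fin (k * k + 1))) ((fun i => FA.of i) ∘ c)
    have h2 : ∀ v ∈ univ.filter (fun v : Perm (Fin d) => c ∘ v = c),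
        ∑ τ, b τ • mono (((fun i : Fin (k * k + 1) => (FA.of i : FA (Fin (k * k + 1)))) ∘ c) ∘ v) τ
        = stdP (fun i : Fin (k * k + 1) => (FA.of i : FA (Fin (k * k + 1)))) ^
          (Fintype.card (Fin (k * k + 1) × Fin k × Fin k) + 1) := by
      intro v hv
      rw [Function.comp_assoc, (Finset.mem_filter.1 hv).2]
      exact h _ _
    rw [Finset.sum_congr rfl h2, Finset.sum_const, h0] at h1
    simp only [Pi.zero_apply, zero_smul, Finset.sum_const_zero] at h1
    rcases smul_eq_zero.1 h1.symm with h3 | h3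
    · rw [Finset.card_eq_zero, Finset.filter_eq_empty_iff] at h3
      exact h3 (Finset.mem_univ (1 : Perm (Fin d))) (by ext i; simp)
    · exact stdP_ne_zero _ (pow_eq_zero_iff (by omega) |>.1 h3)
  · rw [ha]
    let I : AddSubgroup (FA X) := (QI k X).toAddSubgroup
    refine polar b c I (fun z => ?_) x
    rw [h]
    exact stdP_mem_QQ k z

/-- `QQ` contains the values of a multilinear polynomial with a coefficient `1`. -/
theorem QQ_MPI (k : ℕ) : ∃ (d : ℕ) (a : Perm (Fin (d + 1)) → ℤ), a 1 = 1 ∧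
    ∀ (X : Type) (x : Fin (d + 1) → FA X), ∑ σ, a σ • mono x σ ∈ QQ k X := by
  obtain ⟨d, a, hd, ha, h⟩ := exists_form k
  -- the ideal generated by the coefficients
  obtain ⟨g, hg⟩ : ∃ g : ℤ, Ideal.span (Set.range a) = Ideal.span {g} :=
    ⟨_, (Ideal.span_singleton_generator _).symm⟩
  have hg0 : g ≠ 0 := by
    rintro rfl
    apply ha
    funext ρ
    have : a ρ ∈ Ideal.span (Set.range a) := Ideal.subset_span ⟨ρ, rfl⟩
    rw [hg, Ideal.mem_span_singleton] at this
    exact zero_dvd_iff.1 this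
  have h1 : ∀ ρ, ∃ c : ℤ, a ρ = g * c := fun ρ => by
    have : a ρ ∈ Ideal.span (Set.range a) := Ideal.subset_span ⟨ρ, rfl⟩
    rw [hg, Ideal.mem_span_singleton] at this
    exact this
  choose a' ha' using h1
  obtain ⟨b, hb⟩ : ∃ b : Perm (Fin d) → ℤ, ∑ τ, b τ * a' τ = 1 := by
    have h2 : g ∈ Ideal.span (Set.range a) := by rw [hg]; exact Ideal.mem_span_singleton_self g
    obtain ⟨b, hb⟩ := Ideal.mem_span_range_iff_exists_fun.1 h2
    refine ⟨b, ?_⟩
    have h3 : g * (∑ τ, b τ * a' τ) = g * 1 := by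
      rw [Finset.mul_sum, mul_one]
      calc ∑ τ, g * (b τ * a' τ) = ∑ τ, b τ * a τ :=
            Finset.sum_congr rfl (fun τ _ => by rw [ha' τ]; ring)
        _ = g := hb
    exact mul_left_cancel₀ hg0 h3
  have h4 : ∀ (X : Type) (x : Fin d → FA X), ∑ ρ, a' ρ • mono x ρ ∈ QQ k X := by
    intro X x
    have h5 := h X x
    have h6 : ∑ ρ, a ρ • mono x ρ = g • ∑ ρ, a' ρ • mono x ρ := by
      rw [Finset.smul_sum]
      exact Finset.sum_congr rfl (fun ρ _ => by rw [ha' ρ, mul_smul])
    rw [h6] at h5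
    obtain ⟨N, hN, h7⟩ := h5
    refine ⟨N * g.natAbs, mul_ne_zero hN (Int.natAbs_ne_zero.2 hg0), fun G _ hG Y hY => ?_⟩
    have h8 := h7 G hG Y hY
    rw [map_zsmul] at h8
    rcases Int.natAbs_eq g with h9 | h9
    · rw [h9, natCast_zsmul, smul_smul] at h8
      exact h8
    · rw [h9, neg_smul, natCast_zsmul, smul_neg, neg_eq_zero, smul_smul] at h8
      exact h8
  -- the symmetrized combination
  obtain ⟨d', rfl⟩ := Nat.exists_eq_succ_of_ne_zero hd
  refine ⟨d', fun σ => ∑ τ, b τ * a' (τ * σ), by simpa using hb, fun X x => ?_⟩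
  have h6 : ∑ σ, (∑ τ, b τ * a' (τ * σ)) • mono x σ
      = ∑ τ, b τ • ∑ ρ, a' ρ • mono (fun i => x (τ⁻¹ i)) ρ := by
    simp only [Finset.sum_smul, Finset.smul_sum]
    rw [Finset.sum_comm]
    refine Finset.sum_congr rfl (fun τ _ => ?_)
    refine Fintype.sum_equiv (Equiv.mulLeft τ) _ _ (fun σ => ?_)
    simp only [Equiv.coe_mulLeft]
    rw [mul_smul]
    congr 2
    unfold mono
    congr 2
    funext i
    simp
  rw [h6]
  change _ ∈ QI k X
  exact Ideal.sum_mem _ (fun τ _ => zsmul_mem (show _ ∈ QI k X from h4 X _) _)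

end Pool.PI34.SS

end
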