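import Pool.Agent.LibPI54.M40

/-! ### part S_Sys -/
section

/-!
PI34, block S, file 4: rings with exterior coefficients; the Grassmann string system.
-/

set_option autoImplicit false

namespace Pool.PI34.SS

open Equiv Finset TensorProduct
open Pool.PI34.BA

/-- the exterior algebra on `b` generators -/
abbrev Lam (b : ℕ) := ExteriorAlgebra ℤ (Fin b → ℤ)

/-- the generators -/
noncomputable def ge {b : ℕ} (s : Fin b) : Lam b := ExteriorAlgebra.ι ℤ (Pi.single s 1)

theorem ge_swap {b : ℕ} (s t : Fin b) : ge s * ge t = -(ge t * ge s) :=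
  eq_neg_of_add_eq_zero_left (ExteriorAlgebra.ι_add_mul_swap (R := ℤ) _ _)

/-- `A ⊗ Λ_b`, as a plain ring -/
def GT (A : Type*) [Ring A] (b : ℕ) : Type _ := A ⊗[ℤ] Lam b

namespace GT

variable {A B : Type*} [Ring A] [Ring B] {b : ℕ}

noncomputable instance : Ring (GT A b) := inferInstanceAs (Ring (A ⊗[ℤ] Lam b))

/-- pure tensors -/
noncomputable def mk (a : A) (ω : Lam b) : GT A b := a ⊗ₜ[ℤ] ω

theorem mk_mul (a c : A) (ω η : Lam b) : mk a ω * mk c η = mk (a * c) (ω * η) :=
  Algebra.TensorProduct.tmul_mul_tmul a c ω η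

theorem mk_one : (mk 1 1 : GT A b) = 1 := rfl

theorem mk_add (a c : A) (ω : Lam b) : mk (a + c) ω = mk a ω + mk c ω :=
  TensorProduct.add_tmul a c ω

theorem mk_zero (ω : Lam b) : mk (0 : A) ω = 0 := TensorProduct.zero_tmul _ _

theorem mk_neg (a : A) (ω : Lam b) : mk (-a) ω = - mk a ω := TensorProduct.neg_tmul _ _

theorem mk_neg_right (a : A) (ω : Lam b) : mk a (-ω) = - mk a ω := TensorProduct.tmul_neg _ _

theorem induction {p : GT A b → Prop} (h0 : p 0) (h1 : ∀ a ω, p (mk a ω))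
    (h2 : ∀ x y, p x → p y → p (x + y)) (x : GT A b) : p x :=
  TensorProduct.induction_on (motive := p) x h0 h1 h2

/-- additive in the left argument -/
noncomputable def mkHom (A : Type*) [Ring A] {b : ℕ} (ω : Lam b) : A →+ GT A b where
  toFun a := mk a ω
  map_zero' := mk_zero ω
  map_add' a c := mk_add a c ω

/-- the inclusion -/
noncomputable def inc (A : Type*) [Ring A] (b : ℕ) : A →+* GT A b where
  toFun a := mk a 1
  map_one' := rfl
  map_mul' a c := by rw [mk_mul, one_mul]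
  map_zero' := mk_zero 1
  map_add' a c := mk_add a c 1

/-- coefficient functional -/
noncomputable def coef (A : Type*) [Ring A] (φ : Lam b →ₗ[ℤ] ℤ) : GT A b →+ A :=
  ((TensorProduct.rid ℤ A).toLinearMap.toAddMonoidHom).comp
    ((LinearMap.lTensor A φ).toAddMonoidHom)

@[simp] theorem coef_mk (φ : Lam b →ₗ[ℤ] ℤ) (a : A) (ω : Lam b) :
    coef A φ (mk a ω) = φ ω • a := by
  change (TensorProduct.rid ℤ A) (LinearMap.lTensor A φ (a ⊗ₜ[ℤ] ω)) = _
  rw [LinearMap.lTensor_tmul, TensorProduct.rid_tmul]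

/-- change of the left factor -/
noncomputable def tmap (ψ : A →+* B) (b : ℕ) : GT A b →+* GT B b :=
  ((Algebra.TensorProduct.map ψ.toIntAlgHom (AlgHom.id ℤ (Lam b)) :
    A ⊗[ℤ] Lam b →ₐ[ℤ] B ⊗[ℤ] Lam b) : A ⊗[ℤ] Lam b →+* B ⊗[ℤ] Lam b)

theorem tmap_mk (ψ : A →+* B) (a : A) (ω : Lam b) : tmap ψ b (mk a ω) = mk (ψ a) ω :=
  Algebra.TensorProduct.map_tmul _ _ _ _

theorem coef_map (ψ : A →+* B) (φ : Lam b →ₗ[ℤ] ℤ) (x : GT A b) :
    coef B φ (tmap ψ b x) = ψ (coef A φ x) := by
  induction x using GT.induction with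
  | h0 => simp
  | h1 a ω => rw [tmap_mk, coef_mk, coef_mk, map_zsmul]
  | h2 x y hx hy => rw [map_add, map_add, hx, hy, map_add, map_add]

theorem coef_mul_one (φ : Lam b →ₗ[ℤ] ℤ) (x : GT A b) (a : A) :
    coef A φ (x * mk a 1) = coef A φ x * a := by
  induction x using GT.induction with
  | h0 => simp
  | h1 c ω => rw [mk_mul, coef_mk, coef_mk, mul_one, smul_mul_assoc]
  | h2 x y hx hy => rw [add_mul, map_add, hx, hy, map_add, add_mul]

/-- supercommutativity -/
noncomputable def sc (C : Type*) [CommRing C] (b : ℕ) : SuperComm (GT C b) :=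
  (extSC (Fin b → ℤ)).tensor C

theorem mk_ge_od {C : Type*} [CommRing C] (a : C) (s : Fin b) : mk a (ge s) ∈ (sc C b).od :=
  tmul_mem_tsub _ (ι_mem_od _)

end GT

variable {ι Φ U : Type} [Fintype ι] [DecidableEq ι] [Ring Φ] [Ring U] {z : ι}
variable (S : SupStr ι Φ U z)

/-- the operators of the big letters: even letters `none`, odd letters `some s` -/
noncomputable def SupStr.gx {b : ℕ} {Z : Type} (u : Z → Φ) (o : Z → Option (Fin b)) (i : ι)
    (w : Z) : GT U b :=
  match o w with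
  | none => GT.mk (S.ρ i (u w)) 1
  | some s => GT.mk (S.τ i (u w)) (ge s)

/-- parity condition -/
def Par (S : SupStr ι Φ U z) {b : ℕ} {Z : Type} (u : Z → Φ) (o : Z → Option (Fin b)) : Prop :=
  ∀ w, (o w = none → u w ∈ S.ev) ∧ (∀ s, o w = some s → u w ∈ S.od)

theorem SupStr.gx_comm {b : ℕ} {Z : Type} (u : Z → Φ) (o : Z → Option (Fin b))
    (h : Par S u o) (i j : ι) (hij : i ≠ j) (v w : Z) :
    S.gx u o i v * S.gx u o j w = S.gx u o j w * S.gx u o i v := by
  unfold SupStr.gx
  rcases hv : o v with _ | s <;> rcases hw : o w with _ | t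
  · simp only
    rw [GT.mk_mul, GT.mk_mul, S.ev_ev i j hij _ ((h v).1 hv) _ ((h w).1 hw)]
  · simp only
    rw [GT.mk_mul, GT.mk_mul, S.ev_od i j hij _ ((h v).1 hv) _ ((h w).2 t hw), one_mul, mul_one]
  · simp only
    rw [GT.mk_mul, GT.mk_mul, S.ev_od j i hij.symm _ ((h w).1 hw) _ ((h v).2 s hv), one_mul,
      mul_one]
  · simp only
    rw [GT.mk_mul, GT.mk_mul, S.od_od i j hij _ ((h v).2 s hv) _ ((h w).2 t hw), ge_swap s t,
      GT.mk_neg_right, GT.mk_neg, neg_neg]

theorem SupStr.gx_conj {b : ℕ} {Z : Type} (u : Z → Φ) (o : Z → Option (Fin b))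
    (h : Par S u o) (σ : Perm ι) (i : ι) (w : Z) :
    GT.mk (S.f σ) (1 : Lam b) * S.gx u o i w = S.gx u o (σ i) w * GT.mk (S.f σ) 1 := by
  unfold SupStr.gx
  rcases hw : o w with _ | t
  · simp only
    rw [GT.mk_mul, GT.mk_mul, S.f_ev σ i _ ((h w).1 hw)]
  · simp only
    rw [GT.mk_mul, GT.mk_mul, S.f_od σ i _ ((h w).2 t hw), one_mul, mul_one]

/-- the flips -/
noncomputable def SupStr.gs (b : ℕ) : Perm ι →* GT U b :=
  (GT.inc U b).toMonoidHom.comp S.f

theorem SupStr.gs_apply (b : ℕ) (σ : Perm ι) : S.gs b σ = GT.mk (S.f σ) (1 : Lam b) := rfl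

/-- the Grassmann string system -/
noncomputable def SupStr.gsys {b : ℕ} {Z : Type} (u : Z → Φ) (o : Z → Option (Fin b))
    (h : Par S u o) : Str ι (FreeAlgebra ℤ Z) (GT U b) :=
  Str.ofLetters (S.gx u o) (S.gs b) (fun i j hij v w => S.gx_comm u o h i j hij v w)
    (fun σ i w => by rw [S.gs_apply]; exact S.gx_conj u o h σ i w)

theorem anti_gs (b : ℕ) (T : Finset ι) :
    anti (S.gs b) T = GT.mk (anti S.f T) (1 : Lam b) := by
  unfold anti
  change _ = GT.inc U b _
  rw [map_sum]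
  refine Finset.sum_congr rfl (fun σ _ => ?_)
  rw [map_zsmul]
  rfl

/-- BLOCK BA for super string systems. -/
theorem SupStr.ba {b : ℕ} {Z : Type} (u : Z → Φ) (o : Z → Option (Fin b)) (h : Par S u o)
    (k : ℕ) (hA : Anti S.f k) (p q : Fin k ↪ ι) (hF : Frame p q z) (g : FA Z)
    (hg : ∀ (C : Type) [CommRing C] (m : Z → Matrix (Fin k) (Fin k) C), FA.lift m g = 0) :
    FA.lift (S.gx u o z) g *
      GT.mk (anti S.f (univ.map p) * anti S.f (univ.map q)) (1 : Lam b) = 0 := by
  have hA' : Anti (S.gsys u o h).s k := by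
    intro T hT
    change anti (S.gs b) T = 0
    rw [anti_gs, hA T hT, GT.mk_zero]
  have h1 := BA (S.gsys u o h) k hA' p q z hF g
    (fun C _ m => (FA.lift_eq m g).trans (hg C m))
  have h2 : anti (S.gsys u o h).s (univ.map p) * anti (S.gsys u o h).s (univ.map q)
      = GT.mk (anti S.f (univ.map p) * anti S.f (univ.map q)) (1 : Lam b) := by
    change anti (S.gs b) _ * anti (S.gs b) _ = _
    rw [anti_gs, anti_gs, GT.mk_mul, one_mul]
  rw [h2] at h1
  have h3 : (S.gsys u o h).ρ z g = FA.lift (S.gx u o z) g := FA.lift_eq (S.gx u o z) g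
  rw [h3] at h1
  exact h1

end Pool.PI34.SS

end

/-! ### part S_Gr -/
section

/-!
PI34, block S, file 5: a coefficient of the Grassmann substitution is an identity of matrices over
commutative rings; the double Grassmann substitution.
-/

set_option autoImplicit false

namespace Pool.PI34.SS

open Equiv Finset TensorProduct
open Pool.PI34.BA

section mat

variable {b k : ℕ} {C : Type} [CommRing C]

theorem scal_comm (M : Matrix (Fin k) (Fin k) C) (ω : Lam b) :
    (Algebra.TensorProduct.includeLeft : C →ₐ[ℤ] C ⊗[ℤ] Lam b).mapMatrix M *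
      (Matrix.scalar (Fin k) ((1 : C) ⊗ₜ[ℤ] ω)) =
    (Matrix.scalar (Fin k) ((1 : C) ⊗ₜ[ℤ] ω)) *
      (Algebra.TensorProduct.includeLeft : C →ₐ[ℤ] C ⊗[ℤ] Lam b).mapMatrix M := by
  ext i j
  simp [Matrix.scalar_apply, Matrix.mul_diagonal, Matrix.diagonal_mul,
    Algebra.TensorProduct.tmul_mul_tmul]

/-- scalar matrices -/
noncomputable def gsc : Lam b →ₐ[ℤ] Matrix (Fin k) (Fin k) (C ⊗[ℤ] Lam b) :=
  ((Matrix.scalar (Fin k) : (C ⊗[ℤ] Lam b) →+* Matrix (Fin k) (Fin k) (C ⊗[ℤ] Lam b)).comp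
      ((Algebra.TensorProduct.includeRight : Lam b →ₐ[ℤ] C ⊗[ℤ] Lam b) :
        Lam b →+* C ⊗[ℤ] Lam b)).toIntAlgHom

theorem gsc_apply (ω : Lam b) :
    (gsc ω : Matrix (Fin k) (Fin k) (C ⊗[ℤ] Lam b)) = Matrix.scalar (Fin k) ((1 : C) ⊗ₜ[ℤ] ω) :=
  rfl

/-- matrices over `C` tensored with the exterior algebra -/
noncomputable def toMat0 : Matrix (Fin k) (Fin k) C ⊗[ℤ] Lam b →ₐ[ℤ]
    Matrix (Fin k) (Fin k) (C ⊗[ℤ] Lam b) :=
  Algebra.TensorProduct.lift
    ((Algebra.TensorProduct.includeLeft : C →ₐ[ℤ] C ⊗[ℤ] Lam b).mapMatrix)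
    gsc (fun M ω => by rw [gsc_apply]; exact scal_comm M ω)

theorem toMat0_tmul (M : Matrix (Fin k) (Fin k) C) (ω : Lam b) (i j : Fin k) :
    toMat0 (M ⊗ₜ[ℤ] ω) i j = M i j ⊗ₜ[ℤ] ω := by
  unfold toMat0
  rw [Algebra.TensorProduct.lift_tmul, gsc_apply]
  simp [Matrix.scalar_apply, Matrix.mul_diagonal, Algebra.TensorProduct.tmul_mul_tmul]

theorem toMat0_exists : ∃ F : GT (Matrix (Fin k) (Fin k) C) b →+*
    Matrix (Fin k) (Fin k) (GT C b), ∀ M ω i j, F (GT.mk M ω) i j = GT.mk (M i j) ω :=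
  ⟨((toMat0 : Matrix (Fin k) (Fin k) C ⊗[ℤ] Lam b →ₐ[ℤ]
    Matrix (Fin k) (Fin k) (C ⊗[ℤ] Lam b)) : Matrix (Fin k) (Fin k) C ⊗[ℤ] Lam b →+*
    Matrix (Fin k) (Fin k) (C ⊗[ℤ] Lam b)), fun M ω i j => toMat0_tmul M ω i j⟩

/-- matrices over `C` with exterior coefficients -/
noncomputable def toMat : GT (Matrix (Fin k) (Fin k) C) b →+* Matrix (Fin k) (Fin k) (GT C b) :=
  toMat0_exists.choose

theorem toMat_mk (M : Matrix (Fin k) (Fin k) C) (ω : Lam b) (i j : Fin k) :
    toMat (GT.mk M ω) i j = GT.mk (M i j) ω := toMat0_exists.choose_spec M ω i j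

theorem coef_toMat (φ : Lam b →ₗ[ℤ] ℤ) (x : GT (Matrix (Fin k) (Fin k) C) b)
    (i j : Fin k) : GT.coef C φ (toMat x i j) = GT.coef _ φ x i j := by
  induction x using GT.induction with
  | h0 => simp
  | h1 M ω => rw [toMat_mk, GT.coef_mk, GT.coef_mk]; rfl
  | h2 x y hx hy => rw [map_add, Matrix.add_apply, map_add, hx, hy, map_add, Matrix.add_apply]

end mat

section main

variable {b : ℕ} {Y : Type} (E : Y → Prop) (c : Fin b → Y)

open Classical in
/-- the Grassmann substitution, general values -/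
noncomputable def gsub {A : Type*} [Ring A] (m : Y ⊕ Fin b → A) (y : Y) : GT A b :=
  (if E y then GT.mk (m (Sum.inl y)) (1 : Lam b) else 0)
    + ∑ s, if c s = y then GT.mk (m (Sum.inr s)) (ge s) else 0

theorem tmap_gsub {A B : Type*} [Ring A] [Ring B] (ψ : A →+* B) (m : Y ⊕ Fin b → A) (y : Y) :
    GT.tmap ψ b (gsub E c m y) = gsub E c (fun w => ψ (m w)) y := by
  unfold gsub
  rw [map_add, map_sum]
  congr 1
  · split_ifs
    · exact GT.tmap_mk _ _ _
    · exact map_zero _
  · refine Finset.sum_congr rfl (fun s _ => ?_)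
    split_ifs
    · exact GT.tmap_mk _ _ _
    · exact map_zero _

theorem tmap_lift {A B : Type*} [Ring A] [Ring B] (ψ : A →+* B) (m : Y ⊕ Fin b → A)
    (P : FA Y) :
    GT.tmap ψ b (FA.lift (gsub E c m) P) = FA.lift (gsub E c (fun w => ψ (m w))) P :=
  FA.ext ((GT.tmap ψ b).comp (FA.lift (gsub E c m))) (FA.lift (gsub E c (fun w => ψ (m w))))
    (fun y => by
      rw [RingHom.comp_apply, FA.lift_of, FA.lift_of]
      exact tmap_gsub E c ψ m y) P

/-- the coefficient of the Grassmann substitution -/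
noncomputable def hst (φ : Lam b →ₗ[ℤ] ℤ) (P : FA Y) : FA (Y ⊕ Fin b) :=
  GT.coef _ φ (FA.lift (gsub E c (fun w => FA.of w)) P)

theorem lift_hst {A : Type*} [Ring A] (φ : Lam b →ₗ[ℤ] ℤ) (P : FA Y) (m : Y ⊕ Fin b → A) :
    FA.lift m (hst E c φ P) = GT.coef _ φ (FA.lift (gsub E c m) P) := by
  unfold hst
  rw [← GT.coef_map, tmap_lift]
  simp only [FA.lift_of]

theorem hst_mat0 (k : ℕ) (P : FA Y) (hP : GI k E P) (φ : Lam b →ₗ[ℤ] ℤ)
    (C : Type) [CommRing C] [IsDomain C] [CharZero C]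
    (m : Y ⊕ Fin b → Matrix (Fin k) (Fin k) C) :
    FA.lift m (hst E c φ P) = 0 := by
  obtain ⟨N, hN, h⟩ := hP
  have h1 := h (GT C b) (GT.sc C b)
    (fun y => toMat (gsub E c m y)) (fun y hy i j => by
      unfold gsub
      rw [if_neg hy, zero_add, map_sum]
      rw [Matrix.sum_apply]
      refine sum_mem (fun s _ => ?_)
      split_ifs
      · rw [toMat_mk]
        exact GT.mk_ge_od _ _
      · rw [map_zero]; exact zero_mem _)
  have h0 : FA.lift (fun y => toMat (gsub E c m y)) P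
      = toMat (FA.lift (gsub E c m) P) :=
    FA.ext (FA.lift (fun y => toMat (gsub E c m y))) (toMat.comp (FA.lift (gsub E c m)))
      (fun y => by rw [RingHom.comp_apply, FA.lift_of, FA.lift_of]) P
  rw [h0] at h1
  rw [lift_hst]
  ext i j
  have h2 := congrArg (fun M : Matrix (Fin k) (Fin k) (GT C b) => GT.coef C φ (M i j)) h1
  simp only [Matrix.smul_apply, map_nsmul, coef_toMat, Matrix.zero_apply, map_zero] at h2
  rcases smul_eq_zero.1 h2 with h3 | h3
  · exact absurd h3 hN
  · exact h3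

theorem hst_mat (k : ℕ) (P : FA Y) (hP : GI k E P) (φ : Lam b →ₗ[ℤ] ℤ)
    (C : Type) [CommRing C] (m : Y ⊕ Fin b → Matrix (Fin k) (Fin k) C) :
    FA.lift m (hst E c φ P) = 0 := by
  let m0 : Y ⊕ Fin b → Matrix (Fin k) (Fin k)
      (MvPolynomial ((Y ⊕ Fin b) × Fin k × Fin k) ℤ) :=
    fun w => Matrix.of fun i j => MvPolynomial.X (w, i, j)
  let ev : MvPolynomial ((Y ⊕ Fin b) × Fin k × Fin k) ℤ →+* C :=
    ((MvPolynomial.aeval (fun x => m x.1 x.2.1 x.2.2) :
      MvPolynomial ((Y ⊕ Fin b) × Fin k × Fin k) ℤ →ₐ[ℤ] C) : _ →+* C)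
  have h1 := hst_mat0 E c k P hP φ _ m0
  have h2 := FA.ext (FA.lift m) ((ev.mapMatrix (m := Fin k)).comp (FA.lift m0))
    (fun y => by
      rw [RingHom.comp_apply, FA.lift_of, FA.lift_of]
      ext i j
      simp [m0, ev]) (hst E c φ P)
  rw [h2, RingHom.comp_apply, h1, map_zero]

end main

/-! ### the double Grassmann substitution -/

section string

variable {ι Φ U : Type} [Fintype ι] [DecidableEq ι] [Ring Φ] [Ring U] {z : ι}
variable (S : SupStr ι Φ U z) {b : ℕ} {Y : Type} (E : Y → Prop) (c : Fin b → Y)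

/-- labels of the big letters -/
def lab (Y : Type) (b : ℕ) : Y ⊕ Fin b → Option (Fin b) := Sum.elim (fun _ => none) some

/-- R0: the double coefficients of the double Grassmann substitution kill `om`. -/
theorem R0 (k : ℕ) (hA : Anti S.f k) (p q : Fin k ↪ ι) (hF : Frame p q z)
    (u v : Y → Φ) (hu : ∀ y, u y ∈ S.ev) (hv : ∀ y, v y ∈ S.od)
    (P : FA Y) (hP : GI k E P) (φ φ' : Lam b →ₗ[ℤ] ℤ) :
    GT.coef U φ' (GT.coef (GT U b) φ (FA.lift (gsub E c
      (S.gx (Sum.elim u (fun s => v (c s))) (lab Y b) z)) P)) *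
      (anti S.f (univ.map p) * anti S.f (univ.map q)) = 0 := by
  have hpar : Par S (Sum.elim u (fun s => v (c s))) (lab Y b) := by
    rintro (y | s)
    · exact ⟨fun _ => hu y, fun s hs => by simp [lab] at hs⟩
    · exact ⟨fun h => by simp [lab] at h, fun t _ => hv (c s)⟩
  have h4 := S.ba (Sum.elim u (fun s => v (c s))) (lab Y b) hpar k hA p q hF (hst E c φ P)
    (fun C _ m => hst_mat E c k P hP φ C m)
  rw [lift_hst] at h4
  rw [← GT.coef_mul_one, h4, map_zero]

end string

end Pool.PI34.SS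

end

/-! ### part S_Comb -/
section

/-!
PI34, block S, file 6: computation of the coefficients of the double Grassmann substitution.
-/

set_option autoImplicit false

namespace Pool.PI34.SS

open Equiv Finset

/-! ### the functionals -/

section phi

variable {b : ℕ}

/-- the functional `coefficient of the product of the list` (up to sign) -/
noncomputable def phL : List (Fin b) → (Lam b →ₗ[ℤ] ℤ)
  | [] => (ExteriorAlgebra.algebraMapInv (R := ℤ) (M := Fin b → ℤ)).toLinearMap
  | s :: L => (phL L).comp (CliffordAlgebra.contractLeft (Q := (0 : QuadraticForm ℤ (Fin b → ℤ)))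
      (LinearMap.proj s))

theorem contract_ge (s t : Fin b) (ω : Lam b) :
    CliffordAlgebra.contractLeft (Q := (0 : QuadraticForm ℤ (Fin b → ℤ))) (LinearMap.proj s)
      (ge t * ω) = (if s = t then 1 else 0 : ℤ) • ω - ge t *
      CliffordAlgebra.contractLeft (Q := (0 : QuadraticForm ℤ (Fin b → ℤ))) (LinearMap.proj s)
        ω := by
  have h := CliffordAlgebra.contractLeft_ι_mul (Q := (0 : QuadraticForm ℤ (Fin b → ℤ)))
    (d := LinearMap.proj s) (Pi.single t 1) ω
  have h2 : (LinearMap.proj s : (Fin b → ℤ) →ₗ[ℤ] ℤ) (Pi.single t 1)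
      = (if s = t then 1 else 0 : ℤ) := by
    rw [LinearMap.proj_apply, Pi.single_apply]
  rw [h2] at h
  exact h

theorem phL_one (L : List (Fin b)) : phL L 1 = if L = [] then 1 else 0 := by
  cases L with
  | nil => simp [phL]
  | cons s L =>
    rw [if_neg (by simp)]
    simp only [phL, LinearMap.comp_apply]
    rw [CliffordAlgebra.contractLeft_one, map_zero]

theorem phL_mul (t : Fin b) (L : List (Fin b)) (hL : L.Nodup) :
    ∃ ε : ℤ, ε * ε = 1 ∧ ∀ ω : Lam b, phL L (ge t * ω)
      = if t ∈ L then ε * phL (L.erase t) ω else 0 := by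
  induction L with
  | nil =>
    refine ⟨1, by norm_num, fun ω => ?_⟩
    simp only [phL, List.not_mem_nil, if_false, AlgHom.toLinearMap_apply]
    have : (ExteriorAlgebra.algebraMapInv (R := ℤ) (M := Fin b → ℤ)) (ge t) = 0 := by
      unfold ge ExteriorAlgebra.algebraMapInv
      rw [ExteriorAlgebra.lift_ι_apply]; rfl
    rw [map_mul, this, zero_mul]
  | cons s L ih =>
    obtain ⟨ε, hε, h⟩ := ih (List.nodup_cons.1 hL).2
    by_cases hst : s = t
    · subst hst
      refine ⟨1, by norm_num, fun ω => ?_⟩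
      rw [if_pos List.mem_cons_self, List.erase_cons_head, one_mul]
      simp only [phL, LinearMap.comp_apply]
      rw [contract_ge, if_pos rfl, one_smul, map_sub, h, if_neg (List.nodup_cons.1 hL).1, sub_zero]
    · refine ⟨-ε, by rw [neg_mul_neg]; exact hε, fun ω => ?_⟩
      simp only [phL, LinearMap.comp_apply]
      rw [contract_ge, if_neg hst, zero_smul, zero_sub, map_neg, h]
      by_cases ht : t ∈ L
      · rw [if_pos ht, if_pos (List.mem_cons_of_mem _ ht),
          List.erase_cons_tail (by simpa using hst)]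
        simp only [phL, LinearMap.comp_apply]
        ring
      · have : t ∉ s :: L := by
          simp only [List.mem_cons, not_or]
          exact ⟨fun e => hst e.symm, ht⟩
        rw [if_neg ht, if_neg this, neg_zero]

variable {U : Type*} [Ring U]

/-- the double coefficient -/
noncomputable def CL (U : Type*) [Ring U] (L : List (Fin b)) : GT (GT U b) b →+ U :=
  (GT.coef U (phL L)).comp (GT.coef (GT U b) (phL L))

theorem CL_mk (L : List (Fin b)) (a : U) (ω η : Lam b) :
    CL U L (GT.mk (GT.mk a ω) η) = (phL L η * phL L ω) • a := by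
  unfold CL
  rw [AddMonoidHom.comp_apply, GT.coef_mk, map_zsmul, GT.coef_mk, smul_smul]

theorem GT2_induction {p : GT (GT U b) b → Prop} (h0 : p 0)
    (h1 : ∀ a ω η, p (GT.mk (GT.mk a ω) η)) (h2 : ∀ x y, p x → p y → p (x + y))
    (x : GT (GT U b) b) : p x := by
  induction x using GT.induction with
  | h0 => exact h0
  | h1 a η =>
    induction a using GT.induction with
    | h0 => rw [GT.mk_zero]; exact h0
    | h1 a ω => exact h1 a ω η
    | h2 x y hx hy => rw [GT.mk_add]; exact h2 _ _ hx hy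
  | h2 x y hx hy => exact h2 _ _ hx hy

theorem CL_ev (L : List (Fin b)) (a : U) (x : GT (GT U b) b) :
    CL U L (GT.mk (GT.mk a 1) 1 * x) = a * CL U L x := by
  induction x using GT2_induction with
  | h0 => simp
  | h1 c ω η => rw [GT.mk_mul, GT.mk_mul, CL_mk, CL_mk, one_mul, one_mul, mul_smul_comm]
  | h2 x y hx hy => rw [mul_add, map_add, hx, hy, map_add, mul_add]

theorem CL_od (L : List (Fin b)) (hL : L.Nodup) (t : Fin b) (a : U) (x : GT (GT U b) b) :
    CL U L (GT.mk (GT.mk a (ge t)) (ge t) * x)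
      = if t ∈ L then a * CL U (L.erase t) x else 0 := by
  obtain ⟨ε, hε, h⟩ := phL_mul t L hL
  induction x using GT2_induction with
  | h0 => simp
  | h1 c ω η =>
    rw [GT.mk_mul, GT.mk_mul, CL_mk, h, h]
    split_ifs
    · rw [CL_mk, mul_smul_comm]
      congr 1
      calc ε * phL (L.erase t) η * (ε * phL (L.erase t) ω)
          = (ε * ε) * (phL (L.erase t) η * phL (L.erase t) ω) := by ring
        _ = _ := by rw [hε, one_mul]
    · rw [mul_zero, zero_smul]
  | h2 x y hx hy =>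
    rw [mul_add, map_add, hx, hy, map_add]
    split_ifs
    · rw [mul_add]
    · rw [add_zero]

theorem CL_one (L : List (Fin b)) : CL U L 1 = if L = [] then 1 else 0 := by
  have : (1 : GT (GT U b) b) = GT.mk (GT.mk 1 1) 1 := rfl
  rw [this, CL_mk, phL_one]
  split_ifs <;> simp

end phi

/-! ### factorials of multisets -/

section fac

variable {Y : Type} [DecidableEq Y]

/-- the product of the factorials of the multiplicities -/
def fac (M : Multiset Y) : ℕ := ∏ y ∈ M.toFinset, (M.count y).factorial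

theorem fac_eq (M : Multiset Y) (T : Finset Y) (h : M.toFinset ⊆ T) :
    fac M = ∏ y ∈ T, (M.count y).factorial := by
  unfold fac
  refine Finset.prod_subset h (fun y _ hy => ?_)
  rw [Multiset.mem_toFinset] at hy
  rw [Multiset.count_eq_zero_of_notMem hy, Nat.factorial_zero]

theorem fac_erase (M : Multiset Y) (y : Y) (hy : y ∈ M) :
    fac M = M.count y * fac (M.erase y) := by
  have h1 : (M.erase y).toFinset ⊆ M.toFinset :=
    fun x hx => by
      rw [Multiset.mem_toFinset] at *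
      exact Multiset.mem_of_mem_erase hx
  rw [fac_eq (M.erase y) M.toFinset h1, fac]
  have h2 : y ∈ M.toFinset := Multiset.mem_toFinset.2 hy
  rw [← Finset.mul_prod_erase _ _ h2, ← Finset.mul_prod_erase _ _ h2, ← mul_assoc]
  congr 1
  · rw [Multiset.count_erase_self]
    have : 0 < M.count y := Multiset.count_pos.2 hy
    obtain ⟨n, hn⟩ := Nat.exists_eq_succ_of_ne_zero this.ne'
    rw [hn, Nat.succ_sub_one, Nat.factorial_succ]
  · refine Finset.prod_congr rfl (fun x hx => ?_)
    rw [Multiset.count_erase_of_ne (Finset.ne_of_mem_erase hx)]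

end fac

end Pool.PI34.SS

end
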