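import Pool.Agent.LibPI54.M03
import Pool.Agent.LibPI54.M32
import Pool.Agent.LibPI54.M33
import Pool.Agent.LibPI54.M41
import Pool.Agent.LibPI54.M42
import Pool.Agent.LibPI54.M43

/-! ### part S_Gam -/
section

/-!
PI34, block S, file 7: multidegrees, R1.
-/

set_option autoImplicit false

namespace Pool.PI34.SS

open Equiv Finset
open Pool.PI34.BA

section gam

variable {U : Type*} [Ring U] {Y : Type}

/-- `y ↦ α y + T_y β y`, graded by multisets -/
noncomputable def Gam (α β : Y → U) : FA Y →+* AddMonoidAlgebra U (Multiset Y) :=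
  FA.lift (fun y => AddMonoidAlgebra.single 0 (α y) + AddMonoidAlgebra.single {y} (β y))

/-- the double Grassmann substitution -/
noncomputable def dsub {b : ℕ} [DecidableEq Y] (c : Fin b → Y) (α β : Y → U) (y : Y) :
    GT (GT U b) b :=
  GT.mk (GT.mk (α y) 1) 1 + ∑ s, if c s = y then GT.mk (GT.mk (β y) (ge s)) (ge s) else 0

variable [DecidableEq Y]

theorem coeff_single_mul_multiset (y : Y) (r : U) (x : AddMonoidAlgebra U (Multiset Y))
    (M : Multiset Y) : (AddMonoidAlgebra.single {y} r * x).coeff M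
      = if y ∈ M then r * x.coeff (M.erase y) else 0 := by
  split_ifs with h
  · refine AddMonoidAlgebra.coeff_single_mul_eq_mul_coeff (M.erase y) (fun m' _ => ?_)
    constructor
    · rintro rfl
      rw [Multiset.singleton_add, Multiset.erase_cons_head]
    · rintro rfl
      rw [Multiset.singleton_add, Multiset.cons_erase h]
  · refine AddMonoidAlgebra.coeff_single_mul_of_forall_add_ne _ _ (fun d hd => h ?_)
    rw [← hd]; simp

omit [DecidableEq Y] in
theorem coeff_single_zero_mul (r : U) (x : AddMonoidAlgebra U (Multiset Y))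
    (M : Multiset Y) : (AddMonoidAlgebra.single 0 r * x).coeff M = r * x.coeff M :=
  AddMonoidAlgebra.coeff_single_mul_eq_mul_coeff M (fun m' _ => by rw [zero_add])

theorem erase_map {b : ℕ} (c : Fin b → Y) (L : List (Fin b)) (s : Fin b) (hs : s ∈ L) :
    (((L.erase s).map c : List Y) : Multiset Y) = ((L.map c : List Y) : Multiset Y).erase (c s) := by
  have h1 : (L : Multiset (Fin b)) = s ::ₘ ((L.erase s : List (Fin b)) : Multiset (Fin b)) := by
    rw [Multiset.cons_coe, Multiset.coe_eq_coe]
    exact List.perm_cons_erase hs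
  have h2 : ((L.map c : List Y) : Multiset Y) = (c s) ::ₘ (((L.erase s).map c : List Y) : Multiset Y) := by
    rw [← Multiset.map_coe, h1, Multiset.map_cons, Multiset.map_coe]
  rw [h2, Multiset.erase_cons_head]

theorem count_map {b : ℕ} (c : Fin b → Y) (L : List (Fin b)) (hL : L.Nodup) (y : Y) :
    ((L.map c : List Y) : Multiset Y).count y
      = (univ.filter (fun s => c s = y ∧ s ∈ L)).card := by
  rw [Multiset.coe_count, List.count_eq_countP, List.countP_map, List.countP_eq_length_filter]
  have h1 : (univ.filter (fun s => c s = y ∧ s ∈ L)) = (L.filter (fun s => decide (c s = y))).toFinset := by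
    ext s
    simp [and_comm]
  rw [h1, List.toFinset_card_of_nodup (hL.filter _)]
  congr 1

theorem comb {b : ℕ} (c : Fin b → Y) (α β : Y → U) (P : FA Y) :
    ∀ P' : FA Y, (∀ L : List (Fin b), L.Nodup → CL U L (FA.lift (dsub c α β) P')
      = fac ((L.map c : List Y) : Multiset Y) • (Gam α β P').coeff ((L.map c : List Y))) →
    (∀ L : List (Fin b), L.Nodup → CL U L (FA.lift (dsub c α β) (P * P'))
      = fac ((L.map c : List Y) : Multiset Y) • (Gam α β (P * P')).coeff ((L.map c : List Y))) := by
  induction P using FA.induction with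
  | h0 r =>
    intro P' h L hL
    rw [← zsmul_eq_mul, map_zsmul (FA.lift (dsub c α β)), map_zsmul (Gam α β),
      map_zsmul (CL U L), h L hL, AddMonoidAlgebra.coeff_smul_apply, smul_comm]
  | h1 y =>
    intro P' h L hL
    have e1 : FA.lift (dsub c α β) (FA.of y * P')
        = (GT.mk (GT.mk (α y) 1) 1 + ∑ s, if c s = y then GT.mk (GT.mk (β y) (ge s)) (ge s)
          else 0) * FA.lift (dsub c α β) P' := by
      rw [RingHom.map_mul, FA.lift_of]; rfl
    have e2 : Gam α β (FA.of y * P')
        = (AddMonoidAlgebra.single 0 (α y) + AddMonoidAlgebra.single {y} (β y)) * Gam α β P' := by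
      unfold Gam
      rw [RingHom.map_mul, FA.lift_of]
    rw [e1, e2, add_mul, add_mul, AddMonoidAlgebra.coeff_add, Finsupp.add_apply,
      coeff_single_zero_mul, coeff_single_mul_multiset, map_add, CL_ev, Finset.sum_mul, map_sum]
    have h3 : ∀ s : Fin b, CL U L ((if c s = y then GT.mk (GT.mk (β y) (ge s)) (ge s) else 0) *
        FA.lift (dsub c α β) P')
        = if c s = y ∧ s ∈ L then β y * (fac ((((L.map c : List Y) : Multiset Y)).erase y) •
          (Gam α β P').coeff ((((L.map c : List Y) : Multiset Y)).erase y)) else 0 := by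
      intro s
      by_cases h1 : c s = y
      · rw [if_pos h1, CL_od L hL]
        by_cases h2 : s ∈ L
        · rw [if_pos h2, if_pos ⟨h1, h2⟩, h _ (hL.erase s), erase_map c L s h2, h1]
        · rw [if_neg h2, if_neg (fun e => h2 e.2)]
      · rw [if_neg h1, if_neg (fun e => h1 e.1), zero_mul, map_zero]
    rw [Finset.sum_congr rfl (fun s _ => h3 s), ← Finset.sum_filter, Finset.sum_const,
      ← count_map c L hL y, h L hL, smul_add]
    congr 1
    · rw [mul_smul_comm]
    · split_ifs with hy
      · rw [fac_erase _ _ hy, mul_smul, mul_smul_comm]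
      · rw [Multiset.count_eq_zero_of_notMem hy, zero_smul, smul_zero]
  | hm u v hu hv =>
    intro P' h L hL
    rw [mul_assoc]
    exact hu _ (hv _ h) L hL
  | ha u v hu hv =>
    intro P' h L hL
    rw [add_mul, map_add (FA.lift (dsub c α β)), map_add (CL U L), hu _ h L hL, hv _ h L hL,
      map_add (Gam α β), AddMonoidAlgebra.coeff_add, Finsupp.add_apply, smul_add]

theorem comb' {b : ℕ} (c : Fin b → Y) (α β : Y → U) (P : FA Y) (L : List (Fin b))
    (hL : L.Nodup) : CL U L (FA.lift (dsub c α β) P)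
      = fac ((L.map c : List Y) : Multiset Y) • (Gam α β P).coeff ((L.map c : List Y)) := by
  have h := comb c α β P 1 (fun L _ => by
    rw [map_one (FA.lift (dsub c α β)), map_one (Gam α β), CL_one]
    by_cases h : L = []
    · subst h
      simp [fac]
    · rw [if_neg h]
      have : (1 : AddMonoidAlgebra U (Multiset Y)).coeff ((L.map c : List Y) : Multiset Y) = 0 := by
        rw [AddMonoidAlgebra.one_def, AddMonoidAlgebra.coeff_single, Finsupp.single_apply, if_neg]
        intro h2
        rw [eq_comm, Multiset.coe_eq_zero, List.map_eq_nil_iff] at h2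
        exact h h2
      rw [this, smul_zero]) L hL
  rwa [mul_one] at h

end gam

section R1

variable {ι Φ U : Type} [Fintype ι] [DecidableEq ι] [Ring Φ] [Ring U] {z : ι}
variable (S : SupStr ι Φ U z) {Y : Type} [DecidableEq Y]

/-- R1: the components of a graded identity, up to factorials, kill `om`. -/
theorem R1 (k : ℕ) (hA : Anti S.f k) (p q : Fin k ↪ ι) (hF : Frame p q z) (E : Y → Prop)
    (u v : Y → Φ) (hu : ∀ y, u y ∈ S.ev) (hv : ∀ y, v y ∈ S.od) (hE : ∀ y, ¬ E y → u y = 0)
    (P : FA Y) (hP : GI k E P) (M : Multiset Y) :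
    (fac M • (Gam (fun y => S.ρ z (u y)) (fun y => S.ρ z (v y)) P).coeff M) *
      (anti S.f (univ.map p) * anti S.f (univ.map q)) = 0 := by
  classical
  obtain ⟨l, rfl⟩ := Quot.exists_rep M
  let c : Fin l.length → Y := fun s => l.get s
  have h1 := R0 S E c k hA p q hF u v hu hv P hP (phL (List.finRange l.length))
    (phL (List.finRange l.length))
  have h2 : FA.lift (gsub E c (S.gx (Sum.elim u (fun s => v (c s))) (lab Y l.length) z)) P
      = FA.lift (dsub c (fun y => S.ρ z (u y)) (fun y => S.ρ z (v y))) P := by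
    have : gsub E c (S.gx (Sum.elim u (fun s => v (c s))) (lab Y l.length) z)
        = dsub c (fun y => S.ρ z (u y)) (fun y => S.ρ z (v y)) := by
      funext y
      unfold gsub dsub
      congr 1
      · split_ifs with hy
        · rfl
        · simp only [hE y hy, map_zero, GT.mk_zero]
      · refine Finset.sum_congr rfl (fun s _ => ?_)
        split_ifs with hs
        · change GT.mk (GT.mk (S.τ z (v (c s))) (ge s)) (ge s) = _
          rw [S.τ_z _ (hv _), hs]
        · rfl
    rw [this]
  rw [h2] at h1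
  have h3 := comb' c (fun y => S.ρ z (u y)) (fun y => S.ρ z (v y)) P
    (List.finRange l.length) (List.nodup_finRange _)
  have h4 : (List.finRange l.length).map c = l := by
    simp [c]
  rw [h4] at h3
  have h5 : CL U (List.finRange l.length) (FA.lift (dsub c (fun y => S.ρ z (u y))
      (fun y => S.ρ z (v y))) P) * (anti S.f (univ.map p) * anti S.f (univ.map q)) = 0 := h1
  rw [h3] at h5
  exact h5

end R1

end Pool.PI34.SS

end

/-! ### part S_Main -/
section

/-!
PI34, block S, file 8: THEOREM S.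
-/

set_option autoImplicit false

namespace Pool.PI34.SS

open Equiv Finset
open Pool.PI34.BA

theorem map_sand {A B : Type*} [Ring A] [Ring B] (f : A →+* B) (y : A) (L : List A) :
    f (sand y L) = sand (f y) (L.map f) := by
  induction L with
  | nil => simp [sand]
  | cons u L ih => simp only [sand, List.map_cons, map_mul, ih]

theorem sand_append {A : Type*} [Ring A] (y : A) (L L' : List A) :
    sand y (L ++ L') = sand y L * sand y L' := by
  induction L with
  | nil => simp [sand]
  | cons u L ih => simp only [sand, List.cons_append, ih, mul_assoc]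

theorem fac_cancel {Y : Type} [DecidableEq Y] {U : Type*} [AddCommGroup U] (n : ℕ)
    (hn : ∀ x : U, n.factorial • x = 0 → x = 0) (M : Multiset Y) (hM : ∀ y, M.count y ≤ n)
    (x : U) (hx : fac M • x = 0) : x = 0 := by
  have h1 : ∀ T : Finset Y, (∏ y ∈ T, (M.count y).factorial) • x = 0 → x = 0 := by
    intro T
    induction T using Finset.induction_on with
    | empty => intro h; simpa using h
    | insert y T hy ih =>
      intro h
      rw [Finset.prod_insert hy, mul_smul] at h
      apply ih
      obtain ⟨d, hd⟩ := Nat.factorial_dvd_factorial (hM y)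
      apply hn
      rw [hd, mul_comm, mul_smul, h, smul_zero]
  exact h1 _ hx

section

variable {ι Φ U : Type} [Fintype ι] [DecidableEq ι] [Ring Φ] [Ring U] {z : ι}
variable (S : SupStr ι Φ U z)

/-- `ω = A_P A_Q` for the plain flips -/
def SupStr.om {k : ℕ} (p q : Fin k ↪ ι) : U := anti S.f (univ.map p) * anti S.f (univ.map q)

theorem anti_comm (T : Finset ι) (hz : z ∉ T) (a : Φ) :
    S.ρ z a * anti S.f T = anti S.f T * S.ρ z a := by
  have h1 : ∀ σ ∈ permsOn T, S.f σ * S.ρ z a = S.ρ z a * S.f σ := by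
    intro σ hσ
    have hσz : σ z = z := (Finset.mem_filter.1 hσ).2 z hz
    obtain ⟨b, hb, c, hc, rfl⟩ := S.dec a
    rw [map_add, mul_add, add_mul, S.f_ev σ z b hb, hσz, ← S.τ_z c hc, S.f_od σ z c hc, hσz]
  unfold anti
  rw [Finset.mul_sum, Finset.sum_mul]
  refine Finset.sum_congr rfl (fun σ hσ => ?_)
  rw [mul_smul_comm, smul_mul_assoc, h1 σ hσ]

theorem om_comm {k : ℕ} (p q : Fin k ↪ ι) (hF : Frame p q z) (a : Φ) :
    S.ρ z a * S.om p q = S.om p q * S.ρ z a := by
  have h1 : z ∉ univ.map p := by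
    intro h
    obtain ⟨i, _, hi⟩ := Finset.mem_map.1 h
    exact hF.pz i hi
  have h2 : z ∉ univ.map q := by
    intro h
    obtain ⟨i, _, hi⟩ := Finset.mem_map.1 h
    exact hF.qz i hi
  unfold SupStr.om
  rw [← mul_assoc, anti_comm S _ h1, mul_assoc, anti_comm S _ h2, mul_assoc]

/-! ### words with many occurrences of an odd letter -/

theorem GI_sand (k n : ℕ) (hn : k * k < n) :
    GI k (fun y : Option (Fin n) => y ≠ none)
      (sand (FA.of none) ((List.finRange n).map (fun i => FA.of (some i)))) := by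
  refine ⟨1, one_ne_zero, fun G _ h X hX => ?_⟩
  rw [one_smul, map_sand]
  refine sand_eq_zero h _ (fun i j => ?_) _ (by simpa using hn)
  rw [FA.lift_of]
  exact hX none (by simp) i j

theorem GI_mono {k : ℕ} {Y : Type} {E E' : Y → Prop} {P : FA Y} (h : ∀ y, E' y → E y)
    (hP : GI k E P) : GI k E' P := by
  obtain ⟨N, hN, h1⟩ := hP
  exact ⟨N, hN, fun G _ hG X hX => h1 G hG X (fun y hy => hX y (fun h2 => hy (h y h2)))⟩

open Classical in
theorem HD_hom (k : ℕ) (hA : Anti S.f k) (p q : Fin k ↪ ι) (hF : Frame p q z) (n : ℕ)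
    (hn : k * k < n) (hinv : ∀ x : U, n.factorial • x = 0 → x = 0)
    (y : Φ) (hy : y ∈ S.od) (w : Fin n → Φ) (hw : ∀ i, w i ∈ S.ev ∨ w i ∈ S.od) :
    S.ρ z (sand y ((List.finRange n).map w)) * S.om p q = 0 := by
  let E : Option (Fin n) → Prop := fun o => match o with
    | none => False
    | some i => w i ∈ S.ev
  let u : Option (Fin n) → Φ := fun o => match o with
    | none => 0
    | some i => if w i ∈ S.ev then w i else 0
  let v : Option (Fin n) → Φ := fun o => match o with
    | none => y
    | some i => if w i ∈ S.ev then 0 else w i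
  let m : Fin n → Multiset (Option (Fin n)) := fun i => if w i ∈ S.ev then 0 else {some i}
  have hu : ∀ o, u o ∈ S.ev := by
    rintro (_ | i)
    · exact zero_mem _
    · change (if w i ∈ S.ev then w i else 0) ∈ S.ev
      split_ifs with h
      · exact h
      · exact zero_mem _
  have hv : ∀ o, v o ∈ S.od := by
    rintro (_ | i)
    · exact hy
    · change (if w i ∈ S.ev then 0 else w i) ∈ S.od
      split_ifs with h
      · exact zero_mem _
      · exact (hw i).resolve_left h
  have hE : ∀ o, ¬ E o → u o = 0 := by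
    rintro (_ | i) h
    · rfl
    · exact if_neg h
  have h0 : ∀ L : List (Fin n), Gam (fun o => S.ρ z (u o)) (fun o => S.ρ z (v o))
      (sand (FA.of none) (L.map (fun i => FA.of (some i))))
      = AddMonoidAlgebra.single ((L.map (fun i => m i + {none})).sum)
        (S.ρ z (sand y (L.map w))) := by
    intro L
    induction L with
    | nil =>
      simp only [sand, List.map_nil, map_one, List.sum_nil]
      rfl
    | cons i L ih =>
      simp only [sand, List.map_cons, List.sum_cons]
      rw [RingHom.map_mul, RingHom.map_mul, ih]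
      have h1 : Gam (fun o => S.ρ z (u o)) (fun o => S.ρ z (v o)) (FA.of none)
          = AddMonoidAlgebra.single {none} (S.ρ z y) := by
        unfold Gam
        rw [FA.lift_of]
        change AddMonoidAlgebra.single (0 : Multiset (Option (Fin n))) (S.ρ z 0) +
          AddMonoidAlgebra.single ({none} : Multiset (Option (Fin n))) (S.ρ z y) = _
        rw [map_zero, AddMonoidAlgebra.single_zero, zero_add]
      have h2 : Gam (fun o => S.ρ z (u o)) (fun o => S.ρ z (v o)) (FA.of (some i))
          = AddMonoidAlgebra.single (m i) (S.ρ z (w i)) := by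
        unfold Gam
        rw [FA.lift_of]
        change AddMonoidAlgebra.single 0 (S.ρ z (if w i ∈ S.ev then w i else 0)) +
          AddMonoidAlgebra.single {some i} (S.ρ z (if w i ∈ S.ev then 0 else w i)) =
          AddMonoidAlgebra.single (if w i ∈ S.ev then 0 else {some i}) (S.ρ z (w i))
        split_ifs with h
        · rw [map_zero, AddMonoidAlgebra.single_zero, add_zero]
        · rw [map_zero, AddMonoidAlgebra.single_zero, zero_add]
      rw [h1, h2, AddMonoidAlgebra.single_mul_single, AddMonoidAlgebra.single_mul_single,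
        ← map_mul, ← map_mul]
  have hc : ∀ L : List (Fin n), ∀ o, ((L.map (fun i => m i + {none})).sum).count o
      ≤ L.length := by
    intro L o
    induction L with
    | nil => simp
    | cons i L ih =>
      rw [List.map_cons, List.sum_cons, Multiset.count_add, List.length_cons]
      have : (m i + {none}).count o ≤ 1 := by
        rw [Multiset.count_add]
        change (if w i ∈ S.ev then (0 : Multiset (Option (Fin n))) else {some i}).count o + _ ≤ 1
        rcases o with _ | j
        · split_ifs <;> simp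
        · split_ifs
          · simp
          · rw [Multiset.count_singleton, Multiset.count_singleton]
            split_ifs <;> simp_all
      omega
  have hGI : GI k E (sand (FA.of none) ((List.finRange n).map (fun i => FA.of (some i)))) :=
    GI_mono (fun o ho => by rcases o with _ | i; exact ho.elim; simp) (GI_sand k n hn)
  have h1 := R1 S k hA p q hF E u v hu hv hE _ hGI
    (((List.finRange n).map (fun i => m i + {none})).sum)
  rw [h0, smul_mul_assoc] at h1
  have h2 := fac_cancel n hinv _ (fun o => by simpa using hc (List.finRange n) o) _ h1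
  rw [AddMonoidAlgebra.coeff_single, Finsupp.single_eq_same] at h2
  exact h2

theorem HD (k : ℕ) (hA : Anti S.f k) (p q : Fin k ↪ ι) (hF : Frame p q z) (n : ℕ)
    (hn : k * k < n) (hinv : ∀ x : U, n.factorial • x = 0 → x = 0)
    (y : Φ) (hy : y ∈ S.od) (L : List Φ) (hL : L.length = n) :
    S.ρ z (sand y L) * S.om p q = 0 := by
  have h1 : ∀ (L2 L1 : List Φ), (∀ a ∈ L1, a ∈ S.ev ∨ a ∈ S.od) → (L1 ++ L2).length = n →
      S.ρ z (sand y (L1 ++ L2)) * S.om p q = 0 := by
    intro L2
    induction L2 with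
    | nil =>
      intro L1 h1 h2
      rw [List.append_nil] at h2 ⊢
      subst h2
      have h3 : (List.finRange L1.length).map (fun i => L1.get i) = L1 := by simp
      have h4 := HD_hom S k hA p q hF L1.length hn hinv y hy (fun i => L1.get i)
        (fun i => h1 _ (List.get_mem _ _))
      rwa [h3] at h4
    | cons a L2 ih =>
      intro L1 h1 h2
      obtain ⟨b, hb, c, hc, rfl⟩ := S.dec a
      have h3 := ih (L1 ++ [b]) (fun x hx => by
        rcases List.mem_append.1 hx with h | h
        · exact h1 x h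
        · rw [List.mem_singleton] at h; subst h; exact Or.inl hb) (by simpa using h2)
      have h4 := ih (L1 ++ [c]) (fun x hx => by
        rcases List.mem_append.1 hx with h | h
        · exact h1 x h
        · rw [List.mem_singleton] at h; subst h; exact Or.inr hc) (by simpa using h2)
      have h5 : sand y (L1 ++ (b + c) :: L2) = sand y (L1 ++ [b] ++ L2)
          + sand y (L1 ++ [c] ++ L2) := by
        simp only [sand_append, sand, mul_one]
        noncomm_ring
      rw [h5, map_add, add_mul, h3, h4, add_zero]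
  exact h1 L [] (by simp) (by simpa using hL)

theorem HD' (k : ℕ) (hA : Anti S.f k) (p q : Fin k ↪ ι) (hF : Frame p q z) (n : ℕ)
    (hn : k * k < n) (hinv : ∀ x : U, n.factorial • x = 0 → x = 0)
    (y : Φ) (hy : y ∈ S.od) (L : List Φ) (hL : n ≤ L.length) (t : Φ) :
    S.ρ z (sand y L * t) * S.om p q = 0 := by
  have h1 : L = L.take n ++ L.drop n := (List.take_append_drop n L).symm
  rw [h1, sand_append, mul_assoc, map_mul, mul_assoc, om_comm S p q hF, ← mul_assoc,
    HD S k hA p q hF n hn hinv y hy (L.take n) (by simp [hL]), zero_mul]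

/-- the additive group generated by the elements with `j` occurrences of `y` -/
def HY (y : Φ) (j : ℕ) : AddSubgroup U :=
  AddSubgroup.closure {x | ∃ L : List Φ, ∃ t : Φ, L.length = j ∧ x = S.ρ z (sand y L * t)}

theorem mem_HY (y : Φ) (L : List Φ) (t : Φ) : S.ρ z (sand y L * t) ∈ HY S y L.length :=
  AddSubgroup.subset_closure ⟨L, t, rfl, rfl⟩

theorem HY_mul (y : Φ) (i j : ℕ) (a b : U) (ha : a ∈ HY S y i) (hb : b ∈ HY S y j) :
    a * b ∈ HY S y (i + j) := by
  induction ha using AddSubgroup.closure_induction with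
  | mem x hx =>
    obtain ⟨L, t, hL, rfl⟩ := hx
    induction hb using AddSubgroup.closure_induction with
    | mem x' hx' =>
      obtain ⟨L', t', hL', rfl⟩ := hx'
      rw [← map_mul]
      rcases L' with _ | ⟨c, L'⟩
      · have : sand y L * t * (sand y [] * t') = sand y L * (t * t') := by
          simp only [sand]; noncomm_ring
        rw [this, ← hL, ← hL', List.length_nil, add_zero]
        exact mem_HY S y L _
      · have : sand y L * t * (sand y (c :: L') * t') = sand y (L ++ (t * c) :: L') * t' := by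
          simp only [sand_append, sand]; noncomm_ring
        rw [this]
        have h2 : i + j = (L ++ (t * c) :: L').length := by
          rw [← hL, ← hL']; simp
        rw [h2]
        exact mem_HY S y _ _
    | zero => rw [mul_zero]; exact zero_mem _
    | add c d _ _ h1 h2 => rw [mul_add]; exact add_mem h1 h2
    | neg c _ h1 => rw [mul_neg]; exact neg_mem h1
  | zero => rw [zero_mul]; exact zero_mem _
  | add c d _ _ h1 h2 => rw [add_mul]; exact add_mem h1 h2
  | neg c _ h1 => rw [neg_mul]; exact neg_mem h1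

theorem HY_om (k : ℕ) (hA : Anti S.f k) (p q : Fin k ↪ ι) (hF : Frame p q z) (n : ℕ)
    (hn : k * k < n) (hinv : ∀ x : U, n.factorial • x = 0 → x = 0)
    (y : Φ) (hy : y ∈ S.od) (j : ℕ) (hj : n ≤ j) (a : U) (ha : a ∈ HY S y j) :
    a * S.om p q = 0 := by
  induction ha using AddSubgroup.closure_induction with
  | mem x hx =>
    obtain ⟨L, t, hL, rfl⟩ := hx
    exact HD' S k hA p q hF n hn hinv y hy L (by omega) t
  | zero => rw [zero_mul]
  | add c d _ _ h1 h2 => rw [add_mul, h1, h2, add_zero]
  | neg c _ h1 => rw [neg_mul, h1, neg_zero]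

open Classical in
theorem coeff_mem_HY {Y : Type} (u v : Y → Φ) (y : Y) (P : FA Y) :
    ∀ M, (Gam (fun o => S.ρ z (u o)) (fun o => S.ρ z (v o)) P).coeff M
      ∈ HY S (v y) (M.count y) := by
  have hnil : ∀ t : Φ, S.ρ z t ∈ HY S (v y) 0 := by
    intro t
    have := mem_HY S (v y) [] t
    simpa [sand] using this
  induction P using FA.induction with
  | h0 r =>
    intro M
    rw [map_intCast]
    have : ((r : ℤ) : AddMonoidAlgebra U (Multiset Y)) = AddMonoidAlgebra.single 0 (r : U) := by
      rw [AddMonoidAlgebra.intCast_def]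
    rw [this, AddMonoidAlgebra.coeff_single, Finsupp.single_apply]
    split_ifs with h
    · subst h
      rw [Multiset.count_zero]
      have := hnil (r : Φ)
      rwa [map_intCast] at this
    · exact zero_mem _
  | h1 x =>
    intro M
    unfold Gam
    rw [FA.lift_of, AddMonoidAlgebra.coeff_add, Finsupp.add_apply, AddMonoidAlgebra.coeff_single,
      AddMonoidAlgebra.coeff_single, Finsupp.single_apply, Finsupp.single_apply]
    refine add_mem ?_ ?_
    · split_ifs with h
      · subst h
        rw [Multiset.count_zero]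
        exact hnil _
      · exact zero_mem _
    · split_ifs with h
      · subst h
        rw [Multiset.count_singleton]
        split_ifs with h2
        · subst h2
          have := mem_HY S (v y) [1] 1
          simpa [sand] using this
        · exact hnil _
      · exact zero_mem _
  | hm a b ha hb =>
    intro M
    rw [map_mul, AddMonoidAlgebra.coeff_mul]
    rw [Finsupp.sum]
    refine sum_mem (fun M1 _ => ?_)
    rw [Finsupp.sum]
    refine sum_mem (fun M2 _ => ?_)
    split_ifs with h
    · subst h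
      rw [Multiset.count_add]
      exact HY_mul S _ _ _ _ _ (ha M1) (hb M2)
    · exact zero_mem _
  | ha a b ha hb =>
    intro M
    rw [map_add, AddMonoidAlgebra.coeff_add, Finsupp.add_apply]
    exact add_mem (ha M) (hb M)

/-- the sum of the coefficients -/
noncomputable def aug (U Y : Type) [Ring U] : AddMonoidAlgebra U (Multiset Y) →+* U :=
  AddMonoidAlgebra.liftNCRingHom (RingHom.id U) (1 : Multiplicative (Multiset Y) →* U)
    (fun x _ => by rw [MonoidHom.one_apply]; exact Commute.one_right _)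

theorem aug_mul_eq_zero {Y : Type} (F : AddMonoidAlgebra U (Multiset Y)) (w : U)
    (h : ∀ M, F.coeff M * w = 0) : aug U Y F * w = 0 := by
  have h1 : aug U Y F = F.coeff.sum (fun _ r => r) := by
    conv_lhs => rw [← AddMonoidAlgebra.sum_coeff_single F]
    rw [map_finsuppSum]
    refine Finsupp.sum_congr (fun M _ => ?_)
    unfold aug
    rw [AddMonoidAlgebra.liftNCRingHom_single]
    simp
  rw [h1, Finsupp.sum, Finset.sum_mul]
  exact Finset.sum_eq_zero (fun M _ => h M)

open Classical in
/-- THEOREM S: the identities of the `k × k` matrices over supercommutative rings kill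
`ω = A_P A_Q`. -/
theorem main (k : ℕ) (hA : Anti S.f k) (p q : Fin k ↪ ι) (hF : Frame p q z)
    (hinv : ∀ x : U, (k * k + 1).factorial • x = 0 → x = 0)
    {X : Type} (g : FA X) (hg : g ∈ QQ k X) (r : X → Φ) :
    S.ρ z (FA.lift r g) * (anti S.f (univ.map p) * anti S.f (univ.map q)) = 0 := by
  choose u hu v hv huv using fun x => S.dec (r x)
  have h1 : S.ρ z (FA.lift r g)
      = aug U X (Gam (fun o => S.ρ z (u o)) (fun o => S.ρ z (v o)) g) := by
    refine FA.ext ((S.ρ z).comp (FA.lift r)) ((aug U X).comp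
      (Gam (fun o => S.ρ z (u o)) (fun o => S.ρ z (v o)))) (fun x => ?_) g
    rw [RingHom.comp_apply, FA.lift_of, RingHom.comp_apply]
    unfold Gam aug
    rw [FA.lift_of, map_add, AddMonoidAlgebra.liftNCRingHom_single,
      AddMonoidAlgebra.liftNCRingHom_single, huv x]
    simp
  rw [h1]
  refine aug_mul_eq_zero _ _ (fun M => ?_)
  by_cases hM : ∀ x, M.count x ≤ k * k + 1
  · have h2 := R1 S k hA p q hF (fun _ => True) u v hu hv (fun y hy => (hy trivial).elim) g hg M
    rw [smul_mul_assoc] at h2
    exact fac_cancel (k * k + 1) hinv M hM _ h2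
  · push_neg at hM
    obtain ⟨x, hx⟩ := hM
    exact HY_om S k hA p q hF (k * k + 1) (by omega) hinv (v x) (hv x) (M.count x) hx.le _
      (coeff_mem_HY S u v x g M)

end

end Pool.PI34.SS

end

/-! ### part P3c -/
section

/-!
PI34, block P, file 5: THEOREM P3.
-/

set_option linter.unusedSectionVars false
set_option linter.unusedSimpArgs false

namespace Pool.PI34.Super

open Equiv Finset
open Pool.PI34.SS (FA)
open Pool.PI34.C0 (capMono)
open Pool.PI34.BA (anti permsOn Frame)

/-- the strands `1, ..., K` -/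
def eP (K : ℕ) : Fin K ↪ Fin (2 * K + 1) where
  toFun i := ⟨1 + i.val, by omega⟩
  inj' x y h := by
    have := congrArg Fin.val h
    simp only at this
    exact Fin.ext (by omega)

/-- the strands `K + 1, ..., 2 K` -/
def eQ (K : ℕ) : Fin K ↪ Fin (2 * K + 1) where
  toFun i := ⟨1 + K + i.val, by omega⟩
  inj' x y h := by
    have := congrArg Fin.val h
    simp only at this
    exact Fin.ext (by omega)

theorem frame_eP (K : ℕ) : Frame (eP K) (eQ K) (0 : Fin (2 * K + 1)) where
  pq i i' h := by
    have h1 : 1 + i.val = 1 + K + i'.val := congrArg Fin.val h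
    omega
  pz i h := by
    have h1 : 1 + i.val = 0 := congrArg Fin.val h
    omega
  qz i h := by
    have h1 : 1 + K + i.val = 0 := congrArg Fin.val h
    omega

theorem zero_eP (K : ℕ) : (0 : Fin (2 * K + 1)) ∉ univ.map (eP K) := by
  intro h
  obtain ⟨i, _, hi⟩ := Finset.mem_map.1 h
  exact (frame_eP K).pz i hi

theorem zero_eQ (K : ℕ) : (0 : Fin (2 * K + 1)) ∉ univ.map (eQ K) := by
  intro h
  obtain ⟨i, _, hi⟩ := Finset.mem_map.1 h
  exact (frame_eP K).qz i hi

theorem disj_ePQ (K : ℕ) : Disjoint (univ.map (eP K)) (univ.map (eQ K)) := by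
  rw [Finset.disjoint_left]
  intro x h1 h2
  obtain ⟨i, _, rfl⟩ := Finset.mem_map.1 h1
  obtain ⟨i', _, hi⟩ := Finset.mem_map.1 h2
  exact (frame_eP K).pq i i' hi.symm

namespace CatL

variable {Λ : Type} [CommRing Λ] {j : Λ →+* ℚ} {k l m : ℕ}

/-- the coloured string system of a representation -/
noncomputable def Rp.cS {L : CatL j k l m} {n : ℕ} {Φ0 EE : Type} [Ring EE]
    (V : Rp L (n + 1) Φ0 EE) : SS.ColStr n (FA (Option Φ0)) V.U where
  ρ := V.colStr.ρ
  el := V.colStr.el
  s := V.colStr.s
  f := V.colStr.f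
  comm := V.colStr.comm
  idem := V.colStr.idem
  conj := V.colStr.s_ρ
  fs := V.colStr.f_swap

variable {L : CatL j k l m}

theorem Rp.ring_rU {n : ℕ} {R EE : Type} [Ring R] [Ring EE] (V : Rp L n R EE) (i : Fin n)
    (ρH : R →+* EE) (hρ : ∀ x, V.ρ (phL n m i) x = ρH x) {X : Type} (a : X → R) (g : FA X) :
    (V.rU i (FA.lift (fun x => FA.of (some (a x))) g)).1
      = V.ρ (phL n m i) (FA.lift a g) * V.a (L.Z n) := by
  let ψ : R →+* V.U :=
    { toFun := V.lx i
      map_one' := by
        apply V.U_ext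
        change V.ρ (phL n m i) 1 * V.a (L.Z n) = V.a (L.Z n)
        rw [hρ, map_one, one_mul]
      map_mul' := fun x y => by
        apply V.U_ext
        have h1 : V.a (L.Z n) * (V.ρ (phL n m i) y * V.a (L.Z n))
            = V.ρ (phL n m i) y * V.a (L.Z n) := V.U_left (V.lx i y)
        change V.ρ (phL n m i) (x * y) * V.a (L.Z n) =
          V.ρ (phL n m i) x * V.a (L.Z n) * (V.ρ (phL n m i) y * V.a (L.Z n))
        rw [mul_assoc, h1, hρ, hρ, hρ, map_mul, mul_assoc]
      map_zero' := by
        apply V.U_ext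
        change V.ρ (phL n m i) 0 * V.a (L.Z n) = 0
        rw [hρ, map_zero, zero_mul]
      map_add' := fun x y => by
        apply V.U_ext
        change V.ρ (phL n m i) (x + y) * V.a (L.Z n) =
          V.ρ (phL n m i) x * V.a (L.Z n) + V.ρ (phL n m i) y * V.a (L.Z n)
        rw [hρ, hρ, hρ, map_add, add_mul] }
  have h := SS.FA.ext (A := V.U) ((V.rU i).comp (FA.lift (fun x => FA.of (some (a x)))))
    (ψ.comp (FA.lift a)) (fun x => by
      rw [RingHom.comp_apply, RingHom.comp_apply, SS.FA.lift_of, SS.FA.lift_of, V.rU_of]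
      rfl) g
  rw [RingHom.comp_apply, RingHom.comp_apply] at h
  rw [h]
  rfl

/-- the value on the first strand -/
theorem Rp.core {R EE : Type} [Ring R] [Ring EE] (V : Rp L (2 * (k + l) + 1) R EE)
    (ρH : R →+* EE) (hρ : ∀ x, V.ρ (phL (2 * (k + l) + 1) m 0) x = ρH x)
    (hinv : ∀ x : EE, ((k + l) * (k + l) + 1).factorial • x = 0 → x = 0)
    {X : Type} (g : FA X) (hg : g ∈ SS.QQ (k + l) X) (a : X → R) :
    V.ρ (phL (2 * (k + l) + 1) m 0) (FA.lift a g) *
      V.a (L.Yp (2 * (k + l) + 1) (univ.map (eP (k + l))) (univ.map (eQ (k + l)))) = 0 := by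
  have hU : ∀ x : V.U, ((k + l) * (k + l) + 1).factorial • x = 0 → x = 0 := by
    intro x hx
    apply V.U_ext
    apply hinv
    have h2 : V.U_val (((k + l) * (k + l) + 1).factorial • x) = V.U_val 0 := by rw [hx]
    rw [map_nsmul, map_zero] at h2
    exact h2
  have h := SS.main V.cS.toSup (k + l) V.anti_zero (eP (k + l)) (eQ (k + l))
    (frame_eP (k + l)) hU g hg (fun x => FA.of (some (a x)))
  have h2 : (V.rU 0 (FA.lift (fun x => FA.of (some (a x))) g) *
      (anti V.fH (univ.map (eP (k + l))) * anti V.fH (univ.map (eQ (k + l)))) : V.U).1 = 0 :=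
    congrArg (fun x : V.U => x.1) h
  rw [V.U_mul, V.U_mul, V.ring_rU 0 ρH hρ, V.anti_eq (univ.map (eP (k + l)))] at h2
  have h3 : V.a (L.Z (2 * (k + l) + 1)) * (anti V.fH (univ.map (eQ (k + l)))).1
      = (anti V.fH (univ.map (eQ (k + l)))).1 := V.U_left _
  have h4 : V.a (L.Z (2 * (k + l) + 1)) * (anti V.fH (univ.map (eP (k + l)))).1
      = (anti V.fH (univ.map (eP (k + l)))).1 := V.U_left _
  rw [V.anti_eq] at h3 h4 h2
  unfold Yp
  rw [map_mul, map_mul]
  unfold altL
  generalize V.a (∑ σ ∈ permsOn (univ.map (eP (k + l))), ((Perm.sign σ : ℤˣ) : ℤ) • L.fl σ) = A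
    at h2 h3 h4 ⊢
  generalize V.a (∑ σ ∈ permsOn (univ.map (eQ (k + l))), ((Perm.sign σ : ℤˣ) : ℤ) • L.fl σ) = B
    at h2 h3 h4 ⊢
  generalize V.a (L.Z (2 * (k + l) + 1)) = Z at h2 h3 h4 ⊢
  generalize V.ρ (phL (2 * (k + l) + 1) m 0) (FA.lift a g) = x at h2 ⊢
  calc x * (A * B * Z) = x * (A * (B * Z)) := by rw [mul_assoc A]
    _ = x * (A * (Z * (B * Z))) := by rw [h3]
    _ = x * (A * Z * (B * Z)) := by rw [mul_assoc A]
    _ = x * (Z * (A * Z) * (B * Z)) := by rw [h4]
    _ = x * Z * (A * Z * (B * Z)) := by simp only [mul_assoc]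
    _ = 0 := h2

/-- THEOREM P3 -/
theorem P3 (L : CatL j k l m) (hkl : 0 < k + l) :
    ∃ Y0 : MonoidAlgebra Λ (Perm (Fin (2 * (k + l) + m))), act k l _ (mj j _ Y0) ≠ 0 ∧
      ∀ (R : Type) [Ring R] [Algebra Λ R], TypeKL j k l (2 * (k + l) + 1 + m) R →
        (∀ x : R, ((k + l) * (k + l) + 1).factorial • x = 0 → x = 0) →
        ∀ {X : Type} (g : FA X), g ∈ SS.QQ (k + l) X → ∀ (a : X → R)
          (τ : Perm (Fin (2 * (k + l) + m)))
          (v : Fin (2 * (k + l) + m + 1) → R) (r : Fin (2 * (k + l) + m) → R),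
          FA.lift a g * fv (Y0 * MonoidAlgebra.of Λ _ τ) v r = 0 := by
  obtain ⟨Y0, hY0⟩ := L.exists_Y0 (2 * (k + l)) (univ.map (eP (k + l))) (univ.map (eQ (k + l)))
    (zero_eP _) (zero_eQ _)
  refine ⟨Y0, ?_, ?_⟩
  · apply act_of_pl (conv_ph1 (2 * (k + l)) m)
    rw [← mj_plL, hY0]
    let v : Fin (2 * (k + l) + 1) → Lt k l := fun i =>
      finSumFinEquiv.symm ⟨(i.val + (k + l) - 1) % (k + l), Nat.mod_lt _ hkl⟩
    apply L.Yp_ne _ _ (disj_ePQ _) v
    · intro x hx y hy hxy
      rw [Finset.coe_map, Set.mem_image] at hx hy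
      obtain ⟨x, _, rfl⟩ := hx
      obtain ⟨y, _, rfl⟩ := hy
      have h1 : (1 + x.val + (k + l) - 1) % (k + l) = (1 + y.val + (k + l) - 1) % (k + l) :=
        congrArg Fin.val (finSumFinEquiv.symm.injective hxy)
      have h2 : (1 + x.val + (k + l) - 1) % (k + l) = x.val := by
        rw [show 1 + x.val + (k + l) - 1 = x.val + (k + l) by omega, Nat.add_mod_right,
          Nat.mod_eq_of_lt x.2]
      have h3 : (1 + y.val + (k + l) - 1) % (k + l) = y.val := by
        rw [show 1 + y.val + (k + l) - 1 = y.val + (k + l) by omega, Nat.add_mod_right,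
          Nat.mod_eq_of_lt y.2]
      rw [h2, h3] at h1
      rw [Fin.ext h1]
    · intro x hx y hy hxy
      rw [Finset.coe_map, Set.mem_image] at hx hy
      obtain ⟨x, _, rfl⟩ := hx
      obtain ⟨y, _, rfl⟩ := hy
      have h1 : (1 + (k + l) + x.val + (k + l) - 1) % (k + l)
          = (1 + (k + l) + y.val + (k + l) - 1) % (k + l) :=
        congrArg Fin.val (finSumFinEquiv.symm.injective hxy)
      have h2 : (1 + (k + l) + x.val + (k + l) - 1) % (k + l) = x.val := by
        rw [show 1 + (k + l) + x.val + (k + l) - 1 = x.val + (k + l) + (k + l) by omega,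
          Nat.add_mod_right, Nat.add_mod_right, Nat.mod_eq_of_lt x.2]
      have h3 : (1 + (k + l) + y.val + (k + l) - 1) % (k + l) = y.val := by
        rw [show 1 + (k + l) + y.val + (k + l) - 1 = y.val + (k + l) + (k + l) by omega,
          Nat.add_mod_right, Nat.add_mod_right, Nat.mod_eq_of_lt y.2]
      rw [h2, h3] at h1
      rw [Fin.ext h1]
  · intro R _ _ hT hinv X g hg a τ v r
    let V := ringRp L (2 * (k + l) + 1) hT
    have hEE : ∀ x : Module.End Λ (VL Λ R (2 * (k + l) + 1 + m)),
        ((k + l) * (k + l) + 1).factorial • x = 0 → x = 0 := by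
      intro x h1
      refine endL_ext fun F r => ?_
      apply hinv
      exact congrFun (congrArg Subtype.val (LinearMap.congr_fun h1 F)) r
    have h := V.core (rhoH (phL (2 * (k + l) + 1) m 0)) (fun _ => rfl) hEE g hg a
    have hτ : V.ρ (phL (2 * (k + l) + 1) m 0) (FA.lift a g) *
        aL Λ R (2 * (k + l) + 1 + m) (plL Λ (ph1 (2 * (k + l)) m)
          (Y0 * MonoidAlgebra.of Λ _ τ)) = 0 := by
      rw [map_mul, map_mul, hY0, ← mul_assoc]
      have h' : V.ρ (phL (2 * (k + l) + 1) m 0) (FA.lift a g) *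
        aL Λ R (2 * (k + l) + 1 + m) (L.Yp (2 * (k + l) + 1) (univ.map (eP (k + l)))
          (univ.map (eQ (k + l)))) = 0 := h
      rw [h', zero_mul]
    clear h
    rename' hτ => h
    let v' : Fin (2 * (k + l) + 1 + m + 1) → R := fun i =>
      if h : i.val = 0 then 1 else v ⟨i.val - 1, by omega⟩
    let r' : Fin (2 * (k + l) + 1 + m) → R := fun i =>
      if h : i.val = 0 then 1 else r ⟨i.val - 1, by omega⟩
    have h1 : (aL Λ R (2 * (k + l) + 1 + m) (plL Λ (ph1 (2 * (k + l)) m)
        (Y0 * MonoidAlgebra.of Λ _ τ)) (monV v' 1)).1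
        (Function.update r' (phL (2 * (k + l) + 1) m 0)
          (r' (phL (2 * (k + l) + 1) m 0) * FA.lift a g)) = 0 :=
      congrFun (congrArg Subtype.val (LinearMap.congr_fun h (monV v' 1))) r'
    rw [aL_fv, fv_pl] at h1
    have e1 : v' 0 = 1 := dif_pos rfl
    have e2 : (phL (2 * (k + l) + 1) m 0) = (⟨0, by omega⟩ : Fin (2 * (k + l) + 1 + m)) := rfl
    have e3 : r' ⟨0, by omega⟩ = 1 := dif_pos rfl
    rw [e2, Function.update_self, e1, e3, one_mul, one_mul] at h1
    have e4 : (fun i : Fin (2 * (k + l) + m + 1) => v' ⟨i.val + 1, by omega⟩) = v := by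
      funext i
      change (if h : i.val + 1 = 0 then 1 else v ⟨i.val + 1 - 1, by omega⟩) = _
      rw [dif_neg (by omega)]
      rfl
    have e5 : Function.update r' ⟨0, by omega⟩ (FA.lift a g) ∘ ph1 (2 * (k + l)) m = r := by
      funext i
      have h2 : ph1 (2 * (k + l)) m i ≠ ⟨0, by omega⟩ := by
        intro h3
        have := congrArg Fin.val h3
        rw [ph1_val] at this
        simp at this
      rw [Function.comp_apply, Function.update_of_ne h2]
      change (if h : (ph1 (2 * (k + l)) m i).val = 0 then 1 else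
        r ⟨(ph1 (2 * (k + l)) m i).val - 1, by omega⟩) = _
      rw [dif_neg (by rw [ph1_val]; omega)]
      rfl
    rw [e4, e5] at h1
    exact h1

end CatL

end Pool.PI34.Super

end

/-! ### part Q1 -/
section

/-!
PI34, file Q1: THEOREM P3 with integral elements.
-/

set_option linter.unusedSectionVars false
set_option linter.unusedSimpArgs false

namespace Pool.PI34.Super

open Equiv Finset
open Pool.PI34.SS (FA)
open Pool.PI34.C0 (capMono)

theorem DD_word {n r : ℕ} {k l : ℕ} {ι : Type} [Fintype ι] [LinearOrder ι]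
    {pos : Fin r × Fin n → ι} {lam : Fin n → Lt k l} (hlam : Function.Injective lam)
    (w : ι → Lt k l) (hw : ∀ q, w (pos q) = lam q.2) : DD pos lam w = 1 := by
  unfold DD
  refine Finset.prod_eq_one (fun j _ => ?_)
  have h1 : MM pos lam w j = 1 := by
    ext i a
    change (if w (pos (j, i)) = lam a then (1 : ℚ) else 0) = _
    rw [hw, Matrix.one_apply]
    by_cases h : i = a
    · rw [if_pos (by rw [h]), if_pos h]
    · rw [if_neg (fun e => h (hlam e)), if_neg h]
  rw [h1, Matrix.det_one]

theorem xi_ne (k l : ℕ) : xi k l ≠ 0 := by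
  let w : Fin (mm k l) → Lt k l := fun s =>
    Sum.elim (fun q : Fin l × Fin k => (Sum.inl q.2 : Lt k l))
      (fun q : Fin k × Fin l => (Sum.inr q.2 : Lt k l)) ((catEquiv k l).symm s)
  intro h
  have h1 := congrFun h w
  unfold xi at h1
  rw [DD_word Sum.inl_injective w (fun q => by
      change Sum.elim _ _ ((catEquiv k l).symm (catEquiv k l (Sum.inl q))) = _
      rw [Equiv.symm_apply_apply]; rfl),
    DD_word Sum.inr_injective w (fun q => by
      change Sum.elim _ _ ((catEquiv k l).symm (catEquiv k l (Sum.inr q))) = _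
      rw [Equiv.symm_apply_apply]; rfl)] at h1
  norm_num at h1

section loc

/-- `ℤ[1/D]` -/
def Lam (D : ℕ) : Type := Localization.Away (D : ℤ)

noncomputable instance (D : ℕ) : CommRing (Lam D) :=
  inferInstanceAs (CommRing (Localization.Away (D : ℤ)))

instance (D : ℕ) : IsLocalization.Away (D : ℤ) (Lam D) := by
  have h : IsLocalization.Away (D : ℤ) (Localization.Away (D : ℤ)) := inferInstance
  convert! h
  exact Subsingleton.elim (α := Algebra ℤ (Lam D)) _ _

variable {D : ℕ}

/-- the embedding in `ℚ` -/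
noncomputable def jL (hD : 0 < D) : Lam D →+* ℚ :=
  IsLocalization.Away.lift (D : ℤ) (g := Int.castRingHom ℚ) (by
    rw [eq_intCast, Int.cast_natCast]
    exact (Nat.cast_ne_zero.2 hD.ne').isUnit)

theorem jL_int (hD : 0 < D) (n : ℤ) : jL hD (algebraMap ℤ (Lam D) n) = n := by
  unfold jL
  rw [IsLocalization.Away.lift_eq]
  rfl

variable {G : Type} [Group G]

/-- base change to `Λ[G]` -/
noncomputable def ic (D : ℕ) (G : Type) [Group G] : MonoidAlgebra ℤ G →+* MonoidAlgebra (Lam D) G :=
  MonoidAlgebra.mapRingHom G (algebraMap ℤ (Lam D))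

theorem ic_of (g : G) : ic D G (MonoidAlgebra.of ℤ G g) = MonoidAlgebra.of (Lam D) G g := by
  simp [ic, MonoidAlgebra.of_apply]

theorem ic_coeff (y : MonoidAlgebra ℤ G) (g : G) :
    (ic D G y).coeff g = algebraMap ℤ (Lam D) (y.coeff g) := by
  unfold ic
  rw [MonoidAlgebra.coeff_mapRingHom]

theorem ic_smul (n : ℤ) (y : MonoidAlgebra ℤ G) :
    ic D G (n • y) = (algebraMap ℤ (Lam D) n) • ic D G y := by
  rw [map_zsmul, eq_intCast, Int.cast_smul_eq_zsmul]

theorem mj_ic (hD : 0 < D) (y : MonoidAlgebra ℤ G) : mj (jL hD) G (ic D G y) = bc y := by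
  ext g
  unfold mj bc
  rw [MonoidAlgebra.coeff_mapRingHom, ic_coeff, MonoidAlgebra.coeff_mapRingHom, jL_int]
  rfl

theorem clr (y : MonoidAlgebra (Lam D) G) : ∃ (e : ℕ) (y' : MonoidAlgebra ℤ G),
    ic D G y' = ((algebraMap ℤ (Lam D) D) ^ e) • y := by
  induction y using MonoidAlgebra.induction_on with
  | of g => exact ⟨0, MonoidAlgebra.of ℤ G g, by rw [ic_of, pow_zero, one_smul]⟩
  | add x y hx hy =>
    obtain ⟨a, x', hx'⟩ := hx
    obtain ⟨b, y', hy'⟩ := hy
    refine ⟨a + b, ((D : ℤ) ^ b) • x' + ((D : ℤ) ^ a) • y', ?_⟩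
    rw [map_add, ic_smul, ic_smul, hx', hy', smul_smul, smul_smul, smul_add, map_pow, map_pow,
      ← pow_add, ← pow_add, add_comm b a]
  | smul r x hx =>
    obtain ⟨a, x', hx'⟩ := hx
    obtain ⟨n, c, hc⟩ := IsLocalization.Away.surj (D : ℤ) r
    refine ⟨n + a, c • x', ?_⟩
    rw [ic_smul, hx', smul_smul, smul_smul, ← hc]
    congr 1
    ring

/-- a multiple of a lift is a lift -/
theorem lift_of_int (hD : 0 < D) (z : MonoidAlgebra ℚ G) (z' : MonoidAlgebra ℤ G) (a : ℕ)
    (ha : a ∣ D) (hz : bc z' = (a : ℚ) • z) : ∃ zL : MonoidAlgebra (Lam D) G,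
    mj (jL hD) G zL = z := by
  obtain ⟨b, hb⟩ := ha
  refine ⟨(IsLocalization.Away.invSelf (D : ℤ) * algebraMap ℤ (Lam D) b) • ic D G z', ?_⟩
  rw [mj_smul, mj_ic, hz, smul_smul]
  have h1 : jL hD (IsLocalization.Away.invSelf (D : ℤ)) * (D : ℚ) = 1 := by
    have h2 := congrArg (jL hD) (IsLocalization.Away.mul_invSelf (S := Lam D) (D : ℤ))
    rw [map_mul, map_one, jL_int, mul_comm] at h2
    exact_mod_cast h2
  have h3 : jL hD (IsLocalization.Away.invSelf (D : ℤ) * algebraMap ℤ (Lam D) b) * (a : ℚ)
      = 1 := by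
    rw [map_mul, jL_int]
    have h4 : (D : ℚ) = a * b := by exact_mod_cast congrArg (Nat.cast (R := ℚ)) hb
    rw [h4] at h1
    rw [← h1]
    push_cast
    ring
  rw [h3, one_smul]

end loc

section alg

variable {D : ℕ} {U : Type} [Ring U]

/-- the algebra structure -/
noncomputable def fL (hU : IsUnit (D : U)) : Lam D →+* Subring.center U :=
  IsLocalization.Away.lift (D : ℤ) (g := Int.castRingHom (Subring.center U)) (by
    obtain ⟨u, hu⟩ := hU
    have h1 : (u : U) ∈ Set.center U := by
      rw [hu]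
      exact Set.natCast_mem_center U D
    refine IsUnit.of_mul_eq_one (⟨(u⁻¹ : Uˣ), Set.units_inv_mem_center h1⟩ : Subring.center U) ?_
    apply Subtype.ext
    rw [eq_intCast, Int.cast_natCast]
    change ((D : Subring.center U) : U) * ((u⁻¹ : Uˣ) : U) = 1
    have h2 : ((D : Subring.center U) : U) = (D : U) := by push_cast; rfl
    rw [h2, ← hu, Units.mul_inv])

/-- the algebra structure -/
@[instance_reducible] noncomputable def algU (hU : IsUnit (D : U)) : Algebra (Lam D) U :=
  RingHom.toAlgebra' ((Subring.center U).subtype.comp (fL hU)) (fun c x => by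
    have := (fL hU c).2
    rw [Subring.mem_center_iff] at this
    exact (this x).symm)

end alg

section p3

variable {U : Type} [Ring U]

theorem fv_zsmul {N : ℕ} (c : ℤ) (y : MonoidAlgebra ℤ (Perm (Fin N))) (v : Fin (N + 1) → U)
    (r : Fin N → U) : fv (c • y) v r = c • fv y v r := by
  unfold fv
  rw [Finset.smul_sum]
  refine Finset.sum_congr rfl (fun σ _ => ?_)
  rw [MonoidAlgebra.coeff_smul, Finsupp.smul_apply, smul_smul, smul_eq_mul]

theorem fv_lsmul {Λ : Type} [CommRing Λ] [Algebra Λ U] {N : ℕ} (c : Λ)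
    (y : MonoidAlgebra Λ (Perm (Fin N))) (v : Fin (N + 1) → U)
    (r : Fin N → U) : fv (c • y) v r = c • fv y v r := by
  unfold fv
  rw [Finset.smul_sum]
  refine Finset.sum_congr rfl (fun σ _ => ?_)
  rw [MonoidAlgebra.coeff_smul, Finsupp.smul_apply, smul_smul, smul_eq_mul]

theorem fv_ic {D N : ℕ} [Algebra (Lam D) U] (y : MonoidAlgebra ℤ (Perm (Fin N)))
    (v : Fin (N + 1) → U) (r : Fin N → U) : fv (ic D _ y) v r = fv y v r := by
  unfold fv
  refine Finset.sum_congr rfl (fun σ _ => ?_)
  rw [ic_coeff, eq_intCast, Int.cast_smul_eq_zsmul]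

/-- integral type `(k|l)` in degree `n` up to the factor `N` -/
def KN (N k l n : ℕ) (U : Type) [Ring U] : Prop :=
  ∀ y : MonoidAlgebra ℤ (Perm (Fin n)), act k l _ (bc y) = 0 →
    ∀ (v : Fin (n + 1) → U) (r : Fin n → U), N • fv y v r = 0

theorem typeKL_of {D : ℕ} (hD : 0 < D) (hU : IsUnit (D : U)) {k l n : ℕ} (h : KN 1 k l n U) :
    @TypeKL (Lam D) _ (jL hD) k l n U _ (algU hU) := by
  let _ := algU hU
  intro y hy v r
  obtain ⟨e, y', hy'⟩ := clr y
  have h1 : act k l _ (bc y') = 0 := by
    rw [← mj_ic hD, hy', mj_smul, map_smul, hy, smul_zero]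
  have h2 := h y' h1 v r
  rw [one_smul, ← fv_ic (D := D), hy', fv_lsmul] at h2
  have h3 : IsUnit ((algebraMap ℤ (Lam D) D) ^ e) :=
    (IsUnit.pow e (IsLocalization.Away.algebraMap_isUnit (D : ℤ)))
  obtain ⟨u, hu⟩ := h3
  rw [← hu] at h2
  have h4 := congrArg (fun x => ((u⁻¹ : (Lam D)ˣ) : Lam D) • x) h2
  simp only [smul_smul, Units.inv_mul, one_smul, smul_zero] at h4
  exact h4

/-- P3 over the integers -/
theorem P3Z (k l : ℕ) (hkl : 0 < k + l) : ∃ (D : ℕ)
    (y0 : MonoidAlgebra ℤ (Perm (Fin (2 * (k + l) + mm k l)))), 0 < D ∧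
      act k l _ (bc y0) ≠ 0 ∧ ∀ (U : Type) [Ring U], IsUnit (D : U) →
        KN 1 k l (2 * (k + l) + 1 + mm k l) U →
        ∀ {X : Type} (g : FA X), g ∈ SS.QQ (k + l) X → ∀ (a : X → U)
          (τ : Perm (Fin (2 * (k + l) + mm k l)))
          (v : Fin (2 * (k + l) + mm k l + 1) → U) (r : Fin (2 * (k + l) + mm k l) → U),
          FA.lift a g * fv (y0 * MonoidAlgebra.of ℤ _ τ) v r = 0 := by
  set C := (catalyst k l).toCatP (xi_ne k l) with hC
  obtain ⟨a1, ha1, z', hz'⟩ := exists_int C.z
  obtain ⟨a2, ha2, E', hE'⟩ := exists_int C.E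
  set D := a1 * a2 * ((k + l) * (k + l) + 1).factorial with hDef
  have hD : 0 < D := Nat.mul_pos (Nat.mul_pos ha1 ha2) (Nat.factorial_pos _)
  obtain ⟨zL, hzL⟩ := lift_of_int hD C.z z' a1 ⟨a2 * ((k + l) * (k + l) + 1).factorial, by
    rw [hDef, mul_assoc]⟩ hz'
  obtain ⟨EL, hEL⟩ := lift_of_int hD C.E E' a2 ⟨a1 * ((k + l) * (k + l) + 1).factorial, by
    rw [hDef]; ring⟩ hE'
  let L : CatL (jL hD) k l (mm k l) := ⟨C, zL, EL, hzL, hEL⟩
  obtain ⟨Y0, hY0, h⟩ := L.P3 hkl
  obtain ⟨e, y0, hy0⟩ := clr Y0
  refine ⟨D, y0, hD, ?_, ?_⟩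
  · rw [← mj_ic hD, hy0, mj_smul, map_smul]
    intro h1
    rcases smul_eq_zero.1 h1 with h2 | h2
    · rw [map_pow, jL_int] at h2
      have : ((D : ℤ) : ℚ) ≠ 0 := by exact_mod_cast hD.ne'
      exact this (eq_zero_of_pow_eq_zero h2)
    · exact hY0 h2
  · intro U _ hU hT X g hg a τ v r
    let _ := algU hU
    have hinv : ∀ x : U, ((k + l) * (k + l) + 1).factorial • x = 0 → x = 0 := by
      intro x hx
      obtain ⟨u, hu⟩ := hU
      have h1 : (D : U) * x = 0 := by
        rw [hDef, Nat.cast_mul, mul_assoc, ← nsmul_eq_mul (((k + l) * (k + l) + 1).factorial) x,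
          hx, mul_zero]
      rw [← hu] at h1
      have h2 := congrArg (fun y => ((u⁻¹ : Uˣ) : U) * y) h1
      simpa [← mul_assoc] using h2
    have h1 := h U (typeKL_of hD hU hT) hinv g hg a τ v r
    have h2 : ic D _ (y0 * MonoidAlgebra.of ℤ _ τ)
        = ((algebraMap ℤ (Lam D) D) ^ e) • (Y0 * MonoidAlgebra.of (Lam D) _ τ) := by
      rw [map_mul, hy0, ic_of, smul_mul_assoc]
    rw [← fv_ic (D := D), h2, fv_lsmul, mul_smul_comm, h1, smul_zero]

end p3

end Pool.PI34.Super

end

/-! ### part Q2 -/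
section

/-!
PI34, file Q2: restriction of multilinear functions to some of the variables.
-/

set_option linter.unusedSectionVars false
set_option linter.unusedSimpArgs false

namespace Pool.PI34.Super

open Equiv Finset
open Pool.PI34.C0 (capMono)

section lists

variable {R : Type} [Ring R] {m n : ℕ}

theorem mon_list (l : List (Fin m ⊕ R)) : ∀ (n : ℕ) (c : Fin n → Fin m),
    List.ofFn c = l.filterMap Sum.getLeft? → ∃ v : Fin (n + 1) → R, ∀ x : Fin m → R,
      (l.map (Sum.elim x id)).prod = v 0 * (List.ofFn fun i : Fin n => x (c i) * v i.succ).prod := by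
  induction l with
  | nil =>
    intro n c h
    cases n with
    | zero => exact ⟨fun _ => 1, fun x => by simp⟩
    | succ n => rw [List.ofFn_succ] at h; simp at h
  | cons e l ih =>
    intro n c h
    rcases e with i | a
    · rw [List.filterMap_cons_some (f := Sum.getLeft?) (a := Sum.inl i) (b := i) rfl] at h
      cases n with
      | zero => rw [List.ofFn_zero] at h; simp at h
      | succ n =>
        rw [List.ofFn_succ, List.cons.injEq] at h
        obtain ⟨h0, h1⟩ := h
        obtain ⟨v, hv⟩ := ih n _ h1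
        refine ⟨Fin.cons 1 v, fun x => ?_⟩
        rw [List.map_cons, List.prod_cons, hv x, List.ofFn_succ, List.prod_cons, h0]
        simp only [Sum.elim_inl, Fin.cons_zero, Fin.cons_succ, one_mul, mul_assoc]
    · rw [List.filterMap_cons_none rfl] at h
      obtain ⟨v, hv⟩ := ih n c h
      refine ⟨Fin.cons (a * v 0) (fun i => v i.succ), fun x => ?_⟩
      rw [List.map_cons, List.prod_cons, hv x]
      simp only [Sum.elim_inr, Fin.cons_zero, Fin.cons_succ, id, mul_assoc]

open Classical in
/-- overwrite the variables in the range of `φ` -/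
noncomputable def ov (φ : Fin m ↪o Fin n) (x : Fin m → R) (r : Fin n → R) : Fin n → R := fun i =>
  if h : ∃ a, φ a = i then x h.choose else r i

theorem ov_in (φ : Fin m ↪o Fin n) (x : Fin m → R) (r : Fin n → R) (a : Fin m) :
    ov φ x r (φ a) = x a := by
  have h : ∃ b, φ b = φ a := ⟨a, rfl⟩
  unfold ov
  rw [dif_pos h, φ.injective h.choose_spec]

theorem ov_out (φ : Fin m ↪o Fin n) (x : Fin m → R) (r : Fin n → R) (i : Fin n)
    (h : i ∉ Set.range φ) : ov φ x r i = r i := by
  exact dif_neg (fun h2 => h h2)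

open Classical in
theorem mon_res (v : Fin (n + 1) → R) (τ : Perm (Fin n)) (φ : Fin m ↪o Fin n) (r : Fin n → R) :
    ∃ (v' : Fin (m + 1) → R) (τ' : Perm (Fin m)), ∀ x : Fin m → R,
      capMono v (ov φ x r) τ = capMono v' x τ' := by
  let e : Fin n → Fin m ⊕ R := fun i =>
    if h : ∃ a, φ a = i then Sum.inl h.choose else Sum.inr (r i)
  have he : ∀ x i, Sum.elim x id (e i) = ov φ x r i := by
    intro x i
    unfold ov
    simp only [e]
    split_ifs <;> rfl
  let l : List (Fin m ⊕ R) := Sum.inr (v 0) ::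
    (List.ofFn fun i => [e (τ i), Sum.inr (v i.succ)]).flatten
  set s := l.filterMap Sum.getLeft? with hs
  have hs1 : s = (List.ofFn τ).filterMap (fun i => (e i).getLeft?) := by
    rw [hs]
    simp only [l]
    rw [List.filterMap_cons_none rfl, List.filterMap_flatten, List.map_ofFn]
    have h1 : (List.filterMap Sum.getLeft? ∘ fun i => [e (τ i), Sum.inr (v i.succ)])
        = fun i : Fin n => ((e (τ i)).getLeft?).toList := by
      funext i
      rw [Function.comp_apply]
      rcases h : e (τ i) with a | a <;> simp [h]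
    rw [h1, List.filterMap_eq_flatMap_toList, List.flatMap_def, List.map_ofFn]
    rfl
  have hge : ∀ i a, (e i).getLeft? = some a → i = φ a := by
    intro i a h
    simp only [e] at h
    split_ifs at h with h2
    · rw [Sum.getLeft?_inl, Option.some.injEq] at h
      rw [← h, h2.choose_spec]
    · simp at h
  have hge2 : ∀ a, (e (φ a)).getLeft? = some a := by
    intro a
    have h : ∃ b, φ b = φ a := ⟨a, rfl⟩
    simp only [e]
    rw [dif_pos h, Sum.getLeft?_inl, φ.injective h.choose_spec]
  have hnd : s.Nodup := by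
    rw [hs1]
    refine List.Nodup.filterMap (fun i i' a h h' => ?_) ?_
    · rw [hge i a h, hge i' a h']
    · rw [List.nodup_ofFn]
      exact τ.injective
  have hmem : ∀ a, a ∈ s := by
    intro a
    rw [hs1, List.mem_filterMap]
    exact ⟨φ a, (List.mem_ofFn' _ _).2 ⟨τ.symm (φ a), τ.apply_symm_apply _⟩, hge2 a⟩
  have hperm : s.Perm (List.ofFn (1 : Perm (Fin m))) := by
    rw [List.perm_ext_iff_of_nodup hnd (List.nodup_ofFn.2 (Equiv.injective _))]
    intro a
    exact ⟨fun _ => (List.mem_ofFn' _ _).2 ⟨a, rfl⟩, fun _ => hmem a⟩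
  obtain ⟨τ', hτ'⟩ := C0.a4_perm 1 s hperm
  obtain ⟨v', hv'⟩ := mon_list l m τ' hτ'
  refine ⟨v', τ', fun x => ?_⟩
  unfold capMono
  rw [← hv' x]
  simp only [l]
  rw [List.map_cons, List.prod_cons, Sum.elim_inr, id, List.map_flatten, List.map_ofFn,
    List.prod_flatten, List.map_ofFn]
  congr 3
  funext i
  simp only [Function.comp_apply, List.map_cons, List.map_nil, List.prod_cons, List.prod_nil,
    mul_one, Sum.elim_inr, id]
  rw [he]

end lists

section res

variable {Λ : Type} [CommRing Λ] {R : Type} [Ring R] [Algebra Λ R] {m n : ℕ}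

theorem VL_res (F : (Fin n → R) → R) (hF : F ∈ VL Λ R n) (φ : Fin m ↪o Fin n) (r : Fin n → R) :
    (fun x => F (ov φ x r)) ∈ VL Λ R m := by
  unfold VL at hF
  induction hF using Submodule.span_induction with
  | mem G hG =>
    obtain ⟨v, τ, rfl⟩ := hG
    obtain ⟨v', τ', h⟩ := mon_res v τ φ r
    exact Submodule.subset_span ⟨v', τ', funext h⟩
  | zero => exact Submodule.zero_mem _
  | add G H _ _ hG hH => exact Submodule.add_mem _ hG hH
  | smul c G _ hG => exact Submodule.smul_mem _ c hG

theorem aL_pl_apply (φ : Fin m ↪o Fin n) (y : MonoidAlgebra Λ (Perm (Fin m)))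
    (F : VL Λ R n) (r : Fin n → R) :
    (aL Λ R n (plL Λ φ y) F).1 r
      = (aL Λ R m y ⟨fun x => F.1 (ov φ x r), VL_res F.1 F.2 φ r⟩).1 (r ∘ φ) := by
  induction y using MonoidAlgebra.induction_on with
  | of σ =>
    rw [plL_of, aL_of, aL_of]
    change F.1 (r ∘ ext φ σ) = F.1 (ov φ ((r ∘ φ) ∘ σ) r)
    have h1 : r ∘ ext φ σ = ov φ ((r ∘ φ) ∘ σ) r := ?_
    · rw [h1]
    funext i
    by_cases hi : i ∈ Set.range φ
    · obtain ⟨a, rfl⟩ := hi
      rw [ov_in, Function.comp_apply, ext_apply]
      rfl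
    · rw [ov_out _ _ _ _ hi, Function.comp_apply, ext_apply' _ _ _ hi]
  | add x y hx hy =>
    rw [map_add, map_add, map_add, LinearMap.add_apply, LinearMap.add_apply]
    change (aL Λ R n (plL Λ φ x) F).1 r + (aL Λ R n (plL Λ φ y) F).1 r = _
    rw [hx, hy]
    rfl
  | smul c x hx =>
    rw [plL_smul, map_smul, map_smul, LinearMap.smul_apply, LinearMap.smul_apply]
    change c • (aL Λ R n (plL Λ φ x) F).1 r = _
    rw [hx]
    rfl

theorem aL_pl (φ : Fin m ↪o Fin n) (y : MonoidAlgebra Λ (Perm (Fin m)))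
    (hy : aL Λ R m y = 0) : aL Λ R n (plL Λ φ y) = 0 := by
  refine endL_ext fun F r => ?_
  rw [aL_pl_apply, hy]
  rfl

theorem aL_eq_zero (y : MonoidAlgebra Λ (Perm (Fin n)))
    (h : ∀ (τ : Perm (Fin n)) (v : Fin (n + 1) → R) (r : Fin n → R),
      fv (y * MonoidAlgebra.of Λ _ τ) v r = 0) : aL Λ R n y = 0 := by
  refine endL_ext fun F r => ?_
  obtain ⟨F, hF⟩ := F
  change (aL Λ R n y ⟨F, hF⟩).1 r = 0
  have key : ∀ F (hF : F ∈ VL Λ R n), ∀ r, (aL Λ R n y ⟨F, hF⟩).1 r = 0 := by
    intro F hF
    have hF' := hF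
    unfold VL at hF
    induction hF using Submodule.span_induction with
    | mem G hG =>
      intro r
      obtain ⟨v, τ, rfl⟩ := hG
      have h1 : (⟨fun r => capMono v r τ, hF'⟩ : VL Λ R n)
          = sL τ (monV v 1) := rfl
      rw [h1, ← aL_of, ← Module.End.mul_apply, ← map_mul, aL_fv]
      exact h τ v r
    | zero =>
      intro r
      have h1 : (⟨0, hF'⟩ : VL Λ R n) = 0 := rfl
      rw [h1, map_zero]; rfl
    | add G H hG1 hH1 hG hH =>
      intro r
      have h1 : (⟨G + H, hF'⟩ : VL Λ R n) = ⟨G, hG1⟩ + ⟨H, hH1⟩ := rfl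
      rw [h1, map_add]
      change (aL Λ R n y ⟨G, hG1⟩).1 r + (aL Λ R n y ⟨H, hH1⟩).1 r = 0
      rw [hG hG1, hH hH1, add_zero]
    | smul c G hG1 hG =>
      intro r
      have h1 : (⟨c • G, hF'⟩ : VL Λ R n) = c • ⟨G, hG1⟩ := rfl
      rw [h1, map_smul]
      change c • (aL Λ R n y ⟨G, hG1⟩).1 r = 0
      rw [hG hG1, smul_zero]
  exact key F hF r

theorem fv_mul (c y : MonoidAlgebra Λ (Perm (Fin n))) (v : Fin (n + 1) → R) (r : Fin n → R) :
    fv (c * y) v r = ∑ σ, c.coeff σ • fv y v (r ∘ σ) := by
  rw [← aL_fv, map_mul, Module.End.mul_apply]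
  have h : ∀ (c : MonoidAlgebra Λ (Perm (Fin n))) (F : VL Λ R n), (aL Λ R n c F).1 r
      = ∑ σ, c.coeff σ • F.1 (r ∘ σ) := by
    intro c F
    induction c using MonoidAlgebra.induction_on with
    | of g =>
      rw [aL_of, Finset.sum_eq_single g]
      · simp only [MonoidAlgebra.of_apply, MonoidAlgebra.coeff_single, Finsupp.single_eq_same,
          one_smul]
        rfl
      · intro b _ hb
        simp only [MonoidAlgebra.of_apply, MonoidAlgebra.coeff_single]
        rw [Finsupp.single_eq_of_ne hb, zero_smul]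
      · intro h; exact absurd (Finset.mem_univ _) h
    | add x y hx hy =>
      rw [map_add, LinearMap.add_apply]
      change (aL Λ R n x F).1 r + (aL Λ R n y F).1 r = _
      rw [hx, hy, ← Finset.sum_add_distrib]
      refine Finset.sum_congr rfl (fun σ _ => ?_)
      rw [MonoidAlgebra.coeff_add, Finsupp.add_apply, add_smul]
    | smul c x hx =>
      rw [map_smul, LinearMap.smul_apply]
      change c • (aL Λ R n x F).1 r = _
      rw [hx, Finset.smul_sum]
      refine Finset.sum_congr rfl (fun σ _ => ?_)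
      rw [MonoidAlgebra.coeff_smul, Finsupp.smul_apply, smul_smul, smul_eq_mul]
  rw [h]
  exact Finset.sum_congr rfl (fun σ _ => by rw [aL_fv])

end res

end Pool.PI34.Super

end

/-! ### part Q3 -/
section

/-!
PI34, file Q3: a ring with a polynomial identity is rationally of type `(k|k)` for large `k`.
-/

set_option linter.unusedSectionVars false
set_option linter.unusedSimpArgs false

namespace Pool.PI34.Super

open Equiv Finset
open Pool.PI34.C0 (capMono mono)

section ideal

variable (R : Type) [Ring R] (M : ℕ)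

/-- the elements of `ℤ[S_M]` which vanish on `R` up to torsion -/
def IR : Ideal (MonoidAlgebra ℤ (Perm (Fin M))) where
  carrier := {y | ∃ N : ℕ, 0 < N ∧ ∀ (v : Fin (M + 1) → R) (x : Fin M → R), N • fv y v x = 0}
  zero_mem' := ⟨1, one_pos, fun v x => by simp [fv]⟩
  add_mem' := by
    rintro a b ⟨N, hN, ha⟩ ⟨N', hN', hb⟩
    refine ⟨N * N', Nat.mul_pos hN hN', fun v x => ?_⟩
    have h1 : fv (a + b) v x = fv a v x + fv b v x := by
      unfold fv
      rw [← Finset.sum_add_distrib]
      refine Finset.sum_congr rfl (fun σ _ => ?_)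
      rw [MonoidAlgebra.coeff_add, Finsupp.add_apply, add_smul]
    rw [h1, smul_add, mul_comm N N', mul_smul, ha, smul_zero, zero_add, mul_comm N' N, mul_smul,
      hb, smul_zero]
  smul_mem' := by
    rintro c y ⟨N, hN, hy⟩
    refine ⟨N, hN, fun v x => ?_⟩
    rw [smul_eq_mul, fv_mul, Finset.smul_sum]
    refine Finset.sum_eq_zero (fun σ _ => ?_)
    rw [smul_comm, hy, smul_zero]

theorem mem_IR (y : MonoidAlgebra ℤ (Perm (Fin M))) : y ∈ IR R M ↔
    ∃ N : ℕ, 0 < N ∧ ∀ (v : Fin (M + 1) → R) (x : Fin M → R), N • fv y v x = 0 := Iff.rfl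

/-- the quotient -/
abbrev QR : Type := MonoidAlgebra ℤ (Perm (Fin M)) ⧸ IR R M

theorem QR_tf (n : ℤ) (hn : n ≠ 0) (q : QR R M) (hq : n • q = 0) : q = 0 := by
  obtain ⟨y, rfl⟩ := Submodule.Quotient.mk_surjective _ q
  rw [← Submodule.Quotient.mk_smul, Submodule.Quotient.mk_eq_zero] at hq
  rw [Submodule.Quotient.mk_eq_zero]
  obtain ⟨N, hN, h⟩ := hq
  refine ⟨N * n.natAbs, Nat.mul_pos hN (Int.natAbs_pos.2 hn), fun v x => ?_⟩
  have h1 := h v x
  rw [fv_zsmul] at h1
  have h2 : ((N * n.natAbs : ℕ) : ℤ) = n.sign * (N * n) := by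
    push_cast
    rcases lt_or_gt_of_ne hn with h3 | h3
    · rw [Int.sign_eq_neg_one_of_neg h3, abs_of_neg h3]; ring
    · rw [Int.sign_eq_one_of_pos h3, abs_of_pos h3]; ring
  rw [← natCast_zsmul, h2, mul_smul, mul_smul, natCast_zsmul, h1, smul_zero]

theorem QR_fin : Module.Finite ℤ (QR R M) := by
  classical
  have h1 : Module.Finite ℤ (MonoidAlgebra ℤ (Perm (Fin M))) := by
    refine ⟨⟨univ.image (fun g => MonoidAlgebra.of ℤ (Perm (Fin M)) g), ?_⟩⟩
    rw [eq_top_iff]
    intro y _
    induction y using MonoidAlgebra.induction_on with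
    | of g => exact Submodule.subset_span (by simp)
    | add x y hx hy => exact Submodule.add_mem _ (hx trivial) (hy trivial)
    | smul r x hx => exact Submodule.smul_mem _ _ (hx trivial)
  let f : MonoidAlgebra ℤ (Perm (Fin M)) →ₗ[ℤ] QR R M :=
    (Submodule.mkQ (IR R M)).toAddMonoidHom.toIntLinearMap
  exact Module.Finite.of_surjective f (Submodule.Quotient.mk_surjective _)

/-- the function of the monomials -/
def Psi (ι : Perm (Fin M) → Perm (Fin (2 * M + 1))) :
    MonoidAlgebra ℤ (Perm (Fin M)) →ₗ[ℤ] ((Fin (2 * M + 1) → R) → R) where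
  toFun c := fun z => ∑ σ, c.coeff σ • mono z (ι σ)
  map_add' a b := by
    funext z
    rw [Pi.add_apply, ← Finset.sum_add_distrib]
    refine Finset.sum_congr rfl (fun σ _ => ?_)
    rw [MonoidAlgebra.coeff_add, Finsupp.add_apply, add_smul]
  map_smul' n a := by
    funext z
    rw [Pi.smul_apply, RingHom.id_apply, Finset.smul_sum]
    refine Finset.sum_congr rfl (fun σ _ => ?_)
    rw [MonoidAlgebra.coeff_smul, Finsupp.smul_apply, smul_smul, smul_eq_mul]

theorem QR_gen (d : ℕ) (a : Perm (Fin (d + 1)) → ℤ) (ha : a 1 = 1)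
    (hPI : ∀ x : Fin (d + 1) → R, ∑ σ, a σ • mono x σ = 0) :
    ∃ F ≤ d ^ (2 * (2 * M + 1)), ∃ f : Fin F → QR R M,
      AddSubgroup.closure (Set.range f) = ⊤ := by
  classical
  have := QR_fin R M
  have htf : Module.IsTorsionFree ℤ (QR R M) := by
    refine Module.isTorsionFree_iff_smul_eq_zero.2 (fun n q h => ?_)
    by_cases hn : n = 0
    · exact Or.inl hn
    · exact Or.inr (QR_tf R M n hn q h)
  have hfree : Module.Free ℤ (QR R M) := inferInstance
  let b := Module.finBasis ℤ (QR R M)
  refine ⟨Module.finrank ℤ (QR R M), ?_, b, ?_⟩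
  · obtain ⟨ι, hι, hcap⟩ := C0.capMono_eq_mono M
    choose c hc using fun i => Submodule.Quotient.mk_surjective (IR R M) (b i)
    let Ψ := Psi R M ι
    have hlin : LinearIndependent ℤ (fun i => Ψ (c i)) := by
      rw [Fintype.linearIndependent_iff]
      intro g hg
      have h1 : Ψ (∑ i, g i • c i) = 0 := by
        rw [map_sum, ← hg]
        exact Finset.sum_congr rfl (fun i _ => map_zsmul Ψ _ _)
      have h2 : (∑ i, g i • c i) ∈ IR R M := by
        refine ⟨1, one_pos, fun v x => ?_⟩
        obtain ⟨z, _, hz⟩ := hcap v x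
        rw [one_smul]
        have h3 := congrFun h1 z
        change ∑ σ, (∑ i, g i • c i).coeff σ • mono z (ι σ) = 0 at h3
        unfold fv
        rw [← h3]
        exact Finset.sum_congr rfl (fun σ _ => by rw [hz])
      have h3 : ∑ i, g i • b i = 0 := by
        rw [← (Submodule.Quotient.mk_eq_zero _).2 h2]
        have h4 : (Submodule.Quotient.mk (∑ i, g i • c i) : QR R M)
            = ∑ i, g i • (Submodule.Quotient.mk (c i) : QR R M) := by
          change (Submodule.mkQ (IR R M)).toAddMonoidHom (∑ i, g i • c i) = _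
          rw [map_sum]
          exact Finset.sum_congr rfl (fun i _ => map_zsmul _ _ _)
        rw [h4]
        exact Finset.sum_congr rfl (fun i _ => by rw [hc])
      exact (Fintype.linearIndependent_iff.1 b.linearIndependent) g h3
    let w : Set ((Fin (2 * M + 1) → R) → R) :=
      Set.range (fun τ : {σ : Perm (Fin (2 * M + 1)) // C0.Good (d + 1) σ} =>
        (fun z => mono z τ.1 : (Fin (2 * M + 1) → R) → R))
    have hw : Set.range (fun i => Ψ (c i)) ≤ (Submodule.span ℤ w : Set _) := by
      rintro _ ⟨i, rfl⟩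
      obtain ⟨c1, hc1⟩ := C0.b2_push ι (fun σ => (c i).coeff σ)
      obtain ⟨c', hc', hred⟩ := C0.reduce_good (⊤ : NonUnitalSubring R) a ha
        (fun x _ => hPI x) c1
      have h1 : Ψ (c i) = ∑ τ, c' τ • (fun z => mono z τ : (Fin (2 * M + 1) → R) → R) := by
        funext z
        rw [Finset.sum_apply]
        change ∑ σ, (c i).coeff σ • mono z (ι σ) = ∑ τ, c' τ • mono z τ
        rw [← hred z (fun _ => trivial), hc1]
      change Ψ (c i) ∈ Submodule.span ℤ w
      rw [h1]
      refine Submodule.sum_mem _ (fun τ _ => ?_)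
      by_cases h2 : c' τ = 0
      · rw [h2, zero_smul]; exact Submodule.zero_mem _
      · exact Submodule.smul_mem _ _ (Submodule.subset_span ⟨⟨τ, hc' τ h2⟩, rfl⟩)
    have h1 := linearIndependent_le_span' _ hlin w hw
    rw [Cardinal.mk_fintype, Fintype.card_fin, Nat.cast_le] at h1
    refine h1.trans ?_
    have h2 : Fintype.card w ≤ Fintype.card {σ : Perm (Fin (2 * M + 1)) // C0.Good (d + 1) σ} :=
      Fintype.card_range_le _
    refine h2.trans ?_
    have h3 := C0.card_good_le d (2 * M + 1)
    rw [Nat.card_eq_fintype_card] at h3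
    exact h3
  · rw [eq_top_iff]
    intro q _
    rw [← b.sum_repr q]
    exact AddSubgroup.sum_mem _ (fun i _ => AddSubgroup.zsmul_mem _
      (AddSubgroup.subset_closure (Set.mem_range_self i)) _)

end ideal

end Pool.PI34.Super

end
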