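import Pool.Agent.LibPI54.M04
import Pool.Agent.LibPI54.M05
import Pool.Agent.LibPI54.M37
import Pool.Agent.LibPI54.M40
import Pool.Agent.LibPI54.M44

/-! ### part V_Theta -/
section

/-!
PI34, block VAL, file 1: the coefficient of a multilinear monomial in the generic determinant.
-/

set_option autoImplicit false
set_option linter.unusedSectionVars false

namespace Pool.PI34.VL

open Equiv Finset Matrix

section det

variable {R A A0 : Type} [CommRing R] [Fintype A] [DecidableEq A] [Fintype A0] [DecidableEq A0]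
variable {k : ℕ}

/-- the multilinear monomial of the permutation `σ` -/
noncomputable def mon (d : A0 ↪ A) (σ : Perm A0) : A × A →₀ ℕ :=
  ∑ a, Finsupp.single (d (σ a), d a) 1

/-- the graph of the word `w` -/
def gr (d : A0 ↪ A) (w : A0 → Fin k) : A0 ↪ A × Fin k :=
  ⟨fun a => (d a, w a), fun _ _ h => d.injective (Prod.mk.inj h).1⟩

theorem mon_apply (d : A0 ↪ A) (σ : Perm A0) (v : A × A) :
    mon d σ v = if ∃ a, v = (d (σ a), d a) then 1 else 0 := by
  unfold mon
  rw [Finsupp.finsetSum_apply]
  split_ifs with h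
  · obtain ⟨a, rfl⟩ := h
    rw [Finset.sum_eq_single a]
    · rw [Finsupp.single_eq_same]
    · intro b _ hb
      rw [Finsupp.single_apply, if_neg]
      intro h2
      exact hb (d.injective (Prod.mk.inj h2).2)
    · intro h2
      exact absurd (mem_univ a) h2
  · refine Finset.sum_eq_zero fun a _ => ?_
    rw [Finsupp.single_apply, if_neg]
    intro h2
    exact h ⟨a, h2.symm⟩

/-- the sets of columns which give the monomial of `σ` -/
theorem graph_of_sum (d : A0 ↪ A) (σ : Perm A0) (τ : Perm (A × Fin k)) (S : Finset (A × Fin k))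
    (hτ : ∀ u, u ∉ S → τ u = u)
    (hS : ∑ u ∈ S, Finsupp.single ((τ u).1, u.1) 1 = mon d σ) :
    ∃ w : A0 → Fin k, S = univ.map (gr d w) ∧ τ = σ.viaEmbedding (gr d w) := by
  classical
  -- each column of `S` lies over `A0`
  have h1 : ∀ u ∈ S, ∃ a, ((τ u).1, u.1) = (d (σ a), d a) := by
    intro u hu
    by_contra hne
    have h2 := DFunLike.congr_fun hS ((τ u).1, u.1)
    rw [mon_apply, if_neg hne, Finsupp.finsetSum_apply] at h2
    have h3 := (Finset.sum_eq_zero_iff.1 h2) u hu
    rw [Finsupp.single_eq_same] at h3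
    exact one_ne_zero h3
  -- exactly one column over each element
  have h4 : ∀ a, ∃ u ∈ S, u.1 = d a ∧ (τ u).1 = d (σ a) := by
    intro a
    by_contra hne
    push Not at hne
    have h2 := DFunLike.congr_fun hS (d (σ a), d a)
    rw [mon_apply, if_pos ⟨a, rfl⟩, Finsupp.finsetSum_apply] at h2
    have h3 : ∑ u ∈ S, (Finsupp.single ((τ u).1, u.1) 1 : A × A →₀ ℕ) (d (σ a), d a) = 0 := by
      refine Finset.sum_eq_zero fun u hu => ?_
      rw [Finsupp.single_apply, if_neg]
      intro h5
      exact hne u hu (Prod.mk.inj h5).2 (Prod.mk.inj h5).1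
    rw [h3] at h2
    exact zero_ne_one h2
  have h6 : ∀ u ∈ S, ∀ v ∈ S, u.1 = v.1 → u = v := by
    intro u hu v hv huv
    by_contra hne
    obtain ⟨a, ha⟩ := h1 u hu
    obtain ⟨b, hb⟩ := h1 v hv
    have hab : a = b := d.injective (by
      have e1 := (Prod.mk.inj ha).2
      have e2 := (Prod.mk.inj hb).2
      rw [← e1, ← e2, huv])
    subst hab
    have h2 := DFunLike.congr_fun hS (d (σ a), d a)
    rw [mon_apply, if_pos ⟨a, rfl⟩, Finsupp.finsetSum_apply] at h2
    have h3 : ∑ x ∈ ({u, v} : Finset (A × Fin k)),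
        (Finsupp.single ((τ x).1, x.1) 1 : A × A →₀ ℕ) (d (σ a), d a) ≤
        ∑ x ∈ S, (Finsupp.single ((τ x).1, x.1) 1 : A × A →₀ ℕ) (d (σ a), d a) := by
      refine Finset.sum_le_sum_of_subset ?_
      intro x hx
      rw [Finset.mem_insert, Finset.mem_singleton] at hx
      rcases hx with rfl | rfl
      · exact hu
      · exact hv
    rw [Finset.sum_pair hne, ha, hb, Finsupp.single_eq_same, h2] at h3
    omega
  choose u hu hu1 hu2 using h4
  have hw : ∀ a, u a = gr d (fun a => (u a).2) a := fun a => Prod.ext (hu1 a) rfl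
  have hS' : S = univ.map (gr d fun a => (u a).2) := by
    ext v
    rw [Finset.mem_map]
    constructor
    · intro hv
      obtain ⟨a, ha⟩ := h1 v hv
      refine ⟨a, mem_univ a, ?_⟩
      rw [← hw]
      exact h6 _ (hu a) _ hv ((hu1 a).trans (Prod.mk.inj ha).2.symm)
    · rintro ⟨a, _, rfl⟩
      rw [← hw]
      exact hu a
  refine ⟨fun a => (u a).2, hS', ?_⟩
  ext1 v
  by_cases hv : v ∈ S
  · have hv' := hv
    rw [hS', Finset.mem_map] at hv'
    obtain ⟨a, _, rfl⟩ := hv'
    rw [Perm.viaEmbedding_apply, ← hw, ← hw]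
    -- `τ (u a) ∈ S`
    have h7 : τ (u a) ∈ S := by
      by_contra h8
      have h9 : u a = τ (u a) := τ.injective (hτ _ h8).symm
      rw [← h9] at h8
      exact h8 (hu a)
    exact h6 _ h7 _ (hu _) ((hu2 a).trans (hu1 _).symm)
  · rw [hτ v hv, Perm.viaEmbedding_apply_of_notMem]
    rintro ⟨a, rfl⟩
    exact hv (hS' ▸ Finset.mem_map_of_mem _ (mem_univ a))

theorem gr_injective (d : A0 ↪ A) {w w' : A0 → Fin k} (h : univ.map (gr d w) = univ.map (gr d w')) :
    w = w' := by
  funext a
  have h1 : gr d w a ∈ univ.map (gr d w') := h ▸ Finset.mem_map_of_mem _ (mem_univ a)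
  rw [Finset.mem_map] at h1
  obtain ⟨b, _, hb⟩ := h1
  have h2 := Prod.mk.inj hb
  have h3 : b = a := d.injective h2.1
  subst h3
  exact h2.2.symm

/-- the coefficient of a multilinear monomial in `det (1 + [X_ab x_b(i,j)])` -/
theorem coeff_det (x : A → Fin k → Fin k → R) (d : A0 ↪ A) (σ : Perm A0) :
    MvPolynomial.coeff (mon d σ) ((1 + Matrix.of fun (u v : A × Fin k) =>
      (MvPolynomial.X (u.1, v.1) * MvPolynomial.C (x v.1 u.2 v.2) :
        MvPolynomial (A × A) R)).det) =
      ((Perm.sign σ : ℤˣ) : ℤ) • ∑ w : A0 → Fin k, ∏ a, x (d a) (w (σ a)) (w a) := by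
  classical
  rw [Matrix.det_apply, MvPolynomial.coeff_sum]
  have h1 : ∀ τ : Perm (A × Fin k), MvPolynomial.coeff (mon d σ)
      (Perm.sign τ • ∏ u, (1 + Matrix.of fun (u v : A × Fin k) =>
        (MvPolynomial.X (u.1, v.1) * MvPolynomial.C (x v.1 u.2 v.2) :
          MvPolynomial (A × A) R)) (τ u) u) =
      ∑ S : Finset (A × Fin k), if (∀ u, u ∉ S → τ u = u) ∧
        ∑ u ∈ S, Finsupp.single ((τ u).1, u.1) 1 = mon d σ then
          ((Perm.sign τ : ℤˣ) : ℤ) • ∏ u ∈ S, x u.1 (τ u).2 u.2 else 0 := by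
    intro τ
    have e1 : ∀ u, (1 + Matrix.of fun (u v : A × Fin k) =>
        (MvPolynomial.X (u.1, v.1) * MvPolynomial.C (x v.1 u.2 v.2) :
          MvPolynomial (A × A) R)) (τ u) u =
        MvPolynomial.monomial (Finsupp.single ((τ u).1, u.1) 1) (x u.1 (τ u).2 u.2) +
          (if τ u = u then 1 else 0) := by
      intro u
      rw [Matrix.add_apply, add_comm, Matrix.of_apply, Matrix.one_apply]
      congr 1
      rw [mul_comm, MvPolynomial.C_mul_X_eq_monomial]
    rw [Finset.prod_congr rfl fun u _ => e1 u, Finset.prod_add, Units.smul_def, Finset.smul_sum,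
      MvPolynomial.coeff_sum, Finset.powerset_univ]
    refine Finset.sum_congr rfl fun S _ => ?_
    have e2 : (∏ u ∈ S, (MvPolynomial.monomial (Finsupp.single ((τ u).1, u.1) 1)
        (x u.1 (τ u).2 u.2) : MvPolynomial (A × A) R)) =
        MvPolynomial.monomial (∑ u ∈ S, Finsupp.single ((τ u).1, u.1) 1)
          (∏ u ∈ S, x u.1 (τ u).2 u.2) :=
      (MvPolynomial.monomial_sum_prod S _ _).symm
    rw [e2]
    by_cases hS : ∀ u, u ∉ S → τ u = u
    · have e3 : (∏ u ∈ univ \ S, (if τ u = u then 1 else 0 : MvPolynomial (A × A) R)) = 1 := by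
        refine Finset.prod_eq_one fun u hu => ?_
        rw [if_pos (hS u (Finset.mem_sdiff.1 hu).2)]
      rw [e3, mul_one, MvPolynomial.coeff_smul, MvPolynomial.coeff_monomial]
      by_cases hm : ∑ u ∈ S, Finsupp.single ((τ u).1, u.1) 1 = mon d σ
      · rw [if_pos hm, if_pos ⟨hS, hm⟩]
      · rw [if_neg hm, if_neg (fun h => hm h.2), smul_zero]
    · have e3 : (∏ u ∈ univ \ S, (if τ u = u then 1 else 0 : MvPolynomial (A × A) R)) = 0 := by
        push Not at hS
        obtain ⟨u, hu, hu'⟩ := hS
        exact Finset.prod_eq_zero (Finset.mem_sdiff.2 ⟨mem_univ u, hu⟩) (if_neg hu')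
      rw [e3, mul_zero, smul_zero, MvPolynomial.coeff_zero, if_neg (fun h => hS h.1)]
  rw [Finset.sum_congr rfl fun τ _ => h1 τ, ← Finset.sum_product', Finset.smul_sum,
    ← Finset.sum_filter]
  symm
  refine Finset.sum_bij (fun w _ => (σ.viaEmbedding (gr d w), univ.map (gr d w))) ?_ ?_ ?_ ?_
  · intro w _
    rw [Finset.mem_filter]
    refine ⟨Finset.mem_product.2 ⟨mem_univ _, mem_univ _⟩, fun u hu => ?_, ?_⟩
    · apply Perm.viaEmbedding_apply_of_notMem
      rintro ⟨a, rfl⟩
      exact hu (Finset.mem_map_of_mem _ (mem_univ a))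
    · rw [Finset.sum_map]
      unfold mon
      refine Finset.sum_congr rfl fun a _ => ?_
      rw [Perm.viaEmbedding_apply]
      rfl
  · intro w _ w' _ h
    exact gr_injective d (Prod.mk.inj h).2
  · intro y hy
    rw [Finset.mem_filter] at hy
    obtain ⟨w, h2, h3⟩ := graph_of_sum d σ y.1 y.2 hy.2.1 hy.2.2
    exact ⟨w, mem_univ w, Prod.ext h3.symm h2.symm⟩
  · intro w _
    rw [Finset.prod_map]
    have e4 : Perm.sign (σ.viaEmbedding (gr d w)) = Perm.sign σ :=
      H4.sign_via (gr d w) σ
    rw [e4]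
    congr 1
    refine Finset.prod_congr rfl fun a _ => ?_
    rw [Perm.viaEmbedding_apply]
    rfl

end det

end Pool.PI34.VL

end

/-! ### part S2_G -/
section

/-!
PI34, block S2 (use of the catalyst lemma H4 in theorem S), file 1: the word automaton.
-/

set_option autoImplicit false

namespace Pool.PI34.SS

open Equiv Finset

section auto

variable {A : Type*} [Ring A] {X : Type} [DecidableEq X]

/-- One letter of the word automaton. -/
def stp (α : X → A) (y : X) (F : List (X × A) → A) : List (X × A) → A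
  | [] => α y * F []
  | q :: l => α y * F (q :: l) + (if q.1 = y then q.2 * F l else 0)

/-- One letter, as an additive endomorphism. -/
def stpHom (α : X → A) (y : X) : AddMonoid.End (List (X × A) → A) where
  toFun := stp α y
  map_zero' := by
    funext l
    cases l <;> simp [stp]
  map_add' F G := by
    funext l
    cases l with
    | nil => simp [stp, mul_add]
    | cons q l =>
      simp only [stp, Pi.add_apply, mul_add]
      split_ifs
      · abel
      · simp

/-- The action of the free ring. -/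
noncomputable def theta (α : X → A) : FA X →+* AddMonoid.End (List (X × A) → A) :=
  FA.lift (stpHom α)

/-- The start. -/
def F0 (X A : Type*) [Ring A] : List (X × A) → A
  | [] => 1
  | _ :: _ => 0

/-- The sum of the products of the words with marked letters. -/
noncomputable def GG (α : X → A) (P : FA X) (l : List (X × A)) : A := theta α P (F0 X A) l

theorem theta_of (α : X → A) (y : X) (F : List (X × A) → A) :
    theta α (FA.of y) F = stp α y F := by
  unfold theta
  rw [FA.lift_of]
  rfl

theorem theta_mul (α : X → A) (P P' : FA X) (F : List (X × A) → A) :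
    theta α (P * P') F = theta α P (theta α P' F) := by
  rw [map_mul]; rfl

theorem theta_add (α : X → A) (P P' : FA X) (F : List (X × A) → A) :
    theta α (P + P') F = theta α P F + theta α P' F := by
  rw [map_add]; rfl

theorem theta_int (α : X → A) (r : ℤ) (F : List (X × A) → A) :
    theta α (r : FA X) F = r • F := by
  rw [map_intCast]
  have : ((r : ℤ) : AddMonoid.End (List (X × A) → A)) = r • 1 := by simp
  rw [this]
  rfl

/-- Induction for relations between functions on lists and elements of another module. -/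
theorem theta_rel {M : Type*} [AddCommGroup M] (α : X → A) (φ : FA X →+* AddMonoid.End M)
    (R : (List (X × A) → A) → M → Prop)
    (hz : ∀ (r : ℤ) F m, R F m → R (r • F) (r • m))
    (ha : ∀ F m F' m', R F m → R F' m' → R (F + F') (m + m'))
    (hs : ∀ y F m, R F m → R (stp α y F) (φ (FA.of y) m)) (P : FA X) :
    ∀ F m, R F m → R (theta α P F) (φ P m) := by
  induction P using FA.induction with
  | h0 r =>
    intro F m h
    rw [theta_int, map_intCast]
    have : ((r : ℤ) : AddMonoid.End M) = r • 1 := by simp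
    rw [this]
    exact hz r F m h
  | h1 y => intro F m h; rw [theta_of]; exact hs y F m h
  | hm u v hu hv =>
    intro F m h
    rw [theta_mul, map_mul]
    exact hu _ _ (hv _ _ h)
  | ha u v hu hv =>
    intro F m h
    rw [theta_add, map_add]
    exact ha _ _ _ _ (hu _ _ h) (hv _ _ h)

end auto

end Pool.PI34.SS

end

/-! ### part S2_Nat -/
section

/-!
PI34, block S2, file 2: naturality, exterior coefficients, multilinearity of the word automaton.
-/

set_option autoImplicit false

namespace Pool.PI34.SS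

open Equiv Finset

section nat

variable {A B : Type*} [Ring A] [Ring B] {X : Type} [DecidableEq X]

theorem GG_natural (ψ : A →+* B) (α : X → A) (P : FA X) (l : List (X × A)) :
    GG (fun y => ψ (α y)) P (l.map (fun q => (q.1, ψ q.2))) = ψ (GG α P l) := by
  have h := theta_rel α (theta (fun y => ψ (α y)))
    (fun F F' => ∀ l : List (X × A), F' (l.map (fun q => (q.1, ψ q.2))) = ψ (F l))
    (fun r F m h l => by
      rw [Pi.smul_apply, Pi.smul_apply, h, map_zsmul])
    (fun F m F' m' h h' l => by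
      rw [Pi.add_apply, Pi.add_apply, h, h', map_add])
    (fun y F m h l => by
      rw [theta_of]
      cases l with
      | nil =>
        simp only [List.map_nil, stp]
        have := h []
        rw [List.map_nil] at this
        rw [this, map_mul]
      | cons q l =>
        simp only [List.map_cons, stp]
        have h1 := h (q :: l)
        rw [List.map_cons] at h1
        rw [h1, h l, map_add, map_mul]
        congr 1
        split_ifs
        · rw [map_mul]
        · rw [map_zero]) P (F0 X A) (F0 X B)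
    (fun l => by
      cases l with
      | nil => simp [F0]
      | cons q l => simp [F0])
  exact h l

theorem GG_ext {b : ℕ} (α : X → A) (P : FA X) (l : List (X × A × Lam b)) :
    GG (fun y => GT.mk (α y) (1 : Lam b)) P (l.map (fun q => (q.1, GT.mk q.2.1 q.2.2))) =
      GT.mk (GG α P (l.map (fun q => (q.1, q.2.1)))) ((l.map (fun q => q.2.2)).prod) := by
  have h := theta_rel α (theta (fun y => GT.mk (α y) (1 : Lam b)))
    (fun F F' => ∀ l : List (X × A × Lam b), F' (l.map (fun q => (q.1, GT.mk q.2.1 q.2.2))) =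
      GT.mk (F (l.map (fun q => (q.1, q.2.1)))) ((l.map (fun q => q.2.2)).prod))
    (fun r F m h l => by
      rw [Pi.smul_apply, Pi.smul_apply, h]
      exact (map_zsmul (GT.mkHom A _) r _).symm)
    (fun F m F' m' h h' l => by
      rw [Pi.add_apply, Pi.add_apply, h, h', GT.mk_add])
    (fun y F m h l => by
      rw [theta_of]
      cases l with
      | nil =>
        simp only [List.map_nil, stp, List.prod_nil]
        have := h []
        rw [List.map_nil, List.map_nil, List.map_nil, List.prod_nil] at this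
        rw [this, GT.mk_mul, one_mul]
      | cons q l =>
        simp only [List.map_cons, stp, List.prod_cons]
        have h1 := h (q :: l)
        rw [List.map_cons, List.map_cons, List.map_cons, List.prod_cons] at h1
        rw [h1, h l, GT.mk_mul, one_mul, GT.mk_add]
        congr 1
        split_ifs
        · rw [GT.mk_mul]
        · rw [GT.mk_zero]) P (F0 X A) (F0 X (GT A b))
    (fun l => by
      cases l with
      | nil => simp [F0]; rfl
      | cons q l => simp [F0, GT.mk_zero])
  exact h l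

end nat

section lin

variable {C A : Type*} [CommRing C] [Ring A] [Algebra C A] {X : Type} [DecidableEq X]

theorem GG_lin (α : X → A) (P : FA X) (l1 : List (X × A)) (d : X) (c : C) (x x' : A)
    (l2 : List (X × A)) :
    GG α P (l1 ++ (d, c • x + x') :: l2) =
      c • GG α P (l1 ++ (d, x) :: l2) + GG α P (l1 ++ (d, x') :: l2) := by
  have h := theta_rel α (theta α)
    (fun F F' => F = F' ∧ ∀ (l1 : List (X × A)) (d : X) (c : C) (x x' : A) (l2 : List (X × A)),
      F (l1 ++ (d, c • x + x') :: l2) = c • F (l1 ++ (d, x) :: l2) + F (l1 ++ (d, x') :: l2))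
    (fun r F m h => ⟨by rw [h.1], fun l1 d c x x' l2 => by
      rw [Pi.smul_apply, Pi.smul_apply, Pi.smul_apply, h.2, smul_add, smul_comm r c]⟩)
    (fun F m F' m' h h' => ⟨by rw [h.1, h'.1], fun l1 d c x x' l2 => by
      rw [Pi.add_apply, Pi.add_apply, Pi.add_apply, h.2, h'.2, smul_add]
      abel⟩)
    (fun y F m h => ⟨by rw [theta_of, h.1], fun l1 d c x x' l2 => by
      cases l1 with
      | nil =>
        simp only [List.nil_append, stp]
        have h1 := h.2 [] d c x x' l2
        simp only [List.nil_append] at h1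
        rw [h1]
        split_ifs
        · rw [mul_add, add_mul, smul_add, mul_smul_comm, smul_mul_assoc]
          abel
        · rw [mul_add, mul_smul_comm]
          simp
      | cons q l1 =>
        simp only [List.cons_append, stp]
        have h1 := h.2 (q :: l1) d c x x' l2
        simp only [List.cons_append] at h1
        rw [h1, h.2]
        split_ifs
        · rw [mul_add, mul_add, smul_add, mul_smul_comm, mul_smul_comm]
          abel
        · rw [mul_add, mul_smul_comm]
          simp⟩) P (F0 X A) (F0 X A)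
    ⟨rfl, fun l1 d c x x' l2 => by
      have h0 : ∀ (l1 : List (X × A)) (q : X × A) (l2 : List (X × A)),
          F0 X A (l1 ++ q :: l2) = 0 := by
        intro l1 q l2
        cases l1 <;> rfl
      rw [h0, h0, h0, smul_zero, add_zero]⟩
  exact h.2 l1 d c x x' l2

theorem ofFn_update {b : ℕ} {γ : Type*} (f : Fin b → γ) (i : Fin b) :
    ∃ l1 l2 : List γ, ∀ x, List.ofFn (Function.update f i x) = l1 ++ x :: l2 := by
  induction b with
  | zero => exact i.elim0
  | succ b ih =>
    refine Fin.cases ?_ (fun j => ?_) i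
    · refine ⟨[], List.ofFn (fun j => f j.succ), fun x => ?_⟩
      rw [List.ofFn_succ, Function.update_self, List.nil_append]
      congr 1
    · obtain ⟨l1, l2, h⟩ := ih (fun j => f j.succ) j
      refine ⟨f 0 :: l1, l2, fun x => ?_⟩
      rw [List.ofFn_succ, List.cons_append, ← h x]
      congr 1
      congr 1
      funext t
      by_cases ht : t = j
      · subst ht
        rw [Function.update_self, Function.update_self]
      · rw [Function.update_of_ne ht, Function.update_of_ne (fun e => ht (Fin.succ_injective _ e))]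

/-- The word automaton as a multilinear map. -/
noncomputable def GM (C : Type*) [CommRing C] [Algebra C A] (α : X → A) (P : FA X) {b : ℕ}
    (d : Fin b → X) : MultilinearMap C (fun _ : Fin b => A) A :=
  have key : ∀ (m : Fin b → A) (i : Fin b) (c : C) (x x' : A),
      GG α P (List.ofFn (fun j => (d j, Function.update m i (c • x + x') j))) =
        c • GG α P (List.ofFn (fun j => (d j, Function.update m i x j))) +
          GG α P (List.ofFn (fun j => (d j, Function.update m i x' j))) := by
    intro m i c x x'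
    obtain ⟨l1, l2, h⟩ := ofFn_update (fun j => (d j, m j)) i
    have h1 : ∀ x, List.ofFn (fun j => (d j, Function.update m i x j)) = l1 ++ (d i, x) :: l2 := by
      intro x
      rw [← h (d i, x)]
      congr 1
      funext j
      by_cases hj : j = i
      · subst hj
        rw [Function.update_self, Function.update_self]
      · rw [Function.update_of_ne hj, Function.update_of_ne hj]
    rw [h1, h1, h1, GG_lin]
  { toFun := fun β => GG α P (List.ofFn (fun i => (d i, β i)))
    map_update_add' := by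
      intro inst m i x y
      have hi : inst = instDecidableEqFin b := Subsingleton.elim _ _
      subst hi
      have h := key m i 1 x y
      rw [one_smul, one_smul] at h
      exact h
    map_update_smul' := by
      intro inst m i c x
      have hi : inst = instDecidableEqFin b := Subsingleton.elim _ _
      subst hi
      have h := key m i c x 0
      have h0 := key m i (1 : C) 0 0
      rw [one_smul, one_smul, add_zero] at h0
      have h1 : GG α P (List.ofFn (fun j => (d j, Function.update m i 0 j))) = 0 := by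
        have : GG α P (List.ofFn (fun j => (d j, Function.update m i 0 j))) + 0 =
          GG α P (List.ofFn (fun j => (d j, Function.update m i 0 j))) +
            GG α P (List.ofFn (fun j => (d j, Function.update m i 0 j))) := by rw [add_zero]; exact h0
        exact (add_left_cancel this).symm
      rw [h1, add_zero, add_zero] at h
      exact h }

theorem GM_apply (α : X → A) (P : FA X) {b : ℕ} (d : Fin b → X) (β : Fin b → A) :
    GM C α P d β = GG α P (List.ofFn (fun i => (d i, β i))) := rfl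

end lin

/-! ### Evaluation of elements of the group algebra -/

section ev

open Pool.PI34.H4 (P W act)

variable {T M : Type} [Fintype T] [DecidableEq T] [AddCommGroup M]

/-- The additive map with given values on the permutations. -/
noncomputable def evP (φ : Perm T → M) : P T →+ M where
  toFun x := ∑ t, x.coeff t • φ t
  map_zero' := by simp
  map_add' x y := by
    rw [← Finset.sum_add_distrib]
    refine Finset.sum_congr rfl (fun t _ => ?_)
    rw [MonoidAlgebra.coeff_add, Finsupp.add_apply, add_smul]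

theorem evP_g (φ : Perm T → M) (t : Perm T) : evP φ (H4.g t) = φ t := by
  change ∑ s, (H4.g t).coeff s • φ s = φ t
  rw [Finset.sum_eq_single t]
  · simp [H4.g, MonoidAlgebra.of_apply]
  · intro s _ hs
    simp [H4.g, MonoidAlgebra.of_apply, hs.symm]
  · intro h
    exact absurd (mem_univ _) h

/-- Elements which kill the words kill all functions of the words. -/
theorem evP_kill {N : ℕ} {x : P T} (hx : act N T x = 0) (F : (T → Fin N) → M)
    (w : T → Fin N) : evP (fun t => F (w ∘ t)) x = 0 := by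
  have h1 : ∀ w' : T → Fin N, ∑ t, x.coeff t * (if w ∘ t = w' then 1 else 0) = 0 := by
    intro w'
    have h2 : act N T x (Pi.single w' 1) w =
        evP (fun t : Perm T => (if w ∘ t = w' then (1 : ℚ) else 0)) x := by
      refine H4.P_induction (p := fun x => act N T x (Pi.single w' 1) w =
        evP (fun t : Perm T => (if w ∘ t = w' then (1 : ℚ) else 0)) x) x ?_ ?_ ?_
      · intro σ
        rw [H4.act_g, evP_g, Pi.single_apply]
      · intro a b ha hb
        rw [H4.act_add, Pi.add_apply, map_add, ha, hb]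
      · intro n a ha
        rw [H4.act_zsmul, Pi.smul_apply, map_zsmul, ha]
    rw [hx] at h2
    have h3 : (∑ t, x.coeff t • (if w ∘ t = w' then (1 : ℚ) else 0)) = 0 := h2.symm
    have h4 : ((∑ t, x.coeff t * (if w ∘ t = w' then 1 else 0) : ℤ) : ℚ) = 0 := by
      rw [← h3]
      push_cast
      refine Finset.sum_congr rfl (fun t _ => ?_)
      rw [zsmul_eq_mul]
    exact_mod_cast h4
  change ∑ t, x.coeff t • F (w ∘ t) = 0
  have h5 : ∀ t : Perm T, F (w ∘ t) = ∑ w', (if w ∘ t = w' then (1 : ℤ) else 0) • F w' := by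
    intro t
    rw [Finset.sum_eq_single (w ∘ t)]
    · rw [if_pos rfl, one_smul]
    · intro w' _ hw'
      rw [if_neg hw'.symm, zero_smul]
    · intro h
      exact absurd (mem_univ _) h
  rw [Finset.sum_congr rfl (fun t _ => by rw [h5 t, Finset.smul_sum])]
  rw [Finset.sum_comm]
  refine Finset.sum_eq_zero (fun w' _ => ?_)
  rw [Finset.sum_congr rfl (fun t _ => smul_smul _ _ _), ← Finset.sum_smul, h1, zero_smul]

/-- The same for multilinear functions on a free module of rank `N`. -/
theorem evP_multilinear {N : ℕ} {C V M' : Type} [CommRing C] [AddCommGroup V] [Module C V]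
    [AddCommGroup M'] [Module C M'] {x : P T} (hx : act N T x = 0)
    (e : Module.Basis (Fin N) C V) (f : MultilinearMap C (fun _ : T => V) M') (β : T → V) :
    evP (fun t : Perm T => f (β ∘ t)) x = 0 := by
  let G : MultilinearMap C (fun _ : T => V) M' :=
    ∑ t, x.coeff t • f.domDomCongr t
  have hG : ∀ β : T → V, G β = evP (fun t : Perm T => f (β ∘ t)) x := by
    intro β
    change (∑ t, x.coeff t • f.domDomCongr t) β = ∑ t, x.coeff t • f (β ∘ t)
    rw [MultilinearMap.sum_apply]
    exact Finset.sum_congr rfl (fun t _ => rfl)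
  have h0 : G = 0 := by
    refine Module.Basis.ext_multilinear (fun _ => e) (fun w => ?_)
    rw [hG, MultilinearMap.zero_apply]
    exact evP_kill hx (fun w => f (fun i => e (w i))) w
  rw [← hG, h0, MultilinearMap.zero_apply]

end ev

end Pool.PI34.SS

end

/-! ### part V_Pkg -/
section

/-!
PI34, block VAL, file 2: the multilinear coefficients `P_σ` of a string system kill the elements of
the group algebra which act by zero on the words of rank `k`.
-/

set_option autoImplicit false
set_option linter.unusedSectionVars false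

namespace Pool.PI34.VL

open Equiv Finset Matrix
open Pool.PI34.BA
open scoped TensorProduct

section map

variable {X : Type} [Fintype X] [DecidableEq X] {k n : ℕ}
variable {W W' : Type} [AddCommGroup W] [AddCommGroup W']

omit [Fintype X] in
theorem evW_map (P : Mon X n →₀ W) (f : W →ₗ[ℤ] W') (T : Type) [CommRing T]
    (B : Matrix (Option (X × Fin n)) (Option (X × Fin n)) T) :
    evW (P.mapRange f (map_zero f)) T B = f.lTensor T (evW P T B) := by
  unfold evW
  rw [Finsupp.sum_mapRange_index (fun ξ => TensorProduct.tmul_zero _ _)]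
  unfold Finsupp.sum
  rw [map_sum]
  exact Finset.sum_congr rfl fun ξ _ => (LinearMap.lTensor_tmul _ _ _ _).symm

/-- the image of a package -/
noncomputable def mapW (P : Pkg X k n W) (f : W →ₗ[ℤ] W') : Pkg X k n W' where
  P := P.P.mapRange f (map_zero f)
  deg ξ hξ := P.deg ξ fun h => hξ (by rw [Finsupp.mapRange_apply, h, map_zero])
  inv T _ _ B h h' h1 h2 hh := by
    rw [evW_map, evW_map, P.inv T B h h' h1 h2 hh]
  rank T _ _ B u v j hj := by
    rw [evW_map, ← LinearMap.comp_apply, LinearMap.rTensor_comp_lTensor,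
      ← LinearMap.lTensor_comp_rTensor, LinearMap.comp_apply, P.rank T B u v j hj, map_zero]

end map

section kap

variable {X : Type} [Fintype X] [DecidableEq X] {k n : ℕ} {ι : Type} [Fintype ι] [DecidableEq ι]

/-- the rank bound for the images of the `P_ξ` under `κ` -/
theorem rank_kap (p q : Fin k ↪ ι) (z : ι) (hF : Frame p q z) (K : Type) [Field K] [Infinite K] :
    Module.finrank K (FF X k n K) ≤ Module.finrank ℤ (Submodule.span ℤ (Set.range fun ξ =>
      kap X p q z (Pxi (matStr k (CG X k) ι) p q z (gen X k) n ξ))) := by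
  classical
  have h : GEN X k n := A5.GEN_all X k n
  have hfin : Fintype {ξ : Mon X n // GoodMon ξ} := (finite_goodMon X n).fintype
  set Ξ := {ξ : Mon X n // GoodMon ξ} with hΞ
  set Hf : Finset (Option X × Fin k × Fin k →₀ ℕ) :=
    (univ : Finset Ξ).biUnion fun ξ => (thetaXi X k n ξ.1).support with hHf
  set v : Ξ → Hf → ℤ := fun ξ η => (thetaXi X k n ξ.1).coeff η.1 with hv
  let R : MvPolynomial (Option (X × Fin n) × Option (X × Fin n)) K →ₗ[K] (Ξ → K) :=
    LinearMap.pi fun ξ => MvPolynomial.lcoeff K ξ.1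
  have hR : ∀ f ξ, R f ξ = f.coeff ξ.1 := fun f ξ => rfl
  have hth : ∀ η (ξ : Ξ), R (thetaK X k n K η) ξ = (((thetaXi X k n ξ.1).coeff η : ℤ) : K) := by
    intro η ξ
    rw [hR]
    unfold thetaK
    rw [MvPolynomial.coeff_sum]
    simp only [MvPolynomial.coeff_monomial]
    rw [Finset.sum_ite_eq' (theta X k n).support ξ.1]
    split_ifs with h1
    · rfl
    · have h2 : thetaXi X k n ξ.1 = 0 := by
        rw [MvPolynomial.notMem_support_iff] at h1
        exact h1
      rw [h2, MvPolynomial.coeff_zero, Int.cast_zero]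
  have h1 : Module.finrank K (FF X k n K) ≤
      Module.finrank K (Submodule.span K
        (Set.range fun (η : Hf) (ξ : Ξ) => ((v ξ η : ℤ) : K))) := by
    have h2 : (FF X k n K).map R ≤ Submodule.span K
        (Set.range fun (η : Hf) (ξ : Ξ) => ((v ξ η : ℤ) : K)) := by
      refine le_trans (Submodule.map_mono (h K)) ?_
      rw [Submodule.map_span, Submodule.span_le]
      rintro _ ⟨_, ⟨η, rfl⟩, rfl⟩
      by_cases hη : η ∈ Hf
      · refine Submodule.subset_span ⟨⟨η, hη⟩, ?_⟩
        funext ξ
        rw [hth]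
      · have h3 : R (thetaK X k n K η) = 0 := by
          funext ξ
          rw [hth]
          have h4 : (thetaXi X k n ξ.1).coeff η = 0 := by
            rw [← MvPolynomial.notMem_support_iff]
            intro h5
            apply hη
            rw [hHf, Finset.mem_biUnion]
            exact ⟨ξ, mem_univ _, h5⟩
          rw [h4, Int.cast_zero]
          rfl
        rw [h3]
        exact Submodule.zero_mem _
    have hinj : Function.Injective (R.domRestrict (FF X k n K)) := by
      rw [injective_iff_map_eq_zero]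
      rintro ⟨f, hf⟩ h0
      have h3 : ∀ ξ : Ξ, f.coeff ξ.1 = 0 := fun ξ => congrFun h0 ξ
      apply Subtype.ext
      show f = 0
      ext ξ
      rw [MvPolynomial.coeff_zero]
      by_contra hne
      exact hne (h3 ⟨ξ, hf.1 ξ hne⟩)
    have h4 : Module.finrank K (FF X k n K) = Module.finrank K ((FF X k n K).map R) := by
      have h5 := LinearMap.finrank_range_of_inj hinj
      rw [← h5, LinearMap.range_domRestrict]
    rw [h4]
    exact Submodule.finrank_mono h2
  refine le_trans h1 (le_trans (finrank_columns_le v K) ?_)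
  let Lam : CO X k →ₗ[ℤ] (Hf → ℤ) :=
    LinearMap.pi fun η => (MvPolynomial.lcoeff ℤ η.1 : CO X k →ₗ[ℤ] ℤ)
  have hLam : ∀ (ξ : Ξ), Lam (kap X p q z (Pxi (matStr k (CG X k) ι) p q z (gen X k) n ξ.1))
      = v ξ := by
    intro ξ
    funext η
    show (kap X p q z (Pxi (matStr k (CG X k) ι) p q z (gen X k) n ξ.1)).coeff η.1 = v ξ η
    rw [kap_Pxi p q z hF n ξ.1 ξ.2]
  have h6 : Submodule.span ℤ (Set.range v) ≤ (Submodule.span ℤ (Set.range fun ξ =>
      kap X p q z (Pxi (matStr k (CG X k) ι) p q z (gen X k) n ξ))).map Lam := by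
    rw [Submodule.span_le]
    rintro _ ⟨ξ, rfl⟩
    exact ⟨_, Submodule.subset_span ⟨ξ.1, rfl⟩, hLam ξ⟩
  have hfr : (Set.range fun ξ =>
      kap X p q z (Pxi (matStr k (CG X k) ι) p q z (gen X k) n ξ)).Finite := by
    have h7 : (Set.range fun ξ =>
      kap X p q z (Pxi (matStr k (CG X k) ι) p q z (gen X k) n ξ)) =
        kap X p q z '' Set.range (fun ξ => Pxi (matStr k (CG X k) ι) p q z (gen X k) n ξ) := by
      rw [← Set.range_comp]
      rfl
    rw [h7]
    exact (Finsupp.finite_range _).image _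
  have hfg : Module.Finite ℤ (Submodule.span ℤ (Set.range fun ξ =>
      kap X p q z (Pxi (matStr k (CG X k) ι) p q z (gen X k) n ξ))) :=
    Module.Finite.iff_fg.2 (Submodule.fg_span hfr)
  exact le_trans (Submodule.finrank_mono h6) (Submodule.finrank_map_le _ _)

end kap

section ml

variable {n : ℕ}

/-- the diagonal indices -/
def dg (n : ℕ) : Option (Fin n) ↪ Option (Fin n × Fin n) :=
  Function.Embedding.optionMap ⟨fun l => (l, l), fun _ _ h => (Prod.mk.inj h).1⟩

/-- the multilinear monomial of `σ` -/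
noncomputable def mm (σ : Perm (Option (Fin n))) : Mon (Fin n) n := mon (dg n) σ

theorem dg_none : dg n none = none := rfl

theorem dg_some (l : Fin n) : dg n (some l) = some (l, l) := rfl

theorem dg_fst (a : Option (Fin n)) : (dg n a).map Prod.fst = a := by
  cases a <;> rfl

theorem mon_sum_fst {A A0 : Type} [Fintype A] [DecidableEq A] [Fintype A0] [DecidableEq A0]
    (d : A0 ↪ A) (σ : Perm A0) (a : A0) : ∑ b, mon d σ (d a, b) = 1 := by
  rw [Finset.sum_eq_single (d (σ.symm a))]
  · rw [mon_apply, if_pos ⟨σ.symm a, by rw [Equiv.apply_symm_apply]⟩]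
  · intro b _ hb
    rw [mon_apply, if_neg]
    rintro ⟨c, hc⟩
    obtain ⟨h1, h2⟩ := Prod.mk.inj hc
    have h3 := d.injective h1
    rw [h3, Equiv.symm_apply_apply] at hb
    exact hb h2
  · intro h
    exact absurd (mem_univ _) h

theorem mon_sum_snd {A A0 : Type} [Fintype A] [DecidableEq A] [Fintype A0] [DecidableEq A0]
    (d : A0 ↪ A) (σ : Perm A0) (a : A0) : ∑ b, mon d σ (b, d a) = 1 := by
  rw [Finset.sum_eq_single (d (σ a))]
  · rw [mon_apply, if_pos ⟨a, rfl⟩]
  · intro b _ hb
    rw [mon_apply, if_neg]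
    rintro ⟨c, hc⟩
    obtain ⟨h1, h2⟩ := Prod.mk.inj hc
    rw [d.injective h2] at hb
    exact hb h1
  · intro h
    exact absurd (mem_univ _) h

theorem good_mm (σ : Perm (Option (Fin n))) : GoodMon (mm σ) := by
  refine ⟨?_, mon_sum_fst (dg n) σ none, mon_sum_snd (dg n) σ none⟩
  unfold mm mon
  rw [Finsupp.sum_fintype _ _ (fun _ => rfl)]
  simp only [Finsupp.finsetSum_apply]
  rw [Finset.sum_comm]
  have h1 : ∀ a : Option (Fin n), ∑ v : Option (Fin n × Fin n) × Option (Fin n × Fin n),
      (Finsupp.single (dg n (σ a), dg n a) 1 : _ →₀ ℕ) v = 1 := by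
    intro a
    rw [Finset.sum_eq_single (dg n (σ a), dg n a)]
    · exact Finsupp.single_eq_same
    · intro v _ hv
      exact Finsupp.single_eq_of_ne hv
    · intro h
      exact absurd (mem_univ _) h
  rw [Finset.sum_congr rfl fun a _ => h1 a]
  simp

theorem thetaXi_mm (k : ℕ) (σ : Perm (Option (Fin n))) :
    thetaXi (Fin n) k n (mm σ) = ((Perm.sign σ : ℤˣ) : ℤ) •
      ∑ w : Option (Fin n) → Fin k, ∏ a, MvPolynomial.X (a, w (σ a), w a) := by
  have h := coeff_det (R := CO (Fin n) k) (k := k)
    (fun b i j => MvPolynomial.X (b.map Prod.fst, i, j)) (dg n) σ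
  simp only [dg_fst] at h
  exact h

variable {k : ℕ} {ι Φ E : Type} [Fintype ι] [DecidableEq ι] [Ring Φ] [Ring E]

/-- **(V1)** the multilinear coefficients, as an additive map on the group algebra -/
noncomputable def vl (S : Str ι Φ E) (p q : Fin k ↪ ι) (z : ι) (x : Fin n → Φ) :
    H4.P (Option (Fin n)) →+ E :=
  SS.evP fun σ => ((Perm.sign σ : ℤˣ) : ℤ) • Pxi S p q z x n (mm σ)

theorem vl_g (S : Str ι Φ E) (p q : Fin k ↪ ι) (z : ι) (x : Fin n → Φ)
    (σ : Perm (Option (Fin n))) :
    vl S p q z x (H4.g σ) = ((Perm.sign σ : ℤˣ) : ℤ) • Pxi S p q z x n (mm σ) :=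
  SS.evP_g _ _

theorem vl_kill (S : Str ι Φ E) (hA : Anti S.s k) (p q : Fin k ↪ ι) (z : ι) (hF : Frame p q z)
    (x : Fin n → Φ) (y : H4.P (Option (Fin n))) (hy : H4.act k _ y = 0) :
    vl S p q z x y = 0 := by
  classical
  obtain ⟨f1, hf1⟩ : ∃ f : FreeAlgebra ℤ (Fin n) →+* Φ, ∀ a, f (FreeAlgebra.ι ℤ a) = x a :=
    ⟨(FreeAlgebra.lift ℤ x : FreeAlgebra ℤ (Fin n) →ₐ[ℤ] Φ).toRingHom, fun a => by simp⟩
  obtain ⟨f2, hf2⟩ : ∃ f : FreeAlgebra ℤ (Fin n) →+* Matrix (Fin k) (Fin k) (CG (Fin n) k),
      ∀ a, f (FreeAlgebra.ι ℤ a) = gen (Fin n) k a :=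
    ⟨(FreeAlgebra.lift ℤ (gen (Fin n) k) :
      FreeAlgebra ℤ (Fin n) →ₐ[ℤ] Matrix (Fin k) (Fin k) (CG (Fin n) k)).toRingHom,
      fun a => by simp⟩
  have e1 : (fun a => f1 (FreeAlgebra.ι ℤ a)) = x := funext hf1
  have e2 : (fun a => f2 (FreeAlgebra.ι ℤ a)) = gen (Fin n) k := funext hf2
  set SP := (S.comap f1).prod ((matStr k (CG (Fin n) k) ι).comap f2) with hSP
  have hAP : Anti SP.s k :=
    prod_Anti (S.comap f1) ((matStr k (CG (Fin n) k) ι).comap f2) k hA matStr_Anti
  have P1 : ∀ ξ, (Pxi SP p q z (fun a => FreeAlgebra.ι ℤ a) n ξ).1 = Pxi S p q z x n ξ := by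
    intro ξ
    have h := map_Pxi SP S f1 (RingHom.fst E (Module.End (CG (Fin n) k)
      ((ι → Fin k) → CG (Fin n) k)))
      (fun _ _ => rfl) (fun _ => rfl) p q z (fun a => FreeAlgebra.ι ℤ a) n ξ
    rw [e1] at h
    exact h
  have P2 : ∀ ξ, (Pxi SP p q z (fun a => FreeAlgebra.ι ℤ a) n ξ).2 =
      Pxi (matStr k (CG (Fin n) k) ι) p q z (gen (Fin n) k) n ξ := by
    intro ξ
    have h := map_Pxi SP (matStr k (CG (Fin n) k) ι) f2
      (RingHom.snd E (Module.End (CG (Fin n) k) ((ι → Fin k) → CG (Fin n) k)))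
      (fun _ _ => rfl) (fun _ => rfl) p q z (fun a => FreeAlgebra.ι ℤ a) n ξ
    rw [e2] at h
    exact h
  let PK : Pkg (Fin n) k n (E × CO (Fin n) k) :=
    mapW (Str.pkg SP p q z (fun a => FreeAlgebra.ι ℤ a) n hAP hF)
      (LinearMap.prodMap LinearMap.id (kap (Fin n) p q z).toIntLinearMap)
  have Q1 : ∀ ξ, (PK.P ξ).1 = Pxi S p q z x n ξ := fun ξ => P1 ξ
  have Q2 : ∀ ξ, (PK.P ξ).2 =
      kap (Fin n) p q z (Pxi (matStr k (CG (Fin n) k) ι) p q z (gen (Fin n) k) n ξ) := by
    intro ξ
    rw [← P2]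
    rfl
  have hg := glue PK (by
      intro K _ _
      have h3 : (fun ξ => (PK.P ξ).2) = fun ξ =>
          kap (Fin n) p q z (Pxi (matStr k (CG (Fin n) k) ι) p q z (gen (Fin n) k) n ξ) :=
        funext Q2
      rw [h3]
      exact rank_kap p q z hF K)
    (fun σ : Perm (Option (Fin n)) => y.coeff σ * ((Perm.sign σ : ℤˣ) : ℤ)) mm (by
      have h4 : ∀ σ : Perm (Option (Fin n)), (y.coeff σ * ((Perm.sign σ : ℤˣ) : ℤ)) •
          (PK.P (mm σ)).2 = y.coeff σ • ∑ w : Option (Fin n) → Fin k,
            ∏ a, MvPolynomial.X (a, w (σ a), w a) := by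
        intro σ
        rw [Q2, kap_Pxi p q z hF n _ (good_mm σ), thetaXi_mm, smul_smul, mul_assoc,
          H4.sign_sq, mul_one]
      rw [Finset.sum_congr rfl fun σ _ => h4 σ]
      have h5 : ∀ w : Option (Fin n) → Fin k, ∑ σ : Perm (Option (Fin n)), y.coeff σ •
          (∏ a, MvPolynomial.X (a, w (σ a), w a) : CO (Fin n) k) = 0 := fun w =>
        SS.evP_kill hy (fun u => (∏ a, MvPolynomial.X (a, u a, w a) : CO (Fin n) k)) w
      simp only [Finset.smul_sum]
      rw [Finset.sum_comm]
      exact Finset.sum_eq_zero fun w _ => h5 w)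
  change ∑ σ, y.coeff σ • (((Perm.sign σ : ℤˣ) : ℤ) • Pxi S p q z x n (mm σ)) = 0
  rw [← hg]
  refine Finset.sum_congr rfl fun σ _ => ?_
  rw [smul_smul, Q1]

end ml

end Pool.PI34.VL

end

/-! ### part V_Rel -/
section

/-!
PI34, block VAL, file 3: the coefficients `P_ξ` under a permutation of the labels.
-/

set_option autoImplicit false
set_option linter.unusedSectionVars false

namespace Pool.PI34.VL

open Equiv Finset Matrix
open Pool.PI34.BA
open scoped TensorProduct

section pp

variable {ι Φ E : Type} [Fintype ι] [DecidableEq ι] [Ring Φ] [Ring E] (S : Str ι Φ E)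
variable {k : ℕ} (p q : Fin k ↪ ι) (z : ι) {A : Type} [Fintype A] [DecidableEq A]

theorem inv_submatrix (t : Φ) (ht : ∀ x, t * x = x * t) (hn : IsNilpotent t) (N : Matrix A A Φ)
    (e : A ≃ A) : Ring.inverse (1 + t • N.submatrix e e) =
      (Ring.inverse (1 + t • N)).submatrix e e := by
  have h := map_inverse_of_isUnit (Matrix.reindexRingEquiv Φ e.symm).toRingHom (1 + t • N)
    (isUnit_one_add t ht hn N)
  have h1 : (Matrix.reindexRingEquiv Φ e.symm).toRingHom (1 + t • N) =
      1 + t • N.submatrix e e := by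
    rw [map_add, map_one]
    rfl
  rw [h1] at h
  rw [← h]
  rfl

theorem qq_sub (t : Φ) (ht : ∀ x, t * x = x * t) (hn : IsNilpotent t) (x : A → Φ)
    (B : Matrix (Option A) (Option A) Φ) (e : A ≃ A) :
    qq t (fun a => x (e a)) (B.submatrix (optionCongr e) (optionCongr e)) = qq t x B := by
  unfold qq
  have h0 : BX (fun a => x (e a)) (B.submatrix (optionCongr e) (optionCongr e)) =
      (BX x B).submatrix e e := rfl
  rw [h0, inv_submatrix t ht hn]
  congr 2
  let F : A → A → Φ := fun a b => B none (some a) * x a *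
    (Ring.inverse (1 + t • BX x B)) a b * B (some b) none
  change ∑ a, ∑ b, F (e a) (e b) = ∑ a, ∑ b, F a b
  rw [Equiv.sum_comp e (fun a => ∑ b, F a (e b))]
  exact Finset.sum_congr rfl fun a _ => Equiv.sum_comp e (F a)

/-- the permutation matrix conjugation -/
theorem submatrix_conj (N : Matrix A A Φ) (e : A ≃ A) :
    N.submatrix e e = (1 : Matrix A A Φ).submatrix e id * N * (1 : Matrix A A Φ).submatrix id e := by
  ext a b
  simp only [Matrix.mul_apply, Matrix.submatrix_apply, Matrix.one_apply, id_eq]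
  simp

theorem PP_sub (hA : Anti S.s k) (hF : Frame p q z) (t : Φ) (ht : ∀ x, t * x = x * t)
    (hn : IsNilpotent t) (x : A → Φ) (B : Matrix (Option A) (Option A) Φ) (e : A ≃ A) :
    S.PP p q z t (fun a => x (e a)) (B.submatrix (optionCongr e) (optionCongr e)) =
      S.PP p q z t x B := by
  obtain ⟨M, _, π, hπ, hπ'⟩ := exists_quotient S p q z hA hF
  unfold Str.PP
  have h0 : BX (fun a => x (e a)) (B.submatrix (optionCongr e) (optionCongr e)) =
      (BX x B).submatrix e e := rfl
  rw [qq_sub t ht hn x B e, h0, c5_move S p q z hF, c5_move S p q z hF]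
  congr 1
  refine hπ' _ _ ?_
  rw [submatrix_conj]
  refine dt_conj π hπ t ht hn (BX x B) _ _ ?_ ?_ _ (nodup_toList _)
    (fun a => mem_toList.2 (mem_univ a))
  · ext a b
    simp [Matrix.mul_apply, Matrix.one_apply]
  · ext a b
    rw [Matrix.mul_apply]
    simp only [Matrix.submatrix_apply, Matrix.one_apply, id_eq]
    rw [Finset.sum_eq_single (e.symm a)]
    · rw [Equiv.apply_symm_apply, if_pos rfl, one_mul]
    · intro c _ hc
      rw [if_neg, zero_mul]
      rintro rfl
      exact hc (e.symm_apply_apply c).symm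
    · intro h
      exact absurd (mem_univ _) h

variable {X : Type} [Fintype X] [DecidableEq X] (x : X → Φ) (n : ℕ)

theorem PB_sub (hA : Anti S.s k) (hF : Frame p q z) (T : Type) [CommRing T]
    (B : Matrix (Option (X × Fin n)) (Option (X × Fin n)) T) (s : X → X)
    (e : X × Fin n ≃ X × Fin n) (he : ∀ a, (e a).1 = s a.1) :
    PB S p q z (fun a => x (s a)) n T (B.submatrix (optionCongr e) (optionCongr e)) =
      PB S p q z x n T B := by
  unfold PB
  have h := PP_sub (S.base (Trunc T n)) p q z (base_Anti S (Trunc T n) k hA) hF (tt T n ⊗ₜ 1)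
    (fun y => tmul_one_comm (Trunc T n) _ y)
    (isNilpotent_tmul_one (Trunc T n) _ (isNilpotent_tt T n))
    (fun a : X × Fin n => (1 : Trunc T n) ⊗ₜ[ℤ] x a.1)
    (B.map fun b => (inT T n b ⊗ₜ[ℤ] (1 : Φ) : Trunc T n ⊗[ℤ] Φ)) e
  rw [← h]
  simp only [he]
  rfl

/-- the permutation of the monomials -/
noncomputable def mvM (e : X × Fin n ≃ X × Fin n) (ξ : Mon X n) : Mon X n :=
  ξ.mapDomain fun v => (optionCongr e v.1, optionCongr e v.2)

theorem Pxi_sub (hA : Anti S.s k) (hF : Frame p q z) (s : X → X)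
    (e : X × Fin n ≃ X × Fin n) (he : ∀ a, (e a).1 = s a.1) (ξ : Mon X n) :
    Pxi S p q z (fun a => x (s a)) n ξ = Pxi S p q z x n (mvM n e ξ) := by
  let r : Option (X × Fin n) × Option (X × Fin n) → Option (X × Fin n) × Option (X × Fin n) :=
    fun v => ((optionCongr e).symm v.1, (optionCongr e).symm v.2)
  have hr : Function.Injective r := by
    rintro ⟨a, b⟩ ⟨c, d⟩ h
    obtain ⟨h1, h2⟩ := Prod.mk.inj h
    exact Prod.ext ((optionCongr e).symm.injective h1) ((optionCongr e).symm.injective h2)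
  let f : TU X n →+* TU X n := (MvPolynomial.rename r : TU X n →ₐ[ℤ] TU X n).toRingHom
  have h1 : (BU X n) = ((BU X n).map f).submatrix (optionCongr e) (optionCongr e) := by
    refine Matrix.ext fun a b => ?_
    change MvPolynomial.X (a, b) = MvPolynomial.rename r (MvPolynomial.X (optionCongr e a,
      optionCongr e b))
    rw [MvPolynomial.rename_X]
    change _ = MvPolynomial.X ((optionCongr e).symm (optionCongr e a),
      (optionCongr e).symm (optionCongr e b))
    rw [Equiv.symm_apply_apply, Equiv.symm_apply_apply]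
  have h2 : PB S p q z (fun a => x (s a)) n (TU X n) (BU X n) =
      bmap E f (PB S p q z x n (TU X n) (BU X n)) := by
    rw [PB_map]
    conv_lhs => rw [h1]
    exact PB_sub S p q z x n hA hF (TU X n) _ s e he
  unfold Pxi
  rw [h2]
  have h3 : ∀ y : TU X n ⊗[ℤ] E, coeffsW X n E (bmap E f y) ξ =
      coeffsW X n E y (mvM n e ξ) := by
    intro y
    induction y using TensorProduct.induction_on with
    | zero => simp only [map_zero, Finsupp.coe_zero, Pi.zero_apply]
    | add u v hu hv => simp only [map_add, Finsupp.coe_add, Pi.add_apply, hu, hv]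
    | tmul u w =>
      rw [bmap_tmul, F6b_coeffsW_tmul, F6b_coeffsW_tmul]
      congr 1
      change MvPolynomial.coeff ξ (MvPolynomial.rename r u) = _
      have h4 : ξ = (mvM n e ξ).mapDomain r := by
        unfold mvM
        rw [← Finsupp.mapDomain_comp]
        have h5 : (r ∘ fun v : Option (X × Fin n) × Option (X × Fin n) =>
            (optionCongr e v.1, optionCongr e v.2)) = id := by
          funext v
          change ((optionCongr e).symm (optionCongr e v.1),
            (optionCongr e).symm (optionCongr e v.2)) = v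
          rw [Equiv.symm_apply_apply, Equiv.symm_apply_apply]
        rw [h5, Finsupp.mapDomain_id]
      conv_lhs => rw [h4]
      exact MvPolynomial.coeff_rename_mapDomain r hr u _
  exact h3 _

end pp

section ml

variable {k n : ℕ} {ι Φ E : Type} [Fintype ι] [DecidableEq ι] [Ring Φ] [Ring E]

theorem mvM_mm (s : Perm (Fin n)) (σ : Perm (Option (Fin n))) :
    mvM n (prodCongr s s) (mm σ) = mm (optionCongr s * σ * (optionCongr s)⁻¹) := by
  unfold mvM mm mon
  rw [Finsupp.mapDomain_finsetSum]
  simp only [Finsupp.mapDomain_single]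
  rw [← Equiv.sum_comp (optionCongr s) (fun a => Finsupp.single
    (dg n ((optionCongr s * σ * (optionCongr s)⁻¹) a), dg n a) 1)]
  refine Finset.sum_congr rfl fun a _ => ?_
  have h1 : ∀ b : Option (Fin n), optionCongr (prodCongr s s) (dg n b) = dg n (optionCongr s b) := by
    intro b
    cases b <;> rfl
  have h2 : (optionCongr s * σ * (optionCongr s)⁻¹) (optionCongr s a) = optionCongr s (σ a) := by
    rw [Perm.mul_apply, Perm.mul_apply]
    congr 2
    exact (optionCongr s).symm_apply_apply a
  rw [h1, h1, h2]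

/-- relabelling -/
theorem vl_sub (S : Str ι Φ E) (hA : Anti S.s k) (p q : Fin k ↪ ι) (z : ι) (hF : Frame p q z)
    (x : Fin n → Φ) (s : Perm (Fin n)) (y : H4.P (Option (Fin n))) :
    vl S p q z (fun a => x (s a)) y =
      vl S p q z x (H4.g (optionCongr s) * y * H4.g (optionCongr s)⁻¹) := by
  refine H4.P_induction (p := fun y => vl S p q z (fun a => x (s a)) y =
      vl S p q z x (H4.g (optionCongr s) * y * H4.g (optionCongr s)⁻¹)) y ?_ ?_ ?_
  · intro σ
    rw [← H4.g_mul, ← H4.g_mul, vl_g, vl_g]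
    have h1 := Pxi_sub S p q z x n hA hF s (prodCongr s s) (fun _ => rfl) (mm σ)
    rw [h1, mvM_mm]
    congr 2
    rw [Perm.sign_mul, Perm.sign_mul, Perm.sign_inv]
    rw [mul_comm (Perm.sign (optionCongr s)) (Perm.sign σ), mul_assoc, Int.units_mul_self, mul_one]
  · intro a b ha hb
    rw [map_add, ha, hb, mul_add, add_mul, map_add]
  · intro m a ha
    rw [map_zsmul, ha, mul_smul_comm, smul_mul_assoc, map_zsmul]

end ml

end Pool.PI34.VL

end

/-! ### part V_Jw -/
section

/-!
PI34, block VAL, file 4: the integral Jordan-Wigner operators.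

One place has the states `0` (unused), `1` (the vector `v`), `2` (the vector `η v`), over
`ℤ[√2]`; `Te` : `0 ↦ 1`, `T1` : `0 ↦ 2`, `To = Te + q T1`, `Dl` : `2 ↦ q 2 + 1`, `Zt = 1 - q Dl`.
-/

set_option autoImplicit false
set_option linter.unusedSectionVars false

namespace Pool.PI34.VL

open Equiv Finset Matrix
open Pool.PI34.BA

/-- the coefficients `ℤ[√2]` -/
abbrev C2 : Type := QuadraticAlgebra ℤ 2 0

/-- the square root of two -/
def q2 : C2 := ⟨0, 1⟩

theorem q2_sq : q2 * q2 = 2 := by
  ext
  · rw [QuadraticAlgebra.re_ofNat]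
    simp [q2]
  · rw [QuadraticAlgebra.im_ofNat]
    simp [q2]

theorem q2_cancel (x : C2) (h : q2 * x = 0) : x = 0 := by
  have h1 := congrArg QuadraticAlgebra.re h
  have h2 := congrArg QuadraticAlgebra.im h
  simp [q2] at h1 h2
  ext
  · simpa using h2
  · simpa using h1

/-! ### one place -/

/-- `0 ↦ 1` -/
def Te : Matrix (Fin 3) (Fin 3) C2 := !![0, 0, 0; 1, 0, 0; 0, 0, 0]

/-- `0 ↦ 2` -/
def T1 : Matrix (Fin 3) (Fin 3) C2 := !![0, 0, 0; 0, 0, 0; 1, 0, 0]

/-- the odd creation operator -/
def To : Matrix (Fin 3) (Fin 3) C2 := !![0, 0, 0; 1, 0, 0; q2, 0, 0]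

/-- `δ` -/
def Dl : Matrix (Fin 3) (Fin 3) C2 := !![0, 0, 0; 0, 0, 1; 0, 0, q2]

/-- `1 - q δ` -/
def Zt : Matrix (Fin 3) (Fin 3) C2 := !![1, 0, 0; 0, 1, -q2; 0, 0, -1]

theorem To_eq : To = Te + q2 • T1 := by
  ext1 i j
  fin_cases i <;> fin_cases j <;> simp [To, Te, T1]

theorem Zt_eq : Zt = 1 - q2 • Dl := by
  ext1 i j
  fin_cases i <;> fin_cases j <;> simp [Zt, Dl, q2_sq]
  norm_num

theorem Te_Te : Te * Te = 0 := by
  ext1 i j
  fin_cases i <;> fin_cases j <;> simp [Te, Matrix.mul_apply, Fin.sum_univ_three]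

theorem Te_T1 : Te * T1 = 0 := by
  ext1 i j
  fin_cases i <;> fin_cases j <;> simp [Te, T1, Matrix.mul_apply, Fin.sum_univ_three]

theorem T1_Te : T1 * Te = 0 := by
  ext1 i j
  fin_cases i <;> fin_cases j <;> simp [Te, T1, Matrix.mul_apply, Fin.sum_univ_three]

theorem Te_To : Te * To = 0 := by
  ext1 i j
  fin_cases i <;> fin_cases j <;> simp [Te, To, Matrix.mul_apply, Fin.sum_univ_three]

theorem To_Te : To * Te = 0 := by
  ext1 i j
  fin_cases i <;> fin_cases j <;> simp [Te, To, Matrix.mul_apply, Fin.sum_univ_three]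

theorem To_To : To * To = 0 := by
  ext1 i j
  fin_cases i <;> fin_cases j <;> simp [To, Matrix.mul_apply, Fin.sum_univ_three]

theorem Dl_Te : Dl * Te = 0 := by
  ext1 i j
  fin_cases i <;> fin_cases j <;> simp [Te, Dl, Matrix.mul_apply, Fin.sum_univ_three]

theorem Te_Dl : Te * Dl = 0 := by
  ext1 i j
  fin_cases i <;> fin_cases j <;> simp [Te, Dl, Matrix.mul_apply, Fin.sum_univ_three]

theorem To_Dl : To * Dl = 0 := by
  ext1 i j
  fin_cases i <;> fin_cases j <;> simp [To, Dl, Matrix.mul_apply, Fin.sum_univ_three]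

theorem Dl_To : Dl * To = q2 • To := by
  ext1 i j
  fin_cases i <;> fin_cases j <;> simp [To, Dl, Matrix.mul_apply, Fin.sum_univ_three]

theorem Dl_Dl : Dl * Dl = q2 • Dl := by
  ext1 i j
  fin_cases i <;> fin_cases j <;> simp [Dl, Matrix.mul_apply, Fin.sum_univ_three]

theorem Zt_Te : Zt * Te = Te := by
  rw [Zt_eq, sub_mul, one_mul, smul_mul_assoc, Dl_Te, smul_zero, sub_zero]

theorem Te_Zt : Te * Zt = Te := by
  rw [Zt_eq, mul_sub, mul_one, mul_smul_comm, Te_Dl, smul_zero, sub_zero]

theorem To_Zt : To * Zt = To := by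
  rw [Zt_eq, mul_sub, mul_one, mul_smul_comm, To_Dl, smul_zero, sub_zero]

theorem Zt_To : Zt * To = -To := by
  rw [Zt_eq, sub_mul, one_mul, smul_mul_assoc, Dl_To, smul_smul, q2_sq, ofNat_smul_eq_nsmul,
    two_nsmul]
  abel

theorem Zt_Zt : Zt * Zt = 1 := by
  ext1 i j
  fin_cases i <;> fin_cases j <;> simp [Zt, Matrix.mul_apply, Fin.sum_univ_three]

/-! ### `n` places -/

section places

variable (n : ℕ)

/-- the operators on `n` places -/
def GG : Type := Module.End C2 ((Fin n → Fin 3) → C2)

noncomputable instance : Ring (GG n) :=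
  inferInstanceAs (Ring (Module.End C2 ((Fin n → Fin 3) → C2)))

noncomputable instance : Algebra C2 (GG n) :=
  inferInstanceAs (Algebra C2 (Module.End C2 ((Fin n → Fin 3) → C2)))

variable {n}

/-- an element as an operator -/
def toE (e : GG n) : Module.End C2 ((Fin n → Fin 3) → C2) := e

/-- the action on the vectors -/
def ap (e : GG n) (v : (Fin n → Fin 3) → C2) : (Fin n → Fin 3) → C2 := toE e v

theorem ap_ext {e e' : GG n} (h : ∀ v f, ap e v f = ap e' v f) : e = e' := by
  have h1 : toE e = toE e' := LinearMap.ext fun v => funext fun f => h v f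
  exact h1

/-- the operator `M` at the place `l` -/
noncomputable def pl (l : Fin n) : Matrix (Fin 3) (Fin 3) C2 →+* GG n := (matStr 3 C2 (Fin n)).ρ l

theorem pl_smul (l : Fin n) (c : C2) (M : Matrix (Fin 3) (Fin 3) C2) :
    pl l (c • M) = c • pl l M := by
  refine ap_ext fun v f => ?_
  change ∑ d, (c • M) (f l) d * v (Function.update f l d) =
    c • ∑ d, M (f l) d * v (Function.update f l d)
  rw [Finset.smul_sum]
  refine Finset.sum_congr rfl fun d _ => ?_
  rw [Matrix.smul_apply, smul_eq_mul, smul_eq_mul, mul_assoc]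

theorem pl_comm {l l' : Fin n} (h : l ≠ l') (M N : Matrix (Fin 3) (Fin 3) C2) :
    pl l M * pl l' N = pl l' N * pl l M := (matStr 3 C2 (Fin n)).comm l l' h M N

/-- the permutation of the places -/
noncomputable def pm (σ : Perm (Fin n)) : GG n := (matStr 3 C2 (Fin n)).s σ

theorem pm_pl (σ : Perm (Fin n)) (l : Fin n) (M : Matrix (Fin 3) (Fin 3) C2) :
    pm σ * pl l M = pl (σ l) M * pm σ := (matStr 3 C2 (Fin n)).conj σ l M

theorem cancelG (x : GG n) (h : q2 • x = 0) : x = 0 := by
  refine ap_ext fun v f => ?_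
  have h1 := congrFun (congrArg (fun e : GG n => ap e v) h) f
  exact q2_cancel _ h1

/-- `ζ_m` -/
noncomputable def zt (m : ℕ) : GG n := if h : m < n then pl ⟨m, h⟩ Zt else 1

/-- `δ_m` -/
noncomputable def dl (m : ℕ) : GG n := if h : m < n then pl ⟨m, h⟩ Dl else 0

theorem zt_eq (m : ℕ) : (zt m : GG n) = 1 - q2 • dl m := by
  unfold zt dl
  split_ifs with h
  · rw [Zt_eq, map_sub, map_one, pl_smul]
  · rw [smul_zero, sub_zero]

/-- `ζ_0 ⋯ ζ_{m-1}` -/
noncomputable def ZZ : ℕ → GG n
  | 0 => 1
  | m + 1 => ZZ m * zt m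

/-- `(1 - ζ_0 ⋯ ζ_{m-1}) / q` -/
noncomputable def DD : ℕ → GG n
  | 0 => 0
  | m + 1 => DD m + ZZ m * dl m

theorem ZZ_eq (m : ℕ) : (ZZ m : GG n) = 1 - q2 • DD m := by
  induction m with
  | zero => simp [ZZ, DD]
  | succ m ih =>
    rw [ZZ, DD, zt_eq, mul_sub, mul_one, mul_smul_comm, smul_add, ← sub_sub, ← ih]

/-- `P_l` -/
noncomputable def opP (l : Fin n) : GG n := pl l Te

/-- `Q_l` -/
noncomputable def opQ (l : Fin n) : GG n := pl l T1 - DD l * pl l To

/-- `O_l = P_l + q Q_l` -/
noncomputable def opO (l : Fin n) : GG n := ZZ l * pl l To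

theorem opO_eq (l : Fin n) : opO l = opP l + q2 • opQ l := by
  unfold opO opP opQ
  rw [ZZ_eq, sub_mul, one_mul, smul_sub, smul_mul_assoc, To_eq, map_add, pl_smul]
  abel

/-! commutation with the signs -/

theorem zt_zt (m m' : ℕ) : (zt m : GG n) * zt m' = zt m' * zt m := by
  unfold zt
  by_cases h : m < n
  · by_cases h' : m' < n
    · rw [dif_pos h, dif_pos h']
      by_cases e : m = m'
      · subst e
        rfl
      · exact pl_comm (fun h2 => e (Fin.mk.inj h2)) _ _
    · rw [dif_neg h', mul_one, one_mul]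
  · rw [dif_neg h, mul_one, one_mul]

theorem ZZ_zt (m m' : ℕ) : (ZZ m : GG n) * zt m' = zt m' * ZZ m := by
  induction m with
  | zero => rw [ZZ, one_mul, mul_one]
  | succ m ih => rw [ZZ, mul_assoc, zt_zt, ← mul_assoc, ih, mul_assoc]

theorem ZZ_ZZ (m m' : ℕ) : (ZZ m : GG n) * ZZ m' = ZZ m' * ZZ m := by
  induction m' with
  | zero => rw [ZZ, one_mul, mul_one]
  | succ m' ih => rw [ZZ, ← mul_assoc, ih, mul_assoc, ZZ_zt, ← mul_assoc]

theorem zt_pl_ne {m : ℕ} {l : Fin n} (h : m ≠ l) (M : Matrix (Fin 3) (Fin 3) C2) :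
    zt m * pl l M = pl l M * zt m := by
  unfold zt
  split_ifs with h1
  · exact pl_comm (fun h2 => h (congrArg Fin.val h2)) _ _
  · rw [one_mul, mul_one]

theorem zt_self (l : Fin n) : (zt (l : ℕ) : GG n) = pl l Zt := by
  unfold zt
  rw [dif_pos l.2]

theorem dl_self (l : Fin n) : (dl (l : ℕ) : GG n) = pl l Dl := by
  unfold dl
  rw [dif_pos l.2]

theorem zt_Te (m : ℕ) (l : Fin n) : zt m * pl l Te = pl l Te * zt m := by
  by_cases h : m = l
  · rw [h, zt_self, ← map_mul, ← map_mul, Zt_Te, Te_Zt]
  · exact zt_pl_ne h _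

theorem ZZ_Te (m : ℕ) (l : Fin n) : ZZ m * pl l Te = pl l Te * ZZ m := by
  induction m with
  | zero => rw [ZZ, one_mul, mul_one]
  | succ m ih => rw [ZZ, mul_assoc, zt_Te, ← mul_assoc, ih, mul_assoc]

theorem ZZ_pl_le {m : ℕ} {l : Fin n} (h : m ≤ l) (M : Matrix (Fin 3) (Fin 3) C2) :
    ZZ m * pl l M = pl l M * ZZ m := by
  induction m with
  | zero => rw [ZZ, one_mul, mul_one]
  | succ m ih =>
    rw [ZZ, mul_assoc, zt_pl_ne (by omega), ← mul_assoc, ih (by omega), mul_assoc]

theorem ZZ_To_lt {m : ℕ} {l : Fin n} (h : (l : ℕ) < m) :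
    ZZ m * pl l To = -(pl l To * ZZ m) := by
  induction m with
  | zero => exact absurd h (Nat.not_lt_zero _)
  | succ m ih =>
    by_cases hl : (l : ℕ) = m
    · subst hl
      rw [ZZ, mul_assoc, zt_self, ← map_mul, Zt_To, map_neg, mul_neg, ZZ_pl_le le_rfl,
        ← mul_assoc, ← ZZ_pl_le le_rfl To, mul_assoc, ← map_mul, To_Zt, ZZ_pl_le le_rfl]
    · rw [ZZ, mul_assoc, zt_pl_ne (Ne.symm hl), ← mul_assoc, ih (by omega), neg_mul, mul_assoc]

/-! the relations -/

theorem opP_opP (l l' : Fin n) : opP l * opP l' = opP l' * opP l := by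
  by_cases h : l = l'
  · rw [h]
  · exact pl_comm h _ _

theorem opP_opO (l l' : Fin n) : opP l * opO l' = opO l' * opP l := by
  unfold opP opO
  rw [← mul_assoc, ← ZZ_Te, mul_assoc, mul_assoc]
  congr 1
  by_cases h : l = l'
  · rw [h, ← map_mul, ← map_mul, Te_To, To_Te]
  · exact pl_comm h _ _

theorem opP_opQ (l l' : Fin n) : opP l * opQ l' = opQ l' * opP l := by
  have h1 := opP_opO l l'
  rw [opO_eq, mul_add, add_mul, opP_opP, mul_smul_comm, smul_mul_assoc] at h1
  have h2 := add_left_cancel h1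
  have h3 := cancelG (opP l * opQ l' - opQ l' * opP l) (by rw [smul_sub, h2, sub_self])
  exact sub_eq_zero.1 h3

theorem opO_lt {l l' : Fin n} (h : l < l') : opO l * opO l' = -(opO l' * opO l) := by
  unfold opO
  have h0 : l ≠ l' := ne_of_lt h
  have h1 : (l : ℕ) < l' := h
  calc ZZ (l : ℕ) * pl l To * (ZZ (l' : ℕ) * pl l' To)
      = ZZ (l : ℕ) * (pl l To * ZZ (l' : ℕ)) * pl l' To := by simp only [mul_assoc]
    _ = -(ZZ (l : ℕ) * ZZ (l' : ℕ) * (pl l To * pl l' To)) := by
        have h2 : pl l To * ZZ (l' : ℕ) = -(ZZ (l' : ℕ) * pl l To) := by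
          rw [ZZ_To_lt h1, neg_neg]
        rw [h2]
        simp only [mul_neg, neg_mul, mul_assoc]
    _ = -(ZZ (l' : ℕ) * pl l' To * (ZZ (l : ℕ) * pl l To)) := by
        rw [ZZ_ZZ, pl_comm h0]
        have h3 : pl l' To * ZZ (l : ℕ) = ZZ (l : ℕ) * pl l' To := (ZZ_pl_le (le_of_lt h1) To).symm
        congr 1
        calc ZZ (l' : ℕ) * ZZ (l : ℕ) * (pl l' To * pl l To)
            = ZZ (l' : ℕ) * (ZZ (l : ℕ) * pl l' To) * pl l To := by simp only [mul_assoc]
          _ = ZZ (l' : ℕ) * pl l' To * (ZZ (l : ℕ) * pl l To) := by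
              rw [← h3]
              simp only [mul_assoc]

theorem opO_opO (l l' : Fin n) : opO l * opO l' = -(opO l' * opO l) := by
  rcases lt_trichotomy l l' with h | h | h
  · exact opO_lt h
  · subst h
    have h1 : (opO l * opO l : GG n) = 0 := by
      unfold opO
      rw [mul_assoc, ← mul_assoc (pl l To), ← ZZ_pl_le le_rfl, mul_assoc (ZZ (l : ℕ)), ← map_mul,
        To_To, map_zero, mul_zero, mul_zero]
    rw [h1, neg_zero]
  · rw [opO_lt h, neg_neg]

theorem q2_q2 (x : GG n) : q2 • (q2 • x) = x + x := by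
  rw [smul_smul, q2_sq, ofNat_smul_eq_nsmul, two_nsmul]

theorem opQ_opQ (l l' : Fin n) : opQ l * opQ l' =
    -(opP l' * opP l) - q2 • (opP l' * opQ l) - q2 • (opQ l' * opP l) - opQ l' * opQ l := by
  have h1 := opO_opO l l'
  simp only [opO_eq, add_mul, mul_add, smul_mul_assoc, mul_smul_comm, smul_add, q2_q2] at h1
  rw [opP_opP l l', opP_opQ l l', ← opP_opQ l' l] at h1
  have h2 : q2 • (q2 • (opQ l * opQ l' + opP l' * opP l + q2 • (opP l' * opQ l) +
      q2 • (opQ l' * opP l) + opQ l' * opQ l)) = 0 := by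
    simp only [smul_add, q2_q2]
    rw [← sub_eq_zero] at h1
    rw [← h1]
    abel
  have h4 := cancelG _ (cancelG _ h2)
  rw [← sub_eq_zero, ← h4]
  abel

end places

end Pool.PI34.VL

end

/-! ### part V_Flip -/
section

/-!
PI34, block VAL, file 5: the exotic flip of two neighbouring places.
-/

set_option autoImplicit false
set_option linter.unusedSectionVars false

namespace Pool.PI34.VL

open Equiv Finset Matrix
open Pool.PI34.BA

section flip

variable {n : ℕ}

/-! ### the action of the operators -/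

theorem ap_mul (e e' : GG n) (v : (Fin n → Fin 3) → C2) : ap (e * e') v = ap e (ap e' v) := rfl

theorem ap_one (v : (Fin n → Fin 3) → C2) : ap (1 : GG n) v = v := rfl

theorem ap_zero (v : (Fin n → Fin 3) → C2) : ap (0 : GG n) v = 0 := rfl

theorem ap_sub (e e' : GG n) (v : (Fin n → Fin 3) → C2) : ap (e - e') v = ap e v - ap e' v := rfl

theorem ap_add (e e' : GG n) (v : (Fin n → Fin 3) → C2) : ap (e + e') v = ap e v + ap e' v := rfl

theorem ap_pl (l : Fin n) (M : Matrix (Fin 3) (Fin 3) C2) (v : (Fin n → Fin 3) → C2)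
    (f : Fin n → Fin 3) : ap (pl l M) v f = ∑ d, M (f l) d * v (Function.update f l d) := rfl

theorem ap_pm (σ : Perm (Fin n)) (v : (Fin n → Fin 3) → C2) (f : Fin n → Fin 3) :
    ap (pm σ) v f = v (f ∘ σ) := rfl

/-! ### the flip -/

/-- `δ_i δ_j` commutes with all `P_l` -/
theorem dd_Te (i j l : Fin n) :
    pl i Dl * pl j Dl * pl l Te = pl l Te * (pl i Dl * pl j Dl) := by
  have h : ∀ i : Fin n, pl i Dl * pl l Te = pl l Te * pl i Dl := by
    intro i
    by_cases h : i = l
    · rw [h, ← map_mul, ← map_mul, Dl_Te, Te_Dl]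
    · exact pl_comm h _ _
  rw [mul_assoc, h j, ← mul_assoc, h i, mul_assoc]

/-- the flip of the places `i` and `j` -/
noncomputable def fl (i j : Fin n) : GG n := pm (swap i j) * (1 - pl i Dl * pl j Dl)

theorem pm_one : (pm (1 : Perm (Fin n)) : GG n) = 1 := rfl

theorem pm_mul (σ τ : Perm (Fin n)) : (pm (σ * τ) : GG n) = pm σ * pm τ := rfl

theorem pm_dd {i j : Fin n} (h : i ≠ j) :
    pm (swap i j) * (pl i Dl * pl j Dl) = pl i Dl * pl j Dl * pm (swap i j) := by
  rw [← mul_assoc, pm_pl, swap_apply_left, mul_assoc, pm_pl, swap_apply_right, ← mul_assoc,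
    pl_comm (Ne.symm h)]

theorem pm_one_sub {i j : Fin n} (h : i ≠ j) :
    pm (swap i j) * (1 - pl i Dl * pl j Dl) = (1 - pl i Dl * pl j Dl) * pm (swap i j) := by
  rw [mul_sub, sub_mul, mul_one, one_mul, pm_dd h]

theorem dd_dd {i j : Fin n} (h : i ≠ j) :
    (pl i Dl * pl j Dl : GG n) * (pl i Dl * pl j Dl) = q2 • (q2 • (pl i Dl * pl j Dl)) := by
  rw [mul_assoc, ← mul_assoc (pl j Dl), pl_comm (Ne.symm h), mul_assoc (pl i Dl), ← map_mul,
    ← mul_assoc, ← map_mul, Dl_Dl, pl_smul, pl_smul, smul_mul_smul_comm, smul_smul]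

theorem fl_fl {i j : Fin n} (h : i ≠ j) : (fl i j : GG n) * fl i j = 1 := by
  unfold fl
  have h1 : pm (swap i j) * (pm (swap i j) : GG n) = 1 := by
    rw [← pm_mul, Equiv.swap_mul_self, pm_one]
  calc pm (swap i j) * (1 - pl i Dl * pl j Dl) * (pm (swap i j) * (1 - pl i Dl * pl j Dl))
      = pm (swap i j) * ((1 - pl i Dl * pl j Dl) * pm (swap i j)) *
          (1 - pl i Dl * pl j Dl) := by simp only [mul_assoc]
    _ = pm (swap i j) * pm (swap i j) * ((1 - pl i Dl * pl j Dl) * (1 - pl i Dl * pl j Dl)) := by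
        rw [← pm_one_sub h]
        simp only [mul_assoc]
    _ = 1 := by
        rw [h1, one_mul, mul_sub, mul_one, sub_mul, one_mul, dd_dd h, q2_q2]
        abel

theorem fl_opP {i j : Fin n} (l : Fin n) : fl i j * opP l = opP (swap i j l) * fl i j := by
  unfold fl opP
  rw [mul_assoc, sub_mul, one_mul, dd_Te]
  have h1 : pl l Te - pl l Te * (pl i Dl * pl j Dl) = pl l Te * (1 - pl i Dl * pl j Dl) := by
    rw [mul_sub, mul_one]
  rw [h1, ← mul_assoc, pm_pl, mul_assoc]

theorem dl_zt (i : Fin n) (m : ℕ) : pl i Dl * zt m = zt m * pl i Dl := by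
  rw [zt_eq, mul_sub, sub_mul, mul_one, one_mul, mul_smul_comm, smul_mul_assoc]
  congr 2
  unfold dl
  split_ifs with h
  · by_cases e : i = ⟨m, h⟩
    · rw [← e]
    · exact pl_comm e _ _
  · rw [mul_zero, zero_mul]

theorem dl_ZZ (i : Fin n) (m : ℕ) : pl i Dl * ZZ m = ZZ m * pl i Dl := by
  induction m with
  | zero => rw [ZZ, one_mul, mul_one]
  | succ m ih => rw [ZZ, ← mul_assoc, ih, mul_assoc, dl_zt, ← mul_assoc]

theorem dd_ZZ (i j : Fin n) (m : ℕ) :
    (1 - pl i Dl * pl j Dl) * ZZ m = ZZ m * (1 - pl i Dl * pl j Dl) := by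
  rw [sub_mul, mul_sub, one_mul, mul_one, mul_assoc, dl_ZZ, ← mul_assoc, dl_ZZ, mul_assoc]

theorem pm_zt_ne (σ : Perm (Fin n)) (m : ℕ) (h : ∀ (h1 : m < n), σ ⟨m, h1⟩ = ⟨m, h1⟩) :
    pm σ * zt m = zt m * pm σ := by
  unfold zt
  split_ifs with h1
  · rw [pm_pl, h h1]
  · rw [mul_one, one_mul]

theorem pm_ZZ_le {i j : Fin n} (hij : (j : ℕ) = i + 1) (m : ℕ) (h : m ≤ i) :
    pm (swap i j) * ZZ m = ZZ m * pm (swap i j) := by
  induction m with
  | zero => rw [ZZ, one_mul, mul_one]
  | succ m ih =>
    have h2 : pm (swap i j) * zt m = zt m * pm (swap i j) := by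
      refine pm_zt_ne _ _ fun h1 => swap_apply_of_ne_of_ne ?_ ?_
      · intro e
        have e1 : m = (i : ℕ) := congrArg Fin.val e
        omega
      · intro e
        have e1 : m = (j : ℕ) := congrArg Fin.val e
        omega
    rw [ZZ, ← mul_assoc, ih (by omega), mul_assoc, h2, ← mul_assoc]

theorem pm_ZZ_gt {i j : Fin n} (hij : (j : ℕ) = i + 1) (m : ℕ) (h : (j : ℕ) < m) :
    pm (swap i j) * ZZ m = ZZ m * pm (swap i j) := by
  induction m with
  | zero => exact absurd h (Nat.not_lt_zero _)
  | succ m ih =>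
    by_cases e : (j : ℕ) = m
    · have e2 : m = (i : ℕ) + 1 := by omega
      subst e2
      have hne : i ≠ j := fun h2 => by
        have h3 : (i : ℕ) = j := congrArg Fin.val h2
        omega
      have h3 : (zt ((i : ℕ) + 1) : GG n) = pl j Zt := by rw [← hij, zt_self]
      rw [ZZ, ZZ, h3, zt_self]
      calc pm (swap i j) * (ZZ (i : ℕ) * pl i Zt * pl j Zt)
          = (pm (swap i j) * ZZ (i : ℕ)) * (pl i Zt * pl j Zt) := by simp only [mul_assoc]
        _ = ZZ (i : ℕ) * ((pm (swap i j) * pl i Zt) * pl j Zt) := by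
            rw [pm_ZZ_le hij _ le_rfl]
            simp only [mul_assoc]
        _ = ZZ (i : ℕ) * (pl j Zt * (pm (swap i j) * pl j Zt)) := by
            rw [pm_pl, swap_apply_left]
            simp only [mul_assoc]
        _ = ZZ (i : ℕ) * (pl j Zt * pl i Zt * pm (swap i j)) := by
            rw [pm_pl, swap_apply_right]
            simp only [mul_assoc]
        _ = ZZ (i : ℕ) * pl i Zt * pl j Zt * pm (swap i j) := by
            rw [pl_comm (Ne.symm hne)]
            simp only [mul_assoc]
    · have h2 : pm (swap i j) * zt m = zt m * pm (swap i j) := by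
        refine pm_zt_ne _ _ fun h1 => swap_apply_of_ne_of_ne ?_ ?_
        · intro e
          have e1 : m = (i : ℕ) := congrArg Fin.val e
          omega
        · intro e3
          have e1 : m = (j : ℕ) := congrArg Fin.val e3
          omega
      rw [ZZ, ← mul_assoc, ih (by omega), mul_assoc, h2, ← mul_assoc]

theorem dd_pl_ne {i j l : Fin n} (h : i ≠ l) (h' : j ≠ l) (M : Matrix (Fin 3) (Fin 3) C2) :
    (1 - pl i Dl * pl j Dl) * pl l M = pl l M * (1 - pl i Dl * pl j Dl) := by
  rw [sub_mul, mul_sub, one_mul, mul_one, mul_assoc, pl_comm h', ← mul_assoc, pl_comm h,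
    mul_assoc]

/-- the middle case -/
theorem fl_opO_left {i j : Fin n} (hij : (j : ℕ) = i + 1) :
    fl i j * opO i = opO j * fl i j := by
  have hne : i ≠ j := fun h2 => by
    have h3 : (i : ℕ) = j := congrArg Fin.val h2
    omega
  have hZ : (ZZ (j : ℕ) : GG n) = ZZ (i : ℕ) * pl i Zt := by
    rw [hij, ZZ, zt_self]
  unfold fl opO
  rw [hZ]
  have h1 : (1 - pl i Dl * pl j Dl : GG n) * pl i To = pl i To * pl j Zt := by
    rw [sub_mul, one_mul, mul_assoc, pl_comm (Ne.symm hne), ← mul_assoc, ← map_mul, Dl_To,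
      pl_smul, smul_mul_assoc, Zt_eq, map_sub, map_one, pl_smul, mul_sub, mul_one, mul_smul_comm]
  have h2 : pl j To * (1 - pl i Dl * pl j Dl : GG n) = pl j To := by
    rw [mul_sub, mul_one, pl_comm hne, ← mul_assoc, ← map_mul, To_Dl, map_zero, zero_mul, sub_zero]
  calc pm (swap i j) * (1 - pl i Dl * pl j Dl) * (ZZ (i : ℕ) * pl i To)
      = pm (swap i j) * ((1 - pl i Dl * pl j Dl) * ZZ (i : ℕ)) * pl i To := by
        simp only [mul_assoc]
    _ = pm (swap i j) * ZZ (i : ℕ) * ((1 - pl i Dl * pl j Dl) * pl i To) := by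
        rw [dd_ZZ]
        simp only [mul_assoc]
    _ = ZZ (i : ℕ) * (pm (swap i j) * pl i To * pl j Zt) := by
        rw [h1, pm_ZZ_le hij _ le_rfl]
        simp only [mul_assoc]
    _ = ZZ (i : ℕ) * (pl j To * pl i Zt * pm (swap i j)) := by
        rw [pm_pl, swap_apply_left, mul_assoc, pm_pl, swap_apply_right]
        simp only [mul_assoc]
    _ = ZZ (i : ℕ) * pl i Zt * (pl j To * (1 - pl i Dl * pl j Dl)) * pm (swap i j) := by
        rw [h2, pl_comm (Ne.symm hne)]
        simp only [mul_assoc]
    _ = ZZ (i : ℕ) * pl i Zt * pl j To * (pm (swap i j) * (1 - pl i Dl * pl j Dl)) := by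
        rw [pm_one_sub hne]
        simp only [mul_assoc]

theorem fl_opO_far {i j : Fin n} (hij : (j : ℕ) = i + 1) (l : Fin n) (h1 : i ≠ l) (h2 : j ≠ l) :
    fl i j * opO l = opO l * fl i j := by
  have hne : i ≠ j := fun h2 => by
    have h3 : (i : ℕ) = j := congrArg Fin.val h2
    omega
  have hz : pm (swap i j) * ZZ (l : ℕ) = (ZZ (l : ℕ) : GG n) * pm (swap i j) := by
    by_cases h : (l : ℕ) ≤ i
    · exact pm_ZZ_le hij _ h
    · refine pm_ZZ_gt hij _ ?_
      have h3 : (j : ℕ) ≠ l := fun e => h2 (Fin.ext e)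
      omega
  have hl : swap i j l = l := swap_apply_of_ne_of_ne (Ne.symm h1) (Ne.symm h2)
  unfold fl opO
  calc pm (swap i j) * (1 - pl i Dl * pl j Dl) * (ZZ (l : ℕ) * pl l To)
      = pm (swap i j) * ((1 - pl i Dl * pl j Dl) * ZZ (l : ℕ)) * pl l To := by
        simp only [mul_assoc]
    _ = (pm (swap i j) * ZZ (l : ℕ)) * ((1 - pl i Dl * pl j Dl) * pl l To) := by
        rw [dd_ZZ]
        simp only [mul_assoc]
    _ = ZZ (l : ℕ) * ((pm (swap i j) * pl l To) * (1 - pl i Dl * pl j Dl)) := by
        rw [hz, dd_pl_ne h1 h2]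
        simp only [mul_assoc]
    _ = ZZ (l : ℕ) * pl l To * (pm (swap i j) * (1 - pl i Dl * pl j Dl)) := by
        rw [pm_pl, hl]
        simp only [mul_assoc]

theorem fl_opO {i j : Fin n} (hij : (j : ℕ) = i + 1) (l : Fin n) :
    fl i j * opO l = opO (swap i j l) * fl i j := by
  have hne : i ≠ j := fun h2 => by
    have h3 : (i : ℕ) = j := congrArg Fin.val h2
    omega
  by_cases h1 : i = l
  · subst h1
    rw [swap_apply_left]
    exact fl_opO_left hij
  by_cases h2 : j = l
  · subst h2
    rw [swap_apply_right]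
    have h3 := fl_opO_left (n := n) hij
    calc fl i j * opO j = fl i j * (opO j * fl i j) * fl i j := by
          rw [mul_assoc, mul_assoc, fl_fl hne, mul_one]
      _ = fl i j * (fl i j * opO i) * fl i j := by rw [h3]
      _ = opO i * fl i j := by rw [← mul_assoc, fl_fl hne, one_mul]
  · rw [swap_apply_of_ne_of_ne (Ne.symm h1) (Ne.symm h2)]
    exact fl_opO_far hij l h1 h2

theorem fl_opQ {i j : Fin n} (hij : (j : ℕ) = i + 1) (l : Fin n) :
    fl i j * opQ l = opQ (swap i j l) * fl i j := by
  have h1 := fl_opO hij l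
  rw [opO_eq, opO_eq, mul_add, add_mul, fl_opP, mul_smul_comm, smul_mul_assoc] at h1
  have h2 := add_left_cancel h1
  have h3 := cancelG (fl i j * opQ l - opQ (swap i j l) * fl i j) (by rw [smul_sub, h2, sub_self])
  exact sub_eq_zero.1 h3

/-! ### rows -/

/-- `w 0 = 0`, `w 1 = 1`, `w 2 = q` -/
def wt (a : Fin 3) : C2 := Dl a 2

theorem wt_one : wt 1 = 1 := by simp [wt, Dl]

theorem wt_two : wt 2 = q2 := by simp [wt, Dl]

theorem wt_zero : wt 0 = 0 := by simp [wt, Dl]

theorem ap_Dl (l : Fin n) (v : (Fin n → Fin 3) → C2) (f : Fin n → Fin 3) :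
    ap (pl l Dl) v f = wt (f l) * v (Function.update f l 2) := by
  rw [ap_pl, Fin.sum_univ_three]
  have h0 : ∀ a : Fin 3, Dl a 0 = 0 := by
    intro a
    fin_cases a <;> simp [Dl]
  have h1 : ∀ a : Fin 3, Dl a 1 = 0 := by
    intro a
    fin_cases a <;> simp [Dl]
  rw [h0, h1, zero_mul, zero_mul, zero_add, zero_add]
  rfl

/-- the row of the flip -/
theorem ap_fl {i j : Fin n} (h : i ≠ j) (v : (Fin n → Fin 3) → C2) (f : Fin n → Fin 3) :
    ap (fl i j) v f = v (f ∘ swap i j) -
      wt (f i) * wt (f j) * v (Function.update (Function.update f i 2) j 2) := by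
  unfold fl
  rw [ap_mul, ap_pm, ap_sub, ap_one, ap_mul, Pi.sub_apply, ap_Dl, ap_Dl]
  have h1 : (f ∘ swap i j) i = f j := by simp
  have h2 : Function.update (f ∘ swap i j) i 2 j = f i := by
    rw [Function.update_of_ne (Ne.symm h)]
    simp
  have h3 : Function.update (Function.update (f ∘ swap i j) i 2) j 2 =
      Function.update (Function.update f i 2) j 2 := by
    funext l
    by_cases e1 : l = j
    · subst e1
      simp
    · rw [Function.update_of_ne e1, Function.update_of_ne e1]
      by_cases e2 : l = i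
      · subst e2
        simp
      · rw [Function.update_of_ne e2, Function.update_of_ne e2, Function.comp_apply,
          swap_apply_of_ne_of_ne e2 e1]
  rw [h1, h2, h3]
  ring

/-- the vacuum is invariant under the flip -/
theorem fl_vac {i j : Fin n} (h : i ≠ j) :
    ap (fl i j) (Pi.single 0 1) = Pi.single 0 1 := by
  funext f
  rw [ap_fl h]
  have h1 : Function.update (Function.update f i 2) j 2 ≠ 0 := by
    intro e
    have e2 := congrFun e j
    rw [Function.update_self, Pi.zero_apply] at e2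
    exact absurd e2 (by decide)
  rw [Pi.single_eq_of_ne h1, mul_zero, sub_zero]
  by_cases hf : f = 0
  · subst hf
    rw [Pi.single_eq_same]
    exact Pi.single_eq_same (M := fun _ => C2) (0 : Fin n → Fin 3) 1
  · rw [Pi.single_eq_of_ne hf, Pi.single_eq_of_ne]
    intro e
    apply hf
    funext l
    have e2 := congrFun e (swap i j l)
    rw [Function.comp_apply, swap_apply_self] at e2
    exact e2

/-- the state with the places `< l` unused and the other ones in the state `1` -/
def st (l : ℕ) : Fin n → Fin 3 := fun m => if (m : ℕ) < l then 0 else 1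

theorem ap_opP_st (l : Fin n) (v : (Fin n → Fin 3) → C2) :
    ap (opP l) v (st l) = v (st (l + 1)) := by
  unfold opP
  have h1 : (st (l : ℕ) : Fin n → Fin 3) l = 1 := if_neg (lt_irrefl _)
  have h2 : Function.update (st (l : ℕ) : Fin n → Fin 3) l 0 = st (l + 1) := by
    funext m
    by_cases e : m = l
    · subst e
      rw [Function.update_self]
      exact (if_pos (Nat.lt_succ_self _)).symm
    · rw [Function.update_of_ne e]
      have e1 : (m : ℕ) ≠ l := fun h => e (Fin.ext h)
      unfold st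
      by_cases h3 : (m : ℕ) < l
      · rw [if_pos h3, if_pos (by omega)]
      · rw [if_neg h3, if_neg (by omega)]
  rw [ap_pl, h1, Fin.sum_univ_three, h2]
  simp [Te]

theorem ap_Zt_zero {m : Fin n} {f : Fin n → Fin 3} (h : f m = 0) (v : (Fin n → Fin 3) → C2) :
    ap (pl m Zt) v f = v f := by
  rw [ap_pl, h, Fin.sum_univ_three]
  have h2 : Function.update f m 0 = f := by
    rw [← h, Function.update_eq_self]
  rw [h2]
  simp [Zt]

theorem ap_ZZ_zero (m : ℕ) {f : Fin n → Fin 3} (h : ∀ l : Fin n, (l : ℕ) < m → f l = 0)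
    (v : (Fin n → Fin 3) → C2) : ap (ZZ m) v f = v f := by
  induction m generalizing v with
  | zero => rfl
  | succ m ih =>
    rw [ZZ, ap_mul, ih (fun l hl => h l (by omega))]
    unfold zt
    split_ifs with h1
    · exact ap_Zt_zero (h _ (Nat.lt_succ_self m)) v
    · rfl

theorem ap_DD_zero (m : ℕ) {f : Fin n → Fin 3} (h : ∀ l : Fin n, (l : ℕ) < m → f l = 0)
    (v : (Fin n → Fin 3) → C2) : ap (DD m) v f = 0 := by
  induction m with
  | zero => rfl
  | succ m ih =>
    rw [DD, ap_add, Pi.add_apply, ih (fun l hl => h l (by omega)), zero_add, ap_mul,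
      ap_ZZ_zero m (fun l hl => h l (by omega))]
    unfold dl
    split_ifs with h1
    · rw [ap_Dl, h _ (Nat.lt_succ_self m), wt_zero, zero_mul]
    · rfl

theorem ap_opQ_st (l : Fin n) (v : (Fin n → Fin 3) → C2) :
    ap (opQ l) v (st l) = 0 := by
  unfold opQ
  have h1 : (st (l : ℕ) : Fin n → Fin 3) l = 1 := if_neg (lt_irrefl _)
  rw [ap_sub, Pi.sub_apply, ap_mul,
    ap_DD_zero (f := st (l : ℕ)) (l : ℕ) (fun m hm => if_pos hm), sub_zero, ap_pl, h1,
    Fin.sum_univ_three]
  simp [T1]

end flip

end Pool.PI34.VL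

end
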