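import Pool.Agent.LibPI54.M38
import Pool.Agent.LibPI54.M46

/-! ### part EV_U2 -/
section

/-!
PI34, block EV, file U2: the universal string system (functions of the used labels and of a
permutation of the positions).
-/

set_option autoImplicit false
set_option linter.unusedSectionVars false

namespace Pool.PI34.EV

open Equiv Finset
open Pool.PI34.H4 Pool.PI34.BA

section uni

variable {k : ℕ} {A : Type}

/-- the position of a label -/
def lab (k : ℕ) (a : A) : Big A k := Sum.inl (some a)

/-- the positions of the strands -/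
def str (k : ℕ) (A : Type) : St k ↪ Big A k :=
  ⟨fun i => match i with
    | none => Sum.inl none
    | some s => Sum.inr s, by
    rintro (_ | i) (_ | j) h
    · rfl
    · exact absurd h (by simp)
    · exact absurd h (by simp)
    · exact congrArg some (Sum.inr.inj h)⟩

theorem str_none : str k A none = Sum.inl none := rfl

theorem str_some (s : Fin k ⊕ Fin k) : str k A (some s) = Sum.inr s := rfl

theorem str_ne_lab (i : St k) (a : A) : str k A i ≠ lab k a := by
  cases i with
  | none => intro h; exact absurd (Sum.inl.inj h) (by simp)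
  | some s => intro h; exact absurd h (by simp [lab, str_some])

theorem lab_inj : Function.Injective (lab k : A → Big A k) := fun _ _ h =>
  Option.some.inj (Sum.inl.inj h)

theorem hh_lab (h : Perm A) (a : A) : hh k h (lab k a) = lab k (h a) := rfl

theorem hh_str (h : Perm A) (i : St k) : hh k h (str k A i) = str k A i := by
  cases i <;> rfl

variable [DecidableEq A]

theorem hh_swap (a b : A) : hh k (swap a b) = swap (lab k a) (lab k b) := by
  ext x
  rcases x with (_ | x) | x
  · rw [swap_apply_of_ne_of_ne]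
    · rfl
    · exact str_ne_lab none a
    · exact str_ne_lab none b
  · change lab k (swap a b x) = swap (lab k a) (lab k b) (lab k x)
    rw [lab_inj.swap_apply]
  · rw [swap_apply_of_ne_of_ne]
    · rfl
    · exact str_ne_lab (some x) a
    · exact str_ne_lab (some x) b

/-- `σ` fixes the labels which are not in `U` -/
def Sp (U : Finset A) (σ : Perm (Big A k)) : Prop := ∀ a, a ∉ U → σ (lab k a) = lab k a

theorem Sp_one (U : Finset A) : Sp U (1 : Perm (Big A k)) := fun _ _ => rfl

theorem Sp_mul {U : Finset A} {σ τ : Perm (Big A k)} (h : Sp U σ) (h' : Sp U τ) :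
    Sp U (σ * τ) := by
  intro a ha
  rw [Perm.mul_apply, h' a ha, h a ha]

theorem Sp_inv {U : Finset A} {σ : Perm (Big A k)} (h : Sp U σ) : Sp U σ⁻¹ := by
  intro a ha
  rw [Perm.inv_eq_iff_eq]
  exact (h a ha).symm

theorem Sp_mono {U V : Finset A} (hUV : U ⊆ V) {σ : Perm (Big A k)} (h : Sp U σ) : Sp V σ :=
  fun a ha => h a fun h1 => ha (hUV h1)

theorem Sp_mul_right {U : Finset A} {σ τ : Perm (Big A k)} (h' : Sp U τ) :
    Sp U (σ * τ) ↔ Sp U σ := by
  constructor
  · intro h
    have h1 := Sp_mul h (Sp_inv h')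
    rwa [mul_assoc, mul_inv_cancel, mul_one] at h1
  · exact fun h => Sp_mul h h'

theorem Sp_conj (h : Perm A) (U : Finset A) (σ : Perm (Big A k)) :
    Sp (U.map h.toEmbedding) (hh k h * σ * (hh k h)⁻¹) ↔ Sp U σ := by
  have h0 : ∀ a, (hh k h * σ * (hh k h)⁻¹) (lab k (h a)) = hh k h (σ (lab k a)) := by
    intro a
    rw [Perm.mul_apply, Perm.mul_apply]
    congr 2
    rw [Perm.inv_eq_iff_eq]
    rfl
  have h1 : ∀ a, h a ∉ U.map h.toEmbedding ↔ a ∉ U := by
    intro a
    rw [mem_map_equiv, Equiv.symm_apply_apply]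
  constructor
  · intro H a ha
    have h2 := H (h a) ((h1 a).2 ha)
    rw [h0, ← hh_lab] at h2
    exact (hh k h).injective h2
  · intro H a ha
    obtain ⟨b, rfl⟩ := h.surjective a
    rw [h0, H b ((h1 b).1 ha), hh_lab]

theorem Sp_swap (i : St k) (a : A) (U : Finset A) : Sp (insert a U) (swap (str k A i) (lab k a)) := by
  intro b hb
  refine swap_apply_of_ne_of_ne (Ne.symm (str_ne_lab i b)) ?_
  intro h
  exact hb (lab_inj h ▸ mem_insert_self _ _)

/-- the permutations of the strands -/
noncomputable def exS (A : Type) [DecidableEq A] (σ : Perm (St k)) : Perm (Big A k) :=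
  σ.viaEmbedding (str k A)

theorem exS_str (σ : Perm (St k)) (i : St k) : exS A σ (str k A i) = str k A (σ i) :=
  Perm.viaEmbedding_apply _ _ _

theorem exS_lab (σ : Perm (St k)) (a : A) : exS A σ (lab k a) = lab k a := by
  refine Perm.viaEmbedding_apply_of_notMem _ _ _ ?_
  rintro ⟨i, hi⟩
  exact str_ne_lab i a hi

theorem Sp_exS (U : Finset A) (σ : Perm (St k)) : Sp U (exS A σ) := fun a _ => exS_lab σ a

theorem hh_exS (h : Perm A) (σ : Perm (St k)) : hh k h * exS A σ = exS A σ * hh k h := by
  ext x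
  have hx : (∃ i, x = str k A i) ∨ ∃ a, x = lab k a := by
    rcases x with (_ | x) | x
    · exact Or.inl ⟨none, rfl⟩
    · exact Or.inr ⟨x, rfl⟩
    · exact Or.inl ⟨some x, rfl⟩
  rcases hx with ⟨i, rfl⟩ | ⟨a, rfl⟩
  · rw [Perm.mul_apply, Perm.mul_apply, exS_str, hh_str, hh_str, exS_str]
  · rw [Perm.mul_apply, Perm.mul_apply, exS_lab, hh_lab, exS_lab]

/-! ### the module -/

variable [Fintype A] {C : Type} [DecidableEq C] (c : A → C) (W : Type) [AddCommGroup W]

/-- the functions -/
abbrev FF0 (k : ℕ) (A W : Type) : Type := Finset A → Perm (Big A k) → W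

variable {W}

/-- good functions -/
structure Good (F : FF0 k A W) : Prop where
  inv : ∀ h : Perm A, c ∘ h = c → ∀ U σ,
    F (U.map h.toEmbedding) (hh k h * σ * (hh k h)⁻¹) = F U σ
  sup : ∀ U σ, ¬ Sp U σ → F U σ = 0
  ker : ∀ (U : Finset A) (y : P (Big A k)), act k _ y = 0 →
    (∀ σ, ¬ Sp U σ → y.coeff σ = 0) → SS.evP (F U) y = 0

theorem evP_mul_g (f : Perm (Big A k) → W) (y : P (Big A k)) (τ : Perm (Big A k)) :
    SS.evP f (y * g τ) = SS.evP (fun σ => f (σ * τ)) y := by
  refine P_induction (p := fun y => SS.evP f (y * g τ) = SS.evP (fun σ => f (σ * τ)) y) y ?_ ?_ ?_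
  · intro σ
    rw [← g_mul, SS.evP_g, SS.evP_g]
  · intro a b ha hb
    rw [add_mul, map_add, map_add, ha, hb]
  · intro n a ha
    rw [smul_mul_assoc, map_zsmul, map_zsmul, ha]

theorem coeff_mul_g (y : P (Big A k)) (τ σ : Perm (Big A k)) :
    (y * g τ).coeff σ = y.coeff (σ * τ⁻¹) := by
  refine P_induction (p := fun y => (y * g τ).coeff σ = y.coeff (σ * τ⁻¹)) y ?_ ?_ ?_
  · intro ρ
    rw [← g_mul]
    simp only [H4.g, MonoidAlgebra.of_apply, MonoidAlgebra.coeff_single]
    rw [Finsupp.single_apply, Finsupp.single_apply]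
    congr 1
    rw [eq_iff_iff]
    constructor
    · rintro rfl
      rw [mul_assoc, mul_inv_cancel, mul_one]
    · rintro rfl
      rw [mul_assoc, inv_mul_cancel, mul_one]
  · intro a b ha hb
    rw [add_mul, MonoidAlgebra.coeff_add, MonoidAlgebra.coeff_add, Finsupp.add_apply,
      Finsupp.add_apply, ha, hb]
  · intro n a ha
    rw [smul_mul_assoc, MonoidAlgebra.coeff_smul, MonoidAlgebra.coeff_smul, Finsupp.smul_apply,
      Finsupp.smul_apply, ha]

/-- the module of the good functions -/
def MG (k : ℕ) (W : Type) [AddCommGroup W] : AddSubgroup (FF0 k A W) where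
  carrier := {F | Good c F}
  zero_mem' := ⟨fun _ _ _ _ => rfl, fun _ _ _ => rfl, fun U y _ _ => by
    change ∑ t, y.coeff t • (0 : W) = 0
    simp⟩
  add_mem' := by
    intro F G hF hG
    refine ⟨fun h hc U σ => ?_, fun U σ hs => ?_, fun U y hy hs => ?_⟩
    · rw [Pi.add_apply, Pi.add_apply, Pi.add_apply, Pi.add_apply, hF.inv h hc, hG.inv h hc]
    · rw [Pi.add_apply, Pi.add_apply, hF.sup U σ hs, hG.sup U σ hs, add_zero]
    · have h1 : SS.evP ((F + G) U) y = SS.evP (F U) y + SS.evP (G U) y := by
        change ∑ t, y.coeff t • (F U t + G U t) = _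
        simp only [smul_add, Finset.sum_add_distrib]
        rfl
      rw [h1, hF.ker U y hy hs, hG.ker U y hy hs, add_zero]
  neg_mem' := by
    intro F hF
    refine ⟨fun h hc U σ => ?_, fun U σ hs => ?_, fun U y hy hs => ?_⟩
    · rw [Pi.neg_apply, Pi.neg_apply, Pi.neg_apply, Pi.neg_apply, hF.inv h hc]
    · rw [Pi.neg_apply, Pi.neg_apply, hF.sup U σ hs, neg_zero]
    · have h1 : SS.evP ((-F) U) y = -SS.evP (F U) y := by
        change ∑ t, y.coeff t • (-F U t) = _
        simp only [smul_neg, Finset.sum_neg_distrib]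
        rfl
      rw [h1, hF.ker U y hy hs, neg_zero]

/-! ### the permutations of the strands -/

/-- the permutation `σ` of the strands -/
noncomputable def s0 (σ : Perm (St k)) (F : FF0 k A W) : FF0 k A W := fun U τ => F U (τ * exS A σ)

theorem s0_good (σ : Perm (St k)) {F : FF0 k A W} (hF : Good c F) : Good c (s0 σ F) := by
  refine ⟨fun h hc U τ => ?_, fun U τ hs => ?_, fun U y hy hs => ?_⟩
  · unfold s0
    have h1 : hh k h * τ * (hh k h)⁻¹ * exS A σ = hh k h * (τ * exS A σ) * (hh k h)⁻¹ := by
      have h2 : (hh k h)⁻¹ * exS A σ = exS A σ * (hh k h)⁻¹ := by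
        rw [inv_mul_eq_iff_eq_mul, ← mul_assoc, hh_exS, mul_assoc, mul_inv_cancel, mul_one]
      rw [mul_assoc, h2]
      simp only [mul_assoc]
    rw [h1, hF.inv h hc]
  · exact hF.sup U _ fun h => hs ((Sp_mul_right (Sp_exS U σ)).1 h)
  · change SS.evP (fun τ => F U (τ * exS A σ)) y = 0
    rw [← evP_mul_g]
    refine hF.ker U _ (by rw [map_mul, hy, zero_mul]) fun τ hτ => ?_
    rw [coeff_mul_g]
    refine hs _ fun h => hτ ?_
    have h1 := Sp_mul h (Sp_exS U σ)
    rwa [mul_assoc, inv_mul_cancel, mul_one] at h1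

/-- the group action -/
noncomputable def sU : Perm (St k) →* AddMonoid.End (MG c k W) where
  toFun σ :=
    { toFun := fun F => ⟨s0 σ F.1, s0_good c σ F.2⟩
      map_zero' := rfl
      map_add' := fun _ _ => rfl }
  map_one' := by
    refine AddMonoidHom.ext fun F => Subtype.ext ?_
    funext U τ
    change F.1 U (τ * exS A 1) = F.1 U τ
    unfold exS
    rw [via_one, mul_one]
  map_mul' := by
    intro σ σ'
    refine AddMonoidHom.ext fun F => Subtype.ext ?_
    funext U τ
    change F.1 U (τ * exS A (σ * σ')) = F.1 U (τ * exS A σ * exS A σ')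
    unfold exS
    rw [via_mul, mul_assoc]

/-! ### the letters -/

/-- the letter `x` on the strand `i` -/
noncomputable def L0 (i : St k) (x : C) (F : FF0 k A W) : FF0 k A W := by
  classical
  exact fun U σ => if h : (∃ a, a ∉ U ∧ c a = x) ∧ Sp U σ then
    F (insert (Classical.choose h.1) U) (σ * swap (str k A i) (lab k (Classical.choose h.1))) else 0

theorem L0_none (i : St k) (x : C) (F : FF0 k A W) (U : Finset A) (σ : Perm (Big A k))
    (h : ¬ ∃ a, a ∉ U ∧ c a = x) : L0 c i x F U σ = 0 := by
  unfold L0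
  rw [dif_neg fun h1 => h h1.1]

theorem L0_sup (i : St k) (x : C) (F : FF0 k A W) (U : Finset A) (σ : Perm (Big A k))
    (h : ¬ Sp U σ) : L0 c i x F U σ = 0 := by
  unfold L0
  rw [dif_neg fun h1 => h h1.2]

theorem map_insert_swap {a b : A} {U : Finset A} (ha : a ∉ U) (hb : b ∉ U) :
    (insert b U).map (swap a b).toEmbedding = insert a U := by
  ext x
  rw [mem_map_equiv, symm_swap, mem_insert, mem_insert]
  by_cases h1 : x = a
  · subst h1
    simp
  · by_cases h2 : x = b
    · subst h2
      rw [swap_apply_right]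
      constructor
      · rintro (h | h)
        · exact Or.inl h.symm
        · exact absurd h ha
      · rintro (h | h)
        · exact absurd h h1
        · exact absurd h hb
    · rw [swap_apply_of_ne_of_ne h1 h2]
      simp [h1, h2]

theorem L0_eq (i : St k) (x : C) {F : FF0 k A W} (hF : Good c F) (U : Finset A)
    (σ : Perm (Big A k)) (hs : Sp U σ) (a : A) (ha : a ∉ U) (hc : c a = x) :
    L0 c i x F U σ = F (insert a U) (σ * swap (str k A i) (lab k a)) := by
  have h : (∃ a, a ∉ U ∧ c a = x) ∧ Sp U σ := ⟨⟨a, ha, hc⟩, hs⟩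
  unfold L0
  rw [dif_pos h]
  obtain ⟨hb, hcb⟩ := Classical.choose_spec h.1
  set b := Classical.choose h.1 with hbdef
  have h1 : c ∘ swap a b = c := by
    funext y
    rw [Function.comp_apply]
    by_cases e1 : y = a
    · rw [e1, swap_apply_left, hcb, hc]
    · by_cases e2 : y = b
      · rw [e2, swap_apply_right, hcb, hc]
      · rw [swap_apply_of_ne_of_ne e1 e2]
  have h2 := hF.inv (swap a b) h1 (insert b U) (σ * swap (str k A i) (lab k b))
  rw [map_insert_swap ha hb] at h2
  rw [← h2]
  congr 1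
  rw [hh_swap, swap_inv]
  have h3 : swap (lab k a) (lab k b) * σ = σ * swap (lab k a) (lab k b) := by
    rw [Equiv.mul_swap_eq_swap_mul, hs a ha, hs b hb]
  have h4 : swap (lab k a) (lab k b) * swap (str k A i) (lab k b) =
      swap (str k A i) (lab k a) * swap (lab k a) (lab k b) := by
    rw [Equiv.mul_swap_eq_swap_mul, swap_apply_right,
      swap_apply_of_ne_of_ne (str_ne_lab i a) (str_ne_lab i b)]
  rw [← mul_assoc, h3, mul_assoc, mul_assoc, ← mul_assoc (swap (lab k a) (lab k b)), h4, mul_assoc,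
    Equiv.swap_mul_self, mul_one]

theorem L0_good (i : St k) (x : C) {F : FF0 k A W} (hF : Good c F) : Good c (L0 c i x F) := by
  refine ⟨fun h hc U σ => ?_, fun U σ hs => L0_sup c i x F U σ hs, fun U y hy hs => ?_⟩
  · by_cases hs : Sp U σ
    · by_cases ha : ∃ a, a ∉ U ∧ c a = x
      · obtain ⟨a, ha, hx⟩ := ha
        have ha' : h a ∉ U.map h.toEmbedding := by
          rw [mem_map_equiv, Equiv.symm_apply_apply]
          exact ha
        have hx' : c (h a) = x := by rw [← hx]; exact congrFun hc a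
        rw [L0_eq c i x hF U σ hs a ha hx, L0_eq c i x hF _ _ ((Sp_conj h U σ).2 hs) (h a) ha' hx',
          ← hF.inv h hc (insert a U)]
        have e1 : insert (h a) (U.map h.toEmbedding) = (insert a U).map h.toEmbedding := by
          rw [map_insert]
          rfl
        have e2 : hh k h * σ * (hh k h)⁻¹ * swap (str k A i) (lab k (h a)) =
            hh k h * (σ * swap (str k A i) (lab k a)) * (hh k h)⁻¹ := by
          have e3 : swap (str k A i) (lab k (h a)) =
              hh k h * swap (str k A i) (lab k a) * (hh k h)⁻¹ := by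
            rw [Equiv.mul_swap_eq_swap_mul, hh_str, hh_lab, mul_assoc, mul_inv_cancel, mul_one]
          rw [e3]
          simp only [mul_assoc, inv_mul_cancel_left]
        rw [e1, e2]
      · rw [L0_none c i x F U σ ha, L0_none]
        rintro ⟨a, ha1, ha2⟩
        obtain ⟨b, rfl⟩ := h.surjective a
        refine ha ⟨b, ?_, ?_⟩
        · rw [mem_map_equiv, Equiv.symm_apply_apply] at ha1
          exact ha1
        · rw [← ha2]
          exact (congrFun hc b).symm
    · rw [L0_sup c i x F U σ hs, L0_sup]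
      rwa [Sp_conj]
  · by_cases ha : ∃ a, a ∉ U ∧ c a = x
    · obtain ⟨a, ha, hx⟩ := ha
      have h1 : SS.evP (L0 c i x F U) y =
          SS.evP (F (insert a U)) (y * g (swap (str k A i) (lab k a))) := by
        rw [evP_mul_g]
        change ∑ t, y.coeff t • L0 c i x F U t = ∑ t, y.coeff t • F (insert a U) (t * _)
        refine Finset.sum_congr rfl fun t _ => ?_
        by_cases ht : Sp U t
        · rw [L0_eq c i x hF U t ht a ha hx]
        · rw [hs t ht, zero_smul, zero_smul]
      rw [h1]
      refine hF.ker _ _ (by rw [map_mul, hy, zero_mul]) fun τ hτ => ?_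
      rw [coeff_mul_g, swap_inv]
      refine hs _ fun h => hτ ?_
      have h1 := Sp_mul (Sp_mono (subset_insert a U) h) (Sp_swap i a U)
      rwa [mul_assoc, Equiv.swap_mul_self, mul_one] at h1
    · change ∑ t, y.coeff t • L0 c i x F U t = 0
      refine Finset.sum_eq_zero fun t _ => ?_
      rw [L0_none c i x F U t ha, smul_zero]

theorem L0_add (i : St k) (x : C) (F G : FF0 k A W) :
    L0 c i x (F + G) = L0 c i x F + L0 c i x G := by
  funext U σ
  rw [Pi.add_apply, Pi.add_apply]
  unfold L0
  split_ifs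
  · rfl
  · rw [add_zero]

/-- the letters as operators -/
noncomputable def LU (i : St k) (x : C) : AddMonoid.End (MG c k W) where
  toFun F := ⟨L0 c i x F.1, L0_good c i x F.2⟩
  map_zero' := by
    refine Subtype.ext ?_
    have h := L0_add c i x (0 : FF0 k A W) 0
    rw [add_zero] at h
    exact (left_eq_add.1 h)
  map_add' F G := Subtype.ext (L0_add c i x F.1 G.1)

theorem LU_apply (i : St k) (x : C) (F : MG c k W) : (LU c i x F).1 = L0 c i x F.1 := rfl

theorem sU_apply (σ : Perm (St k)) (F : MG c k W) (U : Finset A) (τ : Perm (Big A k)) :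
    (sU c σ F).1 U τ = F.1 U (τ * exS A σ) := rfl

theorem L0_L0 (i j : St k) (x y : C) {F : FF0 k A W} (hF : Good c F) (U : Finset A)
    (σ : Perm (Big A k)) (hs : Sp U σ) (a b : A) (ha : a ∉ U) (hb : b ∉ U) (hab : a ≠ b)
    (hx : c a = x) (hy : c b = y) : L0 c i x (L0 c j y F) U σ =
      F (insert b (insert a U)) (σ * swap (str k A i) (lab k a) * swap (str k A j) (lab k b)) := by
  rw [L0_eq c i x (L0_good c j y hF) U σ hs a ha hx,
    L0_eq c j y hF _ _ (Sp_mul (Sp_mono (subset_insert a U) hs) (Sp_swap i a U)) b (by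
      rw [mem_insert]
      rintro (h | h)
      · exact hab h.symm
      · exact hb h) hy]

theorem L0_L0_zero (i j : St k) (x y : C) {F : FF0 k A W} (hF : Good c F) (U : Finset A)
    (σ : Perm (Big A k)) (hs : Sp U σ)
    (h : ¬ ∃ a b, a ∉ U ∧ b ∉ U ∧ a ≠ b ∧ c a = x ∧ c b = y) :
    L0 c i x (L0 c j y F) U σ = 0 := by
  by_cases ha : ∃ a, a ∉ U ∧ c a = x
  · obtain ⟨a, ha, hx⟩ := ha
    rw [L0_eq c i x (L0_good c j y hF) U σ hs a ha hx, L0_none]
    rintro ⟨b, hb, hy⟩
    rw [mem_insert, not_or] at hb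
    exact h ⟨a, b, ha, hb.2, Ne.symm hb.1, hx, hy⟩
  · exact L0_none c i x _ U σ ha

theorem LU_comm (i j : St k) (hij : i ≠ j) (x y : C) :
    (LU c i x : AddMonoid.End (MG c k W)) * LU c j y = LU c j y * LU c i x := by
  refine AddMonoidHom.ext fun F => Subtype.ext ?_
  funext U σ
  change L0 c i x (L0 c j y F.1) U σ = L0 c j y (L0 c i x F.1) U σ
  by_cases hs : Sp U σ
  · by_cases h : ∃ a b, a ∉ U ∧ b ∉ U ∧ a ≠ b ∧ c a = x ∧ c b = y
    · obtain ⟨a, b, ha, hb, hab, hx, hy⟩ := h
      rw [L0_L0 c i j x y F.2 U σ hs a b ha hb hab hx hy,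
        L0_L0 c j i y x F.2 U σ hs b a hb ha (Ne.symm hab) hy hx, insert_comm]
      rw [mul_assoc, mul_assoc, Equiv.mul_swap_eq_swap_mul (swap (str k A i) (lab k a)) (str k A j) (lab k b),
        swap_apply_of_ne_of_ne (fun e => hij ((str k A).injective e).symm) (str_ne_lab j a),
        swap_apply_of_ne_of_ne (Ne.symm (str_ne_lab i b)) (fun e => hab (lab_inj e).symm)]
    · rw [L0_L0_zero c i j x y F.2 U σ hs h, L0_L0_zero c j i y x F.2 U σ hs]
      rintro ⟨a, b, ha, hb, hab, hx, hy⟩
      exact h ⟨b, a, hb, ha, Ne.symm hab, hy, hx⟩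
  · rw [L0_sup c i x _ U σ hs, L0_sup c j y _ U σ hs]

theorem sU_LU (σ : Perm (St k)) (i : St k) (x : C) :
    (sU c σ : AddMonoid.End (MG c k W)) * LU c i x = LU c (σ i) x * sU c σ := by
  refine AddMonoidHom.ext fun F => Subtype.ext ?_
  funext U τ
  change L0 c i x F.1 U (τ * exS A σ) = L0 c (σ i) x (s0 σ F.1) U τ
  by_cases hs : Sp U τ
  · have hs' : Sp U (τ * exS A σ) := Sp_mul hs (Sp_exS U σ)
    by_cases ha : ∃ a, a ∉ U ∧ c a = x
    · obtain ⟨a, ha, hx⟩ := ha
      rw [L0_eq c i x F.2 U _ hs' a ha hx, L0_eq c (σ i) x (s0_good c σ F.2) U τ hs a ha hx]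
      unfold s0
      rw [mul_assoc, Equiv.mul_swap_eq_swap_mul, exS_str, exS_lab, mul_assoc]
    · rw [L0_none c i x _ U _ ha, L0_none c (σ i) x _ U _ ha]
  · have hs' : ¬ Sp U (τ * exS A σ) := fun h => hs ((Sp_mul_right (Sp_exS U σ)).1 h)
    rw [L0_sup c i x _ U _ hs', L0_sup c (σ i) x _ U _ hs]

variable (W) in
/-- the universal string system -/
noncomputable def SU : Str (St k) (FreeAlgebra ℤ C) (AddMonoid.End (MG (A := A) c k W)) :=
  Str.ofLetters (fun i x => LU c i x) (sU c) (fun i j hij x y => LU_comm c i j hij x y)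
    (fun σ i x => sU_LU c σ i x)

theorem SU_s (σ : Perm (St k)) : (SU c W).s σ = sU c σ := rfl

theorem SU_ρ (i : St k) (x : C) : (SU c W).ρ i (FreeAlgebra.ι ℤ x) = LU c i x :=
  ofLetters_rho_ι _ _ _ _ _ _

end uni

end Pool.PI34.EV

end

/-! ### part EV_U3 -/
section

/-!
PI34, block EV, file U3: the values of the universal string system.
-/

set_option autoImplicit false
set_option linter.unusedSectionVars false

namespace Pool.PI34.EV

open Equiv Finset
open Pool.PI34.H4 Pool.PI34.BA

section rep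

variable {k : ℕ} {A : Type} [Fintype A] [DecidableEq A] {C : Type} [DecidableEq C]
variable (c : A → C) {W : Type} [AddCommGroup W]

/-- the operator `e` is the right multiplication by `y` and uses the labels `V` -/
def Rep (V : Finset A) (e : AddMonoid.End (MG c k W)) (y : P (Big A k)) : Prop :=
  ∀ (F : MG c k W) (U : Finset A) (τ : Perm (Big A k)), Disjoint V U → Sp U τ →
    (e F).1 U τ = SS.evP (F.1 (V ∪ U)) (g τ * y)

/-- the elements supported on the labels `V` -/
noncomputable def PV (k : ℕ) (V : Finset A) : AddSubgroup (P (Big A k)) :=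
  AddSubgroup.closure {y | ∃ σ, Sp V σ ∧ y = g σ}

theorem g_mem_PV {V : Finset A} {σ : Perm (Big A k)} (h : Sp V σ) : g σ ∈ PV k V :=
  AddSubgroup.subset_closure ⟨σ, h, rfl⟩

theorem Rep_mul {V V' : Finset A} {e e' : AddMonoid.End (MG c k W)} {y y' : P (Big A k)}
    (h : Rep c V e y) (hy : y ∈ PV k V) (h' : Rep c V' e' y') (hd : Disjoint V V') :
    Rep c (V' ∪ V) (e * e') (y * y') := by
  intro F U τ hU hτ
  rw [disjoint_union_left] at hU
  change (e (e' F)).1 U τ = _
  rw [h (e' F) U τ hU.2 hτ]
  clear h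
  unfold PV at hy
  induction hy using AddSubgroup.closure_induction with
  | mem y hy =>
    obtain ⟨σ, hσ, rfl⟩ := hy
    rw [← g_mul, SS.evP_g, h' F (V ∪ U) (τ * σ) (disjoint_union_right.2 ⟨hd.symm, hU.1⟩)
      (Sp_mul (Sp_mono subset_union_right hτ) (Sp_mono subset_union_left hσ)), ← mul_assoc,
      ← g_mul, union_assoc]
  | zero => rw [mul_zero, zero_mul, mul_zero, map_zero, map_zero]
  | add a b _ _ ha hb => rw [mul_add, map_add, ha, hb, add_mul, mul_add, map_add]
  | neg a _ ha => rw [mul_neg, map_neg, ha, neg_mul, mul_neg, map_neg]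

theorem Rep_one : Rep c ∅ (1 : AddMonoid.End (MG c k W)) 1 := by
  intro F U τ _ _
  rw [mul_one, SS.evP_g, empty_union]
  rfl

theorem Rep_s (σ : Perm (St k)) : Rep c ∅ ((SU c W).s σ) (g (exS A σ)) := by
  intro F U τ _ _
  rw [← g_mul, SS.evP_g, empty_union]
  rfl

theorem Rep_sum {I : Type} (T : Finset I) {V : Finset A} (e : I → AddMonoid.End (MG c k W))
    (y : I → P (Big A k)) (h : ∀ i ∈ T, Rep c V (e i) (y i)) :
    Rep c V (∑ i ∈ T, e i) (∑ i ∈ T, y i) := by
  classical
  induction T using Finset.induction_on with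
  | empty =>
    intro F U τ _ _
    rw [sum_empty, sum_empty, mul_zero, map_zero]
    rfl
  | insert a T ha ih =>
    intro F U τ hU hτ
    rw [sum_insert ha, sum_insert ha, mul_add, map_add,
      ← h a (mem_insert_self a T) F U τ hU hτ,
      ← ih (fun i hi => h i (mem_insert_of_mem hi)) F U τ hU hτ]
    rfl

theorem Rep_zsmul {V : Finset A} (m : ℤ) {e : AddMonoid.End (MG c k W)} {y : P (Big A k)}
    (h : Rep c V e y) : Rep c V (m • e) (m • y) := by
  intro F U τ hU hτ
  rw [mul_smul_comm, map_zsmul, ← h F U τ hU hτ]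
  rfl

theorem Rep_anti (e : Fin k ↪ St k) :
    Rep c ∅ (anti (SU c W).s (univ.map e)) (emb (e.trans (str k A)) (As (Fin k))) := by
  rw [← emb_trans, ← anti_map]
  unfold anti
  rw [map_sum]
  refine Rep_sum c _ _ _ fun σ _ => ?_
  rw [map_zsmul]
  refine Rep_zsmul c _ ?_
  have h1 : emb (str k A) (gh (St k) σ) = g (exS A σ) := emb_g _ _
  rw [h1]
  exact Rep_s c σ

theorem emb_str_mem (y : P (St k)) : emb (str k A) y ∈ PV k ∅ := by
  refine P_induction (p := fun y => emb (str k A) y ∈ PV k ∅) y ?_ ?_ ?_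
  · intro σ
    rw [emb_g]
    exact g_mem_PV (Sp_exS ∅ σ)
  · intro a b ha hb
    rw [map_add]
    exact AddSubgroup.add_mem _ ha hb
  · intro n a ha
    rw [map_zsmul]
    exact AddSubgroup.zsmul_mem _ ha n

theorem Rep_LU (i : St k) (a : A) :
    Rep c {a} (LU c i (c a) : AddMonoid.End (MG c k W)) (g (swap (str k A i) (lab k a))) := by
  intro F U τ hU hτ
  rw [← g_mul, SS.evP_g]
  exact L0_eq c i (c a) F.2 U τ hτ a (disjoint_singleton_left.1 hU) rfl

/-- the cycle of a word on a strand -/
def cyw (k : ℕ) (i : St k) (w : List A) : Perm (Big A k) :=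
  ((str k A i :: w.map (lab k)).formPerm)⁻¹

theorem lab_mem_map {w : List A} {a : A} : lab k a ∈ w.map (lab k) ↔ a ∈ w := by
  rw [List.mem_map]
  constructor
  · rintro ⟨b, hb, e⟩
    rwa [← lab_inj e]
  · exact fun h => ⟨a, h, rfl⟩

theorem str_notMem_map (i : St k) (w : List A) : str k A i ∉ w.map (lab k) := by
  rw [List.mem_map]
  rintro ⟨b, -, e⟩
  exact str_ne_lab i b e.symm

theorem Sp_cyw (i : St k) (w : List A) (V : Finset A) (h : ∀ a ∈ w, a ∈ V) :
    Sp V (cyw k i w) := by
  refine Sp_inv fun a ha => List.formPerm_apply_of_notMem ?_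
  rw [List.mem_cons, not_or, lab_mem_map]
  exact ⟨Ne.symm (str_ne_lab i a), fun h1 => ha (h a h1)⟩

theorem Rep_word (i : St k) (w : List A) (hw : w.Nodup) :
    Rep c w.toFinset ((SU c W).ρ i (w.map fun a => FreeAlgebra.ι ℤ (c a)).prod)
      (g (cyw k i w)) := by
  induction w with
  | nil =>
    rw [List.map_nil, List.prod_nil, map_one]
    unfold cyw
    rw [List.map_nil, List.formPerm_singleton, inv_one, g_one]
    exact Rep_one c
  | cons a w ih =>
    rw [List.nodup_cons] at hw
    have h1 := Rep_mul c (Rep_LU (W := W) c i a) (g_mem_PV (V := {a}) (by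
      have h := Sp_swap i a (∅ : Finset A)
      exact h)) (ih hw.2) (by
      rw [disjoint_singleton_left, List.mem_toFinset]
      exact hw.1)
    rw [List.map_cons, List.prod_cons, map_mul, SU_ρ]
    have h2 : g (cyw k i (a :: w)) = g (swap (str k A i) (lab k a)) * g (cyw k i w) := by
      rw [← g_mul]
      congr 1
      unfold cyw
      rw [List.map_cons]
      exact fp_inv_cons _ _ _ (str_notMem_map i w) (fun h => hw.1 (lab_mem_map.1 h))
    have h3 : (a :: w).toFinset = w.toFinset ∪ {a} := by
      ext b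
      simp
    rw [h2, h3]
    exact h1

/-- the trace of a loop -/
noncomputable def TrY (k : ℕ) (u : LD A) : P (Big A k) :=
  ∑ i : Fin k, g (cyw k (pS k i) (u.1 :: u.2.1))

theorem TrY_mem (u : LD A) : TrY k u ∈ PV k (u.1 :: u.2.1).toFinset := by
  unfold TrY
  refine AddSubgroup.sum_mem _ fun i _ => g_mem_PV (Sp_cyw _ _ _ fun a ha => ?_)
  exact List.mem_toFinset.2 ha

theorem Rep_Tr (u : LD A) (hu : (u.1 :: u.2.1).Nodup) :
    Rep c (u.1 :: u.2.1).toFinset (Tr (SU c W) (pS k)
      (wd (fun a => FreeAlgebra.ι ℤ (c a)) u)) (TrY k u) := by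
  unfold Tr TrY
  exact Rep_sum c _ _ _ fun i _ => Rep_word c (pS k i) (u.1 :: u.2.1) hu

/-- the traces of the loops -/
noncomputable def RY (k : ℕ) : List (LD A) → P (Big A k) → P (Big A k)
  | [], y => y
  | u :: us, y => RY k us (TrY k u * y)

theorem RY_nil (y : P (Big A k)) : RY k [] y = y := rfl

theorem RY_cons (u : LD A) (us : List (LD A)) (y : P (Big A k)) :
    RY k (u :: us) y = RY k us (TrY k u * y) := rfl

theorem pl_cons (u : LD A) (us : List (LD A)) : pl (u :: us) = (u.1 :: u.2.1) ++ pl us := rfl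

theorem Rep_RR (us : List (LD A)) : ∀ (V : Finset A) (e : AddMonoid.End (MG c k W))
    (y : P (Big A k)), Rep c V e y → (pl us).Nodup → (∀ a ∈ pl us, a ∉ V) →
    Rep c ((pl us).toFinset ∪ V) (RR (SU c W) (pS k) (fun a => FreeAlgebra.ι ℤ (c a)) us e)
      (RY k us y) := by
  induction us with
  | nil =>
    intro V e y h _ _
    have h1 : (pl ([] : List (LD A))).toFinset ∪ V = V := by
      change (([] : List A)).toFinset ∪ V = V
      simp
    rw [h1]
    exact h
  | cons u us ih =>
    intro V e y h hnd hV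
    rw [pl_cons] at hnd hV
    have h1 := List.nodup_append.1 hnd
    have h2 := Rep_mul c (Rep_Tr c u h1.1) (TrY_mem u) h (by
      rw [disjoint_left]
      intro a ha
      rw [List.mem_toFinset] at ha
      exact hV a (List.mem_append_left _ ha))
    have h3 := ih _ _ _ h2 h1.2.1 (by
      intro a ha
      rw [mem_union, not_or, List.mem_toFinset]
      exact ⟨hV a (List.mem_append_right _ ha), fun h4 => h1.2.2 a h4 a ha rfl⟩)
    have h4 : (pl (u :: us)).toFinset ∪ V =
        (pl us).toFinset ∪ (V ∪ (u.1 :: u.2.1).toFinset) := by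
      rw [pl_cons, List.toFinset_append]
      ext b
      simp only [mem_union]
      tauto
    rw [h4]
    exact h3

/-! ### evaluation modulo the kernel of the words -/

omit [DecidableEq C] in
theorem RY_act (us : List (LD A)) : ∀ (y y' : P (Big A k)), act k _ y = act k _ y' →
    act k _ (RY k us y) = act k _ (RY k us y') := by
  induction us with
  | nil => exact fun y y' h => h
  | cons u us ih =>
    intro y y' h
    rw [RY_cons, RY_cons]
    exact ih _ _ (by rw [map_mul, map_mul, h])

omit [DecidableEq C] in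
theorem TrY_eq (u : LD A) : TrY k u = g (((u.1 :: u.2.1).map (lab k)).formPerm)⁻¹ *
    ∑ i, g (swap (str k A (pS k i)) (lab k u.1)) := by
  unfold TrY
  rw [Finset.mul_sum]
  refine Finset.sum_congr rfl fun i _ => ?_
  have e1 : cyw k (pS k i) (u.1 :: u.2.1) =
      (((u.1 :: u.2.1).map (lab k)).formPerm)⁻¹ * swap (str k A (pS k i)) (lab k u.1) :=
    fp_inv_cons' _ _ _
  rw [e1, g_mul]

omit [DecidableEq C] in
theorem tr_comm (z : Big A k) (σ : Perm (Big A k))
    (hP : ∀ i, σ (str k A (pS k i)) = str k A (pS k i)) (hz : σ z = z) :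
    (∑ i, g (swap (str k A (pS k i)) z)) * g σ = g σ * ∑ i, g (swap (str k A (pS k i)) z) := by
  rw [Finset.mul_sum, Finset.sum_mul]
  refine Finset.sum_congr rfl fun i _ => ?_
  rw [← g_mul, ← g_mul, Equiv.mul_swap_eq_swap_mul, hP, hz]

omit [DecidableEq C] in
theorem tr_step (a : P (Big A k)) (z : Big A k) (σ : Perm (Big A k)) (Y : P (Big A k))
    (hP : ∀ i, σ (str k A (pS k i)) = str k A (pS k i)) (hz : σ z = z)
    (hz' : ∀ i, str k A (pS k i) ≠ z) :
    act k _ (a * (∑ i, g (swap (str k A (pS k i)) z)) *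
      (g σ * (emb ((pS k).trans (str k A)) (As (Fin k)) * Y))) =
    act k _ (a * g σ * (emb ((pS k).trans (str k A)) (As (Fin k)) * Y)) := by
  have h4 := tr_comm z σ hP hz
  have h5 := act_tr k ((pS k).trans (str k A)) z hz'
  set AP := emb ((pS k).trans (str k A)) (As (Fin k)) with hAP
  set t := ∑ i, g (swap (str k A (pS k i)) z) with ht
  have h6 : act k _ (t * AP) = act k _ AP := h5
  have h7 : a * t * (g σ * (AP * Y)) = a * g σ * ((t * AP) * Y) := by
    rw [mul_assoc a t, ← mul_assoc t, h4]
    simp only [mul_assoc]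
  rw [h7, map_mul, map_mul (act k _) (t * AP) Y, h6, ← map_mul, ← map_mul]

/-- the product of the cycles of the loops -/
def cycs (k : ℕ) (us : List (LD A)) : Perm (Big A k) :=
  (us.map fun u => ((u.1 :: u.2.1).map (lab k)).formPerm).prod

omit [DecidableEq C] [Fintype A] in
theorem cycs_nil : cycs k ([] : List (LD A)) = 1 := rfl

omit [DecidableEq C] [Fintype A] in
theorem cycs_cons (u : LD A) (us : List (LD A)) :
    cycs k (u :: us) = ((u.1 :: u.2.1).map (lab k)).formPerm * cycs k us := by
  unfold cycs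
  rw [List.map_cons, List.prod_cons]

omit [DecidableEq C] in
theorem act_RY (us : List (LD A)) : ∀ (σ : Perm (Big A k)) (Y : P (Big A k)),
    (∀ i, σ (str k A (pS k i)) = str k A (pS k i)) → (∀ a ∈ pl us, σ (lab k a) = lab k a) →
    (pl us).Nodup →
    act k _ (RY k us (g σ * (emb ((pS k).trans (str k A)) (As (Fin k)) * Y))) =
      act k _ (g ((cycs k us)⁻¹ * σ) * (emb ((pS k).trans (str k A)) (As (Fin k)) * Y)) := by
  induction us with
  | nil =>
    intro σ Y _ _ _
    rw [cycs_nil, inv_one, one_mul, RY_nil]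
  | cons u us ih =>
    intro σ Y hP hL hnd
    rw [pl_cons] at hL hnd
    have h1 := List.nodup_append.1 hnd
    have hfP : ∀ i, (((u.1 :: u.2.1).map (lab k)).formPerm)⁻¹ (str k A (pS k i)) =
        str k A (pS k i) := by
      intro i
      rw [Perm.inv_eq_iff_eq]
      exact (List.formPerm_apply_of_notMem (str_notMem_map _ _)).symm
    have hfL : ∀ a ∈ pl us, (((u.1 :: u.2.1).map (lab k)).formPerm)⁻¹ (lab k a) = lab k a := by
      intro a ha
      rw [Perm.inv_eq_iff_eq]
      refine (List.formPerm_apply_of_notMem ?_).symm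
      rw [lab_mem_map]
      exact fun h => h1.2.2 a h a ha rfl
    have h2 := ih ((((u.1 :: u.2.1).map (lab k)).formPerm)⁻¹ * σ) Y
      (fun i => by rw [Perm.mul_apply, hP, hfP])
      (fun a ha => by rw [Perm.mul_apply, hL a (List.mem_append_right _ ha), hfL a ha]) h1.2.1
    have h3 := tr_step (g (((u.1 :: u.2.1).map (lab k)).formPerm)⁻¹) (lab k u.1) σ Y hP
      (hL u.1 (List.mem_append_left _ List.mem_cons_self)) (fun i => str_ne_lab (pS k i) u.1)
    rw [← TrY_eq, ← g_mul] at h3
    have h4 := RY_act us _ _ h3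
    rw [h2] at h4
    rw [cycs_cons, mul_inv_rev, mul_assoc, ← h4, RY_cons]

end rep

end Pool.PI34.EV

end

/-! ### part EV_Univ -/
section

/-!
PI34, block EV, file Univ: PART II of EVEN1.
-/

set_option autoImplicit false
set_option linter.unusedSectionVars false

namespace Pool.PI34.EV

open Equiv Finset
open Pool.PI34.H4 Pool.PI34.BA

section rep

variable {k : ℕ} {A : Type} [Fintype A] [DecidableEq A] {C : Type} [DecidableEq C]
variable (c : A → C) {W : Type} [AddCommGroup W]

/-! ### the start vector -/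

variable (lam : P (Big A k) →+ W)

/-- the start vector -/
noncomputable def F0 : FF0 k A W := fun U σ => if U = univ then lam (g σ) else 0

theorem evP_lam (y : P (Big A k)) : SS.evP (fun σ => lam (g σ)) y = lam y := by
  refine P_induction (p := fun y => SS.evP (fun σ => lam (g σ)) y = lam y) y ?_ ?_ ?_
  · intro σ
    rw [SS.evP_g]
  · intro a b ha hb
    rw [map_add, map_add, ha, hb]
  · intro n a ha
    rw [map_zsmul, map_zsmul, ha]

theorem F0_good (h1 : ∀ y, act k _ y = 0 → lam y = 0)
    (h2 : ∀ h : Perm A, c ∘ h = c → ∀ y, lam (g (hh k h) * y * g (hh k h)⁻¹) = lam y) :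
    Good c (F0 lam) := by
  refine ⟨fun h hc U σ => ?_, fun U σ hs => ?_, fun U y hy hs => ?_⟩
  · have e : U.map h.toEmbedding = univ ↔ U = univ := by
      constructor
      · intro H
        ext a
        have h3 : h a ∈ U.map h.toEmbedding := by rw [H]; exact mem_univ _
        rw [mem_map_equiv, Equiv.symm_apply_apply] at h3
        exact ⟨fun _ => mem_univ _, fun _ => h3⟩
      · rintro rfl
        ext a
        rw [mem_map_equiv]
        exact ⟨fun _ => mem_univ _, fun _ => mem_univ _⟩
    unfold F0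
    rw [g_mul, g_mul, h2 h hc]
    simp only [e]
  · unfold F0
    rw [if_neg]
    rintro rfl
    exact hs fun a ha => absurd (mem_univ a) ha
  · by_cases hU : U = univ
    · subst hU
      have h3 : F0 lam univ = fun σ => lam (g σ) := by
        funext σ
        exact if_pos rfl
      rw [h3, evP_lam, h1 y hy]
    · have h3 : F0 lam U = fun _ => 0 := by
        funext σ
        exact if_neg hU
      rw [h3]
      change ∑ t, y.coeff t • (0 : W) = 0
      simp

omit [DecidableEq C] [Fintype A] in
theorem coeff_PV {V : Finset A} {y : P (Big A k)} (hy : y ∈ PV k V) (σ : Perm (Big A k))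
    (hσ : ¬ Sp V σ) : y.coeff σ = 0 := by
  unfold PV at hy
  induction hy using AddSubgroup.closure_induction with
  | mem y hy =>
    obtain ⟨τ, hτ, rfl⟩ := hy
    classical
    simp only [H4.g, MonoidAlgebra.of_apply, MonoidAlgebra.coeff_single]
    rw [Finsupp.single_apply, if_neg]
    rintro rfl
    exact hσ hτ
  | zero => rfl
  | add a b _ _ ha hb => rw [MonoidAlgebra.coeff_add, Finsupp.add_apply, ha, hb, add_zero]
  | neg a _ ha => rw [MonoidAlgebra.coeff_neg, Finsupp.neg_apply, ha, neg_zero]

omit [DecidableEq C] in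
theorem g_mul_PV {V : Finset A} {τ : Perm (Big A k)} (hτ : Sp V τ) {y : P (Big A k)}
    (hy : y ∈ PV k (∅ : Finset A)) : g τ * y ∈ PV k V := by
  unfold PV at hy
  induction hy using AddSubgroup.closure_induction with
  | mem y hy =>
    obtain ⟨σ, hσ, rfl⟩ := hy
    rw [← g_mul]
    exact g_mem_PV (Sp_mul hτ (Sp_mono (empty_subset V) hσ))
  | zero => rw [mul_zero]; exact AddSubgroup.zero_mem _
  | add a b _ _ ha hb => rw [mul_add]; exact AddSubgroup.add_mem _ ha hb
  | neg a _ ha => rw [mul_neg]; exact AddSubgroup.neg_mem _ ha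

variable (W) in
theorem SU_Anti : Anti (SU (k := k) c W).s k := by
  intro T hT
  have h3 := Rep_sum (W := W) c (permsOn T) (V := ∅)
    (fun σ => ((Perm.sign σ : ℤˣ) : ℤ) • (SU c W).s σ)
    (fun σ => ((Perm.sign σ : ℤˣ) : ℤ) • g (exS A σ))
    (fun σ _ => Rep_zsmul c _ (Rep_s c σ))
  have h4 : ∑ σ ∈ permsOn T, ((Perm.sign σ : ℤˣ) : ℤ) • g (exS A σ) =
      emb (str k A) (anti (gh (St k)) T) := by
    unfold anti
    rw [map_sum]
    refine Finset.sum_congr rfl fun σ _ => ?_
    rw [map_zsmul]
    have h5 : emb (str k A) (gh (St k) σ) = g (exS A σ) := emb_g _ _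
    rw [h5]
  rw [h4] at h3
  refine AddMonoidHom.ext fun F => Subtype.ext ?_
  funext U τ
  change ((anti (SU c W).s T) F).1 U τ = 0
  by_cases hs : Sp U τ
  · have h6 := h3 F U τ (disjoint_empty_left U) hs
    have h7 : ((anti (SU c W).s T) F).1 U τ = _ := h6
    rw [h7, empty_union]
    refine F.2.ker U _ ?_ ?_
    · rw [map_mul, act_emb_eq_zero _ _ (act_anti T (by omega)), mul_zero]
    · exact fun σ hσ => coeff_PV (g_mul_PV hs (emb_str_mem _)) σ hσ
  · exact ((anti (SU c W).s T) F).2.sup U τ hs

theorem Rep_om : Rep c ∅ ((SU c W).om (pS k) (qS k))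
    (emb ((pS k).trans (str k A)) (As (Fin k)) * emb ((qS k).trans (str k A)) (As (Fin k))) := by
  have h := Rep_mul c (Rep_anti (W := W) c (pS k)) (by
    rw [← emb_trans]
    exact emb_str_mem _) (Rep_anti (W := W) c (qS k)) (disjoint_empty_left _)
  rw [empty_union] at h
  exact h

theorem Rep_val (w : List A) (us : List (LD A)) (hnd : (w ++ pl us).Nodup) :
    Rep c ((pl us).toFinset ∪ w.toFinset)
      (val (SU c W) (pS k) (qS k) none (fun a => FreeAlgebra.ι ℤ (c a)) w us)
      (RY k us (g (cyw k none w) * (emb ((pS k).trans (str k A)) (As (Fin k)) *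
        emb ((qS k).trans (str k A)) (As (Fin k))))) := by
  have h3 := List.nodup_append.1 hnd
  have h1 := Rep_mul (k := k) c (Rep_word (W := W) c none w h3.1)
    (g_mem_PV (Sp_cyw none w w.toFinset fun a ha => List.mem_toFinset.2 ha)) (Rep_om c)
    (disjoint_empty_right _)
  rw [empty_union] at h1
  exact Rep_RR c us _ _ _ h1 h3.2.1 fun a ha h => h3.2.2 a (List.mem_toFinset.1 h) a ha rfl

omit [DecidableEq C] in
theorem dperm_via (w : List A) (us : List (LD A)) :
    (dperm w us).viaEmbedding (Function.Embedding.inl : Option A ↪ Big A k) =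
      (cycs k us)⁻¹ * cyw k none w := by
  unfold dperm
  rw [via_inv, via_mul, via_formPerm, mul_inv_rev]
  have h1 : ((us.map fun u => ((u.1 :: u.2.1).map some).formPerm).prod).viaEmbedding
      (Function.Embedding.inl : Option A ↪ Big A k) = cycs k us := by
    induction us with
    | nil => exact via_one _
    | cons u us ih =>
      rw [List.map_cons, List.prod_cons, via_mul, ih, cycs_cons, via_formPerm, List.map_map]
      rfl
  rw [h1]
  congr 1
  unfold cyw
  rw [List.map_cons, List.map_map]
  rfl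

omit [DecidableEq C] in
theorem act_final (w : List A) (us : List (LD A)) (hnd : (w ++ pl us).Nodup) :
    act k _ (RY k us (g (cyw k none w) * (emb ((pS k).trans (str k A)) (As (Fin k)) *
        emb ((qS k).trans (str k A)) (As (Fin k))))) =
      act k _ (emb Function.Embedding.inl (g (dperm w us)) *
        (emb (Function.Embedding.inl.trans Function.Embedding.inr) (As (Fin k)) *
          emb (Function.Embedding.inr.trans Function.Embedding.inr) (As (Fin k)))) := by
  have h3 := List.nodup_append.1 hnd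
  have h1 := act_RY (k := k) us (cyw k none w) (emb ((qS k).trans (str k A)) (As (Fin k))) (fun i => by
      unfold cyw
      rw [Perm.inv_eq_iff_eq]
      refine (List.formPerm_apply_of_notMem ?_).symm
      rw [List.mem_cons, not_or]
      refine ⟨fun e => ?_, str_notMem_map _ _⟩
      exact absurd ((str k A).injective e) (by simp [pS])) (fun a ha => by
      unfold cyw
      rw [Perm.inv_eq_iff_eq]
      refine (List.formPerm_apply_of_notMem ?_).symm
      rw [List.mem_cons, not_or, lab_mem_map]
      exact ⟨Ne.symm (str_ne_lab none a), fun h => h3.2.2 a h a ha rfl⟩) h3.2.1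
  rw [h1, emb_g, dperm_via]
  have e1 : (pS k).trans (str k A) = Function.Embedding.inl.trans Function.Embedding.inr := by
    ext i
    rfl
  have e2 : (qS k).trans (str k A) = Function.Embedding.inr.trans Function.Embedding.inr := by
    ext i
    rfl
  rw [e1, e2]

end rep

/-- **PART II** -/
theorem partII : PartII := by
  intro k A C _ _ _ c W _ lam h1 h2
  let Z0 : MG c k W := ⟨F0 lam, F0_good c lam h1 h2⟩
  let ev : AddMonoid.End (MG c k W) →+ W :=
    { toFun := fun e => (e Z0).1 ∅ 1
      map_zero' := rfl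
      map_add' := fun _ _ => rfl }
  refine ⟨AddMonoid.End (MG c k W), inferInstance, SU c W, ev, SU_Anti c W, ?_⟩
  intro w us hnd hall
  have h3 := Rep_val (k := k) (W := W) c w us hnd Z0 ∅ 1 (disjoint_empty_right _) (Sp_one ∅)
  have h4 : (pl us).toFinset ∪ w.toFinset ∪ ∅ = univ := by
    ext a
    rw [union_empty, mem_union, List.mem_toFinset, List.mem_toFinset]
    have h5 := hall a
    rw [List.mem_append] at h5
    exact ⟨fun _ => mem_univ _, fun _ => h5.symm⟩
  have h5 : Z0.1 univ = fun σ => lam (g σ) := by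
    funext σ
    exact if_pos rfl
  rw [h4, h5, evP_lam, g_one, one_mul] at h3
  have h7 := sub_eq_zero.2 (act_final (k := k) w us hnd)
  rw [← map_sub] at h7
  have h6 := h1 _ h7
  rw [map_sub, sub_eq_zero] at h6
  rw [← h6]
  exact h3

end Pool.PI34.EV

end
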