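import Pool.Agent.LibPI54.M39

/-! ### part T1_F -/
section

/-! PI34, theorem T1, file F: from a ring without unit to the ring with unit adjoined. -/

set_option autoImplicit false

namespace Pool.PI34.T1

open Equiv Finset Pool.PI34.C0 Pool.PI34.BA

variable {U : Type} [Ring U] (R : NonUnitalSubring U)

/-- the Capelli identity with all the variables in `R` -/
def CapIn (R : NonUnitalSubring U) (n : ℕ) : Prop :=
  ∀ (v : Fin (n + 1) → U) (x : Fin n → U), (∀ i, v i ∈ R) → (∀ i, x i ∈ R) →
    ∑ σ : Perm (Fin n), ((Perm.sign σ : ℤˣ) : ℤ) • capMono v x σ = 0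

/-! ### sums over cosets -/

theorem sum_cosetL {G H M : Type*} [Group G] [Fintype G] [DecidableEq G] [Group H] [Fintype H]
    [AddCommMonoid M] (φ : H →* G) (hφ : Function.Injective φ) (F : G → M)
    (h : ∀ g, ∑ k : H, F (g * φ k) = 0) : ∑ g, F g = 0 := by
  classical
  rw [← Finset.sum_fiberwise (s := univ) (g := fun g : G => (QuotientGroup.mk g : G ⧸ φ.range))]
  apply Finset.sum_eq_zero
  intro q _
  obtain ⟨g0, rfl⟩ := QuotientGroup.mk_surjective q
  have h1 : (univ.filter fun g : G => (QuotientGroup.mk g : G ⧸ φ.range) = QuotientGroup.mk g0) =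
      univ.image (fun k : H => g0 * φ k) := by
    ext g
    simp only [mem_filter, mem_univ, true_and, mem_image]
    constructor
    · intro hg
      have h2 := QuotientGroup.eq.1 hg.symm
      obtain ⟨k, hk⟩ := h2
      exact ⟨k, by rw [hk]; group⟩
    · rintro ⟨k, rfl⟩
      refine (QuotientGroup.eq.2 ?_).symm
      exact ⟨k, by group⟩
  rw [h1, Finset.sum_image]
  · exact h g0
  · intro a _ b _ hab
    exact hφ (mul_left_cancel hab)

theorem sum_cosetR {G H M : Type*} [Group G] [Fintype G] [DecidableEq G] [Group H] [Fintype H]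
    [AddCommMonoid M] (φ : H →* G) (hφ : Function.Injective φ) (F : G → M)
    (h : ∀ g, ∑ k : H, F (φ k * g) = 0) : ∑ g, F g = 0 := by
  rw [← Equiv.sum_comp (Equiv.inv G)]
  refine sum_cosetL φ hφ (fun g => F ((Equiv.inv G) g)) fun g => ?_
  rw [← h g⁻¹, ← Equiv.sum_comp (Equiv.inv H)]
  refine Finset.sum_congr rfl fun k _ => ?_
  simp [Equiv.inv_apply, mul_inv_rev]

/-! ### regrouping of words -/

theorem regroup_nat (n : ℕ) (v w : ℕ → U) :
    v 0 * (List.ofFn fun i : Fin (2 * n + 1) => w i * v (i + 1)).prod =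
      (v 0 * w 0 * v 1) * (List.ofFn fun i : Fin n => w (2 * i + 1) *
        (v (2 * (i + 1)) * w (2 * (i + 1)) * v (2 * (i + 1) + 1))).prod := by
  induction n with
  | zero => simp [mul_assoc]
  | succ n ih =>
    have e1 : 2 * (n + 1) + 1 = (2 * n + 1) + 1 + 1 := by ring
    rw [List.ofFn_congr e1, List.ofFn_succ', List.ofFn_succ']
    rw [List.ofFn_succ' (n := n)]
    simp only [List.concat_eq_append, List.prod_append, List.prod_singleton, Fin.val_cast,
      Fin.val_castSucc, Fin.val_last]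
    have e2 : 2 * (n + 1) = 2 * n + 1 + 1 := by ring
    rw [e2]
    simp only [← mul_assoc] at ih ⊢
    rw [ih]

/-- merging the letter at the position `p` into the coefficients -/
theorem merge (m : ℕ) : ∀ (p : Fin (m + 1)) (v : Fin (m + 2) → U) (a : U),
    ∃ v' : Fin (m + 1) → U, ∀ w : Fin (m + 1) → U, w p = a →
      v 0 * (List.ofFn fun k => w k * v k.succ).prod =
      v' 0 * (List.ofFn fun j : Fin m => w (p.succAbove j) * v' j.succ).prod := by
  induction m with
  | zero =>
    intro p v a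
    refine ⟨fun _ => v 0 * a * v 1, fun w hw => ?_⟩
    have hp : p = 0 := Fin.fin_one_eq_zero p
    subst hp
    simp [← hw, mul_assoc]
  | succ m ih =>
    intro p v a
    refine Fin.cases ?_ (fun q => ?_) p
    · refine ⟨Fin.cons (v 0 * a * v 1) fun j => v j.succ.succ, fun w hw => ?_⟩
      rw [List.ofFn_succ, List.prod_cons]
      simp only [Fin.cons_zero, Fin.cons_succ, Fin.succAbove_zero, ← hw, mul_assoc,
        Fin.succ_zero_eq_one]
    · obtain ⟨v'', hv''⟩ := ih q (fun j => v j.succ) a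
      refine ⟨Fin.cons (v 0) v'', fun w hw => ?_⟩
      conv_lhs => rw [List.ofFn_succ, List.prod_cons]
      conv_rhs => rw [List.ofFn_succ, List.prod_cons]
      have := hv'' (fun j => w j.succ) hw
      simp only [Fin.cons_zero, Fin.cons_succ, Fin.succ_succAbove_succ, Fin.succ_succAbove_zero] at this ⊢
      simp only [mul_assoc] at this ⊢
      rw [this]

/-! ### step 1 -/

/-- the embedding of the positions `1, 3, …, 2n-1` -/
def oddE (n : ℕ) : Fin n ↪ Fin (2 * n + 1) where
  toFun i := ⟨2 * i + 1, by omega⟩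
  inj' a b h := by
    simp only [Fin.mk.injEq] at h
    exact Fin.ext (by omega)

/-- the group homomorphism extending permutations along an embedding -/
def viaHom {n m : ℕ} (f : Fin n ↪ Fin m) : Perm (Fin n) →* Perm (Fin m) :=
  Equiv.Perm.extendDomainHom f.toEquivRange

theorem viaHom_inj {n m : ℕ} (f : Fin n ↪ Fin m) : Function.Injective (viaHom f) :=
  Equiv.Perm.extendDomainHom_injective _

theorem viaHom_eq {n m : ℕ} (f : Fin n ↪ Fin m) (e : Perm (Fin n)) :
    viaHom f e = e.viaFintypeEmbedding f := rfl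

theorem viaHom_apply {n m : ℕ} (f : Fin n ↪ Fin m) (e : Perm (Fin n)) (i : Fin n) :
    viaHom f e (f i) = f (e i) := by
  rw [viaHom_eq, Equiv.Perm.viaFintypeEmbedding_apply_image]

theorem viaHom_apply' {n m : ℕ} (f : Fin n ↪ Fin m) (e : Perm (Fin n)) (i : Fin m)
    (hi : i ∉ Set.range f) : viaHom f e i = i := by
  rw [viaHom_eq, Equiv.Perm.viaFintypeEmbedding_apply_notMem_range _ _ hi]

theorem viaHom_sign {n m : ℕ} (f : Fin n ↪ Fin m) (e : Perm (Fin n)) :
    Perm.sign (viaHom f e) = Perm.sign e := by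
  rw [viaHom_eq, Equiv.Perm.viaFintypeEmbedding_sign]

theorem regroup_fin (n : ℕ) (v : Fin (2 * n + 2) → U) (w : Fin (2 * n + 1) → U) :
    v 0 * (List.ofFn fun i : Fin (2 * n + 1) => w i * v i.succ).prod =
      (v ⟨0, by omega⟩ * w ⟨0, by omega⟩ * v ⟨1, by omega⟩) *
        (List.ofFn fun i : Fin n => w (oddE n i) *
        (v ⟨2 * (i + 1), by omega⟩ * w ⟨2 * (i + 1), by omega⟩ * v ⟨2 * (i + 1) + 1, by omega⟩)).prod := by
  have h := regroup_nat n (fun j => if h : j < 2 * n + 2 then v ⟨j, h⟩ else 0)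
    (fun j => if h : j < 2 * n + 1 then w ⟨j, h⟩ else 0)
  have e1 : (List.ofFn fun i : Fin (2 * n + 1) =>
      (if h : (i : ℕ) < 2 * n + 1 then w ⟨i, h⟩ else 0) *
        (if h : (i : ℕ) + 1 < 2 * n + 2 then v ⟨(i : ℕ) + 1, h⟩ else 0)) =
      List.ofFn fun i : Fin (2 * n + 1) => w i * v i.succ := by
    congr 1
    funext i
    rw [dif_pos i.2, dif_pos (by omega)]
    rfl
  have e2 : (List.ofFn fun i : Fin n =>
      (if h : 2 * (i : ℕ) + 1 < 2 * n + 1 then w ⟨2 * i + 1, h⟩ else 0) *
        ((if h : 2 * ((i : ℕ) + 1) < 2 * n + 2 then v ⟨2 * (i + 1), h⟩ else 0) *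
        (if h : 2 * ((i : ℕ) + 1) < 2 * n + 1 then w ⟨2 * (i + 1), h⟩ else 0) *
        (if h : 2 * ((i : ℕ) + 1) + 1 < 2 * n + 2 then v ⟨2 * (i + 1) + 1, h⟩ else 0))) =
      List.ofFn fun i : Fin n => w (oddE n i) *
        (v ⟨2 * (i + 1), by omega⟩ * w ⟨2 * (i + 1), by omega⟩ * v ⟨2 * (i + 1) + 1, by omega⟩) := by
    congr 1
    funext i
    have := i.2
    rw [dif_pos (by omega), dif_pos (by omega), dif_pos (by omega), dif_pos (by omega)]
    rfl
  simp only [e1, e2] at h
  rw [dif_pos (by omega), dif_pos (by omega), dif_pos (by omega)] at h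
  exact h

/-- STEP 1: `CapIn R n` implies the Capelli identity of rank `2n + 1` with `x` in `R` and `v` in `U`.
In `v_0 x_{σ 0} v_1 ⋯ x_{σ 2n} v_{2n+1}` use the variables at the odd positions `1, 3, …` as alternating variables and
`v_0 x_{σ 0} v_1`, `v_2 x_{σ 2} v_3`, … (in `R`) as the coefficients: sum first over the permutations of the variables
at the positions `1, 3, …, 2n-1`. -/
theorem cap_step1 (hR : ∀ u r, r ∈ R → u * r ∈ R) (hR' : ∀ u r, r ∈ R → r * u ∈ R) (n : ℕ)
    (h : CapIn R n) (v : Fin (2 * n + 2) → U) (x : Fin (2 * n + 1) → U) (hx : ∀ i, x i ∈ R) :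
    ∑ σ : Perm (Fin (2 * n + 1)), ((Perm.sign σ : ℤˣ) : ℤ) • capMono v x σ = 0 := by
  classical
  refine sum_cosetL (viaHom (oddE n)) (viaHom_inj _) _ fun g => ?_
  have hev : ∀ (k : Perm (Fin n)) (i : Fin (2 * n + 1)), Even (i : ℕ) → viaHom (oddE n) k i = i := by
    intro k i hi
    apply viaHom_apply'
    rintro ⟨j, hj⟩
    have : (i : ℕ) = 2 * j + 1 := by rw [← hj]; rfl
    rw [this] at hi
    exact (Nat.not_even_iff_odd.2 ⟨j, rfl⟩) hi
  have key := h (Fin.cons (v ⟨0, by omega⟩ * x (g ⟨0, by omega⟩) * v ⟨1, by omega⟩)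
      (fun i => v ⟨2 * (i + 1), by omega⟩ * x (g ⟨2 * (i + 1), by omega⟩) * v ⟨2 * (i + 1) + 1, by omega⟩))
    (fun i => x (g (oddE n i)))
    (fun i => by
      refine Fin.cases ?_ (fun j => ?_) i
      · exact hR' _ _ (hR _ _ (hx _))
      · exact hR' _ _ (hR _ _ (hx _)))
    (fun i => hx _)
  have hk : ∀ k : Perm (Fin n), ((Perm.sign (g * viaHom (oddE n) k) : ℤˣ) : ℤ) •
      capMono v x (g * viaHom (oddE n) k) = ((Perm.sign g : ℤˣ) : ℤ) • (((Perm.sign k : ℤˣ) : ℤ) •
      capMono (Fin.cons (v ⟨0, by omega⟩ * x (g ⟨0, by omega⟩) * v ⟨1, by omega⟩)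
      (fun i => v ⟨2 * (i + 1), by omega⟩ * x (g ⟨2 * (i + 1), by omega⟩) * v ⟨2 * (i + 1) + 1, by omega⟩))
    (fun i => x (g (oddE n i))) k) := by
    intro k
    rw [Perm.sign_mul, viaHom_sign, Units.val_mul, mul_smul]
    congr 2
    unfold capMono
    rw [regroup_fin n v (fun i => x ((g * viaHom (oddE n) k) i))]
    simp only [Fin.cons_zero, Fin.cons_succ, Perm.mul_apply, viaHom_apply]
    rw [hev k ⟨0, by omega⟩ (by simp)]
    congr 3
    funext i
    rw [hev k ⟨2 * (i + 1), by omega⟩ (by simp)]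
  rw [Finset.sum_congr rfl fun k _ => hk k, ← Finset.smul_sum, key, smul_zero]

/-! ### step 2 -/

/-- at most one argument outside `R` -/
theorem cap_one (m : ℕ)
    (hm : ∀ (v : Fin (m + 1) → U) (x : Fin m → U), (∀ i, x i ∈ R) →
      ∑ σ : Perm (Fin m), ((Perm.sign σ : ℤˣ) : ℤ) • capMono v x σ = 0)
    (v : Fin (m + 2) → U) (x : Fin (m + 1) → U) (i : Fin (m + 1)) (hx : ∀ j, j ≠ i → x j ∈ R) :
    ∑ σ : Perm (Fin (m + 1)), ((Perm.sign σ : ℤˣ) : ℤ) • capMono v x σ = 0 := by
  classical
  refine sum_cosetR (viaHom (Fin.succAboveEmb i)) (viaHom_inj _) _ fun g => ?_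
  obtain ⟨v', hv'⟩ := merge m (g.symm i) v (x i)
  -- the permutation `τ`
  have hex : ∀ j : Fin m, ∃ t : Fin m, i.succAbove t = g ((g.symm i).succAbove j) := by
    intro j
    apply Fin.exists_succAbove_eq
    intro h
    have h2 : (g.symm i).succAbove j = g.symm i := (Equiv.eq_symm_apply g).2 h
    exact Fin.succAbove_ne _ _ h2
  choose t ht using hex
  have tinj : Function.Injective t := by
    intro a b hab
    have h1 := ht a
    rw [hab, ht b] at h1
    exact (Fin.succAbove_right_injective (g.injective h1)).symm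
  have tbij : Function.Bijective t := Finite.injective_iff_bijective.1 tinj
  set τ : Perm (Fin m) := Equiv.ofBijective t tbij with hτ
  have key := hm v' (fun j => x (i.succAbove j)) (fun j => hx _ (Fin.succAbove_ne _ _))
  have hk : ∀ k : Perm (Fin m), ((Perm.sign (viaHom (Fin.succAboveEmb i) k * g) : ℤˣ) : ℤ) •
      capMono v x (viaHom (Fin.succAboveEmb i) k * g) =
      (((Perm.sign g : ℤˣ) : ℤ) * ((Perm.sign τ : ℤˣ) : ℤ)) • (((Perm.sign (k * τ) : ℤˣ) : ℤ) •
        capMono v' (fun j => x (i.succAbove j)) (k * τ)) := by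
    intro k
    have hsgn : ((Perm.sign (viaHom (Fin.succAboveEmb i) k * g) : ℤˣ) : ℤ) =
        (((Perm.sign g : ℤˣ) : ℤ) * ((Perm.sign τ : ℤˣ) : ℤ)) * ((Perm.sign (k * τ) : ℤˣ) : ℤ) := by
      rw [Perm.sign_mul, viaHom_sign, Perm.sign_mul, Units.val_mul, Units.val_mul]
      have h2 : ((Perm.sign τ : ℤˣ) : ℤ) * ((Perm.sign τ : ℤˣ) : ℤ) = 1 := by
        rw [← Units.val_mul, Int.units_mul_self, Units.val_one]
      linear_combination (-(((Perm.sign g : ℤˣ) : ℤ) * ((Perm.sign k : ℤˣ) : ℤ))) * h2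
    rw [hsgn, mul_smul]
    congr 2
    unfold capMono
    rw [hv' (fun j => x ((viaHom (Fin.succAboveEmb i) k * g) j)) ?_]
    · congr 3
      funext j
      congr 2
      rw [Perm.mul_apply, ← ht j, Perm.mul_apply]
      exact viaHom_apply (Fin.succAboveEmb i) k (t j)
    · simp only [Perm.mul_apply, Equiv.apply_symm_apply]
      congr 1
      apply viaHom_apply'
      rintro ⟨j, hj⟩
      exact Fin.succAbove_ne _ _ hj
  rw [Finset.sum_congr rfl fun k _ => hk k, ← Finset.smul_sum]
  rw [Fintype.sum_equiv (Equiv.mulRight τ) (fun k : Perm (Fin m) => ((Perm.sign (k * τ) : ℤˣ) : ℤ) •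
        capMono v' (fun j => x (i.succAbove j)) (k * τ)) (fun k : Perm (Fin m) => ((Perm.sign k : ℤˣ) : ℤ) •
        capMono v' (fun j => x (i.succAbove j)) k) (fun k => rfl)]
  rw [key, smul_zero]

/-- the Capelli polynomial as an alternating map -/
noncomputable def capAlt {m : ℕ} (v : Fin (m + 1) → U) : U [⋀^Fin m]→ₗ[ℤ] U :=
  MultilinearMap.alternatization
    ((LinearMap.mulLeft ℤ (v 0)).compMultilinearMap
      ((MultilinearMap.mkPiAlgebraFin ℤ m U).compLinearMap fun i => LinearMap.mulRight ℤ (v i.succ)))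

theorem capAlt_apply {m : ℕ} (v : Fin (m + 1) → U) (x : Fin m → U) :
    capAlt v x = ∑ σ : Perm (Fin m), ((Perm.sign σ : ℤˣ) : ℤ) • capMono v x σ := by
  unfold capAlt
  rw [MultilinearMap.alternatization_apply]
  refine Finset.sum_congr rfl fun σ _ => ?_
  rfl

theorem alt_step1 {m : ℕ} (f : U [⋀^Fin m]→ₗ[ℤ] U)
    (hU : ∀ u : U, ∃ (c : ℤ) (r : U), r ∈ R ∧ u = c + r)
    (h0 : ∀ (x : Fin m → U) (i : Fin m), (∀ j, j ≠ i → x j ∈ R) → f x = 0) (i : Fin m)
    (B : Finset (Fin m)) : ∀ x : Fin m → U, x i = 1 → i ∉ B → (∀ j, j ≠ i → j ∉ B → x j ∈ R) → f x = 0 := by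
  induction B using Finset.induction_on with
  | empty =>
    intro x _ _ hx
    exact h0 x i fun j hj => hx j hj (by simp)
  | insert b B hb ih =>
    intro x hxi hi hx
    have hbi : i ≠ b := fun h => hi (h ▸ Finset.mem_insert_self _ _)
    obtain ⟨c, r, hr, hcr⟩ := hU (x b)
    have e1 : x = Function.update x b (c • (1 : U) + r) := by
      rw [show c • (1 : U) + r = x b by rw [hcr]; simp, Function.update_eq_self]
    rw [e1, AlternatingMap.map_update_add, AlternatingMap.map_update_smul]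
    have h1 : f (Function.update x b 1) = 0 := by
      apply f.map_eq_zero_of_eq _ _ hbi
      rw [Function.update_of_ne hbi, Function.update_self, hxi]
    rw [h1, smul_zero, zero_add]
    apply ih
    · rw [Function.update_of_ne hbi, hxi]
    · exact fun h => hi (Finset.mem_insert_of_mem h)
    · intro j hj hjB
      by_cases hjb : j = b
      · subst hjb
        rw [Function.update_self]
        exact hr
      · rw [Function.update_of_ne hjb]
        exact hx j hj (by simp [hjb, hjB])

theorem alt_step2 {m : ℕ} (f : U [⋀^Fin m]→ₗ[ℤ] U) (hm : 0 < m)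
    (hU : ∀ u : U, ∃ (c : ℤ) (r : U), r ∈ R ∧ u = c + r)
    (h0 : ∀ (x : Fin m → U) (i : Fin m), (∀ j, j ≠ i → x j ∈ R) → f x = 0)
    (B : Finset (Fin m)) : ∀ x : Fin m → U, (∀ j, j ∉ B → x j ∈ R) → f x = 0 := by
  induction B using Finset.induction_on with
  | empty =>
    intro x hx
    exact h0 x ⟨0, hm⟩ fun j hj => hx j (by simp)
  | insert b B hb ih =>
    intro x hx
    obtain ⟨c, r, hr, hcr⟩ := hU (x b)
    have e1 : x = Function.update x b (c • (1 : U) + r) := by
      rw [show c • (1 : U) + r = x b by rw [hcr]; simp, Function.update_eq_self]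
    rw [e1, AlternatingMap.map_update_add, AlternatingMap.map_update_smul]
    have h1 : f (Function.update x b 1) = 0 := by
      refine alt_step1 R f hU h0 b B _ (Function.update_self _ _ _) hb ?_
      intro j hj hjB
      rw [Function.update_of_ne hj]
      exact hx j (by simp [hj, hjB])
    rw [h1, smul_zero, zero_add]
    apply ih
    intro j hjB
    by_cases hjb : j = b
    · subst hjb
      rw [Function.update_self]
      exact hr
    · rw [Function.update_of_ne hjb]
      exact hx j (by simp [hjb, hjB])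

/-- STEP 2: if moreover `U = ℤ + R`, then `U` satisfies the Capelli identity of rank `2n + 2`.
Write `x_i = c_i + r_i`; two equal arguments give `0`, so at most one `x_i` is `1`; the sum over its position is a
signed sum of Capelli values of rank `2n + 1` with arguments in `R` (likewise if no `x_i` is `1`: expand with respect to
the position of the last variable). -/
theorem cap_step2 (hR : ∀ u r, r ∈ R → u * r ∈ R) (hR' : ∀ u r, r ∈ R → r * u ∈ R)
    (hU : ∀ u : U, ∃ (c : ℤ) (r : U), r ∈ R ∧ u = c + r) (n : ℕ) (h : CapIn R n) :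
    Cap U (2 * n + 2) := by
  intro v x
  rw [← capAlt_apply]
  refine alt_step2 R (capAlt v) (by omega) hU ?_ univ x (by simp)
  intro x i hx
  rw [capAlt_apply]
  exact cap_one R (2 * n + 1) (fun v x hx => cap_step1 R hR hR' n h v x hx) v x i hx

/-! ### the unitization of an identity -/

/-- the pair of the pair number `i` at the place `j` -/
def pr (d : ℕ) : Fin (d + 1) × Fin 2 ≃ Fin ((d + 1) * 2) := finProdFinEquiv

/-- the permutation `(i, j) ↦ (τ i, j + r i)` -/
def shp (d : ℕ) (τ : Perm (Fin (d + 1))) (r : Fin (d + 1) → Fin 2) : Perm (Fin ((d + 1) * 2)) :=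
  (pr d).symm.trans ((Equiv.prodShear τ (fun i => if r i = 0 then 1 else Equiv.swap 0 1)).trans (pr d))

theorem shp_pr (d : ℕ) (τ : Perm (Fin (d + 1))) (r : Fin (d + 1) → Fin 2) (i : Fin (d + 1)) (j : Fin 2) :
    shp d τ r (pr d (i, j)) = pr d (τ i, (if r i = 0 then (1 : Perm (Fin 2)) else Equiv.swap 0 1) j) := by
  simp [shp, Equiv.prodShear]

theorem shp_one (d : ℕ) (τ : Perm (Fin (d + 1))) (r : Fin (d + 1) → Fin 2) (h : shp d τ r = 1) :
    τ = 1 ∧ r = 0 := by
  have h1 : ∀ i j, (τ i, (if r i = 0 then (1 : Perm (Fin 2)) else Equiv.swap 0 1) j) = (i, j) := by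
    intro i j
    apply (pr d).injective
    rw [← shp_pr, h]
    rfl
  refine ⟨Equiv.ext fun i => (Prod.ext_iff.1 (h1 i 0)).1, funext fun i => ?_⟩
  by_contra hr
  have hr' : ¬ r i = 0 := hr
  have h2 := (Prod.ext_iff.1 (h1 i 0)).2
  rw [if_neg hr'] at h2
  simp at h2

theorem shp_one' (d : ℕ) : shp d 1 0 = 1 := by
  ext k
  obtain ⟨⟨i, j⟩, rfl⟩ := (pr d).surjective k
  rw [shp_pr]
  simp

theorem mono_pair {U : Type} [Ring U] (d : ℕ) (X : Fin ((d + 1) * 2) → U) :
    (List.ofFn fun k => X k).prod =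
      (List.ofFn fun i : Fin (d + 1) => X (pr d (i, 0)) * X (pr d (i, 1))).prod := by
  rw [List.ofFn_mul, List.prod_flatten, List.map_ofFn]
  congr 2
  funext i
  simp only [Function.comp, List.ofFn_succ, List.ofFn_zero, List.prod_cons, List.prod_nil, mul_one]
  congr 2
  · apply Fin.ext
    simp [pr, finProdFinEquiv]
    ring
  · apply Fin.ext
    simp [pr, finProdFinEquiv]
    ring

theorem mono_shp {U : Type} [Ring U] (d : ℕ) (X : Fin ((d + 1) * 2) → U) (τ : Perm (Fin (d + 1)))
    (r : Fin (d + 1) → Fin 2) :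
    mono X (shp d τ r) = (List.ofFn fun i : Fin (d + 1) => X (pr d (τ i, r i)) *
      X (pr d (τ i, (r i).rev))).prod := by
  unfold mono
  rw [mono_pair d (fun k => X (shp d τ r k))]
  congr 2
  funext i
  rw [shp_pr, shp_pr]
  generalize r i = c
  fin_cases c <;> simp [Fin.rev]

theorem mono_comm {U : Type} [Ring U] (d : ℕ) (X : Fin ((d + 1) * 2) → U) (τ : Perm (Fin (d + 1))) :
    mono (fun i : Fin (d + 1) => X (pr d (i, 0)) * X (pr d (i, 1)) - X (pr d (i, 1)) * X (pr d (i, 0))) τ =
      ∑ r : Fin (d + 1) → Fin 2, (∏ i, (if r i = 0 then (1 : ℤ) else -1)) • mono X (shp d τ r) := by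
  have e1 : (fun i : Fin (d + 1) => X (pr d (τ i, 0)) * X (pr d (τ i, 1)) -
      X (pr d (τ i, 1)) * X (pr d (τ i, 0))) =
      fun i => ∑ j : Fin 2, (if j = 0 then (1 : ℤ) else -1) • (X (pr d (τ i, j)) * X (pr d (τ i, j.rev))) := by
    funext i
    rw [Fin.sum_univ_two]
    simp [Fin.rev, sub_eq_add_neg]
  have e2 : mono (fun i : Fin (d + 1) => X (pr d (i, 0)) * X (pr d (i, 1)) -
      X (pr d (i, 1)) * X (pr d (i, 0))) τ = MultilinearMap.mkPiAlgebraFin ℤ (d + 1) U
      (fun i : Fin (d + 1) => X (pr d (τ i, 0)) * X (pr d (τ i, 1)) -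
      X (pr d (τ i, 1)) * X (pr d (τ i, 0))) := by
    rw [MultilinearMap.mkPiAlgebraFin_apply]
    rfl
  rw [e2, e1, MultilinearMap.map_sum]
  refine Finset.sum_congr rfl fun r _ => ?_
  rw [MultilinearMap.map_smul_univ, MultilinearMap.mkPiAlgebraFin_apply, mono_shp]

/-- a multilinear identity of `R` gives one of `U` (substitute commutators `[y_i, z_i] ∈ R`) -/
theorem mpi_of_sub (hU : ∀ u : U, ∃ (c : ℤ) (r : U), r ∈ R ∧ u = c + r)
    (hR : ∀ u r, r ∈ R → u * r ∈ R) (hR' : ∀ u r, r ∈ R → r * u ∈ R) (d : ℕ)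
    (a : Perm (Fin (d + 1)) → ℤ) (ha : a 1 = 1)
    (h : ∀ x : Fin (d + 1) → U, (∀ i, x i ∈ R) → ∑ σ, a σ • mono x σ = 0) :
    MPI (⊥ : Ideal U) := by
  classical
  have hcomm : ∀ y z : U, y * z - z * y ∈ R := by
    intro y z
    obtain ⟨c, r, hr, rfl⟩ := hU y
    obtain ⟨c', r', hr', rfl⟩ := hU z
    have e : ((c : U) + r) * ((c' : U) + r') - ((c' : U) + r') * ((c : U) + r) = r * r' - r' * r := by
      have h1 := Int.cast_commute c r'
      have h2 := Int.cast_commute c' r
      have h3 := Int.cast_commute c (c' : U)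
      simp only [Commute, SemiconjBy] at h1 h2 h3
      simp only [add_mul, mul_add, h1, h2, h3]
      abel
    rw [e]
    exact sub_mem (hR _ _ hr') (hR _ _ hr)
  refine ⟨(d + 1) * 1 + d, fun σ => ∑ τ : Perm (Fin (d + 1)), ∑ r : Fin (d + 1) → Fin 2,
    if shp d τ r = σ then a τ * (∏ i, (if r i = 0 then (1 : ℤ) else -1)) else 0, ?_, ?_⟩
  · have h1 : ∀ (τ : Perm (Fin (d + 1))) (r : Fin (d + 1) → Fin 2), (τ, r) ≠ (1, 0) →
        (if shp d τ r = 1 then a τ * (∏ i, (if r i = 0 then (1 : ℤ) else -1)) else 0) = 0 := by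
      intro τ r hne
      rw [if_neg]
      intro h2
      obtain ⟨h3, h4⟩ := shp_one d τ r h2
      exact hne (by rw [h3, h4])
    show (∑ τ : Perm (Fin (d + 1)), ∑ r : Fin (d + 1) → Fin 2,
      if shp d τ r = 1 then a τ * (∏ i, (if r i = 0 then (1 : ℤ) else -1)) else 0) = 1
    rw [Finset.sum_eq_single (1 : Perm (Fin (d + 1))), Finset.sum_eq_single (0 : Fin (d + 1) → Fin 2)]
    · rw [if_pos (shp_one' d), ha]
      simp
    · intro r _ hr
      exact h1 _ _ (by simpa using hr)
    · intro h; exact absurd (mem_univ _) h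
    · intro τ _ hτ
      exact Finset.sum_eq_zero fun r _ => h1 _ _ (by simp [hτ])
    · intro h; exact absurd (mem_univ _) h
  · intro X
    rw [Submodule.mem_bot]
    show ∑ σ : Perm (Fin ((d + 1) * 2)), (∑ τ : Perm (Fin (d + 1)), ∑ r : Fin (d + 1) → Fin 2,
      if shp d τ r = σ then a τ * (∏ i, (if r i = 0 then (1 : ℤ) else -1)) else 0) • mono X σ = 0
    have h2 := h (fun i : Fin (d + 1) => X (pr d (i, 0)) * X (pr d (i, 1)) -
      X (pr d (i, 1)) * X (pr d (i, 0))) (fun i => hcomm _ _)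
    rw [← h2]
    simp only [Finset.sum_smul]
    rw [Finset.sum_comm]
    refine Finset.sum_congr rfl fun τ _ => ?_
    rw [Finset.sum_comm, mono_comm, Finset.smul_sum]
    refine Finset.sum_congr rfl fun r _ => ?_
    simp only [ite_smul, zero_smul]
    rw [Finset.sum_ite_eq]
    simp [mul_smul]

end Pool.PI34.T1

end

/-! ### part T1_C -/
section

/-! PI34, theorem T1, file C: the string system of a ring. -/

set_option autoImplicit false

namespace Pool.PI34.T1

open Equiv Finset Pool.PI34.C0 Pool.PI34.BA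

variable {U : Type} [Ring U] {m : ℕ}

/-- the group of functions `(Fin m → U) → U` generated by the `r ↦ v_0 r_{σ 0} v_1 ⋯ r_{σ (m-1)} v_m` -/
def VV (U : Type) [Ring U] (m : ℕ) : AddSubgroup ((Fin m → U) → U) :=
  AddSubgroup.closure {F | ∃ (v : Fin (m + 1) → U) (σ : Perm (Fin m)), F = fun r => capMono v r σ}

/-- a monomial is of the form `A c B` as a function of one variable `c` -/
theorem capMono_update (v : Fin (m + 1) → U) (σ : Perm (Fin m)) (r : Fin m → U) (i : Fin m) :
    ∃ A B : U, ∀ c : U, capMono v (Function.update r i c) σ = A * c * B := by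
  set j := σ.symm i with hj
  have hji : σ j = i := by rw [hj, Equiv.apply_symm_apply]
  let L : List U := List.ofFn fun l : Fin m => r (σ l) * v l.succ
  refine ⟨v 0 * (L.take j.val).prod, v j.succ * (L.drop (j.val + 1)).prod, fun c => ?_⟩
  have h1 : (List.ofFn fun l : Fin m => Function.update r i c (σ l) * v l.succ) =
      L.set j.val (c * v j.succ) := by
    apply List.ext_getElem
    · simp [L]
    · intro l h2 h3
      have hl : l < m := by simpa using h2
      rw [List.getElem_set]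
      by_cases hlj : j.val = l
      · have h4 : (⟨l, hl⟩ : Fin m) = j := Fin.ext hlj.symm
        rw [if_pos hlj, List.getElem_ofFn, h4, hji, Function.update_self]
      · have h4 : (⟨l, hl⟩ : Fin m) ≠ j := fun h5 => hlj (by rw [← h5])
        have h5 : σ ⟨l, hl⟩ ≠ i := fun h6 => h4 (σ.injective (h6.trans hji.symm))
        rw [if_neg hlj, List.getElem_ofFn, List.getElem_ofFn, Function.update_of_ne h5]
  have h2 : j.val < L.length := by simp [L]
  rw [capMono, h1, List.prod_set, if_pos h2]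
  simp only [mul_assoc]

/-- the elements of `VV` are additive in each variable -/
theorem VV_update_add (F : (Fin m → U) → U) (hF : F ∈ VV U m) (r : Fin m → U) (i : Fin m)
    (a b : U) : F (Function.update r i (a + b)) =
      F (Function.update r i a) + F (Function.update r i b) := by
  unfold VV at hF
  induction hF using AddSubgroup.closure_induction with
  | mem G hG =>
    obtain ⟨v, σ, rfl⟩ := hG
    obtain ⟨A, B, h⟩ := capMono_update v σ r i
    change capMono v _ σ = capMono v _ σ + capMono v _ σ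
    rw [h, h, h, mul_add, add_mul]
  | zero => simp
  | add G H _ _ hG hH =>
    change G _ + H _ = (G _ + H _) + (G _ + H _)
    rw [hG, hH]
    abel
  | neg G _ hG =>
    change -G _ = -G _ + -G _
    rw [hG]
    abel

theorem VV_update_zero (F : (Fin m → U) → U) (hF : F ∈ VV U m) (r : Fin m → U) (i : Fin m) :
    F (Function.update r i 0) = 0 := by
  have h := VV_update_add F hF r i 0 0
  rw [add_zero] at h
  exact left_eq_add.1 h

/-- right multiplication of the variable `i` by `a` preserves `VV` -/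
theorem VV_right (F : (Fin m → U) → U) (hF : F ∈ VV U m) (i : Fin m) (a : U) :
    (fun r => F (Function.update r i (r i * a))) ∈ VV U m := by
  unfold VV at hF
  induction hF using AddSubgroup.closure_induction with
  | mem G hG =>
    obtain ⟨v, σ, rfl⟩ := hG
    refine AddSubgroup.subset_closure
      ⟨Function.update v (σ.symm i).succ (a * v (σ.symm i).succ), σ, ?_⟩
    funext r
    change capMono v _ σ = capMono _ r σ
    unfold capMono
    rw [Function.update_of_ne (Fin.succ_ne_zero _).symm]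
    congr 2
    congr 1
    funext l
    by_cases hl : σ l = i
    · subst hl
      rw [Function.update_self, Equiv.symm_apply_apply, Function.update_self, mul_assoc]
    · have h1 : l.succ ≠ (σ.symm i).succ := by
        intro h2
        have h3 := Fin.succ_injective _ h2
        exact hl (by rw [h3, Equiv.apply_symm_apply])
      rw [Function.update_of_ne hl, Function.update_of_ne h1]
  | zero => exact AddSubgroup.zero_mem _
  | add G H _ _ hG hH => exact AddSubgroup.add_mem _ hG hH
  | neg G _ hG => exact AddSubgroup.neg_mem _ hG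

theorem VV_perm (F : (Fin m → U) → U) (hF : F ∈ VV U m) (σ : Perm (Fin m)) :
    (fun r => F (r ∘ σ)) ∈ VV U m := by
  unfold VV at hF
  induction hF using AddSubgroup.closure_induction with
  | mem G hG =>
    obtain ⟨v, τ, rfl⟩ := hG
    exact AddSubgroup.subset_closure ⟨v, σ * τ, rfl⟩
  | zero => exact AddSubgroup.zero_mem _
  | add G H _ _ hG hH => exact AddSubgroup.add_mem _ hG hH
  | neg G _ hG => exact AddSubgroup.neg_mem _ hG

/-- the operator `ρ_i(a)` -/
def rhoV (i : Fin m) (a : U) : AddMonoid.End (VV U m) where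
  toFun F := ⟨fun r => F.1 (Function.update r i (r i * a)), VV_right F.1 F.2 i a⟩
  map_zero' := rfl
  map_add' _ _ := rfl

/-- the operator `s(σ)` -/
def sV (σ : Perm (Fin m)) : AddMonoid.End (VV U m) where
  toFun F := ⟨fun r => F.1 (r ∘ σ), VV_perm F.1 F.2 σ⟩
  map_zero' := rfl
  map_add' _ _ := rfl

theorem endV_ext {f g : AddMonoid.End (VV U m)}
    (h : ∀ (F : VV U m) (r : Fin m → U), (f F).1 r = (g F).1 r) : f = g :=
  AddMonoidHom.ext fun F => Subtype.ext (funext fun r => h F r)

/-- the string system of the ring `U`, `m` strands: letters = elements of `U` -/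
def strV (U : Type) [Ring U] (m : ℕ) : Str (Fin m) U (AddMonoid.End (VV U m)) where
  ρ i :=
    { toFun := rhoV i
      map_one' := by
        refine endV_ext fun F r => ?_
        change F.1 (Function.update r i (r i * 1)) = F.1 r
        rw [mul_one, Function.update_eq_self]
      map_mul' := by
        intro a b
        refine endV_ext fun F r => ?_
        change F.1 (Function.update r i (r i * (a * b))) =
          F.1 (Function.update (Function.update r i (r i * a)) i
            (Function.update r i (r i * a) i * b))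
        rw [Function.update_idem, Function.update_self, mul_assoc]
      map_zero' := by
        refine endV_ext fun F r => ?_
        change F.1 (Function.update r i (r i * 0)) = 0
        rw [mul_zero]
        exact VV_update_zero F.1 F.2 r i
      map_add' := by
        intro a b
        refine endV_ext fun F r => ?_
        change F.1 (Function.update r i (r i * (a + b))) =
          F.1 (Function.update r i (r i * a)) + F.1 (Function.update r i (r i * b))
        rw [mul_add]
        exact VV_update_add F.1 F.2 r i _ _ }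
  s :=
    { toFun := sV
      map_one' := rfl
      map_mul' := fun _ _ => rfl }
  comm i j hij a b := by
    refine endV_ext fun F r => ?_
    change F.1 (Function.update (Function.update r i (r i * a)) j
        (Function.update r i (r i * a) j * b)) =
      F.1 (Function.update (Function.update r j (r j * b)) i
        (Function.update r j (r j * b) i * a))
    rw [Function.update_of_ne hij.symm, Function.update_of_ne hij, Function.update_comm hij]
  conj σ i a := by
    refine endV_ext fun F r => ?_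
    change F.1 (Function.update (r ∘ σ) i ((r ∘ σ) i * a)) =
      F.1 (Function.update r (σ i) (r (σ i) * a) ∘ σ)
    have h0 : Function.update (r ∘ σ) i ((r ∘ σ) i * a) =
        Function.update r (σ i) (r (σ i) * a) ∘ σ := by
      funext l
      by_cases hl : l = i
      · subst hl
        simp
      · have h1 : σ l ≠ σ i := fun h2 => hl (σ.injective h2)
        rw [Function.update_of_ne hl, Function.comp_apply, Function.comp_apply,
          Function.update_of_ne h1]
    rw [h0]

/-- splitting of a word at the marked positions -/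
theorem exists_split : ∀ (n : ℕ) (c : U) (v : Fin n → U) (S : Finset (Fin n)) (z0 : Fin n → U),
    ∃ (k : ℕ) (p : Fin k → Fin n) (w0 : U) (w : Fin k → U), Function.Injective p ∧
      (∀ i, i ∈ S ↔ ∃ j, p j = i) ∧ ∀ z : Fin n → U, (∀ i, i ∉ S → z i = z0 i) →
        c * (List.ofFn fun i => z i * v i).prod =
          w0 * (List.ofFn fun j => z (p j) * w j).prod := by
  intro n
  induction n with
  | zero =>
    intro c v S z0
    exact ⟨0, Fin.elim0, c, Fin.elim0, fun i => i.elim0, fun i => i.elim0, fun z _ => by simp⟩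
  | succ n ih =>
    intro c v S z0
    have hS' : ∀ i : Fin n, i ∈ (univ.filter fun i : Fin n => i.succ ∈ S) ↔ i.succ ∈ S := by
      intro i
      simp
    by_cases h0 : (0 : Fin (n + 1)) ∈ S
    · obtain ⟨k, p, w0, w, hp, hpS, hz⟩ := ih (v 0) (fun i => v i.succ)
        (univ.filter fun i : Fin n => i.succ ∈ S) (fun i => z0 i.succ)
      refine ⟨k + 1, Fin.cons 0 (fun j => (p j).succ), c, Fin.cons w0 w, ?_, ?_, ?_⟩
      · intro a b hab
        refine Fin.cases ?_ (fun a' => ?_) a b hab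
        · intro b hb
          refine Fin.cases (fun _ => rfl) (fun b' hb' => ?_) b hb
          simp only [Fin.cons_zero, Fin.cons_succ] at hb'
          exact absurd hb'.symm (Fin.succ_ne_zero _)
        · intro b hb
          refine Fin.cases (fun hb' => ?_) (fun b' hb' => ?_) b hb
          · simp only [Fin.cons_zero, Fin.cons_succ] at hb'
            exact absurd hb' (Fin.succ_ne_zero _)
          · simp only [Fin.cons_succ] at hb'
            rw [hp (Fin.succ_injective _ hb')]
      · intro i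
        refine Fin.cases ?_ (fun i' => ?_) i
        · exact ⟨fun _ => ⟨0, rfl⟩, fun _ => h0⟩
        · rw [← hS', hpS]
          constructor
          · rintro ⟨j, hj⟩
            exact ⟨j.succ, by rw [Fin.cons_succ, hj]⟩
          · rintro ⟨j, hj⟩
            revert hj
            refine Fin.cases (fun hj => ?_) (fun j' hj => ?_) j
            · rw [Fin.cons_zero] at hj
              exact absurd hj.symm (Fin.succ_ne_zero _)
            · rw [Fin.cons_succ] at hj
              exact ⟨j', Fin.succ_injective _ hj⟩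
      · intro z hz0
        have h1 := hz (fun i => z i.succ) (fun i hi => hz0 i.succ (by rwa [hS'] at hi))
        rw [List.ofFn_succ, List.prod_cons, List.ofFn_succ, List.prod_cons]
        simp only [Fin.cons_zero, Fin.cons_succ]
        rw [mul_assoc (z 0) (v 0), h1, mul_assoc (z 0) w0]
    · obtain ⟨k, p, w0, w, hp, hpS, hz⟩ := ih (c * (z0 0 * v 0)) (fun i => v i.succ)
        (univ.filter fun i : Fin n => i.succ ∈ S) (fun i => z0 i.succ)
      refine ⟨k, fun j => (p j).succ, w0, w, ?_, ?_, ?_⟩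
      · intro a b hab
        exact hp (Fin.succ_injective _ hab)
      · intro i
        refine Fin.cases ?_ (fun i' => ?_) i
        · constructor
          · intro h
            exact absurd h h0
          · rintro ⟨j, hj⟩
            exact absurd hj (Fin.succ_ne_zero _)
        · rw [← hS', hpS]
          constructor
          · rintro ⟨j, hj⟩
            exact ⟨j, congrArg Fin.succ hj⟩
          · rintro ⟨j, hj⟩
            exact ⟨j, Fin.succ_injective _ hj⟩
      · intro z hz0
        have h1 := hz (fun i => z i.succ) (fun i hi => hz0 i.succ (by rwa [hS'] at hi))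
        rw [List.ofFn_succ, List.prod_cons, ← h1, hz0 0 h0]
        simp only [mul_assoc]

/-- the sum over the permutations supported in `T`, transported to `Fin k` -/
theorem sum_permsOn {M : Type} [AddCommGroup M] {k : ℕ} (T : Finset (Fin m))
    (e : Fin k ≃ {x // x ∈ T}) (f : Perm (Fin m) → M) :
    ∑ σ ∈ permsOn T, f σ = ∑ τ : Perm (Fin k), f (τ.extendDomain e) := by
  symm
  refine Finset.sum_bij (fun τ _ => τ.extendDomain e) ?_ ?_ ?_ ?_
  · intro τ _
    simp only [permsOn, mem_filter, mem_univ, true_and]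
    intro x hx
    exact Equiv.Perm.extendDomain_apply_not_subtype _ _ hx
  · intro τ _ τ' _ h
    ext j
    have h1 := congrArg (fun σ : Perm (Fin m) => σ (e j)) h
    simp only [Equiv.Perm.extendDomain_apply_image] at h1
    rw [e.injective (Subtype.ext h1)]
  · intro σ hσ
    simp only [permsOn, mem_filter, mem_univ, true_and] at hσ
    have hT : ∀ x, σ x ∈ T ↔ x ∈ T := by
      intro x
      constructor
      · intro h
        by_contra hx
        rw [hσ x hx] at h
        exact hx h
      · intro h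
        by_contra hx
        have h1 := hσ _ hx
        exact hx (by rw [σ.injective h1]; exact h)
    refine ⟨(e.trans (σ.subtypePerm hT)).trans e.symm, mem_univ _, ?_⟩
    ext x
    by_cases hx : x ∈ T
    · have h1 : x = e (e.symm ⟨x, hx⟩) := by simp
      rw [h1, Equiv.Perm.extendDomain_apply_image]
      simp
    · rw [Equiv.Perm.extendDomain_apply_not_subtype _ _ hx, hσ x hx]
  · intro τ _
    rfl

/-- the Capelli identity of rank `k + 1` kills the antisymmetrizers of rank `k + 1`:
`Σ_{σ ∈ Sym T} sgn σ F(r ∘ σ)` is, for a monomial `F`, plus or minus a value of the Capelli polynomial (the variables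
outside `T` are absorbed in the `v`'s, `U` has a unit). -/
theorem strV_Anti (k : ℕ) (h : Cap U (k + 1)) (m : ℕ) : Anti (strV U m).s k := by
  intro T hT
  -- the statement for monomials
  have key : ∀ (v : Fin (m + 1) → U) (τ : Perm (Fin m)) (r : Fin m → U),
      ∑ σ ∈ permsOn T, ((Perm.sign σ : ℤˣ) : ℤ) • capMono v (r ∘ σ) τ = 0 := by
    intro v τ r
    obtain ⟨k', p, w0, w, hp, hpS, hz⟩ := exists_split m (v 0) (fun i => v i.succ)
      (univ.filter fun i : Fin m => τ i ∈ T) (fun i => r (τ i))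
    have hpT : ∀ j, τ (p j) ∈ T := by
      intro j
      have h1 := (hpS (p j)).2 ⟨j, rfl⟩
      simpa using h1
    have hbij : Function.Bijective (fun j : Fin k' => (⟨τ (p j), hpT j⟩ : {x // x ∈ T})) := by
      constructor
      · intro a b hab
        exact hp (τ.injective (congrArg Subtype.val hab))
      · rintro ⟨x, hx⟩
        have h1 : τ.symm x ∈ univ.filter fun i : Fin m => τ i ∈ T := by simpa using hx
        obtain ⟨j, hj⟩ := (hpS _).1 h1
        exact ⟨j, Subtype.ext (by simp [hj])⟩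
    let e : Fin k' ≃ {x // x ∈ T} := Equiv.ofBijective _ hbij
    have he : ∀ j, ((e j : {x // x ∈ T}) : Fin m) = τ (p j) := fun j => rfl
    have hk : k' = k + 1 := by
      have h1 := Fintype.card_congr e
      rw [Fintype.card_fin, Fintype.card_coe, hT] at h1
      exact h1
    subst hk
    rw [sum_permsOn T e]
    have h2 := h (Fin.cons w0 w) (fun j => r (τ (p j)))
    rw [← h2]
    refine Finset.sum_congr rfl fun σ' _ => ?_
    rw [Equiv.Perm.sign_extendDomain]
    congr 1
    unfold capMono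
    rw [hz (fun i => (r ∘ (σ'.extendDomain e)) (τ i))]
    · simp only [Fin.cons_zero, Fin.cons_succ]
      congr 2
      congr 1
      funext j
      rw [Function.comp_apply, ← he j, Equiv.Perm.extendDomain_apply_image, he]
    · intro i hi
      have hi' : τ i ∉ T := by simpa using hi
      rw [Function.comp_apply, Equiv.Perm.extendDomain_apply_not_subtype _ _ hi']
  have key2 : ∀ F ∈ VV U m, ∀ r : Fin m → U,
      ∑ σ ∈ permsOn T, ((Perm.sign σ : ℤˣ) : ℤ) • F (r ∘ σ) = 0 := by
    intro F hF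
    unfold VV at hF
    induction hF using AddSubgroup.closure_induction with
    | mem G hG =>
      obtain ⟨v, τ, rfl⟩ := hG
      exact key v τ
    | zero => intro r; simp
    | add G H _ _ hG hH =>
      intro r
      simp only [Pi.add_apply, smul_add, Finset.sum_add_distrib, hG r, hH r, add_zero]
    | neg G _ hG =>
      intro r
      simp only [Pi.neg_apply, smul_neg, Finset.sum_neg_distrib, hG r, neg_zero]
  refine endV_ext fun F r => ?_
  let ev : AddMonoid.End (VV U m) →+ U :=
    { toFun := fun f => (f F).1 r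
      map_zero' := rfl
      map_add' := fun _ _ => rfl }
  have h3 : ((anti (strV U m).s T) F).1 r =
      ∑ σ ∈ permsOn T, ((Perm.sign σ : ℤˣ) : ℤ) • F.1 (r ∘ σ) := by
    change ev (anti (strV U m).s T) = _
    unfold anti
    rw [map_sum]
    refine Finset.sum_congr rfl fun σ _ => ?_
    rw [map_zsmul]
    rfl
  rw [h3, key2 F.1 F.2 r]
  rfl

end Pool.PI34.T1

end

/-! ### part T1_B -/
section

/-! PI34, theorem T1, file B: Lewin purity: if `F/I` and `F/J` are torsion free then so is `F/IJ`. -/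

set_option autoImplicit false

namespace Pool.PI34.T1

open scoped TensorProduct

section

variable {X A B : Type} [DecidableEq X] [Ring A] [Ring B]

/-- the Fox derivative with respect to the letter `x`, as a ring homomorphism to the matrices
`[[f ⊗ 1, ∂_x f], [0, 1 ⊗ f]]` over `A ⊗ B`; `a : X → A`, `b : X → B` the images of the letters. -/
noncomputable def fox (a : X → A) (b : X → B) (x : X) :
    FreeAlgebra ℤ X →ₐ[ℤ] Matrix (Fin 2) (Fin 2) (A ⊗[ℤ] B) :=
  FreeAlgebra.lift ℤ fun y => !![a y ⊗ₜ 1, if y = x then 1 else 0; 0, 1 ⊗ₜ b y]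

/-- the Fox derivative `∂_x f ∈ A ⊗ B` -/
noncomputable def dx (a : X → A) (b : X → B) (x : X) (f : FreeAlgebra ℤ X) : A ⊗[ℤ] B :=
  fox a b x f 0 1

theorem lewin_fox_alg (a : X → A) (b : X → B) (x : X) (r : ℤ) :
    fox a b x (algebraMap ℤ _ r) 0 0 = algebraMap ℤ A r ⊗ₜ 1 ∧
    fox a b x (algebraMap ℤ _ r) 0 1 = 0 ∧
    fox a b x (algebraMap ℤ _ r) 1 0 = 0 ∧
    fox a b x (algebraMap ℤ _ r) 1 1 = 1 ⊗ₜ algebraMap ℤ B r := by
  rw [AlgHom.commutes]
  refine ⟨?_, ?_, ?_, ?_⟩
  · rw [Matrix.algebraMap_matrix_apply, if_pos rfl, Algebra.TensorProduct.algebraMap_apply]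
  · rw [Matrix.algebraMap_matrix_apply, if_neg (by decide)]
  · rw [Matrix.algebraMap_matrix_apply, if_neg (by decide)]
  · rw [Matrix.algebraMap_matrix_apply, if_pos rfl, Algebra.TensorProduct.algebraMap_apply']

theorem lewin_fox_entries (a : X → A) (b : X → B) (x : X) (f : FreeAlgebra ℤ X) :
    fox a b x f 0 0 = FreeAlgebra.lift ℤ a f ⊗ₜ 1 ∧ fox a b x f 1 0 = 0 ∧
      fox a b x f 1 1 = 1 ⊗ₜ FreeAlgebra.lift ℤ b f := by
  refine FreeAlgebra.induction ℤ X (motive := fun f => fox a b x f 0 0 =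
    FreeAlgebra.lift ℤ a f ⊗ₜ 1 ∧ fox a b x f 1 0 = 0 ∧
      fox a b x f 1 1 = 1 ⊗ₜ FreeAlgebra.lift ℤ b f) ?_ ?_ ?_ ?_ f
  · intro r
    obtain ⟨h1, -, h3, h4⟩ := lewin_fox_alg a b x r
    rw [h1, h3, h4, AlgHom.commutes, AlgHom.commutes]
    exact ⟨rfl, rfl, rfl⟩
  · intro y
    simp [fox]
  · rintro f g ⟨h1, h2, h3⟩ ⟨k1, k2, k3⟩
    rw [map_mul, map_mul, map_mul]
    refine ⟨?_, ?_, ?_⟩
    · rw [Matrix.mul_apply, Fin.sum_univ_two, h1, k1, k2, mul_zero, add_zero,
        Algebra.TensorProduct.tmul_mul_tmul, one_mul]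
    · rw [Matrix.mul_apply, Fin.sum_univ_two, h2, k2, mul_zero, zero_mul, add_zero]
    · rw [Matrix.mul_apply, Fin.sum_univ_two, h2, h3, k3, zero_mul, zero_add,
        Algebra.TensorProduct.tmul_mul_tmul, one_mul]
  · rintro f g ⟨h1, h2, h3⟩ ⟨k1, k2, k3⟩
    rw [map_add, map_add, map_add]
    refine ⟨?_, ?_, ?_⟩
    · rw [Matrix.add_apply, h1, k1, TensorProduct.add_tmul]
    · rw [Matrix.add_apply, h2, k2, add_zero]
    · rw [Matrix.add_apply, h3, k3, TensorProduct.tmul_add]

theorem fox_eq (a : X → A) (b : X → B) (x : X) (f : FreeAlgebra ℤ X) :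
    fox a b x f = !![FreeAlgebra.lift ℤ a f ⊗ₜ 1, dx a b x f; 0,
      1 ⊗ₜ FreeAlgebra.lift ℤ b f] := by
  obtain ⟨h1, h2, h3⟩ := lewin_fox_entries a b x f
  ext i j
  fin_cases i <;> fin_cases j
  · exact h1
  · rfl
  · exact h2
  · exact h3

theorem dx_mul (a : X → A) (b : X → B) (x : X) (f g : FreeAlgebra ℤ X) :
    dx a b x (f * g) = (FreeAlgebra.lift ℤ a f ⊗ₜ 1) * dx a b x g +
      dx a b x f * (1 ⊗ₜ FreeAlgebra.lift ℤ b g) := by
  obtain ⟨h1, h2, h3⟩ := lewin_fox_entries a b x f
  obtain ⟨k1, k2, k3⟩ := lewin_fox_entries a b x g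
  unfold dx
  rw [map_mul, Matrix.mul_apply, Fin.sum_univ_two, h1, k3]

theorem dx_add (a : X → A) (b : X → B) (x : X) (f g : FreeAlgebra ℤ X) :
    dx a b x (f + g) = dx a b x f + dx a b x g := by
  unfold dx
  rw [map_add, Matrix.add_apply]

theorem dx_alg (a : X → A) (b : X → B) (x : X) (r : ℤ) :
    dx a b x (algebraMap ℤ _ r) = 0 := (lewin_fox_alg a b x r).2.1

theorem dx_ι (a : X → A) (b : X → B) (x y : X) :
    dx a b x (FreeAlgebra.ι ℤ y) = if y = x then 1 else 0 := by
  simp [dx, fox]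

/-- naturality -/
theorem dx_map {A' B' : Type} [Ring A'] [Ring B'] (f : A →+* A') (g : B →+* B') (a : X → A)
    (b : X → B) (x : X) (u : FreeAlgebra ℤ X) :
    Algebra.TensorProduct.map f.toIntAlgHom g.toIntAlgHom (dx a b x u) =
      dx (fun y => f (a y)) (fun y => g (b y)) x u := by
  have h : ((Algebra.TensorProduct.map f.toIntAlgHom g.toIntAlgHom).mapMatrix).comp (fox a b x) =
      fox (fun y => f (a y)) (fun y => g (b y)) x := by
    apply FreeAlgebra.hom_ext
    funext y
    ext i j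
    fin_cases i <;> fin_cases j
    · simp [fox]
    · by_cases hy : y = x
      · simp [fox, hy]
      · simp [fox, hy]
    · simp [fox]
    · simp [fox]
  have h2 := congrArg (fun φ => φ u 0 1) h
  exact h2

omit [DecidableEq X] in
theorem lewin_rl (a : X → A) (b : X → B) (x : X) (c : A) (d : B) (w : A ⊗[ℤ] B) :
    (LinearMap.mulRight ℤ (a x)).rTensor B ((c ⊗ₜ 1) * w) =
      (c ⊗ₜ 1) * (LinearMap.mulRight ℤ (a x)).rTensor B w ∧
    (LinearMap.mulRight ℤ (a x)).rTensor B (w * (1 ⊗ₜ d)) =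
      (LinearMap.mulRight ℤ (a x)).rTensor B w * (1 ⊗ₜ d) ∧
    (LinearMap.mulLeft ℤ (b x)).lTensor A ((c ⊗ₜ 1) * w) =
      (c ⊗ₜ 1) * (LinearMap.mulLeft ℤ (b x)).lTensor A w ∧
    (LinearMap.mulLeft ℤ (b x)).lTensor A (w * (1 ⊗ₜ d)) =
      (LinearMap.mulLeft ℤ (b x)).lTensor A w * (1 ⊗ₜ d) := by
  induction w using TensorProduct.induction_on with
  | zero => simp
  | tmul e f => simp [mul_assoc]
  | add u v hu hv =>
    obtain ⟨h1, h2, h3, h4⟩ := hu
    obtain ⟨k1, k2, k3, k4⟩ := hv
    refine ⟨?_, ?_, ?_, ?_⟩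
    · rw [mul_add, map_add, h1, k1, map_add, mul_add]
    · rw [add_mul, map_add, h2, k2, map_add, add_mul]
    · rw [mul_add, map_add, h3, k3, map_add, mul_add]
    · rw [add_mul, map_add, h4, k4, map_add, add_mul]

/-- `f ⊗ 1 - 1 ⊗ f = Σ_x ( (∂_x f) · (x ⊗ 1) - (1 ⊗ x) · (∂_x f) )`, where `·` means: multiply the `A`-factor on the
right by `x`, the `B`-factor on the left by `x`.  (induction on `f`) -/
theorem dx_fundamental (a : X → A) (b : X → B) (f : FreeAlgebra ℤ X) :
    ∃ Y : Finset X, ∀ Z : Finset X, Y ⊆ Z →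
      (FreeAlgebra.lift ℤ a f) ⊗ₜ[ℤ] (1 : B) - (1 : A) ⊗ₜ[ℤ] (FreeAlgebra.lift ℤ b f) =
        ∑ x ∈ Z, ((LinearMap.mulRight ℤ (a x)).rTensor B (dx a b x f) -
          (LinearMap.mulLeft ℤ (b x)).lTensor A (dx a b x f)) := by
  refine FreeAlgebra.induction ℤ X (motive := fun f => ∃ Y : Finset X, ∀ Z : Finset X, Y ⊆ Z →
      (FreeAlgebra.lift ℤ a f) ⊗ₜ[ℤ] (1 : B) - (1 : A) ⊗ₜ[ℤ] (FreeAlgebra.lift ℤ b f) =
        ∑ x ∈ Z, ((LinearMap.mulRight ℤ (a x)).rTensor B (dx a b x f) -
          (LinearMap.mulLeft ℤ (b x)).lTensor A (dx a b x f))) ?_ ?_ ?_ ?_ f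
  · intro r
    refine ⟨∅, fun Z _ => ?_⟩
    rw [Finset.sum_eq_zero fun x _ => by rw [dx_alg, map_zero, map_zero, sub_zero],
      AlgHom.commutes, AlgHom.commutes, sub_eq_zero, ← Algebra.TensorProduct.algebraMap_apply,
      Algebra.TensorProduct.algebraMap_apply']
  · intro y
    refine ⟨{y}, fun Z hZ => ?_⟩
    rw [Finset.sum_eq_single_of_mem y (hZ (Finset.mem_singleton_self y))]
    · rw [dx_ι, if_pos rfl, Algebra.TensorProduct.one_def]
      simp
    · intro x _ hx
      rw [dx_ι, if_neg fun h => hx h.symm, map_zero, map_zero, sub_zero]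
  · rintro f g ⟨Y, hY⟩ ⟨Y', hY'⟩
    refine ⟨Y ∪ Y', fun Z hZ => ?_⟩
    have h1 := hY Z (Finset.union_subset_left hZ)
    have h2 := hY' Z (Finset.union_subset_right hZ)
    have h3 : (FreeAlgebra.lift ℤ a (f * g)) ⊗ₜ[ℤ] (1 : B) -
        (1 : A) ⊗ₜ[ℤ] (FreeAlgebra.lift ℤ b (f * g)) =
        (FreeAlgebra.lift ℤ a f ⊗ₜ 1) * ((FreeAlgebra.lift ℤ a g) ⊗ₜ[ℤ] (1 : B) -
          (1 : A) ⊗ₜ[ℤ] (FreeAlgebra.lift ℤ b g)) +
        ((FreeAlgebra.lift ℤ a f) ⊗ₜ[ℤ] (1 : B) - (1 : A) ⊗ₜ[ℤ] (FreeAlgebra.lift ℤ b f)) *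
          (1 ⊗ₜ FreeAlgebra.lift ℤ b g) := by
      rw [mul_sub, sub_mul, map_mul, map_mul]
      simp only [Algebra.TensorProduct.tmul_mul_tmul, one_mul, mul_one]
      abel
    rw [h3, h1, h2, Finset.mul_sum, Finset.sum_mul, ← Finset.sum_add_distrib]
    refine Finset.sum_congr rfl fun x _ => ?_
    obtain ⟨e1, -, e3, -⟩ := lewin_rl a b x (FreeAlgebra.lift ℤ a f) (FreeAlgebra.lift ℤ b g)
      (dx a b x g)
    obtain ⟨-, e2, -, e4⟩ := lewin_rl a b x (FreeAlgebra.lift ℤ a f) (FreeAlgebra.lift ℤ b g)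
      (dx a b x f)
    rw [dx_mul, map_add, map_add, e1, e2, e3, e4, mul_sub, sub_mul]
    abel
  · rintro f g ⟨Y, hY⟩ ⟨Y', hY'⟩
    refine ⟨Y ∪ Y', fun Z hZ => ?_⟩
    have h1 := hY Z (Finset.union_subset_left hZ)
    have h2 := hY' Z (Finset.union_subset_right hZ)
    have h3 : (FreeAlgebra.lift ℤ a (f + g)) ⊗ₜ[ℤ] (1 : B) -
        (1 : A) ⊗ₜ[ℤ] (FreeAlgebra.lift ℤ b (f + g)) =
        ((FreeAlgebra.lift ℤ a f) ⊗ₜ[ℤ] (1 : B) - (1 : A) ⊗ₜ[ℤ] (FreeAlgebra.lift ℤ b f)) +
        ((FreeAlgebra.lift ℤ a g) ⊗ₜ[ℤ] (1 : B) - (1 : A) ⊗ₜ[ℤ] (FreeAlgebra.lift ℤ b g)) := by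
      rw [map_add, map_add, TensorProduct.add_tmul, TensorProduct.tmul_add]
      abel
    rw [h3, h1, h2, ← Finset.sum_add_distrib]
    refine Finset.sum_congr rfl fun x _ => ?_
    rw [dx_add, map_add, map_add]
    abel

end


theorem lewin_lift {X K : Type} [Ring K] (l : FreeAlgebra ℤ X →+* K) (g : FreeAlgebra ℤ X) :
    FreeAlgebra.lift ℤ (fun y => l (FreeAlgebra.ι ℤ y)) g = l g := by
  have h : FreeAlgebra.lift ℤ (fun y => l (FreeAlgebra.ι ℤ y)) = l.toIntAlgHom := by
    apply FreeAlgebra.hom_ext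
    funext y
    rw [Function.comp_apply, FreeAlgebra.lift_ι_apply, Function.comp_apply]
    rfl
  rw [h]
  rfl

/-- torsion free rings are flat over `ℤ` -/
theorem lewin_flat {A : Type} [Ring A] (hA : ∀ (m : ℕ) (y : A), m ≠ 0 → (m : A) * y = 0 → y = 0) :
    Module.Flat ℤ A := by
  rw [Module.Flat.flat_iff_torsion_eq_bot_of_isBezout, ← Submodule.isTorsionFree_iff_torsion_eq_bot]
  have h1 : ∀ (z : ℤ) (y : A), z ≠ 0 → z • y = 0 → y = 0 := by
    intro z y hz hy
    refine hA z.natAbs y (by simpa using hz) ?_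
    rcases Int.natAbs_eq z with h | h
    · rw [h, zsmul_eq_mul, Int.cast_natCast] at hy
      exact hy
    · rw [h, zsmul_eq_mul, Int.cast_neg, Int.cast_natCast, neg_mul, neg_eq_zero] at hy
      exact hy
  refine Module.IsTorsionFree.of_smul_eq_zero fun r m h => ?_
  by_cases hr : r = 0
  · exact Or.inl hr
  · exact Or.inr (h1 r m hr h)

/-- tensor products of torsion free rings are torsion free -/
theorem lewin_tensor_tf {A C : Type} [Ring A] [Ring C]
    (hA : ∀ (m : ℕ) (y : A), m ≠ 0 → (m : A) * y = 0 → y = 0)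
    (hC : ∀ (m : ℕ) (y : C), m ≠ 0 → (m : C) * y = 0 → y = 0) (m : ℕ) (hm : m ≠ 0)
    (u : A ⊗[ℤ] C) (hu : m • u = 0) : u = 0 := by
  have hflat := lewin_flat hA
  have h0 : Function.Injective (LinearMap.lsmul ℤ C (m : ℤ)) := by
    rw [injective_iff_map_eq_zero]
    intro y hy
    rw [LinearMap.lsmul_apply, zsmul_eq_mul, Int.cast_natCast] at hy
    exact hC m y hm hy
  have hinj := Module.Flat.lTensor_preserves_injective_linearMap (M := A) _ h0
  have h3 : ∀ u : A ⊗[ℤ] C, (LinearMap.lsmul ℤ C (m : ℤ)).lTensor A u = m • u := by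
    intro u
    induction u using TensorProduct.induction_on with
    | zero => rw [map_zero, smul_zero]
    | tmul e j =>
      rw [LinearMap.lTensor_tmul, LinearMap.lsmul_apply, TensorProduct.tmul_smul,
        natCast_zsmul]
    | add u v hu hv => rw [map_add, hu, hv, smul_add]
  apply hinj
  rw [h3, h3, hu, smul_zero]

theorem lewin_Phi {A B C D : Type} [Ring A] [Ring B] [Ring C] [AddCommGroup D] (p : B →+* A)
    (q : B →+* C) (hp : Function.Surjective p) (r : B →+ D)
    (hr : ∀ i j, p i = 0 → q j = 0 → r (i * j) = 0) :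
    ∃ Φ : A ⊗[ℤ] (LinearMap.ker q.toIntAlgHom.toLinearMap) →+ D,
      ∀ (a : B) (j : LinearMap.ker q.toIntAlgHom.toLinearMap), Φ (p a ⊗ₜ j) = r (a * j) := by
  have hs : ∀ a, p (Function.surjInv hp a) = a := Function.surjInv_eq hp
  have hr2 : ∀ (a b : B) (j : LinearMap.ker q.toIntAlgHom.toLinearMap), p a = p b →
      r (a * (j : B)) = r (b * j) := by
    intro a b j hab
    have h1 := hr (a - b) j (by rw [map_sub, hab, sub_self]) j.2
    rw [sub_mul, map_sub, sub_eq_zero] at h1
    exact h1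
  let G : A →+ ((LinearMap.ker q.toIntAlgHom.toLinearMap) →+ D) :=
    { toFun := fun a =>
        { toFun := fun j => r (Function.surjInv hp a * (j : B))
          map_zero' := by rw [Submodule.coe_zero, mul_zero, map_zero]
          map_add' := fun j k => by rw [Submodule.coe_add, mul_add, map_add] }
      map_zero' := by
        ext j
        show r (Function.surjInv hp 0 * (j : B)) = 0
        rw [hr2 _ 0 j (by rw [hs, map_zero]), zero_mul, map_zero]
      map_add' := fun a b => by
        ext j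
        show r (Function.surjInv hp (a + b) * (j : B)) =
          r (Function.surjInv hp a * (j : B)) + r (Function.surjInv hp b * (j : B))
        rw [hr2 _ (Function.surjInv hp a + Function.surjInv hp b) j
          (by rw [hs, map_add, hs, hs]), add_mul, map_add] }
  refine ⟨TensorProduct.liftAddHom G ?_, fun a j => ?_⟩
  · intro z a j
    rw [map_zsmul, map_zsmul]
    rfl
  · rw [TensorProduct.liftAddHom_tmul]
    exact hr2 _ _ j (hs _)

theorem lewin_key {X A B C D : Type} [DecidableEq X] [Ring A] [Ring B] [Ring C] [AddCommGroup D]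
    (l : FreeAlgebra ℤ X →+* B) (p : B →+* A)
    (q : B →+* C) (hp : Function.Surjective p) (hq : Function.Surjective q) (r : B →+ D)
    (hr : ∀ i j, p i = 0 → q j = 0 → r (i * j) = 0)
    (hA : ∀ (m : ℕ) (y : A), m ≠ 0 → (m : A) * y = 0 → y = 0)
    (f : FreeAlgebra ℤ X) (hpf : p (l f) = 0) (hqf : q (l f) = 0)
    (hx : ∀ x, dx (fun y => p (l (FreeAlgebra.ι ℤ y))) (fun y => q (l (FreeAlgebra.ι ℤ y))) x f = 0) :
    r (l f) = 0 := by
  have hflat := lewin_flat hA
  obtain ⟨Φ, hΦ⟩ := lewin_Phi p q hp r hr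
  obtain ⟨Y, hY⟩ := dx_fundamental (fun y => p (l (FreeAlgebra.ι ℤ y)))
    (fun y => l (FreeAlgebra.ι ℤ y)) f
  have h1 := hY Y (Finset.Subset.refl Y)
  have hla := lewin_lift (p.comp l) f
  have hlb := lewin_lift l f
  change FreeAlgebra.lift ℤ (fun y => p (l (FreeAlgebra.ι ℤ y))) f = p (l f) at hla
  rw [hla, hlb, hpf, TensorProduct.zero_tmul, zero_sub] at h1
  let J : Submodule ℤ B := LinearMap.ker q.toIntAlgHom.toLinearMap
  have hex : Function.Exact J.subtype q.toIntAlgHom.toLinearMap :=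
    LinearMap.exact_subtype_ker_map _
  have hex2 := lTensor_exact A hex hq
  have hw : ∀ x, ∃ w : A ⊗[ℤ] J, J.subtype.lTensor A w =
      dx (fun y => p (l (FreeAlgebra.ι ℤ y))) (fun y => l (FreeAlgebra.ι ℤ y)) x f := by
    intro x
    apply (hex2 _).1
    have h3 := dx_map (RingHom.id A) q (fun y => p (l (FreeAlgebra.ι ℤ y)))
      (fun y => l (FreeAlgebra.ι ℤ y)) x f
    exact h3.trans (hx x)
  choose w hw using hw
  let L : X → (J →ₗ[ℤ] J) := fun x =>
    (LinearMap.mulLeft ℤ (l (FreeAlgebra.ι ℤ x))).restrict (p := J) (q := J) (by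
      intro j hj
      have hj' : q j = 0 := hj
      show q (l (FreeAlgebra.ι ℤ x) * j) = 0
      rw [map_mul, hj', mul_zero])
  have hinj := Module.Flat.lTensor_preserves_injective_linearMap (M := A) J.subtype
    J.injective_subtype
  have hR : ∀ x (u : A ⊗[ℤ] J),
      (LinearMap.mulRight ℤ (p (l (FreeAlgebra.ι ℤ x)))).rTensor B (J.subtype.lTensor A u) =
        J.subtype.lTensor A ((LinearMap.mulRight ℤ (p (l (FreeAlgebra.ι ℤ x)))).rTensor J u) := by
    intro x u
    rw [← LinearMap.comp_apply, ← LinearMap.comp_apply, LinearMap.rTensor_comp_lTensor,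
      LinearMap.lTensor_comp_rTensor]
  have hL : ∀ x (u : A ⊗[ℤ] J),
      (LinearMap.mulLeft ℤ (l (FreeAlgebra.ι ℤ x))).lTensor A (J.subtype.lTensor A u) =
        J.subtype.lTensor A ((L x).lTensor A u) := by
    intro x u
    rw [← LinearMap.comp_apply, ← LinearMap.comp_apply, ← LinearMap.lTensor_comp,
      ← LinearMap.lTensor_comp]
    rfl
  have hΦ2 : ∀ x (u : A ⊗[ℤ] J),
      Φ ((LinearMap.mulRight ℤ (p (l (FreeAlgebra.ι ℤ x)))).rTensor J u) =
        Φ ((L x).lTensor A u) := by
    intro x u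
    induction u using TensorProduct.induction_on with
    | zero => simp only [map_zero]
    | tmul e j =>
      obtain ⟨g, rfl⟩ := hp e
      rw [LinearMap.rTensor_tmul, LinearMap.lTensor_tmul, LinearMap.mulRight_apply, ← map_mul]
      refine (hΦ _ _).trans (Eq.trans ?_ (hΦ _ _).symm)
      show r (g * l (FreeAlgebra.ι ℤ x) * j) = r (g * (l (FreeAlgebra.ι ℤ x) * j))
      rw [mul_assoc]
    | add u v hu hv => rw [map_add, map_add, hu, hv, map_add, map_add]
  have h5 : J.subtype.lTensor A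
      (∑ x ∈ Y, ((LinearMap.mulRight ℤ (p (l (FreeAlgebra.ι ℤ x)))).rTensor J (w x) -
        (L x).lTensor A (w x))) =
      J.subtype.lTensor A (-((1 : A) ⊗ₜ[ℤ] (⟨l f, hqf⟩ : J))) := by
    rw [map_sum]
    have h6 : ∀ x ∈ Y, J.subtype.lTensor A
        ((LinearMap.mulRight ℤ (p (l (FreeAlgebra.ι ℤ x)))).rTensor J (w x) -
          (L x).lTensor A (w x)) =
        (LinearMap.mulRight ℤ (p (l (FreeAlgebra.ι ℤ x)))).rTensor B
          (dx (fun y => p (l (FreeAlgebra.ι ℤ y))) (fun y => l (FreeAlgebra.ι ℤ y)) x f) -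
          (LinearMap.mulLeft ℤ (l (FreeAlgebra.ι ℤ x))).lTensor A
          (dx (fun y => p (l (FreeAlgebra.ι ℤ y))) (fun y => l (FreeAlgebra.ι ℤ y)) x f) := by
      intro x _
      rw [map_sub, ← hR, ← hL, hw]
    rw [Finset.sum_congr rfl h6, ← h1, map_neg, LinearMap.lTensor_tmul]
    rfl
  have h7 := congrArg Φ (hinj h5)
  rw [map_sum, Finset.sum_eq_zero fun x _ => by rw [map_sub, hΦ2, sub_self], map_neg,
    ← map_one p] at h7
  have h8 := hΦ 1 (⟨l f, hqf⟩ : J)
  have h9 : Φ (p 1 ⊗ₜ[ℤ] (⟨l f, hqf⟩ : J)) = 0 := by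
    rw [← neg_eq_zero]
    exact h7.symm
  rw [h9, one_mul] at h8
  exact h8.symm



theorem lewin_tf {U : Type} [Ring U] (I : Ideal U) [I.IsTwoSided] (hI : PureI I) (m : ℕ)
    (y : U ⧸ I) (hm : m ≠ 0) (hy : (m : U ⧸ I) * y = 0) : y = 0 := by
  obtain ⟨g, rfl⟩ := Ideal.Quotient.mk_surjective y
  rw [← map_natCast (Ideal.Quotient.mk I), ← map_mul, Ideal.Quotient.eq_zero_iff_mem] at hy
  exact Ideal.Quotient.eq_zero_iff_mem.2 (hI m g hm hy)

/-- KEY LEMMA.  `f ∈ I ∩ J` and `∂_x f = 0` in `F/I ⊗ F/J` for all `x` imply `f ∈ IJ` if `F/I` is torsion free. -/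
theorem mem_mul_of_dx {X : Type} [DecidableEq X] (I J : Ideal (FreeAlgebra ℤ X)) [I.IsTwoSided]
    [J.IsTwoSided] (hI : PureI I) (f : FreeAlgebra ℤ X) (hf : f ∈ I) (hf' : f ∈ J)
    (h : ∀ x, dx (fun y => Ideal.Quotient.mk I (FreeAlgebra.ι ℤ y))
      (fun y => Ideal.Quotient.mk J (FreeAlgebra.ι ℤ y)) x f = 0) : f ∈ I * J := by
  have h1 := lewin_key (RingHom.id (FreeAlgebra ℤ X)) (Ideal.Quotient.mk I) (Ideal.Quotient.mk J)
    Ideal.Quotient.mk_surjective Ideal.Quotient.mk_surjective
    (QuotientAddGroup.mk' (I * J).toAddSubgroup)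
    (fun i j hi hj => (QuotientAddGroup.eq_zero_iff _).2
      (Ideal.mul_mem_mul (Ideal.Quotient.eq_zero_iff_mem.1 hi)
        (Ideal.Quotient.eq_zero_iff_mem.1 hj))) (lewin_tf I hI) f
    (Ideal.Quotient.eq_zero_iff_mem.2 hf) (Ideal.Quotient.eq_zero_iff_mem.2 hf') h
  exact (QuotientAddGroup.eq_zero_iff _).1 h1

/-- `∂_x` vanishes on `IJ` -/
theorem dx_mul_eq_zero {X : Type} [DecidableEq X] (I J : Ideal (FreeAlgebra ℤ X)) [I.IsTwoSided]
    [J.IsTwoSided] (f : FreeAlgebra ℤ X) (hf : f ∈ I * J) (x : X) :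
    dx (fun y => Ideal.Quotient.mk I (FreeAlgebra.ι ℤ y))
      (fun y => Ideal.Quotient.mk J (FreeAlgebra.ι ℤ y)) x f = 0 := by
  refine Submodule.mul_induction_on' (C := fun f _ =>
    dx (fun y => Ideal.Quotient.mk I (FreeAlgebra.ι ℤ y))
      (fun y => Ideal.Quotient.mk J (FreeAlgebra.ι ℤ y)) x f = 0) ?_ ?_ hf
  · intro i hi j hj
    rw [dx_mul, lewin_lift, lewin_lift, Ideal.Quotient.eq_zero_iff_mem.2 hi,
      Ideal.Quotient.eq_zero_iff_mem.2 hj,
      TensorProduct.zero_tmul, TensorProduct.tmul_zero, zero_mul, mul_zero, add_zero]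
  · intro u _ v _ hu hv
    rw [dx_add, hu, hv, add_zero]

theorem dx_nsmul {X A B : Type} [DecidableEq X] [Ring A] [Ring B] (a : X → A) (b : X → B) (x : X)
    (f : FreeAlgebra ℤ X) (n : ℕ) : dx a b x ((n : FreeAlgebra ℤ X) * f) = n • dx a b x f := by
  rw [← nsmul_eq_mul]
  induction n with
  | zero =>
    rw [zero_smul, zero_smul]
    have := dx_alg a b x 0
    rwa [map_zero] at this
  | succ n ih => rw [succ_nsmul, succ_nsmul, dx_add, ih]

/-- LEWIN PURITY.  If `m f ∈ IJ` then `f ∈ I`, `f ∈ J`, `m ∂_x f = 0` in the torsion free group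
`F/I ⊗ F/J`. -/
theorem PureI_mul {X : Type} (I J : Ideal (FreeAlgebra ℤ X)) [I.IsTwoSided]
    [J.IsTwoSided] (hI : PureI I) (hJ : PureI J) : PureI (I * J) := by
  classical
  intro m f hm hf
  refine mem_mul_of_dx I J hI f (hI m f hm (Ideal.mul_le_left hf))
    (hJ m f hm (Ideal.mul_le_right hf)) ?_
  intro x
  have h1 := dx_mul_eq_zero I J _ hf x
  rw [dx_nsmul] at h1
  exact lewin_tensor_tf (lewin_tf I hI) (lewin_tf J hJ) m hm _ h1

theorem PureI_prodI (X : Type) (l : List ℕ) : PureI (prodI X l) := by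
  induction l with
  | nil =>
    intro m g _ _
    exact Submodule.mem_top
  | cons k l ih =>
    unfold prodI
    exact PureI_mul (IdM X k) (prodI X l) (PureI_IdM X k) ih

end Pool.PI34.T1

end
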