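import Pool.Agent.LibPI54.M33
import Pool.Agent.LibPI54.M39
import Pool.Agent.LibPI54.M40
import Pool.Agent.LibPI54.M48

/-! ### part T1_D -/
section

/-! PI34, theorem T1, file D: Capelli identities and the chain of ideals. -/

set_option autoImplicit false

namespace Pool.PI34.T1

open Equiv Finset Pool.PI34.C0 Pool.PI34.BA

variable {U : Type} [Ring U]

/-- the Capelli value -/
def capV {U : Type} [Ring U] {n : ℕ} (v : Fin (n + 1) → U) (x : Fin n → U) : U :=
  ∑ σ : Perm (Fin n), ((Perm.sign σ : ℤˣ) : ℤ) • capMono v x σ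

theorem capMono_left {n : ℕ} (c : U) (v : Fin (n + 1) → U) (x : Fin n → U) (σ : Perm (Fin n)) :
    capMono (Function.update v 0 (c * v 0)) x σ = c * capMono v x σ := by
  unfold capMono
  rw [Function.update_self, mul_assoc]
  have h : (fun i : Fin n => x (σ i) * Function.update v 0 (c * v 0) i.succ) =
      fun i : Fin n => x (σ i) * v i.succ := by
    funext i
    rw [Function.update_of_ne (Fin.succ_ne_zero i)]
  rw [h]

theorem capMono_right {n : ℕ} (c : U) (v : Fin (n + 1) → U) (x : Fin n → U) (σ : Perm (Fin n)) :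
    capMono (Function.update v (Fin.last n) (v (Fin.last n) * c)) x σ = capMono v x σ * c := by
  unfold capMono
  cases n with
  | zero =>
    simp
  | succ m =>
    have h0 : (0 : Fin (m + 1 + 1)) ≠ Fin.last (m + 1) := by
      intro h
      have := congrArg Fin.val h
      simp at this
    rw [Function.update_of_ne h0, List.ofFn_succ', List.ofFn_succ', List.concat_eq_append,
      List.concat_eq_append, List.prod_append, List.prod_append]
    have h : (fun i : Fin m => x (σ i.castSucc) *
        Function.update v (Fin.last (m + 1)) (v (Fin.last (m + 1)) * c) i.castSucc.succ) =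
        fun i : Fin m => x (σ i.castSucc) * v i.castSucc.succ := by
      funext i
      rw [Function.update_of_ne]
      intro h
      have := congrArg Fin.val h
      simp at this
      omega
    rw [h]
    simp [mul_assoc]

theorem capV_left {n : ℕ} (c : U) (v : Fin (n + 1) → U) (x : Fin n → U) :
    capV (Function.update v 0 (c * v 0)) x = c * capV v x := by
  unfold capV
  rw [Finset.mul_sum]
  refine Finset.sum_congr rfl fun σ _ => ?_
  rw [capMono_left, mul_smul_comm]

theorem capV_right {n : ℕ} (c : U) (v : Fin (n + 1) → U) (x : Fin n → U) :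
    capV (Function.update v (Fin.last n) (v (Fin.last n) * c)) x = capV v x * c := by
  unfold capV
  rw [Finset.sum_mul]
  refine Finset.sum_congr rfl fun σ _ => ?_
  rw [capMono_right, smul_mul_assoc]

theorem capV_mem {n : ℕ} (v : Fin (n + 1) → U) (x : Fin n → U) : capV v x ∈ capI U n :=
  Ideal.subset_span ⟨v, x, rfl⟩

/-- induction principle for the Capelli ideal -/
theorem capI_induction {n : ℕ} {P : U → Prop} (h0 : P 0) (hadd : ∀ a b, P a → P b → P (a + b))
    (hv : ∀ (v : Fin (n + 1) → U) (x : Fin n → U), P (capV v x)) (a : U) (ha : a ∈ capI U n) :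
    P a := by
  have key : ∀ c : U, P (c * a) := by
    unfold capI at ha
    induction ha using Submodule.span_induction with
    | mem y hy =>
      obtain ⟨v, x, rfl⟩ := hy
      intro c
      have h1 := hv (Function.update v 0 (c * v 0)) x
      rw [capV_left] at h1
      exact h1
    | zero => intro c; rw [mul_zero]; exact h0
    | add y z _ _ hy hz => intro c; rw [mul_add]; exact hadd _ _ (hy c) (hz c)
    | smul d y _ hy =>
      intro c
      rw [smul_eq_mul, ← mul_assoc]
      exact hy (c * d)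
  have := key 1
  rwa [one_mul] at this

instance (n : ℕ) : (capI U n).IsTwoSided := by
  refine ⟨fun {a} b ha => ?_⟩
  refine capI_induction (n := n) (P := fun a => a * b ∈ capI U n) ?_ ?_ ?_ a ha
  · rw [zero_mul]; exact Ideal.zero_mem _
  · intro x y hx hy
    rw [add_mul]
    exact Ideal.add_mem _ hx hy
  · intro v x
    rw [← capV_right]
    exact capV_mem _ _

/-- the permutations supported in the range of `p` -/
theorem TD_sum_permsOn {ι : Type} [Fintype ι] [DecidableEq ι] {k : ℕ} (p : Fin k ↪ ι) {A : Type}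
    [AddCommMonoid A] (f : Perm ι → A) :
    ∑ σ ∈ permsOn (univ.map p), f σ = ∑ σ : Perm (Fin k), f (σ.viaFintypeEmbedding p) := by
  have hmem : ∀ x : ι, x ∉ univ.map p ↔ x ∉ Set.range p := by
    intro x
    simp
  symm
  refine Finset.sum_bij (fun σ _ => σ.viaFintypeEmbedding p) ?_ ?_ ?_ ?_
  · intro σ _
    rw [permsOn, mem_filter]
    refine ⟨mem_univ _, fun x hx => ?_⟩
    exact Equiv.Perm.viaFintypeEmbedding_apply_notMem_range _ _ ((hmem x).1 hx)
  · intro σ _ τ _ h
    ext i
    have h1 := Equiv.Perm.viaFintypeEmbedding_apply_image σ p i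
    have h2 := Equiv.Perm.viaFintypeEmbedding_apply_image τ p i
    change σ.viaFintypeEmbedding p = τ.viaFintypeEmbedding p at h
    rw [h] at h1
    rw [h1] at h2
    exact congrArg Fin.val (p.injective h2)
  · intro σ hσ
    rw [permsOn, mem_filter] at hσ
    have h1 : ∀ i, ∃ j, σ (p i) = p j := by
      intro i
      by_contra hcon
      have h2 : σ (p i) ∉ univ.map p := by
        rw [hmem]
        rintro ⟨j, hj⟩
        exact hcon ⟨j, hj.symm⟩
      have h3 := hσ.2 _ h2
      have h4 : σ (p i) = p i := σ.injective h3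
      exact hcon ⟨i, h4⟩
    choose g hg using h1
    have hgi : Function.Injective g := by
      intro i j hij
      have h2 : σ (p i) = σ (p j) := by rw [hg, hg, hij]
      exact p.injective (σ.injective h2)
    refine ⟨Equiv.ofBijective g (Finite.injective_iff_bijective.1 hgi), mem_univ _, ?_⟩
    ext x
    by_cases hx : x ∈ Set.range p
    · obtain ⟨i, rfl⟩ := hx
      rw [Equiv.Perm.viaFintypeEmbedding_apply_image, hg]
      rfl
    · rw [Equiv.Perm.viaFintypeEmbedding_apply_notMem_range _ _ hx, hσ.2 x ((hmem x).2 hx)]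
  · intro σ _
    rfl

/-- evaluation of the operators -/
def evE {m : ℕ} (F : VV U m) (r : Fin m → U) : AddMonoid.End (VV U m) →+ U where
  toFun e := (e F).1 r
  map_zero' := rfl
  map_add' _ _ := rfl

/-- the strands of the block `P` -/
def pE (k : ℕ) : Fin k ↪ Fin (k + k + 1) :=
  ⟨fun i => (Fin.castAdd k i).succ, fun _ _ h => Fin.castAdd_injective k k (Fin.succ_injective _ h)⟩

/-- the strands of the block `Q` -/
def qE (k : ℕ) : Fin k ↪ Fin (k + k + 1) :=
  ⟨fun i => (Fin.natAdd k i).succ, fun _ _ h => Fin.natAdd_injective k k (Fin.succ_injective _ h)⟩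

theorem pq_ne (k : ℕ) (i j : Fin k) : pE k i ≠ qE k j := by
  intro h
  have h1 : Fin.castAdd k i = Fin.natAdd k j := Fin.succ_injective _ h
  have h2 := congrArg Fin.val h1
  simp at h2
  omega

theorem frameE (k : ℕ) : Frame (pE k) (qE k) (0 : Fin (k + k + 1)) :=
  ⟨pq_ne k, fun i => Fin.succ_ne_zero (Fin.castAdd k i), fun i => Fin.succ_ne_zero (Fin.natAdd k i)⟩

theorem ofFn_split {k : ℕ} (f : Fin (k + k) → U) :
    (List.ofFn f).prod = (List.ofFn fun i => f (Fin.castAdd k i)).prod *
      (List.ofFn fun i => f (Fin.natAdd k i)).prod := by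
  rw [List.ofFn_add, List.prod_append]
  rfl

theorem word_value (k : ℕ) (c : U) (v w : Fin (k + 1) → U) (x y : Fin k → U) (hw : w 0 = 1)
    (σ τ : Perm (Fin k)) :
    capMono (Fin.cons 1 (Fin.cons (v 0) (Fin.append (fun i : Fin k => v i.succ)
        (fun j : Fin k => w j.succ))) : Fin (k + k + 1 + 1) → U)
      (((Fin.cons c (Fin.append x y) : Fin (k + k + 1) → U) ∘ σ.viaFintypeEmbedding (pE k)) ∘
        τ.viaFintypeEmbedding (qE k)) 1 = c * capMono v x σ * capMono w y τ := by
  have h0 : ∀ (s : Perm (Fin k)) , s.viaFintypeEmbedding (pE k) 0 = 0 := by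
    intro s
    refine Equiv.Perm.viaFintypeEmbedding_apply_notMem_range _ _ ?_
    rintro ⟨i, hi⟩
    exact (frameE k).pz i hi
  have h0' : ∀ (s : Perm (Fin k)) , s.viaFintypeEmbedding (qE k) 0 = 0 := by
    intro s
    refine Equiv.Perm.viaFintypeEmbedding_apply_notMem_range _ _ ?_
    rintro ⟨i, hi⟩
    exact (frameE k).qz i hi
  have h1 : ∀ i : Fin k, τ.viaFintypeEmbedding (qE k) (Fin.castAdd k i).succ =
      (Fin.castAdd k i).succ := by
    intro i
    refine Equiv.Perm.viaFintypeEmbedding_apply_notMem_range _ _ ?_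
    rintro ⟨j, hj⟩
    exact pq_ne k i j hj.symm
  have h2 : ∀ i : Fin k, σ.viaFintypeEmbedding (pE k) (Fin.castAdd k i).succ =
      (Fin.castAdd k (σ i)).succ := fun i => Equiv.Perm.viaFintypeEmbedding_apply_image σ (pE k) i
  have h3 : ∀ i : Fin k, τ.viaFintypeEmbedding (qE k) (Fin.natAdd k i).succ =
      (Fin.natAdd k (τ i)).succ := fun i => Equiv.Perm.viaFintypeEmbedding_apply_image τ (qE k) i
  have h4 : ∀ i : Fin k, σ.viaFintypeEmbedding (pE k) (Fin.natAdd k i).succ =
      (Fin.natAdd k i).succ := by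
    intro i
    refine Equiv.Perm.viaFintypeEmbedding_apply_notMem_range _ _ ?_
    rintro ⟨j, hj⟩
    exact pq_ne k j i hj
  unfold capMono
  rw [List.ofFn_succ, List.prod_cons, ofFn_split, hw]
  simp only [Function.comp_apply, Perm.coe_one, id_eq, h0, h0', h1, h2, h3, h4, Fin.cons_zero,
    Fin.cons_succ, Fin.append_left, Fin.append_right, one_mul]
  simp only [mul_assoc]

theorem zsmul_helper {E : Type} [Ring E] (a b : ℤ) (r x y : E) :
    r * ((a • x) * (b • y)) = (a * b) • (r * (x * y)) := by
  rw [smul_mul_smul_comm, mul_smul_comm]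

/-- the value of `ρ_0(c) A_P A_Q` at a monomial -/
theorem value_eq (k : ℕ) (c : U) (v w : Fin (k + 1) → U) (x y : Fin k → U) (hw : w 0 = 1)
    (hm : (fun r => capMono (Fin.cons 1 (Fin.cons (v 0) (Fin.append (fun i : Fin k => v i.succ)
        (fun j : Fin k => w j.succ))) : Fin (k + k + 1 + 1) → U) r 1) ∈ VV U (k + k + 1)) :
    evE ⟨_, hm⟩ (Fin.cons 1 (Fin.append x y))
      ((strV U (k + k + 1)).ρ 0 c * (anti (strV U (k + k + 1)).s (univ.map (pE k)) *
        anti (strV U (k + k + 1)).s (univ.map (qE k)))) = c * capV v x * capV w y := by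
  unfold anti
  rw [Finset.sum_mul_sum, Finset.mul_sum, map_sum, TD_sum_permsOn]
  rw [show capV v x = ∑ σ : Perm (Fin k), ((Perm.sign σ : ℤˣ) : ℤ) • capMono v x σ from rfl,
    Finset.mul_sum, Finset.sum_mul]
  refine Finset.sum_congr rfl fun σ _ => ?_
  rw [Finset.mul_sum, map_sum, TD_sum_permsOn]
  rw [show capV w y = ∑ σ : Perm (Fin k), ((Perm.sign σ : ℤˣ) : ℤ) • capMono w y σ from rfl,
    Finset.mul_sum]
  refine Finset.sum_congr rfl fun τ _ => ?_
  rw [zsmul_helper, map_zsmul, Perm.viaFintypeEmbedding_sign,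
    Perm.viaFintypeEmbedding_sign, mul_smul_comm, mul_smul_comm, smul_mul_assoc, smul_smul]
  rw [mul_comm ((Perm.sign τ : ℤˣ) : ℤ)]
  congr 1
  rw [← word_value k c v w x y hw σ τ]
  have h1 : (Fin.cons c (Fin.append x y) : Fin (k + k + 1) → U) =
      Function.update (Fin.cons 1 (Fin.append x y) : Fin (k + k + 1) → U) 0
        ((Fin.cons 1 (Fin.append x y) : Fin (k + k + 1) → U) 0 * c) := by
    rw [Fin.cons_zero, one_mul, Fin.update_cons_zero]
  rw [h1]
  rfl

/-- the case of Capelli values -/
theorem mul_capV (k : ℕ) (h : Cap U (k + 1)) {X : Type} (π : FreeAlgebra ℤ X →+* U)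
    (g : FreeAlgebra ℤ X) (hg : g ∈ IdM X k) (v w : Fin (k + 1) → U) (x y : Fin k → U) :
    π g * capV v x * capV w y = 0 := by
  have h1 : ∀ (v w : Fin (k + 1) → U) (x y : Fin k → U), w 0 = 1 →
      π g * capV v x * capV w y = 0 := by
    intro v w x y hw
    have hm : (fun r => capMono (Fin.cons 1 (Fin.cons (v 0)
        (Fin.append (fun i : Fin k => v i.succ) (fun j : Fin k => w j.succ))) :
          Fin (k + k + 1 + 1) → U) r 1) ∈ VV U (k + k + 1) :=
      AddSubgroup.subset_closure ⟨_, 1, rfl⟩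
    rw [← value_eq k (π g) v w x y hw hm]
    have hBA := BA ((strV U (k + k + 1)).comap π) k (strV_Anti k h (k + k + 1)) (pE k) (qE k) 0
      (frameE k) g (fun C _ m => IdM_spec X k g hg C m)
    have hBA' : (strV U (k + k + 1)).ρ 0 (π g) * (anti (strV U (k + k + 1)).s (univ.map (pE k)) *
        anti (strV U (k + k + 1)).s (univ.map (qE k))) = 0 := hBA
    rw [hBA', map_zero]
  have h2 : π g * capV v x * capV w y =
      π g * capV (Function.update v (Fin.last k) (v (Fin.last k) * w 0)) x *
        capV (Function.update w 0 1) y := by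
    have h3 : capV w y = w 0 * capV (Function.update w 0 1) y := by
      rw [← capV_left, Function.update_self, mul_one, Function.update_idem,
        Function.update_eq_self]
    rw [capV_right, h3]
    simp only [mul_assoc]
  rw [h2]
  exact h1 _ _ _ _ (Function.update_self _ _ _)

/-- `BA` for the string system `strV U (2k+1)` (strand `0`, `P = 1..k`, `Q = k+1..2k`), applied to the monomial
`v_0 r_0 v_1 r_1 ⋯ r_{2k} v_{2k+1}` and evaluated at `r_0 = 1`:
`π(g) · (Capelli value) · (Capelli value) = 0`. -/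
theorem mul_capI (k : ℕ) (h : Cap U (k + 1)) {X : Type} (π : FreeAlgebra ℤ X →+* U)
    (g : FreeAlgebra ℤ X) (hg : g ∈ IdM X k) (a b : U) (ha : a ∈ capI U k) (hb : b ∈ capI U k) :
    π g * a * b = 0 := by
  refine capI_induction (n := k) (P := fun a => π g * a * b = 0) ?_ ?_ ?_ a ha
  · rw [mul_zero, zero_mul]
  · intro a a' h1 h2
    rw [mul_add, add_mul, h1, h2, add_zero]
  · intro v x
    refine capI_induction (n := k) (P := fun b => π g * capV v x * b = 0) ?_ ?_ ?_ b hb
    · rw [mul_zero]
    · intro b b' h1 h2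
      rw [mul_add, h1, h2, add_zero]
    · intro w y
      exact mul_capV k h π g hg v w x y

/-- the Capelli identity passes to the quotient by the Capelli ideal -/
theorem cap_quotient (n : ℕ) : Cap (U ⧸ capI U n) n := by
  intro v x
  choose v' hv' using fun i => Ideal.Quotient.mk_surjective (I := capI U n) (v i)
  choose x' hx' using fun i => Ideal.Quotient.mk_surjective (I := capI U n) (x i)
  have h1 : ∑ σ : Perm (Fin n), ((Perm.sign σ : ℤˣ) : ℤ) • capMono v x σ =
      Ideal.Quotient.mk (capI U n) (capV v' x') := by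
    unfold capV
    rw [map_sum]
    refine Finset.sum_congr rfl fun σ _ => ?_
    rw [map_zsmul]
    congr 1
    unfold capMono
    rw [map_mul, map_list_prod, hv', List.map_ofFn]
    congr 2
    refine congrArg List.ofFn (funext fun i => ?_)
    rw [Function.comp_apply, map_mul, hx', hv']
  rw [h1, Ideal.Quotient.eq_zero_iff_mem]
  exact capV_mem _ _

/-- CHAIN.  Induction on `k`: `k = 0`: `U` is trivial.  Step: `U/capI U (k+1)` satisfies the Capelli identity of rank
`k + 1`, so `π(prodI (lst k)) ⊆ capI U (k+1)`; `mul_capI`. -/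
theorem chain (k : ℕ) : ∀ (U : Type) [Ring U], Cap U (k + 1) → ∀ (X : Type)
    (π : FreeAlgebra ℤ X →+* U) (g : FreeAlgebra ℤ X), g ∈ prodI X (lst k) → π g = 0 := by
  induction k with
  | zero =>
    intro U _ hU X π g _
    have h1 := hU (fun _ => 1) (fun _ => 1)
    have h2 : (1 : U) = 0 := by
      rw [← h1]
      simp [capMono]
    have h3 : Subsingleton U := subsingleton_of_zero_eq_one h2.symm
    exact Subsingleton.elim _ _
  | succ k ih =>
    intro U _ hU X π g hg
    have h1 : ∀ g' ∈ prodI X (lst k), π g' ∈ capI U (k + 1) := by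
      intro g' hg'
      have h2 := ih (U ⧸ capI U (k + 1)) (cap_quotient (k + 1)) X
        ((Ideal.Quotient.mk (capI U (k + 1))).comp π) g' hg'
      exact Ideal.Quotient.eq_zero_iff_mem.1 h2
    have h2 : prodI X (lst (k + 1)) = IdM X (k + 1) * (prodI X (lst k) * prodI X (lst k)) := by
      rw [← prodI_append]
      rfl
    rw [h2] at hg
    have h3 : IdM X (k + 1) * (prodI X (lst k) * prodI X (lst k)) ≤ RingHom.ker π := by
      rw [Ideal.mul_le]
      intro g0 hg0 u hu
      have h4 : prodI X (lst k) * prodI X (lst k) ≤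
          { carrier := {u | ∀ g0 ∈ IdM X (k + 1), π (g0 * u) = 0}
            add_mem' := by
              intro a b ha hb g0 hg0
              rw [mul_add, map_add, ha g0 hg0, hb g0 hg0, add_zero]
            zero_mem' := by
              intro g0 _
              rw [mul_zero, map_zero]
            smul_mem' := by
              intro c a ha g0 hg0
              rw [smul_eq_mul, ← mul_assoc]
              exact ha _ (Ideal.mul_mem_right c _ hg0) } := by
        rw [Ideal.mul_le]
        intro g1 hg1 g2 hg2 g0 hg0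
        rw [map_mul, map_mul, ← mul_assoc]
        exact mul_capI (k + 1) hU π g0 hg0 _ _ (h1 g1 hg1) (h1 g2 hg2)
      exact h4 hu g0 hg0
    exact h3 hg

end Pool.PI34.T1

end

/-! ### part T1_E -/
section

/-! PI34, theorem T1, file E: the class of the rings killed by a pure PI ideal. -/

set_option autoImplicit false

namespace Pool.PI34.T1

open Equiv Finset Pool.PI34.C0 Pool.PI34.BA

/-- closure: `ker q₁ · ker q₂ = 0` -/
theorem kills_of_mul {X U U₁ U₂ : Type} [Ring U] [Ring U₁] [Ring U₂]
    (π : FreeAlgebra ℤ X →+* U) (q₁ : U →+* U₁) (q₂ : U →+* U₂)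
    (h : ∀ a b, q₁ a = 0 → q₂ b = 0 → a * b = 0) (h₁ : Kills (q₁.comp π))
    (h₂ : Kills (q₂.comp π)) : Kills π := by
  obtain ⟨I, hI, pI, mI, kI⟩ := h₁
  obtain ⟨J, hJ, pJ, mJ, kJ⟩ := h₂
  refine ⟨I * J, inferInstance, PureI_mul I J pI pJ, MPI_mul I J mI mJ, fun g hg => ?_⟩
  refine Submodule.smul_induction_on (p := fun g => π g = 0) hg ?_ ?_
  · intro a ha b hb
    rw [smul_eq_mul, map_mul]
    exact h _ _ (kI a ha) (kJ b hb)
  · intro a b ha hb
    rw [map_add, ha, hb, add_zero]

/-- rings with a Capelli identity -/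
theorem kills_of_cap {X U : Type} [Ring U] (π : FreeAlgebra ℤ X →+* U) (n : ℕ) (h : Cap U n) :
    Kills π := by
  cases n with
  | zero =>
    have h0 : ∀ u : U, u = 0 := by
      intro u
      have h1 := h (fun _ => u) Fin.elim0
      simpa [capMono] using h1
    refine ⟨⊤, inferInstance, fun _ _ _ _ => Submodule.mem_top, ⟨0, fun _ => 1, rfl,
      fun _ => Submodule.mem_top⟩, fun g _ => h0 _⟩
  | succ k =>
    exact ⟨prodI X (lst k), inferInstance, PureI_prodI X (lst k), MPI_prodI X (lst k),
      fun g hg => chain k U h X π g hg⟩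

/-- torsion free PI rings (`I = ker π`) -/
theorem kills_of_torsionFree {X U : Type} [Ring U] (π : FreeAlgebra ℤ X →+* U)
    (h : ∀ (m : ℕ) (u : U), m ≠ 0 → (m : U) * u = 0 → u = 0) (hPI : MPI (⊥ : Ideal U)) :
    Kills π := by
  refine ⟨RingHom.ker π, inferInstance, ?_, ?_, fun g hg => hg⟩
  · intro m g hm hg
    rw [RingHom.mem_ker, map_mul, map_natCast] at hg
    exact h m _ hm hg
  · obtain ⟨d, a, ha, hx⟩ := hPI
    refine ⟨d, a, ha, fun x => ?_⟩
    have h1 := hx (fun i => π (x i))
    rw [Submodule.mem_bot] at h1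
    rw [RingHom.mem_ker, map_sum, ← h1]
    refine Finset.sum_congr rfl fun σ _ => ?_
    rw [map_zsmul]
    congr 1
    unfold mono
    rw [map_list_prod, List.map_ofFn]
    rfl

end Pool.PI34.T1

end

/-! ### part T1_G -/
section

/-! PI34, theorem T1, file G: rings of positive characteristic. -/

set_option autoImplicit false

namespace Pool.PI34.T1

open Equiv Finset Pool.PI34.C0 Pool.PI34.BA

/-- `R` is an ideal of `U` and `U = ℤ + R` -/
structure Aug {U : Type} [Ring U] (R : NonUnitalSubring U) : Prop where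
  left : ∀ u r, r ∈ R → u * r ∈ R
  right : ∀ u r, r ∈ R → r * u ∈ R
  top : ∀ u : U, ∃ (c : ℤ) (r : U), r ∈ R ∧ u = c + r

/-- rings with a Capelli identity (`cap_step2`, `kills_of_cap`) -/
theorem kills_of_capIn {X U : Type} [Ring U] (R : NonUnitalSubring U) (hR : Aug R)
    (π : FreeAlgebra ℤ X →+* U) (n : ℕ) (h : CapIn R n) : Kills π :=
  kills_of_cap π (2 * n + 2) (cap_step2 R hR.left hR.right hR.top n h)

/-- torsion free PI rings -/
theorem kills_of_tf {X U : Type} [Ring U] (R : NonUnitalSubring U) (hR : Aug R)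
    (π : FreeAlgebra ℤ X →+* U) (htf : ∀ (m : ℕ) (u : U), m ≠ 0 → (m : U) * u = 0 → u = 0)
    (d : ℕ) (a : Perm (Fin (d + 1)) → ℤ) (ha : a 1 = 1)
    (h : ∀ x : Fin (d + 1) → U, (∀ i, x i ∈ R) → ∑ σ, a σ • mono x σ = 0) : Kills π :=
  kills_of_torsionFree π htf (mpi_of_sub R hR.top hR.left hR.right d a ha h)

/-- the ideal `c R` -/
def G_mulI {U : Type} [Ring U] (R : NonUnitalSubring U) (hR : Aug R) (c : ℕ) : Ideal U where
  carrier := {u | ∃ r ∈ R, u = (c : U) * r}
  zero_mem' := ⟨0, R.zero_mem, by simp⟩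
  add_mem' := by
    rintro _ _ ⟨r, hr, rfl⟩ ⟨s, hs, rfl⟩
    exact ⟨r + s, R.add_mem hr hs, by rw [mul_add]⟩
  smul_mem' := by
    rintro u _ ⟨r, hr, rfl⟩
    exact ⟨u * r, hR.left u r hr, by
      rw [smul_eq_mul, ← mul_assoc, ← mul_assoc, (Nat.cast_commute c u).eq]⟩

theorem G_mem_mulI {U : Type} [Ring U] (R : NonUnitalSubring U) (hR : Aug R) (c : ℕ) (u : U) :
    u ∈ G_mulI R hR c ↔ ∃ r ∈ R, u = (c : U) * r := Iff.rfl

theorem G_twoSided {U : Type} [Ring U] (R : NonUnitalSubring U) (hR : Aug R) (c : ℕ) :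
    (G_mulI R hR c).IsTwoSided := by
  constructor
  rintro _ b ⟨r, hr, rfl⟩
  exact ⟨r * b, hR.right b r hr, by rw [mul_assoc]⟩

theorem G_aug_map {U U₁ : Type} [Ring U] [Ring U₁] (R : NonUnitalSubring U) (hR : Aug R)
    (q : U →+* U₁) (hq : Function.Surjective q) : Aug (R.map q) := by
  constructor
  · intro u r hr
    obtain ⟨s, hs, rfl⟩ := NonUnitalSubring.mem_map.1 hr
    obtain ⟨w, rfl⟩ := hq u
    exact NonUnitalSubring.mem_map.2 ⟨w * s, hR.left w s hs, map_mul q w s⟩
  · intro u r hr
    obtain ⟨s, hs, rfl⟩ := NonUnitalSubring.mem_map.1 hr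
    obtain ⟨w, rfl⟩ := hq u
    exact NonUnitalSubring.mem_map.2 ⟨s * w, hR.right w s hs, map_mul q s w⟩
  · intro u
    obtain ⟨w, rfl⟩ := hq u
    obtain ⟨c, r, hr, rfl⟩ := hR.top w
    exact ⟨c, q r, NonUnitalSubring.mem_map.2 ⟨r, hr, rfl⟩, by rw [map_add, map_intCast]⟩

theorem G_mono_map {U U₁ : Type} [Ring U] [Ring U₁] (q : U →+* U₁) {n : ℕ} (x : Fin n → U)
    (σ : Perm (Fin n)) : q (mono x σ) = mono (fun i => q (x i)) σ := by
  unfold mono
  rw [map_list_prod, List.map_ofFn]
  rfl

theorem G_pi_map {U U₁ : Type} [Ring U] [Ring U₁] (R : NonUnitalSubring U) (q : U →+* U₁)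
    (d : ℕ) (a : Perm (Fin (d + 1)) → ℤ)
    (h : ∀ x : Fin (d + 1) → U, (∀ i, x i ∈ R) → ∑ σ, a σ • mono x σ = 0) :
    ∀ x : Fin (d + 1) → U₁, (∀ i, x i ∈ R.map q) → ∑ σ, a σ • mono x σ = 0 := by
  intro x hx
  choose y hy hyx using fun i => NonUnitalSubring.mem_map.1 (hx i)
  have h1 := congrArg q (h y hy)
  rw [map_sum, map_zero] at h1
  have h2 : (fun i => q (y i)) = x := funext hyx
  rw [← h1]
  refine Finset.sum_congr rfl fun σ _ => ?_
  rw [map_zsmul, G_mono_map, h2]

/-- PI rings of positive characteristic.  Induction on `N` (all `U`, `R`, `X`, `π` at the same time).  `N = 1`: `R = 0`, `U`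
is commutative: `Cap U 2`.  `N = p N'`, `p` prime: `q₁ : U → U/pR`, `q₂ : U → U/N'R`, `pR · N'R = 0` (`kills_of_mul`); in
`U/pR` the image of `R` is killed by `p`, so it satisfies a Capelli identity by `C0.capelli` (`kills_of_capIn`);
in `U/N'R` the image of `R` is killed by `N'`: induction. -/
theorem kills_of_char (N : ℕ) (hN : 1 ≤ N) : ∀ {X U : Type} [Ring U] (R : NonUnitalSubring U),
    Aug R → ∀ (π : FreeAlgebra ℤ X →+* U) (d : ℕ) (a : Perm (Fin (d + 1)) → ℤ), a 1 = 1 →
    (∀ x : Fin (d + 1) → U, (∀ i, x i ∈ R) → ∑ σ, a σ • mono x σ = 0) →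
    (∀ r ∈ R, (N : U) * r = 0) → Kills π := by
  induction N using Nat.strong_induction_on with
  | _ N ih =>
    intro X U _ R hR π d a ha h hkill
    rcases Nat.eq_or_lt_of_le hN with hN1 | hN1
    · subst hN1
      have h0 : ∀ r ∈ R, r = 0 := fun r hr => by
        have := hkill r hr
        rwa [Nat.cast_one, one_mul] at this
      apply kills_of_capIn R hR π 1
      intro v x hv hx
      apply Finset.sum_eq_zero
      intro σ _
      have h1 : capMono v x σ = 0 := by
        unfold capMono
        rw [h0 _ (hv 0), zero_mul]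
      rw [h1, smul_zero]
    · obtain ⟨p, hp, N', rfl⟩ := Nat.exists_prime_and_dvd hN1.ne'
      haveI : Fact p.Prime := ⟨hp⟩
      have hN' : 1 ≤ N' := by
        rcases Nat.eq_zero_or_pos N' with h0 | h0
        · rw [h0] at hN1
          omega
        · exact h0
      have hlt : N' < p * N' := by
        have := hp.two_le
        nlinarith
      haveI : (G_mulI R hR p).IsTwoSided := G_twoSided R hR p
      haveI : (G_mulI R hR N').IsTwoSided := G_twoSided R hR N'
      have hs₁ : Function.Surjective (Ideal.Quotient.mk (G_mulI R hR p)) :=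
        Ideal.Quotient.mk_surjective
      have hs₂ : Function.Surjective (Ideal.Quotient.mk (G_mulI R hR N')) :=
        Ideal.Quotient.mk_surjective
      refine kills_of_mul π (Ideal.Quotient.mk (G_mulI R hR p))
        (Ideal.Quotient.mk (G_mulI R hR N')) ?_ ?_ ?_
      · intro u w hu hw
        rw [Ideal.Quotient.eq_zero_iff_mem, G_mem_mulI] at hu hw
        obtain ⟨r, hr, rfl⟩ := hu
        obtain ⟨s, hs, rfl⟩ := hw
        have h1 := hkill (r * s) (R.mul_mem hr hs)
        rw [← h1, Nat.cast_mul]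
        have h2 : r * (N' : U) = (N' : U) * r := (Nat.cast_commute N' r).eq.symm
        calc (p : U) * r * ((N' : U) * s) = (p : U) * (r * (N' : U)) * s := by
              simp only [mul_assoc]
          _ = (p : U) * ((N' : U) * r) * s := by rw [h2]
          _ = (p : U) * (N' : U) * (r * s) := by simp only [mul_assoc]
      · obtain ⟨n, _, hcap⟩ := C0.capelli p d
        apply kills_of_capIn (R.map (Ideal.Quotient.mk (G_mulI R hR p))) (G_aug_map R hR _ hs₁) _ n
        intro v x hv hx
        refine hcap _ (R.map (Ideal.Quotient.mk (G_mulI R hR p))) a ha (G_pi_map R _ d a h) ?_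
          Perm.sign v x hv hx
        intro r hr
        obtain ⟨s, hs, rfl⟩ := NonUnitalSubring.mem_map.1 hr
        have h3 : (p : ℤ) • (Ideal.Quotient.mk (G_mulI R hR p)) s =
            (Ideal.Quotient.mk (G_mulI R hR p)) ((p : U) * s) := by
          rw [zsmul_eq_mul, map_mul, map_natCast]
          simp
        have h4 : (Ideal.Quotient.mk (G_mulI R hR p)) ((p : U) * s) = 0 :=
          Ideal.Quotient.eq_zero_iff_mem.2 ⟨s, hs, rfl⟩
        exact h3.trans h4
      · refine ih N' hlt hN' (R.map (Ideal.Quotient.mk (G_mulI R hR N'))) (G_aug_map R hR _ hs₂) _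
          d a ha (G_pi_map R _ d a h) ?_
        intro r hr
        obtain ⟨s, hs, rfl⟩ := NonUnitalSubring.mem_map.1 hr
        have h4 : (Ideal.Quotient.mk (G_mulI R hR N')) ((N' : U) * s) = 0 :=
          Ideal.Quotient.eq_zero_iff_mem.2 ⟨s, hs, rfl⟩
        have h5 : ((N' : ℕ) : U ⧸ G_mulI R hR N') * (Ideal.Quotient.mk (G_mulI R hR N')) s =
            (Ideal.Quotient.mk (G_mulI R hR N')) ((N' : U) * s) := by
          rw [map_mul, map_natCast]
        exact h5.trans h4

end Pool.PI34.T1

end

/-! ### part T1_H -/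
section

/-! PI34, theorem T1, file H: THEOREM T1. -/

set_option autoImplicit false

namespace Pool.PI34.T1

open Equiv Finset Pool.PI34.C0 Pool.PI34.BA

/-- PI rings (the form of the frozen statement) -/
def PIid (R : Type) [NonUnitalRing R] : Prop :=
  ∃ (d : ℕ) (a : Equiv.Perm (Fin (d + 1)) → ℤ), a 1 = 1 ∧
    ∀ x : Fin (d + 1) → R,
      ∑ σ : Equiv.Perm (Fin (d + 1)),
        a σ • ((List.ofFn (fun i : Fin d => x (σ i.succ))).foldl
          (fun u v => u * v) (x (σ 0))) = 0

/-- Capelli identity `∑ sgn(σ) v_0 x_{σ 0} v_1 ⋯ x_{σ (n-1)} v_n = 0` -/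
def CapN (R : Type) [NonUnitalRing R] : Prop :=
  ∃ n : ℕ, ∀ (v : Fin (n + 1) → R) (x : Fin n → R),
    ∑ σ : Equiv.Perm (Fin n), ((Equiv.Perm.sign σ : ℤˣ) : ℤ) •
      ((List.ofFn (fun i : Fin n => x (σ i) * v i.succ)).foldl (fun u v => u * v) (v 0)) = 0

/-- `R` is an image of a torsion free PI ring -/
def Im (R : Type) [NonUnitalRing R] : Prop :=
  ∃ (S : Type) (_ : NonUnitalRing S), PIid S ∧
    (∀ (k : ℕ) (s : S), k ≠ 0 → k • s = 0 → s = 0) ∧
    ∃ φ : S →ₙ+* R, Function.Surjective φ

/-- the ring with unit adjoined -/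
def Un (R : Type) [NonUnitalRing R] : Type := Unitization ℤ R

noncomputable instance (R : Type) [NonUnitalRing R] : Ring (Un R) :=
  inferInstanceAs (Ring (Unitization ℤ R))

/-- `R → Un R` -/
def inU (R : Type) [NonUnitalRing R] : R →ₙ+* Un R where
  toFun r := (Unitization.inr r : Unitization ℤ R)
  map_mul' a b := Unitization.inr_mul ℤ a b
  map_zero' := Unitization.inr_zero ℤ
  map_add' a b := Unitization.inr_add ℤ a b

/-- `Un R → ℤ` -/
def fstU (R : Type) [NonUnitalRing R] : Un R →+* ℤ where
  toFun u := (show Unitization ℤ R from u).fst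
  map_one' := Unitization.fst_one
  map_mul' a b := Unitization.fst_mul (show Unitization ℤ R from a) (show Unitization ℤ R from b)
  map_zero' := Unitization.fst_zero
  map_add' a b := Unitization.fst_add (show Unitization ℤ R from a) (show Unitization ℤ R from b)

/-- `R` inside `Un R` -/
def RU (R : Type) [NonUnitalRing R] : NonUnitalSubring (Un R) where
  carrier := {u | fstU R u = 0}
  zero_mem' := map_zero _
  add_mem' := by
    intro a b ha hb
    have h1 : fstU R a = 0 := ha
    have h2 : fstU R b = 0 := hb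
    change fstU R (a + b) = 0
    rw [map_add, h1, h2, add_zero]
  neg_mem' := by
    intro a ha
    have h1 : fstU R a = 0 := ha
    change fstU R (-a) = 0
    rw [map_neg, h1, neg_zero]
  mul_mem' := by
    intro a b ha _
    have h1 : fstU R a = 0 := ha
    change fstU R (a * b) = 0
    rw [map_mul, h1, zero_mul]

theorem mem_RU' (R : Type) [NonUnitalRing R] (u : Un R) : u ∈ RU R ↔ fstU R u = 0 := Iff.rfl

theorem mem_RU (R : Type) [NonUnitalRing R] (u : Un R) : u ∈ RU R ↔ ∃ r, inU R r = u := by
  constructor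
  · intro h
    have h1 : (show Unitization ℤ R from u).fst = 0 := h
    refine ⟨(show Unitization ℤ R from u).snd, ?_⟩
    refine Unitization.ext ?_ ?_
    · exact h1.symm
    · rfl
  · rintro ⟨r, rfl⟩
    exact Unitization.fst_inr ℤ r

theorem inU_injective (R : Type) [NonUnitalRing R] : Function.Injective (inU R) :=
  fun _ _ h => Unitization.inr_injective h

theorem aug_RU (R : Type) [NonUnitalRing R] : Aug (RU R) := by
  refine ⟨?_, ?_, ?_⟩
  · intro u r hr
    rw [mem_RU'] at hr ⊢
    rw [map_mul, hr, mul_zero]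
  · intro u r hr
    rw [mem_RU'] at hr ⊢
    rw [map_mul, hr, zero_mul]
  · intro u
    refine ⟨fstU R u, u - ((fstU R u : ℤ) : Un R), ?_, ?_⟩
    · rw [mem_RU', map_sub, map_intCast]
      simp
    · rw [add_sub_cancel]

/-- the canonical map from the free ring on `R` -/
noncomputable def canon (R : Type) [NonUnitalRing R] : FreeAlgebra ℤ R →+* Un R :=
  (FreeAlgebra.lift ℤ (fun r : R => inU R r) : FreeAlgebra ℤ R →ₐ[ℤ] Un R)

theorem canon_ι (R : Type) [NonUnitalRing R] (r : R) :
    canon R (FreeAlgebra.ι ℤ r) = inU R r := by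
  simp [canon]

/-- `(x_0 x_1 ⋯ x_d) ∈ R` as an element of `Un R` -/
theorem inr_foldl (R : Type) [NonUnitalRing R] (x : R) (l : List R) :
    inU R (l.foldl (fun u v => u * v) x) = inU R x * (l.map fun y => inU R y).prod := by
  induction l generalizing x with
  | nil => simp
  | cons y l ih =>
    rw [List.foldl_cons, ih (x * y), map_mul, List.map_cons, List.prod_cons, mul_assoc]

theorem inU_mono (R : Type) [NonUnitalRing R] (d : ℕ) (x : Fin (d + 1) → R)
    (σ : Equiv.Perm (Fin (d + 1))) :
    inU R ((List.ofFn (fun i : Fin d => x (σ i.succ))).foldl (fun u v => u * v) (x (σ 0))) =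
      mono (fun i => inU R (x i)) σ := by
  rw [inr_foldl, List.map_ofFn, mono, List.ofFn_succ, List.prod_cons]
  rfl

theorem inU_sum (R : Type) [NonUnitalRing R] (d : ℕ) (a : Equiv.Perm (Fin (d + 1)) → ℤ)
    (x : Fin (d + 1) → R) :
    inU R (∑ σ : Equiv.Perm (Fin (d + 1)),
        a σ • ((List.ofFn (fun i : Fin d => x (σ i.succ))).foldl
          (fun u v => u * v) (x (σ 0)))) =
      ∑ σ, a σ • mono (fun i => inU R (x i)) σ := by
  rw [map_sum]
  refine Finset.sum_congr rfl fun σ _ => ?_
  rw [map_zsmul, inU_mono]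

theorem inU_cap (R : Type) [NonUnitalRing R] (n : ℕ) (v : Fin (n + 1) → R) (x : Fin n → R)
    (σ : Equiv.Perm (Fin n)) :
    inU R ((List.ofFn (fun i : Fin n => x (σ i) * v i.succ)).foldl (fun u v => u * v) (v 0)) =
      capMono (fun i => inU R (v i)) (fun i => inU R (x i)) σ := by
  rw [inr_foldl, List.map_ofFn, capMono]
  congr 2
  refine congrArg List.ofFn ?_
  funext i
  exact map_mul (inU R) _ _

/-- translation of the identity of `R` -/
theorem piid_iff (R : Type) [NonUnitalRing R] (d : ℕ) (a : Equiv.Perm (Fin (d + 1)) → ℤ) :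
    (∀ x : Fin (d + 1) → R, ∑ σ : Equiv.Perm (Fin (d + 1)),
        a σ • ((List.ofFn (fun i : Fin d => x (σ i.succ))).foldl
          (fun u v => u * v) (x (σ 0))) = 0) ↔
      ∀ x : Fin (d + 1) → Un R, (∀ i, x i ∈ RU R) → ∑ σ, a σ • mono x σ = 0 := by
  constructor
  · intro h x hx
    have hx' : ∀ i, ∃ r, inU R r = x i := fun i => (mem_RU R _).1 (hx i)
    choose y hy using hx'
    have h1 := congrArg (inU R) (h y)
    rw [inU_sum, map_zero] at h1
    have h2 : (fun i => inU R (y i)) = x := funext hy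
    rw [h2] at h1
    exact h1
  · intro h x
    apply inU_injective R
    rw [inU_sum, map_zero]
    exact h _ fun i => (mem_RU R _).2 ⟨_, rfl⟩

theorem capN_iff (R : Type) [NonUnitalRing R] : CapN R ↔ ∃ n, CapIn (RU R) n := by
  unfold CapN
  refine exists_congr fun n => ?_
  have key : ∀ (v : Fin (n + 1) → R) (x : Fin n → R),
      inU R (∑ σ : Equiv.Perm (Fin n), ((Equiv.Perm.sign σ : ℤˣ) : ℤ) •
      ((List.ofFn (fun i : Fin n => x (σ i) * v i.succ)).foldl (fun u v => u * v) (v 0))) =
      ∑ σ : Equiv.Perm (Fin n), ((Equiv.Perm.sign σ : ℤˣ) : ℤ) •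
        capMono (fun i => inU R (v i)) (fun i => inU R (x i)) σ := by
    intro v x
    rw [map_sum]
    refine Finset.sum_congr rfl fun σ _ => ?_
    rw [map_zsmul, inU_cap]
  constructor
  · intro h v x hv hx
    have hv' : ∀ i, ∃ r, inU R r = v i := fun i => (mem_RU R _).1 (hv i)
    have hx' : ∀ i, ∃ r, inU R r = x i := fun i => (mem_RU R _).1 (hx i)
    choose v' hv' using hv'
    choose x' hx' using hx'
    have h1 := congrArg (inU R) (h v' x')
    rw [key, map_zero] at h1
    have h2 : (fun i => inU R (v' i)) = v := funext hv'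
    have h3 : (fun i => inU R (x' i)) = x := funext hx'
    rw [h2, h3] at h1
    exact h1
  · intro h v x
    apply inU_injective R
    rw [key, map_zero]
    exact h _ _ (fun i => (mem_RU R _).2 ⟨_, rfl⟩) (fun i => (mem_RU R _).2 ⟨_, rfl⟩)

/-- PROOF. `S` = the preimage of `R` under `F/I → Un R`, a nonunital subring of the torsion free PI ring `F/I`;
it maps onto `R` because `canon` hits every `inr r`.  The identity of `F/I` with unit restricts to `S`
(`mono` = the `foldl` product). -/
theorem im_of_kills (R : Type) [NonUnitalRing R] (h : Kills (canon R)) : Im R := by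
  obtain ⟨I, hI2, hpure, ⟨d, a, ha, hid⟩, hkill⟩ := h
  let q : (FreeAlgebra ℤ R ⧸ I) →+* Un R := Ideal.Quotient.lift I (canon R) hkill
  let S : NonUnitalSubring (FreeAlgebra ℤ R ⧸ I) :=
    NonUnitalSubring.comap (q : (FreeAlgebra ℤ R ⧸ I) →ₙ+* Un R) (RU R)
  have hS : ∀ s : S, q s.1 ∈ RU R := fun s => s.2
  have hval : ∀ (x : S) (l : List S), ((l.foldl (fun u v => u * v) x : S) :
      FreeAlgebra ℤ R ⧸ I) = x.1 * (l.map fun y => y.1).prod := by
    intro x l
    induction l generalizing x with
    | nil => simp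
    | cons y l ih =>
      rw [List.foldl_cons, ih (x * y), List.map_cons, List.prod_cons, ← mul_assoc]
      rfl
  refine ⟨S, inferInstance, ⟨d, a, ha, ?_⟩, ?_, ?_⟩
  · intro x
    have hx : ∀ i, ∃ g : FreeAlgebra ℤ R, Ideal.Quotient.mk I g = (x i).1 :=
      fun i => Ideal.Quotient.mk_surjective _
    choose g hg using hx
    have h1 := (Ideal.Quotient.eq_zero_iff_mem).2 (hid g)
    rw [map_sum] at h1
    apply Subtype.ext
    have h2 : ((∑ σ : Equiv.Perm (Fin (d + 1)),
        a σ • ((List.ofFn (fun i : Fin d => x (σ i.succ))).foldl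
          (fun u v => u * v) (x (σ 0))) : S) : FreeAlgebra ℤ R ⧸ I) =
        ∑ σ : Equiv.Perm (Fin (d + 1)), Ideal.Quotient.mk I (a σ • mono g σ) := by
      have h3 : ∀ s : S, (s : FreeAlgebra ℤ R ⧸ I) = S.subtype s := fun s => rfl
      rw [h3, map_sum]
      refine Finset.sum_congr rfl fun σ _ => ?_
      rw [map_zsmul, map_zsmul, ← h3, hval, List.map_ofFn, mono, List.ofFn_succ, List.prod_cons,
        map_mul, hg, map_list_prod, List.map_ofFn]
      congr 3
      refine congrArg List.ofFn ?_
      funext i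
      exact (hg _).symm
    rw [h2, h1]
    rfl
  · intro k s hk hks
    apply Subtype.ext
    obtain ⟨g, hg⟩ := Ideal.Quotient.mk_surjective (s : FreeAlgebra ℤ R ⧸ I)
    have h1 : (k : FreeAlgebra ℤ R ⧸ I) * s.1 = 0 := by
      have h2 := congrArg Subtype.val hks
      have h3 : ((k • s : S) : FreeAlgebra ℤ R ⧸ I) = k • s.1 := rfl
      rw [h3, nsmul_eq_mul] at h2
      exact h2
    rw [← hg, ← map_natCast (Ideal.Quotient.mk I) k, ← map_mul,
      Ideal.Quotient.eq_zero_iff_mem] at h1
    rw [← hg]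
    exact (Ideal.Quotient.eq_zero_iff_mem).2 (hpure k g hk h1)
  · have hex : ∀ s : S, ∃ r, inU R r = q s.1 := fun s => (mem_RU R _).1 (hS s)
    choose φ hφ using hex
    refine ⟨⟨⟨φ, ?_⟩, ?_, ?_⟩, ?_⟩
    · intro s t
      apply inU_injective R
      rw [map_mul, hφ, hφ, hφ]
      exact map_mul q s.1 t.1
    · apply inU_injective R
      change inU R (φ 0) = inU R 0
      rw [hφ, map_zero]
      exact map_zero q
    · intro s t
      apply inU_injective R
      change inU R (φ (s + t)) = inU R (φ s + φ t)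
      rw [map_add, hφ, hφ, hφ]
      exact map_add q s.1 t.1
    · intro r
      have hr : q (Ideal.Quotient.mk I (FreeAlgebra.ι ℤ r)) = inU R r := by
        rw [Ideal.Quotient.lift_mk, canon_ι]
      refine ⟨⟨Ideal.Quotient.mk I (FreeAlgebra.ι ℤ r), ?_⟩, ?_⟩
      · change q (Ideal.Quotient.mk I (FreeAlgebra.ι ℤ r)) ∈ RU R
        rw [hr]
        exact (mem_RU R _).2 ⟨r, rfl⟩
      · apply inU_injective R
        exact (hφ _).trans hr

/-- functoriality of `Un` -/
def unMap {R Q : Type} [NonUnitalRing R] [NonUnitalRing Q] (f : R →ₙ+* Q) : Un R →+* Un Q where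
  toFun u := (Unitization.inl (show Unitization ℤ R from u).fst +
    Unitization.inr (f (show Unitization ℤ R from u).snd) : Unitization ℤ Q)
  map_one' := by
    refine Unitization.ext ?_ ?_
    · change ((1 : Unitization ℤ R).fst : ℤ) + 0 = 1
      simp
    · change (0 : Q) + f (1 : Unitization ℤ R).snd = 0
      simp
  map_zero' := by
    refine Unitization.ext ?_ ?_
    · change ((0 : Unitization ℤ R).fst : ℤ) + 0 = 0
      simp
    · change (0 : Q) + f (0 : Unitization ℤ R).snd = 0
      simp
  map_add' u v := by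
    refine Unitization.ext ?_ ?_
    · change ((show Unitization ℤ R from u) + (show Unitization ℤ R from v)).fst + 0 =
        ((show Unitization ℤ R from u).fst + 0) + ((show Unitization ℤ R from v).fst + 0)
      rw [Unitization.fst_add]
      ring
    · change (0 : Q) + f ((show Unitization ℤ R from u) + (show Unitization ℤ R from v)).snd =
        (0 + f (show Unitization ℤ R from u).snd) + (0 + f (show Unitization ℤ R from v).snd)
      rw [Unitization.snd_add, map_add, zero_add, zero_add, zero_add]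
  map_mul' u v := by
    refine Unitization.ext ?_ ?_
    · change ((show Unitization ℤ R from u) * (show Unitization ℤ R from v)).fst + 0 =
        ((show Unitization ℤ R from u).fst + 0) * ((show Unitization ℤ R from v).fst + 0)
      rw [Unitization.fst_mul]
      ring
    · change (0 : Q) + f ((show Unitization ℤ R from u) * (show Unitization ℤ R from v)).snd =
        ((show Unitization ℤ R from u).fst + 0) • (0 + f (show Unitization ℤ R from v).snd) +
        ((show Unitization ℤ R from v).fst + 0) • (0 + f (show Unitization ℤ R from u).snd) +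
        (0 + f (show Unitization ℤ R from u).snd) * (0 + f (show Unitization ℤ R from v).snd)
      rw [Unitization.snd_mul, map_add, map_add, map_zsmul, map_zsmul, map_mul]
      simp only [zero_add, add_zero]

theorem unMap_inU {R Q : Type} [NonUnitalRing R] [NonUnitalRing Q] (f : R →ₙ+* Q) (r : R) :
    unMap f (inU R r) = inU Q (f r) := by
  refine Unitization.ext ?_ ?_
  · change ((Unitization.inr r : Unitization ℤ R).fst : ℤ) + 0 = 0
    simp
  · change (0 : Q) + f (Unitization.inr r : Unitization ℤ R).snd = f r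
    simp

/-- the kernel of `unMap f` is the kernel of `f` -/
theorem unMap_eq_zero {R Q : Type} [NonUnitalRing R] [NonUnitalRing Q] (f : R →ₙ+* Q) (u : Un R)
    (h : unMap f u = 0) : ∃ r, f r = 0 ∧ u = inU R r := by
  have h1 : (show Unitization ℤ R from u).fst + 0 = 0 :=
    congrArg (fun w : Unitization ℤ Q => w.fst) h
  have h2 : (0 : Q) + f (show Unitization ℤ R from u).snd = 0 :=
    congrArg (fun w : Unitization ℤ Q => w.snd) h
  rw [add_zero] at h1
  rw [zero_add] at h2
  refine ⟨(show Unitization ℤ R from u).snd, h2, ?_⟩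
  refine Unitization.ext ?_ ?_
  · exact h1
  · rfl

/-- products of finitely many pure PI ideals -/
theorem exists_prod_ideal (X : Type) (c : ℕ) : ∀ (I : Fin (c + 1) → Ideal (FreeAlgebra ℤ X)),
    (∀ i, (I i).IsTwoSided) → (∀ i, PureI (I i)) → (∀ i, MPI (I i)) →
    ∃ J : Ideal (FreeAlgebra ℤ X), J.IsTwoSided ∧ PureI J ∧ MPI J ∧
      ∀ g ∈ J, g ∈ AddSubgroup.closure {y : FreeAlgebra ℤ X | ∃ h : Fin (c + 1) → FreeAlgebra ℤ X,
        (∀ i, h i ∈ I i) ∧ y = (List.ofFn h).prod} := by
  induction c with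
  | zero =>
    intro I h2 hp hm
    refine ⟨I 0, h2 0, hp 0, hm 0, fun g hg => AddSubgroup.subset_closure ⟨fun _ => g, ?_, ?_⟩⟩
    · intro i
      rw [Fin.eq_zero i]
      exact hg
    · simp
  | succ c ih =>
    intro I h2 hp hm
    obtain ⟨J, hJ2, hJp, hJm, hJ⟩ := ih (fun i => I i.succ) (fun i => h2 _) (fun i => hp _)
      (fun i => hm _)
    have := h2 0
    have := hJ2
    refine ⟨I 0 * J, inferInstance, PureI_mul _ _ (hp 0) hJp, MPI_mul _ _ (hm 0) hJm, ?_⟩
    intro g hg
    have hg' : g ∈ (I 0 : Ideal (FreeAlgebra ℤ X)) • (J : Submodule (FreeAlgebra ℤ X)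
      (FreeAlgebra ℤ X)) := hg
    refine Submodule.smul_induction_on hg' ?_ ?_
    · intro r hr y hy
      have hy' := hJ y hy
      refine AddSubgroup.closure_induction (p := fun y _ => r • y ∈ AddSubgroup.closure
        {y : FreeAlgebra ℤ X | ∃ h : Fin (c + 1 + 1) → FreeAlgebra ℤ X,
        (∀ i, h i ∈ I i) ∧ y = (List.ofFn h).prod}) ?_ ?_ ?_ ?_ hy'
      · rintro z ⟨h, hh, rfl⟩
        refine AddSubgroup.subset_closure ⟨Fin.cons r h, ?_, ?_⟩
        · intro i
          refine Fin.cases ?_ ?_ i
          · exact hr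
          · intro j
            exact hh j
        · rw [List.ofFn_succ (f := (Fin.cons r h : Fin (c + 1 + 1) → FreeAlgebra ℤ X)),
            List.prod_cons]
          rfl
      · rw [smul_zero]
        exact AddSubgroup.zero_mem _
      · intro x y _ _ hx hy
        rw [smul_add]
        exact AddSubgroup.add_mem _ hx hy
      · intro x _ hx
        rw [smul_neg]
        exact AddSubgroup.neg_mem _ hx
    · intro x y hx hy
      exact AddSubgroup.add_mem _ hx hy

/-- `Kills` for a finite family of homomorphisms with product of kernels zero: induction on the number of factors;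
`I = I_0 ⋯ I_c`. -/
theorem kills_family (R : Type) [NonUnitalRing R] (c : ℕ) (Q : Fin (c + 1) → Type)
    [∀ i, NonUnitalRing (Q i)] (f : ∀ i, R →ₙ+* Q i)
    (hprod : ∀ a : Fin (c + 1) → R, (∀ i, f i (a i) = 0) →
      (List.ofFn fun i : Fin c => a i.succ).foldl (fun u v => u * v) (a 0) = 0)
    (h : ∀ i, Kills ((unMap (f i)).comp (canon R))) : Kills (canon R) := by
  choose I h2 hp hm hk using h
  obtain ⟨J, hJ2, hJp, hJm, hJ⟩ := exists_prod_ideal R c I h2 hp hm
  refine ⟨J, hJ2, hJp, hJm, ?_⟩
  intro g hg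
  have hcl : AddSubgroup.closure {y : FreeAlgebra ℤ R | ∃ h : Fin (c + 1) → FreeAlgebra ℤ R,
      (∀ i, h i ∈ I i) ∧ y = (List.ofFn h).prod} ≤ (canon R).toAddMonoidHom.ker := by
    rw [AddSubgroup.closure_le]
    rintro y ⟨h, hh, rfl⟩
    change canon R (List.ofFn h).prod = 0
    have h1 : ∀ i, ∃ r, f i r = 0 ∧ canon R (h i) = inU R r :=
      fun i => unMap_eq_zero (f i) _ (hk i _ (hh i))
    choose a ha0 ha using h1
    rw [map_list_prod, List.map_ofFn, List.ofFn_succ, List.prod_cons]
    have h3 := inr_foldl R (a 0) (List.ofFn fun i : Fin c => a i.succ)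
    rw [hprod a ha0, map_zero, List.map_ofFn] at h3
    rw [h3]
    congr 1
    · exact ha 0
    · congr 1
      refine congrArg List.ofFn ?_
      funext i
      exact ha _
  exact hcl (hJ g hg)

/-- THEOREM T1.  Let `R` be a PI ring with ideals `J_0, …, J_c`, `J_0 J_1 ⋯ J_c = 0`, such that every `R/J_i` is torsion
free, or of positive characteristic, or satisfies a Capelli identity.  Then `R` is an image of a torsion free PI
ring. -/
theorem theoremT1 (R : Type) [NonUnitalRing R] (hPI : PIid R) (c : ℕ) (Q : Fin (c + 1) → Type)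
    [∀ i, NonUnitalRing (Q i)] (f : ∀ i, R →ₙ+* Q i) (hf : ∀ i, Function.Surjective (f i))
    (hprod : ∀ a : Fin (c + 1) → R, (∀ i, f i (a i) = 0) →
      (List.ofFn fun i : Fin c => a i.succ).foldl (fun u v => u * v) (a 0) = 0)
    (hQ : ∀ i, (∀ (m : ℕ) (y : Q i), m ≠ 0 → m • y = 0 → y = 0) ∨
      (∃ N : ℕ, N ≠ 0 ∧ ∀ y : Q i, N • y = 0) ∨ CapN (Q i)) : Im R := by
  apply im_of_kills
  apply kills_family R c Q f hprod
  intro i
  obtain ⟨d, a, ha, hid⟩ := hPI
  have hidU := (piid_iff R d a).1 hid
  have hidQ : ∀ x : Fin (d + 1) → Un (Q i), (∀ j, x j ∈ RU (Q i)) →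
      ∑ σ, a σ • mono x σ = 0 := by
    intro y hy
    have h1 : ∀ j, ∃ r, inU (Q i) r = y j := fun j => (mem_RU (Q i) _).1 (hy j)
    choose r hr using h1
    have h2 : ∀ j, ∃ s, f i s = r j := fun j => hf i (r j)
    choose s hs using h2
    have h3 := congrArg (unMap (f i)) (hidU (fun j => inU R (s j))
      (fun j => (mem_RU R _).2 ⟨_, rfl⟩))
    rw [map_sum, map_zero] at h3
    rw [← h3]
    refine Finset.sum_congr rfl fun σ _ => ?_
    rw [map_zsmul, mono, mono, map_list_prod, List.map_ofFn]
    refine congrArg (fun w => a σ • (List.ofFn w).prod) ?_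
    funext j
    change y (σ j) = unMap (f i) (inU R (s (σ j)))
    rw [unMap_inU, hs, hr]
  rcases hQ i with htf | ⟨N, hN, hchar⟩ | hcap
  · refine kills_of_tf (RU (Q i)) (aug_RU (Q i)) _ ?_ d a ha hidQ
    intro m u hm hu
    have h1 : fstU (Q i) u = 0 := by
      have h2 := congrArg (fstU (Q i)) hu
      rw [map_mul, map_natCast, map_zero] at h2
      rcases mul_eq_zero.1 h2 with h3 | h3
      · exact absurd (by exact_mod_cast h3) hm
      · exact h3
    obtain ⟨r, rfl⟩ := (mem_RU (Q i) u).1 h1
    rw [← nsmul_eq_mul, ← map_nsmul] at hu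
    have h4 : m • r = 0 := inU_injective (Q i) (hu.trans (map_zero _).symm)
    rw [htf m r hm h4, map_zero]
  · refine kills_of_char N (Nat.one_le_iff_ne_zero.2 hN) (RU (Q i)) (aug_RU (Q i)) _ d a ha hidQ ?_
    intro u hu
    obtain ⟨r, rfl⟩ := (mem_RU (Q i) u).1 hu
    rw [← nsmul_eq_mul, ← map_nsmul, hchar, map_zero]
  · obtain ⟨n, hn⟩ := (capN_iff (Q i)).1 hcap
    exact kills_of_capIn (RU (Q i)) (aug_RU (Q i)) _ n hn

end Pool.PI34.T1

end
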