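import Mathlib
import Pool.Agent.LibPI54.M49

/-! ### part CV_Def -/
section

/-!
Free associative rings (without unit), polynomial identities, varieties and relatively free rings.
Rings are associative and need not have a unit; homomorphisms need not preserve a unit.
-/

set_option autoImplicit false

namespace Pool.PI34.CV

/-- The free associative ring `ℤ⟨X⟩` without unit: polynomials without constant term, with integer
coefficients, in the noncommuting variables from `X`; the monomials are the nonempty words in `X`. -/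
abbrev Fr (X : Type) : Type := MonoidAlgebra ℤ (FreeSemigroup X)

/-- The value of a polynomial under the substitution `v` of elements of `R` for the variables. -/
noncomputable def ev {X R : Type} [NonUnitalRing R] (v : X → R) : Fr X →ₙₐ[ℤ] R :=
  MonoidAlgebra.liftMagma ℤ (FreeSemigroup.lift v)

/-- The ring `R` satisfies the polynomial `f`. -/
def Sat {X : Type} (R : Type) [NonUnitalRing R] (f : Fr X) : Prop :=
  ∀ v : X → R, ev v f = 0

/-- PI rings: `R` satisfies some polynomial having at least one coefficient `1` or `-1`. -/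
def IsPI (R : Type) [NonUnitalRing R] : Prop :=
  ∃ f : Fr ℕ, (∃ w : FreeSemigroup ℕ, f.coeff w = 1 ∨ f.coeff w = -1) ∧ Sat R f

/-- `R` belongs to the variety of rings defined by the set `E` of polynomial identities (every polynomial
has finitely many variables, so polynomials in countably many variables suffice). -/
def InVar (E : Set (Fr ℕ)) (R : Type) [NonUnitalRing R] : Prop := ∀ f ∈ E, Sat R f

/-- The ideal `T(V)` of all polynomials in the variables `X` that are satisfied by every ring of the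
variety `V` defined by `E`; it is a two-sided ideal of `ℤ⟨X⟩`. -/
noncomputable def TV (E : Set (Fr ℕ)) (X : Type) : TwoSidedIdeal (Fr X) :=
  TwoSidedIdeal.mk' {g : Fr X | ∀ (R : Type) [NonUnitalRing R], InVar E R → Sat R g}
    (fun R _ _ v => map_zero (ev v))
    (fun {f g} hf hg R _ hR v => by rw [map_add, hf R hR v, hg R hR v, add_zero])
    (fun {f} hf R _ hR v => by rw [map_neg, hf R hR v, neg_zero])
    (fun {f g} hg R _ hR v => by rw [map_mul, hg R hR v, mul_zero])
    (fun {f g} hf R _ hR v => by rw [map_mul, hf R hR v, zero_mul])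

/-- The free ring `F_X(V) = ℤ⟨X⟩ / T(V)` of the variety `V` defined by `E`. -/
abbrev FreeVar (E : Set (Fr ℕ)) (X : Type) : Type := (TV E X).ringCon.Quotient

end Pool.PI34.CV

end

/-! ### part CV_A -/
section

/-! PI34, conversion of a polynomial identity with a coefficient `±1` into a multilinear one, file A:
polarization. -/

set_option autoImplicit false

namespace Pool.PI34.CV

open Equiv Finset Pool.PI34.C0 Pool.PI34.T1

/-- nonempty and empty words -/
abbrev Wd : Type := Σ n : ℕ, (Fin n → ℕ)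

/-- value of a word -/
def wv {U : Type} [Ring U] (v : ℕ → U) (p : Wd) : U := (List.ofFn fun t => v (p.2 t)).prod

/-- polarizing substitution -/
def vT {U : Type} [Ring U] {d : ℕ} (i : Fin d → ℕ) (y : Fin d → U) (T : Finset (Fin d)) (a : ℕ) : U :=
  ∑ j : Fin d, if j ∉ T ∧ i j = a then y j else 0

/-- polarization of a word -/
def Gp {U : Type} [Ring U] {d : ℕ} (i : Fin d → ℕ) (y : Fin d → U) (p : Wd) : U :=
  ∑ τ : Fin p.1 → Fin d, if Function.Surjective τ ∧ ∀ t, i (τ t) = p.2 t then
    (List.ofFn fun t => y (τ t)).prod else 0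

theorem prod_expand {U : Type} [Ring U] {n d : ℕ} (c : Fin n → Fin d → U) :
    (List.ofFn fun t => ∑ j, c t j).prod = ∑ τ : Fin n → Fin d, (List.ofFn fun t => c t (τ t)).prod := by
  have h := (MultilinearMap.mkPiAlgebraFin ℤ n U).map_sum (fun t j => c t j)
  simpa only [MultilinearMap.mkPiAlgebraFin_apply] using h

theorem prod_ite {U : Type} [Ring U] {n : ℕ} (P : Fin n → Prop) [DecidablePred P] (c : Fin n → U) :
    (List.ofFn fun t => if P t then c t else 0).prod =
      if ∀ t, P t then (List.ofFn c).prod else 0 := by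
  classical
  split_ifs with h
  · congr 2
    funext t
    rw [if_pos (h t)]
  · push Not at h
    obtain ⟨t, ht⟩ := h
    apply List.prod_eq_zero
    rw [List.mem_ofFn]
    exact ⟨t, if_neg ht⟩

theorem sum_sign {d : ℕ} (A : Finset (Fin d)) :
    (∑ T : Finset (Fin d), if Disjoint T A then ((-1 : ℤ)) ^ T.card else 0) =
      if A = univ then 1 else 0 := by
  classical
  have h := Finset.sum_powerset_neg_one_pow_card (x := Aᶜ)
  have h2 : (∑ T : Finset (Fin d), if Disjoint T A then ((-1 : ℤ)) ^ T.card else 0) =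
      ∑ T ∈ (Aᶜ).powerset, (-1 : ℤ) ^ T.card := by
    rw [← Finset.sum_filter]
    refine Finset.sum_congr ?_ fun _ _ => rfl
    ext T
    rw [mem_filter, mem_powerset, Finset.subset_compl_iff_disjoint_right]
    simp
  rw [h2, h]
  simp only [Finset.compl_eq_empty_iff]

theorem polar_word {U : Type} [Ring U] {d : ℕ} (i : Fin d → ℕ) (y : Fin d → U) (p : Wd) :
    ∑ T : Finset (Fin d), ((-1 : ℤ)) ^ T.card • wv (vT i y T) p = Gp i y p := by
  classical
  obtain ⟨n, w⟩ := p
  have h1 : ∀ T : Finset (Fin d), wv (vT i y T) ⟨n, w⟩ =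
      ∑ τ : Fin n → Fin d, if ∀ t, τ t ∉ T ∧ i (τ t) = w t then
        (List.ofFn fun t => y (τ t)).prod else 0 := by
    intro T
    unfold wv vT
    rw [prod_expand]
    refine Finset.sum_congr rfl fun τ _ => ?_
    exact prod_ite (fun t => τ t ∉ T ∧ i (τ t) = w t) (fun t => y (τ t))
  simp only [h1, Finset.smul_sum]
  rw [Finset.sum_comm]
  unfold Gp
  refine Finset.sum_congr rfl fun τ _ => ?_
  have h2 : ∀ T : Finset (Fin d), ((-1 : ℤ)) ^ T.card • (if ∀ t, τ t ∉ T ∧ i (τ t) = w t then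
      (List.ofFn fun t => y (τ t)).prod else 0) =
      (if Disjoint T (univ.image τ) then ((-1 : ℤ)) ^ T.card else 0) •
        (if ∀ t, i (τ t) = w t then (List.ofFn fun t => y (τ t)).prod else 0) := by
    intro T
    by_cases hd : Disjoint T (univ.image τ)
    · rw [if_pos hd]
      congr 1
      refine if_congr ?_ rfl rfl
      constructor
      · intro h t; exact (h t).2
      · intro h t
        refine ⟨fun ht => ?_, h t⟩
        exact (Finset.disjoint_left.1 hd ht) (mem_image_of_mem _ (mem_univ _))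
    · rw [if_neg hd, zero_smul, if_neg, smul_zero]
      intro h
      apply hd
      rw [Finset.disjoint_left]
      intro a ha hb
      rw [mem_image] at hb
      obtain ⟨t, _, rfl⟩ := hb
      exact (h t).1 ha
  rw [Finset.sum_congr rfl fun T _ => h2 T, ← Finset.sum_smul, sum_sign]
  have h3 : univ.image τ = univ ↔ Function.Surjective τ := by
    rw [Finset.eq_univ_iff_forall]
    refine forall_congr' fun a => ?_
    simp
  by_cases hs : Function.Surjective τ
  · rw [if_pos (h3.2 hs), one_smul]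
    refine if_congr ?_ rfl rfl
    simp [hs]
  · rw [if_neg (fun h => hs (h3.1 h)), zero_smul, if_neg (fun h => hs h.1)]

/-- shorter words -/
theorem Gp_lt {U : Type} [Ring U] {d : ℕ} (i : Fin d → ℕ) (y : Fin d → U) (p : Wd) (hp : p.1 < d) :
    Gp i y p = 0 := by
  classical
  unfold Gp
  refine Finset.sum_eq_zero fun τ _ => if_neg ?_
  rintro ⟨hs, _⟩
  have := Fintype.card_le_of_surjective τ hs
  rw [Fintype.card_fin, Fintype.card_fin] at this
  omega

/-- words of the same length -/
theorem Gp_eq {U : Type} [Ring U] {d : ℕ} (i : Fin d → ℕ) (y : Fin d → U) (w : Fin d → ℕ) :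
    Gp i y ⟨d, w⟩ = ∑ σ : Perm (Fin d), if (fun t => i (σ t)) = w then mono y σ else 0 := by
  classical
  unfold Gp
  change (∑ τ : Fin d → Fin d, if Function.Surjective τ ∧ ∀ t, i (τ t) = w t then
    (List.ofFn fun t => y (τ t)).prod else 0) = _
  have h1 : (∑ τ : Fin d → Fin d, if Function.Surjective τ ∧ ∀ t, i (τ t) = w t then
      (List.ofFn fun t => y (τ t)).prod else 0) =
      ∑ τ ∈ univ.filter (fun τ : Fin d → Fin d => Function.Surjective τ),
        if ∀ t, i (τ t) = w t then (List.ofFn fun t => y (τ t)).prod else 0 := by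
    rw [Finset.sum_filter]
    refine Finset.sum_congr rfl fun τ _ => ?_
    by_cases hs : Function.Surjective τ
    · simp [hs]
    · simp [hs]
  rw [h1]
  symm
  refine Finset.sum_bij (fun (σ : Perm (Fin d)) _ => (σ : Fin d → Fin d)) ?_ ?_ ?_ ?_
  · intro σ _
    rw [mem_filter]
    exact ⟨mem_univ _, σ.surjective⟩
  · intro σ _ τ _ h
    exact Equiv.coe_fn_injective h
  · intro τ hτ
    rw [mem_filter] at hτ
    exact ⟨Equiv.ofBijective τ (Finite.surjective_iff_bijective.1 hτ.2), mem_univ _, rfl⟩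
  · intro σ _
    unfold mono
    refine if_congr ?_ rfl rfl
    exact funext_iff

/-- scaling -/
theorem Gp_smul {U : Type} [Ring U] {d : ℕ} (i : Fin d → ℕ) (y : Fin d → U) (s : ℤ) (p : Wd) :
    Gp i (fun j => s • y j) p = s ^ p.1 • Gp i y p := by
  classical
  unfold Gp
  rw [Finset.smul_sum]
  refine Finset.sum_congr rfl fun τ _ => ?_
  rw [smul_ite, smul_zero]
  refine if_congr Iff.rfl ?_ rfl
  have h := (MultilinearMap.mkPiAlgebraFin ℤ p.1 U).map_smul_univ (fun _ => s) (fun t => y (τ t))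
  simpa only [MultilinearMap.mkPiAlgebraFin_apply, Finset.prod_const, Finset.card_univ,
    Fintype.card_fin] using h

end Pool.PI34.CV

end

/-! ### part CV_B -/
section

/-! PI34, conversion of a polynomial identity with a coefficient `±1` into a multilinear one, file B:
homogeneous components, the theorem. -/

set_option autoImplicit false

namespace Pool.PI34.CV

open Equiv Finset Pool.PI34.C0 Pool.PI34.T1

/-- `D ∙ g(N) = 0` for some multilinear `g` with coefficient `1` -/
def ML {U : Type} [Ring U] (N : AddSubgroup U) (D : ℕ) : Prop :=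
  ∃ (d : ℕ) (a : Perm (Fin d) → ℤ), 0 < d ∧ a 1 = 1 ∧
    ∀ x : Fin d → U, (∀ i, x i ∈ N) → D • ∑ σ, a σ • mono x σ = 0

/-- the polynomial with coefficients `c` vanishes on `N` -/
def Van {U : Type} [Ring U] (N : AddSubgroup U) (s : Finset Wd) (c : Wd → ℤ) : Prop :=
  ∀ v : ℕ → U, (∀ a, v a ∈ N) → ∑ p ∈ s, c p • wv v p = 0

theorem vT_mem {U : Type} [Ring U] (N : AddSubgroup U) {d : ℕ} (i : Fin d → ℕ) (y : Fin d → U)
    (hy : ∀ j, y j ∈ N) (T : Finset (Fin d)) (a : ℕ) : vT i y T a ∈ N := by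
  unfold vT
  refine AddSubgroup.sum_mem _ fun j _ => ?_
  split_ifs
  · exact hy j
  · exact N.zero_mem

theorem van_Gp {U : Type} [Ring U] (N : AddSubgroup U) (s : Finset Wd) (c : Wd → ℤ)
    (h : Van N s c) {d : ℕ} (i : Fin d → ℕ) (y : Fin d → U) (hy : ∀ j, y j ∈ N) :
    ∑ p ∈ s, c p • Gp i y p = 0 := by
  classical
  have h1 : ∑ p ∈ s, c p • Gp i y p =
      ∑ T : Finset (Fin d), ((-1 : ℤ)) ^ T.card • ∑ p ∈ s, c p • wv (vT i y T) p := by
    simp only [Finset.smul_sum, ← polar_word]
    rw [Finset.sum_comm]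
    refine Finset.sum_congr rfl fun T _ => Finset.sum_congr rfl fun p _ => ?_
    rw [smul_comm]
  rw [h1]
  refine Finset.sum_eq_zero fun T _ => ?_
  rw [h _ (vT_mem N i y hy T), smul_zero]

/-- the coefficient form of the part of degree `d` -/
theorem sum_deg {U : Type} [Ring U] (s : Finset Wd) (c : Wd → ℤ) (hc : ∀ p, p ∉ s → c p = 0)
    {d : ℕ} (i : Fin d → ℕ) (y : Fin d → U) :
    ∑ p ∈ s.filter (fun p => p.1 = d), c p • Gp i y p =
      ∑ σ : Perm (Fin d), c ⟨d, fun t => i (σ t)⟩ • mono y σ := by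
  classical
  have h1 : ∀ p ∈ s.filter (fun p : Wd => p.1 = d), c p • Gp i y p =
      ∑ σ : Perm (Fin d), if (⟨d, fun t => i (σ t)⟩ : Wd) = p then c p • mono y σ else 0 := by
    rintro ⟨n, w⟩ hp
    rw [mem_filter] at hp
    obtain ⟨_, hn⟩ := hp
    change n = d at hn
    subst hn
    rw [Gp_eq, Finset.smul_sum]
    refine Finset.sum_congr rfl fun σ _ => ?_
    rw [smul_ite, smul_zero]
    refine if_congr ?_ rfl rfl
    constructor
    · intro h; rw [h]
    · intro h
      exact eq_of_heq (Sigma.mk.inj h).2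
  rw [Finset.sum_congr rfl h1, Finset.sum_comm]
  refine Finset.sum_congr rfl fun σ _ => ?_
  by_cases hm : (⟨d, fun t => i (σ t)⟩ : Wd) ∈ s
  · rw [Finset.sum_ite_eq, if_pos]
    rw [mem_filter]
    exact ⟨hm, rfl⟩
  · rw [hc _ hm, zero_smul]
    refine Finset.sum_eq_zero fun p hp => ?_
    rw [if_neg]
    rintro rfl
    exact hm (mem_filter.1 hp).1

/-- homogeneous components: a nonzero multiple vanishes -/
theorem exists_D {U : Type} [Ring U] (N : AddSubgroup U) (s : Finset Wd) (c : Wd → ℤ)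
    (hc : ∀ p, p ∉ s → c p = 0) (h : Van N s c) : ∃ D : ℕ, D ≠ 0 ∧ ∀ (d : ℕ) (i : Fin d → ℕ)
    (y : Fin d → U), (∀ j, y j ∈ N) →
      D • ∑ σ : Perm (Fin d), c ⟨d, fun t => i (σ t)⟩ • mono y σ = 0 := by
  classical
  let M := (s.sup fun p => p.1) + 1
  have hM : ∀ p ∈ s, p.1 < M := fun p hp => by
    have := Finset.le_sup (f := fun p : Wd => p.1) hp
    change p.1 < (s.sup fun p => p.1) + 1
    exact Nat.lt_succ_of_le this
  let V : Matrix (Fin M) (Fin M) ℤ := Matrix.vandermonde fun k : Fin M => (k.val : ℤ)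
  have hV : V.det ≠ 0 := by
    rw [Matrix.det_vandermonde_ne_zero_iff]
    intro a b hab
    have hab' : (a.val : ℤ) = (b.val : ℤ) := hab
    exact Fin.ext (by exact_mod_cast hab')
  refine ⟨V.det.natAbs, Int.natAbs_ne_zero.2 hV, fun d i y hy => ?_⟩
  have key : V.det • ∑ σ : Perm (Fin d), c ⟨d, fun t => i (σ t)⟩ • mono y σ = 0 := by
    by_cases hd : d < M
    · have h1 : ∀ e : Fin M, ∑ k : Fin M, V.adjugate ⟨d, hd⟩ k * V k e =
          if (⟨d, hd⟩ : Fin M) = e then V.det else 0 := by
        intro e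
        have h2 := congrFun (congrFun (Matrix.adjugate_mul V) ⟨d, hd⟩) e
        rw [Matrix.mul_apply] at h2
        rw [h2, Matrix.smul_apply, Matrix.one_apply]
        split_ifs
        · rw [smul_eq_mul, mul_one]
        · rw [smul_zero]
      have h3 : ∀ k : Fin M, ∑ p ∈ s, c p • ((k.val : ℤ) ^ p.1 • Gp i y p) = 0 := by
        intro k
        have h4 := van_Gp N s c h i (fun j => (k.val : ℤ) • y j)
          (fun j => AddSubgroup.zsmul_mem _ (hy j) _)
        simpa only [Gp_smul] using h4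
      have h5 : ∑ k : Fin M, V.adjugate ⟨d, hd⟩ k •
          ∑ p ∈ s, c p • ((k.val : ℤ) ^ p.1 • Gp i y p) = 0 := by
        refine Finset.sum_eq_zero fun k _ => ?_
        rw [h3, smul_zero]
      rw [← sum_deg s c hc i y, Finset.smul_sum, ← h5]
      have h6 : ∀ k : Fin M, V.adjugate ⟨d, hd⟩ k •
          ∑ p ∈ s, c p • ((k.val : ℤ) ^ p.1 • Gp i y p) =
          ∑ p ∈ s, (V.adjugate ⟨d, hd⟩ k * (k.val : ℤ) ^ p.1) • (c p • Gp i y p) := by
        intro k
        rw [Finset.smul_sum]
        refine Finset.sum_congr rfl fun p _ => ?_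
        rw [smul_smul, smul_smul, smul_smul]
        congr 1
        ring
      rw [Finset.sum_congr rfl fun k _ => h6 k, Finset.sum_comm, Finset.sum_filter]
      refine Finset.sum_congr rfl fun p hp => ?_
      rw [← Finset.sum_smul]
      have h7 := h1 ⟨p.1, hM p hp⟩
      have h8 : ∑ k : Fin M, V.adjugate ⟨d, hd⟩ k * (k.val : ℤ) ^ p.1 =
          if (⟨d, hd⟩ : Fin M) = ⟨p.1, hM p hp⟩ then V.det else 0 := h7
      rw [h8]
      by_cases hpd : p.1 = d
      · rw [if_pos hpd, if_pos (Fin.ext hpd.symm)]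
      · rw [if_neg hpd, if_neg, zero_smul]
        intro he
        exact hpd (congrArg Fin.val he).symm
    · have h1 : ∀ σ : Perm (Fin d), c ⟨d, fun t => i (σ t)⟩ • mono y σ = 0 := by
        intro σ
        rw [hc, zero_smul]
        intro hp
        exact hd (hM _ hp)
      rw [Finset.sum_eq_zero fun σ _ => h1 σ, smul_zero]
  rw [← natCast_zsmul]
  rcases Int.natAbs_eq V.det with he | he
  · rw [← he]
    exact key
  · have he' : ((V.det.natAbs : ℕ) : ℤ) = -V.det := by omega
    rw [he', neg_smul, key, neg_zero]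

/-- one prime -/
theorem exists_q {U : Type} [Ring U] (N : AddSubgroup U) (s : Finset Wd) (c : Wd → ℤ)
    (hc : ∀ p, p ∉ s → c p = 0) (h : Van N s c) (hpos : ∀ p ∈ s, 0 < p.1) (w0 : Wd)
    (hw0 : c w0 = 1 ∨ c w0 = -1) (p : ℕ) (hp : p.Prime) :
    ∃ (d : ℕ) (a : Perm (Fin d) → ℤ), 0 < d ∧ a 1 = 1 ∧
      ∀ x : Fin d → U, (∀ i, x i ∈ N) → ∃ u : U, ∑ σ, a σ • mono x σ = p • u := by
  classical
  have hw0s : w0 ∈ s := by
    by_contra hn
    rw [hc _ hn] at hw0
    omega
  have hne : (s.filter fun w => ¬ (p : ℤ) ∣ c w).Nonempty := by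
    refine ⟨w0, ?_⟩
    rw [mem_filter]
    refine ⟨hw0s, fun hd => ?_⟩
    have hd' : (p : ℤ) ∣ 1 := by
      rcases hw0 with h1 | h1
      · rwa [h1] at hd
      · rwa [h1, dvd_neg] at hd
    have := Int.natCast_dvd_natCast.1 (by exact_mod_cast hd' : ((p : ℕ) : ℤ) ∣ ((1 : ℕ) : ℤ))
    exact hp.one_lt.ne' (Nat.dvd_one.1 this)
  obtain ⟨w1, hw1, hmax⟩ := Finset.exists_max_image _ (fun w : Wd => w.1) hne
  rw [mem_filter] at hw1
  obtain ⟨d, i⟩ := w1
  have hcop : IsCoprime (c ⟨d, i⟩) (p : ℤ) :=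
    ((Nat.prime_iff_prime_int.1 hp).irreducible.coprime_iff_not_dvd.2 hw1.2).symm
  obtain ⟨e, m, hem⟩ := hcop
  refine ⟨d, fun σ => e * c ⟨d, fun t => i (σ t)⟩ + (if σ = 1 then m * p else 0),
    hpos _ hw1.1, ?_, fun y hy => ?_⟩
  · change e * c ⟨d, i⟩ + (if (1 : Perm (Fin d)) = 1 then m * (p : ℤ) else 0) = 1
    rw [if_pos rfl]
    exact hem
  · have h0 := van_Gp N s c h i y hy
    have h1 : ∃ u : U, ∑ w ∈ s, c w • Gp i y w =
        (∑ σ : Perm (Fin d), c ⟨d, fun t => i (σ t)⟩ • mono y σ) + p • u := by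
      rw [← sum_deg s c hc i y, ← Finset.sum_filter_add_sum_filter_not s (fun w : Wd => w.1 = d)]
      have h2 : ∀ w ∈ s.filter (fun w : Wd => ¬ w.1 = d), ∃ u : U, c w • Gp i y w = p • u := by
        intro w hw
        rw [mem_filter] at hw
        rcases lt_or_gt_of_ne hw.2 with hlt | hgt
        · exact ⟨0, by rw [Gp_lt i y w hlt, smul_zero, smul_zero]⟩
        · have hdvd : (p : ℤ) ∣ c w := by
            by_contra hnd
            have := hmax w (mem_filter.2 ⟨hw.1, hnd⟩)
            exact absurd this (not_le.2 hgt)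
          obtain ⟨k, hk⟩ := hdvd
          refine ⟨k • Gp i y w, ?_⟩
          rw [hk, mul_smul, natCast_zsmul]
      have h3 : ∃ u : U, ∑ w ∈ s.filter (fun w : Wd => ¬ w.1 = d), c w • Gp i y w = p • u := by
        have h4 : ∀ w : Wd, ∃ u : U, w ∈ s.filter (fun w : Wd => ¬ w.1 = d) →
            c w • Gp i y w = p • u := by
          intro w
          by_cases hw : w ∈ s.filter (fun w : Wd => ¬ w.1 = d)
          · obtain ⟨u, hu⟩ := h2 w hw
            exact ⟨u, fun _ => hu⟩
          · exact ⟨0, fun h => absurd h hw⟩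
        choose u hu using h4
        refine ⟨∑ w ∈ s.filter (fun w : Wd => ¬ w.1 = d), u w, ?_⟩
        rw [Finset.smul_sum]
        exact Finset.sum_congr rfl fun w hw => hu w hw
      obtain ⟨u, hu⟩ := h3
      exact ⟨u, by rw [hu]⟩
    obtain ⟨u, hu⟩ := h1
    rw [h0] at hu
    have h5 : ∑ σ : Perm (Fin d), c ⟨d, fun t => i (σ t)⟩ • mono y σ = -(p • u) :=
      eq_neg_of_add_eq_zero_left hu.symm
    refine ⟨-(e • u) + m • mono y 1, ?_⟩
    have h6 : ∀ σ : Perm (Fin d), (e * c ⟨d, fun t => i (σ t)⟩ + (if σ = 1 then m * p else 0)) •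
        mono y σ = e • (c ⟨d, fun t => i (σ t)⟩ • mono y σ) +
          (if σ = 1 then (m * p) • mono y σ else 0) := by
      intro σ
      rw [add_smul, mul_smul]
      split_ifs
      · rfl
      · rw [zero_smul]
    rw [Finset.sum_congr rfl fun σ _ => h6 σ, Finset.sum_add_distrib, ← Finset.smul_sum, h5,
      Finset.sum_ite_eq', if_pos (mem_univ _), smul_add, smul_neg, smul_neg, smul_comm e p u,
      mul_comm m (p : ℤ), mul_smul, natCast_zsmul]

/-- products -/
theorem mono_sum_mul {U : Type} [Ring U] {p q : ℕ} (a : Perm (Fin p) → ℤ) (b : Perm (Fin q) → ℤ)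
    (ha : a 1 = 1) (hb : b 1 = 1) : ∃ g : Perm (Fin (p + q)) → ℤ, g 1 = 1 ∧
      ∀ x : Fin (p + q) → U, ∑ ρ, g ρ • mono x ρ =
        (∑ σ, a σ • mono (fun i => x (Fin.castAdd q i)) σ) *
          ∑ τ, b τ • mono (fun i => x (Fin.natAdd p i)) τ :=
  ⟨t1a_cf a b, by rw [t1a_cf_one, ha, hb, one_mul], t1a_sum a b⟩

theorem ML_one {U : Type} [Ring U] (N : AddSubgroup U)
    (hq : ∀ p : ℕ, p.Prime → ∃ (d : ℕ) (a : Perm (Fin d) → ℤ), 0 < d ∧ a 1 = 1 ∧
      ∀ x : Fin d → U, (∀ i, x i ∈ N) → ∃ u : U, ∑ σ, a σ • mono x σ = p • u) (D : ℕ) :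
    D ≠ 0 → ML N D → ML N 1 := by
  induction D using Nat.strong_induction_on with
  | _ D ih =>
    intro hD hML
    by_cases h1 : D = 1
    · rw [← h1]; exact hML
    · obtain ⟨p, hp, hpd⟩ := Nat.exists_prime_and_dvd h1
      obtain ⟨E, rfl⟩ := hpd
      have hE : E ≠ 0 := by
        rintro rfl
        exact hD (mul_zero p)
      refine ih E ?_ hE ?_
      · have := hp.one_lt
        have hE' : 0 < E := Nat.pos_of_ne_zero hE
        nlinarith
      · obtain ⟨d, a, hd, ha, hx⟩ := hML
        obtain ⟨e, b, he, hb, hy⟩ := hq p hp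
        obtain ⟨g, hg, hgx⟩ := mono_sum_mul (U := U) b a hb ha
        refine ⟨e + d, g, by omega, hg, fun x hxN => ?_⟩
        obtain ⟨u, hu⟩ := hy (fun i => x (Fin.castAdd d i)) (fun i => hxN _)
        have hv := hx (fun i => x (Fin.natAdd e i)) (fun i => hxN _)
        rw [hgx, hu, smul_mul_assoc, smul_smul, mul_comm E p, ← mul_smul_comm, hv, mul_zero]

/-- the conversion -/
theorem conv {U : Type} [Ring U] (N : AddSubgroup U) (s : Finset Wd) (c : Wd → ℤ)
    (hc : ∀ p, p ∉ s → c p = 0) (h : Van N s c) (hpos : ∀ p ∈ s, 0 < p.1) (w0 : Wd)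
    (hw0 : c w0 = 1 ∨ c w0 = -1) :
    ∃ (d : ℕ) (a : Perm (Fin (d + 1)) → ℤ), a 1 = 1 ∧
      ∀ x : Fin (d + 1) → U, (∀ i, x i ∈ N) → ∑ σ, a σ • mono x σ = 0 := by
  obtain ⟨D, hD, hx⟩ := exists_D N s c hc h
  have hw0s : w0 ∈ s := by
    by_contra hn
    rw [hc _ hn] at hw0
    omega
  have hML : ML N D := by
    obtain ⟨d, i⟩ := w0
    refine ⟨d, fun σ => c ⟨d, i⟩ * c ⟨d, fun t => i (σ t)⟩, hpos _ hw0s, ?_, fun y hy => ?_⟩
    · change c ⟨d, i⟩ * c ⟨d, i⟩ = 1
      rcases hw0 with h1 | h1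
      · rw [h1]; rfl
      · rw [h1]; rfl
    · have h1 : ∀ σ : Perm (Fin d), (c ⟨d, i⟩ * c ⟨d, fun t => i (σ t)⟩) • mono y σ =
          c ⟨d, i⟩ • (c ⟨d, fun t => i (σ t)⟩ • mono y σ) := fun σ => mul_smul _ _ _
      rw [Finset.sum_congr rfl fun σ _ => h1 σ, ← Finset.smul_sum, smul_comm, hx d i y hy, smul_zero]
  obtain ⟨d, a, hd, ha, hxx⟩ := ML_one N (exists_q N s c hc h hpos w0 hw0) D hD hML
  obtain ⟨e, rfl⟩ : ∃ e, d = e + 1 := ⟨d - 1, by omega⟩
  refine ⟨e, a, ha, fun x hxN => ?_⟩
  have := hxx x hxN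
  rwa [one_smul] at this

end Pool.PI34.CV

end

/-! ### part CV_C -/
section

/-! PI34, conversion of a polynomial identity with a coefficient `±1` into a multilinear one, file C:
polynomials. -/

set_option autoImplicit false

namespace Pool.PI34.CV

open Equiv Finset Pool.PI34.C0 Pool.PI34.T1

theorem ev_eq {X R : Type} [NonUnitalRing R] (v : X → R) (f : Fr X) :
    ev v f = ∑ w ∈ f.coeff.support, f.coeff w • FreeSemigroup.lift v w := by
  unfold ev
  rw [MonoidAlgebra.liftMagma_apply_apply]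
  rfl

theorem ev_single {X R : Type} [NonUnitalRing R] (v : X → R) (w : FreeSemigroup X) (a : ℤ) :
    ev v (MonoidAlgebra.single w a) = a • FreeSemigroup.lift v w := by
  unfold ev
  rw [MonoidAlgebra.liftMagma_apply_apply]
  simp

theorem ev_of {X R : Type} [NonUnitalRing R] (v : X → R) (x : X) :
    ev v (MonoidAlgebra.single (FreeSemigroup.of x) 1) = v x := by
  rw [ev_single, one_smul, FreeSemigroup.lift_of]

theorem map_lift {X R S F : Type} [NonUnitalRing R] [NonUnitalRing S] [FunLike F R S]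
    [NonUnitalRingHomClass F R S] (φ : F) (v : X → R) (w : FreeSemigroup X) :
    φ (FreeSemigroup.lift v w) = FreeSemigroup.lift (fun x => φ (v x)) w := by
  obtain ⟨x, l⟩ := w
  rw [FreeSemigroup.lift_mk_eq_foldl, FreeSemigroup.lift_mk_eq_foldl]
  have h : ∀ (l : List X) (r : R), φ (l.foldl (fun a b => a * v b) r) =
      l.foldl (fun a b => a * φ (v b)) (φ r) := by
    intro l
    induction l with
    | nil => intro r; rfl
    | cons y l ih =>
      intro r
      rw [List.foldl_cons, List.foldl_cons, ih, map_mul]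
  exact h l (v x)

theorem map_ev {X R S F : Type} [NonUnitalRing R] [NonUnitalRing S] [FunLike F R S]
    [NonUnitalRingHomClass F R S] (φ : F) (v : X → R) (f : Fr X) :
    φ (ev v f) = ev (fun x => φ (v x)) f := by
  rw [ev_eq, ev_eq, map_sum]
  refine Finset.sum_congr rfl fun w _ => ?_
  rw [map_zsmul, map_lift]

/-- word of an element of the free semigroup -/
def tw (w : FreeSemigroup ℕ) : Wd := ⟨(w.head :: w.tail).length, fun t => (w.head :: w.tail).get t⟩

theorem tw_ofFn (w : FreeSemigroup ℕ) : List.ofFn (tw w).2 = w.head :: w.tail :=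
  List.ofFn_get _

theorem tw_inj : Function.Injective tw := by
  intro a b h
  have h1 := congrArg (fun p : Wd => List.ofFn p.2) h
  have h2 : a.head :: a.tail = b.head :: b.tail := by
    rw [← tw_ofFn a, ← tw_ofFn b]
    exact h1
  obtain ⟨h3, h4⟩ := List.cons.inj h2
  exact FreeSemigroup.ext h3 h4

theorem wv_tw {R : Type} [NonUnitalRing R] (v : ℕ → R) (w : FreeSemigroup ℕ) :
    wv (fun a => inU R (v a)) (tw w) = inU R (FreeSemigroup.lift v w) := by
  have h1 : wv (fun a => inU R (v a)) (tw w) =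
      ((w.head :: w.tail).map fun a => inU R (v a)).prod := by
    unfold wv
    rw [← tw_ofFn w, List.map_ofFn]
    rfl
  rw [h1]
  obtain ⟨x, l⟩ := w
  rw [FreeSemigroup.lift_mk_eq_foldl]
  have h2 := inr_foldl R (v x) (l.map v)
  rw [List.foldl_map] at h2
  rw [h2, List.map_cons, List.prod_cons, List.map_map]
  rfl

/-- a polynomial identity with a coefficient `±1` gives a multilinear one with coefficient `1` -/
theorem piid_of_isPI {R : Type} [NonUnitalRing R] (h : IsPI R) : PIid R := by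
  classical
  obtain ⟨f, ⟨w0, hw0⟩, hf⟩ := h
  let s : Finset Wd := f.coeff.support.image tw
  let c : Wd → ℤ := fun p => ∑ w ∈ f.coeff.support, if tw w = p then f.coeff w else 0
  have hctw : ∀ w, c (tw w) = f.coeff w := by
    intro w
    change (∑ w' ∈ f.coeff.support, if tw w' = tw w then f.coeff w' else 0) = f.coeff w
    have h1 : ∀ w' ∈ f.coeff.support, (if tw w' = tw w then f.coeff w' else 0) =
        if w' = w then f.coeff w' else 0 := fun w' _ => if_congr tw_inj.eq_iff rfl rfl
    rw [Finset.sum_congr rfl h1, Finset.sum_ite_eq']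
    split_ifs with h2
    · rfl
    · exact (Finsupp.notMem_support_iff.1 h2).symm
  have hc : ∀ p, p ∉ s → c p = 0 := by
    intro p hp
    refine Finset.sum_eq_zero fun w hw => if_neg ?_
    rintro rfl
    exact hp (mem_image_of_mem _ hw)
  have hpos : ∀ p ∈ s, 0 < p.1 := by
    intro p hp
    obtain ⟨w, _, rfl⟩ := mem_image.1 hp
    exact Nat.succ_pos _
  let N : AddSubgroup (Un R) := (RU R).toAddSubgroup
  have hN : ∀ u : Un R, u ∈ N ↔ u ∈ RU R := fun u => Iff.rfl
  have hvan : Van N s c := by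
    intro v hv
    have hv' : ∀ a, ∃ r, inU R r = v a := fun a => (mem_RU R _).1 ((hN _).1 (hv a))
    choose r hr using hv'
    have hvr : v = fun a => inU R (r a) := funext fun a => (hr a).symm
    rw [Finset.sum_image fun a _ b _ h => tw_inj h, hvr]
    have h1 : ∀ w ∈ f.coeff.support, c (tw w) • wv (fun a => inU R (r a)) (tw w) =
        inU R (f.coeff w • FreeSemigroup.lift r w) := by
      intro w _
      rw [hctw, wv_tw, map_zsmul]
    rw [Finset.sum_congr rfl h1, ← map_sum, ← ev_eq, hf r, map_zero]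
  obtain ⟨d, a, ha, hx⟩ := conv N s c hc hvan hpos (tw w0) (by rw [hctw]; exact hw0)
  exact ⟨d, a, ha, (piid_iff R d a).2 fun x hxN => hx x fun i => (hN _).2 (hxN i)⟩

/-- the word `x_{σ 0} ⋯ x_{σ d}` -/
def wperm {d : ℕ} (σ : Perm (Fin (d + 1))) : FreeSemigroup ℕ :=
  ⟨(σ 0).val, List.ofFn fun i : Fin d => (σ i.succ).val⟩

theorem wperm_inj {d : ℕ} : Function.Injective (wperm (d := d)) := by
  intro σ τ h
  have h1 : (σ 0).val = (τ 0).val := congrArg FreeSemigroup.head h
  have h2 : (List.ofFn fun i : Fin d => (σ i.succ).val) = List.ofFn fun i : Fin d => (τ i.succ).val :=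
    congrArg FreeSemigroup.tail h
  have h3 := List.ofFn_injective h2
  refine Equiv.ext fun i => ?_
  refine Fin.cases (Fin.ext h1) (fun j => Fin.ext (congrFun h3 j)) i

/-- a multilinear identity as a polynomial -/
noncomputable def mlp (d : ℕ) (a : Perm (Fin (d + 1)) → ℤ) : Fr ℕ :=
  ∑ σ : Perm (Fin (d + 1)), MonoidAlgebra.single (wperm σ) (a σ)

theorem mlp_coeff (d : ℕ) (a : Perm (Fin (d + 1)) → ℤ) (τ : Perm (Fin (d + 1))) :
    (mlp d a).coeff (wperm τ) = a τ := by
  classical
  unfold mlp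
  rw [MonoidAlgebra.coeff_sum, Finsupp.finsetSum_apply]
  have h1 : ∀ σ : Perm (Fin (d + 1)), (MonoidAlgebra.single (wperm σ) (a σ)).coeff (wperm τ) =
      if σ = τ then a σ else 0 := by
    intro σ
    rw [MonoidAlgebra.coeff_single, Finsupp.single_apply]
    exact if_congr wperm_inj.eq_iff rfl rfl
  rw [Finset.sum_congr rfl fun σ _ => h1 σ, Finset.sum_ite_eq', if_pos (mem_univ _)]

theorem ev_mlp {R : Type} [NonUnitalRing R] (d : ℕ) (a : Perm (Fin (d + 1)) → ℤ) (v : ℕ → R) :
    ev v (mlp d a) = ∑ σ : Perm (Fin (d + 1)),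
      a σ • ((List.ofFn (fun i : Fin d => v (σ i.succ).val)).foldl
        (fun u v => u * v) (v (σ 0).val)) := by
  unfold mlp
  rw [map_sum]
  refine Finset.sum_congr rfl fun σ _ => ?_
  rw [ev_single]
  congr 1
  unfold wperm
  rw [FreeSemigroup.lift_mk_eq_foldl]
  have h : (List.ofFn fun i : Fin d => v (σ i.succ).val) =
      (List.ofFn fun i : Fin d => (σ i.succ).val).map v := by
    rw [List.map_ofFn]
    rfl
  rw [h, List.foldl_map]

theorem isPI_of_sat {R : Type} [NonUnitalRing R] (d : ℕ) (a : Perm (Fin (d + 1)) → ℤ) (ha : a 1 = 1)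
    (h : Sat R (mlp d a)) : IsPI R :=
  ⟨mlp d a, ⟨wperm 1, Or.inl (by rw [mlp_coeff, ha])⟩, h⟩

end Pool.PI34.CV

end

/-! ### part CV_D -/
section

/-! PI34, relatively free rings. -/

set_option autoImplicit false

namespace Pool.PI34.CV

open Equiv Finset Pool.PI34.C0 Pool.PI34.T1

theorem mem_TV (E : Set (Fr ℕ)) (X : Type) (g : Fr X) :
    g ∈ TV E X ↔ ∀ (R : Type) [NonUnitalRing R], InVar E R → Sat R g := by
  unfold TV
  rw [TwoSidedIdeal.mem_mk']
  rfl

/-- the projection -/
noncomputable def mkV (E : Set (Fr ℕ)) (X : Type) : Fr X →ₙ+* FreeVar E X where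
  toFun f := RingCon.toQuotient f
  map_mul' _ _ := rfl
  map_zero' := rfl
  map_add' _ _ := rfl

theorem mkV_surj (E : Set (Fr ℕ)) (X : Type) : Function.Surjective (mkV E X) :=
  Quotient.mk''_surjective

theorem mkV_eq (E : Set (Fr ℕ)) (X : Type) (f g : Fr X) :
    mkV E X f = mkV E X g ↔ f - g ∈ TV E X := by
  rw [← TwoSidedIdeal.rel_iff]
  exact RingCon.eq _

theorem mkV_zero (E : Set (Fr ℕ)) (X : Type) (f : Fr X) : mkV E X f = 0 ↔ f ∈ TV E X := by
  rw [← map_zero (mkV E X), mkV_eq, sub_zero]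

/-- substituting the variables for themselves -/
theorem ev_gen {X : Type} (f : Fr X) :
    ev (fun x : X => (MonoidAlgebra.single (FreeSemigroup.of x) 1 : Fr X)) f = f := by
  have h : ∀ w : FreeSemigroup X,
      FreeSemigroup.lift (fun x : X => (MonoidAlgebra.single (FreeSemigroup.of x) 1 : Fr X)) w =
        MonoidAlgebra.single w 1 := by
    intro w
    have h1 : FreeSemigroup.lift (fun x : X => (MonoidAlgebra.single (FreeSemigroup.of x) 1 : Fr X)) =
        MonoidAlgebra.ofMagma ℤ (FreeSemigroup X) := by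
      apply FreeSemigroup.hom_ext
      funext x
      rfl
    rw [h1]
    rfl
  rw [ev_eq]
  have h2 : ∀ w ∈ f.coeff.support, f.coeff w •
      FreeSemigroup.lift (fun x : X => (MonoidAlgebra.single (FreeSemigroup.of x) 1 : Fr X)) w =
        MonoidAlgebra.single w (f.coeff w) := by
    intro w _
    rw [h, MonoidAlgebra.smul_single, smul_eq_mul, mul_one]
  rw [Finset.sum_congr rfl h2]
  exact MonoidAlgebra.sum_coeff_single f

/-- the value of a polynomial at the classes of the variables -/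
theorem ev_mkV (E : Set (Fr ℕ)) (X : Type) (f : Fr X) :
    ev (fun x : X => mkV E X (MonoidAlgebra.single (FreeSemigroup.of x) 1)) f = mkV E X f := by
  rw [← map_ev (mkV E X), ev_gen]

/-- the free ring of the variety belongs to the variety -/
theorem inVar_freeVar (E : Set (Fr ℕ)) (X : Type) : InVar E (FreeVar E X) := by
  intro f hf v
  choose u hu using fun a => mkV_surj E X (v a)
  have hv : v = fun a => mkV E X (u a) := funext fun a => (hu a).symm
  rw [hv, ← map_ev (mkV E X), mkV_zero, mem_TV]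
  intro R _ hR w
  rw [map_ev (ev w)]
  exact hR f hf _

/-- `B → A` when every ring of the second variety (generated free ring) lies in the first one -/
theorem exists_map (E E' : Set (Fr ℕ)) (X : Type) (h : InVar E' (FreeVar E X)) :
    ∃ φ : FreeVar E' X →ₙ+* FreeVar E X, Function.Surjective φ := by
  have hle : ∀ f g : Fr X, (TV E' X).ringCon f g → mkV E X f = mkV E X g := by
    intro f g hfg
    rw [TwoSidedIdeal.rel_iff, mem_TV] at hfg
    have h1 := hfg (FreeVar E X) h fun x : X => mkV E X (MonoidAlgebra.single (FreeSemigroup.of x) 1)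
    rw [ev_mkV, map_sub, sub_eq_zero] at h1
    exact h1
  let φ : FreeVar E' X →ₙ+* FreeVar E X :=
    { toFun := Quotient.lift (fun f : Fr X => mkV E X f) hle
      map_mul' := by
        rintro ⟨a⟩ ⟨b⟩
        exact map_mul (mkV E X) a b
      map_zero' := map_zero (mkV E X)
      map_add' := by
        rintro ⟨a⟩ ⟨b⟩
        exact map_add (mkV E X) a b }
  refine ⟨φ, fun y => ?_⟩
  obtain ⟨f, rfl⟩ := mkV_surj E X y
  exact ⟨mkV E' X f, rfl⟩

/-- renaming the variables -/
noncomputable def ren {X Y : Type} (ρ : X → Y) : Fr X →ₙₐ[ℤ] Fr Y :=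
  ev fun x => MonoidAlgebra.single (FreeSemigroup.of (ρ x)) 1

theorem ev_ren {X Y R : Type} [NonUnitalRing R] (ρ : X → Y) (v : Y → R) (f : Fr X) :
    ev v (ren ρ f) = ev (fun x => v (ρ x)) f := by
  unfold ren
  rw [map_ev (ev v)]
  simp only [ev_of]

theorem lift_congr {X R : Type} [NonUnitalRing R] (u v : X → R) (w : FreeSemigroup X)
    (h : ∀ x ∈ w.head :: w.tail, u x = v x) : FreeSemigroup.lift u w = FreeSemigroup.lift v w := by
  obtain ⟨x, l⟩ := w
  rw [FreeSemigroup.lift_mk_eq_foldl, FreeSemigroup.lift_mk_eq_foldl]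
  have hx : u x = v x := h x (List.mem_cons_self ..)
  have hl : ∀ y ∈ l, u y = v y := fun y hy => h y (List.mem_cons_of_mem _ hy)
  rw [hx]
  clear h hx
  generalize v x = r
  induction l generalizing r with
  | nil => rfl
  | cons y l ih =>
    rw [List.foldl_cons, List.foldl_cons, hl y (List.mem_cons_self ..)]
    exact ih (fun z hz => hl z (List.mem_cons_of_mem _ hz)) _

/-- finitely many variables -/
theorem exists_ren {X : Type} [Nonempty X] (f : Fr X) :
    ∃ (ρ : X → ℕ) (τ : ℕ → X), ∀ (R : Type) [NonUnitalRing R] (v : X → R),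
      ev (fun x => v (τ (ρ x))) f = ev v f := by
  classical
  let V : Finset X := f.coeff.support.biUnion fun w => (w.head :: w.tail).toFinset
  obtain ⟨ρ, hρ⟩ : ∃ ρ : X → ℕ, Set.InjOn ρ (V : Set X) := by
    let e := V.equivFin
    refine ⟨fun x => if h : x ∈ V then (e ⟨x, h⟩).val else 0, ?_⟩
    intro a ha b hb hab
    have ha' : a ∈ V := ha
    have hb' : b ∈ V := hb
    simp only [dif_pos ha', dif_pos hb'] at hab
    have h1 := e.injective (Fin.ext hab)
    exact congrArg Subtype.val h1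
  refine ⟨ρ, Function.invFunOn ρ (V : Set X), fun R _ v => ?_⟩
  rw [ev_eq, ev_eq]
  refine Finset.sum_congr rfl fun w hw => ?_
  congr 1
  refine lift_congr _ _ w fun x hx => ?_
  have hxV : x ∈ (V : Set X) := by
    rw [mem_coe, mem_biUnion]
    exact ⟨w, hw, List.mem_toFinset.2 hx⟩
  rw [hρ.leftInvOn_invFunOn hxV]

/-- THEOREM: the free rings of the variety generated by a torsion free ring are torsion free -/
theorem freeVar_torsionFree (S : Type) [NonUnitalRing S]
    (hS : ∀ (k : ℕ) (s : S), k ≠ 0 → k • s = 0 → s = 0) (X : Type) [Nonempty X] (k : ℕ)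
    (b : FreeVar {f : Fr ℕ | Sat S f} X) (hk : k ≠ 0) (hb : k • b = 0) : b = 0 := by
  obtain ⟨g, rfl⟩ := mkV_surj _ X b
  rw [← map_nsmul, mkV_zero, mem_TV] at hb
  rw [mkV_zero, mem_TV]
  have hSg : Sat S g := by
    intro v
    have h1 := hb S (fun f hf => hf) v
    rw [map_nsmul] at h1
    exact hS k _ hk h1
  intro R _ hR v
  obtain ⟨ρ, τ, hρτ⟩ := exists_ren g
  have h1 : Sat S (ren ρ g) := by
    intro u
    rw [ev_ren]
    exact hSg _
  have h2 := hR (ren ρ g) h1 fun a => v (τ a)
  rw [ev_ren, hρτ R v] at h2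
  exact h2

/-- an identity of `S` holds in every image of `S` -/
theorem sat_of_surj {X S R : Type} [NonUnitalRing S] [NonUnitalRing R] (φ : S →ₙ+* R)
    (hφ : Function.Surjective φ) (f : Fr X) (hf : Sat S f) : Sat R f := by
  intro v
  choose u hu using fun a => hφ (v a)
  have hv : v = fun a => φ (u a) := funext fun a => (hu a).symm
  rw [hv, ← map_ev φ, hf u, map_zero]

/-- a ring with a multilinear identity -/
theorem sat_mlp {R : Type} [NonUnitalRing R] (d : ℕ) (a : Perm (Fin (d + 1)) → ℤ)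
    (h : ∀ x : Fin (d + 1) → R, ∑ σ : Equiv.Perm (Fin (d + 1)),
        a σ • ((List.ofFn (fun i : Fin d => x (σ i.succ))).foldl
          (fun u v => u * v) (x (σ 0))) = 0) : Sat R (mlp d a) := by
  intro v
  rw [ev_mlp]
  exact h fun i => v i.val

/-- a relatively free PI ring which is an image of a torsion free PI ring is an image of a torsion free
relatively free PI ring -/
theorem of_im (E : Set (Fr ℕ)) (X : Type) (hX : Nonempty X) (H : Im (FreeVar E X)) :
    ∃ (E' : Set (Fr ℕ)) (Y : Type), Nonempty Y ∧ IsPI (FreeVar E' Y) ∧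
      (∀ (k : ℕ) (b : FreeVar E' Y), k ≠ 0 → k • b = 0 → b = 0) ∧
      ∃ φ : FreeVar E' Y →ₙ+* FreeVar E X, Function.Surjective φ := by
  obtain ⟨S, _, ⟨d, a, ha, hid⟩, hS, φ, hφ⟩ := H
  refine ⟨{f : Fr ℕ | Sat S f}, X, hX, ?_, ?_, ?_⟩
  · exact isPI_of_sat d a ha (inVar_freeVar _ X _ (sat_mlp d a hid))
  · exact freeVar_torsionFree S hS X
  · exact exists_map E _ X fun f hf => sat_of_surj φ hφ f hf

/-- the statement for all the relatively free PI rings, from the statement for all PI rings -/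
theorem main (H : ∀ (R : Type) [NonUnitalRing R], PIid R → Im R) :
    ∀ (E : Set (Fr ℕ)) (X : Type), Nonempty X → IsPI (FreeVar E X) →
      ∃ (E' : Set (Fr ℕ)) (Y : Type), Nonempty Y ∧ IsPI (FreeVar E' Y) ∧
        (∀ (k : ℕ) (b : FreeVar E' Y), k ≠ 0 → k • b = 0 → b = 0) ∧
        ∃ φ : FreeVar E' Y →ₙ+* FreeVar E X, Function.Surjective φ :=
  fun E X hX hPI => of_im E X hX (H _ (piid_of_isPI hPI))

end Pool.PI34.CV

end
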