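import Pool.Agent.LibPI54.M06
import Pool.Agent.LibPI54.M42
import Pool.Agent.LibPI54.M45
import Pool.Agent.LibPI54.M51

/-! ### part T2_G -/
section

/-!
PI34, theorem T2, file G: the final theorem.
-/

set_option autoImplicit false

namespace Pool.PI34.T2

open Equiv Finset
open Pool.PI34.C0 Pool.PI34.T1
open Pool.PI34.Super (act bc fv KN mm)

theorem Engine_mono {S S' : Set ℕ} {k l : ℕ} (h : ∀ (U : Type) [Ring U], Inv S' U → Inv S U)
    (hE : Engine S k l) : Engine S' k l := by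
  obtain ⟨I, q, m, y0, h1, h2, h3⟩ := hE
  exact ⟨I, q, m, y0, h1, h2, fun U _ hU => h3 U (h U hU)⟩

section surj

variable {U V : Type} [Ring U] [Ring V] (f : U →+* V) (hf : Function.Surjective f)

include hf

theorem KN_surj {N k l n : ℕ} (h : KN N k l n U) : KN N k l n V := by
  intro y hy v r
  choose v' hv' using fun i => hf (v i)
  choose r' hr' using fun i => hf (r i)
  have h1 := congrArg f (h y hy v' r')
  rw [map_nsmul, map_fv, map_zero] at h1
  rw [← h1]
  congr 2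
  · exact funext (fun i => (hv' i).symm)
  · exact funext (fun i => (hr' i).symm)

theorem QTyp_surj {k l q : ℕ} (h : QTyp k l q U) : QTyp k l q V := by
  obtain ⟨N, hN, h1⟩ := h
  exact ⟨N, hN, fun n hn => KN_surj f hf (h1 n hn)⟩

theorem PIU_surj (h : PIU U) : PIU V := by
  obtain ⟨d, a, ha, hPI⟩ := h
  refine ⟨d, a, ha, fun x => ?_⟩
  choose x' hx' using fun i => hf (x i)
  have h1 := congrArg f (hPI x')
  rw [map_sum, map_zero] at h1
  rw [← h1]
  refine Finset.sum_congr rfl (fun σ _ => ?_)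
  rw [map_zsmul, map_mono']
  congr 2
  exact funext (fun i => (hx' i).symm)

end surj

/-- the annihilator of the integer `c` -/
def AnnI (U : Type) [Ring U] (c : ℕ) : Ideal U where
  carrier := {u | c • u = 0}
  zero_mem' := smul_zero c
  add_mem' := fun {a b} ha hb => by
    have ha' : c • a = 0 := ha
    have hb' : c • b = 0 := hb
    change c • (a + b) = 0
    rw [smul_add, ha', hb', add_zero]
  smul_mem' := fun r a ha => by
    have ha' : c • a = 0 := ha
    change c • (r * a) = 0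
    rw [← mul_smul_comm, ha', mul_zero]

theorem mem_AnnI (U : Type) [Ring U] (c : ℕ) (u : U) : u ∈ AnnI U c ↔ c • u = 0 := Iff.rfl

instance (U : Type) [Ring U] (c : ℕ) : (AnnI U c).IsTwoSided := ⟨fun {a} b ha => by
  have ha' : c • a = 0 := ha
  change c • (a * b) = 0
  rw [← smul_mul_assoc, ha', zero_mul]⟩

section mult

/-- the powers of `N` -/
def pw (N : ℕ) : Set ℕ := {s | ∃ e, s = N ^ e}

theorem pw_one (N : ℕ) : 1 ∈ pw N := ⟨0, by simp⟩

theorem pw_mul (N : ℕ) : ∀ a ∈ pw N, ∀ b ∈ pw N, a * b ∈ pw N := by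
  rintro _ ⟨e, rfl⟩ _ ⟨f, rfl⟩
  exact ⟨e + f, by rw [pow_add]⟩

/-- the integers prime to `p` -/
def cop (p : ℕ) : Set ℕ := {s | ¬ p ∣ s}

theorem cop_one {p : ℕ} (hp : p.Prime) : 1 ∈ cop p := fun h => hp.one_lt.ne' (Nat.dvd_one.1 h)

theorem cop_mul {p : ℕ} (hp : p.Prime) : ∀ a ∈ cop p, ∀ b ∈ cop p, a * b ∈ cop p := by
  intro a ha b hb h
  rcases hp.dvd_mul.1 h with h1 | h1
  · exact ha h1
  · exact hb h1

end mult

/-- one localisation -/
theorem kills_at {S : Set ℕ} (h1 : 1 ∈ S) (hm : ∀ a ∈ S, ∀ b ∈ S, a * b ∈ S) {k : ℕ}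
    (hC : Claim S k k) {U : Type} [Ring U] (hPI : PIU U) (hQ : ∀ q, QTyp k k q U) {X : Type}
    (π : FreeAlgebra ℤ X →+* U) : ∃ I : Ideal (FreeAlgebra ℤ X), I.IsTwoSided ∧ PureI I ∧
      MPI I ∧ ∀ g ∈ I, ∃ s ∈ S, s • π g = 0 := by
  obtain ⟨q, hq⟩ := hC
  obtain ⟨V, _, f, hf⟩ := exists_frac S h1 hm U
  obtain ⟨I, hI1, hI2, hI3, hI4⟩ := hq V hf.inv (hf.piu h1 hm hPI) (hf.qtyp h1 hm (hQ q)) X
    (f.comp π)
  exact ⟨I, hI1, hI2, hI3, fun g hg => hf.ker _ (hI4 g hg)⟩

theorem kills_T {N0 k : ℕ} (hC0 : Claim (pw N0) k k) (T : Finset ℕ)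
    (hT : ∀ p ∈ T, p.Prime ∧ Claim (cop p) k k) {U : Type} [Ring U] (hPI : PIU U)
    (hQ : ∀ q, QTyp k k q U) {X : Type} (π : FreeAlgebra ℤ X →+* U) :
    ∃ I : Ideal (FreeAlgebra ℤ X), I.IsTwoSided ∧ PureI I ∧ MPI I ∧
      ∀ g ∈ I, (∃ m, N0 ^ m • π g = 0) ∧ ∀ p ∈ T, ∃ s, ¬ p ∣ s ∧ s • π g = 0 := by
  classical
  induction T using Finset.induction_on with
  | empty =>
    obtain ⟨I, h1, h2, h3, h4⟩ := kills_at (pw_one N0) (pw_mul N0) hC0 hPI hQ π
    refine ⟨I, h1, h2, h3, fun g hg => ⟨?_, fun p hp => absurd hp (Finset.notMem_empty p)⟩⟩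
    obtain ⟨s, ⟨e, rfl⟩, hs⟩ := h4 g hg
    exact ⟨e, hs⟩
  | insert p T hp ih =>
    obtain ⟨I, h1, h2, h3, h4⟩ := ih (fun p hp => hT p (Finset.mem_insert_of_mem hp))
    obtain ⟨hpp, hCp⟩ := hT p (Finset.mem_insert_self p T)
    obtain ⟨J, j1, j2, j3, j4⟩ := kills_at (cop_one hpp) (cop_mul hpp) hCp hPI hQ π
    have := h1
    have := j1
    refine ⟨I * J, inferInstance, PureI_mul _ _ h2 j2, MPI_mul _ _ h3 j3, fun g hg => ?_⟩
    have hgI : g ∈ I := Ideal.mul_le_left (I := I) (J := J) hg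
    have hgJ : g ∈ J := Ideal.mul_le_right (I := I) (J := J) hg
    obtain ⟨a1, a2⟩ := h4 g hgI
    refine ⟨a1, fun p' hp' => ?_⟩
    rcases Finset.mem_insert.1 hp' with rfl | h5
    · exact j4 g hgJ
    · exact a2 p' h5

/-- the separation argument -/
theorem sep {N0 : ℕ} (hN0 : 0 < N0) (P : Set ℕ) {U : Type} [Ring U]
    (hbad : ∀ p, p.Prime → p ∣ N0 → p ∉ P → ∀ u : U, p • u = 0 → u = 0) (u : U) (m : ℕ)
    (hm : N0 ^ m • u = 0) (hP : ∀ p, p.Prime → p ∣ N0 → p ∈ P → ∃ s, ¬ p ∣ s ∧ s • u = 0) :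
    u = 0 := by
  have h1 : addOrderOf u ∣ N0 ^ m := addOrderOf_dvd_iff_nsmul_eq_zero.2 hm
  have h2 : addOrderOf u ≠ 0 := fun h => by
    rw [h] at h1
    exact (pow_pos hN0 m).ne' (zero_dvd_iff.1 h1)
  by_contra hu
  have h3 : addOrderOf u ≠ 1 := fun h => hu (AddMonoid.addOrderOf_eq_one_iff.1 h)
  obtain ⟨p, hp, hpn⟩ := Nat.exists_prime_and_dvd h3
  have hpN : p ∣ N0 := hp.dvd_of_dvd_pow (hpn.trans h1)
  by_cases hpP : p ∈ P
  · obtain ⟨s, hs, hs2⟩ := hP p hp hpN hpP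
    exact hs (hpn.trans (addOrderOf_dvd_iff_nsmul_eq_zero.2 hs2))
  · obtain ⟨c, hc⟩ := hpn
    have h4 : p • (c • u) = 0 := by
      rw [smul_smul, ← hc, addOrderOf_nsmul_eq_zero]
    have h5 := hbad p hp hpN hpP _ h4
    have h6 : addOrderOf u ∣ c := addOrderOf_dvd_iff_nsmul_eq_zero.2 h5
    have hc0 : 0 < c := Nat.pos_of_ne_zero (fun h => by rw [h, mul_zero] at hc; exact h2 hc)
    have h7 := Nat.le_of_dvd hc0 h6
    rw [hc] at h7
    have := hp.two_le
    nlinarith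

/-- rings without bad torsion -/
theorem kills_good {N0 k : ℕ} (hN0 : 0 < N0) (hC0 : Claim (pw N0) k k) (P : Set ℕ)
    (hP : ∀ p ∈ P, p.Prime → p ∣ N0 → Claim (cop p) k k) {U : Type} [Ring U] (hPI : PIU U)
    (hQ : ∀ q, QTyp k k q U)
    (hbad : ∀ p, p.Prime → p ∣ N0 → p ∉ P → ∀ u : U, p • u = 0 → u = 0) {X : Type}
    (π : FreeAlgebra ℤ X →+* U) : Kills π := by
  classical
  obtain ⟨I, h1, h2, h3, h4⟩ := kills_T hC0 (N0.primeFactors.filter (· ∈ P)) (fun p hp => by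
    rw [Finset.mem_filter, Nat.mem_primeFactors] at hp
    exact ⟨hp.1.1, hP p hp.2 hp.1.1 hp.1.2.1⟩) hPI hQ π
  refine ⟨I, h1, h2, h3, fun g hg => ?_⟩
  obtain ⟨⟨m, hm⟩, h5⟩ := h4 g hg
  exact sep hN0 P hbad _ m hm (fun p hp hpN hpP => h5 p (by
    rw [Finset.mem_filter, Nat.mem_primeFactors]
    exact ⟨⟨hp, hpN, hN0.ne'⟩, hpP⟩))

/-- bounded torsion for finitely many primes -/
theorem bounded {R : Type} [AddCommGroup R] (B : Finset ℕ) (e : ℕ → ℕ)
    (he : ∀ p ∈ B, ∀ (r : R) (m : ℕ), p ^ m • r = 0 → p ^ (e p) • r = 0) (m : ℕ) :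
    ∀ r : R, (∏ p ∈ B, p ^ m) • r = 0 → (∏ p ∈ B, p ^ (e p)) • r = 0 := by
  classical
  induction B using Finset.induction_on with
  | empty => intro r hr; simpa using hr
  | insert p B hp ih =>
    intro r hr
    rw [Finset.prod_insert hp, mul_smul] at hr ⊢
    have h1 := he p (Finset.mem_insert_self p B) _ m hr
    rw [smul_comm] at h1
    have h2 := ih (fun p' hp' => he p' (Finset.mem_insert_of_mem hp')) _ h1
    rw [smul_comm] at h2
    exact h2

/-- `mpi_of_sub` with the degree -/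
theorem mpi_sub' {U : Type} [Ring U] (R : NonUnitalSubring U) (hR : Aug R) (d : ℕ)
    (a : Perm (Fin (d + 1)) → ℤ) (ha : a 1 = 1)
    (h : ∀ x : Fin (d + 1) → U, (∀ i, x i ∈ R) → ∑ σ, a σ • mono x σ = 0) :
    ∃ a' : Perm (Fin ((d + 1) * 1 + d + 1)) → ℤ, a' 1 = 1 ∧
      ∀ x : Fin ((d + 1) * 1 + d + 1) → U, ∑ σ, a' σ • mono x σ = 0 := by
  classical
  have hcomm : ∀ y z : U, y * z - z * y ∈ R := by
    intro y z
    obtain ⟨c, r, hr, rfl⟩ := hR.top y
    obtain ⟨c', r', hr', rfl⟩ := hR.top z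
    have e : ((c : U) + r) * ((c' : U) + r') - ((c' : U) + r') * ((c : U) + r) = r * r' - r' * r := by
      have h1 := Int.cast_commute c r'
      have h2 := Int.cast_commute c' r
      have h3 := Int.cast_commute c (c' : U)
      simp only [Commute, SemiconjBy] at h1 h2 h3
      simp only [add_mul, mul_add, h1, h2, h3]
      abel
    rw [e]
    exact sub_mem (hR.left _ _ hr') (hR.left _ _ hr)
  refine ⟨fun σ => ∑ τ : Perm (Fin (d + 1)), ∑ r : Fin (d + 1) → Fin 2,
    if shp d τ r = σ then a τ * (∏ i, (if r i = 0 then (1 : ℤ) else -1)) else 0, ?_, ?_⟩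
  · have h1 : ∀ (τ : Perm (Fin (d + 1))) (r : Fin (d + 1) → Fin 2), (τ, r) ≠ (1, 0) →
        (if shp d τ r = 1 then a τ * (∏ i, (if r i = 0 then (1 : ℤ) else -1)) else 0) = 0 := by
      intro τ r hne
      rw [if_neg]
      intro h2
      obtain ⟨h3, h4⟩ := shp_one d τ r h2
      exact hne (by rw [h3, h4])
    show (∑ τ : Perm (Fin (d + 1)), ∑ r : Fin (d + 1) → Fin 2,
      if shp d τ r = 1 then a τ * (∏ i, (if r i = 0 then (1 : ℤ) else -1)) else 0) = 1
    rw [Finset.sum_eq_single (1 : Perm (Fin (d + 1))), Finset.sum_eq_single (0 : Fin (d + 1) → Fin 2)]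
    · rw [if_pos (shp_one' d), ha]
      simp
    · intro r _ hr
      exact h1 _ _ (by simpa using hr)
    · intro h; exact absurd (mem_univ _) h
    · intro τ _ hτ
      exact Finset.sum_eq_zero fun r _ => h1 _ _ (by simp [hτ])
    · intro h; exact absurd (mem_univ _) h
  · intro X
    show ∑ σ : Perm (Fin ((d + 1) * 2)), (∑ τ : Perm (Fin (d + 1)), ∑ r : Fin (d + 1) → Fin 2,
      if shp d τ r = σ then a τ * (∏ i, (if r i = 0 then (1 : ℤ) else -1)) else 0) • mono X σ = 0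
    have h2 := h (fun i : Fin (d + 1) => X (pr d (i, 0)) * X (pr d (i, 1)) -
      X (pr d (i, 1)) * X (pr d (i, 0))) (fun i => hcomm _ _)
    rw [← h2]
    simp only [Finset.sum_smul]
    rw [Finset.sum_comm]
    refine Finset.sum_congr rfl fun τ _ => ?_
    rw [Finset.sum_comm, mono_comm, Finset.smul_sum]
    refine Finset.sum_congr rfl fun r _ => ?_
    simp only [ite_smul, zero_smul]
    rw [Finset.sum_ite_eq]
    simp [mul_smul]

theorem isUnit_dvd {U : Type} [Ring U] {a b : ℕ} (h : a ∣ b) (hb : IsUnit (b : U)) :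
    IsUnit (a : U) := by
  obtain ⟨c, rfl⟩ := h
  rw [Nat.cast_mul] at hb
  exact ((Nat.cast_commute a (c : U)).isUnit_mul_iff.1 hb).1

/-- THE FINAL THEOREM -/
theorem final
    (hcl : ∀ (S : Set ℕ) (k l : ℕ), (∀ k' l', 0 < k' → k' ≤ k → 0 < l' → l' ≤ l →
      Engine S k' l') → Claim S k l)
    (hP3 : ∀ k l : ℕ, 0 < k → 0 < l → ∃ D : ℕ, 0 < D ∧ Engine {D} k l) (d : ℕ) :
    ∃ N0 : ℕ, 0 < N0 ∧ ∀ P : Set ℕ,
      (∀ p ∈ P, p.Prime → ∀ k l, 0 < k → 0 < l → Engine (cop p) k l) →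
      ∀ (R : Type) [NonUnitalRing R] (a : Perm (Fin (d + 1)) → ℤ), a 1 = 1 →
      (∀ x : Fin (d + 1) → R, ∑ σ : Perm (Fin (d + 1)),
        a σ • ((List.ofFn (fun i : Fin d => x (σ i.succ))).foldl
          (fun u v => u * v) (x (σ 0))) = 0) →
      (∀ p : ℕ, p.Prime → p ∣ N0 → p ∉ P → ∃ e : ℕ, ∀ (r : R) (m : ℕ),
        p ^ m • r = 0 → p ^ e • r = 0) → Im R := by
  classical
  obtain ⟨k, hk, hstart⟩ := Super.start_Q ((d + 1) * 1 + d)
  choose D hD hE using fun i j : ℕ => hP3 (i + 1) (j + 1) (Nat.succ_pos _) (Nat.succ_pos _)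
  set N0 := ∏ i ∈ range k, ∏ j ∈ range k, D i j with hN0def
  have hN0 : 0 < N0 := Finset.prod_pos (fun i _ => Finset.prod_pos (fun j _ => hD i j))
  have hdvd : ∀ i < k, ∀ j < k, D i j ∣ N0 := by
    intro i hi j hj
    exact (Finset.dvd_prod_of_mem (fun j => D i j) (Finset.mem_range.2 hj)).trans
      (Finset.dvd_prod_of_mem (fun i => ∏ j ∈ range k, D i j) (Finset.mem_range.2 hi))
  have hC0 : Claim (pw N0) k k := by
    apply hcl
    intro k' l' hk1 hk2 hl1 hl2
    obtain ⟨i, rfl⟩ := Nat.exists_eq_succ_of_ne_zero hk1.ne'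
    obtain ⟨j, rfl⟩ := Nat.exists_eq_succ_of_ne_zero hl1.ne'
    refine Engine_mono (fun U _ hU s hs => ?_) (hE i j)
    rw [Set.mem_singleton_iff.1 hs]
    exact isUnit_dvd (hdvd i (by omega) j (by omega)) (hU N0 ⟨1, (pow_one N0).symm⟩)
  refine ⟨N0, hN0, fun P hP R _ a ha hid htor => ?_⟩
  have hid' := (piid_iff R d a).1 hid
  obtain ⟨a', ha', hPI'⟩ := mpi_sub' (RU R) (aug_RU R) d a ha hid'
  have hPIU : PIU (Un R) := ⟨_, a', ha', hPI'⟩
  have hQ : ∀ q, QTyp k k q (Un R) := fun q => hstart (Un R) a' ha' hPI' q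
  have htor' : ∀ p : ℕ, ∃ e : ℕ, p.Prime → p ∣ N0 → p ∉ P → ∀ (r : R) (m : ℕ),
      p ^ m • r = 0 → p ^ e • r = 0 := by
    intro p
    by_cases h1 : p.Prime ∧ p ∣ N0 ∧ p ∉ P
    · obtain ⟨e, he⟩ := htor p h1.1 h1.2.1 h1.2.2
      exact ⟨e, fun _ _ _ => he⟩
    · exact ⟨0, fun h2 h3 h4 => absurd ⟨h2, h3, h4⟩ h1⟩
  choose e he using htor'
  set B := N0.primeFactors.filter (· ∉ P) with hB
  have hBm : ∀ p, p ∈ B ↔ p.Prime ∧ p ∣ N0 ∧ p ∉ P := by
    intro p
    rw [hB, Finset.mem_filter, Nat.mem_primeFactors]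
    exact ⟨fun h => ⟨h.1.1, h.1.2.1, h.2⟩, fun h => ⟨⟨h.1, h.2.1, hN0.ne'⟩, h.2.2⟩⟩
  set N := ∏ p ∈ B, p ^ (e p) with hN
  have hNpos : 0 < N := Finset.prod_pos (fun p hp => pow_pos ((hBm p).1 hp).1.pos _)
  have hNR : ∀ p ∈ B, ∀ r : R, N • p • r = 0 → N • r = 0 := by
    intro p hp r hr
    refine bounded B e (fun p hp => he p ((hBm p).1 hp).1 ((hBm p).1 hp).2.1 ((hBm p).1 hp).2.2)
      ((∑ p ∈ B, e p) + 1) r ?_
    have h1 : N * p ∣ ∏ p ∈ B, p ^ ((∑ p ∈ B, e p) + 1) := by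
      have h2 : N * p = ∏ p' ∈ B, (p' ^ (e p') * if p' = p then p else 1) := by
        rw [Finset.prod_mul_distrib, Finset.prod_ite_eq' B p, if_pos hp]
      rw [h2]
      refine Finset.prod_dvd_prod_of_dvd _ _ (fun p' hp' => ?_)
      have h3 : e p' ≤ ∑ p ∈ B, e p := Finset.single_le_sum (fun _ _ => Nat.zero_le _) hp'
      rw [pow_succ]
      refine mul_dvd_mul (pow_dvd_pow _ h3) ?_
      split_ifs with h4
      · rw [h4]
      · exact one_dvd _
    obtain ⟨c, hc⟩ := h1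
    rw [hc, mul_comm, mul_smul, mul_smul, hr, smul_zero]
  apply im_of_kills
  have h2s : (G_mulI (RU R) (aug_RU R) N).IsTwoSided := G_twoSided (RU R) (aug_RU R) N
  refine kills_of_mul (canon R) (Ideal.Quotient.mk (AnnI (Un R) N))
    (Ideal.Quotient.mk (G_mulI (RU R) (aug_RU R) N)) ?_ ?_ ?_
  · intro x y hx hy
    rw [Ideal.Quotient.eq_zero_iff_mem] at hx hy
    rw [mem_AnnI] at hx
    obtain ⟨r, _, rfl⟩ := (G_mem_mulI (RU R) (aug_RU R) N y).1 hy
    rw [← mul_assoc, ← (Nat.cast_commute N x).eq, ← nsmul_eq_mul, hx, zero_mul]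
  · have hsurj : Function.Surjective (Ideal.Quotient.mk (AnnI (Un R) N)) :=
      Ideal.Quotient.mk_surjective
    refine kills_good hN0 hC0 P (fun p hp hpp _ => hcl _ k k (fun k' l' h1 _ h2 _ =>
      hP p hp hpp k' l' h1 h2)) (PIU_surj _ hsurj hPIU) (fun q => QTyp_surj _ hsurj (hQ q)) ?_ _
    intro p hp hpN hpP u hu
    obtain ⟨w, rfl⟩ := hsurj u
    rw [← map_nsmul, Ideal.Quotient.eq_zero_iff_mem, mem_AnnI] at hu
    rw [Ideal.Quotient.eq_zero_iff_mem, mem_AnnI]
    have h1 : fstU R w = 0 := by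
      have h2 := congrArg (fstU R) hu
      rw [map_nsmul, map_nsmul, map_zero, smul_smul, nsmul_eq_mul] at h2
      rcases mul_eq_zero.1 h2 with h3 | h3
      · have : N * p ≠ 0 := (Nat.mul_pos hNpos hp.pos).ne'
        exact absurd (by exact_mod_cast h3) this
      · exact h3
    obtain ⟨r, rfl⟩ := (mem_RU R w).1 h1
    rw [← map_nsmul, ← map_nsmul] at hu
    have h4 : N • p • r = 0 := inU_injective R (hu.trans (map_zero _).symm)
    rw [← map_nsmul, hNR p ((hBm p).2 ⟨hp, hpN, hpP⟩) r h4, map_zero]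
  · have hsurj : Function.Surjective (Ideal.Quotient.mk (G_mulI (RU R) (aug_RU R) N)) :=
      Ideal.Quotient.mk_surjective
    refine kills_of_char N hNpos ((RU R).map (Ideal.Quotient.mk (G_mulI (RU R) (aug_RU R) N)))
      (G_aug_map (RU R) (aug_RU R) _ hsurj) _ d a ha (G_pi_map (RU R) _ d a hid') ?_
    rintro _ ⟨r, hr, rfl⟩
    change (N : Un R ⧸ G_mulI (RU R) (aug_RU R) N) *
      Ideal.Quotient.mk (G_mulI (RU R) (aug_RU R) N) r = 0
    rw [← map_natCast (Ideal.Quotient.mk (G_mulI (RU R) (aug_RU R) N)) N, ← map_mul,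
      Ideal.Quotient.eq_zero_iff_mem]
    exact ⟨r, hr, rfl⟩

end Pool.PI34.T2

end

/-! ### part T3_Eng -/
section

/-!
PI34, theorem T3: the engine for an odd prime, from the catalyst and (H4).
-/

set_option linter.unusedSectionVars false
set_option linter.unusedSimpArgs false

namespace Pool.PI34.Super

open Equiv Finset
open Pool.PI34.SS (FA)
open Pool.PI34.C0 (capMono)
open Pool.PI34.BA (anti permsOn Frame Anti)

/-- the property of the super string systems which is proved by (H4) -/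
def HProp (p K D : ℕ) : Prop :=
  ∀ (n : ℕ) (Φ U : Type) [Ring Φ] [Ring U] (S : SS.SupStr (Fin (n + 1)) Φ U 0),
    Anti S.f K → ∀ e e' : Fin K ↪ Fin (n + 1), Frame e e' 0 →
    (∀ s : ℕ, ¬ p ∣ s → ∀ x : U, s • x = 0 → x = 0) →
    ∀ (X : Type) (g : FA X), g ∈ SS.QQ K X → ∀ r : X → Φ,
      D • (S.ρ 0 (FA.lift r g) * (anti S.f (univ.map e) * anti S.f (univ.map e'))) = 0

/-- (H4) for the prime `p` and the rank `K` -/
def HMain (p K : ℕ) : Prop := ∃ D : ℕ, 0 < D ∧ HProp p K D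

namespace CatL

variable {Λ : Type} [CommRing Λ] {j : Λ →+* ℚ} {k l m : ℕ} {L : CatL j k l m}

theorem Rp.coreD {p D : ℕ} {R EE : Type} [Ring R] [Ring EE] (V : Rp L (2 * (k + l) + 1) R EE)
    (hH : HProp p (k + l) D)
    (ρH : R →+* EE) (hρ : ∀ x, V.ρ (phL (2 * (k + l) + 1) m 0) x = ρH x)
    (hinv : ∀ s : ℕ, ¬ p ∣ s → ∀ x : EE, s • x = 0 → x = 0)
    {X : Type} (g : FA X) (hg : g ∈ SS.QQ (k + l) X) (a : X → R) :
    D • (V.ρ (phL (2 * (k + l) + 1) m 0) (FA.lift a g) *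
      V.a (L.Yp (2 * (k + l) + 1) (univ.map (eP (k + l))) (univ.map (eQ (k + l))))) = 0 := by
  have hval : ∀ (s : ℕ) (x : V.U), V.U_val (s • x) = s • x.1 := by
    intro s x
    rw [map_nsmul]; rfl
  have hU : ∀ s : ℕ, ¬ p ∣ s → ∀ x : V.U, s • x = 0 → x = 0 := by
    intro s hs x hx
    apply V.U_ext
    apply hinv s hs
    rw [← hval, hx]
    rfl
  have h := hH _ _ _ V.cS.toSup V.anti_zero (eP (k + l)) (eQ (k + l))
    (frame_eP (k + l)) hU X g hg (fun x => FA.of (some (a x)))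
  have h2 : D • (V.rU 0 (FA.lift (fun x => FA.of (some (a x))) g) *
      (anti V.fH (univ.map (eP (k + l))) * anti V.fH (univ.map (eQ (k + l)))) : V.U).1 = 0 := by
    rw [← hval]
    have h' : V.U_val (D • (V.rU 0 (FA.lift (fun x => FA.of (some (a x))) g) *
      (anti V.fH (univ.map (eP (k + l))) * anti V.fH (univ.map (eQ (k + l)))) : V.U)) =
      V.U_val 0 := congrArg V.U_val h
    rw [h', map_zero]
  rw [V.U_mul, V.U_mul, V.ring_rU 0 ρH hρ, V.anti_eq (univ.map (eP (k + l)))] at h2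
  have h3 : V.a (L.Z (2 * (k + l) + 1)) * (anti V.fH (univ.map (eQ (k + l)))).1
      = (anti V.fH (univ.map (eQ (k + l)))).1 := V.U_left _
  have h4 : V.a (L.Z (2 * (k + l) + 1)) * (anti V.fH (univ.map (eP (k + l)))).1
      = (anti V.fH (univ.map (eP (k + l)))).1 := V.U_left _
  rw [V.anti_eq] at h3 h4 h2
  unfold Yp
  rw [map_mul, map_mul]
  unfold altL
  generalize V.a (∑ σ ∈ permsOn (univ.map (eP (k + l))), ((Perm.sign σ : ℤˣ) : ℤ) • L.fl σ) = A
    at h2 h3 h4 ⊢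
  generalize V.a (∑ σ ∈ permsOn (univ.map (eQ (k + l))), ((Perm.sign σ : ℤˣ) : ℤ) • L.fl σ) = B
    at h2 h3 h4 ⊢
  generalize V.a (L.Z (2 * (k + l) + 1)) = Z at h2 h3 h4 ⊢
  generalize V.ρ (phL (2 * (k + l) + 1) m 0) (FA.lift a g) = x at h2 ⊢
  calc D • (x * (A * B * Z)) = D • (x * (A * (B * Z))) := by rw [mul_assoc A]
    _ = D • (x * (A * (Z * (B * Z)))) := by rw [h3]
    _ = D • (x * (A * Z * (B * Z))) := by rw [mul_assoc A]
    _ = D • (x * (Z * (A * Z) * (B * Z))) := by rw [h4]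
    _ = D • (x * Z * (A * Z * (B * Z))) := by simp only [mul_assoc]
    _ = 0 := h2

/-- THEOREM P3 with the factor `D` -/
theorem P3D {p D : ℕ} (L : CatL j k l m) (hH : HProp p (k + l) D) (hkl : 0 < k + l) :
    ∃ Y0 : MonoidAlgebra Λ (Perm (Fin (2 * (k + l) + m))), act k l _ (mj j _ Y0) ≠ 0 ∧
      ∀ (R : Type) [Ring R] [Algebra Λ R], TypeKL j k l (2 * (k + l) + 1 + m) R →
        (∀ s : ℕ, ¬ p ∣ s → ∀ x : R, s • x = 0 → x = 0) →
        ∀ {X : Type} (g : FA X), g ∈ SS.QQ (k + l) X → ∀ (a : X → R)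
          (τ : Perm (Fin (2 * (k + l) + m)))
          (v : Fin (2 * (k + l) + m + 1) → R) (r : Fin (2 * (k + l) + m) → R),
          D • (FA.lift a g * fv (Y0 * MonoidAlgebra.of Λ _ τ) v r) = 0 := by
  obtain ⟨Y0, hY0⟩ := L.exists_Y0 (2 * (k + l)) (univ.map (eP (k + l))) (univ.map (eQ (k + l)))
    (zero_eP _) (zero_eQ _)
  refine ⟨Y0, ?_, ?_⟩
  · apply act_of_pl (conv_ph1 (2 * (k + l)) m)
    rw [← mj_plL, hY0]
    let v : Fin (2 * (k + l) + 1) → Lt k l := fun i =>
      finSumFinEquiv.symm ⟨(i.val + (k + l) - 1) % (k + l), Nat.mod_lt _ hkl⟩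
    apply L.Yp_ne _ _ (disj_ePQ _) v
    · intro x hx y hy hxy
      rw [Finset.coe_map, Set.mem_image] at hx hy
      obtain ⟨x, _, rfl⟩ := hx
      obtain ⟨y, _, rfl⟩ := hy
      have h1 : (1 + x.val + (k + l) - 1) % (k + l) = (1 + y.val + (k + l) - 1) % (k + l) :=
        congrArg Fin.val (finSumFinEquiv.symm.injective hxy)
      have h2 : (1 + x.val + (k + l) - 1) % (k + l) = x.val := by
        rw [show 1 + x.val + (k + l) - 1 = x.val + (k + l) by omega, Nat.add_mod_right,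
          Nat.mod_eq_of_lt x.2]
      have h3 : (1 + y.val + (k + l) - 1) % (k + l) = y.val := by
        rw [show 1 + y.val + (k + l) - 1 = y.val + (k + l) by omega, Nat.add_mod_right,
          Nat.mod_eq_of_lt y.2]
      rw [h2, h3] at h1
      rw [Fin.ext h1]
    · intro x hx y hy hxy
      rw [Finset.coe_map, Set.mem_image] at hx hy
      obtain ⟨x, _, rfl⟩ := hx
      obtain ⟨y, _, rfl⟩ := hy
      have h1 : (1 + (k + l) + x.val + (k + l) - 1) % (k + l)
          = (1 + (k + l) + y.val + (k + l) - 1) % (k + l) :=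
        congrArg Fin.val (finSumFinEquiv.symm.injective hxy)
      have h2 : (1 + (k + l) + x.val + (k + l) - 1) % (k + l) = x.val := by
        rw [show 1 + (k + l) + x.val + (k + l) - 1 = x.val + (k + l) + (k + l) by omega,
          Nat.add_mod_right, Nat.add_mod_right, Nat.mod_eq_of_lt x.2]
      have h3 : (1 + (k + l) + y.val + (k + l) - 1) % (k + l) = y.val := by
        rw [show 1 + (k + l) + y.val + (k + l) - 1 = y.val + (k + l) + (k + l) by omega,
          Nat.add_mod_right, Nat.add_mod_right, Nat.mod_eq_of_lt y.2]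
      rw [h2, h3] at h1
      rw [Fin.ext h1]
  · intro R _ _ hT hinv X g hg a τ v r
    let V := ringRp L (2 * (k + l) + 1) hT
    have hEE : ∀ s : ℕ, ¬ p ∣ s → ∀ x : Module.End Λ (VL Λ R (2 * (k + l) + 1 + m)),
        s • x = 0 → x = 0 := by
      intro s hs x h1
      refine endL_ext fun F r => ?_
      apply hinv s hs
      exact congrFun (congrArg Subtype.val (LinearMap.congr_fun h1 F)) r
    have h := V.coreD hH (rhoH (phL (2 * (k + l) + 1) m 0)) (fun _ => rfl) hEE g hg a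
    have hτ : D • (V.ρ (phL (2 * (k + l) + 1) m 0) (FA.lift a g) *
        aL Λ R (2 * (k + l) + 1 + m) (plL Λ (ph1 (2 * (k + l)) m)
          (Y0 * MonoidAlgebra.of Λ _ τ))) = 0 := by
      rw [map_mul, map_mul, hY0, ← mul_assoc, ← smul_mul_assoc]
      have h' : D • (V.ρ (phL (2 * (k + l) + 1) m 0) (FA.lift a g) *
        aL Λ R (2 * (k + l) + 1 + m) (L.Yp (2 * (k + l) + 1) (univ.map (eP (k + l)))
          (univ.map (eQ (k + l))))) = 0 := h
      rw [h', zero_mul]
    clear h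
    rename' hτ => h
    let v' : Fin (2 * (k + l) + 1 + m + 1) → R := fun i =>
      if h : i.val = 0 then 1 else v ⟨i.val - 1, by omega⟩
    let r' : Fin (2 * (k + l) + 1 + m) → R := fun i =>
      if h : i.val = 0 then 1 else r ⟨i.val - 1, by omega⟩
    have h1 : D • (aL Λ R (2 * (k + l) + 1 + m) (plL Λ (ph1 (2 * (k + l)) m)
        (Y0 * MonoidAlgebra.of Λ _ τ)) (monV v' 1)).1
        (Function.update r' (phL (2 * (k + l) + 1) m 0)
          (r' (phL (2 * (k + l) + 1) m 0) * FA.lift a g)) = 0 :=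
      congrFun (congrArg Subtype.val (LinearMap.congr_fun h (monV v' 1))) r'
    rw [aL_fv, fv_pl] at h1
    have e1 : v' 0 = 1 := dif_pos rfl
    have e2 : (phL (2 * (k + l) + 1) m 0) = (⟨0, by omega⟩ : Fin (2 * (k + l) + 1 + m)) := rfl
    have e3 : r' ⟨0, by omega⟩ = 1 := dif_pos rfl
    rw [e2, Function.update_self, e1, e3, one_mul, one_mul] at h1
    have e4 : (fun i : Fin (2 * (k + l) + m + 1) => v' ⟨i.val + 1, by omega⟩) = v := by
      funext i
      change (if h : i.val + 1 = 0 then 1 else v ⟨i.val + 1 - 1, by omega⟩) = _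
      rw [dif_neg (by omega)]
      rfl
    have e5 : Function.update r' ⟨0, by omega⟩ (FA.lift a g) ∘ ph1 (2 * (k + l)) m = r := by
      funext i
      have h2 : ph1 (2 * (k + l)) m i ≠ ⟨0, by omega⟩ := by
        intro h3
        have := congrArg Fin.val h3
        rw [ph1_val] at this
        simp at this
      rw [Function.comp_apply, Function.update_of_ne h2]
      change (if h : (ph1 (2 * (k + l)) m i).val = 0 then 1 else
        r ⟨(ph1 (2 * (k + l)) m i).val - 1, by omega⟩) = _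
      rw [dif_neg (by rw [ph1_val]; omega)]
      rfl
    rw [e4, e5] at h1
    exact h1

end CatL

/-! ### the localisation of `ℤ` at a prime -/

section ap

open Pool.PI34.T2 (cop smon cop_one cop_mul Inv)

variable (p : ℕ) [hp : Fact p.Prime]

/-- the denominators -/
def MpA : Submonoid ℤ := smon (cop p) (cop_one hp.out) (cop_mul hp.out)

/-- `ℤ` localised at the prime `p` -/
def Ap : Type := Localization (MpA p)

noncomputable instance : CommRing (Ap p) := inferInstanceAs (CommRing (Localization (MpA p)))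

instance : IsLocalization (MpA p) (Ap p) := by
  have h : IsLocalization (MpA p) (Localization (MpA p)) := inferInstance
  convert! h
  exact Subsingleton.elim (α := Algebra ℤ (Ap p)) _ _

theorem cop_ne {s : ℕ} (hs : s ∈ cop p) : s ≠ 0 := by
  rintro rfl
  exact hs (dvd_zero p)

/-- the embedding in `ℚ` -/
noncomputable def jA : Ap p →+* ℚ :=
  IsLocalization.lift (M := MpA p) (g := Int.castRingHom ℚ) (by
    rintro ⟨_, s, hs, rfl⟩
    rw [eq_intCast, Int.cast_natCast]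
    exact (Nat.cast_ne_zero.2 (cop_ne p hs)).isUnit)

theorem jA_int (n : ℤ) : jA p (algebraMap ℤ (Ap p) n) = n := by
  unfold jA
  rw [IsLocalization.lift_eq]
  rfl

/-- the reduction -/
noncomputable def rA : Ap p →+* ZMod p :=
  IsLocalization.lift (M := MpA p) (g := Int.castRingHom (ZMod p)) (by
    rintro ⟨_, s, hs, rfl⟩
    rw [eq_intCast, Int.cast_natCast]
    have h : ((s : ℕ) : ZMod p) ≠ 0 := fun h => hs ((ZMod.natCast_eq_zero_iff _ _).1 h)
    exact h.isUnit)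

theorem rA_int (n : ℤ) : rA p (algebraMap ℤ (Ap p) n) = n := by
  unfold rA
  rw [IsLocalization.lift_eq]
  rfl

noncomputable instance : Algebra (Ap p) ℚ := (jA p).toAlgebra

noncomputable instance : Algebra (Ap p) (ZMod p) := (rA p).toAlgebra

/-- every element is a fraction -/
theorem Ap_frac (a : Ap p) : ∃ s ∈ cop p, ∃ n : ℤ, a * algebraMap ℤ (Ap p) s
    = algebraMap ℤ (Ap p) n := by
  obtain ⟨⟨n, ⟨_, s, hs, rfl⟩⟩, h⟩ := IsLocalization.surj (MpA p) a
  exact ⟨s, hs, n, h⟩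

theorem Ap_unit {s : ℕ} (hs : s ∈ cop p) : IsUnit (algebraMap ℤ (Ap p) s) :=
  IsLocalization.map_units (Ap p) (⟨(s : ℤ), s, hs, rfl⟩ : MpA p)

instance : SK.PInt p (Ap p) where
  inj := by
    rw [injective_iff_map_eq_zero]
    intro a ha
    obtain ⟨s, hs, n, h⟩ := Ap_frac p a
    have h1 : jA p (a * algebraMap ℤ (Ap p) s) = (n : ℚ) := by rw [h, jA_int]
    have ha' : jA p a = 0 := ha
    rw [map_mul, ha', zero_mul] at h1
    have hn : n = 0 := by exact_mod_cast h1.symm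
    rw [hn, map_zero] at h
    exact ((Ap_unit p hs).mul_left_eq_zero).1 h
  unit := by
    intro a ha
    obtain ⟨s, hs, n, h⟩ := Ap_frac p a
    have ha' : rA p a ≠ 0 := ha
    have h1 : rA p a * (s : ZMod p) = (n : ZMod p) := by
      have h2 := congrArg (rA p) h
      rw [map_mul, rA_int, rA_int] at h2
      rw [← h2]
      push_cast
      rfl
    have hs' : (s : ZMod p) ≠ 0 := fun h => hs ((ZMod.natCast_eq_zero_iff _ _).1 h)
    have hn : (n : ZMod p) ≠ 0 := by
      rw [← h1]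
      exact mul_ne_zero ha' hs'
    have hn2 : n.natAbs ∈ cop p := by
      intro h2
      apply hn
      rw [ZMod.intCast_zmod_eq_zero_iff_dvd]
      exact Int.natCast_dvd.2 h2
    have hn3 : IsUnit (algebraMap ℤ (Ap p) n) := by
      rcases Int.natAbs_eq n with h2 | h2
      · rw [h2]
        exact Ap_unit p hn2
      · rw [h2, map_neg]
        exact (Ap_unit p hn2).neg
    rw [← h] at hn3
    exact isUnit_of_mul_isUnit_left hn3

variable {p}
variable {G : Type} [Group G]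

/-- base change to `A[G]` -/
noncomputable def icA (p : ℕ) [Fact p.Prime] (G : Type) [Group G] :
    MonoidAlgebra ℤ G →+* MonoidAlgebra (Ap p) G :=
  MonoidAlgebra.mapRingHom G (algebraMap ℤ (Ap p))

theorem icA_of (g : G) : icA p G (MonoidAlgebra.of ℤ G g) = MonoidAlgebra.of (Ap p) G g := by
  simp [icA, MonoidAlgebra.of_apply]

theorem icA_coeff (y : MonoidAlgebra ℤ G) (g : G) :
    (icA p G y).coeff g = algebraMap ℤ (Ap p) (y.coeff g) := by
  unfold icA
  rw [MonoidAlgebra.coeff_mapRingHom]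

theorem icA_smul (n : ℤ) (y : MonoidAlgebra ℤ G) :
    icA p G (n • y) = (algebraMap ℤ (Ap p) n) • icA p G y := by
  rw [map_zsmul, eq_intCast, Int.cast_smul_eq_zsmul]

theorem mj_icA (y : MonoidAlgebra ℤ G) : mj (jA p) G (icA p G y) = bc y := by
  ext g
  unfold mj bc
  rw [MonoidAlgebra.coeff_mapRingHom, icA_coeff, MonoidAlgebra.coeff_mapRingHom, jA_int]
  rfl

theorem clrA (y : MonoidAlgebra (Ap p) G) : ∃ s ∈ cop p, ∃ y' : MonoidAlgebra ℤ G,
    icA p G y' = (algebraMap ℤ (Ap p) s) • y := by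
  induction y using MonoidAlgebra.induction_on with
  | of g => exact ⟨1, cop_one hp.out, MonoidAlgebra.of ℤ G g, by
      rw [icA_of, Nat.cast_one, map_one, one_smul]⟩
  | add x y hx hy =>
    obtain ⟨a, ha, x', hx'⟩ := hx
    obtain ⟨b, hb, y', hy'⟩ := hy
    refine ⟨a * b, cop_mul hp.out a ha b hb, (b : ℤ) • x' + (a : ℤ) • y', ?_⟩
    rw [map_add, icA_smul, icA_smul, hx', hy', smul_smul, smul_smul, smul_add, Nat.cast_mul,
      map_mul, mul_comm (algebraMap ℤ (Ap p) b)]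
  | smul r x hx =>
    obtain ⟨a, ha, x', hx'⟩ := hx
    obtain ⟨s, hs, c, hc⟩ := Ap_frac p r
    refine ⟨s * a, cop_mul hp.out s hs a ha, c • x', ?_⟩
    rw [icA_smul, hx', smul_smul, smul_smul, ← hc, Nat.cast_mul, map_mul]
    congr 1
    ring

variable {U : Type} [Ring U]

/-- the algebra structure -/
noncomputable def fA (hU : Inv (cop p) U) : Ap p →+* Subring.center U :=
  IsLocalization.lift (M := MpA p) (g := Int.castRingHom (Subring.center U)) (by
    rintro ⟨_, s, hs, rfl⟩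
    obtain ⟨u, hu⟩ := hU s hs
    have h1 : (u : U) ∈ Set.center U := by
      rw [hu]
      exact Set.natCast_mem_center U s
    refine IsUnit.of_mul_eq_one (⟨(u⁻¹ : Uˣ), Set.units_inv_mem_center h1⟩ : Subring.center U) ?_
    apply Subtype.ext
    rw [eq_intCast, Int.cast_natCast]
    change ((s : Subring.center U) : U) * ((u⁻¹ : Uˣ) : U) = 1
    have h2 : ((s : Subring.center U) : U) = (s : U) := by push_cast; rfl
    rw [h2, ← hu, Units.mul_inv])

/-- the algebra structure -/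
@[instance_reducible] noncomputable def algA (hU : Inv (cop p) U) : Algebra (Ap p) U :=
  RingHom.toAlgebra' ((Subring.center U).subtype.comp (fA hU)) (fun c x => by
    have := (fA hU c).2
    rw [Subring.mem_center_iff] at this
    exact (this x).symm)

theorem fv_icA {N : ℕ} [Algebra (Ap p) U] (y : MonoidAlgebra ℤ (Perm (Fin N)))
    (v : Fin (N + 1) → U) (r : Fin N → U) : fv (icA p _ y) v r = fv y v r := by
  unfold fv
  refine Finset.sum_congr rfl (fun σ _ => ?_)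
  rw [icA_coeff, eq_intCast, Int.cast_smul_eq_zsmul]

theorem typeA_of (hU : Inv (cop p) U) {k l n : ℕ} (h : KN 1 k l n U) :
    @TypeKL (Ap p) _ (jA p) k l n U _ (algA hU) := by
  let _ := algA hU
  intro y hy v r
  obtain ⟨s, hs, y', hy'⟩ := clrA y
  have h1 : act k l _ (bc y') = 0 := by
    rw [← mj_icA (p := p), hy', mj_smul, map_smul, hy, smul_zero]
  have h2 := h y' h1 v r
  rw [one_smul, ← fv_icA (p := p), hy', fv_lsmul] at h2
  obtain ⟨u, hu⟩ := Ap_unit p hs
  rw [← hu] at h2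
  have h4 := congrArg (fun x => ((u⁻¹ : (Ap p)ˣ) : Ap p) • x) h2
  simp only [smul_smul, Units.inv_mul, one_smul, smul_zero] at h4
  exact h4

/-- catalysts for the prime `p` -/
def HasCat (p : ℕ) [Fact p.Prime] (k l : ℕ) : Prop :=
  ∃ (m : ℕ) (C : CatP k l m) (z : MonoidAlgebra (Ap p) (Perm (Fin m)))
      (E : MonoidAlgebra (Ap p) (Perm (Fin (m + 1)))),
      C.z = MonoidAlgebra.mapRingHom _ (algebraMap (Ap p) ℚ) z ∧
      C.E = MonoidAlgebra.mapRingHom _ (algebraMap (Ap p) ℚ) E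

/-- THE ENGINE at the prime `p`. -/
theorem engine_p {k l : ℕ} (hkl : 0 < k + l) (hcat : HasCat p k l) (hH : HMain p (k + l)) :
    T2.Engine (cop p) k l := by
  obtain ⟨m, C, zL, EL, hz, hE⟩ := hcat
  obtain ⟨D, hD, hHD⟩ := hH
  let L : CatL (jA p) k l m := ⟨C, zL, EL, hz.symm, hE.symm⟩
  obtain ⟨Y0, hY0, h⟩ := L.P3D hHD hkl
  obtain ⟨s, hs, y0, hy0⟩ := clrA Y0
  refine ⟨fun X => (SS.QI (k + l) X : Ideal (FA X)), 2 * (k + l) + 1 + m, _, D • y0,
    ?_, ?_, ?_⟩
  · intro X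
    refine ⟨(inferInstance : (SS.QI (k + l) X).IsTwoSided), ?_, ?_⟩
    · intro m g hm hg
      exact SS.QQ_pure (k + l) X m g hm hg
    · obtain ⟨d, a, ha, h1⟩ := SS.QQ_MPI (k + l)
      exact ⟨d, a, ha, fun x => h1 X x⟩
  · rw [map_nsmul, map_nsmul, ← mj_icA (p := p), hy0, mj_smul, map_smul, jA_int,
      ← Nat.cast_smul_eq_nsmul ℚ, smul_smul]
    intro h1
    rcases smul_eq_zero.1 h1 with h2 | h2
    · have h3 : (D : ℚ) ≠ 0 := by exact_mod_cast hD.ne'
      have h4 : (((s : ℕ) : ℤ) : ℚ) ≠ 0 := by exact_mod_cast cop_ne p hs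
      exact (mul_ne_zero h3 h4) h2
    · exact hY0 h2
  · intro U _ hU hT X π g hg τ v r
    let _ := algA hU
    have hinv : ∀ s : ℕ, ¬ p ∣ s → ∀ x : U, s • x = 0 → x = 0 := fun s hs x hx =>
      T2.Inv.cancel hU hs hx
    have h1 := SS.FA.ext (A := U) π (SS.FA.lift (fun x => π (FreeAlgebra.ι ℤ x)))
      (fun x => by rw [SS.FA.lift_of]; rfl) g
    have h2 := h U (typeA_of hU (hT _ le_rfl)) hinv g hg (fun x => π (FreeAlgebra.ι ℤ x)) τ v r
    have h3 : icA p _ (D • y0 * MonoidAlgebra.of ℤ _ τ)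
        = ((algebraMap ℤ (Ap p) s) * (D : Ap p)) • (Y0 * MonoidAlgebra.of (Ap p) _ τ) := by
      rw [map_mul, map_nsmul, hy0, icA_of, smul_mul_assoc, smul_mul_assoc,
        ← Nat.cast_smul_eq_nsmul (Ap p), smul_smul, mul_comm (D : Ap p)]
    have h4 : SS.FA.lift (fun x => π (FreeAlgebra.ι ℤ x)) g *
        fv (D • y0 * MonoidAlgebra.of ℤ _ τ) v r = 0 := by
      rw [← fv_icA (p := p), h3, fv_lsmul, mul_smul_comm, mul_smul, Nat.cast_smul_eq_nsmul, h2,
        smul_zero]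
    exact (congrArg (fun t : U => t * fv (D • y0 * MonoidAlgebra.of ℤ _ τ) v r) h1).trans h4

end ap

end Pool.PI34.Super

end

/-! ### part X_Defs -/
section

/-!
PI34, the prime `p = 2`: definitions of the three blocks.

* `EXT k l`: output of the block (EX) (exact delta);
* `ExStr`: exotic string systems; `HExD K D`, `HEx K`: output of the block (S_ex);
* `EXT k l → HEx (k + l) → T2.Engine (T2.cop 2) k l` is the ring side.
-/

set_option autoImplicit false
set_option linter.unusedSectionVars false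

namespace Pool.PI34.XX

open Equiv Finset
open Pool.PI34.Super (Lt odd pv Ap plL act bc)
open Pool.PI34.SS (FA)
open Pool.PI34.BA (anti permsOn Frame Anti)
open Pool.PI34.T1 (PureI MPI)

/-! ### the coefficients -/

/-- the coefficient ring `ℤ_(2)[√2]` -/
abbrev O2 : Type := QuadraticAlgebra (Ap 2) 2 0

/-- the square root of two -/
noncomputable def r2 : O2 := ⟨0, 1⟩

theorem r2_sq : r2 * r2 = 2 := by
  ext
  · rw [QuadraticAlgebra.re_ofNat]
    simp [r2]
  · rw [QuadraticAlgebra.im_ofNat]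
    simp [r2]

/-! ### operators on words -/

section words

variable (K : Type) [CommRing K] (k l : ℕ) (ι : Type*) [Fintype ι] [LinearOrder ι]

/-- the plain action of the permutations on the functions on words -/
def pH : Perm ι →* Module.End K (SK.W K k l ι) where
  toFun σ :=
    { toFun := fun g w => g (w ∘ σ)
      map_add' := fun _ _ => rfl
      map_smul' := fun _ _ => rfl }
  map_one' := rfl
  map_mul' _ _ := rfl

/-- the plain action of the group algebra -/
noncomputable def plain (A : Type) [CommRing A] [Algebra A K] :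
    MonoidAlgebra A (Perm ι) →ₐ[A] Module.End K (SK.W K k l ι) :=
  MonoidAlgebra.lift A _ _ (pH K k l ι)

variable {ι}

/-- the operator `∏_{i ∈ T} δ_i`, where `δ_i` is `r` on the words whose letter `i` is odd, and
zero on the other words -/
def dT (r : K) (T : Finset ι) : Module.End K (SK.W K k l ι) where
  toFun g w := (∏ i ∈ T, if odd (w i) then r else 0) * g w
  map_add' g h := by funext w; simp [mul_add]
  map_smul' c g := by funext w; simp; ring

end words

/-- placement on the strands `1, …, n` (the strand `0` is free) -/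
noncomputable def sh (A : Type) [CommRing A] (n : ℕ) :
    MonoidAlgebra A (Perm (Fin n)) →+* MonoidAlgebra A (Perm (Fin (n + 1))) :=
  plL A (Fin.succOrderEmb n)

/-- (EX): the output of the block (A).  `1 ⊗ δ^T Ω` is `dT (T.map succ) * plain (sh Ω)`. -/
def EXT (k l : ℕ) : Prop :=
  ∃ (N : ℕ) (Ω : MonoidAlgebra (Ap 2) (Perm (Fin N)))
    (lam : Finset (Fin N) → Finset (Fin N) → MonoidAlgebra O2 (Perm (Fin (N + 1)))),
    plain O2 k l (Fin N) (Ap 2) Ω ≠ 0 ∧
    ∀ T : Finset (Fin N),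
      dT O2 k l r2 {0} * (dT O2 k l r2 (T.map (Fin.succEmb N)) *
          plain O2 k l (Fin (N + 1)) (Ap 2) (sh _ N Ω))
        = ∑ T' : Finset (Fin N), SK.act O2 O2 k l (Fin (N + 1)) (lam T T') *
            (dT O2 k l r2 (T'.map (Fin.succEmb N)) *
              plain O2 k l (Fin (N + 1)) (Ap 2) (sh _ N Ω))

/-! ### exotic string systems -/

/-- exotic string systems: `f` are the plain flips, `ρ i a` the letter `a` on the strand `i`
(conjugate by plain flips of the letter on the first strand), `q = √2`, `δ ^ 2 = q δ`,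
`d a = δ a + a δ - q δ a δ`; the letters commute up to `d ⊗ d`. -/
structure ExStr (ι Φ U : Type) [Fintype ι] [DecidableEq ι] [Ring Φ] [Ring U] where
  q : Φ
  q_comm : ∀ a, q * a = a * q
  q_sq : q * q = 2
  δ : Φ
  δ_sq : δ * δ = q * δ
  f : Perm ι →* U
  ρ : ι → Φ →+* U
  ρ_q : ∀ i j, ρ i q = ρ j q
  ρ_qc : ∀ i x, ρ i q * x = x * ρ i q
  f_ρ : ∀ σ i a, f σ * ρ i a = ρ (σ i) a * f σ
  comm : ∀ i j, i ≠ j → ∀ a b, ρ i a * ρ j b = ρ j b * ρ i a +
    ρ i (δ * a + a * δ - q * (δ * a * δ)) * ρ j (δ * b + b * δ - q * (δ * b * δ))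

/-- the derivation of an exotic string system -/
def ExStr.d {ι Φ U : Type} [Fintype ι] [DecidableEq ι] [Ring Φ] [Ring U] (S : ExStr ι Φ U)
    (a : Φ) : Φ := S.δ * a + a * S.δ - S.q * (S.δ * a * S.δ)

/-- (S_ex), the special form: the analog of `Super.HProp` for the exotic string systems -/
def HExD (K D : ℕ) : Prop :=
  ∀ (n : ℕ) (Φ U : Type) [Ring Φ] [Ring U] (S : ExStr (Fin (n + 1)) Φ U),
    Anti S.f K → ∀ e e' : Fin K ↪ Fin (n + 1), Frame e e' 0 → T2.Inv (T2.cop 2) U →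
    ∀ (X : Type) (g : FA X), g ∈ SS.QQ K X → ∀ a : X → Φ,
      D • (S.ρ 0 (FA.lift a g) * (anti S.f (univ.map e) * anti S.f (univ.map e'))) = 0

/-- the value of an element of the group algebra of the strands `1, …, n` -/
noncomputable def fval {n : ℕ} {U : Type} [Ring U] (f : Perm (Fin (n + 1)) →* U)
    (Y : MonoidAlgebra ℤ (Perm (Fin n))) : U :=
  ∑ σ : Perm (Fin n), Y.coeff σ • f (Super.ext (Fin.succOrderEmb n) σ)

/-- (S_ex), the general form: a pure PI ideal `I` and an element `Y` which acts by nonzero on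
the words of rank `K` (all the letters of `Lt K 0` are even), such that `g(a) Y = 0` in all the
exotic string systems of rank `K` -/
def HEx (K : ℕ) : Prop :=
  ∃ (I : (X : Type) → Ideal (FreeAlgebra ℤ X)) (n : ℕ) (Y : MonoidAlgebra ℤ (Perm (Fin n))),
    (∀ X, (I X).IsTwoSided ∧ PureI (I X) ∧ MPI (I X)) ∧ act K 0 _ (bc Y) ≠ 0 ∧
    ∀ (Φ U : Type) [Ring Φ] [Ring U] (S : ExStr (Fin (n + 1)) Φ U),
      Anti S.f K → T2.Inv (T2.cop 2) U →
      ∀ (X : Type) (π : FreeAlgebra ℤ X →+* Φ) (g : FreeAlgebra ℤ X), g ∈ I X →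
        S.ρ 0 (π g) * fval S.f Y = 0

/-- the ring side -/
def RingSide : Prop := ∀ k l : ℕ, 0 < k + l → EXT k l → HEx (k + l) → T2.Engine (T2.cop 2) k l

end Pool.PI34.XX

end
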