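import Pool.Agent.LibPI54.M05
import Pool.Agent.LibPI54.M52

/-! ### part X_HEx -/
section

/-!
PI34, p = 2: the interfaces VAL (helper88), START (helper55), SEX (helper15) and the assembly
`HExD k D`.
-/

set_option autoImplicit false
set_option linter.unusedSectionVars false

namespace Pool.PI34.XH

open Equiv Finset
open Pool.PI34.H4 (P g act)
open Pool.PI34.SS (FA)
open Pool.PI34.BA (anti Frame Anti)
open Pool.PI34.XX (ExStr HExD)

/-- string polynomials with one open strand `none` and `n` labelled letters -/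
abbrev PO (n : ℕ) : Type := P (Option (Fin n))

/-- relabelling of the letters -/
noncomputable def cj {n : ℕ} (σ : Perm (Fin n)) (y : PO n) : PO n :=
  g (optionCongr σ) * y * g (optionCongr σ)⁻¹

/-- the sign of `σ` on the odd places `B` (target) -/
def sgB {n : ℕ} (σ : Perm (Fin n)) (B : Finset (Fin n)) : ℤ :=
  (-1) ^ ((univ.filter fun p : Fin n × Fin n => p.1 < p.2 ∧ σ p.2 < σ p.1 ∧ σ p.1 ∈ B ∧
    σ p.2 ∈ B).card)

/-- typed function of the coordinates `t` (psi-normalisation) -/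
noncomputable def ty {n : ℕ} (t : Finset (Fin n) → PO n) (B : Finset (Fin n)) : PO n :=
  ∑ h ∈ B.powerset, ((2 : ℤ) ^ ((h.card + 1) / 2)) • t h

/-- the colour classes are intervals -/
def Inter {n : ℕ} {C : Type} (c : Fin n → C) : Prop :=
  ∀ i j l : Fin n, i ≤ j → j ≤ l → c i = c l → c j = c i

/-- `κ_h` -/
def kap (n : ℕ) : ℤ := if Even n then 2 else 1

/-- the four swap rules between the functionals `psi` and `psi'` (`psi'` = letters `b ∘ s`) -/
def Rules {n : ℕ} {W : Type} [AddCommGroup W] (i j : Fin n)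
    (psi' psi : Finset (Fin n) → (PO n →+ W)) : Prop :=
  ∀ (h : Finset (Fin n)) (y : PO n), i ∉ h → j ∉ h →
    psi' h (cj (swap i j) y) = psi h y - psi (insert i (insert j h)) y ∧
    psi' (insert i h) (cj (swap i j) y) =
      psi (insert j h) y - kap h.card • psi (insert i (insert j h)) y ∧
    psi' (insert j h) (cj (swap i j) y) =
      psi (insert i h) y - kap h.card • psi (insert i (insert j h)) y ∧
    psi' (insert i (insert j h)) (cj (swap i j) y) = - psi (insert i (insert j h)) y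

/-- the path `none -> .. -> none` through all the letters; the convention of helper88: `none` goes
to the last letter, `some 0` to `none`, `some (k + 1)` to `some k` -/
def pathP : (n : ℕ) → Perm (Option (Fin n))
  | 0 => 1
  | n + 1 => (finSuccEquivLast (n := n + 1)).symm.trans
      ((finRotate (n + 2)).symm.trans (finSuccEquivLast (n := n + 1)))

/-- systems of functionals -/
structure PsiSys (k : ℕ) (Φ U : Type) [Ring Φ] [Ring U] (ρ : Φ →+* U) (om : U) where
  psi : ∀ n : ℕ, (Fin n → Φ) → Finset (Fin n) → (PO n →+ U)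
  ker : ∀ n b h y, act k _ y = 0 → psi n b h y = 0
  rule : ∀ n (b : Fin n → Φ) (i j : Fin n), (j : ℕ) = i + 1 →
    Rules i j (psi n (b ∘ swap i j)) (psi n b)
  path : ∀ n (b : Fin n → Φ), psi n b ∅ (g (pathP n)) = ρ (List.ofFn b).prod * om

/-- VAL (helper88) -/
def Val (k : ℕ) : Prop :=
  ∀ (N : ℕ) (Φ U : Type) [Ring Φ] [Ring U] (S : ExStr (Fin (N + 1)) Φ U), Anti S.f k →
    ∀ e e' : Fin k ↪ Fin (N + 1), Frame e e' 0 →
      Nonempty (PsiSys k Φ U (S.ρ 0) (anti S.f (univ.map e) * anti S.f (univ.map e')))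

/-- the hypothesis of SEX: the typed components vanish -/
def Tor {n : ℕ} (k : ℕ) {C : Type} [DecidableEq C] (c : Fin n → C)
    (t : Finset (Fin n) → PO n) : Prop :=
  ∀ B : Finset (Fin n), act k _ (∑ σ ∈ univ.filter (fun σ : Perm (Fin n) => c ∘ σ = c),
    sgB σ B • cj σ (ty t (B.map (σ⁻¹ : Perm (Fin n)).toEmbedding))) = 0

/-- START (helper55) -/
def Start (k : ℕ) : Prop :=
  ∀ (X : Type) [DecidableEq X] (G : FA X), G ∈ SS.QQ k X →
    ∃ (K : ℕ) (n : Fin K → ℕ) (c : ∀ κ, Fin (n κ) → X)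
      (t : ∀ κ, Finset (Fin (n κ)) → PO (n κ)),
      (∀ κ, Inter (c κ) ∧ Tor k (c κ) (t κ)) ∧
      ∀ (Φ U : Type) [Ring Φ] [Ring U] (ρ : Φ →+* U) (om : U) (S : PsiSys k Φ U ρ om)
        (a : X → Φ), ρ (FA.lift a G) * om = ∑ κ, ∑ h, S.psi (n κ) (a ∘ c κ) h (t κ h)

/-- SEX (helper15) -/
def Sex (k D : ℕ) : Prop :=
  ∀ (n : ℕ) (C : Type) [DecidableEq C] (c : Fin n → C), Inter c →
    ∀ t : Finset (Fin n) → PO n, Tor k c t →
    ∀ (W : Type) [AddCommGroup W] (psi : Finset (Fin n) → (PO n →+ W)),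
      (∀ h y, act k _ y = 0 → psi h y = 0) →
      (∀ i j : Fin n, (j : ℕ) = i + 1 → c i = c j → Rules i j psi psi) →
      ∃ N : ℕ, ¬ 2 ∣ N ∧ N • D • ∑ h, psi h (t h) = 0

/-- ASSEMBLY -/
theorem hexD {k D : ℕ} (hV : Val k) (hS : Start k) (hX : Sex k D) : HExD k D := by
  classical
  intro N Φ U _ _ S hA e e' hF hinv X G hG a
  obtain ⟨V⟩ := hV N Φ U S hA e e' hF
  obtain ⟨K, n, c, t, hct, hval⟩ := hS X G hG
  rw [hval Φ U (S.ρ 0) _ V a, Finset.smul_sum]
  refine Finset.sum_eq_zero fun κ _ => ?_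
  obtain ⟨M, hM, h⟩ := hX (n κ) X (c κ) (hct κ).1 (t κ) (hct κ).2 U (V.psi (n κ) (a ∘ c κ))
    (fun h y hy => V.ker _ _ _ _ hy) (fun i j hij hc => by
      have h1 := V.rule (n κ) (a ∘ c κ) i j hij
      have h2 : (a ∘ c κ) ∘ ⇑(swap i j) = a ∘ c κ := by
        funext x
        simp only [Function.comp_apply]
        congr 1
        by_cases hx : x = i
        · rw [hx, swap_apply_left, hc]
        · by_cases hx' : x = j
          · rw [hx', swap_apply_right, hc]
          · rw [swap_apply_of_ne_of_ne hx hx']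
      rw [h2] at h1
      exact h1)
  obtain ⟨u, hu⟩ := hinv M hM
  have h3 : (M : U) * (D • ∑ h, V.psi (n κ) (a ∘ c κ) h (t κ h)) = 0 := by
    rw [← nsmul_eq_mul]
    exact h
  rw [← hu] at h3
  have h4 := congrArg (fun x => (↑u⁻¹ : U) * x) h3
  simpa using h4

end Pool.PI34.XH

end

/-! ### part XS_Def -/
section

/-!
PI34, p = 2, block SEX: the abstract chase, definitions.

`M` = strings modulo the relations of the words (torsion free), `A` = the conjugation action of
the group algebra of the permutations of the letters (`Fin m` = letters of the W-catalyst,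
`Fin n` = letters of the polynomial), `th` = right multiplication by the two V-catalysts.
-/

set_option autoImplicit false
set_option linter.unusedSectionVars false

namespace Pool.PI34.XS

open Equiv Finset
open Pool.PI34.H4 (P g act emb As ZP JR cc AK Ac)
open Pool.PI34.XH (sgB Inter kap)

/-- a permutation of the letters `Fin n` -/
abbrev rr {m n : ℕ} (σ : Perm (Fin n)) : Perm (Fin m ⊕ Fin n) := sumCongr 1 σ

/-- chase settings -/
structure CS (N n m : ℕ) (M : Type) [AddCommGroup M] where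
  /-- conjugation action -/
  A : P (Fin m ⊕ Fin n) →+* AddMonoid.End M
  tf : ∀ (a : ℤ) (x : M), a ≠ 0 → a • x = 0 → x = 0
  ker : ∀ q, act N _ q = 0 → A q = 0
  /-- the V-catalysts -/
  th : M →+ M
  thA : ∀ q x, th (A q x) = A q (th x)
  κ : ℤ
  hκ : Odd κ
  thth : ∀ x, th (th x) = κ • th x
  /-- the W-catalyst -/
  z : P (Fin m)
  h : ℤ
  hh : Odd h
  zz : z * z = h • z
  hz : ZP N 2 z
  /-- the even step -/
  ev : ∀ (C' : Type) [DecidableEq C'] (c' : Fin n → C') (w : M),
    ∑ σ ∈ univ.filter (fun σ : Perm (Fin n) => c' ∘ σ = c'), A (g (rr σ)) (th w) = 0 →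
    ∀ (W : Type) [AddCommGroup W] (lam : M →+ W),
      (∀ σ : Perm (Fin n), c' ∘ σ = c' → ∀ y, lam (A (g (rr σ)) y) = lam y) →
      ∃ o : ℤ, Odd o ∧ o • lam (th w) = 0

variable {N n m : ℕ} {M : Type} [AddCommGroup M] (S : CS N n m M)
variable {C : Type} [DecidableEq C] (c : Fin n → C)

/-- the action of the permutations of the letters -/
noncomputable def CS.cj (σ : Perm (Fin n)) (x : M) : M := S.A (g (rr σ)) x

/-- the action of the W-catalyst -/
noncomputable def CS.Z (x : M) : M := S.A (emb Function.Embedding.inl S.z) x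

/-- `x` at the place `h` (the letters in `h` are exotic `xi`, the others `x`) -/
def dl (h : Finset (Fin n)) (x : M) : Finset (Fin n) → M := Pi.single h x

/-- the exotic relations -/
noncomputable def CS.Rel : AddSubgroup (Finset (Fin n) → M) :=
  AddSubgroup.closure {t | ∃ (i j : Fin n) (h : Finset (Fin n)) (y : M), (j : ℕ) = i + 1 ∧
    c i = c j ∧ i ∉ h ∧ j ∉ h ∧
    (t = dl h (S.cj (swap i j) y) - dl h y + dl (insert i (insert j h)) y ∨
     t = dl (insert i h) (S.cj (swap i j) y) - dl (insert j h) y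
        + kap h.card • dl (insert i (insert j h)) y ∨
     t = dl (insert j h) (S.cj (swap i j) y) - dl (insert i h) y
        + kap h.card • dl (insert i (insert j h)) y ∨
     t = dl (insert i (insert j h)) (S.cj (swap i j) y) + dl (insert i (insert j h)) y)}

/-- the filtration -/
noncomputable def CS.F (j : ℕ) : AddSubgroup (Finset (Fin n) → M) :=
  AddSubgroup.closure {t | ∃ (h : Finset (Fin n)) (w : M), j ≤ h.card ∧
    t = dl h (S.Z (S.th w))} ⊔ S.Rel c

/-- typed functions -/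
def tyM (t : Finset (Fin n) → M) (B : Finset (Fin n)) : M :=
  ∑ h ∈ B.powerset, ((2 : ℤ) ^ ((h.card + 1) / 2)) • t h

/-- the signed typed component -/
noncomputable def CS.tau (B : Finset (Fin n)) (t : Finset (Fin n) → M) : M :=
  ∑ σ ∈ univ.filter (fun σ : Perm (Fin n) => c ∘ σ = c),
    sgB σ B • S.cj σ (tyM t (B.map (σ⁻¹ : Perm (Fin n)).toEmbedding))

/-- sorted sets: initial in every colour class -/
def Srt (B : Finset (Fin n)) : Prop := ∀ i j : Fin n, i ≤ j → c i = c j → j ∈ B → i ∈ B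

/-- the signed norm of the stabiliser of `B` -/
noncomputable def CS.NB (B : Finset (Fin n)) (y : M) : M :=
  ∑ σ ∈ univ.filter (fun σ : Perm (Fin n) => c ∘ σ = c ∧ B.map σ.toEmbedding = B),
    sgB σ B • S.cj σ y

/-- the signed sum over the odd letters -/
noncomputable def AS (m : ℕ) (B : Finset (Fin n)) : P (Fin m ⊕ Fin n) :=
  ∑ σ ∈ univ.filter (fun σ : Perm (Fin n) => c ∘ σ = c ∧ ∀ x, x ∉ B → σ x = x),
    ((Perm.sign σ : ℤˣ) : ℤ) • g (rr σ)

end Pool.PI34.XS

end

/-! ### part XS_E0 -/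
section

/-! PI34, p = 2, block SEX, row E0: basic rules. -/

set_option autoImplicit false
set_option linter.unusedSectionVars false

namespace Pool.PI34.XS

open Equiv Finset
open Pool.PI34.H4 (P g act emb As ZP JR cc AK Ac)
open Pool.PI34.XH (sgB Inter kap)

theorem rr_mul {m n : ℕ} (σ τ : Perm (Fin n)) :
    (rr (σ * τ) : Perm (Fin m ⊕ Fin n)) = rr σ * rr τ := by
  rw [Perm.sumCongr_mul, one_mul]

theorem rr_one {m n : ℕ} : (rr (1 : Perm (Fin n)) : Perm (Fin m ⊕ Fin n)) = 1 :=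
  Perm.sumCongr_one

theorem commute_inl_rr {m n : ℕ} (x : P (Fin m)) (σ : Perm (Fin n)) :
    Commute (emb (Function.Embedding.inl : Fin m ↪ Fin m ⊕ Fin n) x) (g (rr σ)) := by
  refine H4.commute_of_g _ (fun τ => ?_) x
  have h : Perm.viaEmbedding τ (Function.Embedding.inl : Fin m ↪ Fin m ⊕ Fin n) =
      sumCongr τ (1 : Perm (Fin n)) := by
    ext1 z
    rcases z with z | z
    · exact Perm.viaEmbedding_apply τ (Function.Embedding.inl : Fin m ↪ Fin m ⊕ Fin n) z
    · rw [Perm.viaEmbedding_apply_of_notMem]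
      · rfl
      · rintro ⟨y, hy⟩
        exact absurd hy (by simp)
  rw [h]
  change g _ * g _ = g _ * g _
  rw [← H4.g_mul, ← H4.g_mul, Perm.sumCongr_mul, Perm.sumCongr_mul]
  simp

variable {N n m : ℕ} {M : Type} [AddCommGroup M] (S : CS N n m M)

theorem CS.A_mul (p q : P (Fin m ⊕ Fin n)) (x : M) : S.A (p * q) x = S.A p (S.A q x) := by
  rw [map_mul]; rfl

theorem CS.A_one (x : M) : S.A 1 x = x := by
  rw [map_one]; rfl

theorem CS.A_add (p q : P (Fin m ⊕ Fin n)) (x : M) : S.A (p + q) x = S.A p x + S.A q x := by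
  rw [map_add]; rfl

theorem CS.A_zsmul (a : ℤ) (p : P (Fin m ⊕ Fin n)) (x : M) : S.A (a • p) x = a • S.A p x := by
  rw [map_zsmul]; rfl

theorem CS.A_sum {ι : Type} (s : Finset ι) (f : ι → P (Fin m ⊕ Fin n)) (x : M) :
    S.A (∑ i ∈ s, f i) x = ∑ i ∈ s, S.A (f i) x := by
  classical
  induction s using Finset.induction_on with
  | empty => rw [sum_empty, sum_empty, map_zero]; rfl
  | insert a s ha ih => rw [sum_insert ha, sum_insert ha, S.A_add, ih]

theorem CS.cj_mul (σ τ : Perm (Fin n)) (x : M) : S.cj (σ * τ) x = S.cj σ (S.cj τ x) := by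
  unfold CS.cj
  rw [rr_mul, H4.g_mul, S.A_mul]

theorem CS.cj_one (x : M) : S.cj 1 x = x := by
  unfold CS.cj
  rw [rr_one, H4.g_one, S.A_one]

theorem CS.cj_add (σ : Perm (Fin n)) (x y : M) : S.cj σ (x + y) = S.cj σ x + S.cj σ y :=
  map_add _ _ _

theorem CS.cj_sub (σ : Perm (Fin n)) (x y : M) : S.cj σ (x - y) = S.cj σ x - S.cj σ y :=
  map_sub _ _ _

theorem CS.cj_neg (σ : Perm (Fin n)) (x : M) : S.cj σ (-x) = -S.cj σ x :=
  map_neg _ _

theorem CS.cj_zero (σ : Perm (Fin n)) : S.cj σ 0 = 0 :=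
  map_zero _

theorem CS.cj_zsmul (σ : Perm (Fin n)) (a : ℤ) (x : M) : S.cj σ (a • x) = a • S.cj σ x :=
  map_zsmul _ _ _

theorem CS.cj_sum {ι : Type} (s : Finset ι) (σ : Perm (Fin n)) (f : ι → M) :
    S.cj σ (∑ i ∈ s, f i) = ∑ i ∈ s, S.cj σ (f i) :=
  map_sum _ _ _

theorem CS.Z_add (x y : M) : S.Z (x + y) = S.Z x + S.Z y := map_add _ _ _

theorem CS.Z_sub (x y : M) : S.Z (x - y) = S.Z x - S.Z y := map_sub _ _ _

theorem CS.Z_neg (x : M) : S.Z (-x) = -S.Z x := map_neg _ _

theorem CS.Z_zero : S.Z 0 = 0 := map_zero _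

theorem CS.Z_zsmul (a : ℤ) (x : M) : S.Z (a • x) = a • S.Z x := map_zsmul _ _ _

theorem CS.Z_sum {ι : Type} (s : Finset ι) (f : ι → M) :
    S.Z (∑ i ∈ s, f i) = ∑ i ∈ s, S.Z (f i) := map_sum _ _ _

theorem CS.cj_th (σ : Perm (Fin n)) (x : M) : S.cj σ (S.th x) = S.th (S.cj σ x) :=
  (S.thA _ _).symm

theorem CS.cj_Z (σ : Perm (Fin n)) (x : M) : S.cj σ (S.Z x) = S.Z (S.cj σ x) := by
  unfold CS.cj CS.Z
  rw [← S.A_mul, ← S.A_mul]
  have h := commute_inl_rr (n := n) S.z σ
  rw [h.eq]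

theorem CS.ZZ (x : M) : S.Z (S.Z x) = S.h • S.Z x := by
  unfold CS.Z
  rw [← S.A_mul, ← (emb (Function.Embedding.inl : Fin m ↪ Fin m ⊕ Fin n)).map_mul, S.zz,
    H4.emb_zsmul, S.A_zsmul]

theorem CS.Z_th (x : M) : S.Z (S.th x) = S.th (S.Z x) :=
  (S.thA _ _).symm

theorem dl_add (h : Finset (Fin n)) (x y : M) : dl h (x + y) = dl h x + dl h y :=
  Pi.single_add _ _ _

theorem dl_sub (h : Finset (Fin n)) (x y : M) : dl h (x - y) = dl h x - dl h y :=
  Pi.single_sub _ _ _

theorem dl_neg (h : Finset (Fin n)) (x : M) : dl h (-x) = -dl h x :=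
  Pi.single_neg _ _

theorem dl_zero (h : Finset (Fin n)) : dl h (0 : M) = 0 :=
  Pi.single_zero _

/-- `dl h` as a homomorphism -/
noncomputable def dlH (h : Finset (Fin n)) : M →+ (Finset (Fin n) → M) :=
  AddMonoidHom.mk' (dl h) (dl_add h)

theorem dlH_apply (h : Finset (Fin n)) (x : M) : dlH h x = dl h x := rfl

theorem dl_zsmul (h : Finset (Fin n)) (a : ℤ) (x : M) : dl h (a • x) = a • dl h x :=
  map_zsmul (dlH h) a x

theorem dl_sum {ι : Type} (s : Finset ι) (h : Finset (Fin n)) (f : ι → M) :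
    dl h (∑ i ∈ s, f i) = ∑ i ∈ s, dl h (f i) :=
  map_sum (dlH h) f s

end Pool.PI34.XS

end
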