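import Pool.Agent.LibPI54.M05
import Pool.Agent.LibPI54.M53

/-! ### part XS_E3 -/
section

/-! PI34, p = 2, block SEX: row E3. -/

set_option autoImplicit false
set_option linter.unusedSectionVars false

namespace Pool.PI34.XS

open Equiv Finset
open Pool.PI34.H4 (P g act emb As ZP JR cc AK Ac)
open Pool.PI34.XH (sgB Inter kap)

variable {N n m : ℕ} {M : Type} [AddCommGroup M] (S : CS N n m M)
variable {C : Type} [DecidableEq C] (c : Fin n → C)

theorem e3_cj_mul (σ τ : Perm (Fin n)) (x : M) : S.cj (σ * τ) x = S.cj σ (S.cj τ x) := by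
  unfold CS.cj
  have h1 : (rr (σ * τ) : Perm (Fin m ⊕ Fin n)) = rr σ * rr τ := by
    ext x
    rcases x with x | x <;> rfl
  rw [h1, H4.g_mul, map_mul]
  rfl

theorem e3_adj (B : Finset (Fin n)) (i j : Fin n) (hij : (j : ℕ) = i + 1) (hi : i ∈ B)
    (hj : j ∈ B) (hcij : c i = c j) (y : M) :
    dl B (S.cj (swap i j) y) + dl B y ∈ S.Rel c := by
  have hne : i ≠ j := by
    rintro rfl
    omega
  have hB : insert i (insert j ((B.erase i).erase j)) = B := by
    rw [Finset.insert_erase, Finset.insert_erase hi]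
    exact Finset.mem_erase.2 ⟨hne.symm, hj⟩
  apply AddSubgroup.subset_closure
  refine ⟨i, j, (B.erase i).erase j, y, hij, hcij, ?_, ?_, ?_⟩
  · simp
  · simp
  · rw [hB]
    exact Or.inr (Or.inr (Or.inr rfl))

/-- E3: the odd letters of one colour, all transpositions. -/
theorem CS.odd_swap (hc : Inter c) (B : Finset (Fin n)) (hB : Srt c B) (i j : Fin n)
    (hij : i ≠ j) (hi : i ∈ B) (hj : j ∈ B) (hcij : c i = c j) (y : M) :
    dl B (S.cj (swap i j) y) + dl B y ∈ S.Rel c := by
  have key : ∀ (d : ℕ) (i j : Fin n), (j : ℕ) = i + (d + 1) → i ∈ B → j ∈ B → c i = c j →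
      ∀ y : M, dl B (S.cj (swap i j) y) + dl B y ∈ S.Rel c := by
    intro d
    induction d with
    | zero =>
      intro i j h1 h2 h3 h4 y
      exact e3_adj S c B i j (by omega) h2 h3 h4 y
    | succ d ih =>
      intro i j h1 h2 h3 h4 y
      have hj0 : (j : ℕ) < n := j.2
      let j' : Fin n := ⟨i + (d + 1), by omega⟩
      have hj' : (j' : ℕ) = i + (d + 1) := rfl
      have hij' : i ≤ j' := by rw [Fin.le_def]; omega
      have hjj' : j' ≤ j := by rw [Fin.le_def]; omega
      have hcj' : c j' = c i := hc i j' j hij' hjj' h4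
      have hBj' : j' ∈ B := hB j' j hjj' (hcj'.trans h4) h3
      have hsw : swap i j = swap j' j * swap i j' * swap j' j := by
        have hne1 : i ≠ j' := by
          intro h
          have := congrArg Fin.val h
          omega
        have hne2 : i ≠ j := by
          intro h
          have := congrArg Fin.val h
          omega
        rw [swap_mul_swap_mul_swap hne1 hne2, swap_comm]
      rw [hsw, e3_cj_mul, e3_cj_mul]
      have e1 := e3_adj S c B j' j (by omega) hBj' h3 (hcj'.trans h4)
        (S.cj (swap i j') (S.cj (swap j' j) y))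
      have e2 := ih i j' hj' h2 hBj' hcj'.symm (S.cj (swap j' j) y)
      have e3 := e3_adj S c B j' j (by omega) hBj' h3 (hcj'.trans h4) y
      have e4 := (S.Rel c).add_mem ((S.Rel c).sub_mem e1 e2) e3
      have e5 : dl B (S.cj (swap j' j) (S.cj (swap i j') (S.cj (swap j' j) y))) + dl B y =
          dl B (S.cj (swap j' j) (S.cj (swap i j') (S.cj (swap j' j) y))) +
              dl B (S.cj (swap i j') (S.cj (swap j' j) y)) -
            (dl B (S.cj (swap i j') (S.cj (swap j' j) y)) + dl B (S.cj (swap j' j) y)) +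
          (dl B (S.cj (swap j' j) y) + dl B y) := by abel
      rw [e5]
      exact e4
  rcases lt_or_gt_of_ne hij with h | h
  · rw [Fin.lt_def] at h
    exact key ((j : ℕ) - i - 1) i j (by omega) hi hj hcij y
  · rw [Fin.lt_def] at h
    rw [swap_comm]
    exact key ((i : ℕ) - j - 1) j i (by omega) hj hi hcij.symm y

end Pool.PI34.XS

end

/-! ### part XS_E1 -/
section

/-! PI34, p = 2, block SEX, row E1: the typed components of the exotic relations vanish. -/

set_option autoImplicit false
set_option linter.unusedSectionVars false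

namespace Pool.PI34.XS

open Equiv Finset
open Pool.PI34.H4 (P g act emb As ZP JR cc AK Ac)
open Pool.PI34.XH (sgB Inter kap)

variable {N n m : ℕ} {M : Type} [AddCommGroup M] (S : CS N n m M)
variable {C : Type} [DecidableEq C] (c : Fin n → C)

theorem e1_swap_lt {i j x y : Fin n} (hij : (j : ℕ) = i + 1) (hxy : x < y)
    (hne : (x, y) ≠ (i, j)) : swap i j x < swap i j y := by
  have hne' : ¬ (x = i ∧ y = j) := fun h => hne (by rw [h.1, h.2])
  rw [Fin.lt_def] at hxy ⊢
  simp only [swap_apply_def]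
  split_ifs with h1 h2 h3 h4 h5 h6 h7 h8 <;> subst_vars <;>
    omega

/-- the sign after an adjacent transposition -/
theorem e1_sg_swap (σ : Perm (Fin n)) (B : Finset (Fin n)) {i j : Fin n} (hij : (j : ℕ) = i + 1) :
    sgB (σ * swap i j) B = (if σ i ∈ B ∧ σ j ∈ B then -1 else 1) * sgB σ B := by
  classical
  have hlt : i < j := by rw [Fin.lt_def]; omega
  have hne : i ≠ j := ne_of_lt hlt
  set A : Perm (Fin n) → Finset (Fin n × Fin n) := fun τ =>
    univ.filter fun p : Fin n × Fin n => p.1 < p.2 ∧ τ p.2 < τ p.1 ∧ τ p.1 ∈ B ∧ τ p.2 ∈ B with hA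
  have hsg : ∀ τ : Perm (Fin n), sgB τ B = (-1) ^ (A τ).card := fun τ => rfl
  have hmem : ∀ (τ : Perm (Fin n)) (p : Fin n × Fin n), p ∈ A τ ↔
      p.1 < p.2 ∧ τ p.2 < τ p.1 ∧ τ p.1 ∈ B ∧ τ p.2 ∈ B := by
    intro τ p; simp [hA]
  have hcard : ((A (σ * swap i j)).erase (i, j)).card = ((A σ).erase (i, j)).card := by
    refine Finset.card_bij (fun p _ => (swap i j p.1, swap i j p.2)) ?_ ?_ ?_
    · intro p hp
      obtain ⟨h1, h2⟩ := mem_erase.1 hp
      obtain ⟨h3, h4, h5, h6⟩ := (hmem _ _).1 h2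
      have h7 : swap i j p.1 < swap i j p.2 := e1_swap_lt hij h3 (by rwa [Prod.mk.eta])
      refine mem_erase.2 ⟨?_, (hmem _ _).2 ⟨h7, h4, h5, h6⟩⟩
      intro h8
      have h9 : swap i j p.1 = i := congrArg Prod.fst h8
      have h10 : swap i j p.2 = j := congrArg Prod.snd h8
      have h11 : p.1 = j := (swap i j).injective (h9.trans (swap_apply_right i j).symm)
      have h12 : p.2 = i := (swap i j).injective (h10.trans (swap_apply_left i j).symm)
      rw [h11, h12] at h3
      exact absurd h3 (not_lt.2 hlt.le)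
    · intro p hp q hq h
      have h1 : swap i j p.1 = swap i j q.1 := congrArg Prod.fst h
      have h2 : swap i j p.2 = swap i j q.2 := congrArg Prod.snd h
      exact Prod.ext ((swap i j).injective h1) ((swap i j).injective h2)
    · intro q hq
      obtain ⟨h1, h2⟩ := mem_erase.1 hq
      obtain ⟨h3, h4, h5, h6⟩ := (hmem _ _).1 h2
      have h7 : swap i j q.1 < swap i j q.2 := e1_swap_lt hij h3 (by rwa [Prod.mk.eta])
      refine ⟨(swap i j q.1, swap i j q.2), mem_erase.2 ⟨?_, (hmem _ _).2 ⟨h7, ?_, ?_, ?_⟩⟩, ?_⟩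
      · intro h8
        have h9 : swap i j q.1 = i := congrArg Prod.fst h8
        have h10 : swap i j q.2 = j := congrArg Prod.snd h8
        have h11 : q.1 = j := (swap i j).injective (h9.trans (swap_apply_right i j).symm)
        have h12 : q.2 = i := (swap i j).injective (h10.trans (swap_apply_left i j).symm)
        rw [h11, h12] at h3
        exact absurd h3 (not_lt.2 hlt.le)
      · simp only [Perm.mul_apply, swap_apply_self]; exact h4
      · simp only [Perm.mul_apply, swap_apply_self]; exact h5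
      · simp only [Perm.mul_apply, swap_apply_self]; exact h6
      · simp only [swap_apply_self]
  have hm1 : (i, j) ∈ A (σ * swap i j) ↔ σ i < σ j ∧ σ j ∈ B ∧ σ i ∈ B := by
    rw [hmem]
    simp only [Perm.mul_apply, swap_apply_left, swap_apply_right]
    constructor
    · rintro ⟨_, h2, h3, h4⟩; exact ⟨h2, h3, h4⟩
    · rintro ⟨h2, h3, h4⟩; exact ⟨hlt, h2, h3, h4⟩
  have hm2 : (i, j) ∈ A σ ↔ σ j < σ i ∧ σ i ∈ B ∧ σ j ∈ B := by
    rw [hmem]
    constructor
    · rintro ⟨_, h2, h3, h4⟩; exact ⟨h2, h3, h4⟩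
    · rintro ⟨h2, h3, h4⟩; exact ⟨hlt, h2, h3, h4⟩
  have hne2 : σ i ≠ σ j := fun h => hne (σ.injective h)
  rw [hsg, hsg]
  by_cases hB : σ i ∈ B ∧ σ j ∈ B
  · rw [if_pos hB]
    rcases lt_or_gt_of_ne hne2 with h | h
    · have h1 : (i, j) ∈ A (σ * swap i j) := hm1.2 ⟨h, hB.2, hB.1⟩
      have h2 : (i, j) ∉ A σ := fun h' => absurd (hm2.1 h').1 (not_lt.2 h.le)
      have h3 := Finset.card_erase_add_one h1
      rw [Finset.erase_eq_of_notMem h2] at hcard
      rw [← h3, hcard, pow_succ]; ring
    · have h1 : (i, j) ∈ A σ := hm2.2 ⟨h, hB.1, hB.2⟩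
      have h2 : (i, j) ∉ A (σ * swap i j) := fun h' => absurd (hm1.1 h').1 (not_lt.2 h.le)
      have h3 := Finset.card_erase_add_one h1
      rw [Finset.erase_eq_of_notMem h2] at hcard
      rw [← h3, hcard, pow_succ]; ring
  · rw [if_neg hB, one_mul]
    have h1 : (i, j) ∉ A (σ * swap i j) := fun h' => hB ⟨(hm1.1 h').2.2, (hm1.1 h').2.1⟩
    have h2 : (i, j) ∉ A σ := fun h' => hB (hm2.1 h').2
    rw [Finset.erase_eq_of_notMem h1, Finset.erase_eq_of_notMem h2] at hcard
    rw [hcard]

theorem e1_cj_mul (σ τ : Perm (Fin n)) (x : M) : S.cj (σ * τ) x = S.cj σ (S.cj τ x) := by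
  unfold CS.cj
  have h1 : (rr (m := m) (σ * τ)) = rr σ * rr τ := by
    ext x
    rcases x with x | x <;> simp [rr]
  rw [h1, H4.g_mul, map_mul]
  rfl

theorem e1_cj_one (x : M) : S.cj 1 x = x := by
  unfold CS.cj
  have h1 : (rr (m := m) (1 : Perm (Fin n))) = 1 := by
    ext x
    rcases x with x | x <;> simp [rr]
  rw [h1, H4.g_one, map_one]
  rfl

theorem e1_cj_swap_swap (i j : Fin n) (x : M) : S.cj (swap i j) (S.cj (swap i j) x) = x := by
  rw [← e1_cj_mul, swap_mul_self, e1_cj_one]

theorem e1_cj_add (σ : Perm (Fin n)) (x y : M) : S.cj σ (x + y) = S.cj σ x + S.cj σ y :=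
  map_add _ _ _

theorem e1_cj_zero (σ : Perm (Fin n)) : S.cj σ 0 = 0 := map_zero _

theorem e1_cj_neg (σ : Perm (Fin n)) (x : M) : S.cj σ (-x) = -S.cj σ x := map_neg _ _

theorem e1_cj_sub (σ : Perm (Fin n)) (x y : M) : S.cj σ (x - y) = S.cj σ x - S.cj σ y :=
  map_sub _ _ _

theorem e1_cj_zsmul (σ : Perm (Fin n)) (a : ℤ) (x : M) : S.cj σ (a • x) = a • S.cj σ x :=
  map_zsmul _ _ _

theorem e1_ty_add (t u : Finset (Fin n) → M) (B : Finset (Fin n)) :
    tyM (t + u) B = tyM t B + tyM u B := by
  unfold tyM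
  rw [← Finset.sum_add_distrib]
  refine Finset.sum_congr rfl fun h _ => ?_
  rw [Pi.add_apply, smul_add]

theorem e1_ty_neg (t : Finset (Fin n) → M) (B : Finset (Fin n)) :
    tyM (-t) B = -tyM t B := by
  unfold tyM
  rw [← Finset.sum_neg_distrib]
  refine Finset.sum_congr rfl fun h _ => ?_
  rw [Pi.neg_apply, smul_neg]

theorem e1_ty_zero (B : Finset (Fin n)) : tyM (0 : Finset (Fin n) → M) B = 0 := by
  unfold tyM
  refine Finset.sum_eq_zero fun h _ => ?_
  rw [Pi.zero_apply, smul_zero]

theorem e1_ty_sub (t u : Finset (Fin n) → M) (B : Finset (Fin n)) :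
    tyM (t - u) B = tyM t B - tyM u B := by
  rw [sub_eq_add_neg, e1_ty_add, e1_ty_neg, ← sub_eq_add_neg]

theorem e1_ty_zsmul (a : ℤ) (t : Finset (Fin n) → M) (B : Finset (Fin n)) :
    tyM (a • t) B = a • tyM t B := by
  unfold tyM
  rw [Finset.smul_sum]
  refine Finset.sum_congr rfl fun h _ => ?_
  rw [Pi.smul_apply, smul_comm]

theorem e1_ty_dl (h : Finset (Fin n)) (x : M) (B : Finset (Fin n)) :
    tyM (dl h x) B = if h ⊆ B then ((2 : ℤ) ^ ((h.card + 1) / 2)) • x else 0 := by
  unfold tyM dl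
  by_cases hB : h ⊆ B
  · rw [if_pos hB, Finset.sum_eq_single h]
    · rw [Pi.single_eq_same]
    · intro k _ hk
      rw [Pi.single_eq_of_ne hk, smul_zero]
    · intro hk
      exact absurd (mem_powerset.2 hB) hk
  · rw [if_neg hB]
    refine Finset.sum_eq_zero fun k hk => ?_
    have : k ≠ h := by
      rintro rfl
      exact hB (mem_powerset.1 hk)
    rw [Pi.single_eq_of_ne this, smul_zero]

theorem CS.tau_add (B : Finset (Fin n)) (t u : Finset (Fin n) → M) :
    S.tau c B (t + u) = S.tau c B t + S.tau c B u := by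
  unfold CS.tau
  rw [← Finset.sum_add_distrib]
  refine Finset.sum_congr rfl fun σ _ => ?_
  rw [e1_ty_add, e1_cj_add, smul_add]

theorem e1_tau_neg (B : Finset (Fin n)) (t : Finset (Fin n) → M) :
    S.tau c B (-t) = - S.tau c B t := by
  unfold CS.tau
  rw [← Finset.sum_neg_distrib]
  refine Finset.sum_congr rfl fun σ _ => ?_
  rw [e1_ty_neg, e1_cj_neg, smul_neg]

theorem e1_tau_zero (B : Finset (Fin n)) : S.tau c B (0 : Finset (Fin n) → M) = 0 := by
  unfold CS.tau
  refine Finset.sum_eq_zero fun σ _ => ?_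
  rw [e1_ty_zero, e1_cj_zero, smul_zero]

theorem e1_mem_map (σ : Perm (Fin n)) (B : Finset (Fin n)) (x : Fin n) :
    x ∈ B.map (σ⁻¹ : Perm (Fin n)).toEmbedding ↔ σ x ∈ B := by
  rw [Finset.mem_map]
  constructor
  · rintro ⟨y, hy, rfl⟩
    simpa using hy
  · intro h
    exact ⟨σ x, h, by simp⟩

/-- the involution argument -/
theorem e1_tau_zero_of (B : Finset (Fin n)) {i j : Fin n} (hij : (j : ℕ) = i + 1)
    (hc : c i = c j) (t : Finset (Fin n) → M)
    (ht : ∀ B' : Finset (Fin n), ∀ B'' : Finset (Fin n),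
      (∀ x, x ∈ B'' ↔ swap i j x ∈ B') →
      tyM t B' + (if i ∈ B' ∧ j ∈ B' then (-1 : ℤ) else 1) • S.cj (swap i j) (tyM t B'') = 0) :
    S.tau c B t = 0 := by
  classical
  have hne : i ≠ j := by
    intro h; rw [h] at hij; omega
  have hcs : ∀ σ : Perm (Fin n), c ∘ σ = c → c ∘ (σ * swap i j : Perm (Fin n)) = c := by
    intro σ hσ
    funext x
    have h1 : c ((σ * swap i j : Perm (Fin n)) x) = c (swap i j x) := congrFun hσ (swap i j x)
    simp only [Function.comp_apply]
    rw [h1]
    by_cases hx : x = i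
    · rw [hx, swap_apply_left, hc]
    · by_cases hx' : x = j
      · rw [hx', swap_apply_right, hc]
      · rw [swap_apply_of_ne_of_ne hx hx']
  unfold CS.tau
  refine Finset.sum_involution (fun σ _ => σ * swap i j) ?_ ?_ ?_ ?_
  · intro σ _
    have h1 := ht (B.map (σ⁻¹ : Perm (Fin n)).toEmbedding)
      (B.map ((σ * swap i j)⁻¹ : Perm (Fin n)).toEmbedding) (by
        intro x
        rw [e1_mem_map, e1_mem_map]; rfl)
    simp only [e1_mem_map] at h1
    rw [e1_sg_swap σ B hij, e1_cj_mul]
    have h2 : (((if σ i ∈ B ∧ σ j ∈ B then (-1 : ℤ) else 1) * sgB σ B) •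
        S.cj σ (S.cj (swap i j) (tyM t (B.map ((σ * swap i j)⁻¹ : Perm (Fin n)).toEmbedding)))) =
        sgB σ B • S.cj σ ((if σ i ∈ B ∧ σ j ∈ B then (-1 : ℤ) else 1) •
          S.cj (swap i j) (tyM t (B.map ((σ * swap i j)⁻¹ : Perm (Fin n)).toEmbedding))) := by
      rw [e1_cj_zsmul, smul_smul, mul_comm]
    rw [h2, ← smul_add, ← e1_cj_add, h1, e1_cj_zero, smul_zero]
  · intro σ _ _ h
    have h1 : swap i j = 1 := by
      have := congrArg (fun τ => σ⁻¹ * τ) h
      simpa using this
    exact hne (by simpa using congrArg (fun τ : Perm (Fin n) => τ j) h1)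
  · intro σ hσ
    rw [mem_filter] at hσ ⊢
    exact ⟨mem_univ _, hcs σ hσ.2⟩
  · intro σ _
    rw [mul_assoc, swap_mul_self, mul_one]

theorem e1_sub_iff {i j : Fin n} (h B' B'' : Finset (Fin n)) (hi : i ∉ h) (hj : j ∉ h)
    (hB : ∀ x, x ∈ B'' ↔ swap i j x ∈ B') : h ⊆ B'' ↔ h ⊆ B' := by
  have key : ∀ x ∈ h, swap i j x = x := fun x hx =>
    swap_apply_of_ne_of_ne (fun e => hi (e ▸ hx)) (fun e => hj (e ▸ hx))
  constructor
  · intro h1 x hx
    have := (hB x).1 (h1 hx)
    rwa [key x hx] at this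
  · intro h1 x hx
    rw [hB x, key x hx]
    exact h1 hx

theorem e1_pow1 (h : Finset (Fin n)) {i : Fin n} (hi : i ∉ h) :
    (2 : ℤ) ^ (((insert i h).card + 1) / 2) = kap h.card * 2 ^ ((h.card + 1) / 2) := by
  rw [card_insert_of_notMem hi]
  unfold kap
  rcases Nat.even_or_odd h.card with h1 | h1
  · rw [if_pos h1]
    obtain ⟨k, hk⟩ := h1
    rw [hk]
    have e1 : (k + k + 1 + 1) / 2 = k + 1 := by omega
    have e2 : (k + k + 1) / 2 = k := by omega
    rw [e1, e2, pow_succ]; ring
  · rw [if_neg (Nat.not_even_iff_odd.2 h1)]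
    obtain ⟨k, hk⟩ := h1
    rw [hk]
    have e1 : (2 * k + 1 + 1 + 1) / 2 = k + 1 := by omega
    have e2 : (2 * k + 1 + 1) / 2 = k + 1 := by omega
    rw [e1, e2]; ring

theorem e1_pow2 (h : Finset (Fin n)) {i j : Fin n} (hi : i ∉ h) (hj : j ∉ h) (hij : i ≠ j) :
    (2 : ℤ) ^ (((insert i (insert j h)).card + 1) / 2) = 2 * 2 ^ ((h.card + 1) / 2) := by
  have h1 : i ∉ insert j h := by
    rw [mem_insert]; rintro (e | e)
    · exact hij e
    · exact hi e
  rw [card_insert_of_notMem h1, card_insert_of_notMem hj]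
  have e1 : (h.card + 1 + 1 + 1) / 2 = (h.card + 1) / 2 + 1 := by omega
  rw [e1, pow_succ]; ring

theorem e1_kap (k : ℕ) (h : Finset (Fin n)) (hk : k = h.card) :
    kap k * (2 * (2 : ℤ) ^ ((h.card + 1) / 2)) = 2 * (kap h.card * 2 ^ ((h.card + 1) / 2)) := by
  rw [hk]; ring

/-- E1: the typed components of the relations vanish. -/
theorem CS.tau_rel (B : Finset (Fin n)) (t : Finset (Fin n) → M) (ht : t ∈ S.Rel c) :
    S.tau c B t = 0 := by
  classical
  unfold CS.Rel at ht
  induction ht using AddSubgroup.closure_induction with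
  | zero => exact e1_tau_zero S c B
  | add x y _ _ hx hy => rw [CS.tau_add, hx, hy, add_zero]
  | neg x _ hx => rw [e1_tau_neg, hx, neg_zero]
  | mem x hx =>
    obtain ⟨i, j, h, y, hij, hc, hi, hj, hx⟩ := hx
    have hne : i ≠ j := by
      intro e; rw [e] at hij; omega
    refine e1_tau_zero_of S c B hij hc x ?_
    intro B' B'' hB
    have hsub := e1_sub_iff h B' B'' hi hj hB
    have hBi : i ∈ B'' ↔ j ∈ B' := by rw [hB i, swap_apply_left]
    have hBj : j ∈ B'' ↔ i ∈ B' := by rw [hB j, swap_apply_right]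
    have p1 := e1_pow1 h hi
    have p1' := e1_pow1 h hj
    have p2 := e1_pow2 h hi hj hne
    set e : ℤ := 2 ^ ((h.card + 1) / 2) with he
    rcases hx with hx | hx | hx | hx <;> subst hx <;>
      simp only [e1_ty_add, e1_ty_sub, e1_ty_zsmul, e1_ty_dl, insert_subset_iff, hsub, hBi, hBj,
        p1, p1', p2] <;>
      by_cases hh : h ⊆ B' <;> by_cases h1 : i ∈ B' <;> by_cases h2 : j ∈ B' <;>
      simp only [hh, h1, h2, and_true, and_false, and_self, if_true, if_false,
        smul_zero, add_zero, sub_zero, zero_sub, e1_cj_zero, e1_cj_add, e1_cj_sub,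
        e1_cj_neg, e1_cj_zsmul, e1_cj_swap_swap] <;>
      module

theorem e1_tau_dl_sum (B h : Finset (Fin n)) (hB : B.card ≤ h.card) (y : M) :
    S.tau c B (dl h y) = ∑ σ ∈ univ.filter (fun σ : Perm (Fin n) => c ∘ σ = c),
      if h.map σ.toEmbedding = B then ((2 : ℤ) ^ ((h.card + 1) / 2)) • (sgB σ B • S.cj σ y)
        else 0 := by
  classical
  unfold CS.tau
  refine Finset.sum_congr rfl fun σ _ => ?_
  rw [e1_ty_dl]
  have hiff : h ⊆ B.map (σ⁻¹ : Perm (Fin n)).toEmbedding ↔ h.map σ.toEmbedding = B := by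
    constructor
    · intro h1
      refine Finset.eq_of_subset_of_card_le ?_ (by rw [card_map]; exact hB)
      intro x hx
      obtain ⟨z, hz, rfl⟩ := Finset.mem_map.1 hx
      exact (e1_mem_map σ B z).1 (h1 hz)
    · intro h1 x hx
      rw [e1_mem_map, ← h1]
      exact Finset.mem_map.2 ⟨x, hx, rfl⟩
  by_cases h1 : h.map σ.toEmbedding = B
  · rw [if_pos h1, if_pos (hiff.2 h1), e1_cj_zsmul, smul_comm]
  · rw [if_neg h1, if_neg (fun h2 => h1 (hiff.1 h2)), e1_cj_zero, smul_zero]

theorem e1_srt_eq (B h : Finset (Fin n)) (hs : Srt c B) (hh : Srt c h) (σ : Perm (Fin n))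
    (hσ : c ∘ σ = c) (hm : h.map σ.toEmbedding = B) : h = B := by
  classical
  have hcard : h.card = B.card := by rw [← hm, card_map]
  refine Finset.eq_of_subset_of_card_le ?_ hcard.ge
  intro x hx
  by_contra hxB
  have h1 : ((B.filter (fun z => c z = c x))).card = (h.filter (fun z => c z = c x)).card := by
    rw [← hm]
    symm
    refine Finset.card_bij (fun z _ => σ z) ?_ ?_ ?_
    · intro z hz
      rw [mem_filter] at hz ⊢
      refine ⟨Finset.mem_map.2 ⟨z, hz.1, rfl⟩, ?_⟩
      rw [← hz.2]; exact congrFun hσ z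
    · intro z _ w _ e; exact σ.injective e
    · intro w hw
      rw [mem_filter] at hw
      obtain ⟨z, hz, hzw⟩ := Finset.mem_map.1 hw.1
      refine ⟨z, mem_filter.2 ⟨hz, ?_⟩, hzw⟩
      have h2 : c (σ z) = c z := congrFun hσ z
      have h3 : σ z = w := hzw
      rw [← h2, h3]; exact hw.2
  have h2 : insert x (B.filter (fun z => c z = c x)) ⊆ h.filter (fun z => c z = c x) := by
    intro z hz
    rw [mem_insert] at hz
    rcases hz with rfl | hz
    · exact mem_filter.2 ⟨hx, rfl⟩
    · rw [mem_filter] at hz ⊢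
      refine ⟨?_, hz.2⟩
      rcases le_or_gt x z with h3 | h3
      · exact absurd (hs x z h3 hz.2.symm hz.1) hxB
      · exact hh z x h3.le hz.2 hx
  have h3 := Finset.card_le_card h2
  rw [card_insert_of_notMem (by rw [mem_filter]; exact fun h4 => hxB h4.1), h1] at h3
  omega

/-- E1b: leading components. -/
theorem CS.tau_dl (B h : Finset (Fin n)) (hB : B.card ≤ h.card) (hs : Srt c B) (hh : Srt c h)
    (y : M) : S.tau c B (dl h y) =
      if h = B then ((2 : ℤ) ^ ((B.card + 1) / 2)) • S.NB c B y else 0 := by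
  classical
  rw [e1_tau_dl_sum S c B h hB y]
  by_cases hhB : h = B
  · subst hhB
    rw [if_pos rfl]
    unfold CS.NB
    rw [← Finset.sum_filter, Finset.filter_filter, Finset.smul_sum]
  · rw [if_neg hhB]
    refine Finset.sum_eq_zero fun σ hσ => ?_
    rw [if_neg]
    intro h1
    exact hhB (e1_srt_eq c B h hs hh σ (mem_filter.1 hσ).2 h1)

theorem CS.tau_high (B h : Finset (Fin n)) (hB : B.card < h.card) (y : M) :
    S.tau c B (dl h y) = 0 := by
  classical
  rw [e1_tau_dl_sum S c B h hB.le y]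
  refine Finset.sum_eq_zero fun σ _ => ?_
  rw [if_neg]
  intro h1
  rw [← h1, card_map] at hB
  exact lt_irrefl _ hB

end Pool.PI34.XS

end

/-! ### part XS_E5 -/
section

/-! PI34, p = 2, block SEX, row E5: the even step. -/

set_option autoImplicit false
set_option linter.unusedSectionVars false

namespace Pool.PI34.XS

open Equiv Finset
open Pool.PI34.H4 (P g act emb As ZP JR cc AK Ac)
open Pool.PI34.XH (sgB Inter kap)

variable {N n m : ℕ} {M : Type} [AddCommGroup M] (S : CS N n m M)
variable {C : Type} [DecidableEq C] (c : Fin n → C)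

/-! ### invariance of the lowest part -/

section inv

variable {c}

/-- the invariance under `σ` at the place `B` -/
def CS.Iv (c : Fin n → C) (B : Finset (Fin n)) (σ : Perm (Fin n)) : Prop :=
  ∀ v : M, dl B (S.cj σ (S.Z (S.th v))) - dl B (S.Z (S.th v)) ∈ S.F c (B.card + 1)

theorem CS.Iv_one (B : Finset (Fin n)) : S.Iv c B 1 := by
  intro v
  rw [S.cj_one, sub_self]
  exact AddSubgroup.zero_mem _

theorem CS.Iv_mul (B : Finset (Fin n)) {σ τ : Perm (Fin n)} (hσ : S.Iv c B σ)
    (hτ : S.Iv c B τ) : S.Iv c B (σ * τ) := by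
  intro v
  have h1 := hσ (S.cj τ v)
  have h2 := hτ v
  rw [← S.cj_th, ← S.cj_Z] at h1
  rw [S.cj_mul]
  have h3 := AddSubgroup.add_mem _ h1 h2
  rw [sub_add_sub_cancel] at h3
  exact h3

theorem CS.Iv_adj (B : Finset (Fin n)) (i j : Fin n) (hij : (j : ℕ) = i + 1) (hc : c i = c j)
    (hi : i ∉ B) (hj : j ∉ B) : S.Iv c B (swap i j) := by
  intro v
  have h1 : dl B (S.cj (swap i j) (S.Z (S.th v))) - dl B (S.Z (S.th v))
      + dl (insert i (insert j B)) (S.Z (S.th v)) ∈ S.F c (B.card + 1) := by
    refine AddSubgroup.mem_sup_right (AddSubgroup.subset_closure ?_)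
    exact ⟨i, j, B, S.Z (S.th v), hij, hc, hi, hj, Or.inl rfl⟩
  have h2 : dl (insert i (insert j B)) (S.Z (S.th v)) ∈ S.F c (B.card + 1) := by
    refine AddSubgroup.mem_sup_left (AddSubgroup.subset_closure ?_)
    refine ⟨_, v, ?_, rfl⟩
    have hne : i ≠ j := by
      rintro rfl
      omega
    rw [card_insert_of_notMem, card_insert_of_notMem hj]
    · omega
    · rw [mem_insert, not_or]
      exact ⟨hne, hi⟩
  have h3 := AddSubgroup.sub_mem _ h1 h2
  rw [add_sub_cancel_right] at h3
  exact h3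

theorem CS.Iv_swap (hc : Inter c) (B : Finset (Fin n)) (hB : Srt c B) :
    ∀ (d : ℕ) (a b : Fin n), (b : ℕ) = a + d → c a = c b → a ∉ B → b ∉ B →
      S.Iv c B (swap a b) := by
  intro d
  induction d with
  | zero =>
    intro a b hab _ _ _
    have h : a = b := Fin.ext (by omega)
    rw [h, swap_self]
    exact S.Iv_one B
  | succ d ih =>
    intro a b hab hcab ha hb
    by_cases hd : d = 0
    · exact S.Iv_adj B a b (by omega) hcab ha hb
    · -- the neighbour of `a`
      have hlt : (a : ℕ) + 1 < n := by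
        have := b.2
        omega
      let l : Fin n := ⟨a + 1, hlt⟩
      have hl : (l : ℕ) = a + 1 := rfl
      have hal : a ≤ l := by
        rw [Fin.le_def]; omega
      have hlb : l ≤ b := by
        rw [Fin.le_def]; omega
      have hcl : c l = c a := hc a l b hal hlb hcab
      have hlB : l ∉ B := fun h => ha (hB a l hal hcl.symm h)
      have h1 : S.Iv c B (swap a l) := S.Iv_adj B a l hl hcl.symm ha hlB
      have h2 : S.Iv c B (swap l b) := ih l b (by omega) (hcl.trans hcab) hlB hb
      have hne : a ≠ b := by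
        rintro rfl
        omega
      have hne' : l ≠ b := by
        intro h
        have := congrArg Fin.val h
        omega
      have hne'' : a ≠ l := by
        intro h
        have := congrArg Fin.val h
        omega
      have h3 : swap a b = swap a l * swap l b * swap a l := by
        rw [swap_comm a l, swap_comm l b]
        exact (swap_mul_swap_mul_swap hne'.symm hne.symm).symm
      rw [h3]
      exact S.Iv_mul B (S.Iv_mul B h1 h2) h1

theorem CS.Iv_all (hc : Inter c) (B : Finset (Fin n)) (hB : Srt c B) (σ : Perm (Fin n))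
    (hσ : c ∘ σ = c) (hσB : ∀ x ∈ B, σ x = x) : S.Iv c B σ := by
  induction h : σ.support.card using Nat.strong_induction_on generalizing σ with
  | _ k ih =>
    by_cases h1 : σ = 1
    · rw [h1]
      exact S.Iv_one B
    · obtain ⟨a, ha⟩ : ∃ a, σ a ≠ a := by
        by_contra hne
        push Not at hne
        exact h1 (Equiv.ext hne)
      have haB : a ∉ B := fun h => ha (hσB a h)
      have hbB : σ a ∉ B := fun h => ha (σ.injective (hσB _ h))
      have hcab : c a = c (σ a) := (congrFun hσ a).symm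
      have hsw : S.Iv c B (swap a (σ a)) := by
        rcases le_total a (σ a) with hle | hle
        · exact S.Iv_swap hc B hB ((σ a : ℕ) - a) a (σ a) (by
            have : (a : ℕ) ≤ σ a := hle
            omega) hcab haB hbB
        · rw [swap_comm]
          exact S.Iv_swap hc B hB ((a : ℕ) - σ a) (σ a) a (by
            have : (σ a : ℕ) ≤ a := hle
            omega) hcab.symm hbB haB
      have hlt := Perm.card_support_swap_mul ha
      rw [h] at hlt
      have h2 : S.Iv c B (swap a (σ a) * σ) := by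
        refine ih _ hlt (swap a (σ a) * σ) ?_ ?_ rfl
        · funext x
          have h3 : ∀ y, c (swap a (σ a) y) = c y := by
            intro y
            by_cases hy : y = a
            · rw [hy, swap_apply_left, hcab]
            · by_cases hy' : y = σ a
              · rw [hy', swap_apply_right, hcab]
              · rw [swap_apply_of_ne_of_ne hy hy']
          rw [Function.comp_apply, Perm.mul_apply, h3]
          exact congrFun hσ x
        · intro x hx
          rw [Perm.mul_apply, hσB x hx, swap_apply_of_ne_of_ne]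
          · rintro rfl
            exact haB hx
          · rintro rfl
            exact hbB hx
      have h3 := S.Iv_mul B hsw h2
      rw [← mul_assoc, swap_mul_self, one_mul] at h3
      exact h3

end inv

/-! ### the sign -/

theorem sign_eq_inv (σ : Perm (Fin n)) : ((Perm.sign σ : ℤˣ) : ℤ)
    = (-1) ^ ((univ.filter fun p : Fin n × Fin n => p.1 < p.2 ∧ σ p.2 < σ p.1).card) := by
  rw [Perm.sign_eq_prod_prod_Ioi]
  have h1 : ∀ i : Fin n, (∏ j ∈ Ioi i, if σ i < σ j then (1 : ℤˣ) else -1)
      = ∏ j, if i < j ∧ σ j < σ i then (-1 : ℤˣ) else 1 := by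
    intro i
    rw [← Finset.prod_subset (Finset.subset_univ (Ioi i))]
    · refine Finset.prod_congr rfl fun j hj => ?_
      rw [mem_Ioi] at hj
      by_cases h : σ i < σ j
      · rw [if_pos h, if_neg (fun h' => absurd h'.2 (not_lt.2 h.le))]
      · rw [if_neg h, if_pos ⟨hj, lt_of_le_of_ne (not_lt.1 h)
          (fun e => hj.ne' (σ.injective e))⟩]
    · intro j _ hj
      rw [mem_Ioi] at hj
      rw [if_neg (fun h => hj h.1)]
  simp only [h1]
  rw [← Finset.prod_product', Finset.univ_product_univ, ← Finset.prod_filter,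
    Finset.prod_const]
  simp

theorem sgB_eq (hc : Inter c) (B : Finset (Fin n)) (hB : Srt c B) (τ α : Perm (Fin n))
    (hα : c ∘ α = c) (hαB : ∀ x, x ∉ B → α x = x) (hτ : ∀ x ∈ B, τ x = x) :
    sgB (τ * α) B = ((Perm.sign α : ℤˣ) : ℤ) := by
  rw [sign_eq_inv]
  unfold sgB
  congr 2
  ext p
  simp only [mem_filter, mem_univ, true_and]
  have hmem : ∀ x, x ∈ B → α x ∈ B := by
    intro x hx
    by_contra h
    have h1 := hαB _ h
    have h2 := α.injective h1
    rw [h2] at h
    exact h hx
  have hval : ∀ x, x ∈ B → (τ * α) x = α x := fun x hx => by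
    rw [Perm.mul_apply, hτ _ (hmem x hx)]
  have hmem2 : ∀ x, (τ * α) x ∈ B → x ∈ B := by
    intro x hx
    by_contra h
    rw [Perm.mul_apply, hαB x h] at hx
    have h1 := τ.injective (hτ _ hx)
    rw [h1] at hx
    exact h hx
  constructor
  · rintro ⟨h1, h2, h3, h4⟩
    refine ⟨h1, ?_⟩
    rw [hval _ (hmem2 _ h3), hval _ (hmem2 _ h4)] at h2
    exact h2
  · rintro ⟨h1, h2⟩
    have hp1 : p.1 ∈ B := by
      by_contra h
      have e1 := hαB _ h
      rw [e1] at h2
      have hp2 : p.2 ∈ B := by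
        by_contra h'
        rw [hαB _ h'] at h2
        exact absurd h1 (not_lt.2 h2.le)
      have e2 : c p.1 = c p.2 := by
        have e3 : c (α p.2) = c p.2 := congrFun hα p.2
        rw [← e3]
        exact hc (α p.2) p.1 p.2 h2.le h1.le e3
      exact h (hB p.1 p.2 h1.le e2 hp2)
    have hp2 : p.2 ∈ B := by
      by_contra h
      have e1 := hαB _ h
      rw [e1] at h2
      have e3 : c (α p.1) = c p.1 := congrFun hα p.1
      have e2 : c p.2 = c p.1 := hc p.1 p.2 (α p.1) h1.le h2.le e3.symm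
      exact h (hB p.2 (α p.1) h2.le (e2.trans e3.symm) (hmem _ hp1))
    refine ⟨h1, ?_, ?_, ?_⟩
    · rw [hval _ hp1, hval _ hp2]
      exact h2
    · rw [hval _ hp1]
      exact hmem _ hp1
    · rw [hval _ hp2]
      exact hmem _ hp2

/-! ### the norm of the stabiliser -/

/-- the colouring with the letters of `B` made different -/
def cB (B : Finset (Fin n)) (x : Fin n) : C ⊕ Fin n := if x ∈ B then Sum.inr x else Sum.inl (c x)

theorem cB_iff (B : Finset (Fin n)) (σ : Perm (Fin n)) :
    cB c B ∘ σ = cB c B ↔ c ∘ σ = c ∧ ∀ x ∈ B, σ x = x := by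
  constructor
  · intro h
    have h1 : ∀ x ∈ B, σ x = x := by
      intro x hx
      have h2 := congrFun h x
      unfold cB at h2
      rw [Function.comp_apply, if_pos hx] at h2
      split_ifs at h2 with h3
      exact Sum.inr_injective h2
    refine ⟨?_, h1⟩
    funext x
    rw [Function.comp_apply]
    by_cases hx : x ∈ B
    · rw [h1 x hx]
    · have h2 := congrFun h x
      unfold cB at h2
      rw [Function.comp_apply, if_neg hx] at h2
      split_ifs at h2 with h3
      exact Sum.inl_injective h2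
  · rintro ⟨h1, h2⟩
    funext x
    unfold cB
    rw [Function.comp_apply]
    by_cases hx : x ∈ B
    · rw [h2 x hx]
    · have h3 : σ x ∉ B := by
        intro h
        have h4 := σ.injective (h2 _ h)
        rw [h4] at h
        exact hx h
      rw [if_neg hx, if_neg h3]
      congr 1
      exact congrFun h1 x

theorem CS.A_AS (B : Finset (Fin n)) (y : M) : S.A (AS c m B) y
    = ∑ α ∈ univ.filter (fun σ : Perm (Fin n) => c ∘ σ = c ∧ ∀ x, x ∉ B → σ x = x),
      ((Perm.sign α : ℤˣ) : ℤ) • S.cj α y := by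
  unfold AS
  rw [S.A_sum]
  exact Finset.sum_congr rfl fun α _ => S.A_zsmul _ _ _

theorem CS.NB_eq (hc : Inter c) (B : Finset (Fin n)) (hB : Srt c B) (y : M) :
    S.NB c B y = ∑ τ ∈ univ.filter (fun τ : Perm (Fin n) => cB c B ∘ τ = cB c B),
      S.cj τ (S.A (AS c m B) y) := by
  have h1 : ∀ τ ∈ univ.filter (fun τ : Perm (Fin n) => cB c B ∘ τ = cB c B),
      S.cj τ (S.A (AS c m B) y)
        = ∑ α ∈ univ.filter (fun σ : Perm (Fin n) => c ∘ σ = c ∧ ∀ x, x ∉ B → σ x = x),
          sgB (τ * α) B • S.cj (τ * α) y := by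
    intro τ hτ
    rw [mem_filter, cB_iff] at hτ
    rw [S.A_AS, S.cj_sum]
    refine Finset.sum_congr rfl fun α hα => ?_
    rw [mem_filter] at hα
    rw [S.cj_zsmul, S.cj_mul, sgB_eq c hc B hB τ α hα.2.1 hα.2.2 hτ.2.2]
  rw [Finset.sum_congr rfl h1, ← Finset.sum_product']
  unfold CS.NB
  symm
  refine Finset.sum_bij (fun p _ => p.1 * p.2) ?_ ?_ ?_ ?_
  · rintro ⟨τ, α⟩ hp
    rw [mem_product, mem_filter, mem_filter, cB_iff] at hp
    obtain ⟨⟨_, hτ1, hτ2⟩, ⟨_, hα1, hα2⟩⟩ := hp
    dsimp only at hτ1 hτ2 hα1 hα2 ⊢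
    rw [mem_filter]
    refine ⟨mem_univ _, ?_, ?_⟩
    · funext x
      rw [Function.comp_apply, Perm.mul_apply]
      exact (congrFun hτ1 (α x)).trans (congrFun hα1 x)
    · have hmem : ∀ x, x ∈ B → α x ∈ B := by
        intro x hx
        by_contra h
        have h1 := hα2 _ h
        have h2 := α.injective h1
        rw [h2] at h
        exact h hx
      refine Finset.eq_of_subset_of_card_le ?_ (by rw [card_map])
      intro z hz
      rw [mem_map] at hz
      obtain ⟨x, hx, rfl⟩ := hz
      change (τ * α) x ∈ B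
      rw [Perm.mul_apply, hτ2 _ (hmem x hx)]
      exact hmem x hx
  · rintro ⟨τ, α⟩ hp ⟨τ', α'⟩ hp' he
    rw [mem_product, mem_filter, mem_filter, cB_iff] at hp hp'
    obtain ⟨⟨_, hτ1, hτ2⟩, ⟨_, hα1, hα2⟩⟩ := hp
    obtain ⟨⟨_, hτ1', hτ2'⟩, ⟨_, hα1', hα2'⟩⟩ := hp'
    dsimp only at hτ1 hτ2 hα1 hα2 hτ1' hτ2' hα1' hα2' he
    have hmem : ∀ α : Perm (Fin n), (∀ x, x ∉ B → α x = x) → ∀ x, x ∈ B → α x ∈ B := by
      intro α hα2 x hx
      by_contra h
      have h1 := hα2 _ h
      have h2 := α.injective h1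
      rw [h2] at h
      exact h hx
    have h2 : α = α' := by
      ext1 x
      by_cases hx : x ∈ B
      · have h3 := Equiv.congr_fun he x
        rw [Perm.mul_apply, Perm.mul_apply, hτ2 _ (hmem α hα2 x hx),
          hτ2' _ (hmem α' hα2' x hx)] at h3
        exact h3
      · rw [hα2 x hx, hα2' x hx]
    subst h2
    rw [mul_right_cancel he]
  · intro σ hσ
    rw [mem_filter] at hσ
    obtain ⟨_, hσ1, hσ2⟩ := hσ
    have hiff : ∀ x, x ∈ B ↔ σ x ∈ B := by
      intro x
      constructor
      · intro hx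
        rw [← hσ2]
        exact mem_map_of_mem σ.toEmbedding hx
      · intro hx
        rw [← hσ2, mem_map] at hx
        obtain ⟨y, hy, hxy⟩ := hx
        rw [← σ.injective hxy]
        exact hy
    let α : Perm (Fin n) := Perm.ofSubtype (σ.subtypePerm (fun x => (hiff x).symm))
    have hα1 : ∀ x ∈ B, α x = σ x := by
      intro x hx
      exact Perm.ofSubtype_apply_of_mem _ hx
    have hα2 : ∀ x, x ∉ B → α x = x := by
      intro x hx
      exact Perm.ofSubtype_apply_of_not_mem _ hx
    have hα3 : c ∘ α = c := by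
      funext x
      rw [Function.comp_apply]
      by_cases hx : x ∈ B
      · rw [hα1 x hx]
        exact congrFun hσ1 x
      · rw [hα2 x hx]
    have hinv' : ∀ x, α (α⁻¹ x) = x := fun x => α.apply_symm_apply x
    have hαi : ∀ x, c (α⁻¹ x) = c x := by
      intro x
      have h := congrFun hα3 (α⁻¹ x)
      rw [Function.comp_apply, hinv'] at h
      exact h.symm
    refine ⟨(σ * α⁻¹, α), ?_, ?_⟩
    · rw [mem_product, mem_filter, mem_filter, cB_iff]
      refine ⟨⟨mem_univ _, ?_, ?_⟩, ⟨mem_univ _, hα3, hα2⟩⟩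
      · funext x
        change c (σ (α⁻¹ x)) = c x
        rw [← hαi x]
        exact congrFun hσ1 _
      · intro x hx
        change σ (α⁻¹ x) = x
        have h1 : α⁻¹ x ∈ B := by
          by_contra h
          have h2 := hα2 _ h
          rw [hinv'] at h2
          rw [← h2] at h
          exact h hx
        rw [← hα1 _ h1, hinv']
    · change σ * α⁻¹ * α = σ
      rw [inv_mul_cancel_right]
  · intro p _
    rfl

/-! ### the even step -/

theorem CS.Z_A {q : P (Fin m ⊕ Fin n)} (hq : ∀ y : P (Fin m),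
    Commute (emb Function.Embedding.inl y) q) (x : M) : S.Z (S.A q x) = S.A q (S.Z x) := by
  unfold CS.Z
  rw [← S.A_mul, ← S.A_mul, (hq S.z).eq]

theorem AS_comm (B : Finset (Fin n)) (y : P (Fin m)) :
    Commute (emb Function.Embedding.inl y) (AS c m B) := by
  unfold AS
  refine Commute.sum_right _ _ _ fun σ _ => ?_
  exact Commute.smul_right (commute_inl_rr y σ) _

/-- E5: the even step. -/
theorem CS.even_step (hc : Inter c) (B : Finset (Fin n)) (hB : Srt c B)
    (q : P (Fin m ⊕ Fin n)) (hq : ∀ y : P (Fin m), Commute (emb Function.Embedding.inl y) q)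
    (hq2 : ∀ σ : Perm (Fin n), (∀ x ∈ B, σ x = x) → Commute (g (rr σ)) q) (w : M)
    (hw : S.NB c B (S.Z (S.th w)) = 0) :
    ∃ o : ℤ, Odd o ∧ o • dl B (S.A (q * AS c m B) (S.Z (S.th w))) ∈ S.F c (B.card + 1) := by
  -- the element
  set w' : M := S.A (AS c m B) (S.Z w) with hw'
  have e1 : S.A (AS c m B) (S.Z (S.th w)) = S.th w' := by
    rw [hw', S.Z_th, S.thA]
  have e2 : ∑ σ ∈ univ.filter (fun σ : Perm (Fin n) => cB c B ∘ σ = cB c B),
      S.A (g (rr σ)) (S.th w') = 0 := by
    rw [S.NB_eq c hc B hB, e1] at hw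
    exact hw
  -- the functional
  let lam : M →+ ((Finset (Fin n) → M) ⧸ S.F c (B.card + 1)) :=
    (QuotientAddGroup.mk' (S.F c (B.card + 1))).comp ((dlH B).comp
      ((S.A q).comp ((S.A (emb Function.Embedding.inl S.z)).comp S.th)))
  have hlam : ∀ v, lam v = QuotientAddGroup.mk' (S.F c (B.card + 1))
      (dl B (S.A q (S.Z (S.th v)))) := fun v => rfl
  have hinv : ∀ σ : Perm (Fin n), cB c B ∘ σ = cB c B → ∀ y, lam (S.A (g (rr σ)) y) = lam y := by
    intro σ hσ y
    rw [cB_iff] at hσ
    rw [hlam, hlam, QuotientAddGroup.mk'_apply, QuotientAddGroup.mk'_apply, QuotientAddGroup.eq]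
    have e3 : S.A q (S.Z (S.th y)) = S.Z (S.th (S.A q y)) := by
      rw [← S.Z_A hq, S.thA]
    have e4 : S.A q (S.Z (S.th (S.A (g (rr σ)) y))) = S.cj σ (S.Z (S.th (S.A q y))) := by
      rw [← e3]
      have e5 : S.A (g (rr σ)) y = S.cj σ y := rfl
      rw [e5, ← S.cj_th, ← S.cj_Z]
      unfold CS.cj
      rw [← S.A_mul, ← S.A_mul, (hq2 σ hσ.2).eq]
    rw [e3, e4, neg_add_eq_sub]
    have e6 := S.Iv_all hc B hB σ hσ.1 hσ.2 (S.A q y)
    have e7 := AddSubgroup.neg_mem _ e6
    rw [neg_sub] at e7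
    exact e7
  obtain ⟨o, ho, hol⟩ := S.ev (C ⊕ Fin n) (cB c B) w' e2 _ lam hinv
  refine ⟨o * (S.κ * S.h), ho.mul (S.hκ.mul S.hh), ?_⟩
  have e8 : S.A q (S.Z (S.th (S.th w'))) = (S.κ * S.h) • S.A (q * AS c m B) (S.Z (S.th w)) := by
    rw [S.thth, S.Z_zsmul, map_zsmul, hw', S.thA, ← S.Z_th, S.Z_A (AS_comm c B), S.ZZ,
      map_zsmul, map_zsmul, ← S.A_mul, smul_smul]
  rw [hlam, e8, dl_zsmul, ← map_zsmul, smul_smul] at hol
  exact (QuotientAddGroup.eq_zero_iff _).1 hol

end Pool.PI34.XS

end

/-! ### part XS_E2 -/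
section

/-! PI34, p = 2, block SEX: the abstract chase. -/

set_option autoImplicit false
set_option linter.unusedSectionVars false

namespace Pool.PI34.XS

open Equiv Finset
open Pool.PI34.H4 (P g act emb As ZP JR cc AK Ac)
open Pool.PI34.XH (sgB Inter kap)

variable {N n m : ℕ} {M : Type} [AddCommGroup M] (S : CS N n m M)
variable {C : Type} [DecidableEq C] (c : Fin n → C)

theorem CS.Rel_le_F' (j : ℕ) : S.Rel c ≤ S.F c j := le_sup_right

theorem CS.gen_mem_F (j : ℕ) (h : Finset (Fin n)) (hj : j ≤ h.card) (w : M) :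
    dl h (S.Z (S.th w)) ∈ S.F c j :=
  AddSubgroup.mem_sup_left (AddSubgroup.subset_closure ⟨h, w, hj, rfl⟩)

variable {c}

/-- an adjacent unsorted pair -/
theorem unsorted (hc : Inter c) (h : Finset (Fin n)) (i : Fin n) (hi : i ∉ h) :
    ∀ (d : ℕ) (j : Fin n), (j : ℕ) = i + d → c i = c j → j ∈ h →
      ∃ i' j' : Fin n, (j' : ℕ) = i' + 1 ∧ c i' = c j' ∧ i' ∉ h ∧ j' ∈ h := by
  intro d
  induction d with
  | zero =>
    intro j hj _ hjh
    have : j = i := Fin.ext (by simpa using hj)
    exact absurd (this ▸ hjh) hi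
  | succ d ih =>
    intro j hj hcj hjh
    have hk : (i : ℕ) + d < n := by
      have := j.2
      omega
    set k : Fin n := ⟨i + d, hk⟩ with hkd
    have hik : i ≤ k := by
      rw [Fin.le_def]
      simp [hkd]
    have hkj : k ≤ j := by
      rw [Fin.le_def]
      simp only [hkd]
      omega
    have hck : c k = c i := hc i k j hik hkj hcj
    by_cases hkh : k ∈ h
    · exact ih k rfl hck.symm hkh
    · refine ⟨k, j, ?_, ?_, hkh, hjh⟩
      · simp only [hkd]
        omega
      · rw [hck, hcj]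

variable (c)

/-- E2: sorting. -/
theorem CS.sort_one (hc : Inter c) (h : Finset (Fin n)) (w : M) :
    ∃ (B : Finset (Fin n)) (w' : M), Srt c B ∧ B.card = h.card ∧
      dl h (S.Z (S.th w)) - dl B (S.Z (S.th w')) ∈ S.F c (h.card + 1) := by
  classical
  suffices H : ∀ (s : ℕ) (h : Finset (Fin n)) (w : M), ∑ x ∈ h, (x : ℕ) = s →
      ∃ (B : Finset (Fin n)) (w' : M), Srt c B ∧ B.card = h.card ∧
        dl h (S.Z (S.th w)) - dl B (S.Z (S.th w')) ∈ S.F c (h.card + 1) from H _ h w rfl
  intro s
  induction s using Nat.strong_induction_on with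
  | _ s ih =>
    intro h w hs
    by_cases hS : Srt c h
    · exact ⟨h, w, hS, rfl, by rw [sub_self]; exact AddSubgroup.zero_mem _⟩
    · have h1 : ∃ i j : Fin n, i ≤ j ∧ c i = c j ∧ j ∈ h ∧ i ∉ h := by
        by_contra hne
        apply hS
        intro i j hij hcij hj
        by_contra hi
        exact hne ⟨i, j, hij, hcij, hj, hi⟩
      obtain ⟨i0, j0, hij0, hc0, hj0, hi0⟩ := h1
      obtain ⟨i, j, hij, hcij, hi, hj⟩ := unsorted hc h i0 hi0 ((j0 : ℕ) - i0) j0
        (by rw [Fin.le_def] at hij0; omega) hc0 hj0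
      set h0 := h.erase j with hh0
      have hh : insert j h0 = h := Finset.insert_erase hj
      have hne : i ≠ j := by
        intro he
        rw [he] at hij
        omega
      have hi1 : i ∉ h0 := fun hx => hi (Finset.mem_of_mem_erase hx)
      have hj1 : j ∉ h0 := Finset.notMem_erase _ _
      have hcard : h.card = h0.card + 1 := by
        rw [← hh, Finset.card_insert_of_notMem hj1]
      have hcard' : (insert i h0).card = h.card := by
        rw [Finset.card_insert_of_notMem hi1, hcard]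
      have hcard2 : (insert i (insert j h0)).card = h.card + 1 := by
        rw [hh, Finset.card_insert_of_notMem hi]
      have hsum : ∑ x ∈ insert i h0, (x : ℕ) < s := by
        rw [Finset.sum_insert hi1, ← hs, ← hh, Finset.sum_insert hj1]
        omega
      have hss : S.cj (swap i j) (S.Z (S.th (S.cj (swap i j) w))) = S.Z (S.th w) := by
        rw [S.cj_Z, S.cj_th, ← S.cj_mul, swap_mul_self, S.cj_one]
      have hrel : dl h (S.Z (S.th w)) - dl (insert i h0) (S.Z (S.th (S.cj (swap i j) w))) +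
          kap h0.card • dl (insert i (insert j h0)) (S.Z (S.th (S.cj (swap i j) w))) ∈
            S.Rel c := by
        refine AddSubgroup.subset_closure ⟨i, j, h0, S.Z (S.th (S.cj (swap i j) w)), hij, hcij,
          hi1, hj1, ?_⟩
        right; right; left
        rw [hss, hh]
      have hmem : dl h (S.Z (S.th w)) - dl (insert i h0) (S.Z (S.th (S.cj (swap i j) w))) ∈
          S.F c (h.card + 1) := by
        have h2 := S.Rel_le_F' c (h.card + 1) hrel
        have h3 : kap h0.card • dl (insert i (insert j h0))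
            (S.Z (S.th (S.cj (swap i j) w))) ∈ S.F c (h.card + 1) :=
          AddSubgroup.zsmul_mem _ (S.gen_mem_F c _ _ (le_of_eq hcard2.symm) _) _
        have h4 := AddSubgroup.sub_mem _ h2 h3
        rwa [add_sub_cancel_right] at h4
      obtain ⟨B, w', hB1, hB2, hB3⟩ := ih _ hsum (insert i h0) (S.cj (swap i j) w) rfl
      refine ⟨B, w', hB1, hB2.trans hcard', ?_⟩
      rw [hcard'] at hB3
      have h5 := AddSubgroup.add_mem _ hmem hB3
      rwa [sub_add_sub_cancel] at h5

/-- E2b -/
theorem CS.decomp (hc : Inter c) (j : ℕ) (u : Finset (Fin n) → M) (hu : u ∈ S.F c j) :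
    ∃ w : Finset (Fin n) → M, (∀ B, ¬ (Srt c B ∧ B.card = j) → w B = 0) ∧
      u - ∑ B, dl B (S.Z (S.th (w B))) ∈ S.F c (j + 1) := by
  classical
  have hZ0 : S.Z 0 = 0 := S.Z_zero
  obtain ⟨a, ha, b, hb, rfl⟩ := AddSubgroup.mem_sup.1 hu
  have key : ∃ w : Finset (Fin n) → M, (∀ B, ¬ (Srt c B ∧ B.card = j) → w B = 0) ∧
      a - ∑ B, dl B (S.Z (S.th (w B))) ∈ S.F c (j + 1) := by
    clear hu
    induction ha using AddSubgroup.closure_induction with
    | mem x hx =>
      obtain ⟨h, w, hj, rfl⟩ := hx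
      rcases lt_or_eq_of_le hj with hlt | heq
      · refine ⟨0, fun _ _ => rfl, ?_⟩
        have h1 : ∑ B : Finset (Fin n), dl B (S.Z (S.th ((0 : Finset (Fin n) → M) B))) = 0 := by
          refine Finset.sum_eq_zero fun B _ => ?_
          rw [Pi.zero_apply, map_zero, hZ0, dl_zero]
        rw [h1, sub_zero]
        exact S.gen_mem_F c _ _ hlt _
      · obtain ⟨B, w', hB1, hB2, hB3⟩ := S.sort_one c hc h w
        refine ⟨Pi.single B w', ?_, ?_⟩
        · intro B' hB'
          by_cases hBB : B' = B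
          · rw [hBB] at hB'
            exact absurd ⟨hB1, hB2.trans heq.symm⟩ hB'
          · exact Pi.single_eq_of_ne hBB _
        · have h1 : ∑ B' : Finset (Fin n), dl B' (S.Z (S.th ((Pi.single B w' :
              Finset (Fin n) → M) B'))) = dl B (S.Z (S.th w')) := by
            rw [Finset.sum_eq_single B]
            · rw [Pi.single_eq_same]
            · intro B' _ hB'
              rw [Pi.single_eq_of_ne hB', map_zero, hZ0, dl_zero]
            · intro hx
              exact absurd (Finset.mem_univ _) hx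
          rw [h1, heq]
          exact hB3
    | zero =>
      refine ⟨0, fun _ _ => rfl, ?_⟩
      have h1 : ∑ B : Finset (Fin n), dl B (S.Z (S.th ((0 : Finset (Fin n) → M) B))) = 0 := by
        refine Finset.sum_eq_zero fun B _ => ?_
        rw [Pi.zero_apply, map_zero, hZ0, dl_zero]
      rw [h1, sub_zero]
      exact AddSubgroup.zero_mem _
    | add x y _ _ hx hy =>
      obtain ⟨w1, h1, h2⟩ := hx
      obtain ⟨w2, h3, h4⟩ := hy
      refine ⟨w1 + w2, fun B hB => by rw [Pi.add_apply, h1 B hB, h3 B hB, add_zero], ?_⟩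
      have h5 : ∑ B : Finset (Fin n), dl B (S.Z (S.th ((w1 + w2) B))) =
          ∑ B, dl B (S.Z (S.th (w1 B))) + ∑ B, dl B (S.Z (S.th (w2 B))) := by
        rw [← Finset.sum_add_distrib]
        refine Finset.sum_congr rfl fun B _ => ?_
        rw [Pi.add_apply, map_add, S.Z_add, dl_add]
      rw [h5, add_sub_add_comm]
      exact AddSubgroup.add_mem _ h2 h4
    | neg x _ hx =>
      obtain ⟨w1, h1, h2⟩ := hx
      refine ⟨-w1, fun B hB => by rw [Pi.neg_apply, h1 B hB, neg_zero], ?_⟩
      have h5 : ∑ B : Finset (Fin n), dl B (S.Z (S.th ((-w1) B))) =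
          -∑ B, dl B (S.Z (S.th (w1 B))) := by
        rw [← Finset.sum_neg_distrib]
        refine Finset.sum_congr rfl fun B _ => ?_
        rw [Pi.neg_apply, map_neg, S.Z_neg, dl_neg]
      rw [h5]
      have h6 := AddSubgroup.neg_mem _ h2
      rwa [neg_sub'] at h6
  obtain ⟨w, hw1, hw2⟩ := key
  refine ⟨w, hw1, ?_⟩
  rw [add_sub_right_comm]
  exact AddSubgroup.add_mem _ hw2 (S.Rel_le_F' c _ hb)

end Pool.PI34.XS

end

/-! ### part XS_E4 -/
section

/-! PI34, p = 2, block SEX: row E4. -/

set_option autoImplicit false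
set_option linter.unusedSectionVars false

namespace Pool.PI34.XS

open Equiv Finset
open Pool.PI34.H4 (P g act emb As ZP JR cc AK Ac)
open Pool.PI34.XH (sgB Inter kap)

variable {N n m : ℕ} {M : Type} [AddCommGroup M] (S : CS N n m M)
variable {C : Type} [DecidableEq C] (c : Fin n → C)

/-- the letters of the catalyst and the odd letters -/
def e4i (m : ℕ) (B : Finset (Fin n)) : Fin m ⊕ {x // x ∈ B} ↪ Fin m ⊕ Fin n :=
  ⟨Sum.map id Subtype.val, Sum.map_injective.2 ⟨Function.injective_id, Subtype.val_injective⟩⟩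

/-- the colouring of the odd letters -/
abbrev e4c (B : Finset (Fin n)) : {x // x ∈ B} → C := fun t => c t.1

/-- the colouring of all the letters -/
def e4d (B : Finset (Fin n)) : Fin n → C ⊕ Fin n := fun x => if x ∈ B then Sum.inl (c x) else Sum.inr x

theorem e4_via_inr (σ : Perm (Fin n)) :
    σ.viaEmbedding (Function.Embedding.inr : Fin n ↪ Fin m ⊕ Fin n) = rr σ := by
  ext x
  rcases x with x | x
  · rw [Perm.viaEmbedding_apply_of_notMem]
    · rfl
    · rintro ⟨y, hy⟩
      exact Sum.inr_ne_inl hy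
  · exact Perm.viaEmbedding_apply σ (Function.Embedding.inr : Fin n ↪ Fin m ⊕ Fin n) x

theorem e4_AS (B : Finset (Fin n)) : AS c m B = emb Function.Embedding.inr (Ac (e4d c B)) := by
  unfold AS Ac
  rw [map_sum]
  have h1 : univ.filter (fun σ : Perm (Fin n) => c ∘ σ = c ∧ ∀ x, x ∉ B → σ x = x) =
      univ.filter (fun σ : Perm (Fin n) => e4d c B ∘ σ = e4d c B) := by
    ext σ
    rw [mem_filter, mem_filter]
    simp only [mem_univ, true_and]
    constructor
    · rintro ⟨h1, h2⟩
      funext x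
      simp only [Function.comp_apply]
      by_cases hx : x ∈ B
      · have hx' : σ x ∈ B := by
          by_contra hno
          have h3 := h2 _ hno
          rw [σ.injective h3] at hno
          exact hno hx
        unfold e4d
        rw [if_pos hx, if_pos hx']
        exact congrArg Sum.inl (congrFun h1 x)
      · rw [h2 x hx]
    · intro h
      have h3 : ∀ x, x ∉ B → σ x = x := by
        intro x hx
        have h4 := congrFun h x
        simp only [Function.comp_apply] at h4
        unfold e4d at h4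
        rw [if_neg hx] at h4
        by_cases hx' : σ x ∈ B
        · rw [if_pos hx'] at h4
          exact absurd h4 Sum.inl_ne_inr
        · rw [if_neg hx'] at h4
          exact Sum.inr_injective h4
      refine ⟨?_, h3⟩
      funext x
      simp only [Function.comp_apply]
      by_cases hx : x ∈ B
      · have h4 := congrFun h x
        simp only [Function.comp_apply] at h4
        unfold e4d at h4
        rw [if_pos hx] at h4
        by_cases hx' : σ x ∈ B
        · rw [if_pos hx'] at h4
          exact Sum.inl_injective h4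
        · rw [if_neg hx'] at h4
          exact absurd h4 Sum.inr_ne_inl
      · rw [h3 x hx]
  rw [h1]
  refine Finset.sum_congr rfl fun σ _ => ?_
  rw [H4.emb_zsmul, H4.emb_g, e4_via_inr]

theorem e4_Ac (B : Finset (Fin n)) :
    emb (e4i m B) (Ac (cc (Fin m) (e4c c B))) = AS c m B := by
  rw [e4_AS]
  have h1 : Ac (Sum.map id (e4d c B) : Fin m ⊕ Fin n → Fin m ⊕ (C ⊕ Fin n)) =
      emb (e4i m B) (Ac (cc (Fin m) (e4c c B))) := by
    apply H4.Ac_emb
    · intro x y
      rcases x with x | x <;> rcases y with y | y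
      · simp [e4i]
      · simp [e4i]
      · simp [e4i]
      · simp only [Sum.map_inr, Sum.inr.injEq, e4i, Function.Embedding.coeFn_mk, e4d]
        rw [if_pos x.2, if_pos y.2]
        exact ⟨fun h => congrArg Sum.inl h, fun h => Sum.inl_injective h⟩
    · intro z hz y hy
      rcases z with z | z
      · exact absurd ⟨Sum.inl z, rfl⟩ hz
      · have hzB : z ∉ B := fun h => hz ⟨Sum.inr ⟨z, h⟩, rfl⟩
        rcases y with y | y
        · rw [Sum.map_inl, Sum.map_inr] at hy
          exact absurd hy Sum.inl_ne_inr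
        · rw [Sum.map_inr, Sum.map_inr] at hy
          have h4 := Sum.inr_injective hy
          unfold e4d at h4
          rw [if_neg hzB] at h4
          by_cases hx' : y ∈ B
          · rw [if_pos hx'] at h4
            exact absurd h4 Sum.inl_ne_inr
          · rw [if_neg hx'] at h4
            exact congrArg Sum.inr (Sum.inr_injective h4)
  have h2 : Ac (Sum.map id (e4d c B) : Fin m ⊕ Fin n → Fin m ⊕ (C ⊕ Fin n)) =
      emb Function.Embedding.inr (Ac (e4d c B)) := by
    apply H4.Ac_emb
    · intro x y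
      simp
    · intro z hz y hy
      rcases z with z | z
      · rcases y with y | y
        · rw [Sum.map_inl, Sum.map_inl] at hy
          exact congrArg Sum.inl (Sum.inl_injective hy)
        · rw [Sum.map_inl, Sum.map_inr] at hy
          exact absurd hy Sum.inr_ne_inl
      · exact absurd ⟨z, rfl⟩ hz
  rw [← h1, h2]

/-- the functional of a set of odd letters kills `JR` -/
theorem e4_JR (hc : Inter c) (B : Finset (Fin n)) (hB : Srt c B) (w : M)
    (u : P (Fin m ⊕ {x // x ∈ B})) (hu : u ∈ JR N (cc (Fin m) (e4c c B))) :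
    dl B (S.A (emb (e4i m B) u) w) ∈ S.Rel c := by
  let Λ : P (Fin m ⊕ {x // x ∈ B}) →+ (Finset (Fin n) → M) :=
    (AddMonoidHom.single (fun _ : Finset (Fin n) => M) B).comp
      ((AddMonoidHom.eval w).comp ((S.A.comp (emb (e4i m B))).toAddMonoidHom))
  have hΛ : ∀ u, Λ u = dl B (S.A (emb (e4i m B) u) w) := fun u => rfl
  have h1 : JR N (cc (Fin m) (e4c c B)) ≤ (S.Rel c).comap Λ := by
    unfold JR
    rw [AddSubgroup.closure_le]
    rintro x (⟨i, j, a, hij, hcc, rfl⟩ | hx)
    · change Λ _ ∈ S.Rel c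
      rw [hΛ]
      rcases i with i | i <;> rcases j with j | j
      · exact absurd (congrArg Sum.inl (Sum.inl_injective hcc)) hij
      · exact absurd hcc Sum.inl_ne_inr
      · exact absurd hcc Sum.inr_ne_inl
      · have hne : i.1 ≠ j.1 := fun h => hij (congrArg Sum.inr (Subtype.ext h))
        have h2 := S.odd_swap c hc B hB i.1 j.1 hne i.2 j.2 (Sum.inr_injective hcc)
          (S.A (emb (e4i m B) a) w)
        have h3 : emb (e4i m B) ((1 + g (swap (Sum.inr i) (Sum.inr j))) * a) =
            emb (e4i m B) a + g (rr (swap i.1 j.1)) * emb (e4i m B) a := by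
          rw [map_mul, map_add, map_one, H4.emb_g, H4.swap_via, add_mul, one_mul]
          congr 3
          rw [← e4_via_inr, H4.swap_via]
          rfl
        have h4 : S.A (emb (e4i m B) ((1 + g (swap (Sum.inr i) (Sum.inr j))) * a)) w =
            S.A (emb (e4i m B) a) w + S.cj (swap i.1 j.1) (S.A (emb (e4i m B) a) w) := by
          rw [h3, map_add, map_mul]
          rfl
        rw [h4]
        have h5 : dl B (S.A (emb (e4i m B) a) w + S.cj (swap i.1 j.1) (S.A (emb (e4i m B) a) w)) =
            dl B (S.cj (swap i.1 j.1) (S.A (emb (e4i m B) a) w)) +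
              dl B (S.A (emb (e4i m B) a) w) := by
          unfold dl
          rw [Pi.single_add, add_comm]
        rw [h5]
        exact h2
    · change Λ _ ∈ S.Rel c
      rw [hΛ]
      have h2 : act N _ (emb (e4i m B) x) = 0 := H4.act_emb_eq_zero _ _ hx
      rw [S.ker _ h2]
      have h3 : dl B ((0 : AddMonoid.End M) w) = 0 := by
        unfold dl
        exact Pi.single_zero _
      rw [h3]
      exact (S.Rel c).zero_mem
  exact h1 hu

theorem e4_dl_sub (B : Finset (Fin n)) (x y : M) : dl B (x - y) = dl B x - dl B y :=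
  Pi.single_sub _ _ _

theorem e4_dl_zsmul (B : Finset (Fin n)) (k : ℤ) (x : M) : dl B (k • x) = k • dl B x :=
  map_zsmul (AddMonoidHom.single (fun _ : Finset (Fin n) => M) B) k x

theorem e4_A_zsmul (k : ℤ) (q : P (Fin m ⊕ Fin n)) (x : M) : S.A (k • q) x = k • S.A q x := by
  rw [map_zsmul]
  rfl

theorem e4_inl (B : Finset (Fin n)) (y : P (Fin m)) :
    emb (e4i m B) (emb Function.Embedding.inl y) = emb Function.Embedding.inl y := by
  rw [H4.emb_trans]
  rfl

/-- E4: telescope (blocks of size at most `N`). -/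
theorem CS.tele (hc : Inter c) (B : Finset (Fin n)) (hB : Srt c B)
    (hN : ∀ a, (B.filter (fun x => c x = a)).card ≤ N) :
    ∃ (q : P (Fin m ⊕ Fin n)) (F : ℤ), Odd F ∧
      (∀ y : P (Fin m), Commute (emb Function.Embedding.inl y) q) ∧
      (∀ σ : Perm (Fin n), (∀ x ∈ B, σ x = x) → Commute (g (rr σ)) q) ∧
      ∀ w : M, (N.factorial : ℤ) • (F • dl B (S.Z w) - dl B (S.A (q * AS c m B) (S.Z w)))
        ∈ S.Rel c := by
  have hN' : ∀ a, (univ.filter (fun t : {x // x ∈ B} => e4c c B t = a)).card ≤ N := by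
    intro a
    refine le_trans (le_of_eq ?_) (hN a)
    rw [← Finset.card_map (Function.Embedding.subtype fun x => x ∈ B)]
    congr 1
    ext x
    rw [mem_map, mem_filter]
    constructor
    · rintro ⟨t, ht, rfl⟩
      rw [mem_filter] at ht
      exact ⟨t.2, ht.2⟩
    · rintro ⟨hx, hxa⟩
      exact ⟨⟨x, hx⟩, mem_filter.2 ⟨mem_univ _, hxa⟩, rfl⟩
  obtain ⟨q, F, hF, hq, -, hJ⟩ := H4.telescope (T := {x // x ∈ B}) S.hz (e4c c B) hN'
    (univ.image (e4c c B))
  rw [← H4.Ac_eq_AK] at hJ
  refine ⟨emb (e4i m B) q, F, ?_, ?_, ?_, ?_⟩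
  · rw [← Int.not_even_iff_odd, even_iff_two_dvd]
    intro h2
    have := hF.isUnit_of_dvd' h2 dvd_rfl
    rw [Int.isUnit_iff] at this
    omega
  · intro y
    rw [← e4_inl (n := n) B y]
    exact (hq y).map _
  · intro σ hσ
    refine (H4.commute_of_g (e4i m B) (fun τ => ?_) q).symm
    unfold Commute SemiconjBy
    rw [← H4.g_mul, ← H4.g_mul]
    congr 1
    ext z
    simp only [Perm.mul_apply]
    by_cases hz : z ∈ Set.range (e4i m B)
    · obtain ⟨x, rfl⟩ := hz
      have h1 : ∀ x, rr σ (e4i m B x) = e4i m B x := by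
        intro x
        rcases x with x | x
        · rfl
        · exact congrArg Sum.inr (hσ x.1 x.2)
      rw [h1, Perm.viaEmbedding_apply, h1]
    · have h1 : ∀ z, z ∉ Set.range (e4i m B) → rr σ z ∉ Set.range (e4i m B) := by
        intro z hz h2
        apply hz
        rcases z with z | z
        · exact ⟨Sum.inl z, rfl⟩
        · obtain ⟨y, hy⟩ := h2
          rcases y with y | y
          · exact absurd hy Sum.inl_ne_inr
          · have h3 : y.1 = σ z := Sum.inr_injective hy
            have h4 : σ z = z := by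
              have h5 := hσ _ y.2
              rw [h3] at h5
              exact σ.injective h5
            exact ⟨Sum.inr y, by rw [h4] at h3; exact congrArg Sum.inr h3⟩
      rw [Perm.viaEmbedding_apply_of_notMem _ _ _ hz, Perm.viaEmbedding_apply_of_notMem _ _ _ (h1 z hz)]
  · intro w
    have h1 := e4_JR S c hc B hB w _ hJ
    rw [H4.emb_zsmul, e4_A_zsmul, e4_dl_zsmul, map_sub, map_mul (emb (e4i m B)),
      map_mul (emb (e4i m B)), H4.emb_zsmul, e4_Ac, e4_inl] at h1
    have h2 : S.A (F • emb Function.Embedding.inl S.z -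
        emb (e4i m B) q * AS c m B * emb Function.Embedding.inl S.z) w =
        F • S.Z w - S.A (emb (e4i m B) q * AS c m B) (S.Z w) := by
      unfold CS.Z
      rw [map_sub, map_mul, map_zsmul]
      rfl
    rw [h2, e4_dl_sub, e4_dl_zsmul] at h1
    exact h1

/-- E4b: a large block. -/
theorem CS.large (hc : Inter c) (B : Finset (Fin n)) (hB : Srt c B) (a : C)
    (hN : N < (B.filter (fun x => c x = a)).card) (w : M) :
    ((N + 1).factorial : ℤ) • dl B w ∈ S.Rel c := by
  obtain ⟨s, hs, hcard⟩ := Finset.exists_subset_card_eq (show N + 1 ≤ _ from hN)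
  obtain ⟨e0, he0⟩ : ∃ e0 : Fin (N + 1) ↪ Fin n, ∀ i, e0 i ∈ s :=
    ⟨(s.orderEmbOfFin hcard).toEmbedding, fun i => Finset.orderEmbOfFin_mem s hcard i⟩
  have heB : ∀ i, e0 i ∈ B := fun i => (mem_filter.1 (hs (he0 i))).1
  have hec : ∀ i, c (e0 i) = a := fun i => (mem_filter.1 (hs (he0 i))).2
  let ι : Fin (N + 1) ↪ Fin m ⊕ {x // x ∈ B} :=
    ⟨fun i => Sum.inr (⟨e0 i, heB i⟩ : {x // x ∈ B}), fun i j h => by
      have h5 : (⟨e0 i, heB i⟩ : {x // x ∈ B}) = ⟨e0 j, heB j⟩ := Sum.inr_injective h
      exact e0.injective (congrArg Subtype.val h5)⟩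
  have h1 := H4.JR_average (N := N) (cc (Fin m) (e4c c B)) ι (fun i j => by
    change Sum.inr (c (e0 i)) = Sum.inr (c (e0 j))
    rw [hec, hec]) 1
  have h2 : emb ι (As (Fin (N + 1))) * 1 ∈ JR N (cc (Fin m) (e4c c B)) := by
    rw [mul_one]
    apply AddSubgroup.subset_closure
    exact Or.inr (H4.act_emb_eq_zero _ _ (H4.act_As (by simp)))
  have h3 := (JR N (cc (Fin m) (e4c c B))).add_mem h1 h2
  rw [sub_add_cancel] at h3
  have h4 := e4_JR S c hc B hB w _ h3
  rw [H4.emb_zsmul, e4_A_zsmul, e4_dl_zsmul, map_one, map_one] at h4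
  exact h4

end Pool.PI34.XS

end

/-! ### part XS_E6 -/
section

/-! PI34, p = 2, block SEX: the abstract chase. -/

set_option autoImplicit false
set_option linter.unusedSectionVars false

namespace Pool.PI34.XS

open Equiv Finset
open Pool.PI34.H4 (P g act emb As ZP JR cc AK Ac)
open Pool.PI34.XH (sgB Inter kap)

variable {N n m : ℕ} {M : Type} [AddCommGroup M] (S : CS N n m M)
variable {C : Type} [DecidableEq C] (c : Fin n → C)

/-- E6: the key step. -/
theorem CS.key (hc : Inter c) (B : Finset (Fin n)) (hB : Srt c B) (w : M)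
    (hw : S.NB c B (S.Z (S.th w)) = 0) :
    ∃ (o : ℤ) (e : Finset (Fin n) → M), Odd o ∧ ((N + 1).factorial : ℤ) • e ∈ S.Rel c ∧
      o • dl B (S.Z (S.th w)) - e ∈ S.F c (B.card + 1) := by
  classical
  by_cases hN : ∀ a, (B.filter (fun x => c x = a)).card ≤ N
  · obtain ⟨q, F, hF, hq, hq2, ht⟩ := S.tele c hc B hB hN
    obtain ⟨o, ho, hE⟩ := S.even_step c hc B hB q hq hq2 w hw
    refine ⟨o * F, o • (F • dl B (S.Z (S.th w)) - dl B (S.A (q * AS c m B) (S.Z (S.th w)))),
      ho.mul hF, ?_, ?_⟩
    · have h1 := ht (S.th w)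
      have h2 : (((N + 1).factorial : ℕ) : ℤ) = ((N : ℤ) + 1) * (N.factorial : ℤ) := by
        rw [Nat.factorial_succ]; push_cast; ring
      rw [h2, smul_comm, mul_smul]
      exact AddSubgroup.zsmul_mem _ (AddSubgroup.zsmul_mem _ h1 _) _
    · have h3 : (o * F) • dl B (S.Z (S.th w)) -
          o • (F • dl B (S.Z (S.th w)) - dl B (S.A (q * AS c m B) (S.Z (S.th w)))) =
          o • dl B (S.A (q * AS c m B) (S.Z (S.th w))) := by
        rw [smul_sub, mul_smul]
        abel
      rw [h3]
      exact hE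
  · push_neg at hN
    obtain ⟨a, ha⟩ := hN
    refine ⟨1, dl B (S.Z (S.th w)), odd_one, S.large c hc B hB a ha _, ?_⟩
    rw [one_smul, sub_self]
    exact AddSubgroup.zero_mem _

end Pool.PI34.XS

end

/-! ### part XS_E7 -/
section

/-! PI34, p = 2, block SEX, row E7: the descending induction. -/

set_option autoImplicit false
set_option linter.unusedSectionVars false

namespace Pool.PI34.XS

open Equiv Finset
open Pool.PI34.H4 (P g act emb As ZP JR cc AK Ac)
open Pool.PI34.XH (sgB Inter kap)

variable {N n m : ℕ} {M : Type} [AddCommGroup M] (S : CS N n m M)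
variable {C : Type} [DecidableEq C] (c : Fin n → C)

/-- `tau` as a homomorphism -/
noncomputable def CS.tauH (B : Finset (Fin n)) : (Finset (Fin n) → M) →+ M :=
  AddMonoidHom.mk' (S.tau c B) (S.tau_add c B)

theorem CS.tauH_apply (B : Finset (Fin n)) (t : Finset (Fin n) → M) :
    S.tauH c B t = S.tau c B t := rfl

theorem CS.F_top (j : ℕ) (hj : n < j) : S.F c j = S.Rel c := by
  have h : {t | ∃ (h : Finset (Fin n)) (w : M), j ≤ h.card ∧ t = dl h (S.Z (S.th w))} = ∅ := by
    rw [Set.eq_empty_iff_forall_notMem]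
    rintro t ⟨h, w, hh, -⟩
    have h1 : h.card ≤ n := by
      have := Finset.card_le_univ h
      rwa [Fintype.card_fin] at this
    omega
  unfold CS.F
  rw [h, AddSubgroup.closure_empty, bot_sup_eq]

theorem CS.Rel_le_F (j : ℕ) : S.Rel c ≤ S.F c j := le_sup_right

theorem CS.tau_F (B : Finset (Fin n)) (j : ℕ) (hj : B.card < j) (f : Finset (Fin n) → M)
    (hf : f ∈ S.F c j) : S.tau c B f = 0 := by
  have h1 : S.F c j ≤ (S.tauH c B).ker := by
    refine sup_le ?_ ?_
    · rw [AddSubgroup.closure_le]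
      rintro t ⟨h, w, hh, rfl⟩
      exact S.tau_high c B h (lt_of_lt_of_le hj hh) _
    · intro t ht
      exact S.tau_rel c B t ht
  exact h1 hf

/-- E7: the descending induction. -/
theorem CS.claim (hc : Inter c) (j : ℕ) (u : Finset (Fin n) → M) (hu : u ∈ S.F c j)
    (ht : ∀ B, S.tau c B u = 0) :
    ∃ o : ℤ, Odd o ∧ (o * ((N + 1).factorial : ℤ)) • u ∈ S.Rel c := by
  classical
  obtain ⟨k, hk⟩ : ∃ k : ℕ, n + 1 ≤ j + k := ⟨n + 1, by omega⟩
  induction k generalizing j u with
  | zero =>
    rw [S.F_top c j (by omega)] at hu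
    refine ⟨1, odd_one, ?_⟩
    exact AddSubgroup.zsmul_mem _ hu _
  | succ k ih =>
    obtain ⟨w, hw, hd⟩ := S.decomp c hc j u hu
    have hN : ∀ B, Srt c B ∧ B.card = j → S.NB c B (S.Z (S.th (w B))) = 0 := by
      intro B hB
      have h1 := S.tau_F c B (j + 1) (by omega) _ hd
      rw [← S.tauH_apply, map_sub, map_sum, S.tauH_apply, ht B, zero_sub, neg_eq_zero,
        Finset.sum_eq_single B] at h1
      · rw [S.tauH_apply, S.tau_dl c B B le_rfl hB.1 hB.1, if_pos rfl] at h1
        exact S.tf _ _ (pow_ne_zero _ two_ne_zero) h1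
      · intro B' _ hne
        by_cases hB' : Srt c B' ∧ B'.card = j
        · rw [S.tauH_apply, S.tau_dl c B B' (by omega) hB.1 hB'.1, if_neg hne]
        · rw [hw B' hB', map_zero, S.Z_zero, dl_zero, map_zero]
      · intro h
        exact absurd (mem_univ _) h
    have hkey : ∀ B : Finset (Fin n), ∃ (o : ℤ) (e : Finset (Fin n) → M), Odd o ∧
        ((N + 1).factorial : ℤ) • e ∈ S.Rel c ∧
        o • dl B (S.Z (S.th (w B))) - e ∈ S.F c (j + 1) := by
      intro B
      by_cases hB : Srt c B ∧ B.card = j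
      · have h1 := S.key c hc B hB.1 (w B) (hN B hB)
        rw [hB.2] at h1
        exact h1
      · refine ⟨1, 0, odd_one, ?_, ?_⟩
        · rw [smul_zero]
          exact AddSubgroup.zero_mem _
        · rw [hw B hB, map_zero, S.Z_zero, dl_zero, smul_zero, sub_zero]
          exact AddSubgroup.zero_mem _
    choose o e ho he hoe using hkey
    set O : ℤ := ∏ B, o B with hO
    have hOdd : Odd O := by
      rw [hO]
      exact Finset.prod_induction o Odd (fun a b ha hb => ha.mul hb) odd_one (fun B _ => ho B)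
    have hdiv : ∀ B, ∃ a : ℤ, O = a * o B := by
      intro B
      obtain ⟨a, ha⟩ := Finset.dvd_prod_of_mem o (mem_univ B)
      exact ⟨a, by rw [hO, ha, mul_comm]⟩
    choose a ha using hdiv
    set E : Finset (Fin n) → M := ∑ B, a B • e B with hE
    have hE1 : ((N + 1).factorial : ℤ) • E ∈ S.Rel c := by
      rw [hE, Finset.smul_sum]
      refine AddSubgroup.sum_mem _ fun B _ => ?_
      rw [smul_comm]
      exact AddSubgroup.zsmul_mem _ (he B) _
    have hf : O • u - E ∈ S.F c (j + 1) := by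
      have h1 : O • u - E = O • (u - ∑ B, dl B (S.Z (S.th (w B)))) +
          ∑ B, a B • (o B • dl B (S.Z (S.th (w B))) - e B) := by
        have h2 : ∑ B, a B • (o B • dl B (S.Z (S.th (w B))) - e B) =
            O • (∑ B, dl B (S.Z (S.th (w B)))) - E := by
          rw [Finset.smul_sum, hE, ← Finset.sum_sub_distrib]
          refine Finset.sum_congr rfl fun B _ => ?_
          rw [smul_sub, ← mul_smul, ← ha B]
        rw [h2, smul_sub]
        abel
      rw [h1]
      refine AddSubgroup.add_mem _ (AddSubgroup.zsmul_mem _ hd _) ?_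
      exact AddSubgroup.sum_mem _ fun B _ => AddSubgroup.zsmul_mem _ (hoe B) _
    have hE2 : ∀ B, S.tau c B E = 0 := by
      intro B
      have h1 := S.tau_rel c B _ hE1
      rw [← S.tauH_apply, map_zsmul] at h1
      exact S.tf _ _ (by exact_mod_cast Nat.factorial_ne_zero _) h1
    obtain ⟨o', ho', h'⟩ := ih (j + 1) (O • u - E) hf (fun B => by
      rw [← S.tauH_apply, map_sub, map_zsmul, S.tauH_apply, S.tauH_apply, ht B, hE2 B,
        smul_zero, sub_zero]) (by omega)
    refine ⟨o' * O, ho'.mul hOdd, ?_⟩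
    have h1 : (o' * O * ((N + 1).factorial : ℤ)) • u =
        (o' * ((N + 1).factorial : ℤ)) • (O • u - E) +
          o' • ((N + 1).factorial : ℤ) • E := by
      rw [smul_sub, ← mul_smul, ← mul_smul]
      have : o' * ((N + 1).factorial : ℤ) * O = o' * O * ((N + 1).factorial : ℤ) := by ring
      rw [this]
      abel
    rw [h1]
    exact AddSubgroup.add_mem _ h' (AddSubgroup.zsmul_mem _ hE1 _)

end Pool.PI34.XS

end

/-! ### part XS_E8 -/
section

/-! PI34, p = 2, block SEX: the abstract chase. -/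

set_option autoImplicit false
set_option linter.unusedSectionVars false

namespace Pool.PI34.XS

open Equiv Finset
open Pool.PI34.H4 (P g act emb As ZP JR cc AK Ac)
open Pool.PI34.XH (sgB Inter kap)

variable {N n m : ℕ} {M : Type} [AddCommGroup M] (S : CS N n m M)
variable {C : Type} [DecidableEq C] (c : Fin n → C)

/-- E8: THE CHASE. -/
theorem CS.chase (hc : Inter c) (t : Finset (Fin n) → M) (ht : ∀ B, S.tau c B t = 0)
    (W : Type) [AddCommGroup W] (psi : Finset (Fin n) → (M →+ W))
    (hr : ∀ i j : Fin n, (j : ℕ) = i + 1 → c i = c j → ∀ (h : Finset (Fin n)) (y : M),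
      i ∉ h → j ∉ h →
        psi h (S.cj (swap i j) y) = psi h y - psi (insert i (insert j h)) y ∧
        psi (insert i h) (S.cj (swap i j) y) =
          psi (insert j h) y - kap h.card • psi (insert i (insert j h)) y ∧
        psi (insert j h) (S.cj (swap i j) y) =
          psi (insert i h) y - kap h.card • psi (insert i (insert j h)) y ∧
        psi (insert i (insert j h)) (S.cj (swap i j) y) = - psi (insert i (insert j h)) y) :
    ∃ o : ℤ, Odd o ∧ (o * ((N + 1).factorial : ℤ)) • ∑ h, psi h (S.Z (S.th (t h))) = 0 := by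
  classical
  set u : Finset (Fin n) → M := fun h => S.Z (S.th (t h)) with hu
  have husum : ∑ h : Finset (Fin n), dl h (S.Z (S.th (t h))) = u := by
    rw [hu]
    exact Finset.univ_sum_single (fun h => S.Z (S.th (t h)))
  have huF : u ∈ S.F c 0 := by
    rw [← husum]
    refine AddSubgroup.sum_mem _ fun h _ => ?_
    exact AddSubgroup.mem_sup_left (AddSubgroup.subset_closure ⟨h, t h, Nat.zero_le _, rfl⟩)
  have hZsum : ∀ {ι : Type} (s : Finset ι) (f : ι → M),
      S.Z (∑ x ∈ s, f x) = ∑ x ∈ s, S.Z (f x) := fun s f => map_sum (S.A _) f s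
  have hZz : ∀ (a : ℤ) (x : M), S.Z (a • x) = a • S.Z x := fun a x => map_zsmul (S.A _) a x
  have htau : ∀ B, S.tau c B u = 0 := by
    intro B
    have h1 : S.tau c B u = S.Z (S.th (S.tau c B t)) := by
      unfold CS.tau tyM
      rw [map_sum, hZsum]
      refine Finset.sum_congr rfl fun σ _ => ?_
      rw [map_zsmul, hZz, ← S.cj_th, ← S.cj_Z, map_sum, hZsum]
      congr 2
      refine Finset.sum_congr rfl fun h _ => ?_
      rw [map_zsmul, hZz]
    rw [h1, ht B, map_zero]
    exact map_zero (S.A _)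
  obtain ⟨o, ho, hR⟩ := S.claim c hc 0 u huF htau
  refine ⟨o, ho, ?_⟩
  let Ps : (Finset (Fin n) → M) →+ W :=
    ∑ h : Finset (Fin n), (psi h).comp (Pi.evalAddMonoidHom (fun _ => M) h)
  have hPs : ∀ f, Ps f = ∑ h, psi h (f h) := by
    intro f
    simp [Ps]
  have hdl : ∀ (h : Finset (Fin n)) (y : M), Ps (dl h y) = psi h y := by
    intro h y
    rw [hPs, Finset.sum_eq_single h]
    · simp [dl]
    · intro b _ hb
      rw [dl, Pi.single_eq_of_ne hb, map_zero]
    · intro hh
      exact absurd (Finset.mem_univ h) hh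
  have hker : S.Rel c ≤ Ps.ker := by
    rw [CS.Rel, AddSubgroup.closure_le]
    rintro f ⟨i, j, h, y, hij, hcij, hi, hj, hf⟩
    obtain ⟨r1, r2, r3, r4⟩ := hr i j hij hcij h y hi hj
    change Ps f = 0
    rcases hf with hf | hf | hf | hf
    · rw [hf, map_add, map_sub, hdl, hdl, hdl, r1]
      abel
    · rw [hf, map_add, map_sub, map_zsmul, hdl, hdl, hdl, r2]
      abel
    · rw [hf, map_add, map_sub, map_zsmul, hdl, hdl, hdl, r3]
      abel
    · rw [hf, map_add, hdl, hdl, r4]
      abel
  have h0 : Ps ((o * ((N + 1).factorial : ℤ)) • u) = 0 := hker hR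
  rw [map_zsmul, hPs] at h0
  exact h0

end Pool.PI34.XS

end
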