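import Pool.Agent.LibPI54.M32
import Pool.Agent.LibPI54.M43
import Pool.Agent.LibPI54.M46
import Pool.Agent.LibPI54.M52
import Pool.Agent.LibPI54.M53

/-! ### part V_Str -/
section

/-!
PI34, block VAL, file 6: the plain string system of an exotic one, with the letters
`x i l = ρ_i (b_l) P_l + ρ_i (d b_l) Q_l`.
-/

set_option autoImplicit false
set_option linter.unusedSectionVars false

namespace Pool.PI34.VL

open Equiv Finset Matrix
open Pool.PI34.BA
open Pool.PI34.XX (ExStr)

section hom

variable {ι Φ U : Type} [Fintype ι] [DecidableEq ι] [Ring Φ] [Ring U] (S : ExStr ι Φ U) (z : ι)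

/-- the coefficients in `U` -/
noncomputable def chi : C2 →+* U :=
  (QuadraticAlgebra.lift (R := ℤ) (a := 2) (b := 0) (A := U) ⟨S.ρ z S.q, by
    rw [← map_mul, S.q_sq, map_ofNat, zero_smul, add_zero, zsmul_one]
    norm_cast⟩ : C2 →ₐ[ℤ] U).toRingHom

theorem chi_q2 : chi S z q2 = S.ρ z S.q := by
  change (q2.re : ℤ) • (1 : U) + (q2.im : ℤ) • S.ρ z S.q = S.ρ z S.q
  simp [q2]

theorem chi_comm (c : C2) (x : U) : chi S z c * x = x * chi S z c := by
  change ((c.re : ℤ) • (1 : U) + (c.im : ℤ) • S.ρ z S.q) * x =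
    x * ((c.re : ℤ) • (1 : U) + (c.im : ℤ) • S.ρ z S.q)
  rw [add_mul, mul_add, smul_mul_assoc, mul_smul_comm, one_mul, mul_one, smul_mul_assoc,
    mul_smul_comm, S.ρ_qc]

variable (n : ℕ)

/-- the index set of the matrices -/
abbrev IX : Type := Fin n → Fin 3

/-- the operators as matrices over `U` -/
noncomputable def Jm : GG n →+* Matrix (IX n) (IX n) U :=
  (RingHom.mapMatrix (chi S z)).comp
    (((LinearMap.toMatrixAlgEquiv' : ((IX n → C2) →ₗ[C2] IX n → C2) ≃ₐ[C2] Matrix (IX n) (IX n) C2) :
      ((IX n → C2) →ₗ[C2] IX n → C2) →+* Matrix (IX n) (IX n) C2))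

variable {n}

theorem Jm_apply (e : GG n) (f g : IX n) :
    Jm S z n e f g = chi S z (ap e (Pi.single g 1) f) := by
  change chi S z (LinearMap.toMatrixAlgEquiv' (toE e) f g) = _
  rw [LinearMap.toMatrixAlgEquiv'_apply]
  rfl

/-- the scalar matrices -/
def sc (n : ℕ) : U →+* Matrix (IX n) (IX n) U := Matrix.scalar (IX n)

theorem sc_mul_apply (u : U) (M : Matrix (IX n) (IX n) U) (f g : IX n) :
    (sc n u * M) f g = u * M f g := by
  change ((Matrix.diagonal (fun _ => u) : Matrix (IX n) (IX n) U) * M) f g = _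
  rw [Matrix.diagonal_mul]

theorem mul_sc_apply (u : U) (M : Matrix (IX n) (IX n) U) (f g : IX n) :
    (M * sc n u) f g = M f g * u := by
  change (M * (Matrix.diagonal (fun _ => u) : Matrix (IX n) (IX n) U)) f g = _
  rw [Matrix.mul_diagonal]

theorem sc_Jm (u : U) (e : GG n) : sc n u * Jm S z n e = Jm S z n e * sc n u := by
  refine Matrix.ext fun f g => ?_
  rw [sc_mul_apply, mul_sc_apply, Jm_apply, chi_comm]

theorem Jm_smul (c : C2) (e : GG n) : Jm S z n (c • e) = sc n (chi S z c) * Jm S z n e := by
  refine Matrix.ext fun f g => ?_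
  rw [sc_mul_apply, Jm_apply, Jm_apply, ← map_mul]
  rfl

theorem Jm_q2 (e : GG n) : Jm S z n (q2 • e) = sc n (S.ρ z S.q) * Jm S z n e := by
  rw [Jm_smul, chi_q2]

/-- a row with one entry -/
theorem Jm_row1 (e : GG n) (f f1 : IX n) (h : ∀ v, ap e v f = v f1)
    (M : Matrix (IX n) (IX n) U) (g : IX n) : (Jm S z n e * M) f g = M f1 g := by
  rw [Matrix.mul_apply, Finset.sum_eq_single f1]
  · rw [Jm_apply, h, Pi.single_eq_same, map_one, one_mul]
  · intro b _ hb
    rw [Jm_apply, h, Pi.single_eq_of_ne (Ne.symm hb), map_zero, zero_mul]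
  · intro h
    exact absurd (mem_univ _) h

/-- a zero row -/
theorem Jm_row0 (e : GG n) (f : IX n) (h : ∀ v, ap e v f = 0)
    (M : Matrix (IX n) (IX n) U) (g : IX n) : (Jm S z n e * M) f g = 0 := by
  rw [Matrix.mul_apply]
  refine Finset.sum_eq_zero fun b _ => ?_
  rw [Jm_apply, h, map_zero, zero_mul]

/-- a row with two entries -/
theorem Jm_row2 (e : GG n) (f f1 f2 : IX n) (c : C2) (h : ∀ v, ap e v f = v f1 - c * v f2)
    (M : Matrix (IX n) (IX n) U) (g : IX n) :
    (Jm S z n e * M) f g = M f1 g - chi S z c * M f2 g := by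
  rw [Matrix.mul_apply]
  have h1 : ∀ b, Jm S z n e f b * M b g = (if f1 = b then M b g else 0) -
      (if f2 = b then chi S z c * M b g else 0) := by
    intro b
    rw [Jm_apply, h, map_sub, map_mul, sub_mul]
    congr 1
    · by_cases e1 : f1 = b
      · rw [if_pos e1, ← e1, Pi.single_eq_same, map_one, one_mul]
      · rw [if_neg e1, Pi.single_eq_of_ne e1, map_zero, zero_mul]
    · by_cases e1 : f2 = b
      · rw [if_pos e1, ← e1, Pi.single_eq_same, map_one, mul_one]
      · rw [if_neg e1, Pi.single_eq_of_ne e1, map_zero, mul_zero, zero_mul]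
  rw [Finset.sum_congr rfl fun b _ => h1 b, Finset.sum_sub_distrib, Finset.sum_ite_eq,
    Finset.sum_ite_eq, if_pos (mem_univ _), if_pos (mem_univ _)]

/-- the vacuum column -/
theorem Jm_col (e : GG n) (h : ap e (Pi.single 0 1) = Pi.single 0 1)
    (M : Matrix (IX n) (IX n) U) (f : IX n) : (M * Jm S z n e) f 0 = M f 0 := by
  rw [Matrix.mul_apply, Finset.sum_eq_single 0]
  · rw [Jm_apply, h, Pi.single_eq_same, map_one, mul_one]
  · intro b _ hb
    rw [Jm_apply, h, Pi.single_eq_of_ne hb, map_zero, mul_zero]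
  · intro h
    exact absurd (mem_univ _) h

end hom

section ex

variable {ι Φ U : Type} [Fintype ι] [DecidableEq ι] [Ring Φ] [Ring U] (S : ExStr ι Φ U)

theorem two_eq (x : Φ) : S.q * (S.q * x) = x + x := by
  rw [← mul_assoc, S.q_sq, two_mul]

theorem δ_d (a : Φ) : S.δ * S.d a = S.q * (S.δ * a) - S.δ * a * S.δ := by
  unfold ExStr.d
  have h1 : S.δ * (S.δ * a) = S.q * (S.δ * a) := by rw [← mul_assoc, S.δ_sq, mul_assoc]
  have h2 : S.δ * (S.q * (S.δ * a * S.δ)) = S.δ * a * S.δ + S.δ * a * S.δ := by
    rw [← mul_assoc, ← S.q_comm, mul_assoc, ← mul_assoc, ← mul_assoc, ← mul_assoc]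
    rw [mul_assoc S.q S.δ S.δ, S.δ_sq]
    rw [← two_eq S (S.δ * a * S.δ)]
    simp only [mul_assoc]
  have h3 : S.δ * (a * S.δ) = S.δ * a * S.δ := (mul_assoc _ _ _).symm
  rw [mul_sub, mul_add, h1, h2, h3]
  abel

theorem d_δ (a : Φ) : S.d a * S.δ = S.q * (a * S.δ) - S.δ * a * S.δ := by
  unfold ExStr.d
  have h1 : a * S.δ * S.δ = S.q * (a * S.δ) := by
    rw [mul_assoc, S.δ_sq, ← mul_assoc, ← S.q_comm, mul_assoc]
  have h2 : S.q * (S.δ * a * S.δ) * S.δ = S.δ * a * S.δ + S.δ * a * S.δ := by
    rw [mul_assoc, mul_assoc, S.δ_sq, ← two_eq S (S.δ * a * S.δ)]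
    congr 1
    rw [← mul_assoc, ← S.q_comm, mul_assoc]
  rw [sub_mul, add_mul, h1, h2]
  abel

/-- `d (d a) = q (d a)` -/
theorem d_d (a : Φ) : S.d (S.d a) = S.q * S.d a := by
  have h1 := δ_d S a
  have h2 := d_δ S a
  have h3 : S.δ * S.d a * S.δ = 0 := by
    have e : S.δ * a * S.δ * S.δ = S.q * (S.δ * a * S.δ) := by
      rw [mul_assoc (S.δ * a), S.δ_sq, ← mul_assoc, ← S.q_comm, mul_assoc]
    rw [h1, sub_mul, e, mul_assoc S.q, sub_self]
  change S.δ * S.d a + S.d a * S.δ - S.q * (S.δ * S.d a * S.δ) = _
  rw [h3, mul_zero, sub_zero, h1, h2]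
  unfold ExStr.d
  rw [mul_sub, mul_add, two_eq]
  abel

variable {i j : ι} (hij : i ≠ j) (a b : Φ)

include hij

theorem cm : S.ρ i a * S.ρ j b = S.ρ j b * S.ρ i a + S.ρ i (S.d a) * S.ρ j (S.d b) :=
  S.comm i j hij a b

theorem cm_d : S.ρ i a * S.ρ j (S.d b) = S.ρ j (S.d b) * S.ρ i a +
    S.ρ i S.q * (S.ρ i (S.d a) * S.ρ j (S.d b)) := by
  rw [cm S hij, d_d, map_mul, ← mul_assoc, ← S.ρ_qc j, mul_assoc, S.ρ_q j i]

theorem d_cm : S.ρ i (S.d a) * S.ρ j b = S.ρ j b * S.ρ i (S.d a) +
    S.ρ i S.q * (S.ρ i (S.d a) * S.ρ j (S.d b)) := by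
  rw [cm S hij, d_d, map_mul, mul_assoc]

theorem d_cm_d : S.ρ i (S.d a) * S.ρ j (S.d b) = -(S.ρ j (S.d b) * S.ρ i (S.d a)) := by
  have h1 := cm_d S hij (S.d a) b
  rw [d_d, map_mul, mul_assoc, ← mul_assoc (S.ρ i S.q) (S.ρ i S.q), ← map_mul, S.q_sq,
    map_ofNat, two_mul] at h1
  have h2 : S.ρ j (S.d b) * S.ρ i (S.d a) + S.ρ i (S.d a) * S.ρ j (S.d b) = 0 := by
    have h3 := sub_eq_zero.2 h1
    rw [← neg_eq_zero, ← h3]
    abel
  rw [add_comm] at h2
  exact eq_neg_of_add_eq_zero_left h2

end ex

section str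

variable {ι Φ U : Type} [Fintype ι] [DecidableEq ι] [Ring Φ] [Ring U] (S : ExStr ι Φ U) (z : ι)
variable {n : ℕ}

/-- the letters -/
noncomputable def lt (b : Fin n → Φ) (i : ι) (l : Fin n) : Matrix (IX n) (IX n) U :=
  sc n (S.ρ i (b l)) * Jm S z n (opP l) + sc n (S.ρ i (S.d (b l))) * Jm S z n (opQ l)

theorem sc_J_mul (u v : U) (e e' : GG n) : sc n u * Jm S z n e * (sc n v * Jm S z n e') =
    sc n (u * v) * Jm S z n (e * e') := by
  rw [map_mul, map_mul, mul_assoc, ← mul_assoc (Jm S z n e), ← sc_Jm, mul_assoc, mul_assoc]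

theorem lt_comm (b : Fin n → Φ) (i j : ι) (hij : i ≠ j) (l l' : Fin n) :
    lt S z b i l * lt S z b j l' = lt S z b j l' * lt S z b i l := by
  unfold lt
  simp only [mul_add, add_mul, sc_J_mul]
  set A := S.ρ i (b l)
  set dA := S.ρ i (S.d (b l))
  set B := S.ρ j (b l')
  set dB := S.ρ j (S.d (b l'))
  set q := S.ρ i S.q
  have hq : q = S.ρ z S.q := S.ρ_q i z
  have e1 : A * B = B * A + dA * dB := cm S hij _ _
  have e2 : A * dB = dB * A + q * (dA * dB) := cm_d S hij _ _
  have e3 : dA * B = B * dA + q * (dA * dB) := d_cm S hij _ _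
  have e4 : dB * dA = -(dA * dB) := by rw [d_cm_d S hij, neg_neg]
  have e5 : ∀ e : GG n, sc n (q * (dA * dB)) * Jm S z n e =
      sc n (dA * dB) * Jm S z n (q2 • e) := by
    intro e
    rw [Jm_q2, ← hq, S.ρ_qc i (dA * dB), map_mul (sc n) (dA * dB) q, mul_assoc]
  rw [e1, e2, e3, e4, map_add, map_add, map_add, map_neg, add_mul, add_mul, add_mul, neg_mul, e5,
    e5, opP_opP l' l, ← opP_opQ l l', ← opP_opQ l' l]
  have h := opQ_opQ l l'
  rw [h, map_sub, map_sub, map_sub, map_neg]
  rw [opP_opP l' l, ← opP_opQ l l']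
  simp only [mul_sub, mul_neg]
  abel

/-- the plain string system -/
noncomputable def PS (b : Fin n → Φ) : Str ι (FreeAlgebra ℤ (Fin n)) (Matrix (IX n) (IX n) U) :=
  Str.ofLetters (lt S z b) ((sc n : U →+* Matrix (IX n) (IX n) U).toMonoidHom.comp S.f)
    (fun i j hij l l' => lt_comm S z b i j hij l l')
    (fun σ i l => by
      change sc n (S.f σ) * lt S z b i l = lt S z b (σ i) l * sc n (S.f σ)
      unfold lt
      rw [mul_add, add_mul, ← mul_assoc, ← mul_assoc, ← map_mul, ← map_mul, S.f_ρ, S.f_ρ, map_mul,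
        map_mul, mul_assoc, mul_assoc, mul_assoc, mul_assoc, sc_Jm, sc_Jm])

theorem PS_s (b : Fin n → Φ) (σ : Perm ι) : (PS S z b).s σ = sc n (S.f σ) := rfl

theorem PS_ρ (b : Fin n → Φ) (i : ι) (l : Fin n) :
    (PS S z b).ρ i (FreeAlgebra.ι ℤ l) = lt S z b i l := ofLetters_rho_ι _ _ _ _ _ _

theorem anti_PS (b : Fin n → Φ) (T : Finset ι) :
    anti (PS S z b).s T = sc n (anti S.f T) := by
  unfold anti
  rw [map_sum]
  refine Finset.sum_congr rfl fun σ _ => ?_
  rw [map_zsmul, PS_s]

theorem Anti_PS (b : Fin n → Φ) {m : ℕ} (hA : Anti S.f m) : Anti (PS S z b).s m := by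
  intro T hT
  rw [anti_PS, hA T hT, map_zero]

end str

end Pool.PI34.VL

end

/-! ### part X_St1 -/
section

/-!
PI34, p = 2, block START, file 1: the star action of the adjacent transpositions on the coordinates.
-/

set_option autoImplicit false
set_option linter.unusedSectionVars false

namespace Pool.PI34.XH

open Equiv Finset
open Pool.PI34.H4 (P g act)

section sgB

variable {n : ℕ}

/-- the sign of an adjacent transposition -/
def e2 (i j : Fin n) (B : Finset (Fin n)) : ℤ := if i ∈ B ∧ j ∈ B then -1 else 1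

theorem sgB_prod (σ : Perm (Fin n)) (B : Finset (Fin n)) :
    sgB σ B = ∏ p : Fin n × Fin n,
      if p.1 < p.2 ∧ σ p.2 < σ p.1 ∧ σ p.1 ∈ B ∧ σ p.2 ∈ B then (-1 : ℤ) else 1 := by
  unfold sgB
  rw [← Finset.prod_const, Finset.prod_filter]

theorem sgB_one (B : Finset (Fin n)) : sgB 1 B = 1 := by
  rw [sgB_prod]
  refine Finset.prod_eq_one fun p _ => ?_
  rw [if_neg]
  rintro ⟨h1, h2, _⟩
  simp only [Perm.one_apply] at h2
  exact absurd h1 (not_lt.2 h2.le)

theorem mem_map_swap (i j u : Fin n) (B : Finset (Fin n)) :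
    u ∈ B.map (swap i j).toEmbedding ↔ swap i j u ∈ B := by
  rw [Finset.mem_map]
  constructor
  · rintro ⟨v, hv, rfl⟩
    simpa using hv
  · intro h
    exact ⟨swap i j u, h, by simp⟩

theorem map_swap_of_notMem {i j : Fin n} {h : Finset (Fin n)} (hi : i ∉ h) (hj : j ∉ h) :
    h.map (swap i j).toEmbedding = h := by
  ext u
  rw [mem_map_swap]
  by_cases h1 : u = i
  · subst h1
    rw [swap_apply_left]
    exact ⟨fun h => absurd h hj, fun h => absurd h hi⟩
  · by_cases h2 : u = j
    · subst h2
      rw [swap_apply_right]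
      exact ⟨fun h => absurd h hi, fun h => absurd h hj⟩
    · rw [swap_apply_of_ne_of_ne h1 h2]

theorem map_swap_of_mem {i j : Fin n} {h : Finset (Fin n)} (hi : i ∈ h) (hj : j ∈ h) :
    h.map (swap i j).toEmbedding = h := by
  ext u
  rw [mem_map_swap]
  by_cases h1 : u = i
  · subst h1
    rw [swap_apply_left]
    exact ⟨fun _ => hi, fun _ => hj⟩
  · by_cases h2 : u = j
    · subst h2
      rw [swap_apply_right]
      exact ⟨fun _ => hj, fun _ => hi⟩
    · rw [swap_apply_of_ne_of_ne h1 h2]

theorem sgB_swap_mul (i j : Fin n) (hij : (j : ℕ) = i + 1) (π : Perm (Fin n))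
    (B : Finset (Fin n)) :
    sgB (swap i j * π) B = e2 i j B * sgB π (B.map (swap i j).toEmbedding) := by
  classical
  have hne : i ≠ j := fun h => by rw [h] at hij; omega
  have hlt' : i < j := by rw [Fin.lt_def]; omega
  obtain ⟨q, hq1, hq2⟩ : ∃ q : Fin n × Fin n, q.1 < q.2 ∧
      ((π q.1 = i ∧ π q.2 = j) ∨ (π q.1 = j ∧ π q.2 = i)) := by
    rcases lt_or_gt_of_ne (show π⁻¹ i ≠ π⁻¹ j from fun h => hne (π⁻¹.injective h)) with h | h
    · exact ⟨(π⁻¹ i, π⁻¹ j), h, Or.inl ⟨by simp, by simp⟩⟩
    · exact ⟨(π⁻¹ j, π⁻¹ i), h, Or.inr ⟨by simp, by simp⟩⟩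
  have hord : ∀ u v : Fin n, u ≠ v → ¬ ((u = i ∧ v = j) ∨ (u = j ∧ v = i)) →
      (swap i j v < swap i j u ↔ v < u) := by
    intro u v huv hno
    have hv : ∀ x : Fin n, ((swap i j x : Fin n) : ℕ) =
        if (x : ℕ) = i then (j : ℕ) else if (x : ℕ) = j then (i : ℕ) else x := by
      intro x
      rw [swap_apply_def]
      simp only [← Fin.ext_iff]
      split_ifs <;> rfl
    rw [Fin.lt_def, Fin.lt_def, hv, hv]
    have h1 : (u : ℕ) ≠ v := fun e => huv (Fin.ext e)
    have h2 : ¬ (((u : ℕ) = i ∧ (v : ℕ) = j) ∨ ((u : ℕ) = j ∧ (v : ℕ) = i)) := by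
      intro h
      apply hno
      rcases h with ⟨a, b⟩ | ⟨a, b⟩
      · exact Or.inl ⟨Fin.ext a, Fin.ext b⟩
      · exact Or.inr ⟨Fin.ext a, Fin.ext b⟩
    split_ifs <;> omega
  have key : ∀ p : Fin n × Fin n,
      (if p.1 < p.2 ∧ (swap i j * π) p.2 < (swap i j * π) p.1 ∧ (swap i j * π) p.1 ∈ B ∧
        (swap i j * π) p.2 ∈ B then (-1 : ℤ) else 1) =
      (if p.1 < p.2 ∧ π p.2 < π p.1 ∧ π p.1 ∈ B.map (swap i j).toEmbedding ∧
        π p.2 ∈ B.map (swap i j).toEmbedding then (-1 : ℤ) else 1) *
        (if p = q then (if i ∈ B ∧ j ∈ B then -1 else 1) else 1) := by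
    intro p
    have F1 : p ≠ q → ((p.1 < p.2 ∧ (swap i j * π) p.2 < (swap i j * π) p.1 ∧
        (swap i j * π) p.1 ∈ B ∧ (swap i j * π) p.2 ∈ B) ↔
        (p.1 < p.2 ∧ π p.2 < π p.1 ∧ π p.1 ∈ B.map (swap i j).toEmbedding ∧
        π p.2 ∈ B.map (swap i j).toEmbedding)) := by
      intro hp
      rw [mem_map_swap, mem_map_swap]
      by_cases hlt : p.1 < p.2
      · have huv : π p.1 ≠ π p.2 := fun h => hlt.ne (π.injective h)
        have hno : ¬ ((π p.1 = i ∧ π p.2 = j) ∨ (π p.1 = j ∧ π p.2 = i)) := by
          intro h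
          apply hp
          rcases hq2 with ⟨a1, a2⟩ | ⟨a1, a2⟩ <;> rcases h with ⟨b1, b2⟩ | ⟨b1, b2⟩
          · exact Prod.ext (π.injective (b1.trans a1.symm)) (π.injective (b2.trans a2.symm))
          · have e1 : p.1 = q.2 := π.injective (b1.trans a2.symm)
            have e2 : p.2 = q.1 := π.injective (b2.trans a1.symm)
            rw [e1, e2] at hlt
            exact absurd hlt (not_lt.2 hq1.le)
          · have e1 : p.1 = q.2 := π.injective (b1.trans a2.symm)
            have e2 : p.2 = q.1 := π.injective (b2.trans a1.symm)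
            rw [e1, e2] at hlt
            exact absurd hlt (not_lt.2 hq1.le)
          · exact Prod.ext (π.injective (b1.trans a1.symm)) (π.injective (b2.trans a2.symm))
        have h3 := hord _ _ huv hno
        constructor
        · rintro ⟨a, b, c, d⟩
          exact ⟨a, h3.1 b, c, d⟩
        · rintro ⟨a, b, c, d⟩
          exact ⟨a, h3.2 b, c, d⟩
      · exact ⟨fun h => absurd h.1 hlt, fun h => absurd h.1 hlt⟩
    have h3 : ¬ (j < i) := not_lt.2 hlt'.le
    have F2 : p = q → (i ∈ B ∧ j ∈ B) → ((p.1 < p.2 ∧ (swap i j * π) p.2 < (swap i j * π) p.1 ∧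
        (swap i j * π) p.1 ∈ B ∧ (swap i j * π) p.2 ∈ B) ↔
        ¬ (p.1 < p.2 ∧ π p.2 < π p.1 ∧ π p.1 ∈ B.map (swap i j).toEmbedding ∧
        π p.2 ∈ B.map (swap i j).toEmbedding)) := by
      intro hp hB
      subst hp
      simp only [mem_map_swap, Perm.mul_apply]
      rcases hq2 with ⟨h1, h2⟩ | ⟨h1, h2⟩
      · simp only [h1, h2, swap_apply_left, swap_apply_right]
        tauto
      · simp only [h1, h2, swap_apply_left, swap_apply_right]
        tauto
    have F3 : p = q → ¬ (i ∈ B ∧ j ∈ B) → ¬ (p.1 < p.2 ∧ (swap i j * π) p.2 < (swap i j * π) p.1 ∧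
        (swap i j * π) p.1 ∈ B ∧ (swap i j * π) p.2 ∈ B) ∧
        ¬ (p.1 < p.2 ∧ π p.2 < π p.1 ∧ π p.1 ∈ B.map (swap i j).toEmbedding ∧
        π p.2 ∈ B.map (swap i j).toEmbedding) := by
      intro hp hB
      subst hp
      simp only [mem_map_swap, Perm.mul_apply]
      rcases hq2 with ⟨h1, h2⟩ | ⟨h1, h2⟩
      · simp only [h1, h2, swap_apply_left, swap_apply_right]
        tauto
      · simp only [h1, h2, swap_apply_left, swap_apply_right]
        tauto
    by_cases hp : p = q
    · rw [if_pos hp]
      by_cases hB : i ∈ B ∧ j ∈ B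
      · rw [if_pos hB]
        have h4 := F2 hp hB
        split_ifs with a b b
        · exact absurd b (h4.1 a)
        · norm_num
        · norm_num
        · exact absurd (h4.2 b) a
      · rw [if_neg hB, if_neg (F3 hp hB).1, if_neg (F3 hp hB).2, one_mul]
    · rw [if_neg hp, mul_one]
      have h4 := F1 hp
      split_ifs with a b b
      · rfl
      · exact absurd (h4.1 a) b
      · exact absurd (h4.2 b) a
      · rfl
  unfold e2
  rw [sgB_prod, sgB_prod, Finset.prod_congr rfl (fun p _ => key p), Finset.prod_mul_distrib,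
    Finset.prod_ite_eq' univ q, if_pos (mem_univ q), mul_comm]

/-- induction over products of adjacent transpositions -/
theorem adj_induction {p : Perm (Fin n) → Prop} (h1 : p 1)
    (hs : ∀ (i j : Fin n) (π : Perm (Fin n)), (j : ℕ) = i + 1 → p π → p (swap i j * π))
    (π : Perm (Fin n)) : p π := by
  cases n with
  | zero => rw [Subsingleton.elim π 1]; exact h1
  | succ n =>
    have hπ : π ∈ Submonoid.closure (Set.range fun i : Fin n => swap i.castSucc i.succ) := by
      rw [Equiv.Perm.mclosure_swap_castSucc_succ]; exact Submonoid.mem_top _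
    induction hπ using Submonoid.closure_induction_left with
    | one => exact h1
    | mul_left x hx y hy ih =>
      obtain ⟨i, rfl⟩ := hx
      exact hs _ _ _ (by simp) ih

/-- induction over products of adjacent transpositions, from the right -/
theorem adj_induction' {p : Perm (Fin n) → Prop} (h1 : p 1)
    (hs : ∀ (i j : Fin n) (π : Perm (Fin n)), (j : ℕ) = i + 1 → p π → p (π * swap i j))
    (π : Perm (Fin n)) : p π := by
  have h := adj_induction (p := fun π => p π⁻¹) (by simpa using h1) (fun i j π hij h => by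
    have h2 := hs i j _ hij h
    rw [mul_inv_rev, swap_inv]
    exact h2) π⁻¹
  simpa using h

theorem sgB_mul (σ π : Perm (Fin n)) (B : Finset (Fin n)) :
    sgB (σ * π) B = sgB σ B * sgB π (B.map (σ⁻¹ : Perm (Fin n)).toEmbedding) := by
  revert B
  refine adj_induction (p := fun σ => ∀ B, sgB (σ * π) B =
    sgB σ B * sgB π (B.map (σ⁻¹ : Perm (Fin n)).toEmbedding)) ?_ ?_ σ
  · intro B
    rw [one_mul, sgB_one, one_mul]
    congr 1
    ext u
    rw [Finset.mem_map]
    constructor
    · intro hu
      exact ⟨u, hu, rfl⟩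
    · rintro ⟨v, hv, rfl⟩
      exact hv
  · intro i j σ hij ih B
    rw [mul_assoc, sgB_swap_mul i j hij, ih, sgB_swap_mul i j hij, mul_assoc, Finset.map_map]
    congr 3

theorem sgB_swap (i j : Fin n) (hij : (j : ℕ) = i + 1) (B : Finset (Fin n)) :
    sgB (swap i j) B = e2 i j B := by
  have h := sgB_swap_mul i j hij 1 B
  rw [mul_one, sgB_one, mul_one] at h
  exact h

end sgB

section cj

variable {n : ℕ}

/-- `cj` as an additive map -/
noncomputable def cjH (σ : Perm (Fin n)) : PO n →+ PO n where
  toFun := cj σ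
  map_zero' := by unfold cj; simp
  map_add' x y := by unfold cj; rw [mul_add, add_mul]

theorem cj_add (σ : Perm (Fin n)) (x y : PO n) : cj σ (x + y) = cj σ x + cj σ y :=
  (cjH σ).map_add x y

theorem cj_neg (σ : Perm (Fin n)) (x : PO n) : cj σ (-x) = -cj σ x := (cjH σ).map_neg x

theorem cj_zsmul (σ : Perm (Fin n)) (m : ℤ) (x : PO n) : cj σ (m • x) = m • cj σ x :=
  (cjH σ).map_zsmul m x

theorem cj_sum {ι : Type} (s : Finset ι) (σ : Perm (Fin n)) (f : ι → PO n) :
    cj σ (∑ i ∈ s, f i) = ∑ i ∈ s, cj σ (f i) := map_sum (cjH σ) f s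

theorem oc_mul (σ τ : Perm (Fin n)) : optionCongr (σ * τ) = optionCongr σ * optionCongr τ := by
  ext x : 1
  cases x <;> rfl

theorem oc_one : optionCongr (1 : Perm (Fin n)) = 1 := by
  ext x : 1
  cases x <;> rfl

theorem oc_inv (σ : Perm (Fin n)) : (optionCongr σ)⁻¹ = optionCongr σ⁻¹ := by
  ext x : 1
  cases x <;> rfl

theorem cj_one (y : PO n) : cj 1 y = y := by
  unfold cj
  rw [oc_one, inv_one, H4.g_one, one_mul, mul_one]

theorem cj_mul (σ τ : Perm (Fin n)) (y : PO n) : cj (σ * τ) y = cj σ (cj τ y) := by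
  unfold cj
  rw [oc_mul, mul_inv_rev, H4.g_mul, H4.g_mul]
  simp only [mul_assoc]

end cj

section star

variable {n : ℕ}

/-- the star action of an adjacent transposition -/
noncomputable def star (i j : Fin n) (t : Finset (Fin n) → PO n) (h : Finset (Fin n)) : PO n :=
  if i ∈ h ∧ j ∈ h then
    - cj (swap i j) (t h + t ((h.erase i).erase j) + kap ((h.erase i).erase j).card •
      (t (h.erase j) + t (h.erase i)))
  else cj (swap i j) (t (h.map (swap i j).toEmbedding))

theorem sum_four {M : Type} [AddCommMonoid M] {i j : Fin n} (hne : i ≠ j) {B : Finset (Fin n)}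
    (hi : i ∈ B) (hj : j ∈ B) (F : Finset (Fin n) → M) :
    ∑ h ∈ B.powerset, F h = ∑ h ∈ ((B.erase i).erase j).powerset,
      (F h + F (insert i h) + F (insert j h) + F (insert i (insert j h))) := by
  have h1 : B = insert i (insert j ((B.erase i).erase j)) := by
    rw [Finset.insert_erase (Finset.mem_erase.2 ⟨hne.symm, hj⟩), Finset.insert_erase hi]
  have h2 : j ∉ (B.erase i).erase j := Finset.notMem_erase _ _
  have h3 : i ∉ insert j ((B.erase i).erase j) := by
    simp [hne]
  have h4 : ∑ h ∈ B.powerset, F h = ∑ h ∈ (insert i (insert j ((B.erase i).erase j))).powerset, F h := by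
    rw [← h1]
  rw [h4, Finset.sum_powerset_insert h3, Finset.sum_powerset_insert h2,
    Finset.sum_powerset_insert h2, ← Finset.sum_add_distrib, ← Finset.sum_add_distrib,
    ← Finset.sum_add_distrib]
  refine Finset.sum_congr rfl fun h _ => ?_
  abel

variable (i j : Fin n) (hne : i ≠ j) (t : Finset (Fin n) → PO n) {h : Finset (Fin n)}
  (hi : i ∉ h) (hj : j ∉ h)

include hi hj hne

theorem star_0 : star i j t h = cj (swap i j) (t h) := by
  unfold star
  rw [if_neg (fun e => hi e.1), map_swap_of_notMem hi hj]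

theorem star_i : star i j t (insert i h) = cj (swap i j) (t (insert j h)) := by
  unfold star
  rw [if_neg, Finset.map_insert, map_swap_of_notMem hi hj]
  · congr 3
    simp
  · rintro ⟨_, e⟩
    rcases Finset.mem_insert.1 e with e | e
    · exact hne e.symm
    · exact hj e

theorem star_j : star i j t (insert j h) = cj (swap i j) (t (insert i h)) := by
  unfold star
  rw [if_neg, Finset.map_insert, map_swap_of_notMem hi hj]
  · congr 3
    simp
  · rintro ⟨e, _⟩
    rcases Finset.mem_insert.1 e with e | e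
    · exact hne e
    · exact hi e

theorem star_ij : star i j t (insert i (insert j h)) =
    - cj (swap i j) (t (insert i (insert j h)) + t h + kap h.card • (t (insert i h) +
      t (insert j h))) := by
  unfold star
  have h1 : (insert i (insert j h)).erase i = insert j h := by
    rw [Finset.erase_insert]
    simp [hne, hi]
  have h2 : (insert i (insert j h)).erase j = insert i h := by
    rw [Finset.insert_comm, Finset.erase_insert]
    simp [hne.symm, hj]
  rw [if_pos ⟨by simp, by simp⟩, h1, h2, Finset.erase_insert hj]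

end star

section star2

variable {n : ℕ} {i j : Fin n}

theorem star_sum (hne : i ≠ j) {W : Type} [AddCommGroup W]
    (psi' psi : Finset (Fin n) → (PO n →+ W)) (hR : Rules i j psi' psi)
    (t : Finset (Fin n) → PO n) : ∑ h, psi' h (star i j t h) = ∑ h, psi h (t h) := by
  rw [← Finset.powerset_univ, sum_four hne (mem_univ i) (mem_univ j),
    sum_four hne (mem_univ i) (mem_univ j)]
  refine Finset.sum_congr rfl fun h hh => ?_
  rw [Finset.mem_powerset] at hh
  have hi : i ∉ h := fun e => by
    have := hh e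
    simp at this
  have hj : j ∉ h := fun e => by
    have := hh e
    simp at this
  rw [star_0 i j hne t hi hj, star_i i j hne t hi hj, star_j i j hne t hi hj,
    star_ij i j hne t hi hj, map_neg, (hR h _ hi hj).1, (hR h _ hi hj).2.1, (hR h _ hi hj).2.2.1,
    (hR h _ hi hj).2.2.2]
  simp only [map_add, map_zsmul, smul_add]
  abel

theorem kap_two (a : ℕ) : (2 : ℤ) ^ ((a + 1) / 2) - 2 ^ ((a + 2 + 1) / 2) = - 2 ^ ((a + 1) / 2) ∧
    (2 : ℤ) ^ ((a + 1 + 1) / 2) - 2 ^ ((a + 2 + 1) / 2) * kap a = - 2 ^ ((a + 1 + 1) / 2) := by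
  have h1 : (a + 2 + 1) / 2 = (a + 1) / 2 + 1 := by omega
  refine ⟨by rw [h1, pow_succ]; ring, ?_⟩
  unfold kap
  rcases Nat.even_or_odd a with he | ho
  · rw [if_pos he]
    obtain ⟨u, rfl⟩ := he
    have e1 : (u + u + 1 + 1) / 2 = u + 1 := by omega
    have e2 : (u + u + 2 + 1) / 2 = u + 1 := by omega
    rw [e1, e2]; ring
  · rw [if_neg (Nat.not_even_iff_odd.2 ho)]
    obtain ⟨u, rfl⟩ := ho
    have e1 : (2 * u + 1 + 1 + 1) / 2 = u + 1 := by omega
    have e2 : (2 * u + 1 + 2 + 1) / 2 = u + 2 := by omega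
    rw [e1, e2]; ring

theorem ty_star (hne : i ≠ j) (t : Finset (Fin n) → PO n) (B : Finset (Fin n)) :
    ty (star i j t) B = e2 i j B • cj (swap i j) (ty t (B.map (swap i j).toEmbedding)) := by
  by_cases hB : i ∈ B ∧ j ∈ B
  · unfold e2
    rw [if_pos hB, map_swap_of_mem hB.1 hB.2]
    unfold ty
    rw [sum_four hne hB.1 hB.2, sum_four hne hB.1 hB.2, cj_sum, Finset.smul_sum]
    refine Finset.sum_congr rfl fun h hh => ?_
    rw [Finset.mem_powerset] at hh
    have hi : i ∉ h := fun e => by
      have := hh e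
      simp at this
    have hj : j ∉ h := fun e => by
      have := hh e
      simp at this
    have hi' : i ∉ insert j h := by simp [hne, hi]
    rw [star_0 i j hne t hi hj, star_i i j hne t hi hj, star_j i j hne t hi hj,
      star_ij i j hne t hi hj, Finset.card_insert_of_notMem hi, Finset.card_insert_of_notMem hj,
      Finset.card_insert_of_notMem hi', Finset.card_insert_of_notMem hj]
    obtain ⟨k1, k2⟩ := kap_two h.card
    simp only [cj_add, cj_zsmul, smul_add, smul_neg, smul_smul, neg_mul, one_mul, neg_smul]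
    have e1 : ∀ (x : PO n), (2 : ℤ) ^ ((h.card + 1) / 2) • x - (2 : ℤ) ^ ((h.card + 2 + 1) / 2) • x
        = - ((2 : ℤ) ^ ((h.card + 1) / 2) • x) := by
      intro x
      rw [← sub_smul, k1, neg_smul]
    have e2 : ∀ (x : PO n), (2 : ℤ) ^ ((h.card + 1 + 1) / 2) • x -
        ((2 : ℤ) ^ ((h.card + 2 + 1) / 2) * kap h.card) • x
        = - ((2 : ℤ) ^ ((h.card + 1 + 1) / 2) • x) := by
      intro x
      rw [← sub_smul, k2, neg_smul]
    refine (show _ = ((2 : ℤ) ^ ((h.card + 1) / 2) • cj (swap i j) (t h) -
        (2 : ℤ) ^ ((h.card + 2 + 1) / 2) • cj (swap i j) (t h)) +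
        ((2 : ℤ) ^ ((h.card + 1 + 1) / 2) • cj (swap i j) (t (insert j h)) -
          ((2 : ℤ) ^ ((h.card + 2 + 1) / 2) * kap h.card) • cj (swap i j) (t (insert j h))) +
        ((2 : ℤ) ^ ((h.card + 1 + 1) / 2) • cj (swap i j) (t (insert i h)) -
          ((2 : ℤ) ^ ((h.card + 2 + 1) / 2) * kap h.card) • cj (swap i j) (t (insert i h))) -
        (2 : ℤ) ^ ((h.card + 2 + 1) / 2) • cj (swap i j) (t (insert i (insert j h))) from
          by abel).trans ?_
    rw [e1, e2, e2]
    abel
  · unfold e2
    rw [if_neg hB, one_smul]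
    unfold ty
    rw [cj_sum]
    refine Finset.sum_bij (fun h _ => h.map (swap i j).toEmbedding) ?_ ?_ ?_ ?_
    · intro h hh
      rw [Finset.mem_powerset] at hh ⊢
      exact Finset.map_subset_map.2 hh
    · intro h _ h' _ e
      exact Finset.map_injective _ e
    · intro h hh
      rw [Finset.mem_powerset] at hh
      refine ⟨h.map (swap i j).toEmbedding, ?_, ?_⟩
      · rw [Finset.mem_powerset]
        intro u hu
        rw [mem_map_swap] at hu
        have := hh hu
        rw [mem_map_swap, swap_apply_self] at this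
        exact this
      · ext u
        simp only [mem_map_swap, swap_apply_self]
    · intro h hh
      rw [Finset.mem_powerset] at hh
      have h1 : star i j t h = cj (swap i j) (t (h.map (swap i j).toEmbedding)) := by
        unfold star
        rw [if_neg (fun e => hB ⟨hh e.1, hh e.2⟩)]
      rw [h1, cj_zsmul, Finset.card_map]

end star2

/-- the coordinates of a relabelled path -/
theorem exists_T {n : ℕ} (k : ℕ) (π : Perm (Fin n)) : ∃ T : Finset (Fin n) → PO n,
    (∀ B, ty T B = sgB π B • cj π (g (pathP n))) ∧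
    ∀ (Φ U : Type) [Ring Φ] [Ring U] (ρ : Φ →+* U) (om : U) (S : PsiSys k Φ U ρ om)
      (b : Fin n → Φ), ∑ h, S.psi n b h (T h) = S.psi n (b ∘ π) ∅ (g (pathP n)) := by
  refine adj_induction (p := fun π => ∃ T : Finset (Fin n) → PO n,
    (∀ B, ty T B = sgB π B • cj π (g (pathP n))) ∧
    ∀ (Φ U : Type) [Ring Φ] [Ring U] (ρ : Φ →+* U) (om : U) (S : PsiSys k Φ U ρ om)
      (b : Fin n → Φ), ∑ h, S.psi n b h (T h) = S.psi n (b ∘ π) ∅ (g (pathP n))) ?_ ?_ π
  · refine ⟨fun h => if h = ∅ then g (pathP n) else 0, fun B => ?_, ?_⟩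
    · unfold ty
      rw [sgB_one, one_smul, cj_one, Finset.sum_eq_single ∅]
      · simp
      · intro h _ hh
        simp only [if_neg hh, smul_zero]
      · intro h
        exact absurd (Finset.empty_mem_powerset B) h
    · intro Φ U _ _ ρ om S b
      rw [Finset.sum_eq_single ∅]
      · change (S.psi n b ∅) (if (∅ : Finset (Fin n)) = ∅ then g (pathP n) else 0) = _
        rw [if_pos rfl]
        rfl
      · intro h _ hh
        simp only [if_neg hh, map_zero]
      · intro h
        exact absurd (mem_univ _) h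
  · intro i j π hij ⟨T, hT1, hT2⟩
    have hne : i ≠ j := fun h => by rw [h] at hij; omega
    refine ⟨star i j T, fun B => ?_, ?_⟩
    · rw [ty_star hne, hT1, cj_zsmul, smul_smul, sgB_swap_mul i j hij, cj_mul]
    · intro Φ U _ _ ρ om S b
      have h1 := S.rule n (b ∘ swap i j) i j hij
      have h2 : (b ∘ ⇑(swap i j)) ∘ ⇑(swap i j) = b := by
        funext x
        simp
      rw [h2] at h1
      rw [star_sum hne _ _ h1, hT2]
      rfl

end Pool.PI34.XH

end

/-! ### part V_Main -/
section

/-!
PI34, block VAL, file 7: the values of the elements of the group algebra at exotic letters,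
`val : Val k`.
-/

set_option autoImplicit false
set_option linter.unusedSectionVars false

namespace Pool.PI34.VL

open Equiv Finset Matrix
open Pool.PI34.BA
open Pool.PI34.XX (ExStr)
open Pool.PI34.XH (PO cj Rules PsiSys Val pathP)

/-! ### the path -/

theorem sign_pathP (n : ℕ) : ((Perm.sign (pathP n) : ℤˣ) : ℤ) = (-1) ^ n := by
  cases n with
  | zero => simp [pathP]
  | succ n =>
    have h1 : Perm.sign (pathP (n + 1)) = (-1) ^ (n + 1) := by
      unfold pathP
      have h2 : Perm.sign (((finSuccEquivLast (n := n + 1)).symm.trans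
          ((finRotate (n + 2)).symm.trans (finSuccEquivLast (n := n + 1)))) :
          Perm (Option (Fin (n + 1)))) = Perm.sign (finRotate (n + 2)).symm :=
        Perm.sign_symm_trans_trans (finRotate (n + 2)).symm (finSuccEquivLast (n := n + 1))
      rw [h2]
      change Perm.sign (finRotate (n + 2))⁻¹ = _
      rw [Perm.sign_inv, sign_finRotate]
      rfl
    rw [h1]
    simp

theorem dg_head (n : ℕ) (e : Fin (n + 1)) :
    dg n (finSuccEquivLast e) = head (fun l : Fin n => l) e := by
  refine Fin.lastCases ?_ (fun i => ?_) e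
  · rw [finSuccEquivLast_last]
    simp [dg_none, head]
  · rw [finSuccEquivLast_castSucc]
    simp [dg_some, head]

theorem dg_tail (n : ℕ) (e : Fin (n + 1)) :
    dg n (pathP n (finSuccEquivLast e)) = tail (fun l : Fin n => l) e := by
  cases n with
  | zero =>
    have he : e = 0 := Fin.ext (by omega)
    subst he
    rfl
  | succ n =>
    have h1 : pathP (n + 1) (finSuccEquivLast e) = finSuccEquivLast ((finRotate (n + 2)).symm e) := by
      change finSuccEquivLast ((finRotate (n + 2)).symm (finSuccEquivLast.symm (finSuccEquivLast e)))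
        = _
      rw [Equiv.symm_apply_apply]
    rw [h1]
    refine Fin.cases ?_ (fun i => ?_) e
    · have h2 : (finRotate (n + 2)).symm 0 = Fin.last (n + 1) := by
        rw [Equiv.symm_apply_eq, finRotate_last]
      rw [h2, finSuccEquivLast_last]
      simp [dg_none, tail]
    · have h2 : (finRotate (n + 2)).symm i.succ = i.castSucc := by
        rw [Equiv.symm_apply_eq, finRotate_apply]
        exact (Fin.coeSucc_eq_succ).symm
      rw [h2, finSuccEquivLast_castSucc]
      simp [dg_some, tail]

theorem mm_pathP (n : ℕ) : mm (pathP n) = pathMon (fun l : Fin n => l) := by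
  unfold mm mon pathMon
  rw [← Equiv.sum_comp (finSuccEquivLast (n := n)) (fun a => Finsupp.single
    (dg n (pathP n a), dg n a) 1)]
  refine Finset.sum_congr rfl fun e _ => ?_
  rw [dg_head, dg_tail]

/-! ### the functionals -/

section main

variable {ι Φ U : Type} [Fintype ι] [DecidableEq ι] [Ring Φ] [Ring U] (S : ExStr ι Φ U)
variable {k n : ℕ} (p q : Fin k ↪ ι) (z : ι)

/-- an entry of a matrix -/
def en (f g : IX n) : Matrix (IX n) (IX n) U →+ U where
  toFun M := M f g
  map_zero' := rfl
  map_add' _ _ := rfl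

/-- the state of the letters `h` -/
def sth (h : Finset (Fin n)) : IX n := fun l => if l ∈ h then 2 else 1

/-- the matrix of values -/
noncomputable def VM (b : Fin n → Φ) : PO n →+ Matrix (IX n) (IX n) U :=
  vl (PS S z b) p q z (FreeAlgebra.ι ℤ)

/-- the functionals `φ` -/
noncomputable def ph (b : Fin n → Φ) (h : Finset (Fin n)) : PO n →+ U :=
  (en (sth h) 0).comp (VM S p q z b)

theorem ph_apply (b : Fin n → Φ) (h : Finset (Fin n)) (y : PO n) :
    ph S p q z b h y = VM S p q z b y (sth h) 0 := rfl

/-- **(V1)** -/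
theorem ph_kill (hA : Anti S.f k) (hF : Frame p q z) (b : Fin n → Φ) (h : Finset (Fin n))
    (y : PO n) (hy : H4.act k _ y = 0) : ph S p q z b h y = 0 := by
  rw [ph_apply]
  unfold VM
  rw [vl_kill (PS S z b) (Anti_PS S z b hA) p q z hF _ y hy]
  rfl

/-- the conjugation by the flip -/
noncomputable def cjM {i j : Fin n} (h : i ≠ j) :
    Matrix (IX n) (IX n) U →+* Matrix (IX n) (IX n) U :=
  have h1 : Jm S z n (fl i j) * Jm S z n (fl i j) = 1 := by rw [← map_mul, fl_fl h, map_one]
  { toFun := fun M => Jm S z n (fl i j) * M * Jm S z n (fl i j)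
    map_one' := by rw [mul_one, h1]
    map_mul' := fun M N => by
      calc Jm S z n (fl i j) * (M * N) * Jm S z n (fl i j)
          = Jm S z n (fl i j) * M * 1 * N * Jm S z n (fl i j) := by simp only [mul_assoc, one_mul]
        _ = Jm S z n (fl i j) * M * (Jm S z n (fl i j) * Jm S z n (fl i j)) * N *
            Jm S z n (fl i j) := by rw [h1]
        _ = _ := by simp only [mul_assoc]
    map_zero' := by rw [mul_zero, zero_mul]
    map_add' := fun M N => by rw [mul_add, add_mul] }

theorem cjM_apply {i j : Fin n} (h : i ≠ j) (M : Matrix (IX n) (IX n) U) :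
    cjM S z h M = Jm S z n (fl i j) * M * Jm S z n (fl i j) := rfl

theorem cjM_sc {i j : Fin n} (h : i ≠ j) (u : U) : cjM S z h (sc n u) = sc n u := by
  rw [cjM_apply, ← sc_Jm, mul_assoc, ← map_mul, fl_fl h, map_one, mul_one]

theorem cjM_lt {i j : Fin n} (hij : (j : ℕ) = i + 1) (h : i ≠ j) (b : Fin n → Φ) (a : ι)
    (l : Fin n) : cjM S z h (lt S z b a l) = lt S z (b ∘ swap i j) a (swap i j l) := by
  unfold lt
  have h2 : (b ∘ swap i j) (swap i j l) = b l := by rw [Function.comp_apply, swap_apply_self]
  have h3 : ∀ e e' : GG n, fl i j * e = e' * fl i j → cjM S z h (Jm S z n e) = Jm S z n e' := by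
    intro e e' he
    rw [cjM_apply, ← map_mul, ← map_mul, he, mul_assoc, fl_fl h, mul_one]
  rw [map_add, map_mul, map_mul, cjM_sc, cjM_sc, h2, h3 _ _ (fl_opP l), h3 _ _ (fl_opQ hij l)]

/-- the values of the relabelled letters -/
theorem VM_conj (hA : Anti S.f k) (hF : Frame p q z) {i j : Fin n} (hij : (j : ℕ) = i + 1)
    (h : i ≠ j) (b : Fin n → Φ) (y : PO n) :
    VM S p q z (b ∘ swap i j) (cj (swap i j) y) = cjM S z h (VM S p q z b y) := by
  unfold VM cj
  rw [← vl_sub (PS S z (b ∘ swap i j)) (Anti_PS S z _ hA) p q z hF (FreeAlgebra.ι ℤ) (swap i j) y]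
  let F : FreeAlgebra ℤ (Fin n) →+* FreeAlgebra ℤ (Fin n) :=
    (FreeAlgebra.lift ℤ (fun l => FreeAlgebra.ι ℤ (swap i j l)) :
      FreeAlgebra ℤ (Fin n) →ₐ[ℤ] FreeAlgebra ℤ (Fin n)).toRingHom
  have hF1 : ∀ l, F (FreeAlgebra.ι ℤ l) = FreeAlgebra.ι ℤ (swap i j l) := fun l => by
    change (FreeAlgebra.lift ℤ (fun l => FreeAlgebra.ι ℤ (swap i j l))) (FreeAlgebra.ι ℤ l) = _
    rw [FreeAlgebra.lift_ι_apply]
  have hρ : ∀ (a : ι) (x : FreeAlgebra ℤ (Fin n)),
      cjM S z h ((PS S z b).ρ a x) = (PS S z (b ∘ swap i j)).ρ a (F x) := by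
    intro a x
    induction x using FreeAlgebra.induction with
    | grade0 r => simp
    | grade1 l => rw [hF1, PS_ρ, PS_ρ, cjM_lt S z hij h]
    | mul u v hu hv => rw [map_mul, map_mul, hu, hv, map_mul, map_mul]
    | add u v hu hv => rw [map_add, map_add, hu, hv, map_add, map_add]
  have hs : ∀ σ, cjM S z h ((PS S z b).s σ) = (PS S z (b ∘ swap i j)).s σ := by
    intro σ
    rw [PS_s, PS_s, cjM_sc]
  refine H4.P_induction (p := fun y => vl (PS S z (b ∘ swap i j)) p q z
    (fun l => FreeAlgebra.ι ℤ (swap i j l)) y = cjM S z h (vl (PS S z b) p q z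
      (FreeAlgebra.ι ℤ) y)) y ?_ ?_ ?_
  · intro σ
    rw [vl_g, vl_g, map_zsmul, map_Pxi (PS S z b) (PS S z (b ∘ swap i j)) F (cjM S z h) hρ hs]
    simp only [hF1]
  · intro a c ha hc
    rw [map_add, map_add, map_add, ha, hc]
  · intro m a ha
    rw [map_zsmul, map_zsmul, map_zsmul, ha]

/-- the unified form of the swap rules -/
theorem ph_swap (hA : Anti S.f k) (hF : Frame p q z) {i j : Fin n} (hij : (j : ℕ) = i + 1)
    (b : Fin n → Φ) (h : Finset (Fin n)) (y : PO n) (h' : Finset (Fin n))
    (hf : sth h ∘ swap i j = sth h') :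
    ph S p q z (b ∘ swap i j) h (cj (swap i j) y) = ph S p q z b h' y -
      chi S z (wt (sth h i) * wt (sth h j)) * ph S p q z b (insert i (insert j h)) y := by
  have hne : i ≠ j := fun h2 => by
    have h3 : (i : ℕ) = j := congrArg Fin.val h2
    omega
  rw [ph_apply, VM_conj S p q z hA hF hij hne, cjM_apply, Jm_col S z _ (fl_vac hne),
    Jm_row2 S z (fl i j) (sth h) (sth h') (sth (insert i (insert j h)))
      (wt (sth h i) * wt (sth h j))]
  · rfl
  · intro v
    rw [ap_fl hne, hf]
    congr 3
    funext l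
    unfold sth
    by_cases e1 : l = j
    · subst e1
      rw [Function.update_self, if_pos (mem_insert_of_mem (mem_insert_self _ _))]
    · rw [Function.update_of_ne e1]
      by_cases e2 : l = i
      · subst e2
        rw [Function.update_self, if_pos (mem_insert_self _ _)]
      · rw [Function.update_of_ne e2]
        have e3 : l ∈ insert i (insert j h) ↔ l ∈ h := by
          rw [mem_insert, mem_insert]
          simp [e1, e2]
        simp only [e3]

theorem sth_swap {i j : Fin n} (h h' : Finset (Fin n)) (hh : ∀ l, l ∈ h' ↔ swap i j l ∈ h) :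
    sth h ∘ swap i j = sth h' := by
  funext l
  unfold sth
  rw [Function.comp_apply]
  simp only [hh]

/-- the normalised functionals -/
noncomputable def psi (b : Fin n → Φ) (h : Finset (Fin n)) : PO n →+ U :=
  (AddMonoidHom.mulLeft (chi S z (q2 ^ (h.card % 2)))).comp (ph S p q z b h)

theorem psi_apply (b : Fin n → Φ) (h : Finset (Fin n)) (y : PO n) :
    psi S p q z b h y = chi S z (q2 ^ (h.card % 2)) * ph S p q z b h y := rfl

theorem kap_chi (c : ℕ) (x : U) :
    chi S z (q2 ^ ((c + 1) % 2)) * (chi S z q2 * x) = XH.kap c • (chi S z (q2 ^ (c % 2)) * x) := by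
  unfold XH.kap
  rcases Nat.even_or_odd c with h | h
  · have h1 : c % 2 = 0 := Nat.even_iff.1 h
    have h2 : (c + 1) % 2 = 1 := by omega
    rw [if_pos h, h1, h2, pow_one, pow_zero, map_one, one_mul, ← mul_assoc, ← map_mul, q2_sq,
      map_ofNat, two_mul]
    rw [two_zsmul]
  · have h1 : c % 2 = 1 := Nat.odd_iff.1 h
    have h2 : (c + 1) % 2 = 0 := by omega
    rw [if_neg (Nat.not_even_iff_odd.2 h), h1, h2, pow_one, pow_zero, map_one, one_mul, one_zsmul]

theorem psi_rules (hA : Anti S.f k) (hF : Frame p q z) {i j : Fin n} (hij : (j : ℕ) = i + 1)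
    (b : Fin n → Φ) : Rules i j (psi S p q z (b ∘ swap i j)) (psi S p q z b) := by
  have hne : i ≠ j := fun h2 => by
    have h3 : (i : ℕ) = j := congrArg Fin.val h2
    omega
  intro h y hi hj
  have hji : j ∉ insert i h := by
    rw [mem_insert]
    rintro (e | e)
    · exact hne e.symm
    · exact hj e
  have hij' : i ∉ insert j h := by
    rw [mem_insert]
    rintro (e | e)
    · exact hne e
    · exact hi e
  have c1 : (insert i h).card = h.card + 1 := card_insert_of_notMem hi
  have c2 : (insert j h).card = h.card + 1 := card_insert_of_notMem hj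
  have c3 : (insert i (insert j h)).card = h.card + 2 := by
    rw [card_insert_of_notMem hij', c2]
  have c4 : (h.card + 2) % 2 = h.card % 2 := by omega
  have s0 : ∀ l, l ∈ h ↔ swap i j l ∈ h := by
    intro l
    by_cases e1 : l = i
    · subst e1
      rw [swap_apply_left]
      exact ⟨fun h1 => absurd h1 hi, fun h1 => absurd h1 hj⟩
    · by_cases e2 : l = j
      · subst e2
        rw [swap_apply_right]
        exact ⟨fun h1 => absurd h1 hj, fun h1 => absurd h1 hi⟩
      · rw [swap_apply_of_ne_of_ne e1 e2]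
  have s1 : ∀ l, l ∈ insert j h ↔ swap i j l ∈ insert i h := by
    intro l
    rw [mem_insert, mem_insert, ← s0 l]
    have e1 : swap i j l = i ↔ l = j := by
      rw [Equiv.swap_apply_eq_iff, swap_apply_left]
    rw [e1]
  have s2 : ∀ l, l ∈ insert i h ↔ swap i j l ∈ insert j h := by
    intro l
    rw [mem_insert, mem_insert, ← s0 l]
    have e1 : swap i j l = j ↔ l = i := by
      rw [Equiv.swap_apply_eq_iff, swap_apply_right]
    rw [e1]
  have s3 : ∀ l, l ∈ insert i (insert j h) ↔ swap i j l ∈ insert i (insert j h) := by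
    intro l
    rw [mem_insert, mem_insert, mem_insert, mem_insert, ← s0 l]
    have e1 : swap i j l = i ↔ l = j := by
      rw [Equiv.swap_apply_eq_iff, swap_apply_left]
    have e2 : swap i j l = j ↔ l = i := by
      rw [Equiv.swap_apply_eq_iff, swap_apply_right]
    rw [e1, e2]
    tauto
  have w1 : ∀ (h : Finset (Fin n)) (l : Fin n), l ∉ h → wt (sth h l) = 1 := by
    intro h l hl
    unfold sth
    rw [if_neg hl, wt_one]
  have w2 : ∀ (h : Finset (Fin n)) (l : Fin n), l ∈ h → wt (sth h l) = q2 := by
    intro h l hl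
    unfold sth
    rw [if_pos hl, wt_two]
  refine ⟨?_, ?_, ?_, ?_⟩
  · rw [psi_apply, psi_apply, psi_apply, c3, c4, ph_swap S p q z hA hF hij b h y h
      (sth_swap h h s0), w1 h i hi, w1 h j hj, one_mul, map_one, one_mul, mul_sub]
  · have e1 : insert i (insert j (insert i h)) = insert i (insert j h) := by
      ext l
      simp only [mem_insert]
      tauto
    rw [psi_apply, psi_apply, psi_apply, c1, c2, c3, c4,
      ph_swap S p q z hA hF hij b (insert i h) y (insert j h) (sth_swap _ _ s1),
      w2 _ i (mem_insert_self _ _), w1 _ j hji, mul_one, e1, mul_sub, kap_chi]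
  · have e1 : insert i (insert j (insert j h)) = insert i (insert j h) := by
      ext l
      simp only [mem_insert]
      tauto
    rw [psi_apply, psi_apply, psi_apply, c1, c2, c3, c4,
      ph_swap S p q z hA hF hij b (insert j h) y (insert i h) (sth_swap _ _ s2),
      w1 _ i hij', w2 _ j (mem_insert_self _ _), one_mul, e1, mul_sub, kap_chi]
  · have e1 : insert i (insert j (insert i (insert j h))) = insert i (insert j h) := by
      ext l
      simp only [mem_insert]
      tauto
    rw [psi_apply, psi_apply, c3, c4,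
      ph_swap S p q z hA hF hij b (insert i (insert j h)) y (insert i (insert j h))
        (sth_swap _ _ s3),
      w2 _ i (mem_insert_self _ _), w2 _ j (mem_insert_of_mem (mem_insert_self _ _)), q2_sq, e1,
      map_ofNat, two_mul, mul_sub, mul_add]
    abel

/-! ### the path -/

theorem lt_row (b : Fin n → Φ) (l : Fin n) (M : Matrix (IX n) (IX n) U) (g : IX n) :
    (lt S z b z l * M) (st l) g = S.ρ z (b l) * M (st (l + 1)) g := by
  unfold lt
  rw [add_mul, mul_assoc, mul_assoc, Matrix.add_apply, sc_mul_apply, sc_mul_apply,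
    Jm_row1 S z _ _ _ (ap_opP_st l), Jm_row0 S z _ _ (ap_opQ_st l), mul_zero, add_zero]

theorem path_row (b : Fin n → Φ) (m : ℕ) (hm : m ≤ n) :
    ((List.ofFn (lt S z b z)).drop m).prod (st m) 0 =
      ((List.ofFn fun l => S.ρ z (b l)).drop m).prod := by
  induction hd : n - m generalizing m with
  | zero =>
    have e : m = n := by omega
    subst e
    rw [List.drop_eq_nil_of_le (by simp), List.drop_eq_nil_of_le (by simp), List.prod_nil,
      List.prod_nil]
    have e1 : (st m : IX m) = 0 := by
      funext l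
      exact if_pos l.2
    rw [e1, Matrix.one_apply_eq]
  | succ d ih =>
    have hlt : m < n := by omega
    rw [List.drop_eq_getElem_cons (i := m) (by simpa using hlt),
      List.drop_eq_getElem_cons (l := List.ofFn fun l => S.ρ z (b l)) (i := m) (by simpa using hlt),
      List.prod_cons, List.prod_cons, List.getElem_ofFn, List.getElem_ofFn]
    have h1 := lt_row S z b ⟨m, hlt⟩ ((List.ofFn (lt S z b z)).drop (m + 1)).prod 0
    rw [ih (m + 1) (by omega) (by omega)] at h1
    exact h1

theorem ph_path (b : Fin n → Φ) : ph S p q z b ∅ (H4.g (pathP n)) =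
    S.ρ z (List.ofFn b).prod * (anti S.f (univ.map p) * anti S.f (univ.map q)) := by
  rw [ph_apply]
  unfold VM
  rw [vl_g, mm_pathP, Pxi_path, smul_smul, sign_pathP, ← mul_pow, neg_mul_neg, one_mul, one_pow,
    one_smul]
  unfold Str.om
  rw [anti_PS, anti_PS, ← map_mul, mul_sc_apply, map_list_prod, List.map_ofFn, map_list_prod,
    List.map_ofFn]
  have h1 : (⇑((PS S z b).ρ z) ∘ fun l : Fin n => FreeAlgebra.ι ℤ l) = lt S z b z := by
    funext l
    exact PS_ρ S z b z l
  have h2 : (sth ∅ : IX n) = st 0 := by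
    funext l
    unfold sth st
    rw [if_neg (notMem_empty l), if_neg (Nat.not_lt_zero _)]
  rw [h1, h2]
  congr 1
  exact path_row S z b 0 (Nat.zero_le n)

end main

/-- **VAL** -/
theorem val (k : ℕ) : Val k := by
  intro N Φ U _ _ S hA e e' hF
  exact ⟨{
    psi := fun n b h => psi S e e' 0 b h
    ker := fun n b h y hy => by
      rw [psi_apply, ph_kill S e e' 0 hA hF b h y hy, mul_zero]
    rule := fun n b i j hij => psi_rules S e e' 0 hA hF hij b
    path := fun n b => by
      rw [psi_apply, card_empty, Nat.zero_mod, pow_zero, map_one, one_mul, ph_path] }⟩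

end Pool.PI34.VL

end

/-! ### part X_St2 -/
section

/-!
PI34, p = 2, block START, file 2: the typed components of a super identity vanish.
-/

set_option autoImplicit false
set_option linter.unusedSectionVars false

namespace Pool.PI34.XH

open Equiv Finset
open Pool.PI34.H4 (P g act)
open Pool.PI34.SS (FA GT Lam ge phL)

/-! ### the coefficients of a relabelled path -/

/-- chains of pairs of letters -/
def chn {A : Type} : A → List (A × A) → A → Prop
  | a, [], b => a = b
  | a, x :: l, b => a = x.1 ∧ chn x.2 l b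

theorem chn_ofFn {A : Type} (m : ℕ) (f : Fin (m + 1) → A × A) (a b : A) :
    chn a (List.ofFn f) b ↔ a = (f 0).1 ∧ (∀ l : Fin m, (f l.castSucc).2 = (f l.succ).1) ∧
      (f (Fin.last m)).2 = b := by
  induction m generalizing a with
  | zero =>
    rw [List.ofFn_succ, List.ofFn_zero]
    simp [chn]
  | succ m ih =>
    rw [List.ofFn_succ]
    change a = (f 0).1 ∧ chn (f 0).2 (List.ofFn fun i => f i.succ) b ↔ _
    rw [ih, Fin.forall_fin_succ]
    constructor
    · rintro ⟨h1, h2, h3, h4⟩
      exact ⟨h1, ⟨h2, fun i => h3 i⟩, h4⟩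
    · rintro ⟨h1, ⟨h2, h3⟩, h4⟩
      exact ⟨h1, h2, fun i => h3 i, h4⟩

open Classical in
theorem prod_single {k : ℕ} (l : List (Fin k × Fin k)) (a b : Fin k) :
    (l.map fun x => Matrix.single x.1 x.2 (1 : ℤ)).prod a b = if chn a l b then 1 else 0 := by
  induction l generalizing a with
  | nil =>
    rw [List.map_nil, List.prod_nil, Matrix.one_apply]
    by_cases h : a = b
    · rw [if_pos h, if_pos (show chn a [] b from h)]
    · rw [if_neg h, if_neg (show ¬ chn a [] b from h)]
  | cons x l ih =>
    rw [List.map_cons, List.prod_cons]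
    by_cases h : a = x.1
    · subst h
      rw [Matrix.single_mul_apply_same, one_mul, ih]
      by_cases h : chn x.2 l b
      · rw [if_pos h, if_pos (show chn x.1 (x :: l) b from ⟨rfl, h⟩)]
      · rw [if_neg h, if_neg (fun e => h e.2)]
    · rw [Matrix.single_mul_apply_of_ne (h := h), if_neg (fun e => h e.1)]

theorem pathP_none (m : ℕ) : pathP (m + 1) none = some (Fin.last m) := by
  change finSuccEquivLast ((finRotate (m + 2)).symm (finSuccEquivLast.symm none)) = _
  rw [← finSuccEquivLast.symm.apply_eq_iff_eq, Equiv.symm_apply_apply, Equiv.symm_apply_eq,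
    finSuccEquivLast_symm_none, finSuccEquivLast_symm_some, finRotate_apply]
  ext
  simp

theorem pathP_zero (m : ℕ) : pathP (m + 1) (some 0) = none := by
  change finSuccEquivLast ((finRotate (m + 2)).symm (finSuccEquivLast.symm (some 0))) = _
  rw [← finSuccEquivLast.symm.apply_eq_iff_eq, Equiv.symm_apply_apply, Equiv.symm_apply_eq,
    finSuccEquivLast_symm_none, finSuccEquivLast_symm_some, finRotate_apply]
  simp

theorem pathP_succ (m : ℕ) (l : Fin m) :
    pathP (m + 1) (some l.succ) = some l.castSucc := by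
  change finSuccEquivLast ((finRotate (m + 2)).symm (finSuccEquivLast.symm (some l.succ))) = _
  rw [← finSuccEquivLast.symm.apply_eq_iff_eq, Equiv.symm_apply_apply, Equiv.symm_apply_eq,
    finSuccEquivLast_symm_some, finSuccEquivLast_symm_some, finRotate_apply]
  ext
  rw [Fin.val_add_one]
  split_ifs with h
  · exfalso
    have := congrArg Fin.val h
    simp at this
    omega
  · simp

theorem path_iff {n : ℕ} {A : Type} (v v' : Option (Fin n) → A) :
    v ∘ pathP n = v' ↔
      chn (v none) (List.ofFn fun l => (v' (some l), v (some l))) (v' none) := by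
  cases n with
  | zero =>
    rw [List.ofFn_zero]
    change _ ↔ v none = v' none
    constructor
    · intro h
      rw [← h]
      rfl
    · intro h
      funext x
      rcases x with _ | x
      · exact h
      · exact x.elim0
  | succ m =>
    rw [chn_ofFn]
    constructor
    · intro h
      refine ⟨?_, fun l => ?_, ?_⟩
      · rw [← h]
        simp only [Function.comp_apply, pathP_zero]
      · rw [← h]
        simp only [Function.comp_apply, pathP_succ]
      · rw [← h]
        simp only [Function.comp_apply, pathP_none]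
    · rintro ⟨h1, h2, h3⟩
      funext x
      rw [Function.comp_apply]
      rcases x with _ | x
      · rw [pathP_none]
        exact h3
      · refine Fin.cases ?_ (fun l => ?_) x
        · rw [pathP_zero]
          exact h1
        · rw [pathP_succ]
          exact h2 l

theorem act_cj_path {k n : ℕ} (τ : Perm (Fin n)) (w w' : Option (Fin n) → Fin k) :
    act k _ (cj τ (g (pathP n))) (Pi.single w' 1) w =
      (((List.ofFn fun l => Matrix.single (w' (some (τ l))) (w (some (τ l))) (1 : ℤ)).prod
        (w none) (w' none) : ℤ) : ℚ) := by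
  classical
  have h1 : (List.ofFn fun l => Matrix.single (w' (some (τ l))) (w (some (τ l))) (1 : ℤ)) =
      (List.ofFn fun l => (w' (some (τ l)), w (some (τ l)))).map
        fun x => Matrix.single x.1 x.2 (1 : ℤ) := by
    rw [List.map_ofFn]
    rfl
  rw [h1, prod_single]
  unfold cj
  rw [← H4.g_mul, ← H4.g_mul, H4.act_g, Pi.single_apply]
  have h2 : w ∘ ⇑(optionCongr τ * pathP n * (optionCongr τ)⁻¹) = w' ↔
      (w ∘ optionCongr τ) ∘ pathP n = w' ∘ optionCongr τ := by
    constructor
    · intro h
      rw [← h]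
      funext x
      change _ = w (optionCongr τ (pathP n ((optionCongr τ).symm (optionCongr τ x))))
      rw [Equiv.symm_apply_apply]
      rfl
    · intro h
      funext x
      have h3 := congrFun h ((optionCongr τ).symm x)
      change w (optionCongr τ (pathP n ((optionCongr τ).symm x))) =
        w' (optionCongr τ ((optionCongr τ).symm x)) at h3
      rw [Equiv.apply_symm_apply] at h3
      exact h3
  have h3 := path_iff (w ∘ optionCongr τ) (w' ∘ optionCongr τ)
  by_cases h : w ∘ ⇑(optionCongr τ * pathP n * (optionCongr τ)⁻¹) = w'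
  · rw [if_pos h, if_pos]
    · simp
    · exact h3.1 (h2.1 h)
  · rw [if_neg h, if_neg]
    · simp
    · intro e
      exact h (h2.2 (h3.2 e))

/-! ### the sign of a rearrangement in a supercommutative ring -/

theorem ofFn_swap_prod {R : Type} [Ring R] : ∀ {n : ℕ} (a : Fin n → R) (i j : Fin n),
    (j : ℕ) = i + 1 → ∀ ε : ℤ, a j * a i = ε • (a i * a j) →
    (List.ofFn fun p => a (swap i j p)).prod = ε • (List.ofFn a).prod := by
  intro n
  induction n with
  | zero => intro a i; exact i.elim0
  | succ n ih =>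
    intro a i j hij ε h
    rcases Fin.eq_zero_or_eq_succ i with rfl | ⟨i', rfl⟩
    · cases n with
      | zero =>
        have := j.2
        simp at hij
      | succ m =>
        have hj : j = 1 := by
          ext
          rw [hij]
          simp
        subst hj
        rw [List.ofFn_succ, List.ofFn_succ, List.ofFn_succ (f := a),
          List.ofFn_succ (f := fun i => a i.succ)]
        simp only [List.prod_cons, Fin.succ_zero_eq_one, swap_apply_left, swap_apply_right]
        have h3 : (fun i : Fin m => a (swap 0 1 i.succ.succ)) = fun i : Fin m => a i.succ.succ := by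
          funext i
          rw [swap_apply_of_ne_of_ne (Fin.succ_ne_zero _)]
          intro e
          have := congrArg Fin.val e
          simp at this
        rw [h3, ← mul_assoc, h, smul_mul_assoc, mul_assoc]
    · rcases Fin.eq_zero_or_eq_succ j with rfl | ⟨j', rfl⟩
      · simp at hij
      · rw [List.ofFn_succ, List.ofFn_succ (f := a), List.prod_cons, List.prod_cons]
        have h1 : swap i'.succ j'.succ 0 = 0 :=
          swap_apply_of_ne_of_ne (Fin.succ_ne_zero _).symm (Fin.succ_ne_zero _).symm
        have h2 : (fun p : Fin n => a (swap i'.succ j'.succ p.succ)) =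
            fun p : Fin n => (fun q : Fin n => a q.succ) (swap i' j' p) := by
          funext p
          congr 1
          rw [swap_apply_def, swap_apply_def]
          simp only [Fin.succ_inj]
          split_ifs <;> rfl
        rw [h1, h2, ih (fun q => a q.succ) i' j' (by simpa using hij) ε h, mul_smul_comm]

section theta

variable {n : ℕ}

/-- the letters: odd for the indices in `B`, even for the others -/
noncomputable def th (B : Finset (Fin n)) (l : Fin n) : GT (MvPolynomial (Fin n) ℤ) n :=
  if l ∈ B then GT.mk 1 (ge l) else GT.mk (MvPolynomial.X l) 1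

theorem th_swap (B : Finset (Fin n)) (l l' : Fin n) :
    th B l' * th B l = (if l ∈ B ∧ l' ∈ B then (-1 : ℤ) else 1) • (th B l * th B l') := by
  unfold th
  by_cases h : l ∈ B <;> by_cases h' : l' ∈ B
  · rw [if_pos h, if_pos h', if_pos ⟨h, h'⟩, GT.mk_mul, GT.mk_mul, SS.ge_swap l' l,
      GT.mk_neg_right, neg_smul, one_smul]
  · rw [if_pos h, if_neg h', if_neg (fun e => h' e.2), GT.mk_mul, GT.mk_mul, one_smul]
    simp
  · rw [if_neg h, if_pos h', if_neg (fun e => h e.1), GT.mk_mul, GT.mk_mul, one_smul]
    simp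
  · rw [if_neg h, if_neg h', if_neg (fun e => h e.1), GT.mk_mul, GT.mk_mul, one_smul, mul_comm]

theorem th_prod (B : Finset (Fin n)) (π : Perm (Fin n)) :
    (List.ofFn fun p => th B (π p)).prod = sgB π B • (List.ofFn (th B)).prod := by
  refine adj_induction' (p := fun π => (List.ofFn fun p => th B (π p)).prod =
    sgB π B • (List.ofFn (th B)).prod) ?_ ?_ π
  · rw [sgB_one, one_smul]
    rfl
  · intro i j π hij ih
    have h1 := ofFn_swap_prod (fun p => th B (π p)) i j hij _ (th_swap B (π i) (π j))
    change (List.ofFn fun p => (fun q => th B (π q)) (swap i j p)).prod = _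
    rw [h1, ih, smul_smul, sgB_mul, sgB_swap i j hij, mul_comm]
    congr 2
    unfold e2
    have h2 : ∀ u : Fin n, u ∈ B.map (π⁻¹ : Perm (Fin n)).toEmbedding ↔ π u ∈ B := by
      intro u
      rw [Finset.mem_map]
      constructor
      · rintro ⟨v, hv, rfl⟩
        simpa using hv
      · intro h
        exact ⟨π u, h, by simp⟩
    simp only [h2]

/-- the odd letters, in order -/
def LB (B : Finset (Fin n)) : List (Fin n) := (List.finRange n).filter (· ∈ B)

/-- the multilinear monomial of the even letters -/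
noncomputable def mB (B : Finset (Fin n)) : Fin n →₀ ℕ :=
  Multiset.toFinsupp (((List.finRange n).filter (fun l => ¬ l ∈ B) : List (Fin n)) :
    Multiset (Fin n))

/-- the coefficient functional -/
noncomputable def Ps (B : Finset (Fin n)) : GT (MvPolynomial (Fin n) ℤ) n →+ ℤ :=
  (MvPolynomial.coeffAddMonoidHom (mB B)).comp (GT.coef (MvPolynomial (Fin n) ℤ)
    (phL (LB B)))

theorem th_list (B : Finset (Fin n)) (L : List (Fin n)) :
    (L.map (th B)).prod = GT.mk (MvPolynomial.monomial (Multiset.toFinsupp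
      ((L.filter (fun l => ¬ l ∈ B) : List (Fin n)) : Multiset (Fin n))) 1)
      (((L.filter (· ∈ B)).map ge).prod) := by
  induction L with
  | nil =>
    simp only [List.map_nil, List.prod_nil, List.filter_nil]
    rw [Multiset.coe_nil, map_zero]
    rfl
  | cons l L ih =>
    rw [List.map_cons, List.prod_cons, ih]
    unfold th
    by_cases h : l ∈ B
    · have e1 : (l :: L).filter (· ∈ B) = l :: L.filter (· ∈ B) :=
        List.filter_cons_of_pos (by simpa using h)
      have e2 : (l :: L).filter (fun l => ¬ l ∈ B) = L.filter (fun l => ¬ l ∈ B) :=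
        List.filter_cons_of_neg (by simpa using h)
      rw [if_pos h, GT.mk_mul, one_mul, e1, e2, List.map_cons, List.prod_cons]
    · have e1 : (l :: L).filter (· ∈ B) = L.filter (· ∈ B) :=
        List.filter_cons_of_neg (by simpa using h)
      have e2 : (l :: L).filter (fun l => ¬ l ∈ B) = l :: L.filter (fun l => ¬ l ∈ B) :=
        List.filter_cons_of_pos (by simpa using h)
      rw [if_neg h, GT.mk_mul, one_mul, e1, e2, ← Multiset.cons_coe, ← Multiset.singleton_add,
        map_add, Multiset.toFinsupp_singleton]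
      congr 1
      rw [MvPolynomial.X, MvPolynomial.monomial_mul, one_mul]

theorem phL_perm {b : ℕ} (L' : List (Fin b)) : ∀ L : List (Fin b), L.Nodup →
    phL L ((L'.map (fun s => (ge s : Lam b))).prod) ≠ 0 → L'.Perm L := by
  induction L' with
  | nil =>
    intro L _ h
    rw [List.map_nil, List.prod_nil, SS.phL_one] at h
    by_cases hL : L = []
    · rw [hL]
    · rw [if_neg hL] at h
      exact absurd rfl h
  | cons s L' ih =>
    intro L hL h
    obtain ⟨ε, hε, h1⟩ := SS.phL_mul s L hL
    rw [List.map_cons, List.prod_cons, h1] at h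
    by_cases hs : s ∈ L
    · rw [if_pos hs] at h
      have h2 := ih (L.erase s) (hL.erase s) (fun e => h (by rw [e, mul_zero]))
      exact (h2.cons s).trans (List.perm_cons_erase hs).symm
    · rw [if_neg hs] at h
      exact absurd rfl h

theorem phL_self {b : ℕ} (L : List (Fin b)) (hL : L.Nodup) :
    phL L ((L.map (fun s => (ge s : Lam b))).prod) ≠ 0 := by
  induction L with
  | nil => rw [List.map_nil, List.prod_nil, SS.phL_one, if_pos rfl]; exact one_ne_zero
  | cons s L ih =>
    obtain ⟨ε, hε, h⟩ := SS.phL_mul s (s :: L) hL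
    rw [List.map_cons, List.prod_cons, h, if_pos List.mem_cons_self, List.erase_cons_head]
    exact mul_ne_zero (fun h0 => by rw [h0] at hε; simp at hε) (ih (List.nodup_cons.1 hL).2)

theorem Ps_list (B : Finset (Fin n)) (L : List (Fin n)) :
    Ps B (L.map (th B)).prod = phL (LB B) (((L.filter (· ∈ B)).map ge).prod) *
      (if Multiset.toFinsupp ((L.filter (fun l => ¬ l ∈ B) : List (Fin n)) :
        Multiset (Fin n)) = mB B then 1 else 0) := by
  rw [th_list]
  unfold Ps
  rw [AddMonoidHom.comp_apply, GT.coef_mk, map_zsmul, smul_eq_mul]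
  congr 1
  exact MvPolynomial.coeff_monomial _ _ _

theorem Ps_perm (B : Finset (Fin n)) (L : List (Fin n)) (h : Ps B (L.map (th B)).prod ≠ 0) :
    L.Perm (List.finRange n) := by
  rw [Ps_list] at h
  have h1 : phL (LB B) (((L.filter (· ∈ B)).map ge).prod) ≠ 0 := fun e => h (by rw [e, zero_mul])
  have h2 : Multiset.toFinsupp ((L.filter (fun l => ¬ l ∈ B) : List (Fin n)) :
        Multiset (Fin n)) = mB B := by
    by_contra hc
    rw [if_neg hc, mul_zero] at h
    exact h rfl
  have h3 : (L.filter (· ∈ B)).Perm ((List.finRange n).filter (· ∈ B)) :=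
    phL_perm _ _ ((List.nodup_finRange n).filter _) h1
  have h4 : (L.filter (fun l => ¬ l ∈ B)).Perm ((List.finRange n).filter (fun l => ¬ l ∈ B)) := by
    have h5 := Multiset.toFinsupp.injective h2
    exact Multiset.coe_eq_coe.1 h5
  have h5 := List.filter_append_perm (fun l => decide (l ∈ B)) L
  have h6 := List.filter_append_perm (fun l => decide (l ∈ B)) (List.finRange n)
  have h7 : ∀ M : List (Fin n), M.filter (fun l => !decide (l ∈ B)) =
      M.filter (fun l => decide (¬ l ∈ B)) := by
    intro M
    congr 1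
    funext l
    simp
  rw [h7] at h5 h6
  exact h5.symm.trans ((h3.append h4).trans h6)

theorem Ps_self (B : Finset (Fin n)) : Ps B (List.ofFn (th B)).prod ≠ 0 := by
  have h1 : List.ofFn (th B) = (List.finRange n).map (th B) := List.ofFn_eq_map
  rw [h1, Ps_list]
  have h2 : Multiset.toFinsupp (((List.finRange n).filter (fun l => ¬ l ∈ B) : List (Fin n)) :
        Multiset (Fin n)) = mB B := rfl
  rw [if_pos h2, mul_one]
  exact phL_self _ ((List.nodup_finRange n).filter _)

end theta

end Pool.PI34.XH

end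

/-! ### part X_St3 -/
section

/-!
PI34, p = 2, block START, file 3: `Start k`.
-/

set_option autoImplicit false
set_option linter.unusedSectionVars false

namespace Pool.PI34.XH

open Equiv Finset
open Pool.PI34.H4 (P g act)
open Pool.PI34.SS (FA GT Lam ge phL)

section eval

variable {n k : ℕ} {X : Type} [DecidableEq X]

/-- the letters as matrices -/
noncomputable def TT (B : Finset (Fin n)) (E : Fin n → Matrix (Fin k) (Fin k) ℤ) (l : Fin n) :
    Matrix (Fin k) (Fin k) (GT (MvPolynomial (Fin n) ℤ) n) :=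
  Matrix.of fun i j => (E l i j) • th B l

theorem TT_prod (B : Finset (Fin n)) (E : Fin n → Matrix (Fin k) (Fin k) ℤ) (L : List (Fin n))
    (i j : Fin k) :
    (L.map (TT B E)).prod i j = ((L.map E).prod i j) • (L.map (th B)).prod := by
  induction L generalizing i with
  | nil =>
    rw [List.map_nil, List.map_nil, List.map_nil, List.prod_nil, List.prod_nil, List.prod_nil,
      Matrix.one_apply, Matrix.one_apply]
    split_ifs
    · rw [one_smul]
    · rw [zero_smul]
  | cons l L ih =>
    rw [List.map_cons, List.map_cons, List.map_cons, List.prod_cons, List.prod_cons,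
      List.prod_cons, Matrix.mul_apply, Matrix.mul_apply, Finset.sum_smul]
    refine Finset.sum_congr rfl fun m _ => ?_
    rw [ih]
    change (E l i m • th B l) * _ = _
    rw [smul_mul_smul_comm]

/-- the values of the variables -/
noncomputable def YY (B : Finset (Fin n)) (E : Fin n → Matrix (Fin k) (Fin k) ℤ) (c : Fin n → X)
    (x : X) : Matrix (Fin k) (Fin k) (GT (MvPolynomial (Fin n) ℤ) n) :=
  ∑ l, if c l = x then TT B E l else 0

theorem YY_word (B : Finset (Fin n)) (E : Fin n → Matrix (Fin k) (Fin k) ℤ) (c : Fin n → X)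
    {m : ℕ} (u : Fin m → X) :
    (List.ofFn fun p => YY B E c (u p)).prod =
      ∑ f : Fin m → Fin n, if ∀ p, c (f p) = u p then (List.ofFn fun p => TT B E (f p)).prod
        else 0 := by
  have h1 := (MultilinearMap.mkPiAlgebraFin ℤ m
    (Matrix (Fin k) (Fin k) (GT (MvPolynomial (Fin n) ℤ) n))).map_sum
      (fun (p : Fin m) (l : Fin n) => if c l = u p then TT B E l else 0)
  simp only [MultilinearMap.mkPiAlgebraFin_apply] at h1
  refine h1.trans (Finset.sum_congr rfl fun f _ => ?_)
  by_cases h : ∀ p, c (f p) = u p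
  · rw [if_pos h]
    congr 2
    funext p
    rw [if_pos (h p)]
  · rw [if_neg h]
    push Not at h
    obtain ⟨p, hp⟩ := h
    refine List.prod_eq_zero ?_
    rw [List.mem_ofFn]
    exact ⟨p, if_neg hp⟩

/-- the term of a permutation -/
noncomputable def tm (B : Finset (Fin n)) (E : Fin n → Matrix (Fin k) (Fin k) ℤ) (i j : Fin k)
    (τ : Perm (Fin n)) : ℤ :=
  (List.ofFn fun p => E (τ p)).prod i j * Ps B (List.ofFn fun p => th B (τ p)).prod

theorem Ps_entry (B : Finset (Fin n)) (E : Fin n → Matrix (Fin k) (Fin k) ℤ) (i j : Fin k)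
    {m : ℕ} (f : Fin m → Fin n) :
    Ps B ((List.ofFn fun p => TT B E (f p)).prod i j) =
      (List.ofFn fun p => E (f p)).prod i j * Ps B (List.ofFn fun p => th B (f p)).prod := by
  have h1 : ∀ {α : Type} (F : Fin n → α), (List.ofFn fun p => F (f p)) = (List.ofFn f).map F := by
    intro α F
    rw [List.map_ofFn]
    rfl
  rw [h1, h1, h1, TT_prod, map_zsmul, smul_eq_mul]

theorem Ps_word (B : Finset (Fin n)) (E : Fin n → Matrix (Fin k) (Fin k) ℤ) (c : Fin n → X)
    (i j : Fin k) (w : List X) :
    Ps B ((w.map (YY B E c)).prod i j) =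
      ∑ τ : Perm (Fin n), if (List.ofFn fun p => c (τ p)) = w then tm B E i j τ else 0 := by
  obtain ⟨m, u, rfl⟩ : ∃ (m : ℕ) (u : Fin m → X), w = List.ofFn u :=
    ⟨w.length, w.get, (List.ofFn_get w).symm⟩
  have h1 : (List.ofFn u).map (YY B E c) = List.ofFn fun p => YY B E c (u p) := by
    rw [List.map_ofFn]
    rfl
  rw [h1, YY_word, Matrix.sum_apply, map_sum]
  have h2 : ∀ f : Fin m → Fin n, Ps B ((if ∀ p, c (f p) = u p then
      (List.ofFn fun p => TT B E (f p)).prod else 0) i j) =
      if ∀ p, c (f p) = u p then (List.ofFn fun p => E (f p)).prod i j *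
        Ps B (List.ofFn fun p => th B (f p)).prod else 0 := by
    intro f
    split_ifs
    · exact Ps_entry B E i j f
    · exact map_zero _
  rw [Finset.sum_congr rfl fun f _ => h2 f]
  have h3 : ∀ f : Fin m → Fin n, Ps B (List.ofFn fun p => th B (f p)).prod ≠ 0 →
      (List.ofFn f).Perm (List.finRange n) := by
    intro f hf
    apply Ps_perm B
    have h1 : (List.ofFn f).map (th B) = List.ofFn fun p => th B (f p) := by
      rw [List.map_ofFn]
      rfl
    rw [h1]
    exact hf
  by_cases hm : m = n
  · subst hm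
    symm
    refine Finset.sum_of_injOn (fun τ : Perm (Fin m) => (τ : Fin m → Fin m)) ?_ ?_ ?_ ?_
    · intro τ _ τ' _ h
      exact DFunLike.coe_injective h
    · intro τ _
      simp
    · intro f _ hf
      by_contra hne
      have h4 : Ps B (List.ofFn fun p => th B (f p)).prod ≠ 0 := by
        intro h5
        apply hne
        rw [h5, mul_zero, ite_self]
      have h5 := h3 f h4
      have h6 : Function.Injective f := by
        rw [← List.nodup_ofFn]
        exact h5.nodup_iff.2 (List.nodup_finRange m)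
      apply hf
      exact ⟨Equiv.ofBijective f (Finite.injective_iff_bijective.1 h6), by simp, rfl⟩
    · intro τ _
      have h4 : (List.ofFn fun p => c (τ p)) = List.ofFn u ↔ ∀ p, c (τ p) = u p := by
        rw [List.ofFn_inj]
        exact funext_iff
      by_cases h : ∀ p, c (τ p) = u p
      · rw [if_pos h, if_pos (h4.2 h)]
        rfl
      · rw [if_neg h, if_neg (fun e => h (h4.1 e))]
  · rw [Finset.sum_eq_zero, Finset.sum_eq_zero]
    · intro τ _
      rw [if_neg]
      intro h
      have := congrArg List.length h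
      rw [List.length_ofFn, List.length_ofFn] at this
      exact hm this.symm
    · intro f _
      by_contra hne
      have h4 : Ps B (List.ofFn fun p => th B (f p)).prod ≠ 0 := by
        intro h5
        apply hne
        rw [h5, mul_zero, ite_self]
      have h5 := (h3 f h4).length_eq
      rw [List.length_ofFn, List.length_finRange] at h5
      exact hm h5

/-- the expansion in words -/
noncomputable def wrd (X : Type) : (List X →₀ ℤ) →+ FA X :=
  Finsupp.liftAddHom fun w => (AddMonoidHom.flip (AddMonoidHom.smul) ((w.map FA.of).prod) :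
    ℤ →+ FA X)

theorem wrd_single {X : Type} (w : List X) (a : ℤ) :
    wrd X (Finsupp.single w a) = a • (w.map FA.of).prod := by
  unfold wrd
  rw [Finsupp.liftAddHom_apply_single]
  rfl

theorem wrd_surj {X : Type} (G : FA X) : ∃ γ, wrd X γ = G := by
  have h : G ∈ (wrd X).range := by
    induction G using FA.induction with
    | h0 r =>
      refine ⟨Finsupp.single [] r, ?_⟩
      rw [wrd_single, List.map_nil, List.prod_nil, zsmul_one]
    | h1 y =>
      refine ⟨Finsupp.single [y] 1, ?_⟩
      rw [wrd_single, one_smul, List.map_cons, List.map_nil, List.prod_cons, List.prod_nil,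
        mul_one]
    | hm u v hu hv =>
      obtain ⟨γ, rfl⟩ := hu
      obtain ⟨γ', rfl⟩ := hv
      induction γ using Finsupp.induction_linear with
      | zero => rw [map_zero, zero_mul]; exact zero_mem _
      | add a b ha hb => rw [map_add, add_mul]; exact add_mem ha hb
      | single w a =>
        induction γ' using Finsupp.induction_linear with
        | zero => rw [map_zero, mul_zero]; exact zero_mem _
        | add a b ha hb => rw [map_add, mul_add]; exact add_mem ha hb
        | single w' b =>
          refine ⟨Finsupp.single (w ++ w') (a * b), ?_⟩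
          rw [wrd_single, wrd_single, wrd_single, List.map_append, List.prod_append,
            smul_mul_smul_comm]
    | ha u v hu hv => exact add_mem hu hv
  exact h

theorem lift_wrd {X R : Type} [Ring R] (m : X → R) (γ : List X →₀ ℤ) :
    FA.lift m (wrd X γ) = γ.sum fun w a => a • (w.map m).prod := by
  induction γ using Finsupp.induction_linear with
  | zero => rw [map_zero, map_zero, Finsupp.sum_zero_index]
  | add a b ha hb =>
    rw [map_add, map_add, ha, hb, Finsupp.sum_add_index']
    · intro w; exact zero_smul _ _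
    · intro w a b; exact add_smul _ _ _
  | single w a =>
    have h0 : (Finsupp.single w a).sum (fun (w : List X) (a : ℤ) => a • (w.map m).prod) =
        a • (w.map m).prod := Finsupp.sum_single_index (zero_smul _ _)
    rw [wrd_single, map_zsmul, h0]
    congr 1
    rw [map_list_prod, List.map_map]
    congr 2
    funext y
    exact FA.lift_of m y

theorem QQ_zero_sum (γ : List X →₀ ℤ) (h : wrd X γ ∈ SS.QQ k X) (c : Fin n → X)
    (B : Finset (Fin n)) (E : Fin n → Matrix (Fin k) (Fin k) ℤ) (i j : Fin k) :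
    ∑ τ : Perm (Fin n), γ (List.ofFn fun p => c (τ p)) *
      (sgB τ B * (List.ofFn fun p => E (τ p)).prod i j) = 0 := by
  obtain ⟨N, hN, h1⟩ := h
  have h2 := h1 (GT (MvPolynomial (Fin n) ℤ) n) (GT.sc _ n) (YY B E c)
    (fun y hy => absurd trivial hy)
  have h3 := congrArg (fun M : Matrix (Fin k) (Fin k) (GT (MvPolynomial (Fin n) ℤ) n) =>
    Ps B (M i j)) h2
  simp only [Matrix.smul_apply, map_nsmul, Matrix.zero_apply, map_zero] at h3
  have h4 : Ps B (FA.lift (YY B E c) (wrd X γ) i j) = 0 := by
    rcases smul_eq_zero.1 h3 with h5 | h5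
    · exact absurd h5 hN
    · exact h5
  rw [lift_wrd, Finsupp.sum, Matrix.sum_apply, map_sum] at h4
  have h5 : ∀ w ∈ γ.support, Ps B ((γ w • (w.map (YY B E c)).prod) i j) =
      ∑ τ : Perm (Fin n), if (List.ofFn fun p => c (τ p)) = w then γ w * tm B E i j τ else 0 := by
    intro w _
    rw [Matrix.smul_apply, map_zsmul, Ps_word, smul_eq_mul, Finset.mul_sum]
    refine Finset.sum_congr rfl fun τ _ => ?_
    rw [mul_ite, mul_zero]
  rw [Finset.sum_congr rfl h5, Finset.sum_comm] at h4
  have h6 : ∀ τ : Perm (Fin n), (∑ w ∈ γ.support,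
      if (List.ofFn fun p => c (τ p)) = w then γ w * tm B E i j τ else 0) =
      γ (List.ofFn fun p => c (τ p)) * tm B E i j τ := by
    intro τ
    rw [Finset.sum_ite_eq]
    split_ifs with h7
    · rfl
    · rw [Finsupp.notMem_support_iff.1 h7, zero_mul]
  rw [Finset.sum_congr rfl fun τ _ => h6 τ] at h4
  have h7 : ∀ τ : Perm (Fin n), γ (List.ofFn fun p => c (τ p)) * tm B E i j τ =
      (γ (List.ofFn fun p => c (τ p)) * (sgB τ B * (List.ofFn fun p => E (τ p)).prod i j)) *
        Ps B (List.ofFn (th B)).prod := by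
    intro τ
    unfold tm
    rw [th_prod, map_zsmul, smul_eq_mul]
    ring
  rw [Finset.sum_congr rfl fun τ _ => h7 τ, ← Finset.sum_mul] at h4
  rcases mul_eq_zero.1 h4 with h8 | h8
  · exact h8
  · exact absurd h8 (Ps_self B)

theorem act_zero_of_single {k : ℕ} {α : Type} [Fintype α] [DecidableEq α] (y : P α)
    (h : ∀ w w', act k α y (Pi.single w' 1) w = 0) : act k α y = 0 := by
  apply LinearMap.pi_ext'
  intro w'
  ext w
  simpa using h w w'

theorem QQ_act (γ : List X →₀ ℤ) (h : wrd X γ ∈ SS.QQ k X) (c : Fin n → X)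
    (B : Finset (Fin n)) :
    act k _ (∑ τ : Perm (Fin n), (γ (List.ofFn fun p => c (τ p)) * sgB τ B) •
      cj τ (g (pathP n))) = 0 := by
  apply act_zero_of_single
  intro w w'
  rw [H4.act_sum, Finset.sum_apply]
  have h1 := QQ_zero_sum (k := k) γ h c B
    (fun l => Matrix.single (w' (some l)) (w (some l)) (1 : ℤ)) (w none) (w' none)
  have h2 : ∀ τ : Perm (Fin n), act k _ ((γ (List.ofFn fun p => c (τ p)) * sgB τ B) •
      cj τ (g (pathP n))) (Pi.single w' 1) w =
      ((γ (List.ofFn fun p => c (τ p)) * (sgB τ B * (List.ofFn fun p =>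
        Matrix.single (w' (some (τ p))) (w (some (τ p))) (1 : ℤ)).prod (w none) (w' none)) : ℤ) :
          ℚ) := by
    intro τ
    rw [H4.act_zsmul, Pi.smul_apply, act_cj_path, zsmul_eq_mul]
    push_cast
    ring
  rw [Finset.sum_congr rfl fun τ _ => h2 τ, ← Int.cast_sum]
  exact_mod_cast h1

end eval

/-- lists with interval classes -/
theorem exists_inter {X : Type} (M : Multiset X) : ∃ l : List X, (l : Multiset X) = M ∧
    Inter l.get := by
  classical
  let lo : LinearOrder X := linearOrderOfSTO (WellOrderingRel (α := X))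
  refine ⟨M.sort (· ≤ ·), Multiset.sort_eq _ _, ?_⟩
  have h1 : ∀ i j : Fin (M.sort (· ≤ ·)).length, i ≤ j →
      (M.sort (· ≤ ·)).get i ≤ (M.sort (· ≤ ·)).get j := by
    intro i j hij
    rcases hij.lt_or_eq with h | h
    · exact List.pairwise_iff_get.1 (Multiset.pairwise_sort M (· ≤ ·)) i j h
    · rw [h]
  intro i j l hij hjl h
  exact le_antisymm ((h1 j l hjl).trans h.ge) (h1 i j hij)

theorem exists_perm {X : Type} {N : ℕ} (c : Fin N → X) (w : List X)
    (h : w.Perm (List.ofFn c)) : ∃ π : Perm (Fin N), (List.ofFn fun i => c (π i)) = w := by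
  classical
  have hl : w.length = N := by
    rw [h.length_eq, List.length_ofFn]
  subst hl
  have h1 : ∀ x, Fintype.card {i // w.get i = x} = Fintype.card {i // c i = x} := by
    intro x
    have h2 : ∀ f : Fin w.length → X, Fintype.card {i // f i = x} = (List.ofFn f).count x := by
      intro f
      rw [Fintype.card_subtype, ← Multiset.coe_count, ← Fin.univ_val_map, Multiset.count_map]
      simp only [Finset.card_def, Finset.filter_val, eq_comm]
    rw [h2, h2, List.ofFn_get]
    exact h.count_eq x
  let e : ∀ x, {i // w.get i = x} ≃ {i // c i = x} := fun x => Fintype.equivOfCardEq (h1 x)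
  refine ⟨Equiv.ofFiberEquiv e, ?_⟩
  have h3 : (fun i => c (Equiv.ofFiberEquiv e i)) = w.get := by
    funext i
    exact Equiv.ofFiberEquiv_map e i
  rw [h3, List.ofFn_get]

/-- START -/
theorem start (k : ℕ) : Start k := by
  intro X _ G hG
  obtain ⟨γ, rfl⟩ := wrd_surj G
  choose lM hlM hInt using fun M : Multiset X => exists_inter M
  choose T hT1 hT2 using fun (n : ℕ) (π : Perm (Fin n)) => exists_T k π
  set S : Finset (Multiset X) := γ.support.image (fun w : List X => (w : Multiset X)) with hS
  have hπ : ∀ w : List X, ∃ π : Perm (Fin (lM (w : Multiset X)).length),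
      (List.ofFn fun i => (lM (w : Multiset X)).get (π i)) = w := by
    intro w
    apply exists_perm
    rw [List.ofFn_get]
    exact Multiset.coe_eq_coe.1 (hlM w).symm
  choose pw hpw using hπ
  -- the coordinates
  let tt : ∀ M : Multiset X, Finset (Fin (lM M).length) → PO (lM M).length := fun M h =>
    ∑ w ∈ γ.support, if hw : (w : Multiset X) = M then
      γ w • T (lM M).length (hw ▸ pw w) h else 0
  have key : ∀ M : Multiset X, ∀ w : List X, ∀ hw : (w : Multiset X) = M,
      (List.ofFn fun i => (lM M).get ((hw ▸ pw w : Perm (Fin (lM M).length)) i)) = w := by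
    rintro M w rfl
    exact hpw w
  have hTor : ∀ M : Multiset X, Tor k (lM M).get (tt M) := by
    intro M B
    have h1 := QQ_act (k := k) γ hG (lM M).get B
    rw [← h1]
    congr 1
    have h2 : ∀ B', ty (tt M) B' = ∑ w ∈ γ.support, if hw : (w : Multiset X) = M then
        (γ w * sgB (hw ▸ pw w : Perm (Fin (lM M).length)) B') •
          cj (hw ▸ pw w : Perm (Fin (lM M).length)) (g (pathP (lM M).length)) else 0 := by
      intro B'
      have h3 : ty (tt M) B' = ∑ w ∈ γ.support, ty (fun h => if hw : (w : Multiset X) = M then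
          γ w • T (lM M).length (hw ▸ pw w) h else 0) B' := by
        unfold ty
        rw [Finset.sum_comm]
        refine Finset.sum_congr rfl fun h _ => ?_
        rw [← Finset.smul_sum]
      rw [h3]
      refine Finset.sum_congr rfl fun w _ => ?_
      split_ifs with hw
      · have h4 : ty (fun h => γ w • T (lM M).length (hw ▸ pw w) h) B' =
            γ w • ty (T (lM M).length (hw ▸ pw w)) B' := by
          unfold ty
          rw [Finset.smul_sum]
          exact Finset.sum_congr rfl fun h _ => smul_comm _ _ _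
        rw [h4, hT1, smul_smul]
      · unfold ty
        simp
    -- the double sum
    have h3 : ∀ σ : Perm (Fin (lM M).length), sgB σ B • cj σ (ty (tt M)
        (B.map (σ⁻¹ : Perm (Fin (lM M).length)).toEmbedding)) =
        ∑ w ∈ γ.support, if hw : (w : Multiset X) = M then
          (γ w * sgB (σ * (hw ▸ pw w : Perm (Fin (lM M).length))) B) •
            cj (σ * (hw ▸ pw w : Perm (Fin (lM M).length))) (g (pathP (lM M).length)) else 0 := by
      intro σ
      rw [h2, cj_sum, Finset.smul_sum]
      refine Finset.sum_congr rfl fun w _ => ?_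
      split_ifs with hw
      · rw [cj_zsmul, smul_smul, sgB_mul, cj_mul]
        congr 1
        ring
      · have : cj σ (0 : PO (lM M).length) = 0 := (cjH σ).map_zero
        rw [this, smul_zero]
    rw [Finset.sum_congr rfl fun σ _ => h3 σ, Finset.sum_comm]
    -- the right-hand side by words
    have h4 : ∀ τ : Perm (Fin (lM M).length),
        (γ (List.ofFn fun p => (lM M).get (τ p)) * sgB τ B) • cj τ (g (pathP (lM M).length)) =
        ∑ w ∈ γ.support, if (List.ofFn fun p => (lM M).get (τ p)) = w then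
          (γ w * sgB τ B) • cj τ (g (pathP (lM M).length)) else 0 := by
      intro τ
      rw [Finset.sum_ite_eq]
      split_ifs with h7
      · rfl
      · rw [Finsupp.notMem_support_iff.1 h7, zero_mul, zero_smul]
    rw [Finset.sum_congr rfl fun τ _ => h4 τ,
      Finset.sum_comm (s := (univ : Finset (Perm (Fin (lM M).length)))) (t := γ.support)]
    refine Finset.sum_congr rfl fun w _ => ?_
    by_cases hw : (w : Multiset X) = M
    · have hkey := key M w hw
      simp only [dif_pos hw]
      set π : Perm (Fin (lM M).length) := (hw ▸ pw w : Perm (Fin (lM M).length)) with hπ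
      rw [← Finset.sum_filter]
      refine Finset.sum_bij (fun σ _ => σ * π) ?_ ?_ ?_ ?_
      · intro σ hσ
        rw [Finset.mem_filter] at hσ ⊢
        refine ⟨mem_univ _, ?_⟩
        rw [← hkey]
        congr 1
        funext p
        exact congrFun hσ.2 (π p)
      · intro σ _ σ' _ h
        exact mul_right_cancel h
      · intro τ hτ
        rw [Finset.mem_filter] at hτ
        refine ⟨τ * π⁻¹, ?_, by simp⟩
        rw [Finset.mem_filter]
        refine ⟨mem_univ _, ?_⟩
        have h5 := hτ.2.trans hkey.symm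
        rw [List.ofFn_inj] at h5
        funext p
        have h6 := congrFun h5 (π⁻¹ p)
        simp only [Function.comp_apply, Perm.mul_apply]
        rw [h6]
        congr 1
        exact π.apply_symm_apply p
      · intro σ _
        rfl
    · simp only [dif_neg hw, Finset.sum_const_zero]
      symm
      refine Finset.sum_eq_zero fun τ _ => ?_
      rw [if_neg]
      intro h
      apply hw
      rw [← h]
      refine Eq.trans ?_ (hlM M)
      have h5 := Equiv.Perm.ofFn_comp_perm τ (lM M).get
      rw [List.ofFn_get] at h5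
      exact Multiset.coe_eq_coe.2 h5
  refine ⟨S.card, fun κ => (lM (S.equivFin.symm κ)).length, fun κ => (lM (S.equivFin.symm κ)).get,
    fun κ => tt (S.equivFin.symm κ), fun κ => ⟨hInt _, hTor _⟩, ?_⟩
  · intro Φ U _ _ ρ om PS a
    rw [lift_wrd, Finsupp.sum, map_sum, Finset.sum_mul]
    have h1 : ∀ M : Multiset X, ∑ h, PS.psi (lM M).length (a ∘ (lM M).get) h (tt M h) =
        ∑ w ∈ γ.support, if (w : Multiset X) = M then ρ (γ w • (w.map a).prod) * om else 0 := by
      intro M
      have h2 : ∀ h, PS.psi (lM M).length (a ∘ (lM M).get) h (tt M h) = ∑ w ∈ γ.support,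
          if hw : (w : Multiset X) = M then γ w • PS.psi (lM M).length (a ∘ (lM M).get) h
            (T (lM M).length (hw ▸ pw w) h) else 0 := by
        intro h
        rw [map_sum]
        refine Finset.sum_congr rfl fun w _ => ?_
        split_ifs with hw
        · exact map_zsmul _ _ _
        · exact map_zero _
      rw [Finset.sum_congr rfl fun h _ => h2 h, Finset.sum_comm]
      refine Finset.sum_congr rfl fun w _ => ?_
      by_cases hw : (w : Multiset X) = M
      · simp only [dif_pos hw, if_pos hw]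
        rw [← Finset.smul_sum, hT2, PS.path, map_zsmul, smul_mul_assoc]
        congr 4
        have hkey := key M w hw
        conv_rhs => rw [← hkey]
        rw [List.map_ofFn]
        rfl
      · simp only [dif_neg hw, if_neg hw, Finset.sum_const_zero]
    have h2 : ∑ κ : Fin S.card, ∑ h, PS.psi (lM (S.equivFin.symm κ)).length
        (a ∘ (lM (S.equivFin.symm κ)).get) h (tt (S.equivFin.symm κ) h) =
        ∑ M ∈ S, ∑ w ∈ γ.support, if (w : Multiset X) = M then ρ (γ w • (w.map a).prod) * om
          else 0 := by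
      rw [← Finset.sum_coe_sort S, ← Equiv.sum_comp S.equivFin.symm]
      exact Finset.sum_congr rfl fun κ _ => h1 _
    rw [h2, Finset.sum_comm]
    refine Finset.sum_congr rfl fun w hw => ?_
    rw [Finset.sum_ite_eq, if_pos]
    exact Finset.mem_image_of_mem _ hw

end Pool.PI34.XH

end
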