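import Pool.Agent.LibPI54.M08
import Pool.Agent.LibPI54.M10
import Pool.Agent.LibPI54.M11
import Pool.Agent.LibPI54.M52
import Pool.Agent.LibPI54.M53

/-! ### part EX_Fin -/
section

/-!
PI34, block EX (p = 2): the theorem `EXT k l`.
-/

set_option autoImplicit false
set_option linter.unusedSectionVars false
set_option linter.unusedDecidableInType false
set_option linter.unusedFintypeInType false

namespace Pool.PI34.EX

open Equiv Finset
open Pool.PI34.Super (Lt odd pv prs Ap)
open Pool.PI34.SK (W comp ins)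
open Pool.PI34.H4 (P g emb As AK)

/-- The square root of two is in the radical. -/
theorem r2_jac : XX.r2 ∈ Ideal.jacobson (⊥ : Ideal XX.O2) := by
  rw [Ideal.mem_jacobson_bot]
  intro y
  rw [QuadraticAlgebra.isUnit_iff_norm_isUnit]
  have hp : SK.PInt 2 (Ap 2) := inferInstance
  refine hp.unit _ ?_
  have h1 : (XX.r2 * y + 1).norm =
      1 + algebraMap ℤ (Ap 2) 2 * (2 * y.im + 2 * y.im ^ 2 - y.re ^ 2) := by
    have h2 : (1 : XX.O2).re = 1 := rfl
    have h3 : (1 : XX.O2).im = 0 := rfl
    rw [QuadraticAlgebra.norm_def]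
    simp only [QuadraticAlgebra.re_add, QuadraticAlgebra.im_add, QuadraticAlgebra.re_mul,
      QuadraticAlgebra.im_mul, XX.r2, h2, h3, map_ofNat]
    ring
  rw [h1]
  have h2 : Super.rA 2 (1 + algebraMap ℤ (Ap 2) 2 * (2 * y.im + 2 * y.im ^ 2 - y.re ^ 2)) = 1 := by
    rw [map_add, map_one, map_mul, Super.rA_int]
    have h3 : (((2 : ℤ)) : ZMod 2) = 0 := by decide
    rw [h3, zero_mul, add_zero]
  intro h3
  have h4 : Super.rA 2 (1 + algebraMap ℤ (Ap 2) 2 * (2 * y.im + 2 * y.im ^ 2 - y.re ^ 2)) = 0 := h3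
  rw [h2] at h4
  exact one_ne_zero h4

instance : CharZero (Ap 2) := by
  refine ⟨fun a b h => ?_⟩
  have h1 := congrArg (Super.jA 2) h
  rw [map_natCast, map_natCast] at h1
  exact_mod_cast h1

instance : CharZero XX.O2 := by
  refine ⟨fun a b h => ?_⟩
  have h1 := congrArg QuadraticAlgebra.re h
  rw [QuadraticAlgebra.re_natCast, QuadraticAlgebra.re_natCast] at h1
  exact_mod_cast h1

/-- The integral group algebra inside the group algebra over `Ap 2`. -/
noncomputable def toAp {α : Type} : P α →+* MonoidAlgebra (Ap 2) (Perm α) :=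
  MonoidAlgebra.mapRingHom (Perm α) (algebraMap ℤ (Ap 2))

theorem toAp_g {α : Type} (σ : Perm α) : toAp (g σ) = MonoidAlgebra.of (Ap 2) _ σ := by
  change MonoidAlgebra.mapRingHom (Perm α) (algebraMap ℤ (Ap 2)) (MonoidAlgebra.single σ 1) =
    MonoidAlgebra.single σ 1
  rw [MonoidAlgebra.mapRingHom_single, map_one]

theorem plain_toAp {k l n : ℕ} (y : P (Fin n)) :
    XX.plain XX.O2 k l (Fin n) (Ap 2) (toAp y) = pf XX.O2 k l (Fin n) y := by
  refine H4.P_induction (p := fun y => XX.plain XX.O2 k l (Fin n) (Ap 2) (toAp y) =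
    pf XX.O2 k l (Fin n) y) y ?_ ?_ ?_
  · intro σ
    rw [toAp_g]
    apply LinearMap.ext
    intro f
    funext w
    rw [pa_g]
    have h1 : XX.plain XX.O2 k l (Fin n) (Ap 2) (MonoidAlgebra.of (Ap 2) _ σ) =
        XX.pH XX.O2 k l (Fin n) σ := by
      unfold XX.plain
      simp
    rw [h1]
    rfl
  · intro x y hx hy
    rw [map_add, map_add, map_add, hx, hy]
  · intro n x hx
    rw [map_zsmul, map_zsmul, map_zsmul, hx]

theorem sh_toAp {n : ℕ} (y : P (Fin n)) :
    XX.sh (Ap 2) n (toAp y) = toAp (emb (Fin.succEmb n) y) := by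
  refine H4.P_induction (p := fun y => XX.sh (Ap 2) n (toAp y) = toAp (emb (Fin.succEmb n) y))
    y ?_ ?_ ?_
  · intro σ
    rw [toAp_g, H4.emb_g, toAp_g]
    unfold XX.sh
    rw [Super.plL_of]
    rfl
  · intro x y hx hy
    rw [map_add, map_add, map_add, map_add, hx, hy]
  · intro n x hx
    rw [map_zsmul, map_zsmul, map_zsmul, map_zsmul, hx]

theorem card_Lt (k l : ℕ) : Fintype.card (Lt k l) = k + l := by
  simp [Lt]

/-- **(EX)**, from the data of the two layers. -/
theorem ext_of {k l : ℕ} {m : ℕ} (hm : k + l = m + 1) (V : VD (m + 1))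
    (Wd : WD ((m + 1) ^ (m + 1))) : XX.EXT k l := by
  classical
  let e : I0 m V Wd ↪ Fin (Fintype.card (I0 m V Wd)) := (Fintype.equivFin _).toEmbedding
  have h1 := fun T => ext_form (O := XX.O2) (k := k) (l := l) XX.r2_sq r2_jac hm e T
  choose lam hlam using h1
  refine ⟨_, toAp (emb e (Om0 m V Wd)), lam, ?_, fun T => ?_⟩
  · rw [plain_toAp]
    intro h
    have hc : Fintype.card (Lt k l) = m + 1 := by rw [card_Lt, hm]
    have : Nonempty (Lt k l) := Fintype.card_pos_iff.1 (by omega)
    exact not_kill_emb e (Om0_ne hc V Wd) (kill_zero_of_inj h)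
  · have h2 := hlam T
    have h3 : pf XX.O2 k l _ (emb (en e 1) (Om0 m V Wd)) =
        XX.plain XX.O2 k l _ (Ap 2) (XX.sh (Ap 2) _ (toAp (emb e (Om0 m V Wd)))) := by
      rw [sh_toAp, plain_toAp, H4.emb_trans]
      rfl
    unfold Om at h2
    rw [h3] at h2
    exact h2

end Pool.PI34.EX

end

/-! ### part X_Close -/
section

/-!
PI34, p = 2, block SEX: the final closing of the catalyst strands.
-/

set_option autoImplicit false
set_option linter.unusedSectionVars false

namespace Pool.PI34.XH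

open Equiv Finset
open Pool.PI34.H4
open Pool.PI34.EV

/-! ### traces -/

section traces

variable {α β : Type} [Fintype α] [DecidableEq α] [Fintype β] [DecidableEq β] {N : ℕ}

theorem tc_add (x y : P α) : tc N (x + y) = tc N x + tc N y := by
  unfold tc
  rw [← Finset.sum_add_distrib]
  exact Finset.sum_congr rfl fun w _ => by rw [act_add, Pi.add_apply]

theorem tc_zsmul (a : ℤ) (x : P α) : tc N (a • x) = a * tc N x := by
  unfold tc
  rw [Finset.mul_sum]
  exact Finset.sum_congr rfl fun w _ => by rw [act_zsmul, Pi.smul_apply, zsmul_eq_mul]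

theorem tc_zero : tc N (0 : P α) = 0 := by
  have h := tc_zsmul (N := N) 0 (0 : P α)
  rw [zero_smul] at h
  rw [h]
  simp

theorem tc_sum {ι : Type} (s : Finset ι) (x : ι → P α) :
    tc N (∑ i ∈ s, x i) = ∑ i ∈ s, tc N (x i) := by
  classical
  induction s using Finset.induction_on with
  | empty => rw [Finset.sum_empty, Finset.sum_empty, tc_zero]
  | insert a s ha ih => rw [Finset.sum_insert ha, Finset.sum_insert ha, tc_add, ih]

theorem tc_g (σ : Perm α) :
    tc N (g σ) = ((univ.filter fun w : α → Fin N => w ∘ σ = w).card : ℚ) := by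
  unfold tc
  rw [Finset.card_eq_sum_ones, Nat.cast_sum, Finset.sum_filter]
  refine Finset.sum_congr rfl fun w _ => ?_
  rw [act_g]
  by_cases h : w ∘ σ = w
  · rw [h, if_pos rfl, Pi.single_eq_same]
    norm_num
  · rw [if_neg h, Pi.single_eq_of_ne h]

theorem tc_int (y : P α) : ∃ d : ℤ, (d : ℚ) = tc N y := by
  refine P_induction (p := fun y => ∃ d : ℤ, (d : ℚ) = tc N y) y ?_ ?_ ?_
  · intro σ
    exact ⟨_, by rw [tc_g]; rfl⟩
  · rintro x y ⟨a, ha⟩ ⟨b, hb⟩
    exact ⟨a + b, by rw [tc_add, ← ha, ← hb]; push_cast; rfl⟩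
  · rintro n x ⟨a, ha⟩
    exact ⟨n * a, by rw [tc_zsmul, ← ha]; push_cast; rfl⟩

theorem via_inl_inr (σ : Perm α) (τ : Perm β) :
    σ.viaEmbedding (Function.Embedding.inl : α ↪ α ⊕ β) *
      τ.viaEmbedding (Function.Embedding.inr : β ↪ α ⊕ β) = sumCongr σ τ := by
  ext x
  rw [Perm.mul_apply]
  rcases x with a | b
  · rw [Perm.viaEmbedding_apply_of_notMem τ]
    · exact Perm.viaEmbedding_apply σ (Function.Embedding.inl : α ↪ α ⊕ β) a
    · rintro ⟨y, hy⟩
      cases hy
  · rw [show (Sum.inr b : α ⊕ β) = (Function.Embedding.inr : β ↪ α ⊕ β) b from rfl,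
      Perm.viaEmbedding_apply]
    rw [Perm.viaEmbedding_apply_of_notMem σ]
    · rfl
    · rintro ⟨y, hy⟩
      cases hy

theorem tc_sumCongr (σ : Perm α) (τ : Perm β) :
    tc N (g (sumCongr σ τ)) = tc N (g σ) * tc N (g τ) := by
  rw [tc_g, tc_g, tc_g, ← Nat.cast_mul, ← Finset.card_product]
  congr 1
  refine Finset.card_bij' (fun w _ => (w ∘ Sum.inl, w ∘ Sum.inr))
    (fun p _ => Sum.elim p.1 p.2) ?_ ?_ ?_ ?_
  · intro w hw
    rw [mem_filter] at hw
    rw [Finset.mem_product, mem_filter, mem_filter]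
    refine ⟨⟨mem_univ _, ?_⟩, ⟨mem_univ _, ?_⟩⟩
    · funext a
      exact congrFun hw.2 (Sum.inl a)
    · funext b
      exact congrFun hw.2 (Sum.inr b)
  · rintro ⟨u, v⟩ hp
    rw [Finset.mem_product, mem_filter, mem_filter] at hp
    rw [mem_filter]
    refine ⟨mem_univ _, ?_⟩
    funext x
    rcases x with a | b
    · exact congrFun hp.1.2 a
    · exact congrFun hp.2.2 b
  · intro w _
    funext x
    rcases x with a | b <;> rfl
  · intro p _
    rfl

theorem tc_mul_disj (x : P α) (y : P β) :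
    tc N (emb (Function.Embedding.inl : α ↪ α ⊕ β) x *
      emb (Function.Embedding.inr : β ↪ α ⊕ β) y) = tc N x * tc N y := by
  refine P_induction (p := fun x => tc N (emb (Function.Embedding.inl : α ↪ α ⊕ β) x *
      emb (Function.Embedding.inr : β ↪ α ⊕ β) y) = tc N x * tc N y) x ?_ ?_ ?_
  · intro σ
    refine P_induction (p := fun y => tc N (emb (Function.Embedding.inl : α ↪ α ⊕ β) (g σ) *
      emb (Function.Embedding.inr : β ↪ α ⊕ β) y) = tc N (g σ) * tc N y) y ?_ ?_ ?_
    · intro τ
      rw [emb_g, emb_g, ← g_mul, via_inl_inr, tc_sumCongr]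
    · intro a b ha hb
      rw [map_add, mul_add, tc_add, ha, hb, tc_add, mul_add]
    · intro n a ha
      rw [emb_zsmul, mul_smul_comm, tc_zsmul, ha, tc_zsmul]
      ring
  · intro a b ha hb
    rw [map_add, add_mul, tc_add, ha, hb, tc_add, add_mul]
  · intro n a ha
    rw [emb_zsmul, smul_mul_assoc, tc_zsmul, ha, tc_zsmul]
    ring

theorem tc_g_inv (σ : Perm α) : tc N (g σ⁻¹) = tc N (g σ) := by
  rw [tc_g, tc_g]
  congr 2
  ext w
  constructor
  · intro h
    rw [mem_filter] at h ⊢
    refine ⟨mem_univ _, ?_⟩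
    have h1 := congrArg (fun v : α → Fin N => v ∘ σ) h.2
    simp only [Function.comp_assoc] at h1
    rw [← h1]
    funext x
    simp
  · intro h
    rw [mem_filter] at h ⊢
    refine ⟨mem_univ _, ?_⟩
    have h1 := congrArg (fun v : α → Fin N => v ∘ (σ⁻¹ : Perm α)) h.2
    simp only [Function.comp_assoc] at h1
    rw [← h1]
    funext x
    simp

theorem tc_kk (k : ℕ) (σ : Perm α) :
    tc (k * k) (g σ) = tc k (g (sumCongr σ⁻¹ σ)) := by
  rw [tc_sumCongr, tc_g_inv, tc_g, tc_g, ← Nat.cast_mul, ← Finset.card_product]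
  congr 1
  refine Finset.card_bij' (fun w _ => (fun a => (finProdFinEquiv.symm (w a)).1,
      fun a => (finProdFinEquiv.symm (w a)).2))
    (fun p _ => fun a => finProdFinEquiv (p.1 a, p.2 a)) ?_ ?_ ?_ ?_
  · intro w hw
    rw [mem_filter] at hw
    rw [Finset.mem_product, mem_filter, mem_filter]
    refine ⟨⟨mem_univ _, ?_⟩, ⟨mem_univ _, ?_⟩⟩
    · funext a
      have := congrFun hw.2 a
      simp only [Function.comp_apply] at this ⊢
      rw [this]
    · funext a
      have := congrFun hw.2 a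
      simp only [Function.comp_apply] at this ⊢
      rw [this]
  · rintro ⟨u, v⟩ hp
    rw [Finset.mem_product, mem_filter, mem_filter] at hp
    rw [mem_filter]
    refine ⟨mem_univ _, ?_⟩
    funext a
    have h1 := congrFun hp.1.2 a
    have h2 := congrFun hp.2.2 a
    simp only [Function.comp_apply] at h1 h2 ⊢
    rw [h1, h2]
  · intro w _
    funext a
    exact finProdFinEquiv.apply_symm_apply (w a)
  · rintro ⟨u, v⟩ _
    simp

end traces

/-! ### the places of the chase -/

/-- the partners, the W-slots, the letters -/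
abbrev AX (m n : ℕ) : Type := (Fin m ⊕ Fin m) ⊕ Fin n

variable {k : ℕ} (V : VCat k) (m n : ℕ)

/-- the open strand and the letters -/
def io : Option (Fin n) ↪ Al V (AX m n) :=
  Function.Embedding.optionMap
    ((Function.Embedding.inr : Fin n ↪ AX m n).trans Function.Embedding.inl)

/-- the exchange of the partners and the W-slots -/
def swX : Perm (Al V (AX m n)) := V.hA (sumCongr (Equiv.sumComm (Fin m) (Fin m)) 1)

variable {m n}

/-- a permutation of the W-slots -/
def sX (s : Perm (Fin m)) : Perm (Al V (AX m n)) := V.hA (sumCongr (sumCongr 1 s) 1)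

/-- a permutation of the letters -/
def sL (s : Perm (Fin n)) : Perm (Al V (AX m n)) := V.hA (sumCongr 1 s)

/-- the action of `z` on the W-slots -/
noncomputable def zst (z : P (Fin m)) (y : P (Al V (AX m n))) : P (Al V (AX m n)) :=
  ∑ s : Perm (Fin m), z.coeff s • (g (sX V s) * y * g (sX V s)⁻¹)

/-- relabelling of the letters -/
noncomputable def cjB (s : Perm (Fin n)) (y : P (Al V (AX m n))) : P (Al V (AX m n)) :=
  g (sL V s) * y * g (sL V s)⁻¹

/-- the swap rules -/
def BRules {W : Type} [AddCommGroup W] (i j : Fin n)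
    (psi' psi : Finset (Fin n) → (P (Al V (AX m n)) →+ W)) : Prop :=
  ∀ (h : Finset (Fin n)) (y : P (Al V (AX m n))), i ∉ h → j ∉ h →
    psi' h (cjB V (swap i j) y) = psi h y - psi (insert i (insert j h)) y ∧
    psi' (insert i h) (cjB V (swap i j) y) =
      psi (insert j h) y - kap h.card • psi (insert i (insert j h)) y ∧
    psi' (insert j h) (cjB V (swap i j) y) =
      psi (insert i h) y - kap h.card • psi (insert i (insert j h)) y ∧
    psi' (insert i (insert j h)) (cjB V (swap i j) y) = - psi (insert i (insert j h)) y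

/-- the target of the chase -/
def Big (k D0 : ℕ) : Prop :=
  ∃ (V : VCat k) (m : ℕ) (z : P (Fin m)), tc (k * k) z ≠ 0 ∧
    ∀ (n : ℕ) (C : Type) [DecidableEq C] (c : Fin n → C), Inter c →
    ∀ t : Finset (Fin n) → PO n, Tor k c t →
    ∀ (W : Type) [AddCommGroup W] (Psi : Finset (Fin n) → (P (Al V (AX m n)) →+ W)),
      (∀ h y, act k _ y = 0 → Psi h y = 0) →
      (∀ i j : Fin n, (j : ℕ) = i + 1 → c i = c j → BRules V i j Psi Psi) →
      ∃ N : ℕ, ¬ 2 ∣ N ∧ N • D0 • ∑ h, Psi h (zst V z (emb (io V m n) (t h) *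
        g (swX V m n) * V.θ2 (AX m n))) = 0

variable (m n)

/-- separation of the catalyst strands -/
def eCL : Al V (AX m n) ≃ Option (Fin n) ⊕ ((Fin m ⊕ Fin m) ⊕ (V.B ⊕ V.B)) where
  toFun
    | none => Sum.inl none
    | some (Sum.inl (Sum.inl x)) => Sum.inr (Sum.inl x)
    | some (Sum.inl (Sum.inr i)) => Sum.inl (some i)
    | some (Sum.inr b) => Sum.inr (Sum.inr b)
  invFun
    | Sum.inl none => none
    | Sum.inr (Sum.inl x) => some (Sum.inl (Sum.inl x))
    | Sum.inl (some i) => some (Sum.inl (Sum.inr i))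
    | Sum.inr (Sum.inr b) => some (Sum.inr b)
  left_inv := by rintro (_ | ((x | i) | b)) <;> rfl
  right_inv := by rintro ((_ | i) | (x | b)) <;> rfl

theorem io_eCL : (io V m n).trans (eCL V m n).toEmbedding = Function.Embedding.inl := by
  ext x : 1
  rcases x with _ | i <;> rfl

theorem sL_eq (s : Perm (Fin n)) : (sL V s : Perm (Al V (AX m n))) =
    Perm.viaEmbedding (optionCongr s) (io V m n) := by
  ext x : 1
  by_cases hx : x ∈ Set.range (io V m n)
  · obtain ⟨y, rfl⟩ := hx
    rw [Perm.viaEmbedding_apply]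
    rcases y with _ | i <;> rfl
  · rw [Perm.viaEmbedding_apply_of_notMem _ _ _ hx]
    rcases x with _ | ((x | i) | b)
    · exact absurd ⟨none, rfl⟩ hx
    · rfl
    · exact absurd ⟨some i, rfl⟩ hx
    · rfl

/-- the embedding of the partners and the W-slots -/
def iX : (Fin m ⊕ Fin m) ↪ Al V (AX m n) :=
  ((Function.Embedding.inl : (Fin m ⊕ Fin m) ↪ AX m n).trans Function.Embedding.inl).trans
    Function.Embedding.some

theorem hA_X (τ : Perm (Fin m ⊕ Fin m)) : (V.hA (sumCongr τ 1) : Perm (Al V (AX m n))) =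
    τ.viaEmbedding (iX V m n) := by
  ext x : 1
  by_cases hx : x ∈ Set.range (iX V m n)
  · obtain ⟨y, rfl⟩ := hx
    rw [Perm.viaEmbedding_apply]
    rfl
  · rw [Perm.viaEmbedding_apply_of_notMem _ _ _ hx]
    rcases x with _ | ((x | i) | b)
    · rfl
    · exact absurd ⟨x, rfl⟩ hx
    · rfl
    · rfl

theorem comm_io_iX (x : P (Option (Fin n))) (y : P (Fin m ⊕ Fin m)) :
    Commute (emb (io V m n) x) (emb (iX V m n) y) :=
  commute_emb_emb _ _ (fun a b h => by rcases a with _ | i <;> cases h) _ _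

theorem comm_io_jj (x : P (Option (Fin n))) (y : P (V.B ⊕ V.B)) :
    Commute (emb (io V m n) x) (emb (V.jj (AX m n)) y) :=
  commute_emb_emb _ _ (fun a b h => by rcases a with _ | i <;> cases h) _ _

theorem comm_iX_jj (x : P (Fin m ⊕ Fin m)) (y : P (V.B ⊕ V.B)) :
    Commute (emb (iX V m n) x) (emb (V.jj (AX m n)) y) :=
  commute_emb_emb _ _ (fun a b h => by cases h) _ _

theorem sum_coeff {α : Type} [Fintype α] [DecidableEq α] (z : P α) :
    z = ∑ s : Perm α, z.coeff s • g s := by
  apply MonoidAlgebra.coeff_injective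
  rw [MonoidAlgebra.coeff_sum]
  ext s
  rw [Finsupp.finsetSum_apply, Finset.sum_eq_single s]
  · rw [MonoidAlgebra.coeff_smul, Finsupp.smul_apply]
    change z.coeff s = z.coeff s • (MonoidAlgebra.single s (1 : ℤ)).coeff s
    rw [MonoidAlgebra.coeff_single, Finsupp.single_eq_same, smul_eq_mul, mul_one]
  · intro t _ ht
    rw [MonoidAlgebra.coeff_smul, Finsupp.smul_apply]
    change z.coeff t • (MonoidAlgebra.single t (1 : ℤ)).coeff s = 0
    rw [MonoidAlgebra.coeff_single, Finsupp.single_eq_of_ne (Ne.symm ht), smul_zero]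
  · intro h
    exact absurd (mem_univ _) h

/-- **The closing.** -/
theorem closing (z : P (Fin m)) : ∃ (CL : P (Al V (AX m n)) →+ P (Option (Fin n))) (d : ℤ),
    (d : ℚ) = tc (k * k) z * (tc k V.θ * tc k V.θ) ∧
    (∀ w, act k _ w = 0 → act k _ (CL w) = 0) ∧
    (∀ x x' w, CL (emb (io V m n) x * w * emb (io V m n) x') = x * CL w * x') ∧
    ∀ t : P (Option (Fin n)), act k _ (CL (zst V z (emb (io V m n) t * g (swX V m n) *
      V.θ2 (AX m n)))) = d • act k _ t := by
  classical
  obtain ⟨PT, p1, p2, -, p4⟩ := exists_PT k (Option (Fin n)) ((Fin m ⊕ Fin m) ⊕ (V.B ⊕ V.B))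
  obtain ⟨d1, hd1⟩ := tc_int (N := k * k) z
  obtain ⟨d2, hd2⟩ := tc_int (N := k) V.θ
  let CL : P (Al V (AX m n)) →+ P (Option (Fin n)) :=
    PT.comp ((emb (eCL V m n).toEmbedding).toAddMonoidHom.comp
      (AddMonoidHom.mulRight (g (swX V m n))))
  have hCL : ∀ w, CL w = PT (emb (eCL V m n).toEmbedding (w * g (swX V m n))) := fun w => rfl
  have hsw : g (swX V m n) = emb (iX V m n) (g (Equiv.sumComm (Fin m) (Fin m))) := by
    rw [emb_g]
    congr 1
    exact hA_X V m n _
  refine ⟨CL, d1 * (d2 * d2), by push_cast; rw [hd1, hd2], ?_, ?_, ?_⟩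
  · intro w hw
    rw [hCL]
    refine p1 _ (act_emb_eq_zero _ _ ?_)
    rw [map_mul, hw, zero_mul]
  · intro x x' w
    rw [hCL, hCL]
    have e1 : emb (io V m n) x * w * emb (io V m n) x' * g (swX V m n) =
        emb (io V m n) x * (w * g (swX V m n)) * emb (io V m n) x' := by
      have h := (comm_io_iX V m n x' (g (Equiv.sumComm (Fin m) (Fin m)))).eq
      rw [← hsw] at h
      rw [mul_assoc, h]
      simp only [mul_assoc]
    rw [e1, map_mul (emb (eCL V m n).toEmbedding), map_mul (emb (eCL V m n).toEmbedding),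
      emb_trans, emb_trans, io_eCL, p2]
  · intro t
    let Y : Perm (Fin m) → P ((Fin m ⊕ Fin m) ⊕ (V.B ⊕ V.B)) := fun s =>
      emb Function.Embedding.inl (g (sumCongr s⁻¹ s)) * emb Function.Embedding.inr (V.tt V.θ)
    have hs : ∀ s : Perm (Fin m), CL (g (sX V s) * (emb (io V m n) t * g (swX V m n) *
        V.θ2 (AX m n)) * g (sX V s)⁻¹) = t * PT (emb Function.Embedding.inr (Y s)) := by
      intro s
      have h1 : g (sX V s : Perm (Al V (AX m n))) = emb (iX V m n) (g (sumCongr 1 s)) := by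
        rw [emb_g]
        congr 1
        exact hA_X V m n _
      have h2 : g (sX V s : Perm (Al V (AX m n)))⁻¹ = emb (iX V m n) (g (sumCongr 1 s⁻¹)) := by
        rw [emb_g]
        congr 1
        rw [← hA_X V m n _]
        ext x : 1
        rcases x with _ | (((x | x) | i) | b) <;> rfl
      rw [hCL, h1, h2, hsw, V.θ2_eq]
      have h3 := fun x y => (comm_io_iX V m n x y).eq
      have h4 := fun x y => (comm_io_jj V m n x y).eq
      have h5 := fun x y => (comm_iX_jj V m n x y).eq
      have h6 : emb (iX V m n) (g (sumCongr 1 s)) * (emb (io V m n) t *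
          emb (iX V m n) (g (sumComm (Fin m) (Fin m))) * emb (V.jj (AX m n)) (V.tt V.θ)) *
          emb (iX V m n) (g (sumCongr 1 s⁻¹)) * emb (iX V m n) (g (sumComm (Fin m) (Fin m))) =
          emb (io V m n) t * (emb (iX V m n) (g (sumCongr s⁻¹ s)) *
            emb (V.jj (AX m n)) (V.tt V.θ)) := by
        have e0 : g (sumCongr 1 s) * g (sumComm (Fin m) (Fin m)) * g (sumCongr 1 s⁻¹) *
            g (sumComm (Fin m) (Fin m)) = g (sumCongr s⁻¹ s) := by
          rw [← g_mul, ← g_mul, ← g_mul]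
          congr 1
          ext x : 1
          rcases x with x | x <;> rfl
        rw [← e0, map_mul, map_mul, map_mul]
        have k1 := h3 t (g (sumCongr 1 s))
        have k2 := h5 (g (sumCongr 1 s⁻¹)) (V.tt V.θ)
        have k3 := h5 (g (sumComm (Fin m) (Fin m))) (V.tt V.θ)
        generalize emb (iX V m n) (g (sumCongr 1 s)) = b1 at k1 ⊢
        generalize emb (iX V m n) (g (sumCongr 1 s⁻¹)) = b3 at k2 ⊢
        generalize emb (iX V m n) (g (sumComm (Fin m) (Fin m))) = b2 at k3 ⊢
        generalize emb (io V m n) t = a at k1 ⊢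
        generalize emb (V.jj (AX m n)) (V.tt V.θ) = c at k2 k3 ⊢
        calc b1 * (a * b2 * c) * b3 * b2 = (b1 * a) * b2 * (c * b3) * b2 := by
              simp only [mul_assoc]
          _ = (a * b1) * b2 * (b3 * c) * b2 := by rw [k1, k2]
          _ = a * b1 * b2 * b3 * (c * b2) := by simp only [mul_assoc]
          _ = a * b1 * b2 * b3 * (b2 * c) := by rw [k3]
          _ = _ := by simp only [mul_assoc]
      rw [h6, map_mul (emb (eCL V m n).toEmbedding), map_mul (emb (eCL V m n).toEmbedding),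
        emb_trans, emb_trans, emb_trans, io_eCL]
      have h7 := p2 t 1 (emb ((iX V m n).trans (eCL V m n).toEmbedding) (g (sumCongr s⁻¹ s)) *
        emb ((V.jj (AX m n)).trans (eCL V m n).toEmbedding) (V.tt V.θ))
      rw [map_one, mul_one, mul_one] at h7
      rw [h7]
      congr 2
      change _ = emb Function.Embedding.inr (emb Function.Embedding.inl (g (sumCongr s⁻¹ s)) *
        emb Function.Embedding.inr (V.tt V.θ))
      rw [map_mul, emb_trans, emb_trans]
      congr 2
    have hz : CL (zst V z (emb (io V m n) t * g (swX V m n) * V.θ2 (AX m n))) =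
        ∑ s : Perm (Fin m), z.coeff s • (t * PT (emb Function.Embedding.inr (Y s))) := by
      unfold zst
      rw [map_sum]
      exact Finset.sum_congr rfl fun s _ => by rw [map_zsmul, hs]
    rw [hz]
    refine LinearMap.ext fun f => ?_
    rw [act_sum]
    have hY : ∀ s, tc k (Y s) = tc (k * k) (g s) * (tc k V.θ * tc k V.θ) := by
      intro s
      change tc k (emb Function.Embedding.inl (g (sumCongr s⁻¹ s)) *
        emb Function.Embedding.inr (V.tt V.θ)) = _
      rw [tc_mul_disj, tc_kk]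
      congr 1
      exact tc_mul_disj _ _
    have h8 : ∀ s ∈ (univ : Finset (Perm (Fin m))),
        act k _ (z.coeff s • (t * PT (emb Function.Embedding.inr (Y s)))) f =
          ((z.coeff s : ℚ) * tc k (Y s)) • act k _ t f := by
      intro s _
      rw [act_zsmul, act_mul, p4, map_smul, mul_smul, Int.cast_smul_eq_zsmul]
    rw [Finset.sum_congr rfl h8, ← Finset.sum_smul]
    have h9 : ∑ s : Perm (Fin m), (z.coeff s : ℚ) * tc k (Y s) = ((d1 * (d2 * d2) : ℤ) : ℚ) := by
      push_cast
      rw [hd1, hd2]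
      nth_rewrite 2 [sum_coeff z]
      rw [tc_sum, Finset.sum_mul]
      refine Finset.sum_congr rfl fun s _ => ?_
      rw [hY, tc_zsmul]
      ring
    rw [h9, LinearMap.smul_apply, Int.cast_smul_eq_zsmul]

variable {m n}

theorem CL_cj {CL : P (Al V (AX m n)) →+ P (Option (Fin n))}
    (h : ∀ x x' w, CL (emb (io V m n) x * w * emb (io V m n) x') = x * CL w * x')
    (s : Perm (Fin n)) (y : P (Al V (AX m n))) : CL (cjB V s y) = cj s (CL y) := by
  unfold cjB cj
  rw [← h]
  congr 2
  · congr 1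
    rw [emb_g, sL_eq]
  · rw [emb_g, sL_eq, viaEmbedding_inv']

theorem sex_of_big {k D0 : ℕ} (h0 : 0 < D0) (hB : Big k D0) : ∃ D, 0 < D ∧ Sex k D := by
  obtain ⟨V, m, z, hz, hbig⟩ := hB
  obtain ⟨-, d, hd, -⟩ := closing V m 0 z
  have hd0 : d ≠ 0 := by
    intro h
    rw [h, Int.cast_zero] at hd
    exact (mul_ne_zero hz (mul_ne_zero V.tr V.tr)) hd.symm
  refine ⟨D0 * d.natAbs, Nat.mul_pos h0 (Int.natAbs_pos.2 hd0), ?_⟩
  intro n C _ c hc t ht W _ psi hker hrule
  obtain ⟨CL, d', hd', c1, c2, c3⟩ := closing V m n z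
  have hdd : d' = d := by
    have : (d' : ℚ) = d := by rw [hd, hd']
    exact_mod_cast this
  subst hdd
  obtain ⟨N, hN, h⟩ := hbig n C c hc t ht W (fun h => (psi h).comp CL)
    (fun h y hy => hker h _ (c1 y hy)) (fun i j hij hcij h y hi hj => by
      have h1 := hrule i j hij hcij h (CL y) hi hj
      simp only [AddMonoidHom.comp_apply, CL_cj V c2]
      exact h1)
  refine ⟨N, hN, ?_⟩
  have h2 : ∀ x : Finset (Fin n), ((psi x).comp CL) (zst V z (emb (io V m n) (t x) *
      g (swX V m n) * V.θ2 (AX m n))) = d' • psi x (t x) := by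
    intro x
    rw [AddMonoidHom.comp_apply, ← map_zsmul, ← sub_eq_zero, ← map_sub]
    refine hker _ _ ?_
    rw [map_sub, c3, map_zsmul, sub_self]
  simp only [h2] at h
  rw [← Finset.smul_sum] at h
  have h3 : (N • D0 • d'.natAbs • ∑ x, psi x (t x) : W) = 0 := by
    rcases Int.natAbs_eq d' with e | e
    · have h4 : (d' • ∑ x, psi x (t x) : W) = d'.natAbs • ∑ x, psi x (t x) := by
        conv_lhs => rw [e]
        rw [natCast_zsmul]
      rw [← h4]
      exact h
    · have h4 : (d' • ∑ x, psi x (t x) : W) = -(d'.natAbs • ∑ x, psi x (t x)) := by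
        conv_lhs => rw [e]
        rw [neg_smul, natCast_zsmul]
      rw [h4, smul_neg, smul_neg, neg_eq_zero] at h
      exact h
  rw [mul_smul]
  exact h3

end Pool.PI34.XH

end

/-! ### part EX_Done -/
section

/-!
PI34, block EX (p = 2): the theorem `EXT k l` for all `k`, `l`.
-/

set_option autoImplicit false

namespace Pool.PI34.EX

/-- **(EX)** for all ranks. -/
theorem EXT_all (k l : ℕ) (h : 0 < k + l) : XX.EXT k l := by
  obtain ⟨m, hm⟩ : ∃ m, k + l = m + 1 := ⟨k + l - 1, by omega⟩
  obtain ⟨V⟩ := SG.exists_VD (m + 1)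
  obtain ⟨Wd⟩ := SG.exists_WD ((m + 1) ^ (m + 1))
  exact ext_of hm V Wd

end Pool.PI34.EX

end

/-! ### part XS_E9 -/
section

/-!
PI34, p = 2, block SEX: the concrete chase settings.
-/

set_option autoImplicit false
set_option linter.unusedSectionVars false

namespace Pool.PI34.XS

open Equiv Finset
open Pool.PI34.H4
open Pool.PI34.EV (VCat Even1 Al)
open Pool.PI34.XH (AX io swX sX sL zst cjB BRules Big PO kap)

/-! ### strings modulo the relations of the words -/

section quot

variable (k : ℕ) (α : Type) [Fintype α] [DecidableEq α]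

/-- the kernel of the action on the words -/
def KA : AddSubgroup (P α) where
  carrier := {y | act k α y = 0}
  zero_mem' := map_zero _
  add_mem' {a b} ha hb := by
    change act k α (a + b) = 0
    rw [map_add, ha, hb, add_zero]
  neg_mem' {a} ha := by
    change act k α (-a) = 0
    rw [map_neg, ha, neg_zero]

/-- strings modulo the relations of the words -/
def MM : Type := P α ⧸ KA k α

noncomputable instance : AddCommGroup (MM k α) := inferInstanceAs (AddCommGroup (P α ⧸ KA k α))

variable {k α}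

/-- the class of a string -/
noncomputable def cl (y : P α) : MM k α := QuotientAddGroup.mk y

theorem cl_eq_zero {y : P α} : (cl y : MM k α) = 0 ↔ act k α y = 0 :=
  QuotientAddGroup.eq_zero_iff y

theorem cl_add (x y : P α) : (cl (x + y) : MM k α) = cl x + cl y := rfl

theorem cl_surj (x : MM k α) : ∃ y : P α, cl y = x := QuotientAddGroup.mk_surjective (s := KA k α) x

/-- the class as a homomorphism -/
noncomputable def clH : P α →+ MM k α := QuotientAddGroup.mk' (KA k α)

theorem clH_apply (y : P α) : (clH y : MM k α) = cl y := rfl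

theorem MM_tf (a : ℤ) (x : MM k α) (ha : a ≠ 0) (h : a • x = 0) : x = 0 := by
  obtain ⟨y, rfl⟩ := cl_surj x
  have h1 : (cl (a • y) : MM k α) = 0 := h
  rw [cl_eq_zero, map_zsmul] at h1
  rw [cl_eq_zero]
  rcases smul_eq_zero.1 h1 with h2 | h2
  · exact absurd h2 ha
  · exact h2

/-- a homomorphism from the classes -/
noncomputable def liftM {W : Type} [AddCommGroup W] (f : P α →+ W) (hf : ∀ y, act k α y = 0 → f y = 0) :
    MM k α →+ W :=
  QuotientAddGroup.lift (KA k α) f (fun y hy => hf y hy)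

theorem liftM_cl {W : Type} [AddCommGroup W] (f : P α →+ W) (hf : ∀ y, act k α y = 0 → f y = 0)
    (y : P α) : liftM f hf (cl y) = f y := rfl

/-- left and right multiplication -/
noncomputable def bim (a b : P α) : MM k α →+ MM k α :=
  liftM (clH.comp ((AddMonoidHom.mulLeft a).comp (AddMonoidHom.mulRight b))) (fun y hy => by
    change (cl (a * (y * b)) : MM k α) = 0
    rw [cl_eq_zero, map_mul, map_mul, hy, zero_mul, mul_zero])

theorem bim_cl (a b y : P α) : bim a b (cl y : MM k α) = cl (a * y * b) := by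
  change (cl (a * (y * b)) : MM k α) = _
  rw [mul_assoc]

variable (k α) in
/-- conjugation -/
noncomputable def conjM {σ : Type} [Fintype σ] [DecidableEq σ] (ι : σ ↪ α) :
    Perm σ →* AddMonoid.End (MM k α) where
  toFun τ := bim (g (τ.viaEmbedding ι)) (g (τ.viaEmbedding ι)⁻¹)
  map_one' := by
    apply AddMonoidHom.ext
    intro x
    obtain ⟨y, rfl⟩ := cl_surj x
    have h1 : (1 : Perm σ).viaEmbedding ι = 1 := by
      have := map_one (Perm.viaEmbeddingHom ι)
      rwa [Perm.viaEmbeddingHom_apply] at this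
    rw [bim_cl, h1, inv_one, g_one, one_mul, mul_one]
    rfl
  map_mul' τ τ' := by
    apply AddMonoidHom.ext
    intro x
    obtain ⟨y, rfl⟩ := cl_surj x
    have h1 : (τ * τ').viaEmbedding ι = τ.viaEmbedding ι * τ'.viaEmbedding ι := by
      have := map_mul (Perm.viaEmbeddingHom ι) τ τ'
      simpa only [Perm.viaEmbeddingHom_apply] using this
    change bim _ _ (cl y) = bim _ _ (bim _ _ (cl y))
    rw [bim_cl, bim_cl, bim_cl, h1, mul_inv_rev, g_mul, g_mul]
    simp only [mul_assoc]

theorem conjM_cl {σ : Type} [Fintype σ] [DecidableEq σ] (ι : σ ↪ α) (τ : Perm σ) (y : P α) :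
    conjM k α ι τ (cl y) = cl (g (τ.viaEmbedding ι) * y * g (τ.viaEmbedding ι)⁻¹) :=
  bim_cl _ _ _

variable (k α) in
/-- the conjugation action of the group algebra -/
noncomputable def conjA {σ : Type} [Fintype σ] [DecidableEq σ] (ι : σ ↪ α) :
    P σ →+* AddMonoid.End (MM k α) :=
  (MonoidAlgebra.lift ℤ (AddMonoid.End (MM k α)) (Perm σ) (conjM k α ι)).toRingHom

theorem conjA_g {σ : Type} [Fintype σ] [DecidableEq σ] (ι : σ ↪ α) (τ : Perm σ) :
    conjA k α ι (g τ) = conjM k α ι τ := by
  simp [conjA]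

/-- the action on the words -/
noncomputable def evM : MM k α →+ Module.End ℚ (W k α) :=
  liftM (act k α).toRingHom.toAddMonoidHom (fun _ hy => hy)

theorem evM_cl (y : P α) : evM (cl y : MM k α) = act k α y := rfl

theorem evM_inj {x : MM k α} (h : evM x = 0) : x = 0 := by
  obtain ⟨y, rfl⟩ := cl_surj x
  rw [evM_cl] at h
  exact cl_eq_zero.2 h

theorem glue_comp {σ : Type} [Fintype σ] [DecidableEq σ] (ι : σ ↪ α) (τ : Perm σ)
    (w : α → Fin k) : glue ι ((w ∘ ι) ∘ τ) w = w ∘ (τ.viaEmbedding ι) := by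
  funext x
  by_cases hx : x ∈ Set.range ι
  · obtain ⟨y, rfl⟩ := hx
    rw [glue_apply, Function.comp_apply (f := w) (g := ⇑(τ.viaEmbedding ι)),
      Perm.viaEmbedding_apply]
    rfl
  · rw [glue_apply_of_notMem _ _ _ _ hx, Function.comp_apply (f := w),
      Perm.viaEmbedding_apply_of_notMem _ _ _ hx]

theorem conjA_ev {σ : Type} [Fintype σ] [DecidableEq σ] (ι : σ ↪ α) (q : P σ) (s : Perm α)
    (f : W k α) (w : α → Fin k) :
    evM (conjA k α ι q (cl (g s))) f w = ∑ w' : α → Fin k, f w' *
      act (k * k) σ q (fun u => if (glue ι (fun x => (finProdFinEquiv.symm (u x)).1) w) ∘ s =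
        glue ι (fun x => (finProdFinEquiv.symm (u x)).2) w' then 1 else 0)
        (fun x => finProdFinEquiv (w (ι x), w' (ι x))) := by
  refine P_induction (p := fun q => evM (conjA k α ι q (cl (g s))) f w =
    ∑ w' : α → Fin k, f w' *
      act (k * k) σ q (fun u => if (glue ι (fun x => (finProdFinEquiv.symm (u x)).1) w) ∘ s =
        glue ι (fun x => (finProdFinEquiv.symm (u x)).2) w' then 1 else 0)
        (fun x => finProdFinEquiv (w (ι x), w' (ι x)))) q ?_ ?_ ?_
  · intro τ
    rw [conjA_g, conjM_cl, evM_cl, ← g_mul, ← g_mul, act_g]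
    have h1 : ∀ w' : α → Fin k, act (k * k) σ (g τ) (fun u =>
        if (glue ι (fun x => (finProdFinEquiv.symm (u x)).1) w) ∘ s =
        glue ι (fun x => (finProdFinEquiv.symm (u x)).2) w' then (1 : ℚ) else 0)
        (fun x => finProdFinEquiv (w (ι x), w' (ι x))) =
        if w' = w ∘ (τ.viaEmbedding ι * s * (τ.viaEmbedding ι)⁻¹) then 1 else 0 := by
      intro w'
      rw [act_g]
      have e1 : (fun x => (finProdFinEquiv.symm
          (((fun x => finProdFinEquiv (w (ι x), w' (ι x))) ∘ τ) x)).1) = (w ∘ ι) ∘ τ := by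
        funext x
        simp only [Function.comp_apply, Equiv.symm_apply_apply]
      have e2 : (fun x => (finProdFinEquiv.symm
          (((fun x => finProdFinEquiv (w (ι x), w' (ι x))) ∘ τ) x)).2) = (w' ∘ ι) ∘ τ := by
        funext x
        simp only [Function.comp_apply, Equiv.symm_apply_apply]
      have p1 : ∀ x, (τ.viaEmbedding ι) ((τ.viaEmbedding ι)⁻¹ x) = x :=
        fun x => Equiv.apply_symm_apply (τ.viaEmbedding ι) x
      have p2 : ∀ x, (τ.viaEmbedding ι)⁻¹ ((τ.viaEmbedding ι) x) = x :=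
        fun x => Equiv.symm_apply_apply (τ.viaEmbedding ι) x
      rw [e1, e2, glue_comp, glue_comp]
      congr 1
      apply propext
      constructor
      · intro h
        funext x
        have h2 := congrFun h ((τ.viaEmbedding ι)⁻¹ x)
        simp only [Function.comp_apply, p1] at h2
        simp only [Function.comp_apply, Perm.mul_apply]
        exact h2.symm
      · intro h
        rw [h]
        funext x
        simp only [Function.comp_apply, Perm.mul_apply, p2]
    rw [Finset.sum_congr rfl (fun w' _ => by rw [h1 w'])]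
    rw [Finset.sum_eq_single (w ∘ (τ.viaEmbedding ι * s * (τ.viaEmbedding ι)⁻¹))]
    · rw [if_pos rfl, mul_one]
    · intro w' _ hw'
      rw [if_neg hw', mul_zero]
    · intro h
      exact absurd (mem_univ _) h
  · intro a b ha hb
    have e : conjA k α ι (a + b) (cl (g s)) = conjA k α ι a (cl (g s)) +
        conjA k α ι b (cl (g s)) := by
      rw [map_add]
      rfl
    rw [e, map_add, LinearMap.add_apply, Pi.add_apply, ha, hb, ← Finset.sum_add_distrib]
    refine Finset.sum_congr rfl fun w' _ => ?_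
    rw [act_add, Pi.add_apply]
    ring
  · intro n a ha
    have e : conjA k α ι (n • a) (cl (g s)) = n • conjA k α ι a (cl (g s)) := by
      rw [map_zsmul]
      rfl
    rw [e, map_zsmul, LinearMap.smul_apply, Pi.smul_apply, ha, Finset.smul_sum]
    refine Finset.sum_congr rfl fun w' _ => ?_
    rw [act_zsmul, Pi.smul_apply, mul_smul_comm]

theorem conjA_ker {σ : Type} [Fintype σ] [DecidableEq σ] (ι : σ ↪ α) (q : P σ)
    (hq : act (k * k) σ q = 0) : conjA k α ι q = 0 := by
  apply AddMonoidHom.ext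
  intro x
  obtain ⟨y, rfl⟩ := cl_surj x
  refine P_induction (p := fun y => conjA k α ι q (cl y) = (0 : AddMonoid.End (MM k α)) (cl y))
    y ?_ ?_ ?_
  · intro s
    refine evM_inj (LinearMap.ext fun f => ?_)
    funext w
    rw [conjA_ev, hq]
    simp
  · intro a b ha hb
    rw [cl_add, map_add, ha, hb]
    rfl
  · intro n a ha
    have e : (cl (n • a) : MM k α) = n • cl a := map_zsmul (clH : P α →+ MM k α) n a
    rw [e, map_zsmul, ha]
    exact smul_zero _

end quot

/-! ### the concrete chase settings -/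

section conc

variable {k : ℕ} (V : VCat k) (m n : ℕ)

/-- the W-slots and the letters -/
def iS : (Fin m ⊕ Fin n) ↪ Al V (AX m n) :=
  ⟨fun x => some (Sum.inl (Sum.map Sum.inr id x)), by
    rintro (x | x) (y | y) h
    · have h1 := Sum.inl_injective (Option.some_injective _ h)
      exact congrArg Sum.inl (Sum.inr_injective (Sum.inl_injective h1))
    · have h1 := Sum.inl_injective (Option.some_injective _ h)
      cases h1
    · have h1 := Sum.inl_injective (Option.some_injective _ h)
      cases h1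
    · have h1 := Sum.inl_injective (Option.some_injective _ h)
      exact congrArg Sum.inr (Sum.inr_injective h1)⟩

theorem via_iS (τ : Perm (Fin m)) (σ : Perm (Fin n)) :
    Perm.viaEmbedding (sumCongr τ σ) (iS V m n) =
      (V.hA (sumCongr (sumCongr 1 τ) σ) : Perm (Al V (AX m n))) := by
  ext x : 1
  by_cases hx : x ∈ Set.range (iS V m n)
  · obtain ⟨y, rfl⟩ := hx
    rw [Perm.viaEmbedding_apply]
    rcases y with y | y <;> rfl
  · rw [Perm.viaEmbedding_apply_of_notMem _ _ _ hx]
    rcases x with _ | (((x | x) | i) | b)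
    · rfl
    · rfl
    · exact absurd ⟨Sum.inl x, rfl⟩ hx
    · exact absurd ⟨Sum.inr i, rfl⟩ hx
    · rfl

theorem comm_iS_jj (x : P (Fin m ⊕ Fin n)) (y : P (V.B ⊕ V.B)) :
    Commute (emb (iS V m n) x) (emb (V.jj (AX m n)) y) :=
  commute_emb_emb _ _ (fun a b h => by rcases a with _ | i <;> cases h) _ _

theorem θ2_sq (A : Type) [Fintype A] [DecidableEq A] :
    act k _ (V.θ2 A * V.θ2 A) = (V.κ * V.κ) • act k _ (V.θ2 A) := by
  rw [V.θ2_eq, ← map_mul, EV.act_congr_emb (V.jj A) (y := (V.κ * V.κ) • V.tt V.θ), map_zsmul,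
    map_zsmul]
  rw [V.tt_sq, map_zsmul]

theorem filter_eq' {A B C : Type} [Fintype A] [DecidableEq A] [Fintype B] [DecidableEq B]
    [DecidableEq C] (c : B → C) (h : Perm (A ⊕ B)) (hc : Sum.map id c ∘ h = Sum.map id c) :
    ∃ h' : Perm B, c ∘ h' = c ∧ h = sumCongr 1 h' := by
  have hr : ∀ a : A, h (Sum.inl a) = Sum.inl a := by
    intro a
    have h1 := congrFun hc (Sum.inl a)
    simp only [Function.comp_apply, Sum.map_inl, id] at h1
    rcases hb : h (Sum.inl a) with a' | b'
    · rw [hb] at h1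
      simp only [Sum.map_inl, id] at h1
      rw [Sum.inl_injective h1]
    · rw [hb] at h1
      cases h1
  have hl : ∀ b : B, ∃ b' : B, h (Sum.inr b) = Sum.inr b' := by
    intro b
    rcases hb : h (Sum.inr b) with a' | b'
    · exfalso
      have h1 : h (Sum.inr b) = h (Sum.inl a') := by rw [hb, hr]
      cases h.injective h1
    · exact ⟨b', rfl⟩
  choose f hf using hl
  have hfi : Function.Injective f := by
    intro a a' e
    have h1 : h (Sum.inr a) = h (Sum.inr a') := by rw [hf, hf, e]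
    exact Sum.inr_injective (h.injective h1)
  refine ⟨Equiv.ofBijective f (Finite.injective_iff_bijective.1 hfi), ?_, ?_⟩
  · funext b
    have h1 := congrFun hc (Sum.inr b)
    simp only [Function.comp_apply, Sum.map_inr, hf] at h1
    exact Sum.inr_injective h1
  · ext x
    rcases x with a | b
    · rw [hr]
      rfl
    · rw [hf]
      rfl

/-- the action of the letters on the classes -/
theorem conjA_rr (σ : Perm (Fin n)) (y : P (Al V (AX m n))) :
    conjA k _ (iS V m n) (g (rr σ)) (cl y) = cl (cjB V σ y) := by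
  rw [conjA_g, conjM_cl]
  have h : (rr σ : Perm (Fin m ⊕ Fin n)).viaEmbedding (iS V m n) = sL V σ := by
    have h1 := via_iS V m n 1 σ
    refine h1.trans ?_
    ext x : 1
    rcases x with _ | (((x | x) | i) | b) <;> rfl
  rw [h]
  rfl

/-- the action of the W-slots on the classes -/
theorem conjA_inl (s : Perm (Fin m)) (y : P (Al V (AX m n))) :
    conjA k _ (iS V m n) (emb Function.Embedding.inl (g s)) (cl y) =
      cl (g (sX V s) * y * g (sX V s)⁻¹) := by
  rw [emb_g, conjA_g, conjM_cl]
  have h0 : s.viaEmbedding (Function.Embedding.inl : Fin m ↪ Fin m ⊕ Fin n) =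
      sumCongr s (1 : Perm (Fin n)) := by
    ext x : 1
    rcases x with x | x
    · exact Perm.viaEmbedding_apply s (Function.Embedding.inl : Fin m ↪ Fin m ⊕ Fin n) x
    · rw [Perm.viaEmbedding_apply_of_notMem]
      · rfl
      · rintro ⟨y, hy⟩
        cases hy
  rw [h0, via_iS]
  rfl

theorem th_conjA (q : P (Fin m ⊕ Fin n)) (x : MM k (Al V (AX m n))) :
    bim 1 (V.θ2 (AX m n)) (conjA k _ (iS V m n) q x) =
      conjA k _ (iS V m n) q (bim 1 (V.θ2 (AX m n)) x) := by
  obtain ⟨y, rfl⟩ := cl_surj x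
  refine P_induction (p := fun q => bim 1 (V.θ2 (AX m n)) (conjA k _ (iS V m n) q (cl y)) =
      conjA k _ (iS V m n) q (bim 1 (V.θ2 (AX m n)) (cl y))) q ?_ ?_ ?_
  · intro τ
    rw [conjA_g, conjM_cl, bim_cl, bim_cl, conjM_cl]
    congr 1
    have h1 : g (τ.viaEmbedding (iS V m n))⁻¹ * V.θ2 (AX m n) =
        V.θ2 (AX m n) * g (τ.viaEmbedding (iS V m n))⁻¹ := by
      have h2 := (comm_iS_jj V m n (g τ⁻¹) (V.tt V.θ)).eq
      rw [← V.θ2_eq, emb_g, EV.viaEmbedding_inv'] at h2
      exact h2
    rw [one_mul, one_mul, mul_assoc, h1]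
    simp only [mul_assoc]
  · intro a b ha hb
    have e : ∀ x : MM k (Al V (AX m n)), conjA k _ (iS V m n) (a + b) x =
        conjA k _ (iS V m n) a x + conjA k _ (iS V m n) b x := by
      intro x
      rw [map_add]
      rfl
    rw [e, e, map_add, ha, hb]
  · intro j a ha
    have e : ∀ x : MM k (Al V (AX m n)), conjA k _ (iS V m n) (j • a) x =
        j • conjA k _ (iS V m n) a x := by
      intro x
      rw [map_zsmul]
      rfl
    rw [e, e, map_zsmul, ha]

/-- **The concrete chase settings.** -/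
noncomputable def csB (hE : Even1) (z : P (Fin m)) (h : ℤ) (hh : Odd h) (zz : z * z = h • z)
    (hz : ZP (k * k) 2 z) : CS (k * k) n m (MM k (Al V (AX m n))) where
  A := conjA k _ (iS V m n)
  tf := MM_tf
  ker q hq := conjA_ker _ q hq
  th := bim 1 (V.θ2 (AX m n))
  thA := th_conjA V m n
  κ := V.κ * V.κ
  hκ := V.hκ.mul V.hκ
  thth x := by
    obtain ⟨y, rfl⟩ := cl_surj x
    rw [bim_cl, bim_cl, one_mul, one_mul]
    have e : (V.κ * V.κ) • (cl (y * V.θ2 (AX m n)) : MM k (Al V (AX m n))) =
        cl ((V.κ * V.κ) • (y * V.θ2 (AX m n))) :=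
      (map_zsmul (clH : P (Al V (AX m n)) →+ MM k (Al V (AX m n))) _ _).symm
    rw [e, ← sub_eq_zero]
    change (cl (y * V.θ2 (AX m n) * V.θ2 (AX m n) - (V.κ * V.κ) • (y * V.θ2 (AX m n))) :
      MM k (Al V (AX m n))) = 0
    rw [cl_eq_zero, map_sub, sub_eq_zero, mul_assoc, map_mul, θ2_sq, map_zsmul, map_mul,
      mul_smul_comm]
  z := z
  h := h
  hh := hh
  zz := zz
  hz := hz
  ev C' _ c' w hw W _ lam hinv := by
    obtain ⟨v, rfl⟩ := cl_surj w
    refine ⟨V.κ * V.κ, V.hκ.mul V.hκ, ?_⟩
    rw [bim_cl, one_mul] at hw ⊢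
    have hkey : ∀ (σ : Perm (Fin n)) (y : P (Al V (AX m n))),
        conjA k _ (iS V m n) (g (rr σ)) (cl y) =
          cl (g (V.hA (sumCongr 1 σ)) * y * g (V.hA (sumCongr 1 σ))⁻¹) :=
      fun σ y => conjA_rr V m n σ y
    refine EV.even2 V EV.exists_PT hE (AX m n) ((Fin m ⊕ Fin m) ⊕ C') (Sum.map id c') v ?_ W
      (lam.comp clH) ?_ ?_
    · rw [← cl_eq_zero, ← hw]
      rw [← clH_apply, map_sum]
      symm
      refine Finset.sum_bij (fun σ _ => sumCongr 1 σ) ?_ ?_ ?_ ?_
      · intro σ hσ
        rw [mem_filter] at hσ ⊢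
        refine ⟨mem_univ _, ?_⟩
        funext x
        rcases x with a | b
        · rfl
        · have := congrFun hσ.2 b
          simp only [Function.comp_apply] at this
          simp [this]
      · intro a _ b _ e
        ext x
        have := congrArg (fun σ : Perm ((Fin m ⊕ Fin m) ⊕ Fin n) => σ (Sum.inr x)) e
        exact congrArg Fin.val (by simpa using this)
      · intro h hh'
        rw [mem_filter] at hh'
        obtain ⟨h', hc', rfl⟩ := filter_eq' c' h hh'.2
        exact ⟨h', by rw [mem_filter]; exact ⟨mem_univ _, hc'⟩, rfl⟩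
      · intro σ _
        exact hkey σ _
    · intro y hy
      change lam (cl y) = 0
      rw [cl_eq_zero.2 hy, map_zero]
    · intro h hc y
      obtain ⟨σ, hσ, rfl⟩ := filter_eq' c' h hc
      change lam (cl _) = lam (cl y)
      rw [← hkey]
      exact hinv σ hσ (cl y)

end conc

/-! ### the chase gives the target -/

/-- the statement of the chase -/
def Chase : Prop :=
  ∀ (N n m : ℕ) (M : Type) [AddCommGroup M] (S : CS N n m M) (C : Type) [DecidableEq C]
    (c : Fin n → C), XH.Inter c → ∀ t : Finset (Fin n) → M, (∀ B, S.tau c B t = 0) →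
    ∀ (W : Type) [AddCommGroup W] (psi : Finset (Fin n) → (M →+ W)),
    (∀ i j : Fin n, (j : ℕ) = i + 1 → c i = c j → ∀ (h : Finset (Fin n)) (y : M),
      i ∉ h → j ∉ h →
        psi h (S.cj (swap i j) y) = psi h y - psi (insert i (insert j h)) y ∧
        psi (insert i h) (S.cj (swap i j) y) =
          psi (insert j h) y - kap h.card • psi (insert i (insert j h)) y ∧
        psi (insert j h) (S.cj (swap i j) y) =
          psi (insert i h) y - kap h.card • psi (insert i (insert j h)) y ∧
        psi (insert i (insert j h)) (S.cj (swap i j) y) = - psi (insert i (insert j h)) y) →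
    ∃ o : ℤ, Odd o ∧ (o * ((N + 1).factorial : ℤ)) • ∑ h, psi h (S.Z (S.th (t h))) = 0

section fin

variable {k : ℕ} (V : VCat k) {m n : ℕ}

theorem cl_zsmul (a : ℤ) (y : P (Al V (AX m n))) :
    (cl (a • y) : MM k (Al V (AX m n))) = a • cl y :=
  map_zsmul (clH : P (Al V (AX m n)) →+ MM k (Al V (AX m n))) a y

theorem cl_sum {ι : Type} (s : Finset ι) (f : ι → P (Al V (AX m n))) :
    (cl (∑ i ∈ s, f i) : MM k (Al V (AX m n))) = ∑ i ∈ s, cl (f i) :=
  map_sum (clH : P (Al V (AX m n)) →+ MM k (Al V (AX m n))) f s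

theorem csB_Z (hE : Even1) (z : P (Fin m)) (h : ℤ) (hh : Odd h) (zz : z * z = h • z)
    (hz : ZP (k * k) 2 z) (y : P (Al V (AX m n))) :
    (csB V m n hE z h hh zz hz).Z (cl y) = cl (zst V z y) := by
  change conjA k _ (iS V m n) (emb Function.Embedding.inl z) (cl y) = _
  have h1 : ∀ z' : P (Fin m), conjA k _ (iS V m n) (emb Function.Embedding.inl z') (cl y) =
      cl (∑ s : Perm (Fin m), z'.coeff s • (g (sX V s) * y * g (sX V s)⁻¹)) := by
    intro z'
    conv_lhs => rw [XH.sum_coeff z']
    rw [map_sum, map_sum, cl_sum]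
    have e : ∀ (s : Finset (Perm (Fin m))) (F : Perm (Fin m) → AddMonoid.End (MM k (Al V (AX m n))))
        (x : MM k (Al V (AX m n))), (∑ i ∈ s, F i) x = ∑ i ∈ s, F i x := by
      intro s F x
      induction s using Finset.induction_on with
      | empty => rfl
      | insert a s ha ih => rw [Finset.sum_insert ha, Finset.sum_insert ha, ← ih]; rfl
    rw [e]
    refine Finset.sum_congr rfl fun s _ => ?_
    rw [map_zsmul, map_zsmul, cl_zsmul, ← conjA_inl]
    rfl
  exact h1 z

theorem tyM_cl (t : Finset (Fin n) → PO n) (B : Finset (Fin n)) :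
    tyM (fun h => (cl (emb (io V m n) (t h) * g (swX V m n)) : MM k (Al V (AX m n)))) B =
      cl (emb (io V m n) (XH.ty t B) * g (swX V m n)) := by
  unfold tyM XH.ty
  rw [map_sum, Finset.sum_mul, cl_sum]
  refine Finset.sum_congr rfl fun h _ => ?_
  rw [map_zsmul, smul_mul_assoc, cl_zsmul]

theorem cjB_io (σ : Perm (Fin n)) (x : PO n) :
    cjB V σ (emb (io V m n) x * g (swX V m n)) =
      emb (io V m n) (XH.cj σ x) * g (swX V m n) := by
  unfold cjB XH.cj
  have h1 : g (sL V σ : Perm (Al V (AX m n))) = emb (io V m n) (g (optionCongr σ)) := by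
    rw [emb_g, XH.sL_eq]
  have h2 : g (sL V σ : Perm (Al V (AX m n)))⁻¹ = emb (io V m n) (g (optionCongr σ)⁻¹) := by
    rw [emb_g, XH.sL_eq, EV.viaEmbedding_inv']
  have h3 := (XH.comm_io_iX V m n (g (optionCongr σ)⁻¹)
    (g (Equiv.sumComm (Fin m) (Fin m)))).eq
  have hsw : g (swX V m n) = emb (XH.iX V m n) (g (Equiv.sumComm (Fin m) (Fin m))) := by
    rw [emb_g]
    congr 1
    exact XH.hA_X V m n _
  rw [h1, h2, map_mul, map_mul, hsw]
  rw [mul_assoc, mul_assoc, mul_assoc, ← h3]
  simp only [mul_assoc]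

theorem big_of_chase (hch : Chase) (hE : Even1) (k : ℕ) : Big k (k * k + 1).factorial := by
  obtain ⟨V⟩ := EV.exists_vcat k
  obtain ⟨m, z, h, -, hh, -, zz, hz, htr, -, -, -⟩ := SG.exists_cat (k * k)
  refine ⟨V, m, z, htr.ne', ?_⟩
  intro n C _ c hc t ht W _ Psi hker hrule
  let S := csB V m n hE z h hh zz hz
  let t' : Finset (Fin n) → MM k (Al V (AX m n)) :=
    fun h => cl (emb (io V m n) (t h) * g (swX V m n))
  have hcj : ∀ (σ : Perm (Fin n)) (y : P (Al V (AX m n))), S.cj σ (cl y) = cl (cjB V σ y) :=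
    fun σ y => conjA_rr V m n σ y
  have h1 : ∀ B, S.tau c B t' = 0 := by
    intro B
    have e1 : S.tau c B t' = cl (emb (io V m n) (∑ σ ∈ univ.filter
        (fun σ : Perm (Fin n) => c ∘ σ = c), XH.sgB σ B • XH.cj σ (XH.ty t
          (B.map (σ⁻¹ : Perm (Fin n)).toEmbedding))) * g (swX V m n)) := by
      unfold CS.tau
      rw [map_sum, Finset.sum_mul, cl_sum]
      refine Finset.sum_congr rfl fun σ _ => ?_
      rw [tyM_cl, hcj, cjB_io, map_zsmul, smul_mul_assoc, cl_zsmul]
    rw [e1, cl_eq_zero, map_mul, act_emb_eq_zero _ _ (ht B), zero_mul]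
  obtain ⟨o, ho, hs⟩ := hch (k * k) n m _ S C c hc t' h1 W
    (fun h => liftM (Psi h) (hker h)) (by
      intro i j hij hcij h y hi hj
      obtain ⟨y, rfl⟩ := cl_surj y
      rw [hcj]
      simp only [liftM_cl]
      exact hrule i j hij hcij h y hi hj)
  have h2 : ∀ h, liftM (Psi h) (hker h) (S.Z (S.th (t' h))) =
      Psi h (zst V z (emb (io V m n) (t h) * g (swX V m n) * V.θ2 (AX m n))) := by
    intro h
    have e1 : S.th (t' h) = cl (emb (io V m n) (t h) * g (swX V m n) * V.θ2 (AX m n)) := by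
      change bim 1 (V.θ2 (AX m n)) (cl _) = _
      rw [bim_cl, one_mul]
    rw [e1, csB_Z, liftM_cl]
  simp only [h2] at hs
  refine ⟨o.natAbs, ?_, ?_⟩
  · rw [← Int.natCast_dvd_natCast, Int.dvd_natAbs]
    intro h3
    exact (Int.not_even_iff_odd.2 ho) (even_iff_two_dvd.2 h3)
  · rw [mul_smul, natCast_zsmul] at hs
    rcases Int.natAbs_eq o with e | e
    · rw [e, natCast_zsmul] at hs
      exact hs
    · rw [e, neg_smul, neg_eq_zero, natCast_zsmul] at hs
      exact hs

/-- SEX from the chase. -/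
theorem sex_of_chase (hch : Chase) (hE : Even1) (k : ℕ) : ∃ D, 0 < D ∧ XH.Sex k D :=
  XH.sex_of_big (Nat.factorial_pos _) (big_of_chase hch hE k)

end fin

end Pool.PI34.XS

end
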