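import Pool.Agent.LibPI54.M52

/-! ### part X_R2 -/
section

/-!
PI34, the prime `p = 2`, ring side, file R2: matrices over the group algebra and matrix
catalysts (definitions).
-/

set_option autoImplicit false
set_option linter.unusedSectionVars false

namespace Pool.PI34.XX

open Equiv Finset
open Pool.PI34.Super (W Lt odd act mj tn ins EE gen plL phL phR phi)

section mat

variable {B : Type} [Fintype B] [DecidableEq B]

/-- the action of the matrices over a ring of operators on the families -/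
def mE {S M A : Type} [CommRing S] [AddCommGroup M] [Module S M] [Ring A]
    (φ : A →+* Module.End S M) : Matrix B B A →+* Module.End S (B → M) where
  toFun Y :=
    { toFun := fun x b => ∑ b', φ (Y b b') (x b')
      map_add' := fun x y => by
        funext b
        simp only [Pi.add_apply, map_add, Finset.sum_add_distrib]
      map_smul' := fun c x => by
        funext b
        simp only [Pi.smul_apply, map_smul, RingHom.id_apply, Finset.smul_sum] }
  map_one' := by
    refine LinearMap.ext fun x => funext fun b => ?_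
    change ∑ b', φ ((1 : Matrix B B A) b b') (x b') = x b
    rw [Finset.sum_eq_single b]
    · rw [Matrix.one_apply_eq, map_one]
      rfl
    · intro b' _ hb
      rw [Matrix.one_apply_ne hb.symm, map_zero]
      rfl
    · intro h; exact absurd (mem_univ _) h
  map_mul' Y Z := by
    refine LinearMap.ext fun x => funext fun b => ?_
    change ∑ b', φ ((Y * Z) b b') (x b') = ∑ c, φ (Y b c) (∑ b', φ (Z c b') (x b'))
    simp only [map_sum]
    rw [Finset.sum_comm]
    refine Finset.sum_congr rfl fun b' _ => ?_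
    rw [Matrix.mul_apply, map_sum, LinearMap.sum_apply]
    exact Finset.sum_congr rfl fun c _ => by rw [map_mul]; rfl
  map_zero' := by
    refine LinearMap.ext fun x => funext fun b => ?_
    change ∑ b', φ ((0 : Matrix B B A) b b') (x b') = 0
    exact Finset.sum_eq_zero fun b' _ => by rw [Matrix.zero_apply, map_zero]; rfl
  map_add' Y Z := by
    refine LinearMap.ext fun x => funext fun b => ?_
    change ∑ b', φ ((Y + Z) b b') (x b') = ∑ b', φ (Y b b') (x b') + ∑ b', φ (Z b b') (x b')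
    rw [← Finset.sum_add_distrib]
    exact Finset.sum_congr rfl fun b' _ => by rw [Matrix.add_apply, map_add]; rfl

theorem mE_apply {S M A : Type} [CommRing S] [AddCommGroup M] [Module S M] [Ring A]
    (φ : A →+* Module.End S M) (Y : Matrix B B A) (x : B → M) (b : B) :
    mE φ Y x b = ∑ b', φ (Y b b') (x b') := rfl

variable {Λ : Type} [CommRing Λ] (j : Λ →+* ℚ) (k l : ℕ)

/-- the signed action of the matrices over the group algebra on the families of functions on
words -/
noncomputable def aW {ι : Type} [Fintype ι] [LinearOrder ι] :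
    Matrix B B (MonoidAlgebra Λ (Perm ι)) →+* Module.End ℚ (B → W k l ι) :=
  mE ((act k l ι).toRingHom.comp (mj j (Perm ι)))

/-- the scalar matrices as matrices over the group algebra -/
noncomputable def cst (Λ : Type) [CommRing Λ] (G : Type) [Group G] :
    Matrix B B Λ →+* Matrix B B (MonoidAlgebra Λ G) :=
  (algebraMap Λ (MonoidAlgebra Λ G)).mapMatrix

/-- placement of the matrices over the group algebra -/
noncomputable def plM (Λ : Type) [CommRing Λ] {κ ι : Type} [Fintype κ] [LinearOrder κ]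
    [Fintype ι] [LinearOrder ι] (φ : κ ↪o ι) :
    Matrix B B (MonoidAlgebra Λ (Perm κ)) →+* Matrix B B (MonoidAlgebra Λ (Perm ι)) :=
  (plL Λ φ).mapMatrix

end mat

/-- the space of families generated by a set of families under the operators `E_ab` -/
def UB {k l m : ℕ} {B : Type} (Xi : Set (B → W k l (Fin m))) :
    Submodule ℚ (B → W k l (Fin m)) :=
  gen {F | ∃ a b : Lt k l, F = (EE a b : Module.End ℚ (W k l (Fin m))).compLeft B}
    (Submodule.span ℚ Xi)

/-- MATRIX CATALYSTS with coefficients in `Λ`.  The free strand is the strand `0` of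
`Fin (m + 1)`. -/
structure CB {Λ : Type} [CommRing Λ] (j : Λ →+* ℚ) (k l m : ℕ) (B : Type) [Fintype B]
    [DecidableEq B] where
  /-- the families -/
  Xi : Set (B → W k l (Fin m))
  /-- the projection -/
  T : Matrix B B (MonoidAlgebra Λ (Perm (Fin m)))
  /-- delta on the left -/
  lam : Matrix B B (MonoidAlgebra Λ (Perm (Fin (m + 1))))
  /-- delta on the right -/
  lam' : Matrix B B (MonoidAlgebra Λ (Perm (Fin (m + 1))))
  /-- the square root of two -/
  r : Matrix B B Λ
  r_sq : r * r = 2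
  rT : cst Λ _ r * T = T * cst Λ _ r
  rlam : cst Λ _ r * lam = lam * cst Λ _ r
  hT : ∀ f, aW j k l T f ∈ UB Xi
  hlam : ∀ x ∈ Xi, ∀ c : Lt k l, aW j k l lam (fun b => ins c (x b))
    = (if odd c then (1 : ℚ) else 0) • aW j k l (cst Λ _ r) (fun b => ins c (x b))
  hlam' : aW j k l (lam * plM Λ (Fin.succOrderEmb m) T)
    = aW j k l (plM Λ (Fin.succOrderEmb m) T * lam')
  hne : ∃ f, aW j k l T f ∈ Xi ∧ aW j k l T f ≠ 0

/-- the target of the model part -/
def ModelSide : Prop := ∀ k l : ℕ, EXT k l →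
  ∃ (m : ℕ) (B : Type) (_ : Fintype B) (_ : DecidableEq B),
    Nonempty (CB (Super.jA 2) k l m B)

end Pool.PI34.XX

end

/-! ### part X_R1 -/
section

/-!
PI34, the prime `p = 2`, ring side, file R1: naive exotic systems give exotic string systems.
-/

set_option autoImplicit false
set_option linter.unusedSectionVars false

namespace Pool.PI34.XX

open Equiv Finset
open Pool.PI34.Super (prs mem_prs)

/-- the sign operator -/
noncomputable def sgO {n : ℕ} {U : Type} [Ring U] (d : Fin n → U) (σ : Perm (Fin n)) : U :=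
  ((prs (Fin n)).toList.map (fun q => if σ q.2 < σ q.1 then 1 - d q.1 * d q.2 else 1)).prod

/-- naive exotic systems: `s` are the naive flips, `p i a` the naive letters -/
structure NEx (n : ℕ) (R U : Type) [Ring U] where
  r : U
  rc : ∀ x, r * x = x * r
  r_sq : r * r = 2
  d : Fin (n + 1) → U
  d_sq : ∀ i, d i * d i = r * d i
  dc : ∀ i j, d i * d j = d j * d i
  s : Perm (Fin (n + 1)) →* U
  sd : ∀ σ i, s σ * d i = d (σ i) * s σ
  p : Fin (n + 1) → R → U
  sp : ∀ σ i a, s σ * p i a = p (σ i) a * s σ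
  pp : ∀ i j, i ≠ j → ∀ a b, p i a * p j b = p j b * p i a
  pd : ∀ i j, i ≠ j → ∀ a, p i a * d j = d j * p i a
  f : Perm (Fin (n + 1)) →* U
  f_eq : ∀ σ, f σ = s σ * sgO d σ

namespace NEx

variable {n : ℕ} {R U : Type} [Ring U] (S : NEx n R U)

/-- the ring of the letters -/
def Ph : Subring U := Subring.closure ({S.r, S.d 0} ∪ Set.range (S.p 0))

theorem r_mem : S.r ∈ S.Ph := Subring.subset_closure (Or.inl (Or.inl rfl))

theorem d_mem : S.d 0 ∈ S.Ph := Subring.subset_closure (Or.inl (Or.inr rfl))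

theorem p_mem (a : R) : S.p 0 a ∈ S.Ph := Subring.subset_closure (Or.inr ⟨a, rfl⟩)

/-- an element which commutes with the generators commutes with all the letters -/
theorem comm_of {y : U} (h1 : y * S.d 0 = S.d 0 * y) (h2 : ∀ a, y * S.p 0 a = S.p 0 a * y)
    {x : U} (hx : x ∈ S.Ph) : y * x = x * y := by
  unfold Ph at hx
  induction hx using Subring.closure_induction with
  | mem x hx =>
    rcases hx with (hx | hx) | ⟨a, rfl⟩
    · rw [hx, S.rc]
    · rw [Set.mem_singleton_iff.1 hx]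
      exact h1
    · exact h2 a
  | zero => rw [mul_zero, zero_mul]
  | one => rw [mul_one, one_mul]
  | add a b _ _ ha hb => rw [mul_add, add_mul, ha, hb]
  | neg a _ ha => rw [mul_neg, neg_mul, ha]
  | mul a b _ _ ha hb => rw [← mul_assoc, ha, mul_assoc, hb, mul_assoc]

theorem sgO_comm {y : U} (σ : Perm (Fin (n + 1)))
    (h : ∀ q ∈ prs (Fin (n + 1)), σ q.2 < σ q.1 → y * (S.d q.1 * S.d q.2) = S.d q.1 * S.d q.2 * y) :
    y * sgO S.d σ = sgO S.d σ * y := by
  unfold sgO
  have h1 : ∀ L : List (Fin (n + 1) × Fin (n + 1)), (∀ q ∈ L, q ∈ prs (Fin (n + 1))) →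
      y * (L.map (fun q => if σ q.2 < σ q.1 then 1 - S.d q.1 * S.d q.2 else 1)).prod
      = (L.map (fun q => if σ q.2 < σ q.1 then 1 - S.d q.1 * S.d q.2 else 1)).prod * y := by
    intro L
    induction L with
    | nil => intro _; simp
    | cons q L ih =>
      intro hL
      rw [List.map_cons, List.prod_cons, ← mul_assoc, mul_assoc _ _ y,
        ← ih (fun q hq => hL q (List.mem_cons_of_mem _ hq)), ← mul_assoc]
      congr 1
      split_ifs with hq
      · rw [mul_sub, sub_mul, mul_one, one_mul, h q (hL q List.mem_cons_self) hq]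
      · rw [mul_one, one_mul]
  exact h1 _ (fun q hq => Finset.mem_toList.1 hq)

theorem sgO_adj (i : Fin n) : sgO S.d (swap i.castSucc i.succ)
    = 1 - S.d i.castSucc * S.d i.succ := by
  classical
  unfold sgO
  have h1 : ∀ K : List (Fin (n + 1) × Fin (n + 1)), K.Nodup → (∀ q ∈ K, q ∈ prs (Fin (n + 1))) →
      (K.map (fun q => if swap i.castSucc i.succ q.2 < swap i.castSucc i.succ q.1 then
        1 - S.d q.1 * S.d q.2 else 1)).prod
      = if (i.castSucc, i.succ) ∈ K then 1 - S.d i.castSucc * S.d i.succ else 1 := by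
    intro K
    induction K with
    | nil => intro _ _; simp
    | cons q K ih =>
      intro hn hp
      rw [List.map_cons, List.prod_cons, ih (List.nodup_cons.1 hn).2
        (fun q hq => hp q (List.mem_cons_of_mem _ hq))]
      by_cases hq : q = (i.castSucc, i.succ)
      · subst hq
        rw [if_pos ((Super.CatL.adj_inv i _ (hp _ List.mem_cons_self)).2 rfl),
          if_neg (List.nodup_cons.1 hn).1, if_pos List.mem_cons_self, mul_one]
      · rw [if_neg (fun h => hq ((Super.CatL.adj_inv i _ (hp _ List.mem_cons_self)).1 h)), one_mul]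
        by_cases h2 : (i.castSucc, i.succ) ∈ K
        · rw [if_pos h2, if_pos (List.mem_cons_of_mem _ h2)]
        · rw [if_neg h2, if_neg]
          intro h
          rcases List.mem_cons.1 h with h | h
          · exact hq h.symm
          · exact h2 h
  rw [h1 _ (Finset.nodup_toList _) (fun q hq => Finset.mem_toList.1 hq), if_pos]
  rw [Finset.mem_toList, mem_prs]
  exact Fin.castSucc_lt_succ

/-- the plain flips which fix the strand `0` commute with the letters -/
theorem f_comm (τ : Perm (Fin (n + 1))) (hτ : τ 0 = 0) {x : U} (hx : x ∈ S.Ph) :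
    S.f τ * x = x * S.f τ := by
  refine S.comm_of ?_ (fun a => ?_) hx
  · have h1 := S.sgO_comm (y := S.d 0) τ (fun q _ _ => by
      rw [← mul_assoc, S.dc 0 q.1, mul_assoc, S.dc 0 q.2, mul_assoc])
    rw [S.f_eq, mul_assoc, ← h1, ← mul_assoc, S.sd, hτ, mul_assoc]
  · have h1 := S.sgO_comm (y := S.p 0 a) τ (fun q hq hq2 => by
      rw [mem_prs] at hq
      have h2 : (0 : Fin (n + 1)) ≠ q.1 := by
        intro e
        rw [← e, hτ] at hq2
        exact absurd hq2 (Fin.not_lt_zero _)
      have h3 : (0 : Fin (n + 1)) ≠ q.2 := by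
        intro e
        rw [← e] at hq
        exact absurd hq (Fin.not_lt_zero _)
      rw [← mul_assoc, S.pd _ _ h2, mul_assoc, S.pd _ _ h3, mul_assoc])
    rw [S.f_eq, mul_assoc, ← h1, ← mul_assoc, S.sp, hτ, mul_assoc]

theorem ff (i j : Fin (n + 1)) : S.f (swap i j) * S.f (swap i j) = 1 := by
  rw [← map_mul, swap_mul_self, map_one]

/-- the letters on the strand `i` -/
noncomputable def rh (i : Fin (n + 1)) : S.Ph →+* U where
  toFun x := S.f (swap 0 i) * x.1 * S.f (swap 0 i)
  map_one' := by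
    rw [Subring.coe_one, mul_one, S.ff]
  map_mul' x y := by
    rw [Subring.coe_mul]
    have h : S.f (swap 0 i) * x.1 * S.f (swap 0 i) * (S.f (swap 0 i) * y.1 * S.f (swap 0 i))
        = S.f (swap 0 i) * x.1 * (S.f (swap 0 i) * S.f (swap 0 i)) * y.1 * S.f (swap 0 i) := by
      simp only [mul_assoc]
    rw [h, S.ff, mul_one]
    simp only [mul_assoc]
  map_zero' := by rw [Subring.coe_zero, mul_zero, zero_mul]
  map_add' x y := by rw [Subring.coe_add, mul_add, add_mul]

theorem rh_apply (i : Fin (n + 1)) (x : S.Ph) :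
    S.rh i x = S.f (swap 0 i) * x.1 * S.f (swap 0 i) := rfl

theorem rh_zero (x : S.Ph) : S.rh 0 x = x.1 := by
  rw [rh_apply, swap_self]
  change S.f 1 * x.1 * S.f 1 = x.1
  rw [map_one, one_mul, mul_one]

theorem f_rh (σ : Perm (Fin (n + 1))) (i : Fin (n + 1)) (x : S.Ph) :
    S.f σ * S.rh i x = S.rh (σ i) x * S.f σ := by
  set τ : Perm (Fin (n + 1)) := swap 0 (σ i) * σ * swap 0 i with hτ
  have h0 : τ 0 = 0 := by
    rw [hτ, Perm.mul_apply, Perm.mul_apply, swap_apply_left, swap_apply_right]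
  have h1 : σ * swap 0 i = swap 0 (σ i) * τ := by
    rw [hτ, ← mul_assoc, ← mul_assoc, swap_mul_self, one_mul]
  have h2 : τ * swap 0 i = swap 0 (σ i) * σ := by
    rw [hτ, mul_assoc, swap_mul_self, mul_one]
  rw [rh_apply, rh_apply, ← mul_assoc, ← mul_assoc, ← map_mul, h1, map_mul,
    mul_assoc (S.f (swap 0 (σ i))), S.f_comm τ h0 x.2, mul_assoc, mul_assoc, ← map_mul, h2,
    map_mul]
  simp only [mul_assoc]

theorem s_sq (i j : Fin (n + 1)) : S.s (swap i j) * S.s (swap i j) = 1 := by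
  rw [← map_mul, swap_mul_self, map_one]

end NEx

namespace NEx

variable {n : ℕ} {R U : Type} [Ring U] (S : NEx (n + 1) R U)

/-- the naive letter on the strand `1` commutes with the elements which commute with its
generators -/
theorem conj_comm {y : U} (h1 : y * S.d 1 = S.d 1 * y) (h2 : ∀ a, y * S.p 1 a = S.p 1 a * y)
    {x : U} (hx : x ∈ S.Ph) : y * (S.s (swap 0 1) * x * S.s (swap 0 1))
      = S.s (swap 0 1) * x * S.s (swap 0 1) * y := by
  set t : U := S.s (swap 0 1) with ht
  have htt : t * t = 1 := S.s_sq 0 1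
  have hd : t * S.d 0 = S.d 1 * t := by
    rw [ht, S.sd, swap_apply_left]
  have hd' : t * S.d 1 = S.d 0 * t := by
    rw [ht, S.sd, swap_apply_right]
  have hp : ∀ a, t * S.p 0 a = S.p 1 a * t := by
    intro a
    rw [ht, S.sp, swap_apply_left]
  have hp' : ∀ a, t * S.p 1 a = S.p 0 a * t := by
    intro a
    rw [ht, S.sp, swap_apply_right]
  have h := S.comm_of (y := t * y * t) (by
      calc t * y * t * S.d 0 = t * y * (t * S.d 0) := by simp only [mul_assoc]
        _ = t * (y * S.d 1) * t := by rw [hd]; simp only [mul_assoc]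
        _ = (t * S.d 1) * y * t := by rw [h1]; simp only [mul_assoc]
        _ = S.d 0 * (t * y * t) := by rw [hd']; simp only [mul_assoc]) (fun a => by
      calc t * y * t * S.p 0 a = t * y * (t * S.p 0 a) := by simp only [mul_assoc]
        _ = t * (y * S.p 1 a) * t := by rw [hp]; simp only [mul_assoc]
        _ = (t * S.p 1 a) * y * t := by rw [h2]; simp only [mul_assoc]
        _ = S.p 0 a * (t * y * t) := by rw [hp']; simp only [mul_assoc]) hx
  calc y * (t * x * t) = (t * t) * y * (t * x * t) := by rw [htt, one_mul]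
    _ = t * (t * y * t * x) * t := by simp only [mul_assoc]
    _ = t * (x * (t * y * t)) * t := by rw [h]
    _ = t * x * t * y * (t * t) := by simp only [mul_assoc]
    _ = t * x * t * y := by rw [htt, mul_one]

theorem naive_comm {x y : U} (hx : x ∈ S.Ph) (hy : y ∈ S.Ph) :
    x * (S.s (swap 0 1) * y * S.s (swap 0 1)) = S.s (swap 0 1) * y * S.s (swap 0 1) * x := by
  have h01 : (0 : Fin (n + 1 + 1)) ≠ 1 := Fin.zero_ne_one
  refine S.conj_comm ?_ (fun a => ?_) hy
  · exact (S.comm_of (S.dc 1 0) (fun a => (S.pd 0 1 h01 a).symm) hx).symm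
  · exact (S.comm_of (S.pd 1 0 h01.symm a) (fun b => S.pp 1 0 h01.symm a b) hx).symm

theorem d_naive {y : U} (hy : y ∈ S.Ph) :
    S.d 0 * (S.s (swap 0 1) * y * S.s (swap 0 1)) = S.s (swap 0 1) * y * S.s (swap 0 1) * S.d 0 :=
  S.naive_comm S.d_mem hy

/-- the derivation -/
def dd (x : U) : U := S.d 0 * x + x * S.d 0 - S.r * (S.d 0 * x * S.d 0)

theorem dd_mem {x : U} (hx : x ∈ S.Ph) : S.dd x ∈ S.Ph := by
  unfold dd
  exact Subring.sub_mem _ (Subring.add_mem _ (Subring.mul_mem _ S.d_mem hx)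
    (Subring.mul_mem _ hx S.d_mem)) (Subring.mul_mem _ S.r_mem
      (Subring.mul_mem _ (Subring.mul_mem _ S.d_mem hx) S.d_mem))

theorem f01 : S.f (swap 0 1) = S.s (swap 0 1) * (1 - S.d 0 * S.d 1) := by
  have h := S.sgO_adj (0 : Fin (n + 1))
  have e1 : (0 : Fin (n + 1)).castSucc = 0 := rfl
  have e2 : (0 : Fin (n + 1)).succ = 1 := rfl
  rw [e1, e2] at h
  rw [S.f_eq, h]

theorem f01' : S.f (swap 0 1) = (1 - S.d 0 * S.d 1) * S.s (swap 0 1) := by
  rw [f01, mul_sub, sub_mul, mul_one, one_mul, ← mul_assoc, S.sd, swap_apply_left, mul_assoc,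
    S.sd, swap_apply_right, ← mul_assoc, S.dc 1 0]

/-- the plain letter on the strand `1` -/
theorem conj01 {y : U} (hy : y ∈ S.Ph) : S.f (swap 0 1) * y * S.f (swap 0 1)
    = S.s (swap 0 1) * y * S.s (swap 0 1)
      - S.d 0 * (S.s (swap 0 1) * S.dd y * S.s (swap 0 1)) := by
  have h1 := S.d_naive hy
  set t : U := S.s (swap 0 1) with ht
  have htt : t * t = 1 := S.s_sq 0 1
  have hd : t * S.d 0 = S.d 1 * t := by
    rw [ht, S.sd, swap_apply_left]
  have hd' : S.d 0 * t = t * S.d 1 := by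
    rw [ht, S.sd, swap_apply_right]
  have hdt : S.d 1 = t * S.d 0 * t := by
    rw [hd, mul_assoc, htt, mul_one]
  have hf1 : S.f (swap 0 1) = (1 - S.d 0 * S.d 1) * t := S.f01'
  have hf2 : S.f (swap 0 1) = t * (1 - S.d 0 * S.d 1) := S.f01
  have h3 : t * S.dd y * t = S.d 1 * (t * y * t) + t * y * t * S.d 1
      - S.r * (S.d 1 * (t * y * t) * S.d 1) := by
    unfold dd
    rw [mul_sub, mul_add, sub_mul, add_mul]
    congr 1
    · congr 1
      · rw [← mul_assoc, hd]
        simp only [mul_assoc]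
      · simp only [mul_assoc]
        rw [hd']
    · rw [← mul_assoc t, ← S.rc t]
      simp only [mul_assoc]
      rw [hd', ← mul_assoc t (S.d 0), hd, mul_assoc]
  have h4 : S.d 0 * S.d 1 * (t * y * t) * (S.d 0 * S.d 1)
      = S.d 0 * (S.r * (S.d 1 * (t * y * t) * S.d 1)) := by
    calc S.d 0 * S.d 1 * (t * y * t) * (S.d 0 * S.d 1)
        = S.d 0 * S.d 1 * (t * y * t * S.d 0) * S.d 1 := by simp only [mul_assoc]
      _ = S.d 0 * S.d 1 * (S.d 0 * (t * y * t)) * S.d 1 := by rw [h1]
      _ = S.d 0 * (S.d 1 * S.d 0) * (t * y * t) * S.d 1 := by simp only [mul_assoc]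
      _ = (S.d 0 * S.d 0) * S.d 1 * (t * y * t) * S.d 1 := by
        rw [S.dc 1 0]; simp only [mul_assoc]
      _ = S.d 0 * S.r * S.d 1 * (t * y * t) * S.d 1 := by
        rw [S.d_sq, S.rc]
      _ = _ := by simp only [mul_assoc]
  have h5 : (t * y * t) * (S.d 0 * S.d 1) = S.d 0 * ((t * y * t) * S.d 1) := by
    rw [← mul_assoc, ← h1]; simp only [mul_assoc]
  calc S.f (swap 0 1) * y * S.f (swap 0 1)
      = (1 - S.d 0 * S.d 1) * (t * y * t) * (1 - S.d 0 * S.d 1) := by
        nth_rewrite 1 [hf1]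
        rw [hf2]
        simp only [mul_assoc]
    _ = t * y * t - S.d 0 * S.d 1 * (t * y * t) - (t * y * t) * (S.d 0 * S.d 1)
        + S.d 0 * S.d 1 * (t * y * t) * (S.d 0 * S.d 1) := by noncomm_ring
    _ = t * y * t - S.d 0 * (S.d 1 * (t * y * t)) - S.d 0 * ((t * y * t) * S.d 1)
        + S.d 0 * (S.r * (S.d 1 * (t * y * t) * S.d 1)) := by
        rw [h4, h5, mul_assoc (S.d 0) (S.d 1)]
    _ = _ := by
        rw [h3, mul_sub, mul_add]
        abel

theorem dd_dd (x : U) : S.dd (S.dd x) = S.r * S.dd x := by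
  have e1 : S.d 0 * S.dd x = S.d 0 * x * S.d 0 * (-1) + S.r * (S.d 0 * x) := by
    unfold dd
    have h : S.d 0 * (S.r * (S.d 0 * x * S.d 0)) = 2 * (S.d 0 * x * S.d 0) := by
      calc S.d 0 * (S.r * (S.d 0 * x * S.d 0)) = S.r * (S.d 0 * S.d 0) * x * S.d 0 := by
            rw [← mul_assoc, ← S.rc]; simp only [mul_assoc]
        _ = S.r * S.r * (S.d 0 * x * S.d 0) := by rw [S.d_sq]; simp only [mul_assoc]
        _ = _ := by rw [S.r_sq]
    rw [mul_sub, mul_add, h, ← mul_assoc (S.d 0) (S.d 0) x, S.d_sq, two_mul]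
    noncomm_ring
  have e2 : S.dd x * S.d 0 = S.d 0 * x * S.d 0 * (-1) + S.r * (x * S.d 0) := by
    unfold dd
    have h : S.r * (S.d 0 * x * S.d 0) * S.d 0 = 2 * (S.d 0 * x * S.d 0) := by
      calc S.r * (S.d 0 * x * S.d 0) * S.d 0 = S.r * (S.d 0 * x * (S.d 0 * S.d 0)) := by
            simp only [mul_assoc]
        _ = S.r * (S.d 0 * x * S.r * S.d 0) := by rw [S.d_sq]; simp only [mul_assoc]
        _ = S.r * S.r * (S.d 0 * x * S.d 0) := by
            rw [← S.rc (S.d 0 * x)]; simp only [mul_assoc]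
        _ = _ := by rw [S.r_sq]
    rw [sub_mul, add_mul, h, mul_assoc x, S.d_sq, ← mul_assoc x, ← S.rc x, two_mul]
    noncomm_ring
  have e3 : S.d 0 * S.dd x * S.d 0 = 0 := by
    rw [e1, add_mul]
    have h : S.d 0 * x * S.d 0 * -1 * S.d 0 = - (S.r * (S.d 0 * x * S.d 0)) := by
      rw [mul_neg, mul_one, neg_mul, mul_assoc (S.d 0 * x), S.d_sq, ← mul_assoc (S.d 0 * x),
        ← S.rc (S.d 0 * x)]
      simp only [mul_assoc]
    rw [h]
    simp only [mul_assoc]
    rw [neg_add_cancel]
  have e4 : S.dd (S.dd x) = S.d 0 * S.dd x + S.dd x * S.d 0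
      - S.r * (S.d 0 * S.dd x * S.d 0) := rfl
  rw [e4, e3, e1, e2, mul_zero, sub_zero]
  have e5 : S.r * S.dd x = S.r * (S.d 0 * x) + S.r * (x * S.d 0) - 2 * (S.d 0 * x * S.d 0) := by
    unfold dd
    rw [mul_sub, mul_add, ← mul_assoc S.r S.r, S.r_sq]
  rw [e5]
  noncomm_ring

/-- the exotic commutation on the strands `0, 1` -/
theorem comm01 {x y : U} (hx : x ∈ S.Ph) (hy : y ∈ S.Ph) :
    x * (S.f (swap 0 1) * y * S.f (swap 0 1)) = S.f (swap 0 1) * y * S.f (swap 0 1) * x
      + S.dd x * (S.f (swap 0 1) * S.dd y * S.f (swap 0 1)) := by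
  rw [S.conj01 hy, S.conj01 (S.dd_mem hy), S.dd_dd]
  have h1 := S.naive_comm hx hy
  have h2 := S.naive_comm hx (S.dd_mem hy)
  have h3 := S.d_naive (S.dd_mem hy)
  set t : U := S.s (swap 0 1) with ht
  set u : U := t * y * t with hu
  set v : U := t * S.dd y * t with hv
  have h4 : t * (S.r * S.dd y) * t = S.r * v := by
    rw [hv, ← mul_assoc, ← S.rc t]
    simp only [mul_assoc]
  rw [h4]
  -- `dd x (v - δ r v) = (δ x - x δ) v`
  have h5 : S.dd x * (v - S.d 0 * (S.r * v)) = (S.d 0 * x - x * S.d 0) * v := by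
    have e1 : S.dd x * (v - S.d 0 * (S.r * v)) = (S.dd x - S.r * (S.dd x * S.d 0)) * v := by
      rw [mul_sub, sub_mul]
      congr 1
      rw [← mul_assoc, ← mul_assoc, ← S.rc (S.dd x * S.d 0)]
    rw [e1]
    congr 1
    have e2 : S.dd x * S.d 0 = S.r * (x * S.d 0) - S.d 0 * x * S.d 0 := by
      unfold dd
      have h : S.r * (S.d 0 * x * S.d 0) * S.d 0 = 2 * (S.d 0 * x * S.d 0) := by
        calc S.r * (S.d 0 * x * S.d 0) * S.d 0 = S.r * (S.d 0 * x * (S.d 0 * S.d 0)) := by
              simp only [mul_assoc]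
          _ = S.r * (S.d 0 * x * S.r * S.d 0) := by rw [S.d_sq]; simp only [mul_assoc]
          _ = S.r * S.r * (S.d 0 * x * S.d 0) := by
              rw [← S.rc (S.d 0 * x)]; simp only [mul_assoc]
          _ = _ := by rw [S.r_sq]
      rw [sub_mul, add_mul, h, mul_assoc x, S.d_sq, ← mul_assoc x, ← S.rc x, two_mul]
      noncomm_ring
    rw [e2, mul_sub, ← mul_assoc S.r S.r, S.r_sq]
    unfold dd
    noncomm_ring
  rw [h5, mul_sub, sub_mul, h1]
  have h6 : S.d 0 * v * x = S.d 0 * x * v := by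
    rw [mul_assoc, ← h2, ← mul_assoc]
  rw [h6, sub_mul]
  have h7 : x * (S.d 0 * v) = x * S.d 0 * v := by rw [mul_assoc]
  rw [h7]
  abel

theorem exists_pi {i j : Fin (n + 1 + 1)} (h : i ≠ j) :
    ∃ π : Perm (Fin (n + 1 + 1)), π 0 = i ∧ π 1 = j := by
  have h01 : (0 : Fin (n + 1 + 1)) ≠ 1 := Fin.zero_ne_one
  refine ⟨swap 0 i * swap 1 (swap 0 i j), ?_, ?_⟩
  · by_cases h1 : swap 0 i j = 0
    · exfalso
      have h2 := congrArg (swap 0 i) h1
      rw [swap_apply_self, swap_apply_left] at h2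
      exact h h2.symm
    · rw [Perm.mul_apply, swap_apply_of_ne_of_ne h01 (fun e => h1 e.symm), swap_apply_left]
  · rw [Perm.mul_apply, swap_apply_left, swap_apply_self]

theorem rh_comm (i j : Fin (n + 1 + 1)) (h : i ≠ j) (x y : S.Ph) :
    S.rh i x * S.rh j y = S.rh j y * S.rh i x +
      S.rh i ⟨S.dd x.1, S.dd_mem x.2⟩ * S.rh j ⟨S.dd y.1, S.dd_mem y.2⟩ := by
  obtain ⟨π, h0, h1⟩ := exists_pi h
  have hinv : S.f π⁻¹ * S.f π = 1 := by rw [← map_mul, inv_mul_cancel, map_one]
  have hinv' : S.f π * S.f π⁻¹ = 1 := by rw [← map_mul, mul_inv_cancel, map_one]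
  have hi : ∀ x : S.Ph, S.rh i x = S.f π * x.1 * S.f π⁻¹ := by
    intro x
    have h2 := S.f_rh π 0 x
    rw [h0, S.rh_zero] at h2
    rw [h2, mul_assoc, hinv', mul_one]
  have hj : ∀ y : S.Ph, S.rh j y = S.f π * (S.f (swap 0 1) * y.1 * S.f (swap 0 1)) * S.f π⁻¹ := by
    intro y
    have h2 := S.f_rh π 1 y
    rw [h1] at h2
    rw [← rh_apply, h2, mul_assoc, hinv', mul_one]
  have hm : ∀ a b : U, S.f π * a * S.f π⁻¹ * (S.f π * b * S.f π⁻¹)
      = S.f π * (a * b) * S.f π⁻¹ := by
    intro a b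
    calc S.f π * a * S.f π⁻¹ * (S.f π * b * S.f π⁻¹)
        = S.f π * a * (S.f π⁻¹ * S.f π) * b * S.f π⁻¹ := by simp only [mul_assoc]
      _ = _ := by rw [hinv, mul_one]; simp only [mul_assoc]
  rw [hi, hj, hi, hj, hm, hm, hm, ← add_mul, ← mul_add, S.comm01 x.2 y.2]

end NEx

theorem NEx.rh_r {n : ℕ} {R U : Type} [Ring U] (S : NEx n R U) (i : Fin (n + 1)) :
    S.rh i ⟨S.r, S.r_mem⟩ = S.r := by
  rw [S.rh_apply]
  change S.f (swap 0 i) * S.r * S.f (swap 0 i) = S.r
  rw [← S.rc, mul_assoc, S.ff, mul_one]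

/-- THE EXOTIC STRING SYSTEM of a naive system -/
noncomputable def NEx.toEx {n : ℕ} {R U : Type} [Ring U] (S : NEx n R U) :
    ExStr (Fin (n + 1)) S.Ph U where
  q := ⟨S.r, S.r_mem⟩
  q_comm a := Subtype.ext (S.rc a.1)
  q_sq := Subtype.ext S.r_sq
  δ := ⟨S.d 0, S.d_mem⟩
  δ_sq := Subtype.ext (S.d_sq 0)
  f := S.f
  ρ := S.rh
  ρ_q i j := by rw [S.rh_r, S.rh_r]
  ρ_qc i x := by rw [S.rh_r, S.rc]
  f_ρ := S.f_rh
  comm i j h a b := by
    cases n with
    | zero => exact absurd (Fin.ext (by omega)) h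
    | succ n => exact S.rh_comm i j h a b

end Pool.PI34.XX

end
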