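import Pool.Agent.LibPI54.M02
import Pool.Agent.LibPI54.M03
import Pool.Agent.LibPI54.M44
import Pool.Agent.LibPI54.M57

/-! ### part X_M1 -/
section

/-!
PI34, the prime `p = 2`, model side, file M1: the components of `ℤ_(2)[√2]`, operators over
`ℤ_(2)[√2]` as matrices of rational operators, adjoint operators.
-/

set_option autoImplicit false
set_option linter.unusedSectionVars false

namespace Pool.PI34.XX

open Equiv Finset
open Pool.PI34.Super (Lt odd pv prs Ap jA mj plL)

/-! ### the components -/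

/-- the components -/
noncomputable def cA (a : Fin 2) : O2 →ₗ[Ap 2] Ap 2 where
  toFun x := if a = 0 then x.re else x.im
  map_add' x y := by
    split_ifs
    · exact QuadraticAlgebra.re_add x y
    · exact QuadraticAlgebra.im_add x y
  map_smul' c x := by
    rw [RingHom.id_apply, smul_eq_mul]
    split_ifs
    · exact QuadraticAlgebra.re_smul c x
    · exact QuadraticAlgebra.im_smul c x

theorem cA_zero (x : O2) : cA 0 x = x.re := rfl

theorem cA_one (x : O2) : cA 1 x = x.im := rfl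

/-- the basis -/
noncomputable def bs (b : Fin 2) : O2 := if b = 0 then 1 else r2

theorem bs_zero : bs 0 = 1 := rfl

theorem bs_one : bs 1 = r2 := rfl

theorem cA_bs (a b : Fin 2) : cA a (bs b) = if a = b then 1 else 0 := by
  fin_cases a <;> fin_cases b
  · change (1 : O2).re = _
    rw [QuadraticAlgebra.re_one]
    rfl
  · change r2.re = _
    simp [r2]
  · change (1 : O2).im = _
    rw [QuadraticAlgebra.im_one]
    rfl
  · change r2.im = _
    simp [r2]

theorem cA_mul (a : Fin 2) (x y : O2) : cA a (x * y) = ∑ c, cA a (x * bs c) * cA c y := by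
  rw [Fin.sum_univ_two, bs_zero, bs_one, cA_zero, cA_one, mul_one]
  fin_cases a
  · change (x * y).re = x.re * y.re + (x * r2).re * y.im
    rw [QuadraticAlgebra.re_mul, QuadraticAlgebra.re_mul]
    simp [r2]
  · change (x * y).im = x.im * y.re + (x * r2).im * y.im
    rw [QuadraticAlgebra.im_mul, QuadraticAlgebra.im_mul]
    simp [r2]
    ring

/-- the matrix of the multiplication -/
noncomputable def Psi (x : O2) (a b : Fin 2) : Ap 2 := cA a (x * bs b)

theorem cA_mul' (a : Fin 2) (x y : O2) : cA a (x * y) = ∑ c, Psi x a c * cA c y := cA_mul a x y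

theorem Psi_mul (x y : O2) (a b : Fin 2) : Psi (x * y) a b = ∑ c, Psi x a c * Psi y c b := by
  unfold Psi
  rw [mul_assoc, cA_mul]

theorem Psi_one (a b : Fin 2) : Psi 1 a b = if a = b then 1 else 0 := by
  unfold Psi
  rw [one_mul, cA_bs]

theorem Psi_smul (c : Ap 2) (x : O2) (a b : Fin 2) : Psi (c • x) a b = c * Psi x a b := by
  unfold Psi
  rw [smul_mul_assoc, map_smul, smul_eq_mul]

theorem Psi_add (x y : O2) (a b : Fin 2) : Psi (x + y) a b = Psi x a b + Psi y a b := by
  unfold Psi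
  rw [add_mul, map_add]

theorem Psi_comm (x y : O2) (a b : Fin 2) :
    ∑ c, Psi x a c * Psi y c b = ∑ c, Psi y a c * Psi x c b := by
  rw [← Psi_mul, ← Psi_mul, mul_comm]

/-! ### the components of the words -/

section words

variable {k l : ℕ} {ι : Type} [Fintype ι] [LinearOrder ι]

/-- the components of a word -/
noncomputable def cW (a : Fin 2) (F : SK.W O2 k l ι) : Super.W k l ι := fun w => jA 2 (cA a (F w))

theorem cW_apply (a : Fin 2) (F : SK.W O2 k l ι) (w : ι → Lt k l) :
    cW a F w = jA 2 (cA a (F w)) := rfl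

theorem cW_add (a : Fin 2) (F G : SK.W O2 k l ι) : cW a (F + G) = cW a F + cW a G := by
  funext w
  rw [Pi.add_apply, cW_apply, cW_apply, cW_apply, Pi.add_apply, map_add, map_add]

theorem cW_zero (a : Fin 2) : cW a (0 : SK.W O2 k l ι) = 0 := by
  funext w
  rw [cW_apply, Pi.zero_apply, map_zero, map_zero, Pi.zero_apply]

theorem cW_sum {κ : Type*} (s : Finset κ) (a : Fin 2) (F : κ → SK.W O2 k l ι) :
    cW a (∑ i ∈ s, F i) = ∑ i ∈ s, cW a (F i) := by
  classical
  induction s using Finset.induction_on with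
  | empty => rw [Finset.sum_empty, Finset.sum_empty, cW_zero]
  | insert i s hi ih => rw [Finset.sum_insert hi, Finset.sum_insert hi, cW_add, ih]

theorem cW_smul (a : Fin 2) (x : O2) (F : SK.W O2 k l ι) :
    cW a (x • F) = ∑ c, jA 2 (Psi x a c) • cW c F := by
  funext w
  rw [cW_apply, Pi.smul_apply, smul_eq_mul, cA_mul', map_sum, Finset.sum_apply]
  exact Finset.sum_congr rfl fun c _ => by rw [map_mul, Pi.smul_apply, smul_eq_mul, cW_apply]

/-- the matrix of rational operators of an operator over `ℤ_(2)[√2]` -/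
def Ex (X : Module.End O2 (SK.W O2 k l ι)) (M : Fin 2 → Fin 2 → Module.End ℚ (Super.W k l ι)) :
    Prop := ∀ a F, cW a (X F) = ∑ c, M a c (cW c F)

theorem Ex.mul {X Y : Module.End O2 (SK.W O2 k l ι)}
    {M N : Fin 2 → Fin 2 → Module.End ℚ (Super.W k l ι)} (hX : Ex X M) (hY : Ex Y N) :
    Ex (X * Y) (fun a b => ∑ c, M a c * N c b) := by
  intro a F
  rw [Module.End.mul_apply, hX]
  have h : ∀ c, M a c (cW c (Y F)) = ∑ b, M a c (N c b (cW b F)) := fun c => by
    rw [hY, map_sum]
  simp only [h, LinearMap.sum_apply, Module.End.mul_apply]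
  rw [Finset.sum_comm]

theorem Ex.congr {X : Module.End O2 (SK.W O2 k l ι)}
    {M N : Fin 2 → Fin 2 → Module.End ℚ (Super.W k l ι)} (hX : Ex X M)
    (h : ∀ a b, M a b = N a b) : Ex X N := by
  intro a F
  rw [hX]
  exact Finset.sum_congr rfl fun c _ => by rw [h]

/-- the expansion of the elements of the group algebra -/
noncomputable def pj (a b : Fin 2) (G : Type) [Group G] :
    MonoidAlgebra O2 G →+ MonoidAlgebra (Ap 2) G where
  toFun := MonoidAlgebra.map ((cA a).toAddMonoidHom.comp (AddMonoidHom.mulRight (bs b)))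
  map_zero' := MonoidAlgebra.map_zero _
  map_add' := MonoidAlgebra.map_add _

theorem pj_single (a b : Fin 2) {G : Type} [Group G] (σ : G) (x : O2) :
    pj a b G (MonoidAlgebra.single σ x) = MonoidAlgebra.single σ (Psi x a b) :=
  MonoidAlgebra.map_single _ _ _

theorem pj_mul (x : O2) (a b : Fin 2) {G : Type} [Group G] (y : MonoidAlgebra O2 G) :
    ∑ c, Psi x a c • pj c b G y = pj a b G (x • y) := by
  induction y using MonoidAlgebra.induction_linear with
  | zero => simp
  | add y z hy hz =>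
    rw [smul_add, map_add, ← hy, ← hz, ← Finset.sum_add_distrib]
    exact Finset.sum_congr rfl fun c _ => by rw [map_add, smul_add]
  | single σ z =>
    rw [MonoidAlgebra.smul_single, pj_single, smul_eq_mul, Psi_mul]
    simp only [pj_single, MonoidAlgebra.smul_single, smul_eq_mul]
    exact (map_sum (MonoidAlgebra.singleAddHom σ) _ _).symm

theorem pj_mul' (x : O2) (a b : Fin 2) {G : Type} [Group G] (y : MonoidAlgebra O2 G) :
    ∑ c, Psi x c b • pj a c G y = pj a b G (x • y) := by
  induction y using MonoidAlgebra.induction_linear with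
  | zero => simp
  | add y z hy hz =>
    rw [smul_add, map_add, ← hy, ← hz, ← Finset.sum_add_distrib]
    exact Finset.sum_congr rfl fun c _ => by rw [map_add, smul_add]
  | single σ z =>
    rw [MonoidAlgebra.smul_single, pj_single, smul_eq_mul, mul_comm x z, Psi_mul]
    simp only [pj_single, MonoidAlgebra.smul_single, smul_eq_mul]
    refine Eq.trans ?_ (map_sum (MonoidAlgebra.singleAddHom σ) _ _).symm
    exact Finset.sum_congr rfl fun c _ => by rw [mul_comm]; rfl

theorem map_eps {A K : Type} [CommRing A] [CommRing K] (φ : A →+* K) (σ : Perm ι)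
    (p : ι → Bool) : φ (SK.eps σ p) = SK.eps σ p := by
  unfold SK.eps
  rw [map_prod]
  refine Finset.prod_congr rfl fun q _ => ?_
  split_ifs
  · unfold SK.H
    split_ifs <;> simp
  · simp

theorem Ex_act (y : MonoidAlgebra O2 (Perm ι)) :
    Ex (SK.act O2 O2 k l ι y) (fun a b => Super.act k l ι (mj (jA 2) (Perm ι) (pj a b _ y))) := by
  intro a F
  induction y using MonoidAlgebra.induction_linear with
  | zero => simp [cW_zero]
  | add y z hy hz =>
    rw [map_add, LinearMap.add_apply, cW_add, hy, hz, ← Finset.sum_add_distrib]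
    refine Finset.sum_congr rfl fun c _ => ?_
    change _ = Super.act k l ι (mj (jA 2) (Perm ι) (pj a c _ (y + z))) (cW c F)
    rw [map_add, map_add, map_add, LinearMap.add_apply]
  | single σ x =>
    funext w
    rw [SK.act_single, cW_apply, LinearMap.smul_apply, Pi.smul_apply, smul_eq_mul, SK.rho_apply,
      ← SK.bc_eps (A := Ap 2) (K := O2), ← Algebra.smul_def, mul_smul_comm, map_smul, smul_eq_mul,
      map_mul, map_eps, cA_mul', map_sum, Finset.sum_apply, Finset.mul_sum]
    refine Finset.sum_congr rfl fun c _ => ?_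
    have h1 : mj (jA 2) (Perm ι) (MonoidAlgebra.single σ (Psi x a c))
        = MonoidAlgebra.single σ (jA 2 (Psi x a c)) := by
      unfold mj
      rw [MonoidAlgebra.mapRingHom_single]
    change _ = Super.act k l ι (mj (jA 2) (Perm ι) (pj a c _ (MonoidAlgebra.single σ x))) (cW c F) w
    rw [pj_single, h1, Super.act_single, LinearMap.smul_apply, Pi.smul_apply, smul_eq_mul,
      Super.rho_apply, cW_apply, map_mul]
    have h2 : (SK.eps σ (pv (w ∘ σ)) : ℚ) = Super.eps σ (pv (w ∘ σ)) := rfl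
    rw [h2]
    ring

theorem Ex_dT (S : Finset ι) :
    Ex (dT O2 k l r2 S : Module.End O2 (SK.W O2 k l ι))
      (fun a b => jA 2 (Psi (r2 ^ S.card) a b) • dT ℚ k l 1 S) := by
  intro a F
  funext w
  rw [cW_apply, Finset.sum_apply]
  change jA 2 (cA a ((∏ i ∈ S, if odd (w i) then r2 else 0) * F w)) =
    ∑ c, jA 2 (Psi (r2 ^ S.card) a c) * ((∏ i ∈ S, if odd (w i) then (1 : ℚ) else 0) * cW c F w)
  by_cases h : ∀ i ∈ S, odd (w i) = true
  · have h1 : (∏ i ∈ S, if odd (w i) then r2 else 0) = r2 ^ S.card := by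
      rw [Finset.prod_congr rfl (fun i hi => if_pos (h i hi)), Finset.prod_const]
    have h2 : (∏ i ∈ S, if odd (w i) then (1 : ℚ) else 0) = 1 :=
      Finset.prod_eq_one fun i hi => if_pos (h i hi)
    rw [h1, h2, cA_mul', map_sum]
    exact Finset.sum_congr rfl fun c _ => by rw [map_mul, one_mul, cW_apply]
  · push Not at h
    obtain ⟨i, hi, hi'⟩ := h
    rw [Finset.prod_eq_zero hi (if_neg hi'), Finset.prod_eq_zero hi (if_neg hi'), zero_mul,
      map_zero, map_zero]
    simp

theorem plain_single {K A : Type} [CommRing K] [CommRing A] [Algebra A K] (σ : Perm ι) (x : A)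
    (F : SK.W K k l ι) (w : ι → Lt k l) :
    plain K k l ι A (MonoidAlgebra.single σ x) F w = algebraMap A K x * F (w ∘ σ) := by
  unfold plain
  rw [MonoidAlgebra.lift_single, ← algebraMap_smul K x, LinearMap.smul_apply, Pi.smul_apply,
    smul_eq_mul]
  rfl

theorem Ex_plain (y : MonoidAlgebra (Ap 2) (Perm ι)) :
    Ex (plain O2 k l ι (Ap 2) y)
      (fun a b => if a = b then plain ℚ k l ι ℚ (mj (jA 2) (Perm ι) y) else 0) := by
  intro a F
  have h0 : ∀ Z : Module.End ℚ (Super.W k l ι),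
      ∑ c, (if a = c then Z else 0) (cW c F) = Z (cW a F) := by
    intro Z
    rw [Finset.sum_eq_single a]
    · rw [if_pos rfl]
    · intro b _ hb
      rw [if_neg hb.symm, LinearMap.zero_apply]
    · intro h
      exact absurd (mem_univ _) h
  rw [h0]
  induction y using MonoidAlgebra.induction_linear with
  | zero => simp [cW_zero]
  | add y z hy hz =>
    rw [map_add, LinearMap.add_apply, cW_add, hy, hz, map_add, map_add, LinearMap.add_apply]
  | single σ x =>
    funext w
    have h1 : mj (jA 2) (Perm ι) (MonoidAlgebra.single σ x)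
        = MonoidAlgebra.single σ (jA 2 x) := by
      unfold mj
      rw [MonoidAlgebra.mapRingHom_single]
    rw [cW_apply, plain_single, h1, plain_single, ← Algebra.smul_def, map_smul, smul_eq_mul,
      map_mul]
    rfl

end words

/-! ### adjoint operators -/

section adj

variable {R α : Type} [CommRing R] [Fintype α]

/-- adjoint operators -/
def Adj (X X' : Module.End R (α → R)) : Prop := ∀ f g : α → R, ∑ w, X f w * g w = ∑ w, f w * X' g w

theorem Adj.mul {X X' Y Y' : Module.End R (α → R)} (hX : Adj X X') (hY : Adj Y Y') :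
    Adj (X * Y) (Y' * X') := by
  intro f g
  rw [Module.End.mul_apply, Module.End.mul_apply, hX, hY]

theorem Adj.sum {κ : Type*} (s : Finset κ) {X X' : κ → Module.End R (α → R)}
    (h : ∀ i ∈ s, Adj (X i) (X' i)) : Adj (∑ i ∈ s, X i) (∑ i ∈ s, X' i) := by
  intro f g
  simp only [LinearMap.sum_apply, Finset.sum_apply, Finset.sum_mul, Finset.mul_sum]
  rw [Finset.sum_comm, Finset.sum_comm (s := univ)]
  exact Finset.sum_congr rfl fun i hi => h i hi f g

theorem Adj.add {X X' Y Y' : Module.End R (α → R)} (hX : Adj X X') (hY : Adj Y Y') :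
    Adj (X + Y) (X' + Y') := by
  intro f g
  simp only [LinearMap.add_apply, Pi.add_apply, add_mul, mul_add, Finset.sum_add_distrib]
  rw [hX, hY]

theorem Adj.smul {X X' : Module.End R (α → R)} (c : R) (hX : Adj X X') :
    Adj (c • X) (c • X') := by
  intro f g
  simp only [LinearMap.smul_apply, Pi.smul_apply, smul_eq_mul]
  have h := congrArg (fun x => c * x) (hX f g)
  simp only [Finset.mul_sum] at h
  rw [Finset.sum_congr rfl fun w _ => mul_assoc c (X f w) (g w), h]
  exact Finset.sum_congr rfl fun w _ => by ring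

theorem Adj.unique {X X' X'' : Module.End R (α → R)} (h : Adj X X') (h' : Adj X X'') :
    X' = X'' := by
  classical
  refine LinearMap.ext fun g => funext fun w => ?_
  have h1 := (h (Pi.single w 1) g).symm.trans (h' (Pi.single w 1) g)
  simpa [Pi.single_apply] using h1

theorem Adj_zero : Adj (0 : Module.End R (α → R)) 0 := by
  intro f g
  simp

end adj

section adj2

variable {K : Type} [CommRing K] {k l : ℕ} {ι : Type} [Fintype ι] [LinearOrder ι]

theorem Adj_dT (r : K) (S : Finset ι) : Adj (dT K k l r S : Module.End K (SK.W K k l ι))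
    (dT K k l r S) := by
  intro f g
  refine Finset.sum_congr rfl fun w _ => ?_
  change ((∏ i ∈ S, if odd (w i) then r else 0) * f w) * g w =
    f w * ((∏ i ∈ S, if odd (w i) then r else 0) * g w)
  ring

/-- the inversion of the permutations -/
noncomputable def st (A : Type) [CommRing A] (G : Type) [Group G] :
    MonoidAlgebra A G →+ MonoidAlgebra A G where
  toFun := MonoidAlgebra.mapDomain (fun σ : G => σ⁻¹)
  map_zero' := MonoidAlgebra.mapDomain_zero _
  map_add' := MonoidAlgebra.mapDomain_add _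

theorem st_single {A : Type} [CommRing A] {G : Type} [Group G] (σ : G) (x : A) :
    st A G (MonoidAlgebra.single σ x) = MonoidAlgebra.single σ⁻¹ x := MonoidAlgebra.mapDomain_single ..

theorem Adj_rho (σ : Perm ι) : Adj (SK.rho K k l ι σ) (SK.rho K k l ι σ⁻¹) := by
  intro f g
  rw [← Equiv.sum_comp (Equiv.arrowCongr σ (Equiv.refl (Lt k l)))]
  refine Finset.sum_congr rfl fun w => ?_
  intro _
  have h1 : (Equiv.arrowCongr σ (Equiv.refl (Lt k l)) w) = w ∘ ⇑σ⁻¹ := rfl
  rw [h1, SK.rho_apply, SK.rho_apply]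
  have h2 : (w ∘ ⇑σ⁻¹) ∘ ⇑σ = w := by
    funext i; simp
  rw [h2]
  have h3 := SK.eps_mul (K := K) σ⁻¹ σ (pv w)
  have h4 : (fun i => pv w (σ.symm i)) = pv (w ∘ ⇑σ⁻¹) := rfl
  rw [inv_mul_cancel, SK.eps_one, h4] at h3
  have h5 := SK.eps_sq (K := K) σ (pv w)
  have h6 : (SK.eps σ (pv w) : K) = SK.eps σ⁻¹ (pv (w ∘ ⇑σ⁻¹)) := by
    calc (SK.eps σ (pv w) : K) = 1 * SK.eps σ (pv w) := by rw [one_mul]
      _ = SK.eps σ⁻¹ (pv (w ∘ ⇑σ⁻¹)) * (SK.eps σ (pv w) * SK.eps σ (pv w)) := by rw [h3]; ring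
      _ = _ := by rw [h5, mul_one]
  rw [h6]
  ring

theorem Adj_act (y : MonoidAlgebra K (Perm ι)) :
    Adj (SK.act K K k l ι y) (SK.act K K k l ι (st K _ y)) := by
  induction y using MonoidAlgebra.induction_linear with
  | zero => rw [map_zero, map_zero, map_zero]; exact Adj_zero
  | add y z hy hz => rw [map_add, map_add, map_add]; exact hy.add hz
  | single σ x =>
    rw [st_single, SK.act_single, SK.act_single]
    exact (Adj_rho σ).smul x

theorem Adj_pH (σ : Perm ι) : Adj (pH K k l ι σ) (pH K k l ι σ⁻¹) := by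
  intro f g
  rw [← Equiv.sum_comp (Equiv.arrowCongr σ (Equiv.refl (Lt k l)))]
  refine Finset.sum_congr rfl fun w _ => ?_
  have h1 : (Equiv.arrowCongr σ (Equiv.refl (Lt k l)) w) = w ∘ ⇑σ⁻¹ := rfl
  rw [h1]
  change f ((w ∘ ⇑σ⁻¹) ∘ ⇑σ) * g (w ∘ ⇑σ⁻¹) = f w * g (w ∘ ⇑σ⁻¹)
  have h2 : (w ∘ ⇑σ⁻¹) ∘ ⇑σ = w := by
    funext i; simp
  rw [h2]

theorem Adj_plain {A : Type} [CommRing A] [Algebra A K] (y : MonoidAlgebra A (Perm ι)) :
    Adj (plain K k l ι A y) (plain K k l ι A (st A _ y)) := by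
  induction y using MonoidAlgebra.induction_linear with
  | zero => rw [map_zero, map_zero, map_zero]; exact Adj_zero
  | add y z hy hz => rw [map_add, map_add, map_add]; exact hy.add hz
  | single σ x =>
    rw [st_single]
    unfold plain
    rw [MonoidAlgebra.lift_single, MonoidAlgebra.lift_single, ← algebraMap_smul K x,
      ← algebraMap_smul K x]
    exact (Adj_pH σ).smul _

end adj2

/-! ### one more strand -/

section up

variable (K : Type) [CommRing K] (k l n : ℕ)

/-- the operator `1 ⊗ X` -/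
def up : Module.End K (SK.W K k l (Fin n)) →+* Module.End K (SK.W K k l (Fin (n + 1))) where
  toFun X :=
    { toFun := fun f w => X (SK.comp (w 0) f) (Fin.tail w)
      map_add' := fun f g => by funext w; rw [map_add, map_add]; rfl
      map_smul' := fun c f => by funext w; rw [map_smul, map_smul]; rfl }
  map_one' := by
    refine LinearMap.ext fun f => funext fun w => ?_
    change f (Fin.cons (w 0) (Fin.tail w)) = f w
    rw [Fin.cons_self_tail]
  map_mul' y z := by
    refine LinearMap.ext fun f => funext fun w => ?_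
    rfl
  map_zero' := rfl
  map_add' _ _ := rfl

variable {K k l n}

theorem up_apply (X : Module.End K (SK.W K k l (Fin n))) (f : SK.W K k l (Fin (n + 1)))
    (w : Fin (n + 1) → Lt k l) : up K k l n X f w = X (SK.comp (w 0) f) (Fin.tail w) := rfl

theorem up_smul (c : K) (X : Module.End K (SK.W K k l (Fin n))) :
    up K k l n (c • X) = c • up K k l n X := rfl

theorem comp_up (X : Module.End K (SK.W K k l (Fin n))) (f : SK.W K k l (Fin (n + 1)))
    (c : Lt k l) : SK.comp c (up K k l n X f) = X (SK.comp c f) := by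
  funext w
  rw [SK.comp_apply, up_apply, Fin.cons_zero, Fin.tail_cons]

theorem up_dT (r : K) (S : Finset (Fin n)) :
    up K k l n (dT K k l r S) = dT K k l r (S.map (Fin.succEmb n)) := by
  refine LinearMap.ext fun f => funext fun w => ?_
  rw [up_apply]
  change (∏ i ∈ S, if odd (Fin.tail w i) then r else 0) * f (Fin.cons (w 0) (Fin.tail w)) =
    (∏ i ∈ S.map (Fin.succEmb n), if odd (w i) then r else 0) * f w
  rw [Fin.cons_self_tail, Finset.prod_map]
  rfl

theorem succ_comp_ext (σ : Perm (Fin n)) (w : Fin (n + 1) → Lt k l) :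
    w ∘ ⇑(Super.ext (Fin.succOrderEmb n) σ) = Fin.cons (w 0) (Fin.tail w ∘ σ) := by
  funext i
  refine Fin.cases ?_ (fun i => ?_) i
  · rw [Fin.cons_zero, Function.comp_apply, Super.ext_apply']
    rintro ⟨a, ha⟩
    exact absurd ha (Fin.succ_ne_zero a)
  · rw [Fin.cons_succ, Function.comp_apply]
    have h := Super.ext_apply (Fin.succOrderEmb n) σ i
    have h2 : (Fin.succOrderEmb n) i = i.succ := rfl
    rw [h2] at h
    rw [h]
    rfl

theorem up_plain {A : Type} [CommRing A] [Algebra A K] (y : MonoidAlgebra A (Perm (Fin n))) :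
    up K k l n (plain K k l (Fin n) A y) = plain K k l (Fin (n + 1)) A (sh A n y) := by
  induction y using MonoidAlgebra.induction_linear with
  | zero => rw [map_zero, map_zero, map_zero, map_zero]
  | add y z hy hz => rw [map_add, map_add, map_add, map_add, hy, hz]
  | single σ x =>
    refine LinearMap.ext fun f => funext fun w => ?_
    have h1 : sh A n (MonoidAlgebra.single σ x)
        = MonoidAlgebra.single (Super.ext (Fin.succOrderEmb n) σ) x := by
      unfold sh plL
      exact MonoidAlgebra.mapDomain_single ..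
    rw [up_apply, plain_single, h1, plain_single, SK.comp_apply, succ_comp_ext]

theorem sum_cons {M : Type*} [AddCommMonoid M] (g : (Fin (n + 1) → Lt k l) → M) :
    ∑ w, g w = ∑ c : Lt k l, ∑ u : Fin n → Lt k l, g (Fin.cons c u) := by
  rw [← Fintype.sum_prod_type' (fun c u => g (Fin.cons c u))]
  exact (Equiv.sum_comp (Fin.consEquiv (fun _ => Lt k l)) g).symm

theorem Adj_up {X X' : Module.End K (SK.W K k l (Fin n))} (h : Adj X X') :
    Adj (up K k l n X) (up K k l n X') := by
  intro f g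
  rw [sum_cons, sum_cons]
  refine Finset.sum_congr rfl fun c _ => ?_
  have h1 := h (SK.comp c f) (SK.comp c g)
  simp only [up_apply, Fin.cons_zero, Fin.tail_cons]
  exact h1

theorem cW_comp (a : Fin 2) (c : Lt k l) (F : SK.W O2 k l (Fin (n + 1))) :
    SK.comp c (cW a F) = cW a (SK.comp c F) := rfl

theorem Ex_up {X : Module.End O2 (SK.W O2 k l (Fin n))}
    {M : Fin 2 → Fin 2 → Module.End ℚ (Super.W k l (Fin n))} (h : Ex X M) :
    Ex (up O2 k l n X) (fun a b => up ℚ k l n (M a b)) := by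
  intro a F
  funext w
  rw [cW_apply, up_apply, ← cW_apply, h, Finset.sum_apply, Finset.sum_apply]
  exact Finset.sum_congr rfl fun c _ => by rw [up_apply, cW_comp]

end up

end Pool.PI34.XX

end

/-! ### part X_M2 -/
section

/-!
PI34, the prime `p = 2`, model side, file M2: operators represented by the catalyst, one more
strand.
-/

set_option autoImplicit false
set_option linter.unusedSectionVars false

namespace Pool.PI34.XX

open Equiv Finset
open Pool.PI34.Super (W Lt odd act tn ins phL phR phi Cat Ux pl ext Conv)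

section rep

variable {k l m1 n : ℕ} (C : Cat k l m1)

/-- `f ⊗ ξ` -/
def tf (n : ℕ) : W k l (Fin n) →ₗ[ℚ] W k l (Fin (n + m1)) where
  toFun f := fun w => f (w ∘ phL n m1) * C.ξ (w ∘ phR n m1)
  map_add' f g := by funext w; simp only [Pi.add_apply, add_mul]
  map_smul' c f := by funext w; simp only [Pi.smul_apply, smul_eq_mul, RingHom.id_apply, mul_assoc]

theorem tf_apply (f : W k l (Fin n)) (w : Fin (n + m1) → Lt k l) :
    tf C n f w = f (w ∘ phL n m1) * C.ξ (w ∘ phR n m1) := rfl

theorem tf_single (v : Fin n → Lt k l) : tf C n (Pi.single v 1) = tn v C.ξ := by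
  funext w
  rw [tf_apply, Super.tn_apply, Pi.single_apply]
  split_ifs
  · rw [one_mul]
  · rw [zero_mul]

theorem eq_sum_single {α : Type} [Fintype α] [DecidableEq α] (f : α → ℚ) :
    f = ∑ v, f v • (Pi.single v 1 : α → ℚ) := by
  funext u
  rw [Finset.sum_apply, Finset.sum_eq_single u]
  · rw [Pi.smul_apply, Pi.single_eq_same, smul_eq_mul, mul_one]
  · intro b _ hb
    rw [Pi.smul_apply, Pi.single_apply, if_neg hb.symm, smul_zero]
  · intro h
    exact absurd (mem_univ _) h

/-- the element `y` acts on the words `f ⊗ ξ` as `X ⊗ 1` -/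
def Rep (X : Module.End ℚ (W k l (Fin n))) (y : MonoidAlgebra ℚ (Perm (Fin (n + m1)))) : Prop :=
  ∀ f, act k l _ y (tf C n f) = tf C n (X f)

theorem Rep_of {X : Module.End ℚ (W k l (Fin n))} {y : MonoidAlgebra ℚ (Perm (Fin (n + m1)))}
    (h : ∀ v, act k l _ y (tn v C.ξ) = tf C n (X (Pi.single v 1))) : Rep C X y := by
  intro f
  rw [eq_sum_single f]
  simp only [map_sum, map_smul]
  exact Finset.sum_congr rfl fun v _ => by rw [tf_single, h]

variable {C}

theorem Rep.mul {X Y : Module.End ℚ (W k l (Fin n))} {x y : MonoidAlgebra ℚ (Perm (Fin (n + m1)))}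
    (hX : Rep C X x) (hY : Rep C Y y) : Rep C (X * Y) (x * y) := by
  intro f
  rw [map_mul, Module.End.mul_apply, hY, hX, Module.End.mul_apply]

theorem Rep.add {X Y : Module.End ℚ (W k l (Fin n))} {x y : MonoidAlgebra ℚ (Perm (Fin (n + m1)))}
    (hX : Rep C X x) (hY : Rep C Y y) : Rep C (X + Y) (x + y) := by
  intro f
  rw [map_add, LinearMap.add_apply, hY, hX, LinearMap.add_apply, map_add]

theorem Rep.smul {X : Module.End ℚ (W k l (Fin n))} {x : MonoidAlgebra ℚ (Perm (Fin (n + m1)))}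
    (c : ℚ) (hX : Rep C X x) : Rep C (c • X) (c • x) := by
  intro f
  rw [map_smul, LinearMap.smul_apply, hX, LinearMap.smul_apply, map_smul]

theorem Rep_zero : Rep C (0 : Module.End ℚ (W k l (Fin n))) 0 := by
  intro f
  rw [map_zero, LinearMap.zero_apply, LinearMap.zero_apply, map_zero]

theorem Rep_one : Rep C (1 : Module.End ℚ (W k l (Fin n))) 1 := by
  intro f
  rw [map_one]
  rfl

variable (C)

theorem plain_single_single (σ : Perm (Fin n)) (x : ℚ) (v : Fin n → Lt k l) :
    plain ℚ k l (Fin n) ℚ (MonoidAlgebra.single σ x) (Pi.single v 1)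
      = x • (Pi.single (v ∘ ⇑σ⁻¹) 1 : W k l (Fin n)) := by
  funext w
  rw [plain_single, Pi.smul_apply, smul_eq_mul, Pi.single_apply, Pi.single_apply]
  have h : w ∘ ⇑σ = v ↔ w = v ∘ ⇑σ⁻¹ := by
    constructor
    · rintro rfl
      funext i; simp
    · rintro rfl
      funext i; simp
  simp only [h]
  rfl

theorem exists_Rep_plain (y : MonoidAlgebra ℚ (Perm (Fin n))) :
    ∃ x, Rep C (plain ℚ k l (Fin n) ℚ y) x := by
  induction y using MonoidAlgebra.induction_linear with
  | zero => exact ⟨0, by rw [map_zero]; exact Rep_zero⟩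
  | add y z hy hz =>
    obtain ⟨x, hx⟩ := hy
    obtain ⟨x', hx'⟩ := hz
    exact ⟨x + x', by rw [map_add]; exact hx.add hx'⟩
  | single σ c =>
    refine ⟨c • C.fl σ, Rep_of C fun v => ?_⟩
    rw [plain_single_single, map_smul, LinearMap.smul_apply, C.act_fl, map_smul, tf_single]

theorem dT_insert {K : Type} [CommRing K] {ι : Type} [Fintype ι] [LinearOrder ι] (r : K) {i : ι}
    {S : Finset ι} (h : i ∉ S) : dT K k l r (insert i S) = dT K k l r {i} * dT K k l r S := by
  refine LinearMap.ext fun f => funext fun w => ?_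
  change (∏ j ∈ insert i S, if odd (w j) then r else 0) * f w =
    (∏ j ∈ {i}, if odd (w j) then r else 0) * ((∏ j ∈ S, if odd (w j) then r else 0) * f w)
  rw [Finset.prod_insert h, Finset.prod_singleton, mul_assoc]

theorem dT_empty {K : Type} [CommRing K] {ι : Type} [Fintype ι] [LinearOrder ι] (r : K) :
    dT K k l r (∅ : Finset ι) = 1 := by
  refine LinearMap.ext fun f => funext fun w => ?_
  change (∏ j ∈ (∅ : Finset ι), if odd (w j) then r else 0) * f w = f w
  rw [Finset.prod_empty, one_mul]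

theorem exists_Rep_dT (S : Finset (Fin n)) : ∃ x, Rep C (dT ℚ k l 1 S) x := by
  induction S using Finset.induction_on with
  | empty => exact ⟨1, by rw [dT_empty]; exact Rep_one⟩
  | insert i S hi ih =>
    obtain ⟨x, hx⟩ := ih
    refine ⟨C.Ei n i * x, ?_⟩
    rw [dT_insert 1 hi]
    refine Rep.mul (Rep_of C fun v => ?_) hx
    rw [C.act_Ei, ← tf_single, ← map_smul]
    congr 1
    funext w
    change (if odd (v i) then (1 : ℚ) else 0) * (Pi.single v 1 : W k l (Fin n)) w =
      (∏ j ∈ {i}, if odd (w j) then (1 : ℚ) else 0) * (Pi.single v 1 : W k l (Fin n)) w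
    rw [Finset.prod_singleton, Pi.single_apply]
    by_cases hw : w = v
    · rw [hw]
    · rw [if_neg hw, mul_zero, mul_zero]

/-! ### one more strand -/

/-- the embedding of the first `n + 1` strands -/
def aL (n m1 : ℕ) : Fin (n + 1) ↪o Fin (n + m1 + 1) :=
  Fin.castLEOrderEmb (by omega)

/-- the embedding of the last `m1` strands -/
def bR (n m1 : ℕ) : Fin m1 ↪o Fin (n + m1 + 1) :=
  (phR n m1).trans (Fin.succOrderEmb (n + m1))

theorem aL_zero : aL n m1 0 = 0 := rfl

theorem aL_succ (i : Fin n) : aL n m1 i.succ = (phL n m1 i).succ := rfl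

theorem bR_apply (s : Fin m1) : bR n m1 s = (phR n m1 s).succ := rfl

theorem aL_ne_bR (i : Fin (n + 1)) (s : Fin m1) : aL n m1 i ≠ bR n m1 s := by
  intro h
  have h1 := congrArg Fin.val h
  have h2 : (aL n m1 i).val = i.val := rfl
  have h3 : (bR n m1 s).val = n + s.val + 1 := rfl
  rw [h2, h3] at h1
  have := i.2
  omega

theorem conv_aL : Conv (aL n m1) := by
  intro x hx
  right
  intro a
  by_contra h
  apply hx
  have h1 : x.val < n + 1 := by
    have h2 := not_lt.1 h
    have h3 : x.val ≤ (aL n m1 a).val := h2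
    have h4 : (aL n m1 a).val = a.val := rfl
    have := a.2
    omega
  exact ⟨⟨x.val, h1⟩, Fin.ext rfl⟩

theorem conv_succ (n : ℕ) : Conv (Fin.succOrderEmb n) := by
  intro x hx
  left
  intro a
  have h : x = 0 := by
    by_contra h
    obtain ⟨y, rfl⟩ := Fin.exists_succ_eq.2 h
    exact hx ⟨y, rfl⟩
  rw [h]
  exact Fin.succ_pos a

/-- `f ⊗ ξ`, with the free strand -/
def tf' (n : ℕ) : W k l (Fin (n + 1)) →ₗ[ℚ] W k l (Fin (n + m1 + 1)) where
  toFun f := fun w => f (w ∘ aL n m1) * C.ξ (w ∘ bR n m1)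
  map_add' f g := by funext w; simp only [Pi.add_apply, add_mul]
  map_smul' c f := by funext w; simp only [Pi.smul_apply, smul_eq_mul, RingHom.id_apply, mul_assoc]

theorem tf'_apply (f : W k l (Fin (n + 1))) (w : Fin (n + m1 + 1) → Lt k l) :
    tf' C n f w = f (w ∘ aL n m1) * C.ξ (w ∘ bR n m1) := rfl

theorem cons_comp_aL (c : Lt k l) (u : Fin (n + m1) → Lt k l) :
    (Fin.cons c u : Fin (n + m1 + 1) → Lt k l) ∘ aL n m1 = Fin.cons c (u ∘ phL n m1) := by
  funext i
  refine Fin.cases rfl (fun i => ?_) i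
  rw [Function.comp_apply, aL_succ, Fin.cons_succ, Fin.cons_succ, Function.comp_apply]

theorem cons_comp_bR (c : Lt k l) (u : Fin (n + m1) → Lt k l) :
    (Fin.cons c u : Fin (n + m1 + 1) → Lt k l) ∘ bR n m1 = u ∘ phR n m1 := by
  funext i
  rw [Function.comp_apply, bR_apply, Fin.cons_succ, Function.comp_apply]

theorem comp_tf' (c : Lt k l) (f : W k l (Fin (n + 1))) :
    Super.comp c (tf' C n f) = tf C n (Super.comp c f) := by
  funext u
  rw [Super.comp_apply, tf'_apply, tf_apply, Super.comp_apply, cons_comp_aL, cons_comp_bR]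

theorem ins_tf (c : Lt k l) (f : W k l (Fin n)) :
    ins c (tf C n f) = tf' C n (ins c f) := by
  refine Super.ext_comp fun d => ?_
  rw [Super.comp_ins, comp_tf', Super.comp_ins]
  split_ifs
  · rfl
  · rw [map_zero]

theorem extend_aL (u : Fin (n + 1) → Lt k l) (w : Fin (n + m1 + 1) → Lt k l) :
    Function.extend (aL n m1) u w ∘ aL n m1 = u := by
  funext i
  exact (aL n m1).injective.extend_apply _ _ _

theorem extend_bR (u : Fin (n + 1) → Lt k l) (w : Fin (n + m1 + 1) → Lt k l) :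
    Function.extend (aL n m1) u w ∘ bR n m1 = w ∘ bR n m1 := by
  funext i
  rw [Function.comp_apply, Function.comp_apply, Function.extend_apply']
  rintro ⟨a, ha⟩
  exact aL_ne_bR a i ha

theorem act_aL (y : MonoidAlgebra ℚ (Perm (Fin (n + 1)))) (f : W k l (Fin (n + 1))) :
    act k l _ (pl (aL n m1) y) (tf' C n f) = tf' C n (act k l _ y f) := by
  funext w
  rw [Super.act_pl conv_aL, tf'_apply]
  have h : Super.sl (aL n m1) w (tf' C n f) = C.ξ (w ∘ bR n m1) • f := by
    funext u
    rw [Super.sl_apply, tf'_apply, extend_aL, extend_bR, Pi.smul_apply, smul_eq_mul, mul_comm]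
  rw [h, map_smul, Pi.smul_apply, smul_eq_mul, mul_comm]

theorem comp_act_succ (y : MonoidAlgebra ℚ (Perm (Fin n))) (f : W k l (Fin (n + 1)))
    (c : Lt k l) : Super.comp c (act k l _ (pl (Fin.succOrderEmb n) y) f)
      = act k l _ y (Super.comp c f) := by
  funext u
  rw [Super.comp_apply, Super.act_pl (conv_succ n)]
  have h1 : (Fin.cons c u : Fin (n + 1) → Lt k l) ∘ (Fin.succOrderEmb n) = u := by
    funext i
    rfl
  have h2 : Super.sl (Fin.succOrderEmb n) (Fin.cons c u) f = Super.comp c f := by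
    funext v
    rw [Super.sl_apply, Super.comp_apply]
    congr 1
    funext i
    refine Fin.cases ?_ (fun i => ?_) i
    · rw [Function.extend_apply', Fin.cons_zero, Fin.cons_zero]
      rintro ⟨a, ha⟩
      exact absurd ha (Fin.succ_ne_zero a)
    · rw [Fin.cons_succ]
      exact (Fin.succOrderEmb n).injective.extend_apply _ _ _
  rw [h1, h2]

theorem Rep_succ {X : Module.End ℚ (W k l (Fin n))} {y : MonoidAlgebra ℚ (Perm (Fin (n + m1)))}
    (h : Rep C X y) (f : W k l (Fin (n + 1))) :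
    act k l _ (pl (Fin.succOrderEmb (n + m1)) y) (tf' C n f) = tf' C n (up ℚ k l n X f) := by
  refine Super.ext_comp fun c => ?_
  rw [comp_act_succ, comp_tf', comp_tf', h]
  congr 1

/-! ### the kernel -/

/-- the order isomorphism -/
def ce (n m1 : ℕ) : Fin (n + 1 + m1) ≃o Fin (n + m1 + 1) := Fin.castOrderIso (by omega)

theorem phL_ce : (phL (n + 1) m1).trans (ce n m1).toOrderEmbedding = aL n m1 := by
  ext i
  rfl

theorem phR_ce : (phR (n + 1) m1).trans (ce n m1).toOrderEmbedding = bR n m1 := by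
  ext i
  change n + 1 + i.val = n + i.val + 1
  omega

theorem pl_ce (y : MonoidAlgebra ℚ (Perm (Fin (n + m1 + 1)))) :
    pl (ce n m1).toOrderEmbedding (pl (ce n m1).symm.toOrderEmbedding y) = y := by
  rw [Super.pl_trans]
  have h : (ce n m1).symm.toOrderEmbedding.trans (ce n m1).toOrderEmbedding
      = (OrderIso.refl _).toOrderEmbedding := by
    ext i
    rfl
  rw [h]
  induction y using MonoidAlgebra.induction_on with
  | of σ =>
    rw [Super.pl_of]
    congr 1
    ext i
    exact congrArg Fin.val (Super.ext_apply ((OrderIso.refl _).toOrderEmbedding) σ i)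
  | add x y hx hy => rw [map_add, hx, hy]
  | smul r x hx => rw [map_smul, hx]

theorem act_ce (y : MonoidAlgebra ℚ (Perm (Fin (n + 1 + m1)))) (g : W k l (Fin (n + m1 + 1)))
    (w : Fin (n + m1 + 1) → Lt k l) :
    act k l _ (pl (ce n m1).toOrderEmbedding y) g w
      = act k l _ y (fun u => g (u ∘ (ce n m1).symm)) (w ∘ ce n m1) := by
  rw [Super.act_pl]
  · have h : Super.sl (ce n m1).toOrderEmbedding w g = fun u => g (u ∘ (ce n m1).symm) := by
      funext u
      rw [Super.sl_apply]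
      congr 1
      funext i
      obtain ⟨j, rfl⟩ := (ce n m1).surjective i
      rw [Function.comp_apply, OrderIso.symm_apply_apply]
      exact (ce n m1).toOrderEmbedding.injective.extend_apply _ _ _
    rw [h]
    rfl
  · intro x hx
    exact absurd ⟨(ce n m1).symm x, (ce n m1).apply_symm_apply x⟩ hx

theorem ker_of' (y : MonoidAlgebra ℚ (Perm (Fin (n + m1 + 1))))
    (hy : ∀ f, act k l _ y (tf' C n f) = 0) : act k l _ (y * pl (bR n m1) C.z) = 0 := by
  have h1 : ∀ v : Fin (n + 1) → Lt k l,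
      act k l _ (pl (ce n m1).symm.toOrderEmbedding y) (tn v C.ξ) = 0 := by
    intro v
    funext u
    have h2 := congrFun (hy (Pi.single v 1)) (u ∘ (ce n m1).symm)
    rw [← pl_ce y, act_ce] at h2
    have h3 : (u ∘ (ce n m1).symm) ∘ (ce n m1) = u := by
      funext i
      simp
    have h4 : (fun u => tf' C n (Pi.single v 1) (u ∘ (ce n m1).symm)) = tn v C.ξ := by
      funext u
      rw [tf'_apply, Super.tn_apply, Pi.single_apply]
      have h5 : (u ∘ (ce n m1).symm) ∘ aL n m1 = u ∘ phL (n + 1) m1 := by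
        funext i
        rfl
      have h6 : (u ∘ (ce n m1).symm) ∘ bR n m1 = u ∘ phR (n + 1) m1 := by
        funext i
        rw [← phR_ce]
        simp
      rw [h5, h6]
      split_ifs
      · rw [one_mul]
      · rw [zero_mul]
    rw [h3, h4] at h2
    exact h2
  have h2 := C.ker_of _ h1
  have h3 : y * pl (bR n m1) C.z = pl (ce n m1).toOrderEmbedding
      (pl (ce n m1).symm.toOrderEmbedding y * C.Z (n + 1)) := by
    rw [map_mul, pl_ce]
    unfold Super.Cat.Z
    rw [Super.pl_trans, phR_ce]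
  refine LinearMap.ext fun g => funext fun w => ?_
  rw [h3, act_ce, h2]
  rfl

end rep

end Pool.PI34.XX

end

/-! ### part X_M3 -/
section

/-!
PI34, the prime `p = 2`, model side, file M3: the data of the matrix catalyst.
-/

set_option autoImplicit false
set_option linter.unusedSectionVars false

namespace Pool.PI34.XX

open Equiv Finset
open Pool.PI34.Super (W Lt odd act tn ins phL phR phi Cat Ux pl ext Conv Ap jA mj plL bc)

section typed

variable (k l : ℕ) {N : ℕ} (Ω : MonoidAlgebra (Ap 2) (Perm (Fin N)))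

/-- `δ^S Ω` -/
noncomputable def AO (S : Finset (Fin N)) : Module.End O2 (SK.W O2 k l (Fin N)) :=
  dT O2 k l r2 S * plain O2 k l (Fin N) (Ap 2) Ω

/-- `Ωᵗ δ^S` -/
noncomputable def AO' (S : Finset (Fin N)) : Module.End O2 (SK.W O2 k l (Fin N)) :=
  plain O2 k l (Fin N) (Ap 2) (st (Ap 2) _ Ω) * dT O2 k l r2 S

/-- the rational operator of `δ^S Ω` -/
noncomputable def QA (S : Finset (Fin N)) : Module.End ℚ (W k l (Fin N)) :=
  dT ℚ k l 1 S * plain ℚ k l (Fin N) ℚ (mj (jA 2) _ Ω)

/-- the rational operator of `Ωᵗ δ^S` -/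
noncomputable def QA' (S : Finset (Fin N)) : Module.End ℚ (W k l (Fin N)) :=
  plain ℚ k l (Fin N) ℚ (mj (jA 2) _ (st (Ap 2) _ Ω)) * dT ℚ k l 1 S

variable {k l}

theorem Adj_AO (S : Finset (Fin N)) : Adj (AO k l Ω S) (AO' k l Ω S) :=
  (Adj_dT r2 S).mul (Adj_plain Ω)

theorem Ex_AO (S : Finset (Fin N)) :
    Ex (AO k l Ω S) (fun a b => jA 2 (Psi (r2 ^ S.card) a b) • QA k l Ω S) := by
  refine ((Ex_dT S).mul (Ex_plain Ω)).congr fun a b => ?_
  rw [Finset.sum_eq_single b]
  · rw [if_pos rfl, smul_mul_assoc]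
    rfl
  · intro c _ hc
    rw [if_neg hc, mul_zero]
  · intro h
    exact absurd (mem_univ _) h

theorem Ex_AO' (S : Finset (Fin N)) :
    Ex (AO' k l Ω S) (fun a b => jA 2 (Psi (r2 ^ S.card) a b) • QA' k l Ω S) := by
  refine ((Ex_plain (st (Ap 2) _ Ω)).mul (Ex_dT S)).congr fun a b => ?_
  rw [Finset.sum_eq_single a]
  · rw [if_pos rfl, mul_smul_comm]
    rfl
  · intro c _ hc
    rw [if_neg hc.symm, zero_mul]
  · intro h
    exact absurd (mem_univ _) h

theorem Ex_OX (S S' : Finset (Fin N)) :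
    Ex (AO k l Ω S * AO' k l Ω S')
      (fun a b => jA 2 (Psi (r2 ^ (S.card + S'.card)) a b) • (QA k l Ω S * QA' k l Ω S')) := by
  refine ((Ex_AO Ω S).mul (Ex_AO' Ω S')).congr fun a b => ?_
  rw [pow_add, Psi_mul, map_sum, Finset.sum_smul]
  refine Finset.sum_congr rfl fun c _ => ?_
  rw [smul_mul_assoc, mul_smul_comm, smul_smul, map_mul]

end typed

/-- the data -/
structure MD (k l : ℕ) where
  N : ℕ
  Ω : MonoidAlgebra (Ap 2) (Perm (Fin N))
  lam : Finset (Fin N) → Finset (Fin N) → MonoidAlgebra O2 (Perm (Fin (N + 1)))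
  hΩ : plain O2 k l (Fin N) (Ap 2) Ω ≠ 0
  hE : ∀ S, dT O2 k l r2 {0} * up O2 k l N (AO k l Ω S)
    = ∑ S', SK.act O2 O2 k l _ (lam S S') * up O2 k l N (AO k l Ω S')
  m1 : ℕ
  C : Cat k l m1
  hξ : C.ξ ≠ 0
  y : Finset (Fin N) → Finset (Fin N) → MonoidAlgebra ℚ (Perm (Fin (N + m1)))
  hy : ∀ S S', Rep C (QA k l Ω S * QA' k l Ω S') (y S S')
  D : ℕ
  hD : 0 < D
  t : Finset (Fin N) → Finset (Fin N) → MonoidAlgebra ℤ (Perm (Fin (N + m1)))
  ht : ∀ S S', bc (t S S') = (D : ℚ) • (y S S' * C.Z N)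

theorem EXT.md {k l : ℕ} (h : EXT k l) : Nonempty (MD k l) := by
  obtain ⟨N, Ω, lam, hΩ, hE⟩ := h
  set C := Super.catalyst k l with hC
  have h1 : ∀ S S', ∃ y, Rep C (QA k l Ω S * QA' k l Ω S') y := by
    intro S S'
    obtain ⟨x1, h1⟩ := exists_Rep_dT C S
    obtain ⟨x2, h2⟩ := exists_Rep_plain C (mj (jA 2) _ Ω)
    obtain ⟨x3, h3⟩ := exists_Rep_plain C (mj (jA 2) _ (st (Ap 2) _ Ω))
    obtain ⟨x4, h4⟩ := exists_Rep_dT C S'
    exact ⟨x1 * x2 * (x3 * x4), (h1.mul h2).mul (h3.mul h4)⟩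
  choose y hy using h1
  obtain ⟨D, hD, t, ht⟩ := Super.exists_int_fam
    (fun p : Finset (Fin N) × Finset (Fin N) => y p.1 p.2 * C.Z N)
  refine ⟨{ N := N, Ω := Ω, lam := lam, hΩ := hΩ, hE := fun S => ?_, m1 := _, C := C,
            hξ := Super.xi_ne k l, y := y, hy := hy, D := D, hD := hD,
            t := fun S S' => t (S, S'), ht := fun S S' => ht (S, S') }⟩
  have h2 : ∀ S, up O2 k l N (AO k l Ω S) = dT O2 k l r2 (S.map (Fin.succEmb N)) *
      plain O2 k l (Fin (N + 1)) (Ap 2) (sh _ N Ω) := fun S => by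
    unfold AO
    rw [map_mul, up_dT, up_plain]
  simp only [h2]
  exact hE S

/-- base change `ℤ[G] → ℤ_(2)[G]` -/
noncomputable def icB (G : Type) [Group G] : MonoidAlgebra ℤ G →+* MonoidAlgebra (Ap 2) G :=
  MonoidAlgebra.mapRingHom G (algebraMap ℤ (Ap 2))

theorem mj_icB {G : Type} [Group G] (y : MonoidAlgebra ℤ G) : mj (jA 2) G (icB G y) = bc y := by
  ext g
  unfold mj bc icB
  rw [MonoidAlgebra.coeff_mapRingHom, MonoidAlgebra.coeff_mapRingHom,
    MonoidAlgebra.coeff_mapRingHom, Super.jA_int]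
  rfl

namespace MD

variable {k l : ℕ} (M : MD k l)

/-- the index set -/
abbrev B : Type := Finset (Fin M.N) × Fin 2

/-- the projection -/
noncomputable def T : Matrix M.B M.B (MonoidAlgebra (Ap 2) (Perm (Fin (M.N + M.m1)))) :=
  fun p q => Psi (r2 ^ (p.1.card + q.1.card)) p.2 q.2 • icB _ (M.t p.1 q.1)

/-- the square root of two -/
noncomputable def r : Matrix M.B M.B (Ap 2) :=
  fun p q => if p.1 = q.1 then Psi r2 p.2 q.2 else 0

/-- delta on the left -/
noncomputable def lamM : Matrix M.B M.B (MonoidAlgebra (Ap 2) (Perm (Fin (M.N + M.m1 + 1)))) :=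
  fun p q => plL (Ap 2) (aL M.N M.m1) (pj p.2 q.2 _ (M.lam p.1 q.1))

/-- delta on the right -/
noncomputable def lamM' : Matrix M.B M.B (MonoidAlgebra (Ap 2) (Perm (Fin (M.N + M.m1 + 1)))) :=
  fun p q => plL (Ap 2) (aL M.N M.m1) (pj p.2 q.2 _ (st _ _ (M.lam q.1 p.1)))

theorem hE' (S : Finset (Fin M.N)) : up O2 k l M.N (AO' k l M.Ω S) * dT O2 k l r2 {0}
    = ∑ S', up O2 k l M.N (AO' k l M.Ω S') * SK.act O2 O2 k l _ (st _ _ (M.lam S S')) := by
  have h1 : Adj (dT O2 k l r2 {0} * up O2 k l M.N (AO k l M.Ω S))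
      (up O2 k l M.N (AO' k l M.Ω S) * dT O2 k l r2 {0}) :=
    (Adj_dT r2 {0}).mul (Adj_up (Adj_AO M.Ω S))
  have h2 : Adj (∑ S', SK.act O2 O2 k l _ (M.lam S S') * up O2 k l M.N (AO k l M.Ω S'))
      (∑ S', up O2 k l M.N (AO' k l M.Ω S') * SK.act O2 O2 k l _ (st _ _ (M.lam S S'))) :=
    Adj.sum _ fun S' _ => (Adj_act _).mul (Adj_up (Adj_AO M.Ω S'))
  rw [← M.hE S] at h2
  exact h1.unique h2

theorem sum_B {A : Type*} [AddCommMonoid A] (f : M.B → A) :
    ∑ p, f p = ∑ S, ∑ a, f (S, a) := Fintype.sum_prod_type f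

theorem Psi_two (a b : Fin 2) : Psi 2 a b = if a = b then 2 else 0 := by
  have h : (2 : O2) = 1 + 1 := by norm_num
  rw [h, Psi_add, Psi_one]
  split_ifs <;> norm_num

theorem r_sq : M.r * M.r = 2 := by
  ext p q
  rw [Matrix.mul_apply, M.sum_B]
  have h1 : ∀ S a, M.r p (S, a) * M.r (S, a) q
      = if p.1 = S then (if p.1 = q.1 then Psi r2 p.2 a * Psi r2 a q.2 else 0) else 0 := by
    intro S a
    unfold r
    dsimp only
    by_cases h : p.1 = S
    · rw [if_pos h, if_pos h, ← h]
      split_ifs <;> simp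
    · rw [if_neg h, if_neg h, zero_mul]
  simp only [h1]
  rw [Finset.sum_eq_single p.1]
  · simp only [if_true]
    have h3 : (2 : Matrix M.B M.B (Ap 2)) p q = if p = q then 2 else 0 := by
      have h4 : (2 : Matrix M.B M.B (Ap 2)) = 1 + 1 := by norm_num
      rw [h4, Matrix.add_apply, Matrix.one_apply]
      split_ifs <;> norm_num
    rw [h3]
    by_cases h : p.1 = q.1
    · simp only [if_pos h]
      rw [← Psi_mul, r2_sq, Psi_two]
      by_cases h' : p.2 = q.2
      · rw [if_pos h', if_pos (Prod.ext h h')]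
      · rw [if_neg h', if_neg (fun e => h' (congrArg Prod.snd e))]
    · simp only [if_neg h]
      rw [Finset.sum_const_zero, if_neg (fun e => h (congrArg Prod.fst e))]
  · intro S _ hS
    simp only [if_neg hS.symm]
    exact Finset.sum_const_zero
  · intro h
    exact absurd (mem_univ _) h

theorem cst_r_mul {G : Type} [Group G] (X : Matrix M.B M.B (MonoidAlgebra (Ap 2) G)) (p q : M.B) :
    (cst (Ap 2) G M.r * X) p q = ∑ a, Psi r2 p.2 a • X (p.1, a) q := by
  rw [Matrix.mul_apply, M.sum_B, Finset.sum_eq_single p.1]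
  · refine Finset.sum_congr rfl fun a _ => ?_
    change algebraMap (Ap 2) (MonoidAlgebra (Ap 2) G) (M.r p (p.1, a)) * _ = _
    unfold r
    dsimp only
    rw [if_pos rfl, Algebra.smul_def]
  · intro S _ hS
    refine Finset.sum_eq_zero fun a _ => ?_
    change algebraMap (Ap 2) (MonoidAlgebra (Ap 2) G) (M.r p (S, a)) * _ = _
    unfold r
    dsimp only
    rw [if_neg hS.symm, map_zero, zero_mul]
  · intro h
    exact absurd (mem_univ _) h

theorem mul_cst_r {G : Type} [Group G] (X : Matrix M.B M.B (MonoidAlgebra (Ap 2) G)) (p q : M.B) :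
    (X * cst (Ap 2) G M.r) p q = ∑ a, Psi r2 a q.2 • X p (q.1, a) := by
  rw [Matrix.mul_apply, M.sum_B, Finset.sum_eq_single q.1]
  · refine Finset.sum_congr rfl fun a _ => ?_
    change _ * algebraMap (Ap 2) (MonoidAlgebra (Ap 2) G) (M.r (q.1, a) q) = _
    unfold r
    dsimp only
    rw [if_pos rfl, ← Algebra.commutes, Algebra.smul_def]
  · intro S _ hS
    refine Finset.sum_eq_zero fun a _ => ?_
    change _ * algebraMap (Ap 2) (MonoidAlgebra (Ap 2) G) (M.r (S, a) q) = _
    unfold r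
    dsimp only
    rw [if_neg hS, map_zero, mul_zero]
  · intro h
    exact absurd (mem_univ _) h

theorem rT : cst (Ap 2) _ M.r * M.T = M.T * cst (Ap 2) _ M.r := by
  ext1 p q
  rw [cst_r_mul, mul_cst_r]
  unfold T
  dsimp only
  simp only [smul_smul]
  rw [← Finset.sum_smul, ← Finset.sum_smul, Psi_comm]
  congr 1
  exact Finset.sum_congr rfl fun a _ => mul_comm _ _

theorem rlam : cst (Ap 2) _ M.r * M.lamM = M.lamM * cst (Ap 2) _ M.r := by
  ext1 p q
  rw [cst_r_mul, mul_cst_r]
  unfold lamM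
  dsimp only
  simp only [← Super.plL_smul]
  rw [← map_sum, ← map_sum, pj_mul, pj_mul']

end MD

end Pool.PI34.XX

end

/-! ### part X_M4 -/
section

/-!
PI34, the prime `p = 2`, model side, file M4: the matrix catalyst.
-/

set_option autoImplicit false
set_option linter.unusedSectionVars false

namespace Pool.PI34.XX

open Equiv Finset
open Pool.PI34.Super (W Lt odd act tn ins phL phR phi Cat Ux pl ext Conv Ap jA mj plL bc EE gen)

/-! ### small facts -/

theorem jA_inj : Function.Injective (jA 2) := by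
  rw [injective_iff_map_eq_zero]
  intro a ha
  obtain ⟨⟨n, ⟨_, s, hs, rfl⟩⟩, h⟩ := IsLocalization.surj (Super.MpA 2) a
  have h1 : jA 2 (a * algebraMap ℤ (Ap 2) s) = (n : ℚ) := by
    rw [← Super.jA_int 2 n]
    exact congrArg (jA 2) h
  rw [map_mul, ha, zero_mul] at h1
  have hn : n = 0 := by exact_mod_cast h1.symm
  have hu : IsUnit (algebraMap ℤ (Ap 2) s) :=
    IsLocalization.map_units (Ap 2) (⟨(s : ℤ), s, hs, rfl⟩ : Super.MpA 2)
  have h2 : a * algebraMap ℤ (Ap 2) s = 0 := by
    refine Eq.trans h ?_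
    change algebraMap ℤ (Ap 2) n = 0
    rw [hn, map_zero]
  exact (hu.mul_left_eq_zero).1 h2

section small

variable {k l n : ℕ}

theorem ins_smul (c : Lt k l) (x : ℚ) (f : W k l (Fin n)) :
    ins c (x • f) = x • (ins c f : W k l (Fin (n + 1))) := by
  funext w
  change (if w 0 = c then x * f (Fin.tail w) else 0) = x * (if w 0 = c then f (Fin.tail w) else 0)
  split_ifs
  · rfl
  · rw [mul_zero]

theorem cW_ins (a : Fin 2) (c : Lt k l) (F : SK.W O2 k l (Fin n)) :
    cW a (SK.ins c F) = ins c (cW a F) := by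
  funext w
  change jA 2 (cA a (if w 0 = c then F (Fin.tail w) else 0)) =
    if w 0 = c then jA 2 (cA a (F (Fin.tail w))) else 0
  split_ifs
  · rfl
  · rw [map_zero, map_zero]

theorem up_ins {K : Type} [CommRing K] (X : Module.End K (SK.W K k l (Fin n))) (c : Lt k l)
    (g : SK.W K k l (Fin n)) : up K k l n X (SK.ins c g) = SK.ins c (X g) := by
  refine SK.ext_comp fun d => ?_
  rw [comp_up, SK.comp_ins, SK.comp_ins]
  split_ifs
  · rfl
  · rw [map_zero]

theorem dT0_ins {K : Type} [CommRing K] (r : K) (c : Lt k l) (g : SK.W K k l (Fin n)) :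
    dT K k l r {0} (SK.ins c g) = (if odd c then r else 0) • SK.ins c g := by
  funext w
  change (∏ i ∈ {(0 : Fin (n + 1))}, if odd (w i) then r else 0) *
      (if w 0 = c then g (Fin.tail w) else 0)
    = (if odd c then r else 0) * (if w 0 = c then g (Fin.tail w) else 0)
  rw [Finset.prod_singleton]
  by_cases h : w 0 = c
  · rw [h]
  · rw [if_neg h, mul_zero, mul_zero]

theorem dT0_up {K : Type} [CommRing K] (r : K) (X : Module.End K (SK.W K k l (Fin n)))
    (g : SK.W K k l (Fin (n + 1))) :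
    dT K k l r {0} (up K k l n X g) = up K k l n X (dT K k l r {0} g) := by
  refine SK.ext_comp fun d => ?_
  have h : ∀ g : SK.W K k l (Fin (n + 1)),
      SK.comp d (dT K k l r {0} g) = (if odd d then r else 0) • SK.comp d g := by
    intro g
    funext w
    change (∏ i ∈ {(0 : Fin (n + 1))}, if odd ((Fin.cons d w : Fin (n + 1) → Lt k l) i) then r
      else 0) * g (Fin.cons d w) = (if odd d then r else 0) * g (Fin.cons d w)
    rw [Finset.prod_singleton, Fin.cons_zero]
  rw [h, comp_up, comp_up, h, map_smul]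

theorem cW_single (b c : Fin 2) (v : Fin n → Lt k l) :
    cW b (Pi.single v (bs c) : SK.W O2 k l (Fin n))
      = if b = c then (Pi.single v 1 : W k l (Fin n)) else 0 := by
  funext w
  rw [cW_apply, Pi.single_apply]
  by_cases hw : w = v
  · rw [if_pos hw, cA_bs, hw]
    split_ifs
    · rw [map_one, Pi.single_eq_same]
    · rw [map_zero]; rfl
  · rw [if_neg hw, map_zero, map_zero]
    split_ifs
    · rw [Pi.single_apply, if_neg hw]
    · rfl

theorem sum_cW_single (c : Fin 2) (v : Fin n → Lt k l) {M : Type} [AddCommGroup M] [Module ℚ M]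
    (Y : Fin 2 → W k l (Fin n) →ₗ[ℚ] M) :
    ∑ b, Y b (cW b (Pi.single v (bs c) : SK.W O2 k l (Fin n))) = Y c (Pi.single v 1) := by
  rw [Finset.sum_eq_single c]
  · rw [cW_single, if_pos rfl]
  · intro b _ hb
    rw [cW_single, if_neg hb, map_zero]
  · intro h
    exact absurd (mem_univ _) h

theorem aW_apply {B : Type} [Fintype B] [DecidableEq B] {Λ : Type} [CommRing Λ] (j : Λ →+* ℚ)
    {ι : Type} [Fintype ι] [LinearOrder ι] (Y : Matrix B B (MonoidAlgebra Λ (Perm ι)))
    (x : B → W k l ι) (b : B) :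
    aW j k l Y x b = ∑ b', act k l ι (mj j _ (Y b b')) (x b') := rfl

theorem mj_st {G : Type} [Group G] (y : MonoidAlgebra (Ap 2) G) :
    mj (jA 2) G (st (Ap 2) G y) = st ℚ G (mj (jA 2) G y) := by
  have h1 : ∀ (σ : G) (x : Ap 2), mj (jA 2) G (MonoidAlgebra.single σ x)
      = MonoidAlgebra.single σ (jA 2 x) := by
    intro σ x
    unfold mj
    rw [MonoidAlgebra.mapRingHom_single]
  induction y using MonoidAlgebra.induction_linear with
  | zero => simp only [map_zero]
  | add y z hy hz => rw [map_add, map_add, map_add, map_add, hy, hz]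
  | single σ x => rw [st_single, h1, h1, st_single]

end small

namespace MD

variable {k l : ℕ} (M : MD k l)

/-- the families -/
def Xi : Set (M.B → W k l (Fin (M.N + M.m1))) :=
  {x | ∃ (q : ℚ) (g : SK.W O2 k l (Fin M.N)),
    x = fun p => q • tf M.C M.N (cW p.2 (AO k l M.Ω p.1 g))}

theorem aW_r {ι : Type} [Fintype ι] [LinearOrder ι] (x : M.B → W k l ι) (p : M.B) :
    aW (jA 2) k l (cst (Ap 2) _ M.r) x p = ∑ a, jA 2 (Psi r2 p.2 a) • x (p.1, a) := by
  have h0 : ∀ c : Ap 2, act k l ι (mj (jA 2) _ (algebraMap (Ap 2)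
      (MonoidAlgebra (Ap 2) (Perm ι)) c)) = jA 2 c • (1 : Module.End ℚ (W k l ι)) := by
    intro c
    rw [Algebra.algebraMap_eq_smul_one, Super.mj_smul, map_smul, map_one, map_one]
  have h1 : ∀ q : M.B, act k l ι (mj (jA 2) _ (cst (Ap 2) (Perm ι) M.r p q)) (x q)
      = jA 2 (M.r p q) • x q := by
    intro q
    change act k l ι (mj (jA 2) _ (algebraMap (Ap 2) (MonoidAlgebra (Ap 2) (Perm ι))
      (M.r p q))) (x q) = _
    rw [h0]
    rfl
  rw [aW_apply]
  simp only [h1]
  rw [M.sum_B, Finset.sum_eq_single p.1]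
  · refine Finset.sum_congr rfl fun a _ => ?_
    unfold r
    dsimp only
    rw [if_pos rfl]
  · intro S _ hS
    refine Finset.sum_eq_zero fun a _ => ?_
    unfold r
    dsimp only
    rw [if_neg hS.symm, map_zero, zero_smul]
  · intro h
    exact absurd (mem_univ _) h

/-- the operator `EXT` on a vector -/
theorem hE_vec (S : Finset (Fin M.N)) (G : SK.W O2 k l (Fin (M.N + 1))) (p : Fin 2) :
    ∑ S', ∑ b, act k l _ (mj (jA 2) _ (pj p b _ (M.lam S S')))
        (cW b (up O2 k l M.N (AO k l M.Ω S') G))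
      = cW p (dT O2 k l r2 {0} (up O2 k l M.N (AO k l M.Ω S) G)) := by
  have h1 := congrArg (fun X => cW p (X G)) (M.hE S)
  simp only [LinearMap.sum_apply, Module.End.mul_apply] at h1
  rw [h1, cW_sum]
  refine Finset.sum_congr rfl fun S' _ => ?_
  rw [Ex_act]

theorem hE_vec' (S : Finset (Fin M.N)) (p : Finset (Fin M.N)) (a : Fin 2)
    (F : SK.W O2 k l (Fin (M.N + 1))) :
    ∑ R, ∑ c, jA 2 (Psi (r2 ^ (p.card + R.card)) a c) • up ℚ k l M.N
        (QA k l M.Ω p * QA' k l M.Ω R)
          (cW c (SK.act O2 O2 k l _ (st _ _ (M.lam S R)) F))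
      = cW a (up O2 k l M.N (AO k l M.Ω p) (up O2 k l M.N (AO' k l M.Ω S)
        (dT O2 k l r2 {0} F))) := by
  have h1 := congrArg (fun X => cW a (up O2 k l M.N (AO k l M.Ω p) (X F))) (M.hE' S)
  simp only [LinearMap.sum_apply, Module.End.mul_apply] at h1
  rw [h1, map_sum, cW_sum]
  refine Finset.sum_congr rfl fun R _ => ?_
  have h2 := Ex_up (Ex_OX M.Ω p R) a (SK.act O2 O2 k l _ (st _ _ (M.lam S R)) F)
  rw [map_mul, Module.End.mul_apply] at h2
  rw [h2]
  rfl

theorem hlam : ∀ x ∈ M.Xi, ∀ c : Lt k l, aW (jA 2) k l M.lamM (fun b => ins c (x b))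
    = (if odd c then (1 : ℚ) else 0) • aW (jA 2) k l (cst (Ap 2) _ M.r)
        (fun b => ins c (x b)) := by
  rintro _ ⟨t, g, rfl⟩ c
  funext p
  rw [Pi.smul_apply, aW_r, aW_apply, M.sum_B]
  have h1 : ∀ (S : Finset (Fin M.N)) (b : Fin 2),
      act k l _ (mj (jA 2) _ (M.lamM p (S, b)))
        (ins c (t • tf M.C M.N (cW b (AO k l M.Ω S g))))
      = t • tf' M.C M.N (act k l _ (mj (jA 2) _ (pj p.2 b _ (M.lam p.1 S)))
        (cW b (up O2 k l M.N (AO k l M.Ω S) (SK.ins c g)))) := by
    intro S b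
    unfold lamM
    rw [Super.mj_plL, ins_smul, map_smul, ins_tf, act_aL, up_ins, cW_ins]
  dsimp only
  simp only [h1]
  simp only [← Finset.smul_sum, ← map_sum]
  rw [M.hE_vec, up_ins, dT0_ins, cW_smul]
  simp only [cW_ins, map_sum, map_smul, Finset.smul_sum, ins_smul, ins_tf]
  refine Finset.sum_congr rfl fun a _ => ?_
  split_ifs
  · rw [one_smul, smul_comm]
  · have h2 : Psi (0 : O2) p.2 a = 0 := by
      unfold Psi
      rw [zero_mul, map_zero]
    rw [h2, map_zero, zero_smul, smul_zero, zero_smul]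

/-- the entries of `T` -/
theorem mj_T (p q : M.B) : mj (jA 2) _ (M.T p q)
    = (jA 2 (Psi (r2 ^ (p.1.card + q.1.card)) p.2 q.2) * (M.D : ℚ)) •
      (M.y p.1 q.1 * M.C.Z M.N) := by
  unfold T
  rw [Super.mj_smul, mj_icB, M.ht, smul_smul]

theorem pl_Z : pl (Fin.succOrderEmb (M.N + M.m1)) (M.C.Z M.N) = pl (bR M.N M.m1) M.C.z := by
  unfold Super.Cat.Z
  rw [Super.pl_trans]
  rfl

/-- the left factor of the entries of `lam * (T ⊗ 1)` -/
noncomputable def L1 (p q : M.B) : MonoidAlgebra ℚ (Perm (Fin (M.N + M.m1 + 1))) :=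
  ∑ R, ∑ c, (jA 2 (Psi (r2 ^ (R.card + q.1.card)) c q.2) * (M.D : ℚ)) •
    (pl (aL M.N M.m1) (mj (jA 2) _ (pj p.2 c _ (M.lam p.1 R))) *
      pl (Fin.succOrderEmb (M.N + M.m1)) (M.y R q.1))

/-- the left factor of the entries of `(T ⊗ 1) * lam'` -/
noncomputable def L2 (p q : M.B) : MonoidAlgebra ℚ (Perm (Fin (M.N + M.m1 + 1))) :=
  ∑ R, ∑ c, (jA 2 (Psi (r2 ^ (p.1.card + R.card)) p.2 c) * (M.D : ℚ)) •
    (pl (Fin.succOrderEmb (M.N + M.m1)) (M.y p.1 R) *
      pl (aL M.N M.m1) (mj (jA 2) _ (pj c q.2 _ (st _ _ (M.lam q.1 R)))))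

theorem mj_L1 (p q : M.B) :
    mj (jA 2) _ ((M.lamM * plM (Ap 2) (Fin.succOrderEmb (M.N + M.m1)) M.T) p q)
      = M.L1 p q * pl (bR M.N M.m1) M.C.z := by
  rw [Matrix.mul_apply, map_sum, M.sum_B]
  unfold L1
  rw [Finset.sum_mul]
  refine Finset.sum_congr rfl fun R _ => ?_
  rw [Finset.sum_mul]
  refine Finset.sum_congr rfl fun c _ => ?_
  have h1 : plM (Ap 2) (Fin.succOrderEmb (M.N + M.m1)) M.T (R, c) q
      = plL (Ap 2) (Fin.succOrderEmb (M.N + M.m1)) (M.T (R, c) q) := rfl
  rw [map_mul, h1, Super.mj_plL, M.mj_T, map_smul, map_mul, M.pl_Z]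
  unfold lamM
  rw [Super.mj_plL, mul_smul_comm, smul_mul_assoc, mul_assoc]

theorem mj_L2 (p q : M.B) :
    mj (jA 2) _ ((plM (Ap 2) (Fin.succOrderEmb (M.N + M.m1)) M.T * M.lamM') p q)
      = M.L2 p q * pl (bR M.N M.m1) M.C.z := by
  rw [Matrix.mul_apply, map_sum, M.sum_B]
  unfold L2
  rw [Finset.sum_mul]
  refine Finset.sum_congr rfl fun R _ => ?_
  rw [Finset.sum_mul]
  refine Finset.sum_congr rfl fun c _ => ?_
  have h1 : plM (Ap 2) (Fin.succOrderEmb (M.N + M.m1)) M.T p (R, c)
      = plL (Ap 2) (Fin.succOrderEmb (M.N + M.m1)) (M.T p (R, c)) := rfl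
  rw [map_mul, h1, Super.mj_plL, M.mj_T, map_smul, map_mul, M.pl_Z]
  unfold lamM'
  rw [Super.mj_plL, smul_mul_assoc, smul_mul_assoc, mul_assoc, mul_assoc]
  rw [(Super.pl_comm (aL M.N M.m1) (bR M.N M.m1) (fun a b => aL_ne_bR a b) _ M.C.z).eq]

/-- both operators in terms of typed words -/
theorem act_L1 (p q : M.B) (v : Fin (M.N + 1) → Lt k l) :
    act k l _ (M.L1 p q) (tf' M.C M.N (Pi.single v 1))
      = (M.D : ℚ) • tf' M.C M.N (cW p.2 (dT O2 k l r2 {0} (up O2 k l M.N (AO k l M.Ω p.1)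
          (up O2 k l M.N (AO' k l M.Ω q.1) (Pi.single v (bs q.2)))))) := by
  rw [← M.hE_vec]
  unfold L1
  simp only [map_sum, LinearMap.sum_apply, Finset.smul_sum]
  refine Finset.sum_congr rfl fun R _ => Finset.sum_congr rfl fun c _ => ?_
  have h2 := Ex_up (Ex_OX M.Ω R q.1) c (Pi.single v (bs q.2))
  rw [map_mul, Module.End.mul_apply] at h2
  rw [h2, sum_cW_single q.2 v (fun b => up ℚ k l M.N
    (jA 2 (Psi (r2 ^ (R.card + q.1.card)) c b) • (QA k l M.Ω R * QA' k l M.Ω q.1)))]
  rw [up_smul, LinearMap.smul_apply, map_smul, map_smul, map_smul, LinearMap.smul_apply,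
    map_mul, Module.End.mul_apply, Rep_succ M.C (M.hy R q.1), act_aL, smul_smul, mul_comm]

theorem act_L2 (p q : M.B) (v : Fin (M.N + 1) → Lt k l) :
    act k l _ (M.L2 p q) (tf' M.C M.N (Pi.single v 1))
      = (M.D : ℚ) • tf' M.C M.N (cW p.2 (up O2 k l M.N (AO k l M.Ω p.1)
          (up O2 k l M.N (AO' k l M.Ω q.1) (dT O2 k l r2 {0} (Pi.single v (bs q.2)))))) := by
  rw [← M.hE_vec']
  unfold L2
  simp only [map_sum, LinearMap.sum_apply, Finset.smul_sum]
  refine Finset.sum_congr rfl fun R _ => Finset.sum_congr rfl fun c _ => ?_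
  have h2 := Ex_act (st _ _ (M.lam q.1 R)) c (Pi.single v (bs q.2))
  rw [h2, sum_cW_single q.2 v (fun b => act k l _ (mj (jA 2) _
    (pj c b _ (st _ _ (M.lam q.1 R)))))]
  rw [map_smul, map_smul, LinearMap.smul_apply,
    map_mul, Module.End.mul_apply, act_aL, Rep_succ M.C (M.hy p.1 R), smul_smul, mul_comm]

theorem hlam' : aW (jA 2) k l (M.lamM * plM (Ap 2) (Fin.succOrderEmb (M.N + M.m1)) M.T)
    = aW (jA 2) k l (plM (Ap 2) (Fin.succOrderEmb (M.N + M.m1)) M.T * M.lamM') := by
  refine LinearMap.ext fun x => funext fun p => ?_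
  rw [aW_apply, aW_apply]
  refine Finset.sum_congr rfl fun q _ => ?_
  rw [M.mj_L1, M.mj_L2]
  have h1 : act k l _ ((M.L1 p q - M.L2 p q) * pl (bR M.N M.m1) M.C.z) = 0 := by
    refine ker_of' M.C _ fun f => ?_
    rw [eq_sum_single f]
    simp only [map_sum, map_smul]
    refine Finset.sum_eq_zero fun v _ => ?_
    rw [map_sub, LinearMap.sub_apply, M.act_L1, M.act_L2, dT0_up, dT0_up, sub_self, smul_zero]
  rw [sub_mul, map_sub, sub_eq_zero] at h1
  rw [h1]

/-! ### the space generated by the families -/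

/-- the family given by a column of `T` -/
noncomputable def Hq (q : M.B) :
    W k l (Fin (M.N + M.m1)) →ₗ[ℚ] (M.B → W k l (Fin (M.N + M.m1))) where
  toFun g p := jA 2 (Psi (r2 ^ (p.1.card + q.1.card)) p.2 q.2) • act k l _ (M.y p.1 q.1) g
  map_add' g h := by
    funext p
    rw [Pi.add_apply, map_add, smul_add]
  map_smul' c g := by
    funext p
    rw [Pi.smul_apply, map_smul, RingHom.id_apply, smul_comm]

theorem Hq_apply (q : M.B) (g : W k l (Fin (M.N + M.m1))) (p : M.B) : M.Hq q g p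
    = jA 2 (Psi (r2 ^ (p.1.card + q.1.card)) p.2 q.2) • act k l _ (M.y p.1 q.1) g := rfl

theorem Hq_tf (q : M.B) (v : Fin M.N → Lt k l) : M.Hq q (tn v M.C.ξ)
    = fun p => (1 : ℚ) • tf M.C M.N (cW p.2 (AO k l M.Ω p.1
        (AO' k l M.Ω q.1 (Pi.single v (bs q.2))))) := by
  funext p
  have h2 := Ex_OX M.Ω p.1 q.1 p.2 (Pi.single v (bs q.2))
  rw [Module.End.mul_apply] at h2
  rw [Hq_apply, one_smul, h2, sum_cW_single q.2 v (fun b =>
    (jA 2 (Psi (r2 ^ (p.1.card + q.1.card)) p.2 b) • (QA k l M.Ω p.1 * QA' k l M.Ω q.1)))]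
  rw [LinearMap.smul_apply, map_smul, ← tf_single, M.hy]

theorem Hq_mem (q : M.B) (v : Fin M.N → Lt k l) : M.Hq q (tn v M.C.ξ) ∈ M.Xi :=
  ⟨1, _, M.Hq_tf q v⟩

theorem Hq_Ux (q : M.B) : ∀ h ∈ Ux M.C.ξ, ∀ v : Fin M.N → Lt k l,
    M.Hq q (tn v h) ∈ UB M.Xi := by
  let Nn : Submodule ℚ (W k l (Fin M.m1)) :=
    { carrier := {f | ∀ v : Fin M.N → Lt k l, M.Hq q (tn v f) ∈ UB M.Xi}
      add_mem' := by
        intro f g hf hg v
        rw [map_add, map_add]
        exact Submodule.add_mem _ (hf v) (hg v)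
      zero_mem' := by
        intro v; rw [map_zero, map_zero]
        exact Submodule.zero_mem _
      smul_mem' := by
        intro c f hf v
        rw [map_smul, map_smul]
        exact Submodule.smul_mem _ _ (hf v) }
  have hN : Ux M.C.ξ ≤ Nn := by
    refine Super.gen_le ?_ ?_
    · rw [Submodule.span_singleton_le_iff_mem]
      intro v
      exact Super.le_gen _ _ (Submodule.subset_span (M.Hq_mem q v))
    · rintro T ⟨a, b, rfl⟩ f hf v
      have h1 := congrArg (M.Hq q) (Super.EE_tn a b v f)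
      have h2 : M.Hq q (EE a b (tn v f)) = (EE a b : Module.End ℚ (W k l (Fin (M.N + M.m1)))).compLeft
          M.B (M.Hq q (tn v f)) := by
        funext p
        change jA 2 _ • act k l _ (M.y p.1 q.1) (EE a b (tn v f)) =
          EE a b (jA 2 _ • act k l _ (M.y p.1 q.1) (tn v f))
        rw [map_smul]
        congr 1
        exact LinearMap.congr_fun (Super.act_EE (M.y p.1 q.1) a b) (tn v f)
      have h3 : M.Hq q (EE a b (tn v f)) ∈ UB M.Xi := by
        rw [h2]
        exact Super.gen_stable (show _ ∈ {F | ∃ a b : Lt k l, F = (EE a b : Module.End ℚ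
          (W k l (Fin (M.N + M.m1)))).compLeft M.B} from ⟨a, b, rfl⟩) (hf v)
      rw [map_add, map_sum, map_smul] at h1
      have h4 : ∑ i, M.Hq q (Super.eop a b (phL M.N M.m1 i) (tn v f)) ∈ UB M.Xi := by
        refine Submodule.sum_mem _ fun i _ => ?_
        obtain ⟨c, v', hc⟩ := Super.eop_tnL (m := M.m1) a b i v f
        rw [hc, map_smul]
        exact Submodule.smul_mem _ _ (hf v')
      have h5 : (∏ i, Super.eta a b (v i)) • M.Hq q (tn v (EE a b f)) ∈ UB M.Xi := by
        have h6 := Submodule.sub_mem _ h3 h4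
        rw [h1, add_sub_cancel_left] at h6
        exact h6
      have h7 : (∏ i, Super.eta a b (v i)) * (∏ i, Super.eta a b (v i)) = (1 : ℚ) := by
        rw [← Finset.prod_mul_distrib]
        exact Finset.prod_eq_one (fun i _ => Super.eta_sq _ _ _)
      have h8 := Submodule.smul_mem (UB M.Xi) (∏ i, Super.eta a b (v i)) h5
      rw [smul_smul, h7, one_smul] at h8
      exact h8
  intro h hh
  exact hN hh

theorem aW_T (f : M.B → W k l (Fin (M.N + M.m1))) :
    aW (jA 2) k l M.T f = ∑ q, (M.D : ℚ) • M.Hq q (act k l _ (M.C.Z M.N) (f q)) := by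
  funext p
  rw [aW_apply, Finset.sum_apply]
  refine Finset.sum_congr rfl fun q _ => ?_
  rw [M.mj_T, map_smul, LinearMap.smul_apply, map_mul, Module.End.mul_apply, Pi.smul_apply,
    Hq_apply, smul_smul, mul_comm]

theorem hT (f : M.B → W k l (Fin (M.N + M.m1))) : aW (jA 2) k l M.T f ∈ UB M.Xi := by
  rw [M.aW_T]
  refine Submodule.sum_mem _ fun q _ => Submodule.smul_mem _ _ ?_
  rw [Super.sum_tn (f q), map_sum, map_sum]
  refine Submodule.sum_mem _ fun v _ => ?_
  unfold Super.Cat.Z
  rw [Super.act_pl_tn]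
  exact M.Hq_Ux q _ (M.C.hz2 _) v

/-! ### the operator is not zero -/

/-- the rational operator -/
noncomputable def P : Module.End ℚ (W k l (Fin M.N)) :=
  plain ℚ k l (Fin M.N) ℚ (mj (jA 2) _ M.Ω)

/-- the transposed rational operator -/
noncomputable def P' : Module.End ℚ (W k l (Fin M.N)) :=
  plain ℚ k l (Fin M.N) ℚ (mj (jA 2) _ (st (Ap 2) _ M.Ω))

theorem adj_P : Adj M.P M.P' := by
  unfold P P'
  rw [mj_st]
  exact Adj_plain _

theorem P_ne : M.P ≠ 0 := by
  intro h
  apply M.hΩ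
  refine LinearMap.ext fun F => funext fun w => ?_
  have h1 : ∀ a, cA a (plain O2 k l (Fin M.N) (Ap 2) M.Ω F w) = 0 := by
    intro a
    apply jA_inj
    rw [map_zero, ← cW_apply, Ex_plain]
    have h2 : ∀ c, (if a = c then plain ℚ k l (Fin M.N) ℚ (mj (jA 2) _ M.Ω) else 0) (cW c F)
        = 0 := by
      intro c
      have h3 : plain ℚ k l (Fin M.N) ℚ (mj (jA 2) _ M.Ω) = 0 := h
      rw [h3, ite_self]
      rfl
    simp only [h2]
    rw [Finset.sum_const_zero]
    rfl
  ext
  · exact h1 0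
  · exact h1 1

theorem PP_ne : M.P * M.P' ≠ 0 := by
  intro h
  apply M.P_ne
  have h1 : ∀ g, M.P' g = 0 := by
    intro g
    have h2 := M.adj_P (M.P' g) g
    have h3 : M.P (M.P' g) = 0 := by
      rw [← Module.End.mul_apply, h]
      rfl
    rw [h3] at h2
    simp only [Pi.zero_apply, zero_mul, Finset.sum_const_zero] at h2
    funext w
    have h4 := (Finset.sum_eq_zero_iff_of_nonneg (fun w _ => mul_self_nonneg (M.P' g w))).1
      h2.symm w (mem_univ w)
    exact mul_self_eq_zero.1 h4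
  have h5 : Adj (0 : Module.End ℚ (W k l (Fin M.N))) 0 := Adj_zero
  have h6 : Adj M.P' M.P := by
    intro f g
    have := M.adj_P g f
    simp only [mul_comm] at this ⊢
    exact this.symm
  have h7 : M.P' = 0 := LinearMap.ext h1
  rw [h7] at h6
  exact h6.unique h5

theorem tf_inj {f : W k l (Fin M.N)} (h : tf M.C M.N f = 0) : f = 0 := by
  obtain ⟨s, hs⟩ := Function.ne_iff.1 M.hξ
  funext v
  have h1 := congrFun h (Fin.append v s)
  rw [tf_apply] at h1
  have h2 : Fin.append v s ∘ phL M.N M.m1 = v := by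
    funext i
    exact Fin.append_left v s i
  have h3 : Fin.append v s ∘ phR M.N M.m1 = s := by
    funext i
    exact Fin.append_right v s i
  rw [h2, h3] at h1
  exact (mul_eq_zero.1 h1).resolve_right hs

theorem hne : ∃ f, aW (jA 2) k l M.T f ∈ M.Xi ∧ aW (jA 2) k l M.T f ≠ 0 := by
  have hv : ∃ v : Fin M.N → Lt k l, (M.P * M.P') (Pi.single v 1) ≠ 0 := by
    by_contra h
    push Not at h
    apply M.PP_ne
    refine LinearMap.ext fun f => ?_
    rw [eq_sum_single f, map_sum]
    simp only [map_smul, h, smul_zero, Finset.sum_const_zero]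
    rfl
  obtain ⟨v, hv⟩ := hv
  have hD : (M.D : ℚ) ≠ 0 := Nat.cast_ne_zero.2 M.hD.ne'
  let q0 : M.B := (∅, 0)
  have h1 : aW (jA 2) k l M.T (fun q => if q = q0 then (M.D : ℚ)⁻¹ • tn v M.C.ξ else 0)
      = M.Hq q0 (tn v M.C.ξ) := by
    rw [M.aW_T, Finset.sum_eq_single q0]
    · rw [if_pos rfl, map_smul, map_smul, smul_smul, mul_inv_cancel₀ hD, one_smul, M.C.act_Z]
    · intro q _ hq
      rw [if_neg hq, map_zero, map_zero, smul_zero]
    · intro h
      exact absurd (mem_univ _) h
  refine ⟨_, h1 ▸ M.Hq_mem q0 v, ?_⟩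
  rw [h1]
  intro h2
  have h3 := congrFun h2 q0
  rw [Hq_apply, ← tf_single, M.hy] at h3
  have h4 : Psi (r2 ^ (q0.1.card + q0.1.card)) q0.2 q0.2 = 1 := by
    change Psi (r2 ^ 0) 0 0 = 1
    rw [pow_zero, Psi_one, if_pos rfl]
  rw [h4, map_one, one_smul] at h3
  have h5 := M.tf_inj h3
  apply hv
  rw [← h5]
  have h6 : QA k l M.Ω q0.1 * QA' k l M.Ω q0.1 = M.P * M.P' := by
    unfold QA QA'
    change dT ℚ k l 1 ∅ * _ * (_ * dT ℚ k l 1 ∅) = _
    rw [dT_empty, one_mul, mul_one]
    rfl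
  rw [h6]

/-- the matrix catalyst -/
noncomputable def cb : CB (jA 2) k l (M.N + M.m1) M.B where
  Xi := M.Xi
  T := M.T
  lam := M.lamM
  lam' := M.lamM'
  r := M.r
  r_sq := M.r_sq
  rT := M.rT
  rlam := M.rlam
  hT := M.hT
  hlam := M.hlam
  hlam' := M.hlam'
  hne := M.hne

end MD

/-- THE MODEL SIDE. -/
theorem modelSide : ModelSide := by
  intro k l h
  obtain ⟨M⟩ := h.md
  exact ⟨_, _, inferInstance, inferInstance, ⟨M.cb⟩⟩

end Pool.PI34.XX

end
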