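import Pool.Agent.LibPI54.M57

/-! ### part X_R3 -/
section

/-!
PI34, the prime `p = 2`, ring side, file R3: the relations of a matrix catalyst on words.
-/

set_option autoImplicit false
set_option linter.unusedSectionVars false
set_option linter.unusedSimpArgs false

namespace Pool.PI34.XX

open Equiv Finset
open Pool.PI34.Super (W Lt odd act mj tn ins EE gen plL phL phR phi pl sl ext eop EB prs mem_prs
  eps pv)
open Pool.PI34.BA (anti permsOn)

variable {k l : ℕ}

/-! ### families of vectors -/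

section fam

variable {n m : ℕ}

/-- evaluation of placed elements at the last strand, for sums -/
theorem act_phi_last_sum {τ : Type} [Fintype τ] {x : τ → W k l (Fin m)} {y : W k l (Fin m)}
    {E : τ → MonoidAlgebra ℚ (Perm (Fin (m + 1)))} {e : Lt k l → ℚ}
    (hE : ∀ c, ∑ t, act k l _ (E t) (ins c (x t)) = e c • ins c y) (i : Fin n)
    (hi : i.val + 1 = n) (v : Fin n → Lt k l) :
    ∑ t, act k l _ (pl (phi n m i) (E t)) (tn v (x t)) = e (v i) • tn v y := by
  funext w
  rw [Finset.sum_apply]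
  have h0 : ∀ t, act k l _ (pl (phi n m i) (E t)) (tn v (x t)) w
      = act k l _ (E t) (sl (phi n m i) w (tn v (x t))) (w ∘ phi n m i) := fun t =>
    Super.act_pl (Super.conv_phi i hi) _ _ _
  rw [Finset.sum_congr rfl fun t _ => h0 t]
  have hne : ∀ j : Fin n, j ≠ i → phL n m j ∉ Set.range (phi n m i) := by
    rintro j hj ⟨x, hx⟩
    rcases Fin.eq_zero_or_eq_succ x with rfl | ⟨x, rfl⟩
    · rw [Super.phi_zero] at hx
      exact hj ((phL n m).injective hx).symm
    · rw [Super.phi_succ] at hx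
      exact Super.phR_notMem j ⟨x, hx⟩
  have h : ∀ ξ : W k l (Fin m), sl (phi n m i) w (tn v ξ)
      = if (∀ j, j ≠ i → w (phL n m j) = v j) then ins (v i) ξ else 0 := by
    intro ξ
    funext u
    rw [Super.sl_apply, Super.tn_apply]
    have h1 : Function.extend (phi n m i) u w ∘ phR n m = Fin.tail u := by
      funext s
      have : phR n m s = phi n m i s.succ := rfl
      rw [Function.comp_apply, this, (phi n m i).injective.extend_apply]; rfl
    have h2 : Function.extend (phi n m i) u w ∘ phL n m = v ↔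
        ((∀ j, j ≠ i → w (phL n m j) = v j) ∧ u 0 = v i) := by
      constructor
      · intro h3
        refine ⟨fun j hj => ?_, ?_⟩
        · have := congrFun h3 j
          rw [Function.comp_apply, Function.extend_apply' _ _ _ (hne j hj)] at this
          exact this
        · have := congrFun h3 i
          have h4 : phL n m i = phi n m i 0 := rfl
          rw [Function.comp_apply, h4, (phi n m i).injective.extend_apply] at this
          exact this
      · rintro ⟨h3, h4⟩
        funext j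
        by_cases hj : j = i
        · subst hj
          have h5 : phL n m j = phi n m j 0 := rfl
          rw [Function.comp_apply, h5, (phi n m j).injective.extend_apply, h4]
        · rw [Function.comp_apply, Function.extend_apply' _ _ _ (hne j hj), h3 j hj]
    rw [h1]
    by_cases h3 : (∀ j, j ≠ i → w (phL n m j) = v j)
    · rw [if_pos h3]
      unfold ins
      by_cases h4 : u 0 = v i
      · rw [if_pos (h2.2 ⟨h3, h4⟩), if_pos h4]
      · rw [if_neg (fun h5 => h4 (h2.1 h5).2), if_neg h4]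
    · rw [if_neg h3, if_neg (fun h5 => h3 (h2.1 h5).1)]; rfl
  rw [Pi.smul_apply, Super.tn_apply]
  have h6 : (w ∘ phL n m = v) ↔
      ((∀ j, j ≠ i → w (phL n m j) = v j) ∧ w (phL n m i) = v i) := by
    constructor
    · intro h; rw [← h]; exact ⟨fun _ _ => rfl, rfl⟩
    · rintro ⟨h1, h2⟩
      funext j
      by_cases hj : j = i
      · subst hj; exact h2
      · exact h1 j hj
  by_cases h3 : (∀ j, j ≠ i → w (phL n m j) = v j)
  · have h8 : ∑ t, act k l _ (E t) (sl (phi n m i) w (tn v (x t))) (w ∘ phi n m i)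
        = (∑ t, act k l _ (E t) (ins (v i) (x t))) (w ∘ phi n m i) := by
      rw [Finset.sum_apply]
      exact Finset.sum_congr rfl fun t _ => by rw [h, if_pos h3]
    rw [h8, hE, Pi.smul_apply]
    unfold ins
    have h7 : (w ∘ phi n m i) 0 = w (phL n m i) := rfl
    have h8 : Fin.tail (w ∘ phi n m i) = w ∘ phR n m := rfl
    rw [h7, h8]
    by_cases h4 : w (phL n m i) = v i
    · rw [if_pos h4, if_pos (h6.2 ⟨h3, h4⟩)]
    · rw [if_neg h4, if_neg (fun h5 => h4 (h6.1 h5).2)]
  · rw [if_neg (fun h5 => h3 (h6.1 h5).1), smul_zero]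
    refine Finset.sum_eq_zero fun t _ => ?_
    rw [h, if_neg h3, map_zero]
    rfl

/-- evaluation of placed elements at an arbitrary strand, for sums -/
theorem act_phi_sum {τ : Type} [Fintype τ] {x : τ → W k l (Fin m)} {y : W k l (Fin m)}
    {E : τ → MonoidAlgebra ℚ (Perm (Fin (m + 1)))} {e : Lt k l → ℚ}
    (hE : ∀ c, ∑ t, act k l _ (E t) (ins c (x t)) = e c • ins c y) (i : Fin n)
    (v : Fin n → Lt k l) :
    ∑ t, act k l _ (pl (phi n m i) (E t)) (tn v (x t)) = e (v i) • tn v y := by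
  have hn : 0 < n := by have := i.2; omega
  let i0 : Fin n := ⟨n - 1, by omega⟩
  have hi0 : i0.val + 1 = n := by change n - 1 + 1 = n; omega
  let τ' : Perm (Fin n) := swap i i0
  let T : Perm (Fin (n + m)) := ext (phL n m) τ'
  have hT : ∀ a, T (phi n m i0 a) = phi n m i a := by
    intro a
    rcases Fin.eq_zero_or_eq_succ a with rfl | ⟨a, rfl⟩
    · have h1 : phi n m i0 0 = phL n m i0 := rfl
      have h2 : phi n m i 0 = phL n m i := rfl
      rw [h1, h2]
      change ext (phL n m) τ' (phL n m i0) = _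
      rw [Super.ext_apply]
      congr 1
      exact swap_apply_right i i0
    · rw [Super.phi_succ, Super.phi_succ]
      exact Super.ext_apply' _ _ _ (Super.phL_notMem a)
  have hTi : T⁻¹ = ext (phL n m) τ'⁻¹ := by change (ext (phL n m) τ')⁻¹ = _; rw [map_inv]
  have h1 : ∀ ξ : W k l (Fin m), Super.rho k l _ T⁻¹ (tn v ξ)
      = eps τ'⁻¹ (pv v) • tn (v ∘ τ') ξ := by
    intro ξ
    rw [hTi, Super.rho_tn, inv_inv]
  have h2 : (v ∘ τ') i0 = v i := by
    change v (swap i i0 i0) = v i
    rw [swap_apply_right]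
  have h3 : Super.rho k l _ T * Super.rho k l _ T⁻¹ = (1 : Module.End ℚ (W k l (Fin (n + m)))) := by
    rw [← map_mul, mul_inv_cancel, map_one]
  have h4 : ∀ t, act k l _ (pl (phi n m i) (E t)) (tn v (x t))
      = eps τ'⁻¹ (pv v) • Super.rho k l _ T
        (act k l _ (pl (phi n m i0) (E t)) (tn (v ∘ τ') (x t))) := by
    intro t
    rw [Super.pl_conj _ _ T hT, map_mul, map_mul, Super.act_of, Super.act_of,
      Module.End.mul_apply, Module.End.mul_apply, h1, map_smul, map_smul]
  rw [Finset.sum_congr rfl fun t _ => h4 t, ← Finset.smul_sum, ← map_sum,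
    act_phi_last_sum hE i0 hi0, h2, map_smul, smul_comm, ← map_smul, ← h1]
  congr 1
  exact LinearMap.congr_fun h3 _

/-- `eop_tnL` with uniform data -/
theorem eop_tnLu (a b : Lt k l) (i : Fin n) (v : Fin n → Lt k l) :
    ∃ (c : ℚ) (v' : Fin n → Lt k l), ∀ f : W k l (Fin m),
      eop a b (phL n m i) (tn v f) = c • tn v' f := by
  classical
  by_cases hv : v i = b
  · refine ⟨Super.bsg a b v i, Function.update v i a, fun f => ?_⟩
    funext w
    rw [Super.eop_apply, Super.tn_apply, Pi.smul_apply, smul_eq_mul, Super.tn_apply]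
    have h1 : Function.update w (phL n m i) b ∘ phL n m = Function.update (w ∘ phL n m) i b := by
      funext j
      by_cases hj : j = i
      · subst hj; simp
      · rw [Function.comp_apply, Function.update_of_ne hj,
          Function.update_of_ne (fun e => hj ((phL n m).injective e))]; rfl
    have h2 : Function.update w (phL n m i) b ∘ phR n m = w ∘ phR n m := by
      funext j
      rw [Function.comp_apply, Function.update_of_ne]
      · rfl
      · intro e; exact Super.phR_notMem i ⟨j, e⟩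
    rw [h1, h2]
    have h3 : (w (phL n m i) = a ∧ Function.update (w ∘ phL n m) i b = v) ↔
        w ∘ phL n m = Function.update v i a := by
      constructor
      · rintro ⟨h4, h5⟩
        rw [← h5, Function.update_idem, ← h4]
        exact (Function.update_eq_self i (w ∘ phL n m)).symm
      · intro h4
        refine ⟨?_, ?_⟩
        · have := congrFun h4 i
          rw [Function.update_self] at this
          exact this
        · rw [h4, Function.update_idem, ← hv, Function.update_eq_self]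
    have h6 : w ∘ phL n m = Function.update v i a →
        Super.bsg a b w (phL n m i) = Super.bsg a b v i := by
      intro h4
      rw [← Super.bsg_update_same a b a v i, ← h4]
      unfold Super.bsg
      rw [Finset.prod_filter, Finset.prod_filter, Fin.prod_univ_add]
      have h7 : ∏ j : Fin m, (if Fin.natAdd n j < phL n m i then
          Super.eta a b (w (Fin.natAdd n j)) else 1) = 1 := by
        refine Finset.prod_eq_one (fun j _ => ?_)
        rw [if_neg]
        rw [Fin.lt_def]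
        have h2 : (phL n m i).val = i.val := rfl
        simp only [Fin.val_natAdd]
        have := i.2; omega
      rw [h7, mul_one]
      refine Finset.prod_congr rfl (fun j _ => ?_)
      rfl
    by_cases h4 : w ∘ phL n m = Function.update v i a
    · have h5 := h3.2 h4
      rw [if_pos h5.1, if_pos h5.2, if_pos h4, h6 h4]
    · rw [if_neg h4, mul_zero]
      by_cases h5 : w (phL n m i) = a
      · rw [if_pos h5, if_neg (fun h6 => h4 (h3.1 ⟨h5, h6⟩)), mul_zero]
      · rw [if_neg h5]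
  · refine ⟨0, v, fun f => ?_⟩
    funext w
    rw [Super.eop_apply, Super.tn_apply, zero_smul]
    split_ifs with h1 h2
    · exfalso
      apply hv
      rw [← h2, Function.comp_apply, Function.update_self]
    · rw [mul_zero]; rfl
    · rfl

/-- `e_v ⊗ f` for families -/
def tB (B : Type) (v : Fin n → Lt k l) :
    (B → W k l (Fin m)) →ₗ[ℚ] (B → W k l (Fin (n + m))) := (tn v).compLeft B

theorem tB_apply {B : Type} (v : Fin n → Lt k l) (x : B → W k l (Fin m)) (b : B) :
    tB B v x b = tn v (x b) := rfl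

end fam

/-! ### the relations -/

namespace CB

variable {Λ : Type} [CommRing Λ] {j : Λ →+* ℚ} {m : ℕ} {B : Type} [Fintype B] [DecidableEq B]

section basic

variable {ι : Type} [Fintype ι] [LinearOrder ι]

theorem aW_apply (Y : Matrix B B (MonoidAlgebra Λ (Perm ι))) (x : B → W k l ι) (b : B) :
    aW j k l Y x b = ∑ b', act k l ι (mj j _ (Y b b')) (x b') := rfl

theorem aW_zero {Y : Matrix B B (MonoidAlgebra Λ (Perm ι))} (h : aW j k l Y = 0) (b b' : B) :
    act k l ι (mj j _ (Y b b')) = 0 := by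
  refine LinearMap.ext fun f => ?_
  have h1 := congrFun (LinearMap.congr_fun h (Pi.single b' f)) b
  rw [aW_apply, Finset.sum_eq_single b'] at h1
  · rw [Pi.single_eq_same] at h1
    exact h1
  · intro c _ hc
    rw [Pi.single_eq_of_ne hc, map_zero]
  · intro h; exact absurd (mem_univ _) h

theorem aW_of_zero {Y : Matrix B B (MonoidAlgebra Λ (Perm ι))}
    (h : ∀ b b', act k l ι (mj j _ (Y b b')) = 0) : aW j k l Y = 0 := by
  refine LinearMap.ext fun x => funext fun b => ?_
  rw [aW_apply]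
  exact Finset.sum_eq_zero fun b' _ => by rw [h]; rfl

theorem mj_single (c : Λ) (g : Perm ι) :
    mj j _ (MonoidAlgebra.single g c) = MonoidAlgebra.single g (j c) := by
  ext h
  simp [mj]

theorem aW_cst (r : Matrix B B Λ) (x : B → W k l ι) (b : B) :
    aW j k l (cst Λ _ r) x b = ∑ b', j (r b b') • x b' := by
  rw [aW_apply]
  refine Finset.sum_congr rfl fun b' _ => ?_
  have h1 : (cst Λ (Perm ι) r) b b' = MonoidAlgebra.single 1 (r b b') := rfl
  rw [h1, mj_single, Super.act_single, map_one]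
  rfl

end basic

variable (L : CB j k l m B) {n : ℕ}

/-- `1 ⊗ T` -/
noncomputable def TT (n : ℕ) : Matrix B B (MonoidAlgebra Λ (Perm (Fin (n + m)))) :=
  plM Λ (phR n m) L.T

/-- delta on the strand `i` -/
noncomputable def lm (n : ℕ) (i : Fin n) : Matrix B B (MonoidAlgebra Λ (Perm (Fin (n + m)))) :=
  plM Λ (phi n m i) L.lam

/-- delta on the strand `i`, from the right -/
noncomputable def lm' (n : ℕ) (i : Fin n) : Matrix B B (MonoidAlgebra Λ (Perm (Fin (n + m)))) :=
  plM Λ (phi n m i) L.lam'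

/-- the square root of two -/
noncomputable def rr (n : ℕ) : Matrix B B (MonoidAlgebra Λ (Perm (Fin (n + m)))) :=
  cst Λ _ L.r

/-- a permutation of the strands -/
noncomputable def sS (Λ : Type) [CommRing Λ] (B : Type) [Fintype B] [DecidableEq B] (n m : ℕ)
    (σ : Perm (Fin n)) : Matrix B B (MonoidAlgebra Λ (Perm (Fin (n + m)))) :=
  Matrix.scalar B (MonoidAlgebra.of Λ _ (ext (phL n m) σ))

/-- the plain flip -/
noncomputable def fl (σ : Perm (Fin n)) : Matrix B B (MonoidAlgebra Λ (Perm (Fin (n + m)))) :=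
  sS Λ B n m σ * sgO (L.lm n) σ

theorem plM_cst {κ ι : Type} [Fintype κ] [LinearOrder κ] [Fintype ι] [LinearOrder ι]
    (φ : κ ↪o ι) (r : Matrix B B Λ) : plM Λ φ (cst Λ _ r) = cst Λ _ r := by
  refine Matrix.ext fun b b' => ?_
  have h1 : plM Λ φ (cst Λ (Perm κ) r) b b' = plL Λ φ (MonoidAlgebra.single 1 (r b b')) := rfl
  have h2 : (cst Λ (Perm ι) r) b b' = MonoidAlgebra.single 1 (r b b') := rfl
  rw [h1, h2]
  unfold plL
  simp

theorem rr_lm (i : Fin n) : L.rr n * L.lm n i = L.lm n i * L.rr n := by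
  unfold rr lm
  rw [← plM_cst (phi n m i) L.r, ← map_mul, ← map_mul, L.rlam]

theorem rr_TT : L.rr n * L.TT n = L.TT n * L.rr n := by
  unfold rr TT
  rw [← plM_cst (phR n m) L.r, ← map_mul, ← map_mul, L.rT]

theorem rr_sq : L.rr n * L.rr n = 2 := by
  unfold rr
  rw [← map_mul, L.r_sq, map_ofNat]

theorem sS_apply (σ : Perm (Fin n)) (b b' : B) : sS Λ B n m σ b b'
    = if b = b' then MonoidAlgebra.of Λ _ (ext (phL n m) σ) else 0 := by
  unfold sS
  rw [Matrix.scalar_apply, Matrix.diagonal_apply]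

theorem sS_mul (σ : Perm (Fin n)) (Y : Matrix B B (MonoidAlgebra Λ (Perm (Fin (n + m)))))
    (b b' : B) : (sS Λ B n m σ * Y) b b' = MonoidAlgebra.of Λ _ (ext (phL n m) σ) * Y b b' := by
  unfold sS
  rw [Matrix.scalar_apply, Matrix.diagonal_mul]

theorem mul_sS (σ : Perm (Fin n)) (Y : Matrix B B (MonoidAlgebra Λ (Perm (Fin (n + m)))))
    (b b' : B) : (Y * sS Λ B n m σ) b b' = Y b b' * MonoidAlgebra.of Λ _ (ext (phL n m) σ) := by
  unfold sS
  rw [Matrix.scalar_apply, Matrix.mul_diagonal]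

theorem sS_hom (σ τ : Perm (Fin n)) : sS Λ B n m (σ * τ) = sS Λ B n m σ * sS Λ B n m τ := by
  unfold sS
  rw [← map_mul, map_mul (ext (phL n m)), map_mul (MonoidAlgebra.of Λ _)]

theorem sS_one : sS Λ B n m (1 : Perm (Fin n)) = 1 := by
  unfold sS
  rw [map_one, map_one, map_one]

theorem sS_plM {κ : Type} [Fintype κ] [LinearOrder κ] (φ φ' : κ ↪o Fin (n + m))
    (σ : Perm (Fin n)) (hT : ∀ a, ext (phL n m) σ (φ a) = φ' a)
    (Y : Matrix B B (MonoidAlgebra Λ (Perm κ))) :
    sS Λ B n m σ * plM Λ φ Y = plM Λ φ' Y * sS Λ B n m σ := by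
  refine Matrix.ext fun b b' => ?_
  rw [sS_mul, mul_sS]
  change _ * plL Λ φ (Y b b') = plL Λ φ' (Y b b') * _
  rw [Super.plL_conj φ φ' (ext (phL n m) σ) hT, mul_assoc, mul_assoc,
    ← map_mul (MonoidAlgebra.of Λ _), inv_mul_cancel, map_one, mul_one]

theorem sS_lm (σ : Perm (Fin n)) (i : Fin n) :
    sS Λ B n m σ * L.lm n i = L.lm n (σ i) * sS Λ B n m σ := by
  refine sS_plM (phi n m i) (phi n m (σ i)) σ ?_ L.lam
  intro a
  rcases Fin.eq_zero_or_eq_succ a with rfl | ⟨a, rfl⟩
  · exact Super.ext_apply (phL n m) σ i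
  · exact Super.ext_apply' _ _ _ (Super.phL_notMem a)

theorem sS_TT (σ : Perm (Fin n)) : sS Λ B n m σ * L.TT n = L.TT n * sS Λ B n m σ :=
  sS_plM (phR n m) (phR n m) σ
    (fun a => Super.ext_apply' _ _ _ (Super.phL_notMem a)) L.T

theorem sS_rr (σ : Perm (Fin n)) : sS Λ B n m σ * L.rr n = L.rr n * sS Λ B n m σ := by
  refine Matrix.ext fun b b' => ?_
  rw [sS_mul, mul_sS]
  have h : (L.rr n) b b' = algebraMap Λ _ (L.r b b') := rfl
  rw [h, Algebra.commutes]

/-! #### values on the elementary tensors -/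

theorem aW_rr (v : Fin n → Lt k l) (x : B → W k l (Fin m)) :
    aW j k l (L.rr n) (tB B v x) = tB B v (aW j k l (cst Λ _ L.r) x) := by
  funext b
  unfold rr
  rw [aW_cst, tB_apply, aW_cst, map_sum]
  exact Finset.sum_congr rfl fun b' _ => by rw [map_smul]; rfl

theorem aW_TT (v : Fin n → Lt k l) (x : B → W k l (Fin m)) :
    aW j k l (L.TT n) (tB B v x) = tB B v (aW j k l L.T x) := by
  funext b
  rw [aW_apply, tB_apply, aW_apply, map_sum]
  refine Finset.sum_congr rfl fun b' _ => ?_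
  have h1 : L.TT n b b' = plL Λ (phR n m) (L.T b b') := rfl
  rw [h1, Super.mj_plL, tB_apply, Super.act_pl_tn]

theorem aW_lm {x : B → W k l (Fin m)} (hx : x ∈ L.Xi) (i : Fin n) (v : Fin n → Lt k l) :
    aW j k l (L.lm n i) (tB B v x)
      = (if odd (v i) then (1 : ℚ) else 0) • aW j k l (L.rr n) (tB B v x) := by
  funext b
  rw [aW_rr, aW_apply, Pi.smul_apply, tB_apply]
  have h1 : ∀ b', act k l _ (mj j _ (L.lm n i b b')) (tB B v x b')
      = act k l _ (pl (phi n m i) (mj j _ (L.lam b b'))) (tn v (x b')) := by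
    intro b'
    have h2 : L.lm n i b b' = plL Λ (phi n m i) (L.lam b b') := rfl
    rw [h2, Super.mj_plL]
    rfl
  rw [Finset.sum_congr rfl fun b' _ => h1 b']
  refine act_phi_sum (e := fun c => if odd c then (1 : ℚ) else 0) (fun c => ?_) i v
  have h3 := congrFun (L.hlam x hx c) b
  rw [aW_apply, Pi.smul_apply, aW_cst] at h3
  rw [h3, aW_cst]
  congr 1
  funext w
  unfold ins
  simp only [Finset.sum_apply, Pi.smul_apply, smul_eq_mul]
  split_ifs
  · rfl
  · simp

theorem aW_sS (σ : Perm (Fin n)) (v : Fin n → Lt k l) (x : B → W k l (Fin m)) :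
    aW j k l (sS Λ B n m σ) (tB B v x) = eps σ (pv v) • tB B (v ∘ ⇑σ⁻¹) x := by
  funext b
  rw [aW_apply, Finset.sum_eq_single b]
  · rw [sS_apply, if_pos rfl, Super.mj_of, Super.act_of, tB_apply, Super.rho_tn]
    rfl
  · intro b' _ hb
    rw [sS_apply, if_neg hb.symm, map_zero, map_zero]
    rfl
  · intro h; exact absurd (mem_univ _) h

/-- THE PRINCIPLE for families -/
theorem ker_of (Y : Matrix B B (MonoidAlgebra Λ (Perm (Fin (n + m)))))
    (hY : ∀ x ∈ L.Xi, ∀ v : Fin n → Lt k l, aW j k l Y (tB B v x) = 0) :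
    aW j k l (Y * L.TT n) = 0 := by
  have key : ∀ g ∈ UB L.Xi, ∀ v : Fin n → Lt k l, aW j k l Y (tB B v g) = 0 := by
    let N : Submodule ℚ (B → W k l (Fin m)) :=
      { carrier := {f | ∀ v : Fin n → Lt k l, aW j k l Y (tB B v f) = 0}
        add_mem' := fun {a b} ha hb v => by rw [map_add, map_add, ha, hb, add_zero]
        zero_mem' := fun v => by rw [map_zero, map_zero]
        smul_mem' := fun c a ha v => by rw [map_smul, map_smul, ha, smul_zero] }
    have hN : UB L.Xi ≤ N := by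
      refine Super.gen_le (Submodule.span_le.2 hY) ?_
      rintro F ⟨a, b, rfl⟩ f hf v
      -- the operators commute with the matrices
      have hc : ∀ g : B → W k l (Fin (n + m)),
          aW j k l Y ((EE a b : Module.End ℚ (W k l (Fin (n + m)))).compLeft B g)
            = (EE a b : Module.End ℚ (W k l (Fin (n + m)))).compLeft B (aW j k l Y g) := by
        intro g
        funext c
        rw [aW_apply]
        change _ = EE a b (aW j k l Y g c)
        rw [aW_apply, map_sum]
        refine Finset.sum_congr rfl fun b' _ => ?_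
        have h2 := LinearMap.congr_fun (Super.act_EE (mj j _ (Y c b')) a b) (g b')
        simp only [Module.End.mul_apply] at h2
        exact h2
      choose c v' hcv using fun i : Fin n => eop_tnLu (m := m) a b i v
      have h1 : (EE a b : Module.End ℚ (W k l (Fin (n + m)))).compLeft B (tB B v f)
          = ∑ i, c i • tB B (v' i) f + (∏ i, Super.eta a b (v i)) •
            tB B v ((EE a b : Module.End ℚ (W k l (Fin m))).compLeft B f) := by
        funext b'
        change EE a b (tn v (f b')) = _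
        rw [Super.EE_tn, Pi.add_apply, Finset.sum_apply]
        congr 1
        exact Finset.sum_congr rfl fun i _ => hcv i (f b')
      have h2 := congrArg (aW j k l Y) h1
      rw [hc, hf v, map_zero, map_add, map_sum, map_smul] at h2
      have h3 : ∑ i, aW j k l Y (c i • tB B (v' i) f) = 0 :=
        Finset.sum_eq_zero fun i _ => by rw [map_smul, hf (v' i), smul_zero]
      rw [h3, zero_add] at h2
      have h4 : (∏ i, Super.eta a b (v i)) * (∏ i, Super.eta a b (v i)) = (1 : ℚ) := by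
        rw [← Finset.prod_mul_distrib]
        exact Finset.prod_eq_one (fun i _ => Super.eta_sq _ _ _)
      have h5 := congrArg (fun x => (∏ i, Super.eta a b (v i)) • x) h2
      simp only [smul_smul, h4, one_smul, smul_zero] at h5
      exact h5.symm
    intro g hg
    exact hN hg
  refine LinearMap.ext fun g => ?_
  rw [map_mul, Module.End.mul_apply, LinearMap.zero_apply]
  have hg : g = ∑ v : Fin n → Lt k l, tB B v (fun b u => g b (Fin.append v u)) := by
    funext b
    rw [Finset.sum_apply]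
    exact Super.sum_tn (g b)
  rw [hg, map_sum, map_sum]
  refine Finset.sum_eq_zero fun v _ => ?_
  rw [aW_TT]
  exact key _ (L.hT _) v

/-! #### the relations modulo `1 ⊗ T` -/

theorem rel (Y Z : Matrix B B (MonoidAlgebra Λ (Perm (Fin (n + m)))))
    (h : ∀ x ∈ L.Xi, ∀ v : Fin n → Lt k l, aW j k l Y (tB B v x) = aW j k l Z (tB B v x)) :
    aW j k l (Y * L.TT n - Z * L.TT n) = 0 := by
  rw [← sub_mul]
  refine L.ker_of _ fun x hx v => ?_
  rw [map_sub, LinearMap.sub_apply, h x hx v, sub_self]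

theorem lm_lm {x : B → W k l (Fin m)} (hx : x ∈ L.Xi) (i i' : Fin n) (v : Fin n → Lt k l) :
    aW j k l (L.lm n i * L.lm n i') (tB B v x)
      = (if odd (v i) ∧ odd (v i') then (2 : ℚ) else 0) • tB B v x := by
  have h2 : ∀ y : B → W k l (Fin (n + m)),
      aW j k l (L.rr n) (aW j k l (L.rr n) y) = (2 : ℚ) • y := by
    intro y
    rw [← Module.End.mul_apply, ← map_mul, L.rr_sq, map_ofNat]
    change (OfNat.ofNat 2 : Module.End ℚ (B → W k l (Fin (n + m)))) y = _
    rw [← one_add_one_eq_two, LinearMap.add_apply, Module.End.one_apply, ← one_add_one_eq_two,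
      add_smul, one_smul]
  rw [map_mul, Module.End.mul_apply, L.aW_lm hx, map_smul, ← Module.End.mul_apply, ← map_mul,
    ← L.rr_lm, map_mul, Module.End.mul_apply, L.aW_lm hx, map_smul, h2, smul_smul, smul_smul]
  congr 1
  by_cases h3 : odd (v i) = true <;> by_cases h4 : odd (v i') = true <;> simp [h3, h4]

theorem rel_sq (i : Fin n) :
    aW j k l (L.lm n i * L.lm n i * L.TT n - L.rr n * L.lm n i * L.TT n) = 0 := by
  refine L.rel _ _ fun x hx v => ?_
  have h2 : ∀ y : B → W k l (Fin (n + m)),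
      aW j k l (L.rr n) (aW j k l (L.rr n) y) = (2 : ℚ) • y := by
    intro y
    rw [← Module.End.mul_apply, ← map_mul, L.rr_sq, map_ofNat]
    change (OfNat.ofNat 2 : Module.End ℚ (B → W k l (Fin (n + m)))) y = _
    rw [← one_add_one_eq_two, LinearMap.add_apply, Module.End.one_apply, ← one_add_one_eq_two,
      add_smul, one_smul]
  rw [L.lm_lm hx, map_mul, Module.End.mul_apply, L.aW_lm hx, map_smul, h2, smul_smul]
  congr 1
  by_cases h3 : odd (v i) = true <;> simp [h3]

theorem rel_comm (i i' : Fin n) :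
    aW j k l (L.lm n i * L.lm n i' * L.TT n - L.lm n i' * L.lm n i * L.TT n) = 0 := by
  refine L.rel _ _ fun x hx v => ?_
  rw [L.lm_lm hx, L.lm_lm hx]
  congr 1
  by_cases h3 : odd (v i) = true <;> by_cases h4 : odd (v i') = true <;> simp [h3, h4]

theorem aW_sg {x : B → W k l (Fin m)} (hx : x ∈ L.Xi) (σ : Perm (Fin n)) (v : Fin n → Lt k l) :
    aW j k l (sgO (L.lm n) σ) (tB B v x) = eps σ (pv v) • tB B v x := by
  have h1 : ∀ K : List (Fin n × Fin n), aW j k l ((K.map (fun q => if σ q.2 < σ q.1 then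
      1 - L.lm n q.1 * L.lm n q.2 else 1)).prod) (tB B v x)
      = ((K.map (fun q => if σ q.2 < σ q.1 then (if pv v q.1 && pv v q.2 then (-1 : ℚ) else 1)
        else 1)).prod) • tB B v x := by
    intro K
    induction K with
    | nil =>
      rw [List.map_nil, List.map_nil, List.prod_nil, List.prod_nil, map_one, one_smul]
      rfl
    | cons q K ih =>
      rw [List.map_cons, List.prod_cons, List.map_cons, List.prod_cons, map_mul,
        Module.End.mul_apply, ih, map_smul, mul_comm, mul_smul]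
      congr 1
      by_cases hq : σ q.2 < σ q.1
      · rw [if_pos hq, if_pos hq, map_sub, map_one, LinearMap.sub_apply, L.lm_lm hx,
          Module.End.one_apply]
        nth_rewrite 1 [← one_smul ℚ (tB B v x)]
        rw [← sub_smul]
        congr 1
        unfold pv
        by_cases h3 : odd (v q.1) = true <;> by_cases h4 : odd (v q.2) = true <;>
          simp [h3, h4]
        norm_num
      · rw [if_neg hq, if_neg hq, map_one, one_smul]; rfl
  unfold sgO
  rw [h1, Finset.prod_map_toList]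
  congr 1
  unfold eps
  refine Finset.prod_congr rfl (fun q hq => ?_)
  rw [mem_prs] at hq
  unfold Super.H
  by_cases h2 : σ q.2 < σ q.1
  · have h3 : ¬ σ q.1 < σ q.2 := not_lt.2 h2.le
    simp [h2, h3, hq]
  · have h3 : σ q.1 < σ q.2 := lt_of_le_of_ne (not_lt.1 h2) (fun e => hq.ne (σ.injective e))
    simp [h2, h3, hq]

theorem aW_fl {x : B → W k l (Fin m)} (hx : x ∈ L.Xi) (σ : Perm (Fin n)) (v : Fin n → Lt k l) :
    aW j k l (L.fl σ) (tB B v x) = tB B (v ∘ ⇑σ⁻¹) x := by
  unfold fl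
  rw [map_mul, Module.End.mul_apply, L.aW_sg hx, map_smul, aW_sS, smul_smul, Super.eps_sq,
    one_smul]

theorem rel_fl (σ τ : Perm (Fin n)) :
    aW j k l (L.fl σ * L.fl τ * L.TT n - L.fl (σ * τ) * L.TT n) = 0 := by
  refine L.rel _ _ fun x hx v => ?_
  rw [map_mul, Module.End.mul_apply, L.aW_fl hx, L.aW_fl hx, L.aW_fl hx]
  congr 1

theorem fl_one : L.fl (1 : Perm (Fin n)) = 1 := by
  unfold fl sgO
  rw [sS_one, one_mul]
  refine List.prod_eq_one fun x hx => ?_
  rw [List.mem_map] at hx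
  obtain ⟨q, hq, rfl⟩ := hx
  rw [Finset.mem_toList, mem_prs] at hq
  rw [if_neg]
  exact not_lt.2 hq.le

theorem rel_anti (T : Finset (Fin n)) (hT : k + l < T.card) :
    aW j k l ((∑ σ ∈ permsOn T, ((Perm.sign σ : ℤˣ) : ℤ) • L.fl σ) * L.TT n) = 0 := by
  classical
  refine L.ker_of _ (fun x hx v => ?_)
  rw [map_sum, LinearMap.sum_apply]
  have h0 : ∀ σ : Perm (Fin n), aW j k l (((Perm.sign σ : ℤˣ) : ℤ) • L.fl σ) (tB B v x)
      = ((Perm.sign σ : ℤˣ) : ℤ) • tB B (v ∘ ⇑σ⁻¹) x := by
    intro σ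
    rw [map_zsmul, LinearMap.smul_apply, L.aW_fl hx]
  rw [Finset.sum_congr rfl fun σ _ => h0 σ]
  -- two positions with the same letter
  have hcard : (univ : Finset (Lt k l)).card < T.card := by
    rw [Finset.card_univ, Fintype.card_sum, Fintype.card_fin, Fintype.card_fin]; exact hT
  obtain ⟨i, hi, i', hi', hij, hv⟩ := Finset.exists_ne_map_eq_of_card_lt_of_maps_to hcard
    (fun i _ => Finset.mem_univ (v i))
  refine Finset.sum_involution (fun σ _ => σ * swap i i') ?_ ?_ ?_ ?_
  · intro σ _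
    rw [Perm.sign_mul, Perm.sign_swap hij]
    have h1 : v ∘ ⇑(σ * swap i i')⁻¹ = v ∘ ⇑σ⁻¹ := by
      funext x
      rw [mul_inv_rev, swap_inv]
      simp only [Function.comp_apply, Perm.mul_apply]
      by_cases h2 : σ⁻¹ x = i
      · rw [h2, swap_apply_left, hv]
      · by_cases h3 : σ⁻¹ x = i'
        · rw [h3, swap_apply_right, hv]
        · rw [swap_apply_of_ne_of_ne h2 h3]
    rw [h1, ← add_smul]
    simp
  · intro σ _ _ h
    have : swap i i' = 1 := by
      have := congrArg (fun x => σ⁻¹ * x) h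
      simpa using this
    exact hij (swap_eq_one_iff.1 this)
  · intro σ hσ
    simp only [permsOn, Finset.mem_filter] at *
    refine ⟨Finset.mem_univ _, fun x hx => ?_⟩
    rw [Perm.mul_apply, swap_apply_of_ne_of_ne, hσ.2 x hx]
    · rintro rfl; exact hx hi
    · rintro rfl; exact hx hi'
  · intro σ _
    rw [mul_assoc, swap_mul_self, mul_one]

/-- an element of `K(k|l)` placed on a strand and the catalyst -/
theorem pl_zero {Y : Matrix B B (MonoidAlgebra Λ (Perm (Fin (m + 1))))}
    (hY : aW j k l Y = 0) (i : Fin n) : aW j k l (plM Λ (phi n m i) Y) = 0 := by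
  have hn : 0 < n := by have := i.2; omega
  let i0 : Fin n := ⟨n - 1, by omega⟩
  have hi0 : i0.val + 1 = n := by change n - 1 + 1 = n; omega
  have h1 : aW j k l (plM Λ (phi n m i0) Y) = 0 := by
    refine aW_of_zero fun b b' => ?_
    change act k l _ (mj j _ (plL Λ (phi n m i0) (Y b b'))) = 0
    rw [Super.mj_plL]
    refine LinearMap.ext fun f => funext fun w => ?_
    rw [Super.act_pl (Super.conv_phi i0 hi0), aW_zero hY]
    rfl
  have h2 := sS_plM (B := B) (phi n m i0) (phi n m i) (swap i i0) (fun a => by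
    rcases Fin.eq_zero_or_eq_succ a with rfl | ⟨a, rfl⟩
    · have h3 : phi n m i0 0 = phL n m i0 := rfl
      have h4 : phi n m i 0 = phL n m i := rfl
      rw [h3, h4, Super.ext_apply, swap_apply_right]
    · rw [Super.phi_succ, Super.phi_succ]
      exact Super.ext_apply' _ _ _ (Super.phL_notMem a)) Y
  have h3 : plM Λ (phi n m i) Y
      = sS Λ B n m (swap i i0) * plM Λ (phi n m i0) Y * sS Λ B n m (swap i i0) := by
    rw [h2, mul_assoc, ← sS_hom, swap_mul_self, sS_one, mul_one]
  rw [h3, map_mul, map_mul, h1, mul_zero, zero_mul]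

theorem plM_sh (i : Fin n) (Y : Matrix B B (MonoidAlgebra Λ (Perm (Fin m)))) :
    plM Λ (phi n m i) (plM Λ (Fin.succOrderEmb m) Y) = plM Λ (phR n m) Y := by
  refine Matrix.ext fun b b' => ?_
  change plL Λ (phi n m i) (plL Λ (Fin.succOrderEmb m) (Y b b')) = plL Λ (phR n m) (Y b b')
  rw [Super.plL_trans _ _ (fun σ => Super.ext_trans _ _ σ)]
  congr 1

theorem rel_lm' (i : Fin n) :
    aW j k l (L.lm n i * L.TT n - L.TT n * L.lm' n i) = 0 := by
  unfold lm lm' TT
  rw [← plM_sh i, ← map_mul, ← map_mul, ← map_sub]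
  apply pl_zero
  rw [map_sub, L.hlam', sub_self]

end CB

end Pool.PI34.XX

end

/-! ### part X_R4 -/
section

/-!
PI34, the prime `p = 2`, ring side, file R4: the naive exotic system of a ring of type `(k|l)`.
-/

set_option autoImplicit false
set_option linter.unusedSectionVars false
set_option linter.unusedSimpArgs false

namespace Pool.PI34.XX

open Equiv Finset
open Pool.PI34.Super (W Lt odd act mj tn ins EE gen plL phL phR phi pl sl ext eop EB prs mem_prs
  eps pv VL rhoL sL aL rhoH TypeKL)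
open Pool.PI34.BA (anti permsOn Anti)

/-! ### restrictions -/

section restr

variable {Λ M : Type} [CommRing Λ] [AddCommGroup M] [Module Λ M]

/-- the operators which preserve `J` and commute with `q` -/
def PS (J : Submodule Λ M) (q : Module.End Λ M) : Subring (Module.End Λ M) where
  carrier := {X | (∀ x ∈ J, X x ∈ J) ∧ X * q = q * X}
  mul_mem' {X Y} hX hY := ⟨fun x hx => hX.1 _ (hY.1 x hx), by
    rw [mul_assoc, hY.2, ← mul_assoc, hX.2, mul_assoc]⟩
  one_mem' := ⟨fun x hx => hx, by rw [one_mul, mul_one]⟩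
  add_mem' {X Y} hX hY := ⟨fun x hx => J.add_mem (hX.1 x hx) (hY.1 x hx), by
    rw [add_mul, mul_add, hX.2, hY.2]⟩
  zero_mem' := ⟨fun x _ => J.zero_mem, by rw [zero_mul, mul_zero]⟩
  neg_mem' {X} hX := ⟨fun x hx => J.neg_mem (hX.1 x hx), by
    rw [neg_mul, mul_neg, hX.2]⟩

variable (J : Submodule Λ M) (q : Module.End Λ M) (hq : ∀ x ∈ J, q x ∈ J)

/-- the endomorphisms of `J` which commute with `q` -/
abbrev UJ : Type := Subring.centralizer ({q.restrict hq} : Set (Module.End Λ J))

/-- the restriction -/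
def resJ : PS J q →+* UJ J q hq where
  toFun X := ⟨X.1.restrict X.2.1, by
    rw [Subring.mem_centralizer_iff]
    rintro _ rfl
    refine LinearMap.ext fun x => Subtype.ext ?_
    exact (LinearMap.congr_fun X.2.2 x.1).symm⟩
  map_one' := rfl
  map_mul' _ _ := rfl
  map_zero' := rfl
  map_add' _ _ := rfl

variable {J q}

theorem resJ_val (X : PS J q) (x : J) : (((resJ J q hq X).1 x : J) : M) = X.1 x.1 := rfl

theorem resJ_eq {X Y : PS J q} (h : ∀ x ∈ J, X.1 x = Y.1 x) :
    resJ J q hq X = resJ J q hq Y :=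
  Subtype.ext (LinearMap.ext fun x => Subtype.ext (h x.1 x.2))

theorem of_resJ_eq {X Y : PS J q} (h : resJ J q hq X = resJ J q hq Y) (x : M) (hx : x ∈ J) :
    X.1 x = Y.1 x := by
  have h1 := LinearMap.congr_fun (congrArg Subtype.val h) ⟨x, hx⟩
  exact congrArg Subtype.val h1

theorem inv_UJ {S : Set ℕ} (h : T2.Inv S Λ) : T2.Inv S (UJ J q hq) := by
  intro s hs
  obtain ⟨u, hu⟩ := h s hs
  let c : UJ J q hq := ⟨((u⁻¹ : Λˣ) : Λ) • (1 : Module.End Λ J), by
    rw [Subring.mem_centralizer_iff]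
    rintro _ rfl
    rw [smul_one_mul, mul_smul_one]⟩
  have h1 : ∀ x : J, (((s : ℕ) : UJ J q hq).1 : Module.End Λ J) x = ((s : ℕ) : Λ) • x := by
    intro x
    rw [Subring.coe_natCast, Module.End.natCast_apply, Nat.cast_smul_eq_nsmul]
  refine ⟨⟨(s : ℕ), c, ?_, ?_⟩, rfl⟩
  · apply Subtype.ext
    refine LinearMap.ext fun x => ?_
    change (((s : ℕ) : UJ J q hq).1 : Module.End Λ J) (((u⁻¹ : Λˣ) : Λ) • x) = x
    rw [h1, smul_smul, ← hu, Units.mul_inv, one_smul]
  · apply Subtype.ext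
    refine LinearMap.ext fun x => ?_
    change ((u⁻¹ : Λˣ) : Λ) • ((((s : ℕ) : UJ J q hq).1 : Module.End Λ J) x) = x
    rw [h1, smul_smul, ← hu, Units.inv_mul, one_smul]

end restr

/-! ### representations -/

theorem sgO_map {n : ℕ} {U V : Type} [Ring U] [Ring V] (φ : U →+* V) (d : Fin n → U)
    (σ : Perm (Fin n)) : φ (sgO d σ) = sgO (fun i => φ (d i)) σ := by
  unfold sgO
  rw [map_list_prod, List.map_map]
  congr 2
  funext q
  simp only [Function.comp_apply]
  split_ifs
  · rw [map_sub, map_one, map_mul]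
  · rw [map_one]

namespace CB

variable {k l : ℕ} {Λ : Type} [CommRing Λ] {j : Λ →+* ℚ} {m : ℕ} {B : Type} [Fintype B]
  [DecidableEq B]

/-- representations with letters -/
structure RB (L : CB j k l m B) (n : ℕ) (R M : Type) [AddCommGroup M] [Module Λ M] where
  a : Matrix B B (MonoidAlgebra Λ (Perm (Fin (n + m)))) →+* Module.End Λ M
  hK : ∀ Y, aW j k l Y = 0 → a Y = 0
  ρ : Fin n → R → Module.End Λ M
  ρ_comm : ∀ i i', i ≠ i' → ∀ x y, ρ i x * ρ i' y = ρ i' y * ρ i x
  ρ_T : ∀ i x, a (L.TT n) * ρ i x = ρ i x * a (L.TT n)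
  ρ_rr : ∀ i x, a (L.rr n) * ρ i x = ρ i x * a (L.rr n)
  ρ_lm : ∀ i i', i ≠ i' → ∀ x, a (L.lm n i') * ρ i x = ρ i x * a (L.lm n i')
  ρ_s : ∀ σ i x, a (sS Λ B n m σ) * ρ i x = ρ (σ i) x * a (sS Λ B n m σ)

namespace RB

variable {L : CB j k l m B} {n : ℕ} {R M : Type} [AddCommGroup M] [Module Λ M] (V : RB L n R M)

/-- the module -/
noncomputable def J : Submodule Λ M := LinearMap.range (V.a (L.TT n))

/-- the square root of two -/
noncomputable def q : Module.End Λ M := V.a (L.rr n)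

theorem eq_on {X Y : Module.End Λ M} (h : X * V.a (L.TT n) = Y * V.a (L.TT n)) :
    ∀ x ∈ V.J, X x = Y x := by
  rintro _ ⟨y, rfl⟩
  exact LinearMap.congr_fun h y

theorem of_eq_on {X Y : Module.End Λ M} (h : ∀ x ∈ V.J, X x = Y x) :
    X * V.a (L.TT n) = Y * V.a (L.TT n) :=
  LinearMap.ext fun y => h _ ⟨y, rfl⟩

theorem pres {X X' : Module.End Λ M} (h : X * V.a (L.TT n) = V.a (L.TT n) * X') :
    ∀ x ∈ V.J, X x ∈ V.J := by
  rintro _ ⟨y, rfl⟩
  exact ⟨X' y, (LinearMap.congr_fun h y).symm⟩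

theorem rel {Y Z : Matrix B B (MonoidAlgebra Λ (Perm (Fin (n + m))))}
    (h : aW j k l (Y * L.TT n - Z * L.TT n) = 0) :
    V.a Y * V.a (L.TT n) = V.a Z * V.a (L.TT n) := by
  have h1 := V.hK _ h
  rw [map_sub, sub_eq_zero, map_mul, map_mul] at h1
  exact h1

theorem q_mem : ∀ x ∈ V.J, V.q x ∈ V.J :=
  V.pres (X' := V.a (L.rr n)) (by
    change V.a (L.rr n) * V.a (L.TT n) = _
    rw [← map_mul, ← map_mul, L.rr_TT])

/-- the ring -/
abbrev UU : Type := UJ V.J V.q V.q_mem

/-- the preserving operators -/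
noncomputable abbrev PP : Subring (Module.End Λ M) := PS V.J V.q

/-- the restriction -/
noncomputable abbrev rs : V.PP →+* V.UU := resJ V.J V.q V.q_mem

/-- the square root of two -/
noncomputable def qP : V.PP := ⟨V.q, V.q_mem, rfl⟩

/-- the naive flips -/
noncomputable def sP (σ : Perm (Fin n)) : V.PP := ⟨V.a (sS Λ B n m σ),
  V.pres (X' := V.a (sS Λ B n m σ)) (by rw [← map_mul, ← map_mul, L.sS_TT]), by
    change _ * V.a (L.rr n) = V.a (L.rr n) * _
    rw [← map_mul, ← map_mul, L.sS_rr]⟩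

/-- the letters -/
noncomputable def pP (i : Fin n) (x : R) : V.PP := ⟨V.ρ i x, V.pres (X' := V.ρ i x) (V.ρ_T i x).symm,
  (V.ρ_rr i x).symm⟩

/-- delta -/
noncomputable def dP (i : Fin n) : V.PP := ⟨V.a (L.lm n i),
  V.pres (X' := V.a (L.lm' n i)) (by
    have h := V.hK _ (L.rel_lm' i)
    rw [map_sub, sub_eq_zero] at h
    rw [← map_mul, ← map_mul, h]), by
    change _ * V.a (L.rr n) = V.a (L.rr n) * _
    rw [← map_mul, ← map_mul, L.rr_lm]⟩

/-- the plain flips -/
noncomputable def fP (σ : Perm (Fin n)) : V.PP := V.sP σ * sgO V.dP σ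

theorem fP_val (σ : Perm (Fin n)) : (V.fP σ).1 = V.a (L.fl σ) := by
  have h1 := sgO_map V.PP.subtype V.dP σ
  have h2 := sgO_map V.a (L.lm n) σ
  unfold fP fl
  rw [map_mul, h2]
  change V.a (sS Λ B n m σ) * (sgO V.dP σ : V.PP).1 = _
  congr 1

theorem fP_mul (σ τ : Perm (Fin n)) : V.rs (V.fP (σ * τ)) = V.rs (V.fP σ) * V.rs (V.fP τ) := by
  rw [← map_mul]
  refine resJ_eq _ (V.eq_on ?_)
  have h1 := V.rel (L.rel_fl σ τ)
  rw [map_mul] at h1
  change (V.fP (σ * τ)).1 * _ = (V.fP σ).1 * (V.fP τ).1 * _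
  rw [fP_val, fP_val, fP_val]
  exact h1.symm

/-- THE NAIVE EXOTIC SYSTEM -/
noncomputable def nex {n : ℕ} (V : RB L (n + 1) R M) : NEx n R V.UU where
  r := V.rs V.qP
  rc x := by
    have h := Subring.mem_centralizer_iff.1 x.2 _ rfl
    exact Subtype.ext h
  r_sq := by
    rw [← map_mul, ← map_ofNat V.rs 2]
    congr 1
    apply Subtype.ext
    change V.a (L.rr (n + 1)) * V.a (L.rr (n + 1)) = _
    rw [← map_mul, L.rr_sq, map_ofNat]
    rfl
  d i := V.rs (V.dP i)
  d_sq i := by
    rw [← map_mul, ← map_mul]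
    refine resJ_eq _ (V.eq_on ?_)
    have h1 := V.rel (L.rel_sq i)
    simp only [map_mul] at h1
    exact h1
  dc i i' := by
    rw [← map_mul, ← map_mul]
    refine resJ_eq _ (V.eq_on ?_)
    have h1 := V.rel (L.rel_comm i i')
    simp only [map_mul] at h1
    exact h1
  s :=
    { toFun := fun σ => V.rs (V.sP σ)
      map_one' := by
        rw [← map_one V.rs]
        congr 1
        apply Subtype.ext
        change V.a (sS Λ B (n + 1) m 1) = 1
        rw [sS_one, map_one]
      map_mul' := fun σ τ => by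
        rw [← map_mul]
        congr 1
        apply Subtype.ext
        change V.a (sS Λ B (n + 1) m (σ * τ))
          = V.a (sS Λ B (n + 1) m σ) * V.a (sS Λ B (n + 1) m τ)
        rw [sS_hom, map_mul] }
  sd σ i := by
    change V.rs (V.sP σ) * V.rs (V.dP i) = V.rs (V.dP (σ i)) * V.rs (V.sP σ)
    rw [← map_mul, ← map_mul]
    congr 1
    apply Subtype.ext
    change V.a (sS Λ B (n + 1) m σ) * V.a (L.lm (n + 1) i)
      = V.a (L.lm (n + 1) (σ i)) * V.a (sS Λ B (n + 1) m σ)
    rw [← map_mul, ← map_mul, L.sS_lm]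
  p i a := V.rs (V.pP i a)
  sp σ i a := by
    change V.rs (V.sP σ) * V.rs (V.pP i a) = V.rs (V.pP (σ i) a) * V.rs (V.sP σ)
    rw [← map_mul, ← map_mul]
    congr 1
    apply Subtype.ext
    exact V.ρ_s σ i a
  pp i i' h a b := by
    rw [← map_mul, ← map_mul]
    congr 1
    apply Subtype.ext
    exact V.ρ_comm i i' h a b
  pd i i' h a := by
    rw [← map_mul, ← map_mul]
    congr 1
    apply Subtype.ext
    exact (V.ρ_lm i i' h a).symm
  f :=
    { toFun := fun σ => V.rs (V.fP σ)
      map_one' := by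
        rw [← map_one V.rs]
        congr 1
        apply Subtype.ext
        rw [fP_val, fl_one, map_one]
        rfl
      map_mul' := fun σ τ => V.fP_mul σ τ }
  f_eq σ := by
    change V.rs (V.sP σ * sgO V.dP σ) = V.rs (V.sP σ) * sgO (fun i => V.rs (V.dP i)) σ
    rw [map_mul]
    exact congrArg (fun t => V.rs (V.sP σ) * t) (sgO_map V.rs V.dP σ)

theorem nex_f {n : ℕ} (V : RB L (n + 1) R M) (σ : Perm (Fin (n + 1))) :
    V.nex.f σ = V.rs (V.fP σ) := rfl

theorem nex_p {n : ℕ} (V : RB L (n + 1) R M) (i : Fin (n + 1)) (a : R) :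
    V.nex.p i a = V.rs (V.pP i a) := rfl

theorem nex_anti {n : ℕ} (V : RB L (n + 1) R M) : Anti V.nex.f (k + l) := by
  intro T hc
  unfold anti
  have h0 : ∀ σ : Perm (Fin (n + 1)), ((Perm.sign σ : ℤˣ) : ℤ) • V.nex.f σ
      = V.rs (((Perm.sign σ : ℤˣ) : ℤ) • V.fP σ) := by
    intro σ
    rw [map_zsmul]
    rfl
  rw [Finset.sum_congr rfl fun σ _ => h0 σ, ← map_sum, ← map_zero V.rs]
  refine resJ_eq _ (V.eq_on ?_)
  have h1 := V.hK _ (L.rel_anti T (by omega))
  rw [map_mul, map_sum] at h1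
  change (∑ σ ∈ permsOn T, ((Perm.sign σ : ℤˣ) : ℤ) • V.fP σ : V.PP).1 * _
    = (0 : V.PP).1 * _
  have h2 : (∑ σ ∈ permsOn T, ((Perm.sign σ : ℤˣ) : ℤ) • V.fP σ : V.PP).1
      = ∑ σ ∈ permsOn T, V.a (((Perm.sign σ : ℤˣ) : ℤ) • L.fl σ) := by
    have h3 : ∀ x : V.PP, x.1 = V.PP.subtype x := fun _ => rfl
    rw [h3, map_sum]
    refine Finset.sum_congr rfl fun σ _ => ?_
    rw [map_zsmul, map_zsmul, ← h3, V.fP_val]
  rw [h2, h1]
  change (0 : Module.End Λ M) = 0 * _
  rw [zero_mul]

end RB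

end CB

end Pool.PI34.XX

end

/-! ### part X_R5 -/
section

/-!
PI34, the prime `p = 2`, ring side, file R5: the representation of a ring of type `(k|l)`.
-/

set_option autoImplicit false
set_option linter.unusedSectionVars false
set_option linter.unusedSimpArgs false

namespace Pool.PI34.XX

open Equiv Finset
open Pool.PI34.Super (W Lt odd act mj tn ins EE gen plL phL phR phi pl sl ext eop EB prs mem_prs
  eps pv VL rhoL sL aL rhoH TypeKL)
open Pool.PI34.BA (anti permsOn Anti)

namespace CB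

variable {k l : ℕ} {Λ : Type} [CommRing Λ] {j : Λ →+* ℚ} {m : ℕ} {B : Type} [Fintype B]
  [DecidableEq B] {R : Type} [Ring R] [Algebra Λ R]

/-- the action of the matrices -/
noncomputable def aR (Λ : Type) [CommRing Λ] (B : Type) [Fintype B] [DecidableEq B]
    (R : Type) [Ring R] [Algebra Λ R] (N : ℕ) :
    Matrix B B (MonoidAlgebra Λ (Perm (Fin N))) →+* Module.End Λ (B → VL Λ R N) :=
  mE (aL Λ R N).toRingHom

theorem aR_apply {N : ℕ} (Y : Matrix B B (MonoidAlgebra Λ (Perm (Fin N)))) (x : B → VL Λ R N)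
    (b : B) : aR Λ B R N Y x b = ∑ b', aL Λ R N (Y b b') (x b') := rfl

theorem aR_zero {N : ℕ} (hT : TypeKL j k l N R)
    {Y : Matrix B B (MonoidAlgebra Λ (Perm (Fin N)))} (hY : aW j k l Y = 0) :
    aR Λ B R N Y = 0 := by
  refine LinearMap.ext fun x => funext fun b => ?_
  rw [aR_apply]
  exact Finset.sum_eq_zero fun b' _ => by rw [Super.aL_zero hT _ (aW_zero hY b b')]; rfl

/-- the letters -/
def rB (Λ : Type) [CommRing Λ] (B : Type) {R : Type} [Ring R] [Algebra Λ R] {N : ℕ} (i : Fin N)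
    (a : R) : Module.End Λ (B → VL Λ R N) := (rhoL (Λ := Λ) i a).compLeft B

theorem rB_apply {N : ℕ} (i : Fin N) (a : R) (x : B → VL Λ R N) (b : B) :
    rB Λ B i a x b = rhoL i a (x b) := rfl

theorem rho_comm {N : ℕ} (i i' : Fin N) (h : i ≠ i') (x y : R) :
    (rhoL (Λ := Λ) i x) * rhoL i' y = rhoL i' y * rhoL i x := by
  refine Super.endL_ext fun F r => ?_
  change F.1 (Function.update (Function.update r i (r i * x)) i'
      (Function.update r i (r i * x) i' * y)) =
    F.1 (Function.update (Function.update r i' (r i' * y)) i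
      (Function.update r i' (r i' * y) i * x))
  rw [Function.update_of_ne h.symm, Function.update_of_ne h, Function.update_comm h]

theorem rho_conj {N : ℕ} (g : Perm (Fin N)) (i : Fin N) (x : R) :
    aL Λ R N (MonoidAlgebra.of Λ _ g) * rhoL i x
      = rhoL (g i) x * aL Λ R N (MonoidAlgebra.of Λ _ g) := by
  rw [Super.aL_of]
  refine Super.endL_ext fun F r => ?_
  change F.1 (Function.update (r ∘ g) i ((r ∘ g) i * x)) =
    F.1 (Function.update r (g i) (r (g i) * x) ∘ g)
  have h0 : Function.update (r ∘ g) i ((r ∘ g) i * x) =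
      Function.update r (g i) (r (g i) * x) ∘ g := by
    funext l
    by_cases hl : l = i
    · subst hl
      simp
    · have h1 : g l ≠ g i := fun h2 => hl (g.injective h2)
      rw [Function.update_of_ne hl, Function.comp_apply, Function.comp_apply,
        Function.update_of_ne h1]
  rw [h0]

theorem rho_placed {N : ℕ} {κ : Type} [Fintype κ] [LinearOrder κ] (φ : κ ↪o Fin N)
    (y : MonoidAlgebra Λ (Perm κ)) (i : Fin N) (hi : i ∉ Set.range φ) (x : R) :
    aL Λ R N (plL Λ φ y) * rhoL i x = rhoL i x * aL Λ R N (plL Λ φ y) := by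
  induction y using MonoidAlgebra.induction_on with
  | of σ => rw [Super.plL_of, rho_conj, Super.ext_apply' _ _ _ hi]
  | add u v hu hv => rw [map_add, map_add, add_mul, mul_add, hu, hv]
  | smul c u hu => rw [Super.plL_smul, map_smul, smul_mul_assoc, mul_smul_comm, hu]

theorem rB_comm {N : ℕ} (i i' : Fin N) (h : i ≠ i') (x y : R) :
    rB Λ B i x * rB Λ B i' y = rB Λ B i' y * rB Λ B i x := by
  refine LinearMap.ext fun f => funext fun b => ?_
  exact LinearMap.congr_fun (rho_comm i i' h x y) (f b)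

theorem rB_placed {N : ℕ} {κ : Type} [Fintype κ] [LinearOrder κ] (φ : κ ↪o Fin N)
    (Y : Matrix B B (MonoidAlgebra Λ (Perm κ))) (i : Fin N) (hi : i ∉ Set.range φ) (x : R) :
    aR Λ B R N (plM Λ φ Y) * rB Λ B i x = rB Λ B i x * aR Λ B R N (plM Λ φ Y) := by
  refine LinearMap.ext fun f => funext fun b => ?_
  change ∑ b', aL Λ R N (plL Λ φ (Y b b')) (rhoL i x (f b'))
    = rhoL i x (∑ b', aL Λ R N (plL Λ φ (Y b b')) (f b'))
  rw [map_sum]
  exact Finset.sum_congr rfl fun b' _ =>
    LinearMap.congr_fun (rho_placed φ (Y b b') i hi x) (f b')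

variable (L : CB j k l m B)

theorem rB_rr {n : ℕ} (i : Fin (n + m)) (x : R) :
    aR Λ B R (n + m) (L.rr n) * rB Λ B i x = rB Λ B i x * aR Λ B R (n + m) (L.rr n) := by
  refine LinearMap.ext fun f => funext fun b => ?_
  change ∑ b', aL Λ R _ (algebraMap Λ _ (L.r b b')) (rhoL i x (f b'))
    = rhoL i x (∑ b', aL Λ R _ (algebraMap Λ _ (L.r b b')) (f b'))
  rw [map_sum]
  refine Finset.sum_congr rfl fun b' _ => ?_
  rw [AlgHom.commutes, Module.algebraMap_end_apply, Module.algebraMap_end_apply, map_smul]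

theorem rB_sS {n : ℕ} (σ : Perm (Fin n)) (i : Fin n) (x : R) :
    aR Λ B R (n + m) (sS Λ B n m σ) * rB Λ B (phL n m i) x
      = rB Λ B (phL n m (σ i)) x * aR Λ B R (n + m) (sS Λ B n m σ) := by
  refine LinearMap.ext fun f => funext fun b => ?_
  change ∑ b', aL Λ R _ (sS Λ B n m σ b b') (rhoL _ x (f b'))
    = rhoL _ x (∑ b', aL Λ R _ (sS Λ B n m σ b b') (f b'))
  have h1 : ∀ g : B → VL Λ R (n + m), ∑ b', aL Λ R _ (sS Λ B n m σ b b') (g b')
      = aL Λ R _ (MonoidAlgebra.of Λ _ (ext (phL n m) σ)) (g b) := by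
    intro g
    rw [Finset.sum_eq_single b]
    · rw [sS_apply, if_pos rfl]
    · intro b' _ hb
      rw [sS_apply, if_neg hb.symm, map_zero]
      rfl
    · intro h; exact absurd (mem_univ _) h
  rw [h1, h1]
  have h2 := LinearMap.congr_fun (rho_conj (Λ := Λ) (ext (phL n m) σ) (phL n m i) x) (f b)
  rw [Super.ext_apply] at h2
  exact h2

/-- THE REPRESENTATION of a ring of type `(k|l)` -/
noncomputable def ringRB {n : ℕ} (hT : TypeKL j k l (n + m) R) :
    RB L n R (B → VL Λ R (n + m)) where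
  a := aR Λ B R (n + m)
  hK _ hY := aR_zero hT hY
  ρ i x := rB Λ B (phL n m i) x
  ρ_comm i i' h x y := rB_comm _ _ (fun e => h ((phL n m).injective e)) x y
  ρ_T i x := rB_placed (phR n m) L.T _ (Super.phR_notMem i) x
  ρ_rr i x := L.rB_rr _ x
  ρ_lm i i' h x := by
    refine rB_placed (phi n m i') L.lam _ ?_ x
    rintro ⟨c, hc⟩
    rcases Fin.eq_zero_or_eq_succ c with rfl | ⟨c, rfl⟩
    · rw [Super.phi_zero] at hc
      exact h ((phL n m).injective hc).symm
    · rw [Super.phi_succ] at hc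
      exact Super.phR_notMem i ⟨c, hc⟩
  ρ_s σ i x := rB_sS σ i x

end CB

end Pool.PI34.XX

end

/-! ### part X_R6 -/
section

/-!
PI34, the prime `p = 2`, ring side, file R6: THE RING SIDE.
-/

set_option autoImplicit false
set_option linter.unusedSectionVars false
set_option linter.unusedSimpArgs false

namespace Pool.PI34.XX

open Equiv Finset
open Pool.PI34.Super (W Lt odd act mj bc tn ins EE gen plL phL phR phi pl sl ext eop EB prs mem_prs
  eps pv VL rhoL sL aL rhoH TypeKL ph1 fv monV)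
open Pool.PI34.Super.CatL (rg)
open Pool.PI34.C0 (capMono)
open Pool.PI34.BA (anti permsOn Anti)
open Pool.PI34.T1 (PureI MPI)

/-- the signed action on words without odd letters -/
theorem act_even {K n : ℕ} (Y : MonoidAlgebra ℤ (Perm (Fin n))) (g : W K 0 (Fin n))
    (w : Fin n → Lt K 0) : act K 0 _ (bc Y) g w = ∑ σ, (Y.coeff σ : ℚ) * g (w ∘ σ) := by
  have he : ∀ (σ : Perm (Fin n)) (u : Fin n → Lt K 0), eps σ (pv u) = 1 := by
    intro σ u
    unfold eps
    refine Finset.prod_eq_one fun q _ => ?_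
    rw [if_neg]
    unfold pv
    rcases u q.1 with a | a
    · simp
    · exact a.elim0
  have hbc : ∀ y : MonoidAlgebra ℤ (Perm (Fin n)), act K 0 _ (bc y) g w
      = ∑ σ, (y.coeff σ : ℚ) * g (w ∘ σ) := by
    intro y
    induction y using MonoidAlgebra.induction_on with
    | of τ =>
      have h1 : bc (MonoidAlgebra.of ℤ _ τ) = MonoidAlgebra.of ℚ _ τ := by
        simp [bc, MonoidAlgebra.of_apply]
      rw [h1, Super.act_of, Super.rho_apply, he, one_mul, Finset.sum_eq_single τ]
      · simp [MonoidAlgebra.of_apply]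
      · intro σ _ hσ
        simp only [MonoidAlgebra.of_apply, MonoidAlgebra.coeff_single]
        rw [Finsupp.single_eq_of_ne hσ]
        simp
      · intro h; exact absurd (mem_univ _) h
    | add x y hx hy =>
      rw [map_add, map_add, LinearMap.add_apply, Pi.add_apply, hx, hy, ← Finset.sum_add_distrib]
      refine Finset.sum_congr rfl fun σ _ => ?_
      rw [MonoidAlgebra.coeff_add, Finsupp.add_apply]
      push_cast
      ring
    | smul c x hx =>
      rw [map_zsmul, map_zsmul, LinearMap.smul_apply, Pi.smul_apply, hx, Finset.smul_sum]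
      refine Finset.sum_congr rfl fun σ _ => ?_
      rw [MonoidAlgebra.coeff_smul, Finsupp.smul_apply]
      simp only [smul_eq_mul, zsmul_eq_mul]
      push_cast
      ring
  exact hbc Y

namespace CB

variable {k l : ℕ} {Λ : Type} [CommRing Λ] {j : Λ →+* ℚ} {m : ℕ} {B : Type} [Fintype B]
  [DecidableEq B] (L : CB j k l m B)

/-- the value of `Y` at the plain flips -/
noncomputable def YY {n : ℕ} (Y : MonoidAlgebra ℤ (Perm (Fin n))) :
    Matrix B B (MonoidAlgebra Λ (Perm (Fin (n + 1 + m)))) :=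
  ∑ σ : Perm (Fin n), Y.coeff σ • L.fl (ext (Fin.succOrderEmb n) σ)

/-! ### the core -/

theorem RB.core {n : ℕ} {R M : Type} [Ring R] [AddCommGroup M] [Module Λ M]
    (V : RB L (n + 1) R M) (ρH : R →+* Module.End Λ M) (hρ : ∀ x, V.ρ 0 x = ρH x)
    (hinv : T2.Inv (T2.cop 2) Λ) (Y : MonoidAlgebra ℤ (Perm (Fin n)))
    {X : Type} (g : FreeAlgebra ℤ X)
    (hX : ∀ (Φ U : Type) [Ring Φ] [Ring U] (S : ExStr (Fin (n + 1)) Φ U),
      Anti S.f (k + l) → T2.Inv (T2.cop 2) U →
      ∀ π : FreeAlgebra ℤ X →+* Φ, S.ρ 0 (π g) * fval S.f Y = 0)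
    (π : FreeAlgebra ℤ X →+* R) :
    ρH (π g) * V.a (L.YY Y * L.TT (n + 1)) = 0 := by
  -- the letters
  let pP0 : R →+* V.PP := ρH.codRestrict V.PP (fun x => by rw [← hρ]; exact (V.pP 0 x).2)
  have hpP : ∀ x, pP0 x = V.pP 0 x := fun x => Subtype.ext (hρ x).symm
  let pU : R →+* V.UU := V.rs.comp pP0
  have hpU : ∀ x, pU x = V.nex.p 0 x := by
    intro x
    rw [RB.nex_p]
    change V.rs (pP0 x) = _
    rw [hpP]
  let pPh : R →+* V.nex.Ph := pU.codRestrict V.nex.Ph
    (fun x => by rw [hpU]; exact V.nex.p_mem x)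
  have h := hX _ _ V.nex.toEx V.nex_anti (inv_UJ _ hinv) (pPh.comp π)
  have h1 : V.nex.toEx.ρ 0 ((pPh.comp π) g) = V.rs (pP0 (π g)) := by
    change V.nex.rh 0 (pPh (π g)) = _
    rw [NEx.rh_zero]
    rfl
  have h2 : fval V.nex.toEx.f Y
      = V.rs (∑ σ : Perm (Fin n), Y.coeff σ • V.fP (ext (Fin.succOrderEmb n) σ)) := by
    unfold fval
    rw [map_sum]
    refine Finset.sum_congr rfl fun σ _ => ?_
    rw [map_zsmul]
    rfl
  rw [h1, h2, ← map_mul, ← map_zero V.rs] at h
  have h3 := V.of_eq_on (of_resJ_eq _ h)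
  have h4 : (∑ σ : Perm (Fin n), Y.coeff σ • V.fP (ext (Fin.succOrderEmb n) σ) : V.PP).1
      = V.a (L.YY Y) := by
    have h5 : ∀ x : V.PP, x.1 = V.PP.subtype x := fun _ => rfl
    rw [h5, map_sum]
    unfold YY
    rw [map_sum]
    refine Finset.sum_congr rfl fun σ _ => ?_
    rw [map_zsmul, map_zsmul, ← h5, V.fP_val]
  have h6 : (pP0 (π g) * ∑ σ : Perm (Fin n), Y.coeff σ • V.fP (ext (Fin.succOrderEmb n) σ) :
      V.PP).1 = ρH (π g) * V.a (L.YY Y) := by
    rw [← h4]
    rfl
  rw [h6] at h3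
  rw [map_mul, ← mul_assoc, h3]
  change (0 : Module.End Λ M) * _ = 0
  rw [zero_mul]

/-! ### the entries -/

/-- the matrices with entries in the group algebra of the strands `≠ 0` -/
def EM {n : ℕ} (Y : Matrix B B (MonoidAlgebra Λ (Perm (Fin (n + 1 + m))))) : Prop :=
  ∀ b b', Y b b' ∈ rg Λ n m

theorem EM_mul {n : ℕ} {Y Z : Matrix B B (MonoidAlgebra Λ (Perm (Fin (n + 1 + m))))}
    (hY : EM Y) (hZ : EM Z) : EM (Y * Z) := fun b b' => by
  rw [Matrix.mul_apply]
  exact Subring.sum_mem _ fun c _ => Subring.mul_mem _ (hY b c) (hZ c b')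

theorem EM_one {n : ℕ} : EM (1 : Matrix B B (MonoidAlgebra Λ (Perm (Fin (n + 1 + m))))) :=
  fun b b' => by
    rw [Matrix.one_apply]
    split_ifs
    · exact Subring.one_mem _
    · exact Subring.zero_mem _

theorem EM_sub {n : ℕ} {Y Z : Matrix B B (MonoidAlgebra Λ (Perm (Fin (n + 1 + m))))}
    (hY : EM Y) (hZ : EM Z) : EM (Y - Z) := fun b b' => Subring.sub_mem _ (hY b b') (hZ b b')

theorem EM_lm {n : ℕ} (i : Fin n) : EM (L.lm (n + 1) i.succ) := by
  intro b b'
  refine ⟨plL Λ (phi n m i) (L.lam b b'), ?_⟩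
  rw [Super.plL_trans _ _ (fun σ => Super.ext_trans _ _ σ), Super.phi_ph1]
  rfl

theorem EM_TT {n : ℕ} : EM (L.TT (n + 1)) := by
  intro b b'
  refine ⟨plL Λ (phR n m) (L.T b b'), ?_⟩
  rw [Super.plL_trans _ _ (fun σ => Super.ext_trans _ _ σ), Super.phR_ph1]
  rfl

theorem EM_sS {n : ℕ} (σ : Perm (Fin (n + 1))) (h : σ 0 = 0) : EM (sS Λ B (n + 1) m σ) := by
  intro b b'
  rw [sS_apply]
  split_ifs
  · apply Super.CatL.rg_of
    intro x hx
    by_cases h2 : x ∈ Set.range (phL (n + 1) m)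
    · obtain ⟨y, rfl⟩ := h2
      rw [Super.ext_apply]
      have h3 : (phL (n + 1) m y).val = y.val := rfl
      rw [h3] at hx
      have h4 : y = 0 := Fin.ext hx
      rw [h4, h]
    · exact Super.ext_apply' _ _ _ h2
  · exact Subring.zero_mem _

theorem EM_sg {n : ℕ} (σ : Perm (Fin (n + 1))) (h : σ 0 = 0) :
    EM (sgO (L.lm (n + 1)) σ) := by
  unfold sgO
  have key : ∀ K : List (Fin (n + 1) × Fin (n + 1)), (∀ q ∈ K, q ∈ prs (Fin (n + 1))) →
      EM ((K.map (fun q => if σ q.2 < σ q.1 then 1 - L.lm (n + 1) q.1 * L.lm (n + 1) q.2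
        else 1)).prod) := by
    intro K
    induction K with
    | nil => intro _; rw [List.map_nil, List.prod_nil]; exact EM_one
    | cons q K ih =>
      intro hK
      rw [List.map_cons, List.prod_cons]
      refine EM_mul ?_ (ih fun q hq => hK q (List.mem_cons_of_mem _ hq))
      have hy := hK q List.mem_cons_self
      rw [mem_prs] at hy
      split_ifs with h1
      · have h2 : q.1 ≠ 0 := by
          intro e
          rw [e, h] at h1
          exact absurd h1 (Fin.not_lt_zero _)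
        have h3 : q.2 ≠ 0 := by
          intro e
          rw [e] at hy
          exact absurd hy (Fin.not_lt_zero _)
        obtain ⟨a, ha⟩ := Fin.exists_succ_eq.2 h2
        obtain ⟨b, hb⟩ := Fin.exists_succ_eq.2 h3
        rw [← ha, ← hb]
        exact EM_sub EM_one (EM_mul (L.EM_lm a) (L.EM_lm b))
      · exact EM_one
  exact key _ (fun q hq => Finset.mem_toList.1 hq)

theorem ext_succ_zero {n : ℕ} (σ : Perm (Fin n)) : ext (Fin.succOrderEmb n) σ 0 = 0 := by
  apply Super.ext_apply'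
  rintro ⟨x, hx⟩
  exact absurd hx (Fin.succ_ne_zero _)

theorem EM_YY {n : ℕ} (Y : MonoidAlgebra ℤ (Perm (Fin n))) : EM (L.YY Y * L.TT (n + 1)) := by
  refine EM_mul (fun b b' => ?_) L.EM_TT
  unfold YY
  rw [Matrix.sum_apply]
  refine Subring.sum_mem _ fun σ _ => ?_
  rw [Matrix.smul_apply]
  refine Subring.zsmul_mem _ ?_ _
  unfold fl
  exact EM_mul (EM_sS _ (ext_succ_zero σ)) (L.EM_sg _ (ext_succ_zero σ)) b b'

/-! ### the nonvanishing -/

theorem aW_YY {n : ℕ} {x : B → W k l (Fin m)} (hx : x ∈ L.Xi)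
    (Y : MonoidAlgebra ℤ (Perm (Fin n))) (v : Fin (n + 1) → Lt k l) :
    aW j k l (L.YY Y) (tB B v x)
      = ∑ σ : Perm (Fin n), (Y.coeff σ : ℚ) •
        tB B (v ∘ ⇑(ext (Fin.succOrderEmb n) σ)⁻¹) x := by
  unfold YY
  rw [map_sum, LinearMap.sum_apply]
  refine Finset.sum_congr rfl fun σ _ => ?_
  rw [map_zsmul, LinearMap.smul_apply, L.aW_fl hx, Int.cast_smul_eq_zsmul]

theorem YY_ne {n : ℕ} (hkl : 0 < k + l) (Y : MonoidAlgebra ℤ (Perm (Fin n)))
    (hY : act (k + l) 0 _ (bc Y) ≠ 0) :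
    ∃ b b', act k l _ (mj j _ ((L.YY Y * L.TT (n + 1)) b b')) ≠ 0 := by
  classical
  by_contra hcon
  push Not at hcon
  have h0 := aW_of_zero hcon
  obtain ⟨f, hf1, hf2⟩ := L.hne
  obtain ⟨b0, hb0⟩ := Function.ne_iff.1 hf2
  obtain ⟨u0, hu0⟩ := Function.ne_iff.1 hb0
  obtain ⟨g, hg⟩ : ∃ g, act (k + l) 0 _ (bc Y) g ≠ 0 := by
    by_contra h
    push Not at h
    exact hY (LinearMap.ext h)
  obtain ⟨w0, hw0⟩ := Function.ne_iff.1 hg
  have e : Lt (k + l) 0 ≃ Lt k l := Fintype.equivOfCardEq (by simp)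
  let c0 : Lt k l := e (Sum.inl ⟨0, hkl⟩)
  let F : B → W k l (Fin (n + 1 + m)) :=
    ∑ u : Fin n → Lt k l, g (e.symm ∘ u) • tB B (Fin.cons c0 u : Fin (n + 1) → Lt k l) f
  have h1 := LinearMap.congr_fun h0 F
  rw [map_mul, Module.End.mul_apply] at h1
  have h2 : aW j k l (L.TT (n + 1)) F
      = ∑ u : Fin n → Lt k l, g (e.symm ∘ u) •
        tB B (Fin.cons c0 u : Fin (n + 1) → Lt k l) (aW j k l L.T f) := by
    rw [map_sum]
    exact Finset.sum_congr rfl fun u _ => by rw [map_smul, L.aW_TT]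
  rw [h2, map_sum] at h1
  have h3 := congrFun (congrFun h1 b0) (Fin.append (Fin.cons c0 (e ∘ w0) : Fin (n + 1) → Lt k l) u0)
  rw [LinearMap.zero_apply, Finset.sum_apply, Finset.sum_apply] at h3
  have hw1 : Fin.append (Fin.cons c0 (e ∘ w0) : Fin (n + 1) → Lt k l) u0 ∘ phL (n + 1) m
      = Fin.cons c0 (e ∘ w0) := by
    funext i; exact Fin.append_left _ u0 i
  have hw2 : Fin.append (Fin.cons c0 (e ∘ w0) : Fin (n + 1) → Lt k l) u0 ∘ phR (n + 1) m = u0 := by
    funext i; exact Fin.append_right _ u0 i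
  have h4 : ∀ (σ : Perm (Fin n)) (u : Fin n → Lt k l),
      ((Fin.cons c0 (e ∘ w0) : Fin (n + 1) → Lt k l)
        = (Fin.cons c0 u : Fin (n + 1) → Lt k l) ∘ ⇑(ext (Fin.succOrderEmb n) σ)⁻¹)
      ↔ u = e ∘ w0 ∘ σ := by
    intro σ u
    have hs : ∀ i : Fin n, (ext (Fin.succOrderEmb n) σ) i.succ = (σ i).succ := fun i =>
      Super.ext_apply (Fin.succOrderEmb n) σ i
    constructor
    · intro h
      funext i
      have h5 := congrFun h ((ext (Fin.succOrderEmb n) σ) i.succ)
      rw [Function.comp_apply, ← Perm.mul_apply, inv_mul_cancel, Perm.one_apply, hs,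
        Fin.cons_succ, Fin.cons_succ] at h5
      exact h5.symm
    · intro h
      subst h
      funext i
      obtain ⟨i', rfl⟩ := (ext (Fin.succOrderEmb n) σ).surjective i
      rw [Function.comp_apply, ← Perm.mul_apply, inv_mul_cancel, Perm.one_apply]
      rcases Fin.eq_zero_or_eq_succ i' with rfl | ⟨i', rfl⟩
      · rw [ext_succ_zero, Fin.cons_zero, Fin.cons_zero]
      · rw [hs, Fin.cons_succ, Fin.cons_succ]
        rfl
  have h5 : ∀ u : Fin n → Lt k l, aW j k l (L.YY Y) (g (e.symm ∘ u) •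
      tB B (Fin.cons c0 u : Fin (n + 1) → Lt k l) (aW j k l L.T f)) b0
      (Fin.append (Fin.cons c0 (e ∘ w0) : Fin (n + 1) → Lt k l) u0)
      = ∑ σ : Perm (Fin n), (if u = e ∘ w0 ∘ σ then g (e.symm ∘ u) * (Y.coeff σ : ℚ) *
        aW j k l L.T f b0 u0 else 0) := by
    intro u
    rw [map_smul, L.aW_YY hf1, Pi.smul_apply, Pi.smul_apply, Finset.sum_apply,
      Finset.sum_apply, smul_eq_mul, Finset.mul_sum]
    refine Finset.sum_congr rfl fun σ _ => ?_
    rw [Pi.smul_apply, Pi.smul_apply, tB_apply, Super.tn_apply, hw1, hw2, smul_eq_mul]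
    by_cases h6 : u = e ∘ w0 ∘ σ
    · rw [if_pos ((h4 σ u).2 h6), if_pos h6]
      ring
    · rw [if_neg (fun h7 => h6 ((h4 σ u).1 h7)), if_neg h6, mul_zero, mul_zero]
  rw [Finset.sum_congr rfl fun u _ => h5 u, Finset.sum_comm] at h3
  have h6 : ∀ σ : Perm (Fin n), ∑ u : Fin n → Lt k l, (if u = e ∘ w0 ∘ σ then
      g (e.symm ∘ u) * (Y.coeff σ : ℚ) * aW j k l L.T f b0 u0 else 0)
      = ((Y.coeff σ : ℚ) * g (w0 ∘ σ)) * aW j k l L.T f b0 u0 := by
    intro σ
    rw [Finset.sum_ite_eq' univ (e ∘ w0 ∘ σ), if_pos (mem_univ _)]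
    have h7 : e.symm ∘ (e ∘ w0 ∘ σ) = w0 ∘ σ := by
      funext i
      simp
    rw [h7]
    ring
  rw [Finset.sum_congr rfl fun σ _ => h6 σ, ← Finset.sum_mul, ← act_even] at h3
  rcases mul_eq_zero.1 h3 with h7 | h7
  · exact hw0 h7
  · exact hu0 h7

/-! ### rings -/

include L in
theorem P3X {n : ℕ} (hkl : 0 < k + l) (hinv : T2.Inv (T2.cop 2) Λ)
    (Y : MonoidAlgebra ℤ (Perm (Fin n))) (hY : act (k + l) 0 _ (bc Y) ≠ 0)
    (I : (X : Type) → Ideal (FreeAlgebra ℤ X))
    (hX : ∀ (Φ U : Type) [Ring Φ] [Ring U] (S : ExStr (Fin (n + 1)) Φ U),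
      Anti S.f (k + l) → T2.Inv (T2.cop 2) U →
      ∀ (X : Type) (π : FreeAlgebra ℤ X →+* Φ) (g : FreeAlgebra ℤ X), g ∈ I X →
        S.ρ 0 (π g) * fval S.f Y = 0) :
    ∃ Y0 : MonoidAlgebra Λ (Perm (Fin (n + m))), act k l _ (mj j _ Y0) ≠ 0 ∧
      ∀ (R : Type) [Ring R] [Algebra Λ R], TypeKL j k l (n + 1 + m) R →
        ∀ (X : Type) (π : FreeAlgebra ℤ X →+* R) (g : FreeAlgebra ℤ X), g ∈ I X →
          ∀ (τ : Perm (Fin (n + m))) (v : Fin (n + m + 1) → R) (r : Fin (n + m) → R),
          π g * fv (Y0 * MonoidAlgebra.of Λ _ τ) v r = 0 := by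
  obtain ⟨b, b', hb⟩ := L.YY_ne hkl Y hY
  obtain ⟨Y0, hY0⟩ := L.EM_YY Y b b'
  refine ⟨Y0, ?_, ?_⟩
  · apply Super.CatL.act_of_pl (Super.conv_ph1 n m)
    rw [← Super.mj_plL, hY0]
    exact hb
  · intro R _ _ hT X π g hg τ v r
    have hcore := RB.core L (L.ringRB hT)
      (⟨⟨⟨fun a => rB Λ B (phL (n + 1) m 0) a, ?_⟩, ?_⟩, ?_, ?_⟩) (fun _ => rfl) hinv Y g
      (fun Φ U _ _ S h1 h2 π => hX Φ U S h1 h2 X π g hg) π
    rotate_left
    · refine LinearMap.ext fun f => funext fun b => ?_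
      exact LinearMap.congr_fun ((rhoH (Λ := Λ) (phL (n + 1) m 0)).map_one) (f b)
    · intro x y
      refine LinearMap.ext fun f => funext fun b => ?_
      exact LinearMap.congr_fun ((rhoH (Λ := Λ) (phL (n + 1) m 0)).map_mul x y) (f b)
    · refine LinearMap.ext fun f => funext fun b => ?_
      exact LinearMap.congr_fun ((rhoH (Λ := Λ) (phL (n + 1) m 0)).map_zero) (f b)
    · intro x y
      refine LinearMap.ext fun f => funext fun b => ?_
      exact LinearMap.congr_fun ((rhoH (Λ := Λ) (phL (n + 1) m 0)).map_add x y) (f b)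
    have hent : rhoL (phL (n + 1) m 0) (π g) *
        aL Λ R (n + 1 + m) (plL Λ (ph1 n m) Y0) = 0 := by
      refine LinearMap.ext fun f => ?_
      have h1 := congrFun (LinearMap.congr_fun hcore (Pi.single b' f)) b
      change rhoL (phL (n + 1) m 0) (π g)
        (∑ c, aL Λ R (n + 1 + m) ((L.YY Y * L.TT (n + 1)) b c)
          ((Pi.single b' f : B → VL Λ R (n + 1 + m)) c)) = 0 at h1
      rw [Finset.sum_eq_single b'] at h1
      · rw [Pi.single_eq_same] at h1
        rw [hY0]
        exact h1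
      · intro c _ hc
        rw [Pi.single_eq_of_ne hc, map_zero]
      · intro h; exact absurd (mem_univ _) h
    have h : rhoL (phL (n + 1) m 0) (π g) * aL Λ R (n + 1 + m) (plL Λ (ph1 n m)
        (Y0 * MonoidAlgebra.of Λ _ τ)) = 0 := by
      rw [map_mul, map_mul, ← mul_assoc, hent, zero_mul]
    let v' : Fin (n + 1 + m + 1) → R := fun i =>
      if h : i.val = 0 then 1 else v ⟨i.val - 1, by omega⟩
    let r' : Fin (n + 1 + m) → R := fun i =>
      if h : i.val = 0 then 1 else r ⟨i.val - 1, by omega⟩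
    have h1 : (aL Λ R (n + 1 + m) (plL Λ (ph1 n m)
        (Y0 * MonoidAlgebra.of Λ _ τ)) (monV v' 1)).1
        (Function.update r' (phL (n + 1) m 0) (r' (phL (n + 1) m 0) * π g)) = 0 :=
      congrFun (congrArg Subtype.val (LinearMap.congr_fun h (monV v' 1))) r'
    rw [Super.aL_fv, Super.fv_pl] at h1
    have e1 : v' 0 = 1 := dif_pos rfl
    have e2 : (phL (n + 1) m 0) = (⟨0, by omega⟩ : Fin (n + 1 + m)) := rfl
    have e3 : r' ⟨0, by omega⟩ = 1 := dif_pos rfl
    rw [e2, Function.update_self, e1, e3, one_mul, one_mul] at h1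
    have e4 : (fun i : Fin (n + m + 1) => v' ⟨i.val + 1, by omega⟩) = v := by
      funext i
      change (if h : i.val + 1 = 0 then 1 else v ⟨i.val + 1 - 1, by omega⟩) = _
      rw [dif_neg (by omega)]
      rfl
    have e5 : Function.update r' ⟨0, by omega⟩ (π g) ∘ ph1 n m = r := by
      funext i
      have h2 : ph1 n m i ≠ ⟨0, by omega⟩ := by
        intro h3
        have := congrArg Fin.val h3
        rw [Super.ph1_val] at this
        simp at this
      rw [Function.comp_apply, Function.update_of_ne h2]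
      change (if h : (ph1 n m i).val = 0 then 1 else
        r ⟨(ph1 n m i).val - 1, by omega⟩) = _
      rw [dif_neg (by rw [Super.ph1_val]; omega)]
      rfl
    rw [e4, e5] at h1
    exact h1

end CB

/-- THE RING SIDE, from the model side -/
theorem ringSide (hM : ModelSide) : RingSide := by
  intro k l hkl hE hH
  obtain ⟨m, B, _, _, ⟨L⟩⟩ := hM k l hE
  obtain ⟨I, n, Y, hI, hY, hX⟩ := hH
  have hinvA : T2.Inv (T2.cop 2) (Super.Ap 2) := by
    intro s hs
    have h := Super.Ap_unit 2 hs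
    rw [eq_intCast, Int.cast_natCast] at h
    exact h
  obtain ⟨Y0, hY0, h⟩ := L.P3X hkl hinvA Y hY I (fun Φ U _ _ S h1 h2 => hX Φ U S h1 h2)
  obtain ⟨s, hs, y0, hy0⟩ := Super.clrA Y0
  refine ⟨I, n + 1 + m, n + m, y0, hI, ?_, ?_⟩
  · have h1 : act k l _ (bc y0) = ((s : ℕ) : ℚ) • act k l _ (mj (Super.jA 2) _ Y0) := by
      rw [← Super.mj_icA (p := 2), hy0, Super.mj_smul, map_smul, Super.jA_int]
      rfl
    rw [h1]
    intro h2
    rcases smul_eq_zero.1 h2 with h3 | h3
    · exact Super.cop_ne 2 hs (by exact_mod_cast h3)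
    · exact hY0 h3
  · intro U _ hU hT X π g hg τ v r
    let _ := Super.algA hU
    have h2 := h U (Super.typeA_of hU (hT _ le_rfl)) X π g hg τ v r
    have h3 : Super.icA 2 _ (y0 * MonoidAlgebra.of ℤ _ τ)
        = (algebraMap ℤ (Super.Ap 2) s) • (Y0 * MonoidAlgebra.of (Super.Ap 2) _ τ) := by
      rw [map_mul, hy0, Super.icA_of, smul_mul_assoc]
    rw [← Super.fv_icA (p := 2), h3, Super.fv_lsmul, mul_smul_comm, h2, smul_zero]

end Pool.PI34.XX

end
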