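import Pool.Agent.LibPI54.M01
import Pool.Agent.LibPI54.M03
import Pool.Agent.LibPI54.M42
import Pool.Agent.LibPI54.M48
import Pool.Agent.LibPI54.M51

/-! ### part T2_A -/
section

/-! PI34, theorem T2, file A: the values `fv y v r`, the ideal of values, quotients. -/

set_option autoImplicit false

namespace Pool.PI34.T2

open Equiv Finset
open Pool.PI34.C0 Pool.PI34.T1
open Pool.PI34.Super (act bc fv KN mm plL ext ext_apply ext_apply' plL_of fv_zsmul)

variable {U V : Type} [Ring U] [Ring V] {n : ℕ}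

theorem fv_def (y : MonoidAlgebra ℤ (Perm (Fin n))) (v : Fin (n + 1) → U) (r : Fin n → U) :
    fv y v r = ∑ σ, (y.coeff σ : ℤ) • capMono v r σ := by
  unfold fv
  refine Finset.sum_congr rfl fun σ _ => ?_
  rfl

theorem fv_add (y z : MonoidAlgebra ℤ (Perm (Fin n))) (v : Fin (n + 1) → U) (r : Fin n → U) :
    fv (y + z) v r = fv y v r + fv z v r := by
  rw [fv_def, fv_def, fv_def, ← Finset.sum_add_distrib]
  refine Finset.sum_congr rfl fun σ _ => ?_
  rw [MonoidAlgebra.coeff_add, Finsupp.add_apply, add_smul]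

theorem fv_zero (v : Fin (n + 1) → U) (r : Fin n → U) :
    fv (0 : MonoidAlgebra ℤ (Perm (Fin n))) v r = 0 := by
  rw [fv_def]
  refine Finset.sum_eq_zero fun σ _ => ?_
  rw [MonoidAlgebra.coeff_zero, Finsupp.zero_apply, zero_smul]

theorem fv_of (σ : Perm (Fin n)) (v : Fin (n + 1) → U) (r : Fin n → U) :
    fv (MonoidAlgebra.of ℤ _ σ) v r = capMono v r σ := by
  rw [fv_def, Finset.sum_eq_single σ]
  · rw [MonoidAlgebra.of_apply, MonoidAlgebra.coeff_single, Finsupp.single_eq_same, one_smul]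
  · intro b _ hb
    rw [MonoidAlgebra.of_apply, MonoidAlgebra.coeff_single, Finsupp.single_eq_of_ne hb, zero_smul]
  · intro h; exact absurd (Finset.mem_univ _) h

/-- the values as an additive map in `y` -/
noncomputable def fvH (v : Fin (n + 1) → U) (r : Fin n → U) :
    MonoidAlgebra ℤ (Perm (Fin n)) →+ U where
  toFun y := fv y v r
  map_zero' := fv_zero v r
  map_add' y z := fv_add y z v r

theorem fvH_apply (y : MonoidAlgebra ℤ (Perm (Fin n))) (v : Fin (n + 1) → U) (r : Fin n → U) :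
    fvH v r y = fv y v r := rfl

theorem fv_of_mul (σ : Perm (Fin n)) (y : MonoidAlgebra ℤ (Perm (Fin n)))
    (v : Fin (n + 1) → U) (r : Fin n → U) :
    fv (MonoidAlgebra.of ℤ _ σ * y) v r = fv y v (r ∘ σ) := by
  induction y using MonoidAlgebra.induction_on with
  | of τ =>
    rw [← map_mul, fv_of, fv_of]
    rfl
  | add x y hx hy => rw [mul_add, fv_add, fv_add, hx, hy]
  | smul c x hx => rw [mul_smul_comm, fv_zsmul, fv_zsmul, hx]

theorem map_fvA (f : U →+* V) (y : MonoidAlgebra ℤ (Perm (Fin n)))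
    (v : Fin (n + 1) → U) (r : Fin n → U) :
    f (fv y v r) = fv y (fun i => f (v i)) (fun i => f (r i)) := by
  induction y using MonoidAlgebra.induction_on with
  | of τ =>
    rw [fv_of, fv_of]
    unfold capMono
    rw [map_mul, map_list_prod, List.map_ofFn]
    congr 2
    congr 1
    funext i
    rw [Function.comp_apply, map_mul]
  | add x y hx hy => rw [fv_add, fv_add, map_add, hx, hy]
  | smul c x hx => rw [fv_zsmul, fv_zsmul, map_zsmul, hx]

theorem fv_left (c : U) (y : MonoidAlgebra ℤ (Perm (Fin n))) (v : Fin (n + 1) → U)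
    (r : Fin n → U) : fv y (Function.update v 0 (c * v 0)) r = c * fv y v r := by
  rw [fv_def, fv_def, Finset.mul_sum]
  refine Finset.sum_congr rfl fun σ _ => ?_
  rw [capMono_left, mul_smul_comm]

theorem fv_right (c : U) (y : MonoidAlgebra ℤ (Perm (Fin n))) (v : Fin (n + 1) → U)
    (r : Fin n → U) :
    fv y (Function.update v (Fin.last n) (v (Fin.last n) * c)) r = fv y v r * c := by
  rw [fv_def, fv_def, Finset.sum_mul]
  refine Finset.sum_congr rfl fun σ _ => ?_
  rw [capMono_right, smul_mul_assoc]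

/-! ### surjective images -/

theorem KN_of_surj {N k l : ℕ} (f : U →+* V) (hf : Function.Surjective f) (h : KN N k l n U) :
    KN N k l n V := by
  intro y hy v r
  choose v' hv' using fun i => hf (v i)
  choose r' hr' using fun i => hf (r i)
  have h1 := congrArg f (h y hy v' r')
  rw [map_nsmul, map_fvA, map_zero] at h1
  have e1 : (fun i => f (v' i)) = v := funext hv'
  have e2 : (fun i => f (r' i)) = r := funext hr'
  rw [e1, e2] at h1
  exact h1

theorem Typ_of_surj {k l q : ℕ} (f : U →+* V) (hf : Function.Surjective f) (h : Typ k l q U) :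
    Typ k l q V := fun n hn => KN_of_surj f hf (h n hn)

theorem QTyp_of_surj {k l q : ℕ} (f : U →+* V) (hf : Function.Surjective f)
    (h : QTyp k l q U) : QTyp k l q V := by
  obtain ⟨N, hN, h⟩ := h
  exact ⟨N, hN, fun n hn => KN_of_surj f hf (h n hn)⟩

theorem Typ_mono {k l q q' : ℕ} (hq : q' ≤ q) (h : Typ k l q U) : Typ k l q' U :=
  fun n hn => h n (hn.trans hq)

theorem QTyp_mono {k l q q' : ℕ} (hq : q' ≤ q) (h : QTyp k l q U) : QTyp k l q' U := by
  obtain ⟨N, hN, h⟩ := h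
  exact ⟨N, hN, fun n hn => h n (hn.trans hq)⟩

theorem QTyp_of_Typ {k l q : ℕ} (h : Typ k l q U) : QTyp k l q U := ⟨1, one_pos, h⟩

theorem Inv_of_hom {S : Set ℕ} (f : U →+* V) (h : Inv S U) : Inv S V := by
  intro s hs
  have h1 := (h s hs).map f
  rwa [map_natCast] at h1

theorem PIU_of_surj (f : U →+* V) (hf : Function.Surjective f) (h : PIU U) : PIU V := by
  obtain ⟨d, a, ha, h⟩ := h
  refine ⟨d, a, ha, fun x => ?_⟩
  choose x' hx' using fun i => hf (x i)
  have h1 := congrArg f (h x')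
  rw [map_sum, map_zero] at h1
  rw [← h1]
  refine Finset.sum_congr rfl fun σ _ => ?_
  rw [map_zsmul, G_mono_map]
  have e : (fun i => f (x' i)) = x := funext hx'
  rw [e]

/-! ### the ideal of values -/

/-- the group generated by the values of a family of elements -/
def valG (U : Type) [Ring U] (Y : (n : ℕ) → Set (MonoidAlgebra ℤ (Perm (Fin n)))) :
    AddSubgroup U :=
  AddSubgroup.closure {x : U | ∃ (n : ℕ) (y : MonoidAlgebra ℤ (Perm (Fin n)))
    (v : Fin (n + 1) → U) (r : Fin n → U), y ∈ Y n ∧ x = fv y v r}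

/-- the ideal generated by the values of a family of elements -/
def valI (U : Type) [Ring U] (Y : (n : ℕ) → Set (MonoidAlgebra ℤ (Perm (Fin n)))) : Ideal U where
  carrier := (valG U Y : Set U)
  zero_mem' := AddSubgroup.zero_mem (valG U Y)
  add_mem' ha hb := AddSubgroup.add_mem (valG U Y) ha hb
  smul_mem' := by
    intro c x hx
    change c * x ∈ valG U Y
    change x ∈ valG U Y at hx
    unfold valG at hx ⊢
    induction hx using AddSubgroup.closure_induction with
    | mem x hx =>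
      obtain ⟨n, y, v, r, hy, rfl⟩ := hx
      exact AddSubgroup.subset_closure ⟨n, y, _, r, hy, (fv_left c y v r).symm⟩
    | zero => rw [mul_zero]; exact AddSubgroup.zero_mem _
    | add a b _ _ ha hb => rw [mul_add]; exact AddSubgroup.add_mem _ ha hb
    | neg a _ ha => rw [mul_neg]; exact AddSubgroup.neg_mem _ ha

variable (Y : (n : ℕ) → Set (MonoidAlgebra ℤ (Perm (Fin n))))

theorem mem_valI {u : U} : u ∈ valI U Y ↔ u ∈ AddSubgroup.closure {x : U | ∃ (n : ℕ)
    (y : MonoidAlgebra ℤ (Perm (Fin n))) (v : Fin (n + 1) → U) (r : Fin n → U),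
      y ∈ Y n ∧ x = fv y v r} := by
  change u ∈ valG U Y ↔ _
  unfold valG
  exact Iff.rfl

theorem fv_mem_valI {y : MonoidAlgebra ℤ (Perm (Fin n))} (hy : y ∈ Y n) (v : Fin (n + 1) → U)
    (r : Fin n → U) : fv y v r ∈ valI U Y :=
  (mem_valI Y).2 (AddSubgroup.subset_closure ⟨n, y, v, r, hy, rfl⟩)

instance valI_twoSided : (valI U Y).IsTwoSided := by
  refine ⟨fun {x} c hx => ?_⟩
  rw [mem_valI] at hx ⊢
  induction hx using AddSubgroup.closure_induction with
  | mem x hx =>
    obtain ⟨n, y, v, r, hy, rfl⟩ := hx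
    exact AddSubgroup.subset_closure ⟨n, y, _, r, hy, (fv_right c y v r).symm⟩
  | zero => rw [zero_mul]; exact AddSubgroup.zero_mem _
  | add a b _ _ ha hb => rw [add_mul]; exact AddSubgroup.add_mem _ ha hb
  | neg a _ ha => rw [neg_mul]; exact AddSubgroup.neg_mem _ ha

/-- the values vanish in the quotient -/
theorem fv_quot {y : MonoidAlgebra ℤ (Perm (Fin n))} (hy : y ∈ Y n)
    (v : Fin (n + 1) → U ⧸ valI U Y) (r : Fin n → U ⧸ valI U Y) : fv y v r = 0 := by
  choose v' hv' using fun i => Ideal.Quotient.mk_surjective (I := valI U Y) (v i)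
  choose r' hr' using fun i => Ideal.Quotient.mk_surjective (I := valI U Y) (r i)
  have h1 : Ideal.Quotient.mk (valI U Y) (fv y v' r') = 0 :=
    Ideal.Quotient.eq_zero_iff_mem.2 (fv_mem_valI Y hy v' r')
  rw [map_fvA] at h1
  have e1 : (fun i => Ideal.Quotient.mk (valI U Y) (v' i)) = v := funext hv'
  have e2 : (fun i => Ideal.Quotient.mk (valI U Y) (r' i)) = r := funext hr'
  rw [e1, e2] at h1
  exact h1

/-- the left annihilator of an ideal -/
def lann (J : Ideal U) : Ideal U where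
  carrier := {u | ∀ x ∈ J, u * x = 0}
  zero_mem' := fun x _ => zero_mul x
  add_mem' := fun {a b} ha hb x hx => by rw [add_mul, ha x hx, hb x hx, add_zero]
  smul_mem' := fun c a ha x hx => by rw [smul_eq_mul, mul_assoc, ha x hx, mul_zero]

theorem mem_lann {J : Ideal U} {u : U} : u ∈ lann J ↔ ∀ x ∈ J, u * x = 0 := Iff.rfl

instance lann_twoSided (J : Ideal U) : (lann J).IsTwoSided := by
  refine ⟨fun {a} c ha => ?_⟩
  intro x hx
  rw [mul_assoc]
  exact ha _ (J.mul_mem_left c hx)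

/-- the elements which annihilate all the values annihilate the ideal of values -/
theorem mem_lann_valI {u : U} (h : ∀ (n : ℕ) (y : MonoidAlgebra ℤ (Perm (Fin n))), y ∈ Y n →
    ∀ (v : Fin (n + 1) → U) (r : Fin n → U), u * fv y v r = 0) : u ∈ lann (valI U Y) := by
  intro x hx
  rw [mem_valI] at hx
  induction hx using AddSubgroup.closure_induction with
  | mem x hx =>
    obtain ⟨n, y, v, r, hy, rfl⟩ := hx
    exact h n y hy v r
  | zero => rw [mul_zero]
  | add a b _ _ ha hb => rw [mul_add, ha, hb, add_zero]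
  | neg a _ ha => rw [mul_neg, ha, neg_zero]

end Pool.PI34.T2

end

/-! ### part T2_P -/
section

/-!
PI34, theorem T2, file P: the engines from (P3).
-/

set_option autoImplicit false

namespace Pool.PI34.T2

open Equiv Finset
open Pool.PI34.C0 Pool.PI34.T1
open Pool.PI34.Super (act bc fv KN mm)

/-- the engine of the determinant catalyst -/
theorem engine_P3 (k l : ℕ) (hkl : 0 < k + l) : ∃ D : ℕ, 0 < D ∧ Engine {D} k l := by
  obtain ⟨D, y0, hD, hy0, h⟩ := Super.P3Z k l hkl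
  refine ⟨D, hD, fun X => (SS.QI (k + l) X : Ideal (SS.FA X)), 2 * (k + l) + 1 + mm k l, _, y0,
    ?_, hy0, ?_⟩
  · intro X
    refine ⟨(inferInstance : (SS.QI (k + l) X).IsTwoSided), ?_, ?_⟩
    · intro m g hm hg
      exact SS.QQ_pure (k + l) X m g hm hg
    · obtain ⟨d, a, ha, h1⟩ := SS.QQ_MPI (k + l)
      exact ⟨d, a, ha, fun x => h1 X x⟩
  · intro U _ hU hT X π g hg τ v r
    have h1 := SS.FA.ext (A := U) π (SS.FA.lift (fun x => π (FreeAlgebra.ι ℤ x)))
      (fun x => by rw [SS.FA.lift_of]; rfl) g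
    have h2 := h U (hU D rfl) (hT _ le_rfl) g hg (fun x => π (FreeAlgebra.ι ℤ x)) τ v r
    exact (congrArg (fun t : U => t * fv (y0 * MonoidAlgebra.of ℤ _ τ) v r) h1).trans h2

end Pool.PI34.T2

end

/-! ### part T2_C -/
section

/-! PI34, theorem T2, file C: products of values, blocks. -/

set_option autoImplicit false

namespace Pool.PI34.T2

open Equiv Finset
open Pool.PI34.C0 Pool.PI34.T1
open Pool.PI34.Super (act bc fv KN mm plL pl pl_of pl_trans ext ext_apply ext_apply' plL_of plL_smul fv_zsmul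
  phL phR phR_notMem phL_notMem Blk DisjB prodB Conv mj_plL conv_phL conv_phR)

variable {U : Type} [Ring U] {p q : ℕ}

theorem bc_plL {d N : ℕ} (φ : Fin d ↪o Fin N) (y : MonoidAlgebra ℤ (Perm (Fin d))) :
    bc (plL ℤ φ y) = pl φ (bc y) := mj_plL (Int.castRingHom ℚ) φ y

theorem blk_left (σ : Perm (Fin p)) (τ : Perm (Fin q)) (i : Fin p) :
    (ext (phL p q) σ * ext (phR p q) τ) (Fin.castAdd q i) = Fin.castAdd q (σ i) := by
  rw [Perm.mul_apply, ext_apply' (phR p q) τ (Fin.castAdd q i) (phR_notMem i)]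
  exact ext_apply (phL p q) σ i

theorem blk_right (σ : Perm (Fin p)) (τ : Perm (Fin q)) (i : Fin q) :
    (ext (phL p q) σ * ext (phR p q) τ) (Fin.natAdd p i) = Fin.natAdd p (τ i) := by
  have h1 : ext (phR p q) τ (Fin.natAdd p i) = Fin.natAdd p (τ i) := ext_apply (phR p q) τ i
  rw [Perm.mul_apply, h1]
  exact ext_apply' (phL p q) σ _ (phL_notMem (τ i))

theorem capMono_append (v1 : Fin (p + 1) → U) (r1 : Fin p → U) (v2 : Fin (q + 1) → U)
    (r2 : Fin q → U) (h : v2 0 = 1) (σ : Perm (Fin p)) (τ : Perm (Fin q)) :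
    capMono v1 r1 σ * capMono v2 r2 τ =
      capMono (Fin.cons (v1 0) (Fin.append (fun i => v1 i.succ) (fun i => v2 i.succ)))
        (Fin.append r1 r2) (ext (phL p q) σ * ext (phR p q) τ) := by
  unfold capMono
  rw [h, one_mul, Fin.cons_zero, mul_assoc, List.ofFn_add, List.prod_append]
  congr 3
  · congr 1
    funext i
    have h1 := blk_left σ τ i
    have h2 : (Fin.castLE (Nat.le_add_right p q) i) = Fin.castAdd q i := rfl
    simp only [Fin.cons_succ]
    rw [h2, h1, Fin.append_left, Fin.append_left]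
  · congr 1
    funext i
    simp only [Fin.cons_succ]
    rw [blk_right, Fin.append_right, Fin.append_right]

theorem fv_append (y1 : MonoidAlgebra ℤ (Perm (Fin p))) (v1 : Fin (p + 1) → U) (r1 : Fin p → U)
    (y2 : MonoidAlgebra ℤ (Perm (Fin q))) (v2 : Fin (q + 1) → U) (r2 : Fin q → U)
    (h : v2 0 = 1) :
    fv y1 v1 r1 * fv y2 v2 r2 = fv (plL ℤ (phL p q) y1 * plL ℤ (phR p q) y2)
      (Fin.cons (v1 0) (Fin.append (fun i => v1 i.succ) (fun i => v2 i.succ)))
        (Fin.append r1 r2) := by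
  induction y1 using MonoidAlgebra.induction_on with
  | of σ =>
    induction y2 using MonoidAlgebra.induction_on with
    | of τ => rw [plL_of, plL_of, ← map_mul, fv_of, fv_of, fv_of, capMono_append v1 r1 v2 r2 h]
    | add x y hx hy => rw [map_add, mul_add, fv_add, fv_add, mul_add, hx, hy]
    | smul c x hx =>
      rw [plL_smul, mul_smul_comm, fv_zsmul, fv_zsmul, mul_smul_comm, hx]
  | add x y hx hy => rw [map_add, add_mul, fv_add, fv_add, add_mul, hx, hy]
  | smul c x hx =>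
    rw [plL_smul, smul_mul_assoc, fv_zsmul, fv_zsmul, smul_mul_assoc, hx]

theorem fv_mul (y1 : MonoidAlgebra ℤ (Perm (Fin p))) (v1 : Fin (p + 1) → U) (r1 : Fin p → U)
    (y2 : MonoidAlgebra ℤ (Perm (Fin q))) (v2 : Fin (q + 1) → U) (r2 : Fin q → U) :
    ∃ (v : Fin (p + q + 1) → U) (r : Fin (p + q) → U),
      fv y1 v1 r1 * fv y2 v2 r2 = fv (plL ℤ (phL p q) y1 * plL ℤ (phR p q) y2) v r := by
  have h0 : fv y2 v2 r2 = v2 0 * fv y2 (Function.update v2 0 1) r2 := by
    rw [← fv_left, Function.update_self, mul_one, Function.update_idem, Function.update_eq_self]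
  rw [h0, ← mul_assoc, ← fv_right]
  exact ⟨_, _, fv_append y1 _ r1 y2 _ r2 (Function.update_self _ _ _)⟩

/-! ### blocks -/

/-- a block shifted to the right -/
def shB (p : ℕ) (B : Blk (Fin q)) : Blk (Fin (p + q)) where
  sz := B.sz
  φ := B.φ.trans (phR p q)
  conv := by
    intro x hx
    by_cases h : x ∈ Set.range (phR p q)
    · obtain ⟨z, rfl⟩ := h
      have hz : z ∉ Set.range B.φ := by
        rintro ⟨a, rfl⟩
        exact hx ⟨a, rfl⟩
      rcases B.conv z hz with h1 | h1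
      · left
        intro a
        exact (phR p q).lt_iff_lt.2 (h1 a)
      · right
        intro a
        exact (phR p q).lt_iff_lt.2 (h1 a)
    · left
      intro a
      have h1 : ∀ b, x < phR p q b ∨ ¬ (x < phR p q b) := fun b => em _
      rcases h1 (B.φ a) with h2 | h2
      · exact h2
      · exfalso
        apply h
        have h3 : p ≤ x.val := by
          have h4 : (phR p q (B.φ a)).val = p + (B.φ a).val := rfl
          have h5 : (phR p q (B.φ a)).val ≤ x.val := not_lt.1 h2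
          omega
        refine ⟨⟨x.val - p, by omega⟩, Fin.ext ?_⟩
        change p + (x.val - p) = x.val
        omega
  y := B.y

theorem prodB_shB (L : List (Blk (Fin q))) :
    prodB (L.map (shB p)) = pl (phR p q) (prodB L) := by
  unfold prodB
  rw [map_list_prod, List.map_map, List.map_map]
  congr 2
  funext B
  simp only [Function.comp_apply]
  rw [pl_trans]
  rfl

theorem prodB_append (L L' : List (Blk (Fin q))) : prodB (L ++ L') = prodB L * prodB L' := by
  unfold prodB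
  rw [List.map_append, List.prod_append]

theorem pairwise_shB (L : List (Blk (Fin q))) (h : L.Pairwise DisjB) :
    (L.map (shB p)).Pairwise DisjB := by
  rw [List.pairwise_map]
  refine h.imp ?_
  intro B B' hB a b h1
  exact hB a b ((phR p q).injective h1)

/-- the first block -/
noncomputable def firstB (p q : ℕ) (y : MonoidAlgebra ℤ (Perm (Fin p))) : Blk (Fin (p + q)) where
  sz := p
  φ := phL p q
  conv := conv_phL
  y := bc y

theorem disj_first (y : MonoidAlgebra ℤ (Perm (Fin p))) (B : Blk (Fin q)) :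
    DisjB (firstB p q y) (shB p B) := by
  intro a b h
  exact phR_notMem (n := p) (m := q) a ⟨B.φ b, h.symm⟩

/-- `c` blocks of `K(k|l+1)` and `c'` blocks of `K(k+1|l)` -/
def Good (k l c c' N : ℕ) (z : MonoidAlgebra ℤ (Perm (Fin N))) : Prop :=
  ∃ L L' : List (Blk (Fin N)), bc z = prodB (L ++ L') ∧ (L ++ L').Pairwise DisjB ∧
    L.length = c ∧ L'.length = c' ∧ (∀ B ∈ L, act k (l + 1) _ B.y = 0) ∧
    (∀ B ∈ L', act (k + 1) l _ B.y = 0)

theorem good_one (k l N : ℕ) : Good k l 0 0 N 1 :=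
  ⟨[], [], by rw [map_one]; rfl, List.Pairwise.nil, rfl, rfl, fun _ h => absurd h (by simp),
    fun _ h => absurd h (by simp)⟩

theorem good_consR {k l c' : ℕ} {y : MonoidAlgebra ℤ (Perm (Fin p))}
    (hy : act (k + 1) l _ (bc y) = 0) {z : MonoidAlgebra ℤ (Perm (Fin q))}
    (h : Good k l 0 c' q z) :
    Good k l 0 (c' + 1) (p + q) (plL ℤ (phL p q) y * plL ℤ (phR p q) z) := by
  obtain ⟨L, L', h1, h2, h3, h4, h5, h6⟩ := h
  have hL : L = [] := List.length_eq_zero_iff.1 h3
  subst hL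
  rw [List.nil_append] at h1 h2
  refine ⟨[], firstB p q y :: L'.map (shB p), ?_, ?_, rfl, ?_, fun _ h => absurd h (by simp), ?_⟩
  · rw [map_mul, bc_plL, bc_plL, h1, ← prodB_shB, List.nil_append]
    rfl
  · rw [List.nil_append, List.pairwise_cons]
    refine ⟨?_, pairwise_shB L' h2⟩
    intro B hB
    obtain ⟨B', _, rfl⟩ := List.mem_map.1 hB
    exact disj_first y B'
  · rw [List.length_cons, List.length_map, h4]
  · intro B hB
    rcases List.mem_cons.1 hB with rfl | hB
    · exact hy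
    · obtain ⟨B', hB', rfl⟩ := List.mem_map.1 hB
      exact h6 B' hB'

theorem good_consL {k l c c' : ℕ} {y : MonoidAlgebra ℤ (Perm (Fin p))}
    (hy : act k (l + 1) _ (bc y) = 0) {z : MonoidAlgebra ℤ (Perm (Fin q))}
    (h : Good k l c c' q z) :
    Good k l (c + 1) c' (p + q) (plL ℤ (phL p q) y * plL ℤ (phR p q) z) := by
  obtain ⟨L, L', h1, h2, h3, h4, h5, h6⟩ := h
  refine ⟨firstB p q y :: L.map (shB p), L'.map (shB p), ?_, ?_, ?_, ?_, ?_, ?_⟩
  · rw [map_mul, bc_plL, bc_plL, h1, ← prodB_shB, List.map_append]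
    rfl
  · rw [List.cons_append, ← List.map_append, List.pairwise_cons]
    refine ⟨?_, pairwise_shB _ h2⟩
    intro B hB
    obtain ⟨B', _, rfl⟩ := List.mem_map.1 hB
    exact disj_first y B'
  · rw [List.length_cons, List.length_map, h3]
  · rw [List.length_map, h4]
  · intro B hB
    rcases List.mem_cons.1 hB with rfl | hB
    · exact hy
    · obtain ⟨B', hB', rfl⟩ := List.mem_map.1 hB
      exact h5 B' hB'
  · intro B hB
    obtain ⟨B', hB', rfl⟩ := List.mem_map.1 hB
    exact h6 B' hB'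

/-- the group of the values of the products of blocks -/
def PG (U : Type) [Ring U] (k l m q' c c' : ℕ) : AddSubgroup U :=
  AddSubgroup.closure {x : U | ∃ (N : ℕ) (z : MonoidAlgebra ℤ (Perm (Fin N)))
    (v : Fin (N + 1) → U) (r : Fin N → U), m ≤ N ∧ N ≤ m + (c + c') * q' ∧
      Good k l c c' N z ∧ x = fv z v r}

theorem one_mem_PG (k l m q' : ℕ) : (1 : U) ∈ PG U k l m q' 0 0 := by
  refine AddSubgroup.subset_closure ⟨m, 1, fun _ => 1, fun _ => 1, le_rfl, by simp,
    good_one k l m, ?_⟩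
  have h1 : (1 : MonoidAlgebra ℤ (Perm (Fin m))) = MonoidAlgebra.of ℤ _ 1 := (map_one _).symm
  rw [h1, fv_of]
  unfold capMono
  simp

/-- `K(k|l)_n`, `n ≤ q'` -/
def YK (k l q' : ℕ) (n : ℕ) : Set (MonoidAlgebra ℤ (Perm (Fin n))) :=
  {y | n ≤ q' ∧ act k l _ (bc y) = 0}

theorem closure_mul_mem {A B : Set U} {C : AddSubgroup U}
    (h : ∀ a ∈ A, ∀ b ∈ B, a * b ∈ C) {a b : U} (ha : a ∈ AddSubgroup.closure A)
    (hb : b ∈ AddSubgroup.closure B) : a * b ∈ C := by
  induction ha using AddSubgroup.closure_induction with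
  | mem a ha =>
    induction hb using AddSubgroup.closure_induction with
    | mem b hb => exact h a ha b hb
    | zero => rw [mul_zero]; exact C.zero_mem
    | add x y _ _ hx hy => rw [mul_add]; exact C.add_mem hx hy
    | neg x _ hx => rw [mul_neg]; exact C.neg_mem hx
  | zero => rw [zero_mul]; exact C.zero_mem
  | add x y _ _ hx hy => rw [add_mul]; exact C.add_mem hx hy
  | neg x _ hx => rw [neg_mul]; exact C.neg_mem hx

theorem mul_PG_R {k l m q' c' : ℕ} {a b : U} (ha : a ∈ valI U (YK (k + 1) l q'))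
    (hb : b ∈ PG U k l m q' 0 c') : a * b ∈ PG U k l m q' 0 (c' + 1) := by
  rw [mem_valI] at ha
  refine closure_mul_mem ?_ ha hb
  rintro _ ⟨n, y, v, r, ⟨hn, hy⟩, rfl⟩ _ ⟨N, z, v', r', h1, h2, h3, rfl⟩
  obtain ⟨v'', r'', h4⟩ := fv_mul y v r z v' r'
  rw [h4]
  refine AddSubgroup.subset_closure ⟨n + N, _, v'', r'', by omega, ?_, good_consR hy h3, rfl⟩
  have : (0 + (c' + 1)) * q' = (0 + c') * q' + q' := by ring
  omega

theorem mul_PG_L {k l m q' c c' : ℕ} {a b : U} (ha : a ∈ valI U (YK k (l + 1) q'))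
    (hb : b ∈ PG U k l m q' c c') : a * b ∈ PG U k l m q' (c + 1) c' := by
  rw [mem_valI] at ha
  refine closure_mul_mem ?_ ha hb
  rintro _ ⟨n, y, v, r, ⟨hn, hy⟩, rfl⟩ _ ⟨N, z, v', r', h1, h2, h3, rfl⟩
  obtain ⟨v'', r'', h4⟩ := fv_mul y v r z v' r'
  rw [h4]
  refine AddSubgroup.subset_closure ⟨n + N, _, v'', r'', by omega, ?_, good_consL hy h3, rfl⟩
  have : (c + 1 + c') * q' = (c + c') * q' + q' := by ring
  omega

end Pool.PI34.T2

end

/-! ### part T2_B -/
section

/-! PI34, theorem T2, file B: values of placed elements. -/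

set_option autoImplicit false

namespace Pool.PI34.T2

open Equiv Finset
open Pool.PI34.C0 Pool.PI34.T1
open Pool.PI34.Super (act bc fv KN mm plL ext ext_apply ext_apply' plL_of plL_smul fv_zsmul)

variable {U : Type} [Ring U] {d N : ℕ}

/-- the letters outside the range of `φ` are absorbed in the coefficients -/
theorem cap_place (φ : Fin d ↪o Fin N) (τ : Perm (Fin N)) (v : Fin (N + 1) → U)
    (r : Fin N → U) : ∃ (π : Perm (Fin d)) (v' : Fin (d + 1) → U), ∀ ρ : Perm (Fin d),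
      capMono v r (ext φ ρ * τ) = capMono v' (r ∘ φ) (ρ * π) := by
  classical
  obtain ⟨k', p, w0, w, hp, hpS, hz⟩ := exists_split N (v 0) (fun i => v i.succ)
    (univ.filter fun i : Fin N => τ i ∈ Set.range φ) (fun i => r (τ i))
  have hpT : ∀ j, ∃ a, φ a = τ (p j) := by
    intro j
    have h1 := (hpS (p j)).2 ⟨j, rfl⟩
    simpa using h1
  choose π hπ using hpT
  have hbij : Function.Bijective π := by
    constructor
    · intro a b hab
      apply hp
      apply τ.injective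
      rw [← hπ a, ← hπ b, hab]
    · intro x
      have h1 : τ.symm (φ x) ∈ univ.filter fun i : Fin N => τ i ∈ Set.range φ := by
        simp
      obtain ⟨j, hj⟩ := (hpS _).1 h1
      refine ⟨j, φ.injective ?_⟩
      rw [hπ, hj, Equiv.apply_symm_apply]
  have hk : k' = d := by
    have h1 := Fintype.card_congr (Equiv.ofBijective π hbij)
    rwa [Fintype.card_fin, Fintype.card_fin] at h1
  subst hk
  refine ⟨Equiv.ofBijective π hbij, Fin.cons w0 w, fun ρ => ?_⟩
  unfold capMono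
  rw [hz (fun i => r ((ext φ ρ * τ) i))]
  · simp only [Fin.cons_zero, Fin.cons_succ]
    congr 2
    congr 1
    funext j
    rw [Perm.mul_apply, ← hπ j, ext_apply]
    rfl
  · intro i hi
    have hi' : τ i ∉ Set.range φ := by simpa using hi
    change r ((ext φ ρ * τ) i) = _
    rw [Perm.mul_apply, ext_apply' φ ρ (τ i) hi']

theorem fv_place (φ : Fin d ↪o Fin N) (τ : Perm (Fin N)) (v : Fin (N + 1) → U)
    (r : Fin N → U) : ∃ (π : Perm (Fin d)) (v' : Fin (d + 1) → U),
      ∀ y : MonoidAlgebra ℤ (Perm (Fin d)), fv (plL ℤ φ y * MonoidAlgebra.of ℤ _ τ) v r =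
        fv (y * MonoidAlgebra.of ℤ _ π) v' (r ∘ φ) := by
  obtain ⟨π, v', h⟩ := cap_place φ τ v r
  refine ⟨π, v', fun y => ?_⟩
  induction y using MonoidAlgebra.induction_on with
  | of ρ => rw [plL_of, ← map_mul, ← map_mul, fv_of, fv_of, h]
  | add x y hx hy => rw [map_add, add_mul, add_mul, fv_add, fv_add, hx, hy]
  | smul c x hx =>
    rw [plL_smul, smul_mul_assoc, smul_mul_assoc, fv_zsmul, fv_zsmul, hx]

/-- if the values of all the `y0 * τ` vanish then the values of the two-sided ideal generated by a placed `y0` vanish -/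
theorem place (y0 : MonoidAlgebra ℤ (Perm (Fin d)))
    (h : ∀ (τ : Perm (Fin d)) (v : Fin (d + 1) → U) (r : Fin d → U),
      fv (y0 * MonoidAlgebra.of ℤ _ τ) v r = 0) (φ : Fin d ↪o Fin N)
    (a b : MonoidAlgebra ℤ (Perm (Fin N))) (v : Fin (N + 1) → U) (r : Fin N → U) :
    fv (a * plL ℤ φ y0 * b) v r = 0 := by
  have h1 : ∀ (τ : Perm (Fin N)) (v : Fin (N + 1) → U) (r : Fin N → U),
      fv (plL ℤ φ y0 * MonoidAlgebra.of ℤ _ τ) v r = 0 := by
    intro τ v r
    obtain ⟨π, v', h2⟩ := fv_place φ τ v r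
    rw [h2]
    exact h _ _ _
  have h2 : ∀ (b : MonoidAlgebra ℤ (Perm (Fin N))) (v : Fin (N + 1) → U) (r : Fin N → U),
      fv (plL ℤ φ y0 * b) v r = 0 := by
    intro b v r
    induction b using MonoidAlgebra.induction_on with
    | of τ => exact h1 τ v r
    | add x y hx hy => rw [mul_add, fv_add, hx, hy, add_zero]
    | smul c x hx => rw [mul_smul_comm, fv_zsmul, hx, smul_zero]
  induction a using MonoidAlgebra.induction_on with
  | of σ => rw [mul_assoc, fv_of_mul]; exact h2 b _ _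
  | add x y hx hy => rw [add_mul, add_mul, fv_add, hx, hy, add_zero]
  | smul c x hx => rw [smul_mul_assoc, smul_mul_assoc, fv_zsmul, hx, smul_zero]

end Pool.PI34.T2

end

/-! ### part T2_E0 -/
section

/-! PI34, theorem T2, file E0: the types `(0|l)` and `(k|0)`. -/

set_option autoImplicit false

namespace Pool.PI34.T2

open Equiv Finset
open Pool.PI34.C0 Pool.PI34.T1
open Pool.PI34.Super (act bc bc_of bc_smul fv KN eps eps_mul eps_sq pv W Lt rho rho_apply act_of
  eps_swap_zero pm bsg_self fv_zsmul)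

/-- all the letters odd: the sign -/
def chi {n : ℕ} (σ : Perm (Fin n)) : ℚ := eps σ (fun _ => true)

theorem chi_mul {n : ℕ} (σ τ : Perm (Fin n)) : chi (σ * τ) = chi σ * chi τ := eps_mul σ τ _

theorem chi_sq {n : ℕ} (σ : Perm (Fin n)) : chi σ * chi σ = 1 := eps_sq σ _

theorem chi_swap_zero {n : ℕ} (s : Fin n) : chi (swap (0 : Fin (n + 1)) s.succ) = -1 := by
  have h := eps_swap_zero (k := 0) (l := 1) (fun _ : Fin n => Sum.inr 0) s (Sum.inr 0)
  have h1 : pv (Fin.cons ((fun _ : Fin n => (Sum.inr 0 : Lt 0 1)) s)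
      (Function.update (fun _ : Fin n => (Sum.inr 0 : Lt 0 1)) s (Sum.inr 0)) :
        Fin (n + 1) → Lt 0 1) = fun _ => true := by
    funext i
    unfold pv
    refine Fin.cases ?_ (fun i => ?_) i
    · simp
    · simp [Function.update_apply]
  rw [h1, bsg_self] at h
  unfold chi
  rw [h]
  simp [pm]

theorem chi_swap {n : ℕ} (i j : Fin n) (hij : i ≠ j) : chi (swap i j) = -1 := by
  obtain ⟨n, rfl⟩ : ∃ m, n = m + 1 := ⟨n - 1, by have := i.2; omega⟩
  rcases Fin.eq_zero_or_eq_succ i with rfl | ⟨i', rfl⟩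
  · rcases Fin.eq_zero_or_eq_succ j with rfl | ⟨j', rfl⟩
    · exact absurd rfl hij
    · exact chi_swap_zero j'
  · rcases Fin.eq_zero_or_eq_succ j with rfl | ⟨j', rfl⟩
    · rw [swap_comm]; exact chi_swap_zero i'
    · have h1 : swap i'.succ j'.succ = swap (0 : Fin (n + 1)) i'.succ * swap 0 j'.succ *
          swap 0 i'.succ := by
        have h2 := Equiv.swap_mul_swap_mul_swap (x := j'.succ) (y := (0 : Fin (n + 1)))
          (z := i'.succ) (Fin.succ_ne_zero _) (fun e => hij e.symm)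
        rw [swap_comm j'.succ 0] at h2
        exact h2.symm
      rw [h1, chi_mul, chi_mul, chi_swap_zero, chi_swap_zero]
      norm_num

theorem sum_anti {n : ℕ} {G : Perm (Fin n) → ℚ} (i j : Fin n)
    (h : ∀ σ, G (swap i j * σ) = -G σ) : ∑ σ, G σ = 0 := by
  have h1 : ∑ σ, G σ = ∑ σ, G (swap i j * σ) :=
    (Equiv.sum_comp (Equiv.mulLeft (swap i j)) G).symm
  have h2 : ∑ σ, G (swap i j * σ) = -∑ σ, G σ := by
    rw [← Finset.sum_neg_distrib]
    exact Finset.sum_congr rfl fun σ _ => h σ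
  linarith [h1.trans h2]

/-- the symmetrizer -/
noncomputable def symE (n : ℕ) : MonoidAlgebra ℤ (Perm (Fin n)) :=
  ∑ σ : Perm (Fin n), MonoidAlgebra.of ℤ _ σ

/-- the antisymmetrizer -/
noncomputable def antE (n : ℕ) : MonoidAlgebra ℤ (Perm (Fin n)) :=
  ∑ σ : Perm (Fin n), ((Perm.sign σ : ℤˣ) : ℤ) • MonoidAlgebra.of ℤ _ σ

theorem act_symE (l : ℕ) : act 0 l (Fin (l + 1)) (bc (symE (l + 1))) = 0 := by
  apply LinearMap.ext
  intro f
  funext w
  have h1 : act 0 l (Fin (l + 1)) (bc (symE (l + 1))) f w =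
      ∑ σ : Perm (Fin (l + 1)), chi σ * f (w ∘ σ) := by
    unfold symE
    rw [map_sum, map_sum, LinearMap.sum_apply, Finset.sum_apply]
    refine Finset.sum_congr rfl fun σ _ => ?_
    rw [bc_of, act_of, rho_apply]
    congr 1
    unfold chi
    congr 1
    funext i
    unfold pv
    rcases (w ∘ σ) i with c | c
    · exact c.elim0
    · rfl
  rw [h1]
  obtain ⟨i, j, hij, hw⟩ := Fintype.exists_ne_map_eq_of_card_lt w (by
    rw [Fintype.card_sum, Fintype.card_fin, Fintype.card_fin, Fintype.card_fin]; omega)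
  refine sum_anti i j fun σ => ?_
  rw [chi_mul, chi_swap i j hij]
  have h2 : w ∘ ⇑(swap i j * σ) = w ∘ σ := by
    funext x
    rw [Function.comp_apply, Perm.mul_apply, Function.comp_apply]
    by_cases h3 : σ x = i
    · rw [h3, swap_apply_left, hw]
    · by_cases h4 : σ x = j
      · rw [h4, swap_apply_right, hw]
      · rw [swap_apply_of_ne_of_ne h3 h4]
  rw [h2]
  ring

theorem act_antE (k : ℕ) : act k 0 (Fin (k + 1)) (bc (antE (k + 1))) = 0 := by
  apply LinearMap.ext
  intro f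
  funext w
  have h1 : act k 0 (Fin (k + 1)) (bc (antE (k + 1))) f w =
      ∑ σ : Perm (Fin (k + 1)), (((Perm.sign σ : ℤˣ) : ℤ) : ℚ) * f (w ∘ σ) := by
    unfold antE
    rw [map_sum, map_sum, LinearMap.sum_apply, Finset.sum_apply]
    refine Finset.sum_congr rfl fun σ _ => ?_
    rw [bc_smul, map_smul, bc_of, act_of, LinearMap.smul_apply, Pi.smul_apply, rho_apply,
      smul_eq_mul]
    congr 1
    have h2 : eps σ (pv (w ∘ σ)) = 1 := by
      unfold eps
      refine Finset.prod_eq_one fun q _ => ?_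
      have h3 : ∀ i, pv (w ∘ σ) i = false := by
        intro i
        unfold pv
        rcases (w ∘ σ) i with c | c
        · rfl
        · exact c.elim0
      simp [h3]
    rw [h2, one_mul]
  rw [h1]
  obtain ⟨i, j, hij, hw⟩ := Fintype.exists_ne_map_eq_of_card_lt w (by
    rw [Fintype.card_sum, Fintype.card_fin, Fintype.card_fin, Fintype.card_fin]; omega)
  refine sum_anti i j fun σ => ?_
  have h2 : w ∘ ⇑(swap i j * σ) = w ∘ σ := by
    funext x
    rw [Function.comp_apply, Perm.mul_apply, Function.comp_apply]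
    by_cases h3 : σ x = i
    · rw [h3, swap_apply_left, hw]
    · by_cases h4 : σ x = j
      · rw [h4, swap_apply_right, hw]
      · rw [swap_apply_of_ne_of_ne h3 h4]
  rw [h2, Perm.sign_mul, Perm.sign_swap hij]
  push_cast
  ring

variable {U : Type} [Ring U]

theorem fv_sum {n : ℕ} {ι : Type} (s : Finset ι) (y : ι → MonoidAlgebra ℤ (Perm (Fin n)))
    (v : Fin (n + 1) → U) (r : Fin n → U) :
    fv (∑ i ∈ s, y i) v r = ∑ i ∈ s, fv (y i) v r := by
  rw [← fvH_apply, map_sum]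
  rfl

/-- type `(0|l)`: positive characteristic -/
theorem char_of_Typ {l q : ℕ} (hq : l + 1 ≤ q) (h : Typ 0 l q U) :
    (((l + 1).factorial : ℕ) : U) = 0 := by
  have h1 := h (l + 1) hq (symE (l + 1)) (act_symE l) (fun _ => 1) (fun _ => 1)
  rw [one_smul] at h1
  unfold symE at h1
  rw [fv_sum] at h1
  rw [← h1]
  have h2 : ∀ σ : Perm (Fin (l + 1)), fv (MonoidAlgebra.of ℤ _ σ) (fun _ : Fin (l + 1 + 1) => (1 : U))
      (fun _ => 1) = 1 := by
    intro σ
    rw [fv_of]
    unfold capMono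
    simp
  rw [Finset.sum_congr rfl fun σ _ => h2 σ, Finset.sum_const, Finset.card_univ,
    Fintype.card_perm, Fintype.card_fin, nsmul_eq_mul, mul_one]

/-- type `(k|0)`: Capelli identity -/
theorem cap_of_Typ {k q : ℕ} (hq : k + 1 ≤ q) (h : Typ k 0 q U) : Cap U (k + 1) := by
  intro v x
  have h1 := h (k + 1) hq (antE (k + 1)) (act_antE k) v x
  rw [one_smul] at h1
  unfold antE at h1
  rw [fv_sum] at h1
  rw [← h1]
  refine Finset.sum_congr rfl fun σ _ => ?_
  rw [fv_zsmul, fv_of]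

end Pool.PI34.T2

end

/-! ### part T2_D -/
section

/-! PI34, theorem T2, file D: clearing denominators. -/

set_option autoImplicit false

namespace Pool.PI34.T2

open Equiv Finset
open Pool.PI34.C0 Pool.PI34.T1
open Pool.PI34.Super (act bc fv KN mm plL pl fv_zsmul JJ bc_inj bc_smul exists_int IZ IZZ IZ_int
  Blk DisjB prodB RL_gen_blocks)

variable {U : Type} [Ring U] {m N : ℕ}

/-- one element -/
theorem clear_one {k l : ℕ} (φ : Fin m ↪o Fin N) (y0 : MonoidAlgebra ℤ (Perm (Fin m)))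
    (z : MonoidAlgebra ℤ (Perm (Fin N))) (hz : bc z ∈ JJ k l (pl φ (bc y0))) :
    ∃ D : ℕ, 0 < D ∧ ∃ x' u' : MonoidAlgebra ℤ (Perm (Fin N)), act k l _ (bc x') = 0 ∧
      u' ∈ IZZ (plL ℤ φ y0) ∧ (D : ℤ) • z = x' + u' := by
  unfold JJ at hz
  obtain ⟨x, hx, u, hu, hxu⟩ := Submodule.mem_sup.1 hz
  have hx0 : act k l _ x = 0 := hx
  obtain ⟨D1, hD1, x', hx'⟩ := exists_int x
  have hu' : u ∈ IZ (pl φ (bc y0)) := hu
  obtain ⟨E, hE, u', hu1, hu2⟩ := IZ_int (Z' := plL ℤ φ y0) (D := 1) one_pos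
    (by rw [bc_plL, Nat.cast_one, one_smul]) hu'
  refine ⟨D1 * E, Nat.mul_pos hD1 hE, (E : ℤ) • x', (D1 : ℤ) • u', ?_,
    AddSubgroup.zsmul_mem _ hu1 _, ?_⟩
  · rw [bc_smul, map_smul, hx', map_smul, hx0, smul_zero, smul_zero]
  · apply bc_inj
    rw [bc_smul, map_add, bc_smul, bc_smul, hx', hu2, ← hxu, smul_smul, smul_smul, smul_add]
    push_cast
    rw [mul_comm (E : ℚ) D1]

theorem fv_IZZ (φ : Fin m ↪o Fin N) (y0 : MonoidAlgebra ℤ (Perm (Fin m)))
    (h : ∀ (τ : Perm (Fin m)) (v : Fin (m + 1) → U) (r : Fin m → U),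
      fv (y0 * MonoidAlgebra.of ℤ _ τ) v r = 0) (u : MonoidAlgebra ℤ (Perm (Fin N)))
    (hu : u ∈ IZZ (plL ℤ φ y0)) (v : Fin (N + 1) → U) (r : Fin N → U) : fv u v r = 0 := by
  unfold IZZ at hu
  induction hu using AddSubgroup.closure_induction with
  | mem x hx =>
    obtain ⟨a, b, rfl⟩ := hx
    exact place y0 h φ a b v r
  | zero => exact fv_zero v r
  | add x y _ _ hx hy => rw [fv_add, hx, hy, add_zero]
  | neg x _ hx =>
    have h1 : -x = (-1 : ℤ) • x := by rw [neg_smul, one_smul]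
    rw [h1, fv_zsmul, hx, smul_zero]

/-- the integral elements of the ideal, as a submodule -/
noncomputable def JZ (k l : ℕ) (φ : Fin m ↪o Fin N) (y0 : MonoidAlgebra ℤ (Perm (Fin m))) :
    Submodule ℤ (MonoidAlgebra ℤ (Perm (Fin N))) where
  carrier := {z | bc z ∈ JJ k l (pl φ (bc y0))}
  zero_mem' := by
    change bc 0 ∈ JJ k l (pl φ (bc y0))
    rw [map_zero]; exact Submodule.zero_mem _
  add_mem' := by
    intro a b ha hb
    change bc (a + b) ∈ JJ k l (pl φ (bc y0))
    rw [map_add]; exact Submodule.add_mem _ ha hb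
  smul_mem' := by
    intro c a ha
    change bc (c • a) ∈ JJ k l (pl φ (bc y0))
    rw [bc_smul]; exact Submodule.smul_mem _ _ ha

instance : Module.Finite ℤ (MonoidAlgebra ℤ (Perm (Fin N))) := inferInstance

/-- a uniform denominator -/
theorem clear_all (k l : ℕ) (φ : Fin m ↪o Fin N) (y0 : MonoidAlgebra ℤ (Perm (Fin m))) :
    ∃ D : ℕ, 0 < D ∧ ∀ (U : Type) [Ring U], KN 1 k l N U →
      (∀ (τ : Perm (Fin m)) (v : Fin (m + 1) → U) (r : Fin m → U),
        fv (y0 * MonoidAlgebra.of ℤ _ τ) v r = 0) →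
      ∀ z, bc z ∈ JJ k l (pl φ (bc y0)) → ∀ (v : Fin (N + 1) → U) (r : Fin N → U),
        D • fv z v r = 0 := by
  obtain ⟨s, hs⟩ := (IsNoetherian.noetherian (JZ k l φ y0))
  have hs1 : ∀ z : s, bc z.1 ∈ JJ k l (pl φ (bc y0)) := by
    intro z
    have h1 : z.1 ∈ JZ k l φ y0 := by
      rw [← hs]
      exact Submodule.subset_span z.2
    exact h1
  choose D hD x' u' hx' hu' hxu using fun z : s => clear_one φ y0 z.1 (hs1 z)
  refine ⟨∏ z : s, D z, Finset.prod_pos (fun z _ => hD z), ?_⟩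
  intro U _ hT h0 z hz v r
  have hz' : z ∈ JZ k l φ y0 := hz
  rw [← hs] at hz'
  clear hz
  induction hz' using Submodule.span_induction with
  | mem z hz =>
    have h1 : (D ⟨z, hz⟩ : ℤ) • fv z v r = 0 := by
      rw [← fv_zsmul, hxu ⟨z, hz⟩, fv_add, fv_IZZ φ y0 h0 _ (hu' ⟨z, hz⟩), add_zero]
      have h2 := hT _ (hx' ⟨z, hz⟩) v r
      rwa [one_smul] at h2
    obtain ⟨E, hE⟩ := Finset.dvd_prod_of_mem D (Finset.mem_univ (⟨z, hz⟩ : s))
    rw [hE, mul_comm, mul_smul]
    have h3 : D ⟨z, hz⟩ • fv z v r = 0 := by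
      rw [← h1, natCast_zsmul]
    rw [h3, smul_zero]
  | zero => rw [fv_zero, smul_zero]
  | add a b _ _ ha hb => rw [fv_add, smul_add, ha, hb, add_zero]
  | smul c a _ ha => rw [fv_zsmul, smul_comm, ha, smul_zero]

/-- uniform in the degree -/
theorem clear_le (k l : ℕ) (y0 : MonoidAlgebra ℤ (Perm (Fin m))) (Q : ℕ) :
    ∃ D : ℕ, 0 < D ∧ ∀ (N : ℕ), m ≤ N → N ≤ Q → ∃ φ : Fin m ↪o Fin N,
      ∀ (U : Type) [Ring U], Typ k l Q U →
      (∀ (τ : Perm (Fin m)) (v : Fin (m + 1) → U) (r : Fin m → U),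
        fv (y0 * MonoidAlgebra.of ℤ _ τ) v r = 0) →
      ∀ z, bc z ∈ JJ k l (pl φ (bc y0)) → ∀ (v : Fin (N + 1) → U) (r : Fin N → U),
        D • fv z v r = 0 := by
  have key : ∀ N : ℕ, ∃ D : ℕ, 0 < D ∧ (m ≤ N → N ≤ Q → ∃ φ : Fin m ↪o Fin N,
      ∀ (U : Type) [Ring U], Typ k l Q U →
      (∀ (τ : Perm (Fin m)) (v : Fin (m + 1) → U) (r : Fin m → U),
        fv (y0 * MonoidAlgebra.of ℤ _ τ) v r = 0) →
      ∀ z, bc z ∈ JJ k l (pl φ (bc y0)) → ∀ (v : Fin (N + 1) → U) (r : Fin N → U),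
        D • fv z v r = 0) := by
    intro N
    by_cases hN : m ≤ N
    · obtain ⟨D, hD, h⟩ := clear_all k l (Fin.castLEOrderEmb hN) y0
      exact ⟨D, hD, fun _ hQ => ⟨Fin.castLEOrderEmb hN, fun U _ hT h0 => h U (hT N hQ) h0⟩⟩
    · exact ⟨1, one_pos, fun h => absurd h hN⟩
  choose D hD h using key
  refine ⟨∏ N ∈ range (Q + 1), D N, Finset.prod_pos (fun N _ => hD N), fun N h1 h2 => ?_⟩
  obtain ⟨φ, hφ⟩ := h N h1 h2
  refine ⟨φ, fun U _ hT h0 z hz v r => ?_⟩
  obtain ⟨E, hE⟩ := Finset.dvd_prod_of_mem D (Finset.mem_range.2 (by omega : N < Q + 1))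
  rw [hE, mul_comm, mul_smul, hφ U hT h0 z hz v r, smul_zero]

/-- the products of blocks are killed by an integer -/
theorem clear_blocks (k l : ℕ) (y0 : MonoidAlgebra ℤ (Perm (Fin m)))
    (hy0 : act (k + 1) (l + 1) _ (bc y0) ≠ 0) (q' : ℕ) :
    ∃ D Q : ℕ, 0 < D ∧ ∀ (U : Type) [Ring U], Typ (k + 1) (l + 1) Q U →
      (∀ (τ : Perm (Fin m)) (v : Fin (m + 1) → U) (r : Fin m → U),
        fv (y0 * MonoidAlgebra.of ℤ _ τ) v r = 0) →
      ∀ u ∈ PG U k l m q' (l + 1 + m) (k + 1 + m), D • u = 0 := by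
  obtain ⟨D, hD, h⟩ := clear_le (k + 1) (l + 1) y0 (m + ((l + 1 + m) + (k + 1 + m)) * q')
  refine ⟨D, m + ((l + 1 + m) + (k + 1 + m)) * q', hD, fun U _ hT h0 u hu => ?_⟩
  unfold PG at hu
  induction hu using AddSubgroup.closure_induction with
  | mem x hx =>
    obtain ⟨N, z, v, r, h1, h2, ⟨L, L', g1, g2, g3, g4, g5, g6⟩, rfl⟩ := hx
    obtain ⟨φ, hφ⟩ := h N h1 h2
    refine hφ U hT h0 z ?_ v r
    rw [g1]
    exact RL_gen_blocks φ hy0 L L' g2 g3.ge g4.ge g5 g6
  | zero => rw [smul_zero]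
  | add a b _ _ ha hb => rw [smul_add, ha, hb, add_zero]
  | neg a _ ha => rw [smul_neg, ha, neg_zero]

end Pool.PI34.T2

end

/-! ### part T2_E -/
section

/-! PI34, theorem T2, file E: THE INDUCTION. -/

set_option autoImplicit false

namespace Pool.PI34.T2

open Equiv Finset
open Pool.PI34.C0 Pool.PI34.T1
open Pool.PI34.Super (act bc fv KN)

variable {U : Type} [Ring U] {X : Type}

/-! ### the ideals `Ann N` and `N U` -/

/-- the annihilator of the integer `N` -/
def annN (U : Type) [Ring U] (N : ℕ) : Ideal U where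
  carrier := {u | (N : U) * u = 0}
  zero_mem' := mul_zero _
  add_mem' {a b} ha hb := by
    change (N : U) * (a + b) = 0
    have h1 : (N : U) * a = 0 := ha
    have h2 : (N : U) * b = 0 := hb
    rw [mul_add, h1, h2, add_zero]
  smul_mem' c a ha := by
    change (N : U) * (c * a) = 0
    have h1 : (N : U) * a = 0 := ha
    rw [← mul_assoc, (Nat.cast_commute N c).eq, mul_assoc, h1, mul_zero]

theorem mem_annN {N : ℕ} {u : U} : u ∈ annN U N ↔ (N : U) * u = 0 := Iff.rfl

instance (N : ℕ) : (annN U N).IsTwoSided := by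
  refine ⟨fun {a} b ha => ?_⟩
  rw [mem_annN] at ha ⊢
  rw [← mul_assoc, ha, zero_mul]

/-- the ideal `N U` -/
def mulN (U : Type) [Ring U] (N : ℕ) : Ideal U where
  carrier := {u | ∃ w : U, u = (N : U) * w}
  zero_mem' := ⟨0, by rw [mul_zero]⟩
  add_mem' {a b} ha hb := by
    obtain ⟨x, rfl⟩ := ha
    obtain ⟨y, rfl⟩ := hb
    exact ⟨x + y, by rw [mul_add]⟩
  smul_mem' c a ha := by
    obtain ⟨x, rfl⟩ := ha
    exact ⟨c * x, by rw [smul_eq_mul, ← mul_assoc, ← (Nat.cast_commute N c).eq, mul_assoc]⟩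

theorem mem_mulN {N : ℕ} {u : U} : u ∈ mulN U N ↔ ∃ w : U, u = (N : U) * w := Iff.rfl

instance (N : ℕ) : (mulN U N).IsTwoSided := by
  refine ⟨fun {a} b ha => ?_⟩
  obtain ⟨x, rfl⟩ := ha
  exact ⟨x * b, by rw [mul_assoc]⟩

/-- unital PI rings of positive characteristic -/
theorem kills_charU (N : ℕ) (hN : 0 < N) (h : (N : U) = 0) (hPI : PIU U)
    (π : FreeAlgebra ℤ X →+* U) : Kills π := by
  obtain ⟨d, a, ha, hx⟩ := hPI
  have hA : Aug (⊤ : NonUnitalSubring U) := by
    refine ⟨fun _ _ _ => NonUnitalSubring.mem_top _, fun _ _ _ => NonUnitalSubring.mem_top _,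
      fun u => ⟨0, u, NonUnitalSubring.mem_top _, ?_⟩⟩
    rw [Int.cast_zero, zero_add]
  exact kills_of_char N hN ⊤ hA π d a ha (fun x _ => hx x) (fun r _ => by rw [h, zero_mul])

/-- THE ANNIHILATOR TRICK. -/
theorem claim_of_Typ (S : Set ℕ) (k l q : ℕ) (h : ∀ (U : Type) [Ring U], Inv S U → PIU U →
    Typ k l q U → ∀ (X : Type) (π : FreeAlgebra ℤ X →+* U), Kills π) : Claim S k l := by
  refine ⟨q, fun U _ hI hPI hQ X π => ?_⟩
  obtain ⟨N, hN, hQ⟩ := hQ
  refine kills_of_mul π (Ideal.Quotient.mk (annN U N)) (Ideal.Quotient.mk (mulN U N)) ?_ ?_ ?_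
  · intro a b ha hb
    rw [Ideal.Quotient.eq_zero_iff_mem] at ha hb
    rw [mem_annN] at ha
    obtain ⟨w, rfl⟩ := hb
    rw [← mul_assoc, ← (Nat.cast_commute N a).eq, ha, zero_mul]
  · refine h _ (Inv_of_hom (Ideal.Quotient.mk (annN U N)) hI)
      (PIU_of_surj _ Ideal.Quotient.mk_surjective hPI) ?_ X _
    intro n hn y hy v r
    rw [one_smul]
    choose v' hv' using fun i => Ideal.Quotient.mk_surjective (I := annN U N) (v i)
    choose r' hr' using fun i => Ideal.Quotient.mk_surjective (I := annN U N) (r i)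
    have h1 : Ideal.Quotient.mk (annN U N) (fv y v' r') = 0 := by
      rw [Ideal.Quotient.eq_zero_iff_mem, mem_annN, ← nsmul_eq_mul]
      exact hQ n hn y hy v' r'
    rw [map_fvA] at h1
    have e1 : (fun i => Ideal.Quotient.mk (annN U N) (v' i)) = v := funext hv'
    have e2 : (fun i => Ideal.Quotient.mk (annN U N) (r' i)) = r := funext hr'
    rw [e1, e2] at h1
    exact h1
  · refine kills_charU N hN ?_ (PIU_of_surj (Ideal.Quotient.mk (mulN U N))
      Ideal.Quotient.mk_surjective hPI) _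
    have h1 : Ideal.Quotient.mk (mulN U N) (N : U) = 0 := by
      rw [Ideal.Quotient.eq_zero_iff_mem]
      exact ⟨1, by rw [mul_one]⟩
    rw [map_natCast] at h1
    exact h1

/-! ### ideals mapped into a subgroup -/

/-- a pure PI ideal is mapped into the group `A` -/
def KIn (π : FreeAlgebra ℤ X →+* U) (A : AddSubgroup U) : Prop :=
  ∃ J : Ideal (FreeAlgebra ℤ X), J.IsTwoSided ∧ PureI J ∧ MPI J ∧ ∀ g ∈ J, π g ∈ A

theorem KIn.mul {π : FreeAlgebra ℤ X →+* U} {A B C : AddSubgroup U} (hA : KIn π A)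
    (hB : KIn π B) (h : ∀ a ∈ A, ∀ b ∈ B, a * b ∈ C) : KIn π C := by
  obtain ⟨I, hI, pI, mI, kI⟩ := hA
  obtain ⟨J, hJ, pJ, mJ, kJ⟩ := hB
  refine ⟨I * J, inferInstance, PureI_mul I J pI pJ, MPI_mul I J mI mJ, fun g hg => ?_⟩
  refine Submodule.smul_induction_on (p := fun g => π g ∈ C) hg ?_ ?_
  · intro a ha b hb
    rw [smul_eq_mul, map_mul]
    exact h _ (kI a ha) _ (kJ b hb)
  · intro a b ha hb
    rw [map_add]
    exact C.add_mem ha hb

theorem KIn_of_all {π : FreeAlgebra ℤ X →+* U} {A : AddSubgroup U} (h : ∀ u, u ∈ A) :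
    KIn π A :=
  ⟨⊤, inferInstance, fun _ _ _ _ => Submodule.mem_top, ⟨0, fun _ => 1, rfl,
    fun _ => Submodule.mem_top⟩, fun _ _ => h _⟩

theorem KIn_of_quot {π : FreeAlgebra ℤ X →+* U} (J : Ideal U) [J.IsTwoSided]
    (h : Kills ((Ideal.Quotient.mk J).comp π)) : KIn π J.toAddSubgroup := by
  obtain ⟨I, hI, pI, mI, kI⟩ := h
  refine ⟨I, hI, pI, mI, fun g hg => ?_⟩
  have h1 := kI g hg
  rw [RingHom.comp_apply, Ideal.Quotient.eq_zero_iff_mem] at h1
  exact h1

theorem all_mem_PG (k l m q' : ℕ) (u : U) : u ∈ PG U k l m q' 0 0 := by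
  refine AddSubgroup.subset_closure ⟨m, 1, Function.update (fun _ => 1) 0 (u * 1), fun _ => 1,
    le_rfl, by simp, good_one k l m, ?_⟩
  have h1 : (1 : MonoidAlgebra ℤ (Perm (Fin m))) = MonoidAlgebra.of ℤ _ 1 := (map_one _).symm
  have h2 := fv_left u (1 : MonoidAlgebra ℤ (Perm (Fin m))) (fun _ : Fin (m + 1) => (1 : U))
    (fun _ => 1)
  rw [h2, h1, fv_of]
  unfold capMono
  simp

/-- the values of `K(k|l)` in the quotient by the ideal of values -/
theorem QTyp_quot (k l q' : ℕ) : QTyp k l q' (U ⧸ valI U (YK k l q')) := by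
  refine ⟨1, one_pos, fun n hn y hy v r => ?_⟩
  rw [one_smul]
  exact fv_quot (YK k l q') ⟨hn, hy⟩ v r

theorem KIn_val (S : Set ℕ) {k l q' : ℕ} (hI : Inv S U) (hPI : PIU U)
    (hC : ∀ (U : Type) [Ring U], Inv S U → PIU U → QTyp k l q' U →
      ∀ (X : Type) (π : FreeAlgebra ℤ X →+* U), Kills π) (π : FreeAlgebra ℤ X →+* U) :
    KIn π (valI U (YK k l q')).toAddSubgroup :=
  KIn_of_quot _ (hC _ (Inv_of_hom (Ideal.Quotient.mk _) hI)
    (PIU_of_surj (Ideal.Quotient.mk _) Ideal.Quotient.mk_surjective hPI) (QTyp_quot k l q') X _)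

theorem KIn_PG {k l m q' : ℕ} (π : FreeAlgebra ℤ X →+* U)
    (h1 : KIn π (valI U (YK k (l + 1) q')).toAddSubgroup)
    (h2 : KIn π (valI U (YK (k + 1) l q')).toAddSubgroup) (c c' : ℕ) :
    KIn π (PG U k l m q' c c') := by
  have h3 : ∀ c', KIn π (PG U k l m q' 0 c') := by
    intro c'
    induction c' with
    | zero => exact KIn_of_all (all_mem_PG k l m q')
    | succ c' ih => exact h2.mul ih fun a ha b hb => mul_PG_R ha hb
  induction c with
  | zero => exact h3 c'
  | succ c ih => exact h1.mul ih fun a ha b hb => mul_PG_L ha hb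

/-! ### the induction step -/

theorem step (S : Set ℕ) (k l : ℕ) (hE : Engine S (k + 1) (l + 1)) (h1 : Claim S k (l + 1))
    (h2 : Claim S (k + 1) l) : Claim S (k + 1) (l + 1) := by
  obtain ⟨q1, h1⟩ := h1
  obtain ⟨q2, h2⟩ := h2
  obtain ⟨I, qE, m, y0, hI, hy0, hE⟩ := hE
  have h1' : ∀ (U : Type) [Ring U], Inv S U → PIU U → QTyp k (l + 1) (max q1 q2) U →
      ∀ (X : Type) (π : FreeAlgebra ℤ X →+* U), Kills π :=
    fun U _ a b c => h1 U a b (QTyp_mono (le_max_left _ _) c)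
  have h2' : ∀ (U : Type) [Ring U], Inv S U → PIU U → QTyp (k + 1) l (max q1 q2) U →
      ∀ (X : Type) (π : FreeAlgebra ℤ X →+* U), Kills π :=
    fun U _ a b c => h2 U a b (QTyp_mono (le_max_right _ _) c)
  obtain ⟨D, Q, hD, hcl⟩ := clear_blocks k l y0 hy0 (max q1 q2)
  refine claim_of_Typ S (k + 1) (l + 1) (max qE Q) ?_
  intro U _ hInv hPI hT X π
  -- the values of `y0`
  let Y : (n : ℕ) → Set (MonoidAlgebra ℤ (Perm (Fin n))) := fun n =>
    {y | ∃ τ : Perm (Fin m), (⟨n, y⟩ : Σ n : ℕ, MonoidAlgebra ℤ (Perm (Fin n))) =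
      ⟨m, y0 * MonoidAlgebra.of ℤ _ τ⟩}
  have hY : ∀ τ, y0 * MonoidAlgebra.of ℤ _ τ ∈ Y m := fun τ => ⟨τ, rfl⟩
  refine kills_of_mul π (Ideal.Quotient.mk (lann (valI U Y))) (Ideal.Quotient.mk (valI U Y))
    ?_ ?_ ?_
  · intro a b ha hb
    rw [Ideal.Quotient.eq_zero_iff_mem] at ha hb
    exact ha b hb
  · obtain ⟨t, p, mp⟩ := hI X
    refine ⟨I X, t, p, mp, fun g hg => ?_⟩
    rw [RingHom.comp_apply, Ideal.Quotient.eq_zero_iff_mem]
    refine mem_lann_valI Y ?_
    rintro n y ⟨τ, hτ⟩ v r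
    obtain ⟨rfl, h3⟩ := Sigma.mk.inj hτ
    rw [eq_of_heq h3]
    exact hE U hInv (Typ_mono (le_max_left _ _) hT) X π g hg τ v r
  · -- the quotient by the values of `y0`
    have hs : Function.Surjective (Ideal.Quotient.mk (valI U Y)) := Ideal.Quotient.mk_surjective
    generalize hπ : (Ideal.Quotient.mk (valI U Y)).comp π = π₁
    have hInv₁ : Inv S (U ⧸ valI U Y) := Inv_of_hom (Ideal.Quotient.mk _) hInv
    have hPI₁ : PIU (U ⧸ valI U Y) := PIU_of_surj _ hs hPI
    have hT₁ : Typ (k + 1) (l + 1) Q (U ⧸ valI U Y) :=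
      Typ_of_surj _ hs (Typ_mono (le_max_right _ _) hT)
    have h0 : ∀ (τ : Perm (Fin m)) (v : Fin (m + 1) → U ⧸ valI U Y) (r : Fin m → U ⧸ valI U Y),
        fv (y0 * MonoidAlgebra.of ℤ _ τ) v r = 0 := fun τ v r => fv_quot Y (hY τ) v r
    have hk := KIn_PG (m := m) π₁ (KIn_val S hInv₁ hPI₁ h1' π₁) (KIn_val S hInv₁ hPI₁ h2' π₁)
      (l + 1 + m) (k + 1 + m)
    have hd : KIn π₁ (mulN (U ⧸ valI U Y) D).toAddSubgroup := by
      apply KIn_of_quot
      refine kills_charU D hD ?_ (PIU_of_surj (Ideal.Quotient.mk _)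
        Ideal.Quotient.mk_surjective hPI₁) _
      have h3 : Ideal.Quotient.mk (mulN (U ⧸ valI U Y) D) (D : U ⧸ valI U Y) = 0 := by
        rw [Ideal.Quotient.eq_zero_iff_mem]
        exact ⟨1, by rw [mul_one]⟩
      rw [map_natCast] at h3
      exact h3
    have hfin : KIn π₁ (⊥ : AddSubgroup (U ⧸ valI U Y)) := by
      refine hd.mul hk ?_
      intro a ha b hb
      obtain ⟨w, rfl⟩ := ha
      have h3 := hcl _ hT₁ h0 b hb
      rw [AddSubgroup.mem_bot, (Nat.cast_commute D w).eq, mul_assoc, ← nsmul_eq_mul, h3,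
        mul_zero]
    obtain ⟨J, hJ, pJ, mJ, kJ⟩ := hfin
    exact ⟨J, hJ, pJ, mJ, fun g hg => by
      have := kJ g hg
      rwa [AddSubgroup.mem_bot] at this⟩

/-- THE INDUCTION. -/
theorem claim_of_engine (S : Set ℕ) (k : ℕ) : ∀ l : ℕ,
    (∀ k' l', 0 < k' → k' ≤ k → 0 < l' → l' ≤ l → Engine S k' l') → Claim S k l := by
  induction k with
  | zero =>
    intro l _
    refine claim_of_Typ S 0 l (l + 1) ?_
    intro U _ _ hPI hT X π
    exact kills_charU _ (Nat.factorial_pos (l + 1)) (char_of_Typ le_rfl hT) hPI π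
  | succ k ihk =>
    intro l
    induction l with
    | zero =>
      intro _
      refine claim_of_Typ S (k + 1) 0 (k + 1 + 1) ?_
      intro U _ _ _ hT X π
      exact kills_of_cap π (k + 1 + 1) (cap_of_Typ le_rfl hT)
    | succ l ihl =>
      intro hE
      refine step S k l (hE _ _ (Nat.succ_pos k) le_rfl (Nat.succ_pos l) le_rfl) ?_ ?_
      · exact ihk (l + 1) fun k' l' a b c d => hE k' l' a (Nat.le_succ_of_le b) c d
      · exact ihl fun k' l' a b c d => hE k' l' a b c (Nat.le_succ_of_le d)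

end Pool.PI34.T2

end
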