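import Pool.Agent.LibPI54.M07
import Pool.Agent.LibPI54.M38
import Pool.Agent.LibPI54.M40
import Pool.Agent.LibPI54.M46
import Pool.Agent.LibPI54.M52
import Pool.Agent.LibPI54.M60

/-! ### part S2_Exp -/
section

/-!
PI34, block S2, file 2: the expansions of the double coefficient and of the homogeneous components.
-/

set_option autoImplicit false

namespace Pool.PI34.SS

open Equiv Finset

section comb

theorem permsum {B A : Type*} [DecidableEq B] [AddCommMonoid A] (L : List B)
    (H : List B → A) (K : B → List B → A) (h0 : H [] = 0) (h1 : ∀ y l, H (y :: l) = K y l) :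
    ∑ l ∈ L.permutations.toFinset, H l
      = ∑ y ∈ L.toFinset, ∑ l ∈ (L.erase y).permutations.toFinset, K y l := by
  rw [Finset.sum_sigma']
  by_cases hL : L = []
  · subst hL
    rw [List.permutations_nil, List.toFinset_nil]
    have e : ((∅ : Finset B).sigma fun y => (([] : List B).erase y).permutations.toFinset) = ∅ :=
      Finset.eq_empty_of_forall_notMem fun x hx => by
        rw [Finset.mem_sigma] at hx
        exact Finset.notMem_empty _ hx.1
    rw [e, Finset.sum_empty]
    simp [h0]
  · symm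
    refine Finset.sum_bij (fun p _ => p.1 :: p.2) ?_ ?_ ?_ ?_
    · rintro ⟨y, l⟩ hp
      rw [Finset.mem_sigma, List.mem_toFinset, List.mem_toFinset, List.mem_permutations] at hp
      rw [List.mem_toFinset, List.mem_permutations]
      exact List.cons_perm_iff_perm_erase.2 hp
    · rintro ⟨y, l⟩ _ ⟨y', l'⟩ _ h
      rw [List.cons.injEq] at h
      obtain ⟨rfl, rfl⟩ := h
      rfl
    · intro l hl
      rw [List.mem_toFinset, List.mem_permutations] at hl
      rcases l with _ | ⟨y, l⟩
      · exact absurd (List.nil_perm.1 hl) hL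
      · refine ⟨⟨y, l⟩, ?_, rfl⟩
        rw [Finset.mem_sigma, List.mem_toFinset, List.mem_toFinset, List.mem_permutations]
        exact List.cons_perm_iff_perm_erase.1 hl
    · rintro ⟨y, l⟩ _
      exact (h1 y l).symm

theorem ofFn_cast {B : Type*} (l : List B) {b : ℕ} (h : l.length = b) :
    List.ofFn (fun i : Fin b => l.get (Fin.cast h.symm i)) = l := by
  subst h
  exact List.ofFn_get l

theorem exists_perm {Y : Type} [DecidableEq Y] {b : ℕ} (c d : Fin b → Y)
    (h : (List.ofFn d).Perm (List.ofFn c)) : ∃ τ : Perm (Fin b), c ∘ τ = d := by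
  have hcard : ∀ y, Fintype.card {i // d i = y} = Fintype.card {i // c i = y} := by
    intro y
    have h1 := count_map d (List.finRange b) (List.nodup_finRange b) y
    have h2 := count_map c (List.finRange b) (List.nodup_finRange b) y
    rw [← List.ofFn_eq_map] at h1 h2
    have h3 : ((List.ofFn d : List Y) : Multiset Y) = (List.ofFn c : List Y) :=
      Multiset.coe_eq_coe.2 h
    rw [h3, h2] at h1
    simp only [List.mem_finRange, and_true] at h1
    rw [Fintype.card_subtype, Fintype.card_subtype]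
    exact h1.symm
  let e : Fin b ≃ Fin b := (Equiv.sigmaFiberEquiv d).symm.trans
    ((Equiv.sigmaCongrRight fun y => Fintype.equivOfCardEq (hcard y)).trans
      (Equiv.sigmaFiberEquiv c))
  refine ⟨e, ?_⟩
  funext i
  exact (Fintype.equivOfCardEq (hcard (d i)) ⟨i, rfl⟩).2

theorem permsum_finRange {A : Type*} [AddCommMonoid A] {b : ℕ} (F : List (Fin b) → A) :
    ∑ l ∈ (List.finRange b).permutations.toFinset, F l
      = ∑ τ : Perm (Fin b), F (List.ofFn τ) := by
  symm
  refine Finset.sum_bij (fun τ _ => List.ofFn τ) ?_ ?_ ?_ ?_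
  · intro τ _
    rw [List.mem_toFinset, List.mem_permutations]
    have h := Equiv.Perm.ofFn_comp_perm τ (id : Fin b → Fin b)
    rw [List.ofFn_id] at h
    exact h
  · intro τ _ τ' _ h
    have h1 := List.ofFn_injective h
    exact DFunLike.coe_injective h1
  · intro l hl
    rw [List.mem_toFinset, List.mem_permutations] at hl
    have hlen : l.length = b := by rw [hl.length_eq, List.length_finRange]
    have hnd : l.Nodup := hl.nodup_iff.2 (List.nodup_finRange b)
    have hinj : Function.Injective (fun i : Fin b => l.get (Fin.cast hlen.symm i)) :=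
      hnd.injective_get.comp (Fin.cast_injective _)
    refine ⟨Equiv.ofBijective _ (Finite.injective_iff_bijective.1 hinj), Finset.mem_univ _, ?_⟩
    exact ofFn_cast l hlen
  · intro τ _
    rfl

theorem permsum_ofFn {A : Type*} [AddCommMonoid A] {Y : Type} [DecidableEq Y] {b : ℕ}
    (c : Fin b → Y) (F : List Y → A) :
    ∑ l ∈ (List.ofFn c).permutations.toFinset, F l
      = ∑ d ∈ univ.image (fun τ : Perm (Fin b) => c ∘ τ), F (List.ofFn d) := by
  symm
  refine Finset.sum_bij (fun d _ => List.ofFn d) ?_ ?_ ?_ ?_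
  · intro d hd
    rw [Finset.mem_image] at hd
    obtain ⟨τ, _, rfl⟩ := hd
    rw [List.mem_toFinset, List.mem_permutations]
    exact Equiv.Perm.ofFn_comp_perm τ c
  · intro d _ d' _ h
    exact List.ofFn_injective h
  · intro l hl
    rw [List.mem_toFinset, List.mem_permutations] at hl
    have hlen : l.length = b := by rw [hl.length_eq, List.length_ofFn]
    refine ⟨fun i : Fin b => l.get (Fin.cast hlen.symm i), ?_, ofFn_cast l hlen⟩
    rw [Finset.mem_image]
    obtain ⟨τ, hτ⟩ := exists_perm c (fun i : Fin b => l.get (Fin.cast hlen.symm i)) (by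
      rw [ofFn_cast l hlen]
      exact hl)
    exact ⟨τ, Finset.mem_univ _, hτ⟩
  · intro d _
    rfl

end comb

section exp

variable {U : Type*} [Ring U] {Y : Type} [DecidableEq Y]

/-- left multiplication through the free ring -/
noncomputable def lmul {M : Type*} [Ring M] (m : Y → M) : FA Y →+* AddMonoid.End M :=
  (Module.toAddMonoidEnd M M).comp (FA.lift m)

theorem lmul_apply {M : Type*} [Ring M] (m : Y → M) (P : FA Y) (x : M) :
    lmul m P x = FA.lift m P * x := rfl

/-- the expansion of one letter -/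
theorem stp_map {B : Type} (α : Y → U) (y : Y) (F : List (Y × U) → U) (f : B → Y × U)
    (l : List B) : stp α y F (l.map f) = α y * F (l.map f) +
      (match l with
        | [] => 0
        | s :: l' => if (f s).1 = y then (f s).2 * F (l'.map f) else 0) := by
  cases l with
  | nil => simp [stp]
  | cons s l => rfl

theorem stp_sum {B : Type} [DecidableEq B] (α : Y → U) (y : Y) (F : List (Y × U) → U)
    (f : B → Y × U) (L : List B) :
    ∑ l ∈ L.permutations.toFinset, stp α y F (l.map f)
      = α y * ∑ l ∈ L.permutations.toFinset, F (l.map f)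
        + ∑ s ∈ L.toFinset, ∑ l ∈ (L.erase s).permutations.toFinset,
          if (f s).1 = y then (f s).2 * F (l.map f) else 0 := by
  rw [Finset.sum_congr rfl (fun l _ => stp_map α y F f l), Finset.sum_add_distrib,
    ← Finset.mul_sum]
  congr 1
  exact permsum L _ (fun s l => if (f s).1 = y then (f s).2 * F (l.map f) else 0) rfl
    (fun _ _ => rfl)

theorem start_sum {B : Type} [DecidableEq B] (f : B → Y × U) (L : List B) :
    ∑ l ∈ L.permutations.toFinset, F0 Y U (l.map f) = if L = [] then 1 else 0 := by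
  by_cases hL : L = []
  · subst hL
    rw [if_pos rfl]
    simp [F0]
  · rw [if_neg hL]
    refine Finset.sum_eq_zero (fun l hl => ?_)
    rw [List.mem_toFinset, List.mem_permutations] at hl
    rcases l with _ | ⟨s, l⟩
    · exact absurd (List.nil_perm.1 hl) hL
    · rfl

theorem CL_GG {b : ℕ} (c : Fin b → Y) (α : Y → U) (β : Fin b → U) (P : FA Y) :
    CL U (List.finRange b) (FA.lift (fun y => GT.mk (GT.mk (α y) 1) 1 +
      ∑ s, if c s = y then GT.mk (GT.mk (β s) (ge s)) (ge s) else 0) P)
      = ∑ τ : Perm (Fin b), GG α P (List.ofFn (fun i => (c (τ i), β (τ i)))) := by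
  let m : Y → GT (GT U b) b := fun y => GT.mk (GT.mk (α y) 1) 1 +
      ∑ s, if c s = y then GT.mk (GT.mk (β s) (ge s)) (ge s) else 0
  let f : Fin b → Y × U := fun s => (c s, β s)
  have h1 := theta_rel α (lmul m)
    (fun F x => ∀ L : List (Fin b), L.Nodup →
      CL U L x = ∑ l ∈ L.permutations.toFinset, F (l.map f))
    (fun r F x h L hL => by
      rw [map_zsmul, h L hL, Finset.smul_sum]
      rfl)
    (fun F x F' x' h h' L hL => by
      rw [map_add, h L hL, h' L hL, ← Finset.sum_add_distrib]
      rfl)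
    (fun y F x h L hL => by
      rw [lmul_apply, FA.lift_of, stp_sum]
      change CL U L ((GT.mk (GT.mk (α y) 1) 1 +
        ∑ s, if c s = y then GT.mk (GT.mk (β s) (ge s)) (ge s) else 0) * x) = _
      rw [add_mul, map_add, CL_ev, h L hL, Finset.sum_mul, map_sum]
      congr 1
      have h3 : ∀ s : Fin b, CL U L ((if c s = y then GT.mk (GT.mk (β s) (ge s)) (ge s) else 0)
          * x) = if s ∈ L.toFinset then ∑ l ∈ (L.erase s).permutations.toFinset,
            (if (f s).1 = y then (f s).2 * F (l.map f) else 0) else 0 := by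
        intro s
        by_cases h1 : c s = y
        · rw [if_pos h1, CL_od L hL]
          by_cases h2 : s ∈ L
          · rw [if_pos h2, if_pos (List.mem_toFinset.2 h2), h _ (hL.erase s), Finset.mul_sum]
            exact Finset.sum_congr rfl (fun l _ => (if_pos h1).symm)
          · rw [if_neg h2, if_neg (fun e => h2 (List.mem_toFinset.1 e))]
        · rw [if_neg h1, zero_mul, map_zero]
          have e : ∑ l ∈ (L.erase s).permutations.toFinset,
              (if (f s).1 = y then (f s).2 * F (l.map f) else 0) = 0 :=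
            Finset.sum_eq_zero (fun l _ => if_neg h1)
          rw [e, ite_self]
      rw [Finset.sum_congr rfl (fun s _ => h3 s), Finset.sum_ite_mem, Finset.univ_inter])
    P (F0 Y U) 1 (fun L _ => by rw [CL_one, start_sum]) (List.finRange b) (List.nodup_finRange b)
  rw [lmul_apply, mul_one, permsum_finRange (fun l => theta α P (F0 Y U) (l.map f))] at h1
  refine h1.trans (Finset.sum_congr rfl (fun τ _ => ?_))
  unfold GG
  rw [List.map_ofFn]
  rfl

theorem Gam_GG (α β : Y → U) (P : FA Y) {b : ℕ} (c : Fin b → Y) :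
    (Gam α β P).coeff ((List.ofFn c : List Y) : Multiset Y)
      = ∑ d ∈ univ.image (fun τ : Perm (Fin b) => c ∘ τ),
        GG α P (List.ofFn (fun i => (d i, β (d i)))) := by
  let m : Y → AddMonoidAlgebra U (Multiset Y) :=
    fun y => AddMonoidAlgebra.single 0 (α y) + AddMonoidAlgebra.single {y} (β y)
  let f : Y → Y × U := fun y => (y, β y)
  have h1 := theta_rel α (lmul m)
    (fun F x => ∀ L : List Y,
      x.coeff (L : Multiset Y) = ∑ l ∈ L.permutations.toFinset, F (l.map f))
    (fun r F x h L => by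
      rw [AddMonoidAlgebra.coeff_smul_apply, h L, Finset.smul_sum]
      rfl)
    (fun F x F' x' h h' L => by
      rw [AddMonoidAlgebra.coeff_add, Finsupp.add_apply, h L, h' L, ← Finset.sum_add_distrib]
      rfl)
    (fun y F x h L => by
      rw [lmul_apply, FA.lift_of, stp_sum]
      change ((AddMonoidAlgebra.single 0 (α y) + AddMonoidAlgebra.single {y} (β y)) * x).coeff _ = _
      rw [add_mul, AddMonoidAlgebra.coeff_add, Finsupp.add_apply, coeff_single_zero_mul,
        coeff_single_mul_multiset, h L]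
      congr 1
      have h3 : ∀ s ∈ L.toFinset, ∑ l ∈ (L.erase s).permutations.toFinset,
            (if (f s).1 = y then (f s).2 * F (l.map f) else 0)
          = if s = y then β y * ∑ l ∈ (L.erase y).permutations.toFinset, F (l.map f) else 0 := by
        intro s _
        by_cases h1 : s = y
        · subst h1
          rw [if_pos rfl, Finset.mul_sum]
          exact Finset.sum_congr rfl (fun l _ => if_pos rfl)
        · rw [if_neg h1]
          exact Finset.sum_eq_zero (fun l _ => if_neg h1)
      rw [Finset.sum_congr rfl h3, Finset.sum_ite_eq', Multiset.coe_erase, h (L.erase y)]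
      simp only [Multiset.mem_coe, List.mem_toFinset])
    P (F0 Y U) 1 (fun L => by
      rw [start_sum, AddMonoidAlgebra.one_def, AddMonoidAlgebra.coeff_single,
        Finsupp.single_apply]
      by_cases hL : L = []
      · subst hL
        rw [if_pos rfl, if_pos (Multiset.coe_nil.symm)]
      · rw [if_neg hL, if_neg]
        intro h2
        rw [eq_comm, Multiset.coe_eq_zero] at h2
        exact hL h2) (List.ofFn c)
  rw [lmul_apply, mul_one, permsum_ofFn c (fun l => theta α P (F0 Y U) (l.map f))] at h1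
  refine h1.trans (Finset.sum_congr rfl (fun d _ => ?_))
  unfold GG
  rw [List.map_ofFn]
  rfl

end exp

end Pool.PI34.SS

end

/-! ### part S2_Kap -/
section

/-!
PI34, block S2, file 3: the relations of the words kill `ω`.
-/

set_option autoImplicit false
set_option linter.unusedSectionVars false

namespace Pool.PI34.SS

open Equiv Finset
open Pool.PI34.BA

theorem map_evP {T M M' : Type} [Fintype T] [DecidableEq T] [AddCommGroup M] [AddCommGroup M']
    (ψ : M →+ M') (φ : Perm T → M) (x : H4.P T) : ψ (evP φ x) = evP (fun t => ψ (φ t)) x := by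
  change ψ (∑ t, x.coeff t • φ t) = ∑ t, x.coeff t • ψ (φ t)
  rw [map_sum]
  exact Finset.sum_congr rfl (fun t _ => map_zsmul ψ _ _)

theorem evP_congr {T M : Type} [Fintype T] [DecidableEq T] [AddCommGroup M]
    {φ φ' : Perm T → M} (h : ∀ t, φ t = φ' t) (x : H4.P T) : evP φ x = evP φ' x := by
  rw [show φ = φ' from funext h]

/-- The product of the generators in a permuted order. -/
theorem ge_prod_perm {b : ℕ} (σ : Perm (Fin b)) :
    (List.ofFn (fun i => ge (σ i))).prod =
      ((Perm.sign σ : ℤˣ) : ℤ) • (List.ofFn (fun i : Fin b => ge i)).prod := by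
  have h := (ExteriorAlgebra.ιMulti ℤ b (M := Fin b → ℤ)).map_perm
    (fun i => (Pi.single i 1 : Fin b → ℤ)) σ
  rw [ExteriorAlgebra.ιMulti_apply, ExteriorAlgebra.ιMulti_apply] at h
  exact h

theorem phL_prod {b : ℕ} (L : List (Fin b)) (hL : L.Nodup) :
    phL L ((L.map (fun s => (ge s : Lam b))).prod) ≠ 0 := by
  induction L with
  | nil => rw [List.map_nil, List.prod_nil, phL_one, if_pos rfl]; exact one_ne_zero
  | cons s L ih =>
    obtain ⟨ε, hε, h⟩ := phL_mul s (s :: L) hL
    rw [List.map_cons, List.prod_cons, h, if_pos List.mem_cons_self, List.erase_cons_head]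
    exact mul_ne_zero (fun h0 => by rw [h0] at hε; simp at hε) (ih (List.nodup_cons.1 hL).2)

theorem phL_top (b : ℕ) : ∃ ε : ℤ, ε * ε = 1 ∧
    phL (List.finRange b) ((List.ofFn (fun i : Fin b => (ge i : Lam b))).prod) = ε := by
  have key : ∀ (L : List (Fin b)), L.Nodup → ∃ ε : ℤ, ε * ε = 1 ∧
      phL L ((L.map (fun s => (ge s : Lam b))).prod) = ε := by
    intro L
    induction L with
    | nil => intro _; exact ⟨1, one_mul 1, by rw [List.map_nil, List.prod_nil, phL_one, if_pos rfl]⟩
    | cons s L ih =>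
      intro hL
      obtain ⟨ε, hε, h⟩ := phL_mul s (s :: L) hL
      obtain ⟨δ, hδ, h'⟩ := ih (List.nodup_cons.1 hL).2
      refine ⟨ε * δ, by rw [mul_mul_mul_comm, hε, hδ, one_mul], ?_⟩
      rw [List.map_cons, List.prod_cons, h, if_pos List.mem_cons_self, List.erase_cons_head, h']
  obtain ⟨ε, hε, h⟩ := key (List.finRange b) (List.nodup_finRange b)
  refine ⟨ε, hε, ?_⟩
  rw [← h, List.ofFn_eq_map]

section kap

variable {ι Φ U : Type} [Fintype ι] [DecidableEq ι] [Ring Φ] [Ring U] {z : ι}
variable (S : SupStr ι Φ U z) {b : ℕ} {Y : Type} [DecidableEq Y]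

theorem par_elim (u : Y → Φ) (v : Fin b → Φ) (hu : ∀ y, u y ∈ S.ev) (hv : ∀ s, v s ∈ S.od) :
    Par S (Sum.elim u v) (lab Y b) := by
  rintro (y | s)
  · exact ⟨fun _ => hu y, fun s hs => by simp [lab] at hs⟩
  · exact ⟨fun h => by simp [lab] at h, fun t _ => hv s⟩

/-- R0 for arbitrary odd letters. -/
theorem R0' (E : Y → Prop) (c : Fin b → Y) (k : ℕ) (hA : Anti S.f k) (p q : Fin k ↪ ι)
    (hF : Frame p q z) (u : Y → Φ) (v : Fin b → Φ) (hu : ∀ y, u y ∈ S.ev) (hv : ∀ s, v s ∈ S.od)
    (P : FA Y) (hP : GI k E P) (φ φ' : Lam b →ₗ[ℤ] ℤ) :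
    GT.coef U φ' (GT.coef (GT U b) φ (FA.lift (gsub E c
      (S.gx (Sum.elim u v) (lab Y b) z)) P)) *
      (anti S.f (univ.map p) * anti S.f (univ.map q)) = 0 := by
  have h4 := S.ba (Sum.elim u v) (lab Y b) (par_elim S u v hu hv) k hA p q hF (hst E c φ P)
    (fun C _ m => hst_mat E c k P hP φ C m)
  rw [lift_hst] at h4
  rw [← GT.coef_mul_one, h4, map_zero]

/-- The words which kill the `k k` letters give relations. -/
theorem kap (k : ℕ) (hA : Anti S.f k) (p q : Fin k ↪ ι) (hF : Frame p q z)
    (u : Y → Φ) (v : Fin b → Φ) (hu : ∀ y, u y ∈ S.ev) (hv : ∀ s, v s ∈ S.od)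
    (P : FA Y) (d : Fin b → Y) (σ : Perm (Fin b)) (x : H4.P (Fin b))
    (hx : H4.act (k * k) (Fin b) x = 0) :
    evP (fun t : Perm (Fin b) => ((Perm.sign t : ℤˣ) : ℤ) •
      (GG (fun y => S.ρ z (u y)) P (List.ofFn (fun i => (d i, S.ρ z (v (t (σ i)))))) *
        (anti S.f (univ.map p) * anti S.f (univ.map q)))) x = 0 := by
  set om := anti S.f (univ.map p) * anti S.f (univ.map q) with hom
  let h : FA (Y ⊕ Fin b) := evP (fun t : Perm (Fin b) => GG (fun y => FA.of (Sum.inl y)) P
    (List.ofFn (fun i => (d i, FA.of (Sum.inr (t (σ i))))))) x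
  have hlift : ∀ {A : Type} [Ring A] (m : Y ⊕ Fin b → A), FA.lift m h =
      evP (fun t : Perm (Fin b) => GG (fun y => m (Sum.inl y)) P
        (List.ofFn (fun i => (d i, m (Sum.inr (t (σ i))))))) x := by
    intro A _ m
    have e1 := map_evP (FA.lift m).toAddMonoidHom
      (fun t : Perm (Fin b) => GG (fun y => FA.of (Sum.inl y)) P
        (List.ofFn (fun i => (d i, FA.of (Sum.inr (t (σ i))))))) x
    change FA.lift m h = _ at e1
    rw [e1]
    refine evP_congr (fun t => ?_) x
    change FA.lift m (GG _ P _) = _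
    rw [← GG_natural, List.map_ofFn]
    congr 1
    · funext y
      rw [FA.lift_of]
    · congr 1
      funext i
      simp
  have hid : ∀ (C : Type) [CommRing C] (m : Y ⊕ Fin b → Matrix (Fin k) (Fin k) C),
      FA.lift m h = 0 := by
    intro C _ m
    rw [hlift]
    exact evP_multilinear hx ((Matrix.stdBasis C (Fin k) (Fin k)).reindex finProdFinEquiv)
      ((GM C (fun y => m (Sum.inl y)) P d).domDomCongr σ) (fun s => m (Sum.inr s))
  have h4 := S.ba (Sum.elim u v) (lab Y b) (par_elim S u v hu hv) k hA p q hF h hid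
  rw [hlift] at h4
  obtain ⟨ε, hε, hphi⟩ := phL_top b
  have h5 : ∀ t : Perm (Fin b), GG (fun y => S.gx (Sum.elim u v) (lab Y b) z (Sum.inl y)) P
      (List.ofFn (fun i => (d i, S.gx (Sum.elim u v) (lab Y b) z (Sum.inr (t (σ i)))))) =
      ((Perm.sign (t * σ) : ℤˣ) : ℤ) • GT.mk (GG (fun y => S.ρ z (u y)) P
        (List.ofFn (fun i => (d i, S.ρ z (v (t (σ i)))))))
        ((List.ofFn (fun i : Fin b => (ge i : Lam b))).prod) := by
    intro t
    have e1 := GG_ext (b := b) (fun y => S.ρ z (u y)) P
      (List.ofFn (fun i => (d i, S.ρ z (v (t (σ i))), (ge (t (σ i)) : Lam b))))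
    rw [List.map_ofFn, List.map_ofFn, List.map_ofFn] at e1
    have e2 : (fun y => S.gx (Sum.elim u v) (lab Y b) z (Sum.inl y)) =
        fun y => GT.mk (S.ρ z (u y)) (1 : Lam b) := rfl
    have e3 : (fun i => (d i, S.gx (Sum.elim u v) (lab Y b) z (Sum.inr (t (σ i))))) =
        ((fun q : Y × U × Lam b => (q.1, GT.mk q.2.1 q.2.2)) ∘
          fun i => (d i, S.ρ z (v (t (σ i))), (ge (t (σ i)) : Lam b))) := by
      funext i
      change (d i, GT.mk (S.τ z (v (t (σ i)))) (ge (t (σ i)))) =
        (d i, GT.mk (S.ρ z (v (t (σ i)))) (ge (t (σ i))))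
      rw [S.τ_z _ (hv _)]
    rw [e2, e3, e1]
    have e4 : (List.ofFn ((fun q : Y × U × Lam b => q.2.2) ∘
        fun i => (d i, S.ρ z (v (t (σ i))), (ge (t (σ i)) : Lam b)))).prod =
        ((Perm.sign (t * σ) : ℤˣ) : ℤ) • (List.ofFn (fun i : Fin b => (ge i : Lam b))).prod :=
      ge_prod_perm (t * σ)
    rw [e4]
    have e5 : ∀ (n : ℤ) (a : U) (ω : Lam b), GT.mk a (n • ω) = n • GT.mk a ω := by
      intro n a ω
      let f : Lam b →+ GT U b :=
        { toFun := fun ω => GT.mk a ω
          map_zero' := TensorProduct.tmul_zero _ _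
          map_add' := fun x y => TensorProduct.tmul_add _ _ _ }
      exact map_zsmul f n ω
    rw [e5]
    rfl
  rw [evP_congr h5] at h4
  -- take the top coefficient
  have e6 := congrArg (GT.coef U (phL (List.finRange b))) h4
  rw [GT.coef_mul_one, map_zero] at e6
  have e7 := map_evP (GT.coef U (phL (List.finRange b)))
    (fun t : Perm (Fin b) => ((Perm.sign (t * σ) : ℤˣ) : ℤ) •
      GT.mk (GG (fun y => S.ρ z (u y)) P
        (List.ofFn (fun i => (d i, S.ρ z (v (t (σ i)))))))
        ((List.ofFn (fun i : Fin b => (ge i : Lam b))).prod)) x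
  rw [e7] at e6
  have e8 := map_evP (AddMonoidHom.mulRight om)
    (fun t : Perm (Fin b) => GT.coef U (phL (List.finRange b)) (((Perm.sign (t * σ) : ℤˣ) : ℤ) •
      GT.mk (GG (fun y => S.ρ z (u y)) P
        (List.ofFn (fun i => (d i, S.ρ z (v (t (σ i)))))))
        ((List.ofFn (fun i : Fin b => (ge i : Lam b))).prod))) x
  rw [AddMonoidHom.mulRight_apply, e6] at e8
  have e9 := map_evP (zsmulAddGroupHom (((Perm.sign σ : ℤˣ) : ℤ) * ε))
    (fun t : Perm (Fin b) => AddMonoidHom.mulRight om
      (GT.coef U (phL (List.finRange b)) (((Perm.sign (t * σ) : ℤˣ) : ℤ) •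
      GT.mk (GG (fun y => S.ρ z (u y)) P
        (List.ofFn (fun i => (d i, S.ρ z (v (t (σ i)))))))
        ((List.ofFn (fun i : Fin b => (ge i : Lam b))).prod)))) x
  rw [← e8, map_zero] at e9
  rw [e9]
  refine evP_congr (fun t => ?_) x
  rw [AddMonoidHom.mulRight_apply, map_zsmul, GT.coef_mk, hphi]
  change _ = (((Perm.sign σ : ℤˣ) : ℤ) * ε) • (_ : U)
  rw [smul_mul_assoc, smul_mul_assoc, smul_smul, smul_smul]
  congr 1
  rw [Perm.sign_mul, Units.val_mul]
  have h1 := H4.sign_sq σ
  calc ((Perm.sign t : ℤˣ) : ℤ) = ((Perm.sign t : ℤˣ) : ℤ) *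
        (((Perm.sign σ : ℤˣ) : ℤ) * ((Perm.sign σ : ℤˣ) : ℤ)) * (ε * ε) := by
        rw [h1, hε, mul_one, mul_one]
    _ = _ := by ring

end kap

end Pool.PI34.SS

end

/-! ### part EV_Kill -/
section

/-!
PI34, block EV (even input of (S_ex)), file Kill: the coloured relations hold for the values of words and loops
in every string system.
-/

set_option autoImplicit false
set_option linter.unusedSectionVars false

namespace Pool.PI34.EV

open Equiv Finset Matrix
open Pool.PI34.BA Pool.PI34.H4 Pool.PI34.SS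

/-! ### change of the labels -/

section relabel

variable {A A' : Type} (e : A → A')

/-- change of the labels of a loop -/
def mpL (u : LD A) : LD A' := (e u.1, u.2.1.map e, u.2.2)

theorem wd_mpL {Φ : Type} [Ring Φ] (x : A' → Φ) (u : LD A) :
    wd x (mpL e u) = wd (fun a => x (e a)) u := by
  change (((u.1 :: u.2.1).map e).map x).prod = ((u.1 :: u.2.1).map fun a => x (e a)).prod
  rw [List.map_map]
  rfl

theorem RR_mpL {ι Φ E : Type} [Fintype ι] [DecidableEq ι] [Ring Φ] [Ring E] (S : Str ι Φ E)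
    {k : ℕ} (p : Fin k ↪ ι) (x : A' → Φ) (us : List (LD A)) :
    ∀ W : E, RR S p x (us.map (mpL e)) W = RR S p (fun a => x (e a)) us W := by
  induction us with
  | nil => intro W; rfl
  | cons u us ih =>
    intro W
    change RR S p x (us.map (mpL e)) (Tr S p (wd x (mpL e u)) * W) =
      RR S p (fun a => x (e a)) us (Tr S p (wd (fun a => x (e a)) u) * W)
    rw [ih, wd_mpL]

theorem val_mpL {ι Φ E : Type} [Fintype ι] [DecidableEq ι] [Ring Φ] [Ring E] (S : Str ι Φ E)
    {k : ℕ} (p q : Fin k ↪ ι) (z : ι) (x : A' → Φ) (w : List A) (us : List (LD A)) :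
    val S p q z x (w.map e) (us.map (mpL e)) = val S p q z (fun a => x (e a)) w us := by
  unfold val
  rw [RR_mpL, List.map_map]
  rfl

theorem pl_mpL (us : List (LD A)) : pl (us.map (mpL e)) = (pl us).map e := by
  unfold pl
  rw [List.map_map, List.map_flatten, List.map_map]
  rfl

theorem idx_mpL (us : List (LD A)) : idx (us.map (mpL e)) = idx us := by
  unfold idx
  rw [List.map_map]
  rfl

theorem len_mpL (us : List (LD A)) : len (us.map (mpL e)) = len us := by
  unfold len
  rw [List.map_map]
  congr 1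
  refine List.map_congr_left fun u _ => ?_
  change (u.2.1.map e).length + 1 = u.2.1.length + 1
  rw [List.length_map]

theorem len_eq (us : List (LD A)) : len us = (pl us).length := by
  unfold len pl
  rw [List.length_flatten, List.map_map]
  rfl

end relabel

/-! ### the trace formula -/

section traces

variable {A : Type} [Fintype A] [DecidableEq A] {m : ℕ} {R : Type} [CommRing R]

/-- the matrices of the labels; the open strand gets the matrix unit `e_{ji}` -/
def NN (i j : Fin (m + 1)) (M : A → Matrix (Fin (m + 1)) (Fin (m + 1)) R) :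
    Option A → Matrix (Fin (m + 1)) (Fin (m + 1)) R
  | none => Matrix.single j i 1
  | some a => M a

theorem trace_single_mul' (i j : Fin (m + 1)) (X : Matrix (Fin (m + 1)) (Fin (m + 1)) R) :
    (Matrix.single j i 1 * X).trace = X i j := by
  unfold Matrix.trace
  rw [Finset.sum_eq_single j]
  · rw [Matrix.diag_apply, Matrix.mul_apply, Finset.sum_eq_single i]
    · rw [Matrix.single_apply, if_pos ⟨rfl, rfl⟩, one_mul]
    · intro b _ hb
      rw [Matrix.single_apply, if_neg (fun h => hb h.2.symm), zero_mul]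
    · intro h
      exact absurd (mem_univ _) h
  · intro b _ hb
    rw [Matrix.diag_apply, Matrix.mul_apply]
    refine Finset.sum_eq_zero fun c _ => ?_
    rw [Matrix.single_apply, if_neg (fun h => hb h.1.symm), zero_mul]
  · intro h
    exact absurd (mem_univ _) h

theorem trace_formula (M : A → Matrix (Fin (m + 1)) (Fin (m + 1)) R) (w : List A)
    (us : List (LD A)) (hnd : (w ++ pl us).Nodup) (hall : ∀ a, a ∈ w ++ pl us)
    (i j : Fin (m + 1)) :
    (us.map fun u => (wd M u).trace).prod * (w.map M).prod i j =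
      Zs (dperm w us) (NN i j M) := by
  have hfl : ((none :: w.map some) :: us.map fun u => (u.1 :: u.2.1).map some).flatten =
      none :: (w ++ pl us).map some := by
    unfold pl
    rw [List.flatten_cons, List.cons_append, List.map_append, List.map_flatten, List.map_map]
    rfl
  have h := Zs_eq (R := R) (m := m)
    ((none :: w.map some) :: us.map fun u => (u.1 :: u.2.1).map some) (NN i j M) (by
      rw [hfl, List.nodup_cons]
      exact ⟨by simp, hnd.map (Option.some_injective A)⟩) (by
      intro l hl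
      rcases List.mem_cons.1 hl with rfl | hl
      · exact List.cons_ne_nil _ _
      · obtain ⟨u, _, rfl⟩ := List.mem_map.1 hl
        rw [List.map_cons]
        exact List.cons_ne_nil _ _) (by
      intro s hs
      exfalso
      apply hs
      rw [hfl]
      cases s with
      | none => exact List.mem_cons_self
      | some a => exact List.mem_cons_of_mem _ (List.mem_map_of_mem (hall a)))
  have hd : dperm w us = ((((none :: w.map some) :: us.map fun u => (u.1 :: u.2.1).map some).map
      List.formPerm).prod)⁻¹ := by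
    unfold dperm
    rw [List.map_cons, List.prod_cons, List.map_map]
    rfl
  rw [hd, h, List.map_cons, List.prod_cons, List.map_cons, List.prod_cons]
  have h1 : NN i j M none = Matrix.single j i 1 := rfl
  rw [h1, trace_single_mul', mul_comm, List.map_map, List.map_map]
  have h2 : w.map (NN i j M ∘ some) = w.map M := List.map_congr_left fun _ _ => rfl
  rw [h2]
  congr 2
  refine List.map_congr_left fun u _ => ?_
  change (wd M u).trace = (((u.1 :: u.2.1).map some).map (NN i j M)).prod.trace
  rw [List.map_map]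
  rfl

end traces

/-! ### the relations for the generic matrices -/

section rel

variable {T : Type} [Fintype T] [DecidableEq T] {m : ℕ} {R : Type} [CommRing R]

theorem Zs_kill (N : T → Matrix (Fin (m + 1)) (Fin (m + 1)) R) (y : P T)
    (hy : act (m + 1) T y = 0) : evP (fun π => Zs π N) y = 0 := by
  have h1 : ∀ ψ : T → Fin (m + 1), evP (fun π : Perm T => ∏ s, N s (ψ (π s)) (ψ s)) y = 0 :=
    fun ψ => evP_kill hy (fun ψ1 : T → Fin (m + 1) => ∏ s, N s (ψ1 s) (ψ s)) ψ
  have h2 : evP (fun π => Zs π N) y = ∑ ψ : T → Fin (m + 1),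
      evP (fun π : Perm T => ∏ s, N s (ψ (π s)) (ψ s)) y := by
    change ∑ t, y.coeff t • Zs t N = ∑ ψ : T → Fin (m + 1),
      ∑ t : Perm T, y.coeff t • ∏ s, N s (ψ (t s)) (ψ s)
    rw [Finset.sum_comm]
    refine Finset.sum_congr rfl fun t _ => ?_
    unfold Zs
    rw [Finset.smul_sum]
  rw [h2]
  exact Finset.sum_eq_zero fun ψ _ => h1 ψ

theorem Zs_conj (N : T → Matrix (Fin (m + 1)) (Fin (m + 1)) R) (h σ : Perm T)
    (hN : ∀ s, N (h s) = N s) : Zs (h * σ * h⁻¹) N = Zs σ N := by
  unfold Zs
  refine Fintype.sum_equiv (h.symm.arrowCongr (Equiv.refl (Fin (m + 1)))) _ _ fun ψ => ?_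
  refine (Equiv.prod_comp h fun s => N s (ψ ((h * σ * h⁻¹) s)) (ψ s)).symm.trans ?_
  refine Finset.prod_congr rfl fun s _ => ?_
  have h1 : (h * σ * h⁻¹) (h s) = h (σ s) := by
    rw [Perm.mul_apply, Perm.mul_apply]
    exact congrArg (fun t => h (σ t)) (h.symm_apply_apply s)
  rw [h1, hN]
  rfl

theorem Zs_colour (N : T → Matrix (Fin (m + 1)) (Fin (m + 1)) R) (S : Finset (Perm T))
    (hN : ∀ h ∈ S, ∀ s, N (h s) = N s) (y : P T)
    (hy : act (m + 1) T (∑ h ∈ S, g h * y * g h⁻¹) = 0) :
    S.card • evP (fun π => Zs π N) y = 0 := by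
  have h1 := Zs_kill N _ hy
  rw [map_sum] at h1
  have h2 : ∀ h ∈ S, evP (fun π => Zs π N) (g h * y * g h⁻¹) = evP (fun π => Zs π N) y := by
    intro h hh
    refine P_induction (p := fun y => evP (fun π => Zs π N) (g h * y * g h⁻¹) =
      evP (fun π => Zs π N) y) y ?_ ?_ ?_
    · intro σ
      rw [← g_mul, ← g_mul, evP_g, evP_g, Zs_conj N h σ (hN h hh)]
    · intro a b ha hb
      rw [mul_add, add_mul, map_add, ha, hb, map_add]
    · intro n a ha
      rw [mul_smul_comm, smul_mul_assoc, map_zsmul, ha, map_zsmul]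
  rw [Finset.sum_congr rfl h2, Finset.sum_const] at h1
  exact h1

end rel

end Pool.PI34.EV

end

/-! ### part S2_Main -/
section

/-!
PI34, block S2, file 4: THEOREM S up to a constant which depends only on `k` and `Q`, for rings
without torsion prime to `Q`.
-/

set_option autoImplicit false
set_option linter.unusedSectionVars false

namespace Pool.PI34.SS

open Equiv Finset
open Pool.PI34.BA

section fin

variable {ι Φ U : Type} [Fintype ι] [DecidableEq ι] [Ring Φ] [Ring U] {z : ι}
variable (S : SupStr ι Φ U z) {b : ℕ} {Y : Type} [DecidableEq Y]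

/-- The full multilinear component kills `ω`. -/
theorem full (k : ℕ) (hA : Anti S.f k) (p q : Fin k ↪ ι) (hF : Frame p q z) (c : Fin b → Y)
    (u : Y → Φ) (v : Fin b → Φ) (hu : ∀ y, u y ∈ S.ev) (hv : ∀ s, v s ∈ S.od)
    (P : FA Y) (hP : P ∈ QQ k Y) :
    (∑ τ : Perm (Fin b), GG (fun y => S.ρ z (u y)) P
      (List.ofFn (fun i => (c (τ i), S.ρ z (v (τ i)))))) *
        (anti S.f (univ.map p) * anti S.f (univ.map q)) = 0 := by
  have h1 := R0' S (fun _ => True) c k hA p q hF u v hu hv P hP (phL (List.finRange b))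
    (phL (List.finRange b))
  have h2 := CL_GG c (fun y => S.ρ z (u y)) (fun s => S.ρ z (v s)) P
  rw [← h2]
  have h3 : (fun y => GT.mk (GT.mk (S.ρ z (u y)) (1 : Lam b)) (1 : Lam b) +
      ∑ s, if c s = y then GT.mk (GT.mk (S.ρ z (v s)) (ge s)) (ge s) else 0) =
      gsub (fun _ => True) c (S.gx (Sum.elim u v) (lab Y b) z) := by
    funext y
    unfold gsub
    rw [if_pos trivial]
    congr 1
    refine Finset.sum_congr rfl (fun s _ => ?_)
    split_ifs
    · change _ = GT.mk (GT.mk (S.τ z (v s)) (ge s)) (ge s)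
      rw [S.τ_z _ (hv s)]
    · rfl
  rw [h3]
  exact h1

/-- The components kill `ω`, up to an integer of the catalyst lemma. -/
theorem comp_main (k N : ℕ) (hN : N = k * k) (hA : Anti S.f k) (p q : Fin k ↪ ι)
    (hF : Frame p q z) (c : Fin b → Y) (u v : Y → Φ) (hu : ∀ y, u y ∈ S.ev)
    (hv : ∀ s, v s ∈ S.od) (P : FA Y) (hP : P ∈ QQ k Y) (n : ℤ)
    (hn : n • (1 : H4.P (Fin b)) ∈ H4.J N c) :
    n • ((Gam (fun y => S.ρ z (u y)) (fun y => S.ρ z (v y)) P).coeff
      ((List.ofFn c : List Y) : Multiset Y) *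
        (anti S.f (univ.map p) * anti S.f (univ.map q))) = 0 := by
  classical
  set om := anti S.f (univ.map p) * anti S.f (univ.map q) with hom
  let al : Y → U := fun y => S.ρ z (u y)
  let D : Finset (Fin b → Y) := univ.image (fun τ : Perm (Fin b) => c ∘ τ)
  let sg : (Fin b → Y) → Perm (Fin b) := fun d => if h : ∃ τ : Perm (Fin b), c ∘ τ = d
    then h.choose else 1
  have hsg : ∀ d ∈ D, c ∘ ⇑(sg d) = d := by
    intro d hd
    obtain ⟨τ, _, hτ⟩ := Finset.mem_image.1 hd
    have h : ∃ τ : Perm (Fin b), c ∘ τ = d := ⟨τ, hτ⟩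
    simp only [sg, dif_pos h]
    exact h.choose_spec
  let φ : Perm (Fin b) → U := fun t => ((Perm.sign t : ℤˣ) : ℤ) •
    ∑ d ∈ D, (GG al P (List.ofFn (fun i => (d i, S.ρ z (v (c (t (sg d i))))))) * om)
  -- restitution
  have hb0 : evP φ (1 : H4.P (Fin b)) = (Gam (fun y => S.ρ z (u y)) (fun y => S.ρ z (v y)) P).coeff
      ((List.ofFn c : List Y) : Multiset Y) * om := by
    rw [← H4.g_one, evP_g, Gam_GG]
    simp only [φ, Perm.sign_one, Units.val_one, one_smul]
    rw [Finset.sum_mul]
    refine Finset.sum_congr rfl (fun d hd => ?_)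
    congr 2
    congr 1
    funext i
    have := congrFun (hsg d hd) i
    simp only [Function.comp_apply] at this
    rw [Perm.one_apply, this]
  -- equal letters
  have hb1 : ∀ (i j : Fin b), i ≠ j → c i = c j → ∀ t : Perm (Fin b),
      φ t + φ (swap i j * t) = 0 := by
    intro i j hij hc t
    simp only [φ]
    have h1 : ∀ x, c ((swap i j * t) x) = c (t x) := by
      intro x
      rw [Perm.mul_apply]
      have := congrFun (H4.swap_resp (col := c) hc) (t x)
      exact this
    simp only [h1]
    rw [Perm.sign_mul, Perm.sign_swap hij]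
    rw [neg_one_mul, Units.val_neg, neg_smul, add_neg_cancel]
  -- the signed sum
  have hb2 : ∀ t : Perm (Fin b), evP φ (H4.g t * H4.Ac c) = 0 := by
    intro t
    unfold H4.Ac
    rw [Finset.mul_sum, map_sum]
    have h1 : ∀ s ∈ univ.filter (fun s : Perm (Fin b) => c ∘ s = c),
        evP φ (H4.g t * ((Perm.sign s : ℤˣ) : ℤ) • H4.g s) = ((Perm.sign t : ℤˣ) : ℤ) •
          ∑ d ∈ D, (GG al P (List.ofFn (fun i => (c ((s * sg d) i),
            S.ρ z (v (c (t ((s * sg d) i))))))) * om) := by
      intro s hs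
      rw [mul_smul_comm, map_zsmul, ← H4.g_mul, evP_g]
      simp only [φ]
      rw [smul_smul, Perm.sign_mul, Units.val_mul]
      have h2 : ((Perm.sign s : ℤˣ) : ℤ) * (((Perm.sign t : ℤˣ) : ℤ) * ((Perm.sign s : ℤˣ) : ℤ)) =
          ((Perm.sign t : ℤˣ) : ℤ) := by
        have := H4.sign_sq s
        calc _ = ((Perm.sign t : ℤˣ) : ℤ) * (((Perm.sign s : ℤˣ) : ℤ) *
              ((Perm.sign s : ℤˣ) : ℤ)) := by ring
          _ = _ := by rw [this, mul_one]
      rw [h2]
      congr 1
      refine Finset.sum_congr rfl (fun d hd => ?_)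
      congr 2
      congr 1
      funext i
      have h3 := congrFun (hsg d hd) i
      have h4 := congrFun (Finset.mem_filter.1 hs).2 (sg d i)
      simp only [Function.comp_apply] at h3 h4
      have h5 : c ((s * sg d) i) = d i := by
        rw [Perm.mul_apply]
        exact h4.trans h3
      rw [h5]
      rfl
    rw [Finset.sum_congr rfl h1, ← Finset.smul_sum]
    have h2 : ∑ s ∈ univ.filter (fun s : Perm (Fin b) => c ∘ s = c), ∑ d ∈ D,
        (GG al P (List.ofFn (fun i => (c ((s * sg d) i), S.ρ z (v (c (t ((s * sg d) i))))))) * om) =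
        ∑ τ : Perm (Fin b), (GG al P (List.ofFn (fun i => (c (τ i),
          S.ρ z (v (c (t (τ i))))))) * om) := by
      rw [← Finset.sum_product']
      refine Finset.sum_bij (fun x _ => x.1 * sg x.2) ?_ ?_ ?_ ?_
      · intro x _
        exact mem_univ _
      · intro x hx y hy hxy
        rw [Finset.mem_product, Finset.mem_filter] at hx hy
        have h3 : ∀ x : Perm (Fin b) × (Fin b → Y), c ∘ ⇑x.1 = c → x.2 ∈ D →
            c ∘ ⇑(x.1 * sg x.2) = x.2 := by
          intro x hx1 hx2
          have h4 : c ∘ ⇑(x.1 * sg x.2) = (c ∘ ⇑x.1) ∘ ⇑(sg x.2) := rfl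
          rw [h4, hx1, hsg _ hx2]
        have h5 : x.2 = y.2 := by
          rw [← h3 x hx.1.2 hx.2, ← h3 y hy.1.2 hy.2, hxy]
        have h6 : x.1 = y.1 := by
          rw [h5] at hxy
          exact mul_right_cancel hxy
        exact Prod.ext h6 h5
      · intro τ _
        have hd : c ∘ ⇑τ ∈ D := Finset.mem_image_of_mem _ (mem_univ τ)
        refine ⟨(τ * (sg (c ∘ τ))⁻¹, c ∘ τ), ?_, by simp⟩
        rw [Finset.mem_product, Finset.mem_filter]
        refine ⟨⟨mem_univ _, ?_⟩, hd⟩
        funext x
        have h3 := congrFun (hsg _ hd) ((sg (c ∘ ⇑τ))⁻¹ x)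
        simp only [Function.comp_apply] at h3
        have h4 : sg (c ∘ ⇑τ) ((sg (c ∘ ⇑τ))⁻¹ x) = x := Equiv.apply_symm_apply _ x
        rw [Function.comp_apply, Perm.mul_apply, ← h3, h4]
      · intro x _
        rfl
    rw [h2]
    have h3 := full S k hA p q hF c u (fun s => v (c (t s))) hu (fun s => hv _) P hP
    rw [Finset.sum_mul] at h3
    rw [h3, smul_zero]
  -- the relations
  have hb3 : ∀ x : H4.P (Fin b), H4.act N (Fin b) x = 0 → evP φ x = 0 := by
    intro x hx
    have h1 : evP φ x = ∑ d ∈ D, evP (fun t : Perm (Fin b) => ((Perm.sign t : ℤˣ) : ℤ) •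
      (GG al P (List.ofFn (fun i => (d i, S.ρ z (v (c (t (sg d i))))))) * om)) x := by
      change ∑ t, x.coeff t • φ t = ∑ d ∈ D, ∑ t, x.coeff t • _
      rw [Finset.sum_comm]
      refine Finset.sum_congr rfl (fun t _ => ?_)
      simp only [φ]
      rw [← Finset.smul_sum, ← Finset.smul_sum]
    rw [h1]
    refine Finset.sum_eq_zero (fun d _ => ?_)
    rw [hN] at hx
    exact kap S k hA p q hF u (fun s => v (c s)) hu (fun s => hv _) P d (sg d) x hx
  have hJ : H4.J N c ≤ (evP φ).ker := by
    unfold H4.J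
    rw [AddSubgroup.closure_le]
    rintro x ((⟨i, j, a, hij, hc, rfl⟩ | ⟨a, rfl⟩) | hx)
    · change evP φ ((1 + H4.g (swap i j)) * a) = 0
      refine H4.P_induction (p := fun a => evP φ ((1 + H4.g (swap i j)) * a) = 0) a ?_ ?_ ?_
      · intro t
        rw [add_mul, one_mul, ← H4.g_mul, map_add, evP_g, evP_g]
        exact hb1 i j hij hc t
      · intro a a' h h'
        rw [mul_add, map_add, h, h', add_zero]
      · intro m a h
        rw [mul_smul_comm, map_zsmul, h, smul_zero]
    · change evP φ (a * H4.Ac c) = 0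
      refine H4.P_induction (p := fun a => evP φ (a * H4.Ac c) = 0) a hb2 ?_ ?_
      · intro a a' h h'
        rw [add_mul, map_add, h, h', add_zero]
      · intro m a h
        rw [smul_mul_assoc, map_zsmul, h, smul_zero]
    · exact hb3 x hx
  have h0 := hJ hn
  rw [AddMonoidHom.mem_ker, map_zsmul, hb0] at h0
  exact h0

theorem aug_smul_eq_zero {Y : Type} (F : AddMonoidAlgebra U (Multiset Y)) (w : U) (n : ℤ)
    (h : ∀ M, n • (F.coeff M * w) = 0) : n • (aug U Y F * w) = 0 := by
  have h1 : n • (aug U Y F * w) = aug U Y (n • F) * w := by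
    rw [map_zsmul, smul_mul_assoc]
  rw [h1]
  refine aug_mul_eq_zero _ _ (fun M => ?_)
  rw [AddMonoidAlgebra.coeff_smul_apply, smul_mul_assoc]
  exact h M

end fin

/-- **THEOREM S with a constant**: the identities of the `k × k` matrices over supercommutative
rings kill `D A_P A_Q` in the rings without torsion prime to `Q`. -/
theorem main' (k Q : ℕ) (hQ : 1 ≤ Q) : ∃ D : ℕ, 0 < D ∧
    ∀ {ι Φ U : Type} [Fintype ι] [DecidableEq ι] [Ring Φ] [Ring U] {z : ι} (S : SupStr ι Φ U z),
      Anti S.f k → ∀ (p q : Fin k ↪ ι), Frame p q z →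
      (∀ n : ℕ, Nat.Coprime n Q → ∀ x : U, n • x = 0 → x = 0) →
      ∀ {X : Type} (g : FA X), g ∈ QQ k X → ∀ (r : X → Φ),
        D • (S.ρ z (FA.lift r g) * (anti S.f (univ.map p) * anti S.f (univ.map q))) = 0 := by
  classical
  obtain ⟨D, hD, hCL⟩ := H4.CL (k * k) Q hQ
  refine ⟨D.toNat, by omega, ?_⟩
  intro ι Φ U _ _ _ _ z S hA p q hF hinv X g hg r
  choose u hu v hv huv using fun x => S.dec (r x)
  have h1 : S.ρ z (FA.lift r g)
      = aug U X (Gam (fun o => S.ρ z (u o)) (fun o => S.ρ z (v o)) g) := by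
    refine FA.ext ((S.ρ z).comp (FA.lift r)) ((aug U X).comp
      (Gam (fun o => S.ρ z (u o)) (fun o => S.ρ z (v o)))) (fun x => ?_) g
    rw [RingHom.comp_apply, FA.lift_of, RingHom.comp_apply]
    unfold Gam aug
    rw [FA.lift_of, map_add, AddMonoidAlgebra.liftNCRingHom_single,
      AddMonoidAlgebra.liftNCRingHom_single, huv x]
    simp
  rw [h1, ← natCast_zsmul, Int.toNat_of_nonneg hD.le]
  refine aug_smul_eq_zero _ _ _ (fun M => ?_)
  obtain ⟨l, rfl⟩ := Quot.exists_rep M
  let c : Fin l.length → X := fun s => l.get s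
  obtain ⟨w, hw, hJ⟩ := hCL (Fin l.length) X c
  have h2 := comp_main S k (k * k) rfl hA p q hF c u v hu hv g hg (w * D) hJ
  have h3 : ((List.ofFn c : List X) : Multiset X) = Quot.mk _ l := by
    have : List.ofFn c = l := List.ofFn_get l
    rw [this]
    rfl
  rw [h3, mul_smul] at h2
  have h4 : Nat.Coprime w.natAbs Q := by
    have := Int.isCoprime_iff_gcd_eq_one.1 hw
    rw [Int.gcd_eq_natAbs, Int.natAbs_natCast] at this
    exact this
  refine hinv w.natAbs h4 _ ?_
  rcases Int.natAbs_eq w with h5 | h5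
  · rw [h5, natCast_zsmul] at h2
    exact h2
  · rw [h5, neg_smul, natCast_zsmul, neg_eq_zero] at h2
    exact h2

end Pool.PI34.SS

end

/-! ### part EV_Fin -/
section

/-!
PI34, block EV (even input of (S_ex)), file Fin: EVEN1.
-/

set_option autoImplicit false
set_option linter.unusedSectionVars false

namespace Pool.PI34.EV

open Equiv Finset Matrix
open Pool.PI34.BA Pool.PI34.H4 Pool.PI34.SS

theorem matStr_rho_smul {k : ℕ} {C ι : Type} [CommRing C] [Fintype ι] [DecidableEq ι] (i : ι)
    (r : C) (M : Matrix (Fin k) (Fin k) C) :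
    (matStr k C ι).ρ i (r • M) = r • (matStr k C ι).ρ i M := by
  refine LinearMap.ext fun v => funext fun f => ?_
  change ∑ c, (r • M) (f i) c * v (Function.update f i c) =
    r * ∑ c, M (f i) c * v (Function.update f i c)
  rw [Finset.mul_sum]
  refine Finset.sum_congr rfl fun c _ => ?_
  rw [Matrix.smul_apply, smul_eq_mul, mul_assoc]

/-- the data of a permutation -/
structure Dat {A : Type} [DecidableEq A] (π : Perm (Option A)) (w : List A) (us : List (LD A)) :
    Prop where
  nd : (w ++ pl us).Nodup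
  all : ∀ a, a ∈ w ++ pl us
  ix : (idx us).Nodup
  eq : dperm w us = π

theorem exists_dat {A : Type} [Fintype A] [DecidableEq A] (π : Perm (Option A)) :
    ∃ (w : List A) (us : List (LD A)), Dat π w us := by
  obtain ⟨w, us, h1, h2, h3, h4⟩ := exists_cprod (univ : Finset A) π⁻¹
    (fun a ha => absurd (mem_univ a) ha)
  refine ⟨w, us, h1, fun a => (h2 a).2 (mem_univ a), h3, ?_⟩
  have h5 : dperm w us = (cprod w us)⁻¹ := rfl
  rw [h5, h4, inv_inv]

section gen

variable {A X : Type} [Fintype A] [DecidableEq A] {m : ℕ}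

/-- the relations for the generic matrices -/
theorem gen_kill (cX : A → X) (v : P (Option A))
    (S : Finset (Perm A)) (hS : ∀ h ∈ S, cX ∘ h = cX) (h1S : (1 : Perm A) ∈ S)
    (hv : act (m + 1) (Option A) (∑ h ∈ S, g (oh h) * v * g (oh h)⁻¹) = 0)
    (w : Perm (Option A) → List A) (us : Perm (Option A) → List (LD A))
    (hd : ∀ π, Dat π (w π) (us π)) {ι : Type} [Fintype ι] [DecidableEq ι]
    (p q : Fin (m + 1) ↪ ι) (z : ι) (hF : Frame p q z) :
    evP (fun π => val (matStr (m + 1) (CG X (m + 1)) ι) p q z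
      (fun a => gen X (m + 1) (cX a)) (w π) (us π)) v = 0 := by
  have h1 : ∀ π, val (matStr (m + 1) (CG X (m + 1)) ι) p q z
      (fun a => gen X (m + 1) (cX a)) (w π) (us π) =
      (matStr (m + 1) (CG X (m + 1)) ι).ρ z
        (((us π).map fun u => (wd (fun a => gen X (m + 1) (cX a)) u).trace).prod •
          ((w π).map fun a => gen X (m + 1) (cX a)).prod) *
        (matStr (m + 1) (CG X (m + 1)) ι).om p q := by
    intro π
    rw [val_mat p q z hF, matStr_rho_smul, smul_mul_assoc]
  rw [evP_congr h1]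
  have h2 := map_evP ((AddMonoidHom.mulRight ((matStr (m + 1) (CG X (m + 1)) ι).om p q)).comp
    ((matStr (m + 1) (CG X (m + 1)) ι).ρ z).toAddMonoidHom)
    (fun π => ((us π).map fun u => (wd (fun a => gen X (m + 1) (cX a)) u).trace).prod •
          ((w π).map fun a => gen X (m + 1) (cX a)).prod) v
  refine h2.symm.trans ?_
  have h3 : evP (fun π => ((us π).map fun u => (wd (fun a => gen X (m + 1) (cX a)) u).trace).prod •
          ((w π).map fun a => gen X (m + 1) (cX a)).prod) v = 0 := by
    refine Matrix.ext fun i j => ?_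
    have h4 := map_evP (Matrix.entryAddMonoidHom (CG X (m + 1)) i j)
      (fun π => ((us π).map fun u => (wd (fun a => gen X (m + 1) (cX a)) u).trace).prod •
          ((w π).map fun a => gen X (m + 1) (cX a)).prod) v
    refine h4.trans ?_
    have h5 : ∀ π, Matrix.entryAddMonoidHom (CG X (m + 1)) i j
        (((us π).map fun u => (wd (fun a => gen X (m + 1) (cX a)) u).trace).prod •
          ((w π).map fun a => gen X (m + 1) (cX a)).prod) =
        Zs π (NN i j fun a => gen X (m + 1) (cX a)) := by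
      intro π
      have h6 := trace_formula (fun a => gen X (m + 1) (cX a)) (w π) (us π) (hd π).nd (hd π).all i j
      rw [(hd π).eq] at h6
      rw [← h6]
      rfl
    rw [evP_congr h5]
    have h7 := Zs_colour (NN i j fun a => gen X (m + 1) (cX a)) (S.image oh) (by
      intro h hh s
      obtain ⟨h', hh', rfl⟩ := Finset.mem_image.1 hh
      cases s with
      | none => rfl
      | some a =>
        change gen X (m + 1) (cX (h' a)) = gen X (m + 1) (cX a)
        exact congrArg (gen X (m + 1)) (congrFun (hS h' hh') a)) v (by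
      rw [Finset.sum_image]
      · exact hv
      · intro a _ b _ hab
        ext1 x
        have := congrFun (congrArg (fun f : Perm (Option A) => (f : Option A → Option A)) hab)
          (some x)
        exact Option.some_injective _ this)
    rw [nsmul_eq_mul, mul_eq_zero] at h7
    rcases h7 with h7 | h7
    · exfalso
      have h8 : (S.image oh).card = 0 := by exact_mod_cast h7
      rw [Finset.card_eq_zero] at h8
      have h9 : oh (1 : Perm A) ∈ S.image oh := Finset.mem_image_of_mem _ h1S
      rw [h8] at h9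
      exact absurd h9 (Finset.notMem_empty _)
    · exact h7
  rw [h3, map_zero]

end gen

/-- the relations for all string systems -/
theorem val_kill {m : ℕ} {A C : Type} [Fintype A] [DecidableEq A] [DecidableEq C] (c : A → C)
    (v : P (Option A))
    (hv : act (m + 1) (Option A) (∑ h ∈ univ.filter (fun h : Perm A => c ∘ h = c),
      g (oh h) * v * g (oh h)⁻¹) = 0)
    (w : Perm (Option A) → List A) (us : Perm (Option A) → List (LD A))
    (hd : ∀ π, Dat π (w π) (us π)) {ι Φ E : Type} [Fintype ι] [DecidableEq ι] [Ring Φ] [Ring E]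
    (S : Str ι Φ E) (hA : Anti S.s (m + 1)) (p q : Fin (m + 1) ↪ ι) (z : ι) (hF : Frame p q z)
    (x : C → Φ) :
    evP (fun π => val S p q z (fun a => x (c a)) (w π) (us π)) v = 0 := by
  classical
  let X : Type := {x : C // x ∈ (univ : Finset A).image c}
  let cX : A → X := fun a => ⟨c a, Finset.mem_image_of_mem c (mem_univ a)⟩
  let n : ℕ := Fintype.card A
  let e : A → X × Fin n := fun a => (cX a, Fintype.equivFin A a)
  have he : Function.Injective e := fun a b hab => (Fintype.equivFin A).injective (Prod.ext_iff.1 hab).2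
  have hgen := gen_kill cX v (univ.filter (fun h : Perm A => c ∘ h = c)) (by
    intro h hh
    have h1 := (Finset.mem_filter.1 hh).2
    funext a
    exact Subtype.ext (congrFun h1 a)) (Finset.mem_filter.2 ⟨mem_univ _, rfl⟩) hv w us hd p q z hF
  have hlen : ∀ π, ((w π).map e).length + len ((us π).map (mpL e)) = n := by
    intro π
    rw [List.length_map, len_mpL, len_eq, ← List.length_append]
    have h1 : (w π ++ pl (us π)).toFinset = univ := by
      ext a
      simp only [List.mem_toFinset, mem_univ, iff_true]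
      exact (hd π).all a
    rw [← List.toFinset_card_of_nodup (hd π).nd, h1, Finset.card_univ]
  have hnd : ∀ π, ((w π).map e ++ pl ((us π).map (mpL e))).Nodup := by
    intro π
    rw [pl_mpL, ← List.map_append]
    exact (hd π).nd.map he
  have h := val_glue S (m + 1) n hA p q z hF (rankBound_of_GEN p q z hF (A5.GEN_all X (m + 1) n))
    (fun y : X => x y.1) (fun π : Perm (Option A) => v.coeff π) (fun π => (w π).map e)
    (fun π => (us π).map (mpL e)) hnd (fun π => by rw [idx_mpL]; exact (hd π).ix) hlen (by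
      refine Eq.trans (Finset.sum_congr rfl fun π _ => ?_) hgen
      rw [val_mpL])
  refine Eq.trans (Finset.sum_congr rfl fun π _ => ?_) h
  rw [val_mpL]

/-- PART II (universal string system) implies EVEN1. -/
theorem even1_of_partII (hII : PartII) : Even1 := by
  intro k A C _ _ _ c v hv W _ lam h1 h2
  cases k with
  | zero =>
    refine h1 _ ?_
    refine LinearMap.ext fun f => funext fun x => ?_
    exact (x (Sum.inl none)).elim0
  | succ m =>
    obtain ⟨E, hE, S, ev, hA, hev⟩ := hII (m + 1) A C c W lam h1 h2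
    choose w us hd using fun π : Perm (Option A) => exists_dat π
    have hF : Frame (pS (m + 1)) (qS (m + 1)) (none : St (m + 1)) :=
      ⟨fun i j h => by simp [pS, qS] at h, fun i h => by simp [pS] at h,
        fun i h => by simp [qS] at h⟩
    have h3 := val_kill c v hv w us hd S hA (pS (m + 1)) (qS (m + 1)) none hF
      (fun a => FreeAlgebra.ι ℤ a)
    have h4 := congrArg ev h3
    rw [map_evP, map_zero] at h4
    have h5 : ∀ π, ev (val S (pS (m + 1)) (qS (m + 1)) none
        (fun a => FreeAlgebra.ι ℤ (c a)) (w π) (us π)) = lam (emb Function.Embedding.inl (g π) *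
            (emb (Function.Embedding.inl.trans Function.Embedding.inr) (As (Fin (m + 1))) *
              emb (Function.Embedding.inr.trans Function.Embedding.inr) (As (Fin (m + 1))))) := by
      intro π
      rw [hev (w π) (us π) (hd π).nd (hd π).all, (hd π).eq]
    rw [evP_congr h5] at h4
    rw [← h4]
    refine P_induction (p := fun v => lam (emb Function.Embedding.inl v *
            (emb (Function.Embedding.inl.trans Function.Embedding.inr) (As (Fin (m + 1))) *
              emb (Function.Embedding.inr.trans Function.Embedding.inr) (As (Fin (m + 1))))) =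
        evP (fun π => lam (emb Function.Embedding.inl (g π) *
            (emb (Function.Embedding.inl.trans Function.Embedding.inr) (As (Fin (m + 1))) *
              emb (Function.Embedding.inr.trans Function.Embedding.inr) (As (Fin (m + 1)))))) v) v
      ?_ ?_ ?_
    · intro σ
      rw [evP_g]
    · intro a b ha hb
      rw [map_add, add_mul, map_add, ha, hb, map_add]
    · intro n a ha
      rw [map_zsmul, smul_mul_assoc, map_zsmul, ha, map_zsmul]

end Pool.PI34.EV

end

/-! ### part T3_K -/
section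

/-!
PI34, theorem T3, file K: the final theorem for all the maps of free rings to `Un R`, and the version for chains of ideals.
-/

set_option autoImplicit false

namespace Pool.PI34.T2

open Equiv Finset
open Pool.PI34.C0 Pool.PI34.T1
open Pool.PI34.Super (act bc fv KN mm)

/-- THE FINAL THEOREM -/
theorem finalK
    (hcl : ∀ (S : Set ℕ) (k l : ℕ), (∀ k' l', 0 < k' → k' ≤ k → 0 < l' → l' ≤ l →
      Engine S k' l') → Claim S k l)
    (hP3 : ∀ k l : ℕ, 0 < k → 0 < l → ∃ D : ℕ, 0 < D ∧ Engine {D} k l) (d : ℕ) :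
    ∃ N0 : ℕ, 0 < N0 ∧ ∀ P : Set ℕ,
      (∀ p ∈ P, p.Prime → ∀ k l, 0 < k → 0 < l → Engine (cop p) k l) →
      ∀ (R : Type) [NonUnitalRing R] (a : Perm (Fin (d + 1)) → ℤ), a 1 = 1 →
      (∀ x : Fin (d + 1) → R, ∑ σ : Perm (Fin (d + 1)),
        a σ • ((List.ofFn (fun i : Fin d => x (σ i.succ))).foldl
          (fun u v => u * v) (x (σ 0))) = 0) →
      (∀ p : ℕ, p.Prime → p ∣ N0 → p ∉ P → ∃ e : ℕ, ∀ (r : R) (m : ℕ),
        p ^ m • r = 0 → p ^ e • r = 0) →
      ∀ (X : Type) (π : FreeAlgebra ℤ X →+* Un R), Kills π := by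
  classical
  obtain ⟨k, hk, hstart⟩ := Super.start_Q ((d + 1) * 1 + d)
  choose D hD hE using fun i j : ℕ => hP3 (i + 1) (j + 1) (Nat.succ_pos _) (Nat.succ_pos _)
  set N0 := ∏ i ∈ range k, ∏ j ∈ range k, D i j with hN0def
  have hN0 : 0 < N0 := Finset.prod_pos (fun i _ => Finset.prod_pos (fun j _ => hD i j))
  have hdvd : ∀ i < k, ∀ j < k, D i j ∣ N0 := by
    intro i hi j hj
    exact (Finset.dvd_prod_of_mem (fun j => D i j) (Finset.mem_range.2 hj)).trans
      (Finset.dvd_prod_of_mem (fun i => ∏ j ∈ range k, D i j) (Finset.mem_range.2 hi))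
  have hC0 : Claim (pw N0) k k := by
    apply hcl
    intro k' l' hk1 hk2 hl1 hl2
    obtain ⟨i, rfl⟩ := Nat.exists_eq_succ_of_ne_zero hk1.ne'
    obtain ⟨j, rfl⟩ := Nat.exists_eq_succ_of_ne_zero hl1.ne'
    refine Engine_mono (fun U _ hU s hs => ?_) (hE i j)
    rw [Set.mem_singleton_iff.1 hs]
    exact isUnit_dvd (hdvd i (by omega) j (by omega)) (hU N0 ⟨1, (pow_one N0).symm⟩)
  refine ⟨N0, hN0, fun P hP R _ a ha hid htor => ?_⟩
  have hid' := (piid_iff R d a).1 hid
  obtain ⟨a', ha', hPI'⟩ := mpi_sub' (RU R) (aug_RU R) d a ha hid'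
  have hPIU : PIU (Un R) := ⟨_, a', ha', hPI'⟩
  have hQ : ∀ q, QTyp k k q (Un R) := fun q => hstart (Un R) a' ha' hPI' q
  have htor' : ∀ p : ℕ, ∃ e : ℕ, p.Prime → p ∣ N0 → p ∉ P → ∀ (r : R) (m : ℕ),
      p ^ m • r = 0 → p ^ e • r = 0 := by
    intro p
    by_cases h1 : p.Prime ∧ p ∣ N0 ∧ p ∉ P
    · obtain ⟨e, he⟩ := htor p h1.1 h1.2.1 h1.2.2
      exact ⟨e, fun _ _ _ => he⟩
    · exact ⟨0, fun h2 h3 h4 => absurd ⟨h2, h3, h4⟩ h1⟩
  choose e he using htor'
  set B := N0.primeFactors.filter (· ∉ P) with hB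
  have hBm : ∀ p, p ∈ B ↔ p.Prime ∧ p ∣ N0 ∧ p ∉ P := by
    intro p
    rw [hB, Finset.mem_filter, Nat.mem_primeFactors]
    exact ⟨fun h => ⟨h.1.1, h.1.2.1, h.2⟩, fun h => ⟨⟨h.1, h.2.1, hN0.ne'⟩, h.2.2⟩⟩
  set N := ∏ p ∈ B, p ^ (e p) with hN
  have hNpos : 0 < N := Finset.prod_pos (fun p hp => pow_pos ((hBm p).1 hp).1.pos _)
  have hNR : ∀ p ∈ B, ∀ r : R, N • p • r = 0 → N • r = 0 := by
    intro p hp r hr
    refine bounded B e (fun p hp => he p ((hBm p).1 hp).1 ((hBm p).1 hp).2.1 ((hBm p).1 hp).2.2)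
      ((∑ p ∈ B, e p) + 1) r ?_
    have h1 : N * p ∣ ∏ p ∈ B, p ^ ((∑ p ∈ B, e p) + 1) := by
      have h2 : N * p = ∏ p' ∈ B, (p' ^ (e p') * if p' = p then p else 1) := by
        rw [Finset.prod_mul_distrib, Finset.prod_ite_eq' B p, if_pos hp]
      rw [h2]
      refine Finset.prod_dvd_prod_of_dvd _ _ (fun p' hp' => ?_)
      have h3 : e p' ≤ ∑ p ∈ B, e p := Finset.single_le_sum (fun _ _ => Nat.zero_le _) hp'
      rw [pow_succ]
      refine mul_dvd_mul (pow_dvd_pow _ h3) ?_
      split_ifs with h4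
      · rw [h4]
      · exact one_dvd _
    obtain ⟨c, hc⟩ := h1
    rw [hc, mul_comm, mul_smul, mul_smul, hr, smul_zero]
  intro X π
  have h2s : (G_mulI (RU R) (aug_RU R) N).IsTwoSided := G_twoSided (RU R) (aug_RU R) N
  refine kills_of_mul π (Ideal.Quotient.mk (AnnI (Un R) N))
    (Ideal.Quotient.mk (G_mulI (RU R) (aug_RU R) N)) ?_ ?_ ?_
  · intro x y hx hy
    rw [Ideal.Quotient.eq_zero_iff_mem] at hx hy
    rw [mem_AnnI] at hx
    obtain ⟨r, _, rfl⟩ := (G_mem_mulI (RU R) (aug_RU R) N y).1 hy
    rw [← mul_assoc, ← (Nat.cast_commute N x).eq, ← nsmul_eq_mul, hx, zero_mul]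
  · have hsurj : Function.Surjective (Ideal.Quotient.mk (AnnI (Un R) N)) :=
      Ideal.Quotient.mk_surjective
    refine kills_good hN0 hC0 P (fun p hp hpp _ => hcl _ k k (fun k' l' h1 _ h2 _ =>
      hP p hp hpp k' l' h1 h2)) (PIU_surj _ hsurj hPIU) (fun q => QTyp_surj _ hsurj (hQ q)) ?_ _
    intro p hp hpN hpP u hu
    obtain ⟨w, rfl⟩ := hsurj u
    rw [← map_nsmul, Ideal.Quotient.eq_zero_iff_mem, mem_AnnI] at hu
    rw [Ideal.Quotient.eq_zero_iff_mem, mem_AnnI]
    have h1 : fstU R w = 0 := by
      have h2 := congrArg (fstU R) hu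
      rw [map_nsmul, map_nsmul, map_zero, smul_smul, nsmul_eq_mul] at h2
      rcases mul_eq_zero.1 h2 with h3 | h3
      · have : N * p ≠ 0 := (Nat.mul_pos hNpos hp.pos).ne'
        exact absurd (by exact_mod_cast h3) this
      · exact h3
    obtain ⟨r, rfl⟩ := (mem_RU R w).1 h1
    rw [← map_nsmul, ← map_nsmul] at hu
    have h4 : N • p • r = 0 := inU_injective R (hu.trans (map_zero _).symm)
    rw [← map_nsmul, hNR p ((hBm p).2 ⟨hp, hpN, hpP⟩) r h4, map_zero]
  · have hsurj : Function.Surjective (Ideal.Quotient.mk (G_mulI (RU R) (aug_RU R) N)) :=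
      Ideal.Quotient.mk_surjective
    refine kills_of_char N hNpos ((RU R).map (Ideal.Quotient.mk (G_mulI (RU R) (aug_RU R) N)))
      (G_aug_map (RU R) (aug_RU R) _ hsurj) _ d a ha (G_pi_map (RU R) _ d a hid') ?_
    rintro _ ⟨r, hr, rfl⟩
    change (N : Un R ⧸ G_mulI (RU R) (aug_RU R) N) *
      Ideal.Quotient.mk (G_mulI (RU R) (aug_RU R) N) r = 0
    rw [← map_natCast (Ideal.Quotient.mk (G_mulI (RU R) (aug_RU R) N)) N, ← map_mul,
      Ideal.Quotient.eq_zero_iff_mem]
    exact ⟨r, hr, rfl⟩


/-- THE COVER THEOREM.  `P` = a set of primes with engines.  Let `R` be a PI ring with ideals `J_0, …, J_c` with product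
zero such that every `R/J_i` satisfies a Capelli identity or has bounded `p`-primary torsion for all primes `p ∉ P`.
Then `R` is an image of a torsion free PI ring. -/
theorem cover (P : Set ℕ)
    (hP : ∀ p ∈ P, p.Prime → ∀ k l, 0 < k → 0 < l → Engine (cop p) k l)
    (R : Type) [NonUnitalRing R] (hPI : PIid R) (c : ℕ) (Q : Fin (c + 1) → Type)
    [∀ i, NonUnitalRing (Q i)] (f : ∀ i, R →ₙ+* Q i) (hf : ∀ i, Function.Surjective (f i))
    (hprod : ∀ a : Fin (c + 1) → R, (∀ i, f i (a i) = 0) →
      (List.ofFn fun i : Fin c => a i.succ).foldl (fun u v => u * v) (a 0) = 0)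
    (hQ : ∀ i, (∀ p : ℕ, p.Prime → p ∉ P → ∃ e : ℕ, ∀ (y : Q i) (m : ℕ),
      p ^ m • y = 0 → p ^ e • y = 0) ∨ CapN (Q i)) : Im R := by
  apply im_of_kills
  apply kills_family R c Q f hprod
  intro i
  obtain ⟨d, a, ha, hid⟩ := hPI
  have hidU := (piid_iff R d a).1 hid
  have hidQ : ∀ x : Fin (d + 1) → Un (Q i), (∀ j, x j ∈ RU (Q i)) →
      ∑ σ, a σ • mono x σ = 0 := by
    intro y hy
    have h1 : ∀ j, ∃ r, inU (Q i) r = y j := fun j => (mem_RU (Q i) _).1 (hy j)
    choose r hr using h1
    have h2 : ∀ j, ∃ s, f i s = r j := fun j => hf i (r j)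
    choose s hs using h2
    have h3 := congrArg (unMap (f i)) (hidU (fun j => inU R (s j))
      (fun j => (mem_RU R _).2 ⟨_, rfl⟩))
    rw [map_sum, map_zero] at h3
    rw [← h3]
    refine Finset.sum_congr rfl fun σ _ => ?_
    rw [map_zsmul, mono, mono, map_list_prod, List.map_ofFn]
    refine congrArg (fun w => a σ • (List.ofFn w).prod) ?_
    funext j
    change y (σ j) = unMap (f i) (inU R (s (σ j)))
    rw [unMap_inU, hs, hr]
  rcases hQ i with htor | hcap
  · obtain ⟨N0, _, h⟩ := finalK claim_of_engine (fun k l hk _ => engine_P3 k l (by omega)) d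
    exact h P hP (Q i) a ha ((piid_iff (Q i) d a).2 hidQ) (fun p hp _ hpP => htor p hp hpP) _ _
  · obtain ⟨n, hn⟩ := (capN_iff (Q i)).1 hcap
    exact kills_of_capIn (RU (Q i)) (aug_RU (Q i)) _ n hn

end Pool.PI34.T2

end

/-! ### part T3_All -/
section

/-!
PI34, THEOREM T3, in the form with chains of ideals: all the odd primes have engines.
-/

set_option autoImplicit false

namespace Pool.PI34.T3

open Pool.PI34.T1

/-- (H4) -/
theorem hmain (p : ℕ) (hp : p.Prime) (K : ℕ) : Super.HMain p K := by
  obtain ⟨D, hD, h⟩ := SS.main' K p hp.one_lt.le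
  refine ⟨D, hD, ?_⟩
  intro n Φ U _ _ S hA e e' hF hinv X g hg r
  refine h S hA e e' hF (fun m hm x hx => hinv m (fun hpm => ?_) x hx) g hg r
  exact hp.one_lt.ne' (Nat.dvd_one.1 ((Nat.Coprime.dvd_of_dvd_mul_left
    (n := 1) hm.symm (by simpa using hpm))))

/-- the engines at the odd primes -/
theorem engine (p : ℕ) (hp : p.Prime) (hp2 : p ≠ 2) (k l : ℕ) (hk : 0 < k) :
    T2.Engine (T2.cop p) k l := by
  have : Fact p.Prime := ⟨hp⟩
  exact Super.engine_p (by omega) (SK.exists_catP hp2 (Super.Ap p) k l) (hmain p hp (k + l))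

/-- THEOREM T3 (form with a chain of ideals) -/
theorem cover2 (R : Type) [NonUnitalRing R] (hPI : PIid R) (c : ℕ) (Q : Fin (c + 1) → Type)
    [∀ i, NonUnitalRing (Q i)] (f : ∀ i, R →ₙ+* Q i) (hf : ∀ i, Function.Surjective (f i))
    (hprod : ∀ a : Fin (c + 1) → R, (∀ i, f i (a i) = 0) →
      (List.ofFn fun i : Fin c => a i.succ).foldl (fun u v => u * v) (a 0) = 0)
    (hQ : ∀ i, (∃ e : ℕ, ∀ (y : Q i) (m : ℕ), 2 ^ m • y = 0 → 2 ^ e • y = 0) ∨ CapN (Q i)) :
    Im R := by
  refine T2.cover {p | p ≠ 2} (fun p hp hpp k l hk _ => engine p hpp hp k l hk) R hPI c Q f hf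
    hprod (fun i => ?_)
  rcases hQ i with h | h
  · refine Or.inl fun p _ hp => ?_
    have hp2 : p = 2 := by
      by_contra h2
      exact hp h2
    subst hp2
    exact h
  · exact Or.inr h

end Pool.PI34.T3

end

/-! ### part Fin_S00669 -/
section

/-! PI34: the final step (all primes). -/

set_option autoImplicit false

namespace Pool.PI34.Fin669

open Pool.PI34.T1

/-- every PI ring is an image of a torsion-free PI ring, from the engines at the prime 2 -/
theorem im_of_engine2
    (h2 : ∀ k l : ℕ, 0 < k → 0 < l → T2.Engine (T2.cop 2) k l)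
    (R : Type) [NonUnitalRing R] (hPI : PIid R) : Im R := by
  refine T2.cover Set.univ (fun p _ hp k l hk hl => ?_) R hPI 0 (fun _ => R)
    (fun _ => NonUnitalRingHom.id R) (fun _ => Function.surjective_id) (fun a ha => ?_)
    (fun i => Or.inl fun p _ hp => absurd (Set.mem_univ p) hp)
  · by_cases hp2 : p = 2
    · subst hp2
      exact h2 k l hk hl
    · exact T3.engine p hp hp2 k l hk
  · have := ha 0
    simpa using this

end Pool.PI34.Fin669

end
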