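import Pool.Agent.LibPI54.M04
import Pool.Agent.LibPI54.M47
import Pool.Agent.LibPI54.M50
import Pool.Agent.LibPI54.M54
import Pool.Agent.LibPI54.M55
import Pool.Agent.LibPI54.M56
import Pool.Agent.LibPI54.M58
import Pool.Agent.LibPI54.M59
import Pool.Agent.LibPI54.M61

/-! ### part X_HEx2 -/
section

/-!
PI34, p = 2: from `HExD k D` to `HEx k`.
-/

set_option autoImplicit false
set_option linter.unusedSectionVars false

namespace Pool.PI34.XX

open Equiv Finset
open Pool.PI34.Super (Lt odd act bc W)
open Pool.PI34.SS (FA)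
open Pool.PI34.BA (anti permsOn Frame Anti mem_permsOn)

/-- `fval` is a ring homomorphism -/
noncomputable def fvH {n : ℕ} {U : Type} [Ring U] (f : Perm (Fin (n + 1)) →* U) :
    MonoidAlgebra ℤ (Perm (Fin n)) →ₐ[ℤ] U :=
  MonoidAlgebra.lift ℤ U (Perm (Fin n)) (f.comp (Super.ext (Fin.succOrderEmb n)))

theorem fvH_of {n : ℕ} {U : Type} [Ring U] (f : Perm (Fin (n + 1)) →* U) (σ : Perm (Fin n)) :
    fvH f (MonoidAlgebra.of ℤ _ σ) = f (Super.ext (Fin.succOrderEmb n) σ) := by
  unfold fvH
  rw [MonoidAlgebra.lift_of]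
  rfl

theorem fval_eq {n : ℕ} {U : Type} [Ring U] (f : Perm (Fin (n + 1)) →* U)
    (Y : MonoidAlgebra ℤ (Perm (Fin n))) : fval f Y = fvH f Y := by
  classical
  induction Y using MonoidAlgebra.induction_on with
  | of τ =>
    rw [fvH_of]
    unfold fval
    rw [Finset.sum_eq_single τ]
    · simp [MonoidAlgebra.of_apply]
    · intro σ _ hσ
      simp only [MonoidAlgebra.of_apply, MonoidAlgebra.coeff_single]
      rw [Finsupp.single_eq_of_ne hσ]
      simp
    · intro h; exact absurd (mem_univ _) h
  | add x y hx hy =>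
    rw [map_add, ← hx, ← hy]
    unfold fval
    rw [← Finset.sum_add_distrib]
    refine Finset.sum_congr rfl fun σ _ => ?_
    rw [MonoidAlgebra.coeff_add, Finsupp.add_apply, add_smul]
  | smul c x hx =>
    rw [map_smul, ← hx]
    unfold fval
    rw [Finset.smul_sum]
    refine Finset.sum_congr rfl fun σ _ => ?_
    rw [MonoidAlgebra.coeff_smul, Finsupp.smul_apply, smul_eq_mul, mul_smul]

/-- the signed sum in the group algebra -/
noncomputable def AT {n : ℕ} (T : Finset (Fin n)) : MonoidAlgebra ℤ (Perm (Fin n)) :=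
  ∑ σ ∈ permsOn T, ((Perm.sign σ : ℤˣ) : ℤ) • MonoidAlgebra.of ℤ _ σ

theorem fvH_AT {n : ℕ} {U : Type} [Ring U] (f : Perm (Fin (n + 1)) →* U) (T : Finset (Fin n)) :
    fvH f (AT T) = anti f (T.map (Fin.succEmb n)) := by
  classical
  unfold AT anti
  rw [map_sum]
  refine Finset.sum_bij (fun σ _ => Super.ext (Fin.succOrderEmb n) σ) ?_ ?_ ?_ ?_
  · intro σ hσ
    have h1 : ∀ x, x ∉ T → σ x = x := mem_permsOn.1 hσ
    refine mem_permsOn.2 (fun x hx => ?_)
    by_cases h : x ∈ Set.range (Fin.succOrderEmb n)
    · obtain ⟨y, rfl⟩ := h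
      rw [Super.ext_apply, h1 y]
      intro hy
      exact hx (Finset.mem_map.2 ⟨y, hy, rfl⟩)
    · exact Super.ext_apply' _ _ _ h
  · intro σ _ τ _ h
    ext x
    have h1 := congrArg (fun p : Perm (Fin (n + 1)) => p (Fin.succOrderEmb n x)) h
    simp only [Super.ext_apply] at h1
    exact congrArg Fin.val ((Fin.succOrderEmb n).injective h1)
  · intro τ hτ
    have h1 : ∀ x, x ∉ T.map (Fin.succEmb n) → τ x = x := mem_permsOn.1 hτ
    have h0 : τ 0 = 0 := h1 0 (by
      intro h
      obtain ⟨y, _, hy⟩ := Finset.mem_map.1 h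
      exact Fin.succ_ne_zero y hy)
    have hne : ∀ x : Fin n, τ x.succ ≠ 0 := by
      intro x h
      have h2 : τ x.succ = τ 0 := h.trans h0.symm
      exact Fin.succ_ne_zero x (τ.injective h2)
    have hne' : ∀ x : Fin n, τ.symm x.succ ≠ 0 := by
      intro x h
      have h2 : x.succ = τ 0 := by rw [← h, Equiv.apply_symm_apply]
      rw [h0] at h2
      exact Fin.succ_ne_zero x h2
    let σ : Perm (Fin n) :=
      { toFun := fun x => (τ x.succ).pred (hne x)
        invFun := fun x => (τ.symm x.succ).pred (hne' x)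
        left_inv := fun x => by
          apply Fin.succ_injective
          rw [Fin.succ_pred, Fin.succ_pred, Equiv.symm_apply_apply]
        right_inv := fun x => by
          apply Fin.succ_injective
          rw [Fin.succ_pred, Fin.succ_pred, Equiv.apply_symm_apply] }
    have hσ : ∀ x, (σ x).succ = τ x.succ := fun x => Fin.succ_pred _ (hne x)
    refine ⟨σ, ?_, ?_⟩
    · refine mem_permsOn.2 (fun x hx => ?_)
      apply Fin.succ_injective
      rw [hσ]
      apply h1
      intro h
      obtain ⟨y, hy, hyx⟩ := Finset.mem_map.1 h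
      exact hx (Fin.succ_injective _ hyx ▸ hy)
    · ext x
      refine Fin.cases ?_ (fun y => ?_) x
      · rw [Super.ext_apply' _ _ _ (by
          rintro ⟨y, hy⟩
          exact Fin.succ_ne_zero y hy), h0]
      · have h2 := Super.ext_apply (Fin.succOrderEmb n) σ y
        have h3 : Fin.succOrderEmb n y = y.succ := rfl
        rw [h3] at h2
        rw [h2]
        exact congrArg Fin.val (hσ y)
  · intro σ _
    rw [map_zsmul, fvH_of]
    congr 1
    have : Perm.sign (Super.ext (Fin.succOrderEmb n) σ) = Perm.sign σ :=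
      H4.sign_via (Fin.succOrderEmb n).toEmbedding σ
    rw [this]

/-- the first half -/
def h1 (k : ℕ) : Finset (Fin (k + k)) := univ.map (Fin.castAddEmb k)

/-- the second half -/
def h2 (k : ℕ) : Finset (Fin (k + k)) := univ.map (Fin.natAddEmb k)

theorem nota {k : ℕ} {x : Fin (k + k)} (hx : x ∈ h1 k) : x ∉ h2 k := by
  obtain ⟨a, _, rfl⟩ := Finset.mem_map.1 hx
  intro h
  obtain ⟨b, _, hb⟩ := Finset.mem_map.1 h
  have h3 := congrArg Fin.val hb
  simp only [Fin.natAddEmb_apply, Fin.val_natAdd, Fin.castAddEmb_apply, Fin.val_castAdd] at h3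
  have := a.2
  omega

theorem act_AT {k n : ℕ} (T : Finset (Fin n)) (g : W k 0 (Fin n)) (w : Fin n → Lt k 0) :
    act k 0 _ (bc (AT T)) g w = ∑ σ ∈ permsOn T, ((Perm.sign σ : ℤˣ) : ℤ) * g (w ∘ σ) := by
  classical
  unfold AT
  rw [map_sum, map_sum, LinearMap.sum_apply, Finset.sum_apply]
  refine Finset.sum_congr rfl fun σ _ => ?_
  rw [act_even, Finset.sum_eq_single σ]
  · rw [MonoidAlgebra.coeff_smul, Finsupp.smul_apply, MonoidAlgebra.of_apply,
      MonoidAlgebra.coeff_single, Finsupp.single_eq_same]
    push_cast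
    simp
  · intro τ _ hτ
    rw [MonoidAlgebra.coeff_smul, Finsupp.smul_apply, MonoidAlgebra.of_apply,
      MonoidAlgebra.coeff_single, Finsupp.single_eq_of_ne hτ]
    simp
  · intro h; exact absurd (mem_univ _) h

theorem bc_mul {n : ℕ} (x y : MonoidAlgebra ℤ (Perm (Fin n))) : bc (x * y) = bc x * bc y :=
  map_mul _ _ _

/-- the bridge -/
theorem hEx_of_D {k D : ℕ} (hD : 0 < D) (h : HExD k D) : HEx k := by
  classical
  refine ⟨fun X => (SS.QI k X : Ideal (FA X)), k + k, (D : ℤ) • (AT (h1 k) * AT (h2 k)),
    ?_, ?_, ?_⟩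
  · intro X
    refine ⟨(inferInstance : (SS.QI k X).IsTwoSided), ?_, ?_⟩
    · intro m g hm hg
      exact SS.QQ_pure k X m g hm hg
    · obtain ⟨d, a, ha, h1⟩ := SS.QQ_MPI k
      exact ⟨d, a, ha, fun x => h1 X x⟩
  · let w0 : Fin (k + k) → Lt k 0 := Fin.append (fun i => Sum.inl i) (fun i => Sum.inl i)
    intro h0
    have e1 : act k 0 _ (bc ((D : ℤ) • (AT (h1 k) * AT (h2 k)))) (Pi.single w0 1) w0 = 0 := by
      rw [h0]; rfl
    rw [map_zsmul, map_zsmul, bc_mul, map_mul] at e1
    have e2 : (act k 0 _ (bc (AT (h1 k))) * act k 0 _ (bc (AT (h2 k)))) (Pi.single w0 1) w0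
        = 1 := by
      rw [Module.End.mul_apply, act_AT, Finset.sum_eq_single 1]
      · rw [act_AT, Finset.sum_eq_single 1]
        · simp
        · intro τ hτ hne
          rw [Pi.single_apply, if_neg, mul_zero]
          intro hw
          apply hne
          ext x
          by_cases hx : x ∈ h2 k
          · have h3 := congrFun hw x
            have h4 : τ x ∈ h2 k := by
              by_contra h5
              have h6 := mem_permsOn.1 hτ _ h5
              exact h5 ((τ.injective h6).symm ▸ hx)
            obtain ⟨a, _, ha⟩ := Finset.mem_map.1 hx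
            obtain ⟨b, _, hb⟩ := Finset.mem_map.1 h4
            have ha' : x = Fin.natAdd k a := ha.symm
            have hb' : τ x = Fin.natAdd k b := hb.symm
            simp only [Perm.coe_one, Function.comp_apply, CompTriple.comp_eq] at h3
            rw [hb', ha'] at h3
            simp only [w0, Fin.append_right, Sum.inl.injEq] at h3
            rw [hb', ha', h3]
            rfl
          · rw [mem_permsOn.1 hτ x hx]
            rfl
        · intro h; exact absurd (mem_permsOn.2 fun x _ => rfl) h
      · intro σ hσ hne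
        rw [act_AT]
        have h3 : ∑ τ ∈ permsOn (h2 k), ((Perm.sign τ : ℤˣ) : ℤ) *
            (Pi.single w0 (1 : ℚ) : W k 0 (Fin (k + k))) ((w0 ∘ σ) ∘ τ) = 0 := by
          refine Finset.sum_eq_zero fun τ hτ => ?_
          rw [Pi.single_apply, if_neg, mul_zero]
          intro hw
          apply hne
          ext x
          by_cases hx : x ∈ h1 k
          · have h3 := congrFun hw x
            have h4 : σ x ∈ h1 k := by
              by_contra h5
              have h6 := mem_permsOn.1 hσ _ h5
              exact h5 ((σ.injective h6).symm ▸ hx)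
            obtain ⟨a, _, ha⟩ := Finset.mem_map.1 hx
            obtain ⟨b, _, hb⟩ := Finset.mem_map.1 h4
            have ha' : x = Fin.castAdd k a := ha.symm
            have hb' : σ x = Fin.castAdd k b := hb.symm
            simp only [Function.comp_apply] at h3
            rw [mem_permsOn.1 hτ x (nota hx), hb', ha'] at h3
            simp only [w0, Fin.append_left, Sum.inl.injEq] at h3
            rw [hb', ha', h3]
            rfl
          · rw [mem_permsOn.1 hσ x hx]
            rfl
        rw [h3, mul_zero]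
      · intro h; exact absurd (mem_permsOn.2 fun x _ => rfl) h
    rw [LinearMap.smul_apply, Pi.smul_apply, e2, zsmul_eq_mul, mul_one] at e1
    have : (D : ℚ) = 0 := by exact_mod_cast e1
    exact hD.ne' (by exact_mod_cast this)
  · intro Φ U _ _ S hA hinv X π G hG
    let e : Fin k ↪ Fin (k + k + 1) := (Fin.castAddEmb k).trans (Fin.succEmb (k + k))
    let e' : Fin k ↪ Fin (k + k + 1) := (Fin.natAddEmb k).trans (Fin.succEmb (k + k))
    have hF : Frame e e' 0 := by
      refine ⟨?_, ?_, ?_⟩
      · intro i j hij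
        have h3 : Fin.castAdd k i = Fin.natAdd k j := Fin.succ_injective _ hij
        have h4 := congrArg Fin.val h3
        rw [Fin.val_castAdd, Fin.val_natAdd] at h4
        have := i.2
        omega
      · intro i hi
        exact Fin.succ_ne_zero _ hi
      · intro i hi
        exact Fin.succ_ne_zero _ hi
    have h3 := h (k + k) Φ U S hA e e' hF hinv X G hG (fun x => π (FreeAlgebra.ι ℤ x))
    have h4 : π G = FA.lift (fun x => π (FreeAlgebra.ι ℤ x)) G :=
      SS.FA.ext (A := Φ) π (SS.FA.lift (fun x => π (FreeAlgebra.ι ℤ x)))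
        (fun x => by rw [SS.FA.lift_of]; rfl) G
    have h5 : fval S.f ((D : ℤ) • (AT (h1 k) * AT (h2 k)))
        = (D : ℤ) • (anti S.f (univ.map e) * anti S.f (univ.map e')) := by
      rw [fval_eq, map_zsmul, map_mul, fvH_AT, fvH_AT]
      unfold h1 h2
      rw [Finset.map_map, Finset.map_map]
    rw [h5, mul_smul_comm, h4, natCast_zsmul]
    exact h3

end Pool.PI34.XX

end

/-! ### part X_Fin -/
section

/-!
PI34, p = 2: the engine from the leaves.
-/

set_option autoImplicit false

namespace Pool.PI34.XX

theorem engine_two (hS : ∀ k, XH.Start k) (hP : EV.PartII) (k l : ℕ) (h : 0 < k + l) :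
    T2.Engine (T2.cop 2) k l := by
  obtain ⟨D, hD, hs⟩ := XS.sex_of_chase
    (fun N n m M _ S C _ c hc t ht W _ psi hr => XS.CS.chase S c hc t ht W psi hr)
    (EV.even1_of_partII hP) (k + l)
  exact ringSide modelSide k l h (EX.EXT_all k l h)
    (hEx_of_D hD (XH.hexD (VL.val _) (hS _) hs))

end Pool.PI34.XX

end

/-! ### part Full669 -/
section

/-! PI34: the full theorem, for arbitrary polynomial identities. -/

set_option autoImplicit false

namespace Pool.PI34.Fin669

open Pool.PI34.T1

/-- every PI ring is an image of a torsion-free PI ring -/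
theorem im_all (R : Type) [NonUnitalRing R] (h : PIid R) : Im R :=
  im_of_engine2 (fun k l hk _ => XX.engine_two (fun k => XH.start k) EV.partII k l
    (Nat.add_pos_left hk l)) R h

/-- a ring with a multilinear identity with coefficient one is a PI ring -/
theorem isPI_of_piid {R : Type} [NonUnitalRing R] (h : PIid R) : CV.IsPI R := by
  obtain ⟨d, a, ha, hid⟩ := h
  exact CV.isPI_of_sat d a ha (CV.sat_mlp d a hid)

end Pool.PI34.Fin669

end
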